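import Pool.Agent.Lib.MP_5854e1_co.Third

/-!
# The third option and the rotation of a triangle
-/

set_option autoImplicit false

open Equiv Equiv.Perm

namespace Pool.Agent.Lib.MP_5854e1_co

open Model24 (Kind)

theorem length_tri (k o : ℕ) : (tri k o).length = triOff k (o + 1) - triOff k o :=
  length_rUnpk _ _ _ _

theorem getElem_tri {k o i : ℕ} (h : i < (tri k o).length) :
    (tri k o)[i] = triA k (triOff k o + i) := by
  have h1 : (tri k o)[i] = (rGet 0 triP k >>> (11 * triOff k o)) >>> (11 * i) % 2048 := by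
    unfold tri
    exact getElem_rUnpk 11 2048 _ _ i _
  rw [h1, ← Nat.shiftRight_add, ← mul_add]
  rfl

theorem flA_eq {k o : ℕ} (hk : k < 101) (ho : o < (opt k).length) :
    flA k o = flE ((opt k)[o]) o := by
  have h0 := fl_eq hk
  have h1 : o < (fl k).length := by rw [h0, List.length_map, List.length_zipIdx]; exact ho
  have h2 : (fl k)[o] = flE ((opt k)[o]) o := by
    simp only [h0, List.getElem_map, List.getElem_zipIdx, Nat.zero_add]
  rw [← h2]
  unfold fl
  exact (getElem_rUnpk 21 2097152 _ _ o _).symm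

namespace SMap

variable {F : Type*} (T : SMap F)

theorem flA_ox (d : F) : flA (T.kx d) (T.ox d) = T.ex d := by
  rw [flA_eq (T.kx_lt d) (T.ox_lt_length d), opt_ox]
  rfl

theorem optA_ox (d : F) : optA (T.kx d) (T.ox d) = T.oc d := by
  rw [optA_eq (T.kx_lt d) (T.ox_lt_length d), opt_ox]

/-- An option is determined by its code. -/
theorem ox_eq_of_optA {d : F} {t : ℕ} (ht : t < optN (T.kx d)) (h : optA (T.kx d) t = T.oc d) :
    t = T.ox d := by
  rw [optN_eq (T.kx_lt d)] at ht
  rw [optA_eq (T.kx_lt d) ht] at h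
  have h1 : (opt (T.kx d))[t] = (opt (T.kx d))[T.ox d]'(T.ox_lt_length d) := by
    rw [h, opt_ox]
  exact (List.Nodup.getElem_inj_iff (opt_nodup (T.kx_lt d))).1 h1

theorem tri_px {d : F} (h : T.face^[3] (T.N d) = T.N d) :
    T.px d < (tri (T.kx d) (T.ox d)).length ∧
      triA (T.kx d) (triOff (T.kx d) (T.ox d) + T.px d) = T.tc d := by
  have h1 : T.px d < (tri (T.kx d) (T.ox d)).length :=
    List.idxOf_lt_length_iff.2 (T.tc_mem h)
  refine ⟨h1, ?_⟩
  rw [← getElem_tri h1]
  exact List.getElem_idxOf h1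

/-- The index of the corner after `d` in the whole list of triangular corners of its shape. -/
def jx (d : F) : ℕ := triOff (T.kx d) (T.ox d) + T.px d

/-- **The third option.** -/
theorem t3A_jx {d : F} (h : T.face^[3] (T.N d) = T.N d) :
    t3A (T.kx d) (T.jx d) = T.ox (T.I (T.N (T.I (T.N d)))) := by
  obtain ⟨h1, h2⟩ := T.tri_px h
  have hN := T.N_third h
  set e := T.I (T.N d) with he
  set f := T.I (T.N e) with hf
  have h3 := rAllN_iff.1 (rAll_iff.1 (rAllN_iff.1 t3_check _ (T.kx_lt d)) _ (T.ex_mem d)) (T.px d)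
    (by
      show T.px d < triOff (T.kx d) (T.ex d % 512 + 1) - triOff (T.kx d) (T.ex d % 512)
      rw [ex_ox, ← length_tri]
      exact h1)
  have h4 : t3C (rv (T.kx d) % 24) (rv (T.kx d) / 24) (T.ex d)
      (flA (T.ex d / 16384) (triA (T.kx d) (triOff (T.kx d) (T.ex d % 512) + T.px d) % 512))
      (triA (T.kx d) (triOff (T.kx d) (T.ex d % 512) + T.px d) / 512)
      (t3A (T.kx d) (triOff (T.kx d) (T.ex d % 512) + T.px d)) = true := h3
  have h5 := T.ox_lt e
  have h6 := kc_lt (T.K (T.I d))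
  have e1 : T.tc d % 512 = T.ox e := by
    show (T.ox e + 512 * kc (T.K (T.I d))) % 512 = _
    omega
  have e2 : T.tc d / 512 = kc (T.K (T.I d)) := by
    show (T.ox e + 512 * kc (T.K (T.I d))) / 512 = _
    omega
  rw [ex_ox, ex_kx, h2, e1, e2, flA_ox] at h4
  obtain ⟨h7, h8⟩ := rAnd_iff.1 h4
  have h9 : t3A (T.kx d) (T.jx d) < optN (T.kx f) := by
    have := Nat.le_of_ble_eq_true h7
    rw [← T.ex_kx e]
    exact this
  refine T.ox_eq_of_optA h9 ?_
  have h10 := Nat.eq_of_beq_eq_true h8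
  have h11 : optA (T.ex e / 16384) (t3A (T.kx d) (T.jx d)) =
      kc (T.K (T.I d)) + (3 * rotC (T.ex e / 512 % 32) (rotC (T.ex d / 512 % 32)
        (rv (T.kx d) % 24)) + 72 * (rv (T.kx d) / 24)) := h10
  rw [ex_kx, ex_lx, ex_lx] at h11
  rw [h11]
  have h12 : T.lx f (T.I d) = rotC (T.lx e f) (rotC (T.lx d e) (rv (T.kx d) % 24)) := by
    rw [T.lx_rot e f (T.I d), T.lx_rot d e (T.I d), lx_I]
  unfold oc ocode
  rw [hN, kx_I, h12]
  ring

/-- The rotated triangle. -/
theorem face_rotate {d : F} (h : T.face^[3] (T.N d) = T.N d) :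
    T.face^[3] (T.N (T.I (T.N d))) = T.N (T.I (T.N d)) :=
  T.iterate_face_of h 1

/-- The code of the rotated triangle. -/
theorem tc_rotate (d : F) : T.tc (T.I (T.N d)) =
    T.ox (T.I (T.N (T.I (T.N d)))) + 512 * (T.oc d % 3) := by
  unfold tc
  rw [T.I_I, oc_κ]

end SMap

end Pool.Agent.Lib.MP_5854e1_co
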