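import Pool.Agent.Lib.MP_5854e1_co.DartSound
import Pool.Agent.Lib.MP_5854e1_co.ThirdSound

/-!
# The accepted options at a node of the automaton
-/

set_option autoImplicit false

open Equiv Equiv.Perm

namespace Pool.Agent.Lib.MP_5854e1_co

open Model24 (Kind)

noncomputable section

/-- A list of accepted options: the index of the option, the next shape, the next node; at the end
the mask of the closing kinds. -/
inductive AL where
  | nil (mask : ℕ) : AL
  | cons (o k : ℕ) (m : Nd) (rest : AL) : AL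

namespace AL

/-- Membership. -/
def Mem (o k : ℕ) (m : Nd) (l : AL) : Prop :=
  AL.rec (motive := fun _ => Prop) (fun _ => False)
    (fun o' k' m' _ ih => (o = o' ∧ k = k' ∧ m = m') ∨ ih) l

/-- The mask of the closing kinds. -/
def mask (l : AL) : ℕ := AL.rec (motive := fun _ => ℕ) (fun m => m) (fun _ _ _ _ ih => ih) l

/-- All entries satisfy a condition. -/
def all (f : ℕ → ℕ → Nd → Bool) (l : AL) : Bool :=
  AL.rec (motive := fun _ => Bool) (fun _ => true)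
    (fun o k m _ ih => Bool.rec (motive := fun _ => Bool) false ih (f o k m)) l

theorem all_mem {f : ℕ → ℕ → Nd → Bool} : ∀ {l : AL}, l.all f = true → ∀ {o k : ℕ} {m : Nd},
    l.Mem o k m → f o k m = true := by
  intro l
  induction l with
  | nil _ => intro _ o k m h; exact absurd h id
  | cons o' k' m' rest ih =>
    intro h o k m hm
    have h1 : (Bool.rec (motive := fun _ => Bool) false (rest.all f) (f o' k' m')) = true := h
    cases hf : f o' k' m' with
    | false => rw [hf] at h1; exact absurd h1 Bool.false_ne_true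
    | true =>
      rw [hf] at h1
      rcases (show (o = o' ∧ k = k' ∧ m = m') ∨ rest.Mem o k m from hm) with h2 | h2
      · obtain ⟨rfl, rfl, rfl⟩ := h2
        exact hf
      · exact ih h1 h2

end AL

/-! ### The groups of options with the same first arc -/

/-- A group of options with the same first arc: index, shape, further arcs. -/
inductive OG where
  | nil : OG
  | cons (o k : ℕ) (t : List ℕ) (rest : OG) : OG

/-- The groups of options by the first arc. -/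
inductive OGS where
  | nil : OGS
  | cons (c : ℕ) (g : OG) (rest : OGS) : OGS

/-- The elements of a group. -/
def OG.toList (g : OG) : List (ℕ × List ℕ × ℕ) :=
  OG.rec (motive := fun _ => List (ℕ × List ℕ × ℕ)) [] (fun o k t _ ih => (o, t, k) :: ih) g

/-- The group of the first arc `c`. -/
def OGS.find (c : ℕ) (s : OGS) : OG :=
  OGS.rec (motive := fun _ => OG) OG.nil
    (fun c' g _ ih => Bool.rec (motive := fun _ => OG) ih g (Nat.beq c' c)) s

/-- A list of arcs. -/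
def tl0 : List ℕ := []

/-- A list of arcs. -/
def tl1 : List ℕ := [nat_lit 3]

/-- A list of arcs. -/
def tl2 : List ℕ := [nat_lit 3, nat_lit 14]

/-- A list of arcs. -/
def tl3 : List ℕ := [nat_lit 3, nat_lit 55]

/-- A list of arcs. -/
def tl4 : List ℕ := [nat_lit 3, nat_lit 56]

/-- A list of arcs. -/
def tl5 : List ℕ := [nat_lit 3, nat_lit 67]

/-- A list of arcs. -/
def tl6 : List ℕ := [nat_lit 3, nat_lit 68]

/-- A list of arcs. -/
def tl7 : List ℕ := [nat_lit 6]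

/-- A list of arcs. -/
def tl8 : List ℕ := [nat_lit 6, nat_lit 14]

/-- A list of arcs. -/
def tl9 : List ℕ := [nat_lit 6, nat_lit 14, nat_lit 9]

/-- A list of arcs. -/
def tl10 : List ℕ := [nat_lit 6, nat_lit 55]

/-- A list of arcs. -/
def tl11 : List ℕ := [nat_lit 6, nat_lit 55, nat_lit 6]

/-- A list of arcs. -/
def tl12 : List ℕ := [nat_lit 6, nat_lit 55, nat_lit 6, nat_lit 55]

/-- A list of arcs. -/
def tl13 : List ℕ := [nat_lit 6, nat_lit 56]

/-- A list of arcs. -/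
def tl14 : List ℕ := [nat_lit 6, nat_lit 56, nat_lit 6]

/-- A list of arcs. -/
def tl15 : List ℕ := [nat_lit 6, nat_lit 68]

/-- A list of arcs. -/
def tl16 : List ℕ := [nat_lit 9]

/-- A list of arcs. -/
def tl17 : List ℕ := [nat_lit 9, nat_lit 14]

/-- A list of arcs. -/
def tl18 : List ℕ := [nat_lit 9, nat_lit 14, nat_lit 6]

/-- A list of arcs. -/
def tl19 : List ℕ := [nat_lit 9, nat_lit 56]

/-- A list of arcs. -/
def tl20 : List ℕ := [nat_lit 9, nat_lit 67]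

/-- A list of arcs. -/
def tl21 : List ℕ := [nat_lit 9, nat_lit 67, nat_lit 9]

/-- A list of arcs. -/
def tl22 : List ℕ := [nat_lit 9, nat_lit 67, nat_lit 9, nat_lit 67]

/-- A list of arcs. -/
def tl23 : List ℕ := [nat_lit 9, nat_lit 68]

/-- A list of arcs. -/
def tl24 : List ℕ := [nat_lit 9, nat_lit 68, nat_lit 9]

/-- A list of arcs. -/
def tl25 : List ℕ := [nat_lit 14]

/-- A list of arcs. -/
def tl26 : List ℕ := [nat_lit 14, nat_lit 3]

/-- A list of arcs. -/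
def tl27 : List ℕ := [nat_lit 14, nat_lit 6]

/-- A list of arcs. -/
def tl28 : List ℕ := [nat_lit 14, nat_lit 9]

/-- A list of arcs. -/
def tl29 : List ℕ := [nat_lit 17]

/-- A list of arcs. -/
def tl30 : List ℕ := [nat_lit 20]

/-- A list of arcs. -/
def tl31 : List ℕ := [nat_lit 23]

/-- A list of arcs. -/
def tl32 : List ℕ := [nat_lit 26]

/-- A list of arcs. -/
def tl33 : List ℕ := [nat_lit 29]

/-- A list of arcs. -/
def tl34 : List ℕ := [nat_lit 32]

/-- A list of arcs. -/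
def tl35 : List ℕ := [nat_lit 35]

/-- A list of arcs. -/
def tl36 : List ℕ := [nat_lit 38]

/-- A list of arcs. -/
def tl37 : List ℕ := [nat_lit 40]

/-- A list of arcs. -/
def tl38 : List ℕ := [nat_lit 41]

/-- A list of arcs. -/
def tl39 : List ℕ := [nat_lit 43]

/-- A list of arcs. -/
def tl40 : List ℕ := [nat_lit 44]

/-- A list of arcs. -/
def tl41 : List ℕ := [nat_lit 46]

/-- A list of arcs. -/
def tl42 : List ℕ := [nat_lit 47]

/-- A list of arcs. -/
def tl43 : List ℕ := [nat_lit 50]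

/-- A list of arcs. -/
def tl44 : List ℕ := [nat_lit 52]

/-- A list of arcs. -/
def tl45 : List ℕ := [nat_lit 53]

/-- A list of arcs. -/
def tl46 : List ℕ := [nat_lit 55]

/-- A list of arcs. -/
def tl47 : List ℕ := [nat_lit 55, nat_lit 3]

/-- A list of arcs. -/
def tl48 : List ℕ := [nat_lit 55, nat_lit 3, nat_lit 67]

/-- A list of arcs. -/
def tl49 : List ℕ := [nat_lit 55, nat_lit 6]

/-- A list of arcs. -/
def tl50 : List ℕ := [nat_lit 55, nat_lit 6, nat_lit 55]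

/-- A list of arcs. -/
def tl51 : List ℕ := [nat_lit 55, nat_lit 6, nat_lit 55, nat_lit 6]

/-- A list of arcs. -/
def tl52 : List ℕ := [nat_lit 56]

/-- A list of arcs. -/
def tl53 : List ℕ := [nat_lit 56, nat_lit 3]

/-- A list of arcs. -/
def tl54 : List ℕ := [nat_lit 56, nat_lit 6]

/-- A list of arcs. -/
def tl55 : List ℕ := [nat_lit 56, nat_lit 9]

/-- A list of arcs. -/
def tl56 : List ℕ := [nat_lit 58]

/-- A list of arcs. -/
def tl57 : List ℕ := [nat_lit 59]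

/-- A list of arcs. -/
def tl58 : List ℕ := [nat_lit 62]

/-- A list of arcs. -/
def tl59 : List ℕ := [nat_lit 64]

/-- A list of arcs. -/
def tl60 : List ℕ := [nat_lit 65]

/-- A list of arcs. -/
def tl61 : List ℕ := [nat_lit 67]

/-- A list of arcs. -/
def tl62 : List ℕ := [nat_lit 67, nat_lit 3]

/-- A list of arcs. -/
def tl63 : List ℕ := [nat_lit 67, nat_lit 3, nat_lit 55]

/-- A list of arcs. -/
def tl64 : List ℕ := [nat_lit 67, nat_lit 9]

/-- A list of arcs. -/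
def tl65 : List ℕ := [nat_lit 67, nat_lit 9, nat_lit 67]

/-- A list of arcs. -/
def tl66 : List ℕ := [nat_lit 67, nat_lit 9, nat_lit 67, nat_lit 9]

/-- A list of arcs. -/
def tl67 : List ℕ := [nat_lit 68]

/-- A list of arcs. -/
def tl68 : List ℕ := [nat_lit 68, nat_lit 3]

/-- A list of arcs. -/
def tl69 : List ℕ := [nat_lit 68, nat_lit 6]

/-- A list of arcs. -/
def tl70 : List ℕ := [nat_lit 68, nat_lit 9]

/-- A list of arcs. -/
def tl71 : List ℕ := [nat_lit 70]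

/-- A list of arcs. -/
def tl72 : List ℕ := [nat_lit 71]

/-- A group of options. -/
def gl0 : OG := .cons (nat_lit 0) (nat_lit 0) tl0 (.cons (nat_lit 1) (nat_lit 7) tl7 (.cons (nat_lit 2) (nat_lit 11) tl8 (.cons (nat_lit 3) (nat_lit 12) tl9 (.cons (nat_lit 4) (nat_lit 13) tl13 (.cons (nat_lit 5) (nat_lit 14) tl14 (.cons (nat_lit 6) (nat_lit 15) tl7 (.cons (nat_lit 7) (nat_lit 17) tl8 (.cons (nat_lit 8) (nat_lit 18) tl15 (.cons (nat_lit 9) (nat_lit 19) tl13 (.cons (nat_lit 10) (nat_lit 20) tl16 (.cons (nat_lit 11) (nat_lit 24) tl17 (.cons (nat_lit 12) (nat_lit 25) tl18 (.cons (nat_lit 13) (nat_lit 26) tl23 (.cons (nat_lit 14) (nat_lit 27) tl24 (.cons (nat_lit 15) (nat_lit 28) tl16 (.cons (nat_lit 16) (nat_lit 30) tl17 (.cons (nat_lit 17) (nat_lit 31) tl19 (.cons (nat_lit 18) (nat_lit 32) tl23 (.cons (nat_lit 19) (nat_lit 39) tl44 (.cons (nat_lit 20) (nat_lit 40) tl44 (.cons (nat_lit 21) (nat_lit 41) tl46 (.cons (nat_lit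 22) (nat_lit 42) tl49 (.cons (nat_lit 23) (nat_lit 43) tl50 (.cons (nat_lit 24) (nat_lit 44) tl51 (.cons (nat_lit 25) (nat_lit 45) tl49 (.cons (nat_lit 26) (nat_lit 46) tl50 (.cons (nat_lit 27) (nat_lit 47) tl47 (.cons (nat_lit 28) (nat_lit 48) tl48 (.cons (nat_lit 29) (nat_lit 49) tl56 (.cons (nat_lit 30) (nat_lit 50) tl59 (.cons (nat_lit 31) (nat_lit 51) tl59 (.cons (nat_lit 32) (nat_lit 52) tl61 (.cons (nat_lit 33) (nat_lit 53) tl64 (.cons (nat_lit 34) (nat_lit 54) tl65 (.cons (nat_lit 35) (nat_lit 55) tl66 (.cons (nat_lit 36) (nat_lit 56) tl64 (.cons (nat_lit 37) (nat_lit 57) tl65 (.cons (nat_lit 38) (nat_lit 58) tl62 (.cons (nat_lit 39) (nat_lit 59) tl63 (.cons (nat_lit 40) (nat_lit 60) tl71 (.cons (nat_lit 41) (nat_lit 61) tl25 (.cons (nat_lit 42) (nat_lit 62) tl26 (.cons (nat_lit 43) (nat_lit 63) tl28 (.cons (nat_lit 44) (nat_lit 64) tl28 (.cons (nat_lit 45) (nat_lit 65) tl27 (.cons (nat_lit 46) (nat_lit 66) tl27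 (.cons (nat_lit 47) (nat_lit 67) tl29 (.cons (nat_lit 48) (nat_lit 68) tl30 (.cons (nat_lit 49) (nat_lit 69) tl30 (.cons (nat_lit 50) (nat_lit 70) tl31 (.cons (nat_lit 51) (nat_lit 71) tl31 (.cons (nat_lit 52) (nat_lit 72) tl32 (.cons (nat_lit 53) (nat_lit 73) tl33 (.cons (nat_lit 54) (nat_lit 74) tl34 (.cons (nat_lit 55) (nat_lit 75) tl35 (.cons (nat_lit 56) (nat_lit 76) tl36 (.cons (nat_lit 57) (nat_lit 77) tl38 (.cons (nat_lit 58) (nat_lit 78) tl38 (.cons (nat_lit 59) (nat_lit 79) tl40 (.cons (nat_lit 60) (nat_lit 80) tl40 (.cons (nat_lit 61) (nat_lit 81) tl42 (.cons (nat_lit 62) (nat_lit 82) tl42 (.cons (nat_lit 63) (nat_lit 83) tl43 (.cons (nat_lit 64) (nat_lit 84) tl45 (.cons (nat_lit 65) (nat_lit 85) tl45 (.cons (nat_lit 66) (nat_lit 86) tl52 (.cons (nat_lit 67) (nat_lit 87) tl55 (.cons (nat_lit 68) (nat_lit 88) tl54 (.cons (nat_lit 69) (nat_lit 89) tl54 (.cons (nat_lit 70) (nat_lit 90) tl53 (.cons (nat_lit 71) (nat_lit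 91) tl57 (.cons (nat_lit 72) (nat_lit 92) tl58 (.cons (nat_lit 73) (nat_lit 93) tl60 (.cons (nat_lit 74) (nat_lit 94) tl60 (.cons (nat_lit 75) (nat_lit 95) tl67 (.cons (nat_lit 76) (nat_lit 96) tl69 (.cons (nat_lit 77) (nat_lit 97) tl70 (.cons (nat_lit 78) (nat_lit 98) tl70 (.cons (nat_lit 79) (nat_lit 99) tl68 (.cons (nat_lit 80) (nat_lit 100) tl72 (.nil)))))))))))))))))))))))))))))))))))))))))))))))))))))))))))))))))))))))))))))))))

/-- A group of options. -/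
def gl1 : OG := .cons (nat_lit 81) (nat_lit 0) tl0 (.cons (nat_lit 82) (nat_lit 1) tl1 (.cons (nat_lit 83) (nat_lit 2) tl5 (.cons (nat_lit 84) (nat_lit 4) tl2 (.cons (nat_lit 85) (nat_lit 5) tl6 (.cons (nat_lit 86) (nat_lit 6) tl4 (.cons (nat_lit 87) (nat_lit 7) tl7 (.cons (nat_lit 88) (nat_lit 8) tl10 (.cons (nat_lit 89) (nat_lit 9) tl11 (.cons (nat_lit 90) (nat_lit 10) tl12 (.cons (nat_lit 91) (nat_lit 11) tl8 (.cons (nat_lit 92) (nat_lit 12) tl9 (.cons (nat_lit 93) (nat_lit 13) tl13 (.cons (nat_lit 94) (nat_lit 14) tl14 (.cons (nat_lit 95) (nat_lit 15) tl7 (.cons (nat_lit 96) (nat_lit 16) tl10 (.cons (nat_lit 97) (nat_lit 17) tl8 (.cons (nat_lit 98) (nat_lit 18) tl15 (.cons (nat_lit 99) (nat_lit 19) tl13 (.cons (nat_lit 100) (nat_lit 33) tl37 (.cons (nat_lit 101) (nat_lit 34) tl37 (.cons (nat_lit 102) (nat_lit 35) tl39 (.cons (nat_lit 103) (nat_lit 36) tl39 (.cons (nat_lit 104) (nat_lit 37) tl41 (.cons (nat_lit 105) (nat_lit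 38) tl41 (.cons (nat_lit 106) (nat_lit 39) tl44 (.cons (nat_lit 107) (nat_lit 40) tl44 (.cons (nat_lit 108) (nat_lit 41) tl46 (.cons (nat_lit 109) (nat_lit 42) tl49 (.cons (nat_lit 110) (nat_lit 43) tl50 (.cons (nat_lit 111) (nat_lit 44) tl51 (.cons (nat_lit 112) (nat_lit 45) tl49 (.cons (nat_lit 113) (nat_lit 46) tl50 (.cons (nat_lit 114) (nat_lit 47) tl47 (.cons (nat_lit 115) (nat_lit 48) tl48 (.cons (nat_lit 116) (nat_lit 49) tl56 (.cons (nat_lit 117) (nat_lit 61) tl25 (.cons (nat_lit 118) (nat_lit 62) tl26 (.cons (nat_lit 119) (nat_lit 63) tl28 (.cons (nat_lit 120) (nat_lit 64) tl28 (.cons (nat_lit 121) (nat_lit 65) tl27 (.cons (nat_lit 122) (nat_lit 66) tl27 (.cons (nat_lit 123) (nat_lit 67) tl29 (.cons (nat_lit 124) (nat_lit 68) tl30 (.cons (nat_lit 125) (nat_lit 69) tl30 (.cons (nat_lit 126) (nat_lit 70) tl31 (.cons (nat_lit 127) (nat_lit 71) tl31 (.cons (nat_lit 128) (nat_lit 72) tl32 (.cons (nat_lit 129) (nat_lit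 73) tl33 (.cons (nat_lit 130) (nat_lit 74) tl34 (.cons (nat_lit 131) (nat_lit 75) tl35 (.cons (nat_lit 132) (nat_lit 76) tl36 (.cons (nat_lit 133) (nat_lit 77) tl38 (.cons (nat_lit 134) (nat_lit 78) tl38 (.cons (nat_lit 135) (nat_lit 79) tl40 (.cons (nat_lit 136) (nat_lit 80) tl40 (.cons (nat_lit 137) (nat_lit 81) tl42 (.cons (nat_lit 138) (nat_lit 82) tl42 (.cons (nat_lit 139) (nat_lit 83) tl43 (.cons (nat_lit 140) (nat_lit 84) tl45 (.cons (nat_lit 141) (nat_lit 85) tl45 (.cons (nat_lit 142) (nat_lit 86) tl52 (.cons (nat_lit 143) (nat_lit 87) tl55 (.cons (nat_lit 144) (nat_lit 88) tl54 (.cons (nat_lit 145) (nat_lit 89) tl54 (.cons (nat_lit 146) (nat_lit 90) tl53 (.cons (nat_lit 147) (nat_lit 91) tl57 (.cons (nat_lit 148) (nat_lit 92) tl58 (.cons (nat_lit 149) (nat_lit 93) tl60 (.cons (nat_lit 150) (nat_lit 94) tl60 (.cons (nat_lit 151) (nat_lit 95) tl67 (.cons (nat_lit 152) (nat_lit 96) tl69 (.cons (nat_lit 153) (nat_lit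 97) tl70 (.cons (nat_lit 154) (nat_lit 98) tl70 (.cons (nat_lit 155) (nat_lit 99) tl68 (.cons (nat_lit 156) (nat_lit 100) tl72 (.nil))))))))))))))))))))))))))))))))))))))))))))))))))))))))))))))))))))))))))))

/-- A group of options. -/
def gl2 : OG := .cons (nat_lit 157) (nat_lit 0) tl0 (.cons (nat_lit 158) (nat_lit 1) tl1 (.cons (nat_lit 159) (nat_lit 3) tl3 (.cons (nat_lit 160) (nat_lit 4) tl2 (.cons (nat_lit 161) (nat_lit 5) tl6 (.cons (nat_lit 162) (nat_lit 6) tl4 (.cons (nat_lit 163) (nat_lit 20) tl16 (.cons (nat_lit 164) (nat_lit 21) tl20 (.cons (nat_lit 165) (nat_lit 22) tl21 (.cons (nat_lit 166) (nat_lit 23) tl22 (.cons (nat_lit 167) (nat_lit 24) tl17 (.cons (nat_lit 168) (nat_lit 25) tl18 (.cons (nat_lit 169) (nat_lit 26) tl23 (.cons (nat_lit 170) (nat_lit 27) tl24 (.cons (nat_lit 171) (nat_lit 28) tl16 (.cons (nat_lit 172) (nat_lit 29) tl20 (.cons (nat_lit 173) (nat_lit 30) tl17 (.cons (nat_lit 174) (nat_lit 31)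 tl19 (.cons (nat_lit 175) (nat_lit 32) tl23 (.cons (nat_lit 176) (nat_lit 33) tl37 (.cons (nat_lit 177) (nat_lit 34) tl37 (.cons (nat_lit 178) (nat_lit 35) tl39 (.cons (nat_lit 179) (nat_lit 36) tl39 (.cons (nat_lit 180) (nat_lit 37) tl41 (.cons (nat_lit 181) (nat_lit 38) tl41 (.cons (nat_lit 182) (nat_lit 50) tl59 (.cons (nat_lit 183) (nat_lit 51) tl59 (.cons (nat_lit 184) (nat_lit 52) tl61 (.cons (nat_lit 185) (nat_lit 53) tl64 (.cons (nat_lit 186) (nat_lit 54) tl65 (.cons (nat_lit 187) (nat_lit 55) tl66 (.cons (nat_lit 188) (nat_lit 56) tl64 (.cons (nat_lit 189) (nat_lit 57) tl65 (.cons (nat_lit 190) (nat_lit 58) tl62 (.cons (nat_lit 191) (nat_lit 59) tl63 (.cons (nat_lit 192) (nat_lit 60) tl71 (.cons (nat_lit 193) (nat_lit 61) tl25 (.cons (nat_lit 194) (nat_lit 62) tl26 (.cons (nat_lit 195) (nat_lit 63) tl28 (.cons (nat_lit 196) (nat_lit 64) tl28 (.cons (nat_lit 197) (nat_lit 65) tl27 (.cons (nat_lit 198) (nat_lit 66)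 tl27 (.cons (nat_lit 199) (nat_lit 67) tl29 (.cons (nat_lit 200) (nat_lit 68) tl30 (.cons (nat_lit 201) (nat_lit 69) tl30 (.cons (nat_lit 202) (nat_lit 70) tl31 (.cons (nat_lit 203) (nat_lit 71) tl31 (.cons (nat_lit 204) (nat_lit 72) tl32 (.cons (nat_lit 205) (nat_lit 73) tl33 (.cons (nat_lit 206) (nat_lit 74) tl34 (.cons (nat_lit 207) (nat_lit 75) tl35 (.cons (nat_lit 208) (nat_lit 76) tl36 (.cons (nat_lit 209) (nat_lit 77) tl38 (.cons (nat_lit 210) (nat_lit 78) tl38 (.cons (nat_lit 211) (nat_lit 79) tl40 (.cons (nat_lit 212) (nat_lit 80) tl40 (.cons (nat_lit 213) (nat_lit 81) tl42 (.cons (nat_lit 214) (nat_lit 82) tl42 (.cons (nat_lit 215) (nat_lit 83) tl43 (.cons (nat_lit 216) (nat_lit 84) tl45 (.cons (nat_lit 217) (nat_lit 85) tl45 (.cons (nat_lit 218) (nat_lit 86) tl52 (.cons (nat_lit 219) (nat_lit 87) tl55 (.cons (nat_lit 220) (nat_lit 88) tl54 (.cons (nat_lit 221) (nat_lit 89) tl54 (.cons (nat_lit 222) (nat_lit 90)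 tl53 (.cons (nat_lit 223) (nat_lit 91) tl57 (.cons (nat_lit 224) (nat_lit 92) tl58 (.cons (nat_lit 225) (nat_lit 93) tl60 (.cons (nat_lit 226) (nat_lit 94) tl60 (.cons (nat_lit 227) (nat_lit 95) tl67 (.cons (nat_lit 228) (nat_lit 96) tl69 (.cons (nat_lit 229) (nat_lit 97) tl70 (.cons (nat_lit 230) (nat_lit 98) tl70 (.cons (nat_lit 231) (nat_lit 99) tl68 (.cons (nat_lit 232) (nat_lit 100) tl72 (.nil))))))))))))))))))))))))))))))))))))))))))))))))))))))))))))))))))))))))))))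

/-- A group of options. -/
def gl3 : OG := .cons (nat_lit 233) (nat_lit 0) tl0 (.cons (nat_lit 234) (nat_lit 1) tl1 (.cons (nat_lit 235) (nat_lit 7) tl7 (.cons (nat_lit 236) (nat_lit 15) tl7 (.cons (nat_lit 237) (nat_lit 20) tl16 (.cons (nat_lit 238) (nat_lit 28) tl16 (.nil))))))

/-- A group of options. -/
def gl4 : OG := .cons (nat_lit 239) (nat_lit 0) tl0 (.cons (nat_lit 240) (nat_lit 1) tl1 (.cons (nat_lit 241) (nat_lit 7) tl7 (.cons (nat_lit 242) (nat_lit 15) tl7 (.cons (nat_lit 243) (nat_lit 20) tl16 (.cons (nat_lit 244) (nat_lit 28) tl16 (.nil))))))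

/-- A group of options. -/
def gl5 : OG := .cons (nat_lit 245) (nat_lit 0) tl0 (.cons (nat_lit 246) (nat_lit 1) tl1 (.cons (nat_lit 247) (nat_lit 7) tl7 (.cons (nat_lit 248) (nat_lit 15) tl7 (.cons (nat_lit 249) (nat_lit 20) tl16 (.cons (nat_lit 250) (nat_lit 28) tl16 (.nil))))))

/-- A group of options. -/
def gl6 : OG := .cons (nat_lit 251) (nat_lit 0) tl0 (.cons (nat_lit 252) (nat_lit 1) tl1 (.cons (nat_lit 253) (nat_lit 7) tl7 (.cons (nat_lit 254) (nat_lit 15) tl7 (.cons (nat_lit 255) (nat_lit 20) tl16 (.cons (nat_lit 256) (nat_lit 28) tl16 (.nil))))))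

/-- A group of options. -/
def gl7 : OG := .cons (nat_lit 257) (nat_lit 0) tl0 (.cons (nat_lit 258) (nat_lit 1) tl1 (.cons (nat_lit 259) (nat_lit 7) tl7 (.cons (nat_lit 260) (nat_lit 15) tl7 (.cons (nat_lit 261) (nat_lit 20) tl16 (.cons (nat_lit 262) (nat_lit 28) tl16 (.nil))))))

/-- A group of options. -/
def gl8 : OG := .cons (nat_lit 263) (nat_lit 0) tl0 (.cons (nat_lit 264) (nat_lit 1) tl1 (.cons (nat_lit 265) (nat_lit 7) tl7 (.cons (nat_lit 266) (nat_lit 15) tl7 (.cons (nat_lit 267) (nat_lit 20) tl16 (.cons (nat_lit 268) (nat_lit 28) tl16 (.nil))))))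

/-- A group of options. -/
def gl9 : OG := .cons (nat_lit 269) (nat_lit 0) tl0 (.cons (nat_lit 270) (nat_lit 1) tl1 (.cons (nat_lit 271) (nat_lit 7) tl7 (.cons (nat_lit 272) (nat_lit 15) tl7 (.cons (nat_lit 273) (nat_lit 20) tl16 (.cons (nat_lit 274) (nat_lit 28) tl16 (.nil))))))

/-- A group of options. -/
def gl10 : OG := .cons (nat_lit 275) (nat_lit 0) tl0 (.cons (nat_lit 276) (nat_lit 1) tl1 (.cons (nat_lit 277) (nat_lit 7) tl7 (.cons (nat_lit 278) (nat_lit 15) tl7 (.cons (nat_lit 279) (nat_lit 20) tl16 (.cons (nat_lit 280) (nat_lit 28) tl16 (.nil))))))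

/-- A group of options. -/
def gl11 : OG := .cons (nat_lit 281) (nat_lit 0) tl0 (.cons (nat_lit 282) (nat_lit 1) tl1 (.cons (nat_lit 283) (nat_lit 7) tl7 (.cons (nat_lit 284) (nat_lit 15) tl7 (.cons (nat_lit 285) (nat_lit 20) tl16 (.cons (nat_lit 286) (nat_lit 28) tl16 (.nil))))))

/-- A group of options. -/
def gl12 : OG := .cons (nat_lit 287) (nat_lit 0) tl0 (.cons (nat_lit 288) (nat_lit 7) tl7 (.cons (nat_lit 289) (nat_lit 15) tl7 (.cons (nat_lit 290) (nat_lit 20) tl16 (.cons (nat_lit 291) (nat_lit 28) tl16 (.nil)))))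

/-- A group of options. -/
def gl13 : OG := .cons (nat_lit 292) (nat_lit 0) tl0 (.cons (nat_lit 293) (nat_lit 1) tl1 (.cons (nat_lit 294) (nat_lit 7) tl7 (.cons (nat_lit 295) (nat_lit 15) tl7 (.cons (nat_lit 296) (nat_lit 20) tl16 (.cons (nat_lit 297) (nat_lit 28) tl16 (.nil))))))

/-- A group of options. -/
def gl14 : OG := .cons (nat_lit 298) (nat_lit 0) tl0 (.cons (nat_lit 299) (nat_lit 1) tl1 (.cons (nat_lit 300) (nat_lit 2) tl5 (.cons (nat_lit 301) (nat_lit 7) tl7 (.cons (nat_lit 302) (nat_lit 8) tl10 (.cons (nat_lit 303) (nat_lit 9) tl11 (.cons (nat_lit 304) (nat_lit 15) tl7 (.cons (nat_lit 305) (nat_lit 16) tl10 (.nil))))))))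

/-- A group of options. -/
def gl15 : OG := .cons (nat_lit 306) (nat_lit 0) tl0 (.cons (nat_lit 307) (nat_lit 1) tl1 (.cons (nat_lit 308) (nat_lit 7) tl7 (.cons (nat_lit 309) (nat_lit 15) tl7 (.cons (nat_lit 310) (nat_lit 20) tl16 (.cons (nat_lit 311) (nat_lit 28) tl16 (.nil))))))

/-- A group of options. -/
def gl16 : OG := .cons (nat_lit 312) (nat_lit 0) tl0 (.cons (nat_lit 313) (nat_lit 1) tl1 (.cons (nat_lit 314) (nat_lit 3) tl3 (.cons (nat_lit 315) (nat_lit 20) tl16 (.cons (nat_lit 316) (nat_lit 21) tl20 (.cons (nat_lit 317) (nat_lit 22) tl21 (.cons (nat_lit 318) (nat_lit 28) tl16 (.cons (nat_lit 319) (nat_lit 29) tl20 (.nil))))))))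

/-- A group of options. -/
def gl17 : OG := .cons (nat_lit 320) (nat_lit 0) tl0 (.cons (nat_lit 321) (nat_lit 1) tl1 (.cons (nat_lit 322) (nat_lit 7) tl7 (.cons (nat_lit 323) (nat_lit 15) tl7 (.cons (nat_lit 324) (nat_lit 20) tl16 (.cons (nat_lit 325) (nat_lit 28) tl16 (.nil))))))

/-- A group of options. -/
def gl18 : OG := .cons (nat_lit 326) (nat_lit 0) tl0 (.cons (nat_lit 327) (nat_lit 1) tl1 (.cons (nat_lit 328) (nat_lit 7) tl7 (.cons (nat_lit 329) (nat_lit 15) tl7 (.cons (nat_lit 330) (nat_lit 20) tl16 (.cons (nat_lit 331) (nat_lit 28) tl16 (.nil))))))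

/-- A group of options. -/
def gl19 : OG := .cons (nat_lit 332) (nat_lit 0) tl0 (.cons (nat_lit 333) (nat_lit 7) tl7 (.cons (nat_lit 334) (nat_lit 15) tl7 (.cons (nat_lit 335) (nat_lit 20) tl16 (.cons (nat_lit 336) (nat_lit 28) tl16 (.nil)))))

/-- A group of options. -/
def gl20 : OG := .cons (nat_lit 337) (nat_lit 0) tl0 (.cons (nat_lit 338) (nat_lit 1) tl1 (.cons (nat_lit 339) (nat_lit 7) tl7 (.cons (nat_lit 340) (nat_lit 15) tl7 (.cons (nat_lit 341) (nat_lit 20) tl16 (.cons (nat_lit 342) (nat_lit 28) tl16 (.nil))))))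

/-- A group of options. -/
def gl21 : OG := .cons (nat_lit 343) (nat_lit 0) tl0 (.cons (nat_lit 344) (nat_lit 1) tl1 (.cons (nat_lit 345) (nat_lit 2) tl5 (.cons (nat_lit 346) (nat_lit 7) tl7 (.cons (nat_lit 347) (nat_lit 8) tl10 (.cons (nat_lit 348) (nat_lit 9) tl11 (.cons (nat_lit 349) (nat_lit 15) tl7 (.cons (nat_lit 350) (nat_lit 16) tl10 (.nil))))))))

/-- A group of options. -/
def gl22 : OG := .cons (nat_lit 351) (nat_lit 0) tl0 (.cons (nat_lit 352) (nat_lit 1) tl1 (.cons (nat_lit 353) (nat_lit 7) tl7 (.cons (nat_lit 354) (nat_lit 15) tl7 (.cons (nat_lit 355) (nat_lit 20) tl16 (.cons (nat_lit 356) (nat_lit 28) tl16 (.nil))))))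

/-- A group of options. -/
def gl23 : OG := .cons (nat_lit 357) (nat_lit 0) tl0 (.cons (nat_lit 358) (nat_lit 1) tl1 (.cons (nat_lit 359) (nat_lit 3) tl3 (.cons (nat_lit 360) (nat_lit 20) tl16 (.cons (nat_lit 361) (nat_lit 21) tl20 (.cons (nat_lit 362) (nat_lit 22) tl21 (.cons (nat_lit 363) (nat_lit 28) tl16 (.cons (nat_lit 364) (nat_lit 29) tl20 (.nil))))))))

/-- A group of options. -/
def gl24 : OG := .cons (nat_lit 365) (nat_lit 0) tl0 (.cons (nat_lit 366) (nat_lit 1) tl1 (.cons (nat_lit 367) (nat_lit 7) tl7 (.cons (nat_lit 368) (nat_lit 15) tl7 (.cons (nat_lit 369) (nat_lit 20) tl16 (.cons (nat_lit 370) (nat_lit 28) tl16 (.nil))))))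

/-- A group of options. -/
def gl25 : OG := .cons (nat_lit 371) (nat_lit 0) tl0 (.cons (nat_lit 372) (nat_lit 1) tl1 (.cons (nat_lit 373) (nat_lit 7) tl7 (.cons (nat_lit 374) (nat_lit 15) tl7 (.cons (nat_lit 375) (nat_lit 20) tl16 (.cons (nat_lit 376) (nat_lit 28) tl16 (.nil))))))

/-- A group of options. -/
def gl26 : OG := .cons (nat_lit 377) (nat_lit 0) tl0 (.cons (nat_lit 378) (nat_lit 7) tl7 (.cons (nat_lit 379) (nat_lit 15) tl7 (.cons (nat_lit 380) (nat_lit 20) tl16 (.cons (nat_lit 381) (nat_lit 28) tl16 (.nil)))))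

/-- A group of options. -/
def gl27 : OG := .cons (nat_lit 382) (nat_lit 0) tl0 (.cons (nat_lit 383) (nat_lit 1) tl1 (.cons (nat_lit 384) (nat_lit 7) tl7 (.cons (nat_lit 385) (nat_lit 15) tl7 (.cons (nat_lit 386) (nat_lit 20) tl16 (.cons (nat_lit 387) (nat_lit 28) tl16 (.nil))))))

/-- A group of options. -/
def gl28 : OG := .cons (nat_lit 388) (nat_lit 0) tl0 (.cons (nat_lit 389) (nat_lit 1) tl1 (.cons (nat_lit 390) (nat_lit 3) tl3 (.cons (nat_lit 391) (nat_lit 20) tl16 (.cons (nat_lit 392) (nat_lit 21) tl20 (.cons (nat_lit 393) (nat_lit 22) tl21 (.cons (nat_lit 394) (nat_lit 28) tl16 (.cons (nat_lit 395) (nat_lit 29) tl20 (.nil))))))))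

/-- A group of options. -/
def gl29 : OG := .cons (nat_lit 396) (nat_lit 0) tl0 (.cons (nat_lit 397) (nat_lit 1) tl1 (.cons (nat_lit 398) (nat_lit 7) tl7 (.cons (nat_lit 399) (nat_lit 15) tl7 (.cons (nat_lit 400) (nat_lit 20) tl16 (.cons (nat_lit 401) (nat_lit 28) tl16 (.nil))))))

/-- A group of options. -/
def gl30 : OG := .cons (nat_lit 402) (nat_lit 0) tl0 (.cons (nat_lit 403) (nat_lit 1) tl1 (.cons (nat_lit 404) (nat_lit 2) tl5 (.cons (nat_lit 405) (nat_lit 7) tl7 (.cons (nat_lit 406) (nat_lit 8) tl10 (.cons (nat_lit 407) (nat_lit 9) tl11 (.cons (nat_lit 408) (nat_lit 15) tl7 (.cons (nat_lit 409) (nat_lit 16) tl10 (.nil))))))))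

/-- A group of options. -/
def gl31 : OG := .cons (nat_lit 410) (nat_lit 0) tl0 (.cons (nat_lit 411) (nat_lit 1) tl1 (.cons (nat_lit 412) (nat_lit 7) tl7 (.cons (nat_lit 413) (nat_lit 15) tl7 (.cons (nat_lit 414) (nat_lit 20) tl16 (.cons (nat_lit 415) (nat_lit 28) tl16 (.nil))))))

/-- The groups of the options of the shape `0`. -/
def gs0 : OGS := .cons (nat_lit 3) gl0 (.cons (nat_lit 6) gl1 (.cons (nat_lit 9) gl2 (.cons (nat_lit 14) gl3 (.cons (nat_lit 17) gl4 (.cons (nat_lit 20) gl5 (.cons (nat_lit 23) gl6 (.cons (nat_lit 26) gl7 (.cons (nat_lit 29) gl8 (.cons (nat_lit 32) gl9 (.cons (nat_lit 35) gl10 (.cons (nat_lit 38) gl11 (.cons (nat_lit 40) gl12 (.cons (nat_lit 41) gl13 (.cons (nat_lit 43) gl14 (.cons (nat_lit 44) gl15 (.cons (nat_lit 46) gl16 (.cons (nat_lit 47) gl17 (.cons (nat_lit 50) gl18 (.cons (nat_lit 52) gl19 (.cons (nat_lit 53) gl20 (.cons (nat_lit 55) gl21 (.cons (nat_lit 56) gl22 (.cons (nat_lit 58) gl23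 (.cons (nat_lit 59) gl24 (.cons (nat_lit 62) gl25 (.cons (nat_lit 64) gl26 (.cons (nat_lit 65) gl27 (.cons (nat_lit 67) gl28 (.cons (nat_lit 68) gl29 (.cons (nat_lit 70) gl30 (.cons (nat_lit 71) gl31 (.nil))))))))))))))))))))))))))))))))

/-- A group of options. -/
def gl32 : OG := .cons (nat_lit 51) (nat_lit 0) tl0 (.cons (nat_lit 52) (nat_lit 1) tl1 (.cons (nat_lit 53) (nat_lit 4) tl2 (.cons (nat_lit 54) (nat_lit 5) tl6 (.cons (nat_lit 55) (nat_lit 6) tl4 (.cons (nat_lit 56) (nat_lit 33) tl37 (.cons (nat_lit 57) (nat_lit 34) tl37 (.cons (nat_lit 58) (nat_lit 35) tl39 (.cons (nat_lit 59) (nat_lit 36) tl39 (.cons (nat_lit 60) (nat_lit 37) tl41 (.cons (nat_lit 61) (nat_lit 38) tl41 (.cons (nat_lit 62) (nat_lit 61) tl25 (.cons (nat_lit 63) (nat_lit 62) tl26 (.cons (nat_lit 64) (nat_lit 63) tl28 (.cons (nat_lit 65) (nat_lit 64) tl28 (.cons (nat_lit 66) (nat_lit 65) tl27 (.cons (nat_lit 67) (nat_lit 66) tl27 (.cons (nat_lit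 68) (nat_lit 67) tl29 (.cons (nat_lit 69) (nat_lit 68) tl30 (.cons (nat_lit 70) (nat_lit 69) tl30 (.cons (nat_lit 71) (nat_lit 70) tl31 (.cons (nat_lit 72) (nat_lit 71) tl31 (.cons (nat_lit 73) (nat_lit 72) tl32 (.cons (nat_lit 74) (nat_lit 73) tl33 (.cons (nat_lit 75) (nat_lit 74) tl34 (.cons (nat_lit 76) (nat_lit 75) tl35 (.cons (nat_lit 77) (nat_lit 76) tl36 (.cons (nat_lit 78) (nat_lit 77) tl38 (.cons (nat_lit 79) (nat_lit 78) tl38 (.cons (nat_lit 80) (nat_lit 79) tl40 (.cons (nat_lit 81) (nat_lit 80) tl40 (.cons (nat_lit 82) (nat_lit 81) tl42 (.cons (nat_lit 83) (nat_lit 82) tl42 (.cons (nat_lit 84) (nat_lit 83) tl43 (.cons (nat_lit 85) (nat_lit 84) tl45 (.cons (nat_lit 86) (nat_lit 85) tl45 (.cons (nat_lit 87) (nat_lit 86) tl52 (.cons (nat_lit 88) (nat_lit 87) tl55 (.cons (nat_lit 89) (nat_lit 88) tl54 (.cons (nat_lit 90) (nat_lit 89) tl54 (.cons (nat_lit 91) (nat_lit 90) tl53 (.cons (nat_lit 92) (nat_lit 91) tl57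 (.cons (nat_lit 93) (nat_lit 92) tl58 (.cons (nat_lit 94) (nat_lit 93) tl60 (.cons (nat_lit 95) (nat_lit 94) tl60 (.cons (nat_lit 96) (nat_lit 95) tl67 (.cons (nat_lit 97) (nat_lit 96) tl69 (.cons (nat_lit 98) (nat_lit 97) tl70 (.cons (nat_lit 99) (nat_lit 98) tl70 (.cons (nat_lit 100) (nat_lit 99) tl68 (.cons (nat_lit 101) (nat_lit 100) tl72 (.nil)))))))))))))))))))))))))))))))))))))))))))))))))))

/-- A group of options. -/
def gl33 : OG := .cons (nat_lit 0) (nat_lit 0) tl0 (.cons (nat_lit 1) (nat_lit 1) tl1 (.cons (nat_lit 2) (nat_lit 4) tl2 (.cons (nat_lit 3) (nat_lit 5) tl6 (.cons (nat_lit 4) (nat_lit 6) tl4 (.cons (nat_lit 5) (nat_lit 33) tl37 (.cons (nat_lit 6) (nat_lit 34) tl37 (.cons (nat_lit 7) (nat_lit 35) tl39 (.cons (nat_lit 8) (nat_lit 36) tl39 (.cons (nat_lit 9) (nat_lit 37) tl41 (.cons (nat_lit 10) (nat_lit 38) tl41 (.cons (nat_lit 11) (nat_lit 61) tl25 (.cons (nat_lit 12) (nat_lit 62) tl26 (.cons (nat_lit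 13) (nat_lit 63) tl28 (.cons (nat_lit 14) (nat_lit 64) tl28 (.cons (nat_lit 15) (nat_lit 65) tl27 (.cons (nat_lit 16) (nat_lit 66) tl27 (.cons (nat_lit 17) (nat_lit 67) tl29 (.cons (nat_lit 18) (nat_lit 68) tl30 (.cons (nat_lit 19) (nat_lit 69) tl30 (.cons (nat_lit 20) (nat_lit 70) tl31 (.cons (nat_lit 21) (nat_lit 71) tl31 (.cons (nat_lit 22) (nat_lit 72) tl32 (.cons (nat_lit 23) (nat_lit 73) tl33 (.cons (nat_lit 24) (nat_lit 74) tl34 (.cons (nat_lit 25) (nat_lit 75) tl35 (.cons (nat_lit 26) (nat_lit 76) tl36 (.cons (nat_lit 27) (nat_lit 77) tl38 (.cons (nat_lit 28) (nat_lit 78) tl38 (.cons (nat_lit 29) (nat_lit 79) tl40 (.cons (nat_lit 30) (nat_lit 80) tl40 (.cons (nat_lit 31) (nat_lit 81) tl42 (.cons (nat_lit 32) (nat_lit 82) tl42 (.cons (nat_lit 33) (nat_lit 83) tl43 (.cons (nat_lit 34) (nat_lit 84) tl45 (.cons (nat_lit 35) (nat_lit 85) tl45 (.cons (nat_lit 36) (nat_lit 86) tl52 (.cons (nat_lit 37) (nat_lit 87) tl55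 (.cons (nat_lit 38) (nat_lit 88) tl54 (.cons (nat_lit 39) (nat_lit 89) tl54 (.cons (nat_lit 40) (nat_lit 90) tl53 (.cons (nat_lit 41) (nat_lit 91) tl57 (.cons (nat_lit 42) (nat_lit 92) tl58 (.cons (nat_lit 43) (nat_lit 93) tl60 (.cons (nat_lit 44) (nat_lit 94) tl60 (.cons (nat_lit 45) (nat_lit 95) tl67 (.cons (nat_lit 46) (nat_lit 96) tl69 (.cons (nat_lit 47) (nat_lit 97) tl70 (.cons (nat_lit 48) (nat_lit 98) tl70 (.cons (nat_lit 49) (nat_lit 99) tl68 (.cons (nat_lit 50) (nat_lit 100) tl72 (.nil)))))))))))))))))))))))))))))))))))))))))))))))))))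

/-- A group of options. -/
def gl34 : OG := .cons (nat_lit 108) (nat_lit 0) tl0 (.cons (nat_lit 109) (nat_lit 1) tl1 (.cons (nat_lit 110) (nat_lit 7) tl7 (.cons (nat_lit 111) (nat_lit 15) tl7 (.cons (nat_lit 112) (nat_lit 20) tl16 (.cons (nat_lit 113) (nat_lit 28) tl16 (.nil))))))

/-- A group of options. -/
def gl35 : OG := .cons (nat_lit 102) (nat_lit 0) tl0 (.cons (nat_lit 103) (nat_lit 1) tl1 (.cons (nat_lit 104) (nat_lit 7) tl7 (.cons (nat_lit 105) (nat_lit 15) tl7 (.cons (nat_lit 106) (nat_lit 20) tl16 (.cons (nat_lit 107) (nat_lit 28) tl16 (.nil))))))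

/-- A group of options. -/
def gl36 : OG := .cons (nat_lit 120) (nat_lit 0) tl0 (.cons (nat_lit 121) (nat_lit 1) tl1 (.cons (nat_lit 122) (nat_lit 7) tl7 (.cons (nat_lit 123) (nat_lit 15) tl7 (.cons (nat_lit 124) (nat_lit 20) tl16 (.cons (nat_lit 125) (nat_lit 28) tl16 (.nil))))))

/-- A group of options. -/
def gl37 : OG := .cons (nat_lit 114) (nat_lit 0) tl0 (.cons (nat_lit 115) (nat_lit 1) tl1 (.cons (nat_lit 116) (nat_lit 7) tl7 (.cons (nat_lit 117) (nat_lit 15) tl7 (.cons (nat_lit 118) (nat_lit 20) tl16 (.cons (nat_lit 119) (nat_lit 28) tl16 (.nil))))))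

/-- A group of options. -/
def gl38 : OG := .cons (nat_lit 150) (nat_lit 0) tl0 (.cons (nat_lit 151) (nat_lit 1) tl1 (.cons (nat_lit 152) (nat_lit 7) tl7 (.cons (nat_lit 153) (nat_lit 15) tl7 (.cons (nat_lit 154) (nat_lit 20) tl16 (.cons (nat_lit 155) (nat_lit 28) tl16 (.nil))))))

/-- A group of options. -/
def gl39 : OG := .cons (nat_lit 156) (nat_lit 0) tl0 (.cons (nat_lit 157) (nat_lit 1) tl1 (.cons (nat_lit 158) (nat_lit 7) tl7 (.cons (nat_lit 159) (nat_lit 15) tl7 (.cons (nat_lit 160) (nat_lit 20) tl16 (.cons (nat_lit 161) (nat_lit 28) tl16 (.nil))))))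

/-- A group of options. -/
def gl40 : OG := .cons (nat_lit 168) (nat_lit 0) tl0 (.cons (nat_lit 169) (nat_lit 1) tl1 (.cons (nat_lit 170) (nat_lit 7) tl7 (.cons (nat_lit 171) (nat_lit 15) tl7 (.cons (nat_lit 172) (nat_lit 20) tl16 (.cons (nat_lit 173) (nat_lit 28) tl16 (.nil))))))

/-- A group of options. -/
def gl41 : OG := .cons (nat_lit 162) (nat_lit 0) tl0 (.cons (nat_lit 163) (nat_lit 1) tl1 (.cons (nat_lit 164) (nat_lit 7) tl7 (.cons (nat_lit 165) (nat_lit 15) tl7 (.cons (nat_lit 166) (nat_lit 20) tl16 (.cons (nat_lit 167) (nat_lit 28) tl16 (.nil))))))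

/-- A group of options. -/
def gl42 : OG := .cons (nat_lit 126) (nat_lit 0) tl0 (.cons (nat_lit 127) (nat_lit 1) tl1 (.cons (nat_lit 128) (nat_lit 7) tl7 (.cons (nat_lit 129) (nat_lit 15) tl7 (.cons (nat_lit 130) (nat_lit 20) tl16 (.cons (nat_lit 131) (nat_lit 28) tl16 (.nil))))))

/-- A group of options. -/
def gl43 : OG := .cons (nat_lit 132) (nat_lit 0) tl0 (.cons (nat_lit 133) (nat_lit 1) tl1 (.cons (nat_lit 134) (nat_lit 7) tl7 (.cons (nat_lit 135) (nat_lit 15) tl7 (.cons (nat_lit 136) (nat_lit 20) tl16 (.cons (nat_lit 137) (nat_lit 28) tl16 (.nil))))))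

/-- A group of options. -/
def gl44 : OG := .cons (nat_lit 144) (nat_lit 0) tl0 (.cons (nat_lit 145) (nat_lit 1) tl1 (.cons (nat_lit 146) (nat_lit 7) tl7 (.cons (nat_lit 147) (nat_lit 15) tl7 (.cons (nat_lit 148) (nat_lit 20) tl16 (.cons (nat_lit 149) (nat_lit 28) tl16 (.nil))))))

/-- A group of options. -/
def gl45 : OG := .cons (nat_lit 138) (nat_lit 0) tl0 (.cons (nat_lit 139) (nat_lit 1) tl1 (.cons (nat_lit 140) (nat_lit 7) tl7 (.cons (nat_lit 141) (nat_lit 15) tl7 (.cons (nat_lit 142) (nat_lit 20) tl16 (.cons (nat_lit 143) (nat_lit 28) tl16 (.nil))))))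

/-- A group of options. -/
def gl46 : OG := .cons (nat_lit 219) (nat_lit 0) tl0 (.cons (nat_lit 220) (nat_lit 1) tl1 (.cons (nat_lit 221) (nat_lit 7) tl7 (.cons (nat_lit 222) (nat_lit 15) tl7 (.cons (nat_lit 223) (nat_lit 20) tl16 (.cons (nat_lit 224) (nat_lit 28) tl16 (.nil))))))

/-- A group of options. -/
def gl47 : OG := .cons (nat_lit 225) (nat_lit 0) tl0 (.cons (nat_lit 226) (nat_lit 7) tl7 (.cons (nat_lit 227) (nat_lit 15) tl7 (.cons (nat_lit 228) (nat_lit 20) tl16 (.cons (nat_lit 229) (nat_lit 28) tl16 (.nil)))))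

/-- A group of options. -/
def gl48 : OG := .cons (nat_lit 230) (nat_lit 0) tl0 (.cons (nat_lit 231) (nat_lit 1) tl1 (.cons (nat_lit 232) (nat_lit 7) tl7 (.cons (nat_lit 233) (nat_lit 15) tl7 (.cons (nat_lit 234) (nat_lit 20) tl16 (.cons (nat_lit 235) (nat_lit 28) tl16 (.nil))))))

/-- A group of options. -/
def gl49 : OG := .cons (nat_lit 250) (nat_lit 0) tl0 (.cons (nat_lit 251) (nat_lit 1) tl1 (.cons (nat_lit 252) (nat_lit 2) tl5 (.cons (nat_lit 253) (nat_lit 7) tl7 (.cons (nat_lit 254) (nat_lit 8) tl10 (.cons (nat_lit 255) (nat_lit 9) tl11 (.cons (nat_lit 256) (nat_lit 15) tl7 (.cons (nat_lit 257) (nat_lit 16) tl10 (.nil))))))))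

/-- A group of options. -/
def gl50 : OG := .cons (nat_lit 258) (nat_lit 0) tl0 (.cons (nat_lit 259) (nat_lit 1) tl1 (.cons (nat_lit 260) (nat_lit 7) tl7 (.cons (nat_lit 261) (nat_lit 15) tl7 (.cons (nat_lit 262) (nat_lit 20) tl16 (.cons (nat_lit 263) (nat_lit 28) tl16 (.nil))))))

/-- A group of options. -/
def gl51 : OG := .cons (nat_lit 236) (nat_lit 0) tl0 (.cons (nat_lit 237) (nat_lit 1) tl1 (.cons (nat_lit 238) (nat_lit 3) tl3 (.cons (nat_lit 239) (nat_lit 20) tl16 (.cons (nat_lit 240) (nat_lit 21) tl20 (.cons (nat_lit 241) (nat_lit 22) tl21 (.cons (nat_lit 242) (nat_lit 28) tl16 (.cons (nat_lit 243) (nat_lit 29) tl20 (.nil))))))))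

/-- A group of options. -/
def gl52 : OG := .cons (nat_lit 244) (nat_lit 0) tl0 (.cons (nat_lit 245) (nat_lit 1) tl1 (.cons (nat_lit 246) (nat_lit 7) tl7 (.cons (nat_lit 247) (nat_lit 15) tl7 (.cons (nat_lit 248) (nat_lit 20) tl16 (.cons (nat_lit 249) (nat_lit 28) tl16 (.nil))))))

/-- A group of options. -/
def gl53 : OG := .cons (nat_lit 174) (nat_lit 0) tl0 (.cons (nat_lit 175) (nat_lit 1) tl1 (.cons (nat_lit 176) (nat_lit 7) tl7 (.cons (nat_lit 177) (nat_lit 15) tl7 (.cons (nat_lit 178) (nat_lit 20) tl16 (.cons (nat_lit 179) (nat_lit 28) tl16 (.nil))))))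

/-- A group of options. -/
def gl54 : OG := .cons (nat_lit 180) (nat_lit 0) tl0 (.cons (nat_lit 181) (nat_lit 7) tl7 (.cons (nat_lit 182) (nat_lit 15) tl7 (.cons (nat_lit 183) (nat_lit 20) tl16 (.cons (nat_lit 184) (nat_lit 28) tl16 (.nil)))))

/-- A group of options. -/
def gl55 : OG := .cons (nat_lit 185) (nat_lit 0) tl0 (.cons (nat_lit 186) (nat_lit 1) tl1 (.cons (nat_lit 187) (nat_lit 7) tl7 (.cons (nat_lit 188) (nat_lit 15) tl7 (.cons (nat_lit 189) (nat_lit 20) tl16 (.cons (nat_lit 190) (nat_lit 28) tl16 (.nil))))))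

/-- A group of options. -/
def gl56 : OG := .cons (nat_lit 205) (nat_lit 0) tl0 (.cons (nat_lit 206) (nat_lit 1) tl1 (.cons (nat_lit 207) (nat_lit 3) tl3 (.cons (nat_lit 208) (nat_lit 20) tl16 (.cons (nat_lit 209) (nat_lit 21) tl20 (.cons (nat_lit 210) (nat_lit 22) tl21 (.cons (nat_lit 211) (nat_lit 28) tl16 (.cons (nat_lit 212) (nat_lit 29) tl20 (.nil))))))))

/-- A group of options. -/
def gl57 : OG := .cons (nat_lit 213) (nat_lit 0) tl0 (.cons (nat_lit 214) (nat_lit 1) tl1 (.cons (nat_lit 215) (nat_lit 7) tl7 (.cons (nat_lit 216) (nat_lit 15) tl7 (.cons (nat_lit 217) (nat_lit 20) tl16 (.cons (nat_lit 218) (nat_lit 28) tl16 (.nil))))))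

/-- A group of options. -/
def gl58 : OG := .cons (nat_lit 191) (nat_lit 0) tl0 (.cons (nat_lit 192) (nat_lit 1) tl1 (.cons (nat_lit 193) (nat_lit 2) tl5 (.cons (nat_lit 194) (nat_lit 7) tl7 (.cons (nat_lit 195) (nat_lit 8) tl10 (.cons (nat_lit 196) (nat_lit 9) tl11 (.cons (nat_lit 197) (nat_lit 15) tl7 (.cons (nat_lit 198) (nat_lit 16) tl10 (.nil))))))))

/-- A group of options. -/
def gl59 : OG := .cons (nat_lit 199) (nat_lit 0) tl0 (.cons (nat_lit 200) (nat_lit 1) tl1 (.cons (nat_lit 201) (nat_lit 7) tl7 (.cons (nat_lit 202) (nat_lit 15) tl7 (.cons (nat_lit 203) (nat_lit 20) tl16 (.cons (nat_lit 204) (nat_lit 28) tl16 (.nil))))))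

/-- The groups of the options of the shape `1`. -/
def gs1 : OGS := .cons (nat_lit 6) gl32 (.cons (nat_lit 9) gl33 (.cons (nat_lit 14) gl34 (.cons (nat_lit 17) gl35 (.cons (nat_lit 20) gl36 (.cons (nat_lit 23) gl37 (.cons (nat_lit 26) gl38 (.cons (nat_lit 29) gl39 (.cons (nat_lit 32) gl40 (.cons (nat_lit 35) gl41 (.cons (nat_lit 38) gl42 (.cons (nat_lit 41) gl43 (.cons (nat_lit 44) gl44 (.cons (nat_lit 47) gl45 (.cons (nat_lit 50) gl46 (.cons (nat_lit 52) gl47 (.cons (nat_lit 53) gl48 (.cons (nat_lit 55) gl49 (.cons (nat_lit 56) gl50 (.cons (nat_lit 58) gl51 (.cons (nat_lit 59) gl52 (.cons (nat_lit 62) gl53 (.cons (nat_lit 64) gl54 (.cons (nat_lit 65) gl55 (.cons (nat_lit 67) gl56 (.cons (nat_lit 68) gl57 (.cons (nat_lit 70) gl58 (.cons (nat_lit 71) gl59 (.nil))))))))))))))))))))))))))))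

/-- A group of options. -/
def gl60 : OG := .cons (nat_lit 15) (nat_lit 0) tl0 (.cons (nat_lit 16) (nat_lit 7) tl7 (.cons (nat_lit 17) (nat_lit 11) tl8 (.cons (nat_lit 18) (nat_lit 12) tl9 (.cons (nat_lit 19) (nat_lit 13) tl13 (.cons (nat_lit 20) (nat_lit 14) tl14 (.cons (nat_lit 21) (nat_lit 15) tl7 (.cons (nat_lit 22) (nat_lit 17) tl8 (.cons (nat_lit 23) (nat_lit 18) tl15 (.cons (nat_lit 24) (nat_lit 19) tl13 (.cons (nat_lit 25) (nat_lit 39) tl44 (.cons (nat_lit 26) (nat_lit 40) tl44 (.cons (nat_lit 27) (nat_lit 41) tl46 (.cons (nat_lit 28) (nat_lit 42) tl49 (.cons (nat_lit 29) (nat_lit 43) tl50 (.cons (nat_lit 30) (nat_lit 44) tl51 (.cons (nat_lit 31) (nat_lit 45) tl49 (.cons (nat_lit 32) (nat_lit 46) tl50 (.cons (nat_lit 33) (nat_lit 47) tl47 (.cons (nat_lit 34) (nat_lit 48) tl48 (.cons (nat_lit 35) (nat_lit 49) tl56 (.nil)))))))))))))))))))))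

/-- A group of options. -/
def gl61 : OG := .cons (nat_lit 0) (nat_lit 0) tl0 (.cons (nat_lit 1) (nat_lit 20) tl16 (.cons (nat_lit 2) (nat_lit 24) tl17 (.cons (nat_lit 3) (nat_lit 25) tl18 (.cons (nat_lit 4) (nat_lit 28) tl16 (.cons (nat_lit 5) (nat_lit 30) tl17 (.cons (nat_lit 6) (nat_lit 31) tl19 (.cons (nat_lit 7) (nat_lit 50) tl59 (.cons (nat_lit 8) (nat_lit 51) tl59 (.cons (nat_lit 9) (nat_lit 52) tl61 (.cons (nat_lit 10) (nat_lit 53) tl64 (.cons (nat_lit 11) (nat_lit 56) tl64 (.cons (nat_lit 12) (nat_lit 58) tl62 (.cons (nat_lit 13) (nat_lit 59) tl63 (.cons (nat_lit 14) (nat_lit 60) tl71 (.nil)))))))))))))))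

/-- The groups of the options of the shape `2`. -/
def gs2 : OGS := .cons (nat_lit 3) gl60 (.cons (nat_lit 9) gl61 (.nil))

/-- A group of options. -/
def gl62 : OG := .cons (nat_lit 15) (nat_lit 0) tl0 (.cons (nat_lit 16) (nat_lit 20) tl16 (.cons (nat_lit 17) (nat_lit 24) tl17 (.cons (nat_lit 18) (nat_lit 25) tl18 (.cons (nat_lit 19) (nat_lit 26) tl23 (.cons (nat_lit 20) (nat_lit 27) tl24 (.cons (nat_lit 21) (nat_lit 28) tl16 (.cons (nat_lit 22) (nat_lit 30) tl17 (.cons (nat_lit 23) (nat_lit 31) tl19 (.cons (nat_lit 24) (nat_lit 32) tl23 (.cons (nat_lit 25) (nat_lit 50) tl59 (.cons (nat_lit 26) (nat_lit 51) tl59 (.cons (nat_lit 27) (nat_lit 52) tl61 (.cons (nat_lit 28) (nat_lit 53) tl64 (.cons (nat_lit 29) (nat_lit 54) tl65 (.cons (nat_lit 30) (nat_lit 55) tl66 (.cons (nat_lit 31) (nat_lit 56) tl64 (.cons (nat_lit 32) (nat_lit 57) tl65 (.cons (nat_lit 33) (nat_lit 58) tl62 (.cons (nat_lit 34) (nat_lit 59) tl63 (.cons (nat_lit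 35) (nat_lit 60) tl71 (.nil)))))))))))))))))))))

/-- A group of options. -/
def gl63 : OG := .cons (nat_lit 0) (nat_lit 0) tl0 (.cons (nat_lit 1) (nat_lit 7) tl7 (.cons (nat_lit 2) (nat_lit 11) tl8 (.cons (nat_lit 3) (nat_lit 12) tl9 (.cons (nat_lit 4) (nat_lit 15) tl7 (.cons (nat_lit 5) (nat_lit 17) tl8 (.cons (nat_lit 6) (nat_lit 18) tl15 (.cons (nat_lit 7) (nat_lit 39) tl44 (.cons (nat_lit 8) (nat_lit 40) tl44 (.cons (nat_lit 9) (nat_lit 41) tl46 (.cons (nat_lit 10) (nat_lit 42) tl49 (.cons (nat_lit 11) (nat_lit 45) tl49 (.cons (nat_lit 12) (nat_lit 47) tl47 (.cons (nat_lit 13) (nat_lit 48) tl48 (.cons (nat_lit 14) (nat_lit 49) tl56 (.nil)))))))))))))))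

/-- The groups of the options of the shape `3`. -/
def gs3 : OGS := .cons (nat_lit 3) gl62 (.cons (nat_lit 6) gl63 (.nil))

/-- A group of options. -/
def gl64 : OG := .cons (nat_lit 0) (nat_lit 0) tl0 (.cons (nat_lit 1) (nat_lit 7) tl7 (.cons (nat_lit 2) (nat_lit 15) tl7 (.cons (nat_lit 3) (nat_lit 20) tl16 (.cons (nat_lit 4) (nat_lit 28) tl16 (.nil)))))

/-- A group of options. -/
def gl65 : OG := .cons (nat_lit 5) (nat_lit 0) tl0 (.cons (nat_lit 6) (nat_lit 1) tl1 (.cons (nat_lit 7) (nat_lit 2) tl5 (.cons (nat_lit 8) (nat_lit 7) tl7 (.cons (nat_lit 9) (nat_lit 8) tl10 (.cons (nat_lit 10) (nat_lit 9) tl11 (.cons (nat_lit 11) (nat_lit 10) tl12 (.cons (nat_lit 12) (nat_lit 15) tl7 (.cons (nat_lit 13) (nat_lit 16) tl10 (.nil)))))))))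

/-- A group of options. -/
def gl66 : OG := .cons (nat_lit 14) (nat_lit 0) tl0 (.cons (nat_lit 15) (nat_lit 1) tl1 (.cons (nat_lit 16) (nat_lit 3) tl3 (.cons (nat_lit 17) (nat_lit 20) tl16 (.cons (nat_lit 18) (nat_lit 21) tl20 (.cons (nat_lit 19) (nat_lit 22) tl21 (.cons (nat_lit 20) (nat_lit 23) tl22 (.cons (nat_lit 21) (nat_lit 28) tl16 (.cons (nat_lit 22) (nat_lit 29) tl20 (.nil)))))))))

/-- The groups of the options of the shape `4`. -/
def gs4 : OGS := .cons (nat_lit 3) gl64 (.cons (nat_lit 6) gl65 (.cons (nat_lit 9) gl66 (.nil)))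

/-- A group of options. -/
def gl67 : OG := .cons (nat_lit 14) (nat_lit 0) tl0 (.cons (nat_lit 15) (nat_lit 7) tl7 (.cons (nat_lit 16) (nat_lit 15) tl7 (.cons (nat_lit 17) (nat_lit 20) tl16 (.cons (nat_lit 18) (nat_lit 28) tl16 (.nil)))))

/-- A group of options. -/
def gl68 : OG := .cons (nat_lit 0) (nat_lit 0) tl0 (.cons (nat_lit 1) (nat_lit 1) tl1 (.cons (nat_lit 2) (nat_lit 2) tl5 (.cons (nat_lit 3) (nat_lit 7) tl7 (.cons (nat_lit 4) (nat_lit 8) tl10 (.cons (nat_lit 5) (nat_lit 9) tl11 (.cons (nat_lit 6) (nat_lit 10) tl12 (.cons (nat_lit 7) (nat_lit 15) tl7 (.cons (nat_lit 8) (nat_lit 16) tl10 (.nil)))))))))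

/-- A group of options. -/
def gl69 : OG := .cons (nat_lit 9) (nat_lit 0) tl0 (.cons (nat_lit 10) (nat_lit 1) tl1 (.cons (nat_lit 11) (nat_lit 3) tl3 (.cons (nat_lit 12) (nat_lit 20) tl16 (.cons (nat_lit 13) (nat_lit 28) tl16 (.nil)))))

/-- The groups of the options of the shape `5`. -/
def gs5 : OGS := .cons (nat_lit 3) gl67 (.cons (nat_lit 6) gl68 (.cons (nat_lit 9) gl69 (.nil)))

/-- A group of options. -/
def gl70 : OG := .cons (nat_lit 9) (nat_lit 0) tl0 (.cons (nat_lit 10) (nat_lit 1) tl1 (.cons (nat_lit 11) (nat_lit 2) tl5 (.cons (nat_lit 12) (nat_lit 7) tl7 (.cons (nat_lit 13) (nat_lit 15) tl7 (.nil)))))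

/-- A group of options. -/
def gl71 : OG := .cons (nat_lit 0) (nat_lit 0) tl0 (.cons (nat_lit 1) (nat_lit 1) tl1 (.cons (nat_lit 2) (nat_lit 3) tl3 (.cons (nat_lit 3) (nat_lit 20) tl16 (.cons (nat_lit 4) (nat_lit 21) tl20 (.cons (nat_lit 5) (nat_lit 22) tl21 (.cons (nat_lit 6) (nat_lit 23) tl22 (.cons (nat_lit 7) (nat_lit 28) tl16 (.cons (nat_lit 8) (nat_lit 29) tl20 (.nil)))))))))

/-- The groups of the options of the shape `6`. -/
def gs6 : OGS := .cons (nat_lit 3) gl67 (.cons (nat_lit 6) gl70 (.cons (nat_lit 9) gl71 (.nil)))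

/-- A group of options. -/
def gl72 : OG := .cons (nat_lit 61) (nat_lit 0) tl0 (.cons (nat_lit 62) (nat_lit 20) tl16 (.cons (nat_lit 63) (nat_lit 24) tl17 (.cons (nat_lit 64) (nat_lit 25) tl18 (.cons (nat_lit 65) (nat_lit 26) tl23 (.cons (nat_lit 66) (nat_lit 27) tl24 (.cons (nat_lit 67) (nat_lit 28) tl16 (.cons (nat_lit 68) (nat_lit 30) tl17 (.cons (nat_lit 69) (nat_lit 31) tl19 (.cons (nat_lit 70) (nat_lit 32) tl23 (.cons (nat_lit 71) (nat_lit 50) tl59 (.cons (nat_lit 72) (nat_lit 51) tl59 (.cons (nat_lit 73) (nat_lit 52) tl61 (.cons (nat_lit 74) (nat_lit 53) tl64 (.cons (nat_lit 75) (nat_lit 54) tl65 (.cons (nat_lit 76) (nat_lit 55) tl66 (.cons (nat_lit 77) (nat_lit 56) tl64 (.cons (nat_lit 78) (nat_lit 57) tl65 (.cons (nat_lit 79) (nat_lit 58) tl62 (.cons (nat_lit 80) (nat_lit 59) tl63 (.cons (nat_lit 81) (nat_lit 60) tl71 (.cons (nat_lit 82) (nat_lit 61) tl25 (.cons (nat_lit 83) (nat_lit 62) tl26 (.cons (nat_lit 84)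 (nat_lit 63) tl28 (.cons (nat_lit 85) (nat_lit 64) tl28 (.cons (nat_lit 86) (nat_lit 65) tl27 (.cons (nat_lit 87) (nat_lit 66) tl27 (.cons (nat_lit 88) (nat_lit 67) tl29 (.cons (nat_lit 89) (nat_lit 68) tl30 (.cons (nat_lit 90) (nat_lit 69) tl30 (.cons (nat_lit 91) (nat_lit 70) tl31 (.cons (nat_lit 92) (nat_lit 71) tl31 (.cons (nat_lit 93) (nat_lit 72) tl32 (.cons (nat_lit 94) (nat_lit 73) tl33 (.cons (nat_lit 95) (nat_lit 74) tl34 (.cons (nat_lit 96) (nat_lit 75) tl35 (.cons (nat_lit 97) (nat_lit 76) tl36 (.cons (nat_lit 98) (nat_lit 77) tl38 (.cons (nat_lit 99) (nat_lit 78) tl38 (.cons (nat_lit 100) (nat_lit 79) tl40 (.cons (nat_lit 101) (nat_lit 80) tl40 (.cons (nat_lit 102) (nat_lit 81) tl42 (.cons (nat_lit 103) (nat_lit 82) tl42 (.cons (nat_lit 104) (nat_lit 83) tl43 (.cons (nat_lit 105) (nat_lit 84) tl45 (.cons (nat_lit 106) (nat_lit 85) tl45 (.cons (nat_lit 107) (nat_lit 86) tl52 (.cons (nat_lit 108) (nat_lit 87)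 tl55 (.cons (nat_lit 109) (nat_lit 88) tl54 (.cons (nat_lit 110) (nat_lit 89) tl54 (.cons (nat_lit 111) (nat_lit 90) tl53 (.cons (nat_lit 112) (nat_lit 91) tl57 (.cons (nat_lit 113) (nat_lit 92) tl58 (.cons (nat_lit 114) (nat_lit 93) tl60 (.cons (nat_lit 115) (nat_lit 94) tl60 (.cons (nat_lit 116) (nat_lit 95) tl67 (.cons (nat_lit 117) (nat_lit 96) tl69 (.cons (nat_lit 118) (nat_lit 97) tl70 (.cons (nat_lit 119) (nat_lit 98) tl70 (.cons (nat_lit 120) (nat_lit 99) tl68 (.cons (nat_lit 121) (nat_lit 100) tl72 (.nil)))))))))))))))))))))))))))))))))))))))))))))))))))))))))))))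

/-- A group of options. -/
def gl73 : OG := .cons (nat_lit 0) (nat_lit 0) tl0 (.cons (nat_lit 1) (nat_lit 7) tl7 (.cons (nat_lit 2) (nat_lit 11) tl8 (.cons (nat_lit 3) (nat_lit 12) tl9 (.cons (nat_lit 4) (nat_lit 13) tl13 (.cons (nat_lit 5) (nat_lit 14) tl14 (.cons (nat_lit 6) (nat_lit 15) tl7 (.cons (nat_lit 7) (nat_lit 17) tl8 (.cons (nat_lit 8) (nat_lit 18) tl15 (.cons (nat_lit 9) (nat_lit 19) tl13 (.cons (nat_lit 10) (nat_lit 39) tl44 (.cons (nat_lit 11) (nat_lit 40) tl44 (.cons (nat_lit 12) (nat_lit 41) tl46 (.cons (nat_lit 13) (nat_lit 42) tl49 (.cons (nat_lit 14) (nat_lit 43) tl50 (.cons (nat_lit 15) (nat_lit 44) tl51 (.cons (nat_lit 16) (nat_lit 45) tl49 (.cons (nat_lit 17) (nat_lit 46) tl50 (.cons (nat_lit 18) (nat_lit 47) tl47 (.cons (nat_lit 19) (nat_lit 48) tl48 (.cons (nat_lit 20) (nat_lit 49) tl56 (.cons (nat_lit 21) (nat_lit 61) tl25 (.cons (nat_lit 22) (nat_lit 62) tl26 (.cons (nat_lit 23) (nat_lit 63) tl28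 (.cons (nat_lit 24) (nat_lit 64) tl28 (.cons (nat_lit 25) (nat_lit 65) tl27 (.cons (nat_lit 26) (nat_lit 66) tl27 (.cons (nat_lit 27) (nat_lit 67) tl29 (.cons (nat_lit 28) (nat_lit 68) tl30 (.cons (nat_lit 29) (nat_lit 69) tl30 (.cons (nat_lit 30) (nat_lit 70) tl31 (.cons (nat_lit 31) (nat_lit 71) tl31 (.cons (nat_lit 32) (nat_lit 72) tl32 (.cons (nat_lit 33) (nat_lit 73) tl33 (.cons (nat_lit 34) (nat_lit 74) tl34 (.cons (nat_lit 35) (nat_lit 75) tl35 (.cons (nat_lit 36) (nat_lit 76) tl36 (.cons (nat_lit 37) (nat_lit 77) tl38 (.cons (nat_lit 38) (nat_lit 78) tl38 (.cons (nat_lit 39) (nat_lit 79) tl40 (.cons (nat_lit 40) (nat_lit 80) tl40 (.cons (nat_lit 41) (nat_lit 81) tl42 (.cons (nat_lit 42) (nat_lit 82) tl42 (.cons (nat_lit 43) (nat_lit 83) tl43 (.cons (nat_lit 44) (nat_lit 84) tl45 (.cons (nat_lit 45) (nat_lit 85) tl45 (.cons (nat_lit 46) (nat_lit 86) tl52 (.cons (nat_lit 47) (nat_lit 87) tl55 (.cons (nat_lit 48) (nat_lit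 88) tl54 (.cons (nat_lit 49) (nat_lit 89) tl54 (.cons (nat_lit 50) (nat_lit 90) tl53 (.cons (nat_lit 51) (nat_lit 91) tl57 (.cons (nat_lit 52) (nat_lit 92) tl58 (.cons (nat_lit 53) (nat_lit 93) tl60 (.cons (nat_lit 54) (nat_lit 94) tl60 (.cons (nat_lit 55) (nat_lit 95) tl67 (.cons (nat_lit 56) (nat_lit 96) tl69 (.cons (nat_lit 57) (nat_lit 97) tl70 (.cons (nat_lit 58) (nat_lit 98) tl70 (.cons (nat_lit 59) (nat_lit 99) tl68 (.cons (nat_lit 60) (nat_lit 100) tl72 (.nil)))))))))))))))))))))))))))))))))))))))))))))))))))))))))))))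

/-- A group of options. -/
def gl74 : OG := .cons (nat_lit 134) (nat_lit 0) tl0 (.cons (nat_lit 135) (nat_lit 1) tl1 (.cons (nat_lit 136) (nat_lit 7) tl7 (.cons (nat_lit 137) (nat_lit 15) tl7 (.cons (nat_lit 138) (nat_lit 20) tl16 (.cons (nat_lit 139) (nat_lit 28) tl16 (.nil))))))

/-- A group of options. -/
def gl75 : OG := .cons (nat_lit 140) (nat_lit 0) tl0 (.cons (nat_lit 141) (nat_lit 1) tl1 (.cons (nat_lit 142) (nat_lit 7) tl7 (.cons (nat_lit 143) (nat_lit 15) tl7 (.cons (nat_lit 144) (nat_lit 20) tl16 (.cons (nat_lit 145) (nat_lit 28) tl16 (.nil))))))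

/-- A group of options. -/
def gl76 : OG := .cons (nat_lit 128) (nat_lit 0) tl0 (.cons (nat_lit 129) (nat_lit 1) tl1 (.cons (nat_lit 130) (nat_lit 7) tl7 (.cons (nat_lit 131) (nat_lit 15) tl7 (.cons (nat_lit 132) (nat_lit 20) tl16 (.cons (nat_lit 133) (nat_lit 28) tl16 (.nil))))))

/-- A group of options. -/
def gl77 : OG := .cons (nat_lit 122) (nat_lit 0) tl0 (.cons (nat_lit 123) (nat_lit 1) tl1 (.cons (nat_lit 124) (nat_lit 7) tl7 (.cons (nat_lit 125) (nat_lit 15) tl7 (.cons (nat_lit 126) (nat_lit 20) tl16 (.cons (nat_lit 127) (nat_lit 28) tl16 (.nil))))))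

/-- A group of options. -/
def gl78 : OG := .cons (nat_lit 215) (nat_lit 0) tl0 (.cons (nat_lit 216) (nat_lit 1) tl1 (.cons (nat_lit 217) (nat_lit 7) tl7 (.cons (nat_lit 218) (nat_lit 15) tl7 (.cons (nat_lit 219) (nat_lit 20) tl16 (.cons (nat_lit 220) (nat_lit 28) tl16 (.nil))))))

/-- A group of options. -/
def gl79 : OG := .cons (nat_lit 221) (nat_lit 0) tl0 (.cons (nat_lit 222) (nat_lit 1) tl1 (.cons (nat_lit 223) (nat_lit 7) tl7 (.cons (nat_lit 224) (nat_lit 15) tl7 (.cons (nat_lit 225) (nat_lit 20) tl16 (.cons (nat_lit 226) (nat_lit 28) tl16 (.nil))))))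

/-- A group of options. -/
def gl80 : OG := .cons (nat_lit 227) (nat_lit 0) tl0 (.cons (nat_lit 228) (nat_lit 1) tl1 (.cons (nat_lit 229) (nat_lit 7) tl7 (.cons (nat_lit 230) (nat_lit 15) tl7 (.cons (nat_lit 231) (nat_lit 20) tl16 (.cons (nat_lit 232) (nat_lit 28) tl16 (.nil))))))

/-- A group of options. -/
def gl81 : OG := .cons (nat_lit 245) (nat_lit 0) tl0 (.cons (nat_lit 246) (nat_lit 7) tl7 (.cons (nat_lit 247) (nat_lit 15) tl7 (.cons (nat_lit 248) (nat_lit 20) tl16 (.cons (nat_lit 249) (nat_lit 28) tl16 (.nil)))))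

/-- A group of options. -/
def gl82 : OG := .cons (nat_lit 250) (nat_lit 0) tl0 (.cons (nat_lit 251) (nat_lit 1) tl1 (.cons (nat_lit 252) (nat_lit 7) tl7 (.cons (nat_lit 253) (nat_lit 15) tl7 (.cons (nat_lit 254) (nat_lit 20) tl16 (.cons (nat_lit 255) (nat_lit 28) tl16 (.nil))))))

/-- A group of options. -/
def gl83 : OG := .cons (nat_lit 270) (nat_lit 0) tl0 (.cons (nat_lit 271) (nat_lit 1) tl1 (.cons (nat_lit 272) (nat_lit 2) tl5 (.cons (nat_lit 273) (nat_lit 7) tl7 (.cons (nat_lit 274) (nat_lit 8) tl10 (.cons (nat_lit 275) (nat_lit 9) tl11 (.cons (nat_lit 276) (nat_lit 15) tl7 (.cons (nat_lit 277) (nat_lit 16) tl10 (.nil))))))))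

/-- A group of options. -/
def gl84 : OG := .cons (nat_lit 278) (nat_lit 0) tl0 (.cons (nat_lit 279) (nat_lit 1) tl1 (.cons (nat_lit 280) (nat_lit 7) tl7 (.cons (nat_lit 281) (nat_lit 15) tl7 (.cons (nat_lit 282) (nat_lit 20) tl16 (.cons (nat_lit 283) (nat_lit 28) tl16 (.nil))))))

/-- A group of options. -/
def gl85 : OG := .cons (nat_lit 256) (nat_lit 0) tl0 (.cons (nat_lit 257) (nat_lit 1) tl1 (.cons (nat_lit 258) (nat_lit 3) tl3 (.cons (nat_lit 259) (nat_lit 20) tl16 (.cons (nat_lit 260) (nat_lit 21) tl20 (.cons (nat_lit 261) (nat_lit 22) tl21 (.cons (nat_lit 262) (nat_lit 28) tl16 (.cons (nat_lit 263) (nat_lit 29) tl20 (.nil))))))))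

/-- A group of options. -/
def gl86 : OG := .cons (nat_lit 264) (nat_lit 0) tl0 (.cons (nat_lit 265) (nat_lit 1) tl1 (.cons (nat_lit 266) (nat_lit 7) tl7 (.cons (nat_lit 267) (nat_lit 15) tl7 (.cons (nat_lit 268) (nat_lit 20) tl16 (.cons (nat_lit 269) (nat_lit 28) tl16 (.nil))))))

/-- A group of options. -/
def gl87 : OG := .cons (nat_lit 170) (nat_lit 0) tl0 (.cons (nat_lit 171) (nat_lit 1) tl1 (.cons (nat_lit 172) (nat_lit 7) tl7 (.cons (nat_lit 173) (nat_lit 15) tl7 (.cons (nat_lit 174) (nat_lit 20) tl16 (.cons (nat_lit 175) (nat_lit 28) tl16 (.nil))))))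

/-- A group of options. -/
def gl88 : OG := .cons (nat_lit 176) (nat_lit 0) tl0 (.cons (nat_lit 177) (nat_lit 7) tl7 (.cons (nat_lit 178) (nat_lit 15) tl7 (.cons (nat_lit 179) (nat_lit 20) tl16 (.cons (nat_lit 180) (nat_lit 28) tl16 (.nil)))))

/-- A group of options. -/
def gl89 : OG := .cons (nat_lit 181) (nat_lit 0) tl0 (.cons (nat_lit 182) (nat_lit 1) tl1 (.cons (nat_lit 183) (nat_lit 7) tl7 (.cons (nat_lit 184) (nat_lit 15) tl7 (.cons (nat_lit 185) (nat_lit 20) tl16 (.cons (nat_lit 186) (nat_lit 28) tl16 (.nil))))))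

/-- A group of options. -/
def gl90 : OG := .cons (nat_lit 187) (nat_lit 0) tl0 (.cons (nat_lit 188) (nat_lit 1) tl1 (.cons (nat_lit 189) (nat_lit 2) tl5 (.cons (nat_lit 190) (nat_lit 7) tl7 (.cons (nat_lit 191) (nat_lit 8) tl10 (.cons (nat_lit 192) (nat_lit 9) tl11 (.cons (nat_lit 193) (nat_lit 15) tl7 (.cons (nat_lit 194) (nat_lit 16) tl10 (.nil))))))))

/-- A group of options. -/
def gl91 : OG := .cons (nat_lit 195) (nat_lit 0) tl0 (.cons (nat_lit 196) (nat_lit 1) tl1 (.cons (nat_lit 197) (nat_lit 7) tl7 (.cons (nat_lit 198) (nat_lit 15) tl7 (.cons (nat_lit 199) (nat_lit 20) tl16 (.cons (nat_lit 200) (nat_lit 28) tl16 (.nil))))))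

/-- A group of options. -/
def gl92 : OG := .cons (nat_lit 201) (nat_lit 0) tl0 (.cons (nat_lit 202) (nat_lit 1) tl1 (.cons (nat_lit 203) (nat_lit 3) tl3 (.cons (nat_lit 204) (nat_lit 20) tl16 (.cons (nat_lit 205) (nat_lit 21) tl20 (.cons (nat_lit 206) (nat_lit 22) tl21 (.cons (nat_lit 207) (nat_lit 28) tl16 (.cons (nat_lit 208) (nat_lit 29) tl20 (.nil))))))))

/-- A group of options. -/
def gl93 : OG := .cons (nat_lit 209) (nat_lit 0) tl0 (.cons (nat_lit 210) (nat_lit 1) tl1 (.cons (nat_lit 211) (nat_lit 7) tl7 (.cons (nat_lit 212) (nat_lit 15) tl7 (.cons (nat_lit 213) (nat_lit 20) tl16 (.cons (nat_lit 214) (nat_lit 28) tl16 (.nil))))))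

/-- A group of options. -/
def gl94 : OG := .cons (nat_lit 146) (nat_lit 0) tl0 (.cons (nat_lit 147) (nat_lit 1) tl1 (.cons (nat_lit 148) (nat_lit 7) tl7 (.cons (nat_lit 149) (nat_lit 15) tl7 (.cons (nat_lit 150) (nat_lit 20) tl16 (.cons (nat_lit 151) (nat_lit 28) tl16 (.nil))))))

/-- A group of options. -/
def gl95 : OG := .cons (nat_lit 152) (nat_lit 0) tl0 (.cons (nat_lit 153) (nat_lit 1) tl1 (.cons (nat_lit 154) (nat_lit 7) tl7 (.cons (nat_lit 155) (nat_lit 15) tl7 (.cons (nat_lit 156) (nat_lit 20) tl16 (.cons (nat_lit 157) (nat_lit 28) tl16 (.nil))))))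

/-- A group of options. -/
def gl96 : OG := .cons (nat_lit 158) (nat_lit 0) tl0 (.cons (nat_lit 159) (nat_lit 1) tl1 (.cons (nat_lit 160) (nat_lit 7) tl7 (.cons (nat_lit 161) (nat_lit 15) tl7 (.cons (nat_lit 162) (nat_lit 20) tl16 (.cons (nat_lit 163) (nat_lit 28) tl16 (.nil))))))

/-- A group of options. -/
def gl97 : OG := .cons (nat_lit 164) (nat_lit 0) tl0 (.cons (nat_lit 165) (nat_lit 1) tl1 (.cons (nat_lit 166) (nat_lit 7) tl7 (.cons (nat_lit 167) (nat_lit 15) tl7 (.cons (nat_lit 168) (nat_lit 20) tl16 (.cons (nat_lit 169) (nat_lit 28) tl16 (.nil))))))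

/-- The groups of the options of the shape `7`. -/
def gs7 : OGS := .cons (nat_lit 3) gl72 (.cons (nat_lit 6) gl73 (.cons (nat_lit 14) gl74 (.cons (nat_lit 17) gl75 (.cons (nat_lit 20) gl76 (.cons (nat_lit 23) gl77 (.cons (nat_lit 26) gl78 (.cons (nat_lit 29) gl79 (.cons (nat_lit 32) gl3 (.cons (nat_lit 35) gl80 (.cons (nat_lit 38) gl4 (.cons (nat_lit 40) gl81 (.cons (nat_lit 41) gl82 (.cons (nat_lit 43) gl83 (.cons (nat_lit 44) gl84 (.cons (nat_lit 46) gl85 (.cons (nat_lit 47) gl86 (.cons (nat_lit 50) gl87 (.cons (nat_lit 52) gl88 (.cons (nat_lit 53) gl89 (.cons (nat_lit 55) gl90 (.cons (nat_lit 56) gl91 (.cons (nat_lit 58) gl92 (.cons (nat_lit 59) gl93 (.cons (nat_lit 62) gl94 (.cons (nat_lit 65) gl95 (.cons (nat_lit 68) gl96 (.cons (nat_lit 71) gl97 (.nil))))))))))))))))))))))))))))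

/-- The groups of the options of the shape `8`. -/
def gs8 : OGS := .cons (nat_lit 3) gl62 (.cons (nat_lit 6) gl63 (.nil))

/-- A group of options. -/
def gl98 : OG := .cons (nat_lit 0) (nat_lit 0) tl0 (.cons (nat_lit 1) (nat_lit 61) tl25 (.cons (nat_lit 2) (nat_lit 62) tl26 (.cons (nat_lit 3) (nat_lit 63) tl28 (.cons (nat_lit 4) (nat_lit 64) tl28 (.cons (nat_lit 5) (nat_lit 65) tl27 (.cons (nat_lit 6) (nat_lit 66) tl27 (.cons (nat_lit 7) (nat_lit 67) tl29 (.cons (nat_lit 8) (nat_lit 68) tl30 (.cons (nat_lit 9) (nat_lit 69) tl30 (.cons (nat_lit 10) (nat_lit 70) tl31 (.cons (nat_lit 11) (nat_lit 71) tl31 (.cons (nat_lit 12) (nat_lit 72) tl32 (.cons (nat_lit 13) (nat_lit 73) tl33 (.cons (nat_lit 14) (nat_lit 74) tl34 (.cons (nat_lit 15) (nat_lit 75) tl35 (.cons (nat_lit 16) (nat_lit 76) tl36 (.cons (nat_lit 17) (nat_lit 77) tl38 (.cons (nat_lit 18) (nat_lit 78) tl38 (.cons (nat_lit 19) (nat_lit 79) tl40 (.cons (nat_lit 20)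 (nat_lit 80) tl40 (.cons (nat_lit 21) (nat_lit 81) tl42 (.cons (nat_lit 22) (nat_lit 82) tl42 (.cons (nat_lit 23) (nat_lit 92) tl58 (.cons (nat_lit 24) (nat_lit 93) tl60 (.cons (nat_lit 25) (nat_lit 94) tl60 (.cons (nat_lit 26) (nat_lit 95) tl67 (.cons (nat_lit 27) (nat_lit 96) tl69 (.cons (nat_lit 28) (nat_lit 97) tl70 (.cons (nat_lit 29) (nat_lit 98) tl70 (.cons (nat_lit 30) (nat_lit 99) tl68 (.cons (nat_lit 31) (nat_lit 100) tl72 (.nil))))))))))))))))))))))))))))))))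

/-- A group of options. -/
def gl99 : OG := .cons (nat_lit 45) (nat_lit 0) tl0 (.cons (nat_lit 46) (nat_lit 7) tl7 (.cons (nat_lit 47) (nat_lit 15) tl7 (.cons (nat_lit 48) (nat_lit 20) tl16 (.cons (nat_lit 49) (nat_lit 28) tl16 (.nil)))))

/-- A group of options. -/
def gl100 : OG := .cons (nat_lit 40) (nat_lit 0) tl0 (.cons (nat_lit 41) (nat_lit 1) tl1 (.cons (nat_lit 42) (nat_lit 2) tl5 (.cons (nat_lit 43) (nat_lit 7) tl7 (.cons (nat_lit 44) (nat_lit 15) tl7 (.nil)))))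

/-- A group of options. -/
def gl101 : OG := .cons (nat_lit 32) (nat_lit 0) tl0 (.cons (nat_lit 33) (nat_lit 1) tl1 (.cons (nat_lit 34) (nat_lit 3) tl3 (.cons (nat_lit 35) (nat_lit 20) tl16 (.cons (nat_lit 36) (nat_lit 21) tl20 (.cons (nat_lit 37) (nat_lit 22) tl21 (.cons (nat_lit 38) (nat_lit 28) tl16 (.cons (nat_lit 39) (nat_lit 29) tl20 (.nil))))))))

/-- The groups of the options of the shape `9`. -/
def gs9 : OGS := .cons (nat_lit 6) gl98 (.cons (nat_lit 52) gl99 (.cons (nat_lit 55) gl100 (.cons (nat_lit 58) gl101 (.nil))))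

/-- A group of options. -/
def gl102 : OG := .cons (nat_lit 0) (nat_lit 0) tl0 (.cons (nat_lit 1) (nat_lit 20) tl16 (.cons (nat_lit 2) (nat_lit 24) tl17 (.cons (nat_lit 3) (nat_lit 25) tl18 (.cons (nat_lit 4) (nat_lit 26) tl23 (.cons (nat_lit 5) (nat_lit 27) tl24 (.cons (nat_lit 6) (nat_lit 28) tl16 (.cons (nat_lit 7) (nat_lit 30) tl17 (.cons (nat_lit 8) (nat_lit 32) tl23 (.cons (nat_lit 9) (nat_lit 50) tl59 (.cons (nat_lit 10) (nat_lit 51) tl59 (.cons (nat_lit 11) (nat_lit 52) tl61 (.cons (nat_lit 12) (nat_lit 53) tl64 (.cons (nat_lit 13) (nat_lit 54) tl65 (.cons (nat_lit 14) (nat_lit 55) tl66 (.cons (nat_lit 15) (nat_lit 56) tl64 (.cons (nat_lit 16) (nat_lit 57) tl65 (.cons (nat_lit 17) (nat_lit 58) tl62 (.cons (nat_lit 18) (nat_lit 59) tl63 (.cons (nat_lit 19) (nat_lit 60) tl71 (.nil))))))))))))))))))))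

/-- A group of options. -/
def gl103 : OG := .cons (nat_lit 20) (nat_lit 0) tl0 (.cons (nat_lit 21) (nat_lit 7) tl7 (.cons (nat_lit 22) (nat_lit 11) tl8 (.cons (nat_lit 23) (nat_lit 12) tl9 (.cons (nat_lit 24) (nat_lit 15) tl7 (.cons (nat_lit 25) (nat_lit 17) tl8 (.cons (nat_lit 26) (nat_lit 18) tl15 (.nil)))))))

/-- The groups of the options of the shape `10`. -/
def gs10 : OGS := .cons (nat_lit 3) gl102 (.cons (nat_lit 6) gl103 (.nil))

/-- A group of options. -/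
def gl104 : OG := .cons (nat_lit 18) (nat_lit 0) tl0 (.cons (nat_lit 19) (nat_lit 7) tl7 (.cons (nat_lit 20) (nat_lit 15) tl7 (.cons (nat_lit 21) (nat_lit 20) tl16 (.cons (nat_lit 22) (nat_lit 28) tl16 (.nil)))))

/-- A group of options. -/
def gl105 : OG := .cons (nat_lit 9) (nat_lit 0) tl0 (.cons (nat_lit 10) (nat_lit 1) tl1 (.cons (nat_lit 11) (nat_lit 3) tl3 (.cons (nat_lit 12) (nat_lit 20) tl16 (.cons (nat_lit 13) (nat_lit 21) tl20 (.cons (nat_lit 14) (nat_lit 22) tl21 (.cons (nat_lit 15) (nat_lit 23) tl22 (.cons (nat_lit 16) (nat_lit 28) tl16 (.cons (nat_lit 17) (nat_lit 29) tl20 (.nil)))))))))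

/-- The groups of the options of the shape `11`. -/
def gs11 : OGS := .cons (nat_lit 3) gl104 (.cons (nat_lit 6) gl68 (.cons (nat_lit 9) gl105 (.nil)))

/-- A group of options. -/
def gl106 : OG := .cons (nat_lit 0) (nat_lit 0) tl0 (.cons (nat_lit 1) (nat_lit 7) tl7 (.cons (nat_lit 2) (nat_lit 13) tl13 (.cons (nat_lit 3) (nat_lit 14) tl14 (.cons (nat_lit 4) (nat_lit 15) tl7 (.cons (nat_lit 5) (nat_lit 18) tl15 (.cons (nat_lit 6) (nat_lit 19) tl13 (.cons (nat_lit 7) (nat_lit 39) tl44 (.cons (nat_lit 8) (nat_lit 40) tl44 (.cons (nat_lit 9) (nat_lit 41) tl46 (.cons (nat_lit 10) (nat_lit 42) tl49 (.cons (nat_lit 11) (nat_lit 43) tl50 (.cons (nat_lit 12) (nat_lit 44) tl51 (.cons (nat_lit 13) (nat_lit 45) tl49 (.cons (nat_lit 14) (nat_lit 46) tl50 (.cons (nat_lit 15) (nat_lit 47) tl47 (.cons (nat_lit 16) (nat_lit 49) tl56 (.nil)))))))))))))))))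

/-- A group of options. -/
def gl107 : OG := .cons (nat_lit 17) (nat_lit 0) tl0 (.cons (nat_lit 18) (nat_lit 20) tl16 (.cons (nat_lit 19) (nat_lit 26) tl23 (.cons (nat_lit 20) (nat_lit 27) tl24 (.cons (nat_lit 21) (nat_lit 28) tl16 (.cons (nat_lit 22) (nat_lit 31) tl19 (.cons (nat_lit 23) (nat_lit 32) tl23 (.cons (nat_lit 24) (nat_lit 50) tl59 (.cons (nat_lit 25) (nat_lit 51) tl59 (.cons (nat_lit 26) (nat_lit 52) tl61 (.cons (nat_lit 27) (nat_lit 53) tl64 (.cons (nat_lit 28) (nat_lit 54) tl65 (.cons (nat_lit 29) (nat_lit 55) tl66 (.cons (nat_lit 30) (nat_lit 56) tl64 (.cons (nat_lit 31) (nat_lit 57) tl65 (.cons (nat_lit 32) (nat_lit 58) tl62 (.cons (nat_lit 33) (nat_lit 60) tl71 (.nil)))))))))))))))))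

/-- The groups of the options of the shape `12`. -/
def gs12 : OGS := .cons (nat_lit 3) gl106 (.cons (nat_lit 9) gl107 (.nil))

/-- The groups of the options of the shape `13`. -/
def gs13 : OGS := .cons (nat_lit 3) gl67 (.cons (nat_lit 6) gl70 (.cons (nat_lit 9) gl71 (.nil)))

/-- A group of options. -/
def gl108 : OG := .cons (nat_lit 20) (nat_lit 0) tl0 (.cons (nat_lit 21) (nat_lit 7) tl7 (.cons (nat_lit 22) (nat_lit 11) tl8 (.cons (nat_lit 23) (nat_lit 12) tl9 (.cons (nat_lit 24) (nat_lit 13) tl13 (.cons (nat_lit 25) (nat_lit 14) tl14 (.cons (nat_lit 26) (nat_lit 15) tl7 (.cons (nat_lit 27) (nat_lit 17) tl8 (.cons (nat_lit 28) (nat_lit 18) tl15 (.cons (nat_lit 29) (nat_lit 19) tl13 (.nil))))))))))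

/-- The groups of the options of the shape `14`. -/
def gs14 : OGS := .cons (nat_lit 3) gl102 (.cons (nat_lit 6) gl108 (.nil))

/-- The groups of the options of the shape `15`. -/
def gs15 : OGS := .cons (nat_lit 3) gl72 (.cons (nat_lit 6) gl73 (.cons (nat_lit 14) gl74 (.cons (nat_lit 17) gl75 (.cons (nat_lit 20) gl76 (.cons (nat_lit 23) gl77 (.cons (nat_lit 26) gl78 (.cons (nat_lit 29) gl79 (.cons (nat_lit 32) gl3 (.cons (nat_lit 35) gl80 (.cons (nat_lit 38) gl4 (.cons (nat_lit 40) gl81 (.cons (nat_lit 41) gl82 (.cons (nat_lit 43) gl83 (.cons (nat_lit 44) gl84 (.cons (nat_lit 46) gl85 (.cons (nat_lit 47) gl86 (.cons (nat_lit 50) gl87 (.cons (nat_lit 52) gl88 (.cons (nat_lit 53) gl89 (.cons (nat_lit 55) gl90 (.cons (nat_lit 56) gl91 (.cons (nat_lit 58) gl92 (.cons (nat_lit 59) gl93 (.cons (nat_lit 62) gl94 (.cons (nat_lit 65) gl95 (.cons (nat_lit 68) gl96 (.cons (nat_lit 71) gl97 (.nil))))))))))))))))))))))))))))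

/-- The groups of the options of the shape `16`. -/
def gs16 : OGS := .cons (nat_lit 3) gl62 (.cons (nat_lit 6) gl63 (.nil))

/-- The groups of the options of the shape `17`. -/
def gs17 : OGS := .cons (nat_lit 3) gl104 (.cons (nat_lit 6) gl68 (.cons (nat_lit 9) gl105 (.nil)))

/-- The groups of the options of the shape `18`. -/
def gs18 : OGS := .cons (nat_lit 3) gl67 (.cons (nat_lit 6) gl68 (.cons (nat_lit 9) gl69 (.nil)))

/-- The groups of the options of the shape `19`. -/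
def gs19 : OGS := .cons (nat_lit 3) gl67 (.cons (nat_lit 6) gl70 (.cons (nat_lit 9) gl71 (.nil)))

/-- A group of options. -/
def gl109 : OG := .cons (nat_lit 61) (nat_lit 0) tl0 (.cons (nat_lit 62) (nat_lit 7) tl7 (.cons (nat_lit 63) (nat_lit 11) tl8 (.cons (nat_lit 64) (nat_lit 12) tl9 (.cons (nat_lit 65) (nat_lit 13) tl13 (.cons (nat_lit 66) (nat_lit 14) tl14 (.cons (nat_lit 67) (nat_lit 15) tl7 (.cons (nat_lit 68) (nat_lit 17) tl8 (.cons (nat_lit 69) (nat_lit 18) tl15 (.cons (nat_lit 70) (nat_lit 19) tl13 (.cons (nat_lit 71) (nat_lit 39) tl44 (.cons (nat_lit 72) (nat_lit 40) tl44 (.cons (nat_lit 73) (nat_lit 41) tl46 (.cons (nat_lit 74) (nat_lit 42) tl49 (.cons (nat_lit 75) (nat_lit 43) tl50 (.cons (nat_lit 76) (nat_lit 44) tl51 (.cons (nat_lit 77) (nat_lit 45) tl49 (.cons (nat_lit 78) (nat_lit 46) tl50 (.cons (nat_lit 79) (nat_lit 47) tl47 (.cons (nat_lit 80) (nat_lit 48) tl48 (.cons (nat_lit 81) (nat_lit 49) tl56 (.cons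 (nat_lit 82) (nat_lit 61) tl25 (.cons (nat_lit 83) (nat_lit 62) tl26 (.cons (nat_lit 84) (nat_lit 63) tl28 (.cons (nat_lit 85) (nat_lit 64) tl28 (.cons (nat_lit 86) (nat_lit 65) tl27 (.cons (nat_lit 87) (nat_lit 66) tl27 (.cons (nat_lit 88) (nat_lit 67) tl29 (.cons (nat_lit 89) (nat_lit 68) tl30 (.cons (nat_lit 90) (nat_lit 69) tl30 (.cons (nat_lit 91) (nat_lit 70) tl31 (.cons (nat_lit 92) (nat_lit 71) tl31 (.cons (nat_lit 93) (nat_lit 72) tl32 (.cons (nat_lit 94) (nat_lit 73) tl33 (.cons (nat_lit 95) (nat_lit 74) tl34 (.cons (nat_lit 96) (nat_lit 75) tl35 (.cons (nat_lit 97) (nat_lit 76) tl36 (.cons (nat_lit 98) (nat_lit 77) tl38 (.cons (nat_lit 99) (nat_lit 78) tl38 (.cons (nat_lit 100) (nat_lit 79) tl40 (.cons (nat_lit 101) (nat_lit 80) tl40 (.cons (nat_lit 102) (nat_lit 81) tl42 (.cons (nat_lit 103) (nat_lit 82) tl42 (.cons (nat_lit 104) (nat_lit 83) tl43 (.cons (nat_lit 105) (nat_lit 84) tl45 (.cons (nat_lit 106) (nat_lit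 85) tl45 (.cons (nat_lit 107) (nat_lit 86) tl52 (.cons (nat_lit 108) (nat_lit 87) tl55 (.cons (nat_lit 109) (nat_lit 88) tl54 (.cons (nat_lit 110) (nat_lit 89) tl54 (.cons (nat_lit 111) (nat_lit 90) tl53 (.cons (nat_lit 112) (nat_lit 91) tl57 (.cons (nat_lit 113) (nat_lit 92) tl58 (.cons (nat_lit 114) (nat_lit 93) tl60 (.cons (nat_lit 115) (nat_lit 94) tl60 (.cons (nat_lit 116) (nat_lit 95) tl67 (.cons (nat_lit 117) (nat_lit 96) tl69 (.cons (nat_lit 118) (nat_lit 97) tl70 (.cons (nat_lit 119) (nat_lit 98) tl70 (.cons (nat_lit 120) (nat_lit 99) tl68 (.cons (nat_lit 121) (nat_lit 100) tl72 (.nil)))))))))))))))))))))))))))))))))))))))))))))))))))))))))))))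

/-- A group of options. -/
def gl110 : OG := .cons (nat_lit 0) (nat_lit 0) tl0 (.cons (nat_lit 1) (nat_lit 20) tl16 (.cons (nat_lit 2) (nat_lit 24) tl17 (.cons (nat_lit 3) (nat_lit 25) tl18 (.cons (nat_lit 4) (nat_lit 26) tl23 (.cons (nat_lit 5) (nat_lit 27) tl24 (.cons (nat_lit 6) (nat_lit 28) tl16 (.cons (nat_lit 7) (nat_lit 30) tl17 (.cons (nat_lit 8) (nat_lit 31) tl19 (.cons (nat_lit 9) (nat_lit 32) tl23 (.cons (nat_lit 10) (nat_lit 50) tl59 (.cons (nat_lit 11) (nat_lit 51) tl59 (.cons (nat_lit 12) (nat_lit 52) tl61 (.cons (nat_lit 13) (nat_lit 53) tl64 (.cons (nat_lit 14) (nat_lit 54) tl65 (.cons (nat_lit 15) (nat_lit 55) tl66 (.cons (nat_lit 16) (nat_lit 56) tl64 (.cons (nat_lit 17) (nat_lit 57) tl65 (.cons (nat_lit 18) (nat_lit 58) tl62 (.cons (nat_lit 19) (nat_lit 59) tl63 (.cons (nat_lit 20) (nat_lit 60) tl71 (.cons (nat_lit 21) (nat_lit 61) tl25 (.cons (nat_lit 22) (nat_lit 62) tl26 (.cons (nat_lit 23) (nat_lit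 63) tl28 (.cons (nat_lit 24) (nat_lit 64) tl28 (.cons (nat_lit 25) (nat_lit 65) tl27 (.cons (nat_lit 26) (nat_lit 66) tl27 (.cons (nat_lit 27) (nat_lit 67) tl29 (.cons (nat_lit 28) (nat_lit 68) tl30 (.cons (nat_lit 29) (nat_lit 69) tl30 (.cons (nat_lit 30) (nat_lit 70) tl31 (.cons (nat_lit 31) (nat_lit 71) tl31 (.cons (nat_lit 32) (nat_lit 72) tl32 (.cons (nat_lit 33) (nat_lit 73) tl33 (.cons (nat_lit 34) (nat_lit 74) tl34 (.cons (nat_lit 35) (nat_lit 75) tl35 (.cons (nat_lit 36) (nat_lit 76) tl36 (.cons (nat_lit 37) (nat_lit 77) tl38 (.cons (nat_lit 38) (nat_lit 78) tl38 (.cons (nat_lit 39) (nat_lit 79) tl40 (.cons (nat_lit 40) (nat_lit 80) tl40 (.cons (nat_lit 41) (nat_lit 81) tl42 (.cons (nat_lit 42) (nat_lit 82) tl42 (.cons (nat_lit 43) (nat_lit 83) tl43 (.cons (nat_lit 44) (nat_lit 84) tl45 (.cons (nat_lit 45) (nat_lit 85) tl45 (.cons (nat_lit 46) (nat_lit 86) tl52 (.cons (nat_lit 47) (nat_lit 87) tl55 (.cons (nat_lit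 48) (nat_lit 88) tl54 (.cons (nat_lit 49) (nat_lit 89) tl54 (.cons (nat_lit 50) (nat_lit 90) tl53 (.cons (nat_lit 51) (nat_lit 91) tl57 (.cons (nat_lit 52) (nat_lit 92) tl58 (.cons (nat_lit 53) (nat_lit 93) tl60 (.cons (nat_lit 54) (nat_lit 94) tl60 (.cons (nat_lit 55) (nat_lit 95) tl67 (.cons (nat_lit 56) (nat_lit 96) tl69 (.cons (nat_lit 57) (nat_lit 97) tl70 (.cons (nat_lit 58) (nat_lit 98) tl70 (.cons (nat_lit 59) (nat_lit 99) tl68 (.cons (nat_lit 60) (nat_lit 100) tl72 (.nil)))))))))))))))))))))))))))))))))))))))))))))))))))))))))))))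

/-- A group of options. -/
def gl111 : OG := .cons (nat_lit 260) (nat_lit 0) tl0 (.cons (nat_lit 261) (nat_lit 1) tl1 (.cons (nat_lit 262) (nat_lit 7) tl7 (.cons (nat_lit 263) (nat_lit 15) tl7 (.cons (nat_lit 264) (nat_lit 20) tl16 (.cons (nat_lit 265) (nat_lit 28) tl16 (.nil))))))

/-- A group of options. -/
def gl112 : OG := .cons (nat_lit 266) (nat_lit 0) tl0 (.cons (nat_lit 267) (nat_lit 1) tl1 (.cons (nat_lit 268) (nat_lit 7) tl7 (.cons (nat_lit 269) (nat_lit 15) tl7 (.cons (nat_lit 270) (nat_lit 20) tl16 (.cons (nat_lit 271) (nat_lit 28) tl16 (.nil))))))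

/-- A group of options. -/
def gl113 : OG := .cons (nat_lit 272) (nat_lit 0) tl0 (.cons (nat_lit 273) (nat_lit 1) tl1 (.cons (nat_lit 274) (nat_lit 7) tl7 (.cons (nat_lit 275) (nat_lit 15) tl7 (.cons (nat_lit 276) (nat_lit 20) tl16 (.cons (nat_lit 277) (nat_lit 28) tl16 (.nil))))))

/-- A group of options. -/
def gl114 : OG := .cons (nat_lit 221) (nat_lit 0) tl0 (.cons (nat_lit 222) (nat_lit 7) tl7 (.cons (nat_lit 223) (nat_lit 15) tl7 (.cons (nat_lit 224) (nat_lit 20) tl16 (.cons (nat_lit 225) (nat_lit 28) tl16 (.nil)))))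

/-- A group of options. -/
def gl115 : OG := .cons (nat_lit 226) (nat_lit 0) tl0 (.cons (nat_lit 227) (nat_lit 1) tl1 (.cons (nat_lit 228) (nat_lit 7) tl7 (.cons (nat_lit 229) (nat_lit 15) tl7 (.cons (nat_lit 230) (nat_lit 20) tl16 (.cons (nat_lit 231) (nat_lit 28) tl16 (.nil))))))

/-- A group of options. -/
def gl116 : OG := .cons (nat_lit 232) (nat_lit 0) tl0 (.cons (nat_lit 233) (nat_lit 1) tl1 (.cons (nat_lit 234) (nat_lit 2) tl5 (.cons (nat_lit 235) (nat_lit 7) tl7 (.cons (nat_lit 236) (nat_lit 8) tl10 (.cons (nat_lit 237) (nat_lit 9) tl11 (.cons (nat_lit 238) (nat_lit 15) tl7 (.cons (nat_lit 239) (nat_lit 16) tl10 (.nil))))))))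

/-- A group of options. -/
def gl117 : OG := .cons (nat_lit 240) (nat_lit 0) tl0 (.cons (nat_lit 241) (nat_lit 1) tl1 (.cons (nat_lit 242) (nat_lit 7) tl7 (.cons (nat_lit 243) (nat_lit 15) tl7 (.cons (nat_lit 244) (nat_lit 20) tl16 (.cons (nat_lit 245) (nat_lit 28) tl16 (.nil))))))

/-- A group of options. -/
def gl118 : OG := .cons (nat_lit 246) (nat_lit 0) tl0 (.cons (nat_lit 247) (nat_lit 1) tl1 (.cons (nat_lit 248) (nat_lit 3) tl3 (.cons (nat_lit 249) (nat_lit 20) tl16 (.cons (nat_lit 250) (nat_lit 21) tl20 (.cons (nat_lit 251) (nat_lit 22) tl21 (.cons (nat_lit 252) (nat_lit 28) tl16 (.cons (nat_lit 253) (nat_lit 29) tl20 (.nil))))))))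

/-- A group of options. -/
def gl119 : OG := .cons (nat_lit 254) (nat_lit 0) tl0 (.cons (nat_lit 255) (nat_lit 1) tl1 (.cons (nat_lit 256) (nat_lit 7) tl7 (.cons (nat_lit 257) (nat_lit 15) tl7 (.cons (nat_lit 258) (nat_lit 20) tl16 (.cons (nat_lit 259) (nat_lit 28) tl16 (.nil))))))

/-- The groups of the options of the shape `20`. -/
def gs20 : OGS := .cons (nat_lit 3) gl109 (.cons (nat_lit 9) gl110 (.cons (nat_lit 14) gl75 (.cons (nat_lit 17) gl74 (.cons (nat_lit 20) gl77 (.cons (nat_lit 23) gl76 (.cons (nat_lit 26) gl111 (.cons (nat_lit 29) gl112 (.cons (nat_lit 32) gl113 (.cons (nat_lit 35) gl84 (.cons (nat_lit 38) gl78 (.cons (nat_lit 40) gl114 (.cons (nat_lit 41) gl115 (.cons (nat_lit 43) gl116 (.cons (nat_lit 44) gl117 (.cons (nat_lit 46) gl118 (.cons (nat_lit 47) gl119 (.cons (nat_lit 50) gl94 (.cons (nat_lit 53) gl95 (.cons (nat_lit 56) gl97 (.cons (nat_lit 59) gl96 (.cons (nat_lit 62) gl87 (.cons (nat_lit 64) gl88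 (.cons (nat_lit 65) gl89 (.cons (nat_lit 67) gl92 (.cons (nat_lit 68) gl93 (.cons (nat_lit 70) gl90 (.cons (nat_lit 71) gl91 (.nil))))))))))))))))))))))))))))

/-- The groups of the options of the shape `21`. -/
def gs21 : OGS := .cons (nat_lit 3) gl60 (.cons (nat_lit 9) gl61 (.nil))

/-- A group of options. -/
def gl120 : OG := .cons (nat_lit 0) (nat_lit 0) tl0 (.cons (nat_lit 1) (nat_lit 61) tl25 (.cons (nat_lit 2) (nat_lit 62) tl26 (.cons (nat_lit 3) (nat_lit 63) tl28 (.cons (nat_lit 4) (nat_lit 64) tl28 (.cons (nat_lit 5) (nat_lit 65) tl27 (.cons (nat_lit 6) (nat_lit 66) tl27 (.cons (nat_lit 7) (nat_lit 67) tl29 (.cons (nat_lit 8) (nat_lit 68) tl30 (.cons (nat_lit 9) (nat_lit 69) tl30 (.cons (nat_lit 10) (nat_lit 70) tl31 (.cons (nat_lit 11) (nat_lit 71) tl31 (.cons (nat_lit 12) (nat_lit 72) tl32 (.cons (nat_lit 13) (nat_lit 73) tl33 (.cons (nat_lit 14) (nat_lit 74) tl34 (.cons (nat_lit 15) (nat_lit 75) tl35 (.cons (nat_lit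 16) (nat_lit 76) tl36 (.cons (nat_lit 17) (nat_lit 77) tl38 (.cons (nat_lit 18) (nat_lit 78) tl38 (.cons (nat_lit 19) (nat_lit 79) tl40 (.cons (nat_lit 20) (nat_lit 80) tl40 (.cons (nat_lit 21) (nat_lit 81) tl42 (.cons (nat_lit 22) (nat_lit 82) tl42 (.cons (nat_lit 23) (nat_lit 83) tl43 (.cons (nat_lit 24) (nat_lit 84) tl45 (.cons (nat_lit 25) (nat_lit 85) tl45 (.cons (nat_lit 26) (nat_lit 86) tl52 (.cons (nat_lit 27) (nat_lit 87) tl55 (.cons (nat_lit 28) (nat_lit 88) tl54 (.cons (nat_lit 29) (nat_lit 89) tl54 (.cons (nat_lit 30) (nat_lit 90) tl53 (.cons (nat_lit 31) (nat_lit 91) tl57 (.nil))))))))))))))))))))))))))))))))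

/-- A group of options. -/
def gl121 : OG := .cons (nat_lit 40) (nat_lit 0) tl0 (.cons (nat_lit 41) (nat_lit 1) tl1 (.cons (nat_lit 42) (nat_lit 3) tl3 (.cons (nat_lit 43) (nat_lit 20) tl16 (.cons (nat_lit 44) (nat_lit 28) tl16 (.nil)))))

/-- A group of options. -/
def gl122 : OG := .cons (nat_lit 32) (nat_lit 0) tl0 (.cons (nat_lit 33) (nat_lit 1) tl1 (.cons (nat_lit 34) (nat_lit 2) tl5 (.cons (nat_lit 35) (nat_lit 7) tl7 (.cons (nat_lit 36) (nat_lit 8) tl10 (.cons (nat_lit 37) (nat_lit 9) tl11 (.cons (nat_lit 38) (nat_lit 15) tl7 (.cons (nat_lit 39) (nat_lit 16) tl10 (.nil))))))))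

/-- The groups of the options of the shape `22`. -/
def gs22 : OGS := .cons (nat_lit 9) gl120 (.cons (nat_lit 64) gl99 (.cons (nat_lit 67) gl121 (.cons (nat_lit 70) gl122 (.nil))))

/-- A group of options. -/
def gl123 : OG := .cons (nat_lit 0) (nat_lit 0) tl0 (.cons (nat_lit 1) (nat_lit 7) tl7 (.cons (nat_lit 2) (nat_lit 11) tl8 (.cons (nat_lit 3) (nat_lit 12) tl9 (.cons (nat_lit 4) (nat_lit 13) tl13 (.cons (nat_lit 5) (nat_lit 14) tl14 (.cons (nat_lit 6) (nat_lit 15) tl7 (.cons (nat_lit 7) (nat_lit 17) tl8 (.cons (nat_lit 8) (nat_lit 19) tl13 (.cons (nat_lit 9) (nat_lit 39) tl44 (.cons (nat_lit 10) (nat_lit 40) tl44 (.cons (nat_lit 11) (nat_lit 41) tl46 (.cons (nat_lit 12) (nat_lit 42) tl49 (.cons (nat_lit 13) (nat_lit 43) tl50 (.cons (nat_lit 14) (nat_lit 44) tl51 (.cons (nat_lit 15) (nat_lit 45) tl49 (.cons (nat_lit 16) (nat_lit 46) tl50 (.cons (nat_lit 17) (nat_lit 47) tl47 (.cons (nat_lit 18) (nat_lit 48) tl48 (.cons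 (nat_lit 19) (nat_lit 49) tl56 (.nil))))))))))))))))))))

/-- A group of options. -/
def gl124 : OG := .cons (nat_lit 20) (nat_lit 0) tl0 (.cons (nat_lit 21) (nat_lit 20) tl16 (.cons (nat_lit 22) (nat_lit 24) tl17 (.cons (nat_lit 23) (nat_lit 25) tl18 (.cons (nat_lit 24) (nat_lit 28) tl16 (.cons (nat_lit 25) (nat_lit 30) tl17 (.cons (nat_lit 26) (nat_lit 31) tl19 (.nil)))))))

/-- The groups of the options of the shape `23`. -/
def gs23 : OGS := .cons (nat_lit 3) gl123 (.cons (nat_lit 9) gl124 (.nil))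

/-- A group of options. -/
def gl125 : OG := .cons (nat_lit 9) (nat_lit 0) tl0 (.cons (nat_lit 10) (nat_lit 1) tl1 (.cons (nat_lit 11) (nat_lit 2) tl5 (.cons (nat_lit 12) (nat_lit 7) tl7 (.cons (nat_lit 13) (nat_lit 8) tl10 (.cons (nat_lit 14) (nat_lit 9) tl11 (.cons (nat_lit 15) (nat_lit 10) tl12 (.cons (nat_lit 16) (nat_lit 15) tl7 (.cons (nat_lit 17) (nat_lit 16) tl10 (.nil)))))))))

/-- The groups of the options of the shape `24`. -/
def gs24 : OGS := .cons (nat_lit 3) gl104 (.cons (nat_lit 6) gl125 (.cons (nat_lit 9) gl71 (.nil)))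

/-- A group of options. -/
def gl126 : OG := .cons (nat_lit 0) (nat_lit 0) tl0 (.cons (nat_lit 1) (nat_lit 20) tl16 (.cons (nat_lit 2) (nat_lit 26) tl23 (.cons (nat_lit 3) (nat_lit 27) tl24 (.cons (nat_lit 4) (nat_lit 28) tl16 (.cons (nat_lit 5) (nat_lit 31) tl19 (.cons (nat_lit 6) (nat_lit 32) tl23 (.cons (nat_lit 7) (nat_lit 50) tl59 (.cons (nat_lit 8) (nat_lit 51) tl59 (.cons (nat_lit 9) (nat_lit 52) tl61 (.cons (nat_lit 10) (nat_lit 53) tl64 (.cons (nat_lit 11) (nat_lit 54) tl65 (.cons (nat_lit 12) (nat_lit 55) tl66 (.cons (nat_lit 13) (nat_lit 56) tl64 (.cons (nat_lit 14) (nat_lit 57) tl65 (.cons (nat_lit 15) (nat_lit 58) tl62 (.cons (nat_lit 16) (nat_lit 60) tl71 (.nil)))))))))))))))))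

/-- A group of options. -/
def gl127 : OG := .cons (nat_lit 17) (nat_lit 0) tl0 (.cons (nat_lit 18) (nat_lit 7) tl7 (.cons (nat_lit 19) (nat_lit 13) tl13 (.cons (nat_lit 20) (nat_lit 14) tl14 (.cons (nat_lit 21) (nat_lit 15) tl7 (.cons (nat_lit 22) (nat_lit 18) tl15 (.cons (nat_lit 23) (nat_lit 19) tl13 (.cons (nat_lit 24) (nat_lit 39) tl44 (.cons (nat_lit 25) (nat_lit 40) tl44 (.cons (nat_lit 26) (nat_lit 41) tl46 (.cons (nat_lit 27) (nat_lit 42) tl49 (.cons (nat_lit 28) (nat_lit 43) tl50 (.cons (nat_lit 29) (nat_lit 44) tl51 (.cons (nat_lit 30) (nat_lit 45) tl49 (.cons (nat_lit 31) (nat_lit 46) tl50 (.cons (nat_lit 32) (nat_lit 47) tl47 (.cons (nat_lit 33) (nat_lit 49) tl56 (.nil)))))))))))))))))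

/-- The groups of the options of the shape `25`. -/
def gs25 : OGS := .cons (nat_lit 3) gl126 (.cons (nat_lit 6) gl127 (.nil))

/-- The groups of the options of the shape `26`. -/
def gs26 : OGS := .cons (nat_lit 3) gl67 (.cons (nat_lit 6) gl68 (.cons (nat_lit 9) gl69 (.nil)))

/-- A group of options. -/
def gl128 : OG := .cons (nat_lit 20) (nat_lit 0) tl0 (.cons (nat_lit 21) (nat_lit 20) tl16 (.cons (nat_lit 22) (nat_lit 24) tl17 (.cons (nat_lit 23) (nat_lit 25) tl18 (.cons (nat_lit 24) (nat_lit 26) tl23 (.cons (nat_lit 25) (nat_lit 27) tl24 (.cons (nat_lit 26) (nat_lit 28) tl16 (.cons (nat_lit 27) (nat_lit 30) tl17 (.cons (nat_lit 28) (nat_lit 31) tl19 (.cons (nat_lit 29) (nat_lit 32) tl23 (.nil))))))))))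

/-- The groups of the options of the shape `27`. -/
def gs27 : OGS := .cons (nat_lit 3) gl123 (.cons (nat_lit 9) gl128 (.nil))

/-- The groups of the options of the shape `28`. -/
def gs28 : OGS := .cons (nat_lit 3) gl109 (.cons (nat_lit 9) gl110 (.cons (nat_lit 14) gl75 (.cons (nat_lit 17) gl74 (.cons (nat_lit 20) gl77 (.cons (nat_lit 23) gl76 (.cons (nat_lit 26) gl111 (.cons (nat_lit 29) gl112 (.cons (nat_lit 32) gl113 (.cons (nat_lit 35) gl84 (.cons (nat_lit 38) gl78 (.cons (nat_lit 40) gl114 (.cons (nat_lit 41) gl115 (.cons (nat_lit 43) gl116 (.cons (nat_lit 44) gl117 (.cons (nat_lit 46) gl118 (.cons (nat_lit 47) gl119 (.cons (nat_lit 50) gl94 (.cons (nat_lit 53) gl95 (.cons (nat_lit 56) gl97 (.cons (nat_lit 59) gl96 (.cons (nat_lit 62) gl87 (.cons (nat_lit 64) gl88 (.cons (nat_lit 65) gl89 (.cons (nat_lit 67) gl92 (.cons (nat_lit 68) gl93 (.cons (nat_lit 70) gl90 (.cons (nat_lit 71) gl91 (.nil))))))))))))))))))))))))))))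

/-- The groups of the options of the shape `29`. -/
def gs29 : OGS := .cons (nat_lit 3) gl60 (.cons (nat_lit 9) gl61 (.nil))

/-- The groups of the options of the shape `30`. -/
def gs30 : OGS := .cons (nat_lit 3) gl104 (.cons (nat_lit 6) gl125 (.cons (nat_lit 9) gl71 (.nil)))

/-- The groups of the options of the shape `31`. -/
def gs31 : OGS := .cons (nat_lit 3) gl67 (.cons (nat_lit 6) gl70 (.cons (nat_lit 9) gl71 (.nil)))

/-- The groups of the options of the shape `32`. -/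
def gs32 : OGS := .cons (nat_lit 3) gl67 (.cons (nat_lit 6) gl68 (.cons (nat_lit 9) gl69 (.nil)))

/-- A group of options. -/
def gl129 : OG := .cons (nat_lit 10) (nat_lit 0) tl0 (.cons (nat_lit 11) (nat_lit 1) tl1 (.cons (nat_lit 12) (nat_lit 4) tl2 (.cons (nat_lit 13) (nat_lit 6) tl4 (.cons (nat_lit 14) (nat_lit 33) tl37 (.cons (nat_lit 15) (nat_lit 34) tl37 (.cons (nat_lit 16) (nat_lit 35) tl39 (.cons (nat_lit 17) (nat_lit 36) tl39 (.cons (nat_lit 18) (nat_lit 37) tl41 (.cons (nat_lit 19) (nat_lit 38) tl41 (.nil))))))))))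

/-- A group of options. -/
def gl130 : OG := .cons (nat_lit 0) (nat_lit 0) tl0 (.cons (nat_lit 1) (nat_lit 1) tl1 (.cons (nat_lit 2) (nat_lit 4) tl2 (.cons (nat_lit 3) (nat_lit 5) tl6 (.cons (nat_lit 4) (nat_lit 33) tl37 (.cons (nat_lit 5) (nat_lit 34) tl37 (.cons (nat_lit 6) (nat_lit 35) tl39 (.cons (nat_lit 7) (nat_lit 36) tl39 (.cons (nat_lit 8) (nat_lit 37) tl41 (.cons (nat_lit 9) (nat_lit 38) tl41 (.nil))))))))))

/-- The groups of the options of the shape `33`. -/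
def gs33 : OGS := .cons (nat_lit 6) gl129 (.cons (nat_lit 9) gl130 (.nil))

/-- The groups of the options of the shape `34`. -/
def gs34 : OGS := .cons (nat_lit 6) gl129 (.cons (nat_lit 9) gl130 (.nil))

/-- The groups of the options of the shape `35`. -/
def gs35 : OGS := .cons (nat_lit 3) gl62 (.cons (nat_lit 6) gl63 (.nil))

/-- The groups of the options of the shape `36`. -/
def gs36 : OGS := .cons (nat_lit 3) gl62 (.cons (nat_lit 6) gl63 (.nil))

/-- The groups of the options of the shape `37`. -/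
def gs37 : OGS := .cons (nat_lit 3) gl60 (.cons (nat_lit 9) gl61 (.nil))

/-- The groups of the options of the shape `38`. -/
def gs38 : OGS := .cons (nat_lit 3) gl60 (.cons (nat_lit 9) gl61 (.nil))

/-- The groups of the options of the shape `39`. -/
def gs39 : OGS := .cons (nat_lit 6) gl129 (.cons (nat_lit 9) gl130 (.nil))

/-- The groups of the options of the shape `40`. -/
def gs40 : OGS := .cons (nat_lit 6) gl129 (.cons (nat_lit 9) gl130 (.nil))

/-- The groups of the options of the shape `41`. -/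
def gs41 : OGS := .cons (nat_lit 3) gl62 (.cons (nat_lit 6) gl63 (.nil))

/-- A group of options. -/
def gl131 : OG := .cons (nat_lit 18) (nat_lit 0) tl0 (.cons (nat_lit 19) (nat_lit 61) tl25 (.cons (nat_lit 20) (nat_lit 62) tl26 (.cons (nat_lit 21) (nat_lit 63) tl28 (.cons (nat_lit 22) (nat_lit 64) tl28 (.cons (nat_lit 23) (nat_lit 65) tl27 (.cons (nat_lit 24) (nat_lit 66) tl27 (.cons (nat_lit 25) (nat_lit 67) tl29 (.cons (nat_lit 26) (nat_lit 68) tl30 (.cons (nat_lit 27) (nat_lit 69) tl30 (.cons (nat_lit 28) (nat_lit 70) tl31 (.cons (nat_lit 29) (nat_lit 71) tl31 (.cons (nat_lit 30) (nat_lit 72) tl32 (.cons (nat_lit 31) (nat_lit 73) tl33 (.cons (nat_lit 32) (nat_lit 74) tl34 (.cons (nat_lit 33) (nat_lit 75) tl35 (.cons (nat_lit 34) (nat_lit 76) tl36 (.cons (nat_lit 35) (nat_lit 77) tl38 (.cons (nat_lit 36) (nat_lit 78) tl38 (.cons (nat_lit 37) (nat_lit 79) tl40 (.cons (nat_lit 38) (nat_lit 80) tl40 (.cons (nat_lit 39)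 (nat_lit 81) tl42 (.cons (nat_lit 40) (nat_lit 82) tl42 (.cons (nat_lit 41) (nat_lit 92) tl58 (.cons (nat_lit 42) (nat_lit 93) tl60 (.cons (nat_lit 43) (nat_lit 94) tl60 (.cons (nat_lit 44) (nat_lit 95) tl67 (.cons (nat_lit 45) (nat_lit 96) tl69 (.cons (nat_lit 46) (nat_lit 97) tl70 (.cons (nat_lit 47) (nat_lit 98) tl70 (.cons (nat_lit 48) (nat_lit 99) tl68 (.cons (nat_lit 49) (nat_lit 100) tl72 (.nil))))))))))))))))))))))))))))))))

/-- A group of options. -/
def gl132 : OG := .cons (nat_lit 13) (nat_lit 0) tl0 (.cons (nat_lit 14) (nat_lit 7) tl7 (.cons (nat_lit 15) (nat_lit 15) tl7 (.cons (nat_lit 16) (nat_lit 20) tl16 (.cons (nat_lit 17) (nat_lit 28) tl16 (.nil)))))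

/-- A group of options. -/
def gl133 : OG := .cons (nat_lit 8) (nat_lit 0) tl0 (.cons (nat_lit 9) (nat_lit 1) tl1 (.cons (nat_lit 10) (nat_lit 2) tl5 (.cons (nat_lit 11) (nat_lit 7) tl7 (.cons (nat_lit 12) (nat_lit 15) tl7 (.nil)))))

/-- A group of options. -/
def gl134 : OG := .cons (nat_lit 0) (nat_lit 0) tl0 (.cons (nat_lit 1) (nat_lit 1) tl1 (.cons (nat_lit 2) (nat_lit 3) tl3 (.cons (nat_lit 3) (nat_lit 20) tl16 (.cons (nat_lit 4) (nat_lit 21) tl20 (.cons (nat_lit 5) (nat_lit 22) tl21 (.cons (nat_lit 6) (nat_lit 28) tl16 (.cons (nat_lit 7) (nat_lit 29) tl20 (.nil))))))))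

/-- The groups of the options of the shape `42`. -/
def gs42 : OGS := .cons (nat_lit 6) gl131 (.cons (nat_lit 52) gl132 (.cons (nat_lit 55) gl133 (.cons (nat_lit 58) gl134 (.nil))))

/-- The groups of the options of the shape `43`. -/
def gs43 : OGS := .cons (nat_lit 3) gl102 (.cons (nat_lit 6) gl103 (.nil))

/-- A group of options. -/
def gl135 : OG := .cons (nat_lit 0) (nat_lit 0) tl0 (.cons (nat_lit 1) (nat_lit 61) tl25 (.cons (nat_lit 2) (nat_lit 62) tl26 (.cons (nat_lit 3) (nat_lit 63) tl28 (.cons (nat_lit 4) (nat_lit 64) tl28 (.cons (nat_lit 5) (nat_lit 65) tl27 (.cons (nat_lit 6) (nat_lit 66) tl27 (.cons (nat_lit 7) (nat_lit 67) tl29 (.cons (nat_lit 8) (nat_lit 68) tl30 (.cons (nat_lit 9) (nat_lit 69) tl30 (.cons (nat_lit 10) (nat_lit 70) tl31 (.cons (nat_lit 11) (nat_lit 71) tl31 (.cons (nat_lit 12) (nat_lit 76) tl36 (.cons (nat_lit 13) (nat_lit 77) tl38 (.cons (nat_lit 14) (nat_lit 78) tl38 (.cons (nat_lit 15)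 (nat_lit 79) tl40 (.cons (nat_lit 16) (nat_lit 80) tl40 (.cons (nat_lit 17) (nat_lit 81) tl42 (.cons (nat_lit 18) (nat_lit 82) tl42 (.cons (nat_lit 19) (nat_lit 92) tl58 (.cons (nat_lit 20) (nat_lit 93) tl60 (.cons (nat_lit 21) (nat_lit 94) tl60 (.cons (nat_lit 22) (nat_lit 95) tl67 (.cons (nat_lit 23) (nat_lit 96) tl69 (.cons (nat_lit 24) (nat_lit 97) tl70 (.cons (nat_lit 25) (nat_lit 98) tl70 (.cons (nat_lit 26) (nat_lit 99) tl68 (.cons (nat_lit 27) (nat_lit 100) tl72 (.nil))))))))))))))))))))))))))))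

/-- The groups of the options of the shape `44`. -/
def gs44 : OGS := .cons (nat_lit 6) gl135 (.nil)

/-- The groups of the options of the shape `45`. -/
def gs45 : OGS := .cons (nat_lit 6) gl131 (.cons (nat_lit 52) gl132 (.cons (nat_lit 55) gl133 (.cons (nat_lit 58) gl134 (.nil))))

/-- The groups of the options of the shape `46`. -/
def gs46 : OGS := .cons (nat_lit 3) gl102 (.cons (nat_lit 6) gl103 (.nil))

/-- A group of options. -/
def gl136 : OG := .cons (nat_lit 21) (nat_lit 0) tl0 (.cons (nat_lit 22) (nat_lit 61) tl25 (.cons (nat_lit 23) (nat_lit 62) tl26 (.cons (nat_lit 24) (nat_lit 63) tl28 (.cons (nat_lit 25) (nat_lit 64) tl28 (.cons (nat_lit 26) (nat_lit 65) tl27 (.cons (nat_lit 27) (nat_lit 66) tl27 (.cons (nat_lit 28) (nat_lit 67) tl29 (.cons (nat_lit 29) (nat_lit 68) tl30 (.cons (nat_lit 30) (nat_lit 69) tl30 (.cons (nat_lit 31) (nat_lit 70) tl31 (.cons (nat_lit 32) (nat_lit 71) tl31 (.cons (nat_lit 33) (nat_lit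 72) tl32 (.cons (nat_lit 34) (nat_lit 73) tl33 (.cons (nat_lit 35) (nat_lit 74) tl34 (.cons (nat_lit 36) (nat_lit 75) tl35 (.cons (nat_lit 37) (nat_lit 83) tl43 (.cons (nat_lit 38) (nat_lit 84) tl45 (.cons (nat_lit 39) (nat_lit 85) tl45 (.cons (nat_lit 40) (nat_lit 86) tl52 (.cons (nat_lit 41) (nat_lit 87) tl55 (.cons (nat_lit 42) (nat_lit 88) tl54 (.cons (nat_lit 43) (nat_lit 89) tl54 (.cons (nat_lit 44) (nat_lit 90) tl53 (.cons (nat_lit 45) (nat_lit 91) tl57 (.cons (nat_lit 46) (nat_lit 92) tl58 (.cons (nat_lit 47) (nat_lit 93) tl60 (.cons (nat_lit 48) (nat_lit 94) tl60 (.cons (nat_lit 49) (nat_lit 95) tl67 (.cons (nat_lit 50) (nat_lit 96) tl69 (.cons (nat_lit 51) (nat_lit 97) tl70 (.cons (nat_lit 52) (nat_lit 98) tl70 (.cons (nat_lit 53) (nat_lit 99) tl68 (.cons (nat_lit 54) (nat_lit 100) tl72 (.nil))))))))))))))))))))))))))))))))))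

/-- A group of options. -/
def gl137 : OG := .cons (nat_lit 16) (nat_lit 0) tl0 (.cons (nat_lit 17) (nat_lit 7) tl7 (.cons (nat_lit 18) (nat_lit 15) tl7 (.cons (nat_lit 19) (nat_lit 20) tl16 (.cons (nat_lit 20) (nat_lit 28) tl16 (.nil)))))

/-- A group of options. -/
def gl138 : OG := .cons (nat_lit 8) (nat_lit 0) tl0 (.cons (nat_lit 9) (nat_lit 1) tl1 (.cons (nat_lit 10) (nat_lit 3) tl3 (.cons (nat_lit 11) (nat_lit 20) tl16 (.cons (nat_lit 12) (nat_lit 21) tl20 (.cons (nat_lit 13) (nat_lit 22) tl21 (.cons (nat_lit 14) (nat_lit 28) tl16 (.cons (nat_lit 15) (nat_lit 29) tl20 (.nil))))))))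

/-- A group of options. -/
def gl139 : OG := .cons (nat_lit 0) (nat_lit 0) tl0 (.cons (nat_lit 1) (nat_lit 1) tl1 (.cons (nat_lit 2) (nat_lit 2) tl5 (.cons (nat_lit 3) (nat_lit 7) tl7 (.cons (nat_lit 4) (nat_lit 8) tl10 (.cons (nat_lit 5) (nat_lit 9) tl11 (.cons (nat_lit 6) (nat_lit 15) tl7 (.cons (nat_lit 7) (nat_lit 16) tl10 (.nil))))))))

/-- The groups of the options of the shape `47`. -/
def gs47 : OGS := .cons (nat_lit 9) gl136 (.cons (nat_lit 64) gl137 (.cons (nat_lit 67) gl138 (.cons (nat_lit 70) gl139 (.nil))))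

/-- A group of options. -/
def gl140 : OG := .cons (nat_lit 17) (nat_lit 0) tl0 (.cons (nat_lit 18) (nat_lit 20) tl16 (.cons (nat_lit 19) (nat_lit 28) tl16 (.cons (nat_lit 20) (nat_lit 31) tl19 (.cons (nat_lit 21) (nat_lit 50) tl59 (.cons (nat_lit 22) (nat_lit 51) tl59 (.cons (nat_lit 23) (nat_lit 52) tl61 (.cons (nat_lit 24) (nat_lit 53) tl64 (.cons (nat_lit 25) (nat_lit 56) tl64 (.cons (nat_lit 26) (nat_lit 58) tl62 (.cons (nat_lit 27) (nat_lit 60) tl71 (.nil)))))))))))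

/-- The groups of the options of the shape `48`. -/
def gs48 : OGS := .cons (nat_lit 3) gl106 (.cons (nat_lit 9) gl140 (.nil))

/-- The groups of the options of the shape `49`. -/
def gs49 : OGS := .cons (nat_lit 3) gl60 (.cons (nat_lit 9) gl61 (.nil))

/-- A group of options. -/
def gl141 : OG := .cons (nat_lit 0) (nat_lit 0) tl0 (.cons (nat_lit 1) (nat_lit 1) tl1 (.cons (nat_lit 2) (nat_lit 4) tl2 (.cons (nat_lit 3) (nat_lit 6) tl4 (.cons (nat_lit 4) (nat_lit 33) tl37 (.cons (nat_lit 5) (nat_lit 34) tl37 (.cons (nat_lit 6) (nat_lit 35) tl39 (.cons (nat_lit 7) (nat_lit 36) tl39 (.cons (nat_lit 8) (nat_lit 37) tl41 (.cons (nat_lit 9) (nat_lit 38) tl41 (.nil))))))))))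

/-- A group of options. -/
def gl142 : OG := .cons (nat_lit 10) (nat_lit 0) tl0 (.cons (nat_lit 11) (nat_lit 1) tl1 (.cons (nat_lit 12) (nat_lit 4) tl2 (.cons (nat_lit 13) (nat_lit 5) tl6 (.cons (nat_lit 14) (nat_lit 33) tl37 (.cons (nat_lit 15) (nat_lit 34) tl37 (.cons (nat_lit 16) (nat_lit 35) tl39 (.cons (nat_lit 17) (nat_lit 36) tl39 (.cons (nat_lit 18) (nat_lit 37) tl41 (.cons (nat_lit 19) (nat_lit 38) tl41 (.nil))))))))))

/-- The groups of the options of the shape `50`. -/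
def gs50 : OGS := .cons (nat_lit 6) gl141 (.cons (nat_lit 9) gl142 (.nil))

/-- The groups of the options of the shape `51`. -/
def gs51 : OGS := .cons (nat_lit 6) gl141 (.cons (nat_lit 9) gl142 (.nil))

/-- The groups of the options of the shape `52`. -/
def gs52 : OGS := .cons (nat_lit 3) gl60 (.cons (nat_lit 9) gl61 (.nil))

/-- A group of options. -/
def gl143 : OG := .cons (nat_lit 18) (nat_lit 0) tl0 (.cons (nat_lit 19) (nat_lit 61) tl25 (.cons (nat_lit 20) (nat_lit 62) tl26 (.cons (nat_lit 21) (nat_lit 63) tl28 (.cons (nat_lit 22) (nat_lit 64) tl28 (.cons (nat_lit 23) (nat_lit 65) tl27 (.cons (nat_lit 24) (nat_lit 66) tl27 (.cons (nat_lit 25) (nat_lit 67) tl29 (.cons (nat_lit 26) (nat_lit 68) tl30 (.cons (nat_lit 27) (nat_lit 69) tl30 (.cons (nat_lit 28) (nat_lit 70) tl31 (.cons (nat_lit 29) (nat_lit 71) tl31 (.cons (nat_lit 30) (nat_lit 72) tl32 (.cons (nat_lit 31) (nat_lit 73) tl33 (.cons (nat_lit 32) (nat_lit 74)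 tl34 (.cons (nat_lit 33) (nat_lit 75) tl35 (.cons (nat_lit 34) (nat_lit 76) tl36 (.cons (nat_lit 35) (nat_lit 77) tl38 (.cons (nat_lit 36) (nat_lit 78) tl38 (.cons (nat_lit 37) (nat_lit 79) tl40 (.cons (nat_lit 38) (nat_lit 80) tl40 (.cons (nat_lit 39) (nat_lit 81) tl42 (.cons (nat_lit 40) (nat_lit 82) tl42 (.cons (nat_lit 41) (nat_lit 83) tl43 (.cons (nat_lit 42) (nat_lit 84) tl45 (.cons (nat_lit 43) (nat_lit 85) tl45 (.cons (nat_lit 44) (nat_lit 86) tl52 (.cons (nat_lit 45) (nat_lit 87) tl55 (.cons (nat_lit 46) (nat_lit 88) tl54 (.cons (nat_lit 47) (nat_lit 89) tl54 (.cons (nat_lit 48) (nat_lit 90) tl53 (.cons (nat_lit 49) (nat_lit 91) tl57 (.nil))))))))))))))))))))))))))))))))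

/-- A group of options. -/
def gl144 : OG := .cons (nat_lit 8) (nat_lit 0) tl0 (.cons (nat_lit 9) (nat_lit 1) tl1 (.cons (nat_lit 10) (nat_lit 3) tl3 (.cons (nat_lit 11) (nat_lit 20) tl16 (.cons (nat_lit 12) (nat_lit 28) tl16 (.nil)))))

/-- The groups of the options of the shape `53`. -/
def gs53 : OGS := .cons (nat_lit 9) gl143 (.cons (nat_lit 64) gl132 (.cons (nat_lit 67) gl144 (.cons (nat_lit 70) gl139 (.nil))))

/-- The groups of the options of the shape `54`. -/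
def gs54 : OGS := .cons (nat_lit 3) gl123 (.cons (nat_lit 9) gl124 (.nil))

/-- A group of options. -/
def gl145 : OG := .cons (nat_lit 0) (nat_lit 0) tl0 (.cons (nat_lit 1) (nat_lit 61) tl25 (.cons (nat_lit 2) (nat_lit 62) tl26 (.cons (nat_lit 3) (nat_lit 63) tl28 (.cons (nat_lit 4) (nat_lit 64) tl28 (.cons (nat_lit 5) (nat_lit 65) tl27 (.cons (nat_lit 6) (nat_lit 66) tl27 (.cons (nat_lit 7) (nat_lit 67) tl29 (.cons (nat_lit 8) (nat_lit 68) tl30 (.cons (nat_lit 9) (nat_lit 69) tl30 (.cons (nat_lit 10) (nat_lit 70) tl31 (.cons (nat_lit 11) (nat_lit 71) tl31 (.cons (nat_lit 12) (nat_lit 76) tl36 (.cons (nat_lit 13) (nat_lit 77) tl38 (.cons (nat_lit 14) (nat_lit 78) tl38 (.cons (nat_lit 15) (nat_lit 79) tl40 (.cons (nat_lit 16) (nat_lit 80) tl40 (.cons (nat_lit 17) (nat_lit 81) tl42 (.cons (nat_lit 18) (nat_lit 82) tl42 (.cons (nat_lit 19) (nat_lit 83) tl43 (.cons (nat_lit 20) (nat_lit 84) tl45 (.cons (nat_lit 21) (nat_lit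 85) tl45 (.cons (nat_lit 22) (nat_lit 86) tl52 (.cons (nat_lit 23) (nat_lit 87) tl55 (.cons (nat_lit 24) (nat_lit 88) tl54 (.cons (nat_lit 25) (nat_lit 89) tl54 (.cons (nat_lit 26) (nat_lit 90) tl53 (.cons (nat_lit 27) (nat_lit 91) tl57 (.nil))))))))))))))))))))))))))))

/-- The groups of the options of the shape `55`. -/
def gs55 : OGS := .cons (nat_lit 9) gl145 (.nil)

/-- The groups of the options of the shape `56`. -/
def gs56 : OGS := .cons (nat_lit 9) gl143 (.cons (nat_lit 64) gl132 (.cons (nat_lit 67) gl144 (.cons (nat_lit 70) gl139 (.nil))))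

/-- The groups of the options of the shape `57`. -/
def gs57 : OGS := .cons (nat_lit 3) gl123 (.cons (nat_lit 9) gl124 (.nil))

/-- A group of options. -/
def gl146 : OG := .cons (nat_lit 8) (nat_lit 0) tl0 (.cons (nat_lit 9) (nat_lit 1) tl1 (.cons (nat_lit 10) (nat_lit 2) tl5 (.cons (nat_lit 11) (nat_lit 7) tl7 (.cons (nat_lit 12) (nat_lit 8) tl10 (.cons (nat_lit 13) (nat_lit 9) tl11 (.cons (nat_lit 14) (nat_lit 15) tl7 (.cons (nat_lit 15) (nat_lit 16) tl10 (.nil))))))))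

/-- The groups of the options of the shape `58`. -/
def gs58 : OGS := .cons (nat_lit 6) gl136 (.cons (nat_lit 52) gl137 (.cons (nat_lit 55) gl146 (.cons (nat_lit 58) gl134 (.nil))))

/-- A group of options. -/
def gl147 : OG := .cons (nat_lit 17) (nat_lit 0) tl0 (.cons (nat_lit 18) (nat_lit 7) tl7 (.cons (nat_lit 19) (nat_lit 15) tl7 (.cons (nat_lit 20) (nat_lit 18) tl15 (.cons (nat_lit 21) (nat_lit 39) tl44 (.cons (nat_lit 22) (nat_lit 40) tl44 (.cons (nat_lit 23) (nat_lit 41) tl46 (.cons (nat_lit 24) (nat_lit 42) tl49 (.cons (nat_lit 25) (nat_lit 45) tl49 (.cons (nat_lit 26) (nat_lit 47) tl47 (.cons (nat_lit 27) (nat_lit 49) tl56 (.nil)))))))))))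

/-- The groups of the options of the shape `59`. -/
def gs59 : OGS := .cons (nat_lit 3) gl126 (.cons (nat_lit 6) gl147 (.nil))

/-- The groups of the options of the shape `60`. -/
def gs60 : OGS := .cons (nat_lit 3) gl62 (.cons (nat_lit 6) gl63 (.nil))

/-- A group of options. -/
def gl148 : OG := .cons (nat_lit 14) (nat_lit 0) tl0 (.cons (nat_lit 15) (nat_lit 1) tl1 (.cons (nat_lit 16) (nat_lit 2) tl5 (.cons (nat_lit 17) (nat_lit 7) tl7 (.cons (nat_lit 18) (nat_lit 8) tl10 (.cons (nat_lit 19) (nat_lit 9) tl11 (.cons (nat_lit 20) (nat_lit 10) tl12 (.cons (nat_lit 21) (nat_lit 15) tl7 (.cons (nat_lit 22) (nat_lit 16) tl10 (.nil)))))))))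

/-- A group of options. -/
def gl149 : OG := .cons (nat_lit 5) (nat_lit 0) tl0 (.cons (nat_lit 6) (nat_lit 1) tl1 (.cons (nat_lit 7) (nat_lit 3) tl3 (.cons (nat_lit 8) (nat_lit 20) tl16 (.cons (nat_lit 9) (nat_lit 21) tl20 (.cons (nat_lit 10) (nat_lit 22) tl21 (.cons (nat_lit 11) (nat_lit 23) tl22 (.cons (nat_lit 12) (nat_lit 28) tl16 (.cons (nat_lit 13) (nat_lit 29) tl20 (.nil)))))))))

/-- The groups of the options of the shape `61`. -/
def gs61 : OGS := .cons (nat_lit 3) gl64 (.cons (nat_lit 6) gl148 (.cons (nat_lit 9) gl149 (.nil)))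

/-- A group of options. -/
def gl150 : OG := .cons (nat_lit 0) (nat_lit 0) tl0 (.cons (nat_lit 1) (nat_lit 1) tl1 (.cons (nat_lit 2) (nat_lit 5) tl6 (.cons (nat_lit 3) (nat_lit 6) tl4 (.cons (nat_lit 4) (nat_lit 33) tl37 (.cons (nat_lit 5) (nat_lit 34) tl37 (.cons (nat_lit 6) (nat_lit 35) tl39 (.cons (nat_lit 7) (nat_lit 36) tl39 (.cons (nat_lit 8) (nat_lit 37) tl41 (.cons (nat_lit 9) (nat_lit 38) tl41 (.nil))))))))))

/-- A group of options. -/
def gl151 : OG := .cons (nat_lit 10) (nat_lit 0) tl0 (.cons (nat_lit 11) (nat_lit 1) tl1 (.cons (nat_lit 12) (nat_lit 5) tl6 (.cons (nat_lit 13) (nat_lit 6) tl4 (.cons (nat_lit 14) (nat_lit 33) tl37 (.cons (nat_lit 15) (nat_lit 34) tl37 (.cons (nat_lit 16) (nat_lit 35) tl39 (.cons (nat_lit 17) (nat_lit 36) tl39 (.cons (nat_lit 18) (nat_lit 37) tl41 (.cons (nat_lit 19) (nat_lit 38) tl41 (.nil))))))))))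

/-- The groups of the options of the shape `62`. -/
def gs62 : OGS := .cons (nat_lit 6) gl150 (.cons (nat_lit 9) gl151 (.nil))

/-- The groups of the options of the shape `63`. -/
def gs63 : OGS := .cons (nat_lit 3) gl127 (.cons (nat_lit 9) gl126 (.nil))

/-- The groups of the options of the shape `64`. -/
def gs64 : OGS := .cons (nat_lit 3) gl127 (.cons (nat_lit 9) gl126 (.nil))

/-- The groups of the options of the shape `65`. -/
def gs65 : OGS := .cons (nat_lit 3) gl107 (.cons (nat_lit 6) gl106 (.nil))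

/-- The groups of the options of the shape `66`. -/
def gs66 : OGS := .cons (nat_lit 3) gl107 (.cons (nat_lit 6) gl106 (.nil))

/-- The groups of the options of the shape `67`. -/
def gs67 : OGS := .cons (nat_lit 3) gl64 (.cons (nat_lit 6) gl65 (.cons (nat_lit 9) gl66 (.nil)))

/-- The groups of the options of the shape `68`. -/
def gs68 : OGS := .cons (nat_lit 3) gl104 (.cons (nat_lit 6) gl68 (.cons (nat_lit 9) gl105 (.nil)))

/-- The groups of the options of the shape `69`. -/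
def gs69 : OGS := .cons (nat_lit 3) gl104 (.cons (nat_lit 6) gl68 (.cons (nat_lit 9) gl105 (.nil)))

/-- The groups of the options of the shape `70`. -/
def gs70 : OGS := .cons (nat_lit 3) gl104 (.cons (nat_lit 6) gl125 (.cons (nat_lit 9) gl71 (.nil)))

/-- The groups of the options of the shape `71`. -/
def gs71 : OGS := .cons (nat_lit 3) gl104 (.cons (nat_lit 6) gl125 (.cons (nat_lit 9) gl71 (.nil)))

/-- A group of options. -/
def gl152 : OG := .cons (nat_lit 13) (nat_lit 0) tl0 (.cons (nat_lit 14) (nat_lit 1) tl1 (.cons (nat_lit 15) (nat_lit 2) tl5 (.cons (nat_lit 16) (nat_lit 7) tl7 (.cons (nat_lit 17) (nat_lit 8) tl10 (.cons (nat_lit 18) (nat_lit 9) tl11 (.cons (nat_lit 19) (nat_lit 15) tl7 (.cons (nat_lit 20) (nat_lit 16) tl10 (.nil))))))))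

/-- A group of options. -/
def gl153 : OG := .cons (nat_lit 5) (nat_lit 0) tl0 (.cons (nat_lit 6) (nat_lit 1) tl1 (.cons (nat_lit 7) (nat_lit 3) tl3 (.cons (nat_lit 8) (nat_lit 20) tl16 (.cons (nat_lit 9) (nat_lit 21) tl20 (.cons (nat_lit 10) (nat_lit 22) tl21 (.cons (nat_lit 11) (nat_lit 28) tl16 (.cons (nat_lit 12) (nat_lit 29) tl20 (.nil))))))))

/-- The groups of the options of the shape `72`. -/
def gs72 : OGS := .cons (nat_lit 3) gl64 (.cons (nat_lit 6) gl152 (.cons (nat_lit 9) gl153 (.nil)))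

/-- A group of options. -/
def gl154 : OG := .cons (nat_lit 5) (nat_lit 0) tl0 (.cons (nat_lit 6) (nat_lit 1) tl1 (.cons (nat_lit 7) (nat_lit 7) tl7 (.cons (nat_lit 8) (nat_lit 8) tl10 (.cons (nat_lit 9) (nat_lit 9) tl11 (.cons (nat_lit 10) (nat_lit 10) tl12 (.cons (nat_lit 11) (nat_lit 15) tl7 (.cons (nat_lit 12) (nat_lit 16) tl10 (.nil))))))))

/-- A group of options. -/
def gl155 : OG := .cons (nat_lit 13) (nat_lit 0) tl0 (.cons (nat_lit 14) (nat_lit 1) tl1 (.cons (nat_lit 15) (nat_lit 20) tl16 (.cons (nat_lit 16) (nat_lit 21) tl20 (.cons (nat_lit 17) (nat_lit 22) tl21 (.cons (nat_lit 18) (nat_lit 23) tl22 (.cons (nat_lit 19) (nat_lit 28) tl16 (.cons (nat_lit 20) (nat_lit 29) tl20 (.nil))))))))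

/-- The groups of the options of the shape `73`. -/
def gs73 : OGS := .cons (nat_lit 3) gl64 (.cons (nat_lit 6) gl154 (.cons (nat_lit 9) gl155 (.nil)))

/-- The groups of the options of the shape `74`. -/
def gs74 : OGS := .cons (nat_lit 3) gl67 (.cons (nat_lit 6) gl68 (.cons (nat_lit 9) gl69 (.nil)))

/-- The groups of the options of the shape `75`. -/
def gs75 : OGS := .cons (nat_lit 3) gl67 (.cons (nat_lit 6) gl70 (.cons (nat_lit 9) gl71 (.nil)))

/-- A group of options. -/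
def gl156 : OG := .cons (nat_lit 5) (nat_lit 0) tl0 (.cons (nat_lit 6) (nat_lit 1) tl1 (.cons (nat_lit 7) (nat_lit 2) tl5 (.cons (nat_lit 8) (nat_lit 7) tl7 (.cons (nat_lit 9) (nat_lit 8) tl10 (.cons (nat_lit 10) (nat_lit 9) tl11 (.cons (nat_lit 11) (nat_lit 15) tl7 (.cons (nat_lit 12) (nat_lit 16) tl10 (.nil))))))))

/-- A group of options. -/
def gl157 : OG := .cons (nat_lit 13) (nat_lit 0) tl0 (.cons (nat_lit 14) (nat_lit 1) tl1 (.cons (nat_lit 15) (nat_lit 3) tl3 (.cons (nat_lit 16) (nat_lit 20) tl16 (.cons (nat_lit 17) (nat_lit 21) tl20 (.cons (nat_lit 18) (nat_lit 22) tl21 (.cons (nat_lit 19) (nat_lit 28) tl16 (.cons (nat_lit 20) (nat_lit 29) tl20 (.nil))))))))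

/-- The groups of the options of the shape `76`. -/
def gs76 : OGS := .cons (nat_lit 3) gl64 (.cons (nat_lit 6) gl156 (.cons (nat_lit 9) gl157 (.nil)))

/-- A group of options. -/
def gl158 : OG := .cons (nat_lit 13) (nat_lit 0) tl0 (.cons (nat_lit 14) (nat_lit 1) tl1 (.cons (nat_lit 15) (nat_lit 7) tl7 (.cons (nat_lit 16) (nat_lit 8) tl10 (.cons (nat_lit 17) (nat_lit 9) tl11 (.cons (nat_lit 18) (nat_lit 10) tl12 (.cons (nat_lit 19) (nat_lit 15) tl7 (.cons (nat_lit 20) (nat_lit 16) tl10 (.nil))))))))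

/-- A group of options. -/
def gl159 : OG := .cons (nat_lit 5) (nat_lit 0) tl0 (.cons (nat_lit 6) (nat_lit 1) tl1 (.cons (nat_lit 7) (nat_lit 20) tl16 (.cons (nat_lit 8) (nat_lit 21) tl20 (.cons (nat_lit 9) (nat_lit 22) tl21 (.cons (nat_lit 10) (nat_lit 23) tl22 (.cons (nat_lit 11) (nat_lit 28) tl16 (.cons (nat_lit 12) (nat_lit 29) tl20 (.nil))))))))

/-- The groups of the options of the shape `77`. -/
def gs77 : OGS := .cons (nat_lit 3) gl64 (.cons (nat_lit 6) gl158 (.cons (nat_lit 9) gl159 (.nil)))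

/-- The groups of the options of the shape `78`. -/
def gs78 : OGS := .cons (nat_lit 3) gl64 (.cons (nat_lit 6) gl158 (.cons (nat_lit 9) gl159 (.nil)))

/-- The groups of the options of the shape `79`. -/
def gs79 : OGS := .cons (nat_lit 3) gl67 (.cons (nat_lit 6) gl70 (.cons (nat_lit 9) gl71 (.nil)))

/-- The groups of the options of the shape `80`. -/
def gs80 : OGS := .cons (nat_lit 3) gl67 (.cons (nat_lit 6) gl70 (.cons (nat_lit 9) gl71 (.nil)))

/-- The groups of the options of the shape `81`. -/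
def gs81 : OGS := .cons (nat_lit 3) gl67 (.cons (nat_lit 6) gl68 (.cons (nat_lit 9) gl69 (.nil)))

/-- The groups of the options of the shape `82`. -/
def gs82 : OGS := .cons (nat_lit 3) gl67 (.cons (nat_lit 6) gl68 (.cons (nat_lit 9) gl69 (.nil)))

/-- The groups of the options of the shape `83`. -/
def gs83 : OGS := .cons (nat_lit 3) gl64 (.cons (nat_lit 6) gl156 (.cons (nat_lit 9) gl157 (.nil)))

/-- The groups of the options of the shape `84`. -/
def gs84 : OGS := .cons (nat_lit 3) gl64 (.cons (nat_lit 6) gl158 (.cons (nat_lit 9) gl159 (.nil)))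

/-- The groups of the options of the shape `85`. -/
def gs85 : OGS := .cons (nat_lit 3) gl64 (.cons (nat_lit 6) gl158 (.cons (nat_lit 9) gl159 (.nil)))

/-- The groups of the options of the shape `86`. -/
def gs86 : OGS := .cons (nat_lit 3) gl67 (.cons (nat_lit 6) gl70 (.cons (nat_lit 9) gl71 (.nil)))

/-- The groups of the options of the shape `87`. -/
def gs87 : OGS := .cons (nat_lit 3) gl63 (.cons (nat_lit 9) gl62 (.nil))

/-- The groups of the options of the shape `88`. -/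
def gs88 : OGS := .cons (nat_lit 3) gl102 (.cons (nat_lit 6) gl108 (.nil))

/-- The groups of the options of the shape `89`. -/
def gs89 : OGS := .cons (nat_lit 3) gl102 (.cons (nat_lit 6) gl108 (.nil))

/-- A group of options. -/
def gl160 : OG := .cons (nat_lit 0) (nat_lit 0) tl0 (.cons (nat_lit 1) (nat_lit 1) tl1 (.cons (nat_lit 2) (nat_lit 4) tl2 (.cons (nat_lit 3) (nat_lit 5) tl6 (.cons (nat_lit 4) (nat_lit 6) tl4 (.cons (nat_lit 5) (nat_lit 33) tl37 (.cons (nat_lit 6) (nat_lit 34) tl37 (.cons (nat_lit 7) (nat_lit 35) tl39 (.cons (nat_lit 8) (nat_lit 36) tl39 (.cons (nat_lit 9) (nat_lit 37) tl41 (.cons (nat_lit 10) (nat_lit 38) tl41 (.nil)))))))))))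

/-- A group of options. -/
def gl161 : OG := .cons (nat_lit 11) (nat_lit 0) tl0 (.cons (nat_lit 12) (nat_lit 1) tl1 (.cons (nat_lit 13) (nat_lit 4) tl2 (.cons (nat_lit 14) (nat_lit 5) tl6 (.cons (nat_lit 15) (nat_lit 6) tl4 (.nil)))))

/-- The groups of the options of the shape `90`. -/
def gs90 : OGS := .cons (nat_lit 6) gl160 (.cons (nat_lit 9) gl161 (.nil))

/-- The groups of the options of the shape `91`. -/
def gs91 : OGS := .cons (nat_lit 3) gl67 (.cons (nat_lit 6) gl68 (.cons (nat_lit 9) gl69 (.nil)))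

/-- The groups of the options of the shape `92`. -/
def gs92 : OGS := .cons (nat_lit 3) gl64 (.cons (nat_lit 6) gl152 (.cons (nat_lit 9) gl153 (.nil)))

/-- The groups of the options of the shape `93`. -/
def gs93 : OGS := .cons (nat_lit 3) gl64 (.cons (nat_lit 6) gl154 (.cons (nat_lit 9) gl155 (.nil)))

/-- The groups of the options of the shape `94`. -/
def gs94 : OGS := .cons (nat_lit 3) gl64 (.cons (nat_lit 6) gl154 (.cons (nat_lit 9) gl155 (.nil)))

/-- The groups of the options of the shape `95`. -/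
def gs95 : OGS := .cons (nat_lit 3) gl67 (.cons (nat_lit 6) gl68 (.cons (nat_lit 9) gl69 (.nil)))

/-- The groups of the options of the shape `96`. -/
def gs96 : OGS := .cons (nat_lit 3) gl61 (.cons (nat_lit 6) gl60 (.nil))

/-- The groups of the options of the shape `97`. -/
def gs97 : OGS := .cons (nat_lit 3) gl123 (.cons (nat_lit 9) gl128 (.nil))

/-- The groups of the options of the shape `98`. -/
def gs98 : OGS := .cons (nat_lit 3) gl123 (.cons (nat_lit 9) gl128 (.nil))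

/-- The groups of the options of the shape `99`. -/
def gs99 : OGS := .cons (nat_lit 6) gl161 (.cons (nat_lit 9) gl160 (.nil))

/-- The groups of the options of the shape `100`. -/
def gs100 : OGS := .cons (nat_lit 3) gl67 (.cons (nat_lit 6) gl70 (.cons (nat_lit 9) gl71 (.nil)))

/-- The groups of the options of all shapes. -/
def gsT : List OGS :=
  [gs0, gs1, gs2, gs3, gs4, gs5, gs6, gs7, gs8, gs9, gs10, gs11, gs12, gs13, gs14, gs15, gs16, gs17, gs18, gs19, gs20, gs21, gs22, gs23, gs24, gs25, gs26, gs27, gs28, gs29, gs30, gs31, gs32, gs33, gs34, gs35, gs36, gs37, gs38, gs39, gs40, gs41, gs42, gs43, gs44, gs45, gs46, gs47, gs48, gs49, gs50, gs51, gs52, gs53, gs54, gs55, gs56, gs57, gs58, gs59, gs60, gs61, gs62, gs63, gs64, gs65, gs66, gs67, gs68, gs69, gs70, gs71, gs72, gs73, gs74, gs75, gs76, gs77, gs78, gs79, gs80, gs81, gs82, gs83, gs84, gs85, gs86, gs87, gs88, gs89, gs90, gs91, gs92, gs93, gs94, gs95, gs96, gs97, gs98,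 gs99, gs100]

/-- The options of the shape `k` with the first arc `c`. -/
def grpT (k c : ℕ) : OG := OGS.find c (rGet OGS.nil gsT k)

theorem grpT_spec : ∀ k < 101, ((opt k).zipIdx.all fun t =>
    (grpT k ((stepT k t.1).headD 0)).toList.contains (t.2, (stepT k t.1).tail, t.1 / 72)) =
      true := by
  decide +kernel

theorem mem_grpT {k o : ℕ} (hk : k < 101) (ho : o < (opt k).length) :
    (o, tokT ((opt k)[o] / 72), (opt k)[o] / 72) ∈
      (grpT k (((opt k)[o] % 3 + 3 * rotC (lastC k) ((opt k)[o] / 3 % 24)))).toList := by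
  have h := List.all_eq_true.1 (grpT_spec k hk) ((opt k)[o], o) (by
    rw [List.mk_mem_zipIdx_iff_getElem?, List.getElem?_eq_getElem ho])
  exact List.contains_iff_mem.1 h

/-! ### The accepted options -/

/-- The accepted options of a group. -/
def accG (m : Nd) (tl : AL) (g : OG) : AL :=
  OG.rec (motive := fun _ => AL) tl (fun o k t _ ih => Option.rec (motive := fun _ => AL) ih
    (fun m' => AL.cons o k m' ih) (m.run t)) g

/-- The accepted options at the node `n` after a strip of the shape `k`. -/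
def accL (n : Nd) (k : ℕ) : AL :=
  Nd.rec (motive := fun _ => AL) (fun _ mask => AL.nil mask)
    (fun c child _ _ ih => accG child ih (grpT k c)) n

theorem accG_tl (m : Nd) (tl : AL) {o k : ℕ} {m' : Nd} (h : tl.Mem o k m') :
    ∀ g, (accG m tl g).Mem o k m' := by
  intro g
  induction g with
  | nil => exact h
  | cons o1 k1 t rest ih =>
    show (Option.rec (motive := fun _ => AL) (accG m tl rest) (fun m' => AL.cons o1 k1 m'
      (accG m tl rest)) (m.run t)).Mem o k m'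
    cases m.run t with
    | none => exact ih
    | some _ => exact Or.inr ih

theorem mem_accG (m : Nd) (tl : AL) {e : ℕ × List ℕ × ℕ} {m' : Nd} (h : m.run e.2.1 = some m') :
    ∀ g : OG, e ∈ g.toList → (accG m tl g).Mem e.1 e.2.2 m' := by
  intro g
  induction g with
  | nil => intro h; exact absurd h List.not_mem_nil
  | cons o1 k1 t rest ih =>
    intro he
    show (Option.rec (motive := fun _ => AL) (accG m tl rest) (fun m' => AL.cons o1 k1 m'
      (accG m tl rest)) (m.run t)).Mem e.1 e.2.2 m'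
    rcases List.mem_cons.1 (show e ∈ (o1, t, k1) :: rest.toList from he) with rfl | he
    · rw [show m.run t = some m' from h]
      exact Or.inl ⟨rfl, rfl, rfl⟩
    · cases m.run t with
      | none => exact ih he
      | some _ => exact Or.inr (ih he)

theorem accG_mask (m : Nd) (tl : AL) : ∀ g, (accG m tl g).mask = tl.mask := by
  intro g
  induction g with
  | nil => rfl
  | cons o1 k1 t rest ih =>
    show (Option.rec (motive := fun _ => AL) (accG m tl rest) (fun m' => AL.cons o1 k1 m'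
      (accG m tl rest)) (m.run t)).mask = tl.mask
    cases m.run t with
    | none => exact ih
    | some _ => exact ih

theorem accL_mask (n : Nd) (k : ℕ) : (accL n k).mask = n.mask := by
  induction n with
  | fin code mask => rfl
  | arc c child rest _ ih => exact (accG_mask child _ _).trans ih

/-- The list of the accepted options is complete. -/
theorem mem_accL {n : Nd} {k o : ℕ} (hk : k < 101) (ho : o < (opt k).length) {m : Nd}
    (h : n.run (stepT k (opt k)[o]) = some m) : (accL n k).Mem o ((opt k)[o] / 72) m := by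
  have hg := mem_grpT hk ho
  set c := (opt k)[o] % 3 + 3 * rotC (lastC k) ((opt k)[o] / 3 % 24) with hc
  have h0 : n.run (c :: tokT ((opt k)[o] / 72)) = some m := h
  rw [Nd.run_cons] at h0
  clear h
  induction n with
  | fin code mask => exact absurd h0 (by simp [Nd.next, Nd.look])
  | arc c' child rest _ ih =>
    have h1 : (Nd.arc c' child rest).next c = rIf (Nat.beq c' c) (some child) (rest.next c) := rfl
    show (accG child (accL rest k) (grpT k c')).Mem o ((opt k)[o] / 72) m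
    rw [h1] at h0
    cases hb : Nat.beq c' c with
    | true =>
      rw [hb] at h0
      have h2 := Nat.eq_of_beq_eq_true hb
      rw [h2]
      exact mem_accG child _ (e := (o, tokT ((opt k)[o] / 72), (opt k)[o] / 72)) h0 _ hg
    | false =>
      rw [hb] at h0
      exact accG_tl child _ (ih h0) _

namespace SMap

variable {F : Type*} (T : SMap F)

/-- **The nodes of a cell as a path of accepted options.** -/
theorem acc_nodes (d : F) : ∃ ν : ℕ → Nd, rootN.run (tokT (T.kx d)) = some (ν 0) ∧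
    (∀ j, j + 1 < Function.minimalPeriod T.N d →
      (accL (ν j) (T.kx (T.N^[j] d))).Mem (T.ox (T.N^[j] d)) (T.kx (T.N^[j + 1] d)) (ν (j + 1))) ∧
    bt (ν (Function.minimalPeriod T.N d - 1)).mask (kc (T.K d)) = true := by
  obtain ⟨ν, h1, h2, h3⟩ := T.nodes d
  refine ⟨ν, h1, fun j hj => ?_, h3⟩
  have ho : T.ox (T.N^[j] d) < (opt (T.kx (T.N^[j] d))).length := T.ox_lt_length _
  have h4 : (opt (T.kx (T.N^[j] d)))[T.ox (T.N^[j] d)] = T.oc (T.N^[j] d) := T.opt_ox _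
  have h5 := mem_accL (n := ν j) (m := ν (j + 1)) (T.kx_lt _) ho (by rw [h4]; exact h2 j hj)
  rw [h4, oc_k, ← Function.iterate_succ_apply' T.N] at h5
  exact h5

end SMap

end

end Pool.Agent.Lib.MP_5854e1_co
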