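import Pool.Agent.Lib.MP_5854e1_co.Fan

/-!
# Values of a strip seen from both sides

`G k0 o0 s0 k1 o1 s1` is the value of a strip `N d`; the arguments are the shape, the option and the
ring state of `d` and of `N d`. If the four families of inequalities hold for the tables, then the
sum of the values of the two ends of every strip is not negative.
-/

set_option autoImplicit false

open Equiv Equiv.Perm

namespace Pool.Agent.Lib.MP_5854e1_co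

open Model24 (Kind)

/-- The first corner is a triangle of the pair `(k, o)`. -/
def InTri (k o s : ℕ) : Prop := triOff k o ≤ s ∧ s < triOff k (o + 1)

/-- The words of two pairs. -/
def WordOK (k0 o0 s0 k1 o1 s1 : ℕ) : Prop :=
  k0 < 101 ∧ o0 < optN k0 ∧ k1 = optA k0 o0 / 72 ∧ o1 < optN k1 ∧ m2 k0 o0 o1 = true ∧
    farOK k0 s0 k1 o1 s1 = true

section defs

variable (G : ℕ → ℕ → ℕ → ℕ → ℕ → ℕ → ℤ) (Φ : ℕ → ℕ → ℕ → ℕ → ℕ → ℤ) (Ψ : ℕ → ℕ → ℕ → ℕ → ℕ → ℤ)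

/-- Both corners are triangles. The strip is the one of the two ends with the smaller shape, and the
smaller option. The reserves of the two ends are `r`. -/
def AntiTT (r : ℕ → ℕ → ℕ → ℕ → ℕ → ℕ → ℕ) : Prop :=
  ∀ k0 o0 s0 k1 o1 s1, WordOK k0 o0 s0 k1 o1 s1 → InTri k0 o0 s0 →
  InTri k1 o1 s1 →
  WordOK (farK k1 o1 s1) (t3A k1 s1) (rjA (Nat.div (flA k1 o1) (nat_lit 16384)) (rjA k1 s1))
    (Nat.div (flA k0 o0) (nat_lit 16384)) (Nat.mod (triA k0 s0) (nat_lit 512)) (rjA k0 s0) →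
  InTri (farK k1 o1 s1) (t3A k1 s1) (rjA (Nat.div (flA k1 o1) (nat_lit 16384)) (rjA k1 s1)) →
  InTri (Nat.div (flA k0 o0) (nat_lit 16384)) (Nat.mod (triA k0 s0) (nat_lit 512)) (rjA k0 s0) →
  (k1 < Nat.div (flA k0 o0) (nat_lit 16384) ∨
    (k1 = Nat.div (flA k0 o0) (nat_lit 16384) ∧ o1 ≤ Nat.mod (triA k0 s0) (nat_lit 512))) →
  (r k0 o0 s0 k1 o1 s1 : ℤ) + r (farK k1 o1 s1) (t3A k1 s1)
    (rjA (Nat.div (flA k1 o1) (nat_lit 16384)) (rjA k1 s1)) (Nat.div (flA k0 o0) (nat_lit 16384))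
    (Nat.mod (triA k0 s0) (nat_lit 512)) (rjA k0 s0) ≤
    G k0 o0 s0 k1 o1 s1 + G (farK k1 o1 s1) (t3A k1 s1)
    (rjA (Nat.div (flA k1 o1) (nat_lit 16384)) (rjA k1 s1)) (Nat.div (flA k0 o0) (nat_lit 16384))
    (Nat.mod (triA k0 s0) (nat_lit 512)) (rjA k0 s0)

/-- Both faces are longer. -/
def AntiBB : Prop := ∀ k0 o0 B0 C0 k1 o1 B1 C1, WordOK k0 o0 (7936 + (3 * B0 + C0)) k1 o1
  (7936 + (3 * B1 + C1)) → B0 < 3 → C0 < 3 → B1 < 3 → C1 < 3 →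
  Ψ k1 (Nat.mod (optA k0 o0) (nat_lit 3)) B0 (Nat.mod (optA k1 o1) (nat_lit 3)) C1 ≤
    G k0 o0 (7936 + (3 * B0 + C0)) k1 o1 (7936 + (3 * B1 + C1))

/-- The bounds for the two ends of a strip between longer faces. -/
def PsiOK : Prop := ∀ k < 101, ∀ a < 3, ∀ b < 3, ∀ c < 3, ∀ d < 3,
  0 ≤ Ψ k a b c d + Ψ (Nat.div (rv k) (nat_lit 24)) d c b a

/-- The first corner is a triangle, the second face is longer. -/
def AntiTB : Prop := ∀ k0 o0 s0 k1 o1 B C, WordOK k0 o0 s0 k1 o1 (7936 + (3 * B + C)) →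
  InTri k0 o0 s0 → B < 3 → C < 3 →
  Φ (Nat.div (flA k0 o0) (nat_lit 16384)) (Nat.mod (triA k0 s0) (nat_lit 512)) (rjA k0 s0)
    (Nat.mod (optA k1 o1) (nat_lit 3)) C ≤ G k0 o0 s0 k1 o1 (7936 + (3 * B + C))

/-- The second corner is a triangle, the first face is longer. -/
def AntiBT : Prop := ∀ k0 o0 B C k1 o1 s1, WordOK k0 o0 (7936 + (3 * B + C)) k1 o1 s1 →
  InTri k1 o1 s1 → B < 3 → C < 3 →
  -Φ k1 o1 s1 B (Nat.mod (optA k0 o0) (nat_lit 3)) ≤ G k0 o0 (7936 + (3 * B + C)) k1 o1 s1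

end defs

namespace SMap

variable {F : Type*} (T : SMap F)

theorem wordOK_N (d : F) :
    WordOK (T.kx d) (T.ox d) (T.rs d) (T.kx (T.N d)) (T.ox (T.N d)) (T.rs (T.N d)) := by
  refine ⟨T.kx_lt d, T.ox_lt_optN d, ?_, T.ox_lt_optN _, T.m2_ox d, T.farOK_N d⟩
  rw [optA_ox, oc_k]

/-- The strip end before the other end of the next strip. -/
noncomputable def bk (d : F) : F := T.N⁻¹ (T.I (T.N d))

theorem N_bk (d : F) : T.N (T.bk d) = T.I (T.N d) := T.N_N_inv' _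

theorem bk_bk (d : F) : T.bk (T.bk d) = d := by
  show T.N⁻¹ (T.I (T.N (T.bk d))) = d
  rw [N_bk, I_I]
  exact T.N.injective (T.N_N_inv' _)

theorem bk_tri {d : F} (h : T.Tri (T.N d)) : T.bk d = T.I (T.N (T.I (T.N (T.N d)))) := by
  apply T.N.injective
  rw [N_bk, T.N_third h]

theorem tri_N_bk (d : F) : T.Tri (T.N (T.bk d)) ↔ T.Tri d := by
  rw [N_bk]
  exact T.tri_I_N d

theorem tri_bk (d : F) : T.Tri (T.bk d) ↔ T.Tri (T.N d) := by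
  rw [← T.tri_N_bk (T.bk d), bk_bk]

section values

variable {G : ℕ → ℕ → ℕ → ℕ → ℕ → ℕ → ℤ} {Φ : ℕ → ℕ → ℕ → ℕ → ℕ → ℤ} {Ψ : ℕ → ℕ → ℕ → ℕ → ℕ → ℤ}
  {r : ℕ → ℕ → ℕ → ℕ → ℕ → ℕ → ℕ}

variable (G) in
/-- The value of the next strip. -/
noncomputable def gz (d : F) : ℤ :=
  G (T.kx d) (T.ox d) (T.rs d) (T.kx (T.N d)) (T.ox (T.N d)) (T.rs (T.N d))

variable (r) in
/-- The reserve of the next strip. -/
noncomputable def gzR (d : F) : ℕ :=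
  r (T.kx d) (T.ox d) (T.rs d) (T.kx (T.N d)) (T.ox (T.N d)) (T.rs (T.N d))

theorem gz_tt' (h : AntiTT G r) {d : F} (h0 : T.Tri d) (h1 : T.Tri (T.N d))
    (hle : T.kx (T.N d) < T.kx (T.N (T.bk d)) ∨
      (T.kx (T.N d) = T.kx (T.N (T.bk d)) ∧ T.ox (T.N d) ≤ T.ox (T.N (T.bk d)))) :
    (T.gzR r d : ℤ) + T.gzR r (T.bk d) ≤ T.gz G d + T.gz G (T.bk d) := by
  have hb : T.Tri (T.bk d) := (T.tri_bk d).2 h1
  have hbN : T.Tri (T.N (T.bk d)) := (T.tri_N_bk d).2 h0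
  have j0 := T.jx_lt h0
  have j1 := T.jx_lt h1
  have j2 := T.jx_lt hb
  have j3 := T.jx_lt hbN
  have w := T.wordOK_N d
  have w' := T.wordOK_N (T.bk d)
  have hb1 := T.tri_rot h1
  have hb2 := T.tri_rot hb1
  have ek' : T.kx (T.N (T.bk d)) = Nat.div (flA (T.kx d) (T.ox d)) (nat_lit 16384) := by
    rw [N_bk, T.rot_k d]
  have eo' : T.ox (T.N (T.bk d)) = Nat.mod (triA (T.kx d) (T.jx d)) (nat_lit 512) := by
    rw [N_bk, T.rot_o h0]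
  have es' : T.jx (T.N (T.bk d)) = rjA (T.kx d) (T.jx d) := by
    rw [N_bk, T.rot_j h0]
  have ek2 : T.kx (T.bk d) = farK (T.kx (T.N d)) (T.ox (T.N d)) (T.jx (T.N d)) := by
    rw [T.bk_tri h1, ← T.farK_eq h1]
  have eo2 : T.ox (T.bk d) = t3A (T.kx (T.N d)) (T.jx (T.N d)) := by
    rw [T.bk_tri h1, ← T.t3A_jx h1]
  have es2 : T.jx (T.bk d) = rjA (Nat.div (flA (T.kx (T.N d)) (T.ox (T.N d))) (nat_lit 16384))
      (rjA (T.kx (T.N d)) (T.jx (T.N d))) := by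
    rw [T.bk_tri h1, T.rot_j hb1, T.rot_k (T.N d), T.rot_j h1]
  rw [T.rs_tri h0, T.rs_tri h1] at w
  rw [T.rs_tri hb, T.rs_tri hbN, ek', eo', es', ek2, eo2, es2] at w'
  rw [ek', eo'] at hle
  rw [ek2, eo2, es2] at j2
  rw [ek', eo', es'] at j3
  have key := h _ _ _ _ _ _ w ⟨j0.2, j0.1⟩ ⟨j1.2, j1.1⟩ w' ⟨j2.2, j2.1⟩ ⟨j3.2, j3.1⟩ hle
  unfold gz gzR
  rw [T.rs_tri h0, T.rs_tri h1, T.rs_tri hb, T.rs_tri hbN, ek', eo', es', ek2, eo2, es2]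
  exact key

theorem gz_tt (h : AntiTT G r) {d : F} (h0 : T.Tri d) (h1 : T.Tri (T.N d)) :
    (T.gzR r d : ℤ) + T.gzR r (T.bk d) ≤ T.gz G d + T.gz G (T.bk d) := by
  have key : (T.kx (T.N d) < T.kx (T.N (T.bk d)) ∨
      (T.kx (T.N d) = T.kx (T.N (T.bk d)) ∧ T.ox (T.N d) ≤ T.ox (T.N (T.bk d)))) ∨
      (T.kx (T.N (T.bk d)) < T.kx (T.N d) ∨
      (T.kx (T.N (T.bk d)) = T.kx (T.N d) ∧ T.ox (T.N (T.bk d)) ≤ T.ox (T.N d))) := by omega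
  rcases key with h2 | h2
  · exact T.gz_tt' h h0 h1 h2
  · have h3 := T.gz_tt' h (d := T.bk d) ((T.tri_bk d).2 h1) ((T.tri_N_bk d).2 h0)
      (by rw [bk_bk]; exact h2)
    rw [bk_bk] at h3
    linarith

theorem kx_bk_N (d : F) : Nat.div (rv (T.kx (T.N d))) (nat_lit 24) = T.kx (T.N (T.bk d)) := by
  rw [T.rv_div, N_bk]

theorem gz_bb' (h : AntiBB G Ψ) {d : F} (h0 : ¬T.Tri d) (h1 : ¬T.Tri (T.N d)) :
    Ψ (T.kx (T.N d)) (kc (T.K (T.N d))) (kc (T.K (T.face (T.N d)))) (kc (T.K (T.N (T.N d))))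
      (kc (T.K (T.I (T.N d)))) ≤ T.gz G d := by
  have w := T.wordOK_N d
  rw [T.rs_big h0, T.rs_big h1] at w
  unfold gz
  rw [T.rs_big h0, T.rs_big h1]
  have key := h _ _ _ _ _ _ _ _ w (kc_lt _) (kc_lt _) (kc_lt _) (kc_lt _)
  rw [T.optA_mod3, T.optA_mod3] at key
  exact key

theorem gz_bb (h : AntiBB G Ψ) (hΨ : PsiOK Ψ) {d : F} (h0 : ¬T.Tri d) (h1 : ¬T.Tri (T.N d)) :
    0 ≤ T.gz G d + T.gz G (T.bk d) := by
  have k1 := T.gz_bb' h h0 h1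
  have k2 := T.gz_bb' h (d := T.bk d) (fun h => h1 ((T.tri_bk d).1 h))
    (fun h => h0 ((T.tri_N_bk d).1 h))
  have k3 := hΨ (T.kx (T.N d)) (T.kx_lt _) _ (kc_lt (T.K (T.N d))) _
    (kc_lt (T.K (T.face (T.N d)))) _ (kc_lt (T.K (T.N (T.N d)))) _ (kc_lt (T.K (T.I (T.N d))))
  have e1 : T.face (T.N (T.bk d)) = T.N (T.N d) := by
    rw [N_bk]
    show T.N (T.I (T.I (T.N d))) = _
    rw [I_I]
  have e2 : T.N (T.N (T.bk d)) = T.face (T.N d) := by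
    rw [N_bk]
    rfl
  have e3 : T.I (T.N (T.bk d)) = T.N d := by
    rw [N_bk, I_I]
  rw [kx_bk_N] at k3
  rw [e1, e2, e3, N_bk] at k2
  rw [N_bk] at k3
  linarith

theorem gz_tb (hTB : AntiTB G Φ) (hBT : AntiBT G Φ) {d : F} (h0 : T.Tri d)
    (h1 : ¬T.Tri (T.N d)) : 0 ≤ T.gz G d + T.gz G (T.bk d) := by
  have j0 := T.jx_lt h0
  have w := T.wordOK_N d
  rw [T.rs_tri h0, T.rs_big h1] at w
  have k1 := hTB _ _ _ _ _ _ _ w ⟨j0.2, j0.1⟩ (kc_lt _) (kc_lt _)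
  have hb : ¬T.Tri (T.bk d) := fun h => h1 ((T.tri_bk d).1 h)
  have hb1 : T.Tri (T.N (T.bk d)) := (T.tri_N_bk d).2 h0
  have j1 := T.jx_lt hb1
  have w' := T.wordOK_N (T.bk d)
  rw [T.rs_tri hb1, T.rs_big hb] at w'
  have k2 := hBT _ _ _ _ _ _ _ w' ⟨j1.2, j1.1⟩ (kc_lt _) (kc_lt _)
  have e1 : T.face (T.N (T.bk d)) = T.N (T.N d) := by
    rw [N_bk]
    show T.N (T.I (T.I (T.N d))) = _
    rw [I_I]
  have e2 : Nat.mod (optA (T.kx (T.bk d)) (T.ox (T.bk d))) (nat_lit 3) = kc (T.K (T.I (T.N d))) := by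
    rw [T.optA_mod3, N_bk]
  have e3 : Nat.mod (optA (T.kx (T.N d)) (T.ox (T.N d))) (nat_lit 3) =
      kc (T.K (T.N (T.N d))) := T.optA_mod3 _
  have e4 : T.gz G d = G (T.kx d) (T.ox d) (T.jx d) (T.kx (T.N d)) (T.ox (T.N d))
      (7936 + (3 * kc (T.K (T.face (T.N (T.N d)))) + kc (T.K (T.I (T.N d))))) := by
    unfold gz
    rw [T.rs_tri h0, T.rs_big h1]
  have e5 : T.gz G (T.bk d) = G (T.kx (T.bk d)) (T.ox (T.bk d))
      (7936 + (3 * kc (T.K (T.face (T.N (T.bk d)))) + kc (T.K (T.I (T.bk d)))))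
      (T.kx (T.N (T.bk d))) (T.ox (T.N (T.bk d))) (T.jx (T.N (T.bk d))) := by
    unfold gz
    rw [T.rs_tri hb1, T.rs_big hb]
  rw [e2, e1] at k2
  rw [e1] at e5
  rw [e3] at k1
  have e6 : T.kx (T.N (T.bk d)) = Nat.div (flA (T.kx d) (T.ox d)) (nat_lit 16384) := by
    rw [N_bk, T.rot_k d]
  have e7 : T.ox (T.N (T.bk d)) = Nat.mod (triA (T.kx d) (T.jx d)) (nat_lit 512) := by
    rw [N_bk, T.rot_o h0]
  have e8 : T.jx (T.N (T.bk d)) = rjA (T.kx d) (T.jx d) := by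
    rw [N_bk, T.rot_j h0]
  rw [e6, e7, e8] at k2 e5
  rw [e4, e5]
  linarith

/-- **The sum of the values of the two ends of a strip.** -/
theorem gz_add_nonneg (hTT : AntiTT G r) (hBB : AntiBB G Ψ) (hΨ : PsiOK Ψ) (hTB : AntiTB G Φ)
    (hBT : AntiBT G Φ) (d : F) : 0 ≤ T.gz G d + T.gz G (T.bk d) := by
  by_cases h0 : T.Tri d
  · by_cases h1 : T.Tri (T.N d)
    · have h2 := T.gz_tt hTT h0 h1
      omega
    · exact T.gz_tb hTB hBT h0 h1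
  · by_cases h1 : T.Tri (T.N d)
    · have h := T.gz_tb hTB hBT (d := T.bk d) ((T.tri_bk d).2 h1) fun h2 => h0 ((T.tri_N_bk d).1 h2)
      rw [bk_bk] at h
      linarith
    · exact T.gz_bb hBB hΨ h0 h1

end values

end SMap

end Pool.Agent.Lib.MP_5854e1_co
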