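import Pool.Agent.Lib.MP_5854e1_co.Rows
import Pool.Agent.Lib.MP_5854e1_co.ThirdSound

/-!
# The rows of a map of strips
-/

set_option autoImplicit false

namespace Pool.Agent.Lib.MP_5854e1_co

noncomputable section

/-- The first arc of the option with the code `x` after a strip of shape `k1`. -/
def arcC (k1 x : ℕ) : ℕ :=
  Nat.add (Nat.mod x (nat_lit 3)) (Nat.mul (nat_lit 3) (rotC (lastC k1)
    (Nat.mod (Nat.div x (nat_lit 3)) (nat_lit 24))))

theorem stepT_arcC (k1 x : ℕ) : stepT k1 x = arcC k1 x :: tokT (Nat.div x (nat_lit 72)) := rfl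

/-- The check of an entry after a strip of shape `k1`; `x` is the code of the option. -/
def rowX (k1 k a : ℕ) (p : List ℕ) (x : ℕ) : Bool :=
  rAnd (Nat.beq (Nat.div x (nat_lit 72)) k) (rAnd (Nat.beq a (arcC k1 x)) (rEq p (tokT k)))

/-- The check of an entry `o`, `k` behind the arcs `p` after a strip of shape `k1`. -/
def rowG {α : Type} (k1 : ℕ) (p : List ℕ) (o k : ℕ) (_ : α) : Bool :=
  List.rec (motive := fun _ => Bool) false
    (fun a p' _ => rForce (optA k1 o) fun x => rowX k1 k a p' x) p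

theorem rowG_sound {α : Type} {k1 : ℕ} {p : List ℕ} {o k : ℕ} {b : α}
    (h : rowG k1 p o k b = true) : p = stepT k1 (optA k1 o) ∧ k = optA k1 o / 72 := by
  cases p with
  | nil => exact absurd h Bool.false_ne_true
  | cons a p =>
    have h1 : rForce (optA k1 o) (fun x => rowX k1 k a p x) = true := h
    rw [rForce_eq] at h1
    obtain ⟨h2, h3⟩ := rAnd_iff.1 h1
    obtain ⟨h4, h5⟩ := rAnd_iff.1 h3
    have e1 : optA k1 o / 72 = k := Nat.eq_of_beq_eq_true h2
    refine ⟨?_, e1.symm⟩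
    rw [stepT_arcC, ← Nat.eq_of_beq_eq_true h4, show Nat.div (optA k1 o) 72 = k from e1,
      eq_of_rEq h5]

/-- A family of rows: the entries of the row `(k0, o0)` are the options of the next shape
`optA k0 o0 / 72` with their arcs. -/
structure RowOK {α : Type} (R : ℕ → ℕ → Rw α) (k0 o0 : ℕ) : Prop where
  wf : (R k0 o0).wf 0 = true
  chk : (R k0 o0).chk (rowG (optA k0 o0 / 72)) = true

/-- The check of the row `(k0, o0)`. -/
def rowB {α : Type} (R : ℕ → ℕ → Rw α) (k0 o0 : ℕ) : Bool :=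
  rAnd ((R k0 o0).wf (nat_lit 0)) (rForce (Nat.div (optA k0 o0) (nat_lit 72)) fun k1 =>
    (R k0 o0).chk (rowG k1))

theorem rowOK_of_rowB {α : Type} {R : ℕ → ℕ → Rw α} {k0 o0 : ℕ} (h : rowB R k0 o0 = true) :
    RowOK R k0 o0 := by
  obtain ⟨h1, h2⟩ := rAnd_iff.1 h
  rw [rForce_eq] at h2
  exact ⟨h1, h2⟩

/-- The check of all rows of the shape `k0`. -/
def rowK {α : Type} (R : ℕ → ℕ → Rw α) (k0 : ℕ) : Bool := rAllN (rowB R k0) (optN k0)

theorem rowOK_of_rowK {α : Type} {R : ℕ → ℕ → Rw α} {k0 o0 : ℕ} (hk : k0 < 101)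
    (ho : o0 < (opt k0).length) (h : rowK R k0 = true) : RowOK R k0 o0 :=
  rowOK_of_rowB (rAllN_iff.1 h o0 (by rw [optN_eq hk]; exact ho))

namespace Rw

variable {α : Type}

/-- The data of the option `o`, if any. -/
def blk (o : ℕ) (r : Rw α) : Option α := find (fun _ b => some b) o r none

theorem blk_at {o : ℕ} {r : Rw α} {b : α} (h : r.blk o = some b) :
    ∃ p k qs, At r p o k b qs := by
  rcases find_at (g := fun _ b => some b) (o := o) r none with h1 | ⟨p, k, b', qs, h1, h2⟩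
  · rw [blk, h1] at h
    exact absurd h (by simp)
  · rw [blk, h2] at h
    obtain rfl := Option.some.inj h
    exact ⟨p, k, qs, h1⟩

end Rw

namespace SMap

variable {F : Type*} (T : SMap F)

/-- **The entry of a row at a strip of a map.** -/
theorem row_at {α : Type} {R : ℕ → ℕ → Rw α} {d : F} (hR : RowOK R (T.kx d) (T.ox d)) {b : α}
    (h : (R (T.kx d) (T.ox d)).blk (T.ox (T.N d)) = some b) :
    ∃ qs, Rw.At (R (T.kx d) (T.ox d)) (stepT (T.kx (T.N d)) (T.oc (T.N d))) (T.ox (T.N d))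
      (T.kx (T.N (T.N d))) b qs := by
  obtain ⟨p, k, qs, h1⟩ := Rw.blk_at h
  have h2 := h1.chk hR.chk
  obtain ⟨h3, h4⟩ := rowG_sound h2
  rw [optA_ox, oc_k, optA_ox] at h3
  rw [optA_ox, oc_k, optA_ox, oc_k] at h4
  rw [h3, h4] at h1
  exact ⟨qs, h1⟩

/-- **The nodes of a cell.** The node `ν j` stands after the strip `N^j d`; all nodes are sorted. -/
theorem nodes_ord (d : F) : ∃ ν : ℕ → Nd, rootN.run (tokT (T.kx d)) = some (ν 0) ∧
    (∀ j, j + 1 < Function.minimalPeriod T.N d →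
      (ν j).run (stepT (T.kx (T.N^[j] d)) (T.oc (T.N^[j] d))) = some (ν (j + 1))) ∧
    (∀ j < Function.minimalPeriod T.N d, (ν j).Ord) ∧
    bt (ν (Function.minimalPeriod T.N d - 1)).mask (kc (T.K d)) = true := by
  obtain ⟨ν, h1, h2, h3⟩ := T.nodes d
  refine ⟨ν, h1, h2, fun j => ?_, h3⟩
  induction j with
  | zero => exact fun _ => ord_rootN.run h1
  | succ j ih => exact fun hj => (ih (by omega)).run (h2 j hj)

/-- **One step of the walk** at the strip `N^(j+1) d` of a cell: the walk through the row of the pair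
`N^j d` reaches the entry of the next option, with the next node. -/
theorem row_step {α : Type} {R : ℕ → ℕ → Rw α} {t : ℕ → Bool} {f : ℕ → ℕ → α → Nd → Bool}
    {e : F} (hR : RowOK R (T.kx e) (T.ox e)) {n m : Nd} (hn : n.Ord)
    (hm : n.run (stepT (T.kx (T.N e)) (T.oc (T.N e))) = some m)
    (h : Rw.go t f (R (T.kx e) (T.ox e)) n = true) {b : α} {qs : List ℕ}
    (hat : Rw.At (R (T.kx e) (T.ox e)) (stepT (T.kx (T.N e)) (T.oc (T.N e))) (T.ox (T.N e))
      (T.kx (T.N (T.N e))) b qs) (hq : ∀ q ∈ qs, t q = false) :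
    f (T.ox (T.N e)) (T.kx (T.N (T.N e))) b m = true :=
  Rw.go_sound hR.wf hn h hat hq hm

end SMap

end

end Pool.Agent.Lib.MP_5854e1_co
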