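import Pool.Agent.Lib.MP_5854e1_co.Blk
import Pool.Agent.Lib.MP_5854e1_co.RowSound

/-!
# The checks of the rows of blocks

`nl k o` is the number of lanes of the own pair `(k, o)`, `Pn k o` its vector of needs and `Rv k o`
its root vector. A block of the row `(k0, o0)` for the option `o1` leads from the lanes of `(k0, o0)`
to the lanes of `(k1, o1)`, `k1 = optA k0 o0 / 72`.
-/

set_option autoImplicit false

namespace Pool.Agent.Lib.MP_5854e1_co.PB

open Pk

noncomputable section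

/-! ### Vectors -/

/-- The vector with `n` fields equal to one. -/
def one23 (n : ℕ) : ℕ := rep (nat_lit 23) n

/-- All entries of a number of `n` fields are less than `2 ^ b`: `W = 2 ^ (23 n)`, `m` is the mask. -/
def hbB (W m S : ℕ) : Bool := rAnd (Nat.ble (Nat.succ S) W) (Nat.beq (Nat.land S m) (nat_lit 0))

/-- The power. -/
def pw23 (n : ℕ) : ℕ := Nat.pow (nat_lit 2) (Nat.mul (nat_lit 23) n)

/-- The mask of the digits from `b` on. -/
def mk23 (b n : ℕ) : ℕ :=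
  Nat.mul (Nat.sub (nat_lit 8388608) (Nat.pow (nat_lit 2) b)) (rep (nat_lit 23) n)

theorem hbB_sound {n S b : ℕ} (hb : b ≤ 22) (h : hbB (pw23 n) (mk23 b n) S = true) :
    HB 22 n S (2 ^ b) := by
  obtain ⟨h1, h2⟩ := rAnd_iff.1 h
  have h3 : S < 2 ^ (23 * n) := Nat.le_of_ble_eq_true h1
  have h4 : S &&& ((2 ^ 23 - 2 ^ b) * rep 23 n) = 0 := Nat.eq_of_beq_eq_true h2
  exact HB_of_land (v := 22) h3 hb h4

/-- The complement `c - S` of a vector. -/
def cmp23 (c n S : ℕ) : ℕ := Nat.sub (Nat.mul c (rep (nat_lit 23) n)) S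

theorem cmp23_rep {n S c F : ℕ} (h : HB 22 n S F) (hF : F ≤ c + 1) (hc : c < 2 ^ 22) :
    Rep 22 n (cmp23 c n S) (fun i => c - fl 22 S i) := by
  have h1 : Rep 22 n (c * rep 23 n) (fun _ => c) := Rep.const hc
  exact h1.sub h.rep fun i hi => by
    have := h.lt i hi
    omega

theorem HB_of_rep {n X F : ℕ} {f : ℕ → ℕ} (h : Rep 22 n X f) (hF : ∀ i < n, f i < F) :
    HB 22 n X F := ⟨f, h, hF⟩

theorem rep_eq_mod {n X : ℕ} {f : ℕ → ℕ} (h : Rep 22 n X f) : X % 2 ^ (23 * n) = X := by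
  refine Nat.mod_eq_of_lt ?_
  rw [h.eq]
  exact pk_lt h.lt'

theorem vec_of_rep {n X F : ℕ} {f : ℕ → ℕ} (h : Rep 22 n X f) (hF : ∀ i < n, f i < F) :
    Vec 22 n X F := by
  unfold Vec
  rw [rep_eq_mod h]
  exact ⟨f, h, hF⟩

theorem vf_of_rep {n X : ℕ} {f : ℕ → ℕ} (h : Rep 22 n X f) {i : ℕ} (hi : i < n) :
    vf 22 n X i = f i := by
  unfold vf
  rw [rep_eq_mod h]
  exact fl_eq h hi

/-! ### The tests -/

/-- `2 ^ 22 - θ`. -/
def ct0 : ℕ := nat_lit 3080192

theorem ct0_eq : ct0 = 2 ^ 22 - tht := by norm_num [ct0, tht]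

/-- The test vector `q` of `a` lanes has fields from `2 ^ 22 - θ` to `2 ^ 22 - θ + 2 ^ 17 - 1`;
`C` is the constant vector, `W` the power, `m` the mask of the digits from 17 on. -/
def gqC (C W m q : ℕ) : Bool :=
  rAnd (Nat.ble C q) (hbB W m (Nat.sub q C))

/-- The test vector `q` of `a` lanes has fields from `2 ^ 22 - θ` to `2 ^ 22 - θ + 2 ^ 17 - 1`. -/
def gq (a q : ℕ) : Bool :=
  gqC (Nat.mul (nat_lit 3080192) (one23 a)) (pw23 a) (mk23 (nat_lit 17) a) q

theorem gq_sound {a q : ℕ} (h : gq a q = true) : ∃ f : ℕ → ℕ, Rep 22 a q (fun i => f i + ct0) ∧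
    ∀ i < a, f i < 2 ^ 17 := by
  obtain ⟨h1, h2⟩ := rAnd_iff.1 h
  have h3 : ct0 * rep 23 a ≤ q := Nat.le_of_ble_eq_true h1
  obtain ⟨f, h4, h5⟩ := hbB_sound (b := 17) (by norm_num) h2
  refine ⟨f, ?_, h5⟩
  have h6 : Rep 22 a (ct0 * rep 23 a) (fun _ => ct0) := Rep.const (by norm_num [ct0])
  have h7 := h4.add h6 fun i hi => by
    have := h5 i hi
    have e : ct0 = 3080192 := rfl
    rw [e]
    norm_num at this ⊢
    omega
  have e : q - ct0 * rep 23 a + ct0 * rep 23 a = q := Nat.sub_add_cancel h3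
  have e2 : Nat.sub q (Nat.mul 3080192 (one23 a)) = q - ct0 * rep 23 a := rfl
  rw [e2, e] at h7
  exact h7

theorem gq_HB {a q : ℕ} (h : gq a q = true) : HB 22 a q (2 ^ 22) := by
  obtain ⟨f, h1, h2⟩ := gq_sound h
  exact ⟨_, h1, h1.lt⟩

/-- The complement of a test vector. -/
def nq (a q : ℕ) : ℕ := cmp23 (nat_lit 4194303) a q

/-- The test `q` dominates the block `(x, M)`: no field survives. -/
def dmB (x M Y : ℕ) : Bool := Nat.beq ((opX x).adv M Y) (nat_lit 0)

/-- What the search needs of a test: the fields of `q` are at least the fields of the rows. -/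
structure Dom (a q x M : ℕ) : Prop where
  hb : HB 22 a q (2 ^ 22)
  le : ∀ i < a, ∀ j < fb x, fl 22 M (plX x i j) + (2 ^ 22 - tht) ≤ fl 22 q i

theorem dom_of_dmB {a q x M : ℕ} (ha : fa x = a) (ha0 : 0 < a) (hb0 : 0 < fb x)
    (hM : HB 22 (nX x) M (2 ^ 17)) (hq : gq a q = true) (h : dmB x M (nq a q) = true) :
    Dom a q x M := by
  obtain ⟨f, h1, h2⟩ := gq_sound hq
  have e : tht = 1114112 := by norm_num [tht]
  have ek : kap0 = 65536 := by norm_num [kap0]
  have ec : ct0 = 3080192 := rfl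
  refine ⟨gq_HB hq, fun i hi j hj => ?_⟩
  have h3 : Rep 22 a (nq a q) (fun i => 4194303 - fl 22 q i) :=
    cmp23_rep (gq_HB hq) (by norm_num) (by norm_num)
  have hf : ∀ i < a, fl 22 q i = f i + ct0 := fun i hi => fl_eq h1 hi
  have hop := opX_ok (x := x) (by omega) hb0
  rw [ha] at hop
  by_contra hcon
  push Not at hcon
  have h4 : vf 22 a (nq a q) i = 4194303 - fl 22 q i := vf_of_rep h3 hi
  have h5 := hM.lt (plX x i j) (hop.lt i hi j hj)
  have h6 := hf i hi
  have h7 := h2 i hi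
  have hv : Vec 22 a (nq a q) tht := vec_of_rep h3 fun i hi => by
    have h8 := hf i hi
    have h9 := h2 i hi
    simp only [e]
    norm_num at h9
    omega
  have h8 := hop.adv_le hv hM (by rw [e]; norm_num) i hi j hj (by
    rw [h4, e]
    rw [e] at hcon
    norm_num at hcon h5
    omega)
  have h9 : (opX x).adv M (nq a q) = 0 := Nat.eq_of_beq_eq_true h
  rw [h9, h4, ek] at h8
  have h10 : fl 22 0 (plX x i j) = 0 := by simp [fl]
  rw [h10] at h8
  rw [e] at hcon
  norm_num at hcon h5 h7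
  omega

/-- The parent test is at least the child test; `G` is the vector of the guard bits. -/
def vleB (G X Y : ℕ) : Bool := Nat.beq (Nat.land (Nat.sub (Nat.add Y G) X) G) G

/-- The relation of two tests. -/
def rqB (a q q' : ℕ) : Bool :=
  rAnd (gq a q') (vleB (Nat.mul (nat_lit 4194304) (one23 a)) q' q)

theorem rqB_le {a q q' : ℕ} (hq : HB 22 a q (2 ^ 22)) (h : rqB a q q' = true) :
    gq a q' = true ∧ ∀ i < a, fl 22 q' i ≤ fl 22 q i := by
  obtain ⟨h1, h2⟩ := rAnd_iff.1 h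
  have h3 : Pk.vle (Pk.guard 22 a) q' q = true := h2
  exact ⟨h1, (gq_HB h1).rep.vle hq.rep h3⟩

/-! ### The entries -/

/-- The checks of an entry except the tests; `e` is the format of kind zero, `Y` the root vector
before the step, `Z` the complement of the root vector after it and `Y'` the vector of the positive
needs. -/
def enX (x M e Y Z Y' : ℕ) : Bool :=
  rAnd (rIf (Nat.beq x e) true (Nat.beq x (Nat.succ e)))
    (rAnd (hbB (pw23 (nX x)) (mk23 (nat_lit 17) (nX x)) M)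
      (rAnd ((opX x).tst Z ((opX x).adv M Y)) (dmB x M Y')))

/-- The root vector before the step. -/
def y0 (a P : ℕ) : ℕ := cmp23 (nat_lit 1048575) a P

/-- The format of kind zero. -/
def fmt0 (a b : ℕ) : ℕ := Nat.mul (nat_lit 2) (Nat.add a (Nat.mul (nat_lit 256) b))

/-- The vector of `P` with `θ - 1 - K` at the positive fields and `0` at the others. -/
def yn (a P : ℕ) : ℕ :=
  Nat.mul (nat_lit 1048575) (Nat.shiftRight (Nat.land (Nat.sub (Nat.add P
    (Nat.mul (nat_lit 4194304) (one23 a))) (one23 a)) (Nat.mul (nat_lit 4194304) (one23 a)))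
      (nat_lit 22))

theorem yn_rep {a P : ℕ} (hP : HB 22 a P (2 ^ 20)) :
    Rep 22 a (yn a P) (fun i => if 1 ≤ fl 22 P i then 1048575 else 0) := by
  have h1 : Rep 22 a (1 * rep 23 a) (fun _ => 1) := Rep.const (v := 22) (by norm_num)
  rw [one_mul] at h1
  have h2 := (diff_parts hP.rep h1).2
  have e : yn a P = 1048575 * (((P + Pk.guard 22 a - rep 23 a) &&& Pk.guard 22 a) >>> 22) := rfl
  rw [e, h2, Nat.shiftRight_eq_div_pow, Nat.mul_div_cancel_left _ (by positivity)]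
  refine ⟨?_, fun i _ => ?_⟩
  · rw [pk_mul]
    exact pk_congr fun i _ => by split_ifs <;> simp
  · split_ifs <;> norm_num

/-- What the search needs of an entry. -/
structure Ent (a b P R x M : ℕ) : Prop where
  fa : fa x = a
  fb : fb x = b
  hb : HB 22 (nX x) M (2 ^ 17)
  root : ∀ i < a, ∀ j < b, kap0 + fl 22 P i < fl 22 M (plX x i j) →
    fl 22 M (plX x i j) + (tht - 1) ≤ fl 22 R j + 2 * kap0 + fl 22 P i
  need : ∀ i < a, 0 < fl 22 P i → ∀ j < b, fl 22 M (plX x i j) ≤ kap0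

theorem ent_of_enX {a b P R x M : ℕ} (ha : 0 < a) (ha2 : a < 256) (hb : 0 < b)
    (hP : HB 22 a P (2 ^ 20)) (hR : HB 22 b R (2 ^ 22))
    (h : enX x M (fmt0 a b) (y0 a P) (cmp23 4194303 b R) (yn a P) = true) : Ent a b P R x M := by
  obtain ⟨h1, h2⟩ := rAnd_iff.1 h
  obtain ⟨h3, h20⟩ := rAnd_iff.1 h2
  obtain ⟨h4, h21⟩ := rAnd_iff.1 h20
  have ef : fmt0 a b = 2 * (a + 256 * b) := rfl
  have hx : x = 2 * (a + 256 * b) ∨ x = 2 * (a + 256 * b) + 1 := by
    cases hb1 : Nat.beq x (fmt0 a b) with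
    | true => exact Or.inl (Nat.eq_of_beq_eq_true hb1)
    | false =>
      rw [hb1] at h1
      exact Or.inr (Nat.eq_of_beq_eq_true h1)
  have hfa : PB.fa x = a := by
    show x / 2 % 256 = a
    rcases hx with rfl | rfl <;> omega
  have hfb : PB.fb x = b := by
    show x / 512 = b
    rcases hx with rfl | rfl <;> omega
  have hM : HB 22 (nX x) M (2 ^ 17) := hbB_sound (by norm_num) h3
  have hop := opX_ok (x := x) (by omega) (by omega)
  rw [hfa, hfb] at hop
  have e : tht = 1114112 := by norm_num [tht]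
  have ek : kap0 = 65536 := by norm_num [kap0]
  have hN : ∀ i < a, 0 < fl 22 P i → ∀ j < b, fl 22 M (plX x i j) ≤ kap0 := by
    intro i hi hp j hj
    have hY := yn_rep hP
    have hv : Vec 22 a (yn a P) (2 ^ 20) := vec_of_rep hY fun i _ => by
      split_ifs <;> norm_num
    by_contra hcon
    push Not at hcon
    have h5 := hM.lt (plX x i j) (hop.lt i hi j hj)
    have h8 := hop.adv_le hv hM (by norm_num) i hi j hj (by
      rw [vf_of_rep hY hi, if_pos (show 1 ≤ fl 22 P i from hp), e]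
      rw [ek] at hcon
      omega)
    have h9 : (opX x).adv M (yn a P) = 0 := Nat.eq_of_beq_eq_true h21
    rw [h9, vf_of_rep hY hi, if_pos (show 1 ≤ fl 22 P i from hp), ek] at h8
    have h10 : fl 22 0 (plX x i j) = 0 := by simp [fl]
    rw [h10] at h8
    omega
  refine ⟨hfa, hfb, hM, fun i hi j hj hlt => ?_, hN⟩
  have hY : Rep 22 a (y0 a P) (fun i => 1048575 - fl 22 P i) :=
    cmp23_rep hP (by norm_num) (by norm_num)
  have hZ : Rep 22 b (cmp23 4194303 b R) (fun j => 4194303 - fl 22 R j) :=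
    cmp23_rep hR (by norm_num) (by norm_num)
  have hv : Vec 22 a (y0 a P) (2 ^ 20) := vec_of_rep hY fun i _ => by norm_num; omega
  have h5 := hM.lt (plX x i j) (hop.lt i hi j hj)
  have h6 := hP.lt i hi
  have h7 := hop.adv_le hv hM (by norm_num) i hi j hj (by
    rw [vf_of_rep hY hi, e]
    rw [ek] at hlt
    norm_num at h5 h6
    omega)
  have hS := hop.adv_HB hv hM (by norm_num) (by rw [ek]; norm_num)
  have hZ2 : HB 22 b (cmp23 4194303 b R) (2 ^ 22) := ⟨_, hZ, hZ.lt⟩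
  by_contra hcon
  push Not at hcon
  have h8 := hop.tst_false (S := (opX x).adv M (y0 a P)) (Q := cmp23 4194303 b R) hS hZ2
    i hi j hj (by
      rw [vf_of_rep hY hi] at h7
      rw [fl_eq hZ hj]
      have h9 := hR.lt j hj
      rw [e, ek] at hcon
      rw [ek] at h7 hlt
      norm_num at h5 h6 h9
      have : (2 : ℕ) ^ 22 = 4194304 := by norm_num
      omega)
  rw [h8] at h4
  exact absurd h4 Bool.false_ne_true

/-! ### The rows -/

section rows

variable (R : ℕ → ℕ → Rw Blk) (nl Pn Rv : ℕ → ℕ → ℕ)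

/-- The check of an entry of the row `(k0, o0)`. -/
def enB (a k1 Y Y' : ℕ) (_ : List ℕ) (o _ : ℕ) (b : Blk) : Bool :=
  Blk.rec (motive := fun _ => Bool)
    (fun x M => enX x M (fmt0 a (nl k1 o)) Y (cmp23 (nat_lit 4194303) (nl k1 o) (Rv k1 o)) Y') b

/-- The check of a test of an entry. -/
def dqB (a q : ℕ) (b : Blk) : Bool :=
  Blk.rec (motive := fun _ => Bool) (fun x M => rAnd (gq a q) (dmB x M (nq a q))) b

/-- The check of the vectors of a pair. -/
def pairB (k o : ℕ) : Bool :=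
  rAnd (Nat.ble (nat_lit 1) (nl k o)) (rAnd (Nat.ble (nl k o) (nat_lit 255))
    (rAnd (hbB (pw23 (nl k o)) (mk23 (nat_lit 20) (nl k o)) (Pn k o))
      (hbB (pw23 (nl k o)) (mk23 (nat_lit 22) (nl k o)) (Rv k o))))

/-- The check of the row `(k0, o0)`. -/
def cloB (k0 o0 : ℕ) : Bool :=
  rAnd (rowB R k0 o0) (rAnd (pairB nl Pn Rv k0 o0)
    (rAnd ((R k0 o0).chkQ (rqB (nl k0 o0)) (dqB (nl k0 o0)) (gq (nl k0 o0)))
      (rForce (Nat.div (optA k0 o0) (nat_lit 72)) fun k1 =>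
        (R k0 o0).chk (enB nl Rv (nl k0 o0) k1 (y0 (nl k0 o0) (Pn k0 o0))
          (yn (nl k0 o0) (Pn k0 o0))))))

/-- The check of all rows of the shape `k0`. -/
def cloK (k0 : ℕ) : Bool := rAllN (cloB R nl Pn Rv k0) (optN k0)

variable {R nl Pn Rv}

/-- The vectors of a pair. -/
structure PairOK (nl Pn Rv : ℕ → ℕ → ℕ) (k o : ℕ) : Prop where
  pos : 0 < nl k o
  lt : nl k o < 256
  need : HB 22 (nl k o) (Pn k o) (2 ^ 20)
  root : HB 22 (nl k o) (Rv k o) (2 ^ 22)

theorem pairOK_of_pairB {k o : ℕ} (h : pairB nl Pn Rv k o = true) : PairOK nl Pn Rv k o := by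
  obtain ⟨h1, h2⟩ := rAnd_iff.1 h
  obtain ⟨h3, h4⟩ := rAnd_iff.1 h2
  obtain ⟨h5, h6⟩ := rAnd_iff.1 h4
  exact ⟨Nat.le_of_ble_eq_true h1, Nat.lt_succ_of_le (Nat.le_of_ble_eq_true h3),
    hbB_sound (by norm_num) h5, hbB_sound (by norm_num) h6⟩

/-- A test dominates an entry, once the block is known to be well formed. -/
def DomP (a q : ℕ) (b : Blk) : Prop :=
  gq a q = true ∧ (fa b.fmt = a → 0 < a → 0 < fb b.fmt → HB 22 (nX b.fmt) b.num (2 ^ 17) →
    Dom a q b.fmt b.num)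

theorem domP_of_dqB {a q : ℕ} {b : Blk} (h : dqB a q b = true) : DomP a q b := by
  cases b with
  | mk x M =>
    obtain ⟨h1, h2⟩ := rAnd_iff.1 (show rAnd (gq a q) (dmB x M (nq a q)) = true from h)
    exact ⟨h1, fun h3 h4 h5 h6 => dom_of_dmB h3 h4 h5 h6 h1 h2⟩

/-- **The entries of a checked row.** -/
theorem ent_of_cloB {k0 o0 : ℕ} (h : cloB R nl Pn Rv k0 o0 = true) {p : List ℕ} {o k : ℕ}
    {b : Blk} {qs : List ℕ} (hat : Rw.At (R k0 o0) p o k b qs)
    (h1 : PairOK nl Pn Rv (optA k0 o0 / 72) o) :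
    Ent (nl k0 o0) (nl (optA k0 o0 / 72) o) (Pn k0 o0) (Rv (optA k0 o0 / 72) o) b.fmt b.num ∧
      ∀ q ∈ qs, Dom (nl k0 o0) q b.fmt b.num := by
  obtain ⟨-, h2⟩ := rAnd_iff.1 h
  obtain ⟨h3, h4⟩ := rAnd_iff.1 h2
  obtain ⟨h5, h6⟩ := rAnd_iff.1 h4
  have h0 := pairOK_of_pairB h3
  rw [rForce_eq] at h6
  have h7 := hat.chk h6
  have h8 : Ent (nl k0 o0) (nl (optA k0 o0 / 72) o) (Pn k0 o0) (Rv (optA k0 o0 / 72) o)
      b.fmt b.num := by
    cases b with
    | mk x M => exact ent_of_enX h0.pos h0.lt h1.pos h0.need h1.root h7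
  refine ⟨h8, ?_⟩
  -- the tests
  have key : ∀ {r : Rw Blk} {p : List ℕ} {o k : ℕ} {b : Blk} {qs : List ℕ}
      (_ : Rw.At r p o k b qs) {g : ℕ → Bool}, r.chkQ (rqB (nl k0 o0)) (dqB (nl k0 o0)) g = true →
      (∀ q, g q = true → gq (nl k0 o0) q = true) →
      (∀ q ∈ qs, DomP (nl k0 o0) q b) ∧ ∃ q ∈ qs, g q = true := by
    intro r p o k b qs hat
    induction hat with
    | hit o k q b rest =>
      intro g h hg
      obtain ⟨h3, h4⟩ := rAnd_iff.1 (show rAnd (g q) (rAnd (dqB (nl k0 o0) q b)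
        (rest.chkQ (rqB (nl k0 o0)) (dqB (nl k0 o0)) g)) = true from h)
      exact ⟨fun q' hq' => by
        rw [List.mem_singleton.1 hq']; exact domP_of_dqB (rAnd_iff.1 h4).1,
        q, List.mem_singleton_self q, h3⟩
    | one c o k q b rest =>
      intro g h hg
      obtain ⟨h3, h4⟩ := rAnd_iff.1 (show rAnd (g q) (rAnd (dqB (nl k0 o0) q b)
        (rest.chkQ (rqB (nl k0 o0)) (dqB (nl k0 o0)) g)) = true from h)
      exact ⟨fun q' hq' => by
        rw [List.mem_singleton.1 hq']; exact domP_of_dqB (rAnd_iff.1 h4).1,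
        q, List.mem_singleton_self q, h3⟩
    | @tok c q sub rest p o k b qs _ ih =>
      intro g h hg
      obtain ⟨h3, h4⟩ := rAnd_iff.1 (show rAnd (g q) (rAnd (sub.chkQ (rqB (nl k0 o0))
        (dqB (nl k0 o0)) (rqB (nl k0 o0) q)) (rest.chkQ (rqB (nl k0 o0)) (dqB (nl k0 o0)) g)) =
          true from h)
      have hq := gq_HB (hg q h3)
      obtain ⟨h5, q', hq', h6⟩ := ih (rAnd_iff.1 h4).1 fun q' h' => (rqB_le hq h').1
      refine ⟨fun q1 hq1 => ?_, q, List.mem_cons_self, h3⟩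
      rcases List.mem_cons.1 hq1 with rfl | hq1
      · refine ⟨hg _ h3, fun a1 a2 a3 a4 => ⟨hq, fun i hi j hj => ?_⟩⟩
        have h7 := ((h5 q' hq').2 a1 a2 a3 a4).le i hi j hj
        exact h7.trans ((rqB_le hq h6).2 i hi)
      · exact h5 q1 hq1
    | hit_rest o' k' q' b' rest _ ih =>
      intro g h hg
      exact ih (rAnd_iff.1 (rAnd_iff.1 (show rAnd (g q') (rAnd (dqB (nl k0 o0) q' b')
        (rest.chkQ (rqB (nl k0 o0)) (dqB (nl k0 o0)) g)) = true from h)).2).2 hg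
    | one_rest c' o' k' q' b' rest _ ih =>
      intro g h hg
      exact ih (rAnd_iff.1 (rAnd_iff.1 (show rAnd (g q') (rAnd (dqB (nl k0 o0) q' b')
        (rest.chkQ (rqB (nl k0 o0)) (dqB (nl k0 o0)) g)) = true from h)).2).2 hg
    | tok_rest c' q sub rest _ ih =>
      intro g h hg
      exact ih (rAnd_iff.1 (rAnd_iff.1 (show rAnd (g q) (rAnd (sub.chkQ (rqB (nl k0 o0))
        (dqB (nl k0 o0)) (rqB (nl k0 o0) q)) (rest.chkQ (rqB (nl k0 o0)) (dqB (nl k0 o0)) g)) =
          true from h)).2).2 hg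
  have h9 := (key hat h5 fun q hq => hq).1
  intro q hq
  exact (h9 q hq).2 h8.fa h0.pos (by rw [h8.fb]; exact h1.pos) h8.hb

/-- The row `(k0, o0)` is a row of a map. -/
theorem rowOK_of_cloB {k0 o0 : ℕ} (h : cloB R nl Pn Rv k0 o0 = true) : RowOK R k0 o0 :=
  rowOK_of_rowB (rAnd_iff.1 h).1

theorem pairOK_of_cloB {k0 o0 : ℕ} (h : cloB R nl Pn Rv k0 o0 = true) :
    PairOK nl Pn Rv k0 o0 :=
  pairOK_of_pairB (rAnd_iff.1 (rAnd_iff.1 h).2).1

theorem cloB_of_cloK (h : ∀ k0 < 101, cloK R nl Pn Rv k0 = true) {k0 o0 : ℕ} (hk : k0 < 101)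
    (ho : o0 < (opt k0).length) : cloB R nl Pn Rv k0 o0 = true :=
  rAllN_iff.1 (h k0 hk) o0 (by rw [optN_eq hk]; exact ho)

end rows

end

/-! ### The blocks of a map -/

section map

variable {R : ℕ → ℕ → Rw Blk} {nl Pn Rv : ℕ → ℕ → ℕ}

/-- **A checked table, at a strip of a map.** If the block from the pair of `d` to the pair of `N d`
is present, then it is an entry of the row with the arcs of the automaton, its format is right, its
numbers are small, its tests dominate it and the root vector of the pair of `N d` is large enough. -/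
theorem blk_at (h : ∀ k0 < 101, cloK R nl Pn Rv k0 = true) {F : Type*} (T : SMap F) (d : F)
    {b : Blk} (hb : (R (T.kx d) (T.ox d)).blk (T.ox (T.N d)) = some b) :
    ∃ qs, Rw.At (R (T.kx d) (T.ox d)) (stepT (T.kx (T.N d)) (T.oc (T.N d))) (T.ox (T.N d))
      (T.kx (T.N (T.N d))) b qs ∧
      Ent (nl (T.kx d) (T.ox d)) (nl (T.kx (T.N d)) (T.ox (T.N d))) (Pn (T.kx d) (T.ox d))
        (Rv (T.kx (T.N d)) (T.ox (T.N d))) b.fmt b.num ∧
      ∀ q ∈ qs, Dom (nl (T.kx d) (T.ox d)) q b.fmt b.num := by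
  have h1 := cloB_of_cloK h (T.kx_lt d) (T.ox_lt_length d)
  have h2 := cloB_of_cloK h (T.kx_lt (T.N d)) (T.ox_lt_length (T.N d))
  obtain ⟨qs, h3⟩ := T.row_at (rowOK_of_cloB h1) hb
  have e : optA (T.kx d) (T.ox d) / 72 = T.kx (T.N d) := by rw [T.optA_ox, T.oc_k]
  have h4 := ent_of_cloB h1 h3 (by rw [e]; exact pairOK_of_cloB h2)
  rw [e] at h4
  exact ⟨qs, h3, h4⟩

theorem pair_at (h : ∀ k0 < 101, cloK R nl Pn Rv k0 = true) {F : Type*} (T : SMap F) (d : F) :
    PairOK nl Pn Rv (T.kx d) (T.ox d) ∧ RowOK R (T.kx d) (T.ox d) :=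
  ⟨pairOK_of_cloB (cloB_of_cloK h (T.kx_lt d) (T.ox_lt_length d)),
    rowOK_of_cloB (cloB_of_cloK h (T.kx_lt d) (T.ox_lt_length d))⟩

end map

end Pool.Agent.Lib.MP_5854e1_co.PB
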