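import Mathlib

/-!
# Loops by recursors

The kernel evaluates recursors and the functions `Nat.add`, `Nat.mod`, … on literals much faster than
compiled structural recursion and type class notation.
-/

set_option autoImplicit false

namespace Pool.Agent.Lib.MP_5854e1_co

/-- If-then-else. -/
def rIf {α : Type} (b : Bool) (x y : α) : α :=
  Bool.rec (motive := fun _ => α) y x b

@[simp] theorem rIf_true {α : Type} (x y : α) : rIf true x y = x := rfl

@[simp] theorem rIf_false {α : Type} (x y : α) : rIf false x y = y := rfl

/-- Conjunction. -/
def rAnd (a b : Bool) : Bool := Bool.rec (motive := fun _ => Bool) false b a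

theorem rAnd_eq (a b : Bool) : rAnd a b = (a && b) := by cases a <;> rfl

theorem rAnd_iff {a b : Bool} : rAnd a b = true ↔ a = true ∧ b = true := by
  cases a <;> cases b <;> simp [rAnd]

/-- Right fold. -/
def rFold {α β : Type} (f : α → β → β) (b : β) (l : List α) : β :=
  List.rec (motive := fun _ => β) b (fun a _ ih => f a ih) l

@[simp] theorem rFold_nil {α β : Type} (f : α → β → β) (b : β) : rFold f b [] = b := rfl

@[simp] theorem rFold_cons {α β : Type} (f : α → β → β) (b : β) (a : α) (l : List α) :
    rFold f b (a :: l) = f a (rFold f b l) := rfl

/-- All elements satisfy a condition. -/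
def rAll {α : Type} (f : α → Bool) (l : List α) : Bool :=
  List.rec (motive := fun _ => Bool) true
    (fun a _ ih => Bool.rec (motive := fun _ => Bool) false ih (f a)) l

theorem rAll_iff {α : Type} {f : α → Bool} {l : List α} :
    rAll f l = true ↔ ∀ a ∈ l, f a = true := by
  induction l with
  | nil => simp [rAll]
  | cons a l ih =>
    show (Bool.rec (motive := fun _ => Bool) false (rAll f l) (f a)) = true ↔ _
    cases h : f a with
    | false => simp [h]
    | true => simp [h, ih]

/-- All numbers below `n` satisfy a condition. -/
def rAllN (f : ℕ → Bool) (n : ℕ) : Bool :=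
  Nat.rec (motive := fun _ => Bool) true
    (fun i ih => Bool.rec (motive := fun _ => Bool) false ih (f i)) n

theorem rAllN_iff {f : ℕ → Bool} {n : ℕ} : rAllN f n = true ↔ ∀ i < n, f i = true := by
  induction n with
  | zero => simp [rAllN]
  | succ n ih =>
    show (Bool.rec (motive := fun _ => Bool) false (rAllN f n) (f n)) = true ↔ _
    cases h : f n with
    | false =>
      simp only [Bool.false_eq_true, false_iff, not_forall]
      exact ⟨n, by omega, by rw [h]; decide⟩
    | true =>
      rw [ih]
      constructor
      · intro h1 i hi
        rcases Nat.lt_succ_iff_lt_or_eq.1 hi with h2 | rfl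
        · exact h1 i h2
        · exact h
      · exact fun h1 i hi => h1 i (by omega)

/-- Equality of lists of numbers. -/
def rEq (l : List ℕ) : List ℕ → Bool :=
  List.rec (motive := fun _ => List ℕ → Bool)
    (fun m => List.rec (motive := fun _ => Bool) true (fun _ _ _ => false) m)
    (fun a _ ih m => List.rec (motive := fun _ => Bool) false
      (fun b t _ => Bool.rec (motive := fun _ => Bool) false (ih t) (Nat.beq a b)) m) l

theorem eq_of_rEq : ∀ {l m : List ℕ}, rEq l m = true → l = m := by
  intro l
  induction l with
  | nil =>
    intro m h
    cases m with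
    | nil => rfl
    | cons b t => exact absurd h Bool.false_ne_true
  | cons a l ih =>
    intro m h
    cases m with
    | nil => exact absurd h Bool.false_ne_true
    | cons b t =>
      have h' : (Bool.rec (motive := fun _ => Bool) false (rEq l t) (Nat.beq a b)) = true := h
      cases h1 : Nat.beq a b with
      | false => rw [h1] at h'; exact absurd h' Bool.false_ne_true
      | true =>
        rw [h1] at h'
        rw [Nat.eq_of_beq_eq_true h1, ih h']

/-- Unpack a list of `n` numbers with `w` binary digits; `W = 2 ^ w`. -/
def rUnpk (w W n : ℕ) : ℕ → List ℕ :=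
  Nat.rec (motive := fun _ => ℕ → List ℕ) (fun _ => [])
    (fun _ ih c => Nat.mod c W :: ih (Nat.shiftRight c w)) n

theorem length_rUnpk (w W n : ℕ) : ∀ c, (rUnpk w W n c).length = n := by
  induction n with
  | zero => intro c; rfl
  | succ n ih =>
    intro c
    show (rUnpk w W n (Nat.shiftRight c w)).length + 1 = n + 1
    rw [ih]

theorem getElem_rUnpk (w W : ℕ) : ∀ (n c i : ℕ) (h : i < (rUnpk w W n c).length),
    (rUnpk w W n c)[i] = c >>> (w * i) % W := by
  intro n
  induction n with
  | zero => intro c i h; exact absurd h (Nat.not_lt_zero i)
  | succ n ih =>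
    intro c i h
    cases i with
    | zero => rfl
    | succ i =>
      have h' : i < (rUnpk w W n (c >>> w)).length := by
        rw [length_rUnpk] at h ⊢
        omega
      show (rUnpk w W n (c >>> w))[i] = _
      rw [ih _ _ h', ← Nat.shiftRight_add, mul_add, mul_one, add_comm w]

/-- The element of index `i`, with default. -/
def rGet {α : Type} (d : α) (l : List α) : ℕ → α :=
  List.rec (motive := fun _ => ℕ → α) (fun _ => d)
    (fun a _ ih i => Nat.rec (motive := fun _ => α) a (fun j _ => ih j) i) l

theorem rGet_eq {α : Type} (d : α) : ∀ (l : List α) (i : ℕ), rGet d l i = l.getD i d := by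
  intro l
  induction l with
  | nil => intro i; rfl
  | cons a l ih =>
    intro i
    cases i with
    | zero => rfl
    | succ i => exact ih i

end Pool.Agent.Lib.MP_5854e1_co
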