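import Pool.Agent.Lib.MP_5854e1_co.OptSound
import Pool.Agent.Lib.MP_5854e1_co.Raw

/-!
# The letters of a cell

Every letter of a cell is read exactly once: the numbers of letters of the strips of a cell, with
two more for every `E` gap, sum to 24.
-/

set_option autoImplicit false

open Equiv Equiv.Perm

namespace Pool.Agent.Lib.MP_5854e1_co

open Model24 (Kind)

/-- The number of elements of a mask. -/
def pc (m : ℕ) : ℕ := ∑ i ∈ Finset.range 7, (m.testBit i).toNat

theorem pc_or_pow {m : ℕ} {x : Fin 7} (h : m.testBit x.val = false) :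
    pc (m ||| 2 ^ x.val) = pc m + 1 := by
  unfold pc
  have h1 : ∀ i ∈ Finset.range 7, ((m ||| 2 ^ x.val).testBit i).toNat =
      (m.testBit i).toNat + (if i = x.val then 1 else 0) := by
    intro i _
    rw [Nat.testBit_or, testBit_two_pow']
    by_cases hi : i = x.val
    · subst hi
      simp [h]
    · have hi' : x.val ≠ i := Ne.symm hi
      simp [hi, hi']
  rw [Finset.sum_congr rfl h1, Finset.sum_add_distrib, Finset.sum_ite_eq' (Finset.range 7) x.val,
    if_pos (Finset.mem_range.2 x.isLt)]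

theorem pc_pow (x : Fin 7) : pc (2 ^ x.val) = 1 := by
  have h := pc_or_pow (m := 0) (x := x) (Nat.zero_testBit _)
  rw [Nat.zero_or] at h
  rw [h]
  rfl

theorem pc_or {a b : ℕ} (h : ∀ i, a.testBit i = true → b.testBit i = false) :
    pc (a ||| b) = pc a + pc b := by
  unfold pc
  rw [← Finset.sum_add_distrib]
  refine Finset.sum_congr rfl fun i _ => ?_
  rw [Nat.testBit_or]
  cases h1 : a.testBit i with
  | false => simp
  | true => rw [h i h1]; rfl

theorem pc_nbm : ∀ x : Fin 7, x ≠ 0 → pc (nbm x) = 4 := by decide +kernel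

/-- The number of letters read. -/
def cnt (σ : Sc) : ℕ :=
  if σ.ph = 0 then pc σ.m0 else if σ.ph = 1 then pc σ.m0 + 4 * (pc σ.vis - 2) + pc σ.nb
  else pc σ.m0 + 20 + pc σ.nb

theorem cnt_zero {σ : Sc} (h : σ.ph = 0) : cnt σ = pc σ.m0 := if_pos h

theorem cnt_one {σ : Sc} (h : σ.ph = 1) :
    cnt σ = pc σ.m0 + 4 * (pc σ.vis - 2) + pc σ.nb := by
  unfold cnt
  rw [if_neg (by omega), if_pos h]

theorem cnt_two {σ : Sc} (h : σ.ph = 2) : cnt σ = pc σ.m0 + 20 + pc σ.nb := by
  unfold cnt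
  rw [if_neg (by omega), if_neg (by omega)]

/-- The invariants used for counting. -/
structure Sc.Inv (σ : Sc) : Prop where
  x0 : σ.x0 ≠ 0
  cur : σ.cur ≠ 0
  ph : σ.ph ≤ 2
  z0 : σ.ph = 0 → σ.nb = σ.m0 ∧ σ.vis = 2 ^ σ.x0.val
  z1 : σ.ph = 1 → 2 ≤ pc σ.vis
  z2 : σ.ph = 2 → ∀ i, σ.nb.testBit i = true → σ.m0.testBit i = false

theorem pow_ne_126 : ∀ x : Fin 7, 2 ^ x.val ≠ 126 := by decide

theorem Inv_scInit {p : Lb} (hp : p.1 ≠ 0) : (scInit p).Inv where
  x0 := hp
  cur := hp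
  ph := Nat.zero_le _
  z0 _ := ⟨rfl, rfl⟩
  z1 h := absurd h (by show (0 : ℕ) ≠ 1; norm_num)
  z2 h := absurd h (by show (0 : ℕ) ≠ 2; norm_num)

theorem cnt_scInit (p : Lb) : cnt (scInit p) = 1 := by
  show (if (0 : ℕ) = 0 then pc (2 ^ p.2.val) else _) = 1
  rw [if_pos rfl, pc_pow]

/-- The letters of a step. -/
def ltk (κ : Kind) : ℕ := match κ with
  | Kind.E => 3
  | _ => 1

theorem step_P {σ τ : Sc} {p : Lb} (hσ : σ.Inv) (h : scP σ p = some τ) :
    τ.Inv ∧ cnt τ = cnt σ + 1 := by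
  unfold scP at h
  by_cases h1 : p.1 = σ.cur ∧ adjL σ.cur p.2 = true ∧ σ.nb.testBit p.2.val = false ∧
      (σ.ph = 2 → σ.m0.testBit p.2.val = false)
  swap
  · rw [if_neg h1] at h
    exact absurd h (by simp)
  · rw [if_pos h1] at h
    obtain ⟨h2, h3, h4, h5⟩ := h1
    have h6 := Option.some.inj h
    have hph := hσ.ph
    rcases (by omega : σ.ph = 0 ∨ σ.ph = 1 ∨ σ.ph = 2) with hp | hp | hp
    · obtain ⟨e1, e2⟩ := hσ.z0 hp
      rw [if_pos hp] at h6
      subst h6
      refine ⟨⟨hσ.x0, hσ.cur, hσ.ph, fun _ => ⟨by simp only; rw [e1], e2⟩, fun h => by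
        simp only at h; omega, fun h => by simp only at h; omega⟩, ?_⟩
      rw [cnt_zero hp, cnt_zero (by exact hp)]
      show pc (σ.m0 ||| 2 ^ p.2.val) = _
      rw [← e1]
      exact pc_or_pow h4
    · rw [if_neg (by omega)] at h6
      subst h6
      refine ⟨⟨hσ.x0, hσ.cur, hσ.ph, fun h => by simp only at h; omega, hσ.z1,
        fun h => by simp only at h; omega⟩, ?_⟩
      rw [cnt_one hp, cnt_one (by exact hp)]
      show pc σ.m0 + 4 * (pc σ.vis - 2) + pc (σ.nb ||| 2 ^ p.2.val) = _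
      rw [pc_or_pow h4]
      omega
    · rw [if_neg (by omega)] at h6
      subst h6
      refine ⟨⟨hσ.x0, hσ.cur, hσ.ph, fun h => by simp only at h; omega,
        fun h => by simp only at h; omega, fun _ i hi => ?_⟩, ?_⟩
      · simp only at hi ⊢
        rw [Nat.testBit_or, testBit_two_pow', Bool.or_eq_true] at hi
        rcases hi with hi | hi
        · exact hσ.z2 hp i hi
        · rw [← of_decide_eq_true hi]
          exact h5 hp
      · rw [cnt_two hp, cnt_two (by exact hp)]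
        show pc σ.m0 + 20 + pc (σ.nb ||| 2 ^ p.2.val) = _
        rw [pc_or_pow h4]
        omega

theorem enter_spec {σ : Sc} (hσ : σ.Inv) {x : Fin 7} {ph' : ℕ} (h : scEnter σ x = some ph') :
    x ≠ 0 ∧ ((σ.ph = 0 ∧ ph' = 1 ∧ pc (σ.vis ||| 2 ^ x.val) = 2) ∨
      (σ.ph = 1 ∧ ph' = 1 ∧ pc (σ.vis ||| 2 ^ x.val) = pc σ.vis + 1) ∨
      (σ.ph = 1 ∧ ph' = 2 ∧ σ.vis = 126)) := by
  unfold scEnter at h
  have hph := hσ.ph
  split_ifs at h with h1 h2 h3 h4
  · obtain rfl := Option.some.inj h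
    refine ⟨by rw [h3]; exact hσ.x0, ?_⟩
    rcases (by omega : σ.ph = 0 ∨ σ.ph = 1) with hp | hp
    · exact absurd ((hσ.z0 hp).2.symm.trans h2) (pow_ne_126 _)
    · exact Or.inr (Or.inr ⟨hp, rfl, h2⟩)
  · obtain rfl := Option.some.inj h
    refine ⟨h4.1, ?_⟩
    rcases (by omega : σ.ph = 0 ∨ σ.ph = 1) with hp | hp
    · refine Or.inl ⟨hp, rfl, ?_⟩
      rw [pc_or_pow h4.2, (hσ.z0 hp).2, pc_pow]
    · exact Or.inr (Or.inl ⟨hp, rfl, pc_or_pow h4.2⟩)

theorem pc_pair {x y : Fin 7} (h : y ≠ x) : pc (2 ^ x.val ||| 2 ^ y.val) = 2 := by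
  rw [pc_or_pow, pc_pow]
  rw [testBit_two_pow', decide_eq_false_iff_not]
  exact fun e => h (Fin.ext e.symm)

theorem step_S {σ τ : Sc} {p : Lb} (hσ : σ.Inv) (h : scS σ p = some τ) :
    τ.Inv ∧ cnt τ = cnt σ + 1 := by
  unfold scS at h
  cases h0 : scEnter σ p.1 with
  | none => rw [h0] at h; exact absurd h (by simp)
  | some ph' =>
    rw [h0] at h
    simp only at h
    obtain ⟨hx, hcase⟩ := enter_spec hσ h0
    by_cases h1 : (σ.ph = 1 → σ.nb = nbm σ.cur) ∧ adjL p.1 p.2 = true ∧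
        (ph' = 2 → σ.m0.testBit p.2.val = false)
    swap
    · rw [if_neg h1] at h
      exact absurd h (by simp)
    rw [if_pos h1] at h
    obtain ⟨h2, h3, h4⟩ := h1
    have h6 := Option.some.inj h
    subst h6
    rcases hcase with ⟨hp, rfl, hv⟩ | ⟨hp, rfl, hv⟩ | ⟨hp, rfl, hv⟩
    · refine ⟨⟨hσ.x0, hx, by simp, fun h => by simp at h, fun _ => hv.ge, fun h => by simp at h⟩, ?_⟩
      rw [cnt_zero hp, cnt_one rfl]
      show pc σ.m0 + 4 * (pc (σ.vis ||| 2 ^ p.1.val) - 2) + pc (2 ^ p.2.val) = _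
      rw [hv, pc_pow]
    · have h5 := h2 hp
      have h6 := hσ.z1 hp
      refine ⟨⟨hσ.x0, hx, by simp, fun h => by simp at h, fun _ => by simp only; omega,
        fun h => by simp at h⟩, ?_⟩
      rw [cnt_one hp, cnt_one rfl]
      show pc σ.m0 + 4 * (pc (σ.vis ||| 2 ^ p.1.val) - 2) + pc (2 ^ p.2.val) = _
      rw [hv, pc_pow, h5, pc_nbm _ hσ.cur]
      omega
    · have h5 := h2 hp
      refine ⟨⟨hσ.x0, hx, by simp, fun h => by simp at h, fun h => by simp at h, fun _ i hi => ?_⟩, ?_⟩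
      · simp only at hi ⊢
        rw [testBit_two_pow'] at hi
        rw [← of_decide_eq_true hi]
        exact h4 rfl
      · rw [cnt_one hp, cnt_two rfl]
        show pc σ.m0 + 20 + pc (2 ^ p.2.val) = _
        rw [hv, pc_pow, h5, pc_nbm _ hσ.cur]
        have : pc 126 = 6 := by decide +kernel
        omega

theorem step_E {σ τ : Sc} {p : Lb} (hσ : σ.Inv) (h : scE σ p = some τ) :
    τ.Inv ∧ cnt τ = cnt σ + 3 := by
  unfold scE at h
  cases h0 : scEnter σ p.1 with
  | none => rw [h0] at h; exact absurd h (by simp)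
  | some ph' =>
    rw [h0] at h
    simp only at h
    obtain ⟨hx, hcase⟩ := enter_spec hσ h0
    by_cases h1 : adjL σ.cur p.1 = true ∧ σ.nb.testBit p.1.val = false ∧
        (σ.ph = 1 → σ.nb ||| 2 ^ p.1.val = nbm σ.cur) ∧ adjL p.1 p.2 = true ∧ p.2 ≠ σ.cur ∧
        (ph' = 2 → σ.m0.testBit p.2.val = false ∧ σ.m0.testBit σ.cur.val = false)
    swap
    · rw [if_neg h1] at h
      exact absurd h (by simp)
    rw [if_pos h1] at h
    obtain ⟨h2, h3, h4, h5, h6, h7⟩ := h1
    have h8 := Option.some.inj h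
    have h9 := pc_or_pow h3
    rcases hcase with ⟨hp, rfl, hv⟩ | ⟨hp, rfl, hv⟩ | ⟨hp, rfl, hv⟩
    · rw [if_pos hp] at h8
      subst h8
      refine ⟨⟨hσ.x0, hx, by simp, fun h => by simp at h, fun _ => hv.ge, fun h => by simp at h⟩, ?_⟩
      rw [cnt_zero hp, cnt_one rfl]
      show pc (σ.m0 ||| 2 ^ p.1.val) + 4 * (pc (σ.vis ||| 2 ^ p.1.val) - 2) +
        pc (2 ^ σ.cur.val ||| 2 ^ p.2.val) = _
      rw [hv, pc_pair h6, ← (hσ.z0 hp).1, h9]
    · rw [if_neg (by omega)] at h8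
      subst h8
      have h10 := h4 hp
      have h11 := hσ.z1 hp
      rw [h10, pc_nbm _ hσ.cur] at h9
      refine ⟨⟨hσ.x0, hx, by simp, fun h => by simp at h, fun _ => by simp only; omega,
        fun h => by simp at h⟩, ?_⟩
      rw [cnt_one hp, cnt_one rfl]
      show pc σ.m0 + 4 * (pc (σ.vis ||| 2 ^ p.1.val) - 2) +
        pc (2 ^ σ.cur.val ||| 2 ^ p.2.val) = _
      rw [hv, pc_pair h6]
      omega
    · rw [if_neg (by omega)] at h8
      subst h8
      have h10 := h4 hp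
      rw [h10, pc_nbm _ hσ.cur] at h9
      refine ⟨⟨hσ.x0, hx, by simp, fun h => by simp at h, fun h => by simp at h, fun _ i hi => ?_⟩, ?_⟩
      · simp only at hi ⊢
        rw [Nat.testBit_or, testBit_two_pow', testBit_two_pow', Bool.or_eq_true] at hi
        rcases hi with hi | hi
        · rw [← of_decide_eq_true hi]
          exact (h7 rfl).2
        · rw [← of_decide_eq_true hi]
          exact (h7 rfl).1
      · rw [cnt_one hp, cnt_two rfl]
        show pc σ.m0 + 20 + pc (2 ^ σ.cur.val ||| 2 ^ p.2.val) = _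
        rw [hv, pc_pair h6]
        have : pc 126 = 6 := by decide +kernel
        omega

theorem step_cnt {σ τ : Sc} {κ : Kind} {p : Lb} (hσ : σ.Inv) (h : scStep σ κ p = some τ) :
    τ.Inv ∧ cnt τ = cnt σ + ltk κ := by
  cases κ with
  | P => exact step_P hσ h
  | E => exact step_E hσ h
  | S => exact step_S hσ h

/-- The letters of a list of steps. -/
def ltks (l : List (Kind × Lb)) : ℕ := (l.map fun q => ltk q.1).sum

theorem run_cnt : ∀ {l : List (Kind × Lb)} {σ τ : Sc}, σ.Inv → scRun σ l = some τ →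
    τ.Inv ∧ cnt τ = cnt σ + ltks l := by
  intro l
  induction l with
  | nil =>
    intro σ τ hσ h
    obtain rfl := Option.some.inj h
    exact ⟨hσ, by simp [ltks]⟩
  | cons q l ih =>
    intro σ τ hσ h
    rw [scRun] at h
    cases h1 : scStep σ q.1 q.2 with
    | none => rw [h1] at h; exact absurd h (by simp)
    | some ρ =>
      rw [h1] at h
      obtain ⟨h2, h3⟩ := step_cnt hσ h1
      obtain ⟨h4, h5⟩ := ih h2 h
      refine ⟨h4, ?_⟩
      rw [h5, h3]
      unfold ltks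
      rw [List.map_cons, List.sum_cons]
      ring

/-- The closing. -/
theorem close_cnt {σ : Sc} {κ : Kind} (hσ : σ.Inv) (h : scClose σ κ = true) :
    cnt σ + ltk κ = 25 := by
  cases κ with
  | P =>
    obtain ⟨h1, h2⟩ := of_decide_eq_true (p := σ.ph = 2 ∧ σ.nb ||| σ.m0 = nbm σ.x0) h
    have h3 := pc_or (hσ.z2 h1)
    rw [h2, pc_nbm _ hσ.x0] at h3
    unfold cnt
    rw [if_neg (by omega), if_neg (by omega)]
    show _ + 1 = _
    omega
  | S =>
    obtain ⟨h1, h2, h3, h4⟩ := of_decide_eq_true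
      (p := σ.ph = 1 ∧ σ.vis = 126 ∧ σ.nb = nbm σ.cur ∧ σ.m0 = nbm σ.x0) h
    unfold cnt
    have : pc 126 = 6 := by decide +kernel
    rw [if_neg (by omega), if_pos h1, h2, h3, h4, pc_nbm _ hσ.x0, pc_nbm _ hσ.cur, this]
    rfl
  | E =>
    obtain ⟨h1, h2, -, h4, h5, h6, h7⟩ := of_decide_eq_true
      (p := σ.ph = 1 ∧ σ.vis = 126 ∧ adjL σ.cur σ.x0 = true ∧ σ.nb.testBit σ.x0.val = false ∧
        σ.nb ||| 2 ^ σ.x0.val = nbm σ.cur ∧ σ.m0.testBit σ.cur.val = false ∧
        σ.m0 ||| 2 ^ σ.cur.val = nbm σ.x0) h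
    have h8 := pc_or_pow h4
    have h9 := pc_or_pow h6
    rw [h5, pc_nbm _ hσ.cur] at h8
    rw [h7, pc_nbm _ hσ.x0] at h9
    unfold cnt
    have : pc 126 = 6 := by decide +kernel
    rw [if_neg (by omega), if_pos h1, h2, this]
    show _ + 3 = _
    omega

/-- The letters of a strip. -/
def lts (s : Strip) : ℕ := 1 + ltks (ownToks s)

theorem lts_relS (g : Perm (Fin 7)) (s : Strip) : lts (relS g s) = lts s := by
  unfold lts ltks ownToks relS
  rw [List.map_map, List.map_map, List.map_map]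
  rfl

/-- The letters of the shapes, four binary digits each. -/
def ltTab : ℕ := 5680947104993290878141056515412509699740691062303325273710720862115828983521565131398500837436219429656932544890205852961

/-- The letters of a strip of shape `k`. -/
def ltA (k : ℕ) : ℕ := Nat.mod (Nat.shiftRight ltTab (Nat.mul (nat_lit 4) k)) (nat_lit 16)

theorem ltA_eq : ∀ k < 101, ltA k = lts (shp k) := by decide +kernel

/-- The letters of a strip of shape `k` and the corner after it, for the option of code `c`. -/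
def lsA (k c : ℕ) : ℕ :=
  Nat.add (ltA k) (rIf (Nat.beq (Nat.mod c (nat_lit 3)) (nat_lit 1)) (nat_lit 2) (nat_lit 0))

namespace SMap

variable {F : Type*} (T : SMap F)

/-- The letters of a strip and the corner after it. -/
def ls (d : F) : ℕ := lts (T.S d) + (ltk (T.K (T.N d)) - 1)

theorem ls_eq (d : F) : T.ls d = lsA (T.kx d) (T.oc d) := by
  unfold ls lsA
  rw [ltA_eq _ (T.kx_lt d), shp_kx]
  unfold shape
  have h : Nat.mod (T.oc d) (nat_lit 3) = kc (T.K (T.N d)) := T.oc_κ d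
  rw [lts_relS, h]
  cases T.K (T.N d) <;> rfl

theorem fst_ne_zero (d : F) : (T.S d).1.1 ≠ 0 := by
  have : ∀ p ∈ allLab, p.1 ≠ 0 := by decide
  exact this _ (T.lab_mem d)

theorem ltk_pos (κ : Kind) : 1 ≤ ltk κ := by cases κ <;> decide

/-- **Every cell has 24 letters.** -/
theorem sum_ls (d : F) :
    ∑ i ∈ Finset.range (Function.minimalPeriod T.N d), T.ls (T.N^[i] d) = 24 := by
  have hone : IsLabAut (1 : Perm (Fin 7)) := ⟨rfl, fun _ _ h => h⟩
  obtain ⟨σ, h1, h2, h3⟩ := T.scan 1 hone d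
  rw [relS_one] at h1
  have hb := T.three d
  set b := Function.minimalPeriod T.N d with hbdef
  -- the states
  have key : ∀ j < b, (σ j).Inv ∧ cnt (σ j) + ltk (T.K (T.N^[j + 1] d)) =
      1 + ∑ i ∈ Finset.range (j + 1), T.ls (T.N^[i] d) := by
    intro j
    induction j with
    | zero =>
      intro _
      obtain ⟨h4, h5⟩ := run_cnt (Inv_scInit (T.fst_ne_zero d)) h1
      refine ⟨h4, ?_⟩
      have := ltk_pos (T.K (T.N d))
      rw [h5, cnt_scInit, Finset.sum_range_one]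
      show 1 + ltks (ownToks (T.S d)) + ltk (T.K (T.N d)) = 1 + (lts (T.S d) + (ltk (T.K (T.N d)) - 1))
      unfold lts
      omega
    | succ j ih =>
      intro hj
      obtain ⟨h4, h5⟩ := ih (by omega)
      have h6 := h2 j hj
      rw [relS_one] at h6
      obtain ⟨h7, h8⟩ := run_cnt h4 h6
      refine ⟨h7, ?_⟩
      have h9 := ltk_pos (T.K (T.N^[j + 1 + 1] d))
      have e1 : ltks (stripToks (T.K (T.N^[j + 1] d)) (T.S (T.N^[j + 1] d))) =
          ltk (T.K (T.N^[j + 1] d)) + ltks (ownToks (T.S (T.N^[j + 1] d))) := by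
        unfold stripToks ltks
        rw [List.map_cons, List.sum_cons]
      have e2 : T.ls (T.N^[j + 1] d) = lts (T.S (T.N^[j + 1] d)) +
          (ltk (T.K (T.N^[j + 1 + 1] d)) - 1) := by
        unfold ls
        rw [Function.iterate_succ_apply' T.N (j + 1) d]
      rw [Finset.sum_range_succ, h8, e1, e2]
      unfold lts
      omega
  obtain ⟨h4, h5⟩ := key (b - 1) (by omega)
  rw [Nat.sub_add_cancel (by omega)] at h5
  have h6 : T.N^[b] d = d := Function.isPeriodicPt_minimalPeriod T.N d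
  rw [h6] at h5
  have h7 := close_cnt h4 h3
  omega

end SMap

end Pool.Agent.Lib.MP_5854e1_co
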