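import Pool.Agent.Lib.MP_5854e1_co.Lane
import Pool.Agent.Lib.MP_5854e1_co.RowSound
import Pool.Agent.Lib.MP_5854e1_co.Letters

/-!
# The values of the strips from the tables

The value of a strip before a triangle is read off the block. Before a longer face it is defined by
the bounds `Phi` and `Psi`, and the block gives an upper bound.
-/

set_option autoImplicit false

namespace Pool.Agent.Lib.MP_5854e1_co

open PB

/-- The tables of the values. -/
structure AP where
  /-- the rows -/
  R : ℕ → ℕ → Rw Blk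
  /-- the packed needs of the lanes of a pair, without the gauge -/
  Pn : ℕ → ℕ → ℕ
  /-- the packed gauge of the lanes of a pair -/
  PG : ℕ → ℕ → ℕ
  /-- the packed bounds for a longer face before a triangle: nine vectors of the lanes of triangles -/
  PH : ℕ → ℕ → ℕ
  /-- the packed bounds for two longer faces, 16 digits each -/
  PS : ℕ → ℕ
  /-- the packed weights of the triangular corners of a pair from the opposite strips -/
  PW : ℕ → ℕ → ℕ
  /-- there are `12 * u` units -/
  u : ℕ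
  /-- the share of a letter -/
  α : ℕ
  /-- the constant part of the correction of a triangle -/
  D : ℕ → ℕ → ℕ
  /-- the constant part of the correction of a longer face, packed -/
  q : ℕ → ℕ → ℕ
  /-- the width of the fields of `q` -/
  w : ℕ
  /-- the shift of the fields of `q` -/
  qo : ℕ
  /-- the reserves of the strips between two triangles -/
  rs : ℕ → ℕ → ℕ → ℕ → ℕ → ℕ → ℕ

namespace AP

noncomputable section

variable (P : AP)

/-- The entry of a word. -/
def ent (k0 o0 s0 k1 o1 s1 : ℕ) : ℕ :=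
  Option.rec (motive := fun _ => ℕ) (nat_lit 0) (fun b => fd b (ln k0 o0 s0) (ln k1 o1 s1))
    (Rw.blk o1 (P.R k0 o0))

/-- The need of a lane. -/
def ndl (k o l : ℕ) : ℕ := Nat.add (fd0 (P.PG k o) l) (fd0 (P.Pn k o) l)

/-- The need of a corner. -/
def nd (k o s : ℕ) : ℕ := P.ndl k o (ln k o s)

/-- The gauge of a corner. -/
def gg (k o s : ℕ) : ℕ := fd0 (P.PG k o) (ln k o s)

/-- The weight of a corner from the opposite strip. -/
def ps (k o s : ℕ) : ℕ := fd0 (P.PW k o) (ln k o s)

/-- The bound of the lane `l` of the pair `(k, o)` after the kinds `B` and `κ`, plus `2 ^ 15`. -/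
def phL (k o l B κ : ℕ) : ℕ :=
  fd0 (P.PH k o) (Nat.add (Nat.mul (nt k o) (Nat.add (Nat.mul (nat_lit 3) B) κ)) l)

/-- The bound for a longer face before a triangle, plus `2 ^ 15`. -/
def phi (k o s B κ : ℕ) : ℕ := P.phL k o (ln k o s) B κ

/-- The bound for two longer faces, plus `2 ^ 15`. -/
def psi (k a b c d : ℕ) : ℕ :=
  Nat.mod (Nat.shiftRight (P.PS k) (Nat.mul (nat_lit 16) (Nat.add (Nat.mul (nat_lit 27) a)
    (Nat.add (Nat.mul (nat_lit 9) b) (Nat.add (Nat.mul (nat_lit 3) c) d))))) (nat_lit 65536)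

/-- The bounds for a longer face before a triangle. -/
def Phi (k o s B κ : ℕ) : ℤ := (P.phi k o s B κ : ℤ) - 32768

/-- The bounds for two longer faces. -/
def Psi (k a b c d : ℕ) : ℤ := (P.psi k a b c d : ℤ) - 32768

/-- The constant part of the correction of a corner. -/
def Y (k o s : ℕ) : ℤ :=
  if s < 7936 then (P.D k o : ℤ) else
    (((P.q k o) >>> (P.w * (s - 7936)) % 2 ^ P.w : ℕ) : ℤ) - P.qo

/-- The value of the second strip. -/
def V (k0 o0 s0 k1 o1 s1 : ℕ) : ℤ :=
  if s1 < 7936 then (P.ent k0 o0 s0 k1 o1 s1 : ℤ) - 65536 - P.nd k0 o0 s0 + P.nd k1 o1 s1 else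
    (if s0 < 7936 then P.Phi (Nat.div (flA k0 o0) (nat_lit 16384))
        (Nat.mod (triA k0 s0) (nat_lit 512)) (rjA k0 s0) (Nat.mod (optA k1 o1) (nat_lit 3))
        ((s1 - 7936) % 3)
      else P.Psi k1 (Nat.mod (optA k0 o0) (nat_lit 3)) ((s0 - 7936) / 3)
        (Nat.mod (optA k1 o1) (nat_lit 3)) ((s1 - 7936) % 3)) +
      P.α * lsA k1 (optA k1 o1) - 6 * P.u + 3 * P.u + P.Y k1 o1 s1

/-- The weight of a corner from the opposite strip. -/
def Ps (k o s : ℕ) : ℤ := if s < 7936 then (P.ps k o s : ℤ) else 0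

/-- The amount moved across the second strip. -/
def G (k0 o0 s0 k1 o1 s1 : ℕ) : ℤ :=
  P.V k0 o0 s0 k1 o1 s1 - P.α * lsA k1 (optA k1 o1) + 6 * P.u -
    (if s1 < 7936 then 4 * P.u else 3 * P.u) - P.Y k1 o1 s1 - P.Ps k1 o1 s1

/-- The difference of `gp` and `gm` is the amount moved across a strip between two triangles. -/
def gp (k0 o0 s0 k1 o1 s1 : ℕ) : ℕ :=
  Nat.add (Nat.add (P.ent k0 o0 s0 k1 o1 s1) (P.nd k1 o1 s1)) (Nat.mul (nat_lit 2) P.u)

/-- The difference of `gp` and `gm` is the amount moved across a strip between two triangles. -/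
def gm (k0 o0 s0 k1 o1 s1 : ℕ) : ℕ :=
  Nat.add (Nat.add (nat_lit 65536) (P.nd k0 o0 s0))
    (Nat.add (Nat.add (Nat.mul P.α (lsA k1 (optA k1 o1))) (P.D k1 o1)) (P.ps k1 o1 s1))

/-! ### The exact values before a longer face, by lanes -/

/-- The ring state of the lane `i` of triangles. -/
def sl (k o i : ℕ) : ℕ :=
  rIf (cnn k o) (Nat.add (triOff k o) i) (mJ (mK k) (Nat.add (triOff (mK k) (mO' k o)) i))

/-- The constants of a longer face: letters, share and correction. -/
def cB (k o b : ℕ) : ℕ :=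
  Nat.add (Nat.add (Nat.mul P.α (lsA k (optA k o))) (Nat.mul (nat_lit 3) P.u))
    (Nat.mod (Nat.shiftRight (P.q k o) (Nat.mul P.w b)) (Nat.pow (nat_lit 2) P.w))

/-- The bound `Phi` or `Psi` for the lane `i` before the strip, plus `2 ^ 15`. -/
def gx (k0 o0 i k1 o1 b : ℕ) : ℕ :=
  rIf (Nat.ble (nt k0 o0) i)
    (P.psi k1 (Nat.mod (optA k0 o0) (nat_lit 3)) (Nat.sub i (nt k0 o0))
      (Nat.mod (optA k1 o1) (nat_lit 3)) (Nat.mod b (nat_lit 3)))
    (rForce (sl k0 o0 i) fun s => P.phi (Nat.div (flA k0 o0) (nat_lit 16384))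
      (Nat.mod (triA k0 s) (nat_lit 512)) (rjA k0 s) (Nat.mod (optA k1 o1) (nat_lit 3))
      (Nat.mod b (nat_lit 3)))

/-- The exact entry from the lane `i` to the longer face `b = 3 * B + C`: the value plus `2 ^ 16` and
the need of the lane `i`, minus the need of the lane after the strip. -/
def vx (k0 o0 i k1 o1 b : ℕ) : ℕ :=
  Nat.sub (Nat.add (Nat.add (P.gx k0 o0 i k1 o1 b) (P.cB k1 o1 b))
    (Nat.add (nat_lit 65536) (P.ndl k0 o0 i)))
    (Nat.add (Nat.add (Nat.add (nat_lit 32768) P.qo) (Nat.mul (nat_lit 6) P.u))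
      (P.ndl k1 o1 (Nat.add (nt k1 o1) (Nat.div b (nat_lit 3)))))

end

end AP

end Pool.Agent.Lib.MP_5854e1_co
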