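import Pool.Agent.Lib.MP_5854e1_co.Anti
import Pool.Agent.Lib.MP_5854e1_co.Val
import Pool.Agent.Lib.MP_5854e1_co.Clo

/-!
# The check of the values seen from both sides

The words of two triangles are treated one by one, the others with packed comparisons of rows and
columns of the blocks.
-/

set_option autoImplicit false

namespace Pool.Agent.Lib.MP_5854e1_co

open PB

/-- The entries of a row in a list. -/
inductive FL where
  | nil : FL
  | cons (o : ℕ) (b : Blk) (rest : FL) : FL

/-- The triangles before a strip: the option and the lane at the other end, the lane, the constants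
and the ring states at the two ends. -/
inductive CA where
  | nil : CA
  | cons (o l l' th s s' : ℕ) (rest : CA) : CA

/-- The triangles after a strip: the options and the pair at the other end, the lane, the lane at the
other end, the constants and the ring states at the two ends. -/
inductive CB where
  | nil : CB
  | cons (row k2 o2 l l' th s s' : ℕ) (rest : CB) : CB

namespace AP

noncomputable section

variable (P : AP)

/-! ### Finding a block -/

/-- The entries of a row as a list. -/
def flat (r : Rw Blk) : FL → FL :=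
  Rw.rec (motive := fun _ => FL → FL) (fun t => t)
    (fun o _ _ b _ ih t => FL.cons o b (ih t))
    (fun _ o _ _ b _ ih t => FL.cons o b (ih t))
    (fun _ _ _ _ ihs ihr t => ihs (ihr t)) r

/-- The entries of the row `(k, o)` from the entry `j` on. -/
def sfx (k o j : ℕ) : FL :=
  Nat.rec (motive := fun _ => FL) (flat (P.R k o) FL.nil)
    (fun _ ih => FL.rec (motive := fun _ => FL) FL.nil (fun _ _ rest _ => rest) ih) j

/-- The places of the options in the row `(k, o)`, 16 digits each. -/
def dir (k o : ℕ) : ℕ :=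
  FL.rec (motive := fun _ => ℕ → ℕ) (fun _ => nat_lit 0)
    (fun o' _ _ ih j => Nat.add (Nat.shiftLeft j (Nat.mul (nat_lit 16) o')) (ih (Nat.succ j)))
    (P.sfx k o (nat_lit 0)) (nat_lit 0)

/-- The block of the option `o'` in the row `(k, o)`. -/
def att (k o o' : ℕ) : Option Blk :=
  rForce (Nat.mod (Nat.shiftRight (P.dir k o) (Nat.mul (nat_lit 16) o')) (nat_lit 65536)) fun j =>
    FL.rec (motive := fun _ => Option Blk) none
      (fun o1 b _ _ => rIf (Nat.beq o1 o') (some b) none) (P.sfx k o j)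

/-- The options of a row. -/
def rwM (r : Rw Blk) : ℕ :=
  Rw.rec (motive := fun _ => ℕ) (nat_lit 0)
    (fun o _ _ _ _ ih => Nat.lor (Nat.shiftLeft (nat_lit 1) o) ih)
    (fun _ o _ _ _ _ ih => Nat.lor (Nat.shiftLeft (nat_lit 1) o) ih)
    (fun _ _ _ _ ihs ihr => Nat.lor ihs ihr) r

/-- The options of a row are different. -/
def dst (r : Rw Blk) : Bool :=
  Rw.rec (motive := fun _ => Bool) true
    (fun o _ _ _ rest ih => Bool.rec (motive := fun _ => Bool) false ih
      (Nat.beq (Nat.land (Nat.shiftLeft (nat_lit 1) o) (rwM rest)) (nat_lit 0)))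
    (fun _ o _ _ _ rest ih => Bool.rec (motive := fun _ => Bool) false ih
      (Nat.beq (Nat.land (Nat.shiftLeft (nat_lit 1) o) (rwM rest)) (nat_lit 0)))
    (fun _ _ sub rest ihs ihr => Bool.rec (motive := fun _ => Bool) false
      (Bool.rec (motive := fun _ => Bool) false ihr ihs)
      (Nat.beq (Nat.land (rwM sub) (rwM rest)) (nat_lit 0))) r

/-! ### The places of the entries -/

/-- The step from row to row, in binary digits. -/
def tI (x : ℕ) : ℕ :=
  rIf (Nat.beq (fk x) (nat_lit 0)) (Nat.mul (nat_lit 23) (cOf (fk x) (fa x) (fb x))) (nat_lit 23)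

/-- The step from column to column, in binary digits. -/
def tJ (x : ℕ) : ℕ :=
  rIf (Nat.beq (fk x) (nat_lit 0)) (nat_lit 23) (Nat.mul (nat_lit 23) (cOf (fk x) (fa x) (fb x)))

/-- The mask of a row. -/
def uI (x : ℕ) : ℕ :=
  rIf (Nat.beq (fk x) (nat_lit 0)) (Nat.sub (pw23 (fb x)) (nat_lit 1))
    (Pk.smask (nat_lit 22) (cOf (fk x) (fa x) (fb x)) (fb x))

/-- The mask of a column. -/
def uJ (x : ℕ) : ℕ :=
  rIf (Nat.beq (fk x) (nat_lit 0)) (Pk.smask (nat_lit 22) (cOf (fk x) (fa x) (fb x)) (fa x))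
    (Nat.sub (pw23 (fa x)) (nat_lit 1))

/-- The modulus for a row. -/
def vI (x : ℕ) : ℕ :=
  rIf (Nat.beq (fk x) (nat_lit 0)) (pw23 (fb x))
    (Nat.sub (pw23 (cOf (fk x) (fa x) (fb x))) (nat_lit 8388608))

/-- The modulus for a column. -/
def vJ (x : ℕ) : ℕ :=
  rIf (Nat.beq (fk x) (nat_lit 0)) (Nat.sub (pw23 (cOf (fk x) (fa x) (fb x))) (nat_lit 8388608))
    (pw23 (fa x))

/-- The row `i` of a block. -/
def rowV (x M i : ℕ) : ℕ :=
  Nat.mod (Nat.land (Nat.shiftRight M (Nat.mul (tI x) i)) (uI x)) (vI x)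

/-- The column `j` of a block. -/
def colV (x M j : ℕ) : ℕ :=
  Nat.mod (Nat.land (Nat.shiftRight M (Nat.mul (tJ x) j)) (uJ x)) (vJ x)

/-! ### Words of two triangles -/

/-- The constants of a triangle. -/
def cT (k o : ℕ) : ℕ :=
  Nat.add (Nat.add (Nat.mul P.α (lsA k (optA k o))) (Nat.mul (nat_lit 4) P.u)) (P.D k o)

/-- The constants of a triangle, with the weight of the corner. -/
def cW (k o s : ℕ) : ℕ := Nat.add (P.cT k o) (P.ps k o s)

/-- The entry for the triangle `s`; the corner at the other end is `(k', o', s')`. -/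
def caI (k o k' s o' s' : ℕ) (ih : CA) : CA :=
  CA.cons o' (ln k o s) (ln k' o' s')
    (Nat.sub (Nat.add (Nat.add (P.cW k' o' s') (P.nd k o s)) (nat_lit 2097152)) (P.nd k' o' s'))
    s s' ih

/-- The triangles of the pair `(k, o)` before a strip; `k'` is the shape of its other end. -/
def caL (k o k' off n : ℕ) : CA :=
  Nat.rec (motive := fun _ => CA) CA.nil
    (fun i ih => rForce (Nat.add off i) fun s => rForce (Nat.mod (triA k s) (nat_lit 512)) fun o' =>
      rForce (rjA k s) fun s' => P.caI k o k' s o' s' ih) n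

/-- The exponents of the powers of two modulo 523, 16 digits each. -/
def posT : ℕ := nat_lit 0x1050106002401070136002501850108014d01370009002600f5018600550109009f014e00cb013800a4000a00950027016700f6006c018701c10056016d010a013200a001b6014f01ba00cc00140139014700a5015f000b017e0096001c00280000016801c800f70153006d003a018801f401c200c0005700ae016e01cd010b0126013300f200a101be01b7017b015000ab01bb008600cd0089001501e0013a01950148014200a600d0016000e0000c00e9017f01750097008c001d00fc002901a0000000510169001801c901dc00f800d5015401ff006e01e3003b00d90189007401f500c601c3013d00c1011f0058011700af0066016f019801ce0158010c007e012701030134014b00f3009d00a2016501bf013001b80145017c0000015101f200ac012401bc00a90087019300ce00e7008a019e001600d301e10072013b01150196007c01490163014301f000a700e500d10113016100e300e101e7000d01e900ea005d0180000f017601d7009801eb008d01ad001e00ec00fd003f002a005f01a100450000018200520092016a00110019003701ca017801dd00dd00f901d900d6011c0155009a00000190006f01ed01e401d4003c008f00da018d018a01af007500b801f6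002000c701b201c400ee013e004d00c200ff0120007800590041011800b400b0002c006700bb01700061019901a801cf01a3015901f9010d0047007f0030012800000104002301350184014c000800f40054009e00ca00a300940166006b01c0016c013101b501b900130146015e017d001b000001c70152003901f300bf00ad01cc012500f101bd017a00aa0085008801df0194014100cf00df00e80174008b00fb019f0050001701db00d401fe01e200d8007300c5013c011e0116006501970157007d0102014a009c0164012f0144000001f1012300a8019200e6019d00d200710114007b016201ef00e4011200e201e601e8005c000e01d601ea01ac00eb003e005e00440181009100100036017700dc01d8011b0099018f01ec01d3008e018c01ae00b7001f01b100ed004c00fe0077004000b3002b00ba006001a701a201f80046002f0000002201830007005300c90093006a016b01b40012015d001a01c6003800be01cb00f00179008401de014000de017300fa004f01da01fd00d700c4011d006401560101009b012e000001220191019c0070007a01ee011101e5005b01d501ab003d00430090003500db011a018e01d2018b00b601b0004b007600b200b901a601f7002e0021000600c8006901b3015c01c500bd00ef0083013f0172004e01fc00c300630100012d0121019b00790110005a01aa00420034011901d100b5004a00b101a5002d00050068015b00bc0082017101fb0062012c019a010f01a9003301d0004901a40004015a008101fa012b010e0032004800030080012a003100020129000100000000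

/-- The exponent of a power of two. -/
def posB (b : ℕ) : ℕ :=
  Nat.mod (Nat.shiftRight posT (Nat.mul (nat_lit 16) (Nat.mod b (nat_lit 523)))) (nat_lit 65536)

/-- The power `2 ^ 512`. -/
def p512 : ℕ := nat_lit 0x100000000000000000000000000000000000000000000000000000000000000000000000000000000000000000000000000000000000000000000000000000000

/-- The entry for the triangle `s`; the corner at the other end is `(k2, o2, s2)`. -/
def cbI (k o s k2 o2 s2 : ℕ) (ih : CB) : CB :=
  CB.cons (Nat.mod (Nat.shiftRight (rGet (nat_lit 0) m2P k2) (m2Off k2 o2)) p512) k2 o2 (ln k o s)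
    (ln k2 o2 s2)
    (Nat.sub (Nat.add (Nat.add (P.cW k o s) (P.nd k2 o2 s2)) (nat_lit 2228224))
      (Nat.add (P.nd k o s) (Nat.mul (nat_lit 12) P.u))) s s2 ih

/-- The triangles of the pair `(k, o)` after a strip. -/
def cbL (k o off n : ℕ) : CB :=
  Nat.rec (motive := fun _ => CB) CB.nil
    (fun i ih => rForce (Nat.add off i) fun s => rForce (farK k o s) fun k2 =>
      rForce (t3A k s) fun o2 =>
        rForce (rjA (Nat.div (flA k o) (nat_lit 16384)) (rjA k s)) fun s2 =>
          P.cbI k o s k2 o2 s2 ih) n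

/-- The triangles of a pair after a strip. -/
def cbP (k o : ℕ) : CB := P.cbL k o (triOff k o) (nt k o)

/-- The options at the other ends. -/
def caM (l : CA) : ℕ :=
  CA.rec (motive := fun _ => ℕ) (nat_lit 0)
    (fun o _ _ _ _ _ _ ih => Nat.lor (Nat.shiftLeft (nat_lit 1) o) ih) l

/-- The part of the list with the option `o'`. -/
def caG (o' : ℕ) (l : CA) : CA :=
  CA.rec (motive := fun _ => CA) CA.nil
    (fun o l l' th s s' _ ih => rIf (Nat.beq o o') (CA.cons o l l' th s s' ih) ih) l

/-- The words with a given triangle after the strip and a given block at the other end; `r` is the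
sum of the reserves. -/
def ttA (t M c T x' M' c' : ℕ) (r : ℕ → ℕ → ℕ) (l : CA) : Bool :=
  CA.rec (motive := fun _ => Bool) true
    (fun _ l0 l1' th s s' _ ih => Bool.rec (motive := fun _ => Bool) false ih
      (Nat.ble (Nat.add (Nat.add th T) (r s s')) (Nat.add (Nat.add
        (Nat.mod (Nat.shiftRight M (Nat.add (Nat.mul t l0) c)) (nat_lit 8388608))
        (Nat.mod (Nat.shiftRight M' (Nat.add c' (Nat.mul (tJ x') l1'))) (nat_lit 8388608)))
        (nat_lit 4194304)))) l

/-- The words with a given triangle after the strip and the option `o'` at the other end. -/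
def ttO (ca : CA) (t M c T k2 o2 l2 : ℕ) (r : ℕ → ℕ → ℕ → ℕ) (o' : ℕ) : Bool :=
  Option.rec (motive := fun _ => Bool) false
    (fun b => Blk.rec (motive := fun _ => Bool) (fun x' M' =>
      ttA t M c T x' M' (Nat.mul (tI x') l2) (r o') (caG o' ca)) b) (P.att k2 o2 o')

/-- The reserves of the two ends. -/
def rr (k0 o0 k1 o1 k' k2 o2 s1 s2 o' s s' : ℕ) : ℕ :=
  Nat.add (P.rs k0 o0 s k1 o1 s1) (P.rs k2 o2 s2 k' o' s')

/-- All binary digits, from the lowest one up. -/
def bits (f : ℕ → Bool) (n : ℕ) : ℕ → Bool :=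
  Nat.rec (motive := fun _ => ℕ → Bool) (fun x => Nat.beq x (nat_lit 0))
    (fun _ ih x => Bool.rec (motive := fun _ => Bool)
      (rForce (posB (Nat.gcd x p512)) fun i => Bool.rec (motive := fun _ => Bool) false
        (ih (Nat.sub x (Nat.shiftLeft (nat_lit 1) i))) (f i)) true (Nat.beq x (nat_lit 0))) n

/-- The words of two triangles of a block, for the options at the other end from `lim` on. -/
def ttB (k0 o0 k1 o1 k' lim msk : ℕ) (ca : CA) (x M : ℕ) (l : CB) : Bool :=
  CB.rec (motive := fun _ => Bool) true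
    (fun row k2 o2 l1 l2 th s1 s2 _ ih => Bool.rec (motive := fun _ => Bool) false ih
      (bits (P.ttO ca (tI x) M (Nat.mul (tJ x) l1) th k2 o2 l2 (P.rr k0 o0 k1 o1 k' k2 o2 s1 s2))
        (nat_lit 512) (Nat.shiftLeft (Nat.land (Nat.shiftRight row lim) msk) lim))) l

/-! ### A longer face after the strip -/

/-- The need of a longer face. -/
def nB (k o B : ℕ) : ℕ := P.ndl k o (Nat.add (nt k o) B)

/-- The bounds for the kinds `B`, `C` after the strip. -/
def zz (k o B C : ℕ) : ℕ :=
  Nat.sub (Nat.add (P.cB k o (Nat.add (Nat.mul (nat_lit 3) B) C)) (nat_lit 1114112))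
    (Nat.add (Nat.add (P.nB k o B) (Nat.mul (nat_lit 6) P.u)) (Nat.add P.qo (nat_lit 32768)))

/-- The lanes of longer faces for which the kind `C` is possible; `k'` is the shape of the other end
of the next strip. -/
def alB (n k' C : ℕ) : ℕ :=
  Nat.rec (motive := fun _ => ℕ) (nat_lit 0)
    (fun B ih => rIf (mB C k' B)
      (Nat.add ih (Nat.shiftLeft (nat_lit 1) (Nat.mul (nat_lit 23) (Nat.add n B)))) ih) (nat_lit 3)

/-- The lanes for which the kind `C` is possible. -/
def al (n k' C : ℕ) (ca : CA) : ℕ :=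
  CA.rec (motive := fun _ => ℕ) (alB n k' C)
    (fun o' l _ _ _ _ _ ih => rIf (bt (mI C k') o')
      (Nat.add ih (Nat.shiftLeft (nat_lit 1) (Nat.mul (nat_lit 23) l))) ih) ca

/-- The bounds of the longer faces. -/
def xxB (k o n k1 k' κ C : ℕ) : ℕ :=
  Nat.rec (motive := fun _ => ℕ) (nat_lit 0)
    (fun B ih => rIf (mB C k' B)
      (Nat.add ih (Nat.shiftLeft (Nat.add (P.nB k o B)
        (P.psi k1 (Nat.mod (optA k o) (nat_lit 3)) B κ C))
        (Nat.mul (nat_lit 23) (Nat.add n B)))) ih) (nat_lit 3)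

/-- The bound of the lane `l`; the lane at the other end is the lane `l'` of `(k', o')`. -/
def xxI (k o k' κ C o' l l' : ℕ) : ℕ := Nat.add (P.ndl k o l) (P.phL k' o' l' κ C)

/-- The bounds of the lanes for the kinds `κ` and `C` after the strip. -/
def xx (k o n k1 k' κ C : ℕ) (ca : CA) : ℕ :=
  CA.rec (motive := fun _ => ℕ) (P.xxB k o n k1 k' κ C)
    (fun o' l l' _ _ _ _ ih => rIf (bt (mI C k') o')
      (Nat.add ih (Nat.shiftLeft (P.xxI k o k' κ C o' l l') (Nat.mul (nat_lit 23) l))) ih) ca

/-- The check of a column. -/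
def coC (a y X Z A : ℕ) : Bool :=
  vleB (Nat.mul (nat_lit 4194304) (one23 a)) (Nat.add X (Nat.mul Z A)) y

/-- The check of the column of the kind `B`. -/
def coB (k0 o0 n0 k1 k' a κ o1 y B : ℕ) (ca : CA) : Bool :=
  rAllN (fun C => coC a y (P.xx k0 o0 n0 k1 k' κ C ca) (P.zz k1 o1 B C) (al n0 k' C ca)) (nat_lit 3)

/-- The check of the columns of the longer faces. -/
def cols (k0 o0 n0 k1 k' a x M κ n1 o1 : ℕ) (ca : CA) : Bool :=
  rAllN (fun B => rForce (Nat.add (colV x M (Nat.add n1 B)) (Nat.mul (nat_lit 1048576) (one23 a)))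
    fun y => P.coB k0 o0 n0 k1 k' a κ o1 y B ca) (nat_lit 3)

/-! ### A longer face before a triangle -/

/-- The lanes of triangles which may follow the kind `B`. -/
def aa (B : ℕ) (cb : CB) : ℕ :=
  CB.rec (motive := fun _ => ℕ) (nat_lit 0)
    (fun _ k2 o2 l _ _ _ _ _ ih => rIf (mO k2 o2 B)
      (Nat.add ih (Nat.shiftLeft (nat_lit 1) (Nat.mul (nat_lit 23) l))) ih) cb

/-- The bounds of the triangles after the kinds `B` and `κ`. -/
def nph (k o n B κ : ℕ) : ℕ :=
  Nat.add (Nat.add (Nat.mod (Nat.add (P.PG k o) (P.Pn k o)) (pw23 n))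
    (Nat.sub (Nat.mul (Nat.mul (nat_lit 6) P.u) (one23 n)) (Nat.mod (P.PW k o) (pw23 n))))
    (Nat.mod (Nat.shiftRight (P.PH k o) (Nat.mul (nat_lit 23)
      (Nat.mul n (Nat.add (Nat.mul (nat_lit 3) B) κ)))) (pw23 n))

/-- The constant of the triangles. -/
def cc (k o : ℕ) : ℕ := Nat.add (P.cT k o) (nat_lit 98304)

/-- The check of the rows of the longer faces. -/
def rows (k0 o0 n0 x M κ0 k1 o1 n1 : ℕ) : Bool :=
  rAllN (fun B => vleB (Nat.mul (nat_lit 4194304) (one23 (Nat.add n1 (nat_lit 3))))
    (Nat.mul (Nat.add (P.nB k0 o0 B) (P.cc k1 o1)) (aa B (P.cbP k1 o1)))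
    (Nat.add (rowV x M (Nat.add n0 B)) (P.nph k1 o1 n1 B κ0))) (nat_lit 3)

/-! ### The check of a row -/

/-- The check of a block. -/
def bkC (k0 o0 n0 k1 k' κ0 : ℕ) (tt : ℕ → ℕ → ℕ → Bool) (ca : CA) (o1 : ℕ) (b : Blk) : Bool :=
  Blk.rec (motive := fun _ => Bool) (fun x M => rAnd (tt o1 x M)
    (rForce (nt k1 o1) fun n1 => rForce (Nat.mod (optA k1 o1) (nat_lit 3)) fun κ =>
      rAnd (P.cols k0 o0 n0 k1 k' (Nat.add n0 (nat_lit 3)) x M κ n1 o1 ca)
        (P.rows k0 o0 n0 x M κ0 k1 o1 n1))) b

/-- The part with two triangles: only if the shape `k1` is not larger than the shape `k'` of the other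
end. -/
def hlf (k0 o0 k1 k' : ℕ) (ca : CA) (msk : ℕ) : ℕ → ℕ → ℕ → Bool :=
  rIf (Nat.ble k1 k') (rIf (Nat.beq k1 k')
    (fun o1 x M => P.ttB k0 o0 k1 o1 k' o1 (Nat.shiftRight msk o1) ca x M (P.cbP k1 o1))
    (fun o1 x M => P.ttB k0 o0 k1 o1 k' (nat_lit 0) msk ca x M (P.cbP k1 o1)))
    (fun _ _ _ => true)

/-- The check of the triangles before the strip. -/
def prC (k o n k1 k' : ℕ) (ca0 : CA) (l : CA) : Bool :=
  CA.rec (motive := fun _ => Bool) true
    (fun o' l l' _ _ _ _ ih => Bool.rec (motive := fun _ => Bool) false ih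
      (rAnd (Nat.ble (Nat.succ l) n) (rAllN (fun C => rIf (bt (mI C k') o')
        (rAnd (bt (al n k' C ca0) (Nat.mul (nat_lit 23) l))
          (rAllN (fun κ => Nat.ble (P.xxI k o k' κ C o' l l')
            (fd0 (P.xx k o n k1 k' κ C ca0) l)) (nat_lit 3))) true) (nat_lit 3)))) l

/-- The check of the longer faces before the strip. -/
def prD (k o n k1 k' : ℕ) (ca : CA) : Bool :=
  rAllN (fun C => rAnd (rAllN (fun B => rIf (mB C k' B)
      (rAnd (bt (al n k' C ca) (Nat.mul (nat_lit 23) (Nat.add n B)))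
        (rAllN (fun κ => Nat.ble (Nat.add (P.nB k o B)
          (P.psi k1 (Nat.mod (optA k o) (nat_lit 3)) B κ C))
          (fd0 (P.xx k o n k1 k' κ C ca) (Nat.add n B))) (nat_lit 3))) true) (nat_lit 3))
    (rAnd (Nat.beq (Nat.land (al n k' C ca) (one23 (Nat.add n (nat_lit 3)))) (al n k' C ca))
    (rAllN (fun κ => hbB (pw23 (Nat.add n (nat_lit 3))) (mk23 (nat_lit 21) (Nat.add n (nat_lit 3)))
      (P.xx k o n k1 k' κ C ca)) (nat_lit 3)))) (nat_lit 3)

/-- The check of a row; `k1` is the next shape and `k'` its other end. -/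
def rwK (k0 o0 n0 k1 k' : ℕ) (ca : CA) : Bool :=
  rAnd (Nat.beq (Nat.div (rv k1) (nat_lit 24)) k')
  (rAnd (Nat.beq (Nat.land (m2Row k0 o0 (optA k0 o0)) (rwM (P.R k0 o0)))
    (m2Row k0 o0 (optA k0 o0)))
  (rAnd (dst (P.R k0 o0))
  (rAnd (P.prC k0 o0 n0 k1 k' ca ca)
  (rAnd (P.prD k0 o0 n0 k1 k' ca)
  (rForce (Nat.mod (optA k0 o0) (nat_lit 3)) fun κ0 => rForce (caM ca) fun msk =>
    Rw.chk (P.R k0 o0) (fun _ o1 _ b =>
      P.bkC k0 o0 n0 k1 k' κ0 (P.hlf k0 o0 k1 k' ca msk) ca o1 b))))))

/-- The check of a row before a strip of shape `k1`. -/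
def row (k1 k0 o0 : ℕ) : Bool :=
  rIf (Nat.beq (Nat.div (optA k0 o0) (nat_lit 72)) k1)
    (rForce (Nat.div (flA k0 o0) (nat_lit 16384)) fun k' =>
      rForce (triOff k0 o0) fun off => rForce (nt k0 o0) fun n =>
        P.rwK k0 o0 n k1 k' (P.caL k0 o0 k' off n)) true

/-! ### The check of a pair after a strip -/

/-- The check of the triangles after a strip. -/
def prE (n B : ℕ) (cb0 : CB) (l : CB) : Bool :=
  CB.rec (motive := fun _ => Bool) true
    (fun _ k2 o2 l _ _ _ _ _ ih => Bool.rec (motive := fun _ => Bool) false ih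
      (rIf (mO k2 o2 B) (rAnd (Nat.ble (Nat.succ l) n)
        (bt (aa B cb0) (Nat.mul (nat_lit 23) l))) true)) l

/-- The check of a pair after a strip. -/
def prA (k o : ℕ) : Bool :=
  rForce (nt k o) fun n =>
    rAnd (rAllN (fun B => rAnd (prE n B (P.cbP k o) (P.cbP k o))
      (Nat.beq (Nat.land (aa B (P.cbP k o)) (one23 (Nat.add n (nat_lit 3)))) (aa B (P.cbP k o))))
      (nat_lit 3))
    (rAnd (rAllN (fun B => rAllN (fun C => Nat.ble (Nat.succ (P.zz k o B C)) (nat_lit 2097152))
      (nat_lit 3)) (nat_lit 3))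
    (rAnd (Nat.ble (Nat.succ (P.cc k o)) (nat_lit 2097152))
    (rAnd (hbB (pw23 (Nat.add n (nat_lit 3))) (mk23 (nat_lit 19) (Nat.add n (nat_lit 3))) (P.PG k o))
    (rAnd (hbB (pw23 (Nat.add n (nat_lit 3))) (mk23 (nat_lit 15) (Nat.add n (nat_lit 3))) (P.PW k o))
      (hbB (pw23 (Nat.mul (nat_lit 9) n)) (mk23 (nat_lit 16) (Nat.mul (nat_lit 9) n))
        (P.PH k o))))))

/-- The check of the pairs of the shape `k1`. -/
def prK (k1 : ℕ) : Bool := rAllN (P.prA k1) (optN k1)

/-- The check of the bounds for two longer faces. -/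
def psiC : Bool :=
  rAllN (fun k => rAllN (fun a => rAllN (fun b => rAllN (fun c => rAllN (fun d =>
    Nat.ble (nat_lit 65536) (Nat.add (P.psi k a b c d)
      (P.psi (Nat.div (rv k) (nat_lit 24)) d c b a))) (nat_lit 3)) (nat_lit 3)) (nat_lit 3))
      (nat_lit 3)) (nat_lit 101)

end

end AP

end Pool.Agent.Lib.MP_5854e1_co
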