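import Pool.Agent.Lib.MP_5854e1_co.SMap

/-!
# The map of strips of a planar cover of `K_{1,2,2,2}`

The final statements: a discharging rule for the map of strips excludes finite planar covers, or
bounds their number of sheets.
-/

set_option autoImplicit false

open Equiv Equiv.Perm

namespace Pool.Agent.Lib.MP_5854e1_co

namespace Model24

variable {D : Type*} {M : Model24 D}

section relab

variable (g : Perm (Fin 7)) (hg : IsLabAut g)

theorem relab_runList (n : ℕ) : ∀ d : M.ODart, (M.relab g hg).runList d n =
    (M.runList d n).map fun q => (q.1, (g q.2.1, g q.2.2)) := by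
  induction n with
  | zero => intro d; rfl
  | succ n ih =>
    intro d
    have h1 : (M.relab g hg).runList d (n + 1) =
      (((M.relab g hg).kind d.1, (M.relab g hg).kind (M.oin (M.onx d)).1),
        (M.relab g hg).lab (M.onx d).1) :: (M.relab g hg).runList (M.onx d) n := rfl
    rw [h1, ih, relab_kind, relab_kind, relab_lab]
    rfl

variable [Finite D]

theorem relab_strip (f : M.FDart) : (M.relab g hg).strip f = relS g (M.strip f) := by
  have h1 : (M.relab g hg).strip f =
    ((M.relab g hg).lab f.1.1, (M.relab g hg).runList f.1 (M.len f - 1)) := rfl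
  rw [h1, relab_runList, relab_lab]
  rfl

theorem relab_kbef (f : M.FDart) : (M.relab g hg).kbef f = M.kbef f := by
  have h1 : (M.relab g hg).kbef f = (M.relab g hg).kind (M.onx⁻¹ f.1).1 := rfl
  rw [h1, relab_kind]
  rfl

end relab

theorem runList_mem (n : ℕ) : ∀ d : M.ODart, ∀ q ∈ M.runList d n, q.2 ∈ allLab := by
  induction n with
  | zero => intro d q hq; exact absurd hq List.not_mem_nil
  | succ n ih =>
    intro d q hq
    rw [runList, List.mem_cons] at hq
    rcases hq with rfl | hq
    · exact lab_mem _
    · exact ih _ q hq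

variable (M) in
/-- The map of strips. -/
noncomputable def toSMap [Finite D] : SMap M.FDart where
  N := M.nst
  I := M.ist
  S := M.strip
  K := M.kbef
  I_I := ist_ist
  S_I := strip_ist
  lab_mem f := lab_mem f.1.1
  labs_mem f := runList_mem _ _
  len_le f := by
    show (M.runList f.1 (M.len f - 1)).length ≤ 4
    rw [length_runList]
    have := len_le f
    omega
  three f := by
    classical
    have := Fintype.ofFinite D
    exact three_le_period f
  face_ne f h := by
    rw [nst_ist] at h
    exact ofc_ne f.1 (congrArg Subtype.val h)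
  face_face_ne f h := by
    rw [nst_ist, nst_ist] at h
    exact f.2 (congrArg Subtype.val h)
  scan g hg f := by
    classical
    have := Fintype.ofFinite D
    obtain ⟨σ, h1, h2, h3⟩ := scan_strips (M := M.relab g hg) f
    refine ⟨σ, ?_, ?_, ?_⟩
    · rw [← relab_strip g hg]
      exact h1
    · intro i hi
      have := h2 i hi
      rw [relab_strip g hg, relab_kbef g hg] at this
      exact this
    · rw [relab_kbef g hg] at h3
      exact h3
  scanFrom g hg f i hi := by
    classical
    have := Fintype.ofFinite D
    have hi' : i < M.len f := by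
      have h0 : (M.runList f.1 (M.len f - 1)).length = M.len f - 1 := length_runList _ _
      have h1 : (M.strip f).2.length = M.len f - 1 := h0
      have h2 := len_pos f
      omega
    obtain ⟨σ, h1, h2⟩ := scan_strips_from (M := M.relab g hg) f hi'
    refine ⟨σ, ?_, ?_⟩
    · rw [← relab_strip g hg]
      exact h1
    · intro j hj
      have := h2 j hj
      rw [relab_strip g hg, relab_kbef g hg] at this
      exact this

theorem toSMap_face [Finite D] : M.toSMap.face = M.ffc := by
  ext1 f
  exact nst_ist f

theorem card_eq_24 [Finite D] (M : Model24 D) : Nat.card D = 24 * cyc M.nxt := by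
  classical
  have := Fintype.ofFinite D
  have h1 := cyc_eq_sum M.nxt
  rw [Finset.sum_congr rfl (fun d _ => by rw [period_eq_24 (M := M) d]), Finset.sum_const,
    Finset.card_univ, nsmul_eq_mul] at h1
  have h2 : ((Fintype.card D : ℕ) : ℚ) = ((24 * cyc M.nxt : ℕ) : ℚ) := by
    push_cast
    rw [h1]
    push_cast
    ring
  rw [Nat.card_eq_fintype_card]
  exact_mod_cast h2

end Model24

/-- A discharging rule for the map of strips: weights `k` of the corners of the faces and an
arbitrary function `Ψ` of the strip ends such that every cell gets at most `v`. -/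
def SMap.Bound {F : Type*} (T : SMap F) (v : ℚ) : Prop :=
  ∃ k Ψ : F → ℚ,
    (∀ d, 1 ≤ ∑ i ∈ Finset.range (Function.minimalPeriod T.face d), k (T.face^[i] d)) ∧
    ∀ f, 1 + ∑ i ∈ Finset.range (Function.minimalPeriod T.N f),
      (k (T.N^[i] f) - 1 / 2 + (Ψ (T.N^[i] f) - Ψ (T.I (T.N^[i] f)))) ≤ v

theorem Model24.face_le_of_bound {D : Type*} [Finite D] (M : Model24 D) {v : ℚ}
    (h : M.toSMap.Bound v) : (cyc M.face : ℚ) ≤ (11 + v) * cyc M.nxt := by
  classical
  have := Fintype.ofFinite D
  obtain ⟨k, Ψ, h1, h2⟩ := h
  rw [toSMap_face] at h1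
  refine strip_discharge (noNecklace M) k Ψ v (fun d => ?_) (fun f => ?_)
  · have := h1 d
    convert this
  · exact h2 f

section cover

universe u

variable {W : Type u} {H : SimpleGraph W} {φ : W → Fin 7} [Finite W]

open Relation in
/-- Euler's formula for a planar cover. -/
theorem two_le_of_faces [Nonempty W] (hφ : IsCover H K1222 φ) (hH : IsPlanar H) {v : ℚ}
    (h : ∀ M : Model24 (Rim H φ), (cyc M.face : ℚ) ≤ (11 + v) * cyc M.nxt) :
    2 ≤ v * fib φ 0 := by
  classical
  obtain ⟨rot, hrot, heul⟩ := hH
  have := finiteDart (H := H)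
  obtain ⟨v0⟩ := (inferInstance : Nonempty W)
  have hex : ∀ u : Fin 7, ∃ v, K1222.Adj u v := by decide
  have hd : ∀ v : W, ∃ d : H.Dart, d.fst = v := fun v => by
    obtain ⟨y, hy⟩ := hex (φ v)
    obtain ⟨d, hd, -⟩ := hφ.dart_surj v ⟨(φ v, y), hy⟩ rfl
    exact ⟨d, hd⟩
  have hV : Nat.card (Quot fun x y => rot x = y) = Nat.card W := by
    refine Nat.card_congr (Equiv.ofBijective (Quot.lift (fun d : H.Dart => d.fst) ?_) ⟨?_, ?_⟩)
    · intro x y hxy
      rw [← hxy]
      exact (rot_fst rot hrot x).symm
    · intro p q
      induction p using Quot.ind with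
      | mk x =>
      induction q using Quot.ind with
      | mk y =>
        intro hxy
        exact Quot.eqvGen_sound ((eqvGen_iff_sameCycle rot x y).2 ((hrot x y).2 hxy))
    · intro v
      obtain ⟨d, hd⟩ := hd v
      exact ⟨Quot.mk _ d, hd⟩
  have hC : 0 < Nat.card (Quot fun x y => rot x = y ∨ flip H x = y) := by
    obtain ⟨d, -⟩ := hd v0
    have : Nonempty (Quot fun x y => rot x = y ∨ flip H x = y) := ⟨Quot.mk _ d⟩
    exact Nat.card_pos
  have h1 := faces_le hφ rot hrot
  have h2 := h (coverModel hφ rot hrot)
  have h4 := (coverModel hφ rot hrot).card_eq_24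
  rw [card_rim hφ] at h4
  have h3 := card_dart_eq H
  rw [card_dart_36 hφ] at h3
  rw [hV, card_eq_seven hφ] at heul
  have h5 : cyc (coverModel hφ rot hrot).nxt = fib φ 0 := by omega
  rw [h5] at h2
  have h6 : 11 * fib φ 0 + 2 ≤ Nat.card (Quot fun x y => rot (flip H x) = y) := by omega
  have h7 : ((11 * fib φ 0 + 2 : ℕ) : ℚ) ≤ (cyc (coverModel hφ rot hrot).face : ℚ) := by
    exact_mod_cast h6.trans h1
  push_cast at h7
  linarith

/-- **A bound for the number of sheets.** -/
theorem two_le_of_bound {v : ℚ} (hv : ∀ (F : Type u) [Finite F] (T : SMap F), T.Bound v)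
    [Nonempty W] (hφ : IsCover H K1222 φ) (hH : IsPlanar H) : 2 ≤ v * fib φ 0 :=
  two_le_of_faces hφ hH fun M => M.face_le_of_bound (hv _ M.toSMap)

/-- **No planar cover.** -/
theorem no_cover_of_bound (hv : ∀ (F : Type u) [Finite F] (T : SMap F), T.Bound 0)
    [Nonempty W] (hφ : IsCover H K1222 φ) : ¬ IsPlanar H := by
  intro hH
  have := two_le_of_bound hv hφ hH
  norm_num at this

end cover

end Pool.Agent.Lib.MP_5854e1_co
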