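import Pool.Agent.Lib.MP_5854e1_co.SrchMap
import Pool.Agent.Lib.MP_5854e1_co.ToSMap

/-!
# The theorem from the checks of a certificate
-/

set_option autoImplicit false

open Equiv Equiv.Perm

namespace Pool.Agent.Lib.MP_5854e1_co

open Finset PB CE CE.Cell

/-- What the tables of a certificate say about all maps of strips. -/
structure Tabs.MapOK (c : Tabs) (tl : ℕ → ℕ → ℕ) (vx : ℕ → ℕ → ℕ → ℕ → ℕ → ℕ → ℕ)
    (R : ℕ → ℕ → Rw Blk) (Pn Rv : ℕ → ℕ → ℕ) {F : Type*} (T : SMap F) : Prop where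
  anti : ∀ d : F, 0 ≤ T.gz c.G d + T.gz c.G (T.bk d)
  hG : ∀ d : F, T.Tri d → T.Tri (T.N d) → (T.gzN c.gp d : ℤ) - T.gzN c.gm d ≤ T.gz c.G d
  need : ∀ d : F, T.ndt c d ≤ T.ggt c d ∨ T.ndt c d ≤ T.ndt c (T.N d) - T.gz c.V d
  symV : ∀ d : F, T.relab.gz c.V d = T.gz c.V d
  symN : ∀ d : F, T.relab.ndt c d = T.ndt c d
  symG : ∀ d : F, T.relab.ggt c d = T.ggt c d
  hnd : ∀ e : F, T.ndt c e = T.ggt c e + ndF T Pn T.lnT e
  hent : ∀ e : F, ∃ b, (R (T.kx e) (T.ox e)).blk (T.ox (T.N e)) = some b ∧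
      T.gz c.V e + T.ndt c e - T.ndt c (T.N e) + kap0 ≤ (fd b (T.lnT e) (T.lnT (T.N e)) : ℤ)
  hvx : ∀ e : F, ¬T.Tri (T.N e) →
      (vx (T.kx e) (T.ox e) (T.lnT e) (T.kx (T.N e)) (T.ox (T.N e)) (T.rs (T.N e) - 7936) : ℤ) =
        max 0 (T.gz c.V e + T.ndt c e - T.ndt c (T.N e) + kap0)

universe u

/-- **The bound from the checks.** -/
theorem SMap.bound_main {c : Tabs} {tl : ℕ → ℕ → ℕ} {vx : ℕ → ℕ → ℕ → ℕ → ℕ → ℕ → ℕ}
    {R : ℕ → ℕ → Rw Blk} {Pn Rv : ℕ → ℕ → ℕ} (h : c.OK)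
    (hclo : ∀ k0 < 101, cloK R nl Pn Rv k0 = true)
    (htok : rAllN (tokChk c.tr tl) 101 = true) (hsr : SrOK.{u} R nl Pn (evl c tl vx fun _ _ => false))
    {F : Type u} [Finite F] (T : SMap F)
    (hm : ∀ T : SMap F, c.MapOK tl vx R Pn Rv T) : T.Bound (1 - 24 * c.α / (12 * c.u : ℕ)) :=
  T.bound_of_tabs h (fun T => (hm T).anti) (fun T => (hm T).hG) (fun T => (hm T).need)
    (fun T => (hm T).symV) (fun T => (hm T).symN) (fun T => (hm T).symG)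
    fun T d hk _ hpos => by
      obtain ⟨m, h1, h2⟩ := search_sum hclo htok hsr T (hm T).hnd (hm T).hent (hm T).hvx d hk hpos
      rcases h2 with rfl | h2
      · exact_mod_cast h1
      · exact absurd h2 Bool.false_ne_true

section cover

variable {W : Type u} {H : SimpleGraph W} {φ : W → Fin 7} [Finite W]

/-- **The number of sheets from the checks.** -/
theorem sheets_main {c : Tabs} {tl : ℕ → ℕ → ℕ} {vx : ℕ → ℕ → ℕ → ℕ → ℕ → ℕ → ℕ}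
    {R : ℕ → ℕ → Rw Blk} {Pn Rv : ℕ → ℕ → ℕ} (h : c.OK)
    (hclo : ∀ k0 < 101, cloK R nl Pn Rv k0 = true)
    (htok : rAllN (tokChk c.tr tl) 101 = true) (hsr : SrOK.{u} R nl Pn (SMap.evl c tl vx fun _ _ => false))
    (hm : ∀ (F : Type u) (T : SMap F), c.MapOK tl vx R Pn Rv T)
    [Nonempty W] (hφ : IsCover H K1222 φ) (hH : IsPlanar H) :
    (2 : ℚ) ≤ (1 - 24 * c.α / (12 * c.u : ℕ)) * fib φ 0 :=
  two_le_of_bound (fun F _ T => T.bound_main h hclo htok hsr (hm F)) hφ hH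

/-- **No planar cover.** -/
theorem no_cover_main {c : Tabs} {tl : ℕ → ℕ → ℕ} {vx : ℕ → ℕ → ℕ → ℕ → ℕ → ℕ → ℕ}
    {R : ℕ → ℕ → Rw Blk} {Pn Rv : ℕ → ℕ → ℕ} (h : c.OK) (hα : c.u ≤ 2 * c.α)
    (hclo : ∀ k0 < 101, cloK R nl Pn Rv k0 = true)
    (htok : rAllN (tokChk c.tr tl) 101 = true) (hsr : SrOK.{u} R nl Pn (SMap.evl c tl vx fun _ _ => false))
    (hm : ∀ (F : Type u) (T : SMap F), c.MapOK tl vx R Pn Rv T)
    [Nonempty W] (hφ : IsCover H K1222 φ) : ¬ IsPlanar H := by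
  intro hH
  have h1 := sheets_main h hclo htok hsr hm hφ hH
  have hu : (0 : ℚ) < c.u := by exact_mod_cast h.u_pos
  have h2 : (1 : ℚ) - 24 * c.α / (12 * c.u : ℕ) ≤ 0 := by
    have h3 : (c.u : ℚ) ≤ 2 * c.α := by exact_mod_cast hα
    push_cast
    rw [sub_nonpos, le_div_iff₀ (by positivity)]
    linarith
  have h4 : (0 : ℚ) ≤ fib φ 0 := Nat.cast_nonneg _
  nlinarith

end cover

end Pool.Agent.Lib.MP_5854e1_co
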