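import Pool.Agent.Lib.MP_5854e1_co.AntiMap
import Pool.Agent.Lib.MP_5854e1_co.MainThm

/-!
# The tables of a certificate from the tables of the values
-/

set_option autoImplicit false

namespace Pool.Agent.Lib.MP_5854e1_co

open PB

universe u

namespace AP

/-- The tables of a certificate. -/
noncomputable def toTabs (P : AP) (sp : ℕ → ℕ → ℕ → ℕ) (t tw zt rt t4 : DT)
    (tr m q5 : ℕ → ℕ → ℕ) (zm t0 t1 : ℕ) : Tabs where
  u := P.u
  α := P.α
  V := P.V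
  nd := fun k o s => P.nd k o s
  gg := fun k o s => P.gg k o s
  D := P.D
  ps := P.ps
  sp := sp
  gp := P.gp
  gm := P.gm
  t := t
  tw := tw
  zt := zt
  rt := rt
  q := P.q
  w := P.w
  qo := P.qo
  t4 := t4
  tr := tr
  m := m
  q5 := q5
  zm := zm
  t0 := t0
  t1 := t1

variable {P : AP} {sp : ℕ → ℕ → ℕ → ℕ} {t tw zt rt t4 : DT} {tr m q5 : ℕ → ℕ → ℕ} {zm t0 t1 : ℕ}

theorem toTabs_G : (P.toTabs sp t tw zt rt t4 tr m q5 zm t0 t1).G = P.G := rfl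

/-- **The tables of the values and the maps of strips.** -/
theorem mapOK {Rv : ℕ → ℕ → ℕ} (h : P.Chk Rv) (hp : P.psiC = true) (hs : P.Sym)
    {tl : ℕ → ℕ → ℕ} {F : Type*} (T : SMap F) :
    (P.toTabs sp t tw zt rt t4 tr m q5 zm t0 t1).MapOK tl P.vx P.R P.Pn Rv T where
  anti d := by
    rw [toTabs_G]
    exact T.ap_anti h hp d
  hG d h1 h2 := by
    rw [toTabs_G]
    exact T.ap_gw h1 h2
  need d := T.ap_need h d
  symV d := T.relab_gz h hs d
  symN d := by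
    have := T.relab_apn hs d
    show ((T.relab.apn P d : ℕ) : ℤ) = (T.apn P d : ℕ)
    rw [this]
  symG d := by
    have := T.relab_apg hs d
    show ((T.relab.apg P d : ℕ) : ℤ) = (T.apg P d : ℕ)
    rw [this]
  hnd d := by
    show ((T.apn P d : ℕ) : ℤ) = (T.apg P d : ℕ) +
      ((PB.fl 22 (P.Pn (T.kx d) (T.ox d)) (T.lnT d) : ℕ) : ℤ)
    rw [T.apn_eq]
    exact Nat.cast_add _ _
  hent d := by
    obtain ⟨x, M, hb⟩ := T.ap_blk h d
    exact ⟨_, hb, T.ap_le h d hb⟩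
  hvx d h1 := T.ap_vx d h1

variable (P sp t tw zt rt t4 tr m q5 zm t0 t1) in
/-- All checks of a certificate. -/
structure Cert (Rv tl : ℕ → ℕ → ℕ) : Prop where
  ok : (P.toTabs sp t tw zt rt t4 tr m q5 zm t0 t1).OK
  chk : P.Chk Rv
  sym : P.Sym
  psi : P.psiC = true
  tok : rAllN (tokChk tr tl) 101 = true
  sr : SrOK.{u} P.R nl P.Pn
    (SMap.evl (P.toTabs sp t tw zt rt t4 tr m q5 zm t0 t1) tl P.vx fun _ _ => false)

end AP

section cover

variable {W : Type u} {H : SimpleGraph W} {φ : W → Fin 7} [Finite W] {P : AP}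
  {sp : ℕ → ℕ → ℕ → ℕ} {t tw zt rt t4 : DT} {tr m q5 : ℕ → ℕ → ℕ} {zm t0 t1 : ℕ}
  {Rv tl : ℕ → ℕ → ℕ}

/-- **The number of sheets from a certificate.** -/
theorem AP.Cert.sheets (h : AP.Cert.{u} P sp t tw zt rt t4 tr m q5 zm t0 t1 Rv tl) [Nonempty W]
    (hφ : IsCover H K1222 φ) (hH : IsPlanar H) :
    (2 : ℚ) ≤ (1 - 24 * P.α / (12 * P.u : ℕ)) * fib φ 0 :=
  sheets_main (c := P.toTabs sp t tw zt rt t4 tr m q5 zm t0 t1) (tl := tl) (vx := P.vx) (R := P.R)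
    (Pn := P.Pn) (Rv := Rv) h.ok h.chk.clo h.tok h.sr
    (fun _ T => AP.mapOK h.chk h.psi h.sym T) hφ hH

/-- **No planar cover, from a certificate.** -/
theorem AP.Cert.no_cover (h : AP.Cert.{u} P sp t tw zt rt t4 tr m q5 zm t0 t1 Rv tl)
    (hα : P.u ≤ 2 * P.α) [Nonempty W] (hφ : IsCover H K1222 φ) : ¬ IsPlanar H :=
  no_cover_main (c := P.toTabs sp t tw zt rt t4 tr m q5 zm t0 t1) (tl := tl) (vx := P.vx)
    (R := P.R) (Pn := P.Pn) (Rv := Rv) h.ok hα h.chk.clo h.tok h.sr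
    (fun _ T => AP.mapOK h.chk h.psi h.sym T) hφ

end cover

end Pool.Agent.Lib.MP_5854e1_co
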