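import Pool.Agent.Lib.MP_5854e1_co.AntiS5

/-!
# The values of the strips of a map
-/

set_option autoImplicit false

open Equiv Equiv.Perm

namespace Pool.Agent.Lib.MP_5854e1_co

open PB

/-! ### The reflection of the labels -/

namespace AP

noncomputable section

/-- The check of the bounds before longer faces, for a pair. -/
def symP1 (P : AP) (k o : ℕ) : Bool :=
  rIf (sfn k o) (rForce (nt k o) fun n => rAllN (fun j => rForce (Nat.mul n j) fun m =>
      rAllN (fun i => Nat.beq (fd0 (P.PH k o) (Nat.add m (lpm k o i)))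
        (fd0 (P.PH k o) (Nat.add m i))) n) (nat_lit 9))
    (Nat.beq (P.PH (mK k) (mO' k o)) (P.PH k o))

/-- The check of the bounds before longer faces. -/
def symPK (P : AP) (k : ℕ) : Bool := rAllN (fun o => symP1 P k o) (optN k)

/-- The check of the bounds for two longer faces. -/
def symS (P : AP) : Bool := rAllN (fun k => Nat.beq (P.PS (mK k)) (P.PS k)) (nat_lit 101)

/-- The letters of the reflected pairs. -/
def lsaC (k : ℕ) : Bool :=
  rAllN (fun o => Nat.beq (lsA (mK k) (optA (mK k) (mO' k o))) (lsA k (optA k o))) (optN k)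

theorem lsaC_all : rAllN lsaC 101 = true := by decide +kernel

/-- The tables are invariant under the reflection of the labels. -/
structure Sym (P : AP) : Prop where
  blk : ∀ k < 101, symB P.R k = true
  need : ∀ k < 101, symVK P.Pn k = true
  gau : ∀ k < 101, symVK P.PG k = true
  ph : ∀ k < 101, symPK P k = true
  ps : symS P = true
  q : ∀ k < 101, symTK P.q k = true

end

end AP

namespace SMap

variable {F : Type*} (T : SMap F)

theorem lnT_lt_nt {d : F} (h : T.Tri d) : T.lnT d < nt (T.kx d) (T.ox d) := by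
  have key : ∀ T : SMap F, T.Tri d → ln0 (T.kx d) (T.ox d) (T.rs d) < nt (T.kx d) (T.ox d) := by
    intro T h
    unfold ln0
    rw [T.ble_rs_tri h, rIf_false, T.rs_tri h]
    exact (T.px_lt_nt h).1
  unfold lnT ln
  cases hc : cnn (T.kx d) (T.ox d) with
  | true => exact key T h
  | false =>
    have h1 := key T.relab h
    rw [T.relab_kx, T.relab_ox, T.relab_rs] at h1
    have h2 := Nat.eq_of_beq_eq_true
      (rAllN_iff.1 (rAllN_iff.1 ntChk_all _ (T.kx_lt d)) _ (T.ox_lt_optN d))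
    rw [h2] at h1
    exact h1

/-- The ring state of a lane. -/
theorem sl_lnT {d : F} (h : T.Tri d) :
    AP.sl (T.kx d) (T.ox d) (T.lnT d) = T.rs d := by
  unfold AP.sl lnT ln
  cases hc : cnn (T.kx d) (T.ox d) with
  | true =>
    rw [rIf_true, rIf_true]
    unfold ln0
    rw [T.ble_rs_tri h, rIf_false, T.rs_tri h]
    exact Nat.add_sub_cancel' (T.px_lt_nt h).2
  | false =>
    rw [rIf_false, rIf_false]
    have h' : T.relab.Tri d := h
    have h1 := (T.relab.px_lt_nt h').2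
    rw [T.relab_kx, T.relab_ox, T.relab_jx h] at h1
    have e1 : mS (T.kx d) (T.rs d) = mJ (T.kx d) (T.jx d) := by
      rw [← T.relab_rs, T.relab.rs_tri h', T.relab_jx h]
    have e2 : Nat.ble 7936 (mJ (T.kx d) (T.jx d)) = false := by
      rw [← e1, ← T.relab_rs]
      exact T.relab.ble_rs_tri h'
    unfold ln0
    rw [e1, e2, rIf_false, T.rs_tri h]
    have e3 : Nat.add (triOff (mK (T.kx d)) (mO' (T.kx d) (T.ox d)))
        (Nat.sub (mJ (T.kx d) (T.jx d)) (triOff (mK (T.kx d)) (mO' (T.kx d) (T.ox d)))) =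
        mJ (T.kx d) (T.jx d) := Nat.add_sub_cancel' h1
    rw [e3]
    have h2 := T.relab.relab_jx h'
    rw [relab_relab, T.relab_kx, T.relab_jx h] at h2
    exact h2.symm

/-- The indices of a longer face. -/
theorem rs_big' {d : F} (h : ¬T.Tri d) : ∃ B C, B < 3 ∧ C < 3 ∧
    T.rs d = 7936 + (3 * B + C) ∧ B = kc (T.K (T.face (T.N d))) ∧ C = kc (T.K (T.I d)) :=
  ⟨_, _, kc_lt _, kc_lt _, T.rs_big h, rfl, rfl⟩

theorem inTri {d : F} (h : T.Tri d) : InTri (T.kx d) (T.ox d) (T.rs d) := by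
  rw [T.rs_tri h]
  exact ⟨(T.jx_lt h).2, (T.jx_lt h).1⟩

variable {P : AP} {Rv : ℕ → ℕ → ℕ}

/-- **The two ends of a strip.** -/
theorem ap_anti (h : P.Chk Rv) (hp : P.psiC = true) (d : F) :
    0 ≤ T.gz P.G d + T.gz P.G (T.bk d) :=
  T.gz_add_nonneg h.antiTT (AP.antiBB P) (AP.psiOK hp) (AP.antiTB P) h.antiBT d

/-- **The two ends of a strip between two triangles.** -/
theorem ap_tt (h : P.Chk Rv) {d : F} (h0 : T.Tri d) (h1 : T.Tri (T.N d)) :
    (T.gzN P.rs d : ℤ) + T.gzN P.rs (T.bk d) ≤ T.gz P.G d + T.gz P.G (T.bk d) :=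
  T.gz_tt h.antiTT h0 h1

/-- The block of a strip. -/
theorem ap_blk (h : P.Chk Rv) (d : F) : ∃ x M,
    Rw.blk (T.ox (T.N d)) (P.R (T.kx d) (T.ox d)) = some (Blk.mk x M) := by
  obtain ⟨x, M, h1, -⟩ := h.parts (T.wordOK_N d)
  exact ⟨x, M, h1⟩

/-- The need of the corner after a strip. -/
noncomputable def apn (P : AP) (d : F) : ℕ := P.nd (T.kx d) (T.ox d) (T.rs d)

/-- The gauge of the corner after a strip. -/
noncomputable def apg (P : AP) (d : F) : ℕ := P.gg (T.kx d) (T.ox d) (T.rs d)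

/-- The need is the sum of the gauge and of the packed need. -/
theorem apn_eq (P : AP) (d : F) :
    T.apn P d = T.apg P d + PB.fl 22 (P.Pn (T.kx d) (T.ox d)) (T.lnT d) := rfl

/-- The value is at most the entry. -/
theorem ap_le (h : P.Chk Rv) (d : F) {b : Blk}
    (hb : (P.R (T.kx d) (T.ox d)).blk (T.ox (T.N d)) = some b) :
    T.gz P.V d + T.apn P d - T.apn P (T.N d) + kap0 ≤ (fd b (T.lnT d) (T.lnT (T.N d)) : ℤ) := by
  have hk : ((kap0 : ℕ) : ℤ) = 65536 := by norm_num [kap0]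
  have hw := T.wordOK_N d
  have he : P.ent (T.kx d) (T.ox d) (T.rs d) (T.kx (T.N d)) (T.ox (T.N d)) (T.rs (T.N d)) =
      fd b (T.lnT d) (T.lnT (T.N d)) := by
    unfold AP.ent
    rw [hb]
    rfl
  rw [← he, hk]
  unfold apn
  by_cases h1 : T.Tri (T.N d)
  · have hs := (T.rs_lt_iff (T.N d)).2 h1
    unfold gz AP.V
    rw [if_pos hs]
    omega
  · obtain ⟨B, C, hB, hC, e1, -, -⟩ := T.rs_big' h1
    unfold gz
    rw [e1] at hw ⊢
    by_cases h0 : T.Tri d
    · have h2 := h.le_tb hw (T.inTri h0) hB hC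
      omega
    · obtain ⟨B0, C0, hB0, hC0, e0, -, -⟩ := T.rs_big' h0
      rw [e0] at hw ⊢
      have h2 := h.le_bb hw hB0 hC0 hB hC
      omega

/-- The needs. -/
theorem ap_need (h : P.Chk Rv) (d : F) : (T.apn P d : ℤ) ≤ T.apg P d ∨
    (T.apn P d : ℤ) ≤ T.apn P (T.N d) - T.gz P.V d := by
  obtain ⟨x, M, hb⟩ := T.ap_blk h d
  obtain ⟨qs, -, he, -⟩ := blk_at h.clo T d hb
  have h1 := T.ap_le h d hb
  by_cases h0 : PB.fl 22 (P.Pn (T.kx d) (T.ox d)) (T.lnT d) = 0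
  · left
    rw [T.apn_eq, h0, Nat.add_zero]
  · right
    have h2 : PB.fl 22 M (plX x (T.lnT d) (T.lnT (T.N d))) ≤ kap0 :=
      he.need (T.lnT d) (T.lnT_lt d) (Nat.pos_of_ne_zero h0) (T.lnT (T.N d)) (T.lnT_lt (T.N d))
    have h3 : (fd (Blk.mk x M) (T.lnT d) (T.lnT (T.N d)) : ℤ) ≤ (kap0 : ℤ) := by
      exact_mod_cast h2
    omega

/-- The amount moved across a strip between two triangles. -/
theorem ap_gw {d : F} (_ : T.Tri d) (h1 : T.Tri (T.N d)) :
    (T.gzN P.gp d : ℤ) - T.gzN P.gm d ≤ T.gz P.G d := by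
  have hs := (T.rs_lt_iff (T.N d)).2 h1
  unfold gz gzN
  rw [AP.G_tri hs]
  unfold AP.gp AP.gm
  have e : P.cW (T.kx (T.N d)) (T.ox (T.N d)) (T.rs (T.N d)) =
    P.α * lsA (T.kx (T.N d)) (optA (T.kx (T.N d)) (T.ox (T.N d))) + 4 * P.u +
      P.D (T.kx (T.N d)) (T.ox (T.N d)) + P.ps (T.kx (T.N d)) (T.ox (T.N d)) (T.rs (T.N d)) := rfl
  rw [e]
  push_cast
  simp only [Nat.add_eq, Nat.mul_eq]
  push_cast
  linarith

/-- The exact value before a longer face. -/
theorem ap_vx (d : F) (h1 : ¬T.Tri (T.N d)) :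
    (P.vx (T.kx d) (T.ox d) (T.lnT d) (T.kx (T.N d)) (T.ox (T.N d)) (T.rs (T.N d) - 7936) : ℤ) =
      max 0 (T.gz P.V d + T.apn P d - T.apn P (T.N d) + kap0) := by
  have hk : ((kap0 : ℕ) : ℤ) = 65536 := by norm_num [kap0]
  obtain ⟨B, C, hB, hC, e1, -, -⟩ := T.rs_big' h1
  have hk1 := T.kx_lt (T.N d)
  have ho1 := T.ox_lt_optN (T.N d)
  have hnd := AP.nd_big (P := P) hk1 ho1 hB hC
  have hcB := AP.cB_big (P := P) (k1 := T.kx (T.N d)) (o1 := T.ox (T.N d)) (B := B) (C := C)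
  unfold apn
  rw [e1, hk, hnd, AP.sub_7936]
  have ediv : Nat.div (3 * B + C) (nat_lit 3) = B := by
    show (3 * B + C) / 3 = B
    omega
  have emod : Nat.mod (3 * B + C) (nat_lit 3) = C := by
    show (3 * B + C) % 3 = C
    omega
  have e2 : P.vx (T.kx d) (T.ox d) (T.lnT d) (T.kx (T.N d)) (T.ox (T.N d)) (3 * B + C) =
      (P.gx (T.kx d) (T.ox d) (T.lnT d) (T.kx (T.N d)) (T.ox (T.N d)) (3 * B + C) +
        P.cB (T.kx (T.N d)) (T.ox (T.N d)) (3 * B + C) +
        (65536 + P.nd (T.kx d) (T.ox d) (T.rs d))) -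
      (32768 + P.qo + 6 * P.u + P.nB (T.kx (T.N d)) (T.ox (T.N d)) B) := by
    unfold AP.vx
    rw [ediv]
    rfl
  rw [e2]
  have e3 : (P.gx (T.kx d) (T.ox d) (T.lnT d) (T.kx (T.N d)) (T.ox (T.N d)) (3 * B + C) : ℤ) =
      T.gz P.V d - (P.α * lsA (T.kx (T.N d)) (optA (T.kx (T.N d)) (T.ox (T.N d))) - 6 * P.u +
        3 * P.u + P.Y (T.kx (T.N d)) (T.ox (T.N d)) (7936 + (3 * B + C))) + 32768 := by
    unfold gz
    rw [e1]
    unfold AP.gx
    rw [emod]
    by_cases h0 : T.Tri d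
    · have hs := (T.rs_lt_iff d).2 h0
      have hl := T.lnT_lt_nt h0
      have hb : Nat.ble (nt (T.kx d) (T.ox d)) (T.lnT d) = false := by
        rw [Bool.eq_false_iff]
        intro h5
        have := Nat.le_of_ble_eq_true h5
        omega
      rw [hb, rIf_false, rForce_eq, T.sl_lnT h0, AP.ph_big hs hC]
      unfold AP.Phi
      have e4 : AP.kp (T.kx d) (T.ox d) = Nat.div (flA (T.kx d) (T.ox d)) (nat_lit 16384) := rfl
      rw [e4]
      ring
    · obtain ⟨B0, C0, hB0, hC0, e0, -, -⟩ := T.rs_big' h0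
      have hl : T.lnT d = nt (T.kx d) (T.ox d) + B0 := by
        unfold lnT
        rw [e0, AP.ln_big (T.kx_lt d) (T.ox_lt_optN d) hB0 hC0]
      have hb : Nat.ble (nt (T.kx d) (T.ox d)) (T.lnT d) = true := by
        rw [hl]
        exact Nat.ble_eq_true_of_le (Nat.le_add_right _ _)
      rw [hb, rIf_true, e0, AP.ps_big hC0 hC, hl]
      have e5 : Nat.sub (nt (T.kx d) (T.ox d) + B0) (nt (T.kx d) (T.ox d)) = B0 :=
        Nat.add_sub_cancel_left _ _
      rw [e5]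
      unfold AP.Psi
      ring
  omega

/-! ### Reflection -/

theorem relab_lsA (d : F) : lsA (T.relab.kx d) (optA (T.relab.kx d) (T.relab.ox d)) =
    lsA (T.kx d) (optA (T.kx d) (T.ox d)) := by
  rw [T.relab_kx, T.relab_ox]
  exact Nat.eq_of_beq_eq_true
    (rAllN_iff.1 (rAllN_iff.1 AP.lsaC_all _ (T.kx_lt d)) _ (T.ox_lt_optN d))

theorem relab_rs_big {d : F} (h : ¬T.Tri d) : T.relab.rs d = T.rs d := by
  rw [T.relab_rs]
  unfold mS
  rw [T.ble_rs_big h, rIf_true]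

theorem relab_phi (hs : P.Sym) {d : F} (h : T.Tri d) {B κ : ℕ} (hB : B < 3) (hκ : κ < 3) :
    P.phi (T.relab.kx d) (T.relab.ox d) (T.relab.rs d) B κ =
      P.phi (T.kx d) (T.ox d) (T.rs d) B κ := by
  have h1 := rAllN_iff.1 (hs.ph _ (T.kx_lt d)) _ (T.ox_lt_optN d)
  have h2 := Nat.eq_of_beq_eq_true
    (rAllN_iff.1 (rAllN_iff.1 ntChk_all _ (T.kx_lt d)) _ (T.ox_lt_optN d))
  have h3 := T.relab_lnT d
  have hl := T.lnT_lt_nt h
  show fd0 (P.PH (T.relab.kx d) (T.relab.ox d)) (nt (T.relab.kx d) (T.relab.ox d) * (3 * B + κ) +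
    T.relab.lnT d) = fd0 (P.PH (T.kx d) (T.ox d)) (nt (T.kx d) (T.ox d) * (3 * B + κ) + T.lnT d)
  rw [h3, T.relab_kx, T.relab_ox, h2]
  unfold AP.symP1 at h1
  cases h4 : sfn (T.kx d) (T.ox d) with
  | true =>
    rw [h4, rIf_true, rForce_eq] at h1
    obtain ⟨h5, h6⟩ := sfn_iff.1 h4
    rw [h5, h6]
    have h7 := rAllN_iff.1 h1 (3 * B + κ) (show 3 * B + κ < 9 by omega)
    rw [rForce_eq] at h7
    exact Nat.eq_of_beq_eq_true (rAllN_iff.1 h7 _ hl)
  | false =>
    rw [h4, rIf_false] at h1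
    rw [lpm_of_not h4, Nat.eq_of_beq_eq_true h1]

theorem relab_psi (hs : P.Sym) (d : F) (a b c e : ℕ) :
    P.psi (T.relab.kx d) a b c e = P.psi (T.kx d) a b c e := by
  unfold AP.psi
  rw [T.relab_kx, Nat.eq_of_beq_eq_true (rAllN_iff.1 hs.ps _ (T.kx_lt d))]

theorem relab_apg (hs : P.Sym) (d : F) : T.relab.apg P d = T.apg P d :=
  T.relab_vec hs.gau d

theorem relab_apn (hs : P.Sym) (d : F) : T.relab.apn P d = T.apn P d := by
  rw [T.relab.apn_eq, T.apn_eq, T.relab_apg hs]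
  exact congrArg _ (T.relab_vec hs.need d)

/-- The value before a longer face, after a triangle. -/
theorem gz_tb' {d : F} (h0 : T.Tri d) (h1 : ¬T.Tri (T.N d)) : T.gz P.V d =
    P.Phi (T.kx (T.I (T.N d))) (T.ox (T.I (T.N d))) (T.rs (T.I (T.N d)))
      (kc (T.K (T.N (T.N d)))) (kc (T.K (T.I (T.N d)))) +
    P.α * lsA (T.kx (T.N d)) (optA (T.kx (T.N d)) (T.ox (T.N d))) - 6 * P.u + 3 * P.u +
      P.Y (T.kx (T.N d)) (T.ox (T.N d)) (T.rs (T.N d)) := by
  have hs := (T.rs_lt_iff d).2 h0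
  have e1 := T.rs_big h1
  have ht : T.Tri (T.I (T.N d)) := (T.tri_I_N d).2 h0
  unfold gz
  rw [e1, AP.ph_big hs (kc_lt _), T.rs_tri ht, T.rot_k d, T.rot_o h0, T.rot_j h0,
    T.rs_tri h0, ← T.optA_mod3 (T.N d)]
  rfl

/-- The value before a longer face, after a longer face. -/
theorem gz_bb'' {d : F} (h0 : ¬T.Tri d) (h1 : ¬T.Tri (T.N d)) : T.gz P.V d =
    P.Psi (T.kx (T.N d)) (kc (T.K (T.N d))) (kc (T.K (T.face (T.N d))))
      (kc (T.K (T.N (T.N d)))) (kc (T.K (T.I (T.N d)))) +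
    P.α * lsA (T.kx (T.N d)) (optA (T.kx (T.N d)) (T.ox (T.N d))) - 6 * P.u + 3 * P.u +
      P.Y (T.kx (T.N d)) (T.ox (T.N d)) (T.rs (T.N d)) := by
  have e0 := T.rs_big h0
  have e1 := T.rs_big h1
  unfold gz
  rw [e0, e1, AP.ps_big (kc_lt _) (kc_lt _), ← T.optA_mod3 (T.N d), ← T.optA_mod3 d]

/-- **The value in a reflected map.** -/
theorem relab_gz (h : P.Chk Rv) (hs : P.Sym) (d : F) : T.relab.gz P.V d = T.gz P.V d := by
  by_cases h1 : T.Tri (T.N d)
  · have h1' : T.relab.Tri (T.relab.N d) := h1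
    obtain ⟨x, M, hb⟩ := T.ap_blk h d
    obtain ⟨x', M', hb'⟩ := T.relab.ap_blk h d
    have h2 := T.sym_blk hs.blk hb hb'
    have h3 := T.relab_apn hs d
    have h4 := T.relab_apn hs (T.N d)
    have key : ∀ (T : SMap F) (b : Blk), T.Tri (T.N d) →
        (P.R (T.kx d) (T.ox d)).blk (T.ox (T.N d)) = some b →
        T.gz P.V d = (fd b (T.lnT d) (T.lnT (T.N d)) : ℤ) - 65536 - T.apn P d +
          T.apn P (T.N d) := by
      intro T b h1 hb
      have he : P.ent (T.kx d) (T.ox d) (T.rs d) (T.kx (T.N d)) (T.ox (T.N d)) (T.rs (T.N d)) =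
          fd b (T.lnT d) (T.lnT (T.N d)) := by
        unfold AP.ent
        rw [hb]
        rfl
      have hs := (T.rs_lt_iff (T.N d)).2 h1
      unfold gz AP.V apn
      rw [if_pos hs, he]
    rw [key T _ h1 hb, key T.relab _ h1' hb', h3]
    have h5 : T.relab.apn P (T.relab.N d) = T.apn P (T.N d) := h4
    have h6 : fd (Blk.mk x' M') (T.relab.lnT d) (T.relab.lnT (T.relab.N d)) =
      fd (Blk.mk x M) (T.lnT d) (T.lnT (T.N d)) := h2
    rw [h5, h6]
  · have h1' : ¬T.relab.Tri (T.relab.N d) := h1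
    have e1 := T.relab_lsA (T.N d)
    have e2 : P.Y (T.relab.kx (T.N d)) (T.relab.ox (T.N d)) (T.relab.rs (T.N d)) =
        P.Y (T.kx (T.N d)) (T.ox (T.N d)) (T.rs (T.N d)) := by
      have h2 := T.relab_tab hs.q (T.N d)
      have h3 : ¬T.rs (T.N d) < 7936 := fun h => h1 ((T.rs_lt_iff _).1 h)
      rw [T.relab_rs_big h1]
      unfold AP.Y
      rw [if_neg h3, if_neg h3, h2]
    by_cases h0 : T.Tri d
    · have h0' : T.relab.Tri d := h0
      have ht : T.Tri (T.I (T.N d)) := (T.tri_I_N d).2 h0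
      have h2 := T.relab_phi hs ht (kc_lt (T.K (T.N (T.N d)))) (kc_lt (T.K (T.I (T.N d))))
      rw [T.gz_tb' h0 h1, T.relab.gz_tb' h0' h1']
      simp only [relab_N, relab_I, relab_K]
      unfold AP.Phi
      rw [e1, e2, h2]
    · have h0' : ¬T.relab.Tri d := h0
      rw [T.gz_bb'' h0 h1, T.relab.gz_bb'' h0' h1']
      simp only [relab_N, relab_I, relab_K, relab_face]
      unfold AP.Psi
      rw [T.relab_psi hs, e1, e2]

end SMap

end Pool.Agent.Lib.MP_5854e1_co
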