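import Pool.Agent.Lib.MP_5854e1_co.AntiMap

/-!
# The parts of the check of the values
-/

set_option autoImplicit false

namespace Pool.Agent.Lib.MP_5854e1_co

open PB

/-- A part of the check: the next shapes `k1`, the shapes `k0` and the options `o` with
`a ≤ k1 < b`, `c ≤ k0 < d`, `e ≤ o < f`. -/
inductive Un where
  | mk (a b c d e f : ℕ) : Un

namespace AP

noncomputable section

/-- The rows of a part. -/
def runU (P : AP) (u : Un) : Bool :=
  Un.rec (motive := fun _ => Bool) (fun a b c d e f =>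
    rAllN (fun j => rForce (Nat.add c j) fun k0 =>
      rForce (rIf (Nat.ble f (optN k0)) f (optN k0)) fun m =>
      rAllN (fun i => rForce (Nat.add e i) fun o => rForce (Nat.div (optA k0 o) (nat_lit 72)) fun k1 =>
        rIf (Nat.ble a k1) (rIf (Nat.ble (Nat.succ k1) b) (P.row k1 k0 o) true) true)
        (Nat.sub m e)) (Nat.sub d c)) u

/-- The row belongs to a part. -/
def hasU (k1 k0 o : ℕ) (u : Un) : Bool :=
  Un.rec (motive := fun _ => Bool) (fun a b c d e f =>
    rAnd (rAnd (Nat.ble a k1) (Nat.ble (Nat.succ k1) b))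
      (rAnd (rAnd (Nat.ble c k0) (Nat.ble (Nat.succ k0) d))
        (rAnd (Nat.ble e o) (Nat.ble (Nat.succ o) f)))) u

/-- The row belongs to one of the parts. -/
def anyU (k1 k0 o : ℕ) (L : List Un) : Bool :=
  List.rec (motive := fun _ => Bool) false
    (fun u _ ih => Bool.rec (motive := fun _ => Bool) ih true (hasU k1 k0 o u)) L

/-- All rows belong to the parts. -/
def covU (L : List Un) : Bool :=
  rAllN (fun k0 => rAllN (fun o => rForce (Nat.div (optA k0 o) (nat_lit 72)) fun k1 =>
    anyU k1 k0 o L) (optN k0)) (nat_lit 101)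

theorem anyU_sound {k1 k0 o : ℕ} : ∀ {L : List Un}, anyU k1 k0 o L = true →
    ∃ u ∈ L, hasU k1 k0 o u = true := by
  intro L
  induction L with
  | nil => exact fun h => absurd h Bool.false_ne_true
  | cons u L ih =>
    intro h
    have h1 : (Bool.rec (motive := fun _ => Bool) (anyU k1 k0 o L) true (hasU k1 k0 o u)) =
      true := h
    cases hb : hasU k1 k0 o u with
    | true => exact ⟨u, List.mem_cons_self, hb⟩
    | false =>
      rw [hb] at h1
      obtain ⟨v, h2, h3⟩ := ih h1
      exact ⟨v, List.mem_cons_of_mem _ h2, h3⟩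

theorem runU_sound {P : AP} {u : Un} (h : P.runU u = true) {k1 k0 o : ℕ}
    (hu : hasU k1 k0 o u = true) (ho : o < optN k0) (hk : optA k0 o / 72 = k1) :
    P.row k1 k0 o = true := by
  cases u with
  | mk a b c d e f =>
    obtain ⟨h1, h2⟩ := rAnd_iff.1 hu
    obtain ⟨h3, h4⟩ := rAnd_iff.1 h2
    obtain ⟨h5, h6⟩ := rAnd_iff.1 h1
    obtain ⟨h7, h8⟩ := rAnd_iff.1 h3
    obtain ⟨h9, h10⟩ := rAnd_iff.1 h4
    have i7 : c ≤ k0 := Nat.le_of_ble_eq_true h7
    have i8 : k0 < d := Nat.le_of_ble_eq_true h8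
    have i9 : e ≤ o := Nat.le_of_ble_eq_true h9
    have i10 : o < f := Nat.le_of_ble_eq_true h10
    have g1 := rAllN_iff.1 (show rAllN (fun j => rForce (Nat.add c j) fun k0 =>
      rForce (rIf (Nat.ble f (optN k0)) f (optN k0)) fun m =>
      rAllN (fun i => rForce (Nat.add e i) fun o => rForce (Nat.div (optA k0 o) (nat_lit 72)) fun k1 =>
        rIf (Nat.ble a k1) (rIf (Nat.ble (Nat.succ k1) b) (P.row k1 k0 o) true) true)
        (Nat.sub m e)) (Nat.sub d c) = true from h) (k0 - c) (by show k0 - c < d - c; omega)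
    have e1 : Nat.add c (k0 - c) = k0 := Nat.add_sub_cancel' i7
    rw [e1, rForce_eq, rForce_eq] at g1
    have g2 : o < rIf (Nat.ble f (optN k0)) f (optN k0) := by
      cases Nat.ble f (optN k0) with
      | true => exact i10
      | false => exact ho
    have g3 := rAllN_iff.1 g1 (o - e) (by
      show o - e < rIf (Nat.ble f (optN k0)) f (optN k0) - e
      omega)
    have e2 : Nat.add e (o - e) = o := Nat.add_sub_cancel' i9
    rw [e2, rForce_eq, rForce_eq] at g3
    have e3 : Nat.div (optA k0 o) 72 = k1 := hk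
    rw [e3, h5, rIf_true, h6, rIf_true] at g3
    exact g3

/-- **The rows from the parts.** -/
theorem rows_of_parts {P : AP} {L : List Un} (hL : ∀ u ∈ L, P.runU u = true)
    (hc : covU L = true) : ∀ k0 < 101, ∀ o0 < optN k0, P.row (optA k0 o0 / 72) k0 o0 = true := by
  intro k0 hk o0 ho
  have h1 := rAllN_iff.1 (rAllN_iff.1 hc k0 hk) o0 ho
  rw [rForce_eq] at h1
  obtain ⟨u, h2, h3⟩ := anyU_sound h1
  exact runU_sound (hL u h2) h3 ho rfl

/-- A check for all shapes from `a` on. -/
def rgN (f : ℕ → Bool) (a b : ℕ) : Bool :=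
  rAllN (fun i => rForce (Nat.add a i) f) (Nat.sub b a)

theorem rgN_sound {f : ℕ → Bool} {a b : ℕ} (h : rgN f a b = true) {k : ℕ} (h1 : a ≤ k)
    (h2 : k < b) : f k = true := by
  have h3 := rAllN_iff.1 h (k - a) (by show k - a < b - a; omega)
  have e1 : Nat.add a (k - a) = k := Nat.add_sub_cancel' h1
  rwa [e1, rForce_eq] at h3

end

end AP

end Pool.Agent.Lib.MP_5854e1_co
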