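import Pool.Agent.Lib.MP_5854e1_co.AntiChk

/-!
# The lists of the check
-/

set_option autoImplicit false

namespace Pool.Agent.Lib.MP_5854e1_co

open PB

/-! ### Binary digits -/

namespace AP

theorem posB_check : rAllN (fun j => Nat.beq (posB (Nat.pow (nat_lit 2) j)) j) 512 = true := by
  decide +kernel

theorem posB_pow {j : ℕ} (hj : j < 512) : posB (2 ^ j) = j :=
  Nat.eq_of_beq_eq_true (rAllN_iff.1 posB_check j hj)

theorem p512_eq : p512 = 2 ^ 512 := by decide +kernel

theorem posB_gcd {j m : ℕ} (hj : j < 512) : posB (Nat.gcd (2 ^ j * (2 * m + 1)) p512) = j := by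
  have e : p512 = 2 ^ j * 2 ^ (512 - j) := by
    rw [p512_eq, ← pow_add, Nat.add_sub_cancel' hj.le]
  have h1 : Nat.Coprime (2 * m + 1) (2 ^ (512 - j)) :=
    Nat.Coprime.pow_right _ ((Nat.coprime_two_right).2 ⟨m, rfl⟩)
  rw [e, Nat.gcd_mul_left, Nat.Coprime.gcd_eq_one h1, mul_one, posB_pow hj]

theorem bits_sound {f : ℕ → Bool} : ∀ {n x : ℕ}, bits f n x = true → ∀ {i : ℕ}, i < 512 →
    x.testBit i = true → f i = true := by
  intro n
  induction n with
  | zero =>
    intro x h i _ hi
    have h1 : x = 0 := Nat.eq_of_beq_eq_true h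
    rw [h1] at hi
    simp at hi
  | succ n ih =>
    intro x h i hi5 hi
    have h1 : (Bool.rec (motive := fun _ => Bool)
      (rForce (posB (Nat.gcd x p512)) fun i => Bool.rec (motive := fun _ => Bool) false
        (bits f n (Nat.sub x (Nat.shiftLeft (nat_lit 1) i))) (f i)) true
        (Nat.beq x (nat_lit 0))) = true := h
    cases hx : Nat.beq x (nat_lit 0) with
    | true =>
      have h2 : x = 0 := Nat.eq_of_beq_eq_true hx
      rw [h2] at hi
      simp at hi
    | false =>
      rw [hx] at h1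
      simp only [rForce_eq] at h1
      have hx0 : x ≠ 0 := Nat.ne_of_beq_eq_false hx
      obtain ⟨j, y, hy, rfl⟩ := Nat.exists_eq_two_pow_mul_odd hx0
      obtain ⟨m, rfl⟩ := hy
      have hji : j ≤ i := by
        by_contra hcon
        push Not at hcon
        rw [Nat.testBit_two_pow_mul] at hi
        simp at hi
        omega
      have hj5 : j < 512 := lt_of_le_of_lt hji hi5
      rw [posB_gcd hj5] at h1
      cases hf : f j with
      | false => rw [hf] at h1; exact absurd h1 Bool.false_ne_true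
      | true =>
        rw [hf] at h1
        have e1 : Nat.sub (2 ^ j * (2 * m + 1)) (Nat.shiftLeft (nat_lit 1) j) = 2 ^ (j + 1) * m := by
          show 2 ^ j * (2 * m + 1) - 1 <<< j = _
          rw [Nat.one_shiftLeft, pow_succ]
          have : 2 ^ j * (2 * m + 1) = 2 ^ j * 2 * m + 2 ^ j := by ring
          rw [this, Nat.add_sub_cancel]
        by_cases hij : i = j
        · rw [hij]
          exact hf
        · refine ih h1 hi5 ?_
          rw [e1, Nat.testBit_two_pow_mul]
          rw [Nat.testBit_two_pow_mul] at hi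
          have h2 : j + 1 ≤ i := by omega
          simp only [Bool.and_eq_true, decide_eq_true_eq] at hi ⊢
          refine ⟨h2, ?_⟩
          have h3 : i - j = (i - (j + 1)) + 1 := by omega
          rw [h3, Nat.testBit_succ] at hi
          have h4 : (2 * m + 1) / 2 = m := by omega
          rw [h4] at hi
          exact hi.2

end AP

/-! ### Triangles before the strip -/

namespace CA

/-- Membership. -/
def Mem (o l l' th s s' : ℕ) (c : CA) : Prop :=
  CA.rec (motive := fun _ => Prop) False
    (fun o1 l1 l1' th1 s1 s1' _ ih =>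
      (o1 = o ∧ l1 = l ∧ l1' = l' ∧ th1 = th ∧ s1 = s ∧ s1' = s') ∨ ih) c

end CA

namespace AP

theorem mem_caG {o l l' th s s' : ℕ} : ∀ {c : CA}, c.Mem o l l' th s s' →
    (caG o c).Mem o l l' th s s' := by
  intro c
  induction c with
  | nil => exact id
  | cons o1 l1 l1' th1 s1 s1' r ih =>
    intro h
    show (rIf (Nat.beq o1 o) (CA.cons o1 l1 l1' th1 s1 s1' (caG o r)) (caG o r)).Mem o l l' th s s'
    rcases h with ⟨rfl, rfl, rfl, rfl, rfl, rfl⟩ | h
    · rw [Nat.beq_refl]
      exact Or.inl ⟨rfl, rfl, rfl, rfl, rfl, rfl⟩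
    · cases Nat.beq o1 o with
      | true => exact Or.inr (ih h)
      | false => exact ih h

theorem testBit_caM {o l l' th s s' : ℕ} : ∀ {c : CA}, c.Mem o l l' th s s' →
    (caM c).testBit o = true := by
  intro c
  induction c with
  | nil => exact fun h => h.elim
  | cons o1 l1 l1' th1 s1 s1' r ih =>
    intro h
    show (Nat.lor (Nat.shiftLeft (nat_lit 1) o1) (caM r)).testBit o = true
    show ((1 <<< o1) ||| (caM r)).testBit o = true
    rw [Nat.testBit_or]
    rcases h with ⟨rfl, rfl, rfl, rfl, rfl, rfl⟩ | h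
    · rw [Nat.one_shiftLeft, Nat.testBit_two_pow_self, Bool.true_or]
    · rw [ih h, Bool.or_true]

theorem ttA_sound {t M c T x' M' c' o l l' th s s' : ℕ} {f : ℕ → ℕ → ℕ} : ∀ {r : CA},
    ttA t M c T x' M' c' f r = true → r.Mem o l l' th s s' →
    th + T + f s s' ≤
      M >>> (t * l + c) % 8388608 + M' >>> (c' + tJ x' * l') % 8388608 + 4194304 := by
  intro r
  induction r with
  | nil => exact fun _ h => h.elim
  | cons o1 l1 l1' th1 s1 s1' r ih =>
    intro h hm
    have h1 : (Bool.rec (motive := fun _ => Bool) false (ttA t M c T x' M' c' f r)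
      (Nat.ble (Nat.add (Nat.add th1 T) (f s1 s1')) (Nat.add (Nat.add
        (Nat.mod (Nat.shiftRight M (Nat.add (Nat.mul t l1) c)) (nat_lit 8388608))
        (Nat.mod (Nat.shiftRight M' (Nat.add c' (Nat.mul (tJ x') l1'))) (nat_lit 8388608)))
        (nat_lit 4194304)))) = true := h
    cases hb : Nat.ble (Nat.add (Nat.add th1 T) (f s1 s1')) (Nat.add (Nat.add
        (Nat.mod (Nat.shiftRight M (Nat.add (Nat.mul t l1) c)) (nat_lit 8388608))
        (Nat.mod (Nat.shiftRight M' (Nat.add c' (Nat.mul (tJ x') l1'))) (nat_lit 8388608)))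
        (nat_lit 4194304)) with
    | false => rw [hb] at h1; exact absurd h1 Bool.false_ne_true
    | true =>
      rw [hb] at h1
      rcases hm with ⟨rfl, rfl, rfl, rfl, rfl, rfl⟩ | hm
      · exact Nat.le_of_ble_eq_true hb
      · exact ih h1 hm

end AP

/-! ### Triangles after the strip -/

namespace CB

/-- Membership. -/
def Mem (row k2 o2 l l' th s s' : ℕ) (c : CB) : Prop :=
  CB.rec (motive := fun _ => Prop) False
    (fun row1 k3 o3 l1 l1' th1 s1 s1' _ ih =>
      (row1 = row ∧ k3 = k2 ∧ o3 = o2 ∧ l1 = l ∧ l1' = l' ∧ th1 = th ∧ s1 = s ∧ s1' = s') ∨ ih) c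

end CB

namespace AP

variable (P : AP)

theorem ttB_sound {k0 o0 k1 o1 k' lim msk x M : ℕ} {ca : CA} {row k2 o2 l l' th s s' : ℕ} :
    ∀ {c : CB}, P.ttB k0 o0 k1 o1 k' lim msk ca x M c = true → c.Mem row k2 o2 l l' th s s' →
    ∀ {o' : ℕ}, o' < 512 → row.testBit o' = true → lim ≤ o' → msk.testBit (o' - lim) = true →
    P.ttO ca (tI x) M (tJ x * l) th k2 o2 l' (P.rr k0 o0 k1 o1 k' k2 o2 s s') o' = true := by
  intro c
  induction c with
  | nil => exact fun _ h => h.elim
  | cons row1 k3 o3 l1 l1' th1 s1 s1' r ih =>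
    intro h hm o' h0 h1 h2 h3
    have h4 : (Bool.rec (motive := fun _ => Bool) false (P.ttB k0 o0 k1 o1 k' lim msk ca x M r)
      (bits (P.ttO ca (tI x) M (Nat.mul (tJ x) l1) th1 k3 o3 l1'
        (P.rr k0 o0 k1 o1 k' k3 o3 s1 s1')) (nat_lit 512)
        (Nat.shiftLeft (Nat.land (Nat.shiftRight row1 lim) msk) lim))) = true := h
    cases hb : bits (P.ttO ca (tI x) M (Nat.mul (tJ x) l1) th1 k3 o3 l1'
        (P.rr k0 o0 k1 o1 k' k3 o3 s1 s1')) (nat_lit 512)
        (Nat.shiftLeft (Nat.land (Nat.shiftRight row1 lim) msk) lim) with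
    | false => rw [hb] at h4; exact absurd h4 Bool.false_ne_true
    | true =>
      rw [hb] at h4
      rcases hm with ⟨rfl, rfl, rfl, rfl, rfl, rfl, rfl, rfl⟩ | hm
      · refine bits_sound hb h0 ?_
        show (((row1 >>> lim) &&& msk) <<< lim).testBit o' = true
        rw [Nat.testBit_shiftLeft, Nat.testBit_and, Nat.testBit_shiftRight, h3,
          Nat.add_sub_cancel' h2, h1]
        simpa using h2
      · exact ih h4 hm h0 h1 h2 h3

end AP

/-! ### The entries of a row -/

namespace FL

/-- Membership. -/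
def Mem (o : ℕ) (b : Blk) (c : FL) : Prop :=
  FL.rec (motive := fun _ => Prop) False (fun o1 b1 _ ih => (o1 = o ∧ b1 = b) ∨ ih) c

end FL

namespace AP

theorem mem_flat {o : ℕ} {b : Blk} : ∀ {r : Rw Blk} {t : FL}, (flat r t).Mem o b →
    (∃ p k qs, Rw.At r p o k b qs) ∨ t.Mem o b := by
  intro r
  induction r with
  | nil => exact fun h => Or.inr h
  | hit o1 k1 q1 b1 rest ih =>
    intro t h
    rcases (show (o1 = o ∧ b1 = b) ∨ (flat rest t).Mem o b from h) with ⟨rfl, rfl⟩ | h
    · exact Or.inl ⟨_, _, _, Rw.At.hit _ _ _ _ _⟩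
    · rcases ih h with ⟨p, k, qs, h1⟩ | h1
      · exact Or.inl ⟨p, k, qs, Rw.At.hit_rest _ _ _ _ _ h1⟩
      · exact Or.inr h1
  | one c o1 k1 q1 b1 rest ih =>
    intro t h
    rcases (show (o1 = o ∧ b1 = b) ∨ (flat rest t).Mem o b from h) with ⟨rfl, rfl⟩ | h
    · exact Or.inl ⟨_, _, _, Rw.At.one _ _ _ _ _ _⟩
    · rcases ih h with ⟨p, k, qs, h1⟩ | h1
      · exact Or.inl ⟨p, k, qs, Rw.At.one_rest _ _ _ _ _ _ h1⟩
      · exact Or.inr h1
  | tok c q1 sub rest ihs ihr =>
    intro t h
    rcases ihs (show (flat sub (flat rest t)).Mem o b from h) with ⟨p, k, qs, h1⟩ | h1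
    · exact Or.inl ⟨_, k, _, Rw.At.tok _ _ _ _ h1⟩
    · rcases ihr h1 with ⟨p, k, qs, h2⟩ | h2
      · exact Or.inl ⟨p, k, qs, Rw.At.tok_rest _ _ _ _ h2⟩
      · exact Or.inr h2

variable (P : AP)

theorem mem_sfx {k o j o' : ℕ} {b : Blk} (h : (P.sfx k o j).Mem o' b) :
    ∃ p k' qs, Rw.At (P.R k o) p o' k' b qs := by
  induction j with
  | zero =>
    rcases mem_flat (show (flat (P.R k o) FL.nil).Mem o' b from h) with h1 | h1
    · exact h1
    · exact h1.elim
  | succ j ih =>
    have h1 : (FL.rec (motive := fun _ => FL) FL.nil (fun _ _ rest _ => rest)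
      (P.sfx k o j)).Mem o' b := h
    cases hs : P.sfx k o j with
    | nil => rw [hs] at h1; exact h1.elim
    | cons o1 b1 rest =>
      rw [hs] at h1 ih
      exact ih (Or.inr h1)

theorem att_at {k o o' : ℕ} {b : Blk} (h : P.att k o o' = some b) :
    ∃ p k' qs, Rw.At (P.R k o) p o' k' b qs := by
  unfold att at h
  rw [rForce_eq] at h
  generalize Nat.mod (Nat.shiftRight (P.dir k o) (Nat.mul (nat_lit 16) o')) (nat_lit 65536) = j at h
  refine P.mem_sfx (j := j) ?_
  cases hs : P.sfx k o j with
  | nil => rw [hs] at h; exact absurd h (by simp)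
  | cons o1 b1 rest =>
    rw [hs] at h
    have h1 : rIf (Nat.beq o1 o') (some b1) none = some b := h
    cases hb : Nat.beq o1 o' with
    | false => rw [hb] at h1; exact absurd h1 (by simp)
    | true =>
      rw [hb] at h1
      exact Or.inl ⟨Nat.eq_of_beq_eq_true hb, Option.some.inj h1⟩

theorem ttO_sound {ca : CA} {t M c T k2 o2 l2 o' : ℕ} {f : ℕ → ℕ → ℕ → ℕ}
    (h : P.ttO ca t M c T k2 o2 l2 f o' = true) :
    ∃ x' M', (∃ p k' qs, Rw.At (P.R k2 o2) p o' k' (Blk.mk x' M') qs) ∧
      ttA t M c T x' M' (tI x' * l2) (f o') (caG o' ca) = true := by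
  unfold ttO at h
  cases ha : P.att k2 o2 o' with
  | none => rw [ha] at h; exact absurd h Bool.false_ne_true
  | some b =>
    rw [ha] at h
    cases b with
    | mk x' M' => exact ⟨x', M', P.att_at ha, h⟩

/-! ### Different options -/

theorem testBit_rwM {r : Rw Blk} {p : List ℕ} {o k : ℕ} {b : Blk} {qs : List ℕ}
    (h : Rw.At r p o k b qs) : (rwM r).testBit o = true := by
  have key : ∀ a x : ℕ, (Nat.lor (Nat.shiftLeft (nat_lit 1) a) x) = 2 ^ a ||| x := by
    intro a x
    show (1 <<< a) ||| x = _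
    rw [Nat.one_shiftLeft]
  induction h with
  | hit o k q b rest =>
    show (Nat.lor (Nat.shiftLeft (nat_lit 1) o) (rwM rest)).testBit o = true
    rw [key, Nat.testBit_or, Nat.testBit_two_pow_self, Bool.true_or]
  | one c o k q b rest =>
    show (Nat.lor (Nat.shiftLeft (nat_lit 1) o) (rwM rest)).testBit o = true
    rw [key, Nat.testBit_or, Nat.testBit_two_pow_self, Bool.true_or]
  | @tok c q sub rest p o k b qs _ ih =>
    show ((rwM sub) ||| (rwM rest)).testBit o = true
    rw [Nat.testBit_or, ih, Bool.true_or]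
  | @hit_rest o' k' q' b' rest p o k b qs _ ih =>
    show (Nat.lor (Nat.shiftLeft (nat_lit 1) o') (rwM rest)).testBit o = true
    rw [key, Nat.testBit_or, ih, Bool.or_true]
  | @one_rest c' o' k' q' b' rest p o k b qs _ ih =>
    show (Nat.lor (Nat.shiftLeft (nat_lit 1) o') (rwM rest)).testBit o = true
    rw [key, Nat.testBit_or, ih, Bool.or_true]
  | @tok_rest c' q' sub rest p o k b qs _ ih =>
    show ((rwM sub) ||| (rwM rest)).testBit o = true
    rw [Nat.testBit_or, ih, Bool.or_true]

theorem not_both {x y o : ℕ} (h : Nat.beq (Nat.land x y) (nat_lit 0) = true)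
    (hx : x.testBit o = true) (hy : y.testBit o = true) : False := by
  have h1 : x &&& y = 0 := Nat.eq_of_beq_eq_true h
  have h2 : (x &&& y).testBit o = true := by rw [Nat.testBit_and, hx, hy]; rfl
  rw [h1] at h2
  simp at h2

theorem dst_unique : ∀ {r : Rw Blk}, dst r = true → ∀ {p p' : List ℕ} {o k k' : ℕ} {b b' : Blk}
    {qs qs' : List ℕ}, Rw.At r p o k b qs → Rw.At r p' o k' b' qs' → b = b' := by
  intro r
  induction r with
  | nil => intro _ p p' o k k' b b' qs qs' h; cases h
  | hit o1 k1 q1 b1 rest ih =>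
    intro h p p' o k k' b b' qs qs' h1 h2
    have h3 : (Bool.rec (motive := fun _ => Bool) false (dst rest)
      (Nat.beq (Nat.land (Nat.shiftLeft (nat_lit 1) o1) (rwM rest)) (nat_lit 0))) = true := h
    have hbit : (Nat.shiftLeft (nat_lit 1) o1).testBit o1 = true := by
      show (1 <<< o1).testBit o1 = true
      rw [Nat.one_shiftLeft, Nat.testBit_two_pow_self]
    cases hb : Nat.beq (Nat.land (Nat.shiftLeft (nat_lit 1) o1) (rwM rest)) (nat_lit 0) with
    | false => rw [hb] at h3; exact absurd h3 Bool.false_ne_true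
    | true =>
      rw [hb] at h3
      cases h1 with
      | hit =>
        cases h2 with
        | hit => rfl
        | hit_rest _ _ _ _ _ h2 => exact (not_both hb hbit (testBit_rwM h2)).elim
      | hit_rest _ _ _ _ _ h1 =>
        cases h2 with
        | hit => exact (not_both hb hbit (testBit_rwM h1)).elim
        | hit_rest _ _ _ _ _ h2 => exact ih h3 h1 h2
  | one c o1 k1 q1 b1 rest ih =>
    intro h p p' o k k' b b' qs qs' h1 h2
    have h3 : (Bool.rec (motive := fun _ => Bool) false (dst rest)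
      (Nat.beq (Nat.land (Nat.shiftLeft (nat_lit 1) o1) (rwM rest)) (nat_lit 0))) = true := h
    have hbit : (Nat.shiftLeft (nat_lit 1) o1).testBit o1 = true := by
      show (1 <<< o1).testBit o1 = true
      rw [Nat.one_shiftLeft, Nat.testBit_two_pow_self]
    cases hb : Nat.beq (Nat.land (Nat.shiftLeft (nat_lit 1) o1) (rwM rest)) (nat_lit 0) with
    | false => rw [hb] at h3; exact absurd h3 Bool.false_ne_true
    | true =>
      rw [hb] at h3
      cases h1 with
      | one =>
        cases h2 with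
        | one => rfl
        | one_rest _ _ _ _ _ _ h2 => exact (not_both hb hbit (testBit_rwM h2)).elim
      | one_rest _ _ _ _ _ _ h1 =>
        cases h2 with
        | one => exact (not_both hb hbit (testBit_rwM h1)).elim
        | one_rest _ _ _ _ _ _ h2 => exact ih h3 h1 h2
  | tok c q1 sub rest ihs ihr =>
    intro h p p' o k k' b b' qs qs' h1 h2
    have h3 : (Bool.rec (motive := fun _ => Bool) false
      (Bool.rec (motive := fun _ => Bool) false (dst rest) (dst sub))
      (Nat.beq (Nat.land (rwM sub) (rwM rest)) (nat_lit 0))) = true := h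
    cases hb : Nat.beq (Nat.land (rwM sub) (rwM rest)) (nat_lit 0) with
    | false => rw [hb] at h3; exact absurd h3 Bool.false_ne_true
    | true =>
      rw [hb] at h3
      cases hs : dst sub with
      | false => rw [hs] at h3; exact absurd h3 Bool.false_ne_true
      | true =>
        rw [hs] at h3
        cases h1 with
        | tok _ _ _ _ h1 =>
          cases h2 with
          | tok _ _ _ _ h2 => exact ihs hs h1 h2
          | tok_rest _ _ _ _ h2 => exact (not_both hb (testBit_rwM h1) (testBit_rwM h2)).elim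
        | tok_rest _ _ _ _ h1 =>
          cases h2 with
          | tok _ _ _ _ h2 => exact (not_both hb (testBit_rwM h2) (testBit_rwM h1)).elim
          | tok_rest _ _ _ _ h2 => exact ihr h3 h1 h2

/-- An option of the row has an entry. -/
theorem exists_at {r : Rw Blk} {o : ℕ} (h : (rwM r).testBit o = true) :
    ∃ p k b qs, Rw.At r p o k b qs := by
  have key : ∀ a x : ℕ, (Nat.lor (Nat.shiftLeft (nat_lit 1) a) x).testBit o = true →
      a = o ∨ x.testBit o = true := by
    intro a x h
    have h1 : ((1 <<< a) ||| x).testBit o = true := h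
    rw [Nat.testBit_or, Nat.one_shiftLeft, Bool.or_eq_true] at h1
    rcases h1 with h1 | h1
    · by_contra hcon
      push Not at hcon
      rw [Nat.testBit_two_pow_of_ne hcon.1] at h1
      exact absurd h1 (by simp)
    · exact Or.inr h1
  induction r with
  | nil => exact absurd (show (0 : ℕ).testBit o = true from h) (by simp)
  | hit o1 k1 q1 b1 rest ih =>
    rcases key o1 _ h with rfl | h1
    · exact ⟨_, _, _, _, Rw.At.hit _ _ _ _ _⟩
    · obtain ⟨p, k, b, qs, h2⟩ := ih h1
      exact ⟨_, _, _, _, Rw.At.hit_rest _ _ _ _ _ h2⟩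
  | one c o1 k1 q1 b1 rest ih =>
    rcases key o1 _ h with rfl | h1
    · exact ⟨_, _, _, _, Rw.At.one _ _ _ _ _ _⟩
    · obtain ⟨p, k, b, qs, h2⟩ := ih h1
      exact ⟨_, _, _, _, Rw.At.one_rest _ _ _ _ _ _ h2⟩
  | tok c q1 sub rest ihs ihr =>
    have h1 : ((rwM sub) ||| (rwM rest)).testBit o = true := h
    rw [Nat.testBit_or, Bool.or_eq_true] at h1
    rcases h1 with h1 | h1
    · obtain ⟨p, k, b, qs, h2⟩ := ihs h1
      exact ⟨_, _, _, _, Rw.At.tok _ _ _ _ h2⟩
    · obtain ⟨p, k, b, qs, h2⟩ := ihr h1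
      exact ⟨_, _, _, _, Rw.At.tok_rest _ _ _ _ h2⟩

/-- The found block is the one of the entry. -/
theorem blk_of_at {r : Rw Blk} (hd : dst r = true) {p : List ℕ} {o k : ℕ} {b : Blk} {qs : List ℕ}
    (h : Rw.At r p o k b qs) : Rw.blk o r = some b := by
  have key : ∀ (r : Rw Blk) (d : Option Blk), ((∃ p k b qs, Rw.At r p o k b qs) ∨ d ≠ none) →
      Rw.find (fun _ b => some b) o r d ≠ none := by
    intro r
    induction r with
    | nil =>
      rintro d (⟨p, k, b, qs, h⟩ | h)
      · cases h
      · exact h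
    | hit o1 k1 q1 b1 rest ih =>
      intro d h
      show Bool.rec (motive := fun _ => Option Blk) (Rw.find (fun _ b => some b) o rest d)
        (some b1) (Nat.beq o1 o) ≠ none
      cases hb : Nat.beq o1 o with
      | true => exact Option.some_ne_none _
      | false =>
        refine ih d ?_
        rcases h with ⟨p, k, b, qs, h⟩ | h
        · cases h with
          | hit => rw [Nat.beq_refl] at hb; exact absurd hb (by simp)
          | hit_rest _ _ _ _ _ h => exact Or.inl ⟨_, _, _, _, h⟩
        · exact Or.inr h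
    | one c o1 k1 q1 b1 rest ih =>
      intro d h
      show Bool.rec (motive := fun _ => Option Blk) (Rw.find (fun _ b => some b) o rest d)
        (some b1) (Nat.beq o1 o) ≠ none
      cases hb : Nat.beq o1 o with
      | true => exact Option.some_ne_none _
      | false =>
        refine ih d ?_
        rcases h with ⟨p, k, b, qs, h⟩ | h
        · cases h with
          | one => rw [Nat.beq_refl] at hb; exact absurd hb (by simp)
          | one_rest _ _ _ _ _ _ h => exact Or.inl ⟨_, _, _, _, h⟩
        · exact Or.inr h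
    | tok c q1 sub rest ihs ihr =>
      intro d h
      show Rw.find (fun _ b => some b) o sub (Rw.find (fun _ b => some b) o rest d) ≠ none
      refine ihs _ ?_
      rcases h with ⟨p, k, b, qs, h⟩ | h
      · cases h with
        | tok _ _ _ _ h => exact Or.inl ⟨_, _, _, _, h⟩
        | tok_rest _ _ _ _ h => exact Or.inr (ihr _ (Or.inl ⟨_, _, _, _, h⟩))
      · exact Or.inr (ihr _ (Or.inr h))
  have h1 := key r none (Or.inl ⟨p, k, b, qs, h⟩)
  obtain ⟨b', hb'⟩ := Option.ne_none_iff_exists'.1 h1
  have h2 : Rw.blk o r = some b' := hb'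
  obtain ⟨p', k', qs', h3⟩ := Rw.blk_at h2
  rw [h2, dst_unique hd h3 h]

end AP

end Pool.Agent.Lib.MP_5854e1_co
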