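import Pool.Agent.Lib.MP_5854e1_co.AntiS1

/-!
# The rows and the columns of a block, and the items of the lists
-/

set_option autoImplicit false

namespace Pool.Agent.Lib.MP_5854e1_co

open PB

namespace AP

/-! ### Places -/

theorem place (x i j : ℕ) : 23 * plX x i j = tI x * i + tJ x * j := by
  unfold plX pl tI tJ
  cases Nat.beq (fk x) (nat_lit 0) with
  | true =>
    rw [rIf_true, rIf_true, rIf_true]
    show 23 * (cOf (fk x) (fa x) (fb x) * i + j) = 23 * cOf (fk x) (fa x) (fb x) * i + 23 * j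
    ring
  | false =>
    rw [rIf_false, rIf_false, rIf_false]
    show 23 * (cOf (fk x) (fa x) (fb x) * j + i) = 23 * i + 23 * cOf (fk x) (fa x) (fb x) * j
    ring

theorem fl_place (x M i j : ℕ) :
    M >>> (tI x * i + tJ x * j) % 8388608 = PB.fl 22 M (plX x i j) := by
  rw [← place]
  rfl

theorem fk_cases (x : ℕ) : (Nat.beq (fk x) (nat_lit 0) = true ∧ fk x = 0) ∨
    (Nat.beq (fk x) (nat_lit 0) = false ∧ fk x = 1) := by
  cases hk : Nat.beq (fk x) (nat_lit 0) with
  | true => exact Or.inl ⟨rfl, Nat.eq_of_beq_eq_true hk⟩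
  | false =>
    have h1 : fk x ≠ 0 := Nat.ne_of_beq_eq_false hk
    have h2 : fk x < 2 := Nat.mod_lt _ (by norm_num)
    exact Or.inr ⟨rfl, by omega⟩

/-- The row of a block. -/
theorem rowV_rep {x M i : ℕ} (hM : HB 22 (nX x) M (2 ^ 17)) (hi : i < fa x) (hb : 0 < fb x) :
    Pk.Rep 22 (fb x) (rowV x M i) (fun j => PB.fl 22 M (plX x i j)) := by
  have hr := hM.rep
  rcases fk_cases x with ⟨hk, e0⟩ | ⟨hk, e0⟩
  · have hc : fb x ≤ cOf (fk x) (fa x) (fb x) := by
      rw [e0]
      exact (cOf_zero _ _).2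
    have en : nX x = cOf (fk x) (fa x) (fb x) * fa x := by
      unfold nX nOf
      rw [hk, rIf_true]
      rfl
    have ep : ∀ j, plX x i j = cOf (fk x) (fa x) (fb x) * i + j := by
      intro j
      unfold plX pl
      rw [hk, rIf_true]
      rfl
    generalize cOf (fk x) (fa x) (fb x) = c at hc en ep
    have e1 : rowV x M i = Pk.block 22 (cOf (fk x) (fa x) (fb x) * i) (fb x) M := by
      unfold rowV tI uI vI Pk.block
      rw [hk, rIf_true, rIf_true, rIf_true]
      show (M >>> (23 * cOf (fk x) (fa x) (fb x) * i) &&& (2 ^ (23 * fb x) - 1)) %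
        2 ^ (23 * fb x) = M >>> (23 * (cOf (fk x) (fa x) (fb x) * i)) % 2 ^ (23 * fb x)
      rw [Nat.and_two_pow_sub_one_eq_mod, Nat.mod_mod, mul_assoc]
    have e2 : plX x i 0 = cOf (fk x) (fa x) (fb x) * i := by
      unfold plX pl
      rw [hk, rIf_true]
      rfl
    have e3 : cOf (fk x) (fa x) (fb x) * i = c * i := by
      rw [← e2, ep]
      rfl
    rw [e1, e3]
    rw [en] at hr
    have h1 : c * i + fb x ≤ c * fa x := by
      calc c * i + fb x ≤ c * i + c := by omega
        _ = c * (i + 1) := by ring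
        _ ≤ c * fa x := Nat.mul_le_mul_left _ hi
    refine (hr.block h1).congr fun j _ => ?_
    rw [ep]
  · have hc : fb x + 1 ≤ cOf (fk x) (fa x) (fb x) ∧ fa x ≤ cOf (fk x) (fa x) (fb x) := by
      rw [e0]
      exact cOf_succ 0 _ _
    have en : nX x = cOf (fk x) (fa x) (fb x) * fb x := by
      unfold nX nOf
      rw [hk, rIf_false]
      rfl
    have ep : ∀ j, plX x i j = cOf (fk x) (fa x) (fb x) * j + i := by
      intro j
      unfold plX pl
      rw [hk, rIf_false]
      rfl
    have e1 : rowV x M i = Pk.compress 22 (cOf (fk x) (fa x) (fb x))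
        (M >>> (23 * i) &&& Pk.smask 22 (cOf (fk x) (fa x) (fb x)) (fb x)) := by
      unfold rowV tI uI vI Pk.compress
      rw [hk, rIf_false, rIf_false, rIf_false]
      rfl
    rw [e1]
    rw [en] at hr
    generalize cOf (fk x) (fa x) (fb x) = c at hc en ep hr
    have h1 := ((hr.shift0 i).stride (k := c) (m := fb x) (by omega)).compress hc.1 (by omega)
    refine h1.congr fun j hj => ?_
    have h2 : i + c * j < c * fb x := by
      calc i + c * j < c + c * j := by omega
        _ = c * (j + 1) := by ring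
        _ ≤ c * fb x := Nat.mul_le_mul_left _ hj
    rw [if_pos h2, ep, add_comm]

/-- The column of a block. -/
theorem colV_rep {x M j : ℕ} (hM : HB 22 (nX x) M (2 ^ 17)) (hj : j < fb x) (ha : 0 < fa x) :
    Pk.Rep 22 (fa x) (colV x M j) (fun i => PB.fl 22 M (plX x i j)) := by
  have hr := hM.rep
  rcases fk_cases x with ⟨hk, e0⟩ | ⟨hk, e0⟩
  · have hc : fa x + 1 ≤ cOf (fk x) (fa x) (fb x) ∧ fb x ≤ cOf (fk x) (fa x) (fb x) := by
      rw [e0]
      exact cOf_zero _ _
    have en : nX x = cOf (fk x) (fa x) (fb x) * fa x := by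
      unfold nX nOf
      rw [hk, rIf_true]
      rfl
    have ep : ∀ i, plX x i j = cOf (fk x) (fa x) (fb x) * i + j := by
      intro i
      unfold plX pl
      rw [hk, rIf_true]
      rfl
    have e1 : colV x M j = Pk.compress 22 (cOf (fk x) (fa x) (fb x))
        (M >>> (23 * j) &&& Pk.smask 22 (cOf (fk x) (fa x) (fb x)) (fa x)) := by
      unfold colV tJ uJ vJ Pk.compress
      rw [hk, rIf_true, rIf_true, rIf_true]
      rfl
    rw [e1]
    rw [en] at hr
    generalize cOf (fk x) (fa x) (fb x) = c at hc en ep hr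
    have h1 := ((hr.shift0 j).stride (k := c) (m := fa x) (by omega)).compress hc.1 (by omega)
    refine h1.congr fun i hi => ?_
    have h2 : j + c * i < c * fa x := by
      calc j + c * i < c + c * i := by omega
        _ = c * (i + 1) := by ring
        _ ≤ c * fa x := Nat.mul_le_mul_left _ hi
    rw [if_pos h2, ep, add_comm]
  · have hc : fa x ≤ cOf (fk x) (fa x) (fb x) := by
      rw [e0]
      exact (cOf_succ 0 _ _).2
    have en : nX x = cOf (fk x) (fa x) (fb x) * fb x := by
      unfold nX nOf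
      rw [hk, rIf_false]
      rfl
    have ep : ∀ i, plX x i j = cOf (fk x) (fa x) (fb x) * j + i := by
      intro i
      unfold plX pl
      rw [hk, rIf_false]
      rfl
    have e1 : colV x M j = Pk.block 22 (cOf (fk x) (fa x) (fb x) * j) (fa x) M := by
      unfold colV tJ uJ vJ Pk.block
      rw [hk, rIf_false, rIf_false, rIf_false]
      show (M >>> (23 * cOf (fk x) (fa x) (fb x) * j) &&& (2 ^ (23 * fa x) - 1)) %
        2 ^ (23 * fa x) = M >>> (23 * (cOf (fk x) (fa x) (fb x) * j)) % 2 ^ (23 * fa x)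
      rw [Nat.and_two_pow_sub_one_eq_mod, Nat.mod_mod, mul_assoc]
    rw [e1]
    rw [en] at hr
    generalize cOf (fk x) (fa x) (fb x) = c at hc en ep hr
    have h1 : c * j + fa x ≤ c * fb x := by
      calc c * j + fa x ≤ c * j + c := by omega
        _ = c * (j + 1) := by ring
        _ ≤ c * fb x := Nat.mul_le_mul_left _ hj
    refine (hr.block h1).congr fun i _ => ?_
    rw [ep]

/-! ### Masks -/

theorem fl_one_of_bt {n A i : ℕ} (h : HB 22 n A (2 ^ 1)) (hi : i < n) (hb : bt A (23 * i) = true) :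
    PB.fl 22 A i = 1 := by
  have h1 := h.lt i hi
  rw [bt_eq] at hb
  have h2 : (PB.fl 22 A i).testBit 0 = true := by
    show ((A >>> (23 * i)) % 2 ^ 23).testBit 0 = true
    rw [Nat.testBit_mod_two_pow, Nat.testBit_shiftRight, add_zero, hb]
    rfl
  have h3 : PB.fl 22 A i ≠ 0 := by
    intro h4
    rw [h4] at h2
    simp at h2
  omega

/-- A multiple of a mask. -/
theorem mask_rep {n A Z : ℕ} (h : HB 22 n A (2 ^ 1)) (hZ : Z < 2 ^ 22) :
    Pk.Rep 22 n (Z * A) (fun i => Z * PB.fl 22 A i) := by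
  refine ⟨?_, fun i hi => ?_⟩
  · have := h.rep.eq
    conv_lhs => rw [this]
    rw [Pk.pk_mul]
  · have h1 := h.lt i hi
    have h2 : Z * PB.fl 22 A i ≤ Z * 1 := Nat.mul_le_mul_left _ (by omega)
    omega

theorem one_rep {n c : ℕ} (hc : c < 2 ^ 22) : Pk.Rep 22 n (c * one23 n) (fun _ => c) :=
  Pk.Rep.const hc

variable (P : AP)

/-! ### The items of the lists -/

/-- The shape of the other end of the next strip. -/
def kp (k o : ℕ) : ℕ := Nat.div (flA k o) (nat_lit 16384)

theorem caL_succ (k o k' off n : ℕ) : P.caL k o k' off (n + 1) =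
    P.caI k o k' (off + n) (Nat.mod (triA k (off + n)) (nat_lit 512)) (rjA k (off + n))
      (P.caL k o k' off n) := by
  have h : P.caL k o k' off (n + 1) = rForce (off + n) fun s =>
      rForce (Nat.mod (triA k s) (nat_lit 512)) fun o' => rForce (rjA k s) fun s' =>
        P.caI k o k' s o' s' (P.caL k o k' off n) := rfl
  rw [h, rForce_eq, rForce_eq, rForce_eq]

theorem caL_mem {k o k' off : ℕ} : ∀ {n i : ℕ}, i < n →
    (P.caL k o k' off n).Mem (Nat.mod (triA k (off + i)) (nat_lit 512)) (ln k o (off + i))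
      (ln k' (Nat.mod (triA k (off + i)) (nat_lit 512)) (rjA k (off + i)))
      (P.cW k' (Nat.mod (triA k (off + i)) (nat_lit 512)) (rjA k (off + i)) +
        P.nd k o (off + i) + 2097152 -
        P.nd k' (Nat.mod (triA k (off + i)) (nat_lit 512)) (rjA k (off + i)))
      (off + i) (rjA k (off + i)) := by
  intro n
  induction n with
  | zero => intro i hi; exact absurd hi (Nat.not_lt_zero _)
  | succ n ih =>
    intro i hi
    rw [caL_succ]
    rcases Nat.lt_succ_iff_lt_or_eq.1 hi with h | rfl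
    · exact Or.inr (ih h)
    · exact Or.inl ⟨rfl, rfl, rfl, rfl, rfl, rfl⟩

/-- The row of the far end. -/
def rwF (k2 o2 : ℕ) : ℕ :=
  Nat.mod (Nat.shiftRight (rGet (nat_lit 0) m2P k2) (m2Off k2 o2)) p512

theorem cbL_succ (k o off n : ℕ) : P.cbL k o off (n + 1) =
    P.cbI k o (off + n) (farK k o (off + n)) (t3A k (off + n))
      (rjA (Nat.div (flA k o) (nat_lit 16384)) (rjA k (off + n))) (P.cbL k o off n) := by
  have h : P.cbL k o off (n + 1) = rForce (off + n) fun s => rForce (farK k o s) fun k2 =>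
      rForce (t3A k s) fun o2 =>
        rForce (rjA (Nat.div (flA k o) (nat_lit 16384)) (rjA k s)) fun s2 =>
          P.cbI k o s k2 o2 s2 (P.cbL k o off n) := rfl
  rw [h, rForce_eq, rForce_eq, rForce_eq, rForce_eq]

theorem cbL_mem {k o off : ℕ} : ∀ {n i : ℕ}, i < n →
    (P.cbL k o off n).Mem (rwF (farK k o (off + i)) (t3A k (off + i))) (farK k o (off + i))
      (t3A k (off + i)) (ln k o (off + i))
      (ln (farK k o (off + i)) (t3A k (off + i)) (rjA (kp k o) (rjA k (off + i))))
      (P.cW k o (off + i) +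
        P.nd (farK k o (off + i)) (t3A k (off + i)) (rjA (kp k o) (rjA k (off + i))) +
        2228224 - (P.nd k o (off + i) + 12 * P.u)) (off + i)
      (rjA (kp k o) (rjA k (off + i))) := by
  intro n
  induction n with
  | zero => intro i hi; exact absurd hi (Nat.not_lt_zero _)
  | succ n ih =>
    intro i hi
    rw [cbL_succ]
    rcases Nat.lt_succ_iff_lt_or_eq.1 hi with h | rfl
    · exact Or.inr (ih h)
    · exact Or.inl ⟨rfl, rfl, rfl, rfl, rfl, rfl, rfl, rfl⟩

/-- The list of the triangles before the strip. -/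
def caR (k0 o0 : ℕ) : CA := P.caL k0 o0 (kp k0 o0) (triOff k0 o0) (nt k0 o0)

theorem tri_index {k o s : ℕ} (h : InTri k o s) : ∃ i, i < nt k o ∧ triOff k o + i = s := by
  refine ⟨s - triOff k o, ?_, by have := h.1; omega⟩
  show s - triOff k o < triOff k (o + 1) - triOff k o
  have h1 := h.1
  have h2 := h.2
  omega

theorem caR_mem {k0 o0 s : ℕ} (h : InTri k0 o0 s) :
    (P.caR k0 o0).Mem (Nat.mod (triA k0 s) (nat_lit 512)) (ln k0 o0 s)
      (ln (kp k0 o0) (Nat.mod (triA k0 s) (nat_lit 512)) (rjA k0 s))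
      (P.cW (kp k0 o0) (Nat.mod (triA k0 s) (nat_lit 512)) (rjA k0 s) + P.nd k0 o0 s + 2097152 -
        P.nd (kp k0 o0) (Nat.mod (triA k0 s) (nat_lit 512)) (rjA k0 s)) s (rjA k0 s) := by
  obtain ⟨i, h1, rfl⟩ := tri_index h
  exact P.caL_mem h1

theorem cbP_mem {k o s : ℕ} (h : InTri k o s) :
    (P.cbP k o).Mem (rwF (farK k o s) (t3A k s)) (farK k o s) (t3A k s) (ln k o s)
      (ln (farK k o s) (t3A k s) (rjA (kp k o) (rjA k s)))
      (P.cW k o s + P.nd (farK k o s) (t3A k s) (rjA (kp k o) (rjA k s)) +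
        2228224 - (P.nd k o s + 12 * P.u)) s (rjA (kp k o) (rjA k s)) := by
  obtain ⟨i, h1, rfl⟩ := tri_index h
  exact P.cbL_mem h1

end AP

end Pool.Agent.Lib.MP_5854e1_co
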