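import Pool.Agent.Lib.MP_5854e1_co.AntiS2

/-!
# Words of two triangles
-/

set_option autoImplicit false
set_option exponentiation.threshold 1000

namespace Pool.Agent.Lib.MP_5854e1_co

open PB

theorem triOff_lt {k o s : ℕ} (hk : k < 101) (ho : o < optN k) (h : InTri k o s) : s < 7936 := by
  have h2 := Nat.le_of_ble_eq_true (rAllN_iff.1 (rAllN_iff.1 triOff_le_check _ hk) _ ho)
  have h3 := h.2
  have h4 : triOff k (o + 1) ≤ 7717 := h2
  omega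

theorem optNP_lt : optNP < 2 ^ 909 := by decide +kernel

/-- A shape with an option is less than 101. -/
theorem lt_101 {k o : ℕ} (h : o < optN k) : k < 101 := by
  by_contra hcon
  have hk : 101 ≤ k := not_lt.1 hcon
  have h2 : optNP >>> (9 * k) = 0 := by
    rw [Nat.shiftRight_eq_div_pow]
    exact Nat.div_eq_of_lt (lt_of_lt_of_le optNP_lt (Nat.pow_le_pow_right (by norm_num) (by omega)))
  have h3 : optN k = optNP >>> (9 * k) % 512 := rfl
  rw [h3, h2] at h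
  omega

namespace AP

variable (P : AP)

/-! ### A checked row -/

/-- What the check of a row gives. -/
structure RowF (k0 o0 : ℕ) : Prop where
  rev : Nat.div (rv (optA k0 o0 / 72)) (nat_lit 24) = kp k0 o0
  sub : ∀ o1, (m2Row k0 o0 (optA k0 o0)).testBit o1 = true → (rwM (P.R k0 o0)).testBit o1 = true
  dst : dst (P.R k0 o0) = true
  prc : P.prC k0 o0 (nt k0 o0) (optA k0 o0 / 72) (kp k0 o0) (P.caR k0 o0) (P.caR k0 o0) = true
  prd : P.prD k0 o0 (nt k0 o0) (optA k0 o0 / 72) (kp k0 o0) (P.caR k0 o0) = true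
  blk : ∀ {p : List ℕ} {o1 k : ℕ} {b : Blk} {qs : List ℕ}, Rw.At (P.R k0 o0) p o1 k b qs →
    P.bkC k0 o0 (nt k0 o0) (optA k0 o0 / 72) (kp k0 o0) (Nat.mod (optA k0 o0) (nat_lit 3))
      (P.hlf k0 o0 (optA k0 o0 / 72) (kp k0 o0) (P.caR k0 o0) (caM (P.caR k0 o0))) (P.caR k0 o0) o1 b =
        true

variable {P}

theorem rowF_of_row {k0 o0 : ℕ} (h : P.row (optA k0 o0 / 72) k0 o0 = true) : P.RowF k0 o0 := by
  unfold row at h
  have e : Nat.beq (Nat.div (optA k0 o0) (nat_lit 72)) (optA k0 o0 / 72) = true :=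
    Nat.beq_refl _
  rw [e, rIf_true, rForce_eq, rForce_eq, rForce_eq] at h
  obtain ⟨h1, h2⟩ := rAnd_iff.1 h
  obtain ⟨h3, h4⟩ := rAnd_iff.1 h2
  obtain ⟨h5, h6⟩ := rAnd_iff.1 h4
  obtain ⟨h7, h8⟩ := rAnd_iff.1 h6
  obtain ⟨h9, h10⟩ := rAnd_iff.1 h8
  rw [rForce_eq, rForce_eq] at h10
  refine ⟨Nat.eq_of_beq_eq_true h1, fun o1 ho => ?_, h5, h7, h9, fun hat => hat.chk h10⟩
  have e1 : m2Row k0 o0 (optA k0 o0) &&& rwM (P.R k0 o0) = m2Row k0 o0 (optA k0 o0) :=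
    Nat.eq_of_beq_eq_true h3
  rw [← e1, Nat.testBit_and, Bool.and_eq_true] at ho
  exact ho.2

/-- The checks of the rows and of the pairs. -/
structure Chk (P : AP) (Rv : ℕ → ℕ → ℕ) : Prop where
  clo : ∀ k0 < 101, cloK P.R nl P.Pn Rv k0 = true
  row : ∀ k0 < 101, ∀ o0 < optN k0, P.row (optA k0 o0 / 72) k0 o0 = true
  pr : ∀ k < 101, P.prK k = true
  u6 : 6 * P.u ≤ 65536
  u6' : 32768 ≤ 6 * P.u

variable {Rv : ℕ → ℕ → ℕ}

theorem Chk.rowF (h : P.Chk Rv) {k0 o0 : ℕ} (hk : k0 < 101) (ho : o0 < optN k0) :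
    P.RowF k0 o0 := rowF_of_row (h.row _ hk _ ho)

/-- A word has a block. -/
theorem Chk.word (h : P.Chk Rv) {k0 o0 s0 k1 o1 s1 : ℕ} (hw : WordOK k0 o0 s0 k1 o1 s1) : ∃ p k x M qs, Rw.At (P.R k0 o0) p o1 k (Blk.mk x M) qs ∧
      Rw.blk o1 (P.R k0 o0) = some (Blk.mk x M) := by
  obtain ⟨h1, h2, rfl, h4, h5, -⟩ := hw
  have hr := h.rowF h1 h2
  have h6 := bt_m2Row (k := k0) (o := o0) h4
  rw [h5, bt_eq] at h6
  obtain ⟨p, k, b, qs, h7⟩ := exists_at (hr.sub _ h6)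
  cases b with
  | mk x M => exact ⟨p, k, x, M, qs, h7, blk_of_at hr.dst h7⟩

theorem ent_of_blk {k0 o0 s0 k1 o1 s1 x M : ℕ}
    (h : Rw.blk o1 (P.R k0 o0) = some (Blk.mk x M)) :
    P.ent k0 o0 s0 k1 o1 s1 = PB.fl 22 M (plX x (ln k0 o0 s0) (ln k1 o1 s1)) := by
  unfold ent
  rw [h]
  rfl

theorem G_tri {k0 o0 s0 k1 o1 s1 : ℕ} (hs : s1 < 7936) : P.G k0 o0 s0 k1 o1 s1 =
    (P.ent k0 o0 s0 k1 o1 s1 : ℤ) - 65536 - P.nd k0 o0 s0 + P.nd k1 o1 s1 - P.cW k1 o1 s1 +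
      6 * P.u := by
  unfold G V Y Ps
  rw [if_pos hs, if_pos hs, if_pos hs, if_pos hs]
  have e : P.cW k1 o1 s1 = P.α * lsA k1 (optA k1 o1) + 4 * P.u + P.D k1 o1 + P.ps k1 o1 s1 := rfl
  rw [e]
  push_cast
  ring

theorem hlf_sound {k0 o0 k1 k' : ℕ} {ca : CA} {o1 x M : ℕ}
    (h : P.hlf k0 o0 k1 k' ca (caM ca) o1 x M = true)
    {row k2 o2 l l' th s s' o' : ℕ} (hm : (P.cbP k1 o1).Mem row k2 o2 l l' th s s') (ho : o' < 512)
    (hr : row.testBit o' = true) (hmk : (caM ca).testBit o' = true)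
    (hle : k1 < k' ∨ (k1 = k' ∧ o1 ≤ o')) :
    P.ttO ca (tI x) M (tJ x * l) th k2 o2 l' (P.rr k0 o0 k1 o1 k' k2 o2 s s') o' = true := by
  unfold hlf at h
  have e1 : Nat.ble k1 k' = true := Nat.ble_eq_true_of_le (by omega)
  rw [e1, rIf_true] at h
  rcases hle with h1 | ⟨h1, h2⟩
  · have e2 : Nat.beq k1 k' = false := by
      rw [Bool.eq_false_iff]
      intro h3
      have := Nat.eq_of_beq_eq_true h3
      omega
    rw [e2, rIf_false] at h
    exact P.ttB_sound h hm ho hr (Nat.zero_le _) hmk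
  · subst h1
    rw [Nat.beq_refl, rIf_true] at h
    refine P.ttB_sound h hm ho hr h2 ?_
    show ((caM ca) >>> o1).testBit (o' - o1) = true
    rw [Nat.testBit_shiftRight, Nat.add_sub_cancel' h2]
    exact hmk

/-- **Two triangles.** -/
theorem Chk.antiTT (h : P.Chk Rv) : AntiTT P.G P.rs := by
  intro k0 o0 s0 k1 o1 s1 hw ht0 ht1 hw' ht2 ht' hle
  obtain ⟨c1, c2, c3, c4, c5, c6⟩ := hw
  obtain ⟨d1, d2, d3, d4, d5, d6⟩ := hw'
  have hk1 : k1 < 101 := lt_101 c4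
  have hk2 : Nat.div (flA k0 o0) (nat_lit 16384) < 101 := lt_101 d4
  have hs0 := triOff_lt c1 c2 ht0
  have hs1 := triOff_lt hk1 c4 ht1
  have hs' := triOff_lt hk2 d4 ht'
  obtain ⟨p, k, x, M, qs, hat, hblk⟩ := h.word ⟨c1, c2, c3, c4, c5, c6⟩
  subst c3
  have hr := h.rowF c1 c2
  have hb := hr.blk hat
  obtain ⟨hb1, -⟩ := rAnd_iff.1 (show rAnd (P.hlf k0 o0 (optA k0 o0 / 72) (kp k0 o0) (P.caR k0 o0)
    (caM (P.caR k0 o0)) o1 x M) _ = true from hb)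
  have hm := P.cbP_mem ht1
  have hc := P.caR_mem ht0
  have ho : Nat.mod (triA k0 s0) (nat_lit 512) < 512 := Nat.mod_lt _ (by norm_num)
  have hbit : (rwF (farK (optA k0 o0 / 72) o1 s1) (t3A (optA k0 o0 / 72) s1)).testBit
      (Nat.mod (triA k0 s0) (nat_lit 512)) = true := by
    have h1 : farOK k0 s0 (optA k0 o0 / 72) o1 s1 =
        m2 (farK (optA k0 o0 / 72) o1 s1) (t3A (optA k0 o0 / 72) s1)
          (Nat.mod (triA k0 s0) (nat_lit 512)) := by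
      unfold farOK
      rw [ble_false hs1, rIf_false, ble_false hs0, rIf_false]
    rw [c6] at h1
    unfold m2 at h1
    rw [bt_eq] at h1
    unfold rwF
    show (((rGet 0 m2P (farK (optA k0 o0 / 72) o1 s1)) >>>
      m2Off (farK (optA k0 o0 / 72) o1 s1) (t3A (optA k0 o0 / 72) s1)) % p512).testBit _ = true
    rw [p512_eq, Nat.testBit_mod_two_pow, Nat.testBit_shiftRight, decide_eq_true ho,
      Bool.true_and]
    exact h1.symm
  have h1 := hlf_sound hb1 hm ho hbit (testBit_caM hc) hle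
  obtain ⟨x', M', ⟨p', kk, qs', hat'⟩, h2⟩ := P.ttO_sound h1
  have h3 := ttA_sound h2 (mem_caG hc)
  rw [fl_place, fl_place] at h3
  have hblk' := blk_of_at (h.rowF d1 d2).dst hat'
  rw [G_tri hs1, G_tri hs', ent_of_blk hblk, ent_of_blk hblk']
  have e1 : kp k0 o0 = Nat.div (flA k0 o0) (nat_lit 16384) := rfl
  have e2 : kp (optA k0 o0 / 72) o1 = Nat.div (flA (optA k0 o0 / 72) o1) (nat_lit 16384) := rfl
  have e3 : P.rr k0 o0 (optA k0 o0 / 72) o1 (kp k0 o0) (farK (optA k0 o0 / 72) o1 s1)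
      (t3A (optA k0 o0 / 72) s1) s1 (rjA (kp (optA k0 o0 / 72) o1) (rjA (optA k0 o0 / 72) s1))
      (Nat.mod (triA k0 s0) (nat_lit 512)) s0 (rjA k0 s0) =
    P.rs k0 o0 s0 (optA k0 o0 / 72) o1 s1 + P.rs (farK (optA k0 o0 / 72) o1 s1)
      (t3A (optA k0 o0 / 72) s1) (rjA (kp (optA k0 o0 / 72) o1) (rjA (optA k0 o0 / 72) s1))
      (kp k0 o0) (Nat.mod (triA k0 s0) (nat_lit 512)) (rjA k0 s0) := rfl
  rw [e3, e1, e2] at h3
  omega

end AP

end Pool.Agent.Lib.MP_5854e1_co
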