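import Pool.Agent.Lib.MP_5854e1_co.Equiv24

/-!
# The nodes of the automaton of the scanner
-/

set_option autoImplicit false

open Equiv Equiv.Perm

namespace Pool.Agent.Lib.MP_5854e1_co

open Model24 (Kind)

noncomputable section

/-- A node of the automaton: the list of its arcs, the code of the state and the mask of the kinds
of closing corners. The code of an arc is `κ + 3 q`: the kind `κ` of the corner and the index
`q < 24` of the next label in the frame of the last dart. -/
inductive Nd where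
  | fin (code mask : ℕ) : Nd
  | arc (c : ℕ) (child rest : Nd) : Nd

namespace Nd

/-- The code of the state. -/
def code (n : Nd) : ℕ := Nd.rec (motive := fun _ => ℕ) (fun c _ => c) (fun _ _ _ _ ih => ih) n

/-- The mask of the closing kinds. -/
def mask (n : Nd) : ℕ := Nd.rec (motive := fun _ => ℕ) (fun _ m => m) (fun _ _ _ _ ih => ih) n

/-- Follow the arc `c`. -/
def look {α : Type} (fail : α) (ok : Nd → α) (c : ℕ) (n : Nd) : α :=
  Nd.rec (motive := fun _ => α) (fun _ _ => fail)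
    (fun c' child _ _ ih => Bool.rec (motive := fun _ => α) ih (ok child) (Nat.beq c' c)) n

/-- Follow a list of arcs. -/
def go {α : Type} (fail : α) (ok : Nd → α) (l : List ℕ) : Nd → α :=
  List.rec (motive := fun _ => Nd → α) ok (fun c _ ih n => look fail ih c n) l

/-- Follow the arc `c`. -/
def next (n : Nd) (c : ℕ) : Option Nd := look none some c n

/-- Follow a list of arcs. The single steps are closed terms in head position, so that the kernel
evaluates each of them only once. -/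
def run (n : Nd) (l : List ℕ) : Option Nd :=
  List.rec (motive := fun _ => Nd → Option Nd) some
    (fun c _ ih n => Option.rec (motive := fun _ => Option Nd) none ih (next n c)) l n

theorem look_eq {α : Type} (fail : α) (ok : Nd → α) (c : ℕ) (n : Nd) :
    look fail ok c n = match n.next c with
      | none => fail
      | some m => ok m := by
  induction n with
  | fin code mask => rfl
  | arc c' child rest _ ih =>
    show rIf (Nat.beq c' c) (ok child) (look fail ok c rest) =
      match rIf (Nat.beq c' c) (some child) (next rest c) with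
      | none => fail
      | some m => ok m
    cases Nat.beq c' c with
    | true => rfl
    | false => exact ih

theorem run_cons (n : Nd) (c : ℕ) (l : List ℕ) :
    n.run (c :: l) = (n.next c).bind fun m => m.run l := by
  show Option.rec (motive := fun _ => Option Nd) none (fun m => m.run l) (n.next c) = _
  cases n.next c <;> rfl

theorem go_eq {α : Type} (fail : α) (ok : Nd → α) : ∀ (l : List ℕ) (n : Nd),
    go fail ok l n = match n.run l with
      | none => fail
      | some m => ok m := by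
  intro l
  induction l with
  | nil => intro n; rfl
  | cons c l ih =>
    intro n
    rw [run_cons]
    show look fail (go fail ok l) c n = _
    rw [look_eq]
    cases n.next c with
    | none => rfl
    | some m => exact ih m

theorem run_nil (n : Nd) : n.run [] = some n := rfl

theorem run_append (l l' : List ℕ) : ∀ n : Nd, n.run (l ++ l') = (n.run l).bind fun m => m.run l' := by
  induction l with
  | nil => intro n; rfl
  | cons c l ih =>
    intro n
    rw [List.cons_append, run_cons, run_cons]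
    cases n.next c with
    | none => rfl
    | some m => exact ih m

end Nd

/-! ### The check of a node -/

/-- The table of the rotated labels. -/
def rxT : ℕ := 0x539700547a8056ae0055d1808b9a808c77008dce008eb180e15a81195701714e01a95180e237011a3a81aa2e01723180e5c5011ea501ab8501746500e6a8811dc881738881ac688

/-- The table of the rotated masks. -/
def rmT : ℕ := 0xfff9fbebf78f9edfb97ae9f3878eefd9bb6af58b96cf993a68f18386f7e9dbab768d9ad7a95aa972858ae7c99b2a748992c7891a28708182fbf1ebcbb70e9cdbb16ac9b3068cebd1ab4ab50a94cb912a48b10284f3e1cb8b360c98d3a14a89320488e3c18b0a340890c3810a08300080fffafde7ef8f9eefdabd66ed8b96dfba7ce5eb878ecf9a3c64e98386f7eadda76e8d9ae7ca9d266c8992d7aa5ca56a858ac78a1c24688182fbf2edc7af0e9cebd2ad46ad0a94dbb26cc5ab068ccb922c44a90284f3e2cd872e0c98e3c28d062c0890d3a24c852a0488c3820c04280080fffb7eeefdb3e6bf7a7ceaf5a3c67ef97ae6ed93a63e7878e2e58386f7eb5eae7cb1e2b76a5caa74a1c276e95aa66c91a2366858a2648182fbf36ecebd32e4bb726ccab522c47af16ac6ad12a43a7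068c2a50284f3e34e8e3c30e0b3624c8a3420c072e14a862c10a032604882240080fffbbf6dfbb3e67ef9bb65eb93a6bf7abd69f3a3c63e78b961e38386f7eb9f2d7ab1e276e99b256a91a2b76a9d2972a1c236689921628182fbf3af4dbb32e47af1ab45ab12a4bb72ad49b322c43a70a941a30284f3e38f0d3a30e072e18b052a10a0b3628d093220c032608901220080fffafde7ef8f9edfba7ce5eb878eefdabd66ed8b96cf9a3c64e98386fbf2edc7af0e9cdbb26cc5ab068cebd2ad46ad0a94cb922c44a90284f7eadda76e8d9ad7aa5ca56a858ae7ca9d266c8992c78a1c24688182f3e2cd872e0c98d3a24c852a0488e3c28d062c0890c3820c04280080fff9fbebf78f9eefd9bb6af58b96dfb97ae9f3878ecf993a68f18386fbf1ebcbb70e9cebd1ab4ab50a94dbb16ac9b3068ccb912a48b10284f7e9dbab768d9ae7c99b2a748992d7a95aa972858ac7891a28708182f3e1cb8b360c98e3c18b0a340890d3a14a89320488c3810a08300080fffb7eeefdb3e67ef97ae6ed93a6bf7a7ceaf5a3c63e7878e2e58386fbf36ecebd32e47af16ac6ad12a4bb726ccab522c43a7068c2a50284f7eb5eae7cb1e276e95aa66c91a2b76a5caa74a1c2366858a2648182f3e34e8e3c30e072e14a862c10a0b3624c8a3420c032604882240080fffbbf6dfbb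3e6bf7abd69f3a3c67ef9bb65eb93a63e78b961e38386fbf3af4dbb32e4bb72ad49b322c47af1ab45ab12a43a70a941a30284f7eb9f2d7ab1e2b76a9d2972a1c276e99b256a91a236689921628182f3e38f0d3a30e0b3628d093220c072e18b052a10a032608901220080fffafde7ef8f9ef7eadda76e8d9afbf2edc7af0e9cf3e2cd872e0c98dfba7ce5eb878ed7aa5ca56a858adbb26cc5ab068cd3a24c852a0488efdabd66ed8b96e7ca9d266c8992ebd2ad46ad0a94e3c28d062c0890cf9a3c64e98386c78a1c24688182cb922c44a90284c3820c04280080fff9fbebf78f9ef7e9dbab768d9afbf1ebcbb70e9cf3e1cb8b360c98efd9bb6af58b96e7c99b2a748992ebd1ab4ab50a94e3c18b0a340890dfb97ae9f3878ed7a95aa972858adbb16ac9b3068cd3a14a89320488cf993a68f18386c7891a28708182cb912a48b10284c3810a08300080fffb7eeefdb3e6f7eb5eae7cb1e2fbf36ecebd32e4f3e34e8e3c30e07ef97ae6ed93a676e95aa66c91a27af16ac6ad12a472e14a862c10a0bf7a7ceaf5a3c6b76a5caa74a1c2bb726ccab522c4b3624c8a3420c03e7878e2e58386366858a26481823a7068c2a5028432604882240080fffbbf6dfbb3e6f7eb9f2d7ab1e2fbf3af4dbb32e4f3e38f0d3a30e0bf7abd69f3a3c6b76a9d2972a1c2bb72a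d49b322c4b3628d093220c07ef9bb65eb93a676e99b256a91a27af1ab45ab12a472e18b052a10a03e78b961e38386366899216281823a70a941a3028432608901220080fff9fbebf78f9efbf1ebcbb70e9cf7e9dbab768d9af3e1cb8b360c98dfb97ae9f3878edbb16ac9b3068cd7a95aa972858ad3a14a89320488efd9bb6af58b96ebd1ab4ab50a94e7c99b2a748992e3c18b0a340890cf993a68f18386cb912a48b10284c7891a28708182c3810a08300080fffafde7ef8f9efbf2edc7af0e9cf7eadda76e8d9af3e2cd872e0c98efdabd66ed8b96ebd2ad46ad0a94e7ca9d266c8992e3c28d062c0890dfba7ce5eb878edbb26cc5ab068cd7aa5ca56a858ad3a24c852a0488cf9a3c64e98386cb922c44a90284c78a1c24688182c3820c04280080fffb7eeefdb3e6fbf36ecebd32e4f7eb5eae7cb1e2f3e34e8e3c30e0bf7a7ceaf5a3c6bb726ccab522c4b76a5caa74a1c2b3624c8a3420c07ef97ae6ed93a67af16ac6ad12a476e95aa66c91a272e14a862c10a03e7878e2e583863a7068c2a50284366858a264818232604882240080fffbbf6dfbb3e6fbf3af4dbb32e4f7eb9f2d7ab1e2f3e38f0d3a30e07ef9bb65eb93a67af1ab45ab12a476e99b256a91a272e18b052a10a0bf7abd69f3a3c6bb72ad49b322c4b76a9d2972a1c2b3628d093220c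03e78b961e383863a70a941a302843668992162818232608901220080fffbdfafbf3cf87ef9dba7af1cb8bf7addabb72cd83e78d9a3a70c98dfbb5eadbb34e85eb95aa5ab14a89f3a5ca9b324c81e3858a1a30488efdb9f2ebd38f06ed99b26ad18b0af5a9d2ab528d02e589922a50890cf9b1e2cb930e04e991a24a910a08f1a1c28b120c00e181820a10080fffbdfafbf3cf8bf7addabb72cd87ef9dba7af1cb83e78d9a3a70c98efdb9f2ebd38f0af5a9d2ab528d06ed99b26ad18b02e589922a50890dfbb5eadbb34e89f3a5ca9b324c85eb95aa5ab14a81e3858a1a30488cf9b1e2cb930e08f1a1c28b120c04e991a24a910a00e181820a10080fffbdfafbf3cf8dfbb5eadbb34e8efdb9f2ebd38f0cf9b1e2cb930e0bf7addabb72cd89f3a5ca9b324c8af5a9d2ab528d08f1a1c28b120c07ef9dba7af1cb85eb95aa5ab14a86ed99b26ad18b04e991a24a910a03e78d9a3a70c981e3858a1a304882e589922a508900e181820a10080fffbdfafbf3cf8efdb9f2ebd38f0dfbb5eadbb34e8cf9b1e2cb930e07ef9dba7af1cb86ed99b26ad18b05eb95aa5ab14a84e991a24a910a0bf7addabb72cd8af5a9d2ab528d09f3a5ca9b324c88f1a1c28b120c03e78d9a3a70c982e589922a508901e3858a1a304880e181820a10080fffbefcf7ebcf8bf7aedc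b76acd87ef9ebc76e9cb83e78e9c3668c98dfbb6ecd7ab4e89f3a6cc972a4c85eb96ac56a94a81e3868c1628488efdbaf4e7cb8f0af5aad4a74a8d06ed9ab466c98b02e58a942648890cf9b2e4c78b0e08f1a2c4870a0c04e992a446890a00e182840608080fffbefcf7ebcf87ef9ebc76e9cb8bf7aedcb76acd83e78e9c3668c98efdbaf4e7cb8f06ed9ab466c98b0af5aad4a74a8d02e58a942648890dfbb6ecd7ab4e85eb96ac56a94a89f3a6cc972a4c81e3868c1628488cf9b2e4c78b0e04e992a446890a08f1a2c4870a0c00e182840608080fffbefcf7ebcf8dfbb6ecd7ab4e8efdbaf4e7cb8f0cf9b2e4c78b0e07ef9ebc76e9cb85eb96ac56a94a86ed9ab466c98b04e992a446890a0bf7aedcb76acd89f3a6cc972a4c8af5aad4a74a8d08f1a2c4870a0c03e78e9c3668c981e3868c16284882e58a9426488900e182840608080fffbefcf7ebcf8efdbaf4e7cb8f0dfbb6ecd7ab4e8cf9b2e4c78b0e0bf7aedcb76acd8af5aad4a74a8d09f3a6cc972a4c88f1a2c4870a0c07ef9ebc76e9cb86ed9ab466c98b05eb96ac56a94a84e992a446890a03e78e9c3668c982e58a9426488901e3868c16284880e182840608080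

/-- The image of `x` under the rotation of the label of index `q`. -/
def rxN (q x : ℕ) : ℕ :=
  Nat.mod (Nat.shiftRight rxT (Nat.mul (nat_lit 3) (Nat.add (Nat.mul (nat_lit 8) q) x))) (nat_lit 8)

/-- The image of the mask `m` under the rotation of the label of index `q`. -/
def rmN (q m : ℕ) : ℕ :=
  Nat.mod (Nat.shiftRight rmT (Nat.mul (nat_lit 7) (Nat.add (Nat.mul (nat_lit 128) q) m)))
    (nat_lit 128)

theorem rxN_eq : ∀ q < 24, ∀ x : Fin 7, rxN q x.val = (nrm (lbl q) x).val := by decide +kernel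

theorem rmN_eq : ∀ q < 24, ∀ m < 128, rmN q m = relM (nrm (lbl q)) m := by decide +kernel

/-- The code of the state with code `r + 1` in the frame of the label of index `q`. -/
def rnC (q r : ℕ) : ℕ :=
  pkS (rxN q (Nat.mod (Nat.div r (nat_lit 2)) (nat_lit 8)))
    (rxN q (Nat.mod (Nat.div r (nat_lit 16)) (nat_lit 8)))
    (Nat.mod (Nat.div r (nat_lit 128)) (nat_lit 4))
    (rmN q (Nat.mod (Nat.div r (nat_lit 512)) (nat_lit 128)))
    (rmN q (Nat.mod (Nat.div r (nat_lit 65536)) (nat_lit 128)))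
    (rmN q (Nat.div r (nat_lit 8388608)))

theorem encS_eq (σ : Sc) : encS σ = 2 * (σ.x0.val + 8 * (σ.cur.val + 8 * (σ.ph + 4 * (σ.nb +
    128 * (σ.vis + 128 * σ.m0))))) + 1 := rfl

theorem rnC_eq {q : ℕ} (hq : q < 24) {σ : Sc} (hσ : σ.Bdd) {r : ℕ} (hr : encS σ = r + 1) :
    rnC q r = encS (relSc (nrm (lbl q)) σ) := by
  have h3 := σ.x0.isLt
  have h4 := σ.cur.isLt
  have h5 := hσ.m0
  have h6 := hσ.ph
  have h7 := hσ.vis
  have h8 := hσ.nb
  rw [encS_eq] at hr
  have a1 : r / 2 % 8 = σ.x0.val := by omega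
  have a2 : r / 16 % 8 = σ.cur.val := by omega
  have a3 : r / 128 % 4 = σ.ph := by omega
  have a4 : r / 512 % 128 = σ.nb := by omega
  have a5 : r / 65536 % 128 = σ.vis := by omega
  have a6 : r / 8388608 = σ.m0 := by omega
  have key : rnC q r = pkS (rxN q (r / 2 % 8)) (rxN q (r / 16 % 8)) (r / 128 % 4)
    (rmN q (r / 512 % 128)) (rmN q (r / 65536 % 128)) (rmN q (r / 8388608)) := rfl
  rw [key, a1, a2, a3, a4, a5, a6, rxN_eq q hq, rxN_eq q hq, rmN_eq q hq _ h8, rmN_eq q hq _ h7,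
    rmN_eq q hq _ h5]
  rfl

/-- The check of one arc code `t` of the node `n`; `r` is the code of the next state. -/
def chkR (n : Nd) (t r : ℕ) : Bool :=
  Nat.rec (motive := fun _ => Bool) true
    (fun r' _ => n.look false (fun m => Nat.beq m.code (rnC (Nat.div t (nat_lit 3)) r')) t) r

/-- Evaluate a number before it is used. -/
def rForce {α : Type} (x : ℕ) (f : ℕ → α) : α :=
  Nat.rec (motive := fun _ => α) (f (nat_lit 0)) (fun n _ => f (Nat.succ n)) x

theorem rForce_eq {α : Type} (x : ℕ) (f : ℕ → α) : rForce x f = f x := by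
  cases x <;> rfl

/-- The labels, grouped by their first letter, with their indices. -/
def grp : List (ℕ × List (ℕ × ℕ)) :=
  [(1, [(0, 3), (1, 4), (2, 5), (3, 6)]), (2, [(4, 3), (5, 4), (6, 5), (7, 6)]),
   (3, [(8, 1), (9, 2), (10, 5), (11, 6)]), (4, [(12, 1), (13, 2), (14, 5), (15, 6)]),
   (5, [(16, 1), (17, 2), (18, 3), (19, 4)]), (6, [(20, 1), (21, 2), (22, 3), (23, 4)])]

theorem grp_spec : ∀ q < 24, ∃ g ∈ grp, g.1 = (lbl q).1.val ∧ (q, (lbl q).2.val) ∈ g.2 := by
  decide +kernel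

/-- No `S` corner is possible. -/
def skS (ph cur nb : ℕ) : Bool :=
  rAnd (Nat.beq ph (nat_lit 1)) (rIf (Nat.beq nb (nbmN cur)) false true)

/-- No `E` corner to the block of `x` is possible. -/
def skE (x ph cur nb : ℕ) : Bool :=
  rIf (bt (nbmN cur) x) (rIf (bt nb x) true (rAnd (Nat.beq ph (nat_lit 1))
    (rIf (Nat.beq (Nat.lor nb (Nat.pow (nat_lit 2) x)) (nbmN cur)) false true))) true

/-- The check of the arcs to the labels with first letter `x`. -/
def chkX (n : Nd) (x0 cur ph nb vis m0 x : ℕ) (l : List (ℕ × ℕ)) : Bool :=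
  rAnd (rIf (Nat.beq x cur) (rAll (fun u => chkR n (Nat.mul (nat_lit 3) u.1)
    (fP x u.2 x0 cur ph nb vis m0)) l) true)
  (rForce (fEnter x x0 ph vis) fun e => rIf (Nat.beq e (nat_lit 0)) true
    (rAnd (rIf (skE x ph cur nb) true (rAll (fun u => chkR n (Nat.succ (Nat.mul (nat_lit 3) u.1))
        (fE e x u.2 x0 cur ph nb vis m0)) l))
      (rIf (skS ph cur nb) true (rAll (fun u => chkR n (Nat.succ (Nat.succ (Nat.mul (nat_lit 3)
        u.1))) (fS e x u.2 x0 cur ph nb vis m0)) l))))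

/-- The state closes with a corner of kind `P`. -/
def fClP (x0 ph nb m0 : ℕ) : Bool :=
  rAnd (Nat.beq ph (nat_lit 2)) (Nat.beq (Nat.lor nb m0) (nbmN x0))

/-- The state closes with a corner of kind `S`. -/
def fClS (x0 cur ph nb vis m0 : ℕ) : Bool :=
  rAnd (Nat.beq ph (nat_lit 1)) (rAnd (Nat.beq vis (nat_lit 126)) (rAnd (Nat.beq nb (nbmN cur))
    (Nat.beq m0 (nbmN x0))))

/-- The state closes with a corner of kind `E`. -/
def fClE (x0 cur ph nb vis m0 : ℕ) : Bool :=
  rAnd (Nat.beq ph (nat_lit 1)) (rAnd (Nat.beq vis (nat_lit 126)) (rAnd (bt (nbmN cur) x0)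
    (rAnd (rIf (bt nb x0) false true) (rAnd (rIf (bt m0 cur) false true)
      (rAnd (Nat.beq (Nat.lor nb (Nat.pow (nat_lit 2) x0)) (nbmN cur))
        (Nat.beq (Nat.lor m0 (Nat.pow (nat_lit 2) cur)) (nbmN x0)))))))

/-- The check of the mask of the closing kinds. -/
def chkM (M x0 cur ph nb vis m0 : ℕ) : Bool :=
  rAnd (rIf (fClP x0 ph nb m0) (bt M (nat_lit 0)) true)
    (rAnd (rIf (fClE x0 cur ph nb vis m0) (bt M (nat_lit 1)) true)
      (rIf (fClS x0 cur ph nb vis m0) (bt M (nat_lit 2)) true))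

/-- The check of a node, on the fields of its code. -/
def chkF (n : Nd) (x0 cur ph nb vis m0 : ℕ) : Bool :=
  rAnd (chkM n.mask x0 cur ph nb vis m0)
    (rAll (fun g => chkX n x0 cur ph nb vis m0 g.1 g.2) grp)

/-- The check of a node. -/
def chkN (n : Nd) : Bool :=
  rForce n.code fun c => rForce (Nat.mod (Nat.div c (nat_lit 2)) (nat_lit 8)) fun x0 =>
    rForce (Nat.mod (Nat.div c (nat_lit 16)) (nat_lit 8)) fun cur =>
      rForce (Nat.mod (Nat.div c (nat_lit 128)) (nat_lit 4)) fun ph =>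
        rForce (Nat.mod (Nat.div c (nat_lit 512)) (nat_lit 128)) fun nb =>
          rForce (Nat.mod (Nat.div c (nat_lit 65536)) (nat_lit 128)) fun vis =>
            rForce (Nat.div c (nat_lit 8388608)) fun m0 => chkF n x0 cur ph nb vis m0

theorem chkN_eq {n : Nd} {σ : Sc} (hσ : σ.Bdd) (hc : n.code = encS σ) :
    chkN n = chkF n σ.x0.val σ.cur.val σ.ph σ.nb σ.vis σ.m0 := by
  have h3 := σ.x0.isLt
  have h4 := σ.cur.isLt
  have h5 := hσ.m0
  have h6 := hσ.ph
  have h7 := hσ.vis
  have h8 := hσ.nb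
  have e := encS_eq σ
  have a1 : encS σ / 2 % 8 = σ.x0.val := by omega
  have a2 : encS σ / 16 % 8 = σ.cur.val := by omega
  have a3 : encS σ / 128 % 4 = σ.ph := by omega
  have a4 : encS σ / 512 % 128 = σ.nb := by omega
  have a5 : encS σ / 65536 % 128 = σ.vis := by omega
  have a6 : encS σ / 8388608 = σ.m0 := by omega
  unfold chkN
  rw [rForce_eq, rForce_eq, rForce_eq, rForce_eq, rForce_eq, rForce_eq, rForce_eq, hc]
  show chkF n (encS σ / 2 % 8) (encS σ / 16 % 8) (encS σ / 128 % 4) (encS σ / 512 % 128)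
    (encS σ / 65536 % 128) (encS σ / 8388608) = _
  rw [a1, a2, a3, a4, a5, a6]

theorem chkR_zero (n : Nd) (t : ℕ) : chkR n t 0 = true := rfl

/-- The check covers all arcs. -/
theorem chkR_of_chkF {n : Nd} {x0 cur ph nb vis m0 : ℕ} (h : chkF n x0 cur ph nb vis m0 = true)
    {κ : Kind} {q : ℕ} (hq : q < 24) :
    chkR n (kc κ + 3 * q) (fStepF (kcd κ) (lbl q).1.val (lbl q).2.val x0 cur ph nb vis m0) =
      true := by
  obtain ⟨-, h1⟩ := rAnd_iff.1 h
  obtain ⟨g, hg, e1, e2⟩ := grp_spec q hq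
  have h2 : chkX n x0 cur ph nb vis m0 g.1 g.2 = true := rAll_iff.1 h1 g hg
  rw [e1] at h2
  obtain ⟨h3, h4⟩ := rAnd_iff.1 h2
  rw [rForce_eq] at h4
  cases κ with
  | P =>
    show chkR n (0 + 3 * q) (fP (lbl q).1.val (lbl q).2.val x0 cur ph nb vis m0) = true
    rw [Nat.zero_add]
    cases hb : Nat.beq (lbl q).1.val cur with
    | false =>
      have : fP (lbl q).1.val (lbl q).2.val x0 cur ph nb vis m0 = 0 := by
        unfold fP
        rw [hb]
        rfl
      rw [this]
      rfl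
    | true =>
      rw [hb] at h3
      exact rAll_iff.1 h3 _ e2
  | E =>
    show chkR n (1 + 3 * q) (fE (fEnter (lbl q).1.val x0 ph vis) (lbl q).1.val (lbl q).2.val x0 cur
      ph nb vis m0) = true
    cases hb : Nat.beq (fEnter (lbl q).1.val x0 ph vis) 0 with
    | true =>
      have : fE (fEnter (lbl q).1.val x0 ph vis) (lbl q).1.val (lbl q).2.val x0 cur ph nb vis
          m0 = 0 := by
        unfold fE
        rw [hb]
        rfl
      rw [this]
      rfl
    | false =>
      rw [hb] at h4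
      obtain ⟨h5, -⟩ := rAnd_iff.1 h4
      cases hs : skE (lbl q).1.val ph cur nb with
      | true =>
        have : fE (fEnter (lbl q).1.val x0 ph vis) (lbl q).1.val (lbl q).2.val x0 cur ph nb vis
            m0 = 0 := by
          unfold fE
          unfold skE at hs
          rw [hb]
          cases h6 : bt (nbmN cur) (lbl q).1.val with
          | false => rfl
          | true =>
            rw [h6] at hs
            cases h7 : bt nb (lbl q).1.val with
            | true => rfl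
            | false =>
              rw [h7] at hs
              simp only [rIf_true, rIf_false] at hs ⊢
              rw [hs]
              rfl
        rw [this]
        rfl
      | false =>
        rw [hs] at h5
        have h6 := rAll_iff.1 h5 _ e2
        rw [show 1 + 3 * q = Nat.succ (Nat.mul 3 q) from Nat.add_comm _ _]
        exact h6
  | S =>
    show chkR n (2 + 3 * q) (fS (fEnter (lbl q).1.val x0 ph vis) (lbl q).1.val (lbl q).2.val x0 cur
      ph nb vis m0) = true
    cases hb : Nat.beq (fEnter (lbl q).1.val x0 ph vis) 0 with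
    | true =>
      have : fS (fEnter (lbl q).1.val x0 ph vis) (lbl q).1.val (lbl q).2.val x0 cur ph nb vis
          m0 = 0 := by
        unfold fS
        rw [hb]
        rfl
      rw [this]
      rfl
    | false =>
      rw [hb] at h4
      obtain ⟨-, h5⟩ := rAnd_iff.1 h4
      cases hs : skS ph cur nb with
      | true =>
        have : fS (fEnter (lbl q).1.val x0 ph vis) (lbl q).1.val (lbl q).2.val x0 cur ph nb vis
            m0 = 0 := by
          unfold fS
          unfold skS at hs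
          rw [hb, hs]
          rfl
        rw [this]
        rfl
      | false =>
        rw [hs] at h5
        have h6 := rAll_iff.1 h5 _ e2
        rw [show 2 + 3 * q = Nat.succ (Nat.succ (Nat.mul 3 q)) from Nat.add_comm _ _]
        exact h6

/-- The closing kinds. -/
theorem mask_of_chkM {M : ℕ} {σ : Sc} (h : chkM M σ.x0.val σ.cur.val σ.ph σ.nb σ.vis σ.m0 = true)
    {κ : Kind} (hs : scClose σ κ = true) : bt M (kc κ) = true := by
  obtain ⟨h1, h2⟩ := rAnd_iff.1 h
  obtain ⟨h3, h4⟩ := rAnd_iff.1 h2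
  cases κ with
  | P =>
    obtain ⟨e1, e2⟩ : σ.ph = 2 ∧ σ.nb ||| σ.m0 = nbm σ.x0 := of_decide_eq_true hs
    have e : fClP σ.x0.val σ.ph σ.nb σ.m0 = true := by
      unfold fClP
      rw [e1, nbmN_eq]
      exact rAnd_iff.2 ⟨rfl, by rw [← e2]; exact Nat.beq_refl _⟩
    rw [e] at h1
    exact h1
  | E =>
    obtain ⟨e1, e2, e3, e4, e5, e6, e7⟩ : σ.ph = 1 ∧ σ.vis = 126 ∧ adjL σ.cur σ.x0 = true ∧
      σ.nb.testBit σ.x0.val = false ∧ σ.nb ||| 2 ^ σ.x0.val = nbm σ.cur ∧
      σ.m0.testBit σ.cur.val = false ∧ σ.m0 ||| 2 ^ σ.cur.val = nbm σ.x0 := of_decide_eq_true hs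
    have e : fClE σ.x0.val σ.cur.val σ.ph σ.nb σ.vis σ.m0 = true := by
      unfold fClE
      rw [e1, e2, nbmN_eq, nbmN_eq, bt_eq, bt_eq, bt_eq, e4, e6]
      refine rAnd_iff.2 ⟨rfl, rAnd_iff.2 ⟨rfl, rAnd_iff.2 ⟨e3, rAnd_iff.2 ⟨rfl, rAnd_iff.2 ⟨rfl,
        rAnd_iff.2 ⟨?_, ?_⟩⟩⟩⟩⟩⟩
      · rw [← e5]; exact Nat.beq_refl _
      · rw [← e7]; exact Nat.beq_refl _
    rw [e] at h3
    exact h3
  | S =>
    obtain ⟨e1, e2, e3, e4⟩ : σ.ph = 1 ∧ σ.vis = 126 ∧ σ.nb = nbm σ.cur ∧ σ.m0 = nbm σ.x0 :=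
      of_decide_eq_true hs
    have e : fClS σ.x0.val σ.cur.val σ.ph σ.nb σ.vis σ.m0 = true := by
      unfold fClS
      rw [e1, e2, nbmN_eq, nbmN_eq, ← e3, ← e4]
      exact rAnd_iff.2 ⟨rfl, rAnd_iff.2 ⟨rfl, rAnd_iff.2 ⟨Nat.beq_refl _, Nat.beq_refl _⟩⟩⟩
    rw [e] at h4
    exact h4

/-- All nodes below `n` pass the check. The recursive calls are in head position, so that the
kernel evaluates them only once for every node. -/
def goodB (n : Nd) : Bool :=
  Nd.rec (motive := fun _ => Bool) (fun _ _ => true)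
    (fun _ child _ ihc ihr => rAnd (chkN child) (rAnd ihc (rAnd ihr true))) n

/-- A node such that it and all nodes below it pass the check. -/
inductive Nd.Good : Nd → Prop
  | mk (n : Nd) (h : chkN n = true) (hc : ∀ c m, n.next c = some m → Nd.Good m) : Nd.Good n

theorem Nd.Good.chk {n : Nd} (h : n.Good) : chkN n = true := by
  cases h with
  | mk _ h _ => exact h

theorem Nd.Good.child {n m : Nd} (h : n.Good) {c : ℕ} (hm : n.next c = some m) : m.Good := by
  cases h with
  | mk _ _ hc => exact hc c m hm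

theorem goodB_sound : ∀ n : Nd, goodB n = true → ∀ c m, n.next c = some m → m.Good := by
  intro n
  induction n with
  | fin code mask =>
    intro _ c m h
    exact absurd h (by simp [Nd.next, Nd.look])
  | arc c' child rest ihc ihr =>
    intro h c m hm
    have h1 : rAnd (chkN child) (rAnd (goodB child) (rAnd (goodB rest) true)) = true := h
    obtain ⟨h2, h3⟩ := rAnd_iff.1 h1
    obtain ⟨h4, h5⟩ := rAnd_iff.1 h3
    obtain ⟨h6, -⟩ := rAnd_iff.1 h5
    have hm' : rIf (Nat.beq c' c) (some child) (rest.next c) = some m := hm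
    cases hb : Nat.beq c' c with
    | true =>
      rw [hb] at hm'
      obtain rfl := Option.some.inj hm'
      exact Nd.Good.mk child h2 (ihc h4)
    | false =>
      rw [hb] at hm'
      exact ihr h6 c m hm'

theorem good_of_goodB {n : Nd} (h1 : chkN n = true) (h2 : goodB n = true) : n.Good :=
  Nd.Good.mk n h1 (goodB_sound n h2)

/-! ### The node and the state of the scanner -/

/-- The node `n` stands for the state `σ` of a scan whose last dart has the label `p`. -/
structure Nd.Rel (n : Nd) (p : Lb) (σ : Sc) : Prop where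
  good : n.Good
  bdd : σ.Bdd
  mem : p ∈ allLab
  code : n.code = encS (relSc (nrm p) σ)

theorem Nd.Rel.step {n : Nd} {p : Lb} {σ τ : Sc} (h : n.Rel p σ) {κ : Kind} {q : Lb}
    (hq : q ∈ allLab) (hs : scStep σ κ q = some τ) :
    ∃ m, n.next (kc κ + 3 * lc (rotL p q)) = some m ∧ m.Rel q τ := by
  have h1 := scStep_rel (p := p) hs
  have h2 := fStepF_eq h1
  have hmem : rotL p q ∈ allLab := SMap.rotL_mem_allLab p q hq
  have hc := lc_lt _ hmem
  have hl : lbl (lc (rotL p q)) = rotL p q := lbl_lc _ hmem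
  have hk := kc_lt κ
  have hA := h.good.chk
  rw [chkN_eq (bdd_relSc _ h.bdd) h.code] at hA
  have h3 := chkR_of_chkF hA (κ := κ) hc
  rw [relLb_nrm] at h2
  rw [hl, h2] at h3
  have h4 : (n.look false (fun m => Nat.beq m.code (rnC ((kc κ + 3 * lc (rotL p q)) / 3)
      (encS (relSc (nrm p) τ) - 1))) (kc κ + 3 * lc (rotL p q))) = true := h3
  rw [Nd.look_eq] at h4
  cases h5 : n.next (kc κ + 3 * lc (rotL p q)) with
  | none => rw [h5] at h4; exact absurd h4 Bool.false_ne_true
  | some m =>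
    rw [h5] at h4
    have h6 := Nat.eq_of_beq_eq_true h4
    refine ⟨m, rfl, h.good.child h5, bdd_scStep h.bdd hs, hq, ?_⟩
    rw [h6, show (kc κ + 3 * lc (rotL p q)) / 3 = lc (rotL p q) by omega,
      rnC_eq hc (bdd_relSc (nrm p) (bdd_scStep h.bdd hs)) (r := encS (relSc (nrm p) τ) - 1)
        (by have := encS_ne_zero (relSc (nrm p) τ); omega), hl, ← relSc_mul,
      nrm_mul (SMap.okL_of_mem _ h.mem) (SMap.okL_of_mem _ hq)]

theorem Nd.Rel.close {n : Nd} {p : Lb} {σ : Sc} (h : n.Rel p σ) {κ : Kind}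
    (hs : scClose σ κ = true) : bt n.mask (kc κ) = true := by
  have hA := h.good.chk
  rw [chkN_eq (bdd_relSc _ h.bdd) h.code] at hA
  exact mask_of_chkM (rAnd_iff.1 hA).1 (scClose_rel hs)

/-! ### Tokens -/

/-- The codes of the tokens, every label in the frame of the dart before it. -/
def tokC : Lb → List (Kind × Lb) → List ℕ
  | _, [] => []
  | p, q :: l => (kc q.1 + 3 * lc (rotL p q.2)) :: tokC q.2 l

/-- The last label. -/
def lastL : Lb → List (Kind × Lb) → Lb
  | p, [] => p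
  | _, q :: l => lastL q.2 l

theorem Nd.Rel.run : ∀ {l : List (Kind × Lb)} {n : Nd} {p : Lb} {σ τ : Sc}, n.Rel p σ →
    (∀ q ∈ l, q.2 ∈ allLab) → scRun σ l = some τ →
    ∃ m, n.run (tokC p l) = some m ∧ m.Rel (lastL p l) τ := by
  intro l
  induction l with
  | nil =>
    intro n p σ τ h _ hs
    obtain rfl := Option.some.inj hs
    exact ⟨n, rfl, h⟩
  | cons q l ih =>
    intro n p σ τ h hl hs
    rw [scRun] at hs
    cases h1 : scStep σ q.1 q.2 with
    | none => rw [h1] at hs; exact absurd hs (by simp)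
    | some ρ =>
      rw [h1] at hs
      obtain ⟨m, h2, h3⟩ := h.step (hl q List.mem_cons_self) h1
      obtain ⟨m', h4, h5⟩ := ih h3 (fun q' hq' => hl q' (List.mem_cons_of_mem _ hq')) hs
      refine ⟨m', ?_, h5⟩
      rw [tokC, Nd.run_cons, h2]
      exact h4

/-- Relabelling does not change the codes of the tokens. -/
theorem rotL_rotL {a p q : Lb} (ha : okL a = true) (hp : okL p = true) :
    rotL (rotL a p) (rotL a q) = rotL p q := by
  have h := nrm_mul ha hp
  rw [← relLb_nrm, ← relLb_nrm a q, ← relLb_mul, h, relLb_nrm]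

theorem tokC_rel {a : Lb} (ha : okL a = true) : ∀ (l : List (Kind × Lb)) (p : Lb), okL p = true →
    (∀ q ∈ l, q.2 ∈ allLab) →
    tokC (rotL a p) (l.map fun q => (q.1, rotL a q.2)) = tokC p l := by
  intro l
  induction l with
  | nil => intro p _ _; rfl
  | cons q l ih =>
    intro p hp hl
    rw [List.map_cons, tokC, tokC, rotL_rotL ha hp,
      ih q.2 (SMap.okL_of_mem _ (hl q List.mem_cons_self))
        (fun q' hq' => hl q' (List.mem_cons_of_mem _ hq'))]

theorem lastL_rel (a : Lb) : ∀ (l : List (Kind × Lb)) (p : Lb),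
    lastL (rotL a p) (l.map fun q => (q.1, rotL a q.2)) = rotL a (lastL p l) := by
  intro l
  induction l with
  | nil => intro p; rfl
  | cons q l ih => intro p; exact ih q.2

theorem lastL_mem : ∀ (l : List (Kind × Lb)) (p : Lb), p ∈ allLab → (∀ q ∈ l, q.2 ∈ allLab) →
    lastL p l ∈ allLab := by
  intro l
  induction l with
  | nil => intro p hp _; exact hp
  | cons q l ih =>
    intro p _ hl
    exact ih q.2 (hl q List.mem_cons_self) fun q' hq' => hl q' (List.mem_cons_of_mem _ hq')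

end

end Pool.Agent.Lib.MP_5854e1_co
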