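import Pool.Agent.Lib.MP_5854e1_co.Delta
import Pool.Agent.Lib.MP_5854e1_co.MirTab
import Pool.Agent.Lib.MP_5854e1_co.Node

/-!
# The corrections are invariant under the reflections
-/

set_option autoImplicit false

open Equiv Equiv.Perm

namespace Pool.Agent.Lib.MP_5854e1_co

open Model24 (Kind)

/-- The mirror image of a token; `k` is the shape of the strip seen from the other end. -/
noncomputable def tE (k x : ℕ) : ℕ :=
  Nat.rec (motive := fun _ => ℕ) (nat_lit 0) (fun p _ => Nat.succ (nE k p)) x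

/-- The reflected token. -/
noncomputable def tM (k x : ℕ) : ℕ :=
  Nat.rec (motive := fun _ => ℕ) (nat_lit 0) (fun p _ => Nat.succ (mJ k p)) x

/-- All entries of `la` have an image in `lb`, under the maps `fl` and `fr` of the tokens; `sw` says
that the tokens are exchanged. -/
noncomputable def imgM (fl fr : ℕ → ℕ) (lb la : DL) : Bool :=
  DL.all (fun xl r => DR.all (fun xr v => Nat.beq (DR.val (DL.grp lb (fr xr)) (fl xl)) v) r) la

/-- The same without exchange. -/
noncomputable def imgS (fl fr : ℕ → ℕ) (lb la : DL) : Bool :=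
  DL.all (fun xl r => DR.all (fun xr v => Nat.beq (DR.val (DL.grp lb (fl xl)) (fr xr)) v) r) la

theorem imgM_sound {fl fr : ℕ → ℕ} {lb la : DL} (h : imgM fl fr lb la = true) {xl xr : ℕ}
    (h0 : 0 < DL.val la xl xr) : DL.val lb (fr xr) (fl xl) = DL.val la xl xr := by
  have h1 := DL.val_of_all h h0
  rcases DR.val_of_all h1 xr with h2 | h2
  · have h3 : DL.val la xl xr = 0 := h2
    omega
  · exact Nat.eq_of_beq_eq_true h2

theorem imgS_sound {fl fr : ℕ → ℕ} {lb la : DL} (h : imgS fl fr lb la = true) {xl xr : ℕ}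
    (h0 : 0 < DL.val la xl xr) : DL.val lb (fl xl) (fr xr) = DL.val la xl xr := by
  have h1 := DL.val_of_all h h0
  rcases DR.val_of_all h1 xr with h2 | h2
  · have h3 : DL.val la xl xr = 0 := h2
    omega
  · exact Nat.eq_of_beq_eq_true h2

/-- The check of the reflections of the row of the corner `(k, o, j)`. -/
noncomputable def symC (t : DT) (k o j : ℕ) : Bool :=
  DL.rec (motive := fun _ => Bool) true
    (fun _ _ _ _ => rAnd
      (imgM (tE (Nat.div (rv k) (nat_lit 24))) (tE (Nat.div (optA k o) (nat_lit 72)))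
        (DT.get t (dkey (nK (Nat.div (optA k o) (nat_lit 72))) (nJ k j))) (DT.get t (dkey k j)))
      (imgS (tM (Nat.div (rv k) (nat_lit 24))) (tM (Nat.div (optA k o) (nat_lit 72)))
        (DT.get t (dkey (mK k) (mJ k j))) (DT.get t (dkey k j))))
    (DT.get t (dkey k j))

theorem symC_sound {t : DT} {k o j : ℕ} (h : symC t k o j = true) :
    imgM (tE (Nat.div (rv k) (nat_lit 24))) (tE (Nat.div (optA k o) (nat_lit 72)))
        (DT.get t (dkey (nK (Nat.div (optA k o) (nat_lit 72))) (nJ k j))) (DT.get t (dkey k j)) =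
          true ∧
      imgS (tM (Nat.div (rv k) (nat_lit 24))) (tM (Nat.div (optA k o) (nat_lit 72)))
        (DT.get t (dkey (mK k) (mJ k j))) (DT.get t (dkey k j)) = true := by
  unfold symC at h
  cases h1 : DT.get t (dkey k j) with
  | nil => exact ⟨rfl, rfl⟩
  | g x r l =>
    rw [h1] at h
    exact rAnd_iff.1 h

/-- The check of the reflections of all rows of the pair `(k, o)`. -/
noncomputable def symO (t : DT) (k o : ℕ) : Bool :=
  rForce (triOff k o) fun f => rAllN (fun i => symC t k o (Nat.add f i))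
    (Nat.sub (triOff k (Nat.succ o)) f)

/-- The check of the reflections of a table of the own pairs of the shape `k`. -/
def symD (D : ℕ → ℕ → ℕ) (k : ℕ) : Bool :=
  rAllN (fun o => rAnd (Nat.beq (D (mK k) (mO' k o)) (D k o))
    (Nat.beq (D (nK (Nat.div (optA k o) (nat_lit 72))) (nO k o)) (D k o))) (optN k)

namespace SMap

variable {F : Type*}

theorem relab_relab (T : SMap F) : T.relab.relab = T := by
  have h : ∀ s : Strip, relS sg (relS sg s) = s := fun s => by
    rw [← relS_mul]
    have h1 : sg * sg = 1 := Equiv.swap_mul_self 5 6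
    rw [h1, relS_one]
  cases T with
  | mk N I S K _ _ _ _ _ _ _ _ _ _ =>
    unfold relab
    simp only [h]

/-- The data of a row are right. -/
theorem row_symC {T : SMap F} {t : DT} (h : ∀ k < 101, ∀ o < optN k, symO t k o = true) {a : F} (ha : T.Tri a) :
    symC t (T.kx a) (T.ox a) (T.jx a) = true := by
  have h1 := h _ (T.kx_lt a) _ (T.ox_lt_optN a)
  unfold symO at h1
  rw [rForce_eq] at h1
  obtain ⟨h2, -⟩ := T.tri_px ha
  have h3 := rAllN_iff.1 h1 (T.px a) (by
    show T.px a < triOff (T.kx a) (T.ox a + 1) - triOff (T.kx a) (T.ox a)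
    rw [← length_tri]
    exact h2)
  exact h3

theorem optA_div (T : SMap F) (a : F) : Nat.div (optA (T.kx a) (T.ox a)) (nat_lit 72) =
    T.kx (T.N a) := by
  rw [optA_ox]
  exact T.oc_k a

theorem relab_X (T : SMap F) (e : F) : T.relab.X trX e = tM (T.kx e) (T.X trX e) := by
  by_cases h : T.Tri e
  · rw [T.X_tri trX h, T.relab.X_tri trX h]
    show T.relab.jx e + 1 = _
    rw [T.relab_jx h]
    rfl
  · rw [T.X_big trX h, T.relab.X_big trX h]
    rfl

theorem relab_dl_pos (T : SMap F) {t : DT} (h : ∀ k < 101, ∀ o < optN k, symO t k o = true) {a : F}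
    (ha : T.Tri a) (h0 : 0 < T.dl t a) : T.relab.dl t a = T.dl t a := by
  have h1 := (symC_sound (row_symC h ha)).2
  unfold dl at h0 ⊢
  rw [T.rs_tri ha] at h0 ⊢
  have h2 := imgS_sound h1 h0
  have ha' : T.relab.Tri a := ha
  rw [T.relab.rs_tri ha', T.relab_kx, T.relab_jx ha, T.relab_X, T.relab_X, ← h2, T.rv_div,
    T.optA_div]
  rfl

/-- **The corrections of a relabelled map.** -/
theorem relab_dl (T : SMap F) {t : DT} (h : ∀ k < 101, ∀ o < optN k, symO t k o = true) {a : F}
    (ha : T.Tri a) : T.relab.dl t a = T.dl t a := by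
  by_cases h0 : 0 < T.dl t a
  · exact T.relab_dl_pos h ha h0
  · by_cases h1 : 0 < T.relab.dl t a
    · have h2 := T.relab.relab_dl_pos h (a := a) ha h1
      rw [relab_relab] at h2
      omega
    · omega

/-- **A table of the own pairs of a relabelled map.** -/
theorem relab_D (T : SMap F) {D : ℕ → ℕ → ℕ} (h : ∀ k < 101, symD D k = true) (a : F) :
    D (T.relab.kx a) (T.relab.ox a) = D (T.kx a) (T.ox a) := by
  have h1 := rAllN_iff.1 (h _ (T.kx_lt a)) _ (T.ox_lt_optN a)
  rw [T.relab_kx, T.relab_ox]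
  exact Nat.eq_of_beq_eq_true (rAnd_iff.1 h1).1

namespace Mir

variable {T T' : SMap F} (h : T.Mir T')

include h

theorem tri_iff (e : F) : T'.Tri e ↔ T.Tri (T.I e) := by
  have h1 := h.tri_N (T.N⁻¹ e)
  rw [N_N_inv] at h1
  rw [h1, ← T.tri_I_N, N_N_inv]

theorem jx_eq {e : F} (he : T.Tri (T.I e)) : T'.jx e = nE (T.kx (T.I e)) (T.jx (T.I e)) := by
  have h1 := h.et e
  have h2 : T'.et e = T'.jx e := T'.et_tri ((h.tri_iff e).2 he)
  have h3 : T.et (T.I e) = T.jx (T.I e) := T.et_tri he
  rw [h2, h3] at h1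
  rw [h1]
  unfold nEt
  have h4 : Nat.ble (nat_lit 7936) (T.jx (T.I e)) = false := by
    rw [← T.rs_tri he]
    exact T.ble_rs_tri he
  rw [h4, rIf_false]

theorem X (e : F) : T'.X trX e = tE (T.kx (T.I e)) (T.X trX (T.I e)) := by
  by_cases he : T.Tri (T.I e)
  · rw [T.X_tri trX he, T'.X_tri trX ((h.tri_iff e).2 he)]
    show T'.jx e + 1 = _
    rw [h.jx_eq he]
    rfl
  · rw [T.X_big trX he, T'.X_big trX (fun h2 => he ((h.tri_iff e).1 h2))]
    rfl

theorem dl_pos {t : DT} (hs : ∀ k < 101, ∀ o < optN k, symO t k o = true) {a : F} (ha : T.Tri a)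
    (h0 : 0 < T.dl t a) : T'.dl t (T.N a) = T.dl t a := by
  have h1 := (symC_sound (row_symC hs ha)).1
  have ha' : T'.Tri (T.N a) := (h.tri_N a).2 ha
  unfold dl at h0 ⊢
  rw [T.rs_tri ha] at h0 ⊢
  have h2 := imgM_sound h1 h0
  rw [T'.rs_tri ha', h.kx, h.jx_N ha, h.X, h.X, h.N_N, h.I_eq, T.I_I, ← h2, T.rv_div, T.optA_div]

/-- **The corrections of the mirror image.** -/
theorem dl {t : DT} (hs : ∀ k < 101, ∀ o < optN k, symO t k o = true) {a : F} (ha : T.Tri a) :
    T'.dl t (T.N a) = T.dl t a := by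
  by_cases h0 : 0 < T.dl t a
  · exact h.dl_pos hs ha h0
  · by_cases h1 : 0 < T'.dl t (T.N a)
    · have h2 := h.symm.dl_pos hs ((h.tri_N a).2 ha) h1
      rw [h.N_N] at h2
      omega
    · omega

/-- **A table of the own pairs of the mirror image.** -/
theorem D {D : ℕ → ℕ → ℕ} (hs : ∀ k < 101, symD D k = true) (a : F) :
    D (T'.kx (T.N a)) (T'.ox (T.N a)) = D (T.kx a) (T.ox a) := by
  have h1 := rAllN_iff.1 (hs _ (T.kx_lt a)) _ (T.ox_lt_optN a)
  rw [h.kx, h.ox_N, ← T.optA_div]
  exact Nat.eq_of_beq_eq_true (rAnd_iff.1 h1).2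

end Mir

end SMap

end Pool.Agent.Lib.MP_5854e1_co
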