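import Pool.Agent.Lib.MP_5854e1_co.QuadTok
import Pool.Agent.Lib.MP_5854e1_co.DeltaSym

/-!
# Corrections at longer faces: lower bounds and invariance under the reflection of labels
-/

set_option autoImplicit false

open Equiv Equiv.Perm

namespace Pool.Agent.Lib.MP_5854e1_co

/-! ### Lower bounds -/

/-- A field of a number. -/
def fdQ (w W x b : ℕ) : ℕ := Nat.mod (Nat.shiftRight x (Nat.mul w b)) W

/-- The values of `row5` are at most the values of `row` minus the corrections. -/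
noncomputable def lowC (row row5 : ℕ → ℕ → ℕ) (w W : ℕ) (t : DT) (k o b : ℕ) : Bool :=
  rLet (fdQ w W (row k o) b) fun f => rLet (fdQ w W (row5 k o) b) fun f5 =>
    rAnd (Nat.ble f5 f) (DL.all (fun _ r => DR.all (fun _ v => Nat.ble (Nat.add f5 v) f) r)
      (DT.get t (fkey k o b)))

/-- The check of the shape `k`. -/
noncomputable def lowK (row row5 : ℕ → ℕ → ℕ) (w W : ℕ) (t : DT) (k : ℕ) : Bool :=
  rAllN (fun o => rAllN (fun b => lowC row row5 w W t k o b) (nat_lit 9)) (optN k)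

theorem lowC_sound {row row5 : ℕ → ℕ → ℕ} {w W : ℕ} {t : DT} {k o b : ℕ}
    (h : lowC row row5 w W t k o b = true) (x y : ℕ) :
    fdQ w W (row5 k o) b + DL.val (DT.get t (fkey k o b)) x y ≤ fdQ w W (row k o) b := by
  unfold lowC at h
  rw [rLet_eq, rLet_eq] at h
  obtain ⟨h1, h2⟩ := rAnd_iff.1 h
  rcases Nat.eq_zero_or_pos (DL.val (DT.get t (fkey k o b)) x y) with h0 | h0
  · rw [h0]
    exact Nat.le_of_ble_eq_true h1
  · have h3 := DL.val_of_all h2 h0
    rcases DR.val_of_all h3 y with h4 | h4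
    · exact absurd h0 (by
        have h5 : DL.val (DT.get t (fkey k o b)) x y = 0 := h4
        omega)
    · exact Nat.le_of_ble_eq_true h4

/-! ### Reflections -/

/-- The token map `m` belongs to the token function `tr`. -/
def tmChk (tr m : ℕ → ℕ → ℕ) (k : ℕ) : Bool :=
  rAnd (Nat.beq (m k (nat_lit 0)) (nat_lit 0)) (rAll (fun x => rAllN (fun i =>
    Nat.beq (Nat.succ (tr (mK k) (mJ k (Nat.add (triOff k (Nat.mod x (nat_lit 512))) i))))
      (m k (Nat.succ (tr k (Nat.add (triOff k (Nat.mod x (nat_lit 512))) i)))))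
    (Nat.sub (triOff k (Nat.succ (Nat.mod x (nat_lit 512)))) (triOff k (Nat.mod x (nat_lit 512)))))
    (fl k))

/-- The check of the reflection of a row of corrections. -/
noncomputable def symQC (m : ℕ → ℕ → ℕ) (t : DT) (k o b : ℕ) : Bool :=
  imgS (m (Nat.div (rv k) (nat_lit 24))) (m (Nat.div (optA k o) (nat_lit 72)))
    (DT.get t (fkey (mK k) (mO' k o) b)) (DT.get t (fkey k o b))

/-- The check of the shape `k`. -/
noncomputable def symQ (m : ℕ → ℕ → ℕ) (t : DT) (k : ℕ) : Bool :=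
  rAllN (fun o => rAllN (fun b => symQC m t k o b) (nat_lit 9)) (optN k)

namespace SMap

variable {F : Type*} (T : SMap F)

theorem b9 (a : F) : 3 * kc (T.K (T.face (T.N a))) + kc (T.K (T.I a)) < 9 := by
  have h1 := kc_lt (T.K (T.face (T.N a)))
  have h2 := kc_lt (T.K (T.I a))
  omega

/-- **The lower bounds.** -/
theorem dq_le {row row5 : ℕ → ℕ → ℕ} {w : ℕ} {t : DT} {tr : ℕ → ℕ → ℕ}
    (h : ∀ k < 101, lowK row row5 w (2 ^ w) t k = true) (a : F) :
    T.Z row5 w a + T.dq t tr a ≤ T.Z row w a :=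
  lowC_sound (rAllN_iff.1 (rAllN_iff.1 (h _ (T.kx_lt a)) _ (T.ox_lt_optN a)) _ (T.b9 a)) _ _

theorem relab_X' {tr m : ℕ → ℕ → ℕ} (h : ∀ k < 101, tmChk tr m k = true) (e : F) :
    T.relab.X tr e = m (T.kx e) (T.X tr e) := by
  obtain ⟨h1, h2⟩ := rAnd_iff.1 (h _ (T.kx_lt e))
  by_cases he : T.Tri e
  · rw [T.X_tri tr he, T.relab.X_tri tr he, T.relab_kx, T.relab_jx he]
    have h3 := rAll_iff.1 h2 _ (T.ex_mem e)
    have e0 : Nat.mod (T.ex e) (nat_lit 512) = T.ox e := T.ex_ox e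
    rw [e0] at h3
    obtain ⟨h4, -⟩ := T.tri_px he
    have h5 := rAllN_iff.1 h3 (T.px e) (by
      show T.px e < triOff (T.kx e) (T.ox e + 1) - triOff (T.kx e) (T.ox e)
      rw [← length_tri]
      exact h4)
    exact Nat.eq_of_beq_eq_true h5
  · rw [T.X_big tr he, T.relab.X_big tr he]
    exact (Nat.eq_of_beq_eq_true h1).symm

theorem relab_dq_pos (T : SMap F) {t : DT} {tr m : ℕ → ℕ → ℕ}
    (hm : ∀ k < 101, tmChk tr m k = true) (h : ∀ k < 101, symQ m t k = true) {a : F}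
    (h0 : 0 < T.dq t tr a) : T.relab.dq t tr a = T.dq t tr a := by
  have h1 := rAllN_iff.1 (rAllN_iff.1 (h _ (T.kx_lt a)) _ (T.ox_lt_optN a)) _ (T.b9 a)
  have h2 := imgS_sound h1 h0
  unfold dq
  rw [T.relab_kx, T.relab_ox, T.relab_X' hm, T.relab_X' hm, ← h2, T.rv_div, T.optA_div]
  rfl

/-- **The corrections of a relabelled map.** -/
theorem relab_dq (T : SMap F) {t : DT} {tr m : ℕ → ℕ → ℕ}
    (hm : ∀ k < 101, tmChk tr m k = true) (h : ∀ k < 101, symQ m t k = true) (a : F) :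
    T.relab.dq t tr a = T.dq t tr a := by
  by_cases h0 : 0 < T.dq t tr a
  · exact T.relab_dq_pos hm h h0
  · by_cases h1 : 0 < T.relab.dq t tr a
    · have h2 := T.relab.relab_dq_pos hm h h1
      rw [relab_relab] at h2
      omega
    · omega

end SMap

end Pool.Agent.Lib.MP_5854e1_co
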