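import Pool.Agent.Lib.MP_5854e1_co.Reserve

/-!
# The closures with reserves, in a map of strips
-/

set_option autoImplicit false

open Equiv Equiv.Perm

namespace Pool.Agent.Lib.MP_5854e1_co

namespace SMap

variable {F : Type*} (T : SMap F)

section star

variable {D : ℕ → ℕ → ℕ} {sp ps : ℕ → ℕ → ℕ → ℕ} {t rt zt tw : DT}

/-- The budget of the corner of a triangle. -/
noncomputable def sbud (D : ℕ → ℕ → ℕ) (sp ps : ℕ → ℕ → ℕ → ℕ) (a : F) : ℕ :=
  D (T.kx a) (T.ox a) + psA sp ps (T.kx a) (T.ox a) (T.rs a)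

theorem stC_at (h : ∀ k < 101, ∀ o < optN k, stO D sp ps t rt k o = true) {a : F} (ha : T.Tri a) :
    stC D sp ps t rt (T.kx a) (T.ox a) (T.jx a) = true := by
  have h1 := h _ (T.kx_lt a) _ (T.ox_lt_optN a)
  unfold stO at h1
  rw [rForce_eq] at h1
  obtain ⟨h2, -⟩ := T.tri_px ha
  have h3 := rAllN_iff.1 h1 (T.px a) (by
    show T.px a < triOff (T.kx a) (T.ox a + 1) - triOff (T.kx a) (T.ox a)
    rw [← length_tri]
    exact h2)
  exact h3

theorem wC_at (h : ∀ k < 101, ∀ o < optN k, wO sp ps rt tw k o = true) {a : F} (ha : T.Tri a) :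
    wC sp ps rt tw (T.kx a) (T.ox a) (T.jx a) = true := by
  have h1 := h _ (T.kx_lt a) _ (T.ox_lt_optN a)
  unfold wO at h1
  rw [rForce_eq] at h1
  obtain ⟨h2, -⟩ := T.tri_px ha
  have h3 := rAllN_iff.1 h1 (T.px a) (by
    show T.px a < triOff (T.kx a) (T.ox a + 1) - triOff (T.kx a) (T.ox a)
    rw [← length_tri]
    exact h2)
  exact h3

theorem stR_at (h : ∀ k < 101, ∀ o < optN k, stO D sp ps t rt k o = true) {a : F} (ha : T.Tri a) :
    stR (T.sbud D sp ps a + (T.sbud D sp ps (T.I (T.N a)) +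
        T.sbud D sp ps (T.I (T.N (T.I (T.N a))))))
      (DL.grp (DT.get rt (dkey (T.kx a) (T.rs a))) 0)
      (DL.grp (DT.get rt (dkey (T.kx (T.I (T.N a))) (T.rs (T.I (T.N a))))) 0)
      (DL.grp (DT.get rt (dkey (T.kx (T.I (T.N (T.I (T.N a)))))
        (T.rs (T.I (T.N (T.I (T.N a))))))) 0)
      (DT.get t (dkey (T.kx (T.I (T.N a))) (T.rs (T.I (T.N a)))))
      (DT.get t (dkey (T.kx (T.I (T.N (T.I (T.N a))))) (T.rs (T.I (T.N (T.I (T.N a)))))))
      (DT.get t (dkey (T.kx a) (T.rs a))) = true := by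
  have ha2 := T.tri_rot ha
  have ha3 := T.tri_rot ha2
  have h1 := T.stC_at h ha
  rw [T.rs_tri ha, T.rs_tri ha2, T.rs_tri ha3]
  unfold stC at h1
  cases hrow : DT.get t (dkey (T.kx a) (T.jx a)) with
  | nil => rfl
  | g x r l =>
    rw [hrow] at h1
    simp only [rForce_eq] at h1
    rw [← T.rot_k a, ← T.rot_o ha, ← T.rot_j ha, T.farK_eq ha, T.t3A_jx ha, ← T.rot_j ha2] at h1
    unfold sbud
    rw [T.rs_tri ha, T.rs_tri ha2, T.rs_tri ha3]
    have e : D (T.kx a) (T.ox a) + psA sp ps (T.kx a) (T.ox a) (T.jx a) +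
        (D (T.kx (T.I (T.N a))) (T.ox (T.I (T.N a))) +
          psA sp ps (T.kx (T.I (T.N a))) (T.ox (T.I (T.N a))) (T.jx (T.I (T.N a))) +
        (D (T.kx (T.I (T.N (T.I (T.N a))))) (T.ox (T.I (T.N (T.I (T.N a))))) +
          psA sp ps (T.kx (T.I (T.N (T.I (T.N a))))) (T.ox (T.I (T.N (T.I (T.N a)))))
            (T.jx (T.I (T.N (T.I (T.N a))))))) =
        Nat.add (Nat.add (D (T.kx a) (T.ox a)) (Nat.add (D (T.kx (T.I (T.N a)))
          (T.ox (T.I (T.N a)))) (D (T.kx (T.I (T.N (T.I (T.N a)))))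
            (T.ox (T.I (T.N (T.I (T.N a))))))))
        (Nat.add (psA sp ps (T.kx a) (T.ox a) (T.jx a)) (Nat.add
          (psA sp ps (T.kx (T.I (T.N a))) (T.ox (T.I (T.N a))) (T.jx (T.I (T.N a))))
          (psA sp ps (T.kx (T.I (T.N (T.I (T.N a))))) (T.ox (T.I (T.N (T.I (T.N a)))))
            (T.jx (T.I (T.N (T.I (T.N a)))))))) := by
      simp only [Nat.add_eq]
      omega
    rw [e]
    exact h1

/-- **The closure of the corrections over a triangle, with reserves.** -/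
theorem star_sum (h : ∀ k < 101, ∀ o < optN k, stO D sp ps t rt k o = true) (hr : DT.all (rtR zt) rt = true)
    {a : F} (ha : T.Tri a) :
    T.dl t a + T.dl t (T.I (T.N a)) + T.dl t (T.I (T.N (T.I (T.N a)))) ≤
      T.sbud D sp ps a + T.sbud D sp ps (T.I (T.N a)) +
        T.sbud D sp ps (T.I (T.N (T.I (T.N a)))) +
      (T.rz zt 0 a + T.rz zt 0 (T.I (T.N a)) + T.rz zt 0 (T.I (T.N (T.I (T.N a))))) := by
  have hb := T.tri_rot ha
  have hc := T.tri_rot hb
  have e3 := T.rot_three ha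
  have h1 := T.stR_at h ha
  have h2 := T.stR_at h hb
  have h3 := T.stR_at h hc
  rw [e3] at h2 h3
  have r1 := T.rt_le hr 0 ha
  have r2 := T.rt_le hr 0 hb
  have r3 := T.rt_le hr 0 hc
  set b := T.I (T.N a) with hbd
  set c := T.I (T.N b) with hcd
  have s2 : T.sbud D sp ps b + (T.sbud D sp ps c + T.sbud D sp ps a) =
    T.sbud D sp ps a + (T.sbud D sp ps b + T.sbud D sp ps c) := by omega
  have s3 : T.sbud D sp ps c + (T.sbud D sp ps a + T.sbud D sp ps b) =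
    T.sbud D sp ps a + (T.sbud D sp ps b + T.sbud D sp ps c) := by omega
  rw [s2] at h2
  rw [s3] at h3
  have h4 := stR_three h1 h2 h3 (T.X trX (T.N a)) (T.X trX (T.N b)) (T.X trX (T.I a))
  have eNc : T.N c = T.I a := T.N_third ha
  have eIb : T.I b = T.N a := T.I_I _
  have eIc : T.I c = T.N b := T.I_I _
  rw [eNc] at r3
  unfold dl
  rw [eNc, eIb, eIc]
  omega

/-- **The corrections of the fans are at most the weight and the reserves.** -/
theorem dw_le (h : ∀ k < 101, ∀ o < optN k, wO sp ps rt tw k o = true) (hr : DT.all (rtR zt) rt = true)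
    {a : F} (ha : T.Tri a) :
    T.dl tw a ≤ psB sp ps (T.kx a) (T.ox a) (T.rs a) + T.rz zt 1 a +
      T.rz zt 2 (T.I (T.N (T.I (T.N a)))) := by
  have hb := T.tri_rot ha
  have hc := T.tri_rot hb
  have h1 := T.wC_at h ha
  have r1 := T.rt_le hr 1 ha
  have r2 := T.rt_le hr 2 hc
  rw [T.N_third ha] at r2
  rcases Nat.eq_zero_or_pos (T.dl tw a) with h0 | h0
  · rw [h0]
    exact Nat.zero_le _
  unfold wC at h1
  unfold dl at h0 ⊢
  rw [T.rs_tri ha] at h0 r1 ⊢
  rw [T.rs_tri hc] at r2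
  cases hrow : DT.get tw (dkey (T.kx a) (T.jx a)) with
  | nil =>
    rw [hrow] at h0
    exact absurd h0 (lt_irrefl 0)
  | g x r l =>
    rw [hrow] at h1 h0
    simp only [rForce_eq] at h1
    rw [← T.rot_k a, ← T.rot_j ha, T.farK_eq ha, ← T.rot_j hb] at h1
    have h5 := DL.val_of_all (x := T.X trX (T.I a)) (y := T.X trX (T.N a)) h1 h0
    rcases DR.val_of_all h5 (T.X trX (T.N a)) with h6 | h6
    · exact absurd h0 (by
        have h7 : DL.val (DL.g x r l) (T.X trX (T.I a)) (T.X trX (T.N a)) = 0 := h6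
        omega)
    · rcases ble_of_rIf h6 with h7 | h7
      · have h8 : DL.val (DL.g x r l) (T.X trX (T.I a)) (T.X trX (T.N a)) ≤
          psB sp ps (T.kx a) (T.ox a) (T.jx a) +
            DR.val (DL.grp (DT.get rt (dkey (T.kx (T.I (T.N (T.I (T.N a)))))
              (T.jx (T.I (T.N (T.I (T.N a))))))) 2) (T.X trX (T.I a)) := Nat.le_of_ble_eq_true h7
        omega
      · have h8 : DL.val (DL.g x r l) (T.X trX (T.I a)) (T.X trX (T.N a)) ≤
          psB sp ps (T.kx a) (T.ox a) (T.jx a) +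
            DR.val (DL.grp (DT.get rt (dkey (T.kx (T.I (T.N (T.I (T.N a)))))
              (T.jx (T.I (T.N (T.I (T.N a))))))) 2) (T.X trX (T.I a)) +
            DR.val (DL.grp (DT.get rt (dkey (T.kx a) (T.jx a))) 1) (T.X trX (T.N a)) :=
          Nat.le_of_ble_eq_true h7
        omega

end star

section reg

variable {gp gm : ℕ → ℕ → ℕ → ℕ → ℕ → ℕ → ℕ} {sp ps : ℕ → ℕ → ℕ → ℕ} {rt zt tw : DT}

/-- The row of the window at the strip `N a`. -/
noncomputable def zr (zt : DT) (a : F) : DL := DT.get zt (zkey (T.kx a) (T.rs a) (T.rs (T.N a)))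

/-- The weight of a corner for the region of the opposite strip. -/
noncomputable def pB (sp ps : ℕ → ℕ → ℕ → ℕ) (a : F) : ℕ :=
  psB sp ps (T.kx a) (T.ox a) (T.rs a)

/-- The check of the row of a window. -/
theorem regE_at (h : DT.all (regR gp gm sp ps rt zt tw) zt = true) {a : F} (ha : T.Tri a)
    (hn : T.Tri (T.N a)) {x : ℕ} {r : DR} {l : DL} (hrow : T.zr zt a = DL.g x r l) :
    Nat.ble 1048576 x = true ∧ regE gp gm sp ps rt zt tw (T.kx a) (T.ox a) (T.jx a) (T.kx (T.N a))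
      (T.ox (T.N a)) (T.jx (T.N a)) r l = true := by
  have jl := T.jx_lt ha
  have jl1 := T.jx_lt hn
  have b0 : T.jx a < 8192 := by
    have := T.rs_tri ha
    have h2 := (T.rs_lt_iff a).2 ha
    omega
  have b1 : T.jx (T.N a) < 8192 := by
    have := T.rs_tri hn
    have h2 := (T.rs_lt_iff (T.N a)).2 hn
    omega
  unfold zr at hrow
  rw [T.rs_tri ha, T.rs_tri hn] at hrow
  rcases DT.get_of_all h (zkey (T.kx a) (T.jx a) (T.jx (T.N a))) with h1 | h1
  · rw [h1] at hrow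
    cases hrow
  rw [hrow] at h1
  unfold regR at h1
  simp only [rForce_eq] at h1
  have e1 : Nat.div (zkey (T.kx a) (T.jx a) (T.jx (T.N a))) 67108864 = T.kx a := by
    rw [zkey_eq]
    show (T.jx (T.N a) + 8192 * (T.jx a + 8192 * T.kx a)) / 67108864 = _
    omega
  have e2 : Nat.mod (Nat.div (zkey (T.kx a) (T.jx a) (T.jx (T.N a))) 8192) 8192 = T.jx a := by
    rw [zkey_eq]
    show (T.jx (T.N a) + 8192 * (T.jx a + 8192 * T.kx a)) / 8192 % 8192 = _
    omega
  have e3 : Nat.mod (zkey (T.kx a) (T.jx a) (T.jx (T.N a))) 8192 = T.jx (T.N a) := by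
    rw [zkey_eq]
    show (T.jx (T.N a) + 8192 * (T.jx a + 8192 * T.kx a)) % 8192 = _
    omega
  rw [e1, e2, e3] at h1
  obtain ⟨hh, h1⟩ := rAnd_iff.1 h1
  obtain ⟨h2, h3⟩ := rAnd_iff.1 h1
  obtain ⟨h4, h5⟩ := rAnd_iff.1 h3
  have eo := oInt_unique (T.kx_lt a) h2 (T.ox_lt_optN a) jl.2 jl.1
  rw [eo, T.optA_div] at h4
  have eo1 := oInt_unique (T.kx_lt (T.N a)) h4 (T.ox_lt_optN (T.N a)) jl1.2 jl1.1
  rw [eo, T.optA_div, eo1] at h5
  exact ⟨hh, h5⟩

/-- **The budget of a strip and the closure over its region.** -/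
theorem reg_at (h : DT.all (regR gp gm sp ps rt zt tw) zt = true) (hr : DT.all (rtR zt) rt = true)
    {a : F} (ha : T.Tri a) (hn : T.Tri (T.N a)) (hrow : T.zr zt a ≠ DL.nil) :
    T.gzN gm a + T.gzN gm (T.bk a) + (T.rtot zt a + T.rtot zt (T.bk a)) ≤
        T.gzN gp a + T.gzN gp (T.bk a) ∧
      (0 < T.win zt a →
        T.win zt a + T.win zt (T.bk a) + T.dl tw (T.I (T.N (T.N a))) +
          T.dl tw (T.I (T.N (T.I (T.N a)))) + (T.gzN gm a + T.gzN gm (T.bk a) +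
            (T.rtot zt a + T.rtot zt (T.bk a))) ≤
        T.gzN gp a + T.gzN gp (T.bk a) + T.pB sp ps (T.I (T.N (T.N a))) +
          T.pB sp ps (T.I (T.N (T.I (T.N a)))) +
          (T.rz zt 1 (T.I (T.N (T.I (T.N a)))) + T.rz zt 2 (T.N a) + T.rz zt 2 (T.I (T.N a)) +
            T.rz zt 1 (T.I (T.N (T.N a))))) := by
  have ha2 := T.tri_rot ha
  have ha3 := T.tri_rot ha2
  have hn2 := T.tri_rot hn
  have hn3 := T.tri_rot hn2
  have hb : T.Tri (T.bk a) := (T.tri_bk a).2 hn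
  have hb1 : T.Tri (T.N (T.bk a)) := (T.tri_N_bk a).2 ha
  have hbe := T.bk_tri hn
  cases hr0 : T.zr zt a with
  | nil => exact absurd hr0 hrow
  | g x r l =>
    obtain ⟨hx, hE⟩ := T.regE_at h ha hn hr0
    have htot : T.rtot zt a = DR.tot r := by
      rw [T.rtot_tri ha hn]
      show DR.tot (DL.hd (T.zr zt a)) = _
      rw [hr0]
      rfl
    have hbtot := T.rtot_tri (zt := zt) hb hb1
    unfold regE at hE
    simp only [rForce_eq] at hE
    rw [← T.rot_k a, ← T.rot_j ha, ← T.rot_o ha, T.farK_eq ha, ← T.rot_k (T.N a), ← T.rot_j hn,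
      ← T.rot_o hn, T.farK_eq hn, T.t3A_jx ha, T.t3A_jx hn, ← T.rot_j ha2, ← T.rot_j hn2] at hE
    obtain ⟨h2, h3⟩ := rAnd_iff.1 hE
    have hbk : T.I (T.N (T.I (T.N (T.N a)))) = T.bk a := hbe.symm
    have hzb : DT.get zt (zkey (T.kx (T.I (T.N (T.I (T.N (T.N a))))))
        (T.jx (T.I (T.N (T.I (T.N (T.N a)))))) (T.jx (T.I (T.N a)))) = T.zr zt (T.bk a) := by
      unfold zr
      rw [hbk, T.rs_tri hb, N_bk, T.rs_tri ha2]
    rw [hzb] at h2 h3
    have e1 : T.gzN gp a = gp (T.kx a) (T.ox a) (T.jx a) (T.kx (T.N a)) (T.ox (T.N a))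
        (T.jx (T.N a)) := by
      unfold gzN
      rw [T.rs_tri ha, T.rs_tri hn]
    have e2 : T.gzN gm a = gm (T.kx a) (T.ox a) (T.jx a) (T.kx (T.N a)) (T.ox (T.N a))
        (T.jx (T.N a)) := by
      unfold gzN
      rw [T.rs_tri ha, T.rs_tri hn]
    have e3 : T.gzN gp (T.bk a) = gp (T.kx (T.bk a)) (T.ox (T.bk a)) (T.jx (T.bk a))
        (T.kx (T.I (T.N a))) (T.ox (T.I (T.N a))) (T.jx (T.I (T.N a))) := by
      unfold gzN
      rw [T.rs_tri hb, N_bk, T.rs_tri ha2]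
    have e4 : T.gzN gm (T.bk a) = gm (T.kx (T.bk a)) (T.ox (T.bk a)) (T.jx (T.bk a))
        (T.kx (T.I (T.N a))) (T.ox (T.I (T.N a))) (T.jx (T.I (T.N a))) := by
      unfold gzN
      rw [T.rs_tri hb, N_bk, T.rs_tri ha2]
    have e5 : T.rtot zt (T.bk a) = DR.tot (DL.hd (T.zr zt (T.bk a))) := hbtot
    rw [hbk, ← e1, ← e2, ← e3, ← e4, ← htot, ← e5] at h2 h3
    have h2' : T.gzN gm a + T.gzN gm (T.bk a) + (T.rtot zt a + T.rtot zt (T.bk a)) ≤
        T.gzN gp a + T.gzN gp (T.bk a) := Nat.le_of_ble_eq_true h2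
    refine ⟨h2', fun h0 => ?_⟩
    have w1 : T.win zt a = DL.val l (T.X trX (T.N (T.N a))) (T.X trX (T.I a)) := by
      rw [T.win_tri ha hn]
      show DL.val (T.zr zt a) _ _ = _
      rw [hr0, DL.val_tail hx (T.X_lt _)]
    have w2 : T.win zt (T.bk a) = DL.val (DL.tl (T.zr zt (T.bk a)))
        (T.X trX (T.N (T.I (T.N a)))) (T.X trX (T.I (T.bk a))) := by
      rw [T.win_tri hb hb1]
      show DL.val (T.zr zt (T.bk a)) _ _ = _
      rw [N_bk]
      cases hrb : T.zr zt (T.bk a) with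
      | nil => rfl
      | g x' r' l' =>
        have hx' := (T.regE_at h hb hb1 hrb).1
        rw [DL.val_tail hx' (T.X_lt _)]
        rfl
    rw [w1] at h0
    have h6 := rgOK_sound h3 (x1 := T.X trX (T.I a)) (x2 := T.X trX (T.N (T.N a)))
      (T.X trX (T.N (T.I (T.N a)))) (T.X trX (T.I (T.bk a))) h0
    have eN : T.N (T.I (T.N (T.N a))) = T.I (T.bk a) := by
      rw [hbe, I_I]
    have eNl : T.N (T.I (T.N (T.I (T.N a)))) = T.I a := T.N_third ha
    have r1 := T.rt_le hr 1 ha3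
    have r2 := T.rt_le hr 2 hn
    have r3 := T.rt_le hr 2 ha2
    have r4 := T.rt_le hr 1 hn2
    rw [eNl, T.rs_tri ha3] at r1
    rw [T.rs_tri hn] at r2
    rw [T.rs_tri ha2] at r3
    rw [eN, T.rs_tri hn2] at r4
    have d1 : T.dl tw (T.I (T.N (T.N a))) = DL.val (DT.get tw (dkey (T.kx (T.I (T.N (T.N a))))
        (T.jx (T.I (T.N (T.N a)))))) (T.X trX (T.N (T.N a))) (T.X trX (T.I (T.bk a))) := by
      unfold dl
      rw [T.rs_tri hn2, I_I, eN]
    have d2 : T.dl tw (T.I (T.N (T.I (T.N a)))) = DL.val (DT.get tw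
        (dkey (T.kx (T.I (T.N (T.I (T.N a))))) (T.jx (T.I (T.N (T.I (T.N a)))))))
        (T.X trX (T.N (T.I (T.N a)))) (T.X trX (T.I a)) := by
      unfold dl
      rw [T.rs_tri ha3, I_I, eNl]
    have p1 : T.pB sp ps (T.I (T.N (T.N a))) = psB sp ps (T.kx (T.I (T.N (T.N a))))
        (T.ox (T.I (T.N (T.N a)))) (T.jx (T.I (T.N (T.N a)))) := by
      unfold pB
      rw [T.rs_tri hn2]
    have p2 : T.pB sp ps (T.I (T.N (T.I (T.N a)))) = psB sp ps (T.kx (T.I (T.N (T.I (T.N a)))))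
        (T.ox (T.I (T.N (T.I (T.N a))))) (T.jx (T.I (T.N (T.I (T.N a))))) := by
      unfold pB
      rw [T.rs_tri ha3]
    rw [w1, w2, d1, d2, p1, p2]
    simp only [Nat.add_eq, Nat.sub_eq] at h6
    omega

end reg

end SMap

end Pool.Agent.Lib.MP_5854e1_co
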