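import Pool.Agent.Lib.MP_5854e1_co.Reduce7
import Pool.Agent.Lib.MP_5854e1_co.RsvMap
import Pool.Agent.Lib.MP_5854e1_co.QuadSym

/-!
# The tables of a certificate

`V k0 o0 s0 k1 o1 s1` is the value of a strip `N d` with the corner after it; the arguments are the
shape, the option and the ring state of `d` and of `N d`. A triangular corner gets `D - t` from its
triangle and `ps - tw` from the region of the opposite strip; the windows of the strips between two
triangles get `- zt`. The part `sp` of `ps` may be used for the triangle. The first groups of the rows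
of `zt` are reserves for the closures over the two triangles and over the four regions of the outer
strips; `rt` is a table of the same numbers by triangles.
-/

set_option autoImplicit false

open Equiv Equiv.Perm

namespace Pool.Agent.Lib.MP_5854e1_co

open Finset

/-- The tables of a certificate. There are `12 * u` units; `α` is the share of a letter. The
correction of a triangular corner is `D - t + ps - tw`, that of another corner is `q - qo - t4`; the
difference of `gp` and `gm` is a lower bound of `G` between two triangles. -/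
structure Tabs where
  u : ℕ
  α : ℕ
  V : ℕ → ℕ → ℕ → ℕ → ℕ → ℕ → ℤ
  nd : ℕ → ℕ → ℕ → ℤ
  gg : ℕ → ℕ → ℕ → ℤ
  D : ℕ → ℕ → ℕ
  ps : ℕ → ℕ → ℕ → ℕ
  sp : ℕ → ℕ → ℕ → ℕ
  gp : ℕ → ℕ → ℕ → ℕ → ℕ → ℕ → ℕ
  gm : ℕ → ℕ → ℕ → ℕ → ℕ → ℕ → ℕ
  t : DT
  tw : DT
  zt : DT
  rt : DT
  q : ℕ → ℕ → ℕ
  w : ℕ
  qo : ℕ
  t4 : DT
  tr : ℕ → ℕ → ℕ
  m : ℕ → ℕ → ℕ
  q5 : ℕ → ℕ → ℕ
  zm : ℕ
  t0 : ℕ
  t1 : ℕ

namespace Tabs

variable (c : Tabs)

/-- The constant part of the correction of a corner. -/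
def Y (k o s : ℕ) : ℤ :=
  if s < 7936 then (c.D k o : ℤ) else
    (((c.q k o) >>> (c.w * (s - 7936)) % 2 ^ c.w : ℕ) : ℤ) - c.qo

/-- The weight of a corner from the region of the opposite strip. -/
def Ps (k o s : ℕ) : ℤ := if s < 7936 then (c.ps k o s : ℤ) else 0

/-- The amount moved across the second strip. -/
def G (k0 o0 s0 k1 o1 s1 : ℕ) : ℤ :=
  c.V k0 o0 s0 k1 o1 s1 - c.α * lsA k1 (optA k1 o1) + 6 * c.u -
    (if s1 < 7936 then 4 * c.u else 3 * c.u) - c.Y k1 o1 s1 - c.Ps k1 o1 s1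

/-- The checks of the tables. -/
structure OK : Prop where
  u_pos : 0 < c.u
  qo_le : c.qo ≤ c.u
  del : ∀ k < 101, ∀ o < optN k, stO c.D c.sp c.ps c.t c.rt k o = true
  wps : ∀ k < 101, ∀ o < optN k, wO c.sp c.ps c.rt c.tw k o = true
  reg : DT.all (regR c.gp c.gm c.sp c.ps c.rt c.zt c.tw) c.zt = true
  rsv : DT.all (rtR c.zt) c.rt = true
  quad : ∀ k1 < 101, ∀ k3 ≤ k1,
    qPair c.q c.w (2 ^ c.w) (2 ^ (3 * c.w)) (4 * c.qo) k1 k3 = true
  qtok : ∀ k < 101, sL0 c.q c.w (2 ^ c.w) (4 * c.qo) c.t4 k = true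
  low : ∀ k < 101, lowK c.q c.q5 c.w (2 ^ c.w) c.t4 k = true
  penta : PentaOK c.q5 c.w (2 ^ c.w) (5 * c.qo) (3 * c.u) c.zm c.t0 c.t1
  tm : ∀ k < 101, tmChk c.tr c.m k = true
  symQ4 : ∀ k < 101, symQ c.m c.t4 k = true
  symD : ∀ k < 101, ∀ o < optN k, symO c.t k o = true
  symW : ∀ k < 101, ∀ o < optN k, symO c.tw k o = true
  symZ : DT.all (symZ c.zt) c.zt = true

end Tabs

/-- The order of the own pairs. -/
def okey (k o : ℕ) : ℕ := Nat.add o (Nat.mul (nat_lit 512) k)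

namespace SMap

variable {F : Type*} (T : SMap F) (c : Tabs)

/-- The need of the corner after a strip. -/
noncomputable def ndt (d : F) : ℤ := c.nd (T.kx d) (T.ox d) (T.rs d)

/-- The gauge of the corner after a strip. -/
noncomputable def ggt (d : F) : ℤ := c.gg (T.kx d) (T.ox d) (T.rs d)

open Classical in
/-- The correction of the corner after a strip, without the windows. -/
noncomputable def dl0 (d : F) : ℤ :=
  if T.Tri d then (T.dl c.t d : ℤ) else (T.dq c.t4 c.tr d : ℤ)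

open Classical in
/-- The correction of the corner opposite to a strip. -/
noncomputable def dlw (d : F) : ℤ := if T.Tri d then (T.dl c.tw d : ℤ) else 0

open Classical in
/-- The correction of the corner after a strip, and of the window at the next strip. -/
noncomputable def dlt (d : F) : ℤ :=
  (if T.Tri d then (T.dl c.t d + T.dl c.tw d : ℤ) else (T.dq c.t4 c.tr d : ℤ)) + T.win c.zt d

/-- The constant part of the correction of the corner after a strip. -/
noncomputable def Yt (d : F) : ℤ := c.Y (T.kx d) (T.ox d) (T.rs d)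

/-- The weight of the corner after a strip from the region of the opposite strip. -/
noncomputable def Pt (d : F) : ℤ := c.Ps (T.kx d) (T.ox d) (T.rs d)

theorem dl0_nonneg (d : F) : 0 ≤ T.dl0 c d := by
  unfold dl0
  split_ifs <;> exact Int.natCast_nonneg _

theorem dlw_nonneg (d : F) : 0 ≤ T.dlw c d := by
  unfold dlw
  split_ifs
  · exact Int.natCast_nonneg _
  · exact le_rfl

theorem dl0_tri {d : F} (h : T.Tri d) : T.dl0 c d = T.dl c.t d := if_pos h

theorem dl0_big {d : F} (h : ¬T.Tri d) : T.dl0 c d = T.dq c.t4 c.tr d := if_neg h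

theorem dlw_tri {d : F} (h : T.Tri d) : T.dlw c d = T.dl c.tw d := if_pos h

theorem dlw_big {d : F} (h : ¬T.Tri d) : T.dlw c d = 0 := if_neg h

theorem dlt_eq (d : F) : T.dlt c d = T.dl0 c d + T.dlw c d + T.win c.zt d := by
  unfold dlt dl0 dlw
  split_ifs <;> ring

theorem dlt_nonneg (d : F) : 0 ≤ T.dlt c d := by
  rw [dlt_eq]
  have h1 := T.dl0_nonneg c d
  have h2 := T.dlw_nonneg c d
  have h3 : (0 : ℤ) ≤ T.win c.zt d := Int.natCast_nonneg _
  omega

theorem Pt_tri {d : F} (h : T.Tri d) : T.Pt c d = T.cz c.ps d := by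
  unfold Pt Tabs.Ps
  rw [if_pos ((T.rs_lt_iff d).2 h)]
  rfl

theorem Pt_big {d : F} (h : ¬T.Tri d) : T.Pt c d = 0 := by
  unfold Pt Tabs.Ps
  rw [if_neg (fun h1 => h ((T.rs_lt_iff d).1 h1))]

theorem Yt_tri {d : F} (h : T.Tri d) : T.Yt c d = c.D (T.kx d) (T.ox d) := by
  unfold Yt Tabs.Y
  rw [if_pos ((T.rs_lt_iff d).2 h)]

theorem Yt_big {d : F} (h : ¬T.Tri d) : T.Yt c d = T.Z c.q c.w d - c.qo := by
  unfold Yt Tabs.Y
  rw [if_neg (fun h1 => h ((T.rs_lt_iff d).1 h1)), T.rs_big h, Nat.add_sub_cancel_left]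
  rfl

theorem lsA_ox (d : F) : lsA (T.kx d) (optA (T.kx d) (T.ox d)) = T.ls d := by
  rw [optA_ox, T.ls_eq]

/-- The value of the next strip and the amount moved across it. -/
theorem gw_eq (hu : 0 < c.u) (d : F) :
    T.gw (12 * c.u) c.α (fun e => T.gz c.V (T.N⁻¹ e)) (fun a => T.Yt c a + T.Pt c a) (T.N d) =
      (T.gz c.G d : ℚ) / (12 * c.u : ℕ) := by
  have hU' : ((12 * c.u : ℕ) : ℚ) ≠ 0 := by
    have : 12 * c.u ≠ 0 := by omega
    exact_mod_cast this
  have hsh : T.shr (T.N d) * ((12 * c.u : ℕ) : ℚ) =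
      ((if T.rs (T.N d) < 7936 then 4 * c.u else 3 * c.u : ℕ) : ℚ) := by
    by_cases h : T.Tri (T.N d)
    · rw [T.shr_tri h, if_pos ((T.rs_lt_iff _).2 h)]
      push_cast
      ring
    · rw [T.shr_big h, if_neg (fun h1 => h ((T.rs_lt_iff _).1 h1))]
      push_cast
      ring
  unfold gw
  simp only [N_inv_N]
  rw [eq_div_iff hU', sub_mul, sub_mul, add_mul, sub_mul, div_mul_cancel₀ _ hU',
    div_mul_cancel₀ _ hU', div_mul_cancel₀ _ hU', hsh]
  unfold gz Tabs.G
  rw [T.lsA_ox]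
  unfold Yt Pt
  push_cast
  ring

theorem tri_of_tri_rot {a : F} (h : T.Tri (T.I (T.N a))) : T.Tri a := (T.tri_I_N a).1 h

/-- The root pair may be taken to be the smaller one of two images. -/
theorem of_canon {P : SMap F → F → Prop} (h1 : ∀ T d, P (relab T) d → P T d)
    (h2 : ∀ T : SMap F, ∀ d, okey (T.kx (T.N d)) (T.ox (T.N d)) ≤
      okey (T.relab.kx (T.N d)) (T.relab.ox (T.N d)) → P T d)
    (T : SMap F) (d : F) : P T d := by
  by_cases h : okey (T.kx (T.N d)) (T.ox (T.N d)) ≤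
      okey (T.relab.kx (T.N d)) (T.relab.ox (T.N d))
  · exact h2 T d h
  · refine h1 T d (h2 T.relab d ?_)
    rw [relab_relab, relab_N]
    omega

variable {c}

theorem relab_dl0 (h : c.OK) (d : F) : T.relab.dl0 c d = T.dl0 c d := by
  by_cases ht : T.Tri d
  · rw [T.dl0_tri c ht, T.relab.dl0_tri c ht, T.relab_dl h.symD ht]
  · rw [T.dl0_big c ht, T.relab.dl0_big c ht, T.relab_dq h.tm h.symQ4]

theorem relab_dlw (h : c.OK) (d : F) : T.relab.dlw c d = T.dlw c d := by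
  by_cases ht : T.Tri d
  · rw [T.dlw_tri c ht, T.relab.dlw_tri c ht, T.relab_dl h.symW ht]
  · rw [T.dlw_big c ht, T.relab.dlw_big c ht]

theorem relab_dlt (h : c.OK) (d : F) : T.relab.dlt c d = T.dlt c d := by
  rw [dlt_eq, dlt_eq, T.relab_dl0 h, T.relab_dlw h, T.relab_win h.symZ]

/-- The part of the weight of a corner for the triangle. -/
noncomputable def PA (c : Tabs) (d : F) : ℤ :=
  if T.rs d < 7936 then (psA c.sp c.ps (T.kx d) (T.ox d) (T.rs d) : ℤ) else 0

theorem PA_tri {d : F} (h : T.Tri d) : T.PA c d = psA c.sp c.ps (T.kx d) (T.ox d) (T.rs d) :=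
  if_pos ((T.rs_lt_iff d).2 h)

theorem PA_big {d : F} (h : ¬T.Tri d) : T.PA c d = 0 := if_neg fun h1 => h ((T.rs_lt_iff d).1 h1)

theorem Pt_sub_PA {d : F} (h : T.Tri d) : T.Pt c d - T.PA c d = T.pB c.sp c.ps d := by
  have h1 := psA_add_psB c.sp c.ps (T.kx d) (T.ox d) (T.rs d)
  rw [T.PA_tri h, T.Pt_tri c h]
  unfold pB cz
  omega

/-- **The amounts moved across a strip and the reserves.** -/
theorem anti_net (h : c.OK)
    (anti : ∀ (T : SMap F) (d : F), 0 ≤ T.gz c.G d + T.gz c.G (T.bk d))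
    (hG : ∀ (T : SMap F) (d : F), T.Tri d → T.Tri (T.N d) →
      (T.gzN c.gp d : ℤ) - T.gzN c.gm d ≤ T.gz c.G d) (d : F) :
    (T.rtot c.zt d : ℤ) + T.rtot c.zt (T.bk d) ≤ T.gz c.G d + T.gz c.G (T.bk d) := by
  have key : ∀ e, T.Tri e → T.Tri (T.N e) → T.zr c.zt e ≠ DL.nil →
      (T.rtot c.zt e : ℤ) + T.rtot c.zt (T.bk e) ≤ T.gz c.G e + T.gz c.G (T.bk e) := by
    intro e ha hn hz
    have h1 := (T.reg_at h.reg h.rsv ha hn hz).1
    have h2 := hG T e ha hn
    have h3 := hG T (T.bk e) ((T.tri_bk e).2 hn) ((T.tri_N_bk e).2 ha)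
    omega
  have hz : ∀ e, (T.Tri e ∧ T.Tri (T.N e) ∧ T.zr c.zt e ≠ DL.nil) ∨ T.rtot c.zt e = 0 := by
    intro e
    by_cases h1 : T.Tri e
    · by_cases h2 : T.Tri (T.N e)
      · by_cases h3 : T.zr c.zt e = DL.nil
        · right
          unfold rtot
          rw [T.rz_tri h1 h2, T.rz_tri h1 h2, T.rz_tri h1 h2]
          have h4 : DT.get c.zt (zkey (T.kx e) (T.rs e) (T.rs (T.N e))) = DL.nil := h3
          rw [h4]
          rfl
        · exact Or.inl ⟨h1, h2, h3⟩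
      · right
        have : ∀ g, T.rz c.zt g e = 0 := fun g => if_neg fun h3 => h2 h3.2
        unfold rtot
        rw [this, this, this]
    · right
      unfold rtot
      rw [T.rz_left h1, T.rz_left h1, T.rz_left h1]
  rcases hz d with ⟨h1, h2, h3⟩ | h1
  · exact key d h1 h2 h3
  · rcases hz (T.bk d) with ⟨h2, h3, h4⟩ | h2
    · have h5 := key _ h2 h3 h4
      rw [bk_bk] at h5
      linarith
    · have h3 := anti T d
      rw [h1, h2]
      push_cast
      linarith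

/-- **The sum over the region of a strip.** -/
theorem region_sum (h : c.OK)
    (anti : ∀ (T : SMap F) (d : F), 0 ≤ T.gz c.G d + T.gz c.G (T.bk d))
    (hG : ∀ (T : SMap F) (d : F), T.Tri d → T.Tri (T.N d) →
      (T.gzN c.gp d : ℤ) - T.gzN c.gm d ≤ T.gz c.G d) (d : F) :
    (T.win c.zt d : ℤ) + T.win c.zt (T.bk d) + T.dlw c (T.I (T.N (T.N d))) +
      T.dlw c (T.I (T.N (T.I (T.N d)))) + (T.rtot c.zt d + T.rtot c.zt (T.bk d)) -
      (T.Pt c (T.I (T.N (T.N d))) - T.PA c (T.I (T.N (T.N d)))) -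
      (T.Pt c (T.I (T.N (T.I (T.N d)))) - T.PA c (T.I (T.N (T.I (T.N d))))) -
      T.rz c.zt 1 (T.I (T.N (T.N d))) - T.rz c.zt 2 (T.N d) -
      T.rz c.zt 1 (T.I (T.N (T.I (T.N d)))) - T.rz c.zt 2 (T.I (T.N d)) ≤
        T.gz c.G d + T.gz c.G (T.bk d) := by
  have key : ∀ e, 0 < T.win c.zt e →
      (T.win c.zt e : ℤ) + T.win c.zt (T.bk e) + T.dlw c (T.I (T.N (T.N e))) +
      T.dlw c (T.I (T.N (T.I (T.N e)))) + (T.rtot c.zt e + T.rtot c.zt (T.bk e)) -
      (T.Pt c (T.I (T.N (T.N e))) - T.PA c (T.I (T.N (T.N e)))) -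
      (T.Pt c (T.I (T.N (T.I (T.N e)))) - T.PA c (T.I (T.N (T.I (T.N e))))) -
      T.rz c.zt 1 (T.I (T.N (T.N e))) - T.rz c.zt 2 (T.N e) -
      T.rz c.zt 1 (T.I (T.N (T.I (T.N e)))) - T.rz c.zt 2 (T.I (T.N e)) ≤
        T.gz c.G e + T.gz c.G (T.bk e) := by
    intro e he
    have ha : T.Tri e := by
      by_contra h1
      rw [T.win_left h1] at he
      exact absurd he (lt_irrefl 0)
    have hn : T.Tri (T.N e) := by
      by_contra h1
      rw [T.win_right h1] at he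
      exact absurd he (lt_irrefl 0)
    have hz : T.zr c.zt e ≠ DL.nil := by
      intro h1
      rw [T.win_tri ha hn] at he
      have h4 : DT.get c.zt (zkey (T.kx e) (T.rs e) (T.rs (T.N e))) = DL.nil := h1
      rw [h4] at he
      exact absurd he (lt_irrefl 0)
    have h1 := (T.reg_at h.reg h.rsv ha hn hz).2 he
    have h2 := hG T e ha hn
    have h3 := hG T (T.bk e) ((T.tri_bk e).2 hn) ((T.tri_N_bk e).2 ha)
    rw [T.dlw_tri c (T.tri_rot hn), T.dlw_tri c (T.tri_rot (T.tri_rot ha)),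
      T.Pt_sub_PA (T.tri_rot hn), T.Pt_sub_PA (T.tri_rot (T.tri_rot ha))]
    omega
  have hle : ∀ e, T.dlw c e ≤ (T.Pt c e - T.PA c e) + T.rz c.zt 1 e +
      T.rz c.zt 2 (T.I (T.N (T.I (T.N e)))) := by
    intro e
    by_cases he : T.Tri e
    · rw [T.dlw_tri c he, T.Pt_sub_PA he]
      exact_mod_cast T.dw_le h.wps h.rsv he
    · rw [T.dlw_big c he, T.Pt_big c he, T.PA_big he]
      have h1 : (0 : ℤ) ≤ T.rz c.zt 1 e := Int.natCast_nonneg _
      have h2 : (0 : ℤ) ≤ T.rz c.zt 2 (T.I (T.N (T.I (T.N e)))) := Int.natCast_nonneg _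
      linarith
  have hle' : ∀ e f, (T.Tri e → T.I (T.N (T.I (T.N e))) = f) →
      T.dlw c e ≤ (T.Pt c e - T.PA c e) + T.rz c.zt 1 e + T.rz c.zt 2 f := by
    intro e f hf
    by_cases he : T.Tri e
    · have h1 := hle e
      rw [hf he] at h1
      exact h1
    · rw [T.dlw_big c he, T.Pt_big c he, T.PA_big he]
      have h1 : (0 : ℤ) ≤ T.rz c.zt 1 e := Int.natCast_nonneg _
      have h2 : (0 : ℤ) ≤ T.rz c.zt 2 f := Int.natCast_nonneg _
      linarith
  rcases Nat.eq_zero_or_pos (T.win c.zt d) with h1 | h1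
  · rcases Nat.eq_zero_or_pos (T.win c.zt (T.bk d)) with h2 | h2
    · rw [h1, h2]
      have h3 := hle' (T.I (T.N (T.N d))) (T.N d) fun ht =>
        T.rot_three ((T.tri_rot_iff (T.N d)).1 ht)
      have h4 := hle' (T.I (T.N (T.I (T.N d)))) (T.I (T.N d)) fun ht =>
        T.rot_three ((T.tri_rot_iff (T.I (T.N d))).1 ht)
      have h5 := T.anti_net h anti hG d
      push_cast
      linarith
    · have h3 := key _ h2
      rw [bk_bk, N_bk, I_I] at h3
      linarith
  · exact key d h1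

/-- **The bound from the tables and the search.** The search treats a strip `d` such that all partial
sums from `N d` with the gauge are positive and larger than the needs; the own pair of `N d` is
canonical. -/
theorem bound_of_tabs [Finite F] (h : c.OK)
    (anti : ∀ (T : SMap F) (d : F), 0 ≤ T.gz c.G d + T.gz c.G (T.bk d))
    (hG : ∀ (T : SMap F) (d : F), T.Tri d → T.Tri (T.N d) →
      (T.gzN c.gp d : ℤ) - T.gzN c.gm d ≤ T.gz c.G d)
    (need : ∀ (T : SMap F) (d : F),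
      T.ndt c d ≤ T.ggt c d ∨ T.ndt c d ≤ T.ndt c (T.N d) - T.gz c.V d)
    (symV : ∀ (T : SMap F) (d : F), T.relab.gz c.V d = T.gz c.V d)
    (symN : ∀ (T : SMap F) (d : F), T.relab.ndt c d = T.ndt c d)
    (symG : ∀ (T : SMap F) (d : F), T.relab.ggt c d = T.ggt c d)
    (hs : ∀ (T : SMap F) (d : F),
      okey (T.kx (T.N d)) (T.ox (T.N d)) ≤
        okey (mK (T.kx (T.N d))) (mO' (T.kx (T.N d)) (T.ox (T.N d))) →
      (∀ n, 0 < n → 0 < ∑ i ∈ range n, T.gz c.V (T.N^[i] d) + T.ggt c d - T.ggt c (T.N^[n] d)) →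
      (∀ n, T.ndt c (T.N^[n + 1] d) <
        ∑ i ∈ range (n + 1), T.gz c.V (T.N^[i] d) + T.ggt c d) →
      ∑ i ∈ range (Function.minimalPeriod T.N d),
        (T.gz c.V (T.N^[i] d) - T.dlt c (T.N^[i + 1] d)) ≤ 0) :
    T.Bound (1 - 24 * c.α / (12 * c.u : ℕ)) := by
  have hu := h.u_pos
  have eP : (fun a => (T.Yt c a + T.PA c a) + (T.Pt c a - T.PA c a)) =
      fun a => T.Yt c a + T.Pt c a := by
    funext a
    ring
  refine T.bound_of_search8 (U := 12 * c.u) (α := c.α) (by omega)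
    (fun e => T.gz c.V (T.N⁻¹ e)) (fun d => T.ndt c d - T.ggt c d) (T.ggt c)
    (fun a => T.Yt c a + T.PA c a) (T.dl0 c)
    (fun a => T.Pt c a - T.PA c a) (T.dlw c) (fun d => T.win c.zt d) (fun a => T.rz c.zt 0 a)
    (fun a => T.rz c.zt 1 a) (fun a => T.rz c.zt 2 a) (T.dl0_nonneg c) (T.dlw_nonneg c)
    (fun d => Int.natCast_nonneg _) ?_ ?_ ?_ ?_ ?_ ?_ ?_ ?_
  · intro a ha
    have hb : ¬T.Tri (T.N⁻¹ (T.I a)) := by
      intro h1
      have h2 := (T.tri_I_N _).2 h1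
      rw [T.N_N_inv', I_I] at h2
      exact ha h2
    refine ⟨?_, T.dlw_big c ha, ?_, ?_, ?_⟩
    · rw [T.Pt_big c ha, T.PA_big ha, sub_zero]
    · rw [T.rz_left ha]
      rfl
    · rw [T.rz_left ha]
      rfl
    · rw [T.rz_left hb]
      rfl
  · intro d
    obtain ⟨e, rfl⟩ : ∃ e, T.N e = d := ⟨T.N⁻¹ d, T.N_N_inv' d⟩
    have hb : T.I (T.N e) = T.N (T.bk e) := (T.N_bk e).symm
    have e1 : T.N⁻¹ (T.I (T.N e)) = T.bk e := rfl
    have h1 := T.region_sum h anti hG e
    rw [e1, N_inv_N, eP]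
    have e2 : T.gw (12 * c.u) c.α (fun e => T.gz c.V (T.N⁻¹ e)) (fun a => T.Yt c a + T.Pt c a)
        (T.I (T.N e)) = (T.gz c.G (T.bk e) : ℚ) / (12 * c.u : ℕ) := by
      rw [hb]
      exact T.gw_eq c hu (T.bk e)
    rw [e2, T.gw_eq c hu e, ← add_div]
    refine div_le_div_of_nonneg_right ?_ (Nat.cast_nonneg _)
    have h2 : (T.win c.zt e : ℤ) + T.win c.zt (T.bk e) + T.dlw c (T.I (T.N (T.N e))) +
        T.dlw c (T.I (T.N (T.I (T.N e)))) +
        ((T.rz c.zt 0 e : ℤ) + T.rz c.zt 1 e + T.rz c.zt 2 e) +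
        ((T.rz c.zt 0 (T.bk e) : ℤ) + T.rz c.zt 1 (T.bk e) + T.rz c.zt 2 (T.bk e)) -
        (T.Pt c (T.I (T.N (T.N e))) - T.PA c (T.I (T.N (T.N e)))) -
        (T.Pt c (T.I (T.N (T.I (T.N e)))) - T.PA c (T.I (T.N (T.I (T.N e))))) -
        T.rz c.zt 1 (T.I (T.N (T.N e))) - T.rz c.zt 2 (T.N e) -
        T.rz c.zt 1 (T.I (T.N (T.I (T.N e)))) - T.rz c.zt 2 (T.I (T.N e)) ≤
          T.gz c.G e + T.gz c.G (T.bk e) := by
      unfold rtot at h1
      push_cast at h1
      linarith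
    exact_mod_cast h2
  · intro a ha
    have ha2 := T.tri_rot ha
    have ha3 := T.tri_rot ha2
    have h1 := T.star_sum h.del h.rsv ha
    rw [T.dl0_tri c ha, T.dl0_tri c ha2, T.dl0_tri c ha3, T.Yt_tri c ha, T.Yt_tri c ha2,
      T.Yt_tri c ha3, T.PA_tri ha, T.PA_tri ha2, T.PA_tri ha3]
    unfold sbud at h1
    exact_mod_cast h1
  · intro a ha h4
    have ha2 : ¬T.Tri (T.I (T.N a)) := fun h1 => ha (T.tri_of_tri_rot h1)
    have ha3 : ¬T.Tri (T.I (T.N (T.I (T.N a)))) := fun h1 => ha2 (T.tri_of_tri_rot h1)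
    have ha4 : ¬T.Tri (T.I (T.N (T.I (T.N (T.I (T.N a)))))) := fun h1 => ha3 (T.tri_of_tri_rot h1)
    rw [T.dl0_big c ha, T.dl0_big c ha2, T.dl0_big c ha3, T.dl0_big c ha4, T.Yt_big c ha,
      T.Yt_big c ha2, T.Yt_big c ha3, T.Yt_big c ha4, T.PA_big ha, T.PA_big ha2, T.PA_big ha3,
      T.PA_big ha4]
    have h1 := T.quad_sum (row := c.q) (w := c.w) h.quad h4
    have h2 := T.quad_tok (tr := c.tr) h.qtok h4 h1
    have h3 : ((4 * c.qo + (T.dq c.t4 c.tr a + T.dq c.t4 c.tr (T.I (T.N a)) +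
        T.dq c.t4 c.tr (T.I (T.N (T.I (T.N a)))) +
        T.dq c.t4 c.tr (T.I (T.N (T.I (T.N (T.I (T.N a))))))) : ℕ) : ℤ) ≤
      (T.Z c.q c.w a + T.Z c.q c.w (T.I (T.N a)) +
        T.Z c.q c.w (T.I (T.N (T.I (T.N a)))) +
        T.Z c.q c.w (T.I (T.N (T.I (T.N (T.I (T.N a)))))) : ℕ) := by exact_mod_cast h2
    push_cast at h3
    linarith
  · intro a ha h5
    have ha2 : ¬T.Tri (T.I (T.N a)) := fun h1 => ha (T.tri_of_tri_rot h1)
    have ha3 : ¬T.Tri (T.I (T.N (T.I (T.N a)))) := fun h1 => ha2 (T.tri_of_tri_rot h1)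
    have ha4 : ¬T.Tri (T.I (T.N (T.I (T.N (T.I (T.N a)))))) := fun h1 => ha3 (T.tri_of_tri_rot h1)
    have ha5 : ¬T.Tri (T.I (T.N (T.I (T.N (T.I (T.N (T.I (T.N a)))))))) :=
      fun h1 => ha4 (T.tri_of_tri_rot h1)
    rw [T.dl0_big c ha, T.dl0_big c ha2, T.dl0_big c ha3, T.dl0_big c ha4, T.dl0_big c ha5,
      T.Yt_big c ha, T.Yt_big c ha2, T.Yt_big c ha3, T.Yt_big c ha4, T.Yt_big c ha5,
      T.PA_big ha, T.PA_big ha2, T.PA_big ha3, T.PA_big ha4, T.PA_big ha5]
    have h1 := T.penta_sum h.penta h5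
    have g := T.dq_le (tr := c.tr) h.low
    have g1 := g a
    have g2 := g (T.I (T.N a))
    have g3 := g (T.I (T.N (T.I (T.N a))))
    have g4 := g (T.I (T.N (T.I (T.N (T.I (T.N a))))))
    have g5 := g (T.I (T.N (T.I (T.N (T.I (T.N (T.I (T.N a))))))))
    push_cast
    omega
  · intro a ha
    rw [T.dl0_big c ha, T.Yt_big c ha, T.PA_big ha]
    have h1 := h.qo_le
    have h3 := T.dq_le (tr := c.tr) h.low a
    push_cast
    omega
  · intro d
    simp only [N_inv_N]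
    rcases need T d with h1 | h1
    · left
      linarith
    · right
      linarith
  · intro e he1 he2
    obtain ⟨d, rfl⟩ : ∃ d, T.N d = e := ⟨T.N⁻¹ e, T.N_N_inv' e⟩
    have e1 : ∀ i, T.N⁻¹ (T.N^[i] (T.N d)) = T.N^[i] d := by
      intro i
      rw [← Function.iterate_succ_apply, Function.iterate_succ_apply', N_inv_N]
    have e2 : ∀ i, T.N^[i] (T.N d) = T.N^[i + 1] d := fun i => rfl
    simp only [e1] at he1 he2 ⊢
    simp only [e2] at he1 he2 ⊢
    have hp : Function.minimalPeriod T.N (T.N d) = Function.minimalPeriod T.N d :=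
      T.period_iterate d 1
    rw [hp]
    have e5 : ∀ i, T.dl0 c (T.N^[i + 1] d) + T.dlw c (T.N^[i + 1] d) +
        (T.win c.zt (T.N^[i + 1] d) : ℤ) = T.dlt c (T.N^[i + 1] d) := fun i => (T.dlt_eq c _).symm
    simp only [e5]
    have e6 : ∀ n, ∑ i ∈ range n, (T.gz c.V (T.N^[i] d) + T.ggt c (T.N^[i] d) -
        T.ggt c (T.N^[i + 1] d)) = ∑ i ∈ range n, T.gz c.V (T.N^[i] d) + T.ggt c d -
          T.ggt c (T.N^[n] d) := by
      intro n
      induction n with
      | zero =>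
        simp only [Finset.range_zero, Finset.sum_empty, zero_add]
        exact (sub_self _).symm
      | succ n ih =>
        rw [Finset.sum_range_succ, ih, Finset.sum_range_succ]
        ring
    have key := of_canon (F := F) (P := fun T d =>
      (∀ n, 0 < n → 0 < ∑ i ∈ range n, T.gz c.V (T.N^[i] d) + T.ggt c d - T.ggt c (T.N^[n] d)) →
      (∀ n, T.ndt c (T.N^[n + 1] d) <
        ∑ i ∈ range (n + 1), T.gz c.V (T.N^[i] d) + T.ggt c d) →
      ∑ i ∈ range (Function.minimalPeriod T.N d),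
        (T.gz c.V (T.N^[i] d) - T.dlt c (T.N^[i + 1] d)) ≤ 0) ?_ ?_ T d
    · refine key (fun n hn => ?_) (fun n => ?_)
      · have h1 := he1 n hn
        rw [e6] at h1
        exact h1
      · have h1 := he2 n
        rw [e6] at h1
        linarith
    · intro T d hr h1 h2
      simp only [relab_N] at hr
      simp only [symV T, symN T, symG T, T.relab_dlt h] at hr
      exact hr h1 h2
    · intro T d hk h1 h2
      rw [T.relab_kx, T.relab_ox] at hk
      exact hs T d hk h1 h2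

end SMap

end Pool.Agent.Lib.MP_5854e1_co
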