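import Pool.Agent.Lib.MP_5854e1_co.Lane
import Pool.Agent.Lib.MP_5854e1_co.RowSound
import Pool.Agent.Lib.MP_5854e1_co.Tabs

/-!
# The blocks are invariant under the reflection of the labels

The blocks of two pairs which are not fixed by the reflection are the same numbers as the blocks of
the reflected pairs. If a pair is fixed, then its lanes are permuted.
-/

set_option autoImplicit false

namespace Pool.Agent.Lib.MP_5854e1_co

namespace Rw

variable {α : Type}

theorem find_or {o : ℕ} : ∀ (r : Rw α) (x : Option (ℕ × α)),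
    find (fun k b => some (k, b)) o r x = (find (fun k b => some (k, b)) o r none).or x := by
  intro r
  induction r with
  | nil => intro x; rfl
  | hit o' k q b rest ih =>
    intro x
    show Bool.rec (motive := fun _ => Option (ℕ × α)) (find _ o rest x) (some (k, b)) (Nat.beq o' o) =
      (Bool.rec (motive := fun _ => Option (ℕ × α)) (find _ o rest none) (some (k, b))
        (Nat.beq o' o)).or x
    cases Nat.beq o' o with
    | true => rfl
    | false => exact ih x
  | one c o' k q b rest ih =>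
    intro x
    show Bool.rec (motive := fun _ => Option (ℕ × α)) (find _ o rest x) (some (k, b)) (Nat.beq o' o) =
      (Bool.rec (motive := fun _ => Option (ℕ × α)) (find _ o rest none) (some (k, b))
        (Nat.beq o' o)).or x
    cases Nat.beq o' o with
    | true => rfl
    | false => exact ih x
  | tok c q sub rest ihs ihr =>
    intro x
    show find _ o sub (find _ o rest x) = (find _ o sub (find _ o rest none)).or x
    rw [ihs (find _ o rest x), ihs (find _ o rest none), ihr x, Option.or_assoc]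

theorem find_eq {β : Type} {g : ℕ → α → β} {o : ℕ} : ∀ (r : Rw α) (d : β),
    find g o r d = (find (fun k b => some (k, b)) o r none).elim d fun p : ℕ × α => g p.1 p.2 := by
  intro r
  induction r with
  | nil => intro d; rfl
  | hit o' k q b rest ih =>
    intro d
    show Bool.rec (motive := fun _ => β) (find _ o rest d) (g k b) (Nat.beq o' o) =
      (Bool.rec (motive := fun _ => Option (ℕ × α)) (find _ o rest none) (some (k, b))
        (Nat.beq o' o)).elim d fun p : ℕ × α => g p.1 p.2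
    cases Nat.beq o' o with
    | true => rfl
    | false => exact ih d
  | one c o' k q b rest ih =>
    intro d
    show Bool.rec (motive := fun _ => β) (find _ o rest d) (g k b) (Nat.beq o' o) =
      (Bool.rec (motive := fun _ => Option (ℕ × α)) (find _ o rest none) (some (k, b))
        (Nat.beq o' o)).elim d fun p : ℕ × α => g p.1 p.2
    cases Nat.beq o' o with
    | true => rfl
    | false => exact ih d
  | tok c q sub rest ihs ihr =>
    intro d
    show find _ o sub (find _ o rest d) =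
      (find _ o sub (find _ o rest none)).elim d fun p : ℕ × α => g p.1 p.2
    rw [ihs (find _ o rest d), find_or sub (find _ o rest none), ihr d]
    cases find (fun k b => some (k, b)) o sub none with
    | none => rfl
    | some p => rfl

theorem blk_of_find {g : ℕ → α → Bool} {o : ℕ} {r : Rw α} (h : find g o r false = true) :
    ∃ b k, r.blk o = some b ∧ g k b = true := by
  rw [find_eq] at h
  unfold blk
  rw [find_eq]
  cases h1 : find (fun k b => some (k, b)) o r none with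
  | none =>
    rw [h1] at h
    exact absurd h Bool.false_ne_true
  | some p =>
    rw [h1] at h
    exact ⟨p.2, p.1, rfl, h⟩

end Rw

namespace PB

noncomputable section

/-- The pair is fixed by the reflection. -/
def sfn (k o : ℕ) : Bool := rAnd (Nat.beq (mK k) k) (Nat.beq (mO' k o) o)

/-- The image of a lane. -/
def lpm (k o i : ℕ) : ℕ :=
  rIf (sfn k o) (rIf (Nat.ble (nt k o) i) i (Nat.sub (mJ k (Nat.add (triOff k o) i)) (triOff k o))) i

/-- Row `i` of a block of kind zero. -/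
def rwN (x M i : ℕ) : ℕ :=
  Nat.mod (Nat.shiftRight M (Nat.mul (nat_lit 23) (Nat.mul (cOf (fk x) (fa x) (fb x)) i)))
    (Nat.pow (nat_lit 2) (Nat.mul (nat_lit 23) (fb x)))

/-- Column `j` of a block of kind one. -/
def clN (x M j : ℕ) : ℕ :=
  Nat.mod (Nat.shiftRight M (Nat.mul (nat_lit 23) (Nat.mul (cOf (fk x) (fa x) (fb x)) j)))
    (Nat.pow (nat_lit 2) (Nat.mul (nat_lit 23) (fa x)))

/-- The comparison of a block and its image. -/
def cmpN (k0 o0 k1 o1 x M M' : ℕ) : Bool :=
  rIf (sfn k0 o0)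
    (rIf (sfn k1 o1)
      (rAllN (fun i => rAllN (fun j => Nat.beq (fd0 M' (plX x (lpm k0 o0 i) (lpm k1 o1 j)))
        (fd0 M (plX x i j))) (nl k1 o1)) (nl k0 o0))
      (rAnd (Nat.beq (fk x) (nat_lit 0)) (rAnd (Nat.ble (nl k1 o1) (fb x))
        (rAllN (fun i => Nat.beq (rwN x M' (lpm k0 o0 i)) (rwN x M i)) (nl k0 o0)))))
    (rIf (sfn k1 o1)
      (rAnd (Nat.beq (fk x) (nat_lit 1)) (rAnd (Nat.ble (nl k0 o0) (fa x))
        (rAllN (fun j => Nat.beq (clN x M' (lpm k1 o1 j)) (clN x M j)) (nl k1 o1))))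
      (Nat.beq M M'))

/-- The comparison of two blocks. -/
def cmpB (k0 o0 k1 o1 : ℕ) (b b' : Blk) : Bool :=
  Blk.rec (motive := fun _ => Bool) (fun x M => Blk.rec (motive := fun _ => Bool) (fun x' M' =>
    rAnd (Nat.beq x x') (cmpN k0 o0 k1 o1 x M M')) b') b

/-- The check of an entry. -/
def symE (R : ℕ → ℕ → Rw Blk) (k0 o0 k1 o1 : ℕ) (b : Blk) : Bool :=
  rForce (mO' k1 o1) fun o1' => Rw.find (fun _ b' => cmpB k0 o0 k1 o1 b b') o1'
    (R (mK k0) (mO' k0 o0)) false

/-- The check of a row. -/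
def symR (R : ℕ → ℕ → Rw Blk) (k0 o0 : ℕ) : Bool :=
  rForce (Nat.div (optA k0 o0) (nat_lit 72)) fun k1 =>
    (R k0 o0).chk fun _ o1 _ b => symE R k0 o0 k1 o1 b

/-- The check of the rows of a shape. -/
def symB (R : ℕ → ℕ → Rw Blk) (k0 : ℕ) : Bool :=
  rAllN (fun o0 => rIf (cnn k0 o0) (symR R k0 o0) true) (optN k0)

/-- The check of a packed vector over the lanes of a pair. -/
def symV1 (P : ℕ → ℕ → ℕ) (k o : ℕ) : Bool :=
  rIf (sfn k o) (rAllN (fun i => Nat.beq (fd0 (P k o) (lpm k o i)) (fd0 (P k o) i)) (nl k o))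
    (Nat.beq (P (mK k) (mO' k o)) (P k o))

/-- The check of the packed vectors of a shape. -/
def symVK (P : ℕ → ℕ → ℕ) (k : ℕ) : Bool := rAllN (fun o => symV1 P k o) (optN k)

/-- The check of a table of the own pairs. -/
def symTK (P : ℕ → ℕ → ℕ) (k : ℕ) : Bool :=
  rAllN (fun o => Nat.beq (P (mK k) (mO' k o)) (P k o)) (optN k)

/-- The numbers of lanes of the reflected pairs. -/
def ntChk (k : ℕ) : Bool := rAllN (fun o => Nat.beq (nt (mK k) (mO' k o)) (nt k o)) (optN k)

theorem ntChk_all : rAllN ntChk 101 = true := by decide +kernel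

theorem fd0_rw {x M i j : ℕ} (hk : fk x = 0) (hj : j < fb x) :
    fd0 M (plX x i j) = fd0 (rwN x M i) j := by
  have e : plX x i j = cOf (fk x) (fa x) (fb x) * i + j := by
    unfold plX pl
    rw [hk]
    rfl
  rw [e]
  show M >>> (23 * (cOf (fk x) (fa x) (fb x) * i + j)) % 2 ^ 23 =
    ((M >>> (23 * (cOf (fk x) (fa x) (fb x) * i))) % 2 ^ (23 * fb x)) >>> (23 * j) % 2 ^ 23
  rw [field_trunc _ _ _ _ (by nlinarith), ← Nat.shiftRight_add, Nat.mul_add]

theorem fd0_cl {x M i j : ℕ} (hk : fk x = 1) (hi : i < fa x) :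
    fd0 M (plX x i j) = fd0 (clN x M j) i := by
  have e : plX x i j = cOf (fk x) (fa x) (fb x) * j + i := by
    unfold plX pl
    rw [hk]
    rfl
  rw [e]
  show M >>> (23 * (cOf (fk x) (fa x) (fb x) * j + i)) % 2 ^ 23 =
    ((M >>> (23 * (cOf (fk x) (fa x) (fb x) * j))) % 2 ^ (23 * fa x)) >>> (23 * i) % 2 ^ 23
  rw [field_trunc _ _ _ _ (by nlinarith), ← Nat.shiftRight_add, Nat.mul_add]

theorem lpm_of_not {k o i : ℕ} (h : sfn k o = false) : lpm k o i = i := by
  unfold lpm
  rw [h, rIf_false]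

theorem cmpN_sound {k0 o0 k1 o1 x M M' : ℕ} (h : cmpN k0 o0 k1 o1 x M M' = true) {i j : ℕ}
    (hi : i < nl k0 o0) (hj : j < nl k1 o1) :
    fd0 M' (plX x (lpm k0 o0 i) (lpm k1 o1 j)) = fd0 M (plX x i j) := by
  unfold cmpN at h
  cases h0 : sfn k0 o0 with
  | true =>
    rw [h0, rIf_true] at h
    cases h1 : sfn k1 o1 with
    | true =>
      rw [h1, rIf_true] at h
      exact Nat.eq_of_beq_eq_true (rAllN_iff.1 (rAllN_iff.1 h i hi) j hj)
    | false =>
      rw [h1, rIf_false] at h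
      obtain ⟨h2, h3⟩ := rAnd_iff.1 h
      obtain ⟨h4, h5⟩ := rAnd_iff.1 h3
      have h6 := Nat.eq_of_beq_eq_true h2
      have h7 : j < fb x := lt_of_lt_of_le hj (Nat.le_of_ble_eq_true h4)
      rw [lpm_of_not h1, fd0_rw h6 h7, fd0_rw h6 h7, Nat.eq_of_beq_eq_true (rAllN_iff.1 h5 i hi)]
  | false =>
    rw [h0, rIf_false] at h
    cases h1 : sfn k1 o1 with
    | true =>
      rw [h1, rIf_true] at h
      obtain ⟨h2, h3⟩ := rAnd_iff.1 h
      obtain ⟨h4, h5⟩ := rAnd_iff.1 h3
      have h6 := Nat.eq_of_beq_eq_true h2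
      have h7 : i < fa x := lt_of_lt_of_le hi (Nat.le_of_ble_eq_true h4)
      rw [lpm_of_not h0, fd0_cl h6 h7, fd0_cl h6 h7, Nat.eq_of_beq_eq_true (rAllN_iff.1 h5 j hj)]
    | false =>
      rw [h1, rIf_false] at h
      rw [lpm_of_not h0, lpm_of_not h1, Nat.eq_of_beq_eq_true h]

theorem cmpB_sound {k0 o0 k1 o1 : ℕ} {b b' : Blk} (h : cmpB k0 o0 k1 o1 b b' = true) {i j : ℕ}
    (hi : i < nl k0 o0) (hj : j < nl k1 o1) : fd b' (lpm k0 o0 i) (lpm k1 o1 j) = fd b i j := by
  cases b with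
  | mk x M =>
  cases b' with
  | mk x' M' =>
  obtain ⟨h1, h2⟩ := rAnd_iff.1 (show rAnd (Nat.beq x x') (cmpN k0 o0 k1 o1 x M M') = true from h)
  obtain rfl := Nat.eq_of_beq_eq_true h1
  exact cmpN_sound h2 hi hj

end

end PB

namespace SMap

open PB

variable {F : Type*} (T : SMap F)

/-- The lane of a corner. -/
noncomputable def lnT (d : F) : ℕ := ln (T.kx d) (T.ox d) (T.rs d)

theorem mK_mK (d : F) : mK (mK (T.kx d)) = T.kx d := by
  rw [← T.relab_kx, ← T.relab.relab_kx, relab_relab]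

theorem mO_mO (d : F) : mO' (mK (T.kx d)) (mO' (T.kx d) (T.ox d)) = T.ox d := by
  rw [← T.relab_kx, ← T.relab_ox, ← T.relab.relab_ox, relab_relab]

theorem mS_mS (d : F) : mS (mK (T.kx d)) (mS (T.kx d) (T.rs d)) = T.rs d := by
  rw [← T.relab_kx, ← T.relab_rs, ← T.relab.relab_rs, relab_relab]

theorem cnn_iff {k o : ℕ} : cnn k o = true ↔ okey k o ≤ okey (mK k) (mO' k o) :=
  Iff.of_eq Nat.ble_eq

theorem sfn_iff {k o : ℕ} : sfn k o = true ↔ mK k = k ∧ mO' k o = o := by
  unfold sfn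
  rw [rAnd_iff]
  exact and_congr ⟨Nat.eq_of_beq_eq_true, beq_of_eq⟩ ⟨Nat.eq_of_beq_eq_true, beq_of_eq⟩

theorem relab_lnT_of_not {d : F} (h : sfn (T.kx d) (T.ox d) = false) :
    T.relab.lnT d = T.lnT d := by
  have e1 := T.mK_mK d
  have e2 := T.mO_mO d
  have e3 := T.mS_mS d
  have ho := T.ox_lt d
  have ho' : mO' (T.kx d) (T.ox d) < 512 := Nat.mod_lt _ (by norm_num)
  unfold lnT ln
  rw [T.relab_kx, T.relab_ox, T.relab_rs, e1, e2, e3]
  cases h1 : cnn (T.kx d) (T.ox d) with
  | true =>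
    cases h2 : cnn (mK (T.kx d)) (mO' (T.kx d) (T.ox d)) with
    | true =>
      exfalso
      have h3 := cnn_iff.1 h1
      have h4 := cnn_iff.1 h2
      rw [e1, e2] at h4
      unfold okey at h3 h4
      simp only [Nat.add_eq, Nat.mul_eq] at h3 h4
      have h5 : sfn (T.kx d) (T.ox d) = true := sfn_iff.2 ⟨by omega, by omega⟩
      rw [h] at h5
      exact Bool.false_ne_true h5
    | false => rfl
  | false =>
    cases h2 : cnn (mK (T.kx d)) (mO' (T.kx d) (T.ox d)) with
    | true => rfl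
    | false =>
      exfalso
      have h3 : ¬okey (T.kx d) (T.ox d) ≤ okey (mK (T.kx d)) (mO' (T.kx d) (T.ox d)) := fun h5 => by
        rw [cnn_iff.2 h5] at h1
        exact Bool.false_ne_true h1.symm
      have h4 : ¬okey (mK (T.kx d)) (mO' (T.kx d) (T.ox d)) ≤
          okey (mK (mK (T.kx d))) (mO' (mK (T.kx d)) (mO' (T.kx d) (T.ox d))) := fun h5 => by
        rw [cnn_iff.2 h5] at h2
        exact Bool.false_ne_true h2.symm
      rw [e1, e2] at h4
      omega

theorem lnT_of_sfn {d : F} (h : sfn (T.kx d) (T.ox d) = true) :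
    T.lnT d = ln0 (T.kx d) (T.ox d) (T.rs d) := by
  obtain ⟨h1, h2⟩ := sfn_iff.1 h
  have h3 : cnn (T.kx d) (T.ox d) = true := cnn_iff.2 (by rw [h1, h2])
  unfold lnT ln
  rw [h3, rIf_true]

theorem px_lt_nt {d : F} (h : T.Tri d) : T.jx d - triOff (T.kx d) (T.ox d) < nt (T.kx d) (T.ox d) ∧
    triOff (T.kx d) (T.ox d) ≤ T.jx d := by
  have hj := T.jx_lt h
  refine ⟨?_, hj.2⟩
  show _ < triOff (T.kx d) (T.ox d + 1) - triOff (T.kx d) (T.ox d)
  omega

theorem ln0_lt (d : F) : ln0 (T.kx d) (T.ox d) (T.rs d) < nl (T.kx d) (T.ox d) := by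
  unfold ln0 nl
  by_cases h : T.Tri d
  · have h1 := (T.px_lt_nt h).1
    rw [T.ble_rs_tri h, rIf_false, T.rs_tri h]
    show T.jx d - triOff (T.kx d) (T.ox d) < nt (T.kx d) (T.ox d) + 3
    omega
  · have h1 := kc_lt (T.K (T.face (T.N d)))
    have h2 := kc_lt (T.K (T.I d))
    rw [T.ble_rs_big h, rIf_true, T.rs_big h]
    show nt (T.kx d) (T.ox d) + (7936 + (3 * kc (T.K (T.face (T.N d))) + kc (T.K (T.I d))) - 7936) /
      3 < nt (T.kx d) (T.ox d) + 3
    omega

theorem nl_relab (d : F) : nl (mK (T.kx d)) (mO' (T.kx d) (T.ox d)) = nl (T.kx d) (T.ox d) := by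
  have h := Nat.eq_of_beq_eq_true
    (rAllN_iff.1 (rAllN_iff.1 ntChk_all _ (T.kx_lt d)) _ (T.ox_lt_optN d))
  unfold nl
  rw [h]

/-- The lane is less than the number of lanes. -/
theorem lnT_lt (d : F) : T.lnT d < nl (T.kx d) (T.ox d) := by
  unfold lnT ln
  cases h : cnn (T.kx d) (T.ox d) with
  | true => exact T.ln0_lt d
  | false =>
    have h1 := T.relab.ln0_lt d
    rw [T.relab_kx, T.relab_ox, T.relab_rs, T.nl_relab] at h1
    exact h1

/-- **The image of a lane.** -/
theorem relab_lnT (d : F) : T.relab.lnT d = lpm (T.kx d) (T.ox d) (T.lnT d) := by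
  cases h : sfn (T.kx d) (T.ox d) with
  | false => rw [lpm_of_not h, T.relab_lnT_of_not h]
  | true =>
    obtain ⟨h1, h2⟩ := sfn_iff.1 h
    have hr : sfn (T.relab.kx d) (T.relab.ox d) = true := by
      rw [T.relab_kx, T.relab_ox, h1, h2]
      exact h
    rw [T.lnT_of_sfn h, T.relab.lnT_of_sfn hr, T.relab_kx, T.relab_ox, T.relab_rs, h1, h2]
    unfold lpm
    rw [h, rIf_true]
    by_cases ht : T.Tri d
    · have h3 := T.px_lt_nt ht
      have ht' : T.relab.Tri d := ht
      have e1 : ln0 (T.kx d) (T.ox d) (T.rs d) = T.jx d - triOff (T.kx d) (T.ox d) := by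
        unfold ln0
        rw [T.ble_rs_tri ht, rIf_false, T.rs_tri ht]
        rfl
      have e2 : mS (T.kx d) (T.rs d) = mJ (T.kx d) (T.jx d) := by
        rw [← T.relab_rs, T.relab.rs_tri ht', T.relab_jx ht]
      have e3 : Nat.ble 7936 (mJ (T.kx d) (T.jx d)) = false := by
        rw [← e2, ← T.relab_rs]
        exact T.relab.ble_rs_tri ht'
      have e4 : Nat.ble (nt (T.kx d) (T.ox d)) (T.jx d - triOff (T.kx d) (T.ox d)) = false := by
        rw [Bool.eq_false_iff]
        intro h5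
        have := Nat.le_of_ble_eq_true h5
        omega
      rw [e1, e2, e4, rIf_false]
      have e5 : Nat.add (triOff (T.kx d) (T.ox d)) (T.jx d - triOff (T.kx d) (T.ox d)) = T.jx d :=
        Nat.add_sub_cancel' h3.2
      rw [e5]
      unfold ln0
      rw [e3, rIf_false]
    · have e2 : mS (T.kx d) (T.rs d) = T.rs d := by
        unfold mS
        rw [T.ble_rs_big ht, rIf_true]
      rw [e2]
      have e4 : Nat.ble (nt (T.kx d) (T.ox d)) (ln0 (T.kx d) (T.ox d) (T.rs d)) = true := by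
        unfold ln0
        rw [T.ble_rs_big ht, rIf_true]
        exact Nat.ble_eq_true_of_le (Nat.le_add_right _ _)
      rw [e4, rIf_true]

/-- **The vectors of a reflected map.** -/
theorem relab_vec {P : ℕ → ℕ → ℕ} (h : ∀ k < 101, symVK P k = true) (d : F) :
    fd0 (P (T.relab.kx d) (T.relab.ox d)) (T.relab.lnT d) =
      fd0 (P (T.kx d) (T.ox d)) (T.lnT d) := by
  have h1 := rAllN_iff.1 (h _ (T.kx_lt d)) _ (T.ox_lt_optN d)
  rw [T.relab_kx, T.relab_ox, T.relab_lnT]
  unfold symV1 at h1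
  cases h2 : sfn (T.kx d) (T.ox d) with
  | true =>
    rw [h2, rIf_true] at h1
    obtain ⟨h3, h4⟩ := sfn_iff.1 h2
    rw [h3, h4]
    exact Nat.eq_of_beq_eq_true (rAllN_iff.1 h1 _ (T.lnT_lt d))
  | false =>
    rw [h2, rIf_false] at h1
    rw [lpm_of_not h2, Nat.eq_of_beq_eq_true h1]

/-- A table of the own pairs of a reflected map. -/
theorem relab_tab {P : ℕ → ℕ → ℕ} (h : ∀ k < 101, symTK P k = true) (d : F) :
    P (T.relab.kx d) (T.relab.ox d) = P (T.kx d) (T.ox d) := by
  rw [T.relab_kx, T.relab_ox]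
  exact Nat.eq_of_beq_eq_true (rAllN_iff.1 (h _ (T.kx_lt d)) _ (T.ox_lt_optN d))

variable {R : ℕ → ℕ → Rw Blk}

/-- **The block of a reflected map**, at a canonical pair. -/
theorem sym_blk0 (hs : ∀ k < 101, symB R k = true) {d : F}
    (hc : cnn (T.kx d) (T.ox d) = true) {b : Blk}
    (hb : (R (T.kx d) (T.ox d)).blk (T.ox (T.N d)) = some b) :
    ∃ b', (R (T.relab.kx d) (T.relab.ox d)).blk (T.relab.ox (T.N d)) = some b' ∧
      fd b' (T.relab.lnT d) (T.relab.lnT (T.N d)) = fd b (T.lnT d) (T.lnT (T.N d)) := by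
  obtain ⟨p, k, qs, h1⟩ := Rw.blk_at hb
  have h2 := rAllN_iff.1 (hs _ (T.kx_lt d)) _ (T.ox_lt_optN d)
  rw [hc, rIf_true] at h2
  unfold symR at h2
  rw [rForce_eq] at h2
  have h3 := h1.chk h2
  have ek : Nat.div (optA (T.kx d) (T.ox d)) 72 = T.kx (T.N d) := T.optA_div d
  rw [ek] at h3
  unfold symE at h3
  rw [rForce_eq] at h3
  obtain ⟨b', k', h4, h5⟩ := Rw.blk_of_find h3
  refine ⟨b', ?_, ?_⟩
  · rw [T.relab_kx, T.relab_ox, T.relab_ox]
    exact h4
  · rw [T.relab_lnT, T.relab_lnT]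
    exact cmpB_sound h5 (T.lnT_lt d) (T.lnT_lt _)

/-- **The block of a reflected map.** -/
theorem sym_blk (hs : ∀ k < 101, symB R k = true) {d : F} {b b' : Blk}
    (hb : (R (T.kx d) (T.ox d)).blk (T.ox (T.N d)) = some b)
    (hb' : (R (T.relab.kx d) (T.relab.ox d)).blk (T.relab.ox (T.N d)) = some b') :
    fd b' (T.relab.lnT d) (T.relab.lnT (T.N d)) = fd b (T.lnT d) (T.lnT (T.N d)) := by
  cases hc : cnn (T.kx d) (T.ox d) with
  | true =>
    obtain ⟨b1, h1, h2⟩ := T.sym_blk0 hs hc hb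
    rw [hb'] at h1
    obtain rfl := Option.some.inj h1
    exact h2
  | false =>
    have hc' : cnn (T.relab.kx d) (T.relab.ox d) = true := by
      rw [T.relab_kx, T.relab_ox, cnn_iff, T.mK_mK, T.mO_mO]
      by_contra h
      have h1 : ¬okey (T.kx d) (T.ox d) ≤ okey (mK (T.kx d)) (mO' (T.kx d) (T.ox d)) := fun h5 => by
        rw [cnn_iff.2 h5] at hc
        exact Bool.false_ne_true hc.symm
      omega
    obtain ⟨b1, h1, h2⟩ := T.relab.sym_blk0 hs hc' hb'
    rw [relab_relab] at h1 h2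
    have h3 : (R (T.kx d) (T.ox d)).blk (T.ox (T.N d)) = some b1 := h1
    rw [hb] at h3
    obtain rfl := Option.some.inj h3
    exact h2.symm

end SMap

end Pool.Agent.Lib.MP_5854e1_co
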