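import Pool.Agent.Lib.MP_5854e1_co.AntiS3
import Pool.Agent.Lib.MP_5854e1_co.SymChk

/-!
# Longer faces
-/

set_option autoImplicit false

namespace Pool.Agent.Lib.MP_5854e1_co

open PB

namespace AP

/-! ### Masks -/

theorem HB_of_one {n A : ℕ} (h : Nat.beq (Nat.land A (one23 n)) A = true) :
    HB 22 n A (2 ^ 1) := by
  have h1 : A &&& Pk.rep 23 n = A := Nat.eq_of_beq_eq_true h
  have e1 : Pk.rep 23 n = Pk.pk 23 n (fun _ => 1) := by
    have := Pk.const_eq (w := 23) (by norm_num) n 1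
    rwa [one_mul] at this
  have e2 : (2 ^ (22 + 1) - 2 ^ 1) * Pk.rep 23 n = Pk.pk 23 n (fun _ => 8388606) :=
    Pk.const_eq (w := 23) (by norm_num) n 8388606
  have h2 : A < 2 ^ (23 * n) := by
    have h3 : A ≤ Pk.rep 23 n := by
      rw [← h1]
      exact Nat.and_le_right
    refine lt_of_le_of_lt h3 ?_
    rw [e1]
    exact Pk.pk_lt fun i _ => by norm_num
  refine HB_of_land (v := 22) h2 (by norm_num) ?_
  have h4 : A &&& ((2 ^ (22 + 1) - 2 ^ 1) * Pk.rep (22 + 1) n) =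
      A &&& (Pk.rep 23 n &&& ((2 ^ (22 + 1) - 2 ^ 1) * Pk.rep 23 n)) := by
    rw [← Nat.and_assoc, h1]
  rw [h4, e2, e1, Pk.pk_land (fun i _ => by norm_num) (fun i _ => by norm_num)]
  have h5 : Pk.pk 23 n (fun _ => (1 : ℕ) &&& 8388606) = 0 := by
    have h6 : (1 : ℕ) &&& 8388606 = 0 := by decide
    rw [h6]
    have := Pk.pk_mul (w := 23) n 0 (fun _ => 0)
    simpa using this.symm
  rw [h5, Nat.and_zero]

/-! ### Lanes -/

theorem ln0_big {k o B C : ℕ} (hB : B < 3) (hC : C < 3) :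
    ln0 k o (7936 + (3 * B + C)) = nt k o + B := by
  unfold ln0
  have e : Nat.ble (nat_lit 7936) (7936 + (3 * B + C)) = true :=
    Nat.ble_eq_true_of_le (Nat.le_add_right _ _)
  rw [e, rIf_true]
  show nt k o + (7936 + (3 * B + C) - 7936) / 3 = nt k o + B
  omega

theorem ln_big {k o B C : ℕ} (hk : k < 101) (ho : o < optN k) (hB : B < 3) (hC : C < 3) :
    ln k o (7936 + (3 * B + C)) = nt k o + B := by
  unfold ln
  cases h : cnn k o with
  | true => rw [rIf_true, ln0_big hB hC]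
  | false =>
    rw [rIf_false]
    have e : mS k (7936 + (3 * B + C)) = 7936 + (3 * B + C) := by
      unfold mS
      rw [ble_true (Nat.le_add_right _ _), rIf_true]
    rw [e, ln0_big hB hC]
    have h1 := Nat.eq_of_beq_eq_true (rAllN_iff.1 (rAllN_iff.1 ntChk_all _ hk) _ ho)
    rw [h1]

theorem div_256 {B C : ℕ} (hB : B < 3) (hC : C < 3) :
    Nat.div (Nat.mod (7936 + (3 * B + C)) (nat_lit 256)) (nat_lit 3) = B := by
  have e : (7936 + (3 * B + C)) % 256 = 3 * B + C := by omega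
  show (7936 + (3 * B + C)) % 256 / 3 = B
  rw [e]
  omega

theorem mod_256 {B C : ℕ} (hB : B < 3) (hC : C < 3) :
    Nat.mod (Nat.mod (7936 + (3 * B + C)) (nat_lit 256)) (nat_lit 3) = C := by
  have e : (7936 + (3 * B + C)) % 256 = 3 * B + C := by omega
  show (7936 + (3 * B + C)) % 256 % 3 = C
  rw [e]
  omega

theorem big_not {B C : ℕ} : ¬(7936 + (3 * B + C) < 7936) := by omega

theorem big_ble {B C : ℕ} : Nat.ble (nat_lit 7936) (7936 + (3 * B + C)) = true :=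
  Nat.ble_eq_true_of_le (Nat.le_add_right _ _)

theorem sub_7936 (b : ℕ) : 7936 + b - 7936 = b := by omega

variable {P : AP}

/-! ### The checks of the lists -/

theorem prC_sound {k o n k1 k' : ℕ} {ca0 : CA} {o' l l' th s s' : ℕ} : ∀ {r : CA},
    P.prC k o n k1 k' ca0 r = true → r.Mem o' l l' th s s' → l < n ∧
      ∀ C < 3, bt (mI C k') o' = true → bt (al n k' C ca0) (23 * l) = true ∧
        ∀ κ < 3, P.xxI k o k' κ C o' l l' ≤ fd0 (P.xx k o n k1 k' κ C ca0) l := by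
  intro r
  induction r with
  | nil => exact fun _ h => h.elim
  | cons o1 l1 l1' th1 s1 s1' r ih =>
    intro h hm
    have h1 : (Bool.rec (motive := fun _ => Bool) false (P.prC k o n k1 k' ca0 r)
      (rAnd (Nat.ble (Nat.succ l1) n) (rAllN (fun C => rIf (bt (mI C k') o1)
        (rAnd (bt (al n k' C ca0) (Nat.mul (nat_lit 23) l1))
          (rAllN (fun κ => Nat.ble (P.xxI k o k' κ C o1 l1 l1')
            (fd0 (P.xx k o n k1 k' κ C ca0) l1)) (nat_lit 3))) true) (nat_lit 3)))) = true := h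
    cases hb : rAnd (Nat.ble (Nat.succ l1) n) (rAllN (fun C => rIf (bt (mI C k') o1)
        (rAnd (bt (al n k' C ca0) (Nat.mul (nat_lit 23) l1))
          (rAllN (fun κ => Nat.ble (P.xxI k o k' κ C o1 l1 l1')
            (fd0 (P.xx k o n k1 k' κ C ca0) l1)) (nat_lit 3))) true) (nat_lit 3)) with
    | false => rw [hb] at h1; exact absurd h1 Bool.false_ne_true
    | true =>
      rw [hb] at h1
      rcases hm with ⟨rfl, rfl, rfl, rfl, rfl, rfl⟩ | hm
      · obtain ⟨h2, h3⟩ := rAnd_iff.1 hb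
        refine ⟨Nat.le_of_ble_eq_true h2, fun C hC hbt => ?_⟩
        have h4 := rAllN_iff.1 h3 C hC
        rw [hbt, rIf_true] at h4
        obtain ⟨h5, h6⟩ := rAnd_iff.1 h4
        exact ⟨h5, fun κ hκ => Nat.le_of_ble_eq_true (rAllN_iff.1 h6 κ hκ)⟩
      · exact ih h1 hm

/-- What the check of the longer faces before the strip gives. -/
structure PrD (P : AP) (k o n k1 k' : ℕ) (ca : CA) : Prop where
  big : ∀ C < 3, ∀ B < 3, mB C k' B = true → bt (al n k' C ca) (23 * (n + B)) = true ∧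
    ∀ κ < 3, P.nB k o B + P.psi k1 (Nat.mod (optA k o) (nat_lit 3)) B κ C ≤
      fd0 (P.xx k o n k1 k' κ C ca) (n + B)
  al : ∀ C < 3, HB 22 (n + 3) (al n k' C ca) (2 ^ 1)
  xx : ∀ C < 3, ∀ κ < 3, HB 22 (n + 3) (P.xx k o n k1 k' κ C ca) (2 ^ 21)

theorem prD_sound {k o n k1 k' : ℕ} {ca : CA} (h : P.prD k o n k1 k' ca = true) :
    PrD P k o n k1 k' ca := by
  have h1 := rAllN_iff.1 h
  refine ⟨fun C hC B hB hmB => ?_, fun C hC => ?_, fun C hC κ hκ => ?_⟩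
  · have h2 := rAllN_iff.1 (rAnd_iff.1 (h1 C hC)).1 B hB
    rw [hmB, rIf_true] at h2
    obtain ⟨h3, h4⟩ := rAnd_iff.1 h2
    exact ⟨h3, fun κ hκ => Nat.le_of_ble_eq_true (rAllN_iff.1 h4 κ hκ)⟩
  · exact HB_of_one (rAnd_iff.1 (rAnd_iff.1 (h1 C hC)).2).1
  · exact hbB_sound (by norm_num) (rAllN_iff.1 (rAnd_iff.1 (rAnd_iff.1 (h1 C hC)).2).2 κ hκ)

theorem prE_sound {n B : ℕ} {cb0 : CB} {row k2 o2 l l' th s s' : ℕ} : ∀ {r : CB},
    prE n B cb0 r = true → r.Mem row k2 o2 l l' th s s' → mO k2 o2 B = true →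
      l < n ∧ bt (aa B cb0) (23 * l) = true := by
  intro r
  induction r with
  | nil => exact fun _ h => h.elim
  | cons row1 k3 o3 l1 l1' th1 s1 s1' r ih =>
    intro h hm hO
    have h1 : (Bool.rec (motive := fun _ => Bool) false (prE n B cb0 r)
      (rIf (mO k3 o3 B) (rAnd (Nat.ble (Nat.succ l1) n)
        (bt (aa B cb0) (Nat.mul (nat_lit 23) l1))) true)) = true := h
    cases hb : rIf (mO k3 o3 B) (rAnd (Nat.ble (Nat.succ l1) n)
        (bt (aa B cb0) (Nat.mul (nat_lit 23) l1))) true with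
    | false => rw [hb] at h1; exact absurd h1 Bool.false_ne_true
    | true =>
      rw [hb] at h1
      rcases hm with ⟨rfl, rfl, rfl, rfl, rfl, rfl, rfl, rfl⟩ | hm
      · rw [hO, rIf_true] at hb
        obtain ⟨h2, h3⟩ := rAnd_iff.1 hb
        exact ⟨Nat.le_of_ble_eq_true h2, h3⟩
      · exact ih h1 hm hO

/-- What the check of a pair gives. -/
structure PrA (P : AP) (k o : ℕ) : Prop where
  tri : ∀ B < 3, ∀ {row k2 o2 l l' th s s' : ℕ}, (P.cbP k o).Mem row k2 o2 l l' th s s' →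
    mO k2 o2 B = true → l < nt k o ∧ bt (aa B (P.cbP k o)) (23 * l) = true
  aa : ∀ B < 3, HB 22 (nt k o + 3) (aa B (P.cbP k o)) (2 ^ 1)
  zz : ∀ B < 3, ∀ C < 3, P.zz k o B C < 2097152
  cc : P.cc k o < 2097152
  pg : HB 22 (nt k o + 3) (P.PG k o) (2 ^ 19)
  pw : HB 22 (nt k o + 3) (P.PW k o) (2 ^ 15)
  ph : HB 22 (9 * nt k o) (P.PH k o) (2 ^ 16)

theorem prA_sound {k o : ℕ} (h : P.prA k o = true) : PrA P k o := by
  unfold prA at h
  rw [rForce_eq] at h
  obtain ⟨h1, h2⟩ := rAnd_iff.1 h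
  obtain ⟨h3, h4⟩ := rAnd_iff.1 h2
  obtain ⟨h5, h7⟩ := rAnd_iff.1 h4
  obtain ⟨h9, h10⟩ := rAnd_iff.1 h7
  obtain ⟨h6, h8⟩ := rAnd_iff.1 h10
  refine ⟨fun B hB row k2 o2 l l' th s s' hm hO => ?_, fun B hB => ?_, fun B hB C hC => ?_,
    Nat.le_of_ble_eq_true h5, hbB_sound (by norm_num) h9, hbB_sound (by norm_num) h6,
    hbB_sound (by norm_num) h8⟩
  · exact prE_sound (rAnd_iff.1 (rAllN_iff.1 h1 B hB)).1 hm hO
  · exact HB_of_one (rAnd_iff.1 (rAllN_iff.1 h1 B hB)).2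
  · exact Nat.le_of_ble_eq_true (rAllN_iff.1 (rAllN_iff.1 h3 B hB) C hC)

variable {Rv : ℕ → ℕ → ℕ}

theorem Chk.prA (h : P.Chk Rv) {k o : ℕ} (hk : k < 101) (ho : o < optN k) : PrA P k o :=
  prA_sound (rAllN_iff.1 (h.pr k hk) o ho)

/-! ### Columns -/

theorem cols_sound {k0 o0 n0 k1 k' x M κ n1 o1 : ℕ} {ca : CA}
    (h : P.cols k0 o0 n0 k1 k' (n0 + 3) x M κ n1 o1 ca = true)
    (hM : HB 22 (nX x) M (2 ^ 17)) (ha : fa x = n0 + 3) (hb : fb x = n1 + 3) (hκ : κ < 3)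
    (hd : PrD P k0 o0 n0 k1 k' ca) {B C i : ℕ} (hB : B < 3) (hC : C < 3)
    (hz : P.zz k1 o1 B C < 2097152) (hi : i < n0 + 3)
    (hbt : bt (AP.al n0 k' C ca) (23 * i) = true) :
    fd0 (P.xx k0 o0 n0 k1 k' κ C ca) i + P.zz k1 o1 B C ≤
      PB.fl 22 M (plX x i (n1 + B)) + 1048576 := by
  have h1 := rAllN_iff.1 h B hB
  rw [rForce_eq] at h1
  have h2 : Pk.vle (Pk.guard 22 (n0 + 3)) (P.xx k0 o0 n0 k1 k' κ C ca +
    P.zz k1 o1 B C * AP.al n0 k' C ca) (colV x M (n1 + B) + 1048576 * one23 (n0 + 3)) = true :=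
    rAllN_iff.1 h1 C hC
  have hc := colV_rep (j := n1 + B) hM (by omega) (by omega)
  rw [ha] at hc
  have hbd : ∀ i < n0 + 3, PB.fl 22 M (plX x i (n1 + B)) < 2 ^ 17 := by
    intro i hi
    have hop := opX_ok (x := x) (by omega) (by omega)
    exact hM.lt _ (hop.lt i (by omega) (n1 + B) (by omega))
  have hy := hc.add (one_rep (n := n0 + 3) (c := 1048576) (by norm_num)) fun i hi => by
    have := hbd i hi
    norm_num at this ⊢
    omega
  have hX := (hd.xx C hC κ hκ).rep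
  have hA := hd.al C hC
  have hZ := mask_rep hA (Z := P.zz k1 o1 B C) (by norm_num; omega)
  have hs := hX.add hZ fun i hi => by
    have h3 := (hd.xx C hC κ hκ).lt i hi
    have h4 := hA.lt i hi
    have h5 : P.zz k1 o1 B C * PB.fl 22 (AP.al n0 k' C ca) i ≤ P.zz k1 o1 B C * 1 :=
      Nat.mul_le_mul_left _ (by omega)
    norm_num at h3 ⊢
    omega
  have h6 := hs.vle hy h2 i hi
  rw [fl_one_of_bt hA hi hbt, mul_one] at h6
  exact h6

/-! ### Rows -/

theorem nph_rep {k o n B κ : ℕ} (hn : n = nt k o) (hP : HB 22 (n + 3) (P.Pn k o) (2 ^ 20))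
    (hg : HB 22 (n + 3) (P.PG k o) (2 ^ 19))
    (hw : HB 22 (n + 3) (P.PW k o) (2 ^ 15)) (hph : HB 22 (9 * n) (P.PH k o) (2 ^ 16))
    (hu : 6 * P.u ≤ 65536) (hu' : 32768 ≤ 6 * P.u) (hB : B < 3) (hκ : κ < 3) :
    Pk.Rep 22 n (P.nph k o n B κ) (fun i => P.ndl k o i + (6 * P.u - fd0 (P.PW k o) i) +
      P.phL k o i B κ) := by
  have h0 := hg.rep.add hP.rep fun i hi => by
    have g1 := hg.lt i hi
    have g2 := hP.lt i hi
    norm_num at g1 g2 ⊢
    omega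
  have h1 := h0.take (show n ≤ n + 3 by omega)
  have h2 : Pk.Rep 22 n (6 * P.u * one23 n) (fun _ => 6 * P.u) :=
    one_rep (by norm_num; omega)
  have hw1 := hw.rep.take (show n ≤ n + 3 by omega)
  have h2' := h2.sub hw1 fun i hi => by
    have := hw.lt i (by omega)
    norm_num at this
    omega
  have h9 : n * (3 * B + κ) + n ≤ 9 * n := by
    have h10 : n * (3 * B + κ) ≤ n * 8 := Nat.mul_le_mul_left _ (by omega)
    omega
  have h3 := hph.rep.block (s := n * (3 * B + κ)) (m := n) h9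
  have h4 := h1.add h2' fun i hi => by
    have g1 := hg.lt i (by omega)
    have g2 := hP.lt i (by omega)
    norm_num at g1 g2 ⊢
    omega
  have h5 := h4.add h3 fun i hi => by
    have g1 := hg.lt i (by omega)
    have h6 := hP.lt i (by omega)
    have h7 := hph.lt (n * (3 * B + κ) + i) (by omega)
    norm_num at g1 h6 h7 ⊢
    omega
  refine h5.congr fun i hi => ?_
  show PB.fl 22 (P.PG k o) i + PB.fl 22 (P.Pn k o) i + (6 * P.u - PB.fl 22 (P.PW k o) i) +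
      PB.fl 22 (P.PH k o) (n * (3 * B + κ) + i) =
    PB.fl 22 (P.PG k o) i + PB.fl 22 (P.Pn k o) i + (6 * P.u - PB.fl 22 (P.PW k o) i) +
      PB.fl 22 (P.PH k o) (nt k o * (3 * B + κ) + i)
  rw [hn]

theorem rows_sound {k0 o0 n0 x M κ0 k1 o1 n1 : ℕ} (h : P.rows k0 o0 n0 x M κ0 k1 o1 n1 = true)
    (hM : HB 22 (nX x) M (2 ^ 17)) (ha : fa x = n0 + 3) (hb : fb x = n1 + 3) (hn : n1 = nt k1 o1)
    (hP : HB 22 (n1 + 3) (P.Pn k1 o1) (2 ^ 20)) (hu : 6 * P.u ≤ 65536) (hu' : 32768 ≤ 6 * P.u)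
    (hκ : κ0 < 3)
    (hA : PrA P k1 o1) {B i : ℕ} (hB : B < 3) (hi : i < n1)
    (hnB : P.nB k0 o0 B < 2 ^ 20 + 2 ^ 19) (hbt : bt (AP.aa B (P.cbP k1 o1)) (23 * i) = true) :
    P.nB k0 o0 B + P.cc k1 o1 ≤ PB.fl 22 M (plX x (n0 + B) i) +
      (P.ndl k1 o1 i + (6 * P.u - fd0 (P.PW k1 o1) i) + P.phL k1 o1 i B κ0) := by
  have h2 : Pk.vle (Pk.guard 22 (n1 + 3)) ((P.nB k0 o0 B + P.cc k1 o1) * AP.aa B (P.cbP k1 o1))
    (rowV x M (n0 + B) + P.nph k1 o1 n1 B κ0) = true := rAllN_iff.1 h B hB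
  have hr := rowV_rep (i := n0 + B) hM (by omega) (by omega)
  rw [hb] at hr
  have hbd : ∀ j < n1 + 3, PB.fl 22 M (plX x (n0 + B) j) < 2 ^ 17 := by
    intro j hj
    have hop := opX_ok (x := x) (by omega) (by omega)
    exact hM.lt _ (hop.lt (n0 + B) (by omega) j (by omega))
  have hph : HB 22 (9 * n1) (P.PH k1 o1) (2 ^ 16) := by rw [hn]; exact hA.ph
  have hw : HB 22 (n1 + 3) (P.PW k1 o1) (2 ^ 15) := by rw [hn]; exact hA.pw
  have hg : HB 22 (n1 + 3) (P.PG k1 o1) (2 ^ 19) := by rw [hn]; exact hA.pg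
  have hq := nph_rep hn hP hg hw hph hu hu' hB hκ
  have hq3 := hq.pad (show n1 ≤ n1 + 3 by omega)
  have hphb : ∀ i < n1, P.ndl k1 o1 i + (6 * P.u - fd0 (P.PW k1 o1) i) +
      P.phL k1 o1 i B κ0 <
      1048576 + 524288 + 65536 + 65536 := by
    intro i hi
    have h9 : n1 * (3 * B + κ0) ≤ n1 * 8 := Nat.mul_le_mul_left _ (by omega)
    have h6 := hP.lt i (by omega)
    have g1 := hg.lt i (by omega)
    have h7 := hph.lt (n1 * (3 * B + κ0) + i) (by omega)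
    have h8 : P.phL k1 o1 i B κ0 = PB.fl 22 (P.PH k1 o1) (n1 * (3 * B + κ0) + i) := by
      rw [hn]
      rfl
    have h10 : P.ndl k1 o1 i = PB.fl 22 (P.PG k1 o1) i + PB.fl 22 (P.Pn k1 o1) i := rfl
    rw [h8, h10]
    norm_num at h6 h7 g1
    omega
  have hs := hr.add hq3 fun j hj => by
    have h3 := hbd j hj
    split_ifs with h4
    · have h5 := hphb j h4
      norm_num at h3 ⊢
      omega
    · norm_num at h3 ⊢
      omega
  have hc := hA.cc
  have haa : HB 22 (n1 + 3) (AP.aa B (P.cbP k1 o1)) (2 ^ 1) := by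
    rw [hn]
    exact hA.aa B hB
  have hl := mask_rep haa (Z := P.nB k0 o0 B + P.cc k1 o1) (by norm_num at hnB ⊢; omega)
  have h6 := hl.vle hs h2 i (by omega)
  rw [fl_one_of_bt haa (by omega) hbt, mul_one] at h6
  simp only [if_pos hi] at h6
  exact h6

end AP

end Pool.Agent.Lib.MP_5854e1_co
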