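import Pool.Agent.Lib.MP_5854e1_co.AntiS4

/-!
# The values are consistent
-/

set_option autoImplicit false

namespace Pool.Agent.Lib.MP_5854e1_co

open PB

namespace AP

variable {P : AP} {Rv : ℕ → ℕ → ℕ}

theorem Chk.clo' (h : P.Chk Rv) {k o : ℕ} (hk : k < 101) (ho : o < optN k) :
    cloB P.R nl P.Pn Rv k o = true :=
  cloB_of_cloK h.clo hk (by rw [← optN_eq hk]; exact ho)

theorem Chk.pair (h : P.Chk Rv) {k o : ℕ} (hk : k < 101) (ho : o < optN k) :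
    PairOK nl P.Pn Rv k o := pairOK_of_cloB (h.clo' hk ho)

/-- The parts of the check of a block. -/
theorem Chk.parts (h : P.Chk Rv) {k0 o0 s0 k1 o1 s1 : ℕ} (hw : WordOK k0 o0 s0 k1 o1 s1) :
    ∃ x M, Rw.blk o1 (P.R k0 o0) = some (Blk.mk x M) ∧ HB 22 (nX x) M (2 ^ 17) ∧
      fa x = nt k0 o0 + 3 ∧ fb x = nt k1 o1 + 3 ∧
      P.cols k0 o0 (nt k0 o0) k1 (kp k0 o0) (nt k0 o0 + 3) x M
        (Nat.mod (optA k1 o1) (nat_lit 3)) (nt k1 o1) o1 (P.caR k0 o0) = true ∧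
      P.rows k0 o0 (nt k0 o0) x M (Nat.mod (optA k0 o0) (nat_lit 3)) k1 o1 (nt k1 o1) = true := by
  have hk1 : k1 < 101 := lt_101 hw.2.2.2.1
  obtain ⟨p, k, x, M, qs, hat, hblk⟩ := h.word hw
  obtain ⟨c1, c2, rfl, c4, -, -⟩ := hw
  have hb := (h.rowF c1 c2).blk hat
  obtain ⟨-, hb1⟩ := rAnd_iff.1 (show rAnd (P.hlf k0 o0 (optA k0 o0 / 72) (kp k0 o0) (P.caR k0 o0)
    (caM (P.caR k0 o0)) o1 x M) (rForce (nt (optA k0 o0 / 72) o1) fun n1 =>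
      rForce (Nat.mod (optA (optA k0 o0 / 72) o1) (nat_lit 3)) fun κ =>
      rAnd (P.cols k0 o0 (nt k0 o0) (optA k0 o0 / 72) (kp k0 o0) (nt k0 o0 + 3) x M κ n1 o1
        (P.caR k0 o0)) (P.rows k0 o0 (nt k0 o0) x M (Nat.mod (optA k0 o0) (nat_lit 3))
          (optA k0 o0 / 72) o1 n1)) = true from hb)
  rw [rForce_eq, rForce_eq] at hb1
  obtain ⟨h2, h3⟩ := rAnd_iff.1 hb1
  have he := (ent_of_cloB (h.clo' c1 c2) hat (h.pair hk1 c4)).1
  exact ⟨x, M, hblk, he.hb, he.fa, he.fb, h2, h3⟩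

theorem nB_lt {k o B : ℕ} (h : PairOK nl P.Pn Rv k o) (hA : PrA P k o) (hB : B < 3) :
    P.nB k o B < 2 ^ 20 + 2 ^ 19 := by
  have h1 := h.need.lt (nt k o + B) (by show nt k o + B < nt k o + 3; omega)
  have h2 := hA.pg.lt (nt k o + B) (by omega)
  have e : P.nB k o B = PB.fl 22 (P.PG k o) (nt k o + B) + PB.fl 22 (P.Pn k o) (nt k o + B) := rfl
  rw [e]
  norm_num at h1 h2 ⊢
  omega

theorem nd_big {k o B C : ℕ} (hk : k < 101) (ho : o < optN k) (hB : B < 3) (hC : C < 3) :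
    P.nd k o (7936 + (3 * B + C)) = P.nB k o B := by
  unfold nd
  rw [ln_big hk ho hB hC]
  rfl

theorem psi_index {B C : ℕ} (hC : C < 3) : (7936 + (3 * B + C) - 7936) / 3 = B := by omega

theorem psi_index' {B C : ℕ} (hC : C < 3) : (7936 + (3 * B + C) - 7936) % 3 = C := by omega

theorem ph_big {k0 o0 s0 k1 o1 B C : ℕ} (h0 : s0 < 7936) (hC : C < 3) :
    P.V k0 o0 s0 k1 o1 (7936 + (3 * B + C)) =
      P.Phi (kp k0 o0) (Nat.mod (triA k0 s0) (nat_lit 512)) (rjA k0 s0)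
        (Nat.mod (optA k1 o1) (nat_lit 3)) C +
      P.α * lsA k1 (optA k1 o1) - 6 * P.u + 3 * P.u + P.Y k1 o1 (7936 + (3 * B + C)) := by
  unfold V
  rw [if_neg big_not, if_pos h0, psi_index' hC]
  rfl

theorem ps_big {k0 o0 B0 C0 k1 o1 B C : ℕ} (hC0 : C0 < 3) (hC : C < 3) :
    P.V k0 o0 (7936 + (3 * B0 + C0)) k1 o1 (7936 + (3 * B + C)) =
      P.Psi k1 (Nat.mod (optA k0 o0) (nat_lit 3)) B0 (Nat.mod (optA k1 o1) (nat_lit 3)) C +
      P.α * lsA k1 (optA k1 o1) - 6 * P.u + 3 * P.u + P.Y k1 o1 (7936 + (3 * B + C)) := by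
  unfold V
  rw [if_neg big_not, if_neg big_not, psi_index' hC, psi_index hC0]

theorem cB_big {k1 o1 B C : ℕ} : ((P.cB k1 o1 (3 * B + C) : ℕ) : ℤ) =
    P.α * lsA k1 (optA k1 o1) + 3 * P.u + (P.Y k1 o1 (7936 + (3 * B + C)) + P.qo) := by
  unfold Y
  rw [if_neg big_not, sub_7936]
  have e : P.cB k1 o1 (3 * B + C) = P.α * lsA k1 (optA k1 o1) + 3 * P.u +
      (P.q k1 o1) >>> (P.w * (3 * B + C)) % 2 ^ P.w := rfl
  rw [e]
  push_cast
  ring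

theorem zz_le {k1 o1 B C : ℕ} (hn : P.nd k1 o1 (7936 + (3 * B + C)) = P.nB k1 o1 B) :
    P.α * lsA k1 (optA k1 o1) + 3 * P.u + (P.Y k1 o1 (7936 + (3 * B + C)) + P.qo) + 1114112 -
      (P.nd k1 o1 (7936 + (3 * B + C)) + 6 * P.u + (P.qo + 32768)) ≤ (P.zz k1 o1 B C : ℤ) := by
  have e : P.zz k1 o1 B C = P.cB k1 o1 (3 * B + C) + 1114112 -
    (P.nB k1 o1 B + 6 * P.u + (P.qo + 32768)) := rfl
  have h := cB_big (P := P) (k1 := k1) (o1 := o1) (B := B) (C := C)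
  rw [e, hn]
  omega

/-- The value before a longer face, after a triangle. -/
theorem Chk.le_tb (h : P.Chk Rv) {k0 o0 s0 k1 o1 B C : ℕ}
    (hw : WordOK k0 o0 s0 k1 o1 (7936 + (3 * B + C))) (ht : InTri k0 o0 s0) (hB : B < 3)
    (hC : C < 3) : P.V k0 o0 s0 k1 o1 (7936 + (3 * B + C)) ≤
      (P.ent k0 o0 s0 k1 o1 (7936 + (3 * B + C)) : ℤ) - 65536 - P.nd k0 o0 s0 +
        P.nd k1 o1 (7936 + (3 * B + C)) := by
  obtain ⟨x, M, hblk, hM, ha, hb, hcols, -⟩ := h.parts hw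
  obtain ⟨c1, c2, rfl, c4, -, c6⟩ := hw
  have hk1 : optA k0 o0 / 72 < 101 := lt_101 c4
  have hr := h.rowF c1 c2
  have hd := prD_sound hr.prd
  have hpA := h.prA hk1 c4
  have hs0 := triOff_lt c1 c2 ht
  have hbt : bt (mI C (kp k0 o0)) (Nat.mod (triA k0 s0) (nat_lit 512)) = true := by
    unfold farOK at c6
    rw [big_ble, rIf_true, ble_false hs0, rIf_false, mod_256 hB hC, hr.rev] at c6
    exact c6
  have hκ : Nat.mod (optA (optA k0 o0 / 72) o1) (nat_lit 3) < 3 := Nat.mod_lt _ (by norm_num)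
  obtain ⟨hl, hp⟩ := prC_sound hr.prc (P.caR_mem ht)
  obtain ⟨hp1, hp2⟩ := hp C hC hbt
  have h1 := cols_sound hcols hM ha hb hκ hd hB hC (hpA.zz B hB C hC) (by omega) hp1
  have h2 := hp2 _ hκ
  have hnd := nd_big (P := P) hk1 c4 hB hC
  have hz := zz_le (P := P) hnd
  rw [ent_of_blk hblk, ph_big hs0 hC, ln_big hk1 c4 hB hC]
  have e1 : P.xxI k0 o0 (kp k0 o0) (Nat.mod (optA (optA k0 o0 / 72) o1) (nat_lit 3)) C
      (Nat.mod (triA k0 s0) (nat_lit 512)) (ln k0 o0 s0)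
      (ln (kp k0 o0) (Nat.mod (triA k0 s0) (nat_lit 512)) (rjA k0 s0)) =
    P.nd k0 o0 s0 + P.phi (kp k0 o0) (Nat.mod (triA k0 s0) (nat_lit 512)) (rjA k0 s0)
      (Nat.mod (optA (optA k0 o0 / 72) o1) (nat_lit 3)) C := rfl
  rw [e1] at h2
  unfold Phi
  omega

/-- The value before a longer face, after a longer face. -/
theorem Chk.le_bb (h : P.Chk Rv) {k0 o0 B0 C0 k1 o1 B C : ℕ}
    (hw : WordOK k0 o0 (7936 + (3 * B0 + C0)) k1 o1 (7936 + (3 * B + C))) (hB0 : B0 < 3)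
    (hC0 : C0 < 3) (hB : B < 3) (hC : C < 3) :
    P.V k0 o0 (7936 + (3 * B0 + C0)) k1 o1 (7936 + (3 * B + C)) ≤
      (P.ent k0 o0 (7936 + (3 * B0 + C0)) k1 o1 (7936 + (3 * B + C)) : ℤ) - 65536 -
        P.nd k0 o0 (7936 + (3 * B0 + C0)) + P.nd k1 o1 (7936 + (3 * B + C)) := by
  obtain ⟨x, M, hblk, hM, ha, hb, hcols, -⟩ := h.parts hw
  obtain ⟨c1, c2, rfl, c4, -, c6⟩ := hw
  have hk1 : optA k0 o0 / 72 < 101 := lt_101 c4
  have hr := h.rowF c1 c2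
  have hd := prD_sound hr.prd
  have hpA := h.prA hk1 c4
  have hmB : mB C (kp k0 o0) B0 = true := by
    unfold farOK at c6
    rw [big_ble, rIf_true, big_ble, rIf_true, mod_256 hB hC, div_256 hB0 hC0, hr.rev] at c6
    exact c6
  have hκ : Nat.mod (optA (optA k0 o0 / 72) o1) (nat_lit 3) < 3 := Nat.mod_lt _ (by norm_num)
  obtain ⟨hp1, hp2⟩ := hd.big C hC B0 hB0 hmB
  have h1 := cols_sound hcols hM ha hb hκ hd hB hC (hpA.zz B hB C hC) (by omega) hp1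
  have h2 := hp2 _ hκ
  have hnd := nd_big (P := P) hk1 c4 hB hC
  have hnd0 := nd_big (P := P) c1 c2 hB0 hC0
  have hz := zz_le (P := P) hnd
  rw [ent_of_blk hblk, ps_big hC0 hC, ln_big hk1 c4 hB hC, ln_big c1 c2 hB0 hC0]
  rw [← hnd0] at h2
  unfold Psi
  omega

/-- **A longer face before a triangle.** -/
theorem Chk.antiBT (h : P.Chk Rv) : AntiBT P.G P.Phi := by
  intro k0 o0 B C k1 o1 s1 hw ht hB hC
  obtain ⟨x, M, hblk, hM, ha, hb, -, hrows⟩ := h.parts hw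
  obtain ⟨c1, c2, rfl, c4, -, c6⟩ := hw
  have hk1 : optA k0 o0 / 72 < 101 := lt_101 c4
  have hr := h.rowF c1 c2
  have hpA := h.prA hk1 c4
  have hs1 := triOff_lt hk1 c4 ht
  have hO : mO (farK (optA k0 o0 / 72) o1 s1) (t3A (optA k0 o0 / 72) s1) B = true := by
    unfold farOK at c6
    rw [ble_false hs1, rIf_false, big_ble, rIf_true, div_256 hB hC] at c6
    exact c6
  have hκ : Nat.mod (optA k0 o0) (nat_lit 3) < 3 := Nat.mod_lt _ (by norm_num)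
  obtain ⟨hl, hbt⟩ := hpA.tri B hB (P.cbP_mem ht) hO
  have hnB := nB_lt (h.pair c1 c2) (h.prA c1 c2) hB
  have h1 := rows_sound hrows hM ha hb rfl (h.pair hk1 c4).need h.u6 h.u6' hκ hpA hB hl hnB hbt
  have hnd := nd_big (P := P) c1 c2 hB hC
  rw [G_tri hs1, ent_of_blk hblk, ln_big c1 c2 hB hC, hnd]
  have e1 : P.cc (optA k0 o0 / 72) o1 = P.cT (optA k0 o0 / 72) o1 + 98304 := rfl
  have e2 : P.ndl (optA k0 o0 / 72) o1 (ln (optA k0 o0 / 72) o1 s1) =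
    P.nd (optA k0 o0 / 72) o1 s1 := rfl
  have e4 : fd0 (P.PW (optA k0 o0 / 72) o1) (ln (optA k0 o0 / 72) o1 s1) =
    P.ps (optA k0 o0 / 72) o1 s1 := rfl
  have e5 : P.cW (optA k0 o0 / 72) o1 s1 = P.cT (optA k0 o0 / 72) o1 +
    P.ps (optA k0 o0 / 72) o1 s1 := rfl
  have h3 : P.ps (optA k0 o0 / 72) o1 s1 < 2 ^ 15 := hpA.pw.lt _ (by omega)
  have h4 := h.u6'
  have e3 : P.phL (optA k0 o0 / 72) o1 (ln (optA k0 o0 / 72) o1 s1) B
    (Nat.mod (optA k0 o0) (nat_lit 3)) = P.phi (optA k0 o0 / 72) o1 s1 B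
      (Nat.mod (optA k0 o0) (nat_lit 3)) := rfl
  rw [e1, e2, e3, e4] at h1
  rw [e5]
  unfold Phi
  norm_num at h3
  omega

theorem antiTB (P : AP) : AntiTB P.G P.Phi := by
  intro k0 o0 s0 k1 o1 B C hw ht hB hC
  have hs0 := triOff_lt hw.1 hw.2.1 ht
  unfold G Ps
  rw [ph_big hs0 hC, if_neg big_not, if_neg big_not]
  have e1 : kp k0 o0 = Nat.div (flA k0 o0) (nat_lit 16384) := rfl
  rw [e1]
  push_cast
  linarith

theorem antiBB (P : AP) : AntiBB P.G P.Psi := by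
  intro k0 o0 B0 C0 k1 o1 B1 C1 _ hB0 hC0 hB1 hC1
  unfold G Ps
  rw [ps_big hC0 hC1, if_neg big_not, if_neg big_not]
  push_cast
  linarith

theorem psiOK (h : P.psiC = true) : PsiOK P.Psi := by
  intro k hk a ha b hb c hc d hd
  have h1 := rAllN_iff.1 (rAllN_iff.1 (rAllN_iff.1 (rAllN_iff.1 (rAllN_iff.1 h k hk) a ha) b hb)
    c hc) d hd
  have h2 : 65536 ≤ P.psi k a b c d + P.psi (Nat.div (rv k) (nat_lit 24)) d c b a :=
    Nat.le_of_ble_eq_true h1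
  unfold Psi
  omega

end AP

end Pool.Agent.Lib.MP_5854e1_co
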