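import Pool.Agent.Lib.MP_5854e1_co.Relab

/-!
# The map of strips as an abstract structure
-/

set_option autoImplicit false

open Equiv Equiv.Perm

namespace Pool.Agent.Lib.MP_5854e1_co

open Model24 (Kind)

/-- A label of a dart. -/
abbrev Lb : Type := Fin 7 × Fin 7

/-- A strip: the label of its first dart and, for every further dart, the kinds of the own and of
the far corner before it and its label. -/
abbrev Strip : Type := Lb × List ((Kind × Kind) × Lb)

/-- The reversed strip, with accumulator. -/
def revAux : Lb → List ((Kind × Kind) × Lb) → List ((Kind × Kind) × Lb) → Strip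
  | p, [], acc => (p.swap, acc)
  | p, q :: l, acc => revAux q.2 l (((q.1.2, q.1.1), p.swap) :: acc)

/-- The same strip seen from the other side. -/
def revStrip (s : Strip) : Strip := revAux s.1 s.2 []

/-- The relabelled strip. -/
def relS (g : Perm (Fin 7)) (s : Strip) : Strip :=
  ((g s.1.1, g s.1.2), s.2.map fun q => (q.1, (g q.2.1, g q.2.2)))

/-- The own darts of a strip after the first one. -/
def ownToks (s : Strip) : List (Kind × Lb) := s.2.map fun q => (q.1.1, q.2)

/-- The own darts of a strip after a corner. -/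
def stripToks (κ : Kind) (s : Strip) : List (Kind × Lb) := (κ, s.1) :: ownToks s

/-- The strip without its first `i` darts. -/
def dropS : ℕ → Strip → Strip
  | 0, s => s
  | _ + 1, (p, []) => (p, [])
  | i + 1, (_, q :: l) => dropS i (q.2, l)

/-- The state of the scanner after the first strip. -/
def scStart (s : Strip) : Option Sc := scRun (scInit s.1) (ownToks s)

/-- The state of the scanner after a further strip. -/
def scStrip (σ : Sc) (κ : Kind) (s : Strip) : Option Sc := scRun σ (stripToks κ s)

/-- The map of strips: `F` is the set of strip ends, `N` the next strip of the cell, `I` the same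
strip seen from the other side, `S` the strip, `K` the kind of the corner before it. -/
structure SMap (F : Type*) where
  /-- the next strip of the cell -/
  N : Perm F
  /-- the other end of the strip -/
  I : Perm F
  /-- the strip -/
  S : F → Strip
  /-- the kind of the corner before the strip -/
  K : F → Kind
  I_I : ∀ d, I (I d) = d
  S_I : ∀ d, S (I d) = revStrip (S d)
  lab_mem : ∀ d, (S d).1 ∈ allLab
  labs_mem : ∀ d, ∀ q ∈ (S d).2, q.2 ∈ allLab
  len_le : ∀ d, (S d).2.length ≤ 4
  three : ∀ d, 3 ≤ Function.minimalPeriod N d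
  face_ne : ∀ d, N (I d) ≠ d
  face_face_ne : ∀ d, N (I (N (I d))) ≠ d
  scan : ∀ (g : Perm (Fin 7)), IsLabAut g → ∀ d, ∃ σ : ℕ → Sc, scStart (relS g (S d)) = some (σ 0) ∧
    (∀ i, i + 1 < Function.minimalPeriod N d →
      scStrip (σ i) (K (N^[i + 1] d)) (relS g (S (N^[i + 1] d))) = some (σ (i + 1))) ∧
    scClose (σ (Function.minimalPeriod N d - 1)) (K d) = true
  scanFrom : ∀ (g : Perm (Fin 7)), IsLabAut g → ∀ d, ∀ i ≤ (S d).2.length, ∃ σ : ℕ → Sc,
    scStart (dropS i (relS g (S d))) = some (σ 0) ∧
    (∀ j, j + 1 < Function.minimalPeriod N d →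
      scStrip (σ j) (K (N^[j + 1] d)) (relS g (S (N^[j + 1] d))) = some (σ (j + 1)))

namespace SMap

variable {F : Type*} (T : SMap F)

/-- The faces of the map of strips. -/
def face : Perm F := T.I.trans T.N

theorem face_apply (d : F) : T.face d = T.N (T.I d) := rfl

end SMap

namespace Model24

variable {D : Type*} {M : Model24 D}

theorem winList_add (d : M.ODart) (m n : ℕ) :
    M.winList d (m + n) = M.winList d m ++ M.winList (M.onx^[m] d) n := by
  induction n with
  | zero => simp [winList]
  | succ n ih =>
    rw [← add_assoc, winList, ih, winList, List.append_assoc]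
    congr 2
    rw [← Function.iterate_add_apply, ← Function.iterate_add_apply, add_comm m n,
      show n + 1 + m = n + m + 1 by ring]

theorem runList_snoc (d : M.ODart) (n : ℕ) : M.runList d (n + 1) = M.runList d n ++
    [((M.kind (M.onx^[n] d).1, M.kind (M.oin (M.onx^[n + 1] d)).1), M.lab (M.onx^[n + 1] d).1)] := by
  induction n generalizing d with
  | zero => rfl
  | succ n ih =>
    rw [runList, ih (M.onx d), runList]
    rfl

theorem length_runList (d : M.ODart) (n : ℕ) : (M.runList d n).length = n := by
  induction n generalizing d with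
  | zero => rfl
  | succ n ih => rw [runList, List.length_cons, ih]

theorem revAux_runList (n : ℕ) : ∀ (d : M.ODart) (acc : List ((Kind × Kind) × Lb)),
    M.DigRun d n → revAux (M.lab d.1) (M.runList d n) acc =
      (M.lab (M.oin (M.onx^[n] d)).1, M.runList (M.oin (M.onx^[n] d)) n ++ acc) := by
  induction n with
  | zero =>
    intro d acc _
    show ((M.lab d.1).swap, acc) = _
    rw [← M.lab_inv]
    rfl
  | succ n ih =>
    intro d acc h
    rw [runList, revAux, ih (M.onx d) _ h.tail]
    have e1 : M.onx^[n] (M.onx d) = M.onx^[n + 1] d := rfl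
    rw [e1]
    refine Prod.ext rfl ?_
    show M.runList (M.oin (M.onx^[n + 1] d)) n ++ _ =
      M.runList (M.oin (M.onx^[n + 1] d)) (n + 1) ++ acc
    rw [runList_snoc, List.append_assoc]
    congr 1
    rw [h.iterate_oin (by omega), h.iterate_oin le_rfl, Nat.sub_self,
      show n + 1 - n = 1 by omega, ← M.lab_inv, Function.iterate_zero, id_eq, oin_oin]
    rfl

variable [Finite D]

variable (M) in
/-- The strip of a first dart. -/
noncomputable def strip (f : M.FDart) : Strip := (M.lab f.1.1, M.runList f.1 (M.len f - 1))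

variable (M) in
/-- The kind of the corner before a strip. -/
noncomputable def kbef (f : M.FDart) : Kind := M.kind (M.onx⁻¹ f.1).1

theorem digRun_strip (f : M.FDart) : M.DigRun f.1 (M.len f - 1) := by
  intro i h0 hi
  exact dig_of_lt f h0 (by have := len_pos f; omega)

theorem strip_ist (f : M.FDart) : M.strip (M.ist f) = revStrip (M.strip f) := by
  unfold revStrip strip
  rw [revAux_runList _ _ _ (digRun_strip f), List.append_nil, len_ist]
  rfl

variable (M) in
/-- The number of darts of the first `j` strips. -/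
noncomputable def tot (f : M.FDart) (j : ℕ) : ℕ := ∑ i ∈ Finset.range j, M.len (M.nst^[i] f)

theorem onx_tot (f : M.FDart) (j : ℕ) : M.onx^[M.tot f j] f.1 = (M.nst^[j] f).1 := by
  induction j with
  | zero => rfl
  | succ j ih =>
    rw [tot, Finset.sum_range_succ, add_comm, Function.iterate_add_apply]
    show M.onx^[M.len (M.nst^[j] f)] (M.onx^[M.tot f j] f.1) = _
    rw [ih, ← nst_coe, Function.iterate_succ_apply']

theorem tot_succ (f : M.FDart) (j : ℕ) : M.tot f (j + 1) = M.tot f j + M.len (M.nst^[j] f) := by
  rw [tot, Finset.sum_range_succ]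
  rfl

section

variable [Fintype D]

/-- The number of darts of the strips of a cell. -/
theorem tot_lt (f : M.FDart) {j : ℕ} (hj : j < Function.minimalPeriod M.nst f) :
    M.tot f j < Function.minimalPeriod M.onx f.1 ∧
      M.tot f (j + 1) ≤ Function.minimalPeriod M.onx f.1 := by
  classical
  set p := Function.minimalPeriod M.onx f.1 with hp
  have hp0 : 0 < p := minimalPeriod_pos' M.onx f.1
  have hpp : M.onx^[p] f.1 = f.1 := Function.isPeriodicPt_minimalPeriod M.onx f.1
  induction j with
  | zero =>
    refine ⟨hp0, ?_⟩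
    rw [tot_succ]
    show 0 + M.len f ≤ p
    by_contra hlt
    push Not at hlt
    have h1 := dig_of_lt f hp0 (by omega)
    rw [hpp] at h1
    exact f.2 h1
  | succ j ih =>
    obtain ⟨h1, h2⟩ := ih (by omega)
    have h3 : M.tot f (j + 1) ≠ p := by
      intro h3
      have h4 := onx_tot f (j + 1)
      rw [h3, hpp] at h4
      have h5 : M.nst^[j + 1] f = f := Subtype.ext h4.symm
      have h6 : Function.IsPeriodicPt M.nst (j + 1) f := h5
      have h7 := h6.minimalPeriod_le (Nat.succ_pos j)
      omega
    have h4 : M.tot f (j + 1) < p := lt_of_le_of_ne h2 h3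
    refine ⟨h4, ?_⟩
    rw [tot_succ]
    by_contra hlt
    push Not at hlt
    have h5 := dig_of_lt (M.nst^[j + 1] f) (i := p - M.tot f (j + 1)) (by omega) (by omega)
    rw [← onx_tot, ← Function.iterate_add_apply, Nat.sub_add_cancel h2, hpp] at h5
    exact f.2 h5

theorem tot_period (f : M.FDart) :
    M.tot f (Function.minimalPeriod M.nst f) = Function.minimalPeriod M.onx f.1 := by
  classical
  set b := Function.minimalPeriod M.nst f with hb
  have hb0 : 0 < b := minimalPeriod_pos' M.nst f
  have h1 := tot_lt f (j := b - 1) (by omega)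
  rw [Nat.sub_add_cancel hb0] at h1
  refine le_antisymm h1.2 ?_
  have h2 := onx_tot f b
  have h3 : M.nst^[b] f = f := Function.isPeriodicPt_minimalPeriod M.nst f
  rw [h3] at h2
  have h4 : Function.IsPeriodicPt M.onx (M.tot f b) f.1 := h2
  refine h4.minimalPeriod_le ?_
  have h5 : M.tot f b = M.tot f (b - 1) + M.len (M.nst^[b - 1] f) := by
    rw [← tot_succ, Nat.sub_add_cancel hb0]
  have := len_pos (M.nst^[b - 1] f)
  omega

theorem three_le_period (f : M.FDart) : 3 ≤ Function.minimalPeriod M.nst f := by
  classical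
  have h1 := tot_period f
  obtain ⟨-, -, h2⟩ := scan_cell f.1
  have h3 : M.tot f (Function.minimalPeriod M.nst f) ≤ 5 * Function.minimalPeriod M.nst f := by
    rw [tot]
    calc ∑ i ∈ Finset.range (Function.minimalPeriod M.nst f), M.len (M.nst^[i] f)
        ≤ ∑ _i ∈ Finset.range (Function.minimalPeriod M.nst f), 5 :=
          Finset.sum_le_sum fun i _ => len_le _
      _ = 5 * Function.minimalPeriod M.nst f := by
          rw [Finset.sum_const, Finset.card_range, smul_eq_mul, mul_comm]
  omega

/-- The scan of a cell by strips. -/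
theorem scan_strips (f : M.FDart) : ∃ σ : ℕ → Sc, scStart (M.strip f) = some (σ 0) ∧
    (∀ i, i + 1 < Function.minimalPeriod M.nst f →
      scStrip (σ i) (M.kbef (M.nst^[i + 1] f)) (M.strip (M.nst^[i + 1] f)) = some (σ (i + 1))) ∧
    scClose (σ (Function.minimalPeriod M.nst f - 1)) (M.kbef f) = true := by
  classical
  set p := Function.minimalPeriod M.onx f.1 with hp
  set b := Function.minimalPeriod M.nst f with hb
  have hb0 : 0 < b := minimalPeriod_pos' M.nst f
  obtain ⟨h1, ⟨τ, h2, h3⟩, -⟩ := scan_cell f.1
  -- the state after strip `i`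
  have hex : ∀ i, ∃ σ, i < b → scanAt M f.1 (M.tot f (i + 1) - 1) = some σ := by
    intro i
    by_cases hi : i < b
    · have h4 := tot_lt f hi
      have h5 : 0 < M.tot f (i + 1) := by
        rw [tot_succ]
        have := len_pos (M.nst^[i] f)
        omega
      obtain ⟨σ, hσ⟩ := h1 (M.tot f (i + 1) - 1) (by omega)
      exact ⟨σ, fun _ => hσ⟩
    · exact ⟨τ, fun h => absurd h hi⟩
  choose σ hσ using hex
  have hown : ∀ f : M.FDart, ownToks (M.strip f) = M.winList f.1 (M.len f - 1) := fun f =>
    runList_own f.1 (M.len f - 1)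
  refine ⟨σ, ?_, ?_, ?_⟩
  · have h4 := hσ 0 hb0
    have h5 : M.tot f (0 + 1) = M.len f := by
      rw [tot_succ]
      exact Nat.zero_add _
    rw [h5, ← scRun_winList] at h4
    unfold scStart
    rw [hown]
    exact h4
  · intro i hi
    have h4 := hσ i (by omega)
    have h5 := hσ (i + 1) hi
    rw [tot_succ f (i + 1)] at h5
    have h6 : 0 < M.tot f (i + 1) := by
      rw [tot_succ]
      have := len_pos (M.nst^[i] f)
      omega
    have h7 := len_pos (M.nst^[i + 1] f)
    rw [← scRun_winList] at h4 h5
    rw [show M.tot f (i + 1) + M.len (M.nst^[i + 1] f) - 1 =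
      (M.tot f (i + 1) - 1) + (1 + (M.len (M.nst^[i + 1] f) - 1)) by omega, winList_add,
      scRun_append, h4, Option.bind_some] at h5
    unfold scStrip stripToks
    rw [hown]
    rw [winList_add] at h5
    have h8 : M.onx^[1] (M.onx^[M.tot f (i + 1) - 1] f.1) = (M.nst^[i + 1] f).1 := by
      rw [← Function.iterate_add_apply, show 1 + (M.tot f (i + 1) - 1) = M.tot f (i + 1) by omega,
        onx_tot]
    have h9 : M.winList (M.onx^[M.tot f (i + 1) - 1] f.1) 1 =
        [(M.kbef (M.nst^[i + 1] f), (M.strip (M.nst^[i + 1] f)).1)] := by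
      have h10 : M.onx⁻¹ (M.nst^[i + 1] f).1 = M.onx^[M.tot f (i + 1) - 1] f.1 := by
        rw [← h8]
        simp
      show [(M.kind (M.onx^[0] (M.onx^[M.tot f (i + 1) - 1] f.1)).1,
        M.lab (M.onx^[1] (M.onx^[M.tot f (i + 1) - 1] f.1)).1)] = _
      rw [h8]
      unfold kbef
      rw [h10]
      rfl
    rw [h9, h8] at h5
    exact h5
  · have h4 := hσ (b - 1) (by omega)
    rw [Nat.sub_add_cancel hb0, tot_period, h2] at h4
    have h5 : τ = σ (b - 1) := Option.some.inj h4
    rw [← h5]
    have h6 : M.onx^[p - 1] f.1 = M.onx⁻¹ f.1 := by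
      have hp0 : 0 < p := minimalPeriod_pos' M.onx f.1
      have h7 : M.onx (M.onx^[p - 1] f.1) = f.1 := by
        rw [← Function.iterate_succ_apply' M.onx, Nat.succ_eq_add_one, Nat.sub_add_cancel hp0]
        exact Function.isPeriodicPt_minimalPeriod M.onx f.1
      conv_rhs => rw [← h7]
      simp
    rw [h6] at h3
    exact h3

omit [Finite D] [Fintype D] in
theorem dropS_run (n : ℕ) : ∀ (i : ℕ) (d : M.ODart), i ≤ n → dropS i (M.lab d.1, M.runList d n) =
    (M.lab (M.onx^[i] d).1, M.runList (M.onx^[i] d) (n - i)) := by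
  induction n with
  | zero =>
    intro i d hi
    obtain rfl : i = 0 := by omega
    rfl
  | succ n ih =>
    intro i d hi
    cases i with
    | zero => rfl
    | succ i =>
      rw [runList, dropS, ih i (M.onx d) (by omega), Nat.add_sub_add_right]
      rfl

/-- The scan of a cell by strips from any dart of a strip. -/
theorem scan_strips_from (f : M.FDart) {i : ℕ} (hi : i < M.len f) : ∃ σ : ℕ → Sc,
    scStart (dropS i (M.strip f)) = some (σ 0) ∧
    (∀ j, j + 1 < Function.minimalPeriod M.nst f →
      scStrip (σ j) (M.kbef (M.nst^[j + 1] f)) (M.strip (M.nst^[j + 1] f)) = some (σ (j + 1))) := by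
  classical
  have hpi : Function.minimalPeriod M.onx (M.onx^[i] f.1) = Function.minimalPeriod M.onx f.1 :=
    (sameCycle_minimalPeriod M.onx ⟨(i : ℤ), by rw [zpow_natCast, Equiv.Perm.coe_pow]⟩).symm
  set p := Function.minimalPeriod M.onx f.1 with hp
  set b := Function.minimalPeriod M.nst f with hb
  have hb0 : 0 < b := minimalPeriod_pos' M.nst f
  obtain ⟨h1, ⟨τ, -, -⟩, -⟩ := scan_cell (M.onx^[i] f.1)
  rw [hpi] at h1
  have htot : ∀ j, i < M.tot f (j + 1) := by
    intro j
    induction j with
    | zero =>
      rw [tot_succ]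
      have h0 : M.len (M.nst^[0] f) = M.len f := rfl
      omega
    | succ j ih => rw [tot_succ]; omega
  have hex : ∀ j, ∃ σ, j < b → scanAt M (M.onx^[i] f.1) (M.tot f (j + 1) - 1 - i) = some σ := by
    intro j
    by_cases hj : j < b
    · have h4 := tot_lt f hj
      have h5 := htot j
      obtain ⟨σ, hσ⟩ := h1 (M.tot f (j + 1) - 1 - i) (by omega)
      exact ⟨σ, fun _ => hσ⟩
    · exact ⟨τ, fun h => absurd h hj⟩
  choose σ hσ using hex
  have hown : ∀ (d : M.ODart) (n : ℕ), ownToks (M.lab d.1, M.runList d n) = M.winList d n :=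
    fun d n => runList_own d n
  refine ⟨σ, ?_, ?_⟩
  · have h4 := hσ 0 hb0
    have h5 : M.tot f (0 + 1) = M.len f := by
      rw [tot_succ]
      exact Nat.zero_add _
    rw [h5, ← scRun_winList] at h4
    unfold strip
    rw [dropS_run _ _ _ (by omega)]
    unfold scStart
    rw [hown]
    exact h4
  · intro j hj
    have h4 := hσ j (by omega)
    have h5 := hσ (j + 1) hj
    rw [tot_succ f (j + 1)] at h5
    have h6 := htot j
    have h7 := len_pos (M.nst^[j + 1] f)
    rw [← scRun_winList] at h4 h5
    rw [show M.tot f (j + 1) + M.len (M.nst^[j + 1] f) - 1 - i =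
      (M.tot f (j + 1) - 1 - i) + (1 + (M.len (M.nst^[j + 1] f) - 1)) by omega, winList_add,
      scRun_append, h4, Option.bind_some] at h5
    unfold scStrip stripToks
    rw [show ownToks (M.strip (M.nst^[j + 1] f)) =
      M.winList (M.nst^[j + 1] f).1 (M.len (M.nst^[j + 1] f) - 1) from hown _ _]
    rw [winList_add] at h5
    have h8 : M.onx^[1] (M.onx^[M.tot f (j + 1) - 1 - i] (M.onx^[i] f.1)) =
        (M.nst^[j + 1] f).1 := by
      rw [← Function.iterate_add_apply, ← Function.iterate_add_apply,
        show 1 + (M.tot f (j + 1) - 1 - i) + i = M.tot f (j + 1) by omega, onx_tot]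
    have h9 : M.winList (M.onx^[M.tot f (j + 1) - 1 - i] (M.onx^[i] f.1)) 1 =
        [(M.kbef (M.nst^[j + 1] f), (M.strip (M.nst^[j + 1] f)).1)] := by
      have h10 : M.onx⁻¹ (M.nst^[j + 1] f).1 =
          M.onx^[M.tot f (j + 1) - 1 - i] (M.onx^[i] f.1) := by
        rw [← h8]
        simp
      show [(M.kind (M.onx^[0] (M.onx^[M.tot f (j + 1) - 1 - i] (M.onx^[i] f.1))).1,
        M.lab (M.onx^[1] (M.onx^[M.tot f (j + 1) - 1 - i] (M.onx^[i] f.1))).1)] = _
      rw [h8]
      unfold kbef
      rw [h10]
      rfl
    rw [h9, h8] at h5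
    exact h5

end

end Model24

end Pool.Agent.Lib.MP_5854e1_co
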