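import Pool.Agent.Lib.MP_5854e1_co.CycleLemma
import Pool.Agent.Lib.MP_5854e1_co.SMap

/-!
# The root of a cell

In a cell with positive sum there is a strip such that all partial sums from there on are positive,
and even larger than a potential `nd` of the corner reached, when `nd` is a lower bound for what is
needed to stay positive.
-/

set_option autoImplicit false

open Equiv Equiv.Perm

namespace Pool.Agent.Lib.MP_5854e1_co

open Finset

/-- The partial sums of a periodic sequence with positive sum over one period, all of whose partial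
sums in the first period are positive. -/
theorem pos_of_period {p : ℕ} {w : ℕ → ℤ} (hw : ∀ i, w (i + p) = w i) (hp : 0 < p)
    (h : ∀ n, 0 < n → n ≤ p → 0 < ∑ i ∈ range n, w i) : ∀ n, 0 < n → 0 < ∑ i ∈ range n, w i := by
  intro n
  induction n using Nat.strong_induction_on with
  | _ n ih =>
    intro hn
    rcases le_or_gt n p with h1 | h1
    · exact h n hn h1
    · obtain ⟨m, rfl⟩ := Nat.exists_eq_add_of_lt h1
      have h2 : ∑ i ∈ range (p + m + 1), w i = ∑ i ∈ range p, w i + ∑ i ∈ range (m + 1), w i := by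
        rw [add_assoc, sum_range_add]
        congr 1
        refine sum_congr rfl fun i _ => ?_
        rw [add_comm, hw]
      rw [h2]
      have h3 := h p hp le_rfl
      have h4 := ih (m + 1) (by omega) (by omega)
      linarith

/-- The partial sums are unbounded. -/
theorem sum_mul_period {p : ℕ} {w : ℕ → ℤ} (hw : ∀ i, w (i + p) = w i) (m n : ℕ) :
    ∑ i ∈ range (m * p + n), w i = m * ∑ i ∈ range p, w i + ∑ i ∈ range n, w i := by
  induction m with
  | zero => simp
  | succ m ih =>
    have h2 : ∑ i ∈ range (p + (m * p + n)), w i =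
        ∑ i ∈ range p, w i + ∑ i ∈ range (m * p + n), w i := by
      rw [sum_range_add]
      congr 1
      refine sum_congr rfl fun i _ => ?_
      rw [add_comm, hw]
    rw [show (m + 1) * p + n = p + (m * p + n) by ring, h2, ih]
    push_cast
    ring

/-- **The partial sums stay above the need.** -/
theorem need_lt {p : ℕ} {w nd : ℕ → ℤ} (hw : ∀ i, w (i + p) = w i) (hn : ∀ i, nd (i + p) = nd i)
    (hp : 0 < p) (hs : ∀ n, 0 < n → 0 < ∑ i ∈ range n, w i)
    (hnd : ∀ i, nd i ≤ 0 ∨ nd i ≤ nd (i + 1) - w (i + 1)) (n : ℕ) :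
    nd n < ∑ i ∈ range (n + 1), w i := by
  by_contra hlt
  push Not at hlt
  -- the need stays above the partial sums for ever
  have key : ∀ m, ∑ i ∈ range (n + m + 1), w i ≤ nd (n + m) := by
    intro m
    induction m with
    | zero => exact hlt
    | succ m ih =>
      have h1 := hs (n + m + 1) (Nat.succ_pos _)
      rcases hnd (n + m) with h2 | h2
      · linarith
      · rw [show n + (m + 1) + 1 = (n + m + 1) + 1 by ring, sum_range_succ]
        have h3 : nd (n + (m + 1)) = nd (n + m + 1) := rfl
        rw [h3]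
        linarith
  have hS := hs p hp
  have hper : ∀ m i, nd (i + m * p) = nd i := by
    intro m
    induction m with
    | zero => intro i; simp
    | succ m ih => intro i; rw [show i + (m + 1) * p = (i + m * p) + p by ring, hn, ih]
  obtain ⟨m, hm⟩ : ∃ m : ℕ, nd n < m := by
    refine ⟨(nd n).toNat + 1, ?_⟩
    have := Int.self_le_toNat (nd n)
    push_cast
    linarith
  have h1 := key (m * p)
  rw [hper, show n + m * p + 1 = m * p + (n + 1) by ring, sum_mul_period hw] at h1
  have h2 := hs (n + 1) (Nat.succ_pos _)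
  have h3 : (m : ℤ) * 1 ≤ (m : ℤ) * ∑ i ∈ range p, w i :=
    mul_le_mul_of_nonneg_left (by linarith) (by positivity)
  linarith

namespace SMap

variable {F : Type*} (T : SMap F)

theorem iterate_period (d : F) (i : ℕ) :
    T.N^[i + Function.minimalPeriod T.N d] d = T.N^[i] d := by
  rw [Function.iterate_add_apply]
  congr 1
  exact Function.isPeriodicPt_minimalPeriod T.N d

theorem period_iterate (d : F) (j : ℕ) :
    Function.minimalPeriod T.N (T.N^[j] d) = Function.minimalPeriod T.N d := by
  refine Function.minimalPeriod_apply_iterate ?_ j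
  exact Function.minimalPeriod_pos_iff_mem_periodicPts.1 (by have := T.three d; omega)

/-- **The root of a cell.** -/
theorem exists_root (w nd : F → ℤ)
    (hnd : ∀ d, nd d ≤ 0 ∨ nd d ≤ nd (T.N d) - w (T.N d)) {d : F}
    (h : 0 < ∑ i ∈ range (Function.minimalPeriod T.N d), w (T.N^[i] d)) :
    ∃ j < Function.minimalPeriod T.N d,
      (∀ n, 0 < n → 0 < ∑ i ∈ range n, w (T.N^[i] (T.N^[j] d))) ∧
      ∀ n, nd (T.N^[n] (T.N^[j] d)) < ∑ i ∈ range (n + 1), w (T.N^[i] (T.N^[j] d)) := by
  have hb := T.three d
  set p := Function.minimalPeriod T.N d with hp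
  obtain ⟨j, hj, h1⟩ := cycle_lemma (p := p) (fun i => w (T.N^[i] d))
    (fun i => by rw [T.iterate_period d i]) h
  have e : ∀ i, T.N^[i] (T.N^[j] d) = T.N^[j + i] d := fun i => by
    rw [← Function.iterate_add_apply, add_comm]
  have hper : ∀ i, T.N^[i + p] (T.N^[j] d) = T.N^[i] (T.N^[j] d) := fun i => by
    rw [e, e, ← add_assoc, T.iterate_period]
  have h2 : ∀ n, 0 < n → 0 < ∑ i ∈ range n, w (T.N^[i] (T.N^[j] d)) :=
    pos_of_period (w := fun i => w (T.N^[i] (T.N^[j] d))) (fun i => by rw [hper]) (by omega)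
      fun n hn hn' => by
        have h3 := h1 n hn hn'
        simpa only [e] using h3
  refine ⟨j, hj, h2, need_lt (p := p) (w := fun i => w (T.N^[i] (T.N^[j] d)))
    (nd := fun i => nd (T.N^[i] (T.N^[j] d))) (fun i => by rw [hper]) (fun i => by rw [hper])
    (by omega) h2 fun i => ?_⟩
  have h4 := hnd (T.N^[i] (T.N^[j] d))
  show nd (T.N^[i] (T.N^[j] d)) ≤ 0 ∨ nd (T.N^[i] (T.N^[j] d)) ≤
    nd (T.N^[i + 1] (T.N^[j] d)) - w (T.N^[i + 1] (T.N^[j] d))
  rw [Function.iterate_succ_apply' T.N i]
  exact h4

end SMap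

end Pool.Agent.Lib.MP_5854e1_co
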