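import Pool.Agent.Lib.MP_5854e1_co.Reduce5
import Pool.Agent.Lib.MP_5854e1_co.Letters
import Pool.Agent.Lib.MP_5854e1_co.Root

/-!
# From the search to the bound

`val e` is the integer weight of the strip `e` with the corner after it, in units of `1 / U`; it
contains the share `α` for every letter. `nd` is the need of the corner after a strip, `Y` the
constant part of the correction of the corner and `dl` its sparse part.
-/

set_option autoImplicit false

open Equiv Equiv.Perm

namespace Pool.Agent.Lib.MP_5854e1_co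

open Finset

namespace SMap

variable {F : Type*} (T : SMap F)

/-- The sum over a cell does not depend on the first strip. -/
theorem sum_rotate {M : Type*} [AddCommGroup M] (h : F → M) (f : F) (j : ℕ) :
    ∑ i ∈ range (Function.minimalPeriod T.N f), h (T.N^[i] (T.N^[j] f)) =
      ∑ i ∈ range (Function.minimalPeriod T.N f), h (T.N^[i] f) := by
  induction j with
  | zero => rfl
  | succ j ih =>
    rw [← ih]
    have hp := T.period_iterate f j
    set e := T.N^[j] f with he
    have h0 : T.N^[Function.minimalPeriod T.N f] e = e := by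
      rw [← hp]
      exact Function.isPeriodicPt_minimalPeriod T.N e
    have h1 := Finset.sum_range_succ' (fun i => h (T.N^[i] e)) (Function.minimalPeriod T.N f)
    have h2 := Finset.sum_range_succ (fun i => h (T.N^[i] e)) (Function.minimalPeriod T.N f)
    simp only [Function.iterate_succ_apply, Function.iterate_zero, id_eq] at h1 h2
    rw [h0] at h2
    rw [Function.iterate_succ_apply' T.N j f, ← he]
    exact add_right_cancel (h1.symm.trans h2)

/-- The amount moved across a strip. -/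
noncomputable def gw (U α : ℕ) (val Y : F → ℤ) (d : F) : ℚ :=
  (val d : ℚ) / U - α * T.ls d / U + 1 / 2 - T.shr d - Y d / U

/-- **From the search to the bound.** -/
theorem bound_of_search [Finite F] {U α : ℕ} (hU : 0 < U) (val nd Y dl : F → ℤ)
    (hdl : ∀ d, 0 ≤ dl d)
    (hg : ∀ d, 0 ≤ T.gw U α val Y d + T.gw U α val Y (T.I d))
    (h3 : ∀ a, T.Tri a → dl a + dl (T.I (T.N a)) + dl (T.I (T.N (T.I (T.N a)))) ≤
      Y a + Y (T.I (T.N a)) + Y (T.I (T.N (T.I (T.N a)))))
    (h4 : ∀ a, ¬T.Tri a → T.face^[4] (T.N a) = T.N a →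
      dl a + dl (T.I (T.N a)) + dl (T.I (T.N (T.I (T.N a)))) +
        dl (T.I (T.N (T.I (T.N (T.I (T.N a)))))) ≤
      Y a + Y (T.I (T.N a)) + Y (T.I (T.N (T.I (T.N a)))) +
        Y (T.I (T.N (T.I (T.N (T.I (T.N a)))))))
    (h5 : ∀ a, ¬T.Tri a → T.face^[5] (T.N a) = T.N a →
      4 * (dl a + dl (T.I (T.N a)) + dl (T.I (T.N (T.I (T.N a)))) +
        dl (T.I (T.N (T.I (T.N (T.I (T.N a)))))) +
        dl (T.I (T.N (T.I (T.N (T.I (T.N (T.I (T.N a))))))))) ≤
      4 * (Y a + Y (T.I (T.N a)) + Y (T.I (T.N (T.I (T.N a)))) +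
        Y (T.I (T.N (T.I (T.N (T.I (T.N a)))))) +
        Y (T.I (T.N (T.I (T.N (T.I (T.N (T.I (T.N a))))))))) + U)
    (hy : ∀ a, ¬T.Tri a → 12 * dl a ≤ 12 * Y a + U)
    (hnd : ∀ d, nd d ≤ 0 ∨ nd d ≤ nd (T.N d) - val (T.N d))
    (hs : ∀ e, (∀ n, 0 < n → 0 < ∑ i ∈ range n, val (T.N^[i] e)) →
      (∀ n, nd (T.N^[n] e) < ∑ i ∈ range (n + 1), val (T.N^[i] e)) →
      ∑ i ∈ range (Function.minimalPeriod T.N e), (val (T.N^[i] e) - dl (T.N^[i] e)) ≤ 0) :
    T.Bound (1 - 24 * α / U) := by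
  have hU' : (0 : ℚ) < U := by exact_mod_cast hU
  refine T.bound_of_local5 (fun a => ((Y a - dl a : ℤ) : ℚ) / U) (T.gw U α val Y) _ ?_ ?_ ?_ ?_ hg ?_
  · intro a ha
    have h := h3 a ha
    have h' : (0 : ℚ) ≤ ((Y a - dl a : ℤ) : ℚ) + ((Y (T.I (T.N a)) - dl (T.I (T.N a)) : ℤ) : ℚ) +
        ((Y (T.I (T.N (T.I (T.N a)))) - dl (T.I (T.N (T.I (T.N a)))) : ℤ) : ℚ) := by
      rw [← Int.cast_add, ← Int.cast_add]
      exact_mod_cast (by linarith : (0 : ℤ) ≤ _)
    rw [← add_div, ← add_div]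
    exact div_nonneg h' hU'.le
  · intro a ha hf
    have h := h4 a ha hf
    have h' : (0 : ℚ) ≤ ((Y a - dl a : ℤ) : ℚ) + ((Y (T.I (T.N a)) - dl (T.I (T.N a)) : ℤ) : ℚ) +
        ((Y (T.I (T.N (T.I (T.N a)))) - dl (T.I (T.N (T.I (T.N a)))) : ℤ) : ℚ) +
        ((Y (T.I (T.N (T.I (T.N (T.I (T.N a)))))) -
          dl (T.I (T.N (T.I (T.N (T.I (T.N a)))))) : ℤ) : ℚ) := by
      rw [← Int.cast_add, ← Int.cast_add, ← Int.cast_add]
      exact_mod_cast (by linarith : (0 : ℤ) ≤ _)
    rw [← add_div, ← add_div, ← add_div]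
    exact div_nonneg h' hU'.le
  · intro a ha hf
    have h := h5 a ha hf
    rw [← add_div, ← add_div, ← add_div, ← add_div, le_div_iff₀ hU']
    have h' : (4 : ℚ) * (dl a + dl (T.I (T.N a)) + dl (T.I (T.N (T.I (T.N a)))) +
        dl (T.I (T.N (T.I (T.N (T.I (T.N a)))))) +
        dl (T.I (T.N (T.I (T.N (T.I (T.N (T.I (T.N a))))))))) ≤
      4 * (Y a + Y (T.I (T.N a)) + Y (T.I (T.N (T.I (T.N a)))) +
        Y (T.I (T.N (T.I (T.N (T.I (T.N a)))))) +
        Y (T.I (T.N (T.I (T.N (T.I (T.N (T.I (T.N a))))))))) + U := by exact_mod_cast h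
    push_cast
    linarith
  · intro a ha
    have h := hy a ha
    have h' : (12 : ℚ) * dl a ≤ 12 * Y a + U := by exact_mod_cast h
    rw [le_div_iff₀ hU']
    push_cast
    linarith
  · intro f
    set p := Function.minimalPeriod T.N f with hp
    have key : ∑ i ∈ range p, (val (T.N^[i] f) - dl (T.N^[i] f)) ≤ 0 := by
      by_contra hlt
      push Not at hlt
      have h1 : 0 < ∑ i ∈ range p, val (T.N^[i] f) := by
        rw [Finset.sum_sub_distrib] at hlt
        have : 0 ≤ ∑ i ∈ range p, dl (T.N^[i] f) := Finset.sum_nonneg fun i _ => hdl _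
        linarith
      obtain ⟨j, -, h2, h3⟩ := T.exists_root val nd hnd h1
      have h4 := hs _ h2 h3
      rw [T.period_iterate, T.sum_rotate (fun e => val e - dl e) f j] at h4
      linarith
    have h24 := T.sum_ls f
    rw [← hp] at h24
    have h24' : ∑ i ∈ range p, (T.ls (T.N^[i] f) : ℚ) = 24 := by exact_mod_cast h24
    have key' : ∑ i ∈ range p, ((val (T.N^[i] f) : ℚ) - dl (T.N^[i] f)) ≤ 0 := by
      exact_mod_cast key
    have e : ∀ i ∈ range p, (T.shr (T.N^[i] f) + ((Y (T.N^[i] f) - dl (T.N^[i] f) : ℤ) : ℚ) / U -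
        1 / 2 + T.gw U α val Y (T.N^[i] f)) = ((val (T.N^[i] f) : ℚ) - dl (T.N^[i] f)) / U -
        α / U * T.ls (T.N^[i] f) := by
      intro i _
      unfold gw
      push_cast
      ring
    rw [Finset.sum_congr rfl e, Finset.sum_sub_distrib, ← Finset.sum_div, ← Finset.mul_sum, h24']
    have := div_nonpos_of_nonpos_of_nonneg key' hU'.le
    have e2 : (24 : ℚ) * α / U = α / U * 24 := by ring
    rw [e2]
    linarith

end SMap

end Pool.Agent.Lib.MP_5854e1_co
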