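/-!
# Blocks: the data

A block is a number `M` with its format `x = κ + 2 (a + 256 b)`: it has `a` rows and `b` columns, of
fields of 23 binary digits; the field of the row `i` and the column `j` has the place `pl κ a b i j`.
The entry is the value of the step from the lane `i` to the lane `j` plus `K = 2 ^ 16`, and zero if
the step is impossible.
-/

set_option autoImplicit false

namespace Pool.Agent.Lib.MP_5854e1_co

namespace PB

/-- A block: its format and its number. -/
inductive Blk where
  | mk (x M : Nat) : Blk

/-- A step of a history: the own pair `(k, o)` and the block that leads to it. -/
inductive Hs where
  | mk (k o x M : Nat) : Hs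

end PB

/-- The number with the last `8192` binary digits `a` and the other digits `b`. -/
def jn (a b : Nat) : Nat := Nat.add a (Nat.shiftLeft b (nat_lit 8192))

end Pool.Agent.Lib.MP_5854e1_co
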