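import Pool.Agent.Lib.MP_5854e1_co.POps
import Pool.Agent.Lib.MP_5854e1_co.BlkD

/-!
# Blocks

A block is a number `M` with its format `x = κ + 2 (a + 256 b)`: it has `a` rows and `b` columns, of
fields of 23 binary digits; the field of the row `i` and the column `j` has the place `pl κ a b i j`.
The entry is the value of the step from the lane `i` to the lane `j` plus `K = 2 ^ 16`, and zero if
the step is impossible.
-/

set_option autoImplicit false

namespace Pool.Agent.Lib.MP_5854e1_co.PB

noncomputable section

namespace Blk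

/-- The format. -/
def fmt (b : Blk) : ℕ := Blk.rec (motive := fun _ => ℕ) (fun x _ => x) b

/-- The number. -/
def num (b : Blk) : ℕ := Blk.rec (motive := fun _ => ℕ) (fun _ M => M) b

end Blk

/-- The kind of a format: rows outside (zero) or columns outside. -/
def fk (x : ℕ) : ℕ := Nat.mod x (nat_lit 2)

/-- The number of rows. -/
def fa (x : ℕ) : ℕ := Nat.mod (Nat.div x (nat_lit 2)) (nat_lit 256)

/-- The number of columns. -/
def fb (x : ℕ) : ℕ := Nat.div x (nat_lit 512)

/-- The operations of a format. -/
def opX (x : ℕ) : Op := opOf (fk x) (fa x) (fb x)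

/-- The number of fields of a format. -/
def nX (x : ℕ) : ℕ := nOf (fk x) (fa x) (fb x)

/-- The place of an entry. -/
def plX (x i j : ℕ) : ℕ := pl (fk x) (fa x) (fb x) i j

/-- The field of index `i` of a number with fields of 23 digits. -/
def fd0 (S i : ℕ) : ℕ :=
  Nat.mod (Nat.shiftRight S (Nat.mul (nat_lit 23) i)) (nat_lit 8388608)

theorem fd0_eq (S i : ℕ) : fd0 S i = fl 22 S i := rfl

/-- The entry of a block at the row `i` and the column `j`. -/
def fd (b : Blk) (i j : ℕ) : ℕ :=
  Blk.rec (motive := fun _ => ℕ) (fun x M => fd0 M (plX x i j)) b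

theorem fd_mk (x M i j : ℕ) : fd (Blk.mk x M) i j = fl 22 M (plX x i j) := rfl

/-- The operations are correct. -/
theorem opX_ok {x : ℕ} (ha : 0 < fa x) (hb : 0 < fb x) :
    OpOK 22 tht kap0 (fa x) (fb x) (nX x) (plX x) (opX x).adv (opX x).fol (opX x).tst :=
  opOf_ok ha (Nat.mod_lt _ (by decide)).le hb

end

end Pool.Agent.Lib.MP_5854e1_co.PB
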