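import Mathlib

/-!
Positivity certificates for planar covers: order automorphisms of the line commuting with a
translation, given by floor functions on the grid `ℤ / N`.

Data: for every dart `d` a monotone function `F d : ℤ → ℤ` with `F d (i + N) = F d i + N` and
`F d (F d.symm j) < j`.  There are order automorphisms `g d` of the line, commuting with
`x ↦ x + N`, with `g d.symm = (g d)⁻¹` and `g d x > F d i` for all `x ≥ i`.
-/

set_option autoImplicit false

namespace Pool.Agent.Lib.MP_5854e1_co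

/-- order automorphisms of the line commuting with the translation by `N` -/
def HN (N : ℕ) : Subgroup (ℝ ≃o ℝ) where
  carrier := {f | ∀ x, f (x + N) = f x + N}
  one_mem' := fun _ => rfl
  mul_mem' := by
    intro f g hf hg x
    show f (g (x + N)) = f (g x) + N
    rw [hg x, hf (g x)]
  inv_mem' := by
    intro f hf x
    apply f.injective
    show f (f.symm (x + N)) = f (f.symm x + N)
    rw [f.apply_symm_apply, hf (f.symm x), f.apply_symm_apply]

/-- automorphisms which move every point by more than `a * N` -/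
def QN (N : ℕ) (a : ℤ) : Set (HN N) := {g | ∀ x : ℝ, x + a * N < g.1 x}

theorem HN_apply_add {N : ℕ} (g : HN N) (a : ℤ) (x : ℝ) : g.1 (x + a * N) = g.1 x + a * N := by
  have hpos : ∀ (k : ℕ) (x : ℝ), g.1 (x + k * N) = g.1 x + k * N := by
    intro k
    induction k with
    | zero => intro x; simp
    | succ k ih =>
      intro x
      have h1 : x + ((k + 1 : ℕ) : ℝ) * N = (x + k * N) + N := by
        push_cast
        ring
      rw [h1, g.2, ih]
      push_cast
      ring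
  rcases le_total 0 a with ha | ha
  · obtain ⟨k, rfl⟩ := Int.eq_ofNat_of_zero_le ha
    have := hpos k x
    simpa using this
  · obtain ⟨k, hk⟩ := Int.eq_ofNat_of_zero_le (neg_nonneg.2 ha)
    have hka : a = -(k : ℤ) := by omega
    subst hka
    have := hpos k (x + ((-(k : ℤ) : ℤ) : ℝ) * N)
    have h2 : x + ((-(k : ℤ) : ℤ) : ℝ) * N + k * N = x := by
      push_cast
      ring
    rw [h2] at this
    rw [this]
    push_cast
    ring

theorem QN_mul {N : ℕ} {a b : ℤ} {f g : HN N} (hf : f ∈ QN N a) (hg : g ∈ QN N b) :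
    f * g ∈ QN N (a + b) := by
  intro x
  show x + ((a + b : ℤ) : ℝ) * N < f.1 (g.1 x)
  have h1 := hg x
  have h2 := hf (x + b * N)
  have h3 : f.1 (x + b * N) < f.1 (g.1 x) := f.1.strictMono h1
  push_cast
  linarith

theorem QN_conj {N : ℕ} {a : ℤ} {g : HN N} (hg : g ∈ QN N a) (h : HN N) :
    h * g * h⁻¹ ∈ QN N a := by
  intro x
  show x + (a : ℝ) * N < h.1 (g.1 (h⁻¹.1 x))
  have h1 := hg (h⁻¹.1 x)
  have h2 : h.1 (h⁻¹.1 x + a * N) < h.1 (g.1 (h⁻¹.1 x)) := h.1.strictMono h1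
  rw [HN_apply_add] at h2
  have h3 : h.1 (h⁻¹.1 x) = x := h.1.apply_symm_apply x
  rw [h3] at h2
  exact h2

theorem one_notMem_QN (N : ℕ) : (1 : HN N) ∉ QN N 0 := by
  intro h
  have h1 := h 0
  simp at h1

/-! ### the homeomorphism of a floor function -/

/-- an increasing function with values in the open unit interval -/
noncomputable def sig (k : ℤ) : ℝ := (Real.arctan k) / Real.pi + 1 / 2

theorem sig_pos (k : ℤ) : 0 < sig k := by
  have h1 := Real.neg_pi_div_two_lt_arctan (k : ℝ)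
  have h2 := Real.pi_pos
  have h3 : -(1 / 2) < Real.arctan (k : ℝ) / Real.pi := by
    rw [lt_div_iff₀ h2]
    linarith
  unfold sig
  linarith

theorem sig_lt_one (k : ℤ) : sig k < 1 := by
  have h1 := Real.arctan_lt_pi_div_two (k : ℝ)
  have h2 := Real.pi_pos
  have h3 : Real.arctan (k : ℝ) / Real.pi < 1 / 2 := by
    rw [div_lt_iff₀ h2]
    linarith
  unfold sig
  linarith

theorem sig_strictMono : StrictMono sig := by
  intro a b hab
  have h1 : Real.arctan (a : ℝ) < Real.arctan (b : ℝ) :=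
    Real.arctan_strictMono (by exact_mod_cast hab)
  have h2 := div_lt_div_of_pos_right h1 Real.pi_pos
  unfold sig
  linarith

/-- the values at the integers -/
noncomputable def knot (F : ℤ → ℤ) (i : ℤ) : ℝ := F i + sig (i - F i)

theorem knot_strictMono {F : ℤ → ℤ} (hF : Monotone F) : StrictMono (knot F) := by
  intro i j hij
  unfold knot
  rcases (hF hij.le).eq_or_lt with h | h
  · rw [h]
    have : sig (i - F j) < sig (j - F j) := sig_strictMono (by omega)
    linarith
  · have h1 := sig_lt_one (i - F i)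
    have h2 := sig_pos (j - F j)
    have h3 : (F i : ℝ) + 1 ≤ F j := by exact_mod_cast h
    linarith

theorem knot_add {N : ℕ} {F : ℤ → ℤ} (hN : ∀ i, F (i + N) = F i + N) (i : ℤ) :
    knot F (i + N) = knot F i + N := by
  unfold knot
  rw [hN, show i + (N : ℤ) - (F i + N) = i - F i by ring]
  push_cast
  ring

theorem knot_add_mul {N : ℕ} {F : ℤ → ℤ} (hN : ∀ i, F (i + N) = F i + N) (i : ℤ) (k : ℕ) :
    knot F (i + k * N) = knot F i + k * N ∧ knot F (i - k * N) = knot F i - k * N := by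
  induction k with
  | zero => simp
  | succ k ih =>
    constructor
    · have := knot_add hN (i + k * N)
      rw [show i + ((k + 1 : ℕ) : ℤ) * N = i + k * N + N by push_cast; ring, this, ih.1]
      push_cast
      ring
    · have := knot_add hN (i - ((k + 1 : ℕ) : ℤ) * N)
      rw [show i - ((k + 1 : ℕ) : ℤ) * N + N = i - k * N by push_cast; ring, ih.2] at this
      push_cast at this ⊢
      linarith

/-- piecewise linear interpolation -/
noncomputable def pl (a : ℤ → ℝ) (x : ℝ) : ℝ := a ⌊x⌋ + Int.fract x * (a (⌊x⌋ + 1) - a ⌊x⌋)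

theorem pl_lt {a : ℤ → ℝ} (ha : StrictMono a) (x : ℝ) : pl a x < a (⌊x⌋ + 1) := by
  unfold pl
  have h1 : a ⌊x⌋ < a (⌊x⌋ + 1) := ha (by omega)
  nlinarith [Int.fract_lt_one x, Int.fract_nonneg x]

theorem le_pl {a : ℤ → ℝ} (ha : StrictMono a) (x : ℝ) : a ⌊x⌋ ≤ pl a x := by
  unfold pl
  have h1 : a ⌊x⌋ < a (⌊x⌋ + 1) := ha (by omega)
  nlinarith [Int.fract_lt_one x, Int.fract_nonneg x]

theorem pl_strictMono {a : ℤ → ℝ} (ha : StrictMono a) : StrictMono (pl a) := by
  intro x y hxy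
  rcases (Int.floor_mono hxy.le).eq_or_lt with h | h
  · have h1 : Int.fract x < Int.fract y := by
      rw [Int.fract, Int.fract, h]
      linarith
    have h2 : a ⌊y⌋ < a (⌊y⌋ + 1) := ha (by omega)
    unfold pl
    rw [h]
    nlinarith
  · calc pl a x < a (⌊x⌋ + 1) := pl_lt ha x
      _ ≤ a ⌊y⌋ := ha.monotone (by omega)
      _ ≤ pl a y := le_pl ha y

theorem pl_intCast (a : ℤ → ℝ) (i : ℤ) : pl a i = a i := by
  unfold pl
  simp

theorem pl_add {N : ℕ} {a : ℤ → ℝ} (h : ∀ i, a (i + N) = a i + N) (x : ℝ) :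
    pl a (x + N) = pl a x + N := by
  unfold pl
  rw [Int.floor_add_natCast, Int.fract_add_natCast, h,
    show ⌊x⌋ + (N : ℤ) + 1 = ⌊x⌋ + 1 + N by ring, h]
  ring

theorem pl_surjective {N : ℕ} (hN0 : 0 < N) {F : ℤ → ℤ} (hF : Monotone F)
    (hN : ∀ i, F (i + N) = F i + N) : Function.Surjective (pl (knot F)) := by
  intro y
  have hmono := knot_strictMono hF
  have hNr : (0 : ℝ) < N := by exact_mod_cast hN0
  -- the largest `i` with `knot F i ≤ y`
  have hb : ∃ b : ℤ, ∀ z : ℤ, knot F z ≤ y → z ≤ b := by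
    obtain ⟨k, hk⟩ := exists_nat_gt ((y - knot F 0) / N)
    refine ⟨0 + k * N, fun z hz => ?_⟩
    by_contra hlt
    push Not at hlt
    have h1 := hmono hlt
    rw [(knot_add_mul hN 0 k).1] at h1
    rw [div_lt_iff₀ hNr] at hk
    linarith
  have hi : ∃ z : ℤ, knot F z ≤ y := by
    obtain ⟨k, hk⟩ := exists_nat_gt ((knot F 0 - y) / N)
    refine ⟨0 - k * N, ?_⟩
    rw [(knot_add_mul hN 0 k).2]
    rw [div_lt_iff₀ hNr] at hk
    linarith
  obtain ⟨i, hi1, hi2⟩ := Int.exists_greatest_of_bdd hb hi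
  have hi3 : y < knot F (i + 1) := by
    by_contra hge
    push Not at hge
    have := hi2 (i + 1) hge
    omega
  have hpos : 0 < knot F (i + 1) - knot F i := sub_pos.2 (hmono (by omega))
  set t : ℝ := (y - knot F i) / (knot F (i + 1) - knot F i) with ht
  have ht0 : 0 ≤ t := div_nonneg (by linarith) hpos.le
  have ht1 : t < 1 := by
    rw [ht, div_lt_one hpos]
    linarith
  refine ⟨i + t, ?_⟩
  have hfl : ⌊(i : ℝ) + t⌋ = i := by
    rw [Int.floor_intCast_add, Int.floor_eq_zero_iff.2 ⟨ht0, ht1⟩, add_zero]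
  have hfr : Int.fract ((i : ℝ) + t) = t := by
    rw [Int.fract_intCast_add]
    exact Int.fract_eq_self.2 ⟨ht0, ht1⟩
  unfold pl
  rw [hfl, hfr, ht, div_mul_cancel₀ _ hpos.ne']
  ring

/-- the automorphism of a floor function -/
noncomputable def hom (N : ℕ) (hN0 : 0 < N) (F : ℤ → ℤ) (hF : Monotone F)
    (hN : ∀ i, F (i + N) = F i + N) : HN N :=
  ⟨(pl_strictMono (knot_strictMono hF)).orderIsoOfSurjective _ (pl_surjective hN0 hF hN),
    fun x => pl_add (knot_add hN) x⟩

theorem hom_apply (N : ℕ) (hN0 : 0 < N) (F : ℤ → ℤ) (hF : Monotone F)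
    (hN : ∀ i, F (i + N) = F i + N) (x : ℝ) : (hom N hN0 F hF hN).1 x = pl (knot F) x := rfl

theorem hom_gt (N : ℕ) (hN0 : 0 < N) (F : ℤ → ℤ) (hF : Monotone F)
    (hN : ∀ i, F (i + N) = F i + N) {i : ℤ} {x : ℝ} (hx : (i : ℝ) ≤ x) :
    (F i : ℝ) < (hom N hN0 F hF hN).1 x := by
  rw [hom_apply]
  calc (F i : ℝ) < knot F i := by
        unfold knot
        linarith [sig_pos (i - F i)]
    _ = pl (knot F) i := (pl_intCast _ i).symm
    _ ≤ pl (knot F) x := (pl_strictMono (knot_strictMono hF)).monotone hx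

theorem hom_inv_gt (N : ℕ) (hN0 : 0 < N) (F : ℤ → ℤ) (hF : Monotone F)
    (hN : ∀ i, F (i + N) = F i + N) {i j : ℤ} {x : ℝ} (hx : (i : ℝ) ≤ x) (hj : F j < i) :
    (j : ℝ) < (hom N hN0 F hF hN)⁻¹.1 x := by
  set f := hom N hN0 F hF hN with hf
  have h1 : f.1 j < i := by
    rw [hf, hom_apply, pl_intCast]
    unfold knot
    have h2 := sig_lt_one (j - F j)
    have h3 : (F j : ℝ) + 1 ≤ i := by exact_mod_cast hj
    linarith
  have h2 : f.1 j < f.1 (f⁻¹.1 x) := by
    have h3 : f.1 (f⁻¹.1 x) = x := f.1.apply_symm_apply x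
    rw [h3]
    linarith
  exact f.1.lt_iff_lt.1 h2

/-- a choice of automorphisms for all darts of a graph -/
theorem exists_hom {W : Type*} (K : SimpleGraph W) (N : ℕ) (hN0 : 0 < N)
    (F : K.Dart → ℤ → ℤ) (hF : ∀ d, Monotone (F d)) (hN : ∀ d i, F d (i + N) = F d i + N)
    (hinv : ∀ d j, F d (F d.symm j) < j) :
    ∃ g : K.Dart → HN N, (∀ d, g d.symm = (g d)⁻¹) ∧
      ∀ d (i : ℤ) (x : ℝ), (i : ℝ) ≤ x → (F d i : ℝ) < (g d).1 x := by
  classical
  -- an orientation
  obtain ⟨r, hr⟩ : ∃ r : W → W → Prop, ∀ a b : W, a ≠ b → (r a b ↔ ¬ r b a) := by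
    obtain ⟨s, hs⟩ := exists_wellFoundedLT W
    refine ⟨fun a b => a < b, fun a b hab => ?_⟩
    rw [not_lt]
    exact ⟨le_of_lt, fun h => lt_of_le_of_ne h hab⟩
  let g : K.Dart → HN N := fun d =>
    if r d.fst d.snd then hom N hN0 (F d) (hF d) (hN d)
    else (hom N hN0 (F d.symm) (hF d.symm) (hN d.symm))⁻¹
  refine ⟨g, fun d => ?_, fun d i x hx => ?_⟩
  · have hne : d.fst ≠ d.snd := d.fst_ne_snd
    have hs1 : d.symm.fst = d.snd := rfl
    have hs2 : d.symm.snd = d.fst := rfl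
    by_cases h : r d.fst d.snd
    · have h' : ¬ r d.symm.fst d.symm.snd := by
        rw [hs1, hs2]
        exact (hr _ _ hne).1 h
      simp only [g]
      rw [if_neg h', if_pos h]
      simp only [SimpleGraph.Dart.symm_symm]
    · have h' : r d.symm.fst d.symm.snd := by
        rw [hs1, hs2]
        exact (hr _ _ hne.symm).2 h
      simp only [g]
      rw [if_pos h', if_neg h, inv_inv]
  · simp only [g]
    split_ifs with h
    · exact hom_gt N hN0 (F d) (hF d) (hN d) hx
    · refine hom_inv_gt N hN0 (F d.symm) (hF d.symm) (hN d.symm) hx ?_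
      have := hinv d.symm i
      rwa [SimpleGraph.Dart.symm_symm] at this

theorem prod_ge {N : ℕ} {T : Type*} (F : T → ℤ → ℤ) (g : T → HN N)
    (h : ∀ d (i : ℤ) (x : ℝ), (i : ℝ) ≤ x → (F d i : ℝ) < (g d).1 x) (l : List T) (i : ℤ)
    (x : ℝ) (hx : (i : ℝ) ≤ x) : ((l.foldr F i : ℤ) : ℝ) ≤ (l.map g).prod.1 x := by
  induction l with
  | nil => simpa using hx
  | cons d l ih =>
    rw [List.foldr_cons, List.map_cons, List.prod_cons]
    exact (h d _ _ ih).le

theorem prod_mem {N : ℕ} {T : Type*} (F : T → ℤ → ℤ) (g : T → HN N)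
    (h : ∀ d (i : ℤ) (x : ℝ), (i : ℝ) ≤ x → (F d i : ℝ) < (g d).1 x) (l : List T) (c : ℤ)
    (hl : ∀ i : ℤ, i + 1 + c * N ≤ l.foldr F i) : (l.map g).prod ∈ QN N c := by
  intro x
  have h1 := prod_ge F g h l ⌊x⌋ x (Int.floor_le x)
  have h2 : ((⌊x⌋ + 1 + c * N : ℤ) : ℝ) ≤ ((l.foldr F ⌊x⌋ : ℤ) : ℝ) := by exact_mod_cast hl ⌊x⌋
  have h3 := Int.lt_floor_add_one x
  push_cast at h2
  linarith

/-- the certificate, in the form used by the planar lemma -/
theorem cert {W : Type*} (K : SimpleGraph W) (N : ℕ) (hN0 : 0 < N)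
    (F : K.Dart → ℤ → ℤ) (hF : ∀ d, Monotone (F d)) (hN : ∀ d i, F d (i + N) = F d i + N)
    (hinv : ∀ d j, F d (F d.symm j) < j) (c : W → ℤ)
    (hW : ∀ u, ∀ l : List K.Dart, l.Nodup → (∀ d, d ∈ l ↔ d.fst = u) →
      ∀ i : ℤ, i + 1 + c u * N ≤ l.foldr F i) :
    ∃ g : K.Dart → HN N, (∀ d, g d.symm = (g d)⁻¹) ∧
      ∀ u, ∀ l : List K.Dart, l.Nodup → (∀ d, d ∈ l ↔ d.fst = u) → (l.map g).prod ∈ QN N (c u) := by
  obtain ⟨g, h1, h2⟩ := exists_hom K N hN0 F hF hN hinv
  exact ⟨g, h1, fun u l hl hl2 => prod_mem F g h2 l (c u) (hW u l hl hl2)⟩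

end Pool.Agent.Lib.MP_5854e1_co
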