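import Mathlib

/-!
Groups of nilpotency class three and exponent a power of three built from a trilinear form.
-/

set_option autoImplicit false

namespace Pool.Agent.Lib.MP_5854e1_co

/-- A trilinear form `(x, y, z) ↦ dot (tx x y) z = dot (ty y z) x` over the field with three
elements, together with its two partial evaluations. -/
structure Tri (V : Type*) [AddCommGroup V] [Module (ZMod 3) V] where
  tx : V →ₗ[ZMod 3] V →ₗ[ZMod 3] V
  ty : V →ₗ[ZMod 3] V →ₗ[ZMod 3] V
  dot : V →ₗ[ZMod 3] V →ₗ[ZMod 3] ZMod 3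
  key : ∀ x y z, dot (tx x y) z = dot (ty y z) x

variable {V : Type*} [AddCommGroup V] [Module (ZMod 3) V]

/-- The underlying set of the group. -/
@[ext]
structure TG (T : Tri V) where
  v : V
  ξ : V
  η : V
  s : ZMod 3

namespace TG

variable {T : Tri V}

instance : Mul (TG T) :=
  ⟨fun a b => ⟨a.v + b.v, a.ξ + b.ξ + T.tx a.v b.v, a.η + b.η + T.ty a.v b.v,
    a.s + b.s + T.dot a.ξ b.v + T.dot b.η a.v⟩⟩

instance : One (TG T) := ⟨⟨0, 0, 0, 0⟩⟩

instance : Inv (TG T) :=
  ⟨fun a => ⟨-a.v, -a.ξ + T.tx a.v a.v, -a.η + T.ty a.v a.v,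
    -a.s + T.dot a.ξ a.v + T.dot a.η a.v - T.dot (T.tx a.v a.v) a.v⟩⟩

@[simp] theorem mul_v (a b : TG T) : (a * b).v = a.v + b.v := rfl
@[simp] theorem mul_ξ (a b : TG T) : (a * b).ξ = a.ξ + b.ξ + T.tx a.v b.v := rfl
@[simp] theorem mul_η (a b : TG T) : (a * b).η = a.η + b.η + T.ty a.v b.v := rfl
@[simp] theorem mul_s (a b : TG T) :
    (a * b).s = a.s + b.s + T.dot a.ξ b.v + T.dot b.η a.v := rfl
@[simp] theorem one_v : (1 : TG T).v = 0 := rfl
@[simp] theorem one_ξ : (1 : TG T).ξ = 0 := rfl
@[simp] theorem one_η : (1 : TG T).η = 0 := rfl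
@[simp] theorem one_s : (1 : TG T).s = 0 := rfl
@[simp] theorem inv_v (a : TG T) : a⁻¹.v = -a.v := rfl
@[simp] theorem inv_ξ (a : TG T) : a⁻¹.ξ = -a.ξ + T.tx a.v a.v := rfl
@[simp] theorem inv_η (a : TG T) : a⁻¹.η = -a.η + T.ty a.v a.v := rfl
@[simp] theorem inv_s (a : TG T) : a⁻¹.s =
    -a.s + T.dot a.ξ a.v + T.dot a.η a.v - T.dot (T.tx a.v a.v) a.v := rfl

instance : Group (TG T) := Group.ofLeftAxioms
  (by
    intro a b c
    ext1
    · simp only [mul_v]; abel
    · simp only [mul_v, mul_ξ, map_add, LinearMap.add_apply]; abel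
    · simp only [mul_v, mul_η, map_add, LinearMap.add_apply]; abel
    · simp only [mul_v, mul_ξ, mul_η, mul_s, map_add, LinearMap.add_apply, T.key]; ring)
  (by
    intro a
    ext1 <;> simp)
  (by
    intro a
    ext1
    · simp
    · simp
    · simp
    · simp only [mul_s, inv_s, inv_ξ, inv_v, map_add, map_neg, LinearMap.add_apply,
        LinearMap.neg_apply, one_s]; ring)

/-- The central elements. -/
def z (c : ZMod 3) : TG T := ⟨0, 0, 0, c⟩

theorem z_mul (c c' : ZMod 3) : (z c * z c' : TG T) = z (c + c') := by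
  ext1 <;> simp [z]

theorem z_conj (c : ZMod 3) (h : TG T) : h * z c * h⁻¹ = z c := by
  have : h * z c = z c * h := by
    ext1
    · simp [z]
    · simp [z]
    · simp [z]
    · simp [z]; ring
  rw [this, mul_inv_cancel_right]

theorem z_zero : (z 0 : TG T) = 1 := rfl

/-- The truncated exponential with a central correction. -/
def P (S : V) (c : ZMod 3) : TG T := ⟨S, T.tx S S + T.tx S S, T.ty S S + T.ty S S, c⟩

theorem P_zero (c : ZMod 3) : (P 0 c : TG T) = z c := by
  ext1 <;> simp [P, z]

/-- The commutation relation in degree two. -/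
def Com (T : Tri V) (x y : V) : Prop := T.tx x y = T.tx y x ∧ T.ty x y = T.ty y x

theorem Com.add {x y y' : V} (h : Com T x y) (h' : Com T x y') : Com T x (y + y') := by
  constructor
  · rw [map_add, map_add, LinearMap.add_apply, h.1, h'.1]
  · rw [map_add, map_add, LinearMap.add_apply, h.2, h'.2]

theorem Com.zero (x : V) : Com T x 0 := by
  constructor <;> simp

theorem three (x : V) : x + x + x = 0 := by
  have h : ((3 : ℕ) : ZMod 3) • x = 0 := by
    have : ((3 : ℕ) : ZMod 3) = 0 := by decide
    rw [this, zero_smul]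
  rw [Nat.cast_smul_eq_nsmul] at h
  simpa [succ_nsmul] using h

theorem three' (x : ZMod 3) : x + x + x = 0 := three (V := ZMod 3) x

/-- The increment of the central part. -/
def inc (T : Tri V) (x S : V) : ZMod 3 :=
  T.dot (T.tx x x) S + T.dot (T.tx x x) S + (T.dot (T.tx x S) S + T.dot (T.tx x S) S)

theorem P_mul {x S : V} (h : Com T x S) (c : ZMod 3) :
    (P x 0 * P S c : TG T) = P (x + S) (c + inc T x S) := by
  obtain ⟨h1, h2⟩ := h
  ext1
  · simp [P]
  · simp only [P, mul_ξ, map_add, LinearMap.add_apply, ← h1]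
    symm
    calc _ = (T.tx x x + T.tx x x + (T.tx S S + T.tx S S) + T.tx x S) +
          (T.tx x S + T.tx x S + T.tx x S) := by abel
      _ = _ := by rw [three, add_zero]
  · simp only [P, mul_η, map_add, LinearMap.add_apply, ← h2]
    symm
    calc _ = (T.ty x x + T.ty x x + (T.ty S S + T.ty S S) + T.ty x S) +
          (T.ty x S + T.ty x S + T.ty x S) := by abel
      _ = _ := by rw [three, add_zero]
  · simp only [P, mul_s, map_add, LinearMap.add_apply, inc, T.key]
    ring

theorem P_inv (x : V) : (P (-x) 0 : TG T) = (P x 0)⁻¹ := by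
  rw [eq_inv_iff_mul_eq_one]
  have h : Com T (-x) x := by constructor <;> simp
  rw [P_mul h]
  have h2 : inc T (-x) x = 0 := by
    simp [inc]
  rw [h2, neg_add_cancel, zero_add, P_zero, z_zero]

theorem P_comm {x y : V} (h : Com T x y) : Commute (P x 0 : TG T) (P y 0) := by
  have h' : Com T y x := ⟨h.1.symm, h.2.symm⟩
  rw [Commute, SemiconjBy, P_mul h, P_mul h', add_comm y x]
  have e1 : T.dot (T.tx x x) y = T.dot (T.tx y x) x := by
    rw [T.key, h.2, ← T.key, h.1]
  have e2 : T.dot (T.tx x y) y = T.dot (T.tx y y) x := by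
    rw [h.1, T.key, h.2, ← T.key]
  congr 2
  simp only [inc, e1, e2]
  ring

/-- The central part of the product of a list. -/
def cen (T : Tri V) : List V → ZMod 3
  | [] => 0
  | x :: l => cen T l + inc T x l.sum

theorem prod_P : ∀ (l : List V), (∀ x ∈ l, ∀ y ∈ l, Com T x y) →
    (l.map fun x => (P x 0 : TG T)).prod = P l.sum (cen T l)
  | [], _ => by simp [cen, P_zero, z_zero]
  | x :: l, h => by
    rw [List.map_cons, List.prod_cons, prod_P l (fun a ha b hb => h a (by simp [ha]) b
      (by simp [hb])), List.sum_cons]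
    have hc : Com T x l.sum := by
      have : ∀ y ∈ l, Com T x y := fun y hy => h x (by simp) y (by simp [hy])
      clear h
      induction l with
      | nil => exact Com.zero x
      | cons a l ih =>
        rw [List.sum_cons]
        exact (this a (by simp)).add (ih fun y hy => this y (by simp [hy]))
    rw [P_mul hc]
    rfl

end TG

end Pool.Agent.Lib.MP_5854e1_co
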