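import Pool.Agent.Lib.MP_5854e1_co.Defs
import Pool.Agent.Lib.MP_5854e1_co.TriGroup

/-!
The certificate of degree three for `K_{1,2,2,2}`: a trilinear form on the cycle space over the
field with three elements, found by computer, with 54 non-zero entries.
-/

set_option autoImplicit false

namespace Pool.Agent.Lib.MP_5854e1_co

/-- Entries of the trilinear form, two bits each. -/
def tabN : ℕ :=
  0x40000000010000000000020000000000000000000000000000000000000000000000000000000000000000000000000000000000000000000000000000000000000000000000000000000000000000000000000000000000000000000000000000000000000000000000000000000000000000000000000000000000000000000000000000000000000000000000000000000000000000000000000000000000000000000000000000000000000000000000000000000000000000000000000000000000000000000000000000000000000000000000000000000000000000000000000000000000000000000000000000080000000000000000090000060000000000040000000000080000020000000000080000000000000000000000090080060000040000000000000000080000000000020000280000880000120000420000000040a20000000000000000a00000500000220000820000000000000000180000480000a80000000000080000080000500000a800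

/-- The entry `(e, f, g)` of the form. -/
def tN (e f g : Fin 12) : ℕ := (tabN >>> (2 * (144 * e.val + 12 * f.val + g.val))) % 4

/-- Sparse vectors: lists of pairs (index, coefficient). -/
abbrev Sp := List (Fin 12 × ℕ)

/-- The vector of the edge from `u` to `v`. -/
def edgeTab : List (List Sp) :=
   [[[], [(0, 1), (1, 1), (2, 1), (3, 1)], [(4, 1), (5, 1), (6, 1), (7, 1)], [(0, 2), (4, 2), (8, 1), (9, 1)], [(1, 2), (5, 2), (10, 1), (11, 1)], [(2, 2), (6, 2), (8, 2), (10, 2)], [(3, 2), (7, 2), (9, 2), (11, 2)]],
    [[(0, 2), (1, 2), (2, 2), (3, 2)], [], [], [(0, 1)], [(1, 1)], [(2, 1)], [(3, 1)]],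
    [[(4, 2), (5, 2), (6, 2), (7, 2)], [], [], [(4, 1)], [(5, 1)], [(6, 1)], [(7, 1)]],
    [[(0, 1), (4, 1), (8, 2), (9, 2)], [(0, 2)], [(4, 2)], [], [], [(8, 1)], [(9, 1)]],
    [[(1, 1), (5, 1), (10, 2), (11, 2)], [(1, 2)], [(5, 2)], [], [], [(10, 1)], [(11, 1)]],
    [[(2, 1), (6, 1), (8, 1), (10, 1)], [(2, 2)], [(6, 2)], [(8, 2)], [(10, 2)], [], []],
    [[(3, 1), (7, 1), (9, 1), (11, 1)], [(3, 2)], [(7, 2)], [(9, 2)], [(11, 2)], [], []]]

/-- The vector of the edge from `u` to `v`. -/
def eL (u v : Fin 7) : Sp := (edgeTab.getD u.val []).getD v.val []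

/-- Partial evaluations in natural numbers. -/
def ltx (l m : Sp) (k : Fin 12) : ℕ :=
  (l.map fun p => (m.map fun q => p.2 * q.2 * tN p.1 q.1 k).sum).sum

def lty (l m : Sp) (k : Fin 12) : ℕ :=
  (l.map fun p => (m.map fun q => p.2 * q.2 * tN k p.1 q.1).sum).sum

def lco (l : Sp) (k : Fin 12) : ℕ := (l.map fun p => if p.1 = k then p.2 else 0).sum

def ltri (l m n : Sp) : ℕ := (n.map fun r => r.2 * ltx l m r.1).sum

def linc (l m : Sp) : ℕ := 2 * ltri l l m + 2 * ltri l m m

def lcen : List Sp → ℕ
  | [] => 0
  | l :: ls => lcen ls + linc l ls.flatten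

/-- The neighbours of a vertex. -/
def nb (u : Fin 7) : List (Fin 7) := (List.finRange 7).filter fun v => K1222.Adj u v

theorem mem_nb {u v : Fin 7} : v ∈ nb u ↔ K1222.Adj u v := by
  simp [nb]

theorem nodup_nb (u : Fin 7) : (nb u).Nodup := (List.nodup_finRange 7).filter _

theorem check_neg : ∀ u v : Fin 7, ∀ k : Fin 12, (lco (eL u v) k + lco (eL v u) k) % 3 = 0 := by
  decide +kernel

theorem check_sum : ∀ u : Fin 7, ∀ k : Fin 12,
    lco ((nb u).map (eL u)).flatten k % 3 = 0 := by
  decide +kernel

theorem check_tx : ∀ u v w : Fin 7, K1222.Adj u v → K1222.Adj u w → ∀ k : Fin 12,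
    ltx (eL u v) (eL u w) k % 3 = ltx (eL u w) (eL u v) k % 3 := by
  decide +kernel

theorem check_ty : ∀ u v w : Fin 7, K1222.Adj u v → K1222.Adj u w → ∀ k : Fin 12,
    lty (eL u v) (eL u w) k % 3 = lty (eL u w) (eL u v) k % 3 := by
  decide +kernel

theorem check_cen : ∀ u : Fin 7, lcen ((nb u).map (eL u)) % 3 = if u = 0 then 1 else 0 := by
  decide +kernel

end Pool.Agent.Lib.MP_5854e1_co
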