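import Mathlib

/-!
Two graphs obtained from `K_{1,2,2,2}` by replacing triangles by stars.
-/

set_option autoImplicit false

namespace Pool.Agent.Lib.MP_5854e1_co

/-- The edges of `C_3`: the vertex `0` is joined to `1, ..., 6`; the octahedron with the opposite
pairs `{1, 2}`, `{3, 4}`, `{5, 6}` loses the edges of the triangles `135` and `146`, which are
replaced by stars with centres `7` and `8`. -/
def C3edges : List (Fin 9 × Fin 9) :=
  [(0, 1), (0, 2), (0, 3), (0, 4), (0, 5), (0, 6),
   (2, 3), (2, 4), (2, 5), (2, 6), (3, 6), (4, 5),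
   (7, 1), (7, 3), (7, 5), (8, 1), (8, 4), (8, 6)]

/-- The graph `C_3`. -/
def C3 : SimpleGraph (Fin 9) where
  Adj u v := (u, v) ∈ C3edges ∨ (v, u) ∈ C3edges
  symm := ⟨fun _ _ h => h.symm⟩
  loopless := ⟨fun a h => by revert a; decide⟩

instance : DecidableRel C3.Adj := fun u v =>
  inferInstanceAs (Decidable ((u, v) ∈ C3edges ∨ (v, u) ∈ C3edges))

/-- The edges of `D_2`: the vertex `0` is joined to `1, ..., 6`; the octahedron with the opposite
pairs `{1, 2}`, `{3, 4}`, `{5, 6}` loses the edges of the triangles `135`, `146` and `236`, which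
are replaced by stars with centres `7`, `8` and `9`. -/
def D2edges : List (Fin 10 × Fin 10) :=
  [(0, 1), (0, 2), (0, 3), (0, 4), (0, 5), (0, 6),
   (2, 4), (2, 5), (4, 5),
   (7, 1), (7, 3), (7, 5), (8, 1), (8, 4), (8, 6), (9, 2), (9, 3), (9, 6)]

/-- The graph `D_2`. -/
def D2 : SimpleGraph (Fin 10) where
  Adj u v := (u, v) ∈ D2edges ∨ (v, u) ∈ D2edges
  symm := ⟨fun _ _ h => h.symm⟩
  loopless := ⟨fun a h => by revert a; decide⟩

instance : DecidableRel D2.Adj := fun u v =>
  inferInstanceAs (Decidable ((u, v) ∈ D2edges ∨ (v, u) ∈ D2edges))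

end Pool.Agent.Lib.MP_5854e1_co
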