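import Pool.Agent.Lib.MP_5854e1_co.CertElim
import Pool.Agent.Lib.MP_5854e1_co.Graphs

/-!
The positivity certificate of `C3`.
-/

set_option autoImplicit false

namespace Pool.Agent.Lib.MP_5854e1_co

def C3_tab : List (List ℕ) := [[0, 54076364882489804483466213083, 56590316537926758919097948062, 46530825603414250588258784597, 41499544842645217026147169489, 23815608149948911818552389827, 26409387504553466437517463877, 0, 0], 
  [0, 0, 0, 0, 0, 0, 0, 45273235711895767725617792276, 45273235711895767725617792276], 
  [0, 0, 0, 47768765640519611702962644374, 41499237963782028639996322962, 42758036770780442207691327062, 47788108231137609779145958806, 0, 0], 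
  [0, 0, 30182157148236274709047841288, 0, 0, 0, 49046005365972808406746887639, 32697336910648774244681949834, 0], 
  [0, 0, 36466729236438518082272817997, 0, 0, 37727696435363970282639972115, 0, 0, 44015337688105408550199440595], 
  [0, 0, 35094291403549250736050979596, 0, 38729526545824060065112191951, 0, 0, 44015644641926795077138330835, 0], 
  [0, 0, 30182157148236274641419403784, 28924567267112310129028788679, 0, 0, 0, 0, 32697336910648774244681949834], 
  [0, 0, 0, 45273235703697214803970966804, 0, 33954926791827573254371717835, 0, 0, 0], 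
  [0, 0, 0, 0, 33954926791827573254372242123, 0, 45273235703697214803970966804, 0, 0]]

def C3_nb : List (List (Fin 9)) := [[1, 2, 3, 4, 5, 6], [0, 7, 8], [0, 3, 4, 5, 6], [0, 2, 6, 7], [0, 2, 5, 8], [0, 2, 4, 7], [0, 2, 3, 8], [1, 3, 5], [1, 4, 6]]

def C3_cert : CertData 9 where
  N := 16
  k := 6
  s := 1
  code := fun u v => (C3_tab.getD u.1 []).getD v.1 0
  nb := fun u => C3_nb.getD u.1 []
  c := fun _ => 0

theorem C3_ok : C3_cert.okE C3
    [(3, 2), (2, 3), (3, 6), (6, 3), (5, 2), (2, 5), (5, 4), (4, 5), (2, 4), (4, 2), (2, 6), (6, 2), (3, 7), (7, 3), (5, 7), (7, 5), (4, 8), (8, 4), (6, 8), (8, 6)]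
    [(7, 1), (8, 1), (1, 0), (3, 0), (5, 0), (2, 0), (4, 0), (6, 0)] = true := by
  decide +kernel

end Pool.Agent.Lib.MP_5854e1_co
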