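import Pool.Agent.Lib.MP_5854e1_co.Cert

/-!
A decidable checker for positivity certificates.

The floor function of the dart `(u, v)` is encoded by the natural number `code u v`, whose digits in
base `2 ^ k` are the values at `0, ..., N - 1`, shifted by `s * N`.
-/

set_option autoImplicit false

namespace Pool.Agent.Lib.MP_5854e1_co

/-- digit number `i` in base `2 ^ k` -/
def dig (k c i : ℕ) : ℕ := (c >>> (k * i)) % 2 ^ k

/-- the shifted floor function on natural numbers -/
def stp (N k c x : ℕ) : ℕ := N * (x / N) + dig k c (x % N)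

/-- the floor function on integers -/
def flo (N k s c : ℕ) (x : ℤ) : ℤ := N * (x / N) + dig k c (x % N).toNat - s * N

theorem fl_nat (N k s c x : ℕ) : flo N k s c x = stp N k c x - s * N := by
  unfold flo stp
  have h : ((x : ℤ) % N).toNat = x % N := by
    rw [← Int.natCast_mod, Int.toNat_natCast]
  rw [h]
  push_cast
  ring

theorem fl_add (N k s c : ℕ) (x : ℤ) (hN : 0 < N) (t : ℤ) :
    flo N k s c (x + t * N) = flo N k s c x + t * N := by
  unfold flo
  have hN' : (N : ℤ) ≠ 0 := by exact_mod_cast hN.ne'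
  rw [Int.add_mul_ediv_right _ _ hN', Int.add_mul_emod_self_right]
  ring

/-- digits are nondecreasing, also around the period -/
def monoOK (N k c : ℕ) : Bool :=
  (List.range (N - 1)).all (fun i => dig k c i ≤ dig k c (i + 1)) &&
    decide (dig k c (N - 1) ≤ dig k c 0 + N)

theorem monoOK_fl {N k s c : ℕ} (hN : 0 < N) (h : monoOK N k c = true) :
    Monotone (flo N k s c) := by
  refine monotone_int_of_le_succ fun x => ?_
  rw [monoOK, Bool.and_eq_true, decide_eq_true_eq, List.all_eq_true] at h
  obtain ⟨h1, h2⟩ := h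
  have h3 : ∀ i, i < N - 1 → dig k c i ≤ dig k c (i + 1) := fun i hi => by
    have := h1 i (List.mem_range.2 hi)
    simpa using this
  -- reduce to `0 ≤ x < N`
  have hNz : (0 : ℤ) < N := by exact_mod_cast hN
  have key : ∀ i : ℕ, i < N → flo N k s c i ≤ flo N k s c ((i : ℤ) + 1) := by
    intro i hi
    by_cases hi2 : i + 1 < N
    · have e1 : ((i : ℤ) + 1) = ((i + 1 : ℕ) : ℤ) := by push_cast; ring
      rw [e1, fl_nat, fl_nat]
      unfold stp
      rw [Nat.div_eq_of_lt hi, Nat.div_eq_of_lt hi2, Nat.mod_eq_of_lt hi, Nat.mod_eq_of_lt hi2]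
      have := h3 i (by omega)
      have h4 : ((dig k c i : ℕ) : ℤ) ≤ (dig k c (i + 1) : ℕ) := by exact_mod_cast this
      push_cast
      linarith
    · have hi3 : i = N - 1 := by omega
      have e1 : ((i : ℤ) + 1) = 0 + 1 * (N : ℤ) := by omega
      rw [e1, fl_add _ _ _ _ _ hN, fl_nat]
      unfold stp
      rw [Nat.div_eq_of_lt hi, Nat.mod_eq_of_lt hi, hi3]
      unfold flo
      rw [Int.zero_ediv, Int.zero_emod]
      have h4 : ((dig k c (N - 1) : ℕ) : ℤ) ≤ (dig k c 0 : ℕ) + N := by exact_mod_cast h2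
      simp only [Int.toNat_zero]
      push_cast
      linarith
  have e1 : x = (x % N) + (x / N) * N := by
    have := Int.emod_add_mul_ediv x N
    linarith
  have e2 : 0 ≤ x % N := Int.emod_nonneg x hNz.ne'
  obtain ⟨i, hi⟩ := Int.eq_ofNat_of_zero_le e2
  have e3 : i < N := by
    have := Int.emod_lt_of_pos x hNz
    omega
  have e4 : x + 1 = ((i : ℤ) + 1) + (x / N) * N := by
    rw [← hi]
    linarith
  have e5 : x = (i : ℤ) + (x / N) * N := by
    rw [← hi]
    linarith
  rw [e4]
  rw [fl_add _ _ _ _ _ hN]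
  nth_rewrite 1 [e5]
  rw [fl_add _ _ _ _ _ hN]
  have := key i e3
  linarith

/-- `F (G j) < j` for the floor functions with codes `c` and `c'` -/
def invOK (N k s c c' : ℕ) : Bool :=
  (List.range N).all (fun j => decide (stp N k c (stp N k c' j) < j + 2 * (s * N)))

theorem invOK_fl {N k s c c' : ℕ} (hN : 0 < N) (h : invOK N k s c c' = true) (j : ℤ) :
    flo N k s c (flo N k s c' j) < j := by
  rw [invOK, List.all_eq_true] at h
  have hNz : (0 : ℤ) < N := by exact_mod_cast hN
  have e1 : 0 ≤ j % N := Int.emod_nonneg j hNz.ne'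
  obtain ⟨i, hi⟩ := Int.eq_ofNat_of_zero_le e1
  have e3 : i < N := by
    have := Int.emod_lt_of_pos j hNz
    omega
  have e5 : j = (i : ℤ) + (j / N) * N := by
    have := Int.emod_add_mul_ediv j N
    rw [← hi]
    linarith
  rw [e5, fl_add _ _ _ _ _ hN, fl_add _ _ _ _ _ hN, fl_nat]
  have e6 : ((stp N k c' i : ℕ) : ℤ) - s * N = (stp N k c' i : ℕ) + (-(s : ℤ)) * N := by ring
  rw [e6, fl_add _ _ _ _ _ hN, fl_nat]
  have h2 := h i (List.mem_range.2 e3)
  rw [decide_eq_true_eq] at h2
  have h3 : ((stp N k c (stp N k c' i) : ℕ) : ℤ) < i + 2 * (s * N) := by exact_mod_cast h2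
  linarith

/-- all words in the codes `rem` (in any order), applied to the values `vals` at `0, 1, ...`, are at
least the identity plus `T + 1` -/
def dfs (N k T : ℕ) : ℕ → List ℕ → List ℕ → Bool
  | 0, _, _ => false
  | _ + 1, [], vals => (vals.zipIdx).all (fun p => decide (p.2 + 1 + T ≤ p.1))
  | f + 1, c :: cs, vals => (List.range (cs.length + 1)).all fun i =>
      dfs N k T f ((c :: cs).eraseIdx i) (vals.map (stp N k ((c :: cs).getD i 0)))

theorem dfs_sound {N k T : ℕ} : ∀ (f : ℕ) (rem vals : List ℕ), dfs N k T f rem vals = true →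
    ∀ l : List ℕ, l.Perm rem → ∀ i (hi : i < vals.length),
      i + 1 + T ≤ l.foldl (fun x c => stp N k c x) vals[i] := by
  intro f
  induction f with
  | zero => intro rem vals h; simp [dfs] at h
  | succ f ih =>
    intro rem vals h l hl i hi
    cases rem with
    | nil =>
      rw [hl.eq_nil, List.foldl_nil]
      rw [dfs, List.all_eq_true] at h
      have h1 := h (vals[i], i) (by
        rw [List.mem_zipIdx_iff_getElem?]
        simp [hi])
      simpa using h1
    | cons c cs =>
      rw [dfs, List.all_eq_true] at h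
      cases l with
      | nil => exact absurd hl.symm.eq_nil (by simp)
      | cons a l =>
        have ha : a ∈ c :: cs := hl.subset (List.mem_cons_self)
        obtain ⟨j, hj, hja⟩ := List.getElem_of_mem ha
        have h1 := h j (List.mem_range.2 (by simpa using hj))
        have h2 : (c :: cs).getD j 0 = a := by
          rw [List.getD_eq_getElem _ _ hj, hja]
        rw [h2] at h1
        have h3 : l.Perm ((c :: cs).eraseIdx j) := by
          have e1 : (a :: l).Perm (a :: (c :: cs).eraseIdx j) := by
            refine hl.trans ?_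
            have := List.getElem_cons_eraseIdx_perm hj
            rw [hja] at this
            exact this.symm
          exact (List.perm_cons a).1 e1
        have h4 := ih _ _ h1 l h3 i (by simpa using hi)
        rw [List.foldl_cons]
        simpa using h4

theorem foldl_fl {N k s : ℕ} (hN : 0 < N) (L : List ℕ) : ∀ (x : ℕ) (t : ℤ),
    L.foldl (fun (x : ℤ) c => flo N k s c x) ((x : ℤ) + t * N) =
      (L.foldl (fun x c => stp N k c x) x : ℕ) + (t - L.length * s) * N := by
  induction L with
  | nil => intro x t; simp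
  | cons c L ih =>
    intro x t
    rw [List.foldl_cons, List.foldl_cons, fl_add _ _ _ _ _ hN, fl_nat]
    have h1 : ((stp N k c x : ℕ) : ℤ) - s * N + t * N = (stp N k c x : ℕ) + (t - s) * N := by ring
    rw [h1, ih, List.length_cons]
    push_cast
    ring

/-- a certificate for a graph on `Fin m` -/
structure CertData (m : ℕ) where
  /-- grid size -/
  N : ℕ
  /-- bits of a digit -/
  k : ℕ
  /-- shift -/
  s : ℕ
  /-- floor functions of the darts -/
  code : Fin m → Fin m → ℕ
  /-- neighbours -/
  nb : Fin m → List (Fin m)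
  /-- weights -/
  c : Fin m → ℤ

/-- the check at a vertex -/
def CertData.okAt {m : ℕ} (C : CertData m) (K : SimpleGraph (Fin m)) [DecidableRel K.Adj]
    (u : Fin m) : Bool :=
  decide ((C.nb u).Nodup) && (List.finRange m).all (fun v => decide (v ∈ C.nb u ↔ K.Adj u v)) &&
    (C.nb u).all (fun v => monoOK C.N C.k (C.code u v) &&
      invOK C.N C.k C.s (C.code u v) (C.code v u)) &&
    decide (0 ≤ C.c u * C.N + (C.nb u).length * (C.s * C.N)) &&
    match C.nb u with
    | [] => false
    | v :: vs => dfs C.N C.k (C.c u * C.N + (vs.length + 1) * (C.s * C.N)).toNat (vs.length + 1)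
        (vs.map (C.code u)) ((List.range C.N).map (stp C.N C.k (C.code u v)))

/-- the check -/
def CertData.ok {m : ℕ} (C : CertData m) (K : SimpleGraph (Fin m)) [DecidableRel K.Adj] : Bool :=
  decide (0 < C.N) && (List.finRange m).all (fun u => C.okAt K u)

theorem QN_rotate {N : ℕ} {a : ℤ} {T : Type*} (g : T → HN N) (l1 l2 : List T) (d : T)
    (h : ((l2 ++ l1 ++ [d]).map g).prod ∈ QN N a) : ((l1 ++ d :: l2).map g).prod ∈ QN N a := by
  have h1 := QN_conj h ((l1.map g).prod * g d)
  have h2 : ((l1.map g).prod * g d) * ((l2 ++ l1 ++ [d]).map g).prod *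
      ((l1.map g).prod * g d)⁻¹ = ((l1 ++ d :: l2).map g).prod := by
    simp only [List.map_append, List.map_cons, List.map_nil, List.prod_append, List.prod_cons,
      List.prod_nil, mul_one]
    group
  rw [h2] at h1
  exact h1

theorem CertData.sound {m : ℕ} (C : CertData m) (K : SimpleGraph (Fin m)) [DecidableRel K.Adj]
    (h : C.ok K = true) :
    ∃ g : K.Dart → HN C.N, (∀ d, g d.symm = (g d)⁻¹) ∧
      ∀ u, ∀ l : List K.Dart, l.Nodup → (∀ d, d ∈ l ↔ d.fst = u) →
        (l.map g).prod ∈ QN C.N (C.c u) := by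
  classical
  rw [CertData.ok, Bool.and_eq_true, decide_eq_true_eq, List.all_eq_true] at h
  obtain ⟨hN, hall⟩ := h
  have hok : ∀ u, C.okAt K u = true := fun u => hall u (List.mem_finRange u)
  have hdata : ∀ u, (C.nb u).Nodup ∧ (∀ v, v ∈ C.nb u ↔ K.Adj u v) ∧
      (∀ v ∈ C.nb u, monoOK C.N C.k (C.code u v) = true ∧
        invOK C.N C.k C.s (C.code u v) (C.code v u) = true) ∧
      0 ≤ C.c u * C.N + (C.nb u).length * (C.s * C.N) ∧
      ∃ v vs, C.nb u = v :: vs ∧
        dfs C.N C.k (C.c u * C.N + (vs.length + 1) * (C.s * C.N)).toNat (vs.length + 1)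
          (vs.map (C.code u)) ((List.range C.N).map (stp C.N C.k (C.code u v))) = true := by
    intro u
    have h1 := hok u
    unfold CertData.okAt at h1
    rw [Bool.and_eq_true, Bool.and_eq_true, Bool.and_eq_true, Bool.and_eq_true] at h1
    obtain ⟨⟨⟨⟨a1, a2⟩, a3⟩, a4⟩, a5⟩ := h1
    refine ⟨of_decide_eq_true a1, fun v => ?_, fun v hv => ?_, of_decide_eq_true a4, ?_⟩
    · rw [List.all_eq_true] at a2
      exact of_decide_eq_true (a2 v (List.mem_finRange v))
    · rw [List.all_eq_true] at a3
      have := a3 v hv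
      rw [Bool.and_eq_true] at this
      exact this
    · cases hnb : C.nb u with
      | nil => rw [hnb] at a5; exact absurd a5 (by simp)
      | cons v vs =>
        rw [hnb] at a5
        exact ⟨v, vs, rfl, a5⟩
  let F : K.Dart → ℤ → ℤ := fun d => flo C.N C.k C.s (C.code d.fst d.snd)
  have hmem : ∀ d : K.Dart, d.snd ∈ C.nb d.fst := fun d => ((hdata d.fst).2.1 d.snd).2 d.adj
  obtain ⟨g, hg1, hg2⟩ := exists_hom K C.N hN F
    (fun d => monoOK_fl hN ((hdata d.fst).2.2.1 d.snd (hmem d)).1)
    (fun d i => by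
      have := fl_add C.N C.k C.s (C.code d.fst d.snd) i hN 1
      rw [one_mul] at this
      exact this)
    (fun d j => invOK_fl hN ((hdata d.fst).2.2.1 d.snd (hmem d)).2 j)
  refine ⟨g, hg1, fun u l hl hl2 => ?_⟩
  obtain ⟨hnd, hnb, -, hT, v0, vs, hv, hdfs⟩ := hdata u
  have hadj0 : K.Adj u v0 := (hnb v0).1 (by rw [hv]; exact List.mem_cons_self)
  let d0 : K.Dart := ⟨(u, v0), hadj0⟩
  have hd0 : d0 ∈ l := (hl2 d0).2 rfl
  obtain ⟨l1, l2, hl12⟩ := List.append_of_mem hd0
  rw [hl12]
  apply QN_rotate
  apply prod_mem F g hg2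
  intro i
  -- the list of the other darts
  set l' : List K.Dart := l2 ++ l1 with hl'
  have hperm : l.Perm (l' ++ [d0]) := by
    rw [hl12, hl']
    have e1 : (l1 ++ d0 :: l2).Perm (d0 :: l2 ++ l1) := List.perm_append_comm
    refine e1.trans ?_
    rw [List.cons_append]
    exact (List.perm_append_singleton d0 (l2 ++ l1)).symm
  have hsnd : (l.map fun d => d.snd).Perm (C.nb u) := by
    rw [List.perm_ext_iff_of_nodup _ hnd]
    · intro v
      rw [hnb v, List.mem_map]
      constructor
      · rintro ⟨d, hd, rfl⟩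
        have := (hl2 d).1 hd
        rw [← this]
        exact d.adj
      · intro hadj
        exact ⟨⟨(u, v), hadj⟩, (hl2 _).2 rfl, rfl⟩
    · refine (List.nodup_map_iff_inj_on hl).2 ?_
      intro d hd d' hd' hdd
      have e1 := (hl2 d).1 hd
      have e2 := (hl2 d').1 hd'
      exact SimpleGraph.Dart.ext _ _ (Prod.ext (e1.trans e2.symm) hdd)
  have hvs : (l'.map fun d => d.snd).Perm vs := by
    have e1 := (hperm.map fun d => d.snd).symm.trans hsnd
    rw [hv, List.map_append] at e1
    have e2 : (l'.map (fun d => d.snd) ++ [v0]).Perm (v0 :: vs) := e1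
    have e3 := (List.perm_append_singleton v0 (l'.map fun d => d.snd)).symm.trans e2
    exact (List.perm_cons v0).1 e3
  have hfst : ∀ d ∈ l', d.fst = u := fun d hd =>
    (hl2 d).1 (hperm.symm.subset (List.mem_append_left _ hd))
  set L : List ℕ := (l'.reverse).map (fun d => C.code d.fst d.snd) with hL
  have hLperm : L.Perm (vs.map (C.code u)) := by
    have e1 : L.Perm (l'.map (fun d => C.code d.fst d.snd)) := by
      rw [hL]
      exact (List.reverse_perm l').map _
    refine e1.trans ?_
    have e2 : l'.map (fun d => C.code d.fst d.snd) = (l'.map fun d => d.snd).map (C.code u) := by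
      rw [List.map_map]
      refine List.map_congr_left fun d hd => ?_
      rw [Function.comp_apply, hfst d hd]
    rw [e2]
    exact hvs.map _
  have hlen : L.length = vs.length := by
    rw [hLperm.length_eq, List.length_map]
  -- the word as a left fold
  have hword : ∀ y : ℤ, (l' ++ [d0]).foldr F y =
      L.foldl (fun (x : ℤ) c => flo C.N C.k C.s c x) (F d0 y) := by
    intro y
    rw [List.foldr_append, List.foldr_cons, List.foldr_nil, hL, List.foldl_map, List.foldl_reverse]
  rw [hword]
  have hNz : (0 : ℤ) < C.N := by exact_mod_cast hN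
  have e1 : 0 ≤ i % C.N := Int.emod_nonneg i hNz.ne'
  obtain ⟨j, hj⟩ := Int.eq_ofNat_of_zero_le e1
  have e3 : j < C.N := by
    have := Int.emod_lt_of_pos i hNz
    omega
  have e5 : i = (j : ℤ) + (i / C.N) * C.N := by
    have := Int.emod_add_mul_ediv i C.N
    rw [← hj]
    linarith
  have e6 : F d0 i = (stp C.N C.k (C.code u v0) j : ℕ) + ((i / C.N) - C.s) * C.N := by
    conv_lhs => rw [e5]
    show flo C.N C.k C.s (C.code u v0) ((j : ℤ) + (i / C.N) * C.N) = _
    rw [fl_add _ _ _ _ _ hN, fl_nat]
    ring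
  rw [e6, foldl_fl hN, hlen]
  have h7 := dfs_sound _ _ _ hdfs L hLperm j (by simpa using e3)
  have e8 : ((List.range C.N).map (stp C.N C.k (C.code u v0)))[j]'(by simpa using e3) =
      stp C.N C.k (C.code u v0) j := by simp
  rw [e8] at h7
  have h9 : (((C.c u * C.N + (vs.length + 1) * (C.s * C.N)).toNat : ℕ) : ℤ) =
      C.c u * C.N + (vs.length + 1) * (C.s * C.N) := by
    apply Int.toNat_of_nonneg
    rw [hv] at hT
    simpa using hT
  have h10 : ((j + 1 + (C.c u * C.N + (vs.length + 1) * (C.s * C.N)).toNat : ℕ) : ℤ) ≤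
      ((L.foldl (fun x c => stp C.N C.k c x) (stp C.N C.k (C.code u v0) j) : ℕ) : ℤ) := by
    exact_mod_cast h7
  rw [Nat.cast_add, h9] at h10
  conv_lhs => rw [e5]
  push_cast at h10 ⊢
  linarith

end Pool.Agent.Lib.MP_5854e1_co
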