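import Pool.Agent.Lib.MP_5854e1_co.CertElim
import Pool.Agent.Lib.MP_5854e1_co.Graphs

/-!
The positivity certificate of `D2`.
-/

set_option autoImplicit false

namespace Pool.Agent.Lib.MP_5854e1_co

def D2_tab : List (List ℕ) := [[0, 52818736555953912171440752282, 51561185128329615614804350809, 41500456484251005290037508063, 45273235722253760715216209172, 25151797623392967837101342980, 21379013588065540128862954371, 0, 0, 0], 
  [0, 0, 0, 0, 0, 0, 0, 42758050787963494605951976594, 42758050787963494605951706258, 0], 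
  [0, 0, 0, 0, 46530825603615509734239851861, 46530825603594117636009842005, 0, 0, 0, 36470106554185171273184556686], 
  [0, 0, 0, 0, 0, 0, 0, 41500398914012389472939086929, 0, 40242569168941983633755731935], 
  [0, 0, 28924567267057476178481541575, 0, 0, 49026355524079741655549048279, 0, 0, 32697336910648774105330918026, 0], 
  [0, 0, 30182157148217974848724435464, 0, 27666977385932978955979612550, 0, 0, 32697336910648774242769347210, 0, 0], 
  [0, 0, 0, 0, 0, 0, 0, 0, 41500398914012389472939086929, 18863848217681985141319721868], 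
  [0, 33954878818580763150043628235, 0, 0, 0, 44015645824860287600782292179, 0, 0, 0, 0], 
  [0, 33954888337100705184172262091, 0, 0, 44015641029877764339415200979, 0, 0, 0, 0, 0], 
  [0, 0, 40219848813206901953650557968, 0, 0, 0, 43956691518253028115746781151, 0, 0, 0]]

def D2_nb : List (List (Fin 10)) := [[1, 2, 3, 4, 5, 6], [0, 7, 8], [0, 4, 5, 9], [0, 7, 9], [0, 2, 5, 8], [0, 2, 4, 7], [0, 8, 9], [1, 3, 5], [1, 4, 6], [2, 3, 6]]

def D2_cert : CertData 10 where
  N := 16
  k := 6
  s := 1
  code := fun u v => (D2_tab.getD u.1 []).getD v.1 0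
  nb := fun u => D2_nb.getD u.1 []
  c := fun _ => 0

theorem D2_ok : D2_cert.okE D2
    [(2, 4), (4, 2), (2, 5), (5, 2), (4, 5), (5, 4), (6, 9), (9, 6), (2, 9), (9, 2), (5, 7), (7, 5), (1, 7), (7, 1), (4, 8), (8, 4), (1, 8), (8, 1)]
    [(9, 3), (7, 3), (8, 6), (3, 0), (6, 0), (2, 0), (4, 0), (5, 0), (1, 0)] = true := by
  decide +kernel

end Pool.Agent.Lib.MP_5854e1_co
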