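import Pool.Agent.Lib.MP_5854e1_co.CertCheck

/-!
Contracted certificates: the labels of the edges of a rooted forest are not given by tables, they
are infima of words in the other labels.
-/

set_option autoImplicit false

namespace Pool.Agent.Lib.MP_5854e1_co

/-! ### infima in the group of automorphisms -/

/-- the pointwise minimum of two automorphisms -/
noncomputable def minO (f g : ℝ ≃o ℝ) : ℝ ≃o ℝ where
  toFun x := min (f x) (g x)
  invFun y := max (f.symm y) (g.symm y)
  left_inv x := by
    show max (f.symm (min (f x) (g x))) (g.symm (min (f x) (g x))) = x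
    rcases le_total (f x) (g x) with h | h
    · rw [min_eq_left h, f.symm_apply_apply, max_eq_left]
      have := g.symm.monotone h
      rwa [g.symm_apply_apply] at this
    · rw [min_eq_right h, g.symm_apply_apply, max_eq_right]
      have := f.symm.monotone h
      rwa [f.symm_apply_apply] at this
  right_inv y := by
    show min (f (max (f.symm y) (g.symm y))) (g (max (f.symm y) (g.symm y))) = y
    rcases le_total (f.symm y) (g.symm y) with h | h
    · rw [max_eq_right h, g.apply_symm_apply, min_eq_right]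
      have := f.monotone h
      rwa [f.apply_symm_apply] at this
    · rw [max_eq_left h, f.apply_symm_apply, min_eq_left]
      have := g.monotone h
      rwa [g.apply_symm_apply] at this
  map_rel_iff' := by
    intro a b
    show min (f a) (g a) ≤ min (f b) (g b) ↔ a ≤ b
    constructor
    · intro h
      by_contra hab
      rw [not_le] at hab
      have h1 : f b < f a := f.strictMono hab
      have h2 : g b < g a := g.strictMono hab
      have h3 : min (f b) (g b) < min (f a) (g a) :=
        lt_min ((min_le_left _ _).trans_lt h1) ((min_le_right _ _).trans_lt h2)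
      exact absurd h (not_le.2 h3)
    · intro h
      exact min_le_min (f.monotone h) (g.monotone h)

theorem minO_apply (f g : ℝ ≃o ℝ) (x : ℝ) : minO f g x = min (f x) (g x) := rfl

/-- the minimum of a finite nonempty list of automorphisms -/
theorem exists_min {N : ℕ} : ∀ (W : List (HN N)), W ≠ [] → ∃ m : HN N,
    (∀ w ∈ W, ∀ x : ℝ, m.1 x ≤ w.1 x) ∧ ∀ x : ℝ, ∃ w ∈ W, m.1 x = w.1 x := by
  intro W
  induction W with
  | nil => intro h; exact absurd rfl h
  | cons a W ih =>
    intro _
    by_cases hW : W = []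
    · subst hW
      refine ⟨a, fun w hw x => ?_, fun x => ⟨a, by simp, rfl⟩⟩
      rw [List.mem_singleton] at hw
      rw [hw]
    · obtain ⟨m, h1, h2⟩ := ih hW
      refine ⟨⟨minO a.1 m.1, fun x => ?_⟩, fun w hw x => ?_, fun x => ?_⟩
      · rw [minO_apply, minO_apply, a.2 x, m.2 x, min_add_add_right]
      · show min (a.1 x) (m.1 x) ≤ w.1 x
        rcases List.mem_cons.1 hw with rfl | hw
        · exact min_le_left _ _
        · exact (min_le_right _ _).trans (h1 w hw x)
      · show ∃ w ∈ a :: W, min (a.1 x) (m.1 x) = w.1 x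
        rcases le_total (a.1 x) (m.1 x) with h | h
        · exact ⟨a, List.mem_cons_self, min_eq_left h⟩
        · obtain ⟨w, hw, hx⟩ := h2 x
          exact ⟨w, List.mem_cons_of_mem _ hw, by rw [min_eq_right h, hx]⟩

/-- translation by a real number -/
noncomputable def trans (N : ℕ) (t : ℝ) : HN N :=
  ⟨{ toFun := fun x => x + t
     invFun := fun x => x - t
     left_inv := fun x => by simp
     right_inv := fun x => by simp
     map_rel_iff' := by
       intro a b
       simp }, fun x => by
    show x + N + t = x + t + N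
    ring⟩

theorem trans_apply (N : ℕ) (t x : ℝ) : (trans N t).1 x = x + t := rfl

/-- If all automorphisms of a finite list exceed a floor function `B` shifted by `c * N`, there is
an automorphism which exceeds `B` and is smaller than all of them shifted back. -/
theorem exists_below {N : ℕ} (hN : 0 < N) (W : List (HN N)) (hW : W ≠ []) (B : ℤ → ℤ)
    (hBN : ∀ (i t : ℤ), B (i + t * N) = B i + t * N) (c : ℤ)
    (h : ∀ w ∈ W, ∀ i : ℤ, ((B i + c * N : ℤ) : ℝ) < w.1 i) :
    ∃ g : HN N, (∀ w ∈ W, ∀ x : ℝ, g.1 x + c * N < w.1 x) ∧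
      ∀ (i : ℤ) (x : ℝ), (i : ℝ) ≤ x → (B i : ℝ) < g.1 x := by
  obtain ⟨m, h1, h2⟩ := exists_min W hW
  have h3 : ∀ i : ℤ, ((B i + c * N : ℤ) : ℝ) < m.1 i := fun i => by
    obtain ⟨w, hw, hx⟩ := h2 i
    rw [hx]
    exact h w hw i
  -- a positive lower bound for the differences
  obtain ⟨e, he, hle⟩ : ∃ e : ℝ, 0 < e ∧ ∀ i ∈ Finset.range N,
      e ≤ m.1 ((i : ℕ) : ℝ) - ((B i + c * N : ℤ) : ℝ) := by
    have hne : (Finset.range N).Nonempty := ⟨0, Finset.mem_range.2 hN⟩
    obtain ⟨j, hj, hj2⟩ := Finset.exists_min_image (Finset.range N)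
      (fun i : ℕ => m.1 ((i : ℕ) : ℝ) - ((B i + c * N : ℤ) : ℝ)) hne
    refine ⟨_, ?_, hj2⟩
    have := h3 j
    have h4 : (((j : ℕ) : ℤ) : ℝ) = ((j : ℕ) : ℝ) := by norm_cast
    rw [h4] at this
    linarith
  have hle2 : ∀ i : ℤ, ((B i + c * N : ℤ) : ℝ) + e ≤ m.1 i := by
    intro i
    have hNz : (0 : ℤ) < N := by exact_mod_cast hN
    have e1 : 0 ≤ i % N := Int.emod_nonneg i hNz.ne'
    obtain ⟨j, hj⟩ := Int.eq_ofNat_of_zero_le e1
    have e3 : j < N := by
      have := Int.emod_lt_of_pos i hNz
      omega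
    have e5 : i = (j : ℤ) + (i / N) * N := by
      have := Int.emod_add_mul_ediv i N
      rw [← hj]
      linarith
    have e6 := hle j (Finset.mem_range.2 e3)
    have e7 : ((i : ℤ) : ℝ) = ((j : ℕ) : ℝ) + ((i / N : ℤ) : ℝ) * N := by
      conv_lhs => rw [e5]
      push_cast
      ring
    rw [e7, HN_apply_add]
    have e8 : B i = B j + (i / N) * N := by
      conv_lhs => rw [e5]
      rw [hBN]
    rw [e8]
    push_cast at e6 ⊢
    linarith
  refine ⟨trans N (-(c * N : ℝ) - e / 2) * m, fun w hw x => ?_, fun i x hx => ?_⟩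
  · show m.1 x + (-(c * N : ℝ) - e / 2) + c * N < w.1 x
    have := h1 w hw x
    linarith
  · show (B i : ℝ) < m.1 x + (-(c * N : ℝ) - e / 2)
    have h4 := hle2 i
    have h5 : m.1 i ≤ m.1 x := m.1.monotone hx
    push_cast at h4
    linarith

/-! ### words -/

theorem prod_ge' {N : ℕ} {T : Type*} (F : T → ℤ → ℤ) (g : T → HN N) (l : List T)
    (h : ∀ d ∈ l, ∀ (i : ℤ) (x : ℝ), (i : ℝ) ≤ x → (F d i : ℝ) < (g d).1 x) (i : ℤ)
    (x : ℝ) (hx : (i : ℝ) ≤ x) : ((l.foldr F i : ℤ) : ℝ) ≤ (l.map g).prod.1 x := by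
  induction l with
  | nil => simpa using hx
  | cons d l ih =>
    rw [List.foldr_cons, List.map_cons, List.prod_cons]
    exact (h d List.mem_cons_self _ _ (ih fun e he => h e (List.mem_cons_of_mem _ he))).le

theorem prod_gt' {N : ℕ} {T : Type*} (F : T → ℤ → ℤ) (g : T → HN N) (l : List T) (hl : l ≠ [])
    (h : ∀ d ∈ l, ∀ (i : ℤ) (x : ℝ), (i : ℝ) ≤ x → (F d i : ℝ) < (g d).1 x) (i : ℤ)
    (x : ℝ) (hx : (i : ℝ) ≤ x) : ((l.foldr F i : ℤ) : ℝ) < (l.map g).prod.1 x := by
  cases l with
  | nil => exact absurd rfl hl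
  | cons d l =>
    rw [List.foldr_cons, List.map_cons, List.prod_cons]
    exact h d List.mem_cons_self _ _
      (prod_ge' F g l (fun e he => h e (List.mem_cons_of_mem _ he)) i x hx)

theorem prod_mem' {N : ℕ} {T : Type*} (F : T → ℤ → ℤ) (g : T → HN N) (l : List T)
    (h : ∀ d ∈ l, ∀ (i : ℤ) (x : ℝ), (i : ℝ) ≤ x → (F d i : ℝ) < (g d).1 x) (c : ℤ)
    (hl : ∀ i : ℤ, i + 1 + c * N ≤ l.foldr F i) : (l.map g).prod ∈ QN N c := by
  intro x
  have h1 := prod_ge' F g l h ⌊x⌋ x (Int.floor_le x)
  have h2 : ((⌊x⌋ + 1 + c * N : ℤ) : ℝ) ≤ ((l.foldr F ⌊x⌋ : ℤ) : ℝ) := by exact_mod_cast hl ⌊x⌋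
  have h3 := Int.lt_floor_add_one x
  push_cast at h2
  linarith

/-- all words in the codes `rem` (in any order), applied to the values `vals`, are at least the
targets -/
def dfsT (N k : ℕ) (tgt : List ℕ) : ℕ → List ℕ → List ℕ → Bool
  | 0, _, _ => false
  | _ + 1, [], vals => (vals.zip tgt).all (fun p => decide (p.2 ≤ p.1))
  | f + 1, c :: cs, vals => (List.range (cs.length + 1)).all fun i =>
      dfsT N k tgt f ((c :: cs).eraseIdx i) (vals.map (stp N k ((c :: cs).getD i 0)))

theorem dfsT_sound {N k : ℕ} (tgt : List ℕ) : ∀ (f : ℕ) (rem vals : List ℕ),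
    dfsT N k tgt f rem vals = true → ∀ l : List ℕ, l.Perm rem →
      ∀ i (hi : i < vals.length) (hi' : i < tgt.length),
      tgt[i] ≤ l.foldl (fun x c => stp N k c x) vals[i] := by
  intro f
  induction f with
  | zero => intro rem vals h; simp [dfsT] at h
  | succ f ih =>
    intro rem vals h l hl i hi hi'
    cases rem with
    | nil =>
      rw [hl.eq_nil, List.foldl_nil]
      rw [dfsT, List.all_eq_true] at h
      have h1 := h (vals[i], tgt[i]) (by
        rw [List.mem_iff_getElem]
        exact ⟨i, by simp [hi, hi'], by simp⟩)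
      simpa using h1
    | cons c cs =>
      rw [dfsT, List.all_eq_true] at h
      cases l with
      | nil => exact absurd hl.symm.eq_nil (by simp)
      | cons a l =>
        have ha : a ∈ c :: cs := hl.subset (List.mem_cons_self)
        obtain ⟨j, hj, hja⟩ := List.getElem_of_mem ha
        have h1 := h j (List.mem_range.2 (by simpa using hj))
        have h2 : (c :: cs).getD j 0 = a := by
          rw [List.getD_eq_getElem _ _ hj, hja]
        rw [h2] at h1
        have h3 : l.Perm ((c :: cs).eraseIdx j) := by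
          have e1 : (a :: l).Perm (a :: (c :: cs).eraseIdx j) := by
            refine hl.trans ?_
            have := List.getElem_cons_eraseIdx_perm hj
            rw [hja] at this
            exact this.symm
          exact (List.perm_cons a).1 e1
        have h4 := ih _ _ h1 l h3 i (by simpa using hi) hi'
        rw [List.foldl_cons]
        simpa using h4

theorem foldl_ge {N k s : ℕ} (hN : 0 < N) (L : List ℕ) (t : ℤ → ℤ)
    (ht : ∀ i q : ℤ, t (i + q * N) = t i + q * N)
    (h : ∀ j : ℕ, j < N → t j + L.length * s * N ≤ ((L.foldl (fun x c => stp N k c x) j : ℕ) : ℤ))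
    (i : ℤ) : t i ≤ L.foldl (fun (x : ℤ) c => flo N k s c x) i := by
  have hNz : (0 : ℤ) < N := by exact_mod_cast hN
  have e1 : 0 ≤ i % N := Int.emod_nonneg i hNz.ne'
  obtain ⟨j, hj⟩ := Int.eq_ofNat_of_zero_le e1
  have e3 : j < N := by
    have := Int.emod_lt_of_pos i hNz
    omega
  have e5 : i = (j : ℤ) + (i / N) * N := by
    have := Int.emod_add_mul_ediv i N
    rw [← hj]
    linarith
  have e6 := foldl_fl (k := k) (s := s) hN L j (i / N)
  rw [← e5] at e6
  rw [e6]
  have e7 : t i = t j + (i / N) * N := by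
    conv_lhs => rw [e5]
    rw [ht]
  rw [e7]
  have := h j e3
  linarith

/-! ### the elimination -/

/-- the state of the elimination: labels `g` of all darts, the darts in `S` have labels exceeding
their floor functions, the vertices in `done` satisfy their conditions -/
structure ElimSt {m : ℕ} (C : CertData m) (g : Fin m → Fin m → HN C.N) (done : List (Fin m))
    (S : List (Fin m × Fin m)) : Prop where
  inv : ∀ u v, u ≠ v → g u v = (g v u)⁻¹
  lb : ∀ p ∈ S, ∀ (i : ℤ) (x : ℝ), (i : ℝ) ≤ x →
    (flo C.N C.k C.s (C.code p.1 p.2) i : ℝ) < (g p.1 p.2).1 x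
  word : ∀ u ∈ done, ∀ l : List (Fin m), l.Perm (C.nb u) → (l.map (g u)).prod ∈ QN C.N (C.c u)

/-- the threshold of an eliminated vertex -/
def CertData.elimT {m : ℕ} (C : CertData m) (v p : Fin m) : ℤ :=
  C.c v * C.N + ((C.nb v).erase p).length * C.s * C.N - C.s * C.N

/-- the check at an eliminated vertex `v` with parent `p` -/
def CertData.elimOK {m : ℕ} (C : CertData m) (v p : Fin m) : Bool :=
  decide ((C.nb v).erase p ≠ []) && decide (0 ≤ C.elimT v p) &&
    dfsT C.N C.k ((List.range C.N).map fun j => stp C.N C.k (C.code p v) j + (C.elimT v p).toNat)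
      (((C.nb v).erase p).length + 1) (((C.nb v).erase p).map (C.code v)) (List.range C.N)

theorem foldr_codes {m : ℕ} (C : CertData m) (v : Fin m) (l : List (Fin m)) (i : ℤ) :
    l.foldr (fun w y => flo C.N C.k C.s (C.code v w) y) i =
      ((l.reverse).map (C.code v)).foldl (fun (x : ℤ) c => flo C.N C.k C.s c x) i := by
  rw [List.foldl_map, List.foldl_reverse]

theorem elim_bound {m : ℕ} (C : CertData m) (hN : 0 < C.N) (v p : Fin m)
    (h : C.elimOK v p = true) (l : List (Fin m)) (hl : l.Perm ((C.nb v).erase p)) (i : ℤ) :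
    flo C.N C.k C.s (C.code p v) i + C.c v * C.N ≤
      l.foldr (fun w y => flo C.N C.k C.s (C.code v w) y) i := by
  rw [CertData.elimOK, Bool.and_eq_true, Bool.and_eq_true, decide_eq_true_eq,
    decide_eq_true_eq] at h
  obtain ⟨⟨-, h0⟩, h1⟩ := h
  rw [foldr_codes]
  refine foldl_ge hN _ (fun i => flo C.N C.k C.s (C.code p v) i + C.c v * C.N)
    (fun i q => ?_) (fun j hj => ?_) i
  · show flo C.N C.k C.s (C.code p v) (i + q * C.N) + C.c v * C.N = _
    rw [fl_add _ _ _ _ _ hN]
    ring
  · show flo C.N C.k C.s (C.code p v) j + C.c v * C.N + _ ≤ _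
    have hperm : ((l.reverse).map (C.code v)).Perm (((C.nb v).erase p).map (C.code v)) :=
      ((List.reverse_perm l).trans hl).map _
    have h2 := dfsT_sound _ _ _ _ h1 _ hperm j (by simpa using hj) (by simpa using hj)
    have hlen : ((l.reverse).map (C.code v)).length = ((C.nb v).erase p).length := by
      rw [hperm.length_eq, List.length_map]
    rw [hlen, fl_nat]
    simp only [List.getElem_map, List.getElem_range] at h2
    have h3 : ((C.elimT v p).toNat : ℤ) = C.c v * C.N + ((C.nb v).erase p).length * C.s * C.N -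
        C.s * C.N := Int.toNat_of_nonneg h0
    have h4 : ((stp C.N C.k (C.code p v) j : ℕ) : ℤ) + ((C.elimT v p).toNat : ℤ) ≤
        ((((l.reverse).map (C.code v)).foldl (fun x c => stp C.N C.k c x) j : ℕ) : ℤ) := by
      exact_mod_cast h2
    rw [h3] at h4
    linarith

theorem elim_step {m : ℕ} (C : CertData m) (hN : 0 < C.N) (hnd : ∀ u, (C.nb u).Nodup)
    (g : Fin m → Fin m → HN C.N) (done : List (Fin m)) (S : List (Fin m × Fin m))
    (hst : ElimSt C g done S) (v p : Fin m) (hvp : v ≠ p) (hv : v ∉ done) (hp : p ∉ done)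
    (hpn : p ∈ C.nb v) (h1 : (v, p) ∉ S) (h2 : (p, v) ∉ S)
    (h3 : ∀ w ∈ (C.nb v).erase p, (v, w) ∈ S) (h4 : C.elimOK v p = true) :
    ∃ g' : Fin m → Fin m → HN C.N, ElimSt C g' (v :: done) ((p, v) :: S) := by
  classical
  set os := (C.nb v).erase p with hos
  have hosne : os ≠ [] := by
    rw [CertData.elimOK, Bool.and_eq_true, Bool.and_eq_true, decide_eq_true_eq] at h4
    exact h4.1.1
  set W : List (HN C.N) := os.permutations.map (fun l => (l.map (g v)).prod) with hW
  have hWne : W ≠ [] := by
    rw [hW]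
    intro h0
    rw [List.map_eq_nil_iff] at h0
    have : os ∈ os.permutations := List.mem_permutations.2 (List.Perm.refl _)
    rw [h0] at this
    simp at this
  obtain ⟨G, hG1, hG2⟩ := exists_below hN W hWne (flo C.N C.k C.s (C.code p v))
    (fun i t => fl_add _ _ _ _ _ hN _) (C.c v) (by
      intro w hw i
      rw [hW, List.mem_map] at hw
      obtain ⟨l, hl, rfl⟩ := hw
      rw [List.mem_permutations] at hl
      have hb := elim_bound C hN v p h4 l hl i
      have hgt := prod_gt' (fun w y => flo C.N C.k C.s (C.code v w) y) (g v) l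
        (fun h0 => hosne (by rw [h0] at hl; exact hl.symm.eq_nil))
        (fun d hd => hst.lb (v, d) (h3 d (hl.subset hd))) i i le_rfl
      have hb' : ((flo C.N C.k C.s (C.code p v) i + C.c v * C.N : ℤ) : ℝ) ≤
          ((l.foldr (fun w y => flo C.N C.k C.s (C.code v w) y) i : ℤ) : ℝ) := by exact_mod_cast hb
      exact hb'.trans_lt hgt)
  let g' : Fin m → Fin m → HN C.N := fun a b =>
    if a = p ∧ b = v then G else if a = v ∧ b = p then G⁻¹ else g a b
  have hgpv : g' p v = G := by simp [g']
  have hgvp : g' v p = G⁻¹ := by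
    show (if v = p ∧ p = v then G else if v = v ∧ p = p then G⁻¹ else g v p) = G⁻¹
    rw [if_neg (fun h => hvp h.1), if_pos ⟨rfl, rfl⟩]
  have hgo : ∀ a b, ¬ (a = p ∧ b = v) → ¬ (a = v ∧ b = p) → g' a b = g a b := fun a b ha hb => by
    simp only [g']
    rw [if_neg ha, if_neg hb]
  refine ⟨g', ?_, ?_, ?_⟩
  · intro a b hab
    by_cases ha : a = p ∧ b = v
    · rw [ha.1, ha.2, hgpv, hgvp, inv_inv]
    · by_cases hb : a = v ∧ b = p
      · rw [hb.1, hb.2, hgpv, hgvp]
      · rw [hgo a b ha hb, hgo b a (fun h => hb ⟨h.2, h.1⟩) (fun h => ha ⟨h.2, h.1⟩)]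
        exact hst.inv a b hab
  · intro q hq i x hx
    rcases List.mem_cons.1 hq with rfl | hq
    · show (flo C.N C.k C.s (C.code p v) i : ℝ) < (g' p v).1 x
      rw [hgpv]
      exact hG2 i x hx
    · have e1 : ¬ (q.1 = p ∧ q.2 = v) := fun h => h2 (by
        have : q = (p, v) := Prod.ext h.1 h.2
        rwa [this] at hq)
      have e2 : ¬ (q.1 = v ∧ q.2 = p) := fun h => h1 (by
        have : q = (v, p) := Prod.ext h.1 h.2
        rwa [this] at hq)
      rw [hgo _ _ e1 e2]
      exact hst.lb q hq i x hx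
  · intro u hu l hl
    rcases List.mem_cons.1 hu with rfl | hu
    · have hpl : p ∈ l := hl.symm.subset hpn
      obtain ⟨l1, l2, hl12⟩ := List.append_of_mem hpl
      rw [hl12]
      apply QN_rotate
      have hperm : (l2 ++ l1).Perm os := by
        have e1 : (p :: (l2 ++ l1)).Perm (C.nb u) := by
          refine List.Perm.trans ?_ hl
          rw [hl12, ← List.cons_append]
          exact List.perm_append_comm
        have e2 := e1.erase p
        rwa [List.erase_cons_head] at e2
      have hmap : (l2 ++ l1).map (g' u) = (l2 ++ l1).map (g u) := by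
        refine List.map_congr_left fun w hw => ?_
        have hw2 : w ∈ os := hperm.subset hw
        have hwp : w ≠ p := by
          rintro rfl
          exact List.Nodup.not_mem_erase (hnd u) hw2
        exact hgo _ _ (fun h => hvp h.1) (fun h => hwp h.2)
      intro x
      rw [List.map_append, List.prod_append, hmap, List.map_singleton, List.prod_singleton, hgvp]
      show x + (C.c u : ℝ) * C.N < (((l2 ++ l1).map (g u)).prod).1 (G⁻¹.1 x)
      have h5 := hG1 (((l2 ++ l1).map (g u)).prod) (by
        rw [hW, List.mem_map]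
        exact ⟨l2 ++ l1, List.mem_permutations.2 hperm, rfl⟩) (G⁻¹.1 x)
      have h6 : G.1 (G⁻¹.1 x) = x := G.1.apply_symm_apply x
      rw [h6] at h5
      exact h5
    · have huv : u ≠ v := fun h => hv (h ▸ hu)
      have hup : u ≠ p := fun h => hp (h ▸ hu)
      have hmap : l.map (g' u) = l.map (g u) :=
        List.map_congr_left fun w _ => hgo _ _ (fun h => hup h.1) (fun h => huv h.1)
      rw [hmap]
      exact hst.word u hu l hl

/-- the threshold of a root -/
def CertData.rootT {m : ℕ} (C : CertData m) (u : Fin m) : ℤ :=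
  C.c u * C.N + (C.nb u).length * C.s * C.N

/-- the check at a root -/
def CertData.rootOK {m : ℕ} (C : CertData m) (u : Fin m) : Bool :=
  decide (0 ≤ C.rootT u) &&
    match C.nb u with
    | [] => false
    | v :: vs => dfsT C.N C.k ((List.range C.N).map fun j => j + 1 + (C.rootT u).toNat)
        (vs.length + 1) (vs.map (C.code u)) ((List.range C.N).map (stp C.N C.k (C.code u v)))

theorem root_word {m : ℕ} (C : CertData m) (hN : 0 < C.N)
    (g : Fin m → Fin m → HN C.N) (done : List (Fin m)) (S : List (Fin m × Fin m))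
    (hst : ElimSt C g done S) (u : Fin m) (h3 : ∀ w ∈ C.nb u, (u, w) ∈ S)
    (h4 : C.rootOK u = true) (l : List (Fin m)) (hl : l.Perm (C.nb u)) :
    (l.map (g u)).prod ∈ QN C.N (C.c u) := by
  rw [CertData.rootOK, Bool.and_eq_true, decide_eq_true_eq] at h4
  obtain ⟨h0, h5⟩ := h4
  cases hnb : C.nb u with
  | nil => rw [hnb] at h5; exact absurd h5 (by simp)
  | cons v vs =>
    rw [hnb] at h5
    have h6 : dfsT C.N C.k ((List.range C.N).map fun j => j + 1 + (C.rootT u).toNat)
        (vs.length + 1) (vs.map (C.code u))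
        ((List.range C.N).map (stp C.N C.k (C.code u v))) = true := h5
    have hvl : v ∈ l := hl.symm.subset (by rw [hnb]; exact List.mem_cons_self)
    obtain ⟨l1, l2, hl12⟩ := List.append_of_mem hvl
    rw [hl12]
    apply QN_rotate
    have hperm : (l2 ++ l1).Perm vs := by
      have e1 : (v :: (l2 ++ l1)).Perm (v :: vs) := by
        rw [hnb] at hl
        refine List.Perm.trans ?_ hl
        rw [hl12, ← List.cons_append]
        exact List.perm_append_comm
      exact (List.perm_cons v).1 e1
    have hperm2 : (l2 ++ l1 ++ [v]).Perm (C.nb u) := by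
      rw [hnb]
      exact (List.perm_append_singleton v (l2 ++ l1)).trans (hperm.cons v)
    refine prod_mem' (fun w y => flo C.N C.k C.s (C.code u w) y) (g u) _
      (fun d hd => hst.lb (u, d) (h3 d (hperm2.subset hd))) _ ?_
    intro i
    rw [foldr_codes]
    refine foldl_ge hN _ (fun i => i + 1 + C.c u * C.N) (fun i q => by ring)
      (fun j hj => ?_) i
    have hlist : ((l2 ++ l1 ++ [v]).reverse).map (C.code u) =
        C.code u v :: ((l2 ++ l1).reverse).map (C.code u) := by
      rw [List.reverse_append, List.reverse_singleton, List.singleton_append, List.map_cons]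
    have hperm3 : (((l2 ++ l1).reverse).map (C.code u)).Perm (vs.map (C.code u)) :=
      ((List.reverse_perm _).trans hperm).map _
    have h2 := dfsT_sound _ _ _ _ h6 _ hperm3 j (by simpa using hj) (by simpa using hj)
    simp only [List.getElem_map, List.getElem_range] at h2
    have hlen : (((l2 ++ l1 ++ [v]).reverse).map (C.code u)).length = (C.nb u).length := by
      rw [List.length_map, List.length_reverse, hperm2.length_eq]
    rw [hlen, hlist, List.foldl_cons]
    have h3' : ((C.rootT u).toNat : ℤ) = C.c u * C.N + (C.nb u).length * C.s * C.N :=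
      Int.toNat_of_nonneg h0
    have h4' : ((j : ℕ) : ℤ) + 1 + ((C.rootT u).toNat : ℤ) ≤
        (((((l2 ++ l1).reverse).map (C.code u)).foldl (fun x c => stp C.N C.k c x)
          (stp C.N C.k (C.code u v) j) : ℕ) : ℤ) := by
      exact_mod_cast h2
    rw [h3'] at h4'
    linarith

/-- run the elimination -/
def CertData.run {m : ℕ} (C : CertData m) : List (Fin m × Fin m) → List (Fin m) →
    List (Fin m × Fin m) → Bool
  | [], done, S => (List.finRange m).all fun u => decide (u ∈ done) ||
      (C.rootOK u && (C.nb u).all fun w => decide ((u, w) ∈ S))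
  | (v, p) :: el, done, S => decide (v ≠ p) && decide (v ∉ done) && decide (p ∉ done) &&
      decide (p ∈ C.nb v) && decide ((v, p) ∉ S) && decide ((p, v) ∉ S) &&
      (((C.nb v).erase p).all fun w => decide ((v, w) ∈ S)) && C.elimOK v p &&
      C.run el (v :: done) ((p, v) :: S)

theorem run_sound {m : ℕ} (C : CertData m) (hN : 0 < C.N) (hnd : ∀ u, (C.nb u).Nodup) :
    ∀ (el : List (Fin m × Fin m)) (done : List (Fin m)) (S : List (Fin m × Fin m))
      (g : Fin m → Fin m → HN C.N), ElimSt C g done S → C.run el done S = true →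
      ∃ g' : Fin m → Fin m → HN C.N, (∀ u v, u ≠ v → g' u v = (g' v u)⁻¹) ∧
        ∀ u, ∀ l : List (Fin m), l.Perm (C.nb u) → (l.map (g' u)).prod ∈ QN C.N (C.c u) := by
  intro el
  induction el with
  | nil =>
    intro done S g hst h
    refine ⟨g, hst.inv, fun u l hl => ?_⟩
    rw [CertData.run, List.all_eq_true] at h
    have h1 := h u (List.mem_finRange u)
    rw [Bool.or_eq_true, decide_eq_true_eq, Bool.and_eq_true, List.all_eq_true] at h1
    rcases h1 with h1 | ⟨h1, h2⟩
    · exact hst.word u h1 l hl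
    · exact root_word C hN g done S hst u (fun w hw => of_decide_eq_true (h2 w hw)) h1 l hl
  | cons q el ih =>
    obtain ⟨v, p⟩ := q
    intro done S g hst h
    rw [CertData.run] at h
    simp only [Bool.and_eq_true, decide_eq_true_eq, List.all_eq_true] at h
    obtain ⟨⟨⟨⟨⟨⟨⟨⟨a1, a2⟩, a3⟩, a4⟩, a5⟩, a6⟩, a7⟩, a8⟩, a9⟩ := h
    obtain ⟨g', hg'⟩ := elim_step C hN hnd g done S hst v p a1 a2 a3 a4 a5 a6 a7 a8
    exact ih _ _ g' hg' a9

/-- the whole check: `S` is the list of darts of the edges outside the forest, `el` the list of the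
eliminated vertices with their parents, leaves first -/
def CertData.okE {m : ℕ} (C : CertData m) (K : SimpleGraph (Fin m)) [DecidableRel K.Adj]
    (S el : List (Fin m × Fin m)) : Bool :=
  decide (0 < C.N) &&
    ((List.finRange m).all fun u => decide ((C.nb u).Nodup) &&
      (List.finRange m).all (fun v => decide (v ∈ C.nb u ↔ K.Adj u v))) &&
    (S.all fun q => decide (q.1 ≠ q.2) && decide ((q.2, q.1) ∈ S) &&
      monoOK C.N C.k (C.code q.1 q.2) &&
      invOK C.N C.k C.s (C.code q.1 q.2) (C.code q.2 q.1)) &&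
    C.run el [] S

theorem CertData.soundE {m : ℕ} (C : CertData m) (K : SimpleGraph (Fin m)) [DecidableRel K.Adj]
    (S el : List (Fin m × Fin m)) (h : C.okE K S el = true) :
    ∃ g : K.Dart → HN C.N, (∀ d, g d.symm = (g d)⁻¹) ∧
      ∀ u, ∀ l : List K.Dart, l.Nodup → (∀ d, d ∈ l ↔ d.fst = u) →
        (l.map g).prod ∈ QN C.N (C.c u) := by
  classical
  rw [CertData.okE, Bool.and_eq_true, Bool.and_eq_true, Bool.and_eq_true, decide_eq_true_eq,
    List.all_eq_true, List.all_eq_true] at h
  obtain ⟨⟨⟨hN, h1⟩, h2⟩, h3⟩ := h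
  have hnd : ∀ u, (C.nb u).Nodup := fun u => by
    have := h1 u (List.mem_finRange u)
    rw [Bool.and_eq_true] at this
    exact of_decide_eq_true this.1
  have hnb : ∀ u v, v ∈ C.nb u ↔ K.Adj u v := fun u v => by
    have := h1 u (List.mem_finRange u)
    rw [Bool.and_eq_true, List.all_eq_true] at this
    exact of_decide_eq_true (this.2 v (List.mem_finRange v))
  have hS : ∀ q ∈ S, q.1 ≠ q.2 ∧ (q.2, q.1) ∈ S ∧ monoOK C.N C.k (C.code q.1 q.2) = true ∧
      invOK C.N C.k C.s (C.code q.1 q.2) (C.code q.2 q.1) = true := fun q hq => by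
    have := h2 q hq
    simp only [Bool.and_eq_true, decide_eq_true_eq] at this
    exact ⟨this.1.1.1, this.1.1.2, this.1.2, this.2⟩
  let K0 : SimpleGraph (Fin m) :=
    { Adj := fun u v => (u, v) ∈ S ∧ (v, u) ∈ S ∧ u ≠ v
      symm := ⟨fun a b h => ⟨h.2.1, h.1, h.2.2.symm⟩⟩
      loopless := ⟨fun a h => h.2.2 rfl⟩ }
  let F : K0.Dart → ℤ → ℤ := fun d => flo C.N C.k C.s (C.code d.fst d.snd)
  obtain ⟨g0, hg1, hg2⟩ := exists_hom K0 C.N hN F
    (fun d => monoOK_fl hN (hS (d.fst, d.snd) d.adj.1).2.2.1)
    (fun d i => by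
      have := fl_add C.N C.k C.s (C.code d.fst d.snd) i hN 1
      rw [one_mul] at this
      exact this)
    (fun d j => invOK_fl hN (hS (d.fst, d.snd) d.adj.1).2.2.2 j)
  let g : Fin m → Fin m → HN C.N := fun u v => if h : K0.Adj u v then g0 ⟨(u, v), h⟩ else 1
  have hst : ElimSt C g [] S := by
    refine ⟨fun u v _ => ?_, fun p hp i x hx => ?_, fun u hu => absurd hu (by simp)⟩
    · by_cases h : K0.Adj u v
      · simp only [g]
        rw [dif_pos h, dif_pos h.symm]
        have := hg1 ⟨(v, u), h.symm⟩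
        exact this
      · have h' : ¬ K0.Adj v u := fun h' => h h'.symm
        simp only [g]
        rw [dif_neg h, dif_neg h', inv_one]
    · obtain ⟨a1, a2, -, -⟩ := hS p hp
      have h : K0.Adj p.1 p.2 := ⟨hp, a2, a1⟩
      simp only [g]
      rw [dif_pos h]
      exact hg2 ⟨(p.1, p.2), h⟩ i x hx
  obtain ⟨g', b1, b2⟩ := run_sound C hN hnd el [] S g hst h3
  refine ⟨fun d => g' d.fst d.snd, fun d => ?_, fun u l hl hl2 => ?_⟩
  · exact b1 d.snd d.fst d.adj.ne.symm
  · have hmap : l.map (fun d : K.Dart => g' d.fst d.snd) = (l.map fun d => d.snd).map (g' u) := by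
      rw [List.map_map]
      refine List.map_congr_left fun d hd => ?_
      rw [Function.comp_apply, (hl2 d).1 hd]
    rw [hmap]
    refine b2 u _ ?_
    rw [List.perm_ext_iff_of_nodup _ (hnd u)]
    · intro v
      rw [hnb u v, List.mem_map]
      constructor
      · rintro ⟨d, hd, rfl⟩
        have := (hl2 d).1 hd
        rw [← this]
        exact d.adj
      · intro hadj
        exact ⟨⟨(u, v), hadj⟩, (hl2 _).2 rfl, rfl⟩
    · refine (List.nodup_map_iff_inj_on hl).2 ?_
      intro d hd d' hd' hdd
      have e1 := (hl2 d).1 hd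
      have e2 := (hl2 d').1 hd'
      exact SimpleGraph.Dart.ext _ _ (Prod.ext (e1.trans e2.symm) hdd)

end Pool.Agent.Lib.MP_5854e1_co
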