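import Pool.Agent.Lib.MP_5854e1_co.MinGraphs

/-!
The positivity certificate `MG0_cert` of the graph `MG0`.
-/

set_option autoImplicit false

namespace Pool.Agent.Lib.MP_5854e1_co

def MG0_cert_tab : List (List ℕ) := [[0, 33954926791827573254357066764, 0, 49046005365860781366016046551, 0, 0, 0, 0, 0, 0], 
  [40242875370838945060914795601, 0, 0, 0, 0, 0, 44015645841257965329746572499, 0, 45273235722436764339167905044, 0], 
  [49046005365843629263862724055, 0, 0, 0, 0, 37727696210434474826412909454, 0, 47788415484702859883382924694, 0, 0], 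
  [30182157148291113606306894408, 0, 0, 0, 0, 0, 41500466078898611373381850193, 30182157148291104740403610120, 36469492346709319220320326477, 0], 
  [0, 0, 54076364890596854930489587419, 30182157148291104740403610120, 0, 0, 0, 0, 0, 0], 
  [0, 64137083940118749480487893219, 46353669921664927787067462997, 0, 0, 0, 0, 0, 0, 0], 
  [0, 22636617861218382169579987074, 0, 30182157147119954380162167368, 0, 0, 0, 0, 0, 0], 
  [0, 0, 27666977385933577368455385542, 49046005365968867757072938455, 0, 0, 0, 0, 0, 0], 
  [0, 22636617861218382169328066690, 0, 46528671528667192641120200085, 0, 0, 0, 0, 0, 0], 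
  [0, 0, 0, 0, 47788415484538148643495568790, 66612964018689510030286149989, 22636617861218382169581056130, 28924567267112091273857163719, 27665749270815239536157155718, 0]]

def MG0_cert_nb : List (List (Fin 10)) := [[1, 2, 3], [0, 5, 6, 8], [0, 4, 5, 7], [0, 4, 6, 7, 8], [2, 3, 9], [1, 2, 9], [1, 3, 9], [2, 3, 9], [1, 3, 9], [4, 5, 6, 7, 8]]

def MG0_cert : CertData 10 where
  N := 16
  k := 6
  s := 1
  code := fun u v => (MG0_cert_tab.getD u.1 []).getD v.1 0
  nb := fun u => MG0_cert_nb.getD u.1 []
  c := fun _ => 0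

theorem MG0_cert_ok : MG0_cert.okW MG0
    [(1, 0), (0, 1), (1, 6), (6, 1), (1, 8), (8, 1), (2, 5), (5, 2), (2, 7), (7, 2), (3, 0), (0, 3), (3, 6), (6, 3), (3, 7), (7, 3), (3, 8), (8, 3)]
    [(0, 2), (1, 5), (2, 4), (3, 4), (4, 9), (5, 9), (6, 9), (7, 9), (8, 9)] = true := by
  decide +kernel

end Pool.Agent.Lib.MP_5854e1_co
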