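import Pool.Agent.Lib.MP_5854e1_co.MinGraphs

/-!
The positivity certificate `MG1_cert` of the graph `MG1`.
-/

set_option autoImplicit false

namespace Pool.Agent.Lib.MP_5854e1_co

def MG1_cert_tab : List (List ℕ) := [[0, 0, 0, 0, 0, 42718756272742062560935257754, 42757748931208079945883567770, 0, 0, 0], 
  [0, 0, 59086460500725081375479035871, 57845450188869452477824100254, 0, 77970548195486535874416143278, 57844222073751399749750744990, 0, 0, 0], 
  [0, 59086757875122989878899026602, 0, 0, 0, 0, 0, 0, 67909234728771291203046631846, 0], 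
  [0, 64038527701872071140149991715, 0, 0, 0, 0, 0, 0, 65375023979363811815865862436, 0], 
  [32697336900089477290063364941, 77965660172612183900492065710, 0, 0, 0, 0, 0, 0, 0, 0], 
  [72940208152912411991436360619, 51325079996829863961447732825, 0, 0, 0, 0, 0, 0, 0, 0], 
  [71682589569771056135902522025, 76417928094725873889141250925, 0, 0, 0, 0, 0, 0, 0, 0], 
  [0, 0, 67909234728771295534572546730, 65375023979402414098386180388, 0, 0, 0, 0, 0, 0], 
  [0, 0, 47788415483623135624250357142, 50303595247151960376698574424, 0, 0, 0, 0, 0, 0], 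
  [0, 0, 0, 0, 37726468320245631611732337550, 55294348059300162392100304732, 76634383384333064636612406125, 72940213108368626819626121898, 46530825603615536052742477141, 0]]

def MG1_cert_nb : List (List (Fin 10)) := [[4, 5, 6], [2, 3, 4, 5, 6], [1, 7, 8], [1, 7, 8], [0, 1, 9], [0, 1, 9], [0, 1, 9], [2, 3, 9], [2, 3, 9], [4, 5, 6, 7, 8]]

def MG1_cert : CertData 10 where
  N := 16
  k := 6
  s := 2
  code := fun u v => (MG1_cert_tab.getD u.1 []).getD v.1 0
  nb := fun u => MG1_cert_nb.getD u.1 []
  c := fun _ => 0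

theorem MG1_cert_ok : MG1_cert.okW MG1
    [(0, 5), (5, 0), (0, 6), (6, 0), (5, 1), (1, 5), (1, 6), (6, 1), (1, 2), (2, 1), (1, 3), (3, 1), (2, 8), (8, 2), (3, 8), (8, 3)]
    [(0, 4), (1, 4), (2, 7), (3, 7), (4, 9), (5, 9), (6, 9), (7, 9), (8, 9)] = true := by
  decide +kernel

end Pool.Agent.Lib.MP_5854e1_co
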