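import Pool.Agent.Lib.MP_5854e1_co.MinGraphs

/-!
The positivity certificate `MG11_cert` of the graph `MG11`.
-/

set_option autoImplicit false

namespace Pool.Agent.Lib.MP_5854e1_co

def MG11_cert_tab : List (List ℕ) := [[0, 0, 0, 0, 0, 20121438098860784150737321984, 47493360827613496672450602390, 0, 0, 0, 0], 
  [0, 0, 0, 0, 0, 0, 0, 33954926791788676023497831115, 51561185122327671072258102873, 0, 0], 
  [0, 0, 0, 0, 0, 0, 0, 23874557900503762444483109123, 0, 22636617861218382169583984834, 0], 
  [0, 0, 0, 0, 0, 0, 0, 0, 49045942924604587903719142871, 38985286316542769290966791119, 0], 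
  [27549078334573065800133403014, 0, 0, 49045966987375713283963975127, 0, 0, 0, 0, 0, 0, 0], 
  [44015645841257965329746639059, 0, 22636617861218382169583984770, 0, 0, 0, 0, 0, 0, 0, 0], 
  [37727696435363969165675783054, 51561185115391846171130828377, 0, 0, 0, 0, 0, 0, 0, 0, 0], 
  [0, 48967405248817219078629459479, 41500466078900367310903383121, 0, 0, 0, 0, 0, 0, 0, 0], 
  [0, 31439746954255572315943506505, 0, 35212516672969709031116555020, 0, 0, 0, 0, 0, 0, 0], 
  [0, 0, 41500466078900367310903907409, 27627370673367156070497989843, 0, 0, 0, 0, 0, 0, 0], 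
  [0, 0, 0, 0, 38828082784070738405448545231, 42758055960079166320325305554, 51561185115447318731775383129, 50303594722444573391337129496, 31439747029232057394504438345, 41500466078900367310903915731, 0]]

def MG11_cert_nb : List (List (Fin 11)) := [[4, 5, 6], [6, 7, 8], [5, 7, 9], [4, 8, 9], [0, 3, 10], [0, 2, 10], [0, 1, 10], [1, 2, 10], [1, 3, 10], [2, 3, 10], [4, 5, 6, 7, 8, 9]]

def MG11_cert : CertData 11 where
  N := 16
  k := 6
  s := 1
  code := fun u v => (MG11_cert_tab.getD u.1 []).getD v.1 0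
  nb := fun u => MG11_cert_nb.getD u.1 []
  c := fun _ => 0

theorem MG11_cert_ok : MG11_cert.okW MG11
    [(5, 0), (0, 5), (6, 0), (0, 6), (7, 1), (1, 7), (8, 1), (1, 8), (7, 2), (2, 7), (9, 2), (2, 9), (8, 3), (3, 8), (9, 3), (3, 9)]
    [(0, 4), (1, 6), (2, 5), (3, 4), (4, 10), (5, 10), (6, 10), (7, 10), (8, 10), (9, 10)] = true := by
  decide +kernel

end Pool.Agent.Lib.MP_5854e1_co
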