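import Pool.Agent.Lib.MP_5854e1_co.MinGraphs

/-!
The positivity certificate `MG12_cert` of the graph `MG12`.
-/

set_option autoImplicit false

namespace Pool.Agent.Lib.MP_5854e1_co

def MG12_cert_tab : List (List ℕ) := [[0, 0, 0, 1962442907162769497397352943308832, 0, 0, 0, 0, 0, 2161753514921488274476771601633957, 0], 
  [0, 0, 0, 0, 2248632497775195474214591947985831, 0, 0, 0, 0, 1839790225312790788119849419099805, 0], 
  [0, 2248632497777584618054313300317095, 0, 0, 0, 0, 0, 0, 0, 0, 2289516725023119455698872840098856], 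
  [1389744317881707370308574651109523, 0, 0, 0, 0, 0, 1430628525619146339267393127731360, 0, 0, 0, 0], 
  [0, 1717137543767413933657336811261210, 0, 0, 0, 0, 0, 0, 0, 0, 2289516725023137756634510567019560], 
  [2165267003199286201636825456186021, 0, 0, 0, 0, 0, 0, 2165583896354224530083573236585125, 0, 0, 0], 
  [0, 0, 0, 1921558679930211799534908090306592, 0, 2572512235398591395188522223409071, 0, 0, 0, 0, 0], 
  [0, 0, 0, 1349179498674404029460680148537489, 0, 1430947953139519425185396703072029, 0, 0, 0, 0, 0], 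
  [0, 0, 2412169406717325214980847878985131, 0, 2289516725023100863146363147916328, 0, 0, 0, 0, 0, 0], 
  [1880674452697654101671943512493854, 2207089413220942427475887295927078, 0, 0, 0, 0, 2575706315651134965334025706411951, 1226526816976730935872895395842190, 2902780133494928752963361291754423, 0, 0], 
  [0, 0, 1676253316077947823026863543307417, 0, 1676250821159667295379006813523097, 0, 0, 0, 0, 2861895750318089019141851655805750, 0]]

def MG12_cert_nb : List (List (Fin 11)) := [[3, 5, 9], [2, 4, 9], [1, 8, 10], [0, 6, 7], [1, 8, 10], [0, 6, 7], [3, 5, 9], [3, 5, 9], [2, 4, 9], [0, 1, 6, 7, 8, 10], [2, 4, 9]]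

def MG12_cert : CertData 11 where
  N := 16
  k := 7
  s := 2
  code := fun u v => (MG12_cert_tab.getD u.1 []).getD v.1 0
  nb := fun u => MG12_cert_nb.getD u.1 []
  c := fun _ => 0

theorem MG12_cert_ok : MG12_cert.okW MG12
    [(10, 2), (2, 10), (10, 4), (4, 10), (6, 3), (3, 6), (0, 9), (9, 0), (0, 3), (3, 0), (7, 5), (5, 7), (9, 1), (1, 9), (4, 1), (1, 4)]
    [(0, 5), (1, 2), (2, 8), (3, 7), (4, 8), (5, 6), (6, 9), (7, 9), (8, 9), (9, 10)] = true := by
  decide +kernel

end Pool.Agent.Lib.MP_5854e1_co
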