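import Pool.Agent.Lib.MP_5854e1_co.MinGraphs

/-!
The positivity certificate `MG17_cert` of the graph `MG17`.
-/

set_option autoImplicit false

namespace Pool.Agent.Lib.MP_5854e1_co

def MG17_cert_tab : List (List ℕ) := [[0, 0, 0, 32697336910648774241679094410, 47788108456014777680432571798, 35212507003398812101921260300, 33954926791827573044723626699, 0], 
  [0, 0, 0, 39987121224327535617110250577, 38729838371928325743272596431, 39928478727426868549127308304, 38749483341538865326573556687, 0], 
  [46530825603615563335431705941, 38670888846248069539705975759, 0, 0, 0, 0, 0, 0], 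
  [44015645752226800158550865107, 37727696435363970282639950863, 0, 0, 0, 0, 0, 0], 
  [26409387427435836805643260229, 38965636474649350557539054737, 0, 0, 0, 0, 0, 0], 
  [45273202066077410793113077012, 37727696435363970282639976335, 0, 0, 0, 0, 0, 0], 
  [45273234746808676252283651348, 38965636474649350557538829457, 0, 0, 0, 0, 0, 0], 
  [0, 0, 38788787897608581940294513615, 44015645835401856099997537491, 26409387502394034885364306245, 45273206938488678276568573844, 45273235272687575494439855380, 0]]

def MG17_cert_nb : List (List (Fin 8)) := [[2, 3, 4, 5, 6], [2, 3, 4, 5, 6], [0, 1, 7], [0, 1, 7], [0, 1, 7], [0, 1, 7], [0, 1, 7], [2, 3, 4, 5, 6]]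

def MG17_cert : CertData 8 where
  N := 16
  k := 6
  s := 1
  code := fun u v => (MG17_cert_tab.getD u.1 []).getD v.1 0
  nb := fun u => MG17_cert_nb.getD u.1 []
  c := fun _ => 0

theorem MG17_cert_ok : MG17_cert.okW MG17
    [(0, 3), (3, 0), (0, 4), (4, 0), (0, 5), (5, 0), (0, 6), (6, 0), (1, 3), (3, 1), (1, 4), (4, 1), (1, 5), (5, 1), (1, 6), (6, 1)]
    [(0, 2), (1, 2), (2, 7), (3, 7), (4, 7), (5, 7), (6, 7)] = true := by
  decide +kernel

end Pool.Agent.Lib.MP_5854e1_co
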