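import Pool.Agent.Lib.MP_5854e1_co.MinGraphs

/-!
The positivity certificate `MG18_cert` of the graph `MG18`.
-/

set_option autoImplicit false

namespace Pool.Agent.Lib.MP_5854e1_co

def MG18_cert_tab : List (List ℕ) := [[0, 0, 0, 0, 46530792022342796275556672853, 47788377106196914274408424854, 0, 0], 
  [0, 0, 0, 0, 25151476202822352489400042512, 25151490369921801098335683600, 27608013468279278972402992144, 0], 
  [0, 0, 0, 0, 33954619763047921568797471435, 31439742232145240610801492618, 31439747029451625747697668681, 0], 
  [57849091358302625339362895774, 20121438098860784150741320720, 30182157148291104740403610120, 0, 0, 0, 0, 0], 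
  [35015711225292600246468133644, 38985286316542769292043994896, 49046004684303746683297953239, 0, 0, 0, 0, 0], 
  [35074660750972855964652323596, 38985286316542769292043728592, 49045995691624378615925142999, 0, 0, 0, 0, 0], 
  [0, 38985286316542769290970253072, 49045386510905731254591518167, 0, 0, 0, 0, 0], 
  [0, 0, 0, 26409363518131365209866011144, 41461166170238935414041572817, 45174986509456004779656181204, 49046005365826758636688242647, 0]]

def MG18_cert_nb : List (List (Fin 8)) := [[3, 4, 5], [3, 4, 5, 6], [3, 4, 5, 6], [0, 1, 2, 7], [0, 1, 2, 7], [0, 1, 2, 7], [1, 2, 7], [3, 4, 5, 6]]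

def MG18_cert : CertData 8 where
  N := 16
  k := 6
  s := 1
  code := fun u v => (MG18_cert_tab.getD u.1 []).getD v.1 0
  nb := fun u => MG18_cert_nb.getD u.1 []
  c := fun _ => 0

theorem MG18_cert_ok : MG18_cert.okW MG18
    [(0, 4), (4, 0), (0, 5), (5, 0), (1, 4), (4, 1), (1, 5), (5, 1), (1, 6), (6, 1), (2, 4), (4, 2), (2, 5), (5, 2), (2, 6), (6, 2)]
    [(0, 3), (1, 3), (2, 3), (3, 7), (4, 7), (5, 7), (6, 7)] = true := by
  decide +kernel

end Pool.Agent.Lib.MP_5854e1_co
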