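import Pool.Agent.Lib.MP_5854e1_co.MinGraphs

/-!
The positivity certificate `MG20_cert` of the graph `MG20`.
-/

set_option autoImplicit false

namespace Pool.Agent.Lib.MP_5854e1_co

def MG20_cert_tab : List (List ℕ) := [[0, 0, 32697336909473263256502575754, 32697336835635339990879740554, 0, 35212516672969767102346740492, 0, 0], 
  [31439747029231498911317004873, 0, 47788414585294840897220470166, 0, 35212516673006372249582748428, 0, 35212516671834288042919641868, 35212516671835150336021287692], 
  [50303595231889189753986319896, 33954926789466828382319456971, 0, 0, 0, 35212516672988071921158771532, 0, 0], 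
  [49046005353052834435356784087, 32697336835632815649621320330, 50303595231926076170074949144, 0, 0, 0, 0, 0], 
  [0, 46511103801851929457568601429, 0, 0, 0, 21378720951259998492434944845, 0, 23854908057439121864010289997], 
  [43995957544600791899501319509, 0, 45272280753802928512509756692, 47788414659064374539595638166, 44014719957594530316132677524, 0, 0, 36253958293357560725617300301], 
  [0, 46530475247826226920679626069, 0, 0, 20121423706886741119439491397, 41461156800464167820990694673, 0, 0], 
  [0, 46510527821867893455135790421, 0, 0, 44014719957594530316132673236, 42757130076415731306711319827, 26409358720806693135248053061, 0]]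

def MG20_cert_nb : List (List (Fin 8)) := [[1, 2, 3, 5], [0, 2, 3, 4, 6, 7], [0, 1, 3, 5], [0, 1, 2, 5], [1, 5, 6, 7], [0, 2, 3, 4, 6, 7], [1, 4, 5, 7], [1, 4, 5, 6]]

def MG20_cert : CertData 8 where
  N := 16
  k := 6
  s := 1
  code := fun u v => (MG20_cert_tab.getD u.1 []).getD v.1 0
  nb := fun u => MG20_cert_nb.getD u.1 []
  c := fun _ => 0

theorem MG20_cert_ok : MG20_cert.okW MG20
    [(4, 1), (1, 4), (4, 5), (5, 4), (4, 7), (7, 4), (0, 2), (2, 0), (0, 5), (5, 0), (0, 3), (3, 0), (1, 2), (2, 1), (1, 7), (7, 1), (1, 6), (6, 1), (2, 5), (5, 2), (5, 7), (7, 5)]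
    [(0, 1), (1, 3), (2, 3), (3, 5), (4, 6), (5, 6), (6, 7)] = true := by
  decide +kernel

end Pool.Agent.Lib.MP_5854e1_co
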