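import Pool.Agent.Lib.MP_5854e1_co.MinGraphs

/-!
The positivity certificate `MG22_cert` of the graph `MG22`.
-/

set_option autoImplicit false

namespace Pool.Agent.Lib.MP_5854e1_co

def MG22_cert_tab : List (List ℕ) := [[0, 2166864043325557768834646907900581, 2166864043325557986705140743754405, 0, 1716818135742168953208133474997020, 0, 1717137543767414014225635131035804, 0], 
  [1430947953139519425185223281035795, 0, 2085095588860442512685884527661475, 0, 0, 1716818135742168953208098842578971, 0, 0], 
  [1471832180372077123043165924035092, 1594484862069749998193001982462871, 0, 0, 0, 1880352529649778101020550754899231, 0, 0], 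
  [2698358997348807405296569201547954, 1553600634837192517070756522642198, 1390063725906961146323207759137298, 0, 0, 0, 0, 0], 
  [1962442907010333738369569411043360, 0, 0, 0, 0, 1794753674104502105715673437507100, 1794753674104502105715673437507100, 0], 
  [0, 1962442907161495727922704944746657, 1961804052107744674148228279046176, 0, 2493615723691837551017333409683246, 0, 1798871062827470895579547505741469, 0], 
  [1962442907004477187054257993978016, 0, 0, 0, 2493615723691837551017333409683246, 2493588469515854543747659252586157, 0, 0], 
  [0, 0, 0, 2044211361627884237227921573990690, 1225887766984778883006701326534414, 1962437896914876393929912349283755, 2616585532635799559729029997059515, 0]]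

def MG22_cert_nb : List (List (Fin 8)) := [[1, 2, 3, 4, 6], [0, 2, 3, 5], [0, 1, 3, 5], [0, 1, 2, 7], [0, 5, 6, 7], [1, 2, 4, 6, 7], [0, 4, 5, 7], [3, 4, 5, 6]]

def MG22_cert : CertData 8 where
  N := 16
  k := 7
  s := 2
  code := fun u v => (MG22_cert_tab.getD u.1 []).getD v.1 0
  nb := fun u => MG22_cert_nb.getD u.1 []
  c := fun _ => 0

theorem MG22_cert_ok : MG22_cert.okW MG22
    [(4, 5), (5, 4), (4, 0), (0, 4), (4, 6), (6, 4), (5, 1), (1, 5), (5, 2), (2, 5), (5, 6), (6, 5), (0, 1), (1, 0), (0, 2), (2, 0), (0, 6), (6, 0), (1, 2), (2, 1)]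
    [(0, 3), (1, 3), (2, 3), (3, 7), (4, 7), (5, 7), (6, 7)] = true := by
  decide +kernel

end Pool.Agent.Lib.MP_5854e1_co
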