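import Pool.Agent.Lib.MP_5854e1_co.MinGraphs

/-!
The positivity certificate `MG23_cert` of the graph `MG23`.
-/

set_option autoImplicit false

namespace Pool.Agent.Lib.MP_5854e1_co

def MG23_cert_tab : List (List ℕ) := [[0, 36175358925783890255385252685, 0, 0, 0, 33954883391030849738112824268, 42758055799548572059829089491, 0], 
  [57651096174067962739091433374, 0, 0, 41500465994462306411626173521, 0, 54074819851137057636514396124, 0, 0], 
  [0, 0, 0, 30182157148254288693059158536, 32697336910648774244954645260, 0, 0, 49046005365973089881723598295], 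
  [0, 32697336910648769777097872075, 47788415484790926573953443222, 0, 0, 0, 0, 47788415484790645029183514006], 
  [22577658738546320253251269314, 61582297461681063787024530145, 41500461191373303820992189521, 0, 0, 0, 0, 0], 
  [41480816010961132308067895003, 20121437873986189727286211275, 0, 0, 53879866467069282676095965019, 0, 0, 0], 
  [32697336910648774175141970635, 0, 46530825603414250588292871509, 50303595247151387653463189016, 0, 0, 0, 0], 
  [0, 0, 28924567267112310129028788679, 30182157148272584635264827912, 0, 36470106404268774991639942224, 52818775009472957503576319642, 0]]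

def MG23_cert_nb : List (List (Fin 8)) := [[1, 4, 5, 6], [0, 3, 4, 5], [3, 4, 6, 7], [1, 2, 6, 7], [0, 1, 2, 5], [0, 1, 4, 7], [0, 2, 3, 7], [2, 3, 5, 6]]

def MG23_cert : CertData 8 where
  N := 16
  k := 6
  s := 1
  code := fun u v => (MG23_cert_tab.getD u.1 []).getD v.1 0
  nb := fun u => MG23_cert_nb.getD u.1 []
  c := fun _ => 0

theorem MG23_cert_ok : MG23_cert.okW MG23
    [(0, 5), (5, 0), (0, 1), (1, 0), (0, 6), (6, 0), (5, 1), (1, 5), (2, 3), (3, 2), (2, 4), (4, 2), (2, 7), (7, 2), (3, 1), (1, 3), (3, 7), (7, 3)]
    [(0, 4), (1, 4), (2, 6), (3, 6), (4, 5), (5, 7), (6, 7)] = true := by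
  decide +kernel

end Pool.Agent.Lib.MP_5854e1_co
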