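import Pool.Agent.Lib.MP_5854e1_co.MinGraphs

/-!
The positivity certificate `MG25_cert` of the graph `MG25`.
-/

set_option autoImplicit false

namespace Pool.Agent.Lib.MP_5854e1_co

def MG25_cert_tab : List (List ℕ) := [[0, 0, 47788415484776062001396676054, 0, 0, 32657730198082352038185579211, 0, 49046000568648480355754558999, 0], 
  [0, 0, 37724626147476621898655785870, 0, 0, 0, 37723700261562244899857294222, 37724011865134359847553000334, 0], 
  [26409387504754760833368871237, 45155029642296667264256415321, 0, 0, 0, 0, 0, 0, 0], 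
  [0, 0, 26409387504754778639365886797, 0, 42758055949538169706775393490, 0, 40242852211098163249316475920, 0, 0], 
  [66652263702476347482951801189, 0, 0, 32697336910538686254062809738, 0, 0, 32697336910648774244954583690, 0, 0], 
  [45273235421414418173014394132, 37722783974890615599009424270, 0, 0, 0, 0, 0, 0, 0], 
  [0, 52582669878008948913702557531, 0, 35212515922253169009967305805, 42758055942492538289735148690, 0, 0, 0, 0], 
  [25151787953968401665565409540, 43917089603011286989408683739, 0, 0, 0, 0, 0, 0, 0], 
  [0, 0, 0, 33954917192493323640278942541, 64137083939954046408399927523, 37724626147568096798230242190, 41500465777896352901802084114, 25151797623575948913429238605, 0]]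

def MG25_cert_nb : List (List (Fin 9)) := [[2, 4, 5, 7], [2, 5, 6, 7], [0, 1, 3], [2, 4, 6, 8], [0, 3, 6, 8], [0, 1, 8], [1, 3, 4, 8], [0, 1, 8], [3, 4, 5, 6, 7]]

def MG25_cert : CertData 9 where
  N := 16
  k := 6
  s := 1
  code := fun u v => (MG25_cert_tab.getD u.1 []).getD v.1 0
  nb := fun u => MG25_cert_nb.getD u.1 []
  c := fun _ => 0

theorem MG25_cert_ok : MG25_cert.okW MG25
    [(0, 2), (2, 0), (0, 5), (5, 0), (0, 7), (7, 0), (3, 4), (4, 3), (3, 6), (6, 3), (1, 2), (2, 1), (1, 6), (6, 1), (1, 7), (7, 1), (4, 6), (6, 4)]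
    [(0, 4), (1, 5), (2, 3), (3, 8), (4, 8), (5, 8), (6, 8), (7, 8)] = true := by
  decide +kernel

end Pool.Agent.Lib.MP_5854e1_co
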