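import Pool.Agent.Lib.MP_5854e1_co.MinGraphs

/-!
The positivity certificate `MG27_cert` of the graph `MG27`.
-/

set_option autoImplicit false

namespace Pool.Agent.Lib.MP_5854e1_co

def MG27_cert_tab : List (List ℕ) := [[0, 0, 0, 0, 38985228748609996484159538191, 37722783974890615599009424270, 38985271474799807360523109327, 37723705061229365134333113294, 0], 
  [0, 0, 0, 0, 0, 47788415484794313211586131479, 0, 47788415480089454504738121110, 0], 
  [0, 0, 0, 0, 47788415484701140525330032022, 0, 47788415484791212518968227286, 0, 0], 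
  [37722783974890615599009424270, 52818775009472385815344428762, 52818775009454371428645840538, 0, 0, 0, 0, 0, 0], 
  [36450456712291752538695898449, 0, 30182157144776938104492954184, 0, 0, 0, 0, 0, 0], 
  [56296489995865089738399930205, 28924566891150159639371084231, 0, 0, 0, 0, 0, 0, 0], 
  [36450456637333554326990325266, 0, 30182157143605993335473340936, 0, 0, 0, 0, 0, 0], 
  [41441209524440526439610439188, 30182157145930427095629472328, 0, 0, 0, 0, 0, 0, 0], 
  [0, 0, 0, 52818775009509558378243401370, 30182157148291175388388835913, 36352207502824658167982773069, 30182157148291175318578574024, 31420097187576555733098222410, 0]]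

def MG27_cert_nb : List (List (Fin 9)) := [[3, 4, 5, 6, 7], [3, 5, 7], [3, 4, 6], [0, 1, 2, 8], [0, 2, 8], [0, 1, 8], [0, 2, 8], [0, 1, 8], [3, 4, 5, 6, 7]]

def MG27_cert : CertData 9 where
  N := 16
  k := 6
  s := 1
  code := fun u v => (MG27_cert_tab.getD u.1 []).getD v.1 0
  nb := fun u => MG27_cert_nb.getD u.1 []
  c := fun _ => 0

theorem MG27_cert_ok : MG27_cert.okW MG27
    [(0, 4), (4, 0), (0, 5), (5, 0), (0, 6), (6, 0), (0, 7), (7, 0), (1, 5), (5, 1), (1, 7), (7, 1), (4, 2), (2, 4), (6, 2), (2, 6)]
    [(0, 3), (1, 3), (2, 3), (3, 8), (4, 8), (5, 8), (6, 8), (7, 8)] = true := by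
  decide +kernel

end Pool.Agent.Lib.MP_5854e1_co
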