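import Pool.Agent.Lib.MP_5854e1_co.MinGraphs

/-!
The positivity certificate `MG29_cert` of the graph `MG29`.
-/

set_option autoImplicit false

namespace Pool.Agent.Lib.MP_5854e1_co

def MG29_cert_tab : List (List ℕ) := [[0, 0, 40242876197721568301482640465, 32540138175501424368691753675, 0, 0, 0, 0, 0], 
  [0, 0, 38985286315371547446111495183, 35209748616665429243820561228, 0, 0, 0, 0, 0], 
  [21379027980039583160162653186, 33777771186007219975949194321, 0, 0, 0, 0, 0, 0, 0], 
  [45272923745226580192138974484, 44015017316766554822205064403, 0, 0, 0, 0, 0, 0, 0], 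
  [0, 35212516673006372263793849100, 0, 0, 0, 0, 30182157148272874976144818696, 30182157073332963844030497288, 0], 
  [0, 0, 21378720951259998492435743745, 56588781319071495273629734749, 0, 0, 0, 38984931314498074178659103888, 0], 
  [33954926791827573254188499659, 0, 0, 0, 47788415484736874375099803030, 0, 0, 32697336910593864273213563530, 0], 
  [0, 0, 0, 0, 47788415484791484988438177174, 37707739564690966880354636816, 46530825590713818163023533397, 0, 0], 
  [0, 0, 0, 0, 28924567267112327791024828871, 36470106554185171273218589709, 46530825603414259589436495189, 49046005364801613367936382423, 0]]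

def MG29_cert_nb : List (List (Fin 9)) := [[2, 3, 6], [2, 3, 4], [0, 1, 5], [0, 1, 5], [1, 6, 7, 8], [2, 3, 7, 8], [0, 4, 7, 8], [4, 5, 6, 8], [4, 5, 6, 7]]

def MG29_cert : CertData 9 where
  N := 16
  k := 6
  s := 1
  code := fun u v => (MG29_cert_tab.getD u.1 []).getD v.1 0
  nb := fun u => MG29_cert_nb.getD u.1 []
  c := fun _ => 0

theorem MG29_cert_ok : MG29_cert.okW MG29
    [(0, 2), (2, 0), (4, 6), (6, 4), (4, 7), (7, 4), (5, 7), (7, 5), (1, 2), (2, 1), (6, 7), (7, 6), (0, 3), (3, 0), (1, 3), (3, 1)]
    [(0, 6), (1, 4), (2, 5), (3, 5), (4, 8), (5, 8), (6, 8), (7, 8)] = true := by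
  decide +kernel

end Pool.Agent.Lib.MP_5854e1_co
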