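import Pool.Agent.Lib.MP_5854e1_co.MinGraphs

/-!
The positivity certificate `MG3_cert` of the graph `MG3`.
-/

set_option autoImplicit false

namespace Pool.Agent.Lib.MP_5854e1_co

def MG3_cert_tab : List (List ℕ) := [[0, 41500466078900076895850575570, 42758055958905370988874139026, 0, 0, 0, 0, 0, 0, 0], 
  [27647327243036145063645217352, 0, 0, 45273235722435620567646553364, 0, 0, 0, 0, 0, 0], 
  [30182157148289456100163498568, 0, 0, 44015645841257964212782445779, 0, 0, 0, 0, 0, 0], 
  [0, 25151797623575980187165164037, 27666977385933578207265317254, 0, 0, 0, 0, 0, 31420092390251875490574938825, 0], 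
  [0, 0, 0, 0, 0, 0, 59086705104551498764133464031, 0, 36465501122491401257297957709, 0], 
  [0, 0, 40242876197717850835216565264, 0, 56586934424027504397623088989, 0, 0, 0, 0, 0], 
  [0, 40242875298223190611958236176, 0, 0, 18824543736570466661842338572, 0, 0, 0, 0, 0], 
  [47788415484792646701009733592, 0, 0, 25151797623575980173155123460, 0, 0, 0, 0, 0, 0], 
  [0, 0, 0, 44015645690151434694689633491, 56432191919116831863260698461, 0, 0, 0, 0, 0], 
  [0, 0, 0, 0, 0, 56587553278910496915009689437, 20121437799027991587589243660, 40242876197718136983117693968, 56395046234110333896713688925, 0]]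

def MG3_cert_nb : List (List (Fin 10)) := [[1, 2, 7], [0, 3, 6], [0, 3, 5], [1, 2, 7, 8], [5, 6, 8], [2, 4, 9], [1, 4, 9], [0, 3, 9], [3, 4, 9], [5, 6, 7, 8]]

def MG3_cert : CertData 10 where
  N := 16
  k := 6
  s := 1
  code := fun u v => (MG3_cert_tab.getD u.1 []).getD v.1 0
  nb := fun u => MG3_cert_nb.getD u.1 []
  c := fun _ => 0

theorem MG3_cert_ok : MG3_cert.okW MG3
    [(0, 1), (1, 0), (0, 2), (2, 0), (1, 3), (3, 1), (2, 3), (3, 2), (3, 8), (8, 3), (6, 4), (4, 6), (4, 8), (8, 4)]
    [(0, 7), (1, 6), (2, 5), (3, 7), (4, 5), (5, 9), (6, 9), (7, 9), (8, 9)] = true := by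
  decide +kernel

end Pool.Agent.Lib.MP_5854e1_co
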