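import Pool.Agent.Lib.MP_5854e1_co.MinGraphs

/-!
The positivity certificate `MG31_cert` of the graph `MG31`.
-/

set_option autoImplicit false

namespace Pool.Agent.Lib.MP_5854e1_co

def MG31_cert_tab : List (List ℕ) := [[0, 0, 0, 1837871281938372962058540107272734, 0, 0, 0, 2085095588860442590984683173499299, 0], 
  [2085095588860442590984683985146275, 0, 0, 0, 0, 0, 0, 0, 2085095588860442590984237037965731], 
  [0, 0, 0, 2493935307173159813972313873536685, 0, 0, 1880671879341981880152572624867102, 0, 2003322143644932594747920741847201], 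
  [1962437916412374898011375793606688, 0, 1634710290602796168682191391689752, 0, 2003327114900208389737318325981474, 1676253120974455861910971624082585, 0, 0, 0], 
  [0, 2166864043325557986709507947467429, 0, 1635049681277053556915861138706073, 0, 0, 0, 0, 0], 
  [0, 0, 2493937861186018479667103379707565, 2452734225470007749310619253937708, 0, 0, 0, 0, 2003327133938410348872026754142369], 
  [0, 0, 2245755310693030884122680449684391, 1103235298514985477648744014071179, 0, 3066317040918733932370304726654395, 0, 0, 0], 
  [1471832180372077123048014675773972, 0, 0, 0, 2166864043325557986709577207992997, 0, 0, 0, 0], 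
  [0, 1512716407604634820910390003976853, 1635049661781934828579617392611101, 0, 0, 1757061051396715022307741871459867, 2245119009512838198661382299833255, 2125979816093000288847132323549732, 0]]

def MG31_cert_nb : List (List (Fin 9)) := [[1, 3, 7], [0, 4, 8], [3, 5, 6, 8], [0, 2, 4, 5, 6], [1, 3, 7], [2, 3, 6, 8], [2, 3, 5, 8], [0, 4, 8], [1, 2, 5, 6, 7]]

def MG31_cert : CertData 9 where
  N := 16
  k := 7
  s := 2
  code := fun u v => (MG31_cert_tab.getD u.1 []).getD v.1 0
  nb := fun u => MG31_cert_nb.getD u.1 []
  c := fun _ => 0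

theorem MG31_cert_ok : MG31_cert.okW MG31
    [(3, 4), (4, 3), (3, 5), (5, 3), (3, 2), (2, 3), (3, 0), (0, 3), (1, 8), (8, 1), (5, 8), (8, 5), (2, 8), (8, 2), (2, 6), (6, 2), (0, 7), (7, 0)]
    [(0, 1), (1, 4), (2, 5), (3, 6), (4, 7), (5, 6), (6, 8), (7, 8)] = true := by
  decide +kernel

end Pool.Agent.Lib.MP_5854e1_co
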