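import Pool.Agent.Lib.MP_5854e1_co.MinGraphs

/-!
The positivity certificate `MG32_cert` of the graph `MG32`.
-/

set_option autoImplicit false

namespace Pool.Agent.Lib.MP_5854e1_co

def MG32_cert_tab : List (List ℕ) := [[0, 0, 0, 42758055885119538464244991378, 41500466077728837182819767889, 0, 0, 0, 0], 
  [0, 0, 0, 23894207742397181179002896579, 47768765642900943623471326614, 28924567267111805331006636552, 32697336760732377963361522379, 31439747029433370014089561161, 0], 
  [47788415480109189031360853654, 44015645841257965329742640339, 0, 0, 0, 0, 0, 0, 0], 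
  [30182147477493803465383658056, 44015645841239664988399678675, 0, 0, 0, 0, 0, 0, 0], 
  [30162507303981826491484799689, 22636617861218381949210992770, 0, 0, 0, 0, 0, 0, 0], 
  [0, 41500466078900050019939062865, 0, 0, 0, 0, 36468839909381766391319290765, 37707974633600336391619273614, 0], 
  [0, 42758051083091374781437125778, 0, 0, 0, 53878940588090449103447770907, 0, 18863838473116226838877483722, 0], 
  [0, 40242876197611475771765101648, 0, 0, 0, 55077887972368862519862871836, 56571889263056352083831551967, 0, 0], 
  [0, 0, 60364314281356468454875596832, 40242876197483663864023286800, 20121438085922442819082911744, 36466407816856107761339257677, 35190103567393503794590700365, 60344664229796038953994730219, 0]]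

def MG32_cert_nb : List (List (Fin 9)) := [[2, 3, 4], [2, 3, 4, 5, 6, 7], [0, 1, 8], [0, 1, 8], [0, 1, 8], [1, 6, 7, 8], [1, 5, 7, 8], [1, 5, 6, 8], [2, 3, 4, 5, 6, 7]]

def MG32_cert : CertData 9 where
  N := 16
  k := 6
  s := 1
  code := fun u v => (MG32_cert_tab.getD u.1 []).getD v.1 0
  nb := fun u => MG32_cert_nb.getD u.1 []
  c := fun _ => 0

theorem MG32_cert_ok : MG32_cert.okW MG32
    [(0, 3), (3, 0), (0, 4), (4, 0), (3, 1), (1, 3), (1, 4), (4, 1), (1, 5), (5, 1), (1, 6), (6, 1), (1, 7), (7, 1), (5, 6), (6, 5), (5, 7), (7, 5), (6, 7), (7, 6)]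
    [(0, 2), (1, 2), (2, 8), (3, 8), (4, 8), (5, 8), (6, 8), (7, 8)] = true := by
  decide +kernel

end Pool.Agent.Lib.MP_5854e1_co
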