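import Pool.Agent.Lib.MP_5854e1_co.MinGraphs

/-!
The positivity certificate `MG33_cert` of the graph `MG33`.
-/

set_option autoImplicit false

namespace Pool.Agent.Lib.MP_5854e1_co

def MG33_cert_tab : List (List ℕ) := [[0, 35212515697360274246260282124, 36470106389042886526438265677, 0, 0, 0, 36469794653067788553360565133, 0, 0], 
  [54054229959651977125392398043, 0, 0, 30182157146991566047927657356, 0, 0, 0, 0, 0], 
  [52775786181871802057545590426, 0, 0, 30182157148126187211191804808, 0, 0, 0, 0, 0], 
  [0, 45213979093017577018085447257, 51403679364402104717512382041, 0, 0, 0, 0, 0, 0], 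
  [0, 0, 32696722853089604909500827146, 0, 0, 44015645841257965315566159059, 44015645841257965315566154963, 0, 0], 
  [0, 33954912399853530223076279820, 0, 0, 26409387504754779126926692677, 0, 45273235722436764338912052500, 0, 0], 
  [46451300275059506685188592981, 0, 0, 0, 26409387504754779126926692677, 25151797623575980188170731780, 0, 0, 0], 
  [33954859553152619121572885195, 0, 0, 51561185128327899957939795935, 0, 0, 0, 0, 0], 
  [0, 0, 0, 0, 46530825603615563346404804117, 42758055960079165622171288850, 25112497939789141951434998020, 33954917197178211233509512793, 0]]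

def MG33_cert_nb : List (List (Fin 9)) := [[1, 2, 6, 7], [0, 3, 5], [0, 3, 4], [1, 2, 7], [2, 5, 6, 8], [1, 4, 6, 8], [0, 4, 5, 8], [0, 3, 8], [4, 5, 6, 7]]

def MG33_cert : CertData 9 where
  N := 16
  k := 6
  s := 1
  code := fun u v => (MG33_cert_tab.getD u.1 []).getD v.1 0
  nb := fun u => MG33_cert_nb.getD u.1 []
  c := fun _ => 0

theorem MG33_cert_ok : MG33_cert.okW MG33
    [(4, 5), (5, 4), (4, 6), (6, 4), (0, 1), (1, 0), (0, 6), (6, 0), (0, 2), (2, 0), (5, 6), (6, 5), (1, 3), (3, 1), (2, 3), (3, 2)]
    [(0, 7), (1, 5), (2, 4), (3, 7), (4, 8), (5, 8), (6, 8), (7, 8)] = true := by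
  decide +kernel

end Pool.Agent.Lib.MP_5854e1_co
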