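import Pool.Agent.Lib.MP_5854e1_co.CertM34P6

/-!
The positivity certificate `MG34_cert` of the graph `MG34`.
-/

set_option autoImplicit false

namespace Pool.Agent.Lib.MP_5854e1_co

theorem MG34_cert_root : MG34_cert.rootOK 8 = true := by
  refine MG34_cert.rootOK_of_parts 8 0 1 [2, 3, 4, 5, 6, 7] (by decide +kernel) rfl ?_
  intro i hi
  have h7 : i < 7 := hi
  match i, h7 with
  | 0, _ => exact MG34_cert_part0
  | 1, _ => exact MG34_cert_part1
  | 2, _ => exact MG34_cert_part2
  | 3, _ => exact MG34_cert_part3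
  | 4, _ => exact MG34_cert_part4
  | 5, _ => exact MG34_cert_part5
  | 6, _ => exact MG34_cert_part6
  | n + 7, h => exact absurd h (by omega)

theorem MG34_cert_ok : MG34_cert.okW MG34
    [(6, 1), (1, 6), (6, 0), (0, 6), (3, 4), (4, 3), (3, 8), (8, 3), (1, 8), (8, 1), (4, 8), (8, 4), (4, 2), (2, 4), (0, 8), (8, 0), (0, 5), (5, 0), (7, 2), (2, 7), (8, 2), (2, 8), (8, 5), (5, 8)]
    [(0, 1), (1, 5), (2, 3), (3, 7), (4, 7), (5, 6), (6, 8), (7, 8)] = true := by
  rw [CertData.okW, Bool.and_eq_true, Bool.and_eq_true, Bool.and_eq_true]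
  refine ⟨⟨⟨by decide +kernel, by decide +kernel⟩, by decide +kernel⟩, ?_⟩
  rw [CertData.run, Bool.and_eq_true]
  refine ⟨by decide +kernel, ?_⟩
  rw [CertData.run, Bool.and_eq_true]
  refine ⟨by decide +kernel, ?_⟩
  rw [CertData.run, Bool.and_eq_true]
  refine ⟨by decide +kernel, ?_⟩
  rw [CertData.run, Bool.and_eq_true]
  refine ⟨by decide +kernel, ?_⟩
  rw [CertData.run, Bool.and_eq_true]
  refine ⟨by decide +kernel, ?_⟩
  rw [CertData.run, Bool.and_eq_true]
  refine ⟨by decide +kernel, ?_⟩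
  rw [CertData.run, Bool.and_eq_true]
  refine ⟨by decide +kernel, ?_⟩
  rw [CertData.run, Bool.and_eq_true]
  refine ⟨by decide +kernel, ?_⟩
  rw [CertData.run, List.all_eq_true]
  intro u _
  rw [Bool.or_eq_true]
  by_cases hu : u = 8
  · subst hu
    right
    rw [Bool.and_eq_true]
    exact ⟨MG34_cert_root, by decide +kernel⟩
  · left
    revert hu
    revert u
    decide

end Pool.Agent.Lib.MP_5854e1_co
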