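import Pool.Agent.Lib.MP_5854e1_co.CertM34P1

/-!
Part 2 of the check of `MG34_cert` at the root.
-/

set_option autoImplicit false

namespace Pool.Agent.Lib.MP_5854e1_co

theorem MG34_cert_part2 : MG34_cert.rootPart 8 0 [1, 2, 3, 4, 5, 6, 7] 2 = true := by
  decide +kernel

end Pool.Agent.Lib.MP_5854e1_co
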