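import Pool.Agent.Lib.MP_5854e1_co.MinGraphs

/-!
The positivity certificate `MG4_cert` of the graph `MG4`.
-/

set_option autoImplicit false

namespace Pool.Agent.Lib.MP_5854e1_co

def MG4_cert_tab : List (List ℕ) := [[0, 0, 0, 0, 46530825603432273852671546709, 47788410687304978134728271254, 0, 0, 0, 0], 
  [0, 0, 0, 0, 30182157148291135944431534600, 30182157148291104740403610120, 35212209644225916356364133196, 33954926791790954629242602252, 36470096957193365560248030029, 0], 
  [0, 0, 0, 0, 0, 0, 0, 26369775994863676050643424270, 31282548294322625359355380752, 0], 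
  [50303595247097058723390129688, 30182157148291104740403610120, 0, 0, 0, 0, 0, 0, 0, 0], 
  [31439747027108940711956091465, 49026043697971759697914328535, 0, 0, 0, 0, 0, 0, 0, 0], 
  [31439737359843828297741144649, 49046005365968867757072938455, 0, 0, 0, 0, 0, 0, 0, 0], 
  [0, 46471554281219462427141559637, 21359378138146164425639912321, 0, 0, 0, 0, 0, 0, 0], 
  [0, 45273216082199043322563347732, 40242569168941983633738683473, 0, 0, 0, 0, 0, 0, 0], 
  [0, 45271081647433783018360227092, 38985286316542483349227824400, 0, 0, 0, 0, 0, 0, 0], 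
  [0, 0, 0, 46530825603377645507560428885, 45250817821859101064270267668, 45273173357215053375035491604, 26409363518131374145681818629, 45273221180546325026292229396, 45271700578520540659190457620, 0]]

def MG4_cert_nb : List (List (Fin 10)) := [[3, 4, 5], [3, 4, 5, 6, 7, 8], [6, 7, 8], [0, 1, 9], [0, 1, 9], [0, 1, 9], [1, 2, 9], [1, 2, 9], [1, 2, 9], [3, 4, 5, 6, 7, 8]]

def MG4_cert : CertData 10 where
  N := 16
  k := 6
  s := 1
  code := fun u v => (MG4_cert_tab.getD u.1 []).getD v.1 0
  nb := fun u => MG4_cert_nb.getD u.1 []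
  c := fun _ => 0

theorem MG4_cert_ok : MG4_cert.okW MG4
    [(0, 4), (4, 0), (0, 5), (5, 0), (4, 1), (1, 4), (1, 5), (5, 1), (1, 6), (6, 1), (1, 7), (7, 1), (1, 8), (8, 1), (7, 2), (2, 7), (2, 8), (8, 2)]
    [(0, 3), (1, 3), (2, 6), (3, 9), (4, 9), (5, 9), (6, 9), (7, 9), (8, 9)] = true := by
  decide +kernel

end Pool.Agent.Lib.MP_5854e1_co
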