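import Pool.Agent.Lib.MP_5854e1_co.MinGraphs

/-!
The positivity certificate `MG5_cert` of the graph `MG5`.
-/

set_option autoImplicit false

namespace Pool.Agent.Lib.MP_5854e1_co

def MG5_cert_tab : List (List ℕ) := [[0, 0, 31439747029433039393762087497, 52818775008317458044523488922, 0, 0, 0, 0, 0, 0], 
  [0, 0, 47788415473063843552789357974, 0, 47788415473063843553879877014, 0, 0, 0, 0, 0], 
  [49046005363411113439796229591, 32697336535857782841821143690, 0, 0, 0, 0, 0, 0, 0, 0], 
  [30162200263562938786798141960, 54076364884832248163369596635, 0, 0, 0, 0, 0, 0, 0, 0], 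
  [50303595245814605744632333848, 32697336535857778375055155850, 0, 0, 0, 0, 0, 0, 0, 0], 
  [0, 0, 46530824554164188694871102805, 47788415466054812822813631894, 46530824704116041887799137621, 0, 36470106551824427167830827853, 0, 35212516671834864471656166285, 35212516673006086320724951820], 
  [0, 0, 0, 0, 0, 45231782036335901293765805332, 0, 0, 40222919327048564899233502288, 38962561389528822869836764175], 
  [0, 0, 0, 0, 0, 46530824774390496415031055701, 43975425071132373857521448147, 0, 0, 23893588887513330833100956484], 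
  [0, 0, 0, 0, 0, 42718732135067640063929173138, 37491898332642659525539992655, 37724933026431311991521739790, 0, 0], 
  [0, 0, 0, 0, 0, 45273182577074282520462312724, 38945986632755931823013962897, 45214281399431827125167314772, 25112186113684877041222091716, 0]]

def MG5_cert_nb : List (List (Fin 10)) := [[2, 3, 4], [2, 3, 4], [0, 1, 5], [0, 1, 5], [0, 1, 5], [2, 3, 4, 6, 7, 8, 9], [5, 7, 8, 9], [5, 6, 8, 9], [5, 6, 7, 9], [5, 6, 7, 8]]

def MG5_cert : CertData 10 where
  N := 16
  k := 6
  s := 1
  code := fun u v => (MG5_cert_tab.getD u.1 []).getD v.1 0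
  nb := fun u => MG5_cert_nb.getD u.1 []
  c := fun _ => 0

theorem MG5_cert_ok : MG5_cert.okW MG5
    [(9, 7), (7, 9), (9, 5), (5, 9), (9, 6), (6, 9), (2, 0), (0, 2), (3, 0), (0, 3), (8, 5), (5, 8), (8, 6), (6, 8), (5, 6), (6, 5), (2, 1), (1, 2), (4, 1), (1, 4)]
    [(0, 4), (1, 3), (2, 5), (3, 5), (4, 5), (5, 7), (6, 7), (7, 8), (8, 9)] = true := by
  decide +kernel

end Pool.Agent.Lib.MP_5854e1_co
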