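import Pool.Agent.Lib.MP_5854e1_co.MinGraphs

/-!
The positivity certificate `MG6_cert` of the graph `MG6`.
-/

set_option autoImplicit false

namespace Pool.Agent.Lib.MP_5854e1_co

def MG6_cert_tab : List (List ℕ) := [[0, 0, 0, 2657474769963935447722811817106738, 0, 0, 2085095588860442590984685608441388, 0, 2449540145675663654086730652014252, 0], 
  [0, 0, 0, 0, 0, 2367771652220311090487111694587178, 0, 2448901329625155085307583287482029, 0, 0], 
  [0, 0, 0, 2861895906279038850371139675200310, 0, 0, 0, 2329442728180025706543890261775529, 2902780133511596548229151857728439, 0], 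
  [2289197316537480919223476347999786, 0, 2085095588860442590918162720018851, 0, 0, 0, 0, 0, 0, 0], 
  [2003327134395289793396813700175137, 1838831786943027314826477193121695, 0, 0, 0, 0, 0, 0, 0, 0], 
  [0, 3147756048737278643870891726839614, 0, 1962442905182796501479780359082016, 0, 0, 0, 0, 0, 0], 
  [2780127373681142923962184895371828, 0, 3434275087534846620445367617004100, 0, 0, 0, 0, 0, 0, 0], 
  [0, 2984209197302454845657328563232574, 2698358997348780098278711284767026, 0, 0, 0, 0, 0, 0, 0], 
  [2943646853975230075569983858908344, 0, 2085095588860433216675538348331427, 0, 0, 0, 0, 0, 0, 0], 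
  [0, 0, 0, 0, 1267410771277626283835067837171599, 2534794580501439554315644673169198, 3884001372646675278992370883094479, 3188939779637132837282853730361150, 2534794639291406968328729813292846, 0]]

def MG6_cert_nb : List (List (Fin 10)) := [[3, 4, 6, 8], [4, 5, 7], [3, 6, 7, 8], [0, 2, 5], [0, 1, 9], [1, 3, 9], [0, 2, 9], [1, 2, 9], [0, 2, 9], [4, 5, 6, 7, 8]]

def MG6_cert : CertData 10 where
  N := 16
  k := 7
  s := 3
  code := fun u v => (MG6_cert_tab.getD u.1 []).getD v.1 0
  nb := fun u => MG6_cert_nb.getD u.1 []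
  c := fun _ => 0

theorem MG6_cert_ok : MG6_cert.okW MG6
    [(0, 3), (3, 0), (0, 6), (6, 0), (0, 8), (8, 0), (1, 5), (5, 1), (1, 7), (7, 1), (2, 3), (3, 2), (2, 7), (7, 2), (2, 8), (8, 2)]
    [(0, 4), (1, 4), (2, 6), (3, 5), (4, 9), (5, 9), (6, 9), (7, 9), (8, 9)] = true := by
  decide +kernel

end Pool.Agent.Lib.MP_5854e1_co
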