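import Pool.Agent.Lib.MP_5854e1_co.MinGraphs

/-!
The positivity certificate `MG7_cert` of the graph `MG7`.
-/

set_option autoImplicit false

namespace Pool.Agent.Lib.MP_5854e1_co

def MG7_cert_tab : List (List ℕ) := [[0, 0, 0, 2164306283748325830928998230332972, 2166864043170872596400085475611301, 0, 0, 0, 0, 0], 
  [2450817777776681372644836291319340, 0, 2166864043325557986709573957440165, 0, 0, 0, 1676253316530106061889312525798553, 0, 0, 0], 
  [0, 1471832180372077049850806898330132, 0, 0, 1635049661777175278108693636713496, 0, 0, 0, 1144438954486361183133905533193498, 0], 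
  [1880674160270873168118067321343774, 0, 0, 0, 0, 0, 0, 1839789991368976970664466895556253, 1839789933038315469688240108687005, 0], 
  [1471832180372077123047737392483093, 0, 2085095588860442299341115585270179, 0, 0, 0, 0, 0, 0, 0], 
  [0, 2821011679046481152508690527247029, 0, 1839789913543196741351996362542749, 0, 0, 0, 0, 0, 0], 
  [0, 2125979816091735960628143147520548, 0, 0, 1717137543767422874472789186104602, 0, 0, 0, 0, 0], 
  [0, 0, 695031862946341537955003739734532, 2371252720115662851483884826859051, 0, 0, 0, 0, 0, 0], 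
  [0, 0, 2575706313668772898197275792889775, 2451748533230155418478925480400428, 0, 0, 0, 0, 0, 0], 
  [0, 0, 0, 0, 0, 2493937705225069738380122856838829, 2085095588860358491261671156797859, 1103849181521135407555594613360140, 3103048964889161551147975528357436, 0]]

def MG7_cert_nb : List (List (Fin 10)) := [[1, 3, 4], [0, 2, 5, 6], [1, 4, 7, 8], [0, 5, 7, 8], [0, 2, 6], [1, 3, 9], [1, 4, 9], [2, 3, 9], [2, 3, 9], [5, 6, 7, 8]]

def MG7_cert : CertData 10 where
  N := 16
  k := 7
  s := 2
  code := fun u v => (MG7_cert_tab.getD u.1 []).getD v.1 0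
  nb := fun u => MG7_cert_nb.getD u.1 []
  c := fun _ => 0

theorem MG7_cert_ok : MG7_cert.okW MG7
    [(1, 2), (2, 1), (1, 6), (6, 1), (2, 8), (8, 2), (3, 7), (7, 3), (3, 0), (0, 3), (3, 8), (8, 3), (2, 4), (4, 2), (0, 4), (4, 0)]
    [(0, 1), (1, 5), (2, 7), (3, 5), (4, 6), (5, 9), (6, 9), (7, 9), (8, 9)] = true := by
  decide +kernel

end Pool.Agent.Lib.MP_5854e1_co
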