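import Pool.Agent.Lib.MP_5854e1_co.MinGraphs

/-!
The positivity certificate `MG8_cert` of the graph `MG8`.
-/

set_option autoImplicit false

namespace Pool.Agent.Lib.MP_5854e1_co

def MG8_cert_tab : List (List ℕ) := [[0, 46530824995733124959293494613, 0, 36391507034352656361652015949, 37727696435363112453045810127, 0, 0, 0, 0, 0], 
  [33954921994502892227580965579, 0, 0, 0, 0, 0, 0, 0, 31439746954364221656937042505, 0], 
  [26409387504754779197847983445, 0, 0, 0, 0, 0, 0, 40242876197721568301482640464, 0, 0], 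
  [44014412928778058946514334931, 0, 0, 0, 0, 0, 0, 0, 49044772449998175806898148888, 0], 
  [40105020123410912177281643731, 0, 0, 0, 0, 0, 0, 20121438098860784150741319744, 0, 0], 
  [0, 0, 40242876197721568301482640725, 0, 20121438098860784150741319875, 0, 0, 0, 0, 0], 
  [0, 30182157148052985843638370824, 0, 54073908660433379511403398875, 0, 0, 0, 0, 0, 0], 
  [0, 0, 21379027980039583160162653250, 0, 41500466078900367310903973969, 0, 0, 0, 0, 0], 
  [0, 50303595169686039118555223641, 0, 32559787942436059673273868938, 0, 0, 0, 0, 0, 0], 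
  [0, 0, 0, 0, 0, 23894207742397181179005318160, 42754985672191817935250597010, 41500466078900367310903973969, 40105327304357549168935904402, 0]]

def MG8_cert_nb : List (List (Fin 10)) := [[1, 2, 3, 4], [0, 6, 8], [0, 5, 7], [0, 6, 8], [0, 5, 7], [2, 4, 9], [1, 3, 9], [2, 4, 9], [1, 3, 9], [5, 6, 7, 8]]

def MG8_cert : CertData 10 where
  N := 16
  k := 6
  s := 1
  code := fun u v => (MG8_cert_tab.getD u.1 []).getD v.1 0
  nb := fun u => MG8_cert_nb.getD u.1 []
  c := fun _ => 0

theorem MG8_cert_ok : MG8_cert.okW MG8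
    [(1, 0), (0, 1), (1, 8), (8, 1), (0, 3), (3, 0), (0, 4), (4, 0), (2, 7), (7, 2), (7, 4), (4, 7), (8, 3), (3, 8)]
    [(0, 2), (1, 6), (2, 5), (3, 6), (4, 5), (5, 9), (6, 9), (7, 9), (8, 9)] = true := by
  decide +kernel

end Pool.Agent.Lib.MP_5854e1_co
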