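import Pool.Agent.Lib.MP_5854e1_co.MinGraphs

/-!
The positivity certificate `MG9_cert` of the graph `MG9`.
-/

set_option autoImplicit false

namespace Pool.Agent.Lib.MP_5854e1_co

def MG9_cert_tab : List (List ℕ) := [[0, 0, 42757748931098277897825772883, 0, 33954926791827573254375978507, 0, 0, 0, 0, 0], 
  [0, 0, 0, 0, 33954869223913100786743431883, 45273226114867361330167366932, 0, 0, 0, 0], 
  [31439747029469974745753641609, 0, 0, 0, 0, 0, 0, 0, 49046005365968586282096227799, 0], 
  [41500466078790565262846178705, 36470063371217410762277704525, 0, 0, 0, 0, 0, 0, 0, 0], 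
  [40242875147135568016643785744, 52738942428488849367164372764, 0, 0, 0, 0, 0, 0, 0, 0], 
  [0, 32697336910648774169570882186, 0, 0, 0, 0, 0, 0, 49046005365968867757072938455, 0], 
  [0, 0, 0, 36470096947823590792854049613, 41480815937174156013229688604, 0, 0, 0, 0, 0], 
  [0, 0, 49046005365969158028142671319, 0, 0, 49046005365969444107324323287, 0, 0, 0, 0], 
  [0, 0, 30182157148291109138450121224, 0, 0, 30182157148291104740403610120, 0, 0, 0, 0], 
  [0, 0, 0, 0, 0, 0, 36470101681902292121997390864, 51561185128330186591983474265, 30182157148291104740403610120, 0]]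

def MG9_cert_nb : List (List (Fin 10)) := [[2, 3, 4], [3, 4, 5], [0, 7, 8], [0, 1, 6], [0, 1, 6], [1, 7, 8], [3, 4, 9], [2, 5, 9], [2, 5, 9], [6, 7, 8]]

def MG9_cert : CertData 10 where
  N := 16
  k := 6
  s := 1
  code := fun u v => (MG9_cert_tab.getD u.1 []).getD v.1 0
  nb := fun u => MG9_cert_nb.getD u.1 []
  c := fun _ => 0

theorem MG9_cert_ok : MG9_cert.okW MG9
    [(0, 2), (2, 0), (0, 4), (4, 0), (2, 8), (8, 2), (1, 4), (4, 1), (1, 5), (5, 1), (8, 5), (5, 8)]
    [(0, 3), (1, 3), (2, 7), (3, 6), (4, 6), (5, 7), (6, 9), (7, 9), (8, 9)] = true := by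
  decide +kernel

end Pool.Agent.Lib.MP_5854e1_co
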