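import Pool.Agent.Lib.MP_5854e1_co.Defs

/-!
Rotation systems of genus zero, opposite vertices of the octahedron.
-/

set_option autoImplicit false

namespace Pool.Agent.Lib.MP_5854e1_co

/-- `rot` is a rotation system of genus zero of `H`: a permutation of the darts whose cycles are
the sets of darts leaving one vertex (in cyclic order around the vertex), such that Euler's formula
`V + F = E + 2 C` holds (`V` non-isolated vertices, `F` faces, i.e. cycles of `x ↦ rot (flip x)`,
`E` edges, `C` connected components that have an edge). -/
def IsPlanarRotation {W : Type*} (H : SimpleGraph W) (rot : Equiv.Perm H.Dart) : Prop :=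
  (∀ x y, rot.SameCycle x y ↔ x.fst = y.fst) ∧
    Nat.card (Quot fun x y => rot x = y) + Nat.card (Quot fun x y => rot (flip H x) = y) =
      Nat.card H.edgeSet + 2 * Nat.card (Quot fun x y => rot x = y ∨ flip H x = y)

/-- The opposite vertex of the octahedron `K_{2,2,2}` (parts `{1, 2}`, `{3, 4}`, `{5, 6}`). -/
def opp (x : Fin 7) : Fin 7 := ([0, 2, 1, 4, 3, 6, 5] : List (Fin 7)).getD x.1 0

end Pool.Agent.Lib.MP_5854e1_co
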