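import Pool.Agent.Lib.MP_5854e1_co.CertWeak
import Pool.Agent.Lib.MP_5854e1_co.Rotation

/-!
Certificates for planar covers with restricted rotations: at every eliminated vertex only some
cyclic orders (read after the dart to the parent) have to be excluded.
-/

set_option autoImplicit false

open Equiv Equiv.Perm

namespace Pool.Agent.Lib.MP_5854e1_co

/-! ### the check at a vertex with restricted orders -/

/-- all words in the letters `rem` (in any order, applied one after the other) whose list satisfies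
`al` have values at least the targets -/
def dfsR {m : ℕ} (N k : ℕ) (code : Fin m → ℕ) (al : List (Fin m) → Bool) (tgt : List ℕ) :
    ℕ → List (Fin m) → List (Fin m) → List ℕ → Bool
  | 0, _, _, _ => false
  | _ + 1, [], acc, vals => !al acc || (vals.zip tgt).all (fun p => decide (p.2 ≤ p.1))
  | f + 1, c :: cs, acc, vals => (List.range (cs.length + 1)).all fun i =>
      dfsR N k code al tgt f ((c :: cs).eraseIdx i) ((c :: cs).getD i c :: acc)
        (vals.map (stp N k (code ((c :: cs).getD i c))))

theorem dfsR_sound {m : ℕ} {N k : ℕ} (code : Fin m → ℕ) (al : List (Fin m) → Bool)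
    (tgt : List ℕ) : ∀ (f : ℕ) (rem acc : List (Fin m)) (vals : List ℕ),
    dfsR N k code al tgt f rem acc vals = true → ∀ l : List (Fin m), l.Perm rem →
      al (l.reverse ++ acc) = true → ∀ i (hi : i < vals.length) (hi' : i < tgt.length),
      tgt[i] ≤ (l.map code).foldl (fun x c => stp N k c x) vals[i] := by
  intro f
  induction f with
  | zero => intro rem acc vals h; simp [dfsR] at h
  | succ f ih =>
    intro rem acc vals h l hl hal i hi hi'
    cases rem with
    | nil =>
      rw [hl.eq_nil] at hal ⊢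
      rw [List.map_nil, List.foldl_nil]
      rw [List.reverse_nil, List.nil_append] at hal
      rw [dfsR, hal, Bool.not_true, Bool.false_or, List.all_eq_true] at h
      have h1 := h (vals[i], tgt[i]) (by
        rw [List.mem_iff_getElem]
        exact ⟨i, by simp [hi, hi'], by simp⟩)
      simpa using h1
    | cons c cs =>
      rw [dfsR, List.all_eq_true] at h
      cases l with
      | nil => exact absurd hl.symm.eq_nil (by simp)
      | cons a l =>
        have ha : a ∈ c :: cs := hl.subset (List.mem_cons_self)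
        obtain ⟨j, hj, hja⟩ := List.getElem_of_mem ha
        have h1 := h j (List.mem_range.2 (by simpa using hj))
        have h2 : (c :: cs).getD j c = a := by
          rw [List.getD_eq_getElem _ _ hj, hja]
        rw [h2] at h1
        have h3 : l.Perm ((c :: cs).eraseIdx j) := by
          have e1 : (a :: l).Perm (a :: (c :: cs).eraseIdx j) := by
            refine hl.trans ?_
            have := List.getElem_cons_eraseIdx_perm hj
            rw [hja] at this
            exact this.symm
          exact (List.perm_cons a).1 e1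
        have h4 := ih _ _ _ h1 l h3 (by
          rw [List.reverse_cons, List.append_assoc, List.singleton_append] at hal
          exact hal) i (by simpa using hi) hi'
        rw [List.map_cons, List.foldl_cons]
        simpa using h4

/-- the check at an eliminated vertex `v` with parent `p`, with the orders satisfying `al` -/
def CertData.elimR {m : ℕ} (C : CertData m) (al : List (Fin m) → Bool) (wit : List (Fin m))
    (v p : Fin m) : Bool :=
  decide (wit.Perm ((C.nb v).erase p)) && al wit && decide (0 ≤ C.elimT v p) &&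
    dfsR C.N C.k (C.code v) al
      ((List.range C.N).map fun j => stp C.N C.k (C.code p v) j + (C.elimT v p).toNat)
      (((C.nb v).erase p).length + 1) ((C.nb v).erase p) [] (List.range C.N)

theorem elim_boundR {m : ℕ} (C : CertData m) (hN : 0 < C.N) (al : List (Fin m) → Bool)
    (wit : List (Fin m)) (v p : Fin m) (h : C.elimR al wit v p = true) (l : List (Fin m))
    (hl : l.Perm ((C.nb v).erase p)) (hal : al l = true) (i : ℤ) :
    flo C.N C.k C.s (C.code p v) i + C.c v * C.N ≤
      l.foldr (fun w y => flo C.N C.k C.s (C.code v w) y) i := by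
  rw [CertData.elimR, Bool.and_eq_true, Bool.and_eq_true, Bool.and_eq_true, decide_eq_true_eq,
    decide_eq_true_eq] at h
  obtain ⟨⟨⟨-, -⟩, h0⟩, h1⟩ := h
  rw [foldr_codes]
  refine foldl_ge hN _ (fun i => flo C.N C.k C.s (C.code p v) i + C.c v * C.N)
    (fun i q => ?_) (fun j hj => ?_) i
  · show flo C.N C.k C.s (C.code p v) (i + q * C.N) + C.c v * C.N = _
    rw [fl_add _ _ _ _ _ hN]
    ring
  · show flo C.N C.k C.s (C.code p v) j + C.c v * C.N + _ ≤ _
    have h2 := dfsR_sound _ _ _ _ _ _ _ h1 l.reverse ((List.reverse_perm l).trans hl) (by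
      rw [List.reverse_reverse, List.append_nil]
      exact hal) j (by simpa using hj) (by simpa using hj)
    have hlen : ((l.reverse).map (C.code v)).length = ((C.nb v).erase p).length := by
      rw [List.length_map, List.length_reverse, hl.length_eq]
    rw [hlen, fl_nat]
    simp only [List.getElem_map, List.getElem_range] at h2
    have h3 : ((C.elimT v p).toNat : ℤ) = C.c v * C.N + ((C.nb v).erase p).length * C.s * C.N -
        C.s * C.N := Int.toNat_of_nonneg h0
    have h4 : ((stp C.N C.k (C.code p v) j : ℕ) : ℤ) + ((C.elimT v p).toNat : ℤ) ≤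
        ((((l.reverse).map (C.code v)).foldl (fun x c => stp C.N C.k c x) j : ℕ) : ℤ) := by
      exact_mod_cast h2
    rw [h3] at h4
    linarith

/-! ### the elimination -/

/-- the cyclic list `l`, read after `p`, satisfies `al` -/
def ReadOK {m : ℕ} (al : List (Fin m) → Bool) (p : Fin m) (l : List (Fin m)) : Prop :=
  ∀ l1 l2, l = l1 ++ p :: l2 → al (l2 ++ l1) = true

/-- the state of the elimination -/
structure ElimStR {m : ℕ} (C : CertData m) (al : Fin m → List (Fin m) → Bool)
    (par : Fin m → Fin m) (g : Fin m → Fin m → HN C.N) (done : List (Fin m))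
    (S : List (Fin m × Fin m)) : Prop where
  inv : ∀ u v, u ≠ v → g u v = (g v u)⁻¹
  lb : ∀ p ∈ S, ∀ (i : ℤ) (x : ℝ), (i : ℝ) ≤ x →
    (flo C.N C.k C.s (C.code p.1 p.2) i : ℝ) ≤ (g p.1 p.2).1 x
  word : ∀ u ∈ done, ∀ l : List (Fin m), l.Perm (C.nb u) → ReadOK (al u) (par u) l →
    (l.map (g u)).prod ∈ QW C.N (C.c u, 0)

theorem elim_stepR {m : ℕ} (C : CertData m) (al : Fin m → List (Fin m) → Bool)
    (par : Fin m → Fin m) (hN : 0 < C.N) (hnd : ∀ u, (C.nb u).Nodup)
    (g : Fin m → Fin m → HN C.N) (done : List (Fin m)) (S : List (Fin m × Fin m))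
    (hst : ElimStR C al par g done S) (v p : Fin m) (hpar : par v = p) (hvp : v ≠ p)
    (hv : v ∉ done) (hp : p ∉ done)
    (hpn : p ∈ C.nb v) (h1 : (v, p) ∉ S) (h2 : (p, v) ∉ S)
    (h3 : ∀ w ∈ (C.nb v).erase p, (v, w) ∈ S) (wit : List (Fin m))
    (h4 : C.elimR (al v) wit v p = true) :
    ∃ g' : Fin m → Fin m → HN C.N, ElimStR C al par g' (v :: done) ((p, v) :: S) := by
  classical
  set os := (C.nb v).erase p with hos
  set W : List (HN C.N) := (os.permutations.filter (fun l => al v l)).map
    (fun l => (l.map (g v)).prod) with hW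
  have hWne : W ≠ [] := by
    rw [hW]
    intro h0
    rw [List.map_eq_nil_iff] at h0
    have h5 := h4
    rw [CertData.elimR, Bool.and_eq_true, Bool.and_eq_true, Bool.and_eq_true,
      decide_eq_true_eq] at h5
    have : wit ∈ os.permutations.filter (fun l => al v l) :=
      List.mem_filter.2 ⟨List.mem_permutations.2 h5.1.1.1, h5.1.1.2⟩
    rw [h0] at this
    simp at this
  obtain ⟨G, hG1, hG2⟩ := exists_belowW W hWne (flo C.N C.k C.s (C.code p v)) (C.c v) (by
      intro w hw i
      rw [hW, List.mem_map] at hw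
      obtain ⟨l, hl, rfl⟩ := hw
      rw [List.mem_filter, List.mem_permutations] at hl
      have hb := elim_boundR C hN (al v) wit v p h4 l hl.1 hl.2 i
      have hgt := prod_geW (fun w y => flo C.N C.k C.s (C.code v w) y) (g v) l
        (fun d hd => hst.lb (v, d) (h3 d (hl.1.subset hd))) i i le_rfl
      have hb' : ((flo C.N C.k C.s (C.code p v) i + C.c v * C.N : ℤ) : ℝ) ≤
          ((l.foldr (fun w y => flo C.N C.k C.s (C.code v w) y) i : ℤ) : ℝ) := by exact_mod_cast hb
      exact hb'.trans hgt)
  let g' : Fin m → Fin m → HN C.N := fun a b =>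
    if a = p ∧ b = v then G else if a = v ∧ b = p then G⁻¹ else g a b
  have hgpv : g' p v = G := by simp [g']
  have hgvp : g' v p = G⁻¹ := by
    show (if v = p ∧ p = v then G else if v = v ∧ p = p then G⁻¹ else g v p) = G⁻¹
    rw [if_neg (fun h => hvp h.1), if_pos ⟨rfl, rfl⟩]
  have hgo : ∀ a b, ¬ (a = p ∧ b = v) → ¬ (a = v ∧ b = p) → g' a b = g a b := fun a b ha hb => by
    simp only [g']
    rw [if_neg ha, if_neg hb]
  refine ⟨g', ?_, ?_, ?_⟩
  · intro a b hab
    by_cases ha : a = p ∧ b = v
    · rw [ha.1, ha.2, hgpv, hgvp, inv_inv]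
    · by_cases hb : a = v ∧ b = p
      · rw [hb.1, hb.2, hgpv, hgvp]
      · rw [hgo a b ha hb, hgo b a (fun h => hb ⟨h.2, h.1⟩) (fun h => ha ⟨h.2, h.1⟩)]
        exact hst.inv a b hab
  · intro q hq i x hx
    rcases List.mem_cons.1 hq with rfl | hq
    · show (flo C.N C.k C.s (C.code p v) i : ℝ) ≤ (g' p v).1 x
      rw [hgpv]
      exact hG2 i x hx
    · have e1 : ¬ (q.1 = p ∧ q.2 = v) := fun h => h2 (by
        have : q = (p, v) := Prod.ext h.1 h.2
        rwa [this] at hq)
      have e2 : ¬ (q.1 = v ∧ q.2 = p) := fun h => h1 (by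
        have : q = (v, p) := Prod.ext h.1 h.2
        rwa [this] at hq)
      rw [hgo _ _ e1 e2]
      exact hst.lb q hq i x hx
  · intro u hu l hl hread
    rcases List.mem_cons.1 hu with rfl | hu
    · have hpl : p ∈ l := hl.symm.subset hpn
      obtain ⟨l1, l2, hl12⟩ := List.append_of_mem hpl
      have hal : al u (l2 ++ l1) = true := hread l1 l2 (by rw [hl12, hpar])
      rw [hl12]
      apply QW_rotate
      have hperm : (l2 ++ l1).Perm os := by
        have e1 : (p :: (l2 ++ l1)).Perm (C.nb u) := by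
          refine List.Perm.trans ?_ hl
          rw [hl12, ← List.cons_append]
          exact List.perm_append_comm
        have e2 := e1.erase p
        rwa [List.erase_cons_head] at e2
      have hmap : (l2 ++ l1).map (g' u) = (l2 ++ l1).map (g u) := by
        refine List.map_congr_left fun w hw => ?_
        have hw2 : w ∈ os := hperm.subset hw
        have hwp : w ≠ p := by
          rintro rfl
          exact List.Nodup.not_mem_erase (hnd u) hw2
        exact hgo _ _ (fun h => hvp h.1) (fun h => hwp h.2)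
      refine ⟨fun x => ?_, fun h0 => absurd h0 (by simp)⟩
      rw [List.map_append, List.prod_append, hmap, List.map_singleton, List.prod_singleton, hgvp]
      show x + (C.c u : ℝ) * C.N ≤ (((l2 ++ l1).map (g u)).prod).1 (G⁻¹.1 x)
      have h5 := hG1 (((l2 ++ l1).map (g u)).prod) (by
        rw [hW, List.mem_map]
        exact ⟨l2 ++ l1, List.mem_filter.2 ⟨List.mem_permutations.2 hperm, hal⟩, rfl⟩) (G⁻¹.1 x)
      have h6 : G.1 (G⁻¹.1 x) = x := G.1.apply_symm_apply x
      rw [h6] at h5
      exact h5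
    · have huv : u ≠ v := fun h => hv (h ▸ hu)
      have hup : u ≠ p := fun h => hp (h ▸ hu)
      have hmap : l.map (g' u) = l.map (g u) :=
        List.map_congr_left fun w _ => hgo _ _ (fun h => hup h.1) (fun h => huv h.1)
      rw [hmap]
      exact hst.word u hu l hl hread

theorem root_wordR {m : ℕ} (C : CertData m) (hN : 0 < C.N)
    (g : Fin m → Fin m → HN C.N) (S : List (Fin m × Fin m))
    (hlb : ∀ p ∈ S, ∀ (i : ℤ) (x : ℝ), (i : ℝ) ≤ x →
      (flo C.N C.k C.s (C.code p.1 p.2) i : ℝ) ≤ (g p.1 p.2).1 x)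
    (hinv : ∀ u v, u ≠ v → g u v = (g v u)⁻¹) (u : Fin m) (h3 : ∀ w ∈ C.nb u, (u, w) ∈ S)
    (h4 : C.rootOK u = true) (l : List (Fin m)) (hl : l.Perm (C.nb u)) (n : ℕ) :
    (l.map (g u)).prod ∈ QW C.N (C.c u, n) :=
  root_wordW C hN g [] S ⟨hinv, hlb, fun u hu => absurd hu (by simp)⟩ u h3 h4 l hl n

/-- the elimination with restricted orders; `wit v` is an order satisfying `al v` -/
def CertData.runR {m : ℕ} (C : CertData m) (al : Fin m → List (Fin m) → Bool)
    (wit : Fin m → List (Fin m)) (par : Fin m → Fin m) : List (Fin m × Fin m) →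
    List (Fin m) → List (Fin m × Fin m) → Bool
  | [], done, S => (List.finRange m).all fun u => decide (u ∈ done) ||
      (C.rootOK u && (C.nb u).all fun w => decide ((u, w) ∈ S))
  | (v, p) :: el, done, S => decide (par v = p) && decide (v ≠ p) && decide (v ∉ done) &&
      decide (p ∉ done) && decide (p ∈ C.nb v) && decide ((v, p) ∉ S) && decide ((p, v) ∉ S) &&
      (((C.nb v).erase p).all fun w => decide ((v, w) ∈ S)) && C.elimR (al v) (wit v) v p &&
      C.runR al wit par el (v :: done) ((p, v) :: S)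

theorem run_soundR {m : ℕ} (C : CertData m) (al : Fin m → List (Fin m) → Bool)
    (wit : Fin m → List (Fin m)) (par : Fin m → Fin m) (hN : 0 < C.N)
    (hnd : ∀ u, (C.nb u).Nodup) :
    ∀ (el : List (Fin m × Fin m)) (done : List (Fin m)) (S : List (Fin m × Fin m))
      (g : Fin m → Fin m → HN C.N), ElimStR C al par g done S → C.runR al wit par el done S = true →
      ∃ g' : Fin m → Fin m → HN C.N, (∀ u v, u ≠ v → g' u v = (g' v u)⁻¹) ∧
        ∀ u, ∀ l : List (Fin m), l.Perm (C.nb u) →
          (u ∈ done ++ el.map Prod.fst → ReadOK (al u) (par u) l) →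
          (l.map (g' u)).prod ∈ QW C.N (C.c u, rootInd (done ++ el.map Prod.fst) u) := by
  intro el
  induction el with
  | nil =>
    intro done S g hst h
    refine ⟨g, hst.inv, fun u l hl hread => ?_⟩
    rw [CertData.runR, List.all_eq_true] at h
    have h1 := h u (List.mem_finRange u)
    rw [Bool.or_eq_true, decide_eq_true_eq, Bool.and_eq_true, List.all_eq_true] at h1
    rw [List.map_nil, List.append_nil] at hread ⊢
    by_cases hu : u ∈ done
    · rw [rootInd, if_pos hu]
      exact hst.word u hu l hl (hread hu)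
    · rcases h1 with h1 | ⟨h1, h2⟩
      · exact absurd h1 hu
      · exact root_wordR C hN g S hst.lb hst.inv u (fun w hw => of_decide_eq_true (h2 w hw)) h1
          l hl _
  | cons q el ih =>
    obtain ⟨v, p⟩ := q
    intro done S g hst h
    rw [CertData.runR] at h
    simp only [Bool.and_eq_true, decide_eq_true_eq, List.all_eq_true] at h
    obtain ⟨⟨⟨⟨⟨⟨⟨⟨⟨a0, a1⟩, a2⟩, a3⟩, a4⟩, a5⟩, a6⟩, a7⟩, a8⟩, a9⟩ := h
    obtain ⟨g', hg'⟩ := elim_stepR C al par hN hnd g done S hst v p a0 a1 a2 a3 a4 a5 a6 a7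
      (wit v) a8
    obtain ⟨g'', b1, b2⟩ := ih _ _ g' hg' a9
    refine ⟨g'', b1, fun u l hl hread => ?_⟩
    have hmem : (u ∈ v :: done ++ el.map Prod.fst) ↔
        u ∈ done ++ ((v, p) :: el).map Prod.fst := by
      simp only [List.mem_append, List.mem_cons, List.map_cons]
      tauto
    have h3 := b2 u l hl (fun h => hread (hmem.1 h))
    have h4 : rootInd (v :: done ++ el.map Prod.fst) u =
        rootInd (done ++ ((v, p) :: el).map Prod.fst) u := by
      unfold rootInd
      simp only [hmem]
    rw [h4] at h3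
    exact h3

/-- the whole check with restricted orders -/
def CertData.okR {m : ℕ} (C : CertData m) (K : SimpleGraph (Fin m)) [DecidableRel K.Adj]
    (al : Fin m → List (Fin m) → Bool) (wit : Fin m → List (Fin m)) (par : Fin m → Fin m)
    (S el : List (Fin m × Fin m)) : Bool :=
  decide (0 < C.N) &&
    ((List.finRange m).all fun u => decide ((C.nb u).Nodup) &&
      (List.finRange m).all (fun v => decide (v ∈ C.nb u ↔ K.Adj u v))) &&
    (S.all fun q => decide (q.1 ≠ q.2) && decide ((q.2, q.1) ∈ S) &&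
      monoOK C.N C.k (C.code q.1 q.2) &&
      invW C.N C.k C.s (C.code q.1 q.2) (C.code q.2 q.1)) &&
    C.runR al wit par el [] S

theorem CertData.soundR {m : ℕ} (C : CertData m) (K : SimpleGraph (Fin m)) [DecidableRel K.Adj]
    (al : Fin m → List (Fin m) → Bool) (wit : Fin m → List (Fin m)) (par : Fin m → Fin m)
    (S el : List (Fin m × Fin m)) (h : C.okR K al wit par S el = true) :
    ∃ g : K.Dart → HN C.N, (∀ d, g d.symm = (g d)⁻¹) ∧
      ∀ u, ∀ l : List K.Dart, l.Nodup → (∀ d, d ∈ l ↔ d.fst = u) →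
        (u ∈ el.map Prod.fst → ReadOK (al u) (par u) (l.map fun d => d.snd)) →
        (l.map g).prod ∈ QW C.N (C.c u, rootInd (el.map Prod.fst) u) := by
  classical
  rw [CertData.okR, Bool.and_eq_true, Bool.and_eq_true, Bool.and_eq_true, decide_eq_true_eq,
    List.all_eq_true, List.all_eq_true] at h
  obtain ⟨⟨⟨hN, h1⟩, h2⟩, h3⟩ := h
  have hnd : ∀ u, (C.nb u).Nodup := fun u => by
    have := h1 u (List.mem_finRange u)
    rw [Bool.and_eq_true] at this
    exact of_decide_eq_true this.1
  have hnb : ∀ u v, v ∈ C.nb u ↔ K.Adj u v := fun u v => by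
    have := h1 u (List.mem_finRange u)
    rw [Bool.and_eq_true, List.all_eq_true] at this
    exact of_decide_eq_true (this.2 v (List.mem_finRange v))
  have hS : ∀ q ∈ S, q.1 ≠ q.2 ∧ (q.2, q.1) ∈ S ∧ monoOK C.N C.k (C.code q.1 q.2) = true ∧
      invW C.N C.k C.s (C.code q.1 q.2) (C.code q.2 q.1) = true := fun q hq => by
    have := h2 q hq
    simp only [Bool.and_eq_true, decide_eq_true_eq] at this
    exact ⟨this.1.1.1, this.1.1.2, this.1.2, this.2⟩
  let K0 : SimpleGraph (Fin m) :=
    { Adj := fun u v => (u, v) ∈ S ∧ (v, u) ∈ S ∧ u ≠ v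
      symm := ⟨fun a b h => ⟨h.2.1, h.1, h.2.2.symm⟩⟩
      loopless := ⟨fun a h => h.2.2 rfl⟩ }
  let F : K0.Dart → ℤ → ℤ := fun d => flo C.N C.k C.s (C.code d.fst d.snd)
  obtain ⟨g0, hg1, hg2⟩ := exists_homW K0 C.N hN F
    (fun d => monoOK_fl hN (hS (d.fst, d.snd) d.adj.1).2.2.1)
    (fun d i => by
      have := fl_add C.N C.k C.s (C.code d.fst d.snd) i hN 1
      rw [one_mul] at this
      exact this)
    (fun d j => invW_fl hN (hS (d.fst, d.snd) d.adj.1).2.2.2 j)
  let g : Fin m → Fin m → HN C.N := fun u v => if h : K0.Adj u v then g0 ⟨(u, v), h⟩ else 1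
  have hst : ElimStR C al par g [] S := by
    refine ⟨fun u v _ => ?_, fun p hp i x hx => ?_, fun u hu => absurd hu (by simp)⟩
    · by_cases h : K0.Adj u v
      · simp only [g]
        rw [dif_pos h, dif_pos h.symm]
        have := hg1 ⟨(v, u), h.symm⟩
        exact this
      · have h' : ¬ K0.Adj v u := fun h' => h h'.symm
        simp only [g]
        rw [dif_neg h, dif_neg h', inv_one]
    · obtain ⟨a1, a2, -, -⟩ := hS p hp
      have h : K0.Adj p.1 p.2 := ⟨hp, a2, a1⟩
      simp only [g]
      rw [dif_pos h]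
      exact hg2 ⟨(p.1, p.2), h⟩ i x hx
  obtain ⟨g', b1, b2⟩ := run_soundR C al wit par hN hnd el [] S g hst h3
  refine ⟨fun d => g' d.fst d.snd, fun d => ?_, fun u l hl hl2 hread => ?_⟩
  · exact b1 d.snd d.fst d.adj.ne.symm
  · have hmap : l.map (fun d : K.Dart => g' d.fst d.snd) = (l.map fun d => d.snd).map (g' u) := by
      rw [List.map_map]
      refine List.map_congr_left fun d hd => ?_
      rw [Function.comp_apply, (hl2 d).1 hd]
    rw [hmap]
    refine b2 u _ ?_ hread
    rw [List.perm_ext_iff_of_nodup _ (hnd u)]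
    · intro v
      rw [hnb u v, List.mem_map]
      constructor
      · rintro ⟨d, hd, rfl⟩
        have := (hl2 d).1 hd
        rw [← this]
        exact d.adj
      · intro hadj
        exact ⟨⟨(u, v), hadj⟩, (hl2 _).2 rfl, rfl⟩
    · refine (List.nodup_map_iff_inj_on hl).2 ?_
      intro d hd d' hd' hdd
      have e1 := (hl2 d).1 hd
      have e2 := (hl2 d').1 hd'
      exact SimpleGraph.Dart.ext _ _ (Prod.ext (e1.trans e2.symm) hdd)

/-! ### planar rotation systems -/

theorem isPlanar_iff {W : Type*} (H : SimpleGraph W) :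
    IsPlanar H ↔ ∃ rot, IsPlanarRotation H rot := Iff.rfl

variable {W U : Type*} {H : SimpleGraph W} {G : SimpleGraph U} {φ : W → U}

/-- **Planar lemma for covers**, with the rotations which occur. -/
theorem cover_planar_lemmaR [Finite W] {Γ A : Type*} [Group Γ] [AddCommMonoid A]
    [DecidableEq H.Dart] [Nonempty H.Dart]
    (hφ : IsCover H G φ) (rot : Equiv.Perm H.Dart) (hrot : IsPlanarRotation H rot)
    (g : G.Dart → Γ) (w : G.Dart → A) (Q : A → Set Γ)
    (hg : ∀ d, g (flip G d) = (g d)⁻¹)
    (hmul : ∀ a b x y, x ∈ Q a → y ∈ Q b → x * y ∈ Q (a + b))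
    (hconj : ∀ a x h, x ∈ Q a → h * x * h⁻¹ ∈ Q a)
    (hv : ∀ (l : List H.Dart), CycList rot l → ∀ u : U, (∀ d ∈ l, φ d.fst = u) →
      (l.map hφ.dart).Nodup → (∀ e, e ∈ l.map hφ.dart ↔ e.fst = u) →
      ((l.map hφ.dart).map g).prod ∈ Q (((l.map hφ.dart).map w).sum)) :
    (1 : Γ) ∈ Q (∑ᶠ d : H.Dart, w (hφ.dart d)) := by
  obtain ⟨hrot, heul⟩ := hrot
  refine planar_lemma rot (flip H) (fun d => g (hφ.dart d)) (fun d => w (hφ.dart d)) Q
    (fun x => x.symm_symm) ?_ (fun x => ?_) (fun x hx => ?_) hmul hconj ?_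
  · unfold defect cyc orb ncl
    rw [card_edgeSet_eq, card_dart_eq]
    have h2 : (fun x y => (rot * flip H) x = y) = fun x y => rot (flip H x) = y := by
      funext x y; rw [Perm.mul_apply]
    rw [h2]
    have : ((Nat.card (Quot fun x y => rot x = y) +
        Nat.card (Quot fun x y => rot (flip H x) = y) : ℕ) : ℤ) =
        ((Nat.card H.edgeSet + 2 * Nat.card (Quot fun x y => rot x = y ∨ flip H x = y) : ℕ) :
          ℤ) := by rw [heul]
    push_cast at this ⊢
    linarith
  · show g (hφ.dart (flip H x)) = _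
    rw [hφ.dart_symm, hg]
  · exact absurd hx (SimpleGraph.Dart.symm_ne x)
  · intro l hl
    obtain ⟨hl0, hln, -⟩ := id hl
    obtain ⟨d, hd⟩ := List.exists_mem_of_ne_nil l hl0
    have h1 : ∀ x, x ∈ l ↔ x.fst = d.fst := by
      intro x
      constructor
      · intro hx
        exact (hrot x d).1 (hl.sameCycle hx hd)
      · intro hx
        exact hl.mem_of_sameCycle hd ((hrot d x).2 hx.symm)
    have h2 := hv l hl (φ d.fst) (fun x hx => by rw [(h1 x).1 hx]) ?_ ?_
    · rw [List.map_map, List.map_map] at h2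
      exact h2
    · refine List.Nodup.map_on ?_ hln
      intro x hx y hy hxy
      exact hφ.dart_inj (((h1 x).1 hx).trans ((h1 y).1 hy).symm) hxy
    · intro e
      rw [List.mem_map]
      constructor
      · rintro ⟨x, hx, rfl⟩
        show φ x.fst = _
        rw [(h1 x).1 hx]
      · intro he
        obtain ⟨x, hx, rfl⟩ := hφ.dart_surj d.fst e he
        exact ⟨x, (h1 x).2 hx, rfl⟩

/-- A planar rotation system of a cover of `K` has a vertex where the labels of the neighbours,
read after the parent, do not satisfy `al`. -/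
theorem exists_rotation {m : ℕ} (C : CertData m) (K : SimpleGraph (Fin m)) [DecidableRel K.Adj]
    (al : Fin m → List (Fin m) → Bool) (wit : Fin m → List (Fin m)) (par : Fin m → Fin m)
    (S el : List (Fin m × Fin m)) (h : C.okR K al wit par S el = true) (hc : 0 ≤ ∑ u, C.c u)
    (r : Fin m) (hr : r ∉ el.map Prod.fst) (t : Fin m → Fin m) (ht : ∀ u, K.Adj u (t u))
    (hconn : ∀ u, u = r ∨ K.Adj r u ∨ ∃ w, K.Adj r w ∧ K.Adj w u)
    {W : Type*} [Finite W] [Nonempty W] (H : SimpleGraph W)
    (φ : W → Fin m) (hcov : IsCover H K φ) (rot : Equiv.Perm H.Dart)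
    (hrot : IsPlanarRotation H rot) :
    ∃ (d : H.Dart) (l : List H.Dart), CycList rot (d :: l) ∧ φ d.fst ∈ el.map Prod.fst ∧
      φ d.snd = par (φ d.fst) ∧ al (φ d.fst) (l.map fun x => φ x.snd) = false := by
  classical
  by_contra hcon
  push Not at hcon
  obtain ⟨g, hg1, hg2⟩ := C.soundR K al wit par S el h
  obtain ⟨w0⟩ := ‹Nonempty W›
  obtain ⟨d, -, -⟩ := hcov.dart_surj w0 ⟨(φ w0, t (φ w0)), ht _⟩ rfl
  have : Nonempty H.Dart := ⟨d⟩
  have hfib : ∀ u, fib φ u = fib φ r := by
    intro u
    rcases hconn u with h1 | h1 | ⟨w, h1, h2⟩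
    · rw [h1]
    · exact (fib_eq_of_adj hcov h1).symm
    · exact ((fib_eq_of_adj hcov h1).trans (fib_eq_of_adj hcov h2)).symm
  have hpos : 1 ≤ fib φ r := by
    rw [← hfib (φ w0)]
    have : Nonempty {v // φ v = φ w0} := ⟨⟨w0, rfl⟩⟩
    exact Nat.card_pos
  set v : Fin m → ℤ × ℕ := fun u => (C.c u, rootInd (el.map Prod.fst) u) with hv
  have h1 := cover_planar_lemmaR hcov rot hrot g (wgt t v) (QW C.N) hg1
    (fun a b x y hx hy => QW_mul hx hy) (fun a x y hx => QW_conj hx y) (fun l hl u hlu hl1 hl2 => by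
      rw [wgt_sum t v u (ht u) _ hl1 hl2]
      refine hg2 u _ hl1 hl2 (fun hu l1 l2 hl12 => ?_)
      rw [List.map_map] at hl12
      obtain ⟨a1, a2, ha, hb1, hb2⟩ := List.map_eq_append_iff.1 hl12
      obtain ⟨x, a3, ha2, hx, hb3⟩ := List.map_eq_cons_iff.1 hb2
      rw [ha, ha2] at hl
      have hl' : CycList rot (x :: (a3 ++ a1)) := by
        have := hl.rotate
        simpa using this
      have hxu : φ x.fst = u := hlu x (by rw [ha, ha2]; simp)
      have hx2 : φ x.snd = par u := hx
      have h5 := hcon x (a3 ++ a1) hl' (by rw [hxu]; exact hu) (by rw [hxu]; exact hx2)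
      rw [hxu, List.map_append] at h5
      rw [← hb1, ← hb3]
      exact Bool.eq_true_of_not_eq_false h5)
  rw [finsum_dart hcov] at h1
  have h2 : ∑ᶠ e : K.Dart, fib φ e.fst • wgt t v e = fib φ r • ∑ u, v u := by
    rw [← wgt_total t v ht (fib φ r)]
    exact finsum_congr fun e => by rw [hfib e.fst]
  rw [h2] at h1
  refine one_notMem_QW ?_ ?_ h1
  · have e1 : (fib φ r • ∑ u, v u).1 = fib φ r • ∑ u, C.c u := by
      rw [Prod.smul_fst, Prod.fst_sum]
    rw [e1]
    exact nsmul_nonneg hc _
  · have e1 : (fib φ r • ∑ u, v u).2 = fib φ r • ∑ u, rootInd (el.map Prod.fst) u := by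
      rw [Prod.smul_snd, Prod.snd_sum]
    rw [e1, smul_eq_mul]
    have e2 : 1 ≤ ∑ u, rootInd (el.map Prod.fst) u := by
      have e3 : rootInd (el.map Prod.fst) r ≤ ∑ u, rootInd (el.map Prod.fst) u :=
        Finset.single_le_sum (f := fun u => rootInd (el.map Prod.fst) u)
          (fun _ _ => Nat.zero_le _) (Finset.mem_univ r)
      rw [rootInd, if_neg hr] at e3
      exact e3
    exact Nat.mul_pos hpos e2

end Pool.Agent.Lib.MP_5854e1_co
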