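import Pool.Agent.Lib.MP_5854e1_co.CertRot

/-!
A positivity certificate for `K_{1,2,2,2}` with restricted rotations at the vertex `1`.
-/

set_option autoImplicit false

namespace Pool.Agent.Lib.MP_5854e1_co

def K1222nb : List (List (Fin 7)) := [[1, 2, 3, 4, 5, 6], [0, 3, 4, 5, 6], [0, 3, 4, 5, 6],
  [0, 1, 2, 5, 6], [0, 1, 2, 5, 6], [0, 1, 2, 3, 4], [0, 1, 2, 3, 4]]

/-- the darts of the octahedron -/
def K1222S : List (Fin 7 × Fin 7) :=
  [(1, 3), (1, 4), (1, 5), (1, 6), (2, 3), (2, 4), (2, 5), (2, 6), (3, 1), (3, 2), (3, 5), (3, 6),
   (4, 1), (4, 2), (4, 5), (4, 6), (5, 1), (5, 2), (5, 3), (5, 4), (6, 1), (6, 2), (6, 3), (6, 4)]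

def K1222el : List (Fin 7 × Fin 7) := [(1, 0), (2, 0), (3, 0), (4, 0), (5, 0), (6, 0)]

def KR_cert_tab : List (List ℕ) := [[0, 56760828057503396049953015674636515228840108658916204145906301497499809832285, 25882937594223620128272615150417894871742371151421036125146262599557549988121, 59939434428728383513377921651556093476986815591618246969779967233918643889252, 38143276454645293018775631169793325193672220569682962643251461060511220905012, 66750733795629295854358631982805712323250077260012459939969315061422223487859, 30423803838824255268153945080714077749682701853318021736885318673683267658531], 
  [0, 0, 0, 44046402572626160612103472728795008085361523576149402370629538020397104054593, 51765875134303919718617946909512544485481753949203408633319417906586188927570, 51765875188436915572530222438519202215798236691011808190135629609172762514002, 44500489197086224123568456983702382026793386608131177758982484359928638227010], 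
  [0, 0, 0, 31331977087744382291083913590586139772061289968349799562724335057615314036005, 52674048437367367159791792408409167747305043108636072841571594696560481686612, 38597363079105398473858931211568579289332882807867730421686927438457328710965, 46770922319386541680893378258411194152497287923768541420447875308256542279495], 
  [0, 34510583458964826871338803375138356850386348370936011243132456410201560198444, 47679095568306668703823346768283256174875876038791619934629313692325829495113, 0, 0, 49438681238089414810750160756160376343234390511653397685474291995535458782541, 46316835694926478169428394003475163141307993866256225615190422907275727750726], 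
  [0, 40867796201405716031848582944219305698382379001636964192068889930829779319354, 39959622952485584162897610335284914433138736339922568813060786897440013301816, 0, 0, 38597363079105398473809699039639210393572294195198604746399622340806389871925, 44500489197086224123568456983731039096508115535260020568768687236618314203714], 
  [0, 40867796201405711185827578884777394705779969283748360735516319700476080306746, 54036308310747551411374067501806362212801739179425194607523590315954255910743, 42684142699245970077708519963986915051793640774857756845198842124998042074686, 54036308310747557864259267188939345775780647186029872202006863222131809277783, 0, 0], 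
  [0, 37689182873884266651063636347543034385294530408573699979215968458244686623539, 33148323585584636336943850610330263816818466198397508723852397054451706833193, 32694236961124572825478866355394232805629172140886747493493897311775902672936, 35872843332345017405733756139946449883954230543472959055361369163235830279983, 0, 0]]

def KR_cert : CertData 7 where
  N := 32
  k := 8
  s := 2
  code := fun u v => (KR_cert_tab.getD u.1 []).getD v.1 0
  nb := fun u => K1222nb.getD u.1 []
  c := fun _ => 0

/-- at the vertex `1` the first two neighbours after the apex are not `{3, 6}` or `{4, 5}` -/
def alR (u : Fin 7) (l : List (Fin 7)) : Bool :=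
  decide (u ≠ 1) || match l with
    | x :: y :: _ => decide ((x, y) ∉ ([(3, 6), (6, 3), (4, 5), (5, 4)] : List (Fin 7 × Fin 7)))
    | _ => true

/-- an admissible order at every vertex of the octahedron -/
def witR (u : Fin 7) : List (Fin 7) :=
  ([[], [3, 5, 4, 6], [3, 4, 5, 6], [1, 2, 5, 6], [1, 2, 5, 6], [1, 2, 3, 4], [1, 2, 3, 4]] :
    List (List (Fin 7))).getD u.1 []

theorem KR_ok : KR_cert.okR K1222 alR witR (fun _ => 0) K1222S K1222el = true := by
  decide +kernel

end Pool.Agent.Lib.MP_5854e1_co
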