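import Pool.Agent.Lib.MP_5854e1_co.Cyc

/-!
The planar lemma: in a combinatorial map of genus zero, labelled by a group, the product of the
vertex words (up to conjugation) is trivial.
-/

set_option autoImplicit false

open Equiv Equiv.Perm

namespace Pool.Agent.Lib.MP_5854e1_co

variable {D : Type*} [Finite D] [DecidableEq D]

/-- Twice the Euler defect: `V + E + F - |D| - 2 C`, for the permutations `σ` (vertices), `α`
(edges) and `σ * α` (faces). It is zero for maps of genus zero and negative otherwise. -/
noncomputable def defect (σ α : Perm D) : ℤ :=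
  (cyc σ : ℤ) + cyc α + cyc (σ * α) - Nat.card D - 2 * orb σ α

/-- Removing the edge `{d, e}` from an involution. -/
def cutEdge (α : Perm D) (d e : D) : Perm D := swap d e * α

section cut

variable {α : Perm D} {d e : D}

theorem cutEdge_left (h1 : α d = e) : cutEdge α d e d = d := by
  rw [cutEdge, Perm.mul_apply, h1, swap_apply_right]

theorem cutEdge_right (h2 : α e = d) : cutEdge α d e e = e := by
  rw [cutEdge, Perm.mul_apply, h2, swap_apply_left]

theorem cutEdge_of_ne (h1 : α d = e) (h2 : α e = d) {x : D} (hd : x ≠ d) (he : x ≠ e) :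
    cutEdge α d e x = α x := by
  rw [cutEdge, Perm.mul_apply, swap_apply_of_ne_of_ne]
  · intro h; exact he (α.injective (h.trans h2.symm))
  · intro h; exact hd (α.injective (h.trans h1.symm))

theorem cutEdge_eq (h1 : α d = e) (h2 : α e = d) : cutEdge α d e = α * swap d e := by
  ext x
  by_cases hd : x = d
  · subst hd
    rw [cutEdge_left h1, Perm.mul_apply, swap_apply_left, h2]
  · by_cases he : x = e
    · subst he
      rw [cutEdge_right h2, Perm.mul_apply, swap_apply_right, h1]
    · rw [cutEdge_of_ne h1 h2 hd he, Perm.mul_apply, swap_apply_of_ne_of_ne hd he]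

theorem cutEdge_invol (hα : ∀ x, α (α x) = x) (h1 : α d = e) (x : D) :
    cutEdge α d e (cutEdge α d e x) = x := by
  have h2 : α e = d := by rw [← h1, hα]
  by_cases hd : x = d
  · subst hd; rw [cutEdge_left h1, cutEdge_left h1]
  · by_cases he : x = e
    · subst he; rw [cutEdge_right h2, cutEdge_right h2]
    · rw [cutEdge_of_ne h1 h2 hd he, cutEdge_of_ne h1 h2, hα]
      · intro h; exact he (by rw [← h1, ← h, hα])
      · intro h; exact hd (by rw [← h2, ← h, hα])

theorem cyc_cutEdge (hα : ∀ x, α (α x) = x) (h1 : α d = e) (hde : d ≠ e) :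
    cyc (cutEdge α d e) = cyc α + 1 := by
  have h2 : α e = d := by rw [← h1, hα]
  rw [cutEdge_eq h1 h2]
  refine cyc_mul_swap_of_sameCycle hde ?_
  rw [← h1]; exact sameCycle_apply_right.2 (SameCycle.refl _ _)

theorem mul_swap_mul_cutEdge (σ : Perm D) : σ * swap d e * cutEdge α d e = σ * α := by
  rw [cutEdge, ← mul_assoc, mul_swap_swap]

theorem card_moved_cutEdge (hα : ∀ x, α (α x) = x) (h1 : α d = e) (hde : d ≠ e) :
    Nat.card {x // cutEdge α d e x ≠ x} < Nat.card {x // α x ≠ x} := by
  have h2 : α e = d := by rw [← h1, hα]
  have hss : {x | cutEdge α d e x ≠ x} ⊂ {x | α x ≠ x} := by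
    constructor
    · intro x hx h
      apply hx
      by_cases hd : x = d
      · rw [hd]; exact cutEdge_left h1
      · by_cases he : x = e
        · rw [he]; exact cutEdge_right h2
        · rw [cutEdge_of_ne h1 h2 hd he]; exact h
    · intro hs
      have hd : d ∈ {x | α x ≠ x} := by
        show α d ≠ d
        rw [h1]; exact hde.symm
      exact hs hd (cutEdge_left h1)
  exact Set.ncard_lt_ncard hss (Set.toFinite _)

open Relation in
/-- The orbits before and after cutting an edge. -/
theorem orb_cutEdge (σ : Perm D) (hα : ∀ x, α (α x) = x) (h1 : α d = e) :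
    orb σ α = ncl (fun x y => ((σ * swap d e) x = y ∨ cutEdge α d e x = y) ∨
      (x = d ∧ y = e)) := by
  have h2 : α e = d := by rw [← h1, hα]
  symm
  have hde : EqvGen (fun x y => σ x = y ∨ α x = y) d e := EqvGen.rel _ _ (Or.inr h1)
  refine eqvGen_mul_swap_insert σ α (cutEdge α d e) d e ?_ ?_ hde
  · intro x y h
    have hde' : EqvGen (fun x y => (((σ * swap d e) x = y) ∨ cutEdge α d e x = y) ∨
        (x = d ∧ y = e)) d e := EqvGen.rel _ _ (Or.inr ⟨rfl, rfl⟩)
    have hs : ∀ z, EqvGen (fun x y => (((σ * swap d e) x = y) ∨ cutEdge α d e x = y) ∨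
        (x = d ∧ y = e)) z ((σ * swap d e) z) := fun z => EqvGen.rel _ _ (Or.inl (Or.inl rfl))
    have ha : ∀ z, EqvGen (fun x y => (((σ * swap d e) x = y) ∨ cutEdge α d e x = y) ∨
        (x = d ∧ y = e)) z (cutEdge α d e z) := fun z => EqvGen.rel _ _ (Or.inl (Or.inr rfl))
    induction h with
    | rel x y h =>
      rcases h with h | h
      · subst h
        by_cases hd : x = d
        · subst hd
          refine EqvGen.trans _ _ _ hde' ?_
          have := hs e
          rwa [Perm.mul_apply, swap_apply_right] at this
        · by_cases he : x = e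
          · subst he
            refine EqvGen.trans _ _ _ (EqvGen.symm _ _ hde') ?_
            have := hs d
            rwa [Perm.mul_apply, swap_apply_left] at this
          · have := hs x
            rwa [Perm.mul_apply, swap_apply_of_ne_of_ne hd he] at this
      · subst h
        by_cases hd : x = d
        · subst hd; rw [h1]; exact hde'
        · by_cases he : x = e
          · subst he; rw [h2]; exact EqvGen.symm _ _ hde'
          · have := ha x
            rwa [cutEdge_of_ne h1 h2 hd he] at this
    | refl x => exact EqvGen.refl _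
    | symm x y _ ih => exact EqvGen.symm _ _ ih
    | trans x y z _ _ ih1 ih2 => exact EqvGen.trans _ _ _ ih1 ih2
  · intro x y h
    have hs : ∀ z, EqvGen (fun x y => σ x = y ∨ α x = y) z (σ z) := fun z =>
      EqvGen.rel _ _ (Or.inl rfl)
    induction h with
    | rel x y h =>
      rcases h with h | h
      · subst h
        by_cases hd : x = d
        · subst hd
          rw [Perm.mul_apply, swap_apply_left]
          exact EqvGen.trans _ _ _ hde (hs _)
        · by_cases he : x = e
          · subst he
            rw [Perm.mul_apply, swap_apply_right]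
            exact EqvGen.trans _ _ _ (EqvGen.symm _ _ hde) (hs _)
          · rw [Perm.mul_apply, swap_apply_of_ne_of_ne hd he]
            exact hs _
      · subst h
        by_cases hd : x = d
        · subst hd; rw [cutEdge_left h1]; exact EqvGen.refl _
        · by_cases he : x = e
          · subst he; rw [cutEdge_right h2]; exact EqvGen.refl _
          · rw [cutEdge_of_ne h1 h2 hd he]; exact EqvGen.rel _ _ (Or.inr rfl)
    | refl x => exact EqvGen.refl _
    | symm x y _ ih => exact EqvGen.symm _ _ ih
    | trans x y z _ _ ih1 ih2 => exact EqvGen.trans _ _ _ ih1 ih2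

open Relation in
theorem orb_cutEdge_le (σ : Perm D) (hα : ∀ x, α (α x) = x) (h1 : α d = e) :
    orb (σ * swap d e) (cutEdge α d e) ≤ orb σ α + 1 ∧
      orb σ α ≤ orb (σ * swap d e) (cutEdge α d e) := by
  rw [orb_cutEdge σ hα h1]
  by_cases h : EqvGen (fun x y => (σ * swap d e) x = y ∨ cutEdge α d e x = y) d e
  · rw [ncl_insert_of_rel h]
    exact ⟨Nat.le_succ _, le_rfl⟩
  · have h3 := ncl_insert_of_not_rel h
    rw [h3]
    refine ⟨le_rfl, ?_⟩
    show _ ≤ ncl _
    rw [← h3]; exact Nat.le_succ _

open Relation in
theorem orb_cutEdge_eq (σ : Perm D) (hα : ∀ x, α (α x) = x) (h1 : α d = e)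
    (h : (σ * swap d e).SameCycle d e) :
    orb (σ * swap d e) (cutEdge α d e) = orb σ α := by
  rw [orb_cutEdge σ hα h1]
  refine (ncl_insert_of_rel ?_).symm
  exact ((eqvGen_iff_sameCycle _ _ _).2 h).mono fun _ _ => Or.inl

/-- Contracting an edge between different vertices keeps the defect. -/
theorem defect_cutEdge_of_not (σ : Perm D) (hα : ∀ x, α (α x) = x) (h1 : α d = e)
    (hde : d ≠ e) (h : ¬ σ.SameCycle d e) :
    defect (σ * swap d e) (cutEdge α d e) = defect σ α := by
  unfold defect
  rw [mul_swap_mul_cutEdge, cyc_cutEdge hα h1 hde,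
    orb_cutEdge_eq σ hα h1 (sameCycle_mul_swap_of_not h)]
  have := cyc_mul_swap_of_not h
  push_cast
  omega

theorem defect_cutEdge_of_sameCycle (σ : Perm D) (hα : ∀ x, α (α x) = x) (h1 : α d = e)
    (hde : d ≠ e) (h : σ.SameCycle d e) :
    defect (σ * swap d e) (cutEdge α d e) =
      defect σ α + 2 - 2 * ((orb (σ * swap d e) (cutEdge α d e) : ℤ) - orb σ α) := by
  unfold defect
  rw [mul_swap_mul_cutEdge, cyc_cutEdge hα h1 hde, cyc_mul_swap_of_sameCycle hde h]
  push_cast
  ring

end cut

theorem defect_one (σ : Perm D) : defect σ 1 = 0 := by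
  have h : orb σ 1 = cyc σ := orb_eq_cyc_of_sameCycle _ _ fun x => SameCycle.refl _ _
  rw [defect, mul_one, h, cyc_one]
  ring

theorem eq_one_of_not_moved {α : Perm D} (h : ∀ x, α x = x) : α = 1 := by
  ext x; exact h x

/-- The genus is not negative. -/
theorem defect_le_zero (σ α : Perm D) (hα : ∀ x, α (α x) = x) : defect σ α ≤ 0 := by
  induction hn : Nat.card {x // α x ≠ x} using Nat.strong_induction_on generalizing σ α with
  | _ n ih =>
    by_cases hm : ∃ d, α d ≠ d
    · obtain ⟨d, hd⟩ := hm
      have hlt := card_moved_cutEdge hα rfl hd.symm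
      rw [hn] at hlt
      have hi := ih _ hlt (σ * swap d (α d)) (cutEdge α d (α d)) (cutEdge_invol hα rfl) rfl
      by_cases hs : σ.SameCycle d (α d)
      · rw [defect_cutEdge_of_sameCycle σ hα rfl hd.symm hs] at hi
        have := (orb_cutEdge_le (d := d) σ hα rfl).1
        omega
      · rwa [defect_cutEdge_of_not σ hα rfl hd.symm hs] at hi
    · push Not at hm
      rw [eq_one_of_not_moved hm, defect_one]

section labels

variable {G : Type*} [Group G]

/-- The label of the two ends of the edge `{d, e}` is replaced by `1`. -/
def cutLabel (g : D → G) (d e : D) : D → G := fun x => if x = d ∨ x = e then 1 else g x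

theorem cutLabel_left (g : D → G) (d e : D) : cutLabel g d e d = 1 := by simp [cutLabel]

theorem cutLabel_right (g : D → G) (d e : D) : cutLabel g d e e = 1 := by simp [cutLabel]

theorem cutLabel_of_ne (g : D → G) {d e x : D} (hd : x ≠ d) (he : x ≠ e) :
    cutLabel g d e x = g x := by simp [cutLabel, hd, he]

theorem map_cutLabel (g : D → G) {d e : D} {l : List D} (hd : d ∉ l) (he : e ∉ l) :
    l.map (cutLabel g d e) = l.map g := by
  refine List.map_congr_left fun x hx => cutLabel_of_ne g ?_ ?_
  · rintro rfl; exact hd hx
  · rintro rfl; exact he hx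

theorem cutLabel_inv {α : Perm D} {g : D → G} {d e : D} (hα : ∀ x, α (α x) = x)
    (h1 : α d = e) (hg : ∀ x, g (α x) = (g x)⁻¹) (x : D) :
    cutLabel g d e (cutEdge α d e x) = (cutLabel g d e x)⁻¹ := by
  have h2 : α e = d := by rw [← h1, hα]
  by_cases hd : x = d
  · subst hd; rw [cutEdge_left h1, cutLabel_left, inv_one]
  · by_cases he : x = e
    · subst he; rw [cutEdge_right h2, cutLabel_right, inv_one]
    · rw [cutEdge_of_ne h1 h2 hd he, cutLabel_of_ne g hd he, cutLabel_of_ne, hg]
      · intro h; exact he (by rw [← h1, ← h, hα])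
      · intro h; exact hd (by rw [← h2, ← h, hα])

theorem cutLabel_fix {α : Perm D} {g : D → G} {d e : D} (hα : ∀ x, α (α x) = x)
    (h1 : α d = e) (hf : ∀ x, α x = x → g x = 1) (x : D) (hx : cutEdge α d e x = x) :
    cutLabel g d e x = 1 := by
  have h2 : α e = d := by rw [← h1, hα]
  by_cases hd : x = d
  · subst hd; exact cutLabel_left _ _ _
  · by_cases he : x = e
    · subst he; exact cutLabel_right _ _ _
    · rw [cutEdge_of_ne h1 h2 hd he] at hx
      rw [cutLabel_of_ne g hd he, hf x hx]

/-- In genus zero, if every edge is a loop then all vertex words are trivial. -/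
theorem word_eq_one_of_loops (σ α : Perm D) (g : D → G) (hα : ∀ x, α (α x) = x)
    (h0 : defect σ α = 0) (hl : ∀ x, σ.SameCycle x (α x)) (hg : ∀ x, g (α x) = (g x)⁻¹)
    (hf : ∀ x, α x = x → g x = 1) (l : List D) (hcl : CycList σ l) :
    (l.map g).prod = 1 := by
  induction hn : Nat.card {x // α x ≠ x} using Nat.strong_induction_on
    generalizing σ α g l with
  | _ n ih =>
    by_cases hm : ∃ d, α d ≠ d
    · obtain ⟨d, hd⟩ := hm
      have hlt := card_moved_cutEdge hα rfl hd.symm
      rw [hn] at hlt
      set τ := σ * swap d (α d) with hτ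
      set β := cutEdge α d (α d) with hβ
      have hβi : ∀ x, β (β x) = x := cutEdge_invol hα rfl
      have hle := defect_le_zero τ β hβi
      have hEq := defect_cutEdge_of_sameCycle σ hα rfl hd.symm (hl d)
      rw [← hτ, ← hβ] at hEq
      have h3 := (orb_cutEdge_le (d := d) σ hα rfl).1
      rw [← hτ, ← hβ] at h3
      have h4 : orb σ α = cyc σ := orb_eq_cyc_of_sameCycle _ _ hl
      have h5 : cyc τ = cyc σ + 1 := cyc_mul_swap_of_sameCycle hd.symm (hl d)
      have h6 : orb τ β = cyc τ := by
        have := cyc_le_of_orb τ β
        omega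
      have h7 : defect τ β = 0 := by
        rw [hEq, h6, h5, h4, h0]; push_cast; ring
      have hi := fun l hcl => ih _ hlt τ β (cutLabel g d (α d)) hβi h7
        (sameCycle_of_orb_eq τ β h6) (cutLabel_inv hα rfl hg) (cutLabel_fix hα rfl hf) l hcl rfl
      by_cases hdl : d ∈ l
      · obtain ⟨u, v, rfl, hc⟩ := hcl.exists_cons hdl
        have hel : α d ∈ d :: (v ++ u) := hc.mem_of_sameCycle List.mem_cons_self (hl d)
        have hel' : α d ∈ v ++ u := (List.mem_cons.1 hel).resolve_left hd
        obtain ⟨A, B, hAB⟩ := List.append_of_mem hel'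
        rw [hAB] at hc
        obtain ⟨hA, hB⟩ := hc.cut
        have hA1 := hi _ hA
        have hB1 := hi _ hB
        have hn' := hc.2.1
        simp only [List.nodup_cons, List.mem_append, List.mem_cons, not_or,
          List.nodup_append] at hn'
        obtain ⟨⟨hdA, -, hdB⟩, hnA, ⟨heB, hnB⟩, hdisj⟩ := hn'
        have heA : α d ∉ A := fun hh => hdisj _ hh _ (by simp) rfl
        rw [List.map_cons, List.prod_cons, cutLabel_right, one_mul, map_cutLabel g hdA heA] at hA1
        rw [List.map_cons, List.prod_cons, cutLabel_left, one_mul, map_cutLabel g hdB heB] at hB1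
        have h8 : ((d :: (v ++ u)).map g).prod = 1 := by
          rw [hAB]
          simp only [List.map_cons, List.map_append, List.prod_cons, List.prod_append, hA1, hB1,
            hg d]
          simp
        rw [List.map_append, List.map_cons, List.prod_append, List.prod_cons]
        rw [List.map_cons, List.map_append, List.prod_cons, List.prod_append] at h8
        have h9 : (g d * (v.map g).prod) * (u.map g).prod = 1 := by rw [mul_assoc]; exact h8
        rw [mul_eq_one_iff_eq_inv.1 h9]
        simp
      · have hel : α d ∉ l := fun hh => hdl (hcl.mem_of_sameCycle hh (hl d).symm)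
        have hc : CycList τ l := hcl.congr fun a ha => by
          rw [hτ, Perm.mul_apply, swap_apply_of_ne_of_ne (by rintro rfl; exact hdl ha)
            (by rintro rfl; exact hel ha)]
        have := hi l hc
        rwa [map_cutLabel g hdl hel] at this
    · push Not at hm
      have : ∀ x ∈ l.map g, x = 1 := by
        intro x hx
        obtain ⟨y, -, rfl⟩ := List.mem_map.1 hx
        exact hf y (hm y)
      exact List.prod_eq_one this

variable {A : Type*} [AddCommMonoid A]

/-- **Planar lemma.** Let `σ` (rotation), `α` (involution matching the two darts of an edge) be a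
combinatorial map of genus zero, `g` labels with `g (α x) = (g x)⁻¹`, and `Q a` (for `a` in a
commutative monoid) conjugation invariant sets with `Q a * Q b ⊆ Q (a + b)`. If the word of every
vertex lies in `Q` of the total weight of the vertex, then `1` lies in `Q` of the total weight. -/
theorem planar_lemma [Nonempty D] (σ α : Perm D) (g : D → G) (w : D → A) (Q : A → Set G)
    (hα : ∀ x, α (α x) = x) (h0 : defect σ α = 0) (hg : ∀ x, g (α x) = (g x)⁻¹)
    (hf : ∀ x, α x = x → g x = 1)
    (hmul : ∀ a b x y, x ∈ Q a → y ∈ Q b → x * y ∈ Q (a + b))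
    (hconj : ∀ a x h, x ∈ Q a → h * x * h⁻¹ ∈ Q a)
    (hv : ∀ l, CycList σ l → (l.map g).prod ∈ Q ((l.map w).sum)) :
    (1 : G) ∈ Q (∑ᶠ x, w x) := by
  classical
  induction hn : Nat.card {x // α x ≠ x} using Nat.strong_induction_on
    generalizing σ α g with
  | _ n ih =>
    by_cases hm : ∃ d, ¬ σ.SameCycle d (α d)
    · obtain ⟨d, hd⟩ := hm
      have hde : d ≠ α d := fun h => hd (by rw [← h])
      have hlt := card_moved_cutEdge hα rfl hde
      rw [hn] at hlt
      refine ih _ hlt (σ * swap d (α d)) (cutEdge α d (α d)) (cutLabel g d (α d))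
        (cutEdge_invol hα rfl) ((defect_cutEdge_of_not σ hα rfl hde hd).trans h0)
        (cutLabel_inv hα rfl hg) (cutLabel_fix hα rfl hf) ?_ rfl
      intro l hl
      have hsc := sameCycle_mul_swap_of_not hd
      by_cases hdl : d ∈ l
      · obtain ⟨u, v, rfl, hc⟩ := hl.exists_cons hdl
        have hel : α d ∈ d :: (v ++ u) := hc.mem_of_sameCycle List.mem_cons_self hsc
        have hel' : α d ∈ v ++ u := (List.mem_cons.1 hel).resolve_left hde.symm
        obtain ⟨B, C, hBC⟩ := List.append_of_mem hel'
        rw [hBC] at hc
        have hn' := hc.2.1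
        obtain ⟨hB, hC⟩ := hc.cut
        rw [mul_swap_swap] at hB hC
        have hB1 := hv _ hB
        have hC1 := hv _ hC
        simp only [List.nodup_cons, List.mem_append, List.mem_cons, not_or,
          List.nodup_append] at hn'
        obtain ⟨⟨hdB, -, hdC⟩, hnB, ⟨heC, hnC⟩, hdisj⟩ := hn'
        have heB : α d ∉ B := fun hh => hdisj _ hh _ (by simp) rfl
        have h8 : ((d :: (v ++ u)).map (cutLabel g d (α d))).prod ∈
            Q (((d :: (v ++ u)).map w).sum) := by
          rw [hBC]
          simp only [List.map_cons, List.map_append, List.prod_cons, List.prod_append,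
            List.sum_cons, List.sum_append, cutLabel_left, cutLabel_right, one_mul,
            map_cutLabel g hdB heB, map_cutLabel g hdC heC]
          simp only [List.map_cons, List.prod_cons, List.sum_cons, hg d] at hB1 hC1
          have h9 := hmul _ _ _ _ (hconj _ _ (g d) hB1) hC1
          have e1 : g d * ((g d)⁻¹ * (B.map g).prod) * (g d)⁻¹ * (g d * (C.map g).prod) =
              (B.map g).prod * (C.map g).prod := by group
          have e2 : w (α d) + (B.map w).sum + (w d + (C.map w).sum) =
              w d + ((B.map w).sum + (w (α d) + (C.map w).sum)) := by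
            abel
          rw [e1, e2] at h9
          exact h9
        have h10 := hconj _ _ ((u.map (cutLabel g d (α d))).prod) h8
        have e3 : ((u ++ d :: v).map (cutLabel g d (α d))).prod =
            (u.map (cutLabel g d (α d))).prod *
              ((d :: (v ++ u)).map (cutLabel g d (α d))).prod *
              ((u.map (cutLabel g d (α d))).prod)⁻¹ := by
          simp only [List.map_cons, List.map_append, List.prod_cons, List.prod_append]
          group
        have e4 : ((u ++ d :: v).map w).sum = ((d :: (v ++ u)).map w).sum := by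
          simp only [List.map_cons, List.map_append, List.sum_cons, List.sum_append]
          abel
        rw [e3, e4]
        exact h10
      · have hel : α d ∉ l := fun hh => hdl (hl.mem_of_sameCycle hh hsc.symm)
        have hc : CycList σ l := hl.congr fun a ha => by
          rw [Perm.mul_apply, swap_apply_of_ne_of_ne (by rintro rfl; exact hdl ha)
            (by rintro rfl; exact hel ha)]
        rw [map_cutLabel g hdl hel]
        exact hv l hc
    · push Not at hm
      have hw : ∀ l, CycList σ l → (1 : G) ∈ Q ((l.map w).sum) := by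
        intro l hl
        have := hv l hl
        rwa [word_eq_one_of_loops σ α g hα h0 hm hg hf l hl] at this
      have := Fintype.ofFinite D
      have key : ∀ (S : Finset D), S.Nonempty → (∀ x ∈ S, ∀ y, σ.SameCycle x y → y ∈ S) →
          (1 : G) ∈ Q (∑ x ∈ S, w x) := by
        intro S
        induction S using Finset.strongInduction with
        | H S ihS =>
          intro hne hcl
          obtain ⟨x, hx⟩ := hne
          obtain ⟨l, hl⟩ := exists_cycList σ x
          have hsub : (x :: l).toFinset ⊆ S := by
            intro y hy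
            rw [List.mem_toFinset] at hy
            exact hcl x hx y (hl.sameCycle List.mem_cons_self hy)
          have hsum : ∑ y ∈ (x :: l).toFinset, w y = ((x :: l).map w).sum :=
            List.sum_toFinset w hl.2.1
          have h1 := hw _ hl
          rw [← hsum] at h1
          rw [← Finset.sum_sdiff hsub]
          by_cases hemp : (S \ (x :: l).toFinset).Nonempty
          · have h2 := ihS (S \ (x :: l).toFinset) (by
              refine Finset.sdiff_ssubset hsub ⟨x, by simp⟩) hemp (by
              intro y hy z hyz
              rw [Finset.mem_sdiff, List.mem_toFinset] at hy ⊢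
              refine ⟨hcl y hy.1 z hyz, fun hz => hy.2 ?_⟩
              exact hl.mem_of_sameCycle hz hyz.symm)
            have h3 := hmul _ _ _ _ h2 h1
            rwa [one_mul] at h3
          · rw [Finset.not_nonempty_iff_eq_empty] at hemp
            rw [hemp, Finset.sum_empty, zero_add]
            exact h1
      have := key Finset.univ Finset.univ_nonempty (fun _ _ _ _ => Finset.mem_univ _)
      rwa [finsum_eq_sum_of_fintype]

end labels

end Pool.Agent.Lib.MP_5854e1_co
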