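import Pool.Agent.Lib.MP_5854e1_co.Defs
import Pool.Agent.Lib.MP_5854e1_co.Planar

/-!
The planar lemma for finite planar covers.
-/

set_option autoImplicit false

open Equiv Equiv.Perm

namespace Pool.Agent.Lib.MP_5854e1_co

variable {W U : Type*} {H : SimpleGraph W} {G : SimpleGraph U} {φ : W → U}

theorem IsCover.adj (hφ : IsCover H G φ) {v w : W} (h : H.Adj v w) : G.Adj (φ v) (φ w) :=
  (hφ v).mapsTo h

/-- The dart of `G` under a dart of `H`. -/
def IsCover.dart (hφ : IsCover H G φ) (d : H.Dart) : G.Dart :=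
  ⟨(φ d.fst, φ d.snd), hφ.adj d.adj⟩

theorem IsCover.dart_symm (hφ : IsCover H G φ) (d : H.Dart) :
    hφ.dart (flip H d) = flip G (hφ.dart d) := rfl

theorem IsCover.dart_inj (hφ : IsCover H G φ) {d e : H.Dart} (h1 : d.fst = e.fst)
    (h2 : hφ.dart d = hφ.dart e) : d = e := by
  have h3 : φ d.snd = φ e.snd := congrArg (fun x : G.Dart => x.snd) h2
  have h4 : d.snd = e.snd := by
    refine (hφ d.fst).injOn d.adj ?_ h3
    rw [h1]; exact e.adj
  exact SimpleGraph.Dart.ext _ _ (Prod.ext h1 h4)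

theorem IsCover.dart_surj (hφ : IsCover H G φ) (v : W) (e : G.Dart) (h : e.fst = φ v) :
    ∃ d : H.Dart, d.fst = v ∧ hφ.dart d = e := by
  have he : e.snd ∈ G.neighborSet (φ v) := by rw [← h]; exact e.adj
  obtain ⟨w, hw, hw2⟩ := (hφ v).surjOn he
  refine ⟨⟨(v, w), hw⟩, rfl, ?_⟩
  exact SimpleGraph.Dart.ext _ _ (Prod.ext h.symm hw2)

section finite

variable [Finite W]

instance finiteDart : Finite H.Dart := by
  apply Finite.of_injective (fun d : H.Dart => d.toProd)
  exact SimpleGraph.Dart.toProd_injective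

theorem card_edgeSet_eq (H : SimpleGraph W) :
    Nat.card (Quot fun x y => flip H x = y) = Nat.card H.edgeSet := by
  refine Nat.card_congr (Equiv.ofBijective
    (Quot.lift (fun d => (⟨d.edge, d.edge_mem⟩ : H.edgeSet)) ?_) ⟨?_, ?_⟩)
  · intro x y h
    apply Subtype.ext
    rw [← h]
    exact (SimpleGraph.Dart.edge_symm x).symm
  · intro p q
    induction p using Quot.ind with
    | mk x =>
    induction q using Quot.ind with
    | mk y =>
      intro h
      have h2 : x.edge = y.edge := congrArg Subtype.val h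
      rcases (SimpleGraph.dart_edge_eq_iff x y).1 h2 with h3 | h3
      · rw [h3]
      · exact Quot.sound (show flip H x = y by rw [h3]; exact y.symm_symm)
  · rintro ⟨e, he⟩
    induction e using Sym2.ind with
    | _ a b => exact ⟨Quot.mk _ ⟨(a, b), he⟩, rfl⟩

theorem card_dart_eq (H : SimpleGraph W) : Nat.card H.Dart = 2 * Nat.card H.edgeSet := by
  classical
  have := Fintype.ofFinite W
  rw [Nat.card_eq_fintype_card, SimpleGraph.dart_card_eq_twice_card_edges,
    Nat.card_eq_fintype_card, SimpleGraph.edgeFinset_card]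

/-- **Planar lemma for covers.** -/
theorem cover_planar_lemma {Γ A : Type*} [Group Γ] [AddCommMonoid A] [DecidableEq H.Dart]
    [Nonempty H.Dart]
    (hφ : IsCover H G φ) (hpl : IsPlanar H) (g : G.Dart → Γ) (w : G.Dart → A) (Q : A → Set Γ)
    (hg : ∀ d, g (flip G d) = (g d)⁻¹)
    (hmul : ∀ a b x y, x ∈ Q a → y ∈ Q b → x * y ∈ Q (a + b))
    (hconj : ∀ a x h, x ∈ Q a → h * x * h⁻¹ ∈ Q a)
    (hv : ∀ (u : U) (l : List G.Dart), l.Nodup → (∀ d, d ∈ l ↔ d.fst = u) →
      (l.map g).prod ∈ Q ((l.map w).sum)) :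
    (1 : Γ) ∈ Q (∑ᶠ d : H.Dart, w (hφ.dart d)) := by
  obtain ⟨rot, hrot, heul⟩ := hpl
  refine planar_lemma rot (flip H) (fun d => g (hφ.dart d)) (fun d => w (hφ.dart d)) Q
    (fun x => x.symm_symm) ?_ (fun x => ?_) (fun x hx => ?_) hmul hconj ?_
  · unfold defect cyc orb ncl
    rw [card_edgeSet_eq, card_dart_eq]
    have h2 : (fun x y => (rot * flip H) x = y) = fun x y => rot (flip H x) = y := by
      funext x y; rw [Perm.mul_apply]
    rw [h2]
    have : ((Nat.card (Quot fun x y => rot x = y) +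
        Nat.card (Quot fun x y => rot (flip H x) = y) : ℕ) : ℤ) =
        ((Nat.card H.edgeSet + 2 * Nat.card (Quot fun x y => rot x = y ∨ flip H x = y) : ℕ) :
          ℤ) := by rw [heul]
    push_cast at this ⊢
    linarith
  · show g (hφ.dart (flip H x)) = _
    rw [hφ.dart_symm, hg]
  · exact absurd hx (SimpleGraph.Dart.symm_ne x)
  · intro l hl
    obtain ⟨hl0, hln, -⟩ := id hl
    obtain ⟨d, hd⟩ := List.exists_mem_of_ne_nil l hl0
    have h1 : ∀ x, x ∈ l ↔ x.fst = d.fst := by
      intro x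
      constructor
      · intro hx
        exact (hrot x d).1 (hl.sameCycle hx hd)
      · intro hx
        exact hl.mem_of_sameCycle hd ((hrot d x).2 hx.symm)
    have h2 := hv (φ d.fst) (l.map hφ.dart) ?_ ?_
    · rw [List.map_map, List.map_map] at h2
      exact h2
    · refine List.Nodup.map_on ?_ hln
      intro x hx y hy hxy
      exact hφ.dart_inj (((h1 x).1 hx).trans ((h1 y).1 hy).symm) hxy
    · intro e
      rw [List.mem_map]
      constructor
      · rintro ⟨x, hx, rfl⟩
        show φ x.fst = _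
        rw [(h1 x).1 hx]
      · intro he
        obtain ⟨x, hx, rfl⟩ := hφ.dart_surj d.fst e he
        exact ⟨x, (h1 x).2 hx, rfl⟩

/-! ### Fibres -/

/-- The number of vertices over `u`. -/
noncomputable def fib (φ : W → U) (u : U) : ℕ := Nat.card {v // φ v = u}

theorem card_dart_fib (hφ : IsCover H G φ) (e : G.Dart) :
    Nat.card {d : H.Dart // hφ.dart d = e} = fib φ e.fst := by
  refine Nat.card_congr (Equiv.ofBijective
    (fun d => (⟨d.1.fst, congrArg (fun x : G.Dart => x.fst) d.2⟩ : {v // φ v = e.fst})) ⟨?_, ?_⟩)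
  · rintro ⟨d, hd⟩ ⟨d', hd'⟩ h
    apply Subtype.ext
    exact hφ.dart_inj (congrArg Subtype.val h) (hd.trans hd'.symm)
  · rintro ⟨v, hv⟩
    obtain ⟨d, hd1, hd2⟩ := hφ.dart_surj v e hv.symm
    exact ⟨⟨d, hd2⟩, Subtype.ext hd1⟩

theorem fib_fst_eq_snd (hφ : IsCover H G φ) (e : G.Dart) : fib φ e.fst = fib φ e.snd := by
  rw [← card_dart_fib hφ e]
  have h : fib φ e.snd = fib φ (flip G e).fst := rfl
  rw [h, ← card_dart_fib hφ (flip G e)]
  refine Nat.card_congr ⟨fun d => ⟨flip H d.1, ?_⟩, fun d => ⟨flip H d.1, ?_⟩, ?_, ?_⟩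
  · rw [hφ.dart_symm, d.2]
  · rw [hφ.dart_symm, d.2]; exact e.symm_symm
  · intro d; exact Subtype.ext d.1.symm_symm
  · intro d; exact Subtype.ext d.1.symm_symm

theorem fib_eq_of_adj (hφ : IsCover H G φ) {u v : U} (h : G.Adj u v) : fib φ u = fib φ v :=
  fib_fst_eq_snd hφ ⟨(u, v), h⟩

theorem fib_eq_of_reachable (hφ : IsCover H G φ) {u v : U} (h : G.Reachable u v) :
    fib φ u = fib φ v := by
  obtain ⟨p⟩ := h
  induction p with
  | nil => rfl
  | cons h _ ih => exact (fib_eq_of_adj hφ h).trans ih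

theorem finsum_dart (hφ : IsCover H G φ) [Finite U] {A : Type*} [AddCommMonoid A]
    (w : G.Dart → A) : ∑ᶠ d : H.Dart, w (hφ.dart d) = ∑ᶠ e : G.Dart, fib φ e.fst • w e := by
  classical
  have : Finite G.Dart := finiteDart
  have := Fintype.ofFinite H.Dart
  have := Fintype.ofFinite G.Dart
  rw [finsum_eq_sum_of_fintype, finsum_eq_sum_of_fintype]
  rw [← Finset.sum_fiberwise_of_maps_to (s := Finset.univ) (t := Finset.univ)
    (g := fun d => hφ.dart d) (fun _ _ => Finset.mem_univ _)]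
  refine Finset.sum_congr rfl fun e _ => ?_
  rw [Finset.sum_congr rfl (g := fun _ => w e)]
  · rw [Finset.sum_const, ← card_dart_fib hφ e, Nat.card_eq_fintype_card,
      Fintype.card_subtype]
  · intro d hd
    rw [(Finset.mem_filter.1 hd).2]

end finite

end Pool.Agent.Lib.MP_5854e1_co
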