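import Pool.Agent.Lib.MP_5854e1_co.CertElim
import Pool.Agent.Lib.MP_5854e1_co.Cover

/-!
Contracted certificates with weak inverses: the floor functions `A`, `B` of a homeomorphism and its
inverse only satisfy `A (B j) ≤ j` and `B (A i) ≤ i`; strict positivity is only asked at the roots
of the forest.
-/

set_option autoImplicit false

namespace Pool.Agent.Lib.MP_5854e1_co

/-- automorphisms moving every point by at least `a.1 * N`, and by more if `1 ≤ a.2` -/
def QW (N : ℕ) (a : ℤ × ℕ) : Set (HN N) :=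
  {g | (∀ x : ℝ, x + a.1 * N ≤ g.1 x) ∧ (1 ≤ a.2 → ∀ x : ℝ, x + a.1 * N < g.1 x)}

theorem QW_mul {N : ℕ} {a b : ℤ × ℕ} {f g : HN N} (hf : f ∈ QW N a) (hg : g ∈ QW N b) :
    f * g ∈ QW N (a + b) := by
  have key : ∀ x : ℝ, x + ((a + b).1 : ℤ) * N = x + b.1 * N + a.1 * N := by
    intro x
    rw [Prod.fst_add]
    push_cast
    ring
  refine ⟨fun x => ?_, fun h x => ?_⟩
  · rw [key]
    show _ ≤ f.1 (g.1 x)
    exact (hf.1 (x + b.1 * N)).trans (f.1.monotone (hg.1 x))
  · rw [key]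
    show _ < f.1 (g.1 x)
    rw [Prod.snd_add] at h
    rcases Nat.lt_or_ge 0 a.2 with ha | ha
    · exact (hf.2 ha (x + b.1 * N)).trans_le (f.1.monotone (hg.1 x))
    · have hb : 1 ≤ b.2 := by omega
      exact (hf.1 (x + b.1 * N)).trans_lt (f.1.strictMono (hg.2 hb x))

theorem QW_conj {N : ℕ} {a : ℤ × ℕ} {g : HN N} (hg : g ∈ QW N a) (h : HN N) :
    h * g * h⁻¹ ∈ QW N a := by
  have h3 : ∀ x : ℝ, h.1 (h⁻¹.1 x) = x := fun x => h.1.apply_symm_apply x
  refine ⟨fun x => ?_, fun ha x => ?_⟩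
  · show x + (a.1 : ℝ) * N ≤ h.1 (g.1 (h⁻¹.1 x))
    have h2 : h.1 (h⁻¹.1 x + a.1 * N) ≤ h.1 (g.1 (h⁻¹.1 x)) := h.1.monotone (hg.1 (h⁻¹.1 x))
    rwa [HN_apply_add, h3] at h2
  · show x + (a.1 : ℝ) * N < h.1 (g.1 (h⁻¹.1 x))
    have h2 : h.1 (h⁻¹.1 x + a.1 * N) < h.1 (g.1 (h⁻¹.1 x)) := h.1.strictMono (hg.2 ha (h⁻¹.1 x))
    rwa [HN_apply_add, h3] at h2

theorem one_notMem_QW {N : ℕ} {a : ℤ × ℕ} (h1 : 0 ≤ a.1) (h2 : 1 ≤ a.2) : (1 : HN N) ∉ QW N a := by
  intro h
  have h3 := h.2 h2 0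
  have h4 : (0 : ℝ) ≤ a.1 := by exact_mod_cast h1
  have h5 : (0 : ℝ) ≤ (N : ℝ) := Nat.cast_nonneg N
  have h6 : ((1 : HN N).1 : ℝ ≃o ℝ) 0 = 0 := rfl
  rw [h6] at h3
  nlinarith [mul_nonneg h4 h5]

/-! ### homeomorphisms -/

/-- the values at the integers -/
noncomputable def knotW (A B : ℤ → ℤ) (i : ℤ) : ℝ :=
  A i + if B (A i) = i then 0 else sig (i - A i)

theorem knotW_strictMono {A B : ℤ → ℤ} (hA : Monotone A) (hBA : ∀ i, B (A i) ≤ i) :
    StrictMono (knotW A B) := by
  intro i j hij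
  unfold knotW
  rcases (hA hij.le).eq_or_lt with h | h
  · have hne : B (A j) ≠ j := by
      have := hBA i
      rw [h] at this
      omega
    rw [if_neg hne, h]
    split_ifs with h1
    · linarith [sig_pos (j - A j)]
    · have : sig (i - A j) < sig (j - A j) := sig_strictMono (by omega)
      linarith
  · have h1 : (A i : ℝ) + 1 ≤ A j := by exact_mod_cast h
    have h2 := sig_lt_one (i - A i)
    have h3 := sig_pos (j - A j)
    split_ifs <;> linarith

theorem knotW_add {N : ℕ} {A B : ℤ → ℤ} (hA : ∀ i, A (i + N) = A i + N)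
    (hB : ∀ i, B (i + N) = B i + N) (i : ℤ) : knotW A B (i + N) = knotW A B i + N := by
  unfold knotW
  rw [hA, hB, show i + (N : ℤ) - (A i + N) = i - A i by ring]
  have h : (B (A i) + N = i + N) ↔ (B (A i) = i) := by omega
  simp only [h]
  push_cast
  ring

theorem per_mul {N : ℕ} {a : ℤ → ℝ} (hN : ∀ i, a (i + N) = a i + N) (i : ℤ) (k : ℕ) :
    a (i + k * N) = a i + k * N ∧ a (i - k * N) = a i - k * N := by
  induction k with
  | zero => simp
  | succ k ih =>
    constructor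
    · have := hN (i + k * N)
      rw [show i + ((k + 1 : ℕ) : ℤ) * N = i + k * N + N by push_cast; ring, this, ih.1]
      push_cast
      ring
    · have := hN (i - ((k + 1 : ℕ) : ℤ) * N)
      rw [show i - ((k + 1 : ℕ) : ℤ) * N + N = i - k * N by push_cast; ring, ih.2] at this
      push_cast at this ⊢
      linarith

theorem pl_surj {N : ℕ} (hN0 : 0 < N) {a : ℤ → ℝ} (hmono : StrictMono a)
    (hN : ∀ i, a (i + N) = a i + N) : Function.Surjective (pl a) := by
  intro y
  have hNr : (0 : ℝ) < N := by exact_mod_cast hN0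
  have hb : ∃ b : ℤ, ∀ z : ℤ, a z ≤ y → z ≤ b := by
    obtain ⟨k, hk⟩ := exists_nat_gt ((y - a 0) / N)
    refine ⟨0 + k * N, fun z hz => ?_⟩
    by_contra hlt
    push Not at hlt
    have h1 := hmono hlt
    rw [(per_mul hN 0 k).1] at h1
    rw [div_lt_iff₀ hNr] at hk
    linarith
  have hi : ∃ z : ℤ, a z ≤ y := by
    obtain ⟨k, hk⟩ := exists_nat_gt ((a 0 - y) / N)
    refine ⟨0 - k * N, ?_⟩
    rw [(per_mul hN 0 k).2]
    rw [div_lt_iff₀ hNr] at hk
    linarith
  obtain ⟨i, hi1, hi2⟩ := Int.exists_greatest_of_bdd hb hi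
  have hi3 : y < a (i + 1) := by
    by_contra hge
    push Not at hge
    have := hi2 (i + 1) hge
    omega
  have hpos : 0 < a (i + 1) - a i := sub_pos.2 (hmono (by omega))
  set t : ℝ := (y - a i) / (a (i + 1) - a i) with ht
  have ht0 : 0 ≤ t := div_nonneg (by linarith) hpos.le
  have ht1 : t < 1 := by
    rw [ht, div_lt_one hpos]
    linarith
  refine ⟨i + t, ?_⟩
  have hfl : ⌊(i : ℝ) + t⌋ = i := by
    rw [Int.floor_intCast_add, Int.floor_eq_zero_iff.2 ⟨ht0, ht1⟩, add_zero]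
  have hfr : Int.fract ((i : ℝ) + t) = t := by
    rw [Int.fract_intCast_add]
    exact Int.fract_eq_self.2 ⟨ht0, ht1⟩
  unfold pl
  rw [hfl, hfr, ht, div_mul_cancel₀ _ hpos.ne']
  ring

/-- a homeomorphism bounded below by `A`, with inverse bounded below by `B` -/
theorem exists_homW1 {N : ℕ} (hN0 : 0 < N) (A B : ℤ → ℤ) (hA : Monotone A)
    (hAN : ∀ i, A (i + N) = A i + N) (hBN : ∀ i, B (i + N) = B i + N)
    (hAB : ∀ j, A (B j) ≤ j) (hBA : ∀ i, B (A i) ≤ i) :
    ∃ h : HN N, (∀ (i : ℤ) (x : ℝ), (i : ℝ) ≤ x → (A i : ℝ) ≤ h.1 x) ∧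
      ∀ (i : ℤ) (x : ℝ), (i : ℝ) ≤ x → (B i : ℝ) ≤ h⁻¹.1 x := by
  have hm := knotW_strictMono hA hBA
  have hper := knotW_add hAN hBN
  let h : HN N := ⟨(pl_strictMono hm).orderIsoOfSurjective _ (pl_surj hN0 hm hper),
    fun x => pl_add hper x⟩
  have happ : ∀ x, h.1 x = pl (knotW A B) x := fun _ => rfl
  have hk0 : ∀ i, (A i : ℝ) ≤ knotW A B i := by
    intro i
    unfold knotW
    split_ifs
    · linarith
    · linarith [sig_pos (i - A i)]
  have hk1 : ∀ i, knotW A B (B i) ≤ i := by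
    intro i
    unfold knotW
    split_ifs with h1
    · rw [add_zero]
      exact_mod_cast hAB i
    · have h2 : A (B i) ≠ i := fun h3 => h1 (by rw [h3])
      have h3 : A (B i) + 1 ≤ i := by
        have := hAB i
        omega
      have h4 : (A (B i) : ℝ) + 1 ≤ i := by exact_mod_cast h3
      linarith [sig_lt_one (B i - A (B i))]
  refine ⟨h, fun i x hx => ?_, fun i x hx => ?_⟩
  · have h1 : h.1 i ≤ h.1 x := h.1.monotone hx
    rw [happ i, pl_intCast] at h1
    exact (hk0 i).trans h1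
  · have h1 : h.1 (B i) ≤ x := by
      rw [happ, pl_intCast]
      exact (hk1 i).trans hx
    have h2 : h⁻¹.1 (h.1 (B i)) ≤ h⁻¹.1 x := h⁻¹.1.monotone h1
    have h3 : h⁻¹.1 (h.1 (B i)) = B i := h.1.symm_apply_apply _
    rwa [h3] at h2

theorem exists_homW {W : Type*} (K : SimpleGraph W) (N : ℕ) (hN0 : 0 < N)
    (F : K.Dart → ℤ → ℤ) (hF : ∀ d, Monotone (F d)) (hN : ∀ d i, F d (i + N) = F d i + N)
    (hinv : ∀ d j, F d (F d.symm j) ≤ j) :
    ∃ g : K.Dart → HN N, (∀ d, g d.symm = (g d)⁻¹) ∧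
      ∀ d (i : ℤ) (x : ℝ), (i : ℝ) ≤ x → (F d i : ℝ) ≤ (g d).1 x := by
  classical
  obtain ⟨r, hr⟩ : ∃ r : W → W → Prop, ∀ a b : W, a ≠ b → (r a b ↔ ¬ r b a) := by
    obtain ⟨s, hs⟩ := exists_wellFoundedLT W
    refine ⟨fun a b => a < b, fun a b hab => ?_⟩
    rw [not_lt]
    exact ⟨le_of_lt, fun h => lt_of_le_of_ne h hab⟩
  choose H hH1 hH2 using fun d : K.Dart => exists_homW1 hN0 (F d) (F d.symm) (hF d) (hN d)
    (hN d.symm) (hinv d) (fun i => by
      have := hinv d.symm i
      rwa [SimpleGraph.Dart.symm_symm] at this)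
  let g : K.Dart → HN N := fun d => if r d.fst d.snd then H d else (H d.symm)⁻¹
  refine ⟨g, fun d => ?_, fun d i x hx => ?_⟩
  · have hne : d.fst ≠ d.snd := d.fst_ne_snd
    have hs1 : d.symm.fst = d.snd := rfl
    have hs2 : d.symm.snd = d.fst := rfl
    by_cases h : r d.fst d.snd
    · have h' : ¬ r d.symm.fst d.symm.snd := by
        rw [hs1, hs2]
        exact (hr _ _ hne).1 h
      simp only [g]
      rw [if_neg h', if_pos h]
      simp only [SimpleGraph.Dart.symm_symm]
    · have h' : r d.symm.fst d.symm.snd := by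
        rw [hs1, hs2]
        exact (hr _ _ hne.symm).2 h
      simp only [g]
      rw [if_pos h', if_neg h, inv_inv]
  · simp only [g]
    split_ifs with h
    · exact hH1 d i x hx
    · have := hH2 d.symm i x hx
      rwa [SimpleGraph.Dart.symm_symm] at this

/-! ### words -/

theorem prod_geW {N : ℕ} {T : Type*} (F : T → ℤ → ℤ) (g : T → HN N) (l : List T)
    (h : ∀ d ∈ l, ∀ (i : ℤ) (x : ℝ), (i : ℝ) ≤ x → (F d i : ℝ) ≤ (g d).1 x) (i : ℤ)
    (x : ℝ) (hx : (i : ℝ) ≤ x) : ((l.foldr F i : ℤ) : ℝ) ≤ (l.map g).prod.1 x := by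
  induction l with
  | nil => simpa using hx
  | cons d l ih =>
    rw [List.foldr_cons, List.map_cons, List.prod_cons]
    exact h d List.mem_cons_self _ _ (ih fun e he => h e (List.mem_cons_of_mem _ he))

theorem prod_memW {N : ℕ} {T : Type*} (F : T → ℤ → ℤ) (g : T → HN N) (l : List T)
    (h : ∀ d ∈ l, ∀ (i : ℤ) (x : ℝ), (i : ℝ) ≤ x → (F d i : ℝ) ≤ (g d).1 x) (c : ℤ)
    (hl : ∀ i : ℤ, i + 1 + c * N ≤ l.foldr F i) (n : ℕ) : (l.map g).prod ∈ QW N (c, n) := by
  have key : ∀ x : ℝ, x + (c : ℝ) * N < (l.map g).prod.1 x := by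
    intro x
    have h1 := prod_geW F g l h ⌊x⌋ x (Int.floor_le x)
    have h2 : ((⌊x⌋ + 1 + c * N : ℤ) : ℝ) ≤ ((l.foldr F ⌊x⌋ : ℤ) : ℝ) := by
      exact_mod_cast hl ⌊x⌋
    have h3 := Int.lt_floor_add_one x
    push_cast at h2
    linarith
  exact ⟨fun x => (key x).le, fun _ => key⟩

theorem QW_rotate {N : ℕ} {a : ℤ × ℕ} {T : Type*} (g : T → HN N) (l1 l2 : List T) (d : T)
    (h : ((l2 ++ l1 ++ [d]).map g).prod ∈ QW N a) : ((l1 ++ d :: l2).map g).prod ∈ QW N a := by
  have h1 := QW_conj h ((l1.map g).prod * g d)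
  have h2 : ((l1.map g).prod * g d) * ((l2 ++ l1 ++ [d]).map g).prod *
      ((l1.map g).prod * g d)⁻¹ = ((l1 ++ d :: l2).map g).prod := by
    simp only [List.map_append, List.map_cons, List.map_nil, List.prod_append, List.prod_cons,
      List.prod_nil, mul_one]
    group
  rw [h2] at h1
  exact h1

theorem exists_belowW {N : ℕ} (W : List (HN N)) (hW : W ≠ []) (B : ℤ → ℤ) (c : ℤ)
    (h : ∀ w ∈ W, ∀ i : ℤ, ((B i + c * N : ℤ) : ℝ) ≤ w.1 i) :
    ∃ g : HN N, (∀ w ∈ W, ∀ x : ℝ, g.1 x + c * N ≤ w.1 x) ∧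
      ∀ (i : ℤ) (x : ℝ), (i : ℝ) ≤ x → (B i : ℝ) ≤ g.1 x := by
  obtain ⟨m, h1, h2⟩ := exists_min W hW
  refine ⟨trans N (-(c * N : ℝ)) * m, fun w hw x => ?_, fun i x hx => ?_⟩
  · show m.1 x + -(c * N : ℝ) + c * N ≤ w.1 x
    have := h1 w hw x
    linarith
  · show (B i : ℝ) ≤ m.1 x + -(c * N : ℝ)
    obtain ⟨w, hw, hxw⟩ := h2 i
    have h4 := h w hw i
    rw [← hxw] at h4
    have h5 : m.1 i ≤ m.1 x := m.1.monotone hx
    push_cast at h4
    linarith

/-! ### the elimination -/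

/-- the state of the elimination -/
structure ElimStW {m : ℕ} (C : CertData m) (g : Fin m → Fin m → HN C.N) (done : List (Fin m))
    (S : List (Fin m × Fin m)) : Prop where
  inv : ∀ u v, u ≠ v → g u v = (g v u)⁻¹
  lb : ∀ p ∈ S, ∀ (i : ℤ) (x : ℝ), (i : ℝ) ≤ x →
    (flo C.N C.k C.s (C.code p.1 p.2) i : ℝ) ≤ (g p.1 p.2).1 x
  word : ∀ u ∈ done, ∀ l : List (Fin m), l.Perm (C.nb u) →
    (l.map (g u)).prod ∈ QW C.N (C.c u, 0)

theorem elim_stepW {m : ℕ} (C : CertData m) (hN : 0 < C.N) (hnd : ∀ u, (C.nb u).Nodup)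
    (g : Fin m → Fin m → HN C.N) (done : List (Fin m)) (S : List (Fin m × Fin m))
    (hst : ElimStW C g done S) (v p : Fin m) (hvp : v ≠ p) (hv : v ∉ done) (hp : p ∉ done)
    (hpn : p ∈ C.nb v) (h1 : (v, p) ∉ S) (h2 : (p, v) ∉ S)
    (h3 : ∀ w ∈ (C.nb v).erase p, (v, w) ∈ S) (h4 : C.elimOK v p = true) :
    ∃ g' : Fin m → Fin m → HN C.N, ElimStW C g' (v :: done) ((p, v) :: S) := by
  classical
  set os := (C.nb v).erase p with hos
  set W : List (HN C.N) := os.permutations.map (fun l => (l.map (g v)).prod) with hW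
  have hWne : W ≠ [] := by
    rw [hW]
    intro h0
    rw [List.map_eq_nil_iff] at h0
    have : os ∈ os.permutations := List.mem_permutations.2 (List.Perm.refl _)
    rw [h0] at this
    simp at this
  obtain ⟨G, hG1, hG2⟩ := exists_belowW W hWne (flo C.N C.k C.s (C.code p v)) (C.c v) (by
      intro w hw i
      rw [hW, List.mem_map] at hw
      obtain ⟨l, hl, rfl⟩ := hw
      rw [List.mem_permutations] at hl
      have hb := elim_bound C hN v p h4 l hl i
      have hgt := prod_geW (fun w y => flo C.N C.k C.s (C.code v w) y) (g v) l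
        (fun d hd => hst.lb (v, d) (h3 d (hl.subset hd))) i i le_rfl
      have hb' : ((flo C.N C.k C.s (C.code p v) i + C.c v * C.N : ℤ) : ℝ) ≤
          ((l.foldr (fun w y => flo C.N C.k C.s (C.code v w) y) i : ℤ) : ℝ) := by exact_mod_cast hb
      exact hb'.trans hgt)
  let g' : Fin m → Fin m → HN C.N := fun a b =>
    if a = p ∧ b = v then G else if a = v ∧ b = p then G⁻¹ else g a b
  have hgpv : g' p v = G := by simp [g']
  have hgvp : g' v p = G⁻¹ := by
    show (if v = p ∧ p = v then G else if v = v ∧ p = p then G⁻¹ else g v p) = G⁻¹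
    rw [if_neg (fun h => hvp h.1), if_pos ⟨rfl, rfl⟩]
  have hgo : ∀ a b, ¬ (a = p ∧ b = v) → ¬ (a = v ∧ b = p) → g' a b = g a b := fun a b ha hb => by
    simp only [g']
    rw [if_neg ha, if_neg hb]
  refine ⟨g', ?_, ?_, ?_⟩
  · intro a b hab
    by_cases ha : a = p ∧ b = v
    · rw [ha.1, ha.2, hgpv, hgvp, inv_inv]
    · by_cases hb : a = v ∧ b = p
      · rw [hb.1, hb.2, hgpv, hgvp]
      · rw [hgo a b ha hb, hgo b a (fun h => hb ⟨h.2, h.1⟩) (fun h => ha ⟨h.2, h.1⟩)]
        exact hst.inv a b hab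
  · intro q hq i x hx
    rcases List.mem_cons.1 hq with rfl | hq
    · show (flo C.N C.k C.s (C.code p v) i : ℝ) ≤ (g' p v).1 x
      rw [hgpv]
      exact hG2 i x hx
    · have e1 : ¬ (q.1 = p ∧ q.2 = v) := fun h => h2 (by
        have : q = (p, v) := Prod.ext h.1 h.2
        rwa [this] at hq)
      have e2 : ¬ (q.1 = v ∧ q.2 = p) := fun h => h1 (by
        have : q = (v, p) := Prod.ext h.1 h.2
        rwa [this] at hq)
      rw [hgo _ _ e1 e2]
      exact hst.lb q hq i x hx
  · intro u hu l hl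
    rcases List.mem_cons.1 hu with rfl | hu
    · have hpl : p ∈ l := hl.symm.subset hpn
      obtain ⟨l1, l2, hl12⟩ := List.append_of_mem hpl
      rw [hl12]
      apply QW_rotate
      have hperm : (l2 ++ l1).Perm os := by
        have e1 : (p :: (l2 ++ l1)).Perm (C.nb u) := by
          refine List.Perm.trans ?_ hl
          rw [hl12, ← List.cons_append]
          exact List.perm_append_comm
        have e2 := e1.erase p
        rwa [List.erase_cons_head] at e2
      have hmap : (l2 ++ l1).map (g' u) = (l2 ++ l1).map (g u) := by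
        refine List.map_congr_left fun w hw => ?_
        have hw2 : w ∈ os := hperm.subset hw
        have hwp : w ≠ p := by
          rintro rfl
          exact List.Nodup.not_mem_erase (hnd u) hw2
        exact hgo _ _ (fun h => hvp h.1) (fun h => hwp h.2)
      refine ⟨fun x => ?_, fun h0 => absurd h0 (by simp)⟩
      rw [List.map_append, List.prod_append, hmap, List.map_singleton, List.prod_singleton, hgvp]
      show x + (C.c u : ℝ) * C.N ≤ (((l2 ++ l1).map (g u)).prod).1 (G⁻¹.1 x)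
      have h5 := hG1 (((l2 ++ l1).map (g u)).prod) (by
        rw [hW, List.mem_map]
        exact ⟨l2 ++ l1, List.mem_permutations.2 hperm, rfl⟩) (G⁻¹.1 x)
      have h6 : G.1 (G⁻¹.1 x) = x := G.1.apply_symm_apply x
      rw [h6] at h5
      exact h5
    · have huv : u ≠ v := fun h => hv (h ▸ hu)
      have hup : u ≠ p := fun h => hp (h ▸ hu)
      have hmap : l.map (g' u) = l.map (g u) :=
        List.map_congr_left fun w _ => hgo _ _ (fun h => hup h.1) (fun h => huv h.1)
      rw [hmap]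
      exact hst.word u hu l hl

theorem root_wordW {m : ℕ} (C : CertData m) (hN : 0 < C.N)
    (g : Fin m → Fin m → HN C.N) (done : List (Fin m)) (S : List (Fin m × Fin m))
    (hst : ElimStW C g done S) (u : Fin m) (h3 : ∀ w ∈ C.nb u, (u, w) ∈ S)
    (h4 : C.rootOK u = true) (l : List (Fin m)) (hl : l.Perm (C.nb u)) (n : ℕ) :
    (l.map (g u)).prod ∈ QW C.N (C.c u, n) := by
  rw [CertData.rootOK, Bool.and_eq_true, decide_eq_true_eq] at h4
  obtain ⟨h0, h5⟩ := h4
  cases hnb : C.nb u with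
  | nil => rw [hnb] at h5; exact absurd h5 (by simp)
  | cons v vs =>
    rw [hnb] at h5
    have h6 : dfsT C.N C.k ((List.range C.N).map fun j => j + 1 + (C.rootT u).toNat)
        (vs.length + 1) (vs.map (C.code u))
        ((List.range C.N).map (stp C.N C.k (C.code u v))) = true := h5
    have hvl : v ∈ l := hl.symm.subset (by rw [hnb]; exact List.mem_cons_self)
    obtain ⟨l1, l2, hl12⟩ := List.append_of_mem hvl
    rw [hl12]
    apply QW_rotate
    have hperm : (l2 ++ l1).Perm vs := by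
      have e1 : (v :: (l2 ++ l1)).Perm (v :: vs) := by
        rw [hnb] at hl
        refine List.Perm.trans ?_ hl
        rw [hl12, ← List.cons_append]
        exact List.perm_append_comm
      exact (List.perm_cons v).1 e1
    have hperm2 : (l2 ++ l1 ++ [v]).Perm (C.nb u) := by
      rw [hnb]
      exact (List.perm_append_singleton v (l2 ++ l1)).trans (hperm.cons v)
    refine prod_memW (fun w y => flo C.N C.k C.s (C.code u w) y) (g u) _
      (fun d hd => hst.lb (u, d) (h3 d (hperm2.subset hd))) _ ?_ n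
    intro i
    rw [foldr_codes]
    refine foldl_ge hN _ (fun i => i + 1 + C.c u * C.N) (fun i q => by ring)
      (fun j hj => ?_) i
    have hlist : ((l2 ++ l1 ++ [v]).reverse).map (C.code u) =
        C.code u v :: ((l2 ++ l1).reverse).map (C.code u) := by
      rw [List.reverse_append, List.reverse_singleton, List.singleton_append, List.map_cons]
    have hperm3 : (((l2 ++ l1).reverse).map (C.code u)).Perm (vs.map (C.code u)) :=
      ((List.reverse_perm _).trans hperm).map _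
    have h2 := dfsT_sound _ _ _ _ h6 _ hperm3 j (by simpa using hj) (by simpa using hj)
    simp only [List.getElem_map, List.getElem_range] at h2
    have hlen : (((l2 ++ l1 ++ [v]).reverse).map (C.code u)).length = (C.nb u).length := by
      rw [List.length_map, List.length_reverse, hperm2.length_eq]
    rw [hlen, hlist, List.foldl_cons]
    have h3' : ((C.rootT u).toNat : ℤ) = C.c u * C.N + (C.nb u).length * C.s * C.N :=
      Int.toNat_of_nonneg h0
    have h4' : ((j : ℕ) : ℤ) + 1 + ((C.rootT u).toNat : ℤ) ≤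
        (((((l2 ++ l1).reverse).map (C.code u)).foldl (fun x c => stp C.N C.k c x)
          (stp C.N C.k (C.code u v) j) : ℕ) : ℤ) := by
      exact_mod_cast h2
    rw [h3'] at h4'
    linarith

/-- `1` at the vertices which are not eliminated -/
def rootInd {m : ℕ} (done : List (Fin m)) (u : Fin m) : ℕ := if u ∈ done then 0 else 1

theorem run_soundW {m : ℕ} (C : CertData m) (hN : 0 < C.N) (hnd : ∀ u, (C.nb u).Nodup) :
    ∀ (el : List (Fin m × Fin m)) (done : List (Fin m)) (S : List (Fin m × Fin m))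
      (g : Fin m → Fin m → HN C.N), ElimStW C g done S → C.run el done S = true →
      ∃ g' : Fin m → Fin m → HN C.N, (∀ u v, u ≠ v → g' u v = (g' v u)⁻¹) ∧
        ∀ u, ∀ l : List (Fin m), l.Perm (C.nb u) →
          (l.map (g' u)).prod ∈ QW C.N (C.c u, rootInd (done ++ el.map Prod.fst) u) := by
  intro el
  induction el with
  | nil =>
    intro done S g hst h
    refine ⟨g, hst.inv, fun u l hl => ?_⟩
    rw [CertData.run, List.all_eq_true] at h
    have h1 := h u (List.mem_finRange u)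
    rw [Bool.or_eq_true, decide_eq_true_eq, Bool.and_eq_true, List.all_eq_true] at h1
    rw [List.map_nil, List.append_nil]
    by_cases hu : u ∈ done
    · rw [rootInd, if_pos hu]
      exact hst.word u hu l hl
    · rcases h1 with h1 | ⟨h1, h2⟩
      · exact absurd h1 hu
      · exact root_wordW C hN g done S hst u (fun w hw => of_decide_eq_true (h2 w hw)) h1 l hl _
  | cons q el ih =>
    obtain ⟨v, p⟩ := q
    intro done S g hst h
    rw [CertData.run] at h
    simp only [Bool.and_eq_true, decide_eq_true_eq, List.all_eq_true] at h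
    obtain ⟨⟨⟨⟨⟨⟨⟨⟨a1, a2⟩, a3⟩, a4⟩, a5⟩, a6⟩, a7⟩, a8⟩, a9⟩ := h
    obtain ⟨g', hg'⟩ := elim_stepW C hN hnd g done S hst v p a1 a2 a3 a4 a5 a6 a7 a8
    obtain ⟨g'', b1, b2⟩ := ih _ _ g' hg' a9
    refine ⟨g'', b1, fun u l hl => ?_⟩
    have h3 := b2 u l hl
    have h4 : rootInd (v :: done ++ el.map Prod.fst) u =
        rootInd (done ++ ((v, p) :: el).map Prod.fst) u := by
      unfold rootInd
      congr 1
      simp only [List.mem_append, List.mem_cons, List.map_cons, eq_iff_iff]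
      tauto
    rw [h4] at h3
    exact h3

/-- `F (G j) ≤ j` for the floor functions with codes `c` and `c'` -/
def invW (N k s c c' : ℕ) : Bool :=
  (List.range N).all (fun j => decide (stp N k c (stp N k c' j) ≤ j + 2 * (s * N)))

theorem invW_fl {N k s c c' : ℕ} (hN : 0 < N) (h : invW N k s c c' = true) (j : ℤ) :
    flo N k s c (flo N k s c' j) ≤ j := by
  rw [invW, List.all_eq_true] at h
  have hNz : (0 : ℤ) < N := by exact_mod_cast hN
  have e1 : 0 ≤ j % N := Int.emod_nonneg j hNz.ne'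
  obtain ⟨i, hi⟩ := Int.eq_ofNat_of_zero_le e1
  have e3 : i < N := by
    have := Int.emod_lt_of_pos j hNz
    omega
  have e5 : j = (i : ℤ) + (j / N) * N := by
    have := Int.emod_add_mul_ediv j N
    rw [← hi]
    linarith
  rw [e5, fl_add _ _ _ _ _ hN, fl_add _ _ _ _ _ hN, fl_nat]
  have e6 : ((stp N k c' i : ℕ) : ℤ) - s * N = (stp N k c' i : ℕ) + (-(s : ℤ)) * N := by ring
  rw [e6, fl_add _ _ _ _ _ hN, fl_nat]
  have h2 := h i (List.mem_range.2 e3)
  rw [decide_eq_true_eq] at h2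
  have h3 : ((stp N k c (stp N k c' i) : ℕ) : ℤ) ≤ i + 2 * (s * N) := by exact_mod_cast h2
  linarith

/-- the whole check: `S` is the list of darts of the edges outside the forest, `el` the list of the
eliminated vertices with their parents, leaves first -/
def CertData.okW {m : ℕ} (C : CertData m) (K : SimpleGraph (Fin m)) [DecidableRel K.Adj]
    (S el : List (Fin m × Fin m)) : Bool :=
  decide (0 < C.N) &&
    ((List.finRange m).all fun u => decide ((C.nb u).Nodup) &&
      (List.finRange m).all (fun v => decide (v ∈ C.nb u ↔ K.Adj u v))) &&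
    (S.all fun q => decide (q.1 ≠ q.2) && decide ((q.2, q.1) ∈ S) &&
      monoOK C.N C.k (C.code q.1 q.2) &&
      invW C.N C.k C.s (C.code q.1 q.2) (C.code q.2 q.1)) &&
    C.run el [] S

theorem CertData.soundW {m : ℕ} (C : CertData m) (K : SimpleGraph (Fin m)) [DecidableRel K.Adj]
    (S el : List (Fin m × Fin m)) (h : C.okW K S el = true) :
    ∃ g : K.Dart → HN C.N, (∀ d, g d.symm = (g d)⁻¹) ∧
      ∀ u, ∀ l : List K.Dart, l.Nodup → (∀ d, d ∈ l ↔ d.fst = u) →
        (l.map g).prod ∈ QW C.N (C.c u, rootInd (el.map Prod.fst) u) := by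
  classical
  rw [CertData.okW, Bool.and_eq_true, Bool.and_eq_true, Bool.and_eq_true, decide_eq_true_eq,
    List.all_eq_true, List.all_eq_true] at h
  obtain ⟨⟨⟨hN, h1⟩, h2⟩, h3⟩ := h
  have hnd : ∀ u, (C.nb u).Nodup := fun u => by
    have := h1 u (List.mem_finRange u)
    rw [Bool.and_eq_true] at this
    exact of_decide_eq_true this.1
  have hnb : ∀ u v, v ∈ C.nb u ↔ K.Adj u v := fun u v => by
    have := h1 u (List.mem_finRange u)
    rw [Bool.and_eq_true, List.all_eq_true] at this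
    exact of_decide_eq_true (this.2 v (List.mem_finRange v))
  have hS : ∀ q ∈ S, q.1 ≠ q.2 ∧ (q.2, q.1) ∈ S ∧ monoOK C.N C.k (C.code q.1 q.2) = true ∧
      invW C.N C.k C.s (C.code q.1 q.2) (C.code q.2 q.1) = true := fun q hq => by
    have := h2 q hq
    simp only [Bool.and_eq_true, decide_eq_true_eq] at this
    exact ⟨this.1.1.1, this.1.1.2, this.1.2, this.2⟩
  let K0 : SimpleGraph (Fin m) :=
    { Adj := fun u v => (u, v) ∈ S ∧ (v, u) ∈ S ∧ u ≠ v
      symm := ⟨fun a b h => ⟨h.2.1, h.1, h.2.2.symm⟩⟩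
      loopless := ⟨fun a h => h.2.2 rfl⟩ }
  let F : K0.Dart → ℤ → ℤ := fun d => flo C.N C.k C.s (C.code d.fst d.snd)
  obtain ⟨g0, hg1, hg2⟩ := exists_homW K0 C.N hN F
    (fun d => monoOK_fl hN (hS (d.fst, d.snd) d.adj.1).2.2.1)
    (fun d i => by
      have := fl_add C.N C.k C.s (C.code d.fst d.snd) i hN 1
      rw [one_mul] at this
      exact this)
    (fun d j => invW_fl hN (hS (d.fst, d.snd) d.adj.1).2.2.2 j)
  let g : Fin m → Fin m → HN C.N := fun u v => if h : K0.Adj u v then g0 ⟨(u, v), h⟩ else 1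
  have hst : ElimStW C g [] S := by
    refine ⟨fun u v _ => ?_, fun p hp i x hx => ?_, fun u hu => absurd hu (by simp)⟩
    · by_cases h : K0.Adj u v
      · simp only [g]
        rw [dif_pos h, dif_pos h.symm]
        have := hg1 ⟨(v, u), h.symm⟩
        exact this
      · have h' : ¬ K0.Adj v u := fun h' => h h'.symm
        simp only [g]
        rw [dif_neg h, dif_neg h', inv_one]
    · obtain ⟨a1, a2, -, -⟩ := hS p hp
      have h : K0.Adj p.1 p.2 := ⟨hp, a2, a1⟩
      simp only [g]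
      rw [dif_pos h]
      exact hg2 ⟨(p.1, p.2), h⟩ i x hx
  obtain ⟨g', b1, b2⟩ := run_soundW C hN hnd el [] S g hst h3
  refine ⟨fun d => g' d.fst d.snd, fun d => ?_, fun u l hl hl2 => ?_⟩
  · exact b1 d.snd d.fst d.adj.ne.symm
  · have hmap : l.map (fun d : K.Dart => g' d.fst d.snd) = (l.map fun d => d.snd).map (g' u) := by
      rw [List.map_map]
      refine List.map_congr_left fun d hd => ?_
      rw [Function.comp_apply, (hl2 d).1 hd]
    rw [hmap]
    refine b2 u _ ?_
    rw [List.perm_ext_iff_of_nodup _ (hnd u)]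
    · intro v
      rw [hnb u v, List.mem_map]
      constructor
      · rintro ⟨d, hd, rfl⟩
        have := (hl2 d).1 hd
        rw [← this]
        exact d.adj
      · intro hadj
        exact ⟨⟨(u, v), hadj⟩, (hl2 _).2 rfl, rfl⟩
    · refine (List.nodup_map_iff_inj_on hl).2 ?_
      intro d hd d' hd' hdd
      have e1 := (hl2 d).1 hd
      have e2 := (hl2 d').1 hd'
      exact SimpleGraph.Dart.ext _ _ (Prod.ext (e1.trans e2.symm) hdd)

/-! ### no planar cover -/

/-- the weight `v u` is put on the dart from `u` to `t u` -/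
def wgt {m : ℕ} {K : SimpleGraph (Fin m)} (t : Fin m → Fin m) (v : Fin m → ℤ × ℕ)
    (d : K.Dart) : ℤ × ℕ := if d.snd = t d.fst then v d.fst else 0

theorem wgt_sum {m : ℕ} {K : SimpleGraph (Fin m)} (t : Fin m → Fin m) (v : Fin m → ℤ × ℕ)
    (u : Fin m) (ht : K.Adj u (t u)) (l : List K.Dart) (hl : l.Nodup)
    (hl2 : ∀ d, d ∈ l ↔ d.fst = u) : (l.map (wgt t v)).sum = v u := by
  have hd0 : (⟨(u, t u), ht⟩ : K.Dart) ∈ l := (hl2 _).2 rfl
  obtain ⟨l1, l2, hl12⟩ := List.append_of_mem hd0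
  have hz : ∀ d ∈ l1 ++ l2, wgt t v d = 0 := by
    intro d hd
    have hdl : d ∈ l := by
      rw [hl12]
      rcases List.mem_append.1 hd with h | h
      · exact List.mem_append_left _ h
      · exact List.mem_append_right _ (List.mem_cons_of_mem _ h)
    have hfst := (hl2 d).1 hdl
    unfold wgt
    rw [if_neg]
    intro hsnd
    have heq : d = (⟨(u, t u), ht⟩ : K.Dart) :=
      SimpleGraph.Dart.ext _ _ (Prod.ext hfst (by rw [hsnd, hfst]))
    rw [hl12] at hl
    have hnm : (⟨(u, t u), ht⟩ : K.Dart) ∉ l1 ++ l2 := by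
      have := (List.nodup_middle.1 hl)
      exact (List.nodup_cons.1 this).1
    rw [heq] at hd
    exact hnm hd
  rw [hl12, List.map_append, List.map_cons, List.sum_append, List.sum_cons]
  have h1 : (l1.map (wgt t v)).sum = 0 := List.sum_eq_zero (by
    intro x hx
    obtain ⟨d, hd, rfl⟩ := List.mem_map.1 hx
    exact hz d (List.mem_append_left _ hd))
  have h2 : (l2.map (wgt t v)).sum = 0 := List.sum_eq_zero (by
    intro x hx
    obtain ⟨d, hd, rfl⟩ := List.mem_map.1 hx
    exact hz d (List.mem_append_right _ hd))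
  rw [h1, h2, zero_add, add_zero]
  show (if t u = t u then v u else 0) = v u
  rw [if_pos rfl]

theorem wgt_total {m : ℕ} {K : SimpleGraph (Fin m)} (t : Fin m → Fin m) (v : Fin m → ℤ × ℕ)
    (ht : ∀ u, K.Adj u (t u)) (k : ℕ) :
    ∑ᶠ e : K.Dart, k • wgt t v e = k • ∑ u, v u := by
  classical
  have : Finite K.Dart := finiteDart
  have := Fintype.ofFinite K.Dart
  rw [finsum_eq_sum_of_fintype, ← Finset.smul_sum]
  congr 1
  unfold wgt
  rw [← Finset.sum_filter]
  refine Finset.sum_bij (fun d _ => d.fst) (fun _ _ => Finset.mem_univ _) ?_ ?_ (fun _ _ => rfl)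
  · intro d hd d' hd' h
    rw [Finset.mem_filter] at hd hd'
    exact SimpleGraph.Dart.ext _ _ (Prod.ext h (by rw [hd.2, hd'.2, h]))
  · intro u _
    exact ⟨⟨(u, t u), ht u⟩, by rw [Finset.mem_filter]; exact ⟨Finset.mem_univ _, rfl⟩, rfl⟩

theorem no_coverW {m : ℕ} (C : CertData m) (K : SimpleGraph (Fin m)) [DecidableRel K.Adj]
    (S el : List (Fin m × Fin m)) (h : C.okW K S el = true) (hc : 0 ≤ ∑ u, C.c u)
    (r : Fin m) (hr : r ∉ el.map Prod.fst) (t : Fin m → Fin m) (ht : ∀ u, K.Adj u (t u))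
    (hconn : ∀ u, u = r ∨ K.Adj r u ∨ ∃ w, K.Adj r w ∧ K.Adj w u)
    {W : Type*} [Finite W] [Nonempty W] (H : SimpleGraph W)
    (φ : W → Fin m) (hcov : IsCover H K φ) : ¬ IsPlanar H := by
  classical
  intro hpl
  obtain ⟨g, hg1, hg2⟩ := C.soundW K S el h
  obtain ⟨w0⟩ := ‹Nonempty W›
  obtain ⟨d, -, -⟩ := hcov.dart_surj w0 ⟨(φ w0, t (φ w0)), ht _⟩ rfl
  have : Nonempty H.Dart := ⟨d⟩
  have hfib : ∀ u, fib φ u = fib φ r := by
    intro u
    rcases hconn u with h1 | h1 | ⟨w, h1, h2⟩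
    · rw [h1]
    · exact (fib_eq_of_adj hcov h1).symm
    · exact ((fib_eq_of_adj hcov h1).trans (fib_eq_of_adj hcov h2)).symm
  have hpos : 1 ≤ fib φ r := by
    rw [← hfib (φ w0)]
    have : Nonempty {v // φ v = φ w0} := ⟨⟨w0, rfl⟩⟩
    exact Nat.card_pos
  set v : Fin m → ℤ × ℕ := fun u => (C.c u, rootInd (el.map Prod.fst) u) with hv
  have h1 := cover_planar_lemma hcov hpl g (wgt t v) (QW C.N) hg1
    (fun a b x y hx hy => QW_mul hx hy) (fun a x y hx => QW_conj hx y) (fun u l hl hl2 => by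
      rw [wgt_sum t v u (ht u) l hl hl2]
      exact hg2 u l hl hl2)
  rw [finsum_dart hcov] at h1
  have h2 : ∑ᶠ e : K.Dart, fib φ e.fst • wgt t v e = fib φ r • ∑ u, v u := by
    rw [← wgt_total t v ht (fib φ r)]
    exact finsum_congr fun e => by rw [hfib e.fst]
  rw [h2] at h1
  refine one_notMem_QW ?_ ?_ h1
  · have e1 : (fib φ r • ∑ u, v u).1 = fib φ r • ∑ u, C.c u := by
      rw [Prod.smul_fst, Prod.fst_sum]
    rw [e1]
    exact nsmul_nonneg hc _
  · have e1 : (fib φ r • ∑ u, v u).2 = fib φ r • ∑ u, rootInd (el.map Prod.fst) u := by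
      rw [Prod.smul_snd, Prod.snd_sum]
    rw [e1, smul_eq_mul]
    have e2 : 1 ≤ ∑ u, rootInd (el.map Prod.fst) u := by
      have e3 : rootInd (el.map Prod.fst) r ≤ ∑ u, rootInd (el.map Prod.fst) u :=
        Finset.single_le_sum (f := fun u => rootInd (el.map Prod.fst) u)
          (fun _ _ => Nat.zero_le _) (Finset.mem_univ r)
      rw [rootInd, if_neg hr] at e3
      exact e3
    exact Nat.mul_pos hpos e2

end Pool.Agent.Lib.MP_5854e1_co
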