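import Pool.Agent.Lib.MP_5854e1_co.Rows

/-!
# The entries of a row along a given path

`entL kr r c p` is the list of the entries of the row `r` behind the arcs `c :: p` whose next shape is
`kr`. It does not depend on a state, so the kernel computes it only once for every row and path.
-/

set_option autoImplicit false

namespace Pool.Agent.Lib.MP_5854e1_co

noncomputable section

/-- A list of entries: the index of the option, the test and the data. -/
inductive Cl (α : Type) where
  | nil : Cl α
  | cons (o q : ℕ) (b : α) (rest : Cl α) : Cl α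

namespace Cl

variable {α : Type}

/-- The entry `(o, q, b)` is in the list. -/
def Mem (o q : ℕ) (b : α) (l : Cl α) : Prop :=
  Cl.rec (motive := fun _ => Prop) False (fun o' q' b' _ ih => (o' = o ∧ q' = q ∧ b' = b) ∨ ih) l

/-- Nothing to check if the test prunes. -/
def chk (t : ℕ → Bool) (f : ℕ → ℕ → α → Bool) (l : Cl α) : Bool :=
  Cl.rec (motive := fun _ => Bool) true (fun o q b _ ih => rAnd (rIf (t q) true (f o q b)) ih) l

theorem chk_sound {t : ℕ → Bool} {f : ℕ → ℕ → α → Bool} {o q : ℕ} {b : α} : ∀ {l : Cl α},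
    chk t f l = true → l.Mem o q b → t q = false → f o q b = true := by
  intro l
  induction l with
  | nil => intro _ h; exact h.elim
  | cons o' q' b' rest ih =>
    intro h hm hq
    obtain ⟨h1, h2⟩ := rAnd_iff.1 (show rAnd (rIf (t q') true (f o' q' b')) (chk t f rest) = true
      from h)
    rcases hm with ⟨rfl, rfl, rfl⟩ | hm
    · rw [hq, rIf_false] at h1
      exact h1
    · exact ih h2 hm hq

end Cl

namespace Rw

variable {α : Type}

/-- The entries at this place. -/
def hitsL (kr : ℕ) (acc : Cl α) (r : Rw α) : Cl α :=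
  Rw.rec (motive := fun _ => Cl α) acc
    (fun o k q b _ ih => Bool.rec (motive := fun _ => Cl α) ih (Cl.cons o q b ih) (Nat.beq k kr))
    (fun _ _ _ _ _ _ _ => acc) (fun _ _ _ _ _ _ => acc) r

/-- The entries behind the arcs `c1 :: p`. -/
def entL (kr : ℕ) (r : Rw α) : ℕ → List ℕ → Cl α → Cl α :=
  Rw.rec (motive := fun _ => ℕ → List ℕ → Cl α → Cl α) (fun _ _ acc => acc)
    (fun _ _ _ _ _ ih => ih)
    (fun c o k q b _ ih c1 p acc => Bool.rec (motive := fun _ => Cl α) (ih c1 p acc)
      (Bool.rec (motive := fun _ => Cl α) acc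
        (List.rec (motive := fun _ => Cl α)
          (Bool.rec (motive := fun _ => Cl α) (ih c1 p acc) (Cl.cons o q b (ih c1 p acc))
            (Nat.beq k kr))
          (fun _ _ _ => ih c1 p acc) p)
        (Nat.beq c c1))
      (Nat.ble c1 c))
    (fun c _ sub _ ihs ihr c1 p acc => Bool.rec (motive := fun _ => Cl α) (ihr c1 p acc)
      (Bool.rec (motive := fun _ => Cl α) acc
        (List.rec (motive := fun _ => Cl α) (hitsL kr (ihr c1 p acc) sub)
          (fun c2 p2 _ => ihs c2 p2 (ihr c1 p acc)) p)
        (Nat.beq c c1))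
      (Nat.ble c1 c)) r

theorem mem_hitsL_acc {kr o q : ℕ} {b : α} {acc : Cl α} (h : acc.Mem o q b) :
    ∀ r : Rw α, (hitsL kr acc r).Mem o q b := by
  intro r
  induction r with
  | nil => exact h
  | hit o' k' q' b' rest ih =>
    show Cl.Mem o q b (Bool.rec (motive := fun _ => Cl α) (hitsL kr acc rest)
      (Cl.cons o' q' b' (hitsL kr acc rest)) (Nat.beq k' kr))
    cases Nat.beq k' kr with
    | true => exact Or.inr ih
    | false => exact ih
  | one _ _ _ _ _ _ _ => exact h
  | tok _ _ _ _ _ _ => exact h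

theorem mem_hitsL {r : Rw α} {p : List ℕ} {o k : ℕ} {b : α} {qs : List ℕ}
    (h : At r p o k b qs) : p = [] → r.wf 0 = true → ∀ acc : Cl α,
    ∃ q ∈ qs, (hitsL k acc r).Mem o q b := by
  induction h with
  | hit o k q b rest =>
    intro _ _ acc
    refine ⟨q, List.mem_singleton_self q, ?_⟩
    show Cl.Mem o q b (Bool.rec (motive := fun _ => Cl α) (hitsL k acc rest)
      (Cl.cons o q b (hitsL k acc rest)) (Nat.beq k k))
    rw [Nat.beq_refl]
    exact Or.inl ⟨rfl, rfl, rfl⟩
  | one c o k q b rest => intro hp; exact absurd hp (by simp)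
  | tok c q sub rest _ _ => intro hp; exact absurd hp (by simp)
  | hit_rest o' k' q' b' rest _ ih =>
    rename_i p o k b qs _
    intro hp hw acc
    obtain ⟨q, hq, hm⟩ := ih hp (rAnd_iff.1 (show rAnd (Nat.beq 0 0) (rest.wf 0) = true from hw)).2
      acc
    refine ⟨q, hq, ?_⟩
    show Cl.Mem o q b (Bool.rec (motive := fun _ => Cl α) (hitsL k acc rest)
      (Cl.cons o' q' b' (hitsL k acc rest)) (Nat.beq k' k))
    cases Nat.beq k' k with
    | true => exact Or.inr hm
    | false => exact hm
  | one_rest c' o' k' q' b' rest h _ =>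
    intro hp hw
    have h1 := (rAnd_iff.1 (show rAnd (Nat.ble 0 (c' + 1)) (rest.wf (c' + 1)) = true from hw)).2
    obtain ⟨c, p', e, -⟩ := h.head (Nat.succ_pos _) h1
    exact absurd (hp.symm.trans e) (by simp)
  | tok_rest c' q' sub rest h _ =>
    intro hp hw
    have h1 := (rAnd_iff.1 (rAnd_iff.1 (show rAnd (Nat.ble 0 (c' + 1))
      (rAnd (sub.wf 0) (rest.wf (c' + 1))) = true from hw)).2).2
    obtain ⟨c, p', e, -⟩ := h.head (Nat.succ_pos _) h1
    exact absurd (hp.symm.trans e) (by simp)

theorem mem_entL_acc {kr o q : ℕ} {b : α} : ∀ (r : Rw α) {acc : Cl α} (_ : acc.Mem o q b)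
    (c1 : ℕ) (p : List ℕ), (entL kr r c1 p acc).Mem o q b := by
  intro r
  induction r with
  | nil => intro acc h _ _; exact h
  | hit _ _ _ _ rest ih => intro acc h c1 p; exact ih h c1 p
  | one c o' k' q' b' rest ih =>
    intro acc h c1 p
    have h1 := ih h c1 p
    show Cl.Mem o q b (Bool.rec (motive := fun _ => Cl α) (entL kr rest c1 p acc)
      (Bool.rec (motive := fun _ => Cl α) acc
        (List.rec (motive := fun _ => Cl α)
          (Bool.rec (motive := fun _ => Cl α) (entL kr rest c1 p acc)
            (Cl.cons o' q' b' (entL kr rest c1 p acc)) (Nat.beq k' kr))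
          (fun _ _ _ => entL kr rest c1 p acc) p)
        (Nat.beq c c1))
      (Nat.ble c1 c))
    cases Nat.ble c1 c with
    | false => exact h1
    | true =>
      cases Nat.beq c c1 with
      | false => exact h
      | true =>
        cases p with
        | nil =>
          show Cl.Mem o q b (Bool.rec (motive := fun _ => Cl α) (entL kr rest c1 [] acc)
            (Cl.cons o' q' b' (entL kr rest c1 [] acc)) (Nat.beq k' kr))
          cases Nat.beq k' kr with
          | false => exact h1
          | true => exact Or.inr h1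
        | cons _ _ => exact h1
  | tok c q' sub rest ihs ihr =>
    intro acc h c1 p
    have h1 := ihr h c1 p
    show Cl.Mem o q b (Bool.rec (motive := fun _ => Cl α) (entL kr rest c1 p acc)
      (Bool.rec (motive := fun _ => Cl α) acc
        (List.rec (motive := fun _ => Cl α) (hitsL kr (entL kr rest c1 p acc) sub)
          (fun c2 p2 _ => entL kr sub c2 p2 (entL kr rest c1 p acc)) p)
        (Nat.beq c c1))
      (Nat.ble c1 c))
    cases Nat.ble c1 c with
    | false => exact h1
    | true =>
      cases Nat.beq c c1 with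
      | false => exact h
      | true =>
        cases p with
        | nil => exact mem_hitsL_acc h1 sub
        | cons c2 p2 => exact ihs h1 c2 p2

/-- An entry of the row is in the list of the entries along its path. -/
theorem mem_entL {r : Rw α} {p : List ℕ} {o k : ℕ} {b : α} {qs : List ℕ}
    (h : At r p o k b qs) : ∀ {L : ℕ} (_ : r.wf L = true) {c1 : ℕ} {p' : List ℕ} (_ : p = c1 :: p')
    (acc : Cl α), ∃ q ∈ qs, (entL k r c1 p' acc).Mem o q b := by
  induction h with
  | hit o k q b rest => intro L _ c1 p' hp; exact absurd hp (by simp)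
  | one c o k q b rest =>
    intro L _ c1 p' hp acc
    obtain ⟨rfl, rfl⟩ := List.cons.inj hp
    refine ⟨q, List.mem_singleton_self q, ?_⟩
    show Cl.Mem o q b (Bool.rec (motive := fun _ => Cl α) (entL k rest c [] acc)
      (Bool.rec (motive := fun _ => Cl α) acc
        (Bool.rec (motive := fun _ => Cl α) (entL k rest c [] acc)
            (Cl.cons o q b (entL k rest c [] acc)) (Nat.beq k k))
        (Nat.beq c c))
      (Nat.ble c c))
    rw [Nat.ble_eq_true_of_le (le_refl c), Nat.beq_refl, Nat.beq_refl]
    exact Or.inl ⟨rfl, rfl, rfl⟩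
  | tok c q sub rest h ih =>
    rename_i p o k b qs
    intro L hw c1 p' hp acc
    obtain ⟨rfl, rfl⟩ := List.cons.inj hp
    have hs := (rAnd_iff.1 (rAnd_iff.1 (show rAnd (Nat.ble L (c + 1))
      (rAnd (sub.wf 0) (rest.wf (c + 1))) = true from hw)).2).1
    have key : ∃ q' ∈ qs, Cl.Mem o q' b (List.rec (motive := fun _ => Cl α)
        (hitsL k (entL k rest c p acc) sub)
        (fun c2 p2 _ => entL k sub c2 p2 (entL k rest c p acc)) p) := by
      cases p with
      | nil => exact mem_hitsL h rfl hs _
      | cons c2 p2 => exact ih hs rfl _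
    obtain ⟨q', hq', hm⟩ := key
    refine ⟨q', List.mem_cons_of_mem q hq', ?_⟩
    show Cl.Mem o q' b (Bool.rec (motive := fun _ => Cl α) (entL k rest c p acc)
      (Bool.rec (motive := fun _ => Cl α) acc
        (List.rec (motive := fun _ => Cl α) (hitsL k (entL k rest c p acc) sub)
          (fun c2 p2 _ => entL k sub c2 p2 (entL k rest c p acc)) p)
        (Nat.beq c c))
      (Nat.ble c c))
    rw [Nat.ble_eq_true_of_le (le_refl c), Nat.beq_refl]
    exact hm
  | hit_rest o' k' q' b' rest _ ih =>
    intro L hw c1 p' hp acc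
    exact ih (rAnd_iff.1 (show rAnd (Nat.beq L 0) (rest.wf L) = true from hw)).2 hp acc
  | one_rest c' o' k' q' b' rest h ih =>
    rename_i p o k b qs
    intro L hw c1 p' hp acc
    have h1 := (rAnd_iff.1 (show rAnd (Nat.ble L (c' + 1)) (rest.wf (c' + 1)) = true from hw)).2
    obtain ⟨c, p2, e, hle⟩ := h.head (Nat.succ_pos _) h1
    obtain ⟨rfl, rfl⟩ := List.cons.inj (hp.symm.trans e)
    obtain ⟨q, hq, hm⟩ := ih h1 hp acc
    refine ⟨q, hq, ?_⟩
    show Cl.Mem o q b (Bool.rec (motive := fun _ => Cl α) (entL k rest c1 p' acc)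
      (Bool.rec (motive := fun _ => Cl α) acc
        (List.rec (motive := fun _ => Cl α)
          (Bool.rec (motive := fun _ => Cl α) (entL k rest c1 p' acc)
            (Cl.cons o' q' b' (entL k rest c1 p' acc)) (Nat.beq k' k))
          (fun _ _ _ => entL k rest c1 p' acc) p')
        (Nat.beq c' c1))
      (Nat.ble c1 c'))
    cases hb : Nat.ble c1 c' with
    | false => exact hm
    | true =>
      have e1 : c' = c1 := by
        have := Nat.le_of_ble_eq_true hb
        omega
      rw [e1, Nat.beq_refl]
      cases p' with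
      | nil =>
        show Cl.Mem o q b (Bool.rec (motive := fun _ => Cl α) (entL k rest c1 [] acc)
          (Cl.cons o' q' b' (entL k rest c1 [] acc)) (Nat.beq k' k))
        cases Nat.beq k' k with
        | false => exact hm
        | true => exact Or.inr hm
      | cons _ _ => exact hm
  | tok_rest c' q' sub rest h ih =>
    rename_i p o k b qs
    intro L hw c1 p' hp acc
    have h1 := (rAnd_iff.1 (rAnd_iff.1 (show rAnd (Nat.ble L (c' + 1))
      (rAnd (sub.wf 0) (rest.wf (c' + 1))) = true from hw)).2).2
    obtain ⟨c, p2, e, hle⟩ := h.head (Nat.succ_pos _) h1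
    obtain ⟨rfl, rfl⟩ := List.cons.inj (hp.symm.trans e)
    obtain ⟨q, hq, hm⟩ := ih h1 hp acc
    refine ⟨q, hq, ?_⟩
    show Cl.Mem o q b (Bool.rec (motive := fun _ => Cl α) (entL k rest c1 p' acc)
      (Bool.rec (motive := fun _ => Cl α) acc
        (List.rec (motive := fun _ => Cl α) (hitsL k (entL k rest c1 p' acc) sub)
          (fun c2 p2 _ => entL k sub c2 p2 (entL k rest c1 p' acc)) p')
        (Nat.beq c' c1))
      (Nat.ble c1 c'))
    cases hb : Nat.ble c1 c' with
    | false => exact hm
    | true =>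
      have e1 : c' = c1 := by
        have := Nat.le_of_ble_eq_true hb
        omega
      rw [e1, Nat.beq_refl]
      cases p' with
      | nil => exact mem_hitsL_acc hm sub
      | cons c2 p3 => exact mem_entL_acc sub hm c2 p3

/-- The check of the entries along a path: `t q = true` prunes. -/
def cle (t : ℕ → Bool) (f : ℕ → ℕ → α → Bool) (kr : ℕ) (r : Rw α) (c1 : ℕ) (p : List ℕ) : Bool :=
  Cl.chk t f (entL kr r c1 p Cl.nil)

theorem cle_sound {t : ℕ → Bool} {f : ℕ → ℕ → α → Bool} {kr L : ℕ} {r : Rw α} {c1 : ℕ}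
    {p : List ℕ} (hw : r.wf L = true) (h : cle t f kr r c1 p = true) {o : ℕ} {b : α} {qs : List ℕ}
    (ha : At r (c1 :: p) o kr b qs) (hq : ∀ q ∈ qs, t q = false) : ∃ q ∈ qs, f o q b = true := by
  obtain ⟨q, h1, h2⟩ := mem_entL ha hw rfl Cl.nil
  exact ⟨q, h1, Cl.chk_sound h h2 (hq q h1)⟩

/-- The same for a path given as a list. -/
def cla (t : ℕ → Bool) (f : ℕ → ℕ → α → Bool) (kr : ℕ) (r : Rw α) (p : List ℕ) : Bool :=
  List.rec (motive := fun _ => Bool) false (fun c p' _ => cle t f kr r c p') p

theorem cla_sound {t : ℕ → Bool} {f : ℕ → ℕ → α → Bool} {kr L : ℕ} {r : Rw α} {p : List ℕ}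
    (hw : r.wf L = true) (h : cla t f kr r p = true) {o : ℕ} {b : α} {qs : List ℕ}
    (ha : At r p o kr b qs) (hq : ∀ q ∈ qs, t q = false) : ∃ q ∈ qs, f o q b = true := by
  cases p with
  | nil => exact absurd (show false = true from h) (by simp)
  | cons c p' => exact cle_sound hw h ha hq

end Rw

end

end Pool.Agent.Lib.MP_5854e1_co
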