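import Pool.Agent.Lib.MP_5854e1_co.Fan

/-!
# The sums over the corners of a quadrilateral

The value of a corner `a` of a quadrilateral depends on the shape, the option and the kinds of the
two neighbouring corners of the face. A quadrilateral is cut into two halves with two corners each.
-/

set_option autoImplicit false

open Equiv Equiv.Perm

namespace Pool.Agent.Lib.MP_5854e1_co

open Model24 (Kind)

/-- Evaluate the argument first. -/
def rLet {α : Type} (n : ℕ) (f : ℕ → α) : α :=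
  Nat.rec (motive := fun _ => α) (f (nat_lit 0)) (fun m _ => f (Nat.succ m)) n

theorem rLet_eq {α : Type} (n : ℕ) (f : ℕ → α) : rLet n f = f n := by cases n <;> rfl

/-- The inverse frames. -/
def invC (a : ℕ) : ℕ :=
  Nat.mod (Nat.shiftRight (nat_lit 979330589954585691670393416759446560) (Nat.mul (nat_lit 5) a))
    (nat_lit 32)

theorem invC_eq : ∀ a < 24, invC a = lc (invL (lbl a)) := by decide +kernel

/-- Cons of a number which is evaluated first. -/
def rCons (n : ℕ) (l : List ℕ) : List ℕ := rLet n fun m => m :: l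

theorem rCons_eq (n : ℕ) (l : List ℕ) : rCons n l = n :: l := rLet_eq _ _

section defs

variable (row : ℕ → ℕ → ℕ) (w W W3 off : ℕ)

/-- The record of an option: the shape of the other end of the next strip, the frame, the kind and
the row of values. -/
def qRec (k x : ℕ) : ℕ :=
  Nat.add (Nat.div x (nat_lit 16384)) (Nat.mul (nat_lit 128)
    (Nat.add (Nat.mod (Nat.div x (nat_lit 512)) (nat_lit 32)) (Nat.mul (nat_lit 32)
      (Nat.add (Nat.mod (optA k (Nat.mod x (nat_lit 512))) (nat_lit 3)) (Nat.mul (nat_lit 4)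
        (row k (Nat.mod x (nat_lit 512))))))))

/-- The records of a shape. -/
def qL (k : ℕ) : List ℕ := rFold (fun x acc => rCons (qRec row k x) acc) [] (fl k)

/-- The records with the target `t`. -/
def qF (t : ℕ) (l : List ℕ) : List ℕ :=
  rFold (fun c acc => rIf (Nat.beq (Nat.mod c (nat_lit 128)) t) (c :: acc) acc) [] l

/-- The code of two consecutive corners. -/
def qH (h : ℕ → ℕ) (c d : ℕ) : ℕ :=
  Nat.add (h (mulC (Nat.mod (Nat.div c (nat_lit 128)) (nat_lit 32))
      (Nat.mod (Nat.div d (nat_lit 128)) (nat_lit 32))))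
    (Nat.mul (nat_lit 32) (Nat.add (Nat.mod (Nat.div c (nat_lit 4096)) (nat_lit 4))
      (Nat.mul (nat_lit 4) (Nat.add (Nat.mod (Nat.div d (nat_lit 4096)) (nat_lit 4))
        (Nat.mul (nat_lit 4) (Nat.add
          (Nat.mod (Nat.shiftRight (Nat.div c (nat_lit 16384))
            (Nat.mul (Nat.mul (nat_lit 3) w) (Nat.mod (Nat.div d (nat_lit 4096)) (nat_lit 4)))) W3)
          (Nat.mul W3 (Nat.shiftRight (Nat.div d (nat_lit 16384))
            (Nat.mul w (Nat.mod (Nat.div c (nat_lit 4096)) (nat_lit 4)))))))))))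

/-- The codes of two consecutive corners between the shapes `k` and `t`; the shape between them is
less than `K`. -/
def qW (h : ℕ → ℕ) (K k t : ℕ) : List ℕ :=
  Nat.rec (motive := fun _ => List ℕ) []
    (fun k2 acc => rFold (fun c acc => rFold (fun d acc => rCons (qH w W3 h c d) acc) acc
      (qF t (qL row k2))) acc (qF k2 (qL row k))) K

/-- The codes with the frame in a class. -/
def qB (b : ℕ) (l : List ℕ) : List ℕ :=
  rFold (fun u acc => rIf (Nat.beq (Nat.mod u (nat_lit 8)) b) (u :: acc) acc) [] l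

/-- The sum of the four values. -/
def qSum (u v : ℕ) : ℕ :=
  Nat.add
    (Nat.add
      (Nat.mod (Nat.shiftRight (Nat.mod (Nat.div u (nat_lit 512)) W3)
        (Nat.mul w (Nat.mod (Nat.div v (nat_lit 128)) (nat_lit 4)))) W)
      (Nat.mod (Nat.shiftRight (Nat.div (Nat.div u (nat_lit 512)) W3)
        (Nat.mul (Nat.mul (nat_lit 3) w) (Nat.mod (Nat.div v (nat_lit 32)) (nat_lit 4)))) W))
    (Nat.add
      (Nat.mod (Nat.shiftRight (Nat.mod (Nat.div v (nat_lit 512)) W3)
        (Nat.mul w (Nat.mod (Nat.div u (nat_lit 128)) (nat_lit 4)))) W)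
      (Nat.mod (Nat.shiftRight (Nat.div (Nat.div v (nat_lit 512)) W3)
        (Nat.mul (Nat.mul (nat_lit 3) w) (Nat.mod (Nat.div u (nat_lit 32)) (nat_lit 4)))) W))

/-- All quadrilaterals between the shapes `k1` and `k3`. -/
def qPair (k1 k3 : ℕ) : Bool :=
  rAllN (fun b => rAll (fun u => rLet (Nat.mod u (nat_lit 32)) fun g => rAll (fun v =>
      rIf (Nat.beq (Nat.mod v (nat_lit 32)) g) (Nat.ble off (qSum w W W3 u v)) true)
      (qB b (qW row w W3 invC (Nat.succ k1) k3 k1)))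
    (qB b (qW row w W3 (fun g => g) (Nat.succ k1) k1 k3))) (nat_lit 8)

end defs

/-! ### Membership -/

theorem beq_of_eq {a b : ℕ} (h : a = b) : Nat.beq a b = true := by
  subst h
  exact Nat.beq_refl _

theorem mem_rCons {n m : ℕ} {l : List ℕ} (h : m ∈ l) : m ∈ rCons n l := by
  rw [rCons_eq]
  exact List.mem_cons_of_mem _ h

theorem self_mem_rCons (n : ℕ) (l : List ℕ) : n ∈ rCons n l := by
  rw [rCons_eq]
  exact List.mem_cons_self

theorem mem_qL {row : ℕ → ℕ → ℕ} {k x : ℕ} (h : x ∈ fl k) : qRec row k x ∈ qL row k :=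
  mem_rFold (f := fun x acc => rCons (qRec row k x) acc) (fun _ _ _ h => mem_rCons h) []
    (fun _ => self_mem_rCons _ _) _ h

theorem mem_rFilter {f : ℕ → Bool} {c : ℕ} (hc : f c = true) {l : List ℕ} (h : c ∈ l) :
    c ∈ rFold (fun c acc => rIf (f c) (c :: acc) acc) [] l := by
  refine mem_rFold (f := fun c acc => rIf (f c) (c :: acc) acc) (fun a r y hy => ?_) [] (a := c)
    (fun r => ?_) _ h
  · cases f a with
    | true => exact List.mem_cons_of_mem _ hy
    | false => exact hy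
  · rw [hc]
    exact List.mem_cons_self

theorem mem_qF {c t : ℕ} {l : List ℕ} (h : c ∈ l) (hc : Nat.beq (Nat.mod c 128) t = true) :
    c ∈ qF t l := mem_rFilter (f := fun c => Nat.beq (Nat.mod c 128) t) hc h

theorem mem_qB {c b : ℕ} {l : List ℕ} (h : c ∈ l) (hc : Nat.beq (Nat.mod c 8) b = true) :
    c ∈ qB b l := mem_rFilter (f := fun c => Nat.beq (Nat.mod c 8) b) hc h

theorem mem_qW {row : ℕ → ℕ → ℕ} {w W3 : ℕ} {h : ℕ → ℕ} {k k2 t c d : ℕ} {K : ℕ} (hK : k2 < K)
    (hc : c ∈ qF k2 (qL row k)) (hd : d ∈ qF t (qL row k2)) :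
    qH w W3 h c d ∈ qW row w W3 h K k t := by
  induction K with
  | zero => exact absurd hK (Nat.not_lt_zero _)
  | succ K ih =>
    have hmono1 : ∀ k2 c (r : List ℕ), ∀ y ∈ r,
        y ∈ rFold (fun d acc => rCons (qH w W3 h c d) acc) r (qF t (qL row k2)) :=
      fun k2 c r => mem_rFold_base (f := fun d acc => rCons (qH w W3 h c d) acc)
        (fun _ _ _ h => mem_rCons h) r _
    show _ ∈ rFold (fun c acc => rFold (fun d acc => rCons (qH w W3 h c d) acc) acc
      (qF t (qL row K))) (qW row w W3 h K k t) (qF K (qL row k))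
    rcases Nat.lt_succ_iff_lt_or_eq.1 hK with h1 | rfl
    · exact mem_rFold_base (f := fun c acc => rFold (fun d acc => rCons (qH w W3 h c d) acc) acc
        (qF t (qL row K))) (fun c r y hy => hmono1 K c r y hy) _ _ _ (ih h1)
    · refine mem_rFold (f := fun c acc => rFold (fun d acc => rCons (qH w W3 h c d) acc) acc
        (qF t (qL row k2))) (fun c r y hy => hmono1 k2 c r y hy) _ (a := c) (fun r => ?_) _ hc
      exact mem_rFold (f := fun d acc => rCons (qH w W3 h c d) acc)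
        (fun _ _ _ h => mem_rCons h) _ (fun _ => self_mem_rCons _ _) _ hd

/-! ### Arithmetic -/

/-- A field of a truncated number. -/
theorem field_trunc (x m s w : ℕ) (h : s + w ≤ m) : (x % 2 ^ m) >>> s % 2 ^ w = x >>> s % 2 ^ w := by
  refine Nat.eq_of_testBit_eq fun i => ?_
  simp only [Nat.testBit_mod_two_pow, Nat.testBit_shiftRight]
  by_cases hi : i < w
  · have : s + i < m := by omega
    simp [hi, this]
  · simp [hi]

/-- The fields of a record. -/
theorem qRec_fields {row : ℕ → ℕ → ℕ} {k x : ℕ} (ht : x / 16384 < 128) :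
    qRec row k x % 128 = x / 16384 ∧ qRec row k x / 128 % 32 = x / 512 % 32 ∧
      qRec row k x / 4096 % 4 = optA k (x % 512) % 3 ∧
      qRec row k x / 16384 = row k (x % 512) := by
  have e : qRec row k x = x / 16384 + 128 * (x / 512 % 32 + 32 * (optA k (x % 512) % 3 +
      4 * row k (x % 512))) := rfl
  have h1 : optA k (x % 512) % 3 < 3 := Nat.mod_lt _ (by norm_num)
  have h2 : x / 512 % 32 < 32 := Nat.mod_lt _ (by norm_num)
  rw [e]
  clear e
  revert h1 h2 ht
  generalize optA k (x % 512) % 3 = κ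
  generalize row k (x % 512) = r
  generalize x / 16384 = t
  generalize x / 512 % 32 = f'
  intro ht h2 h1
  refine ⟨?_, ?_, ?_, ?_⟩ <;> omega

/-- The fields of the code of two corners. -/
theorem qH_fields {w W3 : ℕ} {h : ℕ → ℕ} {c d g κ κ' : ℕ}
    (hg : mulC (c / 128 % 32) (d / 128 % 32) = g) (hg2 : h g < 32)
    (hκ : c / 4096 % 4 = κ) (hκ' : d / 4096 % 4 = κ') (hW : 0 < W3) :
    qH w W3 h c d % 32 = h g ∧ qH w W3 h c d / 32 % 4 = κ ∧ qH w W3 h c d / 128 % 4 = κ' ∧
      qH w W3 h c d / 512 % W3 = (c / 16384) >>> (3 * w * κ') % W3 ∧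
      qH w W3 h c d / 512 / W3 = (d / 16384) >>> (w * κ) := by
  have e : qH w W3 h c d = h (mulC (c / 128 % 32) (d / 128 % 32)) + 32 * (c / 4096 % 4 +
      4 * (d / 4096 % 4 + 4 * ((c / 16384) >>> (3 * w * (d / 4096 % 4)) % W3 +
        W3 * (d / 16384) >>> (w * (c / 4096 % 4))))) := rfl
  rw [e, hg, hκ, hκ']
  have h1 : κ < 4 := by rw [← hκ]; exact Nat.mod_lt _ (by norm_num)
  have h2 : κ' < 4 := by rw [← hκ']; exact Nat.mod_lt _ (by norm_num)
  have h3 : (c / 16384) >>> (3 * w * κ') % W3 < W3 := Nat.mod_lt _ hW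
  generalize (c / 16384) >>> (3 * w * κ') % W3 = A at *
  generalize (d / 16384) >>> (w * κ) = B at *
  generalize h g = g' at *
  have e5 : (g' + 32 * (κ + 4 * (κ' + 4 * (A + W3 * B)))) / 512 = A + W3 * B := by
    generalize A + W3 * B = X
    omega
  refine ⟨?_, ?_, ?_, ?_, ?_⟩
  · generalize A + W3 * B = X
    omega
  · generalize A + W3 * B = X
    omega
  · generalize A + W3 * B = X
    omega
  · rw [e5, Nat.add_mul_mod_self_left, Nat.mod_eq_of_lt h3]
  · rw [e5, Nat.add_mul_div_left _ _ hW, Nat.div_eq_of_lt h3, zero_add]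

namespace SMap

variable {F : Type*} (T : SMap F)

section quad

variable (row : ℕ → ℕ → ℕ) (w : ℕ)

/-- The value of a corner of a quadrilateral. -/
noncomputable def Z (a : F) : ℕ :=
  (row (T.kx a) (T.ox a)) >>> (w * (3 * kc (T.K (T.face (T.N a))) + kc (T.K (T.I a)))) % 2 ^ w

/-- The record of a strip end. -/
noncomputable def qr (a : F) : ℕ := qRec row (T.kx a) (T.ex a)

theorem qr_mem (a : F) : T.qr row a ∈ qL row (T.kx a) := mem_qL (T.ex_mem a)

theorem qr_fields (a : F) : T.qr row a % 128 = T.kx (T.I (T.N a)) ∧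
    T.qr row a / 128 % 32 = T.lx a (T.I (T.N a)) ∧
      T.qr row a / 4096 % 4 = kc (T.K (T.N a)) ∧
      T.qr row a / 16384 = row (T.kx a) (T.ox a) := by
  have h1 := T.kx_lt (T.I (T.N a))
  have h2 := qRec_fields (row := row) (k := T.kx a) (x := T.ex a) (by rw [ex_kx]; omega)
  rw [ex_kx, ex_lx, ex_ox] at h2
  have h3 : optA (T.kx a) (T.ox a) % 3 = kc (T.K (T.N a)) := T.optA_mod3 a
  rw [h3] at h2
  exact h2

/-- The code of the corners after `a` and the next one. -/
noncomputable def qu (h : ℕ → ℕ) (a : F) : ℕ :=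
  qH w (2 ^ (3 * w)) h (T.qr row a) (T.qr row (T.I (T.N a)))

theorem qu_mem (h : ℕ → ℕ) {K : ℕ} (a : F) (hK : T.kx (T.I (T.N a)) < K) :
    T.qu row w h a ∈ qW row w (2 ^ (3 * w)) h K (T.kx a) (T.kx (T.I (T.N (T.I (T.N a))))) := by
  refine mem_qW hK (mem_qF (T.qr_mem row a) ?_) (mem_qF (T.qr_mem row _) ?_)
  · have := (T.qr_fields row a).1
    exact beq_of_eq this
  · have := (T.qr_fields row (T.I (T.N a))).1
    exact beq_of_eq this

theorem qu_fields {h : ℕ → ℕ} (a : F) (hg : h (T.lx a (T.I (T.N (T.I (T.N a))))) < 32) :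
    T.qu row w h a % 32 = h (T.lx a (T.I (T.N (T.I (T.N a))))) ∧
      T.qu row w h a / 32 % 4 = kc (T.K (T.N a)) ∧
      T.qu row w h a / 128 % 4 = kc (T.K (T.N (T.I (T.N a)))) ∧
      T.qu row w h a / 512 % 2 ^ (3 * w) =
        (row (T.kx a) (T.ox a)) >>> (3 * w * kc (T.K (T.N (T.I (T.N a))))) % 2 ^ (3 * w) ∧
      T.qu row w h a / 512 / 2 ^ (3 * w) =
        (row (T.kx (T.I (T.N a))) (T.ox (T.I (T.N a)))) >>> (w * kc (T.K (T.N a))) := by
  obtain ⟨-, h2, h3, h4⟩ := T.qr_fields row a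
  obtain ⟨-, k2, k3, k4⟩ := T.qr_fields row (T.I (T.N a))
  have key := qH_fields (w := w) (W3 := 2 ^ (3 * w)) (h := h) (c := T.qr row a)
    (d := T.qr row (T.I (T.N a))) (g := T.lx a (T.I (T.N (T.I (T.N a)))))
    (by rw [h2, k2, ← T.lx_trans]) hg h3 k3 (by positivity)
  rw [h4, k4] at key
  exact key

/-- The sum of the four values. -/
theorem qSum_eq {h h' : ℕ → ℕ} {a : F} (ha : T.face^[4] (T.N a) = T.N a)
    (hg : h (T.lx a (T.I (T.N (T.I (T.N a))))) < 32)
    (hg' : h' (T.lx (T.I (T.N (T.I (T.N a)))) a) < 32) :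
    qSum w (2 ^ w) (2 ^ (3 * w)) (T.qu row w h a) (T.qu row w h' (T.I (T.N (T.I (T.N a))))) =
      T.Z row w a + T.Z row w (T.I (T.N a)) + (T.Z row w (T.I (T.N (T.I (T.N a)))) +
        T.Z row w (T.I (T.N (T.I (T.N (T.I (T.N a))))))) := by
  have hN : T.I (T.N (T.I (T.N (T.I (T.N (T.I (T.N a))))))) = a := by
    have h1 : T.N (T.I (T.N (T.I (T.N (T.I (T.N (T.I (T.N a)))))))) = T.N a := ha
    exact T.N.injective h1
  have hN' : T.N (T.I (T.N (T.I (T.N (T.I (T.N a)))))) = T.I a := by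
    have h1 := congrArg T.I hN
    rw [T.I_I] at h1
    exact h1
  obtain ⟨-, h2, h3, h4, h5⟩ := T.qu_fields row w a hg
  obtain ⟨-, k2, k3, k4, k5⟩ := T.qu_fields row w (h := h') (T.I (T.N (T.I (T.N a))))
    (by rw [hN]; exact hg')
  have e : qSum w (2 ^ w) (2 ^ (3 * w)) (T.qu row w h a)
      (T.qu row w h' (T.I (T.N (T.I (T.N a))))) =
      (T.qu row w h a / 512 % 2 ^ (3 * w)) >>>
          (w * (T.qu row w h' (T.I (T.N (T.I (T.N a)))) / 128 % 4)) % 2 ^ w +
        (T.qu row w h a / 512 / 2 ^ (3 * w)) >>>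
          (3 * w * (T.qu row w h' (T.I (T.N (T.I (T.N a)))) / 32 % 4)) % 2 ^ w +
        ((T.qu row w h' (T.I (T.N (T.I (T.N a)))) / 512 % 2 ^ (3 * w)) >>>
          (w * (T.qu row w h a / 128 % 4)) % 2 ^ w +
        (T.qu row w h' (T.I (T.N (T.I (T.N a)))) / 512 / 2 ^ (3 * w)) >>>
          (3 * w * (T.qu row w h a / 32 % 4)) % 2 ^ w) := rfl
  rw [e, h2, h3, h4, h5, k2, k3, k4, k5, hN']
  have b1 := kc_lt (T.K (T.I a))
  have b2 := kc_lt (T.K (T.N (T.I (T.N a))))
  have mono : ∀ κ : ℕ, κ < 3 → w * κ + w ≤ 3 * w := by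
    intro κ hκ
    calc w * κ + w = w * (κ + 1) := by ring
      _ ≤ w * 3 := Nat.mul_le_mul_left _ (by omega)
      _ = 3 * w := by ring
  rw [field_trunc _ _ _ _ (mono _ b1), field_trunc _ _ _ _ (mono _ b2)]
  simp only [← Nat.shiftRight_add]
  unfold Z
  have f1 : T.face (T.N a) = T.N (T.I (T.N a)) := rfl
  have f2 : T.face (T.N (T.I (T.N a))) = T.N (T.I (T.N (T.I (T.N a)))) := rfl
  have f3 : T.face (T.N (T.I (T.N (T.I (T.N a))))) =
      T.N (T.I (T.N (T.I (T.N (T.I (T.N a)))))) := rfl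
  have f4 : T.face (T.N (T.I (T.N (T.I (T.N (T.I (T.N a))))))) = T.N a := by
    show T.N (T.I (T.N (T.I (T.N (T.I (T.N (T.I (T.N a)))))))) = T.N a
    rw [hN]
  rw [f1, f2, f3, f4, hN', I_I, I_I, I_I]
  congr 1
  · congr 1
    · congr 2
      ring
    · congr 2
      ring
  · congr 1
    · congr 2
      ring
    · congr 2
      ring

variable {row w}

/-- **The sum over a quadrilateral** whose first shape is the largest one. -/
theorem quad_key {off : ℕ} (h : ∀ k1 < 101, ∀ k3 ≤ k1,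
      qPair row w (2 ^ w) (2 ^ (3 * w)) off k1 k3 = true)
    {a : F} (ha : T.face^[4] (T.N a) = T.N a)
    (h2 : T.kx (T.I (T.N a)) ≤ T.kx a) (h3 : T.kx (T.I (T.N (T.I (T.N a)))) ≤ T.kx a)
    (h4 : T.kx (T.I (T.N (T.I (T.N (T.I (T.N a)))))) ≤ T.kx a) :
    off ≤ T.Z row w a + T.Z row w (T.I (T.N a)) + (T.Z row w (T.I (T.N (T.I (T.N a)))) +
        T.Z row w (T.I (T.N (T.I (T.N (T.I (T.N a))))))) := by
  have hN : T.I (T.N (T.I (T.N (T.I (T.N (T.I (T.N a))))))) = a := by
    have h1 : T.N (T.I (T.N (T.I (T.N (T.I (T.N (T.I (T.N a)))))))) = T.N a := ha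
    exact T.N.injective h1
  have hg : (fun g : ℕ => g) (T.lx a (T.I (T.N (T.I (T.N a))))) < 32 := by
    have := T.lx_lt a (T.I (T.N (T.I (T.N a))))
    show T.lx a (T.I (T.N (T.I (T.N a)))) < 32
    omega
  have hg' : invC (T.lx (T.I (T.N (T.I (T.N a)))) a) < 32 := Nat.mod_lt _ (by norm_num)
  rw [← T.qSum_eq row w (h := fun g => g) ha hg hg']
  have u1 := T.qu_mem row w (fun g => g) (K := Nat.succ (T.kx a)) a (Nat.lt_succ_of_le h2)
  have v1 := T.qu_mem row w invC (K := Nat.succ (T.kx a)) (T.I (T.N (T.I (T.N a))))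
    (Nat.lt_succ_of_le h4)
  rw [hN] at v1
  have u2 := (T.qu_fields row w (h := fun g => g) a hg).1
  have v2 := (T.qu_fields row w (h := invC) (T.I (T.N (T.I (T.N a)))) (by rw [hN]; exact hg')).1
  rw [hN] at v2
  have hinv : invC (T.lx (T.I (T.N (T.I (T.N a)))) a) = T.lx a (T.I (T.N (T.I (T.N a)))) := by
    rw [invC_eq _ (T.lx_lt _ _), lbl_lx, ← rlb_symm]
    rfl
  rw [hinv] at v2
  generalize T.qu row w (fun g => g) a = u at *
  generalize T.qu row w invC (T.I (T.N (T.I (T.N a)))) = v at *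
  have h5 := rAllN_iff.1 (h _ (T.kx_lt a) _ h3) (u % 8) (Nat.mod_lt _ (by norm_num))
  have h6 := rAll_iff.1 h5 u (mem_qB u1 (beq_of_eq rfl))
  rw [rLet_eq] at h6
  have huv : v % 32 = u % 32 := by rw [u2, v2]
  have h7 := rAll_iff.1 h6 v (mem_qB v1 (beq_of_eq (by
    show v % 8 = u % 8
    omega)))
  have h8 : Nat.beq (Nat.mod v 32) (Nat.mod u 32) = true := beq_of_eq huv
  rw [h8] at h7
  exact Nat.le_of_ble_eq_true h7

/-- **The sum over a quadrilateral.** -/
theorem quad_sum {off : ℕ} (h : ∀ k1 < 101, ∀ k3 ≤ k1,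
      qPair row w (2 ^ w) (2 ^ (3 * w)) off k1 k3 = true)
    {a : F} (ha : T.face^[4] (T.N a) = T.N a) :
    off ≤ T.Z row w a + T.Z row w (T.I (T.N a)) + T.Z row w (T.I (T.N (T.I (T.N a)))) +
        T.Z row w (T.I (T.N (T.I (T.N (T.I (T.N a)))))) := by
  have hrot : ∀ b, T.face^[4] (T.N b) = T.N b →
      T.face^[4] (T.N (T.I (T.N b))) = T.N (T.I (T.N b)) := by
    intro b hb
    have h1 : T.N (T.I (T.N b)) = T.face (T.N b) := rfl
    rw [h1, ← Function.iterate_succ_apply, Function.iterate_succ_apply', hb]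
  have hN : ∀ b, T.face^[4] (T.N b) = T.N b →
      T.I (T.N (T.I (T.N (T.I (T.N (T.I (T.N b))))))) = b := by
    intro b hb
    have h1 : T.N (T.I (T.N (T.I (T.N (T.I (T.N (T.I (T.N b)))))))) = T.N b := hb
    exact T.N.injective h1
  have a2 := hrot _ ha
  have a3 := hrot _ a2
  have a4 := hrot _ a3
  have key := fun b hb => T.quad_key (row := row) (w := w) h (a := b) hb
  have n1 := hN _ ha
  have k1 := key _ ha
  have k2 := key _ a2
  have k3 := key _ a3
  have k4 := key _ a4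
  rw [n1] at k2 k3 k4
  generalize T.kx a = x1 at *
  generalize T.kx (T.I (T.N a)) = x2 at *
  generalize T.kx (T.I (T.N (T.I (T.N a)))) = x3 at *
  generalize T.kx (T.I (T.N (T.I (T.N (T.I (T.N a)))))) = x4 at *
  have hc : (x2 ≤ x1 ∧ x3 ≤ x1 ∧ x4 ≤ x1) ∨ (x3 ≤ x2 ∧ x4 ≤ x2 ∧ x1 ≤ x2) ∨
      (x4 ≤ x3 ∧ x1 ≤ x3 ∧ x2 ≤ x3) ∨ (x1 ≤ x4 ∧ x2 ≤ x4 ∧ x3 ≤ x4) := by omega
  rcases hc with hc | hc | hc | hc
  · have := k1 hc.1 hc.2.1 hc.2.2
    omega
  · have := k2 hc.1 hc.2.1 hc.2.2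
    omega
  · have := k3 hc.1 hc.2.1 hc.2.2
    omega
  · have := k4 hc.1 hc.2.1 hc.2.2
    omega

end quad

end SMap

end Pool.Agent.Lib.MP_5854e1_co
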