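import Pool.Agent.Lib.MP_5854e1_co.Blk
import Pool.Agent.Lib.MP_5854e1_co.Quad

/-!
# The evaluation of a closed own word

The history of the search gives the own pairs of a cell and the blocks between them. The evaluation
makes one pass with all start lanes, then one pass for every start lane that is left, and then an
enumeration of the ring states from the last one to the first, in which the sparse corrections are
subtracted as soon as the neighbours of a corner are known.
-/

set_option autoImplicit false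

namespace Pool.Agent.Lib.MP_5854e1_co.CE

open Pk PB

noncomputable section

/-! ### Digits of packed vectors -/

theorem testBit_pk {w : ℕ} : ∀ {n : ℕ} {f : ℕ → ℕ} (_ : ∀ i < n, f i < 2 ^ w) {q b : ℕ},
    q < n → b < w → (pk w n f).testBit (w * q + b) = (f q).testBit b := by
  intro n
  induction n with
  | zero => intro f _ q b hq _; exact absurd hq (Nat.not_lt_zero _)
  | succ n ih =>
    intro f hf q b hq hb
    have h0 : f 0 < 2 ^ w := hf 0 (Nat.succ_pos _)
    rw [pk_succ, add_comm, Nat.testBit_two_pow_mul_add _ h0]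
    cases q with
    | zero => rw [mul_zero, zero_add, if_pos hb]
    | succ q =>
      have e : w * (q + 1) + b = w + (w * q + b) := by ring
      rw [e, if_neg (by omega), Nat.add_sub_cancel_left]
      exact ih (fun i hi => hf _ (by omega)) (by omega) hb

theorem testBit_guard {v n i : ℕ} (hi : i < n) :
    (guard v n).testBit ((v + 1) * i + v) = true := by
  rw [guard_eq, testBit_pk (fun _ _ => Nat.pow_lt_pow_right (by norm_num) (Nat.lt_succ_self v)) hi
    (Nat.lt_succ_self v)]
  exact Nat.testBit_two_pow_self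

theorem testBit_top {v x : ℕ} (h1 : 2 ^ v ≤ x) (h2 : x < 2 ^ (v + 1)) : x.testBit v = true := by
  rw [two_pow_succ'] at h2
  have e : x = 2 ^ v * 1 + (x - 2 ^ v) := by omega
  rw [e, Nat.testBit_two_pow_mul_add _ (by omega), if_neg (by omega), Nat.sub_self]
  rfl

/-- The digits of the candidates. -/
theorem testBit_cand {v n T A : ℕ} {f : ℕ → ℕ} (hT : Rep v n T f) (hA : A < 2 ^ v) {i : ℕ}
    (hi : i < n) (h : 2 ^ v ≤ f i + A) :
    ((T + A * rep (v + 1) n) &&& guard v n).testBit ((v + 1) * i + v) = true := by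
  have h1 : T + A * rep (v + 1) n = pk (v + 1) n (fun i => f i + A) := by
    rw [hT.eq, const_eq (Nat.succ_pos v), pk_add]
  have h2 : ∀ i < n, f i + A < 2 ^ (v + 1) := fun i hi => by
    have := hT.lt i hi
    rw [two_pow_succ']
    omega
  rw [Nat.testBit_and, testBit_guard hi, Bool.and_true, h1, testBit_pk h2 hi (Nat.lt_succ_self v)]
  exact testBit_top h (h2 i hi)

/-- A field of a vector cut to `n` fields. -/
theorem fl_cut {v n Y i : ℕ} (hi : i < n) : PB.fl v (Y % 2 ^ ((v + 1) * n)) i = PB.fl v Y i := by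
  unfold PB.fl
  refine field_trunc _ _ _ _ ?_
  calc (v + 1) * i + (v + 1) = (v + 1) * (i + 1) := by ring
    _ ≤ (v + 1) * n := Nat.mul_le_mul_left _ hi

/-! ### The loop over the lanes -/

/-- The index of the lane from the power `2 ^ (23 i + 22)`. -/
def lnOf (g : ℕ) : ℕ :=
  Nat.mod (Nat.shiftRight (nat_lit 7491411896907217018907186848013952241591679289990719427189228722922404030094049564208701973289385625442302946320772841415615258440248360150717052236174371178484992940962568993067197208993666228047762049762737610530935039745672966236546692351633566767680472641672707432666603052911642356454178062872442175286163126881457543637002347840330214430792366536877568)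
    (Nat.mul (nat_lit 8) (Nat.mod g (nat_lit 149)))) (nat_lit 256)

/-- The loop over the lanes `i` such that the digit `23 i + 22` of `z` is set. The lane may be
computed in any way. -/
def lp (f : ℕ → Bool) (n : ℕ) : ℕ → Bool :=
  Nat.rec (motive := fun _ => ℕ → Bool) (fun z => Nat.beq z (nat_lit 0))
    (fun _ ih z => Nat.rec (motive := fun _ => Bool) true
      (fun m _ => rLet (lnOf (Nat.gcd (Nat.succ m) (Nat.pow (nat_lit 2) (nat_lit 4000)))) fun i =>
        rAnd (f i) (ih (Nat.xor (Nat.succ m)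
          (Nat.pow (nat_lit 2) (Nat.add (Nat.mul (nat_lit 23) i) (nat_lit 22)))))) z) n

theorem lp_sound {f : ℕ → Bool} {i : ℕ} : ∀ {n z : ℕ}, lp f n z = true →
    z.testBit (23 * i + 22) = true → f i = true := by
  intro n
  induction n with
  | zero =>
    intro z h hz
    have h1 : z = 0 := Nat.eq_of_beq_eq_true h
    rw [h1] at hz
    simp at hz
  | succ n ih =>
    intro z h hz
    cases z with
    | zero => simp at hz
    | succ m =>
      have h1 : rLet (lnOf (Nat.gcd (Nat.succ m) (Nat.pow (nat_lit 2) (nat_lit 4000)))) (fun i =>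
        rAnd (f i) (lp f n ((m + 1) ^^^ 2 ^ (23 * i + 22)))) = true := h
      rw [rLet_eq] at h1
      generalize lnOf (Nat.gcd (Nat.succ m) (Nat.pow (nat_lit 2) (nat_lit 4000))) = i' at h1
      obtain ⟨h2, h3⟩ := rAnd_iff.1 h1
      by_cases hi : i' = i
      · rw [← hi]
        exact h2
      · refine ih h3 ?_
        rw [Nat.testBit_xor, hz, Nat.testBit_two_pow_of_ne (by omega)]
        rfl

/-! ### The column of a state -/

/-- The mask of one field of every group. -/
def smX (x : ℕ) : ℕ := smask 22 (cOf (nat_lit 0) (fa x) (fb x)) (fa x)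

/-- The modulus that compresses a strided vector. -/
def dX (x : ℕ) : ℕ := 2 ^ (23 * cOf (nat_lit 0) (fa x) (fb x)) - 2 ^ 23

/-- The modulus of the vectors of the first lanes. -/
def wX (x : ℕ) : ℕ := 2 ^ (23 * fa x)

/-- The distance of two columns. -/
def sX (x : ℕ) : ℕ := Nat.mul (nat_lit 23) (cOf (nat_lit 1) (fa x) (fb x))

/-- The column `j` of a state, as a vector over the first lanes. -/
def col (x S j : ℕ) : ℕ :=
  rIf (Nat.beq (fk x) (nat_lit 0))
    (Nat.mod (Nat.land (Nat.shiftRight S (Nat.mul (nat_lit 23) j)) (smX x)) (dX x))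
    (Nat.mod (Nat.shiftRight S (Nat.mul (sX x) j)) (wX x))

theorem col_rep {x S F j : ℕ} (ha : 0 < fa x) (hS : HB 22 (nX x) S F) (hj : j < fb x) :
    Rep 22 (fa x) (col x S j) (fun i => PB.fl 22 S (plX x i j)) := by
  have hk : fk x < 2 := Nat.mod_lt _ (by norm_num)
  unfold nX at hS
  unfold plX
  obtain hk0 | hk1 : fk x = 0 ∨ fk x = 1 := by omega
  · have e0 : col x S j = ((S >>> (23 * j)) &&& smask 22 (cOf 0 (fa x) (fb x)) (fa x)) %
        (2 ^ (23 * cOf 0 (fa x) (fb x)) - 2 ^ 23) := by
      unfold col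
      rw [hk0]
      rfl
    rw [hk0] at hS ⊢
    obtain ⟨hc1, hc2⟩ := cOf_zero (fa x) (fb x)
    have e1 : nOf 0 (fa x) (fb x) = cOf 0 (fa x) (fb x) * fa x := rfl
    have e2 : ∀ i, pl 0 (fa x) (fb x) i j = cOf 0 (fa x) (fb x) * i + j := fun i => rfl
    rw [e1] at hS
    rw [e0]
    generalize cOf 0 (fa x) (fb x) = c at hS hc1 hc2 e2 ⊢
    have h1 := (hS.rep.shift0 j).stride (show 0 < c by omega)
    have h2 := h1.compress hc1 (by omega)
    refine h2.congr fun i hi => ?_
    have h3 : c * i + j < c * fa x := mul_add_lt hi (lt_of_lt_of_le hj hc2)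
    have e3 : j + c * i = c * i + j := add_comm _ _
    simp only [e2]
    rw [e3, if_pos h3]
  · have e0 : col x S j = (S >>> (23 * cOf 1 (fa x) (fb x) * j)) % 2 ^ (23 * fa x) := by
      unfold col
      rw [hk1]
      rfl
    rw [hk1] at hS ⊢
    obtain ⟨hc1, hc2⟩ := cOf_succ 0 (fa x) (fb x)
    have e1 : nOf 1 (fa x) (fb x) = cOf 1 (fa x) (fb x) * fb x := rfl
    have e2 : ∀ i, pl 1 (fa x) (fb x) i j = cOf 1 (fa x) (fb x) * j + i := fun i => rfl
    rw [e1] at hS
    rw [e0]
    rw [zero_add] at hc1 hc2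
    generalize cOf 1 (fa x) (fb x) = c at hS hc1 hc2 e2 ⊢
    have h1 : c * j + fa x ≤ c * fb x := by
      calc c * j + fa x ≤ c * j + c := by omega
        _ = c * (j + 1) := by ring
        _ ≤ c * fb x := Nat.mul_le_mul_left _ hj
    have h2 := hS.rep.block h1
    have e3 : 23 * c * j = (22 + 1) * (c * j) := by ring
    rw [e3]
    refine h2.congr fun i _ => ?_
    simp only [e2]

/-- The loop over the lanes `i` of the column `T` with value larger than `- A`. -/
def cand (n T A : ℕ) (f : ℕ → ℕ → Bool) : Bool :=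
  lp (fun i => f i (fd0 T i)) n (Nat.land (Nat.add T (Nat.mul A (rep 23 n))) (guard 22 n))

theorem cand_sound {n T A : ℕ} {f : ℕ → ℕ → Bool} {g : ℕ → ℕ} (hT : Rep 22 n T g)
    (hA : A < 2 ^ 22) {i : ℕ} (hi : i < n) (h : 2 ^ 22 ≤ g i + A) (hf : cand n T A f = true) :
    f i (g i) = true := by
  have h1 : lp (fun i => f i (fd0 T i)) n ((T + A * rep 23 n) &&& guard 22 n) = true := hf
  have h2 := lp_sound h1 (testBit_cand hT hA hi h)
  rw [fd0_eq, PB.fl_eq hT hi] at h2
  exact h2

/-! ### The evaluation -/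

/-- The correction of a corner as a function of the corners before and after it (shape and state of
each). -/
abbrev Dv : Type := ℕ → ℕ → ℕ → ℕ → ℕ

/-- The new value: the arguments are the shape, the option and the lane before, the fields of the
state and of the vector, the old value and the correction. -/
abbrev Up : Type := ℕ → ℕ → ℕ → ℕ → ℕ → ℕ → ℕ → ℕ

/-- A loop over the ring states of a lane of an own pair. -/
abbrev Opts : Type := ℕ → ℕ → ℕ → (ℕ → Dv → Up → Bool) → Bool

/-- The correction of four consecutive corners. The arguments are the shape and the state of the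
second, the third, the fourth and the first corner. -/
abbrev Zf : Type := ℕ → ℕ → ℕ → ℕ → ℕ → ℕ → ℕ → ℕ → ℕ

/-- The own pairs and the ring states of a closed word. -/
inductive Pth : Type
  | nil : Pth
  | cons (k o s : ℕ) (rest : Pth) : Pth

/-- The value at the first corner. -/
def Pth.hd (f : ℕ → ℕ → ℕ) (p : Pth) : ℕ :=
  Pth.rec (motive := fun _ => ℕ) (nat_lit 0) (fun k _ s _ _ => f k s) p

/-- No correction. -/
def z0 : ℕ → ℕ → ℕ := fun _ _ => nat_lit 0

/-- The stack of a pass: the own pair before the step, the format of the block, the vector before and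
the state after the step. -/
inductive Stk : Type
  | nil : Stk
  | cons (k o x Y S : ℕ) (rest : Stk) : Stk

/-- The closed word: own pairs and the blocks to the next pair. -/
inductive Wd : Type
  | nil : Wd
  | cons (k o x M : ℕ) (rest : Wd) : Wd

/-- The offset of the values of the enumeration. -/
def off : ℕ := nat_lit 3145728

section ev

variable (op : Opts) (zf : Zf) (lf : Pth → ℕ)

/-- The enumeration backwards. The arguments are the shape, the option and the state of the corner,
the shape and the state of the next corner, the lane, the value, the correction, the update, the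
correction of the window and the corners behind. -/
def en (fin : Pth → ℕ → Bool) (st : Stk) :
    ℕ → ℕ → ℕ → ℕ → ℕ → ℕ → ℕ → Dv → Up → (ℕ → ℕ → ℕ) → Pth → Bool :=
  Stk.rec (motive := fun _ => ℕ → ℕ → ℕ → ℕ → ℕ → ℕ → ℕ → Dv → Up → (ℕ → ℕ → ℕ) → Pth → Bool)
    (fun _ _ _ _ _ _ A _ _ _ p => fin p A)
    (fun k o x Y S _ ih kc oc s kR sR j A dv up zw p =>
      rIf (Nat.ble (nat_lit 4194304) A) false
        (rLet (col x S j) fun T => cand (fa x) T A fun i v => op k o i fun s' dv' up' =>
          rLet (up k o i v (fd0 Y i) A (Nat.add (dv k s' kR sR) (zw k s'))) fun A' =>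
            ih k o s' kc s i A' dv' up' (zf k s' kc s kR sR) (Pth.cons kc oc s p))) st

/-- The test of the total `A` of a cell: it is at most `B`, or the cell `p` and the difference pass the
test `rg`. -/
def fnl (rg : Pth → ℕ → Bool) (p : Pth) (A B : ℕ) : Bool :=
  rIf (Nat.ble A B) true (rg p (Nat.sub A B))

variable (rg : Pth → ℕ → Bool)

/-- The enumeration for the start lane `r` of the pair `(kb, ob)`. -/
def top (kb ob r : ℕ) (st : Stk) : Bool :=
  Stk.rec (motive := fun _ => Bool) false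
    (fun k o x Y S rest _ => rLet (col x S r) fun T => op kb ob r fun s0 dv0 up0 =>
      cand (fa x) T off fun i v => op k o i fun s' dv' up' =>
        rLet (up0 k o i v (fd0 Y i) off (nat_lit 0)) fun A' =>
          en op zf (fun p A => rLet (Nat.add off (Nat.add (Pth.hd (dv0 k s') p) (lf p)))
              fun B => fnl rg p A B) rest
            k o s' kb s0 i A' dv' up' z0 (Pth.cons kb ob s0 Pth.nil)) st

/-- A pass. -/
def fw (fin : Stk → Bool) (W : Wd) : ℕ → Stk → Bool :=
  Wd.rec (motive := fun _ => ℕ → Stk → Bool) (fun _ st => fin st)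
    (fun k o x M _ ih Y st => rLet Y fun Y' => Nat.rec (motive := fun _ => Bool) true
      (fun m _ => ih (Op.fol (opX x) (Nat.succ m)) (Stk.cons k o x Y' (Nat.succ m) st))
      (Op.adv (opX x) M Y')) W

/-- The start lanes that are left after the first pass. -/
def lanes (g : ℕ → Bool) (st : Stk) : Bool :=
  Stk.rec (motive := fun _ => Bool) false
    (fun _ _ x _ S _ _ => rLet (Nat.mod (Op.fol (opX x) S) (2 ^ (23 * fb x))) fun T =>
      cand (fb x) T off fun r _ => g r) st

/-- The evaluation of a closed word. -/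
def cw (kb ob a : ℕ) (W : Wd) : Bool :=
  fw (lanes fun r => fw (top op zf lf rg kb ob r) W
    (Nat.shiftLeft (nat_lit 1048575) (Nat.mul (nat_lit 23) r)) Stk.nil) W
    (Nat.mul (nat_lit 1048575) (rep 23 a)) Stk.nil

/-- The closed word from the history; `(x, M)` is the block behind the pair. -/
def bw (g : Wd → Bool) (h : List Hs) : ℕ → ℕ → Wd → Bool :=
  List.rec (motive := fun _ => ℕ → ℕ → Wd → Bool) (fun _ _ W => g W)
    (fun a _ ih x M W => Hs.rec (motive := fun _ => Bool)
      (fun k o x' M' => ih x' M' (Wd.cons k o x M W)) a) h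

/-- **The evaluation.** The history starts with the last strip of the cell; `(x, M)` is the block from
its pair to the first pair. -/
def cev (h : List Hs) (x M : ℕ) : Bool :=
  List.rec (motive := fun _ => Bool) false
    (fun a l _ => Hs.rec (motive := fun _ => Bool)
      (fun k o x' M' => bw (fun W => cw op zf lf rg k o (fa x) (Wd.cons k o x M W)) l x' M' Wd.nil) a) h

end ev

/-! ### Soundness -/

open Finset

/-- The last `n` corners of a word of length `b`. -/
def pt (b : ℕ) (k o s : ℕ → ℕ) : ℕ → Pth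
  | 0 => Pth.nil
  | n + 1 => Pth.cons (k (b - n)) (o (b - n)) (s (b - n)) (pt b k o s n)

/-- The correction of the window which starts before the corner `t`. -/
def zw (zf : Zf) (b : ℕ) (k s : ℕ → ℕ) (t : ℕ) : ℕ → ℕ → ℕ :=
  if t + 1 < b then zf (k t) (s t) (k (t + 1)) (s (t + 1)) (k (t + 2)) (s (t + 2)) else z0

/-- The data of a cell: own pairs `(k t, o t)`, the block `M t` of format `x t` from the pair `t - 1`
to the pair `t`, the lane `i t`, the value `r t` of the step to the pair `t` and the correction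
`d t`. The pair `b` is the pair `0`. -/
structure Cell (op : Opts) (zf : Zf) (lf : Pth → ℕ) (b : ℕ) (k o x M i s : ℕ → ℕ) (r d : ℕ → ℤ)
    (dv : ℕ → Dv) (up : ℕ → Up) : Prop where
  b_pos : 0 < b
  b_le : b ≤ 40
  k_per : k 0 = k b
  o_per : o 0 = o b
  i_per : i 0 = i b
  opt : ∀ t ≤ b, ∀ f, op (k t) (o t) (i t) f = true → f (s t) (dv t) (up t) = true
  d_nonneg : ∀ t, 0 ≤ d t
  dv_le : ∀ t, t + 1 < b → ((dv (t + 1) (k t) (s t) (k (t + 2)) (s (t + 2)) +
    zw zf b k s (t + 1) (k t) (s t) : ℕ) : ℤ) ≤ d (t + 1)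
  dv_top : ((dv b (k (b - 1)) (s (b - 1)) (k 1) (s 1) + lf (pt b k o s b) : ℕ) : ℤ) ≤ d b
  up_le : ∀ t < b, ∀ S Y A δ : ℕ,
    ((PB.fl 22 (M (t + 1)) (plX (x (t + 1)) (i t) (i (t + 1))) : ℤ) - kap0 ≤ S - Y) →
    (A : ℤ) + r (t + 1) - δ ≤ up (t + 1) (k t) (o t) (i t) S Y A δ
  ent : ∀ t < b, r (t + 1) + kap0 ≤ (PB.fl 22 (M (t + 1)) (plX (x (t + 1)) (i t) (i (t + 1))) : ℤ)
  pos : ∀ t, t + 1 < b → 0 < ∑ u ∈ range (t + 1), r (u + 1)
  fa_pos : ∀ t < b, 0 < fa (x (t + 1))
  fb_pos : ∀ t < b, 0 < fb (x (t + 1))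
  i_lt : ∀ t < b, i t < fa (x (t + 1))
  j_lt : ∀ t < b, i (t + 1) < fb (x (t + 1))
  dim : ∀ t, t + 1 < b → fb (x (t + 1)) = fa (x (t + 2))
  dim_top : fb (x b) = fa (x 1)
  hb : ∀ t < b, HB 22 (nX (x (t + 1))) (M (t + 1)) (2 ^ 17)

namespace Cell

variable {op : Opts} {zf : Zf} {lf : Pth → ℕ} {b : ℕ} {k o x M i s : ℕ → ℕ} {r d : ℕ → ℤ}
  {dv : ℕ → Dv} {up : ℕ → Up} {rg : Pth → ℕ → Bool}

/-- The stack is correct. -/
inductive Good (b : ℕ) (k o x M i : ℕ → ℕ) (r : ℕ → ℤ) : ℕ → Stk → Prop
  | nil : Good b k o x M i r 0 Stk.nil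
  | cons {t : ℕ} {st : Stk} {Y S F : ℕ} (h : Good b k o x M i r t st)
      (hS : HB 22 (nX (x (t + 1))) S F)
      (h1 : 1048575 + ∑ u ∈ range (t + 1), r (u + 1) ≤
        (PB.fl 22 S (plX (x (t + 1)) (i t) (i (t + 1))) : ℤ))
      (h2 : ((PB.fl 22 (M (t + 1)) (plX (x (t + 1)) (i t) (i (t + 1))) : ℤ) - kap0 ≤
        PB.fl 22 S (plX (x (t + 1)) (i t) (i (t + 1))) - PB.fl 22 Y (i t))) :
      Good b k o x M i r (t + 1) (Stk.cons (k t) (o t) (x (t + 1)) Y S st)

theorem pt_succ {t : ℕ} (ht : t < b) :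
    Pth.cons (k (t + 1)) (o (t + 1)) (s (t + 1)) (pt b k o s (b - (t + 1))) =
      pt b k o s (b - t) := by
  have e1 : b - t = b - (t + 1) + 1 := by omega
  have e2 : b - (b - (t + 1)) = t + 1 := by omega
  rw [e1, pt, e2]

/-- The enumeration. -/
theorem en_sound (C : Cell op zf lf b k o x M i s r d dv up) {fin : Pth → ℕ → Bool} {t : ℕ}
    {st : Stk} (hg : Good b k o x M i r t st) : ∀ (A : ℕ) (suf : ℤ), t < b → off + suf ≤ A →
    0 < suf + ∑ u ∈ range t, (r (u + 1) - d (u + 1)) →
    en op zf fin st (k t) (o t) (s t) (k (t + 1)) (s (t + 1)) (i t) A (dv t) (up t)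
      (zw zf b k s t) (pt b k o s (b - t)) = true →
    ∃ A' : ℕ, fin (pt b k o s b) A' = true ∧
      off + suf + ∑ u ∈ range t, (r (u + 1) - d (u + 1)) ≤ A' := by
  induction hg with
  | nil =>
    intro A suf _ hA _ h
    exact ⟨A, h, by simpa using hA⟩
  | @cons t st Y S F h0 hS h1 h2 ih =>
    intro A suf ht hA hpos h
    have h3 : rIf (Nat.ble 4194304 A) false
        (rLet (col (x (t + 1)) S (i (t + 1))) fun T => cand (fa (x (t + 1))) T A fun i' v =>
          op (k t) (o t) i' fun s' dv' up' => rLet (up (t + 1) (k t) (o t) i' v (fd0 Y i') A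
            (dv (t + 1) (k t) s' (k (t + 2)) (s (t + 2)) + zw zf b k s (t + 1) (k t) s')) fun A' =>
            en op zf fin st (k t) (o t) s' (k (t + 1)) (s (t + 1)) i' A' dv' up'
              (zf (k t) s' (k (t + 1)) (s (t + 1)) (k (t + 2)) (s (t + 2)))
              (Pth.cons (k (t + 1)) (o (t + 1)) (s (t + 1)) (pt b k o s (b - (t + 1))))) =
          true := h
    cases hb : Nat.ble 4194304 A with
    | true => rw [hb] at h3; exact absurd h3 Bool.false_ne_true
    | false =>
      rw [hb, rIf_false, rLet_eq] at h3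
      have hA2 : A < 2 ^ 22 := by
        by_contra hcon
        push Not at hcon
        have : Nat.ble 4194304 A = true := Nat.ble_eq_true_of_le (by norm_num at hcon; exact hcon)
        rw [this] at hb
        exact absurd hb.symm Bool.false_ne_true
      have ht' : t < b := by omega
      have hd : 0 ≤ ∑ u ∈ range (t + 1), d (u + 1) := Finset.sum_nonneg fun u _ => C.d_nonneg _
      have hR : 1 ≤ suf + ∑ u ∈ range (t + 1), r (u + 1) := by
        rw [Finset.sum_sub_distrib] at hpos
        linarith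
      have hT := col_rep (C.fa_pos t ht') hS (C.j_lt t ht')
      have e1 : (off : ℤ) = 3145728 := rfl
      have h4 := cand_sound hT hA2 (C.i_lt t ht') (by
        have e2 : ((2 ^ 22 : ℕ) : ℤ) = 4194304 := by norm_num
        have : ((2 ^ 22 : ℕ) : ℤ) ≤ ((PB.fl 22 S (plX (x (t + 1)) (i t) (i (t + 1))) + A : ℕ) : ℤ) := by
          rw [e2]
          push_cast
          linarith
        exact_mod_cast this) h3
      have h5 := C.opt t ht'.le _ h4
      rw [rLet_eq, pt_succ ht'] at h5
      have e3 : zf (k t) (s t) (k (t + 1)) (s (t + 1)) (k (t + 2)) (s (t + 2)) =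
        zw zf b k s t := by
        unfold zw
        rw [if_pos ht]
      rw [e3] at h5
      have h6 := C.up_le t ht' _ _ A (dv (t + 1) (k t) (s t) (k (t + 2)) (s (t + 2)) +
        zw zf b k s (t + 1) (k t) (s t)) h2
      have h7 := C.dv_le t ht
      rw [fd0_eq] at h5
      obtain ⟨A', h8, h9⟩ := ih _ (suf + r (t + 1) - d (t + 1)) ht' (by linarith) (by
        rw [Finset.sum_range_succ] at hpos
        linarith) h5
      refine ⟨A', h8, ?_⟩
      rw [Finset.sum_range_succ]
      linarith

/-- The enumeration for a start lane. -/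
theorem top_sound (C : Cell op zf lf b k o x M i s r d dv up) {st : Stk}
    (hg : Good b k o x M i r b st) (h : top op zf lf rg (k b) (o b) (i b) st = true) :
    ∃ m : ℕ, ∑ u ∈ range b, (r (u + 1) - d (u + 1)) ≤ m ∧
      (m = 0 ∨ rg (pt b k o s b) m = true) := by
  by_cases hcon : ∑ u ∈ range b, (r (u + 1) - d (u + 1)) ≤ 0
  · exact ⟨0, by simpa using hcon, Or.inl rfl⟩
  push Not at hcon
  cases hg with
  | nil => exact absurd C.b_pos (Nat.lt_irrefl 0)
  | @cons t st Y S F h0 hS h1 h2 =>
    have h3 : rLet (col (x (t + 1)) S (i (t + 1))) (fun T => op (k (t + 1)) (o (t + 1)) (i (t + 1))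
      fun s0 dv0 up0 => cand (fa (x (t + 1))) T off fun i' v => op (k t) (o t) i' fun s' dv' up' =>
        rLet (up0 (k t) (o t) i' v (fd0 Y i') off 0) fun A' =>
          en op zf (fun p A => rLet (Nat.add off (Nat.add (Pth.hd (dv0 (k t) s') p) (lf p)))
              fun B => fnl rg p A B) st
            (k t) (o t) s' (k (t + 1)) s0 i' A' dv' up' z0
            (Pth.cons (k (t + 1)) (o (t + 1)) s0 Pth.nil)) = true := h
    rw [rLet_eq] at h3
    have ht' : t < t + 1 := Nat.lt_succ_self t
    have h4 := C.opt (t + 1) le_rfl _ h3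
    have hd : 0 ≤ ∑ u ∈ range (t + 1), d (u + 1) := Finset.sum_nonneg fun u _ => C.d_nonneg _
    have hR : 1 ≤ ∑ u ∈ range (t + 1), r (u + 1) := by
      rw [Finset.sum_sub_distrib] at hcon
      linarith
    have hT := col_rep (C.fa_pos t ht') hS (C.j_lt t ht')
    have e1 : (off : ℤ) = 3145728 := rfl
    have h5 := cand_sound hT (by decide : off < 2 ^ 22) (C.i_lt t ht') (by
      have e2 : ((2 ^ 22 : ℕ) : ℤ) = 4194304 := by norm_num
      have : ((2 ^ 22 : ℕ) : ℤ) ≤
          ((PB.fl 22 S (plX (x (t + 1)) (i t) (i (t + 1))) + off : ℕ) : ℤ) := by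
        rw [e2]
        push_cast
        linarith
      exact_mod_cast this) h4
    have h6 := C.opt t ht'.le _ h5
    rw [rLet_eq] at h6
    have h7 := C.up_le t ht' _ _ off 0 h2
    rw [fd0_eq] at h6
    have e2 : z0 = zw zf (t + 1) k s t := by
      unfold zw
      rw [if_neg (Nat.lt_irrefl _)]
    have e3 : Pth.cons (k (t + 1)) (o (t + 1)) (s (t + 1)) Pth.nil =
        pt (t + 1) k o s (t + 1 - t) := by
      rw [Nat.add_sub_cancel_left]
      rfl
    rw [e2, e3] at h6
    push_cast at h7
    obtain ⟨A', h8, h9⟩ := C.en_sound h0 _ (r (t + 1)) ht' (by linarith) (by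
        rw [Finset.sum_range_succ] at hcon
        have := C.d_nonneg (t + 1)
        linarith) h6
    have e4 : Pth.hd (dv (t + 1) (k t) (s t)) (pt (t + 1) k o s (t + 1)) =
        dv (t + 1) (k t) (s t) (k 1) (s 1) := by
      rw [pt, Nat.add_sub_cancel_left]
      rfl
    rw [rLet_eq, e4] at h8
    have h11 := C.dv_top
    rw [Nat.add_sub_cancel] at h11
    rw [Finset.sum_range_succ] at hcon
    have h13 : rIf (Nat.ble A' (off + (dv (t + 1) (k t) (s t) (k 1) (s 1) +
        lf (pt (t + 1) k o s (t + 1))))) true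
        (rg (pt (t + 1) k o s (t + 1)) (A' - (off + (dv (t + 1) (k t) (s t) (k 1) (s 1) +
          lf (pt (t + 1) k o s (t + 1)))))) = true := h8
    cases h14 : Nat.ble A' (off + (dv (t + 1) (k t) (s t) (k 1) (s 1) +
        lf (pt (t + 1) k o s (t + 1)))) with
    | true =>
      exfalso
      have h10 := Nat.le_of_ble_eq_true h14
      have h12 : (A' : ℤ) ≤ off + ((dv (t + 1) (k t) (s t) (k 1) (s 1) +
        lf (pt (t + 1) k o s (t + 1)) : ℕ) : ℤ) := by exact_mod_cast h10
      linarith
    | false =>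
      rw [h14, rIf_false] at h13
      refine ⟨_, ?_, Or.inr h13⟩
      rw [Finset.sum_range_succ]
      have h15 : (A' : ℤ) - (off + (dv (t + 1) (k t) (s t) (k 1) (s 1) +
        lf (pt (t + 1) k o s (t + 1))) : ℕ) ≤ ((A' - (off + (dv (t + 1) (k t) (s t) (k 1) (s 1) +
          lf (pt (t + 1) k o s (t + 1)))) : ℕ) : ℤ) := by omega
      push_cast at h15 h11 ⊢
      linarith

/-- The part of the word behind the pair `b - n`. -/
def wd (b : ℕ) (k o x M : ℕ → ℕ) : ℕ → Wd
  | 0 => Wd.nil
  | n + 1 => Wd.cons (k (b - (n + 1))) (o (b - (n + 1))) (x (b - n)) (M (b - n)) (wd b k o x M n)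

/-- The bound of the fields after `t` steps. -/
def bnd (t : ℕ) : ℕ := 1048576 + t * 65536

theorem bnd_pos (t : ℕ) : 0 < bnd t := by unfold bnd; omega

theorem bnd_le {t : ℕ} (h : t ≤ 40) : bnd t + 2 ^ 17 ≤ 2 ^ 22 := by
  unfold bnd
  omega

theorem bnd_succ (t : ℕ) : bnd t + 2 ^ 17 - kap0 = bnd (t + 1) := by
  have e : kap0 = 65536 := rfl
  rw [e]
  unfold bnd
  omega

theorem kap_lt (t : ℕ) : kap0 < bnd t + 2 ^ 17 := by
  have e : kap0 = 65536 := rfl
  rw [e]
  unfold bnd
  omega

/-- A pass. -/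
theorem fw_sound (C : Cell op zf lf b k o x M i s r d dv up) (hR : 0 < ∑ u ∈ range b, r (u + 1))
    {fin : Stk → Bool} : ∀ (n t Y : ℕ) (st : Stk), n + t = b → Good b k o x M i r t st →
    (t < b → Vec 22 (fa (x (t + 1))) Y (bnd t)) →
    (1048575 + ∑ u ∈ range t, r (u + 1) ≤ (PB.fl 22 Y (i t) : ℤ)) →
    fw fin (wd b k o x M n) Y st = true → ∃ st', Good b k o x M i r b st' ∧ fin st' = true := by
  intro n
  induction n with
  | zero =>
    intro t Y st hn hg _ _ h
    obtain rfl : t = b := by omega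
    exact ⟨st, hg, h⟩
  | succ n ih =>
    intro t Y st hn hg hY hv h
    have ht : t < b := by omega
    have e1 : b - (n + 1) = t := by omega
    have e2 : b - n = t + 1 := by omega
    have h0 : rLet Y (fun Y' => Nat.rec (motive := fun _ => Bool) true
      (fun m _ => fw fin (wd b k o x M n) (Op.fol (opX (x (b - n))) (Nat.succ m))
        (Stk.cons (k (b - (n + 1))) (o (b - (n + 1))) (x (b - n)) Y' (Nat.succ m) st))
      (Op.adv (opX (x (b - n))) (M (b - n)) Y')) = true := h
    rw [rLet_eq, e1, e2] at h0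
    have hop := opX_ok (C.fa_pos t ht) (C.fb_pos t ht)
    have hY' := hY ht
    have hM := C.hb t ht
    have hbl := C.b_le
    have hF : bnd t + 2 ^ 17 ≤ 2 ^ 22 := bnd_le (by omega)
    have hHB := hop.adv_HB hY' hM hF (kap_lt t)
    have hvf : vf 22 (fa (x (t + 1))) Y (i t) = PB.fl 22 Y (i t) := fl_cut (C.i_lt t ht)
    have hent := C.ent t ht
    have hpos : 0 < ∑ u ∈ range (t + 1), r (u + 1) := by
      by_cases h5 : t + 1 < b
      · exact C.pos t h5
      · obtain rfl : b = t + 1 := by omega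
        exact hR
    have hth : tht ≤ vf 22 (fa (x (t + 1))) Y (i t) +
        PB.fl 22 (M (t + 1)) (plX (x (t + 1)) (i t) (i (t + 1))) := by
      have e3 : (tht : ℤ) = 1048575 + kap0 + 1 := by norm_num [tht, kap0]
      have : (tht : ℤ) ≤ ((vf 22 (fa (x (t + 1))) Y (i t) +
          PB.fl 22 (M (t + 1)) (plX (x (t + 1)) (i t) (i (t + 1))) : ℕ) : ℤ) := by
        rw [e3, hvf]
        rw [Finset.sum_range_succ] at hpos
        push_cast
        linarith
      exact_mod_cast this
    have hle := hop.adv_le hY' hM hF _ (C.i_lt t ht) _ (C.j_lt t ht) hth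
    rw [hvf] at hle
    have hle' : (PB.fl 22 Y (i t) : ℤ) +
        PB.fl 22 (M (t + 1)) (plX (x (t + 1)) (i t) (i (t + 1))) ≤
        PB.fl 22 ((opX (x (t + 1))).adv (M (t + 1)) Y) (plX (x (t + 1)) (i t) (i (t + 1))) +
          kap0 := by exact_mod_cast hle
    have hval : 1048575 + ∑ u ∈ range (t + 1), r (u + 1) ≤
        (PB.fl 22 ((opX (x (t + 1))).adv (M (t + 1)) Y)
          (plX (x (t + 1)) (i t) (i (t + 1))) : ℤ) := by
      rw [Finset.sum_range_succ]
      linarith
    rw [bnd_succ] at hHB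
    have hfl := hop.fol_HB hHB (bnd_pos _)
    have hfv := hop.fol_le hHB (bnd_pos _) _ (C.i_lt t ht) _ (C.j_lt t ht)
    generalize hS : (opX (x (t + 1))).adv (M (t + 1)) Y = S at *
    cases S with
    | zero =>
      exfalso
      have e5 : PB.fl 22 0 (plX (x (t + 1)) (i t) (i (t + 1))) = 0 := by simp [PB.fl]
      rw [e5] at hval
      push_cast at hval
      linarith
    | succ m =>
      have h6 : fw fin (wd b k o x M n) (Op.fol (opX (x (t + 1))) (m + 1))
        (Stk.cons (k t) (o t) (x (t + 1)) Y (m + 1) st) = true := h0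
      have hj : vf 22 (fb (x (t + 1))) ((opX (x (t + 1))).fol (m + 1)) (i (t + 1)) =
          PB.fl 22 ((opX (x (t + 1))).fol (m + 1)) (i (t + 1)) := fl_cut (C.j_lt t ht)
      refine ih (t + 1) _ _ (by omega) (Good.cons hg hHB hval (by linarith)) (fun h7 => ?_) ?_ h6
      · rw [← C.dim t h7]
        exact hfl
      · rw [hj] at hfv
        have : (PB.fl 22 (m + 1) (plX (x (t + 1)) (i t) (i (t + 1))) : ℤ) ≤
          PB.fl 22 ((opX (x (t + 1))).fol (m + 1)) (i (t + 1)) := by exact_mod_cast hfv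
        linarith

theorem good_top (C : Cell op zf lf b k o x M i s r d dv up) (hR : 0 < ∑ u ∈ range b, r (u + 1))
    {g : ℕ → Bool} {st : Stk} (hg : Good b k o x M i r b st) (h : lanes g st = true) :
    g (i b) = true := by
  cases hg with
  | nil => exact absurd C.b_pos (Nat.lt_irrefl 0)
  | @cons t st Y S F h0 hS h1 h2 =>
    have ht : t < t + 1 := Nat.lt_succ_self t
    have hop := opX_ok (C.fa_pos t ht) (C.fb_pos t ht)
    have hF : 0 < F := lt_of_le_of_lt (Nat.zero_le _)
      (hS.lt _ (hop.lt _ (C.i_lt t ht) _ (C.j_lt t ht)))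
    have hv : HB 22 (fb (x (t + 1))) ((opX (x (t + 1))).fol S % 2 ^ (23 * fb (x (t + 1)))) F :=
      hop.fol_HB hS hF
    have hle := hop.fol_le hS hF _ (C.i_lt t ht) _ (C.j_lt t ht)
    have h3 : rLet (Nat.mod ((opX (x (t + 1))).fol S) (2 ^ (23 * fb (x (t + 1))))) (fun T =>
      cand (fb (x (t + 1))) T off fun r _ => g r) = true := h
    rw [rLet_eq] at h3
    refine cand_sound hv.rep (by decide : off < 2 ^ 22) (C.j_lt t ht) ?_ h3
    have e2 : ((2 ^ 22 : ℕ) : ℤ) = 4194304 := by norm_num
    have e1 : (off : ℤ) = 3145728 := rfl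
    have e3 : (PB.fl 22 S (plX (x (t + 1)) (i t) (i (t + 1))) : ℤ) ≤
      PB.fl 22 ((opX (x (t + 1))).fol S % 2 ^ (23 * fb (x (t + 1)))) (i (t + 1)) := by
        exact_mod_cast hle
    have : ((2 ^ 22 : ℕ) : ℤ) ≤ ((PB.fl 22 ((opX (x (t + 1))).fol S % 2 ^ (23 * fb (x (t + 1))))
        (i (t + 1)) + off : ℕ) : ℤ) := by
      rw [e2]
      push_cast
      linarith
    exact_mod_cast this

theorem code_lt : 1048575 < 2 ^ 22 := by norm_num

theorem vec_all (n : ℕ) : Vec 22 n (1048575 * rep 23 n) (bnd 0) := by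
  have h1 : Rep 22 n (const 22 n 1048575) (fun _ => 1048575) := Rep.const code_lt
  exact ⟨_, h1.take le_rfl, fun i _ => by unfold bnd; omega⟩

theorem fl_all {n i : ℕ} (hi : i < n) : PB.fl 22 (1048575 * rep 23 n) i = 1048575 := by
  have h1 : Rep 22 n (const 22 n 1048575) (fun _ => 1048575) := Rep.const code_lt
  exact PB.fl_eq h1 hi

theorem rep_one {n r : ℕ} (hr : r < n) : Rep 22 n (1048575 <<< (23 * r))
    (fun i => if i < r + 1 then (if i < r then 0 else 1048575) else 0) := by
  have h1 : Rep 22 1 1048575 (fun _ => 1048575) := by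
    refine ⟨?_, fun _ _ => code_lt⟩
    rw [show (1 : ℕ) = 0 + 1 from rfl, pk_succ, pk_zero]
    norm_num
  have h2 := (Rep.zero (v := 22) (n := r)).append h1
  rw [zero_add] at h2
  exact h2.pad (by omega)

theorem vec_one {n r : ℕ} (hr : r < n) : Vec 22 n (1048575 <<< (23 * r)) (bnd 0) := by
  refine ⟨_, (rep_one hr).take le_rfl, fun i _ => ?_⟩
  unfold bnd
  split_ifs <;> omega

theorem fl_one {n r : ℕ} (hr : r < n) : PB.fl 22 (1048575 <<< (23 * r)) r = 1048575 := by
  rw [PB.fl_eq (rep_one hr) hr]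
  simp

/-- The evaluation of a word. -/
theorem cw_sound (C : Cell op zf lf b k o x M i s r d dv up)
    (h : cw op zf lf rg (k b) (o b) (fa (x 1)) (wd b k o x M b) = true) :
    ∃ m : ℕ, ∑ u ∈ range b, (r (u + 1) - d (u + 1)) ≤ m ∧
      (m = 0 ∨ rg (pt b k o s b) m = true) := by
  by_cases hcon : ∑ u ∈ range b, (r (u + 1) - d (u + 1)) ≤ 0
  · exact ⟨0, by simpa using hcon, Or.inl rfl⟩
  push Not at hcon
  have hb := C.b_pos
  have hR : 0 < ∑ u ∈ range b, r (u + 1) := by
    have hd : 0 ≤ ∑ u ∈ range b, d (u + 1) := Finset.sum_nonneg fun u _ => C.d_nonneg _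
    rw [Finset.sum_sub_distrib] at hcon
    linarith
  obtain ⟨st, h1, h2⟩ := C.fw_sound hR b 0 _ Stk.nil (by omega) Good.nil
    (fun _ => vec_all (fa (x 1))) (by
      have := fl_all (C.i_lt 0 hb)
      rw [zero_add] at this
      rw [this]
      simp) h
  have h3 := C.good_top hR h1 h2
  have hi : i b < fa (x 1) := by
    have := C.i_lt 0 hb
    rw [C.i_per, zero_add] at this
    exact this
  obtain ⟨st', h4, h5⟩ := C.fw_sound hR b 0 _ Stk.nil (by omega) Good.nil
    (fun _ => vec_one hi) (by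
      have := fl_one hi
      rw [C.i_per]
      show (1048575 : ℤ) + _ ≤ _
      erw [this]
      simp) h3
  exact C.top_sound h4 h5

/-- The history. -/
def hsl (k o x M : ℕ → ℕ) (x1 M1 : ℕ) : ℕ → List Hs
  | 0 => []
  | 1 => [Hs.mk (k 1) (o 1) x1 M1]
  | t + 2 => Hs.mk (k (t + 2)) (o (t + 2)) (x (t + 2)) (M (t + 2)) :: hsl k o x M x1 M1 (t + 1)

theorem bw_hsl {g : Wd → Bool} {x1 M1 : ℕ} : ∀ t, t + 1 ≤ b →
    bw g (hsl k o x M x1 M1 t) (x (t + 1)) (M (t + 1)) (wd b k o x M (b - (t + 1))) =
      g (wd b k o x M (b - 1)) := by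
  intro t
  induction t with
  | zero => intro _; rfl
  | succ t ih =>
    intro ht
    have e1 : b - (t + 1) = (b - (t + 1 + 1)) + 1 := by omega
    have e2 : b - (b - (t + 1 + 1) + 1) = t + 1 := by omega
    have e3 : b - (b - (t + 1 + 1)) = t + 2 := by omega
    have ih' := ih (by omega)
    rw [e1, wd, e2, e3] at ih'
    cases t with
    | zero => rw [← ih']; rfl
    | succ t => rw [← ih']; rfl

/-- **The evaluation.** -/
theorem cev_sound (C : Cell op zf lf b k o x M i s r d dv up) {x1 M1 : ℕ}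
    (h : cev op zf lf rg (hsl k o x M x1 M1 b) (x 1) (M 1) = true) :
    ∃ m : ℕ, ∑ u ∈ range b, (r (u + 1) - d (u + 1)) ≤ m ∧
      (m = 0 ∨ rg (pt b k o s b) m = true) := by
  refine C.cw_sound ?_
  have hb := C.b_pos
  obtain ⟨n, rfl⟩ := Nat.exists_eq_succ_of_ne_zero hb.ne'
  have e1 : wd (n + 1) k o x M (n + 1) =
      Wd.cons (k (n + 1)) (o (n + 1)) (x 1) (M 1) (wd (n + 1) k o x M n) := by
    rw [wd, Nat.sub_self, C.k_per, C.o_per, Nat.add_sub_cancel_left]
  rw [Nat.succ_eq_add_one, e1]
  cases n with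
  | zero => exact h
  | succ n =>
    have h1 := bw_hsl (b := n + 1 + 1) (k := k) (o := o) (x := x) (M := M) (x1 := x1) (M1 := M1)
      (g := fun W => cw op zf lf rg (k (n + 1 + 1)) (o (n + 1 + 1)) (fa (x 1))
        (Wd.cons (k (n + 1 + 1)) (o (n + 1 + 1)) (x 1) (M 1) W)) (n + 1) le_rfl
    rw [Nat.sub_self, Nat.add_sub_cancel] at h1
    rw [← h1]
    exact h

end Cell

end

end Pool.Agent.Lib.MP_5854e1_co.CE
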