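import Pool.Agent.Lib.MP_5854e1_co.Delta
import Pool.Agent.Lib.MP_5854e1_co.Quad

/-!
# Corrections of four consecutive corners

The window at a strip consists of the two corners `T_l` and `T_r` at its ends, which are triangular,
and of the tokens of the corner before `T_l` and of the corner behind `T_r`.
-/

set_option autoImplicit false

open Equiv Equiv.Perm

namespace Pool.Agent.Lib.MP_5854e1_co

noncomputable section

/-- The key of two consecutive triangular corners: shape and state of the first one, state of the
second one. -/
def zkey (k s s' : ℕ) : ℕ := Nat.add s' (Nat.mul (nat_lit 8192) (dkey k s))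

/-- No correction. -/
def zn : ℕ → ℕ → ℕ := fun _ _ => nat_lit 0

/-- The correction as a function of the shape and the state of the first corner of the window. -/
def zrow (r : DR) : ℕ → ℕ → ℕ := fun kX sX => DR.val r (xrT rjA kX sX)

/-- The correction of a window. The arguments are the shape and the state of the second, the third,
the fourth and the first corner. -/
def zfn (zt : DT) (kl sl _kr sr ky sy : ℕ) : ℕ → ℕ → ℕ :=
  rIf (Nat.ble (nat_lit 7936) sl) zn (rIf (Nat.ble (nat_lit 7936) sr) zn
    (rLet (xrT trX ky sy) fun y => zrow (DL.grp (DT.get zt (zkey kl sl sr)) y)))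

end

namespace SMap

variable {F : Type*} (T : SMap F)

open Classical in
/-- The correction of the window at the strip `N a`: its corners are the corner after `a` and the
corner after `N a`. -/
noncomputable def win (zt : DT) (a : F) : ℕ :=
  if T.Tri a ∧ T.Tri (T.N a) then
    DL.val (DT.get zt (zkey (T.kx a) (T.rs a) (T.rs (T.N a)))) (T.X trX (T.N (T.N a)))
      (T.X trX (T.I a))
  else 0

theorem win_tri {zt : DT} {a : F} (h1 : T.Tri a) (h2 : T.Tri (T.N a)) : T.win zt a =
    DL.val (DT.get zt (zkey (T.kx a) (T.rs a) (T.rs (T.N a)))) (T.X trX (T.N (T.N a)))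
      (T.X trX (T.I a)) := if_pos ⟨h1, h2⟩

theorem win_left {zt : DT} {a : F} (h : ¬T.Tri a) : T.win zt a = 0 := if_neg fun h1 => h h1.1

theorem win_right {zt : DT} {a : F} (h : ¬T.Tri (T.N a)) : T.win zt a = 0 :=
  if_neg fun h1 => h h1.2

end SMap

end Pool.Agent.Lib.MP_5854e1_co
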