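import Pool.Agent.Lib.MP_5854e1_co.Close
import Pool.Agent.Lib.MP_5854e1_co.SymChk
import Pool.Agent.Lib.MP_5854e1_co.Clo
import Pool.Agent.Lib.MP_5854e1_co.Win4

/-!
# The evaluation of a closed word in a map of strips
-/

set_option autoImplicit false

namespace Pool.Agent.Lib.MP_5854e1_co.CE

open PB

noncomputable section

section defs

variable (t tw t4 : DT) (tr tl : ℕ → ℕ → ℕ) (vx : ℕ → ℕ → ℕ → ℕ → ℕ → ℕ → ℕ)

/-- The ring state of a lane of triangular corners. -/
def sl (k o i : ℕ) : ℕ :=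
  rIf (cnn k o) (Nat.add (triOff k o) i) (mS (mK k) (Nat.add (triOff (mK k) (mO' k o)) i))

/-- The correction of a triangular corner. -/
def dvT (row row2 : DL) : Dv := fun kL sL kR sR => rLet (xrT rjA kL sL) fun xl =>
  rLet (xrT trX kR sR) fun xr => Nat.add (DL.val row xl xr) (DL.val row2 xl xr)

/-- The correction of another corner. -/
def dvQ (row : DL) : Dv := fun kL sL kR sR => DL.val row (xrT tl kL sL) (xrT tr kR sR)

/-- No correction. -/
def dv0 : Dv := fun _ _ _ _ => nat_lit 0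

/-- The new value, from the state and the vector. -/
def upS : Up := fun _ _ _ S Y A d => Nat.sub (Nat.add A S) (Nat.add Y d)

/-- The new value, from the exact value of the step. The ring state is impossible if the exact value is
larger than the one of the block. -/
def upV (k o b : ℕ) : Up := fun k0 o0 i0 S Y A d => rLet (vx k0 o0 i0 k o b) fun v =>
  rIf (Nat.ble (Nat.succ (Nat.add S (nat_lit 65536))) (Nat.add Y v)) (nat_lit 0)
    (Nat.sub (Nat.add A v) (Nat.add (nat_lit 65536) d))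

/-- The row is empty. -/
def dnil (l : DL) : Bool := DL.rec (motive := fun _ => Bool) true (fun _ _ _ _ => false) l

/-- The three rows of a lane of longer faces are empty. -/
def nil3 (k o b : ℕ) : Bool :=
  rAnd (dnil (DT.get t4 (fkey k o b))) (rAnd (dnil (DT.get t4 (fkey k o (Nat.add b (nat_lit 1)))))
    (dnil (DT.get t4 (fkey k o (Nat.add b (nat_lit 2))))))

/-- A ring state of a longer face. -/
def opB (k o b : ℕ) (f : ℕ → Dv → Up → Bool) : Bool :=
  f (nat_lit 7936) (dvQ tr tl (DT.get t4 (fkey k o b))) (upV vx k o b)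

/-- The loop over the ring states of a lane. -/
def opts : Opts := fun k o i f =>
  rIf (Nat.ble (Nat.succ i) (nt k o))
    (rLet (sl k o i) fun s => f s (dvT (DT.get t (dkey k s)) (DT.get tw (dkey k s))) upS)
    (rLet (Nat.mul (nat_lit 3) (Nat.sub i (nt k o))) fun b => rIf (nil3 t4 k o b)
      (f (nat_lit 7936) dv0 upS)
      (rAnd (opB t4 tr tl vx k o b f) (rAnd (opB t4 tr tl vx k o (Nat.add b (nat_lit 1)) f)
        (opB t4 tr tl vx k o (Nat.add b (nat_lit 2)) f))))

/-- The corrections of the last two windows of a closed word: the walk to the end. The arguments are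
the first two corners and the last three corners. -/
def wk (zf : Zf) (p : Pth) : ℕ → ℕ → ℕ → ℕ → ℕ → ℕ → ℕ → ℕ → ℕ → ℕ → ℕ :=
  Pth.rec (motive := fun _ => ℕ → ℕ → ℕ → ℕ → ℕ → ℕ → ℕ → ℕ → ℕ → ℕ → ℕ)
    (fun k1 s1 k2 s2 ka sa kb sb kc sc =>
      Nat.add (zf kb sb kc sc k1 s1 ka sa) (zf kc sc k1 s1 k2 s2 kb sb))
    (fun k _ s _ ih k1 s1 k2 s2 _ _ kb sb kc sc => ih k1 s1 k2 s2 kb sb kc sc k s) p

/-- The corrections of the last two windows of a closed word. -/
def lfw (zf : Zf) (p : Pth) : ℕ :=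
  Pth.rec (motive := fun _ => ℕ) (nat_lit 0) (fun k1 _ s1 p1 _ =>
    Pth.rec (motive := fun _ => ℕ) (nat_lit 0) (fun k2 _ s2 p2 _ =>
      Pth.rec (motive := fun _ => ℕ) (nat_lit 0) (fun k3 _ s3 p3 _ =>
        wk zf p3 k1 s1 k2 s2 k1 s1 k2 s2 k3 s3) p2) p1) p

end defs

theorem wk_pt (zf : Zf) {b : ℕ} (k o s : ℕ → ℕ) (k1 s1 k2 s2 : ℕ) : ∀ n j, j + 2 + n = b →
    wk zf (pt b k o s n) k1 s1 k2 s2 (k j) (s j) (k (j + 1)) (s (j + 1)) (k (j + 2)) (s (j + 2)) =
      zf (k (b - 1)) (s (b - 1)) (k b) (s b) k1 s1 (k (b - 2)) (s (b - 2)) +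
        zf (k b) (s b) k1 s1 k2 s2 (k (b - 1)) (s (b - 1)) := by
  intro n
  induction n with
  | zero =>
    intro j hj
    obtain rfl : b = j + 2 := by omega
    rfl
  | succ n ih =>
    intro j hj
    have e1 : b - n = j + 1 + 2 := by omega
    rw [pt, e1]
    exact ih (j + 1) (by omega)

theorem lfw_pt (zf : Zf) {b : ℕ} (hb : 3 ≤ b) (k o s : ℕ → ℕ) : lfw zf (pt b k o s b) =
    zf (k (b - 1)) (s (b - 1)) (k b) (s b) (k 1) (s 1) (k (b - 2)) (s (b - 2)) +
      zf (k b) (s b) (k 1) (s 1) (k 2) (s 2) (k (b - 1)) (s (b - 1)) := by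
  obtain ⟨n, rfl⟩ : ∃ n, b = n + 3 := ⟨b - 3, by omega⟩
  have e1 : n + 3 - (n + 2) = 1 := by omega
  have e2 : n + 3 - (n + 1) = 2 := by omega
  have e3 : n + 3 - n = 3 := by omega
  have h := wk_pt zf (b := n + 3) k o s (k 1) (s 1) (k 2) (s 2) n 1 (by omega)
  rw [← h]
  show lfw zf (Pth.cons (k (n + 3 - (n + 2))) (o (n + 3 - (n + 2))) (s (n + 3 - (n + 2)))
    (Pth.cons (k (n + 3 - (n + 1))) (o (n + 3 - (n + 1))) (s (n + 3 - (n + 1)))
      (Pth.cons (k (n + 3 - n)) (o (n + 3 - n)) (s (n + 3 - n)) (pt (n + 3) k o s n)))) = _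
  rw [e1, e2, e3]
  rfl

theorem xrT_of_le {tr : ℕ → ℕ → ℕ} {k s : ℕ} (h : Nat.ble 7936 s = true) : xrT tr k s = 0 := by
  unfold xrT
  rw [h, rIf_true]

theorem dnil_eq {l : DL} (h : dnil l = true) : l = DL.nil := by
  cases l with
  | nil => rfl
  | g _ _ _ => exact absurd h Bool.false_ne_true

end

end Pool.Agent.Lib.MP_5854e1_co.CE

namespace Pool.Agent.Lib.MP_5854e1_co.SMap

open PB CE CE.Cell

variable {F : Type*} (T : SMap F)

noncomputable section

theorem nt_relab (d : F) : nt (mK (T.kx d)) (mO' (T.kx d) (T.ox d)) = nt (T.kx d) (T.ox d) :=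
  Nat.eq_of_beq_eq_true (rAllN_iff.1 (rAllN_iff.1 ntChk_all _ (T.kx_lt d)) _ (T.ox_lt_optN d))

theorem lnT_tri {d : F} (h : T.Tri d) : T.lnT d < nt (T.kx d) (T.ox d) ∧
    sl (T.kx d) (T.ox d) (T.lnT d) = T.rs d := by
  unfold lnT ln sl
  cases hc : cnn (T.kx d) (T.ox d) with
  | true =>
    have h1 := T.px_lt_nt h
    have e1 : ln0 (T.kx d) (T.ox d) (T.rs d) = T.jx d - triOff (T.kx d) (T.ox d) := by
      unfold ln0
      rw [T.ble_rs_tri h, rIf_false, T.rs_tri h]
      rfl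
    rw [rIf_true, rIf_true, e1, T.rs_tri h]
    exact ⟨h1.1, Nat.add_sub_cancel' h1.2⟩
  | false =>
    have h' : T.relab.Tri d := h
    have h1 := T.relab.px_lt_nt h'
    have e1 : ln0 (mK (T.kx d)) (mO' (T.kx d) (T.ox d)) (mS (T.kx d) (T.rs d)) =
        T.relab.jx d - triOff (mK (T.kx d)) (mO' (T.kx d) (T.ox d)) := by
      rw [← T.relab_kx, ← T.relab_ox, ← T.relab_rs]
      unfold ln0
      rw [T.relab.ble_rs_tri h', rIf_false, T.relab.rs_tri h']
      rfl
    rw [T.relab_kx, T.relab_ox] at h1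
    rw [rIf_false, rIf_false, e1, ← T.nt_relab]
    refine ⟨h1.1, ?_⟩
    have e2 : Nat.add (triOff (mK (T.kx d)) (mO' (T.kx d) (T.ox d)))
        (T.relab.jx d - triOff (mK (T.kx d)) (mO' (T.kx d) (T.ox d))) = T.relab.jx d :=
      Nat.add_sub_cancel' h1.2
    rw [e2, ← T.relab.rs_tri h', T.relab_rs, T.mS_mS]

theorem lnT_big {d : F} (h : ¬T.Tri d) :
    T.lnT d = nt (T.kx d) (T.ox d) + kc (T.K (T.face (T.N d))) := by
  have h2 := kc_lt (T.K (T.I d))
  have e0 : (T.rs d - 7936) / 3 = kc (T.K (T.face (T.N d))) := by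
    rw [T.rs_big h]
    omega
  have e1 : mS (T.kx d) (T.rs d) = T.rs d := by
    unfold mS
    rw [T.ble_rs_big h, rIf_true]
  unfold lnT ln
  cases hc : cnn (T.kx d) (T.ox d) with
  | true =>
    rw [rIf_true]
    unfold ln0
    rw [T.ble_rs_big h, rIf_true]
    show nt (T.kx d) (T.ox d) + (T.rs d - 7936) / 3 = _
    rw [e0]
  | false =>
    rw [rIf_false, e1]
    unfold ln0
    rw [T.ble_rs_big h, rIf_true, T.nt_relab]
    show nt (T.kx d) (T.ox d) + (T.rs d - 7936) / 3 = _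
    rw [e0]

section

variable (c : Tabs) (tl : ℕ → ℕ → ℕ) (vx : ℕ → ℕ → ℕ → ℕ → ℕ → ℕ → ℕ)

/-- The lane of a corner of a longer face is exact. -/
def exB (d : F) : Bool := nil3 c.t4 (T.kx d) (T.ox d) (3 * kc (T.K (T.face (T.N d))))

open Classical in
/-- The ring state in the evaluation. -/
def sO (d : F) : ℕ := if T.Tri d then T.rs d else 7936

open Classical in
/-- The correction in the evaluation. -/
def dvO (d : F) : Dv :=
  if T.Tri d then dvT (DT.get c.t (dkey (T.kx d) (T.rs d)))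
    (DT.get c.tw (dkey (T.kx d) (T.rs d))) else
    rIf (T.exB c d) dv0 (dvQ c.tr tl (DT.get c.t4 (fkey (T.kx d) (T.ox d) (T.rs d - 7936))))

open Classical in
/-- The update in the evaluation. -/
def upO (d : F) : Up :=
  if T.Tri d then upS else rIf (T.exB c d) upS (upV vx (T.kx d) (T.ox d) (T.rs d - 7936))

/-- The evaluation of a closed word; the cells with a positive value are treated by `rg`. -/
def evlO (rg : Pth → ℕ → Bool) : List Hs → ℕ → ℕ → Bool :=
  cev (opts c.t c.tw c.t4 c.tr tl vx) (zfn c.zt) (lfw (zfn c.zt)) rg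

/-- The corners of the cell of `d`: the last one is the corner after `d`. -/
def pthO (d : F) : Pth :=
  pt (Function.minimalPeriod T.N d) (fun n => T.kx (T.N^[n] d)) (fun n => T.ox (T.N^[n] d))
    (fun n => T.sO (T.N^[n] d)) (Function.minimalPeriod T.N d)

/-- The correction of a corner from the two tables of fans. -/
def dfan (d : F) : ℤ := T.dl0 c d + T.dlw c d

variable {c tl vx}

theorem dfan_nonneg (d : F) : 0 ≤ T.dfan c d := add_nonneg (T.dl0_nonneg c d) (T.dlw_nonneg c d)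

theorem xrT_sO (f : ℕ → ℕ → ℕ) (d : F) (k : ℕ) : xrT f k (T.sO d) = xrT f k (T.rs d) := by
  unfold sO
  split_ifs with h
  · rfl
  · rw [xrT_of_le (T.ble_rs_big h), xrT_of_le (by decide)]

/-- The loop treats the ring state of a strip. -/
theorem opts_sound (d : F) {f : ℕ → Dv → Up → Bool}
    (h : opts c.t c.tw c.t4 c.tr tl vx (T.kx d) (T.ox d) (T.lnT d) f = true) :
    f (T.sO d) (T.dvO c tl d) (T.upO c vx d) = true := by
  unfold opts at h
  by_cases hd : T.Tri d
  · obtain ⟨h1, h2⟩ := T.lnT_tri hd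
    have e1 : Nat.ble (Nat.succ (T.lnT d)) (nt (T.kx d) (T.ox d)) = true :=
      Nat.ble_eq_true_of_le h1
    rw [e1, rIf_true, rLet_eq, h2] at h
    unfold sO dvO upO
    rw [if_pos hd, if_pos hd, if_pos hd]
    exact h
  · have h1 := T.lnT_big hd
    have e1 : Nat.ble (Nat.succ (T.lnT d)) (nt (T.kx d) (T.ox d)) = false := by
      rw [Bool.eq_false_iff]
      intro h2
      have := Nat.le_of_ble_eq_true h2
      omega
    have e2 : Nat.mul 3 (Nat.sub (T.lnT d) (nt (T.kx d) (T.ox d))) =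
        3 * kc (T.K (T.face (T.N d))) := by
      rw [h1]
      show 3 * (_ + _ - _) = _
      rw [Nat.add_sub_cancel_left]
    rw [e1, rIf_false, rLet_eq, e2] at h
    unfold sO dvO upO
    rw [if_neg hd, if_neg hd, if_neg hd]
    have e3 : nil3 c.t4 (T.kx d) (T.ox d) (3 * kc (T.K (T.face (T.N d)))) = T.exB c d := rfl
    rw [e3] at h
    cases hx : T.exB c d with
    | true =>
      rw [hx, rIf_true] at h
      rw [rIf_true, rIf_true]
      exact h
    | false =>
      rw [hx, rIf_false] at h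
      rw [rIf_false, rIf_false]
      obtain ⟨h2, h3⟩ := rAnd_iff.1 h
      obtain ⟨h4, h5⟩ := rAnd_iff.1 h3
      have e4 : T.rs d - 7936 = 3 * kc (T.K (T.face (T.N d))) + kc (T.K (T.I d)) := by
        rw [T.rs_big hd, Nat.add_sub_cancel_left]
      have h6 := kc_lt (T.K (T.I d))
      rw [e4]
      obtain e5 | e5 | e5 : kc (T.K (T.I d)) = 0 ∨ kc (T.K (T.I d)) = 1 ∨ kc (T.K (T.I d)) = 2 := by
        omega
      · rw [e5]
        exact h2
      · rw [e5]
        exact h4
      · rw [e5]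
        exact h5

/-- The correction is not larger than the one of the map. -/
theorem dvO_le (htok : rAllN (tokChk c.tr tl) 101 = true) (p : F) :
    (T.dvO c tl (T.N p) (T.kx p) (T.sO p) (T.kx (T.N (T.N p))) (T.sO (T.N (T.N p))) : ℤ) ≤
      T.dfan c (T.N p) := by
  unfold dvO dfan
  by_cases hd : T.Tri (T.N p)
  · rw [if_pos hd, T.dl0_tri c hd, T.dlw_tri c hd]
    unfold dvT dl
    rw [rLet_eq, rLet_eq, T.xrT_sO, T.xrT_sO, T.X_I_N tokChk_trX]
    push_cast
    rfl
  · rw [if_neg hd, T.dl0_big c hd, T.dlw_big c hd, add_zero]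
    cases hx : T.exB c (T.N p) with
    | true =>
      rw [rIf_true]
      exact Int.natCast_nonneg _
    | false =>
      rw [rIf_false]
      unfold dvQ dq
      rw [T.xrT_sO, T.xrT_sO, T.X_I_N htok, T.rs_big hd, Nat.add_sub_cancel_left]
      rfl

theorem ble_sO (d : F) : Nat.ble 7936 (T.sO d) = Nat.ble 7936 (T.rs d) := by
  unfold sO
  split_ifs with h
  · rfl
  · rw [T.ble_rs_big h]
    rfl

/-- The correction of a window from own data. -/
theorem win_eq {zt : DT} (p : F) : T.win zt (T.N p) = zfn zt (T.kx (T.N p)) (T.sO (T.N p))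
    (T.kx (T.N (T.N p))) (T.sO (T.N (T.N p))) (T.kx (T.N (T.N (T.N p)))) (T.sO (T.N (T.N (T.N p))))
    (T.kx p) (T.sO p) := by
  unfold zfn
  rw [T.ble_sO, T.ble_sO]
  by_cases h1 : T.Tri (T.N p)
  · by_cases h2 : T.Tri (T.N (T.N p))
    · rw [T.win_tri h1 h2, T.ble_rs_tri h1, T.ble_rs_tri h2, rIf_false, rIf_false]
      rw [rLet_eq]
      unfold zrow
      rw [T.xrT_sO, T.xrT_sO, T.X_I_N tokChk_trX]
      unfold sO
      rw [if_pos h1, if_pos h2]
      rfl
    · rw [T.win_right h2, T.ble_rs_tri h1, T.ble_rs_big h2, rIf_false, rIf_true]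
      rfl
  · rw [T.win_left h1, T.ble_rs_big h1, rIf_true]
    rfl

theorem ls_pos (d : F) : 1 ≤ T.ls d := by
  unfold ls Pool.Agent.Lib.MP_5854e1_co.lts
  omega

theorem period_le (d : F) : Function.minimalPeriod T.N d ≤ 24 := by
  have h1 := T.sum_ls d
  have h2 : ∑ _i ∈ Finset.range (Function.minimalPeriod T.N d), 1 ≤
      ∑ i ∈ Finset.range (Function.minimalPeriod T.N d), T.ls (T.N^[i] d) :=
    Finset.sum_le_sum fun i _ => T.ls_pos _
  rw [h1, Finset.sum_const, Finset.card_range, smul_eq_mul, mul_one] at h2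
  exact h2

open Finset

variable {R : ℕ → ℕ → Rw Blk} {Pn Rv : ℕ → ℕ → ℕ}

variable (c) in
/-- The corrections at the step `t` of the evaluation. -/
def dW (b : ℕ) (d : F) (t : ℕ) : ℤ := T.dfan c (T.N^[t] d) +
  (if t + 1 < b then T.win c.zt (T.N^[t] d) else
    if t = b then T.win c.zt (T.N^[b - 1] d) + T.win c.zt (T.N^[b] d) else 0 : ℕ)

theorem dW_nonneg (b : ℕ) (d : F) (t : ℕ) : 0 ≤ T.dW c b d t :=
  add_nonneg (T.dfan_nonneg _) (Int.natCast_nonneg _)

theorem dW_sum {b : ℕ} (hb : 2 ≤ b) (d : F) : ∑ u ∈ range b, T.dW c b d (u + 1) =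
    ∑ u ∈ range b, (T.dfan c (T.N^[u + 1] d) + T.win c.zt (T.N^[u + 1] d)) := by
  obtain ⟨n, rfl⟩ : ∃ n, b = n + 2 := ⟨b - 2, by omega⟩
  have h : ∀ u ∈ range n, T.dW c (n + 2) d (u + 1) =
      T.dfan c (T.N^[u + 1] d) + T.win c.zt (T.N^[u + 1] d) := fun u hu => by
    have := Finset.mem_range.1 hu
    unfold dW
    rw [if_pos (by omega)]
  rw [sum_range_succ, sum_range_succ, sum_congr rfl h, sum_range_succ (n := n + 1),
    sum_range_succ (n := n)]
  have e1 : T.dW c (n + 2) d (n + 1) = T.dfan c (T.N^[n + 1] d) := by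
    unfold dW
    rw [if_neg (by omega), if_neg (by omega), Nat.cast_zero, add_zero]
  have e2 : T.dW c (n + 2) d (n + 1 + 1) = T.dfan c (T.N^[n + 1 + 1] d) +
      ((T.win c.zt (T.N^[n + 1] d) + T.win c.zt (T.N^[n + 1 + 1] d) : ℕ) : ℤ) := by
    unfold dW
    rw [if_neg (by omega), if_pos (by omega)]
    rfl
  rw [e1, e2]
  push_cast
  ring

/-- The data of the cell of `d`. -/
theorem cell_of (hclo : ∀ k0 < 101, cloK R nl Pn Rv k0 = true)
    (htok : rAllN (tokChk c.tr tl) 101 = true) {gg : F → ℤ} (hgg : ∀ e : F, gg e ≤ T.ndt c e)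
    (hent : ∀ (e : F) (b : Blk), (R (T.kx e) (T.ox e)).blk (T.ox (T.N e)) = some b →
      T.gz c.V e + T.ndt c e - T.ndt c (T.N e) + kap0 ≤ (fd b (T.lnT e) (T.lnT (T.N e)) : ℤ))
    (hvx : ∀ e : F, ¬T.Tri (T.N e) →
      (vx (T.kx e) (T.ox e) (T.lnT e) (T.kx (T.N e)) (T.ox (T.N e)) (T.rs (T.N e) - 7936) : ℤ) =
        max 0 (T.gz c.V e + T.ndt c e - T.ndt c (T.N e) + kap0))
    (d : F) (x M : ℕ → ℕ)
    (hblk : ∀ n < Function.minimalPeriod T.N d,
      (R (T.kx (T.N^[n] d)) (T.ox (T.N^[n] d))).blk (T.ox (T.N^[n + 1] d)) =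
        some (Blk.mk (x (n + 1)) (M (n + 1))))
    (hpos : ∀ n, T.ndt c (T.N^[n + 1] d) < ∑ i ∈ range (n + 1), T.gz c.V (T.N^[i] d) + gg d) :
    Cell (opts c.t c.tw c.t4 c.tr tl vx) (zfn c.zt) (lfw (zfn c.zt)) (Function.minimalPeriod T.N d)
      (fun n => T.kx (T.N^[n] d)) (fun n => T.ox (T.N^[n] d)) x M (fun n => T.lnT (T.N^[n] d))
      (fun n => T.sO (T.N^[n] d))
      (fun n => T.gz c.V (T.N^[n - 1] d) + T.ndt c (T.N^[n - 1] d) - T.ndt c (T.N^[n] d))
      (fun n => T.dW c (Function.minimalPeriod T.N d) d n)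
      (fun n => T.dvO c tl (T.N^[n] d)) (fun n => T.upO c vx (T.N^[n] d)) := by
  have h3 := T.three d
  have hp : T.N^[Function.minimalPeriod T.N d] d = d := Function.isPeriodicPt_minimalPeriod T.N d
  have hp1 : T.N^[Function.minimalPeriod T.N d + 1] d = T.N d := by
    rw [Function.iterate_succ_apply', hp]
  have hs : ∀ n, T.N^[n + 1] d = T.N (T.N^[n] d) := fun n => Function.iterate_succ_apply' _ _ _
  have hE : ∀ n < Function.minimalPeriod T.N d,
      Ent (nl (T.kx (T.N^[n] d)) (T.ox (T.N^[n] d)))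
        (nl (T.kx (T.N (T.N^[n] d))) (T.ox (T.N (T.N^[n] d)))) (Pn (T.kx (T.N^[n] d))
        (T.ox (T.N^[n] d))) (Rv (T.kx (T.N (T.N^[n] d))) (T.ox (T.N (T.N^[n] d)))) (x (n + 1))
        (M (n + 1)) := fun n hn =>
    (blk_at hclo T (T.N^[n] d) (b := Blk.mk (x (n + 1)) (M (n + 1)))
      (by rw [← hs]; exact hblk n hn)).choose_spec.2.1
  have hsum : ∀ n, ∑ u ∈ range n, (T.gz c.V (T.N^[u + 1 - 1] d) + T.ndt c (T.N^[u + 1 - 1] d) -
      T.ndt c (T.N^[u + 1] d)) =
        ∑ u ∈ range n, T.gz c.V (T.N^[u] d) + T.ndt c d - T.ndt c (T.N^[n] d) := by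
    intro n
    induction n with
    | zero => simp
    | succ n ih =>
      rw [sum_range_succ, sum_range_succ, ih, Nat.add_sub_cancel]
      ring
  refine
    { b_pos := by omega
      b_le := (T.period_le d).trans (by norm_num)
      k_per := by simp only [Function.iterate_zero, id, hp]
      o_per := by simp only [Function.iterate_zero, id, hp]
      i_per := by simp only [Function.iterate_zero, id, hp]
      opt := fun n _ f hf => T.opts_sound _ hf
      d_nonneg := fun n => T.dW_nonneg _ _ _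
      dv_le := fun n hn => ?_
      dv_top := ?_
      up_le := ?_
      ent := ?_
      pos := ?_
      fa_pos := ?_
      fb_pos := ?_
      i_lt := ?_
      j_lt := ?_
      dim := ?_
      dim_top := ?_
      hb := ?_ }
  · have h1 := T.dvO_le (c := c) htok (T.N^[n] d)
    rw [← hs, ← hs] at h1
    have h2 : zw (zfn c.zt) (Function.minimalPeriod T.N d) (fun n => T.kx (T.N^[n] d))
        (fun n => T.sO (T.N^[n] d)) (n + 1) (T.kx (T.N^[n] d)) (T.sO (T.N^[n] d)) =
        if n + 1 + 1 < Function.minimalPeriod T.N d then T.win c.zt (T.N^[n + 1] d) else 0 := by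
      unfold zw
      split_ifs with h3
      · rw [hs n, T.win_eq, ← hs, ← hs, ← hs]
      · rfl
    show ((_ + zw (zfn c.zt) (Function.minimalPeriod T.N d) (fun n => T.kx (T.N^[n] d))
        (fun n => T.sO (T.N^[n] d)) (n + 1) (T.kx (T.N^[n] d)) (T.sO (T.N^[n] d)) : ℕ) : ℤ) ≤ _
    rw [h2]
    unfold dW
    rw [if_neg (show ¬n + 1 = Function.minimalPeriod T.N d by omega)]
    push_cast
    have h4 : (T.dvO c tl (T.N^[n + 1] d) (T.kx (T.N^[n] d)) (T.sO (T.N^[n] d))
      (T.kx (T.N^[n + 2] d)) (T.sO (T.N^[n + 2] d)) : ℤ) ≤ T.dfan c (T.N^[n + 1] d) := h1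
    linarith
  · have h1 := T.dvO_le (c := c) htok (T.N^[Function.minimalPeriod T.N d - 1] d)
    rw [← hs, show Function.minimalPeriod T.N d - 1 + 1 = Function.minimalPeriod T.N d by omega,
      ← hs, hp1] at h1
    have hp2 : T.N^[Function.minimalPeriod T.N d + 2] d = T.N (T.N d) := by
      rw [Function.iterate_succ_apply', hp1]
    have h2 := lfw_pt (zfn c.zt) h3 (fun n => T.kx (T.N^[n] d)) (fun n => T.ox (T.N^[n] d))
      (fun n => T.sO (T.N^[n] d))
    have h4 := T.win_eq (zt := c.zt) (T.N^[Function.minimalPeriod T.N d - 2] d)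
    have h5 := T.win_eq (zt := c.zt) (T.N^[Function.minimalPeriod T.N d - 1] d)
    rw [← hs, ← hs, ← hs,
      show Function.minimalPeriod T.N d - 2 + 1 = Function.minimalPeriod T.N d - 1 by omega,
      show Function.minimalPeriod T.N d - 1 + 1 = Function.minimalPeriod T.N d by omega, hp1] at h4
    rw [← hs, ← hs, ← hs,
      show Function.minimalPeriod T.N d - 1 + 1 = Function.minimalPeriod T.N d by omega, hp1,
      hp2] at h5
    unfold dW
    rw [if_neg (show ¬Function.minimalPeriod T.N d + 1 < Function.minimalPeriod T.N d by omega),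
      if_pos rfl, h4, h5]
    have h6 : lfw (zfn c.zt) (pt (Function.minimalPeriod T.N d) (fun n => T.kx (T.N^[n] d))
      (fun n => T.ox (T.N^[n] d)) (fun n => T.sO (T.N^[n] d)) (Function.minimalPeriod T.N d)) = _ :=
        h2
    rw [h6]
    push_cast
    have h7 : (T.dvO c tl (T.N^[Function.minimalPeriod T.N d] d)
      (T.kx (T.N^[Function.minimalPeriod T.N d - 1] d))
      (T.sO (T.N^[Function.minimalPeriod T.N d - 1] d)) (T.kx (T.N^[1] d)) (T.sO (T.N^[1] d)) : ℤ) ≤
        T.dfan c (T.N^[Function.minimalPeriod T.N d] d) := h1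
    have h8 : T.N^[1] d = T.N d := rfl
    have h9 : T.N^[2] d = T.N (T.N d) := rfl
    rw [h8] at h7
    rw [h8, h9]
    linarith
  · intro n hn S Y A δ hSY
    have h1 := hent _ _ (by rw [← hs]; exact hblk n hn)
    rw [fd_mk, ← hs] at h1
    have h2 := hvx (T.N^[n] d)
    rw [← hs] at h2
    have ek : (kap0 : ℤ) = 65536 := by norm_num [kap0]
    simp only [Nat.add_sub_cancel] at hSY ⊢
    unfold upO
    have hS : (A : ℤ) + (T.gz c.V (T.N^[n] d) + T.ndt c (T.N^[n] d) - T.ndt c (T.N^[n + 1] d)) - δ ≤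
        ((A + S - (Y + δ) : ℕ) : ℤ) := by omega
    by_cases hd : T.Tri (T.N^[n + 1] d)
    · rw [if_pos hd]
      exact hS
    · rw [if_neg hd]
      cases T.exB c (T.N^[n + 1] d) with
      | true =>
        rw [rIf_true]
        exact hS
      | false =>
        rw [rIf_false]
        have h3 := h2 hd
        unfold upV
        rw [rLet_eq]
        generalize vx (T.kx (T.N^[n] d)) (T.ox (T.N^[n] d)) (T.lnT (T.N^[n] d))
          (T.kx (T.N^[n + 1] d)) (T.ox (T.N^[n + 1] d)) (T.rs (T.N^[n + 1] d) - 7936) = v at h3 ⊢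
        have h4 : (v : ℤ) ≤ PB.fl 22 (M (n + 1)) (plX (x (n + 1)) (T.lnT (T.N^[n] d))
            (T.lnT (T.N^[n + 1] d))) := by
          rw [h3]
          exact max_le (Int.natCast_nonneg _) h1
        have h5 : Nat.ble (Nat.succ (Nat.add S 65536)) (Nat.add Y v) = false := by
          rw [Bool.eq_false_iff]
          intro h6
          have h7 : Nat.succ (S + 65536) ≤ Y + v := Nat.le_of_ble_eq_true h6
          omega
        rw [h5, rIf_false]
        have h6 := le_max_right 0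
          (T.gz c.V (T.N^[n] d) + T.ndt c (T.N^[n] d) - T.ndt c (T.N^[n + 1] d) + kap0)
        rw [← h3] at h6
        show _ ≤ ((A + v - (65536 + δ) : ℕ) : ℤ)
        omega
  · intro n hn
    have h1 := hent _ _ (by rw [← hs]; exact hblk n hn)
    rw [fd_mk, ← hs] at h1
    simp only [Nat.add_sub_cancel]
    exact h1
  · intro n _
    rw [hsum]
    have h1 := hpos n
    have h2 := hgg d
    linarith
  · intro n hn
    rw [(hE n hn).fa]
    exact (pair_at hclo T _).1.pos
  · intro n hn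
    rw [(hE n hn).fb]
    exact (pair_at hclo T _).1.pos
  · intro n hn
    rw [(hE n hn).fa]
    exact T.lnT_lt _
  · intro n hn
    rw [(hE n hn).fb, ← hs]
    exact T.lnT_lt _
  · intro n hn
    rw [(hE n (by omega)).fb, (hE (n + 1) hn).fa, hs]
  · have h4 := hE (Function.minimalPeriod T.N d - 1) (by omega)
    rw [show Function.minimalPeriod T.N d - 1 + 1 = Function.minimalPeriod T.N d by omega,
      ← hs, show Function.minimalPeriod T.N d - 1 + 1 = Function.minimalPeriod T.N d by omega,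
      hp] at h4
    rw [h4.fb, (hE 0 (by omega)).fa]
    rfl
  · intro n hn
    exact (hE n hn).hb

/-- **The evaluation of the closed word of a cell**, with a gauge `gg`. -/
theorem closed_sum_gO (hclo : ∀ k0 < 101, cloK R nl Pn Rv k0 = true)
    (htok : rAllN (tokChk c.tr tl) 101 = true) {gg : F → ℤ} (hgg : ∀ e : F, gg e ≤ T.ndt c e)
    (hent : ∀ (e : F) (b : Blk), (R (T.kx e) (T.ox e)).blk (T.ox (T.N e)) = some b →
      T.gz c.V e + T.ndt c e - T.ndt c (T.N e) + kap0 ≤ (fd b (T.lnT e) (T.lnT (T.N e)) : ℤ))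
    (hvx : ∀ e : F, ¬T.Tri (T.N e) →
      (vx (T.kx e) (T.ox e) (T.lnT e) (T.kx (T.N e)) (T.ox (T.N e)) (T.rs (T.N e) - 7936) : ℤ) =
        max 0 (T.gz c.V e + T.ndt c e - T.ndt c (T.N e) + kap0))
    (d : F) (x M : ℕ → ℕ) {x1 M1 : ℕ}
    (hblk : ∀ n < Function.minimalPeriod T.N d,
      (R (T.kx (T.N^[n] d)) (T.ox (T.N^[n] d))).blk (T.ox (T.N^[n + 1] d)) =
        some (Blk.mk (x (n + 1)) (M (n + 1))))
    (hpos : ∀ n, T.ndt c (T.N^[n + 1] d) < ∑ i ∈ range (n + 1), T.gz c.V (T.N^[i] d) + gg d)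
    {rg : Pth → ℕ → Bool} (h : evlO c tl vx rg (hsl (fun n => T.kx (T.N^[n] d))
      (fun n => T.ox (T.N^[n] d)) x M x1 M1 (Function.minimalPeriod T.N d)) (x 1) (M 1) = true) :
    ∃ m : ℕ, ∑ i ∈ range (Function.minimalPeriod T.N d),
      (T.gz c.V (T.N^[i] d) - T.dlt c (T.N^[i + 1] d)) ≤ m ∧ (m = 0 ∨ rg (T.pthO d) m = true) := by
  obtain ⟨m, h1, hm⟩ := (T.cell_of hclo htok hgg hent hvx d x M hblk hpos).cev_sound h
  refine ⟨m, ?_, hm⟩
  have hp : T.N^[Function.minimalPeriod T.N d] d = d := Function.isPeriodicPt_minimalPeriod T.N d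
  have h2 : ∀ n, ∑ u ∈ range n, ((T.gz c.V (T.N^[u + 1 - 1] d) + T.ndt c (T.N^[u + 1 - 1] d) -
      T.ndt c (T.N^[u + 1] d)) - (T.dfan c (T.N^[u + 1] d) + T.win c.zt (T.N^[u + 1] d))) =
        ∑ i ∈ range n, (T.gz c.V (T.N^[i] d) - (T.dfan c (T.N^[i + 1] d) +
          T.win c.zt (T.N^[i + 1] d))) + T.ndt c d - T.ndt c (T.N^[n] d) := by
    intro n
    induction n with
    | zero => simp
    | succ n ih =>
      rw [sum_range_succ, sum_range_succ, ih, Nat.add_sub_cancel]
      ring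
  have h5 := h2 (Function.minimalPeriod T.N d)
  rw [hp] at h5
  have h3 := T.three d
  have h4 : ∑ u ∈ range (Function.minimalPeriod T.N d), ((T.gz c.V (T.N^[u + 1 - 1] d) +
      T.ndt c (T.N^[u + 1 - 1] d) - T.ndt c (T.N^[u + 1] d)) -
        T.dW c (Function.minimalPeriod T.N d) d (u + 1)) ≤ m := h1
  rw [Finset.sum_sub_distrib, T.dW_sum (by omega), ← Finset.sum_sub_distrib] at h4
  simp only [T.dlt_eq]
  unfold dfan at h4 h5
  linarith

end

end

end Pool.Agent.Lib.MP_5854e1_co.SMap
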