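import Pool.Agent.Lib.MP_5854e1_co.Clo

/-!
# The step with the productive lanes

The state of the search is a pair `(Z, A)`: the field `i` of `Z` is `2 ^ 20 - 1 + v`, where `v` is the
value of the best path to the lane `i` (zero if there is none), and `A` has the digit 22 of the
fields with a positive value. A lane is productive for a test vector `q` if the sum of its fields is
at least `2 ^ 22`. The step treats only the productive lanes.
-/

set_option autoImplicit false

namespace Pool.Agent.Lib.MP_5854e1_co.PB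

open Pk

noncomputable section

/-! ### The definitions -/

/-- The loop over the productive lanes, for any function that gives the rows of the block. `n` is the
number of lanes, `t` has the digits `23 i` of the lanes `i`, `a` is the maximum so far. -/
def lpS (row : ℕ → ℕ) (P R G Z n : ℕ) : ℕ → ℕ → ℕ :=
  Nat.rec (motive := fun _ => ℕ → ℕ → ℕ) (fun _ a => a)
    (fun _ ih t a => ih (Nat.sub t (Nat.gcd t P))
      (Nat.add a
        (Nat.land
          (Nat.sub (Nat.add
            (Nat.mul (Nat.land (Nat.div Z (Nat.gcd t P)) (nat_lit 8388607)) R)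
            (row (Nat.div (Nat.mod (Nat.gcd t P) (nat_lit 70368727400449)) (nat_lit 8388607)))) a)
          (Nat.mul (Nat.shiftRight (Nat.land
            (Nat.sub (Nat.add
            (Nat.mul (Nat.land (Nat.div Z (Nat.gcd t P)) (nat_lit 8388607)) R)
            (row (Nat.div (Nat.mod (Nat.gcd t P) (nat_lit 70368727400449)) (nat_lit 8388607)))) a)
            G) (nat_lit 22)) (nat_lit 4194303))))) n

/-- The loop: `B` is the distance of the rows, `W` the mask of a row. -/
def lp0 (P B W R G M Z n : ℕ) : ℕ → ℕ → ℕ :=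
  Nat.rec (motive := fun _ => ℕ → ℕ → ℕ) (fun _ a => a)
    (fun _ ih t a => ih (Nat.sub t (Nat.gcd t P))
      (Nat.add a
        (Nat.land
          (Nat.sub (Nat.add
            (Nat.mul (Nat.land (Nat.div Z (Nat.gcd t P)) (nat_lit 8388607)) R)
            (Nat.land (Nat.shiftRight M (Nat.mul B (Nat.div (Nat.mod (Nat.gcd t P)
              (nat_lit 70368727400449)) (nat_lit 8388607)))) W)) a)
          (Nat.mul (Nat.shiftRight (Nat.land
            (Nat.sub (Nat.add
            (Nat.mul (Nat.land (Nat.div Z (Nat.gcd t P)) (nat_lit 8388607)) R)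
            (Nat.land (Nat.shiftRight M (Nat.mul B (Nat.div (Nat.mod (Nat.gcd t P)
              (nat_lit 70368727400449)) (nat_lit 8388607)))) W)) a)
            G) (nat_lit 22)) (nat_lit 4194303))))) n

theorem lp0_eq (P B W R G M Z n : ℕ) : lp0 P B W R G M Z n =
    lpS (fun i => Nat.land (Nat.shiftRight M (Nat.mul B i)) W) P R G Z n := rfl

/-- The alive lanes; `R` is the vector with all fields equal to one. -/
def alv (R Z : ℕ) : ℕ :=
  Nat.land (Nat.add Z (Nat.mul R (nat_lit 3145728))) (Nat.mul R (nat_lit 4194304))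

/-- The test: the productive lanes. -/
def tsS (Z A q : ℕ) : ℕ := Nat.land (Nat.add q Z) A

/-- The vector with `b` fields equal to one. -/
def oneB (b : ℕ) : ℕ :=
  Nat.div (Nat.sub (Nat.pow (nat_lit 2) (Nat.mul (nat_lit 23) b)) (nat_lit 1)) (nat_lit 8388607)

/-- The loop with its constants; `R` has a one in every field and `W` is the mask of the fields. -/
def adR (P B W R M Z t : ℕ) : ℕ :=
  Nat.sub (lp0 P B W R (Nat.mul R (nat_lit 4194304)) M Z (Nat.mod t (nat_lit 8388607)) t
    (Nat.mul R (nat_lit 1114111))) (Nat.mul R (nat_lit 65536))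

/-- The step with the columns outside: `R` has a one in every column. -/
def adC (P D R M Z t : ℕ) : ℕ :=
  Nat.mod (adR P (nat_lit 23) (Nat.mul R (nat_lit 8388607)) R M Z t) D

/-- The step with the columns outside, `C` is the distance of the columns. -/
def adD (P C b M Z t : ℕ) : ℕ :=
  adC P (Nat.sub (Nat.pow (nat_lit 2) C) (nat_lit 8388608))
    (Nat.div (Nat.sub (Nat.pow (nat_lit 2) (Nat.mul C b)) (nat_lit 1))
      (Nat.sub (Nat.pow (nat_lit 2) C) (nat_lit 1))) M Z t

/-- The step. -/
def adX (P a b M Z t x : ℕ) : ℕ :=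
  rIf (Nat.beq (Nat.mod x (nat_lit 2)) (nat_lit 0))
    (adR P (Nat.mul (nat_lit 23) (Nat.add b (Nat.sub (Nat.succ a) b)))
      (Nat.sub (Nat.pow (nat_lit 2) (Nat.mul (nat_lit 23) b)) (nat_lit 1)) (oneB b) M Z t)
    (adD P (Nat.mul (nat_lit 23) (Nat.add a (Nat.sub (Nat.succ b) a))) b M Z t)

/-- The vector after the step with the block `(x, M)`; `t` are the productive lanes. -/
def adZ (x M Z A t : ℕ) : ℕ :=
  adX (nat_lit 0x1000000000000000000000000000000000000000000000000000000000000000000000000000000000000000000000000000000000000000000000000000000000000000000000000000000000000000000000000000000000000000000000000000000000000000000000000000000000000000000000000000000000000000000000000000000000000000000000000000000000000000000000000000000000000000000000000000000000000000000000000000000000000000000000000000000000000000000000000000000000000000000000000000000000000000000000000000000000000000000000000000000000000000000000000000000000000000000000000000000000000000000000000000000000000000000000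00000000000000000000000000000000000000000000000000000000000000000000000000000000000000000000000000000000000000000000000000000000000000000000000000000000000000000000000000000000000000000000000000000000000000000000000000000000000000000000000000000000000000000000000000000000000000000000000000000000000000000000000000000000000000000000000000000000000000000000000000000000000000000000000000000000000000000000000000000000000000000000000000000000000000000000000000000000000000000000000000000000000000000000000000000000000000000000000000000000000000000000000000000000000000000000000000000000000000000000000000000000000000000000000000000000000000000000000000000000000000000000000000000000000000000000000000000000000000000000000000000000000000000000000000000000000000000000000000000000000000000000000000000000000000000000000000000000000000000000000000000000000000000000000000000000000000000000000000000000000)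
    (Nat.mod (Nat.div x (nat_lit 2)) (nat_lit 256)) (Nat.div x (nat_lit 512)) M (Nat.add Z A)
    (Nat.shiftRight t (nat_lit 22)) x

/-- The alive lanes after the step with a block of the format `x`. -/
def adA (x Z : ℕ) : ℕ := alv (oneB (Nat.div x (nat_lit 512))) Z

/-! ### Digits -/

theorem ix_eq : ∀ m < 256, 2 ^ (23 * m) % 70368727400449 / 8388607 = m := by decide +kernel

theorem gcd_digit {m y : ℕ} (hm : m ≤ 256) :
    Nat.gcd (2 ^ (23 * m) * (1 + 2 ^ 23 * y)) (2 ^ 5888) = 2 ^ (23 * m) := by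
  have e : 2 ^ 5888 = 2 ^ (23 * m) * 2 ^ (5888 - 23 * m) := by
    rw [← pow_add]
    congr 1
    omega
  have h : Nat.Coprime (1 + 2 ^ 23 * y) 2 := by
    rw [Nat.coprime_two_right]
    refine ⟨2 ^ 22 * y, by ring⟩
  rw [e, Nat.gcd_mul_left, (Nat.Coprime.pow_right _ h), mul_one]

theorem pk_field {w n : ℕ} {f : ℕ → ℕ} (h : ∀ i < n, f i < 2 ^ w) {i : ℕ} (hi : i < n) :
    pk w n f / 2 ^ (w * i) % 2 ^ w = f i := by
  obtain ⟨k, rfl⟩ : ∃ k, n = i + (k + 1) := ⟨n - i - 1, by omega⟩
  rw [pk_div (fun j hj => h j (by omega)), pk_succ, Nat.add_mul_mod_self_left, add_zero]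
  exact Nat.mod_eq_of_lt (h i hi)

theorem pk_mod_sum (k : ℕ) (f : ℕ → ℕ) :
    pk 23 k f ≡ ∑ i ∈ Finset.range k, f i [MOD 8388607] := by
  induction k generalizing f with
  | zero => rfl
  | succ k ih =>
    rw [pk_succ, Finset.sum_range_succ', add_comm]
    refine Nat.ModEq.add ?_ rfl
    have e : 2 ^ 23 ≡ 1 [MOD 8388607] := by decide
    have := Nat.ModEq.mul e (ih fun i => f (i + 1))
    rwa [one_mul] at this

theorem popc {k : ℕ} {f : ℕ → ℕ} (hk : k ≤ 256) (hf : ∀ i < k, f i ≤ 1) :
    pk 23 k f % 8388607 = ∑ i ∈ Finset.range k, f i := by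
  have h1 : ∑ i ∈ Finset.range k, f i ≤ k := by
    calc ∑ i ∈ Finset.range k, f i ≤ ∑ _i ∈ Finset.range k, 1 :=
          Finset.sum_le_sum fun i hi => hf i (Finset.mem_range.1 hi)
      _ = k := by simp
  have h2 := pk_mod_sum k f
  rw [Nat.ModEq, Nat.mod_eq_of_lt (show ∑ i ∈ Finset.range k, f i < 8388607 by omega)] at h2
  exact h2

/-- The maximum of two vectors with fields of any width from 23 on. -/
theorem mx_eq {w b : ℕ} {f g : ℕ → ℕ} (hw : 23 ≤ w) (hf : ∀ j < b, f j < 2 ^ 22)
    (hg : ∀ j < b, g j < 2 ^ 22) :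
    pk w b g + ((pk w b (fun j => f j + 2 ^ 22) - pk w b g) &&&
      ((((pk w b (fun j => f j + 2 ^ 22) - pk w b g) &&& (rep w b * 4194304)) >>> 22) * 4194303)) =
      pk w b (fun j => max (f j) (g j)) := by
  have hp : 2 ^ 23 ≤ 2 ^ w := Nat.pow_le_pow_right (by norm_num) hw
  have e1 : pk w b (fun j => f j + 2 ^ 22) - pk w b g = pk w b (fun j => f j + 2 ^ 22 - g j) :=
    pk_sub fun j hj => by
      have := hg j hj
      omega
  have hd : ∀ j < b, f j + 2 ^ 22 - g j < 2 ^ w := fun j hj => by
    have := hf j hj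
    omega
  have e2 : pk w b (fun j => f j + 2 ^ 22 - g j) &&& (rep w b * 4194304) =
      2 ^ 22 * pk w b (fun j => if g j ≤ f j then 1 else 0) := by
    rw [mul_comm, const_eq (by omega), pk_land hd (fun j _ => by
      have : (4194304 : ℕ) < 2 ^ 23 := by norm_num
      omega), pk_mul]
    refine pk_congr fun j hj => ?_
    have h1 := hf j hj
    have h2 := hg j hj
    have h3 := land_two_pow_of_lt (v := 22) (a := f j + 2 ^ 22 - g j) (by omega)
    have e3 : (4194304 : ℕ) = 2 ^ 22 := by norm_num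
    rw [e3, h3]
    by_cases h4 : g j ≤ f j
    · rw [if_pos h4, if_pos (by omega), mul_one]
    · rw [if_neg h4, if_neg (by omega), mul_zero]
  have e4 : (2 ^ 22 * pk w b (fun j => if g j ≤ f j then 1 else 0)) >>> 22 =
      pk w b (fun j => if g j ≤ f j then 1 else 0) := by
    rw [Nat.shiftRight_eq_div_pow, Nat.mul_div_cancel_left _ (by positivity)]
  rw [e1, e2, e4, mul_comm (pk w b _) 4194303, pk_mul, pk_land hd (fun j _ => by
    split_ifs
    · omega
    · positivity), pk_add]
  refine pk_congr fun j hj => ?_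
  have h1 := hf j hj
  have h2 := hg j hj
  by_cases h4 : g j ≤ f j
  · have e5 : (4194303 * 1 : ℕ) = 2 ^ 22 - 1 := by norm_num
    rw [if_pos h4, e5, Nat.and_two_pow_sub_one_eq_mod,
      show f j + 2 ^ 22 - g j = (f j - g j) + 2 ^ 22 by omega, Nat.add_mod_right,
      Nat.mod_eq_of_lt (by omega), max_eq_left h4]
    omega
  · rw [if_neg h4, mul_zero, Nat.and_zero, max_eq_right (by omega), add_zero]

/-! ### The loop -/

theorem lpS_succ (row : ℕ → ℕ) (P R G Z n t a : ℕ) : lpS row P R G Z (n + 1) t a =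
    lpS row P R G Z n (t - Nat.gcd t P) (a + ((((Z / Nat.gcd t P) &&& 8388607) * R +
      row (Nat.gcd t P % 70368727400449 / 8388607) - a) &&&
        ((((((Z / Nat.gcd t P) &&& 8388607) * R +
          row (Nat.gcd t P % 70368727400449 / 8388607) - a) &&& G) >>> 22) * 4194303))) := rfl

/-- The lane `i` adds the vector with the fields `xf i`. -/
def Lane (w : ℕ) (row : ℕ → ℕ) (b Z : ℕ) (xf : ℕ → ℕ → ℕ) (i : ℕ) : Prop :=
  (∀ j < b, xf i j < 2 ^ 22) ∧
    ((Z / 2 ^ (23 * i)) &&& 8388607) * rep w b + row i = pk w b (fun j => xf i j + 2 ^ 22)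

theorem lpS_spec {w : ℕ} {row : ℕ → ℕ} {b Z : ℕ} {xf : ℕ → ℕ → ℕ} (hw : 23 ≤ w) :
    ∀ (k m : ℕ) (f g : ℕ → ℕ), m + k ≤ 256 → (∀ i < k, f i ≤ 1) →
    (∀ i < k, f i = 1 → Lane w row b Z xf (m + i)) → (∀ j < b, g j < 2 ^ 22) →
    ∃ g', lpS row (2 ^ 5888) (rep w b) (rep w b * 4194304) Z (∑ i ∈ Finset.range k, f i)
        (2 ^ (23 * m) * pk 23 k f) (pk w b g) = pk w b g' ∧ (∀ j < b, g j ≤ g' j) ∧
      (∀ i < k, f i = 1 → ∀ j < b, xf (m + i) j ≤ g' j) ∧
      ∀ B, (∀ j < b, g j < B) → (∀ i < k, f i = 1 → ∀ j < b, xf (m + i) j < B) →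
        ∀ j < b, g' j < B := by
  intro k
  induction k with
  | zero =>
    intro m f g _ _ _ _
    exact ⟨g, rfl, fun _ _ => le_rfl, fun i hi => absurd hi (Nat.not_lt_zero _), fun B h _ => h⟩
  | succ k ih =>
    intro m f g hm hf hl hg
    have e1 : 2 ^ (23 * m) * pk 23 (k + 1) f =
        2 ^ (23 * m) * f 0 + 2 ^ (23 * (m + 1)) * pk 23 k (fun i => f (i + 1)) := by
      rw [pk_succ, mul_add, ← mul_assoc, ← pow_add, mul_add 23 m 1, mul_one]
    rcases Nat.le_one_iff_eq_zero_or_eq_one.1 (hf 0 (Nat.succ_pos _)) with h0 | h0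
    · obtain ⟨g', h1, h2, h3, h4⟩ := ih (m + 1) (fun i => f (i + 1)) g (by omega)
        (fun i hi => hf _ (by omega)) (fun i hi h => by
          have := hl (i + 1) (by omega) h
          rwa [show m + (i + 1) = m + 1 + i by omega] at this) hg
      refine ⟨g', ?_, h2, fun i hi h j hj => ?_, fun B hB hB2 => h4 B hB fun i hi h j hj => ?_⟩
      · rw [Finset.sum_range_succ', h0, add_zero, e1, h0, mul_zero, zero_add]
        exact h1
      · cases i with
        | zero => rw [h0] at h; exact absurd h (by norm_num)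
        | succ i =>
          have := h3 i (by omega) h j hj
          rwa [show m + 1 + i = m + (i + 1) by omega] at this
      · have := hB2 (i + 1) (by omega) h j hj
        rwa [show m + (i + 1) = m + 1 + i by omega] at this
    · obtain ⟨hX, hX2⟩ := hl 0 (Nat.succ_pos _) h0
      rw [add_zero] at hX hX2
      obtain ⟨g', h1, h2, h3, h4⟩ := ih (m + 1) (fun i => f (i + 1))
        (fun j => max (xf m j) (g j)) (by omega)
        (fun i hi => hf _ (by omega)) (fun i hi h => by
          have := hl (i + 1) (by omega) h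
          rwa [show m + (i + 1) = m + 1 + i by omega] at this)
        (fun j hj => max_lt (hX j hj) (hg j hj))
      refine ⟨g', ?_, fun j hj => (le_max_right _ _).trans (h2 j hj), fun i hi h j hj => ?_,
        fun B hB hB2 => h4 B (fun j hj => max_lt ?_ (hB j hj)) fun i hi h j hj => ?_⟩
      · rw [Finset.sum_range_succ', h0]
        have e2 : 2 ^ (23 * m) * pk 23 (k + 1) f =
            2 ^ (23 * m) * (1 + 2 ^ 23 * pk 23 k (fun i => f (i + 1))) := by
          rw [pk_succ, h0]
        have e3 : Nat.gcd (2 ^ (23 * m) * pk 23 (k + 1) f) (2 ^ 5888) = 2 ^ (23 * m) := by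
          rw [e2]
          exact gcd_digit (by omega)
        have e4 : 2 ^ (23 * m) * pk 23 (k + 1) f - 2 ^ (23 * m) =
            2 ^ (23 * (m + 1)) * pk 23 k (fun i => f (i + 1)) := by
          rw [e1, h0, mul_one, Nat.add_sub_cancel_left]
        rw [lpS_succ, e3, ix_eq m (by omega), hX2, mx_eq hw hX hg, e4]
        exact h1
      · cases i with
        | zero =>
          rw [add_zero]
          exact (le_max_left _ _).trans (h2 j hj)
        | succ i =>
          have := h3 i (by omega) h j hj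
          rwa [show m + 1 + i = m + (i + 1) by omega] at this
      · have := hB2 0 (Nat.succ_pos _) h0 j hj
        rwa [add_zero] at this
      · have := hB2 (i + 1) (by omega) h j hj
        rwa [show m + (i + 1) = m + 1 + i by omega] at this

/-! ### The states -/

/-- The state `(Z, A)` of `b` lanes knows the value `v` at the lane `j`; all fields of `Z` are less
than `F`. -/
structure SC (Z A F b j : ℕ) (v : ℤ) : Prop where
  hb : HB 22 b Z F
  alive : A = alv (rep 23 b) Z
  lt : j < b
  pos : 1 ≤ v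
  le : 1048575 + v ≤ (fl 22 Z j : ℤ)

theorem oneB_eq (b : ℕ) : oneB b = rep 23 b := rfl

theorem alv_eq {b Z F : ℕ} (h : HB 22 b Z F) :
    alv (rep 23 b) Z = pk 23 b (fun i => if 2 ^ 20 ≤ fl 22 Z i then 2 ^ 22 else 0) := by
  have e1 : alv (rep 23 b) Z = (Z + rep 23 b * 3145728) &&& (rep 23 b * 4194304) := rfl
  have hZ := h.rep
  have e2 : Z + rep 23 b * 3145728 = pk 23 b (fun i => fl 22 Z i + 3145728) := by
    rw [mul_comm, const_eq (by norm_num)]
    conv_lhs => rw [hZ.eq]
    exact pk_add _ _ _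
  have hlt : ∀ i < b, fl 22 Z i + 3145728 < 2 ^ 23 := fun i hi => by
    have := hZ.lt i hi
    omega
  rw [e1, e2, mul_comm, const_eq (by norm_num), pk_land hlt (fun _ _ => by norm_num)]
  refine pk_congr fun i hi => ?_
  have h1 := land_two_pow_of_lt (v := 22) (hlt i hi)
  have e3 : (4194304 : ℕ) = 2 ^ 22 := by norm_num
  rw [e3, h1]
  by_cases h2 : 2 ^ 20 ≤ fl 22 Z i
  · rw [if_pos h2, if_pos (by omega)]
  · rw [if_neg h2, if_neg (by omega)]

/-- The productive lanes. -/
def prd (Z q : ℕ) (i : ℕ) : ℕ :=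
  if 2 ^ 20 ≤ fl 22 Z i ∧ 2 ^ 22 ≤ fl 22 q i + fl 22 Z i then 1 else 0

theorem prd_le (Z q i : ℕ) : prd Z q i ≤ 1 := by
  unfold prd
  split_ifs <;> omega

theorem tsS_eq {b Z q F : ℕ} (h : HB 22 b Z F) (hq : HB 22 b q (2 ^ 22)) :
    tsS Z (alv (rep 23 b) Z) q = 2 ^ 22 * pk 23 b (prd Z q) := by
  have e1 : tsS Z (alv (rep 23 b) Z) q = (q + Z) &&& alv (rep 23 b) Z := rfl
  have e2 : q + Z = pk 23 b (fun i => fl 22 q i + fl 22 Z i) := by
    conv_lhs => rw [hq.rep.eq, h.rep.eq]
    exact pk_add _ _ _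
  have hlt : ∀ i < b, fl 22 q i + fl 22 Z i < 2 ^ 23 := fun i hi => by
    have h1 := hq.rep.lt i hi
    have h2 := h.rep.lt i hi
    omega
  rw [e1, e2, alv_eq h, pk_land hlt (fun i _ => by split_ifs <;> norm_num), pk_mul]
  refine pk_congr fun i hi => ?_
  unfold prd
  by_cases h1 : 2 ^ 20 ≤ fl 22 Z i
  · rw [if_pos h1, land_two_pow_of_lt (v := 22) (hlt i hi)]
    by_cases h2 : 2 ^ 22 ≤ fl 22 q i + fl 22 Z i
    · rw [if_pos h2, if_pos ⟨h1, h2⟩, mul_one]
    · rw [if_neg h2, if_neg (fun h => h2 h.2), mul_zero]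
  · rw [if_neg h1, if_neg (fun h => h1 h.1), Nat.and_zero, mul_zero]

theorem tsS_shift {b Z q F : ℕ} (h : HB 22 b Z F) (hq : HB 22 b q (2 ^ 22)) :
    tsS Z (alv (rep 23 b) Z) q >>> 22 = pk 23 b (prd Z q) := by
  rw [tsS_eq h hq, Nat.shiftRight_eq_div_pow, Nat.mul_div_cancel_left _ (by positivity)]

theorem zg_field {b Z F : ℕ} (h : HB 22 b Z F) {i : ℕ} (hi : i < b) (ha : 2 ^ 20 ≤ fl 22 Z i) :
    ((Z + alv (rep 23 b) Z) / 2 ^ (23 * i)) &&& 8388607 = fl 22 Z i + 2 ^ 22 := by
  have e2 : Z + alv (rep 23 b) Z =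
      pk 23 b (fun i => fl 22 Z i + if 2 ^ 20 ≤ fl 22 Z i then 2 ^ 22 else 0) := by
    rw [alv_eq h]
    exact (congrArg (fun y => y + pk 23 b (fun i => if 2 ^ 20 ≤ fl 22 Z i then 2 ^ 22 else 0))
      h.rep.eq).trans (pk_add _ _ _)
  have hlt : ∀ i < b, (fl 22 Z i + if 2 ^ 20 ≤ fl 22 Z i then 2 ^ 22 else 0) < 2 ^ 23 :=
    fun i hi => by
      have := h.rep.lt i hi
      split_ifs <;> omega
  have e3 : (8388607 : ℕ) = 2 ^ 23 - 1 := by norm_num
  rw [e2, e3, Nat.and_two_pow_sub_one_eq_mod, pk_field hlt hi, if_pos ha]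

/-- The loop. -/
theorem lp_step {w : ℕ} {row : ℕ → ℕ} {b b' Z F : ℕ} {d : ℕ → ℕ} {rf : ℕ → ℕ → ℕ} (hw : 23 ≤ w)
    (hb : b ≤ 256) (hZ : HB 22 b Z F) (hF : F + 2 ^ 17 ≤ 2 ^ 22) (hF0 : 2 ^ 20 ≤ F)
    (hd : ∀ i < b, d i ≤ 1) (hd2 : ∀ i < b, d i = 1 → 2 ^ 20 ≤ fl 22 Z i)
    (hrow : ∀ i < b, row i = pk w b' (rf i)) (hrf : ∀ i < b, ∀ j < b', rf i j < 2 ^ 17) :
    ∃ g, lpS row (2 ^ 5888) (rep w b') (rep w b' * 4194304) (Z + alv (rep 23 b) Z)
      (pk 23 b d % 8388607) (pk 23 b d) (rep w b' * 1114111) - rep w b' * 65536 = pk w b' g ∧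
      (∀ j < b', g j < F + 2 ^ 16) ∧
      ∀ i < b, d i = 1 → ∀ j < b', fl 22 Z i + rf i j ≤ g j + 65536 := by
  have hw0 : 0 < w := by omega
  have h0 : rep w b' * 1114111 = pk w b' (fun _ => 1114111) := by
    rw [mul_comm, const_eq hw0]
  have hK : rep w b' * 65536 = pk w b' (fun _ => 65536) := by
    rw [mul_comm, const_eq hw0]
  obtain ⟨g', h1, h2, h3, h4⟩ := lpS_spec (row := row) (b := b') (Z := Z + alv (rep 23 b) Z)
    (xf := fun i j => fl 22 Z i + rf i j) hw b 0 d (fun _ => 1114111) (by omega) hd (fun i hi h => by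
      rw [zero_add]
      refine ⟨fun j hj => ?_, ?_⟩
      · have := hZ.lt i hi
        have := hrf i hi j hj
        show fl 22 Z i + rf i j < 2 ^ 22
        omega
      · rw [zg_field hZ hi (hd2 i hi h), hrow i hi, const_eq hw0, pk_add]
        exact pk_congr fun j _ => by ring) (fun _ _ => by norm_num)
  rw [← popc hb hd, mul_zero, pow_zero, one_mul, ← h0] at h1
  refine ⟨fun j => g' j - 65536, ?_, fun j hj => ?_, fun i hi h j hj => ?_⟩
  · rw [h1, hK, pk_sub]
    intro j hj
    have := h2 j hj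
    omega
  · have h6 := h4 (F + 2 ^ 17) (fun j _ => by omega) (fun i hi _ j hj => by
      have := hZ.lt i hi
      have := hrf i hi j hj
      rw [zero_add]
      omega) j hj
    have h7 := h2 j hj
    simp only
    omega
  · have h6 := h3 i hi h j hj
    have h7 := h2 j hj
    simp only [zero_add] at h6
    simp only
    omega

/-! ### The rows of a block -/

theorem row0_eq {x M i : ℕ} (hM : HB 22 (nX x) M (2 ^ 17)) (hi : i < fa x) (hk : fk x = 0) :
    (M >>> (23 * (fb x + (fa x + 1 - fb x)) * i)) &&& (2 ^ (23 * fb x) - 1) =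
      pk 23 (fb x) (fun j => fl 22 M (plX x i j)) := by
  have hr := hM.rep
  have hc := cOf_zero (fa x) (fb x)
  have ec : cOf 0 (fa x) (fb x) = fb x + (fa x + 1 - fb x) := by
    have e3 : cOf 0 (fa x) (fb x) = rIf (Nat.ble (fb x) (Nat.succ (fa x))) (Nat.succ (fa x)) (fb x) :=
      rfl
    rw [e3]
    rcases ble_cases (fb x) (Nat.succ (fa x)) with ⟨e, h⟩ | ⟨e, h⟩
    · rw [e, rIf_true]
      omega
    · rw [e, rIf_false]
      omega
  have en : nX x = cOf 0 (fa x) (fb x) * fa x := by
    unfold nX nOf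
    rw [hk]
    rfl
  have ep : ∀ j, plX x i j = cOf 0 (fa x) (fb x) * i + j := by
    intro j
    unfold plX pl
    rw [hk]
    rfl
  rw [← ec]
  rw [en] at hr
  generalize cOf 0 (fa x) (fb x) = c at hc en ep hr
  have h1 : c * i + fb x ≤ c * fa x := by
    calc c * i + fb x ≤ c * i + c := by omega
      _ = c * (i + 1) := by ring
      _ ≤ c * fa x := Nat.mul_le_mul_left _ hi
  have e1 : (M >>> (23 * c * i)) &&& (2 ^ (23 * fb x) - 1) = Pk.block 22 (c * i) (fb x) M := by
    rw [Nat.and_two_pow_sub_one_eq_mod, mul_assoc]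
    rfl
  rw [e1, (hr.block h1).eq]
  exact pk_congr fun j _ => by rw [ep]

theorem row1_eq {c x M i : ℕ} (hM : HB 22 (nX x) M (2 ^ 17)) (hi : i < fa x) (hk : fk x = 1)
    (ec : cOf 1 (fa x) (fb x) = c) :
    (M >>> (23 * i)) &&& (rep (23 * c) (fb x) * 8388607) =
      pk (23 * c) (fb x) (fun j => fl 22 M (plX x i j)) := by
  have hr := hM.rep
  have hc := cOf_succ 0 (fa x) (fb x)
  rw [zero_add] at hc
  have en : nX x = cOf 1 (fa x) (fb x) * fb x := by
    unfold nX nOf
    rw [hk]
    rfl
  have ep : ∀ j, plX x i j = cOf 1 (fa x) (fb x) * j + i := by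
    intro j
    unfold plX pl
    rw [hk]
    rfl
  rw [en] at hr
  simp only [ec] at hc en ep hr
  have h1 := (hr.shift0 i).stride (k := c) (m := fb x) (by omega)
  have e1 : rep (23 * c) (fb x) * 8388607 = Pk.smask 22 c (fb x) := by
    rw [mul_comm]
    rfl
  rw [e1]
  refine h1.eq.trans (pk_congr fun j hj => ?_)
  have h2 : i + c * j < c * fb x := by
    calc i + c * j < c + c * j := by omega
      _ = c * (j + 1) := by ring
      _ ≤ c * fb x := Nat.mul_le_mul_left _ hj
  rw [if_pos h2, ep, add_comm]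

/-! ### The step -/

theorem fk_two (x : ℕ) : (Nat.beq (Nat.mod x 2) 0 = true ∧ fk x = 0) ∨
    (Nat.beq (Nat.mod x 2) 0 = false ∧ fk x = 1) := by
  cases hk : Nat.beq (Nat.mod x 2) 0 with
  | true => exact Or.inl ⟨rfl, Nat.eq_of_beq_eq_true hk⟩
  | false =>
    have h1 : fk x ≠ 0 := Nat.ne_of_beq_eq_false hk
    have h2 : fk x < 2 := Nat.mod_lt _ (by norm_num)
    exact Or.inr ⟨rfl, by omega⟩

theorem adX_spec {P Z F x M q : ℕ} (hP : P = 2 ^ 5888) (hb : 0 < fa x) (hZ : HB 22 (fa x) Z F)
    (hq : HB 22 (fa x) q (2 ^ 22)) (hM : HB 22 (nX x) M (2 ^ 17)) (hb' : 0 < fb x)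
    (hF : F + 2 ^ 17 ≤ 2 ^ 22) (hF0 : 2 ^ 20 ≤ F) {r : ℕ}
    (hr : r = adX P (fa x) (fb x) M (Z + alv (rep 23 (fa x)) Z)
      (Nat.shiftRight (tsS Z (alv (rep 23 (fa x)) Z) q) 22) x) :
    HB 22 (fb x) r (F + 2 ^ 16) ∧
      ∀ i < fa x, prd Z q i = 1 → ∀ j < fb x,
        fl 22 Z i + fl 22 M (plX x i j) ≤ fl 22 r j + 65536 := by
  have hb2 : fa x ≤ 256 := (Nat.mod_lt _ (by norm_num)).le
  have hop := opX_ok (x := x) hb hb'
  have hd2 : ∀ i < fa x, prd Z q i = 1 → 2 ^ 20 ≤ fl 22 Z i := fun i _ h => by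
    unfold prd at h
    by_contra hcon
    rw [if_neg (fun h1 => hcon h1.1)] at h
    exact absurd h (by norm_num)
  have ht : Nat.shiftRight (tsS Z (alv (rep 23 (fa x)) Z) q) 22 = pk 23 (fa x) (prd Z q) :=
    tsS_shift hZ hq
  have hrf : ∀ i < fa x, ∀ j < fb x, fl 22 M (plX x i j) < 2 ^ 17 := fun i hi j hj =>
    hM.lt _ (hop.lt i hi j hj)
  have e1 : adX P (fa x) (fb x) M (Z + alv (rep 23 (fa x)) Z)
      (Nat.shiftRight (tsS Z (alv (rep 23 (fa x)) Z) q) 22) x =
    rIf (Nat.beq (Nat.mod x 2) 0)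
      (adR P (23 * (fb x + (fa x + 1 - fb x))) (2 ^ (23 * fb x) - 1) (rep 23 (fb x)) M
        (Z + alv (rep 23 (fa x)) Z) (Nat.shiftRight (tsS Z (alv (rep 23 (fa x)) Z) q) 22))
      (adC P (2 ^ (23 * (fa x + (fb x + 1 - fa x))) - 8388608)
        (rep (23 * (fa x + (fb x + 1 - fa x))) (fb x)) M (Z + alv (rep 23 (fa x)) Z)
        (Nat.shiftRight (tsS Z (alv (rep 23 (fa x)) Z) q) 22)) := rfl
  rw [e1, ht] at hr
  rcases fk_two x with ⟨e0, hk⟩ | ⟨e0, hk⟩
  · obtain ⟨g, h1, h2, h3⟩ := lp_step (w := 23) (b' := fb x) (row := fun i => Nat.land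
      (Nat.shiftRight M (Nat.mul (23 * (fb x + (fa x + 1 - fb x))) i)) (2 ^ (23 * fb x) - 1))
      le_rfl hb2 hZ hF hF0 (fun i _ => prd_le _ _ _) hd2 (fun i hi => row0_eq hM hi hk) hrf
    rw [e0, rIf_true, hP] at hr
    have h4 : r = pk 23 (fb x) g := hr.trans h1
    have h5 : Rep 22 (fb x) r g := ⟨h4, fun j hj => by
      have := h2 j hj
      omega⟩
    refine ⟨⟨g, h5, h2⟩, fun i hi h j hj => ?_⟩
    rw [fl_eq h5 hj]
    exact h3 i hi h j hj
  · have ec : cOf 1 (fa x) (fb x) = fa x + (fb x + 1 - fa x) := by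
      have e3 : cOf 1 (fa x) (fb x) =
        rIf (Nat.ble (fa x) (Nat.succ (fb x))) (Nat.succ (fb x)) (fa x) := rfl
      rw [e3]
      rcases ble_cases (fa x) (Nat.succ (fb x)) with ⟨e, h⟩ | ⟨e, h⟩
      · rw [e, rIf_true]
        omega
      · rw [e, rIf_false]
        omega
    have hc1 : fb x + 1 ≤ fa x + (fb x + 1 - fa x) := by omega
    generalize fa x + (fb x + 1 - fa x) = c at ec hr hc1
    obtain ⟨g, h1, h2, h3⟩ := lp_step (w := 23 * c) (b' := fb x) (row := fun i => Nat.land
      (Nat.shiftRight M (Nat.mul 23 i)) (rep (23 * c) (fb x) * 8388607)) (by omega)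
      hb2 hZ hF hF0 (fun i _ => prd_le _ _ _) hd2 (fun i hi => row1_eq hM hi hk ec) hrf
    rw [e0, rIf_false, hP] at hr
    have h4 : r = pk (23 * c) (fb x) g % (2 ^ (23 * c) - 8388608) := by
      rw [← h1]
      exact hr
    have h5 : SRep 22 c (fb x) (pk (23 * c) (fb x) g) g := ⟨rfl, fun j hj => by
      have := h2 j hj
      omega⟩
    have h6 : Rep 22 (fb x) r g := by
      rw [h4]
      exact h5.compress hc1 (by omega)
    refine ⟨⟨g, h6, h2⟩, fun i hi h j hj => ?_⟩
    rw [fl_eq h6 hj]
    exact h3 i hi h j hj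

theorem p5888 : (nat_lit 0x100000000000000000000000000000000000000000000000000000000000000000000000000000000000000000000000000000000000000000000000000000000000000000000000000000000000000000000000000000000000000000000000000000000000000000000000000000000000000000000000000000000000000000000000000000000000000000000000000000000000000000000000000000000000000000000000000000000000000000000000000000000000000000000000000000000000000000000000000000000000000000000000000000000000000000000000000000000000000000000000000000000000000000000000000000000000000000000000000000000000000000000000000000000000000000000000000000000000000000000000000000000000000000000000000000000000000000000000000000000000000000000000000000000000000000000000000000000000000000000000000000000000000000000000000000000000000000000000000000000000000000000000000000000000000000000000000000000000000000000000000000000000000000000000000000000000000000000000000000000000000000000000000000000000000000000000000000000000000000000000000000000000000000000000000000000000000000000000000000000000000000000000000000000000000000000000000000000000000000000000000000000000000000000000000000000000000000000000000000000000000000000000000000000000000000000000000000000000000000000000000000000000000000000000000000000000000000000000000000000000000000000000000000000000000000000000000000000000000000000000000000000000000000000000000000000000000000000000000000000000000000000000000000000000000000000000000000000000000000000000000000000000000000000000000000000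 : ℕ) = 2 ^ 5888 :=
  Nat.eq_of_beq_eq_true (by decide +kernel)

theorem SC.prd {Z A F b j : ℕ} {v : ℤ} (h : SC Z A F b j v) {x M q b' j' : ℕ} {v' : ℤ}
    (hb : fb x = b') (hj : j' < b') (hq : Dom b q x M)
    (hv : v' - v + kap0 ≤ fl 22 M (plX x j j')) (hv' : 1 ≤ v') : prd Z q j = 1 := by
  have h1 := hq.le j h.lt j' (by rw [hb]; exact hj)
  have h2 := h.le
  have h3 := h.pos
  have e1 : tht = 1114112 := by norm_num [tht]
  have e2 : kap0 = 65536 := by norm_num [kap0]
  rw [e1] at h1
  rw [e2] at hv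
  unfold PB.prd
  rw [if_pos]
  push_cast at hv
  norm_num at h1 ⊢
  constructor
  · omega
  · omega

/-- **The test.** -/
theorem SC.tst {Z A F b j : ℕ} {v : ℤ} (h : SC Z A F b j v) {x M q b' j' : ℕ} {v' : ℤ}
    (hb : fb x = b') (hj : j' < b') (hq : Dom b q x M)
    (hv : v' - v + kap0 ≤ fl 22 M (plX x j j')) (hv' : 1 ≤ v') : tsS Z A q ≠ 0 := by
  have h1 := h.prd hb hj hq hv hv'
  rw [h.alive, tsS_eq h.hb hq.hb]
  intro h2
  have h3 : pk 23 b (PB.prd Z q) = 0 := by
    rcases Nat.mul_eq_zero.1 h2 with h4 | h4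
    · exact absurd h4 (by norm_num)
    · exact h4
  have h4 := pk_field (w := 23) (f := PB.prd Z q) (fun i _ => lt_of_le_of_lt (prd_le Z q i)
    (by norm_num)) h.lt
  rw [h3, h1] at h4
  simp at h4

/-- **The step.** -/
theorem SC.step {Z A F b j : ℕ} {v : ℤ} (h : SC Z A F b j v) {x M q b' j' : ℕ} {v' : ℤ}
    (ha : fa x = b) (hb : fb x = b') (hM : HB 22 (nX x) M (2 ^ 17)) (hj : j' < b')
    (hq : Dom b q x M) (hv : v' - v + kap0 ≤ fl 22 M (plX x j j')) (hv' : 1 ≤ v')
    (hF : F + 2 ^ 17 ≤ 2 ^ 22) (hF0 : 2 ^ 20 ≤ F) :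
    SC (adZ x M Z A (tsS Z A q)) (adA x (adZ x M Z A (tsS Z A q))) (F + 2 ^ 16) b' j' v' := by
  have h1 := h.prd hb hj hq hv hv'
  subst ha hb
  have hlt := h.lt
  have h2 : HB 22 (fb x) (adZ x M Z A (tsS Z A q)) (F + 2 ^ 16) ∧
      ∀ i < fa x, PB.prd Z q i = 1 → ∀ j < fb x,
        fl 22 Z i + fl 22 M (plX x i j) ≤ fl 22 (adZ x M Z A (tsS Z A q)) j + 65536 := by
    have h0 := adX_spec p5888 (by omega) h.hb hq.hb hM (by omega) hF hF0 rfl
    rw [← h.alive] at h0
    exact h0
  have e2 : kap0 = 65536 := by norm_num [kap0]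
  rw [e2] at hv
  refine ⟨h2.1, rfl, hj, hv', ?_⟩
  have h3 := h2.2 j h.lt h1 j' hj
  have h4 := h.le
  push_cast at hv
  omega

end

end Pool.Agent.Lib.MP_5854e1_co.PB
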