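import Pool.Agent.Lib.MP_5854e1_co.Blk
import Pool.Agent.Lib.MP_5854e1_co.Swap

/-!
# Lanes

The lanes of an own pair `(k, o)`: one for each triangular corner of the pair, in the order of the
table of triangles, and three more for the longer faces, one for each kind `B` of the corner before
the other side of the next strip. A pair which is larger than its reflection has the lanes of the
reflection.
-/

set_option autoImplicit false

namespace Pool.Agent.Lib.MP_5854e1_co.PB

noncomputable section

/-- The number of triangular corners of an own pair. -/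
def nt (k o : ℕ) : ℕ := Nat.sub (triOff k (Nat.succ o)) (triOff k o)

/-- The number of lanes. -/
def nl (k o : ℕ) : ℕ := Nat.add (nt k o) (nat_lit 3)

/-- The lane of a ring state, in the own order. -/
def ln0 (k o s : ℕ) : ℕ :=
  rIf (Nat.ble (nat_lit 7936) s)
    (Nat.add (nt k o) (Nat.div (Nat.sub s (nat_lit 7936)) (nat_lit 3)))
    (Nat.sub s (triOff k o))

/-- The pair is not larger than its reflection. -/
def cnn (k o : ℕ) : Bool :=
  Nat.ble (Nat.add o (Nat.mul (nat_lit 512) k)) (Nat.add (mO' k o) (Nat.mul (nat_lit 512) (mK k)))

/-- The lane of a ring state. -/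
def ln (k o s : ℕ) : ℕ := rIf (cnn k o) (ln0 k o s) (ln0 (mK k) (mO' k o) (mS k s))

/-- The need of a lane; `P` is the table of the packed needs. -/
def ndL (P : ℕ → ℕ → ℕ) (k o i : ℕ) : ℕ := fd0 (P k o) i

end

end Pool.Agent.Lib.MP_5854e1_co.PB
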