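import Pool.Agent.Lib.MP_5854e1_co.Task
import Pool.Agent.Lib.MP_5854e1_co.Lane

/-!
# The tasks cover all words
-/

set_option autoImplicit false

open Equiv Equiv.Perm

namespace Pool.Agent.Lib.MP_5854e1_co

namespace PB

noncomputable section

/-- The empty list is in the list. -/
def hasNil (L : List (List ℕ)) : Bool :=
  List.rec (motive := fun _ => Bool) false
    (fun ms _ ih => List.rec (motive := fun _ => Bool) true (fun _ _ _ => ih) ms) L

/-- The tails of the lists whose head contains the option `o`. -/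
def tails (o : ℕ) (L : List (List ℕ)) : List (List ℕ) :=
  List.rec (motive := fun _ => List (List ℕ)) List.nil
    (fun ms _ ih => List.rec (motive := fun _ => List (List ℕ)) ih
      (fun m t _ => rIf (bt m o) (List.cons t ih) ih) ms) L

/-- The lists of masks cover all words behind the shape `k`. -/
def cov (n : ℕ) : ℕ → List (List ℕ) → Bool :=
  Nat.rec (motive := fun _ => ℕ → List (List ℕ) → Bool) (fun _ L => hasNil L)
    (fun _ ih k L => rIf (hasNil L) true
      (rAllN (fun o => ih (Nat.div (optA k o) (nat_lit 72)) (tails o L)) (optN k))) n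

/-- The masks of the tasks with the root pair `(k, o)`. -/
def selT (k o : ℕ) (l : List Tk) : List (List ℕ) :=
  List.rec (motive := fun _ => List (List ℕ)) List.nil
    (fun t _ ih => Tk.rec (motive := fun _ => List (List ℕ))
      (fun k1 o1 _ ms => rIf (Nat.beq k1 k) (rIf (Nat.beq o1 o) (List.cons ms ih) ih) ih) t) l

/-- The tasks with the root shape `k`. -/
def selK (k : ℕ) (l : List Tk) (acc : List Tk) : List Tk :=
  List.rec (motive := fun _ => List Tk) acc
    (fun t _ ih => Tk.rec (motive := fun _ => List Tk)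
      (fun k1 _ _ _ => rIf (Nat.beq k1 k) (List.cons t ih) ih) t) l

/-- The tasks with the root shape `k` of a list of lists. -/
def selP (k : ℕ) (P : List (List Tk)) : List Tk :=
  List.rec (motive := fun _ => List Tk) List.nil (fun l _ ih => selK k l ih) P

/-- All canonical root pairs of the shape `k` are covered. -/
def covK (P : List (List Tk)) (k : ℕ) : Bool :=
  rAllN (fun o => rIf (cnn k o)
    (cov (nat_lit 4) (Nat.div (optA k o) (nat_lit 72)) (selT k o (selP k P))) true) (optN k)

/-! ### Soundness -/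

theorem hasNil_sound {L : List (List ℕ)} (h : hasNil L = true) : [] ∈ L := by
  induction L with
  | nil => exact absurd h Bool.false_ne_true
  | cons ms L ih =>
    cases ms with
    | nil => exact List.mem_cons_self
    | cons m t => exact List.mem_cons_of_mem _ (ih h)

theorem mem_tails {o : ℕ} {L : List (List ℕ)} {t : List ℕ} (h : t ∈ tails o L) :
    ∃ m, m :: t ∈ L ∧ bt m o = true := by
  induction L with
  | nil => cases h
  | cons ms L ih =>
    cases ms with
    | nil =>
      obtain ⟨m, h1, h2⟩ := ih h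
      exact ⟨m, List.mem_cons_of_mem _ h1, h2⟩
    | cons m' t' =>
      have h1 : t ∈ rIf (bt m' o) (t' :: tails o L) (tails o L) := h
      cases hb : bt m' o with
      | true =>
        rw [hb, rIf_true] at h1
        rcases List.mem_cons.1 h1 with rfl | h1
        · exact ⟨m', List.mem_cons_self, hb⟩
        · obtain ⟨m, h2, h3⟩ := ih h1
          exact ⟨m, List.mem_cons_of_mem _ h2, h3⟩
      | false =>
        rw [hb, rIf_false] at h1
        obtain ⟨m, h2, h3⟩ := ih h1
        exact ⟨m, List.mem_cons_of_mem _ h2, h3⟩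

theorem mem_selT {k o : ℕ} {l : List Tk} {ms : List ℕ} (h : ms ∈ selT k o l) :
    ∃ k', Tk.mk k o k' ms ∈ l := by
  induction l with
  | nil => cases h
  | cons t l ih =>
    cases t with
    | mk k1 o1 k2 ms' =>
      have h1 : ms ∈ rIf (Nat.beq k1 k) (rIf (Nat.beq o1 o) (ms' :: selT k o l) (selT k o l))
        (selT k o l) := h
      cases hb : Nat.beq k1 k with
      | true =>
        rw [hb, rIf_true] at h1
        cases hb2 : Nat.beq o1 o with
        | true =>
          rw [hb2, rIf_true] at h1
          rcases List.mem_cons.1 h1 with rfl | h1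
          · rw [← Nat.eq_of_beq_eq_true hb, ← Nat.eq_of_beq_eq_true hb2]
            exact ⟨k2, List.mem_cons_self⟩
          · obtain ⟨k', h2⟩ := ih h1
            exact ⟨k', List.mem_cons_of_mem _ h2⟩
        | false =>
          rw [hb2, rIf_false] at h1
          obtain ⟨k', h2⟩ := ih h1
          exact ⟨k', List.mem_cons_of_mem _ h2⟩
      | false =>
        rw [hb, rIf_false] at h1
        obtain ⟨k', h2⟩ := ih h1
        exact ⟨k', List.mem_cons_of_mem _ h2⟩

theorem mem_selK {k : ℕ} {l acc : List Tk} {t : Tk} (h : t ∈ selK k l acc) :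
    t ∈ l ∨ t ∈ acc := by
  induction l with
  | nil => exact Or.inr h
  | cons t' l ih =>
    cases t' with
    | mk k1 o1 k2 ms' =>
      have h1 : t ∈ rIf (Nat.beq k1 k) (Tk.mk k1 o1 k2 ms' :: selK k l acc) (selK k l acc) := h
      cases hb : Nat.beq k1 k with
      | true =>
        rw [hb, rIf_true] at h1
        rcases List.mem_cons.1 h1 with rfl | h1
        · exact Or.inl List.mem_cons_self
        · rcases ih h1 with h2 | h2
          · exact Or.inl (List.mem_cons_of_mem _ h2)
          · exact Or.inr h2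
      | false =>
        rw [hb, rIf_false] at h1
        rcases ih h1 with h2 | h2
        · exact Or.inl (List.mem_cons_of_mem _ h2)
        · exact Or.inr h2

theorem mem_selP {k : ℕ} {P : List (List Tk)} {t : Tk} (h : t ∈ selP k P) :
    ∃ l ∈ P, t ∈ l := by
  induction P with
  | nil => cases h
  | cons l P ih =>
    have h1 : t ∈ selK k l (selP k P) := h
    rcases mem_selK h1 with h2 | h2
    · exact ⟨l, List.mem_cons_self, h2⟩
    · obtain ⟨l', h3, h4⟩ := ih h2
      exact ⟨l', List.mem_cons_of_mem _ h3, h4⟩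

theorem runT_mem {R : ℕ → ℕ → Rw Blk} {nl Rv : ℕ → ℕ → ℕ} {cev : List Hs → ℕ → ℕ → Bool}
    {l : List Tk} (h : runT R nl Rv cev l = true) {k o k' : ℕ} {ms : List ℕ}
    (hm : Tk.mk k o k' ms ∈ l) : rootS R nl Rv cev k o k' ms = true := by
  induction l with
  | nil => cases hm
  | cons t l ih =>
    obtain ⟨h1, h2⟩ := rAnd_iff.1 (show rAnd (Tk.rec (motive := fun _ => Bool)
      (fun k o k' ms => rootS R nl Rv cev k o k' ms) t) (runT R nl Rv cev l) = true from h)
    rcases List.mem_cons.1 hm with rfl | hm
    · exact h1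
    · exact ih h2 hm

/-- **The covering.** -/
theorem cov_sound {F : Type*} (T : SMap F) (e : F) : ∀ (n t : ℕ) (L : List (List ℕ)),
    cov n (T.kx (T.N^[t] e)) L = true →
    ∃ ms ∈ L, ms.length ≤ n ∧ ∀ i m, ms[i]? = some m → bt m (T.ox (T.N^[t + i] e)) = true := by
  intro n
  induction n with
  | zero =>
    intro t L h
    exact ⟨[], hasNil_sound h, le_rfl, fun i m hm => by simp at hm⟩
  | succ n ih =>
    intro t L h
    have h1 : rIf (hasNil L) true (rAllN (fun o => cov n (Nat.div (optA (T.kx (T.N^[t] e)) o) 72)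
      (tails o L)) (optN (T.kx (T.N^[t] e)))) = true := h
    cases hb : hasNil L with
    | true => exact ⟨[], hasNil_sound hb, Nat.zero_le _, fun i m hm => by simp at hm⟩
    | false =>
      rw [hb, rIf_false] at h1
      have h2 := rAllN_iff.1 h1 (T.ox (T.N^[t] e)) (T.ox_lt_optN _)
      have e1 : Nat.div (optA (T.kx (T.N^[t] e)) (T.ox (T.N^[t] e))) 72 = T.kx (T.N^[t + 1] e) := by
        rw [T.optA_ox, Function.iterate_succ_apply' T.N t e]
        exact T.oc_k _
      rw [e1] at h2
      obtain ⟨ms, h3, h5, h4⟩ := ih (t + 1) _ h2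
      obtain ⟨m, h6, h7⟩ := mem_tails h3
      refine ⟨m :: ms, h6, Nat.succ_le_succ h5, fun i m' hm => ?_⟩
      cases i with
      | zero =>
        obtain rfl : m = m' := Option.some.inj hm
        exact h7
      | succ i =>
        have := h4 i m' (by rw [List.getElem?_cons_succ] at hm; exact hm)
        rwa [show t + 1 + i = t + (i + 1) by omega] at this

/-- **The search of a canonical cell.** -/
theorem tasks_sound {R : ℕ → ℕ → Rw Blk} {nl Pn Rv : ℕ → ℕ → ℕ} {F : Type*} {T : SMap F}
    {cev : List Hs → ℕ → ℕ → Bool} (hc : ∀ k0 < 101, cloK R nl Pn Rv k0 = true)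
    {P : List (List Tk)} (hP : ∀ l ∈ P, runT R nl Rv cev l = true)
    (hcov : ∀ k < 101, covK P k = true) {L : F → ℕ} {val : F → ℤ}
    (hT : MapOK R nl Pn T L val) {C : Prop} {d : F}
    (hcl : ∀ hist x M, Hist R T (T.N d) (Function.minimalPeriod T.N (T.N d) - 1) hist →
      (R (T.kx d) (T.ox d)).blk (T.ox (T.N d)) = some (Blk.mk x M) → cev hist x M = true → C)
    (hpos : ∀ t, 1 ≤ pv T Pn L val d t) (hcn : cnn (T.kx (T.N d)) (T.ox (T.N d)) = true) : C := by
  have h1 := rAllN_iff.1 (hcov _ (T.kx_lt (T.N d))) (T.ox (T.N d)) (T.ox_lt_optN _)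
  rw [hcn, rIf_true] at h1
  have e1 : Nat.div (optA (T.kx (T.N d)) (T.ox (T.N d))) 72 = T.kx (T.N^[1] (T.N d)) := by
    rw [T.optA_ox]
    exact T.oc_k _
  rw [e1] at h1
  obtain ⟨ms, h2, h3, h4⟩ := cov_sound T (T.N d) 4 1 _ h1
  obtain ⟨k', h5⟩ := mem_selT h2
  obtain ⟨l, h6, h7⟩ := mem_selP h5
  exact rootS_sound cev hc hT hcl hpos h3 h4 (runT_mem (hP l h6) h7)

end

end PB

end Pool.Agent.Lib.MP_5854e1_co
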