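import Pool.Agent.Lib.MP_5854e1_co.Cov

/-!
# The tasks cover all words: a faster check
-/

set_option autoImplicit false

namespace Pool.Agent.Lib.MP_5854e1_co

namespace PB

noncomputable section

/-- The union of the masks of the lists with one mask. -/
def sgm (L : List (List ℕ)) : ℕ :=
  List.rec (motive := fun _ => ℕ) (nat_lit 0)
    (fun ms _ ih => List.rec (motive := fun _ => ℕ) ih
      (fun m t _ => List.rec (motive := fun _ => ℕ) (Nat.lor m ih) (fun _ _ _ => ih) t) ms) L

/-- The mask `U` contains `F`. -/
def fullM (F U : ℕ) : Bool := Nat.beq (Nat.land U F) F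

/-- The lists of masks cover all words behind the shape `k`. -/
def cov2 (n : ℕ) : ℕ → List (List ℕ) → Bool :=
  Nat.rec (motive := fun _ => ℕ → List (List ℕ) → Bool) (fun _ L => hasNil L)
    (fun _ ih k L => rIf (hasNil L) true
      (rForce (sgm L) fun U =>
        rIf (fullM (Nat.sub (Nat.pow (nat_lit 2) (optN k)) (nat_lit 1)) U) true
          (rAllN (fun o => rIf (bt U o) true
            (ih (Nat.div (optA k o) (nat_lit 72)) (tails o L))) (optN k)))) n

/-- All canonical root pairs of the shape `k` are covered. -/
def covK2 (P : List (List Tk)) (k : ℕ) : Bool :=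
  rAllN (fun o => rIf (cnn k o)
    (cov2 (nat_lit 4) (Nat.div (optA k o) (nat_lit 72)) (selT k o (selP k P))) true) (optN k)

theorem hasNil_of_sgm {o : ℕ} : ∀ {L : List (List ℕ)}, bt (sgm L) o = true →
    hasNil (tails o L) = true := by
  intro L
  induction L with
  | nil =>
    intro h
    rw [bt_eq] at h
    exact absurd (show Nat.testBit 0 o = true from h) (by simp)
  | cons ms L ih =>
    intro h
    cases ms with
    | nil => exact ih h
    | cons m t =>
      have e : tails o ((m :: t) :: L) = rIf (bt m o) (t :: tails o L) (tails o L) := rfl
      rw [e]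
      cases t with
      | nil =>
        have h1 : bt (Nat.lor m (sgm L)) o = true := h
        cases hb : bt m o with
        | true => rfl
        | false =>
          rw [rIf_false]
          refine ih ?_
          rw [bt_eq] at h1 hb ⊢
          have h2 : (m ||| sgm L).testBit o = true := h1
          rw [Nat.testBit_or, hb, Bool.false_or] at h2
          exact h2
      | cons m' t' =>
        have h1 : bt (sgm L) o = true := h
        cases hb : bt m o with
        | true => exact ih h1
        | false => exact ih h1

theorem cov_of_hasNil {n k : ℕ} {L : List (List ℕ)} (h : hasNil L = true) : cov n k L = true := by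
  cases n with
  | zero => exact h
  | succ n =>
    show rIf (hasNil L) true _ = true
    rw [h, rIf_true]

theorem bt_of_fullM {n U o : ℕ} (h : fullM (2 ^ n - 1) U = true) (ho : o < n) :
    bt U o = true := by
  have h1 : U &&& (2 ^ n - 1) = 2 ^ n - 1 := Nat.eq_of_beq_eq_true h
  have h2 := congrArg (fun x => Nat.testBit x o) h1
  simp only [Nat.testBit_and, Nat.testBit_two_pow_sub_one, ho, decide_true, Bool.and_true] at h2
  rw [bt_eq]
  exact h2

theorem cov_of_cov2 : ∀ {n k : ℕ} {L : List (List ℕ)}, cov2 n k L = true → cov n k L = true := by
  intro n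
  induction n with
  | zero => intro k L h; exact h
  | succ n ih =>
    intro k L h
    have h1 : rIf (hasNil L) true (rForce (sgm L) fun U =>
        rIf (fullM (2 ^ optN k - 1) U) true
          (rAllN (fun o => rIf (bt U o) true
            (cov2 n (Nat.div (optA k o) 72) (tails o L))) (optN k))) = true := h
    show rIf (hasNil L) true (rAllN (fun o => cov n (Nat.div (optA k o) 72) (tails o L))
      (optN k)) = true
    cases hb : hasNil L with
    | true => rw [rIf_true]
    | false =>
      rw [hb, rIf_false, rForce_eq] at h1
      rw [rIf_false]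
      refine rAllN_iff.2 fun o ho => ?_
      cases hf : fullM (2 ^ optN k - 1) (sgm L) with
      | true => exact cov_of_hasNil (hasNil_of_sgm (bt_of_fullM hf ho))
      | false =>
        rw [hf, rIf_false] at h1
        have h2 := rAllN_iff.1 h1 o ho
        cases hc : bt (sgm L) o with
        | true => exact cov_of_hasNil (hasNil_of_sgm hc)
        | false =>
          rw [hc, rIf_false] at h2
          exact ih h2

theorem covK_of_covK2 {P : List (List Tk)} {k : ℕ} (h : covK2 P k = true) : covK P k = true := by
  refine rAllN_iff.2 fun o ho => ?_
  have h1 := rAllN_iff.1 h o ho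
  cases hc : cnn k o with
  | true =>
    rw [hc, rIf_true] at h1
    rw [rIf_true]
    exact cov_of_cov2 h1
  | false => rw [rIf_false]

/-- The check of the shapes from `a` on. -/
def covR (P : List (List Tk)) (a n : ℕ) : Bool := rAllN (fun i => covK2 P (Nat.add a i)) n

theorem cov_of_covR {P : List (List Tk)} {a n k : ℕ} (h : covR P a n = true) (h1 : a ≤ k)
    (h2 : k < a + n) : covK P k = true := by
  have h3 := rAllN_iff.1 h (k - a) (by omega)
  have e : Nat.add a (k - a) = k := by
    show a + (k - a) = k
    omega
  rw [e] at h3
  exact covK_of_covK2 h3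

end

end PB

end Pool.Agent.Lib.MP_5854e1_co
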