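import Pool.Agent.Lib.MP_5854e1_co.Core

/-!
# The step, in two ways

For few productive lanes the step is the loop of `Core`; for many lanes it spreads the vector over the
block and takes the maximum by halving. The numbers that depend only on the format `x` are functions
of `x`, so that the kernel computes them once.
-/

set_option autoImplicit false

namespace Pool.Agent.Lib.MP_5854e1_co.PB.Hy

open Pk

noncomputable section

/-! ### The numbers of a format -/

/-- `2 ^ 5888`. -/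
def pP : ℕ := nat_lit 0x100000000000000000000000000000000000000000000000000000000000000000000000000000000000000000000000000000000000000000000000000000000000000000000000000000000000000000000000000000000000000000000000000000000000000000000000000000000000000000000000000000000000000000000000000000000000000000000000000000000000000000000000000000000000000000000000000000000000000000000000000000000000000000000000000000000000000000000000000000000000000000000000000000000000000000000000000000000000000000000000000000000000000000000000000000000000000000000000000000000000000000000000000000000000000000000000000000000000000000000000000000000000000000000000000000000000000000000000000000000000000000000000000000000000000000000000000000000000000000000000000000000000000000000000000000000000000000000000000000000000000000000000000000000000000000000000000000000000000000000000000000000000000000000000000000000000000000000000000000000000000000000000000000000000000000000000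000000000000000000000000000000000000000000000000000000000000000000000000000000000000000000000000000000000000000000000000000000000000000000000000000000000000000000000000000000000000000000000000000000000000000000000000000000000000000000000000000000000000000000000000000000000000000000000000000000000000000000000000000000000000000000000000000000000000000000000000000000000000000000000000000000000000000000000000000000000000000000000000000000000000000000000000000000000000000000000000000000000000000000000000000000000000000000000000000000000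

/-- `23 c`. -/
def c23 (c : ℕ) : ℕ := Nat.mul (nat_lit 23) c

/-- `n` ones at the distance `w`. -/
def rp (w n : ℕ) : ℕ :=
  Nat.div (Nat.sub (Nat.pow (nat_lit 2) (Nat.mul w n)) (nat_lit 1))
    (Nat.sub (Nat.pow (nat_lit 2) w) (nat_lit 1))

/-- The distance of the rows (in fields). -/
def cS (x : ℕ) : ℕ := Nat.add (fb x) (Nat.sub (Nat.succ (fa x)) (fb x))

/-- The distance of the columns (in fields). -/
def cC (x : ℕ) : ℕ := Nat.add (fa x) (Nat.sub (Nat.succ (fb x)) (fa x))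

/-- Ones in all columns. -/
def cR (x : ℕ) : ℕ := oneB (fb x)

/-- The digits 22. -/
def cG (x : ℕ) : ℕ := Nat.mul (cR x) (nat_lit 4194304)

/-- The start of the maximum. -/
def cI (x : ℕ) : ℕ := Nat.mul (cR x) (nat_lit 1114111)

/-- What is subtracted at the end. -/
def cK (x : ℕ) : ℕ := Nat.mul (cR x) (nat_lit 65536)

/-- What is added for the alive lanes. -/
def cU (x : ℕ) : ℕ := Nat.mul (cR x) (nat_lit 3145728)

/-- The mask of all columns. -/
def cW (x : ℕ) : ℕ := Nat.mul (cR x) (nat_lit 8388607)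

/-- The distance of the rows. -/
def cB (x : ℕ) : ℕ := c23 (cS x)

/-- The modulus that moves the columns together. -/
def cD (x : ℕ) : ℕ := Nat.sub (Nat.pow (nat_lit 2) (c23 (cC x))) (nat_lit 8388608)

/-- Ones in all columns, columns outside. -/
def cR1 (x : ℕ) : ℕ := rp (c23 (cC x)) (fb x)

/-- The digits 22, columns outside. -/
def cG1 (x : ℕ) : ℕ := Nat.mul (cR1 x) (nat_lit 4194304)

/-- The start of the maximum, columns outside. -/
def cI1 (x : ℕ) : ℕ := Nat.mul (cR1 x) (nat_lit 1114111)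

/-- What is subtracted at the end, columns outside. -/
def cK1 (x : ℕ) : ℕ := Nat.mul (cR1 x) (nat_lit 65536)

/-- The mask of all columns, columns outside. -/
def cW1 (x : ℕ) : ℕ := Nat.mul (cR1 x) (nat_lit 8388607)

/-- The multiplier that moves the lanes apart. -/
def cT (x : ℕ) : ℕ := rp (c23 (Nat.sub (cS x) (nat_lit 1))) (fa x)

/-- The mask of the lanes moved apart. -/
def cM (x : ℕ) : ℕ := Nat.mul (rp (c23 (cS x)) (fa x)) (nat_lit 8388607)

/-- Ones in all fields of a row. -/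
def cQ (x : ℕ) : ℕ := oneB (cS x)

/-! ### Halving -/

/-- The numbers of the levels. -/
inductive Lv where
  | nil : Lv
  | cons (W s G : ℕ) (rest : Lv) : Lv

/-- The levels for `k` rows of `c` fields. -/
def lv0 (c : ℕ) (n : ℕ) : ℕ → Lv :=
  Nat.rec (motive := fun _ => ℕ → Lv) (fun _ => Lv.nil)
    (fun _ ih k => Lv.cons
      (Nat.pow (nat_lit 2) (c23 (Nat.mul c (Nat.sub k (Nat.div k (nat_lit 2))))))
      (c23 (Nat.mul c (Nat.div k (nat_lit 2))))
      (Nat.mul (oneB (Nat.mul c (Nat.sub k (Nat.div k (nat_lit 2))))) (nat_lit 4194304))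
      (ih (Nat.sub k (Nat.div k (nat_lit 2))))) n

/-- The levels for columns of `k` fields. -/
def lv1 (GG : ℕ) (n : ℕ) : ℕ → Lv :=
  Nat.rec (motive := fun _ => ℕ → Lv) (fun _ => Lv.nil)
    (fun _ ih k => Lv.cons (nat_lit 0) (c23 (Nat.div k (nat_lit 2))) GG
      (ih (Nat.sub k (Nat.div k (nat_lit 2))))) n

/-- The number of levels. -/
def nL (x : ℕ) : ℕ := Nat.log2 (Nat.sub (Nat.mul (nat_lit 2) (fa x)) (nat_lit 1))

/-- The levels of a format, rows outside. -/
def cL0 (x : ℕ) : Lv := lv0 (cS x) (nL x) (fa x)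

/-- The levels of a format, columns outside. -/
def cL1 (x : ℕ) : Lv :=
  lv1 (Nat.mul (oneB (Nat.mul (cC x) (fb x))) (nat_lit 4194304)) (nL x) (fa x)

/-- The maximum of two vectors. -/
def fo (G a x : ℕ) : ℕ :=
  Nat.add a (Nat.land (Nat.sub (Nat.add x G) a)
    (Nat.mul (Nat.shiftRight (Nat.land (Nat.sub (Nat.add x G) a) G) (nat_lit 22))
      (nat_lit 4194303)))

/-- The maximum of the rows. -/
def fd0 (l : Lv) : ℕ → ℕ :=
  Lv.rec (motive := fun _ => ℕ → ℕ) (fun X => X)
    (fun W s G _ ih X => ih (fo G (Nat.mod X W) (Nat.shiftRight X s))) l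

/-- The maximum of every column. -/
def fd1 (l : Lv) : ℕ → ℕ :=
  Lv.rec (motive := fun _ => ℕ → ℕ) (fun X => X)
    (fun _ s G _ ih X => ih (fo G X (Nat.shiftRight X s))) l

/-! ### The step -/

/-- The loop, rows outside. -/
def s0 (x M Z t : ℕ) : ℕ :=
  Nat.sub (lp0 pP (cB x) (cW x) (cR x) (cG x) M Z (Nat.mod t (nat_lit 8388607)) t (cI x)) (cK x)

/-- The loop, columns outside. -/
def s1 (x M Z t : ℕ) : ℕ :=
  Nat.mod (Nat.sub (lp0 pP (nat_lit 23) (cW1 x) (cR1 x) (cG1 x) M Z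
    (Nat.mod t (nat_lit 8388607)) t (cI1 x)) (cK1 x)) (cD x)

/-- Spreading and halving, rows outside. -/
def m0 (x M Z t : ℕ) : ℕ :=
  Nat.sub (fo (cG x) (cI x) (Nat.land (fd0 (cL0 x) (Nat.add (Nat.mul (Nat.land
    (Nat.mul (Nat.land Z (Nat.mul t (nat_lit 4194303))) (cT x)) (cM x)) (cQ x)) M)) (cW x))) (cK x)

/-- Spreading and halving, columns outside. -/
def m1 (x M Z t : ℕ) : ℕ :=
  Nat.sub (fo (cG x) (cI x) (Nat.mod (Nat.land (fd1 (cL1 x)
    (Nat.add (Nat.mul (Nat.land Z (Nat.mul t (nat_lit 4194303))) (cR1 x)) M)) (cW1 x)) (cD x)))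
      (cK x)

/-- The step for the productive lanes `t` (digits `23 i`). -/
def adJ (x M Z A t : ℕ) : ℕ :=
  Bool.rec (motive := fun _ => ℕ)
    (Bool.rec (motive := fun _ => ℕ) (s1 x M (Nat.add Z A) t) (m1 x M Z t)
      (Nat.ble (nat_lit 4) (Nat.mod t (nat_lit 8388607))))
    (Bool.rec (motive := fun _ => ℕ) (s0 x M (Nat.add Z A) t) (m0 x M Z t)
      (Nat.ble (Nat.add (nL x) (nat_lit 3)) (Nat.mod t (nat_lit 8388607))))
    (Nat.beq (Nat.mod x (nat_lit 2)) (nat_lit 0))

/-- The step. -/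
def adH (x M Z A t : ℕ) : ℕ := adJ x M Z A (Nat.shiftRight t (nat_lit 22))

/-- The alive lanes after the step. -/
def adB (x Z : ℕ) : ℕ := Nat.land (Nat.add Z (cU x)) (cG x)

/-! ### The numbers -/

theorem full_eq (b : ℕ) : rep 23 b * 8388607 = 2 ^ (23 * b) - 1 := by
  rw [mul_comm, const_eq (by norm_num)]
  induction b with
  | zero => rfl
  | succ b ih =>
    rw [pk_succ, ih]
    have e : 2 ^ (23 * (b + 1)) = 2 ^ 23 * 2 ^ (23 * b) := by rw [← pow_add]; congr 1; ring
    have h1 : 1 ≤ 2 ^ (23 * b) := Nat.one_le_two_pow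
    rw [e, Nat.mul_sub]
    have h3 : 2 ^ 23 ≤ 2 ^ 23 * 2 ^ (23 * b) := Nat.le_mul_of_pos_right _ (by positivity)
    have h4 : (8388607 : ℕ) = 2 ^ 23 - 1 := by norm_num
    rw [h4]
    omega

theorem fo_eq {w b : ℕ} {f g : ℕ → ℕ} (hw : 23 ≤ w) (hf : ∀ j < b, f j < 2 ^ 22)
    (hg : ∀ j < b, g j < 2 ^ 22) :
    fo (rep w b * 4194304) (pk w b g) (pk w b f) = pk w b (fun j => max (f j) (g j)) := by
  have e : pk w b f + rep w b * 4194304 = pk w b (fun j => f j + 2 ^ 22) := by
    rw [mul_comm, const_eq (by omega), pk_add]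
    exact pk_congr fun j _ => by norm_num
  have h := mx_eq hw hf hg
  rw [← e] at h
  exact h

/-! ### The halvings -/

theorem fd0_cons (W s G : ℕ) (l : Lv) (X : ℕ) :
    fd0 (Lv.cons W s G l) X = fd0 l (fo G (X % W) (X >>> s)) := rfl

theorem fd1_cons (W s G : ℕ) (l : Lv) (X : ℕ) :
    fd1 (Lv.cons W s G l) X = fd1 l (fo G X (X >>> s)) := rfl

theorem lv0_succ (c n k : ℕ) : lv0 c (n + 1) k = Lv.cons (2 ^ (23 * (c * (k - k / 2))))
    (23 * (c * (k / 2))) (rep 23 (c * (k - k / 2)) * 4194304) (lv0 c n (k - k / 2)) := rfl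

theorem lv1_succ (GG n k : ℕ) :
    lv1 GG (n + 1) k = Lv.cons 0 (23 * (k / 2)) GG (lv1 GG n (k - k / 2)) := rfl

theorem half_le {k n : ℕ} (h : k ≤ 2 ^ (n + 1)) : k - k / 2 ≤ 2 ^ n := by
  rw [pow_succ] at h
  omega

theorem fd0_spec {c B : ℕ} (hB : B ≤ 2 ^ 22) : ∀ (n k : ℕ) (f : ℕ → ℕ), 1 ≤ k → k ≤ 2 ^ n →
    (∀ i < c * k, f i < B) → ∃ g, fd0 (lv0 c n k) (pk 23 (c * k) f) = pk 23 c g ∧
      (∀ i < c, g i < B) ∧ ∀ i < c, ∀ j < k, f (c * j + i) ≤ g i := by
  intro n
  induction n with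
  | zero =>
    intro k f h1 h2 hf
    obtain rfl : k = 1 := by
      rw [pow_zero] at h2
      omega
    rw [mul_one] at hf ⊢
    refine ⟨f, rfl, hf, fun i _ j hj => ?_⟩
    obtain rfl : j = 0 := by omega
    rw [mul_zero, zero_add]
  | succ n ih =>
    intro k f h1 h2 hf
    obtain ⟨h, hh⟩ : ∃ h, h = k / 2 := ⟨_, rfl⟩
    obtain ⟨k', hk'⟩ : ∃ k', k' = k - k / 2 := ⟨_, rfl⟩
    have hk : k = h + k' := by omega
    have hk2 : h ≤ k' := by omega
    have h3 : 1 ≤ k' := by omega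
    have h4 : k' ≤ 2 ^ n := hk' ▸ half_le h2
    have hle : c * k' ≤ c * k := Nat.mul_le_mul_left _ (by omega)
    have hck : c * k = c * h + c * k' := by rw [hk, mul_add]
    have hlt : ∀ i < c * k, f i < 2 ^ 23 := fun i hi => by
      have := hf i hi
      have : (2 : ℕ) ^ 22 < 2 ^ 23 := by norm_num
      omega
    have e1 : fd0 (lv0 c (n + 1) k) (pk 23 (c * k) f) = fd0 (lv0 c n k')
        (fo (rep 23 (c * k') * 4194304) (pk 23 (c * k) f % 2 ^ (23 * (c * k')))
          (pk 23 (c * k) f >>> (23 * (c * h)))) := by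
      rw [hk', hh, lv0_succ, fd0_cons]
    have e2 : pk 23 (c * k) f % 2 ^ (23 * (c * k')) = pk 23 (c * k') f :=
      pk_mod (fun i hi => hlt i (by omega)) hle
    have e3 : pk 23 (c * k) f >>> (23 * (c * h)) = pk 23 (c * k') (fun i => f (c * h + i)) := by
      rw [Nat.shiftRight_eq_div_pow, hck]
      exact pk_div fun i hi => hlt i (by omega)
    rw [e1, e2, e3, fo_eq le_rfl (fun i hi => by
        have := hf (c * h + i) (by omega)
        omega) (fun i hi => by
        have := hf i (by omega)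
        omega)]
    obtain ⟨g, g1, g2, g3⟩ := ih k' (fun i => max (f (c * h + i)) (f i)) h3 h4 (fun i hi =>
      max_lt (hf _ (by omega)) (hf _ (by omega)))
    refine ⟨g, g1, g2, fun i hi j hj => ?_⟩
    rcases Nat.lt_or_ge j k' with h5 | h5
    · exact (le_max_right _ _).trans (g3 i hi j h5)
    · have h6 := g3 i hi (j - h) (by omega)
      have e4 : c * h + (c * (j - h) + i) = c * j + i := by
        rw [← add_assoc, ← mul_add]
        congr 2
        omega
      simp only [e4] at h6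
      exact (le_max_left _ _).trans h6

theorem fd1_spec {N B : ℕ} (hB : B ≤ 2 ^ 22) (hB0 : 0 < B) : ∀ (n k : ℕ) (f : ℕ → ℕ), 1 ≤ k →
    k ≤ 2 ^ n → (∀ i < N, f i < B) →
    ∃ g, fd1 (lv1 (rep 23 N * 4194304) n k) (pk 23 N f) = pk 23 N g ∧
      (∀ i < N, g i < B) ∧ ∀ i, ∀ j < k, i + j < N → f (i + j) ≤ g i := by
  intro n
  induction n with
  | zero =>
    intro k f h1 h2 hf
    obtain rfl : k = 1 := by
      rw [pow_zero] at h2
      omega
    refine ⟨f, rfl, hf, fun i j hj _ => ?_⟩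
    obtain rfl : j = 0 := by omega
    rw [add_zero]
  | succ n ih =>
    intro k f h1 h2 hf
    obtain ⟨h, hh⟩ : ∃ h, h = k / 2 := ⟨_, rfl⟩
    obtain ⟨k', hk'⟩ : ∃ k', k' = k - k / 2 := ⟨_, rfl⟩
    have hk : k = h + k' := by omega
    have hk2 : h ≤ k' := by omega
    have h3 : 1 ≤ k' := by omega
    have h4 : k' ≤ 2 ^ n := hk' ▸ half_le h2
    have hr : Rep 22 N (pk 23 N f) f := ⟨rfl, fun i hi => lt_of_lt_of_le (hf i hi) hB⟩
    have hs := hr.shift0 h
    have e1 : fd1 (lv1 (rep 23 N * 4194304) (n + 1) k) (pk 23 N f) =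
        fd1 (lv1 (rep 23 N * 4194304) n k')
          (fo (rep 23 N * 4194304) (pk 23 N f) (pk 23 N f >>> (23 * h))) := by
      rw [hk', hh, lv1_succ, fd1_cons]
    have e3 : pk 23 N f >>> (23 * h) = pk 23 N (fun i => if h + i < N then f (h + i) else 0) :=
      hs.eq
    rw [e1, e3, fo_eq le_rfl (fun i hi => hs.lt i hi) (fun i hi => hr.lt i hi)]
    obtain ⟨g, g1, g2, g3⟩ := ih k' (fun i => max (if h + i < N then f (h + i) else 0) (f i)) h3 h4
      (fun i hi => by
        refine max_lt ?_ (hf i hi)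
        split_ifs with h5
        · exact hf _ h5
        · exact hB0)
    refine ⟨g, g1, g2, fun i j hj hij => ?_⟩
    rcases Nat.lt_or_ge j k' with h5 | h5
    · exact (le_max_right _ _).trans (g3 i j h5 hij)
    · have h6 := g3 i (j - h) (by omega) (by omega)
      have e4 : h + (i + (j - h)) = i + j := by omega
      simp only [e4, if_pos hij] at h6
      exact (le_max_left _ _).trans h6

theorem nL_le {x : ℕ} (h : 0 < fa x) : fa x ≤ 2 ^ nL x := by
  have e : nL x = Nat.log2 (2 * fa x - 1) := rfl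
  have h1 : 2 * fa x - 1 < 2 ^ (Nat.log2 (2 * fa x - 1) + 1) := Nat.lt_log2_self
  rw [e]
  rw [pow_succ] at h1
  omega

/-! ### The vector -/

theorem mask_eq {b Z F : ℕ} {d : ℕ → ℕ} (hZ : HB 22 b Z F) (hd : ∀ i < b, d i ≤ 1) :
    Rep 22 b (Z &&& (pk 23 b d * 4194303)) (fun i => if d i = 1 then fl 22 Z i else 0) := by
  have hlt : ∀ i < b, fl 22 Z i < 2 ^ 22 := fun i hi => hZ.rep.lt i hi
  refine ⟨?_, fun i hi => ?_⟩
  · rw [mul_comm, pk_mul]
    conv_lhs => rw [hZ.rep.eq]
    rw [pk_land (fun i hi => by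
      have := hlt i hi
      have : (2 : ℕ) ^ 22 < 2 ^ (22 + 1) := by norm_num
      omega) (fun i hi => by
      have h1 := hd i hi
      have : 4194303 * d i ≤ 4194303 * 1 := Nat.mul_le_mul_left _ h1
      have : (4194303 : ℕ) < 2 ^ (22 + 1) := by norm_num
      omega)]
    refine pk_congr fun i hi => ?_
    rcases Nat.le_one_iff_eq_zero_or_eq_one.1 (hd i hi) with h0 | h0
    · rw [h0, if_neg (by norm_num), mul_zero, Nat.and_zero]
    · have e : 4194303 * 1 = 2 ^ 22 - 1 := by norm_num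
      rw [h0, if_pos rfl, e, Nat.and_two_pow_sub_one_eq_mod, Nat.mod_eq_of_lt (hlt i hi)]
  · have h1 := hlt i hi
    split_ifs
    · exact h1
    · positivity

/-- The last part of the step. -/
theorem fin_spec {b F : ℕ} {y : ℕ → ℕ} (hy : ∀ j < b, y j < F + 2 ^ 17) (hF : F + 2 ^ 17 ≤ 2 ^ 22)
    (hF0 : 2 ^ 20 ≤ F) : ∃ g, fo (rep 23 b * 4194304) (rep 23 b * 1114111) (pk 23 b y) -
      rep 23 b * 65536 = pk 23 b g ∧ (∀ j < b, g j < F + 2 ^ 16) ∧ ∀ j < b, y j ≤ g j + 65536 := by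
  have h0 : rep 23 b * 1114111 = pk 23 b (fun _ => 1114111) := by
    rw [mul_comm, const_eq (by norm_num)]
  have hK : rep 23 b * 65536 = pk 23 b (fun _ => 65536) := by
    rw [mul_comm, const_eq (by norm_num)]
  refine ⟨fun j => max (y j) 1114111 - 65536, ?_, fun j hj => ?_, fun j hj => ?_⟩
  · rw [h0, fo_eq le_rfl (fun j hj => by
      have := hy j hj
      omega) (fun _ _ => by norm_num), hK, pk_sub]
    intro j _
    have := le_max_right (y j) 1114111
    omega
  · have := hy j hj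
    simp only
    omega
  · simp only
    omega

/-! ### The block -/

theorem cS_eq (x : ℕ) : cOf 0 (fa x) (fb x) = cS x := by
  have e3 : cOf 0 (fa x) (fb x) = rIf (Nat.ble (fb x) (Nat.succ (fa x))) (Nat.succ (fa x)) (fb x) :=
    rfl
  have e4 : cS x = fb x + (fa x + 1 - fb x) := rfl
  rw [e3, e4]
  rcases ble_cases (fb x) (Nat.succ (fa x)) with ⟨e, h⟩ | ⟨e, h⟩
  · rw [e, rIf_true]
    omega
  · rw [e, rIf_false]
    omega

theorem cC_eq (x : ℕ) : cOf 1 (fa x) (fb x) = cC x := by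
  have e3 : cOf 1 (fa x) (fb x) = rIf (Nat.ble (fa x) (Nat.succ (fb x))) (Nat.succ (fb x)) (fa x) :=
    rfl
  have e4 : cC x = fa x + (fb x + 1 - fa x) := rfl
  rw [e3, e4]
  rcases ble_cases (fa x) (Nat.succ (fb x)) with ⟨e, h⟩ | ⟨e, h⟩
  · rw [e, rIf_true]
    omega
  · rw [e, rIf_false]
    omega

section main

variable {Z F x M : ℕ} {d : ℕ → ℕ}

theorem m0_spec (ha : 0 < fa x) (hk : fk x = 0) (hZ : HB 22 (fa x) Z F)
    (hM : HB 22 (nX x) M (2 ^ 17)) (hF : F + 2 ^ 17 ≤ 2 ^ 22) (hF0 : 2 ^ 20 ≤ F)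
    (hd : ∀ i < fa x, d i ≤ 1) : HB 22 (fb x) (m0 x M Z (pk 23 (fa x) d)) (F + 2 ^ 16) ∧
      ∀ i < fa x, d i = 1 → ∀ j < fb x,
        fl 22 Z i + fl 22 M (plX x i j) ≤ fl 22 (m0 x M Z (pk 23 (fa x) d)) j + 65536 := by
  obtain ⟨c, hc⟩ : ∃ c, c = cS x := ⟨_, rfl⟩
  have hc1 : fa x + 1 ≤ c := by
    have : cS x = fb x + (fa x + 1 - fb x) := rfl
    omega
  have hc2 : fb x ≤ c := by
    have : cS x = fb x + (fa x + 1 - fb x) := rfl
    omega
  have en : nX x = c * fa x := by
    rw [hc, ← cS_eq]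
    unfold nX nOf
    rw [hk]
    rfl
  have ep : ∀ i j, plX x i j = c * i + j := by
    intro i j
    rw [hc, ← cS_eq]
    unfold plX pl
    rw [hk]
    rfl
  rw [en] at hM
  have h1 := mask_eq hZ hd
  have h2 := spr_rep h1 hc1 (by omega)
  have hMr := hM.rep
  have h3 := h2.add hMr (fun n hn => by
    have h4 := hM.lt n hn
    have h5 : n / c < fa x := div_lt_of_lt_mul hn
    have h6 := hZ.lt _ h5
    split_ifs
    · omega
    · omega)
  obtain ⟨g, g1, g2, g3⟩ := fd0_spec (c := c) (B := F + 2 ^ 17) hF (nL x) (fa x)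
    (fun n => (if d (n / c) = 1 then fl 22 Z (n / c) else 0) + fl 22 M n) ha (nL_le ha)
    (fun n hn => by
      have h4 := hM.lt n hn
      have h5 : n / c < fa x := div_lt_of_lt_mul hn
      have h6 := hZ.lt _ h5
      split_ifs
      · omega
      · omega)
  have e1 : m0 x M Z (pk 23 (fa x) d) = fo (rep 23 (fb x) * 4194304) (rep 23 (fb x) * 1114111)
      (fd0 (lv0 c (nL x) (fa x)) (spr (rep ((22 + 1) * (c - 1)) (fa x)) (smask 22 c (fa x))
        (rep (22 + 1) c) (Z &&& (pk 23 (fa x) d * 4194303)) + M) &&&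
          (rep 23 (fb x) * 8388607)) - rep 23 (fb x) * 65536 := by
    have e2 : smask 22 c (fa x) = rep (23 * c) (fa x) * 8388607 := mul_comm _ _
    rw [e2, hc]
    rfl
  have e3 : fd0 (lv0 c (nL x) (fa x)) (spr (rep ((22 + 1) * (c - 1)) (fa x)) (smask 22 c (fa x))
        (rep (22 + 1) c) (Z &&& (pk 23 (fa x) d * 4194303)) + M) = pk 23 c g := by
    rw [h3.eq]
    exact g1
  have e4 : pk 23 c g &&& (rep 23 (fb x) * 8388607) = pk 23 (fb x) g := by
    rw [full_eq, Nat.and_two_pow_sub_one_eq_mod]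
    exact pk_mod (fun i hi => by
      have := g2 i (by omega)
      have : (2 : ℕ) ^ 22 < 2 ^ 23 := by norm_num
      omega) hc2
  rw [e1, e3, e4]
  obtain ⟨r, r1, r2, r3⟩ := fin_spec (b := fb x) (y := g) (fun j hj => g2 j (by omega)) hF hF0
  have h5 : Rep 22 (fb x) (pk 23 (fb x) r) r := ⟨rfl, fun j hj => by
    have := r2 j hj
    omega⟩
  rw [r1]
  refine ⟨⟨r, h5, r2⟩, fun i hi h j hj => ?_⟩
  rw [fl_eq h5 hj, ep]
  refine le_trans ?_ (r3 j hj)
  have h6 := g3 j (by omega) i hi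
  have e5 : (c * i + j) / c = i := by
    rw [Nat.mul_add_div (by omega), Nat.div_eq_of_lt (by omega), add_zero]
  simp only [e5, if_pos h] at h6
  exact h6

theorem m1_spec (ha : 0 < fa x) (hb : 0 < fb x) (hk : fk x = 1) (hZ : HB 22 (fa x) Z F)
    (hM : HB 22 (nX x) M (2 ^ 17)) (hF : F + 2 ^ 17 ≤ 2 ^ 22) (hF0 : 2 ^ 20 ≤ F)
    (hd : ∀ i < fa x, d i ≤ 1) : HB 22 (fb x) (m1 x M Z (pk 23 (fa x) d)) (F + 2 ^ 16) ∧
      ∀ i < fa x, d i = 1 → ∀ j < fb x,
        fl 22 Z i + fl 22 M (plX x i j) ≤ fl 22 (m1 x M Z (pk 23 (fa x) d)) j + 65536 := by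
  obtain ⟨c, hc⟩ : ∃ c, c = cC x := ⟨_, rfl⟩
  have hc1 : fb x + 1 ≤ c := by
    have : cC x = fa x + (fb x + 1 - fa x) := rfl
    omega
  have hc2 : fa x ≤ c := by
    have : cC x = fa x + (fb x + 1 - fa x) := rfl
    omega
  have hc0 : 0 < c := by omega
  have en : nX x = c * fb x := by
    rw [hc, ← cC_eq]
    unfold nX nOf
    rw [hk]
    rfl
  have ep : ∀ i j, plX x i j = c * j + i := by
    intro i j
    rw [hc, ← cC_eq]
    unfold plX pl
    rw [hk]
    rfl
  rw [en] at hM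
  have h1 := (mask_eq hZ hd).pad hc2
  have h2 := h1.tile hc0 (fb x)
  have hMr := hM.rep
  have hbd : ∀ n < c * fb x, (if n % c < fa x then (if d (n % c) = 1 then fl 22 Z (n % c) else 0)
      else 0) + fl 22 M n < F + 2 ^ 17 := fun n hn => by
    have h4 := hM.lt n hn
    by_cases h5 : n % c < fa x
    · have h6 := hZ.lt _ h5
      rw [if_pos h5]
      split_ifs
      · omega
      · omega
    · rw [if_neg h5]
      omega
  have h3 := h2.add hMr (fun n hn => lt_of_lt_of_le (hbd n hn) hF)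
  obtain ⟨g, g1, g2, g3⟩ := fd1_spec (N := c * fb x) (B := F + 2 ^ 17) hF (by omega) (nL x) (fa x)
    (fun n => (if n % c < fa x then (if d (n % c) = 1 then fl 22 Z (n % c) else 0)
      else 0) + fl 22 M n) ha (nL_le ha) hbd
  have hgr : Rep 22 (c * fb x) (pk 23 (c * fb x) g) g := ⟨rfl, fun i hi =>
    lt_of_lt_of_le (g2 i hi) hF⟩
  have h4 := (hgr.stride hc0).compress hc1 (by omega)
  have e1 : m1 x M Z (pk 23 (fa x) d) = fo (rep 23 (fb x) * 4194304) (rep 23 (fb x) * 1114111)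
      (compress 22 c (fd1 (lv1 (rep 23 (c * fb x) * 4194304) (nL x) (fa x))
        ((Z &&& (pk 23 (fa x) d * 4194303)) * rep ((22 + 1) * c) (fb x) + M) &&&
          smask 22 c (fb x))) - rep 23 (fb x) * 65536 := by
    have e2 : smask 22 c (fb x) = rep (23 * c) (fb x) * 8388607 := mul_comm _ _
    rw [e2, hc]
    rfl
  have e3 : fd1 (lv1 (rep 23 (c * fb x) * 4194304) (nL x) (fa x))
        ((Z &&& (pk 23 (fa x) d * 4194303)) * rep ((22 + 1) * c) (fb x) + M) =
      pk 23 (c * fb x) g := by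
    rw [h3.eq]
    exact g1
  rw [e1, e3, h4.eq]
  obtain ⟨r, r1, r2, r3⟩ := fin_spec (b := fb x) (y := fun j => g (c * j)) (fun j hj => g2 _
    (Nat.mul_lt_mul_of_pos_left hj hc0)) hF hF0
  have h5 : Rep 22 (fb x) (pk 23 (fb x) r) r := ⟨rfl, fun j hj => by
    have := r2 j hj
    omega⟩
  have r1' : fo (rep 23 (fb x) * 4194304) (rep 23 (fb x) * 1114111)
      (pk (22 + 1) (fb x) (fun j => g (c * j))) - rep 23 (fb x) * 65536 = pk 23 (fb x) r := r1
  rw [r1']
  refine ⟨⟨r, h5, r2⟩, fun i hi h j hj => ?_⟩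
  rw [fl_eq h5 hj, ep]
  refine le_trans ?_ (r3 j hj)
  have h6 := g3 (c * j) i hi (by
    calc c * j + i < c * j + c := by omega
      _ = c * (j + 1) := by ring
      _ ≤ c * fb x := Nat.mul_le_mul_left _ hj)
  have e5 : (c * j + i) % c = i := by
    rw [Nat.mul_add_mod, Nat.mod_eq_of_lt (by omega)]
  simp only [e5, if_pos hi, if_pos h] at h6
  exact h6

end main

/-! ### The step -/

theorem pP_eq : pP = 2 ^ 5888 := p5888

theorem s0_eq {x M Z t : ℕ} (h : Nat.beq (Nat.mod x 2) 0 = true) :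
    s0 x M Z t = adX pP (fa x) (fb x) M Z t x := by
  have e1 : adX pP (fa x) (fb x) M Z t x = rIf (Nat.beq (Nat.mod x 2) 0)
      (adR pP (cB x) (2 ^ (23 * fb x) - 1) (rep 23 (fb x)) M Z t)
      (adD pP (Nat.mul 23 (Nat.add (fa x) (Nat.sub (Nat.succ (fb x)) (fa x)))) (fb x) M Z t) := rfl
  rw [e1, h, rIf_true, ← full_eq]
  rfl

theorem s1_eq {x M Z t : ℕ} (h : Nat.beq (Nat.mod x 2) 0 = false) :
    s1 x M Z t = adX pP (fa x) (fb x) M Z t x := by
  have e1 : adX pP (fa x) (fb x) M Z t x = rIf (Nat.beq (Nat.mod x 2) 0)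
      (adR pP (cB x) (2 ^ (23 * fb x) - 1) (rep 23 (fb x)) M Z t)
      (adD pP (Nat.mul 23 (Nat.add (fa x) (Nat.sub (Nat.succ (fb x)) (fa x)))) (fb x) M Z t) := rfl
  rw [e1, h, rIf_false]
  rfl

theorem adH_spec {Z F x M q : ℕ} (hb : 0 < fa x) (hZ : HB 22 (fa x) Z F)
    (hq : HB 22 (fa x) q (2 ^ 22)) (hM : HB 22 (nX x) M (2 ^ 17)) (hb' : 0 < fb x)
    (hF : F + 2 ^ 17 ≤ 2 ^ 22) (hF0 : 2 ^ 20 ≤ F) {r : ℕ}
    (hr : r = adH x M Z (alv (rep 23 (fa x)) Z) (tsS Z (alv (rep 23 (fa x)) Z) q)) :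
    HB 22 (fb x) r (F + 2 ^ 16) ∧
      ∀ i < fa x, prd Z q i = 1 → ∀ j < fb x,
        fl 22 Z i + fl 22 M (plX x i j) ≤ fl 22 r j + 65536 := by
  have h1 := adX_spec pP_eq hb hZ hq hM hb' hF hF0 rfl
  have ht : Nat.shiftRight (tsS Z (alv (rep 23 (fa x)) Z) q) 22 = pk 23 (fa x) (prd Z q) :=
    tsS_shift hZ hq
  have e1 : adH x M Z (alv (rep 23 (fa x)) Z) (tsS Z (alv (rep 23 (fa x)) Z) q) =
    Bool.rec (motive := fun _ => ℕ)
    (Bool.rec (motive := fun _ => ℕ) (s1 x M (Z + alv (rep 23 (fa x)) Z)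
      (Nat.shiftRight (tsS Z (alv (rep 23 (fa x)) Z) q) 22)) (m1 x M Z
        (Nat.shiftRight (tsS Z (alv (rep 23 (fa x)) Z) q) 22))
      (Nat.ble 4 (Nat.mod (Nat.shiftRight (tsS Z (alv (rep 23 (fa x)) Z) q) 22) 8388607)))
    (Bool.rec (motive := fun _ => ℕ) (s0 x M (Z + alv (rep 23 (fa x)) Z)
      (Nat.shiftRight (tsS Z (alv (rep 23 (fa x)) Z) q) 22)) (m0 x M Z
        (Nat.shiftRight (tsS Z (alv (rep 23 (fa x)) Z) q) 22))
      (Nat.ble (Nat.add (nL x) 3) (Nat.mod (Nat.shiftRight (tsS Z (alv (rep 23 (fa x)) Z) q) 22)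
        8388607)))
    (Nat.beq (Nat.mod x 2) 0) := rfl
  rw [e1] at hr
  rcases fk_two x with ⟨e0, hk⟩ | ⟨e0, hk⟩
  · rw [e0] at hr
    cases hc : Nat.ble (Nat.add (nL x) 3)
      (Nat.mod (Nat.shiftRight (tsS Z (alv (rep 23 (fa x)) Z) q) 22) 8388607) with
    | false =>
      rw [hc] at hr
      have hr2 : r = s0 x M (Z + alv (rep 23 (fa x)) Z)
        (Nat.shiftRight (tsS Z (alv (rep 23 (fa x)) Z) q) 22) := hr
      rw [hr2, s0_eq e0]
      exact h1
    | true =>
      rw [hc] at hr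
      have hr2 : r = m0 x M Z (Nat.shiftRight (tsS Z (alv (rep 23 (fa x)) Z) q) 22) := hr
      rw [hr2, ht]
      exact m0_spec hb hk hZ hM hF hF0 fun i _ => prd_le _ _ _
  · rw [e0] at hr
    cases hc : Nat.ble 4
      (Nat.mod (Nat.shiftRight (tsS Z (alv (rep 23 (fa x)) Z) q) 22) 8388607) with
    | false =>
      rw [hc] at hr
      have hr2 : r = s1 x M (Z + alv (rep 23 (fa x)) Z)
        (Nat.shiftRight (tsS Z (alv (rep 23 (fa x)) Z) q) 22) := hr
      rw [hr2, s1_eq e0]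
      exact h1
    | true =>
      rw [hc] at hr
      have hr2 : r = m1 x M Z (Nat.shiftRight (tsS Z (alv (rep 23 (fa x)) Z) q) 22) := hr
      rw [hr2, ht]
      exact m1_spec hb hb' hk hZ hM hF hF0 fun i _ => prd_le _ _ _

/-- **The step.** -/
theorem step {Z A F b j : ℕ} {v : ℤ} (h : SC Z A F b j v) {x M q b' j' : ℕ} {v' : ℤ}
    (ha : fa x = b) (hb : fb x = b') (hM : HB 22 (nX x) M (2 ^ 17)) (hj : j' < b')
    (hq : Dom b q x M) (hv : v' - v + kap0 ≤ fl 22 M (plX x j j')) (hv' : 1 ≤ v')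
    (hF : F + 2 ^ 17 ≤ 2 ^ 22) (hF0 : 2 ^ 20 ≤ F) :
    SC (adH x M Z A (tsS Z A q)) (adB x (adH x M Z A (tsS Z A q))) (F + 2 ^ 16) b' j' v' := by
  have h1 := h.prd hb hj hq hv hv'
  subst ha hb
  have hlt := h.lt
  have h2 : HB 22 (fb x) (adH x M Z A (tsS Z A q)) (F + 2 ^ 16) ∧
      ∀ i < fa x, PB.prd Z q i = 1 → ∀ j < fb x,
        fl 22 Z i + fl 22 M (plX x i j) ≤ fl 22 (adH x M Z A (tsS Z A q)) j + 65536 := by
    have h0 := adH_spec (by omega) h.hb hq.hb hM (by omega) hF hF0 rfl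
    rw [← h.alive] at h0
    exact h0
  have e2 : kap0 = 65536 := by norm_num [kap0]
  rw [e2] at hv
  refine ⟨h2.1, rfl, hj, hv', ?_⟩
  have h3 := h2.2 j h.lt h1 j' hj
  have h4 := h.le
  push_cast at hv
  omega

end

end Pool.Agent.Lib.MP_5854e1_co.PB.Hy
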