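import Pool.Agent.Lib.MP_5854e1_co.Wk
import Pool.Agent.Lib.MP_5854e1_co.CloE
import Pool.Agent.Lib.MP_5854e1_co.OptQ
import Pool.Agent.Lib.MP_5854e1_co.Hyb

/-!
# The search with the productive lanes

The same search as in `Srch`, with the states `(Z, A)` of `Core`, the steps of `Hyb` and the walk of `Wk`: a state has the
pointer `(c', ch, rs)` of its node. The function `cl` treats the closings of a state.
-/

set_option autoImplicit false

open Equiv Equiv.Perm

namespace Pool.Agent.Lib.MP_5854e1_co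

noncomputable section

namespace PB

open Wk (FB)

/-- The data of a root: the shape, the option, the tokens of the shape, the next shape and the path of
the option. -/
inductive Rt where
  | mk (kr or : ℕ) (tk : List ℕ) (kn : ℕ) (pt : List ℕ) : Rt

/-! ### The closings -/

/-- The label of the root behind the last pair of the word. -/
def lof (hist : List Hs) : ℕ :=
  List.rec (motive := fun _ => ℕ) (nat_lit 0) (fun h _ ih => Hs.rec (motive := fun _ => ℕ)
    (fun k o _ _ => nxq k o ih) h) hist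

section closings

variable (R : ℕ → ℕ → Rw Blk) (cev : List Hs → ℕ → ℕ → Bool)

/-- The exact evaluation of a closed word. -/
def cfy (or kn : ℕ) (pt : List ℕ) (k' : ℕ) (hist : List Hs) (oc _q : ℕ) (b : Blk) : Bool :=
  Blk.rec (motive := fun _ => Bool) (fun x M => Rw.cla (fun _ => false)
    (fun o1 _ b1 => rIf (Nat.beq o1 or) (Blk.rec (motive := fun _ => Bool)
      (fun x1 M1 => cev (List.cons (Hs.mk k' oc x M) hist) x1 M1) b1) true) kn (R k' oc) pt) b

/-- The closing part of a state with the mask `mask`. -/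
def clx (rt : Rt) (k o k' Z A : ℕ) (hist : List Hs) (mask : ℕ) : Bool :=
  Nat.rec (motive := fun _ => Bool) true
    (fun _ _ => Rt.rec (motive := fun _ => Bool) (fun kr or tk kn pt =>
      rForce (Nat.add (Nat.div mask (nat_lit 2)) (Nat.mul (nat_lit 3)
        (rotC (lastC k') (lof hist)))) fun c =>
          Rw.cle (fun q => Nat.beq (tsS Z A q) (nat_lit 0)) (cfy R cev or kn pt k' hist) kr (R k o) c
            tk) rt) mask

end closings

/-! ### The search -/

section search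

variable (FR : ℕ → ℕ → FB Blk) (cl : ℕ → ℕ → ℕ → ℕ → ℕ → List Hs → ℕ → Bool)

/-- The call for a child with the vector `Z`; `ih` treats it. -/
def chy (ih : ℕ → ℕ → ℕ → ℕ → ℕ → List Hs → ℕ → Nd → Nd → Bool) (k' o k x : ℕ) (hist : List Hs)
    (c' : ℕ) (ch rs : Nd) (Z : ℕ) : Bool :=
  ih k' o k Z (Hy.adB x Z) hist c' ch rs

/-- The call for a child. -/
def chx (ih : ℕ → ℕ → ℕ → ℕ → ℕ → List Hs → ℕ → Nd → Nd → Bool) (k' Z A : ℕ) (hist : List Hs)
    (o k tq : ℕ) (b : Blk) (c' : ℕ) (ch rs : Nd) : Bool :=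
  Blk.rec (motive := fun _ => Bool)
    (fun x M => chy ih k' o k x (List.cons (Hs.mk k' o x M) hist) c' ch rs (Hy.adH x M Z A tq)) b

/-- One state. -/
def stx (ih : ℕ → ℕ → ℕ → ℕ → ℕ → List Hs → ℕ → Nd → Nd → Bool) (k o k' Z A : ℕ)
    (hist : List Hs) (c' : ℕ) (ch rs : Nd) : Bool :=
  Bool.rec (motive := fun _ => Bool) false
    (FB.rec (motive := fun _ => Bool)
      (fun w => w (tsS Z A) (chx ih k' Z A hist) c' ch rs) (FR k o))
    (Nd.rec (motive := fun _ => Bool) (fun _ mask => cl k o k' Z A hist mask)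
      (fun _ _ _ _ _ => true) rs)

/-- The search. -/
def srx (fuel : ℕ) : ℕ → ℕ → ℕ → ℕ → ℕ → List Hs → ℕ → Nd → Nd → Bool :=
  Nat.rec (motive := fun _ => ℕ → ℕ → ℕ → ℕ → ℕ → List Hs → ℕ → Nd → Nd → Bool)
    (fun _ _ _ _ _ _ _ _ _ => false) (fun _ ih => stx FR cl ih) fuel

end search

/-! ### Soundness -/

theorem opn_bool {f g : ℕ → Nd → Nd → Bool} {h : ℕ → Bool} {n : Nd} (hn : h 0 = true)
    (e : n.opn (fun c' ch rs => Bool.rec (motive := fun _ => Bool) false (g c' ch rs)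
      (Nd.rec (motive := fun _ => Bool) (fun _ mask => h mask) (fun _ _ _ _ _ => true) rs)) = true)
    (hf : f = g) : n.opn f = true ∧ h n.cmk = true := by
  subst hf
  have key : ∀ {a b : Bool}, (Bool.rec (motive := fun _ => Bool) false b a : Bool) = true →
      b = true ∧ a = true := by
    intro a b h
    cases a with
    | false => exact absurd h Bool.false_ne_true
    | true => exact ⟨h, rfl⟩
  cases n with
  | fin code mask => exact key e
  | arc c ch rest =>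
    have h1 := key e
    refine ⟨h1.1, ?_⟩
    cases rest with
    | fin code mask => exact h1.2
    | arc c2 ch2 rest2 => exact hn

section sound

variable {R : ℕ → ℕ → Rw Blk} {FR : ℕ → ℕ → FB Blk} {nl Pn Rv : ℕ → ℕ → ℕ} {F : Type*}
  {T : SMap F}

theorem ox_lt_optN' (T : SMap F) (d : F) : T.ox d < optN (T.kx d) := by
  rw [optN_eq (T.kx_lt d)]
  exact T.ox_lt_length d

theorem lof_hist {e : F} {t : ℕ} {hist : List Hs} (h : Hist R T e t hist) :
    lof hist = T.lx (T.N^[t + 1] e) e := by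
  induction h with
  | root =>
    show nxq (T.kx e) (T.ox e) 0 = _
    rw [nxq_eq (T.kx_lt e) (ox_lt_optN' T e)]
    have e4 : T.lx (T.N^[0 + 1] e) e = rotC (T.lx e (T.N^[0 + 1] e)) (T.lx e e) := T.lx_rot _ _ _
    have e5 : T.lx e e = 0 := by
      show lc (T.rlb e e) = 0
      rw [SMap.rlb_self]
      decide +kernel
    rw [e4, e5]
    unfold nxl
    rw [T.optA_ox]
    congr 1
    exact ocode_q (kc_lt _) (T.lx_lt _ _)
  | @step t h x M h0 _ ih =>
    show nxq (T.kx (T.N^[t + 1] e)) (T.ox (T.N^[t + 1] e)) (lof h) = _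
    rw [nxq_eq (T.kx_lt _) (ox_lt_optN' T _), ih]
    unfold nxl
    rw [T.optA_ox]
    have e1 : Nat.mod (Nat.div (T.oc (T.N^[t + 1] e)) 3) 24 =
        T.lx (T.N^[t + 1] e) (T.N (T.N^[t + 1] e)) := ocode_q (kc_lt _) (T.lx_lt _ _)
    rw [e1, ← T.lx_rot]
    congr 1
    exact (Function.iterate_succ_apply' T.N (t + 1) _).symm

/-- One step: the entry of the next pair is reached, its tests do not vanish, and the state is known
again. -/
theorem stepx_at (hc : ∀ k0 < 101, cloK R nl Pn Rv k0 = true) {L : F → ℕ} {val : F → ℤ}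
    (hT : MapOK R nl Pn T L val) {d : F} {t : ℕ} {Z A G : ℕ}
    (hS : SC Z A G (nl (T.kx (T.N^[t] (T.N d))) (T.ox (T.N^[t] (T.N d)))) (L (T.N^[t] (T.N d)))
      (pv T Pn L val d t)) (hG : G + 2 ^ 17 ≤ 2 ^ 22) (hK : 2 ^ 20 ≤ G)
    (hpos : 1 ≤ pv T Pn L val d (t + 1)) :
    ∃ x M qs, (R (T.kx (T.N^[t] (T.N d))) (T.ox (T.N^[t] (T.N d)))).blk
        (T.ox (T.N^[t + 1] (T.N d))) = some (Blk.mk x M) ∧
      Rw.At (R (T.kx (T.N^[t] (T.N d))) (T.ox (T.N^[t] (T.N d))))
        (stepT (T.kx (T.N^[t + 1] (T.N d))) (T.oc (T.N^[t + 1] (T.N d))))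
        (T.ox (T.N^[t + 1] (T.N d))) (T.kx (T.N^[t + 2] (T.N d))) (Blk.mk x M) qs ∧
      ∀ q ∈ qs, tsS Z A q ≠ 0 ∧
        SC (Hy.adH x M Z A (tsS Z A q)) (Hy.adB x (Hy.adH x M Z A (tsS Z A q))) (G + 2 ^ 16)
          (nl (T.kx (T.N^[t + 1] (T.N d))) (T.ox (T.N^[t + 1] (T.N d))))
          (L (T.N^[t + 1] (T.N d))) (pv T Pn L val d (t + 1)) := by
  have e1 : T.N^[t + 1] (T.N d) = T.N (T.N^[t] (T.N d)) := Function.iterate_succ_apply' T.N t _
  have e2 : T.N^[t + 2] (T.N d) = T.N (T.N (T.N^[t] (T.N d))) := by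
    rw [Function.iterate_succ_apply' T.N (t + 1), e1]
  have e3 : T.N^[t + 1] d = T.N^[t] (T.N d) := rfl
  have e4 := pv_succ (T := T) Pn L val d t
  rw [e3] at e4
  rw [e1, e2]
  set a := T.N^[t] (T.N d) with ha
  obtain ⟨b, h1, h2⟩ := hT.blk a
  cases b with
  | mk x M =>
    rw [fd_mk] at h2
    obtain ⟨qs, h3, h4, h5⟩ := blk_at hc T a h1
    have hv : pv T Pn L val d (t + 1) - pv T Pn L val d t + kap0 ≤
        fl 22 M (plX x (L a) (L (T.N a))) := by
      rw [e4]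
      linarith
    have hfa : fa x = nl (T.kx a) (T.ox a) := h4.fa
    have hfb : fb x = nl (T.kx (T.N a)) (T.ox (T.N a)) := h4.fb
    exact ⟨x, M, qs, h1, h3, fun q hq => ⟨hS.tst hfb (hT.lane _) (h5 q hq) hv hpos,
      Hy.step hS hfa hfb h4.hb (hT.lane _) (h5 q hq) hv hpos hG hK⟩⟩

variable (cev : List Hs → ℕ → ℕ → Bool)

theorem rec_true {n : ℕ} {g : ℕ → Bool → Bool} (hn : n ≠ 0)
    (h : Nat.rec (motive := fun _ => Bool) true g n = true) : ∃ m v, g m v = true := by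
  cases n with
  | zero => exact absurd rfl hn
  | succ m => exact ⟨m, _, h⟩

/-- The data of the root of the word of `d`. -/
def rtF (T : SMap F) (d : F) : Rt :=
  Rt.mk (T.kx (T.N d)) (T.ox (T.N d)) (tokT (T.kx (T.N d))) (T.kx (T.N (T.N d)))
    (stepT (T.kx (T.N d)) (T.oc (T.N d)))

theorem clx_sound (hc : ∀ k0 < 101, cloK R nl Pn Rv k0 = true) {L : F → ℕ} {val : F → ℤ}
    (hT : MapOK R nl Pn T L val) {C : Prop} {d : F}
    (hcl : ∀ hist x M, Hist R T (T.N d) (Function.minimalPeriod T.N (T.N d) - 1) hist →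
      (R (T.kx d) (T.ox d)).blk (T.ox (T.N d)) = some (Blk.mk x M) → cev hist x M = true → C)
    {t : ℕ} (ht : t + 2 = Function.minimalPeriod T.N (T.N d)) {Z A G mask : ℕ}
    {hist : List Hs}
    (hS : SC Z A G (nl (T.kx (T.N^[t] (T.N d))) (T.ox (T.N^[t] (T.N d)))) (L (T.N^[t] (T.N d)))
      (pv T Pn L val d t)) (hG : G + 2 ^ 17 ≤ 2 ^ 22) (hK : 2 ^ 20 ≤ G)
    (hpos : 1 ≤ pv T Pn L val d (t + 1)) (hh : Hist R T (T.N d) t hist)
    (hm : mask = 0 ∨ mask = 1 ∨ mask = 2 ∨ mask = 4)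
    (hb : bt mask (kc (T.K (T.N d))) = true)
    (h : clx R cev (rtF T d) (T.kx (T.N^[t] (T.N d))) (T.ox (T.N^[t] (T.N d)))
      (T.kx (T.N^[t + 1] (T.N d))) Z A hist mask = true) : C := by
  obtain ⟨x, M, qs, h1, h2, h3⟩ := stepx_at hc hT hS hG hK hpos
  have hp : T.N^[t + 2] (T.N d) = T.N d := by
    rw [ht]
    exact Function.isPeriodicPt_minimalPeriod T.N (T.N d)
  have hd : T.N^[t + 1] (T.N d) = d := by
    have e : T.N (T.N^[t + 1] (T.N d)) = T.N d := by
      rw [← Function.iterate_succ_apply' T.N (t + 1)]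
      exact hp
    exact T.N.injective e
  have hl := lof_hist hh
  set l := lof hist with hldef
  have hk := kc_lt (T.K (T.N d))
  have hmask : mask ≠ 0 ∧ mask / 2 = kc (T.K (T.N d)) := by
    rw [bt_eq] at hb
    exact mask_cases _ hk _ hm hb
  obtain ⟨-, -, h5⟩ := rec_true (g := fun _ _ => rForce (Nat.add (Nat.div mask 2) (Nat.mul 3
    (rotC (lastC (T.kx (T.N^[t + 1] (T.N d)))) l))) fun c =>
      Rw.cle (fun q => Nat.beq (tsS Z A q) 0) (cfy R cev (T.ox (T.N d)) (T.kx (T.N (T.N d)))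
        (stepT (T.kx (T.N d)) (T.oc (T.N d))) (T.kx (T.N^[t + 1] (T.N d))) hist) (T.kx (T.N d))
        (R (T.kx (T.N^[t] (T.N d))) (T.ox (T.N^[t] (T.N d)))) c (tokT (T.kx (T.N d)))) hmask.1 h
  rw [rForce_eq] at h5
  -- the path
  have hoc : T.oc (T.N^[t + 1] (T.N d)) = kc (T.K (T.N d)) + 3 * l + 72 * T.kx (T.N d) := by
    have e : T.N (T.N^[t + 1] (T.N d)) = T.N d := by rw [hd]
    unfold SMap.oc ocode
    rw [e, hl]
  have hl24 : l < 24 := by rw [hl]; exact T.lx_lt _ _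
  have hpath : stepT (T.kx (T.N^[t + 1] (T.N d))) (T.oc (T.N^[t + 1] (T.N d))) =
      Nat.add (Nat.div mask 2) (Nat.mul 3 (rotC (lastC (T.kx (T.N^[t + 1] (T.N d)))) l)) ::
        tokT (T.kx (T.N d)) := by
    rw [stepT_arcC, hoc]
    have e1 : Nat.div (kc (T.K (T.N d)) + 3 * l + 72 * T.kx (T.N d)) 72 = T.kx (T.N d) := by
      show (kc (T.K (T.N d)) + 3 * l + 72 * T.kx (T.N d)) / 72 = T.kx (T.N d)
      omega
    have e2 : Nat.mod (kc (T.K (T.N d)) + 3 * l + 72 * T.kx (T.N d)) 3 = Nat.div mask 2 := by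
      show (kc (T.K (T.N d)) + 3 * l + 72 * T.kx (T.N d)) % 3 = mask / 2
      omega
    have e3 : Nat.mod (Nat.div (kc (T.K (T.N d)) + 3 * l + 72 * T.kx (T.N d)) 3) 24 = l := by
      show (kc (T.K (T.N d)) + 3 * l + 72 * T.kx (T.N d)) / 3 % 24 = l
      omega
    unfold arcC
    rw [e1, e2, e3]
  rw [hpath, hp] at h2
  have hr := pair_at hc T (T.N^[t] (T.N d))
  obtain ⟨q, h6, h7⟩ := Rw.cle_sound hr.2.wf h5 h2 (fun q hq => by
    have := (h3 q hq).1
    cases hb : Nat.beq (tsS Z A q) 0 with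
    | true => exact absurd (Nat.eq_of_beq_eq_true hb) this
    | false => rfl)
  have h8 : Rw.cla (fun _ => false)
    (fun o1 _ b1 => rIf (Nat.beq o1 (T.ox (T.N d))) (Blk.rec (motive := fun _ => Bool)
      (fun x1 M1 => cev (List.cons (Hs.mk (T.kx (T.N^[t + 1] (T.N d)))
        (T.ox (T.N^[t + 1] (T.N d))) x M) hist) x1 M1) b1) true) (T.kx (T.N (T.N d)))
    (R (T.kx (T.N^[t + 1] (T.N d))) (T.ox (T.N^[t + 1] (T.N d))))
    (stepT (T.kx (T.N d)) (T.oc (T.N d))) = true := h7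
  obtain ⟨b1, h10, -⟩ := hT.blk d
  obtain ⟨qs1, h11, -⟩ := blk_at hc T d h10
  have hr1 := pair_at hc T d
  rw [hd] at h8
  obtain ⟨q1, -, h12⟩ := Rw.cla_sound hr1.2.wf h8 h11 (fun _ _ => rfl)
  cases b1 with
  | mk x1 M1 =>
    rw [Nat.beq_refl, rIf_true] at h12
    refine hcl _ x1 M1 ?_ h10 h12
    have e : Function.minimalPeriod T.N (T.N d) - 1 = t + 1 := by omega
    rw [e]
    have h13 := Hist.step hh h1
    rw [hd] at h13
    exact h13

/-- **Soundness of the search.** -/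
theorem srx_sound (hFR : ∀ k o, (FR k o).run = Wk.wlk (R k o))
    (hs : ∀ k < 101, Wk.wfsK R k = true) (hc : ∀ k0 < 101, cloK R nl Pn Rv k0 = true)
    {L : F → ℕ} {val : F → ℤ} (hT : MapOK R nl Pn T L val) {C : Prop} {d : F}
    (hcl : ∀ hist x M, Hist R T (T.N d) (Function.minimalPeriod T.N (T.N d) - 1) hist →
      (R (T.kx d) (T.ox d)).blk (T.ox (T.N d)) = some (Blk.mk x M) → cev hist x M = true → C)
    (hpos : ∀ t, 1 ≤ pv T Pn L val d t) {ν : ℕ → Nd}
    (hν : ∀ j, j + 1 < Function.minimalPeriod T.N (T.N d) →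
      (ν j).run (stepT (T.kx (T.N^[j] (T.N d))) (T.oc (T.N^[j] (T.N d)))) = some (ν (j + 1)))
    (hord : ∀ j < Function.minimalPeriod T.N (T.N d), (ν j).Ord)
    (hmsk : ∀ j < Function.minimalPeriod T.N (T.N d), (ν j).Msk)
    (hend : bt (ν (Function.minimalPeriod T.N (T.N d) - 1)).mask (kc (T.K (T.N d))) = true) :
    ∀ (fuel : ℕ) {t : ℕ} (_ : t + 1 < Function.minimalPeriod T.N (T.N d)) {Z A G : ℕ}
    {hist : List Hs}
    (_ : SC Z A G (nl (T.kx (T.N^[t] (T.N d))) (T.ox (T.N^[t] (T.N d)))) (L (T.N^[t] (T.N d)))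
      (pv T Pn L val d t)) (_ : G + fuel * 2 ^ 16 + 2 ^ 16 ≤ 2 ^ 22) (_ : 2 ^ 20 ≤ G)
    (_ : Hist R T (T.N d) t hist)
    (_ : (ν (t + 1)).opn (srx FR (clx R cev (rtF T d)) fuel (T.kx (T.N^[t] (T.N d)))
      (T.ox (T.N^[t] (T.N d))) (T.kx (T.N^[t + 1] (T.N d))) Z A hist) = true), C := by
  intro fuel
  induction fuel with
  | zero =>
    intro t _ Z A G hist _ _ _ _ h
    exfalso
    cases hn : ν (t + 1) with
    | fin _ _ => rw [hn] at h; exact absurd h Bool.false_ne_true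
    | arc _ _ _ => rw [hn] at h; exact absurd h Bool.false_ne_true
  | succ fuel ih =>
    intro t ht Z A G hist hS hG hK hh h
    obtain ⟨h3, h2⟩ := opn_bool (n := ν (t + 1)) (h := clx R cev (rtF T d)
      (T.kx (T.N^[t] (T.N d))) (T.ox (T.N^[t] (T.N d))) (T.kx (T.N^[t + 1] (T.N d))) Z A hist)
      (g := (FR (T.kx (T.N^[t] (T.N d))) (T.ox (T.N^[t] (T.N d)))).run (tsS Z A)
        (chx (srx FR (clx R cev (rtF T d)) fuel) (T.kx (T.N^[t + 1] (T.N d))) Z A hist)) rfl h rfl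
    rw [hFR] at h3
    have hG' : G + 2 ^ 17 ≤ 2 ^ 22 := by omega
    rcases Nat.lt_or_ge (t + 2) (Function.minimalPeriod T.N (T.N d)) with h4 | h4
    · obtain ⟨x, M, qs, g1, g2, g3⟩ := stepx_at hc hT hS hG' hK (hpos (t + 1))
      obtain ⟨q, hq, h5⟩ := Wk.wlk_sound (Wk.wfs_map hs T _) (hord _ (by omega)) h3 g2
        (fun q hq => (g3 q hq).1) (hν (t + 1) (by omega))
      exact ih (t := t + 1) h4 (g3 q hq).2 (by omega) (by omega) (Hist.step hh g1) h5
    · have h6 : t + 2 = Function.minimalPeriod T.N (T.N d) := by omega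
      have e : Function.minimalPeriod T.N (T.N d) - 1 = t + 1 := by omega
      rw [e] at hend
      have hm := hmsk (t + 1) (by omega)
      rw [hm.cmk_eq] at h2
      exact clx_sound cev hc hT hcl h6 hS hG' hK (hpos (t + 1)) hh hm.mem hend h2

end sound

end PB

end

end Pool.Agent.Lib.MP_5854e1_co
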