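import Pool.Agent.Lib.MP_5854e1_co.SrOK
import Pool.Agent.Lib.MP_5854e1_co.Srx

/-!
# Tasks for the search with the productive lanes
-/

set_option autoImplicit false

open Equiv Equiv.Perm

namespace Pool.Agent.Lib.MP_5854e1_co

namespace PB

noncomputable section

section defs

open Wk (FB)

variable (R : ℕ → ℕ → Rw Blk) (FR : ℕ → ℕ → FB Blk) (nl Rv : ℕ → ℕ → ℕ)
  (cev : List Hs → ℕ → ℕ → Bool)

/-- One state, with a mask for the next option. -/
def stw (cl : ℕ → ℕ → ℕ → ℕ → ℕ → List Hs → ℕ → Bool) (mask : ℕ)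
    (ih : ℕ → ℕ → ℕ → ℕ → ℕ → List Hs → ℕ → Nd → Nd → Bool) (k o k' Z A : ℕ)
    (hist : List Hs) (c' : ℕ) (ch rs : Nd) : Bool :=
  Bool.rec (motive := fun _ => Bool) false
    (FB.rec (motive := fun _ => Bool)
      (fun w => w (tsS Z A) (fun o1 k1 tq b c1 ch1 rs1 => rIf (bt mask o1)
        (chx ih k' Z A hist o1 k1 tq b c1 ch1 rs1) true) c' ch rs) (FR k o))
    (Nd.rec (motive := fun _ => Bool) (fun _ m => cl k o k' Z A hist m)
      (fun _ _ _ _ _ => true) rs)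

/-- The search with masks. -/
def srw (cl : ℕ → ℕ → ℕ → ℕ → ℕ → List Hs → ℕ → Bool) (ms : List ℕ) :
    ℕ → ℕ → ℕ → ℕ → ℕ → List Hs → ℕ → Nd → Nd → Bool :=
  List.rec (motive := fun _ => ℕ → ℕ → ℕ → ℕ → ℕ → List Hs → ℕ → Nd → Nd → Bool)
    (srx FR cl (nat_lit 24)) (fun mask _ ih => stw FR cl mask ih) ms

/-- The search from a root pair with the root vector `Z`. -/
def rtv (kr or k' Z : ℕ) (ms : List ℕ) : Bool :=
  Option.rec (motive := fun _ => Bool) true
    (fun n0 => Option.rec (motive := fun _ => Bool) true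
      (Nd.opn (srw FR (clx R cev (Rt.mk kr or (tokT kr) k' (stepT kr (optA kr or)))) ms kr or k' Z
        (alv (oneB (nl kr or)) Z)
        (List.cons (Hs.mk kr or (nat_lit 0) (nat_lit 0)) List.nil)))
      (n0.run (stepT kr (optA kr or)))) (rootN.run (tokT kr))

/-- The search from a root pair. -/
def rtx (kr or k' : ℕ) (ms : List ℕ) : Bool :=
  rAnd (Nat.beq (Nat.div (optA kr or) (nat_lit 72)) k')
  (rAnd (hbB (pw23 (nl kr or)) (mk23 (nat_lit 21) (nl kr or)) (Rv kr or))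
    (rtv R FR nl cev kr or k' (Rv kr or) ms))

/-- The check of a list of tasks. -/
def runX (l : List Tk) : Bool :=
  List.rec (motive := fun _ => Bool) true
    (fun t _ ih => rAnd (Tk.rec (motive := fun _ => Bool)
      (fun k o k' ms => rtx R FR nl Rv cev k o k' ms) t) ih) l

end defs

/-! ### Soundness -/

section sound

open Wk (FB)

variable {R : ℕ → ℕ → Rw Blk} {FR : ℕ → ℕ → FB Blk} {nl Pn Rv : ℕ → ℕ → ℕ} {F : Type*}
  {T : SMap F}
variable (cev : List Hs → ℕ → ℕ → Bool)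

theorem opn_rIf {g : ℕ → Nd → Nd → Bool} {b : Bool} (hb : b = true) {m : Nd}
    (h : m.opn (fun c1 ch1 rs1 => rIf b (g c1 ch1 rs1) true) = true) : m.opn g = true := by
  subst hb
  exact h

theorem srw_sound (hFR : ∀ k o, (FR k o).run = Wk.wlk (R k o))
    (hs : ∀ k < 101, Wk.wfsK R k = true) (hc : ∀ k0 < 101, cloK R nl Pn Rv k0 = true)
    {L : F → ℕ} {val : F → ℤ} (hT : MapOK R nl Pn T L val) {C : Prop} {d : F}
    (hcl : ∀ hist x M, Hist R T (T.N d) (Function.minimalPeriod T.N (T.N d) - 1) hist →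
      (R (T.kx d) (T.ox d)).blk (T.ox (T.N d)) = some (Blk.mk x M) → cev hist x M = true → C)
    (hpos : ∀ t, 1 ≤ pv T Pn L val d t) {ν : ℕ → Nd}
    (hν : ∀ j, j + 1 < Function.minimalPeriod T.N (T.N d) →
      (ν j).run (stepT (T.kx (T.N^[j] (T.N d))) (T.oc (T.N^[j] (T.N d)))) = some (ν (j + 1)))
    (hord : ∀ j < Function.minimalPeriod T.N (T.N d), (ν j).Ord)
    (hmsk : ∀ j < Function.minimalPeriod T.N (T.N d), (ν j).Msk)
    (hend : bt (ν (Function.minimalPeriod T.N (T.N d) - 1)).mask (kc (T.K (T.N d))) = true) :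
    ∀ (ms : List ℕ) {t : ℕ} (_ : t + 1 < Function.minimalPeriod T.N (T.N d))
    {Z A G : ℕ} {hist : List Hs}
    (_ : ∀ i m, ms[i]? = some m → bt m (T.ox (T.N^[t + 1 + i] (T.N d))) = true)
    (_ : SC Z A G (nl (T.kx (T.N^[t] (T.N d))) (T.ox (T.N^[t] (T.N d)))) (L (T.N^[t] (T.N d)))
      (pv T Pn L val d t)) (_ : G + (ms.length + 24) * 2 ^ 16 + 2 ^ 16 ≤ 2 ^ 22) (_ : 2 ^ 20 ≤ G)
    (_ : Hist R T (T.N d) t hist)
    (_ : (ν (t + 1)).opn (srw FR (clx R cev (rtF T d)) ms (T.kx (T.N^[t] (T.N d)))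
      (T.ox (T.N^[t] (T.N d))) (T.kx (T.N^[t + 1] (T.N d))) Z A hist) = true), C := by
  intro ms
  induction ms with
  | nil =>
    intro t ht Z A G hist _ hS hG hK hh h
    exact srx_sound cev hFR hs hc hT hcl hpos hν hord hmsk hend 24 ht hS
      (by rw [List.length_nil] at hG; omega) hK hh h
  | cons mask ms ih =>
    intro t ht Z A G hist hms hS hG hK hh h
    obtain ⟨h3, h2⟩ := opn_bool (n := ν (t + 1)) (h := clx R cev (rtF T d)
      (T.kx (T.N^[t] (T.N d))) (T.ox (T.N^[t] (T.N d))) (T.kx (T.N^[t + 1] (T.N d))) Z A hist)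
      (g := (FR (T.kx (T.N^[t] (T.N d))) (T.ox (T.N^[t] (T.N d)))).run (tsS Z A)
        (fun o1 k1 tq b c1 ch1 rs1 => rIf (bt mask o1)
          (chx (srw FR (clx R cev (rtF T d)) ms) (T.kx (T.N^[t + 1] (T.N d))) Z A hist
            o1 k1 tq b c1 ch1 rs1) true)) rfl h rfl
    rw [hFR] at h3
    rw [List.length_cons] at hG
    have hG' : G + 2 ^ 17 ≤ 2 ^ 22 := by omega
    rcases Nat.lt_or_ge (t + 2) (Function.minimalPeriod T.N (T.N d)) with h4 | h4
    · obtain ⟨x, M, qs, g1, g2, g3⟩ := stepx_at hc hT hS hG' hK (hpos (t + 1))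
      obtain ⟨q, hq, h5⟩ := Wk.wlk_sound (Wk.wfs_map hs T _) (hord _ (by omega)) h3 g2
        (fun q hq => (g3 q hq).1) (hν (t + 1) (by omega))
      have hb : bt mask (T.ox (T.N^[t + 1] (T.N d))) = true := hms 0 mask rfl
      exact ih (t := t + 1) h4 (fun i m hm => by
        have := hms (i + 1) m (by rw [List.getElem?_cons_succ]; exact hm)
        rwa [show t + 1 + (i + 1) = t + 1 + 1 + i by omega] at this) (g3 q hq).2 (by omega)
        (by omega) (Hist.step hh g1) (opn_rIf hb h5)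
    · have h6 : t + 2 = Function.minimalPeriod T.N (T.N d) := by omega
      have e : Function.minimalPeriod T.N (T.N d) - 1 = t + 1 := by omega
      rw [e] at hend
      have hm := hmsk (t + 1) (by omega)
      rw [hm.cmk_eq] at h2
      exact clx_sound cev hc hT hcl h6 hS hG' hK (hpos (t + 1)) hh hm.mem hend h2

/-- The state at the root. -/
theorem SC.root (hc : ∀ k0 < 101, cloK R nl Pn Rv k0 = true) {L : F → ℕ} {val : F → ℤ}
    (hT : MapOK R nl Pn T L val) {d : F} (hpos : 1 ≤ pv T Pn L val d 0)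
    (hr : HB 22 (nl (T.kx (T.N d)) (T.ox (T.N d))) (Rv (T.kx (T.N d)) (T.ox (T.N d))) (2 ^ 21)) :
    SC (Rv (T.kx (T.N d)) (T.ox (T.N d)))
      (alv (oneB (nl (T.kx (T.N d)) (T.ox (T.N d)))) (Rv (T.kx (T.N d)) (T.ox (T.N d)))) (2 ^ 21)
      (nl (T.kx (T.N d)) (T.ox (T.N d))) (L (T.N d)) (pv T Pn L val d 0) := by
  obtain ⟨b, h1, h2⟩ := hT.blk d
  cases b with
  | mk x M =>
    obtain ⟨qs, -, h3, -⟩ := blk_at hc T d h1
    have hL := hT.lane (T.N d)
    have hL0 := hT.lane d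
    rw [fd_mk] at h2
    have e0 : pv T Pn L val d 0 = val d - ndF T Pn L (T.N d) := by
      unfold pv
      simp
    have e1 : tht = 1114112 := by norm_num [tht]
    have e2 : kap0 = 65536 := by norm_num [kap0]
    have h5 := h3.root (L d) hL0 (L (T.N d)) hL
    have e3 : ndF T Pn L d = (fl 22 (Pn (T.kx d) (T.ox d)) (L d) : ℕ) := rfl
    rw [e0] at hpos ⊢
    rw [e3, e2] at h2
    simp only [Blk.fmt, Blk.num, e1, e2] at h5
    push_cast at h2
    have h6 := h5 (by omega)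
    exact ⟨hr, rfl, hL, hpos, by omega⟩

/-- **Soundness of a task.** -/
theorem rtx_sound (hFR : ∀ k o, (FR k o).run = Wk.wlk (R k o))
    (hs : ∀ k < 101, Wk.wfsK R k = true) (hc : ∀ k0 < 101, cloK R nl Pn Rv k0 = true) {L : F → ℕ}
    {val : F → ℤ} (hT : MapOK R nl Pn T L val) {C : Prop} {d : F}
    (hcl : ∀ hist x M, Hist R T (T.N d) (Function.minimalPeriod T.N (T.N d) - 1) hist →
      (R (T.kx d) (T.ox d)).blk (T.ox (T.N d)) = some (Blk.mk x M) → cev hist x M = true → C)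
    (hpos : ∀ t, 1 ≤ pv T Pn L val d t) {ms : List ℕ} (hlen : ms.length ≤ 4) {k' : ℕ}
    (hms : ∀ i m, ms[i]? = some m → bt m (T.ox (T.N^[1 + i] (T.N d))) = true)
    (h : rtx R FR nl Rv cev (T.kx (T.N d)) (T.ox (T.N d)) k' ms = true) : C := by
  obtain ⟨h1, h2⟩ := rAnd_iff.1 h
  obtain ⟨h3, h4⟩ := rAnd_iff.1 h2
  unfold rtv at h4
  have hr := hbB_sound (b := 21) (by norm_num) h3
  obtain ⟨ν, n1, n2, n3, n4⟩ := T.nodes_ord (T.N d)
  have hp3 := T.three (T.N d)
  have hms1 : ∀ j < Function.minimalPeriod T.N (T.N d), (ν j).Msk := by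
    intro j
    induction j with
    | zero => exact fun _ => msk_rootN.run n1
    | succ j ih => exact fun hj => (ih (by omega)).run (n2 j hj)
  have n5 := n2 0 (by omega)
  have e1 : optA (T.kx (T.N d)) (T.ox (T.N d)) = T.oc (T.N d) := T.optA_ox _
  have e2 : k' = T.kx (T.N^[1] (T.N d)) := by
    have h5 : Nat.div (optA (T.kx (T.N d)) (T.ox (T.N d))) 72 = k' := Nat.eq_of_beq_eq_true h1
    rw [e1] at h5
    exact h5.symm.trans (T.oc_k _)
  rw [n1] at h4
  rw [e1] at h4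
  have e3 : T.N^[0] (T.N d) = T.N d := rfl
  rw [e3] at n5
  simp only [n5] at h4
  subst e2
  have e6 : T.N^[1] (T.N d) = T.N (T.N d) := rfl
  refine srw_sound cev hFR hs hc hT hcl hpos n2 n3 hms1 n4 ms (t := 0) (by omega) (fun i m hm => ?_)
    (SC.root hc hT (hpos 0) hr) (by norm_num; omega) (by norm_num) Hist.root h4
  rw [show 0 + 1 + i = 1 + i by omega]
  exact hms i m hm

theorem runX_mem {l : List Tk} (h : runX R FR nl Rv cev l = true) {k o k' : ℕ} {ms : List ℕ}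
    (hm : Tk.mk k o k' ms ∈ l) : rtx R FR nl Rv cev k o k' ms = true := by
  induction l with
  | nil => cases hm
  | cons t l ih =>
    obtain ⟨h1, h2⟩ := rAnd_iff.1 (show rAnd (Tk.rec (motive := fun _ => Bool)
      (fun k o k' ms => rtx R FR nl Rv cev k o k' ms) t) (runX R FR nl Rv cev l) = true from h)
    rcases List.mem_cons.1 hm with rfl | hm
    · exact h1
    · exact ih h2 hm

/-- **The search of a canonical cell.** -/
theorem tasksX_sound (hFR : ∀ k o, (FR k o).run = Wk.wlk (R k o))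
    (hs : ∀ k < 101, Wk.wfsK R k = true) (hc : ∀ k0 < 101, cloK R nl Pn Rv k0 = true)
    {P : List (List Tk)} (hP : ∀ l ∈ P, runX R FR nl Rv cev l = true)
    (hcov : ∀ k < 101, covK P k = true) {L : F → ℕ} {val : F → ℤ}
    (hT : MapOK R nl Pn T L val) {C : Prop} {d : F}
    (hcl : ∀ hist x M, Hist R T (T.N d) (Function.minimalPeriod T.N (T.N d) - 1) hist →
      (R (T.kx d) (T.ox d)).blk (T.ox (T.N d)) = some (Blk.mk x M) → cev hist x M = true → C)
    (hpos : ∀ t, 1 ≤ pv T Pn L val d t) (hcn : cnn (T.kx (T.N d)) (T.ox (T.N d)) = true) : C := by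
  have h1 := rAllN_iff.1 (hcov _ (T.kx_lt (T.N d))) (T.ox (T.N d)) (T.ox_lt_optN _)
  rw [hcn, rIf_true] at h1
  have e1 : Nat.div (optA (T.kx (T.N d)) (T.ox (T.N d))) 72 = T.kx (T.N^[1] (T.N d)) := by
    rw [T.optA_ox]
    exact T.oc_k _
  rw [e1] at h1
  obtain ⟨ms, h2, h3, h4⟩ := cov_sound T (T.N d) 4 1 _ h1
  obtain ⟨k', h5⟩ := mem_selT h2
  obtain ⟨l, h6, h7⟩ := mem_selP h5
  exact rtx_sound cev hFR hs hc hT hcl hpos h3 h4 (runX_mem cev (hP l h6) h7)

end sound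

open Wk (FB) in
/-- The search with the productive lanes, for any functions of the rows. -/
theorem srOK_of_tasksX.{u} {R : ℕ → ℕ → Rw Blk} {FR : ℕ → ℕ → FB Blk} {nl Pn Rv : ℕ → ℕ → ℕ}
    {cev : List Hs → ℕ → ℕ → Bool} (hFR : ∀ k o, (FR k o).run = Wk.wlk (R k o))
    (hs : ∀ k < 101, Wk.wfsK R k = true) (hc : ∀ k0 < 101, cloK R nl Pn Rv k0 = true)
    {P : List (List Tk)} (hP : ∀ l ∈ P, runX R FR nl Rv cev l = true)
    (hcov : ∀ k < 101, covK P k = true) : SrOK.{u} R nl Pn cev :=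
  fun _ _ _ _ hT _ _ hcl hpos hcn => tasksX_sound cev hFR hs hc hP hcov hT hcl hpos hcn

/-- The search with the productive lanes, for the rows as they are. -/
theorem srOK_of_runX.{u} {R : ℕ → ℕ → Rw Blk} {nl Pn Rv : ℕ → ℕ → ℕ}
    {cev : List Hs → ℕ → ℕ → Bool}
    (hs : ∀ k < 101, Wk.wfsK R k = true) (hc : ∀ k0 < 101, cloK R nl Pn Rv k0 = true)
    {P : List (List Tk)} (hP : ∀ l ∈ P, runX R (Wk.frw R) nl Rv cev l = true)
    (hcov : ∀ k < 101, covK P k = true) : SrOK.{u} R nl Pn cev :=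
  srOK_of_tasksX (fun _ _ => rfl) hs hc hP hcov

end

end PB

end Pool.Agent.Lib.MP_5854e1_co
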