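import Pool.Agent.Lib.MP_5854e1_co.Cov2
import Pool.Agent.Lib.MP_5854e1_co.Tkx

/-!
# Tasks with up to six masks
-/

set_option autoImplicit false

open Equiv Equiv.Perm

namespace Pool.Agent.Lib.MP_5854e1_co

namespace PB

noncomputable section

/-- All canonical root pairs of the shape `k` are covered (up to six masks). -/
def covK6 (P : List (List Tk)) (k : ℕ) : Bool :=
  rAllN (fun o => rIf (cnn k o)
    (cov (nat_lit 6) (Nat.div (optA k o) (nat_lit 72)) (selT k o (selP k P))) true) (optN k)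

/-- The faster check. -/
def covL6 (P : List (List Tk)) (k : ℕ) : Bool :=
  rAllN (fun o => rIf (cnn k o)
    (cov2 (nat_lit 6) (Nat.div (optA k o) (nat_lit 72)) (selT k o (selP k P))) true) (optN k)

theorem covK6_of_covL6 {P : List (List Tk)} {k : ℕ} (h : covL6 P k = true) : covK6 P k = true := by
  refine rAllN_iff.2 fun o ho => ?_
  have h1 := rAllN_iff.1 h o ho
  cases hc : cnn k o with
  | true =>
    rw [hc, rIf_true] at h1
    rw [rIf_true]
    exact cov_of_cov2 h1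
  | false => rw [rIf_false]

/-- The check of the shapes from `a` on (up to six masks). -/
def covR6 (P : List (List Tk)) (a n : ℕ) : Bool := rAllN (fun i => covL6 P (Nat.add a i)) n

theorem cov6_of_covR6 {P : List (List Tk)} {a n k : ℕ} (h : covR6 P a n = true) (h1 : a ≤ k)
    (h2 : k < a + n) : covK6 P k = true := by
  have h3 := rAllN_iff.1 h (k - a) (by omega)
  have e : Nat.add a (k - a) = k := by
    show a + (k - a) = k
    omega
  rw [e] at h3
  exact covK6_of_covL6 h3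

section sound

open Wk (FB)

variable {R : ℕ → ℕ → Rw Blk} {FR : ℕ → ℕ → FB Blk} {nl Pn Rv : ℕ → ℕ → ℕ} {F : Type*}
  {T : SMap F}
variable (cev : List Hs → ℕ → ℕ → Bool)

/-- **Soundness of a task with up to six masks.** -/
theorem rtx_sound6 (hFR : ∀ k o, (FR k o).run = Wk.wlk (R k o))
    (hs : ∀ k < 101, Wk.wfsK R k = true) (hc : ∀ k0 < 101, cloK R nl Pn Rv k0 = true) {L : F → ℕ}
    {val : F → ℤ} (hT : MapOK R nl Pn T L val) {C : Prop} {d : F}
    (hcl : ∀ hist x M, Hist R T (T.N d) (Function.minimalPeriod T.N (T.N d) - 1) hist →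
      (R (T.kx d) (T.ox d)).blk (T.ox (T.N d)) = some (Blk.mk x M) → cev hist x M = true → C)
    (hpos : ∀ t, 1 ≤ pv T Pn L val d t) {ms : List ℕ} (hlen : ms.length ≤ 6) {k' : ℕ}
    (hms : ∀ i m, ms[i]? = some m → bt m (T.ox (T.N^[1 + i] (T.N d))) = true)
    (h : rtx R FR nl Rv cev (T.kx (T.N d)) (T.ox (T.N d)) k' ms = true) : C := by
  obtain ⟨h1, h2⟩ := rAnd_iff.1 h
  obtain ⟨h3, h4⟩ := rAnd_iff.1 h2
  unfold rtv at h4
  have hr := hbB_sound (b := 21) (by norm_num) h3
  obtain ⟨ν, n1, n2, n3, n4⟩ := T.nodes_ord (T.N d)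
  have hp3 := T.three (T.N d)
  have hms1 : ∀ j < Function.minimalPeriod T.N (T.N d), (ν j).Msk := by
    intro j
    induction j with
    | zero => exact fun _ => msk_rootN.run n1
    | succ j ih => exact fun hj => (ih (by omega)).run (n2 j hj)
  have n5 := n2 0 (by omega)
  have e1 : optA (T.kx (T.N d)) (T.ox (T.N d)) = T.oc (T.N d) := T.optA_ox _
  have e2 : k' = T.kx (T.N^[1] (T.N d)) := by
    have h5 : Nat.div (optA (T.kx (T.N d)) (T.ox (T.N d))) 72 = k' := Nat.eq_of_beq_eq_true h1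
    rw [e1] at h5
    exact h5.symm.trans (T.oc_k _)
  rw [n1] at h4
  rw [e1] at h4
  have e3 : T.N^[0] (T.N d) = T.N d := rfl
  rw [e3] at n5
  simp only [n5] at h4
  subst e2
  have e6 : T.N^[1] (T.N d) = T.N (T.N d) := rfl
  refine srw_sound cev hFR hs hc hT hcl hpos n2 n3 hms1 n4 ms (t := 0) (by omega) (fun i m hm => ?_)
    (SC.root hc hT (hpos 0) hr) (by norm_num; omega) (by norm_num) Hist.root h4
  rw [show 0 + 1 + i = 1 + i by omega]
  exact hms i m hm

/-- **The search of a canonical cell (up to six masks).** -/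
theorem tasksX_sound6 (hFR : ∀ k o, (FR k o).run = Wk.wlk (R k o))
    (hs : ∀ k < 101, Wk.wfsK R k = true) (hc : ∀ k0 < 101, cloK R nl Pn Rv k0 = true)
    {P : List (List Tk)} (hP : ∀ l ∈ P, runX R FR nl Rv cev l = true)
    (hcov : ∀ k < 101, covK6 P k = true) {L : F → ℕ} {val : F → ℤ}
    (hT : MapOK R nl Pn T L val) {C : Prop} {d : F}
    (hcl : ∀ hist x M, Hist R T (T.N d) (Function.minimalPeriod T.N (T.N d) - 1) hist →
      (R (T.kx d) (T.ox d)).blk (T.ox (T.N d)) = some (Blk.mk x M) → cev hist x M = true → C)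
    (hpos : ∀ t, 1 ≤ pv T Pn L val d t) (hcn : cnn (T.kx (T.N d)) (T.ox (T.N d)) = true) : C := by
  have h1 := rAllN_iff.1 (hcov _ (T.kx_lt (T.N d))) (T.ox (T.N d)) (T.ox_lt_optN _)
  rw [hcn, rIf_true] at h1
  have e1 : Nat.div (optA (T.kx (T.N d)) (T.ox (T.N d))) 72 = T.kx (T.N^[1] (T.N d)) := by
    rw [T.optA_ox]
    exact T.oc_k _
  rw [e1] at h1
  obtain ⟨ms, h2, h3, h4⟩ := cov_sound T (T.N d) 6 1 _ h1
  obtain ⟨k', h5⟩ := mem_selT h2
  obtain ⟨l, h6, h7⟩ := mem_selP h5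
  exact rtx_sound6 cev hFR hs hc hT hcl hpos h3 h4 (runX_mem cev (hP l h6) h7)

end sound

/-- The search with the productive lanes, for the rows as they are (up to six masks). -/
theorem srOK_of_runX6.{u} {R : ℕ → ℕ → Rw Blk} {nl Pn Rv : ℕ → ℕ → ℕ}
    {cev : List Hs → ℕ → ℕ → Bool}
    (hs : ∀ k < 101, Wk.wfsK R k = true) (hc : ∀ k0 < 101, cloK R nl Pn Rv k0 = true)
    {P : List (List Tk)} (hP : ∀ l ∈ P, runX R (Wk.frw R) nl Rv cev l = true)
    (hcov : ∀ k < 101, covK6 P k = true) : SrOK.{u} R nl Pn cev :=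
  fun _ _ _ _ hT _ _ hcl hpos hcn =>
    tasksX_sound6 cev (fun _ _ => rfl) hs hc hP hcov hT hcl hpos hcn

end

end PB

end Pool.Agent.Lib.MP_5854e1_co
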