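import Pool.Agent.Lib.MP_5854e1_co.CertWeak

/-!
Minor-minimal nonprojective graphs given by lists of edges.
-/

set_option autoImplicit false

namespace Pool.Agent.Lib.MP_5854e1_co

/-- The graph on `0, ..., m - 1` with the given list of edges. -/
def ofEdges {m : ℕ} (l : List (Fin m × Fin m)) : SimpleGraph (Fin m) where
  Adj u v := u ≠ v ∧ ((u, v) ∈ l ∨ (v, u) ∈ l)
  symm := ⟨fun _ _ h => ⟨h.1.symm, h.2.symm⟩⟩
  loopless := ⟨fun _ h => h.1 rfl⟩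

instance {m : ℕ} (l : List (Fin m × Fin m)) : DecidableRel (ofEdges l).Adj := fun u v =>
  inferInstanceAs (Decidable (u ≠ v ∧ ((u, v) ∈ l ∨ (v, u) ∈ l)))

abbrev MG0 : SimpleGraph (Fin 10) := ofEdges
  [(0, 1), (0, 2), (0, 3), (1, 5), (1, 6), (1, 8), (2, 4), (2, 5), (2, 7), (3, 4), (3, 6), (3, 7), (3, 8), (4, 9), (5, 9), (6, 9), (7, 9), (8, 9)]

abbrev MG1 : SimpleGraph (Fin 10) := ofEdges
  [(0, 4), (0, 5), (0, 6), (1, 2), (1, 3), (1, 4), (1, 5), (1, 6), (2, 7), (2, 8), (3, 7), (3, 8), (4, 9), (5, 9), (6, 9), (7, 9), (8, 9)]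

abbrev MG3 : SimpleGraph (Fin 10) := ofEdges
  [(0, 1), (0, 2), (0, 7), (1, 3), (1, 6), (2, 3), (2, 5), (3, 7), (3, 8), (4, 5), (4, 6), (4, 8), (5, 9), (6, 9), (7, 9), (8, 9)]

abbrev MG4 : SimpleGraph (Fin 10) := ofEdges
  [(0, 3), (0, 4), (0, 5), (1, 3), (1, 4), (1, 5), (1, 6), (1, 7), (1, 8), (2, 6), (2, 7), (2, 8), (3, 9), (4, 9), (5, 9), (6, 9), (7, 9), (8, 9)]

abbrev MG5 : SimpleGraph (Fin 10) := ofEdges
  [(0, 2), (0, 3), (0, 4), (1, 2), (1, 3), (1, 4), (2, 5), (3, 5), (4, 5), (5, 6), (5, 7), (5, 8), (5, 9), (6, 7), (6, 8), (6, 9), (7, 8), (7, 9), (8, 9)]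

abbrev MG6 : SimpleGraph (Fin 10) := ofEdges
  [(0, 3), (0, 4), (0, 6), (0, 8), (1, 4), (1, 5), (1, 7), (2, 3), (2, 6), (2, 7), (2, 8), (3, 5), (4, 9), (5, 9), (6, 9), (7, 9), (8, 9)]

abbrev MG7 : SimpleGraph (Fin 10) := ofEdges
  [(0, 1), (0, 3), (0, 4), (1, 2), (1, 5), (1, 6), (2, 4), (2, 7), (2, 8), (3, 5), (3, 7), (3, 8), (4, 6), (5, 9), (6, 9), (7, 9), (8, 9)]

abbrev MG8 : SimpleGraph (Fin 10) := ofEdges
  [(0, 1), (0, 2), (0, 3), (0, 4), (1, 6), (1, 8), (2, 5), (2, 7), (3, 6), (3, 8), (4, 5), (4, 7), (5, 9), (6, 9), (7, 9), (8, 9)]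

abbrev MG9 : SimpleGraph (Fin 10) := ofEdges
  [(0, 2), (0, 3), (0, 4), (1, 3), (1, 4), (1, 5), (2, 7), (2, 8), (3, 6), (4, 6), (5, 7), (5, 8), (6, 9), (7, 9), (8, 9)]

abbrev MG11 : SimpleGraph (Fin 11) := ofEdges
  [(0, 4), (0, 5), (0, 6), (1, 6), (1, 7), (1, 8), (2, 5), (2, 7), (2, 9), (3, 4), (3, 8), (3, 9), (4, 10), (5, 10), (6, 10), (7, 10), (8, 10), (9, 10)]

abbrev MG12 : SimpleGraph (Fin 11) := ofEdges
  [(0, 3), (0, 5), (0, 9), (1, 2), (1, 4), (1, 9), (2, 8), (2, 10), (3, 6), (3, 7), (4, 8), (4, 10), (5, 6), (5, 7), (6, 9), (7, 9), (8, 9), (9, 10)]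

abbrev MG17 : SimpleGraph (Fin 8) := ofEdges
  [(0, 2), (0, 3), (0, 4), (0, 5), (0, 6), (1, 2), (1, 3), (1, 4), (1, 5), (1, 6), (2, 7), (3, 7), (4, 7), (5, 7), (6, 7)]

abbrev MG18 : SimpleGraph (Fin 8) := ofEdges
  [(0, 3), (0, 4), (0, 5), (1, 3), (1, 4), (1, 5), (1, 6), (2, 3), (2, 4), (2, 5), (2, 6), (3, 7), (4, 7), (5, 7), (6, 7)]

abbrev MG20 : SimpleGraph (Fin 8) := ofEdges
  [(0, 1), (0, 2), (0, 3), (0, 5), (1, 2), (1, 3), (1, 4), (1, 6), (1, 7), (2, 3), (2, 5), (3, 5), (4, 5), (4, 6), (4, 7), (5, 6), (5, 7), (6, 7)]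

abbrev MG22 : SimpleGraph (Fin 8) := ofEdges
  [(0, 1), (0, 2), (0, 3), (0, 4), (0, 6), (1, 2), (1, 3), (1, 5), (2, 3), (2, 5), (3, 7), (4, 5), (4, 6), (4, 7), (5, 6), (5, 7), (6, 7)]

abbrev MG23 : SimpleGraph (Fin 8) := ofEdges
  [(0, 1), (0, 4), (0, 5), (0, 6), (1, 3), (1, 4), (1, 5), (2, 3), (2, 4), (2, 6), (2, 7), (3, 6), (3, 7), (4, 5), (5, 7), (6, 7)]

abbrev MG25 : SimpleGraph (Fin 9) := ofEdges
  [(0, 2), (0, 4), (0, 5), (0, 7), (1, 2), (1, 5), (1, 6), (1, 7), (2, 3), (3, 4), (3, 6), (3, 8), (4, 6), (4, 8), (5, 8), (6, 8), (7, 8)]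

abbrev MG27 : SimpleGraph (Fin 9) := ofEdges
  [(0, 3), (0, 4), (0, 5), (0, 6), (0, 7), (1, 3), (1, 5), (1, 7), (2, 3), (2, 4), (2, 6), (3, 8), (4, 8), (5, 8), (6, 8), (7, 8)]

abbrev MG29 : SimpleGraph (Fin 9) := ofEdges
  [(0, 2), (0, 3), (0, 6), (1, 2), (1, 3), (1, 4), (2, 5), (3, 5), (4, 6), (4, 7), (4, 8), (5, 7), (5, 8), (6, 7), (6, 8), (7, 8)]

abbrev MG31 : SimpleGraph (Fin 9) := ofEdges
  [(0, 1), (0, 3), (0, 7), (1, 4), (1, 8), (2, 3), (2, 5), (2, 6), (2, 8), (3, 4), (3, 5), (3, 6), (4, 7), (5, 6), (5, 8), (6, 8), (7, 8)]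

abbrev MG32 : SimpleGraph (Fin 9) := ofEdges
  [(0, 2), (0, 3), (0, 4), (1, 2), (1, 3), (1, 4), (1, 5), (1, 6), (1, 7), (2, 8), (3, 8), (4, 8), (5, 6), (5, 7), (5, 8), (6, 7), (6, 8), (7, 8)]

abbrev MG33 : SimpleGraph (Fin 9) := ofEdges
  [(0, 1), (0, 2), (0, 6), (0, 7), (1, 3), (1, 5), (2, 3), (2, 4), (3, 7), (4, 5), (4, 6), (4, 8), (5, 6), (5, 8), (6, 8), (7, 8)]

end Pool.Agent.Lib.MP_5854e1_co
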