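import Pool.Agent.Lib.MP_5854e1_co.MnrB

/-!
# Finite planar covers pass to minors
-/

set_option autoImplicit false

open Equiv Equiv.Perm Relation

namespace Pool.Agent.Lib.MP_5854e1_co

universe u

/-- `G` has a finite planar cover: there are a finite planar graph `H` and a covering projection of
`H` onto `G`, which is surjective on vertices. -/
def HasPlanarCover {U : Type u} (G : SimpleGraph U) : Prop :=
  ∃ (n : ℕ) (H : SimpleGraph (Fin n)) (φ : Fin n → U),
    Function.Surjective φ ∧ IsCover H G φ ∧ IsPlanar H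

/-- `M` is a minor of `G`: there are pairwise disjoint sets `B a` of vertices of `G`, one for every
vertex `a` of `M`, which induce connected subgraphs of `G`, such that for every edge `ab` of `M`
there is an edge of `G` between `B a` and `B b`. -/
def IsMinor {U' U : Type*} (M : SimpleGraph U') (G : SimpleGraph U) : Prop :=
  ∃ B : U' → Set U, (∀ a, (G.induce (B a)).Connected) ∧ (∀ a b, a ≠ b → Disjoint (B a) (B b)) ∧
    ∀ a b, M.Adj a b → ∃ x ∈ B a, ∃ y ∈ B b, G.Adj x y

section transfer

variable {W W' U U' : Type*}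

/-- Planarity is inherited by induced subgraphs on a subtype. -/
theorem IsPlanar.comap [Finite W] {H : SimpleGraph W} (h : IsPlanar H) [Finite W'] (f : W' → W)
    (hf : Function.Injective f) : IsPlanar (H.comap f) := by
  classical
  set H' : SimpleGraph W :=
    { Adj := fun x y => H.Adj x y ∧ x ∈ Set.range f ∧ y ∈ Set.range f
      symm := ⟨fun _ _ h => ⟨h.1.symm, h.2.2, h.2.1⟩⟩
      loopless := ⟨fun _ h => h.1.ne rfl⟩ } with hH'
  have h1 : IsPlanar H' := h.mono fun _ _ h => h.1
  obtain ⟨rot, hrot, h0⟩ := h1.defect_eq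
  have hinv : ∀ x, flip H' (flip H' x) = x := fun x => x.symm_symm
  have hex : ∀ x : H'.Dart, ∃ a b, f a = x.fst ∧ f b = x.snd := fun x => by
    obtain ⟨-, ⟨a, ha⟩, ⟨b, hb⟩⟩ := id x.adj
    exact ⟨a, b, ha, hb⟩
  choose ga gb hga hgb using hex
  refine isPlanar_of_map rot (flip H') hinv h0 (H.comap f)
    (fun x => ⟨(ga x.1, gb x.1), by
      show H.Adj (f (ga x.1)) (f (gb x.1))
      rw [hga, hgb]
      exact x.1.adj.1⟩) ⟨?_, ?_⟩ ?_ ?_
  · intro x y hxy
    have e1 := congrArg (fun d : (H.comap f).Dart => d.fst) hxy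
    have e2 := congrArg (fun d : (H.comap f).Dart => d.snd) hxy
    simp only at e1 e2
    apply Subtype.ext
    apply SimpleGraph.Dart.ext
    refine Prod.ext ?_ ?_
    · show x.1.fst = y.1.fst
      rw [← hga x.1, ← hga y.1]; exact congrArg f e1
    · show x.1.snd = y.1.snd
      rw [← hgb x.1, ← hgb y.1]; exact congrArg f e2
  · intro d
    have hd : H'.Adj (f d.fst) (f d.snd) := ⟨d.adj, ⟨_, rfl⟩, ⟨_, rfl⟩⟩
    refine ⟨⟨⟨(f d.fst, f d.snd), hd⟩, SimpleGraph.Dart.symm_ne _⟩, ?_⟩
    apply SimpleGraph.Dart.ext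
    refine Prod.ext ?_ ?_
    · exact hf (hga _)
    · exact hf (hgb _)
  · intro x
    apply SimpleGraph.Dart.ext
    refine Prod.ext ?_ ?_
    · apply hf
      show f (ga (flip H' x.1)) = f (gb x.1)
      rw [hga, hgb]
      rfl
    · apply hf
      show f (gb (flip H' x.1)) = f (ga x.1)
      rw [hga, hgb]
      rfl
  · intro x y
    rw [hrot]
    show x.1.fst = y.1.fst ↔ ga x.1 = ga y.1
    rw [← hga x.1, ← hga y.1]
    exact hf.eq_iff

/-- The cover of an induced subgraph. -/
theorem IsCover.comap {H : SimpleGraph W} {G : SimpleGraph U} {φ : W → U} (hφ : IsCover H G φ)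
    (f : U' → U) (hf : Function.Injective f) (g : W' → W) (hg : Function.Injective g)
    (φ' : W' → U') (hc : ∀ w, f (φ' w) = φ (g w)) (hr : ∀ w, φ w ∈ Set.range f → w ∈ Set.range g) :
    IsCover (H.comap g) (G.comap f) φ' := by
  intro w
  refine ⟨fun y hy => ?_, fun y hy z hz h => ?_, fun a ha => ?_⟩
  · show G.Adj (f (φ' w)) (f (φ' y))
    rw [hc, hc]
    exact (hφ (g w)).mapsTo hy
  · apply hg
    refine (hφ (g w)).injOn hy hz ?_
    rw [← hc, ← hc, h]
  · have h1 : f a ∈ G.neighborSet (φ (g w)) := by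
      show G.Adj (φ (g w)) (f a)
      rw [← hc]
      exact ha
    obtain ⟨y, hy, hy2⟩ := (hφ (g w)).surjOn h1
    obtain ⟨y', rfl⟩ := hr y (by rw [hy2]; exact ⟨a, rfl⟩)
    refine ⟨y', hy, ?_⟩
    apply hf
    rw [hc, hy2]

/-- planarity does not depend on the names of the vertices -/
theorem IsPlanar.map_equiv [Finite W] {H : SimpleGraph W} (h : IsPlanar H) (e : W' ≃ W) :
    IsPlanar (H.comap e) := by
  have : Finite W' := Finite.of_equiv _ e.symm
  exact h.comap e e.injective

end transfer

/-- A cover with any finite set of vertices. -/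
theorem HasPlanarCover.of {W : Type*} [Finite W] {U : Type u} {G : SimpleGraph U}
    {H : SimpleGraph W} {φ : W → U} (hs : Function.Surjective φ) (hφ : IsCover H G φ)
    (hpl : IsPlanar H) : HasPlanarCover G := by
  classical
  have := Fintype.ofFinite W
  let e : Fin (Fintype.card W) ≃ W := (Fintype.equivFin W).symm
  refine ⟨Fintype.card W, H.comap e, φ ∘ e, hs.comp e.surjective, ?_, hpl.map_equiv e⟩
  have h := hφ.comap (id : U → U) Function.injective_id e e.injective (φ ∘ e) (fun _ => rfl)
    (fun w _ => ⟨e.symm w, e.apply_symm_apply w⟩)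
  simpa using h

/-- In a cover of a connected graph by a nonempty graph every vertex is covered. -/
theorem IsCover.surjective {W U : Type*} [Nonempty W] {H : SimpleGraph W} {G : SimpleGraph U}
    {φ : W → U} (hφ : IsCover H G φ) (hG : G.Preconnected) : Function.Surjective φ := by
  intro a
  obtain ⟨w0⟩ := ‹Nonempty W›
  have h1 : ∀ b, G.Reachable (φ w0) b → ∃ w, φ w = b := by
    rintro b ⟨p⟩
    have : ∀ {x y : U}, G.Walk x y → (∃ w, φ w = x) → ∃ w, φ w = y := by
      intro x y p
      induction p with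
      | nil => exact fun h => h
      | cons h _ ih =>
        rintro ⟨w, rfl⟩
        obtain ⟨z, _, hz⟩ := (hφ w).surjOn h
        exact ih ⟨z, hz⟩
    exact this p ⟨w0, rfl⟩
  exact h1 a (hG _ _)

/-- Planar covers pass to subgraphs with the same vertices. -/
theorem HasPlanarCover.mono {U : Type u} {G G' : SimpleGraph U} (h : HasPlanarCover G)
    (hle : G' ≤ G) : HasPlanarCover G' := by
  obtain ⟨n, H, φ, hs, hφ, hpl⟩ := h
  exact ⟨n, liftSub H G' φ, φ, hs, hφ.liftSub hle, hpl.mono (liftSub_le _ _ _)⟩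

/-- Planar covers pass to contractions of an edge. -/
theorem HasPlanarCover.contr {U : Type u} {G : SimpleGraph U} (h : HasPlanarCover G) {u v : U}
    (huv : G.Adj u v) : HasPlanarCover (contr G u v) := by
  obtain ⟨n, H, φ, hs, hφ, hpl⟩ := h
  obtain ⟨H', h1, h2⟩ := exists_contr hφ hpl huv
  exact ⟨n, H', φ, hs, h1, h2⟩

/-- Planar covers pass to induced subgraphs. -/
theorem HasPlanarCover.comap {U U' : Type*} {G : SimpleGraph U} (h : HasPlanarCover G)
    (f : U' → U) (hf : Function.Injective f) : HasPlanarCover (G.comap f) := by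
  obtain ⟨n, H, φ, hs, hφ, hpl⟩ := h
  have hex : ∀ w : {w : Fin n // φ w ∈ Set.range f}, ∃ a, f a = φ w.1 := fun w => w.2
  choose φ' hφ' using hex
  refine HasPlanarCover.of (φ := φ') (H := H.comap Subtype.val) ?_
    (hφ.comap f hf Subtype.val Subtype.val_injective φ' hφ' fun w hw => ⟨⟨w, hw⟩, rfl⟩)
    (hpl.comap _ Subtype.val_injective)
  intro a
  obtain ⟨w, hw⟩ := hs (f a)
  refine ⟨⟨w, a, hw.symm⟩, hf ?_⟩
  rw [hφ', hw]

/-! ### Minors -/

section minor

variable {U U' : Type*}

theorem rho0_eq {u v x y : U} (h : rho0 u v x = rho0 u v y) :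
    x = y ∨ (x = v ∧ y = u) ∨ (x = u ∧ y = v) := by
  by_cases hx : x = v
  · by_cases hy : y = v
    · exact Or.inl (hx.trans hy.symm)
    · rw [hx, rho0_self, rho0_of_ne hy] at h
      exact Or.inr (Or.inl ⟨hx, h.symm⟩)
  · rw [rho0_of_ne hx] at h
    by_cases hy : y = v
    · rw [hy, rho0_self] at h
      exact Or.inr (Or.inr ⟨h, hy⟩)
    · rw [rho0_of_ne hy] at h
      exact Or.inl h

/-- the image of a connected set of vertices is connected -/
theorem connected_image (G : SimpleGraph U) (u v : U) (S : Set U)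
    (h : (G.induce S).Connected) :
    ((contr G u v).induce (rho0 u v '' S)).Connected := by
  obtain ⟨⟨x0⟩⟩ := h.nonempty, h
  have key : ∀ {x y : S}, (G.induce S).Walk x y →
      ((contr G u v).induce (rho0 u v '' S)).Reachable ⟨rho0 u v x, x, x.2, rfl⟩
        ⟨rho0 u v y, y, y.2, rfl⟩ := by
    intro x y p
    induction p with
    | nil => exact SimpleGraph.Reachable.refl _
    | @cons a b c hab _ ih =>
      refine SimpleGraph.Reachable.trans ?_ ih
      by_cases hh : rho0 u v a = rho0 u v b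
      · have : (⟨rho0 u v a, a, a.2, rfl⟩ : (rho0 u v '' S : Set U)) =
            ⟨rho0 u v b, b, b.2, rfl⟩ := Subtype.ext hh
        rw [this]
      · refine SimpleGraph.Adj.reachable ?_
        exact ⟨hh, a, b, hab, rfl, rfl⟩
  refine { preconnected := ?_, nonempty := ⟨⟨rho0 u v x0, x0, x0.2, rfl⟩⟩ }
  rintro ⟨_, x, hx, rfl⟩ ⟨_, y, hy, rfl⟩
  obtain ⟨p⟩ := h.preconnected ⟨x, hx⟩ ⟨y, hy⟩
  exact key p

/-- **Finite planar covers pass to minors.** -/
theorem HasPlanarCover.minor [Finite U] {G : SimpleGraph U} (h : HasPlanarCover G)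
    {M : SimpleGraph U'} (hM : IsMinor M G) : HasPlanarCover M := by
  classical
  obtain ⟨B, h1, h2, h3⟩ := hM
  have key : ∀ (n : ℕ) (G : SimpleGraph U), HasPlanarCover G → ∀ B : U' → Set U,
      (∀ a, (G.induce (B a)).Connected) → (∀ a b, a ≠ b → Disjoint (B a) (B b)) →
      (∀ a b, M.Adj a b → ∃ x ∈ B a, ∃ y ∈ B b, G.Adj x y) → (⋃ a, B a).ncard ≤ n →
      HasPlanarCover M := by
    intro n
    induction n with
    | zero =>
      intro G hG B h1 h2 h3 hn
      have hemp : IsEmpty U' := by
        refine ⟨fun a => ?_⟩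
        obtain ⟨⟨x, hx⟩⟩ := (h1 a).nonempty
        have h5 : (⋃ a, B a) = ∅ := (Set.ncard_eq_zero (Set.toFinite _)).1 (by omega)
        have : x ∈ (∅ : Set U) := by rw [← h5]; exact Set.mem_iUnion.2 ⟨a, hx⟩
        exact this
      have := hG.comap (fun a : U' => isEmptyElim a) (fun a => isEmptyElim a)
      refine this.mono ?_
      intro a
      exact isEmptyElim a
    | succ n ih =>
      intro G hG B h1 h2 h3 hn
      by_cases hex : ∃ a, ∃ u ∈ B a, ∃ v ∈ B a, u ≠ v
      · obtain ⟨a, x, hx, y, hy, hxy⟩ := hex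
        -- an edge inside `B a`
        obtain ⟨u, hu, v, hv, huv⟩ : ∃ u ∈ B a, ∃ v ∈ B a, G.Adj u v := by
          obtain ⟨p⟩ := (h1 a).preconnected ⟨x, hx⟩ ⟨y, hy⟩
          cases p with
          | nil => exact absurd rfl hxy
          | @cons _ b _ hb _ => exact ⟨x, hx, b, b.2, hb⟩
        have hdis : ∀ a1 a2 : U', a1 ≠ a2 → ∀ p ∈ B a1, ∀ q ∈ B a2, rho0 u v p ≠ rho0 u v q := by
          intro a1 a2 hne p hp q hq he
          have hab : ∀ b, ∀ r ∈ B b, r ∈ B a → b = a := by
            intro b r hr1 hr2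
            by_contra hba
            exact Set.disjoint_left.1 (h2 b a hba) hr1 hr2
          rcases rho0_eq he with h4 | ⟨h4, h5⟩ | ⟨h4, h5⟩
          · subst h4
            exact Set.disjoint_left.1 (h2 a1 a2 hne) hp hq
          · exact hne ((hab a1 p hp (h4 ▸ hv)).trans (hab a2 q hq (h5 ▸ hu)).symm)
          · exact hne ((hab a1 p hp (h4 ▸ hu)).trans (hab a2 q hq (h5 ▸ hv)).symm)
        refine ih (MP_5854e1_co.contr G u v) (hG.contr huv) (fun b => rho0 u v '' B b)
          (fun b => connected_image G u v _ (h1 b)) ?_ ?_ ?_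
        · intro a1 a2 hne
          rw [Set.disjoint_left]
          rintro _ ⟨p, hp, rfl⟩ ⟨q, hq, he⟩
          exact hdis a1 a2 hne p hp q hq he.symm
        · intro a1 a2 hadj
          obtain ⟨p, hp, q, hq, hpq⟩ := h3 a1 a2 hadj
          exact ⟨_, ⟨p, hp, rfl⟩, _, ⟨q, hq, rfl⟩, hdis a1 a2 hadj.ne p hp q hq, p, q, hpq,
            rfl, rfl⟩
        · have hsub : (⋃ b, rho0 u v '' B b) ⊆ (⋃ b, B b) \ {v} := by
            intro z hz
            obtain ⟨b, p, hp, rfl⟩ := Set.mem_iUnion.1 hz
            refine ⟨?_, rho0_ne huv.ne p⟩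
            by_cases hpv : p = v
            · rw [hpv, rho0_self]
              exact Set.mem_iUnion.2 ⟨a, hu⟩
            · rw [rho0_of_ne hpv]
              exact Set.mem_iUnion.2 ⟨b, hp⟩
          have h6 := Set.ncard_le_ncard hsub (Set.toFinite _)
          have h7 : ((⋃ b, B b) \ {v}).ncard + 1 = (⋃ b, B b).ncard :=
            Set.ncard_sdiff_singleton_add_one (Set.mem_iUnion.2 ⟨a, hv⟩) (Set.toFinite _)
          omega
      · -- all branch sets are single vertices
        push Not at hex
        have hne : ∀ a, ∃ x, x ∈ B a := fun a => by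
          obtain ⟨⟨x, hx⟩⟩ := (h1 a).nonempty
          exact ⟨x, hx⟩
        choose f hf using hne
        have hinj : Function.Injective f := by
          intro a b hab
          by_contra hne
          exact Set.disjoint_left.1 (h2 a b hne) (hf a) (hab ▸ hf b)
        refine (hG.comap f hinj).mono ?_
        intro a b hab
        obtain ⟨x, hx, y, hy, hxy⟩ := h3 a b hab
        show G.Adj (f a) (f b)
        rw [hex a (f a) (hf a) x hx, hex b (f b) (hf b) y hy]
        exact hxy
  exact key _ G h B h1 h2 h3 le_rfl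

end minor

end Pool.Agent.Lib.MP_5854e1_co
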