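import Mathlib

/-!
Cycles of permutations as lists, and the number of cycles of `σ * swap d e`.
-/

set_option autoImplicit false

open Equiv Equiv.Perm

namespace Pool.Agent.Lib.MP_5854e1_co

variable {D : Type*}

/-- `Seg σ x l y`: the list `l` is `x, σ x, σ (σ x), ...` and the next entry would be `y`. -/
def Seg (σ : Perm D) : D → List D → D → Prop
  | x, [], y => x = y
  | x, a :: l, y => a = x ∧ Seg σ (σ x) l y

theorem seg_append (σ : Perm D) (l₁ l₂ : List D) (x y : D) :
    Seg σ x (l₁ ++ l₂) y ↔ ∃ z, Seg σ x l₁ z ∧ Seg σ z l₂ y := by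
  induction l₁ generalizing x with
  | nil => simp [Seg]
  | cons a l ih =>
    simp only [List.cons_append, Seg, ih]
    constructor
    · rintro ⟨h, z, h1, h2⟩; exact ⟨z, ⟨h, h1⟩, h2⟩
    · rintro ⟨z, ⟨h, h1⟩, h2⟩; exact ⟨h, z, h1, h2⟩

theorem seg_congr {σ τ : Perm D} {l : List D} (h : ∀ a ∈ l, σ a = τ a) {x y : D}
    (hs : Seg σ x l y) : Seg τ x l y := by
  induction l generalizing x with
  | nil => exact hs
  | cons a l ih =>
    obtain ⟨h1, h2⟩ := hs
    subst h1
    refine ⟨rfl, ?_⟩
    rw [← h a (by simp)]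
    exact ih (fun b hb => h b (by simp [hb])) h2

/-- `l` lists a cycle of `σ` (fixed points are cycles of length one). -/
def CycList (σ : Perm D) (l : List D) : Prop :=
  l ≠ [] ∧ l.Nodup ∧ ∃ x, Seg σ x l x

theorem CycList.rotate {σ : Perm D} {u v : List D} (h : CycList σ (u ++ v)) :
    CycList σ (v ++ u) := by
  obtain ⟨h0, h1, x, hx⟩ := h
  refine ⟨?_, ?_, ?_⟩
  · intro h; apply h0
    simp only [List.append_eq_nil_iff] at h ⊢
    exact ⟨h.2, h.1⟩
  · exact (List.nodup_append_comm).1 h1
  · rw [seg_append] at hx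
    obtain ⟨z, h2, h3⟩ := hx
    exact ⟨z, (seg_append σ v u z z).2 ⟨x, h3, h2⟩⟩

theorem CycList.exists_cons {σ : Perm D} {l : List D} (h : CycList σ l) {d : D} (hd : d ∈ l) :
    ∃ u v, l = u ++ d :: v ∧ CycList σ (d :: (v ++ u)) := by
  obtain ⟨u, v, rfl⟩ := List.append_of_mem hd
  exact ⟨u, v, rfl, by simpa using h.rotate⟩

theorem CycList.seg_cons {σ : Perm D} {d : D} {l : List D} (h : CycList σ (d :: l)) :
    Seg σ (σ d) l d := by
  obtain ⟨-, -, x, hx⟩ := h
  obtain ⟨rfl, h2⟩ := hx
  exact h2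

theorem CycList.of_seg {σ : Perm D} {d : D} {l : List D} (h : Seg σ (σ d) l d)
    (hn : (d :: l).Nodup) : CycList σ (d :: l) := ⟨by simp, hn, d, rfl, h⟩

theorem CycList.congr {σ τ : Perm D} {l : List D} (h : CycList σ l) (hc : ∀ a ∈ l, σ a = τ a) :
    CycList τ l := by
  obtain ⟨h0, h1, x, hx⟩ := h
  exact ⟨h0, h1, x, seg_congr hc hx⟩

theorem CycList.apply_mem {σ : Perm D} {l : List D} (h : CycList σ l) {x : D} (hx : x ∈ l) :
    σ x ∈ l := by
  obtain ⟨u, v, rfl, h2⟩ := h.exists_cons hx
  have h3 := h2.seg_cons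
  have h4 : σ x ∈ x :: (v ++ u) := by
    rcases hvu : v ++ u with _ | ⟨a, t⟩
    · rw [hvu] at h3
      have : σ x = x := h3
      rw [this]; simp
    · rw [hvu] at h3
      obtain ⟨h5, -⟩ := h3
      rw [← h5]; simp
  simp only [List.mem_cons, List.mem_append] at h4 ⊢
  tauto

theorem seg_sameCycle {σ : Perm D} {l : List D} {x y : D} (h : Seg σ x l y) :
    σ.SameCycle x y ∧ ∀ z ∈ l, σ.SameCycle x z := by
  induction l generalizing x with
  | nil =>
    have : x = y := h
    subst this
    exact ⟨SameCycle.refl _ _, by simp⟩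
  | cons a l ih =>
    obtain ⟨h1, h2⟩ := h
    subst h1
    obtain ⟨h3, h4⟩ := ih h2
    refine ⟨(sameCycle_apply_left.1 h3), ?_⟩
    intro z hz
    rcases List.mem_cons.1 hz with rfl | hz
    · exact SameCycle.refl _ _
    · exact sameCycle_apply_left.1 (h4 z hz)

theorem CycList.sameCycle {σ : Perm D} {l : List D} (h : CycList σ l) {x y : D} (hx : x ∈ l)
    (hy : y ∈ l) : σ.SameCycle x y := by
  obtain ⟨-, -, a, ha⟩ := h
  obtain ⟨-, h2⟩ := seg_sameCycle ha
  exact (h2 x hx).symm.trans (h2 y hy)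

variable [Finite D]

theorem CycList.mem_of_sameCycle {σ : Perm D} {l : List D} (h : CycList σ l) {x y : D}
    (hx : x ∈ l) (hxy : σ.SameCycle x y) : y ∈ l := by
  obtain ⟨n, rfl⟩ := hxy.exists_nat_pow_eq
  clear hxy
  induction n with
  | zero => simpa using hx
  | succ n ih =>
    rw [pow_succ', Perm.mul_apply]
    exact h.apply_mem ih

theorem exists_cycList (σ : Perm D) (x : D) : ∃ l, CycList σ (x :: l) := by
  classical
  have hex : ∃ n : ℕ, 0 < n ∧ (σ ^ n) x = x := by
    obtain ⟨n, hn, h⟩ := isOfFinOrder_iff_pow_eq_one.1 (isOfFinOrder_of_finite σ)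
    exact ⟨n, hn, by rw [h]; rfl⟩
  set n := Nat.find hex with hn
  obtain ⟨hn0, hnx⟩ := Nat.find_spec hex
  have hmin : ∀ m, m < n → ¬ (0 < m ∧ (σ ^ m) x = x) := fun m hm => Nat.find_min hex hm
  have hseg : ∀ m, Seg σ x ((List.range m).map fun i => (σ ^ i) x) ((σ ^ m) x) := by
    intro m
    induction m with
    | zero => simp [Seg]
    | succ m ih =>
      rw [List.range_succ, List.map_append, seg_append]
      refine ⟨_, ih, ?_⟩
      simp only [List.map_cons, List.map_nil, Seg, true_and]
      rw [pow_succ', Perm.mul_apply]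
  have hnod : ((List.range n).map fun i => (σ ^ i) x).Nodup := by
    refine List.Nodup.map_on ?_ List.nodup_range
    intro i hi j hj hij
    rw [List.mem_range] at hi hj
    by_contra hne
    wlog hlt : i < j generalizing i j
    · exact this j hj i hi hij.symm (Ne.symm hne) (by omega)
    have h1 : (σ ^ (j - i)) x = x := by
      apply (σ ^ i).injective
      rw [← Perm.mul_apply, ← pow_add, show i + (j - i) = j by omega]
      exact hij.symm
    exact hmin (j - i) (by omega) ⟨by omega, h1⟩
  obtain ⟨m, hm⟩ : ∃ m, n = m + 1 := ⟨n - 1, by omega⟩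
  have hs := hseg n
  rw [hn, hnx, ← hn] at hs
  rw [hm, List.range_succ_eq_map, List.map_cons] at hs hnod
  simp only [pow_zero, Perm.coe_one, id_eq] at hs hnod
  exact ⟨_, by simp, hnod, x, hs⟩

/-! ### Quotients -/

open Relation in
theorem eqvGen_insert {r : D → D → Prop} {a b x y : D}
    (h : EqvGen (fun x y => r x y ∨ (x = a ∧ y = b)) x y) :
    EqvGen r x y ∨ ((EqvGen r x a ∨ EqvGen r x b) ∧ (EqvGen r y a ∨ EqvGen r y b)) := by
  induction h with
  | rel x y h =>
    rcases h with h | ⟨rfl, rfl⟩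
    · exact Or.inl (EqvGen.rel _ _ h)
    · exact Or.inr ⟨Or.inl (EqvGen.refl _), Or.inr (EqvGen.refl _)⟩
  | refl x => exact Or.inl (EqvGen.refl _)
  | symm x y _ ih =>
    rcases ih with h | ⟨h1, h2⟩
    · exact Or.inl (EqvGen.symm _ _ h)
    · exact Or.inr ⟨h2, h1⟩
  | trans x y z _ _ ih1 ih2 =>
    rcases ih1 with h | ⟨h1, h2⟩
    · rcases ih2 with h' | ⟨h3, h4⟩
      · exact Or.inl (EqvGen.trans _ _ _ h h')
      · exact Or.inr ⟨h3.imp (EqvGen.trans _ _ _ h) (EqvGen.trans _ _ _ h), h4⟩
    · rcases ih2 with h' | ⟨h3, h4⟩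
      · exact Or.inr ⟨h1, h2.imp (EqvGen.trans _ _ _ (EqvGen.symm _ _ h'))
          (EqvGen.trans _ _ _ (EqvGen.symm _ _ h'))⟩
      · exact Or.inr ⟨h1, h4⟩

/-- The number of classes of the equivalence relation generated by `r`. -/
noncomputable def ncl (r : D → D → Prop) : ℕ := Nat.card (Quot r)

open Relation in
theorem ncl_congr {r s : D → D → Prop} (h : ∀ x y, EqvGen r x y ↔ EqvGen s x y) :
    ncl r = ncl s := by
  refine Nat.card_congr (Equiv.ofBijective (Quot.lift (fun x => Quot.mk s x) ?_) ⟨?_, ?_⟩)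
  · intro x y hxy
    exact Quot.eqvGen_sound ((h x y).1 (EqvGen.rel _ _ hxy))
  · intro p q
    induction p using Quot.ind
    induction q using Quot.ind
    intro hpq
    exact Quot.eqvGen_sound ((h _ _).2 (Quot.eqvGen_exact hpq))
  · intro q
    induction q using Quot.ind with
    | mk x => exact ⟨Quot.mk r x, rfl⟩

open Relation in
theorem ncl_insert_of_rel {r : D → D → Prop} {a b : D} (h : EqvGen r a b) :
    ncl (fun x y => r x y ∨ (x = a ∧ y = b)) = ncl r := by
  refine ncl_congr fun x y => ⟨fun hxy => ?_, fun hxy => hxy.mono fun _ _ => Or.inl⟩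
  rcases eqvGen_insert hxy with h1 | ⟨h1, h2⟩
  · exact h1
  · have h3 : ∀ z, EqvGen r z a ∨ EqvGen r z b → EqvGen r z a := fun z hz =>
      hz.elim id fun hz => EqvGen.trans _ _ _ hz (EqvGen.symm _ _ h)
    exact EqvGen.trans _ _ _ (h3 x h1) (EqvGen.symm _ _ (h3 y h2))

open Relation in
theorem ncl_insert_of_not_rel {r : D → D → Prop} {a b : D} (h : ¬ EqvGen r a b) :
    ncl (fun x y => r x y ∨ (x = a ∧ y = b)) + 1 = ncl r := by
  classical
  set s : D → D → Prop := fun x y => r x y ∨ (x = a ∧ y = b) with hs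
  have : Finite (Quot r) := inferInstance
  have : Finite (Quot s) := inferInstance
  have hrs : ∀ x y, EqvGen r x y → EqvGen s x y := fun x y hxy => hxy.mono fun _ _ => Or.inl
  let f : Quot r → Quot s := Quot.lift (fun x => Quot.mk s x)
    (fun x y hxy => Quot.sound (Or.inl hxy))
  have hbij : Function.Bijective (fun q : {q : Quot r // q ≠ Quot.mk r b} => f q.1) := by
    constructor
    · rintro ⟨p, hp⟩ ⟨q, hq⟩ hpq
      induction p using Quot.ind with
      | mk x =>
      induction q using Quot.ind with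
      | mk y =>
        have hx : ¬ EqvGen r x b := fun hx => hp (Quot.eqvGen_sound hx)
        have hy : ¬ EqvGen r y b := fun hy => hq (Quot.eqvGen_sound hy)
        have h1 : EqvGen s x y := Quot.eqvGen_exact hpq
        apply Subtype.ext
        apply Quot.eqvGen_sound
        rcases eqvGen_insert h1 with h2 | ⟨h2, h3⟩
        · exact h2
        · exact EqvGen.trans _ _ _ (h2.resolve_right hx)
            (EqvGen.symm _ _ (h3.resolve_right hy))
    · intro q
      induction q using Quot.ind with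
      | mk x =>
        by_cases hx : EqvGen r x b
        · refine ⟨⟨Quot.mk r a, fun hab => h (Quot.eqvGen_exact hab)⟩, ?_⟩
          apply Quot.eqvGen_sound
          exact EqvGen.trans _ _ _ (EqvGen.rel _ _ (Or.inr ⟨rfl, rfl⟩))
            (EqvGen.symm _ _ (hrs _ _ hx))
        · exact ⟨⟨Quot.mk r x, fun hxb => hx (Quot.eqvGen_exact hxb)⟩, rfl⟩
  have h1 : ncl s = Nat.card {q : Quot r // q ≠ Quot.mk r b} :=
    (Nat.card_congr (Equiv.ofBijective _ hbij)).symm
  rw [h1, ncl]
  have : Fintype (Quot r) := Fintype.ofFinite _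
  rw [Nat.card_eq_fintype_card, Nat.card_eq_fintype_card]
  have := Fintype.card_subtype_compl (fun q : Quot r => q = Quot.mk r b)
  rw [Fintype.card_subtype_eq] at this
  have h2 : 0 < Fintype.card (Quot r) := Fintype.card_pos_iff.2 ⟨Quot.mk r b⟩
  have h3 : Fintype.card {q : Quot r // q ≠ Quot.mk r b} = Fintype.card (Quot r) - 1 := by
    simpa using this
  omega

/-! ### The number of cycles -/

/-- The number of cycles of `σ`, fixed points included. -/
noncomputable def cyc (σ : Perm D) : ℕ := ncl fun x y => σ x = y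

/-- The number of orbits of the group generated by `σ` and `α`. -/
noncomputable def orb (σ α : Perm D) : ℕ := ncl fun x y => σ x = y ∨ α x = y

open Relation in
theorem eqvGen_iff_sameCycle (σ : Perm D) (x y : D) :
    EqvGen (fun x y => σ x = y) x y ↔ σ.SameCycle x y := by
  constructor
  · intro h
    induction h with
    | rel x y h => rw [← h]; exact (sameCycle_apply_right.2 (SameCycle.refl _ _))
    | refl x => exact SameCycle.refl _ _
    | symm x y _ ih => exact ih.symm
    | trans x y z _ _ ih1 ih2 => exact ih1.trans ih2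
  · intro h
    obtain ⟨n, rfl⟩ := h.exists_nat_pow_eq
    clear h
    induction n with
    | zero => exact EqvGen.refl _
    | succ n ih =>
      rw [pow_succ', Perm.mul_apply]
      exact EqvGen.trans _ _ _ ih (EqvGen.rel _ _ rfl)

variable [DecidableEq D]

theorem mul_swap_swap (σ : Perm D) (d e : D) : σ * swap d e * swap d e = σ := by
  rw [mul_assoc, swap_mul_self, mul_one]

/-- Cutting a cycle through `d` and `e`. -/
theorem CycList.cut {σ : Perm D} {d e : D} {A B : List D}
    (h : CycList σ (d :: (A ++ e :: B))) :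
    CycList (σ * swap d e) (e :: A) ∧ CycList (σ * swap d e) (d :: B) := by
  have hs := h.seg_cons
  have hn := h.2.1
  rw [seg_append] at hs
  obtain ⟨z, h1, h2⟩ := hs
  obtain ⟨rfl, h3⟩ := h2
  have hd : e ≠ d := by
    rintro rfl
    simp at hn
  simp only [List.nodup_cons, List.mem_append, List.mem_cons, not_or] at hn
  obtain ⟨⟨hdA, -, hdB⟩, hn2⟩ := hn
  rw [List.nodup_append] at hn2
  obtain ⟨hA, hB, hAB⟩ := hn2
  rw [List.nodup_cons] at hB
  have heA : e ∉ A := fun hh => hAB e hh e (by simp) rfl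
  have hfix : ∀ a, a ≠ d → a ≠ e → σ a = (σ * swap d e) a := by
    intro a h1 h2
    rw [Perm.mul_apply, swap_apply_of_ne_of_ne h1 h2]
  constructor
  · apply CycList.of_seg
    · rw [Perm.mul_apply, swap_apply_right]
      refine seg_congr ?_ h1
      intro a ha
      exact hfix a (by rintro rfl; exact hdA ha) (by rintro rfl; exact heA ha)
    · rw [List.nodup_cons]; exact ⟨heA, hA⟩
  · apply CycList.of_seg
    · rw [Perm.mul_apply, swap_apply_left]
      refine seg_congr ?_ h3
      intro a ha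
      exact hfix a (by rintro rfl; exact hdB ha) (by rintro rfl; exact hB.1 ha)
    · rw [List.nodup_cons]; exact ⟨hdB, hB.2⟩

theorem sameCycle_mul_swap_of_not {σ : Perm D} {d e : D} (h : ¬ σ.SameCycle d e) :
    (σ * swap d e).SameCycle d e := by
  obtain ⟨B, hB⟩ := exists_cycList σ e
  have h1 := hB.seg_cons
  have hdB : d ∉ B := fun hd => h (hB.sameCycle (List.mem_cons_of_mem _ hd) (by simp))
  have heB : e ∉ B := (List.nodup_cons.1 hB.2.1).1
  have h2 : Seg (σ * swap d e) ((σ * swap d e) d) B e := by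
    rw [Perm.mul_apply, swap_apply_left]
    refine seg_congr ?_ h1
    intro a ha
    rw [Perm.mul_apply, swap_apply_of_ne_of_ne (by rintro rfl; exact hdB ha)
      (by rintro rfl; exact heB ha)]
  exact sameCycle_apply_left.1 (seg_sameCycle h2).1

theorem not_sameCycle_mul_swap {σ : Perm D} {d e : D} (hde : d ≠ e) (h : σ.SameCycle d e) :
    ¬ (σ * swap d e).SameCycle d e := by
  obtain ⟨l, hl⟩ := exists_cycList σ d
  have he : e ∈ l := by
    have := hl.mem_of_sameCycle (List.mem_cons_self) h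
    exact (List.mem_cons.1 this).resolve_left (Ne.symm hde)
  obtain ⟨A, B, rfl⟩ := List.append_of_mem he
  obtain ⟨h1, h2⟩ := hl.cut
  intro hc
  have h3 : d ∈ e :: A := h1.mem_of_sameCycle List.mem_cons_self hc.symm
  have hn := hl.2.1
  simp only [List.nodup_cons, List.mem_append, List.mem_cons, not_or] at hn h3
  rcases h3 with h3 | h3
  · exact hde h3
  · exact hn.1.1 h3

open Relation in
theorem eqvGen_mul_swap_insert (σ α β : Perm D) (d e : D)
    (hαβ : ∀ x y, EqvGen (fun x y => σ x = y ∨ α x = y) x y →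
      EqvGen (fun x y => (((σ * swap d e) x = y) ∨ β x = y) ∨ (x = d ∧ y = e)) x y)
    (hβα : ∀ x y, EqvGen (fun x y => ((σ * swap d e) x = y) ∨ β x = y) x y →
      EqvGen (fun x y => σ x = y ∨ α x = y) x y)
    (hde : EqvGen (fun x y => σ x = y ∨ α x = y) d e) :
    ncl (fun x y => (((σ * swap d e) x = y) ∨ β x = y) ∨ (x = d ∧ y = e)) = orb σ α := by
  refine ncl_congr fun x y => ⟨fun h => ?_, hαβ x y⟩
  induction h with
  | rel x y h =>
    rcases h with h | ⟨rfl, rfl⟩
    · exact hβα _ _ (EqvGen.rel _ _ h)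
    · exact hde
  | refl x => exact EqvGen.refl _
  | symm x y _ ih => exact EqvGen.symm _ _ ih
  | trans x y z _ _ ih1 ih2 => exact EqvGen.trans _ _ _ ih1 ih2

open Relation in
theorem eqvGen_swap_pair (σ : Perm D) (d e x y : D)
    (h : EqvGen (fun x y => (σ * swap d e) x = y ∨ (x = d ∧ y = e)) x y) :
    EqvGen (fun x y => σ x = y ∨ (x = d ∧ y = e)) x y := by
  have hde : EqvGen (fun x y => σ x = y ∨ (x = d ∧ y = e)) d e :=
    EqvGen.rel _ _ (Or.inr ⟨rfl, rfl⟩)
  have hs : ∀ z, EqvGen (fun x y => σ x = y ∨ (x = d ∧ y = e)) z (σ z) := fun z =>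
    EqvGen.rel _ _ (Or.inl rfl)
  induction h with
  | rel x y h =>
    rcases h with h | ⟨rfl, rfl⟩
    · subst h
      rw [Perm.mul_apply]
      by_cases h1 : x = d
      · subst h1
        rw [swap_apply_left]
        exact EqvGen.trans _ _ _ hde (hs _)
      · by_cases h2 : x = e
        · subst h2
          rw [swap_apply_right]
          exact EqvGen.trans _ _ _ (EqvGen.symm _ _ hde) (hs _)
        · rw [swap_apply_of_ne_of_ne h1 h2]
          exact hs _
    · exact hde
  | refl x => exact EqvGen.refl _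
  | symm x y _ ih => exact EqvGen.symm _ _ ih
  | trans x y z _ _ ih1 ih2 => exact EqvGen.trans _ _ _ ih1 ih2

theorem ncl_swap_pair (σ : Perm D) (d e : D) :
    ncl (fun x y => (σ * swap d e) x = y ∨ (x = d ∧ y = e)) =
      ncl (fun x y => σ x = y ∨ (x = d ∧ y = e)) := by
  refine ncl_congr fun x y => ⟨eqvGen_swap_pair σ d e x y, fun h => ?_⟩
  have := eqvGen_swap_pair (σ * swap d e) d e x y
  rw [mul_swap_swap] at this
  exact this h

theorem cyc_mul_swap_of_not {σ : Perm D} {d e : D} (h : ¬ σ.SameCycle d e) :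
    cyc (σ * swap d e) + 1 = cyc σ := by
  have h1 : cyc (σ * swap d e) = ncl (fun x y => (σ * swap d e) x = y ∨ (x = d ∧ y = e)) :=
    (ncl_insert_of_rel ((eqvGen_iff_sameCycle _ _ _).2 (sameCycle_mul_swap_of_not h))).symm
  rw [h1, ncl_swap_pair]
  exact ncl_insert_of_not_rel (fun hh => h ((eqvGen_iff_sameCycle _ _ _).1 hh))

theorem cyc_mul_swap_of_sameCycle {σ : Perm D} {d e : D} (hde : d ≠ e) (h : σ.SameCycle d e) :
    cyc (σ * swap d e) = cyc σ + 1 := by
  have h1 := cyc_mul_swap_of_not (not_sameCycle_mul_swap hde h)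
  rw [mul_swap_swap] at h1
  exact h1.symm

theorem cyc_one : cyc (1 : Perm D) = Nat.card D := by
  refine Nat.card_congr ⟨Quot.lift id (fun x y h => h), Quot.mk _, ?_, fun _ => rfl⟩
  intro q
  induction q using Quot.ind
  rfl

theorem cyc_le_of_orb (σ α : Perm D) : orb σ α ≤ cyc σ := by
  have : Finite (Quot fun x y => σ x = y) := inferInstance
  refine Nat.card_le_card_of_surjective
    (Quot.lift (fun x => Quot.mk _ x) fun x y h => Quot.sound (Or.inl h)) ?_
  intro q
  induction q using Quot.ind with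
  | mk x => exact ⟨Quot.mk _ x, rfl⟩

theorem sameCycle_of_orb_eq (σ α : Perm D) (h : orb σ α = cyc σ) (x : D) :
    σ.SameCycle x (α x) := by
  classical
  have : Finite (Quot fun x y => σ x = y) := inferInstance
  have : Finite (Quot fun x y => σ x = y ∨ α x = y) := inferInstance
  let f : (Quot fun x y => σ x = y) → (Quot fun x y => σ x = y ∨ α x = y) :=
    Quot.lift (fun x => Quot.mk _ x) fun x y h => Quot.sound (Or.inl h)
  have hf : Function.Surjective f := by
    intro q
    induction q using Quot.ind with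
    | mk x => exact ⟨Quot.mk _ x, rfl⟩
  have hb : Function.Bijective f :=
    (Nat.bijective_iff_surjective_and_card f).2 ⟨hf, h.symm⟩
  rw [← eqvGen_iff_sameCycle]
  apply Quot.eqvGen_exact
  apply hb.1
  exact Quot.sound (Or.inr rfl)

theorem orb_eq_cyc_of_sameCycle (σ α : Perm D) (h : ∀ x, σ.SameCycle x (α x)) :
    orb σ α = cyc σ := by
  refine ncl_congr fun x y => ⟨fun hxy => ?_, fun hxy => hxy.mono fun _ _ => Or.inl⟩
  induction hxy with
  | rel x y h' =>
    rcases h' with h' | h'
    · exact Relation.EqvGen.rel _ _ h'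
    · subst h'; exact (eqvGen_iff_sameCycle _ _ _).2 (h x)
  | refl x => exact Relation.EqvGen.refl _
  | symm x y _ ih => exact Relation.EqvGen.symm _ _ ih
  | trans x y z _ _ ih1 ih2 => exact Relation.EqvGen.trans _ _ _ ih1 ih2

end Pool.Agent.Lib.MP_5854e1_co
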