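import Mathlib

/-!
# The cycle lemma

A periodic sequence with positive sum over one period has a rotation all of whose prefix sums are
positive.
-/

set_option autoImplicit false

namespace Pool.Agent.Lib.MP_5854e1_co

open Finset

theorem cycle_lemma {p : ℕ} (w : ℕ → ℤ) (hw : ∀ i, w (i + p) = w i)
    (hs : 0 < ∑ i ∈ range p, w i) :
    ∃ j, j < p ∧ ∀ n, 0 < n → n ≤ p → 0 < ∑ i ∈ range n, w (j + i) := by
  have hp : 0 < p := by
    rcases Nat.eq_zero_or_pos p with h | h
    · subst h; simp at hs
    · exact h
  set P : ℕ → ℤ := fun m => ∑ i ∈ range m, w i with hP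
  -- a minimiser of the prefix sums
  obtain ⟨j0, hj0, hmin0⟩ := Finset.exists_min_image (range p) P ⟨0, mem_range.2 hp⟩
  -- the last minimiser
  have hne : ((range p).filter fun m => P m = P j0).Nonempty :=
    ⟨j0, mem_filter.2 ⟨hj0, rfl⟩⟩
  set j := ((range p).filter fun m => P m = P j0).max' hne with hj
  have hjm := mem_filter.1 (max'_mem _ hne)
  rw [← hj] at hjm
  have hjp : j < p := mem_range.1 hjm.1
  have hmin : ∀ m, m < p → P j ≤ P m := fun m hm => by
    rw [hjm.2]; exact hmin0 m (mem_range.2 hm)
  have hlast : ∀ m, m < p → j < m → P j < P m := by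
    intro m hm hlt
    refine lt_of_le_of_ne (hmin m hm) fun h => ?_
    have h2 : m ∈ (range p).filter fun m => P m = P j0 := mem_filter.2 ⟨mem_range.2 hm, by rw [← h, hjm.2]⟩
    have := le_max' _ m h2
    rw [← hj] at this
    omega
  have hadd : ∀ m n, P (m + n) = P m + ∑ i ∈ range n, w (m + i) := fun m n => by
    simp only [hP]
    rw [sum_range_add]
  have hper : ∀ m, P (p + m) = P p + P m := by
    intro m
    rw [hadd]
    congr 1
    refine sum_congr rfl fun i _ => ?_
    rw [add_comm, hw]
  refine ⟨j, hjp, fun n hn0 hn => ?_⟩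
  have h1 := hadd j n
  rcases lt_or_ge (j + n) p with h | h
  · have := hlast (j + n) h (by omega)
    linarith
  · obtain ⟨m, hm⟩ := Nat.exists_eq_add_of_le h
    rw [hm, hper] at h1
    have h2 : P j ≤ P m := hmin m (by omega)
    have h3 : 0 < P p := hs
    linarith

end Pool.Agent.Lib.MP_5854e1_co
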