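import Pool.Agent.Lib.MP_5854e1_co.AntiRun
import Pool.Agent.Lib.MP_5854e1_co.AntiMain

/-!
# The parts of the checks of the tables
-/

set_option autoImplicit false

namespace Pool.Agent.Lib.MP_5854e1_co

/-- A part of the pairs: `a ≤ k < b` and `c ≤ o < d`. -/
inductive Pr where
  | mk (a b c d : ℕ) : Pr

namespace AP

noncomputable section

/-- The check `f` for the pairs of a part; there are `sz k` pairs of the shape `k`. -/
def runP (sz : ℕ → ℕ) (f : ℕ → ℕ → Bool) (u : Pr) : Bool :=
  Pr.rec (motive := fun _ => Bool) (fun a b c d =>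
    rAllN (fun j => rForce (Nat.add a j) fun k => rForce (sz k) fun n =>
      rForce (rIf (Nat.ble d n) d n) fun m =>
      rAllN (fun i => rForce (Nat.add c i) (f k)) (Nat.sub m c)) (Nat.sub b a)) u

/-- The pair belongs to a part. -/
def hasP (k o : ℕ) (u : Pr) : Bool :=
  Pr.rec (motive := fun _ => Bool) (fun a b c d =>
    rAnd (rAnd (Nat.ble a k) (Nat.ble (Nat.succ k) b))
      (rAnd (Nat.ble c o) (Nat.ble (Nat.succ o) d))) u

/-- The pair belongs to one of the parts. -/
def anyP (k o : ℕ) (L : List Pr) : Bool :=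
  List.rec (motive := fun _ => Bool) false
    (fun u _ ih => Bool.rec (motive := fun _ => Bool) ih true (hasP k o u)) L

/-- All pairs belong to the parts. -/
def covP (sz : ℕ → ℕ) (L : List Pr) : Bool :=
  rAllN (fun k => rAllN (fun o => anyP k o L) (sz k)) (nat_lit 101)

theorem anyP_sound {k o : ℕ} : ∀ {L : List Pr}, anyP k o L = true → ∃ u ∈ L, hasP k o u = true := by
  intro L
  induction L with
  | nil => exact fun h => absurd h Bool.false_ne_true
  | cons u L ih =>
    intro h
    have h1 : (Bool.rec (motive := fun _ => Bool) (anyP k o L) true (hasP k o u)) = true := h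
    cases hb : hasP k o u with
    | true => exact ⟨u, List.mem_cons_self, hb⟩
    | false =>
      rw [hb] at h1
      obtain ⟨v, h2, h3⟩ := ih h1
      exact ⟨v, List.mem_cons_of_mem _ h2, h3⟩

theorem runP_sound {sz : ℕ → ℕ} {f : ℕ → ℕ → Bool} {u : Pr} (h : runP sz f u = true) {k o : ℕ}
    (hu : hasP k o u = true) (ho : o < sz k) : f k o = true := by
  cases u with
  | mk a b c d =>
    obtain ⟨h1, h2⟩ := rAnd_iff.1 hu
    obtain ⟨h3, h4⟩ := rAnd_iff.1 h1
    obtain ⟨h5, h6⟩ := rAnd_iff.1 h2
    have i3 : a ≤ k := Nat.le_of_ble_eq_true h3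
    have i4 : k < b := Nat.le_of_ble_eq_true h4
    have i5 : c ≤ o := Nat.le_of_ble_eq_true h5
    have i6 : o < d := Nat.le_of_ble_eq_true h6
    have g1 := rAllN_iff.1 (show rAllN (fun j => rForce (Nat.add a j) fun k =>
      rForce (sz k) fun n => rForce (rIf (Nat.ble d n) d n) fun m =>
      rAllN (fun i => rForce (Nat.add c i) (f k)) (Nat.sub m c)) (Nat.sub b a) = true from h)
      (k - a) (by show k - a < b - a; omega)
    have e1 : Nat.add a (k - a) = k := Nat.add_sub_cancel' i3
    rw [e1, rForce_eq, rForce_eq, rForce_eq] at g1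
    have g2 : o < rIf (Nat.ble d (sz k)) d (sz k) := by
      cases Nat.ble d (sz k) with
      | true => exact i6
      | false => exact ho
    have g3 := rAllN_iff.1 g1 (o - c) (by
      show o - c < rIf (Nat.ble d (sz k)) d (sz k) - c
      omega)
    have e2 : Nat.add c (o - c) = o := Nat.add_sub_cancel' i5
    rwa [e2, rForce_eq] at g3

/-- **All pairs from the parts.** -/
theorem pairs_of_parts {sz : ℕ → ℕ} {f : ℕ → ℕ → Bool} {L : List Pr}
    (hL : ∀ u ∈ L, runP sz f u = true) (hc : covP sz L = true) :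
    ∀ k < 101, ∀ o < sz k, f k o = true := by
  intro k hk o ho
  have h1 := rAllN_iff.1 (rAllN_iff.1 hc k hk) o ho
  obtain ⟨u, h2, h3⟩ := anyP_sound h1
  exact runP_sound (hL u h2) h3 ho

/-- The same for the pairs `(k, o)` with `o ≤ k`. -/
theorem pairs_of_parts' {f : ℕ → ℕ → Bool} {L : List Pr}
    (hL : ∀ u ∈ L, runP Nat.succ f u = true) (hc : covP Nat.succ L = true) :
    ∀ k < 101, ∀ o ≤ k, f k o = true := fun k hk o ho =>
  pairs_of_parts hL hc k hk o (Nat.lt_succ_of_le ho)

end

end AP

end Pool.Agent.Lib.MP_5854e1_co
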