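import Pool.Agent.Lib.MP_5854e1_co.Win4
import Pool.Agent.Lib.MP_5854e1_co.Anti
import Pool.Agent.Lib.MP_5854e1_co.Node
import Pool.Agent.Lib.MP_5854e1_co.DeltaSym

/-!
# The closure of the corrections over the region of a strip

The region of a strip between two triangles has four corners. The windows at the two ends of the
strip and the fans of the two opposite corners share the four faces around the region: the sum of
their corrections is a cycle of four rows.
-/

set_option autoImplicit false

open Equiv Equiv.Perm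

namespace Pool.Agent.Lib.MP_5854e1_co

noncomputable section

/-! ### All rows of a trie -/

/-- All rows of a trie satisfy a condition. -/
def DT.all (f : ℕ → DL → Bool) (t : DT) : Bool :=
  DT.rec (motive := fun _ => Bool) true (fun i l => f i l)
    (fun _ _ _ ia ib => rAnd ia ib) t

theorem DT.get_of_all {f : ℕ → DL → Bool} {t : DT} (h : DT.all f t = true) (j : ℕ) :
    DT.get t j = DL.nil ∨ f j (DT.get t j) = true := by
  induction t with
  | z => exact Or.inl rfl
  | lf i l =>
    have e1 : DT.get (DT.lf i l) j =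
      Bool.rec (motive := fun _ => DL) DL.nil l (Nat.beq i j) := rfl
    rw [e1]
    cases h1 : Nat.beq i j with
    | false => exact Or.inl rfl
    | true =>
      rw [← Nat.eq_of_beq_eq_true h1]
      exact Or.inr h
  | nd i a b iha ihb =>
    have h' : rAnd (DT.all f a) (DT.all f b) = true := h
    obtain ⟨h1, h2⟩ := rAnd_iff.1 h'
    have e1 : DT.get (DT.nd i a b) j = Bool.rec (motive := fun _ => DL) (DT.get b j) (DT.get a j)
      (Nat.beq (Nat.mod (Nat.shiftRight j i) (nat_lit 2)) (nat_lit 0)) := rfl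
    rw [e1]
    cases Nat.beq (Nat.mod (Nat.shiftRight j i) (nat_lit 2)) (nat_lit 0) with
    | false => exact ihb h2
    | true => exact iha h1

theorem DT.all_nd {f : ℕ → DL → Bool} {i : ℕ} {a b : DT} (ha : DT.all f a = true)
    (hb : DT.all f b = true) : DT.all f (DT.nd i a b) = true := rAnd_iff.2 ⟨ha, hb⟩

/-! ### The check of a row of the windows -/

/-- The option of a ring state of a triangle. -/
def oInt (k o j : ℕ) : Bool :=
  rAnd (Nat.ble (Nat.succ o) (optN k))
    (rAnd (Nat.ble (triOff k o) j) (Nat.ble (Nat.succ j) (triOff k (Nat.succ o))))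

/-- The check of the reflection of a row of the windows. The token of the first group, which contains
the options of the two corners, is at least `2 ^ 20`. -/
def symZ (zt : DT) (i : ℕ) (row : DL) : Bool :=
  DL.rec (motive := fun _ => Bool) true (fun h _ l _ =>
    rForce (Nat.div i (nat_lit 67108864)) fun k0 =>
    rForce (Nat.mod (Nat.div i (nat_lit 8192)) (nat_lit 8192)) fun j0 =>
    rForce (Nat.mod i (nat_lit 8192)) fun j1 =>
    rForce (Nat.mod (Nat.div h (nat_lit 512)) (nat_lit 512)) fun o0 =>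
    rForce (Nat.mod h (nat_lit 512)) fun o1 =>
    rForce (Nat.div (optA k0 o0) (nat_lit 72)) fun k1 =>
    rAnd (Nat.ble (nat_lit 1048576) h) (rAnd (oInt k0 o0 j0) (rAnd (oInt k1 o1 j1)
      (rForce (Nat.div (optA k1 o1) (nat_lit 72)) fun k2 =>
        rForce (Nat.div (rv k0) (nat_lit 24)) fun ki =>
        imgS (tM k2) (tM ki) (DT.get zt (zkey (mK k0) (mJ k0 j0) (mJ k1 j1))) l)))) row

end

theorem triOff_mono_check : rAllN (fun k => rAllN (fun o =>
    Nat.ble (triOff k o) (triOff k (Nat.succ o))) (optN k)) 101 = true := by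
  decide +kernel

theorem triOff_mono {k : ℕ} (hk : k < 101) : ∀ {b : ℕ} (_ : b ≤ optN k) {a : ℕ} (_ : a ≤ b),
    triOff k a ≤ triOff k b := by
  intro b
  induction b with
  | zero =>
    intro _ a ha
    rw [Nat.le_zero.1 ha]
  | succ b ih =>
    intro hb a ha
    rcases Nat.lt_or_ge a (b + 1) with h1 | h1
    · have h2 := ih (by omega) (Nat.le_of_lt_succ h1)
      have h3 := Nat.le_of_ble_eq_true (rAllN_iff.1 (rAllN_iff.1 triOff_mono_check k hk) b (by omega))
      exact le_trans h2 h3
    · rw [Nat.le_antisymm ha h1]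

theorem oInt_unique {k o o' j : ℕ} (hk : k < 101) (h : oInt k o j = true) (h' : o' < optN k)
    (h1 : triOff k o' ≤ j) (h2 : j < triOff k (o' + 1)) : o = o' := by
  unfold oInt at h
  obtain ⟨h3, h4⟩ := rAnd_iff.1 h
  obtain ⟨h5, h6⟩ := rAnd_iff.1 h4
  have a1 : o + 1 ≤ optN k := Nat.le_of_ble_eq_true h3
  have a2 : triOff k o ≤ j := Nat.le_of_ble_eq_true h5
  have a3 : j + 1 ≤ triOff k (o + 1) := Nat.le_of_ble_eq_true h6
  rcases Nat.lt_trichotomy o o' with h7 | h7 | h7
  · have := triOff_mono hk (by omega : o' ≤ optN k) (by omega : o + 1 ≤ o')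
    omega
  · exact h7
  · have := triOff_mono hk (by omega : o ≤ optN k) (by omega : o' + 1 ≤ o)
    omega

/-- The first group of a row contains no entry of a token. -/
theorem DL.val_tail {h : ℕ} {r : DR} {l : DL} {x y : ℕ} (h1 : Nat.ble 1048576 h = true)
    (hx : x < 1048576) : DL.val (DL.g h r l) x y = DL.val l x y := by
  have h2 : 1048576 ≤ h := Nat.le_of_ble_eq_true h1
  have h3 : Nat.beq h x = false := by
    rw [Bool.eq_false_iff]
    intro h4
    have := Nat.eq_of_beq_eq_true h4
    omega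
  show DR.val (Bool.rec (motive := fun _ => DR) (DL.grp l x) r (Nat.beq h x)) y = _
  rw [h3]
  rfl

theorem zkey_eq (k s s' : ℕ) : zkey k s s' = s' + 8192 * (s + 8192 * k) := rfl

namespace SMap

variable {F : Type*} (T : SMap F)

/-- A function of the word of a strip. -/
noncomputable def gzN (G : ℕ → ℕ → ℕ → ℕ → ℕ → ℕ → ℕ) (d : F) : ℕ :=
  G (T.kx d) (T.ox d) (T.rs d) (T.kx (T.N d)) (T.ox (T.N d)) (T.rs (T.N d))

/-- A function of a corner. -/
noncomputable def cz (ps : ℕ → ℕ → ℕ → ℕ) (d : F) : ℕ := ps (T.kx d) (T.ox d) (T.rs d)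

theorem X_lt (a : F) : T.X trX a < 1048576 := by
  by_cases h : T.Tri a
  · rw [T.X_tri trX h]
    have h1 := T.rs_tri h
    have h2 := (T.rs_lt_iff a).2 h
    show T.jx a + 1 < 1048576
    omega
  · rw [T.X_big trX h]
    norm_num

theorem relab_win_pos (T : SMap F) {zt : DT} (h : DT.all (symZ zt) zt = true) {a : F}
    (h0 : 0 < T.win zt a) : T.relab.win zt a = T.win zt a := by
  have ha : T.Tri a := by
    by_contra h1
    rw [T.win_left h1] at h0
    exact absurd h0 (lt_irrefl 0)
  have hn : T.Tri (T.N a) := by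
    by_contra h1
    rw [T.win_right h1] at h0
    exact absurd h0 (lt_irrefl 0)
  have jl := T.jx_lt ha
  have jl1 := T.jx_lt hn
  have b0 : T.jx a < 8192 := by
    have := T.rs_tri ha
    have h2 := (T.rs_lt_iff a).2 ha
    omega
  have b1 : T.jx (T.N a) < 8192 := by
    have := T.rs_tri hn
    have h2 := (T.rs_lt_iff (T.N a)).2 hn
    omega
  have ha' : T.relab.Tri a := ha
  have hn' : T.relab.Tri (T.N a) := hn
  rw [T.win_tri ha hn, T.rs_tri ha, T.rs_tri hn] at h0
  rw [T.win_tri ha hn, T.relab.win_tri ha' hn', T.rs_tri ha, T.rs_tri hn, T.relab.rs_tri ha']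
  show DL.val (DT.get zt (zkey (T.relab.kx a) (T.relab.jx a) (T.relab.rs (T.N a))))
    (T.relab.X trX (T.N (T.N a))) (T.relab.X trX (T.I a)) = _
  rw [T.relab.rs_tri hn']
  rcases DT.get_of_all h (zkey (T.kx a) (T.jx a) (T.jx (T.N a))) with h1 | h1
  · rw [h1] at h0
    exact absurd h0 (lt_irrefl 0)
  cases hrow : DT.get zt (zkey (T.kx a) (T.jx a) (T.jx (T.N a))) with
  | nil =>
    rw [hrow] at h0
    exact absurd h0 (lt_irrefl 0)
  | g hh r l =>
    rw [hrow] at h1 h0
    unfold symZ at h1
    simp only [rForce_eq] at h1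
    have e1 : Nat.div (zkey (T.kx a) (T.jx a) (T.jx (T.N a))) 67108864 = T.kx a := by
      rw [zkey_eq]
      show (T.jx (T.N a) + 8192 * (T.jx a + 8192 * T.kx a)) / 67108864 = _
      omega
    have e2 : Nat.mod (Nat.div (zkey (T.kx a) (T.jx a) (T.jx (T.N a))) 8192) 8192 = T.jx a := by
      rw [zkey_eq]
      show (T.jx (T.N a) + 8192 * (T.jx a + 8192 * T.kx a)) / 8192 % 8192 = _
      omega
    have e3 : Nat.mod (zkey (T.kx a) (T.jx a) (T.jx (T.N a))) 8192 = T.jx (T.N a) := by
      rw [zkey_eq]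
      show (T.jx (T.N a) + 8192 * (T.jx a + 8192 * T.kx a)) % 8192 = _
      omega
    rw [e1, e2, e3] at h1
    obtain ⟨hh0, h1⟩ := rAnd_iff.1 h1
    obtain ⟨h2, h3⟩ := rAnd_iff.1 h1
    obtain ⟨h4, h5⟩ := rAnd_iff.1 h3
    have eo := oInt_unique (T.kx_lt a) h2 (T.ox_lt_optN a) jl.2 jl.1
    rw [eo, T.optA_div] at h4
    have eo1 := oInt_unique (T.kx_lt (T.N a)) h4 (T.ox_lt_optN (T.N a)) jl1.2 jl1.1
    rw [eo, T.optA_div, eo1, T.optA_div] at h5
    rw [DL.val_tail hh0 (T.X_lt _)] at h0 ⊢
    have h6 := imgS_sound h5 h0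
    rw [T.relab_kx, T.relab_jx ha, T.relab_jx hn, T.relab_X, T.relab_X, ← h6, T.rv_div]

/-- **The corrections of the windows of a relabelled map.** -/
theorem relab_win (T : SMap F) {zt : DT} (h : DT.all (symZ zt) zt = true) (a : F) :
    T.relab.win zt a = T.win zt a := by
  by_cases h0 : 0 < T.win zt a
  · exact T.relab_win_pos h h0
  · by_cases h1 : 0 < T.relab.win zt a
    · have h2 := T.relab.relab_win_pos h h1
      rw [relab_relab] at h2
      omega
    · omega

end SMap

end Pool.Agent.Lib.MP_5854e1_co
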