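import Pool.Agent.Lib.MP_5854e1_co.QuadTok
import Pool.Agent.Lib.MP_5854e1_co.Third
import Pool.Agent.Lib.MP_5854e1_co.Region
import Pool.Agent.Lib.MP_5854e1_co.MirTab

/-!
# The closure over the quadrilaterals by pairs

The check `sL0` is split by pairs of a shape and an option. The last corner is looked up in the table
`tt` before it is enumerated, and the rows are compared only if the sum of the four values is small.
-/

set_option autoImplicit false
set_option deprecated.oldSectionVars true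

open Equiv Equiv.Perm

namespace Pool.Agent.Lib.MP_5854e1_co

section defs

variable (row mm : ℕ → ℕ → ℕ) (w W off : ℕ) (t : DT)

/-- The records of a shape without values. -/
def zL (k : ℕ) : List ℕ := sL (fun _ _ => nat_lit 0) k

/-- The records of a shape with the target `c`, without values. -/
def zT (k c : ℕ) : List ℕ := sT (fun _ _ => nat_lit 0) k c

/-- The code of the frame and the kind of the last corner, for the frame `f` before it. -/
def uC (f z : ℕ) : ℕ :=
  Nat.add (Nat.mul (nat_lit 3) (mulC f (Nat.mod (Nat.div z (nat_lit 128)) (nat_lit 32))))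
    (Nat.mod (Nat.div z (nat_lit 4096)) (nat_lit 4))

/-- The set of the codes of the last corners, with steps of `L`. -/
def uW (k3 k0 L f : ℕ) : ℕ :=
  rFold (fun z acc => Nat.lor (Nat.shiftLeft (nat_lit 1) (Nat.mul L (uC f z))) acc) (nat_lit 0)
    (zT k3 k0)

/-- The part of one option of the third corner. -/
def uV (k0 L z : ℕ) : ℕ :=
  rLet (Nat.mod z (nat_lit 128)) fun k3 =>
    rLet (Nat.mod (Nat.div z (nat_lit 128)) (nat_lit 32)) fun f =>
      Nat.shiftLeft (uW k3 k0 L f) (Nat.div z (nat_lit 16384))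

/-- For every code the set of the options of the third corner. -/
def uB (k2 k0 L : ℕ) : ℕ :=
  rFold (fun z acc => Nat.lor (uV k0 L z) acc) (nat_lit 0) (zL k2)

/-- The index of the last option. -/
def uT (k3 k0 : ℕ) : ℕ :=
  rFold (fun z acc => Nat.lor (Nat.shiftLeft (Nat.succ (Nat.div z (nat_lit 16384)))
    (Nat.mul (nat_lit 9) (uC (nat_lit 0) z))) acc) (nat_lit 0) (zT k3 k0)

/-- The discrete logarithms modulo 419, nine binary digits each. -/
def uD : ℕ := 0x345a535698fe6cfd6a664804e9b97dfca36aae3348220d849e479c53cc05b7fc0d48766b2c9726bcdba506c321566c4df2841c900b9cca6a11c308f0b95e8039a083952aa0ee236bdbd67245d2acd898ce075d411421e988f921afeb494b1899c16728bca108b24b6819929d5165516a8dca3a2a3133c7b972eadabf4d80ac1cf5782c9c74e4535b5521b3c2f448f06c50ee0cd5a2ba4b6b5dd05593f369bd337ece9c43d8d75a6c245542e00f78662e7df4a0221cd8008ad8812af6b263c4f4a70bb6d17b29275e77884851190c2515db63506a1f26179de0a8c31959f62e8fa9622e72f8f31c570f31801a1341f3f3304d2f2896e81b011a9c5a811d5626a7430ab0de8302a511b1dd75ca385388add235525c38103cbe17c9312d99e28a6ce468915b88a59d965ad315f569338ed81a5e3be84cc56daa813e375f4e18c4d152ff85cf27ce4070fbd71d49765e9397709c2cac344305b02303e23b0f2e6343801337d931428022964e86960b74131aae0dc43224b03dee92b2a27211414656975571065dccbb4cf6f98b29e113c067a522f376850cc2a2f46cb61b32259fcb0686e4646d21072451113ca55030ca9e62b0605a3dd4642e964c4fc678c4812112a9b271204ba0b660668fc459003161962002320040000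

/-- The index of the lowest digit of `y`. -/
def uI (y : ℕ) : ℕ :=
  Nat.mod (Nat.shiftRight uD (Nat.mul (nat_lit 9) (Nat.mod (Nat.gcd y (nat_lit 13407807929942597099574024998205846127479365820592393377723561443721764030073546976801874298166903427690031858186486050853753882811946569946433649006084096))
    (nat_lit 419)))) (nat_lit 512)

/-- A condition for all digits of `y`. -/
def bAll (f : ℕ → Bool) (n : ℕ) : ℕ → Bool :=
  Nat.rec (motive := fun _ => ℕ → Bool) (fun y => Nat.beq y (nat_lit 0))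
    (fun _ ih y => rIf (Nat.beq y (nat_lit 0)) true (rLet (uI y) fun i =>
      rIf (f i) (rLet (Nat.xor y (Nat.shiftLeft (nat_lit 1) i)) ih) false)) n

/-- Twenty-seven times the products, ten binary digits each. -/
def m27 : ℕ := 0x1b0d8511b087288bd360f3439295115f5e9956c1cb79a018723794a6d21c6c288bd06c000d85157d445e9953ccd84392972db0805e68de1c9b6525115f5e995360f34392906c000d85121c6c288bd805e66c1cb9b652872373ccd84392957d445e9951b087288bd0001b0d85179a0172db094a6d8de1c1b0872f4a20001b144363ccd84a50e57d446557a8de1c94a6d72db079a0106c001443621c6c2f4a25115f6557a360f34a50e872379b6526c1cb805e6360f34a50e5115f6557a0001b144361b0872f4a294a6d8723779a016c1cb57d446557a3ccd84a50e21c6c2f4a206c00144369b6528de1c805e672db0288bd1b0870d8510001b72db079a018de1c94a6d3ccd84392957d445e995144360001b2f4a21b0878723794a6d6c1cb79a01360f34a50e5115f6557a6c1cb79a018723794a6d0d8510001b288bd1b08743929360f35e9955115f8de1c94a6d72db079a012f4a21b087144360001b4a50e3ccd86557a57d440d85106c00288bd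21c6c6c1cb805e6872379b6525115f5e995360f3439292f4a221c6c1443606c008de1c9b65272db0805e657d446557a3ccd84a50e872379b6526c1cb805e61443606c002f4a221c6c6557a5115f4a50e360f372db0805e68de1c9b652288bd21c6c0d85106c005e99557d44439293ccd843929360f35e9955115f79a016c1cb94a6d872370001b0d8511b087288bd6557a5115f4a50e360f39b65287237805e66c1cb06c001443621c6c2f4a294a6d8723779a016c1cb4a50e360f36557a5115f144360001b2f4a21b087805e66c1cb9b652872375e9955115f43929360f30d85106c00288bd21c6c5e99557d44439293ccd8805e672db09b6528de1c21c6c288bd06c000d8514a50e3ccd86557a57d4494a6d8de1c79a0172db01b0872f4a20001b1443679a0172db094a6d8de1c439293ccd85e99557d44288bd1b0870d8510001b9b6528de1c805e672db06557a57d444a50e3ccd82f4a221c6c1443606c00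

/-- The record of a pair. -/
def vR (k o : ℕ) : ℕ := sRec row k (flE (optA k o) o)

/-- The values minus the bounds of the corrections. -/
def zr (k o : ℕ) : ℕ := Nat.sub (row k o) (mm k o)

/-- The record of the third corner. -/
def uX (k o : ℕ) : ℕ :=
  rLet (vR (zr row mm) k o) fun r => Nat.add (Nat.mul (nat_lit 240)
    (invC (Nat.mod (Nat.div r (nat_lit 128)) (nat_lit 32)))) (Nat.mul (nat_lit 8192) r)

/-- The records of the kind `c`. -/
def uK (k c : ℕ) : List ℕ :=
  rFold (fun r acc => rIf (Nat.beq (pK r) c) (r :: acc) acc) [] (sL (zr row mm) k)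

/-- The options of the kind `c`, as a set. -/
def uM (k c : ℕ) : ℕ :=
  rFold (fun z acc => Nat.lor (rIf (Nat.beq (pK z) c)
    (Nat.shiftLeft (nat_lit 1) (Nat.div z (nat_lit 16384))) (nat_lit 0)) acc) (nat_lit 0) (zL k)

/-- The comparison of the rows. -/
noncomputable def v4 (k0 k1 k2 k3 o0 o1 o2 o3 : ℕ) : Bool :=
  sEnd w W off t k0 k1 k2 k3 (vR row k0 o0) (vR row k1 o1) (vR row k2 o2) (vR row k3 o3)

/-- The last two corners. -/
noncomputable def v3 (k0 b9 k1 k2 o0 o1 h p2 p3 s i : ℕ) : Bool :=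
  rLet (uX row mm k2 i) fun x => rLet (Nat.mod (Nat.shiftRight x (nat_lit 13)) (nat_lit 128))
    fun k3 => rLet (Nat.sub (Nat.mod (Nat.shiftRight (uT k3 k0)
      (Nat.add (Nat.mod (Nat.shiftRight m27 (Nat.add (Nat.mod x (nat_lit 8192)) h))
        (nat_lit 1024)) b9)) (nat_lit 512)) (nat_lit 1)) fun o =>
          rIf (Nat.ble off (Nat.add s (Nat.add (Nat.mod (Nat.shiftRight x p2) W)
            (Nat.mod (Nat.shiftRight (vR (zr row mm) k3 o) p3) W)))) true
              (v4 row w W off t k0 k1 k2 k3 o0 o1 i o)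

/-- The third corner with the kind `c`. -/
noncomputable def v2c (k0 b e k1 k2 o0 r1 h p2 s y c : ℕ) : Bool :=
  rLet (Nat.land y (uM k2 c)) fun z => rIf (Nat.beq z (nat_lit 0)) true
    (rLet (Nat.add s (sF w W r1 (sB c e))) fun s1 =>
      rLet (Nat.add (nat_lit 23) (Nat.mul w (sB e c))) fun p3 =>
        bAll (v3 row mm w W off t k0 (Nat.mul (nat_lit 9) b) k1 k2 o0 (sO r1) h p2 p3 s1)
          (nat_lit 512) z)

/-- The third corner. -/
noncomputable def v2 (k0 a b e k1 o0 s r1 g : ℕ) : Bool :=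
  rLet (Nat.mod r1 (nat_lit 128)) fun k2 => rLet (optN k2) fun L => rLet (invC g) fun m =>
    rLet (Nat.mod (Nat.shiftRight (uB k2 k0 L) (Nat.mul L (Nat.add (Nat.mul (nat_lit 3) m) b)))
      (Nat.shiftLeft (nat_lit 1) L)) fun y => rIf (Nat.beq y (nat_lit 0)) true
        (rLet (Nat.add (nat_lit 36) (Nat.mul w (sB b a))) fun p2 =>
          rAllN (v2c row mm w W off t k0 b e k1 k2 o0 r1 (Nat.mul (nat_lit 10) m) p2 s y)
            (nat_lit 3))

/-- The second corner. -/
noncomputable def v1 (k0 a b o0 r0 : ℕ) : Bool :=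
  rLet (Nat.mod r0 (nat_lit 128)) fun k1 => rLet (Nat.mod (Nat.div r0 (nat_lit 128)) (nat_lit 32))
    fun f => rLet (pK r0) fun e => rLet (sF w W r0 (sB a b)) fun s =>
      rAll (fun r1 => rLet (pG f r1) (v2 row mm w W off t k0 a b e k1 o0 s r1)) (uK row mm k1 a)

/-- All quadrilaterals with a row of corrections at the pair `(k, o)`. -/
noncomputable def vO (k o : ℕ) : Bool :=
  rLet (vR (zr row mm) k o) fun r0 =>
    rAllN (fun a => rAllN (fun b => DL.rec (motive := fun _ => Bool) true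
      (fun _ _ _ _ => v1 row mm w W off t k a b o r0)
      (DT.get t (fkey k o (sB a b)))) (nat_lit 3)) (nat_lit 3)

/-- All values of a row are at most `M`. -/
noncomputable def vB (M : ℕ) (l : DL) : Bool :=
  DL.all (fun _ r => DR.all (fun _ v => Nat.ble v M) r) l

/-- The bounds of the corrections for a pair. -/
def zC (k o : ℕ) : Bool :=
  rIf (Nat.beq (mm k o) (nat_lit 0)) true (rAllN (fun b =>
    Nat.beq (Nat.add (Nat.mod (Nat.shiftRight (zr row mm k o) (Nat.mul w b)) W)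
      (Nat.mod (Nat.shiftRight (mm k o) (Nat.mul w b)) W))
        (Nat.mod (Nat.shiftRight (row k o) (Nat.mul w b)) W)) (nat_lit 9))

/-- The bounds of the corrections for a key. -/
noncomputable def zB (j : ℕ) (l : DL) : Bool :=
  vB (Nat.mod (Nat.shiftRight (mm (Nat.div j (nat_lit 8192))
    (Nat.mod (Nat.div j (nat_lit 16)) (nat_lit 512))) (Nat.mul w (Nat.mod j (nat_lit 16)))) W) l

end defs

/-! ### Bounds -/

theorem DR.all_mono {f g : ℕ → ℕ → Bool} (h : ∀ x v, f x v = true → g x v = true) {r : DR}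
    (hr : DR.all f r = true) : DR.all g r = true := by
  induction r with
  | nil => rfl
  | e y v r ih =>
    have h' : (Bool.rec (motive := fun _ => Bool) false (DR.all f r) (f y v)) = true := hr
    show (Bool.rec (motive := fun _ => Bool) false (DR.all g r) (g y v)) = true
    cases h1 : f y v with
    | false => rw [h1] at h'; exact absurd h' Bool.false_ne_true
    | true =>
      rw [h1] at h'
      rw [h y v h1]
      exact ih h'

theorem DL.all_mono {f g : ℕ → DR → Bool} (h : ∀ x r, f x r = true → g x r = true) {l : DL}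
    (hl : DL.all f l = true) : DL.all g l = true := by
  induction l with
  | nil => rfl
  | g y r l ih =>
    have h' : (Bool.rec (motive := fun _ => Bool) false (DL.all f l) (f y r)) = true := hl
    show (Bool.rec (motive := fun _ => Bool) false (DL.all g l) (g y r)) = true
    cases h1 : f y r with
    | false => rw [h1] at h'; exact absurd h' Bool.false_ne_true
    | true =>
      rw [h1] at h'
      rw [h y r h1]
      exact ih h'

theorem vB_grp {M : ℕ} {l : DL} (h : vB M l = true) (x : ℕ) :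
    DR.all (fun _ v => Nat.ble v M) (DL.grp l x) = true := by
  rcases DL.grp_of_all h x with h1 | h1
  · rw [h1]
    rfl
  · exact h1

theorem vB_val {M : ℕ} {l : DL} (h : vB M l = true) (x y : ℕ) : DR.val (DL.grp l x) y ≤ M := by
  rcases DR.val_of_all (vB_grp h x) y with h1 | h1
  · rw [h1]
    exact Nat.zero_le _
  · exact Nat.le_of_ble_eq_true h1

/-- If the sum is large nothing has to be checked. -/
theorem chkQ_of_big {Ma Mb Mc Md S : ℕ} {la lb lc ld : DL} (ha : vB Ma la = true)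
    (hb : vB Mb lb = true) (hc : vB Mc lc = true) (hd : vB Md ld = true)
    (hS : Ma + Mb + Mc + Md ≤ S) : chkQ S la lb lc ld = true := by
  refine DL.all_mono (fun x3 r hr => DR.all_mono (fun x0 v0 h0 => ?_) hr) ha
  have e0 : v0 ≤ Ma := Nat.le_of_ble_eq_true h0
  refine rAnd_iff.2 ⟨Nat.ble_eq_true_of_le (by omega), rAnd_iff.2 ⟨?_, ?_⟩⟩
  · refine DL.all_mono (fun _ r2 hr2 => DR.all_mono (fun _ v2 h2 => ?_) hr2) hc
    have e2 : v2 ≤ Mc := Nat.le_of_ble_eq_true h2
    exact Nat.ble_eq_true_of_le (by show v0 + v2 ≤ S; omega)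
  · refine DR.all_mono (fun x1 v1 h1 => ?_) (vB_grp hb x0)
    have e1 : v1 ≤ Mb := Nat.le_of_ble_eq_true h1
    refine rAnd_iff.2 ⟨Nat.ble_eq_true_of_le (by show v0 + v1 ≤ S; omega), ?_⟩
    refine DR.all_mono (fun x2 v2 h2 => ?_) (vB_grp hc x1)
    have e2 : v2 ≤ Mc := Nat.le_of_ble_eq_true h2
    have e3 := vB_val hd x2 x3
    refine Nat.ble_eq_true_of_le ?_
    show v0 + v1 + (v2 + DR.val (DL.grp ld x2) x3) ≤ S
    omega

/-! ### Facts from the tables -/

/-- The entry `x` of the shape `k`. -/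
def vFact (k x : ℕ) : Bool :=
  rLet (Nat.div x 16384) fun c => rAnd (Nat.ble (Nat.succ (Nat.mod x 512)) (optN k))
    (rAnd (Nat.beq (flE (optA k (Nat.mod x 512)) (Nat.mod x 512)) x)
      (rAnd (Nat.ble (Nat.succ c) 101)
        (rAnd (Nat.ble (Nat.succ (Nat.mod (Nat.div x 512) 32)) 24)
          (Nat.beq (Nat.mod (Nat.shiftRight (uT k c) (Nat.mul 9
            (Nat.add (Nat.mul 3 (Nat.mod (Nat.div x 512) 32))
              (Nat.mod (optA k (Nat.mod x 512)) 3)))) 512) (Nat.succ (Nat.mod x 512))))))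

theorem vFact_all : ((List.range 101).all fun k => (fl k).all fun x => vFact k x) = true := by
  decide +kernel

theorem invC_lt : ∀ a < 24, invC a < 24 := by decide +kernel

theorem invC_of_mulC : ∀ a < 24, ∀ b < 24, mulC a b = 0 → b = invC a := by decide +kernel

theorem m27_eq : ∀ a < 24, ∀ b < 24, Nat.mod (Nat.shiftRight m27 (Nat.add (Nat.mul 240 a)
    (Nat.mul 10 b))) 1024 = 27 * mulC a b := by decide +kernel

theorem invC_inv : ∀ a < 24, ∀ b < 24, invC (mulC a b) = mulC (invC b) (invC a) := by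
  decide +kernel

theorem invC_of_mulC3 : ∀ a < 24, ∀ b < 24, ∀ c < 24, mulC (mulC a b) c = 0 →
    mulC b c = invC a := by decide +kernel

/-! ### Records -/

theorem sL_mem {row : ℕ → ℕ → ℕ} {k r : ℕ} (h : r ∈ sL row k) :
    ∃ x ∈ fl k, r = sRec row k x := by
  have e : ∀ l : List ℕ, rFold (fun x acc => rCons (sRec row k x) acc) [] l =
      l.map (sRec row k) := by
    intro l
    induction l with
    | nil => rfl
    | cons x l ih =>
      show rCons (sRec row k x) (rFold (fun x acc => rCons (sRec row k x) acc) [] l) = _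
      rw [ih, rCons_eq]
      rfl
  have h' : r ∈ (fl k).map (sRec row k) := by
    rw [← e]
    exact h
  obtain ⟨x, hx, rfl⟩ := List.mem_map.1 h'
  exact ⟨x, hx, rfl⟩

theorem sT_mem {row : ℕ → ℕ → ℕ} {k c r : ℕ} (h : r ∈ sT row k c) :
    r ∈ sL row k ∧ r % 128 = c := by
  have e : ∀ l : List ℕ, r ∈ rFold (fun x acc => rIf (Nat.beq (Nat.mod x (nat_lit 128)) c)
      (x :: acc) acc) [] l → r ∈ l ∧ r % 128 = c := by
    intro l
    induction l with
    | nil => exact fun h => absurd h List.not_mem_nil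
    | cons x l ih =>
      intro h
      have h' : r ∈ rIf (Nat.beq (Nat.mod x (nat_lit 128)) c)
        (x :: rFold (fun x acc => rIf (Nat.beq (Nat.mod x (nat_lit 128)) c) (x :: acc) acc) [] l)
        (rFold (fun x acc => rIf (Nat.beq (Nat.mod x (nat_lit 128)) c) (x :: acc) acc) [] l) := h
      cases hb : Nat.beq (Nat.mod x (nat_lit 128)) c with
      | false =>
        rw [hb] at h'
        obtain ⟨h1, h2⟩ := ih h'
        exact ⟨List.mem_cons_of_mem _ h1, h2⟩
      | true =>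
        rw [hb] at h'
        rcases List.mem_cons.1 h' with h1 | h1
        · rw [h1]
          exact ⟨List.mem_cons_self, Nat.eq_of_beq_eq_true hb⟩
        · obtain ⟨h1, h2⟩ := ih h1
          exact ⟨List.mem_cons_of_mem _ h1, h2⟩
  exact e _ h

/-- The fields of a record. -/
theorem rec_fact {row : ℕ → ℕ → ℕ} {k r : ℕ} (hk : k < 101) (h : r ∈ sL row k) :
    sO r < optN k ∧ r = vR row k (sO r) ∧ r / 8388608 = row k (sO r) ∧ r % 128 < 101 ∧
      r / 128 % 32 < 24 ∧ r / 4096 % 4 < 3 ∧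
      (uT k (r % 128) >>> (9 * (3 * (r / 128 % 32) + r / 4096 % 4))) % 512 = sO r + 1 ∧
      ∃ z ∈ zL k, z % 128 = r % 128 ∧ z / 128 % 32 = r / 128 % 32 ∧
        z / 4096 % 4 = r / 4096 % 4 ∧ z / 16384 = sO r := by
  obtain ⟨x, hx, rfl⟩ := sL_mem h
  have h1 := List.all_eq_true.1 (List.all_eq_true.1 vFact_all k (List.mem_range.2 hk)) x hx
  unfold vFact at h1
  rw [rLet_eq] at h1
  obtain ⟨a1, h2⟩ := rAnd_iff.1 h1
  obtain ⟨a2, h3⟩ := rAnd_iff.1 h2
  obtain ⟨a3, h4⟩ := rAnd_iff.1 h3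
  obtain ⟨a4, a5⟩ := rAnd_iff.1 h4
  have b1 : x % 512 < optN k := Nat.le_of_ble_eq_true a1
  have b2 : flE (optA k (x % 512)) (x % 512) = x := Nat.eq_of_beq_eq_true a2
  have b3 : x / 16384 < 101 := Nat.le_of_ble_eq_true a3
  have b4 : x / 512 % 32 < 24 := Nat.le_of_ble_eq_true a4
  have b5 : (uT k (x / 16384) >>> (9 * (3 * (x / 512 % 32) + optA k (x % 512) % 3))) % 512 =
      x % 512 + 1 := Nat.eq_of_beq_eq_true a5
  obtain ⟨f1, f2, f3, f4, f5⟩ := sRec_fields (row := row) (k := k) (x := x) (by omega)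
  obtain ⟨g1, g2, g3, g4, g5⟩ := sRec_fields (row := fun _ _ => 0) (k := k) (x := x) (by omega)
  have f4' : sO (sRec row k x) = x % 512 := f4
  refine ⟨by rw [f4']; exact b1, ?_, by rw [f4']; exact f5, by rw [f1]; exact b3,
    by rw [f2]; exact b4, ?_, ?_, ?_⟩
  · rw [f4']
    unfold vR
    rw [b2]
  · rw [f3]
    exact Nat.mod_lt _ (by norm_num)
  · rw [f1, f2, f3, f4']
    exact b5
  · refine ⟨sRec (fun _ _ => 0) k x, mem_sL hx, by rw [g1, f1], by rw [g2, f2], by rw [g3, f3], ?_⟩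
    rw [f4', ← g4]
    have g5' : sRec (fun _ _ => 0) k x / 8388608 = 0 := g5
    omega

/-! ### Sets of digits -/

theorem lor_fold {h : ℕ → ℕ} {p : ℕ} : ∀ {l : List ℕ}, (∃ a ∈ l, (h a).testBit p = true) →
    (rFold (fun a acc => Nat.lor (h a) acc) (nat_lit 0) l).testBit p = true := by
  intro l
  induction l with
  | nil => rintro ⟨a, h1, -⟩; exact absurd h1 List.not_mem_nil
  | cons c l ih =>
    rintro ⟨a, h1, h2⟩
    show (h c ||| rFold (fun a acc => Nat.lor (h a) acc) (nat_lit 0) l).testBit p = true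
    rw [Nat.testBit_or, Bool.or_eq_true]
    rcases List.mem_cons.1 h1 with rfl | h3
    · exact Or.inl h2
    · exact Or.inr (ih ⟨a, h3, h2⟩)

theorem bAll_sound {f : ℕ → Bool} : ∀ {n y : ℕ}, bAll f n y = true →
    ∀ i, y.testBit i = true → f i = true := by
  intro n
  induction n with
  | zero =>
    intro y h i hi
    have h0 : y = 0 := Nat.eq_of_beq_eq_true h
    rw [h0, Nat.zero_testBit] at hi
    exact absurd hi Bool.false_ne_true
  | succ n ih =>
    intro y h i hi
    have h' : rIf (Nat.beq y (nat_lit 0)) true (rLet (uI y) fun i =>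
      rIf (f i) (rLet (Nat.xor y (Nat.shiftLeft (nat_lit 1) i)) (bAll f n)) false) = true := h
    cases hb : Nat.beq y (nat_lit 0) with
    | true =>
      rw [Nat.eq_of_beq_eq_true hb, Nat.zero_testBit] at hi
      exact absurd hi Bool.false_ne_true
    | false =>
      rw [hb, rIf_false, rLet_eq, rLet_eq] at h'
      generalize uI y = m at h'
      cases hf : f m with
      | false => rw [hf] at h'; exact absurd h' Bool.false_ne_true
      | true =>
        rw [hf, rIf_true] at h'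
        by_cases him : i = m
        · rw [him]
          exact hf
        · refine ih h' i ?_
          show (y ^^^ (1 <<< m)).testBit i = true
          rw [Nat.testBit_xor, hi, Nat.one_shiftLeft, Nat.testBit_two_pow_of_ne (Ne.symm him)]
          rfl

theorem uB_bit {k2 k0 L z2 z3 : ℕ} (h2 : z2 ∈ zL k2) (h3 : z3 ∈ zT (z2 % 128) k0) :
    (uB k2 k0 L).testBit (L * (3 * mulC (z2 / 128 % 32) (z3 / 128 % 32) + z3 / 4096 % 4) +
      z2 / 16384) = true := by
  refine lor_fold (h := uV k0 L) ⟨z2, h2, ?_⟩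
  unfold uV
  rw [rLet_eq, rLet_eq]
  show (uW (z2 % 128) k0 L (z2 / 128 % 32) <<< (z2 / 16384)).testBit _ = true
  rw [Nat.testBit_shiftLeft]
  rw [Nat.add_sub_cancel]
  have h4 : (uW (z2 % 128) k0 L (z2 / 128 % 32)).testBit
      (L * (3 * mulC (z2 / 128 % 32) (z3 / 128 % 32) + z3 / 4096 % 4)) = true := by
    refine lor_fold (h := fun z => Nat.shiftLeft (nat_lit 1) (Nat.mul L (uC (z2 / 128 % 32) z)))
      ⟨z3, h3, ?_⟩
    show (1 <<< (L * (3 * mulC (z2 / 128 % 32) (z3 / 128 % 32) + z3 / 4096 % 4))).testBit _ = true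
    rw [Nat.one_shiftLeft, Nat.testBit_two_pow_self]
  rw [h4, Bool.and_true]
  exact decide_eq_true (Nat.le_add_left _ _)

theorem uM_bit {k c z : ℕ} (hz : z ∈ zL k) (hc : pK z = c) :
    (uM k c).testBit (z / 16384) = true := by
  refine lor_fold (h := fun z => rIf (Nat.beq (pK z) c)
    (Nat.shiftLeft (nat_lit 1) (Nat.div z (nat_lit 16384))) (nat_lit 0)) ⟨z, hz, ?_⟩
  show (rIf (Nat.beq (pK z) c) (1 <<< (z / 16384)) 0).testBit (z / 16384) = true
  rw [beq_of_eq hc, rIf_true, Nat.one_shiftLeft, Nat.testBit_two_pow_self]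

/-- The same record with other values. -/
theorem rec_twin {row row' : ℕ → ℕ → ℕ} {k r : ℕ} (hk : k < 101) (h : r ∈ sL row k) :
    vR row' k (sO r) ∈ sL row' k ∧ vR row' k (sO r) % 128 = r % 128 ∧
      vR row' k (sO r) / 128 % 32 = r / 128 % 32 ∧
      vR row' k (sO r) / 4096 % 4 = r / 4096 % 4 ∧ sO (vR row' k (sO r)) = sO r := by
  obtain ⟨x, hx, rfl⟩ := sL_mem h
  have h1 := List.all_eq_true.1 (List.all_eq_true.1 vFact_all k (List.mem_range.2 hk)) x hx
  unfold vFact at h1
  rw [rLet_eq] at h1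
  obtain ⟨a1, h2⟩ := rAnd_iff.1 h1
  obtain ⟨a2, h3⟩ := rAnd_iff.1 h2
  obtain ⟨a3, h4⟩ := rAnd_iff.1 h3
  have b2 : flE (optA k (x % 512)) (x % 512) = x := Nat.eq_of_beq_eq_true a2
  have b3 : x / 16384 < 101 := Nat.le_of_ble_eq_true a3
  obtain ⟨f1, f2, f3, f4, f5⟩ := sRec_fields (row := row) (k := k) (x := x) (by omega)
  obtain ⟨g1, g2, g3, g4, g5⟩ := sRec_fields (row := row') (k := k) (x := x) (by omega)
  have f4' : sO (sRec row k x) = x % 512 := f4
  have g4' : sO (sRec row' k x) = x % 512 := g4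
  have e : vR row' k (sO (sRec row k x)) = sRec row' k x := by
    rw [f4']
    unfold vR
    rw [b2]
  rw [e]
  exact ⟨mem_sL hx, by rw [g1, f1], by rw [g2, f2], by rw [g3, f3], by rw [g4', f4']⟩

theorem uK_mem {row mm : ℕ → ℕ → ℕ} {k c r : ℕ} (h : r ∈ sL (zr row mm) k) (hc : pK r = c) :
    r ∈ uK row mm k c :=
  mem_rFilter (f := fun r => Nat.beq (pK r) c) (beq_of_eq hc) h

/-! ### Soundness -/

section sound

variable {row mm : ℕ → ℕ → ℕ} {w W off : ℕ} {t : DT}

/-- The checks of the bounds. -/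
structure ZOK (row mm : ℕ → ℕ → ℕ) (w W : ℕ) (t : DT) : Prop where
  pair : ∀ k < 101, ∀ o < optN k, zC row mm w W k o = true
  key : DT.all (zB mm w W) t = true

/-- A value of a pair. -/
def fb (F : ℕ → ℕ → ℕ) (w W k o b : ℕ) : ℕ := (F k o >>> (w * b)) % W

theorem ZOK.add (h : ZOK row mm w W t) {k o b : ℕ} (hk : k < 101) (ho : o < optN k) (hb : b < 9) :
    fb (zr row mm) w W k o b + fb mm w W k o b = fb row w W k o b := by
  have h1 := h.pair k hk o ho
  unfold zC at h1
  cases h2 : Nat.beq (mm k o) (nat_lit 0) with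
  | true =>
    have h3 : mm k o = 0 := Nat.eq_of_beq_eq_true h2
    unfold fb zr
    rw [h3, Nat.zero_shiftRight, Nat.zero_mod]
    rfl
  | false =>
    rw [h2, rIf_false] at h1
    exact Nat.eq_of_beq_eq_true (rAllN_iff.1 h1 b hb)

theorem ZOK.bnd (h : ZOK row mm w W t) {k o b : ℕ} (ho : o < optN k) (hb : b < 9) :
    vB (fb mm w W k o b) (DT.get t (fkey k o b)) = true := by
  rcases DT.get_of_all h.key (fkey k o b) with h1 | h1
  · rw [h1]
    rfl
  · have ho' : o < 512 := ho.trans (Nat.mod_lt _ (by norm_num))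
    have e0 : fkey k o b = b + 16 * (o + 512 * k) := rfl
    have e1 : Nat.div (fkey k o b) (nat_lit 8192) = k := by
      show fkey k o b / 8192 = k
      rw [e0]; omega
    have e2 : Nat.mod (Nat.div (fkey k o b) (nat_lit 16)) (nat_lit 512) = o := by
      show fkey k o b / 16 % 512 = o
      rw [e0]; omega
    have e3 : Nat.mod (fkey k o b) (nat_lit 16) = b := by
      show fkey k o b % 16 = b
      rw [e0]; omega
    unfold zB at h1
    rw [e1, e2, e3] at h1
    exact h1

theorem sF_eq {row : ℕ → ℕ → ℕ} {k r : ℕ} (hk : k < 101) (h : r ∈ sL row k) (b : ℕ) :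
    sF w W r b = fb row w W k (sO r) b := by
  obtain ⟨-, -, h1, -⟩ := rec_fact hk h
  show (r / 8388608) >>> (w * b) % W = _
  rw [h1]
  rfl

theorem sB_lt {a b : ℕ} (ha : a < 3) (hb : b < 3) : sB a b < 9 := by
  show 3 * a + b < 9
  omega

/-- The end of the check with large values. -/
theorem sEnd_of_big (hz : ZOK row mm w W t) {k0 k1 k2 k3 r0 r1 r2 r3 : ℕ}
    (hk0 : k0 < 101) (hk1 : k1 < 101) (hk2 : k2 < 101) (hk3 : k3 < 101)
    (h0 : r0 ∈ sL row k0) (h1 : r1 ∈ sL row k1) (h2 : r2 ∈ sL row k2) (h3 : r3 ∈ sL row k3)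
    (hS : off ≤ fb (zr row mm) w W k0 (sO r0) (sB (pK r1) (pK r3)) +
      fb (zr row mm) w W k1 (sO r1) (sB (pK r2) (pK r0)) +
      (fb (zr row mm) w W k2 (sO r2) (sB (pK r3) (pK r1)) +
      fb (zr row mm) w W k3 (sO r3) (sB (pK r0) (pK r2)))) :
    sEnd w W off t k0 k1 k2 k3 r0 r1 r2 r3 = true := by
  unfold sEnd
  rw [rLet_eq, sF_eq hk0 h0, sF_eq hk1 h1, sF_eq hk2 h2, sF_eq hk3 h3]
  obtain ⟨l0, -, -, -, -, c0, -⟩ := rec_fact hk0 h0
  obtain ⟨l1, -, -, -, -, c1, -⟩ := rec_fact hk1 h1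
  obtain ⟨l2, -, -, -, -, c2, -⟩ := rec_fact hk2 h2
  obtain ⟨l3, -, -, -, -, c3, -⟩ := rec_fact hk3 h3
  have b0 := sB_lt (show pK r1 < 3 from c1) (show pK r3 < 3 from c3)
  have b1 := sB_lt (show pK r2 < 3 from c2) (show pK r0 < 3 from c0)
  have b2 := sB_lt (show pK r3 < 3 from c3) (show pK r1 < 3 from c1)
  have b3 := sB_lt (show pK r0 < 3 from c0) (show pK r2 < 3 from c2)
  refine chkQ_of_big (hz.bnd l0 b0) (hz.bnd l1 b1) (hz.bnd l2 b2) (hz.bnd l3 b3) ?_
  have e0 := hz.add hk0 l0 b0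
  have e1 := hz.add hk1 l1 b1
  have e2 := hz.add hk2 l2 b2
  have e3 := hz.add hk3 l3 b3
  show _ ≤ fb row w W k0 (sO r0) (sB (pK r1) (pK r3)) + fb row w W k1 (sO r1) (sB (pK r2) (pK r0)) +
    (fb row w W k2 (sO r2) (sB (pK r3) (pK r1)) + fb row w W k3 (sO r3) (sB (pK r0) (pK r2))) - off
  omega

theorem invC_le (a : ℕ) : invC a < 32 := Nat.mod_lt _ (by norm_num)

theorem shift_rec {r j : ℕ} (p : ℕ) : (240 * j + 8192 * r) >>> (36 + p) =
    ((240 * j + 8192 * r) / 8192 / 8388608) >>> p := by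
  rw [show 36 + p = 13 + (23 + p) by ring, Nat.shiftRight_add, Nat.shiftRight_add,
    Nat.shiftRight_eq_div_pow _ 13, Nat.shiftRight_eq_div_pow _ 23]

theorem v3_sound (hz : ZOK row mm w W t) {k0 k1 k2 o0 r0 r1 r2 r3 g p2 p3 s : ℕ}
    (hk0 : k0 < 101) (hk1 : k1 < 101) (hk2 : k2 < 101)
    (h0 : r0 ∈ sL row k0) (h1 : r1 ∈ sL row k1) (h2 : r2 ∈ sL row k2)
    (h3 : r3 ∈ sL row (r2 % 128)) (hm : r3 % 128 = k0) (hg : g < 24)
    (hf : r3 / 128 % 32 = invC (pG g r2)) (ho : o0 = sO r0)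
    (hp2 : p2 = 36 + w * sB (pK r3) (pK r1)) (hp3 : p3 = 23 + w * sB (pK r0) (pK r2))
    (hs : s = fb (zr row mm) w W k0 (sO r0) (sB (pK r1) (pK r3)) +
      fb (zr row mm) w W k1 (sO r1) (sB (pK r2) (pK r0)))
    (h : v3 row mm w W off t k0 (Nat.mul 9 (r3 / 4096 % 4)) k1 k2 o0 (sO r1)
      (Nat.mul 10 (invC g)) p2 p3 s (sO r2) = true) :
    sEnd w W off t k0 k1 k2 (r2 % 128) r0 r1 r2 r3 = true := by
  obtain ⟨-, e0, -, -⟩ := rec_fact hk0 h0
  obtain ⟨-, e1, -, -⟩ := rec_fact hk1 h1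
  obtain ⟨-, e2, -, c1, c2, -⟩ := rec_fact hk2 h2
  obtain ⟨-, e3, -, -, -, -, d4, -⟩ := rec_fact c1 h3
  obtain ⟨t2, t3, t4, t5, t6⟩ := rec_twin (row' := zr row mm) hk2 h2
  obtain ⟨u2, u3, u4, u5, u6⟩ := rec_twin (row' := zr row mm) c1 h3
  have hil := invC_le (r2 / 128 % 32)
  unfold v3 at h
  have ex : uX row mm k2 (sO r2) = 240 * invC (r2 / 128 % 32) +
      8192 * vR (zr row mm) k2 (sO r2) := by
    unfold uX
    rw [rLet_eq]
    show 240 * invC (vR (zr row mm) k2 (sO r2) / 128 % 32) + _ = _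
    rw [t4]
    rfl
  rw [rLet_eq, ex, rLet_eq, rLet_eq] at h
  have ed : (240 * invC (r2 / 128 % 32) + 8192 * vR (zr row mm) k2 (sO r2)) / 8192 =
      vR (zr row mm) k2 (sO r2) := by
    clear h e0 e1 e2 e3 d4 t2 t3 t4 t5 t6 u2 u3 u4 u5 u6 hs hf hm
    omega
  have ek : Nat.mod (Nat.shiftRight (240 * invC (r2 / 128 % 32) +
      8192 * vR (zr row mm) k2 (sO r2)) (nat_lit 13)) (nat_lit 128) = r2 % 128 := by
    show ((240 * invC (r2 / 128 % 32) + 8192 * vR (zr row mm) k2 (sO r2)) >>> 13) % 128 = _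
    rw [← t3, Nat.shiftRight_eq_div_pow, show (2 : ℕ) ^ 13 = 8192 by norm_num, ed]
  have em : Nat.mod (240 * invC (r2 / 128 % 32) + 8192 * vR (zr row mm) k2 (sO r2))
      (nat_lit 8192) = Nat.mul 240 (invC (r2 / 128 % 32)) := by
    show (240 * invC (r2 / 128 % 32) + 8192 * vR (zr row mm) k2 (sO r2)) % 8192 = 240 * _
    omega
  rw [ek, em] at h
  have e7 := m27_eq _ (invC_lt _ c2) _ (invC_lt _ hg)
  rw [show Nat.mod (Nat.shiftRight m27 (Nat.add (Nat.mul 240 (invC (r2 / 128 % 32)))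
      (Nat.mul 10 (invC g)))) (nat_lit 1024) = 27 * mulC (invC (r2 / 128 % 32)) (invC g) from e7]
    at h
  have e8 : mulC (invC (r2 / 128 % 32)) (invC g) = r3 / 128 % 32 := by
    rw [hf]
    exact (invC_inv _ hg _ c2).symm
  have e9 : Nat.sub (Nat.mod (Nat.shiftRight (uT (r2 % 128) k0)
      (Nat.add (27 * mulC (invC (r2 / 128 % 32)) (invC g)) (Nat.mul 9 (r3 / 4096 % 4))))
        (nat_lit 512)) (nat_lit 1) = sO r3 := by
    show (uT (r2 % 128) k0 >>> (27 * mulC (invC (r2 / 128 % 32)) (invC g) +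
      9 * (r3 / 4096 % 4))) % 512 - 1 = sO r3
    rw [e8, show 27 * (r3 / 128 % 32) + 9 * (r3 / 4096 % 4) =
      9 * (3 * (r3 / 128 % 32) + r3 / 4096 % 4) by ring, ← hm, d4]
    rfl
  rw [e9] at h
  have e10 : Nat.mod (Nat.shiftRight (240 * invC (r2 / 128 % 32) +
      8192 * vR (zr row mm) k2 (sO r2)) p2) W =
        fb (zr row mm) w W k2 (sO r2) (sB (pK r3) (pK r1)) := by
    show ((240 * invC (r2 / 128 % 32) + 8192 * vR (zr row mm) k2 (sO r2)) >>> p2) % W = _
    rw [hp2, shift_rec, ed]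
    have e12 := sF_eq (w := w) (W := W) hk2 t2 (sB (pK r3) (pK r1))
    rw [t6] at e12
    exact e12
  have e13 : Nat.mod (Nat.shiftRight (vR (zr row mm) (r2 % 128) (sO r3)) p3) W =
      fb (zr row mm) w W (r2 % 128) (sO r3) (sB (pK r0) (pK r2)) := by
    show (vR (zr row mm) (r2 % 128) (sO r3) >>> p3) % W = _
    rw [hp3, Nat.shiftRight_add, Nat.shiftRight_eq_div_pow _ 23]
    have e12 := sF_eq (w := w) (W := W) c1 u2 (sB (pK r0) (pK r2))
    rw [u6] at e12
    exact e12
  rw [e10, e13, hs] at h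
  cases hb : Nat.ble off (Nat.add (fb (zr row mm) w W k0 (sO r0) (sB (pK r1) (pK r3)) +
      fb (zr row mm) w W k1 (sO r1) (sB (pK r2) (pK r0)))
      (Nat.add (fb (zr row mm) w W k2 (sO r2) (sB (pK r3) (pK r1)))
        (fb (zr row mm) w W (r2 % 128) (sO r3) (sB (pK r0) (pK r2))))) with
  | true => exact sEnd_of_big hz hk0 hk1 hk2 c1 h0 h1 h2 h3 (Nat.le_of_ble_eq_true hb)
  | false =>
    rw [hb, rIf_false] at h
    unfold v4 at h
    rw [ho, ← e0, ← e1, ← e2, ← e3] at h
    exact h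

theorem v2_sound (hz : ZOK row mm w W t) {k0 k1 b o0 r0 r1 r1' g s : ℕ}
    (hk0 : k0 < 101) (hk1 : k1 < 101) (h0 : r0 ∈ sL row k0) (h1 : r1 ∈ sL row k1)
    (hr1 : r1' = vR (zr row mm) k1 (sO r1)) (hg : g < 24) (ho : o0 = sO r0)
    (hs : s = fb (zr row mm) w W k0 (sO r0) (sB (pK r1) b))
    (h : v2 row mm w W off t k0 (pK r1) b (pK r0) k1 o0 s r1' g = true) :
    sL2 row w W off t k0 b k1 r0 r1 g = true := by
  obtain ⟨-, e1, -, hk2, -, q1, -⟩ := rec_fact hk1 h1
  obtain ⟨-, -, -, -, -, q0, -⟩ := rec_fact hk0 h0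
  obtain ⟨t2, t3, t4, t5, t6⟩ := rec_twin (row' := zr row mm) hk1 h1
  rw [← hr1] at t2 t3 t4 t5 t6
  unfold v2 at h
  unfold sL2
  rw [rLet_eq, rLet_eq, rLet_eq, rLet_eq] at h
  rw [rLet_eq]
  refine rAll_iff.2 fun r2 hr2 => ?_
  rw [rLet_eq]
  refine rAll_iff.2 fun r3 hr3 => ?_
  obtain ⟨h3, hm⟩ := sT_mem hr3
  obtain ⟨l2, e2, -, c1, c2, c3, -, z2, hz2, y1, y2, y3, y4⟩ := rec_fact hk2 hr2
  obtain ⟨l3, e3, -, d1, d2, d3, d4, z3, hz3, x1, x2, x3, x4⟩ := rec_fact c1 h3
  cases e4 : Nat.beq (pK r3) b with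
  | false => rfl
  | true =>
    have e4' : r3 / 4096 % 4 = b := Nat.eq_of_beq_eq_true e4
    cases e5 : Nat.beq (pG (pG g r2) r3) (nat_lit 0) with
    | false => rfl
    | true =>
      rw [rIf_true, rIf_true]
      have e2' : mulC (mulC g (r2 / 128 % 32)) (r3 / 128 % 32) = 0 := Nat.eq_of_beq_eq_true e5
      have hg2 : mulC g (r2 / 128 % 32) < 24 := mulC_lt _ hg _ c2
      have hf : r3 / 128 % 32 = invC (pG g r2) := invC_of_mulC _ hg2 _ d2 e2'
      have hi : mulC (r2 / 128 % 32) (r3 / 128 % 32) = invC g :=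
        invC_of_mulC3 _ hg _ c2 _ d2 e2'
      have hz3' : z3 ∈ zT (z2 % 128) k0 := by
        rw [y1]
        exact mem_sT hz3 (show z3 % 128 = k0 by rw [x1, hm])
      have hbit := uB_bit (L := optN (r1 % 128)) hz2 hz3'
      rw [y2, x2, x3, y4, hi, e4'] at hbit
      have hl : 1 <<< optN (r1 % 128) = 2 ^ optN (r1 % 128) := Nat.one_shiftLeft _
      have em : Nat.mod r1' (nat_lit 128) = r1 % 128 := t3
      rw [em] at h
      have h5 : rIf (Nat.beq ((uB (r1 % 128) k0 (optN (r1 % 128)) >>> (optN (r1 % 128) *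
          (3 * invC g + b))) % 1 <<< optN (r1 % 128)) 0) true
          (rLet (Nat.add 36 (Nat.mul w (sB b (pK r1)))) fun p2 =>
          rAllN (v2c row mm w W off t k0 b (pK r0) k1 (r1 % 128) o0 r1' (Nat.mul 10 (invC g)) p2 s
            ((uB (r1 % 128) k0 (optN (r1 % 128)) >>> (optN (r1 % 128) *
          (3 * invC g + b))) % 1 <<< optN (r1 % 128))) 3) = true := h
      have hyb : ((uB (r1 % 128) k0 (optN (r1 % 128)) >>> (optN (r1 % 128) *
          (3 * invC g + b))) % 1 <<< optN (r1 % 128)).testBit (sO r2) = true := by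
        rw [hl, Nat.testBit_mod_two_pow, Nat.testBit_shiftRight, hbit]
        simp [l2]
      generalize (uB (r1 % 128) k0 (optN (r1 % 128)) >>> (optN (r1 % 128) *
          (3 * invC g + b))) % 1 <<< optN (r1 % 128) = y at h5 hyb
      cases hy0 : Nat.beq y 0 with
      | true =>
        rw [Nat.eq_of_beq_eq_true hy0, Nat.zero_testBit] at hyb
        exact absurd hyb Bool.false_ne_true
      | false =>
        rw [hy0, rIf_false, rLet_eq] at h5
        have h6 := rAllN_iff.1 h5 (pK r2) c3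
        unfold v2c at h6
        have hzb : (Nat.land y (uM (r1 % 128) (pK r2))).testBit (sO r2) = true := by
          show (y &&& uM (r1 % 128) (pK r2)).testBit (sO r2) = true
          rw [Nat.testBit_and, hyb, Bool.true_and, ← y4]
          exact uM_bit hz2 y3
        rw [rLet_eq] at h6
        cases hz0 : Nat.beq (Nat.land y (uM (r1 % 128) (pK r2))) (nat_lit 0) with
        | true =>
          rw [Nat.eq_of_beq_eq_true hz0, Nat.zero_testBit] at hzb
          exact absurd hzb Bool.false_ne_true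
        | false =>
          rw [hz0, rIf_false, rLet_eq, rLet_eq] at h6
          have h7 := bAll_sound h6 (sO r2) hzb
          rw [t6, ← e4'] at h7
          refine v3_sound hz hk0 hk1 hk2 h0 h1 hr2 h3 hm hg hf ho ?_ rfl ?_ h7
          · rw [e4']
            have : pK r3 = b := e4'
            rw [this]
            rfl
          · rw [sF_eq hk1 t2, t6, hs]
            have : pK r3 = b := e4'
            rw [this]
            rfl

theorem v1_sound (hz : ZOK row mm w W t) {k0 a b r0 r0' : ℕ} (hk0 : k0 < 101)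
    (h0 : r0 ∈ sL row k0) (hr0 : r0' = vR (zr row mm) k0 (sO r0))
    (h : v1 row mm w W off t k0 a b (sO r0) r0' = true) :
    sL1 row w W off t k0 a b r0 = true := by
  obtain ⟨-, -, -, hk1, hf, -⟩ := rec_fact hk0 h0
  obtain ⟨t2, t3, t4, t5, t6⟩ := rec_twin (row' := zr row mm) hk0 h0
  rw [← hr0] at t2 t3 t4 t5 t6
  unfold v1 at h
  unfold sL1
  rw [rLet_eq, rLet_eq, rLet_eq, rLet_eq] at h
  rw [rLet_eq]
  refine rAll_iff.2 fun r1 hr1 => ?_
  obtain ⟨u2, u3, u4, u5, u6⟩ := rec_twin (row' := zr row mm)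
    (show Nat.mod r0 (nat_lit 128) < 101 from hk1) hr1
  obtain ⟨-, -, -, -, c2, -⟩ := rec_fact (show Nat.mod r0 (nat_lit 128) < 101 from hk1) hr1
  cases e1 : Nat.beq (pK r1) a with
  | false => rfl
  | true =>
    have e1' : pK r1 = a := Nat.eq_of_beq_eq_true e1
    rw [rIf_true, rLet_eq]
    have hk : Nat.mod r0' (nat_lit 128) = Nat.mod r0 (nat_lit 128) := t3
    have hfr : Nat.mod (Nat.div r0' (nat_lit 128)) (nat_lit 32) =
        Nat.mod (Nat.div r0 (nat_lit 128)) (nat_lit 32) := t4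
    have hkd : pK r0' = pK r0 := t5
    rw [hk, hfr, hkd] at h
    have hmem : vR (zr row mm) (Nat.mod r0 (nat_lit 128)) (sO r1) ∈
        uK row mm (Nat.mod r0 (nat_lit 128)) a :=
      uK_mem u2 (show pK (vR (zr row mm) (Nat.mod r0 (nat_lit 128)) (sO r1)) = a from
        (show pK (vR (zr row mm) (Nat.mod r0 (nat_lit 128)) (sO r1)) = pK r1 from u5).trans e1')
    have h2 := rAll_iff.1 h _ hmem
    rw [rLet_eq] at h2
    have hg : pG (Nat.mod (Nat.div r0 (nat_lit 128)) (nat_lit 32))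
        (vR (zr row mm) (Nat.mod r0 (nat_lit 128)) (sO r1)) =
          pG (Nat.mod (Nat.div r0 (nat_lit 128)) (nat_lit 32)) r1 := by
      show mulC _ (vR (zr row mm) (Nat.mod r0 (nat_lit 128)) (sO r1) / 128 % 32) =
        mulC _ (r1 / 128 % 32)
      rw [u4]
    rw [hg, ← e1'] at h2
    refine v2_sound hz hk0 (show Nat.mod r0 (nat_lit 128) < 101 from hk1) h0 hr1 rfl
      (mulC_lt _ hf _ c2) rfl ?_ h2
    rw [sF_eq hk0 t2, t6]

/-- **The closure over the quadrilaterals by pairs.** -/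
theorem sL0_of_pairs (hz : ZOK row mm w W t)
    (h : ∀ k < 101, ∀ o < optN k, vO row mm w W off t k o = true) :
    ∀ k < 101, sL0 row w W off t k = true := by
  intro k hk
  refine rAll_iff.2 fun r0 hr0 => rAllN_iff.2 fun a ha => rAllN_iff.2 fun b hb3 => ?_
  obtain ⟨ho, -⟩ := rec_fact hk hr0
  have h1 := h k hk _ ho
  unfold vO at h1
  rw [rLet_eq] at h1
  have h2 := rAllN_iff.1 (rAllN_iff.1 h1 a ha) b hb3
  cases hl : DT.get t (fkey k (sO r0) (sB a b)) with
  | nil => rfl
  | g x r l =>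
    rw [hl] at h2
    exact v1_sound hz hk hr0 rfl h2

end sound

end Pool.Agent.Lib.MP_5854e1_co
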