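import Pool.Agent.Lib.MP_5854e1_co.Cov

/-!
# Lists of checks
-/

set_option autoImplicit false

namespace Pool.Agent.Lib.MP_5854e1_co.PB

/-- All lists of tasks are checked. -/
def RunAll (f : List Tk → Bool) (P : List (List Tk)) : Prop := ∀ l ∈ P, f l = true

theorem RunAll.nil {f : List Tk → Bool} : RunAll f [] := fun _ h => absurd h List.not_mem_nil

theorem RunAll.cons {f : List Tk → Bool} {l : List Tk} {P : List (List Tk)} (h : f l = true)
    (h' : RunAll f P) : RunAll f (l :: P) := fun x hx => by
  rcases List.mem_cons.1 hx with rfl | h1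
  · exact h
  · exact h' x h1

theorem RunAll.append {f : List Tk → Bool} {P Q : List (List Tk)} (h : RunAll f P)
    (h' : RunAll f Q) : RunAll f (P ++ Q) := fun x hx => by
  rcases List.mem_append.1 hx with h1 | h1
  · exact h x h1
  · exact h' x h1

/-- The covering check for all shapes. -/
theorem cov_of_all {P : List (List Tk)} (h : rAllN (covK P) (nat_lit 101) = true) :
    ∀ k < 101, covK P k = true := fun k hk => rAllN_iff.1 h k hk

end Pool.Agent.Lib.MP_5854e1_co.PB
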