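import Pool.Agent.Lib.MP_5854e1_co.RingK

/-!
# The test of the rings around a cell with the further shares is sound
-/

set_option autoImplicit false

open Equiv Equiv.Perm

namespace Pool.Agent.Lib.MP_5854e1_co

open Finset PB CE CE.Cell

universe u

namespace SMap

variable {F : Type*} (T : SMap F) {c : Tabs} {qt pt kt : DT}

/-- What is known after the step at a corner. -/
def KEnd (a : F) (X : ℤ) (M : ℕ) (E V : DR) (G : DR → ℕ → ℕ) : Prop :=
  T.PInv (T.N a) X M E V ∧ (X ≤ M ∨ ∃ v : ℕ, DR.In (T.Ot (T.N a)) v E ∧ X ≤ v) ∧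
    ∀ gl : DR, X ≤ G gl (T.Ot (T.N a)) + DR.val gl (T.Ot a)

/-- The claim of a step. -/
def KStep (c : Tabs) (qt pt kt : DT) (a : F) (h : ℕ) (X : ℤ) (A B : ℕ)
    (K : ℕ → ℕ → DR → DR → (DR → ℕ → ℕ) → ℕ → ℕ → Bool) : Prop :=
  ∃ (h' M' : ℕ) (E' V' : DR) (G' : DR → ℕ → ℕ) (A' B' : ℕ), K h' M' E' V' G' A' B' = true ∧
    (A' : ℤ) - B' = A - B + (T.aS c a + T.aR c a) ∧
    T.fW c h' (T.N a) = T.uW c (T.N a) ∧
    T.KEnd a (X + T.fW c h a + (T.uS c pt a + T.uR c a + T.uZ c qt a) - 2 * (T.vK kt a : ℤ))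
      M' E' V' G'

theorem vK_not_left {a : F} (h : ¬T.Tri (T.N⁻¹ a)) : T.vK kt a = 0 := if_neg fun h1 => h h1.1

theorem vK_not_right {a : F} (h : ¬T.Tri (T.N a)) : T.vK kt a = 0 := if_neg fun h1 => h h1.2.2

theorem vK_not {a : F} (h : ¬T.Tri a) : T.vK kt a = 0 := if_neg fun h1 => h h1.2.1

theorem gpTK_sound {e : F} {h : ℕ} {X : ℤ} {M : ℕ} {E V : DR} {G : DR → ℕ → ℕ} {A B : ℕ}
    {K : ℕ → ℕ → DR → DR → (DR → ℕ → ℕ) → ℕ → ℕ → Bool}
    (hx : ∀ (a : F) {x : ℕ} {r : DR} {l : DL}, T.zr c.zt a = DL.g x r l →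
      Nat.ble 1048576 x = true)
    (ha : T.Tri (T.N e)) (hn : T.Tri (T.N (T.N e))) (hi : T.PInv (T.N e) X M E V)
    (hG : ∀ gl : DR, X ≤ G gl (T.Ot (T.N e)) + DR.val gl (T.Ot e))
    (hg : gpTK c qt pt kt (T.X trX (T.I e)) (T.kx e) (T.sO e) (T.kx (T.N e)) (T.ox (T.N e))
      (T.sO (T.N e)) (T.kx (T.N (T.N e))) (T.ox (T.N (T.N e))) (T.sO (T.N (T.N e)))
      (T.kx (T.N (T.N (T.N e)))) (T.sO (T.N (T.N (T.N e)))) h M E V G A B K = true) :
    T.KStep c qt pt kt (T.N e) h X A B K := by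
  have hb := T.tri_rot ha
  have hc := T.tri_rot hb
  have hn2 := T.tri_rot hn
  have hX := hi.1 ha
  unfold gpTK at hg
  simp only [rForce_eq] at hg
  obtain ⟨β, hβ, hβ1, hβ2⟩ : ∃ β, Nat.ble (nat_lit 7936) (T.sO e) = β ∧
      (T.Tri e → β = false) ∧ (¬T.Tri e → β = true) :=
    ⟨_, rfl, fun h0 => T.ble_sO_tri h0, fun h0 => T.ble_sO_big h0⟩
  rw [hβ] at hg
  clear hβ
  rw [T.sO_tri ha, T.sO_tri hn, T.x0_eq, T.x1_eq (T.N (T.N (T.N e))),
    ← T.rot_k (T.N e), ← T.rot_j ha, ← T.rot_o ha, T.farK_eq ha,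
    T.t3A_jx ha, ← T.rot_j hb, ← T.rot_k (T.N (T.N e)), ← T.rot_j hn, ← T.rot_o hn,
    T.farK_eq hn, T.t3A_jx hn, ← T.rot_j hn2] at hg
  have hx1 : xrT trX (T.kx (T.N (T.N e))) (T.jx (T.N (T.N e))) = T.X trX (T.N (T.N e)) := by
    rw [← T.sO_tri hn]
    exact T.x1_eq _
  rw [hx1] at hg
  have hbT : T.Tri (T.bk (T.N e)) := (T.tri_bk (T.N e)).2 hn
  have hb1 : T.Tri (T.N (T.bk (T.N e))) := (T.tri_N_bk (T.N e)).2 ha
  have hbe := T.bk_tri hn
  have hbk : T.I (T.N (T.I (T.N (T.N (T.N e))))) = T.bk (T.N e) := hbe.symm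
  have w1 : DL.val (DT.get c.zt
      (zkey (T.kx (T.N e)) (T.jx (T.N e)) (T.jx (T.N (T.N e)))))
        (T.X trX (T.N (T.N (T.N e)))) (T.X trX (T.I (T.N e))) = T.win c.zt (T.N e) := by
    rw [T.win_tri ha hn, T.rs_tri ha, T.rs_tri hn]
  rw [hbk, w1, T.cST_eq (c := c) ha, ← T.dl_fst c.t ha, T.cRA_eq (c := c) ha hn,
    T.cRB_eq (c := c) ha hn] at hg
  obtain ⟨tc, hg, htc⟩ := DL.col_sound hg
  obtain ⟨wc, hg, hwc⟩ := DL.col_sound hg
  obtain ⟨M', E', V', G', h1, h2⟩ := rgStepK_sound (T.X_lt13 _) hg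
  obtain ⟨D, hD, h3, h4, h5⟩ := h2 (T.Ot (T.N e)) (T.Ot (T.N (T.N e))) (T.X_lt13 _)
  -- the value of the token with its gain
  have hXD : X - 2 * (T.vK kt (T.N e) : ℤ) ≤ D := by
    rcases hD with rfl | ⟨gl, rfl, hgl⟩
    · have : (0 : ℤ) ≤ T.vK kt (T.N e) := Int.natCast_nonneg _
      linarith
    · have g1 := hgl (T.Ot e) (T.X_lt13 _)
      have g2 := hG gl
      have g3 : DR.val gl (T.Ot e) = 2 * T.vK kt (T.N e) := by
        rw [g1]
        by_cases h0 : T.Tri e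
        · have e0 : T.Tri (T.N⁻¹ (T.N e)) := by
            rw [N_inv_N]
            exact h0
          unfold vK
          rw [if_pos ⟨e0, ha, hn⟩, T.rs_tri ha]
          rw [hβ1 h0, rIf_false]
          unfold sK eR eL
          rw [N_inv_N]
          rfl
        · rw [T.vK_not_left (by rw [N_inv_N]; exact h0)]
          rw [hβ2 h0, rIf_true]
          rfl
      rw [g3] at g2
      push_cast at g2
      linarith
  clear hD h2
  have e2 := T.dl_snd c.t ha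
  have e3 := T.dl_trd c.t ha
  have e5 := T.rv_eq (c := c) 0 hb
  have e7 := T.dl_snd c.tw ha
  have e8 := T.rv_eq (c := c) 1 hb
  have e9 := T.rv_eq (c := c) 2 hb
  have e10 := T.dl_trd c.tw ha
  rw [T.Ot_eq] at e5 e8 e9
  have e11 := T.px'_eq (pt := pt) ha
  have e12 := T.qx_eq (qt := qt) ha hn
  have e13 := htc (T.Ot (T.N e))
  have e14 := hwc (T.Ot (T.N e))
  rw [← e3] at e13
  rw [← e10] at e14
  have r1 := T.rv_eq (c := c) 1 hn2
  rw [T.Ot_eq] at r1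
  have r2 := T.dl_snd c.tw hn
  -- the value of the token, with the column `wc`
  have k4 := le_CnP (sa := T.sP c (T.N e)) (sb := T.dl c.t (T.N e))
    (tb := DL.grp (DT.get c.t (dkey (T.kx (T.I (T.N (T.N e)))) (T.jx (T.I (T.N (T.N e))))))
      (T.X trX (T.N (T.N e)))) (tc := tc)
    (wb := flR h (DL.grp (DT.get c.tw (dkey (T.kx (T.I (T.N (T.N e))))
      (T.jx (T.I (T.N (T.N e)))))) (T.X trX (T.N (T.N e))))) (wc := wc)
    (r0 := DL.grp (DT.get c.rt (dkey (T.kx (T.I (T.N (T.N e)))) (T.jx (T.I (T.N (T.N e)))))) 0)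
    (r1 := flR h (DL.grp (DT.get c.rt (dkey (T.kx (T.I (T.N (T.N e))))
      (T.jx (T.I (T.N (T.N e)))))) 1))
    (r2 := DL.grp (DT.get c.rt (dkey (T.kx (T.I (T.N (T.N e)))) (T.jx (T.I (T.N (T.N e)))))) 2)
    (pr := DL.grp (DT.get pt (dkey (T.kx (T.N e)) (T.jx (T.N e))))
      (dkey (T.X trX (T.I (T.N e))) (T.X trX (T.N (T.N e)))))
    (o := T.Ot (T.N e)) (P := T.uS c pt (T.N e)) hXD
    (fun h6 => by
      unfold uS
      rw [if_pos ha, if_pos (e11.trans h6), ← e2, ← e5]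
      zify at e13
      linarith)
    (fun h6 => by
      unfold uS
      rw [if_pos ha, if_neg (fun h7 => h6 (e11.symm.trans h7)), e11])
  rw [← val_flR_W h _ _ (T.Ot (T.N e)) (T.wW c (T.N e)) (by unfold wW; rw [e7, e8]), ← e9] at k4
  rw [pvK_eq] at h3 h4 h5
  generalize CnP _ _ _ _ _ _ _ _ _ _ _ _ = C at k4 h3 h4 h5
  -- the value of the pair
  have hp : ∀ P : ℕ, P = (if DR.val (DL.grp (DT.get qt (zkey (T.kx (T.N e)) (T.jx (T.N e))
      (T.jx (T.N (T.N e))))) (dkey (T.X trX (T.N (T.N (T.N e)))) (T.X trX (T.I (T.N e)))))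
        (dkey (T.Ot (T.N e)) (T.Ot (T.N (T.N e)))) = 0 then
        C + 3 * DL.val (DL.tl (DT.get c.zt
        (zkey (T.kx (T.bk (T.N e))) (T.jx (T.bk (T.N e))) (T.jx (T.I (T.N (T.N e)))))))
        (T.Ot (T.N e)) (T.Ot (T.N (T.N e)))
      else C + 3 * Nat.sub (Nat.add (T.pP c (T.N e))
            (Nat.add (DR.val (DL.grp (DT.get c.rt (dkey (T.kx (T.I (T.N (T.N e))))
              (T.jx (T.I (T.N (T.N e)))))) 2) (T.Ot (T.N e)))
              (DR.val (DL.grp (DT.get c.rt (dkey (T.kx (T.I (T.N (T.N (T.N e)))))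
                (T.jx (T.I (T.N (T.N (T.N e))))))) 1) (T.Ot (T.N (T.N e))))))
            (Nat.add (T.pM c (T.N e)) (Nat.add (DR.val wc (T.Ot (T.N e)))
              (DR.val (DL.grp (DT.get c.tw (dkey (T.kx (T.I (T.N (T.N (T.N e)))))
                (T.jx (T.I (T.N (T.N (T.N e))))))) (T.X trX (T.N (T.N (T.N e)))))
                  (T.Ot (T.N (T.N e)))))) -
          (DR.val (DL.grp (DT.get qt (zkey (T.kx (T.N e)) (T.jx (T.N e))
            (T.jx (T.N (T.N e))))) (dkey (T.X trX (T.N (T.N (T.N e)))) (T.X trX (T.I (T.N e)))))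
              (dkey (T.Ot (T.N e)) (T.Ot (T.N (T.N e)))) - 1)) →
      X + T.fW c h (T.N e) + (T.uS c pt (T.N e) + T.uR c (T.N e) + T.uZ c qt (T.N e)) -
        2 * (T.vK kt (T.N e) : ℤ) ≤ P := by
    intro P hP
    have h4w : X - 2 * (T.vK kt (T.N e) : ℤ) + T.fW c h (T.N e) + T.uS c pt (T.N e) +
        3 * ((DR.val wc (T.Ot (T.N e)) : ℤ) - T.rv c 2 (T.I (T.N (T.N e)))) ≤ C := by
      refine le_trans (le_of_eq ?_) k4
      unfold fW
      ring
    have eR : T.uR c (T.N e) = 3 * ((T.dl c.tw (T.I (T.N (T.I (T.N (T.N e))))) : ℤ) -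
        T.rv c 2 (T.I (T.N (T.N e)))) := if_pos ⟨ha, hn⟩
    have w2 : T.win c.zt (T.bk (T.N e)) = DL.val (DL.tl (DT.get c.zt
        (zkey (T.kx (T.bk (T.N e))) (T.jx (T.bk (T.N e))) (T.jx (T.I (T.N (T.N e)))))))
        (T.Ot (T.N e)) (T.Ot (T.N (T.N e))) := by
      have e11 : T.zr c.zt (T.bk (T.N e)) = DT.get c.zt
          (zkey (T.kx (T.bk (T.N e))) (T.jx (T.bk (T.N e))) (T.jx (T.I (T.N (T.N e))))) := by
        unfold zr
        rw [T.rs_tri hbT, N_bk, T.rs_tri hb]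
      have e12 : T.I (T.bk (T.N e)) = T.N (T.I (T.N (T.N (T.N e)))) := by
        rw [hbe, I_I]
      rw [T.win_tri hbT hb1]
      show DL.val (T.zr c.zt (T.bk (T.N e))) _ _ = _
      rw [← e11, N_bk, e12]
      cases hrb : T.zr c.zt (T.bk (T.N e)) with
      | nil => rfl
      | g x' r' l' =>
        rw [DL.val_tail (hx _ hrb) (T.X_lt _)]
        rfl
    by_cases hq : T.qx qt (T.N e) = 0
    · have hq' := hq
      rw [e12] at hq'
      have eZ : T.uZ c qt (T.N e) = 3 * (T.win c.zt (T.bk (T.N e)) : ℤ) := by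
        unfold uZ
        rw [if_pos ⟨ha, hn⟩, if_pos hq]
      have hq2 : DR.val (DL.grp (DT.get qt (zkey (T.kx (T.N e)) (T.jx (T.N e))
        (T.jx (T.N (T.N e))))) (dkey (T.X trX (T.N (T.N (T.N e)))) (T.X trX (T.I (T.N e)))))
          (dkey (T.Ot (T.N e)) (T.Ot (T.N (T.N e)))) = 0 := hq'
      rw [if_pos hq2, ← w2] at hP
      rw [hP, eR, eZ]
      push_cast
      zify at e14
      linarith
    · have hq' := hq
      rw [e12] at hq'
      have hq2 : DR.val (DL.grp (DT.get qt (zkey (T.kx (T.N e)) (T.jx (T.N e))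
        (T.jx (T.N (T.N e))))) (dkey (T.X trX (T.N (T.N (T.N e)))) (T.X trX (T.I (T.N e)))))
          (dkey (T.Ot (T.N e)) (T.Ot (T.N (T.N e)))) ≠ 0 := hq'
      rw [if_neg hq2] at hP
      have hP' : P = C + 3 * Nat.sub (Nat.add (T.pP c (T.N e))
            (Nat.add (T.rv c 2 (T.I (T.N (T.N e)))) (T.rv c 1 (T.I (T.N (T.N (T.N e)))))))
            (Nat.add (T.pM c (T.N e)) (Nat.add (DR.val wc (T.Ot (T.N e)))
              (T.dl c.tw (T.I (T.N (T.N (T.N e))))))) - (T.qx qt (T.N e) - 1) := by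
        rw [hP, e12, e9, r1, r2]
      rw [hP']
      have h13 : 1 ≤ T.qx qt (T.N e) := Nat.one_le_iff_ne_zero.2 hq
      have h15 : T.sR c (T.N e) + T.win c.zt (T.bk (T.N e)) =
          (T.pP c (T.N e) + (T.rv c 2 (T.I (T.N (T.N e))) +
            T.rv c 1 (T.I (T.N (T.N (T.N e))))) : ℤ) -
          (T.pM c (T.N e) + (T.dl c.tw (T.I (T.N (T.I (T.N (T.N e))))) +
            T.dl c.tw (T.I (T.N (T.N (T.N e)))))) := by
        unfold sR
        ring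
      have eZ : T.uZ c qt (T.N e) = 3 * (T.sR c (T.N e) + T.win c.zt (T.bk (T.N e))) -
          ((T.qx qt (T.N e) : ℤ) - 1) := by
        unfold uZ
        rw [if_pos ⟨ha, hn⟩, if_neg hq]
      rw [eR, eZ, h15]
      simp only [Nat.add_eq, Nat.sub_eq]
      omega
  have hp' := hp _ rfl
  refine ⟨1, M', E', V', G', _, _, h1, ?_, ?_, ⟨fun _ => ?_, fun h6 => absurd hn h6⟩, ?_,
    fun gl => ?_⟩
  · unfold aS aR
    rw [if_pos ha, if_pos ⟨ha, hn⟩]
    simp only [Nat.mul_eq, Nat.add_eq]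
    push_cast
    ring
  · have f1 : T.fW c 1 (T.N (T.N e)) = T.wW c (T.N (T.N e)) := if_neg one_ne_zero
    rw [f1]
    unfold uW
    rw [N_inv_N, if_pos ⟨ha, hn⟩]
  · exact le_trans hp' (by exact_mod_cast h3)
  · rcases h4 with h4 | ⟨v, h6, h7⟩
    · exact Or.inl (le_trans hp' (by exact_mod_cast h4))
    · exact Or.inr ⟨v, h6, le_trans hp' (by exact_mod_cast h7)⟩
  · exact le_trans hp' (by exact_mod_cast h5 gl)

theorem gpCK_sound {e : F} {h : ℕ} {X : ℤ} {M : ℕ} {E V : DR} {G : DR → ℕ → ℕ} {A B : ℕ}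
    {K : ℕ → ℕ → DR → DR → (DR → ℕ → ℕ) → ℕ → ℕ → Bool}
    (hx : ∀ (a : F) {x : ℕ} {r : DR} {l : DL}, T.zr c.zt a = DL.g x r l →
      Nat.ble 1048576 x = true) (hi : T.PInv (T.N e) X M E V)
    (hG : ∀ gl : DR, X ≤ G gl (T.Ot (T.N e)) + DR.val gl (T.Ot e))
    (hh : ¬T.Tri (T.N e) → T.fW c h (T.N e) = 0)
    (hg : gpCK c qt pt kt (T.X trX (T.I e)) (T.kx e) (T.sO e) (T.kx (T.N e)) (T.ox (T.N e))
      (T.sO (T.N e)) (T.kx (T.N (T.N e))) (T.ox (T.N (T.N e))) (T.sO (T.N (T.N e)))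
      (T.kx (T.N (T.N (T.N e)))) (T.sO (T.N (T.N (T.N e)))) h M E V G A B K = true) :
    T.KStep c qt pt kt (T.N e) h X A B K := by
  by_cases ha : T.Tri (T.N e)
  · unfold gpCK at hg
    rw [T.ble_sO_tri ha, rIf_false] at hg
    by_cases hn : T.Tri (T.N (T.N e))
    · rw [T.ble_sO_tri hn, rIf_false] at hg
      exact T.gpTK_sound hx ha hn hi hG hg
    · rw [T.ble_sO_big hn, rIf_true] at hg
      obtain ⟨M', E', V', A', B', h1, h2, h3⟩ := T.gpS_sound ha hi hg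
      have f1 : T.aR c (T.N e) = 0 := if_neg fun h => hn h.2
      have f2 : T.uR c (T.N e) = 0 := if_neg fun h => hn h.2
      have f3 : T.uZ c qt (T.N e) = 0 := if_neg fun h => hn h.2
      have f4 : T.uW c (T.N (T.N e)) = 0 := if_neg fun h => hn h.2
      have f5 : T.fW c 0 (T.N (T.N e)) = 0 := if_pos rfl
      refine ⟨0, M', E', V', _, A', B', h1, ?_, by rw [f4, f5], ?_⟩
      · rw [f1, h2]
        ring
      · have g3 : X + T.fW c h (T.N e) + (T.uS c pt (T.N e) + T.uR c (T.N e) +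
            T.uZ c qt (T.N e)) - 2 * (T.vK kt (T.N e) : ℤ) ≤ M' := by
          rw [f2, f3, T.vK_not_right hn]
          push_cast
          linarith
        refine ⟨⟨fun h => absurd h hn, fun _ => g3⟩, Or.inl g3, fun gl => ?_⟩
        have : (0 : ℤ) ≤ DR.val gl (T.Ot (T.N e)) := Int.natCast_nonneg _
        linarith
  · unfold gpCK at hg
    rw [T.ble_sO_big ha, rIf_true] at hg
    have f0 : T.aS c (T.N e) = 0 := if_neg ha
    have f1 : T.aR c (T.N e) = 0 := if_neg fun h => ha h.1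
    have f2 : T.uR c (T.N e) = 0 := if_neg fun h => ha h.1
    have f3 : T.uZ c qt (T.N e) = 0 := if_neg fun h => ha h.1
    have f4 : T.uW c (T.N (T.N e)) = 0 := by
      unfold uW
      rw [N_inv_N]
      exact if_neg fun h => ha h.1
    have f5 : T.fW c 0 (T.N (T.N e)) = 0 := if_pos rfl
    have f6 : T.uS c pt (T.N e) = 0 := if_neg ha
    have g3 : X + T.fW c h (T.N e) + (T.uS c pt (T.N e) + T.uR c (T.N e) +
        T.uZ c qt (T.N e)) - 2 * (T.vK kt (T.N e) : ℤ) ≤ M := by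
      rw [hh ha, f2, f3, f6, T.vK_not ha]
      have := hi.2 ha
      push_cast
      linarith
    refine ⟨0, M, DR.nil, DR.nil, _, A, B, hg, by rw [f0, f1]; ring, by rw [f4, f5],
      ⟨fun _ => ?_, fun _ => g3⟩, Or.inl g3, fun gl => ?_⟩
    · exact le_trans g3 le_rfl
    · have : (0 : ℤ) ≤ DR.val gl (T.Ot (T.N e)) := Int.natCast_nonneg _
      linarith

/-- The loss of a corner, with its gain. -/
noncomputable def uK (c : Tabs) (qt pt kt : DT) (a : F) : ℤ :=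
  T.uG c qt pt a - 2 * (T.vK kt a : ℤ)

theorem goK_sound {d : F}
    {K : ℕ → DR → DR → (DR → ℕ → ℕ) → ℕ → ℕ → Bool}
    (hx : ∀ (a : F) {x : ℕ} {r : DR} {l : DL}, T.zr c.zt a = DL.g x r l →
      Nat.ble 1048576 x = true) (n : ℕ) :
    ∀ (t h : ℕ) (X : ℤ) (M : ℕ) (E V : DR) (G : DR → ℕ → ℕ) (A B : ℕ),
    T.PInv (T.N^[t + 1] d) X M E V →
    (∀ gl : DR, X ≤ G gl (T.Ot (T.N^[t + 1] d)) + DR.val gl (T.Ot (T.N^[t] d))) →
    (¬T.Tri (T.N^[t + 1] d) → T.fW c h (T.N^[t + 1] d) = 0) →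
    goK c qt pt kt (pw (fun n => T.kx (T.N^[n] d)) (fun n => T.ox (T.N^[n] d))
      (fun n => T.sO (T.N^[n] d)) (t + 3) n) (T.X trX (T.I (T.N^[t] d)))
      (T.kx (T.N^[t] d)) (T.sO (T.N^[t] d)) (T.kx (T.N^[t + 1] d))
      (T.ox (T.N^[t + 1] d)) (T.sO (T.N^[t + 1] d)) (T.kx (T.N^[t + 2] d)) (T.ox (T.N^[t + 2] d))
      (T.sO (T.N^[t + 2] d)) h M E V G A B K = true →
    ∃ (M' : ℕ) (E' V' : DR) (G' : DR → ℕ → ℕ) (A' B' : ℕ),
      K M' E' V' G' A' B' = true ∧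
      (A' : ℤ) - B' = A - B +
        ∑ i ∈ range n, (T.aS c (T.N^[t + 1 + i] d) + T.aR c (T.N^[t + 1 + i] d)) ∧
      ((n = 0 ∧ M' = M ∧ E' = E ∧ V' = V ∧ G' = G) ∨ T.KEnd (T.N^[t + n] d) (X + (T.fW c h (T.N^[t + 1] d) - T.uW c (T.N^[t + 1] d)) +
          ∑ i ∈ range n, T.uK c qt pt kt (T.N^[t + 1 + i] d)) M' E' V' G') := by
  induction n with
  | zero =>
    intro t h X M E V G A B hi hG hh hg
    refine ⟨M, E, V, G, A, B, hg, ?_, Or.inl ⟨rfl, rfl, rfl, rfl, rfl⟩⟩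
    rw [Finset.range_zero, Finset.sum_empty, add_zero]
  | succ n ih =>
    intro t h X M E V G A B hi hG hh hg
    have e1 : T.N^[t + 1] d = T.N (T.N^[t] d) := Function.iterate_succ_apply' _ _ _
    have e2 : T.N^[t + 2] d = T.N (T.N^[t + 1] d) := Function.iterate_succ_apply' _ _ _
    have e3 : T.N^[t + 3] d = T.N (T.N^[t + 2] d) := Function.iterate_succ_apply' _ _ _
    have h' : gpCK c qt pt kt (T.X trX (T.I (T.N^[t] d))) (T.kx (T.N^[t] d)) (T.sO (T.N^[t] d))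
        (T.kx (T.N^[t + 1] d)) (T.ox (T.N^[t + 1] d)) (T.sO (T.N^[t + 1] d))
        (T.kx (T.N^[t + 2] d)) (T.ox (T.N^[t + 2] d)) (T.sO (T.N^[t + 2] d))
        (T.kx (T.N^[t + 3] d)) (T.sO (T.N^[t + 3] d)) h M E V G A B (fun h' M' E' V' G' A' B' =>
          rForce (xrT rjA (T.kx (T.N^[t] d)) (T.sO (T.N^[t] d))) fun xm' =>
          goK c qt pt kt (pw (fun n => T.kx (T.N^[n] d)) (fun n => T.ox (T.N^[n] d))
            (fun n => T.sO (T.N^[n] d)) (t + 1 + 3) n) xm' (T.kx (T.N^[t + 1] d))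
            (T.sO (T.N^[t + 1] d)) (T.kx (T.N^[t + 2] d)) (T.ox (T.N^[t + 2] d))
            (T.sO (T.N^[t + 2] d)) (T.kx (T.N^[t + 3] d)) (T.ox (T.N^[t + 3] d))
            (T.sO (T.N^[t + 3] d)) h' M' E' V' G' A' B' K) = true := hg
    rw [e3, e2, e1] at h'
    rw [e1] at hi hG hh
    obtain ⟨h1', M1, E1, V1, G1, A1, B1, h1, h2, h2f, h3⟩ := T.gpCK_sound hx hi hG hh h'
    beta_reduce at h1
    rw [rForce_eq, T.x0_eq, ← e1, ← e2, ← e3] at h1
    rw [← e1] at h2 h2f h3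
    have hi1 := h3.1
    have hG1 := h3.2.2
    rw [← e2] at hi1 h2f hG1
    have hh1 : ¬T.Tri (T.N^[t + 2] d) → T.fW c h1' (T.N^[t + 2] d) = 0 := fun g => by
      rw [h2f, T.uW_big g]
    obtain ⟨M', E', V', G', A', B', g1, g2, g3⟩ :=
      ih (t + 1) h1' _ M1 E1 V1 G1 A1 B1 hi1 hG1 hh1 h1
    have e4 : ∀ i, t + 1 + 1 + i = t + 1 + (i + 1) := fun i => by omega
    have e6 : t + 1 + n = t + (n + 1) := by omega
    rw [e6] at g3
    refine ⟨M', E', V', G', A', B', g1, ?_, Or.inr ?_⟩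
    · rw [g2, h2, Finset.sum_range_succ' _ n]
      simp only [e4, Nat.add_zero]
      ring
    · rcases g3 with ⟨rfl, rfl, rfl, rfl, rfl⟩ | g3
      · rw [Finset.sum_range_one]
        have e5 : X + (T.fW c h (T.N^[t + 1] d) - T.uW c (T.N^[t + 1] d)) +
            T.uK c qt pt kt (T.N^[t + 1 + 0] d) = X + T.fW c h (T.N^[t + 1] d) +
            (T.uS c pt (T.N^[t + 1] d) + T.uR c (T.N^[t + 1] d) +
              T.uZ c qt (T.N^[t + 1] d)) - 2 * (T.vK kt (T.N^[t + 1] d) : ℤ) := by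
          rw [Nat.add_zero]
          unfold uK uG
          ring
        rw [e5]
        exact h3
      · have e7 : X + (T.fW c h (T.N^[t + 1] d) - T.uW c (T.N^[t + 1] d)) +
            ∑ i ∈ range (n + 1), T.uK c qt pt kt (T.N^[t + 1 + i] d) =
            X + T.fW c h (T.N^[t + 1] d) +
            (T.uS c pt (T.N^[t + 1] d) + T.uR c (T.N^[t + 1] d) + T.uZ c qt (T.N^[t + 1] d)) -
              2 * (T.vK kt (T.N^[t + 1] d) : ℤ) +
              (T.fW c h1' (T.N^[t + 1 + 1] d) - T.uW c (T.N^[t + 1 + 1] d)) +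
              ∑ i ∈ range n, T.uK c qt pt kt (T.N^[t + 1 + 1 + i] d) := by
          rw [Finset.sum_range_succ' _ n]
          simp only [e4, Nat.add_zero]
          have h2f' : T.fW c h1' (T.N^[t + 1 + 1] d) = T.uW c (T.N^[t + 1 + 1] d) := h2f
          rw [show t + (1 + 1) = t + 1 + 1 by omega] at *
          rw [h2f']
          unfold uK uG
          ring
        rw [e7]
        exact g3

theorem vK_z (a : F) : T.vK DT.z a = 0 := by
  unfold vK
  split_ifs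
  · rfl
  · rfl

/-- A restriction of the second token is right. -/
def RsOK (d : F)
    (R : ℕ → DR → DR → (DR → ℕ → ℕ) → (ℕ → DR → DR → (DR → ℕ → ℕ) → Bool) → Bool) : Prop :=
  ∀ (M : ℕ) (E V : DR) (G : DR → ℕ → ℕ) (X : ℤ) (K : ℕ → DR → DR → (DR → ℕ → ℕ) → Bool),
    T.PInv (T.N^[2] d) X M E V →
    (∀ gl : DR, X ≤ G gl (T.Ot (T.N^[2] d)) + DR.val gl (T.Ot (T.N^[1] d))) →
    R M E V G K = true → ∃ (M' : ℕ) (E' V' : DR) (G' : DR → ℕ → ℕ), K M' E' V' G' = true ∧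
      T.PInv (T.N^[2] d) X M' E' V' ∧
      ∀ gl : DR, X ≤ G' gl (T.Ot (T.N^[2] d)) + DR.val gl (T.Ot (T.N^[1] d))

theorem rsN_ok (d : F) : T.RsOK d fun M E V G K => K M E V G :=
  fun M E V G _X _K hi hG h => ⟨M, E, V, G, h, hi, hG⟩

theorem rsP_ok {d : F} (h2 : T.Tri (T.N^[2] d)) : T.RsOK d (rsP (T.Ot (T.N^[2] d))) := by
  intro M E V G X K hi hG h
  unfold rsP at h
  rw [rForce_eq] at h
  refine ⟨_, _, _, _, h, ⟨fun _ => ?_, fun h3 => absurd h2 h3⟩, fun gl => ?_⟩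
  · have h3 := (DR.le_mxe (T.Ot (T.N^[2] d)) (DR.e (T.Ot (T.N^[2] d))
      (DR.lkv (T.Ot (T.N^[2] d)) E M V) DR.nil) (nat_lit 0)).2 _ (Or.inl ⟨rfl, rfl⟩)
    exact le_trans (hi.1 h2) (by exact_mod_cast h3)
  · have h3 := hG gl
    have h4 : rIf (Nat.beq (T.Ot (T.N^[2] d)) (T.Ot (T.N^[2] d))) (G gl (T.Ot (T.N^[2] d)))
        (nat_lit 0) = G gl (T.Ot (T.N^[2] d)) := by
      rw [Nat.beq_refl, rIf_true]
    show X ≤ ((rIf (Nat.beq (T.Ot (T.N^[2] d)) (T.Ot (T.N^[2] d))) (G gl (T.Ot (T.N^[2] d)))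
        (nat_lit 0) : ℕ) : ℤ) + DR.val gl (T.Ot (T.N^[1] d))
    rw [h4]
    exact h3

theorem rsR_ok {d : F} {L : DR} (hL : ∀ w, ¬DR.In (T.Ot (T.N^[2] d)) w L) :
    T.RsOK d (rsR L) := by
  intro M E V G X K hi hG h
  unfold rsR at h
  obtain ⟨V', h1, h2⟩ := DR.zro_lkv h
  refine ⟨_, _, _, _, h1, ⟨fun h3 => ?_, hi.2⟩, fun gl => ?_⟩
  · rw [h2 _ _ _ hL]
    exact hi.1 h3
  · have h3 := hG gl
    show X ≤ ((rIf (Nat.beq (DR.val L (T.Ot (T.N^[2] d))) (nat_lit 0))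
      (G gl (T.Ot (T.N^[2] d))) (nat_lit 0) : ℕ) : ℤ) + DR.val gl (T.Ot (T.N^[1] d))
    rw [rIf_beq0 (DR.val_of_not_in hL)]
    exact h3

theorem runK_sound {d : F} {n h M : ℕ} {E V : DR}
    {R : ℕ → DR → DR → (DR → ℕ → ℕ) → (ℕ → DR → DR → (DR → ℕ → ℕ) → Bool) → Bool}
    {K : ℕ → DR → DR → (DR → ℕ → ℕ) → ℕ → ℕ → Bool}
    (hx : ∀ (a : F) {x : ℕ} {r : DR} {l : DL}, T.zr c.zt a = DL.g x r l →
      Nat.ble 1048576 x = true) (hn : 0 < n)
    (hf : T.fW c h (T.N^[1] d) = T.uW c (T.N^[1] d))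
    (hi : T.PInv (T.N^[1] d) (offR : ℤ) M E V) (hR : T.RsOK d R)
    (hg : runK c qt pt kt (pw (fun n => T.kx (T.N^[n] d)) (fun n => T.ox (T.N^[n] d))
      (fun n => T.sO (T.N^[n] d)) 4 n) (T.X trX (T.I (T.N^[0] d))) (T.kx (T.N^[0] d))
      (T.sO (T.N^[0] d)) (T.kx (T.N^[1] d)) (T.ox (T.N^[1] d)) (T.sO (T.N^[1] d))
      (T.kx (T.N^[2] d)) (T.ox (T.N^[2] d)) (T.sO (T.N^[2] d)) (T.kx (T.N^[3] d))
      (T.ox (T.N^[3] d)) (T.sO (T.N^[3] d)) h R K M E V = true) :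
    ∃ (M' : ℕ) (E' V' : DR) (G' : DR → ℕ → ℕ) (A' B' : ℕ), K M' E' V' G' A' B' = true ∧
      (A' : ℤ) - B' = ∑ i ∈ range (n + 1), (T.aS c (T.N^[1 + i] d) + T.aR c (T.N^[1 + i] d)) ∧
      T.KEnd (T.N^[n + 1] d) (offR + (T.uG c qt pt (T.N^[1] d) +
        ∑ i ∈ range n, T.uK c qt pt kt (T.N^[2 + i] d))) M' E' V' G' := by
  unfold runK at hg
  rw [rForce_eq] at hg
  have e1 : T.N^[1] d = T.N (T.N^[0] d) := rfl
  have e2 : T.N^[2] d = T.N (T.N^[1] d) := Function.iterate_succ_apply' _ _ _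
  have e3 : T.N^[3] d = T.N (T.N^[2] d) := Function.iterate_succ_apply' _ _ _
  have hh : ¬T.Tri (T.N^[1] d) → T.fW c h (T.N^[1] d) = 0 := fun g => by
    rw [hf, T.uW_big g]
  have hG0 : ∀ gl : DR, (offR : ℤ) ≤ ((fun _ _ => offR : DR → ℕ → ℕ) gl (T.Ot (T.N (T.N^[0] d))) : ℕ) +
      ((DR.val gl (T.Ot (T.N^[0] d)) : ℕ) : ℤ) := fun gl =>
    le_add_of_nonneg_right (Int.natCast_nonneg _)
  have hg' := hg
  rw [e3, e2, e1] at hg'
  rw [e1] at hi hh
  obtain ⟨h1', M1, E1, V1, G1, A1, B1, h1, h2, h2f, h3⟩ :=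
    T.gpCK_sound hx hi hG0 hh hg'
  rw [← e1] at h2 h2f h3
  rw [← e1, ← e2] at h1
  have h2f' : T.fW c h1' (T.N^[2] d) = T.uW c (T.N^[2] d) := by rw [e2]; exact h2f
  have hX1 : (offR : ℤ) + T.fW c h (T.N^[1] d) + (T.uS c pt (T.N^[1] d) + T.uR c (T.N^[1] d) +
      T.uZ c qt (T.N^[1] d)) - 2 * (T.vK DT.z (T.N^[1] d) : ℤ) =
      offR + T.uG c qt pt (T.N^[1] d) := by
    rw [T.vK_z, hf]
    unfold uG
    push_cast
    ring
  rw [hX1] at h3
  have hi1 := h3.1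
  have hG1 := h3.2.2
  rw [← e2] at hi1 hG1
  beta_reduce at h1
  obtain ⟨M2, E2, V2, G2, g1, g2, g3⟩ := hR _ _ _ _ _ _ hi1 hG1 h1
  rw [← e3, e1, T.x0_eq, ← e1] at g1
  have hh1 : ¬T.Tri (T.N^[1 + 1] d) → T.fW c h1' (T.N^[1 + 1] d) = 0 := fun g => by
    have g' : ¬T.Tri (T.N^[2] d) := g
    show T.fW c h1' (T.N^[2] d) = 0
    rw [h2f', T.uW_big g']
  obtain ⟨M', E', V', G', A', B', k1, k2, k3⟩ :=
    T.goK_sound (d := d) hx n 1 h1' _ M2 E2 V2 G2 A1 B1 g2 g3 hh1 g1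
  refine ⟨M', E', V', G', A', B', k1, ?_, ?_⟩
  · rw [k2, h2, Finset.sum_range_succ' _ n]
    have e4 : ∀ i, 1 + 1 + i = 1 + (i + 1) := fun i => by omega
    simp only [e4, Nat.add_zero]
    push_cast
    ring
  · have k3' := k3.resolve_left fun h6 => absurd h6.1 (by omega)
    have e5 : T.fW c h1' (T.N^[1 + 1] d) = T.uW c (T.N^[1 + 1] d) := h2f'
    rw [e5, sub_self, add_zero, Nat.add_comm 1 n] at k3'
    have e6 : (offR : ℤ) + (T.uG c qt pt (T.N^[1] d) +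
        ∑ i ∈ range n, T.uK c qt pt kt (T.N^[2 + i] d)) = offR + T.uG c qt pt (T.N^[1] d) +
        ∑ i ∈ range n, T.uK c qt pt kt (T.N^[1 + 1 + i] d) := by
      rw [add_assoc]
    rw [e6]
    exact k3'

/-- **The test of the rings with the further shares, for all outer tokens of the map.** -/
theorem ringKC_sound {d : F} {m n kk sk : ℕ}
    (hx : ∀ (a : F) {x : ℕ} {r : DR} {l : DL}, T.zr c.zt a = DL.g x r l →
      Nat.ble 1048576 x = true) (hb : T.N^[n + 1] d = d) (hn : 0 < n)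
    (hk : xrT rjA kk sk = T.X trX (T.I d))
    (h : ringKC c qt pt kt m (pw (fun n => T.kx (T.N^[n] d)) (fun n => T.ox (T.N^[n] d))
      (fun n => T.sO (T.N^[n] d)) 4 n) kk sk (T.kx (T.N^[0] d)) (T.sO (T.N^[0] d))
      (T.kx (T.N^[1] d)) (T.ox (T.N^[1] d)) (T.sO (T.N^[1] d)) (T.kx (T.N^[2] d))
      (T.ox (T.N^[2] d)) (T.sO (T.N^[2] d)) (T.kx (T.N^[3] d))
      (T.ox (T.N^[3] d)) (T.sO (T.N^[3] d)) = true) :
    6 * (m : ℤ) ≤ ∑ i ∈ range (n + 1), (T.aS c (T.N^[1 + i] d) + T.aR c (T.N^[1 + i] d)) -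
      ∑ i ∈ range (n + 1), T.uK c qt pt kt (T.N^[1 + i] d) := by
  unfold ringKC at h
  have x1e : xrT trX (T.kx (T.N^[2] d)) (T.sO (T.N^[2] d)) = T.X trX (T.N^[2] d) := T.x1_eq _
  have x2e : xrT trX (T.kx (T.N^[3] d)) (T.sO (T.N^[3] d)) = T.X trX (T.N^[3] d) := T.x1_eq _
  have x0e : xrT rjA (T.kx (T.N^[0] d)) (T.sO (T.N^[0] d)) = T.X trX (T.I (T.N^[1] d)) :=
    T.x0_eq _
  rw [rForce_eq, rForce_eq, rForce_eq, rForce_eq, hk, x0e, x1e, x2e] at h
  have hf : T.fW c (rIf (Nat.ble (nat_lit 7936) (T.sO (T.N^[0] d))) (nat_lit 0)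
      (rIf (Nat.ble (nat_lit 7936) (T.sO (T.N^[1] d))) (nat_lit 0) (nat_lit 1)))
        (T.N^[1] d) = T.uW c (T.N^[1] d) := T.flag_eq d
  generalize rIf (Nat.ble (nat_lit 7936) (T.sO (T.N^[0] d))) (nat_lit 0)
      (rIf (Nat.ble (nat_lit 7936) (T.sO (T.N^[1] d))) (nat_lit 0) (nat_lit 1)) = fl at h hf
  obtain ⟨D, h, hD⟩ := DL.kts_sound h
  obtain ⟨V0, h, hV0⟩ := DR.zro_lkv h
  obtain ⟨h1, h2⟩ := rAnd_iff.1 h
  clear h
  -- the sum
  have hU : ∑ i ∈ range (n + 1), T.uK c qt pt kt (T.N^[1 + i] d) =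
      T.uG c qt pt (T.N^[1] d) - 2 * (T.vK kt (T.N^[1] d) : ℤ) +
        ∑ i ∈ range n, T.uK c qt pt kt (T.N^[2 + i] d) := by
    rw [Finset.sum_range_succ' _ n]
    have e4 : ∀ i, 1 + (i + 1) = 2 + i := fun i => by omega
    simp only [e4, Nat.add_zero]
    unfold uK
    ring
  rw [hU]
  have hv0 : (0 : ℤ) ≤ T.vK kt (T.N^[1] d) := Int.natCast_nonneg _
  -- a run with an exact start
  have hiz : T.Tri (T.N^[1] d) → T.PInv (T.N^[1] d) (offR : ℤ) (nat_lit 0)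
      (DR.e (T.Ot (T.N^[1] d)) offR DR.nil) DR.nil := by
    refine fun h8 => ⟨fun _ => ?_, fun h9 => absurd h8 h9⟩
    have h9 := (DR.le_mxe (T.Ot (T.N^[1] d))
      (DR.e (T.Ot (T.N^[1] d)) offR DR.nil) (nat_lit 0)).2 offR (Or.inl ⟨rfl, rfl⟩)
    exact_mod_cast h9
  by_cases ho : ∃ w, DR.In (T.Ot (T.N^[1] d)) w D
  · -- the first token has further shares
    obtain ⟨w, ho⟩ := ho
    have hDn : D ≠ DR.nil := fun h3 => by
      rw [h3] at ho
      exact ho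
    have hT : T.Tri d ∧ T.Tri (T.N^[1] d) ∧ T.Tri (T.N^[2] d) := by
      have h3 := fun h4 => hDn (hD h4)
      by_cases t0 : T.Tri d
      · by_cases t1 : T.Tri (T.N^[1] d)
        · by_cases t2 : T.Tri (T.N^[2] d)
          · exact ⟨t0, t1, t2⟩
          · refine absurd ?_ h3
            have t0' : Nat.ble (nat_lit 7936) (T.sO (T.N^[0] d)) = false := T.ble_sO_tri t0
            rw [t0', T.ble_sO_tri t1, T.ble_sO_big t2]
            rfl
        · refine absurd ?_ h3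
          have t0' : Nat.ble (nat_lit 7936) (T.sO (T.N^[0] d)) = false := T.ble_sO_tri t0
          rw [t0', T.ble_sO_big t1]
          rfl
      · refine absurd ?_ h3
        have t0' : Nat.ble (nat_lit 7936) (T.sO (T.N^[0] d)) = true := T.ble_sO_big t0
        rw [t0']
        rfl
    obtain ⟨t0, t1, t2⟩ := hT
    have h3 := DR.alt_sound h2 ho
    cases hr : runK c qt pt kt (pw (fun n => T.kx (T.N^[n] d)) (fun n => T.ox (T.N^[n] d))
      (fun n => T.sO (T.N^[n] d)) 4 n) (T.X trX (T.I d)) (T.kx (T.N^[0] d))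
      (T.sO (T.N^[0] d)) (T.kx (T.N^[1] d)) (T.ox (T.N^[1] d)) (T.sO (T.N^[1] d))
      (T.kx (T.N^[2] d)) (T.ox (T.N^[2] d)) (T.sO (T.N^[2] d)) (T.kx (T.N^[3] d))
      (T.ox (T.N^[3] d)) (T.sO (T.N^[3] d)) fl (fun M E V G K => K M E V G)
      (fun M' E' V' _ A' B' => finK m (DR.lkv (T.Ot (T.N^[1] d)) E' M' V') A' B')
      (nat_lit 0) (DR.e (T.Ot (T.N^[1] d)) offR DR.nil) DR.nil with
    | true =>
      obtain ⟨M', E', V', G', A', B', g1, g2, g3⟩ :=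
        T.runK_sound hx hn hf (hiz t1) (T.rsN_ok d) hr
      have g1' := finK_iff.1 g1
      rw [hb] at g3
      have g4 := g3.1.1 t1
      zify at g1'
      have g5 : T.Ot (T.N d) = T.Ot (T.N^[1] d) := rfl
      rw [g5] at g4
      linarith
    | false =>
      rw [hr, rIf_false] at h3
      obtain ⟨L, h3⟩ := DR.kxs_sound h3
      obtain ⟨h4, h5⟩ := rAnd_iff.1 h3
      by_cases hL : ∃ w, DR.In (T.Ot (T.N^[2] d)) w L
      · obtain ⟨w', hL⟩ := hL
        have h6 := DR.alt_sound h5 hL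
        obtain ⟨gl, h7, h8⟩ := DR.glf_sound (T.X_lt13 _) h6
        obtain ⟨M', E', V', G', A', B', g1, g2, g3⟩ :=
          T.runK_sound hx hn hf (hiz t1) (T.rsP_ok t2) h7
        have g1' := finK_iff.1 g1
        rw [hb] at g3
        have g4 := g3.2.2 gl
        have g6 := h8 (T.Ot d) (T.X_lt13 _)
        have g7 : DR.val gl (T.Ot d) = 2 * T.vK kt (T.N^[1] d) := by
          rw [g6]
          have e0 : T.Tri (T.N⁻¹ (T.N^[1] d)) := by
            show T.Tri (T.N⁻¹ (T.N d))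
            rw [N_inv_N]
            exact t0
          unfold vK
          rw [if_pos ⟨e0, t1, t2⟩, T.rs_tri t1, T.sO_tri t1]
          unfold sK eR eL
          have e1 : T.N⁻¹ (T.N^[1] d) = d := T.N_inv_N d
          rw [e1]
          rfl
        rw [g7] at g4
        zify at g1'
        have g5 : T.Ot (T.N d) = T.Ot (T.N^[1] d) := rfl
        rw [g5] at g4
        push_cast at g4
        linarith
      · obtain ⟨M', E', V', G', A', B', g1, g2, g3⟩ :=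
          T.runK_sound hx hn hf (hiz t1) (T.rsR_ok fun w h => hL ⟨w, h⟩) h4
        have g1' := finK_iff.1 g1
        rw [hb] at g3
        have g4 := g3.1.1 t1
        zify at g1'
        have g5 : T.Ot (T.N d) = T.Ot (T.N^[1] d) := rfl
        rw [g5] at g4
        linarith
  · have hi0 : T.PInv (T.N^[1] d) (offR : ℤ) offR DR.nil V0 := by
      refine ⟨fun _ => ?_, fun _ => le_rfl⟩
      rw [hV0 _ _ _ fun w h => ho ⟨w, h⟩]
      exact le_rfl
    obtain ⟨M, E, V, G, A, B, g1, g2, g3⟩ :=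
      T.runK_sound hx hn hf hi0 (T.rsN_ok d) h1
    obtain ⟨h4, h5⟩ := rAnd_iff.1 g1
    have h4' := finK_iff.1 h4
    rw [hb] at g3
    have hfin : (offR : ℤ) + (T.uG c qt pt (T.N^[1] d) +
        ∑ i ∈ range n, T.uK c qt pt kt (T.N^[2 + i] d)) ≤ M →
        6 * (m : ℤ) ≤ ∑ i ∈ range (n + 1), (T.aS c (T.N^[1 + i] d) + T.aR c (T.N^[1 + i] d)) -
          (T.uG c qt pt (T.N^[1] d) - 2 * (T.vK kt (T.N^[1] d) : ℤ) +
            ∑ i ∈ range n, T.uK c qt pt kt (T.N^[2 + i] d)) := by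
      intro h6
      zify at h4'
      linarith
    by_cases h8 : T.Tri (T.N^[1] d)
    · rcases g3.2.1 with h6 | ⟨v, h6, h6v⟩
      · exact hfin h6
      · rcases DR.alz_sound h5 _ _ h6 with h7 | h7 | h7
        · have h9 := finK_iff.1 h7
          zify at h9
          linarith
        · exact absurd (DR.val_of_not_in fun w h => ho ⟨w, h⟩) h7
        · obtain ⟨M', E', V', G', A', B', k1, k2, k3⟩ :=
            T.runK_sound hx hn hf (hiz h8) (T.rsN_ok d) h7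
          have k1' := finK_iff.1 k1
          rw [hb] at k3
          have k4 := k3.1.1 h8
          zify at k1'
          have g5 : T.Ot (T.N d) = T.Ot (T.N^[1] d) := rfl
          rw [g5] at k4 k1'
          linarith
    · exact hfin (g3.1.2 h8)

/-- **A cell with the further shares.** -/
theorem cellK_le (h : c.OKJ qt pt) (hM : ∀ T : SMap F, c.MapR T) {v : ℕ} (d : F)
    (h2 : ringKN c qt pt kt (DR.pth (T.cdw d (Function.minimalPeriod T.N d))) v = true) :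
    6 * (v : ℤ) ≤ ∑ i ∈ range (Function.minimalPeriod T.N d),
      (T.PP c pt (T.N^[i + 1] d) + 2 * (T.vK kt (T.N^[i + 1] d) : ℤ) +
        T.QP c qt (T.N^[i + 1] d)) := by
  unfold cdw at h2
  rw [pth_dw (fun i => T.sO_lt _)] at h2
  have hx : ∀ (a : F) {x : ℕ} {r : DR} {l : DL}, T.zr c.zt a = DL.g x r l →
      Nat.ble 1048576 x = true := fun a x r l h1 => T.hdr_at h.reg h1
  obtain ⟨b, hb⟩ : ∃ b, Function.minimalPeriod T.N d = b + 3 :=
    ⟨_, (Nat.sub_add_cancel (T.three d)).symm⟩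
  have hp : T.N^[b + 3] d = d := by
    rw [← hb]
    exact Function.isPeriodicPt_minimalPeriod T.N d
  have hp' : ∀ i, T.N^[i + (b + 3)] d = T.N^[i] d := by
    intro i
    rw [Function.iterate_add_apply, hp]
  rw [hb] at h2 ⊢
  set k := fun n => T.kx (T.N^[n] d) with hk
  set o := fun n => T.ox (T.N^[n] d) with ho
  set s := fun n => T.sO (T.N^[n] d) with hs
  have e0 : pw k o s 1 (b + 3) = Pth.cons (k 1) (o 1) (s 1) (Pth.cons (k 2) (o 2) (s 2)
      (pw k o s 3 (b + 1))) := rfl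
  rw [e0] at h2
  have e1 : Pth.app (pw k o s 4 b) (Pth.cons (k 1) (o 1) (s 1) (Pth.cons (k 2) (o 2) (s 2)
      Pth.nil)) = pw k o s 4 (b + 2) := by
    have e2 : Pth.cons (k 1) (o 1) (s 1) (Pth.cons (k 2) (o 2) (s 2) Pth.nil) =
        pw k o s (4 + b) 2 := by
      show _ = Pth.cons (k (4 + b)) (o (4 + b)) (s (4 + b))
        (Pth.cons (k (4 + b + 1)) (o (4 + b + 1)) (s (4 + b + 1)) Pth.nil)
      simp only [hk, ho, hs, show 4 + b = 1 + (b + 3) by omega,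
        show 1 + (b + 3) + 1 = 2 + (b + 3) by omega, hp']
    rw [e2, app_pw]
  have hr1 : Pth.lst (pw k o s (1 + 2) (b + 1)) (k 1) (s 1) (k (1 + 1)) (s (1 + 1))
      (fun kk sk kl sl => ringKC c qt pt kt v (Pth.app (pw k o s 4 b)
        (Pth.cons (k 1) (o 1) (s 1) (Pth.cons (k 2) (o 2) (s 2) Pth.nil))) kk sk kl sl
          (k 1) (o 1) (s 1) (k 2) (o 2) (s 2) (k 3) (o 3) (s 3)) = true := h2
  have e3 : k (1 + (b + 1) + 1) = T.kx (T.N^[0] d) := by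
    simp only [hk, show 1 + (b + 1) + 1 = 0 + (b + 3) by omega, hp']
  have e4 : s (1 + (b + 1) + 1) = T.sO (T.N^[0] d) := by
    simp only [hs, show 1 + (b + 1) + 1 = 0 + (b + 3) by omega, hp']
  rw [lst_pw, e1, e3, e4] at hr1
  have hk0 : xrT rjA (k (1 + (b + 1))) (s (1 + (b + 1))) = T.X trX (T.I d) := by
    have e5 : T.N (T.N^[1 + (b + 1)] d) = d := by
      rw [← Function.iterate_succ_apply' T.N, show (1 + (b + 1)).succ = b + 3 by omega, hp]
    have e6 := T.x0_eq (T.N^[1 + (b + 1)] d)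
    rw [e5] at e6
    exact e6
  have h1 := T.ringKC_sound (n := b + 2) hx hp (by omega) hk0 hr1
  have hS : ∀ i, T.aS c (T.N^[i] d) - T.uS c pt (T.N^[i] d) ≤ T.PP c pt (T.N^[i] d) :=
    fun i => T.star_local h.rsv _ (T.slT_nonneg h.toOKR hM _)
  have hR : ∀ i, T.aR c (T.N^[i] d) - T.uR c (T.N^[i] d) - T.uW c (T.N (T.N^[i] d)) -
      T.uZ c qt (T.N^[i] d) ≤ T.QP c qt (T.N^[i] d) :=
    fun i => T.region_local (hM T) h.rsv _ (T.slR_nonneg h.toOKR hM _)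
  have e5 : ∀ i, T.N (T.N^[i + 1] d) = T.N^[i + 1 + 1] d := fun i =>
    (Function.iterate_succ_apply' _ _ _).symm
  have e9 : ∀ i, 1 + i = i + 1 := fun i => by omega
  have h3 : ∑ i ∈ range (b + 3), ((T.aS c (T.N^[i + 1] d) - T.uS c pt (T.N^[i + 1] d)) +
      (T.aR c (T.N^[i + 1] d) - T.uR c (T.N^[i + 1] d) - T.uW c (T.N (T.N^[i + 1] d)) -
        T.uZ c qt (T.N^[i + 1] d))) ≤
      ∑ i ∈ range (b + 3), (T.PP c pt (T.N^[i + 1] d) + T.QP c qt (T.N^[i + 1] d)) :=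
    Finset.sum_le_sum fun i _ => add_le_add (hS _) (hR _)
  have h4 : ∑ i ∈ range (b + 3), T.uW c (T.N (T.N^[i + 1] d)) =
      ∑ i ∈ range (b + 3), T.uW c (T.N^[i + 1] d) := by
    simp only [e5]
    have e6 := Finset.sum_range_succ (fun i => T.uW c (T.N^[i + 1] d)) (b + 3)
    have e7 := Finset.sum_range_succ' (fun i => T.uW c (T.N^[i + 1] d)) (b + 3)
    have e8 : T.N^[b + 3 + 1] d = T.N^[0 + 1] d := by
      rw [show b + 3 + 1 = 1 + (b + 3) by omega, hp']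
    rw [e8] at e6
    linarith
  simp only [e9] at h1
  unfold uK uG at h1
  simp only [Finset.sum_add_distrib, Finset.sum_sub_distrib] at h1 h3 ⊢
  rw [h4] at h3
  linarith

end SMap

end Pool.Agent.Lib.MP_5854e1_co
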