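import Pool.Agent.Lib.MP_5854e1_co.RingKR
import Pool.Agent.Lib.MP_5854e1_co.RingKS

/-!
# The ring test with a table of cells with further shares

A row `g v r (g i' ..)` of the table `wk` consists of a value `v`, of the corners `r` of a whole cell
and of the index `i'` of the row of the reflected cell.
-/

set_option autoImplicit false

open Equiv Equiv.Perm

namespace Pool.Agent.Lib.MP_5854e1_co

open Finset PB CE CE.Cell

universe u

noncomputable section

/-- The test of a row of the table of cells with further shares. -/
def wkR (c : Tabs) (qt pt kt wk : DT) (_ : ℕ) (l : DL) : Bool :=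
  DL.rec (motive := fun _ => Bool) true (fun v r l' _ =>
    DL.rec (motive := fun _ => Bool) false (fun i _ _ _ =>
      rAnd (DL.rec (motive := fun _ => Bool) false (fun v0 r0 _ _ =>
        rAnd (Nat.ble v v0) (DR.sgm r r0)) (DT.get wk i))
        (ringKN c qt pt kt (DR.pth r) v)) l') l

/-- The test of a cell with the row of index `i`. -/
def wkT (wk : DT) (i : ℕ) (q : Pth) (m : ℕ) : Bool :=
  DL.rec (motive := fun _ => Bool) false (fun v r _ _ =>
    rAnd (Nat.ble m v) (DR.pfb false r q)) (DT.get wk i)

/-- The test of the rings around a cell: the hint `2 ^ 40 + 1024 i + r` says that the first `r`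
corners are put to the end and that the row of index `i` of the table `wk` is used; the smaller
hints are those of `ringZ`. -/
def ringZK (c : Tabs) (qt pt wt wk : DT) (hint : Pth → ℕ) (q : Pth) (m : ℕ) : Bool :=
  rForce (hint q) fun g => rIf (Nat.ble (nat_lit 1099511627776) g)
    (rForce (Nat.sub g (nat_lit 1099511627776)) fun f =>
      wkT wk (Nat.div f (nat_lit 1024)) (Pth.rot q (Nat.mod f (nat_lit 1024))) m)
    (ringZ c qt pt wt (fun _ => g) q m)

end

namespace SMap

variable {F : Type u} (T : SMap F) {c : Tabs} {qt pt kt : DT}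

theorem PP_le_PK (a : F) : T.PP c pt a ≤ T.PK c pt kt a := by
  unfold PK
  have h1 : (0 : ℤ) ≤ T.vK kt a := Int.natCast_nonneg _
  have h2 : (0 : ℤ) ≤ T.relab.vK kt a := Int.natCast_nonneg _
  linarith

end SMap

open SMap in
/-- The test of a cell with a row of the table is sound. -/
theorem wkT_ok {c : Tabs} {qt pt kt wk : DT} {F : Type u} (h : c.OKJ qt pt)
    (hM : ∀ T : SMap F, c.MapR T) (hw : DT.all (wkR c qt pt kt wk) wk = true) (i : ℕ) :
    Tabs.RgS (F := F) (fun T => T.PK c pt kt) (fun T => T.QP c qt) (wkT wk i) := by
  intro T d m hr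
  show 6 * (m : ℤ) ≤ ∑ i ∈ range (Function.minimalPeriod T.N d),
    (T.PK c pt kt (T.N^[i + 1] d) + T.QP c qt (T.N^[i + 1] d))
  have hr' : DL.rec (motive := fun _ => Bool) false (fun v r _ _ =>
    rAnd (Nat.ble m v) (DR.pfb false r (T.pthO d))) (DT.get wk i) = true := hr
  cases hl : DT.get wk i with
  | nil =>
    rw [hl] at hr'
    exact absurd (show false = true from hr') (by decide)
  | g v r l' =>
    have h1 : wkR c qt pt kt wk i (DL.g v r l') = true := by
      rcases DT.get_of_all hw i with h1 | h1
      · rw [hl] at h1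
        cases h1
      · rwa [hl] at h1
    rw [hl] at hr'
    obtain ⟨h3, h4⟩ := rAnd_iff.1
      (show rAnd (Nat.ble m v) (DR.pfb false r (T.pthO d)) = true from hr')
    have hmv : (m : ℤ) ≤ v := by exact_mod_cast Nat.le_of_ble_eq_true h3
    rw [T.pthO_pw d] at h4
    obtain ⟨n, hn, e1, e2⟩ := pfb_pw _ _ _ h4
    have e1' : r = T.cdw d n := e1
    have e3 : n = Function.minimalPeriod T.N d := e2 rfl
    subst e3
    cases l' with
    | nil => exact absurd (show false = true from h1) (by decide)
    | g i0 q l2 =>
      obtain ⟨h5, h6⟩ := rAnd_iff.1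
        (show rAnd (DL.rec (motive := fun _ => Bool) false (fun v0 r0 _ _ =>
          rAnd (Nat.ble v v0) (DR.sgm r r0)) (DT.get wk i0))
          (ringKN c qt pt kt (DR.pth r) v) = true from h1)
      rw [e1'] at h6
      have h7 := T.cellK_le h hM d h6
      cases hl0 : DT.get wk i0 with
      | nil =>
        rw [hl0] at h5
        exact absurd (show false = true from h5) (by decide)
      | g v0 r0 l0 =>
        have hw1 : wkR c qt pt kt wk i0 (DL.g v0 r0 l0) = true := by
          rcases DT.get_of_all hw i0 with h1 | h1
          · rw [hl0] at h1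
            cases h1
          · rwa [hl0] at h1
        rw [hl0] at h5
        obtain ⟨h8, h9⟩ := rAnd_iff.1
          (show rAnd (Nat.ble v v0) (DR.sgm r r0) = true from h5)
        have hvv : (v : ℤ) ≤ v0 := by exact_mod_cast Nat.le_of_ble_eq_true h8
        rw [e1'] at h9
        have e4 : r0 = T.relab.cdw d _ := T.cdw_relab h9
        cases l0 with
        | nil => exact absurd (show false = true from hw1) (by decide)
        | g i3 q3 l3 =>
          obtain ⟨-, h10⟩ := rAnd_iff.1
            (show rAnd (DL.rec (motive := fun _ => Bool) false (fun v1 r1 _ _ =>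
              rAnd (Nat.ble v0 v1) (DR.sgm r0 r1)) (DT.get wk i3))
              (ringKN c qt pt kt (DR.pth r0) v0) = true from hw1)
          rw [e4] at h10
          have h11 := T.relab.cellK_le h hM d h10
          have h12 : ∑ i ∈ range (Function.minimalPeriod T.relab.N d),
              (T.relab.PP c pt (T.relab.N^[i + 1] d) +
                2 * (T.relab.vK kt (T.relab.N^[i + 1] d) : ℤ) +
                T.relab.QP c qt (T.relab.N^[i + 1] d)) =
              ∑ i ∈ range (Function.minimalPeriod T.N d),
              (T.PP c pt (T.N^[i + 1] d) + 2 * (T.relab.vK kt (T.N^[i + 1] d) : ℤ) +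
                T.QP c qt (T.N^[i + 1] d)) :=
            Finset.sum_congr rfl fun i _ => by
              rw [T.relab_PP h hM, T.relab_QP h hM]
              rfl
          rw [h12] at h11
          unfold PK
          simp only [Finset.sum_add_distrib, ← Finset.mul_sum] at h7 h11 ⊢
          linarith

open SMap in
/-- **The test of the rings around a cell with further shares is sound**, for all hints. -/
theorem ringZK_ok {c : Tabs} {qt pt kt wt wk : DT} {F : Type u} (h : c.OKJ qt pt)
    (hM : ∀ T : SMap F, c.MapR T) (hw : DT.all (wzR c qt pt wt) wt = true)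
    (hk : DT.all (wkR c qt pt kt wk) wk = true) (hint : Pth → ℕ) :
    Tabs.RgS (F := F) (fun T => T.PK c pt kt) (fun T => T.QP c qt)
      (ringZK c qt pt wt wk hint) := by
  intro T d m hr
  unfold ringZK at hr
  rw [rForce_eq] at hr
  cases hb : Nat.ble (nat_lit 1099511627776) (hint (T.pthO d)) with
  | true =>
    rw [hb, rIf_true, rForce_eq, ← T.pthO_rot] at hr
    have h1 := wkT_ok h hM hk _ T _ m hr
    rw [T.sum_rot (fun a => T.PK c pt kt a + T.QP c qt a)] at h1
    exact h1
  | false =>
    rw [hb, rIf_false] at hr
    have h1 := ringZ_ok h hM hw (fun _ => hint (T.pthO d)) T d m hr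
    refine le_trans h1 (Finset.sum_le_sum fun i _ => ?_)
    have := T.PP_le_PK (c := c) (pt := pt) (kt := kt) (T.N^[i + 1] d)
    show T.PP c pt _ + T.QP c qt _ ≤ T.PK c pt kt _ + T.QP c qt _
    linarith

end Pool.Agent.Lib.MP_5854e1_co
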