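import Pool.Agent.Lib.MP_5854e1_co.Cert3

/-!
From the numerical certificate to group elements.
-/

set_option autoImplicit false

namespace Pool.Agent.Lib.MP_5854e1_co

/-- Vectors. -/
abbrev V12 := Fin 12 → ZMod 3

/-- The entries as elements of the field. -/
def t3 (e f g : Fin 12) : ZMod 3 := (tN e f g : ZMod 3)

/-- The trilinear form. -/
def T3 : Tri V12 where
  tx := LinearMap.mk₂ (ZMod 3) (fun x y g => ∑ e, ∑ f, t3 e f g * x e * y f)
    (by intro x x' y; ext g; simp only [Pi.add_apply, mul_add, add_mul, Finset.sum_add_distrib])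
    (by
      intro c x y; ext g
      simp only [Pi.smul_apply, smul_eq_mul, Finset.mul_sum]
      refine Finset.sum_congr rfl fun e _ => Finset.sum_congr rfl fun f _ => by ring)
    (by intro x y y'; ext g; simp only [Pi.add_apply, mul_add, Finset.sum_add_distrib])
    (by
      intro c x y; ext g
      simp only [Pi.smul_apply, smul_eq_mul, Finset.mul_sum]
      refine Finset.sum_congr rfl fun e _ => Finset.sum_congr rfl fun f _ => by ring)
  ty := LinearMap.mk₂ (ZMod 3) (fun x y g => ∑ e, ∑ f, t3 g e f * x e * y f)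
    (by intro x x' y; ext g; simp only [Pi.add_apply, mul_add, add_mul, Finset.sum_add_distrib])
    (by
      intro c x y; ext g
      simp only [Pi.smul_apply, smul_eq_mul, Finset.mul_sum]
      refine Finset.sum_congr rfl fun e _ => Finset.sum_congr rfl fun f _ => by ring)
    (by intro x y y'; ext g; simp only [Pi.add_apply, mul_add, Finset.sum_add_distrib])
    (by
      intro c x y; ext g
      simp only [Pi.smul_apply, smul_eq_mul, Finset.mul_sum]
      refine Finset.sum_congr rfl fun e _ => Finset.sum_congr rfl fun f _ => by ring)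
  dot := LinearMap.mk₂ (ZMod 3) (fun x y => ∑ g, x g * y g)
    (by intro x x' y; simp only [Pi.add_apply, add_mul, Finset.sum_add_distrib])
    (by
      intro c x y
      simp only [Pi.smul_apply, smul_eq_mul, Finset.mul_sum]
      refine Finset.sum_congr rfl fun e _ => by ring)
    (by intro x y y'; simp only [Pi.add_apply, mul_add, Finset.sum_add_distrib])
    (by
      intro c x y
      simp only [Pi.smul_apply, smul_eq_mul, Finset.mul_sum]
      refine Finset.sum_congr rfl fun e _ => by ring)
  key := by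
    intro x y z
    simp only [LinearMap.mk₂_apply, Finset.sum_mul]
    rw [Finset.sum_comm]
    refine Finset.sum_congr rfl fun e _ => ?_
    rw [Finset.sum_comm]
    refine Finset.sum_congr rfl fun f _ => Finset.sum_congr rfl fun g _ => by ring

theorem T3_tx (x y : V12) (g : Fin 12) : T3.tx x y g = ∑ e, ∑ f, t3 e f g * x e * y f := rfl

theorem T3_ty (x y : V12) (g : Fin 12) : T3.ty x y g = ∑ e, ∑ f, t3 g e f * x e * y f := rfl

theorem T3_dot (x y : V12) : T3.dot x y = ∑ g, x g * y g := rfl

/-- The vector of a sparse vector. -/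
def vec (l : Sp) : V12 := (l.map fun p => (Pi.single p.1 (p.2 : ZMod 3) : V12)).sum

theorem vec_nil : vec [] = 0 := rfl

theorem vec_cons (p : Fin 12 × ℕ) (l : Sp) :
    vec (p :: l) = (Pi.single p.1 (p.2 : ZMod 3) : V12) + vec l := rfl

theorem vec_append (l m : Sp) : vec (l ++ m) = vec l + vec m := by
  simp [vec]

theorem vec_flatten (ls : List Sp) : vec ls.flatten = (ls.map vec).sum := by
  induction ls with
  | nil => rfl
  | cons l ls ih => rw [List.flatten_cons, vec_append, List.map_cons, List.sum_cons, ih]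

theorem vec_apply (l : Sp) (k : Fin 12) : vec l k = (lco l k : ZMod 3) := by
  induction l with
  | nil => simp [vec, lco]
  | cons p l ih =>
    rw [vec_cons, Pi.add_apply, ih]
    simp only [lco, List.map_cons, List.sum_cons, Nat.cast_add]
    congr 1
    by_cases h : p.1 = k
    · subst h; simp
    · rw [if_neg h, Pi.single_eq_of_ne (Ne.symm h)]; simp

theorem tx_single (e f : Fin 12) (a b : ZMod 3) (g : Fin 12) :
    T3.tx (Pi.single e a) (Pi.single f b) g = t3 e f g * a * b := by
  rw [T3_tx, Finset.sum_eq_single e, Finset.sum_eq_single f]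
  · simp
  · intro c _ hc; simp [Pi.single_eq_of_ne hc]
  · intro h; exact absurd (Finset.mem_univ _) h
  · intro c _ hc; simp [Pi.single_eq_of_ne hc]
  · intro h; exact absurd (Finset.mem_univ _) h

theorem ty_single (e f : Fin 12) (a b : ZMod 3) (g : Fin 12) :
    T3.ty (Pi.single e a) (Pi.single f b) g = t3 g e f * a * b := by
  rw [T3_ty, Finset.sum_eq_single e, Finset.sum_eq_single f]
  · simp
  · intro c _ hc; simp [Pi.single_eq_of_ne hc]
  · intro h; exact absurd (Finset.mem_univ _) h
  · intro c _ hc; simp [Pi.single_eq_of_ne hc]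
  · intro h; exact absurd (Finset.mem_univ _) h

theorem tx_single_vec (e : Fin 12) (a : ℕ) (m : Sp) (g : Fin 12) :
    T3.tx (Pi.single e (a : ZMod 3)) (vec m) g =
      (((m.map fun q => a * q.2 * tN e q.1 g).sum : ℕ) : ZMod 3) := by
  induction m with
  | nil => rw [vec_nil, map_zero]; simp
  | cons q m ih =>
    rw [vec_cons, map_add, Pi.add_apply, ih, tx_single]
    simp only [List.map_cons, List.sum_cons, Nat.cast_add, Nat.cast_mul, t3]
    ring

theorem ty_single_vec (e : Fin 12) (a : ℕ) (m : Sp) (g : Fin 12) :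
    T3.ty (Pi.single e (a : ZMod 3)) (vec m) g =
      (((m.map fun q => a * q.2 * tN g e q.1).sum : ℕ) : ZMod 3) := by
  induction m with
  | nil => rw [vec_nil, map_zero]; simp
  | cons q m ih =>
    rw [vec_cons, map_add, Pi.add_apply, ih, ty_single]
    simp only [List.map_cons, List.sum_cons, Nat.cast_add, Nat.cast_mul, t3]
    ring

theorem tx_vec (l m : Sp) (g : Fin 12) : T3.tx (vec l) (vec m) g = (ltx l m g : ZMod 3) := by
  induction l with
  | nil => rw [vec_nil, map_zero]; simp [ltx]
  | cons p l ih =>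
    rw [vec_cons, map_add, LinearMap.add_apply, Pi.add_apply, ih, tx_single_vec]
    simp only [ltx, List.map_cons, List.sum_cons, Nat.cast_add]

theorem ty_vec (l m : Sp) (g : Fin 12) : T3.ty (vec l) (vec m) g = (lty l m g : ZMod 3) := by
  induction l with
  | nil => rw [vec_nil, map_zero]; simp [lty]
  | cons p l ih =>
    rw [vec_cons, map_add, LinearMap.add_apply, Pi.add_apply, ih, ty_single_vec]
    simp only [lty, List.map_cons, List.sum_cons, Nat.cast_add]

theorem dot_single (x : V12) (e : Fin 12) (a : ZMod 3) :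
    T3.dot x (Pi.single e a) = x e * a := by
  rw [T3_dot, Finset.sum_eq_single e]
  · simp
  · intro c _ hc; simp [Pi.single_eq_of_ne hc]
  · intro h; exact absurd (Finset.mem_univ _) h

theorem dot_vec (l m n : Sp) :
    T3.dot (T3.tx (vec l) (vec m)) (vec n) = (ltri l m n : ZMod 3) := by
  induction n with
  | nil => rw [vec_nil, map_zero]; simp [ltri]
  | cons r n ih =>
    rw [vec_cons, map_add, ih, dot_single, tx_vec]
    simp only [ltri, List.map_cons, List.sum_cons, Nat.cast_add, Nat.cast_mul]
    ring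

theorem inc_vec (l m : Sp) : TG.inc T3 (vec l) (vec m) = (linc l m : ZMod 3) := by
  rw [TG.inc, dot_vec, dot_vec, linc]
  push_cast
  ring

theorem cen_vec (ls : List Sp) : TG.cen T3 (ls.map vec) = (lcen ls : ZMod 3) := by
  induction ls with
  | nil => simp [TG.cen, lcen]
  | cons l ls ih =>
    rw [List.map_cons, TG.cen, ih, ← vec_flatten, inc_vec, lcen]
    push_cast
    rfl

theorem cast_eq_of_mod {a b : ℕ} (h : a % 3 = b % 3) : (a : ZMod 3) = (b : ZMod 3) :=
  (ZMod.natCast_eq_natCast_iff' a b 3).2 h

theorem vec_neg (u v : Fin 7) : vec (eL v u) = - vec (eL u v) := by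
  rw [eq_neg_iff_add_eq_zero, add_comm]
  ext k
  rw [Pi.add_apply, vec_apply, vec_apply, ← Nat.cast_add]
  have := cast_eq_of_mod (a := lco (eL u v) k + lco (eL v u) k) (b := 0) (check_neg u v k)
  simpa using this

theorem com_vec {u v w : Fin 7} (h1 : K1222.Adj u v) (h2 : K1222.Adj u w) :
    TG.Com T3 (vec (eL u v)) (vec (eL u w)) := by
  constructor
  · ext k
    rw [tx_vec, tx_vec]
    exact cast_eq_of_mod (check_tx u v w h1 h2 k)
  · ext k
    rw [ty_vec, ty_vec]
    exact cast_eq_of_mod (check_ty u v w h1 h2 k)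

theorem sum_vec (u : Fin 7) : ((nb u).map fun v => vec (eL u v)).sum = 0 := by
  have h : ((nb u).map fun v => vec (eL u v)) = ((nb u).map (eL u)).map vec := by
    rw [List.map_map]; rfl
  rw [h, ← vec_flatten]
  ext k
  rw [vec_apply]
  have := cast_eq_of_mod (a := lco ((nb u).map (eL u)).flatten k) (b := 0) (check_sum u k)
  simpa using this

theorem cen_nb (u : Fin 7) : TG.cen T3 ((nb u).map fun v => vec (eL u v)) =
    if u = 0 then 1 else 0 := by
  have h : ((nb u).map fun v => vec (eL u v)) = ((nb u).map (eL u)).map vec := by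
    rw [List.map_map]; rfl
  rw [h, cen_vec, cast_eq_of_mod (b := if u = 0 then 1 else 0)]
  · split_ifs <;> simp
  · rw [check_cen u]; split_ifs <;> rfl

/-- The group element of the edge from `u` to `v`. -/
def g3 (u v : Fin 7) : TG T3 := TG.P (vec (eL u v)) 0

theorem g3_inv (u v : Fin 7) : g3 v u = (g3 u v)⁻¹ := by
  rw [g3, g3, vec_neg, TG.P_inv]

/-- The vertex words, in any order of the neighbours. -/
theorem prod_g3 (u : Fin 7) (l : List (Fin 7)) (hn : l.Nodup) (hl : ∀ v, v ∈ l ↔ K1222.Adj u v) :
    (l.map (g3 u)).prod = TG.z (if u = 0 then 1 else 0) := by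
  have hp : l.Perm (nb u) := (List.perm_ext_iff_of_nodup hn (nodup_nb u)).2 fun v => by
    rw [hl, mem_nb]
  have hcom : ∀ x ∈ l, ∀ y ∈ l, TG.Com T3 (vec (eL u x)) (vec (eL u y)) := fun x hx y hy =>
    com_vec ((hl x).1 hx) ((hl y).1 hy)
  have h1 : (l.map (g3 u)).prod = ((nb u).map (g3 u)).prod := by
    refine (hp.map (g3 u)).prod_eq' ?_
    rw [List.pairwise_map]
    refine List.Pairwise.imp_of_mem (R := fun _ _ => True) ?_ (by
      rw [List.pairwise_iff_forall_sublist]; simp)
    intro x y hx hy _
    exact TG.P_comm (hcom x hx y hy)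
  have h2 : ((nb u).map (g3 u)) =
      (((nb u).map fun v => vec (eL u v)).map fun x => (TG.P x 0 : TG T3)) := by
    rw [List.map_map]; rfl
  rw [h1, h2, TG.prod_P, sum_vec, cen_nb, TG.P_zero]
  intro x hx y hy
  obtain ⟨v, hv, rfl⟩ := List.mem_map.1 hx
  obtain ⟨w, hw, rfl⟩ := List.mem_map.1 hy
  exact com_vec (mem_nb.1 hv) (mem_nb.1 hw)

end Pool.Agent.Lib.MP_5854e1_co
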