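import Pool.Agent.Lib.MP_5854e1_co.Cert3

/-!
The certificate of degree two for `K_{1,2,2,2}`.
-/

set_option autoImplicit false

namespace Pool.Agent.Lib.MP_5854e1_co

/-- Vectors over the field with two elements. -/
abbrev V2 := Fin 12 → ZMod 2

/-- A bilinear form. -/
def B2 (x y : V2) : ZMod 2 := x 0 * y 6 + x 0 * y 7 + x 2 * y 4 + x 2 * y 7 + x 3 * y 8

theorem B2_add_left (x x' y : V2) : B2 (x + x') y = B2 x y + B2 x' y := by
  simp only [B2, Pi.add_apply]; ring

theorem B2_add_right (x y y' : V2) : B2 x (y + y') = B2 x y + B2 x y' := by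
  simp only [B2, Pi.add_apply]; ring

theorem B2_zero_right (x : V2) : B2 x 0 = 0 := by
  simp [B2]

theorem B2_zero_left (x : V2) : B2 0 x = 0 := by
  simp [B2]

/-- A group of order `2 ^ 13`. -/
@[ext]
structure BG where
  v : V2
  s : ZMod 2

namespace BG

instance : Mul BG := ⟨fun a b => ⟨a.v + b.v, a.s + b.s + B2 a.v b.v⟩⟩

instance : One BG := ⟨⟨0, 0⟩⟩

instance : Inv BG := ⟨fun a => ⟨a.v, a.s + B2 a.v a.v⟩⟩

theorem mul_v (a b : BG) : (a * b).v = a.v + b.v := rfl
theorem mul_s (a b : BG) : (a * b).s = a.s + b.s + B2 a.v b.v := rfl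
theorem one_v : (1 : BG).v = 0 := rfl
theorem one_s : (1 : BG).s = 0 := rfl
theorem inv_v (a : BG) : a⁻¹.v = a.v := rfl
theorem inv_s (a : BG) : a⁻¹.s = a.s + B2 a.v a.v := rfl

theorem add_self_V2 (x : V2) : x + x = 0 := by
  ext k; exact CharTwo.add_self_eq_zero (x k)

theorem add_self_2 (x : ZMod 2) : x + x = 0 := CharTwo.add_self_eq_zero x

instance : Group BG := Group.ofLeftAxioms
  (by
    intro a b c
    ext1
    · simp only [mul_v]; abel
    · simp only [mul_v, mul_s, B2_add_left, B2_add_right]; ring)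
  (by
    intro a
    ext1
    · simp only [mul_v, one_v, zero_add]
    · simp only [mul_s, one_s, one_v, B2_zero_left, zero_add, add_zero])
  (by
    intro a
    ext1
    · simp only [mul_v, inv_v, one_v, add_self_V2]
    · simp only [mul_s, inv_s, inv_v, one_s]
      have h1 := add_self_2 a.s
      have h2 := add_self_2 (B2 a.v a.v)
      linear_combination h1 + h2)

/-- The central elements. -/
def z (c : ZMod 2) : BG := ⟨0, c⟩

theorem z_mul (c c' : ZMod 2) : z c * z c' = z (c + c') := by
  ext1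
  · simp [z, mul_v]
  · simp [z, mul_s, B2_zero_left]

theorem z_zero : z 0 = 1 := rfl

theorem z_conj (c : ZMod 2) (h : BG) : h * z c * h⁻¹ = z c := by
  have : h * z c = z c * h := by
    ext1
    · simp [z, mul_v]
    · simp only [z, mul_s, B2_zero_left, B2_zero_right]; ring
  rw [this, mul_inv_cancel_right]

/-- The element of a vector. -/
def P (S : V2) (c : ZMod 2) : BG := ⟨S, c⟩

theorem P_mul (x S : V2) (c : ZMod 2) : P x 0 * P S c = P (x + S) (c + B2 x S) := by
  ext1
  · rfl
  · simp [P, mul_s]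

theorem P_comm {x y : V2} (h : B2 x y = B2 y x) : Commute (P x 0) (P y 0) := by
  rw [Commute, SemiconjBy, P_mul, P_mul, h, add_comm y x]

/-- The central part of the product of a list. -/
def cen : List V2 → ZMod 2
  | [] => 0
  | x :: l => cen l + B2 x l.sum

theorem prod_P : ∀ l : List V2, (l.map fun x => P x 0).prod = P l.sum (cen l)
  | [] => rfl
  | x :: l => by
    rw [List.map_cons, List.prod_cons, prod_P l, P_mul, List.sum_cons]
    rfl

end BG

/-- The vector of an edge. -/
def x2 (u v : Fin 7) : V2 := fun k => if (eL u v).any (fun p => p.1 == k) then 1 else 0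

theorem check2_symm : ∀ u v : Fin 7, x2 v u = x2 u v := by decide +kernel

theorem check2_self : ∀ u v : Fin 7, B2 (x2 u v) (x2 u v) = 0 := by decide +kernel

theorem check2_com : ∀ u v w : Fin 7, K1222.Adj u v → K1222.Adj u w →
    B2 (x2 u v) (x2 u w) = B2 (x2 u w) (x2 u v) := by decide +kernel

theorem check2_sum : ∀ u : Fin 7, ((nb u).map (x2 u)).sum = 0 := by decide +kernel

theorem check2_cen : ∀ u : Fin 7, BG.cen ((nb u).map (x2 u)) = if u = 0 then 1 else 0 := by
  decide +kernel

/-- The group element of the edge from `u` to `v`. -/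
def g2 (u v : Fin 7) : BG := BG.P (x2 u v) 0

theorem g2_inv (u v : Fin 7) : g2 v u = (g2 u v)⁻¹ := by
  rw [g2, check2_symm]
  ext1
  · rfl
  · rw [BG.inv_s]
    show (0 : ZMod 2) = 0 + B2 (x2 u v) (x2 u v)
    rw [check2_self, zero_add]

theorem prod_g2 (u : Fin 7) (l : List (Fin 7)) (hn : l.Nodup) (hl : ∀ v, v ∈ l ↔ K1222.Adj u v) :
    (l.map (g2 u)).prod = BG.z (if u = 0 then 1 else 0) := by
  have hp : l.Perm (nb u) := (List.perm_ext_iff_of_nodup hn (nodup_nb u)).2 fun v => by
    rw [hl, mem_nb]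
  have h1 : (l.map (g2 u)).prod = ((nb u).map (g2 u)).prod := by
    refine (hp.map (g2 u)).prod_eq' ?_
    rw [List.pairwise_map]
    refine List.Pairwise.imp_of_mem (R := fun _ _ => True) ?_ (by
      rw [List.pairwise_iff_forall_sublist]; simp)
    intro x y hx hy _
    exact BG.P_comm (check2_com u x y ((hl x).1 hx) ((hl y).1 hy))
  have h2 : ((nb u).map (g2 u)) = (((nb u).map (x2 u)).map fun x => BG.P x 0) := by
    rw [List.map_map]; rfl
  rw [h1, h2, BG.prod_P, check2_sum, check2_cen]
  rfl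

end Pool.Agent.Lib.MP_5854e1_co
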