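import Pool.Agent.Lib.MP_5854e1_co.Cover
import Pool.Agent.Lib.MP_5854e1_co.Two
import Pool.Agent.Lib.MP_5854e1_co.Three

/-!
The number of sheets of a planar cover of `K_{1,2,2,2}` is divisible by six.
-/

set_option autoImplicit false

namespace Pool.Agent.Lib.MP_5854e1_co

variable {W : Type*} {H : SimpleGraph W} {φ : W → Fin 7}

theorem fib_eq_zero_fib [Finite W] (hφ : IsCover H K1222 φ) (u : Fin 7) : fib φ u = fib φ 0 := by
  by_cases h : u = 0
  · rw [h]
  · have : K1222.Adj u 0 := by
      revert u; decide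
    exact fib_eq_of_adj hφ this

theorem sum_ite_nodup {X A : Type*} [DecidableEq X] [AddCommMonoid A] (e : X) (a : A)
    (l : List X) (hn : l.Nodup) :
    (l.map fun d => if d = e then a else 0).sum = if e ∈ l then a else 0 := by
  induction l with
  | nil => simp
  | cons x l ih =>
    rw [List.nodup_cons] at hn
    rw [List.map_cons, List.sum_cons, ih hn.2]
    by_cases h : x = e
    · subst h
      rw [if_pos rfl, if_neg hn.1, if_pos List.mem_cons_self, add_zero]
    · rw [if_neg h, zero_add]
      by_cases h2 : e ∈ l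
      · rw [if_pos h2, if_pos (List.mem_cons_of_mem _ h2)]
      · rw [if_neg h2, if_neg]
        intro h3
        exact (List.mem_cons.1 h3).elim (fun h4 => h h4.symm) h2

/-- General form of the argument for one prime. -/
theorem sheets_relation [Finite W] (hφ : IsCover H K1222 φ) (hpl : IsPlanar H)
    [hne : Nonempty W] {Γ A : Type*} [Group Γ] [AddCommMonoid A] (g : Fin 7 → Fin 7 → Γ)
    (a : A) (Q : A → Set Γ) (hg : ∀ u v, g v u = (g u v)⁻¹)
    (hmul : ∀ a b x y, x ∈ Q a → y ∈ Q b → x * y ∈ Q (a + b))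
    (hconj : ∀ a x h, x ∈ Q a → h * x * h⁻¹ ∈ Q a)
    (hv : ∀ (u : Fin 7) (l : List (Fin 7)), l.Nodup → (∀ v, v ∈ l ↔ K1222.Adj u v) →
      (l.map (g u)).prod ∈ Q (if u = 0 then a else 0)) :
    (1 : Γ) ∈ Q (fib φ 0 • a) := by
  classical
  obtain ⟨v0⟩ := hne
  have hex : ∀ u : Fin 7, ∃ v, K1222.Adj u v := by decide
  have : Nonempty H.Dart := by
    obtain ⟨y, hy⟩ := hex (φ v0)
    obtain ⟨d, -, -⟩ := hφ.dart_surj v0 ⟨(φ v0, y), hy⟩ rfl
    exact ⟨d⟩
  have h01 : K1222.Adj 0 1 := by decide
  let e0 : K1222.Dart := ⟨(0, 1), h01⟩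
  have h := cover_planar_lemma hφ hpl (fun d : K1222.Dart => g d.fst d.snd)
    (fun d => if d = e0 then a else 0) Q (fun d => hg d.fst d.snd) hmul hconj ?_
  · have hfd := finsum_dart hφ (fun d => if d = e0 then a else 0)
    beta_reduce at hfd
    rw [hfd, finsum_eq_single _ e0] at h
    · rw [if_pos rfl] at h
      exact h
    · intro d hd
      rw [if_neg hd, smul_zero]
  · intro u l hn hl
    have h1 := hv u (l.map fun d => d.snd) ?_ ?_
    · have e1 : (l.map fun d : K1222.Dart => g d.fst d.snd) =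
          (l.map fun d => d.snd).map (g u) := by
        rw [List.map_map]
        refine List.map_congr_left fun d hd => ?_
        simp only [Function.comp_apply, (hl d).1 hd]
      have e2 : (l.map fun d => if d = e0 then a else 0).sum = if u = 0 then a else 0 := by
        rw [sum_ite_nodup e0 a l hn]
        by_cases hu : u = 0
        · have : e0 ∈ l := (hl e0).2 hu.symm
          rw [if_pos this, if_pos hu]
        · have : e0 ∉ l := fun h => hu ((hl e0).1 h).symm
          rw [if_neg this, if_neg hu]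
      rw [e1, e2]
      exact h1
    · refine List.Nodup.map_on ?_ hn
      intro x hx y hy hxy
      exact SimpleGraph.Dart.ext _ _ (Prod.ext (((hl x).1 hx).trans ((hl y).1 hy).symm) hxy)
    · intro v
      rw [List.mem_map]
      constructor
      · rintro ⟨d, hd, rfl⟩
        rw [← (hl d).1 hd]; exact d.adj
      · intro hv
        exact ⟨⟨(u, v), hv⟩, (hl _).2 rfl, rfl⟩

theorem three_dvd [Finite W] (hφ : IsCover H K1222 φ) (hpl : IsPlanar H) : 3 ∣ fib φ 0 := by
  rcases isEmpty_or_nonempty W with hW | hW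
  · have : fib φ 0 = 0 := by
      unfold fib
      rw [Nat.card_eq_zero]
      exact Or.inl ⟨fun x => hW.false x.1⟩
    rw [this]; exact dvd_zero 3
  · have h := sheets_relation hφ hpl g3 (1 : ZMod 3) (fun c => {TG.z c}) g3_inv ?_ ?_ ?_
    · have h2 : (1 : TG T3) = TG.z (fib φ 0 • (1 : ZMod 3)) := h
      have h3 := congrArg TG.s h2
      have h4 : (0 : ZMod 3) = fib φ 0 • (1 : ZMod 3) := h3
      rw [nsmul_one] at h4
      exact (ZMod.natCast_eq_zero_iff _ _).1 h4.symm
    · rintro a b x y hx hy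
      rw [Set.mem_singleton_iff] at hx hy ⊢
      rw [hx, hy, TG.z_mul]
    · rintro a x h hx
      rw [Set.mem_singleton_iff] at hx ⊢
      rw [hx, TG.z_conj]
    · intro u l hn hl
      rw [prod_g3 u l hn hl]
      split_ifs <;> rfl

theorem two_dvd [Finite W] (hφ : IsCover H K1222 φ) (hpl : IsPlanar H) : 2 ∣ fib φ 0 := by
  rcases isEmpty_or_nonempty W with hW | hW
  · have : fib φ 0 = 0 := by
      unfold fib
      rw [Nat.card_eq_zero]
      exact Or.inl ⟨fun x => hW.false x.1⟩
    rw [this]; exact dvd_zero 2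
  · have h := sheets_relation hφ hpl g2 (1 : ZMod 2) (fun c => {BG.z c}) g2_inv ?_ ?_ ?_
    · have h2 : (1 : BG) = BG.z (fib φ 0 • (1 : ZMod 2)) := h
      have h3 := congrArg BG.s h2
      have h4 : (0 : ZMod 2) = fib φ 0 • (1 : ZMod 2) := h3
      rw [nsmul_one] at h4
      exact (ZMod.natCast_eq_zero_iff _ _).1 h4.symm
    · rintro a b x y hx hy
      rw [Set.mem_singleton_iff] at hx hy ⊢
      rw [hx, hy, BG.z_mul]
    · rintro a x h hx
      rw [Set.mem_singleton_iff] at hx ⊢
      rw [hx, BG.z_conj]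
    · intro u l hn hl
      rw [prod_g2 u l hn hl]
      split_ifs <;> rfl

end Pool.Agent.Lib.MP_5854e1_co
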