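import Pool.Agent.Lib.MP_5854e1_co.HalfReg
import Pool.Agent.Lib.MP_5854e1_co.Tabs
import Pool.Agent.Lib.MP_5854e1_co.AntiMap

/-!
# The bound, with the halved checks and the slack of the closures

The slack of the closure over a triangle is given back to its three corners, the slack of the closure
over the region of a strip to its two ends: the value of a cell may be as large as its share of the
slacks around it.
-/

set_option autoImplicit false

open Equiv Equiv.Perm

namespace Pool.Agent.Lib.MP_5854e1_co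

open Finset PB

namespace Tabs

variable (c : Tabs)

/-- The checks of the tables without the closures over the triangles and the regions. -/
structure OKB : Prop where
  u_pos : 0 < c.u
  qo_le : c.qo ≤ c.u
  wps : ∀ k < 101, ∀ o < optN k, wH c.sp c.ps c.rt c.tw k o = true
  rsv : DT.all (rtR c.zt) c.rt = true
  quad : ∀ k1 < 101, ∀ k3 ≤ k1,
    qPair c.q c.w (2 ^ c.w) (2 ^ (3 * c.w)) (4 * c.qo) k1 k3 = true
  qtok : ∀ k < 101, sL0 c.q c.w (2 ^ c.w) (4 * c.qo) c.t4 k = true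
  low : ∀ k < 101, lowK c.q c.q5 c.w (2 ^ c.w) c.t4 k = true
  penta : PentaOK c.q5 c.w (2 ^ c.w) (5 * c.qo) (3 * c.u) c.zm c.t0 c.t1
  tm : ∀ k < 101, tmChk c.tr c.m k = true
  symQ4 : ∀ k < 101, symQ c.m c.t4 k = true
  symD : ∀ k < 101, ∀ o < optN k, sH c.t k o = true
  symW : ∀ k < 101, ∀ o < optN k, sH c.tw k o = true
  symZ : DT.all (symY c.zt) c.zt = true
  tkD : ∀ k < 101, symTK c.D k = true

/-- The checks of the tables, for one of two reflected keys. -/
structure OKR : Prop extends c.OKB where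
  del : ∀ k < 101, ∀ o < optN k, stH c.D c.sp c.ps c.t c.rt k o = true
  reg : DT.all (regH c.gp c.gm c.sp c.ps c.rt c.zt c.tw) c.zt = true

end Tabs

/-- What the tables of a certificate say about all maps of strips, for the bound. -/
structure Tabs.MapR (c : Tabs) {F : Type*} (T : SMap F) : Prop where
  anti : ∀ d : F, 0 ≤ T.gz c.G d + T.gz c.G (T.bk d)
  hG : ∀ d : F, T.Tri d → T.Tri (T.N d) → (T.gzN c.gp d : ℤ) - T.gzN c.gm d ≤ T.gz c.G d
  need : ∀ d : F, T.ndt c d ≤ T.ggt c d ∨ T.ndt c d ≤ T.ndt c (T.N d) - T.gz c.V d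
  symV : ∀ d : F, T.relab.gz c.V d = T.gz c.V d
  symN : ∀ d : F, T.relab.ndt c d = T.ndt c d
  symG : ∀ d : F, T.relab.ggt c d = T.ggt c d
  symP : ∀ d : F, T.Tri d → T.relab.cz c.ps d = T.cz c.ps d
  symS : ∀ d : F, T.Tri d → T.relab.cz c.sp d = T.cz c.sp d
  symq : ∀ k < 101, symTK c.q k = true

namespace SMap

variable {F : Type*} (T : SMap F) {c : Tabs}

/-! ### Reflection -/

theorem relab_Yt (h : c.OKB) (hM : c.MapR T) (d : F) : T.relab.Yt c d = T.Yt c d := by
  by_cases ht : T.Tri d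
  · rw [T.Yt_tri c ht, T.relab.Yt_tri c (show T.relab.Tri d from ht), T.relab_tab h.tkD]
  · have e := T.relab_rs_big ht
    unfold Yt Tabs.Y
    rw [e, T.relab_tab hM.symq, if_neg (fun h1 => ht ((T.rs_lt_iff d).1 h1)),
      if_neg (fun h1 => ht ((T.rs_lt_iff d).1 h1))]

theorem relab_Pt (hM : c.MapR T) (d : F) : T.relab.Pt c d = T.Pt c d := by
  by_cases ht : T.Tri d
  · rw [T.Pt_tri c ht, T.relab.Pt_tri c (show T.relab.Tri d from ht), hM.symP d ht]
  · rw [T.Pt_big c ht, T.relab.Pt_big c (show ¬T.relab.Tri d from ht)]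

/-- The amount moved across a strip. -/
theorem gz_G (d : F) : T.gz c.G d = T.gz c.V d -
    c.α * lsA (T.kx (T.N d)) (optA (T.kx (T.N d)) (T.ox (T.N d))) + 6 * c.u -
      (if T.rs (T.N d) < 7936 then 4 * c.u else 3 * c.u) - T.Yt c (T.N d) - T.Pt c (T.N d) := rfl

theorem relab_gzG (h : c.OKB) (hM : c.MapR T) (d : F) : T.relab.gz c.G d = T.gz c.G d := by
  rw [gz_G, gz_G, hM.symV d]
  have e1 : T.relab.N d = T.N d := rfl
  rw [e1, T.relab_lsA, T.relab_Yt h hM, T.relab_Pt hM]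
  have e2 : (T.relab.rs (T.N d) < 7936) ↔ (T.rs (T.N d) < 7936) := by
    rw [T.relab.rs_lt_iff, T.rs_lt_iff]
    exact Iff.rfl
  simp only [e2]

section relabel

variable (h : c.OKB) (hM : ∀ T : SMap F, c.MapR T)

include h hM

theorem relab_PA (d : F) : T.relab.PA c d = T.PA c d := by
  by_cases ht : T.Tri d
  · rw [T.PA_tri ht, T.relab.PA_tri (show T.relab.Tri d from ht),
      T.relab_psA (fun T a ha => (hM T).symP a ha) (fun T a ha => (hM T).symS a ha) ht]
  · rw [T.PA_big ht, T.relab.PA_big (show ¬T.relab.Tri d from ht)]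

theorem relab_dlwR (d : F) : T.relab.dlw c d = T.dlw c d := by
  by_cases ht : T.Tri d
  · rw [T.dlw_tri c ht, T.relab.dlw_tri c (show T.relab.Tri d from ht), T.relab_dlH h.symW ht]
  · rw [T.dlw_big c ht, T.relab.dlw_big c (show ¬T.relab.Tri d from ht)]

theorem relab_dl0R (d : F) : T.relab.dl0 c d = T.dl0 c d := by
  by_cases ht : T.Tri d
  · rw [T.dl0_tri c ht, T.relab.dl0_tri c (show T.relab.Tri d from ht), T.relab_dlH h.symD ht]
  · rw [T.dl0_big c ht, T.relab.dl0_big c (show ¬T.relab.Tri d from ht), T.relab_dq h.tm h.symQ4]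

theorem relab_winR (d : F) : T.relab.win c.zt d = T.win c.zt d := T.relab_win (symZ_of_symY h.symZ) d

theorem relab_dltR (d : F) : T.relab.dlt c d = T.dlt c d := by
  rw [dlt_eq, dlt_eq, T.relab_dl0R h hM, T.relab_dlwR h hM, T.relab_winR h hM]

end relabel

/-- The sum over the region of the strip `N d`. -/
noncomputable def regL (c : Tabs) (d : F) : ℤ :=
  (T.win c.zt d : ℤ) + T.win c.zt (T.bk d) + T.dlw c (T.I (T.N (T.N d))) +
      T.dlw c (T.I (T.N (T.I (T.N d)))) + (T.rtot c.zt d + T.rtot c.zt (T.bk d)) -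
      (T.Pt c (T.I (T.N (T.N d))) - T.PA c (T.I (T.N (T.N d)))) -
      (T.Pt c (T.I (T.N (T.I (T.N d)))) - T.PA c (T.I (T.N (T.I (T.N d))))) -
      T.rz c.zt 1 (T.I (T.N (T.N d))) - T.rz c.zt 2 (T.N d) -
      T.rz c.zt 1 (T.I (T.N (T.I (T.N d)))) - T.rz c.zt 2 (T.I (T.N d))

theorem regL_bk (d : F) : T.regL c (T.bk d) = T.regL c d := by
  unfold regL
  rw [bk_bk, N_bk, I_I]
  ring

section base

variable (h : c.OKB) (hM : ∀ T : SMap F, c.MapR T)

include h hM

theorem relab_regL (d : F) : T.relab.regL c d = T.regL c d := by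
  unfold regL
  have eb : T.relab.bk d = T.bk d := rfl
  simp only [relab_N, relab_I, eb]
  rw [T.relab_winR h hM, T.relab_winR h hM, T.relab_dlwR h hM, T.relab_dlwR h hM,
    T.relab_rtot h.symZ, T.relab_rtot h.symZ, T.relab_Pt (hM T), T.relab_Pt (hM T),
    T.relab_PA h hM, T.relab_PA h hM,
    T.relab_rz h.symZ (by norm_num), T.relab_rz h.symZ (by norm_num),
    T.relab_rz h.symZ (by norm_num), T.relab_rz h.symZ (by norm_num)]

theorem dlw_leR (e f : F) (hf : T.Tri e → T.I (T.N (T.I (T.N e))) = f) :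
    T.dlw c e ≤ (T.Pt c e - T.PA c e) + T.rz c.zt 1 e + T.rz c.zt 2 f := by
  by_cases he : T.Tri e
  · rw [T.dlw_tri c he, T.Pt_sub_PA he, ← hf he]
    exact_mod_cast T.dw_leH (fun T a ha => (hM T).symP a ha) (fun T a ha => (hM T).symS a ha)
      h.wps h.symW h.symZ h.rsv he
  · rw [T.dlw_big c he, T.Pt_big c he, T.PA_big he]
    have h1 : (0 : ℤ) ≤ T.rz c.zt 1 e := Int.natCast_nonneg _
    have h2 : (0 : ℤ) ≤ T.rz c.zt 2 f := Int.natCast_nonneg _
    linarith

end base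

section region

variable (h : c.OKR) (hM : ∀ T : SMap F, c.MapR T)

include h hM

/-- The claims of the row of a window, for the smaller key. -/
theorem reg_leK {e : F} (ha : T.Tri e) (hn : T.Tri (T.N e)) (hk : T.KL e)
    (hz : T.zr c.zt e ≠ DL.nil) :
    ((T.rtot c.zt e : ℤ) + T.rtot c.zt (T.bk e) ≤ T.gz c.G e + T.gz c.G (T.bk e)) ∧
      (0 < T.win c.zt e → T.regL c e ≤ T.gz c.G e + T.gz c.G (T.bk e)) := by
  have h0 := T.reg_atH h.reg h.rsv ha hn hk hz
  have h2 := (hM T).hG e ha hn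
  have h3 := (hM T).hG (T.bk e) ((T.tri_bk e).2 hn) ((T.tri_N_bk e).2 ha)
  refine ⟨?_, fun hw => ?_⟩
  · have h1 := h0.1
    omega
  · have h1 := h0.2 hw
    unfold regL
    have e1 : T.Pt c (T.I (T.N (T.N e))) - T.PA c (T.I (T.N (T.N e))) =
        T.pB c.sp c.ps (T.I (T.N (T.N e))) := T.Pt_sub_PA (T.tri_rot hn)
    have e2 : T.Pt c (T.I (T.N (T.I (T.N e)))) - T.PA c (T.I (T.N (T.I (T.N e)))) =
        T.pB c.sp c.ps (T.I (T.N (T.I (T.N e)))) := T.Pt_sub_PA (T.tri_rot (T.tri_rot ha))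
    rw [T.dlw_tri c (T.tri_rot hn), T.dlw_tri c (T.tri_rot (T.tri_rot ha)), e1, e2]
    omega

/-- The claims of the row of a window. -/
theorem reg_le (e : F) :
    (0 < T.rtot c.zt e →
      (T.rtot c.zt e : ℤ) + T.rtot c.zt (T.bk e) ≤ T.gz c.G e + T.gz c.G (T.bk e)) ∧
      (0 < T.win c.zt e → T.regL c e ≤ T.gz c.G e + T.gz c.G (T.bk e)) := by
  have key : ∀ T : SMap F, (0 < T.rtot c.zt e ∨ 0 < T.win c.zt e) →
      T.Tri e ∧ T.Tri (T.N e) ∧ T.zr c.zt e ≠ DL.nil := by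
    intro T h0
    have ha : T.Tri e := by
      by_contra h1
      have e1 := T.win_left (zt := c.zt) h1
      have e2 : T.rtot c.zt e = 0 := by
        unfold rtot
        rw [T.rz_left h1, T.rz_left h1, T.rz_left h1]
      omega
    have hn : T.Tri (T.N e) := by
      by_contra h1
      have e1 := T.win_right (zt := c.zt) h1
      have e2 : T.rtot c.zt e = 0 := by
        have e3 : ∀ g, T.rz c.zt g e = 0 := fun g => if_neg fun h2 => h1 h2.2
        unfold rtot
        rw [e3, e3, e3]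
      omega
    refine ⟨ha, hn, fun h1 => ?_⟩
    have h4 : DT.get c.zt (zkey (T.kx e) (T.rs e) (T.rs (T.N e))) = DL.nil := h1
    have e1 : T.win c.zt e = 0 := by
      rw [T.win_tri ha hn, h4]
      rfl
    have e2 : T.rtot c.zt e = 0 := by
      unfold rtot
      rw [T.rz_tri ha hn, T.rz_tri ha hn, T.rz_tri ha hn, h4]
      rfl
    omega
  by_cases h0 : 0 < T.rtot c.zt e ∨ 0 < T.win c.zt e
  · obtain ⟨ha, hn, hz⟩ := key T h0
    rcases T.KL_or ha hn with hk | hk
    · exact ⟨fun _ => (T.reg_leK h hM ha hn hk hz).1, (T.reg_leK h hM ha hn hk hz).2⟩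
    · have e1 := T.relab_rtot h.symZ e
      have e2 := T.relab_winR h.toOKB hM e
      have h0' : 0 < T.relab.rtot c.zt e ∨ 0 < T.relab.win c.zt e := by
        rw [e1, e2]
        exact h0
      obtain ⟨ha', hn', hz'⟩ := key T.relab h0'
      have h1 := T.relab.reg_leK h hM ha' hn' hk hz'
      have eb : T.relab.bk e = T.bk e := rfl
      rw [eb, T.relab_rtot h.symZ, T.relab_rtot h.symZ, T.relab_gzG h.toOKB (hM T),
        T.relab_gzG h.toOKB (hM T), e2, T.relab_regL h.toOKB hM] at h1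
      exact ⟨fun _ => h1.1, h1.2⟩
  · push Not at h0
    exact ⟨fun h1 => absurd h1 (by omega), fun h1 => absurd h1 (by omega)⟩

/-- **The amounts moved across a strip and the reserves.** -/
theorem anti_netR (d : F) :
    (T.rtot c.zt d : ℤ) + T.rtot c.zt (T.bk d) ≤ T.gz c.G d + T.gz c.G (T.bk d) := by
  rcases Nat.eq_zero_or_pos (T.rtot c.zt d) with h1 | h1
  · rcases Nat.eq_zero_or_pos (T.rtot c.zt (T.bk d)) with h2 | h2
    · have h3 := (hM T).anti d
      rw [h1, h2]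
      push_cast
      linarith
    · have h3 := (T.reg_le h hM (T.bk d)).1 h2
      rw [bk_bk] at h3
      linarith
  · exact (T.reg_le h hM d).1 h1

/-- **The sum over the region of a strip.** -/
theorem region_sumR (d : F) : T.regL c d ≤ T.gz c.G d + T.gz c.G (T.bk d) := by
  rcases Nat.eq_zero_or_pos (T.win c.zt d) with h1 | h1
  · rcases Nat.eq_zero_or_pos (T.win c.zt (T.bk d)) with h2 | h2
    · have h3 := T.dlw_leR h.toOKB hM (T.I (T.N (T.N d))) (T.N d) fun ht =>
        T.rot_three ((T.tri_rot_iff (T.N d)).1 ht)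
      have h4 := T.dlw_leR h.toOKB hM (T.I (T.N (T.I (T.N d)))) (T.I (T.N d)) fun ht =>
        T.rot_three ((T.tri_rot_iff (T.I (T.N d))).1 ht)
      have h5 := T.anti_netR h hM d
      unfold regL
      rw [h1, h2]
      push_cast
      linarith
    · have h3 := (T.reg_le h hM (T.bk d)).2 h2
      rw [bk_bk, regL_bk] at h3
      linarith
  · exact (T.reg_le h hM d).2 h1

end region

/-! ### The slacks -/

open Classical in
/-- The slack of the closure over the triangle of the corner after `a`. -/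
noncomputable def slT (c : Tabs) (a : F) : ℤ :=
  if T.Tri a then
    ((T.sbud c.D c.sp c.ps a + T.sbud c.D c.sp c.ps (T.I (T.N a)) +
        T.sbud c.D c.sp c.ps (T.I (T.N (T.I (T.N a)))) +
      (T.rz c.zt 0 a + T.rz c.zt 0 (T.I (T.N a)) + T.rz c.zt 0 (T.I (T.N (T.I (T.N a))))) : ℕ) : ℤ) -
    ((T.dl c.t a + T.dl c.t (T.I (T.N a)) + T.dl c.t (T.I (T.N (T.I (T.N a)))) : ℕ) : ℤ)
  else 0

/-- The slack of the closure over the region of the strip `N d`. -/
noncomputable def slR (c : Tabs) (d : F) : ℤ := T.gz c.G d + T.gz c.G (T.bk d) - T.regL c d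

theorem slT_tri {a : F} (ha : T.Tri a) : T.slT c a =
    ((T.sbud c.D c.sp c.ps a + T.sbud c.D c.sp c.ps (T.I (T.N a)) +
        T.sbud c.D c.sp c.ps (T.I (T.N (T.I (T.N a)))) +
      (T.rz c.zt 0 a + T.rz c.zt 0 (T.I (T.N a)) + T.rz c.zt 0 (T.I (T.N (T.I (T.N a))))) : ℕ) : ℤ) -
    ((T.dl c.t a + T.dl c.t (T.I (T.N a)) + T.dl c.t (T.I (T.N (T.I (T.N a)))) : ℕ) : ℤ) := if_pos ha

theorem slT_big {a : F} (ha : ¬T.Tri a) : T.slT c a = 0 := if_neg ha

theorem slT_rot {a : F} (ha : T.Tri a) : T.slT c (T.I (T.N a)) = T.slT c a := by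
  rw [T.slT_tri ha, T.slT_tri (T.tri_rot ha), T.rot_three ha]
  push_cast
  ring

theorem slR_bk (d : F) : T.slR c (T.bk d) = T.slR c d := by
  unfold slR
  rw [regL_bk, bk_bk]
  ring

section slack

variable (h : c.OKR) (hM : ∀ T : SMap F, c.MapR T)

include h hM

theorem slT_nonneg (a : F) : 0 ≤ T.slT c a := by
  by_cases ha : T.Tri a
  · rw [T.slT_tri ha]
    have h1 := T.star_sumH h.tkD (fun T a ha => (hM T).symP a ha) (fun T a ha => (hM T).symS a ha)
      h.del h.symD h.symZ h.rsv ha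
    omega
  · rw [T.slT_big ha]

theorem slR_nonneg (d : F) : 0 ≤ T.slR c d := by
  have h1 := T.region_sumR h hM d
  unfold slR
  linarith

end slack

section slackb

variable (h : c.OKB) (hM : ∀ T : SMap F, c.MapR T)

include h hM

theorem relab_slT (a : F) : T.relab.slT c a = T.slT c a := by
  by_cases ha : T.Tri a
  · have hb := T.tri_rot ha
    have hc := T.tri_rot hb
    rw [T.slT_tri ha, T.relab.slT_tri (show T.relab.Tri a from ha)]
    simp only [relab_N, relab_I]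
    rw [T.relab_sbud h.tkD (fun T a ha => (hM T).symP a ha) (fun T a ha => (hM T).symS a ha) ha,
      T.relab_sbud h.tkD (fun T a ha => (hM T).symP a ha) (fun T a ha => (hM T).symS a ha) hb,
      T.relab_sbud h.tkD (fun T a ha => (hM T).symP a ha) (fun T a ha => (hM T).symS a ha) hc,
      T.relab_rz h.symZ (by norm_num), T.relab_rz h.symZ (by norm_num),
      T.relab_rz h.symZ (by norm_num), T.relab_dlH h.symD ha, T.relab_dlH h.symD hb,
      T.relab_dlH h.symD hc]
  · rw [T.slT_big ha, T.relab.slT_big (show ¬T.relab.Tri a from ha)]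

theorem relab_slR (d : F) : T.relab.slR c d = T.slR c d := by
  unfold slR
  have eb : T.relab.bk d = T.bk d := rfl
  rw [eb, T.relab_gzG h (hM T), T.relab_gzG h (hM T), T.relab_regL h hM]

end slackb

/-! ### The bound -/

theorem gw_six {U α : ℕ} (hU : 0 < U) (val Y : F → ℤ) (d : F) :
    T.gw (6 * U) (6 * α) (fun e => 6 * val e) (fun a => 6 * Y a) d = T.gw U α val Y d := by
  have hU' : (U : ℚ) ≠ 0 := by exact_mod_cast hU.ne'
  unfold gw
  push_cast
  rw [mul_assoc (6 : ℚ) (α : ℚ), mul_div_mul_left _ _ (by norm_num : (6 : ℚ) ≠ 0),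
    mul_div_mul_left _ _ (by norm_num : (6 : ℚ) ≠ 0),
    mul_div_mul_left _ _ (by norm_num : (6 : ℚ) ≠ 0)]

/-- **The bound from the tables and the search, with shares of the slacks.** A corner has the share
`P` of the slack of its triangle, a strip has the share `Q` of the slack of its region; `s` is the
amount that a triangle gives to the region of one of its sides. -/
theorem bound_of_share [Finite F] (h : c.OKB) (hM : ∀ T : SMap F, c.MapR T)
    (s P Q : ∀ _ : SMap F, F → ℤ)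
    (hs0 : ∀ (T : SMap F) (a : F), ¬T.Tri a → s T a = 0)
    (hP0 : ∀ (T : SMap F) (a : F), 0 ≤ P T a)
    (hPb : ∀ (T : SMap F) (a : F), ¬T.Tri a → P T a = 0)
    (hP3 : ∀ (T : SMap F) (a : F), T.Tri a → P T a + P T (T.I (T.N a)) +
      P T (T.I (T.N (T.I (T.N a)))) ≤
        6 * (T.slT c a + (s T a + s T (T.I (T.N a)) + s T (T.I (T.N (T.I (T.N a)))))))
    (hPr : ∀ (T : SMap F) (a : F), P T.relab a = P T a)
    (hQ0 : ∀ (T : SMap F) (d : F), 0 ≤ Q T d)
    (hQ2 : ∀ (T : SMap F) (d : F), Q T d + Q T (T.bk d) ≤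
      6 * (T.slR c d - (s T d + s T (T.bk d))))
    (hQr : ∀ (T : SMap F) (d : F), Q T.relab d = Q T d)
    (hs : ∀ (T : SMap F) (d : F),
      okey (T.kx (T.N d)) (T.ox (T.N d)) ≤
        okey (mK (T.kx (T.N d))) (mO' (T.kx (T.N d)) (T.ox (T.N d))) →
      (∀ n, T.ndt c (T.N^[n + 1] d) <
        ∑ i ∈ range (n + 1), T.gz c.V (T.N^[i] d) + T.ggt c d) →
      6 * ∑ i ∈ range (Function.minimalPeriod T.N d),
        (T.gz c.V (T.N^[i] d) - T.dlt c (T.N^[i + 1] d)) ≤
      ∑ i ∈ range (Function.minimalPeriod T.N d),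
        (P T (T.N^[i + 1] d) + Q T (T.N^[i + 1] d))) :
    T.Bound (1 - 24 * c.α / (12 * c.u : ℕ)) := by
  have hu := h.u_pos
  have hU : 0 < 12 * c.u := by omega
  have eB : (1 : ℚ) - 24 * c.α / (12 * c.u : ℕ) =
      1 - 24 * (6 * c.α : ℕ) / (6 * (12 * c.u) : ℕ) := by
    push_cast
    have hu' : (c.u : ℚ) ≠ 0 := by exact_mod_cast hu.ne'
    field_simp
  have eP : (fun a => 6 * (T.Yt c a + T.PA c a) + 6 * (T.Pt c a - T.PA c a)) =
      fun a => 6 * (T.Yt c a + T.Pt c a) := by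
    funext a
    ring
  rw [eB]
  refine T.bound_of_search8 (U := 6 * (12 * c.u)) (α := 6 * c.α) (by omega)
    (fun e => 6 * T.gz c.V (T.N⁻¹ e)) (fun d => 6 * (T.ndt c d - T.ggt c d))
    (fun d => 6 * T.ggt c d)
    (fun a => 6 * (T.Yt c a + T.PA c a)) (fun d => 6 * T.dl0 c d + P T d)
    (fun a => 6 * (T.Pt c a - T.PA c a)) (fun d => 6 * T.dlw c d)
    (fun d => 6 * T.win c.zt d + Q T d) (fun a => 6 * (T.rz c.zt 0 a + s T a))
    (fun a => 6 * T.rz c.zt 1 a) (fun a => 6 * T.rz c.zt 2 a) ?_ ?_ ?_ ?_ ?_ ?_ ?_ ?_ ?_ ?_ ?_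
  · intro d
    have h1 := T.dl0_nonneg c d
    have h2 := hP0 T d
    linarith
  · intro d
    have h1 := T.dlw_nonneg c d
    linarith
  · intro d
    have h1 : (0 : ℤ) ≤ T.win c.zt d := Int.natCast_nonneg _
    have h2 := hQ0 T d
    linarith
  · intro a ha
    have hb : ¬T.Tri (T.N⁻¹ (T.I a)) := by
      intro h1
      have h2 := (T.tri_I_N _).2 h1
      rw [T.N_N_inv', I_I] at h2
      exact ha h2
    refine ⟨?_, ?_, ?_, ?_, ?_⟩
    · rw [T.Pt_big c ha, T.PA_big ha, sub_zero, mul_zero]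
    · rw [T.dlw_big c ha, mul_zero]
    · rw [T.rz_left ha, hs0 T a ha]
      rfl
    · rw [T.rz_left ha]
      rfl
    · rw [T.rz_left hb]
      rfl
  · intro d
    obtain ⟨e, rfl⟩ : ∃ e, T.N e = d := ⟨T.N⁻¹ d, T.N_N_inv' d⟩
    have hb : T.I (T.N e) = T.N (T.bk e) := (T.N_bk e).symm
    have e1 : T.N⁻¹ (T.I (T.N e)) = T.bk e := rfl
    rw [e1, N_inv_N, eP]
    have e2 : T.gw (6 * (12 * c.u)) (6 * c.α) (fun e => 6 * T.gz c.V (T.N⁻¹ e))
        (fun a => 6 * (T.Yt c a + T.Pt c a)) (T.I (T.N e)) =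
        (T.gz c.G (T.bk e) : ℚ) / (12 * c.u : ℕ) := by
      rw [T.gw_six hU, hb]
      exact T.gw_eq c hu (T.bk e)
    rw [e2, T.gw_six hU, T.gw_eq c hu e, ← add_div]
    have hb' := hQ2 T e
    have h2 : (6 * (T.win c.zt e : ℤ) + Q T e) +
        (6 * (T.win c.zt (T.bk e) : ℤ) + Q T (T.bk e)) +
        6 * T.dlw c (T.I (T.N (T.N e))) + 6 * T.dlw c (T.I (T.N (T.I (T.N e)))) +
        (6 * (T.rz c.zt 0 e + s T e : ℤ) + 6 * T.rz c.zt 1 e + 6 * T.rz c.zt 2 e) +
        (6 * (T.rz c.zt 0 (T.bk e) + s T (T.bk e) : ℤ) + 6 * T.rz c.zt 1 (T.bk e) +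
          6 * T.rz c.zt 2 (T.bk e)) -
        6 * (T.Pt c (T.I (T.N (T.N e))) - T.PA c (T.I (T.N (T.N e)))) -
        6 * (T.Pt c (T.I (T.N (T.I (T.N e)))) - T.PA c (T.I (T.N (T.I (T.N e))))) -
        6 * T.rz c.zt 1 (T.I (T.N (T.N e))) - 6 * T.rz c.zt 2 (T.N e) -
        6 * T.rz c.zt 1 (T.I (T.N (T.I (T.N e)))) - 6 * T.rz c.zt 2 (T.I (T.N e)) ≤
          6 * (T.gz c.G e + T.gz c.G (T.bk e)) := by
      unfold slR regL rtot at hb'
      push_cast at hb' ⊢
      linarith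
    have h3 : (0 : ℚ) < ((6 * (12 * c.u) : ℕ) : ℚ) := by exact_mod_cast (by omega)
    have h4 : (((T.gz c.G e + T.gz c.G (T.bk e) : ℤ) : ℚ)) / (12 * c.u : ℕ) =
        ((6 * (T.gz c.G e + T.gz c.G (T.bk e)) : ℤ) : ℚ) / (6 * (12 * c.u) : ℕ) := by
      push_cast
      rw [mul_div_mul_left _ _ (by norm_num : (6 : ℚ) ≠ 0)]
    have h5 : (T.gz c.G e : ℚ) + (T.gz c.G (T.bk e) : ℚ) =
        ((T.gz c.G e + T.gz c.G (T.bk e) : ℤ) : ℚ) := by push_cast; ring
    rw [h5, h4]
    exact div_le_div_of_nonneg_right (by exact_mod_cast h2) h3.le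
  · intro a ha
    have ha2 := T.tri_rot ha
    have ha3 := T.tri_rot ha2
    have e0 := T.slT_tri (c := c) ha
    have e1 := hP3 T a ha
    rw [e0] at e1
    rw [T.dl0_tri c ha, T.dl0_tri c ha2, T.dl0_tri c ha3, T.Yt_tri c ha, T.Yt_tri c ha2,
      T.Yt_tri c ha3, T.PA_tri ha, T.PA_tri ha2, T.PA_tri ha3]
    unfold sbud at e1
    push_cast at e1 ⊢
    linarith
  · intro a ha h4
    have ha2 : ¬T.Tri (T.I (T.N a)) := fun h1 => ha (T.tri_of_tri_rot h1)
    have ha3 : ¬T.Tri (T.I (T.N (T.I (T.N a)))) := fun h1 => ha2 (T.tri_of_tri_rot h1)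
    have ha4 : ¬T.Tri (T.I (T.N (T.I (T.N (T.I (T.N a)))))) := fun h1 => ha3 (T.tri_of_tri_rot h1)
    rw [T.dl0_big c ha, T.dl0_big c ha2, T.dl0_big c ha3, T.dl0_big c ha4, T.Yt_big c ha,
      T.Yt_big c ha2, T.Yt_big c ha3, T.Yt_big c ha4, T.PA_big ha, T.PA_big ha2, T.PA_big ha3,
      T.PA_big ha4, hPb T _ ha, hPb T _ ha2, hPb T _ ha3, hPb T _ ha4]
    have h1 := T.quad_sum (row := c.q) (w := c.w) h.quad h4
    have h2 := T.quad_tok (tr := c.tr) h.qtok h4 h1
    have h3 : ((4 * c.qo + (T.dq c.t4 c.tr a + T.dq c.t4 c.tr (T.I (T.N a)) +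
        T.dq c.t4 c.tr (T.I (T.N (T.I (T.N a)))) +
        T.dq c.t4 c.tr (T.I (T.N (T.I (T.N (T.I (T.N a))))))) : ℕ) : ℤ) ≤
      (T.Z c.q c.w a + T.Z c.q c.w (T.I (T.N a)) +
        T.Z c.q c.w (T.I (T.N (T.I (T.N a)))) +
        T.Z c.q c.w (T.I (T.N (T.I (T.N (T.I (T.N a)))))) : ℕ) := by exact_mod_cast h2
    push_cast at h3
    linarith
  · intro a ha h5
    have ha2 : ¬T.Tri (T.I (T.N a)) := fun h1 => ha (T.tri_of_tri_rot h1)
    have ha3 : ¬T.Tri (T.I (T.N (T.I (T.N a)))) := fun h1 => ha2 (T.tri_of_tri_rot h1)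
    have ha4 : ¬T.Tri (T.I (T.N (T.I (T.N (T.I (T.N a)))))) := fun h1 => ha3 (T.tri_of_tri_rot h1)
    have ha5 : ¬T.Tri (T.I (T.N (T.I (T.N (T.I (T.N (T.I (T.N a)))))))) :=
      fun h1 => ha4 (T.tri_of_tri_rot h1)
    rw [T.dl0_big c ha, T.dl0_big c ha2, T.dl0_big c ha3, T.dl0_big c ha4, T.dl0_big c ha5,
      T.Yt_big c ha, T.Yt_big c ha2, T.Yt_big c ha3, T.Yt_big c ha4, T.Yt_big c ha5,
      T.PA_big ha, T.PA_big ha2, T.PA_big ha3, T.PA_big ha4, T.PA_big ha5,
      hPb T _ ha, hPb T _ ha2, hPb T _ ha3, hPb T _ ha4, hPb T _ ha5]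
    have h1 := T.penta_sum h.penta h5
    have g := T.dq_le (tr := c.tr) h.low
    have g1 := g a
    have g2 := g (T.I (T.N a))
    have g3 := g (T.I (T.N (T.I (T.N a))))
    have g4 := g (T.I (T.N (T.I (T.N (T.I (T.N a))))))
    have g5 := g (T.I (T.N (T.I (T.N (T.I (T.N (T.I (T.N a))))))))
    push_cast
    omega
  · intro a ha
    rw [T.dl0_big c ha, T.Yt_big c ha, T.PA_big ha, hPb T _ ha]
    have h1 := h.qo_le
    have h3 := T.dq_le (tr := c.tr) h.low a
    push_cast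
    omega
  · intro d
    simp only [N_inv_N]
    rcases (hM T).need d with h1 | h1
    · left
      linarith
    · right
      linarith
  · intro e he1 he2
    obtain ⟨d, rfl⟩ : ∃ d, T.N d = e := ⟨T.N⁻¹ e, T.N_N_inv' e⟩
    have e1 : ∀ i, T.N⁻¹ (T.N^[i] (T.N d)) = T.N^[i] d := by
      intro i
      rw [← Function.iterate_succ_apply, Function.iterate_succ_apply', N_inv_N]
    have e2 : ∀ i, T.N^[i] (T.N d) = T.N^[i + 1] d := fun i => rfl
    simp only [e1] at he1 he2 ⊢
    simp only [e2] at he1 he2 ⊢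
    have hp : Function.minimalPeriod T.N (T.N d) = Function.minimalPeriod T.N d :=
      T.period_iterate d 1
    rw [hp]
    have e6 : ∀ n, ∑ i ∈ range n, (6 * T.gz c.V (T.N^[i] d) + 6 * T.ggt c (T.N^[i] d) -
        6 * T.ggt c (T.N^[i + 1] d)) = 6 * (∑ i ∈ range n, T.gz c.V (T.N^[i] d) + T.ggt c d -
          T.ggt c (T.N^[n] d)) := by
      intro n
      induction n with
      | zero =>
        simp only [Finset.range_zero, Finset.sum_empty, zero_add]
        rw [show T.N^[0] d = d from rfl]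
        ring
      | succ n ih =>
        rw [Finset.sum_range_succ, ih, Finset.sum_range_succ]
        ring
    have key := of_canon (F := F) (P := fun T d =>
      (∀ n, T.ndt c (T.N^[n + 1] d) <
        ∑ i ∈ range (n + 1), T.gz c.V (T.N^[i] d) + T.ggt c d) →
      6 * ∑ i ∈ range (Function.minimalPeriod T.N d),
        (T.gz c.V (T.N^[i] d) - T.dlt c (T.N^[i + 1] d)) ≤
      ∑ i ∈ range (Function.minimalPeriod T.N d),
        (P T (T.N^[i + 1] d) + Q T (T.N^[i + 1] d))) ?_ ?_ T d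
    · have h1 := key fun n => by
        have h1 := he2 n
        rw [e6] at h1
        linarith
      have h2 : ∑ i ∈ range (Function.minimalPeriod T.N d),
          (6 * T.gz c.V (T.N^[i] d) - (6 * T.dl0 c (T.N^[i + 1] d) + P T (T.N^[i + 1] d) +
            6 * T.dlw c (T.N^[i + 1] d) + (6 * (T.win c.zt (T.N^[i + 1] d) : ℤ) +
              Q T (T.N^[i + 1] d)))) =
          6 * ∑ i ∈ range (Function.minimalPeriod T.N d),
            (T.gz c.V (T.N^[i] d) - T.dlt c (T.N^[i + 1] d)) -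
          ∑ i ∈ range (Function.minimalPeriod T.N d),
            (P T (T.N^[i + 1] d) + Q T (T.N^[i + 1] d)) := by
        rw [Finset.mul_sum, ← Finset.sum_sub_distrib]
        refine Finset.sum_congr rfl fun i _ => ?_
        rw [T.dlt_eq]
        ring
      rw [h2]
      linarith
    · intro T d hr h1
      simp only [relab_N] at hr
      simp only [(hM T).symV, (hM T).symN, (hM T).symG, T.relab_dltR h hM, hPr, hQr] at hr
      exact hr h1
    · intro T d hk h1
      rw [T.relab_kx, T.relab_ox] at hk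
      exact hs T d hk h1

/-- **The bound from the tables and the search, with slack.** -/
theorem bound_of_slack [Finite F] (h : c.OKR) (hM : ∀ T : SMap F, c.MapR T)
    (hs : ∀ (T : SMap F) (d : F),
      okey (T.kx (T.N d)) (T.ox (T.N d)) ≤
        okey (mK (T.kx (T.N d))) (mO' (T.kx (T.N d)) (T.ox (T.N d))) →
      (∀ n, T.ndt c (T.N^[n + 1] d) <
        ∑ i ∈ range (n + 1), T.gz c.V (T.N^[i] d) + T.ggt c d) →
      6 * ∑ i ∈ range (Function.minimalPeriod T.N d),
        (T.gz c.V (T.N^[i] d) - T.dlt c (T.N^[i + 1] d)) ≤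
      ∑ i ∈ range (Function.minimalPeriod T.N d),
        (2 * T.slT c (T.N^[i + 1] d) + 3 * T.slR c (T.N^[i + 1] d))) :
    T.Bound (1 - 24 * c.α / (12 * c.u : ℕ)) := by
  refine T.bound_of_share h.toOKB hM (fun _ _ => 0) (fun T a => 2 * T.slT c a)
    (fun T d => 3 * T.slR c d) (fun _ _ _ => rfl) ?_ ?_ ?_ ?_ ?_ ?_ ?_ hs
  · intro T a
    have := T.slT_nonneg h hM a
    linarith
  · intro T a ha
    rw [T.slT_big ha, mul_zero]
  · intro T a ha
    rw [T.slT_rot (T.tri_rot ha), T.slT_rot ha]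
    linarith
  · intro T a
    rw [T.relab_slT h.toOKB hM]
  · intro T d
    have := T.slR_nonneg h hM d
    linarith
  · intro T d
    rw [slR_bk]
    linarith
  · intro T d
    rw [T.relab_slR h.toOKB hM]

end SMap

end Pool.Agent.Lib.MP_5854e1_co
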