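import Pool.Agent.Lib.MP_5854e1_co.RingW

/-!
# Packed hints for the test of the rings

The hints of one bucket are the digits of one number, sorted by decreasing keys. No proof depends on
the hints.
-/

set_option autoImplicit false

namespace Pool.Agent.Lib.MP_5854e1_co

open PB CE

noncomputable section

/-- Binary search: the last position below `2 ^ n` from `pos` on whose key is at least `x`. -/
def bsD (N W wh mk x n : ℕ) : ℕ → ℕ :=
  Nat.rec (motive := fun _ => ℕ → ℕ) (fun pos => pos)
    (fun n ih pos => rForce (Nat.add pos (Nat.pow (nat_lit 2) n)) fun m =>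
      rIf (Nat.ble x (Nat.mod (Nat.shiftRight N (Nat.add (Nat.mul W m) wh)) mk)) (ih m) (ih pos)) n

/-- The hint of a code: the codes from `2 ^ 31` on stand for the hints from `2 ^ 40` on. -/
def hcd (e : ℕ) : ℕ :=
  rForce (Nat.mod e (nat_lit 4294967296)) fun c => rIf (Nat.ble (nat_lit 2147483648) c)
    (Nat.add (nat_lit 1099511627776) (Nat.sub c (nat_lit 2147483648))) c

/-- The hints of a packed table: `2 ^ s` buckets with less than `2 ^ n` hints, digits of `W` bits, the
lowest 32 of which are the code of the hint and the others (less than `mk`) are the key. -/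
def hintB (n s W mk : ℕ) (ht : DT) (q : Pth) : ℕ :=
  rForce (Pth.hso q) fun h => rForce (Nat.succ (Nat.shiftRight h s)) fun x =>
    DL.rec (motive := fun _ => ℕ) (nat_lit 0) (fun N _ _ _ =>
      rForce (bsD N W (nat_lit 32) mk x n (nat_lit 0)) fun pos =>
        rForce (Nat.shiftRight N (Nat.mul W pos)) fun e =>
          rIf (Nat.beq (Nat.mod (Nat.shiftRight e (nat_lit 32)) mk) x) (hcd e) (nat_lit 0))
      (DT.get ht (Nat.mod h (Nat.pow (nat_lit 2) s)))

/-- A number of a path, with the multiplier `A` and the modulus `P`. -/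
def hsq (A P : ℕ) (q : Pth) : ℕ :=
  Pth.rec (motive := fun _ => ℕ → ℕ) (fun a => a)
    (fun k o s _ ih a => rForce (Nat.mod (Nat.add (Nat.mul a A)
      (Nat.add (Nat.mul k (nat_lit 4194304)) (Nat.add (Nat.mul o (nat_lit 8192)) s))) P)
        fun a' => ih a') q (nat_lit 1)

/-- The hints of a packed table for the numbers `hsq A P` of the paths, see `hintB`. -/
def hintC (A P n s W mk : ℕ) (ht : DT) (q : Pth) : ℕ :=
  rForce (hsq A P q) fun h => rForce (Nat.succ (Nat.shiftRight h s)) fun x =>
    DL.rec (motive := fun _ => ℕ) (nat_lit 0) (fun N _ _ _ =>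
      rForce (bsD N W (nat_lit 32) mk x n (nat_lit 0)) fun pos =>
        rForce (Nat.shiftRight N (Nat.mul W pos)) fun e =>
          rIf (Nat.beq (Nat.mod (Nat.shiftRight e (nat_lit 32)) mk) x) (hcd e) (nat_lit 0))
      (DT.get ht (Nat.mod h (Nat.pow (nat_lit 2) s)))

end

end Pool.Agent.Lib.MP_5854e1_co
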