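import Pool.Agent.Lib.MP_5854e1_co.RowSound

/-!
# The walk through a row with a pointer in the automaton

The walk carries the pointer `(c', ch, rs)` of a node of the automaton: the code and the child of the
current arc and the rest of the arcs. The test is a number, zero prunes. The codes of the arcs of a row
increase strictly at every level, so that both sides advance after a match.
-/

set_option autoImplicit false

namespace Pool.Agent.Lib.MP_5854e1_co.Wk

noncomputable section

variable {α : Type}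

/-- A row as a function of the test `t` (zero prunes), the treatment `f` of the entries (option, shape,
value of the test, data, pointer of the node reached) and the pointer of the node. -/
def FW (α : Type) : Type :=
  (ℕ → ℕ) → (ℕ → ℕ → ℕ → α → ℕ → Nd → Nd → Bool) → ℕ → Nd → Nd → Bool

/-- Go to the next arc. -/
def nxt (g : ℕ → Nd → Nd → Bool) (rs : Nd) : Bool :=
  Nd.rec (motive := fun _ => Bool) (fun _ _ => true) (fun c' ch rest _ _ => g c' ch rest) rs

/-- The body of an entry with the code `c` behind the arc `c' ≥ c`, after a search for this arc. -/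
def bdy (c q : ℕ) (t : ℕ → ℕ) (s r : ℕ → Nd → Nd → Bool) (c' : ℕ) (ch rs : Nd) : Bool :=
  Bool.rec (motive := fun _ => Bool) (r c' ch rs)
    (Bool.rec (motive := fun _ => Bool)
      (Bool.rec (motive := fun _ => Bool) false (nxt r rs) (Nd.opn s ch))
      (nxt r rs) (Nat.beq (t q) (nat_lit 0))) (Nat.beq c' c)

/-- The walk through a row. -/
def wlk (r : Rw α) : FW α := fun t f =>
  Rw.rec (motive := fun _ => ℕ → Nd → Nd → Bool) (fun _ _ _ => true)
    (fun o k q b _ r c' ch rs => Bool.rec (motive := fun _ => Bool)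
      (Bool.rec (motive := fun _ => Bool) false (r c' ch rs) (f o k (t q) b c' ch rs))
      (r c' ch rs) (Nat.beq (t q) (nat_lit 0)))
    (fun c o k q b _ r c' ch rs => Bool.rec (motive := fun _ => Bool) (r c' ch rs)
      (Bool.rec (motive := fun _ => Bool) (Nd.seek c (bdy c q t (f o k (t q) b) r) rs)
        (Bool.rec (motive := fun _ => Bool)
          (Bool.rec (motive := fun _ => Bool) false (nxt r rs) (Nd.opn (f o k (t q) b) ch))
          (nxt r rs) (Nat.beq (t q) (nat_lit 0)))
        (Nat.beq c' c)) (Nat.ble c' c))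
    (fun c q _ _ s r c' ch rs => Bool.rec (motive := fun _ => Bool) (r c' ch rs)
      (Bool.rec (motive := fun _ => Bool) (Nd.seek c (bdy c q t s r) rs)
        (Bool.rec (motive := fun _ => Bool)
          (Bool.rec (motive := fun _ => Bool) false (nxt r rs) (Nd.opn s ch))
          (nxt r rs) (Nat.beq (t q) (nat_lit 0)))
        (Nat.beq c' c)) (Nat.ble c' c)) r

/-! ### Strictly increasing codes -/

/-- Entries at this place come first, then the others by strictly increasing codes from `L` on. -/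
def wfs (r : Rw α) : ℕ → Bool :=
  Rw.rec (motive := fun _ => ℕ → Bool) (fun _ => true)
    (fun _ _ _ _ _ ih L => rAnd (Nat.beq L (nat_lit 0)) (ih L))
    (fun c _ _ _ _ _ ih L => rAnd (Nat.ble L c) (ih (Nat.succ c)))
    (fun c _ _ _ ihs ihr L => rAnd (Nat.ble L c) (rAnd (ihs (nat_lit 0)) (ihr (Nat.succ c)))) r

/-- The check of the rows of the shape `k`. -/
def wfsK (R : ℕ → ℕ → Rw α) (k : ℕ) : Bool := rAllN (fun o => wfs (R k o) (nat_lit 0)) (optN k)

theorem head {r : Rw α} {p : List ℕ} {o k : ℕ} {b : α} {qs : List ℕ}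
    (h : Rw.At r p o k b qs) : ∀ {L : ℕ}, 0 < L → wfs r L = true →
    ∃ c p', p = c :: p' ∧ L ≤ c := by
  induction h with
  | hit o k q b rest =>
    intro L hL hw
    have h1 := Nat.eq_of_beq_eq_true
      (rAnd_iff.1 (show rAnd (Nat.beq L 0) (wfs rest L) = true from hw)).1
    omega
  | one c o k q b rest =>
    intro L hL hw
    exact ⟨c, [], rfl, Nat.le_of_ble_eq_true
      (rAnd_iff.1 (show rAnd (Nat.ble L c) (wfs rest (c + 1)) = true from hw)).1⟩
  | tok c q sub rest _ _ =>
    intro L hL hw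
    exact ⟨c, _, rfl, Nat.le_of_ble_eq_true
      (rAnd_iff.1 (show rAnd (Nat.ble L c) (rAnd (wfs sub 0) (wfs rest (c + 1))) = true
        from hw)).1⟩
  | hit_rest o' k' q' b' rest _ ih =>
    intro L hL hw
    exact ih hL (rAnd_iff.1 (show rAnd (Nat.beq L 0) (wfs rest L) = true from hw)).2
  | one_rest c' o' k' q' b' rest _ ih =>
    intro L hL hw
    obtain ⟨h1, h2⟩ := rAnd_iff.1 (show rAnd (Nat.ble L c') (wfs rest (c' + 1)) = true from hw)
    obtain ⟨c, p', h3, h4⟩ := ih (Nat.succ_pos _) h2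
    exact ⟨c, p', h3, by have := Nat.le_of_ble_eq_true h1; omega⟩
  | tok_rest c' q sub rest _ ih =>
    intro L hL hw
    obtain ⟨h1, h2⟩ := rAnd_iff.1 (show rAnd (Nat.ble L c') (rAnd (wfs sub 0)
      (wfs rest (c' + 1))) = true from hw)
    obtain ⟨c, p', h3, h4⟩ := ih (Nat.succ_pos _) (rAnd_iff.1 h2).2
    exact ⟨c, p', h3, by have := Nat.le_of_ble_eq_true h1; omega⟩

/-! ### The parts of the walk -/

/-- What a match gives: the next arc for the rest of the row. -/
theorem nxt_sound {g : ℕ → Nd → Nd → Bool} {n : Nd} {L c : ℕ} {ch rs : Nd}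
    (hi : Nd.Inv L n c ch rs) (ho : rs.Ord) (hL : L ≤ c + 1) (h : nxt g rs = true)
    {c1 : ℕ} {m1 : Nd} (h1 : n.next c1 = some m1) (hc : c < c1) :
    ∃ c2 ch2 rs2, g c2 ch2 rs2 = true ∧ rs2.Ord ∧ Nd.Inv (c + 2) n c2 ch2 rs2 := by
  have key : ∀ c3 m3, c < c3 → n.next c3 = some m3 → rs.next c3 = some m3 := by
    intro c3 m3 h3 h4
    rcases hi c3 m3 (by omega) h4 with ⟨rfl, -⟩ | ⟨-, h5⟩
    · omega
    · exact h5
  cases rs with
  | fin _ _ =>
    have := key c1 m1 hc h1
    rw [Nd.next_fin] at this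
    exact absurd this (by simp)
  | arc c2 ch2 rs2 =>
    refine ⟨c2, ch2, rs2, h, ho.2.2, fun c3 m3 h3 h4 => ?_⟩
    rcases Nd.next_arc_some (key c3 m3 (by omega) h4) with h5 | h5
    · exact Or.inl h5
    · exact Or.inr ⟨ho.1 _ _ h5, h5⟩

/-- The three ways through an entry behind an arc: the result for the match and the pointer for the
rest of the row. -/
theorem arc_sound {c q : ℕ} {t : ℕ → ℕ} {s r : ℕ → Nd → Nd → Bool} {c' : ℕ} {ch rs : Nd}
    (h : (Bool.rec (motive := fun _ => Bool) (r c' ch rs)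
      (Bool.rec (motive := fun _ => Bool) (Nd.seek c (bdy c q t s r) rs)
        (Bool.rec (motive := fun _ => Bool)
          (Bool.rec (motive := fun _ => Bool) false (nxt r rs) (Nd.opn s ch))
          (nxt r rs) (Nat.beq (t q) 0))
        (Nat.beq c' c)) (Nat.ble c' c) : Bool) = true) {n : Nd} {L : ℕ}
    (hi : Nd.Inv L n c' ch rs) (ho : rs.Ord) (hL : L ≤ c + 1) :
    (∀ m, n.next c = some m → t q ≠ 0 → m.opn s = true) ∧
    (∀ c1 m1, n.next c1 = some m1 → c < c1 →
      ∃ c2 ch2 rs2, r c2 ch2 rs2 = true ∧ rs2.Ord ∧ Nd.Inv (c + 2) n c2 ch2 rs2) := by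
  -- the body at a match
  have hm : ∀ {ch rs : Nd}, Nd.Inv L n c ch rs → rs.Ord →
      (Bool.rec (motive := fun _ => Bool)
        (Bool.rec (motive := fun _ => Bool) false (nxt r rs) (Nd.opn s ch))
        (nxt r rs) (Nat.beq (t q) 0) : Bool) = true →
      (∀ m, n.next c = some m → t q ≠ 0 → m.opn s = true) ∧
      (∀ c1 m1, n.next c1 = some m1 → c < c1 →
        ∃ c2 ch2 rs2, r c2 ch2 rs2 = true ∧ rs2.Ord ∧ Nd.Inv (c + 2) n c2 ch2 rs2) := by
    intro ch rs hi ho h
    have h2 : nxt r rs = true ∧ (t q ≠ 0 → Nd.opn s ch = true) := by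
      cases ht : Nat.beq (t q) 0 with
      | true =>
        rw [ht] at h
        exact ⟨h, fun h3 => absurd (Nat.eq_of_beq_eq_true ht) h3⟩
      | false =>
        rw [ht] at h
        cases hg : Nd.opn s ch with
        | false => rw [hg] at h; exact absurd h Bool.false_ne_true
        | true => rw [hg] at h; exact ⟨h, fun _ => rfl⟩
    refine ⟨fun m hx ht => ?_, fun c1 m1 h1 hc => nxt_sound hi ho hL h2.1 h1 hc⟩
    rcases hi c m hL hx with ⟨-, rfl⟩ | ⟨h5, -⟩
    · exact h2.2 ht
    · omega
  cases hb2 : Nat.ble c' c with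
  | false =>
    rw [hb2] at h
    have hlt : c < c' := by
      by_contra hcon
      rw [Nat.ble_eq_true_of_le (not_lt.1 hcon)] at hb2
      exact absurd hb2 (by simp)
    refine ⟨fun m hx _ => ?_, fun c1 m1 h1 hc => ⟨c', ch, rs, h, ho, fun c3 m3 h3 h4 =>
      hi c3 m3 (by omega) h4⟩⟩
    rcases hi c m hL hx with ⟨h5, -⟩ | ⟨h5, -⟩
    · omega
    · omega
  | true =>
    rw [hb2] at h
    cases hb : Nat.beq c' c with
    | true =>
      obtain rfl := Nat.eq_of_beq_eq_true hb
      rw [hb] at h
      exact hm hi ho h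
    | false =>
      rw [hb] at h
      have hne : c' ≠ c := Nat.ne_of_beq_eq_false hb
      have hlt : c' < c := by
        have := Nat.le_of_ble_eq_true hb2
        omega
      have key : ∀ c3 m3, c ≤ c3 → n.next c3 = some m3 → rs.next c3 = some m3 := by
        intro c3 m3 h3 h4
        rcases hi c3 m3 (by omega) h4 with ⟨rfl, -⟩ | ⟨-, h5⟩
        · omega
        · exact h5
      have main : ∀ c1 m1, n.next c1 = some m1 → c ≤ c1 →
          (∀ m, n.next c = some m → t q ≠ 0 → m.opn s = true) ∧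
          (∀ c1 m1, n.next c1 = some m1 → c < c1 →
            ∃ c2 ch2 rs2, r c2 ch2 rs2 = true ∧ rs2.Ord ∧ Nd.Inv (c + 2) n c2 ch2 rs2) := by
        intro c1 m1 h1 hc
        obtain ⟨c2, ch2, rs2, e1, e2, e3, e4⟩ := Nd.seek_sound ho h (key c1 m1 hc h1) hc
        have e5 : Nd.Inv (c + 1) n c2 ch2 rs2 := fun c3 m3 h3 h4 =>
          e4 c3 m3 h3 (key c3 m3 (by omega) h4)
        have e6 : (Bool.rec (motive := fun _ => Bool) (r c2 ch2 rs2)
          (Bool.rec (motive := fun _ => Bool)
            (Bool.rec (motive := fun _ => Bool) false (nxt r rs2) (Nd.opn s ch2))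
            (nxt r rs2) (Nat.beq (t q) 0)) (Nat.beq c2 c) : Bool) = true := e1
        cases hb3 : Nat.beq c2 c with
        | true =>
          obtain rfl := Nat.eq_of_beq_eq_true hb3
          rw [hb3] at e6
          -- a match after the search
          have h2 : nxt r rs2 = true ∧ (t q ≠ 0 → Nd.opn s ch2 = true) := by
            cases ht : Nat.beq (t q) 0 with
            | true =>
              rw [ht] at e6
              exact ⟨e6, fun h3 => absurd (Nat.eq_of_beq_eq_true ht) h3⟩
            | false =>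
              rw [ht] at e6
              cases hg : Nd.opn s ch2 with
              | false => rw [hg] at e6; exact absurd e6 Bool.false_ne_true
              | true => rw [hg] at e6; exact ⟨e6, fun _ => rfl⟩
          refine ⟨fun m hx ht => ?_, fun c3 m3 h3 hc3 => nxt_sound e5 e2 le_rfl h2.1 h3 hc3⟩
          rcases e5 c2 m le_rfl hx with ⟨-, rfl⟩ | ⟨h5, -⟩
          · exact h2.2 ht
          · omega
        | false =>
          rw [hb3] at e6
          have hne2 : c2 ≠ c := Nat.ne_of_beq_eq_false hb3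
          refine ⟨fun m hx _ => ?_, fun c3 m3 h3 hc3 => ⟨c2, ch2, rs2, e6, e2,
            fun c4 m4 h4 h5 => e5 c4 m4 (by omega) h5⟩⟩
          rcases e5 c m le_rfl hx with ⟨h5, -⟩ | ⟨h5, -⟩
          · omega
          · omega
      exact ⟨fun m hx ht => (main c m hx le_rfl).1 m hx ht,
        fun c1 m1 h1 hc => (main c1 m1 h1 hc.le).2 c1 m1 h1 hc⟩

/-- **The walk reaches every entry whose tests are not zero.** -/
theorem walk_sound {t : ℕ → ℕ} {f : ℕ → ℕ → ℕ → α → ℕ → Nd → Nd → Bool} :
    ∀ {r : Rw α} {L : ℕ} {n : Nd} {c' : ℕ} {ch rs : Nd}, wfs r L = true → n.Ord → rs.Ord →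
    Nd.Inv (L + 1) n c' ch rs → (L = 0 → Nd.Inv 0 n c' ch rs ∧ ∀ g, n.opn g = g c' ch rs) →
    wlk r t f c' ch rs = true →
    ∀ {p : List ℕ} {o k : ℕ} {b : α} {qs : List ℕ} {m : Nd},
    Rw.At r p o k b qs → (∀ q ∈ qs, t q ≠ 0) → n.run p = some m →
    ∃ q ∈ qs, m.opn (f o k (t q) b) = true := by
  intro r
  induction r with
  | nil =>
    intro L n c' ch rs _ _ _ _ _ _ p o k b qs m h
    cases h
  | hit o1 k1 q1 b1 rest ih =>
    intro L n c' ch rs hw hn hr hi h0 h p o k b qs m hat hq hm
    obtain ⟨hw1, hw2⟩ := rAnd_iff.1 (show rAnd (Nat.beq L 0) (wfs rest L) = true from hw)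
    obtain rfl : L = 0 := Nat.eq_of_beq_eq_true hw1
    have h1 : (Bool.rec (motive := fun _ => Bool)
      (Bool.rec (motive := fun _ => Bool) false (wlk rest t f c' ch rs)
        (f o1 k1 (t q1) b1 c' ch rs))
      (wlk rest t f c' ch rs) (Nat.beq (t q1) 0) : Bool) = true := h
    have h2 : wlk rest t f c' ch rs = true ∧ (t q1 ≠ 0 → f o1 k1 (t q1) b1 c' ch rs = true) := by
      cases ht : Nat.beq (t q1) 0 with
      | true =>
        rw [ht] at h1
        exact ⟨h1, fun h3 => absurd (Nat.eq_of_beq_eq_true ht) h3⟩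
      | false =>
        rw [ht] at h1
        cases hf : f o1 k1 (t q1) b1 c' ch rs with
        | false => rw [hf] at h1; exact absurd h1 Bool.false_ne_true
        | true => rw [hf] at h1; exact ⟨h1, fun _ => rfl⟩
    cases hat with
    | hit =>
      obtain rfl := Option.some.inj hm
      refine ⟨q1, List.mem_cons_self, ?_⟩
      rw [(h0 rfl).2]
      exact h2.2 (hq q1 List.mem_cons_self)
    | hit_rest _ _ _ _ _ hat => exact ih hw2 hn hr hi h0 h2.1 hat hq hm
  | one c o1 k1 q1 b1 rest ih =>
    intro L n c' ch rs hw hn hr hi h0 h p o k b qs m hat hq hm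
    obtain ⟨hw1, hw2⟩ := rAnd_iff.1 (show rAnd (Nat.ble L c) (wfs rest (c + 1)) = true from hw)
    have hL : L ≤ c := Nat.le_of_ble_eq_true hw1
    obtain ⟨g1, g2⟩ := arc_sound (c := c) (q := q1) (t := t) (s := f o1 k1 (t q1) b1)
      (r := wlk rest t f) h hi hr (by omega)
    cases hat with
    | one =>
      rw [Nd.run_cons] at hm
      cases hx : n.next c with
      | none => rw [hx] at hm; exact absurd hm (by simp)
      | some m1 =>
        rw [hx] at hm
        obtain rfl : m1 = m := Option.some.inj hm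
        exact ⟨q1, List.mem_cons_self, g1 m1 hx (hq q1 List.mem_cons_self)⟩
    | one_rest _ _ _ _ _ _ hat =>
      obtain ⟨c1, p', rfl, h3⟩ := head hat (Nat.succ_pos c) hw2
      have hm' := hm
      rw [Nd.run_cons] at hm'
      cases hx : n.next c1 with
      | none => rw [hx] at hm'; exact absurd hm' (by simp)
      | some m1 =>
        obtain ⟨c2, ch2, rs2, e1, e2, e3⟩ := g2 c1 m1 hx (by omega)
        exact ih hw2 hn e2 e3 (fun h => absurd h (Nat.succ_ne_zero c)) e1 hat hq hm
  | tok c q1 sub rest ihs ihr =>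
    intro L n c' ch rs hw hn hr hi h0 h p o k b qs m hat hq hm
    obtain ⟨hw1, hw2⟩ := rAnd_iff.1 (show rAnd (Nat.ble L c) (rAnd (wfs sub 0)
      (wfs rest (c + 1))) = true from hw)
    obtain ⟨hw3, hw4⟩ := rAnd_iff.1 hw2
    have hL : L ≤ c := Nat.le_of_ble_eq_true hw1
    obtain ⟨g1, g2⟩ := arc_sound (c := c) (q := q1) (t := t) (s := wlk sub t f)
      (r := wlk rest t f) h hi hr (by omega)
    cases hat with
    | tok _ _ _ _ hat =>
      rw [Nd.run_cons] at hm
      cases hx : n.next c with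
      | none => rw [hx] at hm; exact absurd hm (by simp)
      | some m1 =>
        rw [hx] at hm
        have h6 := g1 m1 hx (hq q1 List.mem_cons_self)
        have h7 := hn.child hx
        have h8 : ∃ c3 ch3 rs3, wlk sub t f c3 ch3 rs3 = true ∧ rs3.Ord ∧
            Nd.Inv 0 m1 c3 ch3 rs3 ∧ ∀ g, m1.opn g = g c3 ch3 rs3 := by
          cases m1 with
          | fin code mask =>
            exact ⟨1000, _, _, h6, h7, fun c m _ hm => absurd hm (by simp [Nd.next_fin]),
              fun g => rfl⟩
          | arc c3 ch3 rest3 =>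
            refine ⟨c3, ch3, rest3, h6, h7.2.2, fun c m _ hm => ?_, fun g => rfl⟩
            rcases Nd.next_arc_some hm with h1 | h1
            · exact Or.inl h1
            · exact Or.inr ⟨h7.1 _ _ h1, h1⟩
        obtain ⟨c3, ch3, rs3, k1, k2, k3, k4⟩ := h8
        obtain ⟨q2, hq2, hq3⟩ := ihs hw3 h7 k2 (k3.mono (Nat.zero_le _)) (fun _ => ⟨k3, k4⟩) k1 hat
          (fun q hq' => hq q (List.mem_cons_of_mem _ hq')) hm
        exact ⟨q2, List.mem_cons_of_mem _ hq2, hq3⟩
    | tok_rest _ _ _ _ hat =>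
      obtain ⟨c1, p', rfl, h3⟩ := head hat (Nat.succ_pos c) hw4
      have hm' := hm
      rw [Nd.run_cons] at hm'
      cases hx : n.next c1 with
      | none => rw [hx] at hm'; exact absurd hm' (by simp)
      | some m1 =>
        obtain ⟨c2, ch2, rs2, e1, e2, e3⟩ := g2 c1 m1 hx (by omega)
        exact ihr hw4 hn e2 e3 (fun h => absurd h (Nat.succ_ne_zero c)) e1 hat hq hm

/-- **The walk reaches every entry whose tests are not zero.** -/
theorem wlk_sound {t : ℕ → ℕ} {f : ℕ → ℕ → ℕ → α → ℕ → Nd → Nd → Bool} {r : Rw α} {n : Nd}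
    (hw : wfs r 0 = true) (hn : n.Ord) (h : n.opn (wlk r t f) = true) {p : List ℕ} {o k : ℕ}
    {b : α} {qs : List ℕ} {m : Nd} (hat : Rw.At r p o k b qs) (hq : ∀ q ∈ qs, t q ≠ 0)
    (hm : n.run p = some m) : ∃ q ∈ qs, m.opn (f o k (t q) b) = true := by
  have h8 : ∃ c3 ch3 rs3, wlk r t f c3 ch3 rs3 = true ∧ rs3.Ord ∧
      Nd.Inv 0 n c3 ch3 rs3 ∧ ∀ g, n.opn g = g c3 ch3 rs3 := by
    cases n with
    | fin code mask =>
      exact ⟨1000, _, _, h, hn, fun c m _ hm => absurd hm (by simp [Nd.next_fin]), fun g => rfl⟩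
    | arc c3 ch3 rest3 =>
      refine ⟨c3, ch3, rest3, h, hn.2.2, fun c m _ hm => ?_, fun g => rfl⟩
      rcases Nd.next_arc_some hm with h1 | h1
      · exact Or.inl h1
      · exact Or.inr ⟨hn.1 _ _ h1, h1⟩
  obtain ⟨c3, ch3, rs3, k1, k2, k3, k4⟩ := h8
  exact walk_sound hw hn k2 (k3.mono (Nat.zero_le _)) (fun _ => ⟨k3, k4⟩) k1 hat hq hm

/-! ### Rows as functions -/

/-- A row as a function, wrapped so that its lookup is cached. -/
inductive FB (α : Type) where
  | mk (w : FW α) : FB α

/-- The function of a row. -/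
def FB.run (x : FB α) : FW α := fun t f c' ch rs =>
  FB.rec (motive := fun _ => Bool) (fun w => w t f c' ch rs) x

/-- The empty row. -/
def FW.nil : FW α := fun _ _ _ _ _ => true

/-- An entry at this place. -/
def FW.hit (o k q : ℕ) (b : α) (r : FW α) : FW α := fun t f c' ch rs =>
  Bool.rec (motive := fun _ => Bool)
    (Bool.rec (motive := fun _ => Bool) false (r t f c' ch rs) (f o k (t q) b c' ch rs))
    (r t f c' ch rs) (Nat.beq (t q) (nat_lit 0))

/-- An entry behind an arc. -/
def FW.one (c o k q : ℕ) (b : α) (r : FW α) : FW α := fun t f c' ch rs =>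
  Bool.rec (motive := fun _ => Bool) (r t f c' ch rs)
    (Bool.rec (motive := fun _ => Bool) (Nd.seek c (bdy c q t (f o k (t q) b) (r t f)) rs)
      (Bool.rec (motive := fun _ => Bool)
        (Bool.rec (motive := fun _ => Bool) false (nxt (r t f) rs) (Nd.opn (f o k (t q) b) ch))
        (nxt (r t f) rs) (Nat.beq (t q) (nat_lit 0)))
      (Nat.beq c' c)) (Nat.ble c' c)

/-- The entries behind an arc. -/
def FW.tok (c q : ℕ) (s r : FW α) : FW α := fun t f c' ch rs =>
  Bool.rec (motive := fun _ => Bool) (r t f c' ch rs)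
    (Bool.rec (motive := fun _ => Bool) (Nd.seek c (bdy c q t (s t f) (r t f)) rs)
      (Bool.rec (motive := fun _ => Bool)
        (Bool.rec (motive := fun _ => Bool) false (nxt (r t f) rs) (Nd.opn (s t f) ch))
        (nxt (r t f) rs) (Nat.beq (t q) (nat_lit 0)))
      (Nat.beq c' c)) (Nat.ble c' c)

/-- The function of a row. -/
def cmp (r : Rw α) : FW α :=
  Rw.rec (motive := fun _ => FW α) FW.nil (fun o k q b _ ih => FW.hit o k q b ih)
    (fun c o k q b _ ih => FW.one c o k q b ih) (fun c q _ _ ihs ihr => FW.tok c q ihs ihr) r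

theorem cmp_eq (r : Rw α) : cmp r = wlk r := by
  funext t f
  induction r with
  | nil => rfl
  | hit o k q b rest ih =>
    have e : cmp (.hit o k q b rest) t f = fun c' ch rs => Bool.rec (motive := fun _ => Bool)
      (Bool.rec (motive := fun _ => Bool) false (cmp rest t f c' ch rs) (f o k (t q) b c' ch rs))
      (cmp rest t f c' ch rs) (Nat.beq (t q) 0) := rfl
    rw [e, ih]
    rfl
  | one c o k q b rest ih =>
    have e : cmp (.one c o k q b rest) t f = fun c' ch rs => Bool.rec (motive := fun _ => Bool)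
      (cmp rest t f c' ch rs)
      (Bool.rec (motive := fun _ => Bool)
        (Nd.seek c (bdy c q t (f o k (t q) b) (cmp rest t f)) rs)
        (Bool.rec (motive := fun _ => Bool)
          (Bool.rec (motive := fun _ => Bool) false (nxt (cmp rest t f) rs)
            (Nd.opn (f o k (t q) b) ch))
          (nxt (cmp rest t f) rs) (Nat.beq (t q) 0))
        (Nat.beq c' c)) (Nat.ble c' c) := rfl
    rw [e, ih]
    rfl
  | tok c q sub rest ihs ihr =>
    have e : cmp (.tok c q sub rest) t f = fun c' ch rs => Bool.rec (motive := fun _ => Bool)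
      (cmp rest t f c' ch rs)
      (Bool.rec (motive := fun _ => Bool)
        (Nd.seek c (bdy c q t (cmp sub t f) (cmp rest t f)) rs)
        (Bool.rec (motive := fun _ => Bool)
          (Bool.rec (motive := fun _ => Bool) false (nxt (cmp rest t f) rs)
            (Nd.opn (cmp sub t f) ch))
          (nxt (cmp rest t f) rs) (Nat.beq (t q) 0))
        (Nat.beq c' c)) (Nat.ble c' c) := rfl
    rw [e, ihs, ihr]
    rfl

/-- The functions of all rows, computed from the rows. -/
def frw (R : ℕ → ℕ → Rw α) (k o : ℕ) : FB α := FB.mk (wlk (R k o))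

theorem frw_run (R : ℕ → ℕ → Rw α) (k o : ℕ) : (frw R k o).run = wlk (R k o) := rfl

theorem run_of_cmp {x : FB α} {r : Rw α} (h : x = FB.mk (cmp r)) : x.run = wlk r := by
  rw [h, cmp_eq]
  rfl

end

/-! ### The rows of a map -/

theorem wfs_map {α : Type} {R : ℕ → ℕ → Rw α} (h : ∀ k < 101, wfsK R k = true) {F : Type*}
    (T : SMap F) (d : F) : wfs (R (T.kx d) (T.ox d)) 0 = true :=
  rAllN_iff.1 (h _ (T.kx_lt d)) _ (by rw [optN_eq (T.kx_lt d)]; exact T.ox_lt_length d)

end Pool.Agent.Lib.MP_5854e1_co.Wk
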