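import Pool.Agent.Lib.MP_5854e1_co.CertElim
import Pool.Agent.Lib.MP_5854e1_co.Cover

/-!
A graph with a positivity certificate has no finite planar cover.
-/

set_option autoImplicit false

namespace Pool.Agent.Lib.MP_5854e1_co

theorem no_cover {m : ℕ} (C : CertData m) (K : SimpleGraph (Fin m)) [DecidableRel K.Adj]
    (S el : List (Fin m × Fin m)) (h : C.okE K S el = true) (hc : ∀ u, C.c u = 0)
    (hne : ∀ u, ∃ v, K.Adj u v) {W : Type*} [Finite W] [Nonempty W] (H : SimpleGraph W)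
    (φ : W → Fin m) (hcov : IsCover H K φ) : ¬ IsPlanar H := by
  classical
  intro hpl
  obtain ⟨g, hg1, hg2⟩ := C.soundE K S el h
  obtain ⟨w0⟩ := ‹Nonempty W›
  obtain ⟨v, hv⟩ := hne (φ w0)
  obtain ⟨d, -, -⟩ := hcov.dart_surj w0 ⟨(φ w0, v), hv⟩ rfl
  have : Nonempty H.Dart := ⟨d⟩
  have h1 := cover_planar_lemma hcov hpl g (fun _ => (0 : ℤ)) (fun a => QN C.N a) hg1
    (fun a b x y hx hy => QN_mul hx hy) (fun a x y hx => QN_conj hx y) (fun u l hl hl2 => by
      have h2 := hg2 u l hl hl2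
      rw [hc u] at h2
      simpa using h2)
  have h2 : ∑ᶠ _ : H.Dart, (0 : ℤ) = 0 := finsum_zero
  rw [h2] at h1
  exact one_notMem_QN C.N h1

end Pool.Agent.Lib.MP_5854e1_co
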