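import Pool.Agent.Lib.MP_5854e1_co.MinThms
import Pool.Agent.Lib.MP_5854e1_co.NoCover
import Pool.Agent.Lib.MP_5854e1_co.CertC3
import Pool.Agent.Lib.MP_5854e1_co.CertD2

/-!
# The family of `K_{1,2,2,2}`, and the assembly
-/

set_option autoImplicit false

namespace Pool.Agent.Lib.MP_5854e1_co

/-- The graph `B_7`: in `K_{1,2,2,2}` the edges of the triangle `135` are replaced by a star with
centre `7`. -/
abbrev B7 : SimpleGraph (Fin 8) := ofEdges
  [(0, 1), (0, 2), (0, 3), (0, 4), (0, 5), (0, 6),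
   (1, 4), (1, 6), (2, 3), (2, 4), (2, 5), (2, 6), (3, 6), (4, 5), (4, 6),
   (1, 7), (3, 7), (5, 7)]

/-- The graph `C_4`: in `K_{1,2,2,2}` the edges of the opposite triangles `135` and `246` are
replaced by stars with centres `7` and `8`. -/
abbrev C4 : SimpleGraph (Fin 9) := ofEdges
  [(0, 1), (0, 2), (0, 3), (0, 4), (0, 5), (0, 6),
   (1, 4), (1, 6), (2, 3), (2, 5), (3, 6), (4, 5),
   (1, 7), (3, 7), (5, 7), (2, 8), (4, 8), (6, 8)]

instance {U : Type*} [DecidableEq U] (G : SimpleGraph U) [DecidableRel G.Adj] (v : U) :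
    DecidableRel (yd G v).Adj := fun x y =>
  inferInstanceAs (Decidable ((x ≠ v ∧ y ≠ v ∧ G.Adj x y) ∨ (x ≠ y ∧ G.Adj v x ∧ G.Adj v y)))

instance {U U' : Type*} (G : SimpleGraph U) [DecidableRel G.Adj] (f : U' → U) :
    DecidableRel (G.comap f).Adj := fun x y => inferInstanceAs (Decidable (G.Adj (f x) (f y)))

theorem B7_noCover (hK : ¬ HasPlanarCover K1222) : ¬ HasPlanarCover B7 := fun h =>
  hK (((h.yd (v := 7) (a := 1) (b := 3) (c := 5) (by decide) (by decide) (by decide)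
    (by decide)).comap (Fin.castSucc : Fin 7 → Fin 8) (Fin.castSucc_injective 7)).mono
    (fun a b => by revert a b; decide))

theorem C4_noCover (hK : ¬ HasPlanarCover K1222) : ¬ HasPlanarCover C4 := fun h =>
  B7_noCover hK (((h.yd (v := 8) (a := 2) (b := 4) (c := 6) (by decide) (by decide) (by decide)
    (by decide)).comap (Fin.castSucc : Fin 8 → Fin 9) (Fin.castSucc_injective 8)).mono
    (fun a b => by revert a b; decide))

theorem C3_noCover : ¬ HasPlanarCover C3 := by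
  rintro ⟨n, H, φ, hs, hcov, hpl⟩
  obtain ⟨w, -⟩ := hs 0
  have : Nonempty (Fin n) := ⟨w⟩
  exact no_cover C3_cert C3 _ _ C3_ok (fun _ => rfl) (by decide) H φ hcov hpl

theorem D2_noCover : ¬ HasPlanarCover D2 := by
  rintro ⟨n, H, φ, hs, hcov, hpl⟩
  obtain ⟨w, -⟩ := hs 0
  have : Nonempty (Fin n) := ⟨w⟩
  exact no_cover D2_cert D2 _ _ D2_ok (fun _ => rfl) (by decide) H φ hcov hpl

end Pool.Agent.Lib.MP_5854e1_co
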