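import Pool.Agent.Lib.MP_5854e1_co.Keep
import Pool.Agent.Lib.MP_5854e1_co.MnrE
import Pool.Agent.Lib.MP_5854e1_co.K7S.Main

/-!
# The graphs `D_3` and `F_1`

They have no finite planar cover, because `K_7 - C_4` has none.
-/

set_option autoImplicit false

namespace Pool.Agent.Lib.MP_5854e1_co

/-- The graph `D_3`. -/
abbrev D3 : SimpleGraph (Fin 8) := ofEdges
  [(0, 2), (0, 3), (0, 4), (0, 5), (0, 6), (1, 2), (1, 3), (1, 5), (2, 4), (2, 6), (2, 7), (3, 7),
   (4, 6), (4, 7), (5, 7), (6, 7)]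

/-- The graph `F_1`. -/
abbrev F1 : SimpleGraph (Fin 9) := ofEdges
  [(0, 2), (0, 3), (0, 5), (1, 2), (1, 3), (1, 5), (1, 8), (2, 4), (3, 4), (4, 6), (4, 7), (5, 6),
   (5, 7), (6, 8), (7, 8)]

instance {U : Type*} [DecidableEq U] (G : SimpleGraph U) [DecidableRel G.Adj] (a b : U) :
    DecidableRel (addE G a b).Adj := fun x y =>
  inferInstanceAs (Decidable (G.Adj x y ∨ (x ≠ y ∧ ((x = a ∧ y = b) ∨ (x = b ∧ y = a)))))

private def fD : Fin 7 → Fin 8 := ![0, 2, 7, 1, 3, 4, 6]

private def fF : Fin 7 → Fin 9 := ![1, 4, 5, 0, 2, 6, 8]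

theorem D3_noCover : ¬ HasPlanarCover D3 := fun h =>
  K7C4_noPlanarCover ((((h.keep 1 2 3 5 (by decide) (by decide) (by decide) (by decide)).yd
    (v := 5) (a := 0) (b := 1) (c := 7) (by decide) (by decide) (by decide) (by decide)).comap
    fD (by decide)).mono (fun a b => by revert a b; decide))

theorem F1_noCover : ¬ HasPlanarCover F1 := fun h =>
  K7C4_noPlanarCover ((((((h.keep 0 2 5 3 (by decide) (by decide) (by decide) (by decide)).yd
    (v := 3) (a := 0) (b := 1) (c := 4) (by decide) (by decide) (by decide) (by decide)).keep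
    8 1 6 7 (by decide) (by decide) (by decide) (by decide)).yd
    (v := 7) (a := 4) (b := 5) (c := 8) (by decide) (by decide) (by decide) (by decide)).comap
    fF (by decide)).mono (fun a b => by revert a b; decide))

end Pool.Agent.Lib.MP_5854e1_co
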