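import Pool.Agent.Lib.MP_5854e1_co.Node

/-!
# The nodes of the automaton, part 1
-/

set_option autoImplicit false

namespace Pool.Agent.Lib.MP_5854e1_co.Da

noncomputable section

def n0 : Nd := .fin (nat_lit 259977371) (nat_lit 4)
def n1 : Nd := .arc (nat_lit 3) n0 (.fin (nat_lit 259969181) (nat_lit 0))
def n2 : Nd := .fin (nat_lit 259977373) (nat_lit 4)
def n3 : Nd := .arc (nat_lit 3) n2 (.fin (nat_lit 259969179) (nat_lit 0))
def n4 : Nd := .arc (nat_lit 6) n1 (.arc (nat_lit 9) n3 (.fin (nat_lit 863907991) (nat_lit 0)))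
def n5 : Nd := .fin (nat_lit 863957143) (nat_lit 4)
def n6 : Nd := .arc (nat_lit 9) n5 (.fin (nat_lit 259944605) (nat_lit 0))
def n7 : Nd := .arc (nat_lit 6) n2 (.fin (nat_lit 863940759) (nat_lit 0))
def n8 : Nd := .arc (nat_lit 3) n6 (.arc (nat_lit 6) n7 (.fin (nat_lit 259952795) (nat_lit 0)))
def n9 : Nd := .arc (nat_lit 6) n5 (.fin (nat_lit 259960987) (nat_lit 0))
def n10 : Nd := .arc (nat_lit 9) n0 (.fin (nat_lit 863924375) (nat_lit 0))
def n11 : Nd := .arc (nat_lit 3) n9 (.arc (nat_lit 9) n10 (.fin (nat_lit 259936413) (nat_lit 0)))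
def n12 : Nd := .arc (nat_lit 3) n4 (.arc (nat_lit 6) n8 (.arc (nat_lit 9) n11 (.fin (nat_lit 863899801) (nat_lit 0))))
def n13 : Nd := .arc (nat_lit 6) n3 (.arc (nat_lit 9) n1 (.fin (nat_lit 863907993) (nat_lit 0)))
def n14 : Nd := .fin (nat_lit 863957145) (nat_lit 4)
def n15 : Nd := .arc (nat_lit 9) n14 (.fin (nat_lit 259944603) (nat_lit 0))
def n16 : Nd := .arc (nat_lit 6) n0 (.fin (nat_lit 863940761) (nat_lit 0))
def n17 : Nd := .arc (nat_lit 3) n15 (.arc (nat_lit 6) n16 (.fin (nat_lit 259952797) (nat_lit 0)))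
def n18 : Nd := .arc (nat_lit 6) n14 (.fin (nat_lit 259960989) (nat_lit 0))
def n19 : Nd := .arc (nat_lit 9) n2 (.fin (nat_lit 863924377) (nat_lit 0))
def n20 : Nd := .arc (nat_lit 3) n18 (.arc (nat_lit 9) n19 (.fin (nat_lit 259936411) (nat_lit 0)))
def n21 : Nd := .arc (nat_lit 3) n13 (.arc (nat_lit 6) n17 (.arc (nat_lit 9) n20 (.fin (nat_lit 863899799) (nat_lit 0))))
def n22 : Nd := .arc (nat_lit 3) n14 (.fin (nat_lit 863948951) (nat_lit 0))
def n23 : Nd := .arc (nat_lit 3) n5 (.fin (nat_lit 863948953) (nat_lit 0))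
def n24 : Nd := .arc (nat_lit 6) n22 (.arc (nat_lit 9) n23 (.fin (nat_lit 259928219) (nat_lit 0)))
def n25 : Nd := .arc (nat_lit 3) n10 (.arc (nat_lit 6) n9 (.fin (nat_lit 863932569) (nat_lit 0)))
def n26 : Nd := .arc (nat_lit 3) n16 (.arc (nat_lit 9) n15 (.fin (nat_lit 863916183) (nat_lit 0)))
def n27 : Nd := .arc (nat_lit 3) n24 (.arc (nat_lit 6) n25 (.arc (nat_lit 9) n26 (.fin (nat_lit 259920029) (nat_lit 0))))
def n28 : Nd := .arc (nat_lit 6) n23 (.arc (nat_lit 9) n22 (.fin (nat_lit 259928221) (nat_lit 0)))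
def n29 : Nd := .arc (nat_lit 3) n19 (.arc (nat_lit 6) n18 (.fin (nat_lit 863932567) (nat_lit 0)))
def n30 : Nd := .arc (nat_lit 3) n7 (.arc (nat_lit 9) n6 (.fin (nat_lit 863916185) (nat_lit 0)))
def n31 : Nd := .arc (nat_lit 3) n28 (.arc (nat_lit 6) n29 (.arc (nat_lit 9) n30 (.fin (nat_lit 259920027) (nat_lit 0))))
def n32 : Nd := .arc (nat_lit 14) n12 (.arc (nat_lit 17) n21 (.arc (nat_lit 20) n27 (.arc (nat_lit 23) n31 (.fin (nat_lit 863695001) (nat_lit 0)))))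
def n33 : Nd := .arc (nat_lit 3) n32 (.fin (nat_lit 863686807) (nat_lit 0))
def n34 : Nd := .arc (nat_lit 14) n21 (.arc (nat_lit 17) n12 (.arc (nat_lit 20) n31 (.arc (nat_lit 23) n27 (.fin (nat_lit 863694999) (nat_lit 0)))))
def n35 : Nd := .arc (nat_lit 3) n34 (.fin (nat_lit 863686809) (nat_lit 0))
def n36 : Nd := .arc (nat_lit 6) n33 (.arc (nat_lit 9) n35 (.fin (nat_lit 259666075) (nat_lit 0)))
def n37 : Nd := .arc (nat_lit 14) n27 (.arc (nat_lit 17) n31 (.arc (nat_lit 20) n21 (.arc (nat_lit 23) n12 (.fin (nat_lit 259715227) (nat_lit 0)))))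
def n38 : Nd := .arc (nat_lit 9) n37 (.fin (nat_lit 863662231) (nat_lit 0))
def n39 : Nd := .arc (nat_lit 6) n34 (.fin (nat_lit 259698843) (nat_lit 0))
def n40 : Nd := .arc (nat_lit 3) n38 (.arc (nat_lit 6) n39 (.fin (nat_lit 863670425) (nat_lit 0)))
def n41 : Nd := .arc (nat_lit 6) n37 (.fin (nat_lit 863678617) (nat_lit 0))
def n42 : Nd := .arc (nat_lit 9) n32 (.fin (nat_lit 259682459) (nat_lit 0))
def n43 : Nd := .arc (nat_lit 3) n41 (.arc (nat_lit 9) n42 (.fin (nat_lit 863654039) (nat_lit 0)))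
def n44 : Nd := .arc (nat_lit 3) n36 (.arc (nat_lit 6) n40 (.arc (nat_lit 9) n43 (.fin (nat_lit 259657885) (nat_lit 0))))
def n45 : Nd := .arc (nat_lit 6) n35 (.arc (nat_lit 9) n33 (.fin (nat_lit 259666077) (nat_lit 0)))
def n46 : Nd := .arc (nat_lit 14) n31 (.arc (nat_lit 17) n27 (.arc (nat_lit 20) n12 (.arc (nat_lit 23) n21 (.fin (nat_lit 259715229) (nat_lit 0)))))
def n47 : Nd := .arc (nat_lit 9) n46 (.fin (nat_lit 863662233) (nat_lit 0))
def n48 : Nd := .arc (nat_lit 6) n32 (.fin (nat_lit 259698845) (nat_lit 0))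
def n49 : Nd := .arc (nat_lit 3) n47 (.arc (nat_lit 6) n48 (.fin (nat_lit 863670423) (nat_lit 0)))
def n50 : Nd := .arc (nat_lit 6) n46 (.fin (nat_lit 863678615) (nat_lit 0))
def n51 : Nd := .arc (nat_lit 9) n34 (.fin (nat_lit 259682461) (nat_lit 0))
def n52 : Nd := .arc (nat_lit 3) n50 (.arc (nat_lit 9) n51 (.fin (nat_lit 863654041) (nat_lit 0)))
def n53 : Nd := .arc (nat_lit 3) n45 (.arc (nat_lit 6) n49 (.arc (nat_lit 9) n52 (.fin (nat_lit 259657883) (nat_lit 0))))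
def n54 : Nd := .arc (nat_lit 3) n37 (.fin (nat_lit 259707037) (nat_lit 0))
def n55 : Nd := .arc (nat_lit 3) n46 (.fin (nat_lit 259707035) (nat_lit 0))
def n56 : Nd := .arc (nat_lit 6) n54 (.arc (nat_lit 9) n55 (.fin (nat_lit 863645847) (nat_lit 0)))
def n57 : Nd := .arc (nat_lit 3) n51 (.arc (nat_lit 6) n50 (.fin (nat_lit 259690651) (nat_lit 0)))
def n58 : Nd := .arc (nat_lit 3) n39 (.arc (nat_lit 9) n38 (.fin (nat_lit 259674269) (nat_lit 0)))
def n59 : Nd := .arc (nat_lit 3) n56 (.arc (nat_lit 6) n57 (.arc (nat_lit 9) n58 (.fin (nat_lit 863637657) (nat_lit 0))))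
def n60 : Nd := .arc (nat_lit 6) n55 (.arc (nat_lit 9) n54 (.fin (nat_lit 863645849) (nat_lit 0)))
def n61 : Nd := .arc (nat_lit 3) n42 (.arc (nat_lit 6) n41 (.fin (nat_lit 259690653) (nat_lit 0)))
def n62 : Nd := .arc (nat_lit 3) n48 (.arc (nat_lit 9) n47 (.fin (nat_lit 259674267) (nat_lit 0)))
def n63 : Nd := .arc (nat_lit 3) n60 (.arc (nat_lit 6) n61 (.arc (nat_lit 9) n62 (.fin (nat_lit 863637655) (nat_lit 0))))
def n64 : Nd := .arc (nat_lit 50) n44 (.arc (nat_lit 53) n53 (.arc (nat_lit 56) n59 (.arc (nat_lit 59) n63 (.arc (nat_lit 62) n53 (.arc (nat_lit 65) n44 (.arc (nat_lit 68) n59 (.arc (nat_lit 71) n63 (.fin (nat_lit 857665689) (nat_lit 0)))))))))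
def n65 : Nd := .arc (nat_lit 3) n64 (.fin (nat_lit 857657495) (nat_lit 0))
def n66 : Nd := .arc (nat_lit 50) n53 (.arc (nat_lit 53) n44 (.arc (nat_lit 56) n63 (.arc (nat_lit 59) n59 (.arc (nat_lit 62) n44 (.arc (nat_lit 65) n53 (.arc (nat_lit 68) n63 (.arc (nat_lit 71) n59 (.fin (nat_lit 857665687) (nat_lit 0)))))))))
def n67 : Nd := .arc (nat_lit 3) n66 (.fin (nat_lit 857657497) (nat_lit 0))
def n68 : Nd := .arc (nat_lit 6) n65 (.arc (nat_lit 9) n67 (.fin (nat_lit 258355355) (nat_lit 0)))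
def n69 : Nd := .arc (nat_lit 26) n44 (.arc (nat_lit 29) n53 (.arc (nat_lit 32) n63 (.arc (nat_lit 35) n59 (.arc (nat_lit 38) n53 (.arc (nat_lit 41) n44 (.arc (nat_lit 44) n63 (.arc (nat_lit 47) n59 (.fin (nat_lit 258404507) (nat_lit 0)))))))))
def n70 : Nd := .arc (nat_lit 9) n69 (.arc (nat_lit 64) n36 (.arc (nat_lit 67) n43 (.arc (nat_lit 70) n40 (.fin (nat_lit 857632919) (nat_lit 0)))))
def n71 : Nd := .arc (nat_lit 6) n66 (.fin (nat_lit 258388123) (nat_lit 0))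
def n72 : Nd := .arc (nat_lit 3) n70 (.arc (nat_lit 6) n71 (.fin (nat_lit 857641113) (nat_lit 0)))
def n73 : Nd := .arc (nat_lit 6) n69 (.arc (nat_lit 52) n36 (.arc (nat_lit 55) n40 (.arc (nat_lit 58) n43 (.fin (nat_lit 857649305) (nat_lit 0)))))
def n74 : Nd := .arc (nat_lit 9) n64 (.fin (nat_lit 258371739) (nat_lit 0))
def n75 : Nd := .arc (nat_lit 3) n73 (.arc (nat_lit 9) n74 (.fin (nat_lit 857624727) (nat_lit 0)))
def n76 : Nd := .arc (nat_lit 3) n68 (.arc (nat_lit 6) n72 (.arc (nat_lit 9) n75 (.fin (nat_lit 258347165) (nat_lit 0))))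
def n77 : Nd := .arc (nat_lit 6) n67 (.arc (nat_lit 9) n65 (.fin (nat_lit 258355357) (nat_lit 0)))
def n78 : Nd := .arc (nat_lit 26) n53 (.arc (nat_lit 29) n44 (.arc (nat_lit 32) n59 (.arc (nat_lit 35) n63 (.arc (nat_lit 38) n44 (.arc (nat_lit 41) n53 (.arc (nat_lit 44) n59 (.arc (nat_lit 47) n63 (.fin (nat_lit 258404509) (nat_lit 0)))))))))
def n79 : Nd := .arc (nat_lit 9) n78 (.arc (nat_lit 64) n45 (.arc (nat_lit 67) n52 (.arc (nat_lit 70) n49 (.fin (nat_lit 857632921) (nat_lit 0)))))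
def n80 : Nd := .arc (nat_lit 6) n64 (.fin (nat_lit 258388125) (nat_lit 0))
def n81 : Nd := .arc (nat_lit 3) n79 (.arc (nat_lit 6) n80 (.fin (nat_lit 857641111) (nat_lit 0)))
def n82 : Nd := .arc (nat_lit 6) n78 (.arc (nat_lit 52) n45 (.arc (nat_lit 55) n49 (.arc (nat_lit 58) n52 (.fin (nat_lit 857649303) (nat_lit 0)))))
def n83 : Nd := .arc (nat_lit 9) n66 (.fin (nat_lit 258371741) (nat_lit 0))
def n84 : Nd := .arc (nat_lit 3) n82 (.arc (nat_lit 9) n83 (.fin (nat_lit 857624729) (nat_lit 0)))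
def n85 : Nd := .arc (nat_lit 3) n77 (.arc (nat_lit 6) n81 (.arc (nat_lit 9) n84 (.fin (nat_lit 258347163) (nat_lit 0))))
def n86 : Nd := .arc (nat_lit 3) n78 (.arc (nat_lit 40) n45 (.arc (nat_lit 43) n49 (.arc (nat_lit 46) n52 (.fin (nat_lit 258396315) (nat_lit 0)))))
def n87 : Nd := .arc (nat_lit 3) n69 (.arc (nat_lit 40) n36 (.arc (nat_lit 43) n40 (.arc (nat_lit 46) n43 (.fin (nat_lit 258396317) (nat_lit 0)))))
def n88 : Nd := .arc (nat_lit 6) n86 (.arc (nat_lit 9) n87 (.fin (nat_lit 857616537) (nat_lit 0)))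
def n89 : Nd := .arc (nat_lit 3) n74 (.arc (nat_lit 6) n73 (.fin (nat_lit 258379933) (nat_lit 0)))
def n90 : Nd := .arc (nat_lit 3) n80 (.arc (nat_lit 9) n79 (.fin (nat_lit 258363547) (nat_lit 0)))
def n91 : Nd := .arc (nat_lit 3) n88 (.arc (nat_lit 6) n89 (.arc (nat_lit 9) n90 (.fin (nat_lit 857608343) (nat_lit 0))))
def n92 : Nd := .arc (nat_lit 6) n87 (.arc (nat_lit 9) n86 (.fin (nat_lit 857616535) (nat_lit 0)))
def n93 : Nd := .arc (nat_lit 3) n83 (.arc (nat_lit 6) n82 (.fin (nat_lit 258379931) (nat_lit 0)))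
def n94 : Nd := .arc (nat_lit 3) n71 (.arc (nat_lit 9) n70 (.fin (nat_lit 258363549) (nat_lit 0)))
def n95 : Nd := .arc (nat_lit 3) n92 (.arc (nat_lit 6) n93 (.arc (nat_lit 9) n94 (.fin (nat_lit 857608345) (nat_lit 0))))
def n96 : Nd := .arc (nat_lit 38) n31 (.arc (nat_lit 41) n27 (.arc (nat_lit 44) n21 (.arc (nat_lit 47) n12 (.fin (nat_lit 258928795) (nat_lit 0)))))
def n97 : Nd := .arc (nat_lit 3) n96 (.fin (nat_lit 259444893) (nat_lit 0))
def n98 : Nd := .arc (nat_lit 26) n31 (.arc (nat_lit 29) n27 (.arc (nat_lit 32) n12 (.arc (nat_lit 35) n21 (.fin (nat_lit 259453085) (nat_lit 0)))))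
def n99 : Nd := .arc (nat_lit 3) n98 (.arc (nat_lit 40) n28 (.arc (nat_lit 43) n29 (.arc (nat_lit 46) n30 (.fin (nat_lit 258920603) (nat_lit 0)))))
def n100 : Nd := .arc (nat_lit 6) n97 (.arc (nat_lit 9) n99 (.fin (nat_lit 861810839) (nat_lit 0)))
def n101 : Nd := .arc (nat_lit 50) n31 (.arc (nat_lit 53) n27 (.arc (nat_lit 56) n21 (.arc (nat_lit 59) n12 (.fin (nat_lit 861859991) (nat_lit 0)))))
def n102 : Nd := .arc (nat_lit 9) n101 (.fin (nat_lit 259420317) (nat_lit 0))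
def n103 : Nd := .arc (nat_lit 6) n98 (.arc (nat_lit 52) n28 (.arc (nat_lit 55) n29 (.arc (nat_lit 58) n30 (.fin (nat_lit 861843607) (nat_lit 0)))))
def n104 : Nd := .arc (nat_lit 3) n102 (.arc (nat_lit 6) n103 (.fin (nat_lit 258904219) (nat_lit 0)))
def n105 : Nd := .arc (nat_lit 6) n101 (.fin (nat_lit 258912411) (nat_lit 0))
def n106 : Nd := .arc (nat_lit 9) n96 (.fin (nat_lit 861827223) (nat_lit 0))
def n107 : Nd := .arc (nat_lit 3) n105 (.arc (nat_lit 9) n106 (.fin (nat_lit 259412125) (nat_lit 0)))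
def n108 : Nd := .arc (nat_lit 3) n100 (.arc (nat_lit 6) n104 (.arc (nat_lit 9) n107 (.fin (nat_lit 859705497) (nat_lit 0))))
def n109 : Nd := .arc (nat_lit 6) n99 (.arc (nat_lit 9) n97 (.fin (nat_lit 859713689) (nat_lit 0)))
def n110 : Nd := .arc (nat_lit 62) n31 (.arc (nat_lit 65) n27 (.arc (nat_lit 68) n12 (.arc (nat_lit 71) n21 (.fin (nat_lit 859762841) (nat_lit 0)))))
def n111 : Nd := .arc (nat_lit 9) n110 (.fin (nat_lit 258896027) (nat_lit 0))
def n112 : Nd := .arc (nat_lit 6) n96 (.fin (nat_lit 859746457) (nat_lit 0))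
def n113 : Nd := .arc (nat_lit 3) n111 (.arc (nat_lit 6) n112 (.fin (nat_lit 259428509) (nat_lit 0)))
def n114 : Nd := .arc (nat_lit 6) n110 (.fin (nat_lit 259436701) (nat_lit 0))
def n115 : Nd := .arc (nat_lit 9) n98 (.arc (nat_lit 64) n28 (.arc (nat_lit 67) n30 (.arc (nat_lit 70) n29 (.fin (nat_lit 859730073) (nat_lit 0)))))
def n116 : Nd := .arc (nat_lit 3) n114 (.arc (nat_lit 9) n115 (.fin (nat_lit 258887835) (nat_lit 0)))
def n117 : Nd := .arc (nat_lit 3) n109 (.arc (nat_lit 6) n113 (.arc (nat_lit 9) n116 (.fin (nat_lit 861802647) (nat_lit 0))))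
def n118 : Nd := .arc (nat_lit 3) n110 (.fin (nat_lit 861851799) (nat_lit 0))
def n119 : Nd := .arc (nat_lit 3) n101 (.fin (nat_lit 859754649) (nat_lit 0))
def n120 : Nd := .arc (nat_lit 6) n118 (.arc (nat_lit 9) n119 (.fin (nat_lit 258879643) (nat_lit 0)))
def n121 : Nd := .arc (nat_lit 3) n106 (.arc (nat_lit 6) n105 (.fin (nat_lit 859738265) (nat_lit 0)))
def n122 : Nd := .arc (nat_lit 3) n112 (.arc (nat_lit 9) n111 (.fin (nat_lit 861819031) (nat_lit 0)))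
def n123 : Nd := .arc (nat_lit 3) n120 (.arc (nat_lit 6) n121 (.arc (nat_lit 9) n122 (.fin (nat_lit 259395741) (nat_lit 0))))
def n124 : Nd := .arc (nat_lit 6) n119 (.arc (nat_lit 9) n118 (.fin (nat_lit 259403933) (nat_lit 0)))
def n125 : Nd := .arc (nat_lit 3) n115 (.arc (nat_lit 6) n114 (.fin (nat_lit 861835415) (nat_lit 0)))
def n126 : Nd := .arc (nat_lit 3) n103 (.arc (nat_lit 9) n102 (.fin (nat_lit 859721881) (nat_lit 0)))
def n127 : Nd := .arc (nat_lit 3) n124 (.arc (nat_lit 6) n125 (.arc (nat_lit 9) n126 (.fin (nat_lit 258871451) (nat_lit 0))))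
def n128 : Nd := .arc (nat_lit 50) n27 (.arc (nat_lit 53) n31 (.arc (nat_lit 56) n12 (.arc (nat_lit 59) n21 (.fin (nat_lit 861859993) (nat_lit 0)))))
def n129 : Nd := .arc (nat_lit 3) n128 (.fin (nat_lit 859754647) (nat_lit 0))
def n130 : Nd := .arc (nat_lit 62) n27 (.arc (nat_lit 65) n31 (.arc (nat_lit 68) n21 (.arc (nat_lit 71) n12 (.fin (nat_lit 859762839) (nat_lit 0)))))
def n131 : Nd := .arc (nat_lit 3) n130 (.fin (nat_lit 861851801) (nat_lit 0))
def n132 : Nd := .arc (nat_lit 6) n129 (.arc (nat_lit 9) n131 (.fin (nat_lit 259403931) (nat_lit 0)))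
def n133 : Nd := .arc (nat_lit 26) n27 (.arc (nat_lit 29) n31 (.arc (nat_lit 32) n21 (.arc (nat_lit 35) n12 (.fin (nat_lit 259453083) (nat_lit 0)))))
def n134 : Nd := .arc (nat_lit 9) n133 (.arc (nat_lit 64) n24 (.arc (nat_lit 67) n26 (.arc (nat_lit 70) n25 (.fin (nat_lit 859730071) (nat_lit 0)))))
def n135 : Nd := .arc (nat_lit 6) n130 (.fin (nat_lit 259436699) (nat_lit 0))
def n136 : Nd := .arc (nat_lit 3) n134 (.arc (nat_lit 6) n135 (.fin (nat_lit 861835417) (nat_lit 0)))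
def n137 : Nd := .arc (nat_lit 6) n133 (.arc (nat_lit 52) n24 (.arc (nat_lit 55) n25 (.arc (nat_lit 58) n26 (.fin (nat_lit 861843609) (nat_lit 0)))))
def n138 : Nd := .arc (nat_lit 9) n128 (.fin (nat_lit 259420315) (nat_lit 0))
def n139 : Nd := .arc (nat_lit 3) n137 (.arc (nat_lit 9) n138 (.fin (nat_lit 859721879) (nat_lit 0)))
def n140 : Nd := .arc (nat_lit 3) n132 (.arc (nat_lit 6) n136 (.arc (nat_lit 9) n139 (.fin (nat_lit 258871453) (nat_lit 0))))
def n141 : Nd := .arc (nat_lit 6) n131 (.arc (nat_lit 9) n129 (.fin (nat_lit 258879645) (nat_lit 0)))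
def n142 : Nd := .arc (nat_lit 38) n27 (.arc (nat_lit 41) n31 (.arc (nat_lit 44) n12 (.arc (nat_lit 47) n21 (.fin (nat_lit 258928797) (nat_lit 0)))))
def n143 : Nd := .arc (nat_lit 9) n142 (.fin (nat_lit 861827225) (nat_lit 0))
def n144 : Nd := .arc (nat_lit 6) n128 (.fin (nat_lit 258912413) (nat_lit 0))
def n145 : Nd := .arc (nat_lit 3) n143 (.arc (nat_lit 6) n144 (.fin (nat_lit 859738263) (nat_lit 0)))
def n146 : Nd := .arc (nat_lit 6) n142 (.fin (nat_lit 859746455) (nat_lit 0))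
def n147 : Nd := .arc (nat_lit 9) n130 (.fin (nat_lit 258896029) (nat_lit 0))
def n148 : Nd := .arc (nat_lit 3) n146 (.arc (nat_lit 9) n147 (.fin (nat_lit 861819033) (nat_lit 0)))
def n149 : Nd := .arc (nat_lit 3) n141 (.arc (nat_lit 6) n145 (.arc (nat_lit 9) n148 (.fin (nat_lit 259395739) (nat_lit 0))))
def n150 : Nd := .arc (nat_lit 3) n133 (.arc (nat_lit 40) n24 (.arc (nat_lit 43) n25 (.arc (nat_lit 46) n26 (.fin (nat_lit 258920605) (nat_lit 0)))))
def n151 : Nd := .arc (nat_lit 3) n142 (.fin (nat_lit 259444891) (nat_lit 0))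
def n152 : Nd := .arc (nat_lit 6) n150 (.arc (nat_lit 9) n151 (.fin (nat_lit 859713687) (nat_lit 0)))
def n153 : Nd := .arc (nat_lit 3) n147 (.arc (nat_lit 6) n146 (.fin (nat_lit 259428507) (nat_lit 0)))
def n154 : Nd := .arc (nat_lit 3) n135 (.arc (nat_lit 9) n134 (.fin (nat_lit 258887837) (nat_lit 0)))
def n155 : Nd := .arc (nat_lit 3) n152 (.arc (nat_lit 6) n153 (.arc (nat_lit 9) n154 (.fin (nat_lit 861802649) (nat_lit 0))))
def n156 : Nd := .arc (nat_lit 6) n151 (.arc (nat_lit 9) n150 (.fin (nat_lit 861810841) (nat_lit 0)))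
def n157 : Nd := .arc (nat_lit 3) n138 (.arc (nat_lit 6) n137 (.fin (nat_lit 258904221) (nat_lit 0)))
def n158 : Nd := .arc (nat_lit 3) n144 (.arc (nat_lit 9) n143 (.fin (nat_lit 259412123) (nat_lit 0)))
def n159 : Nd := .arc (nat_lit 3) n156 (.arc (nat_lit 6) n157 (.arc (nat_lit 9) n158 (.fin (nat_lit 859705495) (nat_lit 0))))
def n160 : Nd := .arc (nat_lit 14) n108 (.arc (nat_lit 17) n117 (.arc (nat_lit 20) n123 (.arc (nat_lit 23) n127 (.arc (nat_lit 50) n140 (.arc (nat_lit 53) n149 (.arc (nat_lit 56) n155 (.arc (nat_lit 59) n159 (.fin (nat_lit 861597849) (nat_lit 0)))))))))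
def n161 : Nd := .arc (nat_lit 3) n160 (.fin (nat_lit 859492503) (nat_lit 0))
def n162 : Nd := .arc (nat_lit 14) n117 (.arc (nat_lit 17) n108 (.arc (nat_lit 20) n127 (.arc (nat_lit 23) n123 (.arc (nat_lit 62) n140 (.arc (nat_lit 65) n149 (.arc (nat_lit 68) n159 (.arc (nat_lit 71) n155 (.fin (nat_lit 859500695) (nat_lit 0)))))))))
def n163 : Nd := .arc (nat_lit 3) n162 (.fin (nat_lit 861589657) (nat_lit 0))
def n164 : Nd := .arc (nat_lit 6) n161 (.arc (nat_lit 9) n163 (.fin (nat_lit 259141787) (nat_lit 0)))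
def n165 : Nd := .arc (nat_lit 14) n123 (.arc (nat_lit 17) n127 (.arc (nat_lit 20) n117 (.arc (nat_lit 23) n108 (.arc (nat_lit 26) n140 (.arc (nat_lit 29) n149 (.arc (nat_lit 32) n159 (.arc (nat_lit 35) n155 (.fin (nat_lit 259190939) (nat_lit 0)))))))))
def n166 : Nd := .arc (nat_lit 9) n165 (.arc (nat_lit 64) n132 (.arc (nat_lit 67) n139 (.arc (nat_lit 70) n136 (.fin (nat_lit 859467927) (nat_lit 0)))))
def n167 : Nd := .arc (nat_lit 6) n162 (.fin (nat_lit 259174555) (nat_lit 0))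
def n168 : Nd := .arc (nat_lit 3) n166 (.arc (nat_lit 6) n167 (.fin (nat_lit 861573273) (nat_lit 0)))
def n169 : Nd := .arc (nat_lit 6) n165 (.arc (nat_lit 52) n132 (.arc (nat_lit 55) n136 (.arc (nat_lit 58) n139 (.fin (nat_lit 861581465) (nat_lit 0)))))
def n170 : Nd := .arc (nat_lit 9) n160 (.fin (nat_lit 259158171) (nat_lit 0))
def n171 : Nd := .arc (nat_lit 3) n169 (.arc (nat_lit 9) n170 (.fin (nat_lit 859459735) (nat_lit 0)))
def n172 : Nd := .arc (nat_lit 3) n164 (.arc (nat_lit 6) n168 (.arc (nat_lit 9) n171 (.fin (nat_lit 258609309) (nat_lit 0))))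
def n173 : Nd := .arc (nat_lit 6) n163 (.arc (nat_lit 9) n161 (.fin (nat_lit 258617501) (nat_lit 0)))
def n174 : Nd := .arc (nat_lit 14) n127 (.arc (nat_lit 17) n123 (.arc (nat_lit 20) n108 (.arc (nat_lit 23) n117 (.arc (nat_lit 38) n140 (.arc (nat_lit 41) n149 (.arc (nat_lit 44) n155 (.arc (nat_lit 47) n159 (.fin (nat_lit 258666653) (nat_lit 0)))))))))
def n175 : Nd := .arc (nat_lit 9) n174 (.fin (nat_lit 861565081) (nat_lit 0))
def n176 : Nd := .arc (nat_lit 6) n160 (.fin (nat_lit 258650269) (nat_lit 0))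
def n177 : Nd := .arc (nat_lit 3) n175 (.arc (nat_lit 6) n176 (.fin (nat_lit 859476119) (nat_lit 0)))
def n178 : Nd := .arc (nat_lit 6) n174 (.fin (nat_lit 859484311) (nat_lit 0))
def n179 : Nd := .arc (nat_lit 9) n162 (.fin (nat_lit 258633885) (nat_lit 0))
def n180 : Nd := .arc (nat_lit 3) n178 (.arc (nat_lit 9) n179 (.fin (nat_lit 861556889) (nat_lit 0)))
def n181 : Nd := .arc (nat_lit 3) n173 (.arc (nat_lit 6) n177 (.arc (nat_lit 9) n180 (.fin (nat_lit 259133595) (nat_lit 0))))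
def n182 : Nd := .arc (nat_lit 3) n174 (.fin (nat_lit 259182747) (nat_lit 0))
def n183 : Nd := .arc (nat_lit 3) n165 (.arc (nat_lit 40) n132 (.arc (nat_lit 43) n136 (.arc (nat_lit 46) n139 (.fin (nat_lit 258658461) (nat_lit 0)))))
def n184 : Nd := .arc (nat_lit 6) n182 (.arc (nat_lit 9) n183 (.fin (nat_lit 861548697) (nat_lit 0)))
def n185 : Nd := .arc (nat_lit 3) n170 (.arc (nat_lit 6) n169 (.fin (nat_lit 258642077) (nat_lit 0)))
def n186 : Nd := .arc (nat_lit 3) n176 (.arc (nat_lit 9) n175 (.fin (nat_lit 259149979) (nat_lit 0)))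
def n187 : Nd := .arc (nat_lit 3) n184 (.arc (nat_lit 6) n185 (.arc (nat_lit 9) n186 (.fin (nat_lit 859443351) (nat_lit 0))))
def n188 : Nd := .arc (nat_lit 6) n183 (.arc (nat_lit 9) n182 (.fin (nat_lit 859451543) (nat_lit 0)))
def n189 : Nd := .arc (nat_lit 3) n179 (.arc (nat_lit 6) n178 (.fin (nat_lit 259166363) (nat_lit 0)))
def n190 : Nd := .arc (nat_lit 3) n167 (.arc (nat_lit 9) n166 (.fin (nat_lit 258625693) (nat_lit 0)))
def n191 : Nd := .arc (nat_lit 3) n188 (.arc (nat_lit 6) n189 (.arc (nat_lit 9) n190 (.fin (nat_lit 861540505) (nat_lit 0))))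
def n192 : Nd := .arc (nat_lit 14) n159 (.arc (nat_lit 17) n155 (.arc (nat_lit 20) n149 (.arc (nat_lit 23) n140 (.arc (nat_lit 50) n127 (.arc (nat_lit 53) n123 (.arc (nat_lit 56) n117 (.arc (nat_lit 59) n108 (.fin (nat_lit 861597847) (nat_lit 0)))))))))
def n193 : Nd := .arc (nat_lit 3) n192 (.fin (nat_lit 859492505) (nat_lit 0))
def n194 : Nd := .arc (nat_lit 14) n155 (.arc (nat_lit 17) n159 (.arc (nat_lit 20) n140 (.arc (nat_lit 23) n149 (.arc (nat_lit 62) n127 (.arc (nat_lit 65) n123 (.arc (nat_lit 68) n108 (.arc (nat_lit 71) n117 (.fin (nat_lit 859500697) (nat_lit 0)))))))))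
def n195 : Nd := .arc (nat_lit 3) n194 (.fin (nat_lit 861589655) (nat_lit 0))
def n196 : Nd := .arc (nat_lit 6) n193 (.arc (nat_lit 9) n195 (.fin (nat_lit 259141789) (nat_lit 0)))
def n197 : Nd := .arc (nat_lit 14) n149 (.arc (nat_lit 17) n140 (.arc (nat_lit 20) n155 (.arc (nat_lit 23) n159 (.arc (nat_lit 26) n127 (.arc (nat_lit 29) n123 (.arc (nat_lit 32) n108 (.arc (nat_lit 35) n117 (.fin (nat_lit 259190941) (nat_lit 0)))))))))
def n198 : Nd := .arc (nat_lit 9) n197 (.arc (nat_lit 64) n124 (.arc (nat_lit 67) n126 (.arc (nat_lit 70) n125 (.fin (nat_lit 859467929) (nat_lit 0)))))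
def n199 : Nd := .arc (nat_lit 6) n194 (.fin (nat_lit 259174557) (nat_lit 0))
def n200 : Nd := .arc (nat_lit 3) n198 (.arc (nat_lit 6) n199 (.fin (nat_lit 861573271) (nat_lit 0)))
def n201 : Nd := .arc (nat_lit 6) n197 (.arc (nat_lit 52) n124 (.arc (nat_lit 55) n125 (.arc (nat_lit 58) n126 (.fin (nat_lit 861581463) (nat_lit 0)))))
def n202 : Nd := .arc (nat_lit 9) n192 (.fin (nat_lit 259158173) (nat_lit 0))
def n203 : Nd := .arc (nat_lit 3) n201 (.arc (nat_lit 9) n202 (.fin (nat_lit 859459737) (nat_lit 0)))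
def n204 : Nd := .arc (nat_lit 3) n196 (.arc (nat_lit 6) n200 (.arc (nat_lit 9) n203 (.fin (nat_lit 258609307) (nat_lit 0))))
def n205 : Nd := .arc (nat_lit 6) n195 (.arc (nat_lit 9) n193 (.fin (nat_lit 258617499) (nat_lit 0)))
def n206 : Nd := .arc (nat_lit 14) n140 (.arc (nat_lit 17) n149 (.arc (nat_lit 20) n159 (.arc (nat_lit 23) n155 (.arc (nat_lit 38) n127 (.arc (nat_lit 41) n123 (.arc (nat_lit 44) n117 (.arc (nat_lit 47) n108 (.fin (nat_lit 258666651) (nat_lit 0)))))))))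
def n207 : Nd := .arc (nat_lit 9) n206 (.fin (nat_lit 861565079) (nat_lit 0))
def n208 : Nd := .arc (nat_lit 6) n192 (.fin (nat_lit 258650267) (nat_lit 0))
def n209 : Nd := .arc (nat_lit 3) n207 (.arc (nat_lit 6) n208 (.fin (nat_lit 859476121) (nat_lit 0)))
def n210 : Nd := .arc (nat_lit 6) n206 (.fin (nat_lit 859484313) (nat_lit 0))
def n211 : Nd := .arc (nat_lit 9) n194 (.fin (nat_lit 258633883) (nat_lit 0))
def n212 : Nd := .arc (nat_lit 3) n210 (.arc (nat_lit 9) n211 (.fin (nat_lit 861556887) (nat_lit 0)))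
def n213 : Nd := .arc (nat_lit 3) n205 (.arc (nat_lit 6) n209 (.arc (nat_lit 9) n212 (.fin (nat_lit 259133597) (nat_lit 0))))
def n214 : Nd := .arc (nat_lit 3) n197 (.arc (nat_lit 40) n124 (.arc (nat_lit 43) n125 (.arc (nat_lit 46) n126 (.fin (nat_lit 258658459) (nat_lit 0)))))
def n215 : Nd := .arc (nat_lit 3) n206 (.fin (nat_lit 259182749) (nat_lit 0))
def n216 : Nd := .arc (nat_lit 6) n214 (.arc (nat_lit 9) n215 (.fin (nat_lit 859451545) (nat_lit 0)))
def n217 : Nd := .arc (nat_lit 3) n211 (.arc (nat_lit 6) n210 (.fin (nat_lit 259166365) (nat_lit 0)))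
def n218 : Nd := .arc (nat_lit 3) n199 (.arc (nat_lit 9) n198 (.fin (nat_lit 258625691) (nat_lit 0)))
def n219 : Nd := .arc (nat_lit 3) n216 (.arc (nat_lit 6) n217 (.arc (nat_lit 9) n218 (.fin (nat_lit 861540503) (nat_lit 0))))
def n220 : Nd := .arc (nat_lit 6) n215 (.arc (nat_lit 9) n214 (.fin (nat_lit 861548695) (nat_lit 0)))
def n221 : Nd := .arc (nat_lit 3) n202 (.arc (nat_lit 6) n201 (.fin (nat_lit 258642075) (nat_lit 0)))
def n222 : Nd := .arc (nat_lit 3) n208 (.arc (nat_lit 9) n207 (.fin (nat_lit 259149981) (nat_lit 0)))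
def n223 : Nd := .arc (nat_lit 3) n220 (.arc (nat_lit 6) n221 (.arc (nat_lit 9) n222 (.fin (nat_lit 859443353) (nat_lit 0))))
def n224 : Nd := .arc (nat_lit 14) n76 (.arc (nat_lit 17) n85 (.arc (nat_lit 20) n91 (.arc (nat_lit 23) n95 (.arc (nat_lit 26) n172 (.arc (nat_lit 29) n181 (.arc (nat_lit 32) n187 (.arc (nat_lit 35) n191 (.arc (nat_lit 38) n204 (.arc (nat_lit 41) n213 (.arc (nat_lit 44) n219 (.arc (nat_lit 47) n223 (.fin (nat_lit 258142363) (nat_lit 0)))))))))))))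
def n225 : Nd := .arc (nat_lit 3) n224 (.arc (nat_lit 40) n164 (.arc (nat_lit 43) n168 (.arc (nat_lit 46) n171 (.fin (nat_lit 258134173) (nat_lit 0)))))
def n226 : Nd := .arc (nat_lit 14) n85 (.arc (nat_lit 17) n76 (.arc (nat_lit 20) n95 (.arc (nat_lit 23) n91 (.arc (nat_lit 26) n204 (.arc (nat_lit 29) n213 (.arc (nat_lit 32) n223 (.arc (nat_lit 35) n219 (.arc (nat_lit 38) n172 (.arc (nat_lit 41) n181 (.arc (nat_lit 44) n191 (.arc (nat_lit 47) n187 (.fin (nat_lit 258142365) (nat_lit 0)))))))))))))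
def n227 : Nd := .arc (nat_lit 3) n226 (.arc (nat_lit 40) n196 (.arc (nat_lit 43) n200 (.arc (nat_lit 46) n203 (.fin (nat_lit 258134171) (nat_lit 0)))))
def n228 : Nd := .arc (nat_lit 6) n225 (.arc (nat_lit 9) n227 (.fin (nat_lit 857354391) (nat_lit 0)))
def n229 : Nd := .arc (nat_lit 14) n91 (.arc (nat_lit 17) n95 (.arc (nat_lit 20) n85 (.arc (nat_lit 23) n76 (.arc (nat_lit 50) n204 (.arc (nat_lit 53) n213 (.arc (nat_lit 56) n219 (.arc (nat_lit 59) n223 (.arc (nat_lit 62) n172 (.arc (nat_lit 65) n181 (.arc (nat_lit 68) n187 (.arc (nat_lit 71) n191 (.fin (nat_lit 857403543) (nat_lit 0)))))))))))))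
def n230 : Nd := .arc (nat_lit 9) n229 (.fin (nat_lit 258109597) (nat_lit 0))
def n231 : Nd := .arc (nat_lit 6) n226 (.arc (nat_lit 52) n196 (.arc (nat_lit 55) n200 (.arc (nat_lit 58) n203 (.fin (nat_lit 857387159) (nat_lit 0)))))
def n232 : Nd := .arc (nat_lit 3) n230 (.arc (nat_lit 6) n231 (.fin (nat_lit 258117787) (nat_lit 0)))
def n233 : Nd := .arc (nat_lit 6) n229 (.fin (nat_lit 258125979) (nat_lit 0))
def n234 : Nd := .arc (nat_lit 9) n224 (.arc (nat_lit 64) n164 (.arc (nat_lit 67) n171 (.arc (nat_lit 70) n168 (.fin (nat_lit 857370775) (nat_lit 0)))))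
def n235 : Nd := .arc (nat_lit 3) n233 (.arc (nat_lit 9) n234 (.fin (nat_lit 258101405) (nat_lit 0)))
def n236 : Nd := .arc (nat_lit 3) n228 (.arc (nat_lit 6) n232 (.arc (nat_lit 9) n235 (.fin (nat_lit 857346201) (nat_lit 0))))
def n237 : Nd := .arc (nat_lit 6) n227 (.arc (nat_lit 9) n225 (.fin (nat_lit 857354393) (nat_lit 0)))
def n238 : Nd := .arc (nat_lit 14) n95 (.arc (nat_lit 17) n91 (.arc (nat_lit 20) n76 (.arc (nat_lit 23) n85 (.arc (nat_lit 50) n172 (.arc (nat_lit 53) n181 (.arc (nat_lit 56) n191 (.arc (nat_lit 59) n187 (.arc (nat_lit 62) n204 (.arc (nat_lit 65) n213 (.arc (nat_lit 68) n223 (.arc (nat_lit 71) n219 (.fin (nat_lit 857403545) (nat_lit 0)))))))))))))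
def n239 : Nd := .arc (nat_lit 9) n238 (.fin (nat_lit 258109595) (nat_lit 0))
def n240 : Nd := .arc (nat_lit 6) n224 (.arc (nat_lit 52) n164 (.arc (nat_lit 55) n168 (.arc (nat_lit 58) n171 (.fin (nat_lit 857387161) (nat_lit 0)))))
def n241 : Nd := .arc (nat_lit 3) n239 (.arc (nat_lit 6) n240 (.fin (nat_lit 258117789) (nat_lit 0)))
def n242 : Nd := .arc (nat_lit 6) n238 (.fin (nat_lit 258125981) (nat_lit 0))
def n243 : Nd := .arc (nat_lit 9) n226 (.arc (nat_lit 64) n196 (.arc (nat_lit 67) n203 (.arc (nat_lit 70) n200 (.fin (nat_lit 857370777) (nat_lit 0)))))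
def n244 : Nd := .arc (nat_lit 3) n242 (.arc (nat_lit 9) n243 (.fin (nat_lit 258101403) (nat_lit 0)))
def n245 : Nd := .arc (nat_lit 3) n237 (.arc (nat_lit 6) n241 (.arc (nat_lit 9) n244 (.fin (nat_lit 857346199) (nat_lit 0))))
def n246 : Nd := .arc (nat_lit 3) n238 (.fin (nat_lit 857395351) (nat_lit 0))
def n247 : Nd := .arc (nat_lit 3) n229 (.fin (nat_lit 857395353) (nat_lit 0))
def n248 : Nd := .arc (nat_lit 6) n246 (.arc (nat_lit 9) n247 (.fin (nat_lit 258093211) (nat_lit 0)))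
def n249 : Nd := .arc (nat_lit 3) n234 (.arc (nat_lit 6) n233 (.fin (nat_lit 857378969) (nat_lit 0)))
def n250 : Nd := .arc (nat_lit 3) n240 (.arc (nat_lit 9) n239 (.fin (nat_lit 857362583) (nat_lit 0)))
def n251 : Nd := .arc (nat_lit 3) n248 (.arc (nat_lit 6) n249 (.arc (nat_lit 9) n250 (.fin (nat_lit 258085021) (nat_lit 0))))
def n252 : Nd := .arc (nat_lit 6) n247 (.arc (nat_lit 9) n246 (.fin (nat_lit 258093213) (nat_lit 0)))
def n253 : Nd := .arc (nat_lit 3) n243 (.arc (nat_lit 6) n242 (.fin (nat_lit 857378967) (nat_lit 0)))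
def n254 : Nd := .arc (nat_lit 3) n231 (.arc (nat_lit 9) n230 (.fin (nat_lit 857362585) (nat_lit 0)))
def n255 : Nd := .arc (nat_lit 3) n252 (.arc (nat_lit 6) n253 (.arc (nat_lit 9) n254 (.fin (nat_lit 258085019) (nat_lit 0))))
def n256 : Nd := .arc (nat_lit 26) n236 (.arc (nat_lit 29) n245 (.arc (nat_lit 32) n251 (.arc (nat_lit 35) n255 (.arc (nat_lit 38) n236 (.arc (nat_lit 41) n245 (.arc (nat_lit 44) n255 (.arc (nat_lit 47) n251 (.arc (nat_lit 50) n236 (.arc (nat_lit 53) n245 (.arc (nat_lit 56) n255 (.arc (nat_lit 59) n251 (.arc (nat_lit 62) n236 (.arc (nat_lit 65) n245 (.arc (nat_lit 68) n251 (.arc (nat_lit 71) n255 (.fin (nat_lit 1007087765) (nat_lit 0)))))))))))))))))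
def n257 : Nd := .arc (nat_lit 3) n256 (.arc (nat_lit 40) n228 (.arc (nat_lit 43) n232 (.arc (nat_lit 46) n235 (.fin (nat_lit 1007079573) (nat_lit 0)))))
def n258 : Nd := .arc (nat_lit 6) n257 (.arc (nat_lit 9) n257 (.fin (nat_lit 1007038613) (nat_lit 0)))
def n259 : Nd := .arc (nat_lit 9) n256 (.arc (nat_lit 64) n228 (.arc (nat_lit 67) n235 (.arc (nat_lit 70) n232 (.fin (nat_lit 1007054997) (nat_lit 0)))))
def n260 : Nd := .arc (nat_lit 6) n256 (.arc (nat_lit 52) n228 (.arc (nat_lit 55) n232 (.arc (nat_lit 58) n235 (.fin (nat_lit 1007071381) (nat_lit 0)))))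
def n261 : Nd := .arc (nat_lit 3) n259 (.arc (nat_lit 6) n260 (.fin (nat_lit 1007063189) (nat_lit 0)))
def n262 : Nd := .arc (nat_lit 3) n260 (.arc (nat_lit 9) n259 (.fin (nat_lit 1007046805) (nat_lit 0)))
def n263 : Nd := .arc (nat_lit 3) n258 (.arc (nat_lit 6) n261 (.arc (nat_lit 9) n262 (.fin (nat_lit 1007030421) (nat_lit 0))))
def n264 : Nd := .arc (nat_lit 26) n59 (.arc (nat_lit 29) n63 (.arc (nat_lit 32) n44 (.arc (nat_lit 35) n53 (.arc (nat_lit 38) n59 (.arc (nat_lit 41) n63 (.arc (nat_lit 44) n53 (.arc (nat_lit 47) n44 (.fin (nat_lit 1013379221) (nat_lit 0)))))))))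
def n265 : Nd := .arc (nat_lit 3) n264 (.arc (nat_lit 40) n56 (.arc (nat_lit 43) n57 (.arc (nat_lit 46) n58 (.fin (nat_lit 1013371029) (nat_lit 0)))))
def n266 : Nd := .arc (nat_lit 6) n265 (.arc (nat_lit 9) n265 (.fin (nat_lit 1008611477) (nat_lit 0)))
def n267 : Nd := .arc (nat_lit 50) n59 (.arc (nat_lit 53) n63 (.arc (nat_lit 56) n53 (.arc (nat_lit 59) n44 (.arc (nat_lit 62) n59 (.arc (nat_lit 65) n63 (.arc (nat_lit 68) n44 (.arc (nat_lit 71) n53 (.fin (nat_lit 1008660629) (nat_lit 0)))))))))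
def n268 : Nd := .arc (nat_lit 9) n267 (.fin (nat_lit 1013346453) (nat_lit 0))
def n269 : Nd := .arc (nat_lit 6) n264 (.arc (nat_lit 52) n56 (.arc (nat_lit 55) n57 (.arc (nat_lit 58) n58 (.fin (nat_lit 1008644245) (nat_lit 0)))))
def n270 : Nd := .arc (nat_lit 3) n268 (.arc (nat_lit 6) n269 (.fin (nat_lit 1013354645) (nat_lit 0)))
def n271 : Nd := .arc (nat_lit 6) n267 (.fin (nat_lit 1013362837) (nat_lit 0))
def n272 : Nd := .arc (nat_lit 9) n264 (.arc (nat_lit 64) n56 (.arc (nat_lit 67) n58 (.arc (nat_lit 70) n57 (.fin (nat_lit 1008627861) (nat_lit 0)))))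
def n273 : Nd := .arc (nat_lit 3) n271 (.arc (nat_lit 9) n272 (.fin (nat_lit 1013338261) (nat_lit 0)))
def n274 : Nd := .arc (nat_lit 3) n266 (.arc (nat_lit 6) n270 (.arc (nat_lit 9) n273 (.fin (nat_lit 1008603285) (nat_lit 0))))
def n275 : Nd := .arc (nat_lit 3) n267 (.fin (nat_lit 1008652437) (nat_lit 0))
def n276 : Nd := .arc (nat_lit 6) n275 (.arc (nat_lit 9) n275 (.fin (nat_lit 1013330069) (nat_lit 0)))
def n277 : Nd := .arc (nat_lit 3) n272 (.arc (nat_lit 6) n271 (.fin (nat_lit 1008636053) (nat_lit 0)))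
def n278 : Nd := .arc (nat_lit 3) n269 (.arc (nat_lit 9) n268 (.fin (nat_lit 1008619669) (nat_lit 0)))
def n279 : Nd := .arc (nat_lit 3) n276 (.arc (nat_lit 6) n277 (.arc (nat_lit 9) n278 (.fin (nat_lit 1013321877) (nat_lit 0))))
def n280 : Nd := .fin (nat_lit 1014952085) (nat_lit 4)
def n281 : Nd := .arc (nat_lit 3) n280 (.fin (nat_lit 1014943893) (nat_lit 0))
def n282 : Nd := .arc (nat_lit 6) n281 (.arc (nat_lit 9) n281 (.fin (nat_lit 1014902933) (nat_lit 0)))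
def n283 : Nd := .arc (nat_lit 9) n280 (.fin (nat_lit 1014919317) (nat_lit 0))
def n284 : Nd := .arc (nat_lit 6) n280 (.fin (nat_lit 1014935701) (nat_lit 0))
def n285 : Nd := .arc (nat_lit 3) n283 (.arc (nat_lit 6) n284 (.fin (nat_lit 1014927509) (nat_lit 0)))
def n286 : Nd := .arc (nat_lit 3) n284 (.arc (nat_lit 9) n283 (.fin (nat_lit 1014911125) (nat_lit 0)))
def n287 : Nd := .arc (nat_lit 3) n282 (.arc (nat_lit 6) n285 (.arc (nat_lit 9) n286 (.fin (nat_lit 1014894741) (nat_lit 0))))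
def n288 : Nd := .arc (nat_lit 50) n287 (.arc (nat_lit 53) n287 (.arc (nat_lit 56) n287 (.arc (nat_lit 59) n287 (.fin (nat_lit 257880221) (nat_lit 0)))))
def n289 : Nd := .arc (nat_lit 3) n288 (.fin (nat_lit 255774875) (nat_lit 0))
def n290 : Nd := .arc (nat_lit 62) n287 (.arc (nat_lit 65) n287 (.arc (nat_lit 68) n287 (.arc (nat_lit 71) n287 (.fin (nat_lit 255783067) (nat_lit 0)))))
def n291 : Nd := .arc (nat_lit 3) n290 (.fin (nat_lit 257872029) (nat_lit 0))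
def n292 : Nd := .arc (nat_lit 6) n289 (.arc (nat_lit 9) n291 (.fin (nat_lit 863383705) (nat_lit 0)))
def n293 : Nd := .arc (nat_lit 26) n287 (.arc (nat_lit 29) n287 (.arc (nat_lit 32) n287 (.arc (nat_lit 35) n287 (.fin (nat_lit 863432857) (nat_lit 0)))))
def n294 : Nd := .arc (nat_lit 9) n293 (.arc (nat_lit 64) n282 (.arc (nat_lit 67) n286 (.arc (nat_lit 70) n285 (.fin (nat_lit 255750299) (nat_lit 0)))))
def n295 : Nd := .arc (nat_lit 6) n290 (.fin (nat_lit 863416473) (nat_lit 0))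
def n296 : Nd := .arc (nat_lit 3) n294 (.arc (nat_lit 6) n295 (.fin (nat_lit 257855645) (nat_lit 0)))
def n297 : Nd := .arc (nat_lit 6) n293 (.arc (nat_lit 52) n282 (.arc (nat_lit 55) n285 (.arc (nat_lit 58) n286 (.fin (nat_lit 257863837) (nat_lit 0)))))
def n298 : Nd := .arc (nat_lit 9) n288 (.fin (nat_lit 863400089) (nat_lit 0))
def n299 : Nd := .arc (nat_lit 3) n297 (.arc (nat_lit 9) n298 (.fin (nat_lit 255742107) (nat_lit 0)))
def n300 : Nd := .arc (nat_lit 3) n292 (.arc (nat_lit 6) n296 (.arc (nat_lit 9) n299 (.fin (nat_lit 862851223) (nat_lit 0))))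
def n301 : Nd := .arc (nat_lit 6) n291 (.arc (nat_lit 9) n289 (.fin (nat_lit 862859415) (nat_lit 0)))
def n302 : Nd := .arc (nat_lit 38) n287 (.arc (nat_lit 41) n287 (.arc (nat_lit 44) n287 (.arc (nat_lit 47) n287 (.fin (nat_lit 862908567) (nat_lit 0)))))
def n303 : Nd := .arc (nat_lit 9) n302 (.fin (nat_lit 257847453) (nat_lit 0))
def n304 : Nd := .arc (nat_lit 6) n288 (.fin (nat_lit 862892183) (nat_lit 0))
def n305 : Nd := .arc (nat_lit 3) n303 (.arc (nat_lit 6) n304 (.fin (nat_lit 255758491) (nat_lit 0)))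
def n306 : Nd := .arc (nat_lit 6) n302 (.fin (nat_lit 255766683) (nat_lit 0))
def n307 : Nd := .arc (nat_lit 9) n290 (.fin (nat_lit 862875799) (nat_lit 0))
def n308 : Nd := .arc (nat_lit 3) n306 (.arc (nat_lit 9) n307 (.fin (nat_lit 257839261) (nat_lit 0)))
def n309 : Nd := .arc (nat_lit 3) n301 (.arc (nat_lit 6) n305 (.arc (nat_lit 9) n308 (.fin (nat_lit 863375513) (nat_lit 0))))
def n310 : Nd := .arc (nat_lit 3) n302 (.fin (nat_lit 863424665) (nat_lit 0))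
def n311 : Nd := .arc (nat_lit 3) n293 (.arc (nat_lit 40) n282 (.arc (nat_lit 43) n285 (.arc (nat_lit 46) n286 (.fin (nat_lit 862900375) (nat_lit 0)))))
def n312 : Nd := .arc (nat_lit 6) n310 (.arc (nat_lit 9) n311 (.fin (nat_lit 257831069) (nat_lit 0)))
def n313 : Nd := .arc (nat_lit 3) n298 (.arc (nat_lit 6) n297 (.fin (nat_lit 862883991) (nat_lit 0)))
def n314 : Nd := .arc (nat_lit 3) n304 (.arc (nat_lit 9) n303 (.fin (nat_lit 863391897) (nat_lit 0)))
def n315 : Nd := .arc (nat_lit 3) n312 (.arc (nat_lit 6) n313 (.arc (nat_lit 9) n314 (.fin (nat_lit 255725723) (nat_lit 0))))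
def n316 : Nd := .arc (nat_lit 6) n311 (.arc (nat_lit 9) n310 (.fin (nat_lit 255733915) (nat_lit 0)))
def n317 : Nd := .arc (nat_lit 3) n307 (.arc (nat_lit 6) n306 (.fin (nat_lit 863408281) (nat_lit 0)))
def n318 : Nd := .arc (nat_lit 3) n295 (.arc (nat_lit 9) n294 (.fin (nat_lit 862867607) (nat_lit 0)))
def n319 : Nd := .arc (nat_lit 3) n316 (.arc (nat_lit 6) n317 (.arc (nat_lit 9) n318 (.fin (nat_lit 257822877) (nat_lit 0))))
def n320 : Nd := .arc (nat_lit 50) n12 (.arc (nat_lit 53) n21 (.arc (nat_lit 56) n31 (.arc (nat_lit 59) n27 (.fin (nat_lit 1012854933) (nat_lit 0)))))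
def n321 : Nd := .arc (nat_lit 3) n320 (.fin (nat_lit 1010749589) (nat_lit 0))
def n322 : Nd := .arc (nat_lit 62) n12 (.arc (nat_lit 65) n21 (.arc (nat_lit 68) n27 (.arc (nat_lit 71) n31 (.fin (nat_lit 1010757781) (nat_lit 0)))))
def n323 : Nd := .arc (nat_lit 3) n322 (.fin (nat_lit 1012846741) (nat_lit 0))
def n324 : Nd := .arc (nat_lit 6) n321 (.arc (nat_lit 9) n323 (.fin (nat_lit 1014378645) (nat_lit 0)))
def n325 : Nd := .arc (nat_lit 26) n12 (.arc (nat_lit 29) n21 (.arc (nat_lit 32) n27 (.arc (nat_lit 35) n31 (.fin (nat_lit 1014427797) (nat_lit 0)))))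
def n326 : Nd := .arc (nat_lit 9) n325 (.arc (nat_lit 64) n4 (.arc (nat_lit 67) n11 (.arc (nat_lit 70) n8 (.fin (nat_lit 1010725013) (nat_lit 0)))))
def n327 : Nd := .arc (nat_lit 6) n322 (.fin (nat_lit 1014411413) (nat_lit 0))
def n328 : Nd := .arc (nat_lit 3) n326 (.arc (nat_lit 6) n327 (.fin (nat_lit 1012830357) (nat_lit 0)))
def n329 : Nd := .arc (nat_lit 6) n325 (.arc (nat_lit 52) n4 (.arc (nat_lit 55) n8 (.arc (nat_lit 58) n11 (.fin (nat_lit 1012838549) (nat_lit 0)))))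
def n330 : Nd := .arc (nat_lit 9) n320 (.fin (nat_lit 1014395029) (nat_lit 0))
def n331 : Nd := .arc (nat_lit 3) n329 (.arc (nat_lit 9) n330 (.fin (nat_lit 1010716821) (nat_lit 0)))
def n332 : Nd := .arc (nat_lit 3) n324 (.arc (nat_lit 6) n328 (.arc (nat_lit 9) n331 (.fin (nat_lit 1013846165) (nat_lit 0))))
def n333 : Nd := .arc (nat_lit 6) n323 (.arc (nat_lit 9) n321 (.fin (nat_lit 1013854357) (nat_lit 0)))
def n334 : Nd := .arc (nat_lit 38) n12 (.arc (nat_lit 41) n21 (.arc (nat_lit 44) n31 (.arc (nat_lit 47) n27 (.fin (nat_lit 1013903509) (nat_lit 0)))))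
def n335 : Nd := .arc (nat_lit 9) n334 (.fin (nat_lit 1012822165) (nat_lit 0))
def n336 : Nd := .arc (nat_lit 6) n320 (.fin (nat_lit 1013887125) (nat_lit 0))
def n337 : Nd := .arc (nat_lit 3) n335 (.arc (nat_lit 6) n336 (.fin (nat_lit 1010733205) (nat_lit 0)))
def n338 : Nd := .arc (nat_lit 6) n334 (.fin (nat_lit 1010741397) (nat_lit 0))
def n339 : Nd := .arc (nat_lit 9) n322 (.fin (nat_lit 1013870741) (nat_lit 0))
def n340 : Nd := .arc (nat_lit 3) n338 (.arc (nat_lit 9) n339 (.fin (nat_lit 1012813973) (nat_lit 0)))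
def n341 : Nd := .arc (nat_lit 3) n333 (.arc (nat_lit 6) n337 (.arc (nat_lit 9) n340 (.fin (nat_lit 1014370453) (nat_lit 0))))
def n342 : Nd := .arc (nat_lit 3) n325 (.arc (nat_lit 40) n4 (.arc (nat_lit 43) n8 (.arc (nat_lit 46) n11 (.fin (nat_lit 1013895317) (nat_lit 0)))))
def n343 : Nd := .arc (nat_lit 3) n334 (.fin (nat_lit 1014419605) (nat_lit 0))
def n344 : Nd := .arc (nat_lit 6) n342 (.arc (nat_lit 9) n343 (.fin (nat_lit 1010708629) (nat_lit 0)))
def n345 : Nd := .arc (nat_lit 3) n339 (.arc (nat_lit 6) n338 (.fin (nat_lit 1014403221) (nat_lit 0)))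
def n346 : Nd := .arc (nat_lit 3) n327 (.arc (nat_lit 9) n326 (.fin (nat_lit 1013862549) (nat_lit 0)))
def n347 : Nd := .arc (nat_lit 3) n344 (.arc (nat_lit 6) n345 (.arc (nat_lit 9) n346 (.fin (nat_lit 1012797589) (nat_lit 0))))
def n348 : Nd := .arc (nat_lit 6) n343 (.arc (nat_lit 9) n342 (.fin (nat_lit 1012805781) (nat_lit 0)))
def n349 : Nd := .arc (nat_lit 3) n330 (.arc (nat_lit 6) n329 (.fin (nat_lit 1013878933) (nat_lit 0)))
def n350 : Nd := .arc (nat_lit 3) n336 (.arc (nat_lit 9) n335 (.fin (nat_lit 1014386837) (nat_lit 0)))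
def n351 : Nd := .arc (nat_lit 3) n348 (.arc (nat_lit 6) n349 (.arc (nat_lit 9) n350 (.fin (nat_lit 1010700437) (nat_lit 0))))
def n352 : Nd := .arc (nat_lit 14) n300 (.arc (nat_lit 17) n309 (.arc (nat_lit 20) n315 (.arc (nat_lit 23) n319 (.arc (nat_lit 38) n332 (.arc (nat_lit 41) n341 (.arc (nat_lit 44) n347 (.arc (nat_lit 47) n351 (.fin (nat_lit 862646423) (nat_lit 0)))))))))
def n353 : Nd := .arc (nat_lit 3) n352 (.fin (nat_lit 863162521) (nat_lit 0))
def n354 : Nd := .arc (nat_lit 14) n309 (.arc (nat_lit 17) n300 (.arc (nat_lit 20) n319 (.arc (nat_lit 23) n315 (.arc (nat_lit 26) n332 (.arc (nat_lit 29) n341 (.arc (nat_lit 32) n351 (.arc (nat_lit 35) n347 (.fin (nat_lit 863170713) (nat_lit 0)))))))))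
def n355 : Nd := .arc (nat_lit 3) n354 (.arc (nat_lit 40) n324 (.arc (nat_lit 43) n328 (.arc (nat_lit 46) n331 (.fin (nat_lit 862638231) (nat_lit 0)))))
def n356 : Nd := .arc (nat_lit 6) n353 (.arc (nat_lit 9) n355 (.fin (nat_lit 257568925) (nat_lit 0)))
def n357 : Nd := .arc (nat_lit 14) n315 (.arc (nat_lit 17) n319 (.arc (nat_lit 20) n309 (.arc (nat_lit 23) n300 (.arc (nat_lit 50) n332 (.arc (nat_lit 53) n341 (.arc (nat_lit 56) n347 (.arc (nat_lit 59) n351 (.fin (nat_lit 257618077) (nat_lit 0)))))))))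
def n358 : Nd := .arc (nat_lit 9) n357 (.fin (nat_lit 863137945) (nat_lit 0))
def n359 : Nd := .arc (nat_lit 6) n354 (.arc (nat_lit 52) n324 (.arc (nat_lit 55) n328 (.arc (nat_lit 58) n331 (.fin (nat_lit 257601693) (nat_lit 0)))))
def n360 : Nd := .arc (nat_lit 3) n358 (.arc (nat_lit 6) n359 (.fin (nat_lit 862621847) (nat_lit 0)))
def n361 : Nd := .arc (nat_lit 6) n357 (.fin (nat_lit 862630039) (nat_lit 0))
def n362 : Nd := .arc (nat_lit 9) n352 (.fin (nat_lit 257585309) (nat_lit 0))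
def n363 : Nd := .arc (nat_lit 3) n361 (.arc (nat_lit 9) n362 (.fin (nat_lit 863129753) (nat_lit 0)))
def n364 : Nd := .arc (nat_lit 3) n356 (.arc (nat_lit 6) n360 (.arc (nat_lit 9) n363 (.fin (nat_lit 255463579) (nat_lit 0))))
def n365 : Nd := .arc (nat_lit 6) n355 (.arc (nat_lit 9) n353 (.fin (nat_lit 255471771) (nat_lit 0)))
def n366 : Nd := .arc (nat_lit 14) n319 (.arc (nat_lit 17) n315 (.arc (nat_lit 20) n300 (.arc (nat_lit 23) n309 (.arc (nat_lit 62) n332 (.arc (nat_lit 65) n341 (.arc (nat_lit 68) n351 (.arc (nat_lit 71) n347 (.fin (nat_lit 255520923) (nat_lit 0)))))))))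
def n367 : Nd := .arc (nat_lit 9) n366 (.fin (nat_lit 862613655) (nat_lit 0))
def n368 : Nd := .arc (nat_lit 6) n352 (.fin (nat_lit 255504539) (nat_lit 0))
def n369 : Nd := .arc (nat_lit 3) n367 (.arc (nat_lit 6) n368 (.fin (nat_lit 863146137) (nat_lit 0)))
def n370 : Nd := .arc (nat_lit 6) n366 (.fin (nat_lit 863154329) (nat_lit 0))
def n371 : Nd := .arc (nat_lit 9) n354 (.arc (nat_lit 64) n324 (.arc (nat_lit 67) n331 (.arc (nat_lit 70) n328 (.fin (nat_lit 255488155) (nat_lit 0)))))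
def n372 : Nd := .arc (nat_lit 3) n370 (.arc (nat_lit 9) n371 (.fin (nat_lit 862605463) (nat_lit 0)))
def n373 : Nd := .arc (nat_lit 3) n365 (.arc (nat_lit 6) n369 (.arc (nat_lit 9) n372 (.fin (nat_lit 257560733) (nat_lit 0))))
def n374 : Nd := .arc (nat_lit 3) n357 (.fin (nat_lit 255512731) (nat_lit 0))
def n375 : Nd := .arc (nat_lit 3) n366 (.fin (nat_lit 257609885) (nat_lit 0))
def n376 : Nd := .arc (nat_lit 6) n374 (.arc (nat_lit 9) n375 (.fin (nat_lit 863121561) (nat_lit 0)))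
def n377 : Nd := .arc (nat_lit 3) n371 (.arc (nat_lit 6) n370 (.fin (nat_lit 257593501) (nat_lit 0)))
def n378 : Nd := .arc (nat_lit 3) n359 (.arc (nat_lit 9) n358 (.fin (nat_lit 255479963) (nat_lit 0)))
def n379 : Nd := .arc (nat_lit 3) n376 (.arc (nat_lit 6) n377 (.arc (nat_lit 9) n378 (.fin (nat_lit 862589079) (nat_lit 0))))
def n380 : Nd := .arc (nat_lit 6) n375 (.arc (nat_lit 9) n374 (.fin (nat_lit 862597271) (nat_lit 0)))
def n381 : Nd := .arc (nat_lit 3) n362 (.arc (nat_lit 6) n361 (.fin (nat_lit 255496347) (nat_lit 0)))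
def n382 : Nd := .arc (nat_lit 3) n368 (.arc (nat_lit 9) n367 (.fin (nat_lit 257577117) (nat_lit 0)))
def n383 : Nd := .arc (nat_lit 3) n380 (.arc (nat_lit 6) n381 (.arc (nat_lit 9) n382 (.fin (nat_lit 863113369) (nat_lit 0))))
def n384 : Nd := .arc (nat_lit 38) n274 (.arc (nat_lit 41) n274 (.arc (nat_lit 44) n279 (.arc (nat_lit 47) n279 (.arc (nat_lit 50) n364 (.arc (nat_lit 53) n373 (.arc (nat_lit 56) n379 (.arc (nat_lit 59) n383 (.arc (nat_lit 62) n373 (.arc (nat_lit 65) n364 (.arc (nat_lit 68) n379 (.arc (nat_lit 71) n383 (.fin (nat_lit 856617111) (nat_lit 0)))))))))))))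
def n385 : Nd := .arc (nat_lit 3) n384 (.fin (nat_lit 857133209) (nat_lit 0))
def n386 : Nd := .arc (nat_lit 26) n274 (.arc (nat_lit 29) n274 (.arc (nat_lit 32) n279 (.arc (nat_lit 35) n279 (.arc (nat_lit 50) n373 (.arc (nat_lit 53) n364 (.arc (nat_lit 56) n383 (.arc (nat_lit 59) n379 (.arc (nat_lit 62) n364 (.arc (nat_lit 65) n373 (.arc (nat_lit 68) n383 (.arc (nat_lit 71) n379 (.fin (nat_lit 857141401) (nat_lit 0)))))))))))))
def n387 : Nd := .arc (nat_lit 3) n386 (.arc (nat_lit 40) n266 (.arc (nat_lit 43) n270 (.arc (nat_lit 46) n273 (.fin (nat_lit 856608919) (nat_lit 0)))))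
def n388 : Nd := .arc (nat_lit 6) n385 (.arc (nat_lit 9) n387 (.fin (nat_lit 256258205) (nat_lit 0)))
def n389 : Nd := .arc (nat_lit 26) n364 (.arc (nat_lit 29) n373 (.arc (nat_lit 32) n383 (.arc (nat_lit 35) n379 (.arc (nat_lit 38) n373 (.arc (nat_lit 41) n364 (.arc (nat_lit 44) n383 (.arc (nat_lit 47) n379 (.arc (nat_lit 50) n274 (.arc (nat_lit 53) n274 (.arc (nat_lit 56) n279 (.arc (nat_lit 59) n279 (.fin (nat_lit 256307357) (nat_lit 0)))))))))))))
def n390 : Nd := .arc (nat_lit 9) n389 (.arc (nat_lit 64) n356 (.arc (nat_lit 67) n363 (.arc (nat_lit 70) n360 (.fin (nat_lit 857108633) (nat_lit 0)))))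
def n391 : Nd := .arc (nat_lit 6) n386 (.arc (nat_lit 52) n266 (.arc (nat_lit 55) n270 (.arc (nat_lit 58) n273 (.fin (nat_lit 256290973) (nat_lit 0)))))
def n392 : Nd := .arc (nat_lit 3) n390 (.arc (nat_lit 6) n391 (.fin (nat_lit 856592535) (nat_lit 0)))
def n393 : Nd := .arc (nat_lit 6) n389 (.arc (nat_lit 52) n356 (.arc (nat_lit 55) n360 (.arc (nat_lit 58) n363 (.fin (nat_lit 856600727) (nat_lit 0)))))
def n394 : Nd := .arc (nat_lit 9) n384 (.fin (nat_lit 256274589) (nat_lit 0))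
def n395 : Nd := .arc (nat_lit 3) n393 (.arc (nat_lit 9) n394 (.fin (nat_lit 857100441) (nat_lit 0)))
def n396 : Nd := .arc (nat_lit 3) n388 (.arc (nat_lit 6) n392 (.arc (nat_lit 9) n395 (.fin (nat_lit 254152859) (nat_lit 0))))
def n397 : Nd := .arc (nat_lit 6) n387 (.arc (nat_lit 9) n385 (.fin (nat_lit 254161051) (nat_lit 0)))
def n398 : Nd := .arc (nat_lit 26) n373 (.arc (nat_lit 29) n364 (.arc (nat_lit 32) n379 (.arc (nat_lit 35) n383 (.arc (nat_lit 38) n364 (.arc (nat_lit 41) n373 (.arc (nat_lit 44) n379 (.arc (nat_lit 47) n383 (.arc (nat_lit 62) n274 (.arc (nat_lit 65) n274 (.arc (nat_lit 68) n279 (.arc (nat_lit 71) n279 (.fin (nat_lit 254210203) (nat_lit 0)))))))))))))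
def n399 : Nd := .arc (nat_lit 9) n398 (.arc (nat_lit 64) n365 (.arc (nat_lit 67) n372 (.arc (nat_lit 70) n369 (.fin (nat_lit 856584343) (nat_lit 0)))))
def n400 : Nd := .arc (nat_lit 6) n384 (.fin (nat_lit 254193819) (nat_lit 0))
def n401 : Nd := .arc (nat_lit 3) n399 (.arc (nat_lit 6) n400 (.fin (nat_lit 857116825) (nat_lit 0)))
def n402 : Nd := .arc (nat_lit 6) n398 (.arc (nat_lit 52) n365 (.arc (nat_lit 55) n369 (.arc (nat_lit 58) n372 (.fin (nat_lit 857125017) (nat_lit 0)))))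
def n403 : Nd := .arc (nat_lit 9) n386 (.arc (nat_lit 64) n266 (.arc (nat_lit 67) n273 (.arc (nat_lit 70) n270 (.fin (nat_lit 254177435) (nat_lit 0)))))
def n404 : Nd := .arc (nat_lit 3) n402 (.arc (nat_lit 9) n403 (.fin (nat_lit 856576151) (nat_lit 0)))
def n405 : Nd := .arc (nat_lit 3) n397 (.arc (nat_lit 6) n401 (.arc (nat_lit 9) n404 (.fin (nat_lit 256250013) (nat_lit 0))))
def n406 : Nd := .arc (nat_lit 3) n398 (.arc (nat_lit 40) n365 (.arc (nat_lit 43) n369 (.arc (nat_lit 46) n372 (.fin (nat_lit 256299165) (nat_lit 0)))))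
def n407 : Nd := .arc (nat_lit 3) n389 (.arc (nat_lit 40) n356 (.arc (nat_lit 43) n360 (.arc (nat_lit 46) n363 (.fin (nat_lit 254202011) (nat_lit 0)))))
def n408 : Nd := .arc (nat_lit 6) n406 (.arc (nat_lit 9) n407 (.fin (nat_lit 856567959) (nat_lit 0)))
def n409 : Nd := .arc (nat_lit 3) n394 (.arc (nat_lit 6) n393 (.fin (nat_lit 254185627) (nat_lit 0)))
def n410 : Nd := .arc (nat_lit 3) n400 (.arc (nat_lit 9) n399 (.fin (nat_lit 256266397) (nat_lit 0)))
def n411 : Nd := .arc (nat_lit 3) n408 (.arc (nat_lit 6) n409 (.arc (nat_lit 9) n410 (.fin (nat_lit 857084057) (nat_lit 0))))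
def n412 : Nd := .arc (nat_lit 6) n407 (.arc (nat_lit 9) n406 (.fin (nat_lit 857092249) (nat_lit 0)))
def n413 : Nd := .arc (nat_lit 3) n403 (.arc (nat_lit 6) n402 (.fin (nat_lit 256282781) (nat_lit 0)))
def n414 : Nd := .arc (nat_lit 3) n391 (.arc (nat_lit 9) n390 (.fin (nat_lit 254169243) (nat_lit 0)))
def n415 : Nd := .arc (nat_lit 3) n412 (.arc (nat_lit 6) n413 (.arc (nat_lit 9) n414 (.fin (nat_lit 856559767) (nat_lit 0))))
def n416 : Nd := .arc (nat_lit 38) n319 (.arc (nat_lit 41) n315 (.arc (nat_lit 44) n309 (.arc (nat_lit 47) n300 (.arc (nat_lit 50) n351 (.arc (nat_lit 53) n347 (.arc (nat_lit 56) n332 (.arc (nat_lit 59) n341 (.fin (nat_lit 256831645) (nat_lit 0)))))))))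
def n417 : Nd := .arc (nat_lit 3) n416 (.fin (nat_lit 255250587) (nat_lit 0))
def n418 : Nd := .arc (nat_lit 26) n319 (.arc (nat_lit 29) n315 (.arc (nat_lit 32) n300 (.arc (nat_lit 35) n309 (.arc (nat_lit 62) n351 (.arc (nat_lit 65) n347 (.arc (nat_lit 68) n341 (.arc (nat_lit 71) n332 (.fin (nat_lit 255258779) (nat_lit 0)))))))))
def n419 : Nd := .arc (nat_lit 3) n418 (.arc (nat_lit 40) n316 (.arc (nat_lit 43) n317 (.arc (nat_lit 46) n318 (.fin (nat_lit 256823453) (nat_lit 0)))))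
def n420 : Nd := .arc (nat_lit 6) n417 (.arc (nat_lit 9) n419 (.fin (nat_lit 861286553) (nat_lit 0)))
def n421 : Nd := .arc (nat_lit 26) n351 (.arc (nat_lit 29) n347 (.arc (nat_lit 32) n341 (.arc (nat_lit 35) n332 (.arc (nat_lit 50) n319 (.arc (nat_lit 53) n315 (.arc (nat_lit 56) n309 (.arc (nat_lit 59) n300 (.fin (nat_lit 861335705) (nat_lit 0)))))))))
def n422 : Nd := .arc (nat_lit 9) n421 (.arc (nat_lit 64) n348 (.arc (nat_lit 67) n350 (.arc (nat_lit 70) n349 (.fin (nat_lit 255226011) (nat_lit 0)))))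
def n423 : Nd := .arc (nat_lit 6) n418 (.arc (nat_lit 52) n316 (.arc (nat_lit 55) n317 (.arc (nat_lit 58) n318 (.fin (nat_lit 861319321) (nat_lit 0)))))
def n424 : Nd := .arc (nat_lit 3) n422 (.arc (nat_lit 6) n423 (.fin (nat_lit 256807069) (nat_lit 0)))
def n425 : Nd := .arc (nat_lit 6) n421 (.arc (nat_lit 52) n348 (.arc (nat_lit 55) n349 (.arc (nat_lit 58) n350 (.fin (nat_lit 256815261) (nat_lit 0)))))
def n426 : Nd := .arc (nat_lit 9) n416 (.fin (nat_lit 861302937) (nat_lit 0))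
def n427 : Nd := .arc (nat_lit 3) n425 (.arc (nat_lit 9) n426 (.fin (nat_lit 255217819) (nat_lit 0)))
def n428 : Nd := .arc (nat_lit 3) n420 (.arc (nat_lit 6) n424 (.arc (nat_lit 9) n427 (.fin (nat_lit 858656919) (nat_lit 0))))
def n429 : Nd := .arc (nat_lit 6) n419 (.arc (nat_lit 9) n417 (.fin (nat_lit 858665111) (nat_lit 0)))
def n430 : Nd := .arc (nat_lit 38) n351 (.arc (nat_lit 41) n347 (.arc (nat_lit 44) n332 (.arc (nat_lit 47) n341 (.arc (nat_lit 62) n319 (.arc (nat_lit 65) n315 (.arc (nat_lit 68) n300 (.arc (nat_lit 71) n309 (.fin (nat_lit 858714263) (nat_lit 0)))))))))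
def n431 : Nd := .arc (nat_lit 9) n430 (.fin (nat_lit 256798877) (nat_lit 0))
def n432 : Nd := .arc (nat_lit 6) n416 (.fin (nat_lit 858697879) (nat_lit 0))
def n433 : Nd := .arc (nat_lit 3) n431 (.arc (nat_lit 6) n432 (.fin (nat_lit 255234203) (nat_lit 0)))
def n434 : Nd := .arc (nat_lit 6) n430 (.fin (nat_lit 255242395) (nat_lit 0))
def n435 : Nd := .arc (nat_lit 9) n418 (.arc (nat_lit 64) n316 (.arc (nat_lit 67) n318 (.arc (nat_lit 70) n317 (.fin (nat_lit 858681495) (nat_lit 0)))))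
def n436 : Nd := .arc (nat_lit 3) n434 (.arc (nat_lit 9) n435 (.fin (nat_lit 256790685) (nat_lit 0)))
def n437 : Nd := .arc (nat_lit 3) n429 (.arc (nat_lit 6) n433 (.arc (nat_lit 9) n436 (.fin (nat_lit 861278361) (nat_lit 0))))
def n438 : Nd := .arc (nat_lit 3) n430 (.fin (nat_lit 861327513) (nat_lit 0))
def n439 : Nd := .arc (nat_lit 3) n421 (.arc (nat_lit 40) n348 (.arc (nat_lit 43) n349 (.arc (nat_lit 46) n350 (.fin (nat_lit 858706071) (nat_lit 0)))))
def n440 : Nd := .arc (nat_lit 6) n438 (.arc (nat_lit 9) n439 (.fin (nat_lit 256782493) (nat_lit 0)))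
def n441 : Nd := .arc (nat_lit 3) n426 (.arc (nat_lit 6) n425 (.fin (nat_lit 858689687) (nat_lit 0)))
def n442 : Nd := .arc (nat_lit 3) n432 (.arc (nat_lit 9) n431 (.fin (nat_lit 861294745) (nat_lit 0)))
def n443 : Nd := .arc (nat_lit 3) n440 (.arc (nat_lit 6) n441 (.arc (nat_lit 9) n442 (.fin (nat_lit 255201435) (nat_lit 0))))
def n444 : Nd := .arc (nat_lit 6) n439 (.arc (nat_lit 9) n438 (.fin (nat_lit 255209627) (nat_lit 0)))
def n445 : Nd := .arc (nat_lit 3) n435 (.arc (nat_lit 6) n434 (.fin (nat_lit 861311129) (nat_lit 0)))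
def n446 : Nd := .arc (nat_lit 3) n423 (.arc (nat_lit 9) n422 (.fin (nat_lit 858673303) (nat_lit 0)))
def n447 : Nd := .arc (nat_lit 3) n444 (.arc (nat_lit 6) n445 (.arc (nat_lit 9) n446 (.fin (nat_lit 256774301) (nat_lit 0))))
def n448 : Nd := .arc (nat_lit 26) n108 (.arc (nat_lit 29) n117 (.arc (nat_lit 32) n123 (.arc (nat_lit 35) n127 (.arc (nat_lit 50) n155 (.arc (nat_lit 53) n159 (.arc (nat_lit 56) n149 (.arc (nat_lit 59) n140 (.fin (nat_lit 1012330645) (nat_lit 0)))))))))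
def n449 : Nd := .arc (nat_lit 3) n448 (.arc (nat_lit 40) n100 (.arc (nat_lit 43) n104 (.arc (nat_lit 46) n107 (.fin (nat_lit 1009701013) (nat_lit 0)))))
def n450 : Nd := .arc (nat_lit 38) n108 (.arc (nat_lit 41) n117 (.arc (nat_lit 44) n127 (.arc (nat_lit 47) n123 (.arc (nat_lit 62) n155 (.arc (nat_lit 65) n159 (.arc (nat_lit 68) n140 (.arc (nat_lit 71) n149 (.fin (nat_lit 1009709205) (nat_lit 0)))))))))
def n451 : Nd := .arc (nat_lit 3) n450 (.fin (nat_lit 1012322453) (nat_lit 0))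
def n452 : Nd := .arc (nat_lit 6) n449 (.arc (nat_lit 9) n451 (.fin (nat_lit 1010184341) (nat_lit 0)))
def n453 : Nd := .arc (nat_lit 26) n155 (.arc (nat_lit 29) n159 (.arc (nat_lit 32) n140 (.arc (nat_lit 35) n149 (.arc (nat_lit 62) n108 (.arc (nat_lit 65) n117 (.arc (nat_lit 68) n123 (.arc (nat_lit 71) n127 (.fin (nat_lit 1010233493) (nat_lit 0)))))))))
def n454 : Nd := .arc (nat_lit 9) n453 (.arc (nat_lit 64) n152 (.arc (nat_lit 67) n154 (.arc (nat_lit 70) n153 (.fin (nat_lit 1009676437) (nat_lit 0)))))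
def n455 : Nd := .arc (nat_lit 6) n450 (.fin (nat_lit 1010217109) (nat_lit 0))
def n456 : Nd := .arc (nat_lit 3) n454 (.arc (nat_lit 6) n455 (.fin (nat_lit 1012306069) (nat_lit 0)))
def n457 : Nd := .arc (nat_lit 6) n453 (.arc (nat_lit 52) n152 (.arc (nat_lit 55) n153 (.arc (nat_lit 58) n154 (.fin (nat_lit 1012314261) (nat_lit 0)))))
def n458 : Nd := .arc (nat_lit 9) n448 (.arc (nat_lit 64) n100 (.arc (nat_lit 67) n107 (.arc (nat_lit 70) n104 (.fin (nat_lit 1010200725) (nat_lit 0)))))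
def n459 : Nd := .arc (nat_lit 3) n457 (.arc (nat_lit 9) n458 (.fin (nat_lit 1009668245) (nat_lit 0)))
def n460 : Nd := .arc (nat_lit 3) n452 (.arc (nat_lit 6) n456 (.arc (nat_lit 9) n459 (.fin (nat_lit 1011749013) (nat_lit 0))))
def n461 : Nd := .arc (nat_lit 6) n451 (.arc (nat_lit 9) n449 (.fin (nat_lit 1011757205) (nat_lit 0)))
def n462 : Nd := .arc (nat_lit 38) n155 (.arc (nat_lit 41) n159 (.arc (nat_lit 44) n149 (.arc (nat_lit 47) n140 (.arc (nat_lit 50) n108 (.arc (nat_lit 53) n117 (.arc (nat_lit 56) n127 (.arc (nat_lit 59) n123 (.fin (nat_lit 1011806357) (nat_lit 0)))))))))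
def n463 : Nd := .arc (nat_lit 9) n462 (.fin (nat_lit 1012297877) (nat_lit 0))
def n464 : Nd := .arc (nat_lit 6) n448 (.arc (nat_lit 52) n100 (.arc (nat_lit 55) n104 (.arc (nat_lit 58) n107 (.fin (nat_lit 1011789973) (nat_lit 0)))))
def n465 : Nd := .arc (nat_lit 3) n463 (.arc (nat_lit 6) n464 (.fin (nat_lit 1009684629) (nat_lit 0)))
def n466 : Nd := .arc (nat_lit 6) n462 (.fin (nat_lit 1009692821) (nat_lit 0))
def n467 : Nd := .arc (nat_lit 9) n450 (.fin (nat_lit 1011773589) (nat_lit 0))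
def n468 : Nd := .arc (nat_lit 3) n466 (.arc (nat_lit 9) n467 (.fin (nat_lit 1012289685) (nat_lit 0)))
def n469 : Nd := .arc (nat_lit 3) n461 (.arc (nat_lit 6) n465 (.arc (nat_lit 9) n468 (.fin (nat_lit 1010176149) (nat_lit 0))))
def n470 : Nd := .arc (nat_lit 3) n453 (.arc (nat_lit 40) n152 (.arc (nat_lit 43) n153 (.arc (nat_lit 46) n154 (.fin (nat_lit 1011798165) (nat_lit 0)))))
def n471 : Nd := .arc (nat_lit 3) n462 (.fin (nat_lit 1010225301) (nat_lit 0))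
def n472 : Nd := .arc (nat_lit 6) n470 (.arc (nat_lit 9) n471 (.fin (nat_lit 1009660053) (nat_lit 0)))
def n473 : Nd := .arc (nat_lit 3) n467 (.arc (nat_lit 6) n466 (.fin (nat_lit 1010208917) (nat_lit 0)))
def n474 : Nd := .arc (nat_lit 3) n455 (.arc (nat_lit 9) n454 (.fin (nat_lit 1011765397) (nat_lit 0)))
def n475 : Nd := .arc (nat_lit 3) n472 (.arc (nat_lit 6) n473 (.arc (nat_lit 9) n474 (.fin (nat_lit 1012273301) (nat_lit 0))))
def n476 : Nd := .arc (nat_lit 6) n471 (.arc (nat_lit 9) n470 (.fin (nat_lit 1012281493) (nat_lit 0)))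
def n477 : Nd := .arc (nat_lit 3) n458 (.arc (nat_lit 6) n457 (.fin (nat_lit 1011781781) (nat_lit 0)))
def n478 : Nd := .arc (nat_lit 3) n464 (.arc (nat_lit 9) n463 (.fin (nat_lit 1010192533) (nat_lit 0)))
def n479 : Nd := .arc (nat_lit 3) n476 (.arc (nat_lit 6) n477 (.arc (nat_lit 9) n478 (.fin (nat_lit 1009651861) (nat_lit 0))))
def n480 : Nd := .arc (nat_lit 38) n347 (.arc (nat_lit 41) n351 (.arc (nat_lit 44) n341 (.arc (nat_lit 47) n332 (.arc (nat_lit 50) n315 (.arc (nat_lit 53) n319 (.arc (nat_lit 56) n300 (.arc (nat_lit 59) n309 (.fin (nat_lit 860811415) (nat_lit 0)))))))))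
def n481 : Nd := .arc (nat_lit 3) n480 (.fin (nat_lit 859230361) (nat_lit 0))
def n482 : Nd := .arc (nat_lit 26) n347 (.arc (nat_lit 29) n351 (.arc (nat_lit 32) n332 (.arc (nat_lit 35) n341 (.arc (nat_lit 62) n315 (.arc (nat_lit 65) n319 (.arc (nat_lit 68) n309 (.arc (nat_lit 71) n300 (.fin (nat_lit 859238553) (nat_lit 0)))))))))
def n483 : Nd := .arc (nat_lit 3) n482 (.arc (nat_lit 40) n344 (.arc (nat_lit 43) n345 (.arc (nat_lit 46) n346 (.fin (nat_lit 860803223) (nat_lit 0)))))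
def n484 : Nd := .arc (nat_lit 6) n481 (.arc (nat_lit 9) n483 (.fin (nat_lit 257306781) (nat_lit 0)))
def n485 : Nd := .arc (nat_lit 26) n315 (.arc (nat_lit 29) n319 (.arc (nat_lit 32) n309 (.arc (nat_lit 35) n300 (.arc (nat_lit 50) n347 (.arc (nat_lit 53) n351 (.arc (nat_lit 56) n341 (.arc (nat_lit 59) n332 (.fin (nat_lit 257355933) (nat_lit 0)))))))))
def n486 : Nd := .arc (nat_lit 9) n485 (.arc (nat_lit 64) n312 (.arc (nat_lit 67) n314 (.arc (nat_lit 70) n313 (.fin (nat_lit 859205785) (nat_lit 0)))))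
def n487 : Nd := .arc (nat_lit 6) n482 (.arc (nat_lit 52) n344 (.arc (nat_lit 55) n345 (.arc (nat_lit 58) n346 (.fin (nat_lit 257339549) (nat_lit 0)))))
def n488 : Nd := .arc (nat_lit 3) n486 (.arc (nat_lit 6) n487 (.fin (nat_lit 860786839) (nat_lit 0)))
def n489 : Nd := .arc (nat_lit 6) n485 (.arc (nat_lit 52) n312 (.arc (nat_lit 55) n313 (.arc (nat_lit 58) n314 (.fin (nat_lit 860795031) (nat_lit 0)))))
def n490 : Nd := .arc (nat_lit 9) n480 (.fin (nat_lit 257323165) (nat_lit 0))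
def n491 : Nd := .arc (nat_lit 3) n489 (.arc (nat_lit 9) n490 (.fin (nat_lit 859197593) (nat_lit 0)))
def n492 : Nd := .arc (nat_lit 3) n484 (.arc (nat_lit 6) n488 (.arc (nat_lit 9) n491 (.fin (nat_lit 254677147) (nat_lit 0))))
def n493 : Nd := .arc (nat_lit 6) n483 (.arc (nat_lit 9) n481 (.fin (nat_lit 254685339) (nat_lit 0)))
def n494 : Nd := .arc (nat_lit 38) n315 (.arc (nat_lit 41) n319 (.arc (nat_lit 44) n300 (.arc (nat_lit 47) n309 (.arc (nat_lit 62) n347 (.arc (nat_lit 65) n351 (.arc (nat_lit 68) n332 (.arc (nat_lit 71) n341 (.fin (nat_lit 254734491) (nat_lit 0)))))))))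
def n495 : Nd := .arc (nat_lit 9) n494 (.fin (nat_lit 860778647) (nat_lit 0))
def n496 : Nd := .arc (nat_lit 6) n480 (.fin (nat_lit 254718107) (nat_lit 0))
def n497 : Nd := .arc (nat_lit 3) n495 (.arc (nat_lit 6) n496 (.fin (nat_lit 859213977) (nat_lit 0)))
def n498 : Nd := .arc (nat_lit 6) n494 (.fin (nat_lit 859222169) (nat_lit 0))
def n499 : Nd := .arc (nat_lit 9) n482 (.arc (nat_lit 64) n344 (.arc (nat_lit 67) n346 (.arc (nat_lit 70) n345 (.fin (nat_lit 254701723) (nat_lit 0)))))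
def n500 : Nd := .arc (nat_lit 3) n498 (.arc (nat_lit 9) n499 (.fin (nat_lit 860770455) (nat_lit 0)))
def n501 : Nd := .arc (nat_lit 3) n493 (.arc (nat_lit 6) n497 (.arc (nat_lit 9) n500 (.fin (nat_lit 257298589) (nat_lit 0))))
def n502 : Nd := .arc (nat_lit 3) n485 (.arc (nat_lit 40) n312 (.arc (nat_lit 43) n313 (.arc (nat_lit 46) n314 (.fin (nat_lit 254726299) (nat_lit 0)))))
def n503 : Nd := .arc (nat_lit 3) n494 (.fin (nat_lit 257347741) (nat_lit 0))
def n504 : Nd := .arc (nat_lit 6) n502 (.arc (nat_lit 9) n503 (.fin (nat_lit 859189401) (nat_lit 0)))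
def n505 : Nd := .arc (nat_lit 3) n499 (.arc (nat_lit 6) n498 (.fin (nat_lit 257331357) (nat_lit 0)))
def n506 : Nd := .arc (nat_lit 3) n487 (.arc (nat_lit 9) n486 (.fin (nat_lit 254693531) (nat_lit 0)))
def n507 : Nd := .arc (nat_lit 3) n504 (.arc (nat_lit 6) n505 (.arc (nat_lit 9) n506 (.fin (nat_lit 860754071) (nat_lit 0))))
def n508 : Nd := .arc (nat_lit 6) n503 (.arc (nat_lit 9) n502 (.fin (nat_lit 860762263) (nat_lit 0)))
def n509 : Nd := .arc (nat_lit 3) n490 (.arc (nat_lit 6) n489 (.fin (nat_lit 254709915) (nat_lit 0)))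
def n510 : Nd := .arc (nat_lit 3) n496 (.arc (nat_lit 9) n495 (.fin (nat_lit 257314973) (nat_lit 0)))
def n511 : Nd := .arc (nat_lit 3) n508 (.arc (nat_lit 6) n509 (.arc (nat_lit 9) n510 (.fin (nat_lit 859181209) (nat_lit 0))))
def n512 : Nd := .arc (nat_lit 14) n428 (.arc (nat_lit 17) n437 (.arc (nat_lit 20) n443 (.arc (nat_lit 23) n447 (.arc (nat_lit 38) n460 (.arc (nat_lit 41) n469 (.arc (nat_lit 44) n475 (.arc (nat_lit 47) n479 (.arc (nat_lit 50) n492 (.arc (nat_lit 53) n501 (.arc (nat_lit 56) n507 (.arc (nat_lit 59) n511 (.fin (nat_lit 860549271) (nat_lit 0)))))))))))))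
def n513 : Nd := .arc (nat_lit 3) n512 (.fin (nat_lit 858968217) (nat_lit 0))
def n514 : Nd := .arc (nat_lit 14) n437 (.arc (nat_lit 17) n428 (.arc (nat_lit 20) n447 (.arc (nat_lit 23) n443 (.arc (nat_lit 26) n460 (.arc (nat_lit 29) n469 (.arc (nat_lit 32) n479 (.arc (nat_lit 35) n475 (.arc (nat_lit 62) n492 (.arc (nat_lit 65) n501 (.arc (nat_lit 68) n511 (.arc (nat_lit 71) n507 (.fin (nat_lit 858976409) (nat_lit 0)))))))))))))
def n515 : Nd := .arc (nat_lit 3) n514 (.arc (nat_lit 40) n452 (.arc (nat_lit 43) n456 (.arc (nat_lit 46) n459 (.fin (nat_lit 860541079) (nat_lit 0)))))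
def n516 : Nd := .arc (nat_lit 6) n513 (.arc (nat_lit 9) n515 (.fin (nat_lit 257044637) (nat_lit 0)))
def n517 : Nd := .arc (nat_lit 14) n443 (.arc (nat_lit 17) n447 (.arc (nat_lit 20) n437 (.arc (nat_lit 23) n428 (.arc (nat_lit 26) n492 (.arc (nat_lit 29) n501 (.arc (nat_lit 32) n511 (.arc (nat_lit 35) n507 (.arc (nat_lit 50) n460 (.arc (nat_lit 53) n469 (.arc (nat_lit 56) n475 (.arc (nat_lit 59) n479 (.fin (nat_lit 257093789) (nat_lit 0)))))))))))))
def n518 : Nd := .arc (nat_lit 9) n517 (.arc (nat_lit 64) n484 (.arc (nat_lit 67) n491 (.arc (nat_lit 70) n488 (.fin (nat_lit 858943641) (nat_lit 0)))))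
def n519 : Nd := .arc (nat_lit 6) n514 (.arc (nat_lit 52) n452 (.arc (nat_lit 55) n456 (.arc (nat_lit 58) n459 (.fin (nat_lit 257077405) (nat_lit 0)))))
def n520 : Nd := .arc (nat_lit 3) n518 (.arc (nat_lit 6) n519 (.fin (nat_lit 860524695) (nat_lit 0)))
def n521 : Nd := .arc (nat_lit 6) n517 (.arc (nat_lit 52) n484 (.arc (nat_lit 55) n488 (.arc (nat_lit 58) n491 (.fin (nat_lit 860532887) (nat_lit 0)))))
def n522 : Nd := .arc (nat_lit 9) n512 (.fin (nat_lit 257061021) (nat_lit 0))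
def n523 : Nd := .arc (nat_lit 3) n521 (.arc (nat_lit 9) n522 (.fin (nat_lit 858935449) (nat_lit 0)))
def n524 : Nd := .arc (nat_lit 3) n516 (.arc (nat_lit 6) n520 (.arc (nat_lit 9) n523 (.fin (nat_lit 254415003) (nat_lit 0))))
def n525 : Nd := .arc (nat_lit 6) n515 (.arc (nat_lit 9) n513 (.fin (nat_lit 254423195) (nat_lit 0)))
def n526 : Nd := .arc (nat_lit 14) n447 (.arc (nat_lit 17) n443 (.arc (nat_lit 20) n428 (.arc (nat_lit 23) n437 (.arc (nat_lit 38) n492 (.arc (nat_lit 41) n501 (.arc (nat_lit 44) n507 (.arc (nat_lit 47) n511 (.arc (nat_lit 62) n460 (.arc (nat_lit 65) n469 (.arc (nat_lit 68) n479 (.arc (nat_lit 71) n475 (.fin (nat_lit 254472347) (nat_lit 0)))))))))))))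
def n527 : Nd := .arc (nat_lit 9) n526 (.fin (nat_lit 860516503) (nat_lit 0))
def n528 : Nd := .arc (nat_lit 6) n512 (.fin (nat_lit 254455963) (nat_lit 0))
def n529 : Nd := .arc (nat_lit 3) n527 (.arc (nat_lit 6) n528 (.fin (nat_lit 858951833) (nat_lit 0)))
def n530 : Nd := .arc (nat_lit 6) n526 (.fin (nat_lit 858960025) (nat_lit 0))
def n531 : Nd := .arc (nat_lit 9) n514 (.arc (nat_lit 64) n452 (.arc (nat_lit 67) n459 (.arc (nat_lit 70) n456 (.fin (nat_lit 254439579) (nat_lit 0)))))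
def n532 : Nd := .arc (nat_lit 3) n530 (.arc (nat_lit 9) n531 (.fin (nat_lit 860508311) (nat_lit 0)))
def n533 : Nd := .arc (nat_lit 3) n525 (.arc (nat_lit 6) n529 (.arc (nat_lit 9) n532 (.fin (nat_lit 257036445) (nat_lit 0))))
def n534 : Nd := .arc (nat_lit 3) n526 (.fin (nat_lit 257085597) (nat_lit 0))
def n535 : Nd := .arc (nat_lit 3) n517 (.arc (nat_lit 40) n484 (.arc (nat_lit 43) n488 (.arc (nat_lit 46) n491 (.fin (nat_lit 254464155) (nat_lit 0)))))
def n536 : Nd := .arc (nat_lit 6) n534 (.arc (nat_lit 9) n535 (.fin (nat_lit 860500119) (nat_lit 0)))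
def n537 : Nd := .arc (nat_lit 3) n522 (.arc (nat_lit 6) n521 (.fin (nat_lit 254447771) (nat_lit 0)))
def n538 : Nd := .arc (nat_lit 3) n528 (.arc (nat_lit 9) n527 (.fin (nat_lit 257052829) (nat_lit 0)))
def n539 : Nd := .arc (nat_lit 3) n536 (.arc (nat_lit 6) n537 (.arc (nat_lit 9) n538 (.fin (nat_lit 858919065) (nat_lit 0))))
def n540 : Nd := .arc (nat_lit 6) n535 (.arc (nat_lit 9) n534 (.fin (nat_lit 858927257) (nat_lit 0)))
def n541 : Nd := .arc (nat_lit 3) n531 (.arc (nat_lit 6) n530 (.fin (nat_lit 257069213) (nat_lit 0)))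
def n542 : Nd := .arc (nat_lit 3) n519 (.arc (nat_lit 9) n518 (.fin (nat_lit 254431387) (nat_lit 0)))
def n543 : Nd := .arc (nat_lit 3) n540 (.arc (nat_lit 6) n541 (.arc (nat_lit 9) n542 (.fin (nat_lit 860491927) (nat_lit 0))))
def n544 : Nd := .arc (nat_lit 14) n511 (.arc (nat_lit 17) n507 (.arc (nat_lit 20) n501 (.arc (nat_lit 23) n492 (.arc (nat_lit 26) n479 (.arc (nat_lit 29) n475 (.arc (nat_lit 32) n469 (.arc (nat_lit 35) n460 (.arc (nat_lit 50) n447 (.arc (nat_lit 53) n443 (.arc (nat_lit 56) n437 (.arc (nat_lit 59) n428 (.fin (nat_lit 861073561) (nat_lit 0)))))))))))))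
def n545 : Nd := .arc (nat_lit 3) n544 (.arc (nat_lit 40) n476 (.arc (nat_lit 43) n477 (.arc (nat_lit 46) n478 (.fin (nat_lit 858443927) (nat_lit 0)))))
def n546 : Nd := .arc (nat_lit 14) n507 (.arc (nat_lit 17) n511 (.arc (nat_lit 20) n492 (.arc (nat_lit 23) n501 (.arc (nat_lit 38) n479 (.arc (nat_lit 41) n475 (.arc (nat_lit 44) n460 (.arc (nat_lit 47) n469 (.arc (nat_lit 62) n447 (.arc (nat_lit 65) n443 (.arc (nat_lit 68) n428 (.arc (nat_lit 71) n437 (.fin (nat_lit 858452119) (nat_lit 0)))))))))))))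
def n547 : Nd := .arc (nat_lit 3) n546 (.fin (nat_lit 861065369) (nat_lit 0))
def n548 : Nd := .arc (nat_lit 6) n545 (.arc (nat_lit 9) n547 (.fin (nat_lit 254947483) (nat_lit 0)))
def n549 : Nd := .arc (nat_lit 14) n501 (.arc (nat_lit 17) n492 (.arc (nat_lit 20) n507 (.arc (nat_lit 23) n511 (.arc (nat_lit 26) n447 (.arc (nat_lit 29) n443 (.arc (nat_lit 32) n428 (.arc (nat_lit 35) n437 (.arc (nat_lit 62) n479 (.arc (nat_lit 65) n475 (.arc (nat_lit 68) n469 (.arc (nat_lit 71) n460 (.fin (nat_lit 254996635) (nat_lit 0)))))))))))))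
def n550 : Nd := .arc (nat_lit 9) n549 (.arc (nat_lit 64) n444 (.arc (nat_lit 67) n446 (.arc (nat_lit 70) n445 (.fin (nat_lit 858419351) (nat_lit 0)))))
def n551 : Nd := .arc (nat_lit 6) n546 (.fin (nat_lit 254980251) (nat_lit 0))
def n552 : Nd := .arc (nat_lit 3) n550 (.arc (nat_lit 6) n551 (.fin (nat_lit 861048985) (nat_lit 0)))
def n553 : Nd := .arc (nat_lit 6) n549 (.arc (nat_lit 52) n444 (.arc (nat_lit 55) n445 (.arc (nat_lit 58) n446 (.fin (nat_lit 861057177) (nat_lit 0)))))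
def n554 : Nd := .arc (nat_lit 9) n544 (.arc (nat_lit 64) n476 (.arc (nat_lit 67) n478 (.arc (nat_lit 70) n477 (.fin (nat_lit 254963867) (nat_lit 0)))))
def n555 : Nd := .arc (nat_lit 3) n553 (.arc (nat_lit 9) n554 (.fin (nat_lit 858411159) (nat_lit 0)))
def n556 : Nd := .arc (nat_lit 3) n548 (.arc (nat_lit 6) n552 (.arc (nat_lit 9) n555 (.fin (nat_lit 256512157) (nat_lit 0))))
def n557 : Nd := .arc (nat_lit 6) n547 (.arc (nat_lit 9) n545 (.fin (nat_lit 256520349) (nat_lit 0)))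
def n558 : Nd := .arc (nat_lit 14) n492 (.arc (nat_lit 17) n501 (.arc (nat_lit 20) n511 (.arc (nat_lit 23) n507 (.arc (nat_lit 38) n447 (.arc (nat_lit 41) n443 (.arc (nat_lit 44) n437 (.arc (nat_lit 47) n428 (.arc (nat_lit 50) n479 (.arc (nat_lit 53) n475 (.arc (nat_lit 56) n460 (.arc (nat_lit 59) n469 (.fin (nat_lit 256569501) (nat_lit 0)))))))))))))
def n559 : Nd := .arc (nat_lit 9) n558 (.fin (nat_lit 861040793) (nat_lit 0))
def n560 : Nd := .arc (nat_lit 6) n544 (.arc (nat_lit 52) n476 (.arc (nat_lit 55) n477 (.arc (nat_lit 58) n478 (.fin (nat_lit 256553117) (nat_lit 0)))))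
def n561 : Nd := .arc (nat_lit 3) n559 (.arc (nat_lit 6) n560 (.fin (nat_lit 858427543) (nat_lit 0)))
def n562 : Nd := .arc (nat_lit 6) n558 (.fin (nat_lit 858435735) (nat_lit 0))
def n563 : Nd := .arc (nat_lit 9) n546 (.fin (nat_lit 256536733) (nat_lit 0))
def n564 : Nd := .arc (nat_lit 3) n562 (.arc (nat_lit 9) n563 (.fin (nat_lit 861032601) (nat_lit 0)))
def n565 : Nd := .arc (nat_lit 3) n557 (.arc (nat_lit 6) n561 (.arc (nat_lit 9) n564 (.fin (nat_lit 254939291) (nat_lit 0))))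
def n566 : Nd := .arc (nat_lit 3) n549 (.arc (nat_lit 40) n444 (.arc (nat_lit 43) n445 (.arc (nat_lit 46) n446 (.fin (nat_lit 256561309) (nat_lit 0)))))
def n567 : Nd := .arc (nat_lit 3) n558 (.fin (nat_lit 254988443) (nat_lit 0))
def n568 : Nd := .arc (nat_lit 6) n566 (.arc (nat_lit 9) n567 (.fin (nat_lit 858402967) (nat_lit 0)))
def n569 : Nd := .arc (nat_lit 3) n563 (.arc (nat_lit 6) n562 (.fin (nat_lit 254972059) (nat_lit 0)))
def n570 : Nd := .arc (nat_lit 3) n551 (.arc (nat_lit 9) n550 (.fin (nat_lit 256528541) (nat_lit 0)))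
def n571 : Nd := .arc (nat_lit 3) n568 (.arc (nat_lit 6) n569 (.arc (nat_lit 9) n570 (.fin (nat_lit 861016217) (nat_lit 0))))
def n572 : Nd := .arc (nat_lit 6) n567 (.arc (nat_lit 9) n566 (.fin (nat_lit 861024409) (nat_lit 0)))
def n573 : Nd := .arc (nat_lit 3) n554 (.arc (nat_lit 6) n553 (.fin (nat_lit 256544925) (nat_lit 0)))
def n574 : Nd := .arc (nat_lit 3) n560 (.arc (nat_lit 9) n559 (.fin (nat_lit 254955675) (nat_lit 0)))
def n575 : Nd := .arc (nat_lit 3) n572 (.arc (nat_lit 6) n573 (.arc (nat_lit 9) n574 (.fin (nat_lit 858394775) (nat_lit 0))))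
def n576 : Nd := .arc (nat_lit 26) n223 (.arc (nat_lit 29) n219 (.arc (nat_lit 32) n213 (.arc (nat_lit 35) n204 (.arc (nat_lit 38) n191 (.arc (nat_lit 41) n187 (.arc (nat_lit 44) n181 (.arc (nat_lit 47) n172 (.arc (nat_lit 50) n95 (.arc (nat_lit 53) n91 (.arc (nat_lit 56) n85 (.arc (nat_lit 59) n76 (.fin (nat_lit 1011282069) (nat_lit 0)))))))))))))
def n577 : Nd := .arc (nat_lit 3) n576 (.arc (nat_lit 40) n220 (.arc (nat_lit 43) n221 (.arc (nat_lit 46) n222 (.fin (nat_lit 1009176725) (nat_lit 0)))))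
def n578 : Nd := .arc (nat_lit 26) n191 (.arc (nat_lit 29) n187 (.arc (nat_lit 32) n172 (.arc (nat_lit 35) n181 (.arc (nat_lit 38) n223 (.arc (nat_lit 41) n219 (.arc (nat_lit 44) n204 (.arc (nat_lit 47) n213 (.arc (nat_lit 62) n95 (.arc (nat_lit 65) n91 (.arc (nat_lit 68) n76 (.arc (nat_lit 71) n85 (.fin (nat_lit 1009184917) (nat_lit 0)))))))))))))
def n579 : Nd := .arc (nat_lit 3) n578 (.arc (nat_lit 40) n188 (.arc (nat_lit 43) n189 (.arc (nat_lit 46) n190 (.fin (nat_lit 1011273877) (nat_lit 0)))))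
def n580 : Nd := .arc (nat_lit 6) n577 (.arc (nat_lit 9) n579 (.fin (nat_lit 1008087189) (nat_lit 0)))
def n581 : Nd := .arc (nat_lit 26) n95 (.arc (nat_lit 29) n91 (.arc (nat_lit 32) n76 (.arc (nat_lit 35) n85 (.arc (nat_lit 50) n191 (.arc (nat_lit 53) n187 (.arc (nat_lit 56) n181 (.arc (nat_lit 59) n172 (.arc (nat_lit 62) n223 (.arc (nat_lit 65) n219 (.arc (nat_lit 68) n213 (.arc (nat_lit 71) n204 (.fin (nat_lit 1008136341) (nat_lit 0)))))))))))))
def n582 : Nd := .arc (nat_lit 9) n581 (.arc (nat_lit 64) n92 (.arc (nat_lit 67) n94 (.arc (nat_lit 70) n93 (.fin (nat_lit 1009152149) (nat_lit 0)))))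
def n583 : Nd := .arc (nat_lit 6) n578 (.arc (nat_lit 52) n188 (.arc (nat_lit 55) n189 (.arc (nat_lit 58) n190 (.fin (nat_lit 1008119957) (nat_lit 0)))))
def n584 : Nd := .arc (nat_lit 3) n582 (.arc (nat_lit 6) n583 (.fin (nat_lit 1011257493) (nat_lit 0)))
def n585 : Nd := .arc (nat_lit 6) n581 (.arc (nat_lit 52) n92 (.arc (nat_lit 55) n93 (.arc (nat_lit 58) n94 (.fin (nat_lit 1011265685) (nat_lit 0)))))
def n586 : Nd := .arc (nat_lit 9) n576 (.arc (nat_lit 64) n220 (.arc (nat_lit 67) n222 (.arc (nat_lit 70) n221 (.fin (nat_lit 1008103573) (nat_lit 0)))))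
def n587 : Nd := .arc (nat_lit 3) n585 (.arc (nat_lit 9) n586 (.fin (nat_lit 1009143957) (nat_lit 0)))
def n588 : Nd := .arc (nat_lit 3) n580 (.arc (nat_lit 6) n584 (.arc (nat_lit 9) n587 (.fin (nat_lit 1007554709) (nat_lit 0))))
def n589 : Nd := .arc (nat_lit 6) n579 (.arc (nat_lit 9) n577 (.fin (nat_lit 1007562901) (nat_lit 0)))
def n590 : Nd := .arc (nat_lit 38) n95 (.arc (nat_lit 41) n91 (.arc (nat_lit 44) n85 (.arc (nat_lit 47) n76 (.arc (nat_lit 50) n223 (.arc (nat_lit 53) n219 (.arc (nat_lit 56) n204 (.arc (nat_lit 59) n213 (.arc (nat_lit 62) n191 (.arc (nat_lit 65) n187 (.arc (nat_lit 68) n172 (.arc (nat_lit 71) n181 (.fin (nat_lit 1007612053) (nat_lit 0)))))))))))))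
def n591 : Nd := .arc (nat_lit 9) n590 (.fin (nat_lit 1011249301) (nat_lit 0))
def n592 : Nd := .arc (nat_lit 6) n576 (.arc (nat_lit 52) n220 (.arc (nat_lit 55) n221 (.arc (nat_lit 58) n222 (.fin (nat_lit 1007595669) (nat_lit 0)))))
def n593 : Nd := .arc (nat_lit 3) n591 (.arc (nat_lit 6) n592 (.fin (nat_lit 1009160341) (nat_lit 0)))
def n594 : Nd := .arc (nat_lit 6) n590 (.fin (nat_lit 1009168533) (nat_lit 0))
def n595 : Nd := .arc (nat_lit 9) n578 (.arc (nat_lit 64) n188 (.arc (nat_lit 67) n190 (.arc (nat_lit 70) n189 (.fin (nat_lit 1007579285) (nat_lit 0)))))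
def n596 : Nd := .arc (nat_lit 3) n594 (.arc (nat_lit 9) n595 (.fin (nat_lit 1011241109) (nat_lit 0)))
def n597 : Nd := .arc (nat_lit 3) n589 (.arc (nat_lit 6) n593 (.arc (nat_lit 9) n596 (.fin (nat_lit 1008078997) (nat_lit 0))))
def n598 : Nd := .arc (nat_lit 3) n581 (.arc (nat_lit 40) n92 (.arc (nat_lit 43) n93 (.arc (nat_lit 46) n94 (.fin (nat_lit 1007603861) (nat_lit 0)))))
def n599 : Nd := .arc (nat_lit 3) n590 (.fin (nat_lit 1008128149) (nat_lit 0))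
def n600 : Nd := .arc (nat_lit 6) n598 (.arc (nat_lit 9) n599 (.fin (nat_lit 1009135765) (nat_lit 0)))
def n601 : Nd := .arc (nat_lit 3) n595 (.arc (nat_lit 6) n594 (.fin (nat_lit 1008111765) (nat_lit 0)))
def n602 : Nd := .arc (nat_lit 3) n583 (.arc (nat_lit 9) n582 (.fin (nat_lit 1007571093) (nat_lit 0)))
def n603 : Nd := .arc (nat_lit 3) n600 (.arc (nat_lit 6) n601 (.arc (nat_lit 9) n602 (.fin (nat_lit 1011224725) (nat_lit 0))))
def n604 : Nd := .arc (nat_lit 6) n599 (.arc (nat_lit 9) n598 (.fin (nat_lit 1011232917) (nat_lit 0)))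
def n605 : Nd := .arc (nat_lit 3) n586 (.arc (nat_lit 6) n585 (.fin (nat_lit 1007587477) (nat_lit 0)))
def n606 : Nd := .arc (nat_lit 3) n592 (.arc (nat_lit 9) n591 (.fin (nat_lit 1008095381) (nat_lit 0)))
def n607 : Nd := .arc (nat_lit 3) n604 (.arc (nat_lit 6) n605 (.arc (nat_lit 9) n606 (.fin (nat_lit 1009127573) (nat_lit 0))))
def n608 : Nd := .arc (nat_lit 14) n396 (.arc (nat_lit 17) n405 (.arc (nat_lit 20) n411 (.arc (nat_lit 23) n415 (.arc (nat_lit 26) n524 (.arc (nat_lit 29) n533 (.arc (nat_lit 32) n539 (.arc (nat_lit 35) n543 (.arc (nat_lit 38) n556 (.arc (nat_lit 41) n565 (.arc (nat_lit 44) n571 (.arc (nat_lit 47) n575 (.arc (nat_lit 50) n588 (.arc (nat_lit 53) n597 (.arc (nat_lit 56) n603 (.arc (nat_lit 59) n607 (.fin (nat_lit 256045213) (nat_lit 0)))))))))))))))))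
def n609 : Nd := .arc (nat_lit 3) n608 (.arc (nat_lit 40) n516 (.arc (nat_lit 43) n520 (.arc (nat_lit 46) n523 (.fin (nat_lit 253939867) (nat_lit 0)))))
def n610 : Nd := .arc (nat_lit 14) n405 (.arc (nat_lit 17) n396 (.arc (nat_lit 20) n415 (.arc (nat_lit 23) n411 (.arc (nat_lit 26) n556 (.arc (nat_lit 29) n565 (.arc (nat_lit 32) n575 (.arc (nat_lit 35) n571 (.arc (nat_lit 38) n524 (.arc (nat_lit 41) n533 (.arc (nat_lit 44) n543 (.arc (nat_lit 47) n539 (.arc (nat_lit 62) n588 (.arc (nat_lit 65) n597 (.arc (nat_lit 68) n607 (.arc (nat_lit 71) n603 (.fin (nat_lit 253948059) (nat_lit 0)))))))))))))))))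
def n611 : Nd := .arc (nat_lit 3) n610 (.arc (nat_lit 40) n548 (.arc (nat_lit 43) n552 (.arc (nat_lit 46) n555 (.fin (nat_lit 256037021) (nat_lit 0)))))
def n612 : Nd := .arc (nat_lit 6) n609 (.arc (nat_lit 9) n611 (.fin (nat_lit 856830105) (nat_lit 0)))
def n613 : Nd := .arc (nat_lit 14) n411 (.arc (nat_lit 17) n415 (.arc (nat_lit 20) n405 (.arc (nat_lit 23) n396 (.arc (nat_lit 26) n588 (.arc (nat_lit 29) n597 (.arc (nat_lit 32) n607 (.arc (nat_lit 35) n603 (.arc (nat_lit 50) n556 (.arc (nat_lit 53) n565 (.arc (nat_lit 56) n571 (.arc (nat_lit 59) n575 (.arc (nat_lit 62) n524 (.arc (nat_lit 65) n533 (.arc (nat_lit 68) n539 (.arc (nat_lit 71) n543 (.fin (nat_lit 856879257) (nat_lit 0)))))))))))))))))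
def n614 : Nd := .arc (nat_lit 9) n613 (.arc (nat_lit 64) n580 (.arc (nat_lit 67) n587 (.arc (nat_lit 70) n584 (.fin (nat_lit 253915291) (nat_lit 0)))))
def n615 : Nd := .arc (nat_lit 6) n610 (.arc (nat_lit 52) n548 (.arc (nat_lit 55) n552 (.arc (nat_lit 58) n555 (.fin (nat_lit 856862873) (nat_lit 0)))))
def n616 : Nd := .arc (nat_lit 3) n614 (.arc (nat_lit 6) n615 (.fin (nat_lit 256020637) (nat_lit 0)))
def n617 : Nd := .arc (nat_lit 6) n613 (.arc (nat_lit 52) n580 (.arc (nat_lit 55) n584 (.arc (nat_lit 58) n587 (.fin (nat_lit 256028829) (nat_lit 0)))))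
def n618 : Nd := .arc (nat_lit 9) n608 (.arc (nat_lit 64) n516 (.arc (nat_lit 67) n523 (.arc (nat_lit 70) n520 (.fin (nat_lit 856846489) (nat_lit 0)))))
def n619 : Nd := .arc (nat_lit 3) n617 (.arc (nat_lit 9) n618 (.fin (nat_lit 253907099) (nat_lit 0)))
def n620 : Nd := .arc (nat_lit 3) n612 (.arc (nat_lit 6) n616 (.arc (nat_lit 9) n619 (.fin (nat_lit 856297623) (nat_lit 0))))
def n621 : Nd := .arc (nat_lit 6) n611 (.arc (nat_lit 9) n609 (.fin (nat_lit 856305815) (nat_lit 0)))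
def n622 : Nd := .arc (nat_lit 14) n415 (.arc (nat_lit 17) n411 (.arc (nat_lit 20) n396 (.arc (nat_lit 23) n405 (.arc (nat_lit 38) n588 (.arc (nat_lit 41) n597 (.arc (nat_lit 44) n603 (.arc (nat_lit 47) n607 (.arc (nat_lit 50) n524 (.arc (nat_lit 53) n533 (.arc (nat_lit 56) n543 (.arc (nat_lit 59) n539 (.arc (nat_lit 62) n556 (.arc (nat_lit 65) n565 (.arc (nat_lit 68) n575 (.arc (nat_lit 71) n571 (.fin (nat_lit 856354967) (nat_lit 0)))))))))))))))))
def n623 : Nd := .arc (nat_lit 9) n622 (.fin (nat_lit 256012445) (nat_lit 0))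
def n624 : Nd := .arc (nat_lit 6) n608 (.arc (nat_lit 52) n516 (.arc (nat_lit 55) n520 (.arc (nat_lit 58) n523 (.fin (nat_lit 856338583) (nat_lit 0)))))
def n625 : Nd := .arc (nat_lit 3) n623 (.arc (nat_lit 6) n624 (.fin (nat_lit 253923483) (nat_lit 0)))
def n626 : Nd := .arc (nat_lit 6) n622 (.fin (nat_lit 253931675) (nat_lit 0))
def n627 : Nd := .arc (nat_lit 9) n610 (.arc (nat_lit 64) n548 (.arc (nat_lit 67) n555 (.arc (nat_lit 70) n552 (.fin (nat_lit 856322199) (nat_lit 0)))))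
def n628 : Nd := .arc (nat_lit 3) n626 (.arc (nat_lit 9) n627 (.fin (nat_lit 256004253) (nat_lit 0)))
def n629 : Nd := .arc (nat_lit 3) n621 (.arc (nat_lit 6) n625 (.arc (nat_lit 9) n628 (.fin (nat_lit 856821913) (nat_lit 0))))
def n630 : Nd := .arc (nat_lit 3) n622 (.fin (nat_lit 856871065) (nat_lit 0))
def n631 : Nd := .arc (nat_lit 3) n613 (.arc (nat_lit 40) n580 (.arc (nat_lit 43) n584 (.arc (nat_lit 46) n587 (.fin (nat_lit 856346775) (nat_lit 0)))))
def n632 : Nd := .arc (nat_lit 6) n630 (.arc (nat_lit 9) n631 (.fin (nat_lit 255996061) (nat_lit 0)))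
def n633 : Nd := .arc (nat_lit 3) n618 (.arc (nat_lit 6) n617 (.fin (nat_lit 856330391) (nat_lit 0)))
def n634 : Nd := .arc (nat_lit 3) n624 (.arc (nat_lit 9) n623 (.fin (nat_lit 856838297) (nat_lit 0)))
def n635 : Nd := .arc (nat_lit 3) n632 (.arc (nat_lit 6) n633 (.arc (nat_lit 9) n634 (.fin (nat_lit 253890715) (nat_lit 0))))
def n636 : Nd := .arc (nat_lit 6) n631 (.arc (nat_lit 9) n630 (.fin (nat_lit 253898907) (nat_lit 0)))
def n637 : Nd := .arc (nat_lit 3) n627 (.arc (nat_lit 6) n626 (.fin (nat_lit 856854681) (nat_lit 0)))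
def n638 : Nd := .arc (nat_lit 3) n615 (.arc (nat_lit 9) n614 (.fin (nat_lit 856314007) (nat_lit 0)))
def n639 : Nd := .arc (nat_lit 3) n636 (.arc (nat_lit 6) n637 (.arc (nat_lit 9) n638 (.fin (nat_lit 255987869) (nat_lit 0))))
def n640 : Nd := .arc (nat_lit 14) n263 (.arc (nat_lit 17) n263 (.arc (nat_lit 20) n263 (.arc (nat_lit 23) n263 (.arc (nat_lit 26) n620 (.arc (nat_lit 29) n629 (.arc (nat_lit 32) n635 (.arc (nat_lit 35) n639 (.arc (nat_lit 38) n620 (.arc (nat_lit 41) n629 (.arc (nat_lit 44) n639 (.arc (nat_lit 47) n635 (.arc (nat_lit 50) n620 (.arc (nat_lit 53) n629 (.arc (nat_lit 56) n639 (.arc (nat_lit 59) n635 (.arc (nat_lit 62) n620 (.arc (nat_lit 65) n629 (.arc (nat_lit 68) n635 (.arc (nat_lit 71) n639 (.fin (nat_lit 1006825491) (nat_lit 0)))))))))))))))))))))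
def n641 : Nd := .fin (nat_lit 947786003) (nat_lit 1)
def n642 : Nd := .arc (nat_lit 53) n641 (.fin (nat_lit 226422939) (nat_lit 0))
def n643 : Nd := .arc (nat_lit 3) n642 (.fin (nat_lit 226414749) (nat_lit 0))
def n644 : Nd := .arc (nat_lit 65) n641 (.fin (nat_lit 226422941) (nat_lit 0))
def n645 : Nd := .arc (nat_lit 3) n644 (.fin (nat_lit 226414747) (nat_lit 0))
def n646 : Nd := .arc (nat_lit 6) n643 (.arc (nat_lit 9) n645 (.fin (nat_lit 830353559) (nat_lit 0)))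
def n647 : Nd := .arc (nat_lit 29) n641 (.fin (nat_lit 830402711) (nat_lit 0))
def n648 : Nd := .arc (nat_lit 9) n647 (.fin (nat_lit 226390173) (nat_lit 0))
def n649 : Nd := .arc (nat_lit 6) n644 (.fin (nat_lit 830386327) (nat_lit 0))
def n650 : Nd := .arc (nat_lit 3) n648 (.arc (nat_lit 6) n649 (.fin (nat_lit 226398363) (nat_lit 0)))
def n651 : Nd := .arc (nat_lit 6) n647 (.fin (nat_lit 226406555) (nat_lit 0))
def n652 : Nd := .arc (nat_lit 9) n642 (.fin (nat_lit 830369943) (nat_lit 0))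
def n653 : Nd := .arc (nat_lit 3) n651 (.arc (nat_lit 9) n652 (.fin (nat_lit 226381981) (nat_lit 0)))
def n654 : Nd := .arc (nat_lit 3) n646 (.arc (nat_lit 6) n650 (.arc (nat_lit 9) n653 (.fin (nat_lit 830345369) (nat_lit 0))))
def n655 : Nd := .arc (nat_lit 6) n645 (.arc (nat_lit 9) n643 (.fin (nat_lit 830353561) (nat_lit 0)))
def n656 : Nd := .arc (nat_lit 41) n641 (.fin (nat_lit 830402713) (nat_lit 0))
def n657 : Nd := .arc (nat_lit 9) n656 (.fin (nat_lit 226390171) (nat_lit 0))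
def n658 : Nd := .arc (nat_lit 6) n642 (.fin (nat_lit 830386329) (nat_lit 0))
def n659 : Nd := .arc (nat_lit 3) n657 (.arc (nat_lit 6) n658 (.fin (nat_lit 226398365) (nat_lit 0)))
def n660 : Nd := .arc (nat_lit 6) n656 (.fin (nat_lit 226406557) (nat_lit 0))
def n661 : Nd := .arc (nat_lit 9) n644 (.fin (nat_lit 830369945) (nat_lit 0))
def n662 : Nd := .arc (nat_lit 3) n660 (.arc (nat_lit 9) n661 (.fin (nat_lit 226381979) (nat_lit 0)))
def n663 : Nd := .arc (nat_lit 3) n655 (.arc (nat_lit 6) n659 (.arc (nat_lit 9) n662 (.fin (nat_lit 830345367) (nat_lit 0))))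
def n664 : Nd := .arc (nat_lit 3) n656 (.fin (nat_lit 830394519) (nat_lit 0))
def n665 : Nd := .arc (nat_lit 3) n647 (.fin (nat_lit 830394521) (nat_lit 0))
def n666 : Nd := .arc (nat_lit 6) n664 (.arc (nat_lit 9) n665 (.fin (nat_lit 226373787) (nat_lit 0)))
def n667 : Nd := .arc (nat_lit 3) n652 (.arc (nat_lit 6) n651 (.fin (nat_lit 830378137) (nat_lit 0)))
def n668 : Nd := .arc (nat_lit 3) n658 (.arc (nat_lit 9) n657 (.fin (nat_lit 830361751) (nat_lit 0)))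
def n669 : Nd := .arc (nat_lit 3) n666 (.arc (nat_lit 6) n667 (.arc (nat_lit 9) n668 (.fin (nat_lit 226365597) (nat_lit 0))))
def n670 : Nd := .arc (nat_lit 6) n665 (.arc (nat_lit 9) n664 (.fin (nat_lit 226373789) (nat_lit 0)))
def n671 : Nd := .arc (nat_lit 3) n661 (.arc (nat_lit 6) n660 (.fin (nat_lit 830378135) (nat_lit 0)))
def n672 : Nd := .arc (nat_lit 3) n649 (.arc (nat_lit 9) n648 (.fin (nat_lit 830361753) (nat_lit 0)))
def n673 : Nd := .arc (nat_lit 3) n670 (.arc (nat_lit 6) n671 (.arc (nat_lit 9) n672 (.fin (nat_lit 226365595) (nat_lit 0))))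
def n674 : Nd := .arc (nat_lit 14) n654 (.arc (nat_lit 17) n663 (.arc (nat_lit 20) n669 (.arc (nat_lit 23) n673 (.fin (nat_lit 846917785) (nat_lit 0)))))
def n675 : Nd := .arc (nat_lit 3) n674 (.fin (nat_lit 846909591) (nat_lit 0))
def n676 : Nd := .arc (nat_lit 14) n663 (.arc (nat_lit 17) n654 (.arc (nat_lit 20) n673 (.arc (nat_lit 23) n669 (.fin (nat_lit 846917783) (nat_lit 0)))))
def n677 : Nd := .arc (nat_lit 3) n676 (.fin (nat_lit 846909593) (nat_lit 0))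
def n678 : Nd := .arc (nat_lit 6) n675 (.arc (nat_lit 9) n677 (.fin (nat_lit 242888859) (nat_lit 0)))
def n679 : Nd := .arc (nat_lit 14) n669 (.arc (nat_lit 17) n673 (.arc (nat_lit 20) n663 (.arc (nat_lit 23) n654 (.fin (nat_lit 242938011) (nat_lit 0)))))
def n680 : Nd := .arc (nat_lit 9) n679 (.fin (nat_lit 846885015) (nat_lit 0))
def n681 : Nd := .arc (nat_lit 6) n676 (.fin (nat_lit 242921627) (nat_lit 0))
def n682 : Nd := .arc (nat_lit 3) n680 (.arc (nat_lit 6) n681 (.fin (nat_lit 846893209) (nat_lit 0)))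
def n683 : Nd := .arc (nat_lit 6) n679 (.fin (nat_lit 846901401) (nat_lit 0))
def n684 : Nd := .arc (nat_lit 9) n674 (.fin (nat_lit 242905243) (nat_lit 0))
def n685 : Nd := .arc (nat_lit 3) n683 (.arc (nat_lit 9) n684 (.fin (nat_lit 846876823) (nat_lit 0)))
def n686 : Nd := .arc (nat_lit 3) n678 (.arc (nat_lit 6) n682 (.arc (nat_lit 9) n685 (.fin (nat_lit 242880669) (nat_lit 0))))
def n687 : Nd := .arc (nat_lit 6) n677 (.arc (nat_lit 9) n675 (.fin (nat_lit 242888861) (nat_lit 0)))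
def n688 : Nd := .arc (nat_lit 14) n673 (.arc (nat_lit 17) n669 (.arc (nat_lit 20) n654 (.arc (nat_lit 23) n663 (.fin (nat_lit 242938013) (nat_lit 0)))))
def n689 : Nd := .arc (nat_lit 9) n688 (.fin (nat_lit 846885017) (nat_lit 0))
def n690 : Nd := .arc (nat_lit 6) n674 (.fin (nat_lit 242921629) (nat_lit 0))
def n691 : Nd := .arc (nat_lit 3) n689 (.arc (nat_lit 6) n690 (.fin (nat_lit 846893207) (nat_lit 0)))
def n692 : Nd := .arc (nat_lit 6) n688 (.fin (nat_lit 846901399) (nat_lit 0))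
def n693 : Nd := .arc (nat_lit 9) n676 (.fin (nat_lit 242905245) (nat_lit 0))
def n694 : Nd := .arc (nat_lit 3) n692 (.arc (nat_lit 9) n693 (.fin (nat_lit 846876825) (nat_lit 0)))
def n695 : Nd := .arc (nat_lit 3) n687 (.arc (nat_lit 6) n691 (.arc (nat_lit 9) n694 (.fin (nat_lit 242880667) (nat_lit 0))))
def n696 : Nd := .arc (nat_lit 3) n679 (.fin (nat_lit 242929821) (nat_lit 0))
def n697 : Nd := .arc (nat_lit 3) n688 (.fin (nat_lit 242929819) (nat_lit 0))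
def n698 : Nd := .arc (nat_lit 6) n696 (.arc (nat_lit 9) n697 (.fin (nat_lit 846868631) (nat_lit 0)))
def n699 : Nd := .arc (nat_lit 3) n693 (.arc (nat_lit 6) n692 (.fin (nat_lit 242913435) (nat_lit 0)))
def n700 : Nd := .arc (nat_lit 3) n681 (.arc (nat_lit 9) n680 (.fin (nat_lit 242897053) (nat_lit 0)))
def n701 : Nd := .arc (nat_lit 3) n698 (.arc (nat_lit 6) n699 (.arc (nat_lit 9) n700 (.fin (nat_lit 846860441) (nat_lit 0))))
def n702 : Nd := .arc (nat_lit 6) n697 (.arc (nat_lit 9) n696 (.fin (nat_lit 846868633) (nat_lit 0)))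
def n703 : Nd := .arc (nat_lit 3) n684 (.arc (nat_lit 6) n683 (.fin (nat_lit 242913437) (nat_lit 0)))
def n704 : Nd := .arc (nat_lit 3) n690 (.arc (nat_lit 9) n689 (.fin (nat_lit 242897051) (nat_lit 0)))
def n705 : Nd := .arc (nat_lit 3) n702 (.arc (nat_lit 6) n703 (.arc (nat_lit 9) n704 (.fin (nat_lit 846860439) (nat_lit 0))))
def n706 : Nd := .arc (nat_lit 62) n641 (.fin (nat_lit 243200157) (nat_lit 0))
def n707 : Nd := .arc (nat_lit 3) n706 (.fin (nat_lit 243191963) (nat_lit 0))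
def n708 : Nd := .arc (nat_lit 50) n641 (.fin (nat_lit 243200155) (nat_lit 0))
def n709 : Nd := .arc (nat_lit 3) n708 (.fin (nat_lit 243191965) (nat_lit 0))
def n710 : Nd := .arc (nat_lit 6) n707 (.arc (nat_lit 9) n709 (.fin (nat_lit 847130777) (nat_lit 0)))
def n711 : Nd := .arc (nat_lit 38) n641 (.fin (nat_lit 847179929) (nat_lit 0))
def n712 : Nd := .arc (nat_lit 9) n711 (.fin (nat_lit 243167387) (nat_lit 0))
def n713 : Nd := .arc (nat_lit 6) n708 (.fin (nat_lit 847163545) (nat_lit 0))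
def n714 : Nd := .arc (nat_lit 3) n712 (.arc (nat_lit 6) n713 (.fin (nat_lit 243175581) (nat_lit 0)))
def n715 : Nd := .arc (nat_lit 6) n711 (.fin (nat_lit 243183773) (nat_lit 0))
def n716 : Nd := .arc (nat_lit 9) n706 (.fin (nat_lit 847147161) (nat_lit 0))
def n717 : Nd := .arc (nat_lit 3) n715 (.arc (nat_lit 9) n716 (.fin (nat_lit 243159195) (nat_lit 0)))
def n718 : Nd := .arc (nat_lit 3) n710 (.arc (nat_lit 6) n714 (.arc (nat_lit 9) n717 (.fin (nat_lit 847122583) (nat_lit 0))))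
def n719 : Nd := .arc (nat_lit 6) n709 (.arc (nat_lit 9) n707 (.fin (nat_lit 847130775) (nat_lit 0)))
def n720 : Nd := .arc (nat_lit 26) n641 (.fin (nat_lit 847179927) (nat_lit 0))
def n721 : Nd := .arc (nat_lit 9) n720 (.fin (nat_lit 243167389) (nat_lit 2))
def n722 : Nd := .arc (nat_lit 6) n706 (.fin (nat_lit 847163543) (nat_lit 0))
def n723 : Nd := .arc (nat_lit 3) n721 (.arc (nat_lit 6) n722 (.fin (nat_lit 243175579) (nat_lit 0)))
def n724 : Nd := .arc (nat_lit 6) n720 (.fin (nat_lit 243183771) (nat_lit 2))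
def n725 : Nd := .arc (nat_lit 9) n708 (.fin (nat_lit 847147159) (nat_lit 0))
def n726 : Nd := .arc (nat_lit 3) n724 (.arc (nat_lit 9) n725 (.fin (nat_lit 243159197) (nat_lit 0)))
def n727 : Nd := .arc (nat_lit 3) n719 (.arc (nat_lit 6) n723 (.arc (nat_lit 9) n726 (.fin (nat_lit 847122585) (nat_lit 0))))
def n728 : Nd := .arc (nat_lit 3) n720 (.fin (nat_lit 847171737) (nat_lit 2))
def n729 : Nd := .arc (nat_lit 3) n711 (.fin (nat_lit 847171735) (nat_lit 0))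
def n730 : Nd := .arc (nat_lit 6) n728 (.arc (nat_lit 9) n729 (.fin (nat_lit 243151005) (nat_lit 0)))
def n731 : Nd := .arc (nat_lit 3) n716 (.arc (nat_lit 6) n715 (.fin (nat_lit 847155351) (nat_lit 0)))
def n732 : Nd := .arc (nat_lit 3) n722 (.arc (nat_lit 9) n721 (.fin (nat_lit 847138969) (nat_lit 0)))
def n733 : Nd := .arc (nat_lit 3) n730 (.arc (nat_lit 6) n731 (.arc (nat_lit 9) n732 (.fin (nat_lit 243142811) (nat_lit 0))))
def n734 : Nd := .arc (nat_lit 6) n729 (.arc (nat_lit 9) n728 (.fin (nat_lit 243151003) (nat_lit 0)))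
def n735 : Nd := .arc (nat_lit 3) n725 (.arc (nat_lit 6) n724 (.fin (nat_lit 847155353) (nat_lit 0)))
def n736 : Nd := .arc (nat_lit 3) n713 (.arc (nat_lit 9) n712 (.fin (nat_lit 847138967) (nat_lit 0)))
def n737 : Nd := .arc (nat_lit 3) n734 (.arc (nat_lit 6) n735 (.arc (nat_lit 9) n736 (.fin (nat_lit 243142813) (nat_lit 0))))
def n738 : Nd := .arc (nat_lit 14) n718 (.arc (nat_lit 17) n727 (.arc (nat_lit 20) n733 (.arc (nat_lit 23) n737 (.fin (nat_lit 830140567) (nat_lit 0)))))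
def n739 : Nd := .arc (nat_lit 3) n738 (.fin (nat_lit 830132377) (nat_lit 0))
def n740 : Nd := .arc (nat_lit 14) n727 (.arc (nat_lit 17) n718 (.arc (nat_lit 20) n737 (.arc (nat_lit 23) n733 (.fin (nat_lit 830140569) (nat_lit 0)))))
def n741 : Nd := .arc (nat_lit 3) n740 (.fin (nat_lit 830132375) (nat_lit 0))
def n742 : Nd := .arc (nat_lit 6) n739 (.arc (nat_lit 9) n741 (.fin (nat_lit 226111645) (nat_lit 0)))
def n743 : Nd := .arc (nat_lit 14) n733 (.arc (nat_lit 17) n737 (.arc (nat_lit 20) n727 (.arc (nat_lit 23) n718 (.fin (nat_lit 226160797) (nat_lit 0)))))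
def n744 : Nd := .arc (nat_lit 9) n743 (.fin (nat_lit 830107801) (nat_lit 0))
def n745 : Nd := .arc (nat_lit 6) n740 (.fin (nat_lit 226144413) (nat_lit 0))
def n746 : Nd := .arc (nat_lit 3) n744 (.arc (nat_lit 6) n745 (.fin (nat_lit 830115991) (nat_lit 0)))
def n747 : Nd := .arc (nat_lit 6) n743 (.fin (nat_lit 830124183) (nat_lit 0))
def n748 : Nd := .arc (nat_lit 9) n738 (.fin (nat_lit 226128029) (nat_lit 0))
def n749 : Nd := .arc (nat_lit 3) n747 (.arc (nat_lit 9) n748 (.fin (nat_lit 830099609) (nat_lit 0)))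
def n750 : Nd := .arc (nat_lit 3) n742 (.arc (nat_lit 6) n746 (.arc (nat_lit 9) n749 (.fin (nat_lit 226103451) (nat_lit 0))))
def n751 : Nd := .arc (nat_lit 6) n741 (.arc (nat_lit 9) n739 (.fin (nat_lit 226111643) (nat_lit 0)))
def n752 : Nd := .arc (nat_lit 14) n737 (.arc (nat_lit 17) n733 (.arc (nat_lit 20) n718 (.arc (nat_lit 23) n727 (.fin (nat_lit 226160795) (nat_lit 0)))))
def n753 : Nd := .arc (nat_lit 9) n752 (.fin (nat_lit 830107799) (nat_lit 0))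
def n754 : Nd := .arc (nat_lit 6) n738 (.fin (nat_lit 226144411) (nat_lit 0))
def n755 : Nd := .arc (nat_lit 3) n753 (.arc (nat_lit 6) n754 (.fin (nat_lit 830115993) (nat_lit 0)))
def n756 : Nd := .arc (nat_lit 6) n752 (.fin (nat_lit 830124185) (nat_lit 0))
def n757 : Nd := .arc (nat_lit 9) n740 (.fin (nat_lit 226128027) (nat_lit 0))
def n758 : Nd := .arc (nat_lit 3) n756 (.arc (nat_lit 9) n757 (.fin (nat_lit 830099607) (nat_lit 0)))
def n759 : Nd := .arc (nat_lit 3) n751 (.arc (nat_lit 6) n755 (.arc (nat_lit 9) n758 (.fin (nat_lit 226103453) (nat_lit 0))))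
def n760 : Nd := .arc (nat_lit 3) n752 (.fin (nat_lit 226152605) (nat_lit 0))
def n761 : Nd := .arc (nat_lit 3) n743 (.fin (nat_lit 226152603) (nat_lit 0))
def n762 : Nd := .arc (nat_lit 6) n760 (.arc (nat_lit 9) n761 (.fin (nat_lit 830091415) (nat_lit 0)))
def n763 : Nd := .arc (nat_lit 3) n748 (.arc (nat_lit 6) n747 (.fin (nat_lit 226136219) (nat_lit 0)))
def n764 : Nd := .arc (nat_lit 3) n754 (.arc (nat_lit 9) n753 (.fin (nat_lit 226119837) (nat_lit 0)))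
def n765 : Nd := .arc (nat_lit 3) n762 (.arc (nat_lit 6) n763 (.arc (nat_lit 9) n764 (.fin (nat_lit 830083225) (nat_lit 0))))
def n766 : Nd := .arc (nat_lit 6) n761 (.arc (nat_lit 9) n760 (.fin (nat_lit 830091417) (nat_lit 0)))
def n767 : Nd := .arc (nat_lit 3) n757 (.arc (nat_lit 6) n756 (.fin (nat_lit 226136221) (nat_lit 0)))
def n768 : Nd := .arc (nat_lit 3) n745 (.arc (nat_lit 9) n744 (.fin (nat_lit 226119835) (nat_lit 0)))
def n769 : Nd := .arc (nat_lit 3) n766 (.arc (nat_lit 6) n767 (.arc (nat_lit 9) n768 (.fin (nat_lit 830083223) (nat_lit 0))))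
def n770 : Nd := .arc (nat_lit 50) n686 (.arc (nat_lit 53) n695 (.arc (nat_lit 56) n701 (.arc (nat_lit 59) n705 (.arc (nat_lit 62) n750 (.arc (nat_lit 65) n759 (.arc (nat_lit 68) n765 (.arc (nat_lit 71) n769 (.fin (nat_lit 589230233) (nat_lit 0)))))))))
def n771 : Nd := .arc (nat_lit 3) n770 (.fin (nat_lit 320786583) (nat_lit 0))
def n772 : Nd := .arc (nat_lit 50) n750 (.arc (nat_lit 53) n759 (.arc (nat_lit 56) n769 (.arc (nat_lit 59) n765 (.arc (nat_lit 62) n686 (.arc (nat_lit 65) n695 (.arc (nat_lit 68) n705 (.arc (nat_lit 71) n701 (.fin (nat_lit 320794775) (nat_lit 0)))))))))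
def n773 : Nd := .arc (nat_lit 3) n772 (.fin (nat_lit 589222041) (nat_lit 0))
def n774 : Nd := .arc (nat_lit 6) n771 (.arc (nat_lit 9) n773 (.fin (nat_lit 191246491) (nat_lit 0)))
def n775 : Nd := .arc (nat_lit 26) n686 (.arc (nat_lit 29) n695 (.arc (nat_lit 32) n705 (.arc (nat_lit 35) n701 (.arc (nat_lit 38) n750 (.arc (nat_lit 41) n759 (.arc (nat_lit 44) n769 (.arc (nat_lit 47) n765 (.fin (nat_lit 191295643) (nat_lit 0)))))))))
def n776 : Nd := .arc (nat_lit 9) n775 (.arc (nat_lit 64) n678 (.arc (nat_lit 67) n685 (.arc (nat_lit 70) n682 (.fin (nat_lit 320762007) (nat_lit 0)))))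
def n777 : Nd := .arc (nat_lit 6) n772 (.fin (nat_lit 191279259) (nat_lit 0))
def n778 : Nd := .arc (nat_lit 3) n776 (.arc (nat_lit 6) n777 (.fin (nat_lit 589205657) (nat_lit 0)))
def n779 : Nd := .arc (nat_lit 6) n775 (.arc (nat_lit 52) n678 (.arc (nat_lit 55) n682 (.arc (nat_lit 58) n685 (.fin (nat_lit 589213849) (nat_lit 0)))))
def n780 : Nd := .arc (nat_lit 9) n770 (.fin (nat_lit 191262875) (nat_lit 0))
def n781 : Nd := .arc (nat_lit 3) n779 (.arc (nat_lit 9) n780 (.fin (nat_lit 320753815) (nat_lit 0)))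
def n782 : Nd := .arc (nat_lit 3) n774 (.arc (nat_lit 6) n778 (.arc (nat_lit 9) n781 (.fin (nat_lit 124129437) (nat_lit 0))))
def n783 : Nd := .arc (nat_lit 6) n773 (.arc (nat_lit 9) n771 (.fin (nat_lit 124137629) (nat_lit 0)))
def n784 : Nd := .arc (nat_lit 26) n750 (.arc (nat_lit 29) n759 (.arc (nat_lit 32) n765 (.arc (nat_lit 35) n769 (.arc (nat_lit 38) n686 (.arc (nat_lit 41) n695 (.arc (nat_lit 44) n701 (.arc (nat_lit 47) n705 (.fin (nat_lit 124186781) (nat_lit 0)))))))))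
def n785 : Nd := .arc (nat_lit 9) n784 (.arc (nat_lit 64) n742 (.arc (nat_lit 67) n749 (.arc (nat_lit 70) n746 (.fin (nat_lit 589197465) (nat_lit 0)))))
def n786 : Nd := .arc (nat_lit 6) n770 (.fin (nat_lit 124170397) (nat_lit 0))
def n787 : Nd := .arc (nat_lit 3) n785 (.arc (nat_lit 6) n786 (.fin (nat_lit 320770199) (nat_lit 0)))
def n788 : Nd := .arc (nat_lit 6) n784 (.arc (nat_lit 52) n742 (.arc (nat_lit 55) n746 (.arc (nat_lit 58) n749 (.fin (nat_lit 320778391) (nat_lit 0)))))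
def n789 : Nd := .arc (nat_lit 9) n772 (.fin (nat_lit 124154013) (nat_lit 0))
def n790 : Nd := .arc (nat_lit 3) n788 (.arc (nat_lit 9) n789 (.fin (nat_lit 589189273) (nat_lit 0)))
def n791 : Nd := .arc (nat_lit 3) n783 (.arc (nat_lit 6) n787 (.arc (nat_lit 9) n790 (.fin (nat_lit 191238299) (nat_lit 0))))
def n792 : Nd := .arc (nat_lit 3) n784 (.arc (nat_lit 40) n742 (.arc (nat_lit 43) n746 (.arc (nat_lit 46) n749 (.fin (nat_lit 191287451) (nat_lit 0)))))
def n793 : Nd := .arc (nat_lit 3) n775 (.arc (nat_lit 40) n678 (.arc (nat_lit 43) n682 (.arc (nat_lit 46) n685 (.fin (nat_lit 124178589) (nat_lit 0)))))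
def n794 : Nd := .arc (nat_lit 6) n792 (.arc (nat_lit 9) n793 (.fin (nat_lit 589181081) (nat_lit 0)))
def n795 : Nd := .arc (nat_lit 3) n780 (.arc (nat_lit 6) n779 (.fin (nat_lit 124162205) (nat_lit 0)))
def n796 : Nd := .arc (nat_lit 3) n786 (.arc (nat_lit 9) n785 (.fin (nat_lit 191254683) (nat_lit 0)))
def n797 : Nd := .arc (nat_lit 3) n794 (.arc (nat_lit 6) n795 (.arc (nat_lit 9) n796 (.fin (nat_lit 320737431) (nat_lit 0))))
def n798 : Nd := .arc (nat_lit 6) n793 (.arc (nat_lit 9) n792 (.fin (nat_lit 320745623) (nat_lit 0)))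
def n799 : Nd := .arc (nat_lit 3) n789 (.arc (nat_lit 6) n788 (.fin (nat_lit 191271067) (nat_lit 0)))
def n800 : Nd := .arc (nat_lit 3) n777 (.arc (nat_lit 9) n776 (.fin (nat_lit 124145821) (nat_lit 0)))
def n801 : Nd := .arc (nat_lit 3) n798 (.arc (nat_lit 6) n799 (.arc (nat_lit 9) n800 (.fin (nat_lit 589172889) (nat_lit 0))))
def n802 : Nd := .arc (nat_lit 35) n641 (.fin (nat_lit 327086231) (nat_lit 0))
def n803 : Nd := .arc (nat_lit 3) n802 (.fin (nat_lit 595513497) (nat_lit 0))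
def n804 : Nd := .arc (nat_lit 44) n641 (.fin (nat_lit 595521689) (nat_lit 0))
def n805 : Nd := .arc (nat_lit 3) n804 (.fin (nat_lit 327078039) (nat_lit 0))
def n806 : Nd := .arc (nat_lit 6) n803 (.arc (nat_lit 9) n805 (.fin (nat_lit 125710493) (nat_lit 0)))
def n807 : Nd := .arc (nat_lit 71) n641 (.fin (nat_lit 125759645) (nat_lit 0))
def n808 : Nd := .arc (nat_lit 9) n807 (.fin (nat_lit 595488921) (nat_lit 0))
def n809 : Nd := .arc (nat_lit 6) n804 (.fin (nat_lit 125743261) (nat_lit 0))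
def n810 : Nd := .arc (nat_lit 3) n808 (.arc (nat_lit 6) n809 (.fin (nat_lit 327061655) (nat_lit 0)))
def n811 : Nd := .arc (nat_lit 6) n807 (.fin (nat_lit 327069847) (nat_lit 0))
def n812 : Nd := .arc (nat_lit 9) n802 (.fin (nat_lit 125726877) (nat_lit 0))
def n813 : Nd := .arc (nat_lit 3) n811 (.arc (nat_lit 9) n812 (.fin (nat_lit 595480729) (nat_lit 0)))
def n814 : Nd := .arc (nat_lit 3) n806 (.arc (nat_lit 6) n810 (.arc (nat_lit 9) n813 (.fin (nat_lit 192811163) (nat_lit 0))))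
def n815 : Nd := .arc (nat_lit 6) n805 (.arc (nat_lit 9) n803 (.fin (nat_lit 192819355) (nat_lit 0)))
def n816 : Nd := .arc (nat_lit 56) n641 (.fin (nat_lit 192868507) (nat_lit 0))
def n817 : Nd := .arc (nat_lit 9) n816 (.fin (nat_lit 327053463) (nat_lit 0))
def n818 : Nd := .arc (nat_lit 6) n802 (.fin (nat_lit 192852123) (nat_lit 0))
def n819 : Nd := .arc (nat_lit 3) n817 (.arc (nat_lit 6) n818 (.fin (nat_lit 595497113) (nat_lit 0)))
def n820 : Nd := .arc (nat_lit 6) n816 (.fin (nat_lit 595505305) (nat_lit 0))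
def n821 : Nd := .arc (nat_lit 9) n804 (.fin (nat_lit 192835739) (nat_lit 0))
def n822 : Nd := .arc (nat_lit 3) n820 (.arc (nat_lit 9) n821 (.fin (nat_lit 327045271) (nat_lit 0)))
def n823 : Nd := .arc (nat_lit 3) n815 (.arc (nat_lit 6) n819 (.arc (nat_lit 9) n822 (.fin (nat_lit 125702301) (nat_lit 0))))
def n824 : Nd := .arc (nat_lit 3) n807 (.fin (nat_lit 192860315) (nat_lit 0))
def n825 : Nd := .arc (nat_lit 3) n816 (.fin (nat_lit 125751453) (nat_lit 0))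
def n826 : Nd := .arc (nat_lit 6) n824 (.arc (nat_lit 9) n825 (.fin (nat_lit 595472537) (nat_lit 0)))
def n827 : Nd := .arc (nat_lit 3) n821 (.arc (nat_lit 6) n820 (.fin (nat_lit 125735069) (nat_lit 0)))
def n828 : Nd := .arc (nat_lit 3) n809 (.arc (nat_lit 9) n808 (.fin (nat_lit 192827547) (nat_lit 0)))
def n829 : Nd := .arc (nat_lit 3) n826 (.arc (nat_lit 6) n827 (.arc (nat_lit 9) n828 (.fin (nat_lit 327028887) (nat_lit 0))))
def n830 : Nd := .arc (nat_lit 6) n825 (.arc (nat_lit 9) n824 (.fin (nat_lit 327037079) (nat_lit 0)))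
def n831 : Nd := .arc (nat_lit 3) n812 (.arc (nat_lit 6) n811 (.fin (nat_lit 192843931) (nat_lit 0)))
def n832 : Nd := .arc (nat_lit 3) n818 (.arc (nat_lit 9) n817 (.fin (nat_lit 125718685) (nat_lit 0)))
def n833 : Nd := .arc (nat_lit 3) n830 (.arc (nat_lit 6) n831 (.arc (nat_lit 9) n832 (.fin (nat_lit 595464345) (nat_lit 0))))
def n834 : Nd := .arc (nat_lit 38) n814 (.arc (nat_lit 41) n823 (.arc (nat_lit 44) n829 (.arc (nat_lit 47) n833 (.fin (nat_lit 242151579) (nat_lit 0)))))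
def n835 : Nd := .arc (nat_lit 3) n834 (.fin (nat_lit 242667677) (nat_lit 0))
def n836 : Nd := .arc (nat_lit 26) n814 (.arc (nat_lit 29) n823 (.arc (nat_lit 32) n833 (.arc (nat_lit 35) n829 (.fin (nat_lit 242675869) (nat_lit 0)))))
def n837 : Nd := .arc (nat_lit 3) n836 (.arc (nat_lit 40) n806 (.arc (nat_lit 43) n810 (.arc (nat_lit 46) n813 (.fin (nat_lit 242143387) (nat_lit 0)))))
def n838 : Nd := .arc (nat_lit 6) n835 (.arc (nat_lit 9) n837 (.fin (nat_lit 845033623) (nat_lit 0)))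
def n839 : Nd := .arc (nat_lit 50) n814 (.arc (nat_lit 53) n823 (.arc (nat_lit 56) n829 (.arc (nat_lit 59) n833 (.fin (nat_lit 845082775) (nat_lit 0)))))
def n840 : Nd := .arc (nat_lit 9) n839 (.fin (nat_lit 242643101) (nat_lit 0))
def n841 : Nd := .arc (nat_lit 6) n836 (.arc (nat_lit 52) n806 (.arc (nat_lit 55) n810 (.arc (nat_lit 58) n813 (.fin (nat_lit 845066391) (nat_lit 0)))))
def n842 : Nd := .arc (nat_lit 3) n840 (.arc (nat_lit 6) n841 (.fin (nat_lit 242127003) (nat_lit 0)))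
def n843 : Nd := .arc (nat_lit 6) n839 (.fin (nat_lit 242135195) (nat_lit 0))
def n844 : Nd := .arc (nat_lit 9) n834 (.fin (nat_lit 845050007) (nat_lit 0))
def n845 : Nd := .arc (nat_lit 3) n843 (.arc (nat_lit 9) n844 (.fin (nat_lit 242634909) (nat_lit 0)))
def n846 : Nd := .arc (nat_lit 3) n838 (.arc (nat_lit 6) n842 (.arc (nat_lit 9) n845 (.fin (nat_lit 842928281) (nat_lit 0))))
def n847 : Nd := .arc (nat_lit 6) n837 (.arc (nat_lit 9) n835 (.fin (nat_lit 842936473) (nat_lit 0)))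
def n848 : Nd := .arc (nat_lit 62) n814 (.arc (nat_lit 65) n823 (.arc (nat_lit 68) n833 (.arc (nat_lit 71) n829 (.fin (nat_lit 842985625) (nat_lit 0)))))
def n849 : Nd := .arc (nat_lit 9) n848 (.fin (nat_lit 242118811) (nat_lit 0))
def n850 : Nd := .arc (nat_lit 6) n834 (.fin (nat_lit 842969241) (nat_lit 0))
def n851 : Nd := .arc (nat_lit 3) n849 (.arc (nat_lit 6) n850 (.fin (nat_lit 242651293) (nat_lit 0)))
def n852 : Nd := .arc (nat_lit 6) n848 (.fin (nat_lit 242659485) (nat_lit 0))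
def n853 : Nd := .arc (nat_lit 9) n836 (.arc (nat_lit 64) n806 (.arc (nat_lit 67) n813 (.arc (nat_lit 70) n810 (.fin (nat_lit 842952857) (nat_lit 0)))))
def n854 : Nd := .arc (nat_lit 3) n852 (.arc (nat_lit 9) n853 (.fin (nat_lit 242110619) (nat_lit 0)))
def n855 : Nd := .arc (nat_lit 3) n847 (.arc (nat_lit 6) n851 (.arc (nat_lit 9) n854 (.fin (nat_lit 845025431) (nat_lit 0))))
def n856 : Nd := .arc (nat_lit 3) n848 (.fin (nat_lit 845074583) (nat_lit 0))
def n857 : Nd := .arc (nat_lit 3) n839 (.fin (nat_lit 842977433) (nat_lit 0))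
def n858 : Nd := .arc (nat_lit 6) n856 (.arc (nat_lit 9) n857 (.fin (nat_lit 242102427) (nat_lit 0)))
def n859 : Nd := .arc (nat_lit 3) n844 (.arc (nat_lit 6) n843 (.fin (nat_lit 842961049) (nat_lit 0)))
def n860 : Nd := .arc (nat_lit 3) n850 (.arc (nat_lit 9) n849 (.fin (nat_lit 845041815) (nat_lit 0)))
def n861 : Nd := .arc (nat_lit 3) n858 (.arc (nat_lit 6) n859 (.arc (nat_lit 9) n860 (.fin (nat_lit 242618525) (nat_lit 0))))
def n862 : Nd := .arc (nat_lit 6) n857 (.arc (nat_lit 9) n856 (.fin (nat_lit 242626717) (nat_lit 0)))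
def n863 : Nd := .arc (nat_lit 3) n853 (.arc (nat_lit 6) n852 (.fin (nat_lit 845058199) (nat_lit 0)))
def n864 : Nd := .arc (nat_lit 3) n841 (.arc (nat_lit 9) n840 (.fin (nat_lit 842944665) (nat_lit 0)))
def n865 : Nd := .arc (nat_lit 3) n862 (.arc (nat_lit 6) n863 (.arc (nat_lit 9) n864 (.fin (nat_lit 242094235) (nat_lit 0))))
def n866 : Nd := .arc (nat_lit 50) n737 (.arc (nat_lit 53) n733 (.arc (nat_lit 56) n727 (.arc (nat_lit 59) n718 (.fin (nat_lit 593424537) (nat_lit 0)))))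
def n867 : Nd := .arc (nat_lit 3) n866 (.fin (nat_lit 322883735) (nat_lit 0))
def n868 : Nd := .arc (nat_lit 62) n737 (.arc (nat_lit 65) n733 (.arc (nat_lit 68) n718 (.arc (nat_lit 71) n727 (.fin (nat_lit 322891927) (nat_lit 0)))))
def n869 : Nd := .arc (nat_lit 3) n868 (.fin (nat_lit 593416345) (nat_lit 0))
def n870 : Nd := .arc (nat_lit 6) n867 (.arc (nat_lit 9) n869 (.fin (nat_lit 192295067) (nat_lit 0)))
def n871 : Nd := .arc (nat_lit 26) n737 (.arc (nat_lit 29) n733 (.arc (nat_lit 32) n718 (.arc (nat_lit 35) n727 (.fin (nat_lit 192344219) (nat_lit 0)))))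
def n872 : Nd := .arc (nat_lit 9) n871 (.arc (nat_lit 64) n734 (.arc (nat_lit 67) n736 (.arc (nat_lit 70) n735 (.fin (nat_lit 322859159) (nat_lit 0)))))
def n873 : Nd := .arc (nat_lit 6) n868 (.fin (nat_lit 192327835) (nat_lit 0))
def n874 : Nd := .arc (nat_lit 3) n872 (.arc (nat_lit 6) n873 (.fin (nat_lit 593399961) (nat_lit 0)))
def n875 : Nd := .arc (nat_lit 6) n871 (.arc (nat_lit 52) n734 (.arc (nat_lit 55) n735 (.arc (nat_lit 58) n736 (.fin (nat_lit 593408153) (nat_lit 0)))))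
def n876 : Nd := .arc (nat_lit 9) n866 (.fin (nat_lit 192311451) (nat_lit 0))
def n877 : Nd := .arc (nat_lit 3) n875 (.arc (nat_lit 9) n876 (.fin (nat_lit 322850967) (nat_lit 0)))
def n878 : Nd := .arc (nat_lit 3) n870 (.arc (nat_lit 6) n874 (.arc (nat_lit 9) n877 (.fin (nat_lit 124653725) (nat_lit 0))))
def n879 : Nd := .arc (nat_lit 6) n869 (.arc (nat_lit 9) n867 (.fin (nat_lit 124661917) (nat_lit 0)))
def n880 : Nd := .arc (nat_lit 38) n737 (.arc (nat_lit 41) n733 (.arc (nat_lit 44) n727 (.arc (nat_lit 47) n718 (.fin (nat_lit 124711069) (nat_lit 0)))))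
def n881 : Nd := .arc (nat_lit 9) n880 (.fin (nat_lit 593391769) (nat_lit 0))
def n882 : Nd := .arc (nat_lit 6) n866 (.fin (nat_lit 124694685) (nat_lit 0))
def n883 : Nd := .arc (nat_lit 3) n881 (.arc (nat_lit 6) n882 (.fin (nat_lit 322867351) (nat_lit 0)))
def n884 : Nd := .arc (nat_lit 6) n880 (.fin (nat_lit 322875543) (nat_lit 0))
def n885 : Nd := .arc (nat_lit 9) n868 (.fin (nat_lit 124678301) (nat_lit 0))
def n886 : Nd := .arc (nat_lit 3) n884 (.arc (nat_lit 9) n885 (.fin (nat_lit 593383577) (nat_lit 0)))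
def n887 : Nd := .arc (nat_lit 3) n879 (.arc (nat_lit 6) n883 (.arc (nat_lit 9) n886 (.fin (nat_lit 192286875) (nat_lit 0))))
def n888 : Nd := .arc (nat_lit 3) n871 (.arc (nat_lit 40) n734 (.arc (nat_lit 43) n735 (.arc (nat_lit 46) n736 (.fin (nat_lit 124702877) (nat_lit 0)))))
def n889 : Nd := .arc (nat_lit 3) n880 (.fin (nat_lit 192336027) (nat_lit 0))
def n890 : Nd := .arc (nat_lit 6) n888 (.arc (nat_lit 9) n889 (.fin (nat_lit 322842775) (nat_lit 0)))
def n891 : Nd := .arc (nat_lit 3) n885 (.arc (nat_lit 6) n884 (.fin (nat_lit 192319643) (nat_lit 0)))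
def n892 : Nd := .arc (nat_lit 3) n873 (.arc (nat_lit 9) n872 (.fin (nat_lit 124670109) (nat_lit 0)))
def n893 : Nd := .arc (nat_lit 3) n890 (.arc (nat_lit 6) n891 (.arc (nat_lit 9) n892 (.fin (nat_lit 593367193) (nat_lit 0))))
def n894 : Nd := .arc (nat_lit 6) n889 (.arc (nat_lit 9) n888 (.fin (nat_lit 593375385) (nat_lit 0)))
def n895 : Nd := .arc (nat_lit 3) n876 (.arc (nat_lit 6) n875 (.fin (nat_lit 124686493) (nat_lit 0)))
def n896 : Nd := .arc (nat_lit 3) n882 (.arc (nat_lit 9) n881 (.fin (nat_lit 192303259) (nat_lit 0)))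
def n897 : Nd := .arc (nat_lit 3) n894 (.arc (nat_lit 6) n895 (.arc (nat_lit 9) n896 (.fin (nat_lit 322834583) (nat_lit 0))))
def n898 : Nd := .arc (nat_lit 14) n846 (.arc (nat_lit 17) n855 (.arc (nat_lit 20) n861 (.arc (nat_lit 23) n865 (.arc (nat_lit 50) n878 (.arc (nat_lit 53) n887 (.arc (nat_lit 56) n893 (.arc (nat_lit 59) n897 (.fin (nat_lit 828043417) (nat_lit 0)))))))))
def n899 : Nd := .arc (nat_lit 3) n898 (.fin (nat_lit 825938071) (nat_lit 0))
def n900 : Nd := .arc (nat_lit 14) n855 (.arc (nat_lit 17) n846 (.arc (nat_lit 20) n865 (.arc (nat_lit 23) n861 (.arc (nat_lit 62) n878 (.arc (nat_lit 65) n887 (.arc (nat_lit 68) n897 (.arc (nat_lit 71) n893 (.fin (nat_lit 825946263) (nat_lit 0)))))))))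
def n901 : Nd := .arc (nat_lit 3) n900 (.fin (nat_lit 828035225) (nat_lit 0))
def n902 : Nd := .arc (nat_lit 6) n899 (.arc (nat_lit 9) n901 (.fin (nat_lit 225587355) (nat_lit 0)))
def n903 : Nd := .arc (nat_lit 14) n861 (.arc (nat_lit 17) n865 (.arc (nat_lit 20) n855 (.arc (nat_lit 23) n846 (.arc (nat_lit 26) n878 (.arc (nat_lit 29) n887 (.arc (nat_lit 32) n897 (.arc (nat_lit 35) n893 (.fin (nat_lit 225636507) (nat_lit 0)))))))))
def n904 : Nd := .arc (nat_lit 9) n903 (.arc (nat_lit 64) n870 (.arc (nat_lit 67) n877 (.arc (nat_lit 70) n874 (.fin (nat_lit 825913495) (nat_lit 0)))))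
def n905 : Nd := .arc (nat_lit 6) n900 (.fin (nat_lit 225620123) (nat_lit 0))
def n906 : Nd := .arc (nat_lit 3) n904 (.arc (nat_lit 6) n905 (.fin (nat_lit 828018841) (nat_lit 0)))
def n907 : Nd := .arc (nat_lit 6) n903 (.arc (nat_lit 52) n870 (.arc (nat_lit 55) n874 (.arc (nat_lit 58) n877 (.fin (nat_lit 828027033) (nat_lit 0)))))
def n908 : Nd := .arc (nat_lit 9) n898 (.fin (nat_lit 225603739) (nat_lit 0))
def n909 : Nd := .arc (nat_lit 3) n907 (.arc (nat_lit 9) n908 (.fin (nat_lit 825905303) (nat_lit 0)))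
def n910 : Nd := .arc (nat_lit 3) n902 (.arc (nat_lit 6) n906 (.arc (nat_lit 9) n909 (.fin (nat_lit 225054877) (nat_lit 0))))
def n911 : Nd := .arc (nat_lit 6) n901 (.arc (nat_lit 9) n899 (.fin (nat_lit 225063069) (nat_lit 0)))
def n912 : Nd := .arc (nat_lit 14) n865 (.arc (nat_lit 17) n861 (.arc (nat_lit 20) n846 (.arc (nat_lit 23) n855 (.arc (nat_lit 38) n878 (.arc (nat_lit 41) n887 (.arc (nat_lit 44) n893 (.arc (nat_lit 47) n897 (.fin (nat_lit 225112221) (nat_lit 0)))))))))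
def n913 : Nd := .arc (nat_lit 9) n912 (.fin (nat_lit 828010649) (nat_lit 0))
def n914 : Nd := .arc (nat_lit 6) n898 (.fin (nat_lit 225095837) (nat_lit 0))
def n915 : Nd := .arc (nat_lit 3) n913 (.arc (nat_lit 6) n914 (.fin (nat_lit 825921687) (nat_lit 0)))
def n916 : Nd := .arc (nat_lit 6) n912 (.fin (nat_lit 825929879) (nat_lit 0))
def n917 : Nd := .arc (nat_lit 9) n900 (.fin (nat_lit 225079453) (nat_lit 0))
def n918 : Nd := .arc (nat_lit 3) n916 (.arc (nat_lit 9) n917 (.fin (nat_lit 828002457) (nat_lit 0)))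
def n919 : Nd := .arc (nat_lit 3) n911 (.arc (nat_lit 6) n915 (.arc (nat_lit 9) n918 (.fin (nat_lit 225579163) (nat_lit 0))))
def n920 : Nd := .arc (nat_lit 3) n912 (.fin (nat_lit 225628315) (nat_lit 0))
def n921 : Nd := .arc (nat_lit 3) n903 (.arc (nat_lit 40) n870 (.arc (nat_lit 43) n874 (.arc (nat_lit 46) n877 (.fin (nat_lit 225104029) (nat_lit 0)))))
def n922 : Nd := .arc (nat_lit 6) n920 (.arc (nat_lit 9) n921 (.fin (nat_lit 827994265) (nat_lit 0)))
def n923 : Nd := .arc (nat_lit 3) n908 (.arc (nat_lit 6) n907 (.fin (nat_lit 225087645) (nat_lit 0)))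
def n924 : Nd := .arc (nat_lit 3) n914 (.arc (nat_lit 9) n913 (.fin (nat_lit 225595547) (nat_lit 0)))
def n925 : Nd := .arc (nat_lit 3) n922 (.arc (nat_lit 6) n923 (.arc (nat_lit 9) n924 (.fin (nat_lit 825888919) (nat_lit 0))))
def n926 : Nd := .arc (nat_lit 6) n921 (.arc (nat_lit 9) n920 (.fin (nat_lit 825897111) (nat_lit 0)))
def n927 : Nd := .arc (nat_lit 3) n917 (.arc (nat_lit 6) n916 (.fin (nat_lit 225611931) (nat_lit 0)))
def n928 : Nd := .arc (nat_lit 3) n905 (.arc (nat_lit 9) n904 (.fin (nat_lit 225071261) (nat_lit 0)))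
def n929 : Nd := .arc (nat_lit 3) n926 (.arc (nat_lit 6) n927 (.arc (nat_lit 9) n928 (.fin (nat_lit 827986073) (nat_lit 0))))
def n930 : Nd := .arc (nat_lit 38) n823 (.arc (nat_lit 41) n814 (.arc (nat_lit 44) n833 (.arc (nat_lit 47) n829 (.fin (nat_lit 225374365) (nat_lit 0)))))
def n931 : Nd := .arc (nat_lit 3) n930 (.fin (nat_lit 225890459) (nat_lit 0))
def n932 : Nd := .arc (nat_lit 26) n823 (.arc (nat_lit 29) n814 (.arc (nat_lit 32) n829 (.arc (nat_lit 35) n833 (.fin (nat_lit 225898651) (nat_lit 0)))))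
def n933 : Nd := .arc (nat_lit 3) n932 (.arc (nat_lit 40) n815 (.arc (nat_lit 43) n819 (.arc (nat_lit 46) n822 (.fin (nat_lit 225366173) (nat_lit 0)))))
def n934 : Nd := .arc (nat_lit 6) n931 (.arc (nat_lit 9) n933 (.fin (nat_lit 828256409) (nat_lit 0)))
def n935 : Nd := .arc (nat_lit 50) n823 (.arc (nat_lit 53) n814 (.arc (nat_lit 56) n833 (.arc (nat_lit 59) n829 (.fin (nat_lit 828305561) (nat_lit 0)))))
def n936 : Nd := .arc (nat_lit 9) n935 (.fin (nat_lit 225865883) (nat_lit 0))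
def n937 : Nd := .arc (nat_lit 6) n932 (.arc (nat_lit 52) n815 (.arc (nat_lit 55) n819 (.arc (nat_lit 58) n822 (.fin (nat_lit 828289177) (nat_lit 0)))))
def n938 : Nd := .arc (nat_lit 3) n936 (.arc (nat_lit 6) n937 (.fin (nat_lit 225349789) (nat_lit 0)))
def n939 : Nd := .arc (nat_lit 6) n935 (.fin (nat_lit 225357981) (nat_lit 0))
def n940 : Nd := .arc (nat_lit 9) n930 (.fin (nat_lit 828272793) (nat_lit 0))
def n941 : Nd := .arc (nat_lit 3) n939 (.arc (nat_lit 9) n940 (.fin (nat_lit 225857691) (nat_lit 0)))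
def n942 : Nd := .arc (nat_lit 3) n934 (.arc (nat_lit 6) n938 (.arc (nat_lit 9) n941 (.fin (nat_lit 826151063) (nat_lit 0))))
def n943 : Nd := .arc (nat_lit 6) n933 (.arc (nat_lit 9) n931 (.fin (nat_lit 826159255) (nat_lit 0)))
def n944 : Nd := .arc (nat_lit 62) n823 (.arc (nat_lit 65) n814 (.arc (nat_lit 68) n829 (.arc (nat_lit 71) n833 (.fin (nat_lit 826208407) (nat_lit 0)))))
def n945 : Nd := .arc (nat_lit 9) n944 (.fin (nat_lit 225341597) (nat_lit 0))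
def n946 : Nd := .arc (nat_lit 6) n930 (.fin (nat_lit 826192023) (nat_lit 0))
def n947 : Nd := .arc (nat_lit 3) n945 (.arc (nat_lit 6) n946 (.fin (nat_lit 225874075) (nat_lit 0)))
def n948 : Nd := .arc (nat_lit 6) n944 (.fin (nat_lit 225882267) (nat_lit 0))
def n949 : Nd := .arc (nat_lit 9) n932 (.arc (nat_lit 64) n815 (.arc (nat_lit 67) n822 (.arc (nat_lit 70) n819 (.fin (nat_lit 826175639) (nat_lit 0)))))
def n950 : Nd := .arc (nat_lit 3) n948 (.arc (nat_lit 9) n949 (.fin (nat_lit 225333405) (nat_lit 0)))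
def n951 : Nd := .arc (nat_lit 3) n943 (.arc (nat_lit 6) n947 (.arc (nat_lit 9) n950 (.fin (nat_lit 828248217) (nat_lit 0))))
def n952 : Nd := .arc (nat_lit 3) n944 (.fin (nat_lit 828297369) (nat_lit 0))
def n953 : Nd := .arc (nat_lit 3) n935 (.fin (nat_lit 826200215) (nat_lit 0))
def n954 : Nd := .arc (nat_lit 6) n952 (.arc (nat_lit 9) n953 (.fin (nat_lit 225325213) (nat_lit 0)))
def n955 : Nd := .arc (nat_lit 3) n940 (.arc (nat_lit 6) n939 (.fin (nat_lit 826183831) (nat_lit 0)))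
def n956 : Nd := .arc (nat_lit 3) n946 (.arc (nat_lit 9) n945 (.fin (nat_lit 828264601) (nat_lit 0)))
def n957 : Nd := .arc (nat_lit 3) n954 (.arc (nat_lit 6) n955 (.arc (nat_lit 9) n956 (.fin (nat_lit 225841307) (nat_lit 0))))
def n958 : Nd := .arc (nat_lit 6) n953 (.arc (nat_lit 9) n952 (.fin (nat_lit 225849499) (nat_lit 0)))
def n959 : Nd := .arc (nat_lit 3) n949 (.arc (nat_lit 6) n948 (.fin (nat_lit 828280985) (nat_lit 0)))
def n960 : Nd := .arc (nat_lit 3) n937 (.arc (nat_lit 9) n936 (.fin (nat_lit 826167447) (nat_lit 0)))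
def n961 : Nd := .arc (nat_lit 3) n958 (.arc (nat_lit 6) n959 (.arc (nat_lit 9) n960 (.fin (nat_lit 225317021) (nat_lit 0))))
def n962 : Nd := .arc (nat_lit 50) n673 (.arc (nat_lit 53) n669 (.arc (nat_lit 56) n663 (.arc (nat_lit 59) n654 (.fin (nat_lit 324989079) (nat_lit 0)))))
def n963 : Nd := .arc (nat_lit 3) n962 (.fin (nat_lit 591319193) (nat_lit 0))
def n964 : Nd := .arc (nat_lit 62) n673 (.arc (nat_lit 65) n669 (.arc (nat_lit 68) n654 (.arc (nat_lit 71) n663 (.fin (nat_lit 591327385) (nat_lit 0)))))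
def n965 : Nd := .arc (nat_lit 3) n964 (.fin (nat_lit 324980887) (nat_lit 0))
def n966 : Nd := .arc (nat_lit 6) n963 (.arc (nat_lit 9) n965 (.fin (nat_lit 125186205) (nat_lit 0)))
def n967 : Nd := .arc (nat_lit 26) n673 (.arc (nat_lit 29) n669 (.arc (nat_lit 32) n654 (.arc (nat_lit 35) n663 (.fin (nat_lit 125235357) (nat_lit 0)))))
def n968 : Nd := .arc (nat_lit 9) n967 (.arc (nat_lit 64) n670 (.arc (nat_lit 67) n672 (.arc (nat_lit 70) n671 (.fin (nat_lit 591294617) (nat_lit 0)))))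
def n969 : Nd := .arc (nat_lit 6) n964 (.fin (nat_lit 125218973) (nat_lit 0))
def n970 : Nd := .arc (nat_lit 3) n968 (.arc (nat_lit 6) n969 (.fin (nat_lit 324964503) (nat_lit 0)))
def n971 : Nd := .arc (nat_lit 6) n967 (.arc (nat_lit 52) n670 (.arc (nat_lit 55) n671 (.arc (nat_lit 58) n672 (.fin (nat_lit 324972695) (nat_lit 0)))))
def n972 : Nd := .arc (nat_lit 9) n962 (.fin (nat_lit 125202589) (nat_lit 0))
def n973 : Nd := .arc (nat_lit 3) n971 (.arc (nat_lit 9) n972 (.fin (nat_lit 591286425) (nat_lit 0)))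
def n974 : Nd := .arc (nat_lit 3) n966 (.arc (nat_lit 6) n970 (.arc (nat_lit 9) n973 (.fin (nat_lit 191762587) (nat_lit 0))))
def n975 : Nd := .arc (nat_lit 6) n965 (.arc (nat_lit 9) n963 (.fin (nat_lit 191770779) (nat_lit 0)))
def n976 : Nd := .arc (nat_lit 38) n673 (.arc (nat_lit 41) n669 (.arc (nat_lit 44) n663 (.arc (nat_lit 47) n654 (.fin (nat_lit 191819931) (nat_lit 0)))))
def n977 : Nd := .arc (nat_lit 9) n976 (.fin (nat_lit 324956311) (nat_lit 0))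
def n978 : Nd := .arc (nat_lit 6) n962 (.fin (nat_lit 191803547) (nat_lit 0))
def n979 : Nd := .arc (nat_lit 3) n977 (.arc (nat_lit 6) n978 (.fin (nat_lit 591302809) (nat_lit 0)))
def n980 : Nd := .arc (nat_lit 6) n976 (.fin (nat_lit 591311001) (nat_lit 0))
def n981 : Nd := .arc (nat_lit 9) n964 (.fin (nat_lit 191787163) (nat_lit 0))
def n982 : Nd := .arc (nat_lit 3) n980 (.arc (nat_lit 9) n981 (.fin (nat_lit 324948119) (nat_lit 0)))
def n983 : Nd := .arc (nat_lit 3) n975 (.arc (nat_lit 6) n979 (.arc (nat_lit 9) n982 (.fin (nat_lit 125178013) (nat_lit 0))))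
def n984 : Nd := .arc (nat_lit 3) n967 (.arc (nat_lit 40) n670 (.arc (nat_lit 43) n671 (.arc (nat_lit 46) n672 (.fin (nat_lit 191811739) (nat_lit 0)))))
def n985 : Nd := .arc (nat_lit 3) n976 (.fin (nat_lit 125227165) (nat_lit 0))
def n986 : Nd := .arc (nat_lit 6) n984 (.arc (nat_lit 9) n985 (.fin (nat_lit 591278233) (nat_lit 0)))
def n987 : Nd := .arc (nat_lit 3) n981 (.arc (nat_lit 6) n980 (.fin (nat_lit 125210781) (nat_lit 0)))
def n988 : Nd := .arc (nat_lit 3) n969 (.arc (nat_lit 9) n968 (.fin (nat_lit 191778971) (nat_lit 0)))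
def n989 : Nd := .arc (nat_lit 3) n986 (.arc (nat_lit 6) n987 (.arc (nat_lit 9) n988 (.fin (nat_lit 324931735) (nat_lit 0))))
def n990 : Nd := .arc (nat_lit 6) n985 (.arc (nat_lit 9) n984 (.fin (nat_lit 324939927) (nat_lit 0)))
def n991 : Nd := .arc (nat_lit 3) n972 (.arc (nat_lit 6) n971 (.fin (nat_lit 191795355) (nat_lit 0)))
def n992 : Nd := .arc (nat_lit 3) n978 (.arc (nat_lit 9) n977 (.fin (nat_lit 125194397) (nat_lit 0)))
def n993 : Nd := .arc (nat_lit 3) n990 (.arc (nat_lit 6) n991 (.arc (nat_lit 9) n992 (.fin (nat_lit 591270041) (nat_lit 0))))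
def n994 : Nd := .arc (nat_lit 14) n942 (.arc (nat_lit 17) n951 (.arc (nat_lit 20) n957 (.arc (nat_lit 23) n961 (.arc (nat_lit 50) n974 (.arc (nat_lit 53) n983 (.arc (nat_lit 56) n989 (.arc (nat_lit 59) n993 (.fin (nat_lit 844820631) (nat_lit 0)))))))))
def n995 : Nd := .arc (nat_lit 3) n994 (.fin (nat_lit 842715289) (nat_lit 0))
def n996 : Nd := .arc (nat_lit 14) n951 (.arc (nat_lit 17) n942 (.arc (nat_lit 20) n961 (.arc (nat_lit 23) n957 (.arc (nat_lit 62) n974 (.arc (nat_lit 65) n983 (.arc (nat_lit 68) n993 (.arc (nat_lit 71) n989 (.fin (nat_lit 842723481) (nat_lit 0)))))))))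
def n997 : Nd := .arc (nat_lit 3) n996 (.fin (nat_lit 844812439) (nat_lit 0))
def n998 : Nd := .arc (nat_lit 6) n995 (.arc (nat_lit 9) n997 (.fin (nat_lit 242364573) (nat_lit 0)))
def n999 : Nd := .arc (nat_lit 14) n957 (.arc (nat_lit 17) n961 (.arc (nat_lit 20) n951 (.arc (nat_lit 23) n942 (.arc (nat_lit 26) n974 (.arc (nat_lit 29) n983 (.arc (nat_lit 32) n993 (.arc (nat_lit 35) n989 (.fin (nat_lit 242413725) (nat_lit 0)))))))))
def n1000 : Nd := .arc (nat_lit 9) n999 (.arc (nat_lit 64) n966 (.arc (nat_lit 67) n973 (.arc (nat_lit 70) n970 (.fin (nat_lit 842690713) (nat_lit 0)))))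
def n1001 : Nd := .arc (nat_lit 6) n996 (.fin (nat_lit 242397341) (nat_lit 0))
def n1002 : Nd := .arc (nat_lit 3) n1000 (.arc (nat_lit 6) n1001 (.fin (nat_lit 844796055) (nat_lit 0)))
def n1003 : Nd := .arc (nat_lit 6) n999 (.arc (nat_lit 52) n966 (.arc (nat_lit 55) n970 (.arc (nat_lit 58) n973 (.fin (nat_lit 844804247) (nat_lit 0)))))
def n1004 : Nd := .arc (nat_lit 9) n994 (.fin (nat_lit 242380957) (nat_lit 0))
def n1005 : Nd := .arc (nat_lit 3) n1003 (.arc (nat_lit 9) n1004 (.fin (nat_lit 842682521) (nat_lit 0)))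
def n1006 : Nd := .arc (nat_lit 3) n998 (.arc (nat_lit 6) n1002 (.arc (nat_lit 9) n1005 (.fin (nat_lit 241832091) (nat_lit 0))))
def n1007 : Nd := .arc (nat_lit 6) n997 (.arc (nat_lit 9) n995 (.fin (nat_lit 241840283) (nat_lit 0)))
def n1008 : Nd := .arc (nat_lit 14) n961 (.arc (nat_lit 17) n957 (.arc (nat_lit 20) n942 (.arc (nat_lit 23) n951 (.arc (nat_lit 38) n974 (.arc (nat_lit 41) n983 (.arc (nat_lit 44) n989 (.arc (nat_lit 47) n993 (.fin (nat_lit 241889435) (nat_lit 0)))))))))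
def n1009 : Nd := .arc (nat_lit 9) n1008 (.fin (nat_lit 844787863) (nat_lit 0))
def n1010 : Nd := .arc (nat_lit 6) n994 (.fin (nat_lit 241873051) (nat_lit 0))
def n1011 : Nd := .arc (nat_lit 3) n1009 (.arc (nat_lit 6) n1010 (.fin (nat_lit 842698905) (nat_lit 0)))
def n1012 : Nd := .arc (nat_lit 6) n1008 (.fin (nat_lit 842707097) (nat_lit 0))
def n1013 : Nd := .arc (nat_lit 9) n996 (.fin (nat_lit 241856667) (nat_lit 0))
def n1014 : Nd := .arc (nat_lit 3) n1012 (.arc (nat_lit 9) n1013 (.fin (nat_lit 844779671) (nat_lit 0)))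
def n1015 : Nd := .arc (nat_lit 3) n1007 (.arc (nat_lit 6) n1011 (.arc (nat_lit 9) n1014 (.fin (nat_lit 242356381) (nat_lit 0))))
def n1016 : Nd := .arc (nat_lit 3) n999 (.arc (nat_lit 40) n966 (.arc (nat_lit 43) n970 (.arc (nat_lit 46) n973 (.fin (nat_lit 241881243) (nat_lit 0)))))
def n1017 : Nd := .arc (nat_lit 3) n1008 (.fin (nat_lit 242405533) (nat_lit 0))
def n1018 : Nd := .arc (nat_lit 6) n1016 (.arc (nat_lit 9) n1017 (.fin (nat_lit 842674329) (nat_lit 0)))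
def n1019 : Nd := .arc (nat_lit 3) n1013 (.arc (nat_lit 6) n1012 (.fin (nat_lit 242389149) (nat_lit 0)))
def n1020 : Nd := .arc (nat_lit 3) n1001 (.arc (nat_lit 9) n1000 (.fin (nat_lit 241848475) (nat_lit 0)))
def n1021 : Nd := .arc (nat_lit 3) n1018 (.arc (nat_lit 6) n1019 (.arc (nat_lit 9) n1020 (.fin (nat_lit 844763287) (nat_lit 0))))
def n1022 : Nd := .arc (nat_lit 6) n1017 (.arc (nat_lit 9) n1016 (.fin (nat_lit 844771479) (nat_lit 0)))
def n1023 : Nd := .arc (nat_lit 3) n1004 (.arc (nat_lit 6) n1003 (.fin (nat_lit 241864859) (nat_lit 0)))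
def n1024 : Nd := .arc (nat_lit 3) n1010 (.arc (nat_lit 9) n1009 (.fin (nat_lit 242372765) (nat_lit 0)))
def n1025 : Nd := .arc (nat_lit 3) n1022 (.arc (nat_lit 6) n1023 (.arc (nat_lit 9) n1024 (.fin (nat_lit 842666137) (nat_lit 0))))
def n1026 : Nd := .arc (nat_lit 14) n782 (.arc (nat_lit 17) n791 (.arc (nat_lit 20) n797 (.arc (nat_lit 23) n801 (.arc (nat_lit 26) n910 (.arc (nat_lit 29) n919 (.arc (nat_lit 32) n925 (.arc (nat_lit 35) n929 (.arc (nat_lit 38) n1006 (.arc (nat_lit 41) n1015 (.arc (nat_lit 44) n1021 (.arc (nat_lit 47) n1025 (.fin (nat_lit 123924635) (nat_lit 0)))))))))))))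
def n1027 : Nd := .arc (nat_lit 3) n1026 (.arc (nat_lit 40) n902 (.arc (nat_lit 43) n906 (.arc (nat_lit 46) n909 (.fin (nat_lit 191025309) (nat_lit 0)))))
def n1028 : Nd := .arc (nat_lit 14) n791 (.arc (nat_lit 17) n782 (.arc (nat_lit 20) n801 (.arc (nat_lit 23) n797 (.arc (nat_lit 26) n1006 (.arc (nat_lit 29) n1015 (.arc (nat_lit 32) n1025 (.arc (nat_lit 35) n1021 (.arc (nat_lit 38) n910 (.arc (nat_lit 41) n919 (.arc (nat_lit 44) n929 (.arc (nat_lit 47) n925 (.fin (nat_lit 191033501) (nat_lit 0)))))))))))))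
def n1029 : Nd := .arc (nat_lit 3) n1028 (.arc (nat_lit 40) n998 (.arc (nat_lit 43) n1002 (.arc (nat_lit 46) n1005 (.fin (nat_lit 123916443) (nat_lit 0)))))
def n1030 : Nd := .arc (nat_lit 6) n1027 (.arc (nat_lit 9) n1029 (.fin (nat_lit 588918935) (nat_lit 0)))
def n1031 : Nd := .arc (nat_lit 14) n797 (.arc (nat_lit 17) n801 (.arc (nat_lit 20) n791 (.arc (nat_lit 23) n782 (.arc (nat_lit 50) n1006 (.arc (nat_lit 53) n1015 (.arc (nat_lit 56) n1021 (.arc (nat_lit 59) n1025 (.arc (nat_lit 62) n910 (.arc (nat_lit 65) n919 (.arc (nat_lit 68) n925 (.arc (nat_lit 71) n929 (.fin (nat_lit 588968087) (nat_lit 0)))))))))))))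
def n1032 : Nd := .arc (nat_lit 9) n1031 (.fin (nat_lit 191000733) (nat_lit 0))
def n1033 : Nd := .arc (nat_lit 6) n1028 (.arc (nat_lit 52) n998 (.arc (nat_lit 55) n1002 (.arc (nat_lit 58) n1005 (.fin (nat_lit 588951703) (nat_lit 0)))))
def n1034 : Nd := .arc (nat_lit 3) n1032 (.arc (nat_lit 6) n1033 (.fin (nat_lit 123900059) (nat_lit 0)))
def n1035 : Nd := .arc (nat_lit 6) n1031 (.fin (nat_lit 123908251) (nat_lit 0))
def n1036 : Nd := .arc (nat_lit 9) n1026 (.arc (nat_lit 64) n902 (.arc (nat_lit 67) n909 (.arc (nat_lit 70) n906 (.fin (nat_lit 588935319) (nat_lit 0)))))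
def n1037 : Nd := .arc (nat_lit 3) n1035 (.arc (nat_lit 9) n1036 (.fin (nat_lit 190992541) (nat_lit 0)))
def n1038 : Nd := .arc (nat_lit 3) n1030 (.arc (nat_lit 6) n1034 (.arc (nat_lit 9) n1037 (.fin (nat_lit 320475289) (nat_lit 0))))
def n1039 : Nd := .arc (nat_lit 6) n1029 (.arc (nat_lit 9) n1027 (.fin (nat_lit 320483481) (nat_lit 0)))
def n1040 : Nd := .arc (nat_lit 14) n801 (.arc (nat_lit 17) n797 (.arc (nat_lit 20) n782 (.arc (nat_lit 23) n791 (.arc (nat_lit 50) n910 (.arc (nat_lit 53) n919 (.arc (nat_lit 56) n929 (.arc (nat_lit 59) n925 (.arc (nat_lit 62) n1006 (.arc (nat_lit 65) n1015 (.arc (nat_lit 68) n1025 (.arc (nat_lit 71) n1021 (.fin (nat_lit 320532633) (nat_lit 0)))))))))))))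
def n1041 : Nd := .arc (nat_lit 9) n1040 (.fin (nat_lit 123891867) (nat_lit 0))
def n1042 : Nd := .arc (nat_lit 6) n1026 (.arc (nat_lit 52) n902 (.arc (nat_lit 55) n906 (.arc (nat_lit 58) n909 (.fin (nat_lit 320516249) (nat_lit 0)))))
def n1043 : Nd := .arc (nat_lit 3) n1041 (.arc (nat_lit 6) n1042 (.fin (nat_lit 191008925) (nat_lit 0)))
def n1044 : Nd := .arc (nat_lit 6) n1040 (.fin (nat_lit 191017117) (nat_lit 0))
def n1045 : Nd := .arc (nat_lit 9) n1028 (.arc (nat_lit 64) n998 (.arc (nat_lit 67) n1005 (.arc (nat_lit 70) n1002 (.fin (nat_lit 320499865) (nat_lit 0)))))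
def n1046 : Nd := .arc (nat_lit 3) n1044 (.arc (nat_lit 9) n1045 (.fin (nat_lit 123883675) (nat_lit 0)))
def n1047 : Nd := .arc (nat_lit 3) n1039 (.arc (nat_lit 6) n1043 (.arc (nat_lit 9) n1046 (.fin (nat_lit 588910743) (nat_lit 0))))
def n1048 : Nd := .arc (nat_lit 3) n1040 (.fin (nat_lit 588959895) (nat_lit 0))
def n1049 : Nd := .arc (nat_lit 3) n1031 (.fin (nat_lit 320524441) (nat_lit 0))
def n1050 : Nd := .arc (nat_lit 6) n1048 (.arc (nat_lit 9) n1049 (.fin (nat_lit 123875483) (nat_lit 0)))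
def n1051 : Nd := .arc (nat_lit 3) n1036 (.arc (nat_lit 6) n1035 (.fin (nat_lit 320508057) (nat_lit 0)))
def n1052 : Nd := .arc (nat_lit 3) n1042 (.arc (nat_lit 9) n1041 (.fin (nat_lit 588927127) (nat_lit 0)))
def n1053 : Nd := .arc (nat_lit 3) n1050 (.arc (nat_lit 6) n1051 (.arc (nat_lit 9) n1052 (.fin (nat_lit 190976157) (nat_lit 0))))
def n1054 : Nd := .arc (nat_lit 6) n1049 (.arc (nat_lit 9) n1048 (.fin (nat_lit 190984349) (nat_lit 0)))
def n1055 : Nd := .arc (nat_lit 3) n1045 (.arc (nat_lit 6) n1044 (.fin (nat_lit 588943511) (nat_lit 0)))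
def n1056 : Nd := .arc (nat_lit 3) n1033 (.arc (nat_lit 9) n1032 (.fin (nat_lit 320491673) (nat_lit 0)))
def n1057 : Nd := .arc (nat_lit 3) n1054 (.arc (nat_lit 6) n1055 (.arc (nat_lit 9) n1056 (.fin (nat_lit 123867291) (nat_lit 0))))
def n1058 : Nd := .arc (nat_lit 50) n759 (.arc (nat_lit 53) n750 (.arc (nat_lit 56) n765 (.arc (nat_lit 59) n769 (.arc (nat_lit 62) n695 (.arc (nat_lit 65) n686 (.arc (nat_lit 68) n701 (.arc (nat_lit 71) n705 (.fin (nat_lit 320794777) (nat_lit 0)))))))))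
def n1059 : Nd := .arc (nat_lit 3) n1058 (.fin (nat_lit 589222039) (nat_lit 0))
def n1060 : Nd := .arc (nat_lit 50) n695 (.arc (nat_lit 53) n686 (.arc (nat_lit 56) n705 (.arc (nat_lit 59) n701 (.arc (nat_lit 62) n759 (.arc (nat_lit 65) n750 (.arc (nat_lit 68) n769 (.arc (nat_lit 71) n765 (.fin (nat_lit 589230231) (nat_lit 0)))))))))
def n1061 : Nd := .arc (nat_lit 3) n1060 (.fin (nat_lit 320786585) (nat_lit 0))
def n1062 : Nd := .arc (nat_lit 6) n1059 (.arc (nat_lit 9) n1061 (.fin (nat_lit 124137627) (nat_lit 0)))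
def n1063 : Nd := .arc (nat_lit 26) n759 (.arc (nat_lit 29) n750 (.arc (nat_lit 32) n769 (.arc (nat_lit 35) n765 (.arc (nat_lit 38) n695 (.arc (nat_lit 41) n686 (.arc (nat_lit 44) n705 (.arc (nat_lit 47) n701 (.fin (nat_lit 124186779) (nat_lit 0)))))))))
def n1064 : Nd := .arc (nat_lit 9) n1063 (.arc (nat_lit 64) n751 (.arc (nat_lit 67) n758 (.arc (nat_lit 70) n755 (.fin (nat_lit 589197463) (nat_lit 0)))))
def n1065 : Nd := .arc (nat_lit 6) n1060 (.fin (nat_lit 124170395) (nat_lit 0))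
def n1066 : Nd := .arc (nat_lit 3) n1064 (.arc (nat_lit 6) n1065 (.fin (nat_lit 320770201) (nat_lit 0)))
def n1067 : Nd := .arc (nat_lit 6) n1063 (.arc (nat_lit 52) n751 (.arc (nat_lit 55) n755 (.arc (nat_lit 58) n758 (.fin (nat_lit 320778393) (nat_lit 0)))))
def n1068 : Nd := .arc (nat_lit 9) n1058 (.fin (nat_lit 124154011) (nat_lit 0))
def n1069 : Nd := .arc (nat_lit 3) n1067 (.arc (nat_lit 9) n1068 (.fin (nat_lit 589189271) (nat_lit 0)))
def n1070 : Nd := .arc (nat_lit 3) n1062 (.arc (nat_lit 6) n1066 (.arc (nat_lit 9) n1069 (.fin (nat_lit 191238301) (nat_lit 0))))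
def n1071 : Nd := .arc (nat_lit 6) n1061 (.arc (nat_lit 9) n1059 (.fin (nat_lit 191246493) (nat_lit 0)))
def n1072 : Nd := .arc (nat_lit 26) n695 (.arc (nat_lit 29) n686 (.arc (nat_lit 32) n701 (.arc (nat_lit 35) n705 (.arc (nat_lit 38) n759 (.arc (nat_lit 41) n750 (.arc (nat_lit 44) n765 (.arc (nat_lit 47) n769 (.fin (nat_lit 191295645) (nat_lit 0)))))))))
def n1073 : Nd := .arc (nat_lit 9) n1072 (.arc (nat_lit 64) n687 (.arc (nat_lit 67) n694 (.arc (nat_lit 70) n691 (.fin (nat_lit 320762009) (nat_lit 0)))))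
def n1074 : Nd := .arc (nat_lit 6) n1058 (.fin (nat_lit 191279261) (nat_lit 0))
def n1075 : Nd := .arc (nat_lit 3) n1073 (.arc (nat_lit 6) n1074 (.fin (nat_lit 589205655) (nat_lit 0)))
def n1076 : Nd := .arc (nat_lit 6) n1072 (.arc (nat_lit 52) n687 (.arc (nat_lit 55) n691 (.arc (nat_lit 58) n694 (.fin (nat_lit 589213847) (nat_lit 0)))))
def n1077 : Nd := .arc (nat_lit 9) n1060 (.fin (nat_lit 191262877) (nat_lit 0))
def n1078 : Nd := .arc (nat_lit 3) n1076 (.arc (nat_lit 9) n1077 (.fin (nat_lit 320753817) (nat_lit 0)))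
def n1079 : Nd := .arc (nat_lit 3) n1071 (.arc (nat_lit 6) n1075 (.arc (nat_lit 9) n1078 (.fin (nat_lit 124129435) (nat_lit 0))))
def n1080 : Nd := .arc (nat_lit 3) n1072 (.arc (nat_lit 40) n687 (.arc (nat_lit 43) n691 (.arc (nat_lit 46) n694 (.fin (nat_lit 124178587) (nat_lit 0)))))
def n1081 : Nd := .arc (nat_lit 3) n1063 (.arc (nat_lit 40) n751 (.arc (nat_lit 43) n755 (.arc (nat_lit 46) n758 (.fin (nat_lit 191287453) (nat_lit 0)))))
def n1082 : Nd := .arc (nat_lit 6) n1080 (.arc (nat_lit 9) n1081 (.fin (nat_lit 320745625) (nat_lit 0)))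
def n1083 : Nd := .arc (nat_lit 3) n1068 (.arc (nat_lit 6) n1067 (.fin (nat_lit 191271069) (nat_lit 0)))
def n1084 : Nd := .arc (nat_lit 3) n1074 (.arc (nat_lit 9) n1073 (.fin (nat_lit 124145819) (nat_lit 0)))
def n1085 : Nd := .arc (nat_lit 3) n1082 (.arc (nat_lit 6) n1083 (.arc (nat_lit 9) n1084 (.fin (nat_lit 589172887) (nat_lit 0))))
def n1086 : Nd := .arc (nat_lit 6) n1081 (.arc (nat_lit 9) n1080 (.fin (nat_lit 589181079) (nat_lit 0)))
def n1087 : Nd := .arc (nat_lit 3) n1077 (.arc (nat_lit 6) n1076 (.fin (nat_lit 124162203) (nat_lit 0)))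
def n1088 : Nd := .arc (nat_lit 3) n1065 (.arc (nat_lit 9) n1064 (.fin (nat_lit 191254685) (nat_lit 0)))
def n1089 : Nd := .arc (nat_lit 3) n1086 (.arc (nat_lit 6) n1087 (.arc (nat_lit 9) n1088 (.fin (nat_lit 320737433) (nat_lit 0))))
def n1090 : Nd := .arc (nat_lit 32) n641 (.fin (nat_lit 595521687) (nat_lit 0))
def n1091 : Nd := .arc (nat_lit 3) n1090 (.fin (nat_lit 327078041) (nat_lit 0))
def n1092 : Nd := .arc (nat_lit 47) n641 (.fin (nat_lit 327086233) (nat_lit 0))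
def n1093 : Nd := .arc (nat_lit 3) n1092 (.fin (nat_lit 595513495) (nat_lit 0))
def n1094 : Nd := .arc (nat_lit 6) n1091 (.arc (nat_lit 9) n1093 (.fin (nat_lit 192819357) (nat_lit 0)))
def n1095 : Nd := .arc (nat_lit 68) n641 (.fin (nat_lit 192868509) (nat_lit 0))
def n1096 : Nd := .arc (nat_lit 9) n1095 (.fin (nat_lit 327053465) (nat_lit 0))
def n1097 : Nd := .arc (nat_lit 6) n1092 (.fin (nat_lit 192852125) (nat_lit 0))
def n1098 : Nd := .arc (nat_lit 3) n1096 (.arc (nat_lit 6) n1097 (.fin (nat_lit 595497111) (nat_lit 0)))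
def n1099 : Nd := .arc (nat_lit 6) n1095 (.fin (nat_lit 595505303) (nat_lit 0))
def n1100 : Nd := .arc (nat_lit 9) n1090 (.fin (nat_lit 192835741) (nat_lit 0))
def n1101 : Nd := .arc (nat_lit 3) n1099 (.arc (nat_lit 9) n1100 (.fin (nat_lit 327045273) (nat_lit 0)))
def n1102 : Nd := .arc (nat_lit 3) n1094 (.arc (nat_lit 6) n1098 (.arc (nat_lit 9) n1101 (.fin (nat_lit 125702299) (nat_lit 0))))
def n1103 : Nd := .arc (nat_lit 6) n1093 (.arc (nat_lit 9) n1091 (.fin (nat_lit 125710491) (nat_lit 0)))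
def n1104 : Nd := .arc (nat_lit 59) n641 (.fin (nat_lit 125759643) (nat_lit 0))
def n1105 : Nd := .arc (nat_lit 9) n1104 (.fin (nat_lit 595488919) (nat_lit 0))
def n1106 : Nd := .arc (nat_lit 6) n1090 (.fin (nat_lit 125743259) (nat_lit 0))
def n1107 : Nd := .arc (nat_lit 3) n1105 (.arc (nat_lit 6) n1106 (.fin (nat_lit 327061657) (nat_lit 0)))
def n1108 : Nd := .arc (nat_lit 6) n1104 (.fin (nat_lit 327069849) (nat_lit 0))
def n1109 : Nd := .arc (nat_lit 9) n1092 (.fin (nat_lit 125726875) (nat_lit 0))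
def n1110 : Nd := .arc (nat_lit 3) n1108 (.arc (nat_lit 9) n1109 (.fin (nat_lit 595480727) (nat_lit 0)))
def n1111 : Nd := .arc (nat_lit 3) n1103 (.arc (nat_lit 6) n1107 (.arc (nat_lit 9) n1110 (.fin (nat_lit 192811165) (nat_lit 0))))
def n1112 : Nd := .arc (nat_lit 3) n1095 (.fin (nat_lit 125751451) (nat_lit 0))
def n1113 : Nd := .arc (nat_lit 3) n1104 (.fin (nat_lit 192860317) (nat_lit 0))
def n1114 : Nd := .arc (nat_lit 6) n1112 (.arc (nat_lit 9) n1113 (.fin (nat_lit 327037081) (nat_lit 0)))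
def n1115 : Nd := .arc (nat_lit 3) n1109 (.arc (nat_lit 6) n1108 (.fin (nat_lit 192843933) (nat_lit 0)))
def n1116 : Nd := .arc (nat_lit 3) n1097 (.arc (nat_lit 9) n1096 (.fin (nat_lit 125718683) (nat_lit 0)))
def n1117 : Nd := .arc (nat_lit 3) n1114 (.arc (nat_lit 6) n1115 (.arc (nat_lit 9) n1116 (.fin (nat_lit 595464343) (nat_lit 0))))
def n1118 : Nd := .arc (nat_lit 6) n1113 (.arc (nat_lit 9) n1112 (.fin (nat_lit 595472535) (nat_lit 0)))
def n1119 : Nd := .arc (nat_lit 3) n1100 (.arc (nat_lit 6) n1099 (.fin (nat_lit 125735067) (nat_lit 0)))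
def n1120 : Nd := .arc (nat_lit 3) n1106 (.arc (nat_lit 9) n1105 (.fin (nat_lit 192827549) (nat_lit 0)))
def n1121 : Nd := .arc (nat_lit 3) n1118 (.arc (nat_lit 6) n1119 (.arc (nat_lit 9) n1120 (.fin (nat_lit 327028889) (nat_lit 0))))
def n1122 : Nd := .arc (nat_lit 38) n1102 (.arc (nat_lit 41) n1111 (.arc (nat_lit 44) n1117 (.arc (nat_lit 47) n1121 (.fin (nat_lit 225374363) (nat_lit 0)))))
def n1123 : Nd := .arc (nat_lit 3) n1122 (.fin (nat_lit 225890461) (nat_lit 0))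
def n1124 : Nd := .arc (nat_lit 26) n1102 (.arc (nat_lit 29) n1111 (.arc (nat_lit 32) n1121 (.arc (nat_lit 35) n1117 (.fin (nat_lit 225898653) (nat_lit 0)))))
def n1125 : Nd := .arc (nat_lit 3) n1124 (.arc (nat_lit 40) n1094 (.arc (nat_lit 43) n1098 (.arc (nat_lit 46) n1101 (.fin (nat_lit 225366171) (nat_lit 0)))))
def n1126 : Nd := .arc (nat_lit 6) n1123 (.arc (nat_lit 9) n1125 (.fin (nat_lit 828256407) (nat_lit 0)))
def n1127 : Nd := .arc (nat_lit 50) n1102 (.arc (nat_lit 53) n1111 (.arc (nat_lit 56) n1117 (.arc (nat_lit 59) n1121 (.fin (nat_lit 828305559) (nat_lit 0)))))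
def n1128 : Nd := .arc (nat_lit 9) n1127 (.fin (nat_lit 225865885) (nat_lit 0))
def n1129 : Nd := .arc (nat_lit 6) n1124 (.arc (nat_lit 52) n1094 (.arc (nat_lit 55) n1098 (.arc (nat_lit 58) n1101 (.fin (nat_lit 828289175) (nat_lit 0)))))
def n1130 : Nd := .arc (nat_lit 3) n1128 (.arc (nat_lit 6) n1129 (.fin (nat_lit 225349787) (nat_lit 0)))
def n1131 : Nd := .arc (nat_lit 6) n1127 (.fin (nat_lit 225357979) (nat_lit 0))
def n1132 : Nd := .arc (nat_lit 9) n1122 (.fin (nat_lit 828272791) (nat_lit 0))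
def n1133 : Nd := .arc (nat_lit 3) n1131 (.arc (nat_lit 9) n1132 (.fin (nat_lit 225857693) (nat_lit 0)))
def n1134 : Nd := .arc (nat_lit 3) n1126 (.arc (nat_lit 6) n1130 (.arc (nat_lit 9) n1133 (.fin (nat_lit 826151065) (nat_lit 0))))
def n1135 : Nd := .arc (nat_lit 6) n1125 (.arc (nat_lit 9) n1123 (.fin (nat_lit 826159257) (nat_lit 0)))
def n1136 : Nd := .arc (nat_lit 62) n1102 (.arc (nat_lit 65) n1111 (.arc (nat_lit 68) n1121 (.arc (nat_lit 71) n1117 (.fin (nat_lit 826208409) (nat_lit 0)))))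
def n1137 : Nd := .arc (nat_lit 9) n1136 (.fin (nat_lit 225341595) (nat_lit 0))
def n1138 : Nd := .arc (nat_lit 6) n1122 (.fin (nat_lit 826192025) (nat_lit 0))
def n1139 : Nd := .arc (nat_lit 3) n1137 (.arc (nat_lit 6) n1138 (.fin (nat_lit 225874077) (nat_lit 0)))
def n1140 : Nd := .arc (nat_lit 6) n1136 (.fin (nat_lit 225882269) (nat_lit 0))
def n1141 : Nd := .arc (nat_lit 9) n1124 (.arc (nat_lit 64) n1094 (.arc (nat_lit 67) n1101 (.arc (nat_lit 70) n1098 (.fin (nat_lit 826175641) (nat_lit 0)))))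
def n1142 : Nd := .arc (nat_lit 3) n1140 (.arc (nat_lit 9) n1141 (.fin (nat_lit 225333403) (nat_lit 0)))
def n1143 : Nd := .arc (nat_lit 3) n1135 (.arc (nat_lit 6) n1139 (.arc (nat_lit 9) n1142 (.fin (nat_lit 828248215) (nat_lit 0))))
def n1144 : Nd := .arc (nat_lit 3) n1136 (.fin (nat_lit 828297367) (nat_lit 0))
def n1145 : Nd := .arc (nat_lit 3) n1127 (.fin (nat_lit 826200217) (nat_lit 0))
def n1146 : Nd := .arc (nat_lit 6) n1144 (.arc (nat_lit 9) n1145 (.fin (nat_lit 225325211) (nat_lit 0)))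
def n1147 : Nd := .arc (nat_lit 3) n1132 (.arc (nat_lit 6) n1131 (.fin (nat_lit 826183833) (nat_lit 0)))
def n1148 : Nd := .arc (nat_lit 3) n1138 (.arc (nat_lit 9) n1137 (.fin (nat_lit 828264599) (nat_lit 0)))
def n1149 : Nd := .arc (nat_lit 3) n1146 (.arc (nat_lit 6) n1147 (.arc (nat_lit 9) n1148 (.fin (nat_lit 225841309) (nat_lit 0))))
def n1150 : Nd := .arc (nat_lit 6) n1145 (.arc (nat_lit 9) n1144 (.fin (nat_lit 225849501) (nat_lit 0)))
def n1151 : Nd := .arc (nat_lit 3) n1141 (.arc (nat_lit 6) n1140 (.fin (nat_lit 828280983) (nat_lit 0)))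
def n1152 : Nd := .arc (nat_lit 3) n1129 (.arc (nat_lit 9) n1128 (.fin (nat_lit 826167449) (nat_lit 0)))
def n1153 : Nd := .arc (nat_lit 3) n1150 (.arc (nat_lit 6) n1151 (.arc (nat_lit 9) n1152 (.fin (nat_lit 225317019) (nat_lit 0))))
def n1154 : Nd := .arc (nat_lit 50) n669 (.arc (nat_lit 53) n673 (.arc (nat_lit 56) n654 (.arc (nat_lit 59) n663 (.fin (nat_lit 324989081) (nat_lit 0)))))
def n1155 : Nd := .arc (nat_lit 3) n1154 (.fin (nat_lit 591319191) (nat_lit 0))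
def n1156 : Nd := .arc (nat_lit 62) n669 (.arc (nat_lit 65) n673 (.arc (nat_lit 68) n663 (.arc (nat_lit 71) n654 (.fin (nat_lit 591327383) (nat_lit 0)))))
def n1157 : Nd := .arc (nat_lit 3) n1156 (.fin (nat_lit 324980889) (nat_lit 0))
def n1158 : Nd := .arc (nat_lit 6) n1155 (.arc (nat_lit 9) n1157 (.fin (nat_lit 125186203) (nat_lit 0)))
def n1159 : Nd := .arc (nat_lit 26) n669 (.arc (nat_lit 29) n673 (.arc (nat_lit 32) n663 (.arc (nat_lit 35) n654 (.fin (nat_lit 125235355) (nat_lit 0)))))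
def n1160 : Nd := .arc (nat_lit 9) n1159 (.arc (nat_lit 64) n666 (.arc (nat_lit 67) n668 (.arc (nat_lit 70) n667 (.fin (nat_lit 591294615) (nat_lit 0)))))
def n1161 : Nd := .arc (nat_lit 6) n1156 (.fin (nat_lit 125218971) (nat_lit 0))
def n1162 : Nd := .arc (nat_lit 3) n1160 (.arc (nat_lit 6) n1161 (.fin (nat_lit 324964505) (nat_lit 0)))
def n1163 : Nd := .arc (nat_lit 6) n1159 (.arc (nat_lit 52) n666 (.arc (nat_lit 55) n667 (.arc (nat_lit 58) n668 (.fin (nat_lit 324972697) (nat_lit 0)))))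
def n1164 : Nd := .arc (nat_lit 9) n1154 (.fin (nat_lit 125202587) (nat_lit 0))
def n1165 : Nd := .arc (nat_lit 3) n1163 (.arc (nat_lit 9) n1164 (.fin (nat_lit 591286423) (nat_lit 0)))
def n1166 : Nd := .arc (nat_lit 3) n1158 (.arc (nat_lit 6) n1162 (.arc (nat_lit 9) n1165 (.fin (nat_lit 191762589) (nat_lit 0))))
def n1167 : Nd := .arc (nat_lit 6) n1157 (.arc (nat_lit 9) n1155 (.fin (nat_lit 191770781) (nat_lit 0)))
def n1168 : Nd := .arc (nat_lit 38) n669 (.arc (nat_lit 41) n673 (.arc (nat_lit 44) n654 (.arc (nat_lit 47) n663 (.fin (nat_lit 191819933) (nat_lit 0)))))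
def n1169 : Nd := .arc (nat_lit 9) n1168 (.fin (nat_lit 324956313) (nat_lit 0))
def n1170 : Nd := .arc (nat_lit 6) n1154 (.fin (nat_lit 191803549) (nat_lit 0))
def n1171 : Nd := .arc (nat_lit 3) n1169 (.arc (nat_lit 6) n1170 (.fin (nat_lit 591302807) (nat_lit 0)))
def n1172 : Nd := .arc (nat_lit 6) n1168 (.fin (nat_lit 591310999) (nat_lit 0))
def n1173 : Nd := .arc (nat_lit 9) n1156 (.fin (nat_lit 191787165) (nat_lit 0))
def n1174 : Nd := .arc (nat_lit 3) n1172 (.arc (nat_lit 9) n1173 (.fin (nat_lit 324948121) (nat_lit 0)))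
def n1175 : Nd := .arc (nat_lit 3) n1167 (.arc (nat_lit 6) n1171 (.arc (nat_lit 9) n1174 (.fin (nat_lit 125178011) (nat_lit 0))))
def n1176 : Nd := .arc (nat_lit 3) n1159 (.arc (nat_lit 40) n666 (.arc (nat_lit 43) n667 (.arc (nat_lit 46) n668 (.fin (nat_lit 191811741) (nat_lit 0)))))
def n1177 : Nd := .arc (nat_lit 3) n1168 (.fin (nat_lit 125227163) (nat_lit 0))
def n1178 : Nd := .arc (nat_lit 6) n1176 (.arc (nat_lit 9) n1177 (.fin (nat_lit 591278231) (nat_lit 0)))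
def n1179 : Nd := .arc (nat_lit 3) n1173 (.arc (nat_lit 6) n1172 (.fin (nat_lit 125210779) (nat_lit 0)))
def n1180 : Nd := .arc (nat_lit 3) n1161 (.arc (nat_lit 9) n1160 (.fin (nat_lit 191778973) (nat_lit 0)))
def n1181 : Nd := .arc (nat_lit 3) n1178 (.arc (nat_lit 6) n1179 (.arc (nat_lit 9) n1180 (.fin (nat_lit 324931737) (nat_lit 0))))
def n1182 : Nd := .arc (nat_lit 6) n1177 (.arc (nat_lit 9) n1176 (.fin (nat_lit 324939929) (nat_lit 0)))
def n1183 : Nd := .arc (nat_lit 3) n1164 (.arc (nat_lit 6) n1163 (.fin (nat_lit 191795357) (nat_lit 0)))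
def n1184 : Nd := .arc (nat_lit 3) n1170 (.arc (nat_lit 9) n1169 (.fin (nat_lit 125194395) (nat_lit 0)))
def n1185 : Nd := .arc (nat_lit 3) n1182 (.arc (nat_lit 6) n1183 (.arc (nat_lit 9) n1184 (.fin (nat_lit 591270039) (nat_lit 0))))
def n1186 : Nd := .arc (nat_lit 14) n1134 (.arc (nat_lit 17) n1143 (.arc (nat_lit 20) n1149 (.arc (nat_lit 23) n1153 (.arc (nat_lit 50) n1166 (.arc (nat_lit 53) n1175 (.arc (nat_lit 56) n1181 (.arc (nat_lit 59) n1185 (.fin (nat_lit 844820633) (nat_lit 0)))))))))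
def n1187 : Nd := .arc (nat_lit 3) n1186 (.fin (nat_lit 842715287) (nat_lit 0))
def n1188 : Nd := .arc (nat_lit 14) n1143 (.arc (nat_lit 17) n1134 (.arc (nat_lit 20) n1153 (.arc (nat_lit 23) n1149 (.arc (nat_lit 62) n1166 (.arc (nat_lit 65) n1175 (.arc (nat_lit 68) n1185 (.arc (nat_lit 71) n1181 (.fin (nat_lit 842723479) (nat_lit 0)))))))))
def n1189 : Nd := .arc (nat_lit 3) n1188 (.fin (nat_lit 844812441) (nat_lit 0))
def n1190 : Nd := .arc (nat_lit 6) n1187 (.arc (nat_lit 9) n1189 (.fin (nat_lit 242364571) (nat_lit 0)))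
def n1191 : Nd := .arc (nat_lit 14) n1149 (.arc (nat_lit 17) n1153 (.arc (nat_lit 20) n1143 (.arc (nat_lit 23) n1134 (.arc (nat_lit 26) n1166 (.arc (nat_lit 29) n1175 (.arc (nat_lit 32) n1185 (.arc (nat_lit 35) n1181 (.fin (nat_lit 242413723) (nat_lit 0)))))))))
def n1192 : Nd := .arc (nat_lit 9) n1191 (.arc (nat_lit 64) n1158 (.arc (nat_lit 67) n1165 (.arc (nat_lit 70) n1162 (.fin (nat_lit 842690711) (nat_lit 0)))))
def n1193 : Nd := .arc (nat_lit 6) n1188 (.fin (nat_lit 242397339) (nat_lit 0))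
def n1194 : Nd := .arc (nat_lit 3) n1192 (.arc (nat_lit 6) n1193 (.fin (nat_lit 844796057) (nat_lit 0)))
def n1195 : Nd := .arc (nat_lit 6) n1191 (.arc (nat_lit 52) n1158 (.arc (nat_lit 55) n1162 (.arc (nat_lit 58) n1165 (.fin (nat_lit 844804249) (nat_lit 0)))))
def n1196 : Nd := .arc (nat_lit 9) n1186 (.fin (nat_lit 242380955) (nat_lit 0))
def n1197 : Nd := .arc (nat_lit 3) n1195 (.arc (nat_lit 9) n1196 (.fin (nat_lit 842682519) (nat_lit 0)))
def n1198 : Nd := .arc (nat_lit 3) n1190 (.arc (nat_lit 6) n1194 (.arc (nat_lit 9) n1197 (.fin (nat_lit 241832093) (nat_lit 0))))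
def n1199 : Nd := .arc (nat_lit 6) n1189 (.arc (nat_lit 9) n1187 (.fin (nat_lit 241840285) (nat_lit 0)))
def n1200 : Nd := .arc (nat_lit 14) n1153 (.arc (nat_lit 17) n1149 (.arc (nat_lit 20) n1134 (.arc (nat_lit 23) n1143 (.arc (nat_lit 38) n1166 (.arc (nat_lit 41) n1175 (.arc (nat_lit 44) n1181 (.arc (nat_lit 47) n1185 (.fin (nat_lit 241889437) (nat_lit 0)))))))))
def n1201 : Nd := .arc (nat_lit 9) n1200 (.fin (nat_lit 844787865) (nat_lit 0))
def n1202 : Nd := .arc (nat_lit 6) n1186 (.fin (nat_lit 241873053) (nat_lit 0))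
def n1203 : Nd := .arc (nat_lit 3) n1201 (.arc (nat_lit 6) n1202 (.fin (nat_lit 842698903) (nat_lit 0)))
def n1204 : Nd := .arc (nat_lit 6) n1200 (.fin (nat_lit 842707095) (nat_lit 0))
def n1205 : Nd := .arc (nat_lit 9) n1188 (.fin (nat_lit 241856669) (nat_lit 0))
def n1206 : Nd := .arc (nat_lit 3) n1204 (.arc (nat_lit 9) n1205 (.fin (nat_lit 844779673) (nat_lit 0)))
def n1207 : Nd := .arc (nat_lit 3) n1199 (.arc (nat_lit 6) n1203 (.arc (nat_lit 9) n1206 (.fin (nat_lit 242356379) (nat_lit 0))))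
def n1208 : Nd := .arc (nat_lit 3) n1200 (.fin (nat_lit 242405531) (nat_lit 0))
def n1209 : Nd := .arc (nat_lit 3) n1191 (.arc (nat_lit 40) n1158 (.arc (nat_lit 43) n1162 (.arc (nat_lit 46) n1165 (.fin (nat_lit 241881245) (nat_lit 0)))))
def n1210 : Nd := .arc (nat_lit 6) n1208 (.arc (nat_lit 9) n1209 (.fin (nat_lit 844771481) (nat_lit 0)))
def n1211 : Nd := .arc (nat_lit 3) n1196 (.arc (nat_lit 6) n1195 (.fin (nat_lit 241864861) (nat_lit 0)))
def n1212 : Nd := .arc (nat_lit 3) n1202 (.arc (nat_lit 9) n1201 (.fin (nat_lit 242372763) (nat_lit 0)))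
def n1213 : Nd := .arc (nat_lit 3) n1210 (.arc (nat_lit 6) n1211 (.arc (nat_lit 9) n1212 (.fin (nat_lit 842666135) (nat_lit 0))))
def n1214 : Nd := .arc (nat_lit 6) n1209 (.arc (nat_lit 9) n1208 (.fin (nat_lit 842674327) (nat_lit 0)))
def n1215 : Nd := .arc (nat_lit 3) n1205 (.arc (nat_lit 6) n1204 (.fin (nat_lit 242389147) (nat_lit 0)))
def n1216 : Nd := .arc (nat_lit 3) n1193 (.arc (nat_lit 9) n1192 (.fin (nat_lit 241848477) (nat_lit 0)))
def n1217 : Nd := .arc (nat_lit 3) n1214 (.arc (nat_lit 6) n1215 (.arc (nat_lit 9) n1216 (.fin (nat_lit 844763289) (nat_lit 0))))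
def n1218 : Nd := .arc (nat_lit 38) n1111 (.arc (nat_lit 41) n1102 (.arc (nat_lit 44) n1121 (.arc (nat_lit 47) n1117 (.fin (nat_lit 242151581) (nat_lit 0)))))
def n1219 : Nd := .arc (nat_lit 3) n1218 (.fin (nat_lit 242667675) (nat_lit 0))
def n1220 : Nd := .arc (nat_lit 26) n1111 (.arc (nat_lit 29) n1102 (.arc (nat_lit 32) n1117 (.arc (nat_lit 35) n1121 (.fin (nat_lit 242675867) (nat_lit 0)))))
def n1221 : Nd := .arc (nat_lit 3) n1220 (.arc (nat_lit 40) n1103 (.arc (nat_lit 43) n1107 (.arc (nat_lit 46) n1110 (.fin (nat_lit 242143389) (nat_lit 0)))))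
def n1222 : Nd := .arc (nat_lit 6) n1219 (.arc (nat_lit 9) n1221 (.fin (nat_lit 845033625) (nat_lit 0)))
def n1223 : Nd := .arc (nat_lit 50) n1111 (.arc (nat_lit 53) n1102 (.arc (nat_lit 56) n1121 (.arc (nat_lit 59) n1117 (.fin (nat_lit 845082777) (nat_lit 0)))))
def n1224 : Nd := .arc (nat_lit 9) n1223 (.fin (nat_lit 242643099) (nat_lit 0))
def n1225 : Nd := .arc (nat_lit 6) n1220 (.arc (nat_lit 52) n1103 (.arc (nat_lit 55) n1107 (.arc (nat_lit 58) n1110 (.fin (nat_lit 845066393) (nat_lit 0)))))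
def n1226 : Nd := .arc (nat_lit 3) n1224 (.arc (nat_lit 6) n1225 (.fin (nat_lit 242127005) (nat_lit 0)))
def n1227 : Nd := .arc (nat_lit 6) n1223 (.fin (nat_lit 242135197) (nat_lit 0))
def n1228 : Nd := .arc (nat_lit 9) n1218 (.fin (nat_lit 845050009) (nat_lit 0))
def n1229 : Nd := .arc (nat_lit 3) n1227 (.arc (nat_lit 9) n1228 (.fin (nat_lit 242634907) (nat_lit 0)))
def n1230 : Nd := .arc (nat_lit 3) n1222 (.arc (nat_lit 6) n1226 (.arc (nat_lit 9) n1229 (.fin (nat_lit 842928279) (nat_lit 0))))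
def n1231 : Nd := .arc (nat_lit 6) n1221 (.arc (nat_lit 9) n1219 (.fin (nat_lit 842936471) (nat_lit 0)))
def n1232 : Nd := .arc (nat_lit 62) n1111 (.arc (nat_lit 65) n1102 (.arc (nat_lit 68) n1117 (.arc (nat_lit 71) n1121 (.fin (nat_lit 842985623) (nat_lit 0)))))
def n1233 : Nd := .arc (nat_lit 9) n1232 (.fin (nat_lit 242118813) (nat_lit 0))
def n1234 : Nd := .arc (nat_lit 6) n1218 (.fin (nat_lit 842969239) (nat_lit 0))
def n1235 : Nd := .arc (nat_lit 3) n1233 (.arc (nat_lit 6) n1234 (.fin (nat_lit 242651291) (nat_lit 0)))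
def n1236 : Nd := .arc (nat_lit 6) n1232 (.fin (nat_lit 242659483) (nat_lit 0))
def n1237 : Nd := .arc (nat_lit 9) n1220 (.arc (nat_lit 64) n1103 (.arc (nat_lit 67) n1110 (.arc (nat_lit 70) n1107 (.fin (nat_lit 842952855) (nat_lit 0)))))
def n1238 : Nd := .arc (nat_lit 3) n1236 (.arc (nat_lit 9) n1237 (.fin (nat_lit 242110621) (nat_lit 0)))
def n1239 : Nd := .arc (nat_lit 3) n1231 (.arc (nat_lit 6) n1235 (.arc (nat_lit 9) n1238 (.fin (nat_lit 845025433) (nat_lit 0))))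
def n1240 : Nd := .arc (nat_lit 3) n1232 (.fin (nat_lit 845074585) (nat_lit 0))
def n1241 : Nd := .arc (nat_lit 3) n1223 (.fin (nat_lit 842977431) (nat_lit 0))
def n1242 : Nd := .arc (nat_lit 6) n1240 (.arc (nat_lit 9) n1241 (.fin (nat_lit 242102429) (nat_lit 0)))
def n1243 : Nd := .arc (nat_lit 3) n1228 (.arc (nat_lit 6) n1227 (.fin (nat_lit 842961047) (nat_lit 0)))
def n1244 : Nd := .arc (nat_lit 3) n1234 (.arc (nat_lit 9) n1233 (.fin (nat_lit 845041817) (nat_lit 0)))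
def n1245 : Nd := .arc (nat_lit 3) n1242 (.arc (nat_lit 6) n1243 (.arc (nat_lit 9) n1244 (.fin (nat_lit 242618523) (nat_lit 0))))
def n1246 : Nd := .arc (nat_lit 6) n1241 (.arc (nat_lit 9) n1240 (.fin (nat_lit 242626715) (nat_lit 0)))
def n1247 : Nd := .arc (nat_lit 3) n1237 (.arc (nat_lit 6) n1236 (.fin (nat_lit 845058201) (nat_lit 0)))
def n1248 : Nd := .arc (nat_lit 3) n1225 (.arc (nat_lit 9) n1224 (.fin (nat_lit 842944663) (nat_lit 0)))
def n1249 : Nd := .arc (nat_lit 3) n1246 (.arc (nat_lit 6) n1247 (.arc (nat_lit 9) n1248 (.fin (nat_lit 242094237) (nat_lit 0))))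
def n1250 : Nd := .arc (nat_lit 50) n733 (.arc (nat_lit 53) n737 (.arc (nat_lit 56) n718 (.arc (nat_lit 59) n727 (.fin (nat_lit 593424535) (nat_lit 0)))))
def n1251 : Nd := .arc (nat_lit 3) n1250 (.fin (nat_lit 322883737) (nat_lit 0))
def n1252 : Nd := .arc (nat_lit 62) n733 (.arc (nat_lit 65) n737 (.arc (nat_lit 68) n727 (.arc (nat_lit 71) n718 (.fin (nat_lit 322891929) (nat_lit 0)))))
def n1253 : Nd := .arc (nat_lit 3) n1252 (.fin (nat_lit 593416343) (nat_lit 0))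
def n1254 : Nd := .arc (nat_lit 6) n1251 (.arc (nat_lit 9) n1253 (.fin (nat_lit 192295069) (nat_lit 0)))
def n1255 : Nd := .arc (nat_lit 26) n733 (.arc (nat_lit 29) n737 (.arc (nat_lit 32) n727 (.arc (nat_lit 35) n718 (.fin (nat_lit 192344221) (nat_lit 0)))))
def n1256 : Nd := .arc (nat_lit 9) n1255 (.arc (nat_lit 64) n730 (.arc (nat_lit 67) n732 (.arc (nat_lit 70) n731 (.fin (nat_lit 322859161) (nat_lit 0)))))
def n1257 : Nd := .arc (nat_lit 6) n1252 (.fin (nat_lit 192327837) (nat_lit 0))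
def n1258 : Nd := .arc (nat_lit 3) n1256 (.arc (nat_lit 6) n1257 (.fin (nat_lit 593399959) (nat_lit 0)))
def n1259 : Nd := .arc (nat_lit 6) n1255 (.arc (nat_lit 52) n730 (.arc (nat_lit 55) n731 (.arc (nat_lit 58) n732 (.fin (nat_lit 593408151) (nat_lit 0)))))
def n1260 : Nd := .arc (nat_lit 9) n1250 (.fin (nat_lit 192311453) (nat_lit 0))
def n1261 : Nd := .arc (nat_lit 3) n1259 (.arc (nat_lit 9) n1260 (.fin (nat_lit 322850969) (nat_lit 0)))
def n1262 : Nd := .arc (nat_lit 3) n1254 (.arc (nat_lit 6) n1258 (.arc (nat_lit 9) n1261 (.fin (nat_lit 124653723) (nat_lit 0))))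
def n1263 : Nd := .arc (nat_lit 6) n1253 (.arc (nat_lit 9) n1251 (.fin (nat_lit 124661915) (nat_lit 0)))
def n1264 : Nd := .arc (nat_lit 38) n733 (.arc (nat_lit 41) n737 (.arc (nat_lit 44) n718 (.arc (nat_lit 47) n727 (.fin (nat_lit 124711067) (nat_lit 0)))))
def n1265 : Nd := .arc (nat_lit 9) n1264 (.fin (nat_lit 593391767) (nat_lit 0))
def n1266 : Nd := .arc (nat_lit 6) n1250 (.fin (nat_lit 124694683) (nat_lit 0))
def n1267 : Nd := .arc (nat_lit 3) n1265 (.arc (nat_lit 6) n1266 (.fin (nat_lit 322867353) (nat_lit 0)))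
def n1268 : Nd := .arc (nat_lit 6) n1264 (.fin (nat_lit 322875545) (nat_lit 0))
def n1269 : Nd := .arc (nat_lit 9) n1252 (.fin (nat_lit 124678299) (nat_lit 0))
def n1270 : Nd := .arc (nat_lit 3) n1268 (.arc (nat_lit 9) n1269 (.fin (nat_lit 593383575) (nat_lit 0)))
def n1271 : Nd := .arc (nat_lit 3) n1263 (.arc (nat_lit 6) n1267 (.arc (nat_lit 9) n1270 (.fin (nat_lit 192286877) (nat_lit 0))))
def n1272 : Nd := .arc (nat_lit 3) n1255 (.arc (nat_lit 40) n730 (.arc (nat_lit 43) n731 (.arc (nat_lit 46) n732 (.fin (nat_lit 124702875) (nat_lit 0)))))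
def n1273 : Nd := .arc (nat_lit 3) n1264 (.fin (nat_lit 192336029) (nat_lit 0))
def n1274 : Nd := .arc (nat_lit 6) n1272 (.arc (nat_lit 9) n1273 (.fin (nat_lit 322842777) (nat_lit 0)))
def n1275 : Nd := .arc (nat_lit 3) n1269 (.arc (nat_lit 6) n1268 (.fin (nat_lit 192319645) (nat_lit 0)))
def n1276 : Nd := .arc (nat_lit 3) n1257 (.arc (nat_lit 9) n1256 (.fin (nat_lit 124670107) (nat_lit 0)))
def n1277 : Nd := .arc (nat_lit 3) n1274 (.arc (nat_lit 6) n1275 (.arc (nat_lit 9) n1276 (.fin (nat_lit 593367191) (nat_lit 0))))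
def n1278 : Nd := .arc (nat_lit 6) n1273 (.arc (nat_lit 9) n1272 (.fin (nat_lit 593375383) (nat_lit 0)))
def n1279 : Nd := .arc (nat_lit 3) n1260 (.arc (nat_lit 6) n1259 (.fin (nat_lit 124686491) (nat_lit 0)))
def n1280 : Nd := .arc (nat_lit 3) n1266 (.arc (nat_lit 9) n1265 (.fin (nat_lit 192303261) (nat_lit 0)))
def n1281 : Nd := .arc (nat_lit 3) n1278 (.arc (nat_lit 6) n1279 (.arc (nat_lit 9) n1280 (.fin (nat_lit 322834585) (nat_lit 0))))
def n1282 : Nd := .arc (nat_lit 14) n1230 (.arc (nat_lit 17) n1239 (.arc (nat_lit 20) n1245 (.arc (nat_lit 23) n1249 (.arc (nat_lit 50) n1262 (.arc (nat_lit 53) n1271 (.arc (nat_lit 56) n1277 (.arc (nat_lit 59) n1281 (.fin (nat_lit 828043415) (nat_lit 0)))))))))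
def n1283 : Nd := .arc (nat_lit 3) n1282 (.fin (nat_lit 825938073) (nat_lit 0))
def n1284 : Nd := .arc (nat_lit 14) n1239 (.arc (nat_lit 17) n1230 (.arc (nat_lit 20) n1249 (.arc (nat_lit 23) n1245 (.arc (nat_lit 62) n1262 (.arc (nat_lit 65) n1271 (.arc (nat_lit 68) n1281 (.arc (nat_lit 71) n1277 (.fin (nat_lit 825946265) (nat_lit 0)))))))))
def n1285 : Nd := .arc (nat_lit 3) n1284 (.fin (nat_lit 828035223) (nat_lit 0))
def n1286 : Nd := .arc (nat_lit 6) n1283 (.arc (nat_lit 9) n1285 (.fin (nat_lit 225587357) (nat_lit 0)))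
def n1287 : Nd := .arc (nat_lit 14) n1245 (.arc (nat_lit 17) n1249 (.arc (nat_lit 20) n1239 (.arc (nat_lit 23) n1230 (.arc (nat_lit 26) n1262 (.arc (nat_lit 29) n1271 (.arc (nat_lit 32) n1281 (.arc (nat_lit 35) n1277 (.fin (nat_lit 225636509) (nat_lit 0)))))))))
def n1288 : Nd := .arc (nat_lit 9) n1287 (.arc (nat_lit 64) n1254 (.arc (nat_lit 67) n1261 (.arc (nat_lit 70) n1258 (.fin (nat_lit 825913497) (nat_lit 0)))))
def n1289 : Nd := .arc (nat_lit 6) n1284 (.fin (nat_lit 225620125) (nat_lit 0))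
def n1290 : Nd := .arc (nat_lit 3) n1288 (.arc (nat_lit 6) n1289 (.fin (nat_lit 828018839) (nat_lit 0)))
def n1291 : Nd := .arc (nat_lit 6) n1287 (.arc (nat_lit 52) n1254 (.arc (nat_lit 55) n1258 (.arc (nat_lit 58) n1261 (.fin (nat_lit 828027031) (nat_lit 0)))))
def n1292 : Nd := .arc (nat_lit 9) n1282 (.fin (nat_lit 225603741) (nat_lit 0))
def n1293 : Nd := .arc (nat_lit 3) n1291 (.arc (nat_lit 9) n1292 (.fin (nat_lit 825905305) (nat_lit 0)))
def n1294 : Nd := .arc (nat_lit 3) n1286 (.arc (nat_lit 6) n1290 (.arc (nat_lit 9) n1293 (.fin (nat_lit 225054875) (nat_lit 0))))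
def n1295 : Nd := .arc (nat_lit 6) n1285 (.arc (nat_lit 9) n1283 (.fin (nat_lit 225063067) (nat_lit 0)))
def n1296 : Nd := .arc (nat_lit 14) n1249 (.arc (nat_lit 17) n1245 (.arc (nat_lit 20) n1230 (.arc (nat_lit 23) n1239 (.arc (nat_lit 38) n1262 (.arc (nat_lit 41) n1271 (.arc (nat_lit 44) n1277 (.arc (nat_lit 47) n1281 (.fin (nat_lit 225112219) (nat_lit 0)))))))))
def n1297 : Nd := .arc (nat_lit 9) n1296 (.fin (nat_lit 828010647) (nat_lit 0))
def n1298 : Nd := .arc (nat_lit 6) n1282 (.fin (nat_lit 225095835) (nat_lit 0))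
def n1299 : Nd := .arc (nat_lit 3) n1297 (.arc (nat_lit 6) n1298 (.fin (nat_lit 825921689) (nat_lit 0)))
def n1300 : Nd := .arc (nat_lit 6) n1296 (.fin (nat_lit 825929881) (nat_lit 0))
def n1301 : Nd := .arc (nat_lit 9) n1284 (.fin (nat_lit 225079451) (nat_lit 0))
def n1302 : Nd := .arc (nat_lit 3) n1300 (.arc (nat_lit 9) n1301 (.fin (nat_lit 828002455) (nat_lit 0)))
def n1303 : Nd := .arc (nat_lit 3) n1295 (.arc (nat_lit 6) n1299 (.arc (nat_lit 9) n1302 (.fin (nat_lit 225579165) (nat_lit 0))))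
def n1304 : Nd := .arc (nat_lit 3) n1287 (.arc (nat_lit 40) n1254 (.arc (nat_lit 43) n1258 (.arc (nat_lit 46) n1261 (.fin (nat_lit 225104027) (nat_lit 0)))))
def n1305 : Nd := .arc (nat_lit 3) n1296 (.fin (nat_lit 225628317) (nat_lit 0))
def n1306 : Nd := .arc (nat_lit 6) n1304 (.arc (nat_lit 9) n1305 (.fin (nat_lit 825897113) (nat_lit 0)))
def n1307 : Nd := .arc (nat_lit 3) n1301 (.arc (nat_lit 6) n1300 (.fin (nat_lit 225611933) (nat_lit 0)))
def n1308 : Nd := .arc (nat_lit 3) n1289 (.arc (nat_lit 9) n1288 (.fin (nat_lit 225071259) (nat_lit 0)))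
def n1309 : Nd := .arc (nat_lit 3) n1306 (.arc (nat_lit 6) n1307 (.arc (nat_lit 9) n1308 (.fin (nat_lit 827986071) (nat_lit 0))))
def n1310 : Nd := .arc (nat_lit 6) n1305 (.arc (nat_lit 9) n1304 (.fin (nat_lit 827994263) (nat_lit 0)))
def n1311 : Nd := .arc (nat_lit 3) n1292 (.arc (nat_lit 6) n1291 (.fin (nat_lit 225087643) (nat_lit 0)))
def n1312 : Nd := .arc (nat_lit 3) n1298 (.arc (nat_lit 9) n1297 (.fin (nat_lit 225595549) (nat_lit 0)))
def n1313 : Nd := .arc (nat_lit 3) n1310 (.arc (nat_lit 6) n1311 (.arc (nat_lit 9) n1312 (.fin (nat_lit 825888921) (nat_lit 0))))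
def n1314 : Nd := .arc (nat_lit 14) n1070 (.arc (nat_lit 17) n1079 (.arc (nat_lit 20) n1085 (.arc (nat_lit 23) n1089 (.arc (nat_lit 26) n1198 (.arc (nat_lit 29) n1207 (.arc (nat_lit 32) n1213 (.arc (nat_lit 35) n1217 (.arc (nat_lit 38) n1294 (.arc (nat_lit 41) n1303 (.arc (nat_lit 44) n1309 (.arc (nat_lit 47) n1313 (.fin (nat_lit 191033499) (nat_lit 0)))))))))))))
def n1315 : Nd := .arc (nat_lit 3) n1314 (.arc (nat_lit 40) n1190 (.arc (nat_lit 43) n1194 (.arc (nat_lit 46) n1197 (.fin (nat_lit 123916445) (nat_lit 0)))))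
def n1316 : Nd := .arc (nat_lit 14) n1079 (.arc (nat_lit 17) n1070 (.arc (nat_lit 20) n1089 (.arc (nat_lit 23) n1085 (.arc (nat_lit 26) n1294 (.arc (nat_lit 29) n1303 (.arc (nat_lit 32) n1313 (.arc (nat_lit 35) n1309 (.arc (nat_lit 38) n1198 (.arc (nat_lit 41) n1207 (.arc (nat_lit 44) n1217 (.arc (nat_lit 47) n1213 (.fin (nat_lit 123924637) (nat_lit 0)))))))))))))
def n1317 : Nd := .arc (nat_lit 3) n1316 (.arc (nat_lit 40) n1286 (.arc (nat_lit 43) n1290 (.arc (nat_lit 46) n1293 (.fin (nat_lit 191025307) (nat_lit 0)))))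
def n1318 : Nd := .arc (nat_lit 6) n1315 (.arc (nat_lit 9) n1317 (.fin (nat_lit 320483479) (nat_lit 0)))
def n1319 : Nd := .arc (nat_lit 14) n1085 (.arc (nat_lit 17) n1089 (.arc (nat_lit 20) n1079 (.arc (nat_lit 23) n1070 (.arc (nat_lit 50) n1294 (.arc (nat_lit 53) n1303 (.arc (nat_lit 56) n1309 (.arc (nat_lit 59) n1313 (.arc (nat_lit 62) n1198 (.arc (nat_lit 65) n1207 (.arc (nat_lit 68) n1213 (.arc (nat_lit 71) n1217 (.fin (nat_lit 320532631) (nat_lit 0)))))))))))))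
def n1320 : Nd := .arc (nat_lit 9) n1319 (.fin (nat_lit 123891869) (nat_lit 0))
def n1321 : Nd := .arc (nat_lit 6) n1316 (.arc (nat_lit 52) n1286 (.arc (nat_lit 55) n1290 (.arc (nat_lit 58) n1293 (.fin (nat_lit 320516247) (nat_lit 0)))))
def n1322 : Nd := .arc (nat_lit 3) n1320 (.arc (nat_lit 6) n1321 (.fin (nat_lit 191008923) (nat_lit 0)))
def n1323 : Nd := .arc (nat_lit 6) n1319 (.fin (nat_lit 191017115) (nat_lit 0))
def n1324 : Nd := .arc (nat_lit 9) n1314 (.arc (nat_lit 64) n1190 (.arc (nat_lit 67) n1197 (.arc (nat_lit 70) n1194 (.fin (nat_lit 320499863) (nat_lit 0)))))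
def n1325 : Nd := .arc (nat_lit 3) n1323 (.arc (nat_lit 9) n1324 (.fin (nat_lit 123883677) (nat_lit 0)))
def n1326 : Nd := .arc (nat_lit 3) n1318 (.arc (nat_lit 6) n1322 (.arc (nat_lit 9) n1325 (.fin (nat_lit 588910745) (nat_lit 0))))
def n1327 : Nd := .arc (nat_lit 6) n1317 (.arc (nat_lit 9) n1315 (.fin (nat_lit 588918937) (nat_lit 0)))
def n1328 : Nd := .arc (nat_lit 14) n1089 (.arc (nat_lit 17) n1085 (.arc (nat_lit 20) n1070 (.arc (nat_lit 23) n1079 (.arc (nat_lit 50) n1198 (.arc (nat_lit 53) n1207 (.arc (nat_lit 56) n1217 (.arc (nat_lit 59) n1213 (.arc (nat_lit 62) n1294 (.arc (nat_lit 65) n1303 (.arc (nat_lit 68) n1313 (.arc (nat_lit 71) n1309 (.fin (nat_lit 588968089) (nat_lit 0)))))))))))))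
def n1329 : Nd := .arc (nat_lit 9) n1328 (.fin (nat_lit 191000731) (nat_lit 0))
def n1330 : Nd := .arc (nat_lit 6) n1314 (.arc (nat_lit 52) n1190 (.arc (nat_lit 55) n1194 (.arc (nat_lit 58) n1197 (.fin (nat_lit 588951705) (nat_lit 0)))))
def n1331 : Nd := .arc (nat_lit 3) n1329 (.arc (nat_lit 6) n1330 (.fin (nat_lit 123900061) (nat_lit 0)))
def n1332 : Nd := .arc (nat_lit 6) n1328 (.fin (nat_lit 123908253) (nat_lit 0))
def n1333 : Nd := .arc (nat_lit 9) n1316 (.arc (nat_lit 64) n1286 (.arc (nat_lit 67) n1293 (.arc (nat_lit 70) n1290 (.fin (nat_lit 588935321) (nat_lit 0)))))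
def n1334 : Nd := .arc (nat_lit 3) n1332 (.arc (nat_lit 9) n1333 (.fin (nat_lit 190992539) (nat_lit 0)))
def n1335 : Nd := .arc (nat_lit 3) n1327 (.arc (nat_lit 6) n1331 (.arc (nat_lit 9) n1334 (.fin (nat_lit 320475287) (nat_lit 0))))
def n1336 : Nd := .arc (nat_lit 3) n1319 (.fin (nat_lit 588959897) (nat_lit 0))
def n1337 : Nd := .arc (nat_lit 3) n1328 (.fin (nat_lit 320524439) (nat_lit 0))
def n1338 : Nd := .arc (nat_lit 6) n1336 (.arc (nat_lit 9) n1337 (.fin (nat_lit 123875485) (nat_lit 0)))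
def n1339 : Nd := .arc (nat_lit 3) n1333 (.arc (nat_lit 6) n1332 (.fin (nat_lit 320508055) (nat_lit 0)))
def n1340 : Nd := .arc (nat_lit 3) n1321 (.arc (nat_lit 9) n1320 (.fin (nat_lit 588927129) (nat_lit 0)))
def n1341 : Nd := .arc (nat_lit 3) n1338 (.arc (nat_lit 6) n1339 (.arc (nat_lit 9) n1340 (.fin (nat_lit 190976155) (nat_lit 0))))
def n1342 : Nd := .arc (nat_lit 6) n1337 (.arc (nat_lit 9) n1336 (.fin (nat_lit 190984347) (nat_lit 0)))
def n1343 : Nd := .arc (nat_lit 3) n1324 (.arc (nat_lit 6) n1323 (.fin (nat_lit 588943513) (nat_lit 0)))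
def n1344 : Nd := .arc (nat_lit 3) n1330 (.arc (nat_lit 9) n1329 (.fin (nat_lit 320491671) (nat_lit 0)))
def n1345 : Nd := .arc (nat_lit 3) n1342 (.arc (nat_lit 6) n1343 (.arc (nat_lit 9) n1344 (.fin (nat_lit 123867293) (nat_lit 0))))
def n1346 : Nd := .arc (nat_lit 14) n1121 (.arc (nat_lit 17) n1117 (.arc (nat_lit 20) n1111 (.arc (nat_lit 23) n1102 (.fin (nat_lit 595259545) (nat_lit 0)))))
def n1347 : Nd := .arc (nat_lit 3) n1346 (.fin (nat_lit 326815895) (nat_lit 0))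
def n1348 : Nd := .arc (nat_lit 14) n1117 (.arc (nat_lit 17) n1121 (.arc (nat_lit 20) n1102 (.arc (nat_lit 23) n1111 (.fin (nat_lit 326824087) (nat_lit 0)))))
def n1349 : Nd := .arc (nat_lit 3) n1348 (.fin (nat_lit 595251353) (nat_lit 0))
def n1350 : Nd := .arc (nat_lit 6) n1347 (.arc (nat_lit 9) n1349 (.fin (nat_lit 192557211) (nat_lit 0)))
def n1351 : Nd := .arc (nat_lit 14) n1111 (.arc (nat_lit 17) n1102 (.arc (nat_lit 20) n1117 (.arc (nat_lit 23) n1121 (.fin (nat_lit 192606363) (nat_lit 0)))))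
def n1352 : Nd := .arc (nat_lit 9) n1351 (.fin (nat_lit 326791319) (nat_lit 0))
def n1353 : Nd := .arc (nat_lit 6) n1348 (.fin (nat_lit 192589979) (nat_lit 0))
def n1354 : Nd := .arc (nat_lit 3) n1352 (.arc (nat_lit 6) n1353 (.fin (nat_lit 595234969) (nat_lit 0)))
def n1355 : Nd := .arc (nat_lit 6) n1351 (.fin (nat_lit 595243161) (nat_lit 0))
def n1356 : Nd := .arc (nat_lit 9) n1346 (.fin (nat_lit 192573595) (nat_lit 0))
def n1357 : Nd := .arc (nat_lit 3) n1355 (.arc (nat_lit 9) n1356 (.fin (nat_lit 326783127) (nat_lit 0)))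
def n1358 : Nd := .arc (nat_lit 3) n1350 (.arc (nat_lit 6) n1354 (.arc (nat_lit 9) n1357 (.fin (nat_lit 125440157) (nat_lit 0))))
def n1359 : Nd := .arc (nat_lit 6) n1349 (.arc (nat_lit 9) n1347 (.fin (nat_lit 125448349) (nat_lit 0)))
def n1360 : Nd := .arc (nat_lit 14) n1102 (.arc (nat_lit 17) n1111 (.arc (nat_lit 20) n1121 (.arc (nat_lit 23) n1117 (.fin (nat_lit 125497501) (nat_lit 0)))))
def n1361 : Nd := .arc (nat_lit 9) n1360 (.fin (nat_lit 595226777) (nat_lit 0))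
def n1362 : Nd := .arc (nat_lit 6) n1346 (.fin (nat_lit 125481117) (nat_lit 0))
def n1363 : Nd := .arc (nat_lit 3) n1361 (.arc (nat_lit 6) n1362 (.fin (nat_lit 326799511) (nat_lit 0)))
def n1364 : Nd := .arc (nat_lit 6) n1360 (.fin (nat_lit 326807703) (nat_lit 0))
def n1365 : Nd := .arc (nat_lit 9) n1348 (.fin (nat_lit 125464733) (nat_lit 0))
def n1366 : Nd := .arc (nat_lit 3) n1364 (.arc (nat_lit 9) n1365 (.fin (nat_lit 595218585) (nat_lit 0)))
def n1367 : Nd := .arc (nat_lit 3) n1359 (.arc (nat_lit 6) n1363 (.arc (nat_lit 9) n1366 (.fin (nat_lit 192549019) (nat_lit 0))))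
def n1368 : Nd := .arc (nat_lit 3) n1351 (.fin (nat_lit 125489309) (nat_lit 0))
def n1369 : Nd := .arc (nat_lit 3) n1360 (.fin (nat_lit 192598171) (nat_lit 0))
def n1370 : Nd := .arc (nat_lit 6) n1368 (.arc (nat_lit 9) n1369 (.fin (nat_lit 326774935) (nat_lit 0)))
def n1371 : Nd := .arc (nat_lit 3) n1365 (.arc (nat_lit 6) n1364 (.fin (nat_lit 192581787) (nat_lit 0)))
def n1372 : Nd := .arc (nat_lit 3) n1353 (.arc (nat_lit 9) n1352 (.fin (nat_lit 125456541) (nat_lit 0)))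
def n1373 : Nd := .arc (nat_lit 3) n1370 (.arc (nat_lit 6) n1371 (.arc (nat_lit 9) n1372 (.fin (nat_lit 595202201) (nat_lit 0))))
def n1374 : Nd := .arc (nat_lit 6) n1369 (.arc (nat_lit 9) n1368 (.fin (nat_lit 595210393) (nat_lit 0)))
def n1375 : Nd := .arc (nat_lit 3) n1356 (.arc (nat_lit 6) n1355 (.fin (nat_lit 125472925) (nat_lit 0)))
def n1376 : Nd := .arc (nat_lit 3) n1362 (.arc (nat_lit 9) n1361 (.fin (nat_lit 192565403) (nat_lit 0)))
def n1377 : Nd := .arc (nat_lit 3) n1374 (.arc (nat_lit 6) n1375 (.arc (nat_lit 9) n1376 (.fin (nat_lit 326766743) (nat_lit 0))))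
def n1378 : Nd := .arc (nat_lit 14) n829 (.arc (nat_lit 17) n833 (.arc (nat_lit 20) n814 (.arc (nat_lit 23) n823 (.fin (nat_lit 595259543) (nat_lit 0)))))
def n1379 : Nd := .arc (nat_lit 3) n1378 (.fin (nat_lit 326815897) (nat_lit 0))
def n1380 : Nd := .arc (nat_lit 14) n833 (.arc (nat_lit 17) n829 (.arc (nat_lit 20) n823 (.arc (nat_lit 23) n814 (.fin (nat_lit 326824089) (nat_lit 0)))))
def n1381 : Nd := .arc (nat_lit 3) n1380 (.fin (nat_lit 595251351) (nat_lit 0))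
def n1382 : Nd := .arc (nat_lit 6) n1379 (.arc (nat_lit 9) n1381 (.fin (nat_lit 192557213) (nat_lit 0)))
def n1383 : Nd := .arc (nat_lit 14) n814 (.arc (nat_lit 17) n823 (.arc (nat_lit 20) n833 (.arc (nat_lit 23) n829 (.fin (nat_lit 192606365) (nat_lit 0)))))
def n1384 : Nd := .arc (nat_lit 9) n1383 (.fin (nat_lit 326791321) (nat_lit 0))
def n1385 : Nd := .arc (nat_lit 6) n1380 (.fin (nat_lit 192589981) (nat_lit 0))
def n1386 : Nd := .arc (nat_lit 3) n1384 (.arc (nat_lit 6) n1385 (.fin (nat_lit 595234967) (nat_lit 0)))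
def n1387 : Nd := .arc (nat_lit 6) n1383 (.fin (nat_lit 595243159) (nat_lit 0))
def n1388 : Nd := .arc (nat_lit 9) n1378 (.fin (nat_lit 192573597) (nat_lit 0))
def n1389 : Nd := .arc (nat_lit 3) n1387 (.arc (nat_lit 9) n1388 (.fin (nat_lit 326783129) (nat_lit 0)))
def n1390 : Nd := .arc (nat_lit 3) n1382 (.arc (nat_lit 6) n1386 (.arc (nat_lit 9) n1389 (.fin (nat_lit 125440155) (nat_lit 0))))
def n1391 : Nd := .arc (nat_lit 6) n1381 (.arc (nat_lit 9) n1379 (.fin (nat_lit 125448347) (nat_lit 0)))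
def n1392 : Nd := .arc (nat_lit 14) n823 (.arc (nat_lit 17) n814 (.arc (nat_lit 20) n829 (.arc (nat_lit 23) n833 (.fin (nat_lit 125497499) (nat_lit 0)))))
def n1393 : Nd := .arc (nat_lit 9) n1392 (.fin (nat_lit 595226775) (nat_lit 0))
def n1394 : Nd := .arc (nat_lit 6) n1378 (.fin (nat_lit 125481115) (nat_lit 0))
def n1395 : Nd := .arc (nat_lit 3) n1393 (.arc (nat_lit 6) n1394 (.fin (nat_lit 326799513) (nat_lit 0)))
def n1396 : Nd := .arc (nat_lit 6) n1392 (.fin (nat_lit 326807705) (nat_lit 0))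
def n1397 : Nd := .arc (nat_lit 9) n1380 (.fin (nat_lit 125464731) (nat_lit 0))
def n1398 : Nd := .arc (nat_lit 3) n1396 (.arc (nat_lit 9) n1397 (.fin (nat_lit 595218583) (nat_lit 0)))
def n1399 : Nd := .arc (nat_lit 3) n1391 (.arc (nat_lit 6) n1395 (.arc (nat_lit 9) n1398 (.fin (nat_lit 192549021) (nat_lit 0))))
def n1400 : Nd := .arc (nat_lit 3) n1392 (.fin (nat_lit 192598173) (nat_lit 0))
def n1401 : Nd := .arc (nat_lit 3) n1383 (.fin (nat_lit 125489307) (nat_lit 0))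
def n1402 : Nd := .arc (nat_lit 6) n1400 (.arc (nat_lit 9) n1401 (.fin (nat_lit 595210391) (nat_lit 0)))
def n1403 : Nd := .arc (nat_lit 3) n1388 (.arc (nat_lit 6) n1387 (.fin (nat_lit 125472923) (nat_lit 0)))
def n1404 : Nd := .arc (nat_lit 3) n1394 (.arc (nat_lit 9) n1393 (.fin (nat_lit 192565405) (nat_lit 0)))
def n1405 : Nd := .arc (nat_lit 3) n1402 (.arc (nat_lit 6) n1403 (.arc (nat_lit 9) n1404 (.fin (nat_lit 326766745) (nat_lit 0))))
def n1406 : Nd := .arc (nat_lit 6) n1401 (.arc (nat_lit 9) n1400 (.fin (nat_lit 326774937) (nat_lit 0)))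
def n1407 : Nd := .arc (nat_lit 3) n1397 (.arc (nat_lit 6) n1396 (.fin (nat_lit 192581789) (nat_lit 0)))
def n1408 : Nd := .arc (nat_lit 3) n1385 (.arc (nat_lit 9) n1384 (.fin (nat_lit 125456539) (nat_lit 0)))
def n1409 : Nd := .arc (nat_lit 3) n1406 (.arc (nat_lit 6) n1407 (.arc (nat_lit 9) n1408 (.fin (nat_lit 595202199) (nat_lit 0))))
def n1410 : Nd := .arc (nat_lit 50) n1358 (.arc (nat_lit 53) n1367 (.arc (nat_lit 56) n1373 (.arc (nat_lit 59) n1377 (.arc (nat_lit 62) n1390 (.arc (nat_lit 65) n1399 (.arc (nat_lit 68) n1405 (.arc (nat_lit 71) n1409 (.fin (nat_lit 824111257) (nat_lit 0)))))))))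
def n1411 : Nd := .arc (nat_lit 3) n1410 (.fin (nat_lit 824103063) (nat_lit 0))
def n1412 : Nd := .arc (nat_lit 50) n1390 (.arc (nat_lit 53) n1399 (.arc (nat_lit 56) n1409 (.arc (nat_lit 59) n1405 (.arc (nat_lit 62) n1358 (.arc (nat_lit 65) n1367 (.arc (nat_lit 68) n1377 (.arc (nat_lit 71) n1373 (.fin (nat_lit 824111255) (nat_lit 0)))))))))
def n1413 : Nd := .arc (nat_lit 3) n1412 (.fin (nat_lit 824103065) (nat_lit 0))
def n1414 : Nd := .arc (nat_lit 6) n1411 (.arc (nat_lit 9) n1413 (.fin (nat_lit 224800923) (nat_lit 0)))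
def n1415 : Nd := .arc (nat_lit 26) n1358 (.arc (nat_lit 29) n1367 (.arc (nat_lit 32) n1377 (.arc (nat_lit 35) n1373 (.arc (nat_lit 38) n1390 (.arc (nat_lit 41) n1399 (.arc (nat_lit 44) n1409 (.arc (nat_lit 47) n1405 (.fin (nat_lit 224850075) (nat_lit 0)))))))))
def n1416 : Nd := .arc (nat_lit 9) n1415 (.arc (nat_lit 64) n1350 (.arc (nat_lit 67) n1357 (.arc (nat_lit 70) n1354 (.fin (nat_lit 824078487) (nat_lit 0)))))
def n1417 : Nd := .arc (nat_lit 6) n1412 (.fin (nat_lit 224833691) (nat_lit 0))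
def n1418 : Nd := .arc (nat_lit 3) n1416 (.arc (nat_lit 6) n1417 (.fin (nat_lit 824086681) (nat_lit 0)))
def n1419 : Nd := .arc (nat_lit 6) n1415 (.arc (nat_lit 52) n1350 (.arc (nat_lit 55) n1354 (.arc (nat_lit 58) n1357 (.fin (nat_lit 824094873) (nat_lit 0)))))
def n1420 : Nd := .arc (nat_lit 9) n1410 (.fin (nat_lit 224817307) (nat_lit 0))
def n1421 : Nd := .arc (nat_lit 3) n1419 (.arc (nat_lit 9) n1420 (.fin (nat_lit 824070295) (nat_lit 0)))
def n1422 : Nd := .arc (nat_lit 3) n1414 (.arc (nat_lit 6) n1418 (.arc (nat_lit 9) n1421 (.fin (nat_lit 224792733) (nat_lit 0))))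
def n1423 : Nd := .arc (nat_lit 6) n1413 (.arc (nat_lit 9) n1411 (.fin (nat_lit 224800925) (nat_lit 0)))
def n1424 : Nd := .arc (nat_lit 26) n1390 (.arc (nat_lit 29) n1399 (.arc (nat_lit 32) n1405 (.arc (nat_lit 35) n1409 (.arc (nat_lit 38) n1358 (.arc (nat_lit 41) n1367 (.arc (nat_lit 44) n1373 (.arc (nat_lit 47) n1377 (.fin (nat_lit 224850077) (nat_lit 0)))))))))
def n1425 : Nd := .arc (nat_lit 9) n1424 (.arc (nat_lit 64) n1382 (.arc (nat_lit 67) n1389 (.arc (nat_lit 70) n1386 (.fin (nat_lit 824078489) (nat_lit 0)))))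
def n1426 : Nd := .arc (nat_lit 6) n1410 (.fin (nat_lit 224833693) (nat_lit 0))
def n1427 : Nd := .arc (nat_lit 3) n1425 (.arc (nat_lit 6) n1426 (.fin (nat_lit 824086679) (nat_lit 0)))
def n1428 : Nd := .arc (nat_lit 6) n1424 (.arc (nat_lit 52) n1382 (.arc (nat_lit 55) n1386 (.arc (nat_lit 58) n1389 (.fin (nat_lit 824094871) (nat_lit 0)))))
def n1429 : Nd := .arc (nat_lit 9) n1412 (.fin (nat_lit 224817309) (nat_lit 0))
def n1430 : Nd := .arc (nat_lit 3) n1428 (.arc (nat_lit 9) n1429 (.fin (nat_lit 824070297) (nat_lit 0)))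
def n1431 : Nd := .arc (nat_lit 3) n1423 (.arc (nat_lit 6) n1427 (.arc (nat_lit 9) n1430 (.fin (nat_lit 224792731) (nat_lit 0))))
def n1432 : Nd := .arc (nat_lit 3) n1424 (.arc (nat_lit 40) n1382 (.arc (nat_lit 43) n1386 (.arc (nat_lit 46) n1389 (.fin (nat_lit 224841883) (nat_lit 0)))))
def n1433 : Nd := .arc (nat_lit 3) n1415 (.arc (nat_lit 40) n1350 (.arc (nat_lit 43) n1354 (.arc (nat_lit 46) n1357 (.fin (nat_lit 224841885) (nat_lit 0)))))
def n1434 : Nd := .arc (nat_lit 6) n1432 (.arc (nat_lit 9) n1433 (.fin (nat_lit 824062105) (nat_lit 0)))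
def n1435 : Nd := .arc (nat_lit 3) n1420 (.arc (nat_lit 6) n1419 (.fin (nat_lit 224825501) (nat_lit 0)))
def n1436 : Nd := .arc (nat_lit 3) n1426 (.arc (nat_lit 9) n1425 (.fin (nat_lit 224809115) (nat_lit 0)))
def n1437 : Nd := .arc (nat_lit 3) n1434 (.arc (nat_lit 6) n1435 (.arc (nat_lit 9) n1436 (.fin (nat_lit 824053911) (nat_lit 0))))
def n1438 : Nd := .arc (nat_lit 6) n1433 (.arc (nat_lit 9) n1432 (.fin (nat_lit 824062103) (nat_lit 0)))
def n1439 : Nd := .arc (nat_lit 3) n1429 (.arc (nat_lit 6) n1428 (.fin (nat_lit 224825499) (nat_lit 0)))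
def n1440 : Nd := .arc (nat_lit 3) n1417 (.arc (nat_lit 9) n1416 (.fin (nat_lit 224809117) (nat_lit 0)))
def n1441 : Nd := .arc (nat_lit 3) n1438 (.arc (nat_lit 6) n1439 (.arc (nat_lit 9) n1440 (.fin (nat_lit 824053913) (nat_lit 0))))
def n1442 : Nd := .arc (nat_lit 14) n993 (.arc (nat_lit 17) n989 (.arc (nat_lit 20) n983 (.arc (nat_lit 23) n974 (.arc (nat_lit 50) n961 (.arc (nat_lit 53) n957 (.arc (nat_lit 56) n951 (.arc (nat_lit 59) n942 (.fin (nat_lit 324726937) (nat_lit 0)))))))))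
def n1443 : Nd := .arc (nat_lit 3) n1442 (.fin (nat_lit 591057047) (nat_lit 0))
def n1444 : Nd := .arc (nat_lit 14) n989 (.arc (nat_lit 17) n993 (.arc (nat_lit 20) n974 (.arc (nat_lit 23) n983 (.arc (nat_lit 62) n961 (.arc (nat_lit 65) n957 (.arc (nat_lit 68) n942 (.arc (nat_lit 71) n951 (.fin (nat_lit 591065239) (nat_lit 0)))))))))
def n1445 : Nd := .arc (nat_lit 3) n1444 (.fin (nat_lit 324718745) (nat_lit 0))
def n1446 : Nd := .arc (nat_lit 6) n1443 (.arc (nat_lit 9) n1445 (.fin (nat_lit 124924059) (nat_lit 0)))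
def n1447 : Nd := .arc (nat_lit 14) n983 (.arc (nat_lit 17) n974 (.arc (nat_lit 20) n989 (.arc (nat_lit 23) n993 (.arc (nat_lit 26) n961 (.arc (nat_lit 29) n957 (.arc (nat_lit 32) n942 (.arc (nat_lit 35) n951 (.fin (nat_lit 124973211) (nat_lit 0)))))))))
def n1448 : Nd := .arc (nat_lit 9) n1447 (.arc (nat_lit 64) n958 (.arc (nat_lit 67) n960 (.arc (nat_lit 70) n959 (.fin (nat_lit 591032471) (nat_lit 0)))))
def n1449 : Nd := .arc (nat_lit 6) n1444 (.fin (nat_lit 124956827) (nat_lit 0))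
def n1450 : Nd := .arc (nat_lit 3) n1448 (.arc (nat_lit 6) n1449 (.fin (nat_lit 324702361) (nat_lit 0)))
def n1451 : Nd := .arc (nat_lit 6) n1447 (.arc (nat_lit 52) n958 (.arc (nat_lit 55) n959 (.arc (nat_lit 58) n960 (.fin (nat_lit 324710553) (nat_lit 0)))))
def n1452 : Nd := .arc (nat_lit 9) n1442 (.fin (nat_lit 124940443) (nat_lit 0))
def n1453 : Nd := .arc (nat_lit 3) n1451 (.arc (nat_lit 9) n1452 (.fin (nat_lit 591024279) (nat_lit 0)))
def n1454 : Nd := .arc (nat_lit 3) n1446 (.arc (nat_lit 6) n1450 (.arc (nat_lit 9) n1453 (.fin (nat_lit 191500445) (nat_lit 0))))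
def n1455 : Nd := .arc (nat_lit 6) n1445 (.arc (nat_lit 9) n1443 (.fin (nat_lit 191508637) (nat_lit 0)))
def n1456 : Nd := .arc (nat_lit 14) n974 (.arc (nat_lit 17) n983 (.arc (nat_lit 20) n993 (.arc (nat_lit 23) n989 (.arc (nat_lit 38) n961 (.arc (nat_lit 41) n957 (.arc (nat_lit 44) n951 (.arc (nat_lit 47) n942 (.fin (nat_lit 191557789) (nat_lit 0)))))))))
def n1457 : Nd := .arc (nat_lit 9) n1456 (.fin (nat_lit 324694169) (nat_lit 0))
def n1458 : Nd := .arc (nat_lit 6) n1442 (.fin (nat_lit 191541405) (nat_lit 0))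
def n1459 : Nd := .arc (nat_lit 3) n1457 (.arc (nat_lit 6) n1458 (.fin (nat_lit 591040663) (nat_lit 0)))
def n1460 : Nd := .arc (nat_lit 6) n1456 (.fin (nat_lit 591048855) (nat_lit 0))
def n1461 : Nd := .arc (nat_lit 9) n1444 (.fin (nat_lit 191525021) (nat_lit 0))
def n1462 : Nd := .arc (nat_lit 3) n1460 (.arc (nat_lit 9) n1461 (.fin (nat_lit 324685977) (nat_lit 0)))
def n1463 : Nd := .arc (nat_lit 3) n1455 (.arc (nat_lit 6) n1459 (.arc (nat_lit 9) n1462 (.fin (nat_lit 124915867) (nat_lit 0))))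
def n1464 : Nd := .arc (nat_lit 3) n1456 (.fin (nat_lit 124965019) (nat_lit 0))
def n1465 : Nd := .arc (nat_lit 3) n1447 (.arc (nat_lit 40) n958 (.arc (nat_lit 43) n959 (.arc (nat_lit 46) n960 (.fin (nat_lit 191549597) (nat_lit 0)))))
def n1466 : Nd := .arc (nat_lit 6) n1464 (.arc (nat_lit 9) n1465 (.fin (nat_lit 324677785) (nat_lit 0)))
def n1467 : Nd := .arc (nat_lit 3) n1452 (.arc (nat_lit 6) n1451 (.fin (nat_lit 191533213) (nat_lit 0)))
def n1468 : Nd := .arc (nat_lit 3) n1458 (.arc (nat_lit 9) n1457 (.fin (nat_lit 124932251) (nat_lit 0)))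
def n1469 : Nd := .arc (nat_lit 3) n1466 (.arc (nat_lit 6) n1467 (.arc (nat_lit 9) n1468 (.fin (nat_lit 591007895) (nat_lit 0))))
def n1470 : Nd := .arc (nat_lit 6) n1465 (.arc (nat_lit 9) n1464 (.fin (nat_lit 591016087) (nat_lit 0)))
def n1471 : Nd := .arc (nat_lit 3) n1461 (.arc (nat_lit 6) n1460 (.fin (nat_lit 124948635) (nat_lit 0)))
def n1472 : Nd := .arc (nat_lit 3) n1449 (.arc (nat_lit 9) n1448 (.fin (nat_lit 191516829) (nat_lit 0)))
def n1473 : Nd := .arc (nat_lit 3) n1470 (.arc (nat_lit 6) n1471 (.arc (nat_lit 9) n1472 (.fin (nat_lit 324669593) (nat_lit 0))))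
def n1474 : Nd := .arc (nat_lit 14) n1185 (.arc (nat_lit 17) n1181 (.arc (nat_lit 20) n1175 (.arc (nat_lit 23) n1166 (.arc (nat_lit 50) n1153 (.arc (nat_lit 53) n1149 (.arc (nat_lit 56) n1143 (.arc (nat_lit 59) n1134 (.fin (nat_lit 324726935) (nat_lit 0)))))))))
def n1475 : Nd := .arc (nat_lit 3) n1474 (.fin (nat_lit 591057049) (nat_lit 0))
def n1476 : Nd := .arc (nat_lit 14) n1181 (.arc (nat_lit 17) n1185 (.arc (nat_lit 20) n1166 (.arc (nat_lit 23) n1175 (.arc (nat_lit 62) n1153 (.arc (nat_lit 65) n1149 (.arc (nat_lit 68) n1134 (.arc (nat_lit 71) n1143 (.fin (nat_lit 591065241) (nat_lit 0)))))))))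
def n1477 : Nd := .arc (nat_lit 3) n1476 (.fin (nat_lit 324718743) (nat_lit 0))
def n1478 : Nd := .arc (nat_lit 6) n1475 (.arc (nat_lit 9) n1477 (.fin (nat_lit 124924061) (nat_lit 0)))
def n1479 : Nd := .arc (nat_lit 14) n1175 (.arc (nat_lit 17) n1166 (.arc (nat_lit 20) n1181 (.arc (nat_lit 23) n1185 (.arc (nat_lit 26) n1153 (.arc (nat_lit 29) n1149 (.arc (nat_lit 32) n1134 (.arc (nat_lit 35) n1143 (.fin (nat_lit 124973213) (nat_lit 0)))))))))
def n1480 : Nd := .arc (nat_lit 9) n1479 (.arc (nat_lit 64) n1150 (.arc (nat_lit 67) n1152 (.arc (nat_lit 70) n1151 (.fin (nat_lit 591032473) (nat_lit 0)))))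
def n1481 : Nd := .arc (nat_lit 6) n1476 (.fin (nat_lit 124956829) (nat_lit 0))
def n1482 : Nd := .arc (nat_lit 3) n1480 (.arc (nat_lit 6) n1481 (.fin (nat_lit 324702359) (nat_lit 0)))
def n1483 : Nd := .arc (nat_lit 6) n1479 (.arc (nat_lit 52) n1150 (.arc (nat_lit 55) n1151 (.arc (nat_lit 58) n1152 (.fin (nat_lit 324710551) (nat_lit 0)))))
def n1484 : Nd := .arc (nat_lit 9) n1474 (.fin (nat_lit 124940445) (nat_lit 0))
def n1485 : Nd := .arc (nat_lit 3) n1483 (.arc (nat_lit 9) n1484 (.fin (nat_lit 591024281) (nat_lit 0)))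
def n1486 : Nd := .arc (nat_lit 3) n1478 (.arc (nat_lit 6) n1482 (.arc (nat_lit 9) n1485 (.fin (nat_lit 191500443) (nat_lit 0))))
def n1487 : Nd := .arc (nat_lit 6) n1477 (.arc (nat_lit 9) n1475 (.fin (nat_lit 191508635) (nat_lit 0)))
def n1488 : Nd := .arc (nat_lit 14) n1166 (.arc (nat_lit 17) n1175 (.arc (nat_lit 20) n1185 (.arc (nat_lit 23) n1181 (.arc (nat_lit 38) n1153 (.arc (nat_lit 41) n1149 (.arc (nat_lit 44) n1143 (.arc (nat_lit 47) n1134 (.fin (nat_lit 191557787) (nat_lit 0)))))))))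
def n1489 : Nd := .arc (nat_lit 9) n1488 (.fin (nat_lit 324694167) (nat_lit 0))
def n1490 : Nd := .arc (nat_lit 6) n1474 (.fin (nat_lit 191541403) (nat_lit 0))
def n1491 : Nd := .arc (nat_lit 3) n1489 (.arc (nat_lit 6) n1490 (.fin (nat_lit 591040665) (nat_lit 0)))
def n1492 : Nd := .arc (nat_lit 6) n1488 (.fin (nat_lit 591048857) (nat_lit 0))
def n1493 : Nd := .arc (nat_lit 9) n1476 (.fin (nat_lit 191525019) (nat_lit 0))
def n1494 : Nd := .arc (nat_lit 3) n1492 (.arc (nat_lit 9) n1493 (.fin (nat_lit 324685975) (nat_lit 0)))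
def n1495 : Nd := .arc (nat_lit 3) n1487 (.arc (nat_lit 6) n1491 (.arc (nat_lit 9) n1494 (.fin (nat_lit 124915869) (nat_lit 0))))
def n1496 : Nd := .arc (nat_lit 3) n1479 (.arc (nat_lit 40) n1150 (.arc (nat_lit 43) n1151 (.arc (nat_lit 46) n1152 (.fin (nat_lit 191549595) (nat_lit 0)))))
def n1497 : Nd := .arc (nat_lit 3) n1488 (.fin (nat_lit 124965021) (nat_lit 0))
def n1498 : Nd := .arc (nat_lit 6) n1496 (.arc (nat_lit 9) n1497 (.fin (nat_lit 591016089) (nat_lit 0)))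
def n1499 : Nd := .arc (nat_lit 3) n1493 (.arc (nat_lit 6) n1492 (.fin (nat_lit 124948637) (nat_lit 0)))
def n1500 : Nd := .arc (nat_lit 3) n1481 (.arc (nat_lit 9) n1480 (.fin (nat_lit 191516827) (nat_lit 0)))
def n1501 : Nd := .arc (nat_lit 3) n1498 (.arc (nat_lit 6) n1499 (.arc (nat_lit 9) n1500 (.fin (nat_lit 324669591) (nat_lit 0))))
def n1502 : Nd := .arc (nat_lit 6) n1497 (.arc (nat_lit 9) n1496 (.fin (nat_lit 324677783) (nat_lit 0)))
def n1503 : Nd := .arc (nat_lit 3) n1484 (.arc (nat_lit 6) n1483 (.fin (nat_lit 191533211) (nat_lit 0)))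
def n1504 : Nd := .arc (nat_lit 3) n1490 (.arc (nat_lit 9) n1489 (.fin (nat_lit 124932253) (nat_lit 0)))
def n1505 : Nd := .arc (nat_lit 3) n1502 (.arc (nat_lit 6) n1503 (.arc (nat_lit 9) n1504 (.fin (nat_lit 591007897) (nat_lit 0))))
def n1506 : Nd := .arc (nat_lit 14) n1422 (.arc (nat_lit 17) n1431 (.arc (nat_lit 20) n1437 (.arc (nat_lit 23) n1441 (.arc (nat_lit 26) n1454 (.arc (nat_lit 29) n1463 (.arc (nat_lit 32) n1469 (.arc (nat_lit 35) n1473 (.arc (nat_lit 38) n1486 (.arc (nat_lit 41) n1495 (.arc (nat_lit 44) n1501 (.arc (nat_lit 47) n1505 (.fin (nat_lit 241365147) (nat_lit 0)))))))))))))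
def n1507 : Nd := .arc (nat_lit 3) n1506 (.arc (nat_lit 40) n1446 (.arc (nat_lit 43) n1450 (.arc (nat_lit 46) n1453 (.fin (nat_lit 241356957) (nat_lit 0)))))
def n1508 : Nd := .arc (nat_lit 14) n1431 (.arc (nat_lit 17) n1422 (.arc (nat_lit 20) n1441 (.arc (nat_lit 23) n1437 (.arc (nat_lit 26) n1486 (.arc (nat_lit 29) n1495 (.arc (nat_lit 32) n1505 (.arc (nat_lit 35) n1501 (.arc (nat_lit 38) n1454 (.arc (nat_lit 41) n1463 (.arc (nat_lit 44) n1473 (.arc (nat_lit 47) n1469 (.fin (nat_lit 241365149) (nat_lit 0)))))))))))))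
def n1509 : Nd := .arc (nat_lit 3) n1508 (.arc (nat_lit 40) n1478 (.arc (nat_lit 43) n1482 (.arc (nat_lit 46) n1485 (.fin (nat_lit 241356955) (nat_lit 0)))))
def n1510 : Nd := .arc (nat_lit 6) n1507 (.arc (nat_lit 9) n1509 (.fin (nat_lit 840577175) (nat_lit 0)))
def n1511 : Nd := .arc (nat_lit 14) n1437 (.arc (nat_lit 17) n1441 (.arc (nat_lit 20) n1431 (.arc (nat_lit 23) n1422 (.arc (nat_lit 50) n1486 (.arc (nat_lit 53) n1495 (.arc (nat_lit 56) n1501 (.arc (nat_lit 59) n1505 (.arc (nat_lit 62) n1454 (.arc (nat_lit 65) n1463 (.arc (nat_lit 68) n1469 (.arc (nat_lit 71) n1473 (.fin (nat_lit 840626327) (nat_lit 0)))))))))))))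
def n1512 : Nd := .arc (nat_lit 9) n1511 (.fin (nat_lit 241332381) (nat_lit 0))
def n1513 : Nd := .arc (nat_lit 6) n1508 (.arc (nat_lit 52) n1478 (.arc (nat_lit 55) n1482 (.arc (nat_lit 58) n1485 (.fin (nat_lit 840609943) (nat_lit 0)))))
def n1514 : Nd := .arc (nat_lit 3) n1512 (.arc (nat_lit 6) n1513 (.fin (nat_lit 241340571) (nat_lit 0)))
def n1515 : Nd := .arc (nat_lit 6) n1511 (.fin (nat_lit 241348763) (nat_lit 0))
def n1516 : Nd := .arc (nat_lit 9) n1506 (.arc (nat_lit 64) n1446 (.arc (nat_lit 67) n1453 (.arc (nat_lit 70) n1450 (.fin (nat_lit 840593559) (nat_lit 0)))))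
def n1517 : Nd := .arc (nat_lit 3) n1515 (.arc (nat_lit 9) n1516 (.fin (nat_lit 241324189) (nat_lit 0)))
def n1518 : Nd := .arc (nat_lit 3) n1510 (.arc (nat_lit 6) n1514 (.arc (nat_lit 9) n1517 (.fin (nat_lit 840568985) (nat_lit 0))))
def n1519 : Nd := .arc (nat_lit 6) n1509 (.arc (nat_lit 9) n1507 (.fin (nat_lit 840577177) (nat_lit 0)))
def n1520 : Nd := .arc (nat_lit 14) n1441 (.arc (nat_lit 17) n1437 (.arc (nat_lit 20) n1422 (.arc (nat_lit 23) n1431 (.arc (nat_lit 50) n1454 (.arc (nat_lit 53) n1463 (.arc (nat_lit 56) n1473 (.arc (nat_lit 59) n1469 (.arc (nat_lit 62) n1486 (.arc (nat_lit 65) n1495 (.arc (nat_lit 68) n1505 (.arc (nat_lit 71) n1501 (.fin (nat_lit 840626329) (nat_lit 0)))))))))))))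
def n1521 : Nd := .arc (nat_lit 9) n1520 (.fin (nat_lit 241332379) (nat_lit 0))
def n1522 : Nd := .arc (nat_lit 6) n1506 (.arc (nat_lit 52) n1446 (.arc (nat_lit 55) n1450 (.arc (nat_lit 58) n1453 (.fin (nat_lit 840609945) (nat_lit 0)))))
def n1523 : Nd := .arc (nat_lit 3) n1521 (.arc (nat_lit 6) n1522 (.fin (nat_lit 241340573) (nat_lit 0)))
def n1524 : Nd := .arc (nat_lit 6) n1520 (.fin (nat_lit 241348765) (nat_lit 0))
def n1525 : Nd := .arc (nat_lit 9) n1508 (.arc (nat_lit 64) n1478 (.arc (nat_lit 67) n1485 (.arc (nat_lit 70) n1482 (.fin (nat_lit 840593561) (nat_lit 0)))))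
def n1526 : Nd := .arc (nat_lit 3) n1524 (.arc (nat_lit 9) n1525 (.fin (nat_lit 241324187) (nat_lit 0)))
def n1527 : Nd := .arc (nat_lit 3) n1519 (.arc (nat_lit 6) n1523 (.arc (nat_lit 9) n1526 (.fin (nat_lit 840568983) (nat_lit 0))))
def n1528 : Nd := .arc (nat_lit 3) n1511 (.fin (nat_lit 840618137) (nat_lit 0))
def n1529 : Nd := .arc (nat_lit 3) n1520 (.fin (nat_lit 840618135) (nat_lit 0))
def n1530 : Nd := .arc (nat_lit 6) n1528 (.arc (nat_lit 9) n1529 (.fin (nat_lit 241315997) (nat_lit 0)))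
def n1531 : Nd := .arc (nat_lit 3) n1525 (.arc (nat_lit 6) n1524 (.fin (nat_lit 840601751) (nat_lit 0)))
def n1532 : Nd := .arc (nat_lit 3) n1513 (.arc (nat_lit 9) n1512 (.fin (nat_lit 840585369) (nat_lit 0)))
def n1533 : Nd := .arc (nat_lit 3) n1530 (.arc (nat_lit 6) n1531 (.arc (nat_lit 9) n1532 (.fin (nat_lit 241307803) (nat_lit 0))))
def n1534 : Nd := .arc (nat_lit 6) n1529 (.arc (nat_lit 9) n1528 (.fin (nat_lit 241315995) (nat_lit 0)))
def n1535 : Nd := .arc (nat_lit 3) n1516 (.arc (nat_lit 6) n1515 (.fin (nat_lit 840601753) (nat_lit 0)))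
def n1536 : Nd := .arc (nat_lit 3) n1522 (.arc (nat_lit 9) n1521 (.fin (nat_lit 840585367) (nat_lit 0)))
def n1537 : Nd := .arc (nat_lit 3) n1534 (.arc (nat_lit 6) n1535 (.arc (nat_lit 9) n1536 (.fin (nat_lit 241307805) (nat_lit 0))))
def n1538 : Nd := .arc (nat_lit 50) n1399 (.arc (nat_lit 53) n1390 (.arc (nat_lit 56) n1405 (.arc (nat_lit 59) n1409 (.arc (nat_lit 62) n1367 (.arc (nat_lit 65) n1358 (.arc (nat_lit 68) n1373 (.arc (nat_lit 71) n1377 (.fin (nat_lit 840888473) (nat_lit 0)))))))))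
def n1539 : Nd := .arc (nat_lit 3) n1538 (.fin (nat_lit 840880279) (nat_lit 0))
def n1540 : Nd := .arc (nat_lit 50) n1367 (.arc (nat_lit 53) n1358 (.arc (nat_lit 56) n1377 (.arc (nat_lit 59) n1373 (.arc (nat_lit 62) n1399 (.arc (nat_lit 65) n1390 (.arc (nat_lit 68) n1409 (.arc (nat_lit 71) n1405 (.fin (nat_lit 840888471) (nat_lit 0)))))))))
def n1541 : Nd := .arc (nat_lit 3) n1540 (.fin (nat_lit 840880281) (nat_lit 0))
def n1542 : Nd := .arc (nat_lit 6) n1539 (.arc (nat_lit 9) n1541 (.fin (nat_lit 241578139) (nat_lit 0)))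
def n1543 : Nd := .arc (nat_lit 26) n1399 (.arc (nat_lit 29) n1390 (.arc (nat_lit 32) n1409 (.arc (nat_lit 35) n1405 (.arc (nat_lit 38) n1367 (.arc (nat_lit 41) n1358 (.arc (nat_lit 44) n1377 (.arc (nat_lit 47) n1373 (.fin (nat_lit 241627291) (nat_lit 0)))))))))
def n1544 : Nd := .arc (nat_lit 9) n1543 (.arc (nat_lit 64) n1391 (.arc (nat_lit 67) n1398 (.arc (nat_lit 70) n1395 (.fin (nat_lit 840855703) (nat_lit 0)))))
def n1545 : Nd := .arc (nat_lit 6) n1540 (.fin (nat_lit 241610907) (nat_lit 0))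
def n1546 : Nd := .arc (nat_lit 3) n1544 (.arc (nat_lit 6) n1545 (.fin (nat_lit 840863897) (nat_lit 0)))
def n1547 : Nd := .arc (nat_lit 6) n1543 (.arc (nat_lit 52) n1391 (.arc (nat_lit 55) n1395 (.arc (nat_lit 58) n1398 (.fin (nat_lit 840872089) (nat_lit 0)))))
def n1548 : Nd := .arc (nat_lit 9) n1538 (.fin (nat_lit 241594523) (nat_lit 0))
def n1549 : Nd := .arc (nat_lit 3) n1547 (.arc (nat_lit 9) n1548 (.fin (nat_lit 840847511) (nat_lit 0)))
def n1550 : Nd := .arc (nat_lit 3) n1542 (.arc (nat_lit 6) n1546 (.arc (nat_lit 9) n1549 (.fin (nat_lit 241569949) (nat_lit 0))))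
def n1551 : Nd := .arc (nat_lit 6) n1541 (.arc (nat_lit 9) n1539 (.fin (nat_lit 241578141) (nat_lit 0)))
def n1552 : Nd := .arc (nat_lit 26) n1367 (.arc (nat_lit 29) n1358 (.arc (nat_lit 32) n1373 (.arc (nat_lit 35) n1377 (.arc (nat_lit 38) n1399 (.arc (nat_lit 41) n1390 (.arc (nat_lit 44) n1405 (.arc (nat_lit 47) n1409 (.fin (nat_lit 241627293) (nat_lit 0)))))))))
def n1553 : Nd := .arc (nat_lit 9) n1552 (.arc (nat_lit 64) n1359 (.arc (nat_lit 67) n1366 (.arc (nat_lit 70) n1363 (.fin (nat_lit 840855705) (nat_lit 0)))))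
def n1554 : Nd := .arc (nat_lit 6) n1538 (.fin (nat_lit 241610909) (nat_lit 0))
def n1555 : Nd := .arc (nat_lit 3) n1553 (.arc (nat_lit 6) n1554 (.fin (nat_lit 840863895) (nat_lit 0)))
def n1556 : Nd := .arc (nat_lit 6) n1552 (.arc (nat_lit 52) n1359 (.arc (nat_lit 55) n1363 (.arc (nat_lit 58) n1366 (.fin (nat_lit 840872087) (nat_lit 0)))))
def n1557 : Nd := .arc (nat_lit 9) n1540 (.fin (nat_lit 241594525) (nat_lit 0))
def n1558 : Nd := .arc (nat_lit 3) n1556 (.arc (nat_lit 9) n1557 (.fin (nat_lit 840847513) (nat_lit 0)))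
def n1559 : Nd := .arc (nat_lit 3) n1551 (.arc (nat_lit 6) n1555 (.arc (nat_lit 9) n1558 (.fin (nat_lit 241569947) (nat_lit 0))))
def n1560 : Nd := .arc (nat_lit 3) n1552 (.arc (nat_lit 40) n1359 (.arc (nat_lit 43) n1363 (.arc (nat_lit 46) n1366 (.fin (nat_lit 241619099) (nat_lit 0)))))
def n1561 : Nd := .arc (nat_lit 3) n1543 (.arc (nat_lit 40) n1391 (.arc (nat_lit 43) n1395 (.arc (nat_lit 46) n1398 (.fin (nat_lit 241619101) (nat_lit 0)))))
def n1562 : Nd := .arc (nat_lit 6) n1560 (.arc (nat_lit 9) n1561 (.fin (nat_lit 840839321) (nat_lit 0)))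
def n1563 : Nd := .arc (nat_lit 3) n1548 (.arc (nat_lit 6) n1547 (.fin (nat_lit 241602717) (nat_lit 0)))
def n1564 : Nd := .arc (nat_lit 3) n1554 (.arc (nat_lit 9) n1553 (.fin (nat_lit 241586331) (nat_lit 0)))
def n1565 : Nd := .arc (nat_lit 3) n1562 (.arc (nat_lit 6) n1563 (.arc (nat_lit 9) n1564 (.fin (nat_lit 840831127) (nat_lit 0))))
def n1566 : Nd := .arc (nat_lit 6) n1561 (.arc (nat_lit 9) n1560 (.fin (nat_lit 840839319) (nat_lit 0)))
def n1567 : Nd := .arc (nat_lit 3) n1557 (.arc (nat_lit 6) n1556 (.fin (nat_lit 241602715) (nat_lit 0)))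
def n1568 : Nd := .arc (nat_lit 3) n1545 (.arc (nat_lit 9) n1544 (.fin (nat_lit 241586333) (nat_lit 0)))
def n1569 : Nd := .arc (nat_lit 3) n1566 (.arc (nat_lit 6) n1567 (.arc (nat_lit 9) n1568 (.fin (nat_lit 840831129) (nat_lit 0))))
def n1570 : Nd := .arc (nat_lit 14) n1281 (.arc (nat_lit 17) n1277 (.arc (nat_lit 20) n1271 (.arc (nat_lit 23) n1262 (.arc (nat_lit 50) n1249 (.arc (nat_lit 53) n1245 (.arc (nat_lit 56) n1239 (.arc (nat_lit 59) n1230 (.fin (nat_lit 593162393) (nat_lit 0)))))))))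
def n1571 : Nd := .arc (nat_lit 3) n1570 (.fin (nat_lit 322621591) (nat_lit 0))
def n1572 : Nd := .arc (nat_lit 14) n1277 (.arc (nat_lit 17) n1281 (.arc (nat_lit 20) n1262 (.arc (nat_lit 23) n1271 (.arc (nat_lit 62) n1249 (.arc (nat_lit 65) n1245 (.arc (nat_lit 68) n1230 (.arc (nat_lit 71) n1239 (.fin (nat_lit 322629783) (nat_lit 0)))))))))
def n1573 : Nd := .arc (nat_lit 3) n1572 (.fin (nat_lit 593154201) (nat_lit 0))
def n1574 : Nd := .arc (nat_lit 6) n1571 (.arc (nat_lit 9) n1573 (.fin (nat_lit 192032923) (nat_lit 0)))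
def n1575 : Nd := .arc (nat_lit 14) n1271 (.arc (nat_lit 17) n1262 (.arc (nat_lit 20) n1277 (.arc (nat_lit 23) n1281 (.arc (nat_lit 26) n1249 (.arc (nat_lit 29) n1245 (.arc (nat_lit 32) n1230 (.arc (nat_lit 35) n1239 (.fin (nat_lit 192082075) (nat_lit 0)))))))))
def n1576 : Nd := .arc (nat_lit 9) n1575 (.arc (nat_lit 64) n1246 (.arc (nat_lit 67) n1248 (.arc (nat_lit 70) n1247 (.fin (nat_lit 322597015) (nat_lit 0)))))
def n1577 : Nd := .arc (nat_lit 6) n1572 (.fin (nat_lit 192065691) (nat_lit 0))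
def n1578 : Nd := .arc (nat_lit 3) n1576 (.arc (nat_lit 6) n1577 (.fin (nat_lit 593137817) (nat_lit 0)))
def n1579 : Nd := .arc (nat_lit 6) n1575 (.arc (nat_lit 52) n1246 (.arc (nat_lit 55) n1247 (.arc (nat_lit 58) n1248 (.fin (nat_lit 593146009) (nat_lit 0)))))
def n1580 : Nd := .arc (nat_lit 9) n1570 (.fin (nat_lit 192049307) (nat_lit 0))
def n1581 : Nd := .arc (nat_lit 3) n1579 (.arc (nat_lit 9) n1580 (.fin (nat_lit 322588823) (nat_lit 0)))
def n1582 : Nd := .arc (nat_lit 3) n1574 (.arc (nat_lit 6) n1578 (.arc (nat_lit 9) n1581 (.fin (nat_lit 124391581) (nat_lit 0))))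
def n1583 : Nd := .arc (nat_lit 6) n1573 (.arc (nat_lit 9) n1571 (.fin (nat_lit 124399773) (nat_lit 0)))
def n1584 : Nd := .arc (nat_lit 14) n1262 (.arc (nat_lit 17) n1271 (.arc (nat_lit 20) n1281 (.arc (nat_lit 23) n1277 (.arc (nat_lit 38) n1249 (.arc (nat_lit 41) n1245 (.arc (nat_lit 44) n1239 (.arc (nat_lit 47) n1230 (.fin (nat_lit 124448925) (nat_lit 0)))))))))
def n1585 : Nd := .arc (nat_lit 9) n1584 (.fin (nat_lit 593129625) (nat_lit 0))
def n1586 : Nd := .arc (nat_lit 6) n1570 (.fin (nat_lit 124432541) (nat_lit 0))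
def n1587 : Nd := .arc (nat_lit 3) n1585 (.arc (nat_lit 6) n1586 (.fin (nat_lit 322605207) (nat_lit 0)))
def n1588 : Nd := .arc (nat_lit 6) n1584 (.fin (nat_lit 322613399) (nat_lit 0))
def n1589 : Nd := .arc (nat_lit 9) n1572 (.fin (nat_lit 124416157) (nat_lit 0))
def n1590 : Nd := .arc (nat_lit 3) n1588 (.arc (nat_lit 9) n1589 (.fin (nat_lit 593121433) (nat_lit 0)))
def n1591 : Nd := .arc (nat_lit 3) n1583 (.arc (nat_lit 6) n1587 (.arc (nat_lit 9) n1590 (.fin (nat_lit 192024731) (nat_lit 0))))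
def n1592 : Nd := .arc (nat_lit 3) n1584 (.fin (nat_lit 192073883) (nat_lit 0))
def n1593 : Nd := .arc (nat_lit 3) n1575 (.arc (nat_lit 40) n1246 (.arc (nat_lit 43) n1247 (.arc (nat_lit 46) n1248 (.fin (nat_lit 124440733) (nat_lit 0)))))
def n1594 : Nd := .arc (nat_lit 6) n1592 (.arc (nat_lit 9) n1593 (.fin (nat_lit 593113241) (nat_lit 0)))
def n1595 : Nd := .arc (nat_lit 3) n1580 (.arc (nat_lit 6) n1579 (.fin (nat_lit 124424349) (nat_lit 0)))
def n1596 : Nd := .arc (nat_lit 3) n1586 (.arc (nat_lit 9) n1585 (.fin (nat_lit 192041115) (nat_lit 0)))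
def n1597 : Nd := .arc (nat_lit 3) n1594 (.arc (nat_lit 6) n1595 (.arc (nat_lit 9) n1596 (.fin (nat_lit 322572439) (nat_lit 0))))
def n1598 : Nd := .arc (nat_lit 6) n1593 (.arc (nat_lit 9) n1592 (.fin (nat_lit 322580631) (nat_lit 0)))
def n1599 : Nd := .arc (nat_lit 3) n1589 (.arc (nat_lit 6) n1588 (.fin (nat_lit 192057499) (nat_lit 0)))
def n1600 : Nd := .arc (nat_lit 3) n1577 (.arc (nat_lit 9) n1576 (.fin (nat_lit 124407965) (nat_lit 0)))
def n1601 : Nd := .arc (nat_lit 3) n1598 (.arc (nat_lit 6) n1599 (.arc (nat_lit 9) n1600 (.fin (nat_lit 593105049) (nat_lit 0))))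
def n1602 : Nd := .arc (nat_lit 14) n897 (.arc (nat_lit 17) n893 (.arc (nat_lit 20) n887 (.arc (nat_lit 23) n878 (.arc (nat_lit 50) n865 (.arc (nat_lit 53) n861 (.arc (nat_lit 56) n855 (.arc (nat_lit 59) n846 (.fin (nat_lit 593162391) (nat_lit 0)))))))))
def n1603 : Nd := .arc (nat_lit 3) n1602 (.fin (nat_lit 322621593) (nat_lit 0))
def n1604 : Nd := .arc (nat_lit 14) n893 (.arc (nat_lit 17) n897 (.arc (nat_lit 20) n878 (.arc (nat_lit 23) n887 (.arc (nat_lit 62) n865 (.arc (nat_lit 65) n861 (.arc (nat_lit 68) n846 (.arc (nat_lit 71) n855 (.fin (nat_lit 322629785) (nat_lit 0)))))))))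
def n1605 : Nd := .arc (nat_lit 3) n1604 (.fin (nat_lit 593154199) (nat_lit 0))
def n1606 : Nd := .arc (nat_lit 6) n1603 (.arc (nat_lit 9) n1605 (.fin (nat_lit 192032925) (nat_lit 0)))
def n1607 : Nd := .arc (nat_lit 14) n887 (.arc (nat_lit 17) n878 (.arc (nat_lit 20) n893 (.arc (nat_lit 23) n897 (.arc (nat_lit 26) n865 (.arc (nat_lit 29) n861 (.arc (nat_lit 32) n846 (.arc (nat_lit 35) n855 (.fin (nat_lit 192082077) (nat_lit 0)))))))))
def n1608 : Nd := .arc (nat_lit 9) n1607 (.arc (nat_lit 64) n862 (.arc (nat_lit 67) n864 (.arc (nat_lit 70) n863 (.fin (nat_lit 322597017) (nat_lit 0)))))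
def n1609 : Nd := .arc (nat_lit 6) n1604 (.fin (nat_lit 192065693) (nat_lit 0))
def n1610 : Nd := .arc (nat_lit 3) n1608 (.arc (nat_lit 6) n1609 (.fin (nat_lit 593137815) (nat_lit 0)))
def n1611 : Nd := .arc (nat_lit 6) n1607 (.arc (nat_lit 52) n862 (.arc (nat_lit 55) n863 (.arc (nat_lit 58) n864 (.fin (nat_lit 593146007) (nat_lit 0)))))
def n1612 : Nd := .arc (nat_lit 9) n1602 (.fin (nat_lit 192049309) (nat_lit 0))
def n1613 : Nd := .arc (nat_lit 3) n1611 (.arc (nat_lit 9) n1612 (.fin (nat_lit 322588825) (nat_lit 0)))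
def n1614 : Nd := .arc (nat_lit 3) n1606 (.arc (nat_lit 6) n1610 (.arc (nat_lit 9) n1613 (.fin (nat_lit 124391579) (nat_lit 0))))
def n1615 : Nd := .arc (nat_lit 6) n1605 (.arc (nat_lit 9) n1603 (.fin (nat_lit 124399771) (nat_lit 0)))
def n1616 : Nd := .arc (nat_lit 14) n878 (.arc (nat_lit 17) n887 (.arc (nat_lit 20) n897 (.arc (nat_lit 23) n893 (.arc (nat_lit 38) n865 (.arc (nat_lit 41) n861 (.arc (nat_lit 44) n855 (.arc (nat_lit 47) n846 (.fin (nat_lit 124448923) (nat_lit 0)))))))))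
def n1617 : Nd := .arc (nat_lit 9) n1616 (.fin (nat_lit 593129623) (nat_lit 0))
def n1618 : Nd := .arc (nat_lit 6) n1602 (.fin (nat_lit 124432539) (nat_lit 0))
def n1619 : Nd := .arc (nat_lit 3) n1617 (.arc (nat_lit 6) n1618 (.fin (nat_lit 322605209) (nat_lit 0)))
def n1620 : Nd := .arc (nat_lit 6) n1616 (.fin (nat_lit 322613401) (nat_lit 0))
def n1621 : Nd := .arc (nat_lit 9) n1604 (.fin (nat_lit 124416155) (nat_lit 0))
def n1622 : Nd := .arc (nat_lit 3) n1620 (.arc (nat_lit 9) n1621 (.fin (nat_lit 593121431) (nat_lit 0)))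
def n1623 : Nd := .arc (nat_lit 3) n1615 (.arc (nat_lit 6) n1619 (.arc (nat_lit 9) n1622 (.fin (nat_lit 192024733) (nat_lit 0))))
def n1624 : Nd := .arc (nat_lit 3) n1607 (.arc (nat_lit 40) n862 (.arc (nat_lit 43) n863 (.arc (nat_lit 46) n864 (.fin (nat_lit 124440731) (nat_lit 0)))))
def n1625 : Nd := .arc (nat_lit 3) n1616 (.fin (nat_lit 192073885) (nat_lit 0))
def n1626 : Nd := .arc (nat_lit 6) n1624 (.arc (nat_lit 9) n1625 (.fin (nat_lit 322580633) (nat_lit 0)))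
def n1627 : Nd := .arc (nat_lit 3) n1621 (.arc (nat_lit 6) n1620 (.fin (nat_lit 192057501) (nat_lit 0)))
def n1628 : Nd := .arc (nat_lit 3) n1609 (.arc (nat_lit 9) n1608 (.fin (nat_lit 124407963) (nat_lit 0)))
def n1629 : Nd := .arc (nat_lit 3) n1626 (.arc (nat_lit 6) n1627 (.arc (nat_lit 9) n1628 (.fin (nat_lit 593105047) (nat_lit 0))))
def n1630 : Nd := .arc (nat_lit 6) n1625 (.arc (nat_lit 9) n1624 (.fin (nat_lit 593113239) (nat_lit 0)))
def n1631 : Nd := .arc (nat_lit 3) n1612 (.arc (nat_lit 6) n1611 (.fin (nat_lit 124424347) (nat_lit 0)))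
def n1632 : Nd := .arc (nat_lit 3) n1618 (.arc (nat_lit 9) n1617 (.fin (nat_lit 192041117) (nat_lit 0)))
def n1633 : Nd := .arc (nat_lit 3) n1630 (.arc (nat_lit 6) n1631 (.arc (nat_lit 9) n1632 (.fin (nat_lit 322572441) (nat_lit 0))))
def n1634 : Nd := .arc (nat_lit 14) n1550 (.arc (nat_lit 17) n1559 (.arc (nat_lit 20) n1565 (.arc (nat_lit 23) n1569 (.arc (nat_lit 26) n1582 (.arc (nat_lit 29) n1591 (.arc (nat_lit 32) n1597 (.arc (nat_lit 35) n1601 (.arc (nat_lit 38) n1614 (.arc (nat_lit 41) n1623 (.arc (nat_lit 44) n1629 (.arc (nat_lit 47) n1633 (.fin (nat_lit 224587931) (nat_lit 0)))))))))))))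
def n1635 : Nd := .arc (nat_lit 3) n1634 (.arc (nat_lit 40) n1574 (.arc (nat_lit 43) n1578 (.arc (nat_lit 46) n1581 (.fin (nat_lit 224579741) (nat_lit 0)))))
def n1636 : Nd := .arc (nat_lit 14) n1559 (.arc (nat_lit 17) n1550 (.arc (nat_lit 20) n1569 (.arc (nat_lit 23) n1565 (.arc (nat_lit 26) n1614 (.arc (nat_lit 29) n1623 (.arc (nat_lit 32) n1633 (.arc (nat_lit 35) n1629 (.arc (nat_lit 38) n1582 (.arc (nat_lit 41) n1591 (.arc (nat_lit 44) n1601 (.arc (nat_lit 47) n1597 (.fin (nat_lit 224587933) (nat_lit 0)))))))))))))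
def n1637 : Nd := .arc (nat_lit 3) n1636 (.arc (nat_lit 40) n1606 (.arc (nat_lit 43) n1610 (.arc (nat_lit 46) n1613 (.fin (nat_lit 224579739) (nat_lit 0)))))
def n1638 : Nd := .arc (nat_lit 6) n1635 (.arc (nat_lit 9) n1637 (.fin (nat_lit 823799959) (nat_lit 0)))
def n1639 : Nd := .arc (nat_lit 14) n1565 (.arc (nat_lit 17) n1569 (.arc (nat_lit 20) n1559 (.arc (nat_lit 23) n1550 (.arc (nat_lit 50) n1614 (.arc (nat_lit 53) n1623 (.arc (nat_lit 56) n1629 (.arc (nat_lit 59) n1633 (.arc (nat_lit 62) n1582 (.arc (nat_lit 65) n1591 (.arc (nat_lit 68) n1597 (.arc (nat_lit 71) n1601 (.fin (nat_lit 823849111) (nat_lit 0)))))))))))))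
def n1640 : Nd := .arc (nat_lit 9) n1639 (.fin (nat_lit 224555165) (nat_lit 0))
def n1641 : Nd := .arc (nat_lit 6) n1636 (.arc (nat_lit 52) n1606 (.arc (nat_lit 55) n1610 (.arc (nat_lit 58) n1613 (.fin (nat_lit 823832727) (nat_lit 0)))))
def n1642 : Nd := .arc (nat_lit 3) n1640 (.arc (nat_lit 6) n1641 (.fin (nat_lit 224563355) (nat_lit 0)))
def n1643 : Nd := .arc (nat_lit 6) n1639 (.fin (nat_lit 224571547) (nat_lit 0))
def n1644 : Nd := .arc (nat_lit 9) n1634 (.arc (nat_lit 64) n1574 (.arc (nat_lit 67) n1581 (.arc (nat_lit 70) n1578 (.fin (nat_lit 823816343) (nat_lit 0)))))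
def n1645 : Nd := .arc (nat_lit 3) n1643 (.arc (nat_lit 9) n1644 (.fin (nat_lit 224546973) (nat_lit 0)))
def n1646 : Nd := .arc (nat_lit 3) n1638 (.arc (nat_lit 6) n1642 (.arc (nat_lit 9) n1645 (.fin (nat_lit 823791769) (nat_lit 0))))
def n1647 : Nd := .arc (nat_lit 6) n1637 (.arc (nat_lit 9) n1635 (.fin (nat_lit 823799961) (nat_lit 0)))
def n1648 : Nd := .arc (nat_lit 14) n1569 (.arc (nat_lit 17) n1565 (.arc (nat_lit 20) n1550 (.arc (nat_lit 23) n1559 (.arc (nat_lit 50) n1582 (.arc (nat_lit 53) n1591 (.arc (nat_lit 56) n1601 (.arc (nat_lit 59) n1597 (.arc (nat_lit 62) n1614 (.arc (nat_lit 65) n1623 (.arc (nat_lit 68) n1633 (.arc (nat_lit 71) n1629 (.fin (nat_lit 823849113) (nat_lit 0)))))))))))))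
def n1649 : Nd := .arc (nat_lit 9) n1648 (.fin (nat_lit 224555163) (nat_lit 0))
def n1650 : Nd := .arc (nat_lit 6) n1634 (.arc (nat_lit 52) n1574 (.arc (nat_lit 55) n1578 (.arc (nat_lit 58) n1581 (.fin (nat_lit 823832729) (nat_lit 0)))))
def n1651 : Nd := .arc (nat_lit 3) n1649 (.arc (nat_lit 6) n1650 (.fin (nat_lit 224563357) (nat_lit 0)))
def n1652 : Nd := .arc (nat_lit 6) n1648 (.fin (nat_lit 224571549) (nat_lit 0))
def n1653 : Nd := .arc (nat_lit 9) n1636 (.arc (nat_lit 64) n1606 (.arc (nat_lit 67) n1613 (.arc (nat_lit 70) n1610 (.fin (nat_lit 823816345) (nat_lit 0)))))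
def n1654 : Nd := .arc (nat_lit 3) n1652 (.arc (nat_lit 9) n1653 (.fin (nat_lit 224546971) (nat_lit 0)))
def n1655 : Nd := .arc (nat_lit 3) n1647 (.arc (nat_lit 6) n1651 (.arc (nat_lit 9) n1654 (.fin (nat_lit 823791767) (nat_lit 0))))
def n1656 : Nd := .arc (nat_lit 3) n1648 (.fin (nat_lit 823840919) (nat_lit 0))
def n1657 : Nd := .arc (nat_lit 3) n1639 (.fin (nat_lit 823840921) (nat_lit 0))
def n1658 : Nd := .arc (nat_lit 6) n1656 (.arc (nat_lit 9) n1657 (.fin (nat_lit 224538779) (nat_lit 0)))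
def n1659 : Nd := .arc (nat_lit 3) n1644 (.arc (nat_lit 6) n1643 (.fin (nat_lit 823824537) (nat_lit 0)))
def n1660 : Nd := .arc (nat_lit 3) n1650 (.arc (nat_lit 9) n1649 (.fin (nat_lit 823808151) (nat_lit 0)))
def n1661 : Nd := .arc (nat_lit 3) n1658 (.arc (nat_lit 6) n1659 (.arc (nat_lit 9) n1660 (.fin (nat_lit 224530589) (nat_lit 0))))
def n1662 : Nd := .arc (nat_lit 6) n1657 (.arc (nat_lit 9) n1656 (.fin (nat_lit 224538781) (nat_lit 0)))
def n1663 : Nd := .arc (nat_lit 3) n1653 (.arc (nat_lit 6) n1652 (.fin (nat_lit 823824535) (nat_lit 0)))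
def n1664 : Nd := .arc (nat_lit 3) n1641 (.arc (nat_lit 9) n1640 (.fin (nat_lit 823808153) (nat_lit 0)))
def n1665 : Nd := .arc (nat_lit 3) n1662 (.arc (nat_lit 6) n1663 (.arc (nat_lit 9) n1664 (.fin (nat_lit 224530587) (nat_lit 0))))
def n1666 : Nd := .arc (nat_lit 26) n1038 (.arc (nat_lit 29) n1047 (.arc (nat_lit 32) n1053 (.arc (nat_lit 35) n1057 (.arc (nat_lit 38) n1326 (.arc (nat_lit 41) n1335 (.arc (nat_lit 44) n1341 (.arc (nat_lit 47) n1345 (.arc (nat_lit 50) n1518 (.arc (nat_lit 53) n1527 (.arc (nat_lit 56) n1533 (.arc (nat_lit 59) n1537 (.arc (nat_lit 62) n1646 (.arc (nat_lit 65) n1655 (.arc (nat_lit 68) n1661 (.arc (nat_lit 71) n1665 (.fin (nat_lit 738652309) (nat_lit 0)))))))))))))))))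
def n1667 : Nd := .arc (nat_lit 3) n1666 (.arc (nat_lit 40) n1030 (.arc (nat_lit 43) n1034 (.arc (nat_lit 46) n1037 (.fin (nat_lit 470208661) (nat_lit 0)))))
def n1668 : Nd := .arc (nat_lit 26) n1326 (.arc (nat_lit 29) n1335 (.arc (nat_lit 32) n1345 (.arc (nat_lit 35) n1341 (.arc (nat_lit 38) n1038 (.arc (nat_lit 41) n1047 (.arc (nat_lit 44) n1057 (.arc (nat_lit 47) n1053 (.arc (nat_lit 50) n1646 (.arc (nat_lit 53) n1655 (.arc (nat_lit 56) n1665 (.arc (nat_lit 59) n1661 (.arc (nat_lit 62) n1518 (.arc (nat_lit 65) n1527 (.arc (nat_lit 68) n1537 (.arc (nat_lit 71) n1533 (.fin (nat_lit 470216853) (nat_lit 0)))))))))))))))))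
def n1669 : Nd := .arc (nat_lit 3) n1668 (.arc (nat_lit 40) n1318 (.arc (nat_lit 43) n1322 (.arc (nat_lit 46) n1325 (.fin (nat_lit 738644117) (nat_lit 0)))))
def n1670 : Nd := .arc (nat_lit 6) n1667 (.arc (nat_lit 9) n1669 (.fin (nat_lit 939929749) (nat_lit 0)))
def n1671 : Nd := .arc (nat_lit 26) n1518 (.arc (nat_lit 29) n1527 (.arc (nat_lit 32) n1537 (.arc (nat_lit 35) n1533 (.arc (nat_lit 38) n1646 (.arc (nat_lit 41) n1655 (.arc (nat_lit 44) n1665 (.arc (nat_lit 47) n1661 (.arc (nat_lit 50) n1326 (.arc (nat_lit 53) n1335 (.arc (nat_lit 56) n1341 (.arc (nat_lit 59) n1345 (.arc (nat_lit 62) n1038 (.arc (nat_lit 65) n1047 (.arc (nat_lit 68) n1053 (.arc (nat_lit 71) n1057 (.fin (nat_lit 939978901) (nat_lit 0)))))))))))))))))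
def n1672 : Nd := .arc (nat_lit 9) n1671 (.arc (nat_lit 64) n1510 (.arc (nat_lit 67) n1517 (.arc (nat_lit 70) n1514 (.fin (nat_lit 470184085) (nat_lit 0)))))
def n1673 : Nd := .arc (nat_lit 6) n1668 (.arc (nat_lit 52) n1318 (.arc (nat_lit 55) n1322 (.arc (nat_lit 58) n1325 (.fin (nat_lit 939962517) (nat_lit 0)))))
def n1674 : Nd := .arc (nat_lit 3) n1672 (.arc (nat_lit 6) n1673 (.fin (nat_lit 738627733) (nat_lit 0)))
def n1675 : Nd := .arc (nat_lit 6) n1671 (.arc (nat_lit 52) n1510 (.arc (nat_lit 55) n1514 (.arc (nat_lit 58) n1517 (.fin (nat_lit 738635925) (nat_lit 0)))))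
def n1676 : Nd := .arc (nat_lit 9) n1666 (.arc (nat_lit 64) n1030 (.arc (nat_lit 67) n1037 (.arc (nat_lit 70) n1034 (.fin (nat_lit 939946133) (nat_lit 0)))))
def n1677 : Nd := .arc (nat_lit 3) n1675 (.arc (nat_lit 9) n1676 (.fin (nat_lit 470175893) (nat_lit 0)))
def n1678 : Nd := .arc (nat_lit 3) n1670 (.arc (nat_lit 6) n1674 (.arc (nat_lit 9) n1677 (.fin (nat_lit 872812693) (nat_lit 0))))
def n1679 : Nd := .arc (nat_lit 6) n1669 (.arc (nat_lit 9) n1667 (.fin (nat_lit 872820885) (nat_lit 0)))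
def n1680 : Nd := .arc (nat_lit 26) n1646 (.arc (nat_lit 29) n1655 (.arc (nat_lit 32) n1661 (.arc (nat_lit 35) n1665 (.arc (nat_lit 38) n1518 (.arc (nat_lit 41) n1527 (.arc (nat_lit 44) n1533 (.arc (nat_lit 47) n1537 (.arc (nat_lit 50) n1038 (.arc (nat_lit 53) n1047 (.arc (nat_lit 56) n1057 (.arc (nat_lit 59) n1053 (.arc (nat_lit 62) n1326 (.arc (nat_lit 65) n1335 (.arc (nat_lit 68) n1345 (.arc (nat_lit 71) n1341 (.fin (nat_lit 872870037) (nat_lit 0)))))))))))))))))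
def n1681 : Nd := .arc (nat_lit 9) n1680 (.arc (nat_lit 64) n1638 (.arc (nat_lit 67) n1645 (.arc (nat_lit 70) n1642 (.fin (nat_lit 738619541) (nat_lit 0)))))
def n1682 : Nd := .arc (nat_lit 6) n1666 (.arc (nat_lit 52) n1030 (.arc (nat_lit 55) n1034 (.arc (nat_lit 58) n1037 (.fin (nat_lit 872853653) (nat_lit 0)))))
def n1683 : Nd := .arc (nat_lit 3) n1681 (.arc (nat_lit 6) n1682 (.fin (nat_lit 470192277) (nat_lit 0)))
def n1684 : Nd := .arc (nat_lit 6) n1680 (.arc (nat_lit 52) n1638 (.arc (nat_lit 55) n1642 (.arc (nat_lit 58) n1645 (.fin (nat_lit 470200469) (nat_lit 0)))))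
def n1685 : Nd := .arc (nat_lit 9) n1668 (.arc (nat_lit 64) n1318 (.arc (nat_lit 67) n1325 (.arc (nat_lit 70) n1322 (.fin (nat_lit 872837269) (nat_lit 0)))))
def n1686 : Nd := .arc (nat_lit 3) n1684 (.arc (nat_lit 9) n1685 (.fin (nat_lit 738611349) (nat_lit 0)))
def n1687 : Nd := .arc (nat_lit 3) n1679 (.arc (nat_lit 6) n1683 (.arc (nat_lit 9) n1686 (.fin (nat_lit 939921557) (nat_lit 0))))
def n1688 : Nd := .arc (nat_lit 3) n1680 (.arc (nat_lit 40) n1638 (.arc (nat_lit 43) n1642 (.arc (nat_lit 46) n1645 (.fin (nat_lit 939970709) (nat_lit 0)))))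
def n1689 : Nd := .arc (nat_lit 3) n1671 (.arc (nat_lit 40) n1510 (.arc (nat_lit 43) n1514 (.arc (nat_lit 46) n1517 (.fin (nat_lit 872861845) (nat_lit 0)))))
def n1690 : Nd := .arc (nat_lit 6) n1688 (.arc (nat_lit 9) n1689 (.fin (nat_lit 738603157) (nat_lit 0)))
def n1691 : Nd := .arc (nat_lit 3) n1676 (.arc (nat_lit 6) n1675 (.fin (nat_lit 872845461) (nat_lit 0)))
def n1692 : Nd := .arc (nat_lit 3) n1682 (.arc (nat_lit 9) n1681 (.fin (nat_lit 939937941) (nat_lit 0)))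
def n1693 : Nd := .arc (nat_lit 3) n1690 (.arc (nat_lit 6) n1691 (.arc (nat_lit 9) n1692 (.fin (nat_lit 470159509) (nat_lit 0))))
def n1694 : Nd := .arc (nat_lit 6) n1689 (.arc (nat_lit 9) n1688 (.fin (nat_lit 470167701) (nat_lit 0)))
def n1695 : Nd := .arc (nat_lit 3) n1685 (.arc (nat_lit 6) n1684 (.fin (nat_lit 939954325) (nat_lit 0)))
def n1696 : Nd := .arc (nat_lit 3) n1673 (.arc (nat_lit 9) n1672 (.fin (nat_lit 872829077) (nat_lit 0)))
def n1697 : Nd := .arc (nat_lit 3) n1694 (.arc (nat_lit 6) n1695 (.arc (nat_lit 9) n1696 (.fin (nat_lit 738594965) (nat_lit 0))))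
def n1698 : Nd := .arc (nat_lit 26) n1373 (.arc (nat_lit 29) n1377 (.arc (nat_lit 32) n1358 (.arc (nat_lit 35) n1367 (.arc (nat_lit 38) n1405 (.arc (nat_lit 41) n1409 (.arc (nat_lit 44) n1390 (.arc (nat_lit 47) n1399 (.fin (nat_lit 476508309) (nat_lit 0)))))))))
def n1699 : Nd := .arc (nat_lit 3) n1698 (.arc (nat_lit 40) n1370 (.arc (nat_lit 43) n1371 (.arc (nat_lit 46) n1372 (.fin (nat_lit 744935573) (nat_lit 0)))))
def n1700 : Nd := .arc (nat_lit 26) n1405 (.arc (nat_lit 29) n1409 (.arc (nat_lit 32) n1399 (.arc (nat_lit 35) n1390 (.arc (nat_lit 38) n1373 (.arc (nat_lit 41) n1377 (.arc (nat_lit 44) n1367 (.arc (nat_lit 47) n1358 (.fin (nat_lit 744943765) (nat_lit 0)))))))))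
def n1701 : Nd := .arc (nat_lit 3) n1700 (.arc (nat_lit 40) n1402 (.arc (nat_lit 43) n1403 (.arc (nat_lit 46) n1404 (.fin (nat_lit 476500117) (nat_lit 0)))))
def n1702 : Nd := .arc (nat_lit 6) n1699 (.arc (nat_lit 9) n1701 (.fin (nat_lit 874393749) (nat_lit 0)))
def n1703 : Nd := .arc (nat_lit 50) n1405 (.arc (nat_lit 53) n1409 (.arc (nat_lit 56) n1390 (.arc (nat_lit 59) n1399 (.arc (nat_lit 62) n1373 (.arc (nat_lit 65) n1377 (.arc (nat_lit 68) n1358 (.arc (nat_lit 71) n1367 (.fin (nat_lit 874442901) (nat_lit 0)))))))))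
def n1704 : Nd := .arc (nat_lit 9) n1703 (.fin (nat_lit 744910997) (nat_lit 0))
def n1705 : Nd := .arc (nat_lit 6) n1700 (.arc (nat_lit 52) n1402 (.arc (nat_lit 55) n1403 (.arc (nat_lit 58) n1404 (.fin (nat_lit 874426517) (nat_lit 0)))))
def n1706 : Nd := .arc (nat_lit 3) n1704 (.arc (nat_lit 6) n1705 (.fin (nat_lit 476483733) (nat_lit 0)))
def n1707 : Nd := .arc (nat_lit 6) n1703 (.fin (nat_lit 476491925) (nat_lit 0))
def n1708 : Nd := .arc (nat_lit 9) n1698 (.arc (nat_lit 64) n1370 (.arc (nat_lit 67) n1372 (.arc (nat_lit 70) n1371 (.fin (nat_lit 874410133) (nat_lit 0)))))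
def n1709 : Nd := .arc (nat_lit 3) n1707 (.arc (nat_lit 9) n1708 (.fin (nat_lit 744902805) (nat_lit 0)))
def n1710 : Nd := .arc (nat_lit 3) n1702 (.arc (nat_lit 6) n1706 (.arc (nat_lit 9) n1709 (.fin (nat_lit 941494421) (nat_lit 0))))
def n1711 : Nd := .arc (nat_lit 6) n1701 (.arc (nat_lit 9) n1699 (.fin (nat_lit 941502613) (nat_lit 0)))
def n1712 : Nd := .arc (nat_lit 50) n1373 (.arc (nat_lit 53) n1377 (.arc (nat_lit 56) n1367 (.arc (nat_lit 59) n1358 (.arc (nat_lit 62) n1405 (.arc (nat_lit 65) n1409 (.arc (nat_lit 68) n1399 (.arc (nat_lit 71) n1390 (.fin (nat_lit 941551765) (nat_lit 0)))))))))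
def n1713 : Nd := .arc (nat_lit 9) n1712 (.fin (nat_lit 476475541) (nat_lit 0))
def n1714 : Nd := .arc (nat_lit 6) n1698 (.arc (nat_lit 52) n1370 (.arc (nat_lit 55) n1371 (.arc (nat_lit 58) n1372 (.fin (nat_lit 941535381) (nat_lit 0)))))
def n1715 : Nd := .arc (nat_lit 3) n1713 (.arc (nat_lit 6) n1714 (.fin (nat_lit 744919189) (nat_lit 0)))
def n1716 : Nd := .arc (nat_lit 6) n1712 (.fin (nat_lit 744927381) (nat_lit 0))
def n1717 : Nd := .arc (nat_lit 9) n1700 (.arc (nat_lit 64) n1402 (.arc (nat_lit 67) n1404 (.arc (nat_lit 70) n1403 (.fin (nat_lit 941518997) (nat_lit 0)))))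
def n1718 : Nd := .arc (nat_lit 3) n1716 (.arc (nat_lit 9) n1717 (.fin (nat_lit 476467349) (nat_lit 0)))
def n1719 : Nd := .arc (nat_lit 3) n1711 (.arc (nat_lit 6) n1715 (.arc (nat_lit 9) n1718 (.fin (nat_lit 874385557) (nat_lit 0))))
def n1720 : Nd := .arc (nat_lit 3) n1703 (.fin (nat_lit 941543573) (nat_lit 0))
def n1721 : Nd := .arc (nat_lit 3) n1712 (.fin (nat_lit 874434709) (nat_lit 0))
def n1722 : Nd := .arc (nat_lit 6) n1720 (.arc (nat_lit 9) n1721 (.fin (nat_lit 744894613) (nat_lit 0)))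
def n1723 : Nd := .arc (nat_lit 3) n1717 (.arc (nat_lit 6) n1716 (.fin (nat_lit 874418325) (nat_lit 0)))
def n1724 : Nd := .arc (nat_lit 3) n1705 (.arc (nat_lit 9) n1704 (.fin (nat_lit 941510805) (nat_lit 0)))
def n1725 : Nd := .arc (nat_lit 3) n1722 (.arc (nat_lit 6) n1723 (.arc (nat_lit 9) n1724 (.fin (nat_lit 476450965) (nat_lit 0))))
def n1726 : Nd := .arc (nat_lit 6) n1721 (.arc (nat_lit 9) n1720 (.fin (nat_lit 476459157) (nat_lit 0)))
def n1727 : Nd := .arc (nat_lit 3) n1708 (.arc (nat_lit 6) n1707 (.fin (nat_lit 941527189) (nat_lit 0)))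
def n1728 : Nd := .arc (nat_lit 3) n1714 (.arc (nat_lit 9) n1713 (.fin (nat_lit 874401941) (nat_lit 0)))
def n1729 : Nd := .arc (nat_lit 3) n1726 (.arc (nat_lit 6) n1727 (.arc (nat_lit 9) n1728 (.fin (nat_lit 744886421) (nat_lit 0))))
def n1730 : Nd := .arc (nat_lit 14) n641 (.fin (nat_lit 947843221) (nat_lit 0))
def n1731 : Nd := .arc (nat_lit 3) n1730 (.fin (nat_lit 880726165) (nat_lit 0))
def n1732 : Nd := .arc (nat_lit 17) n641 (.fin (nat_lit 880734357) (nat_lit 0))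
def n1733 : Nd := .arc (nat_lit 3) n1732 (.fin (nat_lit 947835029) (nat_lit 0))
def n1734 : Nd := .arc (nat_lit 6) n1731 (.arc (nat_lit 9) n1733 (.fin (nat_lit 478032021) (nat_lit 0)))
def n1735 : Nd := .arc (nat_lit 23) n641 (.fin (nat_lit 478081173) (nat_lit 0))
def n1736 : Nd := .arc (nat_lit 9) n1735 (.fin (nat_lit 880701589) (nat_lit 0))
def n1737 : Nd := .arc (nat_lit 6) n1732 (.fin (nat_lit 478064789) (nat_lit 0))
def n1738 : Nd := .arc (nat_lit 3) n1736 (.arc (nat_lit 6) n1737 (.fin (nat_lit 947818645) (nat_lit 0)))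
def n1739 : Nd := .arc (nat_lit 6) n1735 (.fin (nat_lit 947826837) (nat_lit 0))
def n1740 : Nd := .arc (nat_lit 9) n1730 (.fin (nat_lit 478048405) (nat_lit 0))
def n1741 : Nd := .arc (nat_lit 3) n1739 (.arc (nat_lit 9) n1740 (.fin (nat_lit 880693397) (nat_lit 0)))
def n1742 : Nd := .arc (nat_lit 3) n1734 (.arc (nat_lit 6) n1738 (.arc (nat_lit 9) n1741 (.fin (nat_lit 746459285) (nat_lit 0))))
def n1743 : Nd := .arc (nat_lit 6) n1733 (.arc (nat_lit 9) n1731 (.fin (nat_lit 746467477) (nat_lit 0)))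
def n1744 : Nd := .arc (nat_lit 20) n641 (.fin (nat_lit 746516629) (nat_lit 0))
def n1745 : Nd := .arc (nat_lit 9) n1744 (.fin (nat_lit 947810453) (nat_lit 0))
def n1746 : Nd := .arc (nat_lit 6) n1730 (.fin (nat_lit 746500245) (nat_lit 0))
def n1747 : Nd := .arc (nat_lit 3) n1745 (.arc (nat_lit 6) n1746 (.fin (nat_lit 880709781) (nat_lit 0)))
def n1748 : Nd := .arc (nat_lit 6) n1744 (.fin (nat_lit 880717973) (nat_lit 0))
def n1749 : Nd := .arc (nat_lit 9) n1732 (.fin (nat_lit 746483861) (nat_lit 0))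
def n1750 : Nd := .arc (nat_lit 3) n1748 (.arc (nat_lit 9) n1749 (.fin (nat_lit 947802261) (nat_lit 0)))
def n1751 : Nd := .arc (nat_lit 3) n1743 (.arc (nat_lit 6) n1747 (.arc (nat_lit 9) n1750 (.fin (nat_lit 478023829) (nat_lit 0))))
def n1752 : Nd := .arc (nat_lit 3) n1735 (.fin (nat_lit 746508437) (nat_lit 0))
def n1753 : Nd := .arc (nat_lit 3) n1744 (.fin (nat_lit 478072981) (nat_lit 0))
def n1754 : Nd := .arc (nat_lit 6) n1752 (.arc (nat_lit 9) n1753 (.fin (nat_lit 880685205) (nat_lit 0)))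
def n1755 : Nd := .arc (nat_lit 3) n1749 (.arc (nat_lit 6) n1748 (.fin (nat_lit 478056597) (nat_lit 0)))
def n1756 : Nd := .arc (nat_lit 3) n1737 (.arc (nat_lit 9) n1736 (.fin (nat_lit 746475669) (nat_lit 0)))
def n1757 : Nd := .arc (nat_lit 3) n1754 (.arc (nat_lit 6) n1755 (.arc (nat_lit 9) n1756 (.fin (nat_lit 947785877) (nat_lit 0))))
def n1758 : Nd := .arc (nat_lit 6) n1753 (.arc (nat_lit 9) n1752 (.fin (nat_lit 947794069) (nat_lit 0)))
def n1759 : Nd := .arc (nat_lit 3) n1740 (.arc (nat_lit 6) n1739 (.fin (nat_lit 746492053) (nat_lit 0)))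
def n1760 : Nd := .arc (nat_lit 3) n1746 (.arc (nat_lit 9) n1745 (.fin (nat_lit 478040213) (nat_lit 0)))
def n1761 : Nd := .arc (nat_lit 3) n1758 (.arc (nat_lit 6) n1759 (.arc (nat_lit 9) n1760 (.fin (nat_lit 880677013) (nat_lit 0))))
def n1762 : Nd := .arc (nat_lit 50) n1742 (.arc (nat_lit 53) n1751 (.arc (nat_lit 56) n1757 (.arc (nat_lit 59) n1761 (.fin (nat_lit 190771357) (nat_lit 0)))))
def n1763 : Nd := .arc (nat_lit 3) n1762 (.fin (nat_lit 121557147) (nat_lit 0))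
def n1764 : Nd := .arc (nat_lit 62) n1742 (.arc (nat_lit 65) n1751 (.arc (nat_lit 68) n1761 (.arc (nat_lit 71) n1757 (.fin (nat_lit 121565339) (nat_lit 0)))))
def n1765 : Nd := .arc (nat_lit 3) n1764 (.fin (nat_lit 190763165) (nat_lit 0))
def n1766 : Nd := .arc (nat_lit 6) n1763 (.arc (nat_lit 9) n1765 (.fin (nat_lit 326512793) (nat_lit 0)))
def n1767 : Nd := .arc (nat_lit 26) n1742 (.arc (nat_lit 29) n1751 (.arc (nat_lit 32) n1761 (.arc (nat_lit 35) n1757 (.fin (nat_lit 326561945) (nat_lit 0)))))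
def n1768 : Nd := .arc (nat_lit 9) n1767 (.arc (nat_lit 64) n1734 (.arc (nat_lit 67) n1741 (.arc (nat_lit 70) n1738 (.fin (nat_lit 121532571) (nat_lit 0)))))
def n1769 : Nd := .arc (nat_lit 6) n1764 (.fin (nat_lit 326545561) (nat_lit 0))
def n1770 : Nd := .arc (nat_lit 3) n1768 (.arc (nat_lit 6) n1769 (.fin (nat_lit 190746781) (nat_lit 0)))
def n1771 : Nd := .arc (nat_lit 6) n1767 (.arc (nat_lit 52) n1734 (.arc (nat_lit 55) n1738 (.arc (nat_lit 58) n1741 (.fin (nat_lit 190754973) (nat_lit 0)))))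
def n1772 : Nd := .arc (nat_lit 9) n1762 (.fin (nat_lit 326529177) (nat_lit 0))
def n1773 : Nd := .arc (nat_lit 3) n1771 (.arc (nat_lit 9) n1772 (.fin (nat_lit 121524379) (nat_lit 0)))
def n1774 : Nd := .arc (nat_lit 3) n1766 (.arc (nat_lit 6) n1770 (.arc (nat_lit 9) n1773 (.fin (nat_lit 594415767) (nat_lit 0))))
def n1775 : Nd := .arc (nat_lit 6) n1765 (.arc (nat_lit 9) n1763 (.fin (nat_lit 594423959) (nat_lit 0)))
def n1776 : Nd := .arc (nat_lit 38) n1742 (.arc (nat_lit 41) n1751 (.arc (nat_lit 44) n1757 (.arc (nat_lit 47) n1761 (.fin (nat_lit 594473111) (nat_lit 0)))))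
def n1777 : Nd := .arc (nat_lit 9) n1776 (.fin (nat_lit 190738589) (nat_lit 0))
def n1778 : Nd := .arc (nat_lit 6) n1762 (.fin (nat_lit 594456727) (nat_lit 0))
def n1779 : Nd := .arc (nat_lit 3) n1777 (.arc (nat_lit 6) n1778 (.fin (nat_lit 121540763) (nat_lit 0)))
def n1780 : Nd := .arc (nat_lit 6) n1776 (.fin (nat_lit 121548955) (nat_lit 0))
def n1781 : Nd := .arc (nat_lit 9) n1764 (.fin (nat_lit 594440343) (nat_lit 0))
def n1782 : Nd := .arc (nat_lit 3) n1780 (.arc (nat_lit 9) n1781 (.fin (nat_lit 190730397) (nat_lit 0)))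
def n1783 : Nd := .arc (nat_lit 3) n1775 (.arc (nat_lit 6) n1779 (.arc (nat_lit 9) n1782 (.fin (nat_lit 326504601) (nat_lit 0))))
def n1784 : Nd := .arc (nat_lit 3) n1776 (.fin (nat_lit 326553753) (nat_lit 0))
def n1785 : Nd := .arc (nat_lit 3) n1767 (.arc (nat_lit 40) n1734 (.arc (nat_lit 43) n1738 (.arc (nat_lit 46) n1741 (.fin (nat_lit 594464919) (nat_lit 0)))))
def n1786 : Nd := .arc (nat_lit 6) n1784 (.arc (nat_lit 9) n1785 (.fin (nat_lit 190722205) (nat_lit 0)))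
def n1787 : Nd := .arc (nat_lit 3) n1772 (.arc (nat_lit 6) n1771 (.fin (nat_lit 594448535) (nat_lit 0)))
def n1788 : Nd := .arc (nat_lit 3) n1778 (.arc (nat_lit 9) n1777 (.fin (nat_lit 326520985) (nat_lit 0)))
def n1789 : Nd := .arc (nat_lit 3) n1786 (.arc (nat_lit 6) n1787 (.arc (nat_lit 9) n1788 (.fin (nat_lit 121507995) (nat_lit 0))))
def n1790 : Nd := .arc (nat_lit 6) n1785 (.arc (nat_lit 9) n1784 (.fin (nat_lit 121516187) (nat_lit 0)))
def n1791 : Nd := .arc (nat_lit 3) n1781 (.arc (nat_lit 6) n1780 (.fin (nat_lit 326537369) (nat_lit 0)))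
def n1792 : Nd := .arc (nat_lit 3) n1769 (.arc (nat_lit 9) n1768 (.fin (nat_lit 594432151) (nat_lit 0)))
def n1793 : Nd := .arc (nat_lit 3) n1790 (.arc (nat_lit 6) n1791 (.arc (nat_lit 9) n1792 (.fin (nat_lit 190714013) (nat_lit 0))))
def n1794 : Nd := .arc (nat_lit 50) n1121 (.arc (nat_lit 53) n1117 (.arc (nat_lit 56) n1102 (.arc (nat_lit 59) n1111 (.fin (nat_lit 878637205) (nat_lit 0)))))
def n1795 : Nd := .arc (nat_lit 3) n1794 (.fin (nat_lit 943640725) (nat_lit 0))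
def n1796 : Nd := .arc (nat_lit 62) n1121 (.arc (nat_lit 65) n1117 (.arc (nat_lit 68) n1111 (.arc (nat_lit 71) n1102 (.fin (nat_lit 943648917) (nat_lit 0)))))
def n1797 : Nd := .arc (nat_lit 3) n1796 (.fin (nat_lit 878629013) (nat_lit 0))
def n1798 : Nd := .arc (nat_lit 6) n1795 (.arc (nat_lit 9) n1797 (.fin (nat_lit 745943189) (nat_lit 0)))
def n1799 : Nd := .arc (nat_lit 26) n1121 (.arc (nat_lit 29) n1117 (.arc (nat_lit 32) n1111 (.arc (nat_lit 35) n1102 (.fin (nat_lit 745992341) (nat_lit 0)))))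
def n1800 : Nd := .arc (nat_lit 9) n1799 (.arc (nat_lit 64) n1118 (.arc (nat_lit 67) n1120 (.arc (nat_lit 70) n1119 (.fin (nat_lit 943616149) (nat_lit 0)))))
def n1801 : Nd := .arc (nat_lit 6) n1796 (.fin (nat_lit 745975957) (nat_lit 0))
def n1802 : Nd := .arc (nat_lit 3) n1800 (.arc (nat_lit 6) n1801 (.fin (nat_lit 878612629) (nat_lit 0)))
def n1803 : Nd := .arc (nat_lit 6) n1799 (.arc (nat_lit 52) n1118 (.arc (nat_lit 55) n1119 (.arc (nat_lit 58) n1120 (.fin (nat_lit 878620821) (nat_lit 0)))))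
def n1804 : Nd := .arc (nat_lit 9) n1794 (.fin (nat_lit 745959573) (nat_lit 0))
def n1805 : Nd := .arc (nat_lit 3) n1803 (.arc (nat_lit 9) n1804 (.fin (nat_lit 943607957) (nat_lit 0)))
def n1806 : Nd := .arc (nat_lit 3) n1798 (.arc (nat_lit 6) n1802 (.arc (nat_lit 9) n1805 (.fin (nat_lit 476975253) (nat_lit 0))))
def n1807 : Nd := .arc (nat_lit 6) n1797 (.arc (nat_lit 9) n1795 (.fin (nat_lit 476983445) (nat_lit 0)))
def n1808 : Nd := .arc (nat_lit 38) n1121 (.arc (nat_lit 41) n1117 (.arc (nat_lit 44) n1102 (.arc (nat_lit 47) n1111 (.fin (nat_lit 477032597) (nat_lit 0)))))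
def n1809 : Nd := .arc (nat_lit 9) n1808 (.fin (nat_lit 878604437) (nat_lit 0))
def n1810 : Nd := .arc (nat_lit 6) n1794 (.fin (nat_lit 477016213) (nat_lit 0))
def n1811 : Nd := .arc (nat_lit 3) n1809 (.arc (nat_lit 6) n1810 (.fin (nat_lit 943624341) (nat_lit 0)))
def n1812 : Nd := .arc (nat_lit 6) n1808 (.fin (nat_lit 943632533) (nat_lit 0))
def n1813 : Nd := .arc (nat_lit 9) n1796 (.fin (nat_lit 476999829) (nat_lit 0))
def n1814 : Nd := .arc (nat_lit 3) n1812 (.arc (nat_lit 9) n1813 (.fin (nat_lit 878596245) (nat_lit 0)))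
def n1815 : Nd := .arc (nat_lit 3) n1807 (.arc (nat_lit 6) n1811 (.arc (nat_lit 9) n1814 (.fin (nat_lit 745934997) (nat_lit 0))))
def n1816 : Nd := .arc (nat_lit 3) n1799 (.arc (nat_lit 40) n1118 (.arc (nat_lit 43) n1119 (.arc (nat_lit 46) n1120 (.fin (nat_lit 477024405) (nat_lit 0)))))
def n1817 : Nd := .arc (nat_lit 3) n1808 (.fin (nat_lit 745984149) (nat_lit 0))
def n1818 : Nd := .arc (nat_lit 6) n1816 (.arc (nat_lit 9) n1817 (.fin (nat_lit 943599765) (nat_lit 0)))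
def n1819 : Nd := .arc (nat_lit 3) n1813 (.arc (nat_lit 6) n1812 (.fin (nat_lit 745967765) (nat_lit 0)))
def n1820 : Nd := .arc (nat_lit 3) n1801 (.arc (nat_lit 9) n1800 (.fin (nat_lit 476991637) (nat_lit 0)))
def n1821 : Nd := .arc (nat_lit 3) n1818 (.arc (nat_lit 6) n1819 (.arc (nat_lit 9) n1820 (.fin (nat_lit 878579861) (nat_lit 0))))
def n1822 : Nd := .arc (nat_lit 6) n1817 (.arc (nat_lit 9) n1816 (.fin (nat_lit 878588053) (nat_lit 0)))
def n1823 : Nd := .arc (nat_lit 3) n1804 (.arc (nat_lit 6) n1803 (.fin (nat_lit 477008021) (nat_lit 0)))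
def n1824 : Nd := .arc (nat_lit 3) n1810 (.arc (nat_lit 9) n1809 (.fin (nat_lit 745951381) (nat_lit 0)))
def n1825 : Nd := .arc (nat_lit 3) n1822 (.arc (nat_lit 6) n1823 (.arc (nat_lit 9) n1824 (.fin (nat_lit 943591573) (nat_lit 0))))
def n1826 : Nd := .arc (nat_lit 14) n1774 (.arc (nat_lit 17) n1783 (.arc (nat_lit 20) n1789 (.arc (nat_lit 23) n1793 (.arc (nat_lit 38) n1806 (.arc (nat_lit 41) n1815 (.arc (nat_lit 44) n1821 (.arc (nat_lit 47) n1825 (.fin (nat_lit 325775511) (nat_lit 0)))))))))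
def n1827 : Nd := .arc (nat_lit 3) n1826 (.fin (nat_lit 594727065) (nat_lit 0))
def n1828 : Nd := .arc (nat_lit 14) n1783 (.arc (nat_lit 17) n1774 (.arc (nat_lit 20) n1793 (.arc (nat_lit 23) n1789 (.arc (nat_lit 26) n1806 (.arc (nat_lit 29) n1815 (.arc (nat_lit 32) n1825 (.arc (nat_lit 35) n1821 (.fin (nat_lit 594735257) (nat_lit 0)))))))))
def n1829 : Nd := .arc (nat_lit 3) n1828 (.arc (nat_lit 40) n1798 (.arc (nat_lit 43) n1802 (.arc (nat_lit 46) n1805 (.fin (nat_lit 325767319) (nat_lit 0)))))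
def n1830 : Nd := .arc (nat_lit 6) n1827 (.arc (nat_lit 9) n1829 (.fin (nat_lit 123351197) (nat_lit 0)))
def n1831 : Nd := .arc (nat_lit 14) n1789 (.arc (nat_lit 17) n1793 (.arc (nat_lit 20) n1783 (.arc (nat_lit 23) n1774 (.arc (nat_lit 50) n1806 (.arc (nat_lit 53) n1815 (.arc (nat_lit 56) n1821 (.arc (nat_lit 59) n1825 (.fin (nat_lit 123400349) (nat_lit 0)))))))))
def n1832 : Nd := .arc (nat_lit 9) n1831 (.fin (nat_lit 594702489) (nat_lit 0))
def n1833 : Nd := .arc (nat_lit 6) n1828 (.arc (nat_lit 52) n1798 (.arc (nat_lit 55) n1802 (.arc (nat_lit 58) n1805 (.fin (nat_lit 123383965) (nat_lit 0)))))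
def n1834 : Nd := .arc (nat_lit 3) n1832 (.arc (nat_lit 6) n1833 (.fin (nat_lit 325750935) (nat_lit 0)))
def n1835 : Nd := .arc (nat_lit 6) n1831 (.fin (nat_lit 325759127) (nat_lit 0))
def n1836 : Nd := .arc (nat_lit 9) n1826 (.fin (nat_lit 123367581) (nat_lit 0))
def n1837 : Nd := .arc (nat_lit 3) n1835 (.arc (nat_lit 9) n1836 (.fin (nat_lit 594694297) (nat_lit 0)))
def n1838 : Nd := .arc (nat_lit 3) n1830 (.arc (nat_lit 6) n1834 (.arc (nat_lit 9) n1837 (.fin (nat_lit 188354715) (nat_lit 0))))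
def n1839 : Nd := .arc (nat_lit 6) n1829 (.arc (nat_lit 9) n1827 (.fin (nat_lit 188362907) (nat_lit 0)))
def n1840 : Nd := .arc (nat_lit 14) n1793 (.arc (nat_lit 17) n1789 (.arc (nat_lit 20) n1774 (.arc (nat_lit 23) n1783 (.arc (nat_lit 62) n1806 (.arc (nat_lit 65) n1815 (.arc (nat_lit 68) n1825 (.arc (nat_lit 71) n1821 (.fin (nat_lit 188412059) (nat_lit 0)))))))))
def n1841 : Nd := .arc (nat_lit 9) n1840 (.fin (nat_lit 325742743) (nat_lit 0))
def n1842 : Nd := .arc (nat_lit 6) n1826 (.fin (nat_lit 188395675) (nat_lit 0))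
def n1843 : Nd := .arc (nat_lit 3) n1841 (.arc (nat_lit 6) n1842 (.fin (nat_lit 594710681) (nat_lit 0)))
def n1844 : Nd := .arc (nat_lit 6) n1840 (.fin (nat_lit 594718873) (nat_lit 0))
def n1845 : Nd := .arc (nat_lit 9) n1828 (.arc (nat_lit 64) n1798 (.arc (nat_lit 67) n1805 (.arc (nat_lit 70) n1802 (.fin (nat_lit 188379291) (nat_lit 0)))))
def n1846 : Nd := .arc (nat_lit 3) n1844 (.arc (nat_lit 9) n1845 (.fin (nat_lit 325734551) (nat_lit 0)))
def n1847 : Nd := .arc (nat_lit 3) n1839 (.arc (nat_lit 6) n1843 (.arc (nat_lit 9) n1846 (.fin (nat_lit 123343005) (nat_lit 0))))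
def n1848 : Nd := .arc (nat_lit 3) n1831 (.fin (nat_lit 188403867) (nat_lit 0))
def n1849 : Nd := .arc (nat_lit 3) n1840 (.fin (nat_lit 123392157) (nat_lit 0))
def n1850 : Nd := .arc (nat_lit 6) n1848 (.arc (nat_lit 9) n1849 (.fin (nat_lit 594686105) (nat_lit 0)))
def n1851 : Nd := .arc (nat_lit 3) n1845 (.arc (nat_lit 6) n1844 (.fin (nat_lit 123375773) (nat_lit 0)))
def n1852 : Nd := .arc (nat_lit 3) n1833 (.arc (nat_lit 9) n1832 (.fin (nat_lit 188371099) (nat_lit 0)))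
def n1853 : Nd := .arc (nat_lit 3) n1850 (.arc (nat_lit 6) n1851 (.arc (nat_lit 9) n1852 (.fin (nat_lit 325718167) (nat_lit 0))))
def n1854 : Nd := .arc (nat_lit 6) n1849 (.arc (nat_lit 9) n1848 (.fin (nat_lit 325726359) (nat_lit 0)))
def n1855 : Nd := .arc (nat_lit 3) n1836 (.arc (nat_lit 6) n1835 (.fin (nat_lit 188387483) (nat_lit 0)))
def n1856 : Nd := .arc (nat_lit 3) n1842 (.arc (nat_lit 9) n1841 (.fin (nat_lit 123359389) (nat_lit 0)))
def n1857 : Nd := .arc (nat_lit 3) n1854 (.arc (nat_lit 6) n1855 (.arc (nat_lit 9) n1856 (.fin (nat_lit 594677913) (nat_lit 0))))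
def n1858 : Nd := .arc (nat_lit 62) n1751 (.arc (nat_lit 65) n1742 (.arc (nat_lit 68) n1757 (.arc (nat_lit 71) n1761 (.fin (nat_lit 188674203) (nat_lit 0)))))
def n1859 : Nd := .arc (nat_lit 3) n1858 (.fin (nat_lit 123654301) (nat_lit 0))
def n1860 : Nd := .arc (nat_lit 50) n1751 (.arc (nat_lit 53) n1742 (.arc (nat_lit 56) n1761 (.arc (nat_lit 59) n1757 (.fin (nat_lit 123662493) (nat_lit 0)))))
def n1861 : Nd := .arc (nat_lit 3) n1860 (.fin (nat_lit 188666011) (nat_lit 0))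
def n1862 : Nd := .arc (nat_lit 6) n1859 (.arc (nat_lit 9) n1861 (.fin (nat_lit 325988503) (nat_lit 0)))
def n1863 : Nd := .arc (nat_lit 38) n1751 (.arc (nat_lit 41) n1742 (.arc (nat_lit 44) n1761 (.arc (nat_lit 47) n1757 (.fin (nat_lit 326037655) (nat_lit 0)))))
def n1864 : Nd := .arc (nat_lit 9) n1863 (.fin (nat_lit 123629725) (nat_lit 0))
def n1865 : Nd := .arc (nat_lit 6) n1860 (.fin (nat_lit 326021271) (nat_lit 0))
def n1866 : Nd := .arc (nat_lit 3) n1864 (.arc (nat_lit 6) n1865 (.fin (nat_lit 188649627) (nat_lit 0)))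
def n1867 : Nd := .arc (nat_lit 6) n1863 (.fin (nat_lit 188657819) (nat_lit 0))
def n1868 : Nd := .arc (nat_lit 9) n1858 (.fin (nat_lit 326004887) (nat_lit 0))
def n1869 : Nd := .arc (nat_lit 3) n1867 (.arc (nat_lit 9) n1868 (.fin (nat_lit 123621533) (nat_lit 0)))
def n1870 : Nd := .arc (nat_lit 3) n1862 (.arc (nat_lit 6) n1866 (.arc (nat_lit 9) n1869 (.fin (nat_lit 594940057) (nat_lit 0))))
def n1871 : Nd := .arc (nat_lit 6) n1861 (.arc (nat_lit 9) n1859 (.fin (nat_lit 594948249) (nat_lit 0)))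
def n1872 : Nd := .arc (nat_lit 26) n1751 (.arc (nat_lit 29) n1742 (.arc (nat_lit 32) n1757 (.arc (nat_lit 35) n1761 (.fin (nat_lit 594997401) (nat_lit 0)))))
def n1873 : Nd := .arc (nat_lit 9) n1872 (.arc (nat_lit 64) n1743 (.arc (nat_lit 67) n1750 (.arc (nat_lit 70) n1747 (.fin (nat_lit 188641435) (nat_lit 0)))))
def n1874 : Nd := .arc (nat_lit 6) n1858 (.fin (nat_lit 594981017) (nat_lit 0))
def n1875 : Nd := .arc (nat_lit 3) n1873 (.arc (nat_lit 6) n1874 (.fin (nat_lit 123637917) (nat_lit 0)))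
def n1876 : Nd := .arc (nat_lit 6) n1872 (.arc (nat_lit 52) n1743 (.arc (nat_lit 55) n1747 (.arc (nat_lit 58) n1750 (.fin (nat_lit 123646109) (nat_lit 0)))))
def n1877 : Nd := .arc (nat_lit 9) n1860 (.fin (nat_lit 594964633) (nat_lit 0))
def n1878 : Nd := .arc (nat_lit 3) n1876 (.arc (nat_lit 9) n1877 (.fin (nat_lit 188633243) (nat_lit 0)))
def n1879 : Nd := .arc (nat_lit 3) n1871 (.arc (nat_lit 6) n1875 (.arc (nat_lit 9) n1878 (.fin (nat_lit 325980311) (nat_lit 0))))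
def n1880 : Nd := .arc (nat_lit 3) n1872 (.arc (nat_lit 40) n1743 (.arc (nat_lit 43) n1747 (.arc (nat_lit 46) n1750 (.fin (nat_lit 326029463) (nat_lit 0)))))
def n1881 : Nd := .arc (nat_lit 3) n1863 (.fin (nat_lit 594989209) (nat_lit 0))
def n1882 : Nd := .arc (nat_lit 6) n1880 (.arc (nat_lit 9) n1881 (.fin (nat_lit 188625051) (nat_lit 0)))
def n1883 : Nd := .arc (nat_lit 3) n1868 (.arc (nat_lit 6) n1867 (.fin (nat_lit 594972825) (nat_lit 0)))
def n1884 : Nd := .arc (nat_lit 3) n1874 (.arc (nat_lit 9) n1873 (.fin (nat_lit 325996695) (nat_lit 0)))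
def n1885 : Nd := .arc (nat_lit 3) n1882 (.arc (nat_lit 6) n1883 (.arc (nat_lit 9) n1884 (.fin (nat_lit 123605149) (nat_lit 0))))
def n1886 : Nd := .arc (nat_lit 6) n1881 (.arc (nat_lit 9) n1880 (.fin (nat_lit 123613341) (nat_lit 0)))
def n1887 : Nd := .arc (nat_lit 3) n1877 (.arc (nat_lit 6) n1876 (.fin (nat_lit 326013079) (nat_lit 0)))
def n1888 : Nd := .arc (nat_lit 3) n1865 (.arc (nat_lit 9) n1864 (.fin (nat_lit 594956441) (nat_lit 0)))
def n1889 : Nd := .arc (nat_lit 3) n1886 (.arc (nat_lit 6) n1887 (.arc (nat_lit 9) n1888 (.fin (nat_lit 188616859) (nat_lit 0))))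
def n1890 : Nd := .arc (nat_lit 50) n833 (.arc (nat_lit 53) n829 (.arc (nat_lit 56) n814 (.arc (nat_lit 59) n823 (.fin (nat_lit 945746069) (nat_lit 0)))))
def n1891 : Nd := .arc (nat_lit 3) n1890 (.fin (nat_lit 876531861) (nat_lit 0))
def n1892 : Nd := .arc (nat_lit 62) n833 (.arc (nat_lit 65) n829 (.arc (nat_lit 68) n823 (.arc (nat_lit 71) n814 (.fin (nat_lit 876540053) (nat_lit 0)))))
def n1893 : Nd := .arc (nat_lit 3) n1892 (.fin (nat_lit 945737877) (nat_lit 0))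
def n1894 : Nd := .arc (nat_lit 6) n1891 (.arc (nat_lit 9) n1893 (.fin (nat_lit 477507733) (nat_lit 0)))
def n1895 : Nd := .arc (nat_lit 26) n833 (.arc (nat_lit 29) n829 (.arc (nat_lit 32) n823 (.arc (nat_lit 35) n814 (.fin (nat_lit 477556885) (nat_lit 0)))))
def n1896 : Nd := .arc (nat_lit 9) n1895 (.arc (nat_lit 64) n830 (.arc (nat_lit 67) n832 (.arc (nat_lit 70) n831 (.fin (nat_lit 876507285) (nat_lit 0)))))
def n1897 : Nd := .arc (nat_lit 6) n1892 (.fin (nat_lit 477540501) (nat_lit 0))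
def n1898 : Nd := .arc (nat_lit 3) n1896 (.arc (nat_lit 6) n1897 (.fin (nat_lit 945721493) (nat_lit 0)))
def n1899 : Nd := .arc (nat_lit 6) n1895 (.arc (nat_lit 52) n830 (.arc (nat_lit 55) n831 (.arc (nat_lit 58) n832 (.fin (nat_lit 945729685) (nat_lit 0)))))
def n1900 : Nd := .arc (nat_lit 9) n1890 (.fin (nat_lit 477524117) (nat_lit 0))
def n1901 : Nd := .arc (nat_lit 3) n1899 (.arc (nat_lit 9) n1900 (.fin (nat_lit 876499093) (nat_lit 0)))
def n1902 : Nd := .arc (nat_lit 3) n1894 (.arc (nat_lit 6) n1898 (.arc (nat_lit 9) n1901 (.fin (nat_lit 745410709) (nat_lit 0))))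
def n1903 : Nd := .arc (nat_lit 6) n1893 (.arc (nat_lit 9) n1891 (.fin (nat_lit 745418901) (nat_lit 0)))
def n1904 : Nd := .arc (nat_lit 38) n833 (.arc (nat_lit 41) n829 (.arc (nat_lit 44) n814 (.arc (nat_lit 47) n823 (.fin (nat_lit 745468053) (nat_lit 0)))))
def n1905 : Nd := .arc (nat_lit 9) n1904 (.fin (nat_lit 945713301) (nat_lit 0))
def n1906 : Nd := .arc (nat_lit 6) n1890 (.fin (nat_lit 745451669) (nat_lit 0))
def n1907 : Nd := .arc (nat_lit 3) n1905 (.arc (nat_lit 6) n1906 (.fin (nat_lit 876515477) (nat_lit 0)))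
def n1908 : Nd := .arc (nat_lit 6) n1904 (.fin (nat_lit 876523669) (nat_lit 0))
def n1909 : Nd := .arc (nat_lit 9) n1892 (.fin (nat_lit 745435285) (nat_lit 0))
def n1910 : Nd := .arc (nat_lit 3) n1908 (.arc (nat_lit 9) n1909 (.fin (nat_lit 945705109) (nat_lit 0)))
def n1911 : Nd := .arc (nat_lit 3) n1903 (.arc (nat_lit 6) n1907 (.arc (nat_lit 9) n1910 (.fin (nat_lit 477499541) (nat_lit 0))))
def n1912 : Nd := .arc (nat_lit 3) n1904 (.fin (nat_lit 477548693) (nat_lit 0))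
def n1913 : Nd := .arc (nat_lit 3) n1895 (.arc (nat_lit 40) n830 (.arc (nat_lit 43) n831 (.arc (nat_lit 46) n832 (.fin (nat_lit 745459861) (nat_lit 0)))))
def n1914 : Nd := .arc (nat_lit 6) n1912 (.arc (nat_lit 9) n1913 (.fin (nat_lit 945696917) (nat_lit 0)))
def n1915 : Nd := .arc (nat_lit 3) n1900 (.arc (nat_lit 6) n1899 (.fin (nat_lit 745443477) (nat_lit 0)))
def n1916 : Nd := .arc (nat_lit 3) n1906 (.arc (nat_lit 9) n1905 (.fin (nat_lit 477515925) (nat_lit 0)))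
def n1917 : Nd := .arc (nat_lit 3) n1914 (.arc (nat_lit 6) n1915 (.arc (nat_lit 9) n1916 (.fin (nat_lit 876482709) (nat_lit 0))))
def n1918 : Nd := .arc (nat_lit 6) n1913 (.arc (nat_lit 9) n1912 (.fin (nat_lit 876490901) (nat_lit 0)))
def n1919 : Nd := .arc (nat_lit 3) n1909 (.arc (nat_lit 6) n1908 (.fin (nat_lit 477532309) (nat_lit 0)))
def n1920 : Nd := .arc (nat_lit 3) n1897 (.arc (nat_lit 9) n1896 (.fin (nat_lit 745427093) (nat_lit 0)))
def n1921 : Nd := .arc (nat_lit 3) n1918 (.arc (nat_lit 6) n1919 (.arc (nat_lit 9) n1920 (.fin (nat_lit 945688725) (nat_lit 0))))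
def n1922 : Nd := .arc (nat_lit 14) n1870 (.arc (nat_lit 17) n1879 (.arc (nat_lit 20) n1885 (.arc (nat_lit 23) n1889 (.arc (nat_lit 26) n1902 (.arc (nat_lit 29) n1911 (.arc (nat_lit 32) n1917 (.arc (nat_lit 35) n1921 (.fin (nat_lit 326299801) (nat_lit 0)))))))))
def n1923 : Nd := .arc (nat_lit 3) n1922 (.arc (nat_lit 40) n1894 (.arc (nat_lit 43) n1898 (.arc (nat_lit 46) n1901 (.fin (nat_lit 594202775) (nat_lit 0)))))
def n1924 : Nd := .arc (nat_lit 14) n1879 (.arc (nat_lit 17) n1870 (.arc (nat_lit 20) n1889 (.arc (nat_lit 23) n1885 (.arc (nat_lit 38) n1902 (.arc (nat_lit 41) n1911 (.arc (nat_lit 44) n1921 (.arc (nat_lit 47) n1917 (.fin (nat_lit 594210967) (nat_lit 0)))))))))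
def n1925 : Nd := .arc (nat_lit 3) n1924 (.fin (nat_lit 326291609) (nat_lit 0))
def n1926 : Nd := .arc (nat_lit 6) n1923 (.arc (nat_lit 9) n1925 (.fin (nat_lit 121254043) (nat_lit 0)))
def n1927 : Nd := .arc (nat_lit 14) n1885 (.arc (nat_lit 17) n1889 (.arc (nat_lit 20) n1879 (.arc (nat_lit 23) n1870 (.arc (nat_lit 62) n1902 (.arc (nat_lit 65) n1911 (.arc (nat_lit 68) n1917 (.arc (nat_lit 71) n1921 (.fin (nat_lit 121303195) (nat_lit 0)))))))))
def n1928 : Nd := .arc (nat_lit 9) n1927 (.fin (nat_lit 594178199) (nat_lit 0))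
def n1929 : Nd := .arc (nat_lit 6) n1924 (.fin (nat_lit 121286811) (nat_lit 0))
def n1930 : Nd := .arc (nat_lit 3) n1928 (.arc (nat_lit 6) n1929 (.fin (nat_lit 326275225) (nat_lit 0)))
def n1931 : Nd := .arc (nat_lit 6) n1927 (.fin (nat_lit 326283417) (nat_lit 0))
def n1932 : Nd := .arc (nat_lit 9) n1922 (.arc (nat_lit 64) n1894 (.arc (nat_lit 67) n1901 (.arc (nat_lit 70) n1898 (.fin (nat_lit 121270427) (nat_lit 0)))))
def n1933 : Nd := .arc (nat_lit 3) n1931 (.arc (nat_lit 9) n1932 (.fin (nat_lit 594170007) (nat_lit 0)))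
def n1934 : Nd := .arc (nat_lit 3) n1926 (.arc (nat_lit 6) n1930 (.arc (nat_lit 9) n1933 (.fin (nat_lit 190451869) (nat_lit 0))))
def n1935 : Nd := .arc (nat_lit 6) n1925 (.arc (nat_lit 9) n1923 (.fin (nat_lit 190460061) (nat_lit 0)))
def n1936 : Nd := .arc (nat_lit 14) n1889 (.arc (nat_lit 17) n1885 (.arc (nat_lit 20) n1870 (.arc (nat_lit 23) n1879 (.arc (nat_lit 50) n1902 (.arc (nat_lit 53) n1911 (.arc (nat_lit 56) n1921 (.arc (nat_lit 59) n1917 (.fin (nat_lit 190509213) (nat_lit 0)))))))))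
def n1937 : Nd := .arc (nat_lit 9) n1936 (.fin (nat_lit 326267033) (nat_lit 0))
def n1938 : Nd := .arc (nat_lit 6) n1922 (.arc (nat_lit 52) n1894 (.arc (nat_lit 55) n1898 (.arc (nat_lit 58) n1901 (.fin (nat_lit 190492829) (nat_lit 0)))))
def n1939 : Nd := .arc (nat_lit 3) n1937 (.arc (nat_lit 6) n1938 (.fin (nat_lit 594186391) (nat_lit 0)))
def n1940 : Nd := .arc (nat_lit 6) n1936 (.fin (nat_lit 594194583) (nat_lit 0))
def n1941 : Nd := .arc (nat_lit 9) n1924 (.fin (nat_lit 190476445) (nat_lit 0))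
def n1942 : Nd := .arc (nat_lit 3) n1940 (.arc (nat_lit 9) n1941 (.fin (nat_lit 326258841) (nat_lit 0)))
def n1943 : Nd := .arc (nat_lit 3) n1935 (.arc (nat_lit 6) n1939 (.arc (nat_lit 9) n1942 (.fin (nat_lit 121245851) (nat_lit 0))))
def n1944 : Nd := .arc (nat_lit 3) n1936 (.fin (nat_lit 121295003) (nat_lit 0))
def n1945 : Nd := .arc (nat_lit 3) n1927 (.fin (nat_lit 190501021) (nat_lit 0))
def n1946 : Nd := .arc (nat_lit 6) n1944 (.arc (nat_lit 9) n1945 (.fin (nat_lit 326250649) (nat_lit 0)))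
def n1947 : Nd := .arc (nat_lit 3) n1932 (.arc (nat_lit 6) n1931 (.fin (nat_lit 190484637) (nat_lit 0)))
def n1948 : Nd := .arc (nat_lit 3) n1938 (.arc (nat_lit 9) n1937 (.fin (nat_lit 121262235) (nat_lit 0)))
def n1949 : Nd := .arc (nat_lit 3) n1946 (.arc (nat_lit 6) n1947 (.arc (nat_lit 9) n1948 (.fin (nat_lit 594153623) (nat_lit 0))))
def n1950 : Nd := .arc (nat_lit 6) n1945 (.arc (nat_lit 9) n1944 (.fin (nat_lit 594161815) (nat_lit 0)))
def n1951 : Nd := .arc (nat_lit 3) n1941 (.arc (nat_lit 6) n1940 (.fin (nat_lit 121278619) (nat_lit 0)))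
def n1952 : Nd := .arc (nat_lit 3) n1929 (.arc (nat_lit 9) n1928 (.fin (nat_lit 190468253) (nat_lit 0)))
def n1953 : Nd := .arc (nat_lit 3) n1950 (.arc (nat_lit 6) n1951 (.arc (nat_lit 9) n1952 (.fin (nat_lit 326242457) (nat_lit 0))))
def n1954 : Nd := .arc (nat_lit 38) n1710 (.arc (nat_lit 41) n1719 (.arc (nat_lit 44) n1725 (.arc (nat_lit 47) n1729 (.arc (nat_lit 50) n1838 (.arc (nat_lit 53) n1847 (.arc (nat_lit 56) n1853 (.arc (nat_lit 59) n1857 (.arc (nat_lit 62) n1934 (.arc (nat_lit 65) n1943 (.arc (nat_lit 68) n1949 (.arc (nat_lit 71) n1953 (.fin (nat_lit 839839895) (nat_lit 0)))))))))))))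
def n1955 : Nd := .arc (nat_lit 3) n1954 (.fin (nat_lit 840355993) (nat_lit 0))
def n1956 : Nd := .arc (nat_lit 26) n1710 (.arc (nat_lit 29) n1719 (.arc (nat_lit 32) n1729 (.arc (nat_lit 35) n1725 (.arc (nat_lit 50) n1934 (.arc (nat_lit 53) n1943 (.arc (nat_lit 56) n1953 (.arc (nat_lit 59) n1949 (.arc (nat_lit 62) n1838 (.arc (nat_lit 65) n1847 (.arc (nat_lit 68) n1857 (.arc (nat_lit 71) n1853 (.fin (nat_lit 840364185) (nat_lit 0)))))))))))))
def n1957 : Nd := .arc (nat_lit 3) n1956 (.arc (nat_lit 40) n1702 (.arc (nat_lit 43) n1706 (.arc (nat_lit 46) n1709 (.fin (nat_lit 839831703) (nat_lit 0)))))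
def n1958 : Nd := .arc (nat_lit 6) n1955 (.arc (nat_lit 9) n1957 (.fin (nat_lit 239480989) (nat_lit 0)))
def n1959 : Nd := .arc (nat_lit 26) n1838 (.arc (nat_lit 29) n1847 (.arc (nat_lit 32) n1857 (.arc (nat_lit 35) n1853 (.arc (nat_lit 38) n1934 (.arc (nat_lit 41) n1943 (.arc (nat_lit 44) n1953 (.arc (nat_lit 47) n1949 (.arc (nat_lit 50) n1710 (.arc (nat_lit 53) n1719 (.arc (nat_lit 56) n1725 (.arc (nat_lit 59) n1729 (.fin (nat_lit 239530141) (nat_lit 0)))))))))))))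
def n1960 : Nd := .arc (nat_lit 9) n1959 (.arc (nat_lit 64) n1830 (.arc (nat_lit 67) n1837 (.arc (nat_lit 70) n1834 (.fin (nat_lit 840331417) (nat_lit 0)))))
def n1961 : Nd := .arc (nat_lit 6) n1956 (.arc (nat_lit 52) n1702 (.arc (nat_lit 55) n1706 (.arc (nat_lit 58) n1709 (.fin (nat_lit 239513757) (nat_lit 0)))))
def n1962 : Nd := .arc (nat_lit 3) n1960 (.arc (nat_lit 6) n1961 (.fin (nat_lit 839815319) (nat_lit 0)))
def n1963 : Nd := .arc (nat_lit 6) n1959 (.arc (nat_lit 52) n1830 (.arc (nat_lit 55) n1834 (.arc (nat_lit 58) n1837 (.fin (nat_lit 839823511) (nat_lit 0)))))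
def n1964 : Nd := .arc (nat_lit 9) n1954 (.fin (nat_lit 239497373) (nat_lit 0))
def n1965 : Nd := .arc (nat_lit 3) n1963 (.arc (nat_lit 9) n1964 (.fin (nat_lit 840323225) (nat_lit 0)))
def n1966 : Nd := .arc (nat_lit 3) n1958 (.arc (nat_lit 6) n1962 (.arc (nat_lit 9) n1965 (.fin (nat_lit 237375643) (nat_lit 0))))
def n1967 : Nd := .arc (nat_lit 6) n1957 (.arc (nat_lit 9) n1955 (.fin (nat_lit 237383835) (nat_lit 0)))
def n1968 : Nd := .arc (nat_lit 26) n1934 (.arc (nat_lit 29) n1943 (.arc (nat_lit 32) n1949 (.arc (nat_lit 35) n1953 (.arc (nat_lit 38) n1838 (.arc (nat_lit 41) n1847 (.arc (nat_lit 44) n1853 (.arc (nat_lit 47) n1857 (.arc (nat_lit 62) n1710 (.arc (nat_lit 65) n1719 (.arc (nat_lit 68) n1729 (.arc (nat_lit 71) n1725 (.fin (nat_lit 237432987) (nat_lit 0)))))))))))))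
def n1969 : Nd := .arc (nat_lit 9) n1968 (.arc (nat_lit 64) n1926 (.arc (nat_lit 67) n1933 (.arc (nat_lit 70) n1930 (.fin (nat_lit 839807127) (nat_lit 0)))))
def n1970 : Nd := .arc (nat_lit 6) n1954 (.fin (nat_lit 237416603) (nat_lit 0))
def n1971 : Nd := .arc (nat_lit 3) n1969 (.arc (nat_lit 6) n1970 (.fin (nat_lit 840339609) (nat_lit 0)))
def n1972 : Nd := .arc (nat_lit 6) n1968 (.arc (nat_lit 52) n1926 (.arc (nat_lit 55) n1930 (.arc (nat_lit 58) n1933 (.fin (nat_lit 840347801) (nat_lit 0)))))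
def n1973 : Nd := .arc (nat_lit 9) n1956 (.arc (nat_lit 64) n1702 (.arc (nat_lit 67) n1709 (.arc (nat_lit 70) n1706 (.fin (nat_lit 237400219) (nat_lit 0)))))
def n1974 : Nd := .arc (nat_lit 3) n1972 (.arc (nat_lit 9) n1973 (.fin (nat_lit 839798935) (nat_lit 0)))
def n1975 : Nd := .arc (nat_lit 3) n1967 (.arc (nat_lit 6) n1971 (.arc (nat_lit 9) n1974 (.fin (nat_lit 239472797) (nat_lit 0))))
def n1976 : Nd := .arc (nat_lit 3) n1968 (.arc (nat_lit 40) n1926 (.arc (nat_lit 43) n1930 (.arc (nat_lit 46) n1933 (.fin (nat_lit 239521949) (nat_lit 0)))))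
def n1977 : Nd := .arc (nat_lit 3) n1959 (.arc (nat_lit 40) n1830 (.arc (nat_lit 43) n1834 (.arc (nat_lit 46) n1837 (.fin (nat_lit 237424795) (nat_lit 0)))))
def n1978 : Nd := .arc (nat_lit 6) n1976 (.arc (nat_lit 9) n1977 (.fin (nat_lit 839790743) (nat_lit 0)))
def n1979 : Nd := .arc (nat_lit 3) n1964 (.arc (nat_lit 6) n1963 (.fin (nat_lit 237408411) (nat_lit 0)))
def n1980 : Nd := .arc (nat_lit 3) n1970 (.arc (nat_lit 9) n1969 (.fin (nat_lit 239489181) (nat_lit 0)))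
def n1981 : Nd := .arc (nat_lit 3) n1978 (.arc (nat_lit 6) n1979 (.arc (nat_lit 9) n1980 (.fin (nat_lit 840306841) (nat_lit 0))))
def n1982 : Nd := .arc (nat_lit 6) n1977 (.arc (nat_lit 9) n1976 (.fin (nat_lit 840315033) (nat_lit 0)))
def n1983 : Nd := .arc (nat_lit 3) n1973 (.arc (nat_lit 6) n1972 (.fin (nat_lit 239505565) (nat_lit 0)))
def n1984 : Nd := .arc (nat_lit 3) n1961 (.arc (nat_lit 9) n1960 (.fin (nat_lit 237392027) (nat_lit 0)))
def n1985 : Nd := .arc (nat_lit 3) n1982 (.arc (nat_lit 6) n1983 (.arc (nat_lit 9) n1984 (.fin (nat_lit 839782551) (nat_lit 0))))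
def n1986 : Nd := .arc (nat_lit 26) n1757 (.arc (nat_lit 29) n1761 (.arc (nat_lit 32) n1742 (.arc (nat_lit 35) n1751 (.fin (nat_lit 846655641) (nat_lit 0)))))
def n1987 : Nd := .arc (nat_lit 3) n1986 (.arc (nat_lit 40) n1754 (.arc (nat_lit 43) n1755 (.arc (nat_lit 46) n1756 (.fin (nat_lit 846123159) (nat_lit 0)))))
def n1988 : Nd := .arc (nat_lit 38) n1757 (.arc (nat_lit 41) n1761 (.arc (nat_lit 44) n1751 (.arc (nat_lit 47) n1742 (.fin (nat_lit 846131351) (nat_lit 0)))))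
def n1989 : Nd := .arc (nat_lit 3) n1988 (.fin (nat_lit 846647449) (nat_lit 0))
def n1990 : Nd := .arc (nat_lit 6) n1987 (.arc (nat_lit 9) n1989 (.fin (nat_lit 238956699) (nat_lit 0)))
def n1991 : Nd := .arc (nat_lit 62) n1757 (.arc (nat_lit 65) n1761 (.arc (nat_lit 68) n1742 (.arc (nat_lit 71) n1751 (.fin (nat_lit 239005851) (nat_lit 0)))))
def n1992 : Nd := .arc (nat_lit 9) n1991 (.fin (nat_lit 846098583) (nat_lit 0))
def n1993 : Nd := .arc (nat_lit 6) n1988 (.fin (nat_lit 238989467) (nat_lit 0))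
def n1994 : Nd := .arc (nat_lit 3) n1992 (.arc (nat_lit 6) n1993 (.fin (nat_lit 846631065) (nat_lit 0)))
def n1995 : Nd := .arc (nat_lit 6) n1991 (.fin (nat_lit 846639257) (nat_lit 0))
def n1996 : Nd := .arc (nat_lit 9) n1986 (.arc (nat_lit 64) n1754 (.arc (nat_lit 67) n1756 (.arc (nat_lit 70) n1755 (.fin (nat_lit 238973083) (nat_lit 0)))))
def n1997 : Nd := .arc (nat_lit 3) n1995 (.arc (nat_lit 9) n1996 (.fin (nat_lit 846090391) (nat_lit 0)))
def n1998 : Nd := .arc (nat_lit 3) n1990 (.arc (nat_lit 6) n1994 (.arc (nat_lit 9) n1997 (.fin (nat_lit 241045661) (nat_lit 0))))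
def n1999 : Nd := .arc (nat_lit 6) n1989 (.arc (nat_lit 9) n1987 (.fin (nat_lit 241053853) (nat_lit 0)))
def n2000 : Nd := .arc (nat_lit 50) n1757 (.arc (nat_lit 53) n1761 (.arc (nat_lit 56) n1751 (.arc (nat_lit 59) n1742 (.fin (nat_lit 241103005) (nat_lit 0)))))
def n2001 : Nd := .arc (nat_lit 9) n2000 (.fin (nat_lit 846622873) (nat_lit 0))
def n2002 : Nd := .arc (nat_lit 6) n1986 (.arc (nat_lit 52) n1754 (.arc (nat_lit 55) n1755 (.arc (nat_lit 58) n1756 (.fin (nat_lit 241086621) (nat_lit 0)))))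
def n2003 : Nd := .arc (nat_lit 3) n2001 (.arc (nat_lit 6) n2002 (.fin (nat_lit 846106775) (nat_lit 0)))
def n2004 : Nd := .arc (nat_lit 6) n2000 (.fin (nat_lit 846114967) (nat_lit 0))
def n2005 : Nd := .arc (nat_lit 9) n1988 (.fin (nat_lit 241070237) (nat_lit 0))
def n2006 : Nd := .arc (nat_lit 3) n2004 (.arc (nat_lit 9) n2005 (.fin (nat_lit 846614681) (nat_lit 0)))
def n2007 : Nd := .arc (nat_lit 3) n1999 (.arc (nat_lit 6) n2003 (.arc (nat_lit 9) n2006 (.fin (nat_lit 238948507) (nat_lit 0))))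
def n2008 : Nd := .arc (nat_lit 3) n1991 (.fin (nat_lit 241094813) (nat_lit 0))
def n2009 : Nd := .arc (nat_lit 3) n2000 (.fin (nat_lit 238997659) (nat_lit 0))
def n2010 : Nd := .arc (nat_lit 6) n2008 (.arc (nat_lit 9) n2009 (.fin (nat_lit 846082199) (nat_lit 0)))
def n2011 : Nd := .arc (nat_lit 3) n2005 (.arc (nat_lit 6) n2004 (.fin (nat_lit 238981275) (nat_lit 0)))
def n2012 : Nd := .arc (nat_lit 3) n1993 (.arc (nat_lit 9) n1992 (.fin (nat_lit 241062045) (nat_lit 0)))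
def n2013 : Nd := .arc (nat_lit 3) n2010 (.arc (nat_lit 6) n2011 (.arc (nat_lit 9) n2012 (.fin (nat_lit 846598297) (nat_lit 0))))
def n2014 : Nd := .arc (nat_lit 6) n2009 (.arc (nat_lit 9) n2008 (.fin (nat_lit 846606489) (nat_lit 0)))
def n2015 : Nd := .arc (nat_lit 3) n1996 (.arc (nat_lit 6) n1995 (.fin (nat_lit 241078429) (nat_lit 0)))
def n2016 : Nd := .arc (nat_lit 3) n2002 (.arc (nat_lit 9) n2001 (.fin (nat_lit 238964891) (nat_lit 0)))
def n2017 : Nd := .arc (nat_lit 3) n2014 (.arc (nat_lit 6) n2015 (.arc (nat_lit 9) n2016 (.fin (nat_lit 846074007) (nat_lit 0))))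
def n2018 : Nd := .arc (nat_lit 38) n727 (.arc (nat_lit 41) n718 (.arc (nat_lit 44) n733 (.arc (nat_lit 47) n737 (.fin (nat_lit 879685781) (nat_lit 0)))))
def n2019 : Nd := .arc (nat_lit 3) n2018 (.fin (nat_lit 947310741) (nat_lit 0))
def n2020 : Nd := .arc (nat_lit 26) n727 (.arc (nat_lit 29) n718 (.arc (nat_lit 32) n737 (.arc (nat_lit 35) n733 (.fin (nat_lit 947318933) (nat_lit 0)))))
def n2021 : Nd := .arc (nat_lit 3) n2020 (.arc (nat_lit 40) n719 (.arc (nat_lit 43) n723 (.arc (nat_lit 46) n726 (.fin (nat_lit 879677589) (nat_lit 0)))))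
def n2022 : Nd := .arc (nat_lit 6) n2019 (.arc (nat_lit 9) n2021 (.fin (nat_lit 744370325) (nat_lit 0)))
def n2023 : Nd := .arc (nat_lit 50) n727 (.arc (nat_lit 53) n718 (.arc (nat_lit 56) n733 (.arc (nat_lit 59) n737 (.fin (nat_lit 744419477) (nat_lit 0)))))
def n2024 : Nd := .arc (nat_lit 9) n2023 (.fin (nat_lit 947286165) (nat_lit 0))
def n2025 : Nd := .arc (nat_lit 6) n2020 (.arc (nat_lit 52) n719 (.arc (nat_lit 55) n723 (.arc (nat_lit 58) n726 (.fin (nat_lit 744403093) (nat_lit 0)))))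
def n2026 : Nd := .arc (nat_lit 3) n2024 (.arc (nat_lit 6) n2025 (.fin (nat_lit 879661205) (nat_lit 0)))
def n2027 : Nd := .arc (nat_lit 6) n2023 (.fin (nat_lit 879669397) (nat_lit 0))
def n2028 : Nd := .arc (nat_lit 9) n2018 (.fin (nat_lit 744386709) (nat_lit 0))
def n2029 : Nd := .arc (nat_lit 3) n2027 (.arc (nat_lit 9) n2028 (.fin (nat_lit 947277973) (nat_lit 0)))
def n2030 : Nd := .arc (nat_lit 3) n2022 (.arc (nat_lit 6) n2026 (.arc (nat_lit 9) n2029 (.fin (nat_lit 473829525) (nat_lit 0))))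
def n2031 : Nd := .arc (nat_lit 6) n2021 (.arc (nat_lit 9) n2019 (.fin (nat_lit 473837717) (nat_lit 0)))
def n2032 : Nd := .arc (nat_lit 62) n727 (.arc (nat_lit 65) n718 (.arc (nat_lit 68) n737 (.arc (nat_lit 71) n733 (.fin (nat_lit 473886869) (nat_lit 0)))))
def n2033 : Nd := .arc (nat_lit 9) n2032 (.fin (nat_lit 879653013) (nat_lit 0))
def n2034 : Nd := .arc (nat_lit 6) n2018 (.fin (nat_lit 473870485) (nat_lit 0))
def n2035 : Nd := .arc (nat_lit 3) n2033 (.arc (nat_lit 6) n2034 (.fin (nat_lit 947294357) (nat_lit 0)))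
def n2036 : Nd := .arc (nat_lit 6) n2032 (.fin (nat_lit 947302549) (nat_lit 0))
def n2037 : Nd := .arc (nat_lit 9) n2020 (.arc (nat_lit 64) n719 (.arc (nat_lit 67) n726 (.arc (nat_lit 70) n723 (.fin (nat_lit 473854101) (nat_lit 0)))))
def n2038 : Nd := .arc (nat_lit 3) n2036 (.arc (nat_lit 9) n2037 (.fin (nat_lit 879644821) (nat_lit 0)))
def n2039 : Nd := .arc (nat_lit 3) n2031 (.arc (nat_lit 6) n2035 (.arc (nat_lit 9) n2038 (.fin (nat_lit 744362133) (nat_lit 0))))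
def n2040 : Nd := .arc (nat_lit 3) n2023 (.fin (nat_lit 473878677) (nat_lit 0))
def n2041 : Nd := .arc (nat_lit 3) n2032 (.fin (nat_lit 744411285) (nat_lit 0))
def n2042 : Nd := .arc (nat_lit 6) n2040 (.arc (nat_lit 9) n2041 (.fin (nat_lit 947269781) (nat_lit 0)))
def n2043 : Nd := .arc (nat_lit 3) n2037 (.arc (nat_lit 6) n2036 (.fin (nat_lit 744394901) (nat_lit 0)))
def n2044 : Nd := .arc (nat_lit 3) n2025 (.arc (nat_lit 9) n2024 (.fin (nat_lit 473845909) (nat_lit 0)))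
def n2045 : Nd := .arc (nat_lit 3) n2042 (.arc (nat_lit 6) n2043 (.arc (nat_lit 9) n2044 (.fin (nat_lit 879628437) (nat_lit 0))))
def n2046 : Nd := .arc (nat_lit 6) n2041 (.arc (nat_lit 9) n2040 (.fin (nat_lit 879636629) (nat_lit 0)))
def n2047 : Nd := .arc (nat_lit 3) n2028 (.arc (nat_lit 6) n2027 (.fin (nat_lit 473862293) (nat_lit 0)))
def n2048 : Nd := .arc (nat_lit 3) n2034 (.arc (nat_lit 9) n2033 (.fin (nat_lit 744378517) (nat_lit 0)))
def n2049 : Nd := .arc (nat_lit 3) n2046 (.arc (nat_lit 6) n2047 (.arc (nat_lit 9) n2048 (.fin (nat_lit 947261589) (nat_lit 0))))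
def n2050 : Nd := .arc (nat_lit 38) n1998 (.arc (nat_lit 41) n2007 (.arc (nat_lit 44) n2013 (.arc (nat_lit 47) n2017 (.arc (nat_lit 50) n2030 (.arc (nat_lit 53) n2039 (.arc (nat_lit 56) n2045 (.arc (nat_lit 59) n2049 (.fin (nat_lit 122613917) (nat_lit 0)))))))))
def n2051 : Nd := .arc (nat_lit 3) n2050 (.fin (nat_lit 188141723) (nat_lit 0))
def n2052 : Nd := .arc (nat_lit 26) n1998 (.arc (nat_lit 29) n2007 (.arc (nat_lit 32) n2017 (.arc (nat_lit 35) n2013 (.arc (nat_lit 62) n2030 (.arc (nat_lit 65) n2039 (.arc (nat_lit 68) n2049 (.arc (nat_lit 71) n2045 (.fin (nat_lit 188149915) (nat_lit 0)))))))))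
def n2053 : Nd := .arc (nat_lit 3) n2052 (.arc (nat_lit 40) n1990 (.arc (nat_lit 43) n1994 (.arc (nat_lit 46) n1997 (.fin (nat_lit 122605725) (nat_lit 0)))))
def n2054 : Nd := .arc (nat_lit 6) n2051 (.arc (nat_lit 9) n2053 (.fin (nat_lit 592851097) (nat_lit 0)))
def n2055 : Nd := .arc (nat_lit 26) n2030 (.arc (nat_lit 29) n2039 (.arc (nat_lit 32) n2049 (.arc (nat_lit 35) n2045 (.arc (nat_lit 50) n1998 (.arc (nat_lit 53) n2007 (.arc (nat_lit 56) n2013 (.arc (nat_lit 59) n2017 (.fin (nat_lit 592900249) (nat_lit 0)))))))))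
def n2056 : Nd := .arc (nat_lit 9) n2055 (.arc (nat_lit 64) n2022 (.arc (nat_lit 67) n2029 (.arc (nat_lit 70) n2026 (.fin (nat_lit 188117147) (nat_lit 0)))))
def n2057 : Nd := .arc (nat_lit 6) n2052 (.arc (nat_lit 52) n1990 (.arc (nat_lit 55) n1994 (.arc (nat_lit 58) n1997 (.fin (nat_lit 592883865) (nat_lit 0)))))
def n2058 : Nd := .arc (nat_lit 3) n2056 (.arc (nat_lit 6) n2057 (.fin (nat_lit 122589341) (nat_lit 0)))
def n2059 : Nd := .arc (nat_lit 6) n2055 (.arc (nat_lit 52) n2022 (.arc (nat_lit 55) n2026 (.arc (nat_lit 58) n2029 (.fin (nat_lit 122597533) (nat_lit 0)))))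
def n2060 : Nd := .arc (nat_lit 9) n2050 (.fin (nat_lit 592867481) (nat_lit 0))
def n2061 : Nd := .arc (nat_lit 3) n2059 (.arc (nat_lit 9) n2060 (.fin (nat_lit 188108955) (nat_lit 0)))
def n2062 : Nd := .arc (nat_lit 3) n2054 (.arc (nat_lit 6) n2058 (.arc (nat_lit 9) n2061 (.fin (nat_lit 321786007) (nat_lit 0))))
def n2063 : Nd := .arc (nat_lit 6) n2053 (.arc (nat_lit 9) n2051 (.fin (nat_lit 321794199) (nat_lit 0)))
def n2064 : Nd := .arc (nat_lit 38) n2030 (.arc (nat_lit 41) n2039 (.arc (nat_lit 44) n2045 (.arc (nat_lit 47) n2049 (.arc (nat_lit 62) n1998 (.arc (nat_lit 65) n2007 (.arc (nat_lit 68) n2017 (.arc (nat_lit 71) n2013 (.fin (nat_lit 321843351) (nat_lit 0)))))))))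
def n2065 : Nd := .arc (nat_lit 9) n2064 (.fin (nat_lit 122581149) (nat_lit 0))
def n2066 : Nd := .arc (nat_lit 6) n2050 (.fin (nat_lit 321826967) (nat_lit 0))
def n2067 : Nd := .arc (nat_lit 3) n2065 (.arc (nat_lit 6) n2066 (.fin (nat_lit 188125339) (nat_lit 0)))
def n2068 : Nd := .arc (nat_lit 6) n2064 (.fin (nat_lit 188133531) (nat_lit 0))
def n2069 : Nd := .arc (nat_lit 9) n2052 (.arc (nat_lit 64) n1990 (.arc (nat_lit 67) n1997 (.arc (nat_lit 70) n1994 (.fin (nat_lit 321810583) (nat_lit 0)))))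
def n2070 : Nd := .arc (nat_lit 3) n2068 (.arc (nat_lit 9) n2069 (.fin (nat_lit 122572957) (nat_lit 0)))
def n2071 : Nd := .arc (nat_lit 3) n2063 (.arc (nat_lit 6) n2067 (.arc (nat_lit 9) n2070 (.fin (nat_lit 592842905) (nat_lit 0))))
def n2072 : Nd := .arc (nat_lit 3) n2064 (.fin (nat_lit 592892057) (nat_lit 0))
def n2073 : Nd := .arc (nat_lit 3) n2055 (.arc (nat_lit 40) n2022 (.arc (nat_lit 43) n2026 (.arc (nat_lit 46) n2029 (.fin (nat_lit 321835159) (nat_lit 0)))))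
def n2074 : Nd := .arc (nat_lit 6) n2072 (.arc (nat_lit 9) n2073 (.fin (nat_lit 122564765) (nat_lit 0)))
def n2075 : Nd := .arc (nat_lit 3) n2060 (.arc (nat_lit 6) n2059 (.fin (nat_lit 321818775) (nat_lit 0)))
def n2076 : Nd := .arc (nat_lit 3) n2066 (.arc (nat_lit 9) n2065 (.fin (nat_lit 592859289) (nat_lit 0)))
def n2077 : Nd := .arc (nat_lit 3) n2074 (.arc (nat_lit 6) n2075 (.arc (nat_lit 9) n2076 (.fin (nat_lit 188092571) (nat_lit 0))))
def n2078 : Nd := .arc (nat_lit 6) n2073 (.arc (nat_lit 9) n2072 (.fin (nat_lit 188100763) (nat_lit 0)))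
def n2079 : Nd := .arc (nat_lit 3) n2069 (.arc (nat_lit 6) n2068 (.fin (nat_lit 592875673) (nat_lit 0)))
def n2080 : Nd := .arc (nat_lit 3) n2057 (.arc (nat_lit 9) n2056 (.fin (nat_lit 321802391) (nat_lit 0)))
def n2081 : Nd := .arc (nat_lit 3) n2078 (.arc (nat_lit 6) n2079 (.arc (nat_lit 9) n2080 (.fin (nat_lit 122556573) (nat_lit 0))))
def n2082 : Nd := .arc (nat_lit 26) n846 (.arc (nat_lit 29) n855 (.arc (nat_lit 32) n861 (.arc (nat_lit 35) n865 (.arc (nat_lit 50) n893 (.arc (nat_lit 53) n897 (.arc (nat_lit 56) n887 (.arc (nat_lit 59) n878 (.fin (nat_lit 945221781) (nat_lit 0)))))))))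
def n2083 : Nd := .arc (nat_lit 3) n2082 (.arc (nat_lit 40) n838 (.arc (nat_lit 43) n842 (.arc (nat_lit 46) n845 (.fin (nat_lit 875483285) (nat_lit 0)))))
def n2084 : Nd := .arc (nat_lit 38) n846 (.arc (nat_lit 41) n855 (.arc (nat_lit 44) n865 (.arc (nat_lit 47) n861 (.arc (nat_lit 62) n893 (.arc (nat_lit 65) n897 (.arc (nat_lit 68) n878 (.arc (nat_lit 71) n887 (.fin (nat_lit 875491477) (nat_lit 0)))))))))
def n2085 : Nd := .arc (nat_lit 3) n2084 (.fin (nat_lit 945213589) (nat_lit 0))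
def n2086 : Nd := .arc (nat_lit 6) n2083 (.arc (nat_lit 9) n2085 (.fin (nat_lit 473313429) (nat_lit 0)))
def n2087 : Nd := .arc (nat_lit 26) n893 (.arc (nat_lit 29) n897 (.arc (nat_lit 32) n878 (.arc (nat_lit 35) n887 (.arc (nat_lit 62) n846 (.arc (nat_lit 65) n855 (.arc (nat_lit 68) n861 (.arc (nat_lit 71) n865 (.fin (nat_lit 473362581) (nat_lit 0)))))))))
def n2088 : Nd := .arc (nat_lit 9) n2087 (.arc (nat_lit 64) n890 (.arc (nat_lit 67) n892 (.arc (nat_lit 70) n891 (.fin (nat_lit 875458709) (nat_lit 0)))))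
def n2089 : Nd := .arc (nat_lit 6) n2084 (.fin (nat_lit 473346197) (nat_lit 0))
def n2090 : Nd := .arc (nat_lit 3) n2088 (.arc (nat_lit 6) n2089 (.fin (nat_lit 945197205) (nat_lit 0)))
def n2091 : Nd := .arc (nat_lit 6) n2087 (.arc (nat_lit 52) n890 (.arc (nat_lit 55) n891 (.arc (nat_lit 58) n892 (.fin (nat_lit 945205397) (nat_lit 0)))))
def n2092 : Nd := .arc (nat_lit 9) n2082 (.arc (nat_lit 64) n838 (.arc (nat_lit 67) n845 (.arc (nat_lit 70) n842 (.fin (nat_lit 473329813) (nat_lit 0)))))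
def n2093 : Nd := .arc (nat_lit 3) n2091 (.arc (nat_lit 9) n2092 (.fin (nat_lit 875450517) (nat_lit 0)))
def n2094 : Nd := .arc (nat_lit 3) n2086 (.arc (nat_lit 6) n2090 (.arc (nat_lit 9) n2093 (.fin (nat_lit 743313557) (nat_lit 0))))
def n2095 : Nd := .arc (nat_lit 6) n2085 (.arc (nat_lit 9) n2083 (.fin (nat_lit 743321749) (nat_lit 0)))
def n2096 : Nd := .arc (nat_lit 38) n893 (.arc (nat_lit 41) n897 (.arc (nat_lit 44) n887 (.arc (nat_lit 47) n878 (.arc (nat_lit 50) n846 (.arc (nat_lit 53) n855 (.arc (nat_lit 56) n865 (.arc (nat_lit 59) n861 (.fin (nat_lit 743370901) (nat_lit 0)))))))))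
def n2097 : Nd := .arc (nat_lit 9) n2096 (.fin (nat_lit 945189013) (nat_lit 0))
def n2098 : Nd := .arc (nat_lit 6) n2082 (.arc (nat_lit 52) n838 (.arc (nat_lit 55) n842 (.arc (nat_lit 58) n845 (.fin (nat_lit 743354517) (nat_lit 0)))))
def n2099 : Nd := .arc (nat_lit 3) n2097 (.arc (nat_lit 6) n2098 (.fin (nat_lit 875466901) (nat_lit 0)))
def n2100 : Nd := .arc (nat_lit 6) n2096 (.fin (nat_lit 875475093) (nat_lit 0))
def n2101 : Nd := .arc (nat_lit 9) n2084 (.fin (nat_lit 743338133) (nat_lit 0))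
def n2102 : Nd := .arc (nat_lit 3) n2100 (.arc (nat_lit 9) n2101 (.fin (nat_lit 945180821) (nat_lit 0)))
def n2103 : Nd := .arc (nat_lit 3) n2095 (.arc (nat_lit 6) n2099 (.arc (nat_lit 9) n2102 (.fin (nat_lit 473305237) (nat_lit 0))))
def n2104 : Nd := .arc (nat_lit 3) n2087 (.arc (nat_lit 40) n890 (.arc (nat_lit 43) n891 (.arc (nat_lit 46) n892 (.fin (nat_lit 743362709) (nat_lit 0)))))
def n2105 : Nd := .arc (nat_lit 3) n2096 (.fin (nat_lit 473354389) (nat_lit 0))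
def n2106 : Nd := .arc (nat_lit 6) n2104 (.arc (nat_lit 9) n2105 (.fin (nat_lit 875442325) (nat_lit 0)))
def n2107 : Nd := .arc (nat_lit 3) n2101 (.arc (nat_lit 6) n2100 (.fin (nat_lit 473338005) (nat_lit 0)))
def n2108 : Nd := .arc (nat_lit 3) n2089 (.arc (nat_lit 9) n2088 (.fin (nat_lit 743329941) (nat_lit 0)))
def n2109 : Nd := .arc (nat_lit 3) n2106 (.arc (nat_lit 6) n2107 (.arc (nat_lit 9) n2108 (.fin (nat_lit 945164437) (nat_lit 0))))
def n2110 : Nd := .arc (nat_lit 6) n2105 (.arc (nat_lit 9) n2104 (.fin (nat_lit 945172629) (nat_lit 0)))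
def n2111 : Nd := .arc (nat_lit 3) n2092 (.arc (nat_lit 6) n2091 (.fin (nat_lit 743346325) (nat_lit 0)))
def n2112 : Nd := .arc (nat_lit 3) n2098 (.arc (nat_lit 9) n2097 (.fin (nat_lit 473321621) (nat_lit 0)))
def n2113 : Nd := .arc (nat_lit 3) n2110 (.arc (nat_lit 6) n2111 (.arc (nat_lit 9) n2112 (.fin (nat_lit 875434133) (nat_lit 0))))
def n2114 : Nd := .arc (nat_lit 38) n1921 (.arc (nat_lit 41) n1917 (.arc (nat_lit 44) n1911 (.arc (nat_lit 47) n1902 (.arc (nat_lit 50) n1889 (.arc (nat_lit 53) n1885 (.arc (nat_lit 56) n1879 (.arc (nat_lit 59) n1870 (.fin (nat_lit 844034199) (nat_lit 0)))))))))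
def n2115 : Nd := .arc (nat_lit 3) n2114 (.fin (nat_lit 842453145) (nat_lit 0))
def n2116 : Nd := .arc (nat_lit 26) n1921 (.arc (nat_lit 29) n1917 (.arc (nat_lit 32) n1902 (.arc (nat_lit 35) n1911 (.arc (nat_lit 62) n1889 (.arc (nat_lit 65) n1885 (.arc (nat_lit 68) n1870 (.arc (nat_lit 71) n1879 (.fin (nat_lit 842461337) (nat_lit 0)))))))))
def n2117 : Nd := .arc (nat_lit 3) n2116 (.arc (nat_lit 40) n1918 (.arc (nat_lit 43) n1919 (.arc (nat_lit 46) n1920 (.fin (nat_lit 844026007) (nat_lit 0)))))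
def n2118 : Nd := .arc (nat_lit 6) n2115 (.arc (nat_lit 9) n2117 (.fin (nat_lit 240529565) (nat_lit 0)))
def n2119 : Nd := .arc (nat_lit 26) n1889 (.arc (nat_lit 29) n1885 (.arc (nat_lit 32) n1870 (.arc (nat_lit 35) n1879 (.arc (nat_lit 50) n1921 (.arc (nat_lit 53) n1917 (.arc (nat_lit 56) n1911 (.arc (nat_lit 59) n1902 (.fin (nat_lit 240578717) (nat_lit 0)))))))))
def n2120 : Nd := .arc (nat_lit 9) n2119 (.arc (nat_lit 64) n1886 (.arc (nat_lit 67) n1888 (.arc (nat_lit 70) n1887 (.fin (nat_lit 842428569) (nat_lit 0)))))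
def n2121 : Nd := .arc (nat_lit 6) n2116 (.arc (nat_lit 52) n1918 (.arc (nat_lit 55) n1919 (.arc (nat_lit 58) n1920 (.fin (nat_lit 240562333) (nat_lit 0)))))
def n2122 : Nd := .arc (nat_lit 3) n2120 (.arc (nat_lit 6) n2121 (.fin (nat_lit 844009623) (nat_lit 0)))
def n2123 : Nd := .arc (nat_lit 6) n2119 (.arc (nat_lit 52) n1886 (.arc (nat_lit 55) n1887 (.arc (nat_lit 58) n1888 (.fin (nat_lit 844017815) (nat_lit 0)))))
def n2124 : Nd := .arc (nat_lit 9) n2114 (.fin (nat_lit 240545949) (nat_lit 0))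
def n2125 : Nd := .arc (nat_lit 3) n2123 (.arc (nat_lit 9) n2124 (.fin (nat_lit 842420377) (nat_lit 0)))
def n2126 : Nd := .arc (nat_lit 3) n2118 (.arc (nat_lit 6) n2122 (.arc (nat_lit 9) n2125 (.fin (nat_lit 237899931) (nat_lit 0))))
def n2127 : Nd := .arc (nat_lit 6) n2117 (.arc (nat_lit 9) n2115 (.fin (nat_lit 237908123) (nat_lit 0)))
def n2128 : Nd := .arc (nat_lit 38) n1889 (.arc (nat_lit 41) n1885 (.arc (nat_lit 44) n1879 (.arc (nat_lit 47) n1870 (.arc (nat_lit 62) n1921 (.arc (nat_lit 65) n1917 (.arc (nat_lit 68) n1902 (.arc (nat_lit 71) n1911 (.fin (nat_lit 237957275) (nat_lit 0)))))))))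
def n2129 : Nd := .arc (nat_lit 9) n2128 (.fin (nat_lit 844001431) (nat_lit 0))
def n2130 : Nd := .arc (nat_lit 6) n2114 (.fin (nat_lit 237940891) (nat_lit 0))
def n2131 : Nd := .arc (nat_lit 3) n2129 (.arc (nat_lit 6) n2130 (.fin (nat_lit 842436761) (nat_lit 0)))
def n2132 : Nd := .arc (nat_lit 6) n2128 (.fin (nat_lit 842444953) (nat_lit 0))
def n2133 : Nd := .arc (nat_lit 9) n2116 (.arc (nat_lit 64) n1918 (.arc (nat_lit 67) n1920 (.arc (nat_lit 70) n1919 (.fin (nat_lit 237924507) (nat_lit 0)))))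
def n2134 : Nd := .arc (nat_lit 3) n2132 (.arc (nat_lit 9) n2133 (.fin (nat_lit 843993239) (nat_lit 0)))
def n2135 : Nd := .arc (nat_lit 3) n2127 (.arc (nat_lit 6) n2131 (.arc (nat_lit 9) n2134 (.fin (nat_lit 240521373) (nat_lit 0))))
def n2136 : Nd := .arc (nat_lit 3) n2119 (.arc (nat_lit 40) n1886 (.arc (nat_lit 43) n1887 (.arc (nat_lit 46) n1888 (.fin (nat_lit 237949083) (nat_lit 0)))))
def n2137 : Nd := .arc (nat_lit 3) n2128 (.fin (nat_lit 240570525) (nat_lit 0))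
def n2138 : Nd := .arc (nat_lit 6) n2136 (.arc (nat_lit 9) n2137 (.fin (nat_lit 842412185) (nat_lit 0)))
def n2139 : Nd := .arc (nat_lit 3) n2133 (.arc (nat_lit 6) n2132 (.fin (nat_lit 240554141) (nat_lit 0)))
def n2140 : Nd := .arc (nat_lit 3) n2121 (.arc (nat_lit 9) n2120 (.fin (nat_lit 237916315) (nat_lit 0)))
def n2141 : Nd := .arc (nat_lit 3) n2138 (.arc (nat_lit 6) n2139 (.arc (nat_lit 9) n2140 (.fin (nat_lit 843976855) (nat_lit 0))))
def n2142 : Nd := .arc (nat_lit 6) n2137 (.arc (nat_lit 9) n2136 (.fin (nat_lit 843985047) (nat_lit 0)))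
def n2143 : Nd := .arc (nat_lit 3) n2124 (.arc (nat_lit 6) n2123 (.fin (nat_lit 237932699) (nat_lit 0)))
def n2144 : Nd := .arc (nat_lit 3) n2130 (.arc (nat_lit 9) n2129 (.fin (nat_lit 240537757) (nat_lit 0)))
def n2145 : Nd := .arc (nat_lit 3) n2142 (.arc (nat_lit 6) n2143 (.arc (nat_lit 9) n2144 (.fin (nat_lit 842403993) (nat_lit 0))))
def n2146 : Nd := .arc (nat_lit 14) n2062 (.arc (nat_lit 17) n2071 (.arc (nat_lit 20) n2077 (.arc (nat_lit 23) n2081 (.arc (nat_lit 38) n2094 (.arc (nat_lit 41) n2103 (.arc (nat_lit 44) n2109 (.arc (nat_lit 47) n2113 (.arc (nat_lit 50) n2126 (.arc (nat_lit 53) n2135 (.arc (nat_lit 56) n2141 (.arc (nat_lit 59) n2145 (.fin (nat_lit 592113815) (nat_lit 0)))))))))))))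
def n2147 : Nd := .arc (nat_lit 3) n2146 (.fin (nat_lit 322097305) (nat_lit 0))
def n2148 : Nd := .arc (nat_lit 14) n2071 (.arc (nat_lit 17) n2062 (.arc (nat_lit 20) n2081 (.arc (nat_lit 23) n2077 (.arc (nat_lit 26) n2094 (.arc (nat_lit 29) n2103 (.arc (nat_lit 32) n2113 (.arc (nat_lit 35) n2109 (.arc (nat_lit 62) n2126 (.arc (nat_lit 65) n2135 (.arc (nat_lit 68) n2145 (.arc (nat_lit 71) n2141 (.fin (nat_lit 322105497) (nat_lit 0)))))))))))))
def n2149 : Nd := .arc (nat_lit 3) n2148 (.arc (nat_lit 40) n2086 (.arc (nat_lit 43) n2090 (.arc (nat_lit 46) n2093 (.fin (nat_lit 592105623) (nat_lit 0)))))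
def n2150 : Nd := .arc (nat_lit 6) n2147 (.arc (nat_lit 9) n2149 (.fin (nat_lit 189935773) (nat_lit 0)))
def n2151 : Nd := .arc (nat_lit 14) n2077 (.arc (nat_lit 17) n2081 (.arc (nat_lit 20) n2071 (.arc (nat_lit 23) n2062 (.arc (nat_lit 26) n2126 (.arc (nat_lit 29) n2135 (.arc (nat_lit 32) n2145 (.arc (nat_lit 35) n2141 (.arc (nat_lit 50) n2094 (.arc (nat_lit 53) n2103 (.arc (nat_lit 56) n2109 (.arc (nat_lit 59) n2113 (.fin (nat_lit 189984925) (nat_lit 0)))))))))))))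
def n2152 : Nd := .arc (nat_lit 9) n2151 (.arc (nat_lit 64) n2118 (.arc (nat_lit 67) n2125 (.arc (nat_lit 70) n2122 (.fin (nat_lit 322072729) (nat_lit 0)))))
def n2153 : Nd := .arc (nat_lit 6) n2148 (.arc (nat_lit 52) n2086 (.arc (nat_lit 55) n2090 (.arc (nat_lit 58) n2093 (.fin (nat_lit 189968541) (nat_lit 0)))))
def n2154 : Nd := .arc (nat_lit 3) n2152 (.arc (nat_lit 6) n2153 (.fin (nat_lit 592089239) (nat_lit 0)))
def n2155 : Nd := .arc (nat_lit 6) n2151 (.arc (nat_lit 52) n2118 (.arc (nat_lit 55) n2122 (.arc (nat_lit 58) n2125 (.fin (nat_lit 592097431) (nat_lit 0)))))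
def n2156 : Nd := .arc (nat_lit 9) n2146 (.fin (nat_lit 189952157) (nat_lit 0))
def n2157 : Nd := .arc (nat_lit 3) n2155 (.arc (nat_lit 9) n2156 (.fin (nat_lit 322064537) (nat_lit 0)))
def n2158 : Nd := .arc (nat_lit 3) n2150 (.arc (nat_lit 6) n2154 (.arc (nat_lit 9) n2157 (.fin (nat_lit 120197275) (nat_lit 0))))
def n2159 : Nd := .arc (nat_lit 6) n2149 (.arc (nat_lit 9) n2147 (.fin (nat_lit 120205467) (nat_lit 0)))
def n2160 : Nd := .arc (nat_lit 14) n2081 (.arc (nat_lit 17) n2077 (.arc (nat_lit 20) n2062 (.arc (nat_lit 23) n2071 (.arc (nat_lit 38) n2126 (.arc (nat_lit 41) n2135 (.arc (nat_lit 44) n2141 (.arc (nat_lit 47) n2145 (.arc (nat_lit 62) n2094 (.arc (nat_lit 65) n2103 (.arc (nat_lit 68) n2113 (.arc (nat_lit 71) n2109 (.fin (nat_lit 120254619) (nat_lit 0)))))))))))))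
def n2161 : Nd := .arc (nat_lit 9) n2160 (.fin (nat_lit 592081047) (nat_lit 0))
def n2162 : Nd := .arc (nat_lit 6) n2146 (.fin (nat_lit 120238235) (nat_lit 0))
def n2163 : Nd := .arc (nat_lit 3) n2161 (.arc (nat_lit 6) n2162 (.fin (nat_lit 322080921) (nat_lit 0)))
def n2164 : Nd := .arc (nat_lit 6) n2160 (.fin (nat_lit 322089113) (nat_lit 0))
def n2165 : Nd := .arc (nat_lit 9) n2148 (.arc (nat_lit 64) n2086 (.arc (nat_lit 67) n2093 (.arc (nat_lit 70) n2090 (.fin (nat_lit 120221851) (nat_lit 0)))))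
def n2166 : Nd := .arc (nat_lit 3) n2164 (.arc (nat_lit 9) n2165 (.fin (nat_lit 592072855) (nat_lit 0)))
def n2167 : Nd := .arc (nat_lit 3) n2159 (.arc (nat_lit 6) n2163 (.arc (nat_lit 9) n2166 (.fin (nat_lit 189927581) (nat_lit 0))))
def n2168 : Nd := .arc (nat_lit 3) n2160 (.fin (nat_lit 189976733) (nat_lit 0))
def n2169 : Nd := .arc (nat_lit 3) n2151 (.arc (nat_lit 40) n2118 (.arc (nat_lit 43) n2122 (.arc (nat_lit 46) n2125 (.fin (nat_lit 120246427) (nat_lit 0)))))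
def n2170 : Nd := .arc (nat_lit 6) n2168 (.arc (nat_lit 9) n2169 (.fin (nat_lit 592064663) (nat_lit 0)))
def n2171 : Nd := .arc (nat_lit 3) n2156 (.arc (nat_lit 6) n2155 (.fin (nat_lit 120230043) (nat_lit 0)))
def n2172 : Nd := .arc (nat_lit 3) n2162 (.arc (nat_lit 9) n2161 (.fin (nat_lit 189943965) (nat_lit 0)))
def n2173 : Nd := .arc (nat_lit 3) n2170 (.arc (nat_lit 6) n2171 (.arc (nat_lit 9) n2172 (.fin (nat_lit 322048153) (nat_lit 0))))
def n2174 : Nd := .arc (nat_lit 6) n2169 (.arc (nat_lit 9) n2168 (.fin (nat_lit 322056345) (nat_lit 0)))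
def n2175 : Nd := .arc (nat_lit 3) n2165 (.arc (nat_lit 6) n2164 (.fin (nat_lit 189960349) (nat_lit 0)))
def n2176 : Nd := .arc (nat_lit 3) n2153 (.arc (nat_lit 9) n2152 (.fin (nat_lit 120213659) (nat_lit 0)))
def n2177 : Nd := .arc (nat_lit 3) n2174 (.arc (nat_lit 6) n2175 (.arc (nat_lit 9) n2176 (.fin (nat_lit 592056471) (nat_lit 0))))
def n2178 : Nd := .arc (nat_lit 38) n2007 (.arc (nat_lit 41) n1998 (.arc (nat_lit 44) n2017 (.arc (nat_lit 47) n2013 (.arc (nat_lit 62) n2039 (.arc (nat_lit 65) n2030 (.arc (nat_lit 68) n2045 (.arc (nat_lit 71) n2049 (.fin (nat_lit 120516763) (nat_lit 0)))))))))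
def n2179 : Nd := .arc (nat_lit 3) n2178 (.fin (nat_lit 190238877) (nat_lit 0))
def n2180 : Nd := .arc (nat_lit 26) n2007 (.arc (nat_lit 29) n1998 (.arc (nat_lit 32) n2013 (.arc (nat_lit 35) n2017 (.arc (nat_lit 50) n2039 (.arc (nat_lit 53) n2030 (.arc (nat_lit 56) n2049 (.arc (nat_lit 59) n2045 (.fin (nat_lit 190247069) (nat_lit 0)))))))))
def n2181 : Nd := .arc (nat_lit 3) n2180 (.arc (nat_lit 40) n1999 (.arc (nat_lit 43) n2003 (.arc (nat_lit 46) n2006 (.fin (nat_lit 120508571) (nat_lit 0)))))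
def n2182 : Nd := .arc (nat_lit 6) n2179 (.arc (nat_lit 9) n2181 (.fin (nat_lit 592326807) (nat_lit 0)))
def n2183 : Nd := .arc (nat_lit 38) n2039 (.arc (nat_lit 41) n2030 (.arc (nat_lit 44) n2049 (.arc (nat_lit 47) n2045 (.arc (nat_lit 50) n2007 (.arc (nat_lit 53) n1998 (.arc (nat_lit 56) n2017 (.arc (nat_lit 59) n2013 (.fin (nat_lit 592375959) (nat_lit 0)))))))))
def n2184 : Nd := .arc (nat_lit 9) n2183 (.fin (nat_lit 190214301) (nat_lit 0))
def n2185 : Nd := .arc (nat_lit 6) n2180 (.arc (nat_lit 52) n1999 (.arc (nat_lit 55) n2003 (.arc (nat_lit 58) n2006 (.fin (nat_lit 592359575) (nat_lit 0)))))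
def n2186 : Nd := .arc (nat_lit 3) n2184 (.arc (nat_lit 6) n2185 (.fin (nat_lit 120492187) (nat_lit 0)))
def n2187 : Nd := .arc (nat_lit 6) n2183 (.fin (nat_lit 120500379) (nat_lit 0))
def n2188 : Nd := .arc (nat_lit 9) n2178 (.fin (nat_lit 592343191) (nat_lit 0))
def n2189 : Nd := .arc (nat_lit 3) n2187 (.arc (nat_lit 9) n2188 (.fin (nat_lit 190206109) (nat_lit 0)))
def n2190 : Nd := .arc (nat_lit 3) n2182 (.arc (nat_lit 6) n2186 (.arc (nat_lit 9) n2189 (.fin (nat_lit 322310297) (nat_lit 0))))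
def n2191 : Nd := .arc (nat_lit 6) n2181 (.arc (nat_lit 9) n2179 (.fin (nat_lit 322318489) (nat_lit 0)))
def n2192 : Nd := .arc (nat_lit 26) n2039 (.arc (nat_lit 29) n2030 (.arc (nat_lit 32) n2045 (.arc (nat_lit 35) n2049 (.arc (nat_lit 62) n2007 (.arc (nat_lit 65) n1998 (.arc (nat_lit 68) n2013 (.arc (nat_lit 71) n2017 (.fin (nat_lit 322367641) (nat_lit 0)))))))))
def n2193 : Nd := .arc (nat_lit 9) n2192 (.arc (nat_lit 64) n2031 (.arc (nat_lit 67) n2038 (.arc (nat_lit 70) n2035 (.fin (nat_lit 120483995) (nat_lit 0)))))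
def n2194 : Nd := .arc (nat_lit 6) n2178 (.fin (nat_lit 322351257) (nat_lit 0))
def n2195 : Nd := .arc (nat_lit 3) n2193 (.arc (nat_lit 6) n2194 (.fin (nat_lit 190222493) (nat_lit 0)))
def n2196 : Nd := .arc (nat_lit 6) n2192 (.arc (nat_lit 52) n2031 (.arc (nat_lit 55) n2035 (.arc (nat_lit 58) n2038 (.fin (nat_lit 190230685) (nat_lit 0)))))
def n2197 : Nd := .arc (nat_lit 9) n2180 (.arc (nat_lit 64) n1999 (.arc (nat_lit 67) n2006 (.arc (nat_lit 70) n2003 (.fin (nat_lit 322334873) (nat_lit 0)))))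
def n2198 : Nd := .arc (nat_lit 3) n2196 (.arc (nat_lit 9) n2197 (.fin (nat_lit 120475803) (nat_lit 0)))
def n2199 : Nd := .arc (nat_lit 3) n2191 (.arc (nat_lit 6) n2195 (.arc (nat_lit 9) n2198 (.fin (nat_lit 592318615) (nat_lit 0))))
def n2200 : Nd := .arc (nat_lit 3) n2192 (.arc (nat_lit 40) n2031 (.arc (nat_lit 43) n2035 (.arc (nat_lit 46) n2038 (.fin (nat_lit 592367767) (nat_lit 0)))))
def n2201 : Nd := .arc (nat_lit 3) n2183 (.fin (nat_lit 322359449) (nat_lit 0))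
def n2202 : Nd := .arc (nat_lit 6) n2200 (.arc (nat_lit 9) n2201 (.fin (nat_lit 120467611) (nat_lit 0)))
def n2203 : Nd := .arc (nat_lit 3) n2188 (.arc (nat_lit 6) n2187 (.fin (nat_lit 322343065) (nat_lit 0)))
def n2204 : Nd := .arc (nat_lit 3) n2194 (.arc (nat_lit 9) n2193 (.fin (nat_lit 592334999) (nat_lit 0)))
def n2205 : Nd := .arc (nat_lit 3) n2202 (.arc (nat_lit 6) n2203 (.arc (nat_lit 9) n2204 (.fin (nat_lit 190189725) (nat_lit 0))))
def n2206 : Nd := .arc (nat_lit 6) n2201 (.arc (nat_lit 9) n2200 (.fin (nat_lit 190197917) (nat_lit 0)))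
def n2207 : Nd := .arc (nat_lit 3) n2197 (.arc (nat_lit 6) n2196 (.fin (nat_lit 592351383) (nat_lit 0)))
def n2208 : Nd := .arc (nat_lit 3) n2185 (.arc (nat_lit 9) n2184 (.fin (nat_lit 322326681) (nat_lit 0)))
def n2209 : Nd := .arc (nat_lit 3) n2206 (.arc (nat_lit 6) n2207 (.arc (nat_lit 9) n2208 (.fin (nat_lit 120459419) (nat_lit 0))))
def n2210 : Nd := .arc (nat_lit 38) n1239 (.arc (nat_lit 41) n1230 (.arc (nat_lit 44) n1245 (.arc (nat_lit 47) n1249 (.arc (nat_lit 50) n1281 (.arc (nat_lit 53) n1277 (.arc (nat_lit 56) n1262 (.arc (nat_lit 59) n1271 (.fin (nat_lit 877588629) (nat_lit 0)))))))))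
def n2211 : Nd := .arc (nat_lit 3) n2210 (.fin (nat_lit 943116437) (nat_lit 0))
def n2212 : Nd := .arc (nat_lit 26) n1239 (.arc (nat_lit 29) n1230 (.arc (nat_lit 32) n1249 (.arc (nat_lit 35) n1245 (.arc (nat_lit 62) n1281 (.arc (nat_lit 65) n1277 (.arc (nat_lit 68) n1271 (.arc (nat_lit 71) n1262 (.fin (nat_lit 943124629) (nat_lit 0)))))))))
def n2213 : Nd := .arc (nat_lit 3) n2212 (.arc (nat_lit 40) n1231 (.arc (nat_lit 43) n1235 (.arc (nat_lit 46) n1238 (.fin (nat_lit 877580437) (nat_lit 0)))))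
def n2214 : Nd := .arc (nat_lit 6) n2211 (.arc (nat_lit 9) n2213 (.fin (nat_lit 743846037) (nat_lit 0)))
def n2215 : Nd := .arc (nat_lit 26) n1281 (.arc (nat_lit 29) n1277 (.arc (nat_lit 32) n1271 (.arc (nat_lit 35) n1262 (.arc (nat_lit 50) n1239 (.arc (nat_lit 53) n1230 (.arc (nat_lit 56) n1245 (.arc (nat_lit 59) n1249 (.fin (nat_lit 743895189) (nat_lit 0)))))))))
def n2216 : Nd := .arc (nat_lit 9) n2215 (.arc (nat_lit 64) n1278 (.arc (nat_lit 67) n1280 (.arc (nat_lit 70) n1279 (.fin (nat_lit 943091861) (nat_lit 0)))))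
def n2217 : Nd := .arc (nat_lit 6) n2212 (.arc (nat_lit 52) n1231 (.arc (nat_lit 55) n1235 (.arc (nat_lit 58) n1238 (.fin (nat_lit 743878805) (nat_lit 0)))))
def n2218 : Nd := .arc (nat_lit 3) n2216 (.arc (nat_lit 6) n2217 (.fin (nat_lit 877564053) (nat_lit 0)))
def n2219 : Nd := .arc (nat_lit 6) n2215 (.arc (nat_lit 52) n1278 (.arc (nat_lit 55) n1279 (.arc (nat_lit 58) n1280 (.fin (nat_lit 877572245) (nat_lit 0)))))
def n2220 : Nd := .arc (nat_lit 9) n2210 (.fin (nat_lit 743862421) (nat_lit 0))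
def n2221 : Nd := .arc (nat_lit 3) n2219 (.arc (nat_lit 9) n2220 (.fin (nat_lit 943083669) (nat_lit 0)))
def n2222 : Nd := .arc (nat_lit 3) n2214 (.arc (nat_lit 6) n2218 (.arc (nat_lit 9) n2221 (.fin (nat_lit 472780949) (nat_lit 0))))
def n2223 : Nd := .arc (nat_lit 6) n2213 (.arc (nat_lit 9) n2211 (.fin (nat_lit 472789141) (nat_lit 0)))
def n2224 : Nd := .arc (nat_lit 38) n1281 (.arc (nat_lit 41) n1277 (.arc (nat_lit 44) n1262 (.arc (nat_lit 47) n1271 (.arc (nat_lit 62) n1239 (.arc (nat_lit 65) n1230 (.arc (nat_lit 68) n1249 (.arc (nat_lit 71) n1245 (.fin (nat_lit 472838293) (nat_lit 0)))))))))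
def n2225 : Nd := .arc (nat_lit 9) n2224 (.fin (nat_lit 877555861) (nat_lit 0))
def n2226 : Nd := .arc (nat_lit 6) n2210 (.fin (nat_lit 472821909) (nat_lit 0))
def n2227 : Nd := .arc (nat_lit 3) n2225 (.arc (nat_lit 6) n2226 (.fin (nat_lit 943100053) (nat_lit 0)))
def n2228 : Nd := .arc (nat_lit 6) n2224 (.fin (nat_lit 943108245) (nat_lit 0))
def n2229 : Nd := .arc (nat_lit 9) n2212 (.arc (nat_lit 64) n1231 (.arc (nat_lit 67) n1238 (.arc (nat_lit 70) n1235 (.fin (nat_lit 472805525) (nat_lit 0)))))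
def n2230 : Nd := .arc (nat_lit 3) n2228 (.arc (nat_lit 9) n2229 (.fin (nat_lit 877547669) (nat_lit 0)))
def n2231 : Nd := .arc (nat_lit 3) n2223 (.arc (nat_lit 6) n2227 (.arc (nat_lit 9) n2230 (.fin (nat_lit 743837845) (nat_lit 0))))
def n2232 : Nd := .arc (nat_lit 3) n2224 (.fin (nat_lit 743886997) (nat_lit 0))
def n2233 : Nd := .arc (nat_lit 3) n2215 (.arc (nat_lit 40) n1278 (.arc (nat_lit 43) n1279 (.arc (nat_lit 46) n1280 (.fin (nat_lit 472830101) (nat_lit 0)))))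
def n2234 : Nd := .arc (nat_lit 6) n2232 (.arc (nat_lit 9) n2233 (.fin (nat_lit 877539477) (nat_lit 0)))
def n2235 : Nd := .arc (nat_lit 3) n2220 (.arc (nat_lit 6) n2219 (.fin (nat_lit 472813717) (nat_lit 0)))
def n2236 : Nd := .arc (nat_lit 3) n2226 (.arc (nat_lit 9) n2225 (.fin (nat_lit 743854229) (nat_lit 0)))
def n2237 : Nd := .arc (nat_lit 3) n2234 (.arc (nat_lit 6) n2235 (.arc (nat_lit 9) n2236 (.fin (nat_lit 943067285) (nat_lit 0))))
def n2238 : Nd := .arc (nat_lit 6) n2233 (.arc (nat_lit 9) n2232 (.fin (nat_lit 943075477) (nat_lit 0)))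
def n2239 : Nd := .arc (nat_lit 3) n2229 (.arc (nat_lit 6) n2228 (.fin (nat_lit 743870613) (nat_lit 0)))
def n2240 : Nd := .arc (nat_lit 3) n2217 (.arc (nat_lit 9) n2216 (.fin (nat_lit 472797333) (nat_lit 0)))
def n2241 : Nd := .arc (nat_lit 3) n2238 (.arc (nat_lit 6) n2239 (.arc (nat_lit 9) n2240 (.fin (nat_lit 877531285) (nat_lit 0))))
def n2242 : Nd := .arc (nat_lit 26) n1825 (.arc (nat_lit 29) n1821 (.arc (nat_lit 32) n1815 (.arc (nat_lit 35) n1806 (.arc (nat_lit 50) n1793 (.arc (nat_lit 53) n1789 (.arc (nat_lit 56) n1783 (.arc (nat_lit 59) n1774 (.fin (nat_lit 844558489) (nat_lit 0)))))))))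
def n2243 : Nd := .arc (nat_lit 3) n2242 (.arc (nat_lit 40) n1822 (.arc (nat_lit 43) n1823 (.arc (nat_lit 46) n1824 (.fin (nat_lit 841928855) (nat_lit 0)))))
def n2244 : Nd := .arc (nat_lit 38) n1825 (.arc (nat_lit 41) n1821 (.arc (nat_lit 44) n1806 (.arc (nat_lit 47) n1815 (.arc (nat_lit 62) n1793 (.arc (nat_lit 65) n1789 (.arc (nat_lit 68) n1774 (.arc (nat_lit 71) n1783 (.fin (nat_lit 841937047) (nat_lit 0)))))))))
def n2245 : Nd := .arc (nat_lit 3) n2244 (.fin (nat_lit 844550297) (nat_lit 0))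
def n2246 : Nd := .arc (nat_lit 6) n2243 (.arc (nat_lit 9) n2245 (.fin (nat_lit 238432411) (nat_lit 0)))
def n2247 : Nd := .arc (nat_lit 26) n1793 (.arc (nat_lit 29) n1789 (.arc (nat_lit 32) n1774 (.arc (nat_lit 35) n1783 (.arc (nat_lit 62) n1825 (.arc (nat_lit 65) n1821 (.arc (nat_lit 68) n1815 (.arc (nat_lit 71) n1806 (.fin (nat_lit 238481563) (nat_lit 0)))))))))
def n2248 : Nd := .arc (nat_lit 9) n2247 (.arc (nat_lit 64) n1790 (.arc (nat_lit 67) n1792 (.arc (nat_lit 70) n1791 (.fin (nat_lit 841904279) (nat_lit 0)))))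
def n2249 : Nd := .arc (nat_lit 6) n2244 (.fin (nat_lit 238465179) (nat_lit 0))
def n2250 : Nd := .arc (nat_lit 3) n2248 (.arc (nat_lit 6) n2249 (.fin (nat_lit 844533913) (nat_lit 0)))
def n2251 : Nd := .arc (nat_lit 6) n2247 (.arc (nat_lit 52) n1790 (.arc (nat_lit 55) n1791 (.arc (nat_lit 58) n1792 (.fin (nat_lit 844542105) (nat_lit 0)))))
def n2252 : Nd := .arc (nat_lit 9) n2242 (.arc (nat_lit 64) n1822 (.arc (nat_lit 67) n1824 (.arc (nat_lit 70) n1823 (.fin (nat_lit 238448795) (nat_lit 0)))))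
def n2253 : Nd := .arc (nat_lit 3) n2251 (.arc (nat_lit 9) n2252 (.fin (nat_lit 841896087) (nat_lit 0)))
def n2254 : Nd := .arc (nat_lit 3) n2246 (.arc (nat_lit 6) n2250 (.arc (nat_lit 9) n2253 (.fin (nat_lit 239997085) (nat_lit 0))))
def n2255 : Nd := .arc (nat_lit 6) n2245 (.arc (nat_lit 9) n2243 (.fin (nat_lit 240005277) (nat_lit 0)))
def n2256 : Nd := .arc (nat_lit 38) n1793 (.arc (nat_lit 41) n1789 (.arc (nat_lit 44) n1783 (.arc (nat_lit 47) n1774 (.arc (nat_lit 50) n1825 (.arc (nat_lit 53) n1821 (.arc (nat_lit 56) n1806 (.arc (nat_lit 59) n1815 (.fin (nat_lit 240054429) (nat_lit 0)))))))))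
def n2257 : Nd := .arc (nat_lit 9) n2256 (.fin (nat_lit 844525721) (nat_lit 0))
def n2258 : Nd := .arc (nat_lit 6) n2242 (.arc (nat_lit 52) n1822 (.arc (nat_lit 55) n1823 (.arc (nat_lit 58) n1824 (.fin (nat_lit 240038045) (nat_lit 0)))))
def n2259 : Nd := .arc (nat_lit 3) n2257 (.arc (nat_lit 6) n2258 (.fin (nat_lit 841912471) (nat_lit 0)))
def n2260 : Nd := .arc (nat_lit 6) n2256 (.fin (nat_lit 841920663) (nat_lit 0))
def n2261 : Nd := .arc (nat_lit 9) n2244 (.fin (nat_lit 240021661) (nat_lit 0))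
def n2262 : Nd := .arc (nat_lit 3) n2260 (.arc (nat_lit 9) n2261 (.fin (nat_lit 844517529) (nat_lit 0)))
def n2263 : Nd := .arc (nat_lit 3) n2255 (.arc (nat_lit 6) n2259 (.arc (nat_lit 9) n2262 (.fin (nat_lit 238424219) (nat_lit 0))))
def n2264 : Nd := .arc (nat_lit 3) n2247 (.arc (nat_lit 40) n1790 (.arc (nat_lit 43) n1791 (.arc (nat_lit 46) n1792 (.fin (nat_lit 240046237) (nat_lit 0)))))
def n2265 : Nd := .arc (nat_lit 3) n2256 (.fin (nat_lit 238473371) (nat_lit 0))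
def n2266 : Nd := .arc (nat_lit 6) n2264 (.arc (nat_lit 9) n2265 (.fin (nat_lit 841887895) (nat_lit 0)))
def n2267 : Nd := .arc (nat_lit 3) n2261 (.arc (nat_lit 6) n2260 (.fin (nat_lit 238456987) (nat_lit 0)))
def n2268 : Nd := .arc (nat_lit 3) n2249 (.arc (nat_lit 9) n2248 (.fin (nat_lit 240013469) (nat_lit 0)))
def n2269 : Nd := .arc (nat_lit 3) n2266 (.arc (nat_lit 6) n2267 (.arc (nat_lit 9) n2268 (.fin (nat_lit 844501145) (nat_lit 0))))
def n2270 : Nd := .arc (nat_lit 6) n2265 (.arc (nat_lit 9) n2264 (.fin (nat_lit 844509337) (nat_lit 0)))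
def n2271 : Nd := .arc (nat_lit 3) n2252 (.arc (nat_lit 6) n2251 (.fin (nat_lit 240029853) (nat_lit 0)))
def n2272 : Nd := .arc (nat_lit 3) n2258 (.arc (nat_lit 9) n2257 (.fin (nat_lit 238440603) (nat_lit 0)))
def n2273 : Nd := .arc (nat_lit 3) n2270 (.arc (nat_lit 6) n2271 (.arc (nat_lit 9) n2272 (.fin (nat_lit 841879703) (nat_lit 0))))
def n2274 : Nd := .arc (nat_lit 14) n2190 (.arc (nat_lit 17) n2199 (.arc (nat_lit 20) n2205 (.arc (nat_lit 23) n2209 (.arc (nat_lit 26) n2222 (.arc (nat_lit 29) n2231 (.arc (nat_lit 32) n2237 (.arc (nat_lit 35) n2241 (.arc (nat_lit 50) n2254 (.arc (nat_lit 53) n2263 (.arc (nat_lit 56) n2269 (.arc (nat_lit 59) n2273 (.fin (nat_lit 592638105) (nat_lit 0)))))))))))))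
def n2275 : Nd := .arc (nat_lit 3) n2274 (.arc (nat_lit 40) n2214 (.arc (nat_lit 43) n2218 (.arc (nat_lit 46) n2221 (.fin (nat_lit 321573015) (nat_lit 0)))))
def n2276 : Nd := .arc (nat_lit 14) n2199 (.arc (nat_lit 17) n2190 (.arc (nat_lit 20) n2209 (.arc (nat_lit 23) n2205 (.arc (nat_lit 38) n2222 (.arc (nat_lit 41) n2231 (.arc (nat_lit 44) n2241 (.arc (nat_lit 47) n2237 (.arc (nat_lit 62) n2254 (.arc (nat_lit 65) n2263 (.arc (nat_lit 68) n2273 (.arc (nat_lit 71) n2269 (.fin (nat_lit 321581207) (nat_lit 0)))))))))))))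
def n2277 : Nd := .arc (nat_lit 3) n2276 (.fin (nat_lit 592629913) (nat_lit 0))
def n2278 : Nd := .arc (nat_lit 6) n2275 (.arc (nat_lit 9) n2277 (.fin (nat_lit 187838619) (nat_lit 0)))
def n2279 : Nd := .arc (nat_lit 14) n2205 (.arc (nat_lit 17) n2209 (.arc (nat_lit 20) n2199 (.arc (nat_lit 23) n2190 (.arc (nat_lit 26) n2254 (.arc (nat_lit 29) n2263 (.arc (nat_lit 32) n2273 (.arc (nat_lit 35) n2269 (.arc (nat_lit 62) n2222 (.arc (nat_lit 65) n2231 (.arc (nat_lit 68) n2237 (.arc (nat_lit 71) n2241 (.fin (nat_lit 187887771) (nat_lit 0)))))))))))))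
def n2280 : Nd := .arc (nat_lit 9) n2279 (.arc (nat_lit 64) n2246 (.arc (nat_lit 67) n2253 (.arc (nat_lit 70) n2250 (.fin (nat_lit 321548439) (nat_lit 0)))))
def n2281 : Nd := .arc (nat_lit 6) n2276 (.fin (nat_lit 187871387) (nat_lit 0))
def n2282 : Nd := .arc (nat_lit 3) n2280 (.arc (nat_lit 6) n2281 (.fin (nat_lit 592613529) (nat_lit 0)))
def n2283 : Nd := .arc (nat_lit 6) n2279 (.arc (nat_lit 52) n2246 (.arc (nat_lit 55) n2250 (.arc (nat_lit 58) n2253 (.fin (nat_lit 592621721) (nat_lit 0)))))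
def n2284 : Nd := .arc (nat_lit 9) n2274 (.arc (nat_lit 64) n2214 (.arc (nat_lit 67) n2221 (.arc (nat_lit 70) n2218 (.fin (nat_lit 187855003) (nat_lit 0)))))
def n2285 : Nd := .arc (nat_lit 3) n2283 (.arc (nat_lit 9) n2284 (.fin (nat_lit 321540247) (nat_lit 0)))
def n2286 : Nd := .arc (nat_lit 3) n2278 (.arc (nat_lit 6) n2282 (.arc (nat_lit 9) n2285 (.fin (nat_lit 122294429) (nat_lit 0))))
def n2287 : Nd := .arc (nat_lit 6) n2277 (.arc (nat_lit 9) n2275 (.fin (nat_lit 122302621) (nat_lit 0)))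
def n2288 : Nd := .arc (nat_lit 14) n2209 (.arc (nat_lit 17) n2205 (.arc (nat_lit 20) n2190 (.arc (nat_lit 23) n2199 (.arc (nat_lit 38) n2254 (.arc (nat_lit 41) n2263 (.arc (nat_lit 44) n2269 (.arc (nat_lit 47) n2273 (.arc (nat_lit 50) n2222 (.arc (nat_lit 53) n2231 (.arc (nat_lit 56) n2241 (.arc (nat_lit 59) n2237 (.fin (nat_lit 122351773) (nat_lit 0)))))))))))))
def n2289 : Nd := .arc (nat_lit 9) n2288 (.fin (nat_lit 592605337) (nat_lit 0))
def n2290 : Nd := .arc (nat_lit 6) n2274 (.arc (nat_lit 52) n2214 (.arc (nat_lit 55) n2218 (.arc (nat_lit 58) n2221 (.fin (nat_lit 122335389) (nat_lit 0)))))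
def n2291 : Nd := .arc (nat_lit 3) n2289 (.arc (nat_lit 6) n2290 (.fin (nat_lit 321556631) (nat_lit 0)))
def n2292 : Nd := .arc (nat_lit 6) n2288 (.fin (nat_lit 321564823) (nat_lit 0))
def n2293 : Nd := .arc (nat_lit 9) n2276 (.fin (nat_lit 122319005) (nat_lit 0))
def n2294 : Nd := .arc (nat_lit 3) n2292 (.arc (nat_lit 9) n2293 (.fin (nat_lit 592597145) (nat_lit 0)))
def n2295 : Nd := .arc (nat_lit 3) n2287 (.arc (nat_lit 6) n2291 (.arc (nat_lit 9) n2294 (.fin (nat_lit 187830427) (nat_lit 0))))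
def n2296 : Nd := .arc (nat_lit 3) n2279 (.arc (nat_lit 40) n2246 (.arc (nat_lit 43) n2250 (.arc (nat_lit 46) n2253 (.fin (nat_lit 122343581) (nat_lit 0)))))
def n2297 : Nd := .arc (nat_lit 3) n2288 (.fin (nat_lit 187879579) (nat_lit 0))
def n2298 : Nd := .arc (nat_lit 6) n2296 (.arc (nat_lit 9) n2297 (.fin (nat_lit 321532055) (nat_lit 0)))
def n2299 : Nd := .arc (nat_lit 3) n2293 (.arc (nat_lit 6) n2292 (.fin (nat_lit 187863195) (nat_lit 0)))
def n2300 : Nd := .arc (nat_lit 3) n2281 (.arc (nat_lit 9) n2280 (.fin (nat_lit 122310813) (nat_lit 0)))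
def n2301 : Nd := .arc (nat_lit 3) n2298 (.arc (nat_lit 6) n2299 (.arc (nat_lit 9) n2300 (.fin (nat_lit 592580761) (nat_lit 0))))
def n2302 : Nd := .arc (nat_lit 6) n2297 (.arc (nat_lit 9) n2296 (.fin (nat_lit 592588953) (nat_lit 0)))
def n2303 : Nd := .arc (nat_lit 3) n2284 (.arc (nat_lit 6) n2283 (.fin (nat_lit 122327197) (nat_lit 0)))
def n2304 : Nd := .arc (nat_lit 3) n2290 (.arc (nat_lit 9) n2289 (.fin (nat_lit 187846811) (nat_lit 0)))
def n2305 : Nd := .arc (nat_lit 3) n2302 (.arc (nat_lit 6) n2303 (.arc (nat_lit 9) n2304 (.fin (nat_lit 321523863) (nat_lit 0))))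
def n2306 : Nd := .arc (nat_lit 26) n1633 (.arc (nat_lit 29) n1629 (.arc (nat_lit 32) n1623 (.arc (nat_lit 35) n1614 (.arc (nat_lit 38) n1601 (.arc (nat_lit 41) n1597 (.arc (nat_lit 44) n1591 (.arc (nat_lit 47) n1582 (.arc (nat_lit 50) n1569 (.arc (nat_lit 53) n1565 (.arc (nat_lit 56) n1559 (.arc (nat_lit 59) n1550 (.fin (nat_lit 742846613) (nat_lit 0)))))))))))))
def n2307 : Nd := .arc (nat_lit 3) n2306 (.arc (nat_lit 40) n1630 (.arc (nat_lit 43) n1631 (.arc (nat_lit 46) n1632 (.fin (nat_lit 472305813) (nat_lit 0)))))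
def n2308 : Nd := .arc (nat_lit 26) n1601 (.arc (nat_lit 29) n1597 (.arc (nat_lit 32) n1582 (.arc (nat_lit 35) n1591 (.arc (nat_lit 38) n1633 (.arc (nat_lit 41) n1629 (.arc (nat_lit 44) n1614 (.arc (nat_lit 47) n1623 (.arc (nat_lit 62) n1569 (.arc (nat_lit 65) n1565 (.arc (nat_lit 68) n1550 (.arc (nat_lit 71) n1559 (.fin (nat_lit 472314005) (nat_lit 0)))))))))))))
def n2309 : Nd := .arc (nat_lit 3) n2308 (.arc (nat_lit 40) n1598 (.arc (nat_lit 43) n1599 (.arc (nat_lit 46) n1600 (.fin (nat_lit 742838421) (nat_lit 0)))))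
def n2310 : Nd := .arc (nat_lit 6) n2307 (.arc (nat_lit 9) n2309 (.fin (nat_lit 940978325) (nat_lit 0)))
def n2311 : Nd := .arc (nat_lit 26) n1569 (.arc (nat_lit 29) n1565 (.arc (nat_lit 32) n1550 (.arc (nat_lit 35) n1559 (.arc (nat_lit 50) n1601 (.arc (nat_lit 53) n1597 (.arc (nat_lit 56) n1591 (.arc (nat_lit 59) n1582 (.arc (nat_lit 62) n1633 (.arc (nat_lit 65) n1629 (.arc (nat_lit 68) n1623 (.arc (nat_lit 71) n1614 (.fin (nat_lit 941027477) (nat_lit 0)))))))))))))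
def n2312 : Nd := .arc (nat_lit 9) n2311 (.arc (nat_lit 64) n1566 (.arc (nat_lit 67) n1568 (.arc (nat_lit 70) n1567 (.fin (nat_lit 472281237) (nat_lit 0)))))
def n2313 : Nd := .arc (nat_lit 6) n2308 (.arc (nat_lit 52) n1598 (.arc (nat_lit 55) n1599 (.arc (nat_lit 58) n1600 (.fin (nat_lit 941011093) (nat_lit 0)))))
def n2314 : Nd := .arc (nat_lit 3) n2312 (.arc (nat_lit 6) n2313 (.fin (nat_lit 742822037) (nat_lit 0)))
def n2315 : Nd := .arc (nat_lit 6) n2311 (.arc (nat_lit 52) n1566 (.arc (nat_lit 55) n1567 (.arc (nat_lit 58) n1568 (.fin (nat_lit 742830229) (nat_lit 0)))))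
def n2316 : Nd := .arc (nat_lit 9) n2306 (.arc (nat_lit 64) n1630 (.arc (nat_lit 67) n1632 (.arc (nat_lit 70) n1631 (.fin (nat_lit 940994709) (nat_lit 0)))))
def n2317 : Nd := .arc (nat_lit 3) n2315 (.arc (nat_lit 9) n2316 (.fin (nat_lit 472273045) (nat_lit 0)))
def n2318 : Nd := .arc (nat_lit 3) n2310 (.arc (nat_lit 6) n2314 (.arc (nat_lit 9) n2317 (.fin (nat_lit 873336981) (nat_lit 0))))
def n2319 : Nd := .arc (nat_lit 6) n2309 (.arc (nat_lit 9) n2307 (.fin (nat_lit 873345173) (nat_lit 0)))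
def n2320 : Nd := .arc (nat_lit 38) n1569 (.arc (nat_lit 41) n1565 (.arc (nat_lit 44) n1559 (.arc (nat_lit 47) n1550 (.arc (nat_lit 50) n1633 (.arc (nat_lit 53) n1629 (.arc (nat_lit 56) n1614 (.arc (nat_lit 59) n1623 (.arc (nat_lit 62) n1601 (.arc (nat_lit 65) n1597 (.arc (nat_lit 68) n1582 (.arc (nat_lit 71) n1591 (.fin (nat_lit 873394325) (nat_lit 0)))))))))))))
def n2321 : Nd := .arc (nat_lit 9) n2320 (.fin (nat_lit 742813845) (nat_lit 0))
def n2322 : Nd := .arc (nat_lit 6) n2306 (.arc (nat_lit 52) n1630 (.arc (nat_lit 55) n1631 (.arc (nat_lit 58) n1632 (.fin (nat_lit 873377941) (nat_lit 0)))))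
def n2323 : Nd := .arc (nat_lit 3) n2321 (.arc (nat_lit 6) n2322 (.fin (nat_lit 472289429) (nat_lit 0)))
def n2324 : Nd := .arc (nat_lit 6) n2320 (.fin (nat_lit 472297621) (nat_lit 0))
def n2325 : Nd := .arc (nat_lit 9) n2308 (.arc (nat_lit 64) n1598 (.arc (nat_lit 67) n1600 (.arc (nat_lit 70) n1599 (.fin (nat_lit 873361557) (nat_lit 0)))))
def n2326 : Nd := .arc (nat_lit 3) n2324 (.arc (nat_lit 9) n2325 (.fin (nat_lit 742805653) (nat_lit 0)))
def n2327 : Nd := .arc (nat_lit 3) n2319 (.arc (nat_lit 6) n2323 (.arc (nat_lit 9) n2326 (.fin (nat_lit 940970133) (nat_lit 0))))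
def n2328 : Nd := .arc (nat_lit 3) n2311 (.arc (nat_lit 40) n1566 (.arc (nat_lit 43) n1567 (.arc (nat_lit 46) n1568 (.fin (nat_lit 873386133) (nat_lit 0)))))
def n2329 : Nd := .arc (nat_lit 3) n2320 (.fin (nat_lit 941019285) (nat_lit 0))
def n2330 : Nd := .arc (nat_lit 6) n2328 (.arc (nat_lit 9) n2329 (.fin (nat_lit 472264853) (nat_lit 0)))
def n2331 : Nd := .arc (nat_lit 3) n2325 (.arc (nat_lit 6) n2324 (.fin (nat_lit 941002901) (nat_lit 0)))
def n2332 : Nd := .arc (nat_lit 3) n2313 (.arc (nat_lit 9) n2312 (.fin (nat_lit 873353365) (nat_lit 0)))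
def n2333 : Nd := .arc (nat_lit 3) n2330 (.arc (nat_lit 6) n2331 (.arc (nat_lit 9) n2332 (.fin (nat_lit 742789269) (nat_lit 0))))
def n2334 : Nd := .arc (nat_lit 6) n2329 (.arc (nat_lit 9) n2328 (.fin (nat_lit 742797461) (nat_lit 0)))
def n2335 : Nd := .arc (nat_lit 3) n2316 (.arc (nat_lit 6) n2315 (.fin (nat_lit 873369749) (nat_lit 0)))
def n2336 : Nd := .arc (nat_lit 3) n2322 (.arc (nat_lit 9) n2321 (.fin (nat_lit 940986517) (nat_lit 0)))
def n2337 : Nd := .arc (nat_lit 3) n2334 (.arc (nat_lit 6) n2335 (.arc (nat_lit 9) n2336 (.fin (nat_lit 472256661) (nat_lit 0))))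
def n2338 : Nd := .arc (nat_lit 14) n1966 (.arc (nat_lit 17) n1975 (.arc (nat_lit 20) n1981 (.arc (nat_lit 23) n1985 (.arc (nat_lit 26) n2158 (.arc (nat_lit 29) n2167 (.arc (nat_lit 32) n2173 (.arc (nat_lit 35) n2177 (.arc (nat_lit 38) n2286 (.arc (nat_lit 41) n2295 (.arc (nat_lit 44) n2301 (.arc (nat_lit 47) n2305 (.arc (nat_lit 50) n2318 (.arc (nat_lit 53) n2327 (.arc (nat_lit 56) n2333 (.arc (nat_lit 59) n2337 (.fin (nat_lit 222490781) (nat_lit 0)))))))))))))))))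
def n2339 : Nd := .arc (nat_lit 3) n2338 (.arc (nat_lit 40) n2150 (.arc (nat_lit 43) n2154 (.arc (nat_lit 46) n2157 (.fin (nat_lit 220385435) (nat_lit 0)))))
def n2340 : Nd := .arc (nat_lit 14) n1975 (.arc (nat_lit 17) n1966 (.arc (nat_lit 20) n1985 (.arc (nat_lit 23) n1981 (.arc (nat_lit 26) n2286 (.arc (nat_lit 29) n2295 (.arc (nat_lit 32) n2305 (.arc (nat_lit 35) n2301 (.arc (nat_lit 38) n2158 (.arc (nat_lit 41) n2167 (.arc (nat_lit 44) n2177 (.arc (nat_lit 47) n2173 (.arc (nat_lit 62) n2318 (.arc (nat_lit 65) n2327 (.arc (nat_lit 68) n2337 (.arc (nat_lit 71) n2333 (.fin (nat_lit 220393627) (nat_lit 0)))))))))))))))))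
def n2341 : Nd := .arc (nat_lit 3) n2340 (.arc (nat_lit 40) n2278 (.arc (nat_lit 43) n2282 (.arc (nat_lit 46) n2285 (.fin (nat_lit 222482589) (nat_lit 0)))))
def n2342 : Nd := .arc (nat_lit 6) n2339 (.arc (nat_lit 9) n2341 (.fin (nat_lit 823275673) (nat_lit 0)))
def n2343 : Nd := .arc (nat_lit 14) n1981 (.arc (nat_lit 17) n1985 (.arc (nat_lit 20) n1975 (.arc (nat_lit 23) n1966 (.arc (nat_lit 26) n2318 (.arc (nat_lit 29) n2327 (.arc (nat_lit 32) n2337 (.arc (nat_lit 35) n2333 (.arc (nat_lit 50) n2286 (.arc (nat_lit 53) n2295 (.arc (nat_lit 56) n2301 (.arc (nat_lit 59) n2305 (.arc (nat_lit 62) n2158 (.arc (nat_lit 65) n2167 (.arc (nat_lit 68) n2173 (.arc (nat_lit 71) n2177 (.fin (nat_lit 823324825) (nat_lit 0)))))))))))))))))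
def n2344 : Nd := .arc (nat_lit 9) n2343 (.arc (nat_lit 64) n2310 (.arc (nat_lit 67) n2317 (.arc (nat_lit 70) n2314 (.fin (nat_lit 220360859) (nat_lit 0)))))
def n2345 : Nd := .arc (nat_lit 6) n2340 (.arc (nat_lit 52) n2278 (.arc (nat_lit 55) n2282 (.arc (nat_lit 58) n2285 (.fin (nat_lit 823308441) (nat_lit 0)))))
def n2346 : Nd := .arc (nat_lit 3) n2344 (.arc (nat_lit 6) n2345 (.fin (nat_lit 222466205) (nat_lit 0)))
def n2347 : Nd := .arc (nat_lit 6) n2343 (.arc (nat_lit 52) n2310 (.arc (nat_lit 55) n2314 (.arc (nat_lit 58) n2317 (.fin (nat_lit 222474397) (nat_lit 0)))))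
def n2348 : Nd := .arc (nat_lit 9) n2338 (.arc (nat_lit 64) n2150 (.arc (nat_lit 67) n2157 (.arc (nat_lit 70) n2154 (.fin (nat_lit 823292057) (nat_lit 0)))))
def n2349 : Nd := .arc (nat_lit 3) n2347 (.arc (nat_lit 9) n2348 (.fin (nat_lit 220352667) (nat_lit 0)))
def n2350 : Nd := .arc (nat_lit 3) n2342 (.arc (nat_lit 6) n2346 (.arc (nat_lit 9) n2349 (.fin (nat_lit 822743191) (nat_lit 0))))
def n2351 : Nd := .arc (nat_lit 6) n2341 (.arc (nat_lit 9) n2339 (.fin (nat_lit 822751383) (nat_lit 0)))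
def n2352 : Nd := .arc (nat_lit 14) n1985 (.arc (nat_lit 17) n1981 (.arc (nat_lit 20) n1966 (.arc (nat_lit 23) n1975 (.arc (nat_lit 38) n2318 (.arc (nat_lit 41) n2327 (.arc (nat_lit 44) n2333 (.arc (nat_lit 47) n2337 (.arc (nat_lit 50) n2158 (.arc (nat_lit 53) n2167 (.arc (nat_lit 56) n2177 (.arc (nat_lit 59) n2173 (.arc (nat_lit 62) n2286 (.arc (nat_lit 65) n2295 (.arc (nat_lit 68) n2305 (.arc (nat_lit 71) n2301 (.fin (nat_lit 822800535) (nat_lit 0)))))))))))))))))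
def n2353 : Nd := .arc (nat_lit 9) n2352 (.fin (nat_lit 222458013) (nat_lit 0))
def n2354 : Nd := .arc (nat_lit 6) n2338 (.arc (nat_lit 52) n2150 (.arc (nat_lit 55) n2154 (.arc (nat_lit 58) n2157 (.fin (nat_lit 822784151) (nat_lit 0)))))
def n2355 : Nd := .arc (nat_lit 3) n2353 (.arc (nat_lit 6) n2354 (.fin (nat_lit 220369051) (nat_lit 0)))
def n2356 : Nd := .arc (nat_lit 6) n2352 (.fin (nat_lit 220377243) (nat_lit 0))
def n2357 : Nd := .arc (nat_lit 9) n2340 (.arc (nat_lit 64) n2278 (.arc (nat_lit 67) n2285 (.arc (nat_lit 70) n2282 (.fin (nat_lit 822767767) (nat_lit 0)))))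
def n2358 : Nd := .arc (nat_lit 3) n2356 (.arc (nat_lit 9) n2357 (.fin (nat_lit 222449821) (nat_lit 0)))
def n2359 : Nd := .arc (nat_lit 3) n2351 (.arc (nat_lit 6) n2355 (.arc (nat_lit 9) n2358 (.fin (nat_lit 823267481) (nat_lit 0))))
def n2360 : Nd := .arc (nat_lit 3) n2352 (.fin (nat_lit 823316633) (nat_lit 0))
def n2361 : Nd := .arc (nat_lit 3) n2343 (.arc (nat_lit 40) n2310 (.arc (nat_lit 43) n2314 (.arc (nat_lit 46) n2317 (.fin (nat_lit 822792343) (nat_lit 0)))))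
def n2362 : Nd := .arc (nat_lit 6) n2360 (.arc (nat_lit 9) n2361 (.fin (nat_lit 222441629) (nat_lit 0)))
def n2363 : Nd := .arc (nat_lit 3) n2348 (.arc (nat_lit 6) n2347 (.fin (nat_lit 822775959) (nat_lit 0)))
def n2364 : Nd := .arc (nat_lit 3) n2354 (.arc (nat_lit 9) n2353 (.fin (nat_lit 823283865) (nat_lit 0)))
def n2365 : Nd := .arc (nat_lit 3) n2362 (.arc (nat_lit 6) n2363 (.arc (nat_lit 9) n2364 (.fin (nat_lit 220336283) (nat_lit 0))))
def n2366 : Nd := .arc (nat_lit 6) n2361 (.arc (nat_lit 9) n2360 (.fin (nat_lit 220344475) (nat_lit 0)))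
def n2367 : Nd := .arc (nat_lit 3) n2357 (.arc (nat_lit 6) n2356 (.fin (nat_lit 823300249) (nat_lit 0)))
def n2368 : Nd := .arc (nat_lit 3) n2345 (.arc (nat_lit 9) n2344 (.fin (nat_lit 822759575) (nat_lit 0)))
def n2369 : Nd := .arc (nat_lit 3) n2366 (.arc (nat_lit 6) n2367 (.arc (nat_lit 9) n2368 (.fin (nat_lit 222433437) (nat_lit 0))))
def n2370 : Nd := .arc (nat_lit 38) n1719 (.arc (nat_lit 41) n1710 (.arc (nat_lit 44) n1729 (.arc (nat_lit 47) n1725 (.arc (nat_lit 50) n1943 (.arc (nat_lit 53) n1934 (.arc (nat_lit 56) n1949 (.arc (nat_lit 59) n1953 (.arc (nat_lit 62) n1847 (.arc (nat_lit 65) n1838 (.arc (nat_lit 68) n1853 (.arc (nat_lit 71) n1857 (.fin (nat_lit 823062679) (nat_lit 0)))))))))))))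
def n2371 : Nd := .arc (nat_lit 3) n2370 (.fin (nat_lit 823578777) (nat_lit 0))
def n2372 : Nd := .arc (nat_lit 26) n1719 (.arc (nat_lit 29) n1710 (.arc (nat_lit 32) n1725 (.arc (nat_lit 35) n1729 (.arc (nat_lit 50) n1847 (.arc (nat_lit 53) n1838 (.arc (nat_lit 56) n1857 (.arc (nat_lit 59) n1853 (.arc (nat_lit 62) n1943 (.arc (nat_lit 65) n1934 (.arc (nat_lit 68) n1953 (.arc (nat_lit 71) n1949 (.fin (nat_lit 823586969) (nat_lit 0)))))))))))))
def n2373 : Nd := .arc (nat_lit 3) n2372 (.arc (nat_lit 40) n1711 (.arc (nat_lit 43) n1715 (.arc (nat_lit 46) n1718 (.fin (nat_lit 823054487) (nat_lit 0)))))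
def n2374 : Nd := .arc (nat_lit 6) n2371 (.arc (nat_lit 9) n2373 (.fin (nat_lit 222703773) (nat_lit 0)))
def n2375 : Nd := .arc (nat_lit 26) n1943 (.arc (nat_lit 29) n1934 (.arc (nat_lit 32) n1953 (.arc (nat_lit 35) n1949 (.arc (nat_lit 38) n1847 (.arc (nat_lit 41) n1838 (.arc (nat_lit 44) n1857 (.arc (nat_lit 47) n1853 (.arc (nat_lit 50) n1719 (.arc (nat_lit 53) n1710 (.arc (nat_lit 56) n1729 (.arc (nat_lit 59) n1725 (.fin (nat_lit 222752925) (nat_lit 0)))))))))))))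
def n2376 : Nd := .arc (nat_lit 9) n2375 (.arc (nat_lit 64) n1935 (.arc (nat_lit 67) n1942 (.arc (nat_lit 70) n1939 (.fin (nat_lit 823554201) (nat_lit 0)))))
def n2377 : Nd := .arc (nat_lit 6) n2372 (.arc (nat_lit 52) n1711 (.arc (nat_lit 55) n1715 (.arc (nat_lit 58) n1718 (.fin (nat_lit 222736541) (nat_lit 0)))))
def n2378 : Nd := .arc (nat_lit 3) n2376 (.arc (nat_lit 6) n2377 (.fin (nat_lit 823038103) (nat_lit 0)))
def n2379 : Nd := .arc (nat_lit 6) n2375 (.arc (nat_lit 52) n1935 (.arc (nat_lit 55) n1939 (.arc (nat_lit 58) n1942 (.fin (nat_lit 823046295) (nat_lit 0)))))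
def n2380 : Nd := .arc (nat_lit 9) n2370 (.fin (nat_lit 222720157) (nat_lit 0))
def n2381 : Nd := .arc (nat_lit 3) n2379 (.arc (nat_lit 9) n2380 (.fin (nat_lit 823546009) (nat_lit 0)))
def n2382 : Nd := .arc (nat_lit 3) n2374 (.arc (nat_lit 6) n2378 (.arc (nat_lit 9) n2381 (.fin (nat_lit 220598427) (nat_lit 0))))
def n2383 : Nd := .arc (nat_lit 6) n2373 (.arc (nat_lit 9) n2371 (.fin (nat_lit 220606619) (nat_lit 0)))
def n2384 : Nd := .arc (nat_lit 26) n1847 (.arc (nat_lit 29) n1838 (.arc (nat_lit 32) n1853 (.arc (nat_lit 35) n1857 (.arc (nat_lit 38) n1943 (.arc (nat_lit 41) n1934 (.arc (nat_lit 44) n1949 (.arc (nat_lit 47) n1953 (.arc (nat_lit 62) n1719 (.arc (nat_lit 65) n1710 (.arc (nat_lit 68) n1725 (.arc (nat_lit 71) n1729 (.fin (nat_lit 220655771) (nat_lit 0)))))))))))))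
def n2385 : Nd := .arc (nat_lit 9) n2384 (.arc (nat_lit 64) n1839 (.arc (nat_lit 67) n1846 (.arc (nat_lit 70) n1843 (.fin (nat_lit 823029911) (nat_lit 0)))))
def n2386 : Nd := .arc (nat_lit 6) n2370 (.fin (nat_lit 220639387) (nat_lit 0))
def n2387 : Nd := .arc (nat_lit 3) n2385 (.arc (nat_lit 6) n2386 (.fin (nat_lit 823562393) (nat_lit 0)))
def n2388 : Nd := .arc (nat_lit 6) n2384 (.arc (nat_lit 52) n1839 (.arc (nat_lit 55) n1843 (.arc (nat_lit 58) n1846 (.fin (nat_lit 823570585) (nat_lit 0)))))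
def n2389 : Nd := .arc (nat_lit 9) n2372 (.arc (nat_lit 64) n1711 (.arc (nat_lit 67) n1718 (.arc (nat_lit 70) n1715 (.fin (nat_lit 220623003) (nat_lit 0)))))
def n2390 : Nd := .arc (nat_lit 3) n2388 (.arc (nat_lit 9) n2389 (.fin (nat_lit 823021719) (nat_lit 0)))
def n2391 : Nd := .arc (nat_lit 3) n2383 (.arc (nat_lit 6) n2387 (.arc (nat_lit 9) n2390 (.fin (nat_lit 222695581) (nat_lit 0))))
def n2392 : Nd := .arc (nat_lit 3) n2384 (.arc (nat_lit 40) n1839 (.arc (nat_lit 43) n1843 (.arc (nat_lit 46) n1846 (.fin (nat_lit 222744733) (nat_lit 0)))))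
def n2393 : Nd := .arc (nat_lit 3) n2375 (.arc (nat_lit 40) n1935 (.arc (nat_lit 43) n1939 (.arc (nat_lit 46) n1942 (.fin (nat_lit 220647579) (nat_lit 0)))))
def n2394 : Nd := .arc (nat_lit 6) n2392 (.arc (nat_lit 9) n2393 (.fin (nat_lit 823013527) (nat_lit 0)))
def n2395 : Nd := .arc (nat_lit 3) n2380 (.arc (nat_lit 6) n2379 (.fin (nat_lit 220631195) (nat_lit 0)))
def n2396 : Nd := .arc (nat_lit 3) n2386 (.arc (nat_lit 9) n2385 (.fin (nat_lit 222711965) (nat_lit 0)))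
def n2397 : Nd := .arc (nat_lit 3) n2394 (.arc (nat_lit 6) n2395 (.arc (nat_lit 9) n2396 (.fin (nat_lit 823529625) (nat_lit 0))))
def n2398 : Nd := .arc (nat_lit 6) n2393 (.arc (nat_lit 9) n2392 (.fin (nat_lit 823537817) (nat_lit 0)))
def n2399 : Nd := .arc (nat_lit 3) n2389 (.arc (nat_lit 6) n2388 (.fin (nat_lit 222728349) (nat_lit 0)))
def n2400 : Nd := .arc (nat_lit 3) n2377 (.arc (nat_lit 9) n2376 (.fin (nat_lit 220614811) (nat_lit 0)))
def n2401 : Nd := .arc (nat_lit 3) n2398 (.arc (nat_lit 6) n2399 (.arc (nat_lit 9) n2400 (.fin (nat_lit 823005335) (nat_lit 0))))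
def n2402 : Nd := .arc (nat_lit 26) n1761 (.arc (nat_lit 29) n1757 (.arc (nat_lit 32) n1751 (.arc (nat_lit 35) n1742 (.fin (nat_lit 829878425) (nat_lit 0)))))
def n2403 : Nd := .arc (nat_lit 3) n2402 (.arc (nat_lit 40) n1758 (.arc (nat_lit 43) n1759 (.arc (nat_lit 46) n1760 (.fin (nat_lit 829345943) (nat_lit 0)))))
def n2404 : Nd := .arc (nat_lit 38) n1761 (.arc (nat_lit 41) n1757 (.arc (nat_lit 44) n1742 (.arc (nat_lit 47) n1751 (.fin (nat_lit 829354135) (nat_lit 0)))))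
def n2405 : Nd := .arc (nat_lit 3) n2404 (.fin (nat_lit 829870233) (nat_lit 0))
def n2406 : Nd := .arc (nat_lit 6) n2403 (.arc (nat_lit 9) n2405 (.fin (nat_lit 222179483) (nat_lit 0)))

end

end Pool.Agent.Lib.MP_5854e1_co.Da
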