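import Pool.Agent.Lib.MP_5854e1_co.DartA

/-!
# The nodes of the automaton, part 2
-/

set_option autoImplicit false

namespace Pool.Agent.Lib.MP_5854e1_co.Da

noncomputable section

def n2407 : Nd := .arc (nat_lit 62) n1761 (.arc (nat_lit 65) n1757 (.arc (nat_lit 68) n1751 (.arc (nat_lit 71) n1742 (.fin (nat_lit 222228635) (nat_lit 0)))))
def n2408 : Nd := .arc (nat_lit 9) n2407 (.fin (nat_lit 829321367) (nat_lit 0))
def n2409 : Nd := .arc (nat_lit 6) n2404 (.fin (nat_lit 222212251) (nat_lit 0))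
def n2410 : Nd := .arc (nat_lit 3) n2408 (.arc (nat_lit 6) n2409 (.fin (nat_lit 829853849) (nat_lit 0)))
def n2411 : Nd := .arc (nat_lit 6) n2407 (.fin (nat_lit 829862041) (nat_lit 0))
def n2412 : Nd := .arc (nat_lit 9) n2402 (.arc (nat_lit 64) n1758 (.arc (nat_lit 67) n1760 (.arc (nat_lit 70) n1759 (.fin (nat_lit 222195867) (nat_lit 0)))))
def n2413 : Nd := .arc (nat_lit 3) n2411 (.arc (nat_lit 9) n2412 (.fin (nat_lit 829313175) (nat_lit 0)))
def n2414 : Nd := .arc (nat_lit 3) n2406 (.arc (nat_lit 6) n2410 (.arc (nat_lit 9) n2413 (.fin (nat_lit 224268445) (nat_lit 0))))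
def n2415 : Nd := .arc (nat_lit 6) n2405 (.arc (nat_lit 9) n2403 (.fin (nat_lit 224276637) (nat_lit 0)))
def n2416 : Nd := .arc (nat_lit 50) n1761 (.arc (nat_lit 53) n1757 (.arc (nat_lit 56) n1742 (.arc (nat_lit 59) n1751 (.fin (nat_lit 224325789) (nat_lit 0)))))
def n2417 : Nd := .arc (nat_lit 9) n2416 (.fin (nat_lit 829845657) (nat_lit 0))
def n2418 : Nd := .arc (nat_lit 6) n2402 (.arc (nat_lit 52) n1758 (.arc (nat_lit 55) n1759 (.arc (nat_lit 58) n1760 (.fin (nat_lit 224309405) (nat_lit 0)))))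
def n2419 : Nd := .arc (nat_lit 3) n2417 (.arc (nat_lit 6) n2418 (.fin (nat_lit 829329559) (nat_lit 0)))
def n2420 : Nd := .arc (nat_lit 6) n2416 (.fin (nat_lit 829337751) (nat_lit 0))
def n2421 : Nd := .arc (nat_lit 9) n2404 (.fin (nat_lit 224293021) (nat_lit 0))
def n2422 : Nd := .arc (nat_lit 3) n2420 (.arc (nat_lit 9) n2421 (.fin (nat_lit 829837465) (nat_lit 0)))
def n2423 : Nd := .arc (nat_lit 3) n2415 (.arc (nat_lit 6) n2419 (.arc (nat_lit 9) n2422 (.fin (nat_lit 222171291) (nat_lit 0))))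
def n2424 : Nd := .arc (nat_lit 3) n2407 (.fin (nat_lit 224317597) (nat_lit 0))
def n2425 : Nd := .arc (nat_lit 3) n2416 (.fin (nat_lit 222220443) (nat_lit 0))
def n2426 : Nd := .arc (nat_lit 6) n2424 (.arc (nat_lit 9) n2425 (.fin (nat_lit 829304983) (nat_lit 0)))
def n2427 : Nd := .arc (nat_lit 3) n2421 (.arc (nat_lit 6) n2420 (.fin (nat_lit 222204059) (nat_lit 0)))
def n2428 : Nd := .arc (nat_lit 3) n2409 (.arc (nat_lit 9) n2408 (.fin (nat_lit 224284829) (nat_lit 0)))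
def n2429 : Nd := .arc (nat_lit 3) n2426 (.arc (nat_lit 6) n2427 (.arc (nat_lit 9) n2428 (.fin (nat_lit 829821081) (nat_lit 0))))
def n2430 : Nd := .arc (nat_lit 6) n2425 (.arc (nat_lit 9) n2424 (.fin (nat_lit 829829273) (nat_lit 0)))
def n2431 : Nd := .arc (nat_lit 3) n2412 (.arc (nat_lit 6) n2411 (.fin (nat_lit 224301213) (nat_lit 0)))
def n2432 : Nd := .arc (nat_lit 3) n2418 (.arc (nat_lit 9) n2417 (.fin (nat_lit 222187675) (nat_lit 0)))
def n2433 : Nd := .arc (nat_lit 3) n2430 (.arc (nat_lit 6) n2431 (.arc (nat_lit 9) n2432 (.fin (nat_lit 829296791) (nat_lit 0))))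
def n2434 : Nd := .arc (nat_lit 38) n654 (.arc (nat_lit 41) n663 (.arc (nat_lit 44) n673 (.arc (nat_lit 47) n669 (.fin (nat_lit 946794645) (nat_lit 0)))))
def n2435 : Nd := .arc (nat_lit 3) n2434 (.fin (nat_lit 880201877) (nat_lit 0))
def n2436 : Nd := .arc (nat_lit 26) n654 (.arc (nat_lit 29) n663 (.arc (nat_lit 32) n669 (.arc (nat_lit 35) n673 (.fin (nat_lit 880210069) (nat_lit 0)))))
def n2437 : Nd := .arc (nat_lit 3) n2436 (.arc (nat_lit 40) n646 (.arc (nat_lit 43) n650 (.arc (nat_lit 46) n653 (.fin (nat_lit 946786453) (nat_lit 0)))))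
def n2438 : Nd := .arc (nat_lit 6) n2435 (.arc (nat_lit 9) n2437 (.fin (nat_lit 475934869) (nat_lit 0)))
def n2439 : Nd := .arc (nat_lit 50) n654 (.arc (nat_lit 53) n663 (.arc (nat_lit 56) n673 (.arc (nat_lit 59) n669 (.fin (nat_lit 475984021) (nat_lit 0)))))
def n2440 : Nd := .arc (nat_lit 9) n2439 (.fin (nat_lit 880177301) (nat_lit 0))
def n2441 : Nd := .arc (nat_lit 6) n2436 (.arc (nat_lit 52) n646 (.arc (nat_lit 55) n650 (.arc (nat_lit 58) n653 (.fin (nat_lit 475967637) (nat_lit 0)))))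
def n2442 : Nd := .arc (nat_lit 3) n2440 (.arc (nat_lit 6) n2441 (.fin (nat_lit 946770069) (nat_lit 0)))
def n2443 : Nd := .arc (nat_lit 6) n2439 (.fin (nat_lit 946778261) (nat_lit 0))
def n2444 : Nd := .arc (nat_lit 9) n2434 (.fin (nat_lit 475951253) (nat_lit 0))
def n2445 : Nd := .arc (nat_lit 3) n2443 (.arc (nat_lit 9) n2444 (.fin (nat_lit 880169109) (nat_lit 0)))
def n2446 : Nd := .arc (nat_lit 3) n2438 (.arc (nat_lit 6) n2442 (.arc (nat_lit 9) n2445 (.fin (nat_lit 742264981) (nat_lit 0))))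
def n2447 : Nd := .arc (nat_lit 6) n2437 (.arc (nat_lit 9) n2435 (.fin (nat_lit 742273173) (nat_lit 0)))
def n2448 : Nd := .arc (nat_lit 62) n654 (.arc (nat_lit 65) n663 (.arc (nat_lit 68) n669 (.arc (nat_lit 71) n673 (.fin (nat_lit 742322325) (nat_lit 0)))))
def n2449 : Nd := .arc (nat_lit 9) n2448 (.fin (nat_lit 946761877) (nat_lit 0))
def n2450 : Nd := .arc (nat_lit 6) n2434 (.fin (nat_lit 742305941) (nat_lit 0))
def n2451 : Nd := .arc (nat_lit 3) n2449 (.arc (nat_lit 6) n2450 (.fin (nat_lit 880185493) (nat_lit 0)))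
def n2452 : Nd := .arc (nat_lit 6) n2448 (.fin (nat_lit 880193685) (nat_lit 0))
def n2453 : Nd := .arc (nat_lit 9) n2436 (.arc (nat_lit 64) n646 (.arc (nat_lit 67) n653 (.arc (nat_lit 70) n650 (.fin (nat_lit 742289557) (nat_lit 0)))))
def n2454 : Nd := .arc (nat_lit 3) n2452 (.arc (nat_lit 9) n2453 (.fin (nat_lit 946753685) (nat_lit 0)))
def n2455 : Nd := .arc (nat_lit 3) n2447 (.arc (nat_lit 6) n2451 (.arc (nat_lit 9) n2454 (.fin (nat_lit 475926677) (nat_lit 0))))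
def n2456 : Nd := .arc (nat_lit 3) n2439 (.fin (nat_lit 742314133) (nat_lit 0))
def n2457 : Nd := .arc (nat_lit 3) n2448 (.fin (nat_lit 475975829) (nat_lit 0))
def n2458 : Nd := .arc (nat_lit 6) n2456 (.arc (nat_lit 9) n2457 (.fin (nat_lit 880160917) (nat_lit 0)))
def n2459 : Nd := .arc (nat_lit 3) n2453 (.arc (nat_lit 6) n2452 (.fin (nat_lit 475959445) (nat_lit 0)))
def n2460 : Nd := .arc (nat_lit 3) n2441 (.arc (nat_lit 9) n2440 (.fin (nat_lit 742281365) (nat_lit 0)))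
def n2461 : Nd := .arc (nat_lit 3) n2458 (.arc (nat_lit 6) n2459 (.arc (nat_lit 9) n2460 (.fin (nat_lit 946737301) (nat_lit 0))))
def n2462 : Nd := .arc (nat_lit 6) n2457 (.arc (nat_lit 9) n2456 (.fin (nat_lit 946745493) (nat_lit 0)))
def n2463 : Nd := .arc (nat_lit 3) n2444 (.arc (nat_lit 6) n2443 (.fin (nat_lit 742297749) (nat_lit 0)))
def n2464 : Nd := .arc (nat_lit 3) n2450 (.arc (nat_lit 9) n2449 (.fin (nat_lit 475943061) (nat_lit 0)))
def n2465 : Nd := .arc (nat_lit 3) n2462 (.arc (nat_lit 6) n2463 (.arc (nat_lit 9) n2464 (.fin (nat_lit 880152725) (nat_lit 0))))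
def n2466 : Nd := .arc (nat_lit 38) n2414 (.arc (nat_lit 41) n2423 (.arc (nat_lit 44) n2429 (.arc (nat_lit 47) n2433 (.arc (nat_lit 50) n2446 (.arc (nat_lit 53) n2455 (.arc (nat_lit 56) n2461 (.arc (nat_lit 59) n2465 (.fin (nat_lit 189722781) (nat_lit 0)))))))))
def n2467 : Nd := .arc (nat_lit 3) n2466 (.fin (nat_lit 121032859) (nat_lit 0))
def n2468 : Nd := .arc (nat_lit 26) n2414 (.arc (nat_lit 29) n2423 (.arc (nat_lit 32) n2433 (.arc (nat_lit 35) n2429 (.arc (nat_lit 62) n2446 (.arc (nat_lit 65) n2455 (.arc (nat_lit 68) n2465 (.arc (nat_lit 71) n2461 (.fin (nat_lit 121041051) (nat_lit 0)))))))))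
def n2469 : Nd := .arc (nat_lit 3) n2468 (.arc (nat_lit 40) n2406 (.arc (nat_lit 43) n2410 (.arc (nat_lit 46) n2413 (.fin (nat_lit 189714589) (nat_lit 0)))))
def n2470 : Nd := .arc (nat_lit 6) n2467 (.arc (nat_lit 9) n2469 (.fin (nat_lit 324415641) (nat_lit 0)))
def n2471 : Nd := .arc (nat_lit 26) n2446 (.arc (nat_lit 29) n2455 (.arc (nat_lit 32) n2465 (.arc (nat_lit 35) n2461 (.arc (nat_lit 50) n2414 (.arc (nat_lit 53) n2423 (.arc (nat_lit 56) n2429 (.arc (nat_lit 59) n2433 (.fin (nat_lit 324464793) (nat_lit 0)))))))))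
def n2472 : Nd := .arc (nat_lit 9) n2471 (.arc (nat_lit 64) n2438 (.arc (nat_lit 67) n2445 (.arc (nat_lit 70) n2442 (.fin (nat_lit 121008283) (nat_lit 0)))))
def n2473 : Nd := .arc (nat_lit 6) n2468 (.arc (nat_lit 52) n2406 (.arc (nat_lit 55) n2410 (.arc (nat_lit 58) n2413 (.fin (nat_lit 324448409) (nat_lit 0)))))
def n2474 : Nd := .arc (nat_lit 3) n2472 (.arc (nat_lit 6) n2473 (.fin (nat_lit 189698205) (nat_lit 0)))
def n2475 : Nd := .arc (nat_lit 6) n2471 (.arc (nat_lit 52) n2438 (.arc (nat_lit 55) n2442 (.arc (nat_lit 58) n2445 (.fin (nat_lit 189706397) (nat_lit 0)))))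
def n2476 : Nd := .arc (nat_lit 9) n2466 (.fin (nat_lit 324432025) (nat_lit 0))
def n2477 : Nd := .arc (nat_lit 3) n2475 (.arc (nat_lit 9) n2476 (.fin (nat_lit 121000091) (nat_lit 0)))
def n2478 : Nd := .arc (nat_lit 3) n2470 (.arc (nat_lit 6) n2474 (.arc (nat_lit 9) n2477 (.fin (nat_lit 590221463) (nat_lit 0))))
def n2479 : Nd := .arc (nat_lit 6) n2469 (.arc (nat_lit 9) n2467 (.fin (nat_lit 590229655) (nat_lit 0)))
def n2480 : Nd := .arc (nat_lit 38) n2446 (.arc (nat_lit 41) n2455 (.arc (nat_lit 44) n2461 (.arc (nat_lit 47) n2465 (.arc (nat_lit 62) n2414 (.arc (nat_lit 65) n2423 (.arc (nat_lit 68) n2433 (.arc (nat_lit 71) n2429 (.fin (nat_lit 590278807) (nat_lit 0)))))))))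
def n2481 : Nd := .arc (nat_lit 9) n2480 (.fin (nat_lit 189690013) (nat_lit 0))
def n2482 : Nd := .arc (nat_lit 6) n2466 (.fin (nat_lit 590262423) (nat_lit 0))
def n2483 : Nd := .arc (nat_lit 3) n2481 (.arc (nat_lit 6) n2482 (.fin (nat_lit 121016475) (nat_lit 0)))
def n2484 : Nd := .arc (nat_lit 6) n2480 (.fin (nat_lit 121024667) (nat_lit 0))
def n2485 : Nd := .arc (nat_lit 9) n2468 (.arc (nat_lit 64) n2406 (.arc (nat_lit 67) n2413 (.arc (nat_lit 70) n2410 (.fin (nat_lit 590246039) (nat_lit 0)))))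
def n2486 : Nd := .arc (nat_lit 3) n2484 (.arc (nat_lit 9) n2485 (.fin (nat_lit 189681821) (nat_lit 0)))
def n2487 : Nd := .arc (nat_lit 3) n2479 (.arc (nat_lit 6) n2483 (.arc (nat_lit 9) n2486 (.fin (nat_lit 324407449) (nat_lit 0))))
def n2488 : Nd := .arc (nat_lit 3) n2480 (.fin (nat_lit 324456601) (nat_lit 0))
def n2489 : Nd := .arc (nat_lit 3) n2471 (.arc (nat_lit 40) n2438 (.arc (nat_lit 43) n2442 (.arc (nat_lit 46) n2445 (.fin (nat_lit 590270615) (nat_lit 0)))))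
def n2490 : Nd := .arc (nat_lit 6) n2488 (.arc (nat_lit 9) n2489 (.fin (nat_lit 189673629) (nat_lit 0)))
def n2491 : Nd := .arc (nat_lit 3) n2476 (.arc (nat_lit 6) n2475 (.fin (nat_lit 590254231) (nat_lit 0)))
def n2492 : Nd := .arc (nat_lit 3) n2482 (.arc (nat_lit 9) n2481 (.fin (nat_lit 324423833) (nat_lit 0)))
def n2493 : Nd := .arc (nat_lit 3) n2490 (.arc (nat_lit 6) n2491 (.arc (nat_lit 9) n2492 (.fin (nat_lit 120983707) (nat_lit 0))))
def n2494 : Nd := .arc (nat_lit 6) n2489 (.arc (nat_lit 9) n2488 (.fin (nat_lit 120991899) (nat_lit 0)))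
def n2495 : Nd := .arc (nat_lit 3) n2485 (.arc (nat_lit 6) n2484 (.fin (nat_lit 324440217) (nat_lit 0)))
def n2496 : Nd := .arc (nat_lit 3) n2473 (.arc (nat_lit 9) n2472 (.fin (nat_lit 590237847) (nat_lit 0)))
def n2497 : Nd := .arc (nat_lit 3) n2494 (.arc (nat_lit 6) n2495 (.arc (nat_lit 9) n2496 (.fin (nat_lit 189665437) (nat_lit 0))))
def n2498 : Nd := .arc (nat_lit 26) n1134 (.arc (nat_lit 29) n1143 (.arc (nat_lit 32) n1149 (.arc (nat_lit 35) n1153 (.arc (nat_lit 50) n1181 (.arc (nat_lit 53) n1185 (.arc (nat_lit 56) n1175 (.arc (nat_lit 59) n1166 (.fin (nat_lit 878112917) (nat_lit 0)))))))))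
def n2499 : Nd := .arc (nat_lit 3) n2498 (.arc (nat_lit 40) n1126 (.arc (nat_lit 43) n1130 (.arc (nat_lit 46) n1133 (.fin (nat_lit 942592149) (nat_lit 0)))))
def n2500 : Nd := .arc (nat_lit 38) n1134 (.arc (nat_lit 41) n1143 (.arc (nat_lit 44) n1153 (.arc (nat_lit 47) n1149 (.arc (nat_lit 62) n1181 (.arc (nat_lit 65) n1185 (.arc (nat_lit 68) n1166 (.arc (nat_lit 71) n1175 (.fin (nat_lit 942600341) (nat_lit 0)))))))))
def n2501 : Nd := .arc (nat_lit 3) n2500 (.fin (nat_lit 878104725) (nat_lit 0))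
def n2502 : Nd := .arc (nat_lit 6) n2499 (.arc (nat_lit 9) n2501 (.fin (nat_lit 741748885) (nat_lit 0)))
def n2503 : Nd := .arc (nat_lit 26) n1181 (.arc (nat_lit 29) n1185 (.arc (nat_lit 32) n1166 (.arc (nat_lit 35) n1175 (.arc (nat_lit 62) n1134 (.arc (nat_lit 65) n1143 (.arc (nat_lit 68) n1149 (.arc (nat_lit 71) n1153 (.fin (nat_lit 741798037) (nat_lit 0)))))))))
def n2504 : Nd := .arc (nat_lit 9) n2503 (.arc (nat_lit 64) n1178 (.arc (nat_lit 67) n1180 (.arc (nat_lit 70) n1179 (.fin (nat_lit 942567573) (nat_lit 0)))))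
def n2505 : Nd := .arc (nat_lit 6) n2500 (.fin (nat_lit 741781653) (nat_lit 0))
def n2506 : Nd := .arc (nat_lit 3) n2504 (.arc (nat_lit 6) n2505 (.fin (nat_lit 878088341) (nat_lit 0)))
def n2507 : Nd := .arc (nat_lit 6) n2503 (.arc (nat_lit 52) n1178 (.arc (nat_lit 55) n1179 (.arc (nat_lit 58) n1180 (.fin (nat_lit 878096533) (nat_lit 0)))))
def n2508 : Nd := .arc (nat_lit 9) n2498 (.arc (nat_lit 64) n1126 (.arc (nat_lit 67) n1133 (.arc (nat_lit 70) n1130 (.fin (nat_lit 741765269) (nat_lit 0)))))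
def n2509 : Nd := .arc (nat_lit 3) n2507 (.arc (nat_lit 9) n2508 (.fin (nat_lit 942559381) (nat_lit 0)))
def n2510 : Nd := .arc (nat_lit 3) n2502 (.arc (nat_lit 6) n2506 (.arc (nat_lit 9) n2509 (.fin (nat_lit 474878101) (nat_lit 0))))
def n2511 : Nd := .arc (nat_lit 6) n2501 (.arc (nat_lit 9) n2499 (.fin (nat_lit 474886293) (nat_lit 0)))
def n2512 : Nd := .arc (nat_lit 38) n1181 (.arc (nat_lit 41) n1185 (.arc (nat_lit 44) n1175 (.arc (nat_lit 47) n1166 (.arc (nat_lit 50) n1134 (.arc (nat_lit 53) n1143 (.arc (nat_lit 56) n1153 (.arc (nat_lit 59) n1149 (.fin (nat_lit 474935445) (nat_lit 0)))))))))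
def n2513 : Nd := .arc (nat_lit 9) n2512 (.fin (nat_lit 878080149) (nat_lit 0))
def n2514 : Nd := .arc (nat_lit 6) n2498 (.arc (nat_lit 52) n1126 (.arc (nat_lit 55) n1130 (.arc (nat_lit 58) n1133 (.fin (nat_lit 474919061) (nat_lit 0)))))
def n2515 : Nd := .arc (nat_lit 3) n2513 (.arc (nat_lit 6) n2514 (.fin (nat_lit 942575765) (nat_lit 0)))
def n2516 : Nd := .arc (nat_lit 6) n2512 (.fin (nat_lit 942583957) (nat_lit 0))
def n2517 : Nd := .arc (nat_lit 9) n2500 (.fin (nat_lit 474902677) (nat_lit 0))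
def n2518 : Nd := .arc (nat_lit 3) n2516 (.arc (nat_lit 9) n2517 (.fin (nat_lit 878071957) (nat_lit 0)))
def n2519 : Nd := .arc (nat_lit 3) n2511 (.arc (nat_lit 6) n2515 (.arc (nat_lit 9) n2518 (.fin (nat_lit 741740693) (nat_lit 0))))
def n2520 : Nd := .arc (nat_lit 3) n2503 (.arc (nat_lit 40) n1178 (.arc (nat_lit 43) n1179 (.arc (nat_lit 46) n1180 (.fin (nat_lit 474927253) (nat_lit 0)))))
def n2521 : Nd := .arc (nat_lit 3) n2512 (.fin (nat_lit 741789845) (nat_lit 0))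
def n2522 : Nd := .arc (nat_lit 6) n2520 (.arc (nat_lit 9) n2521 (.fin (nat_lit 942551189) (nat_lit 0)))
def n2523 : Nd := .arc (nat_lit 3) n2517 (.arc (nat_lit 6) n2516 (.fin (nat_lit 741773461) (nat_lit 0)))
def n2524 : Nd := .arc (nat_lit 3) n2505 (.arc (nat_lit 9) n2504 (.fin (nat_lit 474894485) (nat_lit 0)))
def n2525 : Nd := .arc (nat_lit 3) n2522 (.arc (nat_lit 6) n2523 (.arc (nat_lit 9) n2524 (.fin (nat_lit 878055573) (nat_lit 0))))
def n2526 : Nd := .arc (nat_lit 6) n2521 (.arc (nat_lit 9) n2520 (.fin (nat_lit 878063765) (nat_lit 0)))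
def n2527 : Nd := .arc (nat_lit 3) n2508 (.arc (nat_lit 6) n2507 (.fin (nat_lit 474910869) (nat_lit 0)))
def n2528 : Nd := .arc (nat_lit 3) n2514 (.arc (nat_lit 9) n2513 (.fin (nat_lit 741757077) (nat_lit 0)))
def n2529 : Nd := .arc (nat_lit 3) n2526 (.arc (nat_lit 6) n2527 (.arc (nat_lit 9) n2528 (.fin (nat_lit 942542997) (nat_lit 0))))
def n2530 : Nd := .arc (nat_lit 38) n1821 (.arc (nat_lit 41) n1825 (.arc (nat_lit 44) n1815 (.arc (nat_lit 47) n1806 (.arc (nat_lit 50) n1789 (.arc (nat_lit 53) n1793 (.arc (nat_lit 56) n1774 (.arc (nat_lit 59) n1783 (.fin (nat_lit 827256983) (nat_lit 0)))))))))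
def n2531 : Nd := .arc (nat_lit 3) n2530 (.fin (nat_lit 825675929) (nat_lit 0))
def n2532 : Nd := .arc (nat_lit 26) n1821 (.arc (nat_lit 29) n1825 (.arc (nat_lit 32) n1806 (.arc (nat_lit 35) n1815 (.arc (nat_lit 62) n1789 (.arc (nat_lit 65) n1793 (.arc (nat_lit 68) n1783 (.arc (nat_lit 71) n1774 (.fin (nat_lit 825684121) (nat_lit 0)))))))))
def n2533 : Nd := .arc (nat_lit 3) n2532 (.arc (nat_lit 40) n1818 (.arc (nat_lit 43) n1819 (.arc (nat_lit 46) n1820 (.fin (nat_lit 827248791) (nat_lit 0)))))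
def n2534 : Nd := .arc (nat_lit 6) n2531 (.arc (nat_lit 9) n2533 (.fin (nat_lit 223752349) (nat_lit 0)))
def n2535 : Nd := .arc (nat_lit 26) n1789 (.arc (nat_lit 29) n1793 (.arc (nat_lit 32) n1783 (.arc (nat_lit 35) n1774 (.arc (nat_lit 50) n1821 (.arc (nat_lit 53) n1825 (.arc (nat_lit 56) n1815 (.arc (nat_lit 59) n1806 (.fin (nat_lit 223801501) (nat_lit 0)))))))))
def n2536 : Nd := .arc (nat_lit 9) n2535 (.arc (nat_lit 64) n1786 (.arc (nat_lit 67) n1788 (.arc (nat_lit 70) n1787 (.fin (nat_lit 825651353) (nat_lit 0)))))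
def n2537 : Nd := .arc (nat_lit 6) n2532 (.arc (nat_lit 52) n1818 (.arc (nat_lit 55) n1819 (.arc (nat_lit 58) n1820 (.fin (nat_lit 223785117) (nat_lit 0)))))
def n2538 : Nd := .arc (nat_lit 3) n2536 (.arc (nat_lit 6) n2537 (.fin (nat_lit 827232407) (nat_lit 0)))
def n2539 : Nd := .arc (nat_lit 6) n2535 (.arc (nat_lit 52) n1786 (.arc (nat_lit 55) n1787 (.arc (nat_lit 58) n1788 (.fin (nat_lit 827240599) (nat_lit 0)))))
def n2540 : Nd := .arc (nat_lit 9) n2530 (.fin (nat_lit 223768733) (nat_lit 0))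
def n2541 : Nd := .arc (nat_lit 3) n2539 (.arc (nat_lit 9) n2540 (.fin (nat_lit 825643161) (nat_lit 0)))
def n2542 : Nd := .arc (nat_lit 3) n2534 (.arc (nat_lit 6) n2538 (.arc (nat_lit 9) n2541 (.fin (nat_lit 221122715) (nat_lit 0))))
def n2543 : Nd := .arc (nat_lit 6) n2533 (.arc (nat_lit 9) n2531 (.fin (nat_lit 221130907) (nat_lit 0)))
def n2544 : Nd := .arc (nat_lit 38) n1789 (.arc (nat_lit 41) n1793 (.arc (nat_lit 44) n1774 (.arc (nat_lit 47) n1783 (.arc (nat_lit 62) n1821 (.arc (nat_lit 65) n1825 (.arc (nat_lit 68) n1806 (.arc (nat_lit 71) n1815 (.fin (nat_lit 221180059) (nat_lit 0)))))))))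
def n2545 : Nd := .arc (nat_lit 9) n2544 (.fin (nat_lit 827224215) (nat_lit 0))
def n2546 : Nd := .arc (nat_lit 6) n2530 (.fin (nat_lit 221163675) (nat_lit 0))
def n2547 : Nd := .arc (nat_lit 3) n2545 (.arc (nat_lit 6) n2546 (.fin (nat_lit 825659545) (nat_lit 0)))
def n2548 : Nd := .arc (nat_lit 6) n2544 (.fin (nat_lit 825667737) (nat_lit 0))
def n2549 : Nd := .arc (nat_lit 9) n2532 (.arc (nat_lit 64) n1818 (.arc (nat_lit 67) n1820 (.arc (nat_lit 70) n1819 (.fin (nat_lit 221147291) (nat_lit 0)))))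
def n2550 : Nd := .arc (nat_lit 3) n2548 (.arc (nat_lit 9) n2549 (.fin (nat_lit 827216023) (nat_lit 0)))
def n2551 : Nd := .arc (nat_lit 3) n2543 (.arc (nat_lit 6) n2547 (.arc (nat_lit 9) n2550 (.fin (nat_lit 223744157) (nat_lit 0))))
def n2552 : Nd := .arc (nat_lit 3) n2535 (.arc (nat_lit 40) n1786 (.arc (nat_lit 43) n1787 (.arc (nat_lit 46) n1788 (.fin (nat_lit 221171867) (nat_lit 0)))))
def n2553 : Nd := .arc (nat_lit 3) n2544 (.fin (nat_lit 223793309) (nat_lit 0))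
def n2554 : Nd := .arc (nat_lit 6) n2552 (.arc (nat_lit 9) n2553 (.fin (nat_lit 825634969) (nat_lit 0)))
def n2555 : Nd := .arc (nat_lit 3) n2549 (.arc (nat_lit 6) n2548 (.fin (nat_lit 223776925) (nat_lit 0)))
def n2556 : Nd := .arc (nat_lit 3) n2537 (.arc (nat_lit 9) n2536 (.fin (nat_lit 221139099) (nat_lit 0)))
def n2557 : Nd := .arc (nat_lit 3) n2554 (.arc (nat_lit 6) n2555 (.arc (nat_lit 9) n2556 (.fin (nat_lit 827199639) (nat_lit 0))))
def n2558 : Nd := .arc (nat_lit 6) n2553 (.arc (nat_lit 9) n2552 (.fin (nat_lit 827207831) (nat_lit 0)))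
def n2559 : Nd := .arc (nat_lit 3) n2540 (.arc (nat_lit 6) n2539 (.fin (nat_lit 221155483) (nat_lit 0)))
def n2560 : Nd := .arc (nat_lit 3) n2546 (.arc (nat_lit 9) n2545 (.fin (nat_lit 223760541) (nat_lit 0)))
def n2561 : Nd := .arc (nat_lit 3) n2558 (.arc (nat_lit 6) n2559 (.arc (nat_lit 9) n2560 (.fin (nat_lit 825626777) (nat_lit 0))))
def n2562 : Nd := .arc (nat_lit 14) n2478 (.arc (nat_lit 17) n2487 (.arc (nat_lit 20) n2493 (.arc (nat_lit 23) n2497 (.arc (nat_lit 38) n2510 (.arc (nat_lit 41) n2519 (.arc (nat_lit 44) n2525 (.arc (nat_lit 47) n2529 (.arc (nat_lit 50) n2542 (.arc (nat_lit 53) n2551 (.arc (nat_lit 56) n2557 (.arc (nat_lit 59) n2561 (.fin (nat_lit 323678359) (nat_lit 0)))))))))))))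
def n2563 : Nd := .arc (nat_lit 3) n2562 (.fin (nat_lit 590532761) (nat_lit 0))
def n2564 : Nd := .arc (nat_lit 14) n2487 (.arc (nat_lit 17) n2478 (.arc (nat_lit 20) n2497 (.arc (nat_lit 23) n2493 (.arc (nat_lit 26) n2510 (.arc (nat_lit 29) n2519 (.arc (nat_lit 32) n2529 (.arc (nat_lit 35) n2525 (.arc (nat_lit 62) n2542 (.arc (nat_lit 65) n2551 (.arc (nat_lit 68) n2561 (.arc (nat_lit 71) n2557 (.fin (nat_lit 590540953) (nat_lit 0)))))))))))))
def n2565 : Nd := .arc (nat_lit 3) n2564 (.arc (nat_lit 40) n2502 (.arc (nat_lit 43) n2506 (.arc (nat_lit 46) n2509 (.fin (nat_lit 323670167) (nat_lit 0)))))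
def n2566 : Nd := .arc (nat_lit 6) n2563 (.arc (nat_lit 9) n2565 (.fin (nat_lit 122826909) (nat_lit 0)))
def n2567 : Nd := .arc (nat_lit 14) n2493 (.arc (nat_lit 17) n2497 (.arc (nat_lit 20) n2487 (.arc (nat_lit 23) n2478 (.arc (nat_lit 26) n2542 (.arc (nat_lit 29) n2551 (.arc (nat_lit 32) n2561 (.arc (nat_lit 35) n2557 (.arc (nat_lit 50) n2510 (.arc (nat_lit 53) n2519 (.arc (nat_lit 56) n2525 (.arc (nat_lit 59) n2529 (.fin (nat_lit 122876061) (nat_lit 0)))))))))))))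
def n2568 : Nd := .arc (nat_lit 9) n2567 (.arc (nat_lit 64) n2534 (.arc (nat_lit 67) n2541 (.arc (nat_lit 70) n2538 (.fin (nat_lit 590508185) (nat_lit 0)))))
def n2569 : Nd := .arc (nat_lit 6) n2564 (.arc (nat_lit 52) n2502 (.arc (nat_lit 55) n2506 (.arc (nat_lit 58) n2509 (.fin (nat_lit 122859677) (nat_lit 0)))))
def n2570 : Nd := .arc (nat_lit 3) n2568 (.arc (nat_lit 6) n2569 (.fin (nat_lit 323653783) (nat_lit 0)))
def n2571 : Nd := .arc (nat_lit 6) n2567 (.arc (nat_lit 52) n2534 (.arc (nat_lit 55) n2538 (.arc (nat_lit 58) n2541 (.fin (nat_lit 323661975) (nat_lit 0)))))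
def n2572 : Nd := .arc (nat_lit 9) n2562 (.fin (nat_lit 122843293) (nat_lit 0))
def n2573 : Nd := .arc (nat_lit 3) n2571 (.arc (nat_lit 9) n2572 (.fin (nat_lit 590499993) (nat_lit 0)))
def n2574 : Nd := .arc (nat_lit 3) n2566 (.arc (nat_lit 6) n2570 (.arc (nat_lit 9) n2573 (.fin (nat_lit 187306139) (nat_lit 0))))
def n2575 : Nd := .arc (nat_lit 6) n2565 (.arc (nat_lit 9) n2563 (.fin (nat_lit 187314331) (nat_lit 0)))
def n2576 : Nd := .arc (nat_lit 14) n2497 (.arc (nat_lit 17) n2493 (.arc (nat_lit 20) n2478 (.arc (nat_lit 23) n2487 (.arc (nat_lit 38) n2542 (.arc (nat_lit 41) n2551 (.arc (nat_lit 44) n2557 (.arc (nat_lit 47) n2561 (.arc (nat_lit 62) n2510 (.arc (nat_lit 65) n2519 (.arc (nat_lit 68) n2529 (.arc (nat_lit 71) n2525 (.fin (nat_lit 187363483) (nat_lit 0)))))))))))))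
def n2577 : Nd := .arc (nat_lit 9) n2576 (.fin (nat_lit 323645591) (nat_lit 0))
def n2578 : Nd := .arc (nat_lit 6) n2562 (.fin (nat_lit 187347099) (nat_lit 0))
def n2579 : Nd := .arc (nat_lit 3) n2577 (.arc (nat_lit 6) n2578 (.fin (nat_lit 590516377) (nat_lit 0)))
def n2580 : Nd := .arc (nat_lit 6) n2576 (.fin (nat_lit 590524569) (nat_lit 0))
def n2581 : Nd := .arc (nat_lit 9) n2564 (.arc (nat_lit 64) n2502 (.arc (nat_lit 67) n2509 (.arc (nat_lit 70) n2506 (.fin (nat_lit 187330715) (nat_lit 0)))))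
def n2582 : Nd := .arc (nat_lit 3) n2580 (.arc (nat_lit 9) n2581 (.fin (nat_lit 323637399) (nat_lit 0)))
def n2583 : Nd := .arc (nat_lit 3) n2575 (.arc (nat_lit 6) n2579 (.arc (nat_lit 9) n2582 (.fin (nat_lit 122818717) (nat_lit 0))))
def n2584 : Nd := .arc (nat_lit 3) n2576 (.fin (nat_lit 122867869) (nat_lit 0))
def n2585 : Nd := .arc (nat_lit 3) n2567 (.arc (nat_lit 40) n2534 (.arc (nat_lit 43) n2538 (.arc (nat_lit 46) n2541 (.fin (nat_lit 187355291) (nat_lit 0)))))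
def n2586 : Nd := .arc (nat_lit 6) n2584 (.arc (nat_lit 9) n2585 (.fin (nat_lit 323629207) (nat_lit 0)))
def n2587 : Nd := .arc (nat_lit 3) n2572 (.arc (nat_lit 6) n2571 (.fin (nat_lit 187338907) (nat_lit 0)))
def n2588 : Nd := .arc (nat_lit 3) n2578 (.arc (nat_lit 9) n2577 (.fin (nat_lit 122835101) (nat_lit 0)))
def n2589 : Nd := .arc (nat_lit 3) n2586 (.arc (nat_lit 6) n2587 (.arc (nat_lit 9) n2588 (.fin (nat_lit 590483609) (nat_lit 0))))
def n2590 : Nd := .arc (nat_lit 6) n2585 (.arc (nat_lit 9) n2584 (.fin (nat_lit 590491801) (nat_lit 0)))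
def n2591 : Nd := .arc (nat_lit 3) n2581 (.arc (nat_lit 6) n2580 (.fin (nat_lit 122851485) (nat_lit 0)))
def n2592 : Nd := .arc (nat_lit 3) n2569 (.arc (nat_lit 9) n2568 (.fin (nat_lit 187322523) (nat_lit 0)))
def n2593 : Nd := .arc (nat_lit 3) n2590 (.arc (nat_lit 6) n2591 (.arc (nat_lit 9) n2592 (.fin (nat_lit 323621015) (nat_lit 0))))
def n2594 : Nd := .arc (nat_lit 38) n2423 (.arc (nat_lit 41) n2414 (.arc (nat_lit 44) n2433 (.arc (nat_lit 47) n2429 (.arc (nat_lit 62) n2455 (.arc (nat_lit 65) n2446 (.arc (nat_lit 68) n2461 (.arc (nat_lit 71) n2465 (.fin (nat_lit 187625627) (nat_lit 0)))))))))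
def n2595 : Nd := .arc (nat_lit 3) n2594 (.fin (nat_lit 123130013) (nat_lit 0))
def n2596 : Nd := .arc (nat_lit 26) n2423 (.arc (nat_lit 29) n2414 (.arc (nat_lit 32) n2429 (.arc (nat_lit 35) n2433 (.arc (nat_lit 50) n2455 (.arc (nat_lit 53) n2446 (.arc (nat_lit 56) n2465 (.arc (nat_lit 59) n2461 (.fin (nat_lit 123138205) (nat_lit 0)))))))))
def n2597 : Nd := .arc (nat_lit 3) n2596 (.arc (nat_lit 40) n2415 (.arc (nat_lit 43) n2419 (.arc (nat_lit 46) n2422 (.fin (nat_lit 187617435) (nat_lit 0)))))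
def n2598 : Nd := .arc (nat_lit 6) n2595 (.arc (nat_lit 9) n2597 (.fin (nat_lit 323891351) (nat_lit 0)))
def n2599 : Nd := .arc (nat_lit 38) n2455 (.arc (nat_lit 41) n2446 (.arc (nat_lit 44) n2465 (.arc (nat_lit 47) n2461 (.arc (nat_lit 50) n2423 (.arc (nat_lit 53) n2414 (.arc (nat_lit 56) n2433 (.arc (nat_lit 59) n2429 (.fin (nat_lit 323940503) (nat_lit 0)))))))))
def n2600 : Nd := .arc (nat_lit 9) n2599 (.fin (nat_lit 123105437) (nat_lit 0))
def n2601 : Nd := .arc (nat_lit 6) n2596 (.arc (nat_lit 52) n2415 (.arc (nat_lit 55) n2419 (.arc (nat_lit 58) n2422 (.fin (nat_lit 323924119) (nat_lit 0)))))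
def n2602 : Nd := .arc (nat_lit 3) n2600 (.arc (nat_lit 6) n2601 (.fin (nat_lit 187601051) (nat_lit 0)))
def n2603 : Nd := .arc (nat_lit 6) n2599 (.fin (nat_lit 187609243) (nat_lit 0))
def n2604 : Nd := .arc (nat_lit 9) n2594 (.fin (nat_lit 323907735) (nat_lit 0))
def n2605 : Nd := .arc (nat_lit 3) n2603 (.arc (nat_lit 9) n2604 (.fin (nat_lit 123097245) (nat_lit 0)))
def n2606 : Nd := .arc (nat_lit 3) n2598 (.arc (nat_lit 6) n2602 (.arc (nat_lit 9) n2605 (.fin (nat_lit 590745753) (nat_lit 0))))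
def n2607 : Nd := .arc (nat_lit 6) n2597 (.arc (nat_lit 9) n2595 (.fin (nat_lit 590753945) (nat_lit 0)))
def n2608 : Nd := .arc (nat_lit 26) n2455 (.arc (nat_lit 29) n2446 (.arc (nat_lit 32) n2461 (.arc (nat_lit 35) n2465 (.arc (nat_lit 62) n2423 (.arc (nat_lit 65) n2414 (.arc (nat_lit 68) n2429 (.arc (nat_lit 71) n2433 (.fin (nat_lit 590803097) (nat_lit 0)))))))))
def n2609 : Nd := .arc (nat_lit 9) n2608 (.arc (nat_lit 64) n2447 (.arc (nat_lit 67) n2454 (.arc (nat_lit 70) n2451 (.fin (nat_lit 187592859) (nat_lit 0)))))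
def n2610 : Nd := .arc (nat_lit 6) n2594 (.fin (nat_lit 590786713) (nat_lit 0))
def n2611 : Nd := .arc (nat_lit 3) n2609 (.arc (nat_lit 6) n2610 (.fin (nat_lit 123113629) (nat_lit 0)))
def n2612 : Nd := .arc (nat_lit 6) n2608 (.arc (nat_lit 52) n2447 (.arc (nat_lit 55) n2451 (.arc (nat_lit 58) n2454 (.fin (nat_lit 123121821) (nat_lit 0)))))
def n2613 : Nd := .arc (nat_lit 9) n2596 (.arc (nat_lit 64) n2415 (.arc (nat_lit 67) n2422 (.arc (nat_lit 70) n2419 (.fin (nat_lit 590770329) (nat_lit 0)))))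
def n2614 : Nd := .arc (nat_lit 3) n2612 (.arc (nat_lit 9) n2613 (.fin (nat_lit 187584667) (nat_lit 0)))
def n2615 : Nd := .arc (nat_lit 3) n2607 (.arc (nat_lit 6) n2611 (.arc (nat_lit 9) n2614 (.fin (nat_lit 323883159) (nat_lit 0))))
def n2616 : Nd := .arc (nat_lit 3) n2608 (.arc (nat_lit 40) n2447 (.arc (nat_lit 43) n2451 (.arc (nat_lit 46) n2454 (.fin (nat_lit 323932311) (nat_lit 0)))))
def n2617 : Nd := .arc (nat_lit 3) n2599 (.fin (nat_lit 590794905) (nat_lit 0))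
def n2618 : Nd := .arc (nat_lit 6) n2616 (.arc (nat_lit 9) n2617 (.fin (nat_lit 187576475) (nat_lit 0)))
def n2619 : Nd := .arc (nat_lit 3) n2604 (.arc (nat_lit 6) n2603 (.fin (nat_lit 590778521) (nat_lit 0)))
def n2620 : Nd := .arc (nat_lit 3) n2610 (.arc (nat_lit 9) n2609 (.fin (nat_lit 323899543) (nat_lit 0)))
def n2621 : Nd := .arc (nat_lit 3) n2618 (.arc (nat_lit 6) n2619 (.arc (nat_lit 9) n2620 (.fin (nat_lit 123080861) (nat_lit 0))))
def n2622 : Nd := .arc (nat_lit 6) n2617 (.arc (nat_lit 9) n2616 (.fin (nat_lit 123089053) (nat_lit 0)))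
def n2623 : Nd := .arc (nat_lit 3) n2613 (.arc (nat_lit 6) n2612 (.fin (nat_lit 323915927) (nat_lit 0)))
def n2624 : Nd := .arc (nat_lit 3) n2601 (.arc (nat_lit 9) n2600 (.fin (nat_lit 590762137) (nat_lit 0)))
def n2625 : Nd := .arc (nat_lit 3) n2622 (.arc (nat_lit 6) n2623 (.arc (nat_lit 9) n2624 (.fin (nat_lit 187568283) (nat_lit 0))))
def n2626 : Nd := .arc (nat_lit 38) n951 (.arc (nat_lit 41) n942 (.arc (nat_lit 44) n957 (.arc (nat_lit 47) n961 (.arc (nat_lit 50) n993 (.arc (nat_lit 53) n989 (.arc (nat_lit 56) n974 (.arc (nat_lit 59) n983 (.fin (nat_lit 944697493) (nat_lit 0)))))))))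
def n2627 : Nd := .arc (nat_lit 3) n2626 (.fin (nat_lit 876007573) (nat_lit 0))
def n2628 : Nd := .arc (nat_lit 26) n951 (.arc (nat_lit 29) n942 (.arc (nat_lit 32) n961 (.arc (nat_lit 35) n957 (.arc (nat_lit 62) n993 (.arc (nat_lit 65) n989 (.arc (nat_lit 68) n983 (.arc (nat_lit 71) n974 (.fin (nat_lit 876015765) (nat_lit 0)))))))))
def n2629 : Nd := .arc (nat_lit 3) n2628 (.arc (nat_lit 40) n943 (.arc (nat_lit 43) n947 (.arc (nat_lit 46) n950 (.fin (nat_lit 944689301) (nat_lit 0)))))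
def n2630 : Nd := .arc (nat_lit 6) n2627 (.arc (nat_lit 9) n2629 (.fin (nat_lit 475410581) (nat_lit 0)))
def n2631 : Nd := .arc (nat_lit 26) n993 (.arc (nat_lit 29) n989 (.arc (nat_lit 32) n983 (.arc (nat_lit 35) n974 (.arc (nat_lit 50) n951 (.arc (nat_lit 53) n942 (.arc (nat_lit 56) n957 (.arc (nat_lit 59) n961 (.fin (nat_lit 475459733) (nat_lit 0)))))))))
def n2632 : Nd := .arc (nat_lit 9) n2631 (.arc (nat_lit 64) n990 (.arc (nat_lit 67) n992 (.arc (nat_lit 70) n991 (.fin (nat_lit 875982997) (nat_lit 0)))))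
def n2633 : Nd := .arc (nat_lit 6) n2628 (.arc (nat_lit 52) n943 (.arc (nat_lit 55) n947 (.arc (nat_lit 58) n950 (.fin (nat_lit 475443349) (nat_lit 0)))))
def n2634 : Nd := .arc (nat_lit 3) n2632 (.arc (nat_lit 6) n2633 (.fin (nat_lit 944672917) (nat_lit 0)))
def n2635 : Nd := .arc (nat_lit 6) n2631 (.arc (nat_lit 52) n990 (.arc (nat_lit 55) n991 (.arc (nat_lit 58) n992 (.fin (nat_lit 944681109) (nat_lit 0)))))
def n2636 : Nd := .arc (nat_lit 9) n2626 (.fin (nat_lit 475426965) (nat_lit 0))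
def n2637 : Nd := .arc (nat_lit 3) n2635 (.arc (nat_lit 9) n2636 (.fin (nat_lit 875974805) (nat_lit 0)))
def n2638 : Nd := .arc (nat_lit 3) n2630 (.arc (nat_lit 6) n2634 (.arc (nat_lit 9) n2637 (.fin (nat_lit 741216405) (nat_lit 0))))
def n2639 : Nd := .arc (nat_lit 6) n2629 (.arc (nat_lit 9) n2627 (.fin (nat_lit 741224597) (nat_lit 0)))
def n2640 : Nd := .arc (nat_lit 38) n993 (.arc (nat_lit 41) n989 (.arc (nat_lit 44) n974 (.arc (nat_lit 47) n983 (.arc (nat_lit 62) n951 (.arc (nat_lit 65) n942 (.arc (nat_lit 68) n961 (.arc (nat_lit 71) n957 (.fin (nat_lit 741273749) (nat_lit 0)))))))))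
def n2641 : Nd := .arc (nat_lit 9) n2640 (.fin (nat_lit 944664725) (nat_lit 0))
def n2642 : Nd := .arc (nat_lit 6) n2626 (.fin (nat_lit 741257365) (nat_lit 0))
def n2643 : Nd := .arc (nat_lit 3) n2641 (.arc (nat_lit 6) n2642 (.fin (nat_lit 875991189) (nat_lit 0)))
def n2644 : Nd := .arc (nat_lit 6) n2640 (.fin (nat_lit 875999381) (nat_lit 0))
def n2645 : Nd := .arc (nat_lit 9) n2628 (.arc (nat_lit 64) n943 (.arc (nat_lit 67) n950 (.arc (nat_lit 70) n947 (.fin (nat_lit 741240981) (nat_lit 0)))))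
def n2646 : Nd := .arc (nat_lit 3) n2644 (.arc (nat_lit 9) n2645 (.fin (nat_lit 944656533) (nat_lit 0)))
def n2647 : Nd := .arc (nat_lit 3) n2639 (.arc (nat_lit 6) n2643 (.arc (nat_lit 9) n2646 (.fin (nat_lit 475402389) (nat_lit 0))))
def n2648 : Nd := .arc (nat_lit 3) n2640 (.fin (nat_lit 475451541) (nat_lit 0))
def n2649 : Nd := .arc (nat_lit 3) n2631 (.arc (nat_lit 40) n990 (.arc (nat_lit 43) n991 (.arc (nat_lit 46) n992 (.fin (nat_lit 741265557) (nat_lit 0)))))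
def n2650 : Nd := .arc (nat_lit 6) n2648 (.arc (nat_lit 9) n2649 (.fin (nat_lit 944648341) (nat_lit 0)))
def n2651 : Nd := .arc (nat_lit 3) n2636 (.arc (nat_lit 6) n2635 (.fin (nat_lit 741249173) (nat_lit 0)))
def n2652 : Nd := .arc (nat_lit 3) n2642 (.arc (nat_lit 9) n2641 (.fin (nat_lit 475418773) (nat_lit 0)))
def n2653 : Nd := .arc (nat_lit 3) n2650 (.arc (nat_lit 6) n2651 (.arc (nat_lit 9) n2652 (.fin (nat_lit 875958421) (nat_lit 0))))
def n2654 : Nd := .arc (nat_lit 6) n2649 (.arc (nat_lit 9) n2648 (.fin (nat_lit 875966613) (nat_lit 0)))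
def n2655 : Nd := .arc (nat_lit 3) n2645 (.arc (nat_lit 6) n2644 (.fin (nat_lit 475435157) (nat_lit 0)))
def n2656 : Nd := .arc (nat_lit 3) n2633 (.arc (nat_lit 9) n2632 (.fin (nat_lit 741232789) (nat_lit 0)))
def n2657 : Nd := .arc (nat_lit 3) n2654 (.arc (nat_lit 6) n2655 (.arc (nat_lit 9) n2656 (.fin (nat_lit 944640149) (nat_lit 0))))
def n2658 : Nd := .arc (nat_lit 26) n1917 (.arc (nat_lit 29) n1921 (.arc (nat_lit 32) n1911 (.arc (nat_lit 35) n1902 (.arc (nat_lit 50) n1885 (.arc (nat_lit 53) n1889 (.arc (nat_lit 56) n1870 (.arc (nat_lit 59) n1879 (.fin (nat_lit 827781273) (nat_lit 0)))))))))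
def n2659 : Nd := .arc (nat_lit 3) n2658 (.arc (nat_lit 40) n1914 (.arc (nat_lit 43) n1915 (.arc (nat_lit 46) n1916 (.fin (nat_lit 825151639) (nat_lit 0)))))
def n2660 : Nd := .arc (nat_lit 38) n1917 (.arc (nat_lit 41) n1921 (.arc (nat_lit 44) n1902 (.arc (nat_lit 47) n1911 (.arc (nat_lit 62) n1885 (.arc (nat_lit 65) n1889 (.arc (nat_lit 68) n1879 (.arc (nat_lit 71) n1870 (.fin (nat_lit 825159831) (nat_lit 0)))))))))
def n2661 : Nd := .arc (nat_lit 3) n2660 (.fin (nat_lit 827773081) (nat_lit 0))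
def n2662 : Nd := .arc (nat_lit 6) n2659 (.arc (nat_lit 9) n2661 (.fin (nat_lit 221655195) (nat_lit 0)))
def n2663 : Nd := .arc (nat_lit 26) n1885 (.arc (nat_lit 29) n1889 (.arc (nat_lit 32) n1879 (.arc (nat_lit 35) n1870 (.arc (nat_lit 62) n1917 (.arc (nat_lit 65) n1921 (.arc (nat_lit 68) n1911 (.arc (nat_lit 71) n1902 (.fin (nat_lit 221704347) (nat_lit 0)))))))))
def n2664 : Nd := .arc (nat_lit 9) n2663 (.arc (nat_lit 64) n1882 (.arc (nat_lit 67) n1884 (.arc (nat_lit 70) n1883 (.fin (nat_lit 825127063) (nat_lit 0)))))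
def n2665 : Nd := .arc (nat_lit 6) n2660 (.fin (nat_lit 221687963) (nat_lit 0))
def n2666 : Nd := .arc (nat_lit 3) n2664 (.arc (nat_lit 6) n2665 (.fin (nat_lit 827756697) (nat_lit 0)))
def n2667 : Nd := .arc (nat_lit 6) n2663 (.arc (nat_lit 52) n1882 (.arc (nat_lit 55) n1883 (.arc (nat_lit 58) n1884 (.fin (nat_lit 827764889) (nat_lit 0)))))
def n2668 : Nd := .arc (nat_lit 9) n2658 (.arc (nat_lit 64) n1914 (.arc (nat_lit 67) n1916 (.arc (nat_lit 70) n1915 (.fin (nat_lit 221671579) (nat_lit 0)))))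
def n2669 : Nd := .arc (nat_lit 3) n2667 (.arc (nat_lit 9) n2668 (.fin (nat_lit 825118871) (nat_lit 0)))
def n2670 : Nd := .arc (nat_lit 3) n2662 (.arc (nat_lit 6) n2666 (.arc (nat_lit 9) n2669 (.fin (nat_lit 223219869) (nat_lit 0))))
def n2671 : Nd := .arc (nat_lit 6) n2661 (.arc (nat_lit 9) n2659 (.fin (nat_lit 223228061) (nat_lit 0)))
def n2672 : Nd := .arc (nat_lit 38) n1885 (.arc (nat_lit 41) n1889 (.arc (nat_lit 44) n1870 (.arc (nat_lit 47) n1879 (.arc (nat_lit 50) n1917 (.arc (nat_lit 53) n1921 (.arc (nat_lit 56) n1902 (.arc (nat_lit 59) n1911 (.fin (nat_lit 223277213) (nat_lit 0)))))))))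
def n2673 : Nd := .arc (nat_lit 9) n2672 (.fin (nat_lit 827748505) (nat_lit 0))
def n2674 : Nd := .arc (nat_lit 6) n2658 (.arc (nat_lit 52) n1914 (.arc (nat_lit 55) n1915 (.arc (nat_lit 58) n1916 (.fin (nat_lit 223260829) (nat_lit 0)))))
def n2675 : Nd := .arc (nat_lit 3) n2673 (.arc (nat_lit 6) n2674 (.fin (nat_lit 825135255) (nat_lit 0)))
def n2676 : Nd := .arc (nat_lit 6) n2672 (.fin (nat_lit 825143447) (nat_lit 0))
def n2677 : Nd := .arc (nat_lit 9) n2660 (.fin (nat_lit 223244445) (nat_lit 0))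
def n2678 : Nd := .arc (nat_lit 3) n2676 (.arc (nat_lit 9) n2677 (.fin (nat_lit 827740313) (nat_lit 0)))
def n2679 : Nd := .arc (nat_lit 3) n2671 (.arc (nat_lit 6) n2675 (.arc (nat_lit 9) n2678 (.fin (nat_lit 221647003) (nat_lit 0))))
def n2680 : Nd := .arc (nat_lit 3) n2663 (.arc (nat_lit 40) n1882 (.arc (nat_lit 43) n1883 (.arc (nat_lit 46) n1884 (.fin (nat_lit 223269021) (nat_lit 0)))))
def n2681 : Nd := .arc (nat_lit 3) n2672 (.fin (nat_lit 221696155) (nat_lit 0))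
def n2682 : Nd := .arc (nat_lit 6) n2680 (.arc (nat_lit 9) n2681 (.fin (nat_lit 825110679) (nat_lit 0)))
def n2683 : Nd := .arc (nat_lit 3) n2677 (.arc (nat_lit 6) n2676 (.fin (nat_lit 221679771) (nat_lit 0)))
def n2684 : Nd := .arc (nat_lit 3) n2665 (.arc (nat_lit 9) n2664 (.fin (nat_lit 223236253) (nat_lit 0)))
def n2685 : Nd := .arc (nat_lit 3) n2682 (.arc (nat_lit 6) n2683 (.arc (nat_lit 9) n2684 (.fin (nat_lit 827723929) (nat_lit 0))))
def n2686 : Nd := .arc (nat_lit 6) n2681 (.arc (nat_lit 9) n2680 (.fin (nat_lit 827732121) (nat_lit 0)))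
def n2687 : Nd := .arc (nat_lit 3) n2668 (.arc (nat_lit 6) n2667 (.fin (nat_lit 223252637) (nat_lit 0)))
def n2688 : Nd := .arc (nat_lit 3) n2674 (.arc (nat_lit 9) n2673 (.fin (nat_lit 221663387) (nat_lit 0)))
def n2689 : Nd := .arc (nat_lit 3) n2686 (.arc (nat_lit 6) n2687 (.arc (nat_lit 9) n2688 (.fin (nat_lit 825102487) (nat_lit 0))))
def n2690 : Nd := .arc (nat_lit 14) n2606 (.arc (nat_lit 17) n2615 (.arc (nat_lit 20) n2621 (.arc (nat_lit 23) n2625 (.arc (nat_lit 26) n2638 (.arc (nat_lit 29) n2647 (.arc (nat_lit 32) n2653 (.arc (nat_lit 35) n2657 (.arc (nat_lit 50) n2670 (.arc (nat_lit 53) n2679 (.arc (nat_lit 56) n2685 (.arc (nat_lit 59) n2689 (.fin (nat_lit 324202649) (nat_lit 0)))))))))))))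
def n2691 : Nd := .arc (nat_lit 3) n2690 (.arc (nat_lit 40) n2630 (.arc (nat_lit 43) n2634 (.arc (nat_lit 46) n2637 (.fin (nat_lit 590008471) (nat_lit 0)))))
def n2692 : Nd := .arc (nat_lit 14) n2615 (.arc (nat_lit 17) n2606 (.arc (nat_lit 20) n2625 (.arc (nat_lit 23) n2621 (.arc (nat_lit 38) n2638 (.arc (nat_lit 41) n2647 (.arc (nat_lit 44) n2657 (.arc (nat_lit 47) n2653 (.arc (nat_lit 62) n2670 (.arc (nat_lit 65) n2679 (.arc (nat_lit 68) n2689 (.arc (nat_lit 71) n2685 (.fin (nat_lit 590016663) (nat_lit 0)))))))))))))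
def n2693 : Nd := .arc (nat_lit 3) n2692 (.fin (nat_lit 324194457) (nat_lit 0))
def n2694 : Nd := .arc (nat_lit 6) n2691 (.arc (nat_lit 9) n2693 (.fin (nat_lit 120729755) (nat_lit 0)))
def n2695 : Nd := .arc (nat_lit 14) n2621 (.arc (nat_lit 17) n2625 (.arc (nat_lit 20) n2615 (.arc (nat_lit 23) n2606 (.arc (nat_lit 26) n2670 (.arc (nat_lit 29) n2679 (.arc (nat_lit 32) n2689 (.arc (nat_lit 35) n2685 (.arc (nat_lit 62) n2638 (.arc (nat_lit 65) n2647 (.arc (nat_lit 68) n2653 (.arc (nat_lit 71) n2657 (.fin (nat_lit 120778907) (nat_lit 0)))))))))))))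
def n2696 : Nd := .arc (nat_lit 9) n2695 (.arc (nat_lit 64) n2662 (.arc (nat_lit 67) n2669 (.arc (nat_lit 70) n2666 (.fin (nat_lit 589983895) (nat_lit 0)))))
def n2697 : Nd := .arc (nat_lit 6) n2692 (.fin (nat_lit 120762523) (nat_lit 0))
def n2698 : Nd := .arc (nat_lit 3) n2696 (.arc (nat_lit 6) n2697 (.fin (nat_lit 324178073) (nat_lit 0)))
def n2699 : Nd := .arc (nat_lit 6) n2695 (.arc (nat_lit 52) n2662 (.arc (nat_lit 55) n2666 (.arc (nat_lit 58) n2669 (.fin (nat_lit 324186265) (nat_lit 0)))))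
def n2700 : Nd := .arc (nat_lit 9) n2690 (.arc (nat_lit 64) n2630 (.arc (nat_lit 67) n2637 (.arc (nat_lit 70) n2634 (.fin (nat_lit 120746139) (nat_lit 0)))))
def n2701 : Nd := .arc (nat_lit 3) n2699 (.arc (nat_lit 9) n2700 (.fin (nat_lit 589975703) (nat_lit 0)))
def n2702 : Nd := .arc (nat_lit 3) n2694 (.arc (nat_lit 6) n2698 (.arc (nat_lit 9) n2701 (.fin (nat_lit 189403293) (nat_lit 0))))
def n2703 : Nd := .arc (nat_lit 6) n2693 (.arc (nat_lit 9) n2691 (.fin (nat_lit 189411485) (nat_lit 0)))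
def n2704 : Nd := .arc (nat_lit 14) n2625 (.arc (nat_lit 17) n2621 (.arc (nat_lit 20) n2606 (.arc (nat_lit 23) n2615 (.arc (nat_lit 38) n2670 (.arc (nat_lit 41) n2679 (.arc (nat_lit 44) n2685 (.arc (nat_lit 47) n2689 (.arc (nat_lit 50) n2638 (.arc (nat_lit 53) n2647 (.arc (nat_lit 56) n2657 (.arc (nat_lit 59) n2653 (.fin (nat_lit 189460637) (nat_lit 0)))))))))))))
def n2705 : Nd := .arc (nat_lit 9) n2704 (.fin (nat_lit 324169881) (nat_lit 0))
def n2706 : Nd := .arc (nat_lit 6) n2690 (.arc (nat_lit 52) n2630 (.arc (nat_lit 55) n2634 (.arc (nat_lit 58) n2637 (.fin (nat_lit 189444253) (nat_lit 0)))))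
def n2707 : Nd := .arc (nat_lit 3) n2705 (.arc (nat_lit 6) n2706 (.fin (nat_lit 589992087) (nat_lit 0)))
def n2708 : Nd := .arc (nat_lit 6) n2704 (.fin (nat_lit 590000279) (nat_lit 0))
def n2709 : Nd := .arc (nat_lit 9) n2692 (.fin (nat_lit 189427869) (nat_lit 0))
def n2710 : Nd := .arc (nat_lit 3) n2708 (.arc (nat_lit 9) n2709 (.fin (nat_lit 324161689) (nat_lit 0)))
def n2711 : Nd := .arc (nat_lit 3) n2703 (.arc (nat_lit 6) n2707 (.arc (nat_lit 9) n2710 (.fin (nat_lit 120721563) (nat_lit 0))))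
def n2712 : Nd := .arc (nat_lit 3) n2695 (.arc (nat_lit 40) n2662 (.arc (nat_lit 43) n2666 (.arc (nat_lit 46) n2669 (.fin (nat_lit 189452445) (nat_lit 0)))))
def n2713 : Nd := .arc (nat_lit 3) n2704 (.fin (nat_lit 120770715) (nat_lit 0))
def n2714 : Nd := .arc (nat_lit 6) n2712 (.arc (nat_lit 9) n2713 (.fin (nat_lit 589967511) (nat_lit 0)))
def n2715 : Nd := .arc (nat_lit 3) n2709 (.arc (nat_lit 6) n2708 (.fin (nat_lit 120754331) (nat_lit 0)))
def n2716 : Nd := .arc (nat_lit 3) n2697 (.arc (nat_lit 9) n2696 (.fin (nat_lit 189419677) (nat_lit 0)))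
def n2717 : Nd := .arc (nat_lit 3) n2714 (.arc (nat_lit 6) n2715 (.arc (nat_lit 9) n2716 (.fin (nat_lit 324145305) (nat_lit 0))))
def n2718 : Nd := .arc (nat_lit 6) n2713 (.arc (nat_lit 9) n2712 (.fin (nat_lit 324153497) (nat_lit 0)))
def n2719 : Nd := .arc (nat_lit 3) n2700 (.arc (nat_lit 6) n2699 (.fin (nat_lit 189436061) (nat_lit 0)))
def n2720 : Nd := .arc (nat_lit 3) n2706 (.arc (nat_lit 9) n2705 (.fin (nat_lit 120737947) (nat_lit 0)))
def n2721 : Nd := .arc (nat_lit 3) n2718 (.arc (nat_lit 6) n2719 (.arc (nat_lit 9) n2720 (.fin (nat_lit 589959319) (nat_lit 0))))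
def n2722 : Nd := .arc (nat_lit 26) n1505 (.arc (nat_lit 29) n1501 (.arc (nat_lit 32) n1495 (.arc (nat_lit 35) n1486 (.arc (nat_lit 38) n1473 (.arc (nat_lit 41) n1469 (.arc (nat_lit 44) n1463 (.arc (nat_lit 47) n1454 (.arc (nat_lit 50) n1441 (.arc (nat_lit 53) n1437 (.arc (nat_lit 56) n1431 (.arc (nat_lit 59) n1422 (.fin (nat_lit 474411157) (nat_lit 0)))))))))))))
def n2723 : Nd := .arc (nat_lit 3) n2722 (.arc (nat_lit 40) n1502 (.arc (nat_lit 43) n1503 (.arc (nat_lit 46) n1504 (.fin (nat_lit 740741269) (nat_lit 0)))))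
def n2724 : Nd := .arc (nat_lit 26) n1473 (.arc (nat_lit 29) n1469 (.arc (nat_lit 32) n1454 (.arc (nat_lit 35) n1463 (.arc (nat_lit 38) n1505 (.arc (nat_lit 41) n1501 (.arc (nat_lit 44) n1486 (.arc (nat_lit 47) n1495 (.arc (nat_lit 62) n1441 (.arc (nat_lit 65) n1437 (.arc (nat_lit 68) n1422 (.arc (nat_lit 71) n1431 (.fin (nat_lit 740749461) (nat_lit 0)))))))))))))
def n2725 : Nd := .arc (nat_lit 3) n2724 (.arc (nat_lit 40) n1470 (.arc (nat_lit 43) n1471 (.arc (nat_lit 46) n1472 (.fin (nat_lit 474402965) (nat_lit 0)))))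
def n2726 : Nd := .arc (nat_lit 6) n2723 (.arc (nat_lit 9) n2725 (.fin (nat_lit 873869461) (nat_lit 0)))
def n2727 : Nd := .arc (nat_lit 26) n1441 (.arc (nat_lit 29) n1437 (.arc (nat_lit 32) n1422 (.arc (nat_lit 35) n1431 (.arc (nat_lit 50) n1473 (.arc (nat_lit 53) n1469 (.arc (nat_lit 56) n1463 (.arc (nat_lit 59) n1454 (.arc (nat_lit 62) n1505 (.arc (nat_lit 65) n1501 (.arc (nat_lit 68) n1495 (.arc (nat_lit 71) n1486 (.fin (nat_lit 873918613) (nat_lit 0)))))))))))))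
def n2728 : Nd := .arc (nat_lit 9) n2727 (.arc (nat_lit 64) n1438 (.arc (nat_lit 67) n1440 (.arc (nat_lit 70) n1439 (.fin (nat_lit 740716693) (nat_lit 0)))))
def n2729 : Nd := .arc (nat_lit 6) n2724 (.arc (nat_lit 52) n1470 (.arc (nat_lit 55) n1471 (.arc (nat_lit 58) n1472 (.fin (nat_lit 873902229) (nat_lit 0)))))
def n2730 : Nd := .arc (nat_lit 3) n2728 (.arc (nat_lit 6) n2729 (.fin (nat_lit 474386581) (nat_lit 0)))
def n2731 : Nd := .arc (nat_lit 6) n2727 (.arc (nat_lit 52) n1438 (.arc (nat_lit 55) n1439 (.arc (nat_lit 58) n1440 (.fin (nat_lit 474394773) (nat_lit 0)))))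
def n2732 : Nd := .arc (nat_lit 9) n2722 (.arc (nat_lit 64) n1502 (.arc (nat_lit 67) n1504 (.arc (nat_lit 70) n1503 (.fin (nat_lit 873885845) (nat_lit 0)))))
def n2733 : Nd := .arc (nat_lit 3) n2731 (.arc (nat_lit 9) n2732 (.fin (nat_lit 740708501) (nat_lit 0)))
def n2734 : Nd := .arc (nat_lit 3) n2726 (.arc (nat_lit 6) n2730 (.arc (nat_lit 9) n2733 (.fin (nat_lit 940445845) (nat_lit 0))))
def n2735 : Nd := .arc (nat_lit 6) n2725 (.arc (nat_lit 9) n2723 (.fin (nat_lit 940454037) (nat_lit 0)))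
def n2736 : Nd := .arc (nat_lit 38) n1441 (.arc (nat_lit 41) n1437 (.arc (nat_lit 44) n1431 (.arc (nat_lit 47) n1422 (.arc (nat_lit 50) n1505 (.arc (nat_lit 53) n1501 (.arc (nat_lit 56) n1486 (.arc (nat_lit 59) n1495 (.arc (nat_lit 62) n1473 (.arc (nat_lit 65) n1469 (.arc (nat_lit 68) n1454 (.arc (nat_lit 71) n1463 (.fin (nat_lit 940503189) (nat_lit 0)))))))))))))
def n2737 : Nd := .arc (nat_lit 9) n2736 (.fin (nat_lit 474378389) (nat_lit 0))
def n2738 : Nd := .arc (nat_lit 6) n2722 (.arc (nat_lit 52) n1502 (.arc (nat_lit 55) n1503 (.arc (nat_lit 58) n1504 (.fin (nat_lit 940486805) (nat_lit 0)))))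
def n2739 : Nd := .arc (nat_lit 3) n2737 (.arc (nat_lit 6) n2738 (.fin (nat_lit 740724885) (nat_lit 0)))
def n2740 : Nd := .arc (nat_lit 6) n2736 (.fin (nat_lit 740733077) (nat_lit 0))
def n2741 : Nd := .arc (nat_lit 9) n2724 (.arc (nat_lit 64) n1470 (.arc (nat_lit 67) n1472 (.arc (nat_lit 70) n1471 (.fin (nat_lit 940470421) (nat_lit 0)))))
def n2742 : Nd := .arc (nat_lit 3) n2740 (.arc (nat_lit 9) n2741 (.fin (nat_lit 474370197) (nat_lit 0)))
def n2743 : Nd := .arc (nat_lit 3) n2735 (.arc (nat_lit 6) n2739 (.arc (nat_lit 9) n2742 (.fin (nat_lit 873861269) (nat_lit 0))))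
def n2744 : Nd := .arc (nat_lit 3) n2727 (.arc (nat_lit 40) n1438 (.arc (nat_lit 43) n1439 (.arc (nat_lit 46) n1440 (.fin (nat_lit 940494997) (nat_lit 0)))))
def n2745 : Nd := .arc (nat_lit 3) n2736 (.fin (nat_lit 873910421) (nat_lit 0))
def n2746 : Nd := .arc (nat_lit 6) n2744 (.arc (nat_lit 9) n2745 (.fin (nat_lit 740700309) (nat_lit 0)))
def n2747 : Nd := .arc (nat_lit 3) n2741 (.arc (nat_lit 6) n2740 (.fin (nat_lit 873894037) (nat_lit 0)))
def n2748 : Nd := .arc (nat_lit 3) n2729 (.arc (nat_lit 9) n2728 (.fin (nat_lit 940462229) (nat_lit 0)))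
def n2749 : Nd := .arc (nat_lit 3) n2746 (.arc (nat_lit 6) n2747 (.arc (nat_lit 9) n2748 (.fin (nat_lit 474353813) (nat_lit 0))))
def n2750 : Nd := .arc (nat_lit 6) n2745 (.arc (nat_lit 9) n2744 (.fin (nat_lit 474362005) (nat_lit 0)))
def n2751 : Nd := .arc (nat_lit 3) n2732 (.arc (nat_lit 6) n2731 (.fin (nat_lit 940478613) (nat_lit 0)))
def n2752 : Nd := .arc (nat_lit 3) n2738 (.arc (nat_lit 9) n2737 (.fin (nat_lit 873877653) (nat_lit 0)))
def n2753 : Nd := .arc (nat_lit 3) n2750 (.arc (nat_lit 6) n2751 (.arc (nat_lit 9) n2752 (.fin (nat_lit 740692117) (nat_lit 0))))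
def n2754 : Nd := .arc (nat_lit 14) n2382 (.arc (nat_lit 17) n2391 (.arc (nat_lit 20) n2397 (.arc (nat_lit 23) n2401 (.arc (nat_lit 26) n2574 (.arc (nat_lit 29) n2583 (.arc (nat_lit 32) n2589 (.arc (nat_lit 35) n2593 (.arc (nat_lit 38) n2702 (.arc (nat_lit 41) n2711 (.arc (nat_lit 44) n2717 (.arc (nat_lit 47) n2721 (.arc (nat_lit 50) n2734 (.arc (nat_lit 53) n2743 (.arc (nat_lit 56) n2749 (.arc (nat_lit 59) n2753 (.fin (nat_lit 239267997) (nat_lit 0)))))))))))))))))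
def n2755 : Nd := .arc (nat_lit 3) n2754 (.arc (nat_lit 40) n2566 (.arc (nat_lit 43) n2570 (.arc (nat_lit 46) n2573 (.fin (nat_lit 237162651) (nat_lit 0)))))
def n2756 : Nd := .arc (nat_lit 14) n2391 (.arc (nat_lit 17) n2382 (.arc (nat_lit 20) n2401 (.arc (nat_lit 23) n2397 (.arc (nat_lit 26) n2702 (.arc (nat_lit 29) n2711 (.arc (nat_lit 32) n2721 (.arc (nat_lit 35) n2717 (.arc (nat_lit 38) n2574 (.arc (nat_lit 41) n2583 (.arc (nat_lit 44) n2593 (.arc (nat_lit 47) n2589 (.arc (nat_lit 62) n2734 (.arc (nat_lit 65) n2743 (.arc (nat_lit 68) n2753 (.arc (nat_lit 71) n2749 (.fin (nat_lit 237170843) (nat_lit 0)))))))))))))))))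
def n2757 : Nd := .arc (nat_lit 3) n2756 (.arc (nat_lit 40) n2694 (.arc (nat_lit 43) n2698 (.arc (nat_lit 46) n2701 (.fin (nat_lit 239259805) (nat_lit 0)))))
def n2758 : Nd := .arc (nat_lit 6) n2755 (.arc (nat_lit 9) n2757 (.fin (nat_lit 840052889) (nat_lit 0)))
def n2759 : Nd := .arc (nat_lit 14) n2397 (.arc (nat_lit 17) n2401 (.arc (nat_lit 20) n2391 (.arc (nat_lit 23) n2382 (.arc (nat_lit 26) n2734 (.arc (nat_lit 29) n2743 (.arc (nat_lit 32) n2753 (.arc (nat_lit 35) n2749 (.arc (nat_lit 50) n2702 (.arc (nat_lit 53) n2711 (.arc (nat_lit 56) n2717 (.arc (nat_lit 59) n2721 (.arc (nat_lit 62) n2574 (.arc (nat_lit 65) n2583 (.arc (nat_lit 68) n2589 (.arc (nat_lit 71) n2593 (.fin (nat_lit 840102041) (nat_lit 0)))))))))))))))))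
def n2760 : Nd := .arc (nat_lit 9) n2759 (.arc (nat_lit 64) n2726 (.arc (nat_lit 67) n2733 (.arc (nat_lit 70) n2730 (.fin (nat_lit 237138075) (nat_lit 0)))))
def n2761 : Nd := .arc (nat_lit 6) n2756 (.arc (nat_lit 52) n2694 (.arc (nat_lit 55) n2698 (.arc (nat_lit 58) n2701 (.fin (nat_lit 840085657) (nat_lit 0)))))
def n2762 : Nd := .arc (nat_lit 3) n2760 (.arc (nat_lit 6) n2761 (.fin (nat_lit 239243421) (nat_lit 0)))
def n2763 : Nd := .arc (nat_lit 6) n2759 (.arc (nat_lit 52) n2726 (.arc (nat_lit 55) n2730 (.arc (nat_lit 58) n2733 (.fin (nat_lit 239251613) (nat_lit 0)))))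
def n2764 : Nd := .arc (nat_lit 9) n2754 (.arc (nat_lit 64) n2566 (.arc (nat_lit 67) n2573 (.arc (nat_lit 70) n2570 (.fin (nat_lit 840069273) (nat_lit 0)))))
def n2765 : Nd := .arc (nat_lit 3) n2763 (.arc (nat_lit 9) n2764 (.fin (nat_lit 237129883) (nat_lit 0)))
def n2766 : Nd := .arc (nat_lit 3) n2758 (.arc (nat_lit 6) n2762 (.arc (nat_lit 9) n2765 (.fin (nat_lit 839520407) (nat_lit 0))))
def n2767 : Nd := .arc (nat_lit 6) n2757 (.arc (nat_lit 9) n2755 (.fin (nat_lit 839528599) (nat_lit 0)))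
def n2768 : Nd := .arc (nat_lit 14) n2401 (.arc (nat_lit 17) n2397 (.arc (nat_lit 20) n2382 (.arc (nat_lit 23) n2391 (.arc (nat_lit 38) n2734 (.arc (nat_lit 41) n2743 (.arc (nat_lit 44) n2749 (.arc (nat_lit 47) n2753 (.arc (nat_lit 50) n2574 (.arc (nat_lit 53) n2583 (.arc (nat_lit 56) n2593 (.arc (nat_lit 59) n2589 (.arc (nat_lit 62) n2702 (.arc (nat_lit 65) n2711 (.arc (nat_lit 68) n2721 (.arc (nat_lit 71) n2717 (.fin (nat_lit 839577751) (nat_lit 0)))))))))))))))))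
def n2769 : Nd := .arc (nat_lit 9) n2768 (.fin (nat_lit 239235229) (nat_lit 0))
def n2770 : Nd := .arc (nat_lit 6) n2754 (.arc (nat_lit 52) n2566 (.arc (nat_lit 55) n2570 (.arc (nat_lit 58) n2573 (.fin (nat_lit 839561367) (nat_lit 0)))))
def n2771 : Nd := .arc (nat_lit 3) n2769 (.arc (nat_lit 6) n2770 (.fin (nat_lit 237146267) (nat_lit 0)))
def n2772 : Nd := .arc (nat_lit 6) n2768 (.fin (nat_lit 237154459) (nat_lit 0))
def n2773 : Nd := .arc (nat_lit 9) n2756 (.arc (nat_lit 64) n2694 (.arc (nat_lit 67) n2701 (.arc (nat_lit 70) n2698 (.fin (nat_lit 839544983) (nat_lit 0)))))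
def n2774 : Nd := .arc (nat_lit 3) n2772 (.arc (nat_lit 9) n2773 (.fin (nat_lit 239227037) (nat_lit 0)))
def n2775 : Nd := .arc (nat_lit 3) n2767 (.arc (nat_lit 6) n2771 (.arc (nat_lit 9) n2774 (.fin (nat_lit 840044697) (nat_lit 0))))
def n2776 : Nd := .arc (nat_lit 3) n2759 (.arc (nat_lit 40) n2726 (.arc (nat_lit 43) n2730 (.arc (nat_lit 46) n2733 (.fin (nat_lit 839569559) (nat_lit 0)))))
def n2777 : Nd := .arc (nat_lit 3) n2768 (.fin (nat_lit 840093849) (nat_lit 0))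
def n2778 : Nd := .arc (nat_lit 6) n2776 (.arc (nat_lit 9) n2777 (.fin (nat_lit 237121691) (nat_lit 0)))
def n2779 : Nd := .arc (nat_lit 3) n2773 (.arc (nat_lit 6) n2772 (.fin (nat_lit 840077465) (nat_lit 0)))
def n2780 : Nd := .arc (nat_lit 3) n2761 (.arc (nat_lit 9) n2760 (.fin (nat_lit 839536791) (nat_lit 0)))
def n2781 : Nd := .arc (nat_lit 3) n2778 (.arc (nat_lit 6) n2779 (.arc (nat_lit 9) n2780 (.fin (nat_lit 239210653) (nat_lit 0))))
def n2782 : Nd := .arc (nat_lit 6) n2777 (.arc (nat_lit 9) n2776 (.fin (nat_lit 239218845) (nat_lit 0)))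
def n2783 : Nd := .arc (nat_lit 3) n2764 (.arc (nat_lit 6) n2763 (.fin (nat_lit 839553175) (nat_lit 0)))
def n2784 : Nd := .arc (nat_lit 3) n2770 (.arc (nat_lit 9) n2769 (.fin (nat_lit 840061081) (nat_lit 0)))
def n2785 : Nd := .arc (nat_lit 3) n2782 (.arc (nat_lit 6) n2783 (.arc (nat_lit 9) n2784 (.fin (nat_lit 237113499) (nat_lit 0))))
def n2786 : Nd := .arc (nat_lit 26) n701 (.arc (nat_lit 29) n705 (.arc (nat_lit 32) n686 (.arc (nat_lit 35) n695 (.arc (nat_lit 38) n765 (.arc (nat_lit 41) n769 (.arc (nat_lit 44) n750 (.arc (nat_lit 47) n759 (.fin (nat_lit 946270357) (nat_lit 0)))))))))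
def n2787 : Nd := .arc (nat_lit 3) n2786 (.arc (nat_lit 40) n698 (.arc (nat_lit 43) n699 (.arc (nat_lit 46) n700 (.fin (nat_lit 879153301) (nat_lit 0)))))
def n2788 : Nd := .arc (nat_lit 26) n765 (.arc (nat_lit 29) n769 (.arc (nat_lit 32) n759 (.arc (nat_lit 35) n750 (.arc (nat_lit 38) n701 (.arc (nat_lit 41) n705 (.arc (nat_lit 44) n695 (.arc (nat_lit 47) n686 (.fin (nat_lit 879161493) (nat_lit 0)))))))))
def n2789 : Nd := .arc (nat_lit 3) n2788 (.arc (nat_lit 40) n762 (.arc (nat_lit 43) n763 (.arc (nat_lit 46) n764 (.fin (nat_lit 946262165) (nat_lit 0)))))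
def n2790 : Nd := .arc (nat_lit 6) n2787 (.arc (nat_lit 9) n2789 (.fin (nat_lit 471740565) (nat_lit 0)))
def n2791 : Nd := .arc (nat_lit 50) n765 (.arc (nat_lit 53) n769 (.arc (nat_lit 56) n750 (.arc (nat_lit 59) n759 (.arc (nat_lit 62) n701 (.arc (nat_lit 65) n705 (.arc (nat_lit 68) n686 (.arc (nat_lit 71) n695 (.fin (nat_lit 471789717) (nat_lit 0)))))))))
def n2792 : Nd := .arc (nat_lit 9) n2791 (.fin (nat_lit 879128725) (nat_lit 0))
def n2793 : Nd := .arc (nat_lit 6) n2788 (.arc (nat_lit 52) n762 (.arc (nat_lit 55) n763 (.arc (nat_lit 58) n764 (.fin (nat_lit 471773333) (nat_lit 0)))))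
def n2794 : Nd := .arc (nat_lit 3) n2792 (.arc (nat_lit 6) n2793 (.fin (nat_lit 946245781) (nat_lit 0)))
def n2795 : Nd := .arc (nat_lit 6) n2791 (.fin (nat_lit 946253973) (nat_lit 0))
def n2796 : Nd := .arc (nat_lit 9) n2786 (.arc (nat_lit 64) n698 (.arc (nat_lit 67) n700 (.arc (nat_lit 70) n699 (.fin (nat_lit 471756949) (nat_lit 0)))))
def n2797 : Nd := .arc (nat_lit 3) n2795 (.arc (nat_lit 9) n2796 (.fin (nat_lit 879120533) (nat_lit 0)))
def n2798 : Nd := .arc (nat_lit 3) n2790 (.arc (nat_lit 6) n2794 (.arc (nat_lit 9) n2797 (.fin (nat_lit 740167829) (nat_lit 0))))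
def n2799 : Nd := .arc (nat_lit 6) n2789 (.arc (nat_lit 9) n2787 (.fin (nat_lit 740176021) (nat_lit 0)))
def n2800 : Nd := .arc (nat_lit 50) n701 (.arc (nat_lit 53) n705 (.arc (nat_lit 56) n695 (.arc (nat_lit 59) n686 (.arc (nat_lit 62) n765 (.arc (nat_lit 65) n769 (.arc (nat_lit 68) n759 (.arc (nat_lit 71) n750 (.fin (nat_lit 740225173) (nat_lit 0)))))))))
def n2801 : Nd := .arc (nat_lit 9) n2800 (.fin (nat_lit 946237589) (nat_lit 0))
def n2802 : Nd := .arc (nat_lit 6) n2786 (.arc (nat_lit 52) n698 (.arc (nat_lit 55) n699 (.arc (nat_lit 58) n700 (.fin (nat_lit 740208789) (nat_lit 0)))))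
def n2803 : Nd := .arc (nat_lit 3) n2801 (.arc (nat_lit 6) n2802 (.fin (nat_lit 879136917) (nat_lit 0)))
def n2804 : Nd := .arc (nat_lit 6) n2800 (.fin (nat_lit 879145109) (nat_lit 0))
def n2805 : Nd := .arc (nat_lit 9) n2788 (.arc (nat_lit 64) n762 (.arc (nat_lit 67) n764 (.arc (nat_lit 70) n763 (.fin (nat_lit 740192405) (nat_lit 0)))))
def n2806 : Nd := .arc (nat_lit 3) n2804 (.arc (nat_lit 9) n2805 (.fin (nat_lit 946229397) (nat_lit 0)))
def n2807 : Nd := .arc (nat_lit 3) n2799 (.arc (nat_lit 6) n2803 (.arc (nat_lit 9) n2806 (.fin (nat_lit 471732373) (nat_lit 0))))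
def n2808 : Nd := .arc (nat_lit 3) n2791 (.fin (nat_lit 740216981) (nat_lit 0))
def n2809 : Nd := .arc (nat_lit 3) n2800 (.fin (nat_lit 471781525) (nat_lit 0))
def n2810 : Nd := .arc (nat_lit 6) n2808 (.arc (nat_lit 9) n2809 (.fin (nat_lit 879112341) (nat_lit 0)))
def n2811 : Nd := .arc (nat_lit 3) n2805 (.arc (nat_lit 6) n2804 (.fin (nat_lit 471765141) (nat_lit 0)))
def n2812 : Nd := .arc (nat_lit 3) n2793 (.arc (nat_lit 9) n2792 (.fin (nat_lit 740184213) (nat_lit 0)))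
def n2813 : Nd := .arc (nat_lit 3) n2810 (.arc (nat_lit 6) n2811 (.arc (nat_lit 9) n2812 (.fin (nat_lit 946213013) (nat_lit 0))))
def n2814 : Nd := .arc (nat_lit 6) n2809 (.arc (nat_lit 9) n2808 (.fin (nat_lit 946221205) (nat_lit 0)))
def n2815 : Nd := .arc (nat_lit 3) n2796 (.arc (nat_lit 6) n2795 (.fin (nat_lit 740200597) (nat_lit 0)))
def n2816 : Nd := .arc (nat_lit 3) n2802 (.arc (nat_lit 9) n2801 (.fin (nat_lit 471748757) (nat_lit 0)))
def n2817 : Nd := .arc (nat_lit 3) n2814 (.arc (nat_lit 6) n2815 (.arc (nat_lit 9) n2816 (.fin (nat_lit 879104149) (nat_lit 0))))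
def n2818 : Nd := .arc (nat_lit 14) n2433 (.arc (nat_lit 17) n2429 (.arc (nat_lit 20) n2423 (.arc (nat_lit 23) n2414 (.arc (nat_lit 38) n2461 (.arc (nat_lit 41) n2465 (.arc (nat_lit 44) n2455 (.arc (nat_lit 47) n2446 (.fin (nat_lit 845869207) (nat_lit 0)))))))))
def n2819 : Nd := .arc (nat_lit 3) n2818 (.fin (nat_lit 846385305) (nat_lit 0))
def n2820 : Nd := .arc (nat_lit 14) n2429 (.arc (nat_lit 17) n2433 (.arc (nat_lit 20) n2414 (.arc (nat_lit 23) n2423 (.arc (nat_lit 26) n2461 (.arc (nat_lit 29) n2465 (.arc (nat_lit 32) n2446 (.arc (nat_lit 35) n2455 (.fin (nat_lit 846393497) (nat_lit 0)))))))))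
def n2821 : Nd := .arc (nat_lit 3) n2820 (.arc (nat_lit 40) n2458 (.arc (nat_lit 43) n2459 (.arc (nat_lit 46) n2460 (.fin (nat_lit 845861015) (nat_lit 0)))))
def n2822 : Nd := .arc (nat_lit 6) n2819 (.arc (nat_lit 9) n2821 (.fin (nat_lit 240791709) (nat_lit 0)))
def n2823 : Nd := .arc (nat_lit 14) n2423 (.arc (nat_lit 17) n2414 (.arc (nat_lit 20) n2429 (.arc (nat_lit 23) n2433 (.arc (nat_lit 50) n2461 (.arc (nat_lit 53) n2465 (.arc (nat_lit 56) n2455 (.arc (nat_lit 59) n2446 (.fin (nat_lit 240840861) (nat_lit 0)))))))))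
def n2824 : Nd := .arc (nat_lit 9) n2823 (.fin (nat_lit 846360729) (nat_lit 0))
def n2825 : Nd := .arc (nat_lit 6) n2820 (.arc (nat_lit 52) n2458 (.arc (nat_lit 55) n2459 (.arc (nat_lit 58) n2460 (.fin (nat_lit 240824477) (nat_lit 0)))))
def n2826 : Nd := .arc (nat_lit 3) n2824 (.arc (nat_lit 6) n2825 (.fin (nat_lit 845844631) (nat_lit 0)))
def n2827 : Nd := .arc (nat_lit 6) n2823 (.fin (nat_lit 845852823) (nat_lit 0))
def n2828 : Nd := .arc (nat_lit 9) n2818 (.fin (nat_lit 240808093) (nat_lit 0))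
def n2829 : Nd := .arc (nat_lit 3) n2827 (.arc (nat_lit 9) n2828 (.fin (nat_lit 846352537) (nat_lit 0)))
def n2830 : Nd := .arc (nat_lit 3) n2822 (.arc (nat_lit 6) n2826 (.arc (nat_lit 9) n2829 (.fin (nat_lit 238686363) (nat_lit 0))))
def n2831 : Nd := .arc (nat_lit 6) n2821 (.arc (nat_lit 9) n2819 (.fin (nat_lit 238694555) (nat_lit 0)))
def n2832 : Nd := .arc (nat_lit 14) n2414 (.arc (nat_lit 17) n2423 (.arc (nat_lit 20) n2433 (.arc (nat_lit 23) n2429 (.arc (nat_lit 62) n2461 (.arc (nat_lit 65) n2465 (.arc (nat_lit 68) n2446 (.arc (nat_lit 71) n2455 (.fin (nat_lit 238743707) (nat_lit 0)))))))))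
def n2833 : Nd := .arc (nat_lit 9) n2832 (.fin (nat_lit 845836439) (nat_lit 0))
def n2834 : Nd := .arc (nat_lit 6) n2818 (.fin (nat_lit 238727323) (nat_lit 0))
def n2835 : Nd := .arc (nat_lit 3) n2833 (.arc (nat_lit 6) n2834 (.fin (nat_lit 846368921) (nat_lit 0)))
def n2836 : Nd := .arc (nat_lit 6) n2832 (.fin (nat_lit 846377113) (nat_lit 0))
def n2837 : Nd := .arc (nat_lit 9) n2820 (.arc (nat_lit 64) n2458 (.arc (nat_lit 67) n2460 (.arc (nat_lit 70) n2459 (.fin (nat_lit 238710939) (nat_lit 0)))))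
def n2838 : Nd := .arc (nat_lit 3) n2836 (.arc (nat_lit 9) n2837 (.fin (nat_lit 845828247) (nat_lit 0)))
def n2839 : Nd := .arc (nat_lit 3) n2831 (.arc (nat_lit 6) n2835 (.arc (nat_lit 9) n2838 (.fin (nat_lit 240783517) (nat_lit 0))))
def n2840 : Nd := .arc (nat_lit 3) n2823 (.fin (nat_lit 238735515) (nat_lit 0))
def n2841 : Nd := .arc (nat_lit 3) n2832 (.fin (nat_lit 240832669) (nat_lit 0))
def n2842 : Nd := .arc (nat_lit 6) n2840 (.arc (nat_lit 9) n2841 (.fin (nat_lit 846344345) (nat_lit 0)))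
def n2843 : Nd := .arc (nat_lit 3) n2837 (.arc (nat_lit 6) n2836 (.fin (nat_lit 240816285) (nat_lit 0)))
def n2844 : Nd := .arc (nat_lit 3) n2825 (.arc (nat_lit 9) n2824 (.fin (nat_lit 238702747) (nat_lit 0)))
def n2845 : Nd := .arc (nat_lit 3) n2842 (.arc (nat_lit 6) n2843 (.arc (nat_lit 9) n2844 (.fin (nat_lit 845811863) (nat_lit 0))))
def n2846 : Nd := .arc (nat_lit 6) n2841 (.arc (nat_lit 9) n2840 (.fin (nat_lit 845820055) (nat_lit 0)))
def n2847 : Nd := .arc (nat_lit 3) n2828 (.arc (nat_lit 6) n2827 (.fin (nat_lit 238719131) (nat_lit 0)))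
def n2848 : Nd := .arc (nat_lit 3) n2834 (.arc (nat_lit 9) n2833 (.fin (nat_lit 240799901) (nat_lit 0)))
def n2849 : Nd := .arc (nat_lit 3) n2846 (.arc (nat_lit 6) n2847 (.arc (nat_lit 9) n2848 (.fin (nat_lit 846336153) (nat_lit 0))))
def n2850 : Nd := .arc (nat_lit 14) n2013 (.arc (nat_lit 17) n2017 (.arc (nat_lit 20) n1998 (.arc (nat_lit 23) n2007 (.arc (nat_lit 26) n2045 (.arc (nat_lit 29) n2049 (.arc (nat_lit 32) n2030 (.arc (nat_lit 35) n2039 (.fin (nat_lit 829616281) (nat_lit 0)))))))))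
def n2851 : Nd := .arc (nat_lit 3) n2850 (.arc (nat_lit 40) n2042 (.arc (nat_lit 43) n2043 (.arc (nat_lit 46) n2044 (.fin (nat_lit 829083799) (nat_lit 0)))))
def n2852 : Nd := .arc (nat_lit 14) n2017 (.arc (nat_lit 17) n2013 (.arc (nat_lit 20) n2007 (.arc (nat_lit 23) n1998 (.arc (nat_lit 38) n2045 (.arc (nat_lit 41) n2049 (.arc (nat_lit 44) n2039 (.arc (nat_lit 47) n2030 (.fin (nat_lit 829091991) (nat_lit 0)))))))))
def n2853 : Nd := .arc (nat_lit 3) n2852 (.fin (nat_lit 829608089) (nat_lit 0))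
def n2854 : Nd := .arc (nat_lit 6) n2851 (.arc (nat_lit 9) n2853 (.fin (nat_lit 221917339) (nat_lit 0)))
def n2855 : Nd := .arc (nat_lit 14) n1998 (.arc (nat_lit 17) n2007 (.arc (nat_lit 20) n2017 (.arc (nat_lit 23) n2013 (.arc (nat_lit 62) n2045 (.arc (nat_lit 65) n2049 (.arc (nat_lit 68) n2030 (.arc (nat_lit 71) n2039 (.fin (nat_lit 221966491) (nat_lit 0)))))))))
def n2856 : Nd := .arc (nat_lit 9) n2855 (.fin (nat_lit 829059223) (nat_lit 0))
def n2857 : Nd := .arc (nat_lit 6) n2852 (.fin (nat_lit 221950107) (nat_lit 0))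
def n2858 : Nd := .arc (nat_lit 3) n2856 (.arc (nat_lit 6) n2857 (.fin (nat_lit 829591705) (nat_lit 0)))
def n2859 : Nd := .arc (nat_lit 6) n2855 (.fin (nat_lit 829599897) (nat_lit 0))
def n2860 : Nd := .arc (nat_lit 9) n2850 (.arc (nat_lit 64) n2042 (.arc (nat_lit 67) n2044 (.arc (nat_lit 70) n2043 (.fin (nat_lit 221933723) (nat_lit 0)))))
def n2861 : Nd := .arc (nat_lit 3) n2859 (.arc (nat_lit 9) n2860 (.fin (nat_lit 829051031) (nat_lit 0)))
def n2862 : Nd := .arc (nat_lit 3) n2854 (.arc (nat_lit 6) n2858 (.arc (nat_lit 9) n2861 (.fin (nat_lit 224006301) (nat_lit 0))))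
def n2863 : Nd := .arc (nat_lit 6) n2853 (.arc (nat_lit 9) n2851 (.fin (nat_lit 224014493) (nat_lit 0)))
def n2864 : Nd := .arc (nat_lit 14) n2007 (.arc (nat_lit 17) n1998 (.arc (nat_lit 20) n2013 (.arc (nat_lit 23) n2017 (.arc (nat_lit 50) n2045 (.arc (nat_lit 53) n2049 (.arc (nat_lit 56) n2039 (.arc (nat_lit 59) n2030 (.fin (nat_lit 224063645) (nat_lit 0)))))))))
def n2865 : Nd := .arc (nat_lit 9) n2864 (.fin (nat_lit 829583513) (nat_lit 0))
def n2866 : Nd := .arc (nat_lit 6) n2850 (.arc (nat_lit 52) n2042 (.arc (nat_lit 55) n2043 (.arc (nat_lit 58) n2044 (.fin (nat_lit 224047261) (nat_lit 0)))))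
def n2867 : Nd := .arc (nat_lit 3) n2865 (.arc (nat_lit 6) n2866 (.fin (nat_lit 829067415) (nat_lit 0)))
def n2868 : Nd := .arc (nat_lit 6) n2864 (.fin (nat_lit 829075607) (nat_lit 0))
def n2869 : Nd := .arc (nat_lit 9) n2852 (.fin (nat_lit 224030877) (nat_lit 0))
def n2870 : Nd := .arc (nat_lit 3) n2868 (.arc (nat_lit 9) n2869 (.fin (nat_lit 829575321) (nat_lit 0)))
def n2871 : Nd := .arc (nat_lit 3) n2863 (.arc (nat_lit 6) n2867 (.arc (nat_lit 9) n2870 (.fin (nat_lit 221909147) (nat_lit 0))))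
def n2872 : Nd := .arc (nat_lit 3) n2864 (.fin (nat_lit 221958299) (nat_lit 0))
def n2873 : Nd := .arc (nat_lit 3) n2855 (.fin (nat_lit 224055453) (nat_lit 0))
def n2874 : Nd := .arc (nat_lit 6) n2872 (.arc (nat_lit 9) n2873 (.fin (nat_lit 829567129) (nat_lit 0)))
def n2875 : Nd := .arc (nat_lit 3) n2860 (.arc (nat_lit 6) n2859 (.fin (nat_lit 224039069) (nat_lit 0)))
def n2876 : Nd := .arc (nat_lit 3) n2866 (.arc (nat_lit 9) n2865 (.fin (nat_lit 221925531) (nat_lit 0)))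
def n2877 : Nd := .arc (nat_lit 3) n2874 (.arc (nat_lit 6) n2875 (.arc (nat_lit 9) n2876 (.fin (nat_lit 829034647) (nat_lit 0))))
def n2878 : Nd := .arc (nat_lit 6) n2873 (.arc (nat_lit 9) n2872 (.fin (nat_lit 829042839) (nat_lit 0)))
def n2879 : Nd := .arc (nat_lit 3) n2869 (.arc (nat_lit 6) n2868 (.fin (nat_lit 221941915) (nat_lit 0)))
def n2880 : Nd := .arc (nat_lit 3) n2857 (.arc (nat_lit 9) n2856 (.fin (nat_lit 224022685) (nat_lit 0)))
def n2881 : Nd := .arc (nat_lit 3) n2878 (.arc (nat_lit 6) n2879 (.arc (nat_lit 9) n2880 (.fin (nat_lit 829558937) (nat_lit 0))))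
def n2882 : Nd := .arc (nat_lit 38) n2798 (.arc (nat_lit 41) n2807 (.arc (nat_lit 44) n2813 (.arc (nat_lit 47) n2817 (.arc (nat_lit 50) n2830 (.arc (nat_lit 53) n2839 (.arc (nat_lit 56) n2845 (.arc (nat_lit 59) n2849 (.arc (nat_lit 62) n2862 (.arc (nat_lit 65) n2871 (.arc (nat_lit 68) n2877 (.arc (nat_lit 71) n2881 (.fin (nat_lit 588181655) (nat_lit 0)))))))))))))
def n2883 : Nd := .arc (nat_lit 3) n2882 (.fin (nat_lit 320262297) (nat_lit 0))
def n2884 : Nd := .arc (nat_lit 26) n2798 (.arc (nat_lit 29) n2807 (.arc (nat_lit 32) n2817 (.arc (nat_lit 35) n2813 (.arc (nat_lit 50) n2862 (.arc (nat_lit 53) n2871 (.arc (nat_lit 56) n2881 (.arc (nat_lit 59) n2877 (.arc (nat_lit 62) n2830 (.arc (nat_lit 65) n2839 (.arc (nat_lit 68) n2849 (.arc (nat_lit 71) n2845 (.fin (nat_lit 320270489) (nat_lit 0)))))))))))))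
def n2885 : Nd := .arc (nat_lit 3) n2884 (.arc (nat_lit 40) n2790 (.arc (nat_lit 43) n2794 (.arc (nat_lit 46) n2797 (.fin (nat_lit 588173463) (nat_lit 0)))))
def n2886 : Nd := .arc (nat_lit 6) n2883 (.arc (nat_lit 9) n2885 (.fin (nat_lit 189149341) (nat_lit 0)))
def n2887 : Nd := .arc (nat_lit 26) n2830 (.arc (nat_lit 29) n2839 (.arc (nat_lit 32) n2849 (.arc (nat_lit 35) n2845 (.arc (nat_lit 38) n2862 (.arc (nat_lit 41) n2871 (.arc (nat_lit 44) n2881 (.arc (nat_lit 47) n2877 (.arc (nat_lit 50) n2798 (.arc (nat_lit 53) n2807 (.arc (nat_lit 56) n2813 (.arc (nat_lit 59) n2817 (.fin (nat_lit 189198493) (nat_lit 0)))))))))))))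
def n2888 : Nd := .arc (nat_lit 9) n2887 (.arc (nat_lit 64) n2822 (.arc (nat_lit 67) n2829 (.arc (nat_lit 70) n2826 (.fin (nat_lit 320237721) (nat_lit 0)))))
def n2889 : Nd := .arc (nat_lit 6) n2884 (.arc (nat_lit 52) n2790 (.arc (nat_lit 55) n2794 (.arc (nat_lit 58) n2797 (.fin (nat_lit 189182109) (nat_lit 0)))))
def n2890 : Nd := .arc (nat_lit 3) n2888 (.arc (nat_lit 6) n2889 (.fin (nat_lit 588157079) (nat_lit 0)))
def n2891 : Nd := .arc (nat_lit 6) n2887 (.arc (nat_lit 52) n2822 (.arc (nat_lit 55) n2826 (.arc (nat_lit 58) n2829 (.fin (nat_lit 588165271) (nat_lit 0)))))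
def n2892 : Nd := .arc (nat_lit 9) n2882 (.fin (nat_lit 189165725) (nat_lit 0))
def n2893 : Nd := .arc (nat_lit 3) n2891 (.arc (nat_lit 9) n2892 (.fin (nat_lit 320229529) (nat_lit 0)))
def n2894 : Nd := .arc (nat_lit 3) n2886 (.arc (nat_lit 6) n2890 (.arc (nat_lit 9) n2893 (.fin (nat_lit 119935131) (nat_lit 0))))
def n2895 : Nd := .arc (nat_lit 6) n2885 (.arc (nat_lit 9) n2883 (.fin (nat_lit 119943323) (nat_lit 0)))
def n2896 : Nd := .arc (nat_lit 26) n2862 (.arc (nat_lit 29) n2871 (.arc (nat_lit 32) n2877 (.arc (nat_lit 35) n2881 (.arc (nat_lit 38) n2830 (.arc (nat_lit 41) n2839 (.arc (nat_lit 44) n2845 (.arc (nat_lit 47) n2849 (.arc (nat_lit 62) n2798 (.arc (nat_lit 65) n2807 (.arc (nat_lit 68) n2817 (.arc (nat_lit 71) n2813 (.fin (nat_lit 119992475) (nat_lit 0)))))))))))))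
def n2897 : Nd := .arc (nat_lit 9) n2896 (.arc (nat_lit 64) n2854 (.arc (nat_lit 67) n2861 (.arc (nat_lit 70) n2858 (.fin (nat_lit 588148887) (nat_lit 0)))))
def n2898 : Nd := .arc (nat_lit 6) n2882 (.fin (nat_lit 119976091) (nat_lit 0))
def n2899 : Nd := .arc (nat_lit 3) n2897 (.arc (nat_lit 6) n2898 (.fin (nat_lit 320245913) (nat_lit 0)))
def n2900 : Nd := .arc (nat_lit 6) n2896 (.arc (nat_lit 52) n2854 (.arc (nat_lit 55) n2858 (.arc (nat_lit 58) n2861 (.fin (nat_lit 320254105) (nat_lit 0)))))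
def n2901 : Nd := .arc (nat_lit 9) n2884 (.arc (nat_lit 64) n2790 (.arc (nat_lit 67) n2797 (.arc (nat_lit 70) n2794 (.fin (nat_lit 119959707) (nat_lit 0)))))
def n2902 : Nd := .arc (nat_lit 3) n2900 (.arc (nat_lit 9) n2901 (.fin (nat_lit 588140695) (nat_lit 0)))
def n2903 : Nd := .arc (nat_lit 3) n2895 (.arc (nat_lit 6) n2899 (.arc (nat_lit 9) n2902 (.fin (nat_lit 189141149) (nat_lit 0))))
def n2904 : Nd := .arc (nat_lit 3) n2896 (.arc (nat_lit 40) n2854 (.arc (nat_lit 43) n2858 (.arc (nat_lit 46) n2861 (.fin (nat_lit 189190301) (nat_lit 0)))))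
def n2905 : Nd := .arc (nat_lit 3) n2887 (.arc (nat_lit 40) n2822 (.arc (nat_lit 43) n2826 (.arc (nat_lit 46) n2829 (.fin (nat_lit 119984283) (nat_lit 0)))))
def n2906 : Nd := .arc (nat_lit 6) n2904 (.arc (nat_lit 9) n2905 (.fin (nat_lit 588132503) (nat_lit 0)))
def n2907 : Nd := .arc (nat_lit 3) n2892 (.arc (nat_lit 6) n2891 (.fin (nat_lit 119967899) (nat_lit 0)))
def n2908 : Nd := .arc (nat_lit 3) n2898 (.arc (nat_lit 9) n2897 (.fin (nat_lit 189157533) (nat_lit 0)))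
def n2909 : Nd := .arc (nat_lit 3) n2906 (.arc (nat_lit 6) n2907 (.arc (nat_lit 9) n2908 (.fin (nat_lit 320213145) (nat_lit 0))))
def n2910 : Nd := .arc (nat_lit 6) n2905 (.arc (nat_lit 9) n2904 (.fin (nat_lit 320221337) (nat_lit 0)))
def n2911 : Nd := .arc (nat_lit 3) n2901 (.arc (nat_lit 6) n2900 (.fin (nat_lit 189173917) (nat_lit 0)))
def n2912 : Nd := .arc (nat_lit 3) n2889 (.arc (nat_lit 9) n2888 (.fin (nat_lit 119951515) (nat_lit 0)))
def n2913 : Nd := .arc (nat_lit 3) n2910 (.arc (nat_lit 6) n2911 (.arc (nat_lit 9) n2912 (.fin (nat_lit 588124311) (nat_lit 0))))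
def n2914 : Nd := .arc (nat_lit 14) n2273 (.arc (nat_lit 17) n2269 (.arc (nat_lit 20) n2263 (.arc (nat_lit 23) n2254 (.arc (nat_lit 38) n2241 (.arc (nat_lit 41) n2237 (.arc (nat_lit 44) n2231 (.arc (nat_lit 47) n2222 (.arc (nat_lit 50) n2209 (.arc (nat_lit 53) n2205 (.arc (nat_lit 56) n2199 (.arc (nat_lit 59) n2190 (.fin (nat_lit 826994839) (nat_lit 0)))))))))))))
def n2915 : Nd := .arc (nat_lit 3) n2914 (.fin (nat_lit 825413785) (nat_lit 0))
def n2916 : Nd := .arc (nat_lit 14) n2269 (.arc (nat_lit 17) n2273 (.arc (nat_lit 20) n2254 (.arc (nat_lit 23) n2263 (.arc (nat_lit 26) n2241 (.arc (nat_lit 29) n2237 (.arc (nat_lit 32) n2222 (.arc (nat_lit 35) n2231 (.arc (nat_lit 62) n2209 (.arc (nat_lit 65) n2205 (.arc (nat_lit 68) n2190 (.arc (nat_lit 71) n2199 (.fin (nat_lit 825421977) (nat_lit 0)))))))))))))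
def n2917 : Nd := .arc (nat_lit 3) n2916 (.arc (nat_lit 40) n2238 (.arc (nat_lit 43) n2239 (.arc (nat_lit 46) n2240 (.fin (nat_lit 826986647) (nat_lit 0)))))
def n2918 : Nd := .arc (nat_lit 6) n2915 (.arc (nat_lit 9) n2917 (.fin (nat_lit 223490205) (nat_lit 0)))
def n2919 : Nd := .arc (nat_lit 14) n2263 (.arc (nat_lit 17) n2254 (.arc (nat_lit 20) n2269 (.arc (nat_lit 23) n2273 (.arc (nat_lit 26) n2209 (.arc (nat_lit 29) n2205 (.arc (nat_lit 32) n2190 (.arc (nat_lit 35) n2199 (.arc (nat_lit 50) n2241 (.arc (nat_lit 53) n2237 (.arc (nat_lit 56) n2231 (.arc (nat_lit 59) n2222 (.fin (nat_lit 223539357) (nat_lit 0)))))))))))))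
def n2920 : Nd := .arc (nat_lit 9) n2919 (.arc (nat_lit 64) n2206 (.arc (nat_lit 67) n2208 (.arc (nat_lit 70) n2207 (.fin (nat_lit 825389209) (nat_lit 0)))))
def n2921 : Nd := .arc (nat_lit 6) n2916 (.arc (nat_lit 52) n2238 (.arc (nat_lit 55) n2239 (.arc (nat_lit 58) n2240 (.fin (nat_lit 223522973) (nat_lit 0)))))
def n2922 : Nd := .arc (nat_lit 3) n2920 (.arc (nat_lit 6) n2921 (.fin (nat_lit 826970263) (nat_lit 0)))
def n2923 : Nd := .arc (nat_lit 6) n2919 (.arc (nat_lit 52) n2206 (.arc (nat_lit 55) n2207 (.arc (nat_lit 58) n2208 (.fin (nat_lit 826978455) (nat_lit 0)))))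
def n2924 : Nd := .arc (nat_lit 9) n2914 (.fin (nat_lit 223506589) (nat_lit 0))
def n2925 : Nd := .arc (nat_lit 3) n2923 (.arc (nat_lit 9) n2924 (.fin (nat_lit 825381017) (nat_lit 0)))
def n2926 : Nd := .arc (nat_lit 3) n2918 (.arc (nat_lit 6) n2922 (.arc (nat_lit 9) n2925 (.fin (nat_lit 220860571) (nat_lit 0))))
def n2927 : Nd := .arc (nat_lit 6) n2917 (.arc (nat_lit 9) n2915 (.fin (nat_lit 220868763) (nat_lit 0)))
def n2928 : Nd := .arc (nat_lit 14) n2254 (.arc (nat_lit 17) n2263 (.arc (nat_lit 20) n2273 (.arc (nat_lit 23) n2269 (.arc (nat_lit 38) n2209 (.arc (nat_lit 41) n2205 (.arc (nat_lit 44) n2199 (.arc (nat_lit 47) n2190 (.arc (nat_lit 62) n2241 (.arc (nat_lit 65) n2237 (.arc (nat_lit 68) n2222 (.arc (nat_lit 71) n2231 (.fin (nat_lit 220917915) (nat_lit 0)))))))))))))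
def n2929 : Nd := .arc (nat_lit 9) n2928 (.fin (nat_lit 826962071) (nat_lit 0))
def n2930 : Nd := .arc (nat_lit 6) n2914 (.fin (nat_lit 220901531) (nat_lit 0))
def n2931 : Nd := .arc (nat_lit 3) n2929 (.arc (nat_lit 6) n2930 (.fin (nat_lit 825397401) (nat_lit 0)))
def n2932 : Nd := .arc (nat_lit 6) n2928 (.fin (nat_lit 825405593) (nat_lit 0))
def n2933 : Nd := .arc (nat_lit 9) n2916 (.arc (nat_lit 64) n2238 (.arc (nat_lit 67) n2240 (.arc (nat_lit 70) n2239 (.fin (nat_lit 220885147) (nat_lit 0)))))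
def n2934 : Nd := .arc (nat_lit 3) n2932 (.arc (nat_lit 9) n2933 (.fin (nat_lit 826953879) (nat_lit 0)))
def n2935 : Nd := .arc (nat_lit 3) n2927 (.arc (nat_lit 6) n2931 (.arc (nat_lit 9) n2934 (.fin (nat_lit 223482013) (nat_lit 0))))
def n2936 : Nd := .arc (nat_lit 3) n2928 (.fin (nat_lit 223531165) (nat_lit 0))
def n2937 : Nd := .arc (nat_lit 3) n2919 (.arc (nat_lit 40) n2206 (.arc (nat_lit 43) n2207 (.arc (nat_lit 46) n2208 (.fin (nat_lit 220909723) (nat_lit 0)))))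
def n2938 : Nd := .arc (nat_lit 6) n2936 (.arc (nat_lit 9) n2937 (.fin (nat_lit 826945687) (nat_lit 0)))
def n2939 : Nd := .arc (nat_lit 3) n2924 (.arc (nat_lit 6) n2923 (.fin (nat_lit 220893339) (nat_lit 0)))
def n2940 : Nd := .arc (nat_lit 3) n2930 (.arc (nat_lit 9) n2929 (.fin (nat_lit 223498397) (nat_lit 0)))
def n2941 : Nd := .arc (nat_lit 3) n2938 (.arc (nat_lit 6) n2939 (.arc (nat_lit 9) n2940 (.fin (nat_lit 825364633) (nat_lit 0))))
def n2942 : Nd := .arc (nat_lit 6) n2937 (.arc (nat_lit 9) n2936 (.fin (nat_lit 825372825) (nat_lit 0)))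
def n2943 : Nd := .arc (nat_lit 3) n2933 (.arc (nat_lit 6) n2932 (.fin (nat_lit 223514781) (nat_lit 0)))
def n2944 : Nd := .arc (nat_lit 3) n2921 (.arc (nat_lit 9) n2920 (.fin (nat_lit 220876955) (nat_lit 0)))
def n2945 : Nd := .arc (nat_lit 3) n2942 (.arc (nat_lit 6) n2943 (.arc (nat_lit 9) n2944 (.fin (nat_lit 826937495) (nat_lit 0))))
def n2946 : Nd := .arc (nat_lit 14) n2561 (.arc (nat_lit 17) n2557 (.arc (nat_lit 20) n2551 (.arc (nat_lit 23) n2542 (.arc (nat_lit 26) n2529 (.arc (nat_lit 29) n2525 (.arc (nat_lit 32) n2519 (.arc (nat_lit 35) n2510 (.arc (nat_lit 50) n2497 (.arc (nat_lit 53) n2493 (.arc (nat_lit 56) n2487 (.arc (nat_lit 59) n2478 (.fin (nat_lit 844296345) (nat_lit 0)))))))))))))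
def n2947 : Nd := .arc (nat_lit 3) n2946 (.arc (nat_lit 40) n2526 (.arc (nat_lit 43) n2527 (.arc (nat_lit 46) n2528 (.fin (nat_lit 841666711) (nat_lit 0)))))
def n2948 : Nd := .arc (nat_lit 14) n2557 (.arc (nat_lit 17) n2561 (.arc (nat_lit 20) n2542 (.arc (nat_lit 23) n2551 (.arc (nat_lit 38) n2529 (.arc (nat_lit 41) n2525 (.arc (nat_lit 44) n2510 (.arc (nat_lit 47) n2519 (.arc (nat_lit 62) n2497 (.arc (nat_lit 65) n2493 (.arc (nat_lit 68) n2478 (.arc (nat_lit 71) n2487 (.fin (nat_lit 841674903) (nat_lit 0)))))))))))))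
def n2949 : Nd := .arc (nat_lit 3) n2948 (.fin (nat_lit 844288153) (nat_lit 0))
def n2950 : Nd := .arc (nat_lit 6) n2947 (.arc (nat_lit 9) n2949 (.fin (nat_lit 238170267) (nat_lit 0)))
def n2951 : Nd := .arc (nat_lit 14) n2551 (.arc (nat_lit 17) n2542 (.arc (nat_lit 20) n2557 (.arc (nat_lit 23) n2561 (.arc (nat_lit 26) n2497 (.arc (nat_lit 29) n2493 (.arc (nat_lit 32) n2478 (.arc (nat_lit 35) n2487 (.arc (nat_lit 62) n2529 (.arc (nat_lit 65) n2525 (.arc (nat_lit 68) n2519 (.arc (nat_lit 71) n2510 (.fin (nat_lit 238219419) (nat_lit 0)))))))))))))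
def n2952 : Nd := .arc (nat_lit 9) n2951 (.arc (nat_lit 64) n2494 (.arc (nat_lit 67) n2496 (.arc (nat_lit 70) n2495 (.fin (nat_lit 841642135) (nat_lit 0)))))
def n2953 : Nd := .arc (nat_lit 6) n2948 (.fin (nat_lit 238203035) (nat_lit 0))
def n2954 : Nd := .arc (nat_lit 3) n2952 (.arc (nat_lit 6) n2953 (.fin (nat_lit 844271769) (nat_lit 0)))
def n2955 : Nd := .arc (nat_lit 6) n2951 (.arc (nat_lit 52) n2494 (.arc (nat_lit 55) n2495 (.arc (nat_lit 58) n2496 (.fin (nat_lit 844279961) (nat_lit 0)))))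
def n2956 : Nd := .arc (nat_lit 9) n2946 (.arc (nat_lit 64) n2526 (.arc (nat_lit 67) n2528 (.arc (nat_lit 70) n2527 (.fin (nat_lit 238186651) (nat_lit 0)))))
def n2957 : Nd := .arc (nat_lit 3) n2955 (.arc (nat_lit 9) n2956 (.fin (nat_lit 841633943) (nat_lit 0)))
def n2958 : Nd := .arc (nat_lit 3) n2950 (.arc (nat_lit 6) n2954 (.arc (nat_lit 9) n2957 (.fin (nat_lit 239734941) (nat_lit 0))))
def n2959 : Nd := .arc (nat_lit 6) n2949 (.arc (nat_lit 9) n2947 (.fin (nat_lit 239743133) (nat_lit 0)))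
def n2960 : Nd := .arc (nat_lit 14) n2542 (.arc (nat_lit 17) n2551 (.arc (nat_lit 20) n2561 (.arc (nat_lit 23) n2557 (.arc (nat_lit 38) n2497 (.arc (nat_lit 41) n2493 (.arc (nat_lit 44) n2487 (.arc (nat_lit 47) n2478 (.arc (nat_lit 50) n2529 (.arc (nat_lit 53) n2525 (.arc (nat_lit 56) n2510 (.arc (nat_lit 59) n2519 (.fin (nat_lit 239792285) (nat_lit 0)))))))))))))
def n2961 : Nd := .arc (nat_lit 9) n2960 (.fin (nat_lit 844263577) (nat_lit 0))
def n2962 : Nd := .arc (nat_lit 6) n2946 (.arc (nat_lit 52) n2526 (.arc (nat_lit 55) n2527 (.arc (nat_lit 58) n2528 (.fin (nat_lit 239775901) (nat_lit 0)))))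
def n2963 : Nd := .arc (nat_lit 3) n2961 (.arc (nat_lit 6) n2962 (.fin (nat_lit 841650327) (nat_lit 0)))
def n2964 : Nd := .arc (nat_lit 6) n2960 (.fin (nat_lit 841658519) (nat_lit 0))
def n2965 : Nd := .arc (nat_lit 9) n2948 (.fin (nat_lit 239759517) (nat_lit 0))
def n2966 : Nd := .arc (nat_lit 3) n2964 (.arc (nat_lit 9) n2965 (.fin (nat_lit 844255385) (nat_lit 0)))
def n2967 : Nd := .arc (nat_lit 3) n2959 (.arc (nat_lit 6) n2963 (.arc (nat_lit 9) n2966 (.fin (nat_lit 238162075) (nat_lit 0))))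
def n2968 : Nd := .arc (nat_lit 3) n2951 (.arc (nat_lit 40) n2494 (.arc (nat_lit 43) n2495 (.arc (nat_lit 46) n2496 (.fin (nat_lit 239784093) (nat_lit 0)))))
def n2969 : Nd := .arc (nat_lit 3) n2960 (.fin (nat_lit 238211227) (nat_lit 0))
def n2970 : Nd := .arc (nat_lit 6) n2968 (.arc (nat_lit 9) n2969 (.fin (nat_lit 841625751) (nat_lit 0)))
def n2971 : Nd := .arc (nat_lit 3) n2965 (.arc (nat_lit 6) n2964 (.fin (nat_lit 238194843) (nat_lit 0)))
def n2972 : Nd := .arc (nat_lit 3) n2953 (.arc (nat_lit 9) n2952 (.fin (nat_lit 239751325) (nat_lit 0)))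
def n2973 : Nd := .arc (nat_lit 3) n2970 (.arc (nat_lit 6) n2971 (.arc (nat_lit 9) n2972 (.fin (nat_lit 844239001) (nat_lit 0))))
def n2974 : Nd := .arc (nat_lit 6) n2969 (.arc (nat_lit 9) n2968 (.fin (nat_lit 844247193) (nat_lit 0)))
def n2975 : Nd := .arc (nat_lit 3) n2956 (.arc (nat_lit 6) n2955 (.fin (nat_lit 239767709) (nat_lit 0)))
def n2976 : Nd := .arc (nat_lit 3) n2962 (.arc (nat_lit 9) n2961 (.fin (nat_lit 238178459) (nat_lit 0)))
def n2977 : Nd := .arc (nat_lit 3) n2974 (.arc (nat_lit 6) n2975 (.arc (nat_lit 9) n2976 (.fin (nat_lit 841617559) (nat_lit 0))))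
def n2978 : Nd := .arc (nat_lit 26) n1313 (.arc (nat_lit 29) n1309 (.arc (nat_lit 32) n1303 (.arc (nat_lit 35) n1294 (.arc (nat_lit 38) n1217 (.arc (nat_lit 41) n1213 (.arc (nat_lit 44) n1207 (.arc (nat_lit 47) n1198 (.arc (nat_lit 50) n1089 (.arc (nat_lit 53) n1085 (.arc (nat_lit 56) n1079 (.arc (nat_lit 59) n1070 (.fin (nat_lit 877064341) (nat_lit 0)))))))))))))
def n2979 : Nd := .arc (nat_lit 3) n2978 (.arc (nat_lit 40) n1310 (.arc (nat_lit 43) n1311 (.arc (nat_lit 46) n1312 (.fin (nat_lit 942067861) (nat_lit 0)))))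
def n2980 : Nd := .arc (nat_lit 26) n1217 (.arc (nat_lit 29) n1213 (.arc (nat_lit 32) n1198 (.arc (nat_lit 35) n1207 (.arc (nat_lit 38) n1313 (.arc (nat_lit 41) n1309 (.arc (nat_lit 44) n1294 (.arc (nat_lit 47) n1303 (.arc (nat_lit 62) n1089 (.arc (nat_lit 65) n1085 (.arc (nat_lit 68) n1070 (.arc (nat_lit 71) n1079 (.fin (nat_lit 942076053) (nat_lit 0)))))))))))))
def n2981 : Nd := .arc (nat_lit 3) n2980 (.arc (nat_lit 40) n1214 (.arc (nat_lit 43) n1215 (.arc (nat_lit 46) n1216 (.fin (nat_lit 877056149) (nat_lit 0)))))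
def n2982 : Nd := .arc (nat_lit 6) n2979 (.arc (nat_lit 9) n2981 (.fin (nat_lit 739651733) (nat_lit 0)))
def n2983 : Nd := .arc (nat_lit 26) n1089 (.arc (nat_lit 29) n1085 (.arc (nat_lit 32) n1070 (.arc (nat_lit 35) n1079 (.arc (nat_lit 50) n1217 (.arc (nat_lit 53) n1213 (.arc (nat_lit 56) n1207 (.arc (nat_lit 59) n1198 (.arc (nat_lit 62) n1313 (.arc (nat_lit 65) n1309 (.arc (nat_lit 68) n1303 (.arc (nat_lit 71) n1294 (.fin (nat_lit 739700885) (nat_lit 0)))))))))))))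
def n2984 : Nd := .arc (nat_lit 9) n2983 (.arc (nat_lit 64) n1086 (.arc (nat_lit 67) n1088 (.arc (nat_lit 70) n1087 (.fin (nat_lit 942043285) (nat_lit 0)))))
def n2985 : Nd := .arc (nat_lit 6) n2980 (.arc (nat_lit 52) n1214 (.arc (nat_lit 55) n1215 (.arc (nat_lit 58) n1216 (.fin (nat_lit 739684501) (nat_lit 0)))))
def n2986 : Nd := .arc (nat_lit 3) n2984 (.arc (nat_lit 6) n2985 (.fin (nat_lit 877039765) (nat_lit 0)))
def n2987 : Nd := .arc (nat_lit 6) n2983 (.arc (nat_lit 52) n1086 (.arc (nat_lit 55) n1087 (.arc (nat_lit 58) n1088 (.fin (nat_lit 877047957) (nat_lit 0)))))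
def n2988 : Nd := .arc (nat_lit 9) n2978 (.arc (nat_lit 64) n1310 (.arc (nat_lit 67) n1312 (.arc (nat_lit 70) n1311 (.fin (nat_lit 739668117) (nat_lit 0)))))
def n2989 : Nd := .arc (nat_lit 3) n2987 (.arc (nat_lit 9) n2988 (.fin (nat_lit 942035093) (nat_lit 0)))
def n2990 : Nd := .arc (nat_lit 3) n2982 (.arc (nat_lit 6) n2986 (.arc (nat_lit 9) n2989 (.fin (nat_lit 470683797) (nat_lit 0))))
def n2991 : Nd := .arc (nat_lit 6) n2981 (.arc (nat_lit 9) n2979 (.fin (nat_lit 470691989) (nat_lit 0)))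
def n2992 : Nd := .arc (nat_lit 38) n1089 (.arc (nat_lit 41) n1085 (.arc (nat_lit 44) n1079 (.arc (nat_lit 47) n1070 (.arc (nat_lit 50) n1313 (.arc (nat_lit 53) n1309 (.arc (nat_lit 56) n1294 (.arc (nat_lit 59) n1303 (.arc (nat_lit 62) n1217 (.arc (nat_lit 65) n1213 (.arc (nat_lit 68) n1198 (.arc (nat_lit 71) n1207 (.fin (nat_lit 470741141) (nat_lit 0)))))))))))))
def n2993 : Nd := .arc (nat_lit 9) n2992 (.fin (nat_lit 877031573) (nat_lit 0))
def n2994 : Nd := .arc (nat_lit 6) n2978 (.arc (nat_lit 52) n1310 (.arc (nat_lit 55) n1311 (.arc (nat_lit 58) n1312 (.fin (nat_lit 470724757) (nat_lit 0)))))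
def n2995 : Nd := .arc (nat_lit 3) n2993 (.arc (nat_lit 6) n2994 (.fin (nat_lit 942051477) (nat_lit 0)))
def n2996 : Nd := .arc (nat_lit 6) n2992 (.fin (nat_lit 942059669) (nat_lit 0))
def n2997 : Nd := .arc (nat_lit 9) n2980 (.arc (nat_lit 64) n1214 (.arc (nat_lit 67) n1216 (.arc (nat_lit 70) n1215 (.fin (nat_lit 470708373) (nat_lit 0)))))
def n2998 : Nd := .arc (nat_lit 3) n2996 (.arc (nat_lit 9) n2997 (.fin (nat_lit 877023381) (nat_lit 0)))
def n2999 : Nd := .arc (nat_lit 3) n2991 (.arc (nat_lit 6) n2995 (.arc (nat_lit 9) n2998 (.fin (nat_lit 739643541) (nat_lit 0))))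
def n3000 : Nd := .arc (nat_lit 3) n2983 (.arc (nat_lit 40) n1086 (.arc (nat_lit 43) n1087 (.arc (nat_lit 46) n1088 (.fin (nat_lit 470732949) (nat_lit 0)))))
def n3001 : Nd := .arc (nat_lit 3) n2992 (.fin (nat_lit 739692693) (nat_lit 0))
def n3002 : Nd := .arc (nat_lit 6) n3000 (.arc (nat_lit 9) n3001 (.fin (nat_lit 942026901) (nat_lit 0)))
def n3003 : Nd := .arc (nat_lit 3) n2997 (.arc (nat_lit 6) n2996 (.fin (nat_lit 739676309) (nat_lit 0)))
def n3004 : Nd := .arc (nat_lit 3) n2985 (.arc (nat_lit 9) n2984 (.fin (nat_lit 470700181) (nat_lit 0)))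
def n3005 : Nd := .arc (nat_lit 3) n3002 (.arc (nat_lit 6) n3003 (.arc (nat_lit 9) n3004 (.fin (nat_lit 877006997) (nat_lit 0))))
def n3006 : Nd := .arc (nat_lit 6) n3001 (.arc (nat_lit 9) n3000 (.fin (nat_lit 877015189) (nat_lit 0)))
def n3007 : Nd := .arc (nat_lit 3) n2988 (.arc (nat_lit 6) n2987 (.fin (nat_lit 470716565) (nat_lit 0)))
def n3008 : Nd := .arc (nat_lit 3) n2994 (.arc (nat_lit 9) n2993 (.fin (nat_lit 739659925) (nat_lit 0)))
def n3009 : Nd := .arc (nat_lit 3) n3006 (.arc (nat_lit 6) n3007 (.arc (nat_lit 9) n3008 (.fin (nat_lit 942018709) (nat_lit 0))))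
def n3010 : Nd := .arc (nat_lit 14) n2894 (.arc (nat_lit 17) n2903 (.arc (nat_lit 20) n2909 (.arc (nat_lit 23) n2913 (.arc (nat_lit 26) n2926 (.arc (nat_lit 29) n2935 (.arc (nat_lit 32) n2941 (.arc (nat_lit 35) n2945 (.arc (nat_lit 38) n2958 (.arc (nat_lit 41) n2967 (.arc (nat_lit 44) n2973 (.arc (nat_lit 47) n2977 (.arc (nat_lit 50) n2990 (.arc (nat_lit 53) n2999 (.arc (nat_lit 56) n3005 (.arc (nat_lit 59) n3009 (.fin (nat_lit 121827485) (nat_lit 0)))))))))))))))))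
def n3011 : Nd := .arc (nat_lit 3) n3010 (.arc (nat_lit 40) n2918 (.arc (nat_lit 43) n2922 (.arc (nat_lit 46) n2925 (.fin (nat_lit 186831003) (nat_lit 0)))))
def n3012 : Nd := .arc (nat_lit 14) n2903 (.arc (nat_lit 17) n2894 (.arc (nat_lit 20) n2913 (.arc (nat_lit 23) n2909 (.arc (nat_lit 26) n2958 (.arc (nat_lit 29) n2967 (.arc (nat_lit 32) n2977 (.arc (nat_lit 35) n2973 (.arc (nat_lit 38) n2926 (.arc (nat_lit 41) n2935 (.arc (nat_lit 44) n2945 (.arc (nat_lit 47) n2941 (.arc (nat_lit 62) n2990 (.arc (nat_lit 65) n2999 (.arc (nat_lit 68) n3009 (.arc (nat_lit 71) n3005 (.fin (nat_lit 186839195) (nat_lit 0)))))))))))))))))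
def n3013 : Nd := .arc (nat_lit 3) n3012 (.arc (nat_lit 40) n2950 (.arc (nat_lit 43) n2954 (.arc (nat_lit 46) n2957 (.fin (nat_lit 121819293) (nat_lit 0)))))
def n3014 : Nd := .arc (nat_lit 6) n3011 (.arc (nat_lit 9) n3013 (.fin (nat_lit 588394649) (nat_lit 0)))
def n3015 : Nd := .arc (nat_lit 14) n2909 (.arc (nat_lit 17) n2913 (.arc (nat_lit 20) n2903 (.arc (nat_lit 23) n2894 (.arc (nat_lit 26) n2990 (.arc (nat_lit 29) n2999 (.arc (nat_lit 32) n3009 (.arc (nat_lit 35) n3005 (.arc (nat_lit 50) n2958 (.arc (nat_lit 53) n2967 (.arc (nat_lit 56) n2973 (.arc (nat_lit 59) n2977 (.arc (nat_lit 62) n2926 (.arc (nat_lit 65) n2935 (.arc (nat_lit 68) n2941 (.arc (nat_lit 71) n2945 (.fin (nat_lit 588443801) (nat_lit 0)))))))))))))))))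
def n3016 : Nd := .arc (nat_lit 9) n3015 (.arc (nat_lit 64) n2982 (.arc (nat_lit 67) n2989 (.arc (nat_lit 70) n2986 (.fin (nat_lit 186806427) (nat_lit 0)))))
def n3017 : Nd := .arc (nat_lit 6) n3012 (.arc (nat_lit 52) n2950 (.arc (nat_lit 55) n2954 (.arc (nat_lit 58) n2957 (.fin (nat_lit 588427417) (nat_lit 0)))))
def n3018 : Nd := .arc (nat_lit 3) n3016 (.arc (nat_lit 6) n3017 (.fin (nat_lit 121802909) (nat_lit 0)))
def n3019 : Nd := .arc (nat_lit 6) n3015 (.arc (nat_lit 52) n2982 (.arc (nat_lit 55) n2986 (.arc (nat_lit 58) n2989 (.fin (nat_lit 121811101) (nat_lit 0)))))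
def n3020 : Nd := .arc (nat_lit 9) n3010 (.arc (nat_lit 64) n2918 (.arc (nat_lit 67) n2925 (.arc (nat_lit 70) n2922 (.fin (nat_lit 588411033) (nat_lit 0)))))
def n3021 : Nd := .arc (nat_lit 3) n3019 (.arc (nat_lit 9) n3020 (.fin (nat_lit 186798235) (nat_lit 0)))
def n3022 : Nd := .arc (nat_lit 3) n3014 (.arc (nat_lit 6) n3018 (.arc (nat_lit 9) n3021 (.fin (nat_lit 319426711) (nat_lit 0))))
def n3023 : Nd := .arc (nat_lit 6) n3013 (.arc (nat_lit 9) n3011 (.fin (nat_lit 319434903) (nat_lit 0)))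
def n3024 : Nd := .arc (nat_lit 14) n2913 (.arc (nat_lit 17) n2909 (.arc (nat_lit 20) n2894 (.arc (nat_lit 23) n2903 (.arc (nat_lit 38) n2990 (.arc (nat_lit 41) n2999 (.arc (nat_lit 44) n3005 (.arc (nat_lit 47) n3009 (.arc (nat_lit 50) n2926 (.arc (nat_lit 53) n2935 (.arc (nat_lit 56) n2945 (.arc (nat_lit 59) n2941 (.arc (nat_lit 62) n2958 (.arc (nat_lit 65) n2967 (.arc (nat_lit 68) n2977 (.arc (nat_lit 71) n2973 (.fin (nat_lit 319484055) (nat_lit 0)))))))))))))))))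
def n3025 : Nd := .arc (nat_lit 9) n3024 (.fin (nat_lit 121794717) (nat_lit 0))
def n3026 : Nd := .arc (nat_lit 6) n3010 (.arc (nat_lit 52) n2918 (.arc (nat_lit 55) n2922 (.arc (nat_lit 58) n2925 (.fin (nat_lit 319467671) (nat_lit 0)))))
def n3027 : Nd := .arc (nat_lit 3) n3025 (.arc (nat_lit 6) n3026 (.fin (nat_lit 186814619) (nat_lit 0)))
def n3028 : Nd := .arc (nat_lit 6) n3024 (.fin (nat_lit 186822811) (nat_lit 0))
def n3029 : Nd := .arc (nat_lit 9) n3012 (.arc (nat_lit 64) n2950 (.arc (nat_lit 67) n2957 (.arc (nat_lit 70) n2954 (.fin (nat_lit 319451287) (nat_lit 0)))))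
def n3030 : Nd := .arc (nat_lit 3) n3028 (.arc (nat_lit 9) n3029 (.fin (nat_lit 121786525) (nat_lit 0)))
def n3031 : Nd := .arc (nat_lit 3) n3023 (.arc (nat_lit 6) n3027 (.arc (nat_lit 9) n3030 (.fin (nat_lit 588386457) (nat_lit 0))))
def n3032 : Nd := .arc (nat_lit 3) n3015 (.arc (nat_lit 40) n2982 (.arc (nat_lit 43) n2986 (.arc (nat_lit 46) n2989 (.fin (nat_lit 319475863) (nat_lit 0)))))
def n3033 : Nd := .arc (nat_lit 3) n3024 (.fin (nat_lit 588435609) (nat_lit 0))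
def n3034 : Nd := .arc (nat_lit 6) n3032 (.arc (nat_lit 9) n3033 (.fin (nat_lit 186790043) (nat_lit 0)))
def n3035 : Nd := .arc (nat_lit 3) n3029 (.arc (nat_lit 6) n3028 (.fin (nat_lit 588419225) (nat_lit 0)))
def n3036 : Nd := .arc (nat_lit 3) n3017 (.arc (nat_lit 9) n3016 (.fin (nat_lit 319443095) (nat_lit 0)))
def n3037 : Nd := .arc (nat_lit 3) n3034 (.arc (nat_lit 6) n3035 (.arc (nat_lit 9) n3036 (.fin (nat_lit 121770141) (nat_lit 0))))
def n3038 : Nd := .arc (nat_lit 6) n3033 (.arc (nat_lit 9) n3032 (.fin (nat_lit 121778333) (nat_lit 0)))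
def n3039 : Nd := .arc (nat_lit 3) n3020 (.arc (nat_lit 6) n3019 (.fin (nat_lit 319459479) (nat_lit 0)))
def n3040 : Nd := .arc (nat_lit 3) n3026 (.arc (nat_lit 9) n3025 (.fin (nat_lit 588402841) (nat_lit 0)))
def n3041 : Nd := .arc (nat_lit 3) n3038 (.arc (nat_lit 6) n3039 (.arc (nat_lit 9) n3040 (.fin (nat_lit 186781851) (nat_lit 0))))
def n3042 : Nd := .arc (nat_lit 38) n2807 (.arc (nat_lit 41) n2798 (.arc (nat_lit 44) n2817 (.arc (nat_lit 47) n2813 (.arc (nat_lit 50) n2871 (.arc (nat_lit 53) n2862 (.arc (nat_lit 56) n2877 (.arc (nat_lit 59) n2881 (.arc (nat_lit 62) n2839 (.arc (nat_lit 65) n2830 (.arc (nat_lit 68) n2845 (.arc (nat_lit 71) n2849 (.fin (nat_lit 319746199) (nat_lit 0)))))))))))))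
def n3043 : Nd := .arc (nat_lit 3) n3042 (.fin (nat_lit 588697753) (nat_lit 0))
def n3044 : Nd := .arc (nat_lit 26) n2807 (.arc (nat_lit 29) n2798 (.arc (nat_lit 32) n2813 (.arc (nat_lit 35) n2817 (.arc (nat_lit 50) n2839 (.arc (nat_lit 53) n2830 (.arc (nat_lit 56) n2849 (.arc (nat_lit 59) n2845 (.arc (nat_lit 62) n2871 (.arc (nat_lit 65) n2862 (.arc (nat_lit 68) n2881 (.arc (nat_lit 71) n2877 (.fin (nat_lit 588705945) (nat_lit 0)))))))))))))
def n3045 : Nd := .arc (nat_lit 3) n3044 (.arc (nat_lit 40) n2799 (.arc (nat_lit 43) n2803 (.arc (nat_lit 46) n2806 (.fin (nat_lit 319738007) (nat_lit 0)))))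
def n3046 : Nd := .arc (nat_lit 6) n3043 (.arc (nat_lit 9) n3045 (.fin (nat_lit 122040477) (nat_lit 0)))
def n3047 : Nd := .arc (nat_lit 26) n2871 (.arc (nat_lit 29) n2862 (.arc (nat_lit 32) n2881 (.arc (nat_lit 35) n2877 (.arc (nat_lit 38) n2839 (.arc (nat_lit 41) n2830 (.arc (nat_lit 44) n2849 (.arc (nat_lit 47) n2845 (.arc (nat_lit 50) n2807 (.arc (nat_lit 53) n2798 (.arc (nat_lit 56) n2817 (.arc (nat_lit 59) n2813 (.fin (nat_lit 122089629) (nat_lit 0)))))))))))))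
def n3048 : Nd := .arc (nat_lit 9) n3047 (.arc (nat_lit 64) n2863 (.arc (nat_lit 67) n2870 (.arc (nat_lit 70) n2867 (.fin (nat_lit 588673177) (nat_lit 0)))))
def n3049 : Nd := .arc (nat_lit 6) n3044 (.arc (nat_lit 52) n2799 (.arc (nat_lit 55) n2803 (.arc (nat_lit 58) n2806 (.fin (nat_lit 122073245) (nat_lit 0)))))
def n3050 : Nd := .arc (nat_lit 3) n3048 (.arc (nat_lit 6) n3049 (.fin (nat_lit 319721623) (nat_lit 0)))
def n3051 : Nd := .arc (nat_lit 6) n3047 (.arc (nat_lit 52) n2863 (.arc (nat_lit 55) n2867 (.arc (nat_lit 58) n2870 (.fin (nat_lit 319729815) (nat_lit 0)))))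
def n3052 : Nd := .arc (nat_lit 9) n3042 (.fin (nat_lit 122056861) (nat_lit 0))
def n3053 : Nd := .arc (nat_lit 3) n3051 (.arc (nat_lit 9) n3052 (.fin (nat_lit 588664985) (nat_lit 0)))
def n3054 : Nd := .arc (nat_lit 3) n3046 (.arc (nat_lit 6) n3050 (.arc (nat_lit 9) n3053 (.fin (nat_lit 187043995) (nat_lit 0))))
def n3055 : Nd := .arc (nat_lit 6) n3045 (.arc (nat_lit 9) n3043 (.fin (nat_lit 187052187) (nat_lit 0)))
def n3056 : Nd := .arc (nat_lit 26) n2839 (.arc (nat_lit 29) n2830 (.arc (nat_lit 32) n2845 (.arc (nat_lit 35) n2849 (.arc (nat_lit 38) n2871 (.arc (nat_lit 41) n2862 (.arc (nat_lit 44) n2877 (.arc (nat_lit 47) n2881 (.arc (nat_lit 62) n2807 (.arc (nat_lit 65) n2798 (.arc (nat_lit 68) n2813 (.arc (nat_lit 71) n2817 (.fin (nat_lit 187101339) (nat_lit 0)))))))))))))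
def n3057 : Nd := .arc (nat_lit 9) n3056 (.arc (nat_lit 64) n2831 (.arc (nat_lit 67) n2838 (.arc (nat_lit 70) n2835 (.fin (nat_lit 319713431) (nat_lit 0)))))
def n3058 : Nd := .arc (nat_lit 6) n3042 (.fin (nat_lit 187084955) (nat_lit 0))
def n3059 : Nd := .arc (nat_lit 3) n3057 (.arc (nat_lit 6) n3058 (.fin (nat_lit 588681369) (nat_lit 0)))
def n3060 : Nd := .arc (nat_lit 6) n3056 (.arc (nat_lit 52) n2831 (.arc (nat_lit 55) n2835 (.arc (nat_lit 58) n2838 (.fin (nat_lit 588689561) (nat_lit 0)))))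
def n3061 : Nd := .arc (nat_lit 9) n3044 (.arc (nat_lit 64) n2799 (.arc (nat_lit 67) n2806 (.arc (nat_lit 70) n2803 (.fin (nat_lit 187068571) (nat_lit 0)))))
def n3062 : Nd := .arc (nat_lit 3) n3060 (.arc (nat_lit 9) n3061 (.fin (nat_lit 319705239) (nat_lit 0)))
def n3063 : Nd := .arc (nat_lit 3) n3055 (.arc (nat_lit 6) n3059 (.arc (nat_lit 9) n3062 (.fin (nat_lit 122032285) (nat_lit 0))))
def n3064 : Nd := .arc (nat_lit 3) n3056 (.arc (nat_lit 40) n2831 (.arc (nat_lit 43) n2835 (.arc (nat_lit 46) n2838 (.fin (nat_lit 122081437) (nat_lit 0)))))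
def n3065 : Nd := .arc (nat_lit 3) n3047 (.arc (nat_lit 40) n2863 (.arc (nat_lit 43) n2867 (.arc (nat_lit 46) n2870 (.fin (nat_lit 187093147) (nat_lit 0)))))
def n3066 : Nd := .arc (nat_lit 6) n3064 (.arc (nat_lit 9) n3065 (.fin (nat_lit 319697047) (nat_lit 0)))
def n3067 : Nd := .arc (nat_lit 3) n3052 (.arc (nat_lit 6) n3051 (.fin (nat_lit 187076763) (nat_lit 0)))
def n3068 : Nd := .arc (nat_lit 3) n3058 (.arc (nat_lit 9) n3057 (.fin (nat_lit 122048669) (nat_lit 0)))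
def n3069 : Nd := .arc (nat_lit 3) n3066 (.arc (nat_lit 6) n3067 (.arc (nat_lit 9) n3068 (.fin (nat_lit 588648601) (nat_lit 0))))
def n3070 : Nd := .arc (nat_lit 6) n3065 (.arc (nat_lit 9) n3064 (.fin (nat_lit 588656793) (nat_lit 0)))
def n3071 : Nd := .arc (nat_lit 3) n3061 (.arc (nat_lit 6) n3060 (.fin (nat_lit 122065053) (nat_lit 0)))
def n3072 : Nd := .arc (nat_lit 3) n3049 (.arc (nat_lit 9) n3048 (.fin (nat_lit 187060379) (nat_lit 0)))
def n3073 : Nd := .arc (nat_lit 3) n3070 (.arc (nat_lit 6) n3071 (.arc (nat_lit 9) n3072 (.fin (nat_lit 319688855) (nat_lit 0))))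
def n3074 : Nd := .arc (nat_lit 14) n2689 (.arc (nat_lit 17) n2685 (.arc (nat_lit 20) n2679 (.arc (nat_lit 23) n2670 (.arc (nat_lit 38) n2657 (.arc (nat_lit 41) n2653 (.arc (nat_lit 44) n2647 (.arc (nat_lit 47) n2638 (.arc (nat_lit 50) n2625 (.arc (nat_lit 53) n2621 (.arc (nat_lit 56) n2615 (.arc (nat_lit 59) n2606 (.fin (nat_lit 843772055) (nat_lit 0)))))))))))))
def n3075 : Nd := .arc (nat_lit 3) n3074 (.fin (nat_lit 842191001) (nat_lit 0))
def n3076 : Nd := .arc (nat_lit 14) n2685 (.arc (nat_lit 17) n2689 (.arc (nat_lit 20) n2670 (.arc (nat_lit 23) n2679 (.arc (nat_lit 26) n2657 (.arc (nat_lit 29) n2653 (.arc (nat_lit 32) n2638 (.arc (nat_lit 35) n2647 (.arc (nat_lit 62) n2625 (.arc (nat_lit 65) n2621 (.arc (nat_lit 68) n2606 (.arc (nat_lit 71) n2615 (.fin (nat_lit 842199193) (nat_lit 0)))))))))))))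
def n3077 : Nd := .arc (nat_lit 3) n3076 (.arc (nat_lit 40) n2654 (.arc (nat_lit 43) n2655 (.arc (nat_lit 46) n2656 (.fin (nat_lit 843763863) (nat_lit 0)))))
def n3078 : Nd := .arc (nat_lit 6) n3075 (.arc (nat_lit 9) n3077 (.fin (nat_lit 240267421) (nat_lit 0)))
def n3079 : Nd := .arc (nat_lit 14) n2679 (.arc (nat_lit 17) n2670 (.arc (nat_lit 20) n2685 (.arc (nat_lit 23) n2689 (.arc (nat_lit 26) n2625 (.arc (nat_lit 29) n2621 (.arc (nat_lit 32) n2606 (.arc (nat_lit 35) n2615 (.arc (nat_lit 50) n2657 (.arc (nat_lit 53) n2653 (.arc (nat_lit 56) n2647 (.arc (nat_lit 59) n2638 (.fin (nat_lit 240316573) (nat_lit 0)))))))))))))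
def n3080 : Nd := .arc (nat_lit 9) n3079 (.arc (nat_lit 64) n2622 (.arc (nat_lit 67) n2624 (.arc (nat_lit 70) n2623 (.fin (nat_lit 842166425) (nat_lit 0)))))
def n3081 : Nd := .arc (nat_lit 6) n3076 (.arc (nat_lit 52) n2654 (.arc (nat_lit 55) n2655 (.arc (nat_lit 58) n2656 (.fin (nat_lit 240300189) (nat_lit 0)))))
def n3082 : Nd := .arc (nat_lit 3) n3080 (.arc (nat_lit 6) n3081 (.fin (nat_lit 843747479) (nat_lit 0)))
def n3083 : Nd := .arc (nat_lit 6) n3079 (.arc (nat_lit 52) n2622 (.arc (nat_lit 55) n2623 (.arc (nat_lit 58) n2624 (.fin (nat_lit 843755671) (nat_lit 0)))))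
def n3084 : Nd := .arc (nat_lit 9) n3074 (.fin (nat_lit 240283805) (nat_lit 0))
def n3085 : Nd := .arc (nat_lit 3) n3083 (.arc (nat_lit 9) n3084 (.fin (nat_lit 842158233) (nat_lit 0)))
def n3086 : Nd := .arc (nat_lit 3) n3078 (.arc (nat_lit 6) n3082 (.arc (nat_lit 9) n3085 (.fin (nat_lit 237637787) (nat_lit 0))))
def n3087 : Nd := .arc (nat_lit 6) n3077 (.arc (nat_lit 9) n3075 (.fin (nat_lit 237645979) (nat_lit 0)))
def n3088 : Nd := .arc (nat_lit 14) n2670 (.arc (nat_lit 17) n2679 (.arc (nat_lit 20) n2689 (.arc (nat_lit 23) n2685 (.arc (nat_lit 38) n2625 (.arc (nat_lit 41) n2621 (.arc (nat_lit 44) n2615 (.arc (nat_lit 47) n2606 (.arc (nat_lit 62) n2657 (.arc (nat_lit 65) n2653 (.arc (nat_lit 68) n2638 (.arc (nat_lit 71) n2647 (.fin (nat_lit 237695131) (nat_lit 0)))))))))))))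
def n3089 : Nd := .arc (nat_lit 9) n3088 (.fin (nat_lit 843739287) (nat_lit 0))
def n3090 : Nd := .arc (nat_lit 6) n3074 (.fin (nat_lit 237678747) (nat_lit 0))
def n3091 : Nd := .arc (nat_lit 3) n3089 (.arc (nat_lit 6) n3090 (.fin (nat_lit 842174617) (nat_lit 0)))
def n3092 : Nd := .arc (nat_lit 6) n3088 (.fin (nat_lit 842182809) (nat_lit 0))
def n3093 : Nd := .arc (nat_lit 9) n3076 (.arc (nat_lit 64) n2654 (.arc (nat_lit 67) n2656 (.arc (nat_lit 70) n2655 (.fin (nat_lit 237662363) (nat_lit 0)))))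
def n3094 : Nd := .arc (nat_lit 3) n3092 (.arc (nat_lit 9) n3093 (.fin (nat_lit 843731095) (nat_lit 0)))
def n3095 : Nd := .arc (nat_lit 3) n3087 (.arc (nat_lit 6) n3091 (.arc (nat_lit 9) n3094 (.fin (nat_lit 240259229) (nat_lit 0))))
def n3096 : Nd := .arc (nat_lit 3) n3088 (.fin (nat_lit 240308381) (nat_lit 0))
def n3097 : Nd := .arc (nat_lit 3) n3079 (.arc (nat_lit 40) n2622 (.arc (nat_lit 43) n2623 (.arc (nat_lit 46) n2624 (.fin (nat_lit 237686939) (nat_lit 0)))))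
def n3098 : Nd := .arc (nat_lit 6) n3096 (.arc (nat_lit 9) n3097 (.fin (nat_lit 843722903) (nat_lit 0)))
def n3099 : Nd := .arc (nat_lit 3) n3084 (.arc (nat_lit 6) n3083 (.fin (nat_lit 237670555) (nat_lit 0)))
def n3100 : Nd := .arc (nat_lit 3) n3090 (.arc (nat_lit 9) n3089 (.fin (nat_lit 240275613) (nat_lit 0)))
def n3101 : Nd := .arc (nat_lit 3) n3098 (.arc (nat_lit 6) n3099 (.arc (nat_lit 9) n3100 (.fin (nat_lit 842141849) (nat_lit 0))))
def n3102 : Nd := .arc (nat_lit 6) n3097 (.arc (nat_lit 9) n3096 (.fin (nat_lit 842150041) (nat_lit 0)))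
def n3103 : Nd := .arc (nat_lit 3) n3093 (.arc (nat_lit 6) n3092 (.fin (nat_lit 240291997) (nat_lit 0)))
def n3104 : Nd := .arc (nat_lit 3) n3081 (.arc (nat_lit 9) n3080 (.fin (nat_lit 237654171) (nat_lit 0)))
def n3105 : Nd := .arc (nat_lit 3) n3102 (.arc (nat_lit 6) n3103 (.arc (nat_lit 9) n3104 (.fin (nat_lit 843714711) (nat_lit 0))))
def n3106 : Nd := .arc (nat_lit 14) n2145 (.arc (nat_lit 17) n2141 (.arc (nat_lit 20) n2135 (.arc (nat_lit 23) n2126 (.arc (nat_lit 26) n2113 (.arc (nat_lit 29) n2109 (.arc (nat_lit 32) n2103 (.arc (nat_lit 35) n2094 (.arc (nat_lit 50) n2081 (.arc (nat_lit 53) n2077 (.arc (nat_lit 56) n2071 (.arc (nat_lit 59) n2062 (.fin (nat_lit 827519129) (nat_lit 0)))))))))))))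
def n3107 : Nd := .arc (nat_lit 3) n3106 (.arc (nat_lit 40) n2110 (.arc (nat_lit 43) n2111 (.arc (nat_lit 46) n2112 (.fin (nat_lit 824889495) (nat_lit 0)))))
def n3108 : Nd := .arc (nat_lit 14) n2141 (.arc (nat_lit 17) n2145 (.arc (nat_lit 20) n2126 (.arc (nat_lit 23) n2135 (.arc (nat_lit 38) n2113 (.arc (nat_lit 41) n2109 (.arc (nat_lit 44) n2094 (.arc (nat_lit 47) n2103 (.arc (nat_lit 62) n2081 (.arc (nat_lit 65) n2077 (.arc (nat_lit 68) n2062 (.arc (nat_lit 71) n2071 (.fin (nat_lit 824897687) (nat_lit 0)))))))))))))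
def n3109 : Nd := .arc (nat_lit 3) n3108 (.fin (nat_lit 827510937) (nat_lit 0))
def n3110 : Nd := .arc (nat_lit 6) n3107 (.arc (nat_lit 9) n3109 (.fin (nat_lit 221393051) (nat_lit 0)))
def n3111 : Nd := .arc (nat_lit 14) n2135 (.arc (nat_lit 17) n2126 (.arc (nat_lit 20) n2141 (.arc (nat_lit 23) n2145 (.arc (nat_lit 26) n2081 (.arc (nat_lit 29) n2077 (.arc (nat_lit 32) n2062 (.arc (nat_lit 35) n2071 (.arc (nat_lit 62) n2113 (.arc (nat_lit 65) n2109 (.arc (nat_lit 68) n2103 (.arc (nat_lit 71) n2094 (.fin (nat_lit 221442203) (nat_lit 0)))))))))))))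
def n3112 : Nd := .arc (nat_lit 9) n3111 (.arc (nat_lit 64) n2078 (.arc (nat_lit 67) n2080 (.arc (nat_lit 70) n2079 (.fin (nat_lit 824864919) (nat_lit 0)))))
def n3113 : Nd := .arc (nat_lit 6) n3108 (.fin (nat_lit 221425819) (nat_lit 0))
def n3114 : Nd := .arc (nat_lit 3) n3112 (.arc (nat_lit 6) n3113 (.fin (nat_lit 827494553) (nat_lit 0)))
def n3115 : Nd := .arc (nat_lit 6) n3111 (.arc (nat_lit 52) n2078 (.arc (nat_lit 55) n2079 (.arc (nat_lit 58) n2080 (.fin (nat_lit 827502745) (nat_lit 0)))))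
def n3116 : Nd := .arc (nat_lit 9) n3106 (.arc (nat_lit 64) n2110 (.arc (nat_lit 67) n2112 (.arc (nat_lit 70) n2111 (.fin (nat_lit 221409435) (nat_lit 0)))))
def n3117 : Nd := .arc (nat_lit 3) n3115 (.arc (nat_lit 9) n3116 (.fin (nat_lit 824856727) (nat_lit 0)))
def n3118 : Nd := .arc (nat_lit 3) n3110 (.arc (nat_lit 6) n3114 (.arc (nat_lit 9) n3117 (.fin (nat_lit 222957725) (nat_lit 0))))
def n3119 : Nd := .arc (nat_lit 6) n3109 (.arc (nat_lit 9) n3107 (.fin (nat_lit 222965917) (nat_lit 0)))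
def n3120 : Nd := .arc (nat_lit 14) n2126 (.arc (nat_lit 17) n2135 (.arc (nat_lit 20) n2145 (.arc (nat_lit 23) n2141 (.arc (nat_lit 38) n2081 (.arc (nat_lit 41) n2077 (.arc (nat_lit 44) n2071 (.arc (nat_lit 47) n2062 (.arc (nat_lit 50) n2113 (.arc (nat_lit 53) n2109 (.arc (nat_lit 56) n2094 (.arc (nat_lit 59) n2103 (.fin (nat_lit 223015069) (nat_lit 0)))))))))))))
def n3121 : Nd := .arc (nat_lit 9) n3120 (.fin (nat_lit 827486361) (nat_lit 0))
def n3122 : Nd := .arc (nat_lit 6) n3106 (.arc (nat_lit 52) n2110 (.arc (nat_lit 55) n2111 (.arc (nat_lit 58) n2112 (.fin (nat_lit 222998685) (nat_lit 0)))))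
def n3123 : Nd := .arc (nat_lit 3) n3121 (.arc (nat_lit 6) n3122 (.fin (nat_lit 824873111) (nat_lit 0)))
def n3124 : Nd := .arc (nat_lit 6) n3120 (.fin (nat_lit 824881303) (nat_lit 0))
def n3125 : Nd := .arc (nat_lit 9) n3108 (.fin (nat_lit 222982301) (nat_lit 0))
def n3126 : Nd := .arc (nat_lit 3) n3124 (.arc (nat_lit 9) n3125 (.fin (nat_lit 827478169) (nat_lit 0)))
def n3127 : Nd := .arc (nat_lit 3) n3119 (.arc (nat_lit 6) n3123 (.arc (nat_lit 9) n3126 (.fin (nat_lit 221384859) (nat_lit 0))))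
def n3128 : Nd := .arc (nat_lit 3) n3111 (.arc (nat_lit 40) n2078 (.arc (nat_lit 43) n2079 (.arc (nat_lit 46) n2080 (.fin (nat_lit 223006877) (nat_lit 0)))))
def n3129 : Nd := .arc (nat_lit 3) n3120 (.fin (nat_lit 221434011) (nat_lit 0))
def n3130 : Nd := .arc (nat_lit 6) n3128 (.arc (nat_lit 9) n3129 (.fin (nat_lit 824848535) (nat_lit 0)))
def n3131 : Nd := .arc (nat_lit 3) n3125 (.arc (nat_lit 6) n3124 (.fin (nat_lit 221417627) (nat_lit 0)))
def n3132 : Nd := .arc (nat_lit 3) n3113 (.arc (nat_lit 9) n3112 (.fin (nat_lit 222974109) (nat_lit 0)))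
def n3133 : Nd := .arc (nat_lit 3) n3130 (.arc (nat_lit 6) n3131 (.arc (nat_lit 9) n3132 (.fin (nat_lit 827461785) (nat_lit 0))))
def n3134 : Nd := .arc (nat_lit 6) n3129 (.arc (nat_lit 9) n3128 (.fin (nat_lit 827469977) (nat_lit 0)))
def n3135 : Nd := .arc (nat_lit 3) n3116 (.arc (nat_lit 6) n3115 (.fin (nat_lit 222990493) (nat_lit 0)))
def n3136 : Nd := .arc (nat_lit 3) n3122 (.arc (nat_lit 9) n3121 (.fin (nat_lit 221401243) (nat_lit 0)))
def n3137 : Nd := .arc (nat_lit 3) n3134 (.arc (nat_lit 6) n3135 (.arc (nat_lit 9) n3136 (.fin (nat_lit 824840343) (nat_lit 0))))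
def n3138 : Nd := .arc (nat_lit 26) n1025 (.arc (nat_lit 29) n1021 (.arc (nat_lit 32) n1015 (.arc (nat_lit 35) n1006 (.arc (nat_lit 38) n929 (.arc (nat_lit 41) n925 (.arc (nat_lit 44) n919 (.arc (nat_lit 47) n910 (.arc (nat_lit 50) n801 (.arc (nat_lit 53) n797 (.arc (nat_lit 56) n791 (.arc (nat_lit 59) n782 (.fin (nat_lit 944173205) (nat_lit 0)))))))))))))
def n3139 : Nd := .arc (nat_lit 3) n3138 (.arc (nat_lit 40) n1022 (.arc (nat_lit 43) n1023 (.arc (nat_lit 46) n1024 (.fin (nat_lit 874958997) (nat_lit 0)))))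
def n3140 : Nd := .arc (nat_lit 26) n929 (.arc (nat_lit 29) n925 (.arc (nat_lit 32) n910 (.arc (nat_lit 35) n919 (.arc (nat_lit 38) n1025 (.arc (nat_lit 41) n1021 (.arc (nat_lit 44) n1006 (.arc (nat_lit 47) n1015 (.arc (nat_lit 62) n801 (.arc (nat_lit 65) n797 (.arc (nat_lit 68) n782 (.arc (nat_lit 71) n791 (.fin (nat_lit 874967189) (nat_lit 0)))))))))))))
def n3141 : Nd := .arc (nat_lit 3) n3140 (.arc (nat_lit 40) n926 (.arc (nat_lit 43) n927 (.arc (nat_lit 46) n928 (.fin (nat_lit 944165013) (nat_lit 0)))))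
def n3142 : Nd := .arc (nat_lit 6) n3139 (.arc (nat_lit 9) n3141 (.fin (nat_lit 471216277) (nat_lit 0)))
def n3143 : Nd := .arc (nat_lit 26) n801 (.arc (nat_lit 29) n797 (.arc (nat_lit 32) n782 (.arc (nat_lit 35) n791 (.arc (nat_lit 50) n929 (.arc (nat_lit 53) n925 (.arc (nat_lit 56) n919 (.arc (nat_lit 59) n910 (.arc (nat_lit 62) n1025 (.arc (nat_lit 65) n1021 (.arc (nat_lit 68) n1015 (.arc (nat_lit 71) n1006 (.fin (nat_lit 471265429) (nat_lit 0)))))))))))))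
def n3144 : Nd := .arc (nat_lit 9) n3143 (.arc (nat_lit 64) n798 (.arc (nat_lit 67) n800 (.arc (nat_lit 70) n799 (.fin (nat_lit 874934421) (nat_lit 0)))))
def n3145 : Nd := .arc (nat_lit 6) n3140 (.arc (nat_lit 52) n926 (.arc (nat_lit 55) n927 (.arc (nat_lit 58) n928 (.fin (nat_lit 471249045) (nat_lit 0)))))
def n3146 : Nd := .arc (nat_lit 3) n3144 (.arc (nat_lit 6) n3145 (.fin (nat_lit 944148629) (nat_lit 0)))
def n3147 : Nd := .arc (nat_lit 6) n3143 (.arc (nat_lit 52) n798 (.arc (nat_lit 55) n799 (.arc (nat_lit 58) n800 (.fin (nat_lit 944156821) (nat_lit 0)))))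
def n3148 : Nd := .arc (nat_lit 9) n3138 (.arc (nat_lit 64) n1022 (.arc (nat_lit 67) n1024 (.arc (nat_lit 70) n1023 (.fin (nat_lit 471232661) (nat_lit 0)))))
def n3149 : Nd := .arc (nat_lit 3) n3147 (.arc (nat_lit 9) n3148 (.fin (nat_lit 874926229) (nat_lit 0)))
def n3150 : Nd := .arc (nat_lit 3) n3142 (.arc (nat_lit 6) n3146 (.arc (nat_lit 9) n3149 (.fin (nat_lit 739119253) (nat_lit 0))))
def n3151 : Nd := .arc (nat_lit 6) n3141 (.arc (nat_lit 9) n3139 (.fin (nat_lit 739127445) (nat_lit 0)))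
def n3152 : Nd := .arc (nat_lit 38) n801 (.arc (nat_lit 41) n797 (.arc (nat_lit 44) n791 (.arc (nat_lit 47) n782 (.arc (nat_lit 50) n1025 (.arc (nat_lit 53) n1021 (.arc (nat_lit 56) n1006 (.arc (nat_lit 59) n1015 (.arc (nat_lit 62) n929 (.arc (nat_lit 65) n925 (.arc (nat_lit 68) n910 (.arc (nat_lit 71) n919 (.fin (nat_lit 739176597) (nat_lit 0)))))))))))))
def n3153 : Nd := .arc (nat_lit 9) n3152 (.fin (nat_lit 944140437) (nat_lit 0))
def n3154 : Nd := .arc (nat_lit 6) n3138 (.arc (nat_lit 52) n1022 (.arc (nat_lit 55) n1023 (.arc (nat_lit 58) n1024 (.fin (nat_lit 739160213) (nat_lit 0)))))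
def n3155 : Nd := .arc (nat_lit 3) n3153 (.arc (nat_lit 6) n3154 (.fin (nat_lit 874942613) (nat_lit 0)))
def n3156 : Nd := .arc (nat_lit 6) n3152 (.fin (nat_lit 874950805) (nat_lit 0))
def n3157 : Nd := .arc (nat_lit 9) n3140 (.arc (nat_lit 64) n926 (.arc (nat_lit 67) n928 (.arc (nat_lit 70) n927 (.fin (nat_lit 739143829) (nat_lit 0)))))
def n3158 : Nd := .arc (nat_lit 3) n3156 (.arc (nat_lit 9) n3157 (.fin (nat_lit 944132245) (nat_lit 0)))
def n3159 : Nd := .arc (nat_lit 3) n3151 (.arc (nat_lit 6) n3155 (.arc (nat_lit 9) n3158 (.fin (nat_lit 471208085) (nat_lit 0))))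
def n3160 : Nd := .arc (nat_lit 3) n3143 (.arc (nat_lit 40) n798 (.arc (nat_lit 43) n799 (.arc (nat_lit 46) n800 (.fin (nat_lit 739168405) (nat_lit 0)))))
def n3161 : Nd := .arc (nat_lit 3) n3152 (.fin (nat_lit 471257237) (nat_lit 0))
def n3162 : Nd := .arc (nat_lit 6) n3160 (.arc (nat_lit 9) n3161 (.fin (nat_lit 874918037) (nat_lit 0)))
def n3163 : Nd := .arc (nat_lit 3) n3157 (.arc (nat_lit 6) n3156 (.fin (nat_lit 471240853) (nat_lit 0)))
def n3164 : Nd := .arc (nat_lit 3) n3145 (.arc (nat_lit 9) n3144 (.fin (nat_lit 739135637) (nat_lit 0)))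
def n3165 : Nd := .arc (nat_lit 3) n3162 (.arc (nat_lit 6) n3163 (.arc (nat_lit 9) n3164 (.fin (nat_lit 944115861) (nat_lit 0))))
def n3166 : Nd := .arc (nat_lit 6) n3161 (.arc (nat_lit 9) n3160 (.fin (nat_lit 944124053) (nat_lit 0)))
def n3167 : Nd := .arc (nat_lit 3) n3148 (.arc (nat_lit 6) n3147 (.fin (nat_lit 739152021) (nat_lit 0)))
def n3168 : Nd := .arc (nat_lit 3) n3154 (.arc (nat_lit 9) n3153 (.fin (nat_lit 471224469) (nat_lit 0)))
def n3169 : Nd := .arc (nat_lit 3) n3166 (.arc (nat_lit 6) n3167 (.arc (nat_lit 9) n3168 (.fin (nat_lit 874909845) (nat_lit 0))))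
def n3170 : Nd := .arc (nat_lit 14) n3054 (.arc (nat_lit 17) n3063 (.arc (nat_lit 20) n3069 (.arc (nat_lit 23) n3073 (.arc (nat_lit 26) n3086 (.arc (nat_lit 29) n3095 (.arc (nat_lit 32) n3101 (.arc (nat_lit 35) n3105 (.arc (nat_lit 38) n3118 (.arc (nat_lit 41) n3127 (.arc (nat_lit 44) n3133 (.arc (nat_lit 47) n3137 (.arc (nat_lit 50) n3150 (.arc (nat_lit 53) n3159 (.arc (nat_lit 56) n3165 (.arc (nat_lit 59) n3169 (.fin (nat_lit 188936349) (nat_lit 0)))))))))))))))))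
def n3171 : Nd := .arc (nat_lit 3) n3170 (.arc (nat_lit 40) n3078 (.arc (nat_lit 43) n3082 (.arc (nat_lit 46) n3085 (.fin (nat_lit 119722139) (nat_lit 0)))))
def n3172 : Nd := .arc (nat_lit 14) n3063 (.arc (nat_lit 17) n3054 (.arc (nat_lit 20) n3073 (.arc (nat_lit 23) n3069 (.arc (nat_lit 26) n3118 (.arc (nat_lit 29) n3127 (.arc (nat_lit 32) n3137 (.arc (nat_lit 35) n3133 (.arc (nat_lit 38) n3086 (.arc (nat_lit 41) n3095 (.arc (nat_lit 44) n3105 (.arc (nat_lit 47) n3101 (.arc (nat_lit 62) n3150 (.arc (nat_lit 65) n3159 (.arc (nat_lit 68) n3169 (.arc (nat_lit 71) n3165 (.fin (nat_lit 119730331) (nat_lit 0)))))))))))))))))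
def n3173 : Nd := .arc (nat_lit 3) n3172 (.arc (nat_lit 40) n3110 (.arc (nat_lit 43) n3114 (.arc (nat_lit 46) n3117 (.fin (nat_lit 188928157) (nat_lit 0)))))
def n3174 : Nd := .arc (nat_lit 6) n3171 (.arc (nat_lit 9) n3173 (.fin (nat_lit 319959193) (nat_lit 0)))
def n3175 : Nd := .arc (nat_lit 14) n3069 (.arc (nat_lit 17) n3073 (.arc (nat_lit 20) n3063 (.arc (nat_lit 23) n3054 (.arc (nat_lit 26) n3150 (.arc (nat_lit 29) n3159 (.arc (nat_lit 32) n3169 (.arc (nat_lit 35) n3165 (.arc (nat_lit 50) n3118 (.arc (nat_lit 53) n3127 (.arc (nat_lit 56) n3133 (.arc (nat_lit 59) n3137 (.arc (nat_lit 62) n3086 (.arc (nat_lit 65) n3095 (.arc (nat_lit 68) n3101 (.arc (nat_lit 71) n3105 (.fin (nat_lit 320008345) (nat_lit 0)))))))))))))))))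
def n3176 : Nd := .arc (nat_lit 9) n3175 (.arc (nat_lit 64) n3142 (.arc (nat_lit 67) n3149 (.arc (nat_lit 70) n3146 (.fin (nat_lit 119697563) (nat_lit 0)))))
def n3177 : Nd := .arc (nat_lit 6) n3172 (.arc (nat_lit 52) n3110 (.arc (nat_lit 55) n3114 (.arc (nat_lit 58) n3117 (.fin (nat_lit 319991961) (nat_lit 0)))))
def n3178 : Nd := .arc (nat_lit 3) n3176 (.arc (nat_lit 6) n3177 (.fin (nat_lit 188911773) (nat_lit 0)))
def n3179 : Nd := .arc (nat_lit 6) n3175 (.arc (nat_lit 52) n3142 (.arc (nat_lit 55) n3146 (.arc (nat_lit 58) n3149 (.fin (nat_lit 188919965) (nat_lit 0)))))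
def n3180 : Nd := .arc (nat_lit 9) n3170 (.arc (nat_lit 64) n3078 (.arc (nat_lit 67) n3085 (.arc (nat_lit 70) n3082 (.fin (nat_lit 319975577) (nat_lit 0)))))
def n3181 : Nd := .arc (nat_lit 3) n3179 (.arc (nat_lit 9) n3180 (.fin (nat_lit 119689371) (nat_lit 0)))
def n3182 : Nd := .arc (nat_lit 3) n3174 (.arc (nat_lit 6) n3178 (.arc (nat_lit 9) n3181 (.fin (nat_lit 587862167) (nat_lit 0))))
def n3183 : Nd := .arc (nat_lit 6) n3173 (.arc (nat_lit 9) n3171 (.fin (nat_lit 587870359) (nat_lit 0)))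
def n3184 : Nd := .arc (nat_lit 14) n3073 (.arc (nat_lit 17) n3069 (.arc (nat_lit 20) n3054 (.arc (nat_lit 23) n3063 (.arc (nat_lit 38) n3150 (.arc (nat_lit 41) n3159 (.arc (nat_lit 44) n3165 (.arc (nat_lit 47) n3169 (.arc (nat_lit 50) n3086 (.arc (nat_lit 53) n3095 (.arc (nat_lit 56) n3105 (.arc (nat_lit 59) n3101 (.arc (nat_lit 62) n3118 (.arc (nat_lit 65) n3127 (.arc (nat_lit 68) n3137 (.arc (nat_lit 71) n3133 (.fin (nat_lit 587919511) (nat_lit 0)))))))))))))))))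
def n3185 : Nd := .arc (nat_lit 9) n3184 (.fin (nat_lit 188903581) (nat_lit 0))
def n3186 : Nd := .arc (nat_lit 6) n3170 (.arc (nat_lit 52) n3078 (.arc (nat_lit 55) n3082 (.arc (nat_lit 58) n3085 (.fin (nat_lit 587903127) (nat_lit 0)))))
def n3187 : Nd := .arc (nat_lit 3) n3185 (.arc (nat_lit 6) n3186 (.fin (nat_lit 119705755) (nat_lit 0)))
def n3188 : Nd := .arc (nat_lit 6) n3184 (.fin (nat_lit 119713947) (nat_lit 0))
def n3189 : Nd := .arc (nat_lit 9) n3172 (.arc (nat_lit 64) n3110 (.arc (nat_lit 67) n3117 (.arc (nat_lit 70) n3114 (.fin (nat_lit 587886743) (nat_lit 0)))))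
def n3190 : Nd := .arc (nat_lit 3) n3188 (.arc (nat_lit 9) n3189 (.fin (nat_lit 188895389) (nat_lit 0)))
def n3191 : Nd := .arc (nat_lit 3) n3183 (.arc (nat_lit 6) n3187 (.arc (nat_lit 9) n3190 (.fin (nat_lit 319951001) (nat_lit 0))))
def n3192 : Nd := .arc (nat_lit 3) n3184 (.fin (nat_lit 320000153) (nat_lit 0))
def n3193 : Nd := .arc (nat_lit 3) n3175 (.arc (nat_lit 40) n3142 (.arc (nat_lit 43) n3146 (.arc (nat_lit 46) n3149 (.fin (nat_lit 587911319) (nat_lit 0)))))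
def n3194 : Nd := .arc (nat_lit 6) n3192 (.arc (nat_lit 9) n3193 (.fin (nat_lit 188887197) (nat_lit 0)))
def n3195 : Nd := .arc (nat_lit 3) n3180 (.arc (nat_lit 6) n3179 (.fin (nat_lit 587894935) (nat_lit 0)))
def n3196 : Nd := .arc (nat_lit 3) n3186 (.arc (nat_lit 9) n3185 (.fin (nat_lit 319967385) (nat_lit 0)))
def n3197 : Nd := .arc (nat_lit 3) n3194 (.arc (nat_lit 6) n3195 (.arc (nat_lit 9) n3196 (.fin (nat_lit 119672987) (nat_lit 0))))
def n3198 : Nd := .arc (nat_lit 6) n3193 (.arc (nat_lit 9) n3192 (.fin (nat_lit 119681179) (nat_lit 0)))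
def n3199 : Nd := .arc (nat_lit 3) n3189 (.arc (nat_lit 6) n3188 (.fin (nat_lit 319983769) (nat_lit 0)))
def n3200 : Nd := .arc (nat_lit 3) n3177 (.arc (nat_lit 9) n3176 (.fin (nat_lit 587878551) (nat_lit 0)))
def n3201 : Nd := .arc (nat_lit 3) n3198 (.arc (nat_lit 6) n3199 (.arc (nat_lit 9) n3200 (.fin (nat_lit 188879005) (nat_lit 0))))
def n3202 : Nd := .arc (nat_lit 3) n640 (.arc (nat_lit 14) n1678 (.arc (nat_lit 17) n1687 (.arc (nat_lit 20) n1693 (.arc (nat_lit 23) n1697 (.arc (nat_lit 26) n2350 (.arc (nat_lit 29) n2359 (.arc (nat_lit 32) n2365 (.arc (nat_lit 35) n2369 (.arc (nat_lit 38) n2766 (.arc (nat_lit 40) n612 (.arc (nat_lit 41) n2775 (.arc (nat_lit 43) n616 (.arc (nat_lit 44) n2781 (.arc (nat_lit 46) n619 (.arc (nat_lit 47) n2785 (.arc (nat_lit 50) n3022 (.arc (nat_lit 53) n3031 (.arc (nat_lit 56) n3037 (.arc (nat_lit 59) n3041 (.arc (nat_lit 62) n3182 (.arc (nat_lit 65) n3191 (.arc (nat_lit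 68) n3197 (.arc (nat_lit 71) n3201 (.fin (nat_lit 872599571) (nat_lit 0)))))))))))))))))))))))))
def n3203 : Nd := .fin (nat_lit 813576467) (nat_lit 1)
def n3204 : Nd := .arc (nat_lit 3) n3203 (.fin (nat_lit 813568275) (nat_lit 0))
def n3205 : Nd := .arc (nat_lit 56) n3204 (.arc (nat_lit 59) n3204 (.fin (nat_lit 58650779) (nat_lit 0)))
def n3206 : Nd := .arc (nat_lit 3) n3205 (.fin (nat_lit 58642589) (nat_lit 0))
def n3207 : Nd := .arc (nat_lit 68) n3204 (.arc (nat_lit 71) n3204 (.fin (nat_lit 58650781) (nat_lit 0)))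
def n3208 : Nd := .arc (nat_lit 3) n3207 (.fin (nat_lit 58642587) (nat_lit 0))
def n3209 : Nd := .arc (nat_lit 6) n3206 (.arc (nat_lit 9) n3208 (.fin (nat_lit 58601623) (nat_lit 0)))
def n3210 : Nd := .arc (nat_lit 32) n3204 (.arc (nat_lit 35) n3204 (.fin (nat_lit 58650775) (nat_lit 0)))
def n3211 : Nd := .arc (nat_lit 9) n3210 (.fin (nat_lit 58618013) (nat_lit 0))
def n3212 : Nd := .arc (nat_lit 6) n3207 (.fin (nat_lit 58634391) (nat_lit 0))
def n3213 : Nd := .arc (nat_lit 3) n3211 (.arc (nat_lit 6) n3212 (.fin (nat_lit 58626203) (nat_lit 0)))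
def n3214 : Nd := .arc (nat_lit 6) n3210 (.fin (nat_lit 58634395) (nat_lit 0))
def n3215 : Nd := .arc (nat_lit 9) n3205 (.fin (nat_lit 58618007) (nat_lit 0))
def n3216 : Nd := .arc (nat_lit 3) n3214 (.arc (nat_lit 9) n3215 (.fin (nat_lit 58609821) (nat_lit 0)))
def n3217 : Nd := .arc (nat_lit 3) n3209 (.arc (nat_lit 6) n3213 (.arc (nat_lit 9) n3216 (.fin (nat_lit 58593433) (nat_lit 0))))
def n3218 : Nd := .arc (nat_lit 6) n3208 (.arc (nat_lit 9) n3206 (.fin (nat_lit 58601625) (nat_lit 0)))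
def n3219 : Nd := .arc (nat_lit 44) n3204 (.arc (nat_lit 47) n3204 (.fin (nat_lit 58650777) (nat_lit 0)))
def n3220 : Nd := .arc (nat_lit 9) n3219 (.fin (nat_lit 58618011) (nat_lit 0))
def n3221 : Nd := .arc (nat_lit 6) n3205 (.fin (nat_lit 58634393) (nat_lit 0))
def n3222 : Nd := .arc (nat_lit 3) n3220 (.arc (nat_lit 6) n3221 (.fin (nat_lit 58626205) (nat_lit 0)))
def n3223 : Nd := .arc (nat_lit 6) n3219 (.fin (nat_lit 58634397) (nat_lit 0))
def n3224 : Nd := .arc (nat_lit 9) n3207 (.fin (nat_lit 58618009) (nat_lit 0))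
def n3225 : Nd := .arc (nat_lit 3) n3223 (.arc (nat_lit 9) n3224 (.fin (nat_lit 58609819) (nat_lit 0)))
def n3226 : Nd := .arc (nat_lit 3) n3218 (.arc (nat_lit 6) n3222 (.arc (nat_lit 9) n3225 (.fin (nat_lit 58593431) (nat_lit 0))))
def n3227 : Nd := .arc (nat_lit 3) n3219 (.fin (nat_lit 58642583) (nat_lit 0))
def n3228 : Nd := .arc (nat_lit 3) n3210 (.fin (nat_lit 58642585) (nat_lit 0))
def n3229 : Nd := .arc (nat_lit 6) n3227 (.arc (nat_lit 9) n3228 (.fin (nat_lit 58601627) (nat_lit 0)))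
def n3230 : Nd := .arc (nat_lit 3) n3215 (.arc (nat_lit 6) n3214 (.fin (nat_lit 58626201) (nat_lit 0)))
def n3231 : Nd := .arc (nat_lit 3) n3221 (.arc (nat_lit 9) n3220 (.fin (nat_lit 58609815) (nat_lit 0)))
def n3232 : Nd := .arc (nat_lit 3) n3229 (.arc (nat_lit 6) n3230 (.arc (nat_lit 9) n3231 (.fin (nat_lit 58593437) (nat_lit 0))))
def n3233 : Nd := .arc (nat_lit 6) n3228 (.arc (nat_lit 9) n3227 (.fin (nat_lit 58601629) (nat_lit 0)))
def n3234 : Nd := .arc (nat_lit 3) n3224 (.arc (nat_lit 6) n3223 (.fin (nat_lit 58626199) (nat_lit 0)))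
def n3235 : Nd := .arc (nat_lit 3) n3212 (.arc (nat_lit 9) n3211 (.fin (nat_lit 58609817) (nat_lit 0)))
def n3236 : Nd := .arc (nat_lit 3) n3233 (.arc (nat_lit 6) n3234 (.arc (nat_lit 9) n3235 (.fin (nat_lit 58593435) (nat_lit 0))))
def n3237 : Nd := .arc (nat_lit 14) n3217 (.arc (nat_lit 17) n3226 (.arc (nat_lit 20) n3232 (.arc (nat_lit 23) n3236 (.fin (nat_lit 58388633) (nat_lit 0)))))
def n3238 : Nd := .arc (nat_lit 3) n3237 (.fin (nat_lit 58380439) (nat_lit 0))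
def n3239 : Nd := .arc (nat_lit 14) n3226 (.arc (nat_lit 17) n3217 (.arc (nat_lit 20) n3236 (.arc (nat_lit 23) n3232 (.fin (nat_lit 58388631) (nat_lit 0)))))
def n3240 : Nd := .arc (nat_lit 3) n3239 (.fin (nat_lit 58380441) (nat_lit 0))
def n3241 : Nd := .arc (nat_lit 6) n3238 (.arc (nat_lit 9) n3240 (.fin (nat_lit 58339483) (nat_lit 0)))
def n3242 : Nd := .arc (nat_lit 14) n3232 (.arc (nat_lit 17) n3236 (.arc (nat_lit 20) n3226 (.arc (nat_lit 23) n3217 (.fin (nat_lit 58388635) (nat_lit 0)))))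
def n3243 : Nd := .arc (nat_lit 9) n3242 (.fin (nat_lit 58355863) (nat_lit 0))
def n3244 : Nd := .arc (nat_lit 6) n3239 (.fin (nat_lit 58372251) (nat_lit 0))
def n3245 : Nd := .arc (nat_lit 3) n3243 (.arc (nat_lit 6) n3244 (.fin (nat_lit 58364057) (nat_lit 0)))
def n3246 : Nd := .arc (nat_lit 6) n3242 (.fin (nat_lit 58372249) (nat_lit 0))
def n3247 : Nd := .arc (nat_lit 9) n3237 (.fin (nat_lit 58355867) (nat_lit 0))
def n3248 : Nd := .arc (nat_lit 3) n3246 (.arc (nat_lit 9) n3247 (.fin (nat_lit 58347671) (nat_lit 0)))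
def n3249 : Nd := .arc (nat_lit 3) n3241 (.arc (nat_lit 6) n3245 (.arc (nat_lit 9) n3248 (.fin (nat_lit 58331293) (nat_lit 0))))
def n3250 : Nd := .arc (nat_lit 6) n3240 (.arc (nat_lit 9) n3238 (.fin (nat_lit 58339485) (nat_lit 0)))
def n3251 : Nd := .arc (nat_lit 14) n3236 (.arc (nat_lit 17) n3232 (.arc (nat_lit 20) n3217 (.arc (nat_lit 23) n3226 (.fin (nat_lit 58388637) (nat_lit 0)))))
def n3252 : Nd := .arc (nat_lit 9) n3251 (.fin (nat_lit 58355865) (nat_lit 0))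
def n3253 : Nd := .arc (nat_lit 6) n3237 (.fin (nat_lit 58372253) (nat_lit 0))
def n3254 : Nd := .arc (nat_lit 3) n3252 (.arc (nat_lit 6) n3253 (.fin (nat_lit 58364055) (nat_lit 0)))
def n3255 : Nd := .arc (nat_lit 6) n3251 (.fin (nat_lit 58372247) (nat_lit 0))
def n3256 : Nd := .arc (nat_lit 9) n3239 (.fin (nat_lit 58355869) (nat_lit 0))
def n3257 : Nd := .arc (nat_lit 3) n3255 (.arc (nat_lit 9) n3256 (.fin (nat_lit 58347673) (nat_lit 0)))
def n3258 : Nd := .arc (nat_lit 3) n3250 (.arc (nat_lit 6) n3254 (.arc (nat_lit 9) n3257 (.fin (nat_lit 58331291) (nat_lit 0))))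
def n3259 : Nd := .arc (nat_lit 3) n3242 (.fin (nat_lit 58380445) (nat_lit 0))
def n3260 : Nd := .arc (nat_lit 3) n3251 (.fin (nat_lit 58380443) (nat_lit 0))
def n3261 : Nd := .arc (nat_lit 6) n3259 (.arc (nat_lit 9) n3260 (.fin (nat_lit 58339479) (nat_lit 0)))
def n3262 : Nd := .arc (nat_lit 3) n3256 (.arc (nat_lit 6) n3255 (.fin (nat_lit 58364059) (nat_lit 0)))
def n3263 : Nd := .arc (nat_lit 3) n3244 (.arc (nat_lit 9) n3243 (.fin (nat_lit 58347677) (nat_lit 0)))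
def n3264 : Nd := .arc (nat_lit 3) n3261 (.arc (nat_lit 6) n3262 (.arc (nat_lit 9) n3263 (.fin (nat_lit 58331289) (nat_lit 0))))
def n3265 : Nd := .arc (nat_lit 6) n3260 (.arc (nat_lit 9) n3259 (.fin (nat_lit 58339481) (nat_lit 0)))
def n3266 : Nd := .arc (nat_lit 3) n3247 (.arc (nat_lit 6) n3246 (.fin (nat_lit 58364061) (nat_lit 0)))
def n3267 : Nd := .arc (nat_lit 3) n3253 (.arc (nat_lit 9) n3252 (.fin (nat_lit 58347675) (nat_lit 0)))
def n3268 : Nd := .arc (nat_lit 3) n3265 (.arc (nat_lit 6) n3266 (.arc (nat_lit 9) n3267 (.fin (nat_lit 58331287) (nat_lit 0))))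
def n3269 : Nd := .arc (nat_lit 50) n3249 (.arc (nat_lit 53) n3258 (.arc (nat_lit 56) n3264 (.arc (nat_lit 59) n3268 (.arc (nat_lit 62) n3258 (.arc (nat_lit 65) n3249 (.arc (nat_lit 68) n3264 (.arc (nat_lit 71) n3268 (.fin (nat_lit 807334041) (nat_lit 0)))))))))
def n3270 : Nd := .arc (nat_lit 3) n3269 (.fin (nat_lit 807325847) (nat_lit 0))
def n3271 : Nd := .arc (nat_lit 50) n3258 (.arc (nat_lit 53) n3249 (.arc (nat_lit 56) n3268 (.arc (nat_lit 59) n3264 (.arc (nat_lit 62) n3249 (.arc (nat_lit 65) n3258 (.arc (nat_lit 68) n3268 (.arc (nat_lit 71) n3264 (.fin (nat_lit 807334039) (nat_lit 0)))))))))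
def n3272 : Nd := .arc (nat_lit 3) n3271 (.fin (nat_lit 807325849) (nat_lit 0))
def n3273 : Nd := .arc (nat_lit 6) n3270 (.arc (nat_lit 9) n3272 (.fin (nat_lit 208023707) (nat_lit 0)))
def n3274 : Nd := .arc (nat_lit 26) n3249 (.arc (nat_lit 29) n3258 (.arc (nat_lit 32) n3268 (.arc (nat_lit 35) n3264 (.arc (nat_lit 38) n3258 (.arc (nat_lit 41) n3249 (.arc (nat_lit 44) n3268 (.arc (nat_lit 47) n3264 (.fin (nat_lit 208072859) (nat_lit 0)))))))))
def n3275 : Nd := .arc (nat_lit 9) n3274 (.arc (nat_lit 64) n3241 (.arc (nat_lit 67) n3248 (.arc (nat_lit 70) n3245 (.fin (nat_lit 807301271) (nat_lit 0)))))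
def n3276 : Nd := .arc (nat_lit 6) n3271 (.fin (nat_lit 208056475) (nat_lit 0))
def n3277 : Nd := .arc (nat_lit 3) n3275 (.arc (nat_lit 6) n3276 (.fin (nat_lit 807309465) (nat_lit 0)))
def n3278 : Nd := .arc (nat_lit 6) n3274 (.arc (nat_lit 52) n3241 (.arc (nat_lit 55) n3245 (.arc (nat_lit 58) n3248 (.fin (nat_lit 807317657) (nat_lit 0)))))
def n3279 : Nd := .arc (nat_lit 9) n3269 (.fin (nat_lit 208040091) (nat_lit 0))
def n3280 : Nd := .arc (nat_lit 3) n3278 (.arc (nat_lit 9) n3279 (.fin (nat_lit 807293079) (nat_lit 0)))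
def n3281 : Nd := .arc (nat_lit 3) n3273 (.arc (nat_lit 6) n3277 (.arc (nat_lit 9) n3280 (.fin (nat_lit 208015517) (nat_lit 0))))
def n3282 : Nd := .arc (nat_lit 6) n3272 (.arc (nat_lit 9) n3270 (.fin (nat_lit 208023709) (nat_lit 0)))
def n3283 : Nd := .arc (nat_lit 26) n3258 (.arc (nat_lit 29) n3249 (.arc (nat_lit 32) n3264 (.arc (nat_lit 35) n3268 (.arc (nat_lit 38) n3249 (.arc (nat_lit 41) n3258 (.arc (nat_lit 44) n3264 (.arc (nat_lit 47) n3268 (.fin (nat_lit 208072861) (nat_lit 0)))))))))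
def n3284 : Nd := .arc (nat_lit 9) n3283 (.arc (nat_lit 64) n3250 (.arc (nat_lit 67) n3257 (.arc (nat_lit 70) n3254 (.fin (nat_lit 807301273) (nat_lit 0)))))
def n3285 : Nd := .arc (nat_lit 6) n3269 (.fin (nat_lit 208056477) (nat_lit 0))
def n3286 : Nd := .arc (nat_lit 3) n3284 (.arc (nat_lit 6) n3285 (.fin (nat_lit 807309463) (nat_lit 0)))
def n3287 : Nd := .arc (nat_lit 6) n3283 (.arc (nat_lit 52) n3250 (.arc (nat_lit 55) n3254 (.arc (nat_lit 58) n3257 (.fin (nat_lit 807317655) (nat_lit 0)))))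
def n3288 : Nd := .arc (nat_lit 9) n3271 (.fin (nat_lit 208040093) (nat_lit 0))
def n3289 : Nd := .arc (nat_lit 3) n3287 (.arc (nat_lit 9) n3288 (.fin (nat_lit 807293081) (nat_lit 0)))
def n3290 : Nd := .arc (nat_lit 3) n3282 (.arc (nat_lit 6) n3286 (.arc (nat_lit 9) n3289 (.fin (nat_lit 208015515) (nat_lit 0))))
def n3291 : Nd := .arc (nat_lit 3) n3283 (.arc (nat_lit 40) n3250 (.arc (nat_lit 43) n3254 (.arc (nat_lit 46) n3257 (.fin (nat_lit 208064667) (nat_lit 0)))))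
def n3292 : Nd := .arc (nat_lit 3) n3274 (.arc (nat_lit 40) n3241 (.arc (nat_lit 43) n3245 (.arc (nat_lit 46) n3248 (.fin (nat_lit 208064669) (nat_lit 0)))))
def n3293 : Nd := .arc (nat_lit 6) n3291 (.arc (nat_lit 9) n3292 (.fin (nat_lit 807284889) (nat_lit 0)))
def n3294 : Nd := .arc (nat_lit 3) n3279 (.arc (nat_lit 6) n3278 (.fin (nat_lit 208048285) (nat_lit 0)))
def n3295 : Nd := .arc (nat_lit 3) n3285 (.arc (nat_lit 9) n3284 (.fin (nat_lit 208031899) (nat_lit 0)))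
def n3296 : Nd := .arc (nat_lit 3) n3293 (.arc (nat_lit 6) n3294 (.arc (nat_lit 9) n3295 (.fin (nat_lit 807276695) (nat_lit 0))))
def n3297 : Nd := .arc (nat_lit 6) n3292 (.arc (nat_lit 9) n3291 (.fin (nat_lit 807284887) (nat_lit 0)))
def n3298 : Nd := .arc (nat_lit 3) n3288 (.arc (nat_lit 6) n3287 (.fin (nat_lit 208048283) (nat_lit 0)))
def n3299 : Nd := .arc (nat_lit 3) n3276 (.arc (nat_lit 9) n3275 (.fin (nat_lit 208031901) (nat_lit 0)))
def n3300 : Nd := .arc (nat_lit 3) n3297 (.arc (nat_lit 6) n3298 (.arc (nat_lit 9) n3299 (.fin (nat_lit 807276697) (nat_lit 0))))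
def n3301 : Nd := .arc (nat_lit 26) n3204 (.arc (nat_lit 29) n3204 (.fin (nat_lit 813625495) (nat_lit 0)))
def n3302 : Nd := .arc (nat_lit 3) n3301 (.arc (nat_lit 40) n3203 (.fin (nat_lit 813617305) (nat_lit 0)))
def n3303 : Nd := .arc (nat_lit 38) n3204 (.arc (nat_lit 41) n3204 (.fin (nat_lit 813625497) (nat_lit 0)))
def n3304 : Nd := .arc (nat_lit 3) n3303 (.fin (nat_lit 813617303) (nat_lit 0))
def n3305 : Nd := .arc (nat_lit 6) n3302 (.arc (nat_lit 9) n3304 (.fin (nat_lit 209596573) (nat_lit 0)))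
def n3306 : Nd := .arc (nat_lit 62) n3204 (.arc (nat_lit 65) n3204 (.fin (nat_lit 209645725) (nat_lit 0)))
def n3307 : Nd := .arc (nat_lit 9) n3306 (.fin (nat_lit 813592729) (nat_lit 0))
def n3308 : Nd := .arc (nat_lit 6) n3303 (.fin (nat_lit 209629341) (nat_lit 0))
def n3309 : Nd := .arc (nat_lit 3) n3307 (.arc (nat_lit 6) n3308 (.fin (nat_lit 813600919) (nat_lit 0)))
def n3310 : Nd := .arc (nat_lit 6) n3306 (.fin (nat_lit 813609111) (nat_lit 0))
def n3311 : Nd := .arc (nat_lit 9) n3301 (.arc (nat_lit 64) n3203 (.fin (nat_lit 209612957) (nat_lit 0)))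
def n3312 : Nd := .arc (nat_lit 3) n3310 (.arc (nat_lit 9) n3311 (.fin (nat_lit 813584537) (nat_lit 0)))
def n3313 : Nd := .arc (nat_lit 3) n3305 (.arc (nat_lit 6) n3309 (.arc (nat_lit 9) n3312 (.fin (nat_lit 209588379) (nat_lit 0))))
def n3314 : Nd := .arc (nat_lit 6) n3304 (.arc (nat_lit 9) n3302 (.fin (nat_lit 209596571) (nat_lit 0)))
def n3315 : Nd := .arc (nat_lit 50) n3204 (.arc (nat_lit 53) n3204 (.fin (nat_lit 209645723) (nat_lit 0)))
def n3316 : Nd := .arc (nat_lit 9) n3315 (.fin (nat_lit 813592727) (nat_lit 0))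
def n3317 : Nd := .arc (nat_lit 6) n3301 (.arc (nat_lit 52) n3203 (.fin (nat_lit 209629339) (nat_lit 0)))
def n3318 : Nd := .arc (nat_lit 3) n3316 (.arc (nat_lit 6) n3317 (.fin (nat_lit 813600921) (nat_lit 0)))
def n3319 : Nd := .arc (nat_lit 6) n3315 (.fin (nat_lit 813609113) (nat_lit 0))
def n3320 : Nd := .arc (nat_lit 9) n3303 (.fin (nat_lit 209612955) (nat_lit 0))
def n3321 : Nd := .arc (nat_lit 3) n3319 (.arc (nat_lit 9) n3320 (.fin (nat_lit 813584535) (nat_lit 0)))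
def n3322 : Nd := .arc (nat_lit 3) n3314 (.arc (nat_lit 6) n3318 (.arc (nat_lit 9) n3321 (.fin (nat_lit 209588381) (nat_lit 0))))
def n3323 : Nd := .arc (nat_lit 3) n3306 (.fin (nat_lit 209637531) (nat_lit 0))
def n3324 : Nd := .arc (nat_lit 3) n3315 (.fin (nat_lit 209637533) (nat_lit 0))
def n3325 : Nd := .arc (nat_lit 6) n3323 (.arc (nat_lit 9) n3324 (.fin (nat_lit 813576345) (nat_lit 0)))
def n3326 : Nd := .arc (nat_lit 3) n3320 (.arc (nat_lit 6) n3319 (.fin (nat_lit 209621149) (nat_lit 0)))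
def n3327 : Nd := .arc (nat_lit 3) n3308 (.arc (nat_lit 9) n3307 (.fin (nat_lit 209604763) (nat_lit 0)))
def n3328 : Nd := .arc (nat_lit 3) n3325 (.arc (nat_lit 6) n3326 (.arc (nat_lit 9) n3327 (.fin (nat_lit 813568151) (nat_lit 0))))
def n3329 : Nd := .arc (nat_lit 6) n3324 (.arc (nat_lit 9) n3323 (.fin (nat_lit 813576343) (nat_lit 0)))
def n3330 : Nd := .arc (nat_lit 3) n3311 (.arc (nat_lit 6) n3310 (.fin (nat_lit 209621147) (nat_lit 0)))
def n3331 : Nd := .arc (nat_lit 3) n3317 (.arc (nat_lit 9) n3316 (.fin (nat_lit 209604765) (nat_lit 0)))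
def n3332 : Nd := .arc (nat_lit 3) n3329 (.arc (nat_lit 6) n3330 (.arc (nat_lit 9) n3331 (.fin (nat_lit 813568153) (nat_lit 0))))
def n3333 : Nd := .arc (nat_lit 38) n3313 (.arc (nat_lit 41) n3322 (.arc (nat_lit 44) n3328 (.arc (nat_lit 47) n3332 (.fin (nat_lit 57602203) (nat_lit 0)))))
def n3334 : Nd := .arc (nat_lit 3) n3333 (.fin (nat_lit 58118301) (nat_lit 0))
def n3335 : Nd := .arc (nat_lit 26) n3313 (.arc (nat_lit 29) n3322 (.arc (nat_lit 32) n3332 (.arc (nat_lit 35) n3328 (.fin (nat_lit 58126493) (nat_lit 0)))))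
def n3336 : Nd := .arc (nat_lit 3) n3335 (.arc (nat_lit 40) n3305 (.arc (nat_lit 43) n3309 (.arc (nat_lit 46) n3312 (.fin (nat_lit 57594011) (nat_lit 0)))))
def n3337 : Nd := .arc (nat_lit 6) n3334 (.arc (nat_lit 9) n3336 (.fin (nat_lit 56504471) (nat_lit 0)))
def n3338 : Nd := .arc (nat_lit 50) n3313 (.arc (nat_lit 53) n3322 (.arc (nat_lit 56) n3328 (.arc (nat_lit 59) n3332 (.fin (nat_lit 56553623) (nat_lit 0)))))
def n3339 : Nd := .arc (nat_lit 9) n3338 (.fin (nat_lit 58093725) (nat_lit 0))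
def n3340 : Nd := .arc (nat_lit 6) n3335 (.arc (nat_lit 52) n3305 (.arc (nat_lit 55) n3309 (.arc (nat_lit 58) n3312 (.fin (nat_lit 56537239) (nat_lit 0)))))
def n3341 : Nd := .arc (nat_lit 3) n3339 (.arc (nat_lit 6) n3340 (.fin (nat_lit 57577627) (nat_lit 0)))
def n3342 : Nd := .arc (nat_lit 6) n3338 (.fin (nat_lit 57585819) (nat_lit 0))
def n3343 : Nd := .arc (nat_lit 9) n3333 (.fin (nat_lit 56520855) (nat_lit 0))
def n3344 : Nd := .arc (nat_lit 3) n3342 (.arc (nat_lit 9) n3343 (.fin (nat_lit 58085533) (nat_lit 0)))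
def n3345 : Nd := .arc (nat_lit 3) n3337 (.arc (nat_lit 6) n3341 (.arc (nat_lit 9) n3344 (.fin (nat_lit 54399129) (nat_lit 0))))
def n3346 : Nd := .arc (nat_lit 6) n3336 (.arc (nat_lit 9) n3334 (.fin (nat_lit 54407321) (nat_lit 0)))
def n3347 : Nd := .arc (nat_lit 62) n3313 (.arc (nat_lit 65) n3322 (.arc (nat_lit 68) n3332 (.arc (nat_lit 71) n3328 (.fin (nat_lit 54456473) (nat_lit 0)))))
def n3348 : Nd := .arc (nat_lit 9) n3347 (.fin (nat_lit 57569435) (nat_lit 0))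
def n3349 : Nd := .arc (nat_lit 6) n3333 (.fin (nat_lit 54440089) (nat_lit 0))
def n3350 : Nd := .arc (nat_lit 3) n3348 (.arc (nat_lit 6) n3349 (.fin (nat_lit 58101917) (nat_lit 0)))
def n3351 : Nd := .arc (nat_lit 6) n3347 (.fin (nat_lit 58110109) (nat_lit 0))
def n3352 : Nd := .arc (nat_lit 9) n3335 (.arc (nat_lit 64) n3305 (.arc (nat_lit 67) n3312 (.arc (nat_lit 70) n3309 (.fin (nat_lit 54423705) (nat_lit 0)))))
def n3353 : Nd := .arc (nat_lit 3) n3351 (.arc (nat_lit 9) n3352 (.fin (nat_lit 57561243) (nat_lit 0)))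
def n3354 : Nd := .arc (nat_lit 3) n3346 (.arc (nat_lit 6) n3350 (.arc (nat_lit 9) n3353 (.fin (nat_lit 56496279) (nat_lit 0))))
def n3355 : Nd := .arc (nat_lit 3) n3347 (.fin (nat_lit 56545431) (nat_lit 0))
def n3356 : Nd := .arc (nat_lit 3) n3338 (.fin (nat_lit 54448281) (nat_lit 0))
def n3357 : Nd := .arc (nat_lit 6) n3355 (.arc (nat_lit 9) n3356 (.fin (nat_lit 57553051) (nat_lit 0)))
def n3358 : Nd := .arc (nat_lit 3) n3343 (.arc (nat_lit 6) n3342 (.fin (nat_lit 54431897) (nat_lit 0)))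
def n3359 : Nd := .arc (nat_lit 3) n3349 (.arc (nat_lit 9) n3348 (.fin (nat_lit 56512663) (nat_lit 0)))
def n3360 : Nd := .arc (nat_lit 3) n3357 (.arc (nat_lit 6) n3358 (.arc (nat_lit 9) n3359 (.fin (nat_lit 58069149) (nat_lit 0))))
def n3361 : Nd := .arc (nat_lit 6) n3356 (.arc (nat_lit 9) n3355 (.fin (nat_lit 58077341) (nat_lit 0)))
def n3362 : Nd := .arc (nat_lit 3) n3352 (.arc (nat_lit 6) n3351 (.fin (nat_lit 56529047) (nat_lit 0)))
def n3363 : Nd := .arc (nat_lit 3) n3340 (.arc (nat_lit 9) n3339 (.fin (nat_lit 54415513) (nat_lit 0)))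
def n3364 : Nd := .arc (nat_lit 3) n3361 (.arc (nat_lit 6) n3362 (.arc (nat_lit 9) n3363 (.fin (nat_lit 57544859) (nat_lit 0))))
def n3365 : Nd := .arc (nat_lit 50) n3232 (.arc (nat_lit 53) n3236 (.arc (nat_lit 56) n3217 (.arc (nat_lit 59) n3226 (.fin (nat_lit 811528345) (nat_lit 0)))))
def n3366 : Nd := .arc (nat_lit 3) n3365 (.fin (nat_lit 809422999) (nat_lit 0))
def n3367 : Nd := .arc (nat_lit 62) n3232 (.arc (nat_lit 65) n3236 (.arc (nat_lit 68) n3226 (.arc (nat_lit 71) n3217 (.fin (nat_lit 809431191) (nat_lit 0)))))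
def n3368 : Nd := .arc (nat_lit 3) n3367 (.fin (nat_lit 811520153) (nat_lit 0))
def n3369 : Nd := .arc (nat_lit 6) n3366 (.arc (nat_lit 9) n3368 (.fin (nat_lit 209072283) (nat_lit 0)))
def n3370 : Nd := .arc (nat_lit 26) n3232 (.arc (nat_lit 29) n3236 (.arc (nat_lit 32) n3226 (.arc (nat_lit 35) n3217 (.fin (nat_lit 209121435) (nat_lit 0)))))
def n3371 : Nd := .arc (nat_lit 9) n3370 (.arc (nat_lit 64) n3229 (.arc (nat_lit 67) n3231 (.arc (nat_lit 70) n3230 (.fin (nat_lit 809398423) (nat_lit 0)))))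
def n3372 : Nd := .arc (nat_lit 6) n3367 (.fin (nat_lit 209105051) (nat_lit 0))
def n3373 : Nd := .arc (nat_lit 3) n3371 (.arc (nat_lit 6) n3372 (.fin (nat_lit 811503769) (nat_lit 0)))
def n3374 : Nd := .arc (nat_lit 6) n3370 (.arc (nat_lit 52) n3229 (.arc (nat_lit 55) n3230 (.arc (nat_lit 58) n3231 (.fin (nat_lit 811511961) (nat_lit 0)))))
def n3375 : Nd := .arc (nat_lit 9) n3365 (.fin (nat_lit 209088667) (nat_lit 0))
def n3376 : Nd := .arc (nat_lit 3) n3374 (.arc (nat_lit 9) n3375 (.fin (nat_lit 809390231) (nat_lit 0)))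
def n3377 : Nd := .arc (nat_lit 3) n3369 (.arc (nat_lit 6) n3373 (.arc (nat_lit 9) n3376 (.fin (nat_lit 208539805) (nat_lit 0))))
def n3378 : Nd := .arc (nat_lit 6) n3368 (.arc (nat_lit 9) n3366 (.fin (nat_lit 208547997) (nat_lit 0)))
def n3379 : Nd := .arc (nat_lit 38) n3232 (.arc (nat_lit 41) n3236 (.arc (nat_lit 44) n3217 (.arc (nat_lit 47) n3226 (.fin (nat_lit 208597149) (nat_lit 0)))))
def n3380 : Nd := .arc (nat_lit 9) n3379 (.fin (nat_lit 811495577) (nat_lit 0))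
def n3381 : Nd := .arc (nat_lit 6) n3365 (.fin (nat_lit 208580765) (nat_lit 0))
def n3382 : Nd := .arc (nat_lit 3) n3380 (.arc (nat_lit 6) n3381 (.fin (nat_lit 809406615) (nat_lit 0)))
def n3383 : Nd := .arc (nat_lit 6) n3379 (.fin (nat_lit 809414807) (nat_lit 0))
def n3384 : Nd := .arc (nat_lit 9) n3367 (.fin (nat_lit 208564381) (nat_lit 0))
def n3385 : Nd := .arc (nat_lit 3) n3383 (.arc (nat_lit 9) n3384 (.fin (nat_lit 811487385) (nat_lit 0)))
def n3386 : Nd := .arc (nat_lit 3) n3378 (.arc (nat_lit 6) n3382 (.arc (nat_lit 9) n3385 (.fin (nat_lit 209064091) (nat_lit 0))))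
def n3387 : Nd := .arc (nat_lit 3) n3370 (.arc (nat_lit 40) n3229 (.arc (nat_lit 43) n3230 (.arc (nat_lit 46) n3231 (.fin (nat_lit 208588957) (nat_lit 0)))))
def n3388 : Nd := .arc (nat_lit 3) n3379 (.fin (nat_lit 209113243) (nat_lit 0))
def n3389 : Nd := .arc (nat_lit 6) n3387 (.arc (nat_lit 9) n3388 (.fin (nat_lit 809382039) (nat_lit 0)))
def n3390 : Nd := .arc (nat_lit 3) n3384 (.arc (nat_lit 6) n3383 (.fin (nat_lit 209096859) (nat_lit 0)))
def n3391 : Nd := .arc (nat_lit 3) n3372 (.arc (nat_lit 9) n3371 (.fin (nat_lit 208556189) (nat_lit 0)))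
def n3392 : Nd := .arc (nat_lit 3) n3389 (.arc (nat_lit 6) n3390 (.arc (nat_lit 9) n3391 (.fin (nat_lit 811471001) (nat_lit 0))))
def n3393 : Nd := .arc (nat_lit 6) n3388 (.arc (nat_lit 9) n3387 (.fin (nat_lit 811479193) (nat_lit 0)))
def n3394 : Nd := .arc (nat_lit 3) n3375 (.arc (nat_lit 6) n3374 (.fin (nat_lit 208572573) (nat_lit 0)))
def n3395 : Nd := .arc (nat_lit 3) n3381 (.arc (nat_lit 9) n3380 (.fin (nat_lit 209080475) (nat_lit 0)))
def n3396 : Nd := .arc (nat_lit 3) n3393 (.arc (nat_lit 6) n3394 (.arc (nat_lit 9) n3395 (.fin (nat_lit 809373847) (nat_lit 0))))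
def n3397 : Nd := .arc (nat_lit 14) n3345 (.arc (nat_lit 17) n3354 (.arc (nat_lit 20) n3360 (.arc (nat_lit 23) n3364 (.arc (nat_lit 50) n3377 (.arc (nat_lit 53) n3386 (.arc (nat_lit 56) n3392 (.arc (nat_lit 59) n3396 (.fin (nat_lit 56291481) (nat_lit 0)))))))))
def n3398 : Nd := .arc (nat_lit 3) n3397 (.fin (nat_lit 54186135) (nat_lit 0))
def n3399 : Nd := .arc (nat_lit 14) n3354 (.arc (nat_lit 17) n3345 (.arc (nat_lit 20) n3364 (.arc (nat_lit 23) n3360 (.arc (nat_lit 62) n3377 (.arc (nat_lit 65) n3386 (.arc (nat_lit 68) n3396 (.arc (nat_lit 71) n3392 (.fin (nat_lit 54194327) (nat_lit 0)))))))))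
def n3400 : Nd := .arc (nat_lit 3) n3399 (.fin (nat_lit 56283289) (nat_lit 0))
def n3401 : Nd := .arc (nat_lit 6) n3398 (.arc (nat_lit 9) n3400 (.fin (nat_lit 57815195) (nat_lit 0)))
def n3402 : Nd := .arc (nat_lit 14) n3360 (.arc (nat_lit 17) n3364 (.arc (nat_lit 20) n3354 (.arc (nat_lit 23) n3345 (.arc (nat_lit 26) n3377 (.arc (nat_lit 29) n3386 (.arc (nat_lit 32) n3396 (.arc (nat_lit 35) n3392 (.fin (nat_lit 57864347) (nat_lit 0)))))))))
def n3403 : Nd := .arc (nat_lit 9) n3402 (.arc (nat_lit 64) n3369 (.arc (nat_lit 67) n3376 (.arc (nat_lit 70) n3373 (.fin (nat_lit 54161559) (nat_lit 0)))))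
def n3404 : Nd := .arc (nat_lit 6) n3399 (.fin (nat_lit 57847963) (nat_lit 0))
def n3405 : Nd := .arc (nat_lit 3) n3403 (.arc (nat_lit 6) n3404 (.fin (nat_lit 56266905) (nat_lit 0)))
def n3406 : Nd := .arc (nat_lit 6) n3402 (.arc (nat_lit 52) n3369 (.arc (nat_lit 55) n3373 (.arc (nat_lit 58) n3376 (.fin (nat_lit 56275097) (nat_lit 0)))))
def n3407 : Nd := .arc (nat_lit 9) n3397 (.fin (nat_lit 57831579) (nat_lit 0))
def n3408 : Nd := .arc (nat_lit 3) n3406 (.arc (nat_lit 9) n3407 (.fin (nat_lit 54153367) (nat_lit 0)))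
def n3409 : Nd := .arc (nat_lit 3) n3401 (.arc (nat_lit 6) n3405 (.arc (nat_lit 9) n3408 (.fin (nat_lit 57282717) (nat_lit 0))))
def n3410 : Nd := .arc (nat_lit 6) n3400 (.arc (nat_lit 9) n3398 (.fin (nat_lit 57290909) (nat_lit 0)))
def n3411 : Nd := .arc (nat_lit 14) n3364 (.arc (nat_lit 17) n3360 (.arc (nat_lit 20) n3345 (.arc (nat_lit 23) n3354 (.arc (nat_lit 38) n3377 (.arc (nat_lit 41) n3386 (.arc (nat_lit 44) n3392 (.arc (nat_lit 47) n3396 (.fin (nat_lit 57340061) (nat_lit 0)))))))))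
def n3412 : Nd := .arc (nat_lit 9) n3411 (.fin (nat_lit 56258713) (nat_lit 0))
def n3413 : Nd := .arc (nat_lit 6) n3397 (.fin (nat_lit 57323677) (nat_lit 0))
def n3414 : Nd := .arc (nat_lit 3) n3412 (.arc (nat_lit 6) n3413 (.fin (nat_lit 54169751) (nat_lit 0)))
def n3415 : Nd := .arc (nat_lit 6) n3411 (.fin (nat_lit 54177943) (nat_lit 0))
def n3416 : Nd := .arc (nat_lit 9) n3399 (.fin (nat_lit 57307293) (nat_lit 0))
def n3417 : Nd := .arc (nat_lit 3) n3415 (.arc (nat_lit 9) n3416 (.fin (nat_lit 56250521) (nat_lit 0)))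
def n3418 : Nd := .arc (nat_lit 3) n3410 (.arc (nat_lit 6) n3414 (.arc (nat_lit 9) n3417 (.fin (nat_lit 57807003) (nat_lit 0))))
def n3419 : Nd := .arc (nat_lit 3) n3411 (.fin (nat_lit 57856155) (nat_lit 0))
def n3420 : Nd := .arc (nat_lit 3) n3402 (.arc (nat_lit 40) n3369 (.arc (nat_lit 43) n3373 (.arc (nat_lit 46) n3376 (.fin (nat_lit 57331869) (nat_lit 0)))))
def n3421 : Nd := .arc (nat_lit 6) n3419 (.arc (nat_lit 9) n3420 (.fin (nat_lit 56242329) (nat_lit 0)))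
def n3422 : Nd := .arc (nat_lit 3) n3407 (.arc (nat_lit 6) n3406 (.fin (nat_lit 57315485) (nat_lit 0)))
def n3423 : Nd := .arc (nat_lit 3) n3413 (.arc (nat_lit 9) n3412 (.fin (nat_lit 57823387) (nat_lit 0)))
def n3424 : Nd := .arc (nat_lit 3) n3421 (.arc (nat_lit 6) n3422 (.arc (nat_lit 9) n3423 (.fin (nat_lit 54136983) (nat_lit 0))))
def n3425 : Nd := .arc (nat_lit 6) n3420 (.arc (nat_lit 9) n3419 (.fin (nat_lit 54145175) (nat_lit 0)))
def n3426 : Nd := .arc (nat_lit 3) n3416 (.arc (nat_lit 6) n3415 (.fin (nat_lit 57839771) (nat_lit 0)))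
def n3427 : Nd := .arc (nat_lit 3) n3404 (.arc (nat_lit 9) n3403 (.fin (nat_lit 57299101) (nat_lit 0)))
def n3428 : Nd := .arc (nat_lit 3) n3425 (.arc (nat_lit 6) n3426 (.arc (nat_lit 9) n3427 (.fin (nat_lit 56234137) (nat_lit 0))))
def n3429 : Nd := .arc (nat_lit 38) n3322 (.arc (nat_lit 41) n3313 (.arc (nat_lit 44) n3332 (.arc (nat_lit 47) n3328 (.fin (nat_lit 57602205) (nat_lit 0)))))
def n3430 : Nd := .arc (nat_lit 3) n3429 (.fin (nat_lit 58118299) (nat_lit 0))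
def n3431 : Nd := .arc (nat_lit 26) n3322 (.arc (nat_lit 29) n3313 (.arc (nat_lit 32) n3328 (.arc (nat_lit 35) n3332 (.fin (nat_lit 58126491) (nat_lit 0)))))
def n3432 : Nd := .arc (nat_lit 3) n3431 (.arc (nat_lit 40) n3314 (.arc (nat_lit 43) n3318 (.arc (nat_lit 46) n3321 (.fin (nat_lit 57594013) (nat_lit 0)))))
def n3433 : Nd := .arc (nat_lit 6) n3430 (.arc (nat_lit 9) n3432 (.fin (nat_lit 56504473) (nat_lit 0)))
def n3434 : Nd := .arc (nat_lit 50) n3322 (.arc (nat_lit 53) n3313 (.arc (nat_lit 56) n3332 (.arc (nat_lit 59) n3328 (.fin (nat_lit 56553625) (nat_lit 0)))))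
def n3435 : Nd := .arc (nat_lit 9) n3434 (.fin (nat_lit 58093723) (nat_lit 0))
def n3436 : Nd := .arc (nat_lit 6) n3431 (.arc (nat_lit 52) n3314 (.arc (nat_lit 55) n3318 (.arc (nat_lit 58) n3321 (.fin (nat_lit 56537241) (nat_lit 0)))))
def n3437 : Nd := .arc (nat_lit 3) n3435 (.arc (nat_lit 6) n3436 (.fin (nat_lit 57577629) (nat_lit 0)))
def n3438 : Nd := .arc (nat_lit 6) n3434 (.fin (nat_lit 57585821) (nat_lit 0))
def n3439 : Nd := .arc (nat_lit 9) n3429 (.fin (nat_lit 56520857) (nat_lit 0))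
def n3440 : Nd := .arc (nat_lit 3) n3438 (.arc (nat_lit 9) n3439 (.fin (nat_lit 58085531) (nat_lit 0)))
def n3441 : Nd := .arc (nat_lit 3) n3433 (.arc (nat_lit 6) n3437 (.arc (nat_lit 9) n3440 (.fin (nat_lit 54399127) (nat_lit 0))))
def n3442 : Nd := .arc (nat_lit 6) n3432 (.arc (nat_lit 9) n3430 (.fin (nat_lit 54407319) (nat_lit 0)))
def n3443 : Nd := .arc (nat_lit 62) n3322 (.arc (nat_lit 65) n3313 (.arc (nat_lit 68) n3328 (.arc (nat_lit 71) n3332 (.fin (nat_lit 54456471) (nat_lit 0)))))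
def n3444 : Nd := .arc (nat_lit 9) n3443 (.fin (nat_lit 57569437) (nat_lit 0))
def n3445 : Nd := .arc (nat_lit 6) n3429 (.fin (nat_lit 54440087) (nat_lit 0))
def n3446 : Nd := .arc (nat_lit 3) n3444 (.arc (nat_lit 6) n3445 (.fin (nat_lit 58101915) (nat_lit 0)))
def n3447 : Nd := .arc (nat_lit 6) n3443 (.fin (nat_lit 58110107) (nat_lit 0))
def n3448 : Nd := .arc (nat_lit 9) n3431 (.arc (nat_lit 64) n3314 (.arc (nat_lit 67) n3321 (.arc (nat_lit 70) n3318 (.fin (nat_lit 54423703) (nat_lit 0)))))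
def n3449 : Nd := .arc (nat_lit 3) n3447 (.arc (nat_lit 9) n3448 (.fin (nat_lit 57561245) (nat_lit 0)))
def n3450 : Nd := .arc (nat_lit 3) n3442 (.arc (nat_lit 6) n3446 (.arc (nat_lit 9) n3449 (.fin (nat_lit 56496281) (nat_lit 0))))
def n3451 : Nd := .arc (nat_lit 3) n3443 (.fin (nat_lit 56545433) (nat_lit 0))
def n3452 : Nd := .arc (nat_lit 3) n3434 (.fin (nat_lit 54448279) (nat_lit 0))
def n3453 : Nd := .arc (nat_lit 6) n3451 (.arc (nat_lit 9) n3452 (.fin (nat_lit 57553053) (nat_lit 0)))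
def n3454 : Nd := .arc (nat_lit 3) n3439 (.arc (nat_lit 6) n3438 (.fin (nat_lit 54431895) (nat_lit 0)))
def n3455 : Nd := .arc (nat_lit 3) n3445 (.arc (nat_lit 9) n3444 (.fin (nat_lit 56512665) (nat_lit 0)))
def n3456 : Nd := .arc (nat_lit 3) n3453 (.arc (nat_lit 6) n3454 (.arc (nat_lit 9) n3455 (.fin (nat_lit 58069147) (nat_lit 0))))
def n3457 : Nd := .arc (nat_lit 6) n3452 (.arc (nat_lit 9) n3451 (.fin (nat_lit 58077339) (nat_lit 0)))
def n3458 : Nd := .arc (nat_lit 3) n3448 (.arc (nat_lit 6) n3447 (.fin (nat_lit 56529049) (nat_lit 0)))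
def n3459 : Nd := .arc (nat_lit 3) n3436 (.arc (nat_lit 9) n3435 (.fin (nat_lit 54415511) (nat_lit 0)))
def n3460 : Nd := .arc (nat_lit 3) n3457 (.arc (nat_lit 6) n3458 (.arc (nat_lit 9) n3459 (.fin (nat_lit 57544861) (nat_lit 0))))
def n3461 : Nd := .arc (nat_lit 50) n3236 (.arc (nat_lit 53) n3232 (.arc (nat_lit 56) n3226 (.arc (nat_lit 59) n3217 (.fin (nat_lit 811528343) (nat_lit 0)))))
def n3462 : Nd := .arc (nat_lit 3) n3461 (.fin (nat_lit 809423001) (nat_lit 0))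
def n3463 : Nd := .arc (nat_lit 62) n3236 (.arc (nat_lit 65) n3232 (.arc (nat_lit 68) n3217 (.arc (nat_lit 71) n3226 (.fin (nat_lit 809431193) (nat_lit 0)))))
def n3464 : Nd := .arc (nat_lit 3) n3463 (.fin (nat_lit 811520151) (nat_lit 0))
def n3465 : Nd := .arc (nat_lit 6) n3462 (.arc (nat_lit 9) n3464 (.fin (nat_lit 209072285) (nat_lit 0)))
def n3466 : Nd := .arc (nat_lit 26) n3236 (.arc (nat_lit 29) n3232 (.arc (nat_lit 32) n3217 (.arc (nat_lit 35) n3226 (.fin (nat_lit 209121437) (nat_lit 0)))))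
def n3467 : Nd := .arc (nat_lit 9) n3466 (.arc (nat_lit 64) n3233 (.arc (nat_lit 67) n3235 (.arc (nat_lit 70) n3234 (.fin (nat_lit 809398425) (nat_lit 0)))))
def n3468 : Nd := .arc (nat_lit 6) n3463 (.fin (nat_lit 209105053) (nat_lit 0))
def n3469 : Nd := .arc (nat_lit 3) n3467 (.arc (nat_lit 6) n3468 (.fin (nat_lit 811503767) (nat_lit 0)))
def n3470 : Nd := .arc (nat_lit 6) n3466 (.arc (nat_lit 52) n3233 (.arc (nat_lit 55) n3234 (.arc (nat_lit 58) n3235 (.fin (nat_lit 811511959) (nat_lit 0)))))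
def n3471 : Nd := .arc (nat_lit 9) n3461 (.fin (nat_lit 209088669) (nat_lit 0))
def n3472 : Nd := .arc (nat_lit 3) n3470 (.arc (nat_lit 9) n3471 (.fin (nat_lit 809390233) (nat_lit 0)))
def n3473 : Nd := .arc (nat_lit 3) n3465 (.arc (nat_lit 6) n3469 (.arc (nat_lit 9) n3472 (.fin (nat_lit 208539803) (nat_lit 0))))
def n3474 : Nd := .arc (nat_lit 6) n3464 (.arc (nat_lit 9) n3462 (.fin (nat_lit 208547995) (nat_lit 0)))
def n3475 : Nd := .arc (nat_lit 38) n3236 (.arc (nat_lit 41) n3232 (.arc (nat_lit 44) n3226 (.arc (nat_lit 47) n3217 (.fin (nat_lit 208597147) (nat_lit 0)))))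
def n3476 : Nd := .arc (nat_lit 9) n3475 (.fin (nat_lit 811495575) (nat_lit 0))
def n3477 : Nd := .arc (nat_lit 6) n3461 (.fin (nat_lit 208580763) (nat_lit 0))
def n3478 : Nd := .arc (nat_lit 3) n3476 (.arc (nat_lit 6) n3477 (.fin (nat_lit 809406617) (nat_lit 0)))
def n3479 : Nd := .arc (nat_lit 6) n3475 (.fin (nat_lit 809414809) (nat_lit 0))
def n3480 : Nd := .arc (nat_lit 9) n3463 (.fin (nat_lit 208564379) (nat_lit 0))
def n3481 : Nd := .arc (nat_lit 3) n3479 (.arc (nat_lit 9) n3480 (.fin (nat_lit 811487383) (nat_lit 0)))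
def n3482 : Nd := .arc (nat_lit 3) n3474 (.arc (nat_lit 6) n3478 (.arc (nat_lit 9) n3481 (.fin (nat_lit 209064093) (nat_lit 0))))
def n3483 : Nd := .arc (nat_lit 3) n3466 (.arc (nat_lit 40) n3233 (.arc (nat_lit 43) n3234 (.arc (nat_lit 46) n3235 (.fin (nat_lit 208588955) (nat_lit 0)))))
def n3484 : Nd := .arc (nat_lit 3) n3475 (.fin (nat_lit 209113245) (nat_lit 0))
def n3485 : Nd := .arc (nat_lit 6) n3483 (.arc (nat_lit 9) n3484 (.fin (nat_lit 809382041) (nat_lit 0)))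
def n3486 : Nd := .arc (nat_lit 3) n3480 (.arc (nat_lit 6) n3479 (.fin (nat_lit 209096861) (nat_lit 0)))
def n3487 : Nd := .arc (nat_lit 3) n3468 (.arc (nat_lit 9) n3467 (.fin (nat_lit 208556187) (nat_lit 0)))
def n3488 : Nd := .arc (nat_lit 3) n3485 (.arc (nat_lit 6) n3486 (.arc (nat_lit 9) n3487 (.fin (nat_lit 811470999) (nat_lit 0))))
def n3489 : Nd := .arc (nat_lit 6) n3484 (.arc (nat_lit 9) n3483 (.fin (nat_lit 811479191) (nat_lit 0)))
def n3490 : Nd := .arc (nat_lit 3) n3471 (.arc (nat_lit 6) n3470 (.fin (nat_lit 208572571) (nat_lit 0)))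
def n3491 : Nd := .arc (nat_lit 3) n3477 (.arc (nat_lit 9) n3476 (.fin (nat_lit 209080477) (nat_lit 0)))
def n3492 : Nd := .arc (nat_lit 3) n3489 (.arc (nat_lit 6) n3490 (.arc (nat_lit 9) n3491 (.fin (nat_lit 809373849) (nat_lit 0))))
def n3493 : Nd := .arc (nat_lit 14) n3441 (.arc (nat_lit 17) n3450 (.arc (nat_lit 20) n3456 (.arc (nat_lit 23) n3460 (.arc (nat_lit 50) n3473 (.arc (nat_lit 53) n3482 (.arc (nat_lit 56) n3488 (.arc (nat_lit 59) n3492 (.fin (nat_lit 56291479) (nat_lit 0)))))))))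
def n3494 : Nd := .arc (nat_lit 3) n3493 (.fin (nat_lit 54186137) (nat_lit 0))
def n3495 : Nd := .arc (nat_lit 14) n3450 (.arc (nat_lit 17) n3441 (.arc (nat_lit 20) n3460 (.arc (nat_lit 23) n3456 (.arc (nat_lit 62) n3473 (.arc (nat_lit 65) n3482 (.arc (nat_lit 68) n3492 (.arc (nat_lit 71) n3488 (.fin (nat_lit 54194329) (nat_lit 0)))))))))
def n3496 : Nd := .arc (nat_lit 3) n3495 (.fin (nat_lit 56283287) (nat_lit 0))
def n3497 : Nd := .arc (nat_lit 6) n3494 (.arc (nat_lit 9) n3496 (.fin (nat_lit 57815197) (nat_lit 0)))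
def n3498 : Nd := .arc (nat_lit 14) n3456 (.arc (nat_lit 17) n3460 (.arc (nat_lit 20) n3450 (.arc (nat_lit 23) n3441 (.arc (nat_lit 26) n3473 (.arc (nat_lit 29) n3482 (.arc (nat_lit 32) n3492 (.arc (nat_lit 35) n3488 (.fin (nat_lit 57864349) (nat_lit 0)))))))))
def n3499 : Nd := .arc (nat_lit 9) n3498 (.arc (nat_lit 64) n3465 (.arc (nat_lit 67) n3472 (.arc (nat_lit 70) n3469 (.fin (nat_lit 54161561) (nat_lit 0)))))
def n3500 : Nd := .arc (nat_lit 6) n3495 (.fin (nat_lit 57847965) (nat_lit 0))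
def n3501 : Nd := .arc (nat_lit 3) n3499 (.arc (nat_lit 6) n3500 (.fin (nat_lit 56266903) (nat_lit 0)))
def n3502 : Nd := .arc (nat_lit 6) n3498 (.arc (nat_lit 52) n3465 (.arc (nat_lit 55) n3469 (.arc (nat_lit 58) n3472 (.fin (nat_lit 56275095) (nat_lit 0)))))
def n3503 : Nd := .arc (nat_lit 9) n3493 (.fin (nat_lit 57831581) (nat_lit 0))
def n3504 : Nd := .arc (nat_lit 3) n3502 (.arc (nat_lit 9) n3503 (.fin (nat_lit 54153369) (nat_lit 0)))
def n3505 : Nd := .arc (nat_lit 3) n3497 (.arc (nat_lit 6) n3501 (.arc (nat_lit 9) n3504 (.fin (nat_lit 57282715) (nat_lit 0))))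
def n3506 : Nd := .arc (nat_lit 6) n3496 (.arc (nat_lit 9) n3494 (.fin (nat_lit 57290907) (nat_lit 0)))
def n3507 : Nd := .arc (nat_lit 14) n3460 (.arc (nat_lit 17) n3456 (.arc (nat_lit 20) n3441 (.arc (nat_lit 23) n3450 (.arc (nat_lit 38) n3473 (.arc (nat_lit 41) n3482 (.arc (nat_lit 44) n3488 (.arc (nat_lit 47) n3492 (.fin (nat_lit 57340059) (nat_lit 0)))))))))
def n3508 : Nd := .arc (nat_lit 9) n3507 (.fin (nat_lit 56258711) (nat_lit 0))
def n3509 : Nd := .arc (nat_lit 6) n3493 (.fin (nat_lit 57323675) (nat_lit 0))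
def n3510 : Nd := .arc (nat_lit 3) n3508 (.arc (nat_lit 6) n3509 (.fin (nat_lit 54169753) (nat_lit 0)))
def n3511 : Nd := .arc (nat_lit 6) n3507 (.fin (nat_lit 54177945) (nat_lit 0))
def n3512 : Nd := .arc (nat_lit 9) n3495 (.fin (nat_lit 57307291) (nat_lit 0))
def n3513 : Nd := .arc (nat_lit 3) n3511 (.arc (nat_lit 9) n3512 (.fin (nat_lit 56250519) (nat_lit 0)))
def n3514 : Nd := .arc (nat_lit 3) n3506 (.arc (nat_lit 6) n3510 (.arc (nat_lit 9) n3513 (.fin (nat_lit 57807005) (nat_lit 0))))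
def n3515 : Nd := .arc (nat_lit 3) n3498 (.arc (nat_lit 40) n3465 (.arc (nat_lit 43) n3469 (.arc (nat_lit 46) n3472 (.fin (nat_lit 57331867) (nat_lit 0)))))
def n3516 : Nd := .arc (nat_lit 3) n3507 (.fin (nat_lit 57856157) (nat_lit 0))
def n3517 : Nd := .arc (nat_lit 6) n3515 (.arc (nat_lit 9) n3516 (.fin (nat_lit 54145177) (nat_lit 0)))
def n3518 : Nd := .arc (nat_lit 3) n3512 (.arc (nat_lit 6) n3511 (.fin (nat_lit 57839773) (nat_lit 0)))
def n3519 : Nd := .arc (nat_lit 3) n3500 (.arc (nat_lit 9) n3499 (.fin (nat_lit 57299099) (nat_lit 0)))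
def n3520 : Nd := .arc (nat_lit 3) n3517 (.arc (nat_lit 6) n3518 (.arc (nat_lit 9) n3519 (.fin (nat_lit 56234135) (nat_lit 0))))
def n3521 : Nd := .arc (nat_lit 6) n3516 (.arc (nat_lit 9) n3515 (.fin (nat_lit 56242327) (nat_lit 0)))
def n3522 : Nd := .arc (nat_lit 3) n3503 (.arc (nat_lit 6) n3502 (.fin (nat_lit 57315483) (nat_lit 0)))
def n3523 : Nd := .arc (nat_lit 3) n3509 (.arc (nat_lit 9) n3508 (.fin (nat_lit 57823389) (nat_lit 0)))
def n3524 : Nd := .arc (nat_lit 3) n3521 (.arc (nat_lit 6) n3522 (.arc (nat_lit 9) n3523 (.fin (nat_lit 54136985) (nat_lit 0))))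
def n3525 : Nd := .arc (nat_lit 14) n3281 (.arc (nat_lit 17) n3290 (.arc (nat_lit 20) n3296 (.arc (nat_lit 23) n3300 (.arc (nat_lit 26) n3409 (.arc (nat_lit 29) n3418 (.arc (nat_lit 32) n3424 (.arc (nat_lit 35) n3428 (.arc (nat_lit 38) n3505 (.arc (nat_lit 41) n3514 (.arc (nat_lit 44) n3520 (.arc (nat_lit 47) n3524 (.fin (nat_lit 207810715) (nat_lit 0)))))))))))))
def n3526 : Nd := .arc (nat_lit 3) n3525 (.arc (nat_lit 40) n3401 (.arc (nat_lit 43) n3405 (.arc (nat_lit 46) n3408 (.fin (nat_lit 207802525) (nat_lit 0)))))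
def n3527 : Nd := .arc (nat_lit 14) n3290 (.arc (nat_lit 17) n3281 (.arc (nat_lit 20) n3300 (.arc (nat_lit 23) n3296 (.arc (nat_lit 26) n3505 (.arc (nat_lit 29) n3514 (.arc (nat_lit 32) n3524 (.arc (nat_lit 35) n3520 (.arc (nat_lit 38) n3409 (.arc (nat_lit 41) n3418 (.arc (nat_lit 44) n3428 (.arc (nat_lit 47) n3424 (.fin (nat_lit 207810717) (nat_lit 0)))))))))))))
def n3528 : Nd := .arc (nat_lit 3) n3527 (.arc (nat_lit 40) n3497 (.arc (nat_lit 43) n3501 (.arc (nat_lit 46) n3504 (.fin (nat_lit 207802523) (nat_lit 0)))))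
def n3529 : Nd := .arc (nat_lit 6) n3526 (.arc (nat_lit 9) n3528 (.fin (nat_lit 807022743) (nat_lit 0)))
def n3530 : Nd := .arc (nat_lit 14) n3296 (.arc (nat_lit 17) n3300 (.arc (nat_lit 20) n3290 (.arc (nat_lit 23) n3281 (.arc (nat_lit 50) n3505 (.arc (nat_lit 53) n3514 (.arc (nat_lit 56) n3520 (.arc (nat_lit 59) n3524 (.arc (nat_lit 62) n3409 (.arc (nat_lit 65) n3418 (.arc (nat_lit 68) n3424 (.arc (nat_lit 71) n3428 (.fin (nat_lit 807071895) (nat_lit 0)))))))))))))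
def n3531 : Nd := .arc (nat_lit 9) n3530 (.fin (nat_lit 207777949) (nat_lit 0))
def n3532 : Nd := .arc (nat_lit 6) n3527 (.arc (nat_lit 52) n3497 (.arc (nat_lit 55) n3501 (.arc (nat_lit 58) n3504 (.fin (nat_lit 807055511) (nat_lit 0)))))
def n3533 : Nd := .arc (nat_lit 3) n3531 (.arc (nat_lit 6) n3532 (.fin (nat_lit 207786139) (nat_lit 0)))
def n3534 : Nd := .arc (nat_lit 6) n3530 (.fin (nat_lit 207794331) (nat_lit 0))
def n3535 : Nd := .arc (nat_lit 9) n3525 (.arc (nat_lit 64) n3401 (.arc (nat_lit 67) n3408 (.arc (nat_lit 70) n3405 (.fin (nat_lit 807039127) (nat_lit 0)))))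
def n3536 : Nd := .arc (nat_lit 3) n3534 (.arc (nat_lit 9) n3535 (.fin (nat_lit 207769757) (nat_lit 0)))
def n3537 : Nd := .arc (nat_lit 3) n3529 (.arc (nat_lit 6) n3533 (.arc (nat_lit 9) n3536 (.fin (nat_lit 807014553) (nat_lit 0))))
def n3538 : Nd := .arc (nat_lit 6) n3528 (.arc (nat_lit 9) n3526 (.fin (nat_lit 807022745) (nat_lit 0)))
def n3539 : Nd := .arc (nat_lit 14) n3300 (.arc (nat_lit 17) n3296 (.arc (nat_lit 20) n3281 (.arc (nat_lit 23) n3290 (.arc (nat_lit 50) n3409 (.arc (nat_lit 53) n3418 (.arc (nat_lit 56) n3428 (.arc (nat_lit 59) n3424 (.arc (nat_lit 62) n3505 (.arc (nat_lit 65) n3514 (.arc (nat_lit 68) n3524 (.arc (nat_lit 71) n3520 (.fin (nat_lit 807071897) (nat_lit 0)))))))))))))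
def n3540 : Nd := .arc (nat_lit 9) n3539 (.fin (nat_lit 207777947) (nat_lit 0))
def n3541 : Nd := .arc (nat_lit 6) n3525 (.arc (nat_lit 52) n3401 (.arc (nat_lit 55) n3405 (.arc (nat_lit 58) n3408 (.fin (nat_lit 807055513) (nat_lit 0)))))
def n3542 : Nd := .arc (nat_lit 3) n3540 (.arc (nat_lit 6) n3541 (.fin (nat_lit 207786141) (nat_lit 0)))
def n3543 : Nd := .arc (nat_lit 6) n3539 (.fin (nat_lit 207794333) (nat_lit 0))
def n3544 : Nd := .arc (nat_lit 9) n3527 (.arc (nat_lit 64) n3497 (.arc (nat_lit 67) n3504 (.arc (nat_lit 70) n3501 (.fin (nat_lit 807039129) (nat_lit 0)))))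
def n3545 : Nd := .arc (nat_lit 3) n3543 (.arc (nat_lit 9) n3544 (.fin (nat_lit 207769755) (nat_lit 0)))
def n3546 : Nd := .arc (nat_lit 3) n3538 (.arc (nat_lit 6) n3542 (.arc (nat_lit 9) n3545 (.fin (nat_lit 807014551) (nat_lit 0))))
def n3547 : Nd := .arc (nat_lit 3) n3539 (.fin (nat_lit 807063703) (nat_lit 0))
def n3548 : Nd := .arc (nat_lit 3) n3530 (.fin (nat_lit 807063705) (nat_lit 0))
def n3549 : Nd := .arc (nat_lit 6) n3547 (.arc (nat_lit 9) n3548 (.fin (nat_lit 207761563) (nat_lit 0)))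
def n3550 : Nd := .arc (nat_lit 3) n3535 (.arc (nat_lit 6) n3534 (.fin (nat_lit 807047321) (nat_lit 0)))
def n3551 : Nd := .arc (nat_lit 3) n3541 (.arc (nat_lit 9) n3540 (.fin (nat_lit 807030935) (nat_lit 0)))
def n3552 : Nd := .arc (nat_lit 3) n3549 (.arc (nat_lit 6) n3550 (.arc (nat_lit 9) n3551 (.fin (nat_lit 207753373) (nat_lit 0))))
def n3553 : Nd := .arc (nat_lit 6) n3548 (.arc (nat_lit 9) n3547 (.fin (nat_lit 207761565) (nat_lit 0)))
def n3554 : Nd := .arc (nat_lit 3) n3544 (.arc (nat_lit 6) n3543 (.fin (nat_lit 807047319) (nat_lit 0)))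
def n3555 : Nd := .arc (nat_lit 3) n3532 (.arc (nat_lit 9) n3531 (.fin (nat_lit 807030937) (nat_lit 0)))
def n3556 : Nd := .arc (nat_lit 3) n3553 (.arc (nat_lit 6) n3554 (.arc (nat_lit 9) n3555 (.fin (nat_lit 207753371) (nat_lit 0))))
def n3557 : Nd := .arc (nat_lit 14) n3332 (.arc (nat_lit 17) n3328 (.arc (nat_lit 20) n3322 (.arc (nat_lit 23) n3313 (.fin (nat_lit 813363353) (nat_lit 0)))))
def n3558 : Nd := .arc (nat_lit 3) n3557 (.fin (nat_lit 813355159) (nat_lit 0))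
def n3559 : Nd := .arc (nat_lit 14) n3328 (.arc (nat_lit 17) n3332 (.arc (nat_lit 20) n3313 (.arc (nat_lit 23) n3322 (.fin (nat_lit 813363351) (nat_lit 0)))))
def n3560 : Nd := .arc (nat_lit 3) n3559 (.fin (nat_lit 813355161) (nat_lit 0))
def n3561 : Nd := .arc (nat_lit 6) n3558 (.arc (nat_lit 9) n3560 (.fin (nat_lit 209334427) (nat_lit 0)))
def n3562 : Nd := .arc (nat_lit 14) n3322 (.arc (nat_lit 17) n3313 (.arc (nat_lit 20) n3328 (.arc (nat_lit 23) n3332 (.fin (nat_lit 209383579) (nat_lit 0)))))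
def n3563 : Nd := .arc (nat_lit 9) n3562 (.fin (nat_lit 813330583) (nat_lit 0))
def n3564 : Nd := .arc (nat_lit 6) n3559 (.fin (nat_lit 209367195) (nat_lit 0))
def n3565 : Nd := .arc (nat_lit 3) n3563 (.arc (nat_lit 6) n3564 (.fin (nat_lit 813338777) (nat_lit 0)))
def n3566 : Nd := .arc (nat_lit 6) n3562 (.fin (nat_lit 813346969) (nat_lit 0))
def n3567 : Nd := .arc (nat_lit 9) n3557 (.fin (nat_lit 209350811) (nat_lit 0))
def n3568 : Nd := .arc (nat_lit 3) n3566 (.arc (nat_lit 9) n3567 (.fin (nat_lit 813322391) (nat_lit 0)))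
def n3569 : Nd := .arc (nat_lit 3) n3561 (.arc (nat_lit 6) n3565 (.arc (nat_lit 9) n3568 (.fin (nat_lit 209326237) (nat_lit 0))))
def n3570 : Nd := .arc (nat_lit 6) n3560 (.arc (nat_lit 9) n3558 (.fin (nat_lit 209334429) (nat_lit 0)))
def n3571 : Nd := .arc (nat_lit 14) n3313 (.arc (nat_lit 17) n3322 (.arc (nat_lit 20) n3332 (.arc (nat_lit 23) n3328 (.fin (nat_lit 209383581) (nat_lit 0)))))
def n3572 : Nd := .arc (nat_lit 9) n3571 (.fin (nat_lit 813330585) (nat_lit 0))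
def n3573 : Nd := .arc (nat_lit 6) n3557 (.fin (nat_lit 209367197) (nat_lit 0))
def n3574 : Nd := .arc (nat_lit 3) n3572 (.arc (nat_lit 6) n3573 (.fin (nat_lit 813338775) (nat_lit 0)))
def n3575 : Nd := .arc (nat_lit 6) n3571 (.fin (nat_lit 813346967) (nat_lit 0))
def n3576 : Nd := .arc (nat_lit 9) n3559 (.fin (nat_lit 209350813) (nat_lit 0))
def n3577 : Nd := .arc (nat_lit 3) n3575 (.arc (nat_lit 9) n3576 (.fin (nat_lit 813322393) (nat_lit 0)))
def n3578 : Nd := .arc (nat_lit 3) n3570 (.arc (nat_lit 6) n3574 (.arc (nat_lit 9) n3577 (.fin (nat_lit 209326235) (nat_lit 0))))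
def n3579 : Nd := .arc (nat_lit 3) n3562 (.fin (nat_lit 209375389) (nat_lit 0))
def n3580 : Nd := .arc (nat_lit 3) n3571 (.fin (nat_lit 209375387) (nat_lit 0))
def n3581 : Nd := .arc (nat_lit 6) n3579 (.arc (nat_lit 9) n3580 (.fin (nat_lit 813314199) (nat_lit 0)))
def n3582 : Nd := .arc (nat_lit 3) n3576 (.arc (nat_lit 6) n3575 (.fin (nat_lit 209359003) (nat_lit 0)))
def n3583 : Nd := .arc (nat_lit 3) n3564 (.arc (nat_lit 9) n3563 (.fin (nat_lit 209342621) (nat_lit 0)))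
def n3584 : Nd := .arc (nat_lit 3) n3581 (.arc (nat_lit 6) n3582 (.arc (nat_lit 9) n3583 (.fin (nat_lit 813306009) (nat_lit 0))))
def n3585 : Nd := .arc (nat_lit 6) n3580 (.arc (nat_lit 9) n3579 (.fin (nat_lit 813314201) (nat_lit 0)))
def n3586 : Nd := .arc (nat_lit 3) n3567 (.arc (nat_lit 6) n3566 (.fin (nat_lit 209359005) (nat_lit 0)))
def n3587 : Nd := .arc (nat_lit 3) n3573 (.arc (nat_lit 9) n3572 (.fin (nat_lit 209342619) (nat_lit 0)))
def n3588 : Nd := .arc (nat_lit 3) n3585 (.arc (nat_lit 6) n3586 (.arc (nat_lit 9) n3587 (.fin (nat_lit 813306007) (nat_lit 0))))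
def n3589 : Nd := .arc (nat_lit 50) n3569 (.arc (nat_lit 53) n3578 (.arc (nat_lit 56) n3584 (.arc (nat_lit 59) n3588 (.arc (nat_lit 62) n3578 (.arc (nat_lit 65) n3569 (.arc (nat_lit 68) n3584 (.arc (nat_lit 71) n3588 (.fin (nat_lit 52359321) (nat_lit 0)))))))))
def n3590 : Nd := .arc (nat_lit 3) n3589 (.fin (nat_lit 52351127) (nat_lit 0))
def n3591 : Nd := .arc (nat_lit 50) n3578 (.arc (nat_lit 53) n3569 (.arc (nat_lit 56) n3588 (.arc (nat_lit 59) n3584 (.arc (nat_lit 62) n3569 (.arc (nat_lit 65) n3578 (.arc (nat_lit 68) n3588 (.arc (nat_lit 71) n3584 (.fin (nat_lit 52359319) (nat_lit 0)))))))))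
def n3592 : Nd := .arc (nat_lit 3) n3591 (.fin (nat_lit 52351129) (nat_lit 0))
def n3593 : Nd := .arc (nat_lit 6) n3590 (.arc (nat_lit 9) n3592 (.fin (nat_lit 57028763) (nat_lit 0)))
def n3594 : Nd := .arc (nat_lit 26) n3569 (.arc (nat_lit 29) n3578 (.arc (nat_lit 32) n3588 (.arc (nat_lit 35) n3584 (.arc (nat_lit 38) n3578 (.arc (nat_lit 41) n3569 (.arc (nat_lit 44) n3588 (.arc (nat_lit 47) n3584 (.fin (nat_lit 57077915) (nat_lit 0)))))))))
def n3595 : Nd := .arc (nat_lit 9) n3594 (.arc (nat_lit 64) n3561 (.arc (nat_lit 67) n3568 (.arc (nat_lit 70) n3565 (.fin (nat_lit 52326551) (nat_lit 0)))))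
def n3596 : Nd := .arc (nat_lit 6) n3591 (.fin (nat_lit 57061531) (nat_lit 0))
def n3597 : Nd := .arc (nat_lit 3) n3595 (.arc (nat_lit 6) n3596 (.fin (nat_lit 52334745) (nat_lit 0)))
def n3598 : Nd := .arc (nat_lit 6) n3594 (.arc (nat_lit 52) n3561 (.arc (nat_lit 55) n3565 (.arc (nat_lit 58) n3568 (.fin (nat_lit 52342937) (nat_lit 0)))))
def n3599 : Nd := .arc (nat_lit 9) n3589 (.fin (nat_lit 57045147) (nat_lit 0))
def n3600 : Nd := .arc (nat_lit 3) n3598 (.arc (nat_lit 9) n3599 (.fin (nat_lit 52318359) (nat_lit 0)))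
def n3601 : Nd := .arc (nat_lit 3) n3593 (.arc (nat_lit 6) n3597 (.arc (nat_lit 9) n3600 (.fin (nat_lit 57020573) (nat_lit 0))))
def n3602 : Nd := .arc (nat_lit 6) n3592 (.arc (nat_lit 9) n3590 (.fin (nat_lit 57028765) (nat_lit 0)))
def n3603 : Nd := .arc (nat_lit 26) n3578 (.arc (nat_lit 29) n3569 (.arc (nat_lit 32) n3584 (.arc (nat_lit 35) n3588 (.arc (nat_lit 38) n3569 (.arc (nat_lit 41) n3578 (.arc (nat_lit 44) n3584 (.arc (nat_lit 47) n3588 (.fin (nat_lit 57077917) (nat_lit 0)))))))))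
def n3604 : Nd := .arc (nat_lit 9) n3603 (.arc (nat_lit 64) n3570 (.arc (nat_lit 67) n3577 (.arc (nat_lit 70) n3574 (.fin (nat_lit 52326553) (nat_lit 0)))))
def n3605 : Nd := .arc (nat_lit 6) n3589 (.fin (nat_lit 57061533) (nat_lit 0))
def n3606 : Nd := .arc (nat_lit 3) n3604 (.arc (nat_lit 6) n3605 (.fin (nat_lit 52334743) (nat_lit 0)))
def n3607 : Nd := .arc (nat_lit 6) n3603 (.arc (nat_lit 52) n3570 (.arc (nat_lit 55) n3574 (.arc (nat_lit 58) n3577 (.fin (nat_lit 52342935) (nat_lit 0)))))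
def n3608 : Nd := .arc (nat_lit 9) n3591 (.fin (nat_lit 57045149) (nat_lit 0))
def n3609 : Nd := .arc (nat_lit 3) n3607 (.arc (nat_lit 9) n3608 (.fin (nat_lit 52318361) (nat_lit 0)))
def n3610 : Nd := .arc (nat_lit 3) n3602 (.arc (nat_lit 6) n3606 (.arc (nat_lit 9) n3609 (.fin (nat_lit 57020571) (nat_lit 0))))
def n3611 : Nd := .arc (nat_lit 3) n3603 (.arc (nat_lit 40) n3570 (.arc (nat_lit 43) n3574 (.arc (nat_lit 46) n3577 (.fin (nat_lit 57069723) (nat_lit 0)))))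
def n3612 : Nd := .arc (nat_lit 3) n3594 (.arc (nat_lit 40) n3561 (.arc (nat_lit 43) n3565 (.arc (nat_lit 46) n3568 (.fin (nat_lit 57069725) (nat_lit 0)))))
def n3613 : Nd := .arc (nat_lit 6) n3611 (.arc (nat_lit 9) n3612 (.fin (nat_lit 52310169) (nat_lit 0)))
def n3614 : Nd := .arc (nat_lit 3) n3599 (.arc (nat_lit 6) n3598 (.fin (nat_lit 57053341) (nat_lit 0)))
def n3615 : Nd := .arc (nat_lit 3) n3605 (.arc (nat_lit 9) n3604 (.fin (nat_lit 57036955) (nat_lit 0)))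
def n3616 : Nd := .arc (nat_lit 3) n3613 (.arc (nat_lit 6) n3614 (.arc (nat_lit 9) n3615 (.fin (nat_lit 52301975) (nat_lit 0))))
def n3617 : Nd := .arc (nat_lit 6) n3612 (.arc (nat_lit 9) n3611 (.fin (nat_lit 52310167) (nat_lit 0)))
def n3618 : Nd := .arc (nat_lit 3) n3608 (.arc (nat_lit 6) n3607 (.fin (nat_lit 57053339) (nat_lit 0)))
def n3619 : Nd := .arc (nat_lit 3) n3596 (.arc (nat_lit 9) n3595 (.fin (nat_lit 57036957) (nat_lit 0)))
def n3620 : Nd := .arc (nat_lit 3) n3617 (.arc (nat_lit 6) n3618 (.arc (nat_lit 9) n3619 (.fin (nat_lit 52301977) (nat_lit 0))))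
def n3621 : Nd := .arc (nat_lit 14) n3492 (.arc (nat_lit 17) n3488 (.arc (nat_lit 20) n3482 (.arc (nat_lit 23) n3473 (.arc (nat_lit 50) n3460 (.arc (nat_lit 53) n3456 (.arc (nat_lit 56) n3450 (.arc (nat_lit 59) n3441 (.fin (nat_lit 811266201) (nat_lit 0)))))))))
def n3622 : Nd := .arc (nat_lit 3) n3621 (.fin (nat_lit 809160855) (nat_lit 0))
def n3623 : Nd := .arc (nat_lit 14) n3488 (.arc (nat_lit 17) n3492 (.arc (nat_lit 20) n3473 (.arc (nat_lit 23) n3482 (.arc (nat_lit 62) n3460 (.arc (nat_lit 65) n3456 (.arc (nat_lit 68) n3441 (.arc (nat_lit 71) n3450 (.fin (nat_lit 809169047) (nat_lit 0)))))))))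
def n3624 : Nd := .arc (nat_lit 3) n3623 (.fin (nat_lit 811258009) (nat_lit 0))
def n3625 : Nd := .arc (nat_lit 6) n3622 (.arc (nat_lit 9) n3624 (.fin (nat_lit 208810139) (nat_lit 0)))
def n3626 : Nd := .arc (nat_lit 14) n3482 (.arc (nat_lit 17) n3473 (.arc (nat_lit 20) n3488 (.arc (nat_lit 23) n3492 (.arc (nat_lit 26) n3460 (.arc (nat_lit 29) n3456 (.arc (nat_lit 32) n3441 (.arc (nat_lit 35) n3450 (.fin (nat_lit 208859291) (nat_lit 0)))))))))
def n3627 : Nd := .arc (nat_lit 9) n3626 (.arc (nat_lit 64) n3457 (.arc (nat_lit 67) n3459 (.arc (nat_lit 70) n3458 (.fin (nat_lit 809136279) (nat_lit 0)))))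
def n3628 : Nd := .arc (nat_lit 6) n3623 (.fin (nat_lit 208842907) (nat_lit 0))
def n3629 : Nd := .arc (nat_lit 3) n3627 (.arc (nat_lit 6) n3628 (.fin (nat_lit 811241625) (nat_lit 0)))
def n3630 : Nd := .arc (nat_lit 6) n3626 (.arc (nat_lit 52) n3457 (.arc (nat_lit 55) n3458 (.arc (nat_lit 58) n3459 (.fin (nat_lit 811249817) (nat_lit 0)))))
def n3631 : Nd := .arc (nat_lit 9) n3621 (.fin (nat_lit 208826523) (nat_lit 0))
def n3632 : Nd := .arc (nat_lit 3) n3630 (.arc (nat_lit 9) n3631 (.fin (nat_lit 809128087) (nat_lit 0)))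
def n3633 : Nd := .arc (nat_lit 3) n3625 (.arc (nat_lit 6) n3629 (.arc (nat_lit 9) n3632 (.fin (nat_lit 208277661) (nat_lit 0))))
def n3634 : Nd := .arc (nat_lit 6) n3624 (.arc (nat_lit 9) n3622 (.fin (nat_lit 208285853) (nat_lit 0)))
def n3635 : Nd := .arc (nat_lit 14) n3473 (.arc (nat_lit 17) n3482 (.arc (nat_lit 20) n3492 (.arc (nat_lit 23) n3488 (.arc (nat_lit 38) n3460 (.arc (nat_lit 41) n3456 (.arc (nat_lit 44) n3450 (.arc (nat_lit 47) n3441 (.fin (nat_lit 208335005) (nat_lit 0)))))))))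
def n3636 : Nd := .arc (nat_lit 9) n3635 (.fin (nat_lit 811233433) (nat_lit 0))
def n3637 : Nd := .arc (nat_lit 6) n3621 (.fin (nat_lit 208318621) (nat_lit 0))
def n3638 : Nd := .arc (nat_lit 3) n3636 (.arc (nat_lit 6) n3637 (.fin (nat_lit 809144471) (nat_lit 0)))
def n3639 : Nd := .arc (nat_lit 6) n3635 (.fin (nat_lit 809152663) (nat_lit 0))
def n3640 : Nd := .arc (nat_lit 9) n3623 (.fin (nat_lit 208302237) (nat_lit 0))
def n3641 : Nd := .arc (nat_lit 3) n3639 (.arc (nat_lit 9) n3640 (.fin (nat_lit 811225241) (nat_lit 0)))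
def n3642 : Nd := .arc (nat_lit 3) n3634 (.arc (nat_lit 6) n3638 (.arc (nat_lit 9) n3641 (.fin (nat_lit 208801947) (nat_lit 0))))
def n3643 : Nd := .arc (nat_lit 3) n3635 (.fin (nat_lit 208851099) (nat_lit 0))
def n3644 : Nd := .arc (nat_lit 3) n3626 (.arc (nat_lit 40) n3457 (.arc (nat_lit 43) n3458 (.arc (nat_lit 46) n3459 (.fin (nat_lit 208326813) (nat_lit 0)))))
def n3645 : Nd := .arc (nat_lit 6) n3643 (.arc (nat_lit 9) n3644 (.fin (nat_lit 811217049) (nat_lit 0)))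
def n3646 : Nd := .arc (nat_lit 3) n3631 (.arc (nat_lit 6) n3630 (.fin (nat_lit 208310429) (nat_lit 0)))
def n3647 : Nd := .arc (nat_lit 3) n3637 (.arc (nat_lit 9) n3636 (.fin (nat_lit 208818331) (nat_lit 0)))
def n3648 : Nd := .arc (nat_lit 3) n3645 (.arc (nat_lit 6) n3646 (.arc (nat_lit 9) n3647 (.fin (nat_lit 809111703) (nat_lit 0))))
def n3649 : Nd := .arc (nat_lit 6) n3644 (.arc (nat_lit 9) n3643 (.fin (nat_lit 809119895) (nat_lit 0)))
def n3650 : Nd := .arc (nat_lit 3) n3640 (.arc (nat_lit 6) n3639 (.fin (nat_lit 208834715) (nat_lit 0)))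
def n3651 : Nd := .arc (nat_lit 3) n3628 (.arc (nat_lit 9) n3627 (.fin (nat_lit 208294045) (nat_lit 0)))
def n3652 : Nd := .arc (nat_lit 3) n3649 (.arc (nat_lit 6) n3650 (.arc (nat_lit 9) n3651 (.fin (nat_lit 811208857) (nat_lit 0))))
def n3653 : Nd := .arc (nat_lit 14) n3396 (.arc (nat_lit 17) n3392 (.arc (nat_lit 20) n3386 (.arc (nat_lit 23) n3377 (.arc (nat_lit 50) n3364 (.arc (nat_lit 53) n3360 (.arc (nat_lit 56) n3354 (.arc (nat_lit 59) n3345 (.fin (nat_lit 811266199) (nat_lit 0)))))))))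
def n3654 : Nd := .arc (nat_lit 3) n3653 (.fin (nat_lit 809160857) (nat_lit 0))
def n3655 : Nd := .arc (nat_lit 14) n3392 (.arc (nat_lit 17) n3396 (.arc (nat_lit 20) n3377 (.arc (nat_lit 23) n3386 (.arc (nat_lit 62) n3364 (.arc (nat_lit 65) n3360 (.arc (nat_lit 68) n3345 (.arc (nat_lit 71) n3354 (.fin (nat_lit 809169049) (nat_lit 0)))))))))
def n3656 : Nd := .arc (nat_lit 3) n3655 (.fin (nat_lit 811258007) (nat_lit 0))
def n3657 : Nd := .arc (nat_lit 6) n3654 (.arc (nat_lit 9) n3656 (.fin (nat_lit 208810141) (nat_lit 0)))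
def n3658 : Nd := .arc (nat_lit 14) n3386 (.arc (nat_lit 17) n3377 (.arc (nat_lit 20) n3392 (.arc (nat_lit 23) n3396 (.arc (nat_lit 26) n3364 (.arc (nat_lit 29) n3360 (.arc (nat_lit 32) n3345 (.arc (nat_lit 35) n3354 (.fin (nat_lit 208859293) (nat_lit 0)))))))))
def n3659 : Nd := .arc (nat_lit 9) n3658 (.arc (nat_lit 64) n3361 (.arc (nat_lit 67) n3363 (.arc (nat_lit 70) n3362 (.fin (nat_lit 809136281) (nat_lit 0)))))
def n3660 : Nd := .arc (nat_lit 6) n3655 (.fin (nat_lit 208842909) (nat_lit 0))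
def n3661 : Nd := .arc (nat_lit 3) n3659 (.arc (nat_lit 6) n3660 (.fin (nat_lit 811241623) (nat_lit 0)))
def n3662 : Nd := .arc (nat_lit 6) n3658 (.arc (nat_lit 52) n3361 (.arc (nat_lit 55) n3362 (.arc (nat_lit 58) n3363 (.fin (nat_lit 811249815) (nat_lit 0)))))
def n3663 : Nd := .arc (nat_lit 9) n3653 (.fin (nat_lit 208826525) (nat_lit 0))
def n3664 : Nd := .arc (nat_lit 3) n3662 (.arc (nat_lit 9) n3663 (.fin (nat_lit 809128089) (nat_lit 0)))
def n3665 : Nd := .arc (nat_lit 3) n3657 (.arc (nat_lit 6) n3661 (.arc (nat_lit 9) n3664 (.fin (nat_lit 208277659) (nat_lit 0))))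
def n3666 : Nd := .arc (nat_lit 6) n3656 (.arc (nat_lit 9) n3654 (.fin (nat_lit 208285851) (nat_lit 0)))
def n3667 : Nd := .arc (nat_lit 14) n3377 (.arc (nat_lit 17) n3386 (.arc (nat_lit 20) n3396 (.arc (nat_lit 23) n3392 (.arc (nat_lit 38) n3364 (.arc (nat_lit 41) n3360 (.arc (nat_lit 44) n3354 (.arc (nat_lit 47) n3345 (.fin (nat_lit 208335003) (nat_lit 0)))))))))
def n3668 : Nd := .arc (nat_lit 9) n3667 (.fin (nat_lit 811233431) (nat_lit 0))
def n3669 : Nd := .arc (nat_lit 6) n3653 (.fin (nat_lit 208318619) (nat_lit 0))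
def n3670 : Nd := .arc (nat_lit 3) n3668 (.arc (nat_lit 6) n3669 (.fin (nat_lit 809144473) (nat_lit 0)))
def n3671 : Nd := .arc (nat_lit 6) n3667 (.fin (nat_lit 809152665) (nat_lit 0))
def n3672 : Nd := .arc (nat_lit 9) n3655 (.fin (nat_lit 208302235) (nat_lit 0))
def n3673 : Nd := .arc (nat_lit 3) n3671 (.arc (nat_lit 9) n3672 (.fin (nat_lit 811225239) (nat_lit 0)))
def n3674 : Nd := .arc (nat_lit 3) n3666 (.arc (nat_lit 6) n3670 (.arc (nat_lit 9) n3673 (.fin (nat_lit 208801949) (nat_lit 0))))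
def n3675 : Nd := .arc (nat_lit 3) n3658 (.arc (nat_lit 40) n3361 (.arc (nat_lit 43) n3362 (.arc (nat_lit 46) n3363 (.fin (nat_lit 208326811) (nat_lit 0)))))
def n3676 : Nd := .arc (nat_lit 3) n3667 (.fin (nat_lit 208851101) (nat_lit 0))
def n3677 : Nd := .arc (nat_lit 6) n3675 (.arc (nat_lit 9) n3676 (.fin (nat_lit 809119897) (nat_lit 0)))
def n3678 : Nd := .arc (nat_lit 3) n3672 (.arc (nat_lit 6) n3671 (.fin (nat_lit 208834717) (nat_lit 0)))
def n3679 : Nd := .arc (nat_lit 3) n3660 (.arc (nat_lit 9) n3659 (.fin (nat_lit 208294043) (nat_lit 0)))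
def n3680 : Nd := .arc (nat_lit 3) n3677 (.arc (nat_lit 6) n3678 (.arc (nat_lit 9) n3679 (.fin (nat_lit 811208855) (nat_lit 0))))
def n3681 : Nd := .arc (nat_lit 6) n3676 (.arc (nat_lit 9) n3675 (.fin (nat_lit 811217047) (nat_lit 0)))
def n3682 : Nd := .arc (nat_lit 3) n3663 (.arc (nat_lit 6) n3662 (.fin (nat_lit 208310427) (nat_lit 0)))
def n3683 : Nd := .arc (nat_lit 3) n3669 (.arc (nat_lit 9) n3668 (.fin (nat_lit 208818333) (nat_lit 0)))
def n3684 : Nd := .arc (nat_lit 3) n3681 (.arc (nat_lit 6) n3682 (.arc (nat_lit 9) n3683 (.fin (nat_lit 809111705) (nat_lit 0))))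
def n3685 : Nd := .arc (nat_lit 14) n3601 (.arc (nat_lit 17) n3610 (.arc (nat_lit 20) n3616 (.arc (nat_lit 23) n3620 (.arc (nat_lit 26) n3633 (.arc (nat_lit 29) n3642 (.arc (nat_lit 32) n3648 (.arc (nat_lit 35) n3652 (.arc (nat_lit 38) n3665 (.arc (nat_lit 41) n3674 (.arc (nat_lit 44) n3680 (.arc (nat_lit 47) n3684 (.fin (nat_lit 56815771) (nat_lit 0)))))))))))))
def n3686 : Nd := .arc (nat_lit 3) n3685 (.arc (nat_lit 40) n3625 (.arc (nat_lit 43) n3629 (.arc (nat_lit 46) n3632 (.fin (nat_lit 56807581) (nat_lit 0)))))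
def n3687 : Nd := .arc (nat_lit 14) n3610 (.arc (nat_lit 17) n3601 (.arc (nat_lit 20) n3620 (.arc (nat_lit 23) n3616 (.arc (nat_lit 26) n3665 (.arc (nat_lit 29) n3674 (.arc (nat_lit 32) n3684 (.arc (nat_lit 35) n3680 (.arc (nat_lit 38) n3633 (.arc (nat_lit 41) n3642 (.arc (nat_lit 44) n3652 (.arc (nat_lit 47) n3648 (.fin (nat_lit 56815773) (nat_lit 0)))))))))))))
def n3688 : Nd := .arc (nat_lit 3) n3687 (.arc (nat_lit 40) n3657 (.arc (nat_lit 43) n3661 (.arc (nat_lit 46) n3664 (.fin (nat_lit 56807579) (nat_lit 0)))))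
def n3689 : Nd := .arc (nat_lit 6) n3686 (.arc (nat_lit 9) n3688 (.fin (nat_lit 52048023) (nat_lit 0)))
def n3690 : Nd := .arc (nat_lit 14) n3616 (.arc (nat_lit 17) n3620 (.arc (nat_lit 20) n3610 (.arc (nat_lit 23) n3601 (.arc (nat_lit 50) n3665 (.arc (nat_lit 53) n3674 (.arc (nat_lit 56) n3680 (.arc (nat_lit 59) n3684 (.arc (nat_lit 62) n3633 (.arc (nat_lit 65) n3642 (.arc (nat_lit 68) n3648 (.arc (nat_lit 71) n3652 (.fin (nat_lit 52097175) (nat_lit 0)))))))))))))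
def n3691 : Nd := .arc (nat_lit 9) n3690 (.fin (nat_lit 56783005) (nat_lit 0))
def n3692 : Nd := .arc (nat_lit 6) n3687 (.arc (nat_lit 52) n3657 (.arc (nat_lit 55) n3661 (.arc (nat_lit 58) n3664 (.fin (nat_lit 52080791) (nat_lit 0)))))
def n3693 : Nd := .arc (nat_lit 3) n3691 (.arc (nat_lit 6) n3692 (.fin (nat_lit 56791195) (nat_lit 0)))
def n3694 : Nd := .arc (nat_lit 6) n3690 (.fin (nat_lit 56799387) (nat_lit 0))
def n3695 : Nd := .arc (nat_lit 9) n3685 (.arc (nat_lit 64) n3625 (.arc (nat_lit 67) n3632 (.arc (nat_lit 70) n3629 (.fin (nat_lit 52064407) (nat_lit 0)))))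
def n3696 : Nd := .arc (nat_lit 3) n3694 (.arc (nat_lit 9) n3695 (.fin (nat_lit 56774813) (nat_lit 0)))
def n3697 : Nd := .arc (nat_lit 3) n3689 (.arc (nat_lit 6) n3693 (.arc (nat_lit 9) n3696 (.fin (nat_lit 52039833) (nat_lit 0))))
def n3698 : Nd := .arc (nat_lit 6) n3688 (.arc (nat_lit 9) n3686 (.fin (nat_lit 52048025) (nat_lit 0)))
def n3699 : Nd := .arc (nat_lit 14) n3620 (.arc (nat_lit 17) n3616 (.arc (nat_lit 20) n3601 (.arc (nat_lit 23) n3610 (.arc (nat_lit 50) n3633 (.arc (nat_lit 53) n3642 (.arc (nat_lit 56) n3652 (.arc (nat_lit 59) n3648 (.arc (nat_lit 62) n3665 (.arc (nat_lit 65) n3674 (.arc (nat_lit 68) n3684 (.arc (nat_lit 71) n3680 (.fin (nat_lit 52097177) (nat_lit 0)))))))))))))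
def n3700 : Nd := .arc (nat_lit 9) n3699 (.fin (nat_lit 56783003) (nat_lit 0))
def n3701 : Nd := .arc (nat_lit 6) n3685 (.arc (nat_lit 52) n3625 (.arc (nat_lit 55) n3629 (.arc (nat_lit 58) n3632 (.fin (nat_lit 52080793) (nat_lit 0)))))
def n3702 : Nd := .arc (nat_lit 3) n3700 (.arc (nat_lit 6) n3701 (.fin (nat_lit 56791197) (nat_lit 0)))
def n3703 : Nd := .arc (nat_lit 6) n3699 (.fin (nat_lit 56799389) (nat_lit 0))
def n3704 : Nd := .arc (nat_lit 9) n3687 (.arc (nat_lit 64) n3657 (.arc (nat_lit 67) n3664 (.arc (nat_lit 70) n3661 (.fin (nat_lit 52064409) (nat_lit 0)))))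
def n3705 : Nd := .arc (nat_lit 3) n3703 (.arc (nat_lit 9) n3704 (.fin (nat_lit 56774811) (nat_lit 0)))
def n3706 : Nd := .arc (nat_lit 3) n3698 (.arc (nat_lit 6) n3702 (.arc (nat_lit 9) n3705 (.fin (nat_lit 52039831) (nat_lit 0))))
def n3707 : Nd := .arc (nat_lit 3) n3690 (.fin (nat_lit 52088985) (nat_lit 0))
def n3708 : Nd := .arc (nat_lit 3) n3699 (.fin (nat_lit 52088983) (nat_lit 0))
def n3709 : Nd := .arc (nat_lit 6) n3707 (.arc (nat_lit 9) n3708 (.fin (nat_lit 56766621) (nat_lit 0)))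
def n3710 : Nd := .arc (nat_lit 3) n3704 (.arc (nat_lit 6) n3703 (.fin (nat_lit 52072599) (nat_lit 0)))
def n3711 : Nd := .arc (nat_lit 3) n3692 (.arc (nat_lit 9) n3691 (.fin (nat_lit 52056217) (nat_lit 0)))
def n3712 : Nd := .arc (nat_lit 3) n3709 (.arc (nat_lit 6) n3710 (.arc (nat_lit 9) n3711 (.fin (nat_lit 56758427) (nat_lit 0))))
def n3713 : Nd := .arc (nat_lit 6) n3708 (.arc (nat_lit 9) n3707 (.fin (nat_lit 56766619) (nat_lit 0)))
def n3714 : Nd := .arc (nat_lit 3) n3695 (.arc (nat_lit 6) n3694 (.fin (nat_lit 52072601) (nat_lit 0)))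
def n3715 : Nd := .arc (nat_lit 3) n3701 (.arc (nat_lit 9) n3700 (.fin (nat_lit 52056215) (nat_lit 0)))
def n3716 : Nd := .arc (nat_lit 3) n3713 (.arc (nat_lit 6) n3714 (.arc (nat_lit 9) n3715 (.fin (nat_lit 56758429) (nat_lit 0))))
def n3717 : Nd := .arc (nat_lit 26) n3537 (.arc (nat_lit 29) n3546 (.arc (nat_lit 32) n3552 (.arc (nat_lit 35) n3556 (.arc (nat_lit 38) n3537 (.arc (nat_lit 41) n3546 (.arc (nat_lit 44) n3556 (.arc (nat_lit 47) n3552 (.arc (nat_lit 50) n3697 (.arc (nat_lit 53) n3706 (.arc (nat_lit 56) n3712 (.arc (nat_lit 59) n3716 (.arc (nat_lit 62) n3697 (.arc (nat_lit 65) n3706 (.arc (nat_lit 68) n3716 (.arc (nat_lit 71) n3712 (.fin (nat_lit 805761173) (nat_lit 0)))))))))))))))))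
def n3718 : Nd := .arc (nat_lit 3) n3717 (.arc (nat_lit 40) n3529 (.arc (nat_lit 43) n3533 (.arc (nat_lit 46) n3536 (.fin (nat_lit 805752981) (nat_lit 0)))))
def n3719 : Nd := .arc (nat_lit 6) n3718 (.arc (nat_lit 9) n3718 (.fin (nat_lit 201732245) (nat_lit 0)))
def n3720 : Nd := .arc (nat_lit 26) n3697 (.arc (nat_lit 29) n3706 (.arc (nat_lit 32) n3716 (.arc (nat_lit 35) n3712 (.arc (nat_lit 38) n3697 (.arc (nat_lit 41) n3706 (.arc (nat_lit 44) n3712 (.arc (nat_lit 47) n3716 (.arc (nat_lit 50) n3537 (.arc (nat_lit 53) n3546 (.arc (nat_lit 56) n3556 (.arc (nat_lit 59) n3552 (.arc (nat_lit 62) n3537 (.arc (nat_lit 65) n3546 (.arc (nat_lit 68) n3552 (.arc (nat_lit 71) n3556 (.fin (nat_lit 201781397) (nat_lit 0)))))))))))))))))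
def n3721 : Nd := .arc (nat_lit 9) n3720 (.arc (nat_lit 64) n3689 (.arc (nat_lit 67) n3696 (.arc (nat_lit 70) n3693 (.fin (nat_lit 805728405) (nat_lit 0)))))
def n3722 : Nd := .arc (nat_lit 6) n3717 (.arc (nat_lit 52) n3529 (.arc (nat_lit 55) n3533 (.arc (nat_lit 58) n3536 (.fin (nat_lit 201765013) (nat_lit 0)))))
def n3723 : Nd := .arc (nat_lit 3) n3721 (.arc (nat_lit 6) n3722 (.fin (nat_lit 805736597) (nat_lit 0)))
def n3724 : Nd := .arc (nat_lit 6) n3720 (.arc (nat_lit 52) n3689 (.arc (nat_lit 55) n3693 (.arc (nat_lit 58) n3696 (.fin (nat_lit 805744789) (nat_lit 0)))))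
def n3725 : Nd := .arc (nat_lit 9) n3717 (.arc (nat_lit 64) n3529 (.arc (nat_lit 67) n3536 (.arc (nat_lit 70) n3533 (.fin (nat_lit 201748629) (nat_lit 0)))))
def n3726 : Nd := .arc (nat_lit 3) n3724 (.arc (nat_lit 9) n3725 (.fin (nat_lit 805720213) (nat_lit 0)))
def n3727 : Nd := .arc (nat_lit 3) n3719 (.arc (nat_lit 6) n3723 (.arc (nat_lit 9) n3726 (.fin (nat_lit 201724053) (nat_lit 0))))
def n3728 : Nd := .arc (nat_lit 3) n3720 (.arc (nat_lit 40) n3689 (.arc (nat_lit 43) n3693 (.arc (nat_lit 46) n3696 (.fin (nat_lit 201773205) (nat_lit 0)))))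
def n3729 : Nd := .arc (nat_lit 6) n3728 (.arc (nat_lit 9) n3728 (.fin (nat_lit 805712021) (nat_lit 0)))
def n3730 : Nd := .arc (nat_lit 3) n3725 (.arc (nat_lit 6) n3724 (.fin (nat_lit 201756821) (nat_lit 0)))
def n3731 : Nd := .arc (nat_lit 3) n3722 (.arc (nat_lit 9) n3721 (.fin (nat_lit 201740437) (nat_lit 0)))
def n3732 : Nd := .arc (nat_lit 3) n3729 (.arc (nat_lit 6) n3730 (.arc (nat_lit 9) n3731 (.fin (nat_lit 805703829) (nat_lit 0))))
def n3733 : Nd := .arc (nat_lit 26) n3584 (.arc (nat_lit 29) n3588 (.arc (nat_lit 32) n3569 (.arc (nat_lit 35) n3578 (.arc (nat_lit 38) n3584 (.arc (nat_lit 41) n3588 (.arc (nat_lit 44) n3578 (.arc (nat_lit 47) n3569 (.fin (nat_lit 812052629) (nat_lit 0)))))))))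
def n3734 : Nd := .arc (nat_lit 3) n3733 (.arc (nat_lit 40) n3581 (.arc (nat_lit 43) n3582 (.arc (nat_lit 46) n3583 (.fin (nat_lit 812044437) (nat_lit 0)))))
def n3735 : Nd := .arc (nat_lit 6) n3734 (.arc (nat_lit 9) n3734 (.fin (nat_lit 203305109) (nat_lit 0)))
def n3736 : Nd := .arc (nat_lit 50) n3584 (.arc (nat_lit 53) n3588 (.arc (nat_lit 56) n3578 (.arc (nat_lit 59) n3569 (.arc (nat_lit 62) n3584 (.arc (nat_lit 65) n3588 (.arc (nat_lit 68) n3569 (.arc (nat_lit 71) n3578 (.fin (nat_lit 203354261) (nat_lit 0)))))))))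
def n3737 : Nd := .arc (nat_lit 9) n3736 (.fin (nat_lit 812019861) (nat_lit 0))
def n3738 : Nd := .arc (nat_lit 6) n3733 (.arc (nat_lit 52) n3581 (.arc (nat_lit 55) n3582 (.arc (nat_lit 58) n3583 (.fin (nat_lit 203337877) (nat_lit 0)))))
def n3739 : Nd := .arc (nat_lit 3) n3737 (.arc (nat_lit 6) n3738 (.fin (nat_lit 812028053) (nat_lit 0)))
def n3740 : Nd := .arc (nat_lit 6) n3736 (.fin (nat_lit 812036245) (nat_lit 0))
def n3741 : Nd := .arc (nat_lit 9) n3733 (.arc (nat_lit 64) n3581 (.arc (nat_lit 67) n3583 (.arc (nat_lit 70) n3582 (.fin (nat_lit 203321493) (nat_lit 0)))))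
def n3742 : Nd := .arc (nat_lit 3) n3740 (.arc (nat_lit 9) n3741 (.fin (nat_lit 812011669) (nat_lit 0)))
def n3743 : Nd := .arc (nat_lit 3) n3735 (.arc (nat_lit 6) n3739 (.arc (nat_lit 9) n3742 (.fin (nat_lit 203296917) (nat_lit 0))))
def n3744 : Nd := .arc (nat_lit 3) n3736 (.fin (nat_lit 203346069) (nat_lit 0))
def n3745 : Nd := .arc (nat_lit 6) n3744 (.arc (nat_lit 9) n3744 (.fin (nat_lit 812003477) (nat_lit 0)))
def n3746 : Nd := .arc (nat_lit 3) n3741 (.arc (nat_lit 6) n3740 (.fin (nat_lit 203329685) (nat_lit 0)))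
def n3747 : Nd := .arc (nat_lit 3) n3738 (.arc (nat_lit 9) n3737 (.fin (nat_lit 203313301) (nat_lit 0)))
def n3748 : Nd := .arc (nat_lit 3) n3745 (.arc (nat_lit 6) n3746 (.arc (nat_lit 9) n3747 (.fin (nat_lit 811995285) (nat_lit 0))))
def n3749 : Nd := .arc (nat_lit 20) n3204 (.arc (nat_lit 23) n3204 (.fin (nat_lit 209645717) (nat_lit 0)))
def n3750 : Nd := .arc (nat_lit 3) n3749 (.fin (nat_lit 209637525) (nat_lit 0))
def n3751 : Nd := .arc (nat_lit 6) n3750 (.arc (nat_lit 9) n3750 (.fin (nat_lit 813576341) (nat_lit 0)))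
def n3752 : Nd := .arc (nat_lit 14) n3204 (.arc (nat_lit 17) n3204 (.fin (nat_lit 813625493) (nat_lit 0)))
def n3753 : Nd := .arc (nat_lit 9) n3752 (.fin (nat_lit 209612949) (nat_lit 0))
def n3754 : Nd := .arc (nat_lit 6) n3749 (.fin (nat_lit 813609109) (nat_lit 0))
def n3755 : Nd := .arc (nat_lit 3) n3753 (.arc (nat_lit 6) n3754 (.fin (nat_lit 209621141) (nat_lit 0)))
def n3756 : Nd := .arc (nat_lit 6) n3752 (.fin (nat_lit 209629333) (nat_lit 0))
def n3757 : Nd := .arc (nat_lit 9) n3749 (.fin (nat_lit 813592725) (nat_lit 0))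
def n3758 : Nd := .arc (nat_lit 3) n3756 (.arc (nat_lit 9) n3757 (.fin (nat_lit 209604757) (nat_lit 0)))
def n3759 : Nd := .arc (nat_lit 3) n3751 (.arc (nat_lit 6) n3755 (.arc (nat_lit 9) n3758 (.fin (nat_lit 813568149) (nat_lit 0))))
def n3760 : Nd := .arc (nat_lit 3) n3752 (.fin (nat_lit 813617301) (nat_lit 0))
def n3761 : Nd := .arc (nat_lit 6) n3760 (.arc (nat_lit 9) n3760 (.fin (nat_lit 209596565) (nat_lit 0)))
def n3762 : Nd := .arc (nat_lit 3) n3757 (.arc (nat_lit 6) n3756 (.fin (nat_lit 813600917) (nat_lit 0)))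
def n3763 : Nd := .arc (nat_lit 3) n3754 (.arc (nat_lit 9) n3753 (.fin (nat_lit 813584533) (nat_lit 0)))
def n3764 : Nd := .arc (nat_lit 3) n3761 (.arc (nat_lit 6) n3762 (.arc (nat_lit 9) n3763 (.fin (nat_lit 209588373) (nat_lit 0))))
def n3765 : Nd := .arc (nat_lit 50) n3759 (.arc (nat_lit 53) n3759 (.arc (nat_lit 56) n3764 (.arc (nat_lit 59) n3764 (.fin (nat_lit 207548573) (nat_lit 0)))))
def n3766 : Nd := .arc (nat_lit 3) n3765 (.fin (nat_lit 205443227) (nat_lit 0))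
def n3767 : Nd := .arc (nat_lit 62) n3759 (.arc (nat_lit 65) n3759 (.arc (nat_lit 68) n3764 (.arc (nat_lit 71) n3764 (.fin (nat_lit 205451419) (nat_lit 0)))))
def n3768 : Nd := .arc (nat_lit 3) n3767 (.fin (nat_lit 207540381) (nat_lit 0))
def n3769 : Nd := .arc (nat_lit 6) n3766 (.arc (nat_lit 9) n3768 (.fin (nat_lit 813052057) (nat_lit 0)))
def n3770 : Nd := .arc (nat_lit 26) n3759 (.arc (nat_lit 29) n3759 (.arc (nat_lit 32) n3764 (.arc (nat_lit 35) n3764 (.fin (nat_lit 813101209) (nat_lit 0)))))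
def n3771 : Nd := .arc (nat_lit 9) n3770 (.arc (nat_lit 64) n3751 (.arc (nat_lit 67) n3758 (.arc (nat_lit 70) n3755 (.fin (nat_lit 205418651) (nat_lit 0)))))
def n3772 : Nd := .arc (nat_lit 6) n3767 (.fin (nat_lit 813084825) (nat_lit 0))
def n3773 : Nd := .arc (nat_lit 3) n3771 (.arc (nat_lit 6) n3772 (.fin (nat_lit 207523997) (nat_lit 0)))
def n3774 : Nd := .arc (nat_lit 6) n3770 (.arc (nat_lit 52) n3751 (.arc (nat_lit 55) n3755 (.arc (nat_lit 58) n3758 (.fin (nat_lit 207532189) (nat_lit 0)))))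
def n3775 : Nd := .arc (nat_lit 9) n3765 (.fin (nat_lit 813068441) (nat_lit 0))
def n3776 : Nd := .arc (nat_lit 3) n3774 (.arc (nat_lit 9) n3775 (.fin (nat_lit 205410459) (nat_lit 0)))
def n3777 : Nd := .arc (nat_lit 3) n3769 (.arc (nat_lit 6) n3773 (.arc (nat_lit 9) n3776 (.fin (nat_lit 812519575) (nat_lit 0))))
def n3778 : Nd := .arc (nat_lit 6) n3768 (.arc (nat_lit 9) n3766 (.fin (nat_lit 812527767) (nat_lit 0)))
def n3779 : Nd := .arc (nat_lit 38) n3759 (.arc (nat_lit 41) n3759 (.arc (nat_lit 44) n3764 (.arc (nat_lit 47) n3764 (.fin (nat_lit 812576919) (nat_lit 0)))))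
def n3780 : Nd := .arc (nat_lit 9) n3779 (.fin (nat_lit 207515805) (nat_lit 0))
def n3781 : Nd := .arc (nat_lit 6) n3765 (.fin (nat_lit 812560535) (nat_lit 0))
def n3782 : Nd := .arc (nat_lit 3) n3780 (.arc (nat_lit 6) n3781 (.fin (nat_lit 205426843) (nat_lit 0)))
def n3783 : Nd := .arc (nat_lit 6) n3779 (.fin (nat_lit 205435035) (nat_lit 0))
def n3784 : Nd := .arc (nat_lit 9) n3767 (.fin (nat_lit 812544151) (nat_lit 0))
def n3785 : Nd := .arc (nat_lit 3) n3783 (.arc (nat_lit 9) n3784 (.fin (nat_lit 207507613) (nat_lit 0)))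
def n3786 : Nd := .arc (nat_lit 3) n3778 (.arc (nat_lit 6) n3782 (.arc (nat_lit 9) n3785 (.fin (nat_lit 813043865) (nat_lit 0))))
def n3787 : Nd := .arc (nat_lit 3) n3779 (.fin (nat_lit 813093017) (nat_lit 0))
def n3788 : Nd := .arc (nat_lit 3) n3770 (.arc (nat_lit 40) n3751 (.arc (nat_lit 43) n3755 (.arc (nat_lit 46) n3758 (.fin (nat_lit 812568727) (nat_lit 0)))))
def n3789 : Nd := .arc (nat_lit 6) n3787 (.arc (nat_lit 9) n3788 (.fin (nat_lit 207499421) (nat_lit 0)))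
def n3790 : Nd := .arc (nat_lit 3) n3775 (.arc (nat_lit 6) n3774 (.fin (nat_lit 812552343) (nat_lit 0)))
def n3791 : Nd := .arc (nat_lit 3) n3781 (.arc (nat_lit 9) n3780 (.fin (nat_lit 813060249) (nat_lit 0)))
def n3792 : Nd := .arc (nat_lit 3) n3789 (.arc (nat_lit 6) n3790 (.arc (nat_lit 9) n3791 (.fin (nat_lit 205394075) (nat_lit 0))))
def n3793 : Nd := .arc (nat_lit 6) n3788 (.arc (nat_lit 9) n3787 (.fin (nat_lit 205402267) (nat_lit 0)))
def n3794 : Nd := .arc (nat_lit 3) n3784 (.arc (nat_lit 6) n3783 (.fin (nat_lit 813076633) (nat_lit 0)))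
def n3795 : Nd := .arc (nat_lit 3) n3772 (.arc (nat_lit 9) n3771 (.fin (nat_lit 812535959) (nat_lit 0)))
def n3796 : Nd := .arc (nat_lit 3) n3793 (.arc (nat_lit 6) n3794 (.arc (nat_lit 9) n3795 (.fin (nat_lit 207491229) (nat_lit 0))))
def n3797 : Nd := .arc (nat_lit 50) n3332 (.arc (nat_lit 53) n3328 (.arc (nat_lit 56) n3313 (.arc (nat_lit 59) n3322 (.fin (nat_lit 207548565) (nat_lit 0)))))
def n3798 : Nd := .arc (nat_lit 3) n3797 (.fin (nat_lit 205443221) (nat_lit 0))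
def n3799 : Nd := .arc (nat_lit 62) n3332 (.arc (nat_lit 65) n3328 (.arc (nat_lit 68) n3322 (.arc (nat_lit 71) n3313 (.fin (nat_lit 205451413) (nat_lit 0)))))
def n3800 : Nd := .arc (nat_lit 3) n3799 (.fin (nat_lit 207540373) (nat_lit 0))
def n3801 : Nd := .arc (nat_lit 6) n3798 (.arc (nat_lit 9) n3800 (.fin (nat_lit 813052053) (nat_lit 0)))
def n3802 : Nd := .arc (nat_lit 26) n3332 (.arc (nat_lit 29) n3328 (.arc (nat_lit 32) n3322 (.arc (nat_lit 35) n3313 (.fin (nat_lit 813101205) (nat_lit 0)))))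
def n3803 : Nd := .arc (nat_lit 9) n3802 (.arc (nat_lit 64) n3329 (.arc (nat_lit 67) n3331 (.arc (nat_lit 70) n3330 (.fin (nat_lit 205418645) (nat_lit 0)))))
def n3804 : Nd := .arc (nat_lit 6) n3799 (.fin (nat_lit 813084821) (nat_lit 0))
def n3805 : Nd := .arc (nat_lit 3) n3803 (.arc (nat_lit 6) n3804 (.fin (nat_lit 207523989) (nat_lit 0)))
def n3806 : Nd := .arc (nat_lit 6) n3802 (.arc (nat_lit 52) n3329 (.arc (nat_lit 55) n3330 (.arc (nat_lit 58) n3331 (.fin (nat_lit 207532181) (nat_lit 0)))))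
def n3807 : Nd := .arc (nat_lit 9) n3797 (.fin (nat_lit 813068437) (nat_lit 0))
def n3808 : Nd := .arc (nat_lit 3) n3806 (.arc (nat_lit 9) n3807 (.fin (nat_lit 205410453) (nat_lit 0)))
def n3809 : Nd := .arc (nat_lit 3) n3801 (.arc (nat_lit 6) n3805 (.arc (nat_lit 9) n3808 (.fin (nat_lit 812519573) (nat_lit 0))))
def n3810 : Nd := .arc (nat_lit 6) n3800 (.arc (nat_lit 9) n3798 (.fin (nat_lit 812527765) (nat_lit 0)))
def n3811 : Nd := .arc (nat_lit 38) n3332 (.arc (nat_lit 41) n3328 (.arc (nat_lit 44) n3313 (.arc (nat_lit 47) n3322 (.fin (nat_lit 812576917) (nat_lit 0)))))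
def n3812 : Nd := .arc (nat_lit 9) n3811 (.fin (nat_lit 207515797) (nat_lit 0))
def n3813 : Nd := .arc (nat_lit 6) n3797 (.fin (nat_lit 812560533) (nat_lit 0))
def n3814 : Nd := .arc (nat_lit 3) n3812 (.arc (nat_lit 6) n3813 (.fin (nat_lit 205426837) (nat_lit 0)))
def n3815 : Nd := .arc (nat_lit 6) n3811 (.fin (nat_lit 205435029) (nat_lit 0))
def n3816 : Nd := .arc (nat_lit 9) n3799 (.fin (nat_lit 812544149) (nat_lit 0))
def n3817 : Nd := .arc (nat_lit 3) n3815 (.arc (nat_lit 9) n3816 (.fin (nat_lit 207507605) (nat_lit 0)))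
def n3818 : Nd := .arc (nat_lit 3) n3810 (.arc (nat_lit 6) n3814 (.arc (nat_lit 9) n3817 (.fin (nat_lit 813043861) (nat_lit 0))))
def n3819 : Nd := .arc (nat_lit 3) n3802 (.arc (nat_lit 40) n3329 (.arc (nat_lit 43) n3330 (.arc (nat_lit 46) n3331 (.fin (nat_lit 812568725) (nat_lit 0)))))
def n3820 : Nd := .arc (nat_lit 3) n3811 (.fin (nat_lit 813093013) (nat_lit 0))
def n3821 : Nd := .arc (nat_lit 6) n3819 (.arc (nat_lit 9) n3820 (.fin (nat_lit 205402261) (nat_lit 0)))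
def n3822 : Nd := .arc (nat_lit 3) n3816 (.arc (nat_lit 6) n3815 (.fin (nat_lit 813076629) (nat_lit 0)))
def n3823 : Nd := .arc (nat_lit 3) n3804 (.arc (nat_lit 9) n3803 (.fin (nat_lit 812535957) (nat_lit 0)))
def n3824 : Nd := .arc (nat_lit 3) n3821 (.arc (nat_lit 6) n3822 (.arc (nat_lit 9) n3823 (.fin (nat_lit 207491221) (nat_lit 0))))
def n3825 : Nd := .arc (nat_lit 6) n3820 (.arc (nat_lit 9) n3819 (.fin (nat_lit 207499413) (nat_lit 0)))
def n3826 : Nd := .arc (nat_lit 3) n3807 (.arc (nat_lit 6) n3806 (.fin (nat_lit 812552341) (nat_lit 0)))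
def n3827 : Nd := .arc (nat_lit 3) n3813 (.arc (nat_lit 9) n3812 (.fin (nat_lit 813060245) (nat_lit 0)))
def n3828 : Nd := .arc (nat_lit 3) n3825 (.arc (nat_lit 6) n3826 (.arc (nat_lit 9) n3827 (.fin (nat_lit 205394069) (nat_lit 0))))
def n3829 : Nd := .arc (nat_lit 14) n3777 (.arc (nat_lit 17) n3786 (.arc (nat_lit 20) n3792 (.arc (nat_lit 23) n3796 (.arc (nat_lit 38) n3809 (.arc (nat_lit 41) n3818 (.arc (nat_lit 44) n3824 (.arc (nat_lit 47) n3828 (.fin (nat_lit 812314775) (nat_lit 0)))))))))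
def n3830 : Nd := .arc (nat_lit 3) n3829 (.fin (nat_lit 812830873) (nat_lit 0))
def n3831 : Nd := .arc (nat_lit 14) n3786 (.arc (nat_lit 17) n3777 (.arc (nat_lit 20) n3796 (.arc (nat_lit 23) n3792 (.arc (nat_lit 26) n3809 (.arc (nat_lit 29) n3818 (.arc (nat_lit 32) n3828 (.arc (nat_lit 35) n3824 (.fin (nat_lit 812839065) (nat_lit 0)))))))))
def n3832 : Nd := .arc (nat_lit 3) n3831 (.arc (nat_lit 40) n3801 (.arc (nat_lit 43) n3805 (.arc (nat_lit 46) n3808 (.fin (nat_lit 812306583) (nat_lit 0)))))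
def n3833 : Nd := .arc (nat_lit 6) n3830 (.arc (nat_lit 9) n3832 (.fin (nat_lit 207237277) (nat_lit 0)))
def n3834 : Nd := .arc (nat_lit 14) n3792 (.arc (nat_lit 17) n3796 (.arc (nat_lit 20) n3786 (.arc (nat_lit 23) n3777 (.arc (nat_lit 50) n3809 (.arc (nat_lit 53) n3818 (.arc (nat_lit 56) n3824 (.arc (nat_lit 59) n3828 (.fin (nat_lit 207286429) (nat_lit 0)))))))))
def n3835 : Nd := .arc (nat_lit 9) n3834 (.fin (nat_lit 812806297) (nat_lit 0))
def n3836 : Nd := .arc (nat_lit 6) n3831 (.arc (nat_lit 52) n3801 (.arc (nat_lit 55) n3805 (.arc (nat_lit 58) n3808 (.fin (nat_lit 207270045) (nat_lit 0)))))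
def n3837 : Nd := .arc (nat_lit 3) n3835 (.arc (nat_lit 6) n3836 (.fin (nat_lit 812290199) (nat_lit 0)))
def n3838 : Nd := .arc (nat_lit 6) n3834 (.fin (nat_lit 812298391) (nat_lit 0))
def n3839 : Nd := .arc (nat_lit 9) n3829 (.fin (nat_lit 207253661) (nat_lit 0))
def n3840 : Nd := .arc (nat_lit 3) n3838 (.arc (nat_lit 9) n3839 (.fin (nat_lit 812798105) (nat_lit 0)))
def n3841 : Nd := .arc (nat_lit 3) n3833 (.arc (nat_lit 6) n3837 (.arc (nat_lit 9) n3840 (.fin (nat_lit 205131931) (nat_lit 0))))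
def n3842 : Nd := .arc (nat_lit 6) n3832 (.arc (nat_lit 9) n3830 (.fin (nat_lit 205140123) (nat_lit 0)))
def n3843 : Nd := .arc (nat_lit 14) n3796 (.arc (nat_lit 17) n3792 (.arc (nat_lit 20) n3777 (.arc (nat_lit 23) n3786 (.arc (nat_lit 62) n3809 (.arc (nat_lit 65) n3818 (.arc (nat_lit 68) n3828 (.arc (nat_lit 71) n3824 (.fin (nat_lit 205189275) (nat_lit 0)))))))))
def n3844 : Nd := .arc (nat_lit 9) n3843 (.fin (nat_lit 812282007) (nat_lit 0))
def n3845 : Nd := .arc (nat_lit 6) n3829 (.fin (nat_lit 205172891) (nat_lit 0))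
def n3846 : Nd := .arc (nat_lit 3) n3844 (.arc (nat_lit 6) n3845 (.fin (nat_lit 812814489) (nat_lit 0)))
def n3847 : Nd := .arc (nat_lit 6) n3843 (.fin (nat_lit 812822681) (nat_lit 0))
def n3848 : Nd := .arc (nat_lit 9) n3831 (.arc (nat_lit 64) n3801 (.arc (nat_lit 67) n3808 (.arc (nat_lit 70) n3805 (.fin (nat_lit 205156507) (nat_lit 0)))))
def n3849 : Nd := .arc (nat_lit 3) n3847 (.arc (nat_lit 9) n3848 (.fin (nat_lit 812273815) (nat_lit 0)))
def n3850 : Nd := .arc (nat_lit 3) n3842 (.arc (nat_lit 6) n3846 (.arc (nat_lit 9) n3849 (.fin (nat_lit 207229085) (nat_lit 0))))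
def n3851 : Nd := .arc (nat_lit 3) n3834 (.fin (nat_lit 205181083) (nat_lit 0))
def n3852 : Nd := .arc (nat_lit 3) n3843 (.fin (nat_lit 207278237) (nat_lit 0))
def n3853 : Nd := .arc (nat_lit 6) n3851 (.arc (nat_lit 9) n3852 (.fin (nat_lit 812789913) (nat_lit 0)))
def n3854 : Nd := .arc (nat_lit 3) n3848 (.arc (nat_lit 6) n3847 (.fin (nat_lit 207261853) (nat_lit 0)))
def n3855 : Nd := .arc (nat_lit 3) n3836 (.arc (nat_lit 9) n3835 (.fin (nat_lit 205148315) (nat_lit 0)))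
def n3856 : Nd := .arc (nat_lit 3) n3853 (.arc (nat_lit 6) n3854 (.arc (nat_lit 9) n3855 (.fin (nat_lit 812257431) (nat_lit 0))))
def n3857 : Nd := .arc (nat_lit 6) n3852 (.arc (nat_lit 9) n3851 (.fin (nat_lit 812265623) (nat_lit 0)))
def n3858 : Nd := .arc (nat_lit 3) n3839 (.arc (nat_lit 6) n3838 (.fin (nat_lit 205164699) (nat_lit 0)))
def n3859 : Nd := .arc (nat_lit 3) n3845 (.arc (nat_lit 9) n3844 (.fin (nat_lit 207245469) (nat_lit 0)))
def n3860 : Nd := .arc (nat_lit 3) n3857 (.arc (nat_lit 6) n3858 (.arc (nat_lit 9) n3859 (.fin (nat_lit 812781721) (nat_lit 0))))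
def n3861 : Nd := .arc (nat_lit 38) n3743 (.arc (nat_lit 41) n3743 (.arc (nat_lit 44) n3748 (.arc (nat_lit 47) n3748 (.arc (nat_lit 50) n3841 (.arc (nat_lit 53) n3850 (.arc (nat_lit 56) n3856 (.arc (nat_lit 59) n3860 (.arc (nat_lit 62) n3850 (.arc (nat_lit 65) n3841 (.arc (nat_lit 68) n3856 (.arc (nat_lit 71) n3860 (.fin (nat_lit 51310743) (nat_lit 0)))))))))))))
def n3862 : Nd := .arc (nat_lit 3) n3861 (.fin (nat_lit 51826841) (nat_lit 0))
def n3863 : Nd := .arc (nat_lit 26) n3743 (.arc (nat_lit 29) n3743 (.arc (nat_lit 32) n3748 (.arc (nat_lit 35) n3748 (.arc (nat_lit 50) n3850 (.arc (nat_lit 53) n3841 (.arc (nat_lit 56) n3860 (.arc (nat_lit 59) n3856 (.arc (nat_lit 62) n3841 (.arc (nat_lit 65) n3850 (.arc (nat_lit 68) n3860 (.arc (nat_lit 71) n3856 (.fin (nat_lit 51835033) (nat_lit 0)))))))))))))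
def n3864 : Nd := .arc (nat_lit 3) n3863 (.arc (nat_lit 40) n3735 (.arc (nat_lit 43) n3739 (.arc (nat_lit 46) n3742 (.fin (nat_lit 51302551) (nat_lit 0)))))
def n3865 : Nd := .arc (nat_lit 6) n3862 (.arc (nat_lit 9) n3864 (.fin (nat_lit 54931613) (nat_lit 0)))
def n3866 : Nd := .arc (nat_lit 26) n3841 (.arc (nat_lit 29) n3850 (.arc (nat_lit 32) n3860 (.arc (nat_lit 35) n3856 (.arc (nat_lit 38) n3850 (.arc (nat_lit 41) n3841 (.arc (nat_lit 44) n3860 (.arc (nat_lit 47) n3856 (.arc (nat_lit 50) n3743 (.arc (nat_lit 53) n3743 (.arc (nat_lit 56) n3748 (.arc (nat_lit 59) n3748 (.fin (nat_lit 54980765) (nat_lit 0)))))))))))))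
def n3867 : Nd := .arc (nat_lit 9) n3866 (.arc (nat_lit 64) n3833 (.arc (nat_lit 67) n3840 (.arc (nat_lit 70) n3837 (.fin (nat_lit 51802265) (nat_lit 0)))))
def n3868 : Nd := .arc (nat_lit 6) n3863 (.arc (nat_lit 52) n3735 (.arc (nat_lit 55) n3739 (.arc (nat_lit 58) n3742 (.fin (nat_lit 54964381) (nat_lit 0)))))
def n3869 : Nd := .arc (nat_lit 3) n3867 (.arc (nat_lit 6) n3868 (.fin (nat_lit 51286167) (nat_lit 0)))
def n3870 : Nd := .arc (nat_lit 6) n3866 (.arc (nat_lit 52) n3833 (.arc (nat_lit 55) n3837 (.arc (nat_lit 58) n3840 (.fin (nat_lit 51294359) (nat_lit 0)))))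
def n3871 : Nd := .arc (nat_lit 9) n3861 (.fin (nat_lit 54947997) (nat_lit 0))
def n3872 : Nd := .arc (nat_lit 3) n3870 (.arc (nat_lit 9) n3871 (.fin (nat_lit 51794073) (nat_lit 0)))
def n3873 : Nd := .arc (nat_lit 3) n3865 (.arc (nat_lit 6) n3869 (.arc (nat_lit 9) n3872 (.fin (nat_lit 52826267) (nat_lit 0))))
def n3874 : Nd := .arc (nat_lit 6) n3864 (.arc (nat_lit 9) n3862 (.fin (nat_lit 52834459) (nat_lit 0)))
def n3875 : Nd := .arc (nat_lit 26) n3850 (.arc (nat_lit 29) n3841 (.arc (nat_lit 32) n3856 (.arc (nat_lit 35) n3860 (.arc (nat_lit 38) n3841 (.arc (nat_lit 41) n3850 (.arc (nat_lit 44) n3856 (.arc (nat_lit 47) n3860 (.arc (nat_lit 62) n3743 (.arc (nat_lit 65) n3743 (.arc (nat_lit 68) n3748 (.arc (nat_lit 71) n3748 (.fin (nat_lit 52883611) (nat_lit 0)))))))))))))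
def n3876 : Nd := .arc (nat_lit 9) n3875 (.arc (nat_lit 64) n3842 (.arc (nat_lit 67) n3849 (.arc (nat_lit 70) n3846 (.fin (nat_lit 51277975) (nat_lit 0)))))
def n3877 : Nd := .arc (nat_lit 6) n3861 (.fin (nat_lit 52867227) (nat_lit 0))
def n3878 : Nd := .arc (nat_lit 3) n3876 (.arc (nat_lit 6) n3877 (.fin (nat_lit 51810457) (nat_lit 0)))
def n3879 : Nd := .arc (nat_lit 6) n3875 (.arc (nat_lit 52) n3842 (.arc (nat_lit 55) n3846 (.arc (nat_lit 58) n3849 (.fin (nat_lit 51818649) (nat_lit 0)))))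
def n3880 : Nd := .arc (nat_lit 9) n3863 (.arc (nat_lit 64) n3735 (.arc (nat_lit 67) n3742 (.arc (nat_lit 70) n3739 (.fin (nat_lit 52850843) (nat_lit 0)))))
def n3881 : Nd := .arc (nat_lit 3) n3879 (.arc (nat_lit 9) n3880 (.fin (nat_lit 51269783) (nat_lit 0)))
def n3882 : Nd := .arc (nat_lit 3) n3874 (.arc (nat_lit 6) n3878 (.arc (nat_lit 9) n3881 (.fin (nat_lit 54923421) (nat_lit 0))))
def n3883 : Nd := .arc (nat_lit 3) n3875 (.arc (nat_lit 40) n3842 (.arc (nat_lit 43) n3846 (.arc (nat_lit 46) n3849 (.fin (nat_lit 54972573) (nat_lit 0)))))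
def n3884 : Nd := .arc (nat_lit 3) n3866 (.arc (nat_lit 40) n3833 (.arc (nat_lit 43) n3837 (.arc (nat_lit 46) n3840 (.fin (nat_lit 52875419) (nat_lit 0)))))
def n3885 : Nd := .arc (nat_lit 6) n3883 (.arc (nat_lit 9) n3884 (.fin (nat_lit 51261591) (nat_lit 0)))
def n3886 : Nd := .arc (nat_lit 3) n3871 (.arc (nat_lit 6) n3870 (.fin (nat_lit 52859035) (nat_lit 0)))
def n3887 : Nd := .arc (nat_lit 3) n3877 (.arc (nat_lit 9) n3876 (.fin (nat_lit 54939805) (nat_lit 0)))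
def n3888 : Nd := .arc (nat_lit 3) n3885 (.arc (nat_lit 6) n3886 (.arc (nat_lit 9) n3887 (.fin (nat_lit 51777689) (nat_lit 0))))
def n3889 : Nd := .arc (nat_lit 6) n3884 (.arc (nat_lit 9) n3883 (.fin (nat_lit 51785881) (nat_lit 0)))
def n3890 : Nd := .arc (nat_lit 3) n3880 (.arc (nat_lit 6) n3879 (.fin (nat_lit 54956189) (nat_lit 0)))
def n3891 : Nd := .arc (nat_lit 3) n3868 (.arc (nat_lit 9) n3867 (.fin (nat_lit 52842651) (nat_lit 0)))
def n3892 : Nd := .arc (nat_lit 3) n3889 (.arc (nat_lit 6) n3890 (.arc (nat_lit 9) n3891 (.fin (nat_lit 51253399) (nat_lit 0))))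
def n3893 : Nd := .arc (nat_lit 26) n3764 (.arc (nat_lit 29) n3764 (.arc (nat_lit 32) n3759 (.arc (nat_lit 35) n3759 (.fin (nat_lit 58126489) (nat_lit 0)))))
def n3894 : Nd := .arc (nat_lit 3) n3893 (.arc (nat_lit 40) n3761 (.arc (nat_lit 43) n3762 (.arc (nat_lit 46) n3763 (.fin (nat_lit 57594007) (nat_lit 0)))))
def n3895 : Nd := .arc (nat_lit 38) n3764 (.arc (nat_lit 41) n3764 (.arc (nat_lit 44) n3759 (.arc (nat_lit 47) n3759 (.fin (nat_lit 57602199) (nat_lit 0)))))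
def n3896 : Nd := .arc (nat_lit 3) n3895 (.fin (nat_lit 58118297) (nat_lit 0))
def n3897 : Nd := .arc (nat_lit 6) n3894 (.arc (nat_lit 9) n3896 (.fin (nat_lit 54407323) (nat_lit 0)))
def n3898 : Nd := .arc (nat_lit 62) n3764 (.arc (nat_lit 65) n3764 (.arc (nat_lit 68) n3759 (.arc (nat_lit 71) n3759 (.fin (nat_lit 54456475) (nat_lit 0)))))
def n3899 : Nd := .arc (nat_lit 9) n3898 (.fin (nat_lit 57569431) (nat_lit 0))
def n3900 : Nd := .arc (nat_lit 6) n3895 (.fin (nat_lit 54440091) (nat_lit 0))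
def n3901 : Nd := .arc (nat_lit 3) n3899 (.arc (nat_lit 6) n3900 (.fin (nat_lit 58101913) (nat_lit 0)))
def n3902 : Nd := .arc (nat_lit 6) n3898 (.fin (nat_lit 58110105) (nat_lit 0))
def n3903 : Nd := .arc (nat_lit 9) n3893 (.arc (nat_lit 64) n3761 (.arc (nat_lit 67) n3763 (.arc (nat_lit 70) n3762 (.fin (nat_lit 54423707) (nat_lit 0)))))
def n3904 : Nd := .arc (nat_lit 3) n3902 (.arc (nat_lit 9) n3903 (.fin (nat_lit 57561239) (nat_lit 0)))
def n3905 : Nd := .arc (nat_lit 3) n3897 (.arc (nat_lit 6) n3901 (.arc (nat_lit 9) n3904 (.fin (nat_lit 56496285) (nat_lit 0))))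
def n3906 : Nd := .arc (nat_lit 6) n3896 (.arc (nat_lit 9) n3894 (.fin (nat_lit 56504477) (nat_lit 0)))
def n3907 : Nd := .arc (nat_lit 50) n3764 (.arc (nat_lit 53) n3764 (.arc (nat_lit 56) n3759 (.arc (nat_lit 59) n3759 (.fin (nat_lit 56553629) (nat_lit 0)))))
def n3908 : Nd := .arc (nat_lit 9) n3907 (.fin (nat_lit 58093721) (nat_lit 0))
def n3909 : Nd := .arc (nat_lit 6) n3893 (.arc (nat_lit 52) n3761 (.arc (nat_lit 55) n3762 (.arc (nat_lit 58) n3763 (.fin (nat_lit 56537245) (nat_lit 0)))))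
def n3910 : Nd := .arc (nat_lit 3) n3908 (.arc (nat_lit 6) n3909 (.fin (nat_lit 57577623) (nat_lit 0)))
def n3911 : Nd := .arc (nat_lit 6) n3907 (.fin (nat_lit 57585815) (nat_lit 0))
def n3912 : Nd := .arc (nat_lit 9) n3895 (.fin (nat_lit 56520861) (nat_lit 0))
def n3913 : Nd := .arc (nat_lit 3) n3911 (.arc (nat_lit 9) n3912 (.fin (nat_lit 58085529) (nat_lit 0)))
def n3914 : Nd := .arc (nat_lit 3) n3906 (.arc (nat_lit 6) n3910 (.arc (nat_lit 9) n3913 (.fin (nat_lit 54399131) (nat_lit 0))))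
def n3915 : Nd := .arc (nat_lit 3) n3898 (.fin (nat_lit 56545437) (nat_lit 0))
def n3916 : Nd := .arc (nat_lit 3) n3907 (.fin (nat_lit 54448283) (nat_lit 0))
def n3917 : Nd := .arc (nat_lit 6) n3915 (.arc (nat_lit 9) n3916 (.fin (nat_lit 57553047) (nat_lit 0)))
def n3918 : Nd := .arc (nat_lit 3) n3912 (.arc (nat_lit 6) n3911 (.fin (nat_lit 54431899) (nat_lit 0)))
def n3919 : Nd := .arc (nat_lit 3) n3900 (.arc (nat_lit 9) n3899 (.fin (nat_lit 56512669) (nat_lit 0)))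
def n3920 : Nd := .arc (nat_lit 3) n3917 (.arc (nat_lit 6) n3918 (.arc (nat_lit 9) n3919 (.fin (nat_lit 58069145) (nat_lit 0))))
def n3921 : Nd := .arc (nat_lit 6) n3916 (.arc (nat_lit 9) n3915 (.fin (nat_lit 58077337) (nat_lit 0)))
def n3922 : Nd := .arc (nat_lit 3) n3903 (.arc (nat_lit 6) n3902 (.fin (nat_lit 56529053) (nat_lit 0)))
def n3923 : Nd := .arc (nat_lit 3) n3909 (.arc (nat_lit 9) n3908 (.fin (nat_lit 54415515) (nat_lit 0)))
def n3924 : Nd := .arc (nat_lit 3) n3921 (.arc (nat_lit 6) n3922 (.arc (nat_lit 9) n3923 (.fin (nat_lit 57544855) (nat_lit 0))))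
def n3925 : Nd := .arc (nat_lit 38) n3217 (.arc (nat_lit 41) n3226 (.arc (nat_lit 44) n3236 (.arc (nat_lit 47) n3232 (.fin (nat_lit 208597141) (nat_lit 0)))))
def n3926 : Nd := .arc (nat_lit 3) n3925 (.fin (nat_lit 209113237) (nat_lit 0))
def n3927 : Nd := .arc (nat_lit 26) n3217 (.arc (nat_lit 29) n3226 (.arc (nat_lit 32) n3232 (.arc (nat_lit 35) n3236 (.fin (nat_lit 209121429) (nat_lit 0)))))
def n3928 : Nd := .arc (nat_lit 3) n3927 (.arc (nat_lit 40) n3209 (.arc (nat_lit 43) n3213 (.arc (nat_lit 46) n3216 (.fin (nat_lit 208588949) (nat_lit 0)))))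
def n3929 : Nd := .arc (nat_lit 6) n3926 (.arc (nat_lit 9) n3928 (.fin (nat_lit 811479189) (nat_lit 0)))
def n3930 : Nd := .arc (nat_lit 50) n3217 (.arc (nat_lit 53) n3226 (.arc (nat_lit 56) n3236 (.arc (nat_lit 59) n3232 (.fin (nat_lit 811528341) (nat_lit 0)))))
def n3931 : Nd := .arc (nat_lit 9) n3930 (.fin (nat_lit 209088661) (nat_lit 0))
def n3932 : Nd := .arc (nat_lit 6) n3927 (.arc (nat_lit 52) n3209 (.arc (nat_lit 55) n3213 (.arc (nat_lit 58) n3216 (.fin (nat_lit 811511957) (nat_lit 0)))))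
def n3933 : Nd := .arc (nat_lit 3) n3931 (.arc (nat_lit 6) n3932 (.fin (nat_lit 208572565) (nat_lit 0)))
def n3934 : Nd := .arc (nat_lit 6) n3930 (.fin (nat_lit 208580757) (nat_lit 0))
def n3935 : Nd := .arc (nat_lit 9) n3925 (.fin (nat_lit 811495573) (nat_lit 0))
def n3936 : Nd := .arc (nat_lit 3) n3934 (.arc (nat_lit 9) n3935 (.fin (nat_lit 209080469) (nat_lit 0)))
def n3937 : Nd := .arc (nat_lit 3) n3929 (.arc (nat_lit 6) n3933 (.arc (nat_lit 9) n3936 (.fin (nat_lit 809373845) (nat_lit 0))))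
def n3938 : Nd := .arc (nat_lit 6) n3928 (.arc (nat_lit 9) n3926 (.fin (nat_lit 809382037) (nat_lit 0)))
def n3939 : Nd := .arc (nat_lit 62) n3217 (.arc (nat_lit 65) n3226 (.arc (nat_lit 68) n3232 (.arc (nat_lit 71) n3236 (.fin (nat_lit 809431189) (nat_lit 0)))))
def n3940 : Nd := .arc (nat_lit 9) n3939 (.fin (nat_lit 208564373) (nat_lit 0))
def n3941 : Nd := .arc (nat_lit 6) n3925 (.fin (nat_lit 809414805) (nat_lit 0))
def n3942 : Nd := .arc (nat_lit 3) n3940 (.arc (nat_lit 6) n3941 (.fin (nat_lit 209096853) (nat_lit 0)))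
def n3943 : Nd := .arc (nat_lit 6) n3939 (.fin (nat_lit 209105045) (nat_lit 0))
def n3944 : Nd := .arc (nat_lit 9) n3927 (.arc (nat_lit 64) n3209 (.arc (nat_lit 67) n3216 (.arc (nat_lit 70) n3213 (.fin (nat_lit 809398421) (nat_lit 0)))))
def n3945 : Nd := .arc (nat_lit 3) n3943 (.arc (nat_lit 9) n3944 (.fin (nat_lit 208556181) (nat_lit 0)))
def n3946 : Nd := .arc (nat_lit 3) n3938 (.arc (nat_lit 6) n3942 (.arc (nat_lit 9) n3945 (.fin (nat_lit 811470997) (nat_lit 0))))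
def n3947 : Nd := .arc (nat_lit 3) n3930 (.fin (nat_lit 809422997) (nat_lit 0))
def n3948 : Nd := .arc (nat_lit 3) n3939 (.fin (nat_lit 811520149) (nat_lit 0))
def n3949 : Nd := .arc (nat_lit 6) n3947 (.arc (nat_lit 9) n3948 (.fin (nat_lit 209072277) (nat_lit 0)))
def n3950 : Nd := .arc (nat_lit 3) n3944 (.arc (nat_lit 6) n3943 (.fin (nat_lit 811503765) (nat_lit 0)))
def n3951 : Nd := .arc (nat_lit 3) n3932 (.arc (nat_lit 9) n3931 (.fin (nat_lit 809390229) (nat_lit 0)))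
def n3952 : Nd := .arc (nat_lit 3) n3949 (.arc (nat_lit 6) n3950 (.arc (nat_lit 9) n3951 (.fin (nat_lit 208539797) (nat_lit 0))))
def n3953 : Nd := .arc (nat_lit 6) n3948 (.arc (nat_lit 9) n3947 (.fin (nat_lit 208547989) (nat_lit 0)))
def n3954 : Nd := .arc (nat_lit 3) n3935 (.arc (nat_lit 6) n3934 (.fin (nat_lit 809406613) (nat_lit 0)))
def n3955 : Nd := .arc (nat_lit 3) n3941 (.arc (nat_lit 9) n3940 (.fin (nat_lit 811487381) (nat_lit 0)))
def n3956 : Nd := .arc (nat_lit 3) n3953 (.arc (nat_lit 6) n3954 (.arc (nat_lit 9) n3955 (.fin (nat_lit 209064085) (nat_lit 0))))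
def n3957 : Nd := .arc (nat_lit 38) n3905 (.arc (nat_lit 41) n3914 (.arc (nat_lit 44) n3920 (.arc (nat_lit 47) n3924 (.arc (nat_lit 50) n3937 (.arc (nat_lit 53) n3946 (.arc (nat_lit 56) n3952 (.arc (nat_lit 59) n3956 (.fin (nat_lit 206499997) (nat_lit 0)))))))))
def n3958 : Nd := .arc (nat_lit 3) n3957 (.fin (nat_lit 204918939) (nat_lit 0))
def n3959 : Nd := .arc (nat_lit 26) n3905 (.arc (nat_lit 29) n3914 (.arc (nat_lit 32) n3924 (.arc (nat_lit 35) n3920 (.arc (nat_lit 62) n3937 (.arc (nat_lit 65) n3946 (.arc (nat_lit 68) n3956 (.arc (nat_lit 71) n3952 (.fin (nat_lit 204927131) (nat_lit 0)))))))))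
def n3960 : Nd := .arc (nat_lit 3) n3959 (.arc (nat_lit 40) n3897 (.arc (nat_lit 43) n3901 (.arc (nat_lit 46) n3904 (.fin (nat_lit 206491805) (nat_lit 0)))))
def n3961 : Nd := .arc (nat_lit 6) n3958 (.arc (nat_lit 9) n3960 (.fin (nat_lit 810954905) (nat_lit 0)))
def n3962 : Nd := .arc (nat_lit 26) n3937 (.arc (nat_lit 29) n3946 (.arc (nat_lit 32) n3956 (.arc (nat_lit 35) n3952 (.arc (nat_lit 50) n3905 (.arc (nat_lit 53) n3914 (.arc (nat_lit 56) n3920 (.arc (nat_lit 59) n3924 (.fin (nat_lit 811004057) (nat_lit 0)))))))))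
def n3963 : Nd := .arc (nat_lit 9) n3962 (.arc (nat_lit 64) n3929 (.arc (nat_lit 67) n3936 (.arc (nat_lit 70) n3933 (.fin (nat_lit 204894363) (nat_lit 0)))))
def n3964 : Nd := .arc (nat_lit 6) n3959 (.arc (nat_lit 52) n3897 (.arc (nat_lit 55) n3901 (.arc (nat_lit 58) n3904 (.fin (nat_lit 810987673) (nat_lit 0)))))
def n3965 : Nd := .arc (nat_lit 3) n3963 (.arc (nat_lit 6) n3964 (.fin (nat_lit 206475421) (nat_lit 0)))
def n3966 : Nd := .arc (nat_lit 6) n3962 (.arc (nat_lit 52) n3929 (.arc (nat_lit 55) n3933 (.arc (nat_lit 58) n3936 (.fin (nat_lit 206483613) (nat_lit 0)))))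
def n3967 : Nd := .arc (nat_lit 9) n3957 (.fin (nat_lit 810971289) (nat_lit 0))
def n3968 : Nd := .arc (nat_lit 3) n3966 (.arc (nat_lit 9) n3967 (.fin (nat_lit 204886171) (nat_lit 0)))
def n3969 : Nd := .arc (nat_lit 3) n3961 (.arc (nat_lit 6) n3965 (.arc (nat_lit 9) n3968 (.fin (nat_lit 808325271) (nat_lit 0))))
def n3970 : Nd := .arc (nat_lit 6) n3960 (.arc (nat_lit 9) n3958 (.fin (nat_lit 808333463) (nat_lit 0)))
def n3971 : Nd := .arc (nat_lit 38) n3937 (.arc (nat_lit 41) n3946 (.arc (nat_lit 44) n3952 (.arc (nat_lit 47) n3956 (.arc (nat_lit 62) n3905 (.arc (nat_lit 65) n3914 (.arc (nat_lit 68) n3924 (.arc (nat_lit 71) n3920 (.fin (nat_lit 808382615) (nat_lit 0)))))))))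
def n3972 : Nd := .arc (nat_lit 9) n3971 (.fin (nat_lit 206467229) (nat_lit 0))
def n3973 : Nd := .arc (nat_lit 6) n3957 (.fin (nat_lit 808366231) (nat_lit 0))
def n3974 : Nd := .arc (nat_lit 3) n3972 (.arc (nat_lit 6) n3973 (.fin (nat_lit 204902555) (nat_lit 0)))
def n3975 : Nd := .arc (nat_lit 6) n3971 (.fin (nat_lit 204910747) (nat_lit 0))
def n3976 : Nd := .arc (nat_lit 9) n3959 (.arc (nat_lit 64) n3897 (.arc (nat_lit 67) n3904 (.arc (nat_lit 70) n3901 (.fin (nat_lit 808349847) (nat_lit 0)))))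
def n3977 : Nd := .arc (nat_lit 3) n3975 (.arc (nat_lit 9) n3976 (.fin (nat_lit 206459037) (nat_lit 0)))
def n3978 : Nd := .arc (nat_lit 3) n3970 (.arc (nat_lit 6) n3974 (.arc (nat_lit 9) n3977 (.fin (nat_lit 810946713) (nat_lit 0))))
def n3979 : Nd := .arc (nat_lit 3) n3971 (.fin (nat_lit 810995865) (nat_lit 0))
def n3980 : Nd := .arc (nat_lit 3) n3962 (.arc (nat_lit 40) n3929 (.arc (nat_lit 43) n3933 (.arc (nat_lit 46) n3936 (.fin (nat_lit 808374423) (nat_lit 0)))))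
def n3981 : Nd := .arc (nat_lit 6) n3979 (.arc (nat_lit 9) n3980 (.fin (nat_lit 206450845) (nat_lit 0)))
def n3982 : Nd := .arc (nat_lit 3) n3967 (.arc (nat_lit 6) n3966 (.fin (nat_lit 808358039) (nat_lit 0)))
def n3983 : Nd := .arc (nat_lit 3) n3973 (.arc (nat_lit 9) n3972 (.fin (nat_lit 810963097) (nat_lit 0)))
def n3984 : Nd := .arc (nat_lit 3) n3981 (.arc (nat_lit 6) n3982 (.arc (nat_lit 9) n3983 (.fin (nat_lit 204869787) (nat_lit 0))))
def n3985 : Nd := .arc (nat_lit 6) n3980 (.arc (nat_lit 9) n3979 (.fin (nat_lit 204877979) (nat_lit 0)))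
def n3986 : Nd := .arc (nat_lit 3) n3976 (.arc (nat_lit 6) n3975 (.fin (nat_lit 810979481) (nat_lit 0)))
def n3987 : Nd := .arc (nat_lit 3) n3964 (.arc (nat_lit 9) n3963 (.fin (nat_lit 808341655) (nat_lit 0)))
def n3988 : Nd := .arc (nat_lit 3) n3985 (.arc (nat_lit 6) n3986 (.arc (nat_lit 9) n3987 (.fin (nat_lit 206442653) (nat_lit 0))))
def n3989 : Nd := .arc (nat_lit 26) n3345 (.arc (nat_lit 29) n3354 (.arc (nat_lit 32) n3360 (.arc (nat_lit 35) n3364 (.arc (nat_lit 50) n3392 (.arc (nat_lit 53) n3396 (.arc (nat_lit 56) n3386 (.arc (nat_lit 59) n3377 (.fin (nat_lit 207024277) (nat_lit 0)))))))))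
def n3990 : Nd := .arc (nat_lit 3) n3989 (.arc (nat_lit 40) n3337 (.arc (nat_lit 43) n3341 (.arc (nat_lit 46) n3344 (.fin (nat_lit 204394645) (nat_lit 0)))))
def n3991 : Nd := .arc (nat_lit 38) n3345 (.arc (nat_lit 41) n3354 (.arc (nat_lit 44) n3364 (.arc (nat_lit 47) n3360 (.arc (nat_lit 62) n3392 (.arc (nat_lit 65) n3396 (.arc (nat_lit 68) n3377 (.arc (nat_lit 71) n3386 (.fin (nat_lit 204402837) (nat_lit 0)))))))))
def n3992 : Nd := .arc (nat_lit 3) n3991 (.fin (nat_lit 207016085) (nat_lit 0))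
def n3993 : Nd := .arc (nat_lit 6) n3990 (.arc (nat_lit 9) n3992 (.fin (nat_lit 808857749) (nat_lit 0)))
def n3994 : Nd := .arc (nat_lit 26) n3392 (.arc (nat_lit 29) n3396 (.arc (nat_lit 32) n3377 (.arc (nat_lit 35) n3386 (.arc (nat_lit 62) n3345 (.arc (nat_lit 65) n3354 (.arc (nat_lit 68) n3360 (.arc (nat_lit 71) n3364 (.fin (nat_lit 808906901) (nat_lit 0)))))))))
def n3995 : Nd := .arc (nat_lit 9) n3994 (.arc (nat_lit 64) n3389 (.arc (nat_lit 67) n3391 (.arc (nat_lit 70) n3390 (.fin (nat_lit 204370069) (nat_lit 0)))))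
def n3996 : Nd := .arc (nat_lit 6) n3991 (.fin (nat_lit 808890517) (nat_lit 0))
def n3997 : Nd := .arc (nat_lit 3) n3995 (.arc (nat_lit 6) n3996 (.fin (nat_lit 206999701) (nat_lit 0)))
def n3998 : Nd := .arc (nat_lit 6) n3994 (.arc (nat_lit 52) n3389 (.arc (nat_lit 55) n3390 (.arc (nat_lit 58) n3391 (.fin (nat_lit 207007893) (nat_lit 0)))))
def n3999 : Nd := .arc (nat_lit 9) n3989 (.arc (nat_lit 64) n3337 (.arc (nat_lit 67) n3344 (.arc (nat_lit 70) n3341 (.fin (nat_lit 808874133) (nat_lit 0)))))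
def n4000 : Nd := .arc (nat_lit 3) n3998 (.arc (nat_lit 9) n3999 (.fin (nat_lit 204361877) (nat_lit 0)))
def n4001 : Nd := .arc (nat_lit 3) n3993 (.arc (nat_lit 6) n3997 (.arc (nat_lit 9) n4000 (.fin (nat_lit 810422421) (nat_lit 0))))
def n4002 : Nd := .arc (nat_lit 6) n3992 (.arc (nat_lit 9) n3990 (.fin (nat_lit 810430613) (nat_lit 0)))
def n4003 : Nd := .arc (nat_lit 38) n3392 (.arc (nat_lit 41) n3396 (.arc (nat_lit 44) n3386 (.arc (nat_lit 47) n3377 (.arc (nat_lit 50) n3345 (.arc (nat_lit 53) n3354 (.arc (nat_lit 56) n3364 (.arc (nat_lit 59) n3360 (.fin (nat_lit 810479765) (nat_lit 0)))))))))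
def n4004 : Nd := .arc (nat_lit 9) n4003 (.fin (nat_lit 206991509) (nat_lit 0))
def n4005 : Nd := .arc (nat_lit 6) n3989 (.arc (nat_lit 52) n3337 (.arc (nat_lit 55) n3341 (.arc (nat_lit 58) n3344 (.fin (nat_lit 810463381) (nat_lit 0)))))
def n4006 : Nd := .arc (nat_lit 3) n4004 (.arc (nat_lit 6) n4005 (.fin (nat_lit 204378261) (nat_lit 0)))
def n4007 : Nd := .arc (nat_lit 6) n4003 (.fin (nat_lit 204386453) (nat_lit 0))
def n4008 : Nd := .arc (nat_lit 9) n3991 (.fin (nat_lit 810446997) (nat_lit 0))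
def n4009 : Nd := .arc (nat_lit 3) n4007 (.arc (nat_lit 9) n4008 (.fin (nat_lit 206983317) (nat_lit 0)))
def n4010 : Nd := .arc (nat_lit 3) n4002 (.arc (nat_lit 6) n4006 (.arc (nat_lit 9) n4009 (.fin (nat_lit 808849557) (nat_lit 0))))
def n4011 : Nd := .arc (nat_lit 3) n3994 (.arc (nat_lit 40) n3389 (.arc (nat_lit 43) n3390 (.arc (nat_lit 46) n3391 (.fin (nat_lit 810471573) (nat_lit 0)))))
def n4012 : Nd := .arc (nat_lit 3) n4003 (.fin (nat_lit 808898709) (nat_lit 0))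
def n4013 : Nd := .arc (nat_lit 6) n4011 (.arc (nat_lit 9) n4012 (.fin (nat_lit 204353685) (nat_lit 0)))
def n4014 : Nd := .arc (nat_lit 3) n4008 (.arc (nat_lit 6) n4007 (.fin (nat_lit 808882325) (nat_lit 0)))
def n4015 : Nd := .arc (nat_lit 3) n3996 (.arc (nat_lit 9) n3995 (.fin (nat_lit 810438805) (nat_lit 0)))
def n4016 : Nd := .arc (nat_lit 3) n4013 (.arc (nat_lit 6) n4014 (.arc (nat_lit 9) n4015 (.fin (nat_lit 206966933) (nat_lit 0))))
def n4017 : Nd := .arc (nat_lit 6) n4012 (.arc (nat_lit 9) n4011 (.fin (nat_lit 206975125) (nat_lit 0)))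
def n4018 : Nd := .arc (nat_lit 3) n3999 (.arc (nat_lit 6) n3998 (.fin (nat_lit 810455189) (nat_lit 0)))
def n4019 : Nd := .arc (nat_lit 3) n4005 (.arc (nat_lit 9) n4004 (.fin (nat_lit 808865941) (nat_lit 0)))
def n4020 : Nd := .arc (nat_lit 3) n4017 (.arc (nat_lit 6) n4018 (.arc (nat_lit 9) n4019 (.fin (nat_lit 204345493) (nat_lit 0))))
def n4021 : Nd := .arc (nat_lit 38) n3824 (.arc (nat_lit 41) n3828 (.arc (nat_lit 44) n3818 (.arc (nat_lit 47) n3809 (.arc (nat_lit 50) n3792 (.arc (nat_lit 53) n3796 (.arc (nat_lit 56) n3777 (.arc (nat_lit 59) n3786 (.fin (nat_lit 55505047) (nat_lit 0)))))))))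
def n4022 : Nd := .arc (nat_lit 3) n4021 (.fin (nat_lit 53923993) (nat_lit 0))
def n4023 : Nd := .arc (nat_lit 26) n3824 (.arc (nat_lit 29) n3828 (.arc (nat_lit 32) n3809 (.arc (nat_lit 35) n3818 (.arc (nat_lit 62) n3792 (.arc (nat_lit 65) n3796 (.arc (nat_lit 68) n3786 (.arc (nat_lit 71) n3777 (.fin (nat_lit 53932185) (nat_lit 0)))))))))
def n4024 : Nd := .arc (nat_lit 3) n4023 (.arc (nat_lit 40) n3821 (.arc (nat_lit 43) n3822 (.arc (nat_lit 46) n3823 (.fin (nat_lit 55496855) (nat_lit 0)))))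
def n4025 : Nd := .arc (nat_lit 6) n4022 (.arc (nat_lit 9) n4024 (.fin (nat_lit 55980189) (nat_lit 0)))
def n4026 : Nd := .arc (nat_lit 26) n3792 (.arc (nat_lit 29) n3796 (.arc (nat_lit 32) n3786 (.arc (nat_lit 35) n3777 (.arc (nat_lit 50) n3824 (.arc (nat_lit 53) n3828 (.arc (nat_lit 56) n3818 (.arc (nat_lit 59) n3809 (.fin (nat_lit 56029341) (nat_lit 0)))))))))
def n4027 : Nd := .arc (nat_lit 9) n4026 (.arc (nat_lit 64) n3789 (.arc (nat_lit 67) n3791 (.arc (nat_lit 70) n3790 (.fin (nat_lit 53899417) (nat_lit 0)))))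
def n4028 : Nd := .arc (nat_lit 6) n4023 (.arc (nat_lit 52) n3821 (.arc (nat_lit 55) n3822 (.arc (nat_lit 58) n3823 (.fin (nat_lit 56012957) (nat_lit 0)))))
def n4029 : Nd := .arc (nat_lit 3) n4027 (.arc (nat_lit 6) n4028 (.fin (nat_lit 55480471) (nat_lit 0)))
def n4030 : Nd := .arc (nat_lit 6) n4026 (.arc (nat_lit 52) n3789 (.arc (nat_lit 55) n3790 (.arc (nat_lit 58) n3791 (.fin (nat_lit 55488663) (nat_lit 0)))))
def n4031 : Nd := .arc (nat_lit 9) n4021 (.fin (nat_lit 55996573) (nat_lit 0))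
def n4032 : Nd := .arc (nat_lit 3) n4030 (.arc (nat_lit 9) n4031 (.fin (nat_lit 53891225) (nat_lit 0)))
def n4033 : Nd := .arc (nat_lit 3) n4025 (.arc (nat_lit 6) n4029 (.arc (nat_lit 9) n4032 (.fin (nat_lit 53350555) (nat_lit 0))))
def n4034 : Nd := .arc (nat_lit 6) n4024 (.arc (nat_lit 9) n4022 (.fin (nat_lit 53358747) (nat_lit 0)))
def n4035 : Nd := .arc (nat_lit 38) n3792 (.arc (nat_lit 41) n3796 (.arc (nat_lit 44) n3777 (.arc (nat_lit 47) n3786 (.arc (nat_lit 62) n3824 (.arc (nat_lit 65) n3828 (.arc (nat_lit 68) n3809 (.arc (nat_lit 71) n3818 (.fin (nat_lit 53407899) (nat_lit 0)))))))))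
def n4036 : Nd := .arc (nat_lit 9) n4035 (.fin (nat_lit 55472279) (nat_lit 0))
def n4037 : Nd := .arc (nat_lit 6) n4021 (.fin (nat_lit 53391515) (nat_lit 0))
def n4038 : Nd := .arc (nat_lit 3) n4036 (.arc (nat_lit 6) n4037 (.fin (nat_lit 53907609) (nat_lit 0)))
def n4039 : Nd := .arc (nat_lit 6) n4035 (.fin (nat_lit 53915801) (nat_lit 0))
def n4040 : Nd := .arc (nat_lit 9) n4023 (.arc (nat_lit 64) n3821 (.arc (nat_lit 67) n3823 (.arc (nat_lit 70) n3822 (.fin (nat_lit 53375131) (nat_lit 0)))))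
def n4041 : Nd := .arc (nat_lit 3) n4039 (.arc (nat_lit 9) n4040 (.fin (nat_lit 55464087) (nat_lit 0)))
def n4042 : Nd := .arc (nat_lit 3) n4034 (.arc (nat_lit 6) n4038 (.arc (nat_lit 9) n4041 (.fin (nat_lit 55971997) (nat_lit 0))))
def n4043 : Nd := .arc (nat_lit 3) n4026 (.arc (nat_lit 40) n3789 (.arc (nat_lit 43) n3790 (.arc (nat_lit 46) n3791 (.fin (nat_lit 53399707) (nat_lit 0)))))
def n4044 : Nd := .arc (nat_lit 3) n4035 (.fin (nat_lit 56021149) (nat_lit 0))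
def n4045 : Nd := .arc (nat_lit 6) n4043 (.arc (nat_lit 9) n4044 (.fin (nat_lit 53883033) (nat_lit 0)))
def n4046 : Nd := .arc (nat_lit 3) n4040 (.arc (nat_lit 6) n4039 (.fin (nat_lit 56004765) (nat_lit 0)))
def n4047 : Nd := .arc (nat_lit 3) n4028 (.arc (nat_lit 9) n4027 (.fin (nat_lit 53366939) (nat_lit 0)))
def n4048 : Nd := .arc (nat_lit 3) n4045 (.arc (nat_lit 6) n4046 (.arc (nat_lit 9) n4047 (.fin (nat_lit 55447703) (nat_lit 0))))
def n4049 : Nd := .arc (nat_lit 6) n4044 (.arc (nat_lit 9) n4043 (.fin (nat_lit 55455895) (nat_lit 0)))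
def n4050 : Nd := .arc (nat_lit 3) n4031 (.arc (nat_lit 6) n4030 (.fin (nat_lit 53383323) (nat_lit 0)))
def n4051 : Nd := .arc (nat_lit 3) n4037 (.arc (nat_lit 9) n4036 (.fin (nat_lit 55988381) (nat_lit 0)))
def n4052 : Nd := .arc (nat_lit 3) n4049 (.arc (nat_lit 6) n4050 (.arc (nat_lit 9) n4051 (.fin (nat_lit 53874841) (nat_lit 0))))
def n4053 : Nd := .arc (nat_lit 14) n3969 (.arc (nat_lit 17) n3978 (.arc (nat_lit 20) n3984 (.arc (nat_lit 23) n3988 (.arc (nat_lit 38) n4001 (.arc (nat_lit 41) n4010 (.arc (nat_lit 44) n4016 (.arc (nat_lit 47) n4020 (.arc (nat_lit 50) n4033 (.arc (nat_lit 53) n4042 (.arc (nat_lit 56) n4048 (.arc (nat_lit 59) n4052 (.fin (nat_lit 810217623) (nat_lit 0)))))))))))))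
def n4054 : Nd := .arc (nat_lit 3) n4053 (.fin (nat_lit 808636569) (nat_lit 0))
def n4055 : Nd := .arc (nat_lit 14) n3978 (.arc (nat_lit 17) n3969 (.arc (nat_lit 20) n3988 (.arc (nat_lit 23) n3984 (.arc (nat_lit 26) n4001 (.arc (nat_lit 29) n4010 (.arc (nat_lit 32) n4020 (.arc (nat_lit 35) n4016 (.arc (nat_lit 62) n4033 (.arc (nat_lit 65) n4042 (.arc (nat_lit 68) n4052 (.arc (nat_lit 71) n4048 (.fin (nat_lit 808644761) (nat_lit 0)))))))))))))
def n4056 : Nd := .arc (nat_lit 3) n4055 (.arc (nat_lit 40) n3993 (.arc (nat_lit 43) n3997 (.arc (nat_lit 46) n4000 (.fin (nat_lit 810209431) (nat_lit 0)))))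
def n4057 : Nd := .arc (nat_lit 6) n4054 (.arc (nat_lit 9) n4056 (.fin (nat_lit 206712989) (nat_lit 0)))
def n4058 : Nd := .arc (nat_lit 14) n3984 (.arc (nat_lit 17) n3988 (.arc (nat_lit 20) n3978 (.arc (nat_lit 23) n3969 (.arc (nat_lit 26) n4033 (.arc (nat_lit 29) n4042 (.arc (nat_lit 32) n4052 (.arc (nat_lit 35) n4048 (.arc (nat_lit 50) n4001 (.arc (nat_lit 53) n4010 (.arc (nat_lit 56) n4016 (.arc (nat_lit 59) n4020 (.fin (nat_lit 206762141) (nat_lit 0)))))))))))))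
def n4059 : Nd := .arc (nat_lit 9) n4058 (.arc (nat_lit 64) n4025 (.arc (nat_lit 67) n4032 (.arc (nat_lit 70) n4029 (.fin (nat_lit 808611993) (nat_lit 0)))))
def n4060 : Nd := .arc (nat_lit 6) n4055 (.arc (nat_lit 52) n3993 (.arc (nat_lit 55) n3997 (.arc (nat_lit 58) n4000 (.fin (nat_lit 206745757) (nat_lit 0)))))
def n4061 : Nd := .arc (nat_lit 3) n4059 (.arc (nat_lit 6) n4060 (.fin (nat_lit 810193047) (nat_lit 0)))
def n4062 : Nd := .arc (nat_lit 6) n4058 (.arc (nat_lit 52) n4025 (.arc (nat_lit 55) n4029 (.arc (nat_lit 58) n4032 (.fin (nat_lit 810201239) (nat_lit 0)))))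
def n4063 : Nd := .arc (nat_lit 9) n4053 (.fin (nat_lit 206729373) (nat_lit 0))
def n4064 : Nd := .arc (nat_lit 3) n4062 (.arc (nat_lit 9) n4063 (.fin (nat_lit 808603801) (nat_lit 0)))
def n4065 : Nd := .arc (nat_lit 3) n4057 (.arc (nat_lit 6) n4061 (.arc (nat_lit 9) n4064 (.fin (nat_lit 204083355) (nat_lit 0))))
def n4066 : Nd := .arc (nat_lit 6) n4056 (.arc (nat_lit 9) n4054 (.fin (nat_lit 204091547) (nat_lit 0)))
def n4067 : Nd := .arc (nat_lit 14) n3988 (.arc (nat_lit 17) n3984 (.arc (nat_lit 20) n3969 (.arc (nat_lit 23) n3978 (.arc (nat_lit 38) n4033 (.arc (nat_lit 41) n4042 (.arc (nat_lit 44) n4048 (.arc (nat_lit 47) n4052 (.arc (nat_lit 62) n4001 (.arc (nat_lit 65) n4010 (.arc (nat_lit 68) n4020 (.arc (nat_lit 71) n4016 (.fin (nat_lit 204140699) (nat_lit 0)))))))))))))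
def n4068 : Nd := .arc (nat_lit 9) n4067 (.fin (nat_lit 810184855) (nat_lit 0))
def n4069 : Nd := .arc (nat_lit 6) n4053 (.fin (nat_lit 204124315) (nat_lit 0))
def n4070 : Nd := .arc (nat_lit 3) n4068 (.arc (nat_lit 6) n4069 (.fin (nat_lit 808620185) (nat_lit 0)))
def n4071 : Nd := .arc (nat_lit 6) n4067 (.fin (nat_lit 808628377) (nat_lit 0))
def n4072 : Nd := .arc (nat_lit 9) n4055 (.arc (nat_lit 64) n3993 (.arc (nat_lit 67) n4000 (.arc (nat_lit 70) n3997 (.fin (nat_lit 204107931) (nat_lit 0)))))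
def n4073 : Nd := .arc (nat_lit 3) n4071 (.arc (nat_lit 9) n4072 (.fin (nat_lit 810176663) (nat_lit 0)))
def n4074 : Nd := .arc (nat_lit 3) n4066 (.arc (nat_lit 6) n4070 (.arc (nat_lit 9) n4073 (.fin (nat_lit 206704797) (nat_lit 0))))
def n4075 : Nd := .arc (nat_lit 3) n4067 (.fin (nat_lit 206753949) (nat_lit 0))
def n4076 : Nd := .arc (nat_lit 3) n4058 (.arc (nat_lit 40) n4025 (.arc (nat_lit 43) n4029 (.arc (nat_lit 46) n4032 (.fin (nat_lit 204132507) (nat_lit 0)))))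
def n4077 : Nd := .arc (nat_lit 6) n4075 (.arc (nat_lit 9) n4076 (.fin (nat_lit 810168471) (nat_lit 0)))
def n4078 : Nd := .arc (nat_lit 3) n4063 (.arc (nat_lit 6) n4062 (.fin (nat_lit 204116123) (nat_lit 0)))
def n4079 : Nd := .arc (nat_lit 3) n4069 (.arc (nat_lit 9) n4068 (.fin (nat_lit 206721181) (nat_lit 0)))
def n4080 : Nd := .arc (nat_lit 3) n4077 (.arc (nat_lit 6) n4078 (.arc (nat_lit 9) n4079 (.fin (nat_lit 808587417) (nat_lit 0))))
def n4081 : Nd := .arc (nat_lit 6) n4076 (.arc (nat_lit 9) n4075 (.fin (nat_lit 808595609) (nat_lit 0)))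
def n4082 : Nd := .arc (nat_lit 3) n4072 (.arc (nat_lit 6) n4071 (.fin (nat_lit 206737565) (nat_lit 0)))
def n4083 : Nd := .arc (nat_lit 3) n4060 (.arc (nat_lit 9) n4059 (.fin (nat_lit 204099739) (nat_lit 0)))
def n4084 : Nd := .arc (nat_lit 3) n4081 (.arc (nat_lit 6) n4082 (.arc (nat_lit 9) n4083 (.fin (nat_lit 810160279) (nat_lit 0))))
def n4085 : Nd := .arc (nat_lit 38) n3914 (.arc (nat_lit 41) n3905 (.arc (nat_lit 44) n3924 (.arc (nat_lit 47) n3920 (.arc (nat_lit 62) n3946 (.arc (nat_lit 65) n3937 (.arc (nat_lit 68) n3952 (.arc (nat_lit 71) n3956 (.fin (nat_lit 204402843) (nat_lit 0)))))))))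
def n4086 : Nd := .arc (nat_lit 3) n4085 (.fin (nat_lit 207016093) (nat_lit 0))
def n4087 : Nd := .arc (nat_lit 26) n3914 (.arc (nat_lit 29) n3905 (.arc (nat_lit 32) n3920 (.arc (nat_lit 35) n3924 (.arc (nat_lit 50) n3946 (.arc (nat_lit 53) n3937 (.arc (nat_lit 56) n3956 (.arc (nat_lit 59) n3952 (.fin (nat_lit 207024285) (nat_lit 0)))))))))
def n4088 : Nd := .arc (nat_lit 3) n4087 (.arc (nat_lit 40) n3906 (.arc (nat_lit 43) n3910 (.arc (nat_lit 46) n3913 (.fin (nat_lit 204394651) (nat_lit 0)))))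
def n4089 : Nd := .arc (nat_lit 6) n4086 (.arc (nat_lit 9) n4088 (.fin (nat_lit 810430615) (nat_lit 0)))
def n4090 : Nd := .arc (nat_lit 38) n3946 (.arc (nat_lit 41) n3937 (.arc (nat_lit 44) n3956 (.arc (nat_lit 47) n3952 (.arc (nat_lit 50) n3914 (.arc (nat_lit 53) n3905 (.arc (nat_lit 56) n3924 (.arc (nat_lit 59) n3920 (.fin (nat_lit 810479767) (nat_lit 0)))))))))
def n4091 : Nd := .arc (nat_lit 9) n4090 (.fin (nat_lit 206991517) (nat_lit 0))
def n4092 : Nd := .arc (nat_lit 6) n4087 (.arc (nat_lit 52) n3906 (.arc (nat_lit 55) n3910 (.arc (nat_lit 58) n3913 (.fin (nat_lit 810463383) (nat_lit 0)))))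
def n4093 : Nd := .arc (nat_lit 3) n4091 (.arc (nat_lit 6) n4092 (.fin (nat_lit 204378267) (nat_lit 0)))
def n4094 : Nd := .arc (nat_lit 6) n4090 (.fin (nat_lit 204386459) (nat_lit 0))
def n4095 : Nd := .arc (nat_lit 9) n4085 (.fin (nat_lit 810446999) (nat_lit 0))
def n4096 : Nd := .arc (nat_lit 3) n4094 (.arc (nat_lit 9) n4095 (.fin (nat_lit 206983325) (nat_lit 0)))
def n4097 : Nd := .arc (nat_lit 3) n4089 (.arc (nat_lit 6) n4093 (.arc (nat_lit 9) n4096 (.fin (nat_lit 808849561) (nat_lit 0))))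
def n4098 : Nd := .arc (nat_lit 6) n4088 (.arc (nat_lit 9) n4086 (.fin (nat_lit 808857753) (nat_lit 0)))
def n4099 : Nd := .arc (nat_lit 26) n3946 (.arc (nat_lit 29) n3937 (.arc (nat_lit 32) n3952 (.arc (nat_lit 35) n3956 (.arc (nat_lit 62) n3914 (.arc (nat_lit 65) n3905 (.arc (nat_lit 68) n3920 (.arc (nat_lit 71) n3924 (.fin (nat_lit 808906905) (nat_lit 0)))))))))
def n4100 : Nd := .arc (nat_lit 9) n4099 (.arc (nat_lit 64) n3938 (.arc (nat_lit 67) n3945 (.arc (nat_lit 70) n3942 (.fin (nat_lit 204370075) (nat_lit 0)))))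
def n4101 : Nd := .arc (nat_lit 6) n4085 (.fin (nat_lit 808890521) (nat_lit 0))
def n4102 : Nd := .arc (nat_lit 3) n4100 (.arc (nat_lit 6) n4101 (.fin (nat_lit 206999709) (nat_lit 0)))
def n4103 : Nd := .arc (nat_lit 6) n4099 (.arc (nat_lit 52) n3938 (.arc (nat_lit 55) n3942 (.arc (nat_lit 58) n3945 (.fin (nat_lit 207007901) (nat_lit 0)))))
def n4104 : Nd := .arc (nat_lit 9) n4087 (.arc (nat_lit 64) n3906 (.arc (nat_lit 67) n3913 (.arc (nat_lit 70) n3910 (.fin (nat_lit 808874137) (nat_lit 0)))))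
def n4105 : Nd := .arc (nat_lit 3) n4103 (.arc (nat_lit 9) n4104 (.fin (nat_lit 204361883) (nat_lit 0)))
def n4106 : Nd := .arc (nat_lit 3) n4098 (.arc (nat_lit 6) n4102 (.arc (nat_lit 9) n4105 (.fin (nat_lit 810422423) (nat_lit 0))))
def n4107 : Nd := .arc (nat_lit 3) n4099 (.arc (nat_lit 40) n3938 (.arc (nat_lit 43) n3942 (.arc (nat_lit 46) n3945 (.fin (nat_lit 810471575) (nat_lit 0)))))
def n4108 : Nd := .arc (nat_lit 3) n4090 (.fin (nat_lit 808898713) (nat_lit 0))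
def n4109 : Nd := .arc (nat_lit 6) n4107 (.arc (nat_lit 9) n4108 (.fin (nat_lit 204353691) (nat_lit 0)))
def n4110 : Nd := .arc (nat_lit 3) n4095 (.arc (nat_lit 6) n4094 (.fin (nat_lit 808882329) (nat_lit 0)))
def n4111 : Nd := .arc (nat_lit 3) n4101 (.arc (nat_lit 9) n4100 (.fin (nat_lit 810438807) (nat_lit 0)))
def n4112 : Nd := .arc (nat_lit 3) n4109 (.arc (nat_lit 6) n4110 (.arc (nat_lit 9) n4111 (.fin (nat_lit 206966941) (nat_lit 0))))
def n4113 : Nd := .arc (nat_lit 6) n4108 (.arc (nat_lit 9) n4107 (.fin (nat_lit 206975133) (nat_lit 0)))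
def n4114 : Nd := .arc (nat_lit 3) n4104 (.arc (nat_lit 6) n4103 (.fin (nat_lit 810455191) (nat_lit 0)))
def n4115 : Nd := .arc (nat_lit 3) n4092 (.arc (nat_lit 9) n4091 (.fin (nat_lit 808865945) (nat_lit 0)))
def n4116 : Nd := .arc (nat_lit 3) n4113 (.arc (nat_lit 6) n4114 (.arc (nat_lit 9) n4115 (.fin (nat_lit 204345499) (nat_lit 0))))
def n4117 : Nd := .arc (nat_lit 38) n3450 (.arc (nat_lit 41) n3441 (.arc (nat_lit 44) n3456 (.arc (nat_lit 47) n3460 (.arc (nat_lit 50) n3492 (.arc (nat_lit 53) n3488 (.arc (nat_lit 56) n3473 (.arc (nat_lit 59) n3482 (.fin (nat_lit 206499989) (nat_lit 0)))))))))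
def n4118 : Nd := .arc (nat_lit 3) n4117 (.fin (nat_lit 204918933) (nat_lit 0))
def n4119 : Nd := .arc (nat_lit 26) n3450 (.arc (nat_lit 29) n3441 (.arc (nat_lit 32) n3460 (.arc (nat_lit 35) n3456 (.arc (nat_lit 62) n3492 (.arc (nat_lit 65) n3488 (.arc (nat_lit 68) n3482 (.arc (nat_lit 71) n3473 (.fin (nat_lit 204927125) (nat_lit 0)))))))))
def n4120 : Nd := .arc (nat_lit 3) n4119 (.arc (nat_lit 40) n3442 (.arc (nat_lit 43) n3446 (.arc (nat_lit 46) n3449 (.fin (nat_lit 206491797) (nat_lit 0)))))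
def n4121 : Nd := .arc (nat_lit 6) n4118 (.arc (nat_lit 9) n4120 (.fin (nat_lit 810954901) (nat_lit 0)))
def n4122 : Nd := .arc (nat_lit 26) n3492 (.arc (nat_lit 29) n3488 (.arc (nat_lit 32) n3482 (.arc (nat_lit 35) n3473 (.arc (nat_lit 50) n3450 (.arc (nat_lit 53) n3441 (.arc (nat_lit 56) n3456 (.arc (nat_lit 59) n3460 (.fin (nat_lit 811004053) (nat_lit 0)))))))))
def n4123 : Nd := .arc (nat_lit 9) n4122 (.arc (nat_lit 64) n3489 (.arc (nat_lit 67) n3491 (.arc (nat_lit 70) n3490 (.fin (nat_lit 204894357) (nat_lit 0)))))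
def n4124 : Nd := .arc (nat_lit 6) n4119 (.arc (nat_lit 52) n3442 (.arc (nat_lit 55) n3446 (.arc (nat_lit 58) n3449 (.fin (nat_lit 810987669) (nat_lit 0)))))
def n4125 : Nd := .arc (nat_lit 3) n4123 (.arc (nat_lit 6) n4124 (.fin (nat_lit 206475413) (nat_lit 0)))
def n4126 : Nd := .arc (nat_lit 6) n4122 (.arc (nat_lit 52) n3489 (.arc (nat_lit 55) n3490 (.arc (nat_lit 58) n3491 (.fin (nat_lit 206483605) (nat_lit 0)))))
def n4127 : Nd := .arc (nat_lit 9) n4117 (.fin (nat_lit 810971285) (nat_lit 0))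
def n4128 : Nd := .arc (nat_lit 3) n4126 (.arc (nat_lit 9) n4127 (.fin (nat_lit 204886165) (nat_lit 0)))
def n4129 : Nd := .arc (nat_lit 3) n4121 (.arc (nat_lit 6) n4125 (.arc (nat_lit 9) n4128 (.fin (nat_lit 808325269) (nat_lit 0))))
def n4130 : Nd := .arc (nat_lit 6) n4120 (.arc (nat_lit 9) n4118 (.fin (nat_lit 808333461) (nat_lit 0)))
def n4131 : Nd := .arc (nat_lit 38) n3492 (.arc (nat_lit 41) n3488 (.arc (nat_lit 44) n3473 (.arc (nat_lit 47) n3482 (.arc (nat_lit 62) n3450 (.arc (nat_lit 65) n3441 (.arc (nat_lit 68) n3460 (.arc (nat_lit 71) n3456 (.fin (nat_lit 808382613) (nat_lit 0)))))))))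
def n4132 : Nd := .arc (nat_lit 9) n4131 (.fin (nat_lit 206467221) (nat_lit 0))
def n4133 : Nd := .arc (nat_lit 6) n4117 (.fin (nat_lit 808366229) (nat_lit 0))
def n4134 : Nd := .arc (nat_lit 3) n4132 (.arc (nat_lit 6) n4133 (.fin (nat_lit 204902549) (nat_lit 0)))
def n4135 : Nd := .arc (nat_lit 6) n4131 (.fin (nat_lit 204910741) (nat_lit 0))
def n4136 : Nd := .arc (nat_lit 9) n4119 (.arc (nat_lit 64) n3442 (.arc (nat_lit 67) n3449 (.arc (nat_lit 70) n3446 (.fin (nat_lit 808349845) (nat_lit 0)))))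
def n4137 : Nd := .arc (nat_lit 3) n4135 (.arc (nat_lit 9) n4136 (.fin (nat_lit 206459029) (nat_lit 0)))
def n4138 : Nd := .arc (nat_lit 3) n4130 (.arc (nat_lit 6) n4134 (.arc (nat_lit 9) n4137 (.fin (nat_lit 810946709) (nat_lit 0))))
def n4139 : Nd := .arc (nat_lit 3) n4131 (.fin (nat_lit 810995861) (nat_lit 0))
def n4140 : Nd := .arc (nat_lit 3) n4122 (.arc (nat_lit 40) n3489 (.arc (nat_lit 43) n3490 (.arc (nat_lit 46) n3491 (.fin (nat_lit 808374421) (nat_lit 0)))))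
def n4141 : Nd := .arc (nat_lit 6) n4139 (.arc (nat_lit 9) n4140 (.fin (nat_lit 206450837) (nat_lit 0)))
def n4142 : Nd := .arc (nat_lit 3) n4127 (.arc (nat_lit 6) n4126 (.fin (nat_lit 808358037) (nat_lit 0)))
def n4143 : Nd := .arc (nat_lit 3) n4133 (.arc (nat_lit 9) n4132 (.fin (nat_lit 810963093) (nat_lit 0)))
def n4144 : Nd := .arc (nat_lit 3) n4141 (.arc (nat_lit 6) n4142 (.arc (nat_lit 9) n4143 (.fin (nat_lit 204869781) (nat_lit 0))))
def n4145 : Nd := .arc (nat_lit 6) n4140 (.arc (nat_lit 9) n4139 (.fin (nat_lit 204877973) (nat_lit 0)))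
def n4146 : Nd := .arc (nat_lit 3) n4136 (.arc (nat_lit 6) n4135 (.fin (nat_lit 810979477) (nat_lit 0)))
def n4147 : Nd := .arc (nat_lit 3) n4124 (.arc (nat_lit 9) n4123 (.fin (nat_lit 808341653) (nat_lit 0)))
def n4148 : Nd := .arc (nat_lit 3) n4145 (.arc (nat_lit 6) n4146 (.arc (nat_lit 9) n4147 (.fin (nat_lit 206442645) (nat_lit 0))))
def n4149 : Nd := .arc (nat_lit 26) n3828 (.arc (nat_lit 29) n3824 (.arc (nat_lit 32) n3818 (.arc (nat_lit 35) n3809 (.arc (nat_lit 50) n3796 (.arc (nat_lit 53) n3792 (.arc (nat_lit 56) n3786 (.arc (nat_lit 59) n3777 (.fin (nat_lit 56029337) (nat_lit 0)))))))))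
def n4150 : Nd := .arc (nat_lit 3) n4149 (.arc (nat_lit 40) n3825 (.arc (nat_lit 43) n3826 (.arc (nat_lit 46) n3827 (.fin (nat_lit 53399703) (nat_lit 0)))))
def n4151 : Nd := .arc (nat_lit 38) n3828 (.arc (nat_lit 41) n3824 (.arc (nat_lit 44) n3809 (.arc (nat_lit 47) n3818 (.arc (nat_lit 62) n3796 (.arc (nat_lit 65) n3792 (.arc (nat_lit 68) n3777 (.arc (nat_lit 71) n3786 (.fin (nat_lit 53407895) (nat_lit 0)))))))))
def n4152 : Nd := .arc (nat_lit 3) n4151 (.fin (nat_lit 56021145) (nat_lit 0))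
def n4153 : Nd := .arc (nat_lit 6) n4150 (.arc (nat_lit 9) n4152 (.fin (nat_lit 53883035) (nat_lit 0)))
def n4154 : Nd := .arc (nat_lit 26) n3796 (.arc (nat_lit 29) n3792 (.arc (nat_lit 32) n3777 (.arc (nat_lit 35) n3786 (.arc (nat_lit 62) n3828 (.arc (nat_lit 65) n3824 (.arc (nat_lit 68) n3818 (.arc (nat_lit 71) n3809 (.fin (nat_lit 53932187) (nat_lit 0)))))))))
def n4155 : Nd := .arc (nat_lit 9) n4154 (.arc (nat_lit 64) n3793 (.arc (nat_lit 67) n3795 (.arc (nat_lit 70) n3794 (.fin (nat_lit 53375127) (nat_lit 0)))))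
def n4156 : Nd := .arc (nat_lit 6) n4151 (.fin (nat_lit 53915803) (nat_lit 0))
def n4157 : Nd := .arc (nat_lit 3) n4155 (.arc (nat_lit 6) n4156 (.fin (nat_lit 56004761) (nat_lit 0)))
def n4158 : Nd := .arc (nat_lit 6) n4154 (.arc (nat_lit 52) n3793 (.arc (nat_lit 55) n3794 (.arc (nat_lit 58) n3795 (.fin (nat_lit 56012953) (nat_lit 0)))))
def n4159 : Nd := .arc (nat_lit 9) n4149 (.arc (nat_lit 64) n3825 (.arc (nat_lit 67) n3827 (.arc (nat_lit 70) n3826 (.fin (nat_lit 53899419) (nat_lit 0)))))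
def n4160 : Nd := .arc (nat_lit 3) n4158 (.arc (nat_lit 9) n4159 (.fin (nat_lit 53366935) (nat_lit 0)))
def n4161 : Nd := .arc (nat_lit 3) n4153 (.arc (nat_lit 6) n4157 (.arc (nat_lit 9) n4160 (.fin (nat_lit 55447709) (nat_lit 0))))
def n4162 : Nd := .arc (nat_lit 6) n4152 (.arc (nat_lit 9) n4150 (.fin (nat_lit 55455901) (nat_lit 0)))
def n4163 : Nd := .arc (nat_lit 38) n3796 (.arc (nat_lit 41) n3792 (.arc (nat_lit 44) n3786 (.arc (nat_lit 47) n3777 (.arc (nat_lit 50) n3828 (.arc (nat_lit 53) n3824 (.arc (nat_lit 56) n3809 (.arc (nat_lit 59) n3818 (.fin (nat_lit 55505053) (nat_lit 0)))))))))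
def n4164 : Nd := .arc (nat_lit 9) n4163 (.fin (nat_lit 55996569) (nat_lit 0))
def n4165 : Nd := .arc (nat_lit 6) n4149 (.arc (nat_lit 52) n3825 (.arc (nat_lit 55) n3826 (.arc (nat_lit 58) n3827 (.fin (nat_lit 55488669) (nat_lit 0)))))
def n4166 : Nd := .arc (nat_lit 3) n4164 (.arc (nat_lit 6) n4165 (.fin (nat_lit 53383319) (nat_lit 0)))
def n4167 : Nd := .arc (nat_lit 6) n4163 (.fin (nat_lit 53391511) (nat_lit 0))
def n4168 : Nd := .arc (nat_lit 9) n4151 (.fin (nat_lit 55472285) (nat_lit 0))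
def n4169 : Nd := .arc (nat_lit 3) n4167 (.arc (nat_lit 9) n4168 (.fin (nat_lit 55988377) (nat_lit 0)))
def n4170 : Nd := .arc (nat_lit 3) n4162 (.arc (nat_lit 6) n4166 (.arc (nat_lit 9) n4169 (.fin (nat_lit 53874843) (nat_lit 0))))
def n4171 : Nd := .arc (nat_lit 3) n4154 (.arc (nat_lit 40) n3793 (.arc (nat_lit 43) n3794 (.arc (nat_lit 46) n3795 (.fin (nat_lit 55496861) (nat_lit 0)))))
def n4172 : Nd := .arc (nat_lit 3) n4163 (.fin (nat_lit 53923995) (nat_lit 0))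
def n4173 : Nd := .arc (nat_lit 6) n4171 (.arc (nat_lit 9) n4172 (.fin (nat_lit 53358743) (nat_lit 0)))
def n4174 : Nd := .arc (nat_lit 3) n4168 (.arc (nat_lit 6) n4167 (.fin (nat_lit 53907611) (nat_lit 0)))
def n4175 : Nd := .arc (nat_lit 3) n4156 (.arc (nat_lit 9) n4155 (.fin (nat_lit 55464093) (nat_lit 0)))
def n4176 : Nd := .arc (nat_lit 3) n4173 (.arc (nat_lit 6) n4174 (.arc (nat_lit 9) n4175 (.fin (nat_lit 55971993) (nat_lit 0))))
def n4177 : Nd := .arc (nat_lit 6) n4172 (.arc (nat_lit 9) n4171 (.fin (nat_lit 55980185) (nat_lit 0)))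
def n4178 : Nd := .arc (nat_lit 3) n4159 (.arc (nat_lit 6) n4158 (.fin (nat_lit 55480477) (nat_lit 0)))
def n4179 : Nd := .arc (nat_lit 3) n4165 (.arc (nat_lit 9) n4164 (.fin (nat_lit 53891227) (nat_lit 0)))
def n4180 : Nd := .arc (nat_lit 3) n4177 (.arc (nat_lit 6) n4178 (.arc (nat_lit 9) n4179 (.fin (nat_lit 53350551) (nat_lit 0))))
def n4181 : Nd := .arc (nat_lit 14) n4097 (.arc (nat_lit 17) n4106 (.arc (nat_lit 20) n4112 (.arc (nat_lit 23) n4116 (.arc (nat_lit 26) n4129 (.arc (nat_lit 29) n4138 (.arc (nat_lit 32) n4144 (.arc (nat_lit 35) n4148 (.arc (nat_lit 50) n4161 (.arc (nat_lit 53) n4170 (.arc (nat_lit 56) n4176 (.arc (nat_lit 59) n4180 (.fin (nat_lit 810741913) (nat_lit 0)))))))))))))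
def n4182 : Nd := .arc (nat_lit 3) n4181 (.arc (nat_lit 40) n4121 (.arc (nat_lit 43) n4125 (.arc (nat_lit 46) n4128 (.fin (nat_lit 808112279) (nat_lit 0)))))
def n4183 : Nd := .arc (nat_lit 14) n4106 (.arc (nat_lit 17) n4097 (.arc (nat_lit 20) n4116 (.arc (nat_lit 23) n4112 (.arc (nat_lit 38) n4129 (.arc (nat_lit 41) n4138 (.arc (nat_lit 44) n4148 (.arc (nat_lit 47) n4144 (.arc (nat_lit 62) n4161 (.arc (nat_lit 65) n4170 (.arc (nat_lit 68) n4180 (.arc (nat_lit 71) n4176 (.fin (nat_lit 808120471) (nat_lit 0)))))))))))))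
def n4184 : Nd := .arc (nat_lit 3) n4183 (.fin (nat_lit 810733721) (nat_lit 0))
def n4185 : Nd := .arc (nat_lit 6) n4182 (.arc (nat_lit 9) n4184 (.fin (nat_lit 204615835) (nat_lit 0)))
def n4186 : Nd := .arc (nat_lit 14) n4112 (.arc (nat_lit 17) n4116 (.arc (nat_lit 20) n4106 (.arc (nat_lit 23) n4097 (.arc (nat_lit 26) n4161 (.arc (nat_lit 29) n4170 (.arc (nat_lit 32) n4180 (.arc (nat_lit 35) n4176 (.arc (nat_lit 62) n4129 (.arc (nat_lit 65) n4138 (.arc (nat_lit 68) n4144 (.arc (nat_lit 71) n4148 (.fin (nat_lit 204664987) (nat_lit 0)))))))))))))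
def n4187 : Nd := .arc (nat_lit 9) n4186 (.arc (nat_lit 64) n4153 (.arc (nat_lit 67) n4160 (.arc (nat_lit 70) n4157 (.fin (nat_lit 808087703) (nat_lit 0)))))
def n4188 : Nd := .arc (nat_lit 6) n4183 (.fin (nat_lit 204648603) (nat_lit 0))
def n4189 : Nd := .arc (nat_lit 3) n4187 (.arc (nat_lit 6) n4188 (.fin (nat_lit 810717337) (nat_lit 0)))
def n4190 : Nd := .arc (nat_lit 6) n4186 (.arc (nat_lit 52) n4153 (.arc (nat_lit 55) n4157 (.arc (nat_lit 58) n4160 (.fin (nat_lit 810725529) (nat_lit 0)))))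
def n4191 : Nd := .arc (nat_lit 9) n4181 (.arc (nat_lit 64) n4121 (.arc (nat_lit 67) n4128 (.arc (nat_lit 70) n4125 (.fin (nat_lit 204632219) (nat_lit 0)))))
def n4192 : Nd := .arc (nat_lit 3) n4190 (.arc (nat_lit 9) n4191 (.fin (nat_lit 808079511) (nat_lit 0)))
def n4193 : Nd := .arc (nat_lit 3) n4185 (.arc (nat_lit 6) n4189 (.arc (nat_lit 9) n4192 (.fin (nat_lit 206180509) (nat_lit 0))))
def n4194 : Nd := .arc (nat_lit 6) n4184 (.arc (nat_lit 9) n4182 (.fin (nat_lit 206188701) (nat_lit 0)))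
def n4195 : Nd := .arc (nat_lit 14) n4116 (.arc (nat_lit 17) n4112 (.arc (nat_lit 20) n4097 (.arc (nat_lit 23) n4106 (.arc (nat_lit 38) n4161 (.arc (nat_lit 41) n4170 (.arc (nat_lit 44) n4176 (.arc (nat_lit 47) n4180 (.arc (nat_lit 50) n4129 (.arc (nat_lit 53) n4138 (.arc (nat_lit 56) n4148 (.arc (nat_lit 59) n4144 (.fin (nat_lit 206237853) (nat_lit 0)))))))))))))
def n4196 : Nd := .arc (nat_lit 9) n4195 (.fin (nat_lit 810709145) (nat_lit 0))
def n4197 : Nd := .arc (nat_lit 6) n4181 (.arc (nat_lit 52) n4121 (.arc (nat_lit 55) n4125 (.arc (nat_lit 58) n4128 (.fin (nat_lit 206221469) (nat_lit 0)))))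
def n4198 : Nd := .arc (nat_lit 3) n4196 (.arc (nat_lit 6) n4197 (.fin (nat_lit 808095895) (nat_lit 0)))
def n4199 : Nd := .arc (nat_lit 6) n4195 (.fin (nat_lit 808104087) (nat_lit 0))
def n4200 : Nd := .arc (nat_lit 9) n4183 (.fin (nat_lit 206205085) (nat_lit 0))
def n4201 : Nd := .arc (nat_lit 3) n4199 (.arc (nat_lit 9) n4200 (.fin (nat_lit 810700953) (nat_lit 0)))
def n4202 : Nd := .arc (nat_lit 3) n4194 (.arc (nat_lit 6) n4198 (.arc (nat_lit 9) n4201 (.fin (nat_lit 204607643) (nat_lit 0))))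
def n4203 : Nd := .arc (nat_lit 3) n4186 (.arc (nat_lit 40) n4153 (.arc (nat_lit 43) n4157 (.arc (nat_lit 46) n4160 (.fin (nat_lit 206229661) (nat_lit 0)))))
def n4204 : Nd := .arc (nat_lit 3) n4195 (.fin (nat_lit 204656795) (nat_lit 0))
def n4205 : Nd := .arc (nat_lit 6) n4203 (.arc (nat_lit 9) n4204 (.fin (nat_lit 808071319) (nat_lit 0)))
def n4206 : Nd := .arc (nat_lit 3) n4200 (.arc (nat_lit 6) n4199 (.fin (nat_lit 204640411) (nat_lit 0)))
def n4207 : Nd := .arc (nat_lit 3) n4188 (.arc (nat_lit 9) n4187 (.fin (nat_lit 206196893) (nat_lit 0)))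
def n4208 : Nd := .arc (nat_lit 3) n4205 (.arc (nat_lit 6) n4206 (.arc (nat_lit 9) n4207 (.fin (nat_lit 810684569) (nat_lit 0))))
def n4209 : Nd := .arc (nat_lit 6) n4204 (.arc (nat_lit 9) n4203 (.fin (nat_lit 810692761) (nat_lit 0)))
def n4210 : Nd := .arc (nat_lit 3) n4191 (.arc (nat_lit 6) n4190 (.fin (nat_lit 206213277) (nat_lit 0)))
def n4211 : Nd := .arc (nat_lit 3) n4197 (.arc (nat_lit 9) n4196 (.fin (nat_lit 204624027) (nat_lit 0)))
def n4212 : Nd := .arc (nat_lit 3) n4209 (.arc (nat_lit 6) n4210 (.arc (nat_lit 9) n4211 (.fin (nat_lit 808063127) (nat_lit 0))))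
def n4213 : Nd := .arc (nat_lit 26) n3684 (.arc (nat_lit 29) n3680 (.arc (nat_lit 32) n3674 (.arc (nat_lit 35) n3665 (.arc (nat_lit 38) n3652 (.arc (nat_lit 41) n3648 (.arc (nat_lit 44) n3642 (.arc (nat_lit 47) n3633 (.arc (nat_lit 50) n3620 (.arc (nat_lit 53) n3616 (.arc (nat_lit 56) n3610 (.arc (nat_lit 59) n3601 (.fin (nat_lit 809955477) (nat_lit 0)))))))))))))
def n4214 : Nd := .arc (nat_lit 3) n4213 (.arc (nat_lit 40) n3681 (.arc (nat_lit 43) n3682 (.arc (nat_lit 46) n3683 (.fin (nat_lit 807850133) (nat_lit 0)))))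
def n4215 : Nd := .arc (nat_lit 26) n3652 (.arc (nat_lit 29) n3648 (.arc (nat_lit 32) n3633 (.arc (nat_lit 35) n3642 (.arc (nat_lit 38) n3684 (.arc (nat_lit 41) n3680 (.arc (nat_lit 44) n3665 (.arc (nat_lit 47) n3674 (.arc (nat_lit 62) n3620 (.arc (nat_lit 65) n3616 (.arc (nat_lit 68) n3601 (.arc (nat_lit 71) n3610 (.fin (nat_lit 807858325) (nat_lit 0)))))))))))))
def n4216 : Nd := .arc (nat_lit 3) n4215 (.arc (nat_lit 40) n3649 (.arc (nat_lit 43) n3650 (.arc (nat_lit 46) n3651 (.fin (nat_lit 809947285) (nat_lit 0)))))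
def n4217 : Nd := .arc (nat_lit 6) n4214 (.arc (nat_lit 9) n4216 (.fin (nat_lit 202780821) (nat_lit 0)))
def n4218 : Nd := .arc (nat_lit 26) n3620 (.arc (nat_lit 29) n3616 (.arc (nat_lit 32) n3601 (.arc (nat_lit 35) n3610 (.arc (nat_lit 50) n3652 (.arc (nat_lit 53) n3648 (.arc (nat_lit 56) n3642 (.arc (nat_lit 59) n3633 (.arc (nat_lit 62) n3684 (.arc (nat_lit 65) n3680 (.arc (nat_lit 68) n3674 (.arc (nat_lit 71) n3665 (.fin (nat_lit 202829973) (nat_lit 0)))))))))))))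
def n4219 : Nd := .arc (nat_lit 9) n4218 (.arc (nat_lit 64) n3617 (.arc (nat_lit 67) n3619 (.arc (nat_lit 70) n3618 (.fin (nat_lit 807825557) (nat_lit 0)))))
def n4220 : Nd := .arc (nat_lit 6) n4215 (.arc (nat_lit 52) n3649 (.arc (nat_lit 55) n3650 (.arc (nat_lit 58) n3651 (.fin (nat_lit 202813589) (nat_lit 0)))))
def n4221 : Nd := .arc (nat_lit 3) n4219 (.arc (nat_lit 6) n4220 (.fin (nat_lit 809930901) (nat_lit 0)))
def n4222 : Nd := .arc (nat_lit 6) n4218 (.arc (nat_lit 52) n3617 (.arc (nat_lit 55) n3618 (.arc (nat_lit 58) n3619 (.fin (nat_lit 809939093) (nat_lit 0)))))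
def n4223 : Nd := .arc (nat_lit 9) n4213 (.arc (nat_lit 64) n3681 (.arc (nat_lit 67) n3683 (.arc (nat_lit 70) n3682 (.fin (nat_lit 202797205) (nat_lit 0)))))
def n4224 : Nd := .arc (nat_lit 3) n4222 (.arc (nat_lit 9) n4223 (.fin (nat_lit 807817365) (nat_lit 0)))
def n4225 : Nd := .arc (nat_lit 3) n4217 (.arc (nat_lit 6) n4221 (.arc (nat_lit 9) n4224 (.fin (nat_lit 202248341) (nat_lit 0))))
def n4226 : Nd := .arc (nat_lit 6) n4216 (.arc (nat_lit 9) n4214 (.fin (nat_lit 202256533) (nat_lit 0)))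
def n4227 : Nd := .arc (nat_lit 38) n3620 (.arc (nat_lit 41) n3616 (.arc (nat_lit 44) n3610 (.arc (nat_lit 47) n3601 (.arc (nat_lit 50) n3684 (.arc (nat_lit 53) n3680 (.arc (nat_lit 56) n3665 (.arc (nat_lit 59) n3674 (.arc (nat_lit 62) n3652 (.arc (nat_lit 65) n3648 (.arc (nat_lit 68) n3633 (.arc (nat_lit 71) n3642 (.fin (nat_lit 202305685) (nat_lit 0)))))))))))))
def n4228 : Nd := .arc (nat_lit 9) n4227 (.fin (nat_lit 809922709) (nat_lit 0))
def n4229 : Nd := .arc (nat_lit 6) n4213 (.arc (nat_lit 52) n3681 (.arc (nat_lit 55) n3682 (.arc (nat_lit 58) n3683 (.fin (nat_lit 202289301) (nat_lit 0)))))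
def n4230 : Nd := .arc (nat_lit 3) n4228 (.arc (nat_lit 6) n4229 (.fin (nat_lit 807833749) (nat_lit 0)))
def n4231 : Nd := .arc (nat_lit 6) n4227 (.fin (nat_lit 807841941) (nat_lit 0))
def n4232 : Nd := .arc (nat_lit 9) n4215 (.arc (nat_lit 64) n3649 (.arc (nat_lit 67) n3651 (.arc (nat_lit 70) n3650 (.fin (nat_lit 202272917) (nat_lit 0)))))
def n4233 : Nd := .arc (nat_lit 3) n4231 (.arc (nat_lit 9) n4232 (.fin (nat_lit 809914517) (nat_lit 0)))
def n4234 : Nd := .arc (nat_lit 3) n4226 (.arc (nat_lit 6) n4230 (.arc (nat_lit 9) n4233 (.fin (nat_lit 202772629) (nat_lit 0))))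
def n4235 : Nd := .arc (nat_lit 3) n4218 (.arc (nat_lit 40) n3617 (.arc (nat_lit 43) n3618 (.arc (nat_lit 46) n3619 (.fin (nat_lit 202297493) (nat_lit 0)))))
def n4236 : Nd := .arc (nat_lit 3) n4227 (.fin (nat_lit 202821781) (nat_lit 0))
def n4237 : Nd := .arc (nat_lit 6) n4235 (.arc (nat_lit 9) n4236 (.fin (nat_lit 807809173) (nat_lit 0)))
def n4238 : Nd := .arc (nat_lit 3) n4232 (.arc (nat_lit 6) n4231 (.fin (nat_lit 202805397) (nat_lit 0)))
def n4239 : Nd := .arc (nat_lit 3) n4220 (.arc (nat_lit 9) n4219 (.fin (nat_lit 202264725) (nat_lit 0)))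
def n4240 : Nd := .arc (nat_lit 3) n4237 (.arc (nat_lit 6) n4238 (.arc (nat_lit 9) n4239 (.fin (nat_lit 809898133) (nat_lit 0))))
def n4241 : Nd := .arc (nat_lit 6) n4236 (.arc (nat_lit 9) n4235 (.fin (nat_lit 809906325) (nat_lit 0)))
def n4242 : Nd := .arc (nat_lit 3) n4223 (.arc (nat_lit 6) n4222 (.fin (nat_lit 202281109) (nat_lit 0)))
def n4243 : Nd := .arc (nat_lit 3) n4229 (.arc (nat_lit 9) n4228 (.fin (nat_lit 202789013) (nat_lit 0)))
def n4244 : Nd := .arc (nat_lit 3) n4241 (.arc (nat_lit 6) n4242 (.arc (nat_lit 9) n4243 (.fin (nat_lit 807800981) (nat_lit 0))))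
def n4245 : Nd := .arc (nat_lit 14) n3873 (.arc (nat_lit 17) n3882 (.arc (nat_lit 20) n3888 (.arc (nat_lit 23) n3892 (.arc (nat_lit 26) n4065 (.arc (nat_lit 29) n4074 (.arc (nat_lit 32) n4080 (.arc (nat_lit 35) n4084 (.arc (nat_lit 38) n4193 (.arc (nat_lit 41) n4202 (.arc (nat_lit 44) n4208 (.arc (nat_lit 47) n4212 (.arc (nat_lit 50) n4225 (.arc (nat_lit 53) n4234 (.arc (nat_lit 56) n4240 (.arc (nat_lit 59) n4244 (.fin (nat_lit 54718621) (nat_lit 0)))))))))))))))))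
def n4246 : Nd := .arc (nat_lit 3) n4245 (.arc (nat_lit 40) n4057 (.arc (nat_lit 43) n4061 (.arc (nat_lit 46) n4064 (.fin (nat_lit 52613275) (nat_lit 0)))))
def n4247 : Nd := .arc (nat_lit 14) n3882 (.arc (nat_lit 17) n3873 (.arc (nat_lit 20) n3892 (.arc (nat_lit 23) n3888 (.arc (nat_lit 26) n4193 (.arc (nat_lit 29) n4202 (.arc (nat_lit 32) n4212 (.arc (nat_lit 35) n4208 (.arc (nat_lit 38) n4065 (.arc (nat_lit 41) n4074 (.arc (nat_lit 44) n4084 (.arc (nat_lit 47) n4080 (.arc (nat_lit 62) n4225 (.arc (nat_lit 65) n4234 (.arc (nat_lit 68) n4244 (.arc (nat_lit 71) n4240 (.fin (nat_lit 52621467) (nat_lit 0)))))))))))))))))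
def n4248 : Nd := .arc (nat_lit 3) n4247 (.arc (nat_lit 40) n4185 (.arc (nat_lit 43) n4189 (.arc (nat_lit 46) n4192 (.fin (nat_lit 54710429) (nat_lit 0)))))
def n4249 : Nd := .arc (nat_lit 6) n4246 (.arc (nat_lit 9) n4248 (.fin (nat_lit 51523737) (nat_lit 0)))
def n4250 : Nd := .arc (nat_lit 14) n3888 (.arc (nat_lit 17) n3892 (.arc (nat_lit 20) n3882 (.arc (nat_lit 23) n3873 (.arc (nat_lit 26) n4225 (.arc (nat_lit 29) n4234 (.arc (nat_lit 32) n4244 (.arc (nat_lit 35) n4240 (.arc (nat_lit 50) n4193 (.arc (nat_lit 53) n4202 (.arc (nat_lit 56) n4208 (.arc (nat_lit 59) n4212 (.arc (nat_lit 62) n4065 (.arc (nat_lit 65) n4074 (.arc (nat_lit 68) n4080 (.arc (nat_lit 71) n4084 (.fin (nat_lit 51572889) (nat_lit 0)))))))))))))))))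
def n4251 : Nd := .arc (nat_lit 9) n4250 (.arc (nat_lit 64) n4217 (.arc (nat_lit 67) n4224 (.arc (nat_lit 70) n4221 (.fin (nat_lit 52588699) (nat_lit 0)))))
def n4252 : Nd := .arc (nat_lit 6) n4247 (.arc (nat_lit 52) n4185 (.arc (nat_lit 55) n4189 (.arc (nat_lit 58) n4192 (.fin (nat_lit 51556505) (nat_lit 0)))))
def n4253 : Nd := .arc (nat_lit 3) n4251 (.arc (nat_lit 6) n4252 (.fin (nat_lit 54694045) (nat_lit 0)))
def n4254 : Nd := .arc (nat_lit 6) n4250 (.arc (nat_lit 52) n4217 (.arc (nat_lit 55) n4221 (.arc (nat_lit 58) n4224 (.fin (nat_lit 54702237) (nat_lit 0)))))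
def n4255 : Nd := .arc (nat_lit 9) n4245 (.arc (nat_lit 64) n4057 (.arc (nat_lit 67) n4064 (.arc (nat_lit 70) n4061 (.fin (nat_lit 51540121) (nat_lit 0)))))
def n4256 : Nd := .arc (nat_lit 3) n4254 (.arc (nat_lit 9) n4255 (.fin (nat_lit 52580507) (nat_lit 0)))
def n4257 : Nd := .arc (nat_lit 3) n4249 (.arc (nat_lit 6) n4253 (.arc (nat_lit 9) n4256 (.fin (nat_lit 50991255) (nat_lit 0))))
def n4258 : Nd := .arc (nat_lit 6) n4248 (.arc (nat_lit 9) n4246 (.fin (nat_lit 50999447) (nat_lit 0)))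
def n4259 : Nd := .arc (nat_lit 14) n3892 (.arc (nat_lit 17) n3888 (.arc (nat_lit 20) n3873 (.arc (nat_lit 23) n3882 (.arc (nat_lit 38) n4225 (.arc (nat_lit 41) n4234 (.arc (nat_lit 44) n4240 (.arc (nat_lit 47) n4244 (.arc (nat_lit 50) n4065 (.arc (nat_lit 53) n4074 (.arc (nat_lit 56) n4084 (.arc (nat_lit 59) n4080 (.arc (nat_lit 62) n4193 (.arc (nat_lit 65) n4202 (.arc (nat_lit 68) n4212 (.arc (nat_lit 71) n4208 (.fin (nat_lit 51048599) (nat_lit 0)))))))))))))))))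
def n4260 : Nd := .arc (nat_lit 9) n4259 (.fin (nat_lit 54685853) (nat_lit 0))
def n4261 : Nd := .arc (nat_lit 6) n4245 (.arc (nat_lit 52) n4057 (.arc (nat_lit 55) n4061 (.arc (nat_lit 58) n4064 (.fin (nat_lit 51032215) (nat_lit 0)))))
def n4262 : Nd := .arc (nat_lit 3) n4260 (.arc (nat_lit 6) n4261 (.fin (nat_lit 52596891) (nat_lit 0)))
def n4263 : Nd := .arc (nat_lit 6) n4259 (.fin (nat_lit 52605083) (nat_lit 0))
def n4264 : Nd := .arc (nat_lit 9) n4247 (.arc (nat_lit 64) n4185 (.arc (nat_lit 67) n4192 (.arc (nat_lit 70) n4189 (.fin (nat_lit 51015831) (nat_lit 0)))))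
def n4265 : Nd := .arc (nat_lit 3) n4263 (.arc (nat_lit 9) n4264 (.fin (nat_lit 54677661) (nat_lit 0)))
def n4266 : Nd := .arc (nat_lit 3) n4258 (.arc (nat_lit 6) n4262 (.arc (nat_lit 9) n4265 (.fin (nat_lit 51515545) (nat_lit 0))))
def n4267 : Nd := .arc (nat_lit 3) n4259 (.fin (nat_lit 51564697) (nat_lit 0))
def n4268 : Nd := .arc (nat_lit 3) n4250 (.arc (nat_lit 40) n4217 (.arc (nat_lit 43) n4221 (.arc (nat_lit 46) n4224 (.fin (nat_lit 51040407) (nat_lit 0)))))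
def n4269 : Nd := .arc (nat_lit 6) n4267 (.arc (nat_lit 9) n4268 (.fin (nat_lit 54669469) (nat_lit 0)))
def n4270 : Nd := .arc (nat_lit 3) n4255 (.arc (nat_lit 6) n4254 (.fin (nat_lit 51024023) (nat_lit 0)))
def n4271 : Nd := .arc (nat_lit 3) n4261 (.arc (nat_lit 9) n4260 (.fin (nat_lit 51531929) (nat_lit 0)))
def n4272 : Nd := .arc (nat_lit 3) n4269 (.arc (nat_lit 6) n4270 (.arc (nat_lit 9) n4271 (.fin (nat_lit 52564123) (nat_lit 0))))
def n4273 : Nd := .arc (nat_lit 6) n4268 (.arc (nat_lit 9) n4267 (.fin (nat_lit 52572315) (nat_lit 0)))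
def n4274 : Nd := .arc (nat_lit 3) n4264 (.arc (nat_lit 6) n4263 (.fin (nat_lit 51548313) (nat_lit 0)))
def n4275 : Nd := .arc (nat_lit 3) n4252 (.arc (nat_lit 9) n4251 (.fin (nat_lit 51007639) (nat_lit 0)))
def n4276 : Nd := .arc (nat_lit 3) n4273 (.arc (nat_lit 6) n4274 (.arc (nat_lit 9) n4275 (.fin (nat_lit 54661277) (nat_lit 0))))
def n4277 : Nd := .arc (nat_lit 26) n3264 (.arc (nat_lit 29) n3268 (.arc (nat_lit 32) n3249 (.arc (nat_lit 35) n3258 (.arc (nat_lit 38) n3264 (.arc (nat_lit 41) n3268 (.arc (nat_lit 44) n3258 (.arc (nat_lit 47) n3249 (.fin (nat_lit 208072853) (nat_lit 0)))))))))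
def n4278 : Nd := .arc (nat_lit 3) n4277 (.arc (nat_lit 40) n3261 (.arc (nat_lit 43) n3262 (.arc (nat_lit 46) n3263 (.fin (nat_lit 208064661) (nat_lit 0)))))
def n4279 : Nd := .arc (nat_lit 6) n4278 (.arc (nat_lit 9) n4278 (.fin (nat_lit 807284885) (nat_lit 0)))
def n4280 : Nd := .arc (nat_lit 50) n3264 (.arc (nat_lit 53) n3268 (.arc (nat_lit 56) n3258 (.arc (nat_lit 59) n3249 (.arc (nat_lit 62) n3264 (.arc (nat_lit 65) n3268 (.arc (nat_lit 68) n3249 (.arc (nat_lit 71) n3258 (.fin (nat_lit 807334037) (nat_lit 0)))))))))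
def n4281 : Nd := .arc (nat_lit 9) n4280 (.fin (nat_lit 208040085) (nat_lit 0))
def n4282 : Nd := .arc (nat_lit 6) n4277 (.arc (nat_lit 52) n3261 (.arc (nat_lit 55) n3262 (.arc (nat_lit 58) n3263 (.fin (nat_lit 807317653) (nat_lit 0)))))
def n4283 : Nd := .arc (nat_lit 3) n4281 (.arc (nat_lit 6) n4282 (.fin (nat_lit 208048277) (nat_lit 0)))
def n4284 : Nd := .arc (nat_lit 6) n4280 (.fin (nat_lit 208056469) (nat_lit 0))
def n4285 : Nd := .arc (nat_lit 9) n4277 (.arc (nat_lit 64) n3261 (.arc (nat_lit 67) n3263 (.arc (nat_lit 70) n3262 (.fin (nat_lit 807301269) (nat_lit 0)))))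
def n4286 : Nd := .arc (nat_lit 3) n4284 (.arc (nat_lit 9) n4285 (.fin (nat_lit 208031893) (nat_lit 0)))
def n4287 : Nd := .arc (nat_lit 3) n4279 (.arc (nat_lit 6) n4283 (.arc (nat_lit 9) n4286 (.fin (nat_lit 807276693) (nat_lit 0))))
def n4288 : Nd := .arc (nat_lit 3) n4280 (.fin (nat_lit 807325845) (nat_lit 0))
def n4289 : Nd := .arc (nat_lit 6) n4288 (.arc (nat_lit 9) n4288 (.fin (nat_lit 208023701) (nat_lit 0)))
def n4290 : Nd := .arc (nat_lit 3) n4285 (.arc (nat_lit 6) n4284 (.fin (nat_lit 807309461) (nat_lit 0)))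
def n4291 : Nd := .arc (nat_lit 3) n4282 (.arc (nat_lit 9) n4281 (.fin (nat_lit 807293077) (nat_lit 0)))
def n4292 : Nd := .arc (nat_lit 3) n4289 (.arc (nat_lit 6) n4290 (.arc (nat_lit 9) n4291 (.fin (nat_lit 208015509) (nat_lit 0))))
def n4293 : Nd := .arc (nat_lit 14) n3924 (.arc (nat_lit 17) n3920 (.arc (nat_lit 20) n3914 (.arc (nat_lit 23) n3905 (.arc (nat_lit 38) n3952 (.arc (nat_lit 41) n3956 (.arc (nat_lit 44) n3946 (.arc (nat_lit 47) n3937 (.fin (nat_lit 57340055) (nat_lit 0)))))))))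
def n4294 : Nd := .arc (nat_lit 3) n4293 (.fin (nat_lit 57856153) (nat_lit 0))
def n4295 : Nd := .arc (nat_lit 14) n3920 (.arc (nat_lit 17) n3924 (.arc (nat_lit 20) n3905 (.arc (nat_lit 23) n3914 (.arc (nat_lit 26) n3952 (.arc (nat_lit 29) n3956 (.arc (nat_lit 32) n3937 (.arc (nat_lit 35) n3946 (.fin (nat_lit 57864345) (nat_lit 0)))))))))
def n4296 : Nd := .arc (nat_lit 3) n4295 (.arc (nat_lit 40) n3949 (.arc (nat_lit 43) n3950 (.arc (nat_lit 46) n3951 (.fin (nat_lit 57331863) (nat_lit 0)))))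
def n4297 : Nd := .arc (nat_lit 6) n4294 (.arc (nat_lit 9) n4296 (.fin (nat_lit 56242333) (nat_lit 0)))
def n4298 : Nd := .arc (nat_lit 14) n3914 (.arc (nat_lit 17) n3905 (.arc (nat_lit 20) n3920 (.arc (nat_lit 23) n3924 (.arc (nat_lit 50) n3952 (.arc (nat_lit 53) n3956 (.arc (nat_lit 56) n3946 (.arc (nat_lit 59) n3937 (.fin (nat_lit 56291485) (nat_lit 0)))))))))
def n4299 : Nd := .arc (nat_lit 9) n4298 (.fin (nat_lit 57831577) (nat_lit 0))
def n4300 : Nd := .arc (nat_lit 6) n4295 (.arc (nat_lit 52) n3949 (.arc (nat_lit 55) n3950 (.arc (nat_lit 58) n3951 (.fin (nat_lit 56275101) (nat_lit 0)))))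
def n4301 : Nd := .arc (nat_lit 3) n4299 (.arc (nat_lit 6) n4300 (.fin (nat_lit 57315479) (nat_lit 0)))
def n4302 : Nd := .arc (nat_lit 6) n4298 (.fin (nat_lit 57323671) (nat_lit 0))
def n4303 : Nd := .arc (nat_lit 9) n4293 (.fin (nat_lit 56258717) (nat_lit 0))
def n4304 : Nd := .arc (nat_lit 3) n4302 (.arc (nat_lit 9) n4303 (.fin (nat_lit 57823385) (nat_lit 0)))
def n4305 : Nd := .arc (nat_lit 3) n4297 (.arc (nat_lit 6) n4301 (.arc (nat_lit 9) n4304 (.fin (nat_lit 54136987) (nat_lit 0))))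
def n4306 : Nd := .arc (nat_lit 6) n4296 (.arc (nat_lit 9) n4294 (.fin (nat_lit 54145179) (nat_lit 0)))
def n4307 : Nd := .arc (nat_lit 14) n3905 (.arc (nat_lit 17) n3914 (.arc (nat_lit 20) n3924 (.arc (nat_lit 23) n3920 (.arc (nat_lit 62) n3952 (.arc (nat_lit 65) n3956 (.arc (nat_lit 68) n3937 (.arc (nat_lit 71) n3946 (.fin (nat_lit 54194331) (nat_lit 0)))))))))
def n4308 : Nd := .arc (nat_lit 9) n4307 (.fin (nat_lit 57307287) (nat_lit 0))
def n4309 : Nd := .arc (nat_lit 6) n4293 (.fin (nat_lit 54177947) (nat_lit 0))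
def n4310 : Nd := .arc (nat_lit 3) n4308 (.arc (nat_lit 6) n4309 (.fin (nat_lit 57839769) (nat_lit 0)))
def n4311 : Nd := .arc (nat_lit 6) n4307 (.fin (nat_lit 57847961) (nat_lit 0))
def n4312 : Nd := .arc (nat_lit 9) n4295 (.arc (nat_lit 64) n3949 (.arc (nat_lit 67) n3951 (.arc (nat_lit 70) n3950 (.fin (nat_lit 54161563) (nat_lit 0)))))
def n4313 : Nd := .arc (nat_lit 3) n4311 (.arc (nat_lit 9) n4312 (.fin (nat_lit 57299095) (nat_lit 0)))
def n4314 : Nd := .arc (nat_lit 3) n4306 (.arc (nat_lit 6) n4310 (.arc (nat_lit 9) n4313 (.fin (nat_lit 56234141) (nat_lit 0))))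
def n4315 : Nd := .arc (nat_lit 3) n4298 (.fin (nat_lit 54186139) (nat_lit 0))
def n4316 : Nd := .arc (nat_lit 3) n4307 (.fin (nat_lit 56283293) (nat_lit 0))
def n4317 : Nd := .arc (nat_lit 6) n4315 (.arc (nat_lit 9) n4316 (.fin (nat_lit 57815193) (nat_lit 0)))
def n4318 : Nd := .arc (nat_lit 3) n4312 (.arc (nat_lit 6) n4311 (.fin (nat_lit 56266909) (nat_lit 0)))
def n4319 : Nd := .arc (nat_lit 3) n4300 (.arc (nat_lit 9) n4299 (.fin (nat_lit 54153371) (nat_lit 0)))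
def n4320 : Nd := .arc (nat_lit 3) n4317 (.arc (nat_lit 6) n4318 (.arc (nat_lit 9) n4319 (.fin (nat_lit 57282711) (nat_lit 0))))
def n4321 : Nd := .arc (nat_lit 6) n4316 (.arc (nat_lit 9) n4315 (.fin (nat_lit 57290903) (nat_lit 0)))
def n4322 : Nd := .arc (nat_lit 3) n4303 (.arc (nat_lit 6) n4302 (.fin (nat_lit 54169755) (nat_lit 0)))
def n4323 : Nd := .arc (nat_lit 3) n4309 (.arc (nat_lit 9) n4308 (.fin (nat_lit 56250525) (nat_lit 0)))
def n4324 : Nd := .arc (nat_lit 3) n4321 (.arc (nat_lit 6) n4322 (.arc (nat_lit 9) n4323 (.fin (nat_lit 57807001) (nat_lit 0))))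
def n4325 : Nd := .arc (nat_lit 38) n4287 (.arc (nat_lit 41) n4287 (.arc (nat_lit 44) n4292 (.arc (nat_lit 47) n4292 (.arc (nat_lit 50) n4305 (.arc (nat_lit 53) n4314 (.arc (nat_lit 56) n4320 (.arc (nat_lit 59) n4324 (.arc (nat_lit 62) n4314 (.arc (nat_lit 65) n4305 (.arc (nat_lit 68) n4320 (.arc (nat_lit 71) n4324 (.fin (nat_lit 806285463) (nat_lit 0)))))))))))))
def n4326 : Nd := .arc (nat_lit 3) n4325 (.fin (nat_lit 806801561) (nat_lit 0))
def n4327 : Nd := .arc (nat_lit 26) n4287 (.arc (nat_lit 29) n4287 (.arc (nat_lit 32) n4292 (.arc (nat_lit 35) n4292 (.arc (nat_lit 50) n4314 (.arc (nat_lit 53) n4305 (.arc (nat_lit 56) n4324 (.arc (nat_lit 59) n4320 (.arc (nat_lit 62) n4305 (.arc (nat_lit 65) n4314 (.arc (nat_lit 68) n4324 (.arc (nat_lit 71) n4320 (.fin (nat_lit 806809753) (nat_lit 0)))))))))))))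
def n4328 : Nd := .arc (nat_lit 3) n4327 (.arc (nat_lit 40) n4279 (.arc (nat_lit 43) n4283 (.arc (nat_lit 46) n4286 (.fin (nat_lit 806277271) (nat_lit 0)))))
def n4329 : Nd := .arc (nat_lit 6) n4326 (.arc (nat_lit 9) n4328 (.fin (nat_lit 205926557) (nat_lit 0)))
def n4330 : Nd := .arc (nat_lit 26) n4305 (.arc (nat_lit 29) n4314 (.arc (nat_lit 32) n4324 (.arc (nat_lit 35) n4320 (.arc (nat_lit 38) n4314 (.arc (nat_lit 41) n4305 (.arc (nat_lit 44) n4324 (.arc (nat_lit 47) n4320 (.arc (nat_lit 50) n4287 (.arc (nat_lit 53) n4287 (.arc (nat_lit 56) n4292 (.arc (nat_lit 59) n4292 (.fin (nat_lit 205975709) (nat_lit 0)))))))))))))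
def n4331 : Nd := .arc (nat_lit 9) n4330 (.arc (nat_lit 64) n4297 (.arc (nat_lit 67) n4304 (.arc (nat_lit 70) n4301 (.fin (nat_lit 806776985) (nat_lit 0)))))
def n4332 : Nd := .arc (nat_lit 6) n4327 (.arc (nat_lit 52) n4279 (.arc (nat_lit 55) n4283 (.arc (nat_lit 58) n4286 (.fin (nat_lit 205959325) (nat_lit 0)))))
def n4333 : Nd := .arc (nat_lit 3) n4331 (.arc (nat_lit 6) n4332 (.fin (nat_lit 806260887) (nat_lit 0)))
def n4334 : Nd := .arc (nat_lit 6) n4330 (.arc (nat_lit 52) n4297 (.arc (nat_lit 55) n4301 (.arc (nat_lit 58) n4304 (.fin (nat_lit 806269079) (nat_lit 0)))))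
def n4335 : Nd := .arc (nat_lit 9) n4325 (.fin (nat_lit 205942941) (nat_lit 0))
def n4336 : Nd := .arc (nat_lit 3) n4334 (.arc (nat_lit 9) n4335 (.fin (nat_lit 806768793) (nat_lit 0)))
def n4337 : Nd := .arc (nat_lit 3) n4329 (.arc (nat_lit 6) n4333 (.arc (nat_lit 9) n4336 (.fin (nat_lit 203821211) (nat_lit 0))))
def n4338 : Nd := .arc (nat_lit 6) n4328 (.arc (nat_lit 9) n4326 (.fin (nat_lit 203829403) (nat_lit 0)))
def n4339 : Nd := .arc (nat_lit 26) n4314 (.arc (nat_lit 29) n4305 (.arc (nat_lit 32) n4320 (.arc (nat_lit 35) n4324 (.arc (nat_lit 38) n4305 (.arc (nat_lit 41) n4314 (.arc (nat_lit 44) n4320 (.arc (nat_lit 47) n4324 (.arc (nat_lit 62) n4287 (.arc (nat_lit 65) n4287 (.arc (nat_lit 68) n4292 (.arc (nat_lit 71) n4292 (.fin (nat_lit 203878555) (nat_lit 0)))))))))))))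
def n4340 : Nd := .arc (nat_lit 9) n4339 (.arc (nat_lit 64) n4306 (.arc (nat_lit 67) n4313 (.arc (nat_lit 70) n4310 (.fin (nat_lit 806252695) (nat_lit 0)))))
def n4341 : Nd := .arc (nat_lit 6) n4325 (.fin (nat_lit 203862171) (nat_lit 0))
def n4342 : Nd := .arc (nat_lit 3) n4340 (.arc (nat_lit 6) n4341 (.fin (nat_lit 806785177) (nat_lit 0)))
def n4343 : Nd := .arc (nat_lit 6) n4339 (.arc (nat_lit 52) n4306 (.arc (nat_lit 55) n4310 (.arc (nat_lit 58) n4313 (.fin (nat_lit 806793369) (nat_lit 0)))))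
def n4344 : Nd := .arc (nat_lit 9) n4327 (.arc (nat_lit 64) n4279 (.arc (nat_lit 67) n4286 (.arc (nat_lit 70) n4283 (.fin (nat_lit 203845787) (nat_lit 0)))))
def n4345 : Nd := .arc (nat_lit 3) n4343 (.arc (nat_lit 9) n4344 (.fin (nat_lit 806244503) (nat_lit 0)))
def n4346 : Nd := .arc (nat_lit 3) n4338 (.arc (nat_lit 6) n4342 (.arc (nat_lit 9) n4345 (.fin (nat_lit 205918365) (nat_lit 0))))
def n4347 : Nd := .arc (nat_lit 3) n4339 (.arc (nat_lit 40) n4306 (.arc (nat_lit 43) n4310 (.arc (nat_lit 46) n4313 (.fin (nat_lit 205967517) (nat_lit 0)))))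
def n4348 : Nd := .arc (nat_lit 3) n4330 (.arc (nat_lit 40) n4297 (.arc (nat_lit 43) n4301 (.arc (nat_lit 46) n4304 (.fin (nat_lit 203870363) (nat_lit 0)))))
def n4349 : Nd := .arc (nat_lit 6) n4347 (.arc (nat_lit 9) n4348 (.fin (nat_lit 806236311) (nat_lit 0)))
def n4350 : Nd := .arc (nat_lit 3) n4335 (.arc (nat_lit 6) n4334 (.fin (nat_lit 203853979) (nat_lit 0)))
def n4351 : Nd := .arc (nat_lit 3) n4341 (.arc (nat_lit 9) n4340 (.fin (nat_lit 205934749) (nat_lit 0)))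
def n4352 : Nd := .arc (nat_lit 3) n4349 (.arc (nat_lit 6) n4350 (.arc (nat_lit 9) n4351 (.fin (nat_lit 806752409) (nat_lit 0))))
def n4353 : Nd := .arc (nat_lit 6) n4348 (.arc (nat_lit 9) n4347 (.fin (nat_lit 806760601) (nat_lit 0)))
def n4354 : Nd := .arc (nat_lit 3) n4344 (.arc (nat_lit 6) n4343 (.fin (nat_lit 205951133) (nat_lit 0)))
def n4355 : Nd := .arc (nat_lit 3) n4332 (.arc (nat_lit 9) n4331 (.fin (nat_lit 203837595) (nat_lit 0)))
def n4356 : Nd := .arc (nat_lit 3) n4353 (.arc (nat_lit 6) n4354 (.arc (nat_lit 9) n4355 (.fin (nat_lit 806228119) (nat_lit 0))))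
def n4357 : Nd := .arc (nat_lit 14) n4180 (.arc (nat_lit 17) n4176 (.arc (nat_lit 20) n4170 (.arc (nat_lit 23) n4161 (.arc (nat_lit 38) n4148 (.arc (nat_lit 41) n4144 (.arc (nat_lit 44) n4138 (.arc (nat_lit 47) n4129 (.arc (nat_lit 50) n4116 (.arc (nat_lit 53) n4112 (.arc (nat_lit 56) n4106 (.arc (nat_lit 59) n4097 (.fin (nat_lit 55242903) (nat_lit 0)))))))))))))
def n4358 : Nd := .arc (nat_lit 3) n4357 (.fin (nat_lit 53661849) (nat_lit 0))
def n4359 : Nd := .arc (nat_lit 14) n4176 (.arc (nat_lit 17) n4180 (.arc (nat_lit 20) n4161 (.arc (nat_lit 23) n4170 (.arc (nat_lit 26) n4148 (.arc (nat_lit 29) n4144 (.arc (nat_lit 32) n4129 (.arc (nat_lit 35) n4138 (.arc (nat_lit 62) n4116 (.arc (nat_lit 65) n4112 (.arc (nat_lit 68) n4097 (.arc (nat_lit 71) n4106 (.fin (nat_lit 53670041) (nat_lit 0)))))))))))))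
def n4360 : Nd := .arc (nat_lit 3) n4359 (.arc (nat_lit 40) n4145 (.arc (nat_lit 43) n4146 (.arc (nat_lit 46) n4147 (.fin (nat_lit 55234711) (nat_lit 0)))))
def n4361 : Nd := .arc (nat_lit 6) n4358 (.arc (nat_lit 9) n4360 (.fin (nat_lit 55718045) (nat_lit 0)))
def n4362 : Nd := .arc (nat_lit 14) n4170 (.arc (nat_lit 17) n4161 (.arc (nat_lit 20) n4176 (.arc (nat_lit 23) n4180 (.arc (nat_lit 26) n4116 (.arc (nat_lit 29) n4112 (.arc (nat_lit 32) n4097 (.arc (nat_lit 35) n4106 (.arc (nat_lit 50) n4148 (.arc (nat_lit 53) n4144 (.arc (nat_lit 56) n4138 (.arc (nat_lit 59) n4129 (.fin (nat_lit 55767197) (nat_lit 0)))))))))))))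
def n4363 : Nd := .arc (nat_lit 9) n4362 (.arc (nat_lit 64) n4113 (.arc (nat_lit 67) n4115 (.arc (nat_lit 70) n4114 (.fin (nat_lit 53637273) (nat_lit 0)))))
def n4364 : Nd := .arc (nat_lit 6) n4359 (.arc (nat_lit 52) n4145 (.arc (nat_lit 55) n4146 (.arc (nat_lit 58) n4147 (.fin (nat_lit 55750813) (nat_lit 0)))))
def n4365 : Nd := .arc (nat_lit 3) n4363 (.arc (nat_lit 6) n4364 (.fin (nat_lit 55218327) (nat_lit 0)))
def n4366 : Nd := .arc (nat_lit 6) n4362 (.arc (nat_lit 52) n4113 (.arc (nat_lit 55) n4114 (.arc (nat_lit 58) n4115 (.fin (nat_lit 55226519) (nat_lit 0)))))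
def n4367 : Nd := .arc (nat_lit 9) n4357 (.fin (nat_lit 55734429) (nat_lit 0))
def n4368 : Nd := .arc (nat_lit 3) n4366 (.arc (nat_lit 9) n4367 (.fin (nat_lit 53629081) (nat_lit 0)))
def n4369 : Nd := .arc (nat_lit 3) n4361 (.arc (nat_lit 6) n4365 (.arc (nat_lit 9) n4368 (.fin (nat_lit 53088411) (nat_lit 0))))
def n4370 : Nd := .arc (nat_lit 6) n4360 (.arc (nat_lit 9) n4358 (.fin (nat_lit 53096603) (nat_lit 0)))
def n4371 : Nd := .arc (nat_lit 14) n4161 (.arc (nat_lit 17) n4170 (.arc (nat_lit 20) n4180 (.arc (nat_lit 23) n4176 (.arc (nat_lit 38) n4116 (.arc (nat_lit 41) n4112 (.arc (nat_lit 44) n4106 (.arc (nat_lit 47) n4097 (.arc (nat_lit 62) n4148 (.arc (nat_lit 65) n4144 (.arc (nat_lit 68) n4129 (.arc (nat_lit 71) n4138 (.fin (nat_lit 53145755) (nat_lit 0)))))))))))))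
def n4372 : Nd := .arc (nat_lit 9) n4371 (.fin (nat_lit 55210135) (nat_lit 0))
def n4373 : Nd := .arc (nat_lit 6) n4357 (.fin (nat_lit 53129371) (nat_lit 0))
def n4374 : Nd := .arc (nat_lit 3) n4372 (.arc (nat_lit 6) n4373 (.fin (nat_lit 53645465) (nat_lit 0)))
def n4375 : Nd := .arc (nat_lit 6) n4371 (.fin (nat_lit 53653657) (nat_lit 0))
def n4376 : Nd := .arc (nat_lit 9) n4359 (.arc (nat_lit 64) n4145 (.arc (nat_lit 67) n4147 (.arc (nat_lit 70) n4146 (.fin (nat_lit 53112987) (nat_lit 0)))))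
def n4377 : Nd := .arc (nat_lit 3) n4375 (.arc (nat_lit 9) n4376 (.fin (nat_lit 55201943) (nat_lit 0)))
def n4378 : Nd := .arc (nat_lit 3) n4370 (.arc (nat_lit 6) n4374 (.arc (nat_lit 9) n4377 (.fin (nat_lit 55709853) (nat_lit 0))))
def n4379 : Nd := .arc (nat_lit 3) n4371 (.fin (nat_lit 55759005) (nat_lit 0))
def n4380 : Nd := .arc (nat_lit 3) n4362 (.arc (nat_lit 40) n4113 (.arc (nat_lit 43) n4114 (.arc (nat_lit 46) n4115 (.fin (nat_lit 53137563) (nat_lit 0)))))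
def n4381 : Nd := .arc (nat_lit 6) n4379 (.arc (nat_lit 9) n4380 (.fin (nat_lit 55193751) (nat_lit 0)))
def n4382 : Nd := .arc (nat_lit 3) n4367 (.arc (nat_lit 6) n4366 (.fin (nat_lit 53121179) (nat_lit 0)))
def n4383 : Nd := .arc (nat_lit 3) n4373 (.arc (nat_lit 9) n4372 (.fin (nat_lit 55726237) (nat_lit 0)))
def n4384 : Nd := .arc (nat_lit 3) n4381 (.arc (nat_lit 6) n4382 (.arc (nat_lit 9) n4383 (.fin (nat_lit 53612697) (nat_lit 0))))
def n4385 : Nd := .arc (nat_lit 6) n4380 (.arc (nat_lit 9) n4379 (.fin (nat_lit 53620889) (nat_lit 0)))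
def n4386 : Nd := .arc (nat_lit 3) n4376 (.arc (nat_lit 6) n4375 (.fin (nat_lit 55742621) (nat_lit 0)))
def n4387 : Nd := .arc (nat_lit 3) n4364 (.arc (nat_lit 9) n4363 (.fin (nat_lit 53104795) (nat_lit 0)))
def n4388 : Nd := .arc (nat_lit 3) n4385 (.arc (nat_lit 6) n4386 (.arc (nat_lit 9) n4387 (.fin (nat_lit 55185559) (nat_lit 0))))
def n4389 : Nd := .arc (nat_lit 14) n4052 (.arc (nat_lit 17) n4048 (.arc (nat_lit 20) n4042 (.arc (nat_lit 23) n4033 (.arc (nat_lit 26) n4020 (.arc (nat_lit 29) n4016 (.arc (nat_lit 32) n4010 (.arc (nat_lit 35) n4001 (.arc (nat_lit 50) n3988 (.arc (nat_lit 53) n3984 (.arc (nat_lit 56) n3978 (.arc (nat_lit 59) n3969 (.fin (nat_lit 55767193) (nat_lit 0)))))))))))))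
def n4390 : Nd := .arc (nat_lit 3) n4389 (.arc (nat_lit 40) n4017 (.arc (nat_lit 43) n4018 (.arc (nat_lit 46) n4019 (.fin (nat_lit 53137559) (nat_lit 0)))))
def n4391 : Nd := .arc (nat_lit 14) n4048 (.arc (nat_lit 17) n4052 (.arc (nat_lit 20) n4033 (.arc (nat_lit 23) n4042 (.arc (nat_lit 38) n4020 (.arc (nat_lit 41) n4016 (.arc (nat_lit 44) n4001 (.arc (nat_lit 47) n4010 (.arc (nat_lit 62) n3988 (.arc (nat_lit 65) n3984 (.arc (nat_lit 68) n3969 (.arc (nat_lit 71) n3978 (.fin (nat_lit 53145751) (nat_lit 0)))))))))))))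
def n4392 : Nd := .arc (nat_lit 3) n4391 (.fin (nat_lit 55759001) (nat_lit 0))
def n4393 : Nd := .arc (nat_lit 6) n4390 (.arc (nat_lit 9) n4392 (.fin (nat_lit 53620891) (nat_lit 0)))
def n4394 : Nd := .arc (nat_lit 14) n4042 (.arc (nat_lit 17) n4033 (.arc (nat_lit 20) n4048 (.arc (nat_lit 23) n4052 (.arc (nat_lit 26) n3988 (.arc (nat_lit 29) n3984 (.arc (nat_lit 32) n3969 (.arc (nat_lit 35) n3978 (.arc (nat_lit 62) n4020 (.arc (nat_lit 65) n4016 (.arc (nat_lit 68) n4010 (.arc (nat_lit 71) n4001 (.fin (nat_lit 53670043) (nat_lit 0)))))))))))))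
def n4395 : Nd := .arc (nat_lit 9) n4394 (.arc (nat_lit 64) n3985 (.arc (nat_lit 67) n3987 (.arc (nat_lit 70) n3986 (.fin (nat_lit 53112983) (nat_lit 0)))))
def n4396 : Nd := .arc (nat_lit 6) n4391 (.fin (nat_lit 53653659) (nat_lit 0))
def n4397 : Nd := .arc (nat_lit 3) n4395 (.arc (nat_lit 6) n4396 (.fin (nat_lit 55742617) (nat_lit 0)))
def n4398 : Nd := .arc (nat_lit 6) n4394 (.arc (nat_lit 52) n3985 (.arc (nat_lit 55) n3986 (.arc (nat_lit 58) n3987 (.fin (nat_lit 55750809) (nat_lit 0)))))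
def n4399 : Nd := .arc (nat_lit 9) n4389 (.arc (nat_lit 64) n4017 (.arc (nat_lit 67) n4019 (.arc (nat_lit 70) n4018 (.fin (nat_lit 53637275) (nat_lit 0)))))
def n4400 : Nd := .arc (nat_lit 3) n4398 (.arc (nat_lit 9) n4399 (.fin (nat_lit 53104791) (nat_lit 0)))
def n4401 : Nd := .arc (nat_lit 3) n4393 (.arc (nat_lit 6) n4397 (.arc (nat_lit 9) n4400 (.fin (nat_lit 55185565) (nat_lit 0))))
def n4402 : Nd := .arc (nat_lit 6) n4392 (.arc (nat_lit 9) n4390 (.fin (nat_lit 55193757) (nat_lit 0)))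
def n4403 : Nd := .arc (nat_lit 14) n4033 (.arc (nat_lit 17) n4042 (.arc (nat_lit 20) n4052 (.arc (nat_lit 23) n4048 (.arc (nat_lit 38) n3988 (.arc (nat_lit 41) n3984 (.arc (nat_lit 44) n3978 (.arc (nat_lit 47) n3969 (.arc (nat_lit 50) n4020 (.arc (nat_lit 53) n4016 (.arc (nat_lit 56) n4001 (.arc (nat_lit 59) n4010 (.fin (nat_lit 55242909) (nat_lit 0)))))))))))))
def n4404 : Nd := .arc (nat_lit 9) n4403 (.fin (nat_lit 55734425) (nat_lit 0))
def n4405 : Nd := .arc (nat_lit 6) n4389 (.arc (nat_lit 52) n4017 (.arc (nat_lit 55) n4018 (.arc (nat_lit 58) n4019 (.fin (nat_lit 55226525) (nat_lit 0)))))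
def n4406 : Nd := .arc (nat_lit 3) n4404 (.arc (nat_lit 6) n4405 (.fin (nat_lit 53121175) (nat_lit 0)))
def n4407 : Nd := .arc (nat_lit 6) n4403 (.fin (nat_lit 53129367) (nat_lit 0))
def n4408 : Nd := .arc (nat_lit 9) n4391 (.fin (nat_lit 55210141) (nat_lit 0))
def n4409 : Nd := .arc (nat_lit 3) n4407 (.arc (nat_lit 9) n4408 (.fin (nat_lit 55726233) (nat_lit 0)))
def n4410 : Nd := .arc (nat_lit 3) n4402 (.arc (nat_lit 6) n4406 (.arc (nat_lit 9) n4409 (.fin (nat_lit 53612699) (nat_lit 0))))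
def n4411 : Nd := .arc (nat_lit 3) n4394 (.arc (nat_lit 40) n3985 (.arc (nat_lit 43) n3986 (.arc (nat_lit 46) n3987 (.fin (nat_lit 55234717) (nat_lit 0)))))
def n4412 : Nd := .arc (nat_lit 3) n4403 (.fin (nat_lit 53661851) (nat_lit 0))
def n4413 : Nd := .arc (nat_lit 6) n4411 (.arc (nat_lit 9) n4412 (.fin (nat_lit 53096599) (nat_lit 0)))
def n4414 : Nd := .arc (nat_lit 3) n4408 (.arc (nat_lit 6) n4407 (.fin (nat_lit 53645467) (nat_lit 0)))
def n4415 : Nd := .arc (nat_lit 3) n4396 (.arc (nat_lit 9) n4395 (.fin (nat_lit 55201949) (nat_lit 0)))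
def n4416 : Nd := .arc (nat_lit 3) n4413 (.arc (nat_lit 6) n4414 (.arc (nat_lit 9) n4415 (.fin (nat_lit 55709849) (nat_lit 0))))
def n4417 : Nd := .arc (nat_lit 6) n4412 (.arc (nat_lit 9) n4411 (.fin (nat_lit 55718041) (nat_lit 0)))
def n4418 : Nd := .arc (nat_lit 3) n4399 (.arc (nat_lit 6) n4398 (.fin (nat_lit 55218333) (nat_lit 0)))
def n4419 : Nd := .arc (nat_lit 3) n4405 (.arc (nat_lit 9) n4404 (.fin (nat_lit 53629083) (nat_lit 0)))
def n4420 : Nd := .arc (nat_lit 3) n4417 (.arc (nat_lit 6) n4418 (.arc (nat_lit 9) n4419 (.fin (nat_lit 53088407) (nat_lit 0))))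
def n4421 : Nd := .arc (nat_lit 26) n3524 (.arc (nat_lit 29) n3520 (.arc (nat_lit 32) n3514 (.arc (nat_lit 35) n3505 (.arc (nat_lit 38) n3428 (.arc (nat_lit 41) n3424 (.arc (nat_lit 44) n3418 (.arc (nat_lit 47) n3409 (.arc (nat_lit 50) n3300 (.arc (nat_lit 53) n3296 (.arc (nat_lit 56) n3290 (.arc (nat_lit 59) n3281 (.fin (nat_lit 205975701) (nat_lit 0)))))))))))))
def n4422 : Nd := .arc (nat_lit 3) n4421 (.arc (nat_lit 40) n3521 (.arc (nat_lit 43) n3522 (.arc (nat_lit 46) n3523 (.fin (nat_lit 203870357) (nat_lit 0)))))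
def n4423 : Nd := .arc (nat_lit 26) n3428 (.arc (nat_lit 29) n3424 (.arc (nat_lit 32) n3409 (.arc (nat_lit 35) n3418 (.arc (nat_lit 38) n3524 (.arc (nat_lit 41) n3520 (.arc (nat_lit 44) n3505 (.arc (nat_lit 47) n3514 (.arc (nat_lit 62) n3300 (.arc (nat_lit 65) n3296 (.arc (nat_lit 68) n3281 (.arc (nat_lit 71) n3290 (.fin (nat_lit 203878549) (nat_lit 0)))))))))))))
def n4424 : Nd := .arc (nat_lit 3) n4423 (.arc (nat_lit 40) n3425 (.arc (nat_lit 43) n3426 (.arc (nat_lit 46) n3427 (.fin (nat_lit 205967509) (nat_lit 0)))))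
def n4425 : Nd := .arc (nat_lit 6) n4422 (.arc (nat_lit 9) n4424 (.fin (nat_lit 806760597) (nat_lit 0)))
def n4426 : Nd := .arc (nat_lit 26) n3300 (.arc (nat_lit 29) n3296 (.arc (nat_lit 32) n3281 (.arc (nat_lit 35) n3290 (.arc (nat_lit 50) n3428 (.arc (nat_lit 53) n3424 (.arc (nat_lit 56) n3418 (.arc (nat_lit 59) n3409 (.arc (nat_lit 62) n3524 (.arc (nat_lit 65) n3520 (.arc (nat_lit 68) n3514 (.arc (nat_lit 71) n3505 (.fin (nat_lit 806809749) (nat_lit 0)))))))))))))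
def n4427 : Nd := .arc (nat_lit 9) n4426 (.arc (nat_lit 64) n3297 (.arc (nat_lit 67) n3299 (.arc (nat_lit 70) n3298 (.fin (nat_lit 203845781) (nat_lit 0)))))
def n4428 : Nd := .arc (nat_lit 6) n4423 (.arc (nat_lit 52) n3425 (.arc (nat_lit 55) n3426 (.arc (nat_lit 58) n3427 (.fin (nat_lit 806793365) (nat_lit 0)))))
def n4429 : Nd := .arc (nat_lit 3) n4427 (.arc (nat_lit 6) n4428 (.fin (nat_lit 205951125) (nat_lit 0)))
def n4430 : Nd := .arc (nat_lit 6) n4426 (.arc (nat_lit 52) n3297 (.arc (nat_lit 55) n3298 (.arc (nat_lit 58) n3299 (.fin (nat_lit 205959317) (nat_lit 0)))))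
def n4431 : Nd := .arc (nat_lit 9) n4421 (.arc (nat_lit 64) n3521 (.arc (nat_lit 67) n3523 (.arc (nat_lit 70) n3522 (.fin (nat_lit 806776981) (nat_lit 0)))))
def n4432 : Nd := .arc (nat_lit 3) n4430 (.arc (nat_lit 9) n4431 (.fin (nat_lit 203837589) (nat_lit 0)))
def n4433 : Nd := .arc (nat_lit 3) n4425 (.arc (nat_lit 6) n4429 (.arc (nat_lit 9) n4432 (.fin (nat_lit 806228117) (nat_lit 0))))
def n4434 : Nd := .arc (nat_lit 6) n4424 (.arc (nat_lit 9) n4422 (.fin (nat_lit 806236309) (nat_lit 0)))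
def n4435 : Nd := .arc (nat_lit 38) n3300 (.arc (nat_lit 41) n3296 (.arc (nat_lit 44) n3290 (.arc (nat_lit 47) n3281 (.arc (nat_lit 50) n3524 (.arc (nat_lit 53) n3520 (.arc (nat_lit 56) n3505 (.arc (nat_lit 59) n3514 (.arc (nat_lit 62) n3428 (.arc (nat_lit 65) n3424 (.arc (nat_lit 68) n3409 (.arc (nat_lit 71) n3418 (.fin (nat_lit 806285461) (nat_lit 0)))))))))))))
def n4436 : Nd := .arc (nat_lit 9) n4435 (.fin (nat_lit 205942933) (nat_lit 0))
def n4437 : Nd := .arc (nat_lit 6) n4421 (.arc (nat_lit 52) n3521 (.arc (nat_lit 55) n3522 (.arc (nat_lit 58) n3523 (.fin (nat_lit 806269077) (nat_lit 0)))))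
def n4438 : Nd := .arc (nat_lit 3) n4436 (.arc (nat_lit 6) n4437 (.fin (nat_lit 203853973) (nat_lit 0)))
def n4439 : Nd := .arc (nat_lit 6) n4435 (.fin (nat_lit 203862165) (nat_lit 0))
def n4440 : Nd := .arc (nat_lit 9) n4423 (.arc (nat_lit 64) n3425 (.arc (nat_lit 67) n3427 (.arc (nat_lit 70) n3426 (.fin (nat_lit 806252693) (nat_lit 0)))))
def n4441 : Nd := .arc (nat_lit 3) n4439 (.arc (nat_lit 9) n4440 (.fin (nat_lit 205934741) (nat_lit 0)))
def n4442 : Nd := .arc (nat_lit 3) n4434 (.arc (nat_lit 6) n4438 (.arc (nat_lit 9) n4441 (.fin (nat_lit 806752405) (nat_lit 0))))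
def n4443 : Nd := .arc (nat_lit 3) n4426 (.arc (nat_lit 40) n3297 (.arc (nat_lit 43) n3298 (.arc (nat_lit 46) n3299 (.fin (nat_lit 806277269) (nat_lit 0)))))
def n4444 : Nd := .arc (nat_lit 3) n4435 (.fin (nat_lit 806801557) (nat_lit 0))
def n4445 : Nd := .arc (nat_lit 6) n4443 (.arc (nat_lit 9) n4444 (.fin (nat_lit 203829397) (nat_lit 0)))
def n4446 : Nd := .arc (nat_lit 3) n4440 (.arc (nat_lit 6) n4439 (.fin (nat_lit 806785173) (nat_lit 0)))
def n4447 : Nd := .arc (nat_lit 3) n4428 (.arc (nat_lit 9) n4427 (.fin (nat_lit 806244501) (nat_lit 0)))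
def n4448 : Nd := .arc (nat_lit 3) n4445 (.arc (nat_lit 6) n4446 (.arc (nat_lit 9) n4447 (.fin (nat_lit 205918357) (nat_lit 0))))
def n4449 : Nd := .arc (nat_lit 6) n4444 (.arc (nat_lit 9) n4443 (.fin (nat_lit 205926549) (nat_lit 0)))
def n4450 : Nd := .arc (nat_lit 3) n4431 (.arc (nat_lit 6) n4430 (.fin (nat_lit 806260885) (nat_lit 0)))
def n4451 : Nd := .arc (nat_lit 3) n4437 (.arc (nat_lit 9) n4436 (.fin (nat_lit 806768789) (nat_lit 0)))
def n4452 : Nd := .arc (nat_lit 3) n4449 (.arc (nat_lit 6) n4450 (.arc (nat_lit 9) n4451 (.fin (nat_lit 203821205) (nat_lit 0))))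
def n4453 : Nd := .arc (nat_lit 14) n4337 (.arc (nat_lit 17) n4346 (.arc (nat_lit 20) n4352 (.arc (nat_lit 23) n4356 (.arc (nat_lit 26) n4369 (.arc (nat_lit 29) n4378 (.arc (nat_lit 32) n4384 (.arc (nat_lit 35) n4388 (.arc (nat_lit 38) n4401 (.arc (nat_lit 41) n4410 (.arc (nat_lit 44) n4416 (.arc (nat_lit 47) n4420 (.arc (nat_lit 50) n4433 (.arc (nat_lit 53) n4442 (.arc (nat_lit 56) n4448 (.arc (nat_lit 59) n4452 (.fin (nat_lit 205713565) (nat_lit 0)))))))))))))))))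
def n4454 : Nd := .arc (nat_lit 3) n4453 (.arc (nat_lit 40) n4361 (.arc (nat_lit 43) n4365 (.arc (nat_lit 46) n4368 (.fin (nat_lit 203608219) (nat_lit 0)))))
def n4455 : Nd := .arc (nat_lit 14) n4346 (.arc (nat_lit 17) n4337 (.arc (nat_lit 20) n4356 (.arc (nat_lit 23) n4352 (.arc (nat_lit 26) n4401 (.arc (nat_lit 29) n4410 (.arc (nat_lit 32) n4420 (.arc (nat_lit 35) n4416 (.arc (nat_lit 38) n4369 (.arc (nat_lit 41) n4378 (.arc (nat_lit 44) n4388 (.arc (nat_lit 47) n4384 (.arc (nat_lit 62) n4433 (.arc (nat_lit 65) n4442 (.arc (nat_lit 68) n4452 (.arc (nat_lit 71) n4448 (.fin (nat_lit 203616411) (nat_lit 0)))))))))))))))))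
def n4456 : Nd := .arc (nat_lit 3) n4455 (.arc (nat_lit 40) n4393 (.arc (nat_lit 43) n4397 (.arc (nat_lit 46) n4400 (.fin (nat_lit 205705373) (nat_lit 0)))))
def n4457 : Nd := .arc (nat_lit 6) n4454 (.arc (nat_lit 9) n4456 (.fin (nat_lit 806498457) (nat_lit 0)))
def n4458 : Nd := .arc (nat_lit 14) n4352 (.arc (nat_lit 17) n4356 (.arc (nat_lit 20) n4346 (.arc (nat_lit 23) n4337 (.arc (nat_lit 26) n4433 (.arc (nat_lit 29) n4442 (.arc (nat_lit 32) n4452 (.arc (nat_lit 35) n4448 (.arc (nat_lit 50) n4401 (.arc (nat_lit 53) n4410 (.arc (nat_lit 56) n4416 (.arc (nat_lit 59) n4420 (.arc (nat_lit 62) n4369 (.arc (nat_lit 65) n4378 (.arc (nat_lit 68) n4384 (.arc (nat_lit 71) n4388 (.fin (nat_lit 806547609) (nat_lit 0)))))))))))))))))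
def n4459 : Nd := .arc (nat_lit 9) n4458 (.arc (nat_lit 64) n4425 (.arc (nat_lit 67) n4432 (.arc (nat_lit 70) n4429 (.fin (nat_lit 203583643) (nat_lit 0)))))
def n4460 : Nd := .arc (nat_lit 6) n4455 (.arc (nat_lit 52) n4393 (.arc (nat_lit 55) n4397 (.arc (nat_lit 58) n4400 (.fin (nat_lit 806531225) (nat_lit 0)))))
def n4461 : Nd := .arc (nat_lit 3) n4459 (.arc (nat_lit 6) n4460 (.fin (nat_lit 205688989) (nat_lit 0)))
def n4462 : Nd := .arc (nat_lit 6) n4458 (.arc (nat_lit 52) n4425 (.arc (nat_lit 55) n4429 (.arc (nat_lit 58) n4432 (.fin (nat_lit 205697181) (nat_lit 0)))))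
def n4463 : Nd := .arc (nat_lit 9) n4453 (.arc (nat_lit 64) n4361 (.arc (nat_lit 67) n4368 (.arc (nat_lit 70) n4365 (.fin (nat_lit 806514841) (nat_lit 0)))))
def n4464 : Nd := .arc (nat_lit 3) n4462 (.arc (nat_lit 9) n4463 (.fin (nat_lit 203575451) (nat_lit 0)))
def n4465 : Nd := .arc (nat_lit 3) n4457 (.arc (nat_lit 6) n4461 (.arc (nat_lit 9) n4464 (.fin (nat_lit 805965975) (nat_lit 0))))
def n4466 : Nd := .arc (nat_lit 6) n4456 (.arc (nat_lit 9) n4454 (.fin (nat_lit 805974167) (nat_lit 0)))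
def n4467 : Nd := .arc (nat_lit 14) n4356 (.arc (nat_lit 17) n4352 (.arc (nat_lit 20) n4337 (.arc (nat_lit 23) n4346 (.arc (nat_lit 38) n4433 (.arc (nat_lit 41) n4442 (.arc (nat_lit 44) n4448 (.arc (nat_lit 47) n4452 (.arc (nat_lit 50) n4369 (.arc (nat_lit 53) n4378 (.arc (nat_lit 56) n4388 (.arc (nat_lit 59) n4384 (.arc (nat_lit 62) n4401 (.arc (nat_lit 65) n4410 (.arc (nat_lit 68) n4420 (.arc (nat_lit 71) n4416 (.fin (nat_lit 806023319) (nat_lit 0)))))))))))))))))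
def n4468 : Nd := .arc (nat_lit 9) n4467 (.fin (nat_lit 205680797) (nat_lit 0))
def n4469 : Nd := .arc (nat_lit 6) n4453 (.arc (nat_lit 52) n4361 (.arc (nat_lit 55) n4365 (.arc (nat_lit 58) n4368 (.fin (nat_lit 806006935) (nat_lit 0)))))
def n4470 : Nd := .arc (nat_lit 3) n4468 (.arc (nat_lit 6) n4469 (.fin (nat_lit 203591835) (nat_lit 0)))
def n4471 : Nd := .arc (nat_lit 6) n4467 (.fin (nat_lit 203600027) (nat_lit 0))
def n4472 : Nd := .arc (nat_lit 9) n4455 (.arc (nat_lit 64) n4393 (.arc (nat_lit 67) n4400 (.arc (nat_lit 70) n4397 (.fin (nat_lit 805990551) (nat_lit 0)))))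
def n4473 : Nd := .arc (nat_lit 3) n4471 (.arc (nat_lit 9) n4472 (.fin (nat_lit 205672605) (nat_lit 0)))
def n4474 : Nd := .arc (nat_lit 3) n4466 (.arc (nat_lit 6) n4470 (.arc (nat_lit 9) n4473 (.fin (nat_lit 806490265) (nat_lit 0))))
def n4475 : Nd := .arc (nat_lit 3) n4458 (.arc (nat_lit 40) n4425 (.arc (nat_lit 43) n4429 (.arc (nat_lit 46) n4432 (.fin (nat_lit 806015127) (nat_lit 0)))))
def n4476 : Nd := .arc (nat_lit 3) n4467 (.fin (nat_lit 806539417) (nat_lit 0))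
def n4477 : Nd := .arc (nat_lit 6) n4475 (.arc (nat_lit 9) n4476 (.fin (nat_lit 203567259) (nat_lit 0)))
def n4478 : Nd := .arc (nat_lit 3) n4472 (.arc (nat_lit 6) n4471 (.fin (nat_lit 806523033) (nat_lit 0)))
def n4479 : Nd := .arc (nat_lit 3) n4460 (.arc (nat_lit 9) n4459 (.fin (nat_lit 805982359) (nat_lit 0)))
def n4480 : Nd := .arc (nat_lit 3) n4477 (.arc (nat_lit 6) n4478 (.arc (nat_lit 9) n4479 (.fin (nat_lit 205656221) (nat_lit 0))))
def n4481 : Nd := .arc (nat_lit 6) n4476 (.arc (nat_lit 9) n4475 (.fin (nat_lit 205664413) (nat_lit 0)))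
def n4482 : Nd := .arc (nat_lit 3) n4463 (.arc (nat_lit 6) n4462 (.fin (nat_lit 805998743) (nat_lit 0)))
def n4483 : Nd := .arc (nat_lit 3) n4469 (.arc (nat_lit 9) n4468 (.fin (nat_lit 806506649) (nat_lit 0)))
def n4484 : Nd := .arc (nat_lit 3) n4481 (.arc (nat_lit 6) n4482 (.arc (nat_lit 9) n4483 (.fin (nat_lit 203559067) (nat_lit 0))))
def n4485 : Nd := .arc (nat_lit 6) n3202 (.arc (nat_lit 9) n3202 (.arc (nat_lit 14) n3727 (.arc (nat_lit 17) n3727 (.arc (nat_lit 20) n3732 (.arc (nat_lit 23) n3732 (.arc (nat_lit 26) n4257 (.arc (nat_lit 29) n4266 (.arc (nat_lit 32) n4272 (.arc (nat_lit 35) n4276 (.arc (nat_lit 38) n4257 (.arc (nat_lit 41) n4266 (.arc (nat_lit 44) n4276 (.arc (nat_lit 47) n4272 (.arc (nat_lit 50) n4465 (.arc (nat_lit 52) n2342 (.arc (nat_lit 53) n4474 (.arc (nat_lit 55) n2346 (.arc (nat_lit 56) n4480 (.arc (nat_lit 58) n2349 (.arc (nat_lit 59) n4484 (.arc (nat_lit 62) n4465 (.arc (nat_lit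 64) n2342 (.arc (nat_lit 65) n4474 (.arc (nat_lit 67) n2349 (.arc (nat_lit 68) n4484 (.arc (nat_lit 70) n2346 (.arc (nat_lit 71) n4480 (.fin (nat_lit 201469971) (nat_lit 0)))))))))))))))))))))))))))))
def n4486 : Nd := .arc (nat_lit 9) n640 (.arc (nat_lit 14) n1697 (.arc (nat_lit 17) n1693 (.arc (nat_lit 20) n1678 (.arc (nat_lit 23) n1687 (.arc (nat_lit 26) n3182 (.arc (nat_lit 29) n3191 (.arc (nat_lit 32) n3197 (.arc (nat_lit 35) n3201 (.arc (nat_lit 38) n3022 (.arc (nat_lit 41) n3031 (.arc (nat_lit 44) n3037 (.arc (nat_lit 47) n3041 (.arc (nat_lit 50) n2350 (.arc (nat_lit 53) n2359 (.arc (nat_lit 56) n2369 (.arc (nat_lit 59) n2365 (.arc (nat_lit 62) n2766 (.arc (nat_lit 64) n612 (.arc (nat_lit 65) n2775 (.arc (nat_lit 67) n619 (.arc (nat_lit 68) n2785 (.arc (nat_lit 70) n616 (.arc (nat_lit 71) n2781 (.fin (nat_lit 469921811) (nat_lit 0)))))))))))))))))))))))))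
def n4487 : Nd := .arc (nat_lit 6) n640 (.arc (nat_lit 14) n1693 (.arc (nat_lit 17) n1697 (.arc (nat_lit 20) n1687 (.arc (nat_lit 23) n1678 (.arc (nat_lit 26) n3022 (.arc (nat_lit 29) n3031 (.arc (nat_lit 32) n3041 (.arc (nat_lit 35) n3037 (.arc (nat_lit 38) n3182 (.arc (nat_lit 41) n3191 (.arc (nat_lit 44) n3201 (.arc (nat_lit 47) n3197 (.arc (nat_lit 50) n2766 (.arc (nat_lit 52) n612 (.arc (nat_lit 53) n2775 (.arc (nat_lit 55) n616 (.arc (nat_lit 56) n2781 (.arc (nat_lit 58) n619 (.arc (nat_lit 59) n2785 (.arc (nat_lit 62) n2350 (.arc (nat_lit 65) n2359 (.arc (nat_lit 68) n2365 (.arc (nat_lit 71) n2369 (.fin (nat_lit 738373651) (nat_lit 0)))))))))))))))))))))))))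
def n4488 : Nd := .fin (nat_lit 679366931) (nat_lit 1)
def n4489 : Nd := .arc (nat_lit 9) n4488 (.fin (nat_lit 410915091) (nat_lit 0))
def n4490 : Nd := .fin (nat_lit 410947859) (nat_lit 1)
def n4491 : Nd := .arc (nat_lit 6) n4490 (.fin (nat_lit 679350547) (nat_lit 0))
def n4492 : Nd := .arc (nat_lit 53) n4489 (.arc (nat_lit 56) n4491 (.fin (nat_lit 159314075) (nat_lit 0)))
def n4493 : Nd := .arc (nat_lit 3) n4492 (.fin (nat_lit 92197021) (nat_lit 0))
def n4494 : Nd := .arc (nat_lit 65) n4489 (.arc (nat_lit 71) n4491 (.fin (nat_lit 92205213) (nat_lit 0)))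
def n4495 : Nd := .arc (nat_lit 3) n4494 (.fin (nat_lit 159305883) (nat_lit 0))
def n4496 : Nd := .arc (nat_lit 6) n4493 (.arc (nat_lit 9) n4495 (.fin (nat_lit 293482647) (nat_lit 0)))
def n4497 : Nd := .arc (nat_lit 29) n4489 (.arc (nat_lit 35) n4491 (.fin (nat_lit 293531799) (nat_lit 0)))
def n4498 : Nd := .arc (nat_lit 9) n4497 (.fin (nat_lit 92172445) (nat_lit 0))
def n4499 : Nd := .arc (nat_lit 6) n4494 (.fin (nat_lit 293515415) (nat_lit 0))
def n4500 : Nd := .arc (nat_lit 3) n4498 (.arc (nat_lit 6) n4499 (.fin (nat_lit 159289499) (nat_lit 0)))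
def n4501 : Nd := .arc (nat_lit 6) n4497 (.fin (nat_lit 159297691) (nat_lit 0))
def n4502 : Nd := .arc (nat_lit 9) n4492 (.fin (nat_lit 293499031) (nat_lit 0))
def n4503 : Nd := .arc (nat_lit 3) n4501 (.arc (nat_lit 9) n4502 (.fin (nat_lit 92164253) (nat_lit 0)))
def n4504 : Nd := .arc (nat_lit 3) n4496 (.arc (nat_lit 6) n4500 (.arc (nat_lit 9) n4503 (.fin (nat_lit 561909913) (nat_lit 0))))
def n4505 : Nd := .arc (nat_lit 6) n4495 (.arc (nat_lit 9) n4493 (.fin (nat_lit 561918105) (nat_lit 0)))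
def n4506 : Nd := .arc (nat_lit 41) n4489 (.arc (nat_lit 44) n4491 (.fin (nat_lit 561967257) (nat_lit 0)))
def n4507 : Nd := .arc (nat_lit 9) n4506 (.fin (nat_lit 159281307) (nat_lit 0))
def n4508 : Nd := .arc (nat_lit 6) n4492 (.fin (nat_lit 561950873) (nat_lit 0))
def n4509 : Nd := .arc (nat_lit 3) n4507 (.arc (nat_lit 6) n4508 (.fin (nat_lit 92180637) (nat_lit 0)))
def n4510 : Nd := .arc (nat_lit 6) n4506 (.fin (nat_lit 92188829) (nat_lit 0))
def n4511 : Nd := .arc (nat_lit 9) n4494 (.fin (nat_lit 561934489) (nat_lit 0))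
def n4512 : Nd := .arc (nat_lit 3) n4510 (.arc (nat_lit 9) n4511 (.fin (nat_lit 159273115) (nat_lit 0)))
def n4513 : Nd := .arc (nat_lit 3) n4505 (.arc (nat_lit 6) n4509 (.arc (nat_lit 9) n4512 (.fin (nat_lit 293474455) (nat_lit 0))))
def n4514 : Nd := .arc (nat_lit 3) n4506 (.fin (nat_lit 293523607) (nat_lit 0))
def n4515 : Nd := .arc (nat_lit 3) n4497 (.fin (nat_lit 561959065) (nat_lit 0))
def n4516 : Nd := .arc (nat_lit 6) n4514 (.arc (nat_lit 9) n4515 (.fin (nat_lit 159264923) (nat_lit 0)))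
def n4517 : Nd := .arc (nat_lit 3) n4502 (.arc (nat_lit 6) n4501 (.fin (nat_lit 561942681) (nat_lit 0)))
def n4518 : Nd := .arc (nat_lit 3) n4508 (.arc (nat_lit 9) n4507 (.fin (nat_lit 293490839) (nat_lit 0)))
def n4519 : Nd := .arc (nat_lit 3) n4516 (.arc (nat_lit 6) n4517 (.arc (nat_lit 9) n4518 (.fin (nat_lit 92147869) (nat_lit 0))))
def n4520 : Nd := .arc (nat_lit 6) n4515 (.arc (nat_lit 9) n4514 (.fin (nat_lit 92156061) (nat_lit 0)))
def n4521 : Nd := .arc (nat_lit 3) n4511 (.arc (nat_lit 6) n4510 (.fin (nat_lit 293507223) (nat_lit 0)))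
def n4522 : Nd := .arc (nat_lit 3) n4499 (.arc (nat_lit 9) n4498 (.fin (nat_lit 561926297) (nat_lit 0)))
def n4523 : Nd := .arc (nat_lit 3) n4520 (.arc (nat_lit 6) n4521 (.arc (nat_lit 9) n4522 (.fin (nat_lit 159256731) (nat_lit 0))))
def n4524 : Nd := .arc (nat_lit 14) n4504 (.arc (nat_lit 17) n4513 (.arc (nat_lit 20) n4519 (.arc (nat_lit 23) n4523 (.fin (nat_lit 310046873) (nat_lit 0)))))
def n4525 : Nd := .arc (nat_lit 3) n4524 (.fin (nat_lit 578474135) (nat_lit 0))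
def n4526 : Nd := .arc (nat_lit 14) n4513 (.arc (nat_lit 17) n4504 (.arc (nat_lit 20) n4523 (.arc (nat_lit 23) n4519 (.fin (nat_lit 578482327) (nat_lit 0)))))
def n4527 : Nd := .arc (nat_lit 3) n4526 (.fin (nat_lit 310038681) (nat_lit 0))
def n4528 : Nd := .arc (nat_lit 6) n4525 (.arc (nat_lit 9) n4527 (.fin (nat_lit 108671131) (nat_lit 0)))
def n4529 : Nd := .arc (nat_lit 14) n4519 (.arc (nat_lit 17) n4523 (.arc (nat_lit 20) n4513 (.arc (nat_lit 23) n4504 (.fin (nat_lit 108720283) (nat_lit 0)))))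
def n4530 : Nd := .arc (nat_lit 9) n4529 (.fin (nat_lit 578449559) (nat_lit 0))
def n4531 : Nd := .arc (nat_lit 6) n4526 (.fin (nat_lit 108703899) (nat_lit 0))
def n4532 : Nd := .arc (nat_lit 3) n4530 (.arc (nat_lit 6) n4531 (.fin (nat_lit 310022297) (nat_lit 0)))
def n4533 : Nd := .arc (nat_lit 6) n4529 (.fin (nat_lit 310030489) (nat_lit 0))
def n4534 : Nd := .arc (nat_lit 9) n4524 (.fin (nat_lit 108687515) (nat_lit 0))
def n4535 : Nd := .arc (nat_lit 3) n4533 (.arc (nat_lit 9) n4534 (.fin (nat_lit 578441367) (nat_lit 0)))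
def n4536 : Nd := .arc (nat_lit 3) n4528 (.arc (nat_lit 6) n4532 (.arc (nat_lit 9) n4535 (.fin (nat_lit 175771805) (nat_lit 0))))
def n4537 : Nd := .arc (nat_lit 6) n4527 (.arc (nat_lit 9) n4525 (.fin (nat_lit 175779997) (nat_lit 0)))
def n4538 : Nd := .arc (nat_lit 14) n4523 (.arc (nat_lit 17) n4519 (.arc (nat_lit 20) n4504 (.arc (nat_lit 23) n4513 (.fin (nat_lit 175829149) (nat_lit 0)))))
def n4539 : Nd := .arc (nat_lit 9) n4538 (.fin (nat_lit 310014105) (nat_lit 0))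
def n4540 : Nd := .arc (nat_lit 6) n4524 (.fin (nat_lit 175812765) (nat_lit 0))
def n4541 : Nd := .arc (nat_lit 3) n4539 (.arc (nat_lit 6) n4540 (.fin (nat_lit 578457751) (nat_lit 0)))
def n4542 : Nd := .arc (nat_lit 6) n4538 (.fin (nat_lit 578465943) (nat_lit 0))
def n4543 : Nd := .arc (nat_lit 9) n4526 (.fin (nat_lit 175796381) (nat_lit 0))
def n4544 : Nd := .arc (nat_lit 3) n4542 (.arc (nat_lit 9) n4543 (.fin (nat_lit 310005913) (nat_lit 0)))
def n4545 : Nd := .arc (nat_lit 3) n4537 (.arc (nat_lit 6) n4541 (.arc (nat_lit 9) n4544 (.fin (nat_lit 108662939) (nat_lit 0))))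
def n4546 : Nd := .arc (nat_lit 3) n4529 (.fin (nat_lit 175820957) (nat_lit 0))
def n4547 : Nd := .arc (nat_lit 3) n4538 (.fin (nat_lit 108712091) (nat_lit 0))
def n4548 : Nd := .arc (nat_lit 6) n4546 (.arc (nat_lit 9) n4547 (.fin (nat_lit 578433175) (nat_lit 0)))
def n4549 : Nd := .arc (nat_lit 3) n4543 (.arc (nat_lit 6) n4542 (.fin (nat_lit 108695707) (nat_lit 0)))
def n4550 : Nd := .arc (nat_lit 3) n4531 (.arc (nat_lit 9) n4530 (.fin (nat_lit 175788189) (nat_lit 0)))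
def n4551 : Nd := .arc (nat_lit 3) n4548 (.arc (nat_lit 6) n4549 (.arc (nat_lit 9) n4550 (.fin (nat_lit 309989529) (nat_lit 0))))
def n4552 : Nd := .arc (nat_lit 6) n4547 (.arc (nat_lit 9) n4546 (.fin (nat_lit 309997721) (nat_lit 0)))
def n4553 : Nd := .arc (nat_lit 3) n4534 (.arc (nat_lit 6) n4533 (.fin (nat_lit 175804573) (nat_lit 0)))
def n4554 : Nd := .arc (nat_lit 3) n4540 (.arc (nat_lit 9) n4539 (.fin (nat_lit 108679323) (nat_lit 0)))
def n4555 : Nd := .arc (nat_lit 3) n4552 (.arc (nat_lit 6) n4553 (.arc (nat_lit 9) n4554 (.fin (nat_lit 578424983) (nat_lit 0))))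
def n4556 : Nd := .arc (nat_lit 62) n4489 (.arc (nat_lit 68) n4491 (.fin (nat_lit 176091293) (nat_lit 0)))
def n4557 : Nd := .arc (nat_lit 3) n4556 (.fin (nat_lit 108974235) (nat_lit 0))
def n4558 : Nd := .arc (nat_lit 50) n4489 (.arc (nat_lit 59) n4491 (.fin (nat_lit 108982427) (nat_lit 0)))
def n4559 : Nd := .arc (nat_lit 3) n4558 (.fin (nat_lit 176083101) (nat_lit 0))
def n4560 : Nd := .arc (nat_lit 6) n4557 (.arc (nat_lit 9) n4559 (.fin (nat_lit 310259865) (nat_lit 0)))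
def n4561 : Nd := .arc (nat_lit 38) n4489 (.arc (nat_lit 47) n4491 (.fin (nat_lit 310309017) (nat_lit 0)))
def n4562 : Nd := .arc (nat_lit 9) n4561 (.fin (nat_lit 108949659) (nat_lit 0))
def n4563 : Nd := .arc (nat_lit 6) n4558 (.fin (nat_lit 310292633) (nat_lit 0))
def n4564 : Nd := .arc (nat_lit 3) n4562 (.arc (nat_lit 6) n4563 (.fin (nat_lit 176066717) (nat_lit 0)))
def n4565 : Nd := .arc (nat_lit 6) n4561 (.fin (nat_lit 176074909) (nat_lit 0))
def n4566 : Nd := .arc (nat_lit 9) n4556 (.fin (nat_lit 310276249) (nat_lit 0))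
def n4567 : Nd := .arc (nat_lit 3) n4565 (.arc (nat_lit 9) n4566 (.fin (nat_lit 108941467) (nat_lit 0)))
def n4568 : Nd := .arc (nat_lit 3) n4560 (.arc (nat_lit 6) n4564 (.arc (nat_lit 9) n4567 (.fin (nat_lit 578687127) (nat_lit 0))))
def n4569 : Nd := .arc (nat_lit 6) n4559 (.arc (nat_lit 9) n4557 (.fin (nat_lit 578695319) (nat_lit 0)))
def n4570 : Nd := .arc (nat_lit 26) n4489 (.arc (nat_lit 32) n4491 (.fin (nat_lit 578744471) (nat_lit 0)))
def n4571 : Nd := .arc (nat_lit 9) n4570 (.arc (nat_lit 67) n4488 (.fin (nat_lit 176058525) (nat_lit 0)))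
def n4572 : Nd := .arc (nat_lit 6) n4556 (.fin (nat_lit 578728087) (nat_lit 0))
def n4573 : Nd := .arc (nat_lit 3) n4571 (.arc (nat_lit 6) n4572 (.fin (nat_lit 108957851) (nat_lit 0)))
def n4574 : Nd := .arc (nat_lit 6) n4570 (.arc (nat_lit 58) n4488 (.fin (nat_lit 108966043) (nat_lit 0)))
def n4575 : Nd := .arc (nat_lit 9) n4558 (.fin (nat_lit 578711703) (nat_lit 0))
def n4576 : Nd := .arc (nat_lit 3) n4574 (.arc (nat_lit 9) n4575 (.fin (nat_lit 176050333) (nat_lit 0)))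
def n4577 : Nd := .arc (nat_lit 3) n4569 (.arc (nat_lit 6) n4573 (.arc (nat_lit 9) n4576 (.fin (nat_lit 310251673) (nat_lit 0))))
def n4578 : Nd := .arc (nat_lit 3) n4570 (.arc (nat_lit 46) n4488 (.fin (nat_lit 310300825) (nat_lit 0)))
def n4579 : Nd := .arc (nat_lit 3) n4561 (.fin (nat_lit 578736279) (nat_lit 0))
def n4580 : Nd := .arc (nat_lit 6) n4578 (.arc (nat_lit 9) n4579 (.fin (nat_lit 176042141) (nat_lit 0)))
def n4581 : Nd := .arc (nat_lit 3) n4566 (.arc (nat_lit 6) n4565 (.fin (nat_lit 578719895) (nat_lit 0)))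
def n4582 : Nd := .arc (nat_lit 3) n4572 (.arc (nat_lit 9) n4571 (.fin (nat_lit 310268057) (nat_lit 0)))
def n4583 : Nd := .arc (nat_lit 3) n4580 (.arc (nat_lit 6) n4581 (.arc (nat_lit 9) n4582 (.fin (nat_lit 108925083) (nat_lit 0))))
def n4584 : Nd := .arc (nat_lit 6) n4579 (.arc (nat_lit 9) n4578 (.fin (nat_lit 108933275) (nat_lit 0)))
def n4585 : Nd := .arc (nat_lit 3) n4575 (.arc (nat_lit 6) n4574 (.fin (nat_lit 310284441) (nat_lit 0)))
def n4586 : Nd := .arc (nat_lit 3) n4563 (.arc (nat_lit 9) n4562 (.fin (nat_lit 578703511) (nat_lit 0)))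
def n4587 : Nd := .arc (nat_lit 3) n4584 (.arc (nat_lit 6) n4585 (.arc (nat_lit 9) n4586 (.fin (nat_lit 176033949) (nat_lit 0))))
def n4588 : Nd := .arc (nat_lit 14) n4568 (.arc (nat_lit 17) n4577 (.arc (nat_lit 20) n4583 (.arc (nat_lit 23) n4587 (.fin (nat_lit 293269655) (nat_lit 0)))))
def n4589 : Nd := .arc (nat_lit 3) n4588 (.fin (nat_lit 561696921) (nat_lit 0))
def n4590 : Nd := .arc (nat_lit 14) n4577 (.arc (nat_lit 17) n4568 (.arc (nat_lit 20) n4587 (.arc (nat_lit 23) n4583 (.fin (nat_lit 561705113) (nat_lit 0)))))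
def n4591 : Nd := .arc (nat_lit 3) n4590 (.fin (nat_lit 293261463) (nat_lit 0))
def n4592 : Nd := .arc (nat_lit 6) n4589 (.arc (nat_lit 9) n4591 (.fin (nat_lit 91893917) (nat_lit 0)))
def n4593 : Nd := .arc (nat_lit 14) n4583 (.arc (nat_lit 17) n4587 (.arc (nat_lit 20) n4577 (.arc (nat_lit 23) n4568 (.fin (nat_lit 91943069) (nat_lit 0)))))
def n4594 : Nd := .arc (nat_lit 9) n4593 (.fin (nat_lit 561672345) (nat_lit 0))
def n4595 : Nd := .arc (nat_lit 6) n4590 (.fin (nat_lit 91926685) (nat_lit 0))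
def n4596 : Nd := .arc (nat_lit 3) n4594 (.arc (nat_lit 6) n4595 (.fin (nat_lit 293245079) (nat_lit 0)))
def n4597 : Nd := .arc (nat_lit 6) n4593 (.fin (nat_lit 293253271) (nat_lit 0))
def n4598 : Nd := .arc (nat_lit 9) n4588 (.fin (nat_lit 91910301) (nat_lit 0))
def n4599 : Nd := .arc (nat_lit 3) n4597 (.arc (nat_lit 9) n4598 (.fin (nat_lit 561664153) (nat_lit 0)))
def n4600 : Nd := .arc (nat_lit 3) n4592 (.arc (nat_lit 6) n4596 (.arc (nat_lit 9) n4599 (.fin (nat_lit 158994587) (nat_lit 0))))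
def n4601 : Nd := .arc (nat_lit 6) n4591 (.arc (nat_lit 9) n4589 (.fin (nat_lit 159002779) (nat_lit 0)))
def n4602 : Nd := .arc (nat_lit 14) n4587 (.arc (nat_lit 17) n4583 (.arc (nat_lit 20) n4568 (.arc (nat_lit 23) n4577 (.fin (nat_lit 159051931) (nat_lit 0)))))
def n4603 : Nd := .arc (nat_lit 9) n4602 (.fin (nat_lit 293236887) (nat_lit 0))
def n4604 : Nd := .arc (nat_lit 6) n4588 (.fin (nat_lit 159035547) (nat_lit 0))
def n4605 : Nd := .arc (nat_lit 3) n4603 (.arc (nat_lit 6) n4604 (.fin (nat_lit 561680537) (nat_lit 0)))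
def n4606 : Nd := .arc (nat_lit 6) n4602 (.fin (nat_lit 561688729) (nat_lit 0))
def n4607 : Nd := .arc (nat_lit 9) n4590 (.fin (nat_lit 159019163) (nat_lit 0))
def n4608 : Nd := .arc (nat_lit 3) n4606 (.arc (nat_lit 9) n4607 (.fin (nat_lit 293228695) (nat_lit 0)))
def n4609 : Nd := .arc (nat_lit 3) n4601 (.arc (nat_lit 6) n4605 (.arc (nat_lit 9) n4608 (.fin (nat_lit 91885725) (nat_lit 0))))
def n4610 : Nd := .arc (nat_lit 3) n4602 (.fin (nat_lit 91934877) (nat_lit 0))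
def n4611 : Nd := .arc (nat_lit 3) n4593 (.fin (nat_lit 159043739) (nat_lit 0))
def n4612 : Nd := .arc (nat_lit 6) n4610 (.arc (nat_lit 9) n4611 (.fin (nat_lit 293220503) (nat_lit 0)))
def n4613 : Nd := .arc (nat_lit 3) n4598 (.arc (nat_lit 6) n4597 (.fin (nat_lit 159027355) (nat_lit 0)))
def n4614 : Nd := .arc (nat_lit 3) n4604 (.arc (nat_lit 9) n4603 (.fin (nat_lit 91902109) (nat_lit 0)))
def n4615 : Nd := .arc (nat_lit 3) n4612 (.arc (nat_lit 6) n4613 (.arc (nat_lit 9) n4614 (.fin (nat_lit 561647769) (nat_lit 0))))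
def n4616 : Nd := .arc (nat_lit 6) n4611 (.arc (nat_lit 9) n4610 (.fin (nat_lit 561655961) (nat_lit 0)))
def n4617 : Nd := .arc (nat_lit 3) n4607 (.arc (nat_lit 6) n4606 (.fin (nat_lit 91918493) (nat_lit 0)))
def n4618 : Nd := .arc (nat_lit 3) n4595 (.arc (nat_lit 9) n4594 (.fin (nat_lit 159010971) (nat_lit 0)))
def n4619 : Nd := .arc (nat_lit 3) n4616 (.arc (nat_lit 6) n4617 (.arc (nat_lit 9) n4618 (.fin (nat_lit 293212311) (nat_lit 0))))
def n4620 : Nd := .arc (nat_lit 50) n4536 (.arc (nat_lit 53) n4545 (.arc (nat_lit 56) n4551 (.arc (nat_lit 59) n4555 (.arc (nat_lit 62) n4600 (.arc (nat_lit 65) n4609 (.arc (nat_lit 68) n4615 (.arc (nat_lit 71) n4619 (.fin (nat_lit 572453017) (nat_lit 0)))))))))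
def n4621 : Nd := .arc (nat_lit 3) n4620 (.fin (nat_lit 304009367) (nat_lit 0))
def n4622 : Nd := .arc (nat_lit 50) n4600 (.arc (nat_lit 53) n4609 (.arc (nat_lit 56) n4619 (.arc (nat_lit 59) n4615 (.arc (nat_lit 62) n4536 (.arc (nat_lit 65) n4545 (.arc (nat_lit 68) n4555 (.arc (nat_lit 71) n4551 (.fin (nat_lit 304017559) (nat_lit 0)))))))))
def n4623 : Nd := .arc (nat_lit 3) n4622 (.fin (nat_lit 572444825) (nat_lit 0))
def n4624 : Nd := .arc (nat_lit 6) n4621 (.arc (nat_lit 9) n4623 (.fin (nat_lit 174469275) (nat_lit 0)))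
def n4625 : Nd := .arc (nat_lit 26) n4536 (.arc (nat_lit 29) n4545 (.arc (nat_lit 32) n4555 (.arc (nat_lit 35) n4551 (.arc (nat_lit 38) n4600 (.arc (nat_lit 41) n4609 (.arc (nat_lit 44) n4619 (.arc (nat_lit 47) n4615 (.fin (nat_lit 174518427) (nat_lit 0)))))))))
def n4626 : Nd := .arc (nat_lit 9) n4625 (.arc (nat_lit 64) n4528 (.arc (nat_lit 67) n4535 (.arc (nat_lit 70) n4532 (.fin (nat_lit 303984791) (nat_lit 0)))))
def n4627 : Nd := .arc (nat_lit 6) n4622 (.fin (nat_lit 174502043) (nat_lit 0))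
def n4628 : Nd := .arc (nat_lit 3) n4626 (.arc (nat_lit 6) n4627 (.fin (nat_lit 572428441) (nat_lit 0)))
def n4629 : Nd := .arc (nat_lit 6) n4625 (.arc (nat_lit 52) n4528 (.arc (nat_lit 55) n4532 (.arc (nat_lit 58) n4535 (.fin (nat_lit 572436633) (nat_lit 0)))))
def n4630 : Nd := .arc (nat_lit 9) n4620 (.fin (nat_lit 174485659) (nat_lit 0))
def n4631 : Nd := .arc (nat_lit 3) n4629 (.arc (nat_lit 9) n4630 (.fin (nat_lit 303976599) (nat_lit 0)))
def n4632 : Nd := .arc (nat_lit 3) n4624 (.arc (nat_lit 6) n4628 (.arc (nat_lit 9) n4631 (.fin (nat_lit 107352221) (nat_lit 0))))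
def n4633 : Nd := .arc (nat_lit 6) n4623 (.arc (nat_lit 9) n4621 (.fin (nat_lit 107360413) (nat_lit 0)))
def n4634 : Nd := .arc (nat_lit 26) n4600 (.arc (nat_lit 29) n4609 (.arc (nat_lit 32) n4615 (.arc (nat_lit 35) n4619 (.arc (nat_lit 38) n4536 (.arc (nat_lit 41) n4545 (.arc (nat_lit 44) n4551 (.arc (nat_lit 47) n4555 (.fin (nat_lit 107409565) (nat_lit 0)))))))))
def n4635 : Nd := .arc (nat_lit 9) n4634 (.arc (nat_lit 64) n4592 (.arc (nat_lit 67) n4599 (.arc (nat_lit 70) n4596 (.fin (nat_lit 572420249) (nat_lit 0)))))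
def n4636 : Nd := .arc (nat_lit 6) n4620 (.fin (nat_lit 107393181) (nat_lit 0))
def n4637 : Nd := .arc (nat_lit 3) n4635 (.arc (nat_lit 6) n4636 (.fin (nat_lit 303992983) (nat_lit 0)))
def n4638 : Nd := .arc (nat_lit 6) n4634 (.arc (nat_lit 52) n4592 (.arc (nat_lit 55) n4596 (.arc (nat_lit 58) n4599 (.fin (nat_lit 304001175) (nat_lit 0)))))
def n4639 : Nd := .arc (nat_lit 9) n4622 (.fin (nat_lit 107376797) (nat_lit 0))
def n4640 : Nd := .arc (nat_lit 3) n4638 (.arc (nat_lit 9) n4639 (.fin (nat_lit 572412057) (nat_lit 0)))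
def n4641 : Nd := .arc (nat_lit 3) n4633 (.arc (nat_lit 6) n4637 (.arc (nat_lit 9) n4640 (.fin (nat_lit 174461083) (nat_lit 0))))
def n4642 : Nd := .arc (nat_lit 3) n4634 (.arc (nat_lit 40) n4592 (.arc (nat_lit 43) n4596 (.arc (nat_lit 46) n4599 (.fin (nat_lit 174510235) (nat_lit 0)))))
def n4643 : Nd := .arc (nat_lit 3) n4625 (.arc (nat_lit 40) n4528 (.arc (nat_lit 43) n4532 (.arc (nat_lit 46) n4535 (.fin (nat_lit 107401373) (nat_lit 0)))))
def n4644 : Nd := .arc (nat_lit 6) n4642 (.arc (nat_lit 9) n4643 (.fin (nat_lit 572403865) (nat_lit 0)))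
def n4645 : Nd := .arc (nat_lit 3) n4630 (.arc (nat_lit 6) n4629 (.fin (nat_lit 107384989) (nat_lit 0)))
def n4646 : Nd := .arc (nat_lit 3) n4636 (.arc (nat_lit 9) n4635 (.fin (nat_lit 174477467) (nat_lit 0)))
def n4647 : Nd := .arc (nat_lit 3) n4644 (.arc (nat_lit 6) n4645 (.arc (nat_lit 9) n4646 (.fin (nat_lit 303960215) (nat_lit 0))))
def n4648 : Nd := .arc (nat_lit 6) n4643 (.arc (nat_lit 9) n4642 (.fin (nat_lit 303968407) (nat_lit 0)))
def n4649 : Nd := .arc (nat_lit 3) n4639 (.arc (nat_lit 6) n4638 (.fin (nat_lit 174493851) (nat_lit 0)))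
def n4650 : Nd := .arc (nat_lit 3) n4627 (.arc (nat_lit 9) n4626 (.fin (nat_lit 107368605) (nat_lit 0)))
def n4651 : Nd := .arc (nat_lit 3) n4648 (.arc (nat_lit 6) n4649 (.arc (nat_lit 9) n4650 (.fin (nat_lit 572395673) (nat_lit 0))))
def n4652 : Nd := .arc (nat_lit 26) n4491 (.arc (nat_lit 35) n4489 (.fin (nat_lit 310309015) (nat_lit 0)))
def n4653 : Nd := .arc (nat_lit 3) n4652 (.arc (nat_lit 43) n4490 (.fin (nat_lit 578736281) (nat_lit 0)))
def n4654 : Nd := .arc (nat_lit 38) n4491 (.arc (nat_lit 44) n4489 (.fin (nat_lit 578744473) (nat_lit 0)))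
def n4655 : Nd := .arc (nat_lit 3) n4654 (.fin (nat_lit 310300823) (nat_lit 0))
def n4656 : Nd := .arc (nat_lit 6) n4653 (.arc (nat_lit 9) n4655 (.fin (nat_lit 108933277) (nat_lit 0)))
def n4657 : Nd := .arc (nat_lit 62) n4491 (.arc (nat_lit 71) n4489 (.fin (nat_lit 108982429) (nat_lit 0)))
def n4658 : Nd := .arc (nat_lit 9) n4657 (.fin (nat_lit 578711705) (nat_lit 0))
def n4659 : Nd := .arc (nat_lit 6) n4654 (.fin (nat_lit 108966045) (nat_lit 0))
def n4660 : Nd := .arc (nat_lit 3) n4658 (.arc (nat_lit 6) n4659 (.fin (nat_lit 310284439) (nat_lit 0)))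
def n4661 : Nd := .arc (nat_lit 6) n4657 (.fin (nat_lit 310292631) (nat_lit 0))
def n4662 : Nd := .arc (nat_lit 9) n4652 (.arc (nat_lit 70) n4490 (.fin (nat_lit 108949661) (nat_lit 0)))
def n4663 : Nd := .arc (nat_lit 3) n4661 (.arc (nat_lit 9) n4662 (.fin (nat_lit 578703513) (nat_lit 0)))
def n4664 : Nd := .arc (nat_lit 3) n4656 (.arc (nat_lit 6) n4660 (.arc (nat_lit 9) n4663 (.fin (nat_lit 176033947) (nat_lit 0))))
def n4665 : Nd := .arc (nat_lit 6) n4655 (.arc (nat_lit 9) n4653 (.fin (nat_lit 176042139) (nat_lit 0)))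
def n4666 : Nd := .arc (nat_lit 50) n4491 (.arc (nat_lit 56) n4489 (.fin (nat_lit 176091291) (nat_lit 0)))
def n4667 : Nd := .arc (nat_lit 9) n4666 (.fin (nat_lit 310276247) (nat_lit 0))
def n4668 : Nd := .arc (nat_lit 6) n4652 (.arc (nat_lit 55) n4490 (.fin (nat_lit 176074907) (nat_lit 0)))
def n4669 : Nd := .arc (nat_lit 3) n4667 (.arc (nat_lit 6) n4668 (.fin (nat_lit 578719897) (nat_lit 0)))
def n4670 : Nd := .arc (nat_lit 6) n4666 (.fin (nat_lit 578728089) (nat_lit 0))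
def n4671 : Nd := .arc (nat_lit 9) n4654 (.fin (nat_lit 176058523) (nat_lit 0))
def n4672 : Nd := .arc (nat_lit 3) n4670 (.arc (nat_lit 9) n4671 (.fin (nat_lit 310268055) (nat_lit 0)))
def n4673 : Nd := .arc (nat_lit 3) n4665 (.arc (nat_lit 6) n4669 (.arc (nat_lit 9) n4672 (.fin (nat_lit 108925085) (nat_lit 0))))
def n4674 : Nd := .arc (nat_lit 3) n4657 (.fin (nat_lit 176083099) (nat_lit 0))
def n4675 : Nd := .arc (nat_lit 3) n4666 (.fin (nat_lit 108974237) (nat_lit 0))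
def n4676 : Nd := .arc (nat_lit 6) n4674 (.arc (nat_lit 9) n4675 (.fin (nat_lit 578695321) (nat_lit 0)))
def n4677 : Nd := .arc (nat_lit 3) n4671 (.arc (nat_lit 6) n4670 (.fin (nat_lit 108957853) (nat_lit 0)))
def n4678 : Nd := .arc (nat_lit 3) n4659 (.arc (nat_lit 9) n4658 (.fin (nat_lit 176050331) (nat_lit 0)))
def n4679 : Nd := .arc (nat_lit 3) n4676 (.arc (nat_lit 6) n4677 (.arc (nat_lit 9) n4678 (.fin (nat_lit 310251671) (nat_lit 0))))
def n4680 : Nd := .arc (nat_lit 6) n4675 (.arc (nat_lit 9) n4674 (.fin (nat_lit 310259863) (nat_lit 0)))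
def n4681 : Nd := .arc (nat_lit 3) n4662 (.arc (nat_lit 6) n4661 (.fin (nat_lit 176066715) (nat_lit 0)))
def n4682 : Nd := .arc (nat_lit 3) n4668 (.arc (nat_lit 9) n4667 (.fin (nat_lit 108941469) (nat_lit 0)))
def n4683 : Nd := .arc (nat_lit 3) n4680 (.arc (nat_lit 6) n4681 (.arc (nat_lit 9) n4682 (.fin (nat_lit 578687129) (nat_lit 0))))
def n4684 : Nd := .arc (nat_lit 38) n4664 (.arc (nat_lit 41) n4673 (.arc (nat_lit 44) n4679 (.arc (nat_lit 47) n4683 (.fin (nat_lit 107933851) (nat_lit 0)))))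
def n4685 : Nd := .arc (nat_lit 3) n4684 (.fin (nat_lit 175558813) (nat_lit 0))
def n4686 : Nd := .arc (nat_lit 26) n4664 (.arc (nat_lit 29) n4673 (.arc (nat_lit 32) n4683 (.arc (nat_lit 35) n4679 (.fin (nat_lit 175567005) (nat_lit 0)))))
def n4687 : Nd := .arc (nat_lit 3) n4686 (.arc (nat_lit 40) n4656 (.arc (nat_lit 43) n4660 (.arc (nat_lit 46) n4663 (.fin (nat_lit 107925659) (nat_lit 0)))))
def n4688 : Nd := .arc (nat_lit 6) n4685 (.arc (nat_lit 9) n4687 (.fin (nat_lit 576598167) (nat_lit 0)))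
def n4689 : Nd := .arc (nat_lit 50) n4664 (.arc (nat_lit 53) n4673 (.arc (nat_lit 56) n4679 (.arc (nat_lit 59) n4683 (.fin (nat_lit 576647319) (nat_lit 0)))))
def n4690 : Nd := .arc (nat_lit 9) n4689 (.fin (nat_lit 175534237) (nat_lit 0))
def n4691 : Nd := .arc (nat_lit 6) n4686 (.arc (nat_lit 52) n4656 (.arc (nat_lit 55) n4660 (.arc (nat_lit 58) n4663 (.fin (nat_lit 576630935) (nat_lit 0)))))
def n4692 : Nd := .arc (nat_lit 3) n4690 (.arc (nat_lit 6) n4691 (.fin (nat_lit 107909275) (nat_lit 0)))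
def n4693 : Nd := .arc (nat_lit 6) n4689 (.fin (nat_lit 107917467) (nat_lit 0))
def n4694 : Nd := .arc (nat_lit 9) n4684 (.fin (nat_lit 576614551) (nat_lit 0))
def n4695 : Nd := .arc (nat_lit 3) n4693 (.arc (nat_lit 9) n4694 (.fin (nat_lit 175526045) (nat_lit 0)))
def n4696 : Nd := .arc (nat_lit 3) n4688 (.arc (nat_lit 6) n4692 (.arc (nat_lit 9) n4695 (.fin (nat_lit 306057369) (nat_lit 0))))
def n4697 : Nd := .arc (nat_lit 6) n4687 (.arc (nat_lit 9) n4685 (.fin (nat_lit 306065561) (nat_lit 0)))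
def n4698 : Nd := .arc (nat_lit 62) n4664 (.arc (nat_lit 65) n4673 (.arc (nat_lit 68) n4683 (.arc (nat_lit 71) n4679 (.fin (nat_lit 306114713) (nat_lit 0)))))
def n4699 : Nd := .arc (nat_lit 9) n4698 (.fin (nat_lit 107901083) (nat_lit 0))
def n4700 : Nd := .arc (nat_lit 6) n4684 (.fin (nat_lit 306098329) (nat_lit 0))
def n4701 : Nd := .arc (nat_lit 3) n4699 (.arc (nat_lit 6) n4700 (.fin (nat_lit 175542429) (nat_lit 0)))
def n4702 : Nd := .arc (nat_lit 6) n4698 (.fin (nat_lit 175550621) (nat_lit 0))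
def n4703 : Nd := .arc (nat_lit 9) n4686 (.arc (nat_lit 64) n4656 (.arc (nat_lit 67) n4663 (.arc (nat_lit 70) n4660 (.fin (nat_lit 306081945) (nat_lit 0)))))
def n4704 : Nd := .arc (nat_lit 3) n4702 (.arc (nat_lit 9) n4703 (.fin (nat_lit 107892891) (nat_lit 0)))
def n4705 : Nd := .arc (nat_lit 3) n4697 (.arc (nat_lit 6) n4701 (.arc (nat_lit 9) n4704 (.fin (nat_lit 576589975) (nat_lit 0))))
def n4706 : Nd := .arc (nat_lit 3) n4698 (.fin (nat_lit 576639127) (nat_lit 0))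
def n4707 : Nd := .arc (nat_lit 3) n4689 (.fin (nat_lit 306106521) (nat_lit 0))
def n4708 : Nd := .arc (nat_lit 6) n4706 (.arc (nat_lit 9) n4707 (.fin (nat_lit 107884699) (nat_lit 0)))
def n4709 : Nd := .arc (nat_lit 3) n4694 (.arc (nat_lit 6) n4693 (.fin (nat_lit 306090137) (nat_lit 0)))
def n4710 : Nd := .arc (nat_lit 3) n4700 (.arc (nat_lit 9) n4699 (.fin (nat_lit 576606359) (nat_lit 0)))
def n4711 : Nd := .arc (nat_lit 3) n4708 (.arc (nat_lit 6) n4709 (.arc (nat_lit 9) n4710 (.fin (nat_lit 175509661) (nat_lit 0))))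
def n4712 : Nd := .arc (nat_lit 6) n4707 (.arc (nat_lit 9) n4706 (.fin (nat_lit 175517853) (nat_lit 0)))
def n4713 : Nd := .arc (nat_lit 3) n4703 (.arc (nat_lit 6) n4702 (.fin (nat_lit 576622743) (nat_lit 0)))
def n4714 : Nd := .arc (nat_lit 3) n4691 (.arc (nat_lit 9) n4690 (.fin (nat_lit 306073753) (nat_lit 0)))
def n4715 : Nd := .arc (nat_lit 3) n4712 (.arc (nat_lit 6) n4713 (.arc (nat_lit 9) n4714 (.fin (nat_lit 107876507) (nat_lit 0))))
def n4716 : Nd := .arc (nat_lit 50) n4587 (.arc (nat_lit 53) n4583 (.arc (nat_lit 56) n4577 (.arc (nat_lit 59) n4568 (.fin (nat_lit 576647321) (nat_lit 0)))))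
def n4717 : Nd := .arc (nat_lit 3) n4716 (.fin (nat_lit 306106519) (nat_lit 0))
def n4718 : Nd := .arc (nat_lit 62) n4587 (.arc (nat_lit 65) n4583 (.arc (nat_lit 68) n4568 (.arc (nat_lit 71) n4577 (.fin (nat_lit 306114711) (nat_lit 0)))))
def n4719 : Nd := .arc (nat_lit 3) n4718 (.fin (nat_lit 576639129) (nat_lit 0))
def n4720 : Nd := .arc (nat_lit 6) n4717 (.arc (nat_lit 9) n4719 (.fin (nat_lit 175517851) (nat_lit 0)))
def n4721 : Nd := .arc (nat_lit 26) n4587 (.arc (nat_lit 29) n4583 (.arc (nat_lit 32) n4568 (.arc (nat_lit 35) n4577 (.fin (nat_lit 175567003) (nat_lit 0)))))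
def n4722 : Nd := .arc (nat_lit 9) n4721 (.arc (nat_lit 64) n4584 (.arc (nat_lit 67) n4586 (.arc (nat_lit 70) n4585 (.fin (nat_lit 306081943) (nat_lit 0)))))
def n4723 : Nd := .arc (nat_lit 6) n4718 (.fin (nat_lit 175550619) (nat_lit 0))
def n4724 : Nd := .arc (nat_lit 3) n4722 (.arc (nat_lit 6) n4723 (.fin (nat_lit 576622745) (nat_lit 0)))
def n4725 : Nd := .arc (nat_lit 6) n4721 (.arc (nat_lit 52) n4584 (.arc (nat_lit 55) n4585 (.arc (nat_lit 58) n4586 (.fin (nat_lit 576630937) (nat_lit 0)))))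
def n4726 : Nd := .arc (nat_lit 9) n4716 (.fin (nat_lit 175534235) (nat_lit 0))
def n4727 : Nd := .arc (nat_lit 3) n4725 (.arc (nat_lit 9) n4726 (.fin (nat_lit 306073751) (nat_lit 0)))
def n4728 : Nd := .arc (nat_lit 3) n4720 (.arc (nat_lit 6) n4724 (.arc (nat_lit 9) n4727 (.fin (nat_lit 107876509) (nat_lit 0))))
def n4729 : Nd := .arc (nat_lit 6) n4719 (.arc (nat_lit 9) n4717 (.fin (nat_lit 107884701) (nat_lit 0)))
def n4730 : Nd := .arc (nat_lit 38) n4587 (.arc (nat_lit 41) n4583 (.arc (nat_lit 44) n4577 (.arc (nat_lit 47) n4568 (.fin (nat_lit 107933853) (nat_lit 0)))))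
def n4731 : Nd := .arc (nat_lit 9) n4730 (.fin (nat_lit 576614553) (nat_lit 0))
def n4732 : Nd := .arc (nat_lit 6) n4716 (.fin (nat_lit 107917469) (nat_lit 0))
def n4733 : Nd := .arc (nat_lit 3) n4731 (.arc (nat_lit 6) n4732 (.fin (nat_lit 306090135) (nat_lit 0)))
def n4734 : Nd := .arc (nat_lit 6) n4730 (.fin (nat_lit 306098327) (nat_lit 0))
def n4735 : Nd := .arc (nat_lit 9) n4718 (.fin (nat_lit 107901085) (nat_lit 0))
def n4736 : Nd := .arc (nat_lit 3) n4734 (.arc (nat_lit 9) n4735 (.fin (nat_lit 576606361) (nat_lit 0)))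
def n4737 : Nd := .arc (nat_lit 3) n4729 (.arc (nat_lit 6) n4733 (.arc (nat_lit 9) n4736 (.fin (nat_lit 175509659) (nat_lit 0))))
def n4738 : Nd := .arc (nat_lit 3) n4721 (.arc (nat_lit 40) n4584 (.arc (nat_lit 43) n4585 (.arc (nat_lit 46) n4586 (.fin (nat_lit 107925661) (nat_lit 0)))))
def n4739 : Nd := .arc (nat_lit 3) n4730 (.fin (nat_lit 175558811) (nat_lit 0))
def n4740 : Nd := .arc (nat_lit 6) n4738 (.arc (nat_lit 9) n4739 (.fin (nat_lit 306065559) (nat_lit 0)))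
def n4741 : Nd := .arc (nat_lit 3) n4735 (.arc (nat_lit 6) n4734 (.fin (nat_lit 175542427) (nat_lit 0)))
def n4742 : Nd := .arc (nat_lit 3) n4723 (.arc (nat_lit 9) n4722 (.fin (nat_lit 107892893) (nat_lit 0)))
def n4743 : Nd := .arc (nat_lit 3) n4740 (.arc (nat_lit 6) n4741 (.arc (nat_lit 9) n4742 (.fin (nat_lit 576589977) (nat_lit 0))))
def n4744 : Nd := .arc (nat_lit 6) n4739 (.arc (nat_lit 9) n4738 (.fin (nat_lit 576598169) (nat_lit 0)))
def n4745 : Nd := .arc (nat_lit 3) n4726 (.arc (nat_lit 6) n4725 (.fin (nat_lit 107909277) (nat_lit 0)))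
def n4746 : Nd := .arc (nat_lit 3) n4732 (.arc (nat_lit 9) n4731 (.fin (nat_lit 175526043) (nat_lit 0)))
def n4747 : Nd := .arc (nat_lit 3) n4744 (.arc (nat_lit 6) n4745 (.arc (nat_lit 9) n4746 (.fin (nat_lit 306057367) (nat_lit 0))))
def n4748 : Nd := .arc (nat_lit 14) n4696 (.arc (nat_lit 17) n4705 (.arc (nat_lit 20) n4711 (.arc (nat_lit 23) n4715 (.arc (nat_lit 50) n4728 (.arc (nat_lit 53) n4737 (.arc (nat_lit 56) n4743 (.arc (nat_lit 59) n4747 (.fin (nat_lit 559607961) (nat_lit 0)))))))))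
def n4749 : Nd := .arc (nat_lit 3) n4748 (.fin (nat_lit 289067159) (nat_lit 0))
def n4750 : Nd := .arc (nat_lit 14) n4705 (.arc (nat_lit 17) n4696 (.arc (nat_lit 20) n4715 (.arc (nat_lit 23) n4711 (.arc (nat_lit 62) n4728 (.arc (nat_lit 65) n4737 (.arc (nat_lit 68) n4747 (.arc (nat_lit 71) n4743 (.fin (nat_lit 289075351) (nat_lit 0)))))))))
def n4751 : Nd := .arc (nat_lit 3) n4750 (.fin (nat_lit 559599769) (nat_lit 0))
def n4752 : Nd := .arc (nat_lit 6) n4749 (.arc (nat_lit 9) n4751 (.fin (nat_lit 158478491) (nat_lit 0)))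
def n4753 : Nd := .arc (nat_lit 14) n4711 (.arc (nat_lit 17) n4715 (.arc (nat_lit 20) n4705 (.arc (nat_lit 23) n4696 (.arc (nat_lit 26) n4728 (.arc (nat_lit 29) n4737 (.arc (nat_lit 32) n4747 (.arc (nat_lit 35) n4743 (.fin (nat_lit 158527643) (nat_lit 0)))))))))
def n4754 : Nd := .arc (nat_lit 9) n4753 (.arc (nat_lit 64) n4720 (.arc (nat_lit 67) n4727 (.arc (nat_lit 70) n4724 (.fin (nat_lit 289042583) (nat_lit 0)))))
def n4755 : Nd := .arc (nat_lit 6) n4750 (.fin (nat_lit 158511259) (nat_lit 0))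
def n4756 : Nd := .arc (nat_lit 3) n4754 (.arc (nat_lit 6) n4755 (.fin (nat_lit 559583385) (nat_lit 0)))
def n4757 : Nd := .arc (nat_lit 6) n4753 (.arc (nat_lit 52) n4720 (.arc (nat_lit 55) n4724 (.arc (nat_lit 58) n4727 (.fin (nat_lit 559591577) (nat_lit 0)))))
def n4758 : Nd := .arc (nat_lit 9) n4748 (.fin (nat_lit 158494875) (nat_lit 0))
def n4759 : Nd := .arc (nat_lit 3) n4757 (.arc (nat_lit 9) n4758 (.fin (nat_lit 289034391) (nat_lit 0)))
def n4760 : Nd := .arc (nat_lit 3) n4752 (.arc (nat_lit 6) n4756 (.arc (nat_lit 9) n4759 (.fin (nat_lit 90837149) (nat_lit 0))))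
def n4761 : Nd := .arc (nat_lit 6) n4751 (.arc (nat_lit 9) n4749 (.fin (nat_lit 90845341) (nat_lit 0)))
def n4762 : Nd := .arc (nat_lit 14) n4715 (.arc (nat_lit 17) n4711 (.arc (nat_lit 20) n4696 (.arc (nat_lit 23) n4705 (.arc (nat_lit 38) n4728 (.arc (nat_lit 41) n4737 (.arc (nat_lit 44) n4743 (.arc (nat_lit 47) n4747 (.fin (nat_lit 90894493) (nat_lit 0)))))))))
def n4763 : Nd := .arc (nat_lit 9) n4762 (.fin (nat_lit 559575193) (nat_lit 0))
def n4764 : Nd := .arc (nat_lit 6) n4748 (.fin (nat_lit 90878109) (nat_lit 0))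
def n4765 : Nd := .arc (nat_lit 3) n4763 (.arc (nat_lit 6) n4764 (.fin (nat_lit 289050775) (nat_lit 0)))
def n4766 : Nd := .arc (nat_lit 6) n4762 (.fin (nat_lit 289058967) (nat_lit 0))
def n4767 : Nd := .arc (nat_lit 9) n4750 (.fin (nat_lit 90861725) (nat_lit 0))
def n4768 : Nd := .arc (nat_lit 3) n4766 (.arc (nat_lit 9) n4767 (.fin (nat_lit 559567001) (nat_lit 0)))
def n4769 : Nd := .arc (nat_lit 3) n4761 (.arc (nat_lit 6) n4765 (.arc (nat_lit 9) n4768 (.fin (nat_lit 158470299) (nat_lit 0))))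
def n4770 : Nd := .arc (nat_lit 3) n4762 (.fin (nat_lit 158519451) (nat_lit 0))
def n4771 : Nd := .arc (nat_lit 3) n4753 (.arc (nat_lit 40) n4720 (.arc (nat_lit 43) n4724 (.arc (nat_lit 46) n4727 (.fin (nat_lit 90886301) (nat_lit 0)))))
def n4772 : Nd := .arc (nat_lit 6) n4770 (.arc (nat_lit 9) n4771 (.fin (nat_lit 559558809) (nat_lit 0)))
def n4773 : Nd := .arc (nat_lit 3) n4758 (.arc (nat_lit 6) n4757 (.fin (nat_lit 90869917) (nat_lit 0)))
def n4774 : Nd := .arc (nat_lit 3) n4764 (.arc (nat_lit 9) n4763 (.fin (nat_lit 158486683) (nat_lit 0)))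
def n4775 : Nd := .arc (nat_lit 3) n4772 (.arc (nat_lit 6) n4773 (.arc (nat_lit 9) n4774 (.fin (nat_lit 289018007) (nat_lit 0))))
def n4776 : Nd := .arc (nat_lit 6) n4771 (.arc (nat_lit 9) n4770 (.fin (nat_lit 289026199) (nat_lit 0)))
def n4777 : Nd := .arc (nat_lit 3) n4767 (.arc (nat_lit 6) n4766 (.fin (nat_lit 158503067) (nat_lit 0)))
def n4778 : Nd := .arc (nat_lit 3) n4755 (.arc (nat_lit 9) n4754 (.fin (nat_lit 90853533) (nat_lit 0)))
def n4779 : Nd := .arc (nat_lit 3) n4776 (.arc (nat_lit 6) n4777 (.arc (nat_lit 9) n4778 (.fin (nat_lit 559550617) (nat_lit 0))))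
def n4780 : Nd := .arc (nat_lit 38) n4673 (.arc (nat_lit 41) n4664 (.arc (nat_lit 44) n4683 (.arc (nat_lit 47) n4679 (.fin (nat_lit 91156637) (nat_lit 0)))))
def n4781 : Nd := .arc (nat_lit 3) n4780 (.fin (nat_lit 158781595) (nat_lit 0))
def n4782 : Nd := .arc (nat_lit 26) n4673 (.arc (nat_lit 29) n4664 (.arc (nat_lit 32) n4679 (.arc (nat_lit 35) n4683 (.fin (nat_lit 158789787) (nat_lit 0)))))
def n4783 : Nd := .arc (nat_lit 3) n4782 (.arc (nat_lit 40) n4665 (.arc (nat_lit 43) n4669 (.arc (nat_lit 46) n4672 (.fin (nat_lit 91148445) (nat_lit 0)))))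
def n4784 : Nd := .arc (nat_lit 6) n4781 (.arc (nat_lit 9) n4783 (.fin (nat_lit 559820953) (nat_lit 0)))
def n4785 : Nd := .arc (nat_lit 50) n4673 (.arc (nat_lit 53) n4664 (.arc (nat_lit 56) n4683 (.arc (nat_lit 59) n4679 (.fin (nat_lit 559870105) (nat_lit 0)))))
def n4786 : Nd := .arc (nat_lit 9) n4785 (.fin (nat_lit 158757019) (nat_lit 0))
def n4787 : Nd := .arc (nat_lit 6) n4782 (.arc (nat_lit 52) n4665 (.arc (nat_lit 55) n4669 (.arc (nat_lit 58) n4672 (.fin (nat_lit 559853721) (nat_lit 0)))))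
def n4788 : Nd := .arc (nat_lit 3) n4786 (.arc (nat_lit 6) n4787 (.fin (nat_lit 91132061) (nat_lit 0)))
def n4789 : Nd := .arc (nat_lit 6) n4785 (.fin (nat_lit 91140253) (nat_lit 0))
def n4790 : Nd := .arc (nat_lit 9) n4780 (.fin (nat_lit 559837337) (nat_lit 0))
def n4791 : Nd := .arc (nat_lit 3) n4789 (.arc (nat_lit 9) n4790 (.fin (nat_lit 158748827) (nat_lit 0)))
def n4792 : Nd := .arc (nat_lit 3) n4784 (.arc (nat_lit 6) n4788 (.arc (nat_lit 9) n4791 (.fin (nat_lit 289280151) (nat_lit 0))))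
def n4793 : Nd := .arc (nat_lit 6) n4783 (.arc (nat_lit 9) n4781 (.fin (nat_lit 289288343) (nat_lit 0)))
def n4794 : Nd := .arc (nat_lit 62) n4673 (.arc (nat_lit 65) n4664 (.arc (nat_lit 68) n4679 (.arc (nat_lit 71) n4683 (.fin (nat_lit 289337495) (nat_lit 0)))))
def n4795 : Nd := .arc (nat_lit 9) n4794 (.fin (nat_lit 91123869) (nat_lit 0))
def n4796 : Nd := .arc (nat_lit 6) n4780 (.fin (nat_lit 289321111) (nat_lit 0))
def n4797 : Nd := .arc (nat_lit 3) n4795 (.arc (nat_lit 6) n4796 (.fin (nat_lit 158765211) (nat_lit 0)))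
def n4798 : Nd := .arc (nat_lit 6) n4794 (.fin (nat_lit 158773403) (nat_lit 0))
def n4799 : Nd := .arc (nat_lit 9) n4782 (.arc (nat_lit 64) n4665 (.arc (nat_lit 67) n4672 (.arc (nat_lit 70) n4669 (.fin (nat_lit 289304727) (nat_lit 0)))))
def n4800 : Nd := .arc (nat_lit 3) n4798 (.arc (nat_lit 9) n4799 (.fin (nat_lit 91115677) (nat_lit 0)))
def n4801 : Nd := .arc (nat_lit 3) n4793 (.arc (nat_lit 6) n4797 (.arc (nat_lit 9) n4800 (.fin (nat_lit 559812761) (nat_lit 0))))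
def n4802 : Nd := .arc (nat_lit 3) n4794 (.fin (nat_lit 559861913) (nat_lit 0))
def n4803 : Nd := .arc (nat_lit 3) n4785 (.fin (nat_lit 289329303) (nat_lit 0))
def n4804 : Nd := .arc (nat_lit 6) n4802 (.arc (nat_lit 9) n4803 (.fin (nat_lit 91107485) (nat_lit 0)))
def n4805 : Nd := .arc (nat_lit 3) n4790 (.arc (nat_lit 6) n4789 (.fin (nat_lit 289312919) (nat_lit 0)))
def n4806 : Nd := .arc (nat_lit 3) n4796 (.arc (nat_lit 9) n4795 (.fin (nat_lit 559829145) (nat_lit 0)))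
def n4807 : Nd := .arc (nat_lit 3) n4804 (.arc (nat_lit 6) n4805 (.arc (nat_lit 9) n4806 (.fin (nat_lit 158732443) (nat_lit 0))))
def n4808 : Nd := .arc (nat_lit 6) n4803 (.arc (nat_lit 9) n4802 (.fin (nat_lit 158740635) (nat_lit 0)))
def n4809 : Nd := .arc (nat_lit 3) n4799 (.arc (nat_lit 6) n4798 (.fin (nat_lit 559845529) (nat_lit 0)))
def n4810 : Nd := .arc (nat_lit 3) n4787 (.arc (nat_lit 9) n4786 (.fin (nat_lit 289296535) (nat_lit 0)))
def n4811 : Nd := .arc (nat_lit 3) n4808 (.arc (nat_lit 6) n4809 (.arc (nat_lit 9) n4810 (.fin (nat_lit 91099293) (nat_lit 0))))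
def n4812 : Nd := .arc (nat_lit 50) n4523 (.arc (nat_lit 53) n4519 (.arc (nat_lit 56) n4513 (.arc (nat_lit 59) n4504 (.fin (nat_lit 308211863) (nat_lit 0)))))
def n4813 : Nd := .arc (nat_lit 3) n4812 (.fin (nat_lit 574541977) (nat_lit 0))

end

end Pool.Agent.Lib.MP_5854e1_co.Da
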