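import Pool.Agent.Lib.MP_5854e1_co.DartB

/-!
# The nodes of the automaton, part 3
-/

set_option autoImplicit false

namespace Pool.Agent.Lib.MP_5854e1_co.Da

noncomputable section

def n4814 : Nd := .arc (nat_lit 62) n4523 (.arc (nat_lit 65) n4519 (.arc (nat_lit 68) n4504 (.arc (nat_lit 71) n4513 (.fin (nat_lit 574550169) (nat_lit 0)))))
def n4815 : Nd := .arc (nat_lit 3) n4814 (.fin (nat_lit 308203671) (nat_lit 0))
def n4816 : Nd := .arc (nat_lit 6) n4813 (.arc (nat_lit 9) n4815 (.fin (nat_lit 108408989) (nat_lit 0)))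
def n4817 : Nd := .arc (nat_lit 26) n4523 (.arc (nat_lit 29) n4519 (.arc (nat_lit 32) n4504 (.arc (nat_lit 35) n4513 (.fin (nat_lit 108458141) (nat_lit 0)))))
def n4818 : Nd := .arc (nat_lit 9) n4817 (.arc (nat_lit 64) n4520 (.arc (nat_lit 67) n4522 (.arc (nat_lit 70) n4521 (.fin (nat_lit 574517401) (nat_lit 0)))))
def n4819 : Nd := .arc (nat_lit 6) n4814 (.fin (nat_lit 108441757) (nat_lit 0))
def n4820 : Nd := .arc (nat_lit 3) n4818 (.arc (nat_lit 6) n4819 (.fin (nat_lit 308187287) (nat_lit 0)))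
def n4821 : Nd := .arc (nat_lit 6) n4817 (.arc (nat_lit 52) n4520 (.arc (nat_lit 55) n4521 (.arc (nat_lit 58) n4522 (.fin (nat_lit 308195479) (nat_lit 0)))))
def n4822 : Nd := .arc (nat_lit 9) n4812 (.fin (nat_lit 108425373) (nat_lit 0))
def n4823 : Nd := .arc (nat_lit 3) n4821 (.arc (nat_lit 9) n4822 (.fin (nat_lit 574509209) (nat_lit 0)))
def n4824 : Nd := .arc (nat_lit 3) n4816 (.arc (nat_lit 6) n4820 (.arc (nat_lit 9) n4823 (.fin (nat_lit 174985371) (nat_lit 0))))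
def n4825 : Nd := .arc (nat_lit 6) n4815 (.arc (nat_lit 9) n4813 (.fin (nat_lit 174993563) (nat_lit 0)))
def n4826 : Nd := .arc (nat_lit 38) n4523 (.arc (nat_lit 41) n4519 (.arc (nat_lit 44) n4513 (.arc (nat_lit 47) n4504 (.fin (nat_lit 175042715) (nat_lit 0)))))
def n4827 : Nd := .arc (nat_lit 9) n4826 (.fin (nat_lit 308179095) (nat_lit 0))
def n4828 : Nd := .arc (nat_lit 6) n4812 (.fin (nat_lit 175026331) (nat_lit 0))
def n4829 : Nd := .arc (nat_lit 3) n4827 (.arc (nat_lit 6) n4828 (.fin (nat_lit 574525593) (nat_lit 0)))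
def n4830 : Nd := .arc (nat_lit 6) n4826 (.fin (nat_lit 574533785) (nat_lit 0))
def n4831 : Nd := .arc (nat_lit 9) n4814 (.fin (nat_lit 175009947) (nat_lit 0))
def n4832 : Nd := .arc (nat_lit 3) n4830 (.arc (nat_lit 9) n4831 (.fin (nat_lit 308170903) (nat_lit 0)))
def n4833 : Nd := .arc (nat_lit 3) n4825 (.arc (nat_lit 6) n4829 (.arc (nat_lit 9) n4832 (.fin (nat_lit 108400797) (nat_lit 0))))
def n4834 : Nd := .arc (nat_lit 3) n4817 (.arc (nat_lit 40) n4520 (.arc (nat_lit 43) n4521 (.arc (nat_lit 46) n4522 (.fin (nat_lit 175034523) (nat_lit 0)))))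
def n4835 : Nd := .arc (nat_lit 3) n4826 (.fin (nat_lit 108449949) (nat_lit 0))
def n4836 : Nd := .arc (nat_lit 6) n4834 (.arc (nat_lit 9) n4835 (.fin (nat_lit 574501017) (nat_lit 0)))
def n4837 : Nd := .arc (nat_lit 3) n4831 (.arc (nat_lit 6) n4830 (.fin (nat_lit 108433565) (nat_lit 0)))
def n4838 : Nd := .arc (nat_lit 3) n4819 (.arc (nat_lit 9) n4818 (.fin (nat_lit 175001755) (nat_lit 0)))
def n4839 : Nd := .arc (nat_lit 3) n4836 (.arc (nat_lit 6) n4837 (.arc (nat_lit 9) n4838 (.fin (nat_lit 308154519) (nat_lit 0))))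
def n4840 : Nd := .arc (nat_lit 6) n4835 (.arc (nat_lit 9) n4834 (.fin (nat_lit 308162711) (nat_lit 0)))
def n4841 : Nd := .arc (nat_lit 3) n4822 (.arc (nat_lit 6) n4821 (.fin (nat_lit 175018139) (nat_lit 0)))
def n4842 : Nd := .arc (nat_lit 3) n4828 (.arc (nat_lit 9) n4827 (.fin (nat_lit 108417181) (nat_lit 0)))
def n4843 : Nd := .arc (nat_lit 3) n4840 (.arc (nat_lit 6) n4841 (.arc (nat_lit 9) n4842 (.fin (nat_lit 574492825) (nat_lit 0))))
def n4844 : Nd := .arc (nat_lit 14) n4792 (.arc (nat_lit 17) n4801 (.arc (nat_lit 20) n4807 (.arc (nat_lit 23) n4811 (.arc (nat_lit 50) n4824 (.arc (nat_lit 53) n4833 (.arc (nat_lit 56) n4839 (.arc (nat_lit 59) n4843 (.fin (nat_lit 576385175) (nat_lit 0)))))))))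
def n4845 : Nd := .arc (nat_lit 3) n4844 (.fin (nat_lit 305844377) (nat_lit 0))
def n4846 : Nd := .arc (nat_lit 14) n4801 (.arc (nat_lit 17) n4792 (.arc (nat_lit 20) n4811 (.arc (nat_lit 23) n4807 (.arc (nat_lit 62) n4824 (.arc (nat_lit 65) n4833 (.arc (nat_lit 68) n4843 (.arc (nat_lit 71) n4839 (.fin (nat_lit 305852569) (nat_lit 0)))))))))
def n4847 : Nd := .arc (nat_lit 3) n4846 (.fin (nat_lit 576376983) (nat_lit 0))
def n4848 : Nd := .arc (nat_lit 6) n4845 (.arc (nat_lit 9) n4847 (.fin (nat_lit 175255709) (nat_lit 0)))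
def n4849 : Nd := .arc (nat_lit 14) n4807 (.arc (nat_lit 17) n4811 (.arc (nat_lit 20) n4801 (.arc (nat_lit 23) n4792 (.arc (nat_lit 26) n4824 (.arc (nat_lit 29) n4833 (.arc (nat_lit 32) n4843 (.arc (nat_lit 35) n4839 (.fin (nat_lit 175304861) (nat_lit 0)))))))))
def n4850 : Nd := .arc (nat_lit 9) n4849 (.arc (nat_lit 64) n4816 (.arc (nat_lit 67) n4823 (.arc (nat_lit 70) n4820 (.fin (nat_lit 305819801) (nat_lit 0)))))
def n4851 : Nd := .arc (nat_lit 6) n4846 (.fin (nat_lit 175288477) (nat_lit 0))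
def n4852 : Nd := .arc (nat_lit 3) n4850 (.arc (nat_lit 6) n4851 (.fin (nat_lit 576360599) (nat_lit 0)))
def n4853 : Nd := .arc (nat_lit 6) n4849 (.arc (nat_lit 52) n4816 (.arc (nat_lit 55) n4820 (.arc (nat_lit 58) n4823 (.fin (nat_lit 576368791) (nat_lit 0)))))
def n4854 : Nd := .arc (nat_lit 9) n4844 (.fin (nat_lit 175272093) (nat_lit 0))
def n4855 : Nd := .arc (nat_lit 3) n4853 (.arc (nat_lit 9) n4854 (.fin (nat_lit 305811609) (nat_lit 0)))
def n4856 : Nd := .arc (nat_lit 3) n4848 (.arc (nat_lit 6) n4852 (.arc (nat_lit 9) n4855 (.fin (nat_lit 107614363) (nat_lit 0))))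
def n4857 : Nd := .arc (nat_lit 6) n4847 (.arc (nat_lit 9) n4845 (.fin (nat_lit 107622555) (nat_lit 0)))
def n4858 : Nd := .arc (nat_lit 14) n4811 (.arc (nat_lit 17) n4807 (.arc (nat_lit 20) n4792 (.arc (nat_lit 23) n4801 (.arc (nat_lit 38) n4824 (.arc (nat_lit 41) n4833 (.arc (nat_lit 44) n4839 (.arc (nat_lit 47) n4843 (.fin (nat_lit 107671707) (nat_lit 0)))))))))
def n4859 : Nd := .arc (nat_lit 9) n4858 (.fin (nat_lit 576352407) (nat_lit 0))
def n4860 : Nd := .arc (nat_lit 6) n4844 (.fin (nat_lit 107655323) (nat_lit 0))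
def n4861 : Nd := .arc (nat_lit 3) n4859 (.arc (nat_lit 6) n4860 (.fin (nat_lit 305827993) (nat_lit 0)))
def n4862 : Nd := .arc (nat_lit 6) n4858 (.fin (nat_lit 305836185) (nat_lit 0))
def n4863 : Nd := .arc (nat_lit 9) n4846 (.fin (nat_lit 107638939) (nat_lit 0))
def n4864 : Nd := .arc (nat_lit 3) n4862 (.arc (nat_lit 9) n4863 (.fin (nat_lit 576344215) (nat_lit 0)))
def n4865 : Nd := .arc (nat_lit 3) n4857 (.arc (nat_lit 6) n4861 (.arc (nat_lit 9) n4864 (.fin (nat_lit 175247517) (nat_lit 0))))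
def n4866 : Nd := .arc (nat_lit 3) n4849 (.arc (nat_lit 40) n4816 (.arc (nat_lit 43) n4820 (.arc (nat_lit 46) n4823 (.fin (nat_lit 107663515) (nat_lit 0)))))
def n4867 : Nd := .arc (nat_lit 3) n4858 (.fin (nat_lit 175296669) (nat_lit 0))
def n4868 : Nd := .arc (nat_lit 6) n4866 (.arc (nat_lit 9) n4867 (.fin (nat_lit 305803417) (nat_lit 0)))
def n4869 : Nd := .arc (nat_lit 3) n4863 (.arc (nat_lit 6) n4862 (.fin (nat_lit 175280285) (nat_lit 0)))
def n4870 : Nd := .arc (nat_lit 3) n4851 (.arc (nat_lit 9) n4850 (.fin (nat_lit 107630747) (nat_lit 0)))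
def n4871 : Nd := .arc (nat_lit 3) n4868 (.arc (nat_lit 6) n4869 (.arc (nat_lit 9) n4870 (.fin (nat_lit 576327831) (nat_lit 0))))
def n4872 : Nd := .arc (nat_lit 6) n4867 (.arc (nat_lit 9) n4866 (.fin (nat_lit 576336023) (nat_lit 0)))
def n4873 : Nd := .arc (nat_lit 3) n4854 (.arc (nat_lit 6) n4853 (.fin (nat_lit 107647131) (nat_lit 0)))
def n4874 : Nd := .arc (nat_lit 3) n4860 (.arc (nat_lit 9) n4859 (.fin (nat_lit 175263901) (nat_lit 0)))
def n4875 : Nd := .arc (nat_lit 3) n4872 (.arc (nat_lit 6) n4873 (.arc (nat_lit 9) n4874 (.fin (nat_lit 305795225) (nat_lit 0))))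
def n4876 : Nd := .arc (nat_lit 14) n4632 (.arc (nat_lit 17) n4641 (.arc (nat_lit 20) n4647 (.arc (nat_lit 23) n4651 (.arc (nat_lit 26) n4760 (.arc (nat_lit 29) n4769 (.arc (nat_lit 32) n4775 (.arc (nat_lit 35) n4779 (.arc (nat_lit 38) n4856 (.arc (nat_lit 41) n4865 (.arc (nat_lit 44) n4871 (.arc (nat_lit 47) n4875 (.fin (nat_lit 90370203) (nat_lit 0)))))))))))))
def n4877 : Nd := .arc (nat_lit 3) n4876 (.arc (nat_lit 40) n4752 (.arc (nat_lit 43) n4756 (.arc (nat_lit 46) n4759 (.fin (nat_lit 157470877) (nat_lit 0)))))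
def n4878 : Nd := .arc (nat_lit 14) n4641 (.arc (nat_lit 17) n4632 (.arc (nat_lit 20) n4651 (.arc (nat_lit 23) n4647 (.arc (nat_lit 26) n4856 (.arc (nat_lit 29) n4865 (.arc (nat_lit 32) n4875 (.arc (nat_lit 35) n4871 (.arc (nat_lit 38) n4760 (.arc (nat_lit 41) n4769 (.arc (nat_lit 44) n4779 (.arc (nat_lit 47) n4775 (.fin (nat_lit 157479069) (nat_lit 0)))))))))))))
def n4879 : Nd := .arc (nat_lit 3) n4878 (.arc (nat_lit 40) n4848 (.arc (nat_lit 43) n4852 (.arc (nat_lit 46) n4855 (.fin (nat_lit 90362011) (nat_lit 0)))))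
def n4880 : Nd := .arc (nat_lit 6) n4877 (.arc (nat_lit 9) n4879 (.fin (nat_lit 555364503) (nat_lit 0)))
def n4881 : Nd := .arc (nat_lit 14) n4647 (.arc (nat_lit 17) n4651 (.arc (nat_lit 20) n4641 (.arc (nat_lit 23) n4632 (.arc (nat_lit 50) n4856 (.arc (nat_lit 53) n4865 (.arc (nat_lit 56) n4871 (.arc (nat_lit 59) n4875 (.arc (nat_lit 62) n4760 (.arc (nat_lit 65) n4769 (.arc (nat_lit 68) n4775 (.arc (nat_lit 71) n4779 (.fin (nat_lit 555413655) (nat_lit 0)))))))))))))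
def n4882 : Nd := .arc (nat_lit 9) n4881 (.fin (nat_lit 157446301) (nat_lit 0))
def n4883 : Nd := .arc (nat_lit 6) n4878 (.arc (nat_lit 52) n4848 (.arc (nat_lit 55) n4852 (.arc (nat_lit 58) n4855 (.fin (nat_lit 555397271) (nat_lit 0)))))
def n4884 : Nd := .arc (nat_lit 3) n4882 (.arc (nat_lit 6) n4883 (.fin (nat_lit 90345627) (nat_lit 0)))
def n4885 : Nd := .arc (nat_lit 6) n4881 (.fin (nat_lit 90353819) (nat_lit 0))
def n4886 : Nd := .arc (nat_lit 9) n4876 (.arc (nat_lit 64) n4752 (.arc (nat_lit 67) n4759 (.arc (nat_lit 70) n4756 (.fin (nat_lit 555380887) (nat_lit 0)))))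
def n4887 : Nd := .arc (nat_lit 3) n4885 (.arc (nat_lit 9) n4886 (.fin (nat_lit 157438109) (nat_lit 0)))
def n4888 : Nd := .arc (nat_lit 3) n4880 (.arc (nat_lit 6) n4884 (.arc (nat_lit 9) n4887 (.fin (nat_lit 286920857) (nat_lit 0))))
def n4889 : Nd := .arc (nat_lit 6) n4879 (.arc (nat_lit 9) n4877 (.fin (nat_lit 286929049) (nat_lit 0)))
def n4890 : Nd := .arc (nat_lit 14) n4651 (.arc (nat_lit 17) n4647 (.arc (nat_lit 20) n4632 (.arc (nat_lit 23) n4641 (.arc (nat_lit 50) n4760 (.arc (nat_lit 53) n4769 (.arc (nat_lit 56) n4779 (.arc (nat_lit 59) n4775 (.arc (nat_lit 62) n4856 (.arc (nat_lit 65) n4865 (.arc (nat_lit 68) n4875 (.arc (nat_lit 71) n4871 (.fin (nat_lit 286978201) (nat_lit 0)))))))))))))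
def n4891 : Nd := .arc (nat_lit 9) n4890 (.fin (nat_lit 90337435) (nat_lit 0))
def n4892 : Nd := .arc (nat_lit 6) n4876 (.arc (nat_lit 52) n4752 (.arc (nat_lit 55) n4756 (.arc (nat_lit 58) n4759 (.fin (nat_lit 286961817) (nat_lit 0)))))
def n4893 : Nd := .arc (nat_lit 3) n4891 (.arc (nat_lit 6) n4892 (.fin (nat_lit 157454493) (nat_lit 0)))
def n4894 : Nd := .arc (nat_lit 6) n4890 (.fin (nat_lit 157462685) (nat_lit 0))
def n4895 : Nd := .arc (nat_lit 9) n4878 (.arc (nat_lit 64) n4848 (.arc (nat_lit 67) n4855 (.arc (nat_lit 70) n4852 (.fin (nat_lit 286945433) (nat_lit 0)))))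
def n4896 : Nd := .arc (nat_lit 3) n4894 (.arc (nat_lit 9) n4895 (.fin (nat_lit 90329243) (nat_lit 0)))
def n4897 : Nd := .arc (nat_lit 3) n4889 (.arc (nat_lit 6) n4893 (.arc (nat_lit 9) n4896 (.fin (nat_lit 555356311) (nat_lit 0))))
def n4898 : Nd := .arc (nat_lit 3) n4890 (.fin (nat_lit 555405463) (nat_lit 0))
def n4899 : Nd := .arc (nat_lit 3) n4881 (.fin (nat_lit 286970009) (nat_lit 0))
def n4900 : Nd := .arc (nat_lit 6) n4898 (.arc (nat_lit 9) n4899 (.fin (nat_lit 90321051) (nat_lit 0)))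
def n4901 : Nd := .arc (nat_lit 3) n4886 (.arc (nat_lit 6) n4885 (.fin (nat_lit 286953625) (nat_lit 0)))
def n4902 : Nd := .arc (nat_lit 3) n4892 (.arc (nat_lit 9) n4891 (.fin (nat_lit 555372695) (nat_lit 0)))
def n4903 : Nd := .arc (nat_lit 3) n4900 (.arc (nat_lit 6) n4901 (.arc (nat_lit 9) n4902 (.fin (nat_lit 157421725) (nat_lit 0))))
def n4904 : Nd := .arc (nat_lit 6) n4899 (.arc (nat_lit 9) n4898 (.fin (nat_lit 157429917) (nat_lit 0)))
def n4905 : Nd := .arc (nat_lit 3) n4895 (.arc (nat_lit 6) n4894 (.fin (nat_lit 555389079) (nat_lit 0)))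
def n4906 : Nd := .arc (nat_lit 3) n4883 (.arc (nat_lit 9) n4882 (.fin (nat_lit 286937241) (nat_lit 0)))
def n4907 : Nd := .arc (nat_lit 3) n4904 (.arc (nat_lit 6) n4905 (.arc (nat_lit 9) n4906 (.fin (nat_lit 90312859) (nat_lit 0))))
def n4908 : Nd := .arc (nat_lit 50) n4609 (.arc (nat_lit 53) n4600 (.arc (nat_lit 56) n4615 (.arc (nat_lit 59) n4619 (.arc (nat_lit 62) n4545 (.arc (nat_lit 65) n4536 (.arc (nat_lit 68) n4551 (.arc (nat_lit 71) n4555 (.fin (nat_lit 287240345) (nat_lit 0)))))))))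
def n4909 : Nd := .arc (nat_lit 3) n4908 (.fin (nat_lit 555667607) (nat_lit 0))
def n4910 : Nd := .arc (nat_lit 50) n4545 (.arc (nat_lit 53) n4536 (.arc (nat_lit 56) n4555 (.arc (nat_lit 59) n4551 (.arc (nat_lit 62) n4609 (.arc (nat_lit 65) n4600 (.arc (nat_lit 68) n4619 (.arc (nat_lit 71) n4615 (.fin (nat_lit 555675799) (nat_lit 0)))))))))
def n4911 : Nd := .arc (nat_lit 3) n4910 (.fin (nat_lit 287232153) (nat_lit 0))
def n4912 : Nd := .arc (nat_lit 6) n4909 (.arc (nat_lit 9) n4911 (.fin (nat_lit 90583195) (nat_lit 0)))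
def n4913 : Nd := .arc (nat_lit 26) n4609 (.arc (nat_lit 29) n4600 (.arc (nat_lit 32) n4619 (.arc (nat_lit 35) n4615 (.arc (nat_lit 38) n4545 (.arc (nat_lit 41) n4536 (.arc (nat_lit 44) n4555 (.arc (nat_lit 47) n4551 (.fin (nat_lit 90632347) (nat_lit 0)))))))))
def n4914 : Nd := .arc (nat_lit 9) n4913 (.arc (nat_lit 64) n4601 (.arc (nat_lit 67) n4608 (.arc (nat_lit 70) n4605 (.fin (nat_lit 555643031) (nat_lit 0)))))
def n4915 : Nd := .arc (nat_lit 6) n4910 (.fin (nat_lit 90615963) (nat_lit 0))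
def n4916 : Nd := .arc (nat_lit 3) n4914 (.arc (nat_lit 6) n4915 (.fin (nat_lit 287215769) (nat_lit 0)))
def n4917 : Nd := .arc (nat_lit 6) n4913 (.arc (nat_lit 52) n4601 (.arc (nat_lit 55) n4605 (.arc (nat_lit 58) n4608 (.fin (nat_lit 287223961) (nat_lit 0)))))
def n4918 : Nd := .arc (nat_lit 9) n4908 (.fin (nat_lit 90599579) (nat_lit 0))
def n4919 : Nd := .arc (nat_lit 3) n4917 (.arc (nat_lit 9) n4918 (.fin (nat_lit 555634839) (nat_lit 0)))
def n4920 : Nd := .arc (nat_lit 3) n4912 (.arc (nat_lit 6) n4916 (.arc (nat_lit 9) n4919 (.fin (nat_lit 157683869) (nat_lit 0))))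
def n4921 : Nd := .arc (nat_lit 6) n4911 (.arc (nat_lit 9) n4909 (.fin (nat_lit 157692061) (nat_lit 0)))
def n4922 : Nd := .arc (nat_lit 26) n4545 (.arc (nat_lit 29) n4536 (.arc (nat_lit 32) n4551 (.arc (nat_lit 35) n4555 (.arc (nat_lit 38) n4609 (.arc (nat_lit 41) n4600 (.arc (nat_lit 44) n4615 (.arc (nat_lit 47) n4619 (.fin (nat_lit 157741213) (nat_lit 0)))))))))
def n4923 : Nd := .arc (nat_lit 9) n4922 (.arc (nat_lit 64) n4537 (.arc (nat_lit 67) n4544 (.arc (nat_lit 70) n4541 (.fin (nat_lit 287207577) (nat_lit 0)))))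
def n4924 : Nd := .arc (nat_lit 6) n4908 (.fin (nat_lit 157724829) (nat_lit 0))
def n4925 : Nd := .arc (nat_lit 3) n4923 (.arc (nat_lit 6) n4924 (.fin (nat_lit 555651223) (nat_lit 0)))
def n4926 : Nd := .arc (nat_lit 6) n4922 (.arc (nat_lit 52) n4537 (.arc (nat_lit 55) n4541 (.arc (nat_lit 58) n4544 (.fin (nat_lit 555659415) (nat_lit 0)))))
def n4927 : Nd := .arc (nat_lit 9) n4910 (.fin (nat_lit 157708445) (nat_lit 0))
def n4928 : Nd := .arc (nat_lit 3) n4926 (.arc (nat_lit 9) n4927 (.fin (nat_lit 287199385) (nat_lit 0)))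
def n4929 : Nd := .arc (nat_lit 3) n4921 (.arc (nat_lit 6) n4925 (.arc (nat_lit 9) n4928 (.fin (nat_lit 90575003) (nat_lit 0))))
def n4930 : Nd := .arc (nat_lit 3) n4922 (.arc (nat_lit 40) n4537 (.arc (nat_lit 43) n4541 (.arc (nat_lit 46) n4544 (.fin (nat_lit 90624155) (nat_lit 0)))))
def n4931 : Nd := .arc (nat_lit 3) n4913 (.arc (nat_lit 40) n4601 (.arc (nat_lit 43) n4605 (.arc (nat_lit 46) n4608 (.fin (nat_lit 157733021) (nat_lit 0)))))
def n4932 : Nd := .arc (nat_lit 6) n4930 (.arc (nat_lit 9) n4931 (.fin (nat_lit 287191193) (nat_lit 0)))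
def n4933 : Nd := .arc (nat_lit 3) n4918 (.arc (nat_lit 6) n4917 (.fin (nat_lit 157716637) (nat_lit 0)))
def n4934 : Nd := .arc (nat_lit 3) n4924 (.arc (nat_lit 9) n4923 (.fin (nat_lit 90591387) (nat_lit 0)))
def n4935 : Nd := .arc (nat_lit 3) n4932 (.arc (nat_lit 6) n4933 (.arc (nat_lit 9) n4934 (.fin (nat_lit 555618455) (nat_lit 0))))
def n4936 : Nd := .arc (nat_lit 6) n4931 (.arc (nat_lit 9) n4930 (.fin (nat_lit 555626647) (nat_lit 0)))
def n4937 : Nd := .arc (nat_lit 3) n4927 (.arc (nat_lit 6) n4926 (.fin (nat_lit 90607771) (nat_lit 0)))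
def n4938 : Nd := .arc (nat_lit 3) n4915 (.arc (nat_lit 9) n4914 (.fin (nat_lit 157700253) (nat_lit 0)))
def n4939 : Nd := .arc (nat_lit 3) n4936 (.arc (nat_lit 6) n4937 (.arc (nat_lit 9) n4938 (.fin (nat_lit 287183001) (nat_lit 0))))
def n4940 : Nd := .arc (nat_lit 29) n4491 (.arc (nat_lit 32) n4489 (.fin (nat_lit 561967255) (nat_lit 0)))
def n4941 : Nd := .arc (nat_lit 3) n4940 (.fin (nat_lit 293523609) (nat_lit 0))
def n4942 : Nd := .arc (nat_lit 41) n4491 (.arc (nat_lit 47) n4489 (.fin (nat_lit 293531801) (nat_lit 0)))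
def n4943 : Nd := .arc (nat_lit 3) n4942 (.fin (nat_lit 561959063) (nat_lit 0))
def n4944 : Nd := .arc (nat_lit 6) n4941 (.arc (nat_lit 9) n4943 (.fin (nat_lit 159264925) (nat_lit 0)))
def n4945 : Nd := .arc (nat_lit 65) n4491 (.arc (nat_lit 68) n4489 (.fin (nat_lit 159314077) (nat_lit 0)))
def n4946 : Nd := .arc (nat_lit 9) n4945 (.fin (nat_lit 293499033) (nat_lit 0))
def n4947 : Nd := .arc (nat_lit 6) n4942 (.fin (nat_lit 159297693) (nat_lit 0))
def n4948 : Nd := .arc (nat_lit 3) n4946 (.arc (nat_lit 6) n4947 (.fin (nat_lit 561942679) (nat_lit 0)))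
def n4949 : Nd := .arc (nat_lit 6) n4945 (.fin (nat_lit 561950871) (nat_lit 0))
def n4950 : Nd := .arc (nat_lit 9) n4940 (.fin (nat_lit 159281309) (nat_lit 0))
def n4951 : Nd := .arc (nat_lit 3) n4949 (.arc (nat_lit 9) n4950 (.fin (nat_lit 293490841) (nat_lit 0)))
def n4952 : Nd := .arc (nat_lit 3) n4944 (.arc (nat_lit 6) n4948 (.arc (nat_lit 9) n4951 (.fin (nat_lit 92147867) (nat_lit 0))))
def n4953 : Nd := .arc (nat_lit 6) n4943 (.arc (nat_lit 9) n4941 (.fin (nat_lit 92156059) (nat_lit 0)))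
def n4954 : Nd := .arc (nat_lit 53) n4491 (.arc (nat_lit 59) n4489 (.fin (nat_lit 92205211) (nat_lit 0)))
def n4955 : Nd := .arc (nat_lit 9) n4954 (.fin (nat_lit 561934487) (nat_lit 0))
def n4956 : Nd := .arc (nat_lit 6) n4940 (.fin (nat_lit 92188827) (nat_lit 0))
def n4957 : Nd := .arc (nat_lit 3) n4955 (.arc (nat_lit 6) n4956 (.fin (nat_lit 293507225) (nat_lit 0)))
def n4958 : Nd := .arc (nat_lit 6) n4954 (.fin (nat_lit 293515417) (nat_lit 0))
def n4959 : Nd := .arc (nat_lit 9) n4942 (.fin (nat_lit 92172443) (nat_lit 0))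
def n4960 : Nd := .arc (nat_lit 3) n4958 (.arc (nat_lit 9) n4959 (.fin (nat_lit 561926295) (nat_lit 0)))
def n4961 : Nd := .arc (nat_lit 3) n4953 (.arc (nat_lit 6) n4957 (.arc (nat_lit 9) n4960 (.fin (nat_lit 159256733) (nat_lit 0))))
def n4962 : Nd := .arc (nat_lit 3) n4945 (.fin (nat_lit 92197019) (nat_lit 0))
def n4963 : Nd := .arc (nat_lit 3) n4954 (.fin (nat_lit 159305885) (nat_lit 0))
def n4964 : Nd := .arc (nat_lit 6) n4962 (.arc (nat_lit 9) n4963 (.fin (nat_lit 293482649) (nat_lit 0)))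
def n4965 : Nd := .arc (nat_lit 3) n4959 (.arc (nat_lit 6) n4958 (.fin (nat_lit 159289501) (nat_lit 0)))
def n4966 : Nd := .arc (nat_lit 3) n4947 (.arc (nat_lit 9) n4946 (.fin (nat_lit 92164251) (nat_lit 0)))
def n4967 : Nd := .arc (nat_lit 3) n4964 (.arc (nat_lit 6) n4965 (.arc (nat_lit 9) n4966 (.fin (nat_lit 561909911) (nat_lit 0))))
def n4968 : Nd := .arc (nat_lit 6) n4963 (.arc (nat_lit 9) n4962 (.fin (nat_lit 561918103) (nat_lit 0)))
def n4969 : Nd := .arc (nat_lit 3) n4950 (.arc (nat_lit 6) n4949 (.fin (nat_lit 92180635) (nat_lit 0)))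
def n4970 : Nd := .arc (nat_lit 3) n4956 (.arc (nat_lit 9) n4955 (.fin (nat_lit 159273117) (nat_lit 0)))
def n4971 : Nd := .arc (nat_lit 3) n4968 (.arc (nat_lit 6) n4969 (.arc (nat_lit 9) n4970 (.fin (nat_lit 293474457) (nat_lit 0))))
def n4972 : Nd := .arc (nat_lit 38) n4952 (.arc (nat_lit 41) n4961 (.arc (nat_lit 44) n4967 (.arc (nat_lit 47) n4971 (.fin (nat_lit 158265499) (nat_lit 0)))))
def n4973 : Nd := .arc (nat_lit 3) n4972 (.fin (nat_lit 91672733) (nat_lit 0))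
def n4974 : Nd := .arc (nat_lit 26) n4952 (.arc (nat_lit 29) n4961 (.arc (nat_lit 32) n4971 (.arc (nat_lit 35) n4967 (.fin (nat_lit 91680925) (nat_lit 0)))))
def n4975 : Nd := .arc (nat_lit 3) n4974 (.arc (nat_lit 40) n4944 (.arc (nat_lit 43) n4948 (.arc (nat_lit 46) n4951 (.fin (nat_lit 158257307) (nat_lit 0)))))
def n4976 : Nd := .arc (nat_lit 6) n4973 (.arc (nat_lit 9) n4975 (.fin (nat_lit 291385495) (nat_lit 0)))
def n4977 : Nd := .arc (nat_lit 50) n4952 (.arc (nat_lit 53) n4961 (.arc (nat_lit 56) n4967 (.arc (nat_lit 59) n4971 (.fin (nat_lit 291434647) (nat_lit 0)))))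
def n4978 : Nd := .arc (nat_lit 9) n4977 (.fin (nat_lit 91648157) (nat_lit 0))
def n4979 : Nd := .arc (nat_lit 6) n4974 (.arc (nat_lit 52) n4944 (.arc (nat_lit 55) n4948 (.arc (nat_lit 58) n4951 (.fin (nat_lit 291418263) (nat_lit 0)))))
def n4980 : Nd := .arc (nat_lit 3) n4978 (.arc (nat_lit 6) n4979 (.fin (nat_lit 158240923) (nat_lit 0)))
def n4981 : Nd := .arc (nat_lit 6) n4977 (.fin (nat_lit 158249115) (nat_lit 0))
def n4982 : Nd := .arc (nat_lit 9) n4972 (.fin (nat_lit 291401879) (nat_lit 0))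
def n4983 : Nd := .arc (nat_lit 3) n4981 (.arc (nat_lit 9) n4982 (.fin (nat_lit 91639965) (nat_lit 0)))
def n4984 : Nd := .arc (nat_lit 3) n4976 (.arc (nat_lit 6) n4980 (.arc (nat_lit 9) n4983 (.fin (nat_lit 557715609) (nat_lit 0))))
def n4985 : Nd := .arc (nat_lit 6) n4975 (.arc (nat_lit 9) n4973 (.fin (nat_lit 557723801) (nat_lit 0)))
def n4986 : Nd := .arc (nat_lit 62) n4952 (.arc (nat_lit 65) n4961 (.arc (nat_lit 68) n4971 (.arc (nat_lit 71) n4967 (.fin (nat_lit 557772953) (nat_lit 0)))))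
def n4987 : Nd := .arc (nat_lit 9) n4986 (.fin (nat_lit 158232731) (nat_lit 0))
def n4988 : Nd := .arc (nat_lit 6) n4972 (.fin (nat_lit 557756569) (nat_lit 0))
def n4989 : Nd := .arc (nat_lit 3) n4987 (.arc (nat_lit 6) n4988 (.fin (nat_lit 91656349) (nat_lit 0)))
def n4990 : Nd := .arc (nat_lit 6) n4986 (.fin (nat_lit 91664541) (nat_lit 0))
def n4991 : Nd := .arc (nat_lit 9) n4974 (.arc (nat_lit 64) n4944 (.arc (nat_lit 67) n4951 (.arc (nat_lit 70) n4948 (.fin (nat_lit 557740185) (nat_lit 0)))))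
def n4992 : Nd := .arc (nat_lit 3) n4990 (.arc (nat_lit 9) n4991 (.fin (nat_lit 158224539) (nat_lit 0)))
def n4993 : Nd := .arc (nat_lit 3) n4985 (.arc (nat_lit 6) n4989 (.arc (nat_lit 9) n4992 (.fin (nat_lit 291377303) (nat_lit 0))))
def n4994 : Nd := .arc (nat_lit 3) n4986 (.fin (nat_lit 291426455) (nat_lit 0))
def n4995 : Nd := .arc (nat_lit 3) n4977 (.fin (nat_lit 557764761) (nat_lit 0))
def n4996 : Nd := .arc (nat_lit 6) n4994 (.arc (nat_lit 9) n4995 (.fin (nat_lit 158216347) (nat_lit 0)))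
def n4997 : Nd := .arc (nat_lit 3) n4982 (.arc (nat_lit 6) n4981 (.fin (nat_lit 557748377) (nat_lit 0)))
def n4998 : Nd := .arc (nat_lit 3) n4988 (.arc (nat_lit 9) n4987 (.fin (nat_lit 291393687) (nat_lit 0)))
def n4999 : Nd := .arc (nat_lit 3) n4996 (.arc (nat_lit 6) n4997 (.arc (nat_lit 9) n4998 (.fin (nat_lit 91623581) (nat_lit 0))))
def n5000 : Nd := .arc (nat_lit 6) n4995 (.arc (nat_lit 9) n4994 (.fin (nat_lit 91631773) (nat_lit 0)))
def n5001 : Nd := .arc (nat_lit 3) n4991 (.arc (nat_lit 6) n4990 (.fin (nat_lit 291410071) (nat_lit 0)))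
def n5002 : Nd := .arc (nat_lit 3) n4979 (.arc (nat_lit 9) n4978 (.fin (nat_lit 557731993) (nat_lit 0)))
def n5003 : Nd := .arc (nat_lit 3) n5000 (.arc (nat_lit 6) n5001 (.arc (nat_lit 9) n5002 (.fin (nat_lit 158208155) (nat_lit 0))))
def n5004 : Nd := .arc (nat_lit 50) n4519 (.arc (nat_lit 53) n4523 (.arc (nat_lit 56) n4504 (.arc (nat_lit 59) n4513 (.fin (nat_lit 291434649) (nat_lit 0)))))
def n5005 : Nd := .arc (nat_lit 3) n5004 (.fin (nat_lit 557764759) (nat_lit 0))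
def n5006 : Nd := .arc (nat_lit 62) n4519 (.arc (nat_lit 65) n4523 (.arc (nat_lit 68) n4513 (.arc (nat_lit 71) n4504 (.fin (nat_lit 557772951) (nat_lit 0)))))
def n5007 : Nd := .arc (nat_lit 3) n5006 (.fin (nat_lit 291426457) (nat_lit 0))
def n5008 : Nd := .arc (nat_lit 6) n5005 (.arc (nat_lit 9) n5007 (.fin (nat_lit 91631771) (nat_lit 0)))
def n5009 : Nd := .arc (nat_lit 26) n4519 (.arc (nat_lit 29) n4523 (.arc (nat_lit 32) n4513 (.arc (nat_lit 35) n4504 (.fin (nat_lit 91680923) (nat_lit 0)))))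
def n5010 : Nd := .arc (nat_lit 9) n5009 (.arc (nat_lit 64) n4516 (.arc (nat_lit 67) n4518 (.arc (nat_lit 70) n4517 (.fin (nat_lit 557740183) (nat_lit 0)))))
def n5011 : Nd := .arc (nat_lit 6) n5006 (.fin (nat_lit 91664539) (nat_lit 0))
def n5012 : Nd := .arc (nat_lit 3) n5010 (.arc (nat_lit 6) n5011 (.fin (nat_lit 291410073) (nat_lit 0)))
def n5013 : Nd := .arc (nat_lit 6) n5009 (.arc (nat_lit 52) n4516 (.arc (nat_lit 55) n4517 (.arc (nat_lit 58) n4518 (.fin (nat_lit 291418265) (nat_lit 0)))))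
def n5014 : Nd := .arc (nat_lit 9) n5004 (.fin (nat_lit 91648155) (nat_lit 0))
def n5015 : Nd := .arc (nat_lit 3) n5013 (.arc (nat_lit 9) n5014 (.fin (nat_lit 557731991) (nat_lit 0)))
def n5016 : Nd := .arc (nat_lit 3) n5008 (.arc (nat_lit 6) n5012 (.arc (nat_lit 9) n5015 (.fin (nat_lit 158208157) (nat_lit 0))))
def n5017 : Nd := .arc (nat_lit 6) n5007 (.arc (nat_lit 9) n5005 (.fin (nat_lit 158216349) (nat_lit 0)))
def n5018 : Nd := .arc (nat_lit 38) n4519 (.arc (nat_lit 41) n4523 (.arc (nat_lit 44) n4504 (.arc (nat_lit 47) n4513 (.fin (nat_lit 158265501) (nat_lit 0)))))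
def n5019 : Nd := .arc (nat_lit 9) n5018 (.fin (nat_lit 291401881) (nat_lit 0))
def n5020 : Nd := .arc (nat_lit 6) n5004 (.fin (nat_lit 158249117) (nat_lit 0))
def n5021 : Nd := .arc (nat_lit 3) n5019 (.arc (nat_lit 6) n5020 (.fin (nat_lit 557748375) (nat_lit 0)))
def n5022 : Nd := .arc (nat_lit 6) n5018 (.fin (nat_lit 557756567) (nat_lit 0))
def n5023 : Nd := .arc (nat_lit 9) n5006 (.fin (nat_lit 158232733) (nat_lit 0))
def n5024 : Nd := .arc (nat_lit 3) n5022 (.arc (nat_lit 9) n5023 (.fin (nat_lit 291393689) (nat_lit 0)))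
def n5025 : Nd := .arc (nat_lit 3) n5017 (.arc (nat_lit 6) n5021 (.arc (nat_lit 9) n5024 (.fin (nat_lit 91623579) (nat_lit 0))))
def n5026 : Nd := .arc (nat_lit 3) n5009 (.arc (nat_lit 40) n4516 (.arc (nat_lit 43) n4517 (.arc (nat_lit 46) n4518 (.fin (nat_lit 158257309) (nat_lit 0)))))
def n5027 : Nd := .arc (nat_lit 3) n5018 (.fin (nat_lit 91672731) (nat_lit 0))
def n5028 : Nd := .arc (nat_lit 6) n5026 (.arc (nat_lit 9) n5027 (.fin (nat_lit 557723799) (nat_lit 0)))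
def n5029 : Nd := .arc (nat_lit 3) n5023 (.arc (nat_lit 6) n5022 (.fin (nat_lit 91656347) (nat_lit 0)))
def n5030 : Nd := .arc (nat_lit 3) n5011 (.arc (nat_lit 9) n5010 (.fin (nat_lit 158224541) (nat_lit 0)))
def n5031 : Nd := .arc (nat_lit 3) n5028 (.arc (nat_lit 6) n5029 (.arc (nat_lit 9) n5030 (.fin (nat_lit 291377305) (nat_lit 0))))
def n5032 : Nd := .arc (nat_lit 6) n5027 (.arc (nat_lit 9) n5026 (.fin (nat_lit 291385497) (nat_lit 0)))
def n5033 : Nd := .arc (nat_lit 3) n5014 (.arc (nat_lit 6) n5013 (.fin (nat_lit 158240925) (nat_lit 0)))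
def n5034 : Nd := .arc (nat_lit 3) n5020 (.arc (nat_lit 9) n5019 (.fin (nat_lit 91639963) (nat_lit 0)))
def n5035 : Nd := .arc (nat_lit 3) n5032 (.arc (nat_lit 6) n5033 (.arc (nat_lit 9) n5034 (.fin (nat_lit 557715607) (nat_lit 0))))
def n5036 : Nd := .arc (nat_lit 14) n4984 (.arc (nat_lit 17) n4993 (.arc (nat_lit 20) n4999 (.arc (nat_lit 23) n5003 (.arc (nat_lit 50) n5016 (.arc (nat_lit 53) n5025 (.arc (nat_lit 56) n5031 (.arc (nat_lit 59) n5035 (.fin (nat_lit 307949721) (nat_lit 0)))))))))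
def n5037 : Nd := .arc (nat_lit 3) n5036 (.fin (nat_lit 574279831) (nat_lit 0))
def n5038 : Nd := .arc (nat_lit 14) n4993 (.arc (nat_lit 17) n4984 (.arc (nat_lit 20) n5003 (.arc (nat_lit 23) n4999 (.arc (nat_lit 62) n5016 (.arc (nat_lit 65) n5025 (.arc (nat_lit 68) n5035 (.arc (nat_lit 71) n5031 (.fin (nat_lit 574288023) (nat_lit 0)))))))))
def n5039 : Nd := .arc (nat_lit 3) n5038 (.fin (nat_lit 307941529) (nat_lit 0))
def n5040 : Nd := .arc (nat_lit 6) n5037 (.arc (nat_lit 9) n5039 (.fin (nat_lit 108146843) (nat_lit 0)))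
def n5041 : Nd := .arc (nat_lit 14) n4999 (.arc (nat_lit 17) n5003 (.arc (nat_lit 20) n4993 (.arc (nat_lit 23) n4984 (.arc (nat_lit 26) n5016 (.arc (nat_lit 29) n5025 (.arc (nat_lit 32) n5035 (.arc (nat_lit 35) n5031 (.fin (nat_lit 108195995) (nat_lit 0)))))))))
def n5042 : Nd := .arc (nat_lit 9) n5041 (.arc (nat_lit 64) n5008 (.arc (nat_lit 67) n5015 (.arc (nat_lit 70) n5012 (.fin (nat_lit 574255255) (nat_lit 0)))))
def n5043 : Nd := .arc (nat_lit 6) n5038 (.fin (nat_lit 108179611) (nat_lit 0))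
def n5044 : Nd := .arc (nat_lit 3) n5042 (.arc (nat_lit 6) n5043 (.fin (nat_lit 307925145) (nat_lit 0)))
def n5045 : Nd := .arc (nat_lit 6) n5041 (.arc (nat_lit 52) n5008 (.arc (nat_lit 55) n5012 (.arc (nat_lit 58) n5015 (.fin (nat_lit 307933337) (nat_lit 0)))))
def n5046 : Nd := .arc (nat_lit 9) n5036 (.fin (nat_lit 108163227) (nat_lit 0))
def n5047 : Nd := .arc (nat_lit 3) n5045 (.arc (nat_lit 9) n5046 (.fin (nat_lit 574247063) (nat_lit 0)))
def n5048 : Nd := .arc (nat_lit 3) n5040 (.arc (nat_lit 6) n5044 (.arc (nat_lit 9) n5047 (.fin (nat_lit 174723229) (nat_lit 0))))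
def n5049 : Nd := .arc (nat_lit 6) n5039 (.arc (nat_lit 9) n5037 (.fin (nat_lit 174731421) (nat_lit 0)))
def n5050 : Nd := .arc (nat_lit 14) n5003 (.arc (nat_lit 17) n4999 (.arc (nat_lit 20) n4984 (.arc (nat_lit 23) n4993 (.arc (nat_lit 38) n5016 (.arc (nat_lit 41) n5025 (.arc (nat_lit 44) n5031 (.arc (nat_lit 47) n5035 (.fin (nat_lit 174780573) (nat_lit 0)))))))))
def n5051 : Nd := .arc (nat_lit 9) n5050 (.fin (nat_lit 307916953) (nat_lit 0))
def n5052 : Nd := .arc (nat_lit 6) n5036 (.fin (nat_lit 174764189) (nat_lit 0))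
def n5053 : Nd := .arc (nat_lit 3) n5051 (.arc (nat_lit 6) n5052 (.fin (nat_lit 574263447) (nat_lit 0)))
def n5054 : Nd := .arc (nat_lit 6) n5050 (.fin (nat_lit 574271639) (nat_lit 0))
def n5055 : Nd := .arc (nat_lit 9) n5038 (.fin (nat_lit 174747805) (nat_lit 0))
def n5056 : Nd := .arc (nat_lit 3) n5054 (.arc (nat_lit 9) n5055 (.fin (nat_lit 307908761) (nat_lit 0)))
def n5057 : Nd := .arc (nat_lit 3) n5049 (.arc (nat_lit 6) n5053 (.arc (nat_lit 9) n5056 (.fin (nat_lit 108138651) (nat_lit 0))))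
def n5058 : Nd := .arc (nat_lit 3) n5050 (.fin (nat_lit 108187803) (nat_lit 0))
def n5059 : Nd := .arc (nat_lit 3) n5041 (.arc (nat_lit 40) n5008 (.arc (nat_lit 43) n5012 (.arc (nat_lit 46) n5015 (.fin (nat_lit 174772381) (nat_lit 0)))))
def n5060 : Nd := .arc (nat_lit 6) n5058 (.arc (nat_lit 9) n5059 (.fin (nat_lit 307900569) (nat_lit 0)))
def n5061 : Nd := .arc (nat_lit 3) n5046 (.arc (nat_lit 6) n5045 (.fin (nat_lit 174755997) (nat_lit 0)))
def n5062 : Nd := .arc (nat_lit 3) n5052 (.arc (nat_lit 9) n5051 (.fin (nat_lit 108155035) (nat_lit 0)))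
def n5063 : Nd := .arc (nat_lit 3) n5060 (.arc (nat_lit 6) n5061 (.arc (nat_lit 9) n5062 (.fin (nat_lit 574230679) (nat_lit 0))))
def n5064 : Nd := .arc (nat_lit 6) n5059 (.arc (nat_lit 9) n5058 (.fin (nat_lit 574238871) (nat_lit 0)))
def n5065 : Nd := .arc (nat_lit 3) n5055 (.arc (nat_lit 6) n5054 (.fin (nat_lit 108171419) (nat_lit 0)))
def n5066 : Nd := .arc (nat_lit 3) n5043 (.arc (nat_lit 9) n5042 (.fin (nat_lit 174739613) (nat_lit 0)))
def n5067 : Nd := .arc (nat_lit 3) n5064 (.arc (nat_lit 6) n5065 (.arc (nat_lit 9) n5066 (.fin (nat_lit 307892377) (nat_lit 0))))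
def n5068 : Nd := .arc (nat_lit 38) n4961 (.arc (nat_lit 41) n4952 (.arc (nat_lit 44) n4971 (.arc (nat_lit 47) n4967 (.fin (nat_lit 175042717) (nat_lit 0)))))
def n5069 : Nd := .arc (nat_lit 3) n5068 (.fin (nat_lit 108449947) (nat_lit 0))
def n5070 : Nd := .arc (nat_lit 26) n4961 (.arc (nat_lit 29) n4952 (.arc (nat_lit 32) n4967 (.arc (nat_lit 35) n4971 (.fin (nat_lit 108458139) (nat_lit 0)))))
def n5071 : Nd := .arc (nat_lit 3) n5070 (.arc (nat_lit 40) n4953 (.arc (nat_lit 43) n4957 (.arc (nat_lit 46) n4960 (.fin (nat_lit 175034525) (nat_lit 0)))))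
def n5072 : Nd := .arc (nat_lit 6) n5069 (.arc (nat_lit 9) n5071 (.fin (nat_lit 308162713) (nat_lit 0)))
def n5073 : Nd := .arc (nat_lit 50) n4961 (.arc (nat_lit 53) n4952 (.arc (nat_lit 56) n4971 (.arc (nat_lit 59) n4967 (.fin (nat_lit 308211865) (nat_lit 0)))))
def n5074 : Nd := .arc (nat_lit 9) n5073 (.fin (nat_lit 108425371) (nat_lit 0))
def n5075 : Nd := .arc (nat_lit 6) n5070 (.arc (nat_lit 52) n4953 (.arc (nat_lit 55) n4957 (.arc (nat_lit 58) n4960 (.fin (nat_lit 308195481) (nat_lit 0)))))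
def n5076 : Nd := .arc (nat_lit 3) n5074 (.arc (nat_lit 6) n5075 (.fin (nat_lit 175018141) (nat_lit 0)))
def n5077 : Nd := .arc (nat_lit 6) n5073 (.fin (nat_lit 175026333) (nat_lit 0))
def n5078 : Nd := .arc (nat_lit 9) n5068 (.fin (nat_lit 308179097) (nat_lit 0))
def n5079 : Nd := .arc (nat_lit 3) n5077 (.arc (nat_lit 9) n5078 (.fin (nat_lit 108417179) (nat_lit 0)))
def n5080 : Nd := .arc (nat_lit 3) n5072 (.arc (nat_lit 6) n5076 (.arc (nat_lit 9) n5079 (.fin (nat_lit 574492823) (nat_lit 0))))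
def n5081 : Nd := .arc (nat_lit 6) n5071 (.arc (nat_lit 9) n5069 (.fin (nat_lit 574501015) (nat_lit 0)))
def n5082 : Nd := .arc (nat_lit 62) n4961 (.arc (nat_lit 65) n4952 (.arc (nat_lit 68) n4967 (.arc (nat_lit 71) n4971 (.fin (nat_lit 574550167) (nat_lit 0)))))
def n5083 : Nd := .arc (nat_lit 9) n5082 (.fin (nat_lit 175009949) (nat_lit 0))
def n5084 : Nd := .arc (nat_lit 6) n5068 (.fin (nat_lit 574533783) (nat_lit 0))
def n5085 : Nd := .arc (nat_lit 3) n5083 (.arc (nat_lit 6) n5084 (.fin (nat_lit 108433563) (nat_lit 0)))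
def n5086 : Nd := .arc (nat_lit 6) n5082 (.fin (nat_lit 108441755) (nat_lit 0))
def n5087 : Nd := .arc (nat_lit 9) n5070 (.arc (nat_lit 64) n4953 (.arc (nat_lit 67) n4960 (.arc (nat_lit 70) n4957 (.fin (nat_lit 574517399) (nat_lit 0)))))
def n5088 : Nd := .arc (nat_lit 3) n5086 (.arc (nat_lit 9) n5087 (.fin (nat_lit 175001757) (nat_lit 0)))
def n5089 : Nd := .arc (nat_lit 3) n5081 (.arc (nat_lit 6) n5085 (.arc (nat_lit 9) n5088 (.fin (nat_lit 308154521) (nat_lit 0))))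
def n5090 : Nd := .arc (nat_lit 3) n5082 (.fin (nat_lit 308203673) (nat_lit 0))
def n5091 : Nd := .arc (nat_lit 3) n5073 (.fin (nat_lit 574541975) (nat_lit 0))
def n5092 : Nd := .arc (nat_lit 6) n5090 (.arc (nat_lit 9) n5091 (.fin (nat_lit 174993565) (nat_lit 0)))
def n5093 : Nd := .arc (nat_lit 3) n5078 (.arc (nat_lit 6) n5077 (.fin (nat_lit 574525591) (nat_lit 0)))
def n5094 : Nd := .arc (nat_lit 3) n5084 (.arc (nat_lit 9) n5083 (.fin (nat_lit 308170905) (nat_lit 0)))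
def n5095 : Nd := .arc (nat_lit 3) n5092 (.arc (nat_lit 6) n5093 (.arc (nat_lit 9) n5094 (.fin (nat_lit 108400795) (nat_lit 0))))
def n5096 : Nd := .arc (nat_lit 6) n5091 (.arc (nat_lit 9) n5090 (.fin (nat_lit 108408987) (nat_lit 0)))
def n5097 : Nd := .arc (nat_lit 3) n5087 (.arc (nat_lit 6) n5086 (.fin (nat_lit 308187289) (nat_lit 0)))
def n5098 : Nd := .arc (nat_lit 3) n5075 (.arc (nat_lit 9) n5074 (.fin (nat_lit 574509207) (nat_lit 0)))
def n5099 : Nd := .arc (nat_lit 3) n5096 (.arc (nat_lit 6) n5097 (.arc (nat_lit 9) n5098 (.fin (nat_lit 174985373) (nat_lit 0))))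
def n5100 : Nd := .arc (nat_lit 50) n4583 (.arc (nat_lit 53) n4587 (.arc (nat_lit 56) n4568 (.arc (nat_lit 59) n4577 (.fin (nat_lit 559870103) (nat_lit 0)))))
def n5101 : Nd := .arc (nat_lit 3) n5100 (.fin (nat_lit 289329305) (nat_lit 0))
def n5102 : Nd := .arc (nat_lit 62) n4583 (.arc (nat_lit 65) n4587 (.arc (nat_lit 68) n4577 (.arc (nat_lit 71) n4568 (.fin (nat_lit 289337497) (nat_lit 0)))))
def n5103 : Nd := .arc (nat_lit 3) n5102 (.fin (nat_lit 559861911) (nat_lit 0))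
def n5104 : Nd := .arc (nat_lit 6) n5101 (.arc (nat_lit 9) n5103 (.fin (nat_lit 158740637) (nat_lit 0)))
def n5105 : Nd := .arc (nat_lit 26) n4583 (.arc (nat_lit 29) n4587 (.arc (nat_lit 32) n4577 (.arc (nat_lit 35) n4568 (.fin (nat_lit 158789789) (nat_lit 0)))))
def n5106 : Nd := .arc (nat_lit 9) n5105 (.arc (nat_lit 64) n4580 (.arc (nat_lit 67) n4582 (.arc (nat_lit 70) n4581 (.fin (nat_lit 289304729) (nat_lit 0)))))
def n5107 : Nd := .arc (nat_lit 6) n5102 (.fin (nat_lit 158773405) (nat_lit 0))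
def n5108 : Nd := .arc (nat_lit 3) n5106 (.arc (nat_lit 6) n5107 (.fin (nat_lit 559845527) (nat_lit 0)))
def n5109 : Nd := .arc (nat_lit 6) n5105 (.arc (nat_lit 52) n4580 (.arc (nat_lit 55) n4581 (.arc (nat_lit 58) n4582 (.fin (nat_lit 559853719) (nat_lit 0)))))
def n5110 : Nd := .arc (nat_lit 9) n5100 (.fin (nat_lit 158757021) (nat_lit 0))
def n5111 : Nd := .arc (nat_lit 3) n5109 (.arc (nat_lit 9) n5110 (.fin (nat_lit 289296537) (nat_lit 0)))
def n5112 : Nd := .arc (nat_lit 3) n5104 (.arc (nat_lit 6) n5108 (.arc (nat_lit 9) n5111 (.fin (nat_lit 91099291) (nat_lit 0))))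
def n5113 : Nd := .arc (nat_lit 6) n5103 (.arc (nat_lit 9) n5101 (.fin (nat_lit 91107483) (nat_lit 0)))
def n5114 : Nd := .arc (nat_lit 38) n4583 (.arc (nat_lit 41) n4587 (.arc (nat_lit 44) n4568 (.arc (nat_lit 47) n4577 (.fin (nat_lit 91156635) (nat_lit 0)))))
def n5115 : Nd := .arc (nat_lit 9) n5114 (.fin (nat_lit 559837335) (nat_lit 0))
def n5116 : Nd := .arc (nat_lit 6) n5100 (.fin (nat_lit 91140251) (nat_lit 0))
def n5117 : Nd := .arc (nat_lit 3) n5115 (.arc (nat_lit 6) n5116 (.fin (nat_lit 289312921) (nat_lit 0)))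
def n5118 : Nd := .arc (nat_lit 6) n5114 (.fin (nat_lit 289321113) (nat_lit 0))
def n5119 : Nd := .arc (nat_lit 9) n5102 (.fin (nat_lit 91123867) (nat_lit 0))
def n5120 : Nd := .arc (nat_lit 3) n5118 (.arc (nat_lit 9) n5119 (.fin (nat_lit 559829143) (nat_lit 0)))
def n5121 : Nd := .arc (nat_lit 3) n5113 (.arc (nat_lit 6) n5117 (.arc (nat_lit 9) n5120 (.fin (nat_lit 158732445) (nat_lit 0))))
def n5122 : Nd := .arc (nat_lit 3) n5105 (.arc (nat_lit 40) n4580 (.arc (nat_lit 43) n4581 (.arc (nat_lit 46) n4582 (.fin (nat_lit 91148443) (nat_lit 0)))))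
def n5123 : Nd := .arc (nat_lit 3) n5114 (.fin (nat_lit 158781597) (nat_lit 0))
def n5124 : Nd := .arc (nat_lit 6) n5122 (.arc (nat_lit 9) n5123 (.fin (nat_lit 289288345) (nat_lit 0)))
def n5125 : Nd := .arc (nat_lit 3) n5119 (.arc (nat_lit 6) n5118 (.fin (nat_lit 158765213) (nat_lit 0)))
def n5126 : Nd := .arc (nat_lit 3) n5107 (.arc (nat_lit 9) n5106 (.fin (nat_lit 91115675) (nat_lit 0)))
def n5127 : Nd := .arc (nat_lit 3) n5124 (.arc (nat_lit 6) n5125 (.arc (nat_lit 9) n5126 (.fin (nat_lit 559812759) (nat_lit 0))))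
def n5128 : Nd := .arc (nat_lit 6) n5123 (.arc (nat_lit 9) n5122 (.fin (nat_lit 559820951) (nat_lit 0)))
def n5129 : Nd := .arc (nat_lit 3) n5110 (.arc (nat_lit 6) n5109 (.fin (nat_lit 91132059) (nat_lit 0)))
def n5130 : Nd := .arc (nat_lit 3) n5116 (.arc (nat_lit 9) n5115 (.fin (nat_lit 158748829) (nat_lit 0)))
def n5131 : Nd := .arc (nat_lit 3) n5128 (.arc (nat_lit 6) n5129 (.arc (nat_lit 9) n5130 (.fin (nat_lit 289280153) (nat_lit 0))))
def n5132 : Nd := .arc (nat_lit 14) n5080 (.arc (nat_lit 17) n5089 (.arc (nat_lit 20) n5095 (.arc (nat_lit 23) n5099 (.arc (nat_lit 50) n5112 (.arc (nat_lit 53) n5121 (.arc (nat_lit 56) n5127 (.arc (nat_lit 59) n5131 (.fin (nat_lit 291172503) (nat_lit 0)))))))))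
def n5133 : Nd := .arc (nat_lit 3) n5132 (.fin (nat_lit 557502617) (nat_lit 0))
def n5134 : Nd := .arc (nat_lit 14) n5089 (.arc (nat_lit 17) n5080 (.arc (nat_lit 20) n5099 (.arc (nat_lit 23) n5095 (.arc (nat_lit 62) n5112 (.arc (nat_lit 65) n5121 (.arc (nat_lit 68) n5131 (.arc (nat_lit 71) n5127 (.fin (nat_lit 557510809) (nat_lit 0)))))))))
def n5135 : Nd := .arc (nat_lit 3) n5134 (.fin (nat_lit 291164311) (nat_lit 0))
def n5136 : Nd := .arc (nat_lit 6) n5133 (.arc (nat_lit 9) n5135 (.fin (nat_lit 91369629) (nat_lit 0)))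
def n5137 : Nd := .arc (nat_lit 14) n5095 (.arc (nat_lit 17) n5099 (.arc (nat_lit 20) n5089 (.arc (nat_lit 23) n5080 (.arc (nat_lit 26) n5112 (.arc (nat_lit 29) n5121 (.arc (nat_lit 32) n5131 (.arc (nat_lit 35) n5127 (.fin (nat_lit 91418781) (nat_lit 0)))))))))
def n5138 : Nd := .arc (nat_lit 9) n5137 (.arc (nat_lit 64) n5104 (.arc (nat_lit 67) n5111 (.arc (nat_lit 70) n5108 (.fin (nat_lit 557478041) (nat_lit 0)))))
def n5139 : Nd := .arc (nat_lit 6) n5134 (.fin (nat_lit 91402397) (nat_lit 0))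
def n5140 : Nd := .arc (nat_lit 3) n5138 (.arc (nat_lit 6) n5139 (.fin (nat_lit 291147927) (nat_lit 0)))
def n5141 : Nd := .arc (nat_lit 6) n5137 (.arc (nat_lit 52) n5104 (.arc (nat_lit 55) n5108 (.arc (nat_lit 58) n5111 (.fin (nat_lit 291156119) (nat_lit 0)))))
def n5142 : Nd := .arc (nat_lit 9) n5132 (.fin (nat_lit 91386013) (nat_lit 0))
def n5143 : Nd := .arc (nat_lit 3) n5141 (.arc (nat_lit 9) n5142 (.fin (nat_lit 557469849) (nat_lit 0)))
def n5144 : Nd := .arc (nat_lit 3) n5136 (.arc (nat_lit 6) n5140 (.arc (nat_lit 9) n5143 (.fin (nat_lit 157946011) (nat_lit 0))))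
def n5145 : Nd := .arc (nat_lit 6) n5135 (.arc (nat_lit 9) n5133 (.fin (nat_lit 157954203) (nat_lit 0)))
def n5146 : Nd := .arc (nat_lit 14) n5099 (.arc (nat_lit 17) n5095 (.arc (nat_lit 20) n5080 (.arc (nat_lit 23) n5089 (.arc (nat_lit 38) n5112 (.arc (nat_lit 41) n5121 (.arc (nat_lit 44) n5127 (.arc (nat_lit 47) n5131 (.fin (nat_lit 158003355) (nat_lit 0)))))))))
def n5147 : Nd := .arc (nat_lit 9) n5146 (.fin (nat_lit 291139735) (nat_lit 0))
def n5148 : Nd := .arc (nat_lit 6) n5132 (.fin (nat_lit 157986971) (nat_lit 0))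
def n5149 : Nd := .arc (nat_lit 3) n5147 (.arc (nat_lit 6) n5148 (.fin (nat_lit 557486233) (nat_lit 0)))
def n5150 : Nd := .arc (nat_lit 6) n5146 (.fin (nat_lit 557494425) (nat_lit 0))
def n5151 : Nd := .arc (nat_lit 9) n5134 (.fin (nat_lit 157970587) (nat_lit 0))
def n5152 : Nd := .arc (nat_lit 3) n5150 (.arc (nat_lit 9) n5151 (.fin (nat_lit 291131543) (nat_lit 0)))
def n5153 : Nd := .arc (nat_lit 3) n5145 (.arc (nat_lit 6) n5149 (.arc (nat_lit 9) n5152 (.fin (nat_lit 91361437) (nat_lit 0))))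
def n5154 : Nd := .arc (nat_lit 3) n5137 (.arc (nat_lit 40) n5104 (.arc (nat_lit 43) n5108 (.arc (nat_lit 46) n5111 (.fin (nat_lit 157995163) (nat_lit 0)))))
def n5155 : Nd := .arc (nat_lit 3) n5146 (.fin (nat_lit 91410589) (nat_lit 0))
def n5156 : Nd := .arc (nat_lit 6) n5154 (.arc (nat_lit 9) n5155 (.fin (nat_lit 557461657) (nat_lit 0)))
def n5157 : Nd := .arc (nat_lit 3) n5151 (.arc (nat_lit 6) n5150 (.fin (nat_lit 91394205) (nat_lit 0)))
def n5158 : Nd := .arc (nat_lit 3) n5139 (.arc (nat_lit 9) n5138 (.fin (nat_lit 157962395) (nat_lit 0)))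
def n5159 : Nd := .arc (nat_lit 3) n5156 (.arc (nat_lit 6) n5157 (.arc (nat_lit 9) n5158 (.fin (nat_lit 291115159) (nat_lit 0))))
def n5160 : Nd := .arc (nat_lit 6) n5155 (.arc (nat_lit 9) n5154 (.fin (nat_lit 291123351) (nat_lit 0)))
def n5161 : Nd := .arc (nat_lit 3) n5142 (.arc (nat_lit 6) n5141 (.fin (nat_lit 157978779) (nat_lit 0)))
def n5162 : Nd := .arc (nat_lit 3) n5148 (.arc (nat_lit 9) n5147 (.fin (nat_lit 91377821) (nat_lit 0)))
def n5163 : Nd := .arc (nat_lit 3) n5160 (.arc (nat_lit 6) n5161 (.arc (nat_lit 9) n5162 (.fin (nat_lit 557453465) (nat_lit 0))))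
def n5164 : Nd := .arc (nat_lit 14) n4920 (.arc (nat_lit 17) n4929 (.arc (nat_lit 20) n4935 (.arc (nat_lit 23) n4939 (.arc (nat_lit 26) n5048 (.arc (nat_lit 29) n5057 (.arc (nat_lit 32) n5063 (.arc (nat_lit 35) n5067 (.arc (nat_lit 38) n5144 (.arc (nat_lit 41) n5153 (.arc (nat_lit 44) n5159 (.arc (nat_lit 47) n5163 (.fin (nat_lit 174256283) (nat_lit 0)))))))))))))
def n5165 : Nd := .arc (nat_lit 3) n5164 (.arc (nat_lit 40) n5040 (.arc (nat_lit 43) n5044 (.arc (nat_lit 46) n5047 (.fin (nat_lit 107139229) (nat_lit 0)))))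
def n5166 : Nd := .arc (nat_lit 14) n4929 (.arc (nat_lit 17) n4920 (.arc (nat_lit 20) n4939 (.arc (nat_lit 23) n4935 (.arc (nat_lit 26) n5144 (.arc (nat_lit 29) n5153 (.arc (nat_lit 32) n5163 (.arc (nat_lit 35) n5159 (.arc (nat_lit 38) n5048 (.arc (nat_lit 41) n5057 (.arc (nat_lit 44) n5067 (.arc (nat_lit 47) n5063 (.fin (nat_lit 107147421) (nat_lit 0)))))))))))))
def n5167 : Nd := .arc (nat_lit 3) n5166 (.arc (nat_lit 40) n5136 (.arc (nat_lit 43) n5140 (.arc (nat_lit 46) n5143 (.fin (nat_lit 174248091) (nat_lit 0)))))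
def n5168 : Nd := .arc (nat_lit 6) n5165 (.arc (nat_lit 9) n5167 (.fin (nat_lit 303706263) (nat_lit 0)))
def n5169 : Nd := .arc (nat_lit 14) n4935 (.arc (nat_lit 17) n4939 (.arc (nat_lit 20) n4929 (.arc (nat_lit 23) n4920 (.arc (nat_lit 50) n5144 (.arc (nat_lit 53) n5153 (.arc (nat_lit 56) n5159 (.arc (nat_lit 59) n5163 (.arc (nat_lit 62) n5048 (.arc (nat_lit 65) n5057 (.arc (nat_lit 68) n5063 (.arc (nat_lit 71) n5067 (.fin (nat_lit 303755415) (nat_lit 0)))))))))))))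
def n5170 : Nd := .arc (nat_lit 9) n5169 (.fin (nat_lit 107114653) (nat_lit 0))
def n5171 : Nd := .arc (nat_lit 6) n5166 (.arc (nat_lit 52) n5136 (.arc (nat_lit 55) n5140 (.arc (nat_lit 58) n5143 (.fin (nat_lit 303739031) (nat_lit 0)))))
def n5172 : Nd := .arc (nat_lit 3) n5170 (.arc (nat_lit 6) n5171 (.fin (nat_lit 174231707) (nat_lit 0)))
def n5173 : Nd := .arc (nat_lit 6) n5169 (.fin (nat_lit 174239899) (nat_lit 0))
def n5174 : Nd := .arc (nat_lit 9) n5164 (.arc (nat_lit 64) n5040 (.arc (nat_lit 67) n5047 (.arc (nat_lit 70) n5044 (.fin (nat_lit 303722647) (nat_lit 0)))))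
def n5175 : Nd := .arc (nat_lit 3) n5173 (.arc (nat_lit 9) n5174 (.fin (nat_lit 107106461) (nat_lit 0)))
def n5176 : Nd := .arc (nat_lit 3) n5168 (.arc (nat_lit 6) n5172 (.arc (nat_lit 9) n5175 (.fin (nat_lit 572133529) (nat_lit 0))))
def n5177 : Nd := .arc (nat_lit 6) n5167 (.arc (nat_lit 9) n5165 (.fin (nat_lit 572141721) (nat_lit 0)))
def n5178 : Nd := .arc (nat_lit 14) n4939 (.arc (nat_lit 17) n4935 (.arc (nat_lit 20) n4920 (.arc (nat_lit 23) n4929 (.arc (nat_lit 50) n5048 (.arc (nat_lit 53) n5057 (.arc (nat_lit 56) n5067 (.arc (nat_lit 59) n5063 (.arc (nat_lit 62) n5144 (.arc (nat_lit 65) n5153 (.arc (nat_lit 68) n5163 (.arc (nat_lit 71) n5159 (.fin (nat_lit 572190873) (nat_lit 0)))))))))))))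
def n5179 : Nd := .arc (nat_lit 9) n5178 (.fin (nat_lit 174223515) (nat_lit 0))
def n5180 : Nd := .arc (nat_lit 6) n5164 (.arc (nat_lit 52) n5040 (.arc (nat_lit 55) n5044 (.arc (nat_lit 58) n5047 (.fin (nat_lit 572174489) (nat_lit 0)))))
def n5181 : Nd := .arc (nat_lit 3) n5179 (.arc (nat_lit 6) n5180 (.fin (nat_lit 107122845) (nat_lit 0)))
def n5182 : Nd := .arc (nat_lit 6) n5178 (.fin (nat_lit 107131037) (nat_lit 0))
def n5183 : Nd := .arc (nat_lit 9) n5166 (.arc (nat_lit 64) n5136 (.arc (nat_lit 67) n5143 (.arc (nat_lit 70) n5140 (.fin (nat_lit 572158105) (nat_lit 0)))))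
def n5184 : Nd := .arc (nat_lit 3) n5182 (.arc (nat_lit 9) n5183 (.fin (nat_lit 174215323) (nat_lit 0)))
def n5185 : Nd := .arc (nat_lit 3) n5177 (.arc (nat_lit 6) n5181 (.arc (nat_lit 9) n5184 (.fin (nat_lit 303698071) (nat_lit 0))))
def n5186 : Nd := .arc (nat_lit 3) n5169 (.fin (nat_lit 572182681) (nat_lit 0))
def n5187 : Nd := .arc (nat_lit 3) n5178 (.fin (nat_lit 303747223) (nat_lit 0))
def n5188 : Nd := .arc (nat_lit 6) n5186 (.arc (nat_lit 9) n5187 (.fin (nat_lit 107098269) (nat_lit 0)))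
def n5189 : Nd := .arc (nat_lit 3) n5183 (.arc (nat_lit 6) n5182 (.fin (nat_lit 303730839) (nat_lit 0)))
def n5190 : Nd := .arc (nat_lit 3) n5171 (.arc (nat_lit 9) n5170 (.fin (nat_lit 572149913) (nat_lit 0)))
def n5191 : Nd := .arc (nat_lit 3) n5188 (.arc (nat_lit 6) n5189 (.arc (nat_lit 9) n5190 (.fin (nat_lit 174198939) (nat_lit 0))))
def n5192 : Nd := .arc (nat_lit 6) n5187 (.arc (nat_lit 9) n5186 (.fin (nat_lit 174207131) (nat_lit 0)))
def n5193 : Nd := .arc (nat_lit 3) n5174 (.arc (nat_lit 6) n5173 (.fin (nat_lit 572166297) (nat_lit 0)))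
def n5194 : Nd := .arc (nat_lit 3) n5180 (.arc (nat_lit 9) n5179 (.fin (nat_lit 303714455) (nat_lit 0)))
def n5195 : Nd := .arc (nat_lit 3) n5192 (.arc (nat_lit 6) n5193 (.arc (nat_lit 9) n5194 (.fin (nat_lit 107090077) (nat_lit 0))))
def n5196 : Nd := .arc (nat_lit 14) n4971 (.arc (nat_lit 17) n4967 (.arc (nat_lit 20) n4961 (.arc (nat_lit 23) n4952 (.fin (nat_lit 578482329) (nat_lit 0)))))
def n5197 : Nd := .arc (nat_lit 3) n5196 (.fin (nat_lit 310038679) (nat_lit 0))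
def n5198 : Nd := .arc (nat_lit 14) n4967 (.arc (nat_lit 17) n4971 (.arc (nat_lit 20) n4952 (.arc (nat_lit 23) n4961 (.fin (nat_lit 310046871) (nat_lit 0)))))
def n5199 : Nd := .arc (nat_lit 3) n5198 (.fin (nat_lit 578474137) (nat_lit 0))
def n5200 : Nd := .arc (nat_lit 6) n5197 (.arc (nat_lit 9) n5199 (.fin (nat_lit 175779995) (nat_lit 0)))
def n5201 : Nd := .arc (nat_lit 14) n4961 (.arc (nat_lit 17) n4952 (.arc (nat_lit 20) n4967 (.arc (nat_lit 23) n4971 (.fin (nat_lit 175829147) (nat_lit 0)))))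
def n5202 : Nd := .arc (nat_lit 9) n5201 (.fin (nat_lit 310014103) (nat_lit 0))
def n5203 : Nd := .arc (nat_lit 6) n5198 (.fin (nat_lit 175812763) (nat_lit 0))
def n5204 : Nd := .arc (nat_lit 3) n5202 (.arc (nat_lit 6) n5203 (.fin (nat_lit 578457753) (nat_lit 0)))
def n5205 : Nd := .arc (nat_lit 6) n5201 (.fin (nat_lit 578465945) (nat_lit 0))
def n5206 : Nd := .arc (nat_lit 9) n5196 (.fin (nat_lit 175796379) (nat_lit 0))
def n5207 : Nd := .arc (nat_lit 3) n5205 (.arc (nat_lit 9) n5206 (.fin (nat_lit 310005911) (nat_lit 0)))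
def n5208 : Nd := .arc (nat_lit 3) n5200 (.arc (nat_lit 6) n5204 (.arc (nat_lit 9) n5207 (.fin (nat_lit 108662941) (nat_lit 0))))
def n5209 : Nd := .arc (nat_lit 6) n5199 (.arc (nat_lit 9) n5197 (.fin (nat_lit 108671133) (nat_lit 0)))
def n5210 : Nd := .arc (nat_lit 14) n4952 (.arc (nat_lit 17) n4961 (.arc (nat_lit 20) n4971 (.arc (nat_lit 23) n4967 (.fin (nat_lit 108720285) (nat_lit 0)))))
def n5211 : Nd := .arc (nat_lit 9) n5210 (.fin (nat_lit 578449561) (nat_lit 0))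
def n5212 : Nd := .arc (nat_lit 6) n5196 (.fin (nat_lit 108703901) (nat_lit 0))
def n5213 : Nd := .arc (nat_lit 3) n5211 (.arc (nat_lit 6) n5212 (.fin (nat_lit 310022295) (nat_lit 0)))
def n5214 : Nd := .arc (nat_lit 6) n5210 (.fin (nat_lit 310030487) (nat_lit 0))
def n5215 : Nd := .arc (nat_lit 9) n5198 (.fin (nat_lit 108687517) (nat_lit 0))
def n5216 : Nd := .arc (nat_lit 3) n5214 (.arc (nat_lit 9) n5215 (.fin (nat_lit 578441369) (nat_lit 0)))
def n5217 : Nd := .arc (nat_lit 3) n5209 (.arc (nat_lit 6) n5213 (.arc (nat_lit 9) n5216 (.fin (nat_lit 175771803) (nat_lit 0))))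
def n5218 : Nd := .arc (nat_lit 3) n5201 (.fin (nat_lit 108712093) (nat_lit 0))
def n5219 : Nd := .arc (nat_lit 3) n5210 (.fin (nat_lit 175820955) (nat_lit 0))
def n5220 : Nd := .arc (nat_lit 6) n5218 (.arc (nat_lit 9) n5219 (.fin (nat_lit 309997719) (nat_lit 0)))
def n5221 : Nd := .arc (nat_lit 3) n5215 (.arc (nat_lit 6) n5214 (.fin (nat_lit 175804571) (nat_lit 0)))
def n5222 : Nd := .arc (nat_lit 3) n5203 (.arc (nat_lit 9) n5202 (.fin (nat_lit 108679325) (nat_lit 0)))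
def n5223 : Nd := .arc (nat_lit 3) n5220 (.arc (nat_lit 6) n5221 (.arc (nat_lit 9) n5222 (.fin (nat_lit 578424985) (nat_lit 0))))
def n5224 : Nd := .arc (nat_lit 6) n5219 (.arc (nat_lit 9) n5218 (.fin (nat_lit 578433177) (nat_lit 0)))
def n5225 : Nd := .arc (nat_lit 3) n5206 (.arc (nat_lit 6) n5205 (.fin (nat_lit 108695709) (nat_lit 0)))
def n5226 : Nd := .arc (nat_lit 3) n5212 (.arc (nat_lit 9) n5211 (.fin (nat_lit 175788187) (nat_lit 0)))
def n5227 : Nd := .arc (nat_lit 3) n5224 (.arc (nat_lit 6) n5225 (.arc (nat_lit 9) n5226 (.fin (nat_lit 309989527) (nat_lit 0))))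
def n5228 : Nd := .arc (nat_lit 14) n4679 (.arc (nat_lit 17) n4683 (.arc (nat_lit 20) n4664 (.arc (nat_lit 23) n4673 (.fin (nat_lit 561705111) (nat_lit 0)))))
def n5229 : Nd := .arc (nat_lit 3) n5228 (.fin (nat_lit 293261465) (nat_lit 0))
def n5230 : Nd := .arc (nat_lit 14) n4683 (.arc (nat_lit 17) n4679 (.arc (nat_lit 20) n4673 (.arc (nat_lit 23) n4664 (.fin (nat_lit 293269657) (nat_lit 0)))))
def n5231 : Nd := .arc (nat_lit 3) n5230 (.fin (nat_lit 561696919) (nat_lit 0))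
def n5232 : Nd := .arc (nat_lit 6) n5229 (.arc (nat_lit 9) n5231 (.fin (nat_lit 159002781) (nat_lit 0)))
def n5233 : Nd := .arc (nat_lit 14) n4664 (.arc (nat_lit 17) n4673 (.arc (nat_lit 20) n4683 (.arc (nat_lit 23) n4679 (.fin (nat_lit 159051933) (nat_lit 0)))))
def n5234 : Nd := .arc (nat_lit 9) n5233 (.fin (nat_lit 293236889) (nat_lit 0))
def n5235 : Nd := .arc (nat_lit 6) n5230 (.fin (nat_lit 159035549) (nat_lit 0))
def n5236 : Nd := .arc (nat_lit 3) n5234 (.arc (nat_lit 6) n5235 (.fin (nat_lit 561680535) (nat_lit 0)))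
def n5237 : Nd := .arc (nat_lit 6) n5233 (.fin (nat_lit 561688727) (nat_lit 0))
def n5238 : Nd := .arc (nat_lit 9) n5228 (.fin (nat_lit 159019165) (nat_lit 0))
def n5239 : Nd := .arc (nat_lit 3) n5237 (.arc (nat_lit 9) n5238 (.fin (nat_lit 293228697) (nat_lit 0)))
def n5240 : Nd := .arc (nat_lit 3) n5232 (.arc (nat_lit 6) n5236 (.arc (nat_lit 9) n5239 (.fin (nat_lit 91885723) (nat_lit 0))))
def n5241 : Nd := .arc (nat_lit 6) n5231 (.arc (nat_lit 9) n5229 (.fin (nat_lit 91893915) (nat_lit 0)))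
def n5242 : Nd := .arc (nat_lit 14) n4673 (.arc (nat_lit 17) n4664 (.arc (nat_lit 20) n4679 (.arc (nat_lit 23) n4683 (.fin (nat_lit 91943067) (nat_lit 0)))))
def n5243 : Nd := .arc (nat_lit 9) n5242 (.fin (nat_lit 561672343) (nat_lit 0))
def n5244 : Nd := .arc (nat_lit 6) n5228 (.fin (nat_lit 91926683) (nat_lit 0))
def n5245 : Nd := .arc (nat_lit 3) n5243 (.arc (nat_lit 6) n5244 (.fin (nat_lit 293245081) (nat_lit 0)))
def n5246 : Nd := .arc (nat_lit 6) n5242 (.fin (nat_lit 293253273) (nat_lit 0))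
def n5247 : Nd := .arc (nat_lit 9) n5230 (.fin (nat_lit 91910299) (nat_lit 0))
def n5248 : Nd := .arc (nat_lit 3) n5246 (.arc (nat_lit 9) n5247 (.fin (nat_lit 561664151) (nat_lit 0)))
def n5249 : Nd := .arc (nat_lit 3) n5241 (.arc (nat_lit 6) n5245 (.arc (nat_lit 9) n5248 (.fin (nat_lit 158994589) (nat_lit 0))))
def n5250 : Nd := .arc (nat_lit 3) n5242 (.fin (nat_lit 159043741) (nat_lit 0))
def n5251 : Nd := .arc (nat_lit 3) n5233 (.fin (nat_lit 91934875) (nat_lit 0))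
def n5252 : Nd := .arc (nat_lit 6) n5250 (.arc (nat_lit 9) n5251 (.fin (nat_lit 561655959) (nat_lit 0)))
def n5253 : Nd := .arc (nat_lit 3) n5238 (.arc (nat_lit 6) n5237 (.fin (nat_lit 91918491) (nat_lit 0)))
def n5254 : Nd := .arc (nat_lit 3) n5244 (.arc (nat_lit 9) n5243 (.fin (nat_lit 159010973) (nat_lit 0)))
def n5255 : Nd := .arc (nat_lit 3) n5252 (.arc (nat_lit 6) n5253 (.arc (nat_lit 9) n5254 (.fin (nat_lit 293212313) (nat_lit 0))))
def n5256 : Nd := .arc (nat_lit 6) n5251 (.arc (nat_lit 9) n5250 (.fin (nat_lit 293220505) (nat_lit 0)))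
def n5257 : Nd := .arc (nat_lit 3) n5247 (.arc (nat_lit 6) n5246 (.fin (nat_lit 159027357) (nat_lit 0)))
def n5258 : Nd := .arc (nat_lit 3) n5235 (.arc (nat_lit 9) n5234 (.fin (nat_lit 91902107) (nat_lit 0)))
def n5259 : Nd := .arc (nat_lit 3) n5256 (.arc (nat_lit 6) n5257 (.arc (nat_lit 9) n5258 (.fin (nat_lit 561647767) (nat_lit 0))))
def n5260 : Nd := .arc (nat_lit 50) n5208 (.arc (nat_lit 53) n5217 (.arc (nat_lit 56) n5223 (.arc (nat_lit 59) n5227 (.arc (nat_lit 62) n5240 (.arc (nat_lit 65) n5249 (.arc (nat_lit 68) n5255 (.arc (nat_lit 71) n5259 (.fin (nat_lit 555675801) (nat_lit 0)))))))))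
def n5261 : Nd := .arc (nat_lit 3) n5260 (.fin (nat_lit 287232151) (nat_lit 0))
def n5262 : Nd := .arc (nat_lit 50) n5240 (.arc (nat_lit 53) n5249 (.arc (nat_lit 56) n5259 (.arc (nat_lit 59) n5255 (.arc (nat_lit 62) n5208 (.arc (nat_lit 65) n5217 (.arc (nat_lit 68) n5227 (.arc (nat_lit 71) n5223 (.fin (nat_lit 287240343) (nat_lit 0)))))))))
def n5263 : Nd := .arc (nat_lit 3) n5262 (.fin (nat_lit 555667609) (nat_lit 0))
def n5264 : Nd := .arc (nat_lit 6) n5261 (.arc (nat_lit 9) n5263 (.fin (nat_lit 157692059) (nat_lit 0)))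
def n5265 : Nd := .arc (nat_lit 26) n5208 (.arc (nat_lit 29) n5217 (.arc (nat_lit 32) n5227 (.arc (nat_lit 35) n5223 (.arc (nat_lit 38) n5240 (.arc (nat_lit 41) n5249 (.arc (nat_lit 44) n5259 (.arc (nat_lit 47) n5255 (.fin (nat_lit 157741211) (nat_lit 0)))))))))
def n5266 : Nd := .arc (nat_lit 9) n5265 (.arc (nat_lit 64) n5200 (.arc (nat_lit 67) n5207 (.arc (nat_lit 70) n5204 (.fin (nat_lit 287207575) (nat_lit 0)))))
def n5267 : Nd := .arc (nat_lit 6) n5262 (.fin (nat_lit 157724827) (nat_lit 0))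
def n5268 : Nd := .arc (nat_lit 3) n5266 (.arc (nat_lit 6) n5267 (.fin (nat_lit 555651225) (nat_lit 0)))
def n5269 : Nd := .arc (nat_lit 6) n5265 (.arc (nat_lit 52) n5200 (.arc (nat_lit 55) n5204 (.arc (nat_lit 58) n5207 (.fin (nat_lit 555659417) (nat_lit 0)))))
def n5270 : Nd := .arc (nat_lit 9) n5260 (.fin (nat_lit 157708443) (nat_lit 0))
def n5271 : Nd := .arc (nat_lit 3) n5269 (.arc (nat_lit 9) n5270 (.fin (nat_lit 287199383) (nat_lit 0)))
def n5272 : Nd := .arc (nat_lit 3) n5264 (.arc (nat_lit 6) n5268 (.arc (nat_lit 9) n5271 (.fin (nat_lit 90575005) (nat_lit 0))))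
def n5273 : Nd := .arc (nat_lit 6) n5263 (.arc (nat_lit 9) n5261 (.fin (nat_lit 90583197) (nat_lit 0)))
def n5274 : Nd := .arc (nat_lit 26) n5240 (.arc (nat_lit 29) n5249 (.arc (nat_lit 32) n5255 (.arc (nat_lit 35) n5259 (.arc (nat_lit 38) n5208 (.arc (nat_lit 41) n5217 (.arc (nat_lit 44) n5223 (.arc (nat_lit 47) n5227 (.fin (nat_lit 90632349) (nat_lit 0)))))))))
def n5275 : Nd := .arc (nat_lit 9) n5274 (.arc (nat_lit 64) n5232 (.arc (nat_lit 67) n5239 (.arc (nat_lit 70) n5236 (.fin (nat_lit 555643033) (nat_lit 0)))))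
def n5276 : Nd := .arc (nat_lit 6) n5260 (.fin (nat_lit 90615965) (nat_lit 0))
def n5277 : Nd := .arc (nat_lit 3) n5275 (.arc (nat_lit 6) n5276 (.fin (nat_lit 287215767) (nat_lit 0)))
def n5278 : Nd := .arc (nat_lit 6) n5274 (.arc (nat_lit 52) n5232 (.arc (nat_lit 55) n5236 (.arc (nat_lit 58) n5239 (.fin (nat_lit 287223959) (nat_lit 0)))))
def n5279 : Nd := .arc (nat_lit 9) n5262 (.fin (nat_lit 90599581) (nat_lit 0))
def n5280 : Nd := .arc (nat_lit 3) n5278 (.arc (nat_lit 9) n5279 (.fin (nat_lit 555634841) (nat_lit 0)))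
def n5281 : Nd := .arc (nat_lit 3) n5273 (.arc (nat_lit 6) n5277 (.arc (nat_lit 9) n5280 (.fin (nat_lit 157683867) (nat_lit 0))))
def n5282 : Nd := .arc (nat_lit 3) n5274 (.arc (nat_lit 40) n5232 (.arc (nat_lit 43) n5236 (.arc (nat_lit 46) n5239 (.fin (nat_lit 157733019) (nat_lit 0)))))
def n5283 : Nd := .arc (nat_lit 3) n5265 (.arc (nat_lit 40) n5200 (.arc (nat_lit 43) n5204 (.arc (nat_lit 46) n5207 (.fin (nat_lit 90624157) (nat_lit 0)))))
def n5284 : Nd := .arc (nat_lit 6) n5282 (.arc (nat_lit 9) n5283 (.fin (nat_lit 555626649) (nat_lit 0)))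
def n5285 : Nd := .arc (nat_lit 3) n5270 (.arc (nat_lit 6) n5269 (.fin (nat_lit 90607773) (nat_lit 0)))
def n5286 : Nd := .arc (nat_lit 3) n5276 (.arc (nat_lit 9) n5275 (.fin (nat_lit 157700251) (nat_lit 0)))
def n5287 : Nd := .arc (nat_lit 3) n5284 (.arc (nat_lit 6) n5285 (.arc (nat_lit 9) n5286 (.fin (nat_lit 287182999) (nat_lit 0))))
def n5288 : Nd := .arc (nat_lit 6) n5283 (.arc (nat_lit 9) n5282 (.fin (nat_lit 287191191) (nat_lit 0)))
def n5289 : Nd := .arc (nat_lit 3) n5279 (.arc (nat_lit 6) n5278 (.fin (nat_lit 157716635) (nat_lit 0)))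
def n5290 : Nd := .arc (nat_lit 3) n5267 (.arc (nat_lit 9) n5266 (.fin (nat_lit 90591389) (nat_lit 0)))
def n5291 : Nd := .arc (nat_lit 3) n5288 (.arc (nat_lit 6) n5289 (.arc (nat_lit 9) n5290 (.fin (nat_lit 555618457) (nat_lit 0))))
def n5292 : Nd := .arc (nat_lit 14) n4843 (.arc (nat_lit 17) n4839 (.arc (nat_lit 20) n4833 (.arc (nat_lit 23) n4824 (.arc (nat_lit 50) n4811 (.arc (nat_lit 53) n4807 (.arc (nat_lit 56) n4801 (.arc (nat_lit 59) n4792 (.fin (nat_lit 291172505) (nat_lit 0)))))))))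
def n5293 : Nd := .arc (nat_lit 3) n5292 (.fin (nat_lit 557502615) (nat_lit 0))
def n5294 : Nd := .arc (nat_lit 14) n4839 (.arc (nat_lit 17) n4843 (.arc (nat_lit 20) n4824 (.arc (nat_lit 23) n4833 (.arc (nat_lit 62) n4811 (.arc (nat_lit 65) n4807 (.arc (nat_lit 68) n4792 (.arc (nat_lit 71) n4801 (.fin (nat_lit 557510807) (nat_lit 0)))))))))
def n5295 : Nd := .arc (nat_lit 3) n5294 (.fin (nat_lit 291164313) (nat_lit 0))
def n5296 : Nd := .arc (nat_lit 6) n5293 (.arc (nat_lit 9) n5295 (.fin (nat_lit 91369627) (nat_lit 0)))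
def n5297 : Nd := .arc (nat_lit 14) n4833 (.arc (nat_lit 17) n4824 (.arc (nat_lit 20) n4839 (.arc (nat_lit 23) n4843 (.arc (nat_lit 26) n4811 (.arc (nat_lit 29) n4807 (.arc (nat_lit 32) n4792 (.arc (nat_lit 35) n4801 (.fin (nat_lit 91418779) (nat_lit 0)))))))))
def n5298 : Nd := .arc (nat_lit 9) n5297 (.arc (nat_lit 64) n4808 (.arc (nat_lit 67) n4810 (.arc (nat_lit 70) n4809 (.fin (nat_lit 557478039) (nat_lit 0)))))
def n5299 : Nd := .arc (nat_lit 6) n5294 (.fin (nat_lit 91402395) (nat_lit 0))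
def n5300 : Nd := .arc (nat_lit 3) n5298 (.arc (nat_lit 6) n5299 (.fin (nat_lit 291147929) (nat_lit 0)))
def n5301 : Nd := .arc (nat_lit 6) n5297 (.arc (nat_lit 52) n4808 (.arc (nat_lit 55) n4809 (.arc (nat_lit 58) n4810 (.fin (nat_lit 291156121) (nat_lit 0)))))
def n5302 : Nd := .arc (nat_lit 9) n5292 (.fin (nat_lit 91386011) (nat_lit 0))
def n5303 : Nd := .arc (nat_lit 3) n5301 (.arc (nat_lit 9) n5302 (.fin (nat_lit 557469847) (nat_lit 0)))
def n5304 : Nd := .arc (nat_lit 3) n5296 (.arc (nat_lit 6) n5300 (.arc (nat_lit 9) n5303 (.fin (nat_lit 157946013) (nat_lit 0))))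
def n5305 : Nd := .arc (nat_lit 6) n5295 (.arc (nat_lit 9) n5293 (.fin (nat_lit 157954205) (nat_lit 0)))
def n5306 : Nd := .arc (nat_lit 14) n4824 (.arc (nat_lit 17) n4833 (.arc (nat_lit 20) n4843 (.arc (nat_lit 23) n4839 (.arc (nat_lit 38) n4811 (.arc (nat_lit 41) n4807 (.arc (nat_lit 44) n4801 (.arc (nat_lit 47) n4792 (.fin (nat_lit 158003357) (nat_lit 0)))))))))
def n5307 : Nd := .arc (nat_lit 9) n5306 (.fin (nat_lit 291139737) (nat_lit 0))
def n5308 : Nd := .arc (nat_lit 6) n5292 (.fin (nat_lit 157986973) (nat_lit 0))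
def n5309 : Nd := .arc (nat_lit 3) n5307 (.arc (nat_lit 6) n5308 (.fin (nat_lit 557486231) (nat_lit 0)))
def n5310 : Nd := .arc (nat_lit 6) n5306 (.fin (nat_lit 557494423) (nat_lit 0))
def n5311 : Nd := .arc (nat_lit 9) n5294 (.fin (nat_lit 157970589) (nat_lit 0))
def n5312 : Nd := .arc (nat_lit 3) n5310 (.arc (nat_lit 9) n5311 (.fin (nat_lit 291131545) (nat_lit 0)))
def n5313 : Nd := .arc (nat_lit 3) n5305 (.arc (nat_lit 6) n5309 (.arc (nat_lit 9) n5312 (.fin (nat_lit 91361435) (nat_lit 0))))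
def n5314 : Nd := .arc (nat_lit 3) n5306 (.fin (nat_lit 91410587) (nat_lit 0))
def n5315 : Nd := .arc (nat_lit 3) n5297 (.arc (nat_lit 40) n4808 (.arc (nat_lit 43) n4809 (.arc (nat_lit 46) n4810 (.fin (nat_lit 157995165) (nat_lit 0)))))
def n5316 : Nd := .arc (nat_lit 6) n5314 (.arc (nat_lit 9) n5315 (.fin (nat_lit 291123353) (nat_lit 0)))
def n5317 : Nd := .arc (nat_lit 3) n5302 (.arc (nat_lit 6) n5301 (.fin (nat_lit 157978781) (nat_lit 0)))
def n5318 : Nd := .arc (nat_lit 3) n5308 (.arc (nat_lit 9) n5307 (.fin (nat_lit 91377819) (nat_lit 0)))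
def n5319 : Nd := .arc (nat_lit 3) n5316 (.arc (nat_lit 6) n5317 (.arc (nat_lit 9) n5318 (.fin (nat_lit 557453463) (nat_lit 0))))
def n5320 : Nd := .arc (nat_lit 6) n5315 (.arc (nat_lit 9) n5314 (.fin (nat_lit 557461655) (nat_lit 0)))
def n5321 : Nd := .arc (nat_lit 3) n5311 (.arc (nat_lit 6) n5310 (.fin (nat_lit 91394203) (nat_lit 0)))
def n5322 : Nd := .arc (nat_lit 3) n5299 (.arc (nat_lit 9) n5298 (.fin (nat_lit 157962397) (nat_lit 0)))
def n5323 : Nd := .arc (nat_lit 3) n5320 (.arc (nat_lit 6) n5321 (.arc (nat_lit 9) n5322 (.fin (nat_lit 291115161) (nat_lit 0))))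
def n5324 : Nd := .arc (nat_lit 14) n5035 (.arc (nat_lit 17) n5031 (.arc (nat_lit 20) n5025 (.arc (nat_lit 23) n5016 (.arc (nat_lit 50) n5003 (.arc (nat_lit 53) n4999 (.arc (nat_lit 56) n4993 (.arc (nat_lit 59) n4984 (.fin (nat_lit 307949719) (nat_lit 0)))))))))
def n5325 : Nd := .arc (nat_lit 3) n5324 (.fin (nat_lit 574279833) (nat_lit 0))
def n5326 : Nd := .arc (nat_lit 14) n5031 (.arc (nat_lit 17) n5035 (.arc (nat_lit 20) n5016 (.arc (nat_lit 23) n5025 (.arc (nat_lit 62) n5003 (.arc (nat_lit 65) n4999 (.arc (nat_lit 68) n4984 (.arc (nat_lit 71) n4993 (.fin (nat_lit 574288025) (nat_lit 0)))))))))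
def n5327 : Nd := .arc (nat_lit 3) n5326 (.fin (nat_lit 307941527) (nat_lit 0))
def n5328 : Nd := .arc (nat_lit 6) n5325 (.arc (nat_lit 9) n5327 (.fin (nat_lit 108146845) (nat_lit 0)))
def n5329 : Nd := .arc (nat_lit 14) n5025 (.arc (nat_lit 17) n5016 (.arc (nat_lit 20) n5031 (.arc (nat_lit 23) n5035 (.arc (nat_lit 26) n5003 (.arc (nat_lit 29) n4999 (.arc (nat_lit 32) n4984 (.arc (nat_lit 35) n4993 (.fin (nat_lit 108195997) (nat_lit 0)))))))))
def n5330 : Nd := .arc (nat_lit 9) n5329 (.arc (nat_lit 64) n5000 (.arc (nat_lit 67) n5002 (.arc (nat_lit 70) n5001 (.fin (nat_lit 574255257) (nat_lit 0)))))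
def n5331 : Nd := .arc (nat_lit 6) n5326 (.fin (nat_lit 108179613) (nat_lit 0))
def n5332 : Nd := .arc (nat_lit 3) n5330 (.arc (nat_lit 6) n5331 (.fin (nat_lit 307925143) (nat_lit 0)))
def n5333 : Nd := .arc (nat_lit 6) n5329 (.arc (nat_lit 52) n5000 (.arc (nat_lit 55) n5001 (.arc (nat_lit 58) n5002 (.fin (nat_lit 307933335) (nat_lit 0)))))
def n5334 : Nd := .arc (nat_lit 9) n5324 (.fin (nat_lit 108163229) (nat_lit 0))
def n5335 : Nd := .arc (nat_lit 3) n5333 (.arc (nat_lit 9) n5334 (.fin (nat_lit 574247065) (nat_lit 0)))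
def n5336 : Nd := .arc (nat_lit 3) n5328 (.arc (nat_lit 6) n5332 (.arc (nat_lit 9) n5335 (.fin (nat_lit 174723227) (nat_lit 0))))
def n5337 : Nd := .arc (nat_lit 6) n5327 (.arc (nat_lit 9) n5325 (.fin (nat_lit 174731419) (nat_lit 0)))
def n5338 : Nd := .arc (nat_lit 14) n5016 (.arc (nat_lit 17) n5025 (.arc (nat_lit 20) n5035 (.arc (nat_lit 23) n5031 (.arc (nat_lit 38) n5003 (.arc (nat_lit 41) n4999 (.arc (nat_lit 44) n4993 (.arc (nat_lit 47) n4984 (.fin (nat_lit 174780571) (nat_lit 0)))))))))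
def n5339 : Nd := .arc (nat_lit 9) n5338 (.fin (nat_lit 307916951) (nat_lit 0))
def n5340 : Nd := .arc (nat_lit 6) n5324 (.fin (nat_lit 174764187) (nat_lit 0))
def n5341 : Nd := .arc (nat_lit 3) n5339 (.arc (nat_lit 6) n5340 (.fin (nat_lit 574263449) (nat_lit 0)))
def n5342 : Nd := .arc (nat_lit 6) n5338 (.fin (nat_lit 574271641) (nat_lit 0))
def n5343 : Nd := .arc (nat_lit 9) n5326 (.fin (nat_lit 174747803) (nat_lit 0))
def n5344 : Nd := .arc (nat_lit 3) n5342 (.arc (nat_lit 9) n5343 (.fin (nat_lit 307908759) (nat_lit 0)))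
def n5345 : Nd := .arc (nat_lit 3) n5337 (.arc (nat_lit 6) n5341 (.arc (nat_lit 9) n5344 (.fin (nat_lit 108138653) (nat_lit 0))))
def n5346 : Nd := .arc (nat_lit 3) n5329 (.arc (nat_lit 40) n5000 (.arc (nat_lit 43) n5001 (.arc (nat_lit 46) n5002 (.fin (nat_lit 174772379) (nat_lit 0)))))
def n5347 : Nd := .arc (nat_lit 3) n5338 (.fin (nat_lit 108187805) (nat_lit 0))
def n5348 : Nd := .arc (nat_lit 6) n5346 (.arc (nat_lit 9) n5347 (.fin (nat_lit 574238873) (nat_lit 0)))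
def n5349 : Nd := .arc (nat_lit 3) n5343 (.arc (nat_lit 6) n5342 (.fin (nat_lit 108171421) (nat_lit 0)))
def n5350 : Nd := .arc (nat_lit 3) n5331 (.arc (nat_lit 9) n5330 (.fin (nat_lit 174739611) (nat_lit 0)))
def n5351 : Nd := .arc (nat_lit 3) n5348 (.arc (nat_lit 6) n5349 (.arc (nat_lit 9) n5350 (.fin (nat_lit 307892375) (nat_lit 0))))
def n5352 : Nd := .arc (nat_lit 6) n5347 (.arc (nat_lit 9) n5346 (.fin (nat_lit 307900567) (nat_lit 0)))
def n5353 : Nd := .arc (nat_lit 3) n5334 (.arc (nat_lit 6) n5333 (.fin (nat_lit 174755995) (nat_lit 0)))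
def n5354 : Nd := .arc (nat_lit 3) n5340 (.arc (nat_lit 9) n5339 (.fin (nat_lit 108155037) (nat_lit 0)))
def n5355 : Nd := .arc (nat_lit 3) n5352 (.arc (nat_lit 6) n5353 (.arc (nat_lit 9) n5354 (.fin (nat_lit 574230681) (nat_lit 0))))
def n5356 : Nd := .arc (nat_lit 14) n5272 (.arc (nat_lit 17) n5281 (.arc (nat_lit 20) n5287 (.arc (nat_lit 23) n5291 (.arc (nat_lit 26) n5304 (.arc (nat_lit 29) n5313 (.arc (nat_lit 32) n5319 (.arc (nat_lit 35) n5323 (.arc (nat_lit 38) n5336 (.arc (nat_lit 41) n5345 (.arc (nat_lit 44) n5351 (.arc (nat_lit 47) n5355 (.fin (nat_lit 107147419) (nat_lit 0)))))))))))))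
def n5357 : Nd := .arc (nat_lit 3) n5356 (.arc (nat_lit 40) n5296 (.arc (nat_lit 43) n5300 (.arc (nat_lit 46) n5303 (.fin (nat_lit 174248093) (nat_lit 0)))))
def n5358 : Nd := .arc (nat_lit 14) n5281 (.arc (nat_lit 17) n5272 (.arc (nat_lit 20) n5291 (.arc (nat_lit 23) n5287 (.arc (nat_lit 26) n5336 (.arc (nat_lit 29) n5345 (.arc (nat_lit 32) n5355 (.arc (nat_lit 35) n5351 (.arc (nat_lit 38) n5304 (.arc (nat_lit 41) n5313 (.arc (nat_lit 44) n5323 (.arc (nat_lit 47) n5319 (.fin (nat_lit 174256285) (nat_lit 0)))))))))))))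
def n5359 : Nd := .arc (nat_lit 3) n5358 (.arc (nat_lit 40) n5328 (.arc (nat_lit 43) n5332 (.arc (nat_lit 46) n5335 (.fin (nat_lit 107139227) (nat_lit 0)))))
def n5360 : Nd := .arc (nat_lit 6) n5357 (.arc (nat_lit 9) n5359 (.fin (nat_lit 572141719) (nat_lit 0)))
def n5361 : Nd := .arc (nat_lit 14) n5287 (.arc (nat_lit 17) n5291 (.arc (nat_lit 20) n5281 (.arc (nat_lit 23) n5272 (.arc (nat_lit 50) n5336 (.arc (nat_lit 53) n5345 (.arc (nat_lit 56) n5351 (.arc (nat_lit 59) n5355 (.arc (nat_lit 62) n5304 (.arc (nat_lit 65) n5313 (.arc (nat_lit 68) n5319 (.arc (nat_lit 71) n5323 (.fin (nat_lit 572190871) (nat_lit 0)))))))))))))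
def n5362 : Nd := .arc (nat_lit 9) n5361 (.fin (nat_lit 174223517) (nat_lit 0))
def n5363 : Nd := .arc (nat_lit 6) n5358 (.arc (nat_lit 52) n5328 (.arc (nat_lit 55) n5332 (.arc (nat_lit 58) n5335 (.fin (nat_lit 572174487) (nat_lit 0)))))
def n5364 : Nd := .arc (nat_lit 3) n5362 (.arc (nat_lit 6) n5363 (.fin (nat_lit 107122843) (nat_lit 0)))
def n5365 : Nd := .arc (nat_lit 6) n5361 (.fin (nat_lit 107131035) (nat_lit 0))
def n5366 : Nd := .arc (nat_lit 9) n5356 (.arc (nat_lit 64) n5296 (.arc (nat_lit 67) n5303 (.arc (nat_lit 70) n5300 (.fin (nat_lit 572158103) (nat_lit 0)))))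
def n5367 : Nd := .arc (nat_lit 3) n5365 (.arc (nat_lit 9) n5366 (.fin (nat_lit 174215325) (nat_lit 0)))
def n5368 : Nd := .arc (nat_lit 3) n5360 (.arc (nat_lit 6) n5364 (.arc (nat_lit 9) n5367 (.fin (nat_lit 303698073) (nat_lit 0))))
def n5369 : Nd := .arc (nat_lit 6) n5359 (.arc (nat_lit 9) n5357 (.fin (nat_lit 303706265) (nat_lit 0)))
def n5370 : Nd := .arc (nat_lit 14) n5291 (.arc (nat_lit 17) n5287 (.arc (nat_lit 20) n5272 (.arc (nat_lit 23) n5281 (.arc (nat_lit 50) n5304 (.arc (nat_lit 53) n5313 (.arc (nat_lit 56) n5323 (.arc (nat_lit 59) n5319 (.arc (nat_lit 62) n5336 (.arc (nat_lit 65) n5345 (.arc (nat_lit 68) n5355 (.arc (nat_lit 71) n5351 (.fin (nat_lit 303755417) (nat_lit 0)))))))))))))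
def n5371 : Nd := .arc (nat_lit 9) n5370 (.fin (nat_lit 107114651) (nat_lit 0))
def n5372 : Nd := .arc (nat_lit 6) n5356 (.arc (nat_lit 52) n5296 (.arc (nat_lit 55) n5300 (.arc (nat_lit 58) n5303 (.fin (nat_lit 303739033) (nat_lit 0)))))
def n5373 : Nd := .arc (nat_lit 3) n5371 (.arc (nat_lit 6) n5372 (.fin (nat_lit 174231709) (nat_lit 0)))
def n5374 : Nd := .arc (nat_lit 6) n5370 (.fin (nat_lit 174239901) (nat_lit 0))
def n5375 : Nd := .arc (nat_lit 9) n5358 (.arc (nat_lit 64) n5328 (.arc (nat_lit 67) n5335 (.arc (nat_lit 70) n5332 (.fin (nat_lit 303722649) (nat_lit 0)))))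
def n5376 : Nd := .arc (nat_lit 3) n5374 (.arc (nat_lit 9) n5375 (.fin (nat_lit 107106459) (nat_lit 0)))
def n5377 : Nd := .arc (nat_lit 3) n5369 (.arc (nat_lit 6) n5373 (.arc (nat_lit 9) n5376 (.fin (nat_lit 572133527) (nat_lit 0))))
def n5378 : Nd := .arc (nat_lit 3) n5361 (.fin (nat_lit 303747225) (nat_lit 0))
def n5379 : Nd := .arc (nat_lit 3) n5370 (.fin (nat_lit 572182679) (nat_lit 0))
def n5380 : Nd := .arc (nat_lit 6) n5378 (.arc (nat_lit 9) n5379 (.fin (nat_lit 174207133) (nat_lit 0)))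
def n5381 : Nd := .arc (nat_lit 3) n5375 (.arc (nat_lit 6) n5374 (.fin (nat_lit 572166295) (nat_lit 0)))
def n5382 : Nd := .arc (nat_lit 3) n5363 (.arc (nat_lit 9) n5362 (.fin (nat_lit 303714457) (nat_lit 0)))
def n5383 : Nd := .arc (nat_lit 3) n5380 (.arc (nat_lit 6) n5381 (.arc (nat_lit 9) n5382 (.fin (nat_lit 107090075) (nat_lit 0))))
def n5384 : Nd := .arc (nat_lit 6) n5379 (.arc (nat_lit 9) n5378 (.fin (nat_lit 107098267) (nat_lit 0)))
def n5385 : Nd := .arc (nat_lit 3) n5366 (.arc (nat_lit 6) n5365 (.fin (nat_lit 303730841) (nat_lit 0)))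
def n5386 : Nd := .arc (nat_lit 3) n5372 (.arc (nat_lit 9) n5371 (.fin (nat_lit 572149911) (nat_lit 0)))
def n5387 : Nd := .arc (nat_lit 3) n5384 (.arc (nat_lit 6) n5385 (.arc (nat_lit 9) n5386 (.fin (nat_lit 174198941) (nat_lit 0))))
def n5388 : Nd := .arc (nat_lit 50) n5249 (.arc (nat_lit 53) n5240 (.arc (nat_lit 56) n5255 (.arc (nat_lit 59) n5259 (.arc (nat_lit 62) n5217 (.arc (nat_lit 65) n5208 (.arc (nat_lit 68) n5223 (.arc (nat_lit 71) n5227 (.fin (nat_lit 304017561) (nat_lit 0)))))))))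
def n5389 : Nd := .arc (nat_lit 3) n5388 (.fin (nat_lit 572444823) (nat_lit 0))
def n5390 : Nd := .arc (nat_lit 50) n5217 (.arc (nat_lit 53) n5208 (.arc (nat_lit 56) n5227 (.arc (nat_lit 59) n5223 (.arc (nat_lit 62) n5249 (.arc (nat_lit 65) n5240 (.arc (nat_lit 68) n5259 (.arc (nat_lit 71) n5255 (.fin (nat_lit 572453015) (nat_lit 0)))))))))
def n5391 : Nd := .arc (nat_lit 3) n5390 (.fin (nat_lit 304009369) (nat_lit 0))
def n5392 : Nd := .arc (nat_lit 6) n5389 (.arc (nat_lit 9) n5391 (.fin (nat_lit 107360411) (nat_lit 0)))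
def n5393 : Nd := .arc (nat_lit 26) n5249 (.arc (nat_lit 29) n5240 (.arc (nat_lit 32) n5259 (.arc (nat_lit 35) n5255 (.arc (nat_lit 38) n5217 (.arc (nat_lit 41) n5208 (.arc (nat_lit 44) n5227 (.arc (nat_lit 47) n5223 (.fin (nat_lit 107409563) (nat_lit 0)))))))))
def n5394 : Nd := .arc (nat_lit 9) n5393 (.arc (nat_lit 64) n5241 (.arc (nat_lit 67) n5248 (.arc (nat_lit 70) n5245 (.fin (nat_lit 572420247) (nat_lit 0)))))
def n5395 : Nd := .arc (nat_lit 6) n5390 (.fin (nat_lit 107393179) (nat_lit 0))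
def n5396 : Nd := .arc (nat_lit 3) n5394 (.arc (nat_lit 6) n5395 (.fin (nat_lit 303992985) (nat_lit 0)))
def n5397 : Nd := .arc (nat_lit 6) n5393 (.arc (nat_lit 52) n5241 (.arc (nat_lit 55) n5245 (.arc (nat_lit 58) n5248 (.fin (nat_lit 304001177) (nat_lit 0)))))
def n5398 : Nd := .arc (nat_lit 9) n5388 (.fin (nat_lit 107376795) (nat_lit 0))
def n5399 : Nd := .arc (nat_lit 3) n5397 (.arc (nat_lit 9) n5398 (.fin (nat_lit 572412055) (nat_lit 0)))
def n5400 : Nd := .arc (nat_lit 3) n5392 (.arc (nat_lit 6) n5396 (.arc (nat_lit 9) n5399 (.fin (nat_lit 174461085) (nat_lit 0))))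
def n5401 : Nd := .arc (nat_lit 6) n5391 (.arc (nat_lit 9) n5389 (.fin (nat_lit 174469277) (nat_lit 0)))
def n5402 : Nd := .arc (nat_lit 26) n5217 (.arc (nat_lit 29) n5208 (.arc (nat_lit 32) n5223 (.arc (nat_lit 35) n5227 (.arc (nat_lit 38) n5249 (.arc (nat_lit 41) n5240 (.arc (nat_lit 44) n5255 (.arc (nat_lit 47) n5259 (.fin (nat_lit 174518429) (nat_lit 0)))))))))
def n5403 : Nd := .arc (nat_lit 9) n5402 (.arc (nat_lit 64) n5209 (.arc (nat_lit 67) n5216 (.arc (nat_lit 70) n5213 (.fin (nat_lit 303984793) (nat_lit 0)))))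
def n5404 : Nd := .arc (nat_lit 6) n5388 (.fin (nat_lit 174502045) (nat_lit 0))
def n5405 : Nd := .arc (nat_lit 3) n5403 (.arc (nat_lit 6) n5404 (.fin (nat_lit 572428439) (nat_lit 0)))
def n5406 : Nd := .arc (nat_lit 6) n5402 (.arc (nat_lit 52) n5209 (.arc (nat_lit 55) n5213 (.arc (nat_lit 58) n5216 (.fin (nat_lit 572436631) (nat_lit 0)))))
def n5407 : Nd := .arc (nat_lit 9) n5390 (.fin (nat_lit 174485661) (nat_lit 0))
def n5408 : Nd := .arc (nat_lit 3) n5406 (.arc (nat_lit 9) n5407 (.fin (nat_lit 303976601) (nat_lit 0)))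
def n5409 : Nd := .arc (nat_lit 3) n5401 (.arc (nat_lit 6) n5405 (.arc (nat_lit 9) n5408 (.fin (nat_lit 107352219) (nat_lit 0))))
def n5410 : Nd := .arc (nat_lit 3) n5402 (.arc (nat_lit 40) n5209 (.arc (nat_lit 43) n5213 (.arc (nat_lit 46) n5216 (.fin (nat_lit 107401371) (nat_lit 0)))))
def n5411 : Nd := .arc (nat_lit 3) n5393 (.arc (nat_lit 40) n5241 (.arc (nat_lit 43) n5245 (.arc (nat_lit 46) n5248 (.fin (nat_lit 174510237) (nat_lit 0)))))
def n5412 : Nd := .arc (nat_lit 6) n5410 (.arc (nat_lit 9) n5411 (.fin (nat_lit 303968409) (nat_lit 0)))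
def n5413 : Nd := .arc (nat_lit 3) n5398 (.arc (nat_lit 6) n5397 (.fin (nat_lit 174493853) (nat_lit 0)))
def n5414 : Nd := .arc (nat_lit 3) n5404 (.arc (nat_lit 9) n5403 (.fin (nat_lit 107368603) (nat_lit 0)))
def n5415 : Nd := .arc (nat_lit 3) n5412 (.arc (nat_lit 6) n5413 (.arc (nat_lit 9) n5414 (.fin (nat_lit 572395671) (nat_lit 0))))
def n5416 : Nd := .arc (nat_lit 6) n5411 (.arc (nat_lit 9) n5410 (.fin (nat_lit 572403863) (nat_lit 0)))
def n5417 : Nd := .arc (nat_lit 3) n5407 (.arc (nat_lit 6) n5406 (.fin (nat_lit 107384987) (nat_lit 0)))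
def n5418 : Nd := .arc (nat_lit 3) n5395 (.arc (nat_lit 9) n5394 (.fin (nat_lit 174477469) (nat_lit 0)))
def n5419 : Nd := .arc (nat_lit 3) n5416 (.arc (nat_lit 6) n5417 (.arc (nat_lit 9) n5418 (.fin (nat_lit 303960217) (nat_lit 0))))
def n5420 : Nd := .arc (nat_lit 14) n5131 (.arc (nat_lit 17) n5127 (.arc (nat_lit 20) n5121 (.arc (nat_lit 23) n5112 (.arc (nat_lit 50) n5099 (.arc (nat_lit 53) n5095 (.arc (nat_lit 56) n5089 (.arc (nat_lit 59) n5080 (.fin (nat_lit 576385177) (nat_lit 0)))))))))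
def n5421 : Nd := .arc (nat_lit 3) n5420 (.fin (nat_lit 305844375) (nat_lit 0))
def n5422 : Nd := .arc (nat_lit 14) n5127 (.arc (nat_lit 17) n5131 (.arc (nat_lit 20) n5112 (.arc (nat_lit 23) n5121 (.arc (nat_lit 62) n5099 (.arc (nat_lit 65) n5095 (.arc (nat_lit 68) n5080 (.arc (nat_lit 71) n5089 (.fin (nat_lit 305852567) (nat_lit 0)))))))))
def n5423 : Nd := .arc (nat_lit 3) n5422 (.fin (nat_lit 576376985) (nat_lit 0))
def n5424 : Nd := .arc (nat_lit 6) n5421 (.arc (nat_lit 9) n5423 (.fin (nat_lit 175255707) (nat_lit 0)))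
def n5425 : Nd := .arc (nat_lit 14) n5121 (.arc (nat_lit 17) n5112 (.arc (nat_lit 20) n5127 (.arc (nat_lit 23) n5131 (.arc (nat_lit 26) n5099 (.arc (nat_lit 29) n5095 (.arc (nat_lit 32) n5080 (.arc (nat_lit 35) n5089 (.fin (nat_lit 175304859) (nat_lit 0)))))))))
def n5426 : Nd := .arc (nat_lit 9) n5425 (.arc (nat_lit 64) n5096 (.arc (nat_lit 67) n5098 (.arc (nat_lit 70) n5097 (.fin (nat_lit 305819799) (nat_lit 0)))))
def n5427 : Nd := .arc (nat_lit 6) n5422 (.fin (nat_lit 175288475) (nat_lit 0))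
def n5428 : Nd := .arc (nat_lit 3) n5426 (.arc (nat_lit 6) n5427 (.fin (nat_lit 576360601) (nat_lit 0)))
def n5429 : Nd := .arc (nat_lit 6) n5425 (.arc (nat_lit 52) n5096 (.arc (nat_lit 55) n5097 (.arc (nat_lit 58) n5098 (.fin (nat_lit 576368793) (nat_lit 0)))))
def n5430 : Nd := .arc (nat_lit 9) n5420 (.fin (nat_lit 175272091) (nat_lit 0))
def n5431 : Nd := .arc (nat_lit 3) n5429 (.arc (nat_lit 9) n5430 (.fin (nat_lit 305811607) (nat_lit 0)))
def n5432 : Nd := .arc (nat_lit 3) n5424 (.arc (nat_lit 6) n5428 (.arc (nat_lit 9) n5431 (.fin (nat_lit 107614365) (nat_lit 0))))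
def n5433 : Nd := .arc (nat_lit 6) n5423 (.arc (nat_lit 9) n5421 (.fin (nat_lit 107622557) (nat_lit 0)))
def n5434 : Nd := .arc (nat_lit 14) n5112 (.arc (nat_lit 17) n5121 (.arc (nat_lit 20) n5131 (.arc (nat_lit 23) n5127 (.arc (nat_lit 38) n5099 (.arc (nat_lit 41) n5095 (.arc (nat_lit 44) n5089 (.arc (nat_lit 47) n5080 (.fin (nat_lit 107671709) (nat_lit 0)))))))))
def n5435 : Nd := .arc (nat_lit 9) n5434 (.fin (nat_lit 576352409) (nat_lit 0))
def n5436 : Nd := .arc (nat_lit 6) n5420 (.fin (nat_lit 107655325) (nat_lit 0))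
def n5437 : Nd := .arc (nat_lit 3) n5435 (.arc (nat_lit 6) n5436 (.fin (nat_lit 305827991) (nat_lit 0)))
def n5438 : Nd := .arc (nat_lit 6) n5434 (.fin (nat_lit 305836183) (nat_lit 0))
def n5439 : Nd := .arc (nat_lit 9) n5422 (.fin (nat_lit 107638941) (nat_lit 0))
def n5440 : Nd := .arc (nat_lit 3) n5438 (.arc (nat_lit 9) n5439 (.fin (nat_lit 576344217) (nat_lit 0)))
def n5441 : Nd := .arc (nat_lit 3) n5433 (.arc (nat_lit 6) n5437 (.arc (nat_lit 9) n5440 (.fin (nat_lit 175247515) (nat_lit 0))))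
def n5442 : Nd := .arc (nat_lit 3) n5434 (.fin (nat_lit 175296667) (nat_lit 0))
def n5443 : Nd := .arc (nat_lit 3) n5425 (.arc (nat_lit 40) n5096 (.arc (nat_lit 43) n5097 (.arc (nat_lit 46) n5098 (.fin (nat_lit 107663517) (nat_lit 0)))))
def n5444 : Nd := .arc (nat_lit 6) n5442 (.arc (nat_lit 9) n5443 (.fin (nat_lit 576336025) (nat_lit 0)))
def n5445 : Nd := .arc (nat_lit 3) n5430 (.arc (nat_lit 6) n5429 (.fin (nat_lit 107647133) (nat_lit 0)))
def n5446 : Nd := .arc (nat_lit 3) n5436 (.arc (nat_lit 9) n5435 (.fin (nat_lit 175263899) (nat_lit 0)))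
def n5447 : Nd := .arc (nat_lit 3) n5444 (.arc (nat_lit 6) n5445 (.arc (nat_lit 9) n5446 (.fin (nat_lit 305795223) (nat_lit 0))))
def n5448 : Nd := .arc (nat_lit 6) n5443 (.arc (nat_lit 9) n5442 (.fin (nat_lit 305803415) (nat_lit 0)))
def n5449 : Nd := .arc (nat_lit 3) n5439 (.arc (nat_lit 6) n5438 (.fin (nat_lit 175280283) (nat_lit 0)))
def n5450 : Nd := .arc (nat_lit 3) n5427 (.arc (nat_lit 9) n5426 (.fin (nat_lit 107630749) (nat_lit 0)))
def n5451 : Nd := .arc (nat_lit 3) n5448 (.arc (nat_lit 6) n5449 (.arc (nat_lit 9) n5450 (.fin (nat_lit 576327833) (nat_lit 0))))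
def n5452 : Nd := .arc (nat_lit 14) n4747 (.arc (nat_lit 17) n4743 (.arc (nat_lit 20) n4737 (.arc (nat_lit 23) n4728 (.arc (nat_lit 50) n4715 (.arc (nat_lit 53) n4711 (.arc (nat_lit 56) n4705 (.arc (nat_lit 59) n4696 (.fin (nat_lit 559607959) (nat_lit 0)))))))))
def n5453 : Nd := .arc (nat_lit 3) n5452 (.fin (nat_lit 289067161) (nat_lit 0))
def n5454 : Nd := .arc (nat_lit 14) n4743 (.arc (nat_lit 17) n4747 (.arc (nat_lit 20) n4728 (.arc (nat_lit 23) n4737 (.arc (nat_lit 62) n4715 (.arc (nat_lit 65) n4711 (.arc (nat_lit 68) n4696 (.arc (nat_lit 71) n4705 (.fin (nat_lit 289075353) (nat_lit 0)))))))))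
def n5455 : Nd := .arc (nat_lit 3) n5454 (.fin (nat_lit 559599767) (nat_lit 0))
def n5456 : Nd := .arc (nat_lit 6) n5453 (.arc (nat_lit 9) n5455 (.fin (nat_lit 158478493) (nat_lit 0)))
def n5457 : Nd := .arc (nat_lit 14) n4737 (.arc (nat_lit 17) n4728 (.arc (nat_lit 20) n4743 (.arc (nat_lit 23) n4747 (.arc (nat_lit 26) n4715 (.arc (nat_lit 29) n4711 (.arc (nat_lit 32) n4696 (.arc (nat_lit 35) n4705 (.fin (nat_lit 158527645) (nat_lit 0)))))))))
def n5458 : Nd := .arc (nat_lit 9) n5457 (.arc (nat_lit 64) n4712 (.arc (nat_lit 67) n4714 (.arc (nat_lit 70) n4713 (.fin (nat_lit 289042585) (nat_lit 0)))))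
def n5459 : Nd := .arc (nat_lit 6) n5454 (.fin (nat_lit 158511261) (nat_lit 0))
def n5460 : Nd := .arc (nat_lit 3) n5458 (.arc (nat_lit 6) n5459 (.fin (nat_lit 559583383) (nat_lit 0)))
def n5461 : Nd := .arc (nat_lit 6) n5457 (.arc (nat_lit 52) n4712 (.arc (nat_lit 55) n4713 (.arc (nat_lit 58) n4714 (.fin (nat_lit 559591575) (nat_lit 0)))))
def n5462 : Nd := .arc (nat_lit 9) n5452 (.fin (nat_lit 158494877) (nat_lit 0))
def n5463 : Nd := .arc (nat_lit 3) n5461 (.arc (nat_lit 9) n5462 (.fin (nat_lit 289034393) (nat_lit 0)))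
def n5464 : Nd := .arc (nat_lit 3) n5456 (.arc (nat_lit 6) n5460 (.arc (nat_lit 9) n5463 (.fin (nat_lit 90837147) (nat_lit 0))))
def n5465 : Nd := .arc (nat_lit 6) n5455 (.arc (nat_lit 9) n5453 (.fin (nat_lit 90845339) (nat_lit 0)))
def n5466 : Nd := .arc (nat_lit 14) n4728 (.arc (nat_lit 17) n4737 (.arc (nat_lit 20) n4747 (.arc (nat_lit 23) n4743 (.arc (nat_lit 38) n4715 (.arc (nat_lit 41) n4711 (.arc (nat_lit 44) n4705 (.arc (nat_lit 47) n4696 (.fin (nat_lit 90894491) (nat_lit 0)))))))))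
def n5467 : Nd := .arc (nat_lit 9) n5466 (.fin (nat_lit 559575191) (nat_lit 0))
def n5468 : Nd := .arc (nat_lit 6) n5452 (.fin (nat_lit 90878107) (nat_lit 0))
def n5469 : Nd := .arc (nat_lit 3) n5467 (.arc (nat_lit 6) n5468 (.fin (nat_lit 289050777) (nat_lit 0)))
def n5470 : Nd := .arc (nat_lit 6) n5466 (.fin (nat_lit 289058969) (nat_lit 0))
def n5471 : Nd := .arc (nat_lit 9) n5454 (.fin (nat_lit 90861723) (nat_lit 0))
def n5472 : Nd := .arc (nat_lit 3) n5470 (.arc (nat_lit 9) n5471 (.fin (nat_lit 559566999) (nat_lit 0)))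
def n5473 : Nd := .arc (nat_lit 3) n5465 (.arc (nat_lit 6) n5469 (.arc (nat_lit 9) n5472 (.fin (nat_lit 158470301) (nat_lit 0))))
def n5474 : Nd := .arc (nat_lit 3) n5457 (.arc (nat_lit 40) n4712 (.arc (nat_lit 43) n4713 (.arc (nat_lit 46) n4714 (.fin (nat_lit 90886299) (nat_lit 0)))))
def n5475 : Nd := .arc (nat_lit 3) n5466 (.fin (nat_lit 158519453) (nat_lit 0))
def n5476 : Nd := .arc (nat_lit 6) n5474 (.arc (nat_lit 9) n5475 (.fin (nat_lit 289026201) (nat_lit 0)))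
def n5477 : Nd := .arc (nat_lit 3) n5471 (.arc (nat_lit 6) n5470 (.fin (nat_lit 158503069) (nat_lit 0)))
def n5478 : Nd := .arc (nat_lit 3) n5459 (.arc (nat_lit 9) n5458 (.fin (nat_lit 90853531) (nat_lit 0)))
def n5479 : Nd := .arc (nat_lit 3) n5476 (.arc (nat_lit 6) n5477 (.arc (nat_lit 9) n5478 (.fin (nat_lit 559550615) (nat_lit 0))))
def n5480 : Nd := .arc (nat_lit 6) n5475 (.arc (nat_lit 9) n5474 (.fin (nat_lit 559558807) (nat_lit 0)))
def n5481 : Nd := .arc (nat_lit 3) n5462 (.arc (nat_lit 6) n5461 (.fin (nat_lit 90869915) (nat_lit 0)))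
def n5482 : Nd := .arc (nat_lit 3) n5468 (.arc (nat_lit 9) n5467 (.fin (nat_lit 158486685) (nat_lit 0)))
def n5483 : Nd := .arc (nat_lit 3) n5480 (.arc (nat_lit 6) n5481 (.arc (nat_lit 9) n5482 (.fin (nat_lit 289018009) (nat_lit 0))))
def n5484 : Nd := .arc (nat_lit 14) n5400 (.arc (nat_lit 17) n5409 (.arc (nat_lit 20) n5415 (.arc (nat_lit 23) n5419 (.arc (nat_lit 26) n5432 (.arc (nat_lit 29) n5441 (.arc (nat_lit 32) n5447 (.arc (nat_lit 35) n5451 (.arc (nat_lit 38) n5464 (.arc (nat_lit 41) n5473 (.arc (nat_lit 44) n5479 (.arc (nat_lit 47) n5483 (.fin (nat_lit 157479067) (nat_lit 0)))))))))))))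
def n5485 : Nd := .arc (nat_lit 3) n5484 (.arc (nat_lit 40) n5424 (.arc (nat_lit 43) n5428 (.arc (nat_lit 46) n5431 (.fin (nat_lit 90362013) (nat_lit 0)))))
def n5486 : Nd := .arc (nat_lit 14) n5409 (.arc (nat_lit 17) n5400 (.arc (nat_lit 20) n5419 (.arc (nat_lit 23) n5415 (.arc (nat_lit 26) n5464 (.arc (nat_lit 29) n5473 (.arc (nat_lit 32) n5483 (.arc (nat_lit 35) n5479 (.arc (nat_lit 38) n5432 (.arc (nat_lit 41) n5441 (.arc (nat_lit 44) n5451 (.arc (nat_lit 47) n5447 (.fin (nat_lit 90370205) (nat_lit 0)))))))))))))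
def n5487 : Nd := .arc (nat_lit 3) n5486 (.arc (nat_lit 40) n5456 (.arc (nat_lit 43) n5460 (.arc (nat_lit 46) n5463 (.fin (nat_lit 157470875) (nat_lit 0)))))
def n5488 : Nd := .arc (nat_lit 6) n5485 (.arc (nat_lit 9) n5487 (.fin (nat_lit 286929047) (nat_lit 0)))
def n5489 : Nd := .arc (nat_lit 14) n5415 (.arc (nat_lit 17) n5419 (.arc (nat_lit 20) n5409 (.arc (nat_lit 23) n5400 (.arc (nat_lit 50) n5464 (.arc (nat_lit 53) n5473 (.arc (nat_lit 56) n5479 (.arc (nat_lit 59) n5483 (.arc (nat_lit 62) n5432 (.arc (nat_lit 65) n5441 (.arc (nat_lit 68) n5447 (.arc (nat_lit 71) n5451 (.fin (nat_lit 286978199) (nat_lit 0)))))))))))))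
def n5490 : Nd := .arc (nat_lit 9) n5489 (.fin (nat_lit 90337437) (nat_lit 0))
def n5491 : Nd := .arc (nat_lit 6) n5486 (.arc (nat_lit 52) n5456 (.arc (nat_lit 55) n5460 (.arc (nat_lit 58) n5463 (.fin (nat_lit 286961815) (nat_lit 0)))))
def n5492 : Nd := .arc (nat_lit 3) n5490 (.arc (nat_lit 6) n5491 (.fin (nat_lit 157454491) (nat_lit 0)))
def n5493 : Nd := .arc (nat_lit 6) n5489 (.fin (nat_lit 157462683) (nat_lit 0))
def n5494 : Nd := .arc (nat_lit 9) n5484 (.arc (nat_lit 64) n5424 (.arc (nat_lit 67) n5431 (.arc (nat_lit 70) n5428 (.fin (nat_lit 286945431) (nat_lit 0)))))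
def n5495 : Nd := .arc (nat_lit 3) n5493 (.arc (nat_lit 9) n5494 (.fin (nat_lit 90329245) (nat_lit 0)))
def n5496 : Nd := .arc (nat_lit 3) n5488 (.arc (nat_lit 6) n5492 (.arc (nat_lit 9) n5495 (.fin (nat_lit 555356313) (nat_lit 0))))
def n5497 : Nd := .arc (nat_lit 6) n5487 (.arc (nat_lit 9) n5485 (.fin (nat_lit 555364505) (nat_lit 0)))
def n5498 : Nd := .arc (nat_lit 14) n5419 (.arc (nat_lit 17) n5415 (.arc (nat_lit 20) n5400 (.arc (nat_lit 23) n5409 (.arc (nat_lit 50) n5432 (.arc (nat_lit 53) n5441 (.arc (nat_lit 56) n5451 (.arc (nat_lit 59) n5447 (.arc (nat_lit 62) n5464 (.arc (nat_lit 65) n5473 (.arc (nat_lit 68) n5483 (.arc (nat_lit 71) n5479 (.fin (nat_lit 555413657) (nat_lit 0)))))))))))))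
def n5499 : Nd := .arc (nat_lit 9) n5498 (.fin (nat_lit 157446299) (nat_lit 0))
def n5500 : Nd := .arc (nat_lit 6) n5484 (.arc (nat_lit 52) n5424 (.arc (nat_lit 55) n5428 (.arc (nat_lit 58) n5431 (.fin (nat_lit 555397273) (nat_lit 0)))))
def n5501 : Nd := .arc (nat_lit 3) n5499 (.arc (nat_lit 6) n5500 (.fin (nat_lit 90345629) (nat_lit 0)))
def n5502 : Nd := .arc (nat_lit 6) n5498 (.fin (nat_lit 90353821) (nat_lit 0))
def n5503 : Nd := .arc (nat_lit 9) n5486 (.arc (nat_lit 64) n5456 (.arc (nat_lit 67) n5463 (.arc (nat_lit 70) n5460 (.fin (nat_lit 555380889) (nat_lit 0)))))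
def n5504 : Nd := .arc (nat_lit 3) n5502 (.arc (nat_lit 9) n5503 (.fin (nat_lit 157438107) (nat_lit 0)))
def n5505 : Nd := .arc (nat_lit 3) n5497 (.arc (nat_lit 6) n5501 (.arc (nat_lit 9) n5504 (.fin (nat_lit 286920855) (nat_lit 0))))
def n5506 : Nd := .arc (nat_lit 3) n5498 (.fin (nat_lit 286970007) (nat_lit 0))
def n5507 : Nd := .arc (nat_lit 3) n5489 (.fin (nat_lit 555405465) (nat_lit 0))
def n5508 : Nd := .arc (nat_lit 6) n5506 (.arc (nat_lit 9) n5507 (.fin (nat_lit 157429915) (nat_lit 0)))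
def n5509 : Nd := .arc (nat_lit 3) n5494 (.arc (nat_lit 6) n5493 (.fin (nat_lit 555389081) (nat_lit 0)))
def n5510 : Nd := .arc (nat_lit 3) n5500 (.arc (nat_lit 9) n5499 (.fin (nat_lit 286937239) (nat_lit 0)))
def n5511 : Nd := .arc (nat_lit 3) n5508 (.arc (nat_lit 6) n5509 (.arc (nat_lit 9) n5510 (.fin (nat_lit 90312861) (nat_lit 0))))
def n5512 : Nd := .arc (nat_lit 6) n5507 (.arc (nat_lit 9) n5506 (.fin (nat_lit 90321053) (nat_lit 0)))
def n5513 : Nd := .arc (nat_lit 3) n5503 (.arc (nat_lit 6) n5502 (.fin (nat_lit 286953623) (nat_lit 0)))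
def n5514 : Nd := .arc (nat_lit 3) n5491 (.arc (nat_lit 9) n5490 (.fin (nat_lit 555372697) (nat_lit 0)))
def n5515 : Nd := .arc (nat_lit 3) n5512 (.arc (nat_lit 6) n5513 (.arc (nat_lit 9) n5514 (.fin (nat_lit 157421723) (nat_lit 0))))
def n5516 : Nd := .arc (nat_lit 26) n4888 (.arc (nat_lit 29) n4897 (.arc (nat_lit 32) n4903 (.arc (nat_lit 35) n4907 (.arc (nat_lit 38) n5176 (.arc (nat_lit 41) n5185 (.arc (nat_lit 44) n5191 (.arc (nat_lit 47) n5195 (.arc (nat_lit 50) n5368 (.arc (nat_lit 53) n5377 (.arc (nat_lit 56) n5383 (.arc (nat_lit 59) n5387 (.arc (nat_lit 62) n5496 (.arc (nat_lit 65) n5505 (.arc (nat_lit 68) n5511 (.arc (nat_lit 71) n5515 (.fin (nat_lit 604434581) (nat_lit 0)))))))))))))))))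
def n5517 : Nd := .arc (nat_lit 3) n5516 (.arc (nat_lit 40) n4880 (.arc (nat_lit 43) n4884 (.arc (nat_lit 46) n4887 (.fin (nat_lit 403099797) (nat_lit 0)))))
def n5518 : Nd := .arc (nat_lit 26) n5176 (.arc (nat_lit 29) n5185 (.arc (nat_lit 32) n5195 (.arc (nat_lit 35) n5191 (.arc (nat_lit 38) n4888 (.arc (nat_lit 41) n4897 (.arc (nat_lit 44) n4907 (.arc (nat_lit 47) n4903 (.arc (nat_lit 50) n5496 (.arc (nat_lit 53) n5505 (.arc (nat_lit 56) n5515 (.arc (nat_lit 59) n5511 (.arc (nat_lit 62) n5368 (.arc (nat_lit 65) n5377 (.arc (nat_lit 68) n5387 (.arc (nat_lit 71) n5383 (.fin (nat_lit 403107989) (nat_lit 0)))))))))))))))))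
def n5519 : Nd := .arc (nat_lit 3) n5518 (.arc (nat_lit 40) n5168 (.arc (nat_lit 43) n5172 (.arc (nat_lit 46) n5175 (.fin (nat_lit 604426389) (nat_lit 0)))))
def n5520 : Nd := .arc (nat_lit 6) n5517 (.arc (nat_lit 9) n5519 (.fin (nat_lit 671494293) (nat_lit 0)))
def n5521 : Nd := .arc (nat_lit 26) n5368 (.arc (nat_lit 29) n5377 (.arc (nat_lit 32) n5387 (.arc (nat_lit 35) n5383 (.arc (nat_lit 38) n5496 (.arc (nat_lit 41) n5505 (.arc (nat_lit 44) n5515 (.arc (nat_lit 47) n5511 (.arc (nat_lit 50) n5176 (.arc (nat_lit 53) n5185 (.arc (nat_lit 56) n5191 (.arc (nat_lit 59) n5195 (.arc (nat_lit 62) n4888 (.arc (nat_lit 65) n4897 (.arc (nat_lit 68) n4903 (.arc (nat_lit 71) n4907 (.fin (nat_lit 671543445) (nat_lit 0)))))))))))))))))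
def n5522 : Nd := .arc (nat_lit 9) n5521 (.arc (nat_lit 64) n5360 (.arc (nat_lit 67) n5367 (.arc (nat_lit 70) n5364 (.fin (nat_lit 403075221) (nat_lit 0)))))
def n5523 : Nd := .arc (nat_lit 6) n5518 (.arc (nat_lit 52) n5168 (.arc (nat_lit 55) n5172 (.arc (nat_lit 58) n5175 (.fin (nat_lit 671527061) (nat_lit 0)))))
def n5524 : Nd := .arc (nat_lit 3) n5522 (.arc (nat_lit 6) n5523 (.fin (nat_lit 604410005) (nat_lit 0)))
def n5525 : Nd := .arc (nat_lit 6) n5521 (.arc (nat_lit 52) n5360 (.arc (nat_lit 55) n5364 (.arc (nat_lit 58) n5367 (.fin (nat_lit 604418197) (nat_lit 0)))))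
def n5526 : Nd := .arc (nat_lit 9) n5516 (.arc (nat_lit 64) n4880 (.arc (nat_lit 67) n4887 (.arc (nat_lit 70) n4884 (.fin (nat_lit 671510677) (nat_lit 0)))))
def n5527 : Nd := .arc (nat_lit 3) n5525 (.arc (nat_lit 9) n5526 (.fin (nat_lit 403067029) (nat_lit 0)))
def n5528 : Nd := .arc (nat_lit 3) n5520 (.arc (nat_lit 6) n5524 (.arc (nat_lit 9) n5527 (.fin (nat_lit 335941781) (nat_lit 0))))
def n5529 : Nd := .arc (nat_lit 6) n5519 (.arc (nat_lit 9) n5517 (.fin (nat_lit 335949973) (nat_lit 0)))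
def n5530 : Nd := .arc (nat_lit 26) n5496 (.arc (nat_lit 29) n5505 (.arc (nat_lit 32) n5511 (.arc (nat_lit 35) n5515 (.arc (nat_lit 38) n5368 (.arc (nat_lit 41) n5377 (.arc (nat_lit 44) n5383 (.arc (nat_lit 47) n5387 (.arc (nat_lit 50) n4888 (.arc (nat_lit 53) n4897 (.arc (nat_lit 56) n4907 (.arc (nat_lit 59) n4903 (.arc (nat_lit 62) n5176 (.arc (nat_lit 65) n5185 (.arc (nat_lit 68) n5195 (.arc (nat_lit 71) n5191 (.fin (nat_lit 335999125) (nat_lit 0)))))))))))))))))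
def n5531 : Nd := .arc (nat_lit 9) n5530 (.arc (nat_lit 64) n5488 (.arc (nat_lit 67) n5495 (.arc (nat_lit 70) n5492 (.fin (nat_lit 604401813) (nat_lit 0)))))
def n5532 : Nd := .arc (nat_lit 6) n5516 (.arc (nat_lit 52) n4880 (.arc (nat_lit 55) n4884 (.arc (nat_lit 58) n4887 (.fin (nat_lit 335982741) (nat_lit 0)))))
def n5533 : Nd := .arc (nat_lit 3) n5531 (.arc (nat_lit 6) n5532 (.fin (nat_lit 403083413) (nat_lit 0)))
def n5534 : Nd := .arc (nat_lit 6) n5530 (.arc (nat_lit 52) n5488 (.arc (nat_lit 55) n5492 (.arc (nat_lit 58) n5495 (.fin (nat_lit 403091605) (nat_lit 0)))))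
def n5535 : Nd := .arc (nat_lit 9) n5518 (.arc (nat_lit 64) n5168 (.arc (nat_lit 67) n5175 (.arc (nat_lit 70) n5172 (.fin (nat_lit 335966357) (nat_lit 0)))))
def n5536 : Nd := .arc (nat_lit 3) n5534 (.arc (nat_lit 9) n5535 (.fin (nat_lit 604393621) (nat_lit 0)))
def n5537 : Nd := .arc (nat_lit 3) n5529 (.arc (nat_lit 6) n5533 (.arc (nat_lit 9) n5536 (.fin (nat_lit 671486101) (nat_lit 0))))
def n5538 : Nd := .arc (nat_lit 3) n5530 (.arc (nat_lit 40) n5488 (.arc (nat_lit 43) n5492 (.arc (nat_lit 46) n5495 (.fin (nat_lit 671535253) (nat_lit 0)))))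
def n5539 : Nd := .arc (nat_lit 3) n5521 (.arc (nat_lit 40) n5360 (.arc (nat_lit 43) n5364 (.arc (nat_lit 46) n5367 (.fin (nat_lit 335990933) (nat_lit 0)))))
def n5540 : Nd := .arc (nat_lit 6) n5538 (.arc (nat_lit 9) n5539 (.fin (nat_lit 604385429) (nat_lit 0)))
def n5541 : Nd := .arc (nat_lit 3) n5526 (.arc (nat_lit 6) n5525 (.fin (nat_lit 335974549) (nat_lit 0)))
def n5542 : Nd := .arc (nat_lit 3) n5532 (.arc (nat_lit 9) n5531 (.fin (nat_lit 671502485) (nat_lit 0)))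
def n5543 : Nd := .arc (nat_lit 3) n5540 (.arc (nat_lit 6) n5541 (.arc (nat_lit 9) n5542 (.fin (nat_lit 403050645) (nat_lit 0))))
def n5544 : Nd := .arc (nat_lit 6) n5539 (.arc (nat_lit 9) n5538 (.fin (nat_lit 403058837) (nat_lit 0)))
def n5545 : Nd := .arc (nat_lit 3) n5535 (.arc (nat_lit 6) n5534 (.fin (nat_lit 671518869) (nat_lit 0)))
def n5546 : Nd := .arc (nat_lit 3) n5523 (.arc (nat_lit 9) n5522 (.fin (nat_lit 335958165) (nat_lit 0)))
def n5547 : Nd := .arc (nat_lit 3) n5544 (.arc (nat_lit 6) n5545 (.arc (nat_lit 9) n5546 (.fin (nat_lit 604377237) (nat_lit 0))))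
def n5548 : Nd := .arc (nat_lit 26) n5223 (.arc (nat_lit 29) n5227 (.arc (nat_lit 32) n5208 (.arc (nat_lit 35) n5217 (.arc (nat_lit 38) n5255 (.arc (nat_lit 41) n5259 (.arc (nat_lit 44) n5240 (.arc (nat_lit 47) n5249 (.fin (nat_lit 409399445) (nat_lit 0)))))))))
def n5549 : Nd := .arc (nat_lit 3) n5548 (.arc (nat_lit 40) n5220 (.arc (nat_lit 43) n5221 (.arc (nat_lit 46) n5222 (.fin (nat_lit 610717845) (nat_lit 0)))))
def n5550 : Nd := .arc (nat_lit 26) n5255 (.arc (nat_lit 29) n5259 (.arc (nat_lit 32) n5249 (.arc (nat_lit 35) n5240 (.arc (nat_lit 38) n5223 (.arc (nat_lit 41) n5227 (.arc (nat_lit 44) n5217 (.arc (nat_lit 47) n5208 (.fin (nat_lit 610726037) (nat_lit 0)))))))))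
def n5551 : Nd := .arc (nat_lit 3) n5550 (.arc (nat_lit 40) n5252 (.arc (nat_lit 43) n5253 (.arc (nat_lit 46) n5254 (.fin (nat_lit 409391253) (nat_lit 0)))))
def n5552 : Nd := .arc (nat_lit 6) n5549 (.arc (nat_lit 9) n5551 (.fin (nat_lit 337522837) (nat_lit 0)))
def n5553 : Nd := .arc (nat_lit 50) n5255 (.arc (nat_lit 53) n5259 (.arc (nat_lit 56) n5240 (.arc (nat_lit 59) n5249 (.arc (nat_lit 62) n5223 (.arc (nat_lit 65) n5227 (.arc (nat_lit 68) n5208 (.arc (nat_lit 71) n5217 (.fin (nat_lit 337571989) (nat_lit 0)))))))))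
def n5554 : Nd := .arc (nat_lit 9) n5553 (.fin (nat_lit 610693269) (nat_lit 0))
def n5555 : Nd := .arc (nat_lit 6) n5550 (.arc (nat_lit 52) n5252 (.arc (nat_lit 55) n5253 (.arc (nat_lit 58) n5254 (.fin (nat_lit 337555605) (nat_lit 0)))))
def n5556 : Nd := .arc (nat_lit 3) n5554 (.arc (nat_lit 6) n5555 (.fin (nat_lit 409374869) (nat_lit 0)))
def n5557 : Nd := .arc (nat_lit 6) n5553 (.fin (nat_lit 409383061) (nat_lit 0))
def n5558 : Nd := .arc (nat_lit 9) n5548 (.arc (nat_lit 64) n5220 (.arc (nat_lit 67) n5222 (.arc (nat_lit 70) n5221 (.fin (nat_lit 337539221) (nat_lit 0)))))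
def n5559 : Nd := .arc (nat_lit 3) n5557 (.arc (nat_lit 9) n5558 (.fin (nat_lit 610685077) (nat_lit 0)))
def n5560 : Nd := .arc (nat_lit 3) n5552 (.arc (nat_lit 6) n5556 (.arc (nat_lit 9) n5559 (.fin (nat_lit 673058965) (nat_lit 0))))
def n5561 : Nd := .arc (nat_lit 6) n5551 (.arc (nat_lit 9) n5549 (.fin (nat_lit 673067157) (nat_lit 0)))
def n5562 : Nd := .arc (nat_lit 50) n5223 (.arc (nat_lit 53) n5227 (.arc (nat_lit 56) n5217 (.arc (nat_lit 59) n5208 (.arc (nat_lit 62) n5255 (.arc (nat_lit 65) n5259 (.arc (nat_lit 68) n5249 (.arc (nat_lit 71) n5240 (.fin (nat_lit 673116309) (nat_lit 0)))))))))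
def n5563 : Nd := .arc (nat_lit 9) n5562 (.fin (nat_lit 409366677) (nat_lit 0))
def n5564 : Nd := .arc (nat_lit 6) n5548 (.arc (nat_lit 52) n5220 (.arc (nat_lit 55) n5221 (.arc (nat_lit 58) n5222 (.fin (nat_lit 673099925) (nat_lit 0)))))
def n5565 : Nd := .arc (nat_lit 3) n5563 (.arc (nat_lit 6) n5564 (.fin (nat_lit 610701461) (nat_lit 0)))
def n5566 : Nd := .arc (nat_lit 6) n5562 (.fin (nat_lit 610709653) (nat_lit 0))
def n5567 : Nd := .arc (nat_lit 9) n5550 (.arc (nat_lit 64) n5252 (.arc (nat_lit 67) n5254 (.arc (nat_lit 70) n5253 (.fin (nat_lit 673083541) (nat_lit 0)))))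
def n5568 : Nd := .arc (nat_lit 3) n5566 (.arc (nat_lit 9) n5567 (.fin (nat_lit 409358485) (nat_lit 0)))
def n5569 : Nd := .arc (nat_lit 3) n5561 (.arc (nat_lit 6) n5565 (.arc (nat_lit 9) n5568 (.fin (nat_lit 337514645) (nat_lit 0))))
def n5570 : Nd := .arc (nat_lit 3) n5553 (.fin (nat_lit 673108117) (nat_lit 0))
def n5571 : Nd := .arc (nat_lit 3) n5562 (.fin (nat_lit 337563797) (nat_lit 0))
def n5572 : Nd := .arc (nat_lit 6) n5570 (.arc (nat_lit 9) n5571 (.fin (nat_lit 610676885) (nat_lit 0)))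
def n5573 : Nd := .arc (nat_lit 3) n5567 (.arc (nat_lit 6) n5566 (.fin (nat_lit 337547413) (nat_lit 0)))
def n5574 : Nd := .arc (nat_lit 3) n5555 (.arc (nat_lit 9) n5554 (.fin (nat_lit 673075349) (nat_lit 0)))
def n5575 : Nd := .arc (nat_lit 3) n5572 (.arc (nat_lit 6) n5573 (.arc (nat_lit 9) n5574 (.fin (nat_lit 409342101) (nat_lit 0))))
def n5576 : Nd := .arc (nat_lit 6) n5571 (.arc (nat_lit 9) n5570 (.fin (nat_lit 409350293) (nat_lit 0)))
def n5577 : Nd := .arc (nat_lit 3) n5558 (.arc (nat_lit 6) n5557 (.fin (nat_lit 673091733) (nat_lit 0)))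
def n5578 : Nd := .arc (nat_lit 3) n5564 (.arc (nat_lit 9) n5563 (.fin (nat_lit 337531029) (nat_lit 0)))
def n5579 : Nd := .arc (nat_lit 3) n5576 (.arc (nat_lit 6) n5577 (.arc (nat_lit 9) n5578 (.fin (nat_lit 610668693) (nat_lit 0))))
def n5580 : Nd := .arc (nat_lit 14) n4489 (.arc (nat_lit 20) n4491 (.fin (nat_lit 679407765) (nat_lit 0)))
def n5581 : Nd := .arc (nat_lit 3) n5580 (.fin (nat_lit 343855253) (nat_lit 0))
def n5582 : Nd := .arc (nat_lit 17) n4489 (.arc (nat_lit 23) n4491 (.fin (nat_lit 343863445) (nat_lit 0)))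
def n5583 : Nd := .arc (nat_lit 3) n5582 (.fin (nat_lit 679399573) (nat_lit 0))
def n5584 : Nd := .arc (nat_lit 6) n5581 (.arc (nat_lit 9) n5583 (.fin (nat_lit 410923157) (nat_lit 0)))
def n5585 : Nd := .arc (nat_lit 14) n4491 (.arc (nat_lit 23) n4489 (.fin (nat_lit 410972309) (nat_lit 0)))
def n5586 : Nd := .arc (nat_lit 9) n5585 (.fin (nat_lit 343830677) (nat_lit 0))
def n5587 : Nd := .arc (nat_lit 6) n5582 (.fin (nat_lit 410955925) (nat_lit 0))
def n5588 : Nd := .arc (nat_lit 3) n5586 (.arc (nat_lit 6) n5587 (.fin (nat_lit 679383189) (nat_lit 0)))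
def n5589 : Nd := .arc (nat_lit 6) n5585 (.fin (nat_lit 679391381) (nat_lit 0))
def n5590 : Nd := .arc (nat_lit 9) n5580 (.fin (nat_lit 410939541) (nat_lit 0))
def n5591 : Nd := .arc (nat_lit 3) n5589 (.arc (nat_lit 9) n5590 (.fin (nat_lit 343822485) (nat_lit 0)))
def n5592 : Nd := .arc (nat_lit 3) n5584 (.arc (nat_lit 6) n5588 (.arc (nat_lit 9) n5591 (.fin (nat_lit 612241557) (nat_lit 0))))
def n5593 : Nd := .arc (nat_lit 6) n5583 (.arc (nat_lit 9) n5581 (.fin (nat_lit 612249749) (nat_lit 0)))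
def n5594 : Nd := .arc (nat_lit 17) n4491 (.arc (nat_lit 20) n4489 (.fin (nat_lit 612298901) (nat_lit 0)))
def n5595 : Nd := .arc (nat_lit 9) n5594 (.fin (nat_lit 679374997) (nat_lit 0))
def n5596 : Nd := .arc (nat_lit 6) n5580 (.fin (nat_lit 612282517) (nat_lit 0))
def n5597 : Nd := .arc (nat_lit 3) n5595 (.arc (nat_lit 6) n5596 (.fin (nat_lit 343838869) (nat_lit 0)))
def n5598 : Nd := .arc (nat_lit 6) n5594 (.fin (nat_lit 343847061) (nat_lit 0))
def n5599 : Nd := .arc (nat_lit 9) n5582 (.fin (nat_lit 612266133) (nat_lit 0))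
def n5600 : Nd := .arc (nat_lit 3) n5598 (.arc (nat_lit 9) n5599 (.fin (nat_lit 679366805) (nat_lit 0)))
def n5601 : Nd := .arc (nat_lit 3) n5593 (.arc (nat_lit 6) n5597 (.arc (nat_lit 9) n5600 (.fin (nat_lit 410914965) (nat_lit 0))))
def n5602 : Nd := .arc (nat_lit 3) n5585 (.fin (nat_lit 612290709) (nat_lit 0))
def n5603 : Nd := .arc (nat_lit 3) n5594 (.fin (nat_lit 410964117) (nat_lit 0))
def n5604 : Nd := .arc (nat_lit 6) n5602 (.arc (nat_lit 9) n5603 (.fin (nat_lit 343814293) (nat_lit 0)))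
def n5605 : Nd := .arc (nat_lit 3) n5599 (.arc (nat_lit 6) n5598 (.fin (nat_lit 410947733) (nat_lit 0)))
def n5606 : Nd := .arc (nat_lit 3) n5587 (.arc (nat_lit 9) n5586 (.fin (nat_lit 612257941) (nat_lit 0)))
def n5607 : Nd := .arc (nat_lit 3) n5604 (.arc (nat_lit 6) n5605 (.arc (nat_lit 9) n5606 (.fin (nat_lit 679350421) (nat_lit 0))))
def n5608 : Nd := .arc (nat_lit 6) n5603 (.arc (nat_lit 9) n5602 (.fin (nat_lit 679358613) (nat_lit 0)))
def n5609 : Nd := .arc (nat_lit 3) n5590 (.arc (nat_lit 6) n5589 (.fin (nat_lit 612274325) (nat_lit 0)))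
def n5610 : Nd := .arc (nat_lit 3) n5596 (.arc (nat_lit 9) n5595 (.fin (nat_lit 410931349) (nat_lit 0)))
def n5611 : Nd := .arc (nat_lit 3) n5608 (.arc (nat_lit 6) n5609 (.arc (nat_lit 9) n5610 (.fin (nat_lit 343806101) (nat_lit 0))))
def n5612 : Nd := .arc (nat_lit 50) n5592 (.arc (nat_lit 53) n5601 (.arc (nat_lit 56) n5607 (.arc (nat_lit 59) n5611 (.fin (nat_lit 157216925) (nat_lit 0)))))
def n5613 : Nd := .arc (nat_lit 3) n5612 (.fin (nat_lit 88002715) (nat_lit 0))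
def n5614 : Nd := .arc (nat_lit 62) n5592 (.arc (nat_lit 65) n5601 (.arc (nat_lit 68) n5611 (.arc (nat_lit 71) n5607 (.fin (nat_lit 88010907) (nat_lit 0)))))
def n5615 : Nd := .arc (nat_lit 3) n5614 (.fin (nat_lit 157208733) (nat_lit 0))
def n5616 : Nd := .arc (nat_lit 6) n5613 (.arc (nat_lit 9) n5615 (.fin (nat_lit 292958361) (nat_lit 0)))
def n5617 : Nd := .arc (nat_lit 26) n5592 (.arc (nat_lit 29) n5601 (.arc (nat_lit 32) n5611 (.arc (nat_lit 35) n5607 (.fin (nat_lit 293007513) (nat_lit 0)))))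
def n5618 : Nd := .arc (nat_lit 9) n5617 (.arc (nat_lit 64) n5584 (.arc (nat_lit 67) n5591 (.arc (nat_lit 70) n5588 (.fin (nat_lit 87978139) (nat_lit 0)))))
def n5619 : Nd := .arc (nat_lit 6) n5614 (.fin (nat_lit 292991129) (nat_lit 0))
def n5620 : Nd := .arc (nat_lit 3) n5618 (.arc (nat_lit 6) n5619 (.fin (nat_lit 157192349) (nat_lit 0)))
def n5621 : Nd := .arc (nat_lit 6) n5617 (.arc (nat_lit 52) n5584 (.arc (nat_lit 55) n5588 (.arc (nat_lit 58) n5591 (.fin (nat_lit 157200541) (nat_lit 0)))))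
def n5622 : Nd := .arc (nat_lit 9) n5612 (.fin (nat_lit 292974745) (nat_lit 0))
def n5623 : Nd := .arc (nat_lit 3) n5621 (.arc (nat_lit 9) n5622 (.fin (nat_lit 87969947) (nat_lit 0)))
def n5624 : Nd := .arc (nat_lit 3) n5616 (.arc (nat_lit 6) n5620 (.arc (nat_lit 9) n5623 (.fin (nat_lit 560861335) (nat_lit 0))))
def n5625 : Nd := .arc (nat_lit 6) n5615 (.arc (nat_lit 9) n5613 (.fin (nat_lit 560869527) (nat_lit 0)))
def n5626 : Nd := .arc (nat_lit 38) n5592 (.arc (nat_lit 41) n5601 (.arc (nat_lit 44) n5607 (.arc (nat_lit 47) n5611 (.fin (nat_lit 560918679) (nat_lit 0)))))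
def n5627 : Nd := .arc (nat_lit 9) n5626 (.fin (nat_lit 157184157) (nat_lit 0))
def n5628 : Nd := .arc (nat_lit 6) n5612 (.fin (nat_lit 560902295) (nat_lit 0))
def n5629 : Nd := .arc (nat_lit 3) n5627 (.arc (nat_lit 6) n5628 (.fin (nat_lit 87986331) (nat_lit 0)))
def n5630 : Nd := .arc (nat_lit 6) n5626 (.fin (nat_lit 87994523) (nat_lit 0))
def n5631 : Nd := .arc (nat_lit 9) n5614 (.fin (nat_lit 560885911) (nat_lit 0))
def n5632 : Nd := .arc (nat_lit 3) n5630 (.arc (nat_lit 9) n5631 (.fin (nat_lit 157175965) (nat_lit 0)))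
def n5633 : Nd := .arc (nat_lit 3) n5625 (.arc (nat_lit 6) n5629 (.arc (nat_lit 9) n5632 (.fin (nat_lit 292950169) (nat_lit 0))))
def n5634 : Nd := .arc (nat_lit 3) n5626 (.fin (nat_lit 292999321) (nat_lit 0))
def n5635 : Nd := .arc (nat_lit 3) n5617 (.arc (nat_lit 40) n5584 (.arc (nat_lit 43) n5588 (.arc (nat_lit 46) n5591 (.fin (nat_lit 560910487) (nat_lit 0)))))
def n5636 : Nd := .arc (nat_lit 6) n5634 (.arc (nat_lit 9) n5635 (.fin (nat_lit 157167773) (nat_lit 0)))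
def n5637 : Nd := .arc (nat_lit 3) n5622 (.arc (nat_lit 6) n5621 (.fin (nat_lit 560894103) (nat_lit 0)))
def n5638 : Nd := .arc (nat_lit 3) n5628 (.arc (nat_lit 9) n5627 (.fin (nat_lit 292966553) (nat_lit 0)))
def n5639 : Nd := .arc (nat_lit 3) n5636 (.arc (nat_lit 6) n5637 (.arc (nat_lit 9) n5638 (.fin (nat_lit 87953563) (nat_lit 0))))
def n5640 : Nd := .arc (nat_lit 6) n5635 (.arc (nat_lit 9) n5634 (.fin (nat_lit 87961755) (nat_lit 0)))
def n5641 : Nd := .arc (nat_lit 3) n5631 (.arc (nat_lit 6) n5630 (.fin (nat_lit 292982937) (nat_lit 0)))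
def n5642 : Nd := .arc (nat_lit 3) n5619 (.arc (nat_lit 9) n5618 (.fin (nat_lit 560877719) (nat_lit 0)))
def n5643 : Nd := .arc (nat_lit 3) n5640 (.arc (nat_lit 6) n5641 (.arc (nat_lit 9) n5642 (.fin (nat_lit 157159581) (nat_lit 0))))
def n5644 : Nd := .arc (nat_lit 50) n4971 (.arc (nat_lit 53) n4967 (.arc (nat_lit 56) n4952 (.arc (nat_lit 59) n4961 (.fin (nat_lit 341766293) (nat_lit 0)))))
def n5645 : Nd := .arc (nat_lit 3) n5644 (.fin (nat_lit 675205269) (nat_lit 0))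
def n5646 : Nd := .arc (nat_lit 62) n4971 (.arc (nat_lit 65) n4967 (.arc (nat_lit 68) n4961 (.arc (nat_lit 71) n4952 (.fin (nat_lit 675213461) (nat_lit 0)))))
def n5647 : Nd := .arc (nat_lit 3) n5646 (.fin (nat_lit 341758101) (nat_lit 0))
def n5648 : Nd := .arc (nat_lit 6) n5645 (.arc (nat_lit 9) n5647 (.fin (nat_lit 611725461) (nat_lit 0)))
def n5649 : Nd := .arc (nat_lit 26) n4971 (.arc (nat_lit 29) n4967 (.arc (nat_lit 32) n4961 (.arc (nat_lit 35) n4952 (.fin (nat_lit 611774613) (nat_lit 0)))))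
def n5650 : Nd := .arc (nat_lit 9) n5649 (.arc (nat_lit 64) n4968 (.arc (nat_lit 67) n4970 (.arc (nat_lit 70) n4969 (.fin (nat_lit 675180693) (nat_lit 0)))))
def n5651 : Nd := .arc (nat_lit 6) n5646 (.fin (nat_lit 611758229) (nat_lit 0))
def n5652 : Nd := .arc (nat_lit 3) n5650 (.arc (nat_lit 6) n5651 (.fin (nat_lit 341741717) (nat_lit 0)))
def n5653 : Nd := .arc (nat_lit 6) n5649 (.arc (nat_lit 52) n4968 (.arc (nat_lit 55) n4969 (.arc (nat_lit 58) n4970 (.fin (nat_lit 341749909) (nat_lit 0)))))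
def n5654 : Nd := .arc (nat_lit 9) n5644 (.fin (nat_lit 611741845) (nat_lit 0))
def n5655 : Nd := .arc (nat_lit 3) n5653 (.arc (nat_lit 9) n5654 (.fin (nat_lit 675172501) (nat_lit 0)))
def n5656 : Nd := .arc (nat_lit 3) n5648 (.arc (nat_lit 6) n5652 (.arc (nat_lit 9) n5655 (.fin (nat_lit 409866389) (nat_lit 0))))
def n5657 : Nd := .arc (nat_lit 6) n5647 (.arc (nat_lit 9) n5645 (.fin (nat_lit 409874581) (nat_lit 0)))
def n5658 : Nd := .arc (nat_lit 38) n4971 (.arc (nat_lit 41) n4967 (.arc (nat_lit 44) n4952 (.arc (nat_lit 47) n4961 (.fin (nat_lit 409923733) (nat_lit 0)))))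
def n5659 : Nd := .arc (nat_lit 9) n5658 (.fin (nat_lit 341733525) (nat_lit 0))
def n5660 : Nd := .arc (nat_lit 6) n5644 (.fin (nat_lit 409907349) (nat_lit 0))
def n5661 : Nd := .arc (nat_lit 3) n5659 (.arc (nat_lit 6) n5660 (.fin (nat_lit 675188885) (nat_lit 0)))
def n5662 : Nd := .arc (nat_lit 6) n5658 (.fin (nat_lit 675197077) (nat_lit 0))
def n5663 : Nd := .arc (nat_lit 9) n5646 (.fin (nat_lit 409890965) (nat_lit 0))
def n5664 : Nd := .arc (nat_lit 3) n5662 (.arc (nat_lit 9) n5663 (.fin (nat_lit 341725333) (nat_lit 0)))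
def n5665 : Nd := .arc (nat_lit 3) n5657 (.arc (nat_lit 6) n5661 (.arc (nat_lit 9) n5664 (.fin (nat_lit 611717269) (nat_lit 0))))
def n5666 : Nd := .arc (nat_lit 3) n5649 (.arc (nat_lit 40) n4968 (.arc (nat_lit 43) n4969 (.arc (nat_lit 46) n4970 (.fin (nat_lit 409915541) (nat_lit 0)))))
def n5667 : Nd := .arc (nat_lit 3) n5658 (.fin (nat_lit 611766421) (nat_lit 0))
def n5668 : Nd := .arc (nat_lit 6) n5666 (.arc (nat_lit 9) n5667 (.fin (nat_lit 675164309) (nat_lit 0)))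
def n5669 : Nd := .arc (nat_lit 3) n5663 (.arc (nat_lit 6) n5662 (.fin (nat_lit 611750037) (nat_lit 0)))
def n5670 : Nd := .arc (nat_lit 3) n5651 (.arc (nat_lit 9) n5650 (.fin (nat_lit 409882773) (nat_lit 0)))
def n5671 : Nd := .arc (nat_lit 3) n5668 (.arc (nat_lit 6) n5669 (.arc (nat_lit 9) n5670 (.fin (nat_lit 341708949) (nat_lit 0))))
def n5672 : Nd := .arc (nat_lit 6) n5667 (.arc (nat_lit 9) n5666 (.fin (nat_lit 341717141) (nat_lit 0)))
def n5673 : Nd := .arc (nat_lit 3) n5654 (.arc (nat_lit 6) n5653 (.fin (nat_lit 409899157) (nat_lit 0)))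
def n5674 : Nd := .arc (nat_lit 3) n5660 (.arc (nat_lit 9) n5659 (.fin (nat_lit 611733653) (nat_lit 0)))
def n5675 : Nd := .arc (nat_lit 3) n5672 (.arc (nat_lit 6) n5673 (.arc (nat_lit 9) n5674 (.fin (nat_lit 675156117) (nat_lit 0))))
def n5676 : Nd := .arc (nat_lit 14) n5624 (.arc (nat_lit 17) n5633 (.arc (nat_lit 20) n5639 (.arc (nat_lit 23) n5643 (.arc (nat_lit 38) n5656 (.arc (nat_lit 41) n5665 (.arc (nat_lit 44) n5671 (.arc (nat_lit 47) n5675 (.fin (nat_lit 308998295) (nat_lit 0)))))))))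
def n5677 : Nd := .arc (nat_lit 3) n5676 (.fin (nat_lit 577949849) (nat_lit 0))
def n5678 : Nd := .arc (nat_lit 14) n5633 (.arc (nat_lit 17) n5624 (.arc (nat_lit 20) n5643 (.arc (nat_lit 23) n5639 (.arc (nat_lit 26) n5656 (.arc (nat_lit 29) n5665 (.arc (nat_lit 32) n5675 (.arc (nat_lit 35) n5671 (.fin (nat_lit 577958041) (nat_lit 0)))))))))
def n5679 : Nd := .arc (nat_lit 3) n5678 (.arc (nat_lit 40) n5648 (.arc (nat_lit 43) n5652 (.arc (nat_lit 46) n5655 (.fin (nat_lit 308990103) (nat_lit 0)))))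
def n5680 : Nd := .arc (nat_lit 6) n5677 (.arc (nat_lit 9) n5679 (.fin (nat_lit 106573981) (nat_lit 0)))
def n5681 : Nd := .arc (nat_lit 14) n5639 (.arc (nat_lit 17) n5643 (.arc (nat_lit 20) n5633 (.arc (nat_lit 23) n5624 (.arc (nat_lit 50) n5656 (.arc (nat_lit 53) n5665 (.arc (nat_lit 56) n5671 (.arc (nat_lit 59) n5675 (.fin (nat_lit 106623133) (nat_lit 0)))))))))
def n5682 : Nd := .arc (nat_lit 9) n5681 (.fin (nat_lit 577925273) (nat_lit 0))
def n5683 : Nd := .arc (nat_lit 6) n5678 (.arc (nat_lit 52) n5648 (.arc (nat_lit 55) n5652 (.arc (nat_lit 58) n5655 (.fin (nat_lit 106606749) (nat_lit 0)))))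
def n5684 : Nd := .arc (nat_lit 3) n5682 (.arc (nat_lit 6) n5683 (.fin (nat_lit 308973719) (nat_lit 0)))
def n5685 : Nd := .arc (nat_lit 6) n5681 (.fin (nat_lit 308981911) (nat_lit 0))
def n5686 : Nd := .arc (nat_lit 9) n5676 (.fin (nat_lit 106590365) (nat_lit 0))
def n5687 : Nd := .arc (nat_lit 3) n5685 (.arc (nat_lit 9) n5686 (.fin (nat_lit 577917081) (nat_lit 0)))
def n5688 : Nd := .arc (nat_lit 3) n5680 (.arc (nat_lit 6) n5684 (.arc (nat_lit 9) n5687 (.fin (nat_lit 171577499) (nat_lit 0))))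
def n5689 : Nd := .arc (nat_lit 6) n5679 (.arc (nat_lit 9) n5677 (.fin (nat_lit 171585691) (nat_lit 0)))
def n5690 : Nd := .arc (nat_lit 14) n5643 (.arc (nat_lit 17) n5639 (.arc (nat_lit 20) n5624 (.arc (nat_lit 23) n5633 (.arc (nat_lit 62) n5656 (.arc (nat_lit 65) n5665 (.arc (nat_lit 68) n5675 (.arc (nat_lit 71) n5671 (.fin (nat_lit 171634843) (nat_lit 0)))))))))
def n5691 : Nd := .arc (nat_lit 9) n5690 (.fin (nat_lit 308965527) (nat_lit 0))
def n5692 : Nd := .arc (nat_lit 6) n5676 (.fin (nat_lit 171618459) (nat_lit 0))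
def n5693 : Nd := .arc (nat_lit 3) n5691 (.arc (nat_lit 6) n5692 (.fin (nat_lit 577933465) (nat_lit 0)))
def n5694 : Nd := .arc (nat_lit 6) n5690 (.fin (nat_lit 577941657) (nat_lit 0))
def n5695 : Nd := .arc (nat_lit 9) n5678 (.arc (nat_lit 64) n5648 (.arc (nat_lit 67) n5655 (.arc (nat_lit 70) n5652 (.fin (nat_lit 171602075) (nat_lit 0)))))
def n5696 : Nd := .arc (nat_lit 3) n5694 (.arc (nat_lit 9) n5695 (.fin (nat_lit 308957335) (nat_lit 0)))
def n5697 : Nd := .arc (nat_lit 3) n5689 (.arc (nat_lit 6) n5693 (.arc (nat_lit 9) n5696 (.fin (nat_lit 106565789) (nat_lit 0))))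
def n5698 : Nd := .arc (nat_lit 3) n5681 (.fin (nat_lit 171626651) (nat_lit 0))
def n5699 : Nd := .arc (nat_lit 3) n5690 (.fin (nat_lit 106614941) (nat_lit 0))
def n5700 : Nd := .arc (nat_lit 6) n5698 (.arc (nat_lit 9) n5699 (.fin (nat_lit 577908889) (nat_lit 0)))
def n5701 : Nd := .arc (nat_lit 3) n5695 (.arc (nat_lit 6) n5694 (.fin (nat_lit 106598557) (nat_lit 0)))
def n5702 : Nd := .arc (nat_lit 3) n5683 (.arc (nat_lit 9) n5682 (.fin (nat_lit 171593883) (nat_lit 0)))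
def n5703 : Nd := .arc (nat_lit 3) n5700 (.arc (nat_lit 6) n5701 (.arc (nat_lit 9) n5702 (.fin (nat_lit 308940951) (nat_lit 0))))
def n5704 : Nd := .arc (nat_lit 6) n5699 (.arc (nat_lit 9) n5698 (.fin (nat_lit 308949143) (nat_lit 0)))
def n5705 : Nd := .arc (nat_lit 3) n5686 (.arc (nat_lit 6) n5685 (.fin (nat_lit 171610267) (nat_lit 0)))
def n5706 : Nd := .arc (nat_lit 3) n5692 (.arc (nat_lit 9) n5691 (.fin (nat_lit 106582173) (nat_lit 0)))
def n5707 : Nd := .arc (nat_lit 3) n5704 (.arc (nat_lit 6) n5705 (.arc (nat_lit 9) n5706 (.fin (nat_lit 577900697) (nat_lit 0))))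
def n5708 : Nd := .arc (nat_lit 62) n5601 (.arc (nat_lit 65) n5592 (.arc (nat_lit 68) n5607 (.arc (nat_lit 71) n5611 (.fin (nat_lit 171896987) (nat_lit 0)))))
def n5709 : Nd := .arc (nat_lit 3) n5708 (.fin (nat_lit 106877085) (nat_lit 0))
def n5710 : Nd := .arc (nat_lit 50) n5601 (.arc (nat_lit 53) n5592 (.arc (nat_lit 56) n5611 (.arc (nat_lit 59) n5607 (.fin (nat_lit 106885277) (nat_lit 0)))))
def n5711 : Nd := .arc (nat_lit 3) n5710 (.fin (nat_lit 171888795) (nat_lit 0))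
def n5712 : Nd := .arc (nat_lit 6) n5709 (.arc (nat_lit 9) n5711 (.fin (nat_lit 309211287) (nat_lit 0)))
def n5713 : Nd := .arc (nat_lit 38) n5601 (.arc (nat_lit 41) n5592 (.arc (nat_lit 44) n5611 (.arc (nat_lit 47) n5607 (.fin (nat_lit 309260439) (nat_lit 0)))))
def n5714 : Nd := .arc (nat_lit 9) n5713 (.fin (nat_lit 106852509) (nat_lit 0))
def n5715 : Nd := .arc (nat_lit 6) n5710 (.fin (nat_lit 309244055) (nat_lit 0))
def n5716 : Nd := .arc (nat_lit 3) n5714 (.arc (nat_lit 6) n5715 (.fin (nat_lit 171872411) (nat_lit 0)))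
def n5717 : Nd := .arc (nat_lit 6) n5713 (.fin (nat_lit 171880603) (nat_lit 0))
def n5718 : Nd := .arc (nat_lit 9) n5708 (.fin (nat_lit 309227671) (nat_lit 0))
def n5719 : Nd := .arc (nat_lit 3) n5717 (.arc (nat_lit 9) n5718 (.fin (nat_lit 106844317) (nat_lit 0)))
def n5720 : Nd := .arc (nat_lit 3) n5712 (.arc (nat_lit 6) n5716 (.arc (nat_lit 9) n5719 (.fin (nat_lit 578162841) (nat_lit 0))))
def n5721 : Nd := .arc (nat_lit 6) n5711 (.arc (nat_lit 9) n5709 (.fin (nat_lit 578171033) (nat_lit 0)))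
def n5722 : Nd := .arc (nat_lit 26) n5601 (.arc (nat_lit 29) n5592 (.arc (nat_lit 32) n5607 (.arc (nat_lit 35) n5611 (.fin (nat_lit 578220185) (nat_lit 0)))))
def n5723 : Nd := .arc (nat_lit 9) n5722 (.arc (nat_lit 64) n5593 (.arc (nat_lit 67) n5600 (.arc (nat_lit 70) n5597 (.fin (nat_lit 171864219) (nat_lit 0)))))
def n5724 : Nd := .arc (nat_lit 6) n5708 (.fin (nat_lit 578203801) (nat_lit 0))
def n5725 : Nd := .arc (nat_lit 3) n5723 (.arc (nat_lit 6) n5724 (.fin (nat_lit 106860701) (nat_lit 0)))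
def n5726 : Nd := .arc (nat_lit 6) n5722 (.arc (nat_lit 52) n5593 (.arc (nat_lit 55) n5597 (.arc (nat_lit 58) n5600 (.fin (nat_lit 106868893) (nat_lit 0)))))
def n5727 : Nd := .arc (nat_lit 9) n5710 (.fin (nat_lit 578187417) (nat_lit 0))
def n5728 : Nd := .arc (nat_lit 3) n5726 (.arc (nat_lit 9) n5727 (.fin (nat_lit 171856027) (nat_lit 0)))
def n5729 : Nd := .arc (nat_lit 3) n5721 (.arc (nat_lit 6) n5725 (.arc (nat_lit 9) n5728 (.fin (nat_lit 309203095) (nat_lit 0))))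
def n5730 : Nd := .arc (nat_lit 3) n5722 (.arc (nat_lit 40) n5593 (.arc (nat_lit 43) n5597 (.arc (nat_lit 46) n5600 (.fin (nat_lit 309252247) (nat_lit 0)))))
def n5731 : Nd := .arc (nat_lit 3) n5713 (.fin (nat_lit 578211993) (nat_lit 0))
def n5732 : Nd := .arc (nat_lit 6) n5730 (.arc (nat_lit 9) n5731 (.fin (nat_lit 171847835) (nat_lit 0)))
def n5733 : Nd := .arc (nat_lit 3) n5718 (.arc (nat_lit 6) n5717 (.fin (nat_lit 578195609) (nat_lit 0)))
def n5734 : Nd := .arc (nat_lit 3) n5724 (.arc (nat_lit 9) n5723 (.fin (nat_lit 309219479) (nat_lit 0)))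
def n5735 : Nd := .arc (nat_lit 3) n5732 (.arc (nat_lit 6) n5733 (.arc (nat_lit 9) n5734 (.fin (nat_lit 106827933) (nat_lit 0))))
def n5736 : Nd := .arc (nat_lit 6) n5731 (.arc (nat_lit 9) n5730 (.fin (nat_lit 106836125) (nat_lit 0)))
def n5737 : Nd := .arc (nat_lit 3) n5727 (.arc (nat_lit 6) n5726 (.fin (nat_lit 309235863) (nat_lit 0)))
def n5738 : Nd := .arc (nat_lit 3) n5715 (.arc (nat_lit 9) n5714 (.fin (nat_lit 578179225) (nat_lit 0)))
def n5739 : Nd := .arc (nat_lit 3) n5736 (.arc (nat_lit 6) n5737 (.arc (nat_lit 9) n5738 (.fin (nat_lit 171839643) (nat_lit 0))))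
def n5740 : Nd := .arc (nat_lit 50) n4683 (.arc (nat_lit 53) n4679 (.arc (nat_lit 56) n4664 (.arc (nat_lit 59) n4673 (.fin (nat_lit 677310613) (nat_lit 0)))))
def n5741 : Nd := .arc (nat_lit 3) n5740 (.fin (nat_lit 339660949) (nat_lit 0))
def n5742 : Nd := .arc (nat_lit 62) n4683 (.arc (nat_lit 65) n4679 (.arc (nat_lit 68) n4673 (.arc (nat_lit 71) n4664 (.fin (nat_lit 339669141) (nat_lit 0)))))
def n5743 : Nd := .arc (nat_lit 3) n5742 (.fin (nat_lit 677302421) (nat_lit 0))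
def n5744 : Nd := .arc (nat_lit 6) n5741 (.arc (nat_lit 9) n5743 (.fin (nat_lit 410398869) (nat_lit 0)))
def n5745 : Nd := .arc (nat_lit 26) n4683 (.arc (nat_lit 29) n4679 (.arc (nat_lit 32) n4673 (.arc (nat_lit 35) n4664 (.fin (nat_lit 410448021) (nat_lit 0)))))
def n5746 : Nd := .arc (nat_lit 9) n5745 (.arc (nat_lit 64) n4680 (.arc (nat_lit 67) n4682 (.arc (nat_lit 70) n4681 (.fin (nat_lit 339636373) (nat_lit 0)))))
def n5747 : Nd := .arc (nat_lit 6) n5742 (.fin (nat_lit 410431637) (nat_lit 0))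
def n5748 : Nd := .arc (nat_lit 3) n5746 (.arc (nat_lit 6) n5747 (.fin (nat_lit 677286037) (nat_lit 0)))
def n5749 : Nd := .arc (nat_lit 6) n5745 (.arc (nat_lit 52) n4680 (.arc (nat_lit 55) n4681 (.arc (nat_lit 58) n4682 (.fin (nat_lit 677294229) (nat_lit 0)))))
def n5750 : Nd := .arc (nat_lit 9) n5740 (.fin (nat_lit 410415253) (nat_lit 0))
def n5751 : Nd := .arc (nat_lit 3) n5749 (.arc (nat_lit 9) n5750 (.fin (nat_lit 339628181) (nat_lit 0)))
def n5752 : Nd := .arc (nat_lit 3) n5744 (.arc (nat_lit 6) n5748 (.arc (nat_lit 9) n5751 (.fin (nat_lit 611192981) (nat_lit 0))))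
def n5753 : Nd := .arc (nat_lit 6) n5743 (.arc (nat_lit 9) n5741 (.fin (nat_lit 611201173) (nat_lit 0)))
def n5754 : Nd := .arc (nat_lit 38) n4683 (.arc (nat_lit 41) n4679 (.arc (nat_lit 44) n4664 (.arc (nat_lit 47) n4673 (.fin (nat_lit 611250325) (nat_lit 0)))))
def n5755 : Nd := .arc (nat_lit 9) n5754 (.fin (nat_lit 677277845) (nat_lit 0))
def n5756 : Nd := .arc (nat_lit 6) n5740 (.fin (nat_lit 611233941) (nat_lit 0))
def n5757 : Nd := .arc (nat_lit 3) n5755 (.arc (nat_lit 6) n5756 (.fin (nat_lit 339644565) (nat_lit 0)))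
def n5758 : Nd := .arc (nat_lit 6) n5754 (.fin (nat_lit 339652757) (nat_lit 0))
def n5759 : Nd := .arc (nat_lit 9) n5742 (.fin (nat_lit 611217557) (nat_lit 0))
def n5760 : Nd := .arc (nat_lit 3) n5758 (.arc (nat_lit 9) n5759 (.fin (nat_lit 677269653) (nat_lit 0)))
def n5761 : Nd := .arc (nat_lit 3) n5753 (.arc (nat_lit 6) n5757 (.arc (nat_lit 9) n5760 (.fin (nat_lit 410390677) (nat_lit 0))))
def n5762 : Nd := .arc (nat_lit 3) n5754 (.fin (nat_lit 410439829) (nat_lit 0))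
def n5763 : Nd := .arc (nat_lit 3) n5745 (.arc (nat_lit 40) n4680 (.arc (nat_lit 43) n4681 (.arc (nat_lit 46) n4682 (.fin (nat_lit 611242133) (nat_lit 0)))))
def n5764 : Nd := .arc (nat_lit 6) n5762 (.arc (nat_lit 9) n5763 (.fin (nat_lit 677261461) (nat_lit 0)))
def n5765 : Nd := .arc (nat_lit 3) n5750 (.arc (nat_lit 6) n5749 (.fin (nat_lit 611225749) (nat_lit 0)))
def n5766 : Nd := .arc (nat_lit 3) n5756 (.arc (nat_lit 9) n5755 (.fin (nat_lit 410407061) (nat_lit 0)))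
def n5767 : Nd := .arc (nat_lit 3) n5764 (.arc (nat_lit 6) n5765 (.arc (nat_lit 9) n5766 (.fin (nat_lit 339611797) (nat_lit 0))))
def n5768 : Nd := .arc (nat_lit 6) n5763 (.arc (nat_lit 9) n5762 (.fin (nat_lit 339619989) (nat_lit 0)))
def n5769 : Nd := .arc (nat_lit 3) n5759 (.arc (nat_lit 6) n5758 (.fin (nat_lit 410423445) (nat_lit 0)))
def n5770 : Nd := .arc (nat_lit 3) n5747 (.arc (nat_lit 9) n5746 (.fin (nat_lit 611209365) (nat_lit 0)))
def n5771 : Nd := .arc (nat_lit 3) n5768 (.arc (nat_lit 6) n5769 (.arc (nat_lit 9) n5770 (.fin (nat_lit 677253269) (nat_lit 0))))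
def n5772 : Nd := .arc (nat_lit 14) n5720 (.arc (nat_lit 17) n5729 (.arc (nat_lit 20) n5735 (.arc (nat_lit 23) n5739 (.arc (nat_lit 26) n5752 (.arc (nat_lit 29) n5761 (.arc (nat_lit 32) n5767 (.arc (nat_lit 35) n5771 (.fin (nat_lit 292745369) (nat_lit 0)))))))))
def n5773 : Nd := .arc (nat_lit 3) n5772 (.arc (nat_lit 40) n5744 (.arc (nat_lit 43) n5748 (.arc (nat_lit 46) n5751 (.fin (nat_lit 560648343) (nat_lit 0)))))
def n5774 : Nd := .arc (nat_lit 14) n5729 (.arc (nat_lit 17) n5720 (.arc (nat_lit 20) n5739 (.arc (nat_lit 23) n5735 (.arc (nat_lit 38) n5752 (.arc (nat_lit 41) n5761 (.arc (nat_lit 44) n5771 (.arc (nat_lit 47) n5767 (.fin (nat_lit 560656535) (nat_lit 0)))))))))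
def n5775 : Nd := .arc (nat_lit 3) n5774 (.fin (nat_lit 292737177) (nat_lit 0))
def n5776 : Nd := .arc (nat_lit 6) n5773 (.arc (nat_lit 9) n5775 (.fin (nat_lit 87699611) (nat_lit 0)))
def n5777 : Nd := .arc (nat_lit 14) n5735 (.arc (nat_lit 17) n5739 (.arc (nat_lit 20) n5729 (.arc (nat_lit 23) n5720 (.arc (nat_lit 62) n5752 (.arc (nat_lit 65) n5761 (.arc (nat_lit 68) n5767 (.arc (nat_lit 71) n5771 (.fin (nat_lit 87748763) (nat_lit 0)))))))))
def n5778 : Nd := .arc (nat_lit 9) n5777 (.fin (nat_lit 560623767) (nat_lit 0))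
def n5779 : Nd := .arc (nat_lit 6) n5774 (.fin (nat_lit 87732379) (nat_lit 0))
def n5780 : Nd := .arc (nat_lit 3) n5778 (.arc (nat_lit 6) n5779 (.fin (nat_lit 292720793) (nat_lit 0)))
def n5781 : Nd := .arc (nat_lit 6) n5777 (.fin (nat_lit 292728985) (nat_lit 0))
def n5782 : Nd := .arc (nat_lit 9) n5772 (.arc (nat_lit 64) n5744 (.arc (nat_lit 67) n5751 (.arc (nat_lit 70) n5748 (.fin (nat_lit 87715995) (nat_lit 0)))))
def n5783 : Nd := .arc (nat_lit 3) n5781 (.arc (nat_lit 9) n5782 (.fin (nat_lit 560615575) (nat_lit 0)))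
def n5784 : Nd := .arc (nat_lit 3) n5776 (.arc (nat_lit 6) n5780 (.arc (nat_lit 9) n5783 (.fin (nat_lit 156897437) (nat_lit 0))))
def n5785 : Nd := .arc (nat_lit 6) n5775 (.arc (nat_lit 9) n5773 (.fin (nat_lit 156905629) (nat_lit 0)))
def n5786 : Nd := .arc (nat_lit 14) n5739 (.arc (nat_lit 17) n5735 (.arc (nat_lit 20) n5720 (.arc (nat_lit 23) n5729 (.arc (nat_lit 50) n5752 (.arc (nat_lit 53) n5761 (.arc (nat_lit 56) n5771 (.arc (nat_lit 59) n5767 (.fin (nat_lit 156954781) (nat_lit 0)))))))))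
def n5787 : Nd := .arc (nat_lit 9) n5786 (.fin (nat_lit 292712601) (nat_lit 0))
def n5788 : Nd := .arc (nat_lit 6) n5772 (.arc (nat_lit 52) n5744 (.arc (nat_lit 55) n5748 (.arc (nat_lit 58) n5751 (.fin (nat_lit 156938397) (nat_lit 0)))))
def n5789 : Nd := .arc (nat_lit 3) n5787 (.arc (nat_lit 6) n5788 (.fin (nat_lit 560631959) (nat_lit 0)))
def n5790 : Nd := .arc (nat_lit 6) n5786 (.fin (nat_lit 560640151) (nat_lit 0))
def n5791 : Nd := .arc (nat_lit 9) n5774 (.fin (nat_lit 156922013) (nat_lit 0))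
def n5792 : Nd := .arc (nat_lit 3) n5790 (.arc (nat_lit 9) n5791 (.fin (nat_lit 292704409) (nat_lit 0)))
def n5793 : Nd := .arc (nat_lit 3) n5785 (.arc (nat_lit 6) n5789 (.arc (nat_lit 9) n5792 (.fin (nat_lit 87691419) (nat_lit 0))))
def n5794 : Nd := .arc (nat_lit 3) n5786 (.fin (nat_lit 87740571) (nat_lit 0))
def n5795 : Nd := .arc (nat_lit 3) n5777 (.fin (nat_lit 156946589) (nat_lit 0))
def n5796 : Nd := .arc (nat_lit 6) n5794 (.arc (nat_lit 9) n5795 (.fin (nat_lit 292696217) (nat_lit 0)))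
def n5797 : Nd := .arc (nat_lit 3) n5782 (.arc (nat_lit 6) n5781 (.fin (nat_lit 156930205) (nat_lit 0)))
def n5798 : Nd := .arc (nat_lit 3) n5788 (.arc (nat_lit 9) n5787 (.fin (nat_lit 87707803) (nat_lit 0)))
def n5799 : Nd := .arc (nat_lit 3) n5796 (.arc (nat_lit 6) n5797 (.arc (nat_lit 9) n5798 (.fin (nat_lit 560599191) (nat_lit 0))))
def n5800 : Nd := .arc (nat_lit 6) n5795 (.arc (nat_lit 9) n5794 (.fin (nat_lit 560607383) (nat_lit 0)))
def n5801 : Nd := .arc (nat_lit 3) n5791 (.arc (nat_lit 6) n5790 (.fin (nat_lit 87724187) (nat_lit 0)))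
def n5802 : Nd := .arc (nat_lit 3) n5779 (.arc (nat_lit 9) n5778 (.fin (nat_lit 156913821) (nat_lit 0)))
def n5803 : Nd := .arc (nat_lit 3) n5800 (.arc (nat_lit 6) n5801 (.arc (nat_lit 9) n5802 (.fin (nat_lit 292688025) (nat_lit 0))))
def n5804 : Nd := .arc (nat_lit 38) n5560 (.arc (nat_lit 41) n5569 (.arc (nat_lit 44) n5575 (.arc (nat_lit 47) n5579 (.arc (nat_lit 50) n5688 (.arc (nat_lit 53) n5697 (.arc (nat_lit 56) n5703 (.arc (nat_lit 59) n5707 (.arc (nat_lit 62) n5784 (.arc (nat_lit 65) n5793 (.arc (nat_lit 68) n5799 (.arc (nat_lit 71) n5803 (.fin (nat_lit 571404439) (nat_lit 0)))))))))))))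
def n5805 : Nd := .arc (nat_lit 3) n5804 (.fin (nat_lit 303485081) (nat_lit 0))
def n5806 : Nd := .arc (nat_lit 26) n5560 (.arc (nat_lit 29) n5569 (.arc (nat_lit 32) n5579 (.arc (nat_lit 35) n5575 (.arc (nat_lit 50) n5784 (.arc (nat_lit 53) n5793 (.arc (nat_lit 56) n5803 (.arc (nat_lit 59) n5799 (.arc (nat_lit 62) n5688 (.arc (nat_lit 65) n5697 (.arc (nat_lit 68) n5707 (.arc (nat_lit 71) n5703 (.fin (nat_lit 303493273) (nat_lit 0)))))))))))))
def n5807 : Nd := .arc (nat_lit 3) n5806 (.arc (nat_lit 40) n5552 (.arc (nat_lit 43) n5556 (.arc (nat_lit 46) n5559 (.fin (nat_lit 571396247) (nat_lit 0)))))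
def n5808 : Nd := .arc (nat_lit 6) n5805 (.arc (nat_lit 9) n5807 (.fin (nat_lit 172372125) (nat_lit 0)))
def n5809 : Nd := .arc (nat_lit 26) n5688 (.arc (nat_lit 29) n5697 (.arc (nat_lit 32) n5707 (.arc (nat_lit 35) n5703 (.arc (nat_lit 38) n5784 (.arc (nat_lit 41) n5793 (.arc (nat_lit 44) n5803 (.arc (nat_lit 47) n5799 (.arc (nat_lit 50) n5560 (.arc (nat_lit 53) n5569 (.arc (nat_lit 56) n5575 (.arc (nat_lit 59) n5579 (.fin (nat_lit 172421277) (nat_lit 0)))))))))))))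
def n5810 : Nd := .arc (nat_lit 9) n5809 (.arc (nat_lit 64) n5680 (.arc (nat_lit 67) n5687 (.arc (nat_lit 70) n5684 (.fin (nat_lit 303460505) (nat_lit 0)))))
def n5811 : Nd := .arc (nat_lit 6) n5806 (.arc (nat_lit 52) n5552 (.arc (nat_lit 55) n5556 (.arc (nat_lit 58) n5559 (.fin (nat_lit 172404893) (nat_lit 0)))))
def n5812 : Nd := .arc (nat_lit 3) n5810 (.arc (nat_lit 6) n5811 (.fin (nat_lit 571379863) (nat_lit 0)))
def n5813 : Nd := .arc (nat_lit 6) n5809 (.arc (nat_lit 52) n5680 (.arc (nat_lit 55) n5684 (.arc (nat_lit 58) n5687 (.fin (nat_lit 571388055) (nat_lit 0)))))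
def n5814 : Nd := .arc (nat_lit 9) n5804 (.fin (nat_lit 172388509) (nat_lit 0))
def n5815 : Nd := .arc (nat_lit 3) n5813 (.arc (nat_lit 9) n5814 (.fin (nat_lit 303452313) (nat_lit 0)))
def n5816 : Nd := .arc (nat_lit 3) n5808 (.arc (nat_lit 6) n5812 (.arc (nat_lit 9) n5815 (.fin (nat_lit 103157915) (nat_lit 0))))
def n5817 : Nd := .arc (nat_lit 6) n5807 (.arc (nat_lit 9) n5805 (.fin (nat_lit 103166107) (nat_lit 0)))
def n5818 : Nd := .arc (nat_lit 26) n5784 (.arc (nat_lit 29) n5793 (.arc (nat_lit 32) n5799 (.arc (nat_lit 35) n5803 (.arc (nat_lit 38) n5688 (.arc (nat_lit 41) n5697 (.arc (nat_lit 44) n5703 (.arc (nat_lit 47) n5707 (.arc (nat_lit 62) n5560 (.arc (nat_lit 65) n5569 (.arc (nat_lit 68) n5579 (.arc (nat_lit 71) n5575 (.fin (nat_lit 103215259) (nat_lit 0)))))))))))))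
def n5819 : Nd := .arc (nat_lit 9) n5818 (.arc (nat_lit 64) n5776 (.arc (nat_lit 67) n5783 (.arc (nat_lit 70) n5780 (.fin (nat_lit 571371671) (nat_lit 0)))))
def n5820 : Nd := .arc (nat_lit 6) n5804 (.fin (nat_lit 103198875) (nat_lit 0))
def n5821 : Nd := .arc (nat_lit 3) n5819 (.arc (nat_lit 6) n5820 (.fin (nat_lit 303468697) (nat_lit 0)))
def n5822 : Nd := .arc (nat_lit 6) n5818 (.arc (nat_lit 52) n5776 (.arc (nat_lit 55) n5780 (.arc (nat_lit 58) n5783 (.fin (nat_lit 303476889) (nat_lit 0)))))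
def n5823 : Nd := .arc (nat_lit 9) n5806 (.arc (nat_lit 64) n5552 (.arc (nat_lit 67) n5559 (.arc (nat_lit 70) n5556 (.fin (nat_lit 103182491) (nat_lit 0)))))
def n5824 : Nd := .arc (nat_lit 3) n5822 (.arc (nat_lit 9) n5823 (.fin (nat_lit 571363479) (nat_lit 0)))
def n5825 : Nd := .arc (nat_lit 3) n5817 (.arc (nat_lit 6) n5821 (.arc (nat_lit 9) n5824 (.fin (nat_lit 172363933) (nat_lit 0))))
def n5826 : Nd := .arc (nat_lit 3) n5818 (.arc (nat_lit 40) n5776 (.arc (nat_lit 43) n5780 (.arc (nat_lit 46) n5783 (.fin (nat_lit 172413085) (nat_lit 0)))))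
def n5827 : Nd := .arc (nat_lit 3) n5809 (.arc (nat_lit 40) n5680 (.arc (nat_lit 43) n5684 (.arc (nat_lit 46) n5687 (.fin (nat_lit 103207067) (nat_lit 0)))))
def n5828 : Nd := .arc (nat_lit 6) n5826 (.arc (nat_lit 9) n5827 (.fin (nat_lit 571355287) (nat_lit 0)))
def n5829 : Nd := .arc (nat_lit 3) n5814 (.arc (nat_lit 6) n5813 (.fin (nat_lit 103190683) (nat_lit 0)))
def n5830 : Nd := .arc (nat_lit 3) n5820 (.arc (nat_lit 9) n5819 (.fin (nat_lit 172380317) (nat_lit 0)))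
def n5831 : Nd := .arc (nat_lit 3) n5828 (.arc (nat_lit 6) n5829 (.arc (nat_lit 9) n5830 (.fin (nat_lit 303435929) (nat_lit 0))))
def n5832 : Nd := .arc (nat_lit 6) n5827 (.arc (nat_lit 9) n5826 (.fin (nat_lit 303444121) (nat_lit 0)))
def n5833 : Nd := .arc (nat_lit 3) n5823 (.arc (nat_lit 6) n5822 (.fin (nat_lit 172396701) (nat_lit 0)))
def n5834 : Nd := .arc (nat_lit 3) n5811 (.arc (nat_lit 9) n5810 (.fin (nat_lit 103174299) (nat_lit 0)))
def n5835 : Nd := .arc (nat_lit 3) n5832 (.arc (nat_lit 6) n5833 (.arc (nat_lit 9) n5834 (.fin (nat_lit 571347095) (nat_lit 0))))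
def n5836 : Nd := .arc (nat_lit 26) n5607 (.arc (nat_lit 29) n5611 (.arc (nat_lit 32) n5592 (.arc (nat_lit 35) n5601 (.fin (nat_lit 309784729) (nat_lit 0)))))
def n5837 : Nd := .arc (nat_lit 3) n5836 (.arc (nat_lit 40) n5604 (.arc (nat_lit 43) n5605 (.arc (nat_lit 46) n5606 (.fin (nat_lit 577687703) (nat_lit 0)))))
def n5838 : Nd := .arc (nat_lit 38) n5607 (.arc (nat_lit 41) n5611 (.arc (nat_lit 44) n5601 (.arc (nat_lit 47) n5592 (.fin (nat_lit 577695895) (nat_lit 0)))))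
def n5839 : Nd := .arc (nat_lit 3) n5838 (.fin (nat_lit 309776537) (nat_lit 0))
def n5840 : Nd := .arc (nat_lit 6) n5837 (.arc (nat_lit 9) n5839 (.fin (nat_lit 104738971) (nat_lit 0)))
def n5841 : Nd := .arc (nat_lit 62) n5607 (.arc (nat_lit 65) n5611 (.arc (nat_lit 68) n5592 (.arc (nat_lit 71) n5601 (.fin (nat_lit 104788123) (nat_lit 0)))))
def n5842 : Nd := .arc (nat_lit 9) n5841 (.fin (nat_lit 577663127) (nat_lit 0))
def n5843 : Nd := .arc (nat_lit 6) n5838 (.fin (nat_lit 104771739) (nat_lit 0))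
def n5844 : Nd := .arc (nat_lit 3) n5842 (.arc (nat_lit 6) n5843 (.fin (nat_lit 309760153) (nat_lit 0)))
def n5845 : Nd := .arc (nat_lit 6) n5841 (.fin (nat_lit 309768345) (nat_lit 0))
def n5846 : Nd := .arc (nat_lit 9) n5836 (.arc (nat_lit 64) n5604 (.arc (nat_lit 67) n5606 (.arc (nat_lit 70) n5605 (.fin (nat_lit 104755355) (nat_lit 0)))))
def n5847 : Nd := .arc (nat_lit 3) n5845 (.arc (nat_lit 9) n5846 (.fin (nat_lit 577654935) (nat_lit 0)))
def n5848 : Nd := .arc (nat_lit 3) n5840 (.arc (nat_lit 6) n5844 (.arc (nat_lit 9) n5847 (.fin (nat_lit 173936797) (nat_lit 0))))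
def n5849 : Nd := .arc (nat_lit 6) n5839 (.arc (nat_lit 9) n5837 (.fin (nat_lit 173944989) (nat_lit 0)))
def n5850 : Nd := .arc (nat_lit 50) n5607 (.arc (nat_lit 53) n5611 (.arc (nat_lit 56) n5601 (.arc (nat_lit 59) n5592 (.fin (nat_lit 173994141) (nat_lit 0)))))
def n5851 : Nd := .arc (nat_lit 9) n5850 (.fin (nat_lit 309751961) (nat_lit 0))
def n5852 : Nd := .arc (nat_lit 6) n5836 (.arc (nat_lit 52) n5604 (.arc (nat_lit 55) n5605 (.arc (nat_lit 58) n5606 (.fin (nat_lit 173977757) (nat_lit 0)))))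
def n5853 : Nd := .arc (nat_lit 3) n5851 (.arc (nat_lit 6) n5852 (.fin (nat_lit 577671319) (nat_lit 0)))
def n5854 : Nd := .arc (nat_lit 6) n5850 (.fin (nat_lit 577679511) (nat_lit 0))
def n5855 : Nd := .arc (nat_lit 9) n5838 (.fin (nat_lit 173961373) (nat_lit 0))
def n5856 : Nd := .arc (nat_lit 3) n5854 (.arc (nat_lit 9) n5855 (.fin (nat_lit 309743769) (nat_lit 0)))
def n5857 : Nd := .arc (nat_lit 3) n5849 (.arc (nat_lit 6) n5853 (.arc (nat_lit 9) n5856 (.fin (nat_lit 104730779) (nat_lit 0))))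
def n5858 : Nd := .arc (nat_lit 3) n5841 (.fin (nat_lit 173985949) (nat_lit 0))
def n5859 : Nd := .arc (nat_lit 3) n5850 (.fin (nat_lit 104779931) (nat_lit 0))
def n5860 : Nd := .arc (nat_lit 6) n5858 (.arc (nat_lit 9) n5859 (.fin (nat_lit 577646743) (nat_lit 0)))
def n5861 : Nd := .arc (nat_lit 3) n5855 (.arc (nat_lit 6) n5854 (.fin (nat_lit 104763547) (nat_lit 0)))
def n5862 : Nd := .arc (nat_lit 3) n5843 (.arc (nat_lit 9) n5842 (.fin (nat_lit 173953181) (nat_lit 0)))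
def n5863 : Nd := .arc (nat_lit 3) n5860 (.arc (nat_lit 6) n5861 (.arc (nat_lit 9) n5862 (.fin (nat_lit 309727385) (nat_lit 0))))
def n5864 : Nd := .arc (nat_lit 6) n5859 (.arc (nat_lit 9) n5858 (.fin (nat_lit 309735577) (nat_lit 0)))
def n5865 : Nd := .arc (nat_lit 3) n5846 (.arc (nat_lit 6) n5845 (.fin (nat_lit 173969565) (nat_lit 0)))
def n5866 : Nd := .arc (nat_lit 3) n5852 (.arc (nat_lit 9) n5851 (.fin (nat_lit 104747163) (nat_lit 0)))
def n5867 : Nd := .arc (nat_lit 3) n5864 (.arc (nat_lit 6) n5865 (.arc (nat_lit 9) n5866 (.fin (nat_lit 577638551) (nat_lit 0))))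
def n5868 : Nd := .arc (nat_lit 38) n4577 (.arc (nat_lit 41) n4568 (.arc (nat_lit 44) n4583 (.arc (nat_lit 47) n4587 (.fin (nat_lit 342814869) (nat_lit 0)))))
def n5869 : Nd := .arc (nat_lit 3) n5868 (.fin (nat_lit 678875285) (nat_lit 0))
def n5870 : Nd := .arc (nat_lit 26) n4577 (.arc (nat_lit 29) n4568 (.arc (nat_lit 32) n4587 (.arc (nat_lit 35) n4583 (.fin (nat_lit 678883477) (nat_lit 0)))))
def n5871 : Nd := .arc (nat_lit 3) n5870 (.arc (nat_lit 40) n4569 (.arc (nat_lit 43) n4573 (.arc (nat_lit 46) n4576 (.fin (nat_lit 342806677) (nat_lit 0)))))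
def n5872 : Nd := .arc (nat_lit 6) n5869 (.arc (nat_lit 9) n5871 (.fin (nat_lit 610152597) (nat_lit 0)))
def n5873 : Nd := .arc (nat_lit 50) n4577 (.arc (nat_lit 53) n4568 (.arc (nat_lit 56) n4583 (.arc (nat_lit 59) n4587 (.fin (nat_lit 610201749) (nat_lit 0)))))
def n5874 : Nd := .arc (nat_lit 9) n5873 (.fin (nat_lit 678850709) (nat_lit 0))
def n5875 : Nd := .arc (nat_lit 6) n5870 (.arc (nat_lit 52) n4569 (.arc (nat_lit 55) n4573 (.arc (nat_lit 58) n4576 (.fin (nat_lit 610185365) (nat_lit 0)))))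
def n5876 : Nd := .arc (nat_lit 3) n5874 (.arc (nat_lit 6) n5875 (.fin (nat_lit 342790293) (nat_lit 0)))
def n5877 : Nd := .arc (nat_lit 6) n5873 (.fin (nat_lit 342798485) (nat_lit 0))
def n5878 : Nd := .arc (nat_lit 9) n5868 (.fin (nat_lit 610168981) (nat_lit 0))
def n5879 : Nd := .arc (nat_lit 3) n5877 (.arc (nat_lit 9) n5878 (.fin (nat_lit 678842517) (nat_lit 0)))
def n5880 : Nd := .arc (nat_lit 3) n5872 (.arc (nat_lit 6) n5876 (.arc (nat_lit 9) n5879 (.fin (nat_lit 406720661) (nat_lit 0))))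
def n5881 : Nd := .arc (nat_lit 6) n5871 (.arc (nat_lit 9) n5869 (.fin (nat_lit 406728853) (nat_lit 0)))
def n5882 : Nd := .arc (nat_lit 62) n4577 (.arc (nat_lit 65) n4568 (.arc (nat_lit 68) n4587 (.arc (nat_lit 71) n4583 (.fin (nat_lit 406778005) (nat_lit 0)))))
def n5883 : Nd := .arc (nat_lit 9) n5882 (.fin (nat_lit 342782101) (nat_lit 0))
def n5884 : Nd := .arc (nat_lit 6) n5868 (.fin (nat_lit 406761621) (nat_lit 0))
def n5885 : Nd := .arc (nat_lit 3) n5883 (.arc (nat_lit 6) n5884 (.fin (nat_lit 678858901) (nat_lit 0)))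
def n5886 : Nd := .arc (nat_lit 6) n5882 (.fin (nat_lit 678867093) (nat_lit 0))
def n5887 : Nd := .arc (nat_lit 9) n5870 (.arc (nat_lit 64) n4569 (.arc (nat_lit 67) n4576 (.arc (nat_lit 70) n4573 (.fin (nat_lit 406745237) (nat_lit 0)))))
def n5888 : Nd := .arc (nat_lit 3) n5886 (.arc (nat_lit 9) n5887 (.fin (nat_lit 342773909) (nat_lit 0)))
def n5889 : Nd := .arc (nat_lit 3) n5881 (.arc (nat_lit 6) n5885 (.arc (nat_lit 9) n5888 (.fin (nat_lit 610144405) (nat_lit 0))))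
def n5890 : Nd := .arc (nat_lit 3) n5873 (.fin (nat_lit 406769813) (nat_lit 0))
def n5891 : Nd := .arc (nat_lit 3) n5882 (.fin (nat_lit 610193557) (nat_lit 0))
def n5892 : Nd := .arc (nat_lit 6) n5890 (.arc (nat_lit 9) n5891 (.fin (nat_lit 678834325) (nat_lit 0)))
def n5893 : Nd := .arc (nat_lit 3) n5887 (.arc (nat_lit 6) n5886 (.fin (nat_lit 610177173) (nat_lit 0)))
def n5894 : Nd := .arc (nat_lit 3) n5875 (.arc (nat_lit 9) n5874 (.fin (nat_lit 406737045) (nat_lit 0)))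
def n5895 : Nd := .arc (nat_lit 3) n5892 (.arc (nat_lit 6) n5893 (.arc (nat_lit 9) n5894 (.fin (nat_lit 342757525) (nat_lit 0))))
def n5896 : Nd := .arc (nat_lit 6) n5891 (.arc (nat_lit 9) n5890 (.fin (nat_lit 342765717) (nat_lit 0)))
def n5897 : Nd := .arc (nat_lit 3) n5878 (.arc (nat_lit 6) n5877 (.fin (nat_lit 406753429) (nat_lit 0)))
def n5898 : Nd := .arc (nat_lit 3) n5884 (.arc (nat_lit 9) n5883 (.fin (nat_lit 610160789) (nat_lit 0)))
def n5899 : Nd := .arc (nat_lit 3) n5896 (.arc (nat_lit 6) n5897 (.arc (nat_lit 9) n5898 (.fin (nat_lit 678826133) (nat_lit 0))))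
def n5900 : Nd := .arc (nat_lit 38) n5848 (.arc (nat_lit 41) n5857 (.arc (nat_lit 44) n5863 (.arc (nat_lit 47) n5867 (.arc (nat_lit 50) n5880 (.arc (nat_lit 53) n5889 (.arc (nat_lit 56) n5895 (.arc (nat_lit 59) n5899 (.fin (nat_lit 105836701) (nat_lit 0)))))))))
def n5901 : Nd := .arc (nat_lit 3) n5900 (.fin (nat_lit 171364507) (nat_lit 0))
def n5902 : Nd := .arc (nat_lit 26) n5848 (.arc (nat_lit 29) n5857 (.arc (nat_lit 32) n5867 (.arc (nat_lit 35) n5863 (.arc (nat_lit 62) n5880 (.arc (nat_lit 65) n5889 (.arc (nat_lit 68) n5899 (.arc (nat_lit 71) n5895 (.fin (nat_lit 171372699) (nat_lit 0)))))))))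
def n5903 : Nd := .arc (nat_lit 3) n5902 (.arc (nat_lit 40) n5840 (.arc (nat_lit 43) n5844 (.arc (nat_lit 46) n5847 (.fin (nat_lit 105828509) (nat_lit 0)))))
def n5904 : Nd := .arc (nat_lit 6) n5901 (.arc (nat_lit 9) n5903 (.fin (nat_lit 576073881) (nat_lit 0)))
def n5905 : Nd := .arc (nat_lit 26) n5880 (.arc (nat_lit 29) n5889 (.arc (nat_lit 32) n5899 (.arc (nat_lit 35) n5895 (.arc (nat_lit 50) n5848 (.arc (nat_lit 53) n5857 (.arc (nat_lit 56) n5863 (.arc (nat_lit 59) n5867 (.fin (nat_lit 576123033) (nat_lit 0)))))))))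
def n5906 : Nd := .arc (nat_lit 9) n5905 (.arc (nat_lit 64) n5872 (.arc (nat_lit 67) n5879 (.arc (nat_lit 70) n5876 (.fin (nat_lit 171339931) (nat_lit 0)))))
def n5907 : Nd := .arc (nat_lit 6) n5902 (.arc (nat_lit 52) n5840 (.arc (nat_lit 55) n5844 (.arc (nat_lit 58) n5847 (.fin (nat_lit 576106649) (nat_lit 0)))))
def n5908 : Nd := .arc (nat_lit 3) n5906 (.arc (nat_lit 6) n5907 (.fin (nat_lit 105812125) (nat_lit 0)))
def n5909 : Nd := .arc (nat_lit 6) n5905 (.arc (nat_lit 52) n5872 (.arc (nat_lit 55) n5876 (.arc (nat_lit 58) n5879 (.fin (nat_lit 105820317) (nat_lit 0)))))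
def n5910 : Nd := .arc (nat_lit 9) n5900 (.fin (nat_lit 576090265) (nat_lit 0))
def n5911 : Nd := .arc (nat_lit 3) n5909 (.arc (nat_lit 9) n5910 (.fin (nat_lit 171331739) (nat_lit 0)))
def n5912 : Nd := .arc (nat_lit 3) n5904 (.arc (nat_lit 6) n5908 (.arc (nat_lit 9) n5911 (.fin (nat_lit 305008791) (nat_lit 0))))
def n5913 : Nd := .arc (nat_lit 6) n5903 (.arc (nat_lit 9) n5901 (.fin (nat_lit 305016983) (nat_lit 0)))
def n5914 : Nd := .arc (nat_lit 38) n5880 (.arc (nat_lit 41) n5889 (.arc (nat_lit 44) n5895 (.arc (nat_lit 47) n5899 (.arc (nat_lit 62) n5848 (.arc (nat_lit 65) n5857 (.arc (nat_lit 68) n5867 (.arc (nat_lit 71) n5863 (.fin (nat_lit 305066135) (nat_lit 0)))))))))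
def n5915 : Nd := .arc (nat_lit 9) n5914 (.fin (nat_lit 105803933) (nat_lit 0))
def n5916 : Nd := .arc (nat_lit 6) n5900 (.fin (nat_lit 305049751) (nat_lit 0))
def n5917 : Nd := .arc (nat_lit 3) n5915 (.arc (nat_lit 6) n5916 (.fin (nat_lit 171348123) (nat_lit 0)))
def n5918 : Nd := .arc (nat_lit 6) n5914 (.fin (nat_lit 171356315) (nat_lit 0))
def n5919 : Nd := .arc (nat_lit 9) n5902 (.arc (nat_lit 64) n5840 (.arc (nat_lit 67) n5847 (.arc (nat_lit 70) n5844 (.fin (nat_lit 305033367) (nat_lit 0)))))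
def n5920 : Nd := .arc (nat_lit 3) n5918 (.arc (nat_lit 9) n5919 (.fin (nat_lit 105795741) (nat_lit 0)))
def n5921 : Nd := .arc (nat_lit 3) n5913 (.arc (nat_lit 6) n5917 (.arc (nat_lit 9) n5920 (.fin (nat_lit 576065689) (nat_lit 0))))
def n5922 : Nd := .arc (nat_lit 3) n5914 (.fin (nat_lit 576114841) (nat_lit 0))
def n5923 : Nd := .arc (nat_lit 3) n5905 (.arc (nat_lit 40) n5872 (.arc (nat_lit 43) n5876 (.arc (nat_lit 46) n5879 (.fin (nat_lit 305057943) (nat_lit 0)))))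
def n5924 : Nd := .arc (nat_lit 6) n5922 (.arc (nat_lit 9) n5923 (.fin (nat_lit 105787549) (nat_lit 0)))
def n5925 : Nd := .arc (nat_lit 3) n5910 (.arc (nat_lit 6) n5909 (.fin (nat_lit 305041559) (nat_lit 0)))
def n5926 : Nd := .arc (nat_lit 3) n5916 (.arc (nat_lit 9) n5915 (.fin (nat_lit 576082073) (nat_lit 0)))
def n5927 : Nd := .arc (nat_lit 3) n5924 (.arc (nat_lit 6) n5925 (.arc (nat_lit 9) n5926 (.fin (nat_lit 171315355) (nat_lit 0))))
def n5928 : Nd := .arc (nat_lit 6) n5923 (.arc (nat_lit 9) n5922 (.fin (nat_lit 171323547) (nat_lit 0)))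
def n5929 : Nd := .arc (nat_lit 3) n5919 (.arc (nat_lit 6) n5918 (.fin (nat_lit 576098457) (nat_lit 0)))
def n5930 : Nd := .arc (nat_lit 3) n5907 (.arc (nat_lit 9) n5906 (.fin (nat_lit 305025175) (nat_lit 0)))
def n5931 : Nd := .arc (nat_lit 3) n5928 (.arc (nat_lit 6) n5929 (.arc (nat_lit 9) n5930 (.fin (nat_lit 105779357) (nat_lit 0))))
def n5932 : Nd := .arc (nat_lit 26) n4696 (.arc (nat_lit 29) n4705 (.arc (nat_lit 32) n4711 (.arc (nat_lit 35) n4715 (.arc (nat_lit 50) n4743 (.arc (nat_lit 53) n4747 (.arc (nat_lit 56) n4737 (.arc (nat_lit 59) n4728 (.fin (nat_lit 676786325) (nat_lit 0)))))))))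
def n5933 : Nd := .arc (nat_lit 3) n5932 (.arc (nat_lit 40) n4688 (.arc (nat_lit 43) n4692 (.arc (nat_lit 46) n4695 (.fin (nat_lit 338612373) (nat_lit 0)))))
def n5934 : Nd := .arc (nat_lit 38) n4696 (.arc (nat_lit 41) n4705 (.arc (nat_lit 44) n4715 (.arc (nat_lit 47) n4711 (.arc (nat_lit 62) n4743 (.arc (nat_lit 65) n4747 (.arc (nat_lit 68) n4728 (.arc (nat_lit 71) n4737 (.fin (nat_lit 338620565) (nat_lit 0)))))))))
def n5935 : Nd := .arc (nat_lit 3) n5934 (.fin (nat_lit 676778133) (nat_lit 0))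
def n5936 : Nd := .arc (nat_lit 6) n5933 (.arc (nat_lit 9) n5935 (.fin (nat_lit 406204565) (nat_lit 0)))
def n5937 : Nd := .arc (nat_lit 26) n4743 (.arc (nat_lit 29) n4747 (.arc (nat_lit 32) n4728 (.arc (nat_lit 35) n4737 (.arc (nat_lit 62) n4696 (.arc (nat_lit 65) n4705 (.arc (nat_lit 68) n4711 (.arc (nat_lit 71) n4715 (.fin (nat_lit 406253717) (nat_lit 0)))))))))
def n5938 : Nd := .arc (nat_lit 9) n5937 (.arc (nat_lit 64) n4740 (.arc (nat_lit 67) n4742 (.arc (nat_lit 70) n4741 (.fin (nat_lit 338587797) (nat_lit 0)))))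
def n5939 : Nd := .arc (nat_lit 6) n5934 (.fin (nat_lit 406237333) (nat_lit 0))
def n5940 : Nd := .arc (nat_lit 3) n5938 (.arc (nat_lit 6) n5939 (.fin (nat_lit 676761749) (nat_lit 0)))
def n5941 : Nd := .arc (nat_lit 6) n5937 (.arc (nat_lit 52) n4740 (.arc (nat_lit 55) n4741 (.arc (nat_lit 58) n4742 (.fin (nat_lit 676769941) (nat_lit 0)))))
def n5942 : Nd := .arc (nat_lit 9) n5932 (.arc (nat_lit 64) n4688 (.arc (nat_lit 67) n4695 (.arc (nat_lit 70) n4692 (.fin (nat_lit 406220949) (nat_lit 0)))))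
def n5943 : Nd := .arc (nat_lit 3) n5941 (.arc (nat_lit 9) n5942 (.fin (nat_lit 338579605) (nat_lit 0)))
def n5944 : Nd := .arc (nat_lit 3) n5936 (.arc (nat_lit 6) n5940 (.arc (nat_lit 9) n5943 (.fin (nat_lit 609095829) (nat_lit 0))))
def n5945 : Nd := .arc (nat_lit 6) n5935 (.arc (nat_lit 9) n5933 (.fin (nat_lit 609104021) (nat_lit 0)))
def n5946 : Nd := .arc (nat_lit 38) n4743 (.arc (nat_lit 41) n4747 (.arc (nat_lit 44) n4737 (.arc (nat_lit 47) n4728 (.arc (nat_lit 50) n4696 (.arc (nat_lit 53) n4705 (.arc (nat_lit 56) n4715 (.arc (nat_lit 59) n4711 (.fin (nat_lit 609153173) (nat_lit 0)))))))))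
def n5947 : Nd := .arc (nat_lit 9) n5946 (.fin (nat_lit 676753557) (nat_lit 0))
def n5948 : Nd := .arc (nat_lit 6) n5932 (.arc (nat_lit 52) n4688 (.arc (nat_lit 55) n4692 (.arc (nat_lit 58) n4695 (.fin (nat_lit 609136789) (nat_lit 0)))))
def n5949 : Nd := .arc (nat_lit 3) n5947 (.arc (nat_lit 6) n5948 (.fin (nat_lit 338595989) (nat_lit 0)))
def n5950 : Nd := .arc (nat_lit 6) n5946 (.fin (nat_lit 338604181) (nat_lit 0))
def n5951 : Nd := .arc (nat_lit 9) n5934 (.fin (nat_lit 609120405) (nat_lit 0))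
def n5952 : Nd := .arc (nat_lit 3) n5950 (.arc (nat_lit 9) n5951 (.fin (nat_lit 676745365) (nat_lit 0)))
def n5953 : Nd := .arc (nat_lit 3) n5945 (.arc (nat_lit 6) n5949 (.arc (nat_lit 9) n5952 (.fin (nat_lit 406196373) (nat_lit 0))))
def n5954 : Nd := .arc (nat_lit 3) n5937 (.arc (nat_lit 40) n4740 (.arc (nat_lit 43) n4741 (.arc (nat_lit 46) n4742 (.fin (nat_lit 609144981) (nat_lit 0)))))
def n5955 : Nd := .arc (nat_lit 3) n5946 (.fin (nat_lit 406245525) (nat_lit 0))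
def n5956 : Nd := .arc (nat_lit 6) n5954 (.arc (nat_lit 9) n5955 (.fin (nat_lit 338571413) (nat_lit 0)))
def n5957 : Nd := .arc (nat_lit 3) n5951 (.arc (nat_lit 6) n5950 (.fin (nat_lit 406229141) (nat_lit 0)))
def n5958 : Nd := .arc (nat_lit 3) n5939 (.arc (nat_lit 9) n5938 (.fin (nat_lit 609112213) (nat_lit 0)))
def n5959 : Nd := .arc (nat_lit 3) n5956 (.arc (nat_lit 6) n5957 (.arc (nat_lit 9) n5958 (.fin (nat_lit 676728981) (nat_lit 0))))
def n5960 : Nd := .arc (nat_lit 6) n5955 (.arc (nat_lit 9) n5954 (.fin (nat_lit 676737173) (nat_lit 0)))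
def n5961 : Nd := .arc (nat_lit 3) n5942 (.arc (nat_lit 6) n5941 (.fin (nat_lit 609128597) (nat_lit 0)))
def n5962 : Nd := .arc (nat_lit 3) n5948 (.arc (nat_lit 9) n5947 (.fin (nat_lit 406212757) (nat_lit 0)))
def n5963 : Nd := .arc (nat_lit 3) n5960 (.arc (nat_lit 6) n5961 (.arc (nat_lit 9) n5962 (.fin (nat_lit 338563221) (nat_lit 0))))
def n5964 : Nd := .arc (nat_lit 38) n5771 (.arc (nat_lit 41) n5767 (.arc (nat_lit 44) n5761 (.arc (nat_lit 47) n5752 (.arc (nat_lit 50) n5739 (.arc (nat_lit 53) n5735 (.arc (nat_lit 56) n5729 (.arc (nat_lit 59) n5720 (.fin (nat_lit 575598743) (nat_lit 0)))))))))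
def n5965 : Nd := .arc (nat_lit 3) n5964 (.fin (nat_lit 305582233) (nat_lit 0))
def n5966 : Nd := .arc (nat_lit 26) n5771 (.arc (nat_lit 29) n5767 (.arc (nat_lit 32) n5752 (.arc (nat_lit 35) n5761 (.arc (nat_lit 62) n5739 (.arc (nat_lit 65) n5735 (.arc (nat_lit 68) n5720 (.arc (nat_lit 71) n5729 (.fin (nat_lit 305590425) (nat_lit 0)))))))))
def n5967 : Nd := .arc (nat_lit 3) n5966 (.arc (nat_lit 40) n5768 (.arc (nat_lit 43) n5769 (.arc (nat_lit 46) n5770 (.fin (nat_lit 575590551) (nat_lit 0)))))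
def n5968 : Nd := .arc (nat_lit 6) n5965 (.arc (nat_lit 9) n5967 (.fin (nat_lit 173420701) (nat_lit 0)))
def n5969 : Nd := .arc (nat_lit 26) n5739 (.arc (nat_lit 29) n5735 (.arc (nat_lit 32) n5720 (.arc (nat_lit 35) n5729 (.arc (nat_lit 50) n5771 (.arc (nat_lit 53) n5767 (.arc (nat_lit 56) n5761 (.arc (nat_lit 59) n5752 (.fin (nat_lit 173469853) (nat_lit 0)))))))))
def n5970 : Nd := .arc (nat_lit 9) n5969 (.arc (nat_lit 64) n5736 (.arc (nat_lit 67) n5738 (.arc (nat_lit 70) n5737 (.fin (nat_lit 305557657) (nat_lit 0)))))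
def n5971 : Nd := .arc (nat_lit 6) n5966 (.arc (nat_lit 52) n5768 (.arc (nat_lit 55) n5769 (.arc (nat_lit 58) n5770 (.fin (nat_lit 173453469) (nat_lit 0)))))
def n5972 : Nd := .arc (nat_lit 3) n5970 (.arc (nat_lit 6) n5971 (.fin (nat_lit 575574167) (nat_lit 0)))
def n5973 : Nd := .arc (nat_lit 6) n5969 (.arc (nat_lit 52) n5736 (.arc (nat_lit 55) n5737 (.arc (nat_lit 58) n5738 (.fin (nat_lit 575582359) (nat_lit 0)))))
def n5974 : Nd := .arc (nat_lit 9) n5964 (.fin (nat_lit 173437085) (nat_lit 0))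
def n5975 : Nd := .arc (nat_lit 3) n5973 (.arc (nat_lit 9) n5974 (.fin (nat_lit 305549465) (nat_lit 0)))
def n5976 : Nd := .arc (nat_lit 3) n5968 (.arc (nat_lit 6) n5972 (.arc (nat_lit 9) n5975 (.fin (nat_lit 103682203) (nat_lit 0))))
def n5977 : Nd := .arc (nat_lit 6) n5967 (.arc (nat_lit 9) n5965 (.fin (nat_lit 103690395) (nat_lit 0)))
def n5978 : Nd := .arc (nat_lit 38) n5739 (.arc (nat_lit 41) n5735 (.arc (nat_lit 44) n5729 (.arc (nat_lit 47) n5720 (.arc (nat_lit 62) n5771 (.arc (nat_lit 65) n5767 (.arc (nat_lit 68) n5752 (.arc (nat_lit 71) n5761 (.fin (nat_lit 103739547) (nat_lit 0)))))))))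
def n5979 : Nd := .arc (nat_lit 9) n5978 (.fin (nat_lit 575565975) (nat_lit 0))
def n5980 : Nd := .arc (nat_lit 6) n5964 (.fin (nat_lit 103723163) (nat_lit 0))
def n5981 : Nd := .arc (nat_lit 3) n5979 (.arc (nat_lit 6) n5980 (.fin (nat_lit 305565849) (nat_lit 0)))
def n5982 : Nd := .arc (nat_lit 6) n5978 (.fin (nat_lit 305574041) (nat_lit 0))
def n5983 : Nd := .arc (nat_lit 9) n5966 (.arc (nat_lit 64) n5768 (.arc (nat_lit 67) n5770 (.arc (nat_lit 70) n5769 (.fin (nat_lit 103706779) (nat_lit 0)))))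
def n5984 : Nd := .arc (nat_lit 3) n5982 (.arc (nat_lit 9) n5983 (.fin (nat_lit 575557783) (nat_lit 0)))
def n5985 : Nd := .arc (nat_lit 3) n5977 (.arc (nat_lit 6) n5981 (.arc (nat_lit 9) n5984 (.fin (nat_lit 173412509) (nat_lit 0))))
def n5986 : Nd := .arc (nat_lit 3) n5969 (.arc (nat_lit 40) n5736 (.arc (nat_lit 43) n5737 (.arc (nat_lit 46) n5738 (.fin (nat_lit 103731355) (nat_lit 0)))))
def n5987 : Nd := .arc (nat_lit 3) n5978 (.fin (nat_lit 173461661) (nat_lit 0))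
def n5988 : Nd := .arc (nat_lit 6) n5986 (.arc (nat_lit 9) n5987 (.fin (nat_lit 305541273) (nat_lit 0)))
def n5989 : Nd := .arc (nat_lit 3) n5983 (.arc (nat_lit 6) n5982 (.fin (nat_lit 173445277) (nat_lit 0)))
def n5990 : Nd := .arc (nat_lit 3) n5971 (.arc (nat_lit 9) n5970 (.fin (nat_lit 103698587) (nat_lit 0)))
def n5991 : Nd := .arc (nat_lit 3) n5988 (.arc (nat_lit 6) n5989 (.arc (nat_lit 9) n5990 (.fin (nat_lit 575541399) (nat_lit 0))))
def n5992 : Nd := .arc (nat_lit 6) n5987 (.arc (nat_lit 9) n5986 (.fin (nat_lit 575549591) (nat_lit 0)))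
def n5993 : Nd := .arc (nat_lit 3) n5974 (.arc (nat_lit 6) n5973 (.fin (nat_lit 103714971) (nat_lit 0)))
def n5994 : Nd := .arc (nat_lit 3) n5980 (.arc (nat_lit 9) n5979 (.fin (nat_lit 173428893) (nat_lit 0)))
def n5995 : Nd := .arc (nat_lit 3) n5992 (.arc (nat_lit 6) n5993 (.arc (nat_lit 9) n5994 (.fin (nat_lit 305533081) (nat_lit 0))))
def n5996 : Nd := .arc (nat_lit 14) n5912 (.arc (nat_lit 17) n5921 (.arc (nat_lit 20) n5927 (.arc (nat_lit 23) n5931 (.arc (nat_lit 38) n5944 (.arc (nat_lit 41) n5953 (.arc (nat_lit 44) n5959 (.arc (nat_lit 47) n5963 (.arc (nat_lit 50) n5976 (.arc (nat_lit 53) n5985 (.arc (nat_lit 56) n5991 (.arc (nat_lit 59) n5995 (.fin (nat_lit 558559383) (nat_lit 0)))))))))))))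
def n5997 : Nd := .arc (nat_lit 3) n5996 (.fin (nat_lit 288542873) (nat_lit 0))
def n5998 : Nd := .arc (nat_lit 14) n5921 (.arc (nat_lit 17) n5912 (.arc (nat_lit 20) n5931 (.arc (nat_lit 23) n5927 (.arc (nat_lit 26) n5944 (.arc (nat_lit 29) n5953 (.arc (nat_lit 32) n5963 (.arc (nat_lit 35) n5959 (.arc (nat_lit 62) n5976 (.arc (nat_lit 65) n5985 (.arc (nat_lit 68) n5995 (.arc (nat_lit 71) n5991 (.fin (nat_lit 288551065) (nat_lit 0)))))))))))))
def n5999 : Nd := .arc (nat_lit 3) n5998 (.arc (nat_lit 40) n5936 (.arc (nat_lit 43) n5940 (.arc (nat_lit 46) n5943 (.fin (nat_lit 558551191) (nat_lit 0)))))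
def n6000 : Nd := .arc (nat_lit 6) n5997 (.arc (nat_lit 9) n5999 (.fin (nat_lit 156381341) (nat_lit 0)))
def n6001 : Nd := .arc (nat_lit 14) n5927 (.arc (nat_lit 17) n5931 (.arc (nat_lit 20) n5921 (.arc (nat_lit 23) n5912 (.arc (nat_lit 26) n5976 (.arc (nat_lit 29) n5985 (.arc (nat_lit 32) n5995 (.arc (nat_lit 35) n5991 (.arc (nat_lit 50) n5944 (.arc (nat_lit 53) n5953 (.arc (nat_lit 56) n5959 (.arc (nat_lit 59) n5963 (.fin (nat_lit 156430493) (nat_lit 0)))))))))))))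
def n6002 : Nd := .arc (nat_lit 9) n6001 (.arc (nat_lit 64) n5968 (.arc (nat_lit 67) n5975 (.arc (nat_lit 70) n5972 (.fin (nat_lit 288518297) (nat_lit 0)))))
def n6003 : Nd := .arc (nat_lit 6) n5998 (.arc (nat_lit 52) n5936 (.arc (nat_lit 55) n5940 (.arc (nat_lit 58) n5943 (.fin (nat_lit 156414109) (nat_lit 0)))))
def n6004 : Nd := .arc (nat_lit 3) n6002 (.arc (nat_lit 6) n6003 (.fin (nat_lit 558534807) (nat_lit 0)))
def n6005 : Nd := .arc (nat_lit 6) n6001 (.arc (nat_lit 52) n5968 (.arc (nat_lit 55) n5972 (.arc (nat_lit 58) n5975 (.fin (nat_lit 558542999) (nat_lit 0)))))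
def n6006 : Nd := .arc (nat_lit 9) n5996 (.fin (nat_lit 156397725) (nat_lit 0))
def n6007 : Nd := .arc (nat_lit 3) n6005 (.arc (nat_lit 9) n6006 (.fin (nat_lit 288510105) (nat_lit 0)))
def n6008 : Nd := .arc (nat_lit 3) n6000 (.arc (nat_lit 6) n6004 (.arc (nat_lit 9) n6007 (.fin (nat_lit 86642843) (nat_lit 0))))
def n6009 : Nd := .arc (nat_lit 6) n5999 (.arc (nat_lit 9) n5997 (.fin (nat_lit 86651035) (nat_lit 0)))
def n6010 : Nd := .arc (nat_lit 14) n5931 (.arc (nat_lit 17) n5927 (.arc (nat_lit 20) n5912 (.arc (nat_lit 23) n5921 (.arc (nat_lit 38) n5976 (.arc (nat_lit 41) n5985 (.arc (nat_lit 44) n5991 (.arc (nat_lit 47) n5995 (.arc (nat_lit 62) n5944 (.arc (nat_lit 65) n5953 (.arc (nat_lit 68) n5963 (.arc (nat_lit 71) n5959 (.fin (nat_lit 86700187) (nat_lit 0)))))))))))))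
def n6011 : Nd := .arc (nat_lit 9) n6010 (.fin (nat_lit 558526615) (nat_lit 0))
def n6012 : Nd := .arc (nat_lit 6) n5996 (.fin (nat_lit 86683803) (nat_lit 0))
def n6013 : Nd := .arc (nat_lit 3) n6011 (.arc (nat_lit 6) n6012 (.fin (nat_lit 288526489) (nat_lit 0)))
def n6014 : Nd := .arc (nat_lit 6) n6010 (.fin (nat_lit 288534681) (nat_lit 0))
def n6015 : Nd := .arc (nat_lit 9) n5998 (.arc (nat_lit 64) n5936 (.arc (nat_lit 67) n5943 (.arc (nat_lit 70) n5940 (.fin (nat_lit 86667419) (nat_lit 0)))))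
def n6016 : Nd := .arc (nat_lit 3) n6014 (.arc (nat_lit 9) n6015 (.fin (nat_lit 558518423) (nat_lit 0)))
def n6017 : Nd := .arc (nat_lit 3) n6009 (.arc (nat_lit 6) n6013 (.arc (nat_lit 9) n6016 (.fin (nat_lit 156373149) (nat_lit 0))))
def n6018 : Nd := .arc (nat_lit 3) n6010 (.fin (nat_lit 156422301) (nat_lit 0))
def n6019 : Nd := .arc (nat_lit 3) n6001 (.arc (nat_lit 40) n5968 (.arc (nat_lit 43) n5972 (.arc (nat_lit 46) n5975 (.fin (nat_lit 86691995) (nat_lit 0)))))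
def n6020 : Nd := .arc (nat_lit 6) n6018 (.arc (nat_lit 9) n6019 (.fin (nat_lit 558510231) (nat_lit 0)))
def n6021 : Nd := .arc (nat_lit 3) n6006 (.arc (nat_lit 6) n6005 (.fin (nat_lit 86675611) (nat_lit 0)))
def n6022 : Nd := .arc (nat_lit 3) n6012 (.arc (nat_lit 9) n6011 (.fin (nat_lit 156389533) (nat_lit 0)))
def n6023 : Nd := .arc (nat_lit 3) n6020 (.arc (nat_lit 6) n6021 (.arc (nat_lit 9) n6022 (.fin (nat_lit 288493721) (nat_lit 0))))
def n6024 : Nd := .arc (nat_lit 6) n6019 (.arc (nat_lit 9) n6018 (.fin (nat_lit 288501913) (nat_lit 0)))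
def n6025 : Nd := .arc (nat_lit 3) n6015 (.arc (nat_lit 6) n6014 (.fin (nat_lit 156405917) (nat_lit 0)))
def n6026 : Nd := .arc (nat_lit 3) n6003 (.arc (nat_lit 9) n6002 (.fin (nat_lit 86659227) (nat_lit 0)))
def n6027 : Nd := .arc (nat_lit 3) n6024 (.arc (nat_lit 6) n6025 (.arc (nat_lit 9) n6026 (.fin (nat_lit 558502039) (nat_lit 0))))
def n6028 : Nd := .arc (nat_lit 38) n5857 (.arc (nat_lit 41) n5848 (.arc (nat_lit 44) n5867 (.arc (nat_lit 47) n5863 (.arc (nat_lit 62) n5889 (.arc (nat_lit 65) n5880 (.arc (nat_lit 68) n5895 (.arc (nat_lit 71) n5899 (.fin (nat_lit 86962331) (nat_lit 0)))))))))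
def n6029 : Nd := .arc (nat_lit 3) n6028 (.fin (nat_lit 156684445) (nat_lit 0))
def n6030 : Nd := .arc (nat_lit 26) n5857 (.arc (nat_lit 29) n5848 (.arc (nat_lit 32) n5863 (.arc (nat_lit 35) n5867 (.arc (nat_lit 50) n5889 (.arc (nat_lit 53) n5880 (.arc (nat_lit 56) n5899 (.arc (nat_lit 59) n5895 (.fin (nat_lit 156692637) (nat_lit 0)))))))))
def n6031 : Nd := .arc (nat_lit 3) n6030 (.arc (nat_lit 40) n5849 (.arc (nat_lit 43) n5853 (.arc (nat_lit 46) n5856 (.fin (nat_lit 86954139) (nat_lit 0)))))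
def n6032 : Nd := .arc (nat_lit 6) n6029 (.arc (nat_lit 9) n6031 (.fin (nat_lit 558772375) (nat_lit 0)))
def n6033 : Nd := .arc (nat_lit 38) n5889 (.arc (nat_lit 41) n5880 (.arc (nat_lit 44) n5899 (.arc (nat_lit 47) n5895 (.arc (nat_lit 50) n5857 (.arc (nat_lit 53) n5848 (.arc (nat_lit 56) n5867 (.arc (nat_lit 59) n5863 (.fin (nat_lit 558821527) (nat_lit 0)))))))))
def n6034 : Nd := .arc (nat_lit 9) n6033 (.fin (nat_lit 156659869) (nat_lit 0))
def n6035 : Nd := .arc (nat_lit 6) n6030 (.arc (nat_lit 52) n5849 (.arc (nat_lit 55) n5853 (.arc (nat_lit 58) n5856 (.fin (nat_lit 558805143) (nat_lit 0)))))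
def n6036 : Nd := .arc (nat_lit 3) n6034 (.arc (nat_lit 6) n6035 (.fin (nat_lit 86937755) (nat_lit 0)))
def n6037 : Nd := .arc (nat_lit 6) n6033 (.fin (nat_lit 86945947) (nat_lit 0))
def n6038 : Nd := .arc (nat_lit 9) n6028 (.fin (nat_lit 558788759) (nat_lit 0))
def n6039 : Nd := .arc (nat_lit 3) n6037 (.arc (nat_lit 9) n6038 (.fin (nat_lit 156651677) (nat_lit 0)))
def n6040 : Nd := .arc (nat_lit 3) n6032 (.arc (nat_lit 6) n6036 (.arc (nat_lit 9) n6039 (.fin (nat_lit 288755865) (nat_lit 0))))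
def n6041 : Nd := .arc (nat_lit 6) n6031 (.arc (nat_lit 9) n6029 (.fin (nat_lit 288764057) (nat_lit 0)))
def n6042 : Nd := .arc (nat_lit 26) n5889 (.arc (nat_lit 29) n5880 (.arc (nat_lit 32) n5895 (.arc (nat_lit 35) n5899 (.arc (nat_lit 62) n5857 (.arc (nat_lit 65) n5848 (.arc (nat_lit 68) n5863 (.arc (nat_lit 71) n5867 (.fin (nat_lit 288813209) (nat_lit 0)))))))))
def n6043 : Nd := .arc (nat_lit 9) n6042 (.arc (nat_lit 64) n5881 (.arc (nat_lit 67) n5888 (.arc (nat_lit 70) n5885 (.fin (nat_lit 86929563) (nat_lit 0)))))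
def n6044 : Nd := .arc (nat_lit 6) n6028 (.fin (nat_lit 288796825) (nat_lit 0))
def n6045 : Nd := .arc (nat_lit 3) n6043 (.arc (nat_lit 6) n6044 (.fin (nat_lit 156668061) (nat_lit 0)))
def n6046 : Nd := .arc (nat_lit 6) n6042 (.arc (nat_lit 52) n5881 (.arc (nat_lit 55) n5885 (.arc (nat_lit 58) n5888 (.fin (nat_lit 156676253) (nat_lit 0)))))
def n6047 : Nd := .arc (nat_lit 9) n6030 (.arc (nat_lit 64) n5849 (.arc (nat_lit 67) n5856 (.arc (nat_lit 70) n5853 (.fin (nat_lit 288780441) (nat_lit 0)))))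
def n6048 : Nd := .arc (nat_lit 3) n6046 (.arc (nat_lit 9) n6047 (.fin (nat_lit 86921371) (nat_lit 0)))
def n6049 : Nd := .arc (nat_lit 3) n6041 (.arc (nat_lit 6) n6045 (.arc (nat_lit 9) n6048 (.fin (nat_lit 558764183) (nat_lit 0))))
def n6050 : Nd := .arc (nat_lit 3) n6042 (.arc (nat_lit 40) n5881 (.arc (nat_lit 43) n5885 (.arc (nat_lit 46) n5888 (.fin (nat_lit 558813335) (nat_lit 0)))))
def n6051 : Nd := .arc (nat_lit 3) n6033 (.fin (nat_lit 288805017) (nat_lit 0))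
def n6052 : Nd := .arc (nat_lit 6) n6050 (.arc (nat_lit 9) n6051 (.fin (nat_lit 86913179) (nat_lit 0)))
def n6053 : Nd := .arc (nat_lit 3) n6038 (.arc (nat_lit 6) n6037 (.fin (nat_lit 288788633) (nat_lit 0)))
def n6054 : Nd := .arc (nat_lit 3) n6044 (.arc (nat_lit 9) n6043 (.fin (nat_lit 558780567) (nat_lit 0)))
def n6055 : Nd := .arc (nat_lit 3) n6052 (.arc (nat_lit 6) n6053 (.arc (nat_lit 9) n6054 (.fin (nat_lit 156635293) (nat_lit 0))))
def n6056 : Nd := .arc (nat_lit 6) n6051 (.arc (nat_lit 9) n6050 (.fin (nat_lit 156643485) (nat_lit 0)))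
def n6057 : Nd := .arc (nat_lit 3) n6047 (.arc (nat_lit 6) n6046 (.fin (nat_lit 558796951) (nat_lit 0)))
def n6058 : Nd := .arc (nat_lit 3) n6035 (.arc (nat_lit 9) n6034 (.fin (nat_lit 288772249) (nat_lit 0)))
def n6059 : Nd := .arc (nat_lit 3) n6056 (.arc (nat_lit 6) n6057 (.arc (nat_lit 9) n6058 (.fin (nat_lit 86904987) (nat_lit 0))))
def n6060 : Nd := .arc (nat_lit 38) n5089 (.arc (nat_lit 41) n5080 (.arc (nat_lit 44) n5095 (.arc (nat_lit 47) n5099 (.arc (nat_lit 50) n5131 (.arc (nat_lit 53) n5127 (.arc (nat_lit 56) n5112 (.arc (nat_lit 59) n5121 (.fin (nat_lit 340717717) (nat_lit 0)))))))))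
def n6061 : Nd := .arc (nat_lit 3) n6060 (.fin (nat_lit 674680981) (nat_lit 0))
def n6062 : Nd := .arc (nat_lit 26) n5089 (.arc (nat_lit 29) n5080 (.arc (nat_lit 32) n5099 (.arc (nat_lit 35) n5095 (.arc (nat_lit 62) n5131 (.arc (nat_lit 65) n5127 (.arc (nat_lit 68) n5121 (.arc (nat_lit 71) n5112 (.fin (nat_lit 674689173) (nat_lit 0)))))))))
def n6063 : Nd := .arc (nat_lit 3) n6062 (.arc (nat_lit 40) n5081 (.arc (nat_lit 43) n5085 (.arc (nat_lit 46) n5088 (.fin (nat_lit 340709525) (nat_lit 0)))))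
def n6064 : Nd := .arc (nat_lit 6) n6061 (.arc (nat_lit 9) n6063 (.fin (nat_lit 609628309) (nat_lit 0)))
def n6065 : Nd := .arc (nat_lit 26) n5131 (.arc (nat_lit 29) n5127 (.arc (nat_lit 32) n5121 (.arc (nat_lit 35) n5112 (.arc (nat_lit 50) n5089 (.arc (nat_lit 53) n5080 (.arc (nat_lit 56) n5095 (.arc (nat_lit 59) n5099 (.fin (nat_lit 609677461) (nat_lit 0)))))))))
def n6066 : Nd := .arc (nat_lit 9) n6065 (.arc (nat_lit 64) n5128 (.arc (nat_lit 67) n5130 (.arc (nat_lit 70) n5129 (.fin (nat_lit 674656405) (nat_lit 0)))))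
def n6067 : Nd := .arc (nat_lit 6) n6062 (.arc (nat_lit 52) n5081 (.arc (nat_lit 55) n5085 (.arc (nat_lit 58) n5088 (.fin (nat_lit 609661077) (nat_lit 0)))))
def n6068 : Nd := .arc (nat_lit 3) n6066 (.arc (nat_lit 6) n6067 (.fin (nat_lit 340693141) (nat_lit 0)))
def n6069 : Nd := .arc (nat_lit 6) n6065 (.arc (nat_lit 52) n5128 (.arc (nat_lit 55) n5129 (.arc (nat_lit 58) n5130 (.fin (nat_lit 340701333) (nat_lit 0)))))
def n6070 : Nd := .arc (nat_lit 9) n6060 (.fin (nat_lit 609644693) (nat_lit 0))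
def n6071 : Nd := .arc (nat_lit 3) n6069 (.arc (nat_lit 9) n6070 (.fin (nat_lit 674648213) (nat_lit 0)))
def n6072 : Nd := .arc (nat_lit 3) n6064 (.arc (nat_lit 6) n6068 (.arc (nat_lit 9) n6071 (.fin (nat_lit 405672085) (nat_lit 0))))
def n6073 : Nd := .arc (nat_lit 6) n6063 (.arc (nat_lit 9) n6061 (.fin (nat_lit 405680277) (nat_lit 0)))
def n6074 : Nd := .arc (nat_lit 38) n5131 (.arc (nat_lit 41) n5127 (.arc (nat_lit 44) n5112 (.arc (nat_lit 47) n5121 (.arc (nat_lit 62) n5089 (.arc (nat_lit 65) n5080 (.arc (nat_lit 68) n5099 (.arc (nat_lit 71) n5095 (.fin (nat_lit 405729429) (nat_lit 0)))))))))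
def n6075 : Nd := .arc (nat_lit 9) n6074 (.fin (nat_lit 340684949) (nat_lit 0))
def n6076 : Nd := .arc (nat_lit 6) n6060 (.fin (nat_lit 405713045) (nat_lit 0))
def n6077 : Nd := .arc (nat_lit 3) n6075 (.arc (nat_lit 6) n6076 (.fin (nat_lit 674664597) (nat_lit 0)))
def n6078 : Nd := .arc (nat_lit 6) n6074 (.fin (nat_lit 674672789) (nat_lit 0))
def n6079 : Nd := .arc (nat_lit 9) n6062 (.arc (nat_lit 64) n5081 (.arc (nat_lit 67) n5088 (.arc (nat_lit 70) n5085 (.fin (nat_lit 405696661) (nat_lit 0)))))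
def n6080 : Nd := .arc (nat_lit 3) n6078 (.arc (nat_lit 9) n6079 (.fin (nat_lit 340676757) (nat_lit 0)))
def n6081 : Nd := .arc (nat_lit 3) n6073 (.arc (nat_lit 6) n6077 (.arc (nat_lit 9) n6080 (.fin (nat_lit 609620117) (nat_lit 0))))
def n6082 : Nd := .arc (nat_lit 3) n6074 (.fin (nat_lit 609669269) (nat_lit 0))
def n6083 : Nd := .arc (nat_lit 3) n6065 (.arc (nat_lit 40) n5128 (.arc (nat_lit 43) n5129 (.arc (nat_lit 46) n5130 (.fin (nat_lit 405721237) (nat_lit 0)))))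
def n6084 : Nd := .arc (nat_lit 6) n6082 (.arc (nat_lit 9) n6083 (.fin (nat_lit 340668565) (nat_lit 0)))
def n6085 : Nd := .arc (nat_lit 3) n6070 (.arc (nat_lit 6) n6069 (.fin (nat_lit 405704853) (nat_lit 0)))
def n6086 : Nd := .arc (nat_lit 3) n6076 (.arc (nat_lit 9) n6075 (.fin (nat_lit 609636501) (nat_lit 0)))
def n6087 : Nd := .arc (nat_lit 3) n6084 (.arc (nat_lit 6) n6085 (.arc (nat_lit 9) n6086 (.fin (nat_lit 674631829) (nat_lit 0))))
def n6088 : Nd := .arc (nat_lit 6) n6083 (.arc (nat_lit 9) n6082 (.fin (nat_lit 674640021) (nat_lit 0)))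
def n6089 : Nd := .arc (nat_lit 3) n6079 (.arc (nat_lit 6) n6078 (.fin (nat_lit 609652885) (nat_lit 0)))
def n6090 : Nd := .arc (nat_lit 3) n6067 (.arc (nat_lit 9) n6066 (.fin (nat_lit 405688469) (nat_lit 0)))
def n6091 : Nd := .arc (nat_lit 3) n6088 (.arc (nat_lit 6) n6089 (.arc (nat_lit 9) n6090 (.fin (nat_lit 340660373) (nat_lit 0))))
def n6092 : Nd := .arc (nat_lit 26) n5675 (.arc (nat_lit 29) n5671 (.arc (nat_lit 32) n5665 (.arc (nat_lit 35) n5656 (.arc (nat_lit 50) n5643 (.arc (nat_lit 53) n5639 (.arc (nat_lit 56) n5633 (.arc (nat_lit 59) n5624 (.fin (nat_lit 307687577) (nat_lit 0)))))))))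
def n6093 : Nd := .arc (nat_lit 3) n6092 (.arc (nat_lit 40) n5672 (.arc (nat_lit 43) n5673 (.arc (nat_lit 46) n5674 (.fin (nat_lit 573493399) (nat_lit 0)))))
def n6094 : Nd := .arc (nat_lit 38) n5675 (.arc (nat_lit 41) n5671 (.arc (nat_lit 44) n5656 (.arc (nat_lit 47) n5665 (.arc (nat_lit 62) n5643 (.arc (nat_lit 65) n5639 (.arc (nat_lit 68) n5624 (.arc (nat_lit 71) n5633 (.fin (nat_lit 573501591) (nat_lit 0)))))))))
def n6095 : Nd := .arc (nat_lit 3) n6094 (.fin (nat_lit 307679385) (nat_lit 0))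
def n6096 : Nd := .arc (nat_lit 6) n6093 (.arc (nat_lit 9) n6095 (.fin (nat_lit 104214683) (nat_lit 0)))
def n6097 : Nd := .arc (nat_lit 26) n5643 (.arc (nat_lit 29) n5639 (.arc (nat_lit 32) n5624 (.arc (nat_lit 35) n5633 (.arc (nat_lit 62) n5675 (.arc (nat_lit 65) n5671 (.arc (nat_lit 68) n5665 (.arc (nat_lit 71) n5656 (.fin (nat_lit 104263835) (nat_lit 0)))))))))
def n6098 : Nd := .arc (nat_lit 9) n6097 (.arc (nat_lit 64) n5640 (.arc (nat_lit 67) n5642 (.arc (nat_lit 70) n5641 (.fin (nat_lit 573468823) (nat_lit 0)))))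
def n6099 : Nd := .arc (nat_lit 6) n6094 (.fin (nat_lit 104247451) (nat_lit 0))
def n6100 : Nd := .arc (nat_lit 3) n6098 (.arc (nat_lit 6) n6099 (.fin (nat_lit 307663001) (nat_lit 0)))
def n6101 : Nd := .arc (nat_lit 6) n6097 (.arc (nat_lit 52) n5640 (.arc (nat_lit 55) n5641 (.arc (nat_lit 58) n5642 (.fin (nat_lit 307671193) (nat_lit 0)))))
def n6102 : Nd := .arc (nat_lit 9) n6092 (.arc (nat_lit 64) n5672 (.arc (nat_lit 67) n5674 (.arc (nat_lit 70) n5673 (.fin (nat_lit 104231067) (nat_lit 0)))))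
def n6103 : Nd := .arc (nat_lit 3) n6101 (.arc (nat_lit 9) n6102 (.fin (nat_lit 573460631) (nat_lit 0)))
def n6104 : Nd := .arc (nat_lit 3) n6096 (.arc (nat_lit 6) n6100 (.arc (nat_lit 9) n6103 (.fin (nat_lit 172888221) (nat_lit 0))))
def n6105 : Nd := .arc (nat_lit 6) n6095 (.arc (nat_lit 9) n6093 (.fin (nat_lit 172896413) (nat_lit 0)))
def n6106 : Nd := .arc (nat_lit 38) n5643 (.arc (nat_lit 41) n5639 (.arc (nat_lit 44) n5633 (.arc (nat_lit 47) n5624 (.arc (nat_lit 50) n5675 (.arc (nat_lit 53) n5671 (.arc (nat_lit 56) n5656 (.arc (nat_lit 59) n5665 (.fin (nat_lit 172945565) (nat_lit 0)))))))))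
def n6107 : Nd := .arc (nat_lit 9) n6106 (.fin (nat_lit 307654809) (nat_lit 0))
def n6108 : Nd := .arc (nat_lit 6) n6092 (.arc (nat_lit 52) n5672 (.arc (nat_lit 55) n5673 (.arc (nat_lit 58) n5674 (.fin (nat_lit 172929181) (nat_lit 0)))))
def n6109 : Nd := .arc (nat_lit 3) n6107 (.arc (nat_lit 6) n6108 (.fin (nat_lit 573477015) (nat_lit 0)))
def n6110 : Nd := .arc (nat_lit 6) n6106 (.fin (nat_lit 573485207) (nat_lit 0))
def n6111 : Nd := .arc (nat_lit 9) n6094 (.fin (nat_lit 172912797) (nat_lit 0))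
def n6112 : Nd := .arc (nat_lit 3) n6110 (.arc (nat_lit 9) n6111 (.fin (nat_lit 307646617) (nat_lit 0)))
def n6113 : Nd := .arc (nat_lit 3) n6105 (.arc (nat_lit 6) n6109 (.arc (nat_lit 9) n6112 (.fin (nat_lit 104206491) (nat_lit 0))))
def n6114 : Nd := .arc (nat_lit 3) n6097 (.arc (nat_lit 40) n5640 (.arc (nat_lit 43) n5641 (.arc (nat_lit 46) n5642 (.fin (nat_lit 172937373) (nat_lit 0)))))
def n6115 : Nd := .arc (nat_lit 3) n6106 (.fin (nat_lit 104255643) (nat_lit 0))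
def n6116 : Nd := .arc (nat_lit 6) n6114 (.arc (nat_lit 9) n6115 (.fin (nat_lit 573452439) (nat_lit 0)))
def n6117 : Nd := .arc (nat_lit 3) n6111 (.arc (nat_lit 6) n6110 (.fin (nat_lit 104239259) (nat_lit 0)))
def n6118 : Nd := .arc (nat_lit 3) n6099 (.arc (nat_lit 9) n6098 (.fin (nat_lit 172904605) (nat_lit 0)))
def n6119 : Nd := .arc (nat_lit 3) n6116 (.arc (nat_lit 6) n6117 (.arc (nat_lit 9) n6118 (.fin (nat_lit 307630233) (nat_lit 0))))
def n6120 : Nd := .arc (nat_lit 6) n6115 (.arc (nat_lit 9) n6114 (.fin (nat_lit 307638425) (nat_lit 0)))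
def n6121 : Nd := .arc (nat_lit 3) n6102 (.arc (nat_lit 6) n6101 (.fin (nat_lit 172920989) (nat_lit 0)))
def n6122 : Nd := .arc (nat_lit 3) n6108 (.arc (nat_lit 9) n6107 (.fin (nat_lit 104222875) (nat_lit 0)))
def n6123 : Nd := .arc (nat_lit 3) n6120 (.arc (nat_lit 6) n6121 (.arc (nat_lit 9) n6122 (.fin (nat_lit 573444247) (nat_lit 0))))
def n6124 : Nd := .arc (nat_lit 14) n6040 (.arc (nat_lit 17) n6049 (.arc (nat_lit 20) n6055 (.arc (nat_lit 23) n6059 (.arc (nat_lit 26) n6072 (.arc (nat_lit 29) n6081 (.arc (nat_lit 32) n6087 (.arc (nat_lit 35) n6091 (.arc (nat_lit 50) n6104 (.arc (nat_lit 53) n6113 (.arc (nat_lit 56) n6119 (.arc (nat_lit 59) n6123 (.fin (nat_lit 575860889) (nat_lit 0)))))))))))))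
def n6125 : Nd := .arc (nat_lit 3) n6124 (.arc (nat_lit 40) n6064 (.arc (nat_lit 43) n6068 (.arc (nat_lit 46) n6071 (.fin (nat_lit 304795799) (nat_lit 0)))))
def n6126 : Nd := .arc (nat_lit 14) n6049 (.arc (nat_lit 17) n6040 (.arc (nat_lit 20) n6059 (.arc (nat_lit 23) n6055 (.arc (nat_lit 38) n6072 (.arc (nat_lit 41) n6081 (.arc (nat_lit 44) n6091 (.arc (nat_lit 47) n6087 (.arc (nat_lit 62) n6104 (.arc (nat_lit 65) n6113 (.arc (nat_lit 68) n6123 (.arc (nat_lit 71) n6119 (.fin (nat_lit 304803991) (nat_lit 0)))))))))))))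
def n6127 : Nd := .arc (nat_lit 3) n6126 (.fin (nat_lit 575852697) (nat_lit 0))
def n6128 : Nd := .arc (nat_lit 6) n6125 (.arc (nat_lit 9) n6127 (.fin (nat_lit 171061403) (nat_lit 0)))
def n6129 : Nd := .arc (nat_lit 14) n6055 (.arc (nat_lit 17) n6059 (.arc (nat_lit 20) n6049 (.arc (nat_lit 23) n6040 (.arc (nat_lit 26) n6104 (.arc (nat_lit 29) n6113 (.arc (nat_lit 32) n6123 (.arc (nat_lit 35) n6119 (.arc (nat_lit 62) n6072 (.arc (nat_lit 65) n6081 (.arc (nat_lit 68) n6087 (.arc (nat_lit 71) n6091 (.fin (nat_lit 171110555) (nat_lit 0)))))))))))))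
def n6130 : Nd := .arc (nat_lit 9) n6129 (.arc (nat_lit 64) n6096 (.arc (nat_lit 67) n6103 (.arc (nat_lit 70) n6100 (.fin (nat_lit 304771223) (nat_lit 0)))))
def n6131 : Nd := .arc (nat_lit 6) n6126 (.fin (nat_lit 171094171) (nat_lit 0))
def n6132 : Nd := .arc (nat_lit 3) n6130 (.arc (nat_lit 6) n6131 (.fin (nat_lit 575836313) (nat_lit 0)))
def n6133 : Nd := .arc (nat_lit 6) n6129 (.arc (nat_lit 52) n6096 (.arc (nat_lit 55) n6100 (.arc (nat_lit 58) n6103 (.fin (nat_lit 575844505) (nat_lit 0)))))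
def n6134 : Nd := .arc (nat_lit 9) n6124 (.arc (nat_lit 64) n6064 (.arc (nat_lit 67) n6071 (.arc (nat_lit 70) n6068 (.fin (nat_lit 171077787) (nat_lit 0)))))
def n6135 : Nd := .arc (nat_lit 3) n6133 (.arc (nat_lit 9) n6134 (.fin (nat_lit 304763031) (nat_lit 0)))
def n6136 : Nd := .arc (nat_lit 3) n6128 (.arc (nat_lit 6) n6132 (.arc (nat_lit 9) n6135 (.fin (nat_lit 105517213) (nat_lit 0))))
def n6137 : Nd := .arc (nat_lit 6) n6127 (.arc (nat_lit 9) n6125 (.fin (nat_lit 105525405) (nat_lit 0)))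
def n6138 : Nd := .arc (nat_lit 14) n6059 (.arc (nat_lit 17) n6055 (.arc (nat_lit 20) n6040 (.arc (nat_lit 23) n6049 (.arc (nat_lit 38) n6104 (.arc (nat_lit 41) n6113 (.arc (nat_lit 44) n6119 (.arc (nat_lit 47) n6123 (.arc (nat_lit 50) n6072 (.arc (nat_lit 53) n6081 (.arc (nat_lit 56) n6091 (.arc (nat_lit 59) n6087 (.fin (nat_lit 105574557) (nat_lit 0)))))))))))))
def n6139 : Nd := .arc (nat_lit 9) n6138 (.fin (nat_lit 575828121) (nat_lit 0))
def n6140 : Nd := .arc (nat_lit 6) n6124 (.arc (nat_lit 52) n6064 (.arc (nat_lit 55) n6068 (.arc (nat_lit 58) n6071 (.fin (nat_lit 105558173) (nat_lit 0)))))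
def n6141 : Nd := .arc (nat_lit 3) n6139 (.arc (nat_lit 6) n6140 (.fin (nat_lit 304779415) (nat_lit 0)))
def n6142 : Nd := .arc (nat_lit 6) n6138 (.fin (nat_lit 304787607) (nat_lit 0))
def n6143 : Nd := .arc (nat_lit 9) n6126 (.fin (nat_lit 105541789) (nat_lit 0))
def n6144 : Nd := .arc (nat_lit 3) n6142 (.arc (nat_lit 9) n6143 (.fin (nat_lit 575819929) (nat_lit 0)))
def n6145 : Nd := .arc (nat_lit 3) n6137 (.arc (nat_lit 6) n6141 (.arc (nat_lit 9) n6144 (.fin (nat_lit 171053211) (nat_lit 0))))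
def n6146 : Nd := .arc (nat_lit 3) n6129 (.arc (nat_lit 40) n6096 (.arc (nat_lit 43) n6100 (.arc (nat_lit 46) n6103 (.fin (nat_lit 105566365) (nat_lit 0)))))
def n6147 : Nd := .arc (nat_lit 3) n6138 (.fin (nat_lit 171102363) (nat_lit 0))
def n6148 : Nd := .arc (nat_lit 6) n6146 (.arc (nat_lit 9) n6147 (.fin (nat_lit 304754839) (nat_lit 0)))
def n6149 : Nd := .arc (nat_lit 3) n6143 (.arc (nat_lit 6) n6142 (.fin (nat_lit 171085979) (nat_lit 0)))
def n6150 : Nd := .arc (nat_lit 3) n6131 (.arc (nat_lit 9) n6130 (.fin (nat_lit 105533597) (nat_lit 0)))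
def n6151 : Nd := .arc (nat_lit 3) n6148 (.arc (nat_lit 6) n6149 (.arc (nat_lit 9) n6150 (.fin (nat_lit 575803545) (nat_lit 0))))
def n6152 : Nd := .arc (nat_lit 6) n6147 (.arc (nat_lit 9) n6146 (.fin (nat_lit 575811737) (nat_lit 0)))
def n6153 : Nd := .arc (nat_lit 3) n6134 (.arc (nat_lit 6) n6133 (.fin (nat_lit 105549981) (nat_lit 0)))
def n6154 : Nd := .arc (nat_lit 3) n6140 (.arc (nat_lit 9) n6139 (.fin (nat_lit 171069595) (nat_lit 0)))
def n6155 : Nd := .arc (nat_lit 3) n6152 (.arc (nat_lit 6) n6153 (.arc (nat_lit 9) n6154 (.fin (nat_lit 304746647) (nat_lit 0))))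
def n6156 : Nd := .arc (nat_lit 26) n5483 (.arc (nat_lit 29) n5479 (.arc (nat_lit 32) n5473 (.arc (nat_lit 35) n5464 (.arc (nat_lit 38) n5451 (.arc (nat_lit 41) n5447 (.arc (nat_lit 44) n5441 (.arc (nat_lit 47) n5432 (.arc (nat_lit 50) n5419 (.arc (nat_lit 53) n5415 (.arc (nat_lit 56) n5409 (.arc (nat_lit 59) n5400 (.fin (nat_lit 608628885) (nat_lit 0)))))))))))))
def n6157 : Nd := .arc (nat_lit 3) n6156 (.arc (nat_lit 40) n5480 (.arc (nat_lit 43) n5481 (.arc (nat_lit 46) n5482 (.fin (nat_lit 405196949) (nat_lit 0)))))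
def n6158 : Nd := .arc (nat_lit 26) n5451 (.arc (nat_lit 29) n5447 (.arc (nat_lit 32) n5432 (.arc (nat_lit 35) n5441 (.arc (nat_lit 38) n5483 (.arc (nat_lit 41) n5479 (.arc (nat_lit 44) n5464 (.arc (nat_lit 47) n5473 (.arc (nat_lit 62) n5419 (.arc (nat_lit 65) n5415 (.arc (nat_lit 68) n5400 (.arc (nat_lit 71) n5409 (.fin (nat_lit 405205141) (nat_lit 0)))))))))))))
def n6159 : Nd := .arc (nat_lit 3) n6158 (.arc (nat_lit 40) n5448 (.arc (nat_lit 43) n5449 (.arc (nat_lit 46) n5450 (.fin (nat_lit 608620693) (nat_lit 0)))))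
def n6160 : Nd := .arc (nat_lit 6) n6157 (.arc (nat_lit 9) n6159 (.fin (nat_lit 672542869) (nat_lit 0)))
def n6161 : Nd := .arc (nat_lit 26) n5419 (.arc (nat_lit 29) n5415 (.arc (nat_lit 32) n5400 (.arc (nat_lit 35) n5409 (.arc (nat_lit 50) n5451 (.arc (nat_lit 53) n5447 (.arc (nat_lit 56) n5441 (.arc (nat_lit 59) n5432 (.arc (nat_lit 62) n5483 (.arc (nat_lit 65) n5479 (.arc (nat_lit 68) n5473 (.arc (nat_lit 71) n5464 (.fin (nat_lit 672592021) (nat_lit 0)))))))))))))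
def n6162 : Nd := .arc (nat_lit 9) n6161 (.arc (nat_lit 64) n5416 (.arc (nat_lit 67) n5418 (.arc (nat_lit 70) n5417 (.fin (nat_lit 405172373) (nat_lit 0)))))
def n6163 : Nd := .arc (nat_lit 6) n6158 (.arc (nat_lit 52) n5448 (.arc (nat_lit 55) n5449 (.arc (nat_lit 58) n5450 (.fin (nat_lit 672575637) (nat_lit 0)))))
def n6164 : Nd := .arc (nat_lit 3) n6162 (.arc (nat_lit 6) n6163 (.fin (nat_lit 608604309) (nat_lit 0)))
def n6165 : Nd := .arc (nat_lit 6) n6161 (.arc (nat_lit 52) n5416 (.arc (nat_lit 55) n5417 (.arc (nat_lit 58) n5418 (.fin (nat_lit 608612501) (nat_lit 0)))))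
def n6166 : Nd := .arc (nat_lit 9) n6156 (.arc (nat_lit 64) n5480 (.arc (nat_lit 67) n5482 (.arc (nat_lit 70) n5481 (.fin (nat_lit 672559253) (nat_lit 0)))))
def n6167 : Nd := .arc (nat_lit 3) n6165 (.arc (nat_lit 9) n6166 (.fin (nat_lit 405164181) (nat_lit 0)))
def n6168 : Nd := .arc (nat_lit 3) n6160 (.arc (nat_lit 6) n6164 (.arc (nat_lit 9) n6167 (.fin (nat_lit 336466069) (nat_lit 0))))
def n6169 : Nd := .arc (nat_lit 6) n6159 (.arc (nat_lit 9) n6157 (.fin (nat_lit 336474261) (nat_lit 0)))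
def n6170 : Nd := .arc (nat_lit 38) n5419 (.arc (nat_lit 41) n5415 (.arc (nat_lit 44) n5409 (.arc (nat_lit 47) n5400 (.arc (nat_lit 50) n5483 (.arc (nat_lit 53) n5479 (.arc (nat_lit 56) n5464 (.arc (nat_lit 59) n5473 (.arc (nat_lit 62) n5451 (.arc (nat_lit 65) n5447 (.arc (nat_lit 68) n5432 (.arc (nat_lit 71) n5441 (.fin (nat_lit 336523413) (nat_lit 0)))))))))))))
def n6171 : Nd := .arc (nat_lit 9) n6170 (.fin (nat_lit 608596117) (nat_lit 0))
def n6172 : Nd := .arc (nat_lit 6) n6156 (.arc (nat_lit 52) n5480 (.arc (nat_lit 55) n5481 (.arc (nat_lit 58) n5482 (.fin (nat_lit 336507029) (nat_lit 0)))))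
def n6173 : Nd := .arc (nat_lit 3) n6171 (.arc (nat_lit 6) n6172 (.fin (nat_lit 405180565) (nat_lit 0)))
def n6174 : Nd := .arc (nat_lit 6) n6170 (.fin (nat_lit 405188757) (nat_lit 0))
def n6175 : Nd := .arc (nat_lit 9) n6158 (.arc (nat_lit 64) n5448 (.arc (nat_lit 67) n5450 (.arc (nat_lit 70) n5449 (.fin (nat_lit 336490645) (nat_lit 0)))))
def n6176 : Nd := .arc (nat_lit 3) n6174 (.arc (nat_lit 9) n6175 (.fin (nat_lit 608587925) (nat_lit 0)))
def n6177 : Nd := .arc (nat_lit 3) n6169 (.arc (nat_lit 6) n6173 (.arc (nat_lit 9) n6176 (.fin (nat_lit 672534677) (nat_lit 0))))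
def n6178 : Nd := .arc (nat_lit 3) n6161 (.arc (nat_lit 40) n5416 (.arc (nat_lit 43) n5417 (.arc (nat_lit 46) n5418 (.fin (nat_lit 336515221) (nat_lit 0)))))
def n6179 : Nd := .arc (nat_lit 3) n6170 (.fin (nat_lit 672583829) (nat_lit 0))
def n6180 : Nd := .arc (nat_lit 6) n6178 (.arc (nat_lit 9) n6179 (.fin (nat_lit 405155989) (nat_lit 0)))
def n6181 : Nd := .arc (nat_lit 3) n6175 (.arc (nat_lit 6) n6174 (.fin (nat_lit 672567445) (nat_lit 0)))
def n6182 : Nd := .arc (nat_lit 3) n6163 (.arc (nat_lit 9) n6162 (.fin (nat_lit 336482453) (nat_lit 0)))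
def n6183 : Nd := .arc (nat_lit 3) n6180 (.arc (nat_lit 6) n6181 (.arc (nat_lit 9) n6182 (.fin (nat_lit 608571541) (nat_lit 0))))
def n6184 : Nd := .arc (nat_lit 6) n6179 (.arc (nat_lit 9) n6178 (.fin (nat_lit 608579733) (nat_lit 0)))
def n6185 : Nd := .arc (nat_lit 3) n6166 (.arc (nat_lit 6) n6165 (.fin (nat_lit 336498837) (nat_lit 0)))
def n6186 : Nd := .arc (nat_lit 3) n6172 (.arc (nat_lit 9) n6171 (.fin (nat_lit 672551061) (nat_lit 0)))
def n6187 : Nd := .arc (nat_lit 3) n6184 (.arc (nat_lit 6) n6185 (.arc (nat_lit 9) n6186 (.fin (nat_lit 405147797) (nat_lit 0))))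
def n6188 : Nd := .arc (nat_lit 14) n5816 (.arc (nat_lit 17) n5825 (.arc (nat_lit 20) n5831 (.arc (nat_lit 23) n5835 (.arc (nat_lit 26) n6008 (.arc (nat_lit 29) n6017 (.arc (nat_lit 32) n6023 (.arc (nat_lit 35) n6027 (.arc (nat_lit 38) n6136 (.arc (nat_lit 41) n6145 (.arc (nat_lit 44) n6151 (.arc (nat_lit 47) n6155 (.arc (nat_lit 50) n6168 (.arc (nat_lit 53) n6177 (.arc (nat_lit 56) n6183 (.arc (nat_lit 59) n6187 (.fin (nat_lit 88273053) (nat_lit 0)))))))))))))))))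
def n6189 : Nd := .arc (nat_lit 3) n6188 (.arc (nat_lit 40) n6000 (.arc (nat_lit 43) n6004 (.arc (nat_lit 46) n6007 (.fin (nat_lit 153276571) (nat_lit 0)))))
def n6190 : Nd := .arc (nat_lit 14) n5825 (.arc (nat_lit 17) n5816 (.arc (nat_lit 20) n5835 (.arc (nat_lit 23) n5831 (.arc (nat_lit 26) n6136 (.arc (nat_lit 29) n6145 (.arc (nat_lit 32) n6155 (.arc (nat_lit 35) n6151 (.arc (nat_lit 38) n6008 (.arc (nat_lit 41) n6017 (.arc (nat_lit 44) n6027 (.arc (nat_lit 47) n6023 (.arc (nat_lit 62) n6168 (.arc (nat_lit 65) n6177 (.arc (nat_lit 68) n6187 (.arc (nat_lit 71) n6183 (.fin (nat_lit 153284763) (nat_lit 0)))))))))))))))))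
def n6191 : Nd := .arc (nat_lit 3) n6190 (.arc (nat_lit 40) n6128 (.arc (nat_lit 43) n6132 (.arc (nat_lit 46) n6135 (.fin (nat_lit 88264861) (nat_lit 0)))))
def n6192 : Nd := .arc (nat_lit 6) n6189 (.arc (nat_lit 9) n6191 (.fin (nat_lit 554840217) (nat_lit 0)))
def n6193 : Nd := .arc (nat_lit 14) n5831 (.arc (nat_lit 17) n5835 (.arc (nat_lit 20) n5825 (.arc (nat_lit 23) n5816 (.arc (nat_lit 26) n6168 (.arc (nat_lit 29) n6177 (.arc (nat_lit 32) n6187 (.arc (nat_lit 35) n6183 (.arc (nat_lit 50) n6136 (.arc (nat_lit 53) n6145 (.arc (nat_lit 56) n6151 (.arc (nat_lit 59) n6155 (.arc (nat_lit 62) n6008 (.arc (nat_lit 65) n6017 (.arc (nat_lit 68) n6023 (.arc (nat_lit 71) n6027 (.fin (nat_lit 554889369) (nat_lit 0)))))))))))))))))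
def n6194 : Nd := .arc (nat_lit 9) n6193 (.arc (nat_lit 64) n6160 (.arc (nat_lit 67) n6167 (.arc (nat_lit 70) n6164 (.fin (nat_lit 153251995) (nat_lit 0)))))
def n6195 : Nd := .arc (nat_lit 6) n6190 (.arc (nat_lit 52) n6128 (.arc (nat_lit 55) n6132 (.arc (nat_lit 58) n6135 (.fin (nat_lit 554872985) (nat_lit 0)))))
def n6196 : Nd := .arc (nat_lit 3) n6194 (.arc (nat_lit 6) n6195 (.fin (nat_lit 88248477) (nat_lit 0)))
def n6197 : Nd := .arc (nat_lit 6) n6193 (.arc (nat_lit 52) n6160 (.arc (nat_lit 55) n6164 (.arc (nat_lit 58) n6167 (.fin (nat_lit 88256669) (nat_lit 0)))))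
def n6198 : Nd := .arc (nat_lit 9) n6188 (.arc (nat_lit 64) n6000 (.arc (nat_lit 67) n6007 (.arc (nat_lit 70) n6004 (.fin (nat_lit 554856601) (nat_lit 0)))))
def n6199 : Nd := .arc (nat_lit 3) n6197 (.arc (nat_lit 9) n6198 (.fin (nat_lit 153243803) (nat_lit 0)))
def n6200 : Nd := .arc (nat_lit 3) n6192 (.arc (nat_lit 6) n6196 (.arc (nat_lit 9) n6199 (.fin (nat_lit 285872279) (nat_lit 0))))
def n6201 : Nd := .arc (nat_lit 6) n6191 (.arc (nat_lit 9) n6189 (.fin (nat_lit 285880471) (nat_lit 0)))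
def n6202 : Nd := .arc (nat_lit 14) n5835 (.arc (nat_lit 17) n5831 (.arc (nat_lit 20) n5816 (.arc (nat_lit 23) n5825 (.arc (nat_lit 38) n6168 (.arc (nat_lit 41) n6177 (.arc (nat_lit 44) n6183 (.arc (nat_lit 47) n6187 (.arc (nat_lit 50) n6008 (.arc (nat_lit 53) n6017 (.arc (nat_lit 56) n6027 (.arc (nat_lit 59) n6023 (.arc (nat_lit 62) n6136 (.arc (nat_lit 65) n6145 (.arc (nat_lit 68) n6155 (.arc (nat_lit 71) n6151 (.fin (nat_lit 285929623) (nat_lit 0)))))))))))))))))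
def n6203 : Nd := .arc (nat_lit 9) n6202 (.fin (nat_lit 88240285) (nat_lit 0))
def n6204 : Nd := .arc (nat_lit 6) n6188 (.arc (nat_lit 52) n6000 (.arc (nat_lit 55) n6004 (.arc (nat_lit 58) n6007 (.fin (nat_lit 285913239) (nat_lit 0)))))
def n6205 : Nd := .arc (nat_lit 3) n6203 (.arc (nat_lit 6) n6204 (.fin (nat_lit 153260187) (nat_lit 0)))
def n6206 : Nd := .arc (nat_lit 6) n6202 (.fin (nat_lit 153268379) (nat_lit 0))
def n6207 : Nd := .arc (nat_lit 9) n6190 (.arc (nat_lit 64) n6128 (.arc (nat_lit 67) n6135 (.arc (nat_lit 70) n6132 (.fin (nat_lit 285896855) (nat_lit 0)))))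
def n6208 : Nd := .arc (nat_lit 3) n6206 (.arc (nat_lit 9) n6207 (.fin (nat_lit 88232093) (nat_lit 0)))
def n6209 : Nd := .arc (nat_lit 3) n6201 (.arc (nat_lit 6) n6205 (.arc (nat_lit 9) n6208 (.fin (nat_lit 554832025) (nat_lit 0))))
def n6210 : Nd := .arc (nat_lit 3) n6202 (.fin (nat_lit 554881177) (nat_lit 0))
def n6211 : Nd := .arc (nat_lit 3) n6193 (.arc (nat_lit 40) n6160 (.arc (nat_lit 43) n6164 (.arc (nat_lit 46) n6167 (.fin (nat_lit 285921431) (nat_lit 0)))))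
def n6212 : Nd := .arc (nat_lit 6) n6210 (.arc (nat_lit 9) n6211 (.fin (nat_lit 88223901) (nat_lit 0)))
def n6213 : Nd := .arc (nat_lit 3) n6198 (.arc (nat_lit 6) n6197 (.fin (nat_lit 285905047) (nat_lit 0)))
def n6214 : Nd := .arc (nat_lit 3) n6204 (.arc (nat_lit 9) n6203 (.fin (nat_lit 554848409) (nat_lit 0)))
def n6215 : Nd := .arc (nat_lit 3) n6212 (.arc (nat_lit 6) n6213 (.arc (nat_lit 9) n6214 (.fin (nat_lit 153227419) (nat_lit 0))))
def n6216 : Nd := .arc (nat_lit 6) n6211 (.arc (nat_lit 9) n6210 (.fin (nat_lit 153235611) (nat_lit 0)))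
def n6217 : Nd := .arc (nat_lit 3) n6207 (.arc (nat_lit 6) n6206 (.fin (nat_lit 554864793) (nat_lit 0)))
def n6218 : Nd := .arc (nat_lit 3) n6195 (.arc (nat_lit 9) n6194 (.fin (nat_lit 285888663) (nat_lit 0)))
def n6219 : Nd := .arc (nat_lit 3) n6216 (.arc (nat_lit 6) n6217 (.arc (nat_lit 9) n6218 (.fin (nat_lit 88215709) (nat_lit 0))))
def n6220 : Nd := .arc (nat_lit 38) n5569 (.arc (nat_lit 41) n5560 (.arc (nat_lit 44) n5579 (.arc (nat_lit 47) n5575 (.arc (nat_lit 50) n5793 (.arc (nat_lit 53) n5784 (.arc (nat_lit 56) n5799 (.arc (nat_lit 59) n5803 (.arc (nat_lit 62) n5697 (.arc (nat_lit 65) n5688 (.arc (nat_lit 68) n5703 (.arc (nat_lit 71) n5707 (.fin (nat_lit 286191767) (nat_lit 0)))))))))))))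
def n6221 : Nd := .arc (nat_lit 3) n6220 (.fin (nat_lit 555143321) (nat_lit 0))
def n6222 : Nd := .arc (nat_lit 26) n5569 (.arc (nat_lit 29) n5560 (.arc (nat_lit 32) n5575 (.arc (nat_lit 35) n5579 (.arc (nat_lit 50) n5697 (.arc (nat_lit 53) n5688 (.arc (nat_lit 56) n5707 (.arc (nat_lit 59) n5703 (.arc (nat_lit 62) n5793 (.arc (nat_lit 65) n5784 (.arc (nat_lit 68) n5803 (.arc (nat_lit 71) n5799 (.fin (nat_lit 555151513) (nat_lit 0)))))))))))))
def n6223 : Nd := .arc (nat_lit 3) n6222 (.arc (nat_lit 40) n5561 (.arc (nat_lit 43) n5565 (.arc (nat_lit 46) n5568 (.fin (nat_lit 286183575) (nat_lit 0)))))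
def n6224 : Nd := .arc (nat_lit 6) n6221 (.arc (nat_lit 9) n6223 (.fin (nat_lit 88486045) (nat_lit 0)))
def n6225 : Nd := .arc (nat_lit 26) n5793 (.arc (nat_lit 29) n5784 (.arc (nat_lit 32) n5803 (.arc (nat_lit 35) n5799 (.arc (nat_lit 38) n5697 (.arc (nat_lit 41) n5688 (.arc (nat_lit 44) n5707 (.arc (nat_lit 47) n5703 (.arc (nat_lit 50) n5569 (.arc (nat_lit 53) n5560 (.arc (nat_lit 56) n5579 (.arc (nat_lit 59) n5575 (.fin (nat_lit 88535197) (nat_lit 0)))))))))))))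
def n6226 : Nd := .arc (nat_lit 9) n6225 (.arc (nat_lit 64) n5785 (.arc (nat_lit 67) n5792 (.arc (nat_lit 70) n5789 (.fin (nat_lit 555118745) (nat_lit 0)))))
def n6227 : Nd := .arc (nat_lit 6) n6222 (.arc (nat_lit 52) n5561 (.arc (nat_lit 55) n5565 (.arc (nat_lit 58) n5568 (.fin (nat_lit 88518813) (nat_lit 0)))))
def n6228 : Nd := .arc (nat_lit 3) n6226 (.arc (nat_lit 6) n6227 (.fin (nat_lit 286167191) (nat_lit 0)))
def n6229 : Nd := .arc (nat_lit 6) n6225 (.arc (nat_lit 52) n5785 (.arc (nat_lit 55) n5789 (.arc (nat_lit 58) n5792 (.fin (nat_lit 286175383) (nat_lit 0)))))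
def n6230 : Nd := .arc (nat_lit 9) n6220 (.fin (nat_lit 88502429) (nat_lit 0))
def n6231 : Nd := .arc (nat_lit 3) n6229 (.arc (nat_lit 9) n6230 (.fin (nat_lit 555110553) (nat_lit 0)))
def n6232 : Nd := .arc (nat_lit 3) n6224 (.arc (nat_lit 6) n6228 (.arc (nat_lit 9) n6231 (.fin (nat_lit 153489563) (nat_lit 0))))
def n6233 : Nd := .arc (nat_lit 6) n6223 (.arc (nat_lit 9) n6221 (.fin (nat_lit 153497755) (nat_lit 0)))
def n6234 : Nd := .arc (nat_lit 26) n5697 (.arc (nat_lit 29) n5688 (.arc (nat_lit 32) n5703 (.arc (nat_lit 35) n5707 (.arc (nat_lit 38) n5793 (.arc (nat_lit 41) n5784 (.arc (nat_lit 44) n5799 (.arc (nat_lit 47) n5803 (.arc (nat_lit 62) n5569 (.arc (nat_lit 65) n5560 (.arc (nat_lit 68) n5575 (.arc (nat_lit 71) n5579 (.fin (nat_lit 153546907) (nat_lit 0)))))))))))))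
def n6235 : Nd := .arc (nat_lit 9) n6234 (.arc (nat_lit 64) n5689 (.arc (nat_lit 67) n5696 (.arc (nat_lit 70) n5693 (.fin (nat_lit 286158999) (nat_lit 0)))))
def n6236 : Nd := .arc (nat_lit 6) n6220 (.fin (nat_lit 153530523) (nat_lit 0))
def n6237 : Nd := .arc (nat_lit 3) n6235 (.arc (nat_lit 6) n6236 (.fin (nat_lit 555126937) (nat_lit 0)))
def n6238 : Nd := .arc (nat_lit 6) n6234 (.arc (nat_lit 52) n5689 (.arc (nat_lit 55) n5693 (.arc (nat_lit 58) n5696 (.fin (nat_lit 555135129) (nat_lit 0)))))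
def n6239 : Nd := .arc (nat_lit 9) n6222 (.arc (nat_lit 64) n5561 (.arc (nat_lit 67) n5568 (.arc (nat_lit 70) n5565 (.fin (nat_lit 153514139) (nat_lit 0)))))
def n6240 : Nd := .arc (nat_lit 3) n6238 (.arc (nat_lit 9) n6239 (.fin (nat_lit 286150807) (nat_lit 0)))
def n6241 : Nd := .arc (nat_lit 3) n6233 (.arc (nat_lit 6) n6237 (.arc (nat_lit 9) n6240 (.fin (nat_lit 88477853) (nat_lit 0))))
def n6242 : Nd := .arc (nat_lit 3) n6234 (.arc (nat_lit 40) n5689 (.arc (nat_lit 43) n5693 (.arc (nat_lit 46) n5696 (.fin (nat_lit 88527005) (nat_lit 0)))))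
def n6243 : Nd := .arc (nat_lit 3) n6225 (.arc (nat_lit 40) n5785 (.arc (nat_lit 43) n5789 (.arc (nat_lit 46) n5792 (.fin (nat_lit 153538715) (nat_lit 0)))))
def n6244 : Nd := .arc (nat_lit 6) n6242 (.arc (nat_lit 9) n6243 (.fin (nat_lit 286142615) (nat_lit 0)))
def n6245 : Nd := .arc (nat_lit 3) n6230 (.arc (nat_lit 6) n6229 (.fin (nat_lit 153522331) (nat_lit 0)))
def n6246 : Nd := .arc (nat_lit 3) n6236 (.arc (nat_lit 9) n6235 (.fin (nat_lit 88494237) (nat_lit 0)))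
def n6247 : Nd := .arc (nat_lit 3) n6244 (.arc (nat_lit 6) n6245 (.arc (nat_lit 9) n6246 (.fin (nat_lit 555094169) (nat_lit 0))))
def n6248 : Nd := .arc (nat_lit 6) n6243 (.arc (nat_lit 9) n6242 (.fin (nat_lit 555102361) (nat_lit 0)))
def n6249 : Nd := .arc (nat_lit 3) n6239 (.arc (nat_lit 6) n6238 (.fin (nat_lit 88510621) (nat_lit 0)))
def n6250 : Nd := .arc (nat_lit 3) n6227 (.arc (nat_lit 9) n6226 (.fin (nat_lit 153505947) (nat_lit 0)))
def n6251 : Nd := .arc (nat_lit 3) n6248 (.arc (nat_lit 6) n6249 (.arc (nat_lit 9) n6250 (.fin (nat_lit 286134423) (nat_lit 0))))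
def n6252 : Nd := .arc (nat_lit 26) n5611 (.arc (nat_lit 29) n5607 (.arc (nat_lit 32) n5601 (.arc (nat_lit 35) n5592 (.fin (nat_lit 561442969) (nat_lit 0)))))
def n6253 : Nd := .arc (nat_lit 3) n6252 (.arc (nat_lit 40) n5608 (.arc (nat_lit 43) n5609 (.arc (nat_lit 46) n5610 (.fin (nat_lit 292475031) (nat_lit 0)))))
def n6254 : Nd := .arc (nat_lit 38) n5611 (.arc (nat_lit 41) n5607 (.arc (nat_lit 44) n5592 (.arc (nat_lit 47) n5601 (.fin (nat_lit 292483223) (nat_lit 0)))))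
def n6255 : Nd := .arc (nat_lit 3) n6254 (.fin (nat_lit 561434777) (nat_lit 0))
def n6256 : Nd := .arc (nat_lit 6) n6253 (.arc (nat_lit 9) n6255 (.fin (nat_lit 155070619) (nat_lit 0)))
def n6257 : Nd := .arc (nat_lit 62) n5611 (.arc (nat_lit 65) n5607 (.arc (nat_lit 68) n5601 (.arc (nat_lit 71) n5592 (.fin (nat_lit 155119771) (nat_lit 0)))))
def n6258 : Nd := .arc (nat_lit 9) n6257 (.fin (nat_lit 292450455) (nat_lit 0))
def n6259 : Nd := .arc (nat_lit 6) n6254 (.fin (nat_lit 155103387) (nat_lit 0))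
def n6260 : Nd := .arc (nat_lit 3) n6258 (.arc (nat_lit 6) n6259 (.fin (nat_lit 561418393) (nat_lit 0)))
def n6261 : Nd := .arc (nat_lit 6) n6257 (.fin (nat_lit 561426585) (nat_lit 0))
def n6262 : Nd := .arc (nat_lit 9) n6252 (.arc (nat_lit 64) n5608 (.arc (nat_lit 67) n5610 (.arc (nat_lit 70) n5609 (.fin (nat_lit 155087003) (nat_lit 0)))))
def n6263 : Nd := .arc (nat_lit 3) n6261 (.arc (nat_lit 9) n6262 (.fin (nat_lit 292442263) (nat_lit 0)))
def n6264 : Nd := .arc (nat_lit 3) n6256 (.arc (nat_lit 6) n6260 (.arc (nat_lit 9) n6263 (.fin (nat_lit 90050717) (nat_lit 0))))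
def n6265 : Nd := .arc (nat_lit 6) n6255 (.arc (nat_lit 9) n6253 (.fin (nat_lit 90058909) (nat_lit 0)))
def n6266 : Nd := .arc (nat_lit 50) n5611 (.arc (nat_lit 53) n5607 (.arc (nat_lit 56) n5592 (.arc (nat_lit 59) n5601 (.fin (nat_lit 90108061) (nat_lit 0)))))
def n6267 : Nd := .arc (nat_lit 9) n6266 (.fin (nat_lit 561410201) (nat_lit 0))
def n6268 : Nd := .arc (nat_lit 6) n6252 (.arc (nat_lit 52) n5608 (.arc (nat_lit 55) n5609 (.arc (nat_lit 58) n5610 (.fin (nat_lit 90091677) (nat_lit 0)))))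
def n6269 : Nd := .arc (nat_lit 3) n6267 (.arc (nat_lit 6) n6268 (.fin (nat_lit 292458647) (nat_lit 0)))
def n6270 : Nd := .arc (nat_lit 6) n6266 (.fin (nat_lit 292466839) (nat_lit 0))
def n6271 : Nd := .arc (nat_lit 9) n6254 (.fin (nat_lit 90075293) (nat_lit 0))
def n6272 : Nd := .arc (nat_lit 3) n6270 (.arc (nat_lit 9) n6271 (.fin (nat_lit 561402009) (nat_lit 0)))
def n6273 : Nd := .arc (nat_lit 3) n6265 (.arc (nat_lit 6) n6269 (.arc (nat_lit 9) n6272 (.fin (nat_lit 155062427) (nat_lit 0))))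
def n6274 : Nd := .arc (nat_lit 3) n6257 (.fin (nat_lit 90099869) (nat_lit 0))
def n6275 : Nd := .arc (nat_lit 3) n6266 (.fin (nat_lit 155111579) (nat_lit 0))
def n6276 : Nd := .arc (nat_lit 6) n6274 (.arc (nat_lit 9) n6275 (.fin (nat_lit 292434071) (nat_lit 0)))
def n6277 : Nd := .arc (nat_lit 3) n6271 (.arc (nat_lit 6) n6270 (.fin (nat_lit 155095195) (nat_lit 0)))
def n6278 : Nd := .arc (nat_lit 3) n6259 (.arc (nat_lit 9) n6258 (.fin (nat_lit 90067101) (nat_lit 0)))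
def n6279 : Nd := .arc (nat_lit 3) n6276 (.arc (nat_lit 6) n6277 (.arc (nat_lit 9) n6278 (.fin (nat_lit 561385625) (nat_lit 0))))
def n6280 : Nd := .arc (nat_lit 6) n6275 (.arc (nat_lit 9) n6274 (.fin (nat_lit 561393817) (nat_lit 0)))
def n6281 : Nd := .arc (nat_lit 3) n6262 (.arc (nat_lit 6) n6261 (.fin (nat_lit 90083485) (nat_lit 0)))
def n6282 : Nd := .arc (nat_lit 3) n6268 (.arc (nat_lit 9) n6267 (.fin (nat_lit 155078811) (nat_lit 0)))
def n6283 : Nd := .arc (nat_lit 3) n6280 (.arc (nat_lit 6) n6281 (.arc (nat_lit 9) n6282 (.fin (nat_lit 292425879) (nat_lit 0))))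
def n6284 : Nd := .arc (nat_lit 38) n4504 (.arc (nat_lit 41) n4513 (.arc (nat_lit 44) n4523 (.arc (nat_lit 47) n4519 (.fin (nat_lit 678359189) (nat_lit 0)))))
def n6285 : Nd := .arc (nat_lit 3) n6284 (.fin (nat_lit 343330965) (nat_lit 0))
def n6286 : Nd := .arc (nat_lit 26) n4504 (.arc (nat_lit 29) n4513 (.arc (nat_lit 32) n4519 (.arc (nat_lit 35) n4523 (.fin (nat_lit 343339157) (nat_lit 0)))))
def n6287 : Nd := .arc (nat_lit 3) n6286 (.arc (nat_lit 40) n4496 (.arc (nat_lit 43) n4500 (.arc (nat_lit 46) n4503 (.fin (nat_lit 678350997) (nat_lit 0)))))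
def n6288 : Nd := .arc (nat_lit 6) n6285 (.arc (nat_lit 9) n6287 (.fin (nat_lit 408826005) (nat_lit 0)))
def n6289 : Nd := .arc (nat_lit 50) n4504 (.arc (nat_lit 53) n4513 (.arc (nat_lit 56) n4523 (.arc (nat_lit 59) n4519 (.fin (nat_lit 408875157) (nat_lit 0)))))
def n6290 : Nd := .arc (nat_lit 9) n6289 (.fin (nat_lit 343306389) (nat_lit 0))
def n6291 : Nd := .arc (nat_lit 6) n6286 (.arc (nat_lit 52) n4496 (.arc (nat_lit 55) n4500 (.arc (nat_lit 58) n4503 (.fin (nat_lit 408858773) (nat_lit 0)))))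
def n6292 : Nd := .arc (nat_lit 3) n6290 (.arc (nat_lit 6) n6291 (.fin (nat_lit 678334613) (nat_lit 0)))
def n6293 : Nd := .arc (nat_lit 6) n6289 (.fin (nat_lit 678342805) (nat_lit 0))
def n6294 : Nd := .arc (nat_lit 9) n6284 (.fin (nat_lit 408842389) (nat_lit 0))
def n6295 : Nd := .arc (nat_lit 3) n6293 (.arc (nat_lit 9) n6294 (.fin (nat_lit 343298197) (nat_lit 0)))
def n6296 : Nd := .arc (nat_lit 3) n6288 (.arc (nat_lit 6) n6292 (.arc (nat_lit 9) n6295 (.fin (nat_lit 608047253) (nat_lit 0))))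
def n6297 : Nd := .arc (nat_lit 6) n6287 (.arc (nat_lit 9) n6285 (.fin (nat_lit 608055445) (nat_lit 0)))
def n6298 : Nd := .arc (nat_lit 62) n4504 (.arc (nat_lit 65) n4513 (.arc (nat_lit 68) n4519 (.arc (nat_lit 71) n4523 (.fin (nat_lit 608104597) (nat_lit 0)))))
def n6299 : Nd := .arc (nat_lit 9) n6298 (.fin (nat_lit 678326421) (nat_lit 0))
def n6300 : Nd := .arc (nat_lit 6) n6284 (.fin (nat_lit 608088213) (nat_lit 0))
def n6301 : Nd := .arc (nat_lit 3) n6299 (.arc (nat_lit 6) n6300 (.fin (nat_lit 343314581) (nat_lit 0)))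
def n6302 : Nd := .arc (nat_lit 6) n6298 (.fin (nat_lit 343322773) (nat_lit 0))
def n6303 : Nd := .arc (nat_lit 9) n6286 (.arc (nat_lit 64) n4496 (.arc (nat_lit 67) n4503 (.arc (nat_lit 70) n4500 (.fin (nat_lit 608071829) (nat_lit 0)))))
def n6304 : Nd := .arc (nat_lit 3) n6302 (.arc (nat_lit 9) n6303 (.fin (nat_lit 678318229) (nat_lit 0)))
def n6305 : Nd := .arc (nat_lit 3) n6297 (.arc (nat_lit 6) n6301 (.arc (nat_lit 9) n6304 (.fin (nat_lit 408817813) (nat_lit 0))))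
def n6306 : Nd := .arc (nat_lit 3) n6289 (.fin (nat_lit 608096405) (nat_lit 0))
def n6307 : Nd := .arc (nat_lit 3) n6298 (.fin (nat_lit 408866965) (nat_lit 0))
def n6308 : Nd := .arc (nat_lit 6) n6306 (.arc (nat_lit 9) n6307 (.fin (nat_lit 343290005) (nat_lit 0)))
def n6309 : Nd := .arc (nat_lit 3) n6303 (.arc (nat_lit 6) n6302 (.fin (nat_lit 408850581) (nat_lit 0)))
def n6310 : Nd := .arc (nat_lit 3) n6291 (.arc (nat_lit 9) n6290 (.fin (nat_lit 608063637) (nat_lit 0)))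
def n6311 : Nd := .arc (nat_lit 3) n6308 (.arc (nat_lit 6) n6309 (.arc (nat_lit 9) n6310 (.fin (nat_lit 678301845) (nat_lit 0))))
def n6312 : Nd := .arc (nat_lit 6) n6307 (.arc (nat_lit 9) n6306 (.fin (nat_lit 678310037) (nat_lit 0)))
def n6313 : Nd := .arc (nat_lit 3) n6294 (.arc (nat_lit 6) n6293 (.fin (nat_lit 608080021) (nat_lit 0)))
def n6314 : Nd := .arc (nat_lit 3) n6300 (.arc (nat_lit 9) n6299 (.fin (nat_lit 408834197) (nat_lit 0)))
def n6315 : Nd := .arc (nat_lit 3) n6312 (.arc (nat_lit 6) n6313 (.arc (nat_lit 9) n6314 (.fin (nat_lit 343281813) (nat_lit 0))))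
def n6316 : Nd := .arc (nat_lit 38) n6264 (.arc (nat_lit 41) n6273 (.arc (nat_lit 44) n6279 (.arc (nat_lit 47) n6283 (.arc (nat_lit 50) n6296 (.arc (nat_lit 53) n6305 (.arc (nat_lit 56) n6311 (.arc (nat_lit 59) n6315 (.fin (nat_lit 156168349) (nat_lit 0)))))))))
def n6317 : Nd := .arc (nat_lit 3) n6316 (.fin (nat_lit 87478427) (nat_lit 0))
def n6318 : Nd := .arc (nat_lit 26) n6264 (.arc (nat_lit 29) n6273 (.arc (nat_lit 32) n6283 (.arc (nat_lit 35) n6279 (.arc (nat_lit 62) n6296 (.arc (nat_lit 65) n6305 (.arc (nat_lit 68) n6315 (.arc (nat_lit 71) n6311 (.fin (nat_lit 87486619) (nat_lit 0)))))))))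
def n6319 : Nd := .arc (nat_lit 3) n6318 (.arc (nat_lit 40) n6256 (.arc (nat_lit 43) n6260 (.arc (nat_lit 46) n6263 (.fin (nat_lit 156160157) (nat_lit 0)))))
def n6320 : Nd := .arc (nat_lit 6) n6317 (.arc (nat_lit 9) n6319 (.fin (nat_lit 290861209) (nat_lit 0)))
def n6321 : Nd := .arc (nat_lit 26) n6296 (.arc (nat_lit 29) n6305 (.arc (nat_lit 32) n6315 (.arc (nat_lit 35) n6311 (.arc (nat_lit 50) n6264 (.arc (nat_lit 53) n6273 (.arc (nat_lit 56) n6279 (.arc (nat_lit 59) n6283 (.fin (nat_lit 290910361) (nat_lit 0)))))))))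
def n6322 : Nd := .arc (nat_lit 9) n6321 (.arc (nat_lit 64) n6288 (.arc (nat_lit 67) n6295 (.arc (nat_lit 70) n6292 (.fin (nat_lit 87453851) (nat_lit 0)))))
def n6323 : Nd := .arc (nat_lit 6) n6318 (.arc (nat_lit 52) n6256 (.arc (nat_lit 55) n6260 (.arc (nat_lit 58) n6263 (.fin (nat_lit 290893977) (nat_lit 0)))))
def n6324 : Nd := .arc (nat_lit 3) n6322 (.arc (nat_lit 6) n6323 (.fin (nat_lit 156143773) (nat_lit 0)))
def n6325 : Nd := .arc (nat_lit 6) n6321 (.arc (nat_lit 52) n6288 (.arc (nat_lit 55) n6292 (.arc (nat_lit 58) n6295 (.fin (nat_lit 156151965) (nat_lit 0)))))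
def n6326 : Nd := .arc (nat_lit 9) n6316 (.fin (nat_lit 290877593) (nat_lit 0))
def n6327 : Nd := .arc (nat_lit 3) n6325 (.arc (nat_lit 9) n6326 (.fin (nat_lit 87445659) (nat_lit 0)))
def n6328 : Nd := .arc (nat_lit 3) n6320 (.arc (nat_lit 6) n6324 (.arc (nat_lit 9) n6327 (.fin (nat_lit 556667031) (nat_lit 0))))
def n6329 : Nd := .arc (nat_lit 6) n6319 (.arc (nat_lit 9) n6317 (.fin (nat_lit 556675223) (nat_lit 0)))
def n6330 : Nd := .arc (nat_lit 38) n6296 (.arc (nat_lit 41) n6305 (.arc (nat_lit 44) n6311 (.arc (nat_lit 47) n6315 (.arc (nat_lit 62) n6264 (.arc (nat_lit 65) n6273 (.arc (nat_lit 68) n6283 (.arc (nat_lit 71) n6279 (.fin (nat_lit 556724375) (nat_lit 0)))))))))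
def n6331 : Nd := .arc (nat_lit 9) n6330 (.fin (nat_lit 156135581) (nat_lit 0))
def n6332 : Nd := .arc (nat_lit 6) n6316 (.fin (nat_lit 556707991) (nat_lit 0))
def n6333 : Nd := .arc (nat_lit 3) n6331 (.arc (nat_lit 6) n6332 (.fin (nat_lit 87462043) (nat_lit 0)))
def n6334 : Nd := .arc (nat_lit 6) n6330 (.fin (nat_lit 87470235) (nat_lit 0))
def n6335 : Nd := .arc (nat_lit 9) n6318 (.arc (nat_lit 64) n6256 (.arc (nat_lit 67) n6263 (.arc (nat_lit 70) n6260 (.fin (nat_lit 556691607) (nat_lit 0)))))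
def n6336 : Nd := .arc (nat_lit 3) n6334 (.arc (nat_lit 9) n6335 (.fin (nat_lit 156127389) (nat_lit 0)))
def n6337 : Nd := .arc (nat_lit 3) n6329 (.arc (nat_lit 6) n6333 (.arc (nat_lit 9) n6336 (.fin (nat_lit 290853017) (nat_lit 0))))
def n6338 : Nd := .arc (nat_lit 3) n6330 (.fin (nat_lit 290902169) (nat_lit 0))
def n6339 : Nd := .arc (nat_lit 3) n6321 (.arc (nat_lit 40) n6288 (.arc (nat_lit 43) n6292 (.arc (nat_lit 46) n6295 (.fin (nat_lit 556716183) (nat_lit 0)))))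
def n6340 : Nd := .arc (nat_lit 6) n6338 (.arc (nat_lit 9) n6339 (.fin (nat_lit 156119197) (nat_lit 0)))
def n6341 : Nd := .arc (nat_lit 3) n6326 (.arc (nat_lit 6) n6325 (.fin (nat_lit 556699799) (nat_lit 0)))
def n6342 : Nd := .arc (nat_lit 3) n6332 (.arc (nat_lit 9) n6331 (.fin (nat_lit 290869401) (nat_lit 0)))
def n6343 : Nd := .arc (nat_lit 3) n6340 (.arc (nat_lit 6) n6341 (.arc (nat_lit 9) n6342 (.fin (nat_lit 87429275) (nat_lit 0))))
def n6344 : Nd := .arc (nat_lit 6) n6339 (.arc (nat_lit 9) n6338 (.fin (nat_lit 87437467) (nat_lit 0)))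
def n6345 : Nd := .arc (nat_lit 3) n6335 (.arc (nat_lit 6) n6334 (.fin (nat_lit 290885785) (nat_lit 0)))
def n6346 : Nd := .arc (nat_lit 3) n6323 (.arc (nat_lit 9) n6322 (.fin (nat_lit 556683415) (nat_lit 0)))
def n6347 : Nd := .arc (nat_lit 3) n6344 (.arc (nat_lit 6) n6345 (.arc (nat_lit 9) n6346 (.fin (nat_lit 156111005) (nat_lit 0))))
def n6348 : Nd := .arc (nat_lit 26) n4984 (.arc (nat_lit 29) n4993 (.arc (nat_lit 32) n4999 (.arc (nat_lit 35) n5003 (.arc (nat_lit 50) n5031 (.arc (nat_lit 53) n5035 (.arc (nat_lit 56) n5025 (.arc (nat_lit 59) n5016 (.fin (nat_lit 341242005) (nat_lit 0)))))))))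
def n6349 : Nd := .arc (nat_lit 3) n6348 (.arc (nat_lit 40) n4976 (.arc (nat_lit 43) n4980 (.arc (nat_lit 46) n4983 (.fin (nat_lit 674156693) (nat_lit 0)))))
def n6350 : Nd := .arc (nat_lit 38) n4984 (.arc (nat_lit 41) n4993 (.arc (nat_lit 44) n5003 (.arc (nat_lit 47) n4999 (.arc (nat_lit 62) n5031 (.arc (nat_lit 65) n5035 (.arc (nat_lit 68) n5016 (.arc (nat_lit 71) n5025 (.fin (nat_lit 674164885) (nat_lit 0)))))))))
def n6351 : Nd := .arc (nat_lit 3) n6350 (.fin (nat_lit 341233813) (nat_lit 0))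
def n6352 : Nd := .arc (nat_lit 6) n6349 (.arc (nat_lit 9) n6351 (.fin (nat_lit 607531157) (nat_lit 0)))
def n6353 : Nd := .arc (nat_lit 26) n5031 (.arc (nat_lit 29) n5035 (.arc (nat_lit 32) n5016 (.arc (nat_lit 35) n5025 (.arc (nat_lit 62) n4984 (.arc (nat_lit 65) n4993 (.arc (nat_lit 68) n4999 (.arc (nat_lit 71) n5003 (.fin (nat_lit 607580309) (nat_lit 0)))))))))
def n6354 : Nd := .arc (nat_lit 9) n6353 (.arc (nat_lit 64) n5028 (.arc (nat_lit 67) n5030 (.arc (nat_lit 70) n5029 (.fin (nat_lit 674132117) (nat_lit 0)))))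
def n6355 : Nd := .arc (nat_lit 6) n6350 (.fin (nat_lit 607563925) (nat_lit 0))
def n6356 : Nd := .arc (nat_lit 3) n6354 (.arc (nat_lit 6) n6355 (.fin (nat_lit 341217429) (nat_lit 0)))
def n6357 : Nd := .arc (nat_lit 6) n6353 (.arc (nat_lit 52) n5028 (.arc (nat_lit 55) n5029 (.arc (nat_lit 58) n5030 (.fin (nat_lit 341225621) (nat_lit 0)))))
def n6358 : Nd := .arc (nat_lit 9) n6348 (.arc (nat_lit 64) n4976 (.arc (nat_lit 67) n4983 (.arc (nat_lit 70) n4980 (.fin (nat_lit 607547541) (nat_lit 0)))))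
def n6359 : Nd := .arc (nat_lit 3) n6357 (.arc (nat_lit 9) n6358 (.fin (nat_lit 674123925) (nat_lit 0)))
def n6360 : Nd := .arc (nat_lit 3) n6352 (.arc (nat_lit 6) n6356 (.arc (nat_lit 9) n6359 (.fin (nat_lit 407769237) (nat_lit 0))))
def n6361 : Nd := .arc (nat_lit 6) n6351 (.arc (nat_lit 9) n6349 (.fin (nat_lit 407777429) (nat_lit 0)))
def n6362 : Nd := .arc (nat_lit 38) n5031 (.arc (nat_lit 41) n5035 (.arc (nat_lit 44) n5025 (.arc (nat_lit 47) n5016 (.arc (nat_lit 50) n4984 (.arc (nat_lit 53) n4993 (.arc (nat_lit 56) n5003 (.arc (nat_lit 59) n4999 (.fin (nat_lit 407826581) (nat_lit 0)))))))))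
def n6363 : Nd := .arc (nat_lit 9) n6362 (.fin (nat_lit 341209237) (nat_lit 0))
def n6364 : Nd := .arc (nat_lit 6) n6348 (.arc (nat_lit 52) n4976 (.arc (nat_lit 55) n4980 (.arc (nat_lit 58) n4983 (.fin (nat_lit 407810197) (nat_lit 0)))))
def n6365 : Nd := .arc (nat_lit 3) n6363 (.arc (nat_lit 6) n6364 (.fin (nat_lit 674140309) (nat_lit 0)))
def n6366 : Nd := .arc (nat_lit 6) n6362 (.fin (nat_lit 674148501) (nat_lit 0))
def n6367 : Nd := .arc (nat_lit 9) n6350 (.fin (nat_lit 407793813) (nat_lit 0))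
def n6368 : Nd := .arc (nat_lit 3) n6366 (.arc (nat_lit 9) n6367 (.fin (nat_lit 341201045) (nat_lit 0)))
def n6369 : Nd := .arc (nat_lit 3) n6361 (.arc (nat_lit 6) n6365 (.arc (nat_lit 9) n6368 (.fin (nat_lit 607522965) (nat_lit 0))))
def n6370 : Nd := .arc (nat_lit 3) n6353 (.arc (nat_lit 40) n5028 (.arc (nat_lit 43) n5029 (.arc (nat_lit 46) n5030 (.fin (nat_lit 407818389) (nat_lit 0)))))
def n6371 : Nd := .arc (nat_lit 3) n6362 (.fin (nat_lit 607572117) (nat_lit 0))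
def n6372 : Nd := .arc (nat_lit 6) n6370 (.arc (nat_lit 9) n6371 (.fin (nat_lit 674115733) (nat_lit 0)))
def n6373 : Nd := .arc (nat_lit 3) n6367 (.arc (nat_lit 6) n6366 (.fin (nat_lit 607555733) (nat_lit 0)))
def n6374 : Nd := .arc (nat_lit 3) n6355 (.arc (nat_lit 9) n6354 (.fin (nat_lit 407785621) (nat_lit 0)))
def n6375 : Nd := .arc (nat_lit 3) n6372 (.arc (nat_lit 6) n6373 (.arc (nat_lit 9) n6374 (.fin (nat_lit 341184661) (nat_lit 0))))
def n6376 : Nd := .arc (nat_lit 6) n6371 (.arc (nat_lit 9) n6370 (.fin (nat_lit 341192853) (nat_lit 0)))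
def n6377 : Nd := .arc (nat_lit 3) n6358 (.arc (nat_lit 6) n6357 (.fin (nat_lit 407802005) (nat_lit 0)))
def n6378 : Nd := .arc (nat_lit 3) n6364 (.arc (nat_lit 9) n6363 (.fin (nat_lit 607539349) (nat_lit 0)))
def n6379 : Nd := .arc (nat_lit 3) n6376 (.arc (nat_lit 6) n6377 (.arc (nat_lit 9) n6378 (.fin (nat_lit 674107541) (nat_lit 0))))
def n6380 : Nd := .arc (nat_lit 38) n5671 (.arc (nat_lit 41) n5675 (.arc (nat_lit 44) n5665 (.arc (nat_lit 47) n5656 (.arc (nat_lit 50) n5639 (.arc (nat_lit 53) n5643 (.arc (nat_lit 56) n5624 (.arc (nat_lit 59) n5633 (.fin (nat_lit 290386071) (nat_lit 0)))))))))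
def n6381 : Nd := .arc (nat_lit 3) n6380 (.fin (nat_lit 557240473) (nat_lit 0))
def n6382 : Nd := .arc (nat_lit 26) n5671 (.arc (nat_lit 29) n5675 (.arc (nat_lit 32) n5656 (.arc (nat_lit 35) n5665 (.arc (nat_lit 62) n5639 (.arc (nat_lit 65) n5643 (.arc (nat_lit 68) n5633 (.arc (nat_lit 71) n5624 (.fin (nat_lit 557248665) (nat_lit 0)))))))))
def n6383 : Nd := .arc (nat_lit 3) n6382 (.arc (nat_lit 40) n5668 (.arc (nat_lit 43) n5669 (.arc (nat_lit 46) n5670 (.fin (nat_lit 290377879) (nat_lit 0)))))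
def n6384 : Nd := .arc (nat_lit 6) n6381 (.arc (nat_lit 9) n6383 (.fin (nat_lit 89534621) (nat_lit 0)))
def n6385 : Nd := .arc (nat_lit 26) n5639 (.arc (nat_lit 29) n5643 (.arc (nat_lit 32) n5633 (.arc (nat_lit 35) n5624 (.arc (nat_lit 50) n5671 (.arc (nat_lit 53) n5675 (.arc (nat_lit 56) n5665 (.arc (nat_lit 59) n5656 (.fin (nat_lit 89583773) (nat_lit 0)))))))))
def n6386 : Nd := .arc (nat_lit 9) n6385 (.arc (nat_lit 64) n5636 (.arc (nat_lit 67) n5638 (.arc (nat_lit 70) n5637 (.fin (nat_lit 557215897) (nat_lit 0)))))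
def n6387 : Nd := .arc (nat_lit 6) n6382 (.arc (nat_lit 52) n5668 (.arc (nat_lit 55) n5669 (.arc (nat_lit 58) n5670 (.fin (nat_lit 89567389) (nat_lit 0)))))
def n6388 : Nd := .arc (nat_lit 3) n6386 (.arc (nat_lit 6) n6387 (.fin (nat_lit 290361495) (nat_lit 0)))
def n6389 : Nd := .arc (nat_lit 6) n6385 (.arc (nat_lit 52) n5636 (.arc (nat_lit 55) n5637 (.arc (nat_lit 58) n5638 (.fin (nat_lit 290369687) (nat_lit 0)))))
def n6390 : Nd := .arc (nat_lit 9) n6380 (.fin (nat_lit 89551005) (nat_lit 0))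
def n6391 : Nd := .arc (nat_lit 3) n6389 (.arc (nat_lit 9) n6390 (.fin (nat_lit 557207705) (nat_lit 0)))
def n6392 : Nd := .arc (nat_lit 3) n6384 (.arc (nat_lit 6) n6388 (.arc (nat_lit 9) n6391 (.fin (nat_lit 154013851) (nat_lit 0))))
def n6393 : Nd := .arc (nat_lit 6) n6383 (.arc (nat_lit 9) n6381 (.fin (nat_lit 154022043) (nat_lit 0)))
def n6394 : Nd := .arc (nat_lit 38) n5639 (.arc (nat_lit 41) n5643 (.arc (nat_lit 44) n5624 (.arc (nat_lit 47) n5633 (.arc (nat_lit 62) n5671 (.arc (nat_lit 65) n5675 (.arc (nat_lit 68) n5656 (.arc (nat_lit 71) n5665 (.fin (nat_lit 154071195) (nat_lit 0)))))))))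
def n6395 : Nd := .arc (nat_lit 9) n6394 (.fin (nat_lit 290353303) (nat_lit 0))
def n6396 : Nd := .arc (nat_lit 6) n6380 (.fin (nat_lit 154054811) (nat_lit 0))
def n6397 : Nd := .arc (nat_lit 3) n6395 (.arc (nat_lit 6) n6396 (.fin (nat_lit 557224089) (nat_lit 0)))
def n6398 : Nd := .arc (nat_lit 6) n6394 (.fin (nat_lit 557232281) (nat_lit 0))
def n6399 : Nd := .arc (nat_lit 9) n6382 (.arc (nat_lit 64) n5668 (.arc (nat_lit 67) n5670 (.arc (nat_lit 70) n5669 (.fin (nat_lit 154038427) (nat_lit 0)))))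
def n6400 : Nd := .arc (nat_lit 3) n6398 (.arc (nat_lit 9) n6399 (.fin (nat_lit 290345111) (nat_lit 0)))
def n6401 : Nd := .arc (nat_lit 3) n6393 (.arc (nat_lit 6) n6397 (.arc (nat_lit 9) n6400 (.fin (nat_lit 89526429) (nat_lit 0))))
def n6402 : Nd := .arc (nat_lit 3) n6385 (.arc (nat_lit 40) n5636 (.arc (nat_lit 43) n5637 (.arc (nat_lit 46) n5638 (.fin (nat_lit 154063003) (nat_lit 0)))))
def n6403 : Nd := .arc (nat_lit 3) n6394 (.fin (nat_lit 89575581) (nat_lit 0))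
def n6404 : Nd := .arc (nat_lit 6) n6402 (.arc (nat_lit 9) n6403 (.fin (nat_lit 557199513) (nat_lit 0)))
def n6405 : Nd := .arc (nat_lit 3) n6399 (.arc (nat_lit 6) n6398 (.fin (nat_lit 89559197) (nat_lit 0)))
def n6406 : Nd := .arc (nat_lit 3) n6387 (.arc (nat_lit 9) n6386 (.fin (nat_lit 154030235) (nat_lit 0)))
def n6407 : Nd := .arc (nat_lit 3) n6404 (.arc (nat_lit 6) n6405 (.arc (nat_lit 9) n6406 (.fin (nat_lit 290328727) (nat_lit 0))))
def n6408 : Nd := .arc (nat_lit 6) n6403 (.arc (nat_lit 9) n6402 (.fin (nat_lit 290336919) (nat_lit 0)))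
def n6409 : Nd := .arc (nat_lit 3) n6390 (.arc (nat_lit 6) n6389 (.fin (nat_lit 154046619) (nat_lit 0)))
def n6410 : Nd := .arc (nat_lit 3) n6396 (.arc (nat_lit 9) n6395 (.fin (nat_lit 89542813) (nat_lit 0)))
def n6411 : Nd := .arc (nat_lit 3) n6408 (.arc (nat_lit 6) n6409 (.arc (nat_lit 9) n6410 (.fin (nat_lit 557191321) (nat_lit 0))))
def n6412 : Nd := .arc (nat_lit 14) n6328 (.arc (nat_lit 17) n6337 (.arc (nat_lit 20) n6343 (.arc (nat_lit 23) n6347 (.arc (nat_lit 38) n6360 (.arc (nat_lit 41) n6369 (.arc (nat_lit 44) n6375 (.arc (nat_lit 47) n6379 (.arc (nat_lit 50) n6392 (.arc (nat_lit 53) n6401 (.arc (nat_lit 56) n6407 (.arc (nat_lit 59) n6411 (.fin (nat_lit 306901143) (nat_lit 0)))))))))))))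
def n6413 : Nd := .arc (nat_lit 3) n6412 (.fin (nat_lit 573755545) (nat_lit 0))
def n6414 : Nd := .arc (nat_lit 14) n6337 (.arc (nat_lit 17) n6328 (.arc (nat_lit 20) n6347 (.arc (nat_lit 23) n6343 (.arc (nat_lit 26) n6360 (.arc (nat_lit 29) n6369 (.arc (nat_lit 32) n6379 (.arc (nat_lit 35) n6375 (.arc (nat_lit 62) n6392 (.arc (nat_lit 65) n6401 (.arc (nat_lit 68) n6411 (.arc (nat_lit 71) n6407 (.fin (nat_lit 573763737) (nat_lit 0)))))))))))))
def n6415 : Nd := .arc (nat_lit 3) n6414 (.arc (nat_lit 40) n6352 (.arc (nat_lit 43) n6356 (.arc (nat_lit 46) n6359 (.fin (nat_lit 306892951) (nat_lit 0)))))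
def n6416 : Nd := .arc (nat_lit 6) n6413 (.arc (nat_lit 9) n6415 (.fin (nat_lit 106049693) (nat_lit 0)))
def n6417 : Nd := .arc (nat_lit 14) n6343 (.arc (nat_lit 17) n6347 (.arc (nat_lit 20) n6337 (.arc (nat_lit 23) n6328 (.arc (nat_lit 26) n6392 (.arc (nat_lit 29) n6401 (.arc (nat_lit 32) n6411 (.arc (nat_lit 35) n6407 (.arc (nat_lit 50) n6360 (.arc (nat_lit 53) n6369 (.arc (nat_lit 56) n6375 (.arc (nat_lit 59) n6379 (.fin (nat_lit 106098845) (nat_lit 0)))))))))))))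
def n6418 : Nd := .arc (nat_lit 9) n6417 (.arc (nat_lit 64) n6384 (.arc (nat_lit 67) n6391 (.arc (nat_lit 70) n6388 (.fin (nat_lit 573730969) (nat_lit 0)))))
def n6419 : Nd := .arc (nat_lit 6) n6414 (.arc (nat_lit 52) n6352 (.arc (nat_lit 55) n6356 (.arc (nat_lit 58) n6359 (.fin (nat_lit 106082461) (nat_lit 0)))))
def n6420 : Nd := .arc (nat_lit 3) n6418 (.arc (nat_lit 6) n6419 (.fin (nat_lit 306876567) (nat_lit 0)))
def n6421 : Nd := .arc (nat_lit 6) n6417 (.arc (nat_lit 52) n6384 (.arc (nat_lit 55) n6388 (.arc (nat_lit 58) n6391 (.fin (nat_lit 306884759) (nat_lit 0)))))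
def n6422 : Nd := .arc (nat_lit 9) n6412 (.fin (nat_lit 106066077) (nat_lit 0))
def n6423 : Nd := .arc (nat_lit 3) n6421 (.arc (nat_lit 9) n6422 (.fin (nat_lit 573722777) (nat_lit 0)))
def n6424 : Nd := .arc (nat_lit 3) n6416 (.arc (nat_lit 6) n6420 (.arc (nat_lit 9) n6423 (.fin (nat_lit 170528923) (nat_lit 0))))
def n6425 : Nd := .arc (nat_lit 6) n6415 (.arc (nat_lit 9) n6413 (.fin (nat_lit 170537115) (nat_lit 0)))
def n6426 : Nd := .arc (nat_lit 14) n6347 (.arc (nat_lit 17) n6343 (.arc (nat_lit 20) n6328 (.arc (nat_lit 23) n6337 (.arc (nat_lit 38) n6392 (.arc (nat_lit 41) n6401 (.arc (nat_lit 44) n6407 (.arc (nat_lit 47) n6411 (.arc (nat_lit 62) n6360 (.arc (nat_lit 65) n6369 (.arc (nat_lit 68) n6379 (.arc (nat_lit 71) n6375 (.fin (nat_lit 170586267) (nat_lit 0)))))))))))))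
def n6427 : Nd := .arc (nat_lit 9) n6426 (.fin (nat_lit 306868375) (nat_lit 0))
def n6428 : Nd := .arc (nat_lit 6) n6412 (.fin (nat_lit 170569883) (nat_lit 0))
def n6429 : Nd := .arc (nat_lit 3) n6427 (.arc (nat_lit 6) n6428 (.fin (nat_lit 573739161) (nat_lit 0)))
def n6430 : Nd := .arc (nat_lit 6) n6426 (.fin (nat_lit 573747353) (nat_lit 0))
def n6431 : Nd := .arc (nat_lit 9) n6414 (.arc (nat_lit 64) n6352 (.arc (nat_lit 67) n6359 (.arc (nat_lit 70) n6356 (.fin (nat_lit 170553499) (nat_lit 0)))))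
def n6432 : Nd := .arc (nat_lit 3) n6430 (.arc (nat_lit 9) n6431 (.fin (nat_lit 306860183) (nat_lit 0)))
def n6433 : Nd := .arc (nat_lit 3) n6425 (.arc (nat_lit 6) n6429 (.arc (nat_lit 9) n6432 (.fin (nat_lit 106041501) (nat_lit 0))))
def n6434 : Nd := .arc (nat_lit 3) n6426 (.fin (nat_lit 106090653) (nat_lit 0))
def n6435 : Nd := .arc (nat_lit 3) n6417 (.arc (nat_lit 40) n6384 (.arc (nat_lit 43) n6388 (.arc (nat_lit 46) n6391 (.fin (nat_lit 170578075) (nat_lit 0)))))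
def n6436 : Nd := .arc (nat_lit 6) n6434 (.arc (nat_lit 9) n6435 (.fin (nat_lit 306851991) (nat_lit 0)))
def n6437 : Nd := .arc (nat_lit 3) n6422 (.arc (nat_lit 6) n6421 (.fin (nat_lit 170561691) (nat_lit 0)))
def n6438 : Nd := .arc (nat_lit 3) n6428 (.arc (nat_lit 9) n6427 (.fin (nat_lit 106057885) (nat_lit 0)))
def n6439 : Nd := .arc (nat_lit 3) n6436 (.arc (nat_lit 6) n6437 (.arc (nat_lit 9) n6438 (.fin (nat_lit 573706393) (nat_lit 0))))
def n6440 : Nd := .arc (nat_lit 6) n6435 (.arc (nat_lit 9) n6434 (.fin (nat_lit 573714585) (nat_lit 0)))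
def n6441 : Nd := .arc (nat_lit 3) n6431 (.arc (nat_lit 6) n6430 (.fin (nat_lit 106074269) (nat_lit 0)))
def n6442 : Nd := .arc (nat_lit 3) n6419 (.arc (nat_lit 9) n6418 (.fin (nat_lit 170545307) (nat_lit 0)))
def n6443 : Nd := .arc (nat_lit 3) n6440 (.arc (nat_lit 6) n6441 (.arc (nat_lit 9) n6442 (.fin (nat_lit 306843799) (nat_lit 0))))
def n6444 : Nd := .arc (nat_lit 38) n6273 (.arc (nat_lit 41) n6264 (.arc (nat_lit 44) n6283 (.arc (nat_lit 47) n6279 (.arc (nat_lit 62) n6305 (.arc (nat_lit 65) n6296 (.arc (nat_lit 68) n6311 (.arc (nat_lit 71) n6315 (.fin (nat_lit 170848411) (nat_lit 0)))))))))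
def n6445 : Nd := .arc (nat_lit 3) n6444 (.fin (nat_lit 106352797) (nat_lit 0))
def n6446 : Nd := .arc (nat_lit 26) n6273 (.arc (nat_lit 29) n6264 (.arc (nat_lit 32) n6279 (.arc (nat_lit 35) n6283 (.arc (nat_lit 50) n6305 (.arc (nat_lit 53) n6296 (.arc (nat_lit 56) n6315 (.arc (nat_lit 59) n6311 (.fin (nat_lit 106360989) (nat_lit 0)))))))))
def n6447 : Nd := .arc (nat_lit 3) n6446 (.arc (nat_lit 40) n6265 (.arc (nat_lit 43) n6269 (.arc (nat_lit 46) n6272 (.fin (nat_lit 170840219) (nat_lit 0)))))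
def n6448 : Nd := .arc (nat_lit 6) n6445 (.arc (nat_lit 9) n6447 (.fin (nat_lit 307114135) (nat_lit 0)))
def n6449 : Nd := .arc (nat_lit 38) n6305 (.arc (nat_lit 41) n6296 (.arc (nat_lit 44) n6315 (.arc (nat_lit 47) n6311 (.arc (nat_lit 50) n6273 (.arc (nat_lit 53) n6264 (.arc (nat_lit 56) n6283 (.arc (nat_lit 59) n6279 (.fin (nat_lit 307163287) (nat_lit 0)))))))))
def n6450 : Nd := .arc (nat_lit 9) n6449 (.fin (nat_lit 106328221) (nat_lit 0))
def n6451 : Nd := .arc (nat_lit 6) n6446 (.arc (nat_lit 52) n6265 (.arc (nat_lit 55) n6269 (.arc (nat_lit 58) n6272 (.fin (nat_lit 307146903) (nat_lit 0)))))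
def n6452 : Nd := .arc (nat_lit 3) n6450 (.arc (nat_lit 6) n6451 (.fin (nat_lit 170823835) (nat_lit 0)))
def n6453 : Nd := .arc (nat_lit 6) n6449 (.fin (nat_lit 170832027) (nat_lit 0))
def n6454 : Nd := .arc (nat_lit 9) n6444 (.fin (nat_lit 307130519) (nat_lit 0))
def n6455 : Nd := .arc (nat_lit 3) n6453 (.arc (nat_lit 9) n6454 (.fin (nat_lit 106320029) (nat_lit 0)))
def n6456 : Nd := .arc (nat_lit 3) n6448 (.arc (nat_lit 6) n6452 (.arc (nat_lit 9) n6455 (.fin (nat_lit 573968537) (nat_lit 0))))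
def n6457 : Nd := .arc (nat_lit 6) n6447 (.arc (nat_lit 9) n6445 (.fin (nat_lit 573976729) (nat_lit 0)))
def n6458 : Nd := .arc (nat_lit 26) n6305 (.arc (nat_lit 29) n6296 (.arc (nat_lit 32) n6311 (.arc (nat_lit 35) n6315 (.arc (nat_lit 62) n6273 (.arc (nat_lit 65) n6264 (.arc (nat_lit 68) n6279 (.arc (nat_lit 71) n6283 (.fin (nat_lit 574025881) (nat_lit 0)))))))))
def n6459 : Nd := .arc (nat_lit 9) n6458 (.arc (nat_lit 64) n6297 (.arc (nat_lit 67) n6304 (.arc (nat_lit 70) n6301 (.fin (nat_lit 170815643) (nat_lit 0)))))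
def n6460 : Nd := .arc (nat_lit 6) n6444 (.fin (nat_lit 574009497) (nat_lit 0))
def n6461 : Nd := .arc (nat_lit 3) n6459 (.arc (nat_lit 6) n6460 (.fin (nat_lit 106336413) (nat_lit 0)))
def n6462 : Nd := .arc (nat_lit 6) n6458 (.arc (nat_lit 52) n6297 (.arc (nat_lit 55) n6301 (.arc (nat_lit 58) n6304 (.fin (nat_lit 106344605) (nat_lit 0)))))
def n6463 : Nd := .arc (nat_lit 9) n6446 (.arc (nat_lit 64) n6265 (.arc (nat_lit 67) n6272 (.arc (nat_lit 70) n6269 (.fin (nat_lit 573993113) (nat_lit 0)))))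
def n6464 : Nd := .arc (nat_lit 3) n6462 (.arc (nat_lit 9) n6463 (.fin (nat_lit 170807451) (nat_lit 0)))
def n6465 : Nd := .arc (nat_lit 3) n6457 (.arc (nat_lit 6) n6461 (.arc (nat_lit 9) n6464 (.fin (nat_lit 307105943) (nat_lit 0))))
def n6466 : Nd := .arc (nat_lit 3) n6458 (.arc (nat_lit 40) n6297 (.arc (nat_lit 43) n6301 (.arc (nat_lit 46) n6304 (.fin (nat_lit 307155095) (nat_lit 0)))))
def n6467 : Nd := .arc (nat_lit 3) n6449 (.fin (nat_lit 574017689) (nat_lit 0))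
def n6468 : Nd := .arc (nat_lit 6) n6466 (.arc (nat_lit 9) n6467 (.fin (nat_lit 170799259) (nat_lit 0)))
def n6469 : Nd := .arc (nat_lit 3) n6454 (.arc (nat_lit 6) n6453 (.fin (nat_lit 574001305) (nat_lit 0)))
def n6470 : Nd := .arc (nat_lit 3) n6460 (.arc (nat_lit 9) n6459 (.fin (nat_lit 307122327) (nat_lit 0)))
def n6471 : Nd := .arc (nat_lit 3) n6468 (.arc (nat_lit 6) n6469 (.arc (nat_lit 9) n6470 (.fin (nat_lit 106303645) (nat_lit 0))))
def n6472 : Nd := .arc (nat_lit 6) n6467 (.arc (nat_lit 9) n6466 (.fin (nat_lit 106311837) (nat_lit 0)))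
def n6473 : Nd := .arc (nat_lit 3) n6463 (.arc (nat_lit 6) n6462 (.fin (nat_lit 307138711) (nat_lit 0)))
def n6474 : Nd := .arc (nat_lit 3) n6451 (.arc (nat_lit 9) n6450 (.fin (nat_lit 573984921) (nat_lit 0)))
def n6475 : Nd := .arc (nat_lit 3) n6472 (.arc (nat_lit 6) n6473 (.arc (nat_lit 9) n6474 (.fin (nat_lit 170791067) (nat_lit 0))))
def n6476 : Nd := .arc (nat_lit 38) n4801 (.arc (nat_lit 41) n4792 (.arc (nat_lit 44) n4807 (.arc (nat_lit 47) n4811 (.arc (nat_lit 50) n4843 (.arc (nat_lit 53) n4839 (.arc (nat_lit 56) n4824 (.arc (nat_lit 59) n4833 (.fin (nat_lit 676262037) (nat_lit 0)))))))))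
def n6477 : Nd := .arc (nat_lit 3) n6476 (.fin (nat_lit 339136661) (nat_lit 0))
def n6478 : Nd := .arc (nat_lit 26) n4801 (.arc (nat_lit 29) n4792 (.arc (nat_lit 32) n4811 (.arc (nat_lit 35) n4807 (.arc (nat_lit 62) n4843 (.arc (nat_lit 65) n4839 (.arc (nat_lit 68) n4833 (.arc (nat_lit 71) n4824 (.fin (nat_lit 339144853) (nat_lit 0)))))))))
def n6479 : Nd := .arc (nat_lit 3) n6478 (.arc (nat_lit 40) n4793 (.arc (nat_lit 43) n4797 (.arc (nat_lit 46) n4800 (.fin (nat_lit 676253845) (nat_lit 0)))))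
def n6480 : Nd := .arc (nat_lit 6) n6477 (.arc (nat_lit 9) n6479 (.fin (nat_lit 408301717) (nat_lit 0)))
def n6481 : Nd := .arc (nat_lit 26) n4843 (.arc (nat_lit 29) n4839 (.arc (nat_lit 32) n4833 (.arc (nat_lit 35) n4824 (.arc (nat_lit 50) n4801 (.arc (nat_lit 53) n4792 (.arc (nat_lit 56) n4807 (.arc (nat_lit 59) n4811 (.fin (nat_lit 408350869) (nat_lit 0)))))))))
def n6482 : Nd := .arc (nat_lit 9) n6481 (.arc (nat_lit 64) n4840 (.arc (nat_lit 67) n4842 (.arc (nat_lit 70) n4841 (.fin (nat_lit 339112085) (nat_lit 0)))))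
def n6483 : Nd := .arc (nat_lit 6) n6478 (.arc (nat_lit 52) n4793 (.arc (nat_lit 55) n4797 (.arc (nat_lit 58) n4800 (.fin (nat_lit 408334485) (nat_lit 0)))))
def n6484 : Nd := .arc (nat_lit 3) n6482 (.arc (nat_lit 6) n6483 (.fin (nat_lit 676237461) (nat_lit 0)))
def n6485 : Nd := .arc (nat_lit 6) n6481 (.arc (nat_lit 52) n4840 (.arc (nat_lit 55) n4841 (.arc (nat_lit 58) n4842 (.fin (nat_lit 676245653) (nat_lit 0)))))
def n6486 : Nd := .arc (nat_lit 9) n6476 (.fin (nat_lit 408318101) (nat_lit 0))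
def n6487 : Nd := .arc (nat_lit 3) n6485 (.arc (nat_lit 9) n6486 (.fin (nat_lit 339103893) (nat_lit 0)))
def n6488 : Nd := .arc (nat_lit 3) n6480 (.arc (nat_lit 6) n6484 (.arc (nat_lit 9) n6487 (.fin (nat_lit 606998677) (nat_lit 0))))
def n6489 : Nd := .arc (nat_lit 6) n6479 (.arc (nat_lit 9) n6477 (.fin (nat_lit 607006869) (nat_lit 0)))
def n6490 : Nd := .arc (nat_lit 38) n4843 (.arc (nat_lit 41) n4839 (.arc (nat_lit 44) n4824 (.arc (nat_lit 47) n4833 (.arc (nat_lit 62) n4801 (.arc (nat_lit 65) n4792 (.arc (nat_lit 68) n4811 (.arc (nat_lit 71) n4807 (.fin (nat_lit 607056021) (nat_lit 0)))))))))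
def n6491 : Nd := .arc (nat_lit 9) n6490 (.fin (nat_lit 676229269) (nat_lit 0))
def n6492 : Nd := .arc (nat_lit 6) n6476 (.fin (nat_lit 607039637) (nat_lit 0))
def n6493 : Nd := .arc (nat_lit 3) n6491 (.arc (nat_lit 6) n6492 (.fin (nat_lit 339120277) (nat_lit 0)))
def n6494 : Nd := .arc (nat_lit 6) n6490 (.fin (nat_lit 339128469) (nat_lit 0))
def n6495 : Nd := .arc (nat_lit 9) n6478 (.arc (nat_lit 64) n4793 (.arc (nat_lit 67) n4800 (.arc (nat_lit 70) n4797 (.fin (nat_lit 607023253) (nat_lit 0)))))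
def n6496 : Nd := .arc (nat_lit 3) n6494 (.arc (nat_lit 9) n6495 (.fin (nat_lit 676221077) (nat_lit 0)))
def n6497 : Nd := .arc (nat_lit 3) n6489 (.arc (nat_lit 6) n6493 (.arc (nat_lit 9) n6496 (.fin (nat_lit 408293525) (nat_lit 0))))
def n6498 : Nd := .arc (nat_lit 3) n6490 (.fin (nat_lit 408342677) (nat_lit 0))
def n6499 : Nd := .arc (nat_lit 3) n6481 (.arc (nat_lit 40) n4840 (.arc (nat_lit 43) n4841 (.arc (nat_lit 46) n4842 (.fin (nat_lit 607047829) (nat_lit 0)))))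
def n6500 : Nd := .arc (nat_lit 6) n6498 (.arc (nat_lit 9) n6499 (.fin (nat_lit 676212885) (nat_lit 0)))
def n6501 : Nd := .arc (nat_lit 3) n6486 (.arc (nat_lit 6) n6485 (.fin (nat_lit 607031445) (nat_lit 0)))
def n6502 : Nd := .arc (nat_lit 3) n6492 (.arc (nat_lit 9) n6491 (.fin (nat_lit 408309909) (nat_lit 0)))
def n6503 : Nd := .arc (nat_lit 3) n6500 (.arc (nat_lit 6) n6501 (.arc (nat_lit 9) n6502 (.fin (nat_lit 339087509) (nat_lit 0))))
def n6504 : Nd := .arc (nat_lit 6) n6499 (.arc (nat_lit 9) n6498 (.fin (nat_lit 339095701) (nat_lit 0)))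
def n6505 : Nd := .arc (nat_lit 3) n6495 (.arc (nat_lit 6) n6494 (.fin (nat_lit 408326293) (nat_lit 0)))
def n6506 : Nd := .arc (nat_lit 3) n6483 (.arc (nat_lit 9) n6482 (.fin (nat_lit 607015061) (nat_lit 0)))
def n6507 : Nd := .arc (nat_lit 3) n6504 (.arc (nat_lit 6) n6505 (.arc (nat_lit 9) n6506 (.fin (nat_lit 676204693) (nat_lit 0))))
def n6508 : Nd := .arc (nat_lit 26) n5767 (.arc (nat_lit 29) n5771 (.arc (nat_lit 32) n5761 (.arc (nat_lit 35) n5752 (.arc (nat_lit 50) n5735 (.arc (nat_lit 53) n5739 (.arc (nat_lit 56) n5720 (.arc (nat_lit 59) n5729 (.fin (nat_lit 559345817) (nat_lit 0)))))))))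
def n6509 : Nd := .arc (nat_lit 3) n6508 (.arc (nat_lit 40) n5764 (.arc (nat_lit 43) n5765 (.arc (nat_lit 46) n5766 (.fin (nat_lit 288280727) (nat_lit 0)))))
def n6510 : Nd := .arc (nat_lit 38) n5767 (.arc (nat_lit 41) n5771 (.arc (nat_lit 44) n5752 (.arc (nat_lit 47) n5761 (.arc (nat_lit 62) n5735 (.arc (nat_lit 65) n5739 (.arc (nat_lit 68) n5729 (.arc (nat_lit 71) n5720 (.fin (nat_lit 288288919) (nat_lit 0)))))))))
def n6511 : Nd := .arc (nat_lit 3) n6510 (.fin (nat_lit 559337625) (nat_lit 0))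
def n6512 : Nd := .arc (nat_lit 6) n6509 (.arc (nat_lit 9) n6511 (.fin (nat_lit 154546331) (nat_lit 0)))
def n6513 : Nd := .arc (nat_lit 26) n5735 (.arc (nat_lit 29) n5739 (.arc (nat_lit 32) n5729 (.arc (nat_lit 35) n5720 (.arc (nat_lit 62) n5767 (.arc (nat_lit 65) n5771 (.arc (nat_lit 68) n5761 (.arc (nat_lit 71) n5752 (.fin (nat_lit 154595483) (nat_lit 0)))))))))
def n6514 : Nd := .arc (nat_lit 9) n6513 (.arc (nat_lit 64) n5732 (.arc (nat_lit 67) n5734 (.arc (nat_lit 70) n5733 (.fin (nat_lit 288256151) (nat_lit 0)))))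
def n6515 : Nd := .arc (nat_lit 6) n6510 (.fin (nat_lit 154579099) (nat_lit 0))
def n6516 : Nd := .arc (nat_lit 3) n6514 (.arc (nat_lit 6) n6515 (.fin (nat_lit 559321241) (nat_lit 0)))
def n6517 : Nd := .arc (nat_lit 6) n6513 (.arc (nat_lit 52) n5732 (.arc (nat_lit 55) n5733 (.arc (nat_lit 58) n5734 (.fin (nat_lit 559329433) (nat_lit 0)))))
def n6518 : Nd := .arc (nat_lit 9) n6508 (.arc (nat_lit 64) n5764 (.arc (nat_lit 67) n5766 (.arc (nat_lit 70) n5765 (.fin (nat_lit 154562715) (nat_lit 0)))))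
def n6519 : Nd := .arc (nat_lit 3) n6517 (.arc (nat_lit 9) n6518 (.fin (nat_lit 288247959) (nat_lit 0)))
def n6520 : Nd := .arc (nat_lit 3) n6512 (.arc (nat_lit 6) n6516 (.arc (nat_lit 9) n6519 (.fin (nat_lit 89002141) (nat_lit 0))))
def n6521 : Nd := .arc (nat_lit 6) n6511 (.arc (nat_lit 9) n6509 (.fin (nat_lit 89010333) (nat_lit 0)))
def n6522 : Nd := .arc (nat_lit 38) n5735 (.arc (nat_lit 41) n5739 (.arc (nat_lit 44) n5720 (.arc (nat_lit 47) n5729 (.arc (nat_lit 50) n5767 (.arc (nat_lit 53) n5771 (.arc (nat_lit 56) n5752 (.arc (nat_lit 59) n5761 (.fin (nat_lit 89059485) (nat_lit 0)))))))))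
def n6523 : Nd := .arc (nat_lit 9) n6522 (.fin (nat_lit 559313049) (nat_lit 0))
def n6524 : Nd := .arc (nat_lit 6) n6508 (.arc (nat_lit 52) n5764 (.arc (nat_lit 55) n5765 (.arc (nat_lit 58) n5766 (.fin (nat_lit 89043101) (nat_lit 0)))))
def n6525 : Nd := .arc (nat_lit 3) n6523 (.arc (nat_lit 6) n6524 (.fin (nat_lit 288264343) (nat_lit 0)))
def n6526 : Nd := .arc (nat_lit 6) n6522 (.fin (nat_lit 288272535) (nat_lit 0))
def n6527 : Nd := .arc (nat_lit 9) n6510 (.fin (nat_lit 89026717) (nat_lit 0))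
def n6528 : Nd := .arc (nat_lit 3) n6526 (.arc (nat_lit 9) n6527 (.fin (nat_lit 559304857) (nat_lit 0)))
def n6529 : Nd := .arc (nat_lit 3) n6521 (.arc (nat_lit 6) n6525 (.arc (nat_lit 9) n6528 (.fin (nat_lit 154538139) (nat_lit 0))))
def n6530 : Nd := .arc (nat_lit 3) n6513 (.arc (nat_lit 40) n5732 (.arc (nat_lit 43) n5733 (.arc (nat_lit 46) n5734 (.fin (nat_lit 89051293) (nat_lit 0)))))
def n6531 : Nd := .arc (nat_lit 3) n6522 (.fin (nat_lit 154587291) (nat_lit 0))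
def n6532 : Nd := .arc (nat_lit 6) n6530 (.arc (nat_lit 9) n6531 (.fin (nat_lit 288239767) (nat_lit 0)))
def n6533 : Nd := .arc (nat_lit 3) n6527 (.arc (nat_lit 6) n6526 (.fin (nat_lit 154570907) (nat_lit 0)))
def n6534 : Nd := .arc (nat_lit 3) n6515 (.arc (nat_lit 9) n6514 (.fin (nat_lit 89018525) (nat_lit 0)))
def n6535 : Nd := .arc (nat_lit 3) n6532 (.arc (nat_lit 6) n6533 (.arc (nat_lit 9) n6534 (.fin (nat_lit 559288473) (nat_lit 0))))
def n6536 : Nd := .arc (nat_lit 6) n6531 (.arc (nat_lit 9) n6530 (.fin (nat_lit 559296665) (nat_lit 0)))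
def n6537 : Nd := .arc (nat_lit 3) n6518 (.arc (nat_lit 6) n6517 (.fin (nat_lit 89034909) (nat_lit 0)))
def n6538 : Nd := .arc (nat_lit 3) n6524 (.arc (nat_lit 9) n6523 (.fin (nat_lit 154554523) (nat_lit 0)))
def n6539 : Nd := .arc (nat_lit 3) n6536 (.arc (nat_lit 6) n6537 (.arc (nat_lit 9) n6538 (.fin (nat_lit 288231575) (nat_lit 0))))
def n6540 : Nd := .arc (nat_lit 14) n6456 (.arc (nat_lit 17) n6465 (.arc (nat_lit 20) n6471 (.arc (nat_lit 23) n6475 (.arc (nat_lit 26) n6488 (.arc (nat_lit 29) n6497 (.arc (nat_lit 32) n6503 (.arc (nat_lit 35) n6507 (.arc (nat_lit 50) n6520 (.arc (nat_lit 53) n6529 (.arc (nat_lit 56) n6535 (.arc (nat_lit 59) n6539 (.fin (nat_lit 290648217) (nat_lit 0)))))))))))))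
def n6541 : Nd := .arc (nat_lit 3) n6540 (.arc (nat_lit 40) n6480 (.arc (nat_lit 43) n6484 (.arc (nat_lit 46) n6487 (.fin (nat_lit 556454039) (nat_lit 0)))))
def n6542 : Nd := .arc (nat_lit 14) n6465 (.arc (nat_lit 17) n6456 (.arc (nat_lit 20) n6475 (.arc (nat_lit 23) n6471 (.arc (nat_lit 38) n6488 (.arc (nat_lit 41) n6497 (.arc (nat_lit 44) n6507 (.arc (nat_lit 47) n6503 (.arc (nat_lit 62) n6520 (.arc (nat_lit 65) n6529 (.arc (nat_lit 68) n6539 (.arc (nat_lit 71) n6535 (.fin (nat_lit 556462231) (nat_lit 0)))))))))))))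
def n6543 : Nd := .arc (nat_lit 3) n6542 (.fin (nat_lit 290640025) (nat_lit 0))
def n6544 : Nd := .arc (nat_lit 6) n6541 (.arc (nat_lit 9) n6543 (.fin (nat_lit 87175323) (nat_lit 0)))
def n6545 : Nd := .arc (nat_lit 14) n6471 (.arc (nat_lit 17) n6475 (.arc (nat_lit 20) n6465 (.arc (nat_lit 23) n6456 (.arc (nat_lit 26) n6520 (.arc (nat_lit 29) n6529 (.arc (nat_lit 32) n6539 (.arc (nat_lit 35) n6535 (.arc (nat_lit 62) n6488 (.arc (nat_lit 65) n6497 (.arc (nat_lit 68) n6503 (.arc (nat_lit 71) n6507 (.fin (nat_lit 87224475) (nat_lit 0)))))))))))))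
def n6546 : Nd := .arc (nat_lit 9) n6545 (.arc (nat_lit 64) n6512 (.arc (nat_lit 67) n6519 (.arc (nat_lit 70) n6516 (.fin (nat_lit 556429463) (nat_lit 0)))))
def n6547 : Nd := .arc (nat_lit 6) n6542 (.fin (nat_lit 87208091) (nat_lit 0))
def n6548 : Nd := .arc (nat_lit 3) n6546 (.arc (nat_lit 6) n6547 (.fin (nat_lit 290623641) (nat_lit 0)))
def n6549 : Nd := .arc (nat_lit 6) n6545 (.arc (nat_lit 52) n6512 (.arc (nat_lit 55) n6516 (.arc (nat_lit 58) n6519 (.fin (nat_lit 290631833) (nat_lit 0)))))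
def n6550 : Nd := .arc (nat_lit 9) n6540 (.arc (nat_lit 64) n6480 (.arc (nat_lit 67) n6487 (.arc (nat_lit 70) n6484 (.fin (nat_lit 87191707) (nat_lit 0)))))
def n6551 : Nd := .arc (nat_lit 3) n6549 (.arc (nat_lit 9) n6550 (.fin (nat_lit 556421271) (nat_lit 0)))
def n6552 : Nd := .arc (nat_lit 3) n6544 (.arc (nat_lit 6) n6548 (.arc (nat_lit 9) n6551 (.fin (nat_lit 155848861) (nat_lit 0))))
def n6553 : Nd := .arc (nat_lit 6) n6543 (.arc (nat_lit 9) n6541 (.fin (nat_lit 155857053) (nat_lit 0)))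
def n6554 : Nd := .arc (nat_lit 14) n6475 (.arc (nat_lit 17) n6471 (.arc (nat_lit 20) n6456 (.arc (nat_lit 23) n6465 (.arc (nat_lit 38) n6520 (.arc (nat_lit 41) n6529 (.arc (nat_lit 44) n6535 (.arc (nat_lit 47) n6539 (.arc (nat_lit 50) n6488 (.arc (nat_lit 53) n6497 (.arc (nat_lit 56) n6507 (.arc (nat_lit 59) n6503 (.fin (nat_lit 155906205) (nat_lit 0)))))))))))))
def n6555 : Nd := .arc (nat_lit 9) n6554 (.fin (nat_lit 290615449) (nat_lit 0))
def n6556 : Nd := .arc (nat_lit 6) n6540 (.arc (nat_lit 52) n6480 (.arc (nat_lit 55) n6484 (.arc (nat_lit 58) n6487 (.fin (nat_lit 155889821) (nat_lit 0)))))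
def n6557 : Nd := .arc (nat_lit 3) n6555 (.arc (nat_lit 6) n6556 (.fin (nat_lit 556437655) (nat_lit 0)))
def n6558 : Nd := .arc (nat_lit 6) n6554 (.fin (nat_lit 556445847) (nat_lit 0))
def n6559 : Nd := .arc (nat_lit 9) n6542 (.fin (nat_lit 155873437) (nat_lit 0))
def n6560 : Nd := .arc (nat_lit 3) n6558 (.arc (nat_lit 9) n6559 (.fin (nat_lit 290607257) (nat_lit 0)))
def n6561 : Nd := .arc (nat_lit 3) n6553 (.arc (nat_lit 6) n6557 (.arc (nat_lit 9) n6560 (.fin (nat_lit 87167131) (nat_lit 0))))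
def n6562 : Nd := .arc (nat_lit 3) n6545 (.arc (nat_lit 40) n6512 (.arc (nat_lit 43) n6516 (.arc (nat_lit 46) n6519 (.fin (nat_lit 155898013) (nat_lit 0)))))
def n6563 : Nd := .arc (nat_lit 3) n6554 (.fin (nat_lit 87216283) (nat_lit 0))
def n6564 : Nd := .arc (nat_lit 6) n6562 (.arc (nat_lit 9) n6563 (.fin (nat_lit 556413079) (nat_lit 0)))
def n6565 : Nd := .arc (nat_lit 3) n6559 (.arc (nat_lit 6) n6558 (.fin (nat_lit 87199899) (nat_lit 0)))
def n6566 : Nd := .arc (nat_lit 3) n6547 (.arc (nat_lit 9) n6546 (.fin (nat_lit 155865245) (nat_lit 0)))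
def n6567 : Nd := .arc (nat_lit 3) n6564 (.arc (nat_lit 6) n6565 (.arc (nat_lit 9) n6566 (.fin (nat_lit 290590873) (nat_lit 0))))
def n6568 : Nd := .arc (nat_lit 6) n6563 (.arc (nat_lit 9) n6562 (.fin (nat_lit 290599065) (nat_lit 0)))
def n6569 : Nd := .arc (nat_lit 3) n6550 (.arc (nat_lit 6) n6549 (.fin (nat_lit 155881629) (nat_lit 0)))
def n6570 : Nd := .arc (nat_lit 3) n6556 (.arc (nat_lit 9) n6555 (.fin (nat_lit 87183515) (nat_lit 0)))
def n6571 : Nd := .arc (nat_lit 3) n6568 (.arc (nat_lit 6) n6569 (.arc (nat_lit 9) n6570 (.fin (nat_lit 556404887) (nat_lit 0))))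
def n6572 : Nd := .arc (nat_lit 26) n5355 (.arc (nat_lit 29) n5351 (.arc (nat_lit 32) n5345 (.arc (nat_lit 35) n5336 (.arc (nat_lit 38) n5323 (.arc (nat_lit 41) n5319 (.arc (nat_lit 44) n5313 (.arc (nat_lit 47) n5304 (.arc (nat_lit 50) n5291 (.arc (nat_lit 53) n5287 (.arc (nat_lit 56) n5281 (.arc (nat_lit 59) n5272 (.fin (nat_lit 407302293) (nat_lit 0)))))))))))))
def n6573 : Nd := .arc (nat_lit 3) n6572 (.arc (nat_lit 40) n5352 (.arc (nat_lit 43) n5353 (.arc (nat_lit 46) n5354 (.fin (nat_lit 606523541) (nat_lit 0)))))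
def n6574 : Nd := .arc (nat_lit 26) n5323 (.arc (nat_lit 29) n5319 (.arc (nat_lit 32) n5304 (.arc (nat_lit 35) n5313 (.arc (nat_lit 38) n5355 (.arc (nat_lit 41) n5351 (.arc (nat_lit 44) n5336 (.arc (nat_lit 47) n5345 (.arc (nat_lit 62) n5291 (.arc (nat_lit 65) n5287 (.arc (nat_lit 68) n5272 (.arc (nat_lit 71) n5281 (.fin (nat_lit 606531733) (nat_lit 0)))))))))))))
def n6575 : Nd := .arc (nat_lit 3) n6574 (.arc (nat_lit 40) n5320 (.arc (nat_lit 43) n5321 (.arc (nat_lit 46) n5322 (.fin (nat_lit 407294101) (nat_lit 0)))))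
def n6576 : Nd := .arc (nat_lit 6) n6573 (.arc (nat_lit 9) n6575 (.fin (nat_lit 336998549) (nat_lit 0)))
def n6577 : Nd := .arc (nat_lit 26) n5291 (.arc (nat_lit 29) n5287 (.arc (nat_lit 32) n5272 (.arc (nat_lit 35) n5281 (.arc (nat_lit 50) n5323 (.arc (nat_lit 53) n5319 (.arc (nat_lit 56) n5313 (.arc (nat_lit 59) n5304 (.arc (nat_lit 62) n5355 (.arc (nat_lit 65) n5351 (.arc (nat_lit 68) n5345 (.arc (nat_lit 71) n5336 (.fin (nat_lit 337047701) (nat_lit 0)))))))))))))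
def n6578 : Nd := .arc (nat_lit 9) n6577 (.arc (nat_lit 64) n5288 (.arc (nat_lit 67) n5290 (.arc (nat_lit 70) n5289 (.fin (nat_lit 606498965) (nat_lit 0)))))
def n6579 : Nd := .arc (nat_lit 6) n6574 (.arc (nat_lit 52) n5320 (.arc (nat_lit 55) n5321 (.arc (nat_lit 58) n5322 (.fin (nat_lit 337031317) (nat_lit 0)))))
def n6580 : Nd := .arc (nat_lit 3) n6578 (.arc (nat_lit 6) n6579 (.fin (nat_lit 407277717) (nat_lit 0)))
def n6581 : Nd := .arc (nat_lit 6) n6577 (.arc (nat_lit 52) n5288 (.arc (nat_lit 55) n5289 (.arc (nat_lit 58) n5290 (.fin (nat_lit 407285909) (nat_lit 0)))))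
def n6582 : Nd := .arc (nat_lit 9) n6572 (.arc (nat_lit 64) n5352 (.arc (nat_lit 67) n5354 (.arc (nat_lit 70) n5353 (.fin (nat_lit 337014933) (nat_lit 0)))))
def n6583 : Nd := .arc (nat_lit 3) n6581 (.arc (nat_lit 9) n6582 (.fin (nat_lit 606490773) (nat_lit 0)))
def n6584 : Nd := .arc (nat_lit 3) n6576 (.arc (nat_lit 6) n6580 (.arc (nat_lit 9) n6583 (.fin (nat_lit 672010389) (nat_lit 0))))
def n6585 : Nd := .arc (nat_lit 6) n6575 (.arc (nat_lit 9) n6573 (.fin (nat_lit 672018581) (nat_lit 0)))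
def n6586 : Nd := .arc (nat_lit 38) n5291 (.arc (nat_lit 41) n5287 (.arc (nat_lit 44) n5281 (.arc (nat_lit 47) n5272 (.arc (nat_lit 50) n5355 (.arc (nat_lit 53) n5351 (.arc (nat_lit 56) n5336 (.arc (nat_lit 59) n5345 (.arc (nat_lit 62) n5323 (.arc (nat_lit 65) n5319 (.arc (nat_lit 68) n5304 (.arc (nat_lit 71) n5313 (.fin (nat_lit 672067733) (nat_lit 0)))))))))))))
def n6587 : Nd := .arc (nat_lit 9) n6586 (.fin (nat_lit 407269525) (nat_lit 0))
def n6588 : Nd := .arc (nat_lit 6) n6572 (.arc (nat_lit 52) n5352 (.arc (nat_lit 55) n5353 (.arc (nat_lit 58) n5354 (.fin (nat_lit 672051349) (nat_lit 0)))))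
def n6589 : Nd := .arc (nat_lit 3) n6587 (.arc (nat_lit 6) n6588 (.fin (nat_lit 606507157) (nat_lit 0)))
def n6590 : Nd := .arc (nat_lit 6) n6586 (.fin (nat_lit 606515349) (nat_lit 0))
def n6591 : Nd := .arc (nat_lit 9) n6574 (.arc (nat_lit 64) n5320 (.arc (nat_lit 67) n5322 (.arc (nat_lit 70) n5321 (.fin (nat_lit 672034965) (nat_lit 0)))))
def n6592 : Nd := .arc (nat_lit 3) n6590 (.arc (nat_lit 9) n6591 (.fin (nat_lit 407261333) (nat_lit 0)))
def n6593 : Nd := .arc (nat_lit 3) n6585 (.arc (nat_lit 6) n6589 (.arc (nat_lit 9) n6592 (.fin (nat_lit 336990357) (nat_lit 0))))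
def n6594 : Nd := .arc (nat_lit 3) n6577 (.arc (nat_lit 40) n5288 (.arc (nat_lit 43) n5289 (.arc (nat_lit 46) n5290 (.fin (nat_lit 672059541) (nat_lit 0)))))
def n6595 : Nd := .arc (nat_lit 3) n6586 (.fin (nat_lit 337039509) (nat_lit 0))
def n6596 : Nd := .arc (nat_lit 6) n6594 (.arc (nat_lit 9) n6595 (.fin (nat_lit 606482581) (nat_lit 0)))
def n6597 : Nd := .arc (nat_lit 3) n6591 (.arc (nat_lit 6) n6590 (.fin (nat_lit 337023125) (nat_lit 0)))
def n6598 : Nd := .arc (nat_lit 3) n6579 (.arc (nat_lit 9) n6578 (.fin (nat_lit 672026773) (nat_lit 0)))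
def n6599 : Nd := .arc (nat_lit 3) n6596 (.arc (nat_lit 6) n6597 (.arc (nat_lit 9) n6598 (.fin (nat_lit 407244949) (nat_lit 0))))
def n6600 : Nd := .arc (nat_lit 6) n6595 (.arc (nat_lit 9) n6594 (.fin (nat_lit 407253141) (nat_lit 0)))
def n6601 : Nd := .arc (nat_lit 3) n6582 (.arc (nat_lit 6) n6581 (.fin (nat_lit 672043157) (nat_lit 0)))
def n6602 : Nd := .arc (nat_lit 3) n6588 (.arc (nat_lit 9) n6587 (.fin (nat_lit 337006741) (nat_lit 0)))
def n6603 : Nd := .arc (nat_lit 3) n6600 (.arc (nat_lit 6) n6601 (.arc (nat_lit 9) n6602 (.fin (nat_lit 606474389) (nat_lit 0))))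
def n6604 : Nd := .arc (nat_lit 14) n6232 (.arc (nat_lit 17) n6241 (.arc (nat_lit 20) n6247 (.arc (nat_lit 23) n6251 (.arc (nat_lit 26) n6424 (.arc (nat_lit 29) n6433 (.arc (nat_lit 32) n6439 (.arc (nat_lit 35) n6443 (.arc (nat_lit 38) n6552 (.arc (nat_lit 41) n6561 (.arc (nat_lit 44) n6567 (.arc (nat_lit 47) n6571 (.arc (nat_lit 50) n6584 (.arc (nat_lit 53) n6593 (.arc (nat_lit 56) n6599 (.arc (nat_lit 59) n6603 (.fin (nat_lit 172159133) (nat_lit 0)))))))))))))))))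
def n6605 : Nd := .arc (nat_lit 3) n6604 (.arc (nat_lit 40) n6416 (.arc (nat_lit 43) n6420 (.arc (nat_lit 46) n6423 (.fin (nat_lit 102944923) (nat_lit 0)))))
def n6606 : Nd := .arc (nat_lit 14) n6241 (.arc (nat_lit 17) n6232 (.arc (nat_lit 20) n6251 (.arc (nat_lit 23) n6247 (.arc (nat_lit 26) n6552 (.arc (nat_lit 29) n6561 (.arc (nat_lit 32) n6571 (.arc (nat_lit 35) n6567 (.arc (nat_lit 38) n6424 (.arc (nat_lit 41) n6433 (.arc (nat_lit 44) n6443 (.arc (nat_lit 47) n6439 (.arc (nat_lit 62) n6584 (.arc (nat_lit 65) n6593 (.arc (nat_lit 68) n6603 (.arc (nat_lit 71) n6599 (.fin (nat_lit 102953115) (nat_lit 0)))))))))))))))))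
def n6607 : Nd := .arc (nat_lit 3) n6606 (.arc (nat_lit 40) n6544 (.arc (nat_lit 43) n6548 (.arc (nat_lit 46) n6551 (.fin (nat_lit 172150941) (nat_lit 0)))))
def n6608 : Nd := .arc (nat_lit 6) n6605 (.arc (nat_lit 9) n6607 (.fin (nat_lit 303181977) (nat_lit 0)))
def n6609 : Nd := .arc (nat_lit 14) n6247 (.arc (nat_lit 17) n6251 (.arc (nat_lit 20) n6241 (.arc (nat_lit 23) n6232 (.arc (nat_lit 26) n6584 (.arc (nat_lit 29) n6593 (.arc (nat_lit 32) n6603 (.arc (nat_lit 35) n6599 (.arc (nat_lit 50) n6552 (.arc (nat_lit 53) n6561 (.arc (nat_lit 56) n6567 (.arc (nat_lit 59) n6571 (.arc (nat_lit 62) n6424 (.arc (nat_lit 65) n6433 (.arc (nat_lit 68) n6439 (.arc (nat_lit 71) n6443 (.fin (nat_lit 303231129) (nat_lit 0)))))))))))))))))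
def n6610 : Nd := .arc (nat_lit 9) n6609 (.arc (nat_lit 64) n6576 (.arc (nat_lit 67) n6583 (.arc (nat_lit 70) n6580 (.fin (nat_lit 102920347) (nat_lit 0)))))
def n6611 : Nd := .arc (nat_lit 6) n6606 (.arc (nat_lit 52) n6544 (.arc (nat_lit 55) n6548 (.arc (nat_lit 58) n6551 (.fin (nat_lit 303214745) (nat_lit 0)))))
def n6612 : Nd := .arc (nat_lit 3) n6610 (.arc (nat_lit 6) n6611 (.fin (nat_lit 172134557) (nat_lit 0)))
def n6613 : Nd := .arc (nat_lit 6) n6609 (.arc (nat_lit 52) n6576 (.arc (nat_lit 55) n6580 (.arc (nat_lit 58) n6583 (.fin (nat_lit 172142749) (nat_lit 0)))))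
def n6614 : Nd := .arc (nat_lit 9) n6604 (.arc (nat_lit 64) n6416 (.arc (nat_lit 67) n6423 (.arc (nat_lit 70) n6420 (.fin (nat_lit 303198361) (nat_lit 0)))))
def n6615 : Nd := .arc (nat_lit 3) n6613 (.arc (nat_lit 9) n6614 (.fin (nat_lit 102912155) (nat_lit 0)))
def n6616 : Nd := .arc (nat_lit 3) n6608 (.arc (nat_lit 6) n6612 (.arc (nat_lit 9) n6615 (.fin (nat_lit 571084951) (nat_lit 0))))
def n6617 : Nd := .arc (nat_lit 6) n6607 (.arc (nat_lit 9) n6605 (.fin (nat_lit 571093143) (nat_lit 0)))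
def n6618 : Nd := .arc (nat_lit 14) n6251 (.arc (nat_lit 17) n6247 (.arc (nat_lit 20) n6232 (.arc (nat_lit 23) n6241 (.arc (nat_lit 38) n6584 (.arc (nat_lit 41) n6593 (.arc (nat_lit 44) n6599 (.arc (nat_lit 47) n6603 (.arc (nat_lit 50) n6424 (.arc (nat_lit 53) n6433 (.arc (nat_lit 56) n6443 (.arc (nat_lit 59) n6439 (.arc (nat_lit 62) n6552 (.arc (nat_lit 65) n6561 (.arc (nat_lit 68) n6571 (.arc (nat_lit 71) n6567 (.fin (nat_lit 571142295) (nat_lit 0)))))))))))))))))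
def n6619 : Nd := .arc (nat_lit 9) n6618 (.fin (nat_lit 172126365) (nat_lit 0))
def n6620 : Nd := .arc (nat_lit 6) n6604 (.arc (nat_lit 52) n6416 (.arc (nat_lit 55) n6420 (.arc (nat_lit 58) n6423 (.fin (nat_lit 571125911) (nat_lit 0)))))
def n6621 : Nd := .arc (nat_lit 3) n6619 (.arc (nat_lit 6) n6620 (.fin (nat_lit 102928539) (nat_lit 0)))
def n6622 : Nd := .arc (nat_lit 6) n6618 (.fin (nat_lit 102936731) (nat_lit 0))
def n6623 : Nd := .arc (nat_lit 9) n6606 (.arc (nat_lit 64) n6544 (.arc (nat_lit 67) n6551 (.arc (nat_lit 70) n6548 (.fin (nat_lit 571109527) (nat_lit 0)))))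
def n6624 : Nd := .arc (nat_lit 3) n6622 (.arc (nat_lit 9) n6623 (.fin (nat_lit 172118173) (nat_lit 0)))
def n6625 : Nd := .arc (nat_lit 3) n6617 (.arc (nat_lit 6) n6621 (.arc (nat_lit 9) n6624 (.fin (nat_lit 303173785) (nat_lit 0))))
def n6626 : Nd := .arc (nat_lit 3) n6609 (.arc (nat_lit 40) n6576 (.arc (nat_lit 43) n6580 (.arc (nat_lit 46) n6583 (.fin (nat_lit 571134103) (nat_lit 0)))))
def n6627 : Nd := .arc (nat_lit 3) n6618 (.fin (nat_lit 303222937) (nat_lit 0))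
def n6628 : Nd := .arc (nat_lit 6) n6626 (.arc (nat_lit 9) n6627 (.fin (nat_lit 102903963) (nat_lit 0)))
def n6629 : Nd := .arc (nat_lit 3) n6623 (.arc (nat_lit 6) n6622 (.fin (nat_lit 303206553) (nat_lit 0)))
def n6630 : Nd := .arc (nat_lit 3) n6611 (.arc (nat_lit 9) n6610 (.fin (nat_lit 571101335) (nat_lit 0)))
def n6631 : Nd := .arc (nat_lit 3) n6628 (.arc (nat_lit 6) n6629 (.arc (nat_lit 9) n6630 (.fin (nat_lit 172101789) (nat_lit 0))))
def n6632 : Nd := .arc (nat_lit 6) n6627 (.arc (nat_lit 9) n6626 (.fin (nat_lit 172109981) (nat_lit 0)))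
def n6633 : Nd := .arc (nat_lit 3) n6614 (.arc (nat_lit 6) n6613 (.fin (nat_lit 571117719) (nat_lit 0)))
def n6634 : Nd := .arc (nat_lit 3) n6620 (.arc (nat_lit 9) n6619 (.fin (nat_lit 303190169) (nat_lit 0)))
def n6635 : Nd := .arc (nat_lit 3) n6632 (.arc (nat_lit 6) n6633 (.arc (nat_lit 9) n6634 (.fin (nat_lit 102895771) (nat_lit 0))))
def n6636 : Nd := .arc (nat_lit 26) n4551 (.arc (nat_lit 29) n4555 (.arc (nat_lit 32) n4536 (.arc (nat_lit 35) n4545 (.arc (nat_lit 38) n4615 (.arc (nat_lit 41) n4619 (.arc (nat_lit 44) n4600 (.arc (nat_lit 47) n4609 (.fin (nat_lit 677834901) (nat_lit 0)))))))))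
def n6637 : Nd := .arc (nat_lit 3) n6636 (.arc (nat_lit 40) n4548 (.arc (nat_lit 43) n4549 (.arc (nat_lit 46) n4550 (.fin (nat_lit 342282389) (nat_lit 0)))))
def n6638 : Nd := .arc (nat_lit 26) n4615 (.arc (nat_lit 29) n4619 (.arc (nat_lit 32) n4609 (.arc (nat_lit 35) n4600 (.arc (nat_lit 38) n4551 (.arc (nat_lit 41) n4555 (.arc (nat_lit 44) n4545 (.arc (nat_lit 47) n4536 (.fin (nat_lit 342290581) (nat_lit 0)))))))))
def n6639 : Nd := .arc (nat_lit 3) n6638 (.arc (nat_lit 40) n4612 (.arc (nat_lit 43) n4613 (.arc (nat_lit 46) n4614 (.fin (nat_lit 677826709) (nat_lit 0)))))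
def n6640 : Nd := .arc (nat_lit 6) n6637 (.arc (nat_lit 9) n6639 (.fin (nat_lit 404631701) (nat_lit 0)))
def n6641 : Nd := .arc (nat_lit 50) n4615 (.arc (nat_lit 53) n4619 (.arc (nat_lit 56) n4600 (.arc (nat_lit 59) n4609 (.arc (nat_lit 62) n4551 (.arc (nat_lit 65) n4555 (.arc (nat_lit 68) n4536 (.arc (nat_lit 71) n4545 (.fin (nat_lit 404680853) (nat_lit 0)))))))))
def n6642 : Nd := .arc (nat_lit 9) n6641 (.fin (nat_lit 342257813) (nat_lit 0))
def n6643 : Nd := .arc (nat_lit 6) n6638 (.arc (nat_lit 52) n4612 (.arc (nat_lit 55) n4613 (.arc (nat_lit 58) n4614 (.fin (nat_lit 404664469) (nat_lit 0)))))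
def n6644 : Nd := .arc (nat_lit 3) n6642 (.arc (nat_lit 6) n6643 (.fin (nat_lit 677810325) (nat_lit 0)))
def n6645 : Nd := .arc (nat_lit 6) n6641 (.fin (nat_lit 677818517) (nat_lit 0))
def n6646 : Nd := .arc (nat_lit 9) n6636 (.arc (nat_lit 64) n4548 (.arc (nat_lit 67) n4550 (.arc (nat_lit 70) n4549 (.fin (nat_lit 404648085) (nat_lit 0)))))
def n6647 : Nd := .arc (nat_lit 3) n6645 (.arc (nat_lit 9) n6646 (.fin (nat_lit 342249621) (nat_lit 0)))
def n6648 : Nd := .arc (nat_lit 3) n6640 (.arc (nat_lit 6) n6644 (.arc (nat_lit 9) n6647 (.fin (nat_lit 605950101) (nat_lit 0))))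
def n6649 : Nd := .arc (nat_lit 6) n6639 (.arc (nat_lit 9) n6637 (.fin (nat_lit 605958293) (nat_lit 0)))
def n6650 : Nd := .arc (nat_lit 50) n4551 (.arc (nat_lit 53) n4555 (.arc (nat_lit 56) n4545 (.arc (nat_lit 59) n4536 (.arc (nat_lit 62) n4615 (.arc (nat_lit 65) n4619 (.arc (nat_lit 68) n4609 (.arc (nat_lit 71) n4600 (.fin (nat_lit 606007445) (nat_lit 0)))))))))
def n6651 : Nd := .arc (nat_lit 9) n6650 (.fin (nat_lit 677802133) (nat_lit 0))
def n6652 : Nd := .arc (nat_lit 6) n6636 (.arc (nat_lit 52) n4548 (.arc (nat_lit 55) n4549 (.arc (nat_lit 58) n4550 (.fin (nat_lit 605991061) (nat_lit 0)))))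
def n6653 : Nd := .arc (nat_lit 3) n6651 (.arc (nat_lit 6) n6652 (.fin (nat_lit 342266005) (nat_lit 0)))
def n6654 : Nd := .arc (nat_lit 6) n6650 (.fin (nat_lit 342274197) (nat_lit 0))
def n6655 : Nd := .arc (nat_lit 9) n6638 (.arc (nat_lit 64) n4612 (.arc (nat_lit 67) n4614 (.arc (nat_lit 70) n4613 (.fin (nat_lit 605974677) (nat_lit 0)))))
def n6656 : Nd := .arc (nat_lit 3) n6654 (.arc (nat_lit 9) n6655 (.fin (nat_lit 677793941) (nat_lit 0)))
def n6657 : Nd := .arc (nat_lit 3) n6649 (.arc (nat_lit 6) n6653 (.arc (nat_lit 9) n6656 (.fin (nat_lit 404623509) (nat_lit 0))))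
def n6658 : Nd := .arc (nat_lit 3) n6641 (.fin (nat_lit 605999253) (nat_lit 0))
def n6659 : Nd := .arc (nat_lit 3) n6650 (.fin (nat_lit 404672661) (nat_lit 0))
def n6660 : Nd := .arc (nat_lit 6) n6658 (.arc (nat_lit 9) n6659 (.fin (nat_lit 342241429) (nat_lit 0)))
def n6661 : Nd := .arc (nat_lit 3) n6655 (.arc (nat_lit 6) n6654 (.fin (nat_lit 404656277) (nat_lit 0)))
def n6662 : Nd := .arc (nat_lit 3) n6643 (.arc (nat_lit 9) n6642 (.fin (nat_lit 605966485) (nat_lit 0)))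
def n6663 : Nd := .arc (nat_lit 3) n6660 (.arc (nat_lit 6) n6661 (.arc (nat_lit 9) n6662 (.fin (nat_lit 677777557) (nat_lit 0))))
def n6664 : Nd := .arc (nat_lit 6) n6659 (.arc (nat_lit 9) n6658 (.fin (nat_lit 677785749) (nat_lit 0)))
def n6665 : Nd := .arc (nat_lit 3) n6646 (.arc (nat_lit 6) n6645 (.fin (nat_lit 605982869) (nat_lit 0)))
def n6666 : Nd := .arc (nat_lit 3) n6652 (.arc (nat_lit 9) n6651 (.fin (nat_lit 404639893) (nat_lit 0)))
def n6667 : Nd := .arc (nat_lit 3) n6664 (.arc (nat_lit 6) n6665 (.arc (nat_lit 9) n6666 (.fin (nat_lit 342233237) (nat_lit 0))))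
def n6668 : Nd := .arc (nat_lit 14) n6283 (.arc (nat_lit 17) n6279 (.arc (nat_lit 20) n6273 (.arc (nat_lit 23) n6264 (.arc (nat_lit 38) n6311 (.arc (nat_lit 41) n6315 (.arc (nat_lit 44) n6305 (.arc (nat_lit 47) n6296 (.fin (nat_lit 577433751) (nat_lit 0)))))))))
def n6669 : Nd := .arc (nat_lit 3) n6668 (.fin (nat_lit 309514393) (nat_lit 0))
def n6670 : Nd := .arc (nat_lit 14) n6279 (.arc (nat_lit 17) n6283 (.arc (nat_lit 20) n6264 (.arc (nat_lit 23) n6273 (.arc (nat_lit 26) n6311 (.arc (nat_lit 29) n6315 (.arc (nat_lit 32) n6296 (.arc (nat_lit 35) n6305 (.fin (nat_lit 309522585) (nat_lit 0)))))))))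
def n6671 : Nd := .arc (nat_lit 3) n6670 (.arc (nat_lit 40) n6308 (.arc (nat_lit 43) n6309 (.arc (nat_lit 46) n6310 (.fin (nat_lit 577425559) (nat_lit 0)))))
def n6672 : Nd := .arc (nat_lit 6) n6669 (.arc (nat_lit 9) n6671 (.fin (nat_lit 173682845) (nat_lit 0)))
def n6673 : Nd := .arc (nat_lit 14) n6273 (.arc (nat_lit 17) n6264 (.arc (nat_lit 20) n6279 (.arc (nat_lit 23) n6283 (.arc (nat_lit 50) n6311 (.arc (nat_lit 53) n6315 (.arc (nat_lit 56) n6305 (.arc (nat_lit 59) n6296 (.fin (nat_lit 173731997) (nat_lit 0)))))))))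
def n6674 : Nd := .arc (nat_lit 9) n6673 (.fin (nat_lit 309489817) (nat_lit 0))
def n6675 : Nd := .arc (nat_lit 6) n6670 (.arc (nat_lit 52) n6308 (.arc (nat_lit 55) n6309 (.arc (nat_lit 58) n6310 (.fin (nat_lit 173715613) (nat_lit 0)))))
def n6676 : Nd := .arc (nat_lit 3) n6674 (.arc (nat_lit 6) n6675 (.fin (nat_lit 577409175) (nat_lit 0)))
def n6677 : Nd := .arc (nat_lit 6) n6673 (.fin (nat_lit 577417367) (nat_lit 0))
def n6678 : Nd := .arc (nat_lit 9) n6668 (.fin (nat_lit 173699229) (nat_lit 0))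
def n6679 : Nd := .arc (nat_lit 3) n6677 (.arc (nat_lit 9) n6678 (.fin (nat_lit 309481625) (nat_lit 0)))
def n6680 : Nd := .arc (nat_lit 3) n6672 (.arc (nat_lit 6) n6676 (.arc (nat_lit 9) n6679 (.fin (nat_lit 104468635) (nat_lit 0))))
def n6681 : Nd := .arc (nat_lit 6) n6671 (.arc (nat_lit 9) n6669 (.fin (nat_lit 104476827) (nat_lit 0)))
def n6682 : Nd := .arc (nat_lit 14) n6264 (.arc (nat_lit 17) n6273 (.arc (nat_lit 20) n6283 (.arc (nat_lit 23) n6279 (.arc (nat_lit 62) n6311 (.arc (nat_lit 65) n6315 (.arc (nat_lit 68) n6296 (.arc (nat_lit 71) n6305 (.fin (nat_lit 104525979) (nat_lit 0)))))))))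
def n6683 : Nd := .arc (nat_lit 9) n6682 (.fin (nat_lit 577400983) (nat_lit 0))
def n6684 : Nd := .arc (nat_lit 6) n6668 (.fin (nat_lit 104509595) (nat_lit 0))
def n6685 : Nd := .arc (nat_lit 3) n6683 (.arc (nat_lit 6) n6684 (.fin (nat_lit 309498009) (nat_lit 0)))
def n6686 : Nd := .arc (nat_lit 6) n6682 (.fin (nat_lit 309506201) (nat_lit 0))
def n6687 : Nd := .arc (nat_lit 9) n6670 (.arc (nat_lit 64) n6308 (.arc (nat_lit 67) n6310 (.arc (nat_lit 70) n6309 (.fin (nat_lit 104493211) (nat_lit 0)))))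
def n6688 : Nd := .arc (nat_lit 3) n6686 (.arc (nat_lit 9) n6687 (.fin (nat_lit 577392791) (nat_lit 0)))
def n6689 : Nd := .arc (nat_lit 3) n6681 (.arc (nat_lit 6) n6685 (.arc (nat_lit 9) n6688 (.fin (nat_lit 173674653) (nat_lit 0))))
def n6690 : Nd := .arc (nat_lit 3) n6673 (.fin (nat_lit 104517787) (nat_lit 0))
def n6691 : Nd := .arc (nat_lit 3) n6682 (.fin (nat_lit 173723805) (nat_lit 0))
def n6692 : Nd := .arc (nat_lit 6) n6690 (.arc (nat_lit 9) n6691 (.fin (nat_lit 309473433) (nat_lit 0)))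
def n6693 : Nd := .arc (nat_lit 3) n6687 (.arc (nat_lit 6) n6686 (.fin (nat_lit 173707421) (nat_lit 0)))
def n6694 : Nd := .arc (nat_lit 3) n6675 (.arc (nat_lit 9) n6674 (.fin (nat_lit 104485019) (nat_lit 0)))
def n6695 : Nd := .arc (nat_lit 3) n6692 (.arc (nat_lit 6) n6693 (.arc (nat_lit 9) n6694 (.fin (nat_lit 577376407) (nat_lit 0))))
def n6696 : Nd := .arc (nat_lit 6) n6691 (.arc (nat_lit 9) n6690 (.fin (nat_lit 577384599) (nat_lit 0)))
def n6697 : Nd := .arc (nat_lit 3) n6678 (.arc (nat_lit 6) n6677 (.fin (nat_lit 104501403) (nat_lit 0)))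
def n6698 : Nd := .arc (nat_lit 3) n6684 (.arc (nat_lit 9) n6683 (.fin (nat_lit 173691037) (nat_lit 0)))
def n6699 : Nd := .arc (nat_lit 3) n6696 (.arc (nat_lit 6) n6697 (.arc (nat_lit 9) n6698 (.fin (nat_lit 309465241) (nat_lit 0))))
def n6700 : Nd := .arc (nat_lit 14) n5863 (.arc (nat_lit 17) n5867 (.arc (nat_lit 20) n5848 (.arc (nat_lit 23) n5857 (.arc (nat_lit 26) n5895 (.arc (nat_lit 29) n5899 (.arc (nat_lit 32) n5880 (.arc (nat_lit 35) n5889 (.fin (nat_lit 561180825) (nat_lit 0)))))))))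
def n6701 : Nd := .arc (nat_lit 3) n6700 (.arc (nat_lit 40) n5892 (.arc (nat_lit 43) n5893 (.arc (nat_lit 46) n5894 (.fin (nat_lit 292212887) (nat_lit 0)))))
def n6702 : Nd := .arc (nat_lit 14) n5867 (.arc (nat_lit 17) n5863 (.arc (nat_lit 20) n5857 (.arc (nat_lit 23) n5848 (.arc (nat_lit 38) n5895 (.arc (nat_lit 41) n5899 (.arc (nat_lit 44) n5889 (.arc (nat_lit 47) n5880 (.fin (nat_lit 292221079) (nat_lit 0)))))))))
def n6703 : Nd := .arc (nat_lit 3) n6702 (.fin (nat_lit 561172633) (nat_lit 0))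
def n6704 : Nd := .arc (nat_lit 6) n6701 (.arc (nat_lit 9) n6703 (.fin (nat_lit 154808475) (nat_lit 0)))
def n6705 : Nd := .arc (nat_lit 14) n5848 (.arc (nat_lit 17) n5857 (.arc (nat_lit 20) n5867 (.arc (nat_lit 23) n5863 (.arc (nat_lit 62) n5895 (.arc (nat_lit 65) n5899 (.arc (nat_lit 68) n5880 (.arc (nat_lit 71) n5889 (.fin (nat_lit 154857627) (nat_lit 0)))))))))
def n6706 : Nd := .arc (nat_lit 9) n6705 (.fin (nat_lit 292188311) (nat_lit 0))
def n6707 : Nd := .arc (nat_lit 6) n6702 (.fin (nat_lit 154841243) (nat_lit 0))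
def n6708 : Nd := .arc (nat_lit 3) n6706 (.arc (nat_lit 6) n6707 (.fin (nat_lit 561156249) (nat_lit 0)))
def n6709 : Nd := .arc (nat_lit 6) n6705 (.fin (nat_lit 561164441) (nat_lit 0))
def n6710 : Nd := .arc (nat_lit 9) n6700 (.arc (nat_lit 64) n5892 (.arc (nat_lit 67) n5894 (.arc (nat_lit 70) n5893 (.fin (nat_lit 154824859) (nat_lit 0)))))
def n6711 : Nd := .arc (nat_lit 3) n6709 (.arc (nat_lit 9) n6710 (.fin (nat_lit 292180119) (nat_lit 0)))
def n6712 : Nd := .arc (nat_lit 3) n6704 (.arc (nat_lit 6) n6708 (.arc (nat_lit 9) n6711 (.fin (nat_lit 89788573) (nat_lit 0))))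
def n6713 : Nd := .arc (nat_lit 6) n6703 (.arc (nat_lit 9) n6701 (.fin (nat_lit 89796765) (nat_lit 0)))
def n6714 : Nd := .arc (nat_lit 14) n5857 (.arc (nat_lit 17) n5848 (.arc (nat_lit 20) n5863 (.arc (nat_lit 23) n5867 (.arc (nat_lit 50) n5895 (.arc (nat_lit 53) n5899 (.arc (nat_lit 56) n5889 (.arc (nat_lit 59) n5880 (.fin (nat_lit 89845917) (nat_lit 0)))))))))
def n6715 : Nd := .arc (nat_lit 9) n6714 (.fin (nat_lit 561148057) (nat_lit 0))
def n6716 : Nd := .arc (nat_lit 6) n6700 (.arc (nat_lit 52) n5892 (.arc (nat_lit 55) n5893 (.arc (nat_lit 58) n5894 (.fin (nat_lit 89829533) (nat_lit 0)))))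
def n6717 : Nd := .arc (nat_lit 3) n6715 (.arc (nat_lit 6) n6716 (.fin (nat_lit 292196503) (nat_lit 0)))
def n6718 : Nd := .arc (nat_lit 6) n6714 (.fin (nat_lit 292204695) (nat_lit 0))
def n6719 : Nd := .arc (nat_lit 9) n6702 (.fin (nat_lit 89813149) (nat_lit 0))
def n6720 : Nd := .arc (nat_lit 3) n6718 (.arc (nat_lit 9) n6719 (.fin (nat_lit 561139865) (nat_lit 0)))
def n6721 : Nd := .arc (nat_lit 3) n6713 (.arc (nat_lit 6) n6717 (.arc (nat_lit 9) n6720 (.fin (nat_lit 154800283) (nat_lit 0))))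
def n6722 : Nd := .arc (nat_lit 3) n6714 (.fin (nat_lit 154849435) (nat_lit 0))
def n6723 : Nd := .arc (nat_lit 3) n6705 (.fin (nat_lit 89837725) (nat_lit 0))
def n6724 : Nd := .arc (nat_lit 6) n6722 (.arc (nat_lit 9) n6723 (.fin (nat_lit 561131673) (nat_lit 0)))
def n6725 : Nd := .arc (nat_lit 3) n6710 (.arc (nat_lit 6) n6709 (.fin (nat_lit 89821341) (nat_lit 0)))
def n6726 : Nd := .arc (nat_lit 3) n6716 (.arc (nat_lit 9) n6715 (.fin (nat_lit 154816667) (nat_lit 0)))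
def n6727 : Nd := .arc (nat_lit 3) n6724 (.arc (nat_lit 6) n6725 (.arc (nat_lit 9) n6726 (.fin (nat_lit 292163735) (nat_lit 0))))
def n6728 : Nd := .arc (nat_lit 6) n6723 (.arc (nat_lit 9) n6722 (.fin (nat_lit 292171927) (nat_lit 0)))
def n6729 : Nd := .arc (nat_lit 3) n6719 (.arc (nat_lit 6) n6718 (.fin (nat_lit 154833051) (nat_lit 0)))
def n6730 : Nd := .arc (nat_lit 3) n6707 (.arc (nat_lit 9) n6706 (.fin (nat_lit 89804957) (nat_lit 0)))
def n6731 : Nd := .arc (nat_lit 3) n6728 (.arc (nat_lit 6) n6729 (.arc (nat_lit 9) n6730 (.fin (nat_lit 561123481) (nat_lit 0))))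
def n6732 : Nd := .arc (nat_lit 38) n6648 (.arc (nat_lit 41) n6657 (.arc (nat_lit 44) n6663 (.arc (nat_lit 47) n6667 (.arc (nat_lit 50) n6680 (.arc (nat_lit 53) n6689 (.arc (nat_lit 56) n6695 (.arc (nat_lit 59) n6699 (.arc (nat_lit 62) n6712 (.arc (nat_lit 65) n6721 (.arc (nat_lit 68) n6727 (.arc (nat_lit 71) n6731 (.fin (nat_lit 554627223) (nat_lit 0)))))))))))))
def n6733 : Nd := .arc (nat_lit 3) n6732 (.fin (nat_lit 286707865) (nat_lit 0))
def n6734 : Nd := .arc (nat_lit 26) n6648 (.arc (nat_lit 29) n6657 (.arc (nat_lit 32) n6667 (.arc (nat_lit 35) n6663 (.arc (nat_lit 50) n6712 (.arc (nat_lit 53) n6721 (.arc (nat_lit 56) n6731 (.arc (nat_lit 59) n6727 (.arc (nat_lit 62) n6680 (.arc (nat_lit 65) n6689 (.arc (nat_lit 68) n6699 (.arc (nat_lit 71) n6695 (.fin (nat_lit 286716057) (nat_lit 0)))))))))))))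
def n6735 : Nd := .arc (nat_lit 3) n6734 (.arc (nat_lit 40) n6640 (.arc (nat_lit 43) n6644 (.arc (nat_lit 46) n6647 (.fin (nat_lit 554619031) (nat_lit 0)))))
def n6736 : Nd := .arc (nat_lit 6) n6733 (.arc (nat_lit 9) n6735 (.fin (nat_lit 155594909) (nat_lit 0)))
def n6737 : Nd := .arc (nat_lit 26) n6680 (.arc (nat_lit 29) n6689 (.arc (nat_lit 32) n6699 (.arc (nat_lit 35) n6695 (.arc (nat_lit 38) n6712 (.arc (nat_lit 41) n6721 (.arc (nat_lit 44) n6731 (.arc (nat_lit 47) n6727 (.arc (nat_lit 50) n6648 (.arc (nat_lit 53) n6657 (.arc (nat_lit 56) n6663 (.arc (nat_lit 59) n6667 (.fin (nat_lit 155644061) (nat_lit 0)))))))))))))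
def n6738 : Nd := .arc (nat_lit 9) n6737 (.arc (nat_lit 64) n6672 (.arc (nat_lit 67) n6679 (.arc (nat_lit 70) n6676 (.fin (nat_lit 286683289) (nat_lit 0)))))
def n6739 : Nd := .arc (nat_lit 6) n6734 (.arc (nat_lit 52) n6640 (.arc (nat_lit 55) n6644 (.arc (nat_lit 58) n6647 (.fin (nat_lit 155627677) (nat_lit 0)))))
def n6740 : Nd := .arc (nat_lit 3) n6738 (.arc (nat_lit 6) n6739 (.fin (nat_lit 554602647) (nat_lit 0)))
def n6741 : Nd := .arc (nat_lit 6) n6737 (.arc (nat_lit 52) n6672 (.arc (nat_lit 55) n6676 (.arc (nat_lit 58) n6679 (.fin (nat_lit 554610839) (nat_lit 0)))))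
def n6742 : Nd := .arc (nat_lit 9) n6732 (.fin (nat_lit 155611293) (nat_lit 0))
def n6743 : Nd := .arc (nat_lit 3) n6741 (.arc (nat_lit 9) n6742 (.fin (nat_lit 286675097) (nat_lit 0)))
def n6744 : Nd := .arc (nat_lit 3) n6736 (.arc (nat_lit 6) n6740 (.arc (nat_lit 9) n6743 (.fin (nat_lit 86380699) (nat_lit 0))))
def n6745 : Nd := .arc (nat_lit 6) n6735 (.arc (nat_lit 9) n6733 (.fin (nat_lit 86388891) (nat_lit 0)))
def n6746 : Nd := .arc (nat_lit 26) n6712 (.arc (nat_lit 29) n6721 (.arc (nat_lit 32) n6727 (.arc (nat_lit 35) n6731 (.arc (nat_lit 38) n6680 (.arc (nat_lit 41) n6689 (.arc (nat_lit 44) n6695 (.arc (nat_lit 47) n6699 (.arc (nat_lit 62) n6648 (.arc (nat_lit 65) n6657 (.arc (nat_lit 68) n6667 (.arc (nat_lit 71) n6663 (.fin (nat_lit 86438043) (nat_lit 0)))))))))))))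
def n6747 : Nd := .arc (nat_lit 9) n6746 (.arc (nat_lit 64) n6704 (.arc (nat_lit 67) n6711 (.arc (nat_lit 70) n6708 (.fin (nat_lit 554594455) (nat_lit 0)))))
def n6748 : Nd := .arc (nat_lit 6) n6732 (.fin (nat_lit 86421659) (nat_lit 0))
def n6749 : Nd := .arc (nat_lit 3) n6747 (.arc (nat_lit 6) n6748 (.fin (nat_lit 286691481) (nat_lit 0)))
def n6750 : Nd := .arc (nat_lit 6) n6746 (.arc (nat_lit 52) n6704 (.arc (nat_lit 55) n6708 (.arc (nat_lit 58) n6711 (.fin (nat_lit 286699673) (nat_lit 0)))))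
def n6751 : Nd := .arc (nat_lit 9) n6734 (.arc (nat_lit 64) n6640 (.arc (nat_lit 67) n6647 (.arc (nat_lit 70) n6644 (.fin (nat_lit 86405275) (nat_lit 0)))))
def n6752 : Nd := .arc (nat_lit 3) n6750 (.arc (nat_lit 9) n6751 (.fin (nat_lit 554586263) (nat_lit 0)))
def n6753 : Nd := .arc (nat_lit 3) n6745 (.arc (nat_lit 6) n6749 (.arc (nat_lit 9) n6752 (.fin (nat_lit 155586717) (nat_lit 0))))
def n6754 : Nd := .arc (nat_lit 3) n6746 (.arc (nat_lit 40) n6704 (.arc (nat_lit 43) n6708 (.arc (nat_lit 46) n6711 (.fin (nat_lit 155635869) (nat_lit 0)))))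
def n6755 : Nd := .arc (nat_lit 3) n6737 (.arc (nat_lit 40) n6672 (.arc (nat_lit 43) n6676 (.arc (nat_lit 46) n6679 (.fin (nat_lit 86429851) (nat_lit 0)))))
def n6756 : Nd := .arc (nat_lit 6) n6754 (.arc (nat_lit 9) n6755 (.fin (nat_lit 554578071) (nat_lit 0)))
def n6757 : Nd := .arc (nat_lit 3) n6742 (.arc (nat_lit 6) n6741 (.fin (nat_lit 86413467) (nat_lit 0)))
def n6758 : Nd := .arc (nat_lit 3) n6748 (.arc (nat_lit 9) n6747 (.fin (nat_lit 155603101) (nat_lit 0)))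
def n6759 : Nd := .arc (nat_lit 3) n6756 (.arc (nat_lit 6) n6757 (.arc (nat_lit 9) n6758 (.fin (nat_lit 286658713) (nat_lit 0))))
def n6760 : Nd := .arc (nat_lit 6) n6755 (.arc (nat_lit 9) n6754 (.fin (nat_lit 286666905) (nat_lit 0)))
def n6761 : Nd := .arc (nat_lit 3) n6751 (.arc (nat_lit 6) n6750 (.fin (nat_lit 155619485) (nat_lit 0)))
def n6762 : Nd := .arc (nat_lit 3) n6739 (.arc (nat_lit 9) n6738 (.fin (nat_lit 86397083) (nat_lit 0)))
def n6763 : Nd := .arc (nat_lit 3) n6760 (.arc (nat_lit 6) n6761 (.arc (nat_lit 9) n6762 (.fin (nat_lit 554569879) (nat_lit 0))))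
def n6764 : Nd := .arc (nat_lit 14) n6123 (.arc (nat_lit 17) n6119 (.arc (nat_lit 20) n6113 (.arc (nat_lit 23) n6104 (.arc (nat_lit 38) n6091 (.arc (nat_lit 41) n6087 (.arc (nat_lit 44) n6081 (.arc (nat_lit 47) n6072 (.arc (nat_lit 50) n6059 (.arc (nat_lit 53) n6055 (.arc (nat_lit 56) n6049 (.arc (nat_lit 59) n6040 (.fin (nat_lit 290123927) (nat_lit 0)))))))))))))
def n6765 : Nd := .arc (nat_lit 3) n6764 (.fin (nat_lit 556978329) (nat_lit 0))
def n6766 : Nd := .arc (nat_lit 14) n6119 (.arc (nat_lit 17) n6123 (.arc (nat_lit 20) n6104 (.arc (nat_lit 23) n6113 (.arc (nat_lit 26) n6091 (.arc (nat_lit 29) n6087 (.arc (nat_lit 32) n6072 (.arc (nat_lit 35) n6081 (.arc (nat_lit 62) n6059 (.arc (nat_lit 65) n6055 (.arc (nat_lit 68) n6040 (.arc (nat_lit 71) n6049 (.fin (nat_lit 556986521) (nat_lit 0)))))))))))))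
def n6767 : Nd := .arc (nat_lit 3) n6766 (.arc (nat_lit 40) n6088 (.arc (nat_lit 43) n6089 (.arc (nat_lit 46) n6090 (.fin (nat_lit 290115735) (nat_lit 0)))))
def n6768 : Nd := .arc (nat_lit 6) n6765 (.arc (nat_lit 9) n6767 (.fin (nat_lit 89272477) (nat_lit 0)))
def n6769 : Nd := .arc (nat_lit 14) n6113 (.arc (nat_lit 17) n6104 (.arc (nat_lit 20) n6119 (.arc (nat_lit 23) n6123 (.arc (nat_lit 26) n6059 (.arc (nat_lit 29) n6055 (.arc (nat_lit 32) n6040 (.arc (nat_lit 35) n6049 (.arc (nat_lit 50) n6091 (.arc (nat_lit 53) n6087 (.arc (nat_lit 56) n6081 (.arc (nat_lit 59) n6072 (.fin (nat_lit 89321629) (nat_lit 0)))))))))))))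
def n6770 : Nd := .arc (nat_lit 9) n6769 (.arc (nat_lit 64) n6056 (.arc (nat_lit 67) n6058 (.arc (nat_lit 70) n6057 (.fin (nat_lit 556953753) (nat_lit 0)))))
def n6771 : Nd := .arc (nat_lit 6) n6766 (.arc (nat_lit 52) n6088 (.arc (nat_lit 55) n6089 (.arc (nat_lit 58) n6090 (.fin (nat_lit 89305245) (nat_lit 0)))))
def n6772 : Nd := .arc (nat_lit 3) n6770 (.arc (nat_lit 6) n6771 (.fin (nat_lit 290099351) (nat_lit 0)))
def n6773 : Nd := .arc (nat_lit 6) n6769 (.arc (nat_lit 52) n6056 (.arc (nat_lit 55) n6057 (.arc (nat_lit 58) n6058 (.fin (nat_lit 290107543) (nat_lit 0)))))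
def n6774 : Nd := .arc (nat_lit 9) n6764 (.fin (nat_lit 89288861) (nat_lit 0))
def n6775 : Nd := .arc (nat_lit 3) n6773 (.arc (nat_lit 9) n6774 (.fin (nat_lit 556945561) (nat_lit 0)))
def n6776 : Nd := .arc (nat_lit 3) n6768 (.arc (nat_lit 6) n6772 (.arc (nat_lit 9) n6775 (.fin (nat_lit 153751707) (nat_lit 0))))
def n6777 : Nd := .arc (nat_lit 6) n6767 (.arc (nat_lit 9) n6765 (.fin (nat_lit 153759899) (nat_lit 0)))
def n6778 : Nd := .arc (nat_lit 14) n6104 (.arc (nat_lit 17) n6113 (.arc (nat_lit 20) n6123 (.arc (nat_lit 23) n6119 (.arc (nat_lit 38) n6059 (.arc (nat_lit 41) n6055 (.arc (nat_lit 44) n6049 (.arc (nat_lit 47) n6040 (.arc (nat_lit 62) n6091 (.arc (nat_lit 65) n6087 (.arc (nat_lit 68) n6072 (.arc (nat_lit 71) n6081 (.fin (nat_lit 153809051) (nat_lit 0)))))))))))))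
def n6779 : Nd := .arc (nat_lit 9) n6778 (.fin (nat_lit 290091159) (nat_lit 0))
def n6780 : Nd := .arc (nat_lit 6) n6764 (.fin (nat_lit 153792667) (nat_lit 0))
def n6781 : Nd := .arc (nat_lit 3) n6779 (.arc (nat_lit 6) n6780 (.fin (nat_lit 556961945) (nat_lit 0)))
def n6782 : Nd := .arc (nat_lit 6) n6778 (.fin (nat_lit 556970137) (nat_lit 0))
def n6783 : Nd := .arc (nat_lit 9) n6766 (.arc (nat_lit 64) n6088 (.arc (nat_lit 67) n6090 (.arc (nat_lit 70) n6089 (.fin (nat_lit 153776283) (nat_lit 0)))))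
def n6784 : Nd := .arc (nat_lit 3) n6782 (.arc (nat_lit 9) n6783 (.fin (nat_lit 290082967) (nat_lit 0)))
def n6785 : Nd := .arc (nat_lit 3) n6777 (.arc (nat_lit 6) n6781 (.arc (nat_lit 9) n6784 (.fin (nat_lit 89264285) (nat_lit 0))))
def n6786 : Nd := .arc (nat_lit 3) n6778 (.fin (nat_lit 89313437) (nat_lit 0))
def n6787 : Nd := .arc (nat_lit 3) n6769 (.arc (nat_lit 40) n6056 (.arc (nat_lit 43) n6057 (.arc (nat_lit 46) n6058 (.fin (nat_lit 153800859) (nat_lit 0)))))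
def n6788 : Nd := .arc (nat_lit 6) n6786 (.arc (nat_lit 9) n6787 (.fin (nat_lit 290074775) (nat_lit 0)))
def n6789 : Nd := .arc (nat_lit 3) n6774 (.arc (nat_lit 6) n6773 (.fin (nat_lit 153784475) (nat_lit 0)))
def n6790 : Nd := .arc (nat_lit 3) n6780 (.arc (nat_lit 9) n6779 (.fin (nat_lit 89280669) (nat_lit 0)))
def n6791 : Nd := .arc (nat_lit 3) n6788 (.arc (nat_lit 6) n6789 (.arc (nat_lit 9) n6790 (.fin (nat_lit 556929177) (nat_lit 0))))
def n6792 : Nd := .arc (nat_lit 6) n6787 (.arc (nat_lit 9) n6786 (.fin (nat_lit 556937369) (nat_lit 0)))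
def n6793 : Nd := .arc (nat_lit 3) n6783 (.arc (nat_lit 6) n6782 (.fin (nat_lit 89297053) (nat_lit 0)))
def n6794 : Nd := .arc (nat_lit 3) n6771 (.arc (nat_lit 9) n6770 (.fin (nat_lit 153768091) (nat_lit 0)))
def n6795 : Nd := .arc (nat_lit 3) n6792 (.arc (nat_lit 6) n6793 (.arc (nat_lit 9) n6794 (.fin (nat_lit 290066583) (nat_lit 0))))
def n6796 : Nd := .arc (nat_lit 14) n6411 (.arc (nat_lit 17) n6407 (.arc (nat_lit 20) n6401 (.arc (nat_lit 23) n6392 (.arc (nat_lit 26) n6379 (.arc (nat_lit 29) n6375 (.arc (nat_lit 32) n6369 (.arc (nat_lit 35) n6360 (.arc (nat_lit 50) n6347 (.arc (nat_lit 53) n6343 (.arc (nat_lit 56) n6337 (.arc (nat_lit 59) n6328 (.fin (nat_lit 307425433) (nat_lit 0)))))))))))))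
def n6797 : Nd := .arc (nat_lit 3) n6796 (.arc (nat_lit 40) n6376 (.arc (nat_lit 43) n6377 (.arc (nat_lit 46) n6378 (.fin (nat_lit 573231255) (nat_lit 0)))))
def n6798 : Nd := .arc (nat_lit 14) n6407 (.arc (nat_lit 17) n6411 (.arc (nat_lit 20) n6392 (.arc (nat_lit 23) n6401 (.arc (nat_lit 38) n6379 (.arc (nat_lit 41) n6375 (.arc (nat_lit 44) n6360 (.arc (nat_lit 47) n6369 (.arc (nat_lit 62) n6347 (.arc (nat_lit 65) n6343 (.arc (nat_lit 68) n6328 (.arc (nat_lit 71) n6337 (.fin (nat_lit 573239447) (nat_lit 0)))))))))))))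
def n6799 : Nd := .arc (nat_lit 3) n6798 (.fin (nat_lit 307417241) (nat_lit 0))
def n6800 : Nd := .arc (nat_lit 6) n6797 (.arc (nat_lit 9) n6799 (.fin (nat_lit 103952539) (nat_lit 0)))
def n6801 : Nd := .arc (nat_lit 14) n6401 (.arc (nat_lit 17) n6392 (.arc (nat_lit 20) n6407 (.arc (nat_lit 23) n6411 (.arc (nat_lit 26) n6347 (.arc (nat_lit 29) n6343 (.arc (nat_lit 32) n6328 (.arc (nat_lit 35) n6337 (.arc (nat_lit 62) n6379 (.arc (nat_lit 65) n6375 (.arc (nat_lit 68) n6369 (.arc (nat_lit 71) n6360 (.fin (nat_lit 104001691) (nat_lit 0)))))))))))))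
def n6802 : Nd := .arc (nat_lit 9) n6801 (.arc (nat_lit 64) n6344 (.arc (nat_lit 67) n6346 (.arc (nat_lit 70) n6345 (.fin (nat_lit 573206679) (nat_lit 0)))))
def n6803 : Nd := .arc (nat_lit 6) n6798 (.fin (nat_lit 103985307) (nat_lit 0))
def n6804 : Nd := .arc (nat_lit 3) n6802 (.arc (nat_lit 6) n6803 (.fin (nat_lit 307400857) (nat_lit 0)))
def n6805 : Nd := .arc (nat_lit 6) n6801 (.arc (nat_lit 52) n6344 (.arc (nat_lit 55) n6345 (.arc (nat_lit 58) n6346 (.fin (nat_lit 307409049) (nat_lit 0)))))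
def n6806 : Nd := .arc (nat_lit 9) n6796 (.arc (nat_lit 64) n6376 (.arc (nat_lit 67) n6378 (.arc (nat_lit 70) n6377 (.fin (nat_lit 103968923) (nat_lit 0)))))
def n6807 : Nd := .arc (nat_lit 3) n6805 (.arc (nat_lit 9) n6806 (.fin (nat_lit 573198487) (nat_lit 0)))
def n6808 : Nd := .arc (nat_lit 3) n6800 (.arc (nat_lit 6) n6804 (.arc (nat_lit 9) n6807 (.fin (nat_lit 172626077) (nat_lit 0))))
def n6809 : Nd := .arc (nat_lit 6) n6799 (.arc (nat_lit 9) n6797 (.fin (nat_lit 172634269) (nat_lit 0)))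
def n6810 : Nd := .arc (nat_lit 14) n6392 (.arc (nat_lit 17) n6401 (.arc (nat_lit 20) n6411 (.arc (nat_lit 23) n6407 (.arc (nat_lit 38) n6347 (.arc (nat_lit 41) n6343 (.arc (nat_lit 44) n6337 (.arc (nat_lit 47) n6328 (.arc (nat_lit 50) n6379 (.arc (nat_lit 53) n6375 (.arc (nat_lit 56) n6360 (.arc (nat_lit 59) n6369 (.fin (nat_lit 172683421) (nat_lit 0)))))))))))))
def n6811 : Nd := .arc (nat_lit 9) n6810 (.fin (nat_lit 307392665) (nat_lit 0))
def n6812 : Nd := .arc (nat_lit 6) n6796 (.arc (nat_lit 52) n6376 (.arc (nat_lit 55) n6377 (.arc (nat_lit 58) n6378 (.fin (nat_lit 172667037) (nat_lit 0)))))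
def n6813 : Nd := .arc (nat_lit 3) n6811 (.arc (nat_lit 6) n6812 (.fin (nat_lit 573214871) (nat_lit 0)))
def n6814 : Nd := .arc (nat_lit 6) n6810 (.fin (nat_lit 573223063) (nat_lit 0))
def n6815 : Nd := .arc (nat_lit 9) n6798 (.fin (nat_lit 172650653) (nat_lit 0))
def n6816 : Nd := .arc (nat_lit 3) n6814 (.arc (nat_lit 9) n6815 (.fin (nat_lit 307384473) (nat_lit 0)))
def n6817 : Nd := .arc (nat_lit 3) n6809 (.arc (nat_lit 6) n6813 (.arc (nat_lit 9) n6816 (.fin (nat_lit 103944347) (nat_lit 0))))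
def n6818 : Nd := .arc (nat_lit 3) n6801 (.arc (nat_lit 40) n6344 (.arc (nat_lit 43) n6345 (.arc (nat_lit 46) n6346 (.fin (nat_lit 172675229) (nat_lit 0)))))
def n6819 : Nd := .arc (nat_lit 3) n6810 (.fin (nat_lit 103993499) (nat_lit 0))
def n6820 : Nd := .arc (nat_lit 6) n6818 (.arc (nat_lit 9) n6819 (.fin (nat_lit 573190295) (nat_lit 0)))
def n6821 : Nd := .arc (nat_lit 3) n6815 (.arc (nat_lit 6) n6814 (.fin (nat_lit 103977115) (nat_lit 0)))
def n6822 : Nd := .arc (nat_lit 3) n6803 (.arc (nat_lit 9) n6802 (.fin (nat_lit 172642461) (nat_lit 0)))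
def n6823 : Nd := .arc (nat_lit 3) n6820 (.arc (nat_lit 6) n6821 (.arc (nat_lit 9) n6822 (.fin (nat_lit 307368089) (nat_lit 0))))
def n6824 : Nd := .arc (nat_lit 6) n6819 (.arc (nat_lit 9) n6818 (.fin (nat_lit 307376281) (nat_lit 0)))
def n6825 : Nd := .arc (nat_lit 3) n6806 (.arc (nat_lit 6) n6805 (.fin (nat_lit 172658845) (nat_lit 0)))
def n6826 : Nd := .arc (nat_lit 3) n6812 (.arc (nat_lit 9) n6811 (.fin (nat_lit 103960731) (nat_lit 0)))
def n6827 : Nd := .arc (nat_lit 3) n6824 (.arc (nat_lit 6) n6825 (.arc (nat_lit 9) n6826 (.fin (nat_lit 573182103) (nat_lit 0))))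
def n6828 : Nd := .arc (nat_lit 26) n5163 (.arc (nat_lit 29) n5159 (.arc (nat_lit 32) n5153 (.arc (nat_lit 35) n5144 (.arc (nat_lit 38) n5067 (.arc (nat_lit 41) n5063 (.arc (nat_lit 44) n5057 (.arc (nat_lit 47) n5048 (.arc (nat_lit 50) n4939 (.arc (nat_lit 53) n4935 (.arc (nat_lit 56) n4929 (.arc (nat_lit 59) n4920 (.fin (nat_lit 340193429) (nat_lit 0)))))))))))))
def n6829 : Nd := .arc (nat_lit 3) n6828 (.arc (nat_lit 40) n5160 (.arc (nat_lit 43) n5161 (.arc (nat_lit 46) n5162 (.fin (nat_lit 673632405) (nat_lit 0)))))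
def n6830 : Nd := .arc (nat_lit 26) n5067 (.arc (nat_lit 29) n5063 (.arc (nat_lit 32) n5048 (.arc (nat_lit 35) n5057 (.arc (nat_lit 38) n5163 (.arc (nat_lit 41) n5159 (.arc (nat_lit 44) n5144 (.arc (nat_lit 47) n5153 (.arc (nat_lit 62) n4939 (.arc (nat_lit 65) n4935 (.arc (nat_lit 68) n4920 (.arc (nat_lit 71) n4929 (.fin (nat_lit 673640597) (nat_lit 0)))))))))))))
def n6831 : Nd := .arc (nat_lit 3) n6830 (.arc (nat_lit 40) n5064 (.arc (nat_lit 43) n5065 (.arc (nat_lit 46) n5066 (.fin (nat_lit 340185237) (nat_lit 0)))))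
def n6832 : Nd := .arc (nat_lit 6) n6829 (.arc (nat_lit 9) n6831 (.fin (nat_lit 605434005) (nat_lit 0)))
def n6833 : Nd := .arc (nat_lit 26) n4939 (.arc (nat_lit 29) n4935 (.arc (nat_lit 32) n4920 (.arc (nat_lit 35) n4929 (.arc (nat_lit 50) n5067 (.arc (nat_lit 53) n5063 (.arc (nat_lit 56) n5057 (.arc (nat_lit 59) n5048 (.arc (nat_lit 62) n5163 (.arc (nat_lit 65) n5159 (.arc (nat_lit 68) n5153 (.arc (nat_lit 71) n5144 (.fin (nat_lit 605483157) (nat_lit 0)))))))))))))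
def n6834 : Nd := .arc (nat_lit 9) n6833 (.arc (nat_lit 64) n4936 (.arc (nat_lit 67) n4938 (.arc (nat_lit 70) n4937 (.fin (nat_lit 673607829) (nat_lit 0)))))
def n6835 : Nd := .arc (nat_lit 6) n6830 (.arc (nat_lit 52) n5064 (.arc (nat_lit 55) n5065 (.arc (nat_lit 58) n5066 (.fin (nat_lit 605466773) (nat_lit 0)))))
def n6836 : Nd := .arc (nat_lit 3) n6834 (.arc (nat_lit 6) n6835 (.fin (nat_lit 340168853) (nat_lit 0)))
def n6837 : Nd := .arc (nat_lit 6) n6833 (.arc (nat_lit 52) n4936 (.arc (nat_lit 55) n4937 (.arc (nat_lit 58) n4938 (.fin (nat_lit 340177045) (nat_lit 0)))))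
def n6838 : Nd := .arc (nat_lit 9) n6828 (.arc (nat_lit 64) n5160 (.arc (nat_lit 67) n5162 (.arc (nat_lit 70) n5161 (.fin (nat_lit 605450389) (nat_lit 0)))))
def n6839 : Nd := .arc (nat_lit 3) n6837 (.arc (nat_lit 9) n6838 (.fin (nat_lit 673599637) (nat_lit 0)))
def n6840 : Nd := .arc (nat_lit 3) n6832 (.arc (nat_lit 6) n6836 (.arc (nat_lit 9) n6839 (.fin (nat_lit 403574933) (nat_lit 0))))
def n6841 : Nd := .arc (nat_lit 6) n6831 (.arc (nat_lit 9) n6829 (.fin (nat_lit 403583125) (nat_lit 0)))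
def n6842 : Nd := .arc (nat_lit 38) n4939 (.arc (nat_lit 41) n4935 (.arc (nat_lit 44) n4929 (.arc (nat_lit 47) n4920 (.arc (nat_lit 50) n5163 (.arc (nat_lit 53) n5159 (.arc (nat_lit 56) n5144 (.arc (nat_lit 59) n5153 (.arc (nat_lit 62) n5067 (.arc (nat_lit 65) n5063 (.arc (nat_lit 68) n5048 (.arc (nat_lit 71) n5057 (.fin (nat_lit 403632277) (nat_lit 0)))))))))))))
def n6843 : Nd := .arc (nat_lit 9) n6842 (.fin (nat_lit 340160661) (nat_lit 0))
def n6844 : Nd := .arc (nat_lit 6) n6828 (.arc (nat_lit 52) n5160 (.arc (nat_lit 55) n5161 (.arc (nat_lit 58) n5162 (.fin (nat_lit 403615893) (nat_lit 0)))))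
def n6845 : Nd := .arc (nat_lit 3) n6843 (.arc (nat_lit 6) n6844 (.fin (nat_lit 673616021) (nat_lit 0)))
def n6846 : Nd := .arc (nat_lit 6) n6842 (.fin (nat_lit 673624213) (nat_lit 0))
def n6847 : Nd := .arc (nat_lit 9) n6830 (.arc (nat_lit 64) n5064 (.arc (nat_lit 67) n5066 (.arc (nat_lit 70) n5065 (.fin (nat_lit 403599509) (nat_lit 0)))))
def n6848 : Nd := .arc (nat_lit 3) n6846 (.arc (nat_lit 9) n6847 (.fin (nat_lit 340152469) (nat_lit 0)))
def n6849 : Nd := .arc (nat_lit 3) n6841 (.arc (nat_lit 6) n6845 (.arc (nat_lit 9) n6848 (.fin (nat_lit 605425813) (nat_lit 0))))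
def n6850 : Nd := .arc (nat_lit 3) n6833 (.arc (nat_lit 40) n4936 (.arc (nat_lit 43) n4937 (.arc (nat_lit 46) n4938 (.fin (nat_lit 403624085) (nat_lit 0)))))
def n6851 : Nd := .arc (nat_lit 3) n6842 (.fin (nat_lit 605474965) (nat_lit 0))
def n6852 : Nd := .arc (nat_lit 6) n6850 (.arc (nat_lit 9) n6851 (.fin (nat_lit 673591445) (nat_lit 0)))
def n6853 : Nd := .arc (nat_lit 3) n6847 (.arc (nat_lit 6) n6846 (.fin (nat_lit 605458581) (nat_lit 0)))
def n6854 : Nd := .arc (nat_lit 3) n6835 (.arc (nat_lit 9) n6834 (.fin (nat_lit 403591317) (nat_lit 0)))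
def n6855 : Nd := .arc (nat_lit 3) n6852 (.arc (nat_lit 6) n6853 (.arc (nat_lit 9) n6854 (.fin (nat_lit 340136085) (nat_lit 0))))
def n6856 : Nd := .arc (nat_lit 6) n6851 (.arc (nat_lit 9) n6850 (.fin (nat_lit 340144277) (nat_lit 0)))
def n6857 : Nd := .arc (nat_lit 3) n6838 (.arc (nat_lit 6) n6837 (.fin (nat_lit 403607701) (nat_lit 0)))
def n6858 : Nd := .arc (nat_lit 3) n6844 (.arc (nat_lit 9) n6843 (.fin (nat_lit 605442197) (nat_lit 0)))
def n6859 : Nd := .arc (nat_lit 3) n6856 (.arc (nat_lit 6) n6857 (.arc (nat_lit 9) n6858 (.fin (nat_lit 673583253) (nat_lit 0))))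
def n6860 : Nd := .arc (nat_lit 14) n6744 (.arc (nat_lit 17) n6753 (.arc (nat_lit 20) n6759 (.arc (nat_lit 23) n6763 (.arc (nat_lit 26) n6776 (.arc (nat_lit 29) n6785 (.arc (nat_lit 32) n6791 (.arc (nat_lit 35) n6795 (.arc (nat_lit 38) n6808 (.arc (nat_lit 41) n6817 (.arc (nat_lit 44) n6823 (.arc (nat_lit 47) n6827 (.arc (nat_lit 50) n6840 (.arc (nat_lit 53) n6849 (.arc (nat_lit 56) n6855 (.arc (nat_lit 59) n6859 (.fin (nat_lit 105050269) (nat_lit 0)))))))))))))))))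
def n6861 : Nd := .arc (nat_lit 3) n6860 (.arc (nat_lit 40) n6768 (.arc (nat_lit 43) n6772 (.arc (nat_lit 46) n6775 (.fin (nat_lit 170053787) (nat_lit 0)))))
def n6862 : Nd := .arc (nat_lit 14) n6753 (.arc (nat_lit 17) n6744 (.arc (nat_lit 20) n6763 (.arc (nat_lit 23) n6759 (.arc (nat_lit 26) n6808 (.arc (nat_lit 29) n6817 (.arc (nat_lit 32) n6827 (.arc (nat_lit 35) n6823 (.arc (nat_lit 38) n6776 (.arc (nat_lit 41) n6785 (.arc (nat_lit 44) n6795 (.arc (nat_lit 47) n6791 (.arc (nat_lit 62) n6840 (.arc (nat_lit 65) n6849 (.arc (nat_lit 68) n6859 (.arc (nat_lit 71) n6855 (.fin (nat_lit 170061979) (nat_lit 0)))))))))))))))))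
def n6863 : Nd := .arc (nat_lit 3) n6862 (.arc (nat_lit 40) n6800 (.arc (nat_lit 43) n6804 (.arc (nat_lit 46) n6807 (.fin (nat_lit 105042077) (nat_lit 0)))))
def n6864 : Nd := .arc (nat_lit 6) n6861 (.arc (nat_lit 9) n6863 (.fin (nat_lit 571617433) (nat_lit 0)))
def n6865 : Nd := .arc (nat_lit 14) n6759 (.arc (nat_lit 17) n6763 (.arc (nat_lit 20) n6753 (.arc (nat_lit 23) n6744 (.arc (nat_lit 26) n6840 (.arc (nat_lit 29) n6849 (.arc (nat_lit 32) n6859 (.arc (nat_lit 35) n6855 (.arc (nat_lit 50) n6808 (.arc (nat_lit 53) n6817 (.arc (nat_lit 56) n6823 (.arc (nat_lit 59) n6827 (.arc (nat_lit 62) n6776 (.arc (nat_lit 65) n6785 (.arc (nat_lit 68) n6791 (.arc (nat_lit 71) n6795 (.fin (nat_lit 571666585) (nat_lit 0)))))))))))))))))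
def n6866 : Nd := .arc (nat_lit 9) n6865 (.arc (nat_lit 64) n6832 (.arc (nat_lit 67) n6839 (.arc (nat_lit 70) n6836 (.fin (nat_lit 170029211) (nat_lit 0)))))
def n6867 : Nd := .arc (nat_lit 6) n6862 (.arc (nat_lit 52) n6800 (.arc (nat_lit 55) n6804 (.arc (nat_lit 58) n6807 (.fin (nat_lit 571650201) (nat_lit 0)))))
def n6868 : Nd := .arc (nat_lit 3) n6866 (.arc (nat_lit 6) n6867 (.fin (nat_lit 105025693) (nat_lit 0)))
def n6869 : Nd := .arc (nat_lit 6) n6865 (.arc (nat_lit 52) n6832 (.arc (nat_lit 55) n6836 (.arc (nat_lit 58) n6839 (.fin (nat_lit 105033885) (nat_lit 0)))))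
def n6870 : Nd := .arc (nat_lit 9) n6860 (.arc (nat_lit 64) n6768 (.arc (nat_lit 67) n6775 (.arc (nat_lit 70) n6772 (.fin (nat_lit 571633817) (nat_lit 0)))))
def n6871 : Nd := .arc (nat_lit 3) n6869 (.arc (nat_lit 9) n6870 (.fin (nat_lit 170021019) (nat_lit 0)))
def n6872 : Nd := .arc (nat_lit 3) n6864 (.arc (nat_lit 6) n6868 (.arc (nat_lit 9) n6871 (.fin (nat_lit 302649495) (nat_lit 0))))
def n6873 : Nd := .arc (nat_lit 6) n6863 (.arc (nat_lit 9) n6861 (.fin (nat_lit 302657687) (nat_lit 0)))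
def n6874 : Nd := .arc (nat_lit 14) n6763 (.arc (nat_lit 17) n6759 (.arc (nat_lit 20) n6744 (.arc (nat_lit 23) n6753 (.arc (nat_lit 38) n6840 (.arc (nat_lit 41) n6849 (.arc (nat_lit 44) n6855 (.arc (nat_lit 47) n6859 (.arc (nat_lit 50) n6776 (.arc (nat_lit 53) n6785 (.arc (nat_lit 56) n6795 (.arc (nat_lit 59) n6791 (.arc (nat_lit 62) n6808 (.arc (nat_lit 65) n6817 (.arc (nat_lit 68) n6827 (.arc (nat_lit 71) n6823 (.fin (nat_lit 302706839) (nat_lit 0)))))))))))))))))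
def n6875 : Nd := .arc (nat_lit 9) n6874 (.fin (nat_lit 105017501) (nat_lit 0))
def n6876 : Nd := .arc (nat_lit 6) n6860 (.arc (nat_lit 52) n6768 (.arc (nat_lit 55) n6772 (.arc (nat_lit 58) n6775 (.fin (nat_lit 302690455) (nat_lit 0)))))
def n6877 : Nd := .arc (nat_lit 3) n6875 (.arc (nat_lit 6) n6876 (.fin (nat_lit 170037403) (nat_lit 0)))
def n6878 : Nd := .arc (nat_lit 6) n6874 (.fin (nat_lit 170045595) (nat_lit 0))
def n6879 : Nd := .arc (nat_lit 9) n6862 (.arc (nat_lit 64) n6800 (.arc (nat_lit 67) n6807 (.arc (nat_lit 70) n6804 (.fin (nat_lit 302674071) (nat_lit 0)))))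
def n6880 : Nd := .arc (nat_lit 3) n6878 (.arc (nat_lit 9) n6879 (.fin (nat_lit 105009309) (nat_lit 0)))
def n6881 : Nd := .arc (nat_lit 3) n6873 (.arc (nat_lit 6) n6877 (.arc (nat_lit 9) n6880 (.fin (nat_lit 571609241) (nat_lit 0))))
def n6882 : Nd := .arc (nat_lit 3) n6865 (.arc (nat_lit 40) n6832 (.arc (nat_lit 43) n6836 (.arc (nat_lit 46) n6839 (.fin (nat_lit 302698647) (nat_lit 0)))))
def n6883 : Nd := .arc (nat_lit 3) n6874 (.fin (nat_lit 571658393) (nat_lit 0))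
def n6884 : Nd := .arc (nat_lit 6) n6882 (.arc (nat_lit 9) n6883 (.fin (nat_lit 170012827) (nat_lit 0)))
def n6885 : Nd := .arc (nat_lit 3) n6879 (.arc (nat_lit 6) n6878 (.fin (nat_lit 571642009) (nat_lit 0)))
def n6886 : Nd := .arc (nat_lit 3) n6867 (.arc (nat_lit 9) n6866 (.fin (nat_lit 302665879) (nat_lit 0)))
def n6887 : Nd := .arc (nat_lit 3) n6884 (.arc (nat_lit 6) n6885 (.arc (nat_lit 9) n6886 (.fin (nat_lit 104992925) (nat_lit 0))))
def n6888 : Nd := .arc (nat_lit 6) n6883 (.arc (nat_lit 9) n6882 (.fin (nat_lit 105001117) (nat_lit 0)))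
def n6889 : Nd := .arc (nat_lit 3) n6870 (.arc (nat_lit 6) n6869 (.fin (nat_lit 302682263) (nat_lit 0)))
def n6890 : Nd := .arc (nat_lit 3) n6876 (.arc (nat_lit 9) n6875 (.fin (nat_lit 571625625) (nat_lit 0)))
def n6891 : Nd := .arc (nat_lit 3) n6888 (.arc (nat_lit 6) n6889 (.arc (nat_lit 9) n6890 (.fin (nat_lit 170004635) (nat_lit 0))))
def n6892 : Nd := .arc (nat_lit 38) n6657 (.arc (nat_lit 41) n6648 (.arc (nat_lit 44) n6667 (.arc (nat_lit 47) n6663 (.arc (nat_lit 50) n6721 (.arc (nat_lit 53) n6712 (.arc (nat_lit 56) n6727 (.arc (nat_lit 59) n6731 (.arc (nat_lit 62) n6689 (.arc (nat_lit 65) n6680 (.arc (nat_lit 68) n6695 (.arc (nat_lit 71) n6699 (.fin (nat_lit 302968983) (nat_lit 0)))))))))))))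
def n6893 : Nd := .arc (nat_lit 3) n6892 (.fin (nat_lit 571920537) (nat_lit 0))
def n6894 : Nd := .arc (nat_lit 26) n6657 (.arc (nat_lit 29) n6648 (.arc (nat_lit 32) n6663 (.arc (nat_lit 35) n6667 (.arc (nat_lit 50) n6689 (.arc (nat_lit 53) n6680 (.arc (nat_lit 56) n6699 (.arc (nat_lit 59) n6695 (.arc (nat_lit 62) n6721 (.arc (nat_lit 65) n6712 (.arc (nat_lit 68) n6731 (.arc (nat_lit 71) n6727 (.fin (nat_lit 571928729) (nat_lit 0)))))))))))))
def n6895 : Nd := .arc (nat_lit 3) n6894 (.arc (nat_lit 40) n6649 (.arc (nat_lit 43) n6653 (.arc (nat_lit 46) n6656 (.fin (nat_lit 302960791) (nat_lit 0)))))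
def n6896 : Nd := .arc (nat_lit 6) n6893 (.arc (nat_lit 9) n6895 (.fin (nat_lit 105263261) (nat_lit 0)))
def n6897 : Nd := .arc (nat_lit 26) n6721 (.arc (nat_lit 29) n6712 (.arc (nat_lit 32) n6731 (.arc (nat_lit 35) n6727 (.arc (nat_lit 38) n6689 (.arc (nat_lit 41) n6680 (.arc (nat_lit 44) n6699 (.arc (nat_lit 47) n6695 (.arc (nat_lit 50) n6657 (.arc (nat_lit 53) n6648 (.arc (nat_lit 56) n6667 (.arc (nat_lit 59) n6663 (.fin (nat_lit 105312413) (nat_lit 0)))))))))))))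
def n6898 : Nd := .arc (nat_lit 9) n6897 (.arc (nat_lit 64) n6713 (.arc (nat_lit 67) n6720 (.arc (nat_lit 70) n6717 (.fin (nat_lit 571895961) (nat_lit 0)))))
def n6899 : Nd := .arc (nat_lit 6) n6894 (.arc (nat_lit 52) n6649 (.arc (nat_lit 55) n6653 (.arc (nat_lit 58) n6656 (.fin (nat_lit 105296029) (nat_lit 0)))))
def n6900 : Nd := .arc (nat_lit 3) n6898 (.arc (nat_lit 6) n6899 (.fin (nat_lit 302944407) (nat_lit 0)))
def n6901 : Nd := .arc (nat_lit 6) n6897 (.arc (nat_lit 52) n6713 (.arc (nat_lit 55) n6717 (.arc (nat_lit 58) n6720 (.fin (nat_lit 302952599) (nat_lit 0)))))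
def n6902 : Nd := .arc (nat_lit 9) n6892 (.fin (nat_lit 105279645) (nat_lit 0))
def n6903 : Nd := .arc (nat_lit 3) n6901 (.arc (nat_lit 9) n6902 (.fin (nat_lit 571887769) (nat_lit 0)))
def n6904 : Nd := .arc (nat_lit 3) n6896 (.arc (nat_lit 6) n6900 (.arc (nat_lit 9) n6903 (.fin (nat_lit 170266779) (nat_lit 0))))
def n6905 : Nd := .arc (nat_lit 6) n6895 (.arc (nat_lit 9) n6893 (.fin (nat_lit 170274971) (nat_lit 0)))
def n6906 : Nd := .arc (nat_lit 26) n6689 (.arc (nat_lit 29) n6680 (.arc (nat_lit 32) n6695 (.arc (nat_lit 35) n6699 (.arc (nat_lit 38) n6721 (.arc (nat_lit 41) n6712 (.arc (nat_lit 44) n6727 (.arc (nat_lit 47) n6731 (.arc (nat_lit 62) n6657 (.arc (nat_lit 65) n6648 (.arc (nat_lit 68) n6663 (.arc (nat_lit 71) n6667 (.fin (nat_lit 170324123) (nat_lit 0)))))))))))))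
def n6907 : Nd := .arc (nat_lit 9) n6906 (.arc (nat_lit 64) n6681 (.arc (nat_lit 67) n6688 (.arc (nat_lit 70) n6685 (.fin (nat_lit 302936215) (nat_lit 0)))))
def n6908 : Nd := .arc (nat_lit 6) n6892 (.fin (nat_lit 170307739) (nat_lit 0))
def n6909 : Nd := .arc (nat_lit 3) n6907 (.arc (nat_lit 6) n6908 (.fin (nat_lit 571904153) (nat_lit 0)))
def n6910 : Nd := .arc (nat_lit 6) n6906 (.arc (nat_lit 52) n6681 (.arc (nat_lit 55) n6685 (.arc (nat_lit 58) n6688 (.fin (nat_lit 571912345) (nat_lit 0)))))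
def n6911 : Nd := .arc (nat_lit 9) n6894 (.arc (nat_lit 64) n6649 (.arc (nat_lit 67) n6656 (.arc (nat_lit 70) n6653 (.fin (nat_lit 170291355) (nat_lit 0)))))
def n6912 : Nd := .arc (nat_lit 3) n6910 (.arc (nat_lit 9) n6911 (.fin (nat_lit 302928023) (nat_lit 0)))
def n6913 : Nd := .arc (nat_lit 3) n6905 (.arc (nat_lit 6) n6909 (.arc (nat_lit 9) n6912 (.fin (nat_lit 105255069) (nat_lit 0))))
def n6914 : Nd := .arc (nat_lit 3) n6906 (.arc (nat_lit 40) n6681 (.arc (nat_lit 43) n6685 (.arc (nat_lit 46) n6688 (.fin (nat_lit 105304221) (nat_lit 0)))))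
def n6915 : Nd := .arc (nat_lit 3) n6897 (.arc (nat_lit 40) n6713 (.arc (nat_lit 43) n6717 (.arc (nat_lit 46) n6720 (.fin (nat_lit 170315931) (nat_lit 0)))))
def n6916 : Nd := .arc (nat_lit 6) n6914 (.arc (nat_lit 9) n6915 (.fin (nat_lit 302919831) (nat_lit 0)))
def n6917 : Nd := .arc (nat_lit 3) n6902 (.arc (nat_lit 6) n6901 (.fin (nat_lit 170299547) (nat_lit 0)))
def n6918 : Nd := .arc (nat_lit 3) n6908 (.arc (nat_lit 9) n6907 (.fin (nat_lit 105271453) (nat_lit 0)))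
def n6919 : Nd := .arc (nat_lit 3) n6916 (.arc (nat_lit 6) n6917 (.arc (nat_lit 9) n6918 (.fin (nat_lit 571871385) (nat_lit 0))))
def n6920 : Nd := .arc (nat_lit 6) n6915 (.arc (nat_lit 9) n6914 (.fin (nat_lit 571879577) (nat_lit 0)))
def n6921 : Nd := .arc (nat_lit 3) n6911 (.arc (nat_lit 6) n6910 (.fin (nat_lit 105287837) (nat_lit 0)))
def n6922 : Nd := .arc (nat_lit 3) n6899 (.arc (nat_lit 9) n6898 (.fin (nat_lit 170283163) (nat_lit 0)))
def n6923 : Nd := .arc (nat_lit 3) n6920 (.arc (nat_lit 6) n6921 (.arc (nat_lit 9) n6922 (.fin (nat_lit 302911639) (nat_lit 0))))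
def n6924 : Nd := .arc (nat_lit 14) n6539 (.arc (nat_lit 17) n6535 (.arc (nat_lit 20) n6529 (.arc (nat_lit 23) n6520 (.arc (nat_lit 38) n6507 (.arc (nat_lit 41) n6503 (.arc (nat_lit 44) n6497 (.arc (nat_lit 47) n6488 (.arc (nat_lit 50) n6475 (.arc (nat_lit 53) n6471 (.arc (nat_lit 56) n6465 (.arc (nat_lit 59) n6456 (.fin (nat_lit 575336599) (nat_lit 0)))))))))))))
def n6925 : Nd := .arc (nat_lit 3) n6924 (.fin (nat_lit 305320089) (nat_lit 0))
def n6926 : Nd := .arc (nat_lit 14) n6535 (.arc (nat_lit 17) n6539 (.arc (nat_lit 20) n6520 (.arc (nat_lit 23) n6529 (.arc (nat_lit 26) n6507 (.arc (nat_lit 29) n6503 (.arc (nat_lit 32) n6488 (.arc (nat_lit 35) n6497 (.arc (nat_lit 62) n6475 (.arc (nat_lit 65) n6471 (.arc (nat_lit 68) n6456 (.arc (nat_lit 71) n6465 (.fin (nat_lit 305328281) (nat_lit 0)))))))))))))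
def n6927 : Nd := .arc (nat_lit 3) n6926 (.arc (nat_lit 40) n6504 (.arc (nat_lit 43) n6505 (.arc (nat_lit 46) n6506 (.fin (nat_lit 575328407) (nat_lit 0)))))
def n6928 : Nd := .arc (nat_lit 6) n6925 (.arc (nat_lit 9) n6927 (.fin (nat_lit 173158557) (nat_lit 0)))
def n6929 : Nd := .arc (nat_lit 14) n6529 (.arc (nat_lit 17) n6520 (.arc (nat_lit 20) n6535 (.arc (nat_lit 23) n6539 (.arc (nat_lit 26) n6475 (.arc (nat_lit 29) n6471 (.arc (nat_lit 32) n6456 (.arc (nat_lit 35) n6465 (.arc (nat_lit 50) n6507 (.arc (nat_lit 53) n6503 (.arc (nat_lit 56) n6497 (.arc (nat_lit 59) n6488 (.fin (nat_lit 173207709) (nat_lit 0)))))))))))))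
def n6930 : Nd := .arc (nat_lit 9) n6929 (.arc (nat_lit 64) n6472 (.arc (nat_lit 67) n6474 (.arc (nat_lit 70) n6473 (.fin (nat_lit 305295513) (nat_lit 0)))))
def n6931 : Nd := .arc (nat_lit 6) n6926 (.arc (nat_lit 52) n6504 (.arc (nat_lit 55) n6505 (.arc (nat_lit 58) n6506 (.fin (nat_lit 173191325) (nat_lit 0)))))
def n6932 : Nd := .arc (nat_lit 3) n6930 (.arc (nat_lit 6) n6931 (.fin (nat_lit 575312023) (nat_lit 0)))
def n6933 : Nd := .arc (nat_lit 6) n6929 (.arc (nat_lit 52) n6472 (.arc (nat_lit 55) n6473 (.arc (nat_lit 58) n6474 (.fin (nat_lit 575320215) (nat_lit 0)))))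
def n6934 : Nd := .arc (nat_lit 9) n6924 (.fin (nat_lit 173174941) (nat_lit 0))
def n6935 : Nd := .arc (nat_lit 3) n6933 (.arc (nat_lit 9) n6934 (.fin (nat_lit 305287321) (nat_lit 0)))
def n6936 : Nd := .arc (nat_lit 3) n6928 (.arc (nat_lit 6) n6932 (.arc (nat_lit 9) n6935 (.fin (nat_lit 103420059) (nat_lit 0))))
def n6937 : Nd := .arc (nat_lit 6) n6927 (.arc (nat_lit 9) n6925 (.fin (nat_lit 103428251) (nat_lit 0)))
def n6938 : Nd := .arc (nat_lit 14) n6520 (.arc (nat_lit 17) n6529 (.arc (nat_lit 20) n6539 (.arc (nat_lit 23) n6535 (.arc (nat_lit 38) n6475 (.arc (nat_lit 41) n6471 (.arc (nat_lit 44) n6465 (.arc (nat_lit 47) n6456 (.arc (nat_lit 62) n6507 (.arc (nat_lit 65) n6503 (.arc (nat_lit 68) n6488 (.arc (nat_lit 71) n6497 (.fin (nat_lit 103477403) (nat_lit 0)))))))))))))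
def n6939 : Nd := .arc (nat_lit 9) n6938 (.fin (nat_lit 575303831) (nat_lit 0))
def n6940 : Nd := .arc (nat_lit 6) n6924 (.fin (nat_lit 103461019) (nat_lit 0))
def n6941 : Nd := .arc (nat_lit 3) n6939 (.arc (nat_lit 6) n6940 (.fin (nat_lit 305303705) (nat_lit 0)))
def n6942 : Nd := .arc (nat_lit 6) n6938 (.fin (nat_lit 305311897) (nat_lit 0))
def n6943 : Nd := .arc (nat_lit 9) n6926 (.arc (nat_lit 64) n6504 (.arc (nat_lit 67) n6506 (.arc (nat_lit 70) n6505 (.fin (nat_lit 103444635) (nat_lit 0)))))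
def n6944 : Nd := .arc (nat_lit 3) n6942 (.arc (nat_lit 9) n6943 (.fin (nat_lit 575295639) (nat_lit 0)))
def n6945 : Nd := .arc (nat_lit 3) n6937 (.arc (nat_lit 6) n6941 (.arc (nat_lit 9) n6944 (.fin (nat_lit 173150365) (nat_lit 0))))
def n6946 : Nd := .arc (nat_lit 3) n6938 (.fin (nat_lit 173199517) (nat_lit 0))
def n6947 : Nd := .arc (nat_lit 3) n6929 (.arc (nat_lit 40) n6472 (.arc (nat_lit 43) n6473 (.arc (nat_lit 46) n6474 (.fin (nat_lit 103469211) (nat_lit 0)))))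
def n6948 : Nd := .arc (nat_lit 6) n6946 (.arc (nat_lit 9) n6947 (.fin (nat_lit 575287447) (nat_lit 0)))
def n6949 : Nd := .arc (nat_lit 3) n6934 (.arc (nat_lit 6) n6933 (.fin (nat_lit 103452827) (nat_lit 0)))
def n6950 : Nd := .arc (nat_lit 3) n6940 (.arc (nat_lit 9) n6939 (.fin (nat_lit 173166749) (nat_lit 0)))
def n6951 : Nd := .arc (nat_lit 3) n6948 (.arc (nat_lit 6) n6949 (.arc (nat_lit 9) n6950 (.fin (nat_lit 305270937) (nat_lit 0))))
def n6952 : Nd := .arc (nat_lit 6) n6947 (.arc (nat_lit 9) n6946 (.fin (nat_lit 305279129) (nat_lit 0)))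
def n6953 : Nd := .arc (nat_lit 3) n6943 (.arc (nat_lit 6) n6942 (.fin (nat_lit 173183133) (nat_lit 0)))
def n6954 : Nd := .arc (nat_lit 3) n6931 (.arc (nat_lit 9) n6930 (.fin (nat_lit 103436443) (nat_lit 0)))
def n6955 : Nd := .arc (nat_lit 3) n6952 (.arc (nat_lit 6) n6953 (.arc (nat_lit 9) n6954 (.fin (nat_lit 575279255) (nat_lit 0))))
def n6956 : Nd := .arc (nat_lit 14) n5995 (.arc (nat_lit 17) n5991 (.arc (nat_lit 20) n5985 (.arc (nat_lit 23) n5976 (.arc (nat_lit 26) n5963 (.arc (nat_lit 29) n5959 (.arc (nat_lit 32) n5953 (.arc (nat_lit 35) n5944 (.arc (nat_lit 50) n5931 (.arc (nat_lit 53) n5927 (.arc (nat_lit 56) n5921 (.arc (nat_lit 59) n5912 (.fin (nat_lit 559083673) (nat_lit 0)))))))))))))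
def n6957 : Nd := .arc (nat_lit 3) n6956 (.arc (nat_lit 40) n5960 (.arc (nat_lit 43) n5961 (.arc (nat_lit 46) n5962 (.fin (nat_lit 288018583) (nat_lit 0)))))
def n6958 : Nd := .arc (nat_lit 14) n5991 (.arc (nat_lit 17) n5995 (.arc (nat_lit 20) n5976 (.arc (nat_lit 23) n5985 (.arc (nat_lit 38) n5963 (.arc (nat_lit 41) n5959 (.arc (nat_lit 44) n5944 (.arc (nat_lit 47) n5953 (.arc (nat_lit 62) n5931 (.arc (nat_lit 65) n5927 (.arc (nat_lit 68) n5912 (.arc (nat_lit 71) n5921 (.fin (nat_lit 288026775) (nat_lit 0)))))))))))))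
def n6959 : Nd := .arc (nat_lit 3) n6958 (.fin (nat_lit 559075481) (nat_lit 0))
def n6960 : Nd := .arc (nat_lit 6) n6957 (.arc (nat_lit 9) n6959 (.fin (nat_lit 154284187) (nat_lit 0)))
def n6961 : Nd := .arc (nat_lit 14) n5985 (.arc (nat_lit 17) n5976 (.arc (nat_lit 20) n5991 (.arc (nat_lit 23) n5995 (.arc (nat_lit 26) n5931 (.arc (nat_lit 29) n5927 (.arc (nat_lit 32) n5912 (.arc (nat_lit 35) n5921 (.arc (nat_lit 62) n5963 (.arc (nat_lit 65) n5959 (.arc (nat_lit 68) n5953 (.arc (nat_lit 71) n5944 (.fin (nat_lit 154333339) (nat_lit 0)))))))))))))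
def n6962 : Nd := .arc (nat_lit 9) n6961 (.arc (nat_lit 64) n5928 (.arc (nat_lit 67) n5930 (.arc (nat_lit 70) n5929 (.fin (nat_lit 287994007) (nat_lit 0)))))
def n6963 : Nd := .arc (nat_lit 6) n6958 (.fin (nat_lit 154316955) (nat_lit 0))
def n6964 : Nd := .arc (nat_lit 3) n6962 (.arc (nat_lit 6) n6963 (.fin (nat_lit 559059097) (nat_lit 0)))
def n6965 : Nd := .arc (nat_lit 6) n6961 (.arc (nat_lit 52) n5928 (.arc (nat_lit 55) n5929 (.arc (nat_lit 58) n5930 (.fin (nat_lit 559067289) (nat_lit 0)))))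
def n6966 : Nd := .arc (nat_lit 9) n6956 (.arc (nat_lit 64) n5960 (.arc (nat_lit 67) n5962 (.arc (nat_lit 70) n5961 (.fin (nat_lit 154300571) (nat_lit 0)))))
def n6967 : Nd := .arc (nat_lit 3) n6965 (.arc (nat_lit 9) n6966 (.fin (nat_lit 287985815) (nat_lit 0)))
def n6968 : Nd := .arc (nat_lit 3) n6960 (.arc (nat_lit 6) n6964 (.arc (nat_lit 9) n6967 (.fin (nat_lit 88739997) (nat_lit 0))))
def n6969 : Nd := .arc (nat_lit 6) n6959 (.arc (nat_lit 9) n6957 (.fin (nat_lit 88748189) (nat_lit 0)))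
def n6970 : Nd := .arc (nat_lit 14) n5976 (.arc (nat_lit 17) n5985 (.arc (nat_lit 20) n5995 (.arc (nat_lit 23) n5991 (.arc (nat_lit 38) n5931 (.arc (nat_lit 41) n5927 (.arc (nat_lit 44) n5921 (.arc (nat_lit 47) n5912 (.arc (nat_lit 50) n5963 (.arc (nat_lit 53) n5959 (.arc (nat_lit 56) n5944 (.arc (nat_lit 59) n5953 (.fin (nat_lit 88797341) (nat_lit 0)))))))))))))
def n6971 : Nd := .arc (nat_lit 9) n6970 (.fin (nat_lit 559050905) (nat_lit 0))
def n6972 : Nd := .arc (nat_lit 6) n6956 (.arc (nat_lit 52) n5960 (.arc (nat_lit 55) n5961 (.arc (nat_lit 58) n5962 (.fin (nat_lit 88780957) (nat_lit 0)))))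
def n6973 : Nd := .arc (nat_lit 3) n6971 (.arc (nat_lit 6) n6972 (.fin (nat_lit 288002199) (nat_lit 0)))
def n6974 : Nd := .arc (nat_lit 6) n6970 (.fin (nat_lit 288010391) (nat_lit 0))
def n6975 : Nd := .arc (nat_lit 9) n6958 (.fin (nat_lit 88764573) (nat_lit 0))
def n6976 : Nd := .arc (nat_lit 3) n6974 (.arc (nat_lit 9) n6975 (.fin (nat_lit 559042713) (nat_lit 0)))
def n6977 : Nd := .arc (nat_lit 3) n6969 (.arc (nat_lit 6) n6973 (.arc (nat_lit 9) n6976 (.fin (nat_lit 154275995) (nat_lit 0))))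
def n6978 : Nd := .arc (nat_lit 3) n6961 (.arc (nat_lit 40) n5928 (.arc (nat_lit 43) n5929 (.arc (nat_lit 46) n5930 (.fin (nat_lit 88789149) (nat_lit 0)))))
def n6979 : Nd := .arc (nat_lit 3) n6970 (.fin (nat_lit 154325147) (nat_lit 0))
def n6980 : Nd := .arc (nat_lit 6) n6978 (.arc (nat_lit 9) n6979 (.fin (nat_lit 287977623) (nat_lit 0)))
def n6981 : Nd := .arc (nat_lit 3) n6975 (.arc (nat_lit 6) n6974 (.fin (nat_lit 154308763) (nat_lit 0)))
def n6982 : Nd := .arc (nat_lit 3) n6963 (.arc (nat_lit 9) n6962 (.fin (nat_lit 88756381) (nat_lit 0)))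
def n6983 : Nd := .arc (nat_lit 3) n6980 (.arc (nat_lit 6) n6981 (.arc (nat_lit 9) n6982 (.fin (nat_lit 559026329) (nat_lit 0))))
def n6984 : Nd := .arc (nat_lit 6) n6979 (.arc (nat_lit 9) n6978 (.fin (nat_lit 559034521) (nat_lit 0)))
def n6985 : Nd := .arc (nat_lit 3) n6966 (.arc (nat_lit 6) n6965 (.fin (nat_lit 88772765) (nat_lit 0)))
def n6986 : Nd := .arc (nat_lit 3) n6972 (.arc (nat_lit 9) n6971 (.fin (nat_lit 154292379) (nat_lit 0)))
def n6987 : Nd := .arc (nat_lit 3) n6984 (.arc (nat_lit 6) n6985 (.arc (nat_lit 9) n6986 (.fin (nat_lit 287969431) (nat_lit 0))))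
def n6988 : Nd := .arc (nat_lit 26) n4875 (.arc (nat_lit 29) n4871 (.arc (nat_lit 32) n4865 (.arc (nat_lit 35) n4856 (.arc (nat_lit 38) n4779 (.arc (nat_lit 41) n4775 (.arc (nat_lit 44) n4769 (.arc (nat_lit 47) n4760 (.arc (nat_lit 50) n4651 (.arc (nat_lit 53) n4647 (.arc (nat_lit 56) n4641 (.arc (nat_lit 59) n4632 (.fin (nat_lit 675737749) (nat_lit 0)))))))))))))
def n6989 : Nd := .arc (nat_lit 3) n6988 (.arc (nat_lit 40) n4872 (.arc (nat_lit 43) n4873 (.arc (nat_lit 46) n4874 (.fin (nat_lit 338088085) (nat_lit 0)))))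
def n6990 : Nd := .arc (nat_lit 26) n4779 (.arc (nat_lit 29) n4775 (.arc (nat_lit 32) n4760 (.arc (nat_lit 35) n4769 (.arc (nat_lit 38) n4875 (.arc (nat_lit 41) n4871 (.arc (nat_lit 44) n4856 (.arc (nat_lit 47) n4865 (.arc (nat_lit 62) n4651 (.arc (nat_lit 65) n4647 (.arc (nat_lit 68) n4632 (.arc (nat_lit 71) n4641 (.fin (nat_lit 338096277) (nat_lit 0)))))))))))))
def n6991 : Nd := .arc (nat_lit 3) n6990 (.arc (nat_lit 40) n4776 (.arc (nat_lit 43) n4777 (.arc (nat_lit 46) n4778 (.fin (nat_lit 675729557) (nat_lit 0)))))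
def n6992 : Nd := .arc (nat_lit 6) n6989 (.arc (nat_lit 9) n6991 (.fin (nat_lit 404107413) (nat_lit 0)))
def n6993 : Nd := .arc (nat_lit 26) n4651 (.arc (nat_lit 29) n4647 (.arc (nat_lit 32) n4632 (.arc (nat_lit 35) n4641 (.arc (nat_lit 50) n4779 (.arc (nat_lit 53) n4775 (.arc (nat_lit 56) n4769 (.arc (nat_lit 59) n4760 (.arc (nat_lit 62) n4875 (.arc (nat_lit 65) n4871 (.arc (nat_lit 68) n4865 (.arc (nat_lit 71) n4856 (.fin (nat_lit 404156565) (nat_lit 0)))))))))))))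
def n6994 : Nd := .arc (nat_lit 9) n6993 (.arc (nat_lit 64) n4648 (.arc (nat_lit 67) n4650 (.arc (nat_lit 70) n4649 (.fin (nat_lit 338063509) (nat_lit 0)))))
def n6995 : Nd := .arc (nat_lit 6) n6990 (.arc (nat_lit 52) n4776 (.arc (nat_lit 55) n4777 (.arc (nat_lit 58) n4778 (.fin (nat_lit 404140181) (nat_lit 0)))))
def n6996 : Nd := .arc (nat_lit 3) n6994 (.arc (nat_lit 6) n6995 (.fin (nat_lit 675713173) (nat_lit 0)))
def n6997 : Nd := .arc (nat_lit 6) n6993 (.arc (nat_lit 52) n4648 (.arc (nat_lit 55) n4649 (.arc (nat_lit 58) n4650 (.fin (nat_lit 675721365) (nat_lit 0)))))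
def n6998 : Nd := .arc (nat_lit 9) n6988 (.arc (nat_lit 64) n4872 (.arc (nat_lit 67) n4874 (.arc (nat_lit 70) n4873 (.fin (nat_lit 404123797) (nat_lit 0)))))
def n6999 : Nd := .arc (nat_lit 3) n6997 (.arc (nat_lit 9) n6998 (.fin (nat_lit 338055317) (nat_lit 0)))
def n7000 : Nd := .arc (nat_lit 3) n6992 (.arc (nat_lit 6) n6996 (.arc (nat_lit 9) n6999 (.fin (nat_lit 604901525) (nat_lit 0))))
def n7001 : Nd := .arc (nat_lit 6) n6991 (.arc (nat_lit 9) n6989 (.fin (nat_lit 604909717) (nat_lit 0)))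
def n7002 : Nd := .arc (nat_lit 38) n4651 (.arc (nat_lit 41) n4647 (.arc (nat_lit 44) n4641 (.arc (nat_lit 47) n4632 (.arc (nat_lit 50) n4875 (.arc (nat_lit 53) n4871 (.arc (nat_lit 56) n4856 (.arc (nat_lit 59) n4865 (.arc (nat_lit 62) n4779 (.arc (nat_lit 65) n4775 (.arc (nat_lit 68) n4760 (.arc (nat_lit 71) n4769 (.fin (nat_lit 604958869) (nat_lit 0)))))))))))))
def n7003 : Nd := .arc (nat_lit 9) n7002 (.fin (nat_lit 675704981) (nat_lit 0))
def n7004 : Nd := .arc (nat_lit 6) n6988 (.arc (nat_lit 52) n4872 (.arc (nat_lit 55) n4873 (.arc (nat_lit 58) n4874 (.fin (nat_lit 604942485) (nat_lit 0)))))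
def n7005 : Nd := .arc (nat_lit 3) n7003 (.arc (nat_lit 6) n7004 (.fin (nat_lit 338071701) (nat_lit 0)))
def n7006 : Nd := .arc (nat_lit 6) n7002 (.fin (nat_lit 338079893) (nat_lit 0))
def n7007 : Nd := .arc (nat_lit 9) n6990 (.arc (nat_lit 64) n4776 (.arc (nat_lit 67) n4778 (.arc (nat_lit 70) n4777 (.fin (nat_lit 604926101) (nat_lit 0)))))
def n7008 : Nd := .arc (nat_lit 3) n7006 (.arc (nat_lit 9) n7007 (.fin (nat_lit 675696789) (nat_lit 0)))
def n7009 : Nd := .arc (nat_lit 3) n7001 (.arc (nat_lit 6) n7005 (.arc (nat_lit 9) n7008 (.fin (nat_lit 404099221) (nat_lit 0))))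
def n7010 : Nd := .arc (nat_lit 3) n6993 (.arc (nat_lit 40) n4648 (.arc (nat_lit 43) n4649 (.arc (nat_lit 46) n4650 (.fin (nat_lit 604950677) (nat_lit 0)))))
def n7011 : Nd := .arc (nat_lit 3) n7002 (.fin (nat_lit 404148373) (nat_lit 0))
def n7012 : Nd := .arc (nat_lit 6) n7010 (.arc (nat_lit 9) n7011 (.fin (nat_lit 338047125) (nat_lit 0)))
def n7013 : Nd := .arc (nat_lit 3) n7007 (.arc (nat_lit 6) n7006 (.fin (nat_lit 404131989) (nat_lit 0)))
def n7014 : Nd := .arc (nat_lit 3) n6995 (.arc (nat_lit 9) n6994 (.fin (nat_lit 604917909) (nat_lit 0)))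
def n7015 : Nd := .arc (nat_lit 3) n7012 (.arc (nat_lit 6) n7013 (.arc (nat_lit 9) n7014 (.fin (nat_lit 675680405) (nat_lit 0))))
def n7016 : Nd := .arc (nat_lit 6) n7011 (.arc (nat_lit 9) n7010 (.fin (nat_lit 675688597) (nat_lit 0)))
def n7017 : Nd := .arc (nat_lit 3) n6998 (.arc (nat_lit 6) n6997 (.fin (nat_lit 604934293) (nat_lit 0)))
def n7018 : Nd := .arc (nat_lit 3) n7004 (.arc (nat_lit 9) n7003 (.fin (nat_lit 404115605) (nat_lit 0)))
def n7019 : Nd := .arc (nat_lit 3) n7016 (.arc (nat_lit 6) n7017 (.arc (nat_lit 9) n7018 (.fin (nat_lit 338038933) (nat_lit 0))))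
def n7020 : Nd := .arc (nat_lit 14) n6904 (.arc (nat_lit 17) n6913 (.arc (nat_lit 20) n6919 (.arc (nat_lit 23) n6923 (.arc (nat_lit 26) n6936 (.arc (nat_lit 29) n6945 (.arc (nat_lit 32) n6951 (.arc (nat_lit 35) n6955 (.arc (nat_lit 38) n6968 (.arc (nat_lit 41) n6977 (.arc (nat_lit 44) n6983 (.arc (nat_lit 47) n6987 (.arc (nat_lit 50) n7000 (.arc (nat_lit 53) n7009 (.arc (nat_lit 56) n7015 (.arc (nat_lit 59) n7019 (.fin (nat_lit 155381917) (nat_lit 0)))))))))))))))))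
def n7021 : Nd := .arc (nat_lit 3) n7020 (.arc (nat_lit 40) n6928 (.arc (nat_lit 43) n6932 (.arc (nat_lit 46) n6935 (.fin (nat_lit 86167707) (nat_lit 0)))))
def n7022 : Nd := .arc (nat_lit 14) n6913 (.arc (nat_lit 17) n6904 (.arc (nat_lit 20) n6923 (.arc (nat_lit 23) n6919 (.arc (nat_lit 26) n6968 (.arc (nat_lit 29) n6977 (.arc (nat_lit 32) n6987 (.arc (nat_lit 35) n6983 (.arc (nat_lit 38) n6936 (.arc (nat_lit 41) n6945 (.arc (nat_lit 44) n6955 (.arc (nat_lit 47) n6951 (.arc (nat_lit 62) n7000 (.arc (nat_lit 65) n7009 (.arc (nat_lit 68) n7019 (.arc (nat_lit 71) n7015 (.fin (nat_lit 86175899) (nat_lit 0)))))))))))))))))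
def n7023 : Nd := .arc (nat_lit 3) n7022 (.arc (nat_lit 40) n6960 (.arc (nat_lit 43) n6964 (.arc (nat_lit 46) n6967 (.fin (nat_lit 155373725) (nat_lit 0)))))
def n7024 : Nd := .arc (nat_lit 6) n7021 (.arc (nat_lit 9) n7023 (.fin (nat_lit 286404761) (nat_lit 0)))
def n7025 : Nd := .arc (nat_lit 14) n6919 (.arc (nat_lit 17) n6923 (.arc (nat_lit 20) n6913 (.arc (nat_lit 23) n6904 (.arc (nat_lit 26) n7000 (.arc (nat_lit 29) n7009 (.arc (nat_lit 32) n7019 (.arc (nat_lit 35) n7015 (.arc (nat_lit 50) n6968 (.arc (nat_lit 53) n6977 (.arc (nat_lit 56) n6983 (.arc (nat_lit 59) n6987 (.arc (nat_lit 62) n6936 (.arc (nat_lit 65) n6945 (.arc (nat_lit 68) n6951 (.arc (nat_lit 71) n6955 (.fin (nat_lit 286453913) (nat_lit 0)))))))))))))))))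
def n7026 : Nd := .arc (nat_lit 9) n7025 (.arc (nat_lit 64) n6992 (.arc (nat_lit 67) n6999 (.arc (nat_lit 70) n6996 (.fin (nat_lit 86143131) (nat_lit 0)))))
def n7027 : Nd := .arc (nat_lit 6) n7022 (.arc (nat_lit 52) n6960 (.arc (nat_lit 55) n6964 (.arc (nat_lit 58) n6967 (.fin (nat_lit 286437529) (nat_lit 0)))))
def n7028 : Nd := .arc (nat_lit 3) n7026 (.arc (nat_lit 6) n7027 (.fin (nat_lit 155357341) (nat_lit 0)))
def n7029 : Nd := .arc (nat_lit 6) n7025 (.arc (nat_lit 52) n6992 (.arc (nat_lit 55) n6996 (.arc (nat_lit 58) n6999 (.fin (nat_lit 155365533) (nat_lit 0)))))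
def n7030 : Nd := .arc (nat_lit 9) n7020 (.arc (nat_lit 64) n6928 (.arc (nat_lit 67) n6935 (.arc (nat_lit 70) n6932 (.fin (nat_lit 286421145) (nat_lit 0)))))
def n7031 : Nd := .arc (nat_lit 3) n7029 (.arc (nat_lit 9) n7030 (.fin (nat_lit 86134939) (nat_lit 0)))
def n7032 : Nd := .arc (nat_lit 3) n7024 (.arc (nat_lit 6) n7028 (.arc (nat_lit 9) n7031 (.fin (nat_lit 554307735) (nat_lit 0))))
def n7033 : Nd := .arc (nat_lit 6) n7023 (.arc (nat_lit 9) n7021 (.fin (nat_lit 554315927) (nat_lit 0)))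
def n7034 : Nd := .arc (nat_lit 14) n6923 (.arc (nat_lit 17) n6919 (.arc (nat_lit 20) n6904 (.arc (nat_lit 23) n6913 (.arc (nat_lit 38) n7000 (.arc (nat_lit 41) n7009 (.arc (nat_lit 44) n7015 (.arc (nat_lit 47) n7019 (.arc (nat_lit 50) n6936 (.arc (nat_lit 53) n6945 (.arc (nat_lit 56) n6955 (.arc (nat_lit 59) n6951 (.arc (nat_lit 62) n6968 (.arc (nat_lit 65) n6977 (.arc (nat_lit 68) n6987 (.arc (nat_lit 71) n6983 (.fin (nat_lit 554365079) (nat_lit 0)))))))))))))))))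
def n7035 : Nd := .arc (nat_lit 9) n7034 (.fin (nat_lit 155349149) (nat_lit 0))
def n7036 : Nd := .arc (nat_lit 6) n7020 (.arc (nat_lit 52) n6928 (.arc (nat_lit 55) n6932 (.arc (nat_lit 58) n6935 (.fin (nat_lit 554348695) (nat_lit 0)))))
def n7037 : Nd := .arc (nat_lit 3) n7035 (.arc (nat_lit 6) n7036 (.fin (nat_lit 86151323) (nat_lit 0)))
def n7038 : Nd := .arc (nat_lit 6) n7034 (.fin (nat_lit 86159515) (nat_lit 0))
def n7039 : Nd := .arc (nat_lit 9) n7022 (.arc (nat_lit 64) n6960 (.arc (nat_lit 67) n6967 (.arc (nat_lit 70) n6964 (.fin (nat_lit 554332311) (nat_lit 0)))))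
def n7040 : Nd := .arc (nat_lit 3) n7038 (.arc (nat_lit 9) n7039 (.fin (nat_lit 155340957) (nat_lit 0)))
def n7041 : Nd := .arc (nat_lit 3) n7033 (.arc (nat_lit 6) n7037 (.arc (nat_lit 9) n7040 (.fin (nat_lit 286396569) (nat_lit 0))))
def n7042 : Nd := .arc (nat_lit 3) n7034 (.fin (nat_lit 286445721) (nat_lit 0))
def n7043 : Nd := .arc (nat_lit 3) n7025 (.arc (nat_lit 40) n6992 (.arc (nat_lit 43) n6996 (.arc (nat_lit 46) n6999 (.fin (nat_lit 554356887) (nat_lit 0)))))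
def n7044 : Nd := .arc (nat_lit 6) n7042 (.arc (nat_lit 9) n7043 (.fin (nat_lit 155332765) (nat_lit 0)))
def n7045 : Nd := .arc (nat_lit 3) n7030 (.arc (nat_lit 6) n7029 (.fin (nat_lit 554340503) (nat_lit 0)))
def n7046 : Nd := .arc (nat_lit 3) n7036 (.arc (nat_lit 9) n7035 (.fin (nat_lit 286412953) (nat_lit 0)))
def n7047 : Nd := .arc (nat_lit 3) n7044 (.arc (nat_lit 6) n7045 (.arc (nat_lit 9) n7046 (.fin (nat_lit 86118555) (nat_lit 0))))
def n7048 : Nd := .arc (nat_lit 6) n7043 (.arc (nat_lit 9) n7042 (.fin (nat_lit 86126747) (nat_lit 0)))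
def n7049 : Nd := .arc (nat_lit 3) n7039 (.arc (nat_lit 6) n7038 (.fin (nat_lit 286429337) (nat_lit 0)))
def n7050 : Nd := .arc (nat_lit 3) n7027 (.arc (nat_lit 9) n7026 (.fin (nat_lit 554324119) (nat_lit 0)))
def n7051 : Nd := .arc (nat_lit 3) n7048 (.arc (nat_lit 6) n7049 (.arc (nat_lit 9) n7050 (.fin (nat_lit 155324573) (nat_lit 0))))
def n7052 : Nd := .arc (nat_lit 3) n4486 (.arc (nat_lit 6) n4487 (.arc (nat_lit 14) n5528 (.arc (nat_lit 17) n5537 (.arc (nat_lit 20) n5543 (.arc (nat_lit 23) n5547 (.arc (nat_lit 26) n6200 (.arc (nat_lit 29) n6209 (.arc (nat_lit 32) n6215 (.arc (nat_lit 35) n6219 (.arc (nat_lit 38) n6616 (.arc (nat_lit 40) n3174 (.arc (nat_lit 41) n6625 (.arc (nat_lit 43) n3178 (.arc (nat_lit 44) n6631 (.arc (nat_lit 46) n3181 (.arc (nat_lit 47) n6635 (.arc (nat_lit 50) n6872 (.arc (nat_lit 52) n3014 (.arc (nat_lit 53) n6881 (.arc (nat_lit 55) n3018 (.arc (nat_lit 56) n6887 (.arc (nat_lit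 58) n3021 (.arc (nat_lit 59) n6891 (.arc (nat_lit 62) n7032 (.arc (nat_lit 65) n7041 (.arc (nat_lit 68) n7047 (.arc (nat_lit 71) n7051 (.fin (nat_lit 604147731) (nat_lit 0)))))))))))))))))))))))))))))
def n7053 : Nd := .arc (nat_lit 3) n4487 (.arc (nat_lit 9) n4486 (.arc (nat_lit 14) n5547 (.arc (nat_lit 17) n5543 (.arc (nat_lit 20) n5528 (.arc (nat_lit 23) n5537 (.arc (nat_lit 26) n7032 (.arc (nat_lit 29) n7041 (.arc (nat_lit 32) n7047 (.arc (nat_lit 35) n7051 (.arc (nat_lit 38) n6872 (.arc (nat_lit 40) n3014 (.arc (nat_lit 41) n6881 (.arc (nat_lit 43) n3018 (.arc (nat_lit 44) n6887 (.arc (nat_lit 46) n3021 (.arc (nat_lit 47) n6891 (.arc (nat_lit 50) n6200 (.arc (nat_lit 53) n6209 (.arc (nat_lit 56) n6219 (.arc (nat_lit 59) n6215 (.arc (nat_lit 62) n6616 (.arc (nat_lit 64) n3174 (.arc (nat_lit 65) n6625 (.arc (nat_lit 67) n3181 (.arc (nat_lit 68) n6635 (.arc (nat_lit 70) n3178 (.arc (nat_lit 71) n6631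 (.fin (nat_lit 335695891) (nat_lit 0)))))))))))))))))))))))))))))
def n7054 : Nd := .fin (nat_lit 545157395) (nat_lit 1)
def n7055 : Nd := .arc (nat_lit 3) n7054 (.fin (nat_lit 276730131) (nat_lit 0))
def n7056 : Nd := .fin (nat_lit 276738323) (nat_lit 1)
def n7057 : Nd := .arc (nat_lit 3) n7056 (.fin (nat_lit 545149203) (nat_lit 0))
def n7058 : Nd := .arc (nat_lit 6) n7055 (.arc (nat_lit 9) n7057 (.fin (nat_lit 142479635) (nat_lit 0)))
def n7059 : Nd := .fin (nat_lit 142528787) (nat_lit 1)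
def n7060 : Nd := .arc (nat_lit 9) n7059 (.fin (nat_lit 276705555) (nat_lit 0))
def n7061 : Nd := .arc (nat_lit 6) n7056 (.fin (nat_lit 142512403) (nat_lit 0))
def n7062 : Nd := .arc (nat_lit 3) n7060 (.arc (nat_lit 6) n7061 (.fin (nat_lit 545132819) (nat_lit 0)))
def n7063 : Nd := .arc (nat_lit 6) n7059 (.fin (nat_lit 545141011) (nat_lit 0))
def n7064 : Nd := .arc (nat_lit 9) n7054 (.fin (nat_lit 142496019) (nat_lit 0))
def n7065 : Nd := .arc (nat_lit 3) n7063 (.arc (nat_lit 9) n7064 (.fin (nat_lit 276697363) (nat_lit 0)))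
def n7066 : Nd := .arc (nat_lit 53) n7058 (.arc (nat_lit 56) n7062 (.arc (nat_lit 59) n7065 (.fin (nat_lit 25096347) (nat_lit 0))))
def n7067 : Nd := .arc (nat_lit 3) n7066 (.fin (nat_lit 25088157) (nat_lit 0))
def n7068 : Nd := .arc (nat_lit 65) n7058 (.arc (nat_lit 68) n7065 (.arc (nat_lit 71) n7062 (.fin (nat_lit 25096349) (nat_lit 0))))
def n7069 : Nd := .arc (nat_lit 3) n7068 (.fin (nat_lit 25088155) (nat_lit 0))
def n7070 : Nd := .arc (nat_lit 6) n7067 (.arc (nat_lit 9) n7069 (.fin (nat_lit 25047191) (nat_lit 0)))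
def n7071 : Nd := .arc (nat_lit 29) n7058 (.arc (nat_lit 32) n7065 (.arc (nat_lit 35) n7062 (.fin (nat_lit 25096343) (nat_lit 0))))
def n7072 : Nd := .arc (nat_lit 9) n7071 (.fin (nat_lit 25063581) (nat_lit 0))
def n7073 : Nd := .arc (nat_lit 6) n7068 (.fin (nat_lit 25079959) (nat_lit 0))
def n7074 : Nd := .arc (nat_lit 3) n7072 (.arc (nat_lit 6) n7073 (.fin (nat_lit 25071771) (nat_lit 0)))
def n7075 : Nd := .arc (nat_lit 6) n7071 (.fin (nat_lit 25079963) (nat_lit 0))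
def n7076 : Nd := .arc (nat_lit 9) n7066 (.fin (nat_lit 25063575) (nat_lit 0))
def n7077 : Nd := .arc (nat_lit 3) n7075 (.arc (nat_lit 9) n7076 (.fin (nat_lit 25055389) (nat_lit 0)))
def n7078 : Nd := .arc (nat_lit 3) n7070 (.arc (nat_lit 6) n7074 (.arc (nat_lit 9) n7077 (.fin (nat_lit 25039001) (nat_lit 0))))
def n7079 : Nd := .arc (nat_lit 6) n7069 (.arc (nat_lit 9) n7067 (.fin (nat_lit 25047193) (nat_lit 0)))
def n7080 : Nd := .arc (nat_lit 41) n7058 (.arc (nat_lit 44) n7062 (.arc (nat_lit 47) n7065 (.fin (nat_lit 25096345) (nat_lit 0))))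
def n7081 : Nd := .arc (nat_lit 9) n7080 (.fin (nat_lit 25063579) (nat_lit 0))
def n7082 : Nd := .arc (nat_lit 6) n7066 (.fin (nat_lit 25079961) (nat_lit 0))
def n7083 : Nd := .arc (nat_lit 3) n7081 (.arc (nat_lit 6) n7082 (.fin (nat_lit 25071773) (nat_lit 0)))
def n7084 : Nd := .arc (nat_lit 6) n7080 (.fin (nat_lit 25079965) (nat_lit 0))
def n7085 : Nd := .arc (nat_lit 9) n7068 (.fin (nat_lit 25063577) (nat_lit 0))
def n7086 : Nd := .arc (nat_lit 3) n7084 (.arc (nat_lit 9) n7085 (.fin (nat_lit 25055387) (nat_lit 0)))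
def n7087 : Nd := .arc (nat_lit 3) n7079 (.arc (nat_lit 6) n7083 (.arc (nat_lit 9) n7086 (.fin (nat_lit 25038999) (nat_lit 0))))
def n7088 : Nd := .arc (nat_lit 3) n7080 (.fin (nat_lit 25088151) (nat_lit 0))
def n7089 : Nd := .arc (nat_lit 3) n7071 (.fin (nat_lit 25088153) (nat_lit 0))
def n7090 : Nd := .arc (nat_lit 6) n7088 (.arc (nat_lit 9) n7089 (.fin (nat_lit 25047195) (nat_lit 0)))
def n7091 : Nd := .arc (nat_lit 3) n7076 (.arc (nat_lit 6) n7075 (.fin (nat_lit 25071769) (nat_lit 0)))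
def n7092 : Nd := .arc (nat_lit 3) n7082 (.arc (nat_lit 9) n7081 (.fin (nat_lit 25055383) (nat_lit 0)))
def n7093 : Nd := .arc (nat_lit 3) n7090 (.arc (nat_lit 6) n7091 (.arc (nat_lit 9) n7092 (.fin (nat_lit 25039005) (nat_lit 0))))
def n7094 : Nd := .arc (nat_lit 6) n7089 (.arc (nat_lit 9) n7088 (.fin (nat_lit 25047197) (nat_lit 0)))
def n7095 : Nd := .arc (nat_lit 3) n7085 (.arc (nat_lit 6) n7084 (.fin (nat_lit 25071767) (nat_lit 0)))
def n7096 : Nd := .arc (nat_lit 3) n7073 (.arc (nat_lit 9) n7072 (.fin (nat_lit 25055385) (nat_lit 0)))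
def n7097 : Nd := .arc (nat_lit 3) n7094 (.arc (nat_lit 6) n7095 (.arc (nat_lit 9) n7096 (.fin (nat_lit 25039003) (nat_lit 0))))
def n7098 : Nd := .arc (nat_lit 14) n7078 (.arc (nat_lit 17) n7087 (.arc (nat_lit 20) n7093 (.arc (nat_lit 23) n7097 (.fin (nat_lit 41611417) (nat_lit 0)))))
def n7099 : Nd := .arc (nat_lit 3) n7098 (.fin (nat_lit 41603223) (nat_lit 0))
def n7100 : Nd := .arc (nat_lit 14) n7087 (.arc (nat_lit 17) n7078 (.arc (nat_lit 20) n7097 (.arc (nat_lit 23) n7093 (.fin (nat_lit 41611415) (nat_lit 0)))))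
def n7101 : Nd := .arc (nat_lit 3) n7100 (.fin (nat_lit 41603225) (nat_lit 0))
def n7102 : Nd := .arc (nat_lit 6) n7099 (.arc (nat_lit 9) n7101 (.fin (nat_lit 41562267) (nat_lit 0)))
def n7103 : Nd := .arc (nat_lit 14) n7093 (.arc (nat_lit 17) n7097 (.arc (nat_lit 20) n7087 (.arc (nat_lit 23) n7078 (.fin (nat_lit 41611419) (nat_lit 0)))))
def n7104 : Nd := .arc (nat_lit 9) n7103 (.fin (nat_lit 41578647) (nat_lit 0))
def n7105 : Nd := .arc (nat_lit 6) n7100 (.fin (nat_lit 41595035) (nat_lit 0))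
def n7106 : Nd := .arc (nat_lit 3) n7104 (.arc (nat_lit 6) n7105 (.fin (nat_lit 41586841) (nat_lit 0)))
def n7107 : Nd := .arc (nat_lit 6) n7103 (.fin (nat_lit 41595033) (nat_lit 0))
def n7108 : Nd := .arc (nat_lit 9) n7098 (.fin (nat_lit 41578651) (nat_lit 0))
def n7109 : Nd := .arc (nat_lit 3) n7107 (.arc (nat_lit 9) n7108 (.fin (nat_lit 41570455) (nat_lit 0)))
def n7110 : Nd := .arc (nat_lit 3) n7102 (.arc (nat_lit 6) n7106 (.arc (nat_lit 9) n7109 (.fin (nat_lit 41554077) (nat_lit 0))))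
def n7111 : Nd := .arc (nat_lit 6) n7101 (.arc (nat_lit 9) n7099 (.fin (nat_lit 41562269) (nat_lit 0)))
def n7112 : Nd := .arc (nat_lit 14) n7097 (.arc (nat_lit 17) n7093 (.arc (nat_lit 20) n7078 (.arc (nat_lit 23) n7087 (.fin (nat_lit 41611421) (nat_lit 0)))))
def n7113 : Nd := .arc (nat_lit 9) n7112 (.fin (nat_lit 41578649) (nat_lit 0))
def n7114 : Nd := .arc (nat_lit 6) n7098 (.fin (nat_lit 41595037) (nat_lit 0))
def n7115 : Nd := .arc (nat_lit 3) n7113 (.arc (nat_lit 6) n7114 (.fin (nat_lit 41586839) (nat_lit 0)))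
def n7116 : Nd := .arc (nat_lit 6) n7112 (.fin (nat_lit 41595031) (nat_lit 0))
def n7117 : Nd := .arc (nat_lit 9) n7100 (.fin (nat_lit 41578653) (nat_lit 0))
def n7118 : Nd := .arc (nat_lit 3) n7116 (.arc (nat_lit 9) n7117 (.fin (nat_lit 41570457) (nat_lit 0)))
def n7119 : Nd := .arc (nat_lit 3) n7111 (.arc (nat_lit 6) n7115 (.arc (nat_lit 9) n7118 (.fin (nat_lit 41554075) (nat_lit 0))))
def n7120 : Nd := .arc (nat_lit 3) n7103 (.fin (nat_lit 41603229) (nat_lit 0))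
def n7121 : Nd := .arc (nat_lit 3) n7112 (.fin (nat_lit 41603227) (nat_lit 0))
def n7122 : Nd := .arc (nat_lit 6) n7120 (.arc (nat_lit 9) n7121 (.fin (nat_lit 41562263) (nat_lit 0)))
def n7123 : Nd := .arc (nat_lit 3) n7117 (.arc (nat_lit 6) n7116 (.fin (nat_lit 41586843) (nat_lit 0)))
def n7124 : Nd := .arc (nat_lit 3) n7105 (.arc (nat_lit 9) n7104 (.fin (nat_lit 41570461) (nat_lit 0)))
def n7125 : Nd := .arc (nat_lit 3) n7122 (.arc (nat_lit 6) n7123 (.arc (nat_lit 9) n7124 (.fin (nat_lit 41554073) (nat_lit 0))))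
def n7126 : Nd := .arc (nat_lit 6) n7121 (.arc (nat_lit 9) n7120 (.fin (nat_lit 41562265) (nat_lit 0)))
def n7127 : Nd := .arc (nat_lit 3) n7108 (.arc (nat_lit 6) n7107 (.fin (nat_lit 41586845) (nat_lit 0)))
def n7128 : Nd := .arc (nat_lit 3) n7114 (.arc (nat_lit 9) n7113 (.fin (nat_lit 41570459) (nat_lit 0)))
def n7129 : Nd := .arc (nat_lit 3) n7126 (.arc (nat_lit 6) n7127 (.arc (nat_lit 9) n7128 (.fin (nat_lit 41554071) (nat_lit 0))))
def n7130 : Nd := .arc (nat_lit 62) n7058 (.arc (nat_lit 68) n7062 (.arc (nat_lit 71) n7065 (.fin (nat_lit 41873565) (nat_lit 0))))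
def n7131 : Nd := .arc (nat_lit 3) n7130 (.fin (nat_lit 41865371) (nat_lit 0))
def n7132 : Nd := .arc (nat_lit 50) n7058 (.arc (nat_lit 56) n7065 (.arc (nat_lit 59) n7062 (.fin (nat_lit 41873563) (nat_lit 0))))
def n7133 : Nd := .arc (nat_lit 3) n7132 (.fin (nat_lit 41865373) (nat_lit 0))
def n7134 : Nd := .arc (nat_lit 6) n7131 (.arc (nat_lit 9) n7133 (.fin (nat_lit 41824409) (nat_lit 0)))
def n7135 : Nd := .arc (nat_lit 38) n7058 (.arc (nat_lit 44) n7065 (.arc (nat_lit 47) n7062 (.fin (nat_lit 41873561) (nat_lit 0))))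
def n7136 : Nd := .arc (nat_lit 9) n7135 (.fin (nat_lit 41840795) (nat_lit 0))
def n7137 : Nd := .arc (nat_lit 6) n7132 (.fin (nat_lit 41857177) (nat_lit 0))
def n7138 : Nd := .arc (nat_lit 3) n7136 (.arc (nat_lit 6) n7137 (.fin (nat_lit 41848989) (nat_lit 0)))
def n7139 : Nd := .arc (nat_lit 6) n7135 (.fin (nat_lit 41857181) (nat_lit 0))
def n7140 : Nd := .arc (nat_lit 9) n7130 (.fin (nat_lit 41840793) (nat_lit 0))
def n7141 : Nd := .arc (nat_lit 3) n7139 (.arc (nat_lit 9) n7140 (.fin (nat_lit 41832603) (nat_lit 0)))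
def n7142 : Nd := .arc (nat_lit 3) n7134 (.arc (nat_lit 6) n7138 (.arc (nat_lit 9) n7141 (.fin (nat_lit 41816215) (nat_lit 0))))
def n7143 : Nd := .arc (nat_lit 6) n7133 (.arc (nat_lit 9) n7131 (.fin (nat_lit 41824407) (nat_lit 0)))
def n7144 : Nd := .arc (nat_lit 26) n7058 (.arc (nat_lit 32) n7062 (.arc (nat_lit 35) n7065 (.fin (nat_lit 41873559) (nat_lit 0))))
def n7145 : Nd := .arc (nat_lit 9) n7144 (.arc (nat_lit 67) n7057 (.arc (nat_lit 70) n7055 (.fin (nat_lit 41840797) (nat_lit 0))))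
def n7146 : Nd := .arc (nat_lit 6) n7130 (.fin (nat_lit 41857175) (nat_lit 0))
def n7147 : Nd := .arc (nat_lit 3) n7145 (.arc (nat_lit 6) n7146 (.fin (nat_lit 41848987) (nat_lit 0)))
def n7148 : Nd := .arc (nat_lit 6) n7144 (.arc (nat_lit 55) n7055 (.arc (nat_lit 58) n7057 (.fin (nat_lit 41857179) (nat_lit 0))))
def n7149 : Nd := .arc (nat_lit 9) n7132 (.fin (nat_lit 41840791) (nat_lit 0))
def n7150 : Nd := .arc (nat_lit 3) n7148 (.arc (nat_lit 9) n7149 (.fin (nat_lit 41832605) (nat_lit 0)))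
def n7151 : Nd := .arc (nat_lit 3) n7143 (.arc (nat_lit 6) n7147 (.arc (nat_lit 9) n7150 (.fin (nat_lit 41816217) (nat_lit 0))))
def n7152 : Nd := .arc (nat_lit 3) n7144 (.arc (nat_lit 43) n7055 (.arc (nat_lit 46) n7057 (.fin (nat_lit 41865369) (nat_lit 0))))
def n7153 : Nd := .arc (nat_lit 3) n7135 (.fin (nat_lit 41865367) (nat_lit 0))
def n7154 : Nd := .arc (nat_lit 6) n7152 (.arc (nat_lit 9) n7153 (.fin (nat_lit 41824413) (nat_lit 0)))
def n7155 : Nd := .arc (nat_lit 3) n7140 (.arc (nat_lit 6) n7139 (.fin (nat_lit 41848983) (nat_lit 0)))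
def n7156 : Nd := .arc (nat_lit 3) n7146 (.arc (nat_lit 9) n7145 (.fin (nat_lit 41832601) (nat_lit 0)))
def n7157 : Nd := .arc (nat_lit 3) n7154 (.arc (nat_lit 6) n7155 (.arc (nat_lit 9) n7156 (.fin (nat_lit 41816219) (nat_lit 0))))
def n7158 : Nd := .arc (nat_lit 6) n7153 (.arc (nat_lit 9) n7152 (.fin (nat_lit 41824411) (nat_lit 0)))
def n7159 : Nd := .arc (nat_lit 3) n7149 (.arc (nat_lit 6) n7148 (.fin (nat_lit 41848985) (nat_lit 0)))
def n7160 : Nd := .arc (nat_lit 3) n7137 (.arc (nat_lit 9) n7136 (.fin (nat_lit 41832599) (nat_lit 0)))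
def n7161 : Nd := .arc (nat_lit 3) n7158 (.arc (nat_lit 6) n7159 (.arc (nat_lit 9) n7160 (.fin (nat_lit 41816221) (nat_lit 0))))
def n7162 : Nd := .arc (nat_lit 14) n7142 (.arc (nat_lit 17) n7151 (.arc (nat_lit 20) n7157 (.arc (nat_lit 23) n7161 (.fin (nat_lit 24834199) (nat_lit 0)))))
def n7163 : Nd := .arc (nat_lit 3) n7162 (.fin (nat_lit 24826009) (nat_lit 0))
def n7164 : Nd := .arc (nat_lit 14) n7151 (.arc (nat_lit 17) n7142 (.arc (nat_lit 20) n7161 (.arc (nat_lit 23) n7157 (.fin (nat_lit 24834201) (nat_lit 0)))))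
def n7165 : Nd := .arc (nat_lit 3) n7164 (.fin (nat_lit 24826007) (nat_lit 0))
def n7166 : Nd := .arc (nat_lit 6) n7163 (.arc (nat_lit 9) n7165 (.fin (nat_lit 24785053) (nat_lit 0)))
def n7167 : Nd := .arc (nat_lit 14) n7157 (.arc (nat_lit 17) n7161 (.arc (nat_lit 20) n7151 (.arc (nat_lit 23) n7142 (.fin (nat_lit 24834205) (nat_lit 0)))))
def n7168 : Nd := .arc (nat_lit 9) n7167 (.fin (nat_lit 24801433) (nat_lit 0))
def n7169 : Nd := .arc (nat_lit 6) n7164 (.fin (nat_lit 24817821) (nat_lit 0))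
def n7170 : Nd := .arc (nat_lit 3) n7168 (.arc (nat_lit 6) n7169 (.fin (nat_lit 24809623) (nat_lit 0)))
def n7171 : Nd := .arc (nat_lit 6) n7167 (.fin (nat_lit 24817815) (nat_lit 0))
def n7172 : Nd := .arc (nat_lit 9) n7162 (.fin (nat_lit 24801437) (nat_lit 0))
def n7173 : Nd := .arc (nat_lit 3) n7171 (.arc (nat_lit 9) n7172 (.fin (nat_lit 24793241) (nat_lit 0)))
def n7174 : Nd := .arc (nat_lit 3) n7166 (.arc (nat_lit 6) n7170 (.arc (nat_lit 9) n7173 (.fin (nat_lit 24776859) (nat_lit 0))))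
def n7175 : Nd := .arc (nat_lit 6) n7165 (.arc (nat_lit 9) n7163 (.fin (nat_lit 24785051) (nat_lit 0)))
def n7176 : Nd := .arc (nat_lit 14) n7161 (.arc (nat_lit 17) n7157 (.arc (nat_lit 20) n7142 (.arc (nat_lit 23) n7151 (.fin (nat_lit 24834203) (nat_lit 0)))))
def n7177 : Nd := .arc (nat_lit 9) n7176 (.fin (nat_lit 24801431) (nat_lit 0))
def n7178 : Nd := .arc (nat_lit 6) n7162 (.fin (nat_lit 24817819) (nat_lit 0))
def n7179 : Nd := .arc (nat_lit 3) n7177 (.arc (nat_lit 6) n7178 (.fin (nat_lit 24809625) (nat_lit 0)))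
def n7180 : Nd := .arc (nat_lit 6) n7176 (.fin (nat_lit 24817817) (nat_lit 0))
def n7181 : Nd := .arc (nat_lit 9) n7164 (.fin (nat_lit 24801435) (nat_lit 0))
def n7182 : Nd := .arc (nat_lit 3) n7180 (.arc (nat_lit 9) n7181 (.fin (nat_lit 24793239) (nat_lit 0)))
def n7183 : Nd := .arc (nat_lit 3) n7175 (.arc (nat_lit 6) n7179 (.arc (nat_lit 9) n7182 (.fin (nat_lit 24776861) (nat_lit 0))))
def n7184 : Nd := .arc (nat_lit 3) n7176 (.fin (nat_lit 24826013) (nat_lit 0))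
def n7185 : Nd := .arc (nat_lit 3) n7167 (.fin (nat_lit 24826011) (nat_lit 0))
def n7186 : Nd := .arc (nat_lit 6) n7184 (.arc (nat_lit 9) n7185 (.fin (nat_lit 24785047) (nat_lit 0)))
def n7187 : Nd := .arc (nat_lit 3) n7172 (.arc (nat_lit 6) n7171 (.fin (nat_lit 24809627) (nat_lit 0)))
def n7188 : Nd := .arc (nat_lit 3) n7178 (.arc (nat_lit 9) n7177 (.fin (nat_lit 24793245) (nat_lit 0)))
def n7189 : Nd := .arc (nat_lit 3) n7186 (.arc (nat_lit 6) n7187 (.arc (nat_lit 9) n7188 (.fin (nat_lit 24776857) (nat_lit 0))))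
def n7190 : Nd := .arc (nat_lit 6) n7185 (.arc (nat_lit 9) n7184 (.fin (nat_lit 24785049) (nat_lit 0)))
def n7191 : Nd := .arc (nat_lit 3) n7181 (.arc (nat_lit 6) n7180 (.fin (nat_lit 24809629) (nat_lit 0)))
def n7192 : Nd := .arc (nat_lit 3) n7169 (.arc (nat_lit 9) n7168 (.fin (nat_lit 24793243) (nat_lit 0)))
def n7193 : Nd := .arc (nat_lit 3) n7190 (.arc (nat_lit 6) n7191 (.arc (nat_lit 9) n7192 (.fin (nat_lit 24776855) (nat_lit 0))))
def n7194 : Nd := .arc (nat_lit 50) n7110 (.arc (nat_lit 53) n7119 (.arc (nat_lit 56) n7125 (.arc (nat_lit 59) n7129 (.arc (nat_lit 62) n7174 (.arc (nat_lit 65) n7183 (.arc (nat_lit 68) n7189 (.arc (nat_lit 71) n7193 (.fin (nat_lit 538898585) (nat_lit 0)))))))))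
def n7195 : Nd := .arc (nat_lit 3) n7194 (.fin (nat_lit 270454935) (nat_lit 0))
def n7196 : Nd := .arc (nat_lit 50) n7174 (.arc (nat_lit 53) n7183 (.arc (nat_lit 56) n7193 (.arc (nat_lit 59) n7189 (.arc (nat_lit 62) n7110 (.arc (nat_lit 65) n7119 (.arc (nat_lit 68) n7129 (.arc (nat_lit 71) n7125 (.fin (nat_lit 270463127) (nat_lit 0)))))))))
def n7197 : Nd := .arc (nat_lit 3) n7196 (.fin (nat_lit 538890393) (nat_lit 0))
def n7198 : Nd := .arc (nat_lit 6) n7195 (.arc (nat_lit 9) n7197 (.fin (nat_lit 140914843) (nat_lit 0)))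
def n7199 : Nd := .arc (nat_lit 26) n7110 (.arc (nat_lit 29) n7119 (.arc (nat_lit 32) n7129 (.arc (nat_lit 35) n7125 (.arc (nat_lit 38) n7174 (.arc (nat_lit 41) n7183 (.arc (nat_lit 44) n7193 (.arc (nat_lit 47) n7189 (.fin (nat_lit 140963995) (nat_lit 0)))))))))
def n7200 : Nd := .arc (nat_lit 9) n7199 (.arc (nat_lit 64) n7102 (.arc (nat_lit 67) n7109 (.arc (nat_lit 70) n7106 (.fin (nat_lit 270430359) (nat_lit 0)))))
def n7201 : Nd := .arc (nat_lit 6) n7196 (.fin (nat_lit 140947611) (nat_lit 0))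
def n7202 : Nd := .arc (nat_lit 3) n7200 (.arc (nat_lit 6) n7201 (.fin (nat_lit 538874009) (nat_lit 0)))
def n7203 : Nd := .arc (nat_lit 6) n7199 (.arc (nat_lit 52) n7102 (.arc (nat_lit 55) n7106 (.arc (nat_lit 58) n7109 (.fin (nat_lit 538882201) (nat_lit 0)))))
def n7204 : Nd := .arc (nat_lit 9) n7194 (.fin (nat_lit 140931227) (nat_lit 0))
def n7205 : Nd := .arc (nat_lit 3) n7203 (.arc (nat_lit 9) n7204 (.fin (nat_lit 270422167) (nat_lit 0)))
def n7206 : Nd := .arc (nat_lit 3) n7198 (.arc (nat_lit 6) n7202 (.arc (nat_lit 9) n7205 (.fin (nat_lit 73797789) (nat_lit 0))))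
def n7207 : Nd := .arc (nat_lit 6) n7197 (.arc (nat_lit 9) n7195 (.fin (nat_lit 73805981) (nat_lit 0)))
def n7208 : Nd := .arc (nat_lit 26) n7174 (.arc (nat_lit 29) n7183 (.arc (nat_lit 32) n7189 (.arc (nat_lit 35) n7193 (.arc (nat_lit 38) n7110 (.arc (nat_lit 41) n7119 (.arc (nat_lit 44) n7125 (.arc (nat_lit 47) n7129 (.fin (nat_lit 73855133) (nat_lit 0)))))))))
def n7209 : Nd := .arc (nat_lit 9) n7208 (.arc (nat_lit 64) n7166 (.arc (nat_lit 67) n7173 (.arc (nat_lit 70) n7170 (.fin (nat_lit 538865817) (nat_lit 0)))))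
def n7210 : Nd := .arc (nat_lit 6) n7194 (.fin (nat_lit 73838749) (nat_lit 0))
def n7211 : Nd := .arc (nat_lit 3) n7209 (.arc (nat_lit 6) n7210 (.fin (nat_lit 270438551) (nat_lit 0)))
def n7212 : Nd := .arc (nat_lit 6) n7208 (.arc (nat_lit 52) n7166 (.arc (nat_lit 55) n7170 (.arc (nat_lit 58) n7173 (.fin (nat_lit 270446743) (nat_lit 0)))))
def n7213 : Nd := .arc (nat_lit 9) n7196 (.fin (nat_lit 73822365) (nat_lit 0))
def n7214 : Nd := .arc (nat_lit 3) n7212 (.arc (nat_lit 9) n7213 (.fin (nat_lit 538857625) (nat_lit 0)))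
def n7215 : Nd := .arc (nat_lit 3) n7207 (.arc (nat_lit 6) n7211 (.arc (nat_lit 9) n7214 (.fin (nat_lit 140906651) (nat_lit 0))))
def n7216 : Nd := .arc (nat_lit 3) n7208 (.arc (nat_lit 40) n7166 (.arc (nat_lit 43) n7170 (.arc (nat_lit 46) n7173 (.fin (nat_lit 140955803) (nat_lit 0)))))
def n7217 : Nd := .arc (nat_lit 3) n7199 (.arc (nat_lit 40) n7102 (.arc (nat_lit 43) n7106 (.arc (nat_lit 46) n7109 (.fin (nat_lit 73846941) (nat_lit 0)))))
def n7218 : Nd := .arc (nat_lit 6) n7216 (.arc (nat_lit 9) n7217 (.fin (nat_lit 538849433) (nat_lit 0)))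
def n7219 : Nd := .arc (nat_lit 3) n7204 (.arc (nat_lit 6) n7203 (.fin (nat_lit 73830557) (nat_lit 0)))
def n7220 : Nd := .arc (nat_lit 3) n7210 (.arc (nat_lit 9) n7209 (.fin (nat_lit 140923035) (nat_lit 0)))

end

end Pool.Agent.Lib.MP_5854e1_co.Da
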