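import Pool.Agent.Lib.MP_5854e1_co.DartD

/-!
# The check of the automaton
-/

set_option autoImplicit false

namespace Pool.Agent.Lib.MP_5854e1_co.Da

theorem chk_root : chkN n9626 = true := by decide +kernel

theorem goodB_root : goodB n9626 = true := by decide +kernel

theorem good_root : n9626.Good := good_of_goodB chk_root goodB_root

end Pool.Agent.Lib.MP_5854e1_co.Da
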