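import Pool.Agent.Lib.MP_5854e1_co.DartC

/-!
# The nodes of the automaton, part 4
-/

set_option autoImplicit false

namespace Pool.Agent.Lib.MP_5854e1_co.Da

noncomputable section

def n7221 : Nd := .arc (nat_lit 3) n7218 (.arc (nat_lit 6) n7219 (.arc (nat_lit 9) n7220 (.fin (nat_lit 270405783) (nat_lit 0))))
def n7222 : Nd := .arc (nat_lit 6) n7217 (.arc (nat_lit 9) n7216 (.fin (nat_lit 270413975) (nat_lit 0)))
def n7223 : Nd := .arc (nat_lit 3) n7213 (.arc (nat_lit 6) n7212 (.fin (nat_lit 140939419) (nat_lit 0)))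
def n7224 : Nd := .arc (nat_lit 3) n7201 (.arc (nat_lit 9) n7200 (.fin (nat_lit 73814173) (nat_lit 0)))
def n7225 : Nd := .arc (nat_lit 3) n7222 (.arc (nat_lit 6) n7223 (.arc (nat_lit 9) n7224 (.fin (nat_lit 538841241) (nat_lit 0))))
def n7226 : Nd := .arc (nat_lit 26) n7062 (.arc (nat_lit 29) n7065 (.arc (nat_lit 35) n7058 (.fin (nat_lit 276754583) (nat_lit 0))))
def n7227 : Nd := .arc (nat_lit 3) n7226 (.arc (nat_lit 40) n7060 (.arc (nat_lit 43) n7061 (.fin (nat_lit 545181849) (nat_lit 0))))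
def n7228 : Nd := .arc (nat_lit 38) n7062 (.arc (nat_lit 41) n7065 (.arc (nat_lit 44) n7058 (.fin (nat_lit 545190041) (nat_lit 0))))
def n7229 : Nd := .arc (nat_lit 3) n7228 (.fin (nat_lit 276746391) (nat_lit 0))
def n7230 : Nd := .arc (nat_lit 6) n7227 (.arc (nat_lit 9) n7229 (.fin (nat_lit 75378845) (nat_lit 0)))
def n7231 : Nd := .arc (nat_lit 62) n7062 (.arc (nat_lit 65) n7065 (.arc (nat_lit 71) n7058 (.fin (nat_lit 75427997) (nat_lit 0))))
def n7232 : Nd := .arc (nat_lit 9) n7231 (.fin (nat_lit 545157273) (nat_lit 0))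
def n7233 : Nd := .arc (nat_lit 6) n7228 (.fin (nat_lit 75411613) (nat_lit 0))
def n7234 : Nd := .arc (nat_lit 3) n7232 (.arc (nat_lit 6) n7233 (.fin (nat_lit 276730007) (nat_lit 0)))
def n7235 : Nd := .arc (nat_lit 6) n7231 (.fin (nat_lit 276738199) (nat_lit 0))
def n7236 : Nd := .arc (nat_lit 9) n7226 (.arc (nat_lit 64) n7060 (.arc (nat_lit 70) n7061 (.fin (nat_lit 75395229) (nat_lit 0))))
def n7237 : Nd := .arc (nat_lit 3) n7235 (.arc (nat_lit 9) n7236 (.fin (nat_lit 545149081) (nat_lit 0)))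
def n7238 : Nd := .arc (nat_lit 3) n7230 (.arc (nat_lit 6) n7234 (.arc (nat_lit 9) n7237 (.fin (nat_lit 142479515) (nat_lit 0))))
def n7239 : Nd := .arc (nat_lit 6) n7229 (.arc (nat_lit 9) n7227 (.fin (nat_lit 142487707) (nat_lit 0)))
def n7240 : Nd := .arc (nat_lit 50) n7062 (.arc (nat_lit 53) n7065 (.arc (nat_lit 56) n7058 (.fin (nat_lit 142536859) (nat_lit 0))))
def n7241 : Nd := .arc (nat_lit 9) n7240 (.fin (nat_lit 276721815) (nat_lit 0))
def n7242 : Nd := .arc (nat_lit 6) n7226 (.arc (nat_lit 52) n7060 (.arc (nat_lit 55) n7061 (.fin (nat_lit 142520475) (nat_lit 0))))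
def n7243 : Nd := .arc (nat_lit 3) n7241 (.arc (nat_lit 6) n7242 (.fin (nat_lit 545165465) (nat_lit 0)))
def n7244 : Nd := .arc (nat_lit 6) n7240 (.fin (nat_lit 545173657) (nat_lit 0))
def n7245 : Nd := .arc (nat_lit 9) n7228 (.fin (nat_lit 142504091) (nat_lit 0))
def n7246 : Nd := .arc (nat_lit 3) n7244 (.arc (nat_lit 9) n7245 (.fin (nat_lit 276713623) (nat_lit 0)))
def n7247 : Nd := .arc (nat_lit 3) n7239 (.arc (nat_lit 6) n7243 (.arc (nat_lit 9) n7246 (.fin (nat_lit 75370653) (nat_lit 0))))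
def n7248 : Nd := .arc (nat_lit 3) n7231 (.fin (nat_lit 142528667) (nat_lit 0))
def n7249 : Nd := .arc (nat_lit 3) n7240 (.fin (nat_lit 75419805) (nat_lit 0))
def n7250 : Nd := .arc (nat_lit 6) n7248 (.arc (nat_lit 9) n7249 (.fin (nat_lit 545140889) (nat_lit 0)))
def n7251 : Nd := .arc (nat_lit 3) n7245 (.arc (nat_lit 6) n7244 (.fin (nat_lit 75403421) (nat_lit 0)))
def n7252 : Nd := .arc (nat_lit 3) n7233 (.arc (nat_lit 9) n7232 (.fin (nat_lit 142495899) (nat_lit 0)))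
def n7253 : Nd := .arc (nat_lit 3) n7250 (.arc (nat_lit 6) n7251 (.arc (nat_lit 9) n7252 (.fin (nat_lit 276697239) (nat_lit 0))))
def n7254 : Nd := .arc (nat_lit 6) n7249 (.arc (nat_lit 9) n7248 (.fin (nat_lit 276705431) (nat_lit 0)))
def n7255 : Nd := .arc (nat_lit 3) n7236 (.arc (nat_lit 6) n7235 (.fin (nat_lit 142512283) (nat_lit 0)))
def n7256 : Nd := .arc (nat_lit 3) n7242 (.arc (nat_lit 9) n7241 (.fin (nat_lit 75387037) (nat_lit 0)))
def n7257 : Nd := .arc (nat_lit 3) n7254 (.arc (nat_lit 6) n7255 (.arc (nat_lit 9) n7256 (.fin (nat_lit 545132697) (nat_lit 0))))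
def n7258 : Nd := .arc (nat_lit 38) n7238 (.arc (nat_lit 41) n7247 (.arc (nat_lit 44) n7253 (.arc (nat_lit 47) n7257 (.fin (nat_lit 40824987) (nat_lit 0)))))
def n7259 : Nd := .arc (nat_lit 3) n7258 (.fin (nat_lit 41341085) (nat_lit 0))
def n7260 : Nd := .arc (nat_lit 26) n7238 (.arc (nat_lit 29) n7247 (.arc (nat_lit 32) n7257 (.arc (nat_lit 35) n7253 (.fin (nat_lit 41349277) (nat_lit 0)))))
def n7261 : Nd := .arc (nat_lit 3) n7260 (.arc (nat_lit 40) n7230 (.arc (nat_lit 43) n7234 (.arc (nat_lit 46) n7237 (.fin (nat_lit 40816795) (nat_lit 0)))))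
def n7262 : Nd := .arc (nat_lit 6) n7259 (.arc (nat_lit 9) n7261 (.fin (nat_lit 39727255) (nat_lit 0)))
def n7263 : Nd := .arc (nat_lit 50) n7238 (.arc (nat_lit 53) n7247 (.arc (nat_lit 56) n7253 (.arc (nat_lit 59) n7257 (.fin (nat_lit 39776407) (nat_lit 0)))))
def n7264 : Nd := .arc (nat_lit 9) n7263 (.fin (nat_lit 41316509) (nat_lit 0))
def n7265 : Nd := .arc (nat_lit 6) n7260 (.arc (nat_lit 52) n7230 (.arc (nat_lit 55) n7234 (.arc (nat_lit 58) n7237 (.fin (nat_lit 39760023) (nat_lit 0)))))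
def n7266 : Nd := .arc (nat_lit 3) n7264 (.arc (nat_lit 6) n7265 (.fin (nat_lit 40800411) (nat_lit 0)))
def n7267 : Nd := .arc (nat_lit 6) n7263 (.fin (nat_lit 40808603) (nat_lit 0))
def n7268 : Nd := .arc (nat_lit 9) n7258 (.fin (nat_lit 39743639) (nat_lit 0))
def n7269 : Nd := .arc (nat_lit 3) n7267 (.arc (nat_lit 9) n7268 (.fin (nat_lit 41308317) (nat_lit 0)))
def n7270 : Nd := .arc (nat_lit 3) n7262 (.arc (nat_lit 6) n7266 (.arc (nat_lit 9) n7269 (.fin (nat_lit 37621913) (nat_lit 0))))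
def n7271 : Nd := .arc (nat_lit 6) n7261 (.arc (nat_lit 9) n7259 (.fin (nat_lit 37630105) (nat_lit 0)))
def n7272 : Nd := .arc (nat_lit 62) n7238 (.arc (nat_lit 65) n7247 (.arc (nat_lit 68) n7257 (.arc (nat_lit 71) n7253 (.fin (nat_lit 37679257) (nat_lit 0)))))
def n7273 : Nd := .arc (nat_lit 9) n7272 (.fin (nat_lit 40792219) (nat_lit 0))
def n7274 : Nd := .arc (nat_lit 6) n7258 (.fin (nat_lit 37662873) (nat_lit 0))
def n7275 : Nd := .arc (nat_lit 3) n7273 (.arc (nat_lit 6) n7274 (.fin (nat_lit 41324701) (nat_lit 0)))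
def n7276 : Nd := .arc (nat_lit 6) n7272 (.fin (nat_lit 41332893) (nat_lit 0))
def n7277 : Nd := .arc (nat_lit 9) n7260 (.arc (nat_lit 64) n7230 (.arc (nat_lit 67) n7237 (.arc (nat_lit 70) n7234 (.fin (nat_lit 37646489) (nat_lit 0)))))
def n7278 : Nd := .arc (nat_lit 3) n7276 (.arc (nat_lit 9) n7277 (.fin (nat_lit 40784027) (nat_lit 0)))
def n7279 : Nd := .arc (nat_lit 3) n7271 (.arc (nat_lit 6) n7275 (.arc (nat_lit 9) n7278 (.fin (nat_lit 39719063) (nat_lit 0))))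
def n7280 : Nd := .arc (nat_lit 3) n7272 (.fin (nat_lit 39768215) (nat_lit 0))
def n7281 : Nd := .arc (nat_lit 3) n7263 (.fin (nat_lit 37671065) (nat_lit 0))
def n7282 : Nd := .arc (nat_lit 6) n7280 (.arc (nat_lit 9) n7281 (.fin (nat_lit 40775835) (nat_lit 0)))
def n7283 : Nd := .arc (nat_lit 3) n7268 (.arc (nat_lit 6) n7267 (.fin (nat_lit 37654681) (nat_lit 0)))
def n7284 : Nd := .arc (nat_lit 3) n7274 (.arc (nat_lit 9) n7273 (.fin (nat_lit 39735447) (nat_lit 0)))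
def n7285 : Nd := .arc (nat_lit 3) n7282 (.arc (nat_lit 6) n7283 (.arc (nat_lit 9) n7284 (.fin (nat_lit 41291933) (nat_lit 0))))
def n7286 : Nd := .arc (nat_lit 6) n7281 (.arc (nat_lit 9) n7280 (.fin (nat_lit 41300125) (nat_lit 0)))
def n7287 : Nd := .arc (nat_lit 3) n7277 (.arc (nat_lit 6) n7276 (.fin (nat_lit 39751831) (nat_lit 0)))
def n7288 : Nd := .arc (nat_lit 3) n7265 (.arc (nat_lit 9) n7264 (.fin (nat_lit 37638297) (nat_lit 0)))
def n7289 : Nd := .arc (nat_lit 3) n7286 (.arc (nat_lit 6) n7287 (.arc (nat_lit 9) n7288 (.fin (nat_lit 40767643) (nat_lit 0))))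
def n7290 : Nd := .arc (nat_lit 50) n7161 (.arc (nat_lit 53) n7157 (.arc (nat_lit 56) n7151 (.arc (nat_lit 59) n7142 (.fin (nat_lit 543092889) (nat_lit 0)))))
def n7291 : Nd := .arc (nat_lit 3) n7290 (.fin (nat_lit 272552087) (nat_lit 0))
def n7292 : Nd := .arc (nat_lit 62) n7161 (.arc (nat_lit 65) n7157 (.arc (nat_lit 68) n7142 (.arc (nat_lit 71) n7151 (.fin (nat_lit 272560279) (nat_lit 0)))))
def n7293 : Nd := .arc (nat_lit 3) n7292 (.fin (nat_lit 543084697) (nat_lit 0))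
def n7294 : Nd := .arc (nat_lit 6) n7291 (.arc (nat_lit 9) n7293 (.fin (nat_lit 141963419) (nat_lit 0)))
def n7295 : Nd := .arc (nat_lit 26) n7161 (.arc (nat_lit 29) n7157 (.arc (nat_lit 32) n7142 (.arc (nat_lit 35) n7151 (.fin (nat_lit 142012571) (nat_lit 0)))))
def n7296 : Nd := .arc (nat_lit 9) n7295 (.arc (nat_lit 64) n7158 (.arc (nat_lit 67) n7160 (.arc (nat_lit 70) n7159 (.fin (nat_lit 272527511) (nat_lit 0)))))
def n7297 : Nd := .arc (nat_lit 6) n7292 (.fin (nat_lit 141996187) (nat_lit 0))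
def n7298 : Nd := .arc (nat_lit 3) n7296 (.arc (nat_lit 6) n7297 (.fin (nat_lit 543068313) (nat_lit 0)))
def n7299 : Nd := .arc (nat_lit 6) n7295 (.arc (nat_lit 52) n7158 (.arc (nat_lit 55) n7159 (.arc (nat_lit 58) n7160 (.fin (nat_lit 543076505) (nat_lit 0)))))
def n7300 : Nd := .arc (nat_lit 9) n7290 (.fin (nat_lit 141979803) (nat_lit 0))
def n7301 : Nd := .arc (nat_lit 3) n7299 (.arc (nat_lit 9) n7300 (.fin (nat_lit 272519319) (nat_lit 0)))
def n7302 : Nd := .arc (nat_lit 3) n7294 (.arc (nat_lit 6) n7298 (.arc (nat_lit 9) n7301 (.fin (nat_lit 74322077) (nat_lit 0))))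
def n7303 : Nd := .arc (nat_lit 6) n7293 (.arc (nat_lit 9) n7291 (.fin (nat_lit 74330269) (nat_lit 0)))
def n7304 : Nd := .arc (nat_lit 38) n7161 (.arc (nat_lit 41) n7157 (.arc (nat_lit 44) n7151 (.arc (nat_lit 47) n7142 (.fin (nat_lit 74379421) (nat_lit 0)))))
def n7305 : Nd := .arc (nat_lit 9) n7304 (.fin (nat_lit 543060121) (nat_lit 0))
def n7306 : Nd := .arc (nat_lit 6) n7290 (.fin (nat_lit 74363037) (nat_lit 0))
def n7307 : Nd := .arc (nat_lit 3) n7305 (.arc (nat_lit 6) n7306 (.fin (nat_lit 272535703) (nat_lit 0)))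
def n7308 : Nd := .arc (nat_lit 6) n7304 (.fin (nat_lit 272543895) (nat_lit 0))
def n7309 : Nd := .arc (nat_lit 9) n7292 (.fin (nat_lit 74346653) (nat_lit 0))
def n7310 : Nd := .arc (nat_lit 3) n7308 (.arc (nat_lit 9) n7309 (.fin (nat_lit 543051929) (nat_lit 0)))
def n7311 : Nd := .arc (nat_lit 3) n7303 (.arc (nat_lit 6) n7307 (.arc (nat_lit 9) n7310 (.fin (nat_lit 141955227) (nat_lit 0))))
def n7312 : Nd := .arc (nat_lit 3) n7295 (.arc (nat_lit 40) n7158 (.arc (nat_lit 43) n7159 (.arc (nat_lit 46) n7160 (.fin (nat_lit 74371229) (nat_lit 0)))))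
def n7313 : Nd := .arc (nat_lit 3) n7304 (.fin (nat_lit 142004379) (nat_lit 0))
def n7314 : Nd := .arc (nat_lit 6) n7312 (.arc (nat_lit 9) n7313 (.fin (nat_lit 272511127) (nat_lit 0)))
def n7315 : Nd := .arc (nat_lit 3) n7309 (.arc (nat_lit 6) n7308 (.fin (nat_lit 141987995) (nat_lit 0)))
def n7316 : Nd := .arc (nat_lit 3) n7297 (.arc (nat_lit 9) n7296 (.fin (nat_lit 74338461) (nat_lit 0)))
def n7317 : Nd := .arc (nat_lit 3) n7314 (.arc (nat_lit 6) n7315 (.arc (nat_lit 9) n7316 (.fin (nat_lit 543035545) (nat_lit 0))))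
def n7318 : Nd := .arc (nat_lit 6) n7313 (.arc (nat_lit 9) n7312 (.fin (nat_lit 543043737) (nat_lit 0)))
def n7319 : Nd := .arc (nat_lit 3) n7300 (.arc (nat_lit 6) n7299 (.fin (nat_lit 74354845) (nat_lit 0)))
def n7320 : Nd := .arc (nat_lit 3) n7306 (.arc (nat_lit 9) n7305 (.fin (nat_lit 141971611) (nat_lit 0)))
def n7321 : Nd := .arc (nat_lit 3) n7318 (.arc (nat_lit 6) n7319 (.arc (nat_lit 9) n7320 (.fin (nat_lit 272502935) (nat_lit 0))))
def n7322 : Nd := .arc (nat_lit 14) n7270 (.arc (nat_lit 17) n7279 (.arc (nat_lit 20) n7285 (.arc (nat_lit 23) n7289 (.arc (nat_lit 50) n7302 (.arc (nat_lit 53) n7311 (.arc (nat_lit 56) n7317 (.arc (nat_lit 59) n7321 (.fin (nat_lit 22737049) (nat_lit 0)))))))))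
def n7323 : Nd := .arc (nat_lit 3) n7322 (.fin (nat_lit 20631703) (nat_lit 0))
def n7324 : Nd := .arc (nat_lit 14) n7279 (.arc (nat_lit 17) n7270 (.arc (nat_lit 20) n7289 (.arc (nat_lit 23) n7285 (.arc (nat_lit 62) n7302 (.arc (nat_lit 65) n7311 (.arc (nat_lit 68) n7321 (.arc (nat_lit 71) n7317 (.fin (nat_lit 20639895) (nat_lit 0)))))))))
def n7325 : Nd := .arc (nat_lit 3) n7324 (.fin (nat_lit 22728857) (nat_lit 0))
def n7326 : Nd := .arc (nat_lit 6) n7323 (.arc (nat_lit 9) n7325 (.fin (nat_lit 24260763) (nat_lit 0)))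
def n7327 : Nd := .arc (nat_lit 14) n7285 (.arc (nat_lit 17) n7289 (.arc (nat_lit 20) n7279 (.arc (nat_lit 23) n7270 (.arc (nat_lit 26) n7302 (.arc (nat_lit 29) n7311 (.arc (nat_lit 32) n7321 (.arc (nat_lit 35) n7317 (.fin (nat_lit 24309915) (nat_lit 0)))))))))
def n7328 : Nd := .arc (nat_lit 9) n7327 (.arc (nat_lit 64) n7294 (.arc (nat_lit 67) n7301 (.arc (nat_lit 70) n7298 (.fin (nat_lit 20607127) (nat_lit 0)))))
def n7329 : Nd := .arc (nat_lit 6) n7324 (.fin (nat_lit 24293531) (nat_lit 0))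
def n7330 : Nd := .arc (nat_lit 3) n7328 (.arc (nat_lit 6) n7329 (.fin (nat_lit 22712473) (nat_lit 0)))
def n7331 : Nd := .arc (nat_lit 6) n7327 (.arc (nat_lit 52) n7294 (.arc (nat_lit 55) n7298 (.arc (nat_lit 58) n7301 (.fin (nat_lit 22720665) (nat_lit 0)))))
def n7332 : Nd := .arc (nat_lit 9) n7322 (.fin (nat_lit 24277147) (nat_lit 0))
def n7333 : Nd := .arc (nat_lit 3) n7331 (.arc (nat_lit 9) n7332 (.fin (nat_lit 20598935) (nat_lit 0)))
def n7334 : Nd := .arc (nat_lit 3) n7326 (.arc (nat_lit 6) n7330 (.arc (nat_lit 9) n7333 (.fin (nat_lit 23728285) (nat_lit 0))))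
def n7335 : Nd := .arc (nat_lit 6) n7325 (.arc (nat_lit 9) n7323 (.fin (nat_lit 23736477) (nat_lit 0)))
def n7336 : Nd := .arc (nat_lit 14) n7289 (.arc (nat_lit 17) n7285 (.arc (nat_lit 20) n7270 (.arc (nat_lit 23) n7279 (.arc (nat_lit 38) n7302 (.arc (nat_lit 41) n7311 (.arc (nat_lit 44) n7317 (.arc (nat_lit 47) n7321 (.fin (nat_lit 23785629) (nat_lit 0)))))))))
def n7337 : Nd := .arc (nat_lit 9) n7336 (.fin (nat_lit 22704281) (nat_lit 0))
def n7338 : Nd := .arc (nat_lit 6) n7322 (.fin (nat_lit 23769245) (nat_lit 0))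
def n7339 : Nd := .arc (nat_lit 3) n7337 (.arc (nat_lit 6) n7338 (.fin (nat_lit 20615319) (nat_lit 0)))
def n7340 : Nd := .arc (nat_lit 6) n7336 (.fin (nat_lit 20623511) (nat_lit 0))
def n7341 : Nd := .arc (nat_lit 9) n7324 (.fin (nat_lit 23752861) (nat_lit 0))
def n7342 : Nd := .arc (nat_lit 3) n7340 (.arc (nat_lit 9) n7341 (.fin (nat_lit 22696089) (nat_lit 0)))
def n7343 : Nd := .arc (nat_lit 3) n7335 (.arc (nat_lit 6) n7339 (.arc (nat_lit 9) n7342 (.fin (nat_lit 24252571) (nat_lit 0))))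
def n7344 : Nd := .arc (nat_lit 3) n7336 (.fin (nat_lit 24301723) (nat_lit 0))
def n7345 : Nd := .arc (nat_lit 3) n7327 (.arc (nat_lit 40) n7294 (.arc (nat_lit 43) n7298 (.arc (nat_lit 46) n7301 (.fin (nat_lit 23777437) (nat_lit 0)))))
def n7346 : Nd := .arc (nat_lit 6) n7344 (.arc (nat_lit 9) n7345 (.fin (nat_lit 22687897) (nat_lit 0)))
def n7347 : Nd := .arc (nat_lit 3) n7332 (.arc (nat_lit 6) n7331 (.fin (nat_lit 23761053) (nat_lit 0)))
def n7348 : Nd := .arc (nat_lit 3) n7338 (.arc (nat_lit 9) n7337 (.fin (nat_lit 24268955) (nat_lit 0)))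
def n7349 : Nd := .arc (nat_lit 3) n7346 (.arc (nat_lit 6) n7347 (.arc (nat_lit 9) n7348 (.fin (nat_lit 20582551) (nat_lit 0))))
def n7350 : Nd := .arc (nat_lit 6) n7345 (.arc (nat_lit 9) n7344 (.fin (nat_lit 20590743) (nat_lit 0)))
def n7351 : Nd := .arc (nat_lit 3) n7341 (.arc (nat_lit 6) n7340 (.fin (nat_lit 24285339) (nat_lit 0)))
def n7352 : Nd := .arc (nat_lit 3) n7329 (.arc (nat_lit 9) n7328 (.fin (nat_lit 23744669) (nat_lit 0)))
def n7353 : Nd := .arc (nat_lit 3) n7350 (.arc (nat_lit 6) n7351 (.arc (nat_lit 9) n7352 (.fin (nat_lit 22679705) (nat_lit 0))))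
def n7354 : Nd := .arc (nat_lit 38) n7247 (.arc (nat_lit 41) n7238 (.arc (nat_lit 44) n7257 (.arc (nat_lit 47) n7253 (.fin (nat_lit 24047773) (nat_lit 0)))))
def n7355 : Nd := .arc (nat_lit 3) n7354 (.fin (nat_lit 24563867) (nat_lit 0))
def n7356 : Nd := .arc (nat_lit 26) n7247 (.arc (nat_lit 29) n7238 (.arc (nat_lit 32) n7253 (.arc (nat_lit 35) n7257 (.fin (nat_lit 24572059) (nat_lit 0)))))
def n7357 : Nd := .arc (nat_lit 3) n7356 (.arc (nat_lit 40) n7239 (.arc (nat_lit 43) n7243 (.arc (nat_lit 46) n7246 (.fin (nat_lit 24039581) (nat_lit 0)))))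
def n7358 : Nd := .arc (nat_lit 6) n7355 (.arc (nat_lit 9) n7357 (.fin (nat_lit 22950041) (nat_lit 0)))
def n7359 : Nd := .arc (nat_lit 50) n7247 (.arc (nat_lit 53) n7238 (.arc (nat_lit 56) n7257 (.arc (nat_lit 59) n7253 (.fin (nat_lit 22999193) (nat_lit 0)))))
def n7360 : Nd := .arc (nat_lit 9) n7359 (.fin (nat_lit 24539291) (nat_lit 0))
def n7361 : Nd := .arc (nat_lit 6) n7356 (.arc (nat_lit 52) n7239 (.arc (nat_lit 55) n7243 (.arc (nat_lit 58) n7246 (.fin (nat_lit 22982809) (nat_lit 0)))))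
def n7362 : Nd := .arc (nat_lit 3) n7360 (.arc (nat_lit 6) n7361 (.fin (nat_lit 24023197) (nat_lit 0)))
def n7363 : Nd := .arc (nat_lit 6) n7359 (.fin (nat_lit 24031389) (nat_lit 0))
def n7364 : Nd := .arc (nat_lit 9) n7354 (.fin (nat_lit 22966425) (nat_lit 0))
def n7365 : Nd := .arc (nat_lit 3) n7363 (.arc (nat_lit 9) n7364 (.fin (nat_lit 24531099) (nat_lit 0)))
def n7366 : Nd := .arc (nat_lit 3) n7358 (.arc (nat_lit 6) n7362 (.arc (nat_lit 9) n7365 (.fin (nat_lit 20844695) (nat_lit 0))))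
def n7367 : Nd := .arc (nat_lit 6) n7357 (.arc (nat_lit 9) n7355 (.fin (nat_lit 20852887) (nat_lit 0)))
def n7368 : Nd := .arc (nat_lit 62) n7247 (.arc (nat_lit 65) n7238 (.arc (nat_lit 68) n7253 (.arc (nat_lit 71) n7257 (.fin (nat_lit 20902039) (nat_lit 0)))))
def n7369 : Nd := .arc (nat_lit 9) n7368 (.fin (nat_lit 24015005) (nat_lit 0))
def n7370 : Nd := .arc (nat_lit 6) n7354 (.fin (nat_lit 20885655) (nat_lit 0))
def n7371 : Nd := .arc (nat_lit 3) n7369 (.arc (nat_lit 6) n7370 (.fin (nat_lit 24547483) (nat_lit 0)))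
def n7372 : Nd := .arc (nat_lit 6) n7368 (.fin (nat_lit 24555675) (nat_lit 0))
def n7373 : Nd := .arc (nat_lit 9) n7356 (.arc (nat_lit 64) n7239 (.arc (nat_lit 67) n7246 (.arc (nat_lit 70) n7243 (.fin (nat_lit 20869271) (nat_lit 0)))))
def n7374 : Nd := .arc (nat_lit 3) n7372 (.arc (nat_lit 9) n7373 (.fin (nat_lit 24006813) (nat_lit 0)))
def n7375 : Nd := .arc (nat_lit 3) n7367 (.arc (nat_lit 6) n7371 (.arc (nat_lit 9) n7374 (.fin (nat_lit 22941849) (nat_lit 0))))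
def n7376 : Nd := .arc (nat_lit 3) n7368 (.fin (nat_lit 22991001) (nat_lit 0))
def n7377 : Nd := .arc (nat_lit 3) n7359 (.fin (nat_lit 20893847) (nat_lit 0))
def n7378 : Nd := .arc (nat_lit 6) n7376 (.arc (nat_lit 9) n7377 (.fin (nat_lit 23998621) (nat_lit 0)))
def n7379 : Nd := .arc (nat_lit 3) n7364 (.arc (nat_lit 6) n7363 (.fin (nat_lit 20877463) (nat_lit 0)))
def n7380 : Nd := .arc (nat_lit 3) n7370 (.arc (nat_lit 9) n7369 (.fin (nat_lit 22958233) (nat_lit 0)))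
def n7381 : Nd := .arc (nat_lit 3) n7378 (.arc (nat_lit 6) n7379 (.arc (nat_lit 9) n7380 (.fin (nat_lit 24514715) (nat_lit 0))))
def n7382 : Nd := .arc (nat_lit 6) n7377 (.arc (nat_lit 9) n7376 (.fin (nat_lit 24522907) (nat_lit 0)))
def n7383 : Nd := .arc (nat_lit 3) n7373 (.arc (nat_lit 6) n7372 (.fin (nat_lit 22974617) (nat_lit 0)))
def n7384 : Nd := .arc (nat_lit 3) n7361 (.arc (nat_lit 9) n7360 (.fin (nat_lit 20861079) (nat_lit 0)))
def n7385 : Nd := .arc (nat_lit 3) n7382 (.arc (nat_lit 6) n7383 (.arc (nat_lit 9) n7384 (.fin (nat_lit 23990429) (nat_lit 0))))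
def n7386 : Nd := .arc (nat_lit 50) n7097 (.arc (nat_lit 53) n7093 (.arc (nat_lit 56) n7087 (.arc (nat_lit 59) n7078 (.fin (nat_lit 274657431) (nat_lit 0)))))
def n7387 : Nd := .arc (nat_lit 3) n7386 (.fin (nat_lit 540987545) (nat_lit 0))
def n7388 : Nd := .arc (nat_lit 62) n7097 (.arc (nat_lit 65) n7093 (.arc (nat_lit 68) n7078 (.arc (nat_lit 71) n7087 (.fin (nat_lit 540995737) (nat_lit 0)))))
def n7389 : Nd := .arc (nat_lit 3) n7388 (.fin (nat_lit 274649239) (nat_lit 0))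
def n7390 : Nd := .arc (nat_lit 6) n7387 (.arc (nat_lit 9) n7389 (.fin (nat_lit 74854557) (nat_lit 0)))
def n7391 : Nd := .arc (nat_lit 26) n7097 (.arc (nat_lit 29) n7093 (.arc (nat_lit 32) n7078 (.arc (nat_lit 35) n7087 (.fin (nat_lit 74903709) (nat_lit 0)))))
def n7392 : Nd := .arc (nat_lit 9) n7391 (.arc (nat_lit 64) n7094 (.arc (nat_lit 67) n7096 (.arc (nat_lit 70) n7095 (.fin (nat_lit 540962969) (nat_lit 0)))))
def n7393 : Nd := .arc (nat_lit 6) n7388 (.fin (nat_lit 74887325) (nat_lit 0))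
def n7394 : Nd := .arc (nat_lit 3) n7392 (.arc (nat_lit 6) n7393 (.fin (nat_lit 274632855) (nat_lit 0)))
def n7395 : Nd := .arc (nat_lit 6) n7391 (.arc (nat_lit 52) n7094 (.arc (nat_lit 55) n7095 (.arc (nat_lit 58) n7096 (.fin (nat_lit 274641047) (nat_lit 0)))))
def n7396 : Nd := .arc (nat_lit 9) n7386 (.fin (nat_lit 74870941) (nat_lit 0))
def n7397 : Nd := .arc (nat_lit 3) n7395 (.arc (nat_lit 9) n7396 (.fin (nat_lit 540954777) (nat_lit 0)))
def n7398 : Nd := .arc (nat_lit 3) n7390 (.arc (nat_lit 6) n7394 (.arc (nat_lit 9) n7397 (.fin (nat_lit 141430939) (nat_lit 0))))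
def n7399 : Nd := .arc (nat_lit 6) n7389 (.arc (nat_lit 9) n7387 (.fin (nat_lit 141439131) (nat_lit 0)))
def n7400 : Nd := .arc (nat_lit 38) n7097 (.arc (nat_lit 41) n7093 (.arc (nat_lit 44) n7087 (.arc (nat_lit 47) n7078 (.fin (nat_lit 141488283) (nat_lit 0)))))
def n7401 : Nd := .arc (nat_lit 9) n7400 (.fin (nat_lit 274624663) (nat_lit 0))
def n7402 : Nd := .arc (nat_lit 6) n7386 (.fin (nat_lit 141471899) (nat_lit 0))
def n7403 : Nd := .arc (nat_lit 3) n7401 (.arc (nat_lit 6) n7402 (.fin (nat_lit 540971161) (nat_lit 0)))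
def n7404 : Nd := .arc (nat_lit 6) n7400 (.fin (nat_lit 540979353) (nat_lit 0))
def n7405 : Nd := .arc (nat_lit 9) n7388 (.fin (nat_lit 141455515) (nat_lit 0))
def n7406 : Nd := .arc (nat_lit 3) n7404 (.arc (nat_lit 9) n7405 (.fin (nat_lit 274616471) (nat_lit 0)))
def n7407 : Nd := .arc (nat_lit 3) n7399 (.arc (nat_lit 6) n7403 (.arc (nat_lit 9) n7406 (.fin (nat_lit 74846365) (nat_lit 0))))
def n7408 : Nd := .arc (nat_lit 3) n7391 (.arc (nat_lit 40) n7094 (.arc (nat_lit 43) n7095 (.arc (nat_lit 46) n7096 (.fin (nat_lit 141480091) (nat_lit 0)))))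
def n7409 : Nd := .arc (nat_lit 3) n7400 (.fin (nat_lit 74895517) (nat_lit 0))
def n7410 : Nd := .arc (nat_lit 6) n7408 (.arc (nat_lit 9) n7409 (.fin (nat_lit 540946585) (nat_lit 0)))
def n7411 : Nd := .arc (nat_lit 3) n7405 (.arc (nat_lit 6) n7404 (.fin (nat_lit 74879133) (nat_lit 0)))
def n7412 : Nd := .arc (nat_lit 3) n7393 (.arc (nat_lit 9) n7392 (.fin (nat_lit 141447323) (nat_lit 0)))
def n7413 : Nd := .arc (nat_lit 3) n7410 (.arc (nat_lit 6) n7411 (.arc (nat_lit 9) n7412 (.fin (nat_lit 274600087) (nat_lit 0))))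
def n7414 : Nd := .arc (nat_lit 6) n7409 (.arc (nat_lit 9) n7408 (.fin (nat_lit 274608279) (nat_lit 0)))
def n7415 : Nd := .arc (nat_lit 3) n7396 (.arc (nat_lit 6) n7395 (.fin (nat_lit 141463707) (nat_lit 0)))
def n7416 : Nd := .arc (nat_lit 3) n7402 (.arc (nat_lit 9) n7401 (.fin (nat_lit 74862749) (nat_lit 0)))
def n7417 : Nd := .arc (nat_lit 3) n7414 (.arc (nat_lit 6) n7415 (.arc (nat_lit 9) n7416 (.fin (nat_lit 540938393) (nat_lit 0))))
def n7418 : Nd := .arc (nat_lit 14) n7366 (.arc (nat_lit 17) n7375 (.arc (nat_lit 20) n7381 (.arc (nat_lit 23) n7385 (.arc (nat_lit 50) n7398 (.arc (nat_lit 53) n7407 (.arc (nat_lit 56) n7413 (.arc (nat_lit 59) n7417 (.fin (nat_lit 39514263) (nat_lit 0)))))))))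
def n7419 : Nd := .arc (nat_lit 3) n7418 (.fin (nat_lit 37408921) (nat_lit 0))
def n7420 : Nd := .arc (nat_lit 14) n7375 (.arc (nat_lit 17) n7366 (.arc (nat_lit 20) n7385 (.arc (nat_lit 23) n7381 (.arc (nat_lit 62) n7398 (.arc (nat_lit 65) n7407 (.arc (nat_lit 68) n7417 (.arc (nat_lit 71) n7413 (.fin (nat_lit 37417113) (nat_lit 0)))))))))
def n7421 : Nd := .arc (nat_lit 3) n7420 (.fin (nat_lit 39506071) (nat_lit 0))
def n7422 : Nd := .arc (nat_lit 6) n7419 (.arc (nat_lit 9) n7421 (.fin (nat_lit 41037981) (nat_lit 0)))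
def n7423 : Nd := .arc (nat_lit 14) n7381 (.arc (nat_lit 17) n7385 (.arc (nat_lit 20) n7375 (.arc (nat_lit 23) n7366 (.arc (nat_lit 26) n7398 (.arc (nat_lit 29) n7407 (.arc (nat_lit 32) n7417 (.arc (nat_lit 35) n7413 (.fin (nat_lit 41087133) (nat_lit 0)))))))))
def n7424 : Nd := .arc (nat_lit 9) n7423 (.arc (nat_lit 64) n7390 (.arc (nat_lit 67) n7397 (.arc (nat_lit 70) n7394 (.fin (nat_lit 37384345) (nat_lit 0)))))
def n7425 : Nd := .arc (nat_lit 6) n7420 (.fin (nat_lit 41070749) (nat_lit 0))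
def n7426 : Nd := .arc (nat_lit 3) n7424 (.arc (nat_lit 6) n7425 (.fin (nat_lit 39489687) (nat_lit 0)))
def n7427 : Nd := .arc (nat_lit 6) n7423 (.arc (nat_lit 52) n7390 (.arc (nat_lit 55) n7394 (.arc (nat_lit 58) n7397 (.fin (nat_lit 39497879) (nat_lit 0)))))
def n7428 : Nd := .arc (nat_lit 9) n7418 (.fin (nat_lit 41054365) (nat_lit 0))
def n7429 : Nd := .arc (nat_lit 3) n7427 (.arc (nat_lit 9) n7428 (.fin (nat_lit 37376153) (nat_lit 0)))
def n7430 : Nd := .arc (nat_lit 3) n7422 (.arc (nat_lit 6) n7426 (.arc (nat_lit 9) n7429 (.fin (nat_lit 40505499) (nat_lit 0))))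
def n7431 : Nd := .arc (nat_lit 6) n7421 (.arc (nat_lit 9) n7419 (.fin (nat_lit 40513691) (nat_lit 0)))
def n7432 : Nd := .arc (nat_lit 14) n7385 (.arc (nat_lit 17) n7381 (.arc (nat_lit 20) n7366 (.arc (nat_lit 23) n7375 (.arc (nat_lit 38) n7398 (.arc (nat_lit 41) n7407 (.arc (nat_lit 44) n7413 (.arc (nat_lit 47) n7417 (.fin (nat_lit 40562843) (nat_lit 0)))))))))
def n7433 : Nd := .arc (nat_lit 9) n7432 (.fin (nat_lit 39481495) (nat_lit 0))
def n7434 : Nd := .arc (nat_lit 6) n7418 (.fin (nat_lit 40546459) (nat_lit 0))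
def n7435 : Nd := .arc (nat_lit 3) n7433 (.arc (nat_lit 6) n7434 (.fin (nat_lit 37392537) (nat_lit 0)))
def n7436 : Nd := .arc (nat_lit 6) n7432 (.fin (nat_lit 37400729) (nat_lit 0))
def n7437 : Nd := .arc (nat_lit 9) n7420 (.fin (nat_lit 40530075) (nat_lit 0))
def n7438 : Nd := .arc (nat_lit 3) n7436 (.arc (nat_lit 9) n7437 (.fin (nat_lit 39473303) (nat_lit 0)))
def n7439 : Nd := .arc (nat_lit 3) n7431 (.arc (nat_lit 6) n7435 (.arc (nat_lit 9) n7438 (.fin (nat_lit 41029789) (nat_lit 0))))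
def n7440 : Nd := .arc (nat_lit 3) n7423 (.arc (nat_lit 40) n7390 (.arc (nat_lit 43) n7394 (.arc (nat_lit 46) n7397 (.fin (nat_lit 40554651) (nat_lit 0)))))
def n7441 : Nd := .arc (nat_lit 3) n7432 (.fin (nat_lit 41078941) (nat_lit 0))
def n7442 : Nd := .arc (nat_lit 6) n7440 (.arc (nat_lit 9) n7441 (.fin (nat_lit 37367961) (nat_lit 0)))
def n7443 : Nd := .arc (nat_lit 3) n7437 (.arc (nat_lit 6) n7436 (.fin (nat_lit 41062557) (nat_lit 0)))
def n7444 : Nd := .arc (nat_lit 3) n7425 (.arc (nat_lit 9) n7424 (.fin (nat_lit 40521883) (nat_lit 0)))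
def n7445 : Nd := .arc (nat_lit 3) n7442 (.arc (nat_lit 6) n7443 (.arc (nat_lit 9) n7444 (.fin (nat_lit 39456919) (nat_lit 0))))
def n7446 : Nd := .arc (nat_lit 6) n7441 (.arc (nat_lit 9) n7440 (.fin (nat_lit 39465111) (nat_lit 0)))
def n7447 : Nd := .arc (nat_lit 3) n7428 (.arc (nat_lit 6) n7427 (.fin (nat_lit 40538267) (nat_lit 0)))
def n7448 : Nd := .arc (nat_lit 3) n7434 (.arc (nat_lit 9) n7433 (.fin (nat_lit 41046173) (nat_lit 0)))
def n7449 : Nd := .arc (nat_lit 3) n7446 (.arc (nat_lit 6) n7447 (.arc (nat_lit 9) n7448 (.fin (nat_lit 37359769) (nat_lit 0))))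
def n7450 : Nd := .arc (nat_lit 14) n7206 (.arc (nat_lit 17) n7215 (.arc (nat_lit 20) n7221 (.arc (nat_lit 23) n7225 (.arc (nat_lit 26) n7334 (.arc (nat_lit 29) n7343 (.arc (nat_lit 32) n7349 (.arc (nat_lit 35) n7353 (.arc (nat_lit 38) n7430 (.arc (nat_lit 41) n7439 (.arc (nat_lit 44) n7445 (.arc (nat_lit 47) n7449 (.fin (nat_lit 73592987) (nat_lit 0)))))))))))))
def n7451 : Nd := .arc (nat_lit 3) n7450 (.arc (nat_lit 40) n7326 (.arc (nat_lit 43) n7330 (.arc (nat_lit 46) n7333 (.fin (nat_lit 140693661) (nat_lit 0)))))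
def n7452 : Nd := .arc (nat_lit 14) n7215 (.arc (nat_lit 17) n7206 (.arc (nat_lit 20) n7225 (.arc (nat_lit 23) n7221 (.arc (nat_lit 26) n7430 (.arc (nat_lit 29) n7439 (.arc (nat_lit 32) n7449 (.arc (nat_lit 35) n7445 (.arc (nat_lit 38) n7334 (.arc (nat_lit 41) n7343 (.arc (nat_lit 44) n7353 (.arc (nat_lit 47) n7349 (.fin (nat_lit 140701853) (nat_lit 0)))))))))))))
def n7453 : Nd := .arc (nat_lit 3) n7452 (.arc (nat_lit 40) n7422 (.arc (nat_lit 43) n7426 (.arc (nat_lit 46) n7429 (.fin (nat_lit 73584795) (nat_lit 0)))))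
def n7454 : Nd := .arc (nat_lit 6) n7451 (.arc (nat_lit 9) n7453 (.fin (nat_lit 538587287) (nat_lit 0)))
def n7455 : Nd := .arc (nat_lit 14) n7221 (.arc (nat_lit 17) n7225 (.arc (nat_lit 20) n7215 (.arc (nat_lit 23) n7206 (.arc (nat_lit 50) n7430 (.arc (nat_lit 53) n7439 (.arc (nat_lit 56) n7445 (.arc (nat_lit 59) n7449 (.arc (nat_lit 62) n7334 (.arc (nat_lit 65) n7343 (.arc (nat_lit 68) n7349 (.arc (nat_lit 71) n7353 (.fin (nat_lit 538636439) (nat_lit 0)))))))))))))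
def n7456 : Nd := .arc (nat_lit 9) n7455 (.fin (nat_lit 140669085) (nat_lit 0))
def n7457 : Nd := .arc (nat_lit 6) n7452 (.arc (nat_lit 52) n7422 (.arc (nat_lit 55) n7426 (.arc (nat_lit 58) n7429 (.fin (nat_lit 538620055) (nat_lit 0)))))
def n7458 : Nd := .arc (nat_lit 3) n7456 (.arc (nat_lit 6) n7457 (.fin (nat_lit 73568411) (nat_lit 0)))
def n7459 : Nd := .arc (nat_lit 6) n7455 (.fin (nat_lit 73576603) (nat_lit 0))
def n7460 : Nd := .arc (nat_lit 9) n7450 (.arc (nat_lit 64) n7326 (.arc (nat_lit 67) n7333 (.arc (nat_lit 70) n7330 (.fin (nat_lit 538603671) (nat_lit 0)))))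
def n7461 : Nd := .arc (nat_lit 3) n7459 (.arc (nat_lit 9) n7460 (.fin (nat_lit 140660893) (nat_lit 0)))
def n7462 : Nd := .arc (nat_lit 3) n7454 (.arc (nat_lit 6) n7458 (.arc (nat_lit 9) n7461 (.fin (nat_lit 270143641) (nat_lit 0))))
def n7463 : Nd := .arc (nat_lit 6) n7453 (.arc (nat_lit 9) n7451 (.fin (nat_lit 270151833) (nat_lit 0)))
def n7464 : Nd := .arc (nat_lit 14) n7225 (.arc (nat_lit 17) n7221 (.arc (nat_lit 20) n7206 (.arc (nat_lit 23) n7215 (.arc (nat_lit 50) n7334 (.arc (nat_lit 53) n7343 (.arc (nat_lit 56) n7353 (.arc (nat_lit 59) n7349 (.arc (nat_lit 62) n7430 (.arc (nat_lit 65) n7439 (.arc (nat_lit 68) n7449 (.arc (nat_lit 71) n7445 (.fin (nat_lit 270200985) (nat_lit 0)))))))))))))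
def n7465 : Nd := .arc (nat_lit 9) n7464 (.fin (nat_lit 73560219) (nat_lit 0))
def n7466 : Nd := .arc (nat_lit 6) n7450 (.arc (nat_lit 52) n7326 (.arc (nat_lit 55) n7330 (.arc (nat_lit 58) n7333 (.fin (nat_lit 270184601) (nat_lit 0)))))
def n7467 : Nd := .arc (nat_lit 3) n7465 (.arc (nat_lit 6) n7466 (.fin (nat_lit 140677277) (nat_lit 0)))
def n7468 : Nd := .arc (nat_lit 6) n7464 (.fin (nat_lit 140685469) (nat_lit 0))
def n7469 : Nd := .arc (nat_lit 9) n7452 (.arc (nat_lit 64) n7422 (.arc (nat_lit 67) n7429 (.arc (nat_lit 70) n7426 (.fin (nat_lit 270168217) (nat_lit 0)))))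
def n7470 : Nd := .arc (nat_lit 3) n7468 (.arc (nat_lit 9) n7469 (.fin (nat_lit 73552027) (nat_lit 0)))
def n7471 : Nd := .arc (nat_lit 3) n7463 (.arc (nat_lit 6) n7467 (.arc (nat_lit 9) n7470 (.fin (nat_lit 538579095) (nat_lit 0))))
def n7472 : Nd := .arc (nat_lit 3) n7464 (.fin (nat_lit 538628247) (nat_lit 0))
def n7473 : Nd := .arc (nat_lit 3) n7455 (.fin (nat_lit 270192793) (nat_lit 0))
def n7474 : Nd := .arc (nat_lit 6) n7472 (.arc (nat_lit 9) n7473 (.fin (nat_lit 73543835) (nat_lit 0)))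
def n7475 : Nd := .arc (nat_lit 3) n7460 (.arc (nat_lit 6) n7459 (.fin (nat_lit 270176409) (nat_lit 0)))
def n7476 : Nd := .arc (nat_lit 3) n7466 (.arc (nat_lit 9) n7465 (.fin (nat_lit 538595479) (nat_lit 0)))
def n7477 : Nd := .arc (nat_lit 3) n7474 (.arc (nat_lit 6) n7475 (.arc (nat_lit 9) n7476 (.fin (nat_lit 140644509) (nat_lit 0))))
def n7478 : Nd := .arc (nat_lit 6) n7473 (.arc (nat_lit 9) n7472 (.fin (nat_lit 140652701) (nat_lit 0)))
def n7479 : Nd := .arc (nat_lit 3) n7469 (.arc (nat_lit 6) n7468 (.fin (nat_lit 538611863) (nat_lit 0)))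
def n7480 : Nd := .arc (nat_lit 3) n7457 (.arc (nat_lit 9) n7456 (.fin (nat_lit 270160025) (nat_lit 0)))
def n7481 : Nd := .arc (nat_lit 3) n7478 (.arc (nat_lit 6) n7479 (.arc (nat_lit 9) n7480 (.fin (nat_lit 73535643) (nat_lit 0))))
def n7482 : Nd := .arc (nat_lit 50) n7183 (.arc (nat_lit 53) n7174 (.arc (nat_lit 56) n7189 (.arc (nat_lit 59) n7193 (.arc (nat_lit 62) n7119 (.arc (nat_lit 65) n7110 (.arc (nat_lit 68) n7125 (.arc (nat_lit 71) n7129 (.fin (nat_lit 270463129) (nat_lit 0)))))))))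
def n7483 : Nd := .arc (nat_lit 3) n7482 (.fin (nat_lit 538890391) (nat_lit 0))
def n7484 : Nd := .arc (nat_lit 50) n7119 (.arc (nat_lit 53) n7110 (.arc (nat_lit 56) n7129 (.arc (nat_lit 59) n7125 (.arc (nat_lit 62) n7183 (.arc (nat_lit 65) n7174 (.arc (nat_lit 68) n7193 (.arc (nat_lit 71) n7189 (.fin (nat_lit 538898583) (nat_lit 0)))))))))
def n7485 : Nd := .arc (nat_lit 3) n7484 (.fin (nat_lit 270454937) (nat_lit 0))
def n7486 : Nd := .arc (nat_lit 6) n7483 (.arc (nat_lit 9) n7485 (.fin (nat_lit 73805979) (nat_lit 0)))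
def n7487 : Nd := .arc (nat_lit 26) n7183 (.arc (nat_lit 29) n7174 (.arc (nat_lit 32) n7193 (.arc (nat_lit 35) n7189 (.arc (nat_lit 38) n7119 (.arc (nat_lit 41) n7110 (.arc (nat_lit 44) n7129 (.arc (nat_lit 47) n7125 (.fin (nat_lit 73855131) (nat_lit 0)))))))))
def n7488 : Nd := .arc (nat_lit 9) n7487 (.arc (nat_lit 64) n7175 (.arc (nat_lit 67) n7182 (.arc (nat_lit 70) n7179 (.fin (nat_lit 538865815) (nat_lit 0)))))
def n7489 : Nd := .arc (nat_lit 6) n7484 (.fin (nat_lit 73838747) (nat_lit 0))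
def n7490 : Nd := .arc (nat_lit 3) n7488 (.arc (nat_lit 6) n7489 (.fin (nat_lit 270438553) (nat_lit 0)))
def n7491 : Nd := .arc (nat_lit 6) n7487 (.arc (nat_lit 52) n7175 (.arc (nat_lit 55) n7179 (.arc (nat_lit 58) n7182 (.fin (nat_lit 270446745) (nat_lit 0)))))
def n7492 : Nd := .arc (nat_lit 9) n7482 (.fin (nat_lit 73822363) (nat_lit 0))
def n7493 : Nd := .arc (nat_lit 3) n7491 (.arc (nat_lit 9) n7492 (.fin (nat_lit 538857623) (nat_lit 0)))
def n7494 : Nd := .arc (nat_lit 3) n7486 (.arc (nat_lit 6) n7490 (.arc (nat_lit 9) n7493 (.fin (nat_lit 140906653) (nat_lit 0))))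
def n7495 : Nd := .arc (nat_lit 6) n7485 (.arc (nat_lit 9) n7483 (.fin (nat_lit 140914845) (nat_lit 0)))
def n7496 : Nd := .arc (nat_lit 26) n7119 (.arc (nat_lit 29) n7110 (.arc (nat_lit 32) n7125 (.arc (nat_lit 35) n7129 (.arc (nat_lit 38) n7183 (.arc (nat_lit 41) n7174 (.arc (nat_lit 44) n7189 (.arc (nat_lit 47) n7193 (.fin (nat_lit 140963997) (nat_lit 0)))))))))
def n7497 : Nd := .arc (nat_lit 9) n7496 (.arc (nat_lit 64) n7111 (.arc (nat_lit 67) n7118 (.arc (nat_lit 70) n7115 (.fin (nat_lit 270430361) (nat_lit 0)))))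
def n7498 : Nd := .arc (nat_lit 6) n7482 (.fin (nat_lit 140947613) (nat_lit 0))
def n7499 : Nd := .arc (nat_lit 3) n7497 (.arc (nat_lit 6) n7498 (.fin (nat_lit 538874007) (nat_lit 0)))
def n7500 : Nd := .arc (nat_lit 6) n7496 (.arc (nat_lit 52) n7111 (.arc (nat_lit 55) n7115 (.arc (nat_lit 58) n7118 (.fin (nat_lit 538882199) (nat_lit 0)))))
def n7501 : Nd := .arc (nat_lit 9) n7484 (.fin (nat_lit 140931229) (nat_lit 0))
def n7502 : Nd := .arc (nat_lit 3) n7500 (.arc (nat_lit 9) n7501 (.fin (nat_lit 270422169) (nat_lit 0)))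
def n7503 : Nd := .arc (nat_lit 3) n7495 (.arc (nat_lit 6) n7499 (.arc (nat_lit 9) n7502 (.fin (nat_lit 73797787) (nat_lit 0))))
def n7504 : Nd := .arc (nat_lit 3) n7496 (.arc (nat_lit 40) n7111 (.arc (nat_lit 43) n7115 (.arc (nat_lit 46) n7118 (.fin (nat_lit 73846939) (nat_lit 0)))))
def n7505 : Nd := .arc (nat_lit 3) n7487 (.arc (nat_lit 40) n7175 (.arc (nat_lit 43) n7179 (.arc (nat_lit 46) n7182 (.fin (nat_lit 140955805) (nat_lit 0)))))
def n7506 : Nd := .arc (nat_lit 6) n7504 (.arc (nat_lit 9) n7505 (.fin (nat_lit 270413977) (nat_lit 0)))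
def n7507 : Nd := .arc (nat_lit 3) n7492 (.arc (nat_lit 6) n7491 (.fin (nat_lit 140939421) (nat_lit 0)))
def n7508 : Nd := .arc (nat_lit 3) n7498 (.arc (nat_lit 9) n7497 (.fin (nat_lit 73814171) (nat_lit 0)))
def n7509 : Nd := .arc (nat_lit 3) n7506 (.arc (nat_lit 6) n7507 (.arc (nat_lit 9) n7508 (.fin (nat_lit 538841239) (nat_lit 0))))
def n7510 : Nd := .arc (nat_lit 6) n7505 (.arc (nat_lit 9) n7504 (.fin (nat_lit 538849431) (nat_lit 0)))
def n7511 : Nd := .arc (nat_lit 3) n7501 (.arc (nat_lit 6) n7500 (.fin (nat_lit 73830555) (nat_lit 0)))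
def n7512 : Nd := .arc (nat_lit 3) n7489 (.arc (nat_lit 9) n7488 (.fin (nat_lit 140923037) (nat_lit 0)))
def n7513 : Nd := .arc (nat_lit 3) n7510 (.arc (nat_lit 6) n7511 (.arc (nat_lit 9) n7512 (.fin (nat_lit 270405785) (nat_lit 0))))
def n7514 : Nd := .arc (nat_lit 26) n7065 (.arc (nat_lit 29) n7062 (.arc (nat_lit 32) n7058 (.fin (nat_lit 545190039) (nat_lit 0))))
def n7515 : Nd := .arc (nat_lit 3) n7514 (.arc (nat_lit 40) n7063 (.arc (nat_lit 46) n7064 (.fin (nat_lit 276746393) (nat_lit 0))))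
def n7516 : Nd := .arc (nat_lit 38) n7065 (.arc (nat_lit 41) n7062 (.arc (nat_lit 47) n7058 (.fin (nat_lit 276754585) (nat_lit 0))))
def n7517 : Nd := .arc (nat_lit 3) n7516 (.fin (nat_lit 545181847) (nat_lit 0))
def n7518 : Nd := .arc (nat_lit 6) n7515 (.arc (nat_lit 9) n7517 (.fin (nat_lit 142487709) (nat_lit 0)))
def n7519 : Nd := .arc (nat_lit 62) n7065 (.arc (nat_lit 65) n7062 (.arc (nat_lit 68) n7058 (.fin (nat_lit 142536861) (nat_lit 0))))
def n7520 : Nd := .arc (nat_lit 9) n7519 (.fin (nat_lit 276721817) (nat_lit 0))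
def n7521 : Nd := .arc (nat_lit 6) n7516 (.fin (nat_lit 142520477) (nat_lit 0))
def n7522 : Nd := .arc (nat_lit 3) n7520 (.arc (nat_lit 6) n7521 (.fin (nat_lit 545165463) (nat_lit 0)))
def n7523 : Nd := .arc (nat_lit 6) n7519 (.fin (nat_lit 545173655) (nat_lit 0))
def n7524 : Nd := .arc (nat_lit 9) n7514 (.arc (nat_lit 64) n7063 (.arc (nat_lit 67) n7064 (.fin (nat_lit 142504093) (nat_lit 0))))
def n7525 : Nd := .arc (nat_lit 3) n7523 (.arc (nat_lit 9) n7524 (.fin (nat_lit 276713625) (nat_lit 0)))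
def n7526 : Nd := .arc (nat_lit 3) n7518 (.arc (nat_lit 6) n7522 (.arc (nat_lit 9) n7525 (.fin (nat_lit 75370651) (nat_lit 0))))
def n7527 : Nd := .arc (nat_lit 6) n7517 (.arc (nat_lit 9) n7515 (.fin (nat_lit 75378843) (nat_lit 0)))
def n7528 : Nd := .arc (nat_lit 50) n7065 (.arc (nat_lit 53) n7062 (.arc (nat_lit 59) n7058 (.fin (nat_lit 75427995) (nat_lit 0))))
def n7529 : Nd := .arc (nat_lit 9) n7528 (.fin (nat_lit 545157271) (nat_lit 0))
def n7530 : Nd := .arc (nat_lit 6) n7514 (.arc (nat_lit 52) n7063 (.arc (nat_lit 58) n7064 (.fin (nat_lit 75411611) (nat_lit 0))))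
def n7531 : Nd := .arc (nat_lit 3) n7529 (.arc (nat_lit 6) n7530 (.fin (nat_lit 276730009) (nat_lit 0)))
def n7532 : Nd := .arc (nat_lit 6) n7528 (.fin (nat_lit 276738201) (nat_lit 0))
def n7533 : Nd := .arc (nat_lit 9) n7516 (.fin (nat_lit 75395227) (nat_lit 0))
def n7534 : Nd := .arc (nat_lit 3) n7532 (.arc (nat_lit 9) n7533 (.fin (nat_lit 545149079) (nat_lit 0)))
def n7535 : Nd := .arc (nat_lit 3) n7527 (.arc (nat_lit 6) n7531 (.arc (nat_lit 9) n7534 (.fin (nat_lit 142479517) (nat_lit 0))))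
def n7536 : Nd := .arc (nat_lit 3) n7519 (.fin (nat_lit 75419803) (nat_lit 0))
def n7537 : Nd := .arc (nat_lit 3) n7528 (.fin (nat_lit 142528669) (nat_lit 0))
def n7538 : Nd := .arc (nat_lit 6) n7536 (.arc (nat_lit 9) n7537 (.fin (nat_lit 276705433) (nat_lit 0)))
def n7539 : Nd := .arc (nat_lit 3) n7533 (.arc (nat_lit 6) n7532 (.fin (nat_lit 142512285) (nat_lit 0)))
def n7540 : Nd := .arc (nat_lit 3) n7521 (.arc (nat_lit 9) n7520 (.fin (nat_lit 75387035) (nat_lit 0)))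
def n7541 : Nd := .arc (nat_lit 3) n7538 (.arc (nat_lit 6) n7539 (.arc (nat_lit 9) n7540 (.fin (nat_lit 545132695) (nat_lit 0))))
def n7542 : Nd := .arc (nat_lit 6) n7537 (.arc (nat_lit 9) n7536 (.fin (nat_lit 545140887) (nat_lit 0)))
def n7543 : Nd := .arc (nat_lit 3) n7524 (.arc (nat_lit 6) n7523 (.fin (nat_lit 75403419) (nat_lit 0)))
def n7544 : Nd := .arc (nat_lit 3) n7530 (.arc (nat_lit 9) n7529 (.fin (nat_lit 142495901) (nat_lit 0)))
def n7545 : Nd := .arc (nat_lit 3) n7542 (.arc (nat_lit 6) n7543 (.arc (nat_lit 9) n7544 (.fin (nat_lit 276697241) (nat_lit 0))))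
def n7546 : Nd := .arc (nat_lit 38) n7526 (.arc (nat_lit 41) n7535 (.arc (nat_lit 44) n7541 (.arc (nat_lit 47) n7545 (.fin (nat_lit 24047771) (nat_lit 0)))))
def n7547 : Nd := .arc (nat_lit 3) n7546 (.fin (nat_lit 24563869) (nat_lit 0))
def n7548 : Nd := .arc (nat_lit 26) n7526 (.arc (nat_lit 29) n7535 (.arc (nat_lit 32) n7545 (.arc (nat_lit 35) n7541 (.fin (nat_lit 24572061) (nat_lit 0)))))
def n7549 : Nd := .arc (nat_lit 3) n7548 (.arc (nat_lit 40) n7518 (.arc (nat_lit 43) n7522 (.arc (nat_lit 46) n7525 (.fin (nat_lit 24039579) (nat_lit 0)))))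
def n7550 : Nd := .arc (nat_lit 6) n7547 (.arc (nat_lit 9) n7549 (.fin (nat_lit 22950039) (nat_lit 0)))
def n7551 : Nd := .arc (nat_lit 50) n7526 (.arc (nat_lit 53) n7535 (.arc (nat_lit 56) n7541 (.arc (nat_lit 59) n7545 (.fin (nat_lit 22999191) (nat_lit 0)))))
def n7552 : Nd := .arc (nat_lit 9) n7551 (.fin (nat_lit 24539293) (nat_lit 0))
def n7553 : Nd := .arc (nat_lit 6) n7548 (.arc (nat_lit 52) n7518 (.arc (nat_lit 55) n7522 (.arc (nat_lit 58) n7525 (.fin (nat_lit 22982807) (nat_lit 0)))))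
def n7554 : Nd := .arc (nat_lit 3) n7552 (.arc (nat_lit 6) n7553 (.fin (nat_lit 24023195) (nat_lit 0)))
def n7555 : Nd := .arc (nat_lit 6) n7551 (.fin (nat_lit 24031387) (nat_lit 0))
def n7556 : Nd := .arc (nat_lit 9) n7546 (.fin (nat_lit 22966423) (nat_lit 0))
def n7557 : Nd := .arc (nat_lit 3) n7555 (.arc (nat_lit 9) n7556 (.fin (nat_lit 24531101) (nat_lit 0)))
def n7558 : Nd := .arc (nat_lit 3) n7550 (.arc (nat_lit 6) n7554 (.arc (nat_lit 9) n7557 (.fin (nat_lit 20844697) (nat_lit 0))))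
def n7559 : Nd := .arc (nat_lit 6) n7549 (.arc (nat_lit 9) n7547 (.fin (nat_lit 20852889) (nat_lit 0)))
def n7560 : Nd := .arc (nat_lit 62) n7526 (.arc (nat_lit 65) n7535 (.arc (nat_lit 68) n7545 (.arc (nat_lit 71) n7541 (.fin (nat_lit 20902041) (nat_lit 0)))))
def n7561 : Nd := .arc (nat_lit 9) n7560 (.fin (nat_lit 24015003) (nat_lit 0))
def n7562 : Nd := .arc (nat_lit 6) n7546 (.fin (nat_lit 20885657) (nat_lit 0))
def n7563 : Nd := .arc (nat_lit 3) n7561 (.arc (nat_lit 6) n7562 (.fin (nat_lit 24547485) (nat_lit 0)))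
def n7564 : Nd := .arc (nat_lit 6) n7560 (.fin (nat_lit 24555677) (nat_lit 0))
def n7565 : Nd := .arc (nat_lit 9) n7548 (.arc (nat_lit 64) n7518 (.arc (nat_lit 67) n7525 (.arc (nat_lit 70) n7522 (.fin (nat_lit 20869273) (nat_lit 0)))))
def n7566 : Nd := .arc (nat_lit 3) n7564 (.arc (nat_lit 9) n7565 (.fin (nat_lit 24006811) (nat_lit 0)))
def n7567 : Nd := .arc (nat_lit 3) n7559 (.arc (nat_lit 6) n7563 (.arc (nat_lit 9) n7566 (.fin (nat_lit 22941847) (nat_lit 0))))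
def n7568 : Nd := .arc (nat_lit 3) n7560 (.fin (nat_lit 22990999) (nat_lit 0))
def n7569 : Nd := .arc (nat_lit 3) n7551 (.fin (nat_lit 20893849) (nat_lit 0))
def n7570 : Nd := .arc (nat_lit 6) n7568 (.arc (nat_lit 9) n7569 (.fin (nat_lit 23998619) (nat_lit 0)))
def n7571 : Nd := .arc (nat_lit 3) n7556 (.arc (nat_lit 6) n7555 (.fin (nat_lit 20877465) (nat_lit 0)))
def n7572 : Nd := .arc (nat_lit 3) n7562 (.arc (nat_lit 9) n7561 (.fin (nat_lit 22958231) (nat_lit 0)))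
def n7573 : Nd := .arc (nat_lit 3) n7570 (.arc (nat_lit 6) n7571 (.arc (nat_lit 9) n7572 (.fin (nat_lit 24514717) (nat_lit 0))))
def n7574 : Nd := .arc (nat_lit 6) n7569 (.arc (nat_lit 9) n7568 (.fin (nat_lit 24522909) (nat_lit 0)))
def n7575 : Nd := .arc (nat_lit 3) n7565 (.arc (nat_lit 6) n7564 (.fin (nat_lit 22974615) (nat_lit 0)))
def n7576 : Nd := .arc (nat_lit 3) n7553 (.arc (nat_lit 9) n7552 (.fin (nat_lit 20861081) (nat_lit 0)))
def n7577 : Nd := .arc (nat_lit 3) n7574 (.arc (nat_lit 6) n7575 (.arc (nat_lit 9) n7576 (.fin (nat_lit 23990427) (nat_lit 0))))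
def n7578 : Nd := .arc (nat_lit 50) n7093 (.arc (nat_lit 53) n7097 (.arc (nat_lit 56) n7078 (.arc (nat_lit 59) n7087 (.fin (nat_lit 274657433) (nat_lit 0)))))
def n7579 : Nd := .arc (nat_lit 3) n7578 (.fin (nat_lit 540987543) (nat_lit 0))
def n7580 : Nd := .arc (nat_lit 62) n7093 (.arc (nat_lit 65) n7097 (.arc (nat_lit 68) n7087 (.arc (nat_lit 71) n7078 (.fin (nat_lit 540995735) (nat_lit 0)))))
def n7581 : Nd := .arc (nat_lit 3) n7580 (.fin (nat_lit 274649241) (nat_lit 0))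
def n7582 : Nd := .arc (nat_lit 6) n7579 (.arc (nat_lit 9) n7581 (.fin (nat_lit 74854555) (nat_lit 0)))
def n7583 : Nd := .arc (nat_lit 26) n7093 (.arc (nat_lit 29) n7097 (.arc (nat_lit 32) n7087 (.arc (nat_lit 35) n7078 (.fin (nat_lit 74903707) (nat_lit 0)))))
def n7584 : Nd := .arc (nat_lit 9) n7583 (.arc (nat_lit 64) n7090 (.arc (nat_lit 67) n7092 (.arc (nat_lit 70) n7091 (.fin (nat_lit 540962967) (nat_lit 0)))))
def n7585 : Nd := .arc (nat_lit 6) n7580 (.fin (nat_lit 74887323) (nat_lit 0))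
def n7586 : Nd := .arc (nat_lit 3) n7584 (.arc (nat_lit 6) n7585 (.fin (nat_lit 274632857) (nat_lit 0)))
def n7587 : Nd := .arc (nat_lit 6) n7583 (.arc (nat_lit 52) n7090 (.arc (nat_lit 55) n7091 (.arc (nat_lit 58) n7092 (.fin (nat_lit 274641049) (nat_lit 0)))))
def n7588 : Nd := .arc (nat_lit 9) n7578 (.fin (nat_lit 74870939) (nat_lit 0))
def n7589 : Nd := .arc (nat_lit 3) n7587 (.arc (nat_lit 9) n7588 (.fin (nat_lit 540954775) (nat_lit 0)))
def n7590 : Nd := .arc (nat_lit 3) n7582 (.arc (nat_lit 6) n7586 (.arc (nat_lit 9) n7589 (.fin (nat_lit 141430941) (nat_lit 0))))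
def n7591 : Nd := .arc (nat_lit 6) n7581 (.arc (nat_lit 9) n7579 (.fin (nat_lit 141439133) (nat_lit 0)))
def n7592 : Nd := .arc (nat_lit 38) n7093 (.arc (nat_lit 41) n7097 (.arc (nat_lit 44) n7078 (.arc (nat_lit 47) n7087 (.fin (nat_lit 141488285) (nat_lit 0)))))
def n7593 : Nd := .arc (nat_lit 9) n7592 (.fin (nat_lit 274624665) (nat_lit 0))
def n7594 : Nd := .arc (nat_lit 6) n7578 (.fin (nat_lit 141471901) (nat_lit 0))
def n7595 : Nd := .arc (nat_lit 3) n7593 (.arc (nat_lit 6) n7594 (.fin (nat_lit 540971159) (nat_lit 0)))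
def n7596 : Nd := .arc (nat_lit 6) n7592 (.fin (nat_lit 540979351) (nat_lit 0))
def n7597 : Nd := .arc (nat_lit 9) n7580 (.fin (nat_lit 141455517) (nat_lit 0))
def n7598 : Nd := .arc (nat_lit 3) n7596 (.arc (nat_lit 9) n7597 (.fin (nat_lit 274616473) (nat_lit 0)))
def n7599 : Nd := .arc (nat_lit 3) n7591 (.arc (nat_lit 6) n7595 (.arc (nat_lit 9) n7598 (.fin (nat_lit 74846363) (nat_lit 0))))
def n7600 : Nd := .arc (nat_lit 3) n7583 (.arc (nat_lit 40) n7090 (.arc (nat_lit 43) n7091 (.arc (nat_lit 46) n7092 (.fin (nat_lit 141480093) (nat_lit 0)))))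
def n7601 : Nd := .arc (nat_lit 3) n7592 (.fin (nat_lit 74895515) (nat_lit 0))
def n7602 : Nd := .arc (nat_lit 6) n7600 (.arc (nat_lit 9) n7601 (.fin (nat_lit 540946583) (nat_lit 0)))
def n7603 : Nd := .arc (nat_lit 3) n7597 (.arc (nat_lit 6) n7596 (.fin (nat_lit 74879131) (nat_lit 0)))
def n7604 : Nd := .arc (nat_lit 3) n7585 (.arc (nat_lit 9) n7584 (.fin (nat_lit 141447325) (nat_lit 0)))
def n7605 : Nd := .arc (nat_lit 3) n7602 (.arc (nat_lit 6) n7603 (.arc (nat_lit 9) n7604 (.fin (nat_lit 274600089) (nat_lit 0))))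
def n7606 : Nd := .arc (nat_lit 6) n7601 (.arc (nat_lit 9) n7600 (.fin (nat_lit 274608281) (nat_lit 0)))
def n7607 : Nd := .arc (nat_lit 3) n7588 (.arc (nat_lit 6) n7587 (.fin (nat_lit 141463709) (nat_lit 0)))
def n7608 : Nd := .arc (nat_lit 3) n7594 (.arc (nat_lit 9) n7593 (.fin (nat_lit 74862747) (nat_lit 0)))
def n7609 : Nd := .arc (nat_lit 3) n7606 (.arc (nat_lit 6) n7607 (.arc (nat_lit 9) n7608 (.fin (nat_lit 540938391) (nat_lit 0))))
def n7610 : Nd := .arc (nat_lit 14) n7558 (.arc (nat_lit 17) n7567 (.arc (nat_lit 20) n7573 (.arc (nat_lit 23) n7577 (.arc (nat_lit 50) n7590 (.arc (nat_lit 53) n7599 (.arc (nat_lit 56) n7605 (.arc (nat_lit 59) n7609 (.fin (nat_lit 39514265) (nat_lit 0)))))))))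
def n7611 : Nd := .arc (nat_lit 3) n7610 (.fin (nat_lit 37408919) (nat_lit 0))
def n7612 : Nd := .arc (nat_lit 14) n7567 (.arc (nat_lit 17) n7558 (.arc (nat_lit 20) n7577 (.arc (nat_lit 23) n7573 (.arc (nat_lit 62) n7590 (.arc (nat_lit 65) n7599 (.arc (nat_lit 68) n7609 (.arc (nat_lit 71) n7605 (.fin (nat_lit 37417111) (nat_lit 0)))))))))
def n7613 : Nd := .arc (nat_lit 3) n7612 (.fin (nat_lit 39506073) (nat_lit 0))
def n7614 : Nd := .arc (nat_lit 6) n7611 (.arc (nat_lit 9) n7613 (.fin (nat_lit 41037979) (nat_lit 0)))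
def n7615 : Nd := .arc (nat_lit 14) n7573 (.arc (nat_lit 17) n7577 (.arc (nat_lit 20) n7567 (.arc (nat_lit 23) n7558 (.arc (nat_lit 26) n7590 (.arc (nat_lit 29) n7599 (.arc (nat_lit 32) n7609 (.arc (nat_lit 35) n7605 (.fin (nat_lit 41087131) (nat_lit 0)))))))))
def n7616 : Nd := .arc (nat_lit 9) n7615 (.arc (nat_lit 64) n7582 (.arc (nat_lit 67) n7589 (.arc (nat_lit 70) n7586 (.fin (nat_lit 37384343) (nat_lit 0)))))
def n7617 : Nd := .arc (nat_lit 6) n7612 (.fin (nat_lit 41070747) (nat_lit 0))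
def n7618 : Nd := .arc (nat_lit 3) n7616 (.arc (nat_lit 6) n7617 (.fin (nat_lit 39489689) (nat_lit 0)))
def n7619 : Nd := .arc (nat_lit 6) n7615 (.arc (nat_lit 52) n7582 (.arc (nat_lit 55) n7586 (.arc (nat_lit 58) n7589 (.fin (nat_lit 39497881) (nat_lit 0)))))
def n7620 : Nd := .arc (nat_lit 9) n7610 (.fin (nat_lit 41054363) (nat_lit 0))
def n7621 : Nd := .arc (nat_lit 3) n7619 (.arc (nat_lit 9) n7620 (.fin (nat_lit 37376151) (nat_lit 0)))
def n7622 : Nd := .arc (nat_lit 3) n7614 (.arc (nat_lit 6) n7618 (.arc (nat_lit 9) n7621 (.fin (nat_lit 40505501) (nat_lit 0))))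
def n7623 : Nd := .arc (nat_lit 6) n7613 (.arc (nat_lit 9) n7611 (.fin (nat_lit 40513693) (nat_lit 0)))
def n7624 : Nd := .arc (nat_lit 14) n7577 (.arc (nat_lit 17) n7573 (.arc (nat_lit 20) n7558 (.arc (nat_lit 23) n7567 (.arc (nat_lit 38) n7590 (.arc (nat_lit 41) n7599 (.arc (nat_lit 44) n7605 (.arc (nat_lit 47) n7609 (.fin (nat_lit 40562845) (nat_lit 0)))))))))
def n7625 : Nd := .arc (nat_lit 9) n7624 (.fin (nat_lit 39481497) (nat_lit 0))
def n7626 : Nd := .arc (nat_lit 6) n7610 (.fin (nat_lit 40546461) (nat_lit 0))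
def n7627 : Nd := .arc (nat_lit 3) n7625 (.arc (nat_lit 6) n7626 (.fin (nat_lit 37392535) (nat_lit 0)))
def n7628 : Nd := .arc (nat_lit 6) n7624 (.fin (nat_lit 37400727) (nat_lit 0))
def n7629 : Nd := .arc (nat_lit 9) n7612 (.fin (nat_lit 40530077) (nat_lit 0))
def n7630 : Nd := .arc (nat_lit 3) n7628 (.arc (nat_lit 9) n7629 (.fin (nat_lit 39473305) (nat_lit 0)))
def n7631 : Nd := .arc (nat_lit 3) n7623 (.arc (nat_lit 6) n7627 (.arc (nat_lit 9) n7630 (.fin (nat_lit 41029787) (nat_lit 0))))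
def n7632 : Nd := .arc (nat_lit 3) n7624 (.fin (nat_lit 41078939) (nat_lit 0))
def n7633 : Nd := .arc (nat_lit 3) n7615 (.arc (nat_lit 40) n7582 (.arc (nat_lit 43) n7586 (.arc (nat_lit 46) n7589 (.fin (nat_lit 40554653) (nat_lit 0)))))
def n7634 : Nd := .arc (nat_lit 6) n7632 (.arc (nat_lit 9) n7633 (.fin (nat_lit 39465113) (nat_lit 0)))
def n7635 : Nd := .arc (nat_lit 3) n7620 (.arc (nat_lit 6) n7619 (.fin (nat_lit 40538269) (nat_lit 0)))
def n7636 : Nd := .arc (nat_lit 3) n7626 (.arc (nat_lit 9) n7625 (.fin (nat_lit 41046171) (nat_lit 0)))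
def n7637 : Nd := .arc (nat_lit 3) n7634 (.arc (nat_lit 6) n7635 (.arc (nat_lit 9) n7636 (.fin (nat_lit 37359767) (nat_lit 0))))
def n7638 : Nd := .arc (nat_lit 6) n7633 (.arc (nat_lit 9) n7632 (.fin (nat_lit 37367959) (nat_lit 0)))
def n7639 : Nd := .arc (nat_lit 3) n7629 (.arc (nat_lit 6) n7628 (.fin (nat_lit 41062555) (nat_lit 0)))
def n7640 : Nd := .arc (nat_lit 3) n7617 (.arc (nat_lit 9) n7616 (.fin (nat_lit 40521885) (nat_lit 0)))
def n7641 : Nd := .arc (nat_lit 3) n7638 (.arc (nat_lit 6) n7639 (.arc (nat_lit 9) n7640 (.fin (nat_lit 39456921) (nat_lit 0))))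
def n7642 : Nd := .arc (nat_lit 38) n7535 (.arc (nat_lit 41) n7526 (.arc (nat_lit 44) n7545 (.arc (nat_lit 47) n7541 (.fin (nat_lit 40824989) (nat_lit 0)))))
def n7643 : Nd := .arc (nat_lit 3) n7642 (.fin (nat_lit 41341083) (nat_lit 0))
def n7644 : Nd := .arc (nat_lit 26) n7535 (.arc (nat_lit 29) n7526 (.arc (nat_lit 32) n7541 (.arc (nat_lit 35) n7545 (.fin (nat_lit 41349275) (nat_lit 0)))))
def n7645 : Nd := .arc (nat_lit 3) n7644 (.arc (nat_lit 40) n7527 (.arc (nat_lit 43) n7531 (.arc (nat_lit 46) n7534 (.fin (nat_lit 40816797) (nat_lit 0)))))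
def n7646 : Nd := .arc (nat_lit 6) n7643 (.arc (nat_lit 9) n7645 (.fin (nat_lit 39727257) (nat_lit 0)))
def n7647 : Nd := .arc (nat_lit 50) n7535 (.arc (nat_lit 53) n7526 (.arc (nat_lit 56) n7545 (.arc (nat_lit 59) n7541 (.fin (nat_lit 39776409) (nat_lit 0)))))
def n7648 : Nd := .arc (nat_lit 9) n7647 (.fin (nat_lit 41316507) (nat_lit 0))
def n7649 : Nd := .arc (nat_lit 6) n7644 (.arc (nat_lit 52) n7527 (.arc (nat_lit 55) n7531 (.arc (nat_lit 58) n7534 (.fin (nat_lit 39760025) (nat_lit 0)))))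
def n7650 : Nd := .arc (nat_lit 3) n7648 (.arc (nat_lit 6) n7649 (.fin (nat_lit 40800413) (nat_lit 0)))
def n7651 : Nd := .arc (nat_lit 6) n7647 (.fin (nat_lit 40808605) (nat_lit 0))
def n7652 : Nd := .arc (nat_lit 9) n7642 (.fin (nat_lit 39743641) (nat_lit 0))
def n7653 : Nd := .arc (nat_lit 3) n7651 (.arc (nat_lit 9) n7652 (.fin (nat_lit 41308315) (nat_lit 0)))
def n7654 : Nd := .arc (nat_lit 3) n7646 (.arc (nat_lit 6) n7650 (.arc (nat_lit 9) n7653 (.fin (nat_lit 37621911) (nat_lit 0))))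
def n7655 : Nd := .arc (nat_lit 6) n7645 (.arc (nat_lit 9) n7643 (.fin (nat_lit 37630103) (nat_lit 0)))
def n7656 : Nd := .arc (nat_lit 62) n7535 (.arc (nat_lit 65) n7526 (.arc (nat_lit 68) n7541 (.arc (nat_lit 71) n7545 (.fin (nat_lit 37679255) (nat_lit 0)))))
def n7657 : Nd := .arc (nat_lit 9) n7656 (.fin (nat_lit 40792221) (nat_lit 0))
def n7658 : Nd := .arc (nat_lit 6) n7642 (.fin (nat_lit 37662871) (nat_lit 0))
def n7659 : Nd := .arc (nat_lit 3) n7657 (.arc (nat_lit 6) n7658 (.fin (nat_lit 41324699) (nat_lit 0)))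
def n7660 : Nd := .arc (nat_lit 6) n7656 (.fin (nat_lit 41332891) (nat_lit 0))
def n7661 : Nd := .arc (nat_lit 9) n7644 (.arc (nat_lit 64) n7527 (.arc (nat_lit 67) n7534 (.arc (nat_lit 70) n7531 (.fin (nat_lit 37646487) (nat_lit 0)))))
def n7662 : Nd := .arc (nat_lit 3) n7660 (.arc (nat_lit 9) n7661 (.fin (nat_lit 40784029) (nat_lit 0)))
def n7663 : Nd := .arc (nat_lit 3) n7655 (.arc (nat_lit 6) n7659 (.arc (nat_lit 9) n7662 (.fin (nat_lit 39719065) (nat_lit 0))))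
def n7664 : Nd := .arc (nat_lit 3) n7656 (.fin (nat_lit 39768217) (nat_lit 0))
def n7665 : Nd := .arc (nat_lit 3) n7647 (.fin (nat_lit 37671063) (nat_lit 0))
def n7666 : Nd := .arc (nat_lit 6) n7664 (.arc (nat_lit 9) n7665 (.fin (nat_lit 40775837) (nat_lit 0)))
def n7667 : Nd := .arc (nat_lit 3) n7652 (.arc (nat_lit 6) n7651 (.fin (nat_lit 37654679) (nat_lit 0)))
def n7668 : Nd := .arc (nat_lit 3) n7658 (.arc (nat_lit 9) n7657 (.fin (nat_lit 39735449) (nat_lit 0)))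
def n7669 : Nd := .arc (nat_lit 3) n7666 (.arc (nat_lit 6) n7667 (.arc (nat_lit 9) n7668 (.fin (nat_lit 41291931) (nat_lit 0))))
def n7670 : Nd := .arc (nat_lit 6) n7665 (.arc (nat_lit 9) n7664 (.fin (nat_lit 41300123) (nat_lit 0)))
def n7671 : Nd := .arc (nat_lit 3) n7661 (.arc (nat_lit 6) n7660 (.fin (nat_lit 39751833) (nat_lit 0)))
def n7672 : Nd := .arc (nat_lit 3) n7649 (.arc (nat_lit 9) n7648 (.fin (nat_lit 37638295) (nat_lit 0)))
def n7673 : Nd := .arc (nat_lit 3) n7670 (.arc (nat_lit 6) n7671 (.arc (nat_lit 9) n7672 (.fin (nat_lit 40767645) (nat_lit 0))))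
def n7674 : Nd := .arc (nat_lit 50) n7157 (.arc (nat_lit 53) n7161 (.arc (nat_lit 56) n7142 (.arc (nat_lit 59) n7151 (.fin (nat_lit 543092887) (nat_lit 0)))))
def n7675 : Nd := .arc (nat_lit 3) n7674 (.fin (nat_lit 272552089) (nat_lit 0))
def n7676 : Nd := .arc (nat_lit 62) n7157 (.arc (nat_lit 65) n7161 (.arc (nat_lit 68) n7151 (.arc (nat_lit 71) n7142 (.fin (nat_lit 272560281) (nat_lit 0)))))
def n7677 : Nd := .arc (nat_lit 3) n7676 (.fin (nat_lit 543084695) (nat_lit 0))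
def n7678 : Nd := .arc (nat_lit 6) n7675 (.arc (nat_lit 9) n7677 (.fin (nat_lit 141963421) (nat_lit 0)))
def n7679 : Nd := .arc (nat_lit 26) n7157 (.arc (nat_lit 29) n7161 (.arc (nat_lit 32) n7151 (.arc (nat_lit 35) n7142 (.fin (nat_lit 142012573) (nat_lit 0)))))
def n7680 : Nd := .arc (nat_lit 9) n7679 (.arc (nat_lit 64) n7154 (.arc (nat_lit 67) n7156 (.arc (nat_lit 70) n7155 (.fin (nat_lit 272527513) (nat_lit 0)))))
def n7681 : Nd := .arc (nat_lit 6) n7676 (.fin (nat_lit 141996189) (nat_lit 0))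
def n7682 : Nd := .arc (nat_lit 3) n7680 (.arc (nat_lit 6) n7681 (.fin (nat_lit 543068311) (nat_lit 0)))
def n7683 : Nd := .arc (nat_lit 6) n7679 (.arc (nat_lit 52) n7154 (.arc (nat_lit 55) n7155 (.arc (nat_lit 58) n7156 (.fin (nat_lit 543076503) (nat_lit 0)))))
def n7684 : Nd := .arc (nat_lit 9) n7674 (.fin (nat_lit 141979805) (nat_lit 0))
def n7685 : Nd := .arc (nat_lit 3) n7683 (.arc (nat_lit 9) n7684 (.fin (nat_lit 272519321) (nat_lit 0)))
def n7686 : Nd := .arc (nat_lit 3) n7678 (.arc (nat_lit 6) n7682 (.arc (nat_lit 9) n7685 (.fin (nat_lit 74322075) (nat_lit 0))))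
def n7687 : Nd := .arc (nat_lit 6) n7677 (.arc (nat_lit 9) n7675 (.fin (nat_lit 74330267) (nat_lit 0)))
def n7688 : Nd := .arc (nat_lit 38) n7157 (.arc (nat_lit 41) n7161 (.arc (nat_lit 44) n7142 (.arc (nat_lit 47) n7151 (.fin (nat_lit 74379419) (nat_lit 0)))))
def n7689 : Nd := .arc (nat_lit 9) n7688 (.fin (nat_lit 543060119) (nat_lit 0))
def n7690 : Nd := .arc (nat_lit 6) n7674 (.fin (nat_lit 74363035) (nat_lit 0))
def n7691 : Nd := .arc (nat_lit 3) n7689 (.arc (nat_lit 6) n7690 (.fin (nat_lit 272535705) (nat_lit 0)))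
def n7692 : Nd := .arc (nat_lit 6) n7688 (.fin (nat_lit 272543897) (nat_lit 0))
def n7693 : Nd := .arc (nat_lit 9) n7676 (.fin (nat_lit 74346651) (nat_lit 0))
def n7694 : Nd := .arc (nat_lit 3) n7692 (.arc (nat_lit 9) n7693 (.fin (nat_lit 543051927) (nat_lit 0)))
def n7695 : Nd := .arc (nat_lit 3) n7687 (.arc (nat_lit 6) n7691 (.arc (nat_lit 9) n7694 (.fin (nat_lit 141955229) (nat_lit 0))))
def n7696 : Nd := .arc (nat_lit 3) n7679 (.arc (nat_lit 40) n7154 (.arc (nat_lit 43) n7155 (.arc (nat_lit 46) n7156 (.fin (nat_lit 74371227) (nat_lit 0)))))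
def n7697 : Nd := .arc (nat_lit 3) n7688 (.fin (nat_lit 142004381) (nat_lit 0))
def n7698 : Nd := .arc (nat_lit 6) n7696 (.arc (nat_lit 9) n7697 (.fin (nat_lit 272511129) (nat_lit 0)))
def n7699 : Nd := .arc (nat_lit 3) n7693 (.arc (nat_lit 6) n7692 (.fin (nat_lit 141987997) (nat_lit 0)))
def n7700 : Nd := .arc (nat_lit 3) n7681 (.arc (nat_lit 9) n7680 (.fin (nat_lit 74338459) (nat_lit 0)))
def n7701 : Nd := .arc (nat_lit 3) n7698 (.arc (nat_lit 6) n7699 (.arc (nat_lit 9) n7700 (.fin (nat_lit 543035543) (nat_lit 0))))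
def n7702 : Nd := .arc (nat_lit 6) n7697 (.arc (nat_lit 9) n7696 (.fin (nat_lit 543043735) (nat_lit 0)))
def n7703 : Nd := .arc (nat_lit 3) n7684 (.arc (nat_lit 6) n7683 (.fin (nat_lit 74354843) (nat_lit 0)))
def n7704 : Nd := .arc (nat_lit 3) n7690 (.arc (nat_lit 9) n7689 (.fin (nat_lit 141971613) (nat_lit 0)))
def n7705 : Nd := .arc (nat_lit 3) n7702 (.arc (nat_lit 6) n7703 (.arc (nat_lit 9) n7704 (.fin (nat_lit 272502937) (nat_lit 0))))
def n7706 : Nd := .arc (nat_lit 14) n7654 (.arc (nat_lit 17) n7663 (.arc (nat_lit 20) n7669 (.arc (nat_lit 23) n7673 (.arc (nat_lit 50) n7686 (.arc (nat_lit 53) n7695 (.arc (nat_lit 56) n7701 (.arc (nat_lit 59) n7705 (.fin (nat_lit 22737047) (nat_lit 0)))))))))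
def n7707 : Nd := .arc (nat_lit 3) n7706 (.fin (nat_lit 20631705) (nat_lit 0))
def n7708 : Nd := .arc (nat_lit 14) n7663 (.arc (nat_lit 17) n7654 (.arc (nat_lit 20) n7673 (.arc (nat_lit 23) n7669 (.arc (nat_lit 62) n7686 (.arc (nat_lit 65) n7695 (.arc (nat_lit 68) n7705 (.arc (nat_lit 71) n7701 (.fin (nat_lit 20639897) (nat_lit 0)))))))))
def n7709 : Nd := .arc (nat_lit 3) n7708 (.fin (nat_lit 22728855) (nat_lit 0))
def n7710 : Nd := .arc (nat_lit 6) n7707 (.arc (nat_lit 9) n7709 (.fin (nat_lit 24260765) (nat_lit 0)))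
def n7711 : Nd := .arc (nat_lit 14) n7669 (.arc (nat_lit 17) n7673 (.arc (nat_lit 20) n7663 (.arc (nat_lit 23) n7654 (.arc (nat_lit 26) n7686 (.arc (nat_lit 29) n7695 (.arc (nat_lit 32) n7705 (.arc (nat_lit 35) n7701 (.fin (nat_lit 24309917) (nat_lit 0)))))))))
def n7712 : Nd := .arc (nat_lit 9) n7711 (.arc (nat_lit 64) n7678 (.arc (nat_lit 67) n7685 (.arc (nat_lit 70) n7682 (.fin (nat_lit 20607129) (nat_lit 0)))))
def n7713 : Nd := .arc (nat_lit 6) n7708 (.fin (nat_lit 24293533) (nat_lit 0))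
def n7714 : Nd := .arc (nat_lit 3) n7712 (.arc (nat_lit 6) n7713 (.fin (nat_lit 22712471) (nat_lit 0)))
def n7715 : Nd := .arc (nat_lit 6) n7711 (.arc (nat_lit 52) n7678 (.arc (nat_lit 55) n7682 (.arc (nat_lit 58) n7685 (.fin (nat_lit 22720663) (nat_lit 0)))))
def n7716 : Nd := .arc (nat_lit 9) n7706 (.fin (nat_lit 24277149) (nat_lit 0))
def n7717 : Nd := .arc (nat_lit 3) n7715 (.arc (nat_lit 9) n7716 (.fin (nat_lit 20598937) (nat_lit 0)))
def n7718 : Nd := .arc (nat_lit 3) n7710 (.arc (nat_lit 6) n7714 (.arc (nat_lit 9) n7717 (.fin (nat_lit 23728283) (nat_lit 0))))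
def n7719 : Nd := .arc (nat_lit 6) n7709 (.arc (nat_lit 9) n7707 (.fin (nat_lit 23736475) (nat_lit 0)))
def n7720 : Nd := .arc (nat_lit 14) n7673 (.arc (nat_lit 17) n7669 (.arc (nat_lit 20) n7654 (.arc (nat_lit 23) n7663 (.arc (nat_lit 38) n7686 (.arc (nat_lit 41) n7695 (.arc (nat_lit 44) n7701 (.arc (nat_lit 47) n7705 (.fin (nat_lit 23785627) (nat_lit 0)))))))))
def n7721 : Nd := .arc (nat_lit 9) n7720 (.fin (nat_lit 22704279) (nat_lit 0))
def n7722 : Nd := .arc (nat_lit 6) n7706 (.fin (nat_lit 23769243) (nat_lit 0))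
def n7723 : Nd := .arc (nat_lit 3) n7721 (.arc (nat_lit 6) n7722 (.fin (nat_lit 20615321) (nat_lit 0)))
def n7724 : Nd := .arc (nat_lit 6) n7720 (.fin (nat_lit 20623513) (nat_lit 0))
def n7725 : Nd := .arc (nat_lit 9) n7708 (.fin (nat_lit 23752859) (nat_lit 0))
def n7726 : Nd := .arc (nat_lit 3) n7724 (.arc (nat_lit 9) n7725 (.fin (nat_lit 22696087) (nat_lit 0)))
def n7727 : Nd := .arc (nat_lit 3) n7719 (.arc (nat_lit 6) n7723 (.arc (nat_lit 9) n7726 (.fin (nat_lit 24252573) (nat_lit 0))))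
def n7728 : Nd := .arc (nat_lit 3) n7711 (.arc (nat_lit 40) n7678 (.arc (nat_lit 43) n7682 (.arc (nat_lit 46) n7685 (.fin (nat_lit 23777435) (nat_lit 0)))))
def n7729 : Nd := .arc (nat_lit 3) n7720 (.fin (nat_lit 24301725) (nat_lit 0))
def n7730 : Nd := .arc (nat_lit 6) n7728 (.arc (nat_lit 9) n7729 (.fin (nat_lit 20590745) (nat_lit 0)))
def n7731 : Nd := .arc (nat_lit 3) n7725 (.arc (nat_lit 6) n7724 (.fin (nat_lit 24285341) (nat_lit 0)))
def n7732 : Nd := .arc (nat_lit 3) n7713 (.arc (nat_lit 9) n7712 (.fin (nat_lit 23744667) (nat_lit 0)))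
def n7733 : Nd := .arc (nat_lit 3) n7730 (.arc (nat_lit 6) n7731 (.arc (nat_lit 9) n7732 (.fin (nat_lit 22679703) (nat_lit 0))))
def n7734 : Nd := .arc (nat_lit 6) n7729 (.arc (nat_lit 9) n7728 (.fin (nat_lit 22687895) (nat_lit 0)))
def n7735 : Nd := .arc (nat_lit 3) n7716 (.arc (nat_lit 6) n7715 (.fin (nat_lit 23761051) (nat_lit 0)))
def n7736 : Nd := .arc (nat_lit 3) n7722 (.arc (nat_lit 9) n7721 (.fin (nat_lit 24268957) (nat_lit 0)))
def n7737 : Nd := .arc (nat_lit 3) n7734 (.arc (nat_lit 6) n7735 (.arc (nat_lit 9) n7736 (.fin (nat_lit 20582553) (nat_lit 0))))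
def n7738 : Nd := .arc (nat_lit 14) n7494 (.arc (nat_lit 17) n7503 (.arc (nat_lit 20) n7509 (.arc (nat_lit 23) n7513 (.arc (nat_lit 26) n7622 (.arc (nat_lit 29) n7631 (.arc (nat_lit 32) n7637 (.arc (nat_lit 35) n7641 (.arc (nat_lit 38) n7718 (.arc (nat_lit 41) n7727 (.arc (nat_lit 44) n7733 (.arc (nat_lit 47) n7737 (.fin (nat_lit 140701851) (nat_lit 0)))))))))))))
def n7739 : Nd := .arc (nat_lit 3) n7738 (.arc (nat_lit 40) n7614 (.arc (nat_lit 43) n7618 (.arc (nat_lit 46) n7621 (.fin (nat_lit 73584797) (nat_lit 0)))))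
def n7740 : Nd := .arc (nat_lit 14) n7503 (.arc (nat_lit 17) n7494 (.arc (nat_lit 20) n7513 (.arc (nat_lit 23) n7509 (.arc (nat_lit 26) n7718 (.arc (nat_lit 29) n7727 (.arc (nat_lit 32) n7737 (.arc (nat_lit 35) n7733 (.arc (nat_lit 38) n7622 (.arc (nat_lit 41) n7631 (.arc (nat_lit 44) n7641 (.arc (nat_lit 47) n7637 (.fin (nat_lit 73592989) (nat_lit 0)))))))))))))
def n7741 : Nd := .arc (nat_lit 3) n7740 (.arc (nat_lit 40) n7710 (.arc (nat_lit 43) n7714 (.arc (nat_lit 46) n7717 (.fin (nat_lit 140693659) (nat_lit 0)))))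
def n7742 : Nd := .arc (nat_lit 6) n7739 (.arc (nat_lit 9) n7741 (.fin (nat_lit 270151831) (nat_lit 0)))
def n7743 : Nd := .arc (nat_lit 14) n7509 (.arc (nat_lit 17) n7513 (.arc (nat_lit 20) n7503 (.arc (nat_lit 23) n7494 (.arc (nat_lit 50) n7718 (.arc (nat_lit 53) n7727 (.arc (nat_lit 56) n7733 (.arc (nat_lit 59) n7737 (.arc (nat_lit 62) n7622 (.arc (nat_lit 65) n7631 (.arc (nat_lit 68) n7637 (.arc (nat_lit 71) n7641 (.fin (nat_lit 270200983) (nat_lit 0)))))))))))))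
def n7744 : Nd := .arc (nat_lit 9) n7743 (.fin (nat_lit 73560221) (nat_lit 0))
def n7745 : Nd := .arc (nat_lit 6) n7740 (.arc (nat_lit 52) n7710 (.arc (nat_lit 55) n7714 (.arc (nat_lit 58) n7717 (.fin (nat_lit 270184599) (nat_lit 0)))))
def n7746 : Nd := .arc (nat_lit 3) n7744 (.arc (nat_lit 6) n7745 (.fin (nat_lit 140677275) (nat_lit 0)))
def n7747 : Nd := .arc (nat_lit 6) n7743 (.fin (nat_lit 140685467) (nat_lit 0))
def n7748 : Nd := .arc (nat_lit 9) n7738 (.arc (nat_lit 64) n7614 (.arc (nat_lit 67) n7621 (.arc (nat_lit 70) n7618 (.fin (nat_lit 270168215) (nat_lit 0)))))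
def n7749 : Nd := .arc (nat_lit 3) n7747 (.arc (nat_lit 9) n7748 (.fin (nat_lit 73552029) (nat_lit 0)))
def n7750 : Nd := .arc (nat_lit 3) n7742 (.arc (nat_lit 6) n7746 (.arc (nat_lit 9) n7749 (.fin (nat_lit 538579097) (nat_lit 0))))
def n7751 : Nd := .arc (nat_lit 6) n7741 (.arc (nat_lit 9) n7739 (.fin (nat_lit 538587289) (nat_lit 0)))
def n7752 : Nd := .arc (nat_lit 14) n7513 (.arc (nat_lit 17) n7509 (.arc (nat_lit 20) n7494 (.arc (nat_lit 23) n7503 (.arc (nat_lit 50) n7622 (.arc (nat_lit 53) n7631 (.arc (nat_lit 56) n7641 (.arc (nat_lit 59) n7637 (.arc (nat_lit 62) n7718 (.arc (nat_lit 65) n7727 (.arc (nat_lit 68) n7737 (.arc (nat_lit 71) n7733 (.fin (nat_lit 538636441) (nat_lit 0)))))))))))))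
def n7753 : Nd := .arc (nat_lit 9) n7752 (.fin (nat_lit 140669083) (nat_lit 0))
def n7754 : Nd := .arc (nat_lit 6) n7738 (.arc (nat_lit 52) n7614 (.arc (nat_lit 55) n7618 (.arc (nat_lit 58) n7621 (.fin (nat_lit 538620057) (nat_lit 0)))))
def n7755 : Nd := .arc (nat_lit 3) n7753 (.arc (nat_lit 6) n7754 (.fin (nat_lit 73568413) (nat_lit 0)))
def n7756 : Nd := .arc (nat_lit 6) n7752 (.fin (nat_lit 73576605) (nat_lit 0))
def n7757 : Nd := .arc (nat_lit 9) n7740 (.arc (nat_lit 64) n7710 (.arc (nat_lit 67) n7717 (.arc (nat_lit 70) n7714 (.fin (nat_lit 538603673) (nat_lit 0)))))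
def n7758 : Nd := .arc (nat_lit 3) n7756 (.arc (nat_lit 9) n7757 (.fin (nat_lit 140660891) (nat_lit 0)))
def n7759 : Nd := .arc (nat_lit 3) n7751 (.arc (nat_lit 6) n7755 (.arc (nat_lit 9) n7758 (.fin (nat_lit 270143639) (nat_lit 0))))
def n7760 : Nd := .arc (nat_lit 3) n7743 (.fin (nat_lit 538628249) (nat_lit 0))
def n7761 : Nd := .arc (nat_lit 3) n7752 (.fin (nat_lit 270192791) (nat_lit 0))
def n7762 : Nd := .arc (nat_lit 6) n7760 (.arc (nat_lit 9) n7761 (.fin (nat_lit 73543837) (nat_lit 0)))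
def n7763 : Nd := .arc (nat_lit 3) n7757 (.arc (nat_lit 6) n7756 (.fin (nat_lit 270176407) (nat_lit 0)))
def n7764 : Nd := .arc (nat_lit 3) n7745 (.arc (nat_lit 9) n7744 (.fin (nat_lit 538595481) (nat_lit 0)))
def n7765 : Nd := .arc (nat_lit 3) n7762 (.arc (nat_lit 6) n7763 (.arc (nat_lit 9) n7764 (.fin (nat_lit 140644507) (nat_lit 0))))
def n7766 : Nd := .arc (nat_lit 6) n7761 (.arc (nat_lit 9) n7760 (.fin (nat_lit 140652699) (nat_lit 0)))
def n7767 : Nd := .arc (nat_lit 3) n7748 (.arc (nat_lit 6) n7747 (.fin (nat_lit 538611865) (nat_lit 0)))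
def n7768 : Nd := .arc (nat_lit 3) n7754 (.arc (nat_lit 9) n7753 (.fin (nat_lit 270160023) (nat_lit 0)))
def n7769 : Nd := .arc (nat_lit 3) n7766 (.arc (nat_lit 6) n7767 (.arc (nat_lit 9) n7768 (.fin (nat_lit 73535645) (nat_lit 0))))
def n7770 : Nd := .arc (nat_lit 14) n7545 (.arc (nat_lit 17) n7541 (.arc (nat_lit 20) n7535 (.arc (nat_lit 23) n7526 (.fin (nat_lit 544927897) (nat_lit 0)))))
def n7771 : Nd := .arc (nat_lit 3) n7770 (.fin (nat_lit 276484247) (nat_lit 0))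
def n7772 : Nd := .arc (nat_lit 14) n7541 (.arc (nat_lit 17) n7545 (.arc (nat_lit 20) n7526 (.arc (nat_lit 23) n7535 (.fin (nat_lit 276492439) (nat_lit 0)))))
def n7773 : Nd := .arc (nat_lit 3) n7772 (.fin (nat_lit 544919705) (nat_lit 0))
def n7774 : Nd := .arc (nat_lit 6) n7771 (.arc (nat_lit 9) n7773 (.fin (nat_lit 142225563) (nat_lit 0)))
def n7775 : Nd := .arc (nat_lit 14) n7535 (.arc (nat_lit 17) n7526 (.arc (nat_lit 20) n7541 (.arc (nat_lit 23) n7545 (.fin (nat_lit 142274715) (nat_lit 0)))))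
def n7776 : Nd := .arc (nat_lit 9) n7775 (.fin (nat_lit 276459671) (nat_lit 0))
def n7777 : Nd := .arc (nat_lit 6) n7772 (.fin (nat_lit 142258331) (nat_lit 0))
def n7778 : Nd := .arc (nat_lit 3) n7776 (.arc (nat_lit 6) n7777 (.fin (nat_lit 544903321) (nat_lit 0)))
def n7779 : Nd := .arc (nat_lit 6) n7775 (.fin (nat_lit 544911513) (nat_lit 0))
def n7780 : Nd := .arc (nat_lit 9) n7770 (.fin (nat_lit 142241947) (nat_lit 0))
def n7781 : Nd := .arc (nat_lit 3) n7779 (.arc (nat_lit 9) n7780 (.fin (nat_lit 276451479) (nat_lit 0)))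
def n7782 : Nd := .arc (nat_lit 3) n7774 (.arc (nat_lit 6) n7778 (.arc (nat_lit 9) n7781 (.fin (nat_lit 75108509) (nat_lit 0))))
def n7783 : Nd := .arc (nat_lit 6) n7773 (.arc (nat_lit 9) n7771 (.fin (nat_lit 75116701) (nat_lit 0)))
def n7784 : Nd := .arc (nat_lit 14) n7526 (.arc (nat_lit 17) n7535 (.arc (nat_lit 20) n7545 (.arc (nat_lit 23) n7541 (.fin (nat_lit 75165853) (nat_lit 0)))))
def n7785 : Nd := .arc (nat_lit 9) n7784 (.fin (nat_lit 544895129) (nat_lit 0))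
def n7786 : Nd := .arc (nat_lit 6) n7770 (.fin (nat_lit 75149469) (nat_lit 0))
def n7787 : Nd := .arc (nat_lit 3) n7785 (.arc (nat_lit 6) n7786 (.fin (nat_lit 276467863) (nat_lit 0)))
def n7788 : Nd := .arc (nat_lit 6) n7784 (.fin (nat_lit 276476055) (nat_lit 0))
def n7789 : Nd := .arc (nat_lit 9) n7772 (.fin (nat_lit 75133085) (nat_lit 0))
def n7790 : Nd := .arc (nat_lit 3) n7788 (.arc (nat_lit 9) n7789 (.fin (nat_lit 544886937) (nat_lit 0)))
def n7791 : Nd := .arc (nat_lit 3) n7783 (.arc (nat_lit 6) n7787 (.arc (nat_lit 9) n7790 (.fin (nat_lit 142217371) (nat_lit 0))))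
def n7792 : Nd := .arc (nat_lit 3) n7775 (.fin (nat_lit 75157661) (nat_lit 0))
def n7793 : Nd := .arc (nat_lit 3) n7784 (.fin (nat_lit 142266523) (nat_lit 0))
def n7794 : Nd := .arc (nat_lit 6) n7792 (.arc (nat_lit 9) n7793 (.fin (nat_lit 276443287) (nat_lit 0)))
def n7795 : Nd := .arc (nat_lit 3) n7789 (.arc (nat_lit 6) n7788 (.fin (nat_lit 142250139) (nat_lit 0)))
def n7796 : Nd := .arc (nat_lit 3) n7777 (.arc (nat_lit 9) n7776 (.fin (nat_lit 75124893) (nat_lit 0)))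
def n7797 : Nd := .arc (nat_lit 3) n7794 (.arc (nat_lit 6) n7795 (.arc (nat_lit 9) n7796 (.fin (nat_lit 544870553) (nat_lit 0))))
def n7798 : Nd := .arc (nat_lit 6) n7793 (.arc (nat_lit 9) n7792 (.fin (nat_lit 544878745) (nat_lit 0)))
def n7799 : Nd := .arc (nat_lit 3) n7780 (.arc (nat_lit 6) n7779 (.fin (nat_lit 75141277) (nat_lit 0)))
def n7800 : Nd := .arc (nat_lit 3) n7786 (.arc (nat_lit 9) n7785 (.fin (nat_lit 142233755) (nat_lit 0)))
def n7801 : Nd := .arc (nat_lit 3) n7798 (.arc (nat_lit 6) n7799 (.arc (nat_lit 9) n7800 (.fin (nat_lit 276435095) (nat_lit 0))))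
def n7802 : Nd := .arc (nat_lit 14) n7253 (.arc (nat_lit 17) n7257 (.arc (nat_lit 20) n7238 (.arc (nat_lit 23) n7247 (.fin (nat_lit 544927895) (nat_lit 0)))))
def n7803 : Nd := .arc (nat_lit 3) n7802 (.fin (nat_lit 276484249) (nat_lit 0))
def n7804 : Nd := .arc (nat_lit 14) n7257 (.arc (nat_lit 17) n7253 (.arc (nat_lit 20) n7247 (.arc (nat_lit 23) n7238 (.fin (nat_lit 276492441) (nat_lit 0)))))
def n7805 : Nd := .arc (nat_lit 3) n7804 (.fin (nat_lit 544919703) (nat_lit 0))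
def n7806 : Nd := .arc (nat_lit 6) n7803 (.arc (nat_lit 9) n7805 (.fin (nat_lit 142225565) (nat_lit 0)))
def n7807 : Nd := .arc (nat_lit 14) n7238 (.arc (nat_lit 17) n7247 (.arc (nat_lit 20) n7257 (.arc (nat_lit 23) n7253 (.fin (nat_lit 142274717) (nat_lit 0)))))
def n7808 : Nd := .arc (nat_lit 9) n7807 (.fin (nat_lit 276459673) (nat_lit 0))
def n7809 : Nd := .arc (nat_lit 6) n7804 (.fin (nat_lit 142258333) (nat_lit 0))
def n7810 : Nd := .arc (nat_lit 3) n7808 (.arc (nat_lit 6) n7809 (.fin (nat_lit 544903319) (nat_lit 0)))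
def n7811 : Nd := .arc (nat_lit 6) n7807 (.fin (nat_lit 544911511) (nat_lit 0))
def n7812 : Nd := .arc (nat_lit 9) n7802 (.fin (nat_lit 142241949) (nat_lit 0))
def n7813 : Nd := .arc (nat_lit 3) n7811 (.arc (nat_lit 9) n7812 (.fin (nat_lit 276451481) (nat_lit 0)))
def n7814 : Nd := .arc (nat_lit 3) n7806 (.arc (nat_lit 6) n7810 (.arc (nat_lit 9) n7813 (.fin (nat_lit 75108507) (nat_lit 0))))
def n7815 : Nd := .arc (nat_lit 6) n7805 (.arc (nat_lit 9) n7803 (.fin (nat_lit 75116699) (nat_lit 0)))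
def n7816 : Nd := .arc (nat_lit 14) n7247 (.arc (nat_lit 17) n7238 (.arc (nat_lit 20) n7253 (.arc (nat_lit 23) n7257 (.fin (nat_lit 75165851) (nat_lit 0)))))
def n7817 : Nd := .arc (nat_lit 9) n7816 (.fin (nat_lit 544895127) (nat_lit 0))
def n7818 : Nd := .arc (nat_lit 6) n7802 (.fin (nat_lit 75149467) (nat_lit 0))
def n7819 : Nd := .arc (nat_lit 3) n7817 (.arc (nat_lit 6) n7818 (.fin (nat_lit 276467865) (nat_lit 0)))
def n7820 : Nd := .arc (nat_lit 6) n7816 (.fin (nat_lit 276476057) (nat_lit 0))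
def n7821 : Nd := .arc (nat_lit 9) n7804 (.fin (nat_lit 75133083) (nat_lit 0))
def n7822 : Nd := .arc (nat_lit 3) n7820 (.arc (nat_lit 9) n7821 (.fin (nat_lit 544886935) (nat_lit 0)))
def n7823 : Nd := .arc (nat_lit 3) n7815 (.arc (nat_lit 6) n7819 (.arc (nat_lit 9) n7822 (.fin (nat_lit 142217373) (nat_lit 0))))
def n7824 : Nd := .arc (nat_lit 3) n7816 (.fin (nat_lit 142266525) (nat_lit 0))
def n7825 : Nd := .arc (nat_lit 3) n7807 (.fin (nat_lit 75157659) (nat_lit 0))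
def n7826 : Nd := .arc (nat_lit 6) n7824 (.arc (nat_lit 9) n7825 (.fin (nat_lit 544878743) (nat_lit 0)))
def n7827 : Nd := .arc (nat_lit 3) n7812 (.arc (nat_lit 6) n7811 (.fin (nat_lit 75141275) (nat_lit 0)))
def n7828 : Nd := .arc (nat_lit 3) n7818 (.arc (nat_lit 9) n7817 (.fin (nat_lit 142233757) (nat_lit 0)))
def n7829 : Nd := .arc (nat_lit 3) n7826 (.arc (nat_lit 6) n7827 (.arc (nat_lit 9) n7828 (.fin (nat_lit 276435097) (nat_lit 0))))
def n7830 : Nd := .arc (nat_lit 6) n7825 (.arc (nat_lit 9) n7824 (.fin (nat_lit 276443289) (nat_lit 0)))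
def n7831 : Nd := .arc (nat_lit 3) n7821 (.arc (nat_lit 6) n7820 (.fin (nat_lit 142250141) (nat_lit 0)))
def n7832 : Nd := .arc (nat_lit 3) n7809 (.arc (nat_lit 9) n7808 (.fin (nat_lit 75124891) (nat_lit 0)))
def n7833 : Nd := .arc (nat_lit 3) n7830 (.arc (nat_lit 6) n7831 (.arc (nat_lit 9) n7832 (.fin (nat_lit 544870551) (nat_lit 0))))
def n7834 : Nd := .arc (nat_lit 50) n7782 (.arc (nat_lit 53) n7791 (.arc (nat_lit 56) n7797 (.arc (nat_lit 59) n7801 (.arc (nat_lit 62) n7814 (.arc (nat_lit 65) n7823 (.arc (nat_lit 68) n7829 (.arc (nat_lit 71) n7833 (.fin (nat_lit 18804889) (nat_lit 0)))))))))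
def n7835 : Nd := .arc (nat_lit 3) n7834 (.fin (nat_lit 18796695) (nat_lit 0))
def n7836 : Nd := .arc (nat_lit 50) n7814 (.arc (nat_lit 53) n7823 (.arc (nat_lit 56) n7833 (.arc (nat_lit 59) n7829 (.arc (nat_lit 62) n7782 (.arc (nat_lit 65) n7791 (.arc (nat_lit 68) n7801 (.arc (nat_lit 71) n7797 (.fin (nat_lit 18804887) (nat_lit 0)))))))))
def n7837 : Nd := .arc (nat_lit 3) n7836 (.fin (nat_lit 18796697) (nat_lit 0))
def n7838 : Nd := .arc (nat_lit 6) n7835 (.arc (nat_lit 9) n7837 (.fin (nat_lit 23474331) (nat_lit 0)))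
def n7839 : Nd := .arc (nat_lit 26) n7782 (.arc (nat_lit 29) n7791 (.arc (nat_lit 32) n7801 (.arc (nat_lit 35) n7797 (.arc (nat_lit 38) n7814 (.arc (nat_lit 41) n7823 (.arc (nat_lit 44) n7833 (.arc (nat_lit 47) n7829 (.fin (nat_lit 23523483) (nat_lit 0)))))))))
def n7840 : Nd := .arc (nat_lit 9) n7839 (.arc (nat_lit 64) n7774 (.arc (nat_lit 67) n7781 (.arc (nat_lit 70) n7778 (.fin (nat_lit 18772119) (nat_lit 0)))))
def n7841 : Nd := .arc (nat_lit 6) n7836 (.fin (nat_lit 23507099) (nat_lit 0))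
def n7842 : Nd := .arc (nat_lit 3) n7840 (.arc (nat_lit 6) n7841 (.fin (nat_lit 18780313) (nat_lit 0)))
def n7843 : Nd := .arc (nat_lit 6) n7839 (.arc (nat_lit 52) n7774 (.arc (nat_lit 55) n7778 (.arc (nat_lit 58) n7781 (.fin (nat_lit 18788505) (nat_lit 0)))))
def n7844 : Nd := .arc (nat_lit 9) n7834 (.fin (nat_lit 23490715) (nat_lit 0))
def n7845 : Nd := .arc (nat_lit 3) n7843 (.arc (nat_lit 9) n7844 (.fin (nat_lit 18763927) (nat_lit 0)))
def n7846 : Nd := .arc (nat_lit 3) n7838 (.arc (nat_lit 6) n7842 (.arc (nat_lit 9) n7845 (.fin (nat_lit 23466141) (nat_lit 0))))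
def n7847 : Nd := .arc (nat_lit 6) n7837 (.arc (nat_lit 9) n7835 (.fin (nat_lit 23474333) (nat_lit 0)))
def n7848 : Nd := .arc (nat_lit 26) n7814 (.arc (nat_lit 29) n7823 (.arc (nat_lit 32) n7829 (.arc (nat_lit 35) n7833 (.arc (nat_lit 38) n7782 (.arc (nat_lit 41) n7791 (.arc (nat_lit 44) n7797 (.arc (nat_lit 47) n7801 (.fin (nat_lit 23523485) (nat_lit 0)))))))))
def n7849 : Nd := .arc (nat_lit 9) n7848 (.arc (nat_lit 64) n7806 (.arc (nat_lit 67) n7813 (.arc (nat_lit 70) n7810 (.fin (nat_lit 18772121) (nat_lit 0)))))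
def n7850 : Nd := .arc (nat_lit 6) n7834 (.fin (nat_lit 23507101) (nat_lit 0))
def n7851 : Nd := .arc (nat_lit 3) n7849 (.arc (nat_lit 6) n7850 (.fin (nat_lit 18780311) (nat_lit 0)))
def n7852 : Nd := .arc (nat_lit 6) n7848 (.arc (nat_lit 52) n7806 (.arc (nat_lit 55) n7810 (.arc (nat_lit 58) n7813 (.fin (nat_lit 18788503) (nat_lit 0)))))
def n7853 : Nd := .arc (nat_lit 9) n7836 (.fin (nat_lit 23490717) (nat_lit 0))
def n7854 : Nd := .arc (nat_lit 3) n7852 (.arc (nat_lit 9) n7853 (.fin (nat_lit 18763929) (nat_lit 0)))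
def n7855 : Nd := .arc (nat_lit 3) n7847 (.arc (nat_lit 6) n7851 (.arc (nat_lit 9) n7854 (.fin (nat_lit 23466139) (nat_lit 0))))
def n7856 : Nd := .arc (nat_lit 3) n7848 (.arc (nat_lit 40) n7806 (.arc (nat_lit 43) n7810 (.arc (nat_lit 46) n7813 (.fin (nat_lit 23515291) (nat_lit 0)))))
def n7857 : Nd := .arc (nat_lit 3) n7839 (.arc (nat_lit 40) n7774 (.arc (nat_lit 43) n7778 (.arc (nat_lit 46) n7781 (.fin (nat_lit 23515293) (nat_lit 0)))))
def n7858 : Nd := .arc (nat_lit 6) n7856 (.arc (nat_lit 9) n7857 (.fin (nat_lit 18755737) (nat_lit 0)))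
def n7859 : Nd := .arc (nat_lit 3) n7844 (.arc (nat_lit 6) n7843 (.fin (nat_lit 23498909) (nat_lit 0)))
def n7860 : Nd := .arc (nat_lit 3) n7850 (.arc (nat_lit 9) n7849 (.fin (nat_lit 23482523) (nat_lit 0)))
def n7861 : Nd := .arc (nat_lit 3) n7858 (.arc (nat_lit 6) n7859 (.arc (nat_lit 9) n7860 (.fin (nat_lit 18747543) (nat_lit 0))))
def n7862 : Nd := .arc (nat_lit 6) n7857 (.arc (nat_lit 9) n7856 (.fin (nat_lit 18755735) (nat_lit 0)))
def n7863 : Nd := .arc (nat_lit 3) n7853 (.arc (nat_lit 6) n7852 (.fin (nat_lit 23498907) (nat_lit 0)))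
def n7864 : Nd := .arc (nat_lit 3) n7841 (.arc (nat_lit 9) n7840 (.fin (nat_lit 23482525) (nat_lit 0)))
def n7865 : Nd := .arc (nat_lit 3) n7862 (.arc (nat_lit 6) n7863 (.arc (nat_lit 9) n7864 (.fin (nat_lit 18747545) (nat_lit 0))))
def n7866 : Nd := .arc (nat_lit 14) n7417 (.arc (nat_lit 17) n7413 (.arc (nat_lit 20) n7407 (.arc (nat_lit 23) n7398 (.arc (nat_lit 50) n7385 (.arc (nat_lit 53) n7381 (.arc (nat_lit 56) n7375 (.arc (nat_lit 59) n7366 (.fin (nat_lit 274395289) (nat_lit 0)))))))))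
def n7867 : Nd := .arc (nat_lit 3) n7866 (.fin (nat_lit 540725399) (nat_lit 0))
def n7868 : Nd := .arc (nat_lit 14) n7413 (.arc (nat_lit 17) n7417 (.arc (nat_lit 20) n7398 (.arc (nat_lit 23) n7407 (.arc (nat_lit 62) n7385 (.arc (nat_lit 65) n7381 (.arc (nat_lit 68) n7366 (.arc (nat_lit 71) n7375 (.fin (nat_lit 540733591) (nat_lit 0)))))))))
def n7869 : Nd := .arc (nat_lit 3) n7868 (.fin (nat_lit 274387097) (nat_lit 0))
def n7870 : Nd := .arc (nat_lit 6) n7867 (.arc (nat_lit 9) n7869 (.fin (nat_lit 74592411) (nat_lit 0)))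
def n7871 : Nd := .arc (nat_lit 14) n7407 (.arc (nat_lit 17) n7398 (.arc (nat_lit 20) n7413 (.arc (nat_lit 23) n7417 (.arc (nat_lit 26) n7385 (.arc (nat_lit 29) n7381 (.arc (nat_lit 32) n7366 (.arc (nat_lit 35) n7375 (.fin (nat_lit 74641563) (nat_lit 0)))))))))
def n7872 : Nd := .arc (nat_lit 9) n7871 (.arc (nat_lit 64) n7382 (.arc (nat_lit 67) n7384 (.arc (nat_lit 70) n7383 (.fin (nat_lit 540700823) (nat_lit 0)))))
def n7873 : Nd := .arc (nat_lit 6) n7868 (.fin (nat_lit 74625179) (nat_lit 0))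
def n7874 : Nd := .arc (nat_lit 3) n7872 (.arc (nat_lit 6) n7873 (.fin (nat_lit 274370713) (nat_lit 0)))
def n7875 : Nd := .arc (nat_lit 6) n7871 (.arc (nat_lit 52) n7382 (.arc (nat_lit 55) n7383 (.arc (nat_lit 58) n7384 (.fin (nat_lit 274378905) (nat_lit 0)))))
def n7876 : Nd := .arc (nat_lit 9) n7866 (.fin (nat_lit 74608795) (nat_lit 0))
def n7877 : Nd := .arc (nat_lit 3) n7875 (.arc (nat_lit 9) n7876 (.fin (nat_lit 540692631) (nat_lit 0)))
def n7878 : Nd := .arc (nat_lit 3) n7870 (.arc (nat_lit 6) n7874 (.arc (nat_lit 9) n7877 (.fin (nat_lit 141168797) (nat_lit 0))))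
def n7879 : Nd := .arc (nat_lit 6) n7869 (.arc (nat_lit 9) n7867 (.fin (nat_lit 141176989) (nat_lit 0)))
def n7880 : Nd := .arc (nat_lit 14) n7398 (.arc (nat_lit 17) n7407 (.arc (nat_lit 20) n7417 (.arc (nat_lit 23) n7413 (.arc (nat_lit 38) n7385 (.arc (nat_lit 41) n7381 (.arc (nat_lit 44) n7375 (.arc (nat_lit 47) n7366 (.fin (nat_lit 141226141) (nat_lit 0)))))))))
def n7881 : Nd := .arc (nat_lit 9) n7880 (.fin (nat_lit 274362521) (nat_lit 0))
def n7882 : Nd := .arc (nat_lit 6) n7866 (.fin (nat_lit 141209757) (nat_lit 0))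
def n7883 : Nd := .arc (nat_lit 3) n7881 (.arc (nat_lit 6) n7882 (.fin (nat_lit 540709015) (nat_lit 0)))
def n7884 : Nd := .arc (nat_lit 6) n7880 (.fin (nat_lit 540717207) (nat_lit 0))
def n7885 : Nd := .arc (nat_lit 9) n7868 (.fin (nat_lit 141193373) (nat_lit 0))
def n7886 : Nd := .arc (nat_lit 3) n7884 (.arc (nat_lit 9) n7885 (.fin (nat_lit 274354329) (nat_lit 0)))
def n7887 : Nd := .arc (nat_lit 3) n7879 (.arc (nat_lit 6) n7883 (.arc (nat_lit 9) n7886 (.fin (nat_lit 74584219) (nat_lit 0))))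
def n7888 : Nd := .arc (nat_lit 3) n7880 (.fin (nat_lit 74633371) (nat_lit 0))
def n7889 : Nd := .arc (nat_lit 3) n7871 (.arc (nat_lit 40) n7382 (.arc (nat_lit 43) n7383 (.arc (nat_lit 46) n7384 (.fin (nat_lit 141217949) (nat_lit 0)))))
def n7890 : Nd := .arc (nat_lit 6) n7888 (.arc (nat_lit 9) n7889 (.fin (nat_lit 274346137) (nat_lit 0)))
def n7891 : Nd := .arc (nat_lit 3) n7876 (.arc (nat_lit 6) n7875 (.fin (nat_lit 141201565) (nat_lit 0)))
def n7892 : Nd := .arc (nat_lit 3) n7882 (.arc (nat_lit 9) n7881 (.fin (nat_lit 74600603) (nat_lit 0)))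
def n7893 : Nd := .arc (nat_lit 3) n7890 (.arc (nat_lit 6) n7891 (.arc (nat_lit 9) n7892 (.fin (nat_lit 540676247) (nat_lit 0))))
def n7894 : Nd := .arc (nat_lit 6) n7889 (.arc (nat_lit 9) n7888 (.fin (nat_lit 540684439) (nat_lit 0)))
def n7895 : Nd := .arc (nat_lit 3) n7885 (.arc (nat_lit 6) n7884 (.fin (nat_lit 74616987) (nat_lit 0)))
def n7896 : Nd := .arc (nat_lit 3) n7873 (.arc (nat_lit 9) n7872 (.fin (nat_lit 141185181) (nat_lit 0)))
def n7897 : Nd := .arc (nat_lit 3) n7894 (.arc (nat_lit 6) n7895 (.arc (nat_lit 9) n7896 (.fin (nat_lit 274337945) (nat_lit 0))))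
def n7898 : Nd := .arc (nat_lit 14) n7609 (.arc (nat_lit 17) n7605 (.arc (nat_lit 20) n7599 (.arc (nat_lit 23) n7590 (.arc (nat_lit 50) n7577 (.arc (nat_lit 53) n7573 (.arc (nat_lit 56) n7567 (.arc (nat_lit 59) n7558 (.fin (nat_lit 274395287) (nat_lit 0)))))))))
def n7899 : Nd := .arc (nat_lit 3) n7898 (.fin (nat_lit 540725401) (nat_lit 0))
def n7900 : Nd := .arc (nat_lit 14) n7605 (.arc (nat_lit 17) n7609 (.arc (nat_lit 20) n7590 (.arc (nat_lit 23) n7599 (.arc (nat_lit 62) n7577 (.arc (nat_lit 65) n7573 (.arc (nat_lit 68) n7558 (.arc (nat_lit 71) n7567 (.fin (nat_lit 540733593) (nat_lit 0)))))))))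
def n7901 : Nd := .arc (nat_lit 3) n7900 (.fin (nat_lit 274387095) (nat_lit 0))
def n7902 : Nd := .arc (nat_lit 6) n7899 (.arc (nat_lit 9) n7901 (.fin (nat_lit 74592413) (nat_lit 0)))
def n7903 : Nd := .arc (nat_lit 14) n7599 (.arc (nat_lit 17) n7590 (.arc (nat_lit 20) n7605 (.arc (nat_lit 23) n7609 (.arc (nat_lit 26) n7577 (.arc (nat_lit 29) n7573 (.arc (nat_lit 32) n7558 (.arc (nat_lit 35) n7567 (.fin (nat_lit 74641565) (nat_lit 0)))))))))
def n7904 : Nd := .arc (nat_lit 9) n7903 (.arc (nat_lit 64) n7574 (.arc (nat_lit 67) n7576 (.arc (nat_lit 70) n7575 (.fin (nat_lit 540700825) (nat_lit 0)))))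
def n7905 : Nd := .arc (nat_lit 6) n7900 (.fin (nat_lit 74625181) (nat_lit 0))
def n7906 : Nd := .arc (nat_lit 3) n7904 (.arc (nat_lit 6) n7905 (.fin (nat_lit 274370711) (nat_lit 0)))
def n7907 : Nd := .arc (nat_lit 6) n7903 (.arc (nat_lit 52) n7574 (.arc (nat_lit 55) n7575 (.arc (nat_lit 58) n7576 (.fin (nat_lit 274378903) (nat_lit 0)))))
def n7908 : Nd := .arc (nat_lit 9) n7898 (.fin (nat_lit 74608797) (nat_lit 0))
def n7909 : Nd := .arc (nat_lit 3) n7907 (.arc (nat_lit 9) n7908 (.fin (nat_lit 540692633) (nat_lit 0)))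
def n7910 : Nd := .arc (nat_lit 3) n7902 (.arc (nat_lit 6) n7906 (.arc (nat_lit 9) n7909 (.fin (nat_lit 141168795) (nat_lit 0))))
def n7911 : Nd := .arc (nat_lit 6) n7901 (.arc (nat_lit 9) n7899 (.fin (nat_lit 141176987) (nat_lit 0)))
def n7912 : Nd := .arc (nat_lit 14) n7590 (.arc (nat_lit 17) n7599 (.arc (nat_lit 20) n7609 (.arc (nat_lit 23) n7605 (.arc (nat_lit 38) n7577 (.arc (nat_lit 41) n7573 (.arc (nat_lit 44) n7567 (.arc (nat_lit 47) n7558 (.fin (nat_lit 141226139) (nat_lit 0)))))))))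
def n7913 : Nd := .arc (nat_lit 9) n7912 (.fin (nat_lit 274362519) (nat_lit 0))
def n7914 : Nd := .arc (nat_lit 6) n7898 (.fin (nat_lit 141209755) (nat_lit 0))
def n7915 : Nd := .arc (nat_lit 3) n7913 (.arc (nat_lit 6) n7914 (.fin (nat_lit 540709017) (nat_lit 0)))
def n7916 : Nd := .arc (nat_lit 6) n7912 (.fin (nat_lit 540717209) (nat_lit 0))
def n7917 : Nd := .arc (nat_lit 9) n7900 (.fin (nat_lit 141193371) (nat_lit 0))
def n7918 : Nd := .arc (nat_lit 3) n7916 (.arc (nat_lit 9) n7917 (.fin (nat_lit 274354327) (nat_lit 0)))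
def n7919 : Nd := .arc (nat_lit 3) n7911 (.arc (nat_lit 6) n7915 (.arc (nat_lit 9) n7918 (.fin (nat_lit 74584221) (nat_lit 0))))
def n7920 : Nd := .arc (nat_lit 3) n7903 (.arc (nat_lit 40) n7574 (.arc (nat_lit 43) n7575 (.arc (nat_lit 46) n7576 (.fin (nat_lit 141217947) (nat_lit 0)))))
def n7921 : Nd := .arc (nat_lit 3) n7912 (.fin (nat_lit 74633373) (nat_lit 0))
def n7922 : Nd := .arc (nat_lit 6) n7920 (.arc (nat_lit 9) n7921 (.fin (nat_lit 540684441) (nat_lit 0)))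
def n7923 : Nd := .arc (nat_lit 3) n7917 (.arc (nat_lit 6) n7916 (.fin (nat_lit 74616989) (nat_lit 0)))
def n7924 : Nd := .arc (nat_lit 3) n7905 (.arc (nat_lit 9) n7904 (.fin (nat_lit 141185179) (nat_lit 0)))
def n7925 : Nd := .arc (nat_lit 3) n7922 (.arc (nat_lit 6) n7923 (.arc (nat_lit 9) n7924 (.fin (nat_lit 274337943) (nat_lit 0))))
def n7926 : Nd := .arc (nat_lit 6) n7921 (.arc (nat_lit 9) n7920 (.fin (nat_lit 274346135) (nat_lit 0)))
def n7927 : Nd := .arc (nat_lit 3) n7908 (.arc (nat_lit 6) n7907 (.fin (nat_lit 141201563) (nat_lit 0)))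
def n7928 : Nd := .arc (nat_lit 3) n7914 (.arc (nat_lit 9) n7913 (.fin (nat_lit 74600605) (nat_lit 0)))
def n7929 : Nd := .arc (nat_lit 3) n7926 (.arc (nat_lit 6) n7927 (.arc (nat_lit 9) n7928 (.fin (nat_lit 540676249) (nat_lit 0))))
def n7930 : Nd := .arc (nat_lit 14) n7846 (.arc (nat_lit 17) n7855 (.arc (nat_lit 20) n7861 (.arc (nat_lit 23) n7865 (.arc (nat_lit 26) n7878 (.arc (nat_lit 29) n7887 (.arc (nat_lit 32) n7893 (.arc (nat_lit 35) n7897 (.arc (nat_lit 38) n7910 (.arc (nat_lit 41) n7919 (.arc (nat_lit 44) n7925 (.arc (nat_lit 47) n7929 (.fin (nat_lit 40038555) (nat_lit 0)))))))))))))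
def n7931 : Nd := .arc (nat_lit 3) n7930 (.arc (nat_lit 40) n7870 (.arc (nat_lit 43) n7874 (.arc (nat_lit 46) n7877 (.fin (nat_lit 40030365) (nat_lit 0)))))
def n7932 : Nd := .arc (nat_lit 14) n7855 (.arc (nat_lit 17) n7846 (.arc (nat_lit 20) n7865 (.arc (nat_lit 23) n7861 (.arc (nat_lit 26) n7910 (.arc (nat_lit 29) n7919 (.arc (nat_lit 32) n7929 (.arc (nat_lit 35) n7925 (.arc (nat_lit 38) n7878 (.arc (nat_lit 41) n7887 (.arc (nat_lit 44) n7897 (.arc (nat_lit 47) n7893 (.fin (nat_lit 40038557) (nat_lit 0)))))))))))))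
def n7933 : Nd := .arc (nat_lit 3) n7932 (.arc (nat_lit 40) n7902 (.arc (nat_lit 43) n7906 (.arc (nat_lit 46) n7909 (.fin (nat_lit 40030363) (nat_lit 0)))))
def n7934 : Nd := .arc (nat_lit 6) n7931 (.arc (nat_lit 9) n7933 (.fin (nat_lit 35270807) (nat_lit 0)))
def n7935 : Nd := .arc (nat_lit 14) n7861 (.arc (nat_lit 17) n7865 (.arc (nat_lit 20) n7855 (.arc (nat_lit 23) n7846 (.arc (nat_lit 50) n7910 (.arc (nat_lit 53) n7919 (.arc (nat_lit 56) n7925 (.arc (nat_lit 59) n7929 (.arc (nat_lit 62) n7878 (.arc (nat_lit 65) n7887 (.arc (nat_lit 68) n7893 (.arc (nat_lit 71) n7897 (.fin (nat_lit 35319959) (nat_lit 0)))))))))))))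
def n7936 : Nd := .arc (nat_lit 9) n7935 (.fin (nat_lit 40005789) (nat_lit 0))
def n7937 : Nd := .arc (nat_lit 6) n7932 (.arc (nat_lit 52) n7902 (.arc (nat_lit 55) n7906 (.arc (nat_lit 58) n7909 (.fin (nat_lit 35303575) (nat_lit 0)))))
def n7938 : Nd := .arc (nat_lit 3) n7936 (.arc (nat_lit 6) n7937 (.fin (nat_lit 40013979) (nat_lit 0)))
def n7939 : Nd := .arc (nat_lit 6) n7935 (.fin (nat_lit 40022171) (nat_lit 0))
def n7940 : Nd := .arc (nat_lit 9) n7930 (.arc (nat_lit 64) n7870 (.arc (nat_lit 67) n7877 (.arc (nat_lit 70) n7874 (.fin (nat_lit 35287191) (nat_lit 0)))))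
def n7941 : Nd := .arc (nat_lit 3) n7939 (.arc (nat_lit 9) n7940 (.fin (nat_lit 39997597) (nat_lit 0)))
def n7942 : Nd := .arc (nat_lit 3) n7934 (.arc (nat_lit 6) n7938 (.arc (nat_lit 9) n7941 (.fin (nat_lit 35262617) (nat_lit 0))))
def n7943 : Nd := .arc (nat_lit 6) n7933 (.arc (nat_lit 9) n7931 (.fin (nat_lit 35270809) (nat_lit 0)))
def n7944 : Nd := .arc (nat_lit 14) n7865 (.arc (nat_lit 17) n7861 (.arc (nat_lit 20) n7846 (.arc (nat_lit 23) n7855 (.arc (nat_lit 50) n7878 (.arc (nat_lit 53) n7887 (.arc (nat_lit 56) n7897 (.arc (nat_lit 59) n7893 (.arc (nat_lit 62) n7910 (.arc (nat_lit 65) n7919 (.arc (nat_lit 68) n7929 (.arc (nat_lit 71) n7925 (.fin (nat_lit 35319961) (nat_lit 0)))))))))))))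
def n7945 : Nd := .arc (nat_lit 9) n7944 (.fin (nat_lit 40005787) (nat_lit 0))
def n7946 : Nd := .arc (nat_lit 6) n7930 (.arc (nat_lit 52) n7870 (.arc (nat_lit 55) n7874 (.arc (nat_lit 58) n7877 (.fin (nat_lit 35303577) (nat_lit 0)))))
def n7947 : Nd := .arc (nat_lit 3) n7945 (.arc (nat_lit 6) n7946 (.fin (nat_lit 40013981) (nat_lit 0)))
def n7948 : Nd := .arc (nat_lit 6) n7944 (.fin (nat_lit 40022173) (nat_lit 0))
def n7949 : Nd := .arc (nat_lit 9) n7932 (.arc (nat_lit 64) n7902 (.arc (nat_lit 67) n7909 (.arc (nat_lit 70) n7906 (.fin (nat_lit 35287193) (nat_lit 0)))))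
def n7950 : Nd := .arc (nat_lit 3) n7948 (.arc (nat_lit 9) n7949 (.fin (nat_lit 39997595) (nat_lit 0)))
def n7951 : Nd := .arc (nat_lit 3) n7943 (.arc (nat_lit 6) n7947 (.arc (nat_lit 9) n7950 (.fin (nat_lit 35262615) (nat_lit 0))))
def n7952 : Nd := .arc (nat_lit 3) n7935 (.fin (nat_lit 35311769) (nat_lit 0))
def n7953 : Nd := .arc (nat_lit 3) n7944 (.fin (nat_lit 35311767) (nat_lit 0))
def n7954 : Nd := .arc (nat_lit 6) n7952 (.arc (nat_lit 9) n7953 (.fin (nat_lit 39989405) (nat_lit 0)))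
def n7955 : Nd := .arc (nat_lit 3) n7949 (.arc (nat_lit 6) n7948 (.fin (nat_lit 35295383) (nat_lit 0)))
def n7956 : Nd := .arc (nat_lit 3) n7937 (.arc (nat_lit 9) n7936 (.fin (nat_lit 35279001) (nat_lit 0)))
def n7957 : Nd := .arc (nat_lit 3) n7954 (.arc (nat_lit 6) n7955 (.arc (nat_lit 9) n7956 (.fin (nat_lit 39981211) (nat_lit 0))))
def n7958 : Nd := .arc (nat_lit 6) n7953 (.arc (nat_lit 9) n7952 (.fin (nat_lit 39989403) (nat_lit 0)))
def n7959 : Nd := .arc (nat_lit 3) n7940 (.arc (nat_lit 6) n7939 (.fin (nat_lit 35295385) (nat_lit 0)))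
def n7960 : Nd := .arc (nat_lit 3) n7946 (.arc (nat_lit 9) n7945 (.fin (nat_lit 35278999) (nat_lit 0)))
def n7961 : Nd := .arc (nat_lit 3) n7958 (.arc (nat_lit 6) n7959 (.arc (nat_lit 9) n7960 (.fin (nat_lit 39981213) (nat_lit 0))))
def n7962 : Nd := .arc (nat_lit 50) n7823 (.arc (nat_lit 53) n7814 (.arc (nat_lit 56) n7829 (.arc (nat_lit 59) n7833 (.arc (nat_lit 62) n7791 (.arc (nat_lit 65) n7782 (.arc (nat_lit 68) n7797 (.arc (nat_lit 71) n7801 (.fin (nat_lit 35582105) (nat_lit 0)))))))))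
def n7963 : Nd := .arc (nat_lit 3) n7962 (.fin (nat_lit 35573911) (nat_lit 0))
def n7964 : Nd := .arc (nat_lit 50) n7791 (.arc (nat_lit 53) n7782 (.arc (nat_lit 56) n7801 (.arc (nat_lit 59) n7797 (.arc (nat_lit 62) n7823 (.arc (nat_lit 65) n7814 (.arc (nat_lit 68) n7833 (.arc (nat_lit 71) n7829 (.fin (nat_lit 35582103) (nat_lit 0)))))))))
def n7965 : Nd := .arc (nat_lit 3) n7964 (.fin (nat_lit 35573913) (nat_lit 0))
def n7966 : Nd := .arc (nat_lit 6) n7963 (.arc (nat_lit 9) n7965 (.fin (nat_lit 40251547) (nat_lit 0)))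
def n7967 : Nd := .arc (nat_lit 26) n7823 (.arc (nat_lit 29) n7814 (.arc (nat_lit 32) n7833 (.arc (nat_lit 35) n7829 (.arc (nat_lit 38) n7791 (.arc (nat_lit 41) n7782 (.arc (nat_lit 44) n7801 (.arc (nat_lit 47) n7797 (.fin (nat_lit 40300699) (nat_lit 0)))))))))
def n7968 : Nd := .arc (nat_lit 9) n7967 (.arc (nat_lit 64) n7815 (.arc (nat_lit 67) n7822 (.arc (nat_lit 70) n7819 (.fin (nat_lit 35549335) (nat_lit 0)))))
def n7969 : Nd := .arc (nat_lit 6) n7964 (.fin (nat_lit 40284315) (nat_lit 0))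
def n7970 : Nd := .arc (nat_lit 3) n7968 (.arc (nat_lit 6) n7969 (.fin (nat_lit 35557529) (nat_lit 0)))
def n7971 : Nd := .arc (nat_lit 6) n7967 (.arc (nat_lit 52) n7815 (.arc (nat_lit 55) n7819 (.arc (nat_lit 58) n7822 (.fin (nat_lit 35565721) (nat_lit 0)))))
def n7972 : Nd := .arc (nat_lit 9) n7962 (.fin (nat_lit 40267931) (nat_lit 0))
def n7973 : Nd := .arc (nat_lit 3) n7971 (.arc (nat_lit 9) n7972 (.fin (nat_lit 35541143) (nat_lit 0)))
def n7974 : Nd := .arc (nat_lit 3) n7966 (.arc (nat_lit 6) n7970 (.arc (nat_lit 9) n7973 (.fin (nat_lit 40243357) (nat_lit 0))))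
def n7975 : Nd := .arc (nat_lit 6) n7965 (.arc (nat_lit 9) n7963 (.fin (nat_lit 40251549) (nat_lit 0)))
def n7976 : Nd := .arc (nat_lit 26) n7791 (.arc (nat_lit 29) n7782 (.arc (nat_lit 32) n7797 (.arc (nat_lit 35) n7801 (.arc (nat_lit 38) n7823 (.arc (nat_lit 41) n7814 (.arc (nat_lit 44) n7829 (.arc (nat_lit 47) n7833 (.fin (nat_lit 40300701) (nat_lit 0)))))))))
def n7977 : Nd := .arc (nat_lit 9) n7976 (.arc (nat_lit 64) n7783 (.arc (nat_lit 67) n7790 (.arc (nat_lit 70) n7787 (.fin (nat_lit 35549337) (nat_lit 0)))))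
def n7978 : Nd := .arc (nat_lit 6) n7962 (.fin (nat_lit 40284317) (nat_lit 0))
def n7979 : Nd := .arc (nat_lit 3) n7977 (.arc (nat_lit 6) n7978 (.fin (nat_lit 35557527) (nat_lit 0)))
def n7980 : Nd := .arc (nat_lit 6) n7976 (.arc (nat_lit 52) n7783 (.arc (nat_lit 55) n7787 (.arc (nat_lit 58) n7790 (.fin (nat_lit 35565719) (nat_lit 0)))))
def n7981 : Nd := .arc (nat_lit 9) n7964 (.fin (nat_lit 40267933) (nat_lit 0))
def n7982 : Nd := .arc (nat_lit 3) n7980 (.arc (nat_lit 9) n7981 (.fin (nat_lit 35541145) (nat_lit 0)))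
def n7983 : Nd := .arc (nat_lit 3) n7975 (.arc (nat_lit 6) n7979 (.arc (nat_lit 9) n7982 (.fin (nat_lit 40243355) (nat_lit 0))))
def n7984 : Nd := .arc (nat_lit 3) n7976 (.arc (nat_lit 40) n7783 (.arc (nat_lit 43) n7787 (.arc (nat_lit 46) n7790 (.fin (nat_lit 40292507) (nat_lit 0)))))
def n7985 : Nd := .arc (nat_lit 3) n7967 (.arc (nat_lit 40) n7815 (.arc (nat_lit 43) n7819 (.arc (nat_lit 46) n7822 (.fin (nat_lit 40292509) (nat_lit 0)))))
def n7986 : Nd := .arc (nat_lit 6) n7984 (.arc (nat_lit 9) n7985 (.fin (nat_lit 35532953) (nat_lit 0)))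
def n7987 : Nd := .arc (nat_lit 3) n7972 (.arc (nat_lit 6) n7971 (.fin (nat_lit 40276125) (nat_lit 0)))
def n7988 : Nd := .arc (nat_lit 3) n7978 (.arc (nat_lit 9) n7977 (.fin (nat_lit 40259739) (nat_lit 0)))
def n7989 : Nd := .arc (nat_lit 3) n7986 (.arc (nat_lit 6) n7987 (.arc (nat_lit 9) n7988 (.fin (nat_lit 35524759) (nat_lit 0))))
def n7990 : Nd := .arc (nat_lit 6) n7985 (.arc (nat_lit 9) n7984 (.fin (nat_lit 35532951) (nat_lit 0)))
def n7991 : Nd := .arc (nat_lit 3) n7981 (.arc (nat_lit 6) n7980 (.fin (nat_lit 40276123) (nat_lit 0)))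
def n7992 : Nd := .arc (nat_lit 3) n7969 (.arc (nat_lit 9) n7968 (.fin (nat_lit 40259741) (nat_lit 0)))
def n7993 : Nd := .arc (nat_lit 3) n7990 (.arc (nat_lit 6) n7991 (.arc (nat_lit 9) n7992 (.fin (nat_lit 35524761) (nat_lit 0))))
def n7994 : Nd := .arc (nat_lit 14) n7705 (.arc (nat_lit 17) n7701 (.arc (nat_lit 20) n7695 (.arc (nat_lit 23) n7686 (.arc (nat_lit 50) n7673 (.arc (nat_lit 53) n7669 (.arc (nat_lit 56) n7663 (.arc (nat_lit 59) n7654 (.fin (nat_lit 542830745) (nat_lit 0)))))))))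
def n7995 : Nd := .arc (nat_lit 3) n7994 (.fin (nat_lit 272289943) (nat_lit 0))
def n7996 : Nd := .arc (nat_lit 14) n7701 (.arc (nat_lit 17) n7705 (.arc (nat_lit 20) n7686 (.arc (nat_lit 23) n7695 (.arc (nat_lit 62) n7673 (.arc (nat_lit 65) n7669 (.arc (nat_lit 68) n7654 (.arc (nat_lit 71) n7663 (.fin (nat_lit 272298135) (nat_lit 0)))))))))
def n7997 : Nd := .arc (nat_lit 3) n7996 (.fin (nat_lit 542822553) (nat_lit 0))
def n7998 : Nd := .arc (nat_lit 6) n7995 (.arc (nat_lit 9) n7997 (.fin (nat_lit 141701275) (nat_lit 0)))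
def n7999 : Nd := .arc (nat_lit 14) n7695 (.arc (nat_lit 17) n7686 (.arc (nat_lit 20) n7701 (.arc (nat_lit 23) n7705 (.arc (nat_lit 26) n7673 (.arc (nat_lit 29) n7669 (.arc (nat_lit 32) n7654 (.arc (nat_lit 35) n7663 (.fin (nat_lit 141750427) (nat_lit 0)))))))))
def n8000 : Nd := .arc (nat_lit 9) n7999 (.arc (nat_lit 64) n7670 (.arc (nat_lit 67) n7672 (.arc (nat_lit 70) n7671 (.fin (nat_lit 272265367) (nat_lit 0)))))
def n8001 : Nd := .arc (nat_lit 6) n7996 (.fin (nat_lit 141734043) (nat_lit 0))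
def n8002 : Nd := .arc (nat_lit 3) n8000 (.arc (nat_lit 6) n8001 (.fin (nat_lit 542806169) (nat_lit 0)))
def n8003 : Nd := .arc (nat_lit 6) n7999 (.arc (nat_lit 52) n7670 (.arc (nat_lit 55) n7671 (.arc (nat_lit 58) n7672 (.fin (nat_lit 542814361) (nat_lit 0)))))
def n8004 : Nd := .arc (nat_lit 9) n7994 (.fin (nat_lit 141717659) (nat_lit 0))
def n8005 : Nd := .arc (nat_lit 3) n8003 (.arc (nat_lit 9) n8004 (.fin (nat_lit 272257175) (nat_lit 0)))
def n8006 : Nd := .arc (nat_lit 3) n7998 (.arc (nat_lit 6) n8002 (.arc (nat_lit 9) n8005 (.fin (nat_lit 74059933) (nat_lit 0))))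
def n8007 : Nd := .arc (nat_lit 6) n7997 (.arc (nat_lit 9) n7995 (.fin (nat_lit 74068125) (nat_lit 0)))
def n8008 : Nd := .arc (nat_lit 14) n7686 (.arc (nat_lit 17) n7695 (.arc (nat_lit 20) n7705 (.arc (nat_lit 23) n7701 (.arc (nat_lit 38) n7673 (.arc (nat_lit 41) n7669 (.arc (nat_lit 44) n7663 (.arc (nat_lit 47) n7654 (.fin (nat_lit 74117277) (nat_lit 0)))))))))
def n8009 : Nd := .arc (nat_lit 9) n8008 (.fin (nat_lit 542797977) (nat_lit 0))
def n8010 : Nd := .arc (nat_lit 6) n7994 (.fin (nat_lit 74100893) (nat_lit 0))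
def n8011 : Nd := .arc (nat_lit 3) n8009 (.arc (nat_lit 6) n8010 (.fin (nat_lit 272273559) (nat_lit 0)))
def n8012 : Nd := .arc (nat_lit 6) n8008 (.fin (nat_lit 272281751) (nat_lit 0))
def n8013 : Nd := .arc (nat_lit 9) n7996 (.fin (nat_lit 74084509) (nat_lit 0))
def n8014 : Nd := .arc (nat_lit 3) n8012 (.arc (nat_lit 9) n8013 (.fin (nat_lit 542789785) (nat_lit 0)))
def n8015 : Nd := .arc (nat_lit 3) n8007 (.arc (nat_lit 6) n8011 (.arc (nat_lit 9) n8014 (.fin (nat_lit 141693083) (nat_lit 0))))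
def n8016 : Nd := .arc (nat_lit 3) n8008 (.fin (nat_lit 141742235) (nat_lit 0))
def n8017 : Nd := .arc (nat_lit 3) n7999 (.arc (nat_lit 40) n7670 (.arc (nat_lit 43) n7671 (.arc (nat_lit 46) n7672 (.fin (nat_lit 74109085) (nat_lit 0)))))
def n8018 : Nd := .arc (nat_lit 6) n8016 (.arc (nat_lit 9) n8017 (.fin (nat_lit 542781593) (nat_lit 0)))
def n8019 : Nd := .arc (nat_lit 3) n8004 (.arc (nat_lit 6) n8003 (.fin (nat_lit 74092701) (nat_lit 0)))
def n8020 : Nd := .arc (nat_lit 3) n8010 (.arc (nat_lit 9) n8009 (.fin (nat_lit 141709467) (nat_lit 0)))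
def n8021 : Nd := .arc (nat_lit 3) n8018 (.arc (nat_lit 6) n8019 (.arc (nat_lit 9) n8020 (.fin (nat_lit 272240791) (nat_lit 0))))
def n8022 : Nd := .arc (nat_lit 6) n8017 (.arc (nat_lit 9) n8016 (.fin (nat_lit 272248983) (nat_lit 0)))
def n8023 : Nd := .arc (nat_lit 3) n8013 (.arc (nat_lit 6) n8012 (.fin (nat_lit 141725851) (nat_lit 0)))
def n8024 : Nd := .arc (nat_lit 3) n8001 (.arc (nat_lit 9) n8000 (.fin (nat_lit 74076317) (nat_lit 0)))
def n8025 : Nd := .arc (nat_lit 3) n8022 (.arc (nat_lit 6) n8023 (.arc (nat_lit 9) n8024 (.fin (nat_lit 542773401) (nat_lit 0))))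
def n8026 : Nd := .arc (nat_lit 14) n7321 (.arc (nat_lit 17) n7317 (.arc (nat_lit 20) n7311 (.arc (nat_lit 23) n7302 (.arc (nat_lit 50) n7289 (.arc (nat_lit 53) n7285 (.arc (nat_lit 56) n7279 (.arc (nat_lit 59) n7270 (.fin (nat_lit 542830743) (nat_lit 0)))))))))
def n8027 : Nd := .arc (nat_lit 3) n8026 (.fin (nat_lit 272289945) (nat_lit 0))
def n8028 : Nd := .arc (nat_lit 14) n7317 (.arc (nat_lit 17) n7321 (.arc (nat_lit 20) n7302 (.arc (nat_lit 23) n7311 (.arc (nat_lit 62) n7289 (.arc (nat_lit 65) n7285 (.arc (nat_lit 68) n7270 (.arc (nat_lit 71) n7279 (.fin (nat_lit 272298137) (nat_lit 0)))))))))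
def n8029 : Nd := .arc (nat_lit 3) n8028 (.fin (nat_lit 542822551) (nat_lit 0))
def n8030 : Nd := .arc (nat_lit 6) n8027 (.arc (nat_lit 9) n8029 (.fin (nat_lit 141701277) (nat_lit 0)))
def n8031 : Nd := .arc (nat_lit 14) n7311 (.arc (nat_lit 17) n7302 (.arc (nat_lit 20) n7317 (.arc (nat_lit 23) n7321 (.arc (nat_lit 26) n7289 (.arc (nat_lit 29) n7285 (.arc (nat_lit 32) n7270 (.arc (nat_lit 35) n7279 (.fin (nat_lit 141750429) (nat_lit 0)))))))))
def n8032 : Nd := .arc (nat_lit 9) n8031 (.arc (nat_lit 64) n7286 (.arc (nat_lit 67) n7288 (.arc (nat_lit 70) n7287 (.fin (nat_lit 272265369) (nat_lit 0)))))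
def n8033 : Nd := .arc (nat_lit 6) n8028 (.fin (nat_lit 141734045) (nat_lit 0))
def n8034 : Nd := .arc (nat_lit 3) n8032 (.arc (nat_lit 6) n8033 (.fin (nat_lit 542806167) (nat_lit 0)))
def n8035 : Nd := .arc (nat_lit 6) n8031 (.arc (nat_lit 52) n7286 (.arc (nat_lit 55) n7287 (.arc (nat_lit 58) n7288 (.fin (nat_lit 542814359) (nat_lit 0)))))
def n8036 : Nd := .arc (nat_lit 9) n8026 (.fin (nat_lit 141717661) (nat_lit 0))
def n8037 : Nd := .arc (nat_lit 3) n8035 (.arc (nat_lit 9) n8036 (.fin (nat_lit 272257177) (nat_lit 0)))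
def n8038 : Nd := .arc (nat_lit 3) n8030 (.arc (nat_lit 6) n8034 (.arc (nat_lit 9) n8037 (.fin (nat_lit 74059931) (nat_lit 0))))
def n8039 : Nd := .arc (nat_lit 6) n8029 (.arc (nat_lit 9) n8027 (.fin (nat_lit 74068123) (nat_lit 0)))
def n8040 : Nd := .arc (nat_lit 14) n7302 (.arc (nat_lit 17) n7311 (.arc (nat_lit 20) n7321 (.arc (nat_lit 23) n7317 (.arc (nat_lit 38) n7289 (.arc (nat_lit 41) n7285 (.arc (nat_lit 44) n7279 (.arc (nat_lit 47) n7270 (.fin (nat_lit 74117275) (nat_lit 0)))))))))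
def n8041 : Nd := .arc (nat_lit 9) n8040 (.fin (nat_lit 542797975) (nat_lit 0))
def n8042 : Nd := .arc (nat_lit 6) n8026 (.fin (nat_lit 74100891) (nat_lit 0))
def n8043 : Nd := .arc (nat_lit 3) n8041 (.arc (nat_lit 6) n8042 (.fin (nat_lit 272273561) (nat_lit 0)))
def n8044 : Nd := .arc (nat_lit 6) n8040 (.fin (nat_lit 272281753) (nat_lit 0))
def n8045 : Nd := .arc (nat_lit 9) n8028 (.fin (nat_lit 74084507) (nat_lit 0))
def n8046 : Nd := .arc (nat_lit 3) n8044 (.arc (nat_lit 9) n8045 (.fin (nat_lit 542789783) (nat_lit 0)))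
def n8047 : Nd := .arc (nat_lit 3) n8039 (.arc (nat_lit 6) n8043 (.arc (nat_lit 9) n8046 (.fin (nat_lit 141693085) (nat_lit 0))))
def n8048 : Nd := .arc (nat_lit 3) n8031 (.arc (nat_lit 40) n7286 (.arc (nat_lit 43) n7287 (.arc (nat_lit 46) n7288 (.fin (nat_lit 74109083) (nat_lit 0)))))
def n8049 : Nd := .arc (nat_lit 3) n8040 (.fin (nat_lit 141742237) (nat_lit 0))
def n8050 : Nd := .arc (nat_lit 6) n8048 (.arc (nat_lit 9) n8049 (.fin (nat_lit 272248985) (nat_lit 0)))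
def n8051 : Nd := .arc (nat_lit 3) n8045 (.arc (nat_lit 6) n8044 (.fin (nat_lit 141725853) (nat_lit 0)))
def n8052 : Nd := .arc (nat_lit 3) n8033 (.arc (nat_lit 9) n8032 (.fin (nat_lit 74076315) (nat_lit 0)))
def n8053 : Nd := .arc (nat_lit 3) n8050 (.arc (nat_lit 6) n8051 (.arc (nat_lit 9) n8052 (.fin (nat_lit 542773399) (nat_lit 0))))
def n8054 : Nd := .arc (nat_lit 6) n8049 (.arc (nat_lit 9) n8048 (.fin (nat_lit 542781591) (nat_lit 0)))
def n8055 : Nd := .arc (nat_lit 3) n8036 (.arc (nat_lit 6) n8035 (.fin (nat_lit 74092699) (nat_lit 0)))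
def n8056 : Nd := .arc (nat_lit 3) n8042 (.arc (nat_lit 9) n8041 (.fin (nat_lit 141709469) (nat_lit 0)))
def n8057 : Nd := .arc (nat_lit 3) n8054 (.arc (nat_lit 6) n8055 (.arc (nat_lit 9) n8056 (.fin (nat_lit 272240793) (nat_lit 0))))
def n8058 : Nd := .arc (nat_lit 14) n7974 (.arc (nat_lit 17) n7983 (.arc (nat_lit 20) n7989 (.arc (nat_lit 23) n7993 (.arc (nat_lit 26) n8006 (.arc (nat_lit 29) n8015 (.arc (nat_lit 32) n8021 (.arc (nat_lit 35) n8025 (.arc (nat_lit 38) n8038 (.arc (nat_lit 41) n8047 (.arc (nat_lit 44) n8053 (.arc (nat_lit 47) n8057 (.fin (nat_lit 23261339) (nat_lit 0)))))))))))))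
def n8059 : Nd := .arc (nat_lit 3) n8058 (.arc (nat_lit 40) n7998 (.arc (nat_lit 43) n8002 (.arc (nat_lit 46) n8005 (.fin (nat_lit 23253149) (nat_lit 0)))))
def n8060 : Nd := .arc (nat_lit 14) n7983 (.arc (nat_lit 17) n7974 (.arc (nat_lit 20) n7993 (.arc (nat_lit 23) n7989 (.arc (nat_lit 26) n8038 (.arc (nat_lit 29) n8047 (.arc (nat_lit 32) n8057 (.arc (nat_lit 35) n8053 (.arc (nat_lit 38) n8006 (.arc (nat_lit 41) n8015 (.arc (nat_lit 44) n8025 (.arc (nat_lit 47) n8021 (.fin (nat_lit 23261341) (nat_lit 0)))))))))))))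
def n8061 : Nd := .arc (nat_lit 3) n8060 (.arc (nat_lit 40) n8030 (.arc (nat_lit 43) n8034 (.arc (nat_lit 46) n8037 (.fin (nat_lit 23253147) (nat_lit 0)))))
def n8062 : Nd := .arc (nat_lit 6) n8059 (.arc (nat_lit 9) n8061 (.fin (nat_lit 18493591) (nat_lit 0)))
def n8063 : Nd := .arc (nat_lit 14) n7989 (.arc (nat_lit 17) n7993 (.arc (nat_lit 20) n7983 (.arc (nat_lit 23) n7974 (.arc (nat_lit 50) n8038 (.arc (nat_lit 53) n8047 (.arc (nat_lit 56) n8053 (.arc (nat_lit 59) n8057 (.arc (nat_lit 62) n8006 (.arc (nat_lit 65) n8015 (.arc (nat_lit 68) n8021 (.arc (nat_lit 71) n8025 (.fin (nat_lit 18542743) (nat_lit 0)))))))))))))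
def n8064 : Nd := .arc (nat_lit 9) n8063 (.fin (nat_lit 23228573) (nat_lit 0))
def n8065 : Nd := .arc (nat_lit 6) n8060 (.arc (nat_lit 52) n8030 (.arc (nat_lit 55) n8034 (.arc (nat_lit 58) n8037 (.fin (nat_lit 18526359) (nat_lit 0)))))
def n8066 : Nd := .arc (nat_lit 3) n8064 (.arc (nat_lit 6) n8065 (.fin (nat_lit 23236763) (nat_lit 0)))
def n8067 : Nd := .arc (nat_lit 6) n8063 (.fin (nat_lit 23244955) (nat_lit 0))
def n8068 : Nd := .arc (nat_lit 9) n8058 (.arc (nat_lit 64) n7998 (.arc (nat_lit 67) n8005 (.arc (nat_lit 70) n8002 (.fin (nat_lit 18509975) (nat_lit 0)))))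
def n8069 : Nd := .arc (nat_lit 3) n8067 (.arc (nat_lit 9) n8068 (.fin (nat_lit 23220381) (nat_lit 0)))
def n8070 : Nd := .arc (nat_lit 3) n8062 (.arc (nat_lit 6) n8066 (.arc (nat_lit 9) n8069 (.fin (nat_lit 18485401) (nat_lit 0))))
def n8071 : Nd := .arc (nat_lit 6) n8061 (.arc (nat_lit 9) n8059 (.fin (nat_lit 18493593) (nat_lit 0)))
def n8072 : Nd := .arc (nat_lit 14) n7993 (.arc (nat_lit 17) n7989 (.arc (nat_lit 20) n7974 (.arc (nat_lit 23) n7983 (.arc (nat_lit 50) n8006 (.arc (nat_lit 53) n8015 (.arc (nat_lit 56) n8025 (.arc (nat_lit 59) n8021 (.arc (nat_lit 62) n8038 (.arc (nat_lit 65) n8047 (.arc (nat_lit 68) n8057 (.arc (nat_lit 71) n8053 (.fin (nat_lit 18542745) (nat_lit 0)))))))))))))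
def n8073 : Nd := .arc (nat_lit 9) n8072 (.fin (nat_lit 23228571) (nat_lit 0))
def n8074 : Nd := .arc (nat_lit 6) n8058 (.arc (nat_lit 52) n7998 (.arc (nat_lit 55) n8002 (.arc (nat_lit 58) n8005 (.fin (nat_lit 18526361) (nat_lit 0)))))
def n8075 : Nd := .arc (nat_lit 3) n8073 (.arc (nat_lit 6) n8074 (.fin (nat_lit 23236765) (nat_lit 0)))
def n8076 : Nd := .arc (nat_lit 6) n8072 (.fin (nat_lit 23244957) (nat_lit 0))
def n8077 : Nd := .arc (nat_lit 9) n8060 (.arc (nat_lit 64) n8030 (.arc (nat_lit 67) n8037 (.arc (nat_lit 70) n8034 (.fin (nat_lit 18509977) (nat_lit 0)))))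
def n8078 : Nd := .arc (nat_lit 3) n8076 (.arc (nat_lit 9) n8077 (.fin (nat_lit 23220379) (nat_lit 0)))
def n8079 : Nd := .arc (nat_lit 3) n8071 (.arc (nat_lit 6) n8075 (.arc (nat_lit 9) n8078 (.fin (nat_lit 18485399) (nat_lit 0))))
def n8080 : Nd := .arc (nat_lit 3) n8072 (.fin (nat_lit 18534551) (nat_lit 0))
def n8081 : Nd := .arc (nat_lit 3) n8063 (.fin (nat_lit 18534553) (nat_lit 0))
def n8082 : Nd := .arc (nat_lit 6) n8080 (.arc (nat_lit 9) n8081 (.fin (nat_lit 23212187) (nat_lit 0)))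
def n8083 : Nd := .arc (nat_lit 3) n8068 (.arc (nat_lit 6) n8067 (.fin (nat_lit 18518169) (nat_lit 0)))
def n8084 : Nd := .arc (nat_lit 3) n8074 (.arc (nat_lit 9) n8073 (.fin (nat_lit 18501783) (nat_lit 0)))
def n8085 : Nd := .arc (nat_lit 3) n8082 (.arc (nat_lit 6) n8083 (.arc (nat_lit 9) n8084 (.fin (nat_lit 23203997) (nat_lit 0))))
def n8086 : Nd := .arc (nat_lit 6) n8081 (.arc (nat_lit 9) n8080 (.fin (nat_lit 23212189) (nat_lit 0)))
def n8087 : Nd := .arc (nat_lit 3) n8077 (.arc (nat_lit 6) n8076 (.fin (nat_lit 18518167) (nat_lit 0)))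
def n8088 : Nd := .arc (nat_lit 3) n8065 (.arc (nat_lit 9) n8064 (.fin (nat_lit 18501785) (nat_lit 0)))
def n8089 : Nd := .arc (nat_lit 3) n8086 (.arc (nat_lit 6) n8087 (.arc (nat_lit 9) n8088 (.fin (nat_lit 23203995) (nat_lit 0))))
def n8090 : Nd := .arc (nat_lit 26) n7462 (.arc (nat_lit 29) n7471 (.arc (nat_lit 32) n7477 (.arc (nat_lit 35) n7481 (.arc (nat_lit 38) n7750 (.arc (nat_lit 41) n7759 (.arc (nat_lit 44) n7765 (.arc (nat_lit 47) n7769 (.arc (nat_lit 50) n7942 (.arc (nat_lit 53) n7951 (.arc (nat_lit 56) n7957 (.arc (nat_lit 59) n7961 (.arc (nat_lit 62) n8070 (.arc (nat_lit 65) n8079 (.arc (nat_lit 68) n8085 (.arc (nat_lit 71) n8089 (.fin (nat_lit 537325717) (nat_lit 0)))))))))))))))))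
def n8091 : Nd := .arc (nat_lit 3) n8090 (.arc (nat_lit 40) n7454 (.arc (nat_lit 43) n7458 (.arc (nat_lit 46) n7461 (.fin (nat_lit 268882069) (nat_lit 0)))))
def n8092 : Nd := .arc (nat_lit 26) n7750 (.arc (nat_lit 29) n7759 (.arc (nat_lit 32) n7769 (.arc (nat_lit 35) n7765 (.arc (nat_lit 38) n7462 (.arc (nat_lit 41) n7471 (.arc (nat_lit 44) n7481 (.arc (nat_lit 47) n7477 (.arc (nat_lit 50) n8070 (.arc (nat_lit 53) n8079 (.arc (nat_lit 56) n8089 (.arc (nat_lit 59) n8085 (.arc (nat_lit 62) n7942 (.arc (nat_lit 65) n7951 (.arc (nat_lit 68) n7961 (.arc (nat_lit 71) n7957 (.fin (nat_lit 268890261) (nat_lit 0)))))))))))))))))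
def n8093 : Nd := .arc (nat_lit 3) n8092 (.arc (nat_lit 40) n7742 (.arc (nat_lit 43) n7746 (.arc (nat_lit 46) n7749 (.fin (nat_lit 537317525) (nat_lit 0)))))
def n8094 : Nd := .arc (nat_lit 6) n8091 (.arc (nat_lit 9) n8093 (.fin (nat_lit 134623381) (nat_lit 0)))
def n8095 : Nd := .arc (nat_lit 26) n7942 (.arc (nat_lit 29) n7951 (.arc (nat_lit 32) n7961 (.arc (nat_lit 35) n7957 (.arc (nat_lit 38) n8070 (.arc (nat_lit 41) n8079 (.arc (nat_lit 44) n8089 (.arc (nat_lit 47) n8085 (.arc (nat_lit 50) n7750 (.arc (nat_lit 53) n7759 (.arc (nat_lit 56) n7765 (.arc (nat_lit 59) n7769 (.arc (nat_lit 62) n7462 (.arc (nat_lit 65) n7471 (.arc (nat_lit 68) n7477 (.arc (nat_lit 71) n7481 (.fin (nat_lit 134672533) (nat_lit 0)))))))))))))))))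
def n8096 : Nd := .arc (nat_lit 9) n8095 (.arc (nat_lit 64) n7934 (.arc (nat_lit 67) n7941 (.arc (nat_lit 70) n7938 (.fin (nat_lit 268857493) (nat_lit 0)))))
def n8097 : Nd := .arc (nat_lit 6) n8092 (.arc (nat_lit 52) n7742 (.arc (nat_lit 55) n7746 (.arc (nat_lit 58) n7749 (.fin (nat_lit 134656149) (nat_lit 0)))))
def n8098 : Nd := .arc (nat_lit 3) n8096 (.arc (nat_lit 6) n8097 (.fin (nat_lit 537301141) (nat_lit 0)))
def n8099 : Nd := .arc (nat_lit 6) n8095 (.arc (nat_lit 52) n7934 (.arc (nat_lit 55) n7938 (.arc (nat_lit 58) n7941 (.fin (nat_lit 537309333) (nat_lit 0)))))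
def n8100 : Nd := .arc (nat_lit 9) n8090 (.arc (nat_lit 64) n7454 (.arc (nat_lit 67) n7461 (.arc (nat_lit 70) n7458 (.fin (nat_lit 134639765) (nat_lit 0)))))
def n8101 : Nd := .arc (nat_lit 3) n8099 (.arc (nat_lit 9) n8100 (.fin (nat_lit 268849301) (nat_lit 0)))
def n8102 : Nd := .arc (nat_lit 3) n8094 (.arc (nat_lit 6) n8098 (.arc (nat_lit 9) n8101 (.fin (nat_lit 67506325) (nat_lit 0))))
def n8103 : Nd := .arc (nat_lit 6) n8093 (.arc (nat_lit 9) n8091 (.fin (nat_lit 67514517) (nat_lit 0)))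
def n8104 : Nd := .arc (nat_lit 26) n8070 (.arc (nat_lit 29) n8079 (.arc (nat_lit 32) n8085 (.arc (nat_lit 35) n8089 (.arc (nat_lit 38) n7942 (.arc (nat_lit 41) n7951 (.arc (nat_lit 44) n7957 (.arc (nat_lit 47) n7961 (.arc (nat_lit 50) n7462 (.arc (nat_lit 53) n7471 (.arc (nat_lit 56) n7481 (.arc (nat_lit 59) n7477 (.arc (nat_lit 62) n7750 (.arc (nat_lit 65) n7759 (.arc (nat_lit 68) n7769 (.arc (nat_lit 71) n7765 (.fin (nat_lit 67563669) (nat_lit 0)))))))))))))))))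
def n8105 : Nd := .arc (nat_lit 9) n8104 (.arc (nat_lit 64) n8062 (.arc (nat_lit 67) n8069 (.arc (nat_lit 70) n8066 (.fin (nat_lit 537292949) (nat_lit 0)))))
def n8106 : Nd := .arc (nat_lit 6) n8090 (.arc (nat_lit 52) n7454 (.arc (nat_lit 55) n7458 (.arc (nat_lit 58) n7461 (.fin (nat_lit 67547285) (nat_lit 0)))))
def n8107 : Nd := .arc (nat_lit 3) n8105 (.arc (nat_lit 6) n8106 (.fin (nat_lit 268865685) (nat_lit 0)))
def n8108 : Nd := .arc (nat_lit 6) n8104 (.arc (nat_lit 52) n8062 (.arc (nat_lit 55) n8066 (.arc (nat_lit 58) n8069 (.fin (nat_lit 268873877) (nat_lit 0)))))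
def n8109 : Nd := .arc (nat_lit 9) n8092 (.arc (nat_lit 64) n7742 (.arc (nat_lit 67) n7749 (.arc (nat_lit 70) n7746 (.fin (nat_lit 67530901) (nat_lit 0)))))
def n8110 : Nd := .arc (nat_lit 3) n8108 (.arc (nat_lit 9) n8109 (.fin (nat_lit 537284757) (nat_lit 0)))
def n8111 : Nd := .arc (nat_lit 3) n8103 (.arc (nat_lit 6) n8107 (.arc (nat_lit 9) n8110 (.fin (nat_lit 134615189) (nat_lit 0))))
def n8112 : Nd := .arc (nat_lit 3) n8104 (.arc (nat_lit 40) n8062 (.arc (nat_lit 43) n8066 (.arc (nat_lit 46) n8069 (.fin (nat_lit 134664341) (nat_lit 0)))))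
def n8113 : Nd := .arc (nat_lit 3) n8095 (.arc (nat_lit 40) n7934 (.arc (nat_lit 43) n7938 (.arc (nat_lit 46) n7941 (.fin (nat_lit 67555477) (nat_lit 0)))))
def n8114 : Nd := .arc (nat_lit 6) n8112 (.arc (nat_lit 9) n8113 (.fin (nat_lit 537276565) (nat_lit 0)))
def n8115 : Nd := .arc (nat_lit 3) n8100 (.arc (nat_lit 6) n8099 (.fin (nat_lit 67539093) (nat_lit 0)))
def n8116 : Nd := .arc (nat_lit 3) n8106 (.arc (nat_lit 9) n8105 (.fin (nat_lit 134631573) (nat_lit 0)))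
def n8117 : Nd := .arc (nat_lit 3) n8114 (.arc (nat_lit 6) n8115 (.arc (nat_lit 9) n8116 (.fin (nat_lit 268832917) (nat_lit 0))))
def n8118 : Nd := .arc (nat_lit 6) n8113 (.arc (nat_lit 9) n8112 (.fin (nat_lit 268841109) (nat_lit 0)))
def n8119 : Nd := .arc (nat_lit 3) n8109 (.arc (nat_lit 6) n8108 (.fin (nat_lit 134647957) (nat_lit 0)))
def n8120 : Nd := .arc (nat_lit 3) n8097 (.arc (nat_lit 9) n8096 (.fin (nat_lit 67522709) (nat_lit 0)))
def n8121 : Nd := .arc (nat_lit 3) n8118 (.arc (nat_lit 6) n8119 (.arc (nat_lit 9) n8120 (.fin (nat_lit 537268373) (nat_lit 0))))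
def n8122 : Nd := .arc (nat_lit 26) n7797 (.arc (nat_lit 29) n7801 (.arc (nat_lit 32) n7782 (.arc (nat_lit 35) n7791 (.arc (nat_lit 38) n7829 (.arc (nat_lit 41) n7833 (.arc (nat_lit 44) n7814 (.arc (nat_lit 47) n7823 (.fin (nat_lit 275181717) (nat_lit 0)))))))))
def n8123 : Nd := .arc (nat_lit 3) n8122 (.arc (nat_lit 40) n7794 (.arc (nat_lit 43) n7795 (.arc (nat_lit 46) n7796 (.fin (nat_lit 543608981) (nat_lit 0)))))
def n8124 : Nd := .arc (nat_lit 26) n7829 (.arc (nat_lit 29) n7833 (.arc (nat_lit 32) n7823 (.arc (nat_lit 35) n7814 (.arc (nat_lit 38) n7797 (.arc (nat_lit 41) n7801 (.arc (nat_lit 44) n7791 (.arc (nat_lit 47) n7782 (.fin (nat_lit 543617173) (nat_lit 0)))))))))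
def n8125 : Nd := .arc (nat_lit 3) n8124 (.arc (nat_lit 40) n7826 (.arc (nat_lit 43) n7827 (.arc (nat_lit 46) n7828 (.fin (nat_lit 275173525) (nat_lit 0)))))
def n8126 : Nd := .arc (nat_lit 6) n8123 (.arc (nat_lit 9) n8125 (.fin (nat_lit 69087381) (nat_lit 0)))
def n8127 : Nd := .arc (nat_lit 50) n7829 (.arc (nat_lit 53) n7833 (.arc (nat_lit 56) n7814 (.arc (nat_lit 59) n7823 (.arc (nat_lit 62) n7797 (.arc (nat_lit 65) n7801 (.arc (nat_lit 68) n7782 (.arc (nat_lit 71) n7791 (.fin (nat_lit 69136533) (nat_lit 0)))))))))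
def n8128 : Nd := .arc (nat_lit 9) n8127 (.fin (nat_lit 543584405) (nat_lit 0))
def n8129 : Nd := .arc (nat_lit 6) n8124 (.arc (nat_lit 52) n7826 (.arc (nat_lit 55) n7827 (.arc (nat_lit 58) n7828 (.fin (nat_lit 69120149) (nat_lit 0)))))
def n8130 : Nd := .arc (nat_lit 3) n8128 (.arc (nat_lit 6) n8129 (.fin (nat_lit 275157141) (nat_lit 0)))
def n8131 : Nd := .arc (nat_lit 6) n8127 (.fin (nat_lit 275165333) (nat_lit 0))
def n8132 : Nd := .arc (nat_lit 9) n8122 (.arc (nat_lit 64) n7794 (.arc (nat_lit 67) n7796 (.arc (nat_lit 70) n7795 (.fin (nat_lit 69103765) (nat_lit 0)))))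
def n8133 : Nd := .arc (nat_lit 3) n8131 (.arc (nat_lit 9) n8132 (.fin (nat_lit 543576213) (nat_lit 0)))
def n8134 : Nd := .arc (nat_lit 3) n8126 (.arc (nat_lit 6) n8130 (.arc (nat_lit 9) n8133 (.fin (nat_lit 136188053) (nat_lit 0))))
def n8135 : Nd := .arc (nat_lit 6) n8125 (.arc (nat_lit 9) n8123 (.fin (nat_lit 136196245) (nat_lit 0)))
def n8136 : Nd := .arc (nat_lit 50) n7797 (.arc (nat_lit 53) n7801 (.arc (nat_lit 56) n7791 (.arc (nat_lit 59) n7782 (.arc (nat_lit 62) n7829 (.arc (nat_lit 65) n7833 (.arc (nat_lit 68) n7823 (.arc (nat_lit 71) n7814 (.fin (nat_lit 136245397) (nat_lit 0)))))))))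
def n8137 : Nd := .arc (nat_lit 9) n8136 (.fin (nat_lit 275148949) (nat_lit 0))
def n8138 : Nd := .arc (nat_lit 6) n8122 (.arc (nat_lit 52) n7794 (.arc (nat_lit 55) n7795 (.arc (nat_lit 58) n7796 (.fin (nat_lit 136229013) (nat_lit 0)))))
def n8139 : Nd := .arc (nat_lit 3) n8137 (.arc (nat_lit 6) n8138 (.fin (nat_lit 543592597) (nat_lit 0)))
def n8140 : Nd := .arc (nat_lit 6) n8136 (.fin (nat_lit 543600789) (nat_lit 0))
def n8141 : Nd := .arc (nat_lit 9) n8124 (.arc (nat_lit 64) n7826 (.arc (nat_lit 67) n7828 (.arc (nat_lit 70) n7827 (.fin (nat_lit 136212629) (nat_lit 0)))))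
def n8142 : Nd := .arc (nat_lit 3) n8140 (.arc (nat_lit 9) n8141 (.fin (nat_lit 275140757) (nat_lit 0)))
def n8143 : Nd := .arc (nat_lit 3) n8135 (.arc (nat_lit 6) n8139 (.arc (nat_lit 9) n8142 (.fin (nat_lit 69079189) (nat_lit 0))))
def n8144 : Nd := .arc (nat_lit 3) n8127 (.fin (nat_lit 136237205) (nat_lit 0))
def n8145 : Nd := .arc (nat_lit 3) n8136 (.fin (nat_lit 69128341) (nat_lit 0))
def n8146 : Nd := .arc (nat_lit 6) n8144 (.arc (nat_lit 9) n8145 (.fin (nat_lit 543568021) (nat_lit 0)))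
def n8147 : Nd := .arc (nat_lit 3) n8141 (.arc (nat_lit 6) n8140 (.fin (nat_lit 69111957) (nat_lit 0)))
def n8148 : Nd := .arc (nat_lit 3) n8129 (.arc (nat_lit 9) n8128 (.fin (nat_lit 136204437) (nat_lit 0)))
def n8149 : Nd := .arc (nat_lit 3) n8146 (.arc (nat_lit 6) n8147 (.arc (nat_lit 9) n8148 (.fin (nat_lit 275124373) (nat_lit 0))))
def n8150 : Nd := .arc (nat_lit 6) n8145 (.arc (nat_lit 9) n8144 (.fin (nat_lit 275132565) (nat_lit 0)))
def n8151 : Nd := .arc (nat_lit 3) n8132 (.arc (nat_lit 6) n8131 (.fin (nat_lit 136220821) (nat_lit 0)))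
def n8152 : Nd := .arc (nat_lit 3) n8138 (.arc (nat_lit 9) n8137 (.fin (nat_lit 69095573) (nat_lit 0)))
def n8153 : Nd := .arc (nat_lit 3) n8150 (.arc (nat_lit 6) n8151 (.arc (nat_lit 9) n8152 (.fin (nat_lit 543559829) (nat_lit 0))))
def n8154 : Nd := .arc (nat_lit 14) n7058 (.arc (nat_lit 20) n7062 (.arc (nat_lit 23) n7065 (.fin (nat_lit 142536853) (nat_lit 0))))
def n8155 : Nd := .arc (nat_lit 3) n8154 (.fin (nat_lit 75419797) (nat_lit 0))
def n8156 : Nd := .arc (nat_lit 17) n7058 (.arc (nat_lit 20) n7065 (.arc (nat_lit 23) n7062 (.fin (nat_lit 75427989) (nat_lit 0))))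
def n8157 : Nd := .arc (nat_lit 3) n8156 (.fin (nat_lit 142528661) (nat_lit 0))
def n8158 : Nd := .arc (nat_lit 6) n8155 (.arc (nat_lit 9) n8157 (.fin (nat_lit 276705429) (nat_lit 0)))
def n8159 : Nd := .arc (nat_lit 14) n7062 (.arc (nat_lit 17) n7065 (.arc (nat_lit 23) n7058 (.fin (nat_lit 276754581) (nat_lit 0))))
def n8160 : Nd := .arc (nat_lit 9) n8159 (.fin (nat_lit 75395221) (nat_lit 0))
def n8161 : Nd := .arc (nat_lit 6) n8156 (.fin (nat_lit 276738197) (nat_lit 0))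
def n8162 : Nd := .arc (nat_lit 3) n8160 (.arc (nat_lit 6) n8161 (.fin (nat_lit 142512277) (nat_lit 0)))
def n8163 : Nd := .arc (nat_lit 6) n8159 (.fin (nat_lit 142520469) (nat_lit 0))
def n8164 : Nd := .arc (nat_lit 9) n8154 (.fin (nat_lit 276721813) (nat_lit 0))
def n8165 : Nd := .arc (nat_lit 3) n8163 (.arc (nat_lit 9) n8164 (.fin (nat_lit 75387029) (nat_lit 0)))
def n8166 : Nd := .arc (nat_lit 3) n8158 (.arc (nat_lit 6) n8162 (.arc (nat_lit 9) n8165 (.fin (nat_lit 545132693) (nat_lit 0))))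
def n8167 : Nd := .arc (nat_lit 6) n8157 (.arc (nat_lit 9) n8155 (.fin (nat_lit 545140885) (nat_lit 0)))
def n8168 : Nd := .arc (nat_lit 14) n7065 (.arc (nat_lit 17) n7062 (.arc (nat_lit 20) n7058 (.fin (nat_lit 545190037) (nat_lit 0))))
def n8169 : Nd := .arc (nat_lit 9) n8168 (.fin (nat_lit 142504085) (nat_lit 0))
def n8170 : Nd := .arc (nat_lit 6) n8154 (.fin (nat_lit 545173653) (nat_lit 0))
def n8171 : Nd := .arc (nat_lit 3) n8169 (.arc (nat_lit 6) n8170 (.fin (nat_lit 75403413) (nat_lit 0)))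
def n8172 : Nd := .arc (nat_lit 6) n8168 (.fin (nat_lit 75411605) (nat_lit 0))
def n8173 : Nd := .arc (nat_lit 9) n8156 (.fin (nat_lit 545157269) (nat_lit 0))
def n8174 : Nd := .arc (nat_lit 3) n8172 (.arc (nat_lit 9) n8173 (.fin (nat_lit 142495893) (nat_lit 0)))
def n8175 : Nd := .arc (nat_lit 3) n8167 (.arc (nat_lit 6) n8171 (.arc (nat_lit 9) n8174 (.fin (nat_lit 276697237) (nat_lit 0))))
def n8176 : Nd := .arc (nat_lit 3) n8159 (.fin (nat_lit 545181845) (nat_lit 0))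
def n8177 : Nd := .arc (nat_lit 3) n8168 (.fin (nat_lit 276746389) (nat_lit 0))
def n8178 : Nd := .arc (nat_lit 6) n8176 (.arc (nat_lit 9) n8177 (.fin (nat_lit 75378837) (nat_lit 0)))
def n8179 : Nd := .arc (nat_lit 3) n8173 (.arc (nat_lit 6) n8172 (.fin (nat_lit 276730005) (nat_lit 0)))
def n8180 : Nd := .arc (nat_lit 3) n8161 (.arc (nat_lit 9) n8160 (.fin (nat_lit 545149077) (nat_lit 0)))
def n8181 : Nd := .arc (nat_lit 3) n8178 (.arc (nat_lit 6) n8179 (.arc (nat_lit 9) n8180 (.fin (nat_lit 142479509) (nat_lit 0))))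
def n8182 : Nd := .arc (nat_lit 6) n8177 (.arc (nat_lit 9) n8176 (.fin (nat_lit 142487701) (nat_lit 0)))
def n8183 : Nd := .arc (nat_lit 3) n8164 (.arc (nat_lit 6) n8163 (.fin (nat_lit 545165461) (nat_lit 0)))
def n8184 : Nd := .arc (nat_lit 3) n8170 (.arc (nat_lit 9) n8169 (.fin (nat_lit 276713621) (nat_lit 0)))
def n8185 : Nd := .arc (nat_lit 3) n8182 (.arc (nat_lit 6) n8183 (.arc (nat_lit 9) n8184 (.fin (nat_lit 75370645) (nat_lit 0))))
def n8186 : Nd := .arc (nat_lit 50) n8166 (.arc (nat_lit 53) n8175 (.arc (nat_lit 56) n8181 (.arc (nat_lit 59) n8185 (.fin (nat_lit 140439709) (nat_lit 0)))))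
def n8187 : Nd := .arc (nat_lit 3) n8186 (.fin (nat_lit 71225499) (nat_lit 0))
def n8188 : Nd := .arc (nat_lit 62) n8166 (.arc (nat_lit 65) n8175 (.arc (nat_lit 68) n8185 (.arc (nat_lit 71) n8181 (.fin (nat_lit 71233691) (nat_lit 0)))))
def n8189 : Nd := .arc (nat_lit 3) n8188 (.fin (nat_lit 140431517) (nat_lit 0))
def n8190 : Nd := .arc (nat_lit 6) n8187 (.arc (nat_lit 9) n8189 (.fin (nat_lit 276181145) (nat_lit 0)))
def n8191 : Nd := .arc (nat_lit 26) n8166 (.arc (nat_lit 29) n8175 (.arc (nat_lit 32) n8185 (.arc (nat_lit 35) n8181 (.fin (nat_lit 276230297) (nat_lit 0)))))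
def n8192 : Nd := .arc (nat_lit 9) n8191 (.arc (nat_lit 64) n8158 (.arc (nat_lit 67) n8165 (.arc (nat_lit 70) n8162 (.fin (nat_lit 71200923) (nat_lit 0)))))
def n8193 : Nd := .arc (nat_lit 6) n8188 (.fin (nat_lit 276213913) (nat_lit 0))
def n8194 : Nd := .arc (nat_lit 3) n8192 (.arc (nat_lit 6) n8193 (.fin (nat_lit 140415133) (nat_lit 0)))
def n8195 : Nd := .arc (nat_lit 6) n8191 (.arc (nat_lit 52) n8158 (.arc (nat_lit 55) n8162 (.arc (nat_lit 58) n8165 (.fin (nat_lit 140423325) (nat_lit 0)))))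
def n8196 : Nd := .arc (nat_lit 9) n8186 (.fin (nat_lit 276197529) (nat_lit 0))
def n8197 : Nd := .arc (nat_lit 3) n8195 (.arc (nat_lit 9) n8196 (.fin (nat_lit 71192731) (nat_lit 0)))
def n8198 : Nd := .arc (nat_lit 3) n8190 (.arc (nat_lit 6) n8194 (.arc (nat_lit 9) n8197 (.fin (nat_lit 544084119) (nat_lit 0))))
def n8199 : Nd := .arc (nat_lit 6) n8189 (.arc (nat_lit 9) n8187 (.fin (nat_lit 544092311) (nat_lit 0)))
def n8200 : Nd := .arc (nat_lit 38) n8166 (.arc (nat_lit 41) n8175 (.arc (nat_lit 44) n8181 (.arc (nat_lit 47) n8185 (.fin (nat_lit 544141463) (nat_lit 0)))))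
def n8201 : Nd := .arc (nat_lit 9) n8200 (.fin (nat_lit 140406941) (nat_lit 0))
def n8202 : Nd := .arc (nat_lit 6) n8186 (.fin (nat_lit 544125079) (nat_lit 0))
def n8203 : Nd := .arc (nat_lit 3) n8201 (.arc (nat_lit 6) n8202 (.fin (nat_lit 71209115) (nat_lit 0)))
def n8204 : Nd := .arc (nat_lit 6) n8200 (.fin (nat_lit 71217307) (nat_lit 0))
def n8205 : Nd := .arc (nat_lit 9) n8188 (.fin (nat_lit 544108695) (nat_lit 0))
def n8206 : Nd := .arc (nat_lit 3) n8204 (.arc (nat_lit 9) n8205 (.fin (nat_lit 140398749) (nat_lit 0)))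
def n8207 : Nd := .arc (nat_lit 3) n8199 (.arc (nat_lit 6) n8203 (.arc (nat_lit 9) n8206 (.fin (nat_lit 276172953) (nat_lit 0))))
def n8208 : Nd := .arc (nat_lit 3) n8200 (.fin (nat_lit 276222105) (nat_lit 0))
def n8209 : Nd := .arc (nat_lit 3) n8191 (.arc (nat_lit 40) n8158 (.arc (nat_lit 43) n8162 (.arc (nat_lit 46) n8165 (.fin (nat_lit 544133271) (nat_lit 0)))))
def n8210 : Nd := .arc (nat_lit 6) n8208 (.arc (nat_lit 9) n8209 (.fin (nat_lit 140390557) (nat_lit 0)))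
def n8211 : Nd := .arc (nat_lit 3) n8196 (.arc (nat_lit 6) n8195 (.fin (nat_lit 544116887) (nat_lit 0)))
def n8212 : Nd := .arc (nat_lit 3) n8202 (.arc (nat_lit 9) n8201 (.fin (nat_lit 276189337) (nat_lit 0)))
def n8213 : Nd := .arc (nat_lit 3) n8210 (.arc (nat_lit 6) n8211 (.arc (nat_lit 9) n8212 (.fin (nat_lit 71176347) (nat_lit 0))))
def n8214 : Nd := .arc (nat_lit 6) n8209 (.arc (nat_lit 9) n8208 (.fin (nat_lit 71184539) (nat_lit 0)))
def n8215 : Nd := .arc (nat_lit 3) n8205 (.arc (nat_lit 6) n8204 (.fin (nat_lit 276205721) (nat_lit 0)))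
def n8216 : Nd := .arc (nat_lit 3) n8193 (.arc (nat_lit 9) n8192 (.fin (nat_lit 544100503) (nat_lit 0)))
def n8217 : Nd := .arc (nat_lit 3) n8214 (.arc (nat_lit 6) n8215 (.arc (nat_lit 9) n8216 (.fin (nat_lit 140382365) (nat_lit 0))))
def n8218 : Nd := .arc (nat_lit 50) n7545 (.arc (nat_lit 53) n7541 (.arc (nat_lit 56) n7526 (.arc (nat_lit 59) n7535 (.fin (nat_lit 73330837) (nat_lit 0)))))
def n8219 : Nd := .arc (nat_lit 3) n8218 (.fin (nat_lit 138334357) (nat_lit 0))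
def n8220 : Nd := .arc (nat_lit 62) n7545 (.arc (nat_lit 65) n7541 (.arc (nat_lit 68) n7535 (.arc (nat_lit 71) n7526 (.fin (nat_lit 138342549) (nat_lit 0)))))
def n8221 : Nd := .arc (nat_lit 3) n8220 (.fin (nat_lit 73322645) (nat_lit 0))
def n8222 : Nd := .arc (nat_lit 6) n8219 (.arc (nat_lit 9) n8221 (.fin (nat_lit 544616597) (nat_lit 0)))
def n8223 : Nd := .arc (nat_lit 26) n7545 (.arc (nat_lit 29) n7541 (.arc (nat_lit 32) n7535 (.arc (nat_lit 35) n7526 (.fin (nat_lit 544665749) (nat_lit 0)))))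
def n8224 : Nd := .arc (nat_lit 9) n8223 (.arc (nat_lit 64) n7542 (.arc (nat_lit 67) n7544 (.arc (nat_lit 70) n7543 (.fin (nat_lit 138309781) (nat_lit 0)))))
def n8225 : Nd := .arc (nat_lit 6) n8220 (.fin (nat_lit 544649365) (nat_lit 0))
def n8226 : Nd := .arc (nat_lit 3) n8224 (.arc (nat_lit 6) n8225 (.fin (nat_lit 73306261) (nat_lit 0)))
def n8227 : Nd := .arc (nat_lit 6) n8223 (.arc (nat_lit 52) n7542 (.arc (nat_lit 55) n7543 (.arc (nat_lit 58) n7544 (.fin (nat_lit 73314453) (nat_lit 0)))))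
def n8228 : Nd := .arc (nat_lit 9) n8218 (.fin (nat_lit 544632981) (nat_lit 0))
def n8229 : Nd := .arc (nat_lit 3) n8227 (.arc (nat_lit 9) n8228 (.fin (nat_lit 138301589) (nat_lit 0)))
def n8230 : Nd := .arc (nat_lit 3) n8222 (.arc (nat_lit 6) n8226 (.arc (nat_lit 9) n8229 (.fin (nat_lit 275648661) (nat_lit 0))))
def n8231 : Nd := .arc (nat_lit 6) n8221 (.arc (nat_lit 9) n8219 (.fin (nat_lit 275656853) (nat_lit 0)))
def n8232 : Nd := .arc (nat_lit 38) n7545 (.arc (nat_lit 41) n7541 (.arc (nat_lit 44) n7526 (.arc (nat_lit 47) n7535 (.fin (nat_lit 275706005) (nat_lit 0)))))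
def n8233 : Nd := .arc (nat_lit 9) n8232 (.fin (nat_lit 73298069) (nat_lit 0))
def n8234 : Nd := .arc (nat_lit 6) n8218 (.fin (nat_lit 275689621) (nat_lit 0))
def n8235 : Nd := .arc (nat_lit 3) n8233 (.arc (nat_lit 6) n8234 (.fin (nat_lit 138317973) (nat_lit 0)))
def n8236 : Nd := .arc (nat_lit 6) n8232 (.fin (nat_lit 138326165) (nat_lit 0))
def n8237 : Nd := .arc (nat_lit 9) n8220 (.fin (nat_lit 275673237) (nat_lit 0))
def n8238 : Nd := .arc (nat_lit 3) n8236 (.arc (nat_lit 9) n8237 (.fin (nat_lit 73289877) (nat_lit 0)))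
def n8239 : Nd := .arc (nat_lit 3) n8231 (.arc (nat_lit 6) n8235 (.arc (nat_lit 9) n8238 (.fin (nat_lit 544608405) (nat_lit 0))))
def n8240 : Nd := .arc (nat_lit 3) n8223 (.arc (nat_lit 40) n7542 (.arc (nat_lit 43) n7543 (.arc (nat_lit 46) n7544 (.fin (nat_lit 275697813) (nat_lit 0)))))
def n8241 : Nd := .arc (nat_lit 3) n8232 (.fin (nat_lit 544657557) (nat_lit 0))
def n8242 : Nd := .arc (nat_lit 6) n8240 (.arc (nat_lit 9) n8241 (.fin (nat_lit 138293397) (nat_lit 0)))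
def n8243 : Nd := .arc (nat_lit 3) n8237 (.arc (nat_lit 6) n8236 (.fin (nat_lit 544641173) (nat_lit 0)))
def n8244 : Nd := .arc (nat_lit 3) n8225 (.arc (nat_lit 9) n8224 (.fin (nat_lit 275665045) (nat_lit 0)))
def n8245 : Nd := .arc (nat_lit 3) n8242 (.arc (nat_lit 6) n8243 (.arc (nat_lit 9) n8244 (.fin (nat_lit 73273493) (nat_lit 0))))
def n8246 : Nd := .arc (nat_lit 6) n8241 (.arc (nat_lit 9) n8240 (.fin (nat_lit 73281685) (nat_lit 0)))
def n8247 : Nd := .arc (nat_lit 3) n8228 (.arc (nat_lit 6) n8227 (.fin (nat_lit 275681429) (nat_lit 0)))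
def n8248 : Nd := .arc (nat_lit 3) n8234 (.arc (nat_lit 9) n8233 (.fin (nat_lit 544624789) (nat_lit 0)))
def n8249 : Nd := .arc (nat_lit 3) n8246 (.arc (nat_lit 6) n8247 (.arc (nat_lit 9) n8248 (.fin (nat_lit 138285205) (nat_lit 0))))
def n8250 : Nd := .arc (nat_lit 14) n8198 (.arc (nat_lit 17) n8207 (.arc (nat_lit 20) n8213 (.arc (nat_lit 23) n8217 (.arc (nat_lit 38) n8230 (.arc (nat_lit 41) n8239 (.arc (nat_lit 44) n8245 (.arc (nat_lit 47) n8249 (.fin (nat_lit 275443863) (nat_lit 0)))))))))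
def n8251 : Nd := .arc (nat_lit 3) n8250 (.fin (nat_lit 544395417) (nat_lit 0))
def n8252 : Nd := .arc (nat_lit 14) n8207 (.arc (nat_lit 17) n8198 (.arc (nat_lit 20) n8217 (.arc (nat_lit 23) n8213 (.arc (nat_lit 26) n8230 (.arc (nat_lit 29) n8239 (.arc (nat_lit 32) n8249 (.arc (nat_lit 35) n8245 (.fin (nat_lit 544403609) (nat_lit 0)))))))))
def n8253 : Nd := .arc (nat_lit 3) n8252 (.arc (nat_lit 40) n8222 (.arc (nat_lit 43) n8226 (.arc (nat_lit 46) n8229 (.fin (nat_lit 275435671) (nat_lit 0)))))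
def n8254 : Nd := .arc (nat_lit 6) n8251 (.arc (nat_lit 9) n8253 (.fin (nat_lit 73019549) (nat_lit 0)))
def n8255 : Nd := .arc (nat_lit 14) n8213 (.arc (nat_lit 17) n8217 (.arc (nat_lit 20) n8207 (.arc (nat_lit 23) n8198 (.arc (nat_lit 50) n8230 (.arc (nat_lit 53) n8239 (.arc (nat_lit 56) n8245 (.arc (nat_lit 59) n8249 (.fin (nat_lit 73068701) (nat_lit 0)))))))))
def n8256 : Nd := .arc (nat_lit 9) n8255 (.fin (nat_lit 544370841) (nat_lit 0))
def n8257 : Nd := .arc (nat_lit 6) n8252 (.arc (nat_lit 52) n8222 (.arc (nat_lit 55) n8226 (.arc (nat_lit 58) n8229 (.fin (nat_lit 73052317) (nat_lit 0)))))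
def n8258 : Nd := .arc (nat_lit 3) n8256 (.arc (nat_lit 6) n8257 (.fin (nat_lit 275419287) (nat_lit 0)))
def n8259 : Nd := .arc (nat_lit 6) n8255 (.fin (nat_lit 275427479) (nat_lit 0))
def n8260 : Nd := .arc (nat_lit 9) n8250 (.fin (nat_lit 73035933) (nat_lit 0))
def n8261 : Nd := .arc (nat_lit 3) n8259 (.arc (nat_lit 9) n8260 (.fin (nat_lit 544362649) (nat_lit 0)))
def n8262 : Nd := .arc (nat_lit 3) n8254 (.arc (nat_lit 6) n8258 (.arc (nat_lit 9) n8261 (.fin (nat_lit 138023067) (nat_lit 0))))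
def n8263 : Nd := .arc (nat_lit 6) n8253 (.arc (nat_lit 9) n8251 (.fin (nat_lit 138031259) (nat_lit 0)))
def n8264 : Nd := .arc (nat_lit 14) n8217 (.arc (nat_lit 17) n8213 (.arc (nat_lit 20) n8198 (.arc (nat_lit 23) n8207 (.arc (nat_lit 62) n8230 (.arc (nat_lit 65) n8239 (.arc (nat_lit 68) n8249 (.arc (nat_lit 71) n8245 (.fin (nat_lit 138080411) (nat_lit 0)))))))))
def n8265 : Nd := .arc (nat_lit 9) n8264 (.fin (nat_lit 275411095) (nat_lit 0))
def n8266 : Nd := .arc (nat_lit 6) n8250 (.fin (nat_lit 138064027) (nat_lit 0))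
def n8267 : Nd := .arc (nat_lit 3) n8265 (.arc (nat_lit 6) n8266 (.fin (nat_lit 544379033) (nat_lit 0)))
def n8268 : Nd := .arc (nat_lit 6) n8264 (.fin (nat_lit 544387225) (nat_lit 0))
def n8269 : Nd := .arc (nat_lit 9) n8252 (.arc (nat_lit 64) n8222 (.arc (nat_lit 67) n8229 (.arc (nat_lit 70) n8226 (.fin (nat_lit 138047643) (nat_lit 0)))))
def n8270 : Nd := .arc (nat_lit 3) n8268 (.arc (nat_lit 9) n8269 (.fin (nat_lit 275402903) (nat_lit 0)))
def n8271 : Nd := .arc (nat_lit 3) n8263 (.arc (nat_lit 6) n8267 (.arc (nat_lit 9) n8270 (.fin (nat_lit 73011357) (nat_lit 0))))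
def n8272 : Nd := .arc (nat_lit 3) n8255 (.fin (nat_lit 138072219) (nat_lit 0))
def n8273 : Nd := .arc (nat_lit 3) n8264 (.fin (nat_lit 73060509) (nat_lit 0))
def n8274 : Nd := .arc (nat_lit 6) n8272 (.arc (nat_lit 9) n8273 (.fin (nat_lit 544354457) (nat_lit 0)))
def n8275 : Nd := .arc (nat_lit 3) n8269 (.arc (nat_lit 6) n8268 (.fin (nat_lit 73044125) (nat_lit 0)))
def n8276 : Nd := .arc (nat_lit 3) n8257 (.arc (nat_lit 9) n8256 (.fin (nat_lit 138039451) (nat_lit 0)))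
def n8277 : Nd := .arc (nat_lit 3) n8274 (.arc (nat_lit 6) n8275 (.arc (nat_lit 9) n8276 (.fin (nat_lit 275386519) (nat_lit 0))))
def n8278 : Nd := .arc (nat_lit 6) n8273 (.arc (nat_lit 9) n8272 (.fin (nat_lit 275394711) (nat_lit 0)))
def n8279 : Nd := .arc (nat_lit 3) n8260 (.arc (nat_lit 6) n8259 (.fin (nat_lit 138055835) (nat_lit 0)))
def n8280 : Nd := .arc (nat_lit 3) n8266 (.arc (nat_lit 9) n8265 (.fin (nat_lit 73027741) (nat_lit 0)))
def n8281 : Nd := .arc (nat_lit 3) n8278 (.arc (nat_lit 6) n8279 (.arc (nat_lit 9) n8280 (.fin (nat_lit 544346265) (nat_lit 0))))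
def n8282 : Nd := .arc (nat_lit 62) n8175 (.arc (nat_lit 65) n8166 (.arc (nat_lit 68) n8181 (.arc (nat_lit 71) n8185 (.fin (nat_lit 138342555) (nat_lit 0)))))
def n8283 : Nd := .arc (nat_lit 3) n8282 (.fin (nat_lit 73322653) (nat_lit 0))
def n8284 : Nd := .arc (nat_lit 50) n8175 (.arc (nat_lit 53) n8166 (.arc (nat_lit 56) n8185 (.arc (nat_lit 59) n8181 (.fin (nat_lit 73330845) (nat_lit 0)))))
def n8285 : Nd := .arc (nat_lit 3) n8284 (.fin (nat_lit 138334363) (nat_lit 0))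
def n8286 : Nd := .arc (nat_lit 6) n8283 (.arc (nat_lit 9) n8285 (.fin (nat_lit 275656855) (nat_lit 0)))
def n8287 : Nd := .arc (nat_lit 38) n8175 (.arc (nat_lit 41) n8166 (.arc (nat_lit 44) n8185 (.arc (nat_lit 47) n8181 (.fin (nat_lit 275706007) (nat_lit 0)))))
def n8288 : Nd := .arc (nat_lit 9) n8287 (.fin (nat_lit 73298077) (nat_lit 0))
def n8289 : Nd := .arc (nat_lit 6) n8284 (.fin (nat_lit 275689623) (nat_lit 0))
def n8290 : Nd := .arc (nat_lit 3) n8288 (.arc (nat_lit 6) n8289 (.fin (nat_lit 138317979) (nat_lit 0)))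
def n8291 : Nd := .arc (nat_lit 6) n8287 (.fin (nat_lit 138326171) (nat_lit 0))
def n8292 : Nd := .arc (nat_lit 9) n8282 (.fin (nat_lit 275673239) (nat_lit 0))
def n8293 : Nd := .arc (nat_lit 3) n8291 (.arc (nat_lit 9) n8292 (.fin (nat_lit 73289885) (nat_lit 0)))
def n8294 : Nd := .arc (nat_lit 3) n8286 (.arc (nat_lit 6) n8290 (.arc (nat_lit 9) n8293 (.fin (nat_lit 544608409) (nat_lit 0))))
def n8295 : Nd := .arc (nat_lit 6) n8285 (.arc (nat_lit 9) n8283 (.fin (nat_lit 544616601) (nat_lit 0)))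
def n8296 : Nd := .arc (nat_lit 26) n8175 (.arc (nat_lit 29) n8166 (.arc (nat_lit 32) n8181 (.arc (nat_lit 35) n8185 (.fin (nat_lit 544665753) (nat_lit 0)))))
def n8297 : Nd := .arc (nat_lit 9) n8296 (.arc (nat_lit 64) n8167 (.arc (nat_lit 67) n8174 (.arc (nat_lit 70) n8171 (.fin (nat_lit 138309787) (nat_lit 0)))))
def n8298 : Nd := .arc (nat_lit 6) n8282 (.fin (nat_lit 544649369) (nat_lit 0))
def n8299 : Nd := .arc (nat_lit 3) n8297 (.arc (nat_lit 6) n8298 (.fin (nat_lit 73306269) (nat_lit 0)))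
def n8300 : Nd := .arc (nat_lit 6) n8296 (.arc (nat_lit 52) n8167 (.arc (nat_lit 55) n8171 (.arc (nat_lit 58) n8174 (.fin (nat_lit 73314461) (nat_lit 0)))))
def n8301 : Nd := .arc (nat_lit 9) n8284 (.fin (nat_lit 544632985) (nat_lit 0))
def n8302 : Nd := .arc (nat_lit 3) n8300 (.arc (nat_lit 9) n8301 (.fin (nat_lit 138301595) (nat_lit 0)))
def n8303 : Nd := .arc (nat_lit 3) n8295 (.arc (nat_lit 6) n8299 (.arc (nat_lit 9) n8302 (.fin (nat_lit 275648663) (nat_lit 0))))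
def n8304 : Nd := .arc (nat_lit 3) n8296 (.arc (nat_lit 40) n8167 (.arc (nat_lit 43) n8171 (.arc (nat_lit 46) n8174 (.fin (nat_lit 275697815) (nat_lit 0)))))
def n8305 : Nd := .arc (nat_lit 3) n8287 (.fin (nat_lit 544657561) (nat_lit 0))
def n8306 : Nd := .arc (nat_lit 6) n8304 (.arc (nat_lit 9) n8305 (.fin (nat_lit 138293403) (nat_lit 0)))
def n8307 : Nd := .arc (nat_lit 3) n8292 (.arc (nat_lit 6) n8291 (.fin (nat_lit 544641177) (nat_lit 0)))
def n8308 : Nd := .arc (nat_lit 3) n8298 (.arc (nat_lit 9) n8297 (.fin (nat_lit 275665047) (nat_lit 0)))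
def n8309 : Nd := .arc (nat_lit 3) n8306 (.arc (nat_lit 6) n8307 (.arc (nat_lit 9) n8308 (.fin (nat_lit 73273501) (nat_lit 0))))
def n8310 : Nd := .arc (nat_lit 6) n8305 (.arc (nat_lit 9) n8304 (.fin (nat_lit 73281693) (nat_lit 0)))
def n8311 : Nd := .arc (nat_lit 3) n8301 (.arc (nat_lit 6) n8300 (.fin (nat_lit 275681431) (nat_lit 0)))
def n8312 : Nd := .arc (nat_lit 3) n8289 (.arc (nat_lit 9) n8288 (.fin (nat_lit 544624793) (nat_lit 0)))
def n8313 : Nd := .arc (nat_lit 3) n8310 (.arc (nat_lit 6) n8311 (.arc (nat_lit 9) n8312 (.fin (nat_lit 138285211) (nat_lit 0))))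
def n8314 : Nd := .arc (nat_lit 50) n7257 (.arc (nat_lit 53) n7253 (.arc (nat_lit 56) n7238 (.arc (nat_lit 59) n7247 (.fin (nat_lit 140439701) (nat_lit 0)))))
def n8315 : Nd := .arc (nat_lit 3) n8314 (.fin (nat_lit 71225493) (nat_lit 0))
def n8316 : Nd := .arc (nat_lit 62) n7257 (.arc (nat_lit 65) n7253 (.arc (nat_lit 68) n7247 (.arc (nat_lit 71) n7238 (.fin (nat_lit 71233685) (nat_lit 0)))))
def n8317 : Nd := .arc (nat_lit 3) n8316 (.fin (nat_lit 140431509) (nat_lit 0))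
def n8318 : Nd := .arc (nat_lit 6) n8315 (.arc (nat_lit 9) n8317 (.fin (nat_lit 276181141) (nat_lit 0)))
def n8319 : Nd := .arc (nat_lit 26) n7257 (.arc (nat_lit 29) n7253 (.arc (nat_lit 32) n7247 (.arc (nat_lit 35) n7238 (.fin (nat_lit 276230293) (nat_lit 0)))))
def n8320 : Nd := .arc (nat_lit 9) n8319 (.arc (nat_lit 64) n7254 (.arc (nat_lit 67) n7256 (.arc (nat_lit 70) n7255 (.fin (nat_lit 71200917) (nat_lit 0)))))
def n8321 : Nd := .arc (nat_lit 6) n8316 (.fin (nat_lit 276213909) (nat_lit 0))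
def n8322 : Nd := .arc (nat_lit 3) n8320 (.arc (nat_lit 6) n8321 (.fin (nat_lit 140415125) (nat_lit 0)))
def n8323 : Nd := .arc (nat_lit 6) n8319 (.arc (nat_lit 52) n7254 (.arc (nat_lit 55) n7255 (.arc (nat_lit 58) n7256 (.fin (nat_lit 140423317) (nat_lit 0)))))
def n8324 : Nd := .arc (nat_lit 9) n8314 (.fin (nat_lit 276197525) (nat_lit 0))
def n8325 : Nd := .arc (nat_lit 3) n8323 (.arc (nat_lit 9) n8324 (.fin (nat_lit 71192725) (nat_lit 0)))
def n8326 : Nd := .arc (nat_lit 3) n8318 (.arc (nat_lit 6) n8322 (.arc (nat_lit 9) n8325 (.fin (nat_lit 544084117) (nat_lit 0))))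
def n8327 : Nd := .arc (nat_lit 6) n8317 (.arc (nat_lit 9) n8315 (.fin (nat_lit 544092309) (nat_lit 0)))
def n8328 : Nd := .arc (nat_lit 38) n7257 (.arc (nat_lit 41) n7253 (.arc (nat_lit 44) n7238 (.arc (nat_lit 47) n7247 (.fin (nat_lit 544141461) (nat_lit 0)))))
def n8329 : Nd := .arc (nat_lit 9) n8328 (.fin (nat_lit 140406933) (nat_lit 0))
def n8330 : Nd := .arc (nat_lit 6) n8314 (.fin (nat_lit 544125077) (nat_lit 0))
def n8331 : Nd := .arc (nat_lit 3) n8329 (.arc (nat_lit 6) n8330 (.fin (nat_lit 71209109) (nat_lit 0)))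
def n8332 : Nd := .arc (nat_lit 6) n8328 (.fin (nat_lit 71217301) (nat_lit 0))
def n8333 : Nd := .arc (nat_lit 9) n8316 (.fin (nat_lit 544108693) (nat_lit 0))
def n8334 : Nd := .arc (nat_lit 3) n8332 (.arc (nat_lit 9) n8333 (.fin (nat_lit 140398741) (nat_lit 0)))
def n8335 : Nd := .arc (nat_lit 3) n8327 (.arc (nat_lit 6) n8331 (.arc (nat_lit 9) n8334 (.fin (nat_lit 276172949) (nat_lit 0))))
def n8336 : Nd := .arc (nat_lit 3) n8328 (.fin (nat_lit 276222101) (nat_lit 0))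
def n8337 : Nd := .arc (nat_lit 3) n8319 (.arc (nat_lit 40) n7254 (.arc (nat_lit 43) n7255 (.arc (nat_lit 46) n7256 (.fin (nat_lit 544133269) (nat_lit 0)))))
def n8338 : Nd := .arc (nat_lit 6) n8336 (.arc (nat_lit 9) n8337 (.fin (nat_lit 140390549) (nat_lit 0)))
def n8339 : Nd := .arc (nat_lit 3) n8324 (.arc (nat_lit 6) n8323 (.fin (nat_lit 544116885) (nat_lit 0)))
def n8340 : Nd := .arc (nat_lit 3) n8330 (.arc (nat_lit 9) n8329 (.fin (nat_lit 276189333) (nat_lit 0)))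
def n8341 : Nd := .arc (nat_lit 3) n8338 (.arc (nat_lit 6) n8339 (.arc (nat_lit 9) n8340 (.fin (nat_lit 71176341) (nat_lit 0))))
def n8342 : Nd := .arc (nat_lit 6) n8337 (.arc (nat_lit 9) n8336 (.fin (nat_lit 71184533) (nat_lit 0)))
def n8343 : Nd := .arc (nat_lit 3) n8333 (.arc (nat_lit 6) n8332 (.fin (nat_lit 276205717) (nat_lit 0)))
def n8344 : Nd := .arc (nat_lit 3) n8321 (.arc (nat_lit 9) n8320 (.fin (nat_lit 544100501) (nat_lit 0)))
def n8345 : Nd := .arc (nat_lit 3) n8342 (.arc (nat_lit 6) n8343 (.arc (nat_lit 9) n8344 (.fin (nat_lit 140382357) (nat_lit 0))))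
def n8346 : Nd := .arc (nat_lit 14) n8294 (.arc (nat_lit 17) n8303 (.arc (nat_lit 20) n8309 (.arc (nat_lit 23) n8313 (.arc (nat_lit 26) n8326 (.arc (nat_lit 29) n8335 (.arc (nat_lit 32) n8341 (.arc (nat_lit 35) n8345 (.fin (nat_lit 275968153) (nat_lit 0)))))))))
def n8347 : Nd := .arc (nat_lit 3) n8346 (.arc (nat_lit 40) n8318 (.arc (nat_lit 43) n8322 (.arc (nat_lit 46) n8325 (.fin (nat_lit 543871127) (nat_lit 0)))))
def n8348 : Nd := .arc (nat_lit 14) n8303 (.arc (nat_lit 17) n8294 (.arc (nat_lit 20) n8313 (.arc (nat_lit 23) n8309 (.arc (nat_lit 38) n8326 (.arc (nat_lit 41) n8335 (.arc (nat_lit 44) n8345 (.arc (nat_lit 47) n8341 (.fin (nat_lit 543879319) (nat_lit 0)))))))))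
def n8349 : Nd := .arc (nat_lit 3) n8348 (.fin (nat_lit 275959961) (nat_lit 0))
def n8350 : Nd := .arc (nat_lit 6) n8347 (.arc (nat_lit 9) n8349 (.fin (nat_lit 70922395) (nat_lit 0)))
def n8351 : Nd := .arc (nat_lit 14) n8309 (.arc (nat_lit 17) n8313 (.arc (nat_lit 20) n8303 (.arc (nat_lit 23) n8294 (.arc (nat_lit 62) n8326 (.arc (nat_lit 65) n8335 (.arc (nat_lit 68) n8341 (.arc (nat_lit 71) n8345 (.fin (nat_lit 70971547) (nat_lit 0)))))))))
def n8352 : Nd := .arc (nat_lit 9) n8351 (.fin (nat_lit 543846551) (nat_lit 0))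
def n8353 : Nd := .arc (nat_lit 6) n8348 (.fin (nat_lit 70955163) (nat_lit 0))
def n8354 : Nd := .arc (nat_lit 3) n8352 (.arc (nat_lit 6) n8353 (.fin (nat_lit 275943577) (nat_lit 0)))
def n8355 : Nd := .arc (nat_lit 6) n8351 (.fin (nat_lit 275951769) (nat_lit 0))
def n8356 : Nd := .arc (nat_lit 9) n8346 (.arc (nat_lit 64) n8318 (.arc (nat_lit 67) n8325 (.arc (nat_lit 70) n8322 (.fin (nat_lit 70938779) (nat_lit 0)))))
def n8357 : Nd := .arc (nat_lit 3) n8355 (.arc (nat_lit 9) n8356 (.fin (nat_lit 543838359) (nat_lit 0)))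
def n8358 : Nd := .arc (nat_lit 3) n8350 (.arc (nat_lit 6) n8354 (.arc (nat_lit 9) n8357 (.fin (nat_lit 140120221) (nat_lit 0))))
def n8359 : Nd := .arc (nat_lit 6) n8349 (.arc (nat_lit 9) n8347 (.fin (nat_lit 140128413) (nat_lit 0)))
def n8360 : Nd := .arc (nat_lit 14) n8313 (.arc (nat_lit 17) n8309 (.arc (nat_lit 20) n8294 (.arc (nat_lit 23) n8303 (.arc (nat_lit 50) n8326 (.arc (nat_lit 53) n8335 (.arc (nat_lit 56) n8345 (.arc (nat_lit 59) n8341 (.fin (nat_lit 140177565) (nat_lit 0)))))))))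
def n8361 : Nd := .arc (nat_lit 9) n8360 (.fin (nat_lit 275935385) (nat_lit 0))
def n8362 : Nd := .arc (nat_lit 6) n8346 (.arc (nat_lit 52) n8318 (.arc (nat_lit 55) n8322 (.arc (nat_lit 58) n8325 (.fin (nat_lit 140161181) (nat_lit 0)))))
def n8363 : Nd := .arc (nat_lit 3) n8361 (.arc (nat_lit 6) n8362 (.fin (nat_lit 543854743) (nat_lit 0)))
def n8364 : Nd := .arc (nat_lit 6) n8360 (.fin (nat_lit 543862935) (nat_lit 0))
def n8365 : Nd := .arc (nat_lit 9) n8348 (.fin (nat_lit 140144797) (nat_lit 0))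
def n8366 : Nd := .arc (nat_lit 3) n8364 (.arc (nat_lit 9) n8365 (.fin (nat_lit 275927193) (nat_lit 0)))
def n8367 : Nd := .arc (nat_lit 3) n8359 (.arc (nat_lit 6) n8363 (.arc (nat_lit 9) n8366 (.fin (nat_lit 70914203) (nat_lit 0))))
def n8368 : Nd := .arc (nat_lit 3) n8360 (.fin (nat_lit 70963355) (nat_lit 0))
def n8369 : Nd := .arc (nat_lit 3) n8351 (.fin (nat_lit 140169373) (nat_lit 0))
def n8370 : Nd := .arc (nat_lit 6) n8368 (.arc (nat_lit 9) n8369 (.fin (nat_lit 275919001) (nat_lit 0)))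
def n8371 : Nd := .arc (nat_lit 3) n8356 (.arc (nat_lit 6) n8355 (.fin (nat_lit 140152989) (nat_lit 0)))
def n8372 : Nd := .arc (nat_lit 3) n8362 (.arc (nat_lit 9) n8361 (.fin (nat_lit 70930587) (nat_lit 0)))
def n8373 : Nd := .arc (nat_lit 3) n8370 (.arc (nat_lit 6) n8371 (.arc (nat_lit 9) n8372 (.fin (nat_lit 543821975) (nat_lit 0))))
def n8374 : Nd := .arc (nat_lit 6) n8369 (.arc (nat_lit 9) n8368 (.fin (nat_lit 543830167) (nat_lit 0)))
def n8375 : Nd := .arc (nat_lit 3) n8365 (.arc (nat_lit 6) n8364 (.fin (nat_lit 70946971) (nat_lit 0)))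
def n8376 : Nd := .arc (nat_lit 3) n8353 (.arc (nat_lit 9) n8352 (.fin (nat_lit 140136605) (nat_lit 0)))
def n8377 : Nd := .arc (nat_lit 3) n8374 (.arc (nat_lit 6) n8375 (.arc (nat_lit 9) n8376 (.fin (nat_lit 275910809) (nat_lit 0))))
def n8378 : Nd := .arc (nat_lit 38) n8134 (.arc (nat_lit 41) n8143 (.arc (nat_lit 44) n8149 (.arc (nat_lit 47) n8153 (.arc (nat_lit 50) n8262 (.arc (nat_lit 53) n8271 (.arc (nat_lit 56) n8277 (.arc (nat_lit 59) n8281 (.arc (nat_lit 62) n8358 (.arc (nat_lit 65) n8367 (.arc (nat_lit 68) n8373 (.arc (nat_lit 71) n8377 (.fin (nat_lit 34533527) (nat_lit 0)))))))))))))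
def n8379 : Nd := .arc (nat_lit 3) n8378 (.fin (nat_lit 35049625) (nat_lit 0))
def n8380 : Nd := .arc (nat_lit 26) n8134 (.arc (nat_lit 29) n8143 (.arc (nat_lit 32) n8153 (.arc (nat_lit 35) n8149 (.arc (nat_lit 50) n8358 (.arc (nat_lit 53) n8367 (.arc (nat_lit 56) n8377 (.arc (nat_lit 59) n8373 (.arc (nat_lit 62) n8262 (.arc (nat_lit 65) n8271 (.arc (nat_lit 68) n8281 (.arc (nat_lit 71) n8277 (.fin (nat_lit 35057817) (nat_lit 0)))))))))))))
def n8381 : Nd := .arc (nat_lit 3) n8380 (.arc (nat_lit 40) n8126 (.arc (nat_lit 43) n8130 (.arc (nat_lit 46) n8133 (.fin (nat_lit 34525335) (nat_lit 0)))))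
def n8382 : Nd := .arc (nat_lit 6) n8379 (.arc (nat_lit 9) n8381 (.fin (nat_lit 38154397) (nat_lit 0)))
def n8383 : Nd := .arc (nat_lit 26) n8262 (.arc (nat_lit 29) n8271 (.arc (nat_lit 32) n8281 (.arc (nat_lit 35) n8277 (.arc (nat_lit 38) n8358 (.arc (nat_lit 41) n8367 (.arc (nat_lit 44) n8377 (.arc (nat_lit 47) n8373 (.arc (nat_lit 50) n8134 (.arc (nat_lit 53) n8143 (.arc (nat_lit 56) n8149 (.arc (nat_lit 59) n8153 (.fin (nat_lit 38203549) (nat_lit 0)))))))))))))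
def n8384 : Nd := .arc (nat_lit 9) n8383 (.arc (nat_lit 64) n8254 (.arc (nat_lit 67) n8261 (.arc (nat_lit 70) n8258 (.fin (nat_lit 35025049) (nat_lit 0)))))
def n8385 : Nd := .arc (nat_lit 6) n8380 (.arc (nat_lit 52) n8126 (.arc (nat_lit 55) n8130 (.arc (nat_lit 58) n8133 (.fin (nat_lit 38187165) (nat_lit 0)))))
def n8386 : Nd := .arc (nat_lit 3) n8384 (.arc (nat_lit 6) n8385 (.fin (nat_lit 34508951) (nat_lit 0)))
def n8387 : Nd := .arc (nat_lit 6) n8383 (.arc (nat_lit 52) n8254 (.arc (nat_lit 55) n8258 (.arc (nat_lit 58) n8261 (.fin (nat_lit 34517143) (nat_lit 0)))))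
def n8388 : Nd := .arc (nat_lit 9) n8378 (.fin (nat_lit 38170781) (nat_lit 0))
def n8389 : Nd := .arc (nat_lit 3) n8387 (.arc (nat_lit 9) n8388 (.fin (nat_lit 35016857) (nat_lit 0)))
def n8390 : Nd := .arc (nat_lit 3) n8382 (.arc (nat_lit 6) n8386 (.arc (nat_lit 9) n8389 (.fin (nat_lit 36049051) (nat_lit 0))))
def n8391 : Nd := .arc (nat_lit 6) n8381 (.arc (nat_lit 9) n8379 (.fin (nat_lit 36057243) (nat_lit 0)))
def n8392 : Nd := .arc (nat_lit 26) n8358 (.arc (nat_lit 29) n8367 (.arc (nat_lit 32) n8373 (.arc (nat_lit 35) n8377 (.arc (nat_lit 38) n8262 (.arc (nat_lit 41) n8271 (.arc (nat_lit 44) n8277 (.arc (nat_lit 47) n8281 (.arc (nat_lit 62) n8134 (.arc (nat_lit 65) n8143 (.arc (nat_lit 68) n8153 (.arc (nat_lit 71) n8149 (.fin (nat_lit 36106395) (nat_lit 0)))))))))))))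
def n8393 : Nd := .arc (nat_lit 9) n8392 (.arc (nat_lit 64) n8350 (.arc (nat_lit 67) n8357 (.arc (nat_lit 70) n8354 (.fin (nat_lit 34500759) (nat_lit 0)))))
def n8394 : Nd := .arc (nat_lit 6) n8378 (.fin (nat_lit 36090011) (nat_lit 0))
def n8395 : Nd := .arc (nat_lit 3) n8393 (.arc (nat_lit 6) n8394 (.fin (nat_lit 35033241) (nat_lit 0)))
def n8396 : Nd := .arc (nat_lit 6) n8392 (.arc (nat_lit 52) n8350 (.arc (nat_lit 55) n8354 (.arc (nat_lit 58) n8357 (.fin (nat_lit 35041433) (nat_lit 0)))))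
def n8397 : Nd := .arc (nat_lit 9) n8380 (.arc (nat_lit 64) n8126 (.arc (nat_lit 67) n8133 (.arc (nat_lit 70) n8130 (.fin (nat_lit 36073627) (nat_lit 0)))))
def n8398 : Nd := .arc (nat_lit 3) n8396 (.arc (nat_lit 9) n8397 (.fin (nat_lit 34492567) (nat_lit 0)))
def n8399 : Nd := .arc (nat_lit 3) n8391 (.arc (nat_lit 6) n8395 (.arc (nat_lit 9) n8398 (.fin (nat_lit 38146205) (nat_lit 0))))
def n8400 : Nd := .arc (nat_lit 3) n8392 (.arc (nat_lit 40) n8350 (.arc (nat_lit 43) n8354 (.arc (nat_lit 46) n8357 (.fin (nat_lit 38195357) (nat_lit 0)))))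
def n8401 : Nd := .arc (nat_lit 3) n8383 (.arc (nat_lit 40) n8254 (.arc (nat_lit 43) n8258 (.arc (nat_lit 46) n8261 (.fin (nat_lit 36098203) (nat_lit 0)))))
def n8402 : Nd := .arc (nat_lit 6) n8400 (.arc (nat_lit 9) n8401 (.fin (nat_lit 34484375) (nat_lit 0)))
def n8403 : Nd := .arc (nat_lit 3) n8388 (.arc (nat_lit 6) n8387 (.fin (nat_lit 36081819) (nat_lit 0)))
def n8404 : Nd := .arc (nat_lit 3) n8394 (.arc (nat_lit 9) n8393 (.fin (nat_lit 38162589) (nat_lit 0)))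
def n8405 : Nd := .arc (nat_lit 3) n8402 (.arc (nat_lit 6) n8403 (.arc (nat_lit 9) n8404 (.fin (nat_lit 35000473) (nat_lit 0))))
def n8406 : Nd := .arc (nat_lit 6) n8401 (.arc (nat_lit 9) n8400 (.fin (nat_lit 35008665) (nat_lit 0)))
def n8407 : Nd := .arc (nat_lit 3) n8397 (.arc (nat_lit 6) n8396 (.fin (nat_lit 38178973) (nat_lit 0)))
def n8408 : Nd := .arc (nat_lit 3) n8385 (.arc (nat_lit 9) n8384 (.fin (nat_lit 36065435) (nat_lit 0)))
def n8409 : Nd := .arc (nat_lit 3) n8406 (.arc (nat_lit 6) n8407 (.arc (nat_lit 9) n8408 (.fin (nat_lit 34476183) (nat_lit 0))))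
def n8410 : Nd := .arc (nat_lit 26) n8181 (.arc (nat_lit 29) n8185 (.arc (nat_lit 32) n8166 (.arc (nat_lit 35) n8175 (.fin (nat_lit 41349273) (nat_lit 0)))))
def n8411 : Nd := .arc (nat_lit 3) n8410 (.arc (nat_lit 40) n8178 (.arc (nat_lit 43) n8179 (.arc (nat_lit 46) n8180 (.fin (nat_lit 40816791) (nat_lit 0)))))
def n8412 : Nd := .arc (nat_lit 38) n8181 (.arc (nat_lit 41) n8185 (.arc (nat_lit 44) n8175 (.arc (nat_lit 47) n8166 (.fin (nat_lit 40824983) (nat_lit 0)))))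
def n8413 : Nd := .arc (nat_lit 3) n8412 (.fin (nat_lit 41341081) (nat_lit 0))
def n8414 : Nd := .arc (nat_lit 6) n8411 (.arc (nat_lit 9) n8413 (.fin (nat_lit 37630107) (nat_lit 0)))
def n8415 : Nd := .arc (nat_lit 62) n8181 (.arc (nat_lit 65) n8185 (.arc (nat_lit 68) n8166 (.arc (nat_lit 71) n8175 (.fin (nat_lit 37679259) (nat_lit 0)))))
def n8416 : Nd := .arc (nat_lit 9) n8415 (.fin (nat_lit 40792215) (nat_lit 0))
def n8417 : Nd := .arc (nat_lit 6) n8412 (.fin (nat_lit 37662875) (nat_lit 0))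
def n8418 : Nd := .arc (nat_lit 3) n8416 (.arc (nat_lit 6) n8417 (.fin (nat_lit 41324697) (nat_lit 0)))
def n8419 : Nd := .arc (nat_lit 6) n8415 (.fin (nat_lit 41332889) (nat_lit 0))
def n8420 : Nd := .arc (nat_lit 9) n8410 (.arc (nat_lit 64) n8178 (.arc (nat_lit 67) n8180 (.arc (nat_lit 70) n8179 (.fin (nat_lit 37646491) (nat_lit 0)))))
def n8421 : Nd := .arc (nat_lit 3) n8419 (.arc (nat_lit 9) n8420 (.fin (nat_lit 40784023) (nat_lit 0)))
def n8422 : Nd := .arc (nat_lit 3) n8414 (.arc (nat_lit 6) n8418 (.arc (nat_lit 9) n8421 (.fin (nat_lit 39719069) (nat_lit 0))))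
def n8423 : Nd := .arc (nat_lit 6) n8413 (.arc (nat_lit 9) n8411 (.fin (nat_lit 39727261) (nat_lit 0)))
def n8424 : Nd := .arc (nat_lit 50) n8181 (.arc (nat_lit 53) n8185 (.arc (nat_lit 56) n8175 (.arc (nat_lit 59) n8166 (.fin (nat_lit 39776413) (nat_lit 0)))))
def n8425 : Nd := .arc (nat_lit 9) n8424 (.fin (nat_lit 41316505) (nat_lit 0))
def n8426 : Nd := .arc (nat_lit 6) n8410 (.arc (nat_lit 52) n8178 (.arc (nat_lit 55) n8179 (.arc (nat_lit 58) n8180 (.fin (nat_lit 39760029) (nat_lit 0)))))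
def n8427 : Nd := .arc (nat_lit 3) n8425 (.arc (nat_lit 6) n8426 (.fin (nat_lit 40800407) (nat_lit 0)))
def n8428 : Nd := .arc (nat_lit 6) n8424 (.fin (nat_lit 40808599) (nat_lit 0))
def n8429 : Nd := .arc (nat_lit 9) n8412 (.fin (nat_lit 39743645) (nat_lit 0))
def n8430 : Nd := .arc (nat_lit 3) n8428 (.arc (nat_lit 9) n8429 (.fin (nat_lit 41308313) (nat_lit 0)))
def n8431 : Nd := .arc (nat_lit 3) n8423 (.arc (nat_lit 6) n8427 (.arc (nat_lit 9) n8430 (.fin (nat_lit 37621915) (nat_lit 0))))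
def n8432 : Nd := .arc (nat_lit 3) n8415 (.fin (nat_lit 39768221) (nat_lit 0))
def n8433 : Nd := .arc (nat_lit 3) n8424 (.fin (nat_lit 37671067) (nat_lit 0))
def n8434 : Nd := .arc (nat_lit 6) n8432 (.arc (nat_lit 9) n8433 (.fin (nat_lit 40775831) (nat_lit 0)))
def n8435 : Nd := .arc (nat_lit 3) n8429 (.arc (nat_lit 6) n8428 (.fin (nat_lit 37654683) (nat_lit 0)))
def n8436 : Nd := .arc (nat_lit 3) n8417 (.arc (nat_lit 9) n8416 (.fin (nat_lit 39735453) (nat_lit 0)))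
def n8437 : Nd := .arc (nat_lit 3) n8434 (.arc (nat_lit 6) n8435 (.arc (nat_lit 9) n8436 (.fin (nat_lit 41291929) (nat_lit 0))))
def n8438 : Nd := .arc (nat_lit 6) n8433 (.arc (nat_lit 9) n8432 (.fin (nat_lit 41300121) (nat_lit 0)))
def n8439 : Nd := .arc (nat_lit 3) n8420 (.arc (nat_lit 6) n8419 (.fin (nat_lit 39751837) (nat_lit 0)))
def n8440 : Nd := .arc (nat_lit 3) n8426 (.arc (nat_lit 9) n8425 (.fin (nat_lit 37638299) (nat_lit 0)))
def n8441 : Nd := .arc (nat_lit 3) n8438 (.arc (nat_lit 6) n8439 (.arc (nat_lit 9) n8440 (.fin (nat_lit 40767639) (nat_lit 0))))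
def n8442 : Nd := .arc (nat_lit 38) n7151 (.arc (nat_lit 41) n7142 (.arc (nat_lit 44) n7157 (.arc (nat_lit 47) n7161 (.fin (nat_lit 74379413) (nat_lit 0)))))
def n8443 : Nd := .arc (nat_lit 3) n8442 (.fin (nat_lit 142004373) (nat_lit 0))
def n8444 : Nd := .arc (nat_lit 26) n7151 (.arc (nat_lit 29) n7142 (.arc (nat_lit 32) n7161 (.arc (nat_lit 35) n7157 (.fin (nat_lit 142012565) (nat_lit 0)))))
def n8445 : Nd := .arc (nat_lit 3) n8444 (.arc (nat_lit 40) n7143 (.arc (nat_lit 43) n7147 (.arc (nat_lit 46) n7150 (.fin (nat_lit 74371221) (nat_lit 0)))))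
def n8446 : Nd := .arc (nat_lit 6) n8443 (.arc (nat_lit 9) n8445 (.fin (nat_lit 543043733) (nat_lit 0)))
def n8447 : Nd := .arc (nat_lit 50) n7151 (.arc (nat_lit 53) n7142 (.arc (nat_lit 56) n7157 (.arc (nat_lit 59) n7161 (.fin (nat_lit 543092885) (nat_lit 0)))))
def n8448 : Nd := .arc (nat_lit 9) n8447 (.fin (nat_lit 141979797) (nat_lit 0))
def n8449 : Nd := .arc (nat_lit 6) n8444 (.arc (nat_lit 52) n7143 (.arc (nat_lit 55) n7147 (.arc (nat_lit 58) n7150 (.fin (nat_lit 543076501) (nat_lit 0)))))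
def n8450 : Nd := .arc (nat_lit 3) n8448 (.arc (nat_lit 6) n8449 (.fin (nat_lit 74354837) (nat_lit 0)))
def n8451 : Nd := .arc (nat_lit 6) n8447 (.fin (nat_lit 74363029) (nat_lit 0))
def n8452 : Nd := .arc (nat_lit 9) n8442 (.fin (nat_lit 543060117) (nat_lit 0))
def n8453 : Nd := .arc (nat_lit 3) n8451 (.arc (nat_lit 9) n8452 (.fin (nat_lit 141971605) (nat_lit 0)))
def n8454 : Nd := .arc (nat_lit 3) n8446 (.arc (nat_lit 6) n8450 (.arc (nat_lit 9) n8453 (.fin (nat_lit 272502933) (nat_lit 0))))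
def n8455 : Nd := .arc (nat_lit 6) n8445 (.arc (nat_lit 9) n8443 (.fin (nat_lit 272511125) (nat_lit 0)))
def n8456 : Nd := .arc (nat_lit 62) n7151 (.arc (nat_lit 65) n7142 (.arc (nat_lit 68) n7161 (.arc (nat_lit 71) n7157 (.fin (nat_lit 272560277) (nat_lit 0)))))
def n8457 : Nd := .arc (nat_lit 9) n8456 (.fin (nat_lit 74346645) (nat_lit 0))
def n8458 : Nd := .arc (nat_lit 6) n8442 (.fin (nat_lit 272543893) (nat_lit 0))
def n8459 : Nd := .arc (nat_lit 3) n8457 (.arc (nat_lit 6) n8458 (.fin (nat_lit 141987989) (nat_lit 0)))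
def n8460 : Nd := .arc (nat_lit 6) n8456 (.fin (nat_lit 141996181) (nat_lit 0))
def n8461 : Nd := .arc (nat_lit 9) n8444 (.arc (nat_lit 64) n7143 (.arc (nat_lit 67) n7150 (.arc (nat_lit 70) n7147 (.fin (nat_lit 272527509) (nat_lit 0)))))
def n8462 : Nd := .arc (nat_lit 3) n8460 (.arc (nat_lit 9) n8461 (.fin (nat_lit 74338453) (nat_lit 0)))
def n8463 : Nd := .arc (nat_lit 3) n8455 (.arc (nat_lit 6) n8459 (.arc (nat_lit 9) n8462 (.fin (nat_lit 543035541) (nat_lit 0))))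
def n8464 : Nd := .arc (nat_lit 3) n8447 (.fin (nat_lit 272552085) (nat_lit 0))
def n8465 : Nd := .arc (nat_lit 3) n8456 (.fin (nat_lit 543084693) (nat_lit 0))
def n8466 : Nd := .arc (nat_lit 6) n8464 (.arc (nat_lit 9) n8465 (.fin (nat_lit 141963413) (nat_lit 0)))
def n8467 : Nd := .arc (nat_lit 3) n8461 (.arc (nat_lit 6) n8460 (.fin (nat_lit 543068309) (nat_lit 0)))
def n8468 : Nd := .arc (nat_lit 3) n8449 (.arc (nat_lit 9) n8448 (.fin (nat_lit 272519317) (nat_lit 0)))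
def n8469 : Nd := .arc (nat_lit 3) n8466 (.arc (nat_lit 6) n8467 (.arc (nat_lit 9) n8468 (.fin (nat_lit 74322069) (nat_lit 0))))
def n8470 : Nd := .arc (nat_lit 6) n8465 (.arc (nat_lit 9) n8464 (.fin (nat_lit 74330261) (nat_lit 0)))
def n8471 : Nd := .arc (nat_lit 3) n8452 (.arc (nat_lit 6) n8451 (.fin (nat_lit 272535701) (nat_lit 0)))
def n8472 : Nd := .arc (nat_lit 3) n8458 (.arc (nat_lit 9) n8457 (.fin (nat_lit 543051925) (nat_lit 0)))
def n8473 : Nd := .arc (nat_lit 3) n8470 (.arc (nat_lit 6) n8471 (.arc (nat_lit 9) n8472 (.fin (nat_lit 141955221) (nat_lit 0))))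
def n8474 : Nd := .arc (nat_lit 38) n8422 (.arc (nat_lit 41) n8431 (.arc (nat_lit 44) n8437 (.arc (nat_lit 47) n8441 (.arc (nat_lit 50) n8454 (.arc (nat_lit 53) n8463 (.arc (nat_lit 56) n8469 (.arc (nat_lit 59) n8473 (.fin (nat_lit 72282269) (nat_lit 0)))))))))
def n8475 : Nd := .arc (nat_lit 3) n8474 (.fin (nat_lit 137810075) (nat_lit 0))
def n8476 : Nd := .arc (nat_lit 26) n8422 (.arc (nat_lit 29) n8431 (.arc (nat_lit 32) n8441 (.arc (nat_lit 35) n8437 (.arc (nat_lit 62) n8454 (.arc (nat_lit 65) n8463 (.arc (nat_lit 68) n8473 (.arc (nat_lit 71) n8469 (.fin (nat_lit 137818267) (nat_lit 0)))))))))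
def n8477 : Nd := .arc (nat_lit 3) n8476 (.arc (nat_lit 40) n8414 (.arc (nat_lit 43) n8418 (.arc (nat_lit 46) n8421 (.fin (nat_lit 72274077) (nat_lit 0)))))
def n8478 : Nd := .arc (nat_lit 6) n8475 (.arc (nat_lit 9) n8477 (.fin (nat_lit 542519449) (nat_lit 0)))
def n8479 : Nd := .arc (nat_lit 26) n8454 (.arc (nat_lit 29) n8463 (.arc (nat_lit 32) n8473 (.arc (nat_lit 35) n8469 (.arc (nat_lit 50) n8422 (.arc (nat_lit 53) n8431 (.arc (nat_lit 56) n8437 (.arc (nat_lit 59) n8441 (.fin (nat_lit 542568601) (nat_lit 0)))))))))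
def n8480 : Nd := .arc (nat_lit 9) n8479 (.arc (nat_lit 64) n8446 (.arc (nat_lit 67) n8453 (.arc (nat_lit 70) n8450 (.fin (nat_lit 137785499) (nat_lit 0)))))
def n8481 : Nd := .arc (nat_lit 6) n8476 (.arc (nat_lit 52) n8414 (.arc (nat_lit 55) n8418 (.arc (nat_lit 58) n8421 (.fin (nat_lit 542552217) (nat_lit 0)))))
def n8482 : Nd := .arc (nat_lit 3) n8480 (.arc (nat_lit 6) n8481 (.fin (nat_lit 72257693) (nat_lit 0)))
def n8483 : Nd := .arc (nat_lit 6) n8479 (.arc (nat_lit 52) n8446 (.arc (nat_lit 55) n8450 (.arc (nat_lit 58) n8453 (.fin (nat_lit 72265885) (nat_lit 0)))))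
def n8484 : Nd := .arc (nat_lit 9) n8474 (.fin (nat_lit 542535833) (nat_lit 0))
def n8485 : Nd := .arc (nat_lit 3) n8483 (.arc (nat_lit 9) n8484 (.fin (nat_lit 137777307) (nat_lit 0)))
def n8486 : Nd := .arc (nat_lit 3) n8478 (.arc (nat_lit 6) n8482 (.arc (nat_lit 9) n8485 (.fin (nat_lit 271454359) (nat_lit 0))))
def n8487 : Nd := .arc (nat_lit 6) n8477 (.arc (nat_lit 9) n8475 (.fin (nat_lit 271462551) (nat_lit 0)))
def n8488 : Nd := .arc (nat_lit 38) n8454 (.arc (nat_lit 41) n8463 (.arc (nat_lit 44) n8469 (.arc (nat_lit 47) n8473 (.arc (nat_lit 62) n8422 (.arc (nat_lit 65) n8431 (.arc (nat_lit 68) n8441 (.arc (nat_lit 71) n8437 (.fin (nat_lit 271511703) (nat_lit 0)))))))))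
def n8489 : Nd := .arc (nat_lit 9) n8488 (.fin (nat_lit 72249501) (nat_lit 0))
def n8490 : Nd := .arc (nat_lit 6) n8474 (.fin (nat_lit 271495319) (nat_lit 0))
def n8491 : Nd := .arc (nat_lit 3) n8489 (.arc (nat_lit 6) n8490 (.fin (nat_lit 137793691) (nat_lit 0)))
def n8492 : Nd := .arc (nat_lit 6) n8488 (.fin (nat_lit 137801883) (nat_lit 0))
def n8493 : Nd := .arc (nat_lit 9) n8476 (.arc (nat_lit 64) n8414 (.arc (nat_lit 67) n8421 (.arc (nat_lit 70) n8418 (.fin (nat_lit 271478935) (nat_lit 0)))))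
def n8494 : Nd := .arc (nat_lit 3) n8492 (.arc (nat_lit 9) n8493 (.fin (nat_lit 72241309) (nat_lit 0)))
def n8495 : Nd := .arc (nat_lit 3) n8487 (.arc (nat_lit 6) n8491 (.arc (nat_lit 9) n8494 (.fin (nat_lit 542511257) (nat_lit 0))))
def n8496 : Nd := .arc (nat_lit 3) n8488 (.fin (nat_lit 542560409) (nat_lit 0))
def n8497 : Nd := .arc (nat_lit 3) n8479 (.arc (nat_lit 40) n8446 (.arc (nat_lit 43) n8450 (.arc (nat_lit 46) n8453 (.fin (nat_lit 271503511) (nat_lit 0)))))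
def n8498 : Nd := .arc (nat_lit 6) n8496 (.arc (nat_lit 9) n8497 (.fin (nat_lit 72233117) (nat_lit 0)))
def n8499 : Nd := .arc (nat_lit 3) n8484 (.arc (nat_lit 6) n8483 (.fin (nat_lit 271487127) (nat_lit 0)))
def n8500 : Nd := .arc (nat_lit 3) n8490 (.arc (nat_lit 9) n8489 (.fin (nat_lit 542527641) (nat_lit 0)))
def n8501 : Nd := .arc (nat_lit 3) n8498 (.arc (nat_lit 6) n8499 (.arc (nat_lit 9) n8500 (.fin (nat_lit 137760923) (nat_lit 0))))
def n8502 : Nd := .arc (nat_lit 6) n8497 (.arc (nat_lit 9) n8496 (.fin (nat_lit 137769115) (nat_lit 0)))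
def n8503 : Nd := .arc (nat_lit 3) n8493 (.arc (nat_lit 6) n8492 (.fin (nat_lit 542544025) (nat_lit 0)))
def n8504 : Nd := .arc (nat_lit 3) n8481 (.arc (nat_lit 9) n8480 (.fin (nat_lit 271470743) (nat_lit 0)))
def n8505 : Nd := .arc (nat_lit 3) n8502 (.arc (nat_lit 6) n8503 (.arc (nat_lit 9) n8504 (.fin (nat_lit 72224925) (nat_lit 0))))
def n8506 : Nd := .arc (nat_lit 26) n7270 (.arc (nat_lit 29) n7279 (.arc (nat_lit 32) n7285 (.arc (nat_lit 35) n7289 (.arc (nat_lit 50) n7317 (.arc (nat_lit 53) n7321 (.arc (nat_lit 56) n7311 (.arc (nat_lit 59) n7302 (.fin (nat_lit 139915413) (nat_lit 0)))))))))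
def n8507 : Nd := .arc (nat_lit 3) n8506 (.arc (nat_lit 40) n7262 (.arc (nat_lit 43) n7266 (.arc (nat_lit 46) n7269 (.fin (nat_lit 70176917) (nat_lit 0)))))
def n8508 : Nd := .arc (nat_lit 38) n7270 (.arc (nat_lit 41) n7279 (.arc (nat_lit 44) n7289 (.arc (nat_lit 47) n7285 (.arc (nat_lit 62) n7317 (.arc (nat_lit 65) n7321 (.arc (nat_lit 68) n7302 (.arc (nat_lit 71) n7311 (.fin (nat_lit 70185109) (nat_lit 0)))))))))
def n8509 : Nd := .arc (nat_lit 3) n8508 (.fin (nat_lit 139907221) (nat_lit 0))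
def n8510 : Nd := .arc (nat_lit 6) n8507 (.arc (nat_lit 9) n8509 (.fin (nat_lit 271986837) (nat_lit 0)))
def n8511 : Nd := .arc (nat_lit 26) n7317 (.arc (nat_lit 29) n7321 (.arc (nat_lit 32) n7302 (.arc (nat_lit 35) n7311 (.arc (nat_lit 62) n7270 (.arc (nat_lit 65) n7279 (.arc (nat_lit 68) n7285 (.arc (nat_lit 71) n7289 (.fin (nat_lit 272035989) (nat_lit 0)))))))))
def n8512 : Nd := .arc (nat_lit 9) n8511 (.arc (nat_lit 64) n7314 (.arc (nat_lit 67) n7316 (.arc (nat_lit 70) n7315 (.fin (nat_lit 70152341) (nat_lit 0)))))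
def n8513 : Nd := .arc (nat_lit 6) n8508 (.fin (nat_lit 272019605) (nat_lit 0))
def n8514 : Nd := .arc (nat_lit 3) n8512 (.arc (nat_lit 6) n8513 (.fin (nat_lit 139890837) (nat_lit 0)))
def n8515 : Nd := .arc (nat_lit 6) n8511 (.arc (nat_lit 52) n7314 (.arc (nat_lit 55) n7315 (.arc (nat_lit 58) n7316 (.fin (nat_lit 139899029) (nat_lit 0)))))
def n8516 : Nd := .arc (nat_lit 9) n8506 (.arc (nat_lit 64) n7262 (.arc (nat_lit 67) n7269 (.arc (nat_lit 70) n7266 (.fin (nat_lit 272003221) (nat_lit 0)))))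
def n8517 : Nd := .arc (nat_lit 3) n8515 (.arc (nat_lit 9) n8516 (.fin (nat_lit 70144149) (nat_lit 0)))
def n8518 : Nd := .arc (nat_lit 3) n8510 (.arc (nat_lit 6) n8514 (.arc (nat_lit 9) n8517 (.fin (nat_lit 541986965) (nat_lit 0))))
def n8519 : Nd := .arc (nat_lit 6) n8509 (.arc (nat_lit 9) n8507 (.fin (nat_lit 541995157) (nat_lit 0)))
def n8520 : Nd := .arc (nat_lit 38) n7317 (.arc (nat_lit 41) n7321 (.arc (nat_lit 44) n7311 (.arc (nat_lit 47) n7302 (.arc (nat_lit 50) n7270 (.arc (nat_lit 53) n7279 (.arc (nat_lit 56) n7289 (.arc (nat_lit 59) n7285 (.fin (nat_lit 542044309) (nat_lit 0)))))))))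
def n8521 : Nd := .arc (nat_lit 9) n8520 (.fin (nat_lit 139882645) (nat_lit 0))
def n8522 : Nd := .arc (nat_lit 6) n8506 (.arc (nat_lit 52) n7262 (.arc (nat_lit 55) n7266 (.arc (nat_lit 58) n7269 (.fin (nat_lit 542027925) (nat_lit 0)))))
def n8523 : Nd := .arc (nat_lit 3) n8521 (.arc (nat_lit 6) n8522 (.fin (nat_lit 70160533) (nat_lit 0)))
def n8524 : Nd := .arc (nat_lit 6) n8520 (.fin (nat_lit 70168725) (nat_lit 0))
def n8525 : Nd := .arc (nat_lit 9) n8508 (.fin (nat_lit 542011541) (nat_lit 0))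
def n8526 : Nd := .arc (nat_lit 3) n8524 (.arc (nat_lit 9) n8525 (.fin (nat_lit 139874453) (nat_lit 0)))
def n8527 : Nd := .arc (nat_lit 3) n8519 (.arc (nat_lit 6) n8523 (.arc (nat_lit 9) n8526 (.fin (nat_lit 271978645) (nat_lit 0))))
def n8528 : Nd := .arc (nat_lit 3) n8511 (.arc (nat_lit 40) n7314 (.arc (nat_lit 43) n7315 (.arc (nat_lit 46) n7316 (.fin (nat_lit 542036117) (nat_lit 0)))))
def n8529 : Nd := .arc (nat_lit 3) n8520 (.fin (nat_lit 272027797) (nat_lit 0))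
def n8530 : Nd := .arc (nat_lit 6) n8528 (.arc (nat_lit 9) n8529 (.fin (nat_lit 70135957) (nat_lit 0)))
def n8531 : Nd := .arc (nat_lit 3) n8525 (.arc (nat_lit 6) n8524 (.fin (nat_lit 272011413) (nat_lit 0)))
def n8532 : Nd := .arc (nat_lit 3) n8513 (.arc (nat_lit 9) n8512 (.fin (nat_lit 542003349) (nat_lit 0)))
def n8533 : Nd := .arc (nat_lit 3) n8530 (.arc (nat_lit 6) n8531 (.arc (nat_lit 9) n8532 (.fin (nat_lit 139858069) (nat_lit 0))))
def n8534 : Nd := .arc (nat_lit 6) n8529 (.arc (nat_lit 9) n8528 (.fin (nat_lit 139866261) (nat_lit 0)))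
def n8535 : Nd := .arc (nat_lit 3) n8516 (.arc (nat_lit 6) n8515 (.fin (nat_lit 542019733) (nat_lit 0)))
def n8536 : Nd := .arc (nat_lit 3) n8522 (.arc (nat_lit 9) n8521 (.fin (nat_lit 271995029) (nat_lit 0)))
def n8537 : Nd := .arc (nat_lit 3) n8534 (.arc (nat_lit 6) n8535 (.arc (nat_lit 9) n8536 (.fin (nat_lit 70127765) (nat_lit 0))))
def n8538 : Nd := .arc (nat_lit 38) n8345 (.arc (nat_lit 41) n8341 (.arc (nat_lit 44) n8335 (.arc (nat_lit 47) n8326 (.arc (nat_lit 50) n8313 (.arc (nat_lit 53) n8309 (.arc (nat_lit 56) n8303 (.arc (nat_lit 59) n8294 (.fin (nat_lit 38727831) (nat_lit 0)))))))))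
def n8539 : Nd := .arc (nat_lit 3) n8538 (.fin (nat_lit 37146777) (nat_lit 0))
def n8540 : Nd := .arc (nat_lit 26) n8345 (.arc (nat_lit 29) n8341 (.arc (nat_lit 32) n8326 (.arc (nat_lit 35) n8335 (.arc (nat_lit 62) n8313 (.arc (nat_lit 65) n8309 (.arc (nat_lit 68) n8294 (.arc (nat_lit 71) n8303 (.fin (nat_lit 37154969) (nat_lit 0)))))))))
def n8541 : Nd := .arc (nat_lit 3) n8540 (.arc (nat_lit 40) n8342 (.arc (nat_lit 43) n8343 (.arc (nat_lit 46) n8344 (.fin (nat_lit 38719639) (nat_lit 0)))))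
def n8542 : Nd := .arc (nat_lit 6) n8539 (.arc (nat_lit 9) n8541 (.fin (nat_lit 39202973) (nat_lit 0)))
def n8543 : Nd := .arc (nat_lit 26) n8313 (.arc (nat_lit 29) n8309 (.arc (nat_lit 32) n8294 (.arc (nat_lit 35) n8303 (.arc (nat_lit 50) n8345 (.arc (nat_lit 53) n8341 (.arc (nat_lit 56) n8335 (.arc (nat_lit 59) n8326 (.fin (nat_lit 39252125) (nat_lit 0)))))))))
def n8544 : Nd := .arc (nat_lit 9) n8543 (.arc (nat_lit 64) n8310 (.arc (nat_lit 67) n8312 (.arc (nat_lit 70) n8311 (.fin (nat_lit 37122201) (nat_lit 0)))))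
def n8545 : Nd := .arc (nat_lit 6) n8540 (.arc (nat_lit 52) n8342 (.arc (nat_lit 55) n8343 (.arc (nat_lit 58) n8344 (.fin (nat_lit 39235741) (nat_lit 0)))))
def n8546 : Nd := .arc (nat_lit 3) n8544 (.arc (nat_lit 6) n8545 (.fin (nat_lit 38703255) (nat_lit 0)))
def n8547 : Nd := .arc (nat_lit 6) n8543 (.arc (nat_lit 52) n8310 (.arc (nat_lit 55) n8311 (.arc (nat_lit 58) n8312 (.fin (nat_lit 38711447) (nat_lit 0)))))
def n8548 : Nd := .arc (nat_lit 9) n8538 (.fin (nat_lit 39219357) (nat_lit 0))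
def n8549 : Nd := .arc (nat_lit 3) n8547 (.arc (nat_lit 9) n8548 (.fin (nat_lit 37114009) (nat_lit 0)))
def n8550 : Nd := .arc (nat_lit 3) n8542 (.arc (nat_lit 6) n8546 (.arc (nat_lit 9) n8549 (.fin (nat_lit 36573339) (nat_lit 0))))
def n8551 : Nd := .arc (nat_lit 6) n8541 (.arc (nat_lit 9) n8539 (.fin (nat_lit 36581531) (nat_lit 0)))
def n8552 : Nd := .arc (nat_lit 38) n8313 (.arc (nat_lit 41) n8309 (.arc (nat_lit 44) n8303 (.arc (nat_lit 47) n8294 (.arc (nat_lit 62) n8345 (.arc (nat_lit 65) n8341 (.arc (nat_lit 68) n8326 (.arc (nat_lit 71) n8335 (.fin (nat_lit 36630683) (nat_lit 0)))))))))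
def n8553 : Nd := .arc (nat_lit 9) n8552 (.fin (nat_lit 38695063) (nat_lit 0))
def n8554 : Nd := .arc (nat_lit 6) n8538 (.fin (nat_lit 36614299) (nat_lit 0))
def n8555 : Nd := .arc (nat_lit 3) n8553 (.arc (nat_lit 6) n8554 (.fin (nat_lit 37130393) (nat_lit 0)))
def n8556 : Nd := .arc (nat_lit 6) n8552 (.fin (nat_lit 37138585) (nat_lit 0))
def n8557 : Nd := .arc (nat_lit 9) n8540 (.arc (nat_lit 64) n8342 (.arc (nat_lit 67) n8344 (.arc (nat_lit 70) n8343 (.fin (nat_lit 36597915) (nat_lit 0)))))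
def n8558 : Nd := .arc (nat_lit 3) n8556 (.arc (nat_lit 9) n8557 (.fin (nat_lit 38686871) (nat_lit 0)))
def n8559 : Nd := .arc (nat_lit 3) n8551 (.arc (nat_lit 6) n8555 (.arc (nat_lit 9) n8558 (.fin (nat_lit 39194781) (nat_lit 0))))
def n8560 : Nd := .arc (nat_lit 3) n8543 (.arc (nat_lit 40) n8310 (.arc (nat_lit 43) n8311 (.arc (nat_lit 46) n8312 (.fin (nat_lit 36622491) (nat_lit 0)))))
def n8561 : Nd := .arc (nat_lit 3) n8552 (.fin (nat_lit 39243933) (nat_lit 0))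
def n8562 : Nd := .arc (nat_lit 6) n8560 (.arc (nat_lit 9) n8561 (.fin (nat_lit 37105817) (nat_lit 0)))
def n8563 : Nd := .arc (nat_lit 3) n8557 (.arc (nat_lit 6) n8556 (.fin (nat_lit 39227549) (nat_lit 0)))
def n8564 : Nd := .arc (nat_lit 3) n8545 (.arc (nat_lit 9) n8544 (.fin (nat_lit 36589723) (nat_lit 0)))
def n8565 : Nd := .arc (nat_lit 3) n8562 (.arc (nat_lit 6) n8563 (.arc (nat_lit 9) n8564 (.fin (nat_lit 38670487) (nat_lit 0))))
def n8566 : Nd := .arc (nat_lit 6) n8561 (.arc (nat_lit 9) n8560 (.fin (nat_lit 38678679) (nat_lit 0)))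
def n8567 : Nd := .arc (nat_lit 3) n8548 (.arc (nat_lit 6) n8547 (.fin (nat_lit 36606107) (nat_lit 0)))
def n8568 : Nd := .arc (nat_lit 3) n8554 (.arc (nat_lit 9) n8553 (.fin (nat_lit 39211165) (nat_lit 0)))
def n8569 : Nd := .arc (nat_lit 3) n8566 (.arc (nat_lit 6) n8567 (.arc (nat_lit 9) n8568 (.fin (nat_lit 37097625) (nat_lit 0))))
def n8570 : Nd := .arc (nat_lit 14) n8486 (.arc (nat_lit 17) n8495 (.arc (nat_lit 20) n8501 (.arc (nat_lit 23) n8505 (.arc (nat_lit 38) n8518 (.arc (nat_lit 41) n8527 (.arc (nat_lit 44) n8533 (.arc (nat_lit 47) n8537 (.arc (nat_lit 50) n8550 (.arc (nat_lit 53) n8559 (.arc (nat_lit 56) n8565 (.arc (nat_lit 59) n8569 (.fin (nat_lit 541782167) (nat_lit 0)))))))))))))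
def n8571 : Nd := .arc (nat_lit 3) n8570 (.fin (nat_lit 271765657) (nat_lit 0))
def n8572 : Nd := .arc (nat_lit 14) n8495 (.arc (nat_lit 17) n8486 (.arc (nat_lit 20) n8505 (.arc (nat_lit 23) n8501 (.arc (nat_lit 26) n8518 (.arc (nat_lit 29) n8527 (.arc (nat_lit 32) n8537 (.arc (nat_lit 35) n8533 (.arc (nat_lit 62) n8550 (.arc (nat_lit 65) n8559 (.arc (nat_lit 68) n8569 (.arc (nat_lit 71) n8565 (.fin (nat_lit 271773849) (nat_lit 0)))))))))))))
def n8573 : Nd := .arc (nat_lit 3) n8572 (.arc (nat_lit 40) n8510 (.arc (nat_lit 43) n8514 (.arc (nat_lit 46) n8517 (.fin (nat_lit 541773975) (nat_lit 0)))))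
def n8574 : Nd := .arc (nat_lit 6) n8571 (.arc (nat_lit 9) n8573 (.fin (nat_lit 139604125) (nat_lit 0)))
def n8575 : Nd := .arc (nat_lit 14) n8501 (.arc (nat_lit 17) n8505 (.arc (nat_lit 20) n8495 (.arc (nat_lit 23) n8486 (.arc (nat_lit 26) n8550 (.arc (nat_lit 29) n8559 (.arc (nat_lit 32) n8569 (.arc (nat_lit 35) n8565 (.arc (nat_lit 50) n8518 (.arc (nat_lit 53) n8527 (.arc (nat_lit 56) n8533 (.arc (nat_lit 59) n8537 (.fin (nat_lit 139653277) (nat_lit 0)))))))))))))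
def n8576 : Nd := .arc (nat_lit 9) n8575 (.arc (nat_lit 64) n8542 (.arc (nat_lit 67) n8549 (.arc (nat_lit 70) n8546 (.fin (nat_lit 271741081) (nat_lit 0)))))
def n8577 : Nd := .arc (nat_lit 6) n8572 (.arc (nat_lit 52) n8510 (.arc (nat_lit 55) n8514 (.arc (nat_lit 58) n8517 (.fin (nat_lit 139636893) (nat_lit 0)))))
def n8578 : Nd := .arc (nat_lit 3) n8576 (.arc (nat_lit 6) n8577 (.fin (nat_lit 541757591) (nat_lit 0)))
def n8579 : Nd := .arc (nat_lit 6) n8575 (.arc (nat_lit 52) n8542 (.arc (nat_lit 55) n8546 (.arc (nat_lit 58) n8549 (.fin (nat_lit 541765783) (nat_lit 0)))))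
def n8580 : Nd := .arc (nat_lit 9) n8570 (.fin (nat_lit 139620509) (nat_lit 0))
def n8581 : Nd := .arc (nat_lit 3) n8579 (.arc (nat_lit 9) n8580 (.fin (nat_lit 271732889) (nat_lit 0)))
def n8582 : Nd := .arc (nat_lit 3) n8574 (.arc (nat_lit 6) n8578 (.arc (nat_lit 9) n8581 (.fin (nat_lit 69865627) (nat_lit 0))))
def n8583 : Nd := .arc (nat_lit 6) n8573 (.arc (nat_lit 9) n8571 (.fin (nat_lit 69873819) (nat_lit 0)))
def n8584 : Nd := .arc (nat_lit 14) n8505 (.arc (nat_lit 17) n8501 (.arc (nat_lit 20) n8486 (.arc (nat_lit 23) n8495 (.arc (nat_lit 38) n8550 (.arc (nat_lit 41) n8559 (.arc (nat_lit 44) n8565 (.arc (nat_lit 47) n8569 (.arc (nat_lit 62) n8518 (.arc (nat_lit 65) n8527 (.arc (nat_lit 68) n8537 (.arc (nat_lit 71) n8533 (.fin (nat_lit 69922971) (nat_lit 0)))))))))))))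
def n8585 : Nd := .arc (nat_lit 9) n8584 (.fin (nat_lit 541749399) (nat_lit 0))
def n8586 : Nd := .arc (nat_lit 6) n8570 (.fin (nat_lit 69906587) (nat_lit 0))
def n8587 : Nd := .arc (nat_lit 3) n8585 (.arc (nat_lit 6) n8586 (.fin (nat_lit 271749273) (nat_lit 0)))
def n8588 : Nd := .arc (nat_lit 6) n8584 (.fin (nat_lit 271757465) (nat_lit 0))
def n8589 : Nd := .arc (nat_lit 9) n8572 (.arc (nat_lit 64) n8510 (.arc (nat_lit 67) n8517 (.arc (nat_lit 70) n8514 (.fin (nat_lit 69890203) (nat_lit 0)))))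
def n8590 : Nd := .arc (nat_lit 3) n8588 (.arc (nat_lit 9) n8589 (.fin (nat_lit 541741207) (nat_lit 0)))
def n8591 : Nd := .arc (nat_lit 3) n8583 (.arc (nat_lit 6) n8587 (.arc (nat_lit 9) n8590 (.fin (nat_lit 139595933) (nat_lit 0))))
def n8592 : Nd := .arc (nat_lit 3) n8584 (.fin (nat_lit 139645085) (nat_lit 0))
def n8593 : Nd := .arc (nat_lit 3) n8575 (.arc (nat_lit 40) n8542 (.arc (nat_lit 43) n8546 (.arc (nat_lit 46) n8549 (.fin (nat_lit 69914779) (nat_lit 0)))))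
def n8594 : Nd := .arc (nat_lit 6) n8592 (.arc (nat_lit 9) n8593 (.fin (nat_lit 541733015) (nat_lit 0)))
def n8595 : Nd := .arc (nat_lit 3) n8580 (.arc (nat_lit 6) n8579 (.fin (nat_lit 69898395) (nat_lit 0)))
def n8596 : Nd := .arc (nat_lit 3) n8586 (.arc (nat_lit 9) n8585 (.fin (nat_lit 139612317) (nat_lit 0)))
def n8597 : Nd := .arc (nat_lit 3) n8594 (.arc (nat_lit 6) n8595 (.arc (nat_lit 9) n8596 (.fin (nat_lit 271716505) (nat_lit 0))))
def n8598 : Nd := .arc (nat_lit 6) n8593 (.arc (nat_lit 9) n8592 (.fin (nat_lit 271724697) (nat_lit 0)))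
def n8599 : Nd := .arc (nat_lit 3) n8589 (.arc (nat_lit 6) n8588 (.fin (nat_lit 139628701) (nat_lit 0)))
def n8600 : Nd := .arc (nat_lit 3) n8577 (.arc (nat_lit 9) n8576 (.fin (nat_lit 69882011) (nat_lit 0)))
def n8601 : Nd := .arc (nat_lit 3) n8598 (.arc (nat_lit 6) n8599 (.arc (nat_lit 9) n8600 (.fin (nat_lit 541724823) (nat_lit 0))))
def n8602 : Nd := .arc (nat_lit 38) n8431 (.arc (nat_lit 41) n8422 (.arc (nat_lit 44) n8441 (.arc (nat_lit 47) n8437 (.arc (nat_lit 62) n8463 (.arc (nat_lit 65) n8454 (.arc (nat_lit 68) n8469 (.arc (nat_lit 71) n8473 (.fin (nat_lit 70185115) (nat_lit 0)))))))))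
def n8603 : Nd := .arc (nat_lit 3) n8602 (.fin (nat_lit 139907229) (nat_lit 0))
def n8604 : Nd := .arc (nat_lit 26) n8431 (.arc (nat_lit 29) n8422 (.arc (nat_lit 32) n8437 (.arc (nat_lit 35) n8441 (.arc (nat_lit 50) n8463 (.arc (nat_lit 53) n8454 (.arc (nat_lit 56) n8473 (.arc (nat_lit 59) n8469 (.fin (nat_lit 139915421) (nat_lit 0)))))))))
def n8605 : Nd := .arc (nat_lit 3) n8604 (.arc (nat_lit 40) n8423 (.arc (nat_lit 43) n8427 (.arc (nat_lit 46) n8430 (.fin (nat_lit 70176923) (nat_lit 0)))))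
def n8606 : Nd := .arc (nat_lit 6) n8603 (.arc (nat_lit 9) n8605 (.fin (nat_lit 541995159) (nat_lit 0)))
def n8607 : Nd := .arc (nat_lit 38) n8463 (.arc (nat_lit 41) n8454 (.arc (nat_lit 44) n8473 (.arc (nat_lit 47) n8469 (.arc (nat_lit 50) n8431 (.arc (nat_lit 53) n8422 (.arc (nat_lit 56) n8441 (.arc (nat_lit 59) n8437 (.fin (nat_lit 542044311) (nat_lit 0)))))))))
def n8608 : Nd := .arc (nat_lit 9) n8607 (.fin (nat_lit 139882653) (nat_lit 0))
def n8609 : Nd := .arc (nat_lit 6) n8604 (.arc (nat_lit 52) n8423 (.arc (nat_lit 55) n8427 (.arc (nat_lit 58) n8430 (.fin (nat_lit 542027927) (nat_lit 0)))))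
def n8610 : Nd := .arc (nat_lit 3) n8608 (.arc (nat_lit 6) n8609 (.fin (nat_lit 70160539) (nat_lit 0)))
def n8611 : Nd := .arc (nat_lit 6) n8607 (.fin (nat_lit 70168731) (nat_lit 0))
def n8612 : Nd := .arc (nat_lit 9) n8602 (.fin (nat_lit 542011543) (nat_lit 0))
def n8613 : Nd := .arc (nat_lit 3) n8611 (.arc (nat_lit 9) n8612 (.fin (nat_lit 139874461) (nat_lit 0)))
def n8614 : Nd := .arc (nat_lit 3) n8606 (.arc (nat_lit 6) n8610 (.arc (nat_lit 9) n8613 (.fin (nat_lit 271978649) (nat_lit 0))))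
def n8615 : Nd := .arc (nat_lit 6) n8605 (.arc (nat_lit 9) n8603 (.fin (nat_lit 271986841) (nat_lit 0)))
def n8616 : Nd := .arc (nat_lit 26) n8463 (.arc (nat_lit 29) n8454 (.arc (nat_lit 32) n8469 (.arc (nat_lit 35) n8473 (.arc (nat_lit 62) n8431 (.arc (nat_lit 65) n8422 (.arc (nat_lit 68) n8437 (.arc (nat_lit 71) n8441 (.fin (nat_lit 272035993) (nat_lit 0)))))))))
def n8617 : Nd := .arc (nat_lit 9) n8616 (.arc (nat_lit 64) n8455 (.arc (nat_lit 67) n8462 (.arc (nat_lit 70) n8459 (.fin (nat_lit 70152347) (nat_lit 0)))))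
def n8618 : Nd := .arc (nat_lit 6) n8602 (.fin (nat_lit 272019609) (nat_lit 0))
def n8619 : Nd := .arc (nat_lit 3) n8617 (.arc (nat_lit 6) n8618 (.fin (nat_lit 139890845) (nat_lit 0)))
def n8620 : Nd := .arc (nat_lit 6) n8616 (.arc (nat_lit 52) n8455 (.arc (nat_lit 55) n8459 (.arc (nat_lit 58) n8462 (.fin (nat_lit 139899037) (nat_lit 0)))))
def n8621 : Nd := .arc (nat_lit 9) n8604 (.arc (nat_lit 64) n8423 (.arc (nat_lit 67) n8430 (.arc (nat_lit 70) n8427 (.fin (nat_lit 272003225) (nat_lit 0)))))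
def n8622 : Nd := .arc (nat_lit 3) n8620 (.arc (nat_lit 9) n8621 (.fin (nat_lit 70144155) (nat_lit 0)))
def n8623 : Nd := .arc (nat_lit 3) n8615 (.arc (nat_lit 6) n8619 (.arc (nat_lit 9) n8622 (.fin (nat_lit 541986967) (nat_lit 0))))
def n8624 : Nd := .arc (nat_lit 3) n8616 (.arc (nat_lit 40) n8455 (.arc (nat_lit 43) n8459 (.arc (nat_lit 46) n8462 (.fin (nat_lit 542036119) (nat_lit 0)))))
def n8625 : Nd := .arc (nat_lit 3) n8607 (.fin (nat_lit 272027801) (nat_lit 0))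
def n8626 : Nd := .arc (nat_lit 6) n8624 (.arc (nat_lit 9) n8625 (.fin (nat_lit 70135963) (nat_lit 0)))
def n8627 : Nd := .arc (nat_lit 3) n8612 (.arc (nat_lit 6) n8611 (.fin (nat_lit 272011417) (nat_lit 0)))
def n8628 : Nd := .arc (nat_lit 3) n8618 (.arc (nat_lit 9) n8617 (.fin (nat_lit 542003351) (nat_lit 0)))
def n8629 : Nd := .arc (nat_lit 3) n8626 (.arc (nat_lit 6) n8627 (.arc (nat_lit 9) n8628 (.fin (nat_lit 139858077) (nat_lit 0))))
def n8630 : Nd := .arc (nat_lit 6) n8625 (.arc (nat_lit 9) n8624 (.fin (nat_lit 139866269) (nat_lit 0)))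
def n8631 : Nd := .arc (nat_lit 3) n8621 (.arc (nat_lit 6) n8620 (.fin (nat_lit 542019735) (nat_lit 0)))
def n8632 : Nd := .arc (nat_lit 3) n8609 (.arc (nat_lit 9) n8608 (.fin (nat_lit 271995033) (nat_lit 0)))
def n8633 : Nd := .arc (nat_lit 3) n8630 (.arc (nat_lit 6) n8631 (.arc (nat_lit 9) n8632 (.fin (nat_lit 70127771) (nat_lit 0))))
def n8634 : Nd := .arc (nat_lit 38) n7663 (.arc (nat_lit 41) n7654 (.arc (nat_lit 44) n7669 (.arc (nat_lit 47) n7673 (.arc (nat_lit 50) n7705 (.arc (nat_lit 53) n7701 (.arc (nat_lit 56) n7686 (.arc (nat_lit 59) n7695 (.fin (nat_lit 72282261) (nat_lit 0)))))))))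
def n8635 : Nd := .arc (nat_lit 3) n8634 (.fin (nat_lit 137810069) (nat_lit 0))
def n8636 : Nd := .arc (nat_lit 26) n7663 (.arc (nat_lit 29) n7654 (.arc (nat_lit 32) n7673 (.arc (nat_lit 35) n7669 (.arc (nat_lit 62) n7705 (.arc (nat_lit 65) n7701 (.arc (nat_lit 68) n7695 (.arc (nat_lit 71) n7686 (.fin (nat_lit 137818261) (nat_lit 0)))))))))
def n8637 : Nd := .arc (nat_lit 3) n8636 (.arc (nat_lit 40) n7655 (.arc (nat_lit 43) n7659 (.arc (nat_lit 46) n7662 (.fin (nat_lit 72274069) (nat_lit 0)))))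
def n8638 : Nd := .arc (nat_lit 6) n8635 (.arc (nat_lit 9) n8637 (.fin (nat_lit 542519445) (nat_lit 0)))
def n8639 : Nd := .arc (nat_lit 26) n7705 (.arc (nat_lit 29) n7701 (.arc (nat_lit 32) n7695 (.arc (nat_lit 35) n7686 (.arc (nat_lit 50) n7663 (.arc (nat_lit 53) n7654 (.arc (nat_lit 56) n7669 (.arc (nat_lit 59) n7673 (.fin (nat_lit 542568597) (nat_lit 0)))))))))
def n8640 : Nd := .arc (nat_lit 9) n8639 (.arc (nat_lit 64) n7702 (.arc (nat_lit 67) n7704 (.arc (nat_lit 70) n7703 (.fin (nat_lit 137785493) (nat_lit 0)))))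
def n8641 : Nd := .arc (nat_lit 6) n8636 (.arc (nat_lit 52) n7655 (.arc (nat_lit 55) n7659 (.arc (nat_lit 58) n7662 (.fin (nat_lit 542552213) (nat_lit 0)))))
def n8642 : Nd := .arc (nat_lit 3) n8640 (.arc (nat_lit 6) n8641 (.fin (nat_lit 72257685) (nat_lit 0)))
def n8643 : Nd := .arc (nat_lit 6) n8639 (.arc (nat_lit 52) n7702 (.arc (nat_lit 55) n7703 (.arc (nat_lit 58) n7704 (.fin (nat_lit 72265877) (nat_lit 0)))))
def n8644 : Nd := .arc (nat_lit 9) n8634 (.fin (nat_lit 542535829) (nat_lit 0))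
def n8645 : Nd := .arc (nat_lit 3) n8643 (.arc (nat_lit 9) n8644 (.fin (nat_lit 137777301) (nat_lit 0)))
def n8646 : Nd := .arc (nat_lit 3) n8638 (.arc (nat_lit 6) n8642 (.arc (nat_lit 9) n8645 (.fin (nat_lit 271454357) (nat_lit 0))))
def n8647 : Nd := .arc (nat_lit 6) n8637 (.arc (nat_lit 9) n8635 (.fin (nat_lit 271462549) (nat_lit 0)))
def n8648 : Nd := .arc (nat_lit 38) n7705 (.arc (nat_lit 41) n7701 (.arc (nat_lit 44) n7686 (.arc (nat_lit 47) n7695 (.arc (nat_lit 62) n7663 (.arc (nat_lit 65) n7654 (.arc (nat_lit 68) n7673 (.arc (nat_lit 71) n7669 (.fin (nat_lit 271511701) (nat_lit 0)))))))))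
def n8649 : Nd := .arc (nat_lit 9) n8648 (.fin (nat_lit 72249493) (nat_lit 0))
def n8650 : Nd := .arc (nat_lit 6) n8634 (.fin (nat_lit 271495317) (nat_lit 0))
def n8651 : Nd := .arc (nat_lit 3) n8649 (.arc (nat_lit 6) n8650 (.fin (nat_lit 137793685) (nat_lit 0)))
def n8652 : Nd := .arc (nat_lit 6) n8648 (.fin (nat_lit 137801877) (nat_lit 0))
def n8653 : Nd := .arc (nat_lit 9) n8636 (.arc (nat_lit 64) n7655 (.arc (nat_lit 67) n7662 (.arc (nat_lit 70) n7659 (.fin (nat_lit 271478933) (nat_lit 0)))))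
def n8654 : Nd := .arc (nat_lit 3) n8652 (.arc (nat_lit 9) n8653 (.fin (nat_lit 72241301) (nat_lit 0)))
def n8655 : Nd := .arc (nat_lit 3) n8647 (.arc (nat_lit 6) n8651 (.arc (nat_lit 9) n8654 (.fin (nat_lit 542511253) (nat_lit 0))))
def n8656 : Nd := .arc (nat_lit 3) n8648 (.fin (nat_lit 542560405) (nat_lit 0))
def n8657 : Nd := .arc (nat_lit 3) n8639 (.arc (nat_lit 40) n7702 (.arc (nat_lit 43) n7703 (.arc (nat_lit 46) n7704 (.fin (nat_lit 271503509) (nat_lit 0)))))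
def n8658 : Nd := .arc (nat_lit 6) n8656 (.arc (nat_lit 9) n8657 (.fin (nat_lit 72233109) (nat_lit 0)))
def n8659 : Nd := .arc (nat_lit 3) n8644 (.arc (nat_lit 6) n8643 (.fin (nat_lit 271487125) (nat_lit 0)))
def n8660 : Nd := .arc (nat_lit 3) n8650 (.arc (nat_lit 9) n8649 (.fin (nat_lit 542527637) (nat_lit 0)))
def n8661 : Nd := .arc (nat_lit 3) n8658 (.arc (nat_lit 6) n8659 (.arc (nat_lit 9) n8660 (.fin (nat_lit 137760917) (nat_lit 0))))
def n8662 : Nd := .arc (nat_lit 6) n8657 (.arc (nat_lit 9) n8656 (.fin (nat_lit 137769109) (nat_lit 0)))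
def n8663 : Nd := .arc (nat_lit 3) n8653 (.arc (nat_lit 6) n8652 (.fin (nat_lit 542544021) (nat_lit 0)))
def n8664 : Nd := .arc (nat_lit 3) n8641 (.arc (nat_lit 9) n8640 (.fin (nat_lit 271470741) (nat_lit 0)))
def n8665 : Nd := .arc (nat_lit 3) n8662 (.arc (nat_lit 6) n8663 (.arc (nat_lit 9) n8664 (.fin (nat_lit 72224917) (nat_lit 0))))
def n8666 : Nd := .arc (nat_lit 26) n8249 (.arc (nat_lit 29) n8245 (.arc (nat_lit 32) n8239 (.arc (nat_lit 35) n8230 (.arc (nat_lit 50) n8217 (.arc (nat_lit 53) n8213 (.arc (nat_lit 56) n8207 (.arc (nat_lit 59) n8198 (.fin (nat_lit 39252121) (nat_lit 0)))))))))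
def n8667 : Nd := .arc (nat_lit 3) n8666 (.arc (nat_lit 40) n8246 (.arc (nat_lit 43) n8247 (.arc (nat_lit 46) n8248 (.fin (nat_lit 36622487) (nat_lit 0)))))
def n8668 : Nd := .arc (nat_lit 38) n8249 (.arc (nat_lit 41) n8245 (.arc (nat_lit 44) n8230 (.arc (nat_lit 47) n8239 (.arc (nat_lit 62) n8217 (.arc (nat_lit 65) n8213 (.arc (nat_lit 68) n8198 (.arc (nat_lit 71) n8207 (.fin (nat_lit 36630679) (nat_lit 0)))))))))
def n8669 : Nd := .arc (nat_lit 3) n8668 (.fin (nat_lit 39243929) (nat_lit 0))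
def n8670 : Nd := .arc (nat_lit 6) n8667 (.arc (nat_lit 9) n8669 (.fin (nat_lit 37105819) (nat_lit 0)))
def n8671 : Nd := .arc (nat_lit 26) n8217 (.arc (nat_lit 29) n8213 (.arc (nat_lit 32) n8198 (.arc (nat_lit 35) n8207 (.arc (nat_lit 62) n8249 (.arc (nat_lit 65) n8245 (.arc (nat_lit 68) n8239 (.arc (nat_lit 71) n8230 (.fin (nat_lit 37154971) (nat_lit 0)))))))))
def n8672 : Nd := .arc (nat_lit 9) n8671 (.arc (nat_lit 64) n8214 (.arc (nat_lit 67) n8216 (.arc (nat_lit 70) n8215 (.fin (nat_lit 36597911) (nat_lit 0)))))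
def n8673 : Nd := .arc (nat_lit 6) n8668 (.fin (nat_lit 37138587) (nat_lit 0))
def n8674 : Nd := .arc (nat_lit 3) n8672 (.arc (nat_lit 6) n8673 (.fin (nat_lit 39227545) (nat_lit 0)))
def n8675 : Nd := .arc (nat_lit 6) n8671 (.arc (nat_lit 52) n8214 (.arc (nat_lit 55) n8215 (.arc (nat_lit 58) n8216 (.fin (nat_lit 39235737) (nat_lit 0)))))
def n8676 : Nd := .arc (nat_lit 9) n8666 (.arc (nat_lit 64) n8246 (.arc (nat_lit 67) n8248 (.arc (nat_lit 70) n8247 (.fin (nat_lit 37122203) (nat_lit 0)))))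
def n8677 : Nd := .arc (nat_lit 3) n8675 (.arc (nat_lit 9) n8676 (.fin (nat_lit 36589719) (nat_lit 0)))
def n8678 : Nd := .arc (nat_lit 3) n8670 (.arc (nat_lit 6) n8674 (.arc (nat_lit 9) n8677 (.fin (nat_lit 38670493) (nat_lit 0))))
def n8679 : Nd := .arc (nat_lit 6) n8669 (.arc (nat_lit 9) n8667 (.fin (nat_lit 38678685) (nat_lit 0)))
def n8680 : Nd := .arc (nat_lit 38) n8217 (.arc (nat_lit 41) n8213 (.arc (nat_lit 44) n8207 (.arc (nat_lit 47) n8198 (.arc (nat_lit 50) n8249 (.arc (nat_lit 53) n8245 (.arc (nat_lit 56) n8230 (.arc (nat_lit 59) n8239 (.fin (nat_lit 38727837) (nat_lit 0)))))))))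
def n8681 : Nd := .arc (nat_lit 9) n8680 (.fin (nat_lit 39219353) (nat_lit 0))
def n8682 : Nd := .arc (nat_lit 6) n8666 (.arc (nat_lit 52) n8246 (.arc (nat_lit 55) n8247 (.arc (nat_lit 58) n8248 (.fin (nat_lit 38711453) (nat_lit 0)))))
def n8683 : Nd := .arc (nat_lit 3) n8681 (.arc (nat_lit 6) n8682 (.fin (nat_lit 36606103) (nat_lit 0)))
def n8684 : Nd := .arc (nat_lit 6) n8680 (.fin (nat_lit 36614295) (nat_lit 0))
def n8685 : Nd := .arc (nat_lit 9) n8668 (.fin (nat_lit 38695069) (nat_lit 0))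
def n8686 : Nd := .arc (nat_lit 3) n8684 (.arc (nat_lit 9) n8685 (.fin (nat_lit 39211161) (nat_lit 0)))
def n8687 : Nd := .arc (nat_lit 3) n8679 (.arc (nat_lit 6) n8683 (.arc (nat_lit 9) n8686 (.fin (nat_lit 37097627) (nat_lit 0))))
def n8688 : Nd := .arc (nat_lit 3) n8671 (.arc (nat_lit 40) n8214 (.arc (nat_lit 43) n8215 (.arc (nat_lit 46) n8216 (.fin (nat_lit 38719645) (nat_lit 0)))))
def n8689 : Nd := .arc (nat_lit 3) n8680 (.fin (nat_lit 37146779) (nat_lit 0))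
def n8690 : Nd := .arc (nat_lit 6) n8688 (.arc (nat_lit 9) n8689 (.fin (nat_lit 36581527) (nat_lit 0)))
def n8691 : Nd := .arc (nat_lit 3) n8685 (.arc (nat_lit 6) n8684 (.fin (nat_lit 37130395) (nat_lit 0)))
def n8692 : Nd := .arc (nat_lit 3) n8673 (.arc (nat_lit 9) n8672 (.fin (nat_lit 38686877) (nat_lit 0)))
def n8693 : Nd := .arc (nat_lit 3) n8690 (.arc (nat_lit 6) n8691 (.arc (nat_lit 9) n8692 (.fin (nat_lit 39194777) (nat_lit 0))))
def n8694 : Nd := .arc (nat_lit 6) n8689 (.arc (nat_lit 9) n8688 (.fin (nat_lit 39202969) (nat_lit 0)))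
def n8695 : Nd := .arc (nat_lit 3) n8676 (.arc (nat_lit 6) n8675 (.fin (nat_lit 38703261) (nat_lit 0)))
def n8696 : Nd := .arc (nat_lit 3) n8682 (.arc (nat_lit 9) n8681 (.fin (nat_lit 37114011) (nat_lit 0)))
def n8697 : Nd := .arc (nat_lit 3) n8694 (.arc (nat_lit 6) n8695 (.arc (nat_lit 9) n8696 (.fin (nat_lit 36573335) (nat_lit 0))))
def n8698 : Nd := .arc (nat_lit 14) n8614 (.arc (nat_lit 17) n8623 (.arc (nat_lit 20) n8629 (.arc (nat_lit 23) n8633 (.arc (nat_lit 26) n8646 (.arc (nat_lit 29) n8655 (.arc (nat_lit 32) n8661 (.arc (nat_lit 35) n8665 (.arc (nat_lit 50) n8678 (.arc (nat_lit 53) n8687 (.arc (nat_lit 56) n8693 (.arc (nat_lit 59) n8697 (.fin (nat_lit 542306457) (nat_lit 0)))))))))))))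
def n8699 : Nd := .arc (nat_lit 3) n8698 (.arc (nat_lit 40) n8638 (.arc (nat_lit 43) n8642 (.arc (nat_lit 46) n8645 (.fin (nat_lit 271241367) (nat_lit 0)))))
def n8700 : Nd := .arc (nat_lit 14) n8623 (.arc (nat_lit 17) n8614 (.arc (nat_lit 20) n8633 (.arc (nat_lit 23) n8629 (.arc (nat_lit 38) n8646 (.arc (nat_lit 41) n8655 (.arc (nat_lit 44) n8665 (.arc (nat_lit 47) n8661 (.arc (nat_lit 62) n8678 (.arc (nat_lit 65) n8687 (.arc (nat_lit 68) n8697 (.arc (nat_lit 71) n8693 (.fin (nat_lit 271249559) (nat_lit 0)))))))))))))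
def n8701 : Nd := .arc (nat_lit 3) n8700 (.fin (nat_lit 542298265) (nat_lit 0))
def n8702 : Nd := .arc (nat_lit 6) n8699 (.arc (nat_lit 9) n8701 (.fin (nat_lit 137506971) (nat_lit 0)))
def n8703 : Nd := .arc (nat_lit 14) n8629 (.arc (nat_lit 17) n8633 (.arc (nat_lit 20) n8623 (.arc (nat_lit 23) n8614 (.arc (nat_lit 26) n8678 (.arc (nat_lit 29) n8687 (.arc (nat_lit 32) n8697 (.arc (nat_lit 35) n8693 (.arc (nat_lit 62) n8646 (.arc (nat_lit 65) n8655 (.arc (nat_lit 68) n8661 (.arc (nat_lit 71) n8665 (.fin (nat_lit 137556123) (nat_lit 0)))))))))))))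
def n8704 : Nd := .arc (nat_lit 9) n8703 (.arc (nat_lit 64) n8670 (.arc (nat_lit 67) n8677 (.arc (nat_lit 70) n8674 (.fin (nat_lit 271216791) (nat_lit 0)))))
def n8705 : Nd := .arc (nat_lit 6) n8700 (.fin (nat_lit 137539739) (nat_lit 0))
def n8706 : Nd := .arc (nat_lit 3) n8704 (.arc (nat_lit 6) n8705 (.fin (nat_lit 542281881) (nat_lit 0)))
def n8707 : Nd := .arc (nat_lit 6) n8703 (.arc (nat_lit 52) n8670 (.arc (nat_lit 55) n8674 (.arc (nat_lit 58) n8677 (.fin (nat_lit 542290073) (nat_lit 0)))))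
def n8708 : Nd := .arc (nat_lit 9) n8698 (.arc (nat_lit 64) n8638 (.arc (nat_lit 67) n8645 (.arc (nat_lit 70) n8642 (.fin (nat_lit 137523355) (nat_lit 0)))))
def n8709 : Nd := .arc (nat_lit 3) n8707 (.arc (nat_lit 9) n8708 (.fin (nat_lit 271208599) (nat_lit 0)))
def n8710 : Nd := .arc (nat_lit 3) n8702 (.arc (nat_lit 6) n8706 (.arc (nat_lit 9) n8709 (.fin (nat_lit 71962781) (nat_lit 0))))
def n8711 : Nd := .arc (nat_lit 6) n8701 (.arc (nat_lit 9) n8699 (.fin (nat_lit 71970973) (nat_lit 0)))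
def n8712 : Nd := .arc (nat_lit 14) n8633 (.arc (nat_lit 17) n8629 (.arc (nat_lit 20) n8614 (.arc (nat_lit 23) n8623 (.arc (nat_lit 38) n8678 (.arc (nat_lit 41) n8687 (.arc (nat_lit 44) n8693 (.arc (nat_lit 47) n8697 (.arc (nat_lit 50) n8646 (.arc (nat_lit 53) n8655 (.arc (nat_lit 56) n8665 (.arc (nat_lit 59) n8661 (.fin (nat_lit 72020125) (nat_lit 0)))))))))))))
def n8713 : Nd := .arc (nat_lit 9) n8712 (.fin (nat_lit 542273689) (nat_lit 0))
def n8714 : Nd := .arc (nat_lit 6) n8698 (.arc (nat_lit 52) n8638 (.arc (nat_lit 55) n8642 (.arc (nat_lit 58) n8645 (.fin (nat_lit 72003741) (nat_lit 0)))))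
def n8715 : Nd := .arc (nat_lit 3) n8713 (.arc (nat_lit 6) n8714 (.fin (nat_lit 271224983) (nat_lit 0)))
def n8716 : Nd := .arc (nat_lit 6) n8712 (.fin (nat_lit 271233175) (nat_lit 0))
def n8717 : Nd := .arc (nat_lit 9) n8700 (.fin (nat_lit 71987357) (nat_lit 0))
def n8718 : Nd := .arc (nat_lit 3) n8716 (.arc (nat_lit 9) n8717 (.fin (nat_lit 542265497) (nat_lit 0)))
def n8719 : Nd := .arc (nat_lit 3) n8711 (.arc (nat_lit 6) n8715 (.arc (nat_lit 9) n8718 (.fin (nat_lit 137498779) (nat_lit 0))))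
def n8720 : Nd := .arc (nat_lit 3) n8703 (.arc (nat_lit 40) n8670 (.arc (nat_lit 43) n8674 (.arc (nat_lit 46) n8677 (.fin (nat_lit 72011933) (nat_lit 0)))))
def n8721 : Nd := .arc (nat_lit 3) n8712 (.fin (nat_lit 137547931) (nat_lit 0))
def n8722 : Nd := .arc (nat_lit 6) n8720 (.arc (nat_lit 9) n8721 (.fin (nat_lit 271200407) (nat_lit 0)))
def n8723 : Nd := .arc (nat_lit 3) n8717 (.arc (nat_lit 6) n8716 (.fin (nat_lit 137531547) (nat_lit 0)))
def n8724 : Nd := .arc (nat_lit 3) n8705 (.arc (nat_lit 9) n8704 (.fin (nat_lit 71979165) (nat_lit 0)))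
def n8725 : Nd := .arc (nat_lit 3) n8722 (.arc (nat_lit 6) n8723 (.arc (nat_lit 9) n8724 (.fin (nat_lit 542249113) (nat_lit 0))))
def n8726 : Nd := .arc (nat_lit 6) n8721 (.arc (nat_lit 9) n8720 (.fin (nat_lit 542257305) (nat_lit 0)))
def n8727 : Nd := .arc (nat_lit 3) n8708 (.arc (nat_lit 6) n8707 (.fin (nat_lit 71995549) (nat_lit 0)))
def n8728 : Nd := .arc (nat_lit 3) n8714 (.arc (nat_lit 9) n8713 (.fin (nat_lit 137515163) (nat_lit 0)))
def n8729 : Nd := .arc (nat_lit 3) n8726 (.arc (nat_lit 6) n8727 (.arc (nat_lit 9) n8728 (.fin (nat_lit 271192215) (nat_lit 0))))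
def n8730 : Nd := .arc (nat_lit 26) n8057 (.arc (nat_lit 29) n8053 (.arc (nat_lit 32) n8047 (.arc (nat_lit 35) n8038 (.arc (nat_lit 38) n8025 (.arc (nat_lit 41) n8021 (.arc (nat_lit 44) n8015 (.arc (nat_lit 47) n8006 (.arc (nat_lit 50) n7993 (.arc (nat_lit 53) n7989 (.arc (nat_lit 56) n7983 (.arc (nat_lit 59) n7974 (.fin (nat_lit 541520021) (nat_lit 0)))))))))))))
def n8731 : Nd := .arc (nat_lit 3) n8730 (.arc (nat_lit 40) n8054 (.arc (nat_lit 43) n8055 (.arc (nat_lit 46) n8056 (.fin (nat_lit 270979221) (nat_lit 0)))))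
def n8732 : Nd := .arc (nat_lit 26) n8025 (.arc (nat_lit 29) n8021 (.arc (nat_lit 32) n8006 (.arc (nat_lit 35) n8015 (.arc (nat_lit 38) n8057 (.arc (nat_lit 41) n8053 (.arc (nat_lit 44) n8038 (.arc (nat_lit 47) n8047 (.arc (nat_lit 62) n7993 (.arc (nat_lit 65) n7989 (.arc (nat_lit 68) n7974 (.arc (nat_lit 71) n7983 (.fin (nat_lit 270987413) (nat_lit 0)))))))))))))
def n8733 : Nd := .arc (nat_lit 3) n8732 (.arc (nat_lit 40) n8022 (.arc (nat_lit 43) n8023 (.arc (nat_lit 46) n8024 (.fin (nat_lit 541511829) (nat_lit 0)))))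
def n8734 : Nd := .arc (nat_lit 6) n8731 (.arc (nat_lit 9) n8733 (.fin (nat_lit 135671957) (nat_lit 0)))
def n8735 : Nd := .arc (nat_lit 26) n7993 (.arc (nat_lit 29) n7989 (.arc (nat_lit 32) n7974 (.arc (nat_lit 35) n7983 (.arc (nat_lit 50) n8025 (.arc (nat_lit 53) n8021 (.arc (nat_lit 56) n8015 (.arc (nat_lit 59) n8006 (.arc (nat_lit 62) n8057 (.arc (nat_lit 65) n8053 (.arc (nat_lit 68) n8047 (.arc (nat_lit 71) n8038 (.fin (nat_lit 135721109) (nat_lit 0)))))))))))))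
def n8736 : Nd := .arc (nat_lit 9) n8735 (.arc (nat_lit 64) n7990 (.arc (nat_lit 67) n7992 (.arc (nat_lit 70) n7991 (.fin (nat_lit 270954645) (nat_lit 0)))))
def n8737 : Nd := .arc (nat_lit 6) n8732 (.arc (nat_lit 52) n8022 (.arc (nat_lit 55) n8023 (.arc (nat_lit 58) n8024 (.fin (nat_lit 135704725) (nat_lit 0)))))
def n8738 : Nd := .arc (nat_lit 3) n8736 (.arc (nat_lit 6) n8737 (.fin (nat_lit 541495445) (nat_lit 0)))
def n8739 : Nd := .arc (nat_lit 6) n8735 (.arc (nat_lit 52) n7990 (.arc (nat_lit 55) n7991 (.arc (nat_lit 58) n7992 (.fin (nat_lit 541503637) (nat_lit 0)))))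
def n8740 : Nd := .arc (nat_lit 9) n8730 (.arc (nat_lit 64) n8054 (.arc (nat_lit 67) n8056 (.arc (nat_lit 70) n8055 (.fin (nat_lit 135688341) (nat_lit 0)))))
def n8741 : Nd := .arc (nat_lit 3) n8739 (.arc (nat_lit 9) n8740 (.fin (nat_lit 270946453) (nat_lit 0)))
def n8742 : Nd := .arc (nat_lit 3) n8734 (.arc (nat_lit 6) n8738 (.arc (nat_lit 9) n8741 (.fin (nat_lit 68030613) (nat_lit 0))))
def n8743 : Nd := .arc (nat_lit 6) n8733 (.arc (nat_lit 9) n8731 (.fin (nat_lit 68038805) (nat_lit 0)))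
def n8744 : Nd := .arc (nat_lit 38) n7993 (.arc (nat_lit 41) n7989 (.arc (nat_lit 44) n7983 (.arc (nat_lit 47) n7974 (.arc (nat_lit 50) n8057 (.arc (nat_lit 53) n8053 (.arc (nat_lit 56) n8038 (.arc (nat_lit 59) n8047 (.arc (nat_lit 62) n8025 (.arc (nat_lit 65) n8021 (.arc (nat_lit 68) n8006 (.arc (nat_lit 71) n8015 (.fin (nat_lit 68087957) (nat_lit 0)))))))))))))
def n8745 : Nd := .arc (nat_lit 9) n8744 (.fin (nat_lit 541487253) (nat_lit 0))
def n8746 : Nd := .arc (nat_lit 6) n8730 (.arc (nat_lit 52) n8054 (.arc (nat_lit 55) n8055 (.arc (nat_lit 58) n8056 (.fin (nat_lit 68071573) (nat_lit 0)))))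
def n8747 : Nd := .arc (nat_lit 3) n8745 (.arc (nat_lit 6) n8746 (.fin (nat_lit 270962837) (nat_lit 0)))
def n8748 : Nd := .arc (nat_lit 6) n8744 (.fin (nat_lit 270971029) (nat_lit 0))
def n8749 : Nd := .arc (nat_lit 9) n8732 (.arc (nat_lit 64) n8022 (.arc (nat_lit 67) n8024 (.arc (nat_lit 70) n8023 (.fin (nat_lit 68055189) (nat_lit 0)))))
def n8750 : Nd := .arc (nat_lit 3) n8748 (.arc (nat_lit 9) n8749 (.fin (nat_lit 541479061) (nat_lit 0)))
def n8751 : Nd := .arc (nat_lit 3) n8743 (.arc (nat_lit 6) n8747 (.arc (nat_lit 9) n8750 (.fin (nat_lit 135663765) (nat_lit 0))))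
def n8752 : Nd := .arc (nat_lit 3) n8735 (.arc (nat_lit 40) n7990 (.arc (nat_lit 43) n7991 (.arc (nat_lit 46) n7992 (.fin (nat_lit 68079765) (nat_lit 0)))))
def n8753 : Nd := .arc (nat_lit 3) n8744 (.fin (nat_lit 135712917) (nat_lit 0))
def n8754 : Nd := .arc (nat_lit 6) n8752 (.arc (nat_lit 9) n8753 (.fin (nat_lit 270938261) (nat_lit 0)))
def n8755 : Nd := .arc (nat_lit 3) n8749 (.arc (nat_lit 6) n8748 (.fin (nat_lit 135696533) (nat_lit 0)))
def n8756 : Nd := .arc (nat_lit 3) n8737 (.arc (nat_lit 9) n8736 (.fin (nat_lit 68046997) (nat_lit 0)))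
def n8757 : Nd := .arc (nat_lit 3) n8754 (.arc (nat_lit 6) n8755 (.arc (nat_lit 9) n8756 (.fin (nat_lit 541462677) (nat_lit 0))))
def n8758 : Nd := .arc (nat_lit 6) n8753 (.arc (nat_lit 9) n8752 (.fin (nat_lit 541470869) (nat_lit 0)))
def n8759 : Nd := .arc (nat_lit 3) n8740 (.arc (nat_lit 6) n8739 (.fin (nat_lit 68063381) (nat_lit 0)))
def n8760 : Nd := .arc (nat_lit 3) n8746 (.arc (nat_lit 9) n8745 (.fin (nat_lit 135680149) (nat_lit 0)))
def n8761 : Nd := .arc (nat_lit 3) n8758 (.arc (nat_lit 6) n8759 (.arc (nat_lit 9) n8760 (.fin (nat_lit 270930069) (nat_lit 0))))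
def n8762 : Nd := .arc (nat_lit 14) n8390 (.arc (nat_lit 17) n8399 (.arc (nat_lit 20) n8405 (.arc (nat_lit 23) n8409 (.arc (nat_lit 26) n8582 (.arc (nat_lit 29) n8591 (.arc (nat_lit 32) n8597 (.arc (nat_lit 35) n8601 (.arc (nat_lit 38) n8710 (.arc (nat_lit 41) n8719 (.arc (nat_lit 44) n8725 (.arc (nat_lit 47) n8729 (.arc (nat_lit 50) n8742 (.arc (nat_lit 53) n8751 (.arc (nat_lit 56) n8757 (.arc (nat_lit 59) n8761 (.fin (nat_lit 21164189) (nat_lit 0)))))))))))))))))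
def n8763 : Nd := .arc (nat_lit 3) n8762 (.arc (nat_lit 40) n8574 (.arc (nat_lit 43) n8578 (.arc (nat_lit 46) n8581 (.fin (nat_lit 19058843) (nat_lit 0)))))
def n8764 : Nd := .arc (nat_lit 14) n8399 (.arc (nat_lit 17) n8390 (.arc (nat_lit 20) n8409 (.arc (nat_lit 23) n8405 (.arc (nat_lit 26) n8710 (.arc (nat_lit 29) n8719 (.arc (nat_lit 32) n8729 (.arc (nat_lit 35) n8725 (.arc (nat_lit 38) n8582 (.arc (nat_lit 41) n8591 (.arc (nat_lit 44) n8601 (.arc (nat_lit 47) n8597 (.arc (nat_lit 62) n8742 (.arc (nat_lit 65) n8751 (.arc (nat_lit 68) n8761 (.arc (nat_lit 71) n8757 (.fin (nat_lit 19067035) (nat_lit 0)))))))))))))))))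
def n8765 : Nd := .arc (nat_lit 3) n8764 (.arc (nat_lit 40) n8702 (.arc (nat_lit 43) n8706 (.arc (nat_lit 46) n8709 (.fin (nat_lit 21155997) (nat_lit 0)))))
def n8766 : Nd := .arc (nat_lit 6) n8763 (.arc (nat_lit 9) n8765 (.fin (nat_lit 17969305) (nat_lit 0)))
def n8767 : Nd := .arc (nat_lit 14) n8405 (.arc (nat_lit 17) n8409 (.arc (nat_lit 20) n8399 (.arc (nat_lit 23) n8390 (.arc (nat_lit 26) n8742 (.arc (nat_lit 29) n8751 (.arc (nat_lit 32) n8761 (.arc (nat_lit 35) n8757 (.arc (nat_lit 50) n8710 (.arc (nat_lit 53) n8719 (.arc (nat_lit 56) n8725 (.arc (nat_lit 59) n8729 (.arc (nat_lit 62) n8582 (.arc (nat_lit 65) n8591 (.arc (nat_lit 68) n8597 (.arc (nat_lit 71) n8601 (.fin (nat_lit 18018457) (nat_lit 0)))))))))))))))))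
def n8768 : Nd := .arc (nat_lit 9) n8767 (.arc (nat_lit 64) n8734 (.arc (nat_lit 67) n8741 (.arc (nat_lit 70) n8738 (.fin (nat_lit 19034267) (nat_lit 0)))))
def n8769 : Nd := .arc (nat_lit 6) n8764 (.arc (nat_lit 52) n8702 (.arc (nat_lit 55) n8706 (.arc (nat_lit 58) n8709 (.fin (nat_lit 18002073) (nat_lit 0)))))
def n8770 : Nd := .arc (nat_lit 3) n8768 (.arc (nat_lit 6) n8769 (.fin (nat_lit 21139613) (nat_lit 0)))
def n8771 : Nd := .arc (nat_lit 6) n8767 (.arc (nat_lit 52) n8734 (.arc (nat_lit 55) n8738 (.arc (nat_lit 58) n8741 (.fin (nat_lit 21147805) (nat_lit 0)))))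
def n8772 : Nd := .arc (nat_lit 9) n8762 (.arc (nat_lit 64) n8574 (.arc (nat_lit 67) n8581 (.arc (nat_lit 70) n8578 (.fin (nat_lit 17985689) (nat_lit 0)))))
def n8773 : Nd := .arc (nat_lit 3) n8771 (.arc (nat_lit 9) n8772 (.fin (nat_lit 19026075) (nat_lit 0)))
def n8774 : Nd := .arc (nat_lit 3) n8766 (.arc (nat_lit 6) n8770 (.arc (nat_lit 9) n8773 (.fin (nat_lit 17436823) (nat_lit 0))))
def n8775 : Nd := .arc (nat_lit 6) n8765 (.arc (nat_lit 9) n8763 (.fin (nat_lit 17445015) (nat_lit 0)))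
def n8776 : Nd := .arc (nat_lit 14) n8409 (.arc (nat_lit 17) n8405 (.arc (nat_lit 20) n8390 (.arc (nat_lit 23) n8399 (.arc (nat_lit 38) n8742 (.arc (nat_lit 41) n8751 (.arc (nat_lit 44) n8757 (.arc (nat_lit 47) n8761 (.arc (nat_lit 50) n8582 (.arc (nat_lit 53) n8591 (.arc (nat_lit 56) n8601 (.arc (nat_lit 59) n8597 (.arc (nat_lit 62) n8710 (.arc (nat_lit 65) n8719 (.arc (nat_lit 68) n8729 (.arc (nat_lit 71) n8725 (.fin (nat_lit 17494167) (nat_lit 0)))))))))))))))))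
def n8777 : Nd := .arc (nat_lit 9) n8776 (.fin (nat_lit 21131421) (nat_lit 0))
def n8778 : Nd := .arc (nat_lit 6) n8762 (.arc (nat_lit 52) n8574 (.arc (nat_lit 55) n8578 (.arc (nat_lit 58) n8581 (.fin (nat_lit 17477783) (nat_lit 0)))))
def n8779 : Nd := .arc (nat_lit 3) n8777 (.arc (nat_lit 6) n8778 (.fin (nat_lit 19042459) (nat_lit 0)))
def n8780 : Nd := .arc (nat_lit 6) n8776 (.fin (nat_lit 19050651) (nat_lit 0))
def n8781 : Nd := .arc (nat_lit 9) n8764 (.arc (nat_lit 64) n8702 (.arc (nat_lit 67) n8709 (.arc (nat_lit 70) n8706 (.fin (nat_lit 17461399) (nat_lit 0)))))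
def n8782 : Nd := .arc (nat_lit 3) n8780 (.arc (nat_lit 9) n8781 (.fin (nat_lit 21123229) (nat_lit 0)))
def n8783 : Nd := .arc (nat_lit 3) n8775 (.arc (nat_lit 6) n8779 (.arc (nat_lit 9) n8782 (.fin (nat_lit 17961113) (nat_lit 0))))
def n8784 : Nd := .arc (nat_lit 3) n8776 (.fin (nat_lit 18010265) (nat_lit 0))
def n8785 : Nd := .arc (nat_lit 3) n8767 (.arc (nat_lit 40) n8734 (.arc (nat_lit 43) n8738 (.arc (nat_lit 46) n8741 (.fin (nat_lit 17485975) (nat_lit 0)))))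
def n8786 : Nd := .arc (nat_lit 6) n8784 (.arc (nat_lit 9) n8785 (.fin (nat_lit 21115037) (nat_lit 0)))
def n8787 : Nd := .arc (nat_lit 3) n8772 (.arc (nat_lit 6) n8771 (.fin (nat_lit 17469591) (nat_lit 0)))
def n8788 : Nd := .arc (nat_lit 3) n8778 (.arc (nat_lit 9) n8777 (.fin (nat_lit 17977497) (nat_lit 0)))
def n8789 : Nd := .arc (nat_lit 3) n8786 (.arc (nat_lit 6) n8787 (.arc (nat_lit 9) n8788 (.fin (nat_lit 19009691) (nat_lit 0))))
def n8790 : Nd := .arc (nat_lit 6) n8785 (.arc (nat_lit 9) n8784 (.fin (nat_lit 19017883) (nat_lit 0)))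
def n8791 : Nd := .arc (nat_lit 3) n8781 (.arc (nat_lit 6) n8780 (.fin (nat_lit 17993881) (nat_lit 0)))
def n8792 : Nd := .arc (nat_lit 3) n8769 (.arc (nat_lit 9) n8768 (.fin (nat_lit 17453207) (nat_lit 0)))
def n8793 : Nd := .arc (nat_lit 3) n8790 (.arc (nat_lit 6) n8791 (.arc (nat_lit 9) n8792 (.fin (nat_lit 21106845) (nat_lit 0))))
def n8794 : Nd := .arc (nat_lit 38) n8143 (.arc (nat_lit 41) n8134 (.arc (nat_lit 44) n8153 (.arc (nat_lit 47) n8149 (.arc (nat_lit 50) n8367 (.arc (nat_lit 53) n8358 (.arc (nat_lit 56) n8373 (.arc (nat_lit 59) n8377 (.arc (nat_lit 62) n8271 (.arc (nat_lit 65) n8262 (.arc (nat_lit 68) n8277 (.arc (nat_lit 71) n8281 (.fin (nat_lit 17756311) (nat_lit 0)))))))))))))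
def n8795 : Nd := .arc (nat_lit 3) n8794 (.fin (nat_lit 18272409) (nat_lit 0))
def n8796 : Nd := .arc (nat_lit 26) n8143 (.arc (nat_lit 29) n8134 (.arc (nat_lit 32) n8149 (.arc (nat_lit 35) n8153 (.arc (nat_lit 50) n8271 (.arc (nat_lit 53) n8262 (.arc (nat_lit 56) n8281 (.arc (nat_lit 59) n8277 (.arc (nat_lit 62) n8367 (.arc (nat_lit 65) n8358 (.arc (nat_lit 68) n8377 (.arc (nat_lit 71) n8373 (.fin (nat_lit 18280601) (nat_lit 0)))))))))))))
def n8797 : Nd := .arc (nat_lit 3) n8796 (.arc (nat_lit 40) n8135 (.arc (nat_lit 43) n8139 (.arc (nat_lit 46) n8142 (.fin (nat_lit 17748119) (nat_lit 0)))))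
def n8798 : Nd := .arc (nat_lit 6) n8795 (.arc (nat_lit 9) n8797 (.fin (nat_lit 21377181) (nat_lit 0)))
def n8799 : Nd := .arc (nat_lit 26) n8367 (.arc (nat_lit 29) n8358 (.arc (nat_lit 32) n8377 (.arc (nat_lit 35) n8373 (.arc (nat_lit 38) n8271 (.arc (nat_lit 41) n8262 (.arc (nat_lit 44) n8281 (.arc (nat_lit 47) n8277 (.arc (nat_lit 50) n8143 (.arc (nat_lit 53) n8134 (.arc (nat_lit 56) n8153 (.arc (nat_lit 59) n8149 (.fin (nat_lit 21426333) (nat_lit 0)))))))))))))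
def n8800 : Nd := .arc (nat_lit 9) n8799 (.arc (nat_lit 64) n8359 (.arc (nat_lit 67) n8366 (.arc (nat_lit 70) n8363 (.fin (nat_lit 18247833) (nat_lit 0)))))
def n8801 : Nd := .arc (nat_lit 6) n8796 (.arc (nat_lit 52) n8135 (.arc (nat_lit 55) n8139 (.arc (nat_lit 58) n8142 (.fin (nat_lit 21409949) (nat_lit 0)))))
def n8802 : Nd := .arc (nat_lit 3) n8800 (.arc (nat_lit 6) n8801 (.fin (nat_lit 17731735) (nat_lit 0)))
def n8803 : Nd := .arc (nat_lit 6) n8799 (.arc (nat_lit 52) n8359 (.arc (nat_lit 55) n8363 (.arc (nat_lit 58) n8366 (.fin (nat_lit 17739927) (nat_lit 0)))))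
def n8804 : Nd := .arc (nat_lit 9) n8794 (.fin (nat_lit 21393565) (nat_lit 0))
def n8805 : Nd := .arc (nat_lit 3) n8803 (.arc (nat_lit 9) n8804 (.fin (nat_lit 18239641) (nat_lit 0)))
def n8806 : Nd := .arc (nat_lit 3) n8798 (.arc (nat_lit 6) n8802 (.arc (nat_lit 9) n8805 (.fin (nat_lit 19271835) (nat_lit 0))))
def n8807 : Nd := .arc (nat_lit 6) n8797 (.arc (nat_lit 9) n8795 (.fin (nat_lit 19280027) (nat_lit 0)))
def n8808 : Nd := .arc (nat_lit 26) n8271 (.arc (nat_lit 29) n8262 (.arc (nat_lit 32) n8277 (.arc (nat_lit 35) n8281 (.arc (nat_lit 38) n8367 (.arc (nat_lit 41) n8358 (.arc (nat_lit 44) n8373 (.arc (nat_lit 47) n8377 (.arc (nat_lit 62) n8143 (.arc (nat_lit 65) n8134 (.arc (nat_lit 68) n8149 (.arc (nat_lit 71) n8153 (.fin (nat_lit 19329179) (nat_lit 0)))))))))))))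
def n8809 : Nd := .arc (nat_lit 9) n8808 (.arc (nat_lit 64) n8263 (.arc (nat_lit 67) n8270 (.arc (nat_lit 70) n8267 (.fin (nat_lit 17723543) (nat_lit 0)))))
def n8810 : Nd := .arc (nat_lit 6) n8794 (.fin (nat_lit 19312795) (nat_lit 0))
def n8811 : Nd := .arc (nat_lit 3) n8809 (.arc (nat_lit 6) n8810 (.fin (nat_lit 18256025) (nat_lit 0)))
def n8812 : Nd := .arc (nat_lit 6) n8808 (.arc (nat_lit 52) n8263 (.arc (nat_lit 55) n8267 (.arc (nat_lit 58) n8270 (.fin (nat_lit 18264217) (nat_lit 0)))))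
def n8813 : Nd := .arc (nat_lit 9) n8796 (.arc (nat_lit 64) n8135 (.arc (nat_lit 67) n8142 (.arc (nat_lit 70) n8139 (.fin (nat_lit 19296411) (nat_lit 0)))))
def n8814 : Nd := .arc (nat_lit 3) n8812 (.arc (nat_lit 9) n8813 (.fin (nat_lit 17715351) (nat_lit 0)))
def n8815 : Nd := .arc (nat_lit 3) n8807 (.arc (nat_lit 6) n8811 (.arc (nat_lit 9) n8814 (.fin (nat_lit 21368989) (nat_lit 0))))
def n8816 : Nd := .arc (nat_lit 3) n8808 (.arc (nat_lit 40) n8263 (.arc (nat_lit 43) n8267 (.arc (nat_lit 46) n8270 (.fin (nat_lit 21418141) (nat_lit 0)))))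
def n8817 : Nd := .arc (nat_lit 3) n8799 (.arc (nat_lit 40) n8359 (.arc (nat_lit 43) n8363 (.arc (nat_lit 46) n8366 (.fin (nat_lit 19320987) (nat_lit 0)))))
def n8818 : Nd := .arc (nat_lit 6) n8816 (.arc (nat_lit 9) n8817 (.fin (nat_lit 17707159) (nat_lit 0)))
def n8819 : Nd := .arc (nat_lit 3) n8804 (.arc (nat_lit 6) n8803 (.fin (nat_lit 19304603) (nat_lit 0)))
def n8820 : Nd := .arc (nat_lit 3) n8810 (.arc (nat_lit 9) n8809 (.fin (nat_lit 21385373) (nat_lit 0)))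
def n8821 : Nd := .arc (nat_lit 3) n8818 (.arc (nat_lit 6) n8819 (.arc (nat_lit 9) n8820 (.fin (nat_lit 18223257) (nat_lit 0))))
def n8822 : Nd := .arc (nat_lit 6) n8817 (.arc (nat_lit 9) n8816 (.fin (nat_lit 18231449) (nat_lit 0)))
def n8823 : Nd := .arc (nat_lit 3) n8813 (.arc (nat_lit 6) n8812 (.fin (nat_lit 21401757) (nat_lit 0)))
def n8824 : Nd := .arc (nat_lit 3) n8801 (.arc (nat_lit 9) n8800 (.fin (nat_lit 19288219) (nat_lit 0)))
def n8825 : Nd := .arc (nat_lit 3) n8822 (.arc (nat_lit 6) n8823 (.arc (nat_lit 9) n8824 (.fin (nat_lit 17698967) (nat_lit 0))))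
def n8826 : Nd := .arc (nat_lit 26) n8185 (.arc (nat_lit 29) n8181 (.arc (nat_lit 32) n8175 (.arc (nat_lit 35) n8166 (.fin (nat_lit 24572057) (nat_lit 0)))))
def n8827 : Nd := .arc (nat_lit 3) n8826 (.arc (nat_lit 40) n8182 (.arc (nat_lit 43) n8183 (.arc (nat_lit 46) n8184 (.fin (nat_lit 24039575) (nat_lit 0)))))
def n8828 : Nd := .arc (nat_lit 38) n8185 (.arc (nat_lit 41) n8181 (.arc (nat_lit 44) n8166 (.arc (nat_lit 47) n8175 (.fin (nat_lit 24047767) (nat_lit 0)))))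
def n8829 : Nd := .arc (nat_lit 3) n8828 (.fin (nat_lit 24563865) (nat_lit 0))
def n8830 : Nd := .arc (nat_lit 6) n8827 (.arc (nat_lit 9) n8829 (.fin (nat_lit 20852891) (nat_lit 0)))
def n8831 : Nd := .arc (nat_lit 62) n8185 (.arc (nat_lit 65) n8181 (.arc (nat_lit 68) n8175 (.arc (nat_lit 71) n8166 (.fin (nat_lit 20902043) (nat_lit 0)))))
def n8832 : Nd := .arc (nat_lit 9) n8831 (.fin (nat_lit 24014999) (nat_lit 0))
def n8833 : Nd := .arc (nat_lit 6) n8828 (.fin (nat_lit 20885659) (nat_lit 0))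
def n8834 : Nd := .arc (nat_lit 3) n8832 (.arc (nat_lit 6) n8833 (.fin (nat_lit 24547481) (nat_lit 0)))
def n8835 : Nd := .arc (nat_lit 6) n8831 (.fin (nat_lit 24555673) (nat_lit 0))
def n8836 : Nd := .arc (nat_lit 9) n8826 (.arc (nat_lit 64) n8182 (.arc (nat_lit 67) n8184 (.arc (nat_lit 70) n8183 (.fin (nat_lit 20869275) (nat_lit 0)))))
def n8837 : Nd := .arc (nat_lit 3) n8835 (.arc (nat_lit 9) n8836 (.fin (nat_lit 24006807) (nat_lit 0)))
def n8838 : Nd := .arc (nat_lit 3) n8830 (.arc (nat_lit 6) n8834 (.arc (nat_lit 9) n8837 (.fin (nat_lit 22941853) (nat_lit 0))))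
def n8839 : Nd := .arc (nat_lit 6) n8829 (.arc (nat_lit 9) n8827 (.fin (nat_lit 22950045) (nat_lit 0)))
def n8840 : Nd := .arc (nat_lit 50) n8185 (.arc (nat_lit 53) n8181 (.arc (nat_lit 56) n8166 (.arc (nat_lit 59) n8175 (.fin (nat_lit 22999197) (nat_lit 0)))))
def n8841 : Nd := .arc (nat_lit 9) n8840 (.fin (nat_lit 24539289) (nat_lit 0))
def n8842 : Nd := .arc (nat_lit 6) n8826 (.arc (nat_lit 52) n8182 (.arc (nat_lit 55) n8183 (.arc (nat_lit 58) n8184 (.fin (nat_lit 22982813) (nat_lit 0)))))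
def n8843 : Nd := .arc (nat_lit 3) n8841 (.arc (nat_lit 6) n8842 (.fin (nat_lit 24023191) (nat_lit 0)))
def n8844 : Nd := .arc (nat_lit 6) n8840 (.fin (nat_lit 24031383) (nat_lit 0))
def n8845 : Nd := .arc (nat_lit 9) n8828 (.fin (nat_lit 22966429) (nat_lit 0))
def n8846 : Nd := .arc (nat_lit 3) n8844 (.arc (nat_lit 9) n8845 (.fin (nat_lit 24531097) (nat_lit 0)))
def n8847 : Nd := .arc (nat_lit 3) n8839 (.arc (nat_lit 6) n8843 (.arc (nat_lit 9) n8846 (.fin (nat_lit 20844699) (nat_lit 0))))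
def n8848 : Nd := .arc (nat_lit 3) n8831 (.fin (nat_lit 22991005) (nat_lit 0))
def n8849 : Nd := .arc (nat_lit 3) n8840 (.fin (nat_lit 20893851) (nat_lit 0))
def n8850 : Nd := .arc (nat_lit 6) n8848 (.arc (nat_lit 9) n8849 (.fin (nat_lit 23998615) (nat_lit 0)))
def n8851 : Nd := .arc (nat_lit 3) n8845 (.arc (nat_lit 6) n8844 (.fin (nat_lit 20877467) (nat_lit 0)))
def n8852 : Nd := .arc (nat_lit 3) n8833 (.arc (nat_lit 9) n8832 (.fin (nat_lit 22958237) (nat_lit 0)))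
def n8853 : Nd := .arc (nat_lit 3) n8850 (.arc (nat_lit 6) n8851 (.arc (nat_lit 9) n8852 (.fin (nat_lit 24514713) (nat_lit 0))))
def n8854 : Nd := .arc (nat_lit 6) n8849 (.arc (nat_lit 9) n8848 (.fin (nat_lit 24522905) (nat_lit 0)))
def n8855 : Nd := .arc (nat_lit 3) n8836 (.arc (nat_lit 6) n8835 (.fin (nat_lit 22974621) (nat_lit 0)))
def n8856 : Nd := .arc (nat_lit 3) n8842 (.arc (nat_lit 9) n8841 (.fin (nat_lit 20861083) (nat_lit 0)))
def n8857 : Nd := .arc (nat_lit 3) n8854 (.arc (nat_lit 6) n8855 (.arc (nat_lit 9) n8856 (.fin (nat_lit 23990423) (nat_lit 0))))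
def n8858 : Nd := .arc (nat_lit 38) n7078 (.arc (nat_lit 41) n7087 (.arc (nat_lit 44) n7097 (.arc (nat_lit 47) n7093 (.fin (nat_lit 141488277) (nat_lit 0)))))
def n8859 : Nd := .arc (nat_lit 3) n8858 (.fin (nat_lit 74895509) (nat_lit 0))
def n8860 : Nd := .arc (nat_lit 26) n7078 (.arc (nat_lit 29) n7087 (.arc (nat_lit 32) n7093 (.arc (nat_lit 35) n7097 (.fin (nat_lit 74903701) (nat_lit 0)))))
def n8861 : Nd := .arc (nat_lit 3) n8860 (.arc (nat_lit 40) n7070 (.arc (nat_lit 43) n7074 (.arc (nat_lit 46) n7077 (.fin (nat_lit 141480085) (nat_lit 0)))))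
def n8862 : Nd := .arc (nat_lit 6) n8859 (.arc (nat_lit 9) n8861 (.fin (nat_lit 274608277) (nat_lit 0)))
def n8863 : Nd := .arc (nat_lit 50) n7078 (.arc (nat_lit 53) n7087 (.arc (nat_lit 56) n7097 (.arc (nat_lit 59) n7093 (.fin (nat_lit 274657429) (nat_lit 0)))))
def n8864 : Nd := .arc (nat_lit 9) n8863 (.fin (nat_lit 74870933) (nat_lit 0))
def n8865 : Nd := .arc (nat_lit 6) n8860 (.arc (nat_lit 52) n7070 (.arc (nat_lit 55) n7074 (.arc (nat_lit 58) n7077 (.fin (nat_lit 274641045) (nat_lit 0)))))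
def n8866 : Nd := .arc (nat_lit 3) n8864 (.arc (nat_lit 6) n8865 (.fin (nat_lit 141463701) (nat_lit 0)))
def n8867 : Nd := .arc (nat_lit 6) n8863 (.fin (nat_lit 141471893) (nat_lit 0))
def n8868 : Nd := .arc (nat_lit 9) n8858 (.fin (nat_lit 274624661) (nat_lit 0))
def n8869 : Nd := .arc (nat_lit 3) n8867 (.arc (nat_lit 9) n8868 (.fin (nat_lit 74862741) (nat_lit 0)))
def n8870 : Nd := .arc (nat_lit 3) n8862 (.arc (nat_lit 6) n8866 (.arc (nat_lit 9) n8869 (.fin (nat_lit 540938389) (nat_lit 0))))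
def n8871 : Nd := .arc (nat_lit 6) n8861 (.arc (nat_lit 9) n8859 (.fin (nat_lit 540946581) (nat_lit 0)))
def n8872 : Nd := .arc (nat_lit 62) n7078 (.arc (nat_lit 65) n7087 (.arc (nat_lit 68) n7093 (.arc (nat_lit 71) n7097 (.fin (nat_lit 540995733) (nat_lit 0)))))
def n8873 : Nd := .arc (nat_lit 9) n8872 (.fin (nat_lit 141455509) (nat_lit 0))
def n8874 : Nd := .arc (nat_lit 6) n8858 (.fin (nat_lit 540979349) (nat_lit 0))
def n8875 : Nd := .arc (nat_lit 3) n8873 (.arc (nat_lit 6) n8874 (.fin (nat_lit 74879125) (nat_lit 0)))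
def n8876 : Nd := .arc (nat_lit 6) n8872 (.fin (nat_lit 74887317) (nat_lit 0))
def n8877 : Nd := .arc (nat_lit 9) n8860 (.arc (nat_lit 64) n7070 (.arc (nat_lit 67) n7077 (.arc (nat_lit 70) n7074 (.fin (nat_lit 540962965) (nat_lit 0)))))
def n8878 : Nd := .arc (nat_lit 3) n8876 (.arc (nat_lit 9) n8877 (.fin (nat_lit 141447317) (nat_lit 0)))
def n8879 : Nd := .arc (nat_lit 3) n8871 (.arc (nat_lit 6) n8875 (.arc (nat_lit 9) n8878 (.fin (nat_lit 274600085) (nat_lit 0))))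
def n8880 : Nd := .arc (nat_lit 3) n8863 (.fin (nat_lit 540987541) (nat_lit 0))
def n8881 : Nd := .arc (nat_lit 3) n8872 (.fin (nat_lit 274649237) (nat_lit 0))
def n8882 : Nd := .arc (nat_lit 6) n8880 (.arc (nat_lit 9) n8881 (.fin (nat_lit 74854549) (nat_lit 0)))
def n8883 : Nd := .arc (nat_lit 3) n8877 (.arc (nat_lit 6) n8876 (.fin (nat_lit 274632853) (nat_lit 0)))
def n8884 : Nd := .arc (nat_lit 3) n8865 (.arc (nat_lit 9) n8864 (.fin (nat_lit 540954773) (nat_lit 0)))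
def n8885 : Nd := .arc (nat_lit 3) n8882 (.arc (nat_lit 6) n8883 (.arc (nat_lit 9) n8884 (.fin (nat_lit 141430933) (nat_lit 0))))
def n8886 : Nd := .arc (nat_lit 6) n8881 (.arc (nat_lit 9) n8880 (.fin (nat_lit 141439125) (nat_lit 0)))
def n8887 : Nd := .arc (nat_lit 3) n8868 (.arc (nat_lit 6) n8867 (.fin (nat_lit 540971157) (nat_lit 0)))
def n8888 : Nd := .arc (nat_lit 3) n8874 (.arc (nat_lit 9) n8873 (.fin (nat_lit 274616469) (nat_lit 0)))
def n8889 : Nd := .arc (nat_lit 3) n8886 (.arc (nat_lit 6) n8887 (.arc (nat_lit 9) n8888 (.fin (nat_lit 74846357) (nat_lit 0))))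
def n8890 : Nd := .arc (nat_lit 38) n8838 (.arc (nat_lit 41) n8847 (.arc (nat_lit 44) n8853 (.arc (nat_lit 47) n8857 (.arc (nat_lit 50) n8870 (.arc (nat_lit 53) n8879 (.arc (nat_lit 56) n8885 (.arc (nat_lit 59) n8889 (.fin (nat_lit 139391133) (nat_lit 0)))))))))
def n8891 : Nd := .arc (nat_lit 3) n8890 (.fin (nat_lit 70701211) (nat_lit 0))
def n8892 : Nd := .arc (nat_lit 26) n8838 (.arc (nat_lit 29) n8847 (.arc (nat_lit 32) n8857 (.arc (nat_lit 35) n8853 (.arc (nat_lit 62) n8870 (.arc (nat_lit 65) n8879 (.arc (nat_lit 68) n8889 (.arc (nat_lit 71) n8885 (.fin (nat_lit 70709403) (nat_lit 0)))))))))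
def n8893 : Nd := .arc (nat_lit 3) n8892 (.arc (nat_lit 40) n8830 (.arc (nat_lit 43) n8834 (.arc (nat_lit 46) n8837 (.fin (nat_lit 139382941) (nat_lit 0)))))
def n8894 : Nd := .arc (nat_lit 6) n8891 (.arc (nat_lit 9) n8893 (.fin (nat_lit 274083993) (nat_lit 0)))
def n8895 : Nd := .arc (nat_lit 26) n8870 (.arc (nat_lit 29) n8879 (.arc (nat_lit 32) n8889 (.arc (nat_lit 35) n8885 (.arc (nat_lit 50) n8838 (.arc (nat_lit 53) n8847 (.arc (nat_lit 56) n8853 (.arc (nat_lit 59) n8857 (.fin (nat_lit 274133145) (nat_lit 0)))))))))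
def n8896 : Nd := .arc (nat_lit 9) n8895 (.arc (nat_lit 64) n8862 (.arc (nat_lit 67) n8869 (.arc (nat_lit 70) n8866 (.fin (nat_lit 70676635) (nat_lit 0)))))
def n8897 : Nd := .arc (nat_lit 6) n8892 (.arc (nat_lit 52) n8830 (.arc (nat_lit 55) n8834 (.arc (nat_lit 58) n8837 (.fin (nat_lit 274116761) (nat_lit 0)))))
def n8898 : Nd := .arc (nat_lit 3) n8896 (.arc (nat_lit 6) n8897 (.fin (nat_lit 139366557) (nat_lit 0)))
def n8899 : Nd := .arc (nat_lit 6) n8895 (.arc (nat_lit 52) n8862 (.arc (nat_lit 55) n8866 (.arc (nat_lit 58) n8869 (.fin (nat_lit 139374749) (nat_lit 0)))))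
def n8900 : Nd := .arc (nat_lit 9) n8890 (.fin (nat_lit 274100377) (nat_lit 0))
def n8901 : Nd := .arc (nat_lit 3) n8899 (.arc (nat_lit 9) n8900 (.fin (nat_lit 70668443) (nat_lit 0)))
def n8902 : Nd := .arc (nat_lit 3) n8894 (.arc (nat_lit 6) n8898 (.arc (nat_lit 9) n8901 (.fin (nat_lit 539889815) (nat_lit 0))))
def n8903 : Nd := .arc (nat_lit 6) n8893 (.arc (nat_lit 9) n8891 (.fin (nat_lit 539898007) (nat_lit 0)))
def n8904 : Nd := .arc (nat_lit 38) n8870 (.arc (nat_lit 41) n8879 (.arc (nat_lit 44) n8885 (.arc (nat_lit 47) n8889 (.arc (nat_lit 62) n8838 (.arc (nat_lit 65) n8847 (.arc (nat_lit 68) n8857 (.arc (nat_lit 71) n8853 (.fin (nat_lit 539947159) (nat_lit 0)))))))))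
def n8905 : Nd := .arc (nat_lit 9) n8904 (.fin (nat_lit 139358365) (nat_lit 0))
def n8906 : Nd := .arc (nat_lit 6) n8890 (.fin (nat_lit 539930775) (nat_lit 0))
def n8907 : Nd := .arc (nat_lit 3) n8905 (.arc (nat_lit 6) n8906 (.fin (nat_lit 70684827) (nat_lit 0)))
def n8908 : Nd := .arc (nat_lit 6) n8904 (.fin (nat_lit 70693019) (nat_lit 0))
def n8909 : Nd := .arc (nat_lit 9) n8892 (.arc (nat_lit 64) n8830 (.arc (nat_lit 67) n8837 (.arc (nat_lit 70) n8834 (.fin (nat_lit 539914391) (nat_lit 0)))))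
def n8910 : Nd := .arc (nat_lit 3) n8908 (.arc (nat_lit 9) n8909 (.fin (nat_lit 139350173) (nat_lit 0)))
def n8911 : Nd := .arc (nat_lit 3) n8903 (.arc (nat_lit 6) n8907 (.arc (nat_lit 9) n8910 (.fin (nat_lit 274075801) (nat_lit 0))))
def n8912 : Nd := .arc (nat_lit 3) n8904 (.fin (nat_lit 274124953) (nat_lit 0))
def n8913 : Nd := .arc (nat_lit 3) n8895 (.arc (nat_lit 40) n8862 (.arc (nat_lit 43) n8866 (.arc (nat_lit 46) n8869 (.fin (nat_lit 539938967) (nat_lit 0)))))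
def n8914 : Nd := .arc (nat_lit 6) n8912 (.arc (nat_lit 9) n8913 (.fin (nat_lit 139341981) (nat_lit 0)))
def n8915 : Nd := .arc (nat_lit 3) n8900 (.arc (nat_lit 6) n8899 (.fin (nat_lit 539922583) (nat_lit 0)))
def n8916 : Nd := .arc (nat_lit 3) n8906 (.arc (nat_lit 9) n8905 (.fin (nat_lit 274092185) (nat_lit 0)))
def n8917 : Nd := .arc (nat_lit 3) n8914 (.arc (nat_lit 6) n8915 (.arc (nat_lit 9) n8916 (.fin (nat_lit 70652059) (nat_lit 0))))
def n8918 : Nd := .arc (nat_lit 6) n8913 (.arc (nat_lit 9) n8912 (.fin (nat_lit 70660251) (nat_lit 0)))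
def n8919 : Nd := .arc (nat_lit 3) n8909 (.arc (nat_lit 6) n8908 (.fin (nat_lit 274108569) (nat_lit 0)))
def n8920 : Nd := .arc (nat_lit 3) n8897 (.arc (nat_lit 9) n8896 (.fin (nat_lit 539906199) (nat_lit 0)))
def n8921 : Nd := .arc (nat_lit 3) n8918 (.arc (nat_lit 6) n8919 (.arc (nat_lit 9) n8920 (.fin (nat_lit 139333789) (nat_lit 0))))
def n8922 : Nd := .arc (nat_lit 26) n7558 (.arc (nat_lit 29) n7567 (.arc (nat_lit 32) n7573 (.arc (nat_lit 35) n7577 (.arc (nat_lit 50) n7605 (.arc (nat_lit 53) n7609 (.arc (nat_lit 56) n7599 (.arc (nat_lit 59) n7590 (.fin (nat_lit 72806549) (nat_lit 0)))))))))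
def n8923 : Nd := .arc (nat_lit 3) n8922 (.arc (nat_lit 40) n7550 (.arc (nat_lit 43) n7554 (.arc (nat_lit 46) n7557 (.fin (nat_lit 137285781) (nat_lit 0)))))
def n8924 : Nd := .arc (nat_lit 38) n7558 (.arc (nat_lit 41) n7567 (.arc (nat_lit 44) n7577 (.arc (nat_lit 47) n7573 (.arc (nat_lit 62) n7605 (.arc (nat_lit 65) n7609 (.arc (nat_lit 68) n7590 (.arc (nat_lit 71) n7599 (.fin (nat_lit 137293973) (nat_lit 0)))))))))
def n8925 : Nd := .arc (nat_lit 3) n8924 (.fin (nat_lit 72798357) (nat_lit 0))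
def n8926 : Nd := .arc (nat_lit 6) n8923 (.arc (nat_lit 9) n8925 (.fin (nat_lit 540422293) (nat_lit 0)))
def n8927 : Nd := .arc (nat_lit 26) n7605 (.arc (nat_lit 29) n7609 (.arc (nat_lit 32) n7590 (.arc (nat_lit 35) n7599 (.arc (nat_lit 62) n7558 (.arc (nat_lit 65) n7567 (.arc (nat_lit 68) n7573 (.arc (nat_lit 71) n7577 (.fin (nat_lit 540471445) (nat_lit 0)))))))))
def n8928 : Nd := .arc (nat_lit 9) n8927 (.arc (nat_lit 64) n7602 (.arc (nat_lit 67) n7604 (.arc (nat_lit 70) n7603 (.fin (nat_lit 137261205) (nat_lit 0)))))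
def n8929 : Nd := .arc (nat_lit 6) n8924 (.fin (nat_lit 540455061) (nat_lit 0))
def n8930 : Nd := .arc (nat_lit 3) n8928 (.arc (nat_lit 6) n8929 (.fin (nat_lit 72781973) (nat_lit 0)))
def n8931 : Nd := .arc (nat_lit 6) n8927 (.arc (nat_lit 52) n7602 (.arc (nat_lit 55) n7603 (.arc (nat_lit 58) n7604 (.fin (nat_lit 72790165) (nat_lit 0)))))
def n8932 : Nd := .arc (nat_lit 9) n8922 (.arc (nat_lit 64) n7550 (.arc (nat_lit 67) n7557 (.arc (nat_lit 70) n7554 (.fin (nat_lit 540438677) (nat_lit 0)))))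
def n8933 : Nd := .arc (nat_lit 3) n8931 (.arc (nat_lit 9) n8932 (.fin (nat_lit 137253013) (nat_lit 0)))
def n8934 : Nd := .arc (nat_lit 3) n8926 (.arc (nat_lit 6) n8930 (.arc (nat_lit 9) n8933 (.fin (nat_lit 273551509) (nat_lit 0))))
def n8935 : Nd := .arc (nat_lit 6) n8925 (.arc (nat_lit 9) n8923 (.fin (nat_lit 273559701) (nat_lit 0)))
def n8936 : Nd := .arc (nat_lit 38) n7605 (.arc (nat_lit 41) n7609 (.arc (nat_lit 44) n7599 (.arc (nat_lit 47) n7590 (.arc (nat_lit 50) n7558 (.arc (nat_lit 53) n7567 (.arc (nat_lit 56) n7577 (.arc (nat_lit 59) n7573 (.fin (nat_lit 273608853) (nat_lit 0)))))))))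
def n8937 : Nd := .arc (nat_lit 9) n8936 (.fin (nat_lit 72773781) (nat_lit 0))
def n8938 : Nd := .arc (nat_lit 6) n8922 (.arc (nat_lit 52) n7550 (.arc (nat_lit 55) n7554 (.arc (nat_lit 58) n7557 (.fin (nat_lit 273592469) (nat_lit 0)))))
def n8939 : Nd := .arc (nat_lit 3) n8937 (.arc (nat_lit 6) n8938 (.fin (nat_lit 137269397) (nat_lit 0)))
def n8940 : Nd := .arc (nat_lit 6) n8936 (.fin (nat_lit 137277589) (nat_lit 0))
def n8941 : Nd := .arc (nat_lit 9) n8924 (.fin (nat_lit 273576085) (nat_lit 0))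
def n8942 : Nd := .arc (nat_lit 3) n8940 (.arc (nat_lit 9) n8941 (.fin (nat_lit 72765589) (nat_lit 0)))
def n8943 : Nd := .arc (nat_lit 3) n8935 (.arc (nat_lit 6) n8939 (.arc (nat_lit 9) n8942 (.fin (nat_lit 540414101) (nat_lit 0))))
def n8944 : Nd := .arc (nat_lit 3) n8927 (.arc (nat_lit 40) n7602 (.arc (nat_lit 43) n7603 (.arc (nat_lit 46) n7604 (.fin (nat_lit 273600661) (nat_lit 0)))))
def n8945 : Nd := .arc (nat_lit 3) n8936 (.fin (nat_lit 540463253) (nat_lit 0))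
def n8946 : Nd := .arc (nat_lit 6) n8944 (.arc (nat_lit 9) n8945 (.fin (nat_lit 137244821) (nat_lit 0)))
def n8947 : Nd := .arc (nat_lit 3) n8941 (.arc (nat_lit 6) n8940 (.fin (nat_lit 540446869) (nat_lit 0)))
def n8948 : Nd := .arc (nat_lit 3) n8929 (.arc (nat_lit 9) n8928 (.fin (nat_lit 273567893) (nat_lit 0)))
def n8949 : Nd := .arc (nat_lit 3) n8946 (.arc (nat_lit 6) n8947 (.arc (nat_lit 9) n8948 (.fin (nat_lit 72749205) (nat_lit 0))))
def n8950 : Nd := .arc (nat_lit 6) n8945 (.arc (nat_lit 9) n8944 (.fin (nat_lit 72757397) (nat_lit 0)))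
def n8951 : Nd := .arc (nat_lit 3) n8932 (.arc (nat_lit 6) n8931 (.fin (nat_lit 273584277) (nat_lit 0)))
def n8952 : Nd := .arc (nat_lit 3) n8938 (.arc (nat_lit 9) n8937 (.fin (nat_lit 540430485) (nat_lit 0)))
def n8953 : Nd := .arc (nat_lit 3) n8950 (.arc (nat_lit 6) n8951 (.arc (nat_lit 9) n8952 (.fin (nat_lit 137236629) (nat_lit 0))))
def n8954 : Nd := .arc (nat_lit 38) n8245 (.arc (nat_lit 41) n8249 (.arc (nat_lit 44) n8239 (.arc (nat_lit 47) n8230 (.arc (nat_lit 50) n8213 (.arc (nat_lit 53) n8217 (.arc (nat_lit 56) n8198 (.arc (nat_lit 59) n8207 (.fin (nat_lit 21950615) (nat_lit 0)))))))))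
def n8955 : Nd := .arc (nat_lit 3) n8954 (.fin (nat_lit 20369561) (nat_lit 0))
def n8956 : Nd := .arc (nat_lit 26) n8245 (.arc (nat_lit 29) n8249 (.arc (nat_lit 32) n8230 (.arc (nat_lit 35) n8239 (.arc (nat_lit 62) n8213 (.arc (nat_lit 65) n8217 (.arc (nat_lit 68) n8207 (.arc (nat_lit 71) n8198 (.fin (nat_lit 20377753) (nat_lit 0)))))))))
def n8957 : Nd := .arc (nat_lit 3) n8956 (.arc (nat_lit 40) n8242 (.arc (nat_lit 43) n8243 (.arc (nat_lit 46) n8244 (.fin (nat_lit 21942423) (nat_lit 0)))))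
def n8958 : Nd := .arc (nat_lit 6) n8955 (.arc (nat_lit 9) n8957 (.fin (nat_lit 22425757) (nat_lit 0)))
def n8959 : Nd := .arc (nat_lit 26) n8213 (.arc (nat_lit 29) n8217 (.arc (nat_lit 32) n8207 (.arc (nat_lit 35) n8198 (.arc (nat_lit 50) n8245 (.arc (nat_lit 53) n8249 (.arc (nat_lit 56) n8239 (.arc (nat_lit 59) n8230 (.fin (nat_lit 22474909) (nat_lit 0)))))))))
def n8960 : Nd := .arc (nat_lit 9) n8959 (.arc (nat_lit 64) n8210 (.arc (nat_lit 67) n8212 (.arc (nat_lit 70) n8211 (.fin (nat_lit 20344985) (nat_lit 0)))))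
def n8961 : Nd := .arc (nat_lit 6) n8956 (.arc (nat_lit 52) n8242 (.arc (nat_lit 55) n8243 (.arc (nat_lit 58) n8244 (.fin (nat_lit 22458525) (nat_lit 0)))))
def n8962 : Nd := .arc (nat_lit 3) n8960 (.arc (nat_lit 6) n8961 (.fin (nat_lit 21926039) (nat_lit 0)))
def n8963 : Nd := .arc (nat_lit 6) n8959 (.arc (nat_lit 52) n8210 (.arc (nat_lit 55) n8211 (.arc (nat_lit 58) n8212 (.fin (nat_lit 21934231) (nat_lit 0)))))
def n8964 : Nd := .arc (nat_lit 9) n8954 (.fin (nat_lit 22442141) (nat_lit 0))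
def n8965 : Nd := .arc (nat_lit 3) n8963 (.arc (nat_lit 9) n8964 (.fin (nat_lit 20336793) (nat_lit 0)))
def n8966 : Nd := .arc (nat_lit 3) n8958 (.arc (nat_lit 6) n8962 (.arc (nat_lit 9) n8965 (.fin (nat_lit 19796123) (nat_lit 0))))
def n8967 : Nd := .arc (nat_lit 6) n8957 (.arc (nat_lit 9) n8955 (.fin (nat_lit 19804315) (nat_lit 0)))
def n8968 : Nd := .arc (nat_lit 38) n8213 (.arc (nat_lit 41) n8217 (.arc (nat_lit 44) n8198 (.arc (nat_lit 47) n8207 (.arc (nat_lit 62) n8245 (.arc (nat_lit 65) n8249 (.arc (nat_lit 68) n8230 (.arc (nat_lit 71) n8239 (.fin (nat_lit 19853467) (nat_lit 0)))))))))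
def n8969 : Nd := .arc (nat_lit 9) n8968 (.fin (nat_lit 21917847) (nat_lit 0))
def n8970 : Nd := .arc (nat_lit 6) n8954 (.fin (nat_lit 19837083) (nat_lit 0))
def n8971 : Nd := .arc (nat_lit 3) n8969 (.arc (nat_lit 6) n8970 (.fin (nat_lit 20353177) (nat_lit 0)))
def n8972 : Nd := .arc (nat_lit 6) n8968 (.fin (nat_lit 20361369) (nat_lit 0))
def n8973 : Nd := .arc (nat_lit 9) n8956 (.arc (nat_lit 64) n8242 (.arc (nat_lit 67) n8244 (.arc (nat_lit 70) n8243 (.fin (nat_lit 19820699) (nat_lit 0)))))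
def n8974 : Nd := .arc (nat_lit 3) n8972 (.arc (nat_lit 9) n8973 (.fin (nat_lit 21909655) (nat_lit 0)))
def n8975 : Nd := .arc (nat_lit 3) n8967 (.arc (nat_lit 6) n8971 (.arc (nat_lit 9) n8974 (.fin (nat_lit 22417565) (nat_lit 0))))
def n8976 : Nd := .arc (nat_lit 3) n8959 (.arc (nat_lit 40) n8210 (.arc (nat_lit 43) n8211 (.arc (nat_lit 46) n8212 (.fin (nat_lit 19845275) (nat_lit 0)))))
def n8977 : Nd := .arc (nat_lit 3) n8968 (.fin (nat_lit 22466717) (nat_lit 0))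
def n8978 : Nd := .arc (nat_lit 6) n8976 (.arc (nat_lit 9) n8977 (.fin (nat_lit 20328601) (nat_lit 0)))
def n8979 : Nd := .arc (nat_lit 3) n8973 (.arc (nat_lit 6) n8972 (.fin (nat_lit 22450333) (nat_lit 0)))
def n8980 : Nd := .arc (nat_lit 3) n8961 (.arc (nat_lit 9) n8960 (.fin (nat_lit 19812507) (nat_lit 0)))
def n8981 : Nd := .arc (nat_lit 3) n8978 (.arc (nat_lit 6) n8979 (.arc (nat_lit 9) n8980 (.fin (nat_lit 21893271) (nat_lit 0))))
def n8982 : Nd := .arc (nat_lit 6) n8977 (.arc (nat_lit 9) n8976 (.fin (nat_lit 21901463) (nat_lit 0)))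
def n8983 : Nd := .arc (nat_lit 3) n8964 (.arc (nat_lit 6) n8963 (.fin (nat_lit 19828891) (nat_lit 0)))
def n8984 : Nd := .arc (nat_lit 3) n8970 (.arc (nat_lit 9) n8969 (.fin (nat_lit 22433949) (nat_lit 0)))
def n8985 : Nd := .arc (nat_lit 3) n8982 (.arc (nat_lit 6) n8983 (.arc (nat_lit 9) n8984 (.fin (nat_lit 20320409) (nat_lit 0))))
def n8986 : Nd := .arc (nat_lit 14) n8902 (.arc (nat_lit 17) n8911 (.arc (nat_lit 20) n8917 (.arc (nat_lit 23) n8921 (.arc (nat_lit 38) n8934 (.arc (nat_lit 41) n8943 (.arc (nat_lit 44) n8949 (.arc (nat_lit 47) n8953 (.arc (nat_lit 50) n8966 (.arc (nat_lit 53) n8975 (.arc (nat_lit 56) n8981 (.arc (nat_lit 59) n8985 (.fin (nat_lit 273346711) (nat_lit 0)))))))))))))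
def n8987 : Nd := .arc (nat_lit 3) n8986 (.fin (nat_lit 540201113) (nat_lit 0))
def n8988 : Nd := .arc (nat_lit 14) n8911 (.arc (nat_lit 17) n8902 (.arc (nat_lit 20) n8921 (.arc (nat_lit 23) n8917 (.arc (nat_lit 26) n8934 (.arc (nat_lit 29) n8943 (.arc (nat_lit 32) n8953 (.arc (nat_lit 35) n8949 (.arc (nat_lit 62) n8966 (.arc (nat_lit 65) n8975 (.arc (nat_lit 68) n8985 (.arc (nat_lit 71) n8981 (.fin (nat_lit 540209305) (nat_lit 0)))))))))))))
def n8989 : Nd := .arc (nat_lit 3) n8988 (.arc (nat_lit 40) n8926 (.arc (nat_lit 43) n8930 (.arc (nat_lit 46) n8933 (.fin (nat_lit 273338519) (nat_lit 0)))))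
def n8990 : Nd := .arc (nat_lit 6) n8987 (.arc (nat_lit 9) n8989 (.fin (nat_lit 72495261) (nat_lit 0)))
def n8991 : Nd := .arc (nat_lit 14) n8917 (.arc (nat_lit 17) n8921 (.arc (nat_lit 20) n8911 (.arc (nat_lit 23) n8902 (.arc (nat_lit 26) n8966 (.arc (nat_lit 29) n8975 (.arc (nat_lit 32) n8985 (.arc (nat_lit 35) n8981 (.arc (nat_lit 50) n8934 (.arc (nat_lit 53) n8943 (.arc (nat_lit 56) n8949 (.arc (nat_lit 59) n8953 (.fin (nat_lit 72544413) (nat_lit 0)))))))))))))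
def n8992 : Nd := .arc (nat_lit 9) n8991 (.arc (nat_lit 64) n8958 (.arc (nat_lit 67) n8965 (.arc (nat_lit 70) n8962 (.fin (nat_lit 540176537) (nat_lit 0)))))
def n8993 : Nd := .arc (nat_lit 6) n8988 (.arc (nat_lit 52) n8926 (.arc (nat_lit 55) n8930 (.arc (nat_lit 58) n8933 (.fin (nat_lit 72528029) (nat_lit 0)))))
def n8994 : Nd := .arc (nat_lit 3) n8992 (.arc (nat_lit 6) n8993 (.fin (nat_lit 273322135) (nat_lit 0)))
def n8995 : Nd := .arc (nat_lit 6) n8991 (.arc (nat_lit 52) n8958 (.arc (nat_lit 55) n8962 (.arc (nat_lit 58) n8965 (.fin (nat_lit 273330327) (nat_lit 0)))))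
def n8996 : Nd := .arc (nat_lit 9) n8986 (.fin (nat_lit 72511645) (nat_lit 0))
def n8997 : Nd := .arc (nat_lit 3) n8995 (.arc (nat_lit 9) n8996 (.fin (nat_lit 540168345) (nat_lit 0)))
def n8998 : Nd := .arc (nat_lit 3) n8990 (.arc (nat_lit 6) n8994 (.arc (nat_lit 9) n8997 (.fin (nat_lit 136974491) (nat_lit 0))))
def n8999 : Nd := .arc (nat_lit 6) n8989 (.arc (nat_lit 9) n8987 (.fin (nat_lit 136982683) (nat_lit 0)))
def n9000 : Nd := .arc (nat_lit 14) n8921 (.arc (nat_lit 17) n8917 (.arc (nat_lit 20) n8902 (.arc (nat_lit 23) n8911 (.arc (nat_lit 38) n8966 (.arc (nat_lit 41) n8975 (.arc (nat_lit 44) n8981 (.arc (nat_lit 47) n8985 (.arc (nat_lit 62) n8934 (.arc (nat_lit 65) n8943 (.arc (nat_lit 68) n8953 (.arc (nat_lit 71) n8949 (.fin (nat_lit 137031835) (nat_lit 0)))))))))))))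
def n9001 : Nd := .arc (nat_lit 9) n9000 (.fin (nat_lit 273313943) (nat_lit 0))
def n9002 : Nd := .arc (nat_lit 6) n8986 (.fin (nat_lit 137015451) (nat_lit 0))
def n9003 : Nd := .arc (nat_lit 3) n9001 (.arc (nat_lit 6) n9002 (.fin (nat_lit 540184729) (nat_lit 0)))
def n9004 : Nd := .arc (nat_lit 6) n9000 (.fin (nat_lit 540192921) (nat_lit 0))
def n9005 : Nd := .arc (nat_lit 9) n8988 (.arc (nat_lit 64) n8926 (.arc (nat_lit 67) n8933 (.arc (nat_lit 70) n8930 (.fin (nat_lit 136999067) (nat_lit 0)))))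
def n9006 : Nd := .arc (nat_lit 3) n9004 (.arc (nat_lit 9) n9005 (.fin (nat_lit 273305751) (nat_lit 0)))
def n9007 : Nd := .arc (nat_lit 3) n8999 (.arc (nat_lit 6) n9003 (.arc (nat_lit 9) n9006 (.fin (nat_lit 72487069) (nat_lit 0))))
def n9008 : Nd := .arc (nat_lit 3) n9000 (.fin (nat_lit 72536221) (nat_lit 0))
def n9009 : Nd := .arc (nat_lit 3) n8991 (.arc (nat_lit 40) n8958 (.arc (nat_lit 43) n8962 (.arc (nat_lit 46) n8965 (.fin (nat_lit 137023643) (nat_lit 0)))))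
def n9010 : Nd := .arc (nat_lit 6) n9008 (.arc (nat_lit 9) n9009 (.fin (nat_lit 273297559) (nat_lit 0)))
def n9011 : Nd := .arc (nat_lit 3) n8996 (.arc (nat_lit 6) n8995 (.fin (nat_lit 137007259) (nat_lit 0)))
def n9012 : Nd := .arc (nat_lit 3) n9002 (.arc (nat_lit 9) n9001 (.fin (nat_lit 72503453) (nat_lit 0)))
def n9013 : Nd := .arc (nat_lit 3) n9010 (.arc (nat_lit 6) n9011 (.arc (nat_lit 9) n9012 (.fin (nat_lit 540151961) (nat_lit 0))))
def n9014 : Nd := .arc (nat_lit 6) n9009 (.arc (nat_lit 9) n9008 (.fin (nat_lit 540160153) (nat_lit 0)))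
def n9015 : Nd := .arc (nat_lit 3) n9005 (.arc (nat_lit 6) n9004 (.fin (nat_lit 72519837) (nat_lit 0)))
def n9016 : Nd := .arc (nat_lit 3) n8993 (.arc (nat_lit 9) n8992 (.fin (nat_lit 136990875) (nat_lit 0)))
def n9017 : Nd := .arc (nat_lit 3) n9014 (.arc (nat_lit 6) n9015 (.arc (nat_lit 9) n9016 (.fin (nat_lit 273289367) (nat_lit 0))))
def n9018 : Nd := .arc (nat_lit 38) n8847 (.arc (nat_lit 41) n8838 (.arc (nat_lit 44) n8857 (.arc (nat_lit 47) n8853 (.arc (nat_lit 62) n8879 (.arc (nat_lit 65) n8870 (.arc (nat_lit 68) n8885 (.arc (nat_lit 71) n8889 (.fin (nat_lit 137293979) (nat_lit 0)))))))))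
def n9019 : Nd := .arc (nat_lit 3) n9018 (.fin (nat_lit 72798365) (nat_lit 0))
def n9020 : Nd := .arc (nat_lit 26) n8847 (.arc (nat_lit 29) n8838 (.arc (nat_lit 32) n8853 (.arc (nat_lit 35) n8857 (.arc (nat_lit 50) n8879 (.arc (nat_lit 53) n8870 (.arc (nat_lit 56) n8889 (.arc (nat_lit 59) n8885 (.fin (nat_lit 72806557) (nat_lit 0)))))))))
def n9021 : Nd := .arc (nat_lit 3) n9020 (.arc (nat_lit 40) n8839 (.arc (nat_lit 43) n8843 (.arc (nat_lit 46) n8846 (.fin (nat_lit 137285787) (nat_lit 0)))))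
def n9022 : Nd := .arc (nat_lit 6) n9019 (.arc (nat_lit 9) n9021 (.fin (nat_lit 273559703) (nat_lit 0)))
def n9023 : Nd := .arc (nat_lit 38) n8879 (.arc (nat_lit 41) n8870 (.arc (nat_lit 44) n8889 (.arc (nat_lit 47) n8885 (.arc (nat_lit 50) n8847 (.arc (nat_lit 53) n8838 (.arc (nat_lit 56) n8857 (.arc (nat_lit 59) n8853 (.fin (nat_lit 273608855) (nat_lit 0)))))))))
def n9024 : Nd := .arc (nat_lit 9) n9023 (.fin (nat_lit 72773789) (nat_lit 0))
def n9025 : Nd := .arc (nat_lit 6) n9020 (.arc (nat_lit 52) n8839 (.arc (nat_lit 55) n8843 (.arc (nat_lit 58) n8846 (.fin (nat_lit 273592471) (nat_lit 0)))))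
def n9026 : Nd := .arc (nat_lit 3) n9024 (.arc (nat_lit 6) n9025 (.fin (nat_lit 137269403) (nat_lit 0)))
def n9027 : Nd := .arc (nat_lit 6) n9023 (.fin (nat_lit 137277595) (nat_lit 0))
def n9028 : Nd := .arc (nat_lit 9) n9018 (.fin (nat_lit 273576087) (nat_lit 0))
def n9029 : Nd := .arc (nat_lit 3) n9027 (.arc (nat_lit 9) n9028 (.fin (nat_lit 72765597) (nat_lit 0)))
def n9030 : Nd := .arc (nat_lit 3) n9022 (.arc (nat_lit 6) n9026 (.arc (nat_lit 9) n9029 (.fin (nat_lit 540414105) (nat_lit 0))))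
def n9031 : Nd := .arc (nat_lit 6) n9021 (.arc (nat_lit 9) n9019 (.fin (nat_lit 540422297) (nat_lit 0)))
def n9032 : Nd := .arc (nat_lit 26) n8879 (.arc (nat_lit 29) n8870 (.arc (nat_lit 32) n8885 (.arc (nat_lit 35) n8889 (.arc (nat_lit 62) n8847 (.arc (nat_lit 65) n8838 (.arc (nat_lit 68) n8853 (.arc (nat_lit 71) n8857 (.fin (nat_lit 540471449) (nat_lit 0)))))))))
def n9033 : Nd := .arc (nat_lit 9) n9032 (.arc (nat_lit 64) n8871 (.arc (nat_lit 67) n8878 (.arc (nat_lit 70) n8875 (.fin (nat_lit 137261211) (nat_lit 0)))))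
def n9034 : Nd := .arc (nat_lit 6) n9018 (.fin (nat_lit 540455065) (nat_lit 0))
def n9035 : Nd := .arc (nat_lit 3) n9033 (.arc (nat_lit 6) n9034 (.fin (nat_lit 72781981) (nat_lit 0)))
def n9036 : Nd := .arc (nat_lit 6) n9032 (.arc (nat_lit 52) n8871 (.arc (nat_lit 55) n8875 (.arc (nat_lit 58) n8878 (.fin (nat_lit 72790173) (nat_lit 0)))))
def n9037 : Nd := .arc (nat_lit 9) n9020 (.arc (nat_lit 64) n8839 (.arc (nat_lit 67) n8846 (.arc (nat_lit 70) n8843 (.fin (nat_lit 540438681) (nat_lit 0)))))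
def n9038 : Nd := .arc (nat_lit 3) n9036 (.arc (nat_lit 9) n9037 (.fin (nat_lit 137253019) (nat_lit 0)))
def n9039 : Nd := .arc (nat_lit 3) n9031 (.arc (nat_lit 6) n9035 (.arc (nat_lit 9) n9038 (.fin (nat_lit 273551511) (nat_lit 0))))
def n9040 : Nd := .arc (nat_lit 3) n9032 (.arc (nat_lit 40) n8871 (.arc (nat_lit 43) n8875 (.arc (nat_lit 46) n8878 (.fin (nat_lit 273600663) (nat_lit 0)))))
def n9041 : Nd := .arc (nat_lit 3) n9023 (.fin (nat_lit 540463257) (nat_lit 0))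
def n9042 : Nd := .arc (nat_lit 6) n9040 (.arc (nat_lit 9) n9041 (.fin (nat_lit 137244827) (nat_lit 0)))
def n9043 : Nd := .arc (nat_lit 3) n9028 (.arc (nat_lit 6) n9027 (.fin (nat_lit 540446873) (nat_lit 0)))
def n9044 : Nd := .arc (nat_lit 3) n9034 (.arc (nat_lit 9) n9033 (.fin (nat_lit 273567895) (nat_lit 0)))
def n9045 : Nd := .arc (nat_lit 3) n9042 (.arc (nat_lit 6) n9043 (.arc (nat_lit 9) n9044 (.fin (nat_lit 72749213) (nat_lit 0))))
def n9046 : Nd := .arc (nat_lit 6) n9041 (.arc (nat_lit 9) n9040 (.fin (nat_lit 72757405) (nat_lit 0)))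
def n9047 : Nd := .arc (nat_lit 3) n9037 (.arc (nat_lit 6) n9036 (.fin (nat_lit 273584279) (nat_lit 0)))
def n9048 : Nd := .arc (nat_lit 3) n9025 (.arc (nat_lit 9) n9024 (.fin (nat_lit 540430489) (nat_lit 0)))
def n9049 : Nd := .arc (nat_lit 3) n9046 (.arc (nat_lit 6) n9047 (.arc (nat_lit 9) n9048 (.fin (nat_lit 137236635) (nat_lit 0))))
def n9050 : Nd := .arc (nat_lit 38) n7375 (.arc (nat_lit 41) n7366 (.arc (nat_lit 44) n7381 (.arc (nat_lit 47) n7385 (.arc (nat_lit 50) n7417 (.arc (nat_lit 53) n7413 (.arc (nat_lit 56) n7398 (.arc (nat_lit 59) n7407 (.fin (nat_lit 139391125) (nat_lit 0)))))))))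
def n9051 : Nd := .arc (nat_lit 3) n9050 (.fin (nat_lit 70701205) (nat_lit 0))
def n9052 : Nd := .arc (nat_lit 26) n7375 (.arc (nat_lit 29) n7366 (.arc (nat_lit 32) n7385 (.arc (nat_lit 35) n7381 (.arc (nat_lit 62) n7417 (.arc (nat_lit 65) n7413 (.arc (nat_lit 68) n7407 (.arc (nat_lit 71) n7398 (.fin (nat_lit 70709397) (nat_lit 0)))))))))
def n9053 : Nd := .arc (nat_lit 3) n9052 (.arc (nat_lit 40) n7367 (.arc (nat_lit 43) n7371 (.arc (nat_lit 46) n7374 (.fin (nat_lit 139382933) (nat_lit 0)))))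
def n9054 : Nd := .arc (nat_lit 6) n9051 (.arc (nat_lit 9) n9053 (.fin (nat_lit 274083989) (nat_lit 0)))
def n9055 : Nd := .arc (nat_lit 26) n7417 (.arc (nat_lit 29) n7413 (.arc (nat_lit 32) n7407 (.arc (nat_lit 35) n7398 (.arc (nat_lit 50) n7375 (.arc (nat_lit 53) n7366 (.arc (nat_lit 56) n7381 (.arc (nat_lit 59) n7385 (.fin (nat_lit 274133141) (nat_lit 0)))))))))
def n9056 : Nd := .arc (nat_lit 9) n9055 (.arc (nat_lit 64) n7414 (.arc (nat_lit 67) n7416 (.arc (nat_lit 70) n7415 (.fin (nat_lit 70676629) (nat_lit 0)))))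
def n9057 : Nd := .arc (nat_lit 6) n9052 (.arc (nat_lit 52) n7367 (.arc (nat_lit 55) n7371 (.arc (nat_lit 58) n7374 (.fin (nat_lit 274116757) (nat_lit 0)))))
def n9058 : Nd := .arc (nat_lit 3) n9056 (.arc (nat_lit 6) n9057 (.fin (nat_lit 139366549) (nat_lit 0)))
def n9059 : Nd := .arc (nat_lit 6) n9055 (.arc (nat_lit 52) n7414 (.arc (nat_lit 55) n7415 (.arc (nat_lit 58) n7416 (.fin (nat_lit 139374741) (nat_lit 0)))))
def n9060 : Nd := .arc (nat_lit 9) n9050 (.fin (nat_lit 274100373) (nat_lit 0))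
def n9061 : Nd := .arc (nat_lit 3) n9059 (.arc (nat_lit 9) n9060 (.fin (nat_lit 70668437) (nat_lit 0)))
def n9062 : Nd := .arc (nat_lit 3) n9054 (.arc (nat_lit 6) n9058 (.arc (nat_lit 9) n9061 (.fin (nat_lit 539889813) (nat_lit 0))))
def n9063 : Nd := .arc (nat_lit 6) n9053 (.arc (nat_lit 9) n9051 (.fin (nat_lit 539898005) (nat_lit 0)))
def n9064 : Nd := .arc (nat_lit 38) n7417 (.arc (nat_lit 41) n7413 (.arc (nat_lit 44) n7398 (.arc (nat_lit 47) n7407 (.arc (nat_lit 62) n7375 (.arc (nat_lit 65) n7366 (.arc (nat_lit 68) n7385 (.arc (nat_lit 71) n7381 (.fin (nat_lit 539947157) (nat_lit 0)))))))))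
def n9065 : Nd := .arc (nat_lit 9) n9064 (.fin (nat_lit 139358357) (nat_lit 0))
def n9066 : Nd := .arc (nat_lit 6) n9050 (.fin (nat_lit 539930773) (nat_lit 0))
def n9067 : Nd := .arc (nat_lit 3) n9065 (.arc (nat_lit 6) n9066 (.fin (nat_lit 70684821) (nat_lit 0)))
def n9068 : Nd := .arc (nat_lit 6) n9064 (.fin (nat_lit 70693013) (nat_lit 0))
def n9069 : Nd := .arc (nat_lit 9) n9052 (.arc (nat_lit 64) n7367 (.arc (nat_lit 67) n7374 (.arc (nat_lit 70) n7371 (.fin (nat_lit 539914389) (nat_lit 0)))))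
def n9070 : Nd := .arc (nat_lit 3) n9068 (.arc (nat_lit 9) n9069 (.fin (nat_lit 139350165) (nat_lit 0)))
def n9071 : Nd := .arc (nat_lit 3) n9063 (.arc (nat_lit 6) n9067 (.arc (nat_lit 9) n9070 (.fin (nat_lit 274075797) (nat_lit 0))))
def n9072 : Nd := .arc (nat_lit 3) n9064 (.fin (nat_lit 274124949) (nat_lit 0))
def n9073 : Nd := .arc (nat_lit 3) n9055 (.arc (nat_lit 40) n7414 (.arc (nat_lit 43) n7415 (.arc (nat_lit 46) n7416 (.fin (nat_lit 539938965) (nat_lit 0)))))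
def n9074 : Nd := .arc (nat_lit 6) n9072 (.arc (nat_lit 9) n9073 (.fin (nat_lit 139341973) (nat_lit 0)))
def n9075 : Nd := .arc (nat_lit 3) n9060 (.arc (nat_lit 6) n9059 (.fin (nat_lit 539922581) (nat_lit 0)))
def n9076 : Nd := .arc (nat_lit 3) n9066 (.arc (nat_lit 9) n9065 (.fin (nat_lit 274092181) (nat_lit 0)))
def n9077 : Nd := .arc (nat_lit 3) n9074 (.arc (nat_lit 6) n9075 (.arc (nat_lit 9) n9076 (.fin (nat_lit 70652053) (nat_lit 0))))
def n9078 : Nd := .arc (nat_lit 6) n9073 (.arc (nat_lit 9) n9072 (.fin (nat_lit 70660245) (nat_lit 0)))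
def n9079 : Nd := .arc (nat_lit 3) n9069 (.arc (nat_lit 6) n9068 (.fin (nat_lit 274108565) (nat_lit 0)))
def n9080 : Nd := .arc (nat_lit 3) n9057 (.arc (nat_lit 9) n9056 (.fin (nat_lit 539906197) (nat_lit 0)))
def n9081 : Nd := .arc (nat_lit 3) n9078 (.arc (nat_lit 6) n9079 (.arc (nat_lit 9) n9080 (.fin (nat_lit 139333781) (nat_lit 0))))
def n9082 : Nd := .arc (nat_lit 26) n8341 (.arc (nat_lit 29) n8345 (.arc (nat_lit 32) n8335 (.arc (nat_lit 35) n8326 (.arc (nat_lit 50) n8309 (.arc (nat_lit 53) n8313 (.arc (nat_lit 56) n8294 (.arc (nat_lit 59) n8303 (.fin (nat_lit 22474905) (nat_lit 0)))))))))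
def n9083 : Nd := .arc (nat_lit 3) n9082 (.arc (nat_lit 40) n8338 (.arc (nat_lit 43) n8339 (.arc (nat_lit 46) n8340 (.fin (nat_lit 19845271) (nat_lit 0)))))
def n9084 : Nd := .arc (nat_lit 38) n8341 (.arc (nat_lit 41) n8345 (.arc (nat_lit 44) n8326 (.arc (nat_lit 47) n8335 (.arc (nat_lit 62) n8309 (.arc (nat_lit 65) n8313 (.arc (nat_lit 68) n8303 (.arc (nat_lit 71) n8294 (.fin (nat_lit 19853463) (nat_lit 0)))))))))
def n9085 : Nd := .arc (nat_lit 3) n9084 (.fin (nat_lit 22466713) (nat_lit 0))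
def n9086 : Nd := .arc (nat_lit 6) n9083 (.arc (nat_lit 9) n9085 (.fin (nat_lit 20328603) (nat_lit 0)))
def n9087 : Nd := .arc (nat_lit 26) n8309 (.arc (nat_lit 29) n8313 (.arc (nat_lit 32) n8303 (.arc (nat_lit 35) n8294 (.arc (nat_lit 62) n8341 (.arc (nat_lit 65) n8345 (.arc (nat_lit 68) n8335 (.arc (nat_lit 71) n8326 (.fin (nat_lit 20377755) (nat_lit 0)))))))))
def n9088 : Nd := .arc (nat_lit 9) n9087 (.arc (nat_lit 64) n8306 (.arc (nat_lit 67) n8308 (.arc (nat_lit 70) n8307 (.fin (nat_lit 19820695) (nat_lit 0)))))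
def n9089 : Nd := .arc (nat_lit 6) n9084 (.fin (nat_lit 20361371) (nat_lit 0))
def n9090 : Nd := .arc (nat_lit 3) n9088 (.arc (nat_lit 6) n9089 (.fin (nat_lit 22450329) (nat_lit 0)))
def n9091 : Nd := .arc (nat_lit 6) n9087 (.arc (nat_lit 52) n8306 (.arc (nat_lit 55) n8307 (.arc (nat_lit 58) n8308 (.fin (nat_lit 22458521) (nat_lit 0)))))
def n9092 : Nd := .arc (nat_lit 9) n9082 (.arc (nat_lit 64) n8338 (.arc (nat_lit 67) n8340 (.arc (nat_lit 70) n8339 (.fin (nat_lit 20344987) (nat_lit 0)))))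
def n9093 : Nd := .arc (nat_lit 3) n9091 (.arc (nat_lit 9) n9092 (.fin (nat_lit 19812503) (nat_lit 0)))
def n9094 : Nd := .arc (nat_lit 3) n9086 (.arc (nat_lit 6) n9090 (.arc (nat_lit 9) n9093 (.fin (nat_lit 21893277) (nat_lit 0))))
def n9095 : Nd := .arc (nat_lit 6) n9085 (.arc (nat_lit 9) n9083 (.fin (nat_lit 21901469) (nat_lit 0)))
def n9096 : Nd := .arc (nat_lit 38) n8309 (.arc (nat_lit 41) n8313 (.arc (nat_lit 44) n8294 (.arc (nat_lit 47) n8303 (.arc (nat_lit 50) n8341 (.arc (nat_lit 53) n8345 (.arc (nat_lit 56) n8326 (.arc (nat_lit 59) n8335 (.fin (nat_lit 21950621) (nat_lit 0)))))))))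
def n9097 : Nd := .arc (nat_lit 9) n9096 (.fin (nat_lit 22442137) (nat_lit 0))
def n9098 : Nd := .arc (nat_lit 6) n9082 (.arc (nat_lit 52) n8338 (.arc (nat_lit 55) n8339 (.arc (nat_lit 58) n8340 (.fin (nat_lit 21934237) (nat_lit 0)))))
def n9099 : Nd := .arc (nat_lit 3) n9097 (.arc (nat_lit 6) n9098 (.fin (nat_lit 19828887) (nat_lit 0)))
def n9100 : Nd := .arc (nat_lit 6) n9096 (.fin (nat_lit 19837079) (nat_lit 0))
def n9101 : Nd := .arc (nat_lit 9) n9084 (.fin (nat_lit 21917853) (nat_lit 0))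
def n9102 : Nd := .arc (nat_lit 3) n9100 (.arc (nat_lit 9) n9101 (.fin (nat_lit 22433945) (nat_lit 0)))
def n9103 : Nd := .arc (nat_lit 3) n9095 (.arc (nat_lit 6) n9099 (.arc (nat_lit 9) n9102 (.fin (nat_lit 20320411) (nat_lit 0))))
def n9104 : Nd := .arc (nat_lit 3) n9087 (.arc (nat_lit 40) n8306 (.arc (nat_lit 43) n8307 (.arc (nat_lit 46) n8308 (.fin (nat_lit 21942429) (nat_lit 0)))))
def n9105 : Nd := .arc (nat_lit 3) n9096 (.fin (nat_lit 20369563) (nat_lit 0))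
def n9106 : Nd := .arc (nat_lit 6) n9104 (.arc (nat_lit 9) n9105 (.fin (nat_lit 19804311) (nat_lit 0)))
def n9107 : Nd := .arc (nat_lit 3) n9101 (.arc (nat_lit 6) n9100 (.fin (nat_lit 20353179) (nat_lit 0)))
def n9108 : Nd := .arc (nat_lit 3) n9089 (.arc (nat_lit 9) n9088 (.fin (nat_lit 21909661) (nat_lit 0)))
def n9109 : Nd := .arc (nat_lit 3) n9106 (.arc (nat_lit 6) n9107 (.arc (nat_lit 9) n9108 (.fin (nat_lit 22417561) (nat_lit 0))))
def n9110 : Nd := .arc (nat_lit 6) n9105 (.arc (nat_lit 9) n9104 (.fin (nat_lit 22425753) (nat_lit 0)))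
def n9111 : Nd := .arc (nat_lit 3) n9092 (.arc (nat_lit 6) n9091 (.fin (nat_lit 21926045) (nat_lit 0)))
def n9112 : Nd := .arc (nat_lit 3) n9098 (.arc (nat_lit 9) n9097 (.fin (nat_lit 20336795) (nat_lit 0)))
def n9113 : Nd := .arc (nat_lit 3) n9110 (.arc (nat_lit 6) n9111 (.arc (nat_lit 9) n9112 (.fin (nat_lit 19796119) (nat_lit 0))))
def n9114 : Nd := .arc (nat_lit 14) n9030 (.arc (nat_lit 17) n9039 (.arc (nat_lit 20) n9045 (.arc (nat_lit 23) n9049 (.arc (nat_lit 26) n9062 (.arc (nat_lit 29) n9071 (.arc (nat_lit 32) n9077 (.arc (nat_lit 35) n9081 (.arc (nat_lit 50) n9094 (.arc (nat_lit 53) n9103 (.arc (nat_lit 56) n9109 (.arc (nat_lit 59) n9113 (.fin (nat_lit 273871001) (nat_lit 0)))))))))))))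
def n9115 : Nd := .arc (nat_lit 3) n9114 (.arc (nat_lit 40) n9054 (.arc (nat_lit 43) n9058 (.arc (nat_lit 46) n9061 (.fin (nat_lit 539676823) (nat_lit 0)))))
def n9116 : Nd := .arc (nat_lit 14) n9039 (.arc (nat_lit 17) n9030 (.arc (nat_lit 20) n9049 (.arc (nat_lit 23) n9045 (.arc (nat_lit 38) n9062 (.arc (nat_lit 41) n9071 (.arc (nat_lit 44) n9081 (.arc (nat_lit 47) n9077 (.arc (nat_lit 62) n9094 (.arc (nat_lit 65) n9103 (.arc (nat_lit 68) n9113 (.arc (nat_lit 71) n9109 (.fin (nat_lit 539685015) (nat_lit 0)))))))))))))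
def n9117 : Nd := .arc (nat_lit 3) n9116 (.fin (nat_lit 273862809) (nat_lit 0))
def n9118 : Nd := .arc (nat_lit 6) n9115 (.arc (nat_lit 9) n9117 (.fin (nat_lit 70398107) (nat_lit 0)))
def n9119 : Nd := .arc (nat_lit 14) n9045 (.arc (nat_lit 17) n9049 (.arc (nat_lit 20) n9039 (.arc (nat_lit 23) n9030 (.arc (nat_lit 26) n9094 (.arc (nat_lit 29) n9103 (.arc (nat_lit 32) n9113 (.arc (nat_lit 35) n9109 (.arc (nat_lit 62) n9062 (.arc (nat_lit 65) n9071 (.arc (nat_lit 68) n9077 (.arc (nat_lit 71) n9081 (.fin (nat_lit 70447259) (nat_lit 0)))))))))))))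
def n9120 : Nd := .arc (nat_lit 9) n9119 (.arc (nat_lit 64) n9086 (.arc (nat_lit 67) n9093 (.arc (nat_lit 70) n9090 (.fin (nat_lit 539652247) (nat_lit 0)))))
def n9121 : Nd := .arc (nat_lit 6) n9116 (.fin (nat_lit 70430875) (nat_lit 0))
def n9122 : Nd := .arc (nat_lit 3) n9120 (.arc (nat_lit 6) n9121 (.fin (nat_lit 273846425) (nat_lit 0)))
def n9123 : Nd := .arc (nat_lit 6) n9119 (.arc (nat_lit 52) n9086 (.arc (nat_lit 55) n9090 (.arc (nat_lit 58) n9093 (.fin (nat_lit 273854617) (nat_lit 0)))))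
def n9124 : Nd := .arc (nat_lit 9) n9114 (.arc (nat_lit 64) n9054 (.arc (nat_lit 67) n9061 (.arc (nat_lit 70) n9058 (.fin (nat_lit 70414491) (nat_lit 0)))))
def n9125 : Nd := .arc (nat_lit 3) n9123 (.arc (nat_lit 9) n9124 (.fin (nat_lit 539644055) (nat_lit 0)))
def n9126 : Nd := .arc (nat_lit 3) n9118 (.arc (nat_lit 6) n9122 (.arc (nat_lit 9) n9125 (.fin (nat_lit 139071645) (nat_lit 0))))
def n9127 : Nd := .arc (nat_lit 6) n9117 (.arc (nat_lit 9) n9115 (.fin (nat_lit 139079837) (nat_lit 0)))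
def n9128 : Nd := .arc (nat_lit 14) n9049 (.arc (nat_lit 17) n9045 (.arc (nat_lit 20) n9030 (.arc (nat_lit 23) n9039 (.arc (nat_lit 38) n9094 (.arc (nat_lit 41) n9103 (.arc (nat_lit 44) n9109 (.arc (nat_lit 47) n9113 (.arc (nat_lit 50) n9062 (.arc (nat_lit 53) n9071 (.arc (nat_lit 56) n9081 (.arc (nat_lit 59) n9077 (.fin (nat_lit 139128989) (nat_lit 0)))))))))))))
def n9129 : Nd := .arc (nat_lit 9) n9128 (.fin (nat_lit 273838233) (nat_lit 0))
def n9130 : Nd := .arc (nat_lit 6) n9114 (.arc (nat_lit 52) n9054 (.arc (nat_lit 55) n9058 (.arc (nat_lit 58) n9061 (.fin (nat_lit 139112605) (nat_lit 0)))))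
def n9131 : Nd := .arc (nat_lit 3) n9129 (.arc (nat_lit 6) n9130 (.fin (nat_lit 539660439) (nat_lit 0)))
def n9132 : Nd := .arc (nat_lit 6) n9128 (.fin (nat_lit 539668631) (nat_lit 0))
def n9133 : Nd := .arc (nat_lit 9) n9116 (.fin (nat_lit 139096221) (nat_lit 0))
def n9134 : Nd := .arc (nat_lit 3) n9132 (.arc (nat_lit 9) n9133 (.fin (nat_lit 273830041) (nat_lit 0)))
def n9135 : Nd := .arc (nat_lit 3) n9127 (.arc (nat_lit 6) n9131 (.arc (nat_lit 9) n9134 (.fin (nat_lit 70389915) (nat_lit 0))))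
def n9136 : Nd := .arc (nat_lit 3) n9119 (.arc (nat_lit 40) n9086 (.arc (nat_lit 43) n9090 (.arc (nat_lit 46) n9093 (.fin (nat_lit 139120797) (nat_lit 0)))))
def n9137 : Nd := .arc (nat_lit 3) n9128 (.fin (nat_lit 70439067) (nat_lit 0))
def n9138 : Nd := .arc (nat_lit 6) n9136 (.arc (nat_lit 9) n9137 (.fin (nat_lit 539635863) (nat_lit 0)))
def n9139 : Nd := .arc (nat_lit 3) n9133 (.arc (nat_lit 6) n9132 (.fin (nat_lit 70422683) (nat_lit 0)))
def n9140 : Nd := .arc (nat_lit 3) n9121 (.arc (nat_lit 9) n9120 (.fin (nat_lit 139088029) (nat_lit 0)))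
def n9141 : Nd := .arc (nat_lit 3) n9138 (.arc (nat_lit 6) n9139 (.arc (nat_lit 9) n9140 (.fin (nat_lit 273813657) (nat_lit 0))))
def n9142 : Nd := .arc (nat_lit 6) n9137 (.arc (nat_lit 9) n9136 (.fin (nat_lit 273821849) (nat_lit 0)))
def n9143 : Nd := .arc (nat_lit 3) n9124 (.arc (nat_lit 6) n9123 (.fin (nat_lit 139104413) (nat_lit 0)))
def n9144 : Nd := .arc (nat_lit 3) n9130 (.arc (nat_lit 9) n9129 (.fin (nat_lit 70406299) (nat_lit 0)))
def n9145 : Nd := .arc (nat_lit 3) n9142 (.arc (nat_lit 6) n9143 (.arc (nat_lit 9) n9144 (.fin (nat_lit 539627671) (nat_lit 0))))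
def n9146 : Nd := .arc (nat_lit 26) n7929 (.arc (nat_lit 29) n7925 (.arc (nat_lit 32) n7919 (.arc (nat_lit 35) n7910 (.arc (nat_lit 38) n7897 (.arc (nat_lit 41) n7893 (.arc (nat_lit 44) n7887 (.arc (nat_lit 47) n7878 (.arc (nat_lit 50) n7865 (.arc (nat_lit 53) n7861 (.arc (nat_lit 56) n7855 (.arc (nat_lit 59) n7846 (.fin (nat_lit 273084565) (nat_lit 0)))))))))))))
def n9147 : Nd := .arc (nat_lit 3) n9146 (.arc (nat_lit 40) n7926 (.arc (nat_lit 43) n7927 (.arc (nat_lit 46) n7928 (.fin (nat_lit 539414677) (nat_lit 0)))))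
def n9148 : Nd := .arc (nat_lit 26) n7897 (.arc (nat_lit 29) n7893 (.arc (nat_lit 32) n7878 (.arc (nat_lit 35) n7887 (.arc (nat_lit 38) n7929 (.arc (nat_lit 41) n7925 (.arc (nat_lit 44) n7910 (.arc (nat_lit 47) n7919 (.arc (nat_lit 62) n7865 (.arc (nat_lit 65) n7861 (.arc (nat_lit 68) n7846 (.arc (nat_lit 71) n7855 (.fin (nat_lit 539422869) (nat_lit 0)))))))))))))
def n9149 : Nd := .arc (nat_lit 3) n9148 (.arc (nat_lit 40) n7894 (.arc (nat_lit 43) n7895 (.arc (nat_lit 46) n7896 (.fin (nat_lit 273076373) (nat_lit 0)))))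
def n9150 : Nd := .arc (nat_lit 6) n9147 (.arc (nat_lit 9) n9149 (.fin (nat_lit 68563093) (nat_lit 0)))
def n9151 : Nd := .arc (nat_lit 26) n7865 (.arc (nat_lit 29) n7861 (.arc (nat_lit 32) n7846 (.arc (nat_lit 35) n7855 (.arc (nat_lit 50) n7897 (.arc (nat_lit 53) n7893 (.arc (nat_lit 56) n7887 (.arc (nat_lit 59) n7878 (.arc (nat_lit 62) n7929 (.arc (nat_lit 65) n7925 (.arc (nat_lit 68) n7919 (.arc (nat_lit 71) n7910 (.fin (nat_lit 68612245) (nat_lit 0)))))))))))))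
def n9152 : Nd := .arc (nat_lit 9) n9151 (.arc (nat_lit 64) n7862 (.arc (nat_lit 67) n7864 (.arc (nat_lit 70) n7863 (.fin (nat_lit 539390101) (nat_lit 0)))))
def n9153 : Nd := .arc (nat_lit 6) n9148 (.arc (nat_lit 52) n7894 (.arc (nat_lit 55) n7895 (.arc (nat_lit 58) n7896 (.fin (nat_lit 68595861) (nat_lit 0)))))
def n9154 : Nd := .arc (nat_lit 3) n9152 (.arc (nat_lit 6) n9153 (.fin (nat_lit 273059989) (nat_lit 0)))
def n9155 : Nd := .arc (nat_lit 6) n9151 (.arc (nat_lit 52) n7862 (.arc (nat_lit 55) n7863 (.arc (nat_lit 58) n7864 (.fin (nat_lit 273068181) (nat_lit 0)))))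
def n9156 : Nd := .arc (nat_lit 9) n9146 (.arc (nat_lit 64) n7926 (.arc (nat_lit 67) n7928 (.arc (nat_lit 70) n7927 (.fin (nat_lit 68579477) (nat_lit 0)))))
def n9157 : Nd := .arc (nat_lit 3) n9155 (.arc (nat_lit 9) n9156 (.fin (nat_lit 539381909) (nat_lit 0)))
def n9158 : Nd := .arc (nat_lit 3) n9150 (.arc (nat_lit 6) n9154 (.arc (nat_lit 9) n9157 (.fin (nat_lit 135139477) (nat_lit 0))))
def n9159 : Nd := .arc (nat_lit 6) n9149 (.arc (nat_lit 9) n9147 (.fin (nat_lit 135147669) (nat_lit 0)))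
def n9160 : Nd := .arc (nat_lit 38) n7865 (.arc (nat_lit 41) n7861 (.arc (nat_lit 44) n7855 (.arc (nat_lit 47) n7846 (.arc (nat_lit 50) n7929 (.arc (nat_lit 53) n7925 (.arc (nat_lit 56) n7910 (.arc (nat_lit 59) n7919 (.arc (nat_lit 62) n7897 (.arc (nat_lit 65) n7893 (.arc (nat_lit 68) n7878 (.arc (nat_lit 71) n7887 (.fin (nat_lit 135196821) (nat_lit 0)))))))))))))
def n9161 : Nd := .arc (nat_lit 9) n9160 (.fin (nat_lit 273051797) (nat_lit 0))
def n9162 : Nd := .arc (nat_lit 6) n9146 (.arc (nat_lit 52) n7926 (.arc (nat_lit 55) n7927 (.arc (nat_lit 58) n7928 (.fin (nat_lit 135180437) (nat_lit 0)))))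
def n9163 : Nd := .arc (nat_lit 3) n9161 (.arc (nat_lit 6) n9162 (.fin (nat_lit 539398293) (nat_lit 0)))
def n9164 : Nd := .arc (nat_lit 6) n9160 (.fin (nat_lit 539406485) (nat_lit 0))
def n9165 : Nd := .arc (nat_lit 9) n9148 (.arc (nat_lit 64) n7894 (.arc (nat_lit 67) n7896 (.arc (nat_lit 70) n7895 (.fin (nat_lit 135164053) (nat_lit 0)))))
def n9166 : Nd := .arc (nat_lit 3) n9164 (.arc (nat_lit 9) n9165 (.fin (nat_lit 273043605) (nat_lit 0)))
def n9167 : Nd := .arc (nat_lit 3) n9159 (.arc (nat_lit 6) n9163 (.arc (nat_lit 9) n9166 (.fin (nat_lit 68554901) (nat_lit 0))))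
def n9168 : Nd := .arc (nat_lit 3) n9151 (.arc (nat_lit 40) n7862 (.arc (nat_lit 43) n7863 (.arc (nat_lit 46) n7864 (.fin (nat_lit 135188629) (nat_lit 0)))))
def n9169 : Nd := .arc (nat_lit 3) n9160 (.fin (nat_lit 68604053) (nat_lit 0))
def n9170 : Nd := .arc (nat_lit 6) n9168 (.arc (nat_lit 9) n9169 (.fin (nat_lit 539373717) (nat_lit 0)))
def n9171 : Nd := .arc (nat_lit 3) n9165 (.arc (nat_lit 6) n9164 (.fin (nat_lit 68587669) (nat_lit 0)))
def n9172 : Nd := .arc (nat_lit 3) n9153 (.arc (nat_lit 9) n9152 (.fin (nat_lit 135155861) (nat_lit 0)))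
def n9173 : Nd := .arc (nat_lit 3) n9170 (.arc (nat_lit 6) n9171 (.arc (nat_lit 9) n9172 (.fin (nat_lit 273027221) (nat_lit 0))))
def n9174 : Nd := .arc (nat_lit 6) n9169 (.arc (nat_lit 9) n9168 (.fin (nat_lit 273035413) (nat_lit 0)))
def n9175 : Nd := .arc (nat_lit 3) n9156 (.arc (nat_lit 6) n9155 (.fin (nat_lit 135172245) (nat_lit 0)))
def n9176 : Nd := .arc (nat_lit 3) n9162 (.arc (nat_lit 9) n9161 (.fin (nat_lit 68571285) (nat_lit 0)))
def n9177 : Nd := .arc (nat_lit 3) n9174 (.arc (nat_lit 6) n9175 (.arc (nat_lit 9) n9176 (.fin (nat_lit 539365525) (nat_lit 0))))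
def n9178 : Nd := .arc (nat_lit 14) n8806 (.arc (nat_lit 17) n8815 (.arc (nat_lit 20) n8821 (.arc (nat_lit 23) n8825 (.arc (nat_lit 26) n8998 (.arc (nat_lit 29) n9007 (.arc (nat_lit 32) n9013 (.arc (nat_lit 35) n9017 (.arc (nat_lit 38) n9126 (.arc (nat_lit 41) n9135 (.arc (nat_lit 44) n9141 (.arc (nat_lit 47) n9145 (.arc (nat_lit 50) n9158 (.arc (nat_lit 53) n9167 (.arc (nat_lit 56) n9173 (.arc (nat_lit 59) n9177 (.fin (nat_lit 37941405) (nat_lit 0)))))))))))))))))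
def n9179 : Nd := .arc (nat_lit 3) n9178 (.arc (nat_lit 40) n8990 (.arc (nat_lit 43) n8994 (.arc (nat_lit 46) n8997 (.fin (nat_lit 35836059) (nat_lit 0)))))
def n9180 : Nd := .arc (nat_lit 14) n8815 (.arc (nat_lit 17) n8806 (.arc (nat_lit 20) n8825 (.arc (nat_lit 23) n8821 (.arc (nat_lit 26) n9126 (.arc (nat_lit 29) n9135 (.arc (nat_lit 32) n9145 (.arc (nat_lit 35) n9141 (.arc (nat_lit 38) n8998 (.arc (nat_lit 41) n9007 (.arc (nat_lit 44) n9017 (.arc (nat_lit 47) n9013 (.arc (nat_lit 62) n9158 (.arc (nat_lit 65) n9167 (.arc (nat_lit 68) n9177 (.arc (nat_lit 71) n9173 (.fin (nat_lit 35844251) (nat_lit 0)))))))))))))))))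
def n9181 : Nd := .arc (nat_lit 3) n9180 (.arc (nat_lit 40) n9118 (.arc (nat_lit 43) n9122 (.arc (nat_lit 46) n9125 (.fin (nat_lit 37933213) (nat_lit 0)))))
def n9182 : Nd := .arc (nat_lit 6) n9179 (.arc (nat_lit 9) n9181 (.fin (nat_lit 34746521) (nat_lit 0)))
def n9183 : Nd := .arc (nat_lit 14) n8821 (.arc (nat_lit 17) n8825 (.arc (nat_lit 20) n8815 (.arc (nat_lit 23) n8806 (.arc (nat_lit 26) n9158 (.arc (nat_lit 29) n9167 (.arc (nat_lit 32) n9177 (.arc (nat_lit 35) n9173 (.arc (nat_lit 50) n9126 (.arc (nat_lit 53) n9135 (.arc (nat_lit 56) n9141 (.arc (nat_lit 59) n9145 (.arc (nat_lit 62) n8998 (.arc (nat_lit 65) n9007 (.arc (nat_lit 68) n9013 (.arc (nat_lit 71) n9017 (.fin (nat_lit 34795673) (nat_lit 0)))))))))))))))))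
def n9184 : Nd := .arc (nat_lit 9) n9183 (.arc (nat_lit 64) n9150 (.arc (nat_lit 67) n9157 (.arc (nat_lit 70) n9154 (.fin (nat_lit 35811483) (nat_lit 0)))))
def n9185 : Nd := .arc (nat_lit 6) n9180 (.arc (nat_lit 52) n9118 (.arc (nat_lit 55) n9122 (.arc (nat_lit 58) n9125 (.fin (nat_lit 34779289) (nat_lit 0)))))
def n9186 : Nd := .arc (nat_lit 3) n9184 (.arc (nat_lit 6) n9185 (.fin (nat_lit 37916829) (nat_lit 0)))
def n9187 : Nd := .arc (nat_lit 6) n9183 (.arc (nat_lit 52) n9150 (.arc (nat_lit 55) n9154 (.arc (nat_lit 58) n9157 (.fin (nat_lit 37925021) (nat_lit 0)))))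
def n9188 : Nd := .arc (nat_lit 9) n9178 (.arc (nat_lit 64) n8990 (.arc (nat_lit 67) n8997 (.arc (nat_lit 70) n8994 (.fin (nat_lit 34762905) (nat_lit 0)))))
def n9189 : Nd := .arc (nat_lit 3) n9187 (.arc (nat_lit 9) n9188 (.fin (nat_lit 35803291) (nat_lit 0)))
def n9190 : Nd := .arc (nat_lit 3) n9182 (.arc (nat_lit 6) n9186 (.arc (nat_lit 9) n9189 (.fin (nat_lit 34214039) (nat_lit 0))))
def n9191 : Nd := .arc (nat_lit 6) n9181 (.arc (nat_lit 9) n9179 (.fin (nat_lit 34222231) (nat_lit 0)))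
def n9192 : Nd := .arc (nat_lit 14) n8825 (.arc (nat_lit 17) n8821 (.arc (nat_lit 20) n8806 (.arc (nat_lit 23) n8815 (.arc (nat_lit 38) n9158 (.arc (nat_lit 41) n9167 (.arc (nat_lit 44) n9173 (.arc (nat_lit 47) n9177 (.arc (nat_lit 50) n8998 (.arc (nat_lit 53) n9007 (.arc (nat_lit 56) n9017 (.arc (nat_lit 59) n9013 (.arc (nat_lit 62) n9126 (.arc (nat_lit 65) n9135 (.arc (nat_lit 68) n9145 (.arc (nat_lit 71) n9141 (.fin (nat_lit 34271383) (nat_lit 0)))))))))))))))))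
def n9193 : Nd := .arc (nat_lit 9) n9192 (.fin (nat_lit 37908637) (nat_lit 0))
def n9194 : Nd := .arc (nat_lit 6) n9178 (.arc (nat_lit 52) n8990 (.arc (nat_lit 55) n8994 (.arc (nat_lit 58) n8997 (.fin (nat_lit 34254999) (nat_lit 0)))))
def n9195 : Nd := .arc (nat_lit 3) n9193 (.arc (nat_lit 6) n9194 (.fin (nat_lit 35819675) (nat_lit 0)))
def n9196 : Nd := .arc (nat_lit 6) n9192 (.fin (nat_lit 35827867) (nat_lit 0))
def n9197 : Nd := .arc (nat_lit 9) n9180 (.arc (nat_lit 64) n9118 (.arc (nat_lit 67) n9125 (.arc (nat_lit 70) n9122 (.fin (nat_lit 34238615) (nat_lit 0)))))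
def n9198 : Nd := .arc (nat_lit 3) n9196 (.arc (nat_lit 9) n9197 (.fin (nat_lit 37900445) (nat_lit 0)))
def n9199 : Nd := .arc (nat_lit 3) n9191 (.arc (nat_lit 6) n9195 (.arc (nat_lit 9) n9198 (.fin (nat_lit 34738329) (nat_lit 0))))
def n9200 : Nd := .arc (nat_lit 3) n9183 (.arc (nat_lit 40) n9150 (.arc (nat_lit 43) n9154 (.arc (nat_lit 46) n9157 (.fin (nat_lit 34263191) (nat_lit 0)))))
def n9201 : Nd := .arc (nat_lit 3) n9192 (.fin (nat_lit 34787481) (nat_lit 0))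
def n9202 : Nd := .arc (nat_lit 6) n9200 (.arc (nat_lit 9) n9201 (.fin (nat_lit 35795099) (nat_lit 0)))
def n9203 : Nd := .arc (nat_lit 3) n9197 (.arc (nat_lit 6) n9196 (.fin (nat_lit 34771097) (nat_lit 0)))
def n9204 : Nd := .arc (nat_lit 3) n9185 (.arc (nat_lit 9) n9184 (.fin (nat_lit 34230423) (nat_lit 0)))
def n9205 : Nd := .arc (nat_lit 3) n9202 (.arc (nat_lit 6) n9203 (.arc (nat_lit 9) n9204 (.fin (nat_lit 37884061) (nat_lit 0))))
def n9206 : Nd := .arc (nat_lit 6) n9201 (.arc (nat_lit 9) n9200 (.fin (nat_lit 37892253) (nat_lit 0)))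
def n9207 : Nd := .arc (nat_lit 3) n9188 (.arc (nat_lit 6) n9187 (.fin (nat_lit 34246807) (nat_lit 0)))
def n9208 : Nd := .arc (nat_lit 3) n9194 (.arc (nat_lit 9) n9193 (.fin (nat_lit 34754713) (nat_lit 0)))
def n9209 : Nd := .arc (nat_lit 3) n9206 (.arc (nat_lit 6) n9207 (.arc (nat_lit 9) n9208 (.fin (nat_lit 35786907) (nat_lit 0))))
def n9210 : Nd := .arc (nat_lit 26) n7125 (.arc (nat_lit 29) n7129 (.arc (nat_lit 32) n7110 (.arc (nat_lit 35) n7119 (.arc (nat_lit 38) n7189 (.arc (nat_lit 41) n7193 (.arc (nat_lit 44) n7174 (.arc (nat_lit 47) n7183 (.fin (nat_lit 140963989) (nat_lit 0)))))))))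
def n9211 : Nd := .arc (nat_lit 3) n9210 (.arc (nat_lit 40) n7122 (.arc (nat_lit 43) n7123 (.arc (nat_lit 46) n7124 (.fin (nat_lit 73846933) (nat_lit 0)))))
def n9212 : Nd := .arc (nat_lit 26) n7189 (.arc (nat_lit 29) n7193 (.arc (nat_lit 32) n7183 (.arc (nat_lit 35) n7174 (.arc (nat_lit 38) n7125 (.arc (nat_lit 41) n7129 (.arc (nat_lit 44) n7119 (.arc (nat_lit 47) n7110 (.fin (nat_lit 73855125) (nat_lit 0)))))))))
def n9213 : Nd := .arc (nat_lit 3) n9212 (.arc (nat_lit 40) n7186 (.arc (nat_lit 43) n7187 (.arc (nat_lit 46) n7188 (.fin (nat_lit 140955797) (nat_lit 0)))))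
def n9214 : Nd := .arc (nat_lit 6) n9211 (.arc (nat_lit 9) n9213 (.fin (nat_lit 270413973) (nat_lit 0)))
def n9215 : Nd := .arc (nat_lit 50) n7189 (.arc (nat_lit 53) n7193 (.arc (nat_lit 56) n7174 (.arc (nat_lit 59) n7183 (.arc (nat_lit 62) n7125 (.arc (nat_lit 65) n7129 (.arc (nat_lit 68) n7110 (.arc (nat_lit 71) n7119 (.fin (nat_lit 270463125) (nat_lit 0)))))))))
def n9216 : Nd := .arc (nat_lit 9) n9215 (.fin (nat_lit 73822357) (nat_lit 0))
def n9217 : Nd := .arc (nat_lit 6) n9212 (.arc (nat_lit 52) n7186 (.arc (nat_lit 55) n7187 (.arc (nat_lit 58) n7188 (.fin (nat_lit 270446741) (nat_lit 0)))))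
def n9218 : Nd := .arc (nat_lit 3) n9216 (.arc (nat_lit 6) n9217 (.fin (nat_lit 140939413) (nat_lit 0)))
def n9219 : Nd := .arc (nat_lit 6) n9215 (.fin (nat_lit 140947605) (nat_lit 0))
def n9220 : Nd := .arc (nat_lit 9) n9210 (.arc (nat_lit 64) n7122 (.arc (nat_lit 67) n7124 (.arc (nat_lit 70) n7123 (.fin (nat_lit 270430357) (nat_lit 0)))))
def n9221 : Nd := .arc (nat_lit 3) n9219 (.arc (nat_lit 9) n9220 (.fin (nat_lit 73814165) (nat_lit 0)))
def n9222 : Nd := .arc (nat_lit 3) n9214 (.arc (nat_lit 6) n9218 (.arc (nat_lit 9) n9221 (.fin (nat_lit 538841237) (nat_lit 0))))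
def n9223 : Nd := .arc (nat_lit 6) n9213 (.arc (nat_lit 9) n9211 (.fin (nat_lit 538849429) (nat_lit 0)))
def n9224 : Nd := .arc (nat_lit 50) n7125 (.arc (nat_lit 53) n7129 (.arc (nat_lit 56) n7119 (.arc (nat_lit 59) n7110 (.arc (nat_lit 62) n7189 (.arc (nat_lit 65) n7193 (.arc (nat_lit 68) n7183 (.arc (nat_lit 71) n7174 (.fin (nat_lit 538898581) (nat_lit 0)))))))))
def n9225 : Nd := .arc (nat_lit 9) n9224 (.fin (nat_lit 140931221) (nat_lit 0))
def n9226 : Nd := .arc (nat_lit 6) n9210 (.arc (nat_lit 52) n7122 (.arc (nat_lit 55) n7123 (.arc (nat_lit 58) n7124 (.fin (nat_lit 538882197) (nat_lit 0)))))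
def n9227 : Nd := .arc (nat_lit 3) n9225 (.arc (nat_lit 6) n9226 (.fin (nat_lit 73830549) (nat_lit 0)))
def n9228 : Nd := .arc (nat_lit 6) n9224 (.fin (nat_lit 73838741) (nat_lit 0))
def n9229 : Nd := .arc (nat_lit 9) n9212 (.arc (nat_lit 64) n7186 (.arc (nat_lit 67) n7188 (.arc (nat_lit 70) n7187 (.fin (nat_lit 538865813) (nat_lit 0)))))
def n9230 : Nd := .arc (nat_lit 3) n9228 (.arc (nat_lit 9) n9229 (.fin (nat_lit 140923029) (nat_lit 0)))
def n9231 : Nd := .arc (nat_lit 3) n9223 (.arc (nat_lit 6) n9227 (.arc (nat_lit 9) n9230 (.fin (nat_lit 270405781) (nat_lit 0))))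
def n9232 : Nd := .arc (nat_lit 3) n9215 (.fin (nat_lit 538890389) (nat_lit 0))
def n9233 : Nd := .arc (nat_lit 3) n9224 (.fin (nat_lit 270454933) (nat_lit 0))
def n9234 : Nd := .arc (nat_lit 6) n9232 (.arc (nat_lit 9) n9233 (.fin (nat_lit 73805973) (nat_lit 0)))
def n9235 : Nd := .arc (nat_lit 3) n9229 (.arc (nat_lit 6) n9228 (.fin (nat_lit 270438549) (nat_lit 0)))
def n9236 : Nd := .arc (nat_lit 3) n9217 (.arc (nat_lit 9) n9216 (.fin (nat_lit 538857621) (nat_lit 0)))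
def n9237 : Nd := .arc (nat_lit 3) n9234 (.arc (nat_lit 6) n9235 (.arc (nat_lit 9) n9236 (.fin (nat_lit 140906645) (nat_lit 0))))
def n9238 : Nd := .arc (nat_lit 6) n9233 (.arc (nat_lit 9) n9232 (.fin (nat_lit 140914837) (nat_lit 0)))
def n9239 : Nd := .arc (nat_lit 3) n9220 (.arc (nat_lit 6) n9219 (.fin (nat_lit 538874005) (nat_lit 0)))
def n9240 : Nd := .arc (nat_lit 3) n9226 (.arc (nat_lit 9) n9225 (.fin (nat_lit 270422165) (nat_lit 0)))
def n9241 : Nd := .arc (nat_lit 3) n9238 (.arc (nat_lit 6) n9239 (.arc (nat_lit 9) n9240 (.fin (nat_lit 73797781) (nat_lit 0))))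
def n9242 : Nd := .arc (nat_lit 14) n8857 (.arc (nat_lit 17) n8853 (.arc (nat_lit 20) n8847 (.arc (nat_lit 23) n8838 (.arc (nat_lit 38) n8885 (.arc (nat_lit 41) n8889 (.arc (nat_lit 44) n8879 (.arc (nat_lit 47) n8870 (.fin (nat_lit 40562839) (nat_lit 0)))))))))
def n9243 : Nd := .arc (nat_lit 3) n9242 (.fin (nat_lit 41078937) (nat_lit 0))
def n9244 : Nd := .arc (nat_lit 14) n8853 (.arc (nat_lit 17) n8857 (.arc (nat_lit 20) n8838 (.arc (nat_lit 23) n8847 (.arc (nat_lit 26) n8885 (.arc (nat_lit 29) n8889 (.arc (nat_lit 32) n8870 (.arc (nat_lit 35) n8879 (.fin (nat_lit 41087129) (nat_lit 0)))))))))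
def n9245 : Nd := .arc (nat_lit 3) n9244 (.arc (nat_lit 40) n8882 (.arc (nat_lit 43) n8883 (.arc (nat_lit 46) n8884 (.fin (nat_lit 40554647) (nat_lit 0)))))
def n9246 : Nd := .arc (nat_lit 6) n9243 (.arc (nat_lit 9) n9245 (.fin (nat_lit 39465117) (nat_lit 0)))
def n9247 : Nd := .arc (nat_lit 14) n8847 (.arc (nat_lit 17) n8838 (.arc (nat_lit 20) n8853 (.arc (nat_lit 23) n8857 (.arc (nat_lit 50) n8885 (.arc (nat_lit 53) n8889 (.arc (nat_lit 56) n8879 (.arc (nat_lit 59) n8870 (.fin (nat_lit 39514269) (nat_lit 0)))))))))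
def n9248 : Nd := .arc (nat_lit 9) n9247 (.fin (nat_lit 41054361) (nat_lit 0))
def n9249 : Nd := .arc (nat_lit 6) n9244 (.arc (nat_lit 52) n8882 (.arc (nat_lit 55) n8883 (.arc (nat_lit 58) n8884 (.fin (nat_lit 39497885) (nat_lit 0)))))
def n9250 : Nd := .arc (nat_lit 3) n9248 (.arc (nat_lit 6) n9249 (.fin (nat_lit 40538263) (nat_lit 0)))
def n9251 : Nd := .arc (nat_lit 6) n9247 (.fin (nat_lit 40546455) (nat_lit 0))
def n9252 : Nd := .arc (nat_lit 9) n9242 (.fin (nat_lit 39481501) (nat_lit 0))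
def n9253 : Nd := .arc (nat_lit 3) n9251 (.arc (nat_lit 9) n9252 (.fin (nat_lit 41046169) (nat_lit 0)))
def n9254 : Nd := .arc (nat_lit 3) n9246 (.arc (nat_lit 6) n9250 (.arc (nat_lit 9) n9253 (.fin (nat_lit 37359771) (nat_lit 0))))
def n9255 : Nd := .arc (nat_lit 6) n9245 (.arc (nat_lit 9) n9243 (.fin (nat_lit 37367963) (nat_lit 0)))
def n9256 : Nd := .arc (nat_lit 14) n8838 (.arc (nat_lit 17) n8847 (.arc (nat_lit 20) n8857 (.arc (nat_lit 23) n8853 (.arc (nat_lit 62) n8885 (.arc (nat_lit 65) n8889 (.arc (nat_lit 68) n8870 (.arc (nat_lit 71) n8879 (.fin (nat_lit 37417115) (nat_lit 0)))))))))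
def n9257 : Nd := .arc (nat_lit 9) n9256 (.fin (nat_lit 40530071) (nat_lit 0))
def n9258 : Nd := .arc (nat_lit 6) n9242 (.fin (nat_lit 37400731) (nat_lit 0))
def n9259 : Nd := .arc (nat_lit 3) n9257 (.arc (nat_lit 6) n9258 (.fin (nat_lit 41062553) (nat_lit 0)))
def n9260 : Nd := .arc (nat_lit 6) n9256 (.fin (nat_lit 41070745) (nat_lit 0))
def n9261 : Nd := .arc (nat_lit 9) n9244 (.arc (nat_lit 64) n8882 (.arc (nat_lit 67) n8884 (.arc (nat_lit 70) n8883 (.fin (nat_lit 37384347) (nat_lit 0)))))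
def n9262 : Nd := .arc (nat_lit 3) n9260 (.arc (nat_lit 9) n9261 (.fin (nat_lit 40521879) (nat_lit 0)))
def n9263 : Nd := .arc (nat_lit 3) n9255 (.arc (nat_lit 6) n9259 (.arc (nat_lit 9) n9262 (.fin (nat_lit 39456925) (nat_lit 0))))
def n9264 : Nd := .arc (nat_lit 3) n9247 (.fin (nat_lit 37408923) (nat_lit 0))
def n9265 : Nd := .arc (nat_lit 3) n9256 (.fin (nat_lit 39506077) (nat_lit 0))
def n9266 : Nd := .arc (nat_lit 6) n9264 (.arc (nat_lit 9) n9265 (.fin (nat_lit 41037977) (nat_lit 0)))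
def n9267 : Nd := .arc (nat_lit 3) n9261 (.arc (nat_lit 6) n9260 (.fin (nat_lit 39489693) (nat_lit 0)))
def n9268 : Nd := .arc (nat_lit 3) n9249 (.arc (nat_lit 9) n9248 (.fin (nat_lit 37376155) (nat_lit 0)))
def n9269 : Nd := .arc (nat_lit 3) n9266 (.arc (nat_lit 6) n9267 (.arc (nat_lit 9) n9268 (.fin (nat_lit 40505495) (nat_lit 0))))
def n9270 : Nd := .arc (nat_lit 6) n9265 (.arc (nat_lit 9) n9264 (.fin (nat_lit 40513687) (nat_lit 0)))
def n9271 : Nd := .arc (nat_lit 3) n9252 (.arc (nat_lit 6) n9251 (.fin (nat_lit 37392539) (nat_lit 0)))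
def n9272 : Nd := .arc (nat_lit 3) n9258 (.arc (nat_lit 9) n9257 (.fin (nat_lit 39473309) (nat_lit 0)))
def n9273 : Nd := .arc (nat_lit 3) n9270 (.arc (nat_lit 6) n9271 (.arc (nat_lit 9) n9272 (.fin (nat_lit 41029785) (nat_lit 0))))
def n9274 : Nd := .arc (nat_lit 14) n8437 (.arc (nat_lit 17) n8441 (.arc (nat_lit 20) n8422 (.arc (nat_lit 23) n8431 (.arc (nat_lit 26) n8469 (.arc (nat_lit 29) n8473 (.arc (nat_lit 32) n8454 (.arc (nat_lit 35) n8463 (.fin (nat_lit 24309913) (nat_lit 0)))))))))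
def n9275 : Nd := .arc (nat_lit 3) n9274 (.arc (nat_lit 40) n8466 (.arc (nat_lit 43) n8467 (.arc (nat_lit 46) n8468 (.fin (nat_lit 23777431) (nat_lit 0)))))
def n9276 : Nd := .arc (nat_lit 14) n8441 (.arc (nat_lit 17) n8437 (.arc (nat_lit 20) n8431 (.arc (nat_lit 23) n8422 (.arc (nat_lit 38) n8469 (.arc (nat_lit 41) n8473 (.arc (nat_lit 44) n8463 (.arc (nat_lit 47) n8454 (.fin (nat_lit 23785623) (nat_lit 0)))))))))
def n9277 : Nd := .arc (nat_lit 3) n9276 (.fin (nat_lit 24301721) (nat_lit 0))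
def n9278 : Nd := .arc (nat_lit 6) n9275 (.arc (nat_lit 9) n9277 (.fin (nat_lit 20590747) (nat_lit 0)))
def n9279 : Nd := .arc (nat_lit 14) n8422 (.arc (nat_lit 17) n8431 (.arc (nat_lit 20) n8441 (.arc (nat_lit 23) n8437 (.arc (nat_lit 62) n8469 (.arc (nat_lit 65) n8473 (.arc (nat_lit 68) n8454 (.arc (nat_lit 71) n8463 (.fin (nat_lit 20639899) (nat_lit 0)))))))))
def n9280 : Nd := .arc (nat_lit 9) n9279 (.fin (nat_lit 23752855) (nat_lit 0))
def n9281 : Nd := .arc (nat_lit 6) n9276 (.fin (nat_lit 20623515) (nat_lit 0))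
def n9282 : Nd := .arc (nat_lit 3) n9280 (.arc (nat_lit 6) n9281 (.fin (nat_lit 24285337) (nat_lit 0)))
def n9283 : Nd := .arc (nat_lit 6) n9279 (.fin (nat_lit 24293529) (nat_lit 0))
def n9284 : Nd := .arc (nat_lit 9) n9274 (.arc (nat_lit 64) n8466 (.arc (nat_lit 67) n8468 (.arc (nat_lit 70) n8467 (.fin (nat_lit 20607131) (nat_lit 0)))))
def n9285 : Nd := .arc (nat_lit 3) n9283 (.arc (nat_lit 9) n9284 (.fin (nat_lit 23744663) (nat_lit 0)))
def n9286 : Nd := .arc (nat_lit 3) n9278 (.arc (nat_lit 6) n9282 (.arc (nat_lit 9) n9285 (.fin (nat_lit 22679709) (nat_lit 0))))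
def n9287 : Nd := .arc (nat_lit 6) n9277 (.arc (nat_lit 9) n9275 (.fin (nat_lit 22687901) (nat_lit 0)))
def n9288 : Nd := .arc (nat_lit 14) n8431 (.arc (nat_lit 17) n8422 (.arc (nat_lit 20) n8437 (.arc (nat_lit 23) n8441 (.arc (nat_lit 50) n8469 (.arc (nat_lit 53) n8473 (.arc (nat_lit 56) n8463 (.arc (nat_lit 59) n8454 (.fin (nat_lit 22737053) (nat_lit 0)))))))))
def n9289 : Nd := .arc (nat_lit 9) n9288 (.fin (nat_lit 24277145) (nat_lit 0))
def n9290 : Nd := .arc (nat_lit 6) n9274 (.arc (nat_lit 52) n8466 (.arc (nat_lit 55) n8467 (.arc (nat_lit 58) n8468 (.fin (nat_lit 22720669) (nat_lit 0)))))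
def n9291 : Nd := .arc (nat_lit 3) n9289 (.arc (nat_lit 6) n9290 (.fin (nat_lit 23761047) (nat_lit 0)))
def n9292 : Nd := .arc (nat_lit 6) n9288 (.fin (nat_lit 23769239) (nat_lit 0))
def n9293 : Nd := .arc (nat_lit 9) n9276 (.fin (nat_lit 22704285) (nat_lit 0))
def n9294 : Nd := .arc (nat_lit 3) n9292 (.arc (nat_lit 9) n9293 (.fin (nat_lit 24268953) (nat_lit 0)))
def n9295 : Nd := .arc (nat_lit 3) n9287 (.arc (nat_lit 6) n9291 (.arc (nat_lit 9) n9294 (.fin (nat_lit 20582555) (nat_lit 0))))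
def n9296 : Nd := .arc (nat_lit 3) n9288 (.fin (nat_lit 20631707) (nat_lit 0))
def n9297 : Nd := .arc (nat_lit 3) n9279 (.fin (nat_lit 22728861) (nat_lit 0))
def n9298 : Nd := .arc (nat_lit 6) n9296 (.arc (nat_lit 9) n9297 (.fin (nat_lit 24260761) (nat_lit 0)))
def n9299 : Nd := .arc (nat_lit 3) n9284 (.arc (nat_lit 6) n9283 (.fin (nat_lit 22712477) (nat_lit 0)))
def n9300 : Nd := .arc (nat_lit 3) n9290 (.arc (nat_lit 9) n9289 (.fin (nat_lit 20598939) (nat_lit 0)))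
def n9301 : Nd := .arc (nat_lit 3) n9298 (.arc (nat_lit 6) n9299 (.arc (nat_lit 9) n9300 (.fin (nat_lit 23728279) (nat_lit 0))))
def n9302 : Nd := .arc (nat_lit 6) n9297 (.arc (nat_lit 9) n9296 (.fin (nat_lit 23736471) (nat_lit 0)))
def n9303 : Nd := .arc (nat_lit 3) n9293 (.arc (nat_lit 6) n9292 (.fin (nat_lit 20615323) (nat_lit 0)))
def n9304 : Nd := .arc (nat_lit 3) n9281 (.arc (nat_lit 9) n9280 (.fin (nat_lit 22696093) (nat_lit 0)))
def n9305 : Nd := .arc (nat_lit 3) n9302 (.arc (nat_lit 6) n9303 (.arc (nat_lit 9) n9304 (.fin (nat_lit 24252569) (nat_lit 0))))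
def n9306 : Nd := .arc (nat_lit 38) n9222 (.arc (nat_lit 41) n9231 (.arc (nat_lit 44) n9237 (.arc (nat_lit 47) n9241 (.arc (nat_lit 50) n9254 (.arc (nat_lit 53) n9263 (.arc (nat_lit 56) n9269 (.arc (nat_lit 59) n9273 (.arc (nat_lit 62) n9286 (.arc (nat_lit 65) n9295 (.arc (nat_lit 68) n9301 (.arc (nat_lit 71) n9305 (.fin (nat_lit 537850007) (nat_lit 0)))))))))))))
def n9307 : Nd := .arc (nat_lit 3) n9306 (.fin (nat_lit 269930649) (nat_lit 0))
def n9308 : Nd := .arc (nat_lit 26) n9222 (.arc (nat_lit 29) n9231 (.arc (nat_lit 32) n9241 (.arc (nat_lit 35) n9237 (.arc (nat_lit 50) n9286 (.arc (nat_lit 53) n9295 (.arc (nat_lit 56) n9305 (.arc (nat_lit 59) n9301 (.arc (nat_lit 62) n9254 (.arc (nat_lit 65) n9263 (.arc (nat_lit 68) n9273 (.arc (nat_lit 71) n9269 (.fin (nat_lit 269938841) (nat_lit 0)))))))))))))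
def n9309 : Nd := .arc (nat_lit 3) n9308 (.arc (nat_lit 40) n9214 (.arc (nat_lit 43) n9218 (.arc (nat_lit 46) n9221 (.fin (nat_lit 537841815) (nat_lit 0)))))
def n9310 : Nd := .arc (nat_lit 6) n9307 (.arc (nat_lit 9) n9309 (.fin (nat_lit 138817693) (nat_lit 0)))
def n9311 : Nd := .arc (nat_lit 26) n9254 (.arc (nat_lit 29) n9263 (.arc (nat_lit 32) n9273 (.arc (nat_lit 35) n9269 (.arc (nat_lit 38) n9286 (.arc (nat_lit 41) n9295 (.arc (nat_lit 44) n9305 (.arc (nat_lit 47) n9301 (.arc (nat_lit 50) n9222 (.arc (nat_lit 53) n9231 (.arc (nat_lit 56) n9237 (.arc (nat_lit 59) n9241 (.fin (nat_lit 138866845) (nat_lit 0)))))))))))))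
def n9312 : Nd := .arc (nat_lit 9) n9311 (.arc (nat_lit 64) n9246 (.arc (nat_lit 67) n9253 (.arc (nat_lit 70) n9250 (.fin (nat_lit 269906073) (nat_lit 0)))))
def n9313 : Nd := .arc (nat_lit 6) n9308 (.arc (nat_lit 52) n9214 (.arc (nat_lit 55) n9218 (.arc (nat_lit 58) n9221 (.fin (nat_lit 138850461) (nat_lit 0)))))
def n9314 : Nd := .arc (nat_lit 3) n9312 (.arc (nat_lit 6) n9313 (.fin (nat_lit 537825431) (nat_lit 0)))
def n9315 : Nd := .arc (nat_lit 6) n9311 (.arc (nat_lit 52) n9246 (.arc (nat_lit 55) n9250 (.arc (nat_lit 58) n9253 (.fin (nat_lit 537833623) (nat_lit 0)))))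
def n9316 : Nd := .arc (nat_lit 9) n9306 (.fin (nat_lit 138834077) (nat_lit 0))
def n9317 : Nd := .arc (nat_lit 3) n9315 (.arc (nat_lit 9) n9316 (.fin (nat_lit 269897881) (nat_lit 0)))
def n9318 : Nd := .arc (nat_lit 3) n9310 (.arc (nat_lit 6) n9314 (.arc (nat_lit 9) n9317 (.fin (nat_lit 69603483) (nat_lit 0))))
def n9319 : Nd := .arc (nat_lit 6) n9309 (.arc (nat_lit 9) n9307 (.fin (nat_lit 69611675) (nat_lit 0)))
def n9320 : Nd := .arc (nat_lit 26) n9286 (.arc (nat_lit 29) n9295 (.arc (nat_lit 32) n9301 (.arc (nat_lit 35) n9305 (.arc (nat_lit 38) n9254 (.arc (nat_lit 41) n9263 (.arc (nat_lit 44) n9269 (.arc (nat_lit 47) n9273 (.arc (nat_lit 62) n9222 (.arc (nat_lit 65) n9231 (.arc (nat_lit 68) n9241 (.arc (nat_lit 71) n9237 (.fin (nat_lit 69660827) (nat_lit 0)))))))))))))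
def n9321 : Nd := .arc (nat_lit 9) n9320 (.arc (nat_lit 64) n9278 (.arc (nat_lit 67) n9285 (.arc (nat_lit 70) n9282 (.fin (nat_lit 537817239) (nat_lit 0)))))
def n9322 : Nd := .arc (nat_lit 6) n9306 (.fin (nat_lit 69644443) (nat_lit 0))
def n9323 : Nd := .arc (nat_lit 3) n9321 (.arc (nat_lit 6) n9322 (.fin (nat_lit 269914265) (nat_lit 0)))
def n9324 : Nd := .arc (nat_lit 6) n9320 (.arc (nat_lit 52) n9278 (.arc (nat_lit 55) n9282 (.arc (nat_lit 58) n9285 (.fin (nat_lit 269922457) (nat_lit 0)))))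
def n9325 : Nd := .arc (nat_lit 9) n9308 (.arc (nat_lit 64) n9214 (.arc (nat_lit 67) n9221 (.arc (nat_lit 70) n9218 (.fin (nat_lit 69628059) (nat_lit 0)))))
def n9326 : Nd := .arc (nat_lit 3) n9324 (.arc (nat_lit 9) n9325 (.fin (nat_lit 537809047) (nat_lit 0)))
def n9327 : Nd := .arc (nat_lit 3) n9319 (.arc (nat_lit 6) n9323 (.arc (nat_lit 9) n9326 (.fin (nat_lit 138809501) (nat_lit 0))))
def n9328 : Nd := .arc (nat_lit 3) n9320 (.arc (nat_lit 40) n9278 (.arc (nat_lit 43) n9282 (.arc (nat_lit 46) n9285 (.fin (nat_lit 138858653) (nat_lit 0)))))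
def n9329 : Nd := .arc (nat_lit 3) n9311 (.arc (nat_lit 40) n9246 (.arc (nat_lit 43) n9250 (.arc (nat_lit 46) n9253 (.fin (nat_lit 69652635) (nat_lit 0)))))
def n9330 : Nd := .arc (nat_lit 6) n9328 (.arc (nat_lit 9) n9329 (.fin (nat_lit 537800855) (nat_lit 0)))
def n9331 : Nd := .arc (nat_lit 3) n9316 (.arc (nat_lit 6) n9315 (.fin (nat_lit 69636251) (nat_lit 0)))
def n9332 : Nd := .arc (nat_lit 3) n9322 (.arc (nat_lit 9) n9321 (.fin (nat_lit 138825885) (nat_lit 0)))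
def n9333 : Nd := .arc (nat_lit 3) n9330 (.arc (nat_lit 6) n9331 (.arc (nat_lit 9) n9332 (.fin (nat_lit 269881497) (nat_lit 0))))
def n9334 : Nd := .arc (nat_lit 6) n9329 (.arc (nat_lit 9) n9328 (.fin (nat_lit 269889689) (nat_lit 0)))
def n9335 : Nd := .arc (nat_lit 3) n9325 (.arc (nat_lit 6) n9324 (.fin (nat_lit 138842269) (nat_lit 0)))
def n9336 : Nd := .arc (nat_lit 3) n9313 (.arc (nat_lit 9) n9312 (.fin (nat_lit 69619867) (nat_lit 0)))
def n9337 : Nd := .arc (nat_lit 3) n9334 (.arc (nat_lit 6) n9335 (.arc (nat_lit 9) n9336 (.fin (nat_lit 537792663) (nat_lit 0))))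
def n9338 : Nd := .arc (nat_lit 14) n8697 (.arc (nat_lit 17) n8693 (.arc (nat_lit 20) n8687 (.arc (nat_lit 23) n8678 (.arc (nat_lit 38) n8665 (.arc (nat_lit 41) n8661 (.arc (nat_lit 44) n8655 (.arc (nat_lit 47) n8646 (.arc (nat_lit 50) n8633 (.arc (nat_lit 53) n8629 (.arc (nat_lit 56) n8623 (.arc (nat_lit 59) n8614 (.fin (nat_lit 21688471) (nat_lit 0)))))))))))))
def n9339 : Nd := .arc (nat_lit 3) n9338 (.fin (nat_lit 20107417) (nat_lit 0))
def n9340 : Nd := .arc (nat_lit 14) n8693 (.arc (nat_lit 17) n8697 (.arc (nat_lit 20) n8678 (.arc (nat_lit 23) n8687 (.arc (nat_lit 26) n8665 (.arc (nat_lit 29) n8661 (.arc (nat_lit 32) n8646 (.arc (nat_lit 35) n8655 (.arc (nat_lit 62) n8633 (.arc (nat_lit 65) n8629 (.arc (nat_lit 68) n8614 (.arc (nat_lit 71) n8623 (.fin (nat_lit 20115609) (nat_lit 0)))))))))))))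
def n9341 : Nd := .arc (nat_lit 3) n9340 (.arc (nat_lit 40) n8662 (.arc (nat_lit 43) n8663 (.arc (nat_lit 46) n8664 (.fin (nat_lit 21680279) (nat_lit 0)))))
def n9342 : Nd := .arc (nat_lit 6) n9339 (.arc (nat_lit 9) n9341 (.fin (nat_lit 22163613) (nat_lit 0)))
def n9343 : Nd := .arc (nat_lit 14) n8687 (.arc (nat_lit 17) n8678 (.arc (nat_lit 20) n8693 (.arc (nat_lit 23) n8697 (.arc (nat_lit 26) n8633 (.arc (nat_lit 29) n8629 (.arc (nat_lit 32) n8614 (.arc (nat_lit 35) n8623 (.arc (nat_lit 50) n8665 (.arc (nat_lit 53) n8661 (.arc (nat_lit 56) n8655 (.arc (nat_lit 59) n8646 (.fin (nat_lit 22212765) (nat_lit 0)))))))))))))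
def n9344 : Nd := .arc (nat_lit 9) n9343 (.arc (nat_lit 64) n8630 (.arc (nat_lit 67) n8632 (.arc (nat_lit 70) n8631 (.fin (nat_lit 20082841) (nat_lit 0)))))
def n9345 : Nd := .arc (nat_lit 6) n9340 (.arc (nat_lit 52) n8662 (.arc (nat_lit 55) n8663 (.arc (nat_lit 58) n8664 (.fin (nat_lit 22196381) (nat_lit 0)))))
def n9346 : Nd := .arc (nat_lit 3) n9344 (.arc (nat_lit 6) n9345 (.fin (nat_lit 21663895) (nat_lit 0)))
def n9347 : Nd := .arc (nat_lit 6) n9343 (.arc (nat_lit 52) n8630 (.arc (nat_lit 55) n8631 (.arc (nat_lit 58) n8632 (.fin (nat_lit 21672087) (nat_lit 0)))))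
def n9348 : Nd := .arc (nat_lit 9) n9338 (.fin (nat_lit 22179997) (nat_lit 0))
def n9349 : Nd := .arc (nat_lit 3) n9347 (.arc (nat_lit 9) n9348 (.fin (nat_lit 20074649) (nat_lit 0)))
def n9350 : Nd := .arc (nat_lit 3) n9342 (.arc (nat_lit 6) n9346 (.arc (nat_lit 9) n9349 (.fin (nat_lit 19533979) (nat_lit 0))))
def n9351 : Nd := .arc (nat_lit 6) n9341 (.arc (nat_lit 9) n9339 (.fin (nat_lit 19542171) (nat_lit 0)))
def n9352 : Nd := .arc (nat_lit 14) n8678 (.arc (nat_lit 17) n8687 (.arc (nat_lit 20) n8697 (.arc (nat_lit 23) n8693 (.arc (nat_lit 38) n8633 (.arc (nat_lit 41) n8629 (.arc (nat_lit 44) n8623 (.arc (nat_lit 47) n8614 (.arc (nat_lit 62) n8665 (.arc (nat_lit 65) n8661 (.arc (nat_lit 68) n8646 (.arc (nat_lit 71) n8655 (.fin (nat_lit 19591323) (nat_lit 0)))))))))))))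
def n9353 : Nd := .arc (nat_lit 9) n9352 (.fin (nat_lit 21655703) (nat_lit 0))
def n9354 : Nd := .arc (nat_lit 6) n9338 (.fin (nat_lit 19574939) (nat_lit 0))
def n9355 : Nd := .arc (nat_lit 3) n9353 (.arc (nat_lit 6) n9354 (.fin (nat_lit 20091033) (nat_lit 0)))
def n9356 : Nd := .arc (nat_lit 6) n9352 (.fin (nat_lit 20099225) (nat_lit 0))
def n9357 : Nd := .arc (nat_lit 9) n9340 (.arc (nat_lit 64) n8662 (.arc (nat_lit 67) n8664 (.arc (nat_lit 70) n8663 (.fin (nat_lit 19558555) (nat_lit 0)))))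
def n9358 : Nd := .arc (nat_lit 3) n9356 (.arc (nat_lit 9) n9357 (.fin (nat_lit 21647511) (nat_lit 0)))
def n9359 : Nd := .arc (nat_lit 3) n9351 (.arc (nat_lit 6) n9355 (.arc (nat_lit 9) n9358 (.fin (nat_lit 22155421) (nat_lit 0))))
def n9360 : Nd := .arc (nat_lit 3) n9352 (.fin (nat_lit 22204573) (nat_lit 0))
def n9361 : Nd := .arc (nat_lit 3) n9343 (.arc (nat_lit 40) n8630 (.arc (nat_lit 43) n8631 (.arc (nat_lit 46) n8632 (.fin (nat_lit 19583131) (nat_lit 0)))))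
def n9362 : Nd := .arc (nat_lit 6) n9360 (.arc (nat_lit 9) n9361 (.fin (nat_lit 21639319) (nat_lit 0)))
def n9363 : Nd := .arc (nat_lit 3) n9348 (.arc (nat_lit 6) n9347 (.fin (nat_lit 19566747) (nat_lit 0)))
def n9364 : Nd := .arc (nat_lit 3) n9354 (.arc (nat_lit 9) n9353 (.fin (nat_lit 22171805) (nat_lit 0)))
def n9365 : Nd := .arc (nat_lit 3) n9362 (.arc (nat_lit 6) n9363 (.arc (nat_lit 9) n9364 (.fin (nat_lit 20058265) (nat_lit 0))))
def n9366 : Nd := .arc (nat_lit 6) n9361 (.arc (nat_lit 9) n9360 (.fin (nat_lit 20066457) (nat_lit 0)))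
def n9367 : Nd := .arc (nat_lit 3) n9357 (.arc (nat_lit 6) n9356 (.fin (nat_lit 22188189) (nat_lit 0)))
def n9368 : Nd := .arc (nat_lit 3) n9345 (.arc (nat_lit 9) n9344 (.fin (nat_lit 19550363) (nat_lit 0)))
def n9369 : Nd := .arc (nat_lit 3) n9366 (.arc (nat_lit 6) n9367 (.arc (nat_lit 9) n9368 (.fin (nat_lit 21631127) (nat_lit 0))))
def n9370 : Nd := .arc (nat_lit 14) n8985 (.arc (nat_lit 17) n8981 (.arc (nat_lit 20) n8975 (.arc (nat_lit 23) n8966 (.arc (nat_lit 26) n8953 (.arc (nat_lit 29) n8949 (.arc (nat_lit 32) n8943 (.arc (nat_lit 35) n8934 (.arc (nat_lit 50) n8921 (.arc (nat_lit 53) n8917 (.arc (nat_lit 56) n8911 (.arc (nat_lit 59) n8902 (.fin (nat_lit 38989977) (nat_lit 0)))))))))))))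
def n9371 : Nd := .arc (nat_lit 3) n9370 (.arc (nat_lit 40) n8950 (.arc (nat_lit 43) n8951 (.arc (nat_lit 46) n8952 (.fin (nat_lit 36360343) (nat_lit 0)))))
def n9372 : Nd := .arc (nat_lit 14) n8981 (.arc (nat_lit 17) n8985 (.arc (nat_lit 20) n8966 (.arc (nat_lit 23) n8975 (.arc (nat_lit 38) n8953 (.arc (nat_lit 41) n8949 (.arc (nat_lit 44) n8934 (.arc (nat_lit 47) n8943 (.arc (nat_lit 62) n8921 (.arc (nat_lit 65) n8917 (.arc (nat_lit 68) n8902 (.arc (nat_lit 71) n8911 (.fin (nat_lit 36368535) (nat_lit 0)))))))))))))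
def n9373 : Nd := .arc (nat_lit 3) n9372 (.fin (nat_lit 38981785) (nat_lit 0))
def n9374 : Nd := .arc (nat_lit 6) n9371 (.arc (nat_lit 9) n9373 (.fin (nat_lit 36843675) (nat_lit 0)))
def n9375 : Nd := .arc (nat_lit 14) n8975 (.arc (nat_lit 17) n8966 (.arc (nat_lit 20) n8981 (.arc (nat_lit 23) n8985 (.arc (nat_lit 26) n8921 (.arc (nat_lit 29) n8917 (.arc (nat_lit 32) n8902 (.arc (nat_lit 35) n8911 (.arc (nat_lit 62) n8953 (.arc (nat_lit 65) n8949 (.arc (nat_lit 68) n8943 (.arc (nat_lit 71) n8934 (.fin (nat_lit 36892827) (nat_lit 0)))))))))))))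
def n9376 : Nd := .arc (nat_lit 9) n9375 (.arc (nat_lit 64) n8918 (.arc (nat_lit 67) n8920 (.arc (nat_lit 70) n8919 (.fin (nat_lit 36335767) (nat_lit 0)))))
def n9377 : Nd := .arc (nat_lit 6) n9372 (.fin (nat_lit 36876443) (nat_lit 0))
def n9378 : Nd := .arc (nat_lit 3) n9376 (.arc (nat_lit 6) n9377 (.fin (nat_lit 38965401) (nat_lit 0)))
def n9379 : Nd := .arc (nat_lit 6) n9375 (.arc (nat_lit 52) n8918 (.arc (nat_lit 55) n8919 (.arc (nat_lit 58) n8920 (.fin (nat_lit 38973593) (nat_lit 0)))))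
def n9380 : Nd := .arc (nat_lit 9) n9370 (.arc (nat_lit 64) n8950 (.arc (nat_lit 67) n8952 (.arc (nat_lit 70) n8951 (.fin (nat_lit 36860059) (nat_lit 0)))))
def n9381 : Nd := .arc (nat_lit 3) n9379 (.arc (nat_lit 9) n9380 (.fin (nat_lit 36327575) (nat_lit 0)))
def n9382 : Nd := .arc (nat_lit 3) n9374 (.arc (nat_lit 6) n9378 (.arc (nat_lit 9) n9381 (.fin (nat_lit 38408349) (nat_lit 0))))
def n9383 : Nd := .arc (nat_lit 6) n9373 (.arc (nat_lit 9) n9371 (.fin (nat_lit 38416541) (nat_lit 0)))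
def n9384 : Nd := .arc (nat_lit 14) n8966 (.arc (nat_lit 17) n8975 (.arc (nat_lit 20) n8985 (.arc (nat_lit 23) n8981 (.arc (nat_lit 38) n8921 (.arc (nat_lit 41) n8917 (.arc (nat_lit 44) n8911 (.arc (nat_lit 47) n8902 (.arc (nat_lit 50) n8953 (.arc (nat_lit 53) n8949 (.arc (nat_lit 56) n8934 (.arc (nat_lit 59) n8943 (.fin (nat_lit 38465693) (nat_lit 0)))))))))))))
def n9385 : Nd := .arc (nat_lit 9) n9384 (.fin (nat_lit 38957209) (nat_lit 0))
def n9386 : Nd := .arc (nat_lit 6) n9370 (.arc (nat_lit 52) n8950 (.arc (nat_lit 55) n8951 (.arc (nat_lit 58) n8952 (.fin (nat_lit 38449309) (nat_lit 0)))))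
def n9387 : Nd := .arc (nat_lit 3) n9385 (.arc (nat_lit 6) n9386 (.fin (nat_lit 36343959) (nat_lit 0)))
def n9388 : Nd := .arc (nat_lit 6) n9384 (.fin (nat_lit 36352151) (nat_lit 0))
def n9389 : Nd := .arc (nat_lit 9) n9372 (.fin (nat_lit 38432925) (nat_lit 0))
def n9390 : Nd := .arc (nat_lit 3) n9388 (.arc (nat_lit 9) n9389 (.fin (nat_lit 38949017) (nat_lit 0)))
def n9391 : Nd := .arc (nat_lit 3) n9383 (.arc (nat_lit 6) n9387 (.arc (nat_lit 9) n9390 (.fin (nat_lit 36835483) (nat_lit 0))))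
def n9392 : Nd := .arc (nat_lit 3) n9375 (.arc (nat_lit 40) n8918 (.arc (nat_lit 43) n8919 (.arc (nat_lit 46) n8920 (.fin (nat_lit 38457501) (nat_lit 0)))))
def n9393 : Nd := .arc (nat_lit 3) n9384 (.fin (nat_lit 36884635) (nat_lit 0))
def n9394 : Nd := .arc (nat_lit 6) n9392 (.arc (nat_lit 9) n9393 (.fin (nat_lit 36319383) (nat_lit 0)))
def n9395 : Nd := .arc (nat_lit 3) n9389 (.arc (nat_lit 6) n9388 (.fin (nat_lit 36868251) (nat_lit 0)))
def n9396 : Nd := .arc (nat_lit 3) n9377 (.arc (nat_lit 9) n9376 (.fin (nat_lit 38424733) (nat_lit 0)))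
def n9397 : Nd := .arc (nat_lit 3) n9394 (.arc (nat_lit 6) n9395 (.arc (nat_lit 9) n9396 (.fin (nat_lit 38932633) (nat_lit 0))))
def n9398 : Nd := .arc (nat_lit 6) n9393 (.arc (nat_lit 9) n9392 (.fin (nat_lit 38940825) (nat_lit 0)))
def n9399 : Nd := .arc (nat_lit 3) n9380 (.arc (nat_lit 6) n9379 (.fin (nat_lit 38441117) (nat_lit 0)))
def n9400 : Nd := .arc (nat_lit 3) n9386 (.arc (nat_lit 9) n9385 (.fin (nat_lit 36851867) (nat_lit 0)))
def n9401 : Nd := .arc (nat_lit 3) n9398 (.arc (nat_lit 6) n9399 (.arc (nat_lit 9) n9400 (.fin (nat_lit 36311191) (nat_lit 0))))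
def n9402 : Nd := .arc (nat_lit 26) n7737 (.arc (nat_lit 29) n7733 (.arc (nat_lit 32) n7727 (.arc (nat_lit 35) n7718 (.arc (nat_lit 38) n7641 (.arc (nat_lit 41) n7637 (.arc (nat_lit 44) n7631 (.arc (nat_lit 47) n7622 (.arc (nat_lit 50) n7513 (.arc (nat_lit 53) n7509 (.arc (nat_lit 56) n7503 (.arc (nat_lit 59) n7494 (.fin (nat_lit 71757973) (nat_lit 0)))))))))))))
def n9403 : Nd := .arc (nat_lit 3) n9402 (.arc (nat_lit 40) n7734 (.arc (nat_lit 43) n7735 (.arc (nat_lit 46) n7736 (.fin (nat_lit 136761493) (nat_lit 0)))))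
def n9404 : Nd := .arc (nat_lit 26) n7641 (.arc (nat_lit 29) n7637 (.arc (nat_lit 32) n7622 (.arc (nat_lit 35) n7631 (.arc (nat_lit 38) n7737 (.arc (nat_lit 41) n7733 (.arc (nat_lit 44) n7718 (.arc (nat_lit 47) n7727 (.arc (nat_lit 62) n7513 (.arc (nat_lit 65) n7509 (.arc (nat_lit 68) n7494 (.arc (nat_lit 71) n7503 (.fin (nat_lit 136769685) (nat_lit 0)))))))))))))
def n9405 : Nd := .arc (nat_lit 3) n9404 (.arc (nat_lit 40) n7638 (.arc (nat_lit 43) n7639 (.arc (nat_lit 46) n7640 (.fin (nat_lit 71749781) (nat_lit 0)))))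
def n9406 : Nd := .arc (nat_lit 6) n9403 (.arc (nat_lit 9) n9405 (.fin (nat_lit 538325141) (nat_lit 0)))
def n9407 : Nd := .arc (nat_lit 26) n7513 (.arc (nat_lit 29) n7509 (.arc (nat_lit 32) n7494 (.arc (nat_lit 35) n7503 (.arc (nat_lit 50) n7641 (.arc (nat_lit 53) n7637 (.arc (nat_lit 56) n7631 (.arc (nat_lit 59) n7622 (.arc (nat_lit 62) n7737 (.arc (nat_lit 65) n7733 (.arc (nat_lit 68) n7727 (.arc (nat_lit 71) n7718 (.fin (nat_lit 538374293) (nat_lit 0)))))))))))))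
def n9408 : Nd := .arc (nat_lit 9) n9407 (.arc (nat_lit 64) n7510 (.arc (nat_lit 67) n7512 (.arc (nat_lit 70) n7511 (.fin (nat_lit 136736917) (nat_lit 0)))))
def n9409 : Nd := .arc (nat_lit 6) n9404 (.arc (nat_lit 52) n7638 (.arc (nat_lit 55) n7639 (.arc (nat_lit 58) n7640 (.fin (nat_lit 538357909) (nat_lit 0)))))
def n9410 : Nd := .arc (nat_lit 3) n9408 (.arc (nat_lit 6) n9409 (.fin (nat_lit 71733397) (nat_lit 0)))
def n9411 : Nd := .arc (nat_lit 6) n9407 (.arc (nat_lit 52) n7510 (.arc (nat_lit 55) n7511 (.arc (nat_lit 58) n7512 (.fin (nat_lit 71741589) (nat_lit 0)))))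
def n9412 : Nd := .arc (nat_lit 9) n9402 (.arc (nat_lit 64) n7734 (.arc (nat_lit 67) n7736 (.arc (nat_lit 70) n7735 (.fin (nat_lit 538341525) (nat_lit 0)))))
def n9413 : Nd := .arc (nat_lit 3) n9411 (.arc (nat_lit 9) n9412 (.fin (nat_lit 136728725) (nat_lit 0)))
def n9414 : Nd := .arc (nat_lit 3) n9406 (.arc (nat_lit 6) n9410 (.arc (nat_lit 9) n9413 (.fin (nat_lit 269357205) (nat_lit 0))))
def n9415 : Nd := .arc (nat_lit 6) n9405 (.arc (nat_lit 9) n9403 (.fin (nat_lit 269365397) (nat_lit 0)))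
def n9416 : Nd := .arc (nat_lit 38) n7513 (.arc (nat_lit 41) n7509 (.arc (nat_lit 44) n7503 (.arc (nat_lit 47) n7494 (.arc (nat_lit 50) n7737 (.arc (nat_lit 53) n7733 (.arc (nat_lit 56) n7718 (.arc (nat_lit 59) n7727 (.arc (nat_lit 62) n7641 (.arc (nat_lit 65) n7637 (.arc (nat_lit 68) n7622 (.arc (nat_lit 71) n7631 (.fin (nat_lit 269414549) (nat_lit 0)))))))))))))
def n9417 : Nd := .arc (nat_lit 9) n9416 (.fin (nat_lit 71725205) (nat_lit 0))
def n9418 : Nd := .arc (nat_lit 6) n9402 (.arc (nat_lit 52) n7734 (.arc (nat_lit 55) n7735 (.arc (nat_lit 58) n7736 (.fin (nat_lit 269398165) (nat_lit 0)))))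
def n9419 : Nd := .arc (nat_lit 3) n9417 (.arc (nat_lit 6) n9418 (.fin (nat_lit 136745109) (nat_lit 0)))
def n9420 : Nd := .arc (nat_lit 6) n9416 (.fin (nat_lit 136753301) (nat_lit 0))
def n9421 : Nd := .arc (nat_lit 9) n9404 (.arc (nat_lit 64) n7638 (.arc (nat_lit 67) n7640 (.arc (nat_lit 70) n7639 (.fin (nat_lit 269381781) (nat_lit 0)))))
def n9422 : Nd := .arc (nat_lit 3) n9420 (.arc (nat_lit 9) n9421 (.fin (nat_lit 71717013) (nat_lit 0)))
def n9423 : Nd := .arc (nat_lit 3) n9415 (.arc (nat_lit 6) n9419 (.arc (nat_lit 9) n9422 (.fin (nat_lit 538316949) (nat_lit 0))))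
def n9424 : Nd := .arc (nat_lit 3) n9407 (.arc (nat_lit 40) n7510 (.arc (nat_lit 43) n7511 (.arc (nat_lit 46) n7512 (.fin (nat_lit 269406357) (nat_lit 0)))))
def n9425 : Nd := .arc (nat_lit 3) n9416 (.fin (nat_lit 538366101) (nat_lit 0))
def n9426 : Nd := .arc (nat_lit 6) n9424 (.arc (nat_lit 9) n9425 (.fin (nat_lit 136720533) (nat_lit 0)))
def n9427 : Nd := .arc (nat_lit 3) n9421 (.arc (nat_lit 6) n9420 (.fin (nat_lit 538349717) (nat_lit 0)))
def n9428 : Nd := .arc (nat_lit 3) n9409 (.arc (nat_lit 9) n9408 (.fin (nat_lit 269373589) (nat_lit 0)))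
def n9429 : Nd := .arc (nat_lit 3) n9426 (.arc (nat_lit 6) n9427 (.arc (nat_lit 9) n9428 (.fin (nat_lit 71700629) (nat_lit 0))))
def n9430 : Nd := .arc (nat_lit 6) n9425 (.arc (nat_lit 9) n9424 (.fin (nat_lit 71708821) (nat_lit 0)))
def n9431 : Nd := .arc (nat_lit 3) n9412 (.arc (nat_lit 6) n9411 (.fin (nat_lit 269389973) (nat_lit 0)))
def n9432 : Nd := .arc (nat_lit 3) n9418 (.arc (nat_lit 9) n9417 (.fin (nat_lit 538333333) (nat_lit 0)))
def n9433 : Nd := .arc (nat_lit 3) n9430 (.arc (nat_lit 6) n9431 (.arc (nat_lit 9) n9432 (.fin (nat_lit 136712341) (nat_lit 0))))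
def n9434 : Nd := .arc (nat_lit 14) n9318 (.arc (nat_lit 17) n9327 (.arc (nat_lit 20) n9333 (.arc (nat_lit 23) n9337 (.arc (nat_lit 26) n9350 (.arc (nat_lit 29) n9359 (.arc (nat_lit 32) n9365 (.arc (nat_lit 35) n9369 (.arc (nat_lit 38) n9382 (.arc (nat_lit 41) n9391 (.arc (nat_lit 44) n9397 (.arc (nat_lit 47) n9401 (.arc (nat_lit 50) n9414 (.arc (nat_lit 53) n9423 (.arc (nat_lit 56) n9429 (.arc (nat_lit 59) n9433 (.fin (nat_lit 71495837) (nat_lit 0)))))))))))))))))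
def n9435 : Nd := .arc (nat_lit 3) n9434 (.arc (nat_lit 40) n9342 (.arc (nat_lit 43) n9346 (.arc (nat_lit 46) n9349 (.fin (nat_lit 136499355) (nat_lit 0)))))
def n9436 : Nd := .arc (nat_lit 14) n9327 (.arc (nat_lit 17) n9318 (.arc (nat_lit 20) n9337 (.arc (nat_lit 23) n9333 (.arc (nat_lit 26) n9382 (.arc (nat_lit 29) n9391 (.arc (nat_lit 32) n9401 (.arc (nat_lit 35) n9397 (.arc (nat_lit 38) n9350 (.arc (nat_lit 41) n9359 (.arc (nat_lit 44) n9369 (.arc (nat_lit 47) n9365 (.arc (nat_lit 62) n9414 (.arc (nat_lit 65) n9423 (.arc (nat_lit 68) n9433 (.arc (nat_lit 71) n9429 (.fin (nat_lit 136507547) (nat_lit 0)))))))))))))))))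
def n9437 : Nd := .arc (nat_lit 3) n9436 (.arc (nat_lit 40) n9374 (.arc (nat_lit 43) n9378 (.arc (nat_lit 46) n9381 (.fin (nat_lit 71487645) (nat_lit 0)))))
def n9438 : Nd := .arc (nat_lit 6) n9435 (.arc (nat_lit 9) n9437 (.fin (nat_lit 538063001) (nat_lit 0)))
def n9439 : Nd := .arc (nat_lit 14) n9333 (.arc (nat_lit 17) n9337 (.arc (nat_lit 20) n9327 (.arc (nat_lit 23) n9318 (.arc (nat_lit 26) n9414 (.arc (nat_lit 29) n9423 (.arc (nat_lit 32) n9433 (.arc (nat_lit 35) n9429 (.arc (nat_lit 50) n9382 (.arc (nat_lit 53) n9391 (.arc (nat_lit 56) n9397 (.arc (nat_lit 59) n9401 (.arc (nat_lit 62) n9350 (.arc (nat_lit 65) n9359 (.arc (nat_lit 68) n9365 (.arc (nat_lit 71) n9369 (.fin (nat_lit 538112153) (nat_lit 0)))))))))))))))))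
def n9440 : Nd := .arc (nat_lit 9) n9439 (.arc (nat_lit 64) n9406 (.arc (nat_lit 67) n9413 (.arc (nat_lit 70) n9410 (.fin (nat_lit 136474779) (nat_lit 0)))))
def n9441 : Nd := .arc (nat_lit 6) n9436 (.arc (nat_lit 52) n9374 (.arc (nat_lit 55) n9378 (.arc (nat_lit 58) n9381 (.fin (nat_lit 538095769) (nat_lit 0)))))
def n9442 : Nd := .arc (nat_lit 3) n9440 (.arc (nat_lit 6) n9441 (.fin (nat_lit 71471261) (nat_lit 0)))
def n9443 : Nd := .arc (nat_lit 6) n9439 (.arc (nat_lit 52) n9406 (.arc (nat_lit 55) n9410 (.arc (nat_lit 58) n9413 (.fin (nat_lit 71479453) (nat_lit 0)))))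
def n9444 : Nd := .arc (nat_lit 9) n9434 (.arc (nat_lit 64) n9342 (.arc (nat_lit 67) n9349 (.arc (nat_lit 70) n9346 (.fin (nat_lit 538079385) (nat_lit 0)))))
def n9445 : Nd := .arc (nat_lit 3) n9443 (.arc (nat_lit 9) n9444 (.fin (nat_lit 136466587) (nat_lit 0)))
def n9446 : Nd := .arc (nat_lit 3) n9438 (.arc (nat_lit 6) n9442 (.arc (nat_lit 9) n9445 (.fin (nat_lit 269095063) (nat_lit 0))))
def n9447 : Nd := .arc (nat_lit 6) n9437 (.arc (nat_lit 9) n9435 (.fin (nat_lit 269103255) (nat_lit 0)))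
def n9448 : Nd := .arc (nat_lit 14) n9337 (.arc (nat_lit 17) n9333 (.arc (nat_lit 20) n9318 (.arc (nat_lit 23) n9327 (.arc (nat_lit 38) n9414 (.arc (nat_lit 41) n9423 (.arc (nat_lit 44) n9429 (.arc (nat_lit 47) n9433 (.arc (nat_lit 50) n9350 (.arc (nat_lit 53) n9359 (.arc (nat_lit 56) n9369 (.arc (nat_lit 59) n9365 (.arc (nat_lit 62) n9382 (.arc (nat_lit 65) n9391 (.arc (nat_lit 68) n9401 (.arc (nat_lit 71) n9397 (.fin (nat_lit 269152407) (nat_lit 0)))))))))))))))))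
def n9449 : Nd := .arc (nat_lit 9) n9448 (.fin (nat_lit 71463069) (nat_lit 0))
def n9450 : Nd := .arc (nat_lit 6) n9434 (.arc (nat_lit 52) n9342 (.arc (nat_lit 55) n9346 (.arc (nat_lit 58) n9349 (.fin (nat_lit 269136023) (nat_lit 0)))))
def n9451 : Nd := .arc (nat_lit 3) n9449 (.arc (nat_lit 6) n9450 (.fin (nat_lit 136482971) (nat_lit 0)))
def n9452 : Nd := .arc (nat_lit 6) n9448 (.fin (nat_lit 136491163) (nat_lit 0))
def n9453 : Nd := .arc (nat_lit 9) n9436 (.arc (nat_lit 64) n9374 (.arc (nat_lit 67) n9381 (.arc (nat_lit 70) n9378 (.fin (nat_lit 269119639) (nat_lit 0)))))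
def n9454 : Nd := .arc (nat_lit 3) n9452 (.arc (nat_lit 9) n9453 (.fin (nat_lit 71454877) (nat_lit 0)))
def n9455 : Nd := .arc (nat_lit 3) n9447 (.arc (nat_lit 6) n9451 (.arc (nat_lit 9) n9454 (.fin (nat_lit 538054809) (nat_lit 0))))
def n9456 : Nd := .arc (nat_lit 3) n9439 (.arc (nat_lit 40) n9406 (.arc (nat_lit 43) n9410 (.arc (nat_lit 46) n9413 (.fin (nat_lit 269144215) (nat_lit 0)))))
def n9457 : Nd := .arc (nat_lit 3) n9448 (.fin (nat_lit 538103961) (nat_lit 0))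
def n9458 : Nd := .arc (nat_lit 6) n9456 (.arc (nat_lit 9) n9457 (.fin (nat_lit 136458395) (nat_lit 0)))
def n9459 : Nd := .arc (nat_lit 3) n9453 (.arc (nat_lit 6) n9452 (.fin (nat_lit 538087577) (nat_lit 0)))
def n9460 : Nd := .arc (nat_lit 3) n9441 (.arc (nat_lit 9) n9440 (.fin (nat_lit 269111447) (nat_lit 0)))
def n9461 : Nd := .arc (nat_lit 3) n9458 (.arc (nat_lit 6) n9459 (.arc (nat_lit 9) n9460 (.fin (nat_lit 71438493) (nat_lit 0))))
def n9462 : Nd := .arc (nat_lit 6) n9457 (.arc (nat_lit 9) n9456 (.fin (nat_lit 71446685) (nat_lit 0)))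
def n9463 : Nd := .arc (nat_lit 3) n9444 (.arc (nat_lit 6) n9443 (.fin (nat_lit 269127831) (nat_lit 0)))
def n9464 : Nd := .arc (nat_lit 3) n9450 (.arc (nat_lit 9) n9449 (.fin (nat_lit 538071193) (nat_lit 0)))
def n9465 : Nd := .arc (nat_lit 3) n9462 (.arc (nat_lit 6) n9463 (.arc (nat_lit 9) n9464 (.fin (nat_lit 136450203) (nat_lit 0))))
def n9466 : Nd := .arc (nat_lit 38) n9231 (.arc (nat_lit 41) n9222 (.arc (nat_lit 44) n9241 (.arc (nat_lit 47) n9237 (.arc (nat_lit 50) n9295 (.arc (nat_lit 53) n9286 (.arc (nat_lit 56) n9301 (.arc (nat_lit 59) n9305 (.arc (nat_lit 62) n9263 (.arc (nat_lit 65) n9254 (.arc (nat_lit 68) n9269 (.arc (nat_lit 71) n9273 (.fin (nat_lit 269414551) (nat_lit 0)))))))))))))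
def n9467 : Nd := .arc (nat_lit 3) n9466 (.fin (nat_lit 538366105) (nat_lit 0))
def n9468 : Nd := .arc (nat_lit 26) n9231 (.arc (nat_lit 29) n9222 (.arc (nat_lit 32) n9237 (.arc (nat_lit 35) n9241 (.arc (nat_lit 50) n9263 (.arc (nat_lit 53) n9254 (.arc (nat_lit 56) n9273 (.arc (nat_lit 59) n9269 (.arc (nat_lit 62) n9295 (.arc (nat_lit 65) n9286 (.arc (nat_lit 68) n9305 (.arc (nat_lit 71) n9301 (.fin (nat_lit 538374297) (nat_lit 0)))))))))))))
def n9469 : Nd := .arc (nat_lit 3) n9468 (.arc (nat_lit 40) n9223 (.arc (nat_lit 43) n9227 (.arc (nat_lit 46) n9230 (.fin (nat_lit 269406359) (nat_lit 0)))))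
def n9470 : Nd := .arc (nat_lit 6) n9467 (.arc (nat_lit 9) n9469 (.fin (nat_lit 71708829) (nat_lit 0)))
def n9471 : Nd := .arc (nat_lit 26) n9295 (.arc (nat_lit 29) n9286 (.arc (nat_lit 32) n9305 (.arc (nat_lit 35) n9301 (.arc (nat_lit 38) n9263 (.arc (nat_lit 41) n9254 (.arc (nat_lit 44) n9273 (.arc (nat_lit 47) n9269 (.arc (nat_lit 50) n9231 (.arc (nat_lit 53) n9222 (.arc (nat_lit 56) n9241 (.arc (nat_lit 59) n9237 (.fin (nat_lit 71757981) (nat_lit 0)))))))))))))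
def n9472 : Nd := .arc (nat_lit 9) n9471 (.arc (nat_lit 64) n9287 (.arc (nat_lit 67) n9294 (.arc (nat_lit 70) n9291 (.fin (nat_lit 538341529) (nat_lit 0)))))
def n9473 : Nd := .arc (nat_lit 6) n9468 (.arc (nat_lit 52) n9223 (.arc (nat_lit 55) n9227 (.arc (nat_lit 58) n9230 (.fin (nat_lit 71741597) (nat_lit 0)))))
def n9474 : Nd := .arc (nat_lit 3) n9472 (.arc (nat_lit 6) n9473 (.fin (nat_lit 269389975) (nat_lit 0)))
def n9475 : Nd := .arc (nat_lit 6) n9471 (.arc (nat_lit 52) n9287 (.arc (nat_lit 55) n9291 (.arc (nat_lit 58) n9294 (.fin (nat_lit 269398167) (nat_lit 0)))))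
def n9476 : Nd := .arc (nat_lit 9) n9466 (.fin (nat_lit 71725213) (nat_lit 0))
def n9477 : Nd := .arc (nat_lit 3) n9475 (.arc (nat_lit 9) n9476 (.fin (nat_lit 538333337) (nat_lit 0)))
def n9478 : Nd := .arc (nat_lit 3) n9470 (.arc (nat_lit 6) n9474 (.arc (nat_lit 9) n9477 (.fin (nat_lit 136712347) (nat_lit 0))))
def n9479 : Nd := .arc (nat_lit 6) n9469 (.arc (nat_lit 9) n9467 (.fin (nat_lit 136720539) (nat_lit 0)))
def n9480 : Nd := .arc (nat_lit 26) n9263 (.arc (nat_lit 29) n9254 (.arc (nat_lit 32) n9269 (.arc (nat_lit 35) n9273 (.arc (nat_lit 38) n9295 (.arc (nat_lit 41) n9286 (.arc (nat_lit 44) n9301 (.arc (nat_lit 47) n9305 (.arc (nat_lit 62) n9231 (.arc (nat_lit 65) n9222 (.arc (nat_lit 68) n9237 (.arc (nat_lit 71) n9241 (.fin (nat_lit 136769691) (nat_lit 0)))))))))))))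
def n9481 : Nd := .arc (nat_lit 9) n9480 (.arc (nat_lit 64) n9255 (.arc (nat_lit 67) n9262 (.arc (nat_lit 70) n9259 (.fin (nat_lit 269381783) (nat_lit 0)))))
def n9482 : Nd := .arc (nat_lit 6) n9466 (.fin (nat_lit 136753307) (nat_lit 0))
def n9483 : Nd := .arc (nat_lit 3) n9481 (.arc (nat_lit 6) n9482 (.fin (nat_lit 538349721) (nat_lit 0)))
def n9484 : Nd := .arc (nat_lit 6) n9480 (.arc (nat_lit 52) n9255 (.arc (nat_lit 55) n9259 (.arc (nat_lit 58) n9262 (.fin (nat_lit 538357913) (nat_lit 0)))))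
def n9485 : Nd := .arc (nat_lit 9) n9468 (.arc (nat_lit 64) n9223 (.arc (nat_lit 67) n9230 (.arc (nat_lit 70) n9227 (.fin (nat_lit 136736923) (nat_lit 0)))))
def n9486 : Nd := .arc (nat_lit 3) n9484 (.arc (nat_lit 9) n9485 (.fin (nat_lit 269373591) (nat_lit 0)))
def n9487 : Nd := .arc (nat_lit 3) n9479 (.arc (nat_lit 6) n9483 (.arc (nat_lit 9) n9486 (.fin (nat_lit 71700637) (nat_lit 0))))
def n9488 : Nd := .arc (nat_lit 3) n9480 (.arc (nat_lit 40) n9255 (.arc (nat_lit 43) n9259 (.arc (nat_lit 46) n9262 (.fin (nat_lit 71749789) (nat_lit 0)))))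
def n9489 : Nd := .arc (nat_lit 3) n9471 (.arc (nat_lit 40) n9287 (.arc (nat_lit 43) n9291 (.arc (nat_lit 46) n9294 (.fin (nat_lit 136761499) (nat_lit 0)))))
def n9490 : Nd := .arc (nat_lit 6) n9488 (.arc (nat_lit 9) n9489 (.fin (nat_lit 269365399) (nat_lit 0)))
def n9491 : Nd := .arc (nat_lit 3) n9476 (.arc (nat_lit 6) n9475 (.fin (nat_lit 136745115) (nat_lit 0)))
def n9492 : Nd := .arc (nat_lit 3) n9482 (.arc (nat_lit 9) n9481 (.fin (nat_lit 71717021) (nat_lit 0)))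
def n9493 : Nd := .arc (nat_lit 3) n9490 (.arc (nat_lit 6) n9491 (.arc (nat_lit 9) n9492 (.fin (nat_lit 538316953) (nat_lit 0))))
def n9494 : Nd := .arc (nat_lit 6) n9489 (.arc (nat_lit 9) n9488 (.fin (nat_lit 538325145) (nat_lit 0)))
def n9495 : Nd := .arc (nat_lit 3) n9485 (.arc (nat_lit 6) n9484 (.fin (nat_lit 71733405) (nat_lit 0)))
def n9496 : Nd := .arc (nat_lit 3) n9473 (.arc (nat_lit 9) n9472 (.fin (nat_lit 136728731) (nat_lit 0)))
def n9497 : Nd := .arc (nat_lit 3) n9494 (.arc (nat_lit 6) n9495 (.arc (nat_lit 9) n9496 (.fin (nat_lit 269357207) (nat_lit 0))))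
def n9498 : Nd := .arc (nat_lit 14) n9113 (.arc (nat_lit 17) n9109 (.arc (nat_lit 20) n9103 (.arc (nat_lit 23) n9094 (.arc (nat_lit 38) n9081 (.arc (nat_lit 41) n9077 (.arc (nat_lit 44) n9071 (.arc (nat_lit 47) n9062 (.arc (nat_lit 50) n9049 (.arc (nat_lit 53) n9045 (.arc (nat_lit 56) n9039 (.arc (nat_lit 59) n9030 (.fin (nat_lit 38465687) (nat_lit 0)))))))))))))
def n9499 : Nd := .arc (nat_lit 3) n9498 (.fin (nat_lit 36884633) (nat_lit 0))
def n9500 : Nd := .arc (nat_lit 14) n9109 (.arc (nat_lit 17) n9113 (.arc (nat_lit 20) n9094 (.arc (nat_lit 23) n9103 (.arc (nat_lit 26) n9081 (.arc (nat_lit 29) n9077 (.arc (nat_lit 32) n9062 (.arc (nat_lit 35) n9071 (.arc (nat_lit 62) n9049 (.arc (nat_lit 65) n9045 (.arc (nat_lit 68) n9030 (.arc (nat_lit 71) n9039 (.fin (nat_lit 36892825) (nat_lit 0)))))))))))))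
def n9501 : Nd := .arc (nat_lit 3) n9500 (.arc (nat_lit 40) n9078 (.arc (nat_lit 43) n9079 (.arc (nat_lit 46) n9080 (.fin (nat_lit 38457495) (nat_lit 0)))))
def n9502 : Nd := .arc (nat_lit 6) n9499 (.arc (nat_lit 9) n9501 (.fin (nat_lit 38940829) (nat_lit 0)))
def n9503 : Nd := .arc (nat_lit 14) n9103 (.arc (nat_lit 17) n9094 (.arc (nat_lit 20) n9109 (.arc (nat_lit 23) n9113 (.arc (nat_lit 26) n9049 (.arc (nat_lit 29) n9045 (.arc (nat_lit 32) n9030 (.arc (nat_lit 35) n9039 (.arc (nat_lit 50) n9081 (.arc (nat_lit 53) n9077 (.arc (nat_lit 56) n9071 (.arc (nat_lit 59) n9062 (.fin (nat_lit 38989981) (nat_lit 0)))))))))))))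
def n9504 : Nd := .arc (nat_lit 9) n9503 (.arc (nat_lit 64) n9046 (.arc (nat_lit 67) n9048 (.arc (nat_lit 70) n9047 (.fin (nat_lit 36860057) (nat_lit 0)))))
def n9505 : Nd := .arc (nat_lit 6) n9500 (.arc (nat_lit 52) n9078 (.arc (nat_lit 55) n9079 (.arc (nat_lit 58) n9080 (.fin (nat_lit 38973597) (nat_lit 0)))))
def n9506 : Nd := .arc (nat_lit 3) n9504 (.arc (nat_lit 6) n9505 (.fin (nat_lit 38441111) (nat_lit 0)))
def n9507 : Nd := .arc (nat_lit 6) n9503 (.arc (nat_lit 52) n9046 (.arc (nat_lit 55) n9047 (.arc (nat_lit 58) n9048 (.fin (nat_lit 38449303) (nat_lit 0)))))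
def n9508 : Nd := .arc (nat_lit 9) n9498 (.fin (nat_lit 38957213) (nat_lit 0))
def n9509 : Nd := .arc (nat_lit 3) n9507 (.arc (nat_lit 9) n9508 (.fin (nat_lit 36851865) (nat_lit 0)))
def n9510 : Nd := .arc (nat_lit 3) n9502 (.arc (nat_lit 6) n9506 (.arc (nat_lit 9) n9509 (.fin (nat_lit 36311195) (nat_lit 0))))
def n9511 : Nd := .arc (nat_lit 6) n9501 (.arc (nat_lit 9) n9499 (.fin (nat_lit 36319387) (nat_lit 0)))
def n9512 : Nd := .arc (nat_lit 14) n9094 (.arc (nat_lit 17) n9103 (.arc (nat_lit 20) n9113 (.arc (nat_lit 23) n9109 (.arc (nat_lit 38) n9049 (.arc (nat_lit 41) n9045 (.arc (nat_lit 44) n9039 (.arc (nat_lit 47) n9030 (.arc (nat_lit 62) n9081 (.arc (nat_lit 65) n9077 (.arc (nat_lit 68) n9062 (.arc (nat_lit 71) n9071 (.fin (nat_lit 36368539) (nat_lit 0)))))))))))))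
def n9513 : Nd := .arc (nat_lit 9) n9512 (.fin (nat_lit 38432919) (nat_lit 0))
def n9514 : Nd := .arc (nat_lit 6) n9498 (.fin (nat_lit 36352155) (nat_lit 0))
def n9515 : Nd := .arc (nat_lit 3) n9513 (.arc (nat_lit 6) n9514 (.fin (nat_lit 36868249) (nat_lit 0)))
def n9516 : Nd := .arc (nat_lit 6) n9512 (.fin (nat_lit 36876441) (nat_lit 0))
def n9517 : Nd := .arc (nat_lit 9) n9500 (.arc (nat_lit 64) n9078 (.arc (nat_lit 67) n9080 (.arc (nat_lit 70) n9079 (.fin (nat_lit 36335771) (nat_lit 0)))))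
def n9518 : Nd := .arc (nat_lit 3) n9516 (.arc (nat_lit 9) n9517 (.fin (nat_lit 38424727) (nat_lit 0)))
def n9519 : Nd := .arc (nat_lit 3) n9511 (.arc (nat_lit 6) n9515 (.arc (nat_lit 9) n9518 (.fin (nat_lit 38932637) (nat_lit 0))))
def n9520 : Nd := .arc (nat_lit 3) n9512 (.fin (nat_lit 38981789) (nat_lit 0))
def n9521 : Nd := .arc (nat_lit 3) n9503 (.arc (nat_lit 40) n9046 (.arc (nat_lit 43) n9047 (.arc (nat_lit 46) n9048 (.fin (nat_lit 36360347) (nat_lit 0)))))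
def n9522 : Nd := .arc (nat_lit 6) n9520 (.arc (nat_lit 9) n9521 (.fin (nat_lit 38416535) (nat_lit 0)))
def n9523 : Nd := .arc (nat_lit 3) n9508 (.arc (nat_lit 6) n9507 (.fin (nat_lit 36343963) (nat_lit 0)))
def n9524 : Nd := .arc (nat_lit 3) n9514 (.arc (nat_lit 9) n9513 (.fin (nat_lit 38949021) (nat_lit 0)))
def n9525 : Nd := .arc (nat_lit 3) n9522 (.arc (nat_lit 6) n9523 (.arc (nat_lit 9) n9524 (.fin (nat_lit 36835481) (nat_lit 0))))
def n9526 : Nd := .arc (nat_lit 6) n9521 (.arc (nat_lit 9) n9520 (.fin (nat_lit 36843673) (nat_lit 0)))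
def n9527 : Nd := .arc (nat_lit 3) n9517 (.arc (nat_lit 6) n9516 (.fin (nat_lit 38965405) (nat_lit 0)))
def n9528 : Nd := .arc (nat_lit 3) n9505 (.arc (nat_lit 9) n9504 (.fin (nat_lit 36327579) (nat_lit 0)))
def n9529 : Nd := .arc (nat_lit 3) n9526 (.arc (nat_lit 6) n9527 (.arc (nat_lit 9) n9528 (.fin (nat_lit 38408343) (nat_lit 0))))
def n9530 : Nd := .arc (nat_lit 14) n8569 (.arc (nat_lit 17) n8565 (.arc (nat_lit 20) n8559 (.arc (nat_lit 23) n8550 (.arc (nat_lit 26) n8537 (.arc (nat_lit 29) n8533 (.arc (nat_lit 32) n8527 (.arc (nat_lit 35) n8518 (.arc (nat_lit 50) n8505 (.arc (nat_lit 53) n8501 (.arc (nat_lit 56) n8495 (.arc (nat_lit 59) n8486 (.fin (nat_lit 22212761) (nat_lit 0)))))))))))))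
def n9531 : Nd := .arc (nat_lit 3) n9530 (.arc (nat_lit 40) n8534 (.arc (nat_lit 43) n8535 (.arc (nat_lit 46) n8536 (.fin (nat_lit 19583127) (nat_lit 0)))))
def n9532 : Nd := .arc (nat_lit 14) n8565 (.arc (nat_lit 17) n8569 (.arc (nat_lit 20) n8550 (.arc (nat_lit 23) n8559 (.arc (nat_lit 38) n8537 (.arc (nat_lit 41) n8533 (.arc (nat_lit 44) n8518 (.arc (nat_lit 47) n8527 (.arc (nat_lit 62) n8505 (.arc (nat_lit 65) n8501 (.arc (nat_lit 68) n8486 (.arc (nat_lit 71) n8495 (.fin (nat_lit 19591319) (nat_lit 0)))))))))))))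
def n9533 : Nd := .arc (nat_lit 3) n9532 (.fin (nat_lit 22204569) (nat_lit 0))
def n9534 : Nd := .arc (nat_lit 6) n9531 (.arc (nat_lit 9) n9533 (.fin (nat_lit 20066459) (nat_lit 0)))
def n9535 : Nd := .arc (nat_lit 14) n8559 (.arc (nat_lit 17) n8550 (.arc (nat_lit 20) n8565 (.arc (nat_lit 23) n8569 (.arc (nat_lit 26) n8505 (.arc (nat_lit 29) n8501 (.arc (nat_lit 32) n8486 (.arc (nat_lit 35) n8495 (.arc (nat_lit 62) n8537 (.arc (nat_lit 65) n8533 (.arc (nat_lit 68) n8527 (.arc (nat_lit 71) n8518 (.fin (nat_lit 20115611) (nat_lit 0)))))))))))))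
def n9536 : Nd := .arc (nat_lit 9) n9535 (.arc (nat_lit 64) n8502 (.arc (nat_lit 67) n8504 (.arc (nat_lit 70) n8503 (.fin (nat_lit 19558551) (nat_lit 0)))))
def n9537 : Nd := .arc (nat_lit 6) n9532 (.fin (nat_lit 20099227) (nat_lit 0))
def n9538 : Nd := .arc (nat_lit 3) n9536 (.arc (nat_lit 6) n9537 (.fin (nat_lit 22188185) (nat_lit 0)))
def n9539 : Nd := .arc (nat_lit 6) n9535 (.arc (nat_lit 52) n8502 (.arc (nat_lit 55) n8503 (.arc (nat_lit 58) n8504 (.fin (nat_lit 22196377) (nat_lit 0)))))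
def n9540 : Nd := .arc (nat_lit 9) n9530 (.arc (nat_lit 64) n8534 (.arc (nat_lit 67) n8536 (.arc (nat_lit 70) n8535 (.fin (nat_lit 20082843) (nat_lit 0)))))
def n9541 : Nd := .arc (nat_lit 3) n9539 (.arc (nat_lit 9) n9540 (.fin (nat_lit 19550359) (nat_lit 0)))
def n9542 : Nd := .arc (nat_lit 3) n9534 (.arc (nat_lit 6) n9538 (.arc (nat_lit 9) n9541 (.fin (nat_lit 21631133) (nat_lit 0))))
def n9543 : Nd := .arc (nat_lit 6) n9533 (.arc (nat_lit 9) n9531 (.fin (nat_lit 21639325) (nat_lit 0)))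
def n9544 : Nd := .arc (nat_lit 14) n8550 (.arc (nat_lit 17) n8559 (.arc (nat_lit 20) n8569 (.arc (nat_lit 23) n8565 (.arc (nat_lit 38) n8505 (.arc (nat_lit 41) n8501 (.arc (nat_lit 44) n8495 (.arc (nat_lit 47) n8486 (.arc (nat_lit 50) n8537 (.arc (nat_lit 53) n8533 (.arc (nat_lit 56) n8518 (.arc (nat_lit 59) n8527 (.fin (nat_lit 21688477) (nat_lit 0)))))))))))))
def n9545 : Nd := .arc (nat_lit 9) n9544 (.fin (nat_lit 22179993) (nat_lit 0))
def n9546 : Nd := .arc (nat_lit 6) n9530 (.arc (nat_lit 52) n8534 (.arc (nat_lit 55) n8535 (.arc (nat_lit 58) n8536 (.fin (nat_lit 21672093) (nat_lit 0)))))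
def n9547 : Nd := .arc (nat_lit 3) n9545 (.arc (nat_lit 6) n9546 (.fin (nat_lit 19566743) (nat_lit 0)))
def n9548 : Nd := .arc (nat_lit 6) n9544 (.fin (nat_lit 19574935) (nat_lit 0))
def n9549 : Nd := .arc (nat_lit 9) n9532 (.fin (nat_lit 21655709) (nat_lit 0))
def n9550 : Nd := .arc (nat_lit 3) n9548 (.arc (nat_lit 9) n9549 (.fin (nat_lit 22171801) (nat_lit 0)))
def n9551 : Nd := .arc (nat_lit 3) n9543 (.arc (nat_lit 6) n9547 (.arc (nat_lit 9) n9550 (.fin (nat_lit 20058267) (nat_lit 0))))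
def n9552 : Nd := .arc (nat_lit 3) n9535 (.arc (nat_lit 40) n8502 (.arc (nat_lit 43) n8503 (.arc (nat_lit 46) n8504 (.fin (nat_lit 21680285) (nat_lit 0)))))
def n9553 : Nd := .arc (nat_lit 3) n9544 (.fin (nat_lit 20107419) (nat_lit 0))
def n9554 : Nd := .arc (nat_lit 6) n9552 (.arc (nat_lit 9) n9553 (.fin (nat_lit 19542167) (nat_lit 0)))
def n9555 : Nd := .arc (nat_lit 3) n9549 (.arc (nat_lit 6) n9548 (.fin (nat_lit 20091035) (nat_lit 0)))
def n9556 : Nd := .arc (nat_lit 3) n9537 (.arc (nat_lit 9) n9536 (.fin (nat_lit 21647517) (nat_lit 0)))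
def n9557 : Nd := .arc (nat_lit 3) n9554 (.arc (nat_lit 6) n9555 (.arc (nat_lit 9) n9556 (.fin (nat_lit 22155417) (nat_lit 0))))
def n9558 : Nd := .arc (nat_lit 6) n9553 (.arc (nat_lit 9) n9552 (.fin (nat_lit 22163609) (nat_lit 0)))
def n9559 : Nd := .arc (nat_lit 3) n9540 (.arc (nat_lit 6) n9539 (.fin (nat_lit 21663901) (nat_lit 0)))
def n9560 : Nd := .arc (nat_lit 3) n9546 (.arc (nat_lit 9) n9545 (.fin (nat_lit 20074651) (nat_lit 0)))
def n9561 : Nd := .arc (nat_lit 3) n9558 (.arc (nat_lit 6) n9559 (.arc (nat_lit 9) n9560 (.fin (nat_lit 19533975) (nat_lit 0))))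
def n9562 : Nd := .arc (nat_lit 26) n7449 (.arc (nat_lit 29) n7445 (.arc (nat_lit 32) n7439 (.arc (nat_lit 35) n7430 (.arc (nat_lit 38) n7353 (.arc (nat_lit 41) n7349 (.arc (nat_lit 44) n7343 (.arc (nat_lit 47) n7334 (.arc (nat_lit 50) n7225 (.arc (nat_lit 53) n7221 (.arc (nat_lit 56) n7215 (.arc (nat_lit 59) n7206 (.fin (nat_lit 138866837) (nat_lit 0)))))))))))))
def n9563 : Nd := .arc (nat_lit 3) n9562 (.arc (nat_lit 40) n7446 (.arc (nat_lit 43) n7447 (.arc (nat_lit 46) n7448 (.fin (nat_lit 69652629) (nat_lit 0)))))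
def n9564 : Nd := .arc (nat_lit 26) n7353 (.arc (nat_lit 29) n7349 (.arc (nat_lit 32) n7334 (.arc (nat_lit 35) n7343 (.arc (nat_lit 38) n7449 (.arc (nat_lit 41) n7445 (.arc (nat_lit 44) n7430 (.arc (nat_lit 47) n7439 (.arc (nat_lit 62) n7225 (.arc (nat_lit 65) n7221 (.arc (nat_lit 68) n7206 (.arc (nat_lit 71) n7215 (.fin (nat_lit 69660821) (nat_lit 0)))))))))))))
def n9565 : Nd := .arc (nat_lit 3) n9564 (.arc (nat_lit 40) n7350 (.arc (nat_lit 43) n7351 (.arc (nat_lit 46) n7352 (.fin (nat_lit 138858645) (nat_lit 0)))))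
def n9566 : Nd := .arc (nat_lit 6) n9563 (.arc (nat_lit 9) n9565 (.fin (nat_lit 269889685) (nat_lit 0)))
def n9567 : Nd := .arc (nat_lit 26) n7225 (.arc (nat_lit 29) n7221 (.arc (nat_lit 32) n7206 (.arc (nat_lit 35) n7215 (.arc (nat_lit 50) n7353 (.arc (nat_lit 53) n7349 (.arc (nat_lit 56) n7343 (.arc (nat_lit 59) n7334 (.arc (nat_lit 62) n7449 (.arc (nat_lit 65) n7445 (.arc (nat_lit 68) n7439 (.arc (nat_lit 71) n7430 (.fin (nat_lit 269938837) (nat_lit 0)))))))))))))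
def n9568 : Nd := .arc (nat_lit 9) n9567 (.arc (nat_lit 64) n7222 (.arc (nat_lit 67) n7224 (.arc (nat_lit 70) n7223 (.fin (nat_lit 69628053) (nat_lit 0)))))
def n9569 : Nd := .arc (nat_lit 6) n9564 (.arc (nat_lit 52) n7350 (.arc (nat_lit 55) n7351 (.arc (nat_lit 58) n7352 (.fin (nat_lit 269922453) (nat_lit 0)))))
def n9570 : Nd := .arc (nat_lit 3) n9568 (.arc (nat_lit 6) n9569 (.fin (nat_lit 138842261) (nat_lit 0)))
def n9571 : Nd := .arc (nat_lit 6) n9567 (.arc (nat_lit 52) n7222 (.arc (nat_lit 55) n7223 (.arc (nat_lit 58) n7224 (.fin (nat_lit 138850453) (nat_lit 0)))))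
def n9572 : Nd := .arc (nat_lit 9) n9562 (.arc (nat_lit 64) n7446 (.arc (nat_lit 67) n7448 (.arc (nat_lit 70) n7447 (.fin (nat_lit 269906069) (nat_lit 0)))))
def n9573 : Nd := .arc (nat_lit 3) n9571 (.arc (nat_lit 9) n9572 (.fin (nat_lit 69619861) (nat_lit 0)))
def n9574 : Nd := .arc (nat_lit 3) n9566 (.arc (nat_lit 6) n9570 (.arc (nat_lit 9) n9573 (.fin (nat_lit 537792661) (nat_lit 0))))
def n9575 : Nd := .arc (nat_lit 6) n9565 (.arc (nat_lit 9) n9563 (.fin (nat_lit 537800853) (nat_lit 0)))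
def n9576 : Nd := .arc (nat_lit 38) n7225 (.arc (nat_lit 41) n7221 (.arc (nat_lit 44) n7215 (.arc (nat_lit 47) n7206 (.arc (nat_lit 50) n7449 (.arc (nat_lit 53) n7445 (.arc (nat_lit 56) n7430 (.arc (nat_lit 59) n7439 (.arc (nat_lit 62) n7353 (.arc (nat_lit 65) n7349 (.arc (nat_lit 68) n7334 (.arc (nat_lit 71) n7343 (.fin (nat_lit 537850005) (nat_lit 0)))))))))))))
def n9577 : Nd := .arc (nat_lit 9) n9576 (.fin (nat_lit 138834069) (nat_lit 0))
def n9578 : Nd := .arc (nat_lit 6) n9562 (.arc (nat_lit 52) n7446 (.arc (nat_lit 55) n7447 (.arc (nat_lit 58) n7448 (.fin (nat_lit 537833621) (nat_lit 0)))))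
def n9579 : Nd := .arc (nat_lit 3) n9577 (.arc (nat_lit 6) n9578 (.fin (nat_lit 69636245) (nat_lit 0)))
def n9580 : Nd := .arc (nat_lit 6) n9576 (.fin (nat_lit 69644437) (nat_lit 0))
def n9581 : Nd := .arc (nat_lit 9) n9564 (.arc (nat_lit 64) n7350 (.arc (nat_lit 67) n7352 (.arc (nat_lit 70) n7351 (.fin (nat_lit 537817237) (nat_lit 0)))))
def n9582 : Nd := .arc (nat_lit 3) n9580 (.arc (nat_lit 9) n9581 (.fin (nat_lit 138825877) (nat_lit 0)))
def n9583 : Nd := .arc (nat_lit 3) n9575 (.arc (nat_lit 6) n9579 (.arc (nat_lit 9) n9582 (.fin (nat_lit 269881493) (nat_lit 0))))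
def n9584 : Nd := .arc (nat_lit 3) n9567 (.arc (nat_lit 40) n7222 (.arc (nat_lit 43) n7223 (.arc (nat_lit 46) n7224 (.fin (nat_lit 537841813) (nat_lit 0)))))
def n9585 : Nd := .arc (nat_lit 3) n9576 (.fin (nat_lit 269930645) (nat_lit 0))
def n9586 : Nd := .arc (nat_lit 6) n9584 (.arc (nat_lit 9) n9585 (.fin (nat_lit 69611669) (nat_lit 0)))
def n9587 : Nd := .arc (nat_lit 3) n9581 (.arc (nat_lit 6) n9580 (.fin (nat_lit 269914261) (nat_lit 0)))
def n9588 : Nd := .arc (nat_lit 3) n9569 (.arc (nat_lit 9) n9568 (.fin (nat_lit 537809045) (nat_lit 0)))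
def n9589 : Nd := .arc (nat_lit 3) n9586 (.arc (nat_lit 6) n9587 (.arc (nat_lit 9) n9588 (.fin (nat_lit 138809493) (nat_lit 0))))
def n9590 : Nd := .arc (nat_lit 6) n9585 (.arc (nat_lit 9) n9584 (.fin (nat_lit 138817685) (nat_lit 0)))
def n9591 : Nd := .arc (nat_lit 3) n9572 (.arc (nat_lit 6) n9571 (.fin (nat_lit 537825429) (nat_lit 0)))
def n9592 : Nd := .arc (nat_lit 3) n9578 (.arc (nat_lit 9) n9577 (.fin (nat_lit 269897877) (nat_lit 0)))
def n9593 : Nd := .arc (nat_lit 3) n9590 (.arc (nat_lit 6) n9591 (.arc (nat_lit 9) n9592 (.fin (nat_lit 69603477) (nat_lit 0))))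
def n9594 : Nd := .arc (nat_lit 14) n9478 (.arc (nat_lit 17) n9487 (.arc (nat_lit 20) n9493 (.arc (nat_lit 23) n9497 (.arc (nat_lit 26) n9510 (.arc (nat_lit 29) n9519 (.arc (nat_lit 32) n9525 (.arc (nat_lit 35) n9529 (.arc (nat_lit 38) n9542 (.arc (nat_lit 41) n9551 (.arc (nat_lit 44) n9557 (.arc (nat_lit 47) n9561 (.arc (nat_lit 50) n9574 (.arc (nat_lit 53) n9583 (.arc (nat_lit 56) n9589 (.arc (nat_lit 59) n9593 (.fin (nat_lit 138604701) (nat_lit 0)))))))))))))))))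
def n9595 : Nd := .arc (nat_lit 3) n9594 (.arc (nat_lit 40) n9502 (.arc (nat_lit 43) n9506 (.arc (nat_lit 46) n9509 (.fin (nat_lit 69390491) (nat_lit 0)))))
def n9596 : Nd := .arc (nat_lit 14) n9487 (.arc (nat_lit 17) n9478 (.arc (nat_lit 20) n9497 (.arc (nat_lit 23) n9493 (.arc (nat_lit 26) n9542 (.arc (nat_lit 29) n9551 (.arc (nat_lit 32) n9561 (.arc (nat_lit 35) n9557 (.arc (nat_lit 38) n9510 (.arc (nat_lit 41) n9519 (.arc (nat_lit 44) n9529 (.arc (nat_lit 47) n9525 (.arc (nat_lit 62) n9574 (.arc (nat_lit 65) n9583 (.arc (nat_lit 68) n9593 (.arc (nat_lit 71) n9589 (.fin (nat_lit 69398683) (nat_lit 0)))))))))))))))))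
def n9597 : Nd := .arc (nat_lit 3) n9596 (.arc (nat_lit 40) n9534 (.arc (nat_lit 43) n9538 (.arc (nat_lit 46) n9541 (.fin (nat_lit 138596509) (nat_lit 0)))))
def n9598 : Nd := .arc (nat_lit 6) n9595 (.arc (nat_lit 9) n9597 (.fin (nat_lit 269627545) (nat_lit 0)))
def n9599 : Nd := .arc (nat_lit 14) n9493 (.arc (nat_lit 17) n9497 (.arc (nat_lit 20) n9487 (.arc (nat_lit 23) n9478 (.arc (nat_lit 26) n9574 (.arc (nat_lit 29) n9583 (.arc (nat_lit 32) n9593 (.arc (nat_lit 35) n9589 (.arc (nat_lit 50) n9542 (.arc (nat_lit 53) n9551 (.arc (nat_lit 56) n9557 (.arc (nat_lit 59) n9561 (.arc (nat_lit 62) n9510 (.arc (nat_lit 65) n9519 (.arc (nat_lit 68) n9525 (.arc (nat_lit 71) n9529 (.fin (nat_lit 269676697) (nat_lit 0)))))))))))))))))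
def n9600 : Nd := .arc (nat_lit 9) n9599 (.arc (nat_lit 64) n9566 (.arc (nat_lit 67) n9573 (.arc (nat_lit 70) n9570 (.fin (nat_lit 69365915) (nat_lit 0)))))
def n9601 : Nd := .arc (nat_lit 6) n9596 (.arc (nat_lit 52) n9534 (.arc (nat_lit 55) n9538 (.arc (nat_lit 58) n9541 (.fin (nat_lit 269660313) (nat_lit 0)))))
def n9602 : Nd := .arc (nat_lit 3) n9600 (.arc (nat_lit 6) n9601 (.fin (nat_lit 138580125) (nat_lit 0)))
def n9603 : Nd := .arc (nat_lit 6) n9599 (.arc (nat_lit 52) n9566 (.arc (nat_lit 55) n9570 (.arc (nat_lit 58) n9573 (.fin (nat_lit 138588317) (nat_lit 0)))))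
def n9604 : Nd := .arc (nat_lit 9) n9594 (.arc (nat_lit 64) n9502 (.arc (nat_lit 67) n9509 (.arc (nat_lit 70) n9506 (.fin (nat_lit 269643929) (nat_lit 0)))))
def n9605 : Nd := .arc (nat_lit 3) n9603 (.arc (nat_lit 9) n9604 (.fin (nat_lit 69357723) (nat_lit 0)))
def n9606 : Nd := .arc (nat_lit 3) n9598 (.arc (nat_lit 6) n9602 (.arc (nat_lit 9) n9605 (.fin (nat_lit 537530519) (nat_lit 0))))
def n9607 : Nd := .arc (nat_lit 6) n9597 (.arc (nat_lit 9) n9595 (.fin (nat_lit 537538711) (nat_lit 0)))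
def n9608 : Nd := .arc (nat_lit 14) n9497 (.arc (nat_lit 17) n9493 (.arc (nat_lit 20) n9478 (.arc (nat_lit 23) n9487 (.arc (nat_lit 38) n9574 (.arc (nat_lit 41) n9583 (.arc (nat_lit 44) n9589 (.arc (nat_lit 47) n9593 (.arc (nat_lit 50) n9510 (.arc (nat_lit 53) n9519 (.arc (nat_lit 56) n9529 (.arc (nat_lit 59) n9525 (.arc (nat_lit 62) n9542 (.arc (nat_lit 65) n9551 (.arc (nat_lit 68) n9561 (.arc (nat_lit 71) n9557 (.fin (nat_lit 537587863) (nat_lit 0)))))))))))))))))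
def n9609 : Nd := .arc (nat_lit 9) n9608 (.fin (nat_lit 138571933) (nat_lit 0))
def n9610 : Nd := .arc (nat_lit 6) n9594 (.arc (nat_lit 52) n9502 (.arc (nat_lit 55) n9506 (.arc (nat_lit 58) n9509 (.fin (nat_lit 537571479) (nat_lit 0)))))
def n9611 : Nd := .arc (nat_lit 3) n9609 (.arc (nat_lit 6) n9610 (.fin (nat_lit 69374107) (nat_lit 0)))
def n9612 : Nd := .arc (nat_lit 6) n9608 (.fin (nat_lit 69382299) (nat_lit 0))
def n9613 : Nd := .arc (nat_lit 9) n9596 (.arc (nat_lit 64) n9534 (.arc (nat_lit 67) n9541 (.arc (nat_lit 70) n9538 (.fin (nat_lit 537555095) (nat_lit 0)))))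
def n9614 : Nd := .arc (nat_lit 3) n9612 (.arc (nat_lit 9) n9613 (.fin (nat_lit 138563741) (nat_lit 0)))
def n9615 : Nd := .arc (nat_lit 3) n9607 (.arc (nat_lit 6) n9611 (.arc (nat_lit 9) n9614 (.fin (nat_lit 269619353) (nat_lit 0))))
def n9616 : Nd := .arc (nat_lit 3) n9608 (.fin (nat_lit 269668505) (nat_lit 0))
def n9617 : Nd := .arc (nat_lit 3) n9599 (.arc (nat_lit 40) n9566 (.arc (nat_lit 43) n9570 (.arc (nat_lit 46) n9573 (.fin (nat_lit 537579671) (nat_lit 0)))))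
def n9618 : Nd := .arc (nat_lit 6) n9616 (.arc (nat_lit 9) n9617 (.fin (nat_lit 138555549) (nat_lit 0)))
def n9619 : Nd := .arc (nat_lit 3) n9604 (.arc (nat_lit 6) n9603 (.fin (nat_lit 537563287) (nat_lit 0)))
def n9620 : Nd := .arc (nat_lit 3) n9610 (.arc (nat_lit 9) n9609 (.fin (nat_lit 269635737) (nat_lit 0)))
def n9621 : Nd := .arc (nat_lit 3) n9618 (.arc (nat_lit 6) n9619 (.arc (nat_lit 9) n9620 (.fin (nat_lit 69341339) (nat_lit 0))))
def n9622 : Nd := .arc (nat_lit 6) n9617 (.arc (nat_lit 9) n9616 (.fin (nat_lit 69349531) (nat_lit 0)))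
def n9623 : Nd := .arc (nat_lit 3) n9613 (.arc (nat_lit 6) n9612 (.fin (nat_lit 269652121) (nat_lit 0)))
def n9624 : Nd := .arc (nat_lit 3) n9601 (.arc (nat_lit 9) n9600 (.fin (nat_lit 537546903) (nat_lit 0)))
def n9625 : Nd := .arc (nat_lit 3) n9622 (.arc (nat_lit 6) n9623 (.arc (nat_lit 9) n9624 (.fin (nat_lit 138547357) (nat_lit 0))))
def n9626 : Nd := .arc (nat_lit 3) n4485 (.arc (nat_lit 6) n7052 (.arc (nat_lit 9) n7053 (.arc (nat_lit 14) n8102 (.arc (nat_lit 17) n8111 (.arc (nat_lit 20) n8117 (.arc (nat_lit 23) n8121 (.arc (nat_lit 26) n8774 (.arc (nat_lit 29) n8783 (.arc (nat_lit 32) n8789 (.arc (nat_lit 35) n8793 (.arc (nat_lit 38) n9190 (.arc (nat_lit 40) n4249 (.arc (nat_lit 41) n9199 (.arc (nat_lit 43) n4253 (.arc (nat_lit 44) n9205 (.arc (nat_lit 46) n4256 (.arc (nat_lit 47) n9209 (.arc (nat_lit 50) n9446 (.arc (nat_lit 52) n6192 (.arc (nat_lit 53) n9455 (.arc (nat_lit 55) n6196 (.arc (nat_lit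 56) n9461 (.arc (nat_lit 58) n6199 (.arc (nat_lit 59) n9465 (.arc (nat_lit 62) n9606 (.arc (nat_lit 64) n7024 (.arc (nat_lit 65) n9615 (.arc (nat_lit 67) n7031 (.arc (nat_lit 68) n9621 (.arc (nat_lit 70) n7028 (.arc (nat_lit 71) n9625 (.fin (nat_lit 67244051) (nat_lit 0)))))))))))))))))))))))))))))))))

end

end Pool.Agent.Lib.MP_5854e1_co.Da
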