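import Pool.Agent.Lib.MP_5854e1_co.DartChk

/-!
# The cells of a map of strips follow the automaton
-/

set_option autoImplicit false

open Equiv Equiv.Perm

namespace Pool.Agent.Lib.MP_5854e1_co

open Model24 (Kind)

noncomputable section

/-- The arcs of the own darts of the shapes after the first dart. -/
def tokTab : List (List ℕ) :=
  [[], [3], [3, 67], [3, 55], [3, 14], [3, 68], [3, 56], [6],
   [6, 55], [6, 55, 6], [6, 55, 6, 55], [6, 14], [6, 14, 9], [6, 56], [6, 56, 6], [6],
   [6, 55], [6, 14], [6, 68], [6, 56], [9], [9, 67], [9, 67, 9], [9, 67, 9, 67],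
   [9, 14], [9, 14, 6], [9, 68], [9, 68, 9], [9], [9, 67], [9, 14], [9, 56],
   [9, 68], [40], [40], [43], [43], [46], [46], [52],
   [52], [55], [55, 6], [55, 6, 55], [55, 6, 55, 6], [55, 6], [55, 6, 55], [55, 3],
   [55, 3, 67], [58], [64], [64], [67], [67, 9], [67, 9, 67], [67, 9, 67, 9],
   [67, 9], [67, 9, 67], [67, 3], [67, 3, 55], [70], [14], [14, 3], [14, 9],
   [14, 9], [14, 6], [14, 6], [17], [20], [20], [23], [23],
   [26], [29], [32], [35], [38], [41], [41], [44],
   [44], [47], [47], [50], [53], [53], [56], [56, 9],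
   [56, 6], [56, 6], [56, 3], [59], [62], [65], [65], [68],
   [68, 6], [68, 9], [68, 9], [68, 3], [71]]

/-- The indices of the labels of the last darts of the shapes. -/
def lastTab : ℕ := 0x17bd6b4b56b49ce3184a3183dee735ac5a92839cc629ce6314972ddb5736b6ad6659b62f6c6518bdee735af59de36bca78b5e3728ce135c5355ae15e65bcc20

/-- The arcs of the own darts of a shape after the first dart. -/
def tokT (k : ℕ) : List ℕ := rGet [] tokTab k

/-- The index of the label of the last dart of a shape. -/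
def lastC (k : ℕ) : ℕ := Nat.mod (Nat.shiftRight lastTab (Nat.mul (nat_lit 5) k)) (nat_lit 32)

theorem tokT_spec : ∀ k < 101, tokT k = tokC (1, 3) (ownToks (shp k)) ∧
    lastC k = lc (lastL (1, 3) (ownToks (shp k))) := by
  decide +kernel

/-- The arcs of an option `o` after a strip of shape `k`. -/
def stepT (k o : ℕ) : List ℕ :=
  Nat.add (Nat.mod o (nat_lit 3)) (Nat.mul (nat_lit 3) (rotC (lastC k)
    (Nat.mod (Nat.div o (nat_lit 3)) (nat_lit 24)))) :: tokT (Nat.div o (nat_lit 72))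

/-- The node of a scan with one dart. -/
def rootN : Nd := Da.n9626

theorem rootN_code : rootN.code = encS (scInit (1, 3)) := by decide +kernel

theorem rel_rootN {p : Lb} (hp : p ∈ allLab) : rootN.Rel p (scInit p) where
  good := Da.good_root
  bdd := bdd_scInit p
  mem := hp
  code := by
    rw [rootN_code, relSc_scInit, relLb_nrm, rotL_self p (SMap.okL_of_mem p hp)]

theorem ownToks_relS (a : Lb) (s : Strip) :
    ownToks (relS (nrm a) s) = (ownToks s).map fun q => (q.1, rotL a q.2) := by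
  unfold ownToks relS
  rw [List.map_map, List.map_map]
  rfl

namespace SMap

variable {F : Type*} (T : SMap F)

theorem ownToks_mem (d : F) : ∀ q ∈ ownToks (T.S d), q.2 ∈ allLab := by
  intro q hq
  obtain ⟨r, hr, rfl⟩ := List.mem_map.1 hq
  exact T.labs_mem d r hr

theorem tokT_kx (d : F) : tokT (T.kx d) = tokC (T.S d).1 (ownToks (T.S d)) := by
  rw [(tokT_spec _ (T.kx_lt d)).1, shp_kx]
  have h := tokC_rel (T.okL_S d) (ownToks (T.S d)) (T.S d).1 (T.okL_S d) (T.ownToks_mem d)
  rw [rotL_self _ (T.okL_S d), ← ownToks_relS] at h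
  exact h

/-- The label of the last dart. -/
def lastLb (d : F) : Lb := lastL (T.S d).1 (ownToks (T.S d))

theorem lastLb_mem (d : F) : T.lastLb d ∈ allLab := lastL_mem _ _ (T.lab_mem d) (T.ownToks_mem d)

theorem lastC_kx (d : F) : lastC (T.kx d) = lc (rotL (T.S d).1 (T.lastLb d)) := by
  rw [(tokT_spec _ (T.kx_lt d)).2, shp_kx]
  have h := lastL_rel (T.S d).1 (ownToks (T.S d)) (T.S d).1
  rw [rotL_self _ (T.okL_S d), ← ownToks_relS] at h
  exact congrArg lc h

/-- The arcs from a strip to the next one. -/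
theorem stepT_oc (d : F) : stepT (T.kx d) (T.oc d) =
    tokC (T.lastLb d) (stripToks (T.K (T.N d)) (T.S (T.N d))) := by
  have h1 : stepT (T.kx d) (T.oc d) =
      (T.oc d % 3 + 3 * rotC (lastC (T.kx d)) (T.oc d / 3 % 24)) :: tokT (T.oc d / 72) := rfl
  rw [h1, oc_κ, oc_q, oc_k, tokT_kx, lastC_kx]
  unfold stripToks
  rw [tokC]
  have hm := SMap.rotL_mem_allLab (T.S d).1 _ (T.lastLb_mem d)
  rw [rotC_eq _ (lc_lt _ hm) _ (T.lx_lt _ _), lbl_lc _ hm, lbl_lx]
  have h2 : T.rlb d (T.N d) = rotL (T.S d).1 (T.S (T.N d)).1 := rfl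
  rw [h2, rotL_rotL (T.okL_S d) (SMap.okL_of_mem _ (T.lastLb_mem d))]

theorem isLabAut_one : IsLabAut (1 : Perm (Fin 7)) := ⟨rfl, fun _ _ h => h⟩

theorem lastL_dropS (n : ℕ) : ∀ (i : ℕ) (s : Strip), s.2.length = n → i ≤ n →
    lastL (dropS i s).1 (ownToks (dropS i s)) = lastL s.1 (ownToks s) := by
  induction n with
  | zero =>
    intro i s _ hi
    obtain rfl : i = 0 := by omega
    rfl
  | succ n ih =>
    rintro i ⟨p, l⟩ hl hi
    cases i with
    | zero => rfl
    | succ i =>
      cases l with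
      | nil => rfl
      | cons q l => exact ih i (q.2, l) (by simpa using hl) (by omega)

theorem dropS_mem : ∀ (i : ℕ) (s : Strip), s.1 ∈ allLab → (∀ q ∈ s.2, q.2 ∈ allLab) →
    (dropS i s).1 ∈ allLab ∧ ∀ q ∈ ownToks (dropS i s), q.2 ∈ allLab := by
  intro i
  induction i with
  | zero =>
    intro s h1 h2
    refine ⟨h1, fun q hq => ?_⟩
    obtain ⟨r, hr, rfl⟩ := List.mem_map.1 hq
    exact h2 r hr
  | succ i ih =>
    rintro ⟨p, l⟩ h1 h2
    cases l with
    | nil => exact ⟨h1, fun q hq => absurd hq (by simp [dropS, ownToks])⟩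
    | cons q l =>
      exact ih (q.2, l) (h2 q List.mem_cons_self) fun r hr => h2 r (List.mem_cons_of_mem _ hr)

/-- The nodes of a scan of a cell by strips, from a node after the first strip on. -/
def nodeAt (d : F) (m0 : Nd) : ℕ → Option Nd
  | 0 => some m0
  | j + 1 => (nodeAt d m0 j).bind fun m => m.run (stepT (T.kx (T.N^[j] d)) (T.oc (T.N^[j] d)))

theorem nodeAt_rel {d : F} {σ : ℕ → Sc} {m0 : Nd} (h0 : m0.Rel (T.lastLb d) (σ 0))
    (h : ∀ j, j + 1 < Function.minimalPeriod T.N d →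
      scStrip (σ j) (T.K (T.N^[j + 1] d)) (T.S (T.N^[j + 1] d)) = some (σ (j + 1))) :
    ∀ j < Function.minimalPeriod T.N d, ∃ m, T.nodeAt d m0 j = some m ∧
      m.Rel (T.lastLb (T.N^[j] d)) (σ j) := by
  intro j
  induction j with
  | zero => intro _; exact ⟨m0, rfl, h0⟩
  | succ j ih =>
    intro hj
    obtain ⟨m, h1, h2⟩ := ih (by omega)
    have h3 := h j hj
    have h6 := T.ownToks_mem (T.N^[j + 1] d)
    obtain ⟨m', h7, h8⟩ := h2.run (l := stripToks (T.K (T.N^[j + 1] d)) (T.S (T.N^[j + 1] d)))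
      (fun q hq => by
        rcases List.mem_cons.1 hq with rfl | hq
        · exact T.lab_mem _
        · exact h6 q hq) h3
    refine ⟨m', ?_, h8⟩
    rw [nodeAt, h1, Option.bind_some, stepT_oc, ← Function.iterate_succ_apply' T.N]
    exact h7

/-- **The nodes of a cell**, scanned from any dart of the first strip on: all steps are arcs of
the automaton. -/
theorem nodes_from (d : F) {i : ℕ} (hi : i ≤ (T.S d).2.length) : ∃ ν : ℕ → Nd,
    rootN.run (tokC (dropS i (T.S d)).1 (ownToks (dropS i (T.S d)))) = some (ν 0) ∧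
    ∀ j, j + 1 < Function.minimalPeriod T.N d →
      (ν j).run (stepT (T.kx (T.N^[j] d)) (T.oc (T.N^[j] d))) = some (ν (j + 1)) := by
  obtain ⟨σ, h1, h2⟩ := T.scanFrom 1 isLabAut_one d i hi
  rw [relS_one] at h1
  obtain ⟨hm1, hm2⟩ := dropS_mem i (T.S d) (T.lab_mem d) (T.labs_mem d)
  obtain ⟨m, h3, h4⟩ := (rel_rootN hm1).run hm2 h1
  rw [lastL_dropS _ i (T.S d) rfl hi] at h4
  have h5 := T.nodeAt_rel h4 (fun j hj => by have := h2 j hj; rwa [relS_one] at this)
  refine ⟨fun j => (T.nodeAt d m j).getD rootN, h3, fun j hj => ?_⟩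
  obtain ⟨m1, e1, -⟩ := h5 j (by omega)
  obtain ⟨m2, e2, -⟩ := h5 (j + 1) hj
  have e3 := e2
  rw [nodeAt, e1, Option.bind_some] at e3
  show ((T.nodeAt d m j).getD rootN).run _ = some ((T.nodeAt d m (j + 1)).getD rootN)
  rw [e1, e2, Option.getD_some, Option.getD_some, e3]

/-- **The nodes of a cell**, scanned from the last dart of a strip on. -/
theorem nodes_last (d : F) : ∃ ν : ℕ → Nd, ν 0 = rootN ∧
    ∀ j, j + 1 < Function.minimalPeriod T.N d →
      (ν j).run (stepT (T.kx (T.N^[j] d)) (T.oc (T.N^[j] d))) = some (ν (j + 1)) := by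
  obtain ⟨ν, h1, h2⟩ := T.nodes_from d (i := (T.S d).2.length) le_rfl
  refine ⟨ν, ?_, h2⟩
  have h3 : ownToks (dropS (T.S d).2.length (T.S d)) = [] := by
    show ownToks (lastS (T.S d)) = []
    rw [lastS_eq]
    rfl
  rw [h3] at h1
  exact (Option.some.inj h1).symm

/-- **The nodes of a cell**, scanned from the first dart of a strip on: all steps are arcs of the
automaton, and the last node can be closed with the corner before the strip. -/
theorem nodes (d : F) : ∃ ν : ℕ → Nd, rootN.run (tokT (T.kx d)) = some (ν 0) ∧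
    (∀ j, j + 1 < Function.minimalPeriod T.N d →
      (ν j).run (stepT (T.kx (T.N^[j] d)) (T.oc (T.N^[j] d))) = some (ν (j + 1))) ∧
    bt (ν (Function.minimalPeriod T.N d - 1)).mask (kc (T.K d)) = true := by
  obtain ⟨σ, h1, h2, h6⟩ := T.scan 1 isLabAut_one d
  rw [relS_one] at h1
  obtain ⟨m, h3, h4⟩ := (rel_rootN (T.lab_mem d)).run (T.ownToks_mem d) h1
  have h5 := T.nodeAt_rel h4 (fun j hj => by have := h2 j hj; rwa [relS_one] at this)
  refine ⟨fun j => (T.nodeAt d m j).getD rootN, ?_, fun j hj => ?_, ?_⟩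
  · rw [tokT_kx]
    exact h3
  · obtain ⟨m1, e1, -⟩ := h5 j (by omega)
    obtain ⟨m2, e2, -⟩ := h5 (j + 1) hj
    have e3 := e2
    rw [nodeAt, e1, Option.bind_some] at e3
    show ((T.nodeAt d m j).getD rootN).run _ = some ((T.nodeAt d m (j + 1)).getD rootN)
    rw [e1, e2, Option.getD_some, Option.getD_some, e3]
  · have hb := T.three d
    obtain ⟨m1, e1, e2⟩ := h5 (Function.minimalPeriod T.N d - 1) (by omega)
    show bt ((T.nodeAt d m (Function.minimalPeriod T.N d - 1)).getD rootN).mask (kc (T.K d)) = true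
    rw [e1, Option.getD_some]
    exact e2.close h6

end SMap

end

end Pool.Agent.Lib.MP_5854e1_co
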