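import Pool.Agent.Lib.MP_5854e1_co.DecRow

/-!
# Rows of listed shares as numbers

A row is a number: for each group ten binary digits for the number of the entries, 26 for the two
tokens of the group, and for each entry 26 digits for its tokens and 20 for the value.
-/

set_option autoImplicit false

namespace Pool.Agent.Lib.MP_5854e1_co

/-- A group with `c` entries. -/
noncomputable def jrOf (c : Nat) : Nat → DR :=
  Nat.rec (motive := fun _ => Nat → DR) (fun _ => DR.nil)
    (fun _ ih n => rF (Nat.mod n (nat_lit 67108864)) fun x =>
      rF (Nat.mod (Nat.shiftRight n (nat_lit 26)) (nat_lit 1048576)) fun v =>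
      DR.e x v (ih (Nat.shiftRight n (nat_lit 46)))) c

/-- A row with `c` groups. -/
noncomputable def jlOf (c : Nat) : Nat → DL :=
  Nat.rec (motive := fun _ => Nat → DL) (fun _ => DL.nil)
    (fun _ ih n => rF (Nat.mod n (nat_lit 1024)) fun m =>
      rF (Nat.mod (Nat.shiftRight n (nat_lit 10)) (nat_lit 67108864)) fun x =>
      DL.g x (jrOf m (Nat.shiftRight n (nat_lit 36)))
        (ih (Nat.shiftRight n (Nat.add (nat_lit 36) (Nat.mul (nat_lit 46) m))))) c

/-- A row with the header `h` and `c` groups. -/
noncomputable def jhOf (h c : Nat) (n : Nat) : DL := DL.g h DR.nil (jlOf c n)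

end Pool.Agent.Lib.MP_5854e1_co
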