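import Pool.Agent.Lib.MP_5854e1_co.DecRow
import Pool.Agent.Lib.MP_5854e1_co.BlkD

/-!
# Rows of further shares as numbers

A row is a number: for each group twelve binary digits for the number of the entries, 39 for the three
tokens of the group, and for each entry 52 digits for its tokens and 20 for the value.
-/

set_option autoImplicit false

namespace Pool.Agent.Lib.MP_5854e1_co

/-- A group with `c` entries. -/
noncomputable def krOf (c : Nat) : Nat → DR :=
  Nat.rec (motive := fun _ => Nat → DR) (fun _ => DR.nil)
    (fun _ ih n => rF (Nat.mod n (nat_lit 4503599627370496)) fun x =>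
      rF (Nat.mod (Nat.shiftRight n (nat_lit 52)) (nat_lit 1048576)) fun v =>
      DR.e x v (ih (Nat.shiftRight n (nat_lit 72)))) c

/-- A row with `c` groups. -/
noncomputable def klOf (c : Nat) : Nat → DL :=
  Nat.rec (motive := fun _ => Nat → DL) (fun _ => DL.nil)
    (fun _ ih n => rF (Nat.mod n (nat_lit 4096)) fun m =>
      rF (Nat.mod (Nat.shiftRight n (nat_lit 12)) (nat_lit 549755813888)) fun x =>
      DL.g x (krOf m (Nat.shiftRight n (nat_lit 51)))
        (ih (Nat.shiftRight n (Nat.add (nat_lit 51) (Nat.mul (nat_lit 72) m))))) c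

end Pool.Agent.Lib.MP_5854e1_co
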