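import Pool.Agent.Lib.MP_5854e1_co.DtD

/-!
# Rows of corrections as numbers

A row is a number: for each group seven binary digits for the number of the entries, 21 for the outer
token, and for each entry 13 digits for the inner token and 16 for the value.
-/

set_option autoImplicit false

namespace Pool.Agent.Lib.MP_5854e1_co

/-- Evaluates the number before it is used. -/
noncomputable def rF {α : Type} (x : Nat) (f : Nat → α) : α :=
  Nat.rec (motive := fun _ => α) (f (nat_lit 0)) (fun n _ => f (Nat.succ n)) x

/-- A group with `c` entries. -/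
noncomputable def drOf (c : Nat) : Nat → DR :=
  Nat.rec (motive := fun _ => Nat → DR) (fun _ => DR.nil)
    (fun _ ih n => rF (Nat.mod n (nat_lit 8192)) fun x =>
      rF (Nat.mod (Nat.shiftRight n (nat_lit 13)) (nat_lit 65536)) fun v =>
      DR.e x v (ih (Nat.shiftRight n (nat_lit 29)))) c

/-- A row with `c` groups. -/
noncomputable def dlOf (c : Nat) : Nat → DL :=
  Nat.rec (motive := fun _ => Nat → DL) (fun _ => DL.nil)
    (fun _ ih n => rF (Nat.mod n (nat_lit 128)) fun m =>
      rF (Nat.mod (Nat.shiftRight n (nat_lit 7)) (nat_lit 2097152)) fun x =>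
      DL.g x (drOf m (Nat.shiftRight n (nat_lit 28)))
        (ih (Nat.shiftRight n (Nat.add (nat_lit 28) (Nat.mul (nat_lit 29) m))))) c

end Pool.Agent.Lib.MP_5854e1_co
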