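import Mathlib

/-!
Finite planar covers of simple graphs.
-/

set_option autoImplicit false

namespace Pool.Agent.Lib.MP_5854e1_co

/-- The dart `(u, v)` is sent to the dart `(v, u)`. -/
def flip {W : Type*} (H : SimpleGraph W) : Equiv.Perm H.Dart where
  toFun d := d.symm
  invFun d := d.symm
  left_inv d := d.symm_symm
  right_inv d := d.symm_symm

/-- A finite simple graph is planar if it has a rotation system of genus zero: a permutation `rot`
of the darts whose cycles are exactly the sets of darts starting at one vertex (the cyclic order of
the darts around the vertex), such that Euler's formula `V + F = E + 2 C` holds. Here `V` is the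
number of cycles of `rot` (vertices that are not isolated), `F` the number of faces (cycles of
`x ↦ rot (flip x)`), `E` the number of edges and `C` the number of connected components that have
an edge. -/
def IsPlanar {W : Type*} (H : SimpleGraph W) : Prop :=
  ∃ rot : Equiv.Perm H.Dart, (∀ x y, rot.SameCycle x y ↔ x.fst = y.fst) ∧
    Nat.card (Quot fun x y => rot x = y) + Nat.card (Quot fun x y => rot (flip H x) = y) =
      Nat.card H.edgeSet + 2 * Nat.card (Quot fun x y => rot x = y ∨ flip H x = y)

/-- `φ` is a covering projection of `H` onto `G`: it maps the neighbourhood of every vertex `v`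
bijectively onto the neighbourhood of `φ v`. -/
def IsCover {W U : Type*} (H : SimpleGraph W) (G : SimpleGraph U) (φ : W → U) : Prop :=
  ∀ v, Set.BijOn φ (H.neighborSet v) (G.neighborSet (φ v))

/-- The complete multipartite graph `K_{1,2,2,2}`, with parts `{0}`, `{1, 2}`, `{3, 4}`, `{5, 6}`. -/
def K1222 : SimpleGraph (Fin 7) where
  Adj i j := (i.val + 1) / 2 ≠ (j.val + 1) / 2
  symm := ⟨fun _ _ h => h.symm⟩
  loopless := ⟨fun _ h => h rfl⟩

instance : DecidableRel K1222.Adj := fun i j =>
  inferInstanceAs (Decidable ((i.val + 1) / 2 ≠ (j.val + 1) / 2))

end Pool.Agent.Lib.MP_5854e1_co
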