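/-!
# The types of the sparse tables

No imports: the data modules need only these types.
-/

set_option autoImplicit false

namespace Pool.Agent.Lib.MP_5854e1_co

/-- A group: right tokens and values. -/
inductive DR : Type
  | nil : DR
  | e : Nat → Nat → DR → DR

/-- A row: left tokens and groups. -/
inductive DL : Type
  | nil : DL
  | g : Nat → DR → DL → DL

/-- A trie of rows; an inner node tests a binary digit of the key. -/
inductive DT : Type
  | z : DT
  | lf : Nat → DL → DT
  | nd : Nat → DT → DT → DT

end Pool.Agent.Lib.MP_5854e1_co
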