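import Pool.Agent.Lib.MP_5854e1_co.Fan
import Pool.Agent.Lib.MP_5854e1_co.DtD

/-!
# Sparse corrections of the fans and their closure over the triangles

The correction of a corner is `D (own pair) - δ (fan)`. The table `δ` is a trie of rows: the key is
the corner `(k, j)`, a row consists of groups with the same left token, a group of pairs of a right
token and a value. The tokens are exact: the index of the corner, plus one, and zero for a face
which is not a triangle.
-/

set_option autoImplicit false

open Equiv Equiv.Perm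

namespace Pool.Agent.Lib.MP_5854e1_co

open Model24 (Kind)

/-- The value of a right token. -/
noncomputable def DR.val (r : DR) (x : ℕ) : ℕ :=
  DR.rec (motive := fun _ => ℕ) (nat_lit 0)
    (fun xr v _ ih => Bool.rec (motive := fun _ => ℕ) ih v (Nat.beq xr x)) r

/-- The group of a left token. -/
noncomputable def DL.grp (l : DL) (x : ℕ) : DR :=
  DL.rec (motive := fun _ => DR) DR.nil
    (fun xl r _ ih => Bool.rec (motive := fun _ => DR) ih r (Nat.beq xl x)) l

/-- The row of a key. -/
noncomputable def DT.get (t : DT) (j : ℕ) : DL :=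
  DT.rec (motive := fun _ => DL) DL.nil
    (fun i l => Bool.rec (motive := fun _ => DL) DL.nil l (Nat.beq i j))
    (fun i _ _ ia ib => Bool.rec (motive := fun _ => DL) ib ia
      (Nat.beq (Nat.mod (Nat.shiftRight j i) (nat_lit 2)) (nat_lit 0))) t

/-- All entries of a group satisfy a condition. -/
noncomputable def DR.all (f : ℕ → ℕ → Bool) (r : DR) : Bool :=
  DR.rec (motive := fun _ => Bool) true
    (fun x v _ ih => Bool.rec (motive := fun _ => Bool) false ih (f x v)) r

/-- All groups of a row satisfy a condition. -/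
noncomputable def DL.all (f : ℕ → DR → Bool) (l : DL) : Bool :=
  DL.rec (motive := fun _ => Bool) true
    (fun x r _ ih => Bool.rec (motive := fun _ => Bool) false ih (f x r)) l

/-- The value of a pair of tokens in a row. -/
noncomputable def DL.val (l : DL) (xl xr : ℕ) : ℕ := DR.val (DL.grp l xl) xr

theorem DR.val_of_all {f : ℕ → ℕ → Bool} {r : DR} (h : DR.all f r = true) (x : ℕ) :
    DR.val r x = 0 ∨ f x (DR.val r x) = true := by
  induction r with
  | nil => exact Or.inl rfl
  | e y v r ih =>
    have h' : (Bool.rec (motive := fun _ => Bool) false (DR.all f r) (f y v)) = true := h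
    have e1 : DR.val (DR.e y v r) x =
      Bool.rec (motive := fun _ => ℕ) (DR.val r x) v (Nat.beq y x) := rfl
    rw [e1]
    cases h1 : f y v with
    | false => rw [h1] at h'; exact absurd h' Bool.false_ne_true
    | true =>
      rw [h1] at h'
      cases h2 : Nat.beq y x with
      | false => exact ih h'
      | true =>
        rw [← Nat.eq_of_beq_eq_true h2]
        exact Or.inr h1

theorem DL.grp_of_all {f : ℕ → DR → Bool} {l : DL} (h : DL.all f l = true) (x : ℕ) :
    DL.grp l x = DR.nil ∨ f x (DL.grp l x) = true := by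
  induction l with
  | nil => exact Or.inl rfl
  | g y r l ih =>
    have h' : (Bool.rec (motive := fun _ => Bool) false (DL.all f l) (f y r)) = true := h
    have e1 : DL.grp (DL.g y r l) x =
      Bool.rec (motive := fun _ => DR) (DL.grp l x) r (Nat.beq y x) := rfl
    rw [e1]
    cases h1 : f y r with
    | false => rw [h1] at h'; exact absurd h' Bool.false_ne_true
    | true =>
      rw [h1] at h'
      cases h2 : Nat.beq y x with
      | false => exact ih h'
      | true =>
        rw [← Nat.eq_of_beq_eq_true h2]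
        exact Or.inr h1

theorem DL.val_of_all {f : ℕ → DR → Bool} {l : DL} (h : DL.all f l = true) {x y : ℕ}
    (h0 : 0 < DL.val l x y) : f x (DL.grp l x) = true := by
  rcases DL.grp_of_all h x with h1 | h1
  · unfold DL.val at h0
    rw [h1] at h0
    exact absurd h0 (Nat.lt_irrefl 0)
  · exact h1

/-- The check of an entry: `S` is the sum of the three values of `D`, `lb` and `lc` are the rows of
the next two corners of the triangle. -/
noncomputable def chkE (S : ℕ) (lb lc : DL) (x3 x1 v : ℕ) : Bool :=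
  rAnd (Nat.ble v S)
    (DR.all (fun x2 vb => Nat.ble (Nat.add v (Nat.add vb (DR.val (DL.grp lc x2) x3))) S)
      (DL.grp lb x1))

/-- The check of a row. -/
noncomputable def chkRd (S : ℕ) (lb lc la : DL) : Bool :=
  DL.all (fun x3 r => DR.all (fun x1 v => chkE S lb lc x3 x1 v) r) la

theorem chkRd_sound {S : ℕ} {la lb lc : DL} (h : chkRd S lb lc la = true) (x3 x1 x2 : ℕ) :
    DL.val la x3 x1 ≤ S ∧ (0 < DL.val la x3 x1 → 0 < DL.val lb x1 x2 →
      DL.val la x3 x1 + (DL.val lb x1 x2 + DL.val lc x2 x3) ≤ S) := by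
  rcases Nat.eq_zero_or_pos (DL.val la x3 x1) with h0 | h0
  · rw [h0]
    exact ⟨Nat.zero_le _, fun h1 => absurd h1 (Nat.lt_irrefl 0)⟩
  · have h1 := DL.val_of_all h h0
    rcases DR.val_of_all h1 x1 with h2 | h2
    · exact absurd h0 (by
        have h3 : DL.val la x3 x1 = 0 := h2
        omega)
    obtain ⟨h3, h4⟩ := rAnd_iff.1 h2
    refine ⟨Nat.le_of_ble_eq_true h3, fun _ h5 => ?_⟩
    rcases DR.val_of_all h4 x2 with h6 | h6
    · exact absurd h5 (by
        have h7 : DL.val lb x1 x2 = 0 := h6
        omega)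
    exact Nat.le_of_ble_eq_true h6

/-- The three rows of a triangle. -/
theorem chkRd_three {S : ℕ} {la lb lc : DL} (ha : chkRd S lb lc la = true)
    (hb : chkRd S lc la lb = true) (hc : chkRd S la lb lc = true) (x1 x2 x3 : ℕ) :
    DL.val la x3 x1 + DL.val lb x1 x2 + DL.val lc x2 x3 ≤ S := by
  have h1 := chkRd_sound ha x3 x1 x2
  have h2 := chkRd_sound hb x1 x2 x3
  have h3 := chkRd_sound hc x2 x3 x1
  by_cases ea : 0 < DL.val la x3 x1
  · by_cases eb : 0 < DL.val lb x1 x2
    · have := h1.2 ea eb
      omega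
    · by_cases ec : 0 < DL.val lc x2 x3
      · have := h3.2 ec ea
        omega
      · have := h1.1
        omega
  · by_cases eb : 0 < DL.val lb x1 x2
    · by_cases ec : 0 < DL.val lc x2 x3
      · have := h2.2 eb ec
        omega
      · have := h2.1
        omega
    · have := h3.1
      omega

/-- The key of a corner. -/
def dkey (k j : ℕ) : ℕ := Nat.add j (Nat.mul (nat_lit 8192) k)

/-- The check of the row of the corner `(k, o, j)`. -/
noncomputable def chkC (t : DT) (D : ℕ → ℕ → ℕ) (k o j : ℕ) : Bool :=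
  DL.rec (motive := fun _ => Bool) true
    (fun _ _ _ _ => chkRd (Nat.add (D k o) (Nat.add
        (D (Nat.div (flA k o) (nat_lit 16384)) (Nat.mod (triA k j) (nat_lit 512)))
        (D (farK k o j) (t3A k j))))
      (DT.get t (dkey (Nat.div (flA k o) (nat_lit 16384)) (rjA k j)))
      (DT.get t (dkey (farK k o j) (rjA (Nat.div (flA k o) (nat_lit 16384)) (rjA k j))))
      (DT.get t (dkey k j)))
    (DT.get t (dkey k j))

theorem chkC_sound {t : DT} {D : ℕ → ℕ → ℕ} {k o j : ℕ} (h : chkC t D k o j = true) :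
    chkRd (D k o + (D (Nat.div (flA k o) (nat_lit 16384)) (Nat.mod (triA k j) (nat_lit 512)) +
        D (farK k o j) (t3A k j)))
      (DT.get t (dkey (Nat.div (flA k o) (nat_lit 16384)) (rjA k j)))
      (DT.get t (dkey (farK k o j) (rjA (Nat.div (flA k o) (nat_lit 16384)) (rjA k j))))
      (DT.get t (dkey k j)) = true := by
  unfold chkC at h
  cases h1 : DT.get t (dkey k j) with
  | nil => rfl
  | g x r l =>
    rw [h1] at h
    exact h

/-- The check of all rows of the shape `k`. -/
noncomputable def chkK (t : DT) (D : ℕ → ℕ → ℕ) (k : ℕ) : Bool :=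
  rAll (fun x => rAllN (fun i => chkC t D k (Nat.mod x (nat_lit 512))
      (Nat.add (triOff k (Nat.mod x (nat_lit 512))) i))
    (Nat.sub (triOff k (Nat.succ (Nat.mod x (nat_lit 512)))) (triOff k (Nat.mod x (nat_lit 512)))))
    (fl k)

/-- The exact token of the corner after a strip, from the right. -/
def trX (_k s : ℕ) : ℕ := s

theorem tokChk_trX : rAllN (tokChk trX rjA) 101 = true := by
  decide +kernel

namespace SMap

variable {F : Type*} (T : SMap F)

/-- The correction `δ` of the corner after `a`. -/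
noncomputable def dl (t : DT) (a : F) : ℕ :=
  DL.val (DT.get t (dkey (T.kx a) (T.rs a))) (T.X trX (T.I a)) (T.X trX (T.N a))

/-- **The closure of the corrections over a triangle.** -/
theorem dl_tri {t : DT} {D : ℕ → ℕ → ℕ} (h : ∀ k < 101, chkK t D k = true) {a : F} (ha : T.Tri a) :
    T.dl t a + T.dl t (T.I (T.N a)) + T.dl t (T.I (T.N (T.I (T.N a)))) ≤
      D (T.kx a) (T.ox a) + D (T.kx (T.I (T.N a))) (T.ox (T.I (T.N a))) +
        D (T.kx (T.I (T.N (T.I (T.N a))))) (T.ox (T.I (T.N (T.I (T.N a))))) := by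
  have key : ∀ b, T.Tri b → chkRd (D (T.kx b) (T.ox b) +
      (D (T.kx (T.I (T.N b))) (T.ox (T.I (T.N b))) +
        D (T.kx (T.I (T.N (T.I (T.N b))))) (T.ox (T.I (T.N (T.I (T.N b)))))))
      (DT.get t (dkey (T.kx (T.I (T.N b))) (T.jx (T.I (T.N b)))))
      (DT.get t (dkey (T.kx (T.I (T.N (T.I (T.N b))))) (T.jx (T.I (T.N (T.I (T.N b)))))))
      (DT.get t (dkey (T.kx b) (T.jx b))) = true := by
    intro b hb
    have h1 := rAll_iff.1 (h _ (T.kx_lt b)) _ (T.ex_mem b)
    have e0 : Nat.mod (T.ex b) (nat_lit 512) = T.ox b := T.ex_ox b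
    rw [e0] at h1
    obtain ⟨h2, -⟩ := T.tri_px hb
    have h3 := rAllN_iff.1 h1 (T.px b) (by
      show T.px b < triOff (T.kx b) (T.ox b + 1) - triOff (T.kx b) (T.ox b)
      rw [← length_tri]
      exact h2)
    have e1 : Nat.add (triOff (T.kx b) (T.ox b)) (T.px b) = T.jx b := rfl
    rw [e1] at h3
    have h4 := chkC_sound h3
    rw [T.farK_eq hb, T.t3A_jx hb, ← T.rot_j hb, ← T.rot_o hb, ← T.rot_k b,
      ← T.rot_j (T.tri_rot hb)] at h4
    exact h4
  have hb := T.tri_rot ha
  have hc := T.tri_rot hb
  have e3 := T.rot_three ha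
  have h1 := key a ha
  have h2 := key _ hb
  have h3 := key _ hc
  rw [e3] at h2 h3
  set b := T.I (T.N a) with hbd
  set c := T.I (T.N b) with hcd
  have s2 : D (T.kx b) (T.ox b) + (D (T.kx c) (T.ox c) + D (T.kx a) (T.ox a)) =
    D (T.kx a) (T.ox a) + (D (T.kx b) (T.ox b) + D (T.kx c) (T.ox c)) := by omega
  have s3 : D (T.kx c) (T.ox c) + (D (T.kx a) (T.ox a) + D (T.kx b) (T.ox b)) =
    D (T.kx a) (T.ox a) + (D (T.kx b) (T.ox b) + D (T.kx c) (T.ox c)) := by omega
  rw [s2] at h2
  rw [s3] at h3
  have h4 := chkRd_three h1 h2 h3 (T.X trX (T.N a)) (T.X trX (T.N b)) (T.X trX (T.I a))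
  have eNc : T.N c = T.I a := T.N_third ha
  have eIb : T.I b = T.N a := T.I_I _
  have eIc : T.I c = T.N b := T.I_I _
  unfold dl
  rw [T.rs_tri ha, T.rs_tri hb, T.rs_tri hc, eNc, eIb, eIc]
  omega

end SMap

end Pool.Agent.Lib.MP_5854e1_co
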