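import Mathlib

/-!
# The search over own words with a ring vector

`Row` is a potential row with memory: for the listed columns it gives a (biased) value and possibly
the row to be used at the next strip. A corner record `CR` describes a corner after the current
strip. The ring vector is a list of entries `VE`, one for every state of the corner before the
current strip, with the best prefix sum.
-/

set_option autoImplicit false

namespace Pool.Agent.Lib.MP_5854e1_co.Dfs

/-- A potential row with memory. -/
inductive Row where
  | nil : Row
  | fv (j x : ℕ) (rest : Row) : Row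
  | hv (j x : ℕ) (next rest : Row) : Row

/-- The result of a look-up. -/
inductive Hit where
  | df : Hit
  | v (x : ℕ) : Hit
  | h (x : ℕ) (next : Row) : Hit

/-- Look up the column `j`. -/
def Row.look : Row → ℕ → Hit
  | .nil, _ => .df
  | .fv i x rest, j => bif Nat.beq i j then .v x else rest.look j
  | .hv i x next rest, j => bif Nat.beq i j then .h x next else rest.look j

/-- A corner record: column class and column index at the current strip, weight `a`, gauge `be` of
the corner, and the mask of allowed column classes and the row for the next strip. -/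
structure CR where
  col : ℕ
  jx : ℕ
  a : ℕ
  be : ℕ
  m : ℕ
  r : Row

/-- An entry of the ring vector. -/
structure VE where
  m : ℕ
  r : Row
  s : ℕ

/-- The constants: the bias of the values and the constant to be subtracted in every step. -/
structure Cst where
  bias : ℕ
  sub : ℕ

/-- The value of a row at a corner. -/
def Row.val (K : Cst) (r : Row) (c : CR) : ℕ :=
  match r.look c.jx with
  | .df => K.bias
  | .v x => x
  | .h x _ => x

/-- The row for the next strip. -/
def Row.nxt (r : Row) (c : CR) : Row :=
  match r.look c.jx with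
  | .df => c.r
  | .v _ => c.r
  | .h _ n => n

/-- One corner: `acc` is the best value of the entries without memory, `out` the new vector. -/
def stepC (K : Cst) (c : CR) : List VE → ℕ → List VE → List VE
  | [], acc, out =>
    bif Nat.ble (Nat.add acc c.a) (Nat.add K.sub c.be) then out
    else ⟨c.m, c.r, Nat.sub (Nat.add acc c.a) K.sub⟩ :: out
  | e :: es, acc, out =>
    bif Nat.testBit e.m c.col then
      match e.r.look c.jx with
      | .df => bif Nat.ble (Nat.add e.s K.bias) acc then stepC K c es acc out
          else stepC K c es (Nat.add e.s K.bias) out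
      | .v x => bif Nat.ble (Nat.add e.s x) acc then stepC K c es acc out
          else stepC K c es (Nat.add e.s x) out
      | .h x n => bif Nat.ble (Nat.add (Nat.add e.s x) c.a) (Nat.add K.sub c.be) then
            stepC K c es acc out
          else stepC K c es acc (⟨c.m, n, Nat.sub (Nat.add (Nat.add e.s x) c.a) K.sub⟩ :: out)
    else stepC K c es acc out

/-- All corners of an arc. -/
def stepAll (K : Cst) (vec : List VE) : List CR → List VE → List VE
  | [], out => out
  | c :: cs, out => stepAll K vec cs (stepC K c vec 0 out)

variable {H : Type}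

/-- The search. `arcs v` lists the next own states, with the corner records and a label for the
history; `clo` tests the closings at a state. -/
def dfs (K : Cst) (arcs : ℕ → List (ℕ × H × List CR)) (clo : ℕ → List VE → List H → Bool) :
    ℕ → ℕ → List VE → List H → Bool
  | 0, _, _, _ => false
  | n + 1, v, vec, hist =>
    (arcs v).all fun q =>
      match stepAll K vec q.2.2 [] with
      | [] => true
      | e :: es => clo q.1 (e :: es) (q.2.1 :: hist) &&
          dfs K arcs clo n q.1 (e :: es) (q.2.1 :: hist)

/-! ### Soundness -/

/-- A path of the tables: own states, corners, rows and masks. -/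
structure Path (arcs : ℕ → List (ℕ × H × List CR)) (b : ℕ) where
  v : ℕ → ℕ
  h : ℕ → H
  c : ℕ → CR
  r : ℕ → Row
  m : ℕ → ℕ
  arc : ∀ n, n + 1 < b → ∃ Cs, (v (n + 1), h n, Cs) ∈ arcs (v n) ∧ c n ∈ Cs
  row : ∀ n, n + 1 < b → r (n + 1) = (r n).nxt (c n)
  msk : ∀ n, n + 1 < b → m (n + 1) = (c n).m
  compat : ∀ n, n + 1 < b → (m n).testBit (c n).col = true

/-- The weight of a step, with gauge `g` of the corner before. -/
def stepW (K : Cst) (r : Row) (c : CR) (g : ℤ) : ℤ :=
  (c.a : ℤ) + r.val K c - K.sub + g - c.be

namespace Path

variable {arcs : ℕ → List (ℕ × H × List CR)} {b : ℕ} (P : Path arcs b)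

/-- The gauge of the corner before strip `n`; `0` at the start. -/
def g : ℕ → ℤ
  | 0 => 0
  | n + 1 => (P.c n).be

/-- The prefix sums of a path, plus the gauge. -/
def S (K : Cst) : ℕ → ℤ
  | 0 => 0
  | n + 1 => S K n + (P.c n).a + (P.r n).val K (P.c n) - K.sub

end Path

theorem stepC_out (K : Cst) (c : CR) : ∀ (vec : List VE) (acc : ℕ) (out : List VE) (e : VE),
    e ∈ out → e ∈ stepC K c vec acc out := by
  intro vec
  induction vec with
  | nil =>
    intro acc out e he
    unfold stepC
    cases Nat.ble (Nat.add acc c.a) (Nat.add K.sub c.be)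
    · exact List.mem_cons_of_mem _ he
    · exact he
  | cons d ds ih =>
    intro acc out e he
    unfold stepC
    cases Nat.testBit d.m c.col
    · exact ih _ _ _ he
    · simp only [cond_true]
      cases d.r.look c.jx with
      | df =>
        simp only
        cases Nat.ble (Nat.add d.s K.bias) acc <;> exact ih _ _ _ he
      | v x =>
        simp only
        cases Nat.ble (Nat.add d.s x) acc <;> exact ih _ _ _ he
      | h x n =>
        simp only
        cases Nat.ble (Nat.add (Nat.add d.s x) c.a) (Nat.add K.sub c.be)
        · exact ih _ _ _ (List.mem_cons_of_mem _ he)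
        · exact ih _ _ _ he

/-- The accumulator is kept. -/
theorem stepC_acc (K : Cst) (c : CR) : ∀ (vec : List VE) (acc : ℕ) (out : List VE) (t : ℕ),
    t ≤ acc → K.sub + c.be < t + c.a →
    ∃ e ∈ stepC K c vec acc out, e.m = c.m ∧ e.r = c.r ∧ t + c.a ≤ e.s + K.sub := by
  intro vec
  induction vec with
  | nil =>
    intro acc out t h1 h2
    unfold stepC
    have h3 : Nat.ble (Nat.add acc c.a) (Nat.add K.sub c.be) = false := by
      rw [← Bool.not_eq_true, Nat.ble_eq]
      show ¬ (acc + c.a ≤ K.sub + c.be)
      omega
    rw [h3]
    refine ⟨_, List.mem_cons_self, rfl, rfl, ?_⟩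
    show t + c.a ≤ acc + c.a - K.sub + K.sub
    omega
  | cons d ds ih =>
    intro acc out t h1 h2
    unfold stepC
    cases Nat.testBit d.m c.col
    · exact ih _ _ _ h1 h2
    · simp only [cond_true]
      cases d.r.look c.jx with
      | df =>
        simp only
        cases h3 : Nat.ble (Nat.add d.s K.bias) acc
        · refine ih _ _ _ (h1.trans ?_) h2
          rw [← Bool.not_eq_true, Nat.ble_eq] at h3
          exact (not_le.1 h3).le
        · exact ih _ _ _ h1 h2
      | v x =>
        simp only
        cases h3 : Nat.ble (Nat.add d.s x) acc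
        · refine ih _ _ _ (h1.trans ?_) h2
          rw [← Bool.not_eq_true, Nat.ble_eq] at h3
          exact (not_le.1 h3).le
        · exact ih _ _ _ h1 h2
      | h x n =>
        simp only
        cases Nat.ble (Nat.add (Nat.add d.s x) c.a) (Nat.add K.sub c.be) <;> exact ih _ _ _ h1 h2

/-- Every compatible entry is represented after the step. -/
theorem stepC_mem (K : Cst) (c : CR) : ∀ (vec : List VE) (acc : ℕ) (out : List VE) (d : VE),
    d ∈ vec → Nat.testBit d.m c.col = true → K.sub + c.be < d.s + d.r.val K c + c.a →
    ∃ e ∈ stepC K c vec acc out, e.m = c.m ∧ e.r = d.r.nxt c ∧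
      d.s + d.r.val K c + c.a ≤ e.s + K.sub := by
  intro vec
  induction vec with
  | nil => intro _ _ _ h; simp at h
  | cons d' ds ih =>
    intro acc out d hd hc hs
    rcases List.mem_cons.1 hd with rfl | hd
    · unfold stepC
      rw [hc, cond_true]
      unfold Row.val at hs ⊢
      unfold Row.nxt
      cases hl : d.r.look c.jx with
      | df =>
        rw [hl] at hs
        simp only at hs ⊢
        cases h3 : Nat.ble (Nat.add d.s K.bias) acc
        · exact stepC_acc K c _ _ _ _ le_rfl hs
        · rw [Nat.ble_eq] at h3
          exact stepC_acc K c _ _ _ _ h3 hs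
      | v x =>
        rw [hl] at hs
        simp only at hs ⊢
        cases h3 : Nat.ble (Nat.add d.s x) acc
        · exact stepC_acc K c _ _ _ _ le_rfl hs
        · rw [Nat.ble_eq] at h3
          exact stepC_acc K c _ _ _ _ h3 hs
      | h x n =>
        rw [hl] at hs
        simp only at hs ⊢
        have h3 : Nat.ble (Nat.add (Nat.add d.s x) c.a) (Nat.add K.sub c.be) = false := by
          rw [← Bool.not_eq_true, Nat.ble_eq]
          show ¬ (d.s + x + c.a ≤ K.sub + c.be)
          omega
        rw [h3]
        refine ⟨_, stepC_out K c _ _ _ _ List.mem_cons_self, rfl, rfl, ?_⟩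
        show d.s + x + c.a ≤ d.s + x + c.a - K.sub + K.sub
        omega
    · unfold stepC
      cases Nat.testBit d'.m c.col
      · exact ih _ _ _ hd hc hs
      · simp only [cond_true]
        cases d'.r.look c.jx with
        | df =>
          simp only
          cases Nat.ble (Nat.add d'.s K.bias) acc <;> exact ih _ _ _ hd hc hs
        | v x =>
          simp only
          cases Nat.ble (Nat.add d'.s x) acc <;> exact ih _ _ _ hd hc hs
        | h x n =>
          simp only
          cases Nat.ble (Nat.add (Nat.add d'.s x) c.a) (Nat.add K.sub c.be) <;>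
            exact ih _ _ _ hd hc hs

theorem stepAll_out (K : Cst) (vec : List VE) : ∀ (cs : List CR) (out : List VE) (e : VE),
    e ∈ out → e ∈ stepAll K vec cs out := by
  intro cs
  induction cs with
  | nil => intro _ _ h; exact h
  | cons c cs ih => intro out e h; exact ih _ _ (stepC_out K c _ _ _ _ h)

theorem stepAll_mem (K : Cst) (vec : List VE) (c : CR) (d : VE) (hd : d ∈ vec)
    (hc : Nat.testBit d.m c.col = true) (hs : K.sub + c.be < d.s + d.r.val K c + c.a) :
    ∀ (cs : List CR) (out : List VE), c ∈ cs →
    ∃ e ∈ stepAll K vec cs out, e.m = c.m ∧ e.r = d.r.nxt c ∧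
      d.s + d.r.val K c + c.a ≤ e.s + K.sub := by
  intro cs
  induction cs with
  | nil => intro _ h; simp at h
  | cons c' cs ih =>
    intro out h
    rcases List.mem_cons.1 h with rfl | h
    · obtain ⟨e, he, h1⟩ := stepC_mem K c vec 0 out d hd hc hs
      exact ⟨e, stepAll_out K vec cs _ e he, h1⟩
    · exact ih _ h

/-- Soundness of the search: along a path with positive prefix sums the closing test has been
performed at the last strip, with an entry that dominates the path. -/
theorem dfs_sound {K : Cst} {arcs : ℕ → List (ℕ × H × List CR)}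
    {clo : ℕ → List VE → List H → Bool} {b : ℕ} (P : Path arcs b)
    (hpos : ∀ n, n + 1 < b → P.g (n + 1) < P.S K (n + 1)) :
    ∀ (n fuel : ℕ) (vec : List VE) (hist : List H), n + 1 < b →
      dfs K arcs clo fuel (P.v n) vec hist = true →
      (∃ d ∈ vec, d.m = P.m n ∧ d.r = P.r n ∧ P.S K n ≤ d.s) →
      ∃ (vec' : List VE), clo (P.v (b - 1)) vec' (((List.range' n (b - 1 - n)).reverse.map P.h) ++ hist)
        = true ∧ ∃ d ∈ vec', d.m = P.m (b - 1) ∧ d.r = P.r (b - 1) ∧ P.S K (b - 1) ≤ d.s := by
  intro n
  induction hk : b - 2 - n generalizing n with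
  | zero =>
    intro fuel vec hist hn hd hv
    have hb : b - 1 = n + 1 := by omega
    obtain ⟨d, hd1, hd2, hd3, hd4⟩ := hv
    obtain ⟨Cs, hC1, hC2⟩ := P.arc n hn
    match fuel, hd with
    | fuel + 1, hd =>
      rw [dfs, List.all_eq_true] at hd
      have h1 := hd _ hC1
      have h2 : P.S K (n + 1) = P.S K n + (P.c n).a + (P.r n).val K (P.c n) - K.sub := rfl
      have h3 : P.g (n + 1) = (P.c n).be := rfl
      have h4 := hpos n hn
      obtain ⟨e, he1, he2, he3, he4⟩ := stepAll_mem K vec (P.c n) d hd1
        (by rw [hd2]; exact P.compat n hn) (by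
          rw [hd3]
          have : (K.sub : ℤ) + (P.c n).be < d.s + (P.r n).val K (P.c n) + (P.c n).a := by
            rw [h2, h3] at h4; linarith
          exact_mod_cast this) Cs [] hC2
      have h5 : ((stepAll K vec Cs []) = []) ∨ ∃ e es, stepAll K vec Cs [] = e :: es := by
        cases stepAll K vec Cs [] with
        | nil => exact Or.inl rfl
        | cons a l => exact Or.inr ⟨a, l, rfl⟩
      rcases h5 with h5 | ⟨e', es, h5⟩
      · rw [h5] at he1
        simp at he1
      · simp only [h5] at h1
        rw [Bool.and_eq_true] at h1
        refine ⟨e' :: es, ?_, e, ?_, ?_, ?_, ?_⟩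
        · rw [hb, show n + 1 - n = 1 by omega]
          exact h1.1
        · rw [h5] at he1; exact he1
        · rw [hb, he2, P.msk n hn]
        · rw [hb, he3, hd3, P.row n hn]
        · rw [hb, h2]
          rw [hd3] at he4
          have : ((d.s + (P.r n).val K (P.c n) + (P.c n).a : ℕ) : ℤ) ≤ ((e.s + K.sub : ℕ) : ℤ) := by
            exact_mod_cast he4
          push_cast at this
          linarith
  | succ k ih =>
    intro fuel vec hist hn hd hv
    obtain ⟨d, hd1, hd2, hd3, hd4⟩ := hv
    obtain ⟨Cs, hC1, hC2⟩ := P.arc n hn
    match fuel, hd with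
    | fuel + 1, hd =>
      rw [dfs, List.all_eq_true] at hd
      have h1 := hd _ hC1
      have h2 : P.S K (n + 1) = P.S K n + (P.c n).a + (P.r n).val K (P.c n) - K.sub := rfl
      have h3 : P.g (n + 1) = (P.c n).be := rfl
      have h4 := hpos n hn
      obtain ⟨e, he1, he2, he3, he4⟩ := stepAll_mem K vec (P.c n) d hd1
        (by rw [hd2]; exact P.compat n hn) (by
          rw [hd3]
          have : (K.sub : ℤ) + (P.c n).be < d.s + (P.r n).val K (P.c n) + (P.c n).a := by
            rw [h2, h3] at h4; linarith
          exact_mod_cast this) Cs [] hC2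
      have h5 : ((stepAll K vec Cs []) = []) ∨ ∃ e es, stepAll K vec Cs [] = e :: es := by
        cases stepAll K vec Cs [] with
        | nil => exact Or.inl rfl
        | cons a l => exact Or.inr ⟨a, l, rfl⟩
      rcases h5 with h5 | ⟨e', es, h5⟩
      · rw [h5] at he1
        simp at he1
      · simp only [h5] at h1
        rw [Bool.and_eq_true] at h1
        obtain ⟨vec', h6, h7⟩ := ih (n + 1) (by omega) fuel (e' :: es) (P.h n :: hist) (by omega) h1.2
          ⟨e, by rw [h5] at he1; exact he1, by rw [he2, P.msk n hn],
            by rw [he3, hd3, P.row n hn], by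
              rw [h2]
              rw [hd3] at he4
              have : ((d.s + (P.r n).val K (P.c n) + (P.c n).a : ℕ) : ℤ) ≤
                  ((e.s + K.sub : ℕ) : ℤ) := by exact_mod_cast he4
              push_cast at this
              linarith⟩
        refine ⟨vec', ?_, h7⟩
        rw [show b - 1 - n = (b - 1 - (n + 1)) + 1 by omega, List.range'_succ]
        simpa using h6

end Pool.Agent.Lib.MP_5854e1_co.Dfs
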