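import Pool.Agent.Lib.MP_5854e1_co.YD

/-!
# Finite planar covers and the Y-Delta transformation, graphs
-/

set_option autoImplicit false

open Equiv Equiv.Perm Relation

namespace Pool.Agent.Lib.MP_5854e1_co

universe u

variable {W : Type*} {U : Type u}

/-- The graph obtained from `G` by deleting the edges at `v` and joining all neighbours of `v` to
each other. If `v` has degree three this is the Y-Delta transformation (`v` becomes isolated). -/
def yd (G : SimpleGraph U) (v : U) : SimpleGraph U where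
  Adj x y := (x ≠ v ∧ y ≠ v ∧ G.Adj x y) ∨ (x ≠ y ∧ G.Adj v x ∧ G.Adj v y)
  symm := ⟨fun _ _ h => h.elim (fun h => Or.inl ⟨h.2.1, h.1, h.2.2.symm⟩)
    (fun h => Or.inr ⟨h.1.symm, h.2.2, h.2.1⟩)⟩
  loopless := ⟨fun _ h => h.elim (fun h => h.2.2.ne rfl) (fun h => h.1 rfl)⟩

/-- The same for all vertices over `v`. -/
def ydH (H : SimpleGraph W) (φ : W → U) (v : U) : SimpleGraph W where
  Adj x y := (φ x ≠ v ∧ φ y ≠ v ∧ H.Adj x y) ∨ (x ≠ y ∧ ∃ p, φ p = v ∧ H.Adj p x ∧ H.Adj p y)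
  symm := ⟨fun _ _ h => h.elim (fun h => Or.inl ⟨h.2.1, h.1, h.2.2.symm⟩)
    (fun ⟨h, p, h1, h2, h3⟩ => Or.inr ⟨h.symm, p, h1, h3, h2⟩)⟩
  loopless := ⟨fun _ h => h.elim (fun h => h.2.2.ne rfl) (fun h => h.1 rfl)⟩

section

variable {H : SimpleGraph W} {G : SimpleGraph U} {φ : W → U} {v : U}

theorem IsCover.ydH (hφ : IsCover H G φ)
    (hna : ∀ a b, G.Adj v a → G.Adj v b → ¬ G.Adj a b) : IsCover (ydH H φ v) (yd G v) φ := by
  intro x
  refine ⟨?_, ?_, ?_⟩
  · rintro y (⟨h1, h2, h3⟩ | ⟨h1, p, h2, h3, h4⟩)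
    · exact Or.inl ⟨h1, h2, hφ.adj h3⟩
    · refine Or.inr ⟨fun h5 => h1 ((hφ p).injOn h3 h4 h5), ?_, ?_⟩
      · rw [← h2]; exact hφ.adj h3
      · rw [← h2]; exact hφ.adj h4
  · rintro y (⟨h1, h2, h3⟩ | ⟨h1, p, h2, h3, h4⟩) z (⟨k1, k2, k3⟩ | ⟨k1, q, k2, k3, k4⟩) hyz
    · exact (hφ x).injOn h3 k3 hyz
    · exfalso
      have g1 := hφ.adj k3
      have g2 := hφ.adj k4
      rw [k2] at g1 g2
      have g3 := hφ.adj h3
      rw [hyz] at g3
      exact hna _ _ g1 g2 g3
    · exfalso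
      have g1 := hφ.adj h3
      have g2 := hφ.adj h4
      rw [h2] at g1 g2
      have g3 := hφ.adj k3
      rw [← hyz] at g3
      exact hna _ _ g1 g2 g3
    · have hpq : p = q := (hφ x).injOn h3.symm k3.symm (h2.trans k2.symm)
      subst hpq
      exact (hφ p).injOn h4 k4 hyz
  · rintro b (⟨h1, h2, h3⟩ | ⟨h1, h2, h3⟩)
    · obtain ⟨y, hy, rfl⟩ := (hφ x).surjOn h3
      exact ⟨y, Or.inl ⟨h1, h2, hy⟩, rfl⟩
    · obtain ⟨p, hp, hp2⟩ := (hφ x).surjOn h2.symm
      have h4 : b ∈ G.neighborSet (φ p) := by rw [hp2]; exact h3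
      obtain ⟨y, hy, rfl⟩ := (hφ p).surjOn h4
      refine ⟨y, Or.inr ⟨fun h5 => h1 (by rw [h5]), p, hp2, hp.symm, hy⟩, rfl⟩

/-- at a vertex over a vertex of degree three the rotation has order three -/
theorem rot_three [Finite W] (hφ : IsCover H G φ) {rot : Perm H.Dart}
    (hrot : ∀ x y, rot.SameCycle x y ↔ x.fst = y.fst) {a b c : U} (hab : a ≠ b) (hac : a ≠ c)
    (hbc : b ≠ c) (hv : ∀ x, G.Adj v x ↔ x = a ∨ x = b ∨ x = c) (d : H.Dart)
    (hd : φ d.fst = v) : rot (rot (rot d)) = d ∧ rot (rot d) ≠ d := by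
  have hfst : ∀ n : ℕ, ((rot ^ n) d).fst = d.fst := fun n =>
    ((hrot _ _).1 ((sameCycle_pow_left).2 (SameCycle.refl _ _)))
  -- a dart at `d.fst` is determined by the image of its end
  have hdet : ∀ x y : H.Dart, x.fst = d.fst → y.fst = d.fst → φ x.snd = φ y.snd → x = y := by
    intro x y hx hy hxy
    have h1 : H.Adj d.fst x.snd := by rw [← hx]; exact x.adj
    have h2 : H.Adj d.fst y.snd := by rw [← hy]; exact y.adj
    exact SimpleGraph.Dart.ext _ _ (Prod.ext (hx.trans hy.symm) ((hφ d.fst).injOn h1 h2 hxy))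
  have hex : ∀ t, G.Adj v t → ∃ x : H.Dart, x.fst = d.fst ∧ φ x.snd = t := by
    intro t ht
    have h1 : t ∈ G.neighborSet (φ d.fst) := by rw [hd]; exact ht
    obtain ⟨y, hy, hy2⟩ := (hφ d.fst).surjOn h1
    exact ⟨⟨(d.fst, y), hy⟩, rfl, hy2⟩
  have hval : ∀ x : H.Dart, x.fst = d.fst → φ x.snd = a ∨ φ x.snd = b ∨ φ x.snd = c := by
    intro x hx
    rw [← hv, ← hd, ← hx]
    exact hφ.adj x.adj
  -- `rot² d ≠ d`
  have h2 : rot (rot d) ≠ d := by
    intro h2
    have hcyc : ∀ x : H.Dart, x.fst = d.fst → x = d ∨ x = rot d := by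
      intro x hx
      have h3 : rot.SameCycle d x := (hrot _ _).2 hx.symm
      obtain ⟨n, rfl⟩ := h3.exists_nat_pow_eq
      clear hx h3
      induction n with
      | zero => exact Or.inl rfl
      | succ n ih =>
        rw [pow_succ', Perm.mul_apply]
        rcases ih with ih | ih
        · rw [ih]; exact Or.inr rfl
        · rw [ih, h2]; exact Or.inl rfl
    obtain ⟨xa, ha1, ha2⟩ := hex a ((hv a).2 (Or.inl rfl))
    obtain ⟨xb, hb1, hb2⟩ := hex b ((hv b).2 (Or.inr (Or.inl rfl)))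
    obtain ⟨xc, hc1, hc2⟩ := hex c ((hv c).2 (Or.inr (Or.inr rfl)))
    have n1 : xa ≠ xb := fun h => hab (by rw [← ha2, ← hb2, h])
    have n2 : xa ≠ xc := fun h => hac (by rw [← ha2, ← hc2, h])
    have n3 : xb ≠ xc := fun h => hbc (by rw [← hb2, ← hc2, h])
    rcases hcyc xa ha1 with h4 | h4 <;> rcases hcyc xb hb1 with h5 | h5 <;>
      rcases hcyc xc hc1 with h6 | h6
    · exact n1 (h4.trans h5.symm)
    · exact n1 (h4.trans h5.symm)
    · exact n2 (h4.trans h6.symm)
    · exact n3 (h5.trans h6.symm)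
    · exact n3 (h5.trans h6.symm)
    · exact n2 (h4.trans h6.symm)
    · exact n1 (h4.trans h5.symm)
    · exact n1 (h4.trans h5.symm)
  have h1 : rot d ≠ d := by
    intro h1
    exact h2 (by rw [h1, h1])
  refine ⟨?_, h2⟩
  have f1 : (rot d).fst = d.fst := hfst 1
  have f2 : (rot (rot d)).fst = d.fst := hfst 2
  have f3 : (rot (rot (rot d))).fst = d.fst := hfst 3
  have m1 : φ (rot d).snd ≠ φ d.snd := fun h => h1 (hdet _ _ f1 rfl h)
  have m2 : φ (rot (rot d)).snd ≠ φ d.snd := fun h => h2 (hdet _ _ f2 rfl h)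
  have m3 : φ (rot (rot d)).snd ≠ φ (rot d).snd := fun h =>
    h1 (rot.injective (hdet _ _ f2 f1 h))
  have m4 : φ (rot (rot (rot d))).snd ≠ φ (rot d).snd := fun h =>
    h2 (rot.injective (hdet _ _ f3 f1 h))
  have m5 : φ (rot (rot (rot d))).snd ≠ φ (rot (rot d)).snd := fun h =>
    h1 (rot.injective (rot.injective (hdet _ _ f3 f2 h)))
  apply hdet _ _ f3 rfl
  have v0 := hval d rfl
  have v1 := hval _ f1
  have v2 := hval _ f2
  have v3 := hval _ f3
  generalize φ d.snd = t0 at *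
  generalize φ (rot d).snd = t1 at *
  generalize φ (rot (rot d)).snd = t2 at *
  generalize φ (rot (rot (rot d))).snd = t3 at *
  rcases v0 with rfl | rfl | rfl <;> rcases v1 with rfl | rfl | rfl <;>
    rcases v2 with rfl | rfl | rfl <;> rcases v3 with rfl | rfl | rfl <;>
    first
      | rfl
      | exact absurd rfl m1
      | exact absurd rfl m2
      | exact absurd rfl m3
      | exact absurd rfl m4
      | exact absurd rfl m5

theorem isPlanar_ydH [Finite W] (hφ : IsCover H G φ)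
    (hna : ∀ a b, G.Adj v a → G.Adj v b → ¬ G.Adj a b) {a b c : U} (hab : a ≠ b) (hac : a ≠ c)
    (hbc : b ≠ c) (hv : ∀ x, G.Adj v x ↔ x = a ∨ x = b ∨ x = c) (h : IsPlanar H) :
    IsPlanar (ydH H φ v) := by
  classical
  obtain ⟨rot, hrot, h0⟩ := h.defect_eq
  have hfst : ∀ x, (rot x).fst = x.fst := fun x =>
    (hrot _ _).1 (sameCycle_apply_left.2 (SameCycle.refl _ _))
  have hfst' : ∀ x, (rot⁻¹ x).fst = x.fst := fun x => by
    have := hfst (rot⁻¹ x)
    rw [yd_app_inv] at this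
    exact this.symm
  set X : Set H.Dart := {x | φ x.fst = v} with hX
  have hY : YD rot (flip H) X :=
    { inv := fun x => x.symm_symm
      ne := fun x => SimpleGraph.Dart.symm_ne x
      stab := fun x => by
        show φ (rot x).fst = v ↔ φ x.fst = v
        rw [hfst]
      disj := fun x hx hx' => by
        have h1 : φ x.fst = v := hx
        have h2 : φ x.snd = v := hx'
        have h3 := hφ.adj x.adj
        rw [h1, h2] at h3
        exact h3.ne rfl }
  have hadjv : ∀ x ∈ X, G.Adj v (φ x.snd) := fun x hx => by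
    have h1 : φ x.fst = v := hx
    rw [← h1]
    exact hφ.adj x.adj
  -- two darts from `X` are at the same vertex if their ends are the same
  have hsame : ∀ x ∈ X, ∀ y ∈ X, x.snd = y.snd → x = y := by
    intro x hx y hy hxy
    have h1 : φ x.fst = v := hx
    have h2 : φ y.fst = v := hy
    have h3 : H.Adj x.snd x.fst := x.adj.symm
    have h4 : H.Adj x.snd y.fst := by rw [hxy]; exact y.adj.symm
    exact SimpleGraph.Dart.ext _ _ (Prod.ext ((hφ _).injOn h3 h4 (h1.trans h2.symm)) hxy)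
  have hthree := fun x (hx : x ∈ X) => rot_three hφ hrot hab hac hbc hv x hx
  have hone : ∀ x ∈ X, rot x ≠ x := fun x hx h1 => (hthree x hx).2 (by rw [h1, h1])
  -- the adjacency of the ends
  have hadj1 : ∀ x ∈ X, (ydH H φ v).Adj x.snd (rot⁻¹ x).snd := by
    intro x hx
    refine Or.inr ⟨fun h1 => ?_, x.fst, hx, x.adj, ?_⟩
    · have h2 := hsame x hx (rot⁻¹ x) ((hY.stab' x).2 hx) h1
      exact hone x hx (by conv_lhs => rw [h2, yd_app_inv])
    · rw [← hfst' x]
      exact (rot⁻¹ x).adj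
  have hadj2 : ∀ x ∉ X, flip H x ∈ X → (ydH H φ v).Adj x.fst (rot (flip H x)).snd := by
    intro x _ hx
    have h1 := hadj1 (rot (flip H x)) ((hY.stab _).2 hx)
    rw [yd_inv_app] at h1
    exact h1.symm
  have hadj3 : ∀ x ∉ X, flip H x ∉ X → (ydH H φ v).Adj x.fst x.snd := by
    intro x hx hx'
    exact Or.inl ⟨hx, hx', x.adj⟩
  have hnb : ∀ x, hY.alt x ≠ x := hY.alt_ne
  let g0 : H.Dart → (ydH H φ v).Dart := fun x =>
    if h1 : x ∈ X then ⟨(x.snd, (rot⁻¹ x).snd), hadj1 x h1⟩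
    else if h2 : flip H x ∈ X then ⟨(x.fst, (rot (flip H x)).snd), hadj2 x h1 h2⟩
    else ⟨(x.fst, x.snd), hadj3 x h1 h2⟩
  have g1 : ∀ x, x ∈ X → (g0 x).fst = x.snd ∧ (g0 x).snd = (rot⁻¹ x).snd := by
    intro x h1
    have : g0 x = ⟨(x.snd, (rot⁻¹ x).snd), hadj1 x h1⟩ := dif_pos h1
    rw [this]
    exact ⟨rfl, rfl⟩
  have g2 : ∀ x, x ∉ X → flip H x ∈ X →
      (g0 x).fst = x.fst ∧ (g0 x).snd = (rot (flip H x)).snd := by
    intro x h1 h2
    have : g0 x = ⟨(x.fst, (rot (flip H x)).snd), hadj2 x h1 h2⟩ := by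
      simp only [g0]
      rw [dif_neg h1, dif_pos h2]
    rw [this]
    exact ⟨rfl, rfl⟩
  have g3 : ∀ x, x ∉ X → flip H x ∉ X → (g0 x).fst = x.fst ∧ (g0 x).snd = x.snd := by
    intro x h1 h2
    have : g0 x = ⟨(x.fst, x.snd), hadj3 x h1 h2⟩ := by
      simp only [g0]
      rw [dif_neg h1, dif_neg h2]
    rw [this]
    exact ⟨rfl, rfl⟩
  have gbase : ∀ x, (g0 x).fst = (ydBase (flip H) X x).fst := by
    intro x
    by_cases h1 : x ∈ X
    · rw [(g1 x h1).1, ydBase_1 h1]
      rfl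
    · rw [ydBase_2 h1]
      by_cases h2 : flip H x ∈ X
      · exact (g2 x h1 h2).1
      · exact (g3 x h1 h2).1
  -- mixed cases for injectivity
  have mix : ∀ x y, x ∈ X → y ∉ X → g0 x ≠ g0 y := by
    intro x y hx hy he
    have e1 : (g0 x).fst = (g0 y).fst := by rw [he]
    have e2 : (g0 x).snd = (g0 y).snd := by rw [he]
    rw [(g1 x hx).1] at e1
    rw [(g1 x hx).2] at e2
    by_cases h2 : flip H y ∈ X
    · rw [(g2 y hy h2).1] at e1
      rw [(g2 y hy h2).2] at e2
      have h3 : x = flip H y := hsame x hx _ h2 e1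
      rw [← h3] at e2
      have h4 : rot⁻¹ x = rot x :=
        hsame _ ((hY.stab' x).2 hx) _ ((hY.stab x).2 hx) e2
      exact (hthree x hx).2 (by rw [← h4, yd_app_inv])
    · rw [(g3 y hy h2).1] at e1
      rw [(g3 y hy h2).2] at e2
      refine hna _ _ (hadjv x hx) (hadjv _ ((hY.stab' x).2 hx)) ?_
      rw [e1, e2]
      exact hφ.adj y.adj
  have inj : Function.Injective g0 := by
    intro x y he
    by_cases hx : x ∈ X
    · by_cases hy : y ∈ X
      · have e1 : (g0 x).fst = (g0 y).fst := by rw [he]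
        rw [(g1 x hx).1, (g1 y hy).1] at e1
        exact hsame x hx y hy e1
      · exact absurd he (mix x y hx hy)
    · by_cases hy : y ∈ X
      · exact absurd he.symm (mix y x hy hx)
      · have e1 : (g0 x).fst = (g0 y).fst := by rw [he]
        have e2 : (g0 x).snd = (g0 y).snd := by rw [he]
        by_cases hx2 : flip H x ∈ X
        · rw [(g2 x hx hx2).1] at e1
          rw [(g2 x hx hx2).2] at e2
          by_cases hy2 : flip H y ∈ X
          · rw [(g2 y hy hy2).1] at e1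
            have h3 : flip H x = flip H y := hsame _ hx2 _ hy2 e1
            exact (flip H).injective h3
          · exfalso
            rw [(g3 y hy hy2).1] at e1
            rw [(g3 y hy hy2).2] at e2
            refine hna _ _ (hadjv _ hx2) (hadjv _ ((hY.stab _).2 hx2)) ?_
            show G.Adj (φ x.fst) (φ (rot (flip H x)).snd)
            rw [e1, e2]
            exact hφ.adj y.adj
        · rw [(g3 x hx hx2).1] at e1
          rw [(g3 x hx hx2).2] at e2
          by_cases hy2 : flip H y ∈ X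
          · exfalso
            rw [(g2 y hy hy2).1] at e1
            rw [(g2 y hy hy2).2] at e2
            refine hna _ _ (hadjv _ hy2) (hadjv _ ((hY.stab _).2 hy2)) ?_
            show G.Adj (φ y.fst) (φ (rot (flip H y)).snd)
            rw [← e1, ← e2]
            exact hφ.adj x.adj
          · rw [(g3 y hy hy2).1] at e1
            rw [(g3 y hy hy2).2] at e2
            exact SimpleGraph.Dart.ext _ _ (Prod.ext e1 e2)
  have surj : Function.Surjective g0 := by
    intro d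
    rcases id d.adj with ⟨h1, h2, h3⟩ | ⟨h1, p, h2, h3, h4⟩
    · have h5 := g3 ⟨(d.fst, d.snd), h3⟩ h1 h2
      exact ⟨_, SimpleGraph.Dart.ext _ _ (Prod.ext h5.1 h5.2)⟩
    · set dx : H.Dart := ⟨(p, d.fst), h3⟩ with hdx
      set dy : H.Dart := ⟨(p, d.snd), h4⟩ with hdy
      have hxX : dx ∈ X := h2
      have hxy : dx ≠ dy := by
        intro h5
        apply h1
        exact congrArg (fun z : H.Dart => z.snd) h5
      have hcyc : ∀ x : H.Dart, x.fst = p → x = dx ∨ x = rot dx ∨ x = rot (rot dx) := by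
        intro x hx
        have h3 : rot.SameCycle dx x := (hrot _ _).2 hx.symm
        obtain ⟨n, rfl⟩ := h3.exists_nat_pow_eq
        clear hx h3
        induction n with
        | zero => exact Or.inl rfl
        | succ n ih =>
          rw [pow_succ', Perm.mul_apply]
          rcases ih with ih | ih | ih
          · rw [ih]; exact Or.inr (Or.inl rfl)
          · rw [ih]; exact Or.inr (Or.inr rfl)
          · rw [ih, (hthree dx hxX).1]; exact Or.inl rfl
      rcases hcyc dy rfl with h5 | h5 | h5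
      · exact absurd h5.symm hxy
      · refine ⟨flip H dx, ?_⟩
        have h6 : flip H dx ∉ X := hY.disj _ hxX
        have h7 := g2 (flip H dx) h6 (by rw [hY.inv]; exact hxX)
        rw [hY.inv, ← h5] at h7
        exact SimpleGraph.Dart.ext _ _ (Prod.ext h7.1 h7.2)
      · refine ⟨dx, ?_⟩
        have h6 : rot⁻¹ dx = dy := by
          rw [h5]
          apply rot.injective
          rw [yd_app_inv, (hthree dx hxX).1]
        have h7 := g1 dx hxX
        rw [h6] at h7
        exact SimpleGraph.Dart.ext _ _ (Prod.ext h7.1 h7.2)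
  refine isPlanar_of_map hY.rot hY.alt hY.alt_alt (by rw [hY.defect_eq]; exact h0) (ydH H φ v)
    (fun x => g0 x.1) ⟨?_, ?_⟩ ?_ ?_
  · intro x y hxy
    exact Subtype.ext (inj hxy)
  · intro d
    obtain ⟨x, hx⟩ := surj d
    exact ⟨⟨x, hnb x⟩, hx⟩
  · intro x
    show g0 (hY.alt x.1) = flip (ydH H φ v) (g0 x.1)
    by_cases h1 : x.1 ∈ X
    · have h2 : rot⁻¹ x.1 ∈ X := (hY.stab' _).2 h1
      have h3 := g1 _ h1
      have h4 := g2 (flip H (rot⁻¹ x.1)) (hY.disj _ h2) (by rw [hY.inv]; exact h2)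
      rw [hY.inv, yd_app_inv] at h4
      rw [hY.alt_1 h1]
      exact SimpleGraph.Dart.ext _ _ (Prod.ext (h4.1.trans h3.2.symm) (h4.2.trans h3.1.symm))
    · by_cases h2 : flip H x.1 ∈ X
      · have h3 := g2 _ h1 h2
        have h5 : rot (flip H x.1) ∈ X := (hY.stab _).2 h2
        have h4 := g1 _ h5
        rw [yd_inv_app] at h4
        rw [hY.alt_2 h1 h2]
        exact SimpleGraph.Dart.ext _ _ (Prod.ext (h4.1.trans h3.2.symm) (h4.2.trans h3.1.symm))
      · have h3 := g3 _ h1 h2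
        have h4 := g3 (flip H x.1) h2 (by rw [hY.inv]; exact h1)
        rw [hY.alt_3 h1 h2]
        exact SimpleGraph.Dart.ext _ _ (Prod.ext (h4.1.trans h3.2.symm) (h4.2.trans h3.1.symm))
  · intro x y
    rw [hY.sameCycle_iff, hrot, ← gbase, ← gbase]

end

/-- **Finite planar covers pass to Y-Delta transforms.** -/
theorem HasPlanarCover.yd {G : SimpleGraph U} (h : HasPlanarCover G) {v a b c : U} (hab : a ≠ b)
    (hac : a ≠ c) (hbc : b ≠ c) (hv : ∀ x, G.Adj v x ↔ x = a ∨ x = b ∨ x = c) :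
    HasPlanarCover (yd G v) := by
  set G' : SimpleGraph U :=
    { Adj := fun x y => G.Adj x y ∧ ¬ (G.Adj v x ∧ G.Adj v y)
      symm := ⟨fun _ _ h => ⟨h.1.symm, fun k => h.2 ⟨k.2, k.1⟩⟩⟩
      loopless := ⟨fun _ h => h.1.ne rfl⟩ } with hG'
  have h1 : HasPlanarCover G' := h.mono fun _ _ h => h.1
  have hv' : ∀ x, G'.Adj v x ↔ G.Adj v x := fun x =>
    ⟨fun h => h.1, fun h => ⟨h, fun k => k.1.ne rfl⟩⟩
  have e : MP_5854e1_co.yd G' v = MP_5854e1_co.yd G v := by
    ext x y
    constructor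
    · rintro (⟨h1, h2, h3⟩ | ⟨h1, h2, h3⟩)
      · exact Or.inl ⟨h1, h2, h3.1⟩
      · exact Or.inr ⟨h1, (hv' _).1 h2, (hv' _).1 h3⟩
    · rintro (⟨h1, h2, h3⟩ | ⟨h1, h2, h3⟩)
      · by_cases h4 : G.Adj v x ∧ G.Adj v y
        · exact Or.inr ⟨h3.ne, (hv' _).2 h4.1, (hv' _).2 h4.2⟩
        · exact Or.inl ⟨h1, h2, h3, h4⟩
      · exact Or.inr ⟨h1, (hv' _).2 h2, (hv' _).2 h3⟩
  obtain ⟨n, H, φ, hs, hφ, hpl⟩ := h1
  have hna : ∀ a b, G'.Adj v a → G'.Adj v b → ¬ G'.Adj a b := fun a b ha hb hab =>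
    hab.2 ⟨ha.1, hb.1⟩
  rw [← e]
  exact ⟨n, MP_5854e1_co.ydH H φ v, φ, hs, hφ.ydH hna,
    isPlanar_ydH hφ hna hab hac hbc (fun x => (hv' x).trans (hv x)) hpl⟩

end Pool.Agent.Lib.MP_5854e1_co
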