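import Pool.Agent.Lib.MP_5854e1_co.CertWeak
import Pool.Agent.Lib.MP_5854e1_co.YDG
import Pool.Agent.Lib.MP_5854e1_co.MinGraphs

/-!
# From a positivity certificate to the absence of finite planar covers
-/

set_option autoImplicit false

namespace Pool.Agent.Lib.MP_5854e1_co

/-- in a connected graph all fibres have the same number of elements -/
theorem fib_tree {m : ℕ} {K : SimpleGraph (Fin m)} {W : Type*} [Finite W] {H : SimpleGraph W}
    {φ : W → Fin m} (hcov : IsCover H K φ) (r : Fin m) (par : Fin m → Fin m) (lev : Fin m → ℕ)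
    (hp : ∀ u, u = r ∨ (K.Adj (par u) u ∧ lev (par u) < lev u)) : ∀ u, fib φ u = fib φ r := by
  have key : ∀ n u, lev u = n → fib φ u = fib φ r := by
    intro n
    induction n using Nat.strong_induction_on with
    | _ n ih =>
      intro u hu
      rcases hp u with h | ⟨h1, h2⟩
      · rw [h]
      · rw [← fib_eq_of_adj hcov h1]
        exact ih _ (hu ▸ h2) _ rfl
  exact fun u => key _ u rfl

theorem CertData.noPlanarCover {m : ℕ} (C : CertData m) (K : SimpleGraph (Fin m))
    [DecidableRel K.Adj]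
    (S el : List (Fin m × Fin m)) (h : C.okW K S el = true) (hc : 0 ≤ ∑ u, C.c u)
    (r : Fin m) (hr : r ∉ el.map Prod.fst) (t : Fin m → Fin m) (ht : ∀ u, K.Adj u (t u))
    (par : Fin m → Fin m) (lev : Fin m → ℕ)
    (hp : ∀ u, u = r ∨ (K.Adj (par u) u ∧ lev (par u) < lev u)) : ¬ HasPlanarCover K := by
  classical
  rintro ⟨n, H, φ, hs, hcov, hpl⟩
  obtain ⟨g, hg1, hg2⟩ := C.soundW K S el h
  obtain ⟨w0, hw0⟩ := hs r
  obtain ⟨d, -, -⟩ := hcov.dart_surj w0 ⟨(φ w0, t (φ w0)), ht _⟩ rfl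
  have : Nonempty H.Dart := ⟨d⟩
  have hfib := fib_tree hcov r par lev hp
  have hpos : 1 ≤ fib φ r := by
    have : Nonempty {v // φ v = r} := ⟨⟨w0, hw0⟩⟩
    exact Nat.card_pos
  set v : Fin m → ℤ × ℕ := fun u => (C.c u, rootInd (el.map Prod.fst) u) with hv
  have h1 := cover_planar_lemma hcov hpl g (wgt t v) (QW C.N) hg1
    (fun a b x y hx hy => QW_mul hx hy) (fun a x y hx => QW_conj hx y) (fun u l hl hl2 => by
      rw [wgt_sum t v u (ht u) l hl hl2]
      exact hg2 u l hl hl2)
  rw [finsum_dart hcov] at h1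
  have h2 : ∑ᶠ e : K.Dart, fib φ e.fst • wgt t v e = fib φ r • ∑ u, v u := by
    rw [← wgt_total t v ht (fib φ r)]
    exact finsum_congr fun e => by rw [hfib e.fst]
  rw [h2] at h1
  refine one_notMem_QW ?_ ?_ h1
  · have e1 : (fib φ r • ∑ u, v u).1 = fib φ r • ∑ u, C.c u := by
      rw [Prod.smul_fst, Prod.fst_sum]
    rw [e1]
    exact nsmul_nonneg hc _
  · have e1 : (fib φ r • ∑ u, v u).2 = fib φ r • ∑ u, rootInd (el.map Prod.fst) u := by
      rw [Prod.smul_snd, Prod.snd_sum]
    rw [e1, smul_eq_mul]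
    have e2 : 1 ≤ ∑ u, rootInd (el.map Prod.fst) u := by
      have e3 : rootInd (el.map Prod.fst) r ≤ ∑ u, rootInd (el.map Prod.fst) u :=
        Finset.single_le_sum (f := fun u => rootInd (el.map Prod.fst) u)
          (fun _ _ => Nat.zero_le _) (Finset.mem_univ r)
      rw [rootInd, if_neg hr] at e3
      exact e3
    exact Nat.mul_pos hpos e2

end Pool.Agent.Lib.MP_5854e1_co
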