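import Pool.Agent.Lib.MP_5854e1_co.CertM34
import Pool.Agent.Lib.MP_5854e1_co.MnrD

/-!
The one-point union of two complete graphs on five vertices has no finite planar cover.
-/

set_option autoImplicit false

namespace Pool.Agent.Lib.MP_5854e1_co

theorem MG34_noCover : ¬ HasPlanarCover MG34 :=
  MG34_cert.noPlanarCover MG34 _ _ MG34_cert_ok (by decide) 8 (by decide)
    (fun u => ([1, 0, 3, 2, 2, 0, 0, 2, 0] : List (Fin 9)).getD u.1 0) (by decide)
    (fun u => ([8, 8, 8, 8, 8, 8, 8, 8, 8] : List (Fin 9)).getD u.1 0)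
    (fun u => ([1, 1, 1, 1, 1, 1, 1, 1, 0] : List ℕ).getD u.1 0) (by decide)

end Pool.Agent.Lib.MP_5854e1_co
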