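import Pool.Agent.Lib.MP_5854e1_co.CertM0
import Pool.Agent.Lib.MP_5854e1_co.CertM1
import Pool.Agent.Lib.MP_5854e1_co.CertM3
import Pool.Agent.Lib.MP_5854e1_co.CertM4
import Pool.Agent.Lib.MP_5854e1_co.CertM5
import Pool.Agent.Lib.MP_5854e1_co.CertM6
import Pool.Agent.Lib.MP_5854e1_co.CertM7
import Pool.Agent.Lib.MP_5854e1_co.CertM8
import Pool.Agent.Lib.MP_5854e1_co.CertM9
import Pool.Agent.Lib.MP_5854e1_co.CertM11
import Pool.Agent.Lib.MP_5854e1_co.CertM12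
import Pool.Agent.Lib.MP_5854e1_co.CertM17
import Pool.Agent.Lib.MP_5854e1_co.CertM18
import Pool.Agent.Lib.MP_5854e1_co.CertM20
import Pool.Agent.Lib.MP_5854e1_co.CertM22
import Pool.Agent.Lib.MP_5854e1_co.CertM23
import Pool.Agent.Lib.MP_5854e1_co.CertM25
import Pool.Agent.Lib.MP_5854e1_co.CertM27
import Pool.Agent.Lib.MP_5854e1_co.CertM29
import Pool.Agent.Lib.MP_5854e1_co.CertM31
import Pool.Agent.Lib.MP_5854e1_co.CertM32
import Pool.Agent.Lib.MP_5854e1_co.CertM33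
import Pool.Agent.Lib.MP_5854e1_co.MnrD

/-!
# Twenty-two minor-minimal nonprojective graphs without finite planar covers
-/

set_option autoImplicit false

namespace Pool.Agent.Lib.MP_5854e1_co

theorem MG0_noCover : ¬ HasPlanarCover MG0 :=
  MG0_cert.noPlanarCover MG0 _ _ MG0_cert_ok (by decide) 9 (by decide)
    (fun u => ([1, 0, 0, 0, 2, 1, 1, 2, 1, 4] : List (Fin 10)).getD u.1 0) (by decide)
    (fun u => ([2, 5, 4, 4, 9, 9, 9, 9, 9, 9] : List (Fin 10)).getD u.1 0)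
    (fun u => ([3, 2, 2, 2, 1, 1, 1, 1, 1, 0] : List ℕ).getD u.1 0) (by decide)

theorem MG1_noCover : ¬ HasPlanarCover MG1 :=
  MG1_cert.noPlanarCover MG1 _ _ MG1_cert_ok (by decide) 9 (by decide)
    (fun u => ([4, 2, 1, 1, 0, 0, 0, 2, 2, 4] : List (Fin 10)).getD u.1 0) (by decide)
    (fun u => ([4, 4, 7, 7, 9, 9, 9, 9, 9, 9] : List (Fin 10)).getD u.1 0)
    (fun u => ([2, 2, 2, 2, 1, 1, 1, 1, 1, 0] : List ℕ).getD u.1 0) (by decide)

theorem MG3_noCover : ¬ HasPlanarCover MG3 :=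
  MG3_cert.noPlanarCover MG3 _ _ MG3_cert_ok (by decide) 9 (by decide)
    (fun u => ([1, 0, 0, 1, 5, 2, 1, 0, 3, 5] : List (Fin 10)).getD u.1 0) (by decide)
    (fun u => ([7, 6, 5, 7, 5, 9, 9, 9, 9, 9] : List (Fin 10)).getD u.1 0)
    (fun u => ([2, 2, 2, 2, 2, 1, 1, 1, 1, 0] : List ℕ).getD u.1 0) (by decide)

theorem MG4_noCover : ¬ HasPlanarCover MG4 :=
  MG4_cert.noPlanarCover MG4 _ _ MG4_cert_ok (by decide) 9 (by decide)
    (fun u => ([3, 3, 6, 0, 0, 0, 1, 1, 1, 3] : List (Fin 10)).getD u.1 0) (by decide)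
    (fun u => ([3, 3, 6, 9, 9, 9, 9, 9, 9, 9] : List (Fin 10)).getD u.1 0)
    (fun u => ([2, 2, 2, 1, 1, 1, 1, 1, 1, 0] : List ℕ).getD u.1 0) (by decide)

theorem MG5_noCover : ¬ HasPlanarCover MG5 :=
  MG5_cert.noPlanarCover MG5 _ _ MG5_cert_ok (by decide) 9 (by decide)
    (fun u => ([2, 2, 0, 0, 0, 2, 5, 5, 5, 5] : List (Fin 10)).getD u.1 0) (by decide)
    (fun u => ([2, 2, 5, 5, 5, 9, 9, 9, 9, 9] : List (Fin 10)).getD u.1 0)
    (fun u => ([3, 3, 2, 2, 2, 1, 1, 1, 1, 0] : List ℕ).getD u.1 0) (by decide)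

theorem MG6_noCover : ¬ HasPlanarCover MG6 :=
  MG6_cert.noPlanarCover MG6 _ _ MG6_cert_ok (by decide) 9 (by decide)
    (fun u => ([3, 4, 3, 0, 0, 1, 0, 1, 0, 4] : List (Fin 10)).getD u.1 0) (by decide)
    (fun u => ([4, 4, 6, 5, 9, 9, 9, 9, 9, 9] : List (Fin 10)).getD u.1 0)
    (fun u => ([2, 2, 2, 2, 1, 1, 1, 1, 1, 0] : List ℕ).getD u.1 0) (by decide)

theorem MG7_noCover : ¬ HasPlanarCover MG7 :=
  MG7_cert.noPlanarCover MG7 _ _ MG7_cert_ok (by decide) 9 (by decide)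
    (fun u => ([1, 0, 1, 0, 0, 1, 1, 2, 2, 5] : List (Fin 10)).getD u.1 0) (by decide)
    (fun u => ([1, 5, 7, 5, 6, 9, 9, 9, 9, 9] : List (Fin 10)).getD u.1 0)
    (fun u => ([3, 2, 2, 2, 2, 1, 1, 1, 1, 0] : List ℕ).getD u.1 0) (by decide)

theorem MG8_noCover : ¬ HasPlanarCover MG8 :=
  MG8_cert.noPlanarCover MG8 _ _ MG8_cert_ok (by decide) 9 (by decide)
    (fun u => ([1, 0, 0, 0, 0, 2, 1, 2, 1, 5] : List (Fin 10)).getD u.1 0) (by decide)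
    (fun u => ([2, 6, 5, 6, 5, 9, 9, 9, 9, 9] : List (Fin 10)).getD u.1 0)
    (fun u => ([3, 2, 2, 2, 2, 1, 1, 1, 1, 0] : List ℕ).getD u.1 0) (by decide)

theorem MG9_noCover : ¬ HasPlanarCover MG9 :=
  MG9_cert.noPlanarCover MG9 _ _ MG9_cert_ok (by decide) 9 (by decide)
    (fun u => ([2, 3, 0, 0, 0, 1, 3, 2, 2, 6] : List (Fin 10)).getD u.1 0) (by decide)
    (fun u => ([3, 3, 7, 6, 6, 7, 9, 9, 9, 9] : List (Fin 10)).getD u.1 0)
    (fun u => ([3, 3, 2, 2, 2, 2, 1, 1, 1, 0] : List ℕ).getD u.1 0) (by decide)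

theorem MG11_noCover : ¬ HasPlanarCover MG11 :=
  MG11_cert.noPlanarCover MG11 _ _ MG11_cert_ok (by decide) 10 (by decide)
    (fun u => ([4, 6, 5, 4, 0, 0, 0, 1, 1, 2, 4] : List (Fin 11)).getD u.1 0) (by decide)
    (fun u => ([4, 6, 5, 4, 10, 10, 10, 10, 10, 10, 10] : List (Fin 11)).getD u.1 0)
    (fun u => ([2, 2, 2, 2, 1, 1, 1, 1, 1, 1, 0] : List ℕ).getD u.1 0) (by decide)

theorem MG12_noCover : ¬ HasPlanarCover MG12 :=
  MG12_cert.noPlanarCover MG12 _ _ MG12_cert_ok (by decide) 10 (by decide)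
    (fun u => ([3, 2, 1, 0, 1, 0, 3, 3, 2, 0, 2] : List (Fin 11)).getD u.1 0) (by decide)
    (fun u => ([9, 2, 10, 0, 10, 0, 9, 9, 2, 10, 10] : List (Fin 11)).getD u.1 0)
    (fun u => ([2, 2, 1, 3, 1, 3, 2, 2, 2, 1, 0] : List ℕ).getD u.1 0) (by decide)

theorem MG17_noCover : ¬ HasPlanarCover MG17 :=
  MG17_cert.noPlanarCover MG17 _ _ MG17_cert_ok (by decide) 7 (by decide)
    (fun u => ([2, 2, 0, 0, 0, 0, 0, 2] : List (Fin 8)).getD u.1 0) (by decide)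
    (fun u => ([2, 2, 7, 7, 7, 7, 7, 7] : List (Fin 8)).getD u.1 0)
    (fun u => ([2, 2, 1, 1, 1, 1, 1, 0] : List ℕ).getD u.1 0) (by decide)

theorem MG18_noCover : ¬ HasPlanarCover MG18 :=
  MG18_cert.noPlanarCover MG18 _ _ MG18_cert_ok (by decide) 7 (by decide)
    (fun u => ([3, 3, 3, 0, 0, 0, 1, 3] : List (Fin 8)).getD u.1 0) (by decide)
    (fun u => ([3, 3, 3, 7, 7, 7, 7, 7] : List (Fin 8)).getD u.1 0)
    (fun u => ([2, 2, 2, 1, 1, 1, 1, 0] : List ℕ).getD u.1 0) (by decide)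

theorem MG20_noCover : ¬ HasPlanarCover MG20 :=
  MG20_cert.noPlanarCover MG20 _ _ MG20_cert_ok (by decide) 7 (by decide)
    (fun u => ([1, 0, 0, 0, 1, 0, 1, 1] : List (Fin 8)).getD u.1 0) (by decide)
    (fun u => ([1, 7, 1, 1, 7, 7, 7, 7] : List (Fin 8)).getD u.1 0)
    (fun u => ([2, 1, 2, 2, 1, 1, 1, 0] : List ℕ).getD u.1 0) (by decide)

theorem MG22_noCover : ¬ HasPlanarCover MG22 :=
  MG22_cert.noPlanarCover MG22 _ _ MG22_cert_ok (by decide) 7 (by decide)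
    (fun u => ([1, 0, 0, 0, 0, 1, 0, 3] : List (Fin 8)).getD u.1 0) (by decide)
    (fun u => ([3, 3, 3, 7, 7, 7, 7, 7] : List (Fin 8)).getD u.1 0)
    (fun u => ([2, 2, 2, 1, 1, 1, 1, 0] : List ℕ).getD u.1 0) (by decide)

theorem MG23_noCover : ¬ HasPlanarCover MG23 :=
  MG23_cert.noPlanarCover MG23 _ _ MG23_cert_ok (by decide) 7 (by decide)
    (fun u => ([1, 0, 3, 1, 0, 0, 0, 2] : List (Fin 8)).getD u.1 0) (by decide)
    (fun u => ([5, 3, 7, 7, 2, 7, 7, 7] : List (Fin 8)).getD u.1 0)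
    (fun u => ([2, 2, 1, 1, 2, 1, 1, 0] : List ℕ).getD u.1 0) (by decide)

theorem MG25_noCover : ¬ HasPlanarCover MG25 :=
  MG25_cert.noPlanarCover MG25 _ _ MG25_cert_ok (by decide) 8 (by decide)
    (fun u => ([2, 2, 0, 2, 0, 0, 1, 0, 3] : List (Fin 9)).getD u.1 0) (by decide)
    (fun u => ([4, 5, 3, 8, 8, 8, 8, 8, 8] : List (Fin 9)).getD u.1 0)
    (fun u => ([2, 2, 2, 1, 1, 1, 1, 1, 0] : List ℕ).getD u.1 0) (by decide)

theorem MG27_noCover : ¬ HasPlanarCover MG27 :=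
  MG27_cert.noPlanarCover MG27 _ _ MG27_cert_ok (by decide) 8 (by decide)
    (fun u => ([3, 3, 3, 0, 0, 0, 0, 0, 3] : List (Fin 9)).getD u.1 0) (by decide)
    (fun u => ([3, 3, 3, 8, 8, 8, 8, 8, 8] : List (Fin 9)).getD u.1 0)
    (fun u => ([2, 2, 2, 1, 1, 1, 1, 1, 0] : List ℕ).getD u.1 0) (by decide)

theorem MG29_noCover : ¬ HasPlanarCover MG29 :=
  MG29_cert.noPlanarCover MG29 _ _ MG29_cert_ok (by decide) 8 (by decide)
    (fun u => ([2, 2, 0, 0, 1, 2, 0, 4, 4] : List (Fin 9)).getD u.1 0) (by decide)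
    (fun u => ([6, 4, 5, 5, 8, 8, 8, 8, 8] : List (Fin 9)).getD u.1 0)
    (fun u => ([2, 2, 2, 2, 1, 1, 1, 1, 0] : List ℕ).getD u.1 0) (by decide)

theorem MG31_noCover : ¬ HasPlanarCover MG31 :=
  MG31_cert.noPlanarCover MG31 _ _ MG31_cert_ok (by decide) 8 (by decide)
    (fun u => ([1, 0, 3, 0, 1, 2, 2, 0, 1] : List (Fin 9)).getD u.1 0) (by decide)
    (fun u => ([1, 8, 8, 2, 1, 8, 8, 8, 8] : List (Fin 9)).getD u.1 0)
    (fun u => ([2, 1, 1, 2, 2, 1, 1, 1, 0] : List ℕ).getD u.1 0) (by decide)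

theorem MG32_noCover : ¬ HasPlanarCover MG32 :=
  MG32_cert.noPlanarCover MG32 _ _ MG32_cert_ok (by decide) 8 (by decide)
    (fun u => ([2, 2, 0, 0, 0, 1, 1, 1, 2] : List (Fin 9)).getD u.1 0) (by decide)
    (fun u => ([2, 2, 8, 8, 8, 8, 8, 8, 8] : List (Fin 9)).getD u.1 0)
    (fun u => ([2, 2, 1, 1, 1, 1, 1, 1, 0] : List ℕ).getD u.1 0) (by decide)

theorem MG33_noCover : ¬ HasPlanarCover MG33 :=
  MG33_cert.noPlanarCover MG33 _ _ MG33_cert_ok (by decide) 8 (by decide)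
    (fun u => ([1, 0, 0, 1, 2, 1, 0, 0, 4] : List (Fin 9)).getD u.1 0) (by decide)
    (fun u => ([6, 5, 4, 7, 8, 8, 8, 8, 8] : List (Fin 9)).getD u.1 0)
    (fun u => ([2, 2, 2, 2, 1, 1, 1, 1, 0] : List ℕ).getD u.1 0) (by decide)

end Pool.Agent.Lib.MP_5854e1_co
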