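import Pool.Agent.Lib.MP_5854e1_co.Glue2
import Pool.Agent.Lib.MP_5854e1_co.MinThms
import Pool.Agent.Lib.MP_5854e1_co.MinThm34

/-!
# The three disconnected graphs of the list
-/

set_option autoImplicit false

namespace Pool.Agent.Lib.MP_5854e1_co

/-- The disjoint union of two complete graphs on five vertices. -/
abbrev K5K5 : SimpleGraph (Fin 10) := ofEdges
  [(0, 1), (0, 2), (0, 3), (0, 4), (1, 2), (1, 3), (1, 4), (2, 3), (2, 4), (3, 4), (5, 6), (5, 7), (5, 8), (5, 9), (6, 7), (6, 8), (6, 9), (7, 8), (7, 9), (8, 9)]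

/-- The disjoint union of `K_5` and `K_{3,3}`. -/
abbrev K5K33 : SimpleGraph (Fin 11) := ofEdges
  [(0, 1), (0, 2), (0, 3), (0, 4), (1, 2), (1, 3), (1, 4), (2, 3), (2, 4), (3, 4), (5, 8), (5, 9), (5, 10), (6, 8), (6, 9), (6, 10), (7, 8), (7, 9), (7, 10)]

/-- The disjoint union of two graphs `K_{3,3}`. -/
abbrev K33K33 : SimpleGraph (Fin 12) := ofEdges
  [(0, 3), (0, 4), (0, 5), (1, 3), (1, 4), (1, 5), (2, 3), (2, 4), (2, 5), (6, 9), (6, 10), (6, 11), (7, 9), (7, 10), (7, 11), (8, 9), (8, 10), (8, 11)]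

def discT10 : List (List (List (Fin 10))) :=
  [[[1, 2, 6, 7, 8, 3, 4, 9, 0], [1, 2, 5, 7, 8, 3, 4, 9, 0], [1, 2, 5, 6, 8, 3, 4, 9, 0], [1, 2, 5, 6, 7, 3, 4, 9, 0], [1, 2, 5, 6, 7, 3, 4, 8, 0]],
   [[0, 2, 6, 7, 8, 3, 4, 9, 1], [0, 2, 5, 7, 8, 3, 4, 9, 1], [0, 2, 5, 6, 8, 3, 4, 9, 1], [0, 2, 5, 6, 7, 3, 4, 9, 1], [0, 2, 5, 6, 7, 3, 4, 8, 1]],
   [[0, 1, 6, 7, 8, 3, 4, 9, 2], [0, 1, 5, 7, 8, 3, 4, 9, 2], [0, 1, 5, 6, 8, 3, 4, 9, 2], [0, 1, 5, 6, 7, 3, 4, 9, 2], [0, 1, 5, 6, 7, 3, 4, 8, 2]],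
   [[0, 1, 6, 7, 8, 2, 4, 9, 3], [0, 1, 5, 7, 8, 2, 4, 9, 3], [0, 1, 5, 6, 8, 2, 4, 9, 3], [0, 1, 5, 6, 7, 2, 4, 9, 3], [0, 1, 5, 6, 7, 2, 4, 8, 3]],
   [[0, 1, 6, 7, 8, 2, 3, 9, 4], [0, 1, 5, 7, 8, 2, 3, 9, 4], [0, 1, 5, 6, 8, 2, 3, 9, 4], [0, 1, 5, 6, 7, 2, 3, 9, 4], [0, 1, 5, 6, 7, 2, 3, 8, 4]]]

def discT13 : List (List (List (Fin 11))) :=
  [[[6, 7, 8, 9, 10, 0, 1, 2, 3, 4], [5, 7, 8, 9, 10, 0, 1, 2, 3, 4], [5, 6, 8, 9, 10, 0, 1, 2, 3, 4], [9, 10, 5, 6, 7, 0, 1, 2, 3, 4], [8, 10, 5, 6, 7, 0, 1, 2, 3, 4], [8, 9, 5, 6, 7, 0, 1, 2, 3, 4]],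
   [[6, 7, 8, 9, 10, 1, 0, 2, 3, 4], [5, 7, 8, 9, 10, 1, 0, 2, 3, 4], [5, 6, 8, 9, 10, 1, 0, 2, 3, 4], [9, 10, 5, 6, 7, 1, 0, 2, 3, 4], [8, 10, 5, 6, 7, 1, 0, 2, 3, 4], [8, 9, 5, 6, 7, 1, 0, 2, 3, 4]],
   [[6, 7, 8, 9, 10, 2, 0, 1, 3, 4], [5, 7, 8, 9, 10, 2, 0, 1, 3, 4], [5, 6, 8, 9, 10, 2, 0, 1, 3, 4], [9, 10, 5, 6, 7, 2, 0, 1, 3, 4], [8, 10, 5, 6, 7, 2, 0, 1, 3, 4], [8, 9, 5, 6, 7, 2, 0, 1, 3, 4]],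
   [[6, 7, 8, 9, 10, 3, 0, 1, 2, 4], [5, 7, 8, 9, 10, 3, 0, 1, 2, 4], [5, 6, 8, 9, 10, 3, 0, 1, 2, 4], [9, 10, 5, 6, 7, 3, 0, 1, 2, 4], [8, 10, 5, 6, 7, 3, 0, 1, 2, 4], [8, 9, 5, 6, 7, 3, 0, 1, 2, 4]],
   [[6, 7, 8, 9, 10, 4, 0, 1, 2, 3], [5, 7, 8, 9, 10, 4, 0, 1, 2, 3], [5, 6, 8, 9, 10, 4, 0, 1, 2, 3], [9, 10, 5, 6, 7, 4, 0, 1, 2, 3], [8, 10, 5, 6, 7, 4, 0, 1, 2, 3], [8, 9, 5, 6, 7, 4, 0, 1, 2, 3]]]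

def discT14 : List (List (List (Fin 12))) :=
  [[[3, 9, 7, 1, 8, 2, 4, 5, 10, 0, 11], [3, 9, 6, 1, 8, 2, 4, 5, 10, 0, 11], [3, 9, 6, 1, 7, 2, 4, 5, 10, 0, 11], [3, 6, 10, 1, 11, 2, 4, 5, 7, 0, 8], [3, 6, 9, 1, 11, 2, 4, 5, 7, 0, 8], [3, 6, 9, 1, 10, 2, 4, 5, 7, 0, 8]],
   [[3, 9, 7, 0, 8, 2, 4, 5, 10, 1, 11], [3, 9, 6, 0, 8, 2, 4, 5, 10, 1, 11], [3, 9, 6, 0, 7, 2, 4, 5, 10, 1, 11], [3, 6, 10, 0, 11, 2, 4, 5, 7, 1, 8], [3, 6, 9, 0, 11, 2, 4, 5, 7, 1, 8], [3, 6, 9, 0, 10, 2, 4, 5, 7, 1, 8]],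
   [[3, 9, 7, 0, 8, 1, 4, 5, 10, 2, 11], [3, 9, 6, 0, 8, 1, 4, 5, 10, 2, 11], [3, 9, 6, 0, 7, 1, 4, 5, 10, 2, 11], [3, 6, 10, 0, 11, 1, 4, 5, 7, 2, 8], [3, 6, 9, 0, 11, 1, 4, 5, 7, 2, 8], [3, 6, 9, 0, 10, 1, 4, 5, 7, 2, 8]],
   [[0, 9, 7, 4, 8, 5, 1, 2, 10, 3, 11], [0, 9, 6, 4, 8, 5, 1, 2, 10, 3, 11], [0, 9, 6, 4, 7, 5, 1, 2, 10, 3, 11], [0, 6, 10, 4, 11, 5, 1, 2, 7, 3, 8], [0, 6, 9, 4, 11, 5, 1, 2, 7, 3, 8], [0, 6, 9, 4, 10, 5, 1, 2, 7, 3, 8]],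
   [[0, 9, 7, 3, 8, 5, 1, 2, 10, 4, 11], [0, 9, 6, 3, 8, 5, 1, 2, 10, 4, 11], [0, 9, 6, 3, 7, 5, 1, 2, 10, 4, 11], [0, 6, 10, 3, 11, 5, 1, 2, 7, 4, 8], [0, 6, 9, 3, 11, 5, 1, 2, 7, 4, 8], [0, 6, 9, 3, 10, 5, 1, 2, 7, 4, 8]],
   [[0, 9, 7, 3, 8, 4, 1, 2, 10, 5, 11], [0, 9, 6, 3, 8, 4, 1, 2, 10, 5, 11], [0, 9, 6, 3, 7, 4, 1, 2, 10, 5, 11], [0, 6, 10, 3, 11, 4, 1, 2, 7, 5, 8], [0, 6, 9, 3, 11, 4, 1, 2, 7, 5, 8], [0, 6, 9, 3, 10, 4, 1, 2, 7, 5, 8]]]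

theorem K5K5_ok : ∀ a b : Fin 10, a.val < 5 → ¬ b.val < 5 → GlueOK K5K5 MG34 a b
    (fun x => ((discT10.getD a.val []).getD (b.val - 5) []).getD x.val 0) := by
  decide +kernel

theorem K5K33_ok : ∀ a b : Fin 11, a.val < 5 → ¬ b.val < 5 → GlueOK K5K33 MG5 a b
    (fun x => ((discT13.getD a.val []).getD (b.val - 5) []).getD x.val 0) := by
  decide +kernel

theorem K33K33_ok : ∀ a b : Fin 12, a.val < 6 → ¬ b.val < 6 → GlueOK K33K33 MG12 a b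
    (fun x => ((discT14.getD a.val []).getD (b.val - 6) []).getD x.val 0) := by
  decide +kernel

section

variable {U : Type*} [Finite U] {G : SimpleGraph U}

theorem K5K5_noMinor (hG : G.Connected) (h : HasPlanarCover G) : ¬ IsMinor K5K5 G :=
  no_disc_minor MG34_noCover 5 _ K5K5_ok (a0 := 0) (b0 := 5) (by decide) (by decide) hG h

theorem K5K33_noMinor (hG : G.Connected) (h : HasPlanarCover G) : ¬ IsMinor K5K33 G :=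
  no_disc_minor MG5_noCover 5 _ K5K33_ok (a0 := 0) (b0 := 5) (by decide) (by decide) hG h

theorem K33K33_noMinor (hG : G.Connected) (h : HasPlanarCover G) : ¬ IsMinor K33K33 G :=
  no_disc_minor MG12_noCover 6 _ K33K33_ok (a0 := 0) (b0 := 6) (by decide) (by decide) hG h

end

end Pool.Agent.Lib.MP_5854e1_co
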