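import Pool.Agent.Lib.MP_5854e1_co.Model

/-!
# Euler's formula and discharging in the 24-dart model
-/

set_option autoImplicit false

open Equiv Equiv.Perm

namespace Pool.Agent.Lib.MP_5854e1_co

/-- The contracted form of a cover of `K_{1,2,2,2}`: cells are the cycles of `nxt`, block words of
24 darts; the faces are the cycles of `nxt ∘ inv`. -/
structure Model24 (D : Type*) where
  /-- the next dart on the contour of the cell -/
  nxt : Perm D
  /-- the reversal -/
  inv : Perm D
  /-- the label: the pair of rim labels -/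
  lab : D → Fin 7 × Fin 7
  inv_inv : ∀ d, inv (inv d) = d
  lab_inv : ∀ d, lab (inv d) = (lab d).swap
  cell : ∀ d, ∃ (s : D) (i : ℕ), i < 24 ∧ nxt^[i] s = d ∧ nxt^[24] s = s ∧
    BlockWord fun i => lab (nxt^[i] s)

namespace Model24

variable {D : Type*} (M : Model24 D)

/-- The face permutation. -/
def face : Perm D := M.inv.trans M.nxt

theorem face_apply (d : D) : M.face d = M.nxt (M.inv d) := rfl

theorem period24 (d : D) : M.nxt^[24] d = d := by
  obtain ⟨s, i, -, h1, h2, -⟩ := M.cell d
  rw [← h1, ← Function.iterate_add_apply, add_comm, Function.iterate_add_apply, h2]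

end Model24

section perm

variable {D : Type*} [Finite D]

theorem sameCycle_iterate (σ : Perm D) {x y : D} (h : σ.SameCycle x y) :
    ∃ i < Function.minimalPeriod σ x, σ^[i] x = y := by
  obtain ⟨k, hk⟩ := h
  have hp : 0 < Function.minimalPeriod σ x := by
    apply Function.minimalPeriod_pos_of_mem_periodicPts
    exact Function.Injective.mem_periodicPts σ.injective x
  set p := Function.minimalPeriod σ x
  have hpx : (σ ^ (p : ℤ)) x = x := by
    rw [zpow_natCast, Equiv.Perm.coe_pow]
    exact Function.isPeriodicPt_minimalPeriod σ x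
  refine ⟨(k % p).toNat, ?_, ?_⟩
  · have := Int.emod_lt_of_pos k (by exact_mod_cast hp : (0 : ℤ) < p)
    have h0 := Int.emod_nonneg k (by positivity : (p : ℤ) ≠ 0)
    omega
  · have h0 := Int.emod_nonneg k (by positivity : (p : ℤ) ≠ 0)
    rw [← Equiv.Perm.coe_pow, ← zpow_natCast, Int.toNat_of_nonneg h0, ← hk]
    have e : k = k % p + p * (k / p) := by rw [Int.emod_add_mul_ediv]
    conv_rhs => rw [e]
    rw [zpow_add, Equiv.Perm.mul_apply]
    congr 1
    rw [zpow_mul]
    exact (Equiv.Perm.zpow_apply_eq_self_of_apply_eq_self hpx _).symm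

theorem card_sameCycle (σ : Perm D) (x : D) :
    Nat.card {y // σ.SameCycle x y} = Function.minimalPeriod σ x := by
  set p := Function.minimalPeriod σ x
  rw [← Nat.card_fin p]
  refine (Nat.card_congr (Equiv.ofBijective (fun i : Fin p =>
    (⟨σ^[i.1] x, i.1, by rw [zpow_natCast, Equiv.Perm.coe_pow]⟩ : {y // σ.SameCycle x y}))
    ⟨?_, ?_⟩)).symm
  · intro i j h
    exact Fin.ext (Function.iterate_injOn_Iio_minimalPeriod i.2 j.2 (congrArg Subtype.val h))
  · rintro ⟨y, hy⟩
    obtain ⟨i, hi, hix⟩ := sameCycle_iterate σ hy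
    exact ⟨⟨i, hi⟩, Subtype.ext hix⟩

theorem minimalPeriod_pos' (σ : Perm D) (x : D) : 0 < Function.minimalPeriod σ x :=
  Function.minimalPeriod_pos_of_mem_periodicPts
    (Function.Injective.mem_periodicPts σ.injective x)

theorem sameCycle_minimalPeriod (σ : Perm D) {x y : D} (h : σ.SameCycle x y) :
    Function.minimalPeriod σ x = Function.minimalPeriod σ y := by
  rw [← card_sameCycle σ x, ← card_sameCycle σ y]
  exact Nat.card_congr (Equiv.subtypeEquivRight fun z => ⟨fun hz => h.symm.trans hz,
    fun hz => h.trans hz⟩)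

open Relation in
/-- The number of cycles is the sum of the reciprocals of the cycle lengths. -/
theorem cyc_eq_sum [Fintype D] (σ : Perm D) :
    (cyc σ : ℚ) = ∑ x : D, 1 / (Function.minimalPeriod σ x : ℚ) := by
  classical
  have hq : Fintype (Quot fun x y => σ x = y) := Fintype.ofFinite _
  have h1 : (cyc σ : ℚ) = ∑ _q : Quot (fun x y => σ x = y), (1 : ℚ) := by
    unfold cyc ncl
    rw [Nat.card_eq_fintype_card]
    simp
  rw [h1, ← Finset.sum_fiberwise_of_maps_to (s := Finset.univ) (t := Finset.univ)
    (g := fun x => Quot.mk (fun x y => σ x = y) x) (fun _ _ => Finset.mem_univ _)]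
  refine Finset.sum_congr rfl fun q _ => ?_
  induction q using Quot.ind with
  | mk x =>
    have h2 : ∀ y ∈ Finset.univ.filter (fun y => Quot.mk (fun x y => σ x = y) y =
        Quot.mk (fun x y => σ x = y) x), σ.SameCycle x y := fun y hy => by
      have h := (Finset.mem_filter.1 hy).2
      exact ((eqvGen_iff_sameCycle σ y x).1 (Quot.eqvGen_exact h)).symm
    have h3 : (Finset.univ.filter (fun y => Quot.mk (fun x y => σ x = y) y =
        Quot.mk (fun x y => σ x = y) x)).card = Function.minimalPeriod σ x := by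
      rw [← card_sameCycle σ x, Nat.card_eq_fintype_card, Fintype.card_subtype]
      congr 1
      ext y
      simp only [Finset.mem_filter, Finset.mem_univ, true_and]
      constructor
      · intro h
        exact ((eqvGen_iff_sameCycle σ y x).1 (Quot.eqvGen_exact h)).symm
      · intro h
        exact Quot.eqvGen_sound ((eqvGen_iff_sameCycle σ y x).2 h.symm)
    rw [Finset.sum_congr rfl (fun y hy => by rw [← sameCycle_minimalPeriod σ (h2 y hy)]),
      Finset.sum_const, h3, nsmul_eq_mul]
    have := minimalPeriod_pos' σ x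
    field_simp

end perm

namespace Model24

variable {D : Type*} (M : Model24 D)

/-- **Discharging.** `Ψ` and `Γ` may be arbitrary functions of the darts. -/
theorem discharge [Finite D] (Ψ Γ : D → ℚ)
    (h : ∀ s : D, BlockWord (fun i => M.lab (M.nxt^[i] s)) →
      ∑ i ∈ Finset.range 24, (1 / (Function.minimalPeriod M.face (M.nxt^[i] s) : ℚ)
        + (Ψ (M.nxt^[i] s) - Ψ (M.inv (M.nxt^[i] s)))
        + (Γ (M.nxt^[i] s) - Γ (M.face (M.nxt^[i] s)))) ≤ 11) :
    24 * cyc M.face ≤ 11 * Nat.card D := by
  classical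
  have := Fintype.ofFinite D
  set g : D → ℚ := fun d => 1 / (Function.minimalPeriod M.face d : ℚ) + (Ψ d - Ψ (M.inv d))
    + (Γ d - Γ (M.face d)) with hg
  have hcell : ∀ d, ∑ i ∈ Finset.range 24, g (M.nxt^[i] d) ≤ 11 := by
    intro d
    obtain ⟨s, i, -, h1, h2, h3⟩ := M.cell d
    have hshift : ∀ d, ∑ i ∈ Finset.range 24, g (M.nxt^[i] (M.nxt d)) =
        ∑ i ∈ Finset.range 24, g (M.nxt^[i] d) := by
      intro d
      have e1 : ∑ i ∈ Finset.range 24, g (M.nxt^[i] (M.nxt d)) =
          ∑ i ∈ Finset.range 24, g (M.nxt^[i + 1] d) :=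
        Finset.sum_congr rfl fun i _ => by rw [Function.iterate_succ_apply]
      have e2 := Finset.sum_range_succ' (fun i => g (M.nxt^[i] d)) 24
      have e3 := Finset.sum_range_succ (fun i => g (M.nxt^[i] d)) 24
      rw [M.period24 d] at e3
      rw [e1]
      simp only [Function.iterate_zero, id_eq] at e2
      linarith
    have : ∀ i, ∑ j ∈ Finset.range 24, g (M.nxt^[j] (M.nxt^[i] s)) =
        ∑ j ∈ Finset.range 24, g (M.nxt^[j] s) := by
      intro i
      induction i with
      | zero => rfl
      | succ i ih => rw [Function.iterate_succ_apply', hshift, ih]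
    rw [← h1, this i]
    exact h s h3
  have htot : ∑ d, g d = (cyc M.face : ℚ) := by
    rw [cyc_eq_sum]
    simp only [hg, Finset.sum_add_distrib, Finset.sum_sub_distrib]
    have e1 : ∑ d, Ψ (M.inv d) = ∑ d, Ψ d := Equiv.sum_comp M.inv Ψ
    have e2 : ∑ d, Γ (M.face d) = ∑ d, Γ d := Equiv.sum_comp M.face Γ
    rw [e1, e2]
    ring
  have h24 : ∑ d, ∑ i ∈ Finset.range 24, g (M.nxt^[i] d) = 24 * ∑ d, g d := by
    rw [Finset.sum_comm]
    have : ∀ i ∈ Finset.range 24, ∑ d, g (M.nxt^[i] d) = ∑ d, g d := by
      intro i _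
      have := Equiv.sum_comp (M.nxt ^ i) g
      rw [← this]
      rfl
    rw [Finset.sum_congr rfl this, Finset.sum_const, Finset.card_range, nsmul_eq_mul]
    norm_num
  have hle : ∑ d, ∑ i ∈ Finset.range 24, g (M.nxt^[i] d) ≤ ∑ _d : D, (11 : ℚ) :=
    Finset.sum_le_sum fun d _ => hcell d
  rw [h24, htot, Finset.sum_const, nsmul_eq_mul, Finset.card_univ] at hle
  rw [Nat.card_eq_fintype_card]
  have : ((24 * cyc M.face : ℕ) : ℚ) ≤ ((11 * Fintype.card D : ℕ) : ℚ) := by
    push_cast
    linarith
  exact_mod_cast this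

end Model24

/-! ### From covers to the model -/

section cover

variable {W : Type*} {H : SimpleGraph W} {φ : W → Fin 7} [Finite W]

/-- The model of a cover with a rotation system. -/
noncomputable def coverModel (hφ : IsCover H K1222 φ) (rot : Perm H.Dart)
    (hrot : ∀ x y, rot.SameCycle x y ↔ x.fst = y.fst) : Model24 (Rim H φ) where
  nxt := nxt hφ rot hrot
  inv := rimInv H φ
  lab d := lab φ d.1
  inv_inv d := Subtype.ext d.1.symm_symm
  lab_inv _ := rfl
  cell d := exists_cell hφ rot hrot d

theorem card_eq_seven (hφ : IsCover H K1222 φ) : Nat.card W = 7 * fib φ 0 := by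
  classical
  have := Fintype.ofFinite W
  have h : ∀ u : Fin 7, fib φ u = fib φ 0 := fun u => by
    by_cases h : u = 0
    · rw [h]
    · have : K1222.Adj u 0 := by revert u; decide
      exact fib_eq_of_adj hφ this
  have h1 : Fintype.card W = ∑ u : Fin 7, (Finset.univ.filter fun v => φ v = u).card := by
    rw [← Finset.card_univ]
    exact Finset.card_eq_sum_card_fiberwise (fun _ _ => Finset.mem_coe.2 (Finset.mem_univ _))
  rw [Nat.card_eq_fintype_card, h1]
  have h2 : ∀ u : Fin 7, (Finset.univ.filter fun v => φ v = u).card = fib φ 0 := fun u => by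
    rw [← h u, fib, Nat.card_eq_fintype_card, Fintype.card_subtype]
  rw [Finset.sum_congr rfl (fun u _ => h2 u), Finset.sum_const, Finset.card_univ]
  simp

theorem card_dart_36 (hφ : IsCover H K1222 φ) : Nat.card H.Dart = 36 * fib φ 0 := by
  classical
  have hf : ∀ u : Fin 7, fib φ u = fib φ 0 := fun u => by
    by_cases h : u = 0
    · rw [h]
    · have : K1222.Adj u 0 := by revert u; decide
      exact fib_eq_of_adj hφ this
  have := finiteDart (H := H)
  have : Finite K1222.Dart := finiteDart
  have := Fintype.ofFinite H.Dart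
  have := Fintype.ofFinite K1222.Dart
  have h1 : Fintype.card H.Dart =
      ∑ e : K1222.Dart, (Finset.univ.filter fun d : H.Dart => hφ.dart d = e).card := by
    rw [← Finset.card_univ]
    exact Finset.card_eq_sum_card_fiberwise (fun _ _ => Finset.mem_coe.2 (Finset.mem_univ _))
  have h2 : ∀ e : K1222.Dart, (Finset.univ.filter fun d : H.Dart => hφ.dart d = e).card =
      fib φ 0 := fun e => by
    rw [← hf e.fst, ← card_dart_fib hφ e, Nat.card_eq_fintype_card, Fintype.card_subtype]
  rw [Nat.card_eq_fintype_card, h1, Finset.sum_congr rfl (fun e _ => h2 e), Finset.sum_const,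
    Finset.card_univ, smul_eq_mul]
  congr 1
  rw [← Nat.card_eq_fintype_card, card_dart_eq, ← Nat.card_congr (Equiv.refl K1222.edgeSet)]
  have : Nat.card K1222.edgeSet = 18 := by
    rw [Nat.card_eq_fintype_card, ← SimpleGraph.edgeFinset_card]
    decide
  rw [this]

theorem card_rim (hφ : IsCover H K1222 φ) : Nat.card (Rim H φ) = 24 * fib φ 0 := by
  classical
  have hf : ∀ u : Fin 7, fib φ u = fib φ 0 := fun u => by
    by_cases h : u = 0
    · rw [h]
    · have : K1222.Adj u 0 := by revert u; decide
      exact fib_eq_of_adj hφ this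
  have := finiteDart (H := H)
  have : Finite K1222.Dart := finiteDart
  have := Fintype.ofFinite H.Dart
  have := Fintype.ofFinite K1222.Dart
  let S : Finset K1222.Dart := Finset.univ.filter fun e => e.fst ≠ 0 ∧ e.snd ≠ 0
  have h1 : Nat.card (Rim H φ) = ∑ e ∈ S,
      (Finset.univ.filter fun d : H.Dart => hφ.dart d = e).card := by
    rw [Nat.card_eq_fintype_card, Fintype.card_subtype]
    rw [Finset.card_eq_sum_card_fiberwise (f := fun d => hφ.dart d) (t := S)
      (fun d hd => by
        have := (Finset.mem_filter.1 (Finset.mem_coe.1 hd)).2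
        exact Finset.mem_coe.2 (Finset.mem_filter.2 ⟨Finset.mem_univ _, this⟩))]
    refine Finset.sum_congr rfl fun e he => ?_
    congr 1
    ext d
    simp only [Finset.mem_filter, Finset.mem_univ, true_and]
    constructor
    · exact fun h => h.2
    · intro h
      refine ⟨?_, h⟩
      have := (Finset.mem_filter.1 he).2
      rw [← h] at this
      exact this
  have h2 : ∀ e : K1222.Dart, (Finset.univ.filter fun d : H.Dart => hφ.dart d = e).card =
      fib φ 0 := fun e => by
    rw [← hf e.fst, ← card_dart_fib hφ e, Nat.card_eq_fintype_card, Fintype.card_subtype]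
  rw [h1, Finset.sum_congr rfl (fun e _ => h2 e), Finset.sum_const, smul_eq_mul]
  congr 1
  have h3 : S.card = Fintype.card {p : Fin 7 × Fin 7 // K1222.Adj p.1 p.2 ∧ p.1 ≠ 0 ∧ p.2 ≠ 0} := by
    rw [← Fintype.card_coe]
    refine Fintype.card_congr ⟨fun e => ⟨e.1.toProd, e.1.adj, (Finset.mem_filter.1 e.2).2⟩,
      fun p => ⟨⟨p.1, p.2.1⟩, Finset.mem_filter.2 ⟨Finset.mem_univ _, p.2.2⟩⟩, ?_, ?_⟩
    · rintro ⟨e, he⟩; rfl
    · rintro ⟨p, hp⟩; rfl
  rw [h3]
  decide

open Relation in
/-- The faces of `H` and the faces of the model. -/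
theorem faces_le (hφ : IsCover H K1222 φ) (rot : Perm H.Dart)
    (hrot : ∀ x y, rot.SameCycle x y ↔ x.fst = y.fst) :
    Nat.card (Quot fun x y => rot (flip H x) = y) ≤ cyc (coverModel hφ rot hrot).face := by
  classical
  have := finiteDart (H := H)
  let r : H.Dart → H.Dart → Prop := fun x y => rot (flip H x) = y
  have step : ∀ x, EqvGen r x (rot (flip H x)) := fun x => EqvGen.rel _ _ rfl
  have hwd : ∀ d : Rim H φ, EqvGen r d.1 ((coverModel hφ rot hrot).face d).1 := by
    intro d
    show EqvGen r d.1 (nxtFun rot φ (flip H d.1))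
    unfold nxtFun
    split_ifs with h
    · exact EqvGen.trans _ _ _ (step _) (EqvGen.trans _ _ _ (step _) (step _))
    · exact step _
  refine Nat.card_le_card_of_surjective
    (Quot.lift (fun d : Rim H φ => Quot.mk r d.1) (fun x y hxy => ?_)) ?_
  · rw [← hxy]
    exact Quot.eqvGen_sound (hwd x)
  · intro q
    induction q using Quot.ind with
    | mk x =>
      have hap : ∀ y : H.Dart, φ y.fst ≠ 0 → φ y.snd = 0 → ∃ d : Rim H φ, d.1 = rot y :=
        fun y h1 h2 => ⟨⟨rot y, by rw [rot_fst rot hrot]; exact h1, rot_apex hφ rot hrot h1 h2⟩, rfl⟩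
      by_cases h1 : φ x.fst = 0
      · obtain ⟨d, hd⟩ := hap (flip H x) (not_both_apex hφ x h1) h1
        refine ⟨Quot.mk _ d, ?_⟩
        show Quot.mk r d.1 = Quot.mk r x
        rw [hd]
        exact (Quot.eqvGen_sound (step x)).symm
      · by_cases h2 : φ x.snd = 0
        · set y := rot (flip H x) with hy
          have hy1 : φ y.fst = 0 := by rw [hy, rot_fst rot hrot]; exact h2
          obtain ⟨d, hd⟩ := hap (flip H y) (not_both_apex hφ y hy1) hy1
          refine ⟨Quot.mk _ d, ?_⟩
          show Quot.mk r d.1 = Quot.mk r x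
          rw [hd]
          exact (Quot.eqvGen_sound (EqvGen.trans _ _ _ (step x) (step y))).symm
        · exact ⟨Quot.mk _ ⟨x, h1, h2⟩, rfl⟩

open Relation in
/-- If the number of faces of every model is at most `11/24` of the number of darts, then
`K_{1,2,2,2}` has no finite planar cover. -/
theorem not_planar_of_models [Nonempty W] (hφ : IsCover H K1222 φ)
    (h : ∀ M : Model24 (Rim H φ), 24 * cyc M.face ≤ 11 * Nat.card (Rim H φ)) : ¬ IsPlanar H := by
  classical
  rintro ⟨rot, hrot, heul⟩
  have := finiteDart (H := H)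
  obtain ⟨v0⟩ := (inferInstance : Nonempty W)
  have hex : ∀ u : Fin 7, ∃ v, K1222.Adj u v := by decide
  have hd : ∀ v : W, ∃ d : H.Dart, d.fst = v := fun v => by
    obtain ⟨y, hy⟩ := hex (φ v)
    obtain ⟨d, hd, -⟩ := hφ.dart_surj v ⟨(φ v, y), hy⟩ rfl
    exact ⟨d, hd⟩
  -- vertices
  have hV : Nat.card (Quot fun x y => rot x = y) = Nat.card W := by
    refine Nat.card_congr (Equiv.ofBijective (Quot.lift (fun d : H.Dart => d.fst) ?_) ⟨?_, ?_⟩)
    · intro x y hxy
      rw [← hxy]
      exact (rot_fst rot hrot x).symm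
    · intro p q
      induction p using Quot.ind with
      | mk x =>
      induction q using Quot.ind with
      | mk y =>
        intro hxy
        exact Quot.eqvGen_sound ((eqvGen_iff_sameCycle rot x y).2 ((hrot x y).2 hxy))
    · intro v
      obtain ⟨d, hd⟩ := hd v
      exact ⟨Quot.mk _ d, hd⟩
  -- components
  have hC : 0 < Nat.card (Quot fun x y => rot x = y ∨ flip H x = y) := by
    obtain ⟨d, -⟩ := hd v0
    have : Nonempty (Quot fun x y => rot x = y ∨ flip H x = y) := ⟨Quot.mk _ d⟩
    exact Nat.card_pos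
  have h1 := faces_le hφ rot hrot
  have h2 := h (coverModel hφ rot hrot)
  rw [card_rim hφ] at h2
  have h3 := card_dart_eq H
  rw [card_dart_36 hφ] at h3
  rw [hV, card_eq_seven hφ] at heul
  omega

end cover

end Pool.Agent.Lib.MP_5854e1_co
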