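import Pool.Agent.Lib.MP_5854e1_co.OptTab

/-!
# The next strip is an option
-/

set_option autoImplicit false

open Equiv Equiv.Perm

namespace Pool.Agent.Lib.MP_5854e1_co

open Model24 (Kind)

theorem mem_genOpt {k : ℕ} {q : Lb} (hq : q ∈ allLab) {κ : Kind} {k1 : ℕ} (hk1 : k1 < 101)
    (h1 : (shp k1).1 = (1, 3))
    (h : winS (relS (nrm q) (shp k)) [(κ, shp k1)] = true) :
    ocode (kc κ) (lc q) k1 ∈ genOpt k := by
  unfold genOpt
  rw [List.mem_flatMap]
  refine ⟨q, hq, ?_⟩
  unfold winS at h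
  cases h2 : scStart (relS (nrm q) (shp k)) with
  | none => rw [h2] at h; exact absurd h Bool.false_ne_true
  | some σ =>
    rw [h2] at h
    simp only at h ⊢
    rw [List.mem_flatMap]
    refine ⟨κ, mem_kinds κ, ?_⟩
    rw [runS, scStrip, stripToks, scRun] at h
    simp only [h1] at h
    cases h3 : scStep σ κ (1, 3) with
    | none => rw [h3] at h; exact absurd h Bool.false_ne_true
    | some τ =>
      rw [h3] at h
      simp only at h ⊢
      rw [List.mem_filterMap]
      have hlt : k1 < shpL.length := by rw [length_shpL]; exact hk1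
      refine ⟨(shp k1, k1), ?_, ?_⟩
      · rw [List.mk_mem_zipIdx_iff_getElem?]
        unfold shp
        rw [List.getD_eq_getElem _ _ hlt, List.getElem?_eq_getElem hlt]
      · cases h4 : scRun τ (ownToks (shp k1)) with
        | none => rw [h4] at h; exact absurd h Bool.false_ne_true
        | some ρ => rfl

namespace SMap

variable {F : Type*} (T : SMap F)

/-- The label of `e` in the frame of `d`. -/
def rlb (d e : F) : Lb := relLb (T.frm d) (T.S e).1

theorem rlb_mem (d e : F) : T.rlb d e ∈ allLab := rotL_mem_allLab _ _ (T.lab_mem e)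

theorem okL_rlb (d e : F) : okL (T.rlb d e) = true := okL_of_mem _ (T.rlb_mem d e)

/-- The frames of two strip ends. -/
theorem frm_eq (d e : F) : T.frm e = nrm (T.rlb d e) * T.frm d :=
  (nrm_mul (T.okL_S d) (T.okL_S e)).symm

theorem rlb_self (d : F) : T.rlb d d = (1, 3) := T.shape_fst d

/-- Composition of frames. -/
theorem rlb_trans (d e f : F) : T.rlb d f = mulL (T.rlb d e) (T.rlb e f) := by
  have h : T.rlb e f = rotL (T.rlb d e) (T.rlb d f) := by
    show relLb (T.frm e) _ = _
    rw [T.frm_eq d e, relLb_mul]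
    rfl
  rw [h, mulL_rotL]

theorem rlb_symm (d e : F) : T.rlb e d = invL (T.rlb d e) := by
  have h := T.rlb_trans e d e
  rw [rlb_self] at h
  have h2 : rotL (T.rlb e d) (1, 3) = T.rlb d e := by rw [h, rotL_mulL]
  have h3 : ∀ p ∈ allLab, invL (rotL p (1, 3)) = p := by decide +kernel
  rw [← h2]
  exact (h3 _ (T.rlb_mem e d)).symm

/-- The index of the label of `e` in the frame of `d`. -/
def lx (d e : F) : ℕ := lc (T.rlb d e)

theorem lx_lt (d e : F) : T.lx d e < 24 := lc_lt _ (T.rlb_mem d e)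

theorem lbl_lx (d e : F) : lbl (T.lx d e) = T.rlb d e := lbl_lc _ (T.rlb_mem d e)

/-- The option of a strip end: the corner after it and the next strip. -/
def oc (d : F) : ℕ := ocode (kc (T.K (T.N d))) (T.lx d (T.N d)) (T.kx (T.N d))

theorem relS_frm (d e : F) : relS (T.frm e) (T.S d) = relS (nrm (T.rlb d e)) (T.shape d) := by
  rw [T.frm_eq d e, relS_mul]
  rfl

theorem oc_mem_gen (d : F) : T.oc d ∈ genOpt (T.kx d) := by
  refine mem_genOpt (T.rlb_mem d (T.N d)) (T.kx_lt _) (by rw [shp_kx]; exact T.shape_fst _) ?_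
  have h := T.winS_cw (T.isLabAut_frm (T.N d)) d (j := 1) (by have := T.three d; omega)
  rw [relS_frm, ← shp_kx] at h
  have h2 : relL (T.frm (T.N d)) (T.cw d 1) = [(T.K (T.N d), shp (T.kx (T.N d)))] := by
    rw [shp_kx]
    rfl
  rw [h2] at h
  exact h

theorem oc_κ (d : F) : T.oc d % 3 = kc (T.K (T.N d)) := ocode_κ (kc_lt _)

theorem oc_q (d : F) : T.oc d / 3 % 24 = T.lx d (T.N d) := ocode_q (kc_lt _) (T.lx_lt _ _)

theorem oc_k (d : F) : T.oc d / 72 = T.kx (T.N d) := ocode_k (kc_lt _) (T.lx_lt _ _)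

end SMap

end Pool.Agent.Lib.MP_5854e1_co
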