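import Pool.Agent.Lib.MP_5854e1_co.FastScan
import Pool.Agent.Lib.MP_5854e1_co.OptSound
import Pool.Agent.Lib.MP_5854e1_co.TriTab

/-!
# The automaton of the scanner

A node of the automaton is a state of the scanner in the frame of its last dart. The nodes form a
finite acyclic graph; every node is a term of type `Nd`.
-/

set_option autoImplicit false

open Equiv Equiv.Perm

namespace Pool.Agent.Lib.MP_5854e1_co

open Model24 (Kind)

/-! ### Relabelled states of the scanner -/

/-- The relabelled mask. -/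
def relM (g : Perm (Fin 7)) (m : ℕ) : ℕ :=
  msk (((List.finRange 7).filter fun x => m.testBit x.val).map g)

theorem relM_lt (g : Perm (Fin 7)) (m : ℕ) : relM g m < 128 := msk_lt _

theorem testBit_relM (g : Perm (Fin 7)) (m : ℕ) (x : Fin 7) :
    (relM g m).testBit (g x).val = m.testBit x.val := by
  rw [relM, testBit_msk]
  have h : g x ∈ ((List.finRange 7).filter fun x => m.testBit x.val).map g ↔
      m.testBit x.val = true := by
    rw [List.mem_map]
    constructor
    · rintro ⟨y, hy, e⟩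
      rw [← g.injective e]
      simpa using hy
    · intro h
      exact ⟨x, by simpa using h, rfl⟩
  cases h1 : m.testBit x.val with
  | true => exact decide_eq_true (h.2 h1)
  | false => exact decide_eq_false fun h2 => by rw [h.1 h2] at h1; exact absurd h1 (by decide)

theorem testBit_pow_val (x y : Fin 7) : (2 ^ x.val).testBit y.val = decide (x = y) := by
  rw [testBit_two_pow']
  by_cases h : x = y
  · subst h; simp
  · rw [decide_eq_false h, decide_eq_false fun e => h (Fin.ext e)]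

theorem relM_or_pow (g : Perm (Fin 7)) (m : ℕ) (x : Fin 7) :
    relM g (m ||| 2 ^ x.val) = relM g m ||| 2 ^ (g x).val := by
  conv_lhs => unfold relM
  refine msk_eq (lor_lt (relM_lt g m) (pow_lt' _)) fun y => ?_
  obtain ⟨z, rfl⟩ := g.surjective y
  have h := testBit_relM g (m ||| 2 ^ x.val) z
  unfold relM at h
  rw [testBit_msk] at h
  rw [h, Nat.testBit_or, Nat.testBit_or, testBit_relM, testBit_pow_val, testBit_pow_val]
  simp

theorem relM_pow (g : Perm (Fin 7)) (x : Fin 7) : relM g (2 ^ x.val) = 2 ^ (g x).val := by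
  have h := relM_or_pow g 0 x
  have h0 : relM g 0 = 0 := by
    unfold relM
    simp [msk]
  rw [h0, Nat.zero_or, Nat.zero_or] at h
  exact h

theorem relM_lor (g : Perm (Fin 7)) (m m' : ℕ) : relM g (m ||| m') = relM g m ||| relM g m' := by
  conv_lhs => unfold relM
  refine msk_eq (lor_lt (relM_lt g m) (relM_lt g m')) fun y => ?_
  obtain ⟨z, rfl⟩ := g.surjective y
  have h := testBit_relM g (m ||| m') z
  unfold relM at h
  rw [testBit_msk] at h
  rw [h, Nat.testBit_or, Nat.testBit_or, testBit_relM, testBit_relM]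

theorem relM_mul (g h : Perm (Fin 7)) (m : ℕ) : relM (g * h) m = relM g (relM h m) := by
  conv_lhs => unfold relM
  refine msk_eq (relM_lt _ _) fun y => ?_
  obtain ⟨z, rfl⟩ := (g * h).surjective y
  have h1 := testBit_relM (g * h) m z
  unfold relM at h1
  rw [testBit_msk] at h1
  rw [h1, Perm.mul_apply, testBit_relM, testBit_relM]

/-- The relabelled state. -/
def relSc (g : Perm (Fin 7)) (σ : Sc) : Sc where
  x0 := g σ.x0
  m0 := relM g σ.m0
  ph := σ.ph
  vis := relM g σ.vis
  cur := g σ.cur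
  nb := relM g σ.nb

theorem relSc_mul (g h : Perm (Fin 7)) (σ : Sc) : relSc (g * h) σ = relSc g (relSc h σ) := by
  unfold relSc
  simp [relM_mul]

theorem bdd_relSc (g : Perm (Fin 7)) {σ : Sc} (h : σ.Bdd) : (relSc g σ).Bdd :=
  ⟨relM_lt _ _, h.ph, relM_lt _ _, relM_lt _ _⟩

theorem relSc_scInit (g : Perm (Fin 7)) (p : Lb) : relSc g (scInit p) = scInit (relLb g p) := by
  unfold relSc scInit relLb
  simp only [relM_pow]

theorem adjL_nrm : ∀ (p : Lb) (x y : Fin 7), adjL (nrm p x) (nrm p y) = adjL x y := by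
  decide +kernel

theorem nbm_nrm : ∀ (p : Lb) (x : Fin 7), relM (nrm p) (nbm x) = nbm (nrm p x) := by
  decide +kernel

theorem relM_126 : ∀ p : Lb, relM (nrm p) 126 = 126 := by
  decide +kernel

theorem nrm_eq_zero {p : Lb} {x : Fin 7} : nrm p x = 0 ↔ x = 0 := by
  constructor
  · intro h
    by_contra h1
    exact (isLabAut_nrm p).ne_zero h1 h
  · rintro rfl
    exact (isLabAut_nrm p).zero

theorem scEnter_rel {p : Lb} {σ : Sc} {x : Fin 7} {q : ℕ} (h : scEnter σ x = some q) :
    scEnter (relSc (nrm p) σ) (nrm p x) = some q := by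
  unfold scEnter at h ⊢
  show (if σ.ph = 2 then none
    else if relM (nrm p) σ.vis = 126 then (if nrm p x = nrm p σ.x0 then some 2 else none)
    else if nrm p x ≠ 0 ∧ (relM (nrm p) σ.vis).testBit (nrm p x).val = false then some 1
    else none) = some q
  have hv : relM (nrm p) σ.vis = 126 → (nrm p x ≠ 0 → σ.vis.testBit x.val = true) := by
    intro h1 h2
    rw [← testBit_relM (nrm p), h1]
    revert h2
    generalize nrm p x = y
    revert y
    decide
  rw [testBit_relM]
  split_ifs at h with h1 h2 h3 h4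
  · rw [if_neg h1, if_pos (by rw [h2]; exact relM_126 p), if_pos (by rw [h3])]
    exact h
  · have h5 : ¬ relM (nrm p) σ.vis = 126 := by
      intro h5
      have h6 := hv h5 fun e => h4.1 (nrm_eq_zero.1 e)
      rw [h4.2] at h6
      exact absurd h6 (by decide)
    rw [if_neg h1, if_neg h5, if_pos ⟨fun e => h4.1 (nrm_eq_zero.1 e), h4.2⟩]
    exact h

theorem scP_rel {p : Lb} {σ τ : Sc} {q : Lb} (h : scP σ q = some τ) :
    scP (relSc (nrm p) σ) (relLb (nrm p) q) = some (relSc (nrm p) τ) := by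
  unfold scP at h
  show (if nrm p q.1 = nrm p σ.cur ∧ adjL (nrm p σ.cur) (nrm p q.2) = true ∧
      (relM (nrm p) σ.nb).testBit (nrm p q.2).val = false ∧
      (σ.ph = 2 → (relM (nrm p) σ.m0).testBit (nrm p q.2).val = false) then
    some (Sc.mk (nrm p σ.x0)
      (if σ.ph = 0 then relM (nrm p) σ.m0 ||| 2 ^ (nrm p q.2).val else relM (nrm p) σ.m0) σ.ph
      (relM (nrm p) σ.vis) (nrm p σ.cur) (relM (nrm p) σ.nb ||| 2 ^ (nrm p q.2).val))
    else none) = _
  by_cases h1 : q.1 = σ.cur ∧ adjL σ.cur q.2 = true ∧ σ.nb.testBit q.2.val = false ∧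
      (σ.ph = 2 → σ.m0.testBit q.2.val = false)
  · rw [if_pos h1] at h
    obtain rfl := Option.some.inj h
    obtain ⟨h3, h4, h5, h6⟩ := h1
    rw [if_pos ⟨congrArg (nrm p) h3, (adjL_nrm p _ _).trans h4, (testBit_relM _ _ _).trans h5,
      fun h7 => (testBit_relM _ _ _).trans (h6 h7)⟩]
    unfold relSc
    by_cases h2 : σ.ph = 0
    · simp only [if_pos h2, relM_or_pow]
    · simp only [if_neg h2, relM_or_pow]
  · rw [if_neg h1] at h
    exact absurd h (by simp)

theorem scS_rel {p : Lb} {σ τ : Sc} {q : Lb} (h : scS σ q = some τ) :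
    scS (relSc (nrm p) σ) (relLb (nrm p) q) = some (relSc (nrm p) τ) := by
  unfold scS at h ⊢
  cases h0 : scEnter σ q.1 with
  | none => rw [h0] at h; exact absurd h (by simp)
  | some e =>
    rw [h0] at h
    have h0' : scEnter (relSc (nrm p) σ) (relLb (nrm p) q).1 = some e := scEnter_rel h0
    rw [h0']
    simp only at h ⊢
    split_ifs at h with h1
    obtain rfl := Option.some.inj h
    obtain ⟨h2, h3, h4⟩ := h1
    rw [if_pos]
    · congr 1
      unfold relSc
      simp only [relM_or_pow, relM_pow]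
      rfl
    · refine ⟨fun h5 => ?_, (adjL_nrm p _ _).trans h3, fun h5 => (testBit_relM _ _ _).trans (h4 h5)⟩
      show relM (nrm p) σ.nb = nbm (nrm p σ.cur)
      rw [h2 h5, nbm_nrm]

theorem scE_rel {p : Lb} {σ τ : Sc} {q : Lb} (h : scE σ q = some τ) :
    scE (relSc (nrm p) σ) (relLb (nrm p) q) = some (relSc (nrm p) τ) := by
  unfold scE at h ⊢
  cases h0 : scEnter σ q.1 with
  | none => rw [h0] at h; exact absurd h (by simp)
  | some e =>
    rw [h0] at h
    have h0' : scEnter (relSc (nrm p) σ) (relLb (nrm p) q).1 = some e := scEnter_rel h0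
    rw [h0']
    simp only at h ⊢
    have key : (adjL σ.cur q.1 = true ∧ σ.nb.testBit q.1.val = false ∧
        (σ.ph = 1 → σ.nb ||| 2 ^ q.1.val = nbm σ.cur) ∧ adjL q.1 q.2 = true ∧ q.2 ≠ σ.cur ∧
        (e = 2 → σ.m0.testBit q.2.val = false ∧ σ.m0.testBit σ.cur.val = false)) →
        (adjL (nrm p σ.cur) (nrm p q.1) = true ∧
          (relM (nrm p) σ.nb).testBit (nrm p q.1).val = false ∧
          (σ.ph = 1 → relM (nrm p) σ.nb ||| 2 ^ (nrm p q.1).val = nbm (nrm p σ.cur)) ∧
          adjL (nrm p q.1) (nrm p q.2) = true ∧ nrm p q.2 ≠ nrm p σ.cur ∧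
          (e = 2 → (relM (nrm p) σ.m0).testBit (nrm p q.2).val = false ∧
            (relM (nrm p) σ.m0).testBit (nrm p σ.cur).val = false)) := by
      rintro ⟨h1, h2, h3, h4, h5, h6⟩
      refine ⟨(adjL_nrm p _ _).trans h1, (testBit_relM _ _ _).trans h2, fun h7 => ?_,
        (adjL_nrm p _ _).trans h4, fun h7 => h5 ((nrm p).injective h7), fun h7 => ?_⟩
      · rw [← relM_or_pow, h3 h7, nbm_nrm]
      · rw [testBit_relM, testBit_relM]
        exact h6 h7
    by_cases h1 : (adjL σ.cur q.1 = true ∧ σ.nb.testBit q.1.val = false ∧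
        (σ.ph = 1 → σ.nb ||| 2 ^ q.1.val = nbm σ.cur) ∧ adjL q.1 q.2 = true ∧ q.2 ≠ σ.cur ∧
        (e = 2 → σ.m0.testBit q.2.val = false ∧ σ.m0.testBit σ.cur.val = false))
    · rw [if_pos h1] at h
      obtain rfl := Option.some.inj h
      refine (if_pos (key h1)).trans ?_
      unfold relSc relLb
      by_cases h2 : σ.ph = 0
      · simp only [if_pos h2, relM_or_pow, relM_pow]
      · simp only [if_neg h2, relM_or_pow, relM_pow]
    · rw [if_neg h1] at h
      exact absurd h (by simp)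

/-- **Relabelling commutes with the scanner.** -/
theorem scStep_rel {p : Lb} {σ τ : Sc} {κ : Kind} {q : Lb} (h : scStep σ κ q = some τ) :
    scStep (relSc (nrm p) σ) κ (relLb (nrm p) q) = some (relSc (nrm p) τ) := by
  cases κ with
  | P => exact scP_rel h
  | E => exact scE_rel h
  | S => exact scS_rel h

theorem scClose_rel {p : Lb} {σ : Sc} {κ : Kind} (h : scClose σ κ = true) :
    scClose (relSc (nrm p) σ) κ = true := by
  cases κ with
  | P =>
    have h1 : σ.ph = 2 ∧ σ.nb ||| σ.m0 = nbm σ.x0 := of_decide_eq_true h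
    refine decide_eq_true (p := σ.ph = 2 ∧ relM (nrm p) σ.nb ||| relM (nrm p) σ.m0 =
      nbm (nrm p σ.x0)) ⟨h1.1, ?_⟩
    rw [← relM_lor, h1.2, nbm_nrm]
  | S =>
    have h1 : σ.ph = 1 ∧ σ.vis = 126 ∧ σ.nb = nbm σ.cur ∧ σ.m0 = nbm σ.x0 := of_decide_eq_true h
    refine decide_eq_true (p := σ.ph = 1 ∧ relM (nrm p) σ.vis = 126 ∧ relM (nrm p) σ.nb =
      nbm (nrm p σ.cur) ∧ relM (nrm p) σ.m0 = nbm (nrm p σ.x0)) ⟨h1.1, ?_, ?_, ?_⟩
    · rw [h1.2.1, relM_126]
    · rw [h1.2.2.1, nbm_nrm]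
    · rw [h1.2.2.2, nbm_nrm]
  | E =>
    have h1 : σ.ph = 1 ∧ σ.vis = 126 ∧ adjL σ.cur σ.x0 = true ∧
      σ.nb.testBit σ.x0.val = false ∧ σ.nb ||| 2 ^ σ.x0.val = nbm σ.cur ∧
      σ.m0.testBit σ.cur.val = false ∧ σ.m0 ||| 2 ^ σ.cur.val = nbm σ.x0 := of_decide_eq_true h
    refine decide_eq_true (p := σ.ph = 1 ∧ relM (nrm p) σ.vis = 126 ∧
      adjL (nrm p σ.cur) (nrm p σ.x0) = true ∧
      (relM (nrm p) σ.nb).testBit (nrm p σ.x0).val = false ∧
      relM (nrm p) σ.nb ||| 2 ^ (nrm p σ.x0).val = nbm (nrm p σ.cur) ∧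
      (relM (nrm p) σ.m0).testBit (nrm p σ.cur).val = false ∧
      relM (nrm p) σ.m0 ||| 2 ^ (nrm p σ.cur).val = nbm (nrm p σ.x0)) ⟨h1.1, ?_, ?_, ?_, ?_, ?_, ?_⟩
    · rw [h1.2.1, relM_126]
    · rw [adjL_nrm]; exact h1.2.2.1
    · rw [testBit_relM]; exact h1.2.2.2.1
    · rw [← relM_or_pow, h1.2.2.2.2.1, nbm_nrm]
    · rw [testBit_relM]; exact h1.2.2.2.2.2.1
    · rw [← relM_or_pow, h1.2.2.2.2.2.2, nbm_nrm]

end Pool.Agent.Lib.MP_5854e1_co
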