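import Pool.Agent.Lib.MP_5854e1_co.MnrE
import Pool.Agent.Lib.MP_5854e1_co.Disc
import Pool.Agent.Lib.MP_5854e1_co.Crc.KMain
import Pool.Agent.Lib.MP_5854e1_co.D3F1

/-!
# Excluded minors for connected graphs with finite planar covers
-/

set_option autoImplicit false

namespace Pool.Agent.Lib.MP_5854e1_co

/-- The thirty-five minor-minimal nonprojective graphs (Archdeacon). -/
def excluded : List (Σ k : ℕ, SimpleGraph (Fin k)) :=
  [⟨7, K1222⟩, ⟨8, B7⟩, ⟨9, C3⟩, ⟨9, C4⟩, ⟨10, D2⟩, ⟨11, MG11⟩,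
   ⟨8, MG17⟩, ⟨8, MG18⟩, ⟨9, MG27⟩,
   ⟨8, MG20⟩, ⟨8, MG22⟩, ⟨8, MG23⟩, ⟨9, MG25⟩, ⟨9, MG29⟩, ⟨9, MG31⟩, ⟨9, MG32⟩, ⟨9, MG33⟩,
   ⟨10, MG0⟩, ⟨10, MG1⟩, ⟨10, MG3⟩, ⟨10, MG4⟩, ⟨10, MG6⟩, ⟨10, MG7⟩, ⟨10, MG8⟩, ⟨10, MG9⟩,
   ⟨9, MG34⟩, ⟨10, MG5⟩, ⟨11, MG12⟩, ⟨9, K45m4⟩, ⟨7, K7C4⟩, ⟨8, D3⟩, ⟨9, F1⟩,
   ⟨10, K5K5⟩, ⟨11, K5K33⟩, ⟨12, K33K33⟩]

theorem noMinor_of_noCover {U U' : Type*} [Finite U] {G : SimpleGraph U} {M : SimpleGraph U'}
    (h : HasPlanarCover G) (hM : ¬ HasPlanarCover M) : ¬ IsMinor M G := fun h' => hM (h.minor h')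

/-- If `K_{1,2,2,2}` has no finite planar cover then a connected graph with a finite planar cover has
none of the graphs in the list as a minor. -/
theorem noMinor_excluded (hK : ¬ HasPlanarCover K1222) {U : Type*} [Finite U]
    {G : SimpleGraph U} (hG : G.Connected) (h : HasPlanarCover G) :
    ∀ p ∈ excluded, ¬ IsMinor p.2 G := by
  have H : ∀ {k : ℕ} {M : SimpleGraph (Fin k)}, ¬ HasPlanarCover M → ¬ IsMinor M G :=
    fun hM => noMinor_of_noCover h hM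
  unfold excluded
  rw [List.forall_mem_cons]; refine ⟨H hK, ?_⟩
  rw [List.forall_mem_cons]; refine ⟨H (B7_noCover hK), ?_⟩
  rw [List.forall_mem_cons]; refine ⟨H C3_noCover, ?_⟩
  rw [List.forall_mem_cons]; refine ⟨H (C4_noCover hK), ?_⟩
  rw [List.forall_mem_cons]; refine ⟨H D2_noCover, ?_⟩
  rw [List.forall_mem_cons]; refine ⟨H MG11_noCover, ?_⟩
  rw [List.forall_mem_cons]; refine ⟨H MG17_noCover, ?_⟩
  rw [List.forall_mem_cons]; refine ⟨H MG18_noCover, ?_⟩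
  rw [List.forall_mem_cons]; refine ⟨H MG27_noCover, ?_⟩
  rw [List.forall_mem_cons]; refine ⟨H MG20_noCover, ?_⟩
  rw [List.forall_mem_cons]; refine ⟨H MG22_noCover, ?_⟩
  rw [List.forall_mem_cons]; refine ⟨H MG23_noCover, ?_⟩
  rw [List.forall_mem_cons]; refine ⟨H MG25_noCover, ?_⟩
  rw [List.forall_mem_cons]; refine ⟨H MG29_noCover, ?_⟩
  rw [List.forall_mem_cons]; refine ⟨H MG31_noCover, ?_⟩
  rw [List.forall_mem_cons]; refine ⟨H MG32_noCover, ?_⟩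
  rw [List.forall_mem_cons]; refine ⟨H MG33_noCover, ?_⟩
  rw [List.forall_mem_cons]; refine ⟨H MG0_noCover, ?_⟩
  rw [List.forall_mem_cons]; refine ⟨H MG1_noCover, ?_⟩
  rw [List.forall_mem_cons]; refine ⟨H MG3_noCover, ?_⟩
  rw [List.forall_mem_cons]; refine ⟨H MG4_noCover, ?_⟩
  rw [List.forall_mem_cons]; refine ⟨H MG6_noCover, ?_⟩
  rw [List.forall_mem_cons]; refine ⟨H MG7_noCover, ?_⟩
  rw [List.forall_mem_cons]; refine ⟨H MG8_noCover, ?_⟩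
  rw [List.forall_mem_cons]; refine ⟨H MG9_noCover, ?_⟩
  rw [List.forall_mem_cons]; refine ⟨H MG34_noCover, ?_⟩
  rw [List.forall_mem_cons]; refine ⟨H MG5_noCover, ?_⟩
  rw [List.forall_mem_cons]; refine ⟨H MG12_noCover, ?_⟩
  rw [List.forall_mem_cons]; refine ⟨H K45m4_noCover, ?_⟩
  rw [List.forall_mem_cons]; refine ⟨H K7C4_noPlanarCover, ?_⟩
  rw [List.forall_mem_cons]; refine ⟨H D3_noCover, ?_⟩
  rw [List.forall_mem_cons]; refine ⟨H F1_noCover, ?_⟩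
  rw [List.forall_mem_cons]; refine ⟨K5K5_noMinor hG h, ?_⟩
  rw [List.forall_mem_cons]; refine ⟨K5K33_noMinor hG h, ?_⟩
  rw [List.forall_mem_cons]; refine ⟨K33K33_noMinor hG h, ?_⟩
  exact fun p hp => absurd hp List.not_mem_nil

/-- From covers in the sense of `IsCover` to `HasPlanarCover`. -/
theorem K1222_noCover_of (h : ∀ (n : ℕ) (H : SimpleGraph (Fin n)) (φ : Fin n → Fin 7), 0 < n →
    IsCover H K1222 φ → ¬ IsPlanar H) : ¬ HasPlanarCover K1222 := by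
  rintro ⟨n, H, φ, hs, hφ, hpl⟩
  obtain ⟨w, -⟩ := hs 0
  exact h n H φ (Nat.pos_of_ne_zero (by rintro rfl; exact w.elim0)) hφ hpl

end Pool.Agent.Lib.MP_5854e1_co
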