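import Pool.Agent.Lib.MP_5854e1_co.ToSMap

/-!
# Local rules for the weights of the corners of the faces
-/

set_option autoImplicit false

open Equiv Equiv.Perm

namespace Pool.Agent.Lib.MP_5854e1_co

namespace SMap

variable {F : Type*} (T : SMap F)

/-- The length of the face. -/
noncomputable def flen (d : F) : ℕ := Function.minimalPeriod T.face d

theorem flen_pos [Finite F] (d : F) : 0 < T.flen d := minimalPeriod_pos' T.face d

theorem three_le_flen [Finite F] (d : F) : 3 ≤ T.flen d := by
  have h0 := T.flen_pos d
  have h1 : T.face^[T.flen d] d = d := Function.isPeriodicPt_minimalPeriod T.face d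
  by_contra hlt
  push Not at hlt
  have h2 : T.flen d = 1 ∨ T.flen d = 2 := by omega
  rcases h2 with h2 | h2 <;> rw [h2] at h1
  · exact T.face_ne d h1
  · exact T.face_face_ne d h1

theorem flen_eq_of_iterate [Finite F] {d : F} {m : ℕ} (hm : 3 ≤ m) (hm' : m ≤ 5)
    (h : T.face^[m] d = d) : T.flen d = m := by
  have h3 := T.three_le_flen d
  have h4 : T.flen d ∣ m := Function.IsPeriodicPt.minimalPeriod_dvd h
  have h5 := Nat.le_of_dvd (by omega) h4
  interval_cases m <;> interval_cases h6 : T.flen d <;> omega

theorem flen_face (d : F) [Finite F] : T.flen (T.face d) = T.flen d :=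
  (sameCycle_minimalPeriod T.face ⟨1, by simp⟩).symm

theorem flen_face_iterate (d : F) [Finite F] (i : ℕ) : T.flen (T.face^[i] d) = T.flen d := by
  induction i with
  | zero => rfl
  | succ i ih => rw [Function.iterate_succ_apply', flen_face, ih]

/-- **Weights of the corners of the faces.** The weight `κ` sums to at least one on the faces with
three, four or five corners and is at least one sixth on the others; `Γ` is arbitrary. -/
theorem one_le_face_sum [Finite F] (κ Γ : F → ℚ)
    (h3 : ∀ d, T.face^[3] d = d → 1 ≤ κ d + κ (T.face d) + κ (T.face^[2] d))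
    (h4 : ∀ d, T.face^[4] d = d →
      1 ≤ κ d + κ (T.face d) + κ (T.face^[2] d) + κ (T.face^[3] d))
    (h5 : ∀ d, T.face^[5] d = d →
      1 ≤ κ d + κ (T.face d) + κ (T.face^[2] d) + κ (T.face^[3] d) + κ (T.face^[4] d))
    (h6 : ∀ d, 6 ≤ T.flen d → 1 / 6 ≤ κ d) (d : F) :
    1 ≤ ∑ i ∈ Finset.range (Function.minimalPeriod T.face d),
      (κ (T.face^[i] d) + (Γ (T.face^[i] d) - Γ (T.face (T.face^[i] d)))) := by
  have hp : T.face^[T.flen d] d = d := Function.isPeriodicPt_minimalPeriod T.face d
  have htel : ∑ i ∈ Finset.range (T.flen d),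
      (Γ (T.face^[i] d) - Γ (T.face (T.face^[i] d))) = 0 := by
    have h1 : ∀ n, ∑ i ∈ Finset.range n, (Γ (T.face^[i] d) - Γ (T.face (T.face^[i] d))) =
        Γ d - Γ (T.face^[n] d) := by
      intro n
      induction n with
      | zero => simp
      | succ n ih =>
        rw [Finset.sum_range_succ, ih, Function.iterate_succ_apply']
        ring
    rw [h1, hp]
    ring
  show 1 ≤ ∑ i ∈ Finset.range (T.flen d), _
  rw [Finset.sum_add_distrib, htel, add_zero]
  have h0 := T.three_le_flen d
  rcases lt_or_ge (T.flen d) 6 with hlt | hge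
  · have hc : T.flen d = 3 ∨ T.flen d = 4 ∨ T.flen d = 5 := by omega
    rcases hc with hc | hc | hc
    · rw [hc] at hp ⊢
      have := h3 d hp
      simp only [Finset.sum_range_succ, Finset.sum_range_zero, zero_add]
      exact this
    · rw [hc] at hp ⊢
      have := h4 d hp
      simp only [Finset.sum_range_succ, Finset.sum_range_zero, zero_add]
      exact this
    · rw [hc] at hp ⊢
      have := h5 d hp
      simp only [Finset.sum_range_succ, Finset.sum_range_zero, zero_add]
      exact this
  · calc (1 : ℚ) ≤ ∑ _i ∈ Finset.range (T.flen d), (1 / 6 : ℚ) := by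
          rw [Finset.sum_const, Finset.card_range, nsmul_eq_mul]
          have : (6 : ℚ) ≤ T.flen d := by exact_mod_cast hge
          linarith
      _ ≤ _ := Finset.sum_le_sum fun i _ => h6 _ (by rw [flen_face_iterate]; exact hge)

end SMap

end Pool.Agent.Lib.MP_5854e1_co
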