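import Pool.Agent.Lib.MP_5854e1_co.Reduce

/-!
# Fans

The token of the face on the other side of a strip, and the sum of the corrections over a triangle.
-/

set_option autoImplicit false

open Equiv Equiv.Perm

namespace Pool.Agent.Lib.MP_5854e1_co

open Model24 (Kind)

/-- The token of a corner after a strip of shape `k`: zero for a face which is not a triangle. -/
def xrT (tr : ℕ → ℕ → ℕ) (k s : ℕ) : ℕ :=
  rIf (Nat.ble (nat_lit 7936) s) (nat_lit 0) (Nat.succ (tr k s))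

/-- The two token tables belong together. -/
def tokChk (tr tl : ℕ → ℕ → ℕ) (k : ℕ) : Bool :=
  rAll (fun x => rAllN (fun i =>
    Nat.beq (tl k (Nat.add (triOff k (Nat.mod x (nat_lit 512))) i))
      (tr (Nat.div x (nat_lit 16384)) (rjA k (Nat.add (triOff k (Nat.mod x (nat_lit 512))) i))))
    (Nat.sub (triOff k (Nat.succ (Nat.mod x (nat_lit 512)))) (triOff k (Nat.mod x (nat_lit 512)))))
    (fl k)

namespace SMap

variable {F : Type*} (T : SMap F)

/-! ### Rotation of a triangle -/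

theorem rot_k (a : F) :
    T.kx (T.I (T.N a)) = Nat.div (flA (T.kx a) (T.ox a)) (nat_lit 16384) := by
  rw [T.flA_ox, T.ex_kx']

theorem rot_o {a : F} (h : T.Tri a) :
    T.ox (T.I (T.N a)) = Nat.mod (triA (T.kx a) (T.jx a)) (nat_lit 512) := (T.triA_jx_mod h).symm

theorem rot_j {a : F} (h : T.Tri a) : T.jx (T.I (T.N a)) = rjA (T.kx a) (T.jx a) :=
  (T.rjA_jx h).symm

theorem tri_rot {a : F} (h : T.Tri a) : T.Tri (T.I (T.N a)) := (T.tri_I_N a).2 h

/-- Three rotations. -/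
theorem rot_three {a : F} (h : T.Tri a) : T.I (T.N (T.I (T.N (T.I (T.N a))))) = a := by
  rw [T.N_third h, I_I]

/-! ### Tokens -/

section tokens

variable (tr tl : ℕ → ℕ → ℕ)

/-- The token of the face after `e`. -/
noncomputable def X (e : F) : ℕ := xrT tr (T.kx e) (T.rs e)

theorem X_tri {e : F} (h : T.Tri e) : T.X tr e = tr (T.kx e) (T.jx e) + 1 := by
  unfold X xrT
  rw [T.ble_rs_tri h, rIf_false, T.rs_tri h]

theorem X_big {e : F} (h : ¬T.Tri e) : T.X tr e = 0 := by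
  unfold X xrT
  rw [T.ble_rs_big h, rIf_true]

variable {tr tl}

theorem tl_eq (h : rAllN (tokChk tr tl) 101 = true) {d : F} (hd : T.Tri d) :
    tl (T.kx d) (T.jx d) = tr (T.kx (T.I (T.N d))) (T.jx (T.I (T.N d))) := by
  have h1 := rAll_iff.1 (rAllN_iff.1 h _ (T.kx_lt d)) _ (T.ex_mem d)
  have e0 : Nat.mod (T.ex d) (nat_lit 512) = T.ox d := T.ex_ox d
  rw [e0, T.ex_kx'] at h1
  obtain ⟨h2, -⟩ := T.tri_px hd
  have h3 := rAllN_iff.1 h1 (T.px d) (by
    show T.px d < triOff (T.kx d) (T.ox d + 1) - triOff (T.kx d) (T.ox d)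
    rw [← length_tri]
    exact h2)
  have e1 : Nat.add (triOff (T.kx d) (T.ox d)) (T.px d) = T.jx d := rfl
  rw [e1, T.rjA_jx hd] at h3
  exact Nat.eq_of_beq_eq_true h3

/-- **The token of the face before a strip, in own data.** -/
theorem X_I_N (h : rAllN (tokChk tr tl) 101 = true) (d : F) :
    T.X tr (T.I (T.N d)) = xrT tl (T.kx d) (T.rs d) := by
  by_cases hd : T.Tri d
  · rw [T.X_tri tr ((T.tri_I_N d).2 hd), ← T.tl_eq h hd]
    unfold xrT
    rw [T.ble_rs_tri hd, rIf_false, T.rs_tri hd]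
  · rw [T.X_big tr (fun h2 => hd ((T.tri_I_N d).1 h2))]
    unfold xrT
    rw [T.ble_rs_big hd, rIf_true]

end tokens

/-! ### The corrections -/

section corr

variable (tr : ℕ → ℕ → ℕ) (Yt : ℕ → ℕ → ℕ → ℕ → ℕ → ℕ)

/-- The correction of the corner after `a`: it depends on the corner and the tokens of the faces on
the other sides of the two strips. -/
noncomputable def Y (a : F) : ℕ :=
  Yt (T.kx a) (T.ox a) (T.rs a) (T.X tr (T.I a)) (T.X tr (T.N a))

/-- The first corner of a triangle has a sum with its successors. -/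
def TriGood (off : ℕ) (k o j x3 x1 : ℕ) (Al : ℕ → ℕ → ℕ → ℕ → Bool) : Prop :=
  ∀ x2, Al (Nat.div (flA k o) (nat_lit 16384)) (Nat.mod (triA k j) (nat_lit 512)) (rjA k j) x2 =
      true →
    3 * off ≤ Yt k o j x3 x1 +
      Yt (Nat.div (flA k o) (nat_lit 16384)) (Nat.mod (triA k j) (nat_lit 512)) (rjA k j) x1 x2 +
      Yt (farK k o j) (t3A k j) (rjA (Nat.div (flA k o) (nat_lit 16384)) (rjA k j)) x2 x3

variable {tr Yt}

/-- **The sum of the corrections over a triangle.** `Al k o s x` says that the token `x` is allowed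
after the corner `(k, o, s)`. -/
theorem tri_sum {off : ℕ} {Al : ℕ → ℕ → ℕ → ℕ → Bool}
    (hAl : ∀ a, T.Tri a → Al (T.kx a) (T.ox a) (T.jx a) (T.X tr (T.N a)) = true)
    (h : ∀ k < 101, ∀ o < optN k, ∀ j, triOff k o ≤ j → j < triOff k (o + 1) → ∀ x3 x1,
      Al k o j x1 = true → Al (farK k o j) (t3A k j)
        (rjA (Nat.div (flA k o) (nat_lit 16384)) (rjA k j)) x3 = true →
      Yt k o j x3 x1 < off → TriGood Yt off k o j x3 x1 Al) {a : F} (ha : T.Tri a) :
    3 * off ≤ T.Y tr Yt a + T.Y tr Yt (T.I (T.N a)) + T.Y tr Yt (T.I (T.N (T.I (T.N a)))) := by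
  have key : ∀ b, T.Tri b → T.Y tr Yt b < off →
      3 * off ≤ T.Y tr Yt b + T.Y tr Yt (T.I (T.N b)) + T.Y tr Yt (T.I (T.N (T.I (T.N b)))) := by
    intro b hb hlt
    have hb2 := T.tri_rot hb
    have hb3 := T.tri_rot hb2
    have e3 : T.N (T.I (T.N (T.I (T.N b)))) = T.I b := T.N_third hb
    have eo3 : T.ox (T.I (T.N (T.I (T.N b)))) = t3A (T.kx b) (T.jx b) := (T.t3A_jx hb).symm
    have ek3 : T.kx (T.I (T.N (T.I (T.N b)))) = farK (T.kx b) (T.ox b) (T.jx b) :=
      (T.farK_eq hb).symm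
    have ej3 : T.jx (T.I (T.N (T.I (T.N b)))) =
        rjA (Nat.div (flA (T.kx b) (T.ox b)) (nat_lit 16384)) (rjA (T.kx b) (T.jx b)) := by
      rw [T.rot_j hb2, T.rot_k b, T.rot_j hb]
    have hy1 : T.Y tr Yt b = Yt (T.kx b) (T.ox b) (T.jx b) (T.X tr (T.I b)) (T.X tr (T.N b)) := by
      unfold Y
      rw [T.rs_tri hb]
    have hy2 : T.Y tr Yt (T.I (T.N b)) = Yt (Nat.div (flA (T.kx b) (T.ox b)) (nat_lit 16384))
        (Nat.mod (triA (T.kx b) (T.jx b)) (nat_lit 512)) (rjA (T.kx b) (T.jx b))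
        (T.X tr (T.N b)) (T.X tr (T.N (T.I (T.N b)))) := by
      unfold Y
      rw [T.rs_tri hb2, T.rot_j hb, T.rot_o hb, T.rot_k b, I_I]
    have hy3 : T.Y tr Yt (T.I (T.N (T.I (T.N b)))) = Yt (farK (T.kx b) (T.ox b) (T.jx b))
        (t3A (T.kx b) (T.jx b))
        (rjA (Nat.div (flA (T.kx b) (T.ox b)) (nat_lit 16384)) (rjA (T.kx b) (T.jx b)))
        (T.X tr (T.N (T.I (T.N b)))) (T.X tr (T.I b)) := by
      unfold Y
      rw [T.rs_tri hb3, ej3, eo3, ek3, e3, I_I]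
    have hj := T.jx_lt hb
    have hA1 := hAl b hb
    have hA2 := hAl _ hb2
    rw [T.rot_k b, T.rot_o hb, T.rot_j hb] at hA2
    have hA3 := hAl _ hb3
    rw [ek3, eo3, ej3, e3] at hA3
    rw [hy1] at hlt
    have h1 := h _ (T.kx_lt b) _ (T.ox_lt_optN b) _ hj.2 hj.1 _ _ hA1 hA3 hlt _ hA2
    rw [hy1, hy2, hy3]
    exact h1
  rcases lt_or_ge (T.Y tr Yt a) off with h1 | h1
  · exact key a ha h1
  have ha2 := T.tri_rot ha
  have ha3 := T.tri_rot ha2
  rcases lt_or_ge (T.Y tr Yt (T.I (T.N a))) off with h2 | h2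
  · have h4 := key _ ha2 h2
    rw [T.rot_three ha] at h4
    omega
  rcases lt_or_ge (T.Y tr Yt (T.I (T.N (T.I (T.N a))))) off with h3 | h3
  · have h4 := key _ ha3 h3
    rw [T.rot_three ha] at h4
    omega
  omega

end corr

end SMap

end Pool.Agent.Lib.MP_5854e1_co
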