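import Pool.Agent.Lib.MP_5854e1_co.Rotate
import Pool.Agent.Lib.MP_5854e1_co.M2Kind

/-!
# Ring states, tokens and the compatibility at the far end of a strip

The ring state of `d` describes the corner after `d`: for a triangle the index `jx d`, for a longer
face the kinds of the two neighbouring corners of the face.
-/

set_option autoImplicit false

open Equiv Equiv.Perm

namespace Pool.Agent.Lib.MP_5854e1_co

open Model24 (Kind)

/-- The token of the corner after a strip, seen from the other end of the next strip. -/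
def lt (k o s : ℕ) : ℕ :=
  rIf (Nat.ble (nat_lit 7936) s) (Nat.add (nat_lit 7936) (Nat.add (Nat.mul (nat_lit 3)
    (Nat.div (Nat.mod s (nat_lit 256)) (nat_lit 3))) (Nat.mod (optA k o) (nat_lit 3)))) (rjA k s)

/-- The token of the corner after a strip. -/
def ft (k o s : ℕ) : ℕ :=
  rIf (Nat.ble (nat_lit 7936) s) (Nat.add (nat_lit 7936) (Nat.add (Nat.mul (nat_lit 3)
    (Nat.mod (optA k o) (nat_lit 3))) (Nat.mod (Nat.mod s (nat_lit 256)) (nat_lit 3)))) s

/-- The shape of the strip before the far end of the strip `(k, o)` for the triangle `s`. -/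
def farK (k o s : ℕ) : ℕ :=
  Nat.div (flA (Nat.div (flA k o) (nat_lit 16384)) (Nat.mod (triA k s) (nat_lit 512)))
    (nat_lit 16384)

/-- The compatibility at the far end of the strip of shape `k1` after the strip of shape `k0`: the
ring states are `s0` and `s1`, the option of the second strip is `o1`. -/
def farOK (k0 s0 k1 o1 s1 : ℕ) : Bool :=
  rIf (Nat.ble (nat_lit 7936) s1)
    (rIf (Nat.ble (nat_lit 7936) s0)
      (mB (Nat.mod (Nat.mod s1 (nat_lit 256)) (nat_lit 3)) (Nat.div (rv k1) (nat_lit 24))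
        (Nat.div (Nat.mod s0 (nat_lit 256)) (nat_lit 3)))
      (bt (mI (Nat.mod (Nat.mod s1 (nat_lit 256)) (nat_lit 3)) (Nat.div (rv k1) (nat_lit 24)))
        (Nat.mod (triA k0 s0) (nat_lit 512))))
    (rIf (Nat.ble (nat_lit 7936) s0)
      (mO (farK k1 o1 s1) (t3A k1 s1) (Nat.div (Nat.mod s0 (nat_lit 256)) (nat_lit 3)))
      (m2 (farK k1 o1 s1) (t3A k1 s1) (Nat.mod (triA k0 s0) (nat_lit 512))))

theorem triOff_le_check : rAllN (fun k => rAllN (fun o =>
    Nat.ble (triOff k (Nat.succ o)) (nat_lit 7717)) (optN k)) 101 = true := by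
  decide +kernel

theorem beq_or (a b : ℕ) : (Nat.ble a b = true ∧ a ≤ b) ∨ (Nat.ble a b = false ∧ b < a) := by
  cases h : Nat.ble a b with
  | true => exact Or.inl ⟨rfl, Nat.le_of_ble_eq_true h⟩
  | false =>
    refine Or.inr ⟨rfl, ?_⟩
    by_contra h1
    rw [Nat.ble_eq_true_of_le (not_lt.1 h1)] at h
    exact absurd h.symm Bool.false_ne_true

theorem ble_true {a b : ℕ} (h : a ≤ b) : Nat.ble a b = true := Nat.ble_eq_true_of_le h

theorem ble_false {a b : ℕ} (h : b < a) : Nat.ble a b = false := by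
  rcases beq_or a b with h1 | h1
  · omega
  · exact h1.1

namespace SMap

variable {F : Type*} (T : SMap F)

/-- The corner after `d` lies on a triangle. -/
def Tri (d : F) : Prop := T.face^[3] (T.N d) = T.N d

theorem tri_I_N (d : F) : T.Tri (T.I (T.N d)) ↔ T.Tri d := by
  unfold Tri
  have h : T.N (T.I (T.N d)) = T.face (T.N d) := rfl
  rw [h, ← Function.iterate_succ_apply, Function.iterate_succ_apply', T.face.injective.eq_iff]

theorem jx_lt_7717 {d : F} (h : T.Tri d) : T.jx d < 7717 := by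
  have h1 := (T.jx_lt h).1
  have h2 := Nat.le_of_ble_eq_true
    (rAllN_iff.1 (rAllN_iff.1 triOff_le_check _ (T.kx_lt d)) _ (T.ox_lt_optN d))
  exact lt_of_lt_of_le h1 h2

open Classical in
/-- The ring state: the corner after `d`. -/
noncomputable def rs (d : F) : ℕ :=
  if T.Tri d then T.jx d else 7936 + (3 * kc (T.K (T.face (T.N d))) + kc (T.K (T.I d)))

open Classical in
/-- The token: the corner after `d`, as far as the potential of the strip `d` uses it. -/
noncomputable def et (d : F) : ℕ :=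
  if T.Tri d then T.jx d else 7936 + (3 * kc (T.K (T.N d)) + kc (T.K (T.I d)))

theorem rs_tri {d : F} (h : T.Tri d) : T.rs d = T.jx d := if_pos h

theorem rs_big {d : F} (h : ¬T.Tri d) : T.rs d =
    7936 + (3 * kc (T.K (T.face (T.N d))) + kc (T.K (T.I d))) := if_neg h

theorem et_tri {d : F} (h : T.Tri d) : T.et d = T.jx d := if_pos h

theorem et_big {d : F} (h : ¬T.Tri d) : T.et d =
    7936 + (3 * kc (T.K (T.N d)) + kc (T.K (T.I d))) := if_neg h

theorem rs_lt_iff (d : F) : T.rs d < 7936 ↔ T.Tri d := by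
  by_cases h : T.Tri d
  · rw [T.rs_tri h]
    have := T.jx_lt_7717 h
    exact iff_of_true (by omega) h
  · rw [T.rs_big h]
    exact iff_of_false (by omega) h

theorem rs_lt (d : F) : T.rs d < 7945 := by
  by_cases h : T.Tri d
  · rw [T.rs_tri h]
    have := T.jx_lt_7717 h
    omega
  · rw [T.rs_big h]
    have := kc_lt (T.K (T.face (T.N d)))
    have := kc_lt (T.K (T.I d))
    omega

theorem ble_rs_tri {d : F} (h : T.Tri d) : Nat.ble (nat_lit 7936) (T.rs d) = false := by
  have h1 := T.jx_lt_7717 h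
  rw [T.rs_tri h]
  exact ble_false (show T.jx d < 7936 by omega)

theorem ble_rs_big {d : F} (h : ¬T.Tri d) : Nat.ble (nat_lit 7936) (T.rs d) = true := by
  rw [T.rs_big h]
  exact ble_true (Nat.le_add_right _ _)

theorem big_code {a b : ℕ} (ha : a < 3) (hb : b < 3) :
    Nat.mod (7936 + (3 * a + b)) (nat_lit 256) = 3 * a + b := by
  show (7936 + (3 * a + b)) % 256 = _
  omega

theorem code_div {a b : ℕ} (hb : b < 3) : Nat.div (3 * a + b) (nat_lit 3) = a := by
  show (3 * a + b) / 3 = a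
  omega

theorem code_mod {a b : ℕ} (hb : b < 3) : Nat.mod (3 * a + b) (nat_lit 3) = b := by
  show (3 * a + b) % 3 = b
  omega

theorem rs_big_mod {d : F} (h : ¬T.Tri d) : Nat.mod (T.rs d) (nat_lit 256) =
    3 * kc (T.K (T.face (T.N d))) + kc (T.K (T.I d)) := by
  rw [T.rs_big h]
  exact big_code (kc_lt _) (kc_lt _)

theorem rs_big_B {d : F} (h : ¬T.Tri d) :
    Nat.div (Nat.mod (T.rs d) (nat_lit 256)) (nat_lit 3) = kc (T.K (T.face (T.N d))) := by
  rw [T.rs_big_mod h]
  exact code_div (kc_lt _)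

theorem rs_big_C {d : F} (h : ¬T.Tri d) :
    Nat.mod (Nat.mod (T.rs d) (nat_lit 256)) (nat_lit 3) = kc (T.K (T.I d)) := by
  rw [T.rs_big_mod h]
  exact code_mod (kc_lt _)

theorem optA_mod3 (d : F) : Nat.mod (optA (T.kx d) (T.ox d)) (nat_lit 3) = kc (T.K (T.N d)) := by
  rw [T.optA_ox]
  exact T.oc_κ d

/-- **The token in own data.** -/
theorem et_eq (d : F) : T.et d = ft (T.kx d) (T.ox d) (T.rs d) := by
  unfold ft
  by_cases h : T.Tri d
  · rw [T.ble_rs_tri h, rIf_false, T.rs_tri h, T.et_tri h]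
  · rw [T.ble_rs_big h, rIf_true, T.rs_big_C h, T.optA_mod3, T.et_big h]
    rfl

/-- **The token at the other end of the next strip, in own data.** -/
theorem et_I_N (d : F) : T.et (T.I (T.N d)) = lt (T.kx d) (T.ox d) (T.rs d) := by
  unfold lt
  by_cases h : T.Tri d
  · rw [T.ble_rs_tri h, rIf_false, T.rs_tri h, T.et_tri ((T.tri_I_N d).2 h)]
    exact (T.rjA_jx h).symm
  · have h' : ¬T.Tri (T.I (T.N d)) := fun h2 => h ((T.tri_I_N d).1 h2)
    rw [T.ble_rs_big h, rIf_true, T.rs_big_B h, T.optA_mod3, T.et_big h', I_I]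
    rfl

theorem triA_jx_mod {d : F} (h : T.Tri d) :
    Nat.mod (triA (T.kx d) (T.jx d)) (nat_lit 512) = T.ox (T.I (T.N d)) := by
  obtain ⟨h1, h2⟩ := T.tri_px h
  have h2' : triA (T.kx d) (T.jx d) = T.tc d := h2
  have h5 := T.ox_lt (T.I (T.N d))
  rw [h2']
  show (T.ox (T.I (T.N d)) + 512 * kc (T.K (T.I d))) % 512 = _
  omega

theorem triA_jx_div {d : F} (h : T.Tri d) :
    triA (T.kx d) (T.jx d) / 512 = kc (T.K (T.I d)) := by
  obtain ⟨h1, h2⟩ := T.tri_px h
  have h2' : triA (T.kx d) (T.jx d) = T.tc d := h2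
  have h5 := T.ox_lt (T.I (T.N d))
  rw [h2']
  show (T.ox (T.I (T.N d)) + 512 * kc (T.K (T.I d))) / 512 = _
  omega

theorem ex_kx' (d : F) : Nat.div (T.ex d) (nat_lit 16384) = T.kx (T.I (T.N d)) := T.ex_kx d

theorem farK_eq {d : F} (h : T.Tri d) :
    farK (T.kx d) (T.ox d) (T.jx d) = T.kx (T.I (T.N (T.I (T.N d)))) := by
  unfold farK
  rw [T.triA_jx_mod h, T.flA_ox, T.ex_kx', T.flA_ox, T.ex_kx']

theorem rv_div (d : F) : Nat.div (rv (T.kx d)) (nat_lit 24) = T.kx (T.I d) := (T.kx_I d).symm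

/-- **The compatibility at the far end.** -/
theorem farOK_N (d : F) :
    farOK (T.kx d) (T.rs d) (T.kx (T.N d)) (T.ox (T.N d)) (T.rs (T.N d)) = true := by
  have eN : T.N (T.I (T.N d)) = T.face (T.N d) := rfl
  unfold farOK
  by_cases h1 : T.Tri (T.N d)
  · have hN := T.N_third h1
    rw [T.ble_rs_tri h1, rIf_false, T.rs_tri h1, T.farK_eq h1, T.t3A_jx h1]
    by_cases h0 : T.Tri d
    · rw [T.ble_rs_tri h0, rIf_false, T.rs_tri h0, T.triA_jx_mod h0, ← hN]
      exact T.m2_ox _
    · rw [T.ble_rs_big h0, rIf_true, T.rs_big_B h0, ← eN]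
      have h2 := T.mO_ox (T.I (T.N (T.I (T.N (T.N d)))))
      rw [hN] at h2
      exact h2
  · rw [T.ble_rs_big h1, rIf_true, T.rs_big_C h1, rv_div]
    by_cases h0 : T.Tri d
    · rw [T.ble_rs_tri h0, rIf_false, T.rs_tri h0, T.triA_jx_mod h0]
      exact T.mI_ox _
    · rw [T.ble_rs_big h0, rIf_true, T.rs_big_B h0, ← eN]
      exact T.mB_kx _

end SMap

end Pool.Agent.Lib.MP_5854e1_co
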