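import Pool.Agent.Lib.MP_5854e1_co.ScanCell
import Pool.Agent.Lib.MP_5854e1_co.Raw

/-!
# The scanner on packed states

The states of the scanner are packed into numbers; `0` stands for failure. Whenever the scanner
accepts, the fast version gives the code of the new state.
-/

set_option autoImplicit false

namespace Pool.Agent.Lib.MP_5854e1_co

open Model24 (Kind)

/-- The code of a state. -/
def pkS (x0 cur ph nb vis m0 : ℕ) : ℕ :=
  Nat.succ (Nat.mul (nat_lit 2) (Nat.add x0 (Nat.mul (nat_lit 8) (Nat.add cur (Nat.mul (nat_lit 8)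
    (Nat.add ph (Nat.mul (nat_lit 4) (Nat.add nb (Nat.mul (nat_lit 128) (Nat.add vis
      (Nat.mul (nat_lit 128) m0)))))))))))

/-- The code of a state. -/
def encS (σ : Sc) : ℕ := pkS σ.x0.val σ.cur.val σ.ph σ.nb σ.vis σ.m0

/-- Bit test. -/
def bt (m y : ℕ) : Bool := Nat.beq (Nat.mod (Nat.shiftRight m y) (nat_lit 2)) (nat_lit 1)

theorem bt_eq (m y : ℕ) : bt m y = m.testBit y := by
  have h1 : bt m y = decide (m >>> y % 2 = 1) := by
    unfold bt
    cases h : Nat.beq (Nat.mod (Nat.shiftRight m y) 2) 1 with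
    | true =>
      have := Nat.eq_of_beq_eq_true h
      exact (decide_eq_true (p := m >>> y % 2 = 1) this).symm
    | false =>
      have := Nat.ne_of_beq_eq_false h
      exact (decide_eq_false (p := m >>> y % 2 = 1) this).symm
  rw [h1, Nat.testBit_eq_decide_div_mod_eq, Nat.shiftRight_eq_div_pow]

/-- The neighbour masks. -/
def nbmN (x : ℕ) : ℕ := Nat.mod (Nat.shiftRight (nat_lit 132999783791742) (Nat.mul (nat_lit 7) x))
  (nat_lit 128)

/-- The new phase, plus one, after entering a block; `0` for failure. -/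
def fEnter (x x0 ph vis : ℕ) : ℕ :=
  rIf (Nat.beq ph (nat_lit 2)) (nat_lit 0)
    (rIf (Nat.beq vis (nat_lit 126)) (rIf (Nat.beq x x0) (nat_lit 3) (nat_lit 0))
      (rIf (bt vis x) (nat_lit 0) (nat_lit 2)))

/-- The step inside a block. -/
def fP (x y x0 cur ph nb vis m0 : ℕ) : ℕ :=
  rIf (Nat.beq x cur) (rIf (bt nb y) (nat_lit 0) (rIf (rAnd (Nat.beq ph (nat_lit 2)) (bt m0 y))
    (nat_lit 0) (pkS x0 cur ph (Nat.lor nb (Nat.pow (nat_lit 2) y)) vis
      (rIf (Nat.beq ph (nat_lit 0)) (Nat.lor m0 (Nat.pow (nat_lit 2) y)) m0)))) (nat_lit 0)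

/-- The step over a gap without edge; `e` is the new phase plus one. -/
def fS (e x y x0 cur ph nb vis m0 : ℕ) : ℕ :=
  rIf (Nat.beq e (nat_lit 0)) (nat_lit 0)
    (rIf (rAnd (Nat.beq ph (nat_lit 1)) (rIf (Nat.beq nb (nbmN cur)) false true)) (nat_lit 0)
      (rIf (rAnd (Nat.beq e (nat_lit 3)) (bt m0 y)) (nat_lit 0)
        (pkS x0 x (Nat.pred e) (Nat.pow (nat_lit 2) y) (Nat.lor vis (Nat.pow (nat_lit 2) x)) m0)))

/-- The step over an `E` gap; `e` is the new phase plus one. -/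
def fE (e x y x0 cur ph nb vis m0 : ℕ) : ℕ :=
  rIf (Nat.beq e (nat_lit 0)) (nat_lit 0)
    (rIf (bt (nbmN cur) x) (rIf (bt nb x) (nat_lit 0)
      (rIf (rAnd (Nat.beq ph (nat_lit 1)) (rIf (Nat.beq (Nat.lor nb (Nat.pow (nat_lit 2) x))
        (nbmN cur)) false true)) (nat_lit 0)
        (rIf (Nat.beq y cur) (nat_lit 0)
          (rIf (rAnd (Nat.beq e (nat_lit 3)) (bt m0 y)) (nat_lit 0)
            (rIf (rAnd (Nat.beq e (nat_lit 3)) (bt m0 cur)) (nat_lit 0)
              (pkS x0 x (Nat.pred e) (Nat.lor (Nat.pow (nat_lit 2) cur) (Nat.pow (nat_lit 2) y))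
                (Nat.lor vis (Nat.pow (nat_lit 2) x))
                (rIf (Nat.beq ph (nat_lit 0)) (Nat.lor m0 (Nat.pow (nat_lit 2) x)) m0))))))
      ) (nat_lit 0))

/-- One step on the fields. -/
def fStepF (κ x y x0 cur ph nb vis m0 : ℕ) : ℕ :=
  rIf (Nat.beq κ (nat_lit 0)) (fP x y x0 cur ph nb vis m0)
    (rIf (Nat.beq κ (nat_lit 1)) (fE (fEnter x x0 ph vis) x y x0 cur ph nb vis m0)
      (fS (fEnter x x0 ph vis) x y x0 cur ph nb vis m0))

/-- One step on codes; the token is `κ + 4 x + 32 y`. -/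
def fStep (c t : ℕ) : ℕ :=
  fStepF (Nat.mod t (nat_lit 4)) (Nat.mod (Nat.div t (nat_lit 4)) (nat_lit 8))
    (Nat.div t (nat_lit 32)) (Nat.mod (Nat.div c (nat_lit 2)) (nat_lit 8))
    (Nat.mod (Nat.div c (nat_lit 16)) (nat_lit 8)) (Nat.mod (Nat.div c (nat_lit 128)) (nat_lit 4))
    (Nat.mod (Nat.div c (nat_lit 512)) (nat_lit 128))
    (Nat.mod (Nat.div c (nat_lit 65536)) (nat_lit 128)) (Nat.div c (nat_lit 8388608))

/-- The code of a kind in a token. -/
def kcd : Kind → ℕ
  | Kind.P => 0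
  | Kind.E => 1
  | Kind.S => 2

/-- The code of a corner and the next label. -/
def tkC (κ : Kind) (p : Fin 7 × Fin 7) : ℕ := kcd κ + 4 * p.1.val + 32 * p.2.val

theorem nbmN_eq : ∀ x : Fin 7, nbmN x.val = nbm x := by decide +kernel

/-- Bounds for the fields. -/
structure Sc.Bdd (σ : Sc) : Prop where
  m0 : σ.m0 < 128
  ph : σ.ph < 4
  vis : σ.vis < 128
  nb : σ.nb < 128

theorem lor_lt {a b : ℕ} (ha : a < 128) (hb : b < 128) : a ||| b < 128 :=
  Nat.or_lt_two_pow (n := 7) ha hb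

theorem pow_lt' (x : Fin 7) : 2 ^ x.val < 128 :=
  Nat.pow_lt_pow_right (by norm_num) (m := x.val) (n := 7) x.isLt

theorem bdd_scInit (p : Fin 7 × Fin 7) : (scInit p).Bdd :=
  ⟨pow_lt' _, by show 0 < 4; decide, pow_lt' _, pow_lt' _⟩

theorem scEnter_lt {σ : Sc} {x : Fin 7} {q : ℕ} (h : scEnter σ x = some q) : q = 1 ∨ q = 2 := by
  unfold scEnter at h
  split_ifs at h with h1 h2 h3 h4 <;> simp_all

theorem bdd_scP {σ τ : Sc} {p : Fin 7 × Fin 7} (hσ : σ.Bdd) (h : scP σ p = some τ) : τ.Bdd := by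
  unfold scP at h
  split_ifs at h with h1 h2
  · obtain rfl := Option.some.inj h
    exact ⟨lor_lt hσ.m0 (pow_lt' _), hσ.ph, hσ.vis, lor_lt hσ.nb (pow_lt' _)⟩
  · obtain rfl := Option.some.inj h
    exact ⟨hσ.m0, hσ.ph, hσ.vis, lor_lt hσ.nb (pow_lt' _)⟩

theorem bdd_scS {σ τ : Sc} {p : Fin 7 × Fin 7} (hσ : σ.Bdd) (h : scS σ p = some τ) : τ.Bdd := by
  unfold scS at h
  cases h0 : scEnter σ p.1 with
  | none => rw [h0] at h; exact absurd h (by simp)
  | some q =>
    rw [h0] at h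
    have hq := scEnter_lt h0
    simp only at h
    split_ifs at h with h1
    obtain rfl := Option.some.inj h
    exact ⟨hσ.m0, by show q < 4; omega, lor_lt hσ.vis (pow_lt' _), pow_lt' _⟩

theorem bdd_scE {σ τ : Sc} {p : Fin 7 × Fin 7} (hσ : σ.Bdd) (h : scE σ p = some τ) : τ.Bdd := by
  unfold scE at h
  cases h0 : scEnter σ p.1 with
  | none => rw [h0] at h; exact absurd h (by simp)
  | some q =>
    rw [h0] at h
    have hq := scEnter_lt h0
    simp only at h
    split_ifs at h with h1 h2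
    · obtain rfl := Option.some.inj h
      exact ⟨lor_lt hσ.m0 (pow_lt' _), by show q < 4; omega, lor_lt hσ.vis (pow_lt' _),
        lor_lt (pow_lt' _) (pow_lt' _)⟩
    · obtain rfl := Option.some.inj h
      exact ⟨hσ.m0, by show q < 4; omega, lor_lt hσ.vis (pow_lt' _),
        lor_lt (pow_lt' _) (pow_lt' _)⟩

theorem bdd_scStep {σ τ : Sc} {κ : Kind} {p : Fin 7 × Fin 7} (hσ : σ.Bdd)
    (h : scStep σ κ p = some τ) : τ.Bdd := by
  cases κ with
  | P => exact bdd_scP hσ h
  | E => exact bdd_scE hσ h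
  | S => exact bdd_scS hσ h

theorem beq_val {a b : Fin 7} (h : a = b) : Nat.beq a.val b.val = true := by
  subst h
  exact Nat.beq_refl _

theorem beq_val_ne {a b : Fin 7} (h : a ≠ b) : Nat.beq a.val b.val = false := by
  cases h1 : Nat.beq a.val b.val with
  | false => rfl
  | true => exact absurd (Fin.ext (Nat.eq_of_beq_eq_true h1)) h

theorem beq_eq_decide (a b : ℕ) : Nat.beq a b = decide (a = b) := by
  cases h : Nat.beq a b with
  | true => exact (decide_eq_true (Nat.eq_of_beq_eq_true h)).symm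
  | false => exact (decide_eq_false (Nat.ne_of_beq_eq_false h)).symm

theorem fEnter_eq {σ : Sc} {x : Fin 7} {q : ℕ} (h : scEnter σ x = some q) :
    fEnter x.val σ.x0.val σ.ph σ.vis = q + 1 := by
  unfold scEnter at h
  unfold fEnter
  rw [beq_eq_decide, beq_eq_decide, bt_eq]
  split_ifs at h with h1 h2 h3 h4
  · rw [decide_eq_false h1, decide_eq_true h2, beq_val h3]
    obtain rfl := Option.some.inj h
    rfl
  · rw [decide_eq_false h1, decide_eq_false h2, h4.2]
    obtain rfl := Option.some.inj h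
    rfl

theorem fP_eq {σ τ : Sc} {p : Fin 7 × Fin 7} (h : scP σ p = some τ) :
    fP p.1.val p.2.val σ.x0.val σ.cur.val σ.ph σ.nb σ.vis σ.m0 = encS τ := by
  unfold scP at h
  unfold fP
  rw [beq_eq_decide σ.ph 2, beq_eq_decide σ.ph 0, bt_eq, bt_eq]
  split_ifs at h with h1 h2
  · obtain ⟨h3, -, h4, h5⟩ := h1
    rw [beq_val h3, h4, decide_eq_true h2, decide_eq_false (by omega : ¬ σ.ph = 2)]
    obtain rfl := Option.some.inj h
    rfl
  · obtain ⟨h3, -, h4, h5⟩ := h1
    rw [beq_val h3, h4, decide_eq_false h2]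
    obtain rfl := Option.some.inj h
    by_cases h6 : σ.ph = 2
    · rw [decide_eq_true h6, h5 h6]
      rfl
    · rw [decide_eq_false h6]
      rfl

theorem fS_eq {σ τ : Sc} {p : Fin 7 × Fin 7} (h : scS σ p = some τ) :
    fS (fEnter p.1.val σ.x0.val σ.ph σ.vis) p.1.val p.2.val σ.x0.val σ.cur.val σ.ph σ.nb σ.vis
      σ.m0 = encS τ := by
  unfold scS at h
  cases h0 : scEnter σ p.1 with
  | none => rw [h0] at h; exact absurd h (by simp)
  | some q =>
    rw [h0] at h
    simp only at h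
    rw [fEnter_eq h0]
    split_ifs at h with h1
    obtain ⟨h2, h3, h4⟩ := h1
    unfold fS
    have e1 : Nat.beq (q + 1) 0 = false := rfl
    rw [e1, beq_eq_decide σ.ph 1, beq_eq_decide σ.nb, nbmN_eq, beq_eq_decide (q + 1) 3, bt_eq]
    obtain rfl := Option.some.inj h
    have e2 : rAnd (decide (σ.ph = 1)) (rIf (decide (σ.nb = nbm σ.cur)) false true) = false := by
      by_cases h5 : σ.ph = 1
      · rw [decide_eq_true (h2 h5), decide_eq_true h5]
        rfl
      · rw [decide_eq_false h5]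
        rfl
    have e3 : rAnd (decide (q + 1 = 3)) (σ.m0.testBit p.2.val) = false := by
      by_cases h5 : q = 2
      · rw [h4 h5]
        cases decide (q + 1 = 3) <;> rfl
      · rw [decide_eq_false (by omega : ¬ q + 1 = 3)]
        rfl
    rw [e2, e3]
    rfl

theorem fE_eq {σ τ : Sc} {p : Fin 7 × Fin 7} (h : scE σ p = some τ) :
    fE (fEnter p.1.val σ.x0.val σ.ph σ.vis) p.1.val p.2.val σ.x0.val σ.cur.val σ.ph σ.nb σ.vis
      σ.m0 = encS τ := by
  unfold scE at h
  cases h0 : scEnter σ p.1 with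
  | none => rw [h0] at h; exact absurd h (by simp)
  | some q =>
    rw [h0] at h
    simp only at h
    rw [fEnter_eq h0]
    have hc : ((adjL σ.cur p.1 = true ∧ σ.nb.testBit p.1.val = false ∧
        (σ.ph = 1 → σ.nb ||| 2 ^ p.1.val = nbm σ.cur) ∧ adjL p.1 p.2 = true ∧ p.2 ≠ σ.cur ∧
        (q = 2 → σ.m0.testBit p.2.val = false ∧ σ.m0.testBit σ.cur.val = false))) ∧
        τ = { σ with
          m0 := if σ.ph = 0 then σ.m0 ||| 2 ^ p.1.val else σ.m0
          ph := q
          vis := σ.vis ||| 2 ^ p.1.val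
          cur := p.1
          nb := 2 ^ σ.cur.val ||| 2 ^ p.2.val } := by
      split_ifs at h with h1 h2
      · exact ⟨h1, by obtain rfl := Option.some.inj h; rw [if_pos h2]⟩
      · exact ⟨h1, by obtain rfl := Option.some.inj h; rw [if_neg h2]⟩
    obtain ⟨⟨h1, h2, h3, -, h5, h6⟩, rfl⟩ := hc
    unfold fE
    have e1 : Nat.beq (q + 1) 0 = false := rfl
    have e0 : bt (nbmN σ.cur.val) p.1.val = true := by
      rw [bt_eq, nbmN_eq]
      exact h1
    rw [e1, e0, beq_eq_decide σ.ph 1, beq_eq_decide (Nat.lor _ _), nbmN_eq,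
      beq_eq_decide (q + 1) 3, bt_eq, bt_eq, bt_eq, h2, beq_val_ne h5, beq_eq_decide σ.ph 0]
    have e2 : rAnd (decide (σ.ph = 1)) (rIf (decide (Nat.lor σ.nb (Nat.pow 2 p.1.val) =
        nbm σ.cur)) false true) = false := by
      by_cases h7 : σ.ph = 1
      · have h8 : Nat.lor σ.nb (Nat.pow 2 p.1.val) = nbm σ.cur := h3 h7
        rw [decide_eq_true h8, decide_eq_true h7]
        rfl
      · rw [decide_eq_false h7]
        rfl
    have e3 : rAnd (decide (q + 1 = 3)) (σ.m0.testBit p.2.val) = false := by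
      by_cases h7 : q = 2
      · rw [(h6 h7).1]
        cases decide (q + 1 = 3) <;> rfl
      · rw [decide_eq_false (by omega : ¬ q + 1 = 3)]
        rfl
    have e4 : rAnd (decide (q + 1 = 3)) (σ.m0.testBit σ.cur.val) = false := by
      by_cases h7 : q = 2
      · rw [(h6 h7).2]
        cases decide (q + 1 = 3) <;> rfl
      · rw [decide_eq_false (by omega : ¬ q + 1 = 3)]
        rfl
    rw [e2, e3, e4]
    by_cases h7 : σ.ph = 0
    · rw [decide_eq_true h7]
      simp only [if_pos h7]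
      rfl
    · rw [decide_eq_false h7]
      simp only [if_neg h7]
      rfl

theorem fStepF_eq {σ τ : Sc} {κ : Kind} {p : Fin 7 × Fin 7} (h : scStep σ κ p = some τ) :
    fStepF (kcd κ) p.1.val p.2.val σ.x0.val σ.cur.val σ.ph σ.nb σ.vis σ.m0 = encS τ := by
  cases κ with
  | P => exact fP_eq h
  | E => exact fE_eq h
  | S => exact fS_eq h

/-- **The fast step.** -/
theorem fStep_eq {σ τ : Sc} {κ : Kind} {p : Fin 7 × Fin 7} (hσ : σ.Bdd)
    (h : scStep σ κ p = some τ) : fStep (encS σ) (tkC κ p) = encS τ := by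
  have hk : kcd κ < 3 := by cases κ <;> decide
  have h1 := p.1.isLt
  have h2 := p.2.isLt
  have h3 := σ.x0.isLt
  have h4 := σ.cur.isLt
  have h5 := hσ.m0
  have h6 := hσ.ph
  have h7 := hσ.vis
  have h8 := hσ.nb
  have e : encS σ = 1 + 2 * (σ.x0.val + 8 * (σ.cur.val + 8 * (σ.ph + 4 * (σ.nb + 128 * (σ.vis +
      128 * σ.m0))))) := by
    unfold encS pkS
    show Nat.succ (2 * (σ.x0.val + 8 * (σ.cur.val + 8 * (σ.ph + 4 * (σ.nb + 128 * (σ.vis +
      128 * σ.m0)))))) = _
    omega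
  have key : fStep (encS σ) (tkC κ p) = fStepF (tkC κ p % 4) (tkC κ p / 4 % 8) (tkC κ p / 32)
      (encS σ / 2 % 8) (encS σ / 16 % 8) (encS σ / 128 % 4) (encS σ / 512 % 128)
      (encS σ / 65536 % 128) (encS σ / 8388608) := rfl
  rw [key, e]
  have t1 : tkC κ p % 4 = kcd κ := by unfold tkC; omega
  have t2 : tkC κ p / 4 % 8 = p.1.val := by unfold tkC; omega
  have t3 : tkC κ p / 32 = p.2.val := by unfold tkC; omega
  have a1 : (1 + 2 * (σ.x0.val + 8 * (σ.cur.val + 8 * (σ.ph + 4 * (σ.nb + 128 * (σ.vis +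
      128 * σ.m0)))))) / 2 % 8 = σ.x0.val := by omega
  have a2 : (1 + 2 * (σ.x0.val + 8 * (σ.cur.val + 8 * (σ.ph + 4 * (σ.nb + 128 * (σ.vis +
      128 * σ.m0)))))) / 16 % 8 = σ.cur.val := by omega
  have a3 : (1 + 2 * (σ.x0.val + 8 * (σ.cur.val + 8 * (σ.ph + 4 * (σ.nb + 128 * (σ.vis +
      128 * σ.m0)))))) / 128 % 4 = σ.ph := by omega
  have a4 : (1 + 2 * (σ.x0.val + 8 * (σ.cur.val + 8 * (σ.ph + 4 * (σ.nb + 128 * (σ.vis +
      128 * σ.m0)))))) / 512 % 128 = σ.nb := by omega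
  have a5 : (1 + 2 * (σ.x0.val + 8 * (σ.cur.val + 8 * (σ.ph + 4 * (σ.nb + 128 * (σ.vis +
      128 * σ.m0)))))) / 65536 % 128 = σ.vis := by omega
  have a6 : (1 + 2 * (σ.x0.val + 8 * (σ.cur.val + 8 * (σ.ph + 4 * (σ.nb + 128 * (σ.vis +
      128 * σ.m0)))))) / 8388608 = σ.m0 := by omega
  rw [t1, t2, t3, a1, a2, a3, a4, a5, a6]
  exact fStepF_eq h

theorem encS_ne_zero (σ : Sc) : encS σ ≠ 0 := Nat.succ_ne_zero _

/-! ### Runs -/

/-- Pack a list of corners and labels, eight binary digits each. -/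
def pkT : List (Kind × (Fin 7 × Fin 7)) → ℕ
  | [] => 0
  | q :: l => tkC q.1 q.2 + 256 * pkT l

/-- Scan packed tokens with the given fuel. -/
def fRun (n : ℕ) : ℕ → ℕ → ℕ :=
  Nat.rec (motive := fun _ => ℕ → ℕ → ℕ) (fun c _ => c)
    (fun _ ih c t => rIf (Nat.beq t (nat_lit 0)) c
      (rIf (Nat.beq c (nat_lit 0)) (nat_lit 0)
        (ih (fStep c (Nat.mod t (nat_lit 256))) (Nat.div t (nat_lit 256))))) n

theorem fRun_succ (n c t : ℕ) : fRun (n + 1) c t = rIf (Nat.beq t 0) c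
    (rIf (Nat.beq c 0) 0 (fRun n (fStep c (t % 256)) (t / 256))) := rfl

theorem bdd_scRun : ∀ {l : List (Kind × (Fin 7 × Fin 7))} {σ τ : Sc}, σ.Bdd →
    scRun σ l = some τ → τ.Bdd := by
  intro l
  induction l with
  | nil => intro σ τ hσ h; obtain rfl := Option.some.inj h; exact hσ
  | cons q l ih =>
    intro σ τ hσ h
    rw [scRun] at h
    cases h1 : scStep σ q.1 q.2 with
    | none => rw [h1] at h; exact absurd h (by simp)
    | some ρ => rw [h1] at h; exact ih (bdd_scStep hσ h1) h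

/-- **The fast scan.** The labels must not be zero. -/
theorem fRun_eq : ∀ {l : List (Kind × (Fin 7 × Fin 7))} {n : ℕ} {σ τ : Sc}, l.length ≤ n →
    σ.Bdd → (∀ q ∈ l, q.2.1 ≠ 0) → scRun σ l = some τ → fRun n (encS σ) (pkT l) = encS τ := by
  intro l
  induction l with
  | nil =>
    intro n σ τ _ _ _ h
    obtain rfl := Option.some.inj h
    cases n with
    | zero => rfl
    | succ n => rfl
  | cons q l ih =>
    intro n σ τ hn hσ hl h
    obtain ⟨n, rfl⟩ : ∃ m, n = m + 1 := ⟨n - 1, by simp at hn; omega⟩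
    rw [scRun] at h
    cases h1 : scStep σ q.1 q.2 with
    | none => rw [h1] at h; exact absurd h (by simp)
    | some ρ =>
      rw [h1] at h
      have hk : kcd q.1 < 3 := by cases q.1 <;> decide
      have h2 := q.2.1.isLt
      have h3 := q.2.2.isLt
      have h4 : q.2.1.val ≠ 0 := fun h5 => hl q List.mem_cons_self (Fin.ext h5)
      have e1 : pkT (q :: l) % 256 = tkC q.1 q.2 := by
        show (tkC q.1 q.2 + 256 * pkT l) % 256 = _
        have : tkC q.1 q.2 < 256 := by unfold tkC; omega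
        omega
      have e2 : pkT (q :: l) / 256 = pkT l := by
        show (tkC q.1 q.2 + 256 * pkT l) / 256 = _
        have : tkC q.1 q.2 < 256 := by unfold tkC; omega
        omega
      have e3 : Nat.beq (pkT (q :: l)) 0 = false := by
        rw [beq_eq_decide]
        refine decide_eq_false ?_
        show tkC q.1 q.2 + 256 * pkT l ≠ 0
        unfold tkC
        omega
      have e4 : Nat.beq (encS σ) 0 = false := rfl
      rw [fRun_succ, e1, e2, e3, e4, fStep_eq hσ h1]
      exact ih (by simp at hn; omega) (bdd_scStep hσ h1)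
        (fun q' hq' => hl q' (List.mem_cons_of_mem _ hq')) h

end Pool.Agent.Lib.MP_5854e1_co
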