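import Pool.Agent.Lib.MP_5854e1_co.FclC

/-!
# The fast evaluation of a closed word: digits and vectors

The loops over the digits `2 ^ (23 i)` of a number, masks of packed vectors, the rows of a block and
the step with any set of lanes.
-/

set_option autoImplicit false
set_option linter.unusedVariables false

namespace Pool.Agent.Lib.MP_5854e1_co.FC

open Pk PB CE

noncomputable section

/-! ### Digits -/

theorem dig_zero {m k : ℕ} {d : ℕ → ℕ} (h : d 0 = 0) :
    2 ^ (23 * m) * pk 23 (k + 1) d = 2 ^ (23 * (m + 1)) * pk 23 k (fun i => d (i + 1)) := by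
  rw [pk_succ, h, zero_add, ← mul_assoc, ← pow_add, mul_add 23 m 1, mul_one]

theorem dig_one {m k : ℕ} {d : ℕ → ℕ} (hm : m ≤ 256) (h : d 0 = 1) :
    Nat.gcd (2 ^ (23 * m) * pk 23 (k + 1) d) Hy.pP = 2 ^ (23 * m) ∧
      2 ^ (23 * m) * pk 23 (k + 1) d - 2 ^ (23 * m) =
        2 ^ (23 * (m + 1)) * pk 23 k (fun i => d (i + 1)) := by
  constructor
  · rw [pk_succ, h, Hy.pP_eq]
    exact gcd_digit hm
  · rw [pk_succ, h, mul_add, mul_one, Nat.add_sub_cancel_left, ← mul_assoc, ← pow_add,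
      mul_add 23 m 1, mul_one]

theorem ix_dig {m : ℕ} (hm : m < 256) : ix (2 ^ (23 * m)) = m := ix_eq m hm

theorem lo_pow (d : ℕ → ℕ) (k : ℕ) : 2 ^ (23 * 0) * pk 23 k d = pk 23 k d := by
  rw [mul_zero, pow_zero, one_mul]

/-- (A1) the loop over the lanes -/
theorem lp_digits {f : ℕ → Bool} : ∀ (k m : ℕ) (d : ℕ → ℕ), m + k ≤ 256 → (∀ i < k, d i ≤ 1) →
    lp f (∑ i ∈ Finset.range k, d i) (2 ^ (23 * m) * pk 23 k d) = true →
      ∀ i < k, d i = 1 → f (m + i) = true := by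
  intro k
  induction k with
  | zero => intro m d _ _ _ i hi; exact absurd hi (Nat.not_lt_zero _)
  | succ k ih =>
    intro m d hm hd h i hi hdi
    rw [Finset.sum_range_succ'] at h
    rcases Nat.le_one_iff_eq_zero_or_eq_one.1 (hd 0 (Nat.succ_pos _)) with h0 | h0
    · rw [h0, add_zero, dig_zero h0] at h
      cases i with
      | zero => rw [h0] at hdi; exact absurd hdi (by norm_num)
      | succ i =>
        have := ih (m + 1) (fun i => d (i + 1)) (by omega) (fun i hi => hd _ (by omega)) h i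
          (by omega) hdi
        rwa [show m + 1 + i = m + (i + 1) by omega] at this
    · rw [h0] at h
      obtain ⟨h1, h2⟩ := dig_one (m := m) (k := k) (d := d) (by omega) h0
      have h3 : Bool.rec (motive := fun _ => Bool) false
          (lp f (∑ i ∈ Finset.range k, d (i + 1)) (2 ^ (23 * m) * pk 23 (k + 1) d -
            Nat.gcd (2 ^ (23 * m) * pk 23 (k + 1) d) Hy.pP))
          (f (ix (Nat.gcd (2 ^ (23 * m) * pk 23 (k + 1) d) Hy.pP))) = true := h
      rw [h1, h2, ix_dig (by omega)] at h3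
      cases hf : f m with
      | false => rw [hf] at h3; exact absurd h3 (by simp)
      | true =>
        rw [hf] at h3
        cases i with
        | zero => rw [add_zero]; exact hf
        | succ i =>
          have := ih (m + 1) (fun i => d (i + 1)) (by omega) (fun i hi => hd _ (by omega)) h3 i
            (by omega) hdi
          rwa [show m + 1 + i = m + (i + 1) by omega] at this

/-- (A1) -/
theorem lp_sound {f : ℕ → Bool} {n : ℕ} {d : ℕ → ℕ} (hn : n ≤ 256) (hd : ∀ i < n, d i ≤ 1)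
    (h : lp f (Nat.mod (pk 23 n d) 8388607) (pk 23 n d) = true) {i : ℕ} (hi : i < n)
    (hdi : d i = 1) : f i = true := by
  have e : Nat.mod (pk 23 n d) 8388607 = ∑ i ∈ Finset.range n, d i := popc hn hd
  rw [e] at h
  have := lp_digits n 0 d (by omega) hd (by rw [lo_pow]; exact h) i hi hdi
  rwa [zero_add] at this

/-! ### The list of the next lanes -/

section list

variable {f1 : ℕ → ℕ} {f2 : ℕ → (ℕ → ℕ) → ℕ} {vv : ℕ → ℕ} {ta tc : ℕ} {q : Bool}

/-- entries are only put in front -/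
theorem pr_front {P : CL → Prop} (hP : ∀ m w j tR c l, P l → P (CL.cons m w j tR c l)) (m i : ℕ) :
    ∀ (L : LR) (l : CL), P l → P (pr f1 f2 vv ta tc q m i L l) := by
  intro L
  induction L with
  | t s xa a b c d H => intro l hl; exact hP _ _ _ _ _ _ hl
  | p s xa a b c d => intro l hl; exact hP _ _ _ _ _ _ hl
  | z => intro l hl; exact hP _ _ _ _ _ _ hl
  | o u H =>
    intro l hl
    show P (Bool.rec (motive := fun _ => CL)
      (CL.cons (vv u) (Nat.add (vt f1 f2 i (H tc)) (vv u)) i (nat_lit 0) (LR.o u H) l) l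
      (Nat.ble (Nat.succ m) (vv u)))
    cases Nat.ble (Nat.succ m) (vv u) with
    | false => exact hP _ _ _ _ _ _ hl
    | true => exact hl
  | b x y z hx hy hz => intro l hl; exact hx _ (hy _ (hz _ hl))

variable {E : ℕ → LR} {T : ℕ}

theorem lo_succ (n u : ℕ) : lo f1 f2 vv E T ta tc q (n + 1) u =
    pr f1 f2 vv ta tc q (PB.fl 22 T (ix (Nat.gcd u Hy.pP))) (ix (Nat.gcd u Hy.pP))
      (E (ix (Nat.gcd u Hy.pP))) (lo f1 f2 vv E T ta tc q n (u - Nat.gcd u Hy.pP)) := rfl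

theorem lo_digits : ∀ (k m : ℕ) (d : ℕ → ℕ), m + k ≤ 256 → (∀ i < k, d i ≤ 1) → ∀ i < k,
    d i = 1 → ∃ rest, ∀ P : CL → Prop, (∀ m w j tR c l, P l → P (CL.cons m w j tR c l)) →
      P (pr f1 f2 vv ta tc q (PB.fl 22 T (m + i)) (m + i) (E (m + i)) rest) →
        P (lo f1 f2 vv E T ta tc q (∑ i ∈ Finset.range k, d i) (2 ^ (23 * m) * pk 23 k d)) := by
  intro k
  induction k with
  | zero => intro m d _ _ i hi; exact absurd hi (Nat.not_lt_zero _)
  | succ k ih =>
    intro m d hm hd i hi hdi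
    rw [Finset.sum_range_succ']
    rcases Nat.le_one_iff_eq_zero_or_eq_one.1 (hd 0 (Nat.succ_pos _)) with h0 | h0
    · rw [h0, add_zero, dig_zero h0]
      cases i with
      | zero => rw [h0] at hdi; exact absurd hdi (by norm_num)
      | succ i =>
        have := ih (m + 1) (fun i => d (i + 1)) (by omega) (fun i hi => hd _ (by omega)) i
          (by omega) hdi
        rwa [show m + 1 + i = m + (i + 1) by omega] at this
    · rw [h0]
      obtain ⟨h1, h2⟩ := dig_one (m := m) (k := k) (d := d) (by omega) h0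
      rw [lo_succ, h1, h2, ix_dig (by omega)]
      cases i with
      | zero =>
        refine ⟨lo f1 f2 vv E T ta tc q (∑ i ∈ Finset.range k, d (i + 1))
          (2 ^ (23 * (m + 1)) * pk 23 k (fun i => d (i + 1))), fun P _ h => ?_⟩
        rw [add_zero] at h
        exact h
      | succ i =>
        obtain ⟨rest, h3⟩ := ih (m + 1) (fun i => d (i + 1)) (by omega)
          (fun i hi => hd _ (by omega)) i (by omega) hdi
        rw [show m + 1 + i = m + (i + 1) by omega] at h3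
        exact ⟨rest, fun P hP h => pr_front hP _ _ _ _ (h3 P hP h)⟩

/-- (A2) all entries of a lane are entries of the list -/
theorem lop_mem {n : ℕ} {d : ℕ → ℕ} (hn : n ≤ 256) (hd : ∀ i < n, d i ≤ 1) {i : ℕ} (hi : i < n)
    (hdi : d i = 1) : ∃ rest, ∀ P : CL → Prop,
      (∀ m w j tR c l, P l → P (CL.cons m w j tR c l)) →
      P (pr f1 f2 vv ta tc q (PB.fl 22 T i) i (E i) rest) →
        P (lop f1 f2 vv E T ta tc q (pk 23 n d)) := by
  have e : Nat.mod (pk 23 n d) 8388607 = ∑ i ∈ Finset.range n, d i := popc hn hd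
  obtain ⟨rest, h⟩ := lo_digits (f1 := f1) (f2 := f2) (vv := vv) (ta := ta) (tc := tc) (q := q)
    (E := E) (T := T) n 0 d (by omega) hd i hi hdi
  rw [zero_add, lo_pow, ← e] at h
  exact ⟨rest, h⟩

theorem lo_ind {P : CL → Prop} (h0 : P CL.nil) : ∀ (k m : ℕ) (d : ℕ → ℕ), m + k ≤ 256 →
    (∀ i < k, d i ≤ 1) → (∀ i < k, d i = 1 → ∀ rest, P rest →
      P (pr f1 f2 vv ta tc q (PB.fl 22 T (m + i)) (m + i) (E (m + i)) rest)) →
        P (lo f1 f2 vv E T ta tc q (∑ i ∈ Finset.range k, d i) (2 ^ (23 * m) * pk 23 k d)) := by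
  intro k
  induction k with
  | zero => intro m d _ _ _; exact h0
  | succ k ih =>
    intro m d hm hd h1
    have h1' : ∀ i < k, d (i + 1) = 1 → ∀ rest, P rest →
        P (pr f1 f2 vv ta tc q (PB.fl 22 T (m + 1 + i)) (m + 1 + i) (E (m + 1 + i)) rest) := by
      intro i hi hdi
      have := h1 (i + 1) (by omega) hdi
      rwa [show m + (i + 1) = m + 1 + i by omega] at this
    have h2 := ih (m + 1) (fun i => d (i + 1)) (by omega) (fun i hi => hd _ (by omega)) h1'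
    rw [Finset.sum_range_succ']
    rcases Nat.le_one_iff_eq_zero_or_eq_one.1 (hd 0 (Nat.succ_pos _)) with h3 | h3
    · rw [h3, add_zero, dig_zero h3]
      exact h2
    · rw [h3]
      obtain ⟨h4, h5⟩ := dig_one (m := m) (k := k) (d := d) (by omega) h3
      rw [lo_succ, h4, h5, ix_dig (by omega)]
      have h6 := h1 0 (Nat.succ_pos _) h3
      rw [add_zero] at h6
      exact h6 _ h2

/-- (A2') induction over the list -/
theorem lop_ind {P : CL → Prop} {n : ℕ} {d : ℕ → ℕ} (hn : n ≤ 256) (hd : ∀ i < n, d i ≤ 1)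
    (h0 : P CL.nil) (h1 : ∀ i < n, d i = 1 → ∀ rest, P rest →
      P (pr f1 f2 vv ta tc q (PB.fl 22 T i) i (E i) rest)) :
    P (lop f1 f2 vv E T ta tc q (pk 23 n d)) := by
  have e : Nat.mod (pk 23 n d) 8388607 = ∑ i ∈ Finset.range n, d i := popc hn hd
  have h := lo_ind (f1 := f1) (f2 := f2) (vv := vv) (ta := ta) (tc := tc) (q := q)
    (E := E) (T := T) h0 n 0 d (by omega) hd (fun i hi hdi => by
      rw [zero_add]
      exact h1 i hi hdi)
  rw [lo_pow, ← e] at h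
  exact h

end list

/-! ### The vector of the values -/

theorem pkv_digits (g : ℕ → ℕ) (cs : ℕ) : ∀ (k m : ℕ) (d : ℕ → ℕ) (a : ℕ), m + k ≤ 256 →
    (∀ i < k, d i ≤ 1) →
    pkv g cs (∑ i ∈ Finset.range k, d i) (2 ^ (23 * m) * pk 23 k d) a =
      a + 2 ^ (23 * m) * pk 23 k (fun i => if d i = 1 then g (m + i) - cs else 0) := by
  intro k
  induction k with
  | zero => intro m d a _ _; rfl
  | succ k ih =>
    intro m d a hm hd
    rw [Finset.sum_range_succ']
    have e1 : (fun i => if d (i + 1) = 1 then g (m + (i + 1)) - cs else 0) =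
        fun i => if d (i + 1) = 1 then g (m + 1 + i) - cs else 0 := by
      funext i
      rw [show m + (i + 1) = m + 1 + i by omega]
    rcases Nat.le_one_iff_eq_zero_or_eq_one.1 (hd 0 (Nat.succ_pos _)) with h0 | h0
    · rw [h0, add_zero, dig_zero h0, ih (m + 1) (fun i => d (i + 1)) a (by omega)
        (fun i hi => hd _ (by omega)), ← e1]
      rw [dig_zero (m := m) (k := k) (d := fun i => if d i = 1 then g (m + i) - cs else 0)
        (by simp only [h0]; rfl)]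
    · rw [h0]
      obtain ⟨h4, h5⟩ := dig_one (m := m) (k := k) (d := d) (by omega) h0
      have h6 : pkv g cs (∑ i ∈ Finset.range k, d (i + 1) + 1) (2 ^ (23 * m) * pk 23 (k + 1) d) a =
          pkv g cs (∑ i ∈ Finset.range k, d (i + 1)) (2 ^ (23 * m) * pk 23 (k + 1) d -
            Nat.gcd (2 ^ (23 * m) * pk 23 (k + 1) d) Hy.pP)
            (a + (g (ix (Nat.gcd (2 ^ (23 * m) * pk 23 (k + 1) d) Hy.pP)) - cs) *
              Nat.gcd (2 ^ (23 * m) * pk 23 (k + 1) d) Hy.pP) := rfl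
      rw [h6, h4, h5, ix_dig (by omega), ih (m + 1) (fun i => d (i + 1)) _ (by omega)
        (fun i hi => hd _ (by omega)), pk_succ, ← e1]
      simp only [h0, if_true, add_zero]
      rw [mul_add 23 m 1, mul_one, pow_add]
      ring

/-- (A3) the vector of the values -/
theorem pkv_eq (g : ℕ → ℕ) (cs : ℕ) {n : ℕ} {d : ℕ → ℕ} (hn : n ≤ 256) (hd : ∀ i < n, d i ≤ 1) :
    pkv g cs (Nat.mod (pk 23 n d) 8388607) (pk 23 n d) 0 =
      pk 23 n (fun i => if d i = 1 then g i - cs else 0) := by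
  have e : Nat.mod (pk 23 n d) 8388607 = ∑ i ∈ Finset.range n, d i := popc hn hd
  have h := pkv_digits g cs n 0 d 0 (by omega) hd
  rw [lo_pow, lo_pow, ← e, zero_add] at h
  rw [h]
  refine pk_congr fun i _ => ?_
  rw [zero_add]

/-! ### Masks -/

/-- (A4) a mask -/
theorem mask_add {n c : ℕ} {xf d : ℕ → ℕ} (hx : ∀ i < n, xf i + c < 2 ^ 23)
    (hd : ∀ i < n, d i ≤ 1) :
    Nat.land (Nat.add (pk 23 n xf) (Nat.mul (oneB n) c)) (pk 23 n (fun i => 4194304 * d i)) =
      pk 23 n (fun i => 4194304 * (if d i = 1 ∧ 2 ^ 22 ≤ xf i + c then 1 else 0)) := by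
  have e1 : Nat.add (pk 23 n xf) (Nat.mul (oneB n) c) = pk 23 n (fun i => xf i + c) := by
    have e2 : Nat.add (pk 23 n xf) (Nat.mul (oneB n) c) = pk 23 n xf + rep 23 n * c := rfl
    rw [e2, mul_comm, const_eq (by norm_num), pk_add]
  have e3 : Nat.land (Nat.add (pk 23 n xf) (Nat.mul (oneB n) c))
      (pk 23 n (fun i => 4194304 * d i)) =
      pk 23 n (fun i => xf i + c) &&& pk 23 n (fun i => 4194304 * d i) := by
    rw [e1]
    rfl
  rw [e3, pk_land hx (fun i hi => by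
    have := hd i hi
    have : 4194304 * d i ≤ 4194304 * 1 := Nat.mul_le_mul_left _ (hd i hi)
    have : (4194304 : ℕ) < 2 ^ 23 := by norm_num
    omega)]
  refine pk_congr fun i hi => ?_
  rcases Nat.le_one_iff_eq_zero_or_eq_one.1 (hd i hi) with h0 | h0
  · rw [h0, mul_zero, Nat.and_zero, if_neg (fun h => absurd h.1 (by norm_num))]
  · have e4 : (4194304 * 1 : ℕ) = 2 ^ 22 := by norm_num
    have e5 : (4194304 : ℕ) = 2 ^ 22 := by norm_num
    rw [h0, e4, land_two_pow_of_lt (v := 22) (hx i hi)]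
    by_cases h : 2 ^ 22 ≤ xf i + c
    · rw [if_pos h, if_pos ⟨rfl, h⟩, ← e5]
    · rw [if_neg h, if_neg (fun h' => h h'.2), mul_zero]

theorem shift_dig {n : ℕ} (d : ℕ → ℕ) :
    Nat.shiftRight (pk 23 n (fun i => 4194304 * d i)) 22 = pk 23 n d := by
  have e : pk 23 n (fun i => 4194304 * d i) = 2 ^ 22 * pk 23 n d := by
    rw [pk_mul]
    exact pk_congr fun i _ => by norm_num
  have e2 : Nat.shiftRight (pk 23 n (fun i => 4194304 * d i)) 22 =
      (pk 23 n (fun i => 4194304 * d i)) >>> 22 := rfl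
  rw [e2, e, Nat.shiftRight_eq_div_pow, Nat.mul_div_cancel_left _ (by positivity)]

/-- (A4) a mask, shifted -/
theorem mask_shift {n c : ℕ} {xf d : ℕ → ℕ} (hx : ∀ i < n, xf i + c < 2 ^ 23)
    (hd : ∀ i < n, d i ≤ 1) :
    Nat.shiftRight (Nat.land (Nat.add (pk 23 n xf) (Nat.mul (oneB n) c))
      (pk 23 n (fun i => 4194304 * d i))) 22 =
      pk 23 n (fun i => if d i = 1 ∧ 2 ^ 22 ≤ xf i + c then 1 else 0) := by
  rw [mask_add hx hd, shift_dig]

/-- (A5) the digits of the next lanes -/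
theorem cnd_eq {n z : ℕ} {tf bf d : ℕ → ℕ}
    (hx : ∀ i < n, tf i + bf i + (z % 8388608 + 1507327) < 2 ^ 23) (hd : ∀ i < n, d i ≤ 1) :
    cnd (oneB n) (pk 23 n bf) (pk 23 n (fun i => 4194304 * d i)) (pk 23 n tf) z =
      pk 23 n (fun i => if d i = 1 ∧ 2 ^ 22 ≤ tf i + bf i + (z % 8388608 + 1507327) then 1
        else 0) := by
  have e1 : cnd (oneB n) (pk 23 n bf) (pk 23 n (fun i => 4194304 * d i)) (pk 23 n tf) z =
      Nat.shiftRight (Nat.land (Nat.add (pk 23 n tf + pk 23 n bf)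
        ((z % 8388608 + 1507327) * oneB n)) (pk 23 n (fun i => 4194304 * d i))) 22 := rfl
  rw [e1, mul_comm, pk_add]
  exact mask_shift (xf := fun i => tf i + bf i) hx hd

/-! ### The rows of a block -/

/-- (A6) a row of a block -/
theorem rX_eq {x M j : ℕ} (hM : HB 22 (nX x) M (2 ^ 17)) (hb : 0 < fb x) (hb2 : fb x < 256)
    (hj : j < fa x) :
    rX (Hy.trX x) M j = pk 23 (fb x) (fun i => PB.fl 22 M (plX x j i)) := by
  have h1 := col_rep (x := Hy.trX x) (S := M) (F := 2 ^ 17) (j := j)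
    (by rw [Hy.fa_trX hb2]; exact hb) (by rw [Hy.nX_trX hb2]; exact hM)
    (by rw [Hy.fb_trX hb2]; exact hj)
  have e1 : rX (Hy.trX x) M j = col (Hy.trX x) M j := by
    have e2 : rX (Hy.trX x) M j = Bool.rec (motive := fun _ => ℕ → ℕ)
      (fun j => Nat.mod (Nat.shiftRight M (Nat.mul (sX (Hy.trX x)) j)) (wX (Hy.trX x)))
      (fun j => Nat.mod (Nat.land (Nat.shiftRight M (Nat.mul (nat_lit 23) j)) (smX (Hy.trX x)))
        (dX (Hy.trX x)))
      (Nat.beq (fk (Hy.trX x)) (nat_lit 0)) j := rfl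
    have e3 : col (Hy.trX x) M j = rIf (Nat.beq (fk (Hy.trX x)) (nat_lit 0))
      (Nat.mod (Nat.land (Nat.shiftRight M (Nat.mul (nat_lit 23) j)) (smX (Hy.trX x)))
        (dX (Hy.trX x)))
      (Nat.mod (Nat.shiftRight M (Nat.mul (sX (Hy.trX x)) j)) (wX (Hy.trX x))) := rfl
    rw [e2, e3]
    cases Nat.beq (fk (Hy.trX x)) (nat_lit 0) with
    | false => rw [rIf_false]
    | true => rw [rIf_true]
  rw [Hy.fa_trX hb2] at h1
  rw [e1]
  refine h1.eq.trans (pk_congr fun i _ => ?_)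
  rw [Hy.plX_trX hb2]

/-! ### The step with any set of lanes -/

theorem zg_dig {b Z F : ℕ} {d : ℕ → ℕ} (h : HB 22 b Z F) (hd : ∀ i < b, d i ≤ 1) {i : ℕ}
    (hi : i < b) (hdi : d i = 1) :
    ((Z + pk 23 b (fun i => 4194304 * d i)) / 2 ^ (23 * i)) &&& 8388607 = PB.fl 22 Z i + 2 ^ 22 := by
  have e2 : Z + pk 23 b (fun i => 4194304 * d i) = pk 23 b (fun i => PB.fl 22 Z i + 4194304 * d i) :=
    (congrArg (fun y => y + pk 23 b (fun i => 4194304 * d i)) h.rep.eq).trans (pk_add _ _ _)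
  have hlt : ∀ i < b, PB.fl 22 Z i + 4194304 * d i < 2 ^ 23 := fun i hi => by
    have h1 := h.rep.lt i hi
    have h2 : 4194304 * d i ≤ 4194304 * 1 := Nat.mul_le_mul_left _ (hd i hi)
    omega
  have e3 : (8388607 : ℕ) = 2 ^ 23 - 1 := by norm_num
  rw [e2, e3, Nat.and_two_pow_sub_one_eq_mod, pk_field hlt hi, hdi]
  norm_num

theorem lp_stepA {w : ℕ} {row : ℕ → ℕ} {b b' Z A F : ℕ} {d : ℕ → ℕ} {rf : ℕ → ℕ → ℕ} (hw : 23 ≤ w)
    (hb : b ≤ 256) (hZ : HB 22 b Z F) (hF : F + 2 ^ 17 ≤ 2 ^ 22) (hF0 : 2 ^ 20 ≤ F)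
    (hd : ∀ i < b, d i ≤ 1)
    (hA : ∀ i < b, d i = 1 → ((Z + A) / 2 ^ (23 * i)) &&& 8388607 = PB.fl 22 Z i + 2 ^ 22)
    (hrow : ∀ i < b, row i = pk w b' (rf i)) (hrf : ∀ i < b, ∀ j < b', rf i j < 2 ^ 17) :
    ∃ g, lpS row (2 ^ 5888) (rep w b') (rep w b' * 4194304) (Z + A)
      (pk 23 b d % 8388607) (pk 23 b d) (rep w b' * 1114111) - rep w b' * 65536 = pk w b' g ∧
      (∀ j < b', g j < F + 2 ^ 16) ∧
      ∀ i < b, d i = 1 → ∀ j < b', PB.fl 22 Z i + rf i j ≤ g j + 65536 := by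
  have hw0 : 0 < w := by omega
  have h0 : rep w b' * 1114111 = pk w b' (fun _ => 1114111) := by
    rw [mul_comm, const_eq hw0]
  have hK : rep w b' * 65536 = pk w b' (fun _ => 65536) := by
    rw [mul_comm, const_eq hw0]
  obtain ⟨g', h1, h2, h3, h4⟩ := lpS_spec (row := row) (b := b') (Z := Z + A)
    (xf := fun i j => PB.fl 22 Z i + rf i j) hw b 0 d (fun _ => 1114111) (by omega) hd (fun i hi h => by
      rw [zero_add]
      refine ⟨fun j hj => ?_, ?_⟩
      · have := hZ.lt i hi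
        have := hrf i hi j hj
        show PB.fl 22 Z i + rf i j < 2 ^ 22
        omega
      · rw [hA i hi h, hrow i hi, const_eq hw0, pk_add]
        exact pk_congr fun j _ => by ring) (fun _ _ => by norm_num)
  rw [← popc hb hd, mul_zero, pow_zero, one_mul, ← h0] at h1
  refine ⟨fun j => g' j - 65536, ?_, fun j hj => ?_, fun i hi h j hj => ?_⟩
  · rw [h1, hK, pk_sub]
    intro j hj
    have := h2 j hj
    omega
  · have h6 := h4 (F + 2 ^ 17) (fun j _ => by omega) (fun i hi _ j hj => by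
      have := hZ.lt i hi
      have := hrf i hi j hj
      rw [zero_add]
      omega) j hj
    have h7 := h2 j hj
    simp only
    omega
  · have h6 := h3 i hi h j hj
    have h7 := h2 j hj
    simp only [zero_add] at h6
    simp only
    omega

theorem adX_specA {P Z A F x M : ℕ} {d : ℕ → ℕ} (hP : P = 2 ^ 5888) (hb : 0 < fa x)
    (hZ : HB 22 (fa x) Z F) (hM : HB 22 (nX x) M (2 ^ 17)) (hb' : 0 < fb x)
    (hF : F + 2 ^ 17 ≤ 2 ^ 22) (hF0 : 2 ^ 20 ≤ F) (hd : ∀ i < fa x, d i ≤ 1)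
    (hA : ∀ i < fa x, d i = 1 → ((Z + A) / 2 ^ (23 * i)) &&& 8388607 = PB.fl 22 Z i + 2 ^ 22) {r : ℕ}
    (hr : r = adX P (fa x) (fb x) M (Z + A) (pk 23 (fa x) d) x) :
    HB 22 (fb x) r (F + 2 ^ 16) ∧
      ∀ i < fa x, d i = 1 → ∀ j < fb x,
        PB.fl 22 Z i + PB.fl 22 M (plX x i j) ≤ PB.fl 22 r j + 65536 := by
  have hb2 : fa x ≤ 256 := (Nat.mod_lt _ (by norm_num)).le
  have hop := opX_ok (x := x) hb hb'
  have hrf : ∀ i < fa x, ∀ j < fb x, PB.fl 22 M (plX x i j) < 2 ^ 17 := fun i hi j hj =>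
    hM.lt _ (hop.lt i hi j hj)
  have e1 : adX P (fa x) (fb x) M (Z + A) (pk 23 (fa x) d) x =
    rIf (Nat.beq (Nat.mod x 2) 0)
      (adR P (23 * (fb x + (fa x + 1 - fb x))) (2 ^ (23 * fb x) - 1) (rep 23 (fb x)) M
        (Z + A) (pk 23 (fa x) d))
      (adC P (2 ^ (23 * (fa x + (fb x + 1 - fa x))) - 8388608)
        (rep (23 * (fa x + (fb x + 1 - fa x))) (fb x)) M (Z + A) (pk 23 (fa x) d)) := rfl
  rw [e1] at hr
  rcases fk_two x with ⟨e0, hk⟩ | ⟨e0, hk⟩
  · obtain ⟨g, h1, h2, h3⟩ := lp_stepA (w := 23) (b' := fb x) (row := fun i => Nat.land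
      (Nat.shiftRight M (Nat.mul (23 * (fb x + (fa x + 1 - fb x))) i)) (2 ^ (23 * fb x) - 1))
      le_rfl hb2 hZ hF hF0 hd hA (fun i hi => row0_eq hM hi hk) hrf
    rw [e0, rIf_true, hP] at hr
    have h4 : r = pk 23 (fb x) g := hr.trans h1
    have h5 : Rep 22 (fb x) r g := ⟨h4, fun j hj => by
      have := h2 j hj
      omega⟩
    refine ⟨⟨g, h5, h2⟩, fun i hi h j hj => ?_⟩
    rw [PB.fl_eq h5 hj]
    exact h3 i hi h j hj
  · have ec : cOf 1 (fa x) (fb x) = fa x + (fb x + 1 - fa x) := by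
      have e3 : cOf 1 (fa x) (fb x) =
        rIf (Nat.ble (fa x) (Nat.succ (fb x))) (Nat.succ (fb x)) (fa x) := rfl
      rw [e3]
      rcases ble_cases (fa x) (Nat.succ (fb x)) with ⟨e, h⟩ | ⟨e, h⟩
      · rw [e, rIf_true]
        omega
      · rw [e, rIf_false]
        omega
    have hc1 : fb x + 1 ≤ fa x + (fb x + 1 - fa x) := by omega
    generalize fa x + (fb x + 1 - fa x) = c at ec hr hc1
    obtain ⟨g, h1, h2, h3⟩ := lp_stepA (w := 23 * c) (b' := fb x) (row := fun i => Nat.land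
      (Nat.shiftRight M (Nat.mul 23 i)) (rep (23 * c) (fb x) * 8388607)) (by omega)
      hb2 hZ hF hF0 hd hA (fun i hi => row1_eq hM hi hk ec) hrf
    rw [e0, rIf_false, hP] at hr
    have h4 : r = pk (23 * c) (fb x) g % (2 ^ (23 * c) - 8388608) := by
      rw [← h1]
      exact hr
    have h5 : SRep 22 c (fb x) (pk (23 * c) (fb x) g) g := ⟨rfl, fun j hj => by
      have := h2 j hj
      omega⟩
    have h6 : Rep 22 (fb x) r g := by
      rw [h4]
      exact h5.compress hc1 (by omega)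
    refine ⟨⟨g, h6, h2⟩, fun i hi h j hj => ?_⟩
    rw [PB.fl_eq h6 hj]
    exact h3 i hi h j hj

/-- The step with the lanes given by digits. -/
theorem adH_dig {Z F x M : ℕ} {d : ℕ → ℕ} (hb : 0 < fa x) (hZ : HB 22 (fa x) Z F)
    (hM : HB 22 (nX x) M (2 ^ 17)) (hb' : 0 < fb x) (hF : F + 2 ^ 17 ≤ 2 ^ 22)
    (hF0 : 2 ^ 20 ≤ F) (hd : ∀ i < fa x, d i ≤ 1) {r : ℕ}
    (hr : r = Hy.adH x M Z (pk 23 (fa x) (fun i => 4194304 * d i))
      (pk 23 (fa x) (fun i => 4194304 * d i))) :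
    HB 22 (fb x) r (F + 2 ^ 16) ∧
      ∀ i < fa x, d i = 1 → ∀ j < fb x,
        PB.fl 22 Z i + PB.fl 22 M (plX x i j) ≤ PB.fl 22 r j + 65536 := by
  have ht := shift_dig (n := fa x) d
  have e1 : Hy.adH x M Z (pk 23 (fa x) (fun i => 4194304 * d i))
      (pk 23 (fa x) (fun i => 4194304 * d i)) = Hy.adJ x M Z
        (pk 23 (fa x) (fun i => 4194304 * d i))
        (Nat.shiftRight (pk 23 (fa x) (fun i => 4194304 * d i)) 22) := rfl
  rw [e1, ht] at hr
  have h1 := adX_specA (A := pk 23 (fa x) (fun i => 4194304 * d i)) Hy.pP_eq hb hZ hM hb' hF hF0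
    hd (fun i hi h => zg_dig hZ hd hi h) rfl
  have e2 : Hy.adJ x M Z (pk 23 (fa x) (fun i => 4194304 * d i)) (pk 23 (fa x) d) =
    Bool.rec (motive := fun _ => ℕ)
    (Bool.rec (motive := fun _ => ℕ)
      (Hy.s1 x M (Z + pk 23 (fa x) (fun i => 4194304 * d i)) (pk 23 (fa x) d))
      (Hy.m1 x M Z (pk 23 (fa x) d)) (Nat.ble 4 (Nat.mod (pk 23 (fa x) d) 8388607)))
    (Bool.rec (motive := fun _ => ℕ)
      (Hy.s0 x M (Z + pk 23 (fa x) (fun i => 4194304 * d i)) (pk 23 (fa x) d))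
      (Hy.m0 x M Z (pk 23 (fa x) d))
      (Nat.ble (Nat.add (Hy.nL x) 3) (Nat.mod (pk 23 (fa x) d) 8388607)))
    (Nat.beq (Nat.mod x 2) 0) := rfl
  rw [e2] at hr
  rcases fk_two x with ⟨e0, hk⟩ | ⟨e0, hk⟩
  · rw [e0] at hr
    cases hc : Nat.ble (Nat.add (Hy.nL x) 3) (Nat.mod (pk 23 (fa x) d) 8388607) with
    | false =>
      rw [hc] at hr
      have hr2 : r = Hy.s0 x M (Z + pk 23 (fa x) (fun i => 4194304 * d i)) (pk 23 (fa x) d) := hr
      rw [hr2, Hy.s0_eq e0]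
      exact h1
    | true =>
      rw [hc] at hr
      have hr2 : r = Hy.m0 x M Z (pk 23 (fa x) d) := hr
      rw [hr2]
      exact Hy.m0_spec hb hk hZ hM hF hF0 hd
  · rw [e0] at hr
    cases hc : Nat.ble 4 (Nat.mod (pk 23 (fa x) d) 8388607) with
    | false =>
      rw [hc] at hr
      have hr2 : r = Hy.s1 x M (Z + pk 23 (fa x) (fun i => 4194304 * d i)) (pk 23 (fa x) d) := hr
      rw [hr2, Hy.s1_eq e0]
      exact h1
    | true =>
      rw [hc] at hr
      have hr2 : r = Hy.m1 x M Z (pk 23 (fa x) d) := hr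
      rw [hr2]
      exact Hy.m1_spec hb hb' hk hZ hM hF hF0 hd

/-- (A7) the backward step with the lanes given by digits -/
theorem back_dig {Z F x M : ℕ} {d : ℕ → ℕ} (ha : 0 < fa x) (hb : 0 < fb x) (hb2 : fb x < 256)
    (hZ : HB 22 (fb x) Z F) (hM : HB 22 (nX x) M (2 ^ 17)) (hF : F + 2 ^ 17 ≤ 2 ^ 22)
    (hF0 : 2 ^ 20 ≤ F) (hd : ∀ i < fb x, d i ≤ 1) :
    HB 22 (fa x) (Hy.adH (Hy.trX x) M Z (pk 23 (fb x) (fun i => 4194304 * d i))
      (pk 23 (fb x) (fun i => 4194304 * d i))) (F + 2 ^ 16) ∧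
      ∀ j < fb x, d j = 1 → ∀ i < fa x, PB.fl 22 Z j + PB.fl 22 M (plX x i j) ≤
        PB.fl 22 (Hy.adH (Hy.trX x) M Z (pk 23 (fb x) (fun i => 4194304 * d i))
          (pk 23 (fb x) (fun i => 4194304 * d i))) i + 65536 := by
  have h := adH_dig (x := Hy.trX x) (M := M) (Z := Z) (F := F) (d := d)
    (by rw [Hy.fa_trX hb2]; exact hb) (by rw [Hy.fa_trX hb2]; exact hZ)
    (by rw [Hy.nX_trX hb2]; exact hM) (by rw [Hy.fb_trX hb2]; exact ha) hF hF0
    (by rw [Hy.fa_trX hb2]; exact hd) rfl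
  rw [Hy.fa_trX hb2, Hy.fb_trX hb2] at h
  refine ⟨h.1, fun j hj hdj i hi => ?_⟩
  have h2 := h.2 j hj hdj i hi
  rwa [Hy.plX_trX hb2] at h2

end

end Pool.Agent.Lib.MP_5854e1_co.FC
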