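import Pool.Agent.Lib.MP_5854e1_co.Fcl1

/-!
# The fast evaluation of a closed word: soundness

If the evaluation of a closed word is true then the sum of the steps of a cell is at most the sum of
its corrections plus a value for which the last test of the word is true.
-/

set_option autoImplicit false

namespace Pool.Agent.Lib.MP_5854e1_co.FC

open Pk PB CE Finset

noncomputable section

/-! ### Lists -/

/-- The list has the entry. -/
inductive In (m w i tR : ℕ) (c : LR) : CL → Prop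
  | hd (l : CL) : In m w i tR c (CL.cons m w i tR c l)
  | tl {m' w' i' tR' : ℕ} {c' : LR} {l : CL} (h : In m w i tR c l) :
      In m w i tR c (CL.cons m' w' i' tR' c' l)

section

variable {m w i tR : ℕ} {c : LR} {l : CL}

theorem In.le_pm (h : In m w i tR c l) : w ≤ pm l := by
  induction h with
  | hd l =>
    show w ≤ w + (pm l - w)
    omega
  | @tl m' w' i' tR' c' l h ih =>
    show w ≤ w' + (pm l - w')
    omega

theorem In.le_vl (g : ℕ → ℕ) (h : In m w i tR c l) : w ≤ vl g l + g tR := by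
  induction h with
  | hd l =>
    show w ≤ vl g l + (w - g tR - vl g l) + g tR
    omega
  | @tl m' w' i' tR' c' l h ih =>
    show w ≤ vl g l + (w' - g tR' - vl g l) + g tR
    omega

theorem vl_le_pm (g : ℕ → ℕ) (l : CL) : vl g l ≤ pm l := by
  induction l with
  | nil => exact le_rfl
  | cons m w i tR c l ih =>
    show vl g l + (w - g tR - vl g l) ≤ w + (pm l - w)
    omega

theorem pm_cons_lt {m w i tR : ℕ} {c : LR} {l : CL} {β : ℕ} (h1 : w < β) (h2 : pm l < β) :
    pm (CL.cons m w i tR c l) < β := by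
  show w + (pm l - w) < β
  omega

/-- The loop over the next lanes. -/
theorem In.dl (h : In m w i tR c l) {f : ℕ → LR → ℕ → ℕ → Bool} {thr : ℕ} {fan : ℕ → ℕ} {zl : DL}
    {tX A : ℕ} (h1 : dl f thr fan zl tX A l = true)
    (h2 : thr + (fan tR + zv zl c tX) < A + w) : f i c (A + m - (fan tR + zv zl c tX)) tR = true := by
  induction h with
  | hd l =>
    have h3 : Bool.rec (motive := fun _ => Bool) (Bool.rec (motive := fun _ => Bool) false
        (FC.dl f thr fan zl tX A l) (f i c (A + m - (fan tR + zv zl c tX)) tR))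
        (FC.dl f thr fan zl tX A l) (Nat.ble (A + w - (fan tR + zv zl c tX)) thr) = true := h1
    have hb : Nat.ble (A + w - (fan tR + zv zl c tX)) thr = false := by
      rw [Bool.eq_false_iff]
      intro h
      have := Nat.le_of_ble_eq_true h
      omega
    rw [hb] at h3
    cases hf : f i c (A + m - (fan tR + zv zl c tX)) tR with
    | true => rfl
    | false =>
      rw [hf] at h3
      exact h3
  | @tl m' w' i' tR' c' l h ih =>
    have h3 : Bool.rec (motive := fun _ => Bool) (Bool.rec (motive := fun _ => Bool) false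
        (FC.dl f thr fan zl tX A l) (f i' c' (A + m' - (fan tR' + zv zl c' tX)) tR'))
        (FC.dl f thr fan zl tX A l) (Nat.ble (A + w' - (fan tR' + zv zl c' tX)) thr) = true := h1
    refine ih ?_
    cases hb : Nat.ble (A + w' - (fan tR' + zv zl c' tX)) thr with
    | true =>
      rw [hb] at h3
      exact h3
    | false =>
      rw [hb] at h3
      cases hf : f i' c' (A + m' - (fan tR' + zv zl c' tX)) tR' with
      | true =>
        rw [hf] at h3
        exact h3
      | false =>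
        rw [hf] at h3
        exact absurd h3 Bool.false_ne_true

end

/-! ### Records -/

/-- The corrections of a corner with the left tokens `ta`, `tc`. -/
def LR.ho (ta tc : ℕ) : LR → FO
  | LR.t _ _ _ _ _ _ H => H ta
  | LR.o _ H => H tc
  | _ => FO.n

theorem fn_eq (ta tc : ℕ) (c : LR) : fn ta tc c = fv (c.ho ta tc) := by
  cases c <;> rfl

section

variable {f1 : ℕ → ℕ} {f2 : ℕ → (ℕ → ℕ) → ℕ} {vv : ℕ → ℕ} {ta tc : ℕ} {q : Bool} {m i : ℕ}

/-- The entries in front. -/
theorem pr_keep {P : CL → Prop} (hP : ∀ m w i tR c l, P l → P (CL.cons m w i tR c l)) (L : LR) :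
    ∀ l, P l → P (pr f1 f2 vv ta tc q m i L l) := by
  induction L with
  | t s xa a b c d H => exact fun l h => hP _ _ _ _ _ _ h
  | p s xa a b c d => exact fun l h => hP _ _ _ _ _ _ h
  | z => exact fun l h => hP _ _ _ _ _ _ h
  | o u H =>
    intro l h
    show P (Bool.rec (motive := fun _ => CL)
      (CL.cons (vv u) (vt f1 f2 i (H tc) + vv u) i 0 (LR.o u H) l) l (Nat.ble (Nat.succ m) (vv u)))
    cases Nat.ble (Nat.succ m) (vv u) with
    | true => exact h
    | false => exact hP _ _ _ _ _ _ h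
  | b x y w hx hy hz => exact fun l h => hx _ (hy _ (hz _ h))

theorem pr_keep_in {m' w' i' tR' : ℕ} {c' : LR} (L : LR) (l : CL) (h : In m' w' i' tR' c' l) :
    In m' w' i' tR' c' (pr f1 f2 vv ta tc q m i L l) :=
  pr_keep (P := In m' w' i' tR' c') (fun _ _ _ _ _ _ h => In.tl h) L l h

/-- The list has the possibilities of the record. -/
theorem pr_in {c L : LR} (h : Opt c L) (hm : c.mv vv m ≤ m) : ∀ l : CL,
    In (c.mv vv m) (vt f1 f2 i (c.ho ta tc) + c.mv vv m) i (c.rt q) c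
      (pr f1 f2 vv ta tc q m i L l) := by
  induction h with
  | t s xa a b c d H => exact fun l => In.hd l
  | p s xa a b c d => exact fun l => In.hd l
  | z => exact fun l => In.hd l
  | o u H =>
    intro l
    have hm' : vv u ≤ m := hm
    have hb : Nat.ble (Nat.succ m) (vv u) = false := by
      rw [Bool.eq_false_iff]
      intro h
      have := Nat.le_of_ble_eq_true h
      omega
    show In (vv u) (vt f1 f2 i (H tc) + vv u) i 0 (LR.o u H) (Bool.rec (motive := fun _ => CL)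
      (CL.cons (vv u) (vt f1 f2 i (H tc) + vv u) i 0 (LR.o u H) l) l (Nat.ble (Nat.succ m) (vv u)))
    rw [hb]
    exact In.hd l
  | x h hb ih => exact fun l => ih hm _
  | @y c e f g h hb ih =>
    exact fun l => pr_keep_in e (pr f1 f2 vv ta tc q m i f (pr f1 f2 vv ta tc q m i g l)) (ih hm _)
  | @w c e f g h hb ih =>
    exact fun l => pr_keep_in e (pr f1 f2 vv ta tc q m i f (pr f1 f2 vv ta tc q m i g l))
      (pr_keep_in f (pr f1 f2 vv ta tc q m i g l) (ih hm _))

/-- The bound of the entries. -/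
theorem pr_bd {β β' : ℕ} (h1 : ∀ h, vt f1 f2 i h < β') (hm : m < 2 ^ 17) (hβ : β' + 2 ^ 17 ≤ β)
    (L : LR) : ∀ l, pm l < β → pm (pr f1 f2 vv ta tc q m i L l) < β := by
  have hn := h1 FO.n
  have hn' : f1 i < β' := hn
  induction L with
  | t s xa a b c d H =>
    intro l h
    have h2 := h1 (H ta)
    exact pm_cons_lt (show vt f1 f2 i (H ta) + m < β by omega) h
  | p s xa a b c d =>
    intro l h
    exact pm_cons_lt (show f1 i + m < β by omega) h
  | z =>
    intro l h
    exact pm_cons_lt (show f1 i + m < β by omega) h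
  | o u H =>
    intro l h
    show pm (Bool.rec (motive := fun _ => CL)
      (CL.cons (vv u) (vt f1 f2 i (H tc) + vv u) i 0 (LR.o u H) l) l
        (Nat.ble (Nat.succ m) (vv u))) < β
    cases hb : Nat.ble (Nat.succ m) (vv u) with
    | true => exact h
    | false =>
      have h2 := h1 (H tc)
      have h3 : ¬ m + 1 ≤ vv u := fun h => by
        rw [Nat.ble_eq_true_of_le h] at hb
        exact absurd hb.symm Bool.false_ne_true
      exact pm_cons_lt (show vt f1 f2 i (H tc) + vv u < β by omega) h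
  | b x y w hx hy hz => exact fun l h => hx _ (hy _ (hz _ h))

end

theorem vt_lt {f1 : ℕ → ℕ} {f2 : ℕ → (ℕ → ℕ) → ℕ} {i β : ℕ} (h1 : f1 i < β) (h2 : ∀ g, f2 i g < β)
    (h : FO) : vt f1 f2 i h < β := by
  cases h with
  | n => exact h1
  | f g => exact h2 g

theorem big_tok {c : LR} (h : c.big = true) : c.la = 0 ∧ c.lc = 0 := by
  cases c with
  | t => exact absurd h Bool.false_ne_true
  | p => exact absurd h Bool.false_ne_true
  | z => exact ⟨rfl, rfl⟩
  | o => exact ⟨rfl, rfl⟩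
  | b => exact ⟨rfl, rfl⟩

theorem Opt.tok {c L : LR} (h : Opt c L) : L.la = c.la ∧ L.lc = c.lc ∧ L.big = c.big := by
  cases h with
  | t => exact ⟨rfl, rfl, rfl⟩
  | p => exact ⟨rfl, rfl, rfl⟩
  | z => exact ⟨rfl, rfl, rfl⟩
  | o => exact ⟨rfl, rfl, rfl⟩
  | x h hb => exact ⟨(big_tok hb).1.symm, (big_tok hb).2.symm, hb.symm⟩
  | y h hb => exact ⟨(big_tok hb).1.symm, (big_tok hb).2.symm, hb.symm⟩
  | w h hb => exact ⟨(big_tok hb).1.symm, (big_tok hb).2.symm, hb.symm⟩

theorem Opt.refl {c L : LR} (h : Opt c L) : Opt c c := by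
  induction h with
  | t s xa a b c d H => exact Opt.t s xa a b c d H
  | p s xa a b c d => exact Opt.p s xa a b c d
  | z => exact Opt.z
  | o u H => exact Opt.o u H
  | x h hb ih => exact ih
  | y h hb ih => exact ih
  | w h hb ih => exact ih

theorem ml_eq {f1 : ℕ → ℕ} {f2 : ℕ → (ℕ → ℕ) → ℕ} {vv : ℕ → ℕ → ℕ} {E E0 : ℕ → LR} {rX : ℕ → ℕ}
    {R Z B P i : ℕ} : ml f1 f2 vv E E0 rX R Z B P i =
      lop f1 f2 (vv i) E (rX i) (E0 i).la (E0 i).lc (E0 i).big
        (cnd R B P (rX i) (Nat.shiftRight Z (Nat.mul 23 i))) := by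
  unfold ml
  generalize E0 i = L
  cases L <;> rfl

theorem tk_true {zt : DT} {k : ℕ} {c : LR} {f : ℕ → ℕ → ℕ → (LR → DL) → Bool}
    (h : tk zt k c f = true) : f c.la c.lc c.lx (c.zr zt k) = true := by
  cases c with
  | t => exact h
  | p => exact h
  | z => exact h
  | o => exact h
  | b => exact absurd h Bool.false_ne_true

theorem alt_sound {f : LR → Bool} {c L : LR} (h : Opt c L) (h1 : alt f L = true) : f c = true := by
  induction h with
  | t => exact h1
  | p => exact h1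
  | z => exact h1
  | o => exact h1
  | x h hb ih => exact ih (rAnd_iff.1 h1).1
  | y h hb ih => exact ih (rAnd_iff.1 (rAnd_iff.1 h1).2).1
  | w h hb ih => exact ih (rAnd_iff.1 (rAnd_iff.1 h1).2).2

/-! ### Digits -/

theorem dig_ne {n i : ℕ} {d : ℕ → ℕ} (hd : ∀ i < n, d i ≤ 1) (hi : i < n) (h : d i = 1) :
    pk 23 n (fun i => 4194304 * d i) ≠ 0 := by
  intro h0
  have h1 : ∀ i < n, 4194304 * d i < 2 ^ 23 := fun i hi => by
    have := hd i hi
    omega
  have h2 := pk_field h1 hi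
  rw [h0, h, Nat.zero_div, Nat.zero_mod] at h2
  omega

theorem alv_dig {n Z F : ℕ} (h : HB 22 n Z F) : alv (rep 23 n) Z =
    pk 23 n (fun i => 4194304 * (if 2 ^ 20 ≤ PB.fl 22 Z i then 1 else 0)) := by
  rw [alv_eq h]
  refine pk_congr fun i _ => ?_
  split_ifs <;> norm_num

theorem aDig_le (Z i : ℕ) : (if 2 ^ 20 ≤ PB.fl 22 Z i then 1 else 0) ≤ 1 := by
  split_ifs <;> omega

theorem hb_pk {n F : ℕ} {f : ℕ → ℕ} (h : ∀ i < n, f i < F) (hF : F ≤ 2 ^ 22) :
    HB 22 n (pk 23 n f) F ∧ ∀ i < n, PB.fl 22 (pk 23 n f) i = f i := by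
  have h1 : Rep 22 n (pk 23 n f) f := ⟨rfl, fun i hi => lt_of_lt_of_le (h i hi) hF⟩
  exact ⟨⟨f, h1, h⟩, fun i hi => PB.fl_eq h1 hi⟩

theorem pk_one : ∀ (n r v : ℕ), r < n → pk 23 n (fun i => if i = r then v else 0) =
    2 ^ (23 * r) * v := by
  intro n
  induction n with
  | zero => intro r v h; exact absurd h (Nat.not_lt_zero _)
  | succ n ih =>
    intro r v h
    rw [pk_succ]
    cases r with
    | zero =>
      have e : pk 23 n (fun i => if i + 1 = 0 then v else 0) = 0 := by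
        have e2 : pk 23 n (fun i => if i + 1 = 0 then v else 0) = pk 23 n (fun _ => 0) :=
          pk_congr fun i _ => if_neg (Nat.succ_ne_zero i)
        rw [e2]
        exact (Rep.zero (v := 22) (n := n)).eq.symm
      rw [e, if_pos rfl, mul_zero, pow_zero, one_mul]
      simp
    | succ r =>
      have e2 : pk 23 n (fun i => if i + 1 = r + 1 then v else 0) =
          pk 23 n (fun i => if i = r then v else 0) :=
        pk_congr fun i _ => by simp only [Nat.add_right_cancel_iff]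
      rw [e2, ih r v (by omega), if_neg (by omega)]
      have e3 : 2 ^ (23 * (r + 1)) = 2 ^ 23 * 2 ^ (23 * r) := by
        rw [← pow_add]
        congr 1
        ring
      rw [e3]
      ring

/-! ### The sums of a cell -/

section sums

variable (zt : DT) (b : ℕ) (k : ℕ → ℕ) (c : ℕ → LR) (r : ℕ → ℤ)

/-- The correction of the corner `u + 1`. -/
def ph (u : ℕ) : ℕ := phi (c u) (c (u + 1)) (c (u + 2))

/-- The correction of the window with the corners `u + 1`, `u + 2`. -/
def om (u : ℕ) : ℕ := omega zt (k (u + 1)) (c u) (c (u + 1)) (c (u + 2)) (c (u + 3))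

/-- The correction at the node `u` of the enumeration. -/
def psi : ℕ → ℕ
  | 0 => 0
  | 1 => ph c 0
  | u + 2 => ph c (u + 1) + om zt k c u

/-- The correction of the corner `u + 1` in the pass back. -/
def phb (u : ℕ) : ℕ := if u + 1 < b then ph c u else 0

/-- The sum of the steps. -/
def Rs (t : ℕ) : ℤ := ∑ u ∈ range t, r (u + 1)

/-- The sum of the steps with the corrections of the corners. -/
def Gs (t : ℕ) : ℤ := ∑ u ∈ range t, (r (u + 1) - phb b c u)

/-- The sum of the steps with the corrections of the enumeration. -/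
def Hq (t : ℕ) : ℤ := ∑ u ∈ range t, (r (u + 1) - psi zt k c u)

variable {zt b k c r}

theorem ph_le_psi (u : ℕ) : ph c u ≤ psi zt k c (u + 1) := by
  cases u with
  | zero => exact le_rfl
  | succ u => exact Nat.le_add_right _ _

theorem phb_le (u : ℕ) : phb b c u ≤ ph c u := by
  unfold phb
  split_ifs
  · exact le_rfl
  · exact Nat.zero_le _

theorem Rs_succ (t : ℕ) : Rs r (t + 1) = Rs r t + r (t + 1) := sum_range_succ _ _

theorem Gs_succ (t : ℕ) : Gs b c r (t + 1) = Gs b c r t + (r (t + 1) - phb b c t) :=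
  sum_range_succ _ _

theorem Hq_succ (t : ℕ) : Hq zt k c r (t + 1) = Hq zt k c r t + (r (t + 1) - psi zt k c t) :=
  sum_range_succ _ _

theorem Gs_le_Rs (t : ℕ) : Gs b c r t ≤ Rs r t := by
  refine sum_le_sum fun u _ => ?_
  have : (0 : ℤ) ≤ phb b c u := Int.natCast_nonneg _
  linarith

theorem Hq_le : ∀ n t, t + n + 1 = b →
    Hq zt k c r b ≤ Hq zt k c r t - psi zt k c t + (Gs b c r b - Gs b c r t) := by
  intro n
  induction n with
  | zero =>
    intro t ht
    obtain rfl : b = t + 1 := by omega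
    have e : phb (t + 1) c t = 0 := if_neg (by omega)
    rw [Hq_succ, Gs_succ, e]
    push_cast
    linarith
  | succ n ih =>
    intro t ht
    have h := ih (t + 1) (by omega)
    have h1 : (phb b c t : ℤ) ≤ psi zt k c (t + 1) := by
      exact_mod_cast (phb_le t).trans (ph_le_psi t)
    rw [Hq_succ, Gs_succ] at h
    linarith

/-- The sum of the corrections of the enumeration. -/
theorem Hq_top (hb : 3 ≤ b) : Hq zt k c r b + corr zt b k c = Rs r b + (ph c (b - 1) +
    (omega zt (k (b - 1)) (c (b - 2)) (c (b - 1)) (c b) (c 1) +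
      omega zt (k b) (c (b - 1)) (c b) (c 1) (c 2))) := by
  obtain ⟨n, rfl⟩ : ∃ n, b = n + 3 := ⟨b - 3, by omega⟩
  have h1 : ∑ u ∈ range (n + 3), (psi zt k c u : ℤ) =
      ∑ u ∈ range (n + 2), (ph c u : ℤ) + ∑ u ∈ range (n + 1), (om zt k c u : ℤ) := by
    have h2 : ∀ m, ∑ u ∈ range (m + 2), (psi zt k c u : ℤ) =
        ∑ u ∈ range (m + 1), (ph c u : ℤ) + ∑ u ∈ range m, (om zt k c u : ℤ) := by
      intro m
      induction m with
      | zero =>
        simp only [sum_range_succ, sum_range_zero, zero_add, add_zero]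
        show (((0 : ℕ) : ℤ) + ((ph c 0 : ℕ) : ℤ)) = _
        push_cast
        ring
      | succ m ih =>
        have e5 : ∑ u ∈ range (m + 1), (om zt k c u : ℤ) =
            ∑ u ∈ range m, (om zt k c u : ℤ) + om zt k c m := sum_range_succ _ _
        have e6 : ∑ u ∈ range (m + 1 + 1), (ph c u : ℤ) =
            ∑ u ∈ range (m + 1), (ph c u : ℤ) + ph c (m + 1) := sum_range_succ _ _
        rw [sum_range_succ, ih, e5, e6]
        have e : (psi zt k c (m + 2) : ℤ) = ph c (m + 1) + om zt k c m := by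
          show ((ph c (m + 1) + om zt k c m : ℕ) : ℤ) = _
          push_cast
          rfl
        rw [e]
        ring
    exact h2 (n + 1)
  have e1 : Hq zt k c r (n + 3) = Rs r (n + 3) - ∑ u ∈ range (n + 3), (psi zt k c u : ℤ) := by
    unfold Hq Rs
    rw [sum_sub_distrib]
  have e2 : corr zt (n + 3) k c = ∑ u ∈ range (n + 3), ph c u +
      (∑ u ∈ range (n + 1), om zt k c u +
        (omega zt (k (n + 2)) (c (n + 1)) (c (n + 2)) (c (n + 3)) (c 1) +
          omega zt (k (n + 3)) (c (n + 2)) (c (n + 3)) (c 1) (c 2))) := rfl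
  rw [e1, e2, h1, sum_range_succ (n := n + 2)]
  have e3 : n + 3 - 1 = n + 2 := by omega
  have e4 : n + 3 - 2 = n + 1 := by omega
  rw [e3, e4]
  push_cast
  ring

end sums

/-- The number of lanes of the pair `t`. -/
def nn (b : ℕ) (x : ℕ → ℕ) (t : ℕ) : ℕ := if t < b then fa (x (t + 1)) else fb (x t)

/-- The stack is correct. -/
inductive Good (k o x M i : ℕ → ℕ) (r : ℕ → ℤ) : ℕ → SK → Prop
  | nil : Good k o x M i r 0 SK.nil
  | cons {t : ℕ} {st : SK} {Z : ℕ} (h : Good k o x M i r t st)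
      (hZ : HB 22 (fa (x (t + 1))) Z (1048577 + t * 65536))
      (h1 : 1048576 + Rs r t ≤ (PB.fl 22 Z (i t) : ℤ)) :
      Good k o x M i r (t + 1) (SK.cons (k t) (o t) (x (t + 1)) (M (t + 1)) Z
        (alv (rep 23 (fa (x (t + 1)))) Z) st)

namespace Cell

variable {E : ℕ → ℕ → ℕ → LR} {vx : ℕ → ℕ → ℕ → ℕ → ℕ → ℕ → ℕ} {b : ℕ} {k o x M i : ℕ → ℕ}
  {c : ℕ → LR} {r : ℕ → ℤ}

theorem Rs_nonneg (C : Cell E vx b k o x M i c r) (hR : 0 < Rs r b) {t : ℕ} (ht : t ≤ b) :
    0 ≤ Rs r t := by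
  cases t with
  | zero => exact le_of_eq (sum_range_zero _).symm
  | succ t =>
    by_cases h : t + 1 < b
    · exact (C.pos t h).le
    · obtain rfl : b = t + 1 := by omega
      exact hR.le

theorem ent_ge (C : Cell E vx b k o x M i c r) {t : ℕ} (ht : t < b) :
    r (t + 1) + 65536 ≤ (PB.fl 22 (M (t + 1)) (plX (x (t + 1)) (i t) (i (t + 1))) : ℤ) := by
  have h1 := C.adm t ht
  have h2 := C.step t ht
  have h3 : ((LR.mv (vx (k t) (o t) (i t) (k (t + 1)) (o (t + 1)))
    (ent (x (t + 1)) (M (t + 1)) (i t) (i (t + 1))) (c (t + 1)) : ℕ) : ℤ) ≤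
      (ent (x (t + 1)) (M (t + 1)) (i t) (i (t + 1)) : ℕ) := by exact_mod_cast h1
  exact h2.trans h3

theorem nn_succ (C : Cell E vx b k o x M i c r) (t : ℕ) :
    nn b x (t + 1) = fb (x (t + 1)) := by
  unfold nn
  split_ifs with h
  · exact (C.dim t h).symm
  · rfl

theorem fw_cons (fin : ℕ → SK → Bool) (k o x M : ℕ) (W : Wd) (Z A : ℕ) (st : SK) :
    fw fin (Wd.cons k o x M W) Z A st = Bool.rec (motive := fun _ => Bool)
      (rLit (Hy.adH x M Z A A) fun Z' => rLit (Hy.adB x Z') fun A' =>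
        fw fin W Z' A' (SK.cons k o x M Z A st)) true (Nat.beq A (nat_lit 0)) := rfl

theorem fw_step {fin : ℕ → SK → Bool} {k o x M : ℕ} {W : Wd} {Z A : ℕ} {st : SK}
    (h : fw fin (Wd.cons k o x M W) Z A st = true) (hA : A ≠ 0) :
    fw fin W (Hy.adH x M Z A A) (alv (rep 23 (fb x)) (Hy.adH x M Z A A))
      (SK.cons k o x M Z A st) = true := by
  have hb : Nat.beq A (nat_lit 0) = false := by
    rw [Bool.eq_false_iff]
    intro h
    exact hA (Nat.eq_of_beq_eq_true h)
  rw [fw_cons, hb] at h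
  have h2 : (rLit (Hy.adH x M Z A A) fun Z' => rLit (Hy.adB x Z') fun A' =>
    fw fin W Z' A' (SK.cons k o x M Z A st)) = true := h
  rw [rLit_eq, rLit_eq, Hy.adB_eq] at h2
  exact h2

theorem nn_lt {t : ℕ} (ht : t < b) : nn b x t = fa (x (t + 1)) := if_pos ht

/-- A pass. -/
theorem fw_sound (C : Cell E vx b k o x M i c r) (hR : 0 < Rs r b) {fin : ℕ → SK → Bool} :
    ∀ (n t Z : ℕ) (st : SK), n + t = b → Good k o x M i r t st →
    HB 22 (nn b x t) Z (1048577 + t * 65536) → 1048576 + Rs r t ≤ (PB.fl 22 Z (i t) : ℤ) →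
    fw fin (CE.Cell.wd b k o x M n) Z (alv (rep 23 (nn b x t)) Z) st = true →
    ∃ Z' st', Good k o x M i r b st' ∧ HB 22 (nn b x b) Z' (1048577 + b * 65536) ∧
      1048576 + Rs r b ≤ (PB.fl 22 Z' (i b) : ℤ) ∧
      fin (alv (rep 23 (nn b x b)) Z') st' = true := by
  intro n
  induction n with
  | zero =>
    intro t Z st hn hg hZ hv h
    obtain rfl : t = b := by omega
    exact ⟨Z, st, hg, hZ, hv, h⟩
  | succ n ih =>
    intro t Z st hn hg hZ hv h
    have ht : t < b := by omega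
    have e1 : b - (n + 1) = t := by omega
    have e2 : b - n = t + 1 := by omega
    rw [nn_lt ht] at hZ h
    have hR0 := C.Rs_nonneg hR ht.le
    have hal : 2 ^ 20 ≤ PB.fl 22 Z (i t) := by
      have : ((2 ^ 20 : ℕ) : ℤ) ≤ (PB.fl 22 Z (i t) : ℤ) := by
        have e : ((2 ^ 20 : ℕ) : ℤ) = 1048576 := by norm_num
        rw [e]
        linarith
      exact_mod_cast this
    have hne : alv (rep 23 (fa (x (t + 1)))) Z ≠ 0 := by
      rw [alv_dig hZ]
      exact dig_ne (fun j _ => aDig_le Z j) (C.i_lt t ht) (if_pos hal)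
    have e3 : CE.Cell.wd b k o x M (n + 1) =
        Wd.cons (k t) (o t) (x (t + 1)) (M (t + 1)) (CE.Cell.wd b k o x M n) := by
      rw [CE.Cell.wd, e1, e2]
    rw [e3] at h
    have h0 := fw_step h hne
    have hbl := C.b_le
    obtain ⟨h3, h4⟩ := Hy.full_step (x := x (t + 1)) (M := M (t + 1)) (C.fa_pos t ht) hZ
      (C.hb t ht) (C.fb_pos t ht) (by omega) (by omega)
    have h5 := h4 (i t) (C.i_lt t ht) hal (i (t + 1)) (C.j_lt t ht)
    have hent := C.ent_ge ht
    generalize Hy.adH (x (t + 1)) (M (t + 1)) Z (alv (rep 23 (fa (x (t + 1)))) Z)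
      (alv (rep 23 (fa (x (t + 1)))) Z) = Z' at h0 h3 h4 h5
    have h5' : (PB.fl 22 Z (i t) : ℤ) +
        PB.fl 22 (M (t + 1)) (plX (x (t + 1)) (i t) (i (t + 1))) ≤
        PB.fl 22 Z' (i (t + 1)) + 65536 := by exact_mod_cast h5
    refine ih (t + 1) Z' _ (by omega) (Good.cons hg hZ hv) ?_ ?_ ?_
    · rw [C.nn_succ t]
      refine h3.mono ?_
      omega
    · rw [Rs_succ]
      linarith
    · rw [C.nn_succ t]
      exact h0

theorem alv_all (n : ℕ) : HB 22 n (oneB n * 1048576) (1048577 + 0 * 65536) ∧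
    (∀ i < n, PB.fl 22 (oneB n * 1048576) i = 1048576) ∧
    alv (rep 23 n) (oneB n * 1048576) = oneB n * 4194304 := by
  have e : oneB n * 1048576 = pk 23 n (fun _ => 1048576) := by
    rw [oneB_eq, mul_comm, const_eq (by norm_num)]
  have h := hb_pk (n := n) (F := 1048577 + 0 * 65536) (f := fun _ => 1048576)
    (fun _ _ => by norm_num) (by norm_num)
  rw [← e] at h
  refine ⟨h.1, h.2, ?_⟩
  have e' : oneB n * 4194304 = pk 23 n (fun _ => 4194304) := by
    rw [oneB_eq, mul_comm, const_eq (by norm_num)]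
  rw [e', alv_dig h.1]
  refine pk_congr fun i hi => ?_
  rw [h.2 i hi, if_pos (by norm_num), mul_one]

theorem alv_one {n r : ℕ} (hr : r < n) : HB 22 n (2 ^ (23 * r + 20)) (1048577 + 0 * 65536) ∧
    PB.fl 22 (2 ^ (23 * r + 20)) r = 1048576 ∧
    alv (rep 23 n) (2 ^ (23 * r + 20)) = 2 ^ (23 * r + 22) := by
  have e : 2 ^ (23 * r + 20) = pk 23 n (fun i => if i = r then 1048576 else 0) := by
    rw [pk_one n r 1048576 hr, pow_add]
    norm_num
  have h := hb_pk (n := n) (F := 1048577 + 0 * 65536) (f := fun i => if i = r then 1048576 else 0)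
    (fun i _ => by split_ifs <;> norm_num) (by norm_num)
  rw [← e] at h
  refine ⟨h.1, ?_, ?_⟩
  · rw [h.2 r hr, if_pos rfl]
  · have e2 : 2 ^ (23 * r + 22) = pk 23 n (fun i => if i = r then 4194304 else 0) := by
      rw [pk_one n r 4194304 hr, pow_add]
      norm_num
    rw [alv_dig h.1, e2]
    refine pk_congr fun i hi => ?_
    rw [h.2 i hi]
    by_cases hi2 : i = r
    · rw [if_pos hi2, if_pos hi2, if_pos (by norm_num)]
    · rw [if_neg hi2, if_neg hi2, if_neg (by norm_num)]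

/-- The two passes forward. -/
theorem cw_sound (C : Cell E vx b k o x M i c r) (hR : 0 < Rs r b) {g : ℕ → ℕ → SK → Bool}
    (h : cw g (fa (x 1)) (CE.Cell.wd b k o x M b) = true) :
    ∃ Z st, Good k o x M i r b st ∧ HB 22 (nn b x b) Z (1048577 + b * 65536) ∧
      1048576 + Rs r b ≤ (PB.fl 22 Z (i b) : ℤ) ∧
      g (i b) (alv (rep 23 (nn b x b)) Z) st = true := by
  have hb := C.b_three
  have h0 : Rs r 0 = 0 := sum_range_zero _
  have en : nn b x 0 = fa (x 1) := nn_lt (by omega)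
  have hi0 : i 0 < nn b x 0 := by
    rw [en]
    exact C.i_lt 0 (by omega)
  obtain ⟨a1, a2, a3⟩ := alv_all (nn b x 0)
  have h1 : fw (fun A _ => lp (fun r => fw (g r) (CE.Cell.wd b k o x M b) (2 ^ (23 * r + 20))
      (2 ^ (23 * r + 22)) SK.nil) (Nat.mod (Nat.shiftRight A 22) 8388607) (Nat.shiftRight A 22))
      (CE.Cell.wd b k o x M b) (oneB (nn b x 0) * 1048576) (alv (rep 23 (nn b x 0))
        (oneB (nn b x 0) * 1048576)) SK.nil = true := by
    rw [a3, en]
    have h' := h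
    unfold cw at h'
    simp only [rLit_eq] at h'
    exact h'
  obtain ⟨Z1, st1, -, h3, h4, h5⟩ := C.fw_sound hR b 0 _ SK.nil (by omega) Good.nil a1 (by
    rw [a2 _ hi0, h0]
    norm_num) h1
  have hnb : nn b x b = fb (x b) := if_neg (Nat.lt_irrefl b)
  have hjb : i b < nn b x b := by
    have := C.j_lt (b - 1) (by omega)
    rw [show b - 1 + 1 = b by omega] at this
    rw [hnb]
    exact this
  have hlb : nn b x b ≤ 256 := by
    have := C.fb_lt (b - 1) (by omega)
    rw [show b - 1 + 1 = b by omega] at this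
    rw [hnb]
    exact this.le
  have h5' : lp (fun r => fw (g r) (CE.Cell.wd b k o x M b) (2 ^ (23 * r + 20))
      (2 ^ (23 * r + 22)) SK.nil) (Nat.mod (Nat.shiftRight (alv (rep 23 (nn b x b)) Z1) 22) 8388607)
      (Nat.shiftRight (alv (rep 23 (nn b x b)) Z1) 22) = true := h5
  rw [alv_dig h3, shift_dig] at h5'
  have h6 := lp_sound hlb (fun j _ => aDig_le Z1 j) h5' hjb (if_pos (by
    have e : ((2 ^ 20 : ℕ) : ℤ) = 1048576 := by norm_num
    have : ((2 ^ 20 : ℕ) : ℤ) ≤ (PB.fl 22 Z1 (i b) : ℤ) := by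
      rw [e]
      linarith
    exact_mod_cast this))
  have hi : i b < nn b x 0 := by
    rw [← C.i_per]
    exact hi0
  obtain ⟨b1, b2, b3⟩ := alv_one hi
  have h7 : fw (g (i b)) (CE.Cell.wd b k o x M b) (2 ^ (23 * i b + 20))
      (alv (rep 23 (nn b x 0)) (2 ^ (23 * i b + 20))) SK.nil = true := by
    rw [b3]
    exact h6
  exact C.fw_sound hR b 0 _ SK.nil (by omega) Good.nil b1 (by
    rw [C.i_per, b2, h0]
    norm_num) h7

end Cell

/-- The right token of the corner `t + 1`. -/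
def tok (c : ℕ → LR) (t : ℕ) : ℕ := (c (t + 1)).rt (c t).big

/-- The bound of the values of the rest of the word. -/
def Vs (b : ℕ) (c : ℕ → LR) (r : ℕ → ℤ) (t : ℕ) : ℤ :=
  1572864 + ((b : ℤ) - t) * 65536 + (Gs b c r b - Gs b c r t)

/-- The value of the step to the pair `t + 1`. -/
def mt (vx : ℕ → ℕ → ℕ → ℕ → ℕ → ℕ → ℕ) (k o x M i : ℕ → ℕ) (c : ℕ → LR) (t : ℕ) : ℕ :=
  (c (t + 1)).mv (vx (k t) (o t) (i t) (k (t + 1)) (o (t + 1)))
    (ent (x (t + 1)) (M (t + 1)) (i t) (i (t + 1)))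

/-- The first corners in reversed order. -/
def rp (k o : ℕ → ℕ) (c : ℕ → LR) : ℕ → Pth
  | 0 => Pth.nil
  | t + 1 => Pth.cons (k (t + 1)) (o (t + 1)) (sv (c (t + 1))) (rp k o c t)

theorem rv_cons (g : Pth → Bool) (k o s : ℕ) (p q : Pth) :
    rv g (Pth.cons k o s p) q = rLit s fun s' => rv g p (Pth.cons k o s' q) := rfl

theorem rv_rp {b : ℕ} {k o : ℕ → ℕ} {c : ℕ → LR} (g : Pth → Bool) : ∀ t, t < b →
    rv g (rp k o c t) (pt b k o (fun t => sv (c t)) (b - t)) =
      g (pt b k o (fun t => sv (c t)) b) := by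
  intro t
  induction t with
  | zero => intro _; rfl
  | succ t ih =>
    intro ht
    have e : pt b k o (fun t => sv (c t)) (b - t) = Pth.cons (k (t + 1)) (o (t + 1))
        (sv (c (t + 1))) (pt b k o (fun t => sv (c t)) (b - (t + 1))) :=
      (CE.Cell.pt_succ (k := k) (o := o) (s := fun t => sv (c t)) (by omega)).symm
    rw [rp, rv_cons, rLit_eq, ← e]
    exact ih (by omega)

section

variable (zt : DT) (vx : ℕ → ℕ → ℕ → ℕ → ℕ → ℕ → ℕ) (b : ℕ) (k o x M i : ℕ → ℕ) (c : ℕ → LR)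
  (r : ℕ → ℤ)

/-- The list knows the next lane. -/
def Ls (t : ℕ) (nl : ℕ → CL) : Prop :=
  ∃ w : ℕ, In (mt vx k o x M i c t) w (i (t + 1)) (tok c t) (c (t + 1)) (nl (i t)) ∧
    Vs b c r t ≤ w

/-- The enumeration from the node `t` on is correct. -/
def Sd (t : ℕ) (D : ℕ → Fn → Gt) : Prop :=
  ∀ s, t = s + 2 → ∀ (fin : Fn) (A : ℕ), (1048576 + t * 65536 + Hq zt k c r t : ℤ) ≤ A →
    D (2621440 + b * 65536) fin (i t) (c t) (fn (c (s + 1)).la (c (s + 1)).lc (c t))
      ((c (s + 1)).zr zt (k (s + 1)) (c t)) (c s).lx (c (s + 1)).lx A (rp k o c (s + 1)) = true →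
    ∃ A' : ℕ, (1048576 + b * 65536 + Hq zt k c r b : ℤ) ≤ A' ∧
      fin (fn (c (b - 1)).la (c (b - 1)).lc (c b)) ((c (b - 1)).zr zt (k (b - 1)) (c b))
        (c (b - 2)).lx (c (b - 1)).lx A' (rp k o c (b - 1)) = true

/-- The levels are correct. -/
inductive LevOK : ℕ → Lev → Prop
  | nil {t : ℕ} (h : t = b) : LevOK t Lev.nil
  | cons {t : ℕ} {nl : ℕ → CL} {D : ℕ → Fn → Gt} {W : Lev} (h : LevOK (t + 1) W)
      (hl : Ls vx b k o x M i c r t nl) (hD : Sd zt b k o i c r (t + 1) D) :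
      LevOK t (Lev.cons (k t) (o t) nl D W)

variable {zt vx b k o x M i c r}

theorem Sd_top : Sd zt b k o i c r b D0 := by
  intro s hs fin A hA h
  obtain ⟨n, rfl⟩ : ∃ n, b = n + 2 := ⟨s, hs⟩
  obtain rfl : n = s := by omega
  exact ⟨A, hA, h⟩

namespace Cell

variable {E : ℕ → ℕ → ℕ → LR}

theorem mt_ge (C : Cell E vx b k o x M i c r) {t : ℕ} (ht : t < b) :
    r (t + 1) + 65536 ≤ (mt vx k o x M i c t : ℤ) := C.step t ht

theorem Sd_step (C : Cell E vx b k o x M i c r) (hT : 0 < Hq zt k c r b) {t : ℕ} (ht : t < b)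
    {nl : ℕ → CL} (hl : Ls vx b k o x M i c r t nl) {D : ℕ → Fn → Gt}
    (hD : Sd zt b k o i c r (t + 1) D) : Sd zt b k o i c r t (DD zt (k t) (o t) nl D) := by
  rintro s rfl fin A hA h
  obtain ⟨w, hw, hv⟩ := hl
  have h1 := tk_true h
  have hm := C.mt_ge ht
  have hq := Hq_le (zt := zt) (b := b) (k := k) (c := c) (r := r) (b - (s + 2) - 1) (s + 2)
    (by omega)
  have e1 : (fn (c (s + 1)).la (c (s + 1)).lc (c (s + 2)) (tok c (s + 2)) +
      zv ((c (s + 1)).zr zt (k (s + 1)) (c (s + 2))) (c (s + 2 + 1)) (c s).lx : ℕ) =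
        psi zt k c (s + 2) := rfl
  have h2 := hw.dl h1 (by
    rw [e1]
    unfold Vs at hv
    have : ((2621440 + b * 65536 + psi zt k c (s + 2) : ℕ) : ℤ) < ((A + w : ℕ) : ℤ) := by
      push_cast at hA hv ⊢
      linarith
    exact_mod_cast this)
  rw [e1] at h2
  refine hD (s + 1) rfl fin _ ?_ h2
  rw [Hq_succ]
  have h3 : ((A : ℤ) + mt vx k o x M i c (s + 2) - psi zt k c (s + 2)) ≤
      ((A + mt vx k o x M i c (s + 2) - psi zt k c (s + 2) : ℕ) : ℤ) := by omega
  push_cast at hA h3 ⊢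
  linarith

/-- The enumeration. -/
theorem top_sound (C : Cell E vx b k o x M i c r) (hT : (corr zt b k c : ℤ) < Rs r b)
    {rg : Pth → ℕ → Bool} {W : Lev} (hW : LevOK zt vx b k o x M i c r 0 W)
    (h : top zt rg (i 0) (c 0) (b * 65536) W = true) :
    ∃ m : ℕ, Rs r b ≤ corr zt b k c + m ∧ rg (pt b k o (fun t => sv (c t)) b) m = true := by
  have hb := C.b_three
  have htop := Hq_top (zt := zt) (k := k) (c := c) (r := r) hb
  have hT' : 0 < Hq zt k c r b := by
    have h1 : (0 : ℤ) ≤ (ph c (b - 1) + (omega zt (k (b - 1)) (c (b - 2)) (c (b - 1)) (c b) (c 1) +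
      omega zt (k b) (c (b - 1)) (c b) (c 1) (c 2)) : ℕ) := Int.natCast_nonneg _
    push_cast at h1
    linarith
  cases hW with
  | nil h => omega
  | @cons _ nl D W1 hW1 hl hD =>
    cases hW1 with
    | nil h => omega
    | @cons _ nl1 D1 W2 hW2 hl1 hD1 =>
      obtain ⟨w, hw, hv⟩ := hl
      obtain ⟨w1, hw1, hv1⟩ := hl1
      have h1 : tk zt (k 0) (c 0) (fun a e xa z =>
          dl (fun i1 c1 A1 t1 => tk zt (k (0 + 1)) c1 fun a1 e1 xa1 z1 =>
            dl (fun i2 c2 A2 _ => D1 (2621440 + b * 65536)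
              (fin rg (k 0) (o 0) (c 0) (2621440 + b * 65536 - 1572864) c1 t1 (z c1) c2) i2 c2
              (fn a1 e1 c2) (z1 c2) xa xa1 A2 (Pth.cons (k (0 + 1)) (o (0 + 1)) (sv c1) Pth.nil))
              (2621440 + b * 65536) (fn a e c1) DL.nil 0 A1 (nl1 i1))
            (2621440 + b * 65536) f0 DL.nil 0 1048576 (nl (i 0))) = true := by
        have h' := h
        unfold top at h'
        rw [rLit_eq] at h'
        exact h'
      have h2 := tk_true h1
      have e0 : (f0 (tok c 0) + zv DL.nil (c (0 + 1)) 0 : ℕ) = 0 := rfl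
      have hm : r 1 + 65536 ≤ (mt vx k o x M i c 0 : ℤ) := C.mt_ge (show 0 < b by omega)
      have hm1 : r 2 + 65536 ≤ (mt vx k o x M i c 1 : ℤ) := C.mt_ge (show 1 < b by omega)
      have hv1' : Vs b c r 1 ≤ w1 := hv1
      have hq := Hq_le (zt := zt) (b := b) (k := k) (c := c) (r := r) (b - 1) 0 (by omega)
      have hq1 := Hq_le (zt := zt) (b := b) (k := k) (c := c) (r := r) (b - 2) 1 (by omega)
      have z0 : Hq zt k c r 0 = 0 := sum_range_zero _
      have z1 : Hq zt k c r 1 = r 1 := by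
        rw [Hq_succ, z0]
        show 0 + (r 1 - ((0 : ℕ) : ℤ)) = r 1
        push_cast
        ring
      have p0 : psi zt k c 0 = 0 := rfl
      rw [z0, p0] at hq
      have h3 := hw.dl h2 (by
        rw [e0]
        unfold Vs at hv
        have : ((2621440 + b * 65536 + 0 : ℕ) : ℤ) < ((1048576 + w : ℕ) : ℤ) := by
          push_cast at hv hq ⊢
          linarith
        exact_mod_cast this)
      rw [e0, Nat.sub_zero] at h3
      have h4 := tk_true h3
      have e1 : (fn (c 0).la (c 0).lc (c (0 + 1)) (tok c (0 + 1)) +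
        zv DL.nil (c (0 + 1 + 1)) 0 : ℕ) = psi zt k c 1 := rfl
      have h5 := hw1.dl h4 (by
        rw [e1]
        unfold Vs at hv1'
        rw [z1] at hq1
        have : ((2621440 + b * 65536 + psi zt k c 1 : ℕ) : ℤ) <
            ((1048576 + mt vx k o x M i c 0 + w1 : ℕ) : ℤ) := by
          push_cast at hv1' hq1 hm ⊢
          linarith
        exact_mod_cast this)
      rw [e1] at h5
      have h6 : ((1048576 : ℤ) + mt vx k o x M i c 0 + mt vx k o x M i c 1 - psi zt k c 1) ≤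
        ((1048576 + mt vx k o x M i c 0 + mt vx k o x M i c 1 - psi zt k c 1 : ℕ) : ℤ) := by omega
      obtain ⟨A', hA', h7⟩ := hD1 0 rfl _ _ (by
        have e : Hq zt k c r (0 + 1 + 1) = r 1 + (r 2 - psi zt k c 1) := by
          rw [show (0 + 1 + 1 : ℕ) = 1 + 1 from rfl, Hq_succ, z1]
        rw [e]
        push_cast at h6 ⊢
        linarith) h5
      have e2 : (fn (c (b - 1)).la (c (b - 1)).lc (c b) (tok c 0) : ℕ) = ph c (b - 1) := by
        have e3 : b - 1 + 1 = b := by omega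
        have e4 : b - 1 + 2 = b + 1 := by omega
        unfold ph phi tok
        rw [e3, e4, C.c_one, C.c_per]
      have e5 : (zv ((c (b - 1)).zr zt (k (b - 1)) (c b)) (c 1) (c (b - 2)).lx : ℕ) =
        omega zt (k (b - 1)) (c (b - 2)) (c (b - 1)) (c b) (c 1) := rfl
      have e6 : (zv ((c 0).zr zt (k 0) (c 1)) (c 2) (c (b - 1)).lx : ℕ) =
          omega zt (k b) (c (b - 1)) (c b) (c 1) (c 2) := by
        rw [C.c_per, C.k_per]
        rfl
      have h8 := h7
      unfold fin at h8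
      rw [rLit_eq] at h8
      have h9 : Bool.rec (motive := fun _ => Bool)
          (rLit (A' - (2621440 + b * 65536 - 1572864 + (fn (c (b - 1)).la (c (b - 1)).lc (c b)
            (tok c 0) + (zv ((c (b - 1)).zr zt (k (b - 1)) (c b)) (c 1) (c (b - 2)).lx +
              zv ((c 0).zr zt (k 0) (c 1)) (c 2) (c (b - 1)).lx)))) fun m =>
            rLit (sv (c 0)) fun s0 => rv (fun q => rg q m) (rp k o c (b - 1))
              (Pth.cons (k 0) (o 0) s0 Pth.nil)) true
          (Nat.ble A' (2621440 + b * 65536 - 1572864 + (fn (c (b - 1)).la (c (b - 1)).lc (c b)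
            (tok c 0) + (zv ((c (b - 1)).zr zt (k (b - 1)) (c b)) (c 1) (c (b - 2)).lx +
              zv ((c 0).zr zt (k 0) (c 1)) (c 2) (c (b - 1)).lx)))) = true := h8
      rw [e2, e5, e6] at h9
      generalize hB : 2621440 + b * 65536 - 1572864 + (ph c (b - 1) +
        (omega zt (k (b - 1)) (c (b - 2)) (c (b - 1)) (c b) (c 1) +
          omega zt (k b) (c (b - 1)) (c b) (c 1) (c 2))) = B at h9
      have hB' : (B : ℤ) = 1048576 + b * 65536 + (ph c (b - 1) +
        (omega zt (k (b - 1)) (c (b - 2)) (c (b - 1)) (c b) (c 1) +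
          omega zt (k b) (c (b - 1)) (c b) (c 1) (c 2))) := by
        rw [← hB]
        push_cast
        omega
      have hlt : (B : ℤ) + (Rs r b - corr zt b k c) ≤ A' := by linarith
      have hble : Nat.ble A' B = false := by
        rw [Bool.eq_false_iff]
        intro h
        have := Nat.le_of_ble_eq_true h
        omega
      rw [hble] at h9
      have h10 : rLit (A' - B) (fun m => rLit (sv (c 0)) fun s0 =>
        rv (fun q => rg q m) (rp k o c (b - 1)) (Pth.cons (k 0) (o 0) s0 Pth.nil)) = true := h9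
      rw [rLit_eq, rLit_eq] at h10
      have e7 : Pth.cons (k 0) (o 0) (sv (c 0)) Pth.nil =
          pt b k o (fun t => sv (c t)) (b - (b - 1)) := by
        have e8 : b - (b - 1) = 1 := by omega
        rw [e8, C.k_per, C.o_per, C.c_per]
        show _ = Pth.cons (k (b - 0)) (o (b - 0)) (sv (c (b - 0))) Pth.nil
        rw [Nat.sub_zero]
      rw [e7, rv_rp _ _ (by omega)] at h10
      exact ⟨A' - B, by omega, h10⟩

end Cell

end

/-- The state of the pass back at the pair `t` with `n` lanes. -/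
structure Bk (zt : DT) (vx : ℕ → ℕ → ℕ → ℕ → ℕ → ℕ → ℕ) (b : ℕ) (k o x M i : ℕ → ℕ) (c : ℕ → LR)
    (r : ℕ → ℤ) (n t B P : ℕ) (f1 : ℕ → ℕ) (f2 : ℕ → (ℕ → ℕ) → ℕ) (D : ℕ → Fn → Gt)
    (E' : ℕ → LR) (W : Lev) (cs : ℕ) : Prop where
  t_le : t ≤ b
  cs_eq : cs = (b - t) * 65536
  hB : HB 22 n B (1572865 + (b - t) * 65536)
  val : (1572864 : ℤ) + (Gs b c r b - Gs b c r t) ≤ (PB.fl 22 B (i t) : ℤ)
  dig : ∃ d : ℕ → ℕ, (∀ j < n, d j ≤ 1) ∧ d (i t) = 1 ∧ P = pk 23 n (fun j => 4194304 * d j)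
  f1_lt : ∀ j < n, f1 j < 1572865 + (b - t) * 131072
  f2_lt : ∀ j < n, ∀ g, f2 j g < 1572865 + (b - t) * 131072
  f1_ge : Vs b c r t ≤ (f1 (i t) : ℤ)
  f2_ge : ∀ g : ℕ → ℕ, Vs b c r t ≤
    ((f2 (i t) g + (if t < b then g (tok c t) else 0) : ℕ) : ℤ)
  opt : Opt (c t) (E' (i t))
  hD : Sd zt b k o i c r t D
  hW : LevOK zt vx b k o x M i c r t W

section

variable {E : ℕ → ℕ → ℕ → LR} {vx : ℕ → ℕ → ℕ → ℕ → ℕ → ℕ → ℕ} {zt : DT}

theorem bk_cons (fin : ℕ → Lev → Bool) (k o x M Z A : ℕ) (st : SK) (kR oR B P : ℕ) (f1 : ℕ → ℕ)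
    (f2 : ℕ → (ℕ → ℕ) → ℕ) (D : ℕ → Fn → Gt) (E' : ℕ → LR) (W : Lev) (cs : ℕ) :
    bk E vx zt fin (SK.cons k o x M Z A st) kR oR B P f1 f2 D E' W cs =
      rLit (Hy.trX x) fun x' => bs zt (bk E vx zt fin st) k o x Z A
        (Nat.shiftRight (Nat.land (Nat.add (Nat.add Z (Hy.adH x' M B P P))
          (Nat.mul (oneB (fa x)) (nat_lit 1572863))) A) (nat_lit 22))
        (Nat.add cs (nat_lit 65536)) D (E k o) W
        (ml f1 f2 (fun i u => vx k o i kR oR u) E' (E k o) (rX x' M) (oneB (fb x)) Z B P) := rfl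

theorem rLit_two {F : ℕ → ℕ} {G : ℕ → ℕ → Bool} {X B' P' : ℕ}
    (h : (rLit X fun B => rLit (F B) fun P => Bool.rec (motive := fun _ => Bool) (G B P) true
      (Nat.beq P (nat_lit 0))) = true) (hB : X = B') (hP : F B' = P') (hP' : P' ≠ 0) :
    G B' P' = true := by
  subst hB
  rw [rLit_eq, rLit_eq, hP] at h
  have hb : Nat.beq P' (nat_lit 0) = false := by
    rw [Bool.eq_false_iff]
    intro h
    exact hP' (Nat.eq_of_beq_eq_true h)
  rw [hb] at h
  exact h

theorem bs_true {ih : Bt} {k o x Z A Q cs B' P' : ℕ} {D : ℕ → Fn → Gt} {E0 : ℕ → LR} {W : Lev}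
    {nl : ℕ → CL} (h : bs zt ih k o x Z A Q cs D E0 W nl = true)
    (hB : pkv (F1 nl) cs (Nat.mod Q (nat_lit 8388607)) Q (nat_lit 0) = B')
    (hP : Nat.land (Nat.add (Nat.add Z B') (Nat.mul (oneB (fa x)) (nat_lit 1572863))) A = P')
    (hP' : P' ≠ 0) :
    ih k o B' P' (F1 nl) (F2 nl) (DD zt k o nl D) E0 (Lev.cons k o nl D W) cs = true :=
  rLit_two (F := fun B' => Nat.land (Nat.add (Nat.add Z B')
    (Nat.mul (oneB (fa x)) (nat_lit 1572863))) A)
    (G := fun B' P' => ih k o B' P' (F1 nl) (F2 nl) (DD zt k o nl D) E0 (Lev.cons k o nl D W) cs)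
    h hB hP hP'

end

theorem fv_le {f1 : ℕ → ℕ} {f2 : ℕ → (ℕ → ℕ) → ℕ} {j tk : ℕ} {V : ℤ} (q : Prop) [Decidable q]
    (h1 : V ≤ (f1 j : ℤ)) (h2 : ∀ g : ℕ → ℕ, V ≤ ((f2 j g + (if q then g tk else 0) : ℕ) : ℤ))
    (h : FO) : V ≤ ((vt f1 f2 j h + (if q then fv h tk else 0) : ℕ) : ℤ) := by
  cases h with
  | n =>
    have h3 : V ≤ ((f1 j + (if q then 0 else 0) : ℕ) : ℤ) := by
      split_ifs <;> exact h1
    exact h3
  | f g => exact h2 g

namespace Cell

variable {E : ℕ → ℕ → ℕ → LR} {vx : ℕ → ℕ → ℕ → ℕ → ℕ → ℕ → ℕ} {zt : DT} {b : ℕ}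
  {k o x M i : ℕ → ℕ} {c : ℕ → LR} {r : ℕ → ℤ}

theorem fa_le (C : Cell E vx b k o x M i c r) {t : ℕ} (ht : t < b) : fa (x (t + 1)) ≤ 256 := by
  cases t with
  | zero =>
    have hb := C.b_three
    have h := C.fb_lt (b - 1) (by omega)
    rw [show b - 1 + 1 = b by omega, C.dim_top] at h
    exact h.le
  | succ t =>
    have h := C.fb_lt t (by omega)
    rw [C.dim t ht] at h
    exact h.le

/-- The lists of one level. -/
theorem list_sound (C : Cell E vx b k o x M i c r) (hG : 0 < Gs b c r b) {t : ℕ} (ht : t < b)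
    {Z : ℕ} (hZ : HB 22 (fa (x (t + 1))) Z (1048577 + t * 65536))
    (hv : 1048576 + Rs r t ≤ (PB.fl 22 Z (i t) : ℤ)) {B P : ℕ} {f1 : ℕ → ℕ}
    {f2 : ℕ → (ℕ → ℕ) → ℕ} {D : ℕ → Fn → Gt} {E' : ℕ → LR} {W : Lev} {cs : ℕ}
    (hK : Bk zt vx b k o x M i c r (fb (x (t + 1))) (t + 1) B P f1 f2 D E' W cs) :
    (∀ j < fa (x (t + 1)), pm (ml f1 f2 (fun i u => vx (k t) (o t) i (k (t + 1)) (o (t + 1)) u) E'
      (E (k t) (o t)) (rX (Hy.trX (x (t + 1))) (M (t + 1))) (oneB (fb (x (t + 1)))) Z B P j) <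
        1572865 + (b - t) * 131072) ∧
    Ls vx b k o x M i c r t (ml f1 f2 (fun i u => vx (k t) (o t) i (k (t + 1)) (o (t + 1)) u) E'
      (E (k t) (o t)) (rX (Hy.trX (x (t + 1))) (M (t + 1))) (oneB (fb (x (t + 1)))) Z B P) := by
  obtain ⟨d, hd, hd1, rfl⟩ := hK.dig
  have hbl := C.b_le
  have hM := C.hb t ht
  have hlt := C.fb_lt t ht
  have hBr := hK.hB.rep.eq
  have hfZ : ∀ j, (Nat.shiftRight Z (Nat.mul 23 j)) % 8388608 = PB.fl 22 Z j := fun j => rfl
  have hT : ∀ j < fa (x (t + 1)), ∀ j' < fb (x (t + 1)),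
      PB.fl 22 (M (t + 1)) (plX (x (t + 1)) j j') < 2 ^ 17 := fun j hj j' hj' =>
    hM.lt _ ((opX_ok (C.fa_pos t ht) (C.fb_pos t ht)).lt j hj j' hj')
  have hrow : ∀ j < fa (x (t + 1)), rX (Hy.trX (x (t + 1))) (M (t + 1)) j =
      pk 23 (fb (x (t + 1))) (fun j' => PB.fl 22 (M (t + 1)) (plX (x (t + 1)) j j')) :=
    fun j hj => rX_eq hM (C.fb_pos t ht) hlt hj
  have hcnd : ∀ j < fa (x (t + 1)), cnd (oneB (fb (x (t + 1)))) B
      (pk 23 (fb (x (t + 1))) (fun j => 4194304 * d j))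
      (pk 23 (fb (x (t + 1))) (fun j' => PB.fl 22 (M (t + 1)) (plX (x (t + 1)) j j')))
      (Nat.shiftRight Z (Nat.mul 23 j)) = pk 23 (fb (x (t + 1))) (fun j' => if d j' = 1 ∧ 2 ^ 22 ≤
        PB.fl 22 (M (t + 1)) (plX (x (t + 1)) j j') + PB.fl 22 B j' + (PB.fl 22 Z j + 1507327) then 1
        else 0) := by
    intro j hj
    have h1 := cnd_eq (n := fb (x (t + 1))) (z := Nat.shiftRight Z (Nat.mul 23 j))
      (tf := fun j' => PB.fl 22 (M (t + 1)) (plX (x (t + 1)) j j')) (bf := PB.fl 22 B) (d := d)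
      (fun j' hj' => by
        have h2 := hT j hj j' hj'
        have h3 := hK.hB.lt j' hj'
        have h4 := hZ.lt j hj
        rw [hfZ]
        have e : (2 : ℕ) ^ 17 = 131072 := by norm_num
        rw [e] at h2
        show PB.fl 22 (M (t + 1)) (plX (x (t + 1)) j j') + PB.fl 22 B j' +
          (PB.fl 22 Z j + 1507327) < 2 ^ 23
        omega) hd
    rw [← hBr] at h1
    exact h1
  have hdig : ∀ j, ∀ j' < fb (x (t + 1)), (if d j' = 1 ∧ 2 ^ 22 ≤
        PB.fl 22 (M (t + 1)) (plX (x (t + 1)) j j') + PB.fl 22 B j' + (PB.fl 22 Z j + 1507327) then 1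
        else 0) ≤ 1 := by
    intro j j' _
    split_ifs <;> omega
  have hfT : ∀ j < fa (x (t + 1)), ∀ j' < fb (x (t + 1)),
      PB.fl 22 (pk 23 (fb (x (t + 1))) (fun j' => PB.fl 22 (M (t + 1)) (plX (x (t + 1)) j j'))) j' =
        PB.fl 22 (M (t + 1)) (plX (x (t + 1)) j j') := fun j hj =>
    (hb_pk (F := 2 ^ 22) (fun j' hj' => lt_of_lt_of_le (hT j hj j' hj') (by norm_num)) le_rfl).2
  refine ⟨fun j hj => ?_, ?_⟩
  · rw [ml_eq, hrow j hj, hcnd j hj]
    refine lop_ind (P := fun l => pm l < 1572865 + (b - t) * 131072) hlt.le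
      (fun j' hj' => hdig j j' hj') (show 0 < 1572865 + (b - t) * 131072 by omega)
      (fun j' hj' _ l hl => ?_)
    refine pr_bd (β' := 1572865 + (b - (t + 1)) * 131072)
      (fun h => vt_lt (hK.f1_lt j' hj') (hK.f2_lt j' hj') h) ?_ (by omega) _ l hl
    rw [hfT j hj j' hj']
    exact hT j hj j' hj'
  · have hi := C.i_lt t ht
    have hj := C.j_lt t ht
    obtain ⟨o1, o2, o3⟩ := (C.opt t ht.le).tok
    refine ⟨vt f1 f2 (i (t + 1)) ((c (t + 1)).ho (c t).la (c t).lc) + mt vx k o x M i c t, ?_, ?_⟩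
    · rw [ml_eq, hrow _ hi, hcnd _ hi, o1, o2, o3]
      have hc : (if d (i (t + 1)) = 1 ∧ 2 ^ 22 ≤ PB.fl 22 (M (t + 1)) (plX (x (t + 1)) (i t)
          (i (t + 1))) + PB.fl 22 B (i (t + 1)) + (PB.fl 22 Z (i t) + 1507327) then 1 else 0) =
            1 := by
        refine if_pos ⟨hd1, ?_⟩
        have h1 := C.ent_ge ht
        have h2 := hK.val
        have h3 := Gs_le_Rs (b := b) (c := c) (r := r) (t + 1)
        rw [Rs_succ] at h3
        have : ((2 ^ 22 : ℕ) : ℤ) ≤ ((PB.fl 22 (M (t + 1)) (plX (x (t + 1)) (i t)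
          (i (t + 1))) + PB.fl 22 B (i (t + 1)) + (PB.fl 22 Z (i t) + 1507327) : ℕ) : ℤ) := by
          have e : ((2 ^ 22 : ℕ) : ℤ) = 4194304 := by norm_num
          rw [e]
          push_cast
          linarith
        exact_mod_cast this
      obtain ⟨rest, h⟩ := lop_mem (f1 := f1) (f2 := f2)
        (vv := fun u => vx (k t) (o t) (i t) (k (t + 1)) (o (t + 1)) u) (ta := (c t).la)
        (tc := (c t).lc) (q := (c t).big) (E := E')
        (T := pk 23 (fb (x (t + 1))) (fun j' => PB.fl 22 (M (t + 1)) (plX (x (t + 1)) (i t) j')))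
        hlt.le (fun j' hj' => hdig (i t) j' hj') hj hc
      refine h (In (mt vx k o x M i c t)
        (vt f1 f2 (i (t + 1)) ((c (t + 1)).ho (c t).la (c t).lc) + mt vx k o x M i c t)
        (i (t + 1)) (tok c t) (c (t + 1))) (fun _ _ _ _ _ _ h => In.tl h) ?_
      rw [hfT _ hi _ hj]
      exact pr_in hK.opt (C.adm t ht) rest
    · have h1 := fv_le (t + 1 < b) hK.f1_ge hK.f2_ge ((c (t + 1)).ho (c t).la (c t).lc)
      have h2 : (if t + 1 < b then fv ((c (t + 1)).ho (c t).la (c t).lc) (tok c (t + 1)) else 0) =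
          phb b c t := by
        rw [← fn_eq]
        rfl
      rw [h2] at h1
      have h3 := C.mt_ge ht
      have h4 := Gs_succ (b := b) (c := c) (r := r) t
      unfold Vs at h1 ⊢
      push_cast at h1 ⊢
      linarith

/-- The pass back. -/
theorem bk_sound (C : Cell E vx b k o x M i c r) (hR : 0 < Rs r b) (hT : 0 < Hq zt k c r b)
    (hG : 0 < Gs b c r b) {fin : ℕ → Lev → Bool} {t : ℕ} {st : SK}
    (hg : Good k o x M i r t st) : ∀ {n B P : ℕ} {f1 : ℕ → ℕ} {f2 : ℕ → (ℕ → ℕ) → ℕ}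
    {D : ℕ → Fn → Gt} {E' : ℕ → LR} {W : Lev} {cs : ℕ}, (t ≠ 0 → n = fb (x t)) →
    Bk zt vx b k o x M i c r n t B P f1 f2 D E' W cs →
    bk E vx zt fin st (k t) (o t) B P f1 f2 D E' W cs = true →
    ∃ W', LevOK zt vx b k o x M i c r 0 W' ∧ fin (b * 65536) W' = true := by
  induction hg with
  | nil =>
    intro n B P f1 f2 D E' W cs _ hK h
    have h1 : fin cs W = true := h
    rw [hK.cs_eq, Nat.sub_zero] at h1
    exact ⟨W, hK.hW, h1⟩
  | @cons t st Z hg hZ hv ih =>
    intro n B P f1 f2 D E' W cs hn hK h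
    obtain rfl : n = fb (x (t + 1)) := hn (by omega)
    have ht : t < b := by
      have := hK.t_le
      omega
    obtain ⟨hL1, hL2⟩ := C.list_sound hG ht hZ hv hK
    rw [bk_cons, rLit_eq] at h
    generalize ml f1 f2 (fun i u => vx (k t) (o t) i (k (t + 1)) (o (t + 1)) u) E'
      (E (k t) (o t)) (rX (Hy.trX (x (t + 1))) (M (t + 1))) (oneB (fb (x (t + 1)))) Z B P = nl at *
    obtain ⟨d, hd, hd1, rfl⟩ := hK.dig
    have hbl := C.b_le
    obtain ⟨hY1, hY2⟩ := back_dig (C.fa_pos t ht) (C.fb_pos t ht) (C.fb_lt t ht) hK.hB (C.hb t ht)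
      (by omega) (by omega) hd
    have hY3 := hY2 _ (C.j_lt t ht) hd1 _ (C.i_lt t ht)
    generalize Hy.adH (Hy.trX (x (t + 1))) (M (t + 1)) B
      (pk 23 (fb (x (t + 1))) (fun j => 4194304 * d j))
      (pk 23 (fb (x (t + 1))) (fun j => 4194304 * d j)) = Y at *
    have hi := C.i_lt t ht
    have hR0 := C.Rs_nonneg hR ht.le
    have hal : 2 ^ 20 ≤ PB.fl 22 Z (i t) := by
      have : ((2 ^ 20 : ℕ) : ℤ) ≤ (PB.fl 22 Z (i t) : ℤ) := by
        have e : ((2 ^ 20 : ℕ) : ℤ) = 1048576 := by norm_num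
        rw [e]
        linarith
      exact_mod_cast this
    have hGR := Gs_le_Rs (b := b) (c := c) (r := r) t
    have hGR1 := Gs_le_Rs (b := b) (c := c) (r := r) (t + 1)
    rw [Rs_succ] at hGR1
    have hval := hK.val
    have hent := C.ent_ge ht
    have hY3' : (PB.fl 22 B (i (t + 1)) : ℤ) +
        PB.fl 22 (M (t + 1)) (plX (x (t + 1)) (i t) (i (t + 1))) ≤
        PB.fl 22 Y (i t) + 65536 := by exact_mod_cast hY3
    -- the digits
    have eA := alv_dig hZ
    have hZr := hZ.rep.eq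
    have eZY : Nat.add Z Y = pk 23 (fa (x (t + 1))) (fun j => PB.fl 22 Z j + PB.fl 22 Y j) := by
      have e := pk_add (w := 23) (fa (x (t + 1))) (PB.fl 22 Z) (PB.fl 22 Y)
      rw [← hZr, ← hY1.rep.eq] at e
      exact e
    rw [eZY, eA, mask_shift (fun j hj => by
      have h1 := hZ.lt j hj
      have h2 := hY1.lt j hj
      have h3 : PB.fl 22 Z j + PB.fl 22 Y j + 1572863 < 2 ^ 23 := by omega
      exact h3) (fun j _ => aDig_le Z j)] at h
    have hq : ∀ j < fa (x (t + 1)), (if (if 2 ^ 20 ≤ PB.fl 22 Z j then 1 else 0) = 1 ∧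
        2 ^ 22 ≤ PB.fl 22 Z j + PB.fl 22 Y j + 1572863 then 1 else 0) ≤ 1 := by
      intro j _
      split_ifs <;> omega
    have hq1 : (if (if 2 ^ 20 ≤ PB.fl 22 Z (i t) then 1 else 0) = 1 ∧
        2 ^ 22 ≤ PB.fl 22 Z (i t) + PB.fl 22 Y (i t) + 1572863 then 1 else 0) = 1 := by
      refine if_pos ⟨if_pos hal, ?_⟩
      have : ((2 ^ 22 : ℕ) : ℤ) ≤ ((PB.fl 22 Z (i t) + PB.fl 22 Y (i t) + 1572863 : ℕ) : ℤ) := by
        have e : ((2 ^ 22 : ℕ) : ℤ) = 4194304 := by norm_num
        rw [e]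
        push_cast
        linarith
      exact_mod_cast this
    generalize hQ : (fun j => if (if 2 ^ 20 ≤ PB.fl 22 Z j then 1 else 0) = 1 ∧
        2 ^ 22 ≤ PB.fl 22 Z j + PB.fl 22 Y j + 1572863 then 1 else 0) = q at h
    have hq' : ∀ j < fa (x (t + 1)), q j ≤ 1 := by
      rw [← hQ]
      exact hq
    have hq1' : q (i t) = 1 := by
      rw [← hQ]
      exact hq1
    have hfa := C.fa_le ht
    have ecs : Nat.add cs 65536 = (b - t) * 65536 := by
      rw [hK.cs_eq]
      show (b - (t + 1)) * 65536 + 65536 = _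
      omega
    have ePK := pkv_eq (F1 nl) (Nat.add cs 65536) hfa hq'
    have hF1 : ∀ j, F1 nl j = pm (nl j) := fun j => rfl
    obtain ⟨w, hw, hwv⟩ := hL2
    have hwp := hw.le_pm
    have hF1t : Vs b c r t ≤ (F1 nl (i t) : ℤ) := by
      have : (w : ℤ) ≤ (F1 nl (i t) : ℤ) := by exact_mod_cast hwp
      exact hwv.trans this
    have hBf : ∀ j < fa (x (t + 1)), (if q j = 1 then F1 nl j - Nat.add cs 65536 else 0) <
        1572865 + (b - t) * 65536 := by
      intro j hj
      have h1 := hL1 j hj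
      rw [ecs, hF1]
      split_ifs
      · omega
      · omega
    obtain ⟨hB1, hB2⟩ := hb_pk hBf (by omega)
    have hB2t := hB2 _ hi
    rw [if_pos hq1'] at hB2t
    generalize pk 23 (fa (x (t + 1))) (fun j => if q j = 1 then F1 nl j - Nat.add cs 65536 else 0) =
      B' at ePK hB1 hB2t
    have hB3 : (1572864 : ℤ) + (Gs b c r b - Gs b c r t) ≤ (PB.fl 22 B' (i t) : ℤ) := by
      rw [hB2t, ecs]
      unfold Vs at hF1t
      have e : (((b - t : ℕ) : ℤ)) = (b : ℤ) - t := by omega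
      have h1 : (F1 nl (i t) : ℤ) - ((b - t : ℕ) : ℤ) * 65536 ≤
        ((F1 nl (i t) - (b - t) * 65536 : ℕ) : ℤ) := by
        have := Int.le_natCast_sub (F1 nl (i t)) ((b - t) * 65536)
        push_cast at this ⊢
        exact this
      rw [e] at h1
      linarith
    have eZB : Nat.add Z B' = pk 23 (fa (x (t + 1))) (fun j => PB.fl 22 Z j + PB.fl 22 B' j) := by
      have e := pk_add (w := 23) (fa (x (t + 1))) (PB.fl 22 Z) (PB.fl 22 B')
      rw [← hZr, ← hB1.rep.eq] at e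
      exact e
    have eP : Nat.land (Nat.add (Nat.add Z B') (Nat.mul (oneB (fa (x (t + 1)))) 1572863))
          (pk 23 (fa (x (t + 1))) (fun j => 4194304 * (if 2 ^ 20 ≤ PB.fl 22 Z j then 1 else 0))) =
        pk 23 (fa (x (t + 1))) (fun j => 4194304 * (if (if 2 ^ 20 ≤ PB.fl 22 Z j then 1 else 0) = 1 ∧
          2 ^ 22 ≤ PB.fl 22 Z j + PB.fl 22 B' j + 1572863 then 1 else 0)) := by
      rw [eZB]
      exact mask_add (fun j hj => by
        have h1 := hZ.lt j hj
        have h2 := hB1.lt j hj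
        omega) (fun j _ => aDig_le Z j)
    have hp : ∀ j < fa (x (t + 1)), (if (if 2 ^ 20 ≤ PB.fl 22 Z j then 1 else 0) = 1 ∧
        2 ^ 22 ≤ PB.fl 22 Z j + PB.fl 22 B' j + 1572863 then 1 else 0) ≤ 1 := by
      intro j _
      split_ifs <;> omega
    have hp1 : (if (if 2 ^ 20 ≤ PB.fl 22 Z (i t) then 1 else 0) = 1 ∧
        2 ^ 22 ≤ PB.fl 22 Z (i t) + PB.fl 22 B' (i t) + 1572863 then 1 else 0) = 1 := by
      refine if_pos ⟨if_pos hal, ?_⟩
      have : ((2 ^ 22 : ℕ) : ℤ) ≤ ((PB.fl 22 Z (i t) + PB.fl 22 B' (i t) + 1572863 : ℕ) : ℤ) := by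
        have e : ((2 ^ 22 : ℕ) : ℤ) = 4194304 := by norm_num
        rw [e]
        push_cast
        linarith
      exact_mod_cast this
    have h2 := bs_true h ePK eP (dig_ne hp hi hp1)
    refine ih (n := fa (x (t + 1))) (fun h0 => ?_) ?_ h2
    · obtain ⟨t', rfl⟩ := Nat.exists_eq_succ_of_ne_zero h0
      exact (C.dim t' ht).symm
    · exact
        { t_le := ht.le
          cs_eq := ecs
          hB := hB1
          val := hB3
          dig := ⟨_, hp, hp1, rfl⟩
          f1_lt := fun j hj => hL1 j hj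
          f2_lt := fun j hj g => lt_of_le_of_lt (vl_le_pm g (nl j)) (hL1 j hj)
          f1_ge := hF1t
          f2_ge := fun g => by
            have h3 := hw.le_vl g
            rw [if_pos ht]
            have h4 : (w : ℤ) ≤ ((F2 nl (i t) g + g (tok c t) : ℕ) : ℤ) := by exact_mod_cast h3
            exact hwv.trans h4
          opt := C.opt t ht.le
          hD := C.Sd_step hT ht ⟨w, hw, hwv⟩ hK.hD
          hW := LevOK.cons hK.hW ⟨w, hw, hwv⟩ hK.hD }

end Cell

theorem rLit_one {G : ℕ → Bool} {X p : ℕ} (h : rLit X G = true) (hp : X = p) : G p = true := by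
  subst hp
  exact h

theorem nbeq_ne {x : ℕ} (h : x ≠ 0) : Nat.beq x (nat_lit 0) = false := by
  rw [Bool.eq_false_iff]
  intro h'
  exact h (Nat.eq_of_beq_eq_true h')

/-- The digit of a lane. -/
theorem land_one {n r : ℕ} {a : ℕ → ℕ} (ha : ∀ j < n, a j ≤ 1) (hr : r < n) (h : a r = 1) :
    pk 23 n (fun j => 4194304 * a j) &&& pk 23 n (fun j => if j = r then 4194304 else 0) ≠ 0 := by
  rw [pk_land (fun j hj => by
    have := ha j hj
    omega) (fun j hj => by
    show (if j = r then 4194304 else 0) < 2 ^ 23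
    split_ifs <;> norm_num)]
  have e : pk 23 n (fun j => (4194304 * a j) &&& (if j = r then 4194304 else 0)) =
      pk 23 n (fun j => 4194304 * (if j = r then 1 else 0)) := by
    refine pk_congr fun j hj => ?_
    by_cases h1 : j = r
    · rw [if_pos h1, if_pos h1, h1, h, Nat.mul_one, Nat.and_self]
    · rw [if_neg h1, if_neg h1, Nat.and_zero, Nat.mul_zero]
  rw [e]
  exact dig_ne (fun j _ => by split_ifs <;> omega) hr (if_pos rfl)

theorem stl_true {E : ℕ → ℕ → ℕ → LR} {vx : ℕ → ℕ → ℕ → ℕ → ℕ → ℕ → ℕ} {zt : DT}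
    {rg : Pth → ℕ → Bool} {kb ob r A p : ℕ} {st : SK} {c0 : LR}
    (h : stl E vx zt rg kb ob r A st = true) (hp : Nat.pow (nat_lit 2) (Nat.mul (nat_lit 23) r) = p)
    (hne : Nat.land A (Nat.mul p (nat_lit 4194304)) ≠ 0) (ho : Opt c0 (E kb ob r)) :
    bk E vx zt (top zt rg r c0) st kb ob (Nat.mul p (nat_lit 1572864))
      (Nat.mul p (nat_lit 4194304)) (fun _ => nat_lit 1572864) (fun _ _ => nat_lit 1572864) D0
      (fun _ => c0) Lev.nil (nat_lit 0) = true := by
  unfold stl at h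
  rw [rLit_eq, hp, nbeq_ne hne] at h
  exact alt_sound (f := fun c0 => bk E vx zt (top zt rg r c0) st kb ob
    (Nat.mul p (nat_lit 1572864)) (Nat.mul p (nat_lit 4194304)) (fun _ => nat_lit 1572864)
    (fun _ _ => nat_lit 1572864) D0 (fun _ => c0) Lev.nil (nat_lit 0)) ho h

namespace Cell

variable {E : ℕ → ℕ → ℕ → LR} {vx : ℕ → ℕ → ℕ → ℕ → ℕ → ℕ → ℕ} {zt : DT} {b : ℕ}
  {k o x M i : ℕ → ℕ} {c : ℕ → LR} {r : ℕ → ℤ}

/-- The state of the pass back at the start. -/
theorem bk_start (C : Cell E vx b k o x M i c r) (hi : i b < fb (x b)) {B P : ℕ}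
    (hB : pk 23 (fb (x b)) (fun j => if j = i b then 1572864 else 0) = B)
    (hP : pk 23 (fb (x b)) (fun j => if j = i b then 4194304 else 0) = P) :
    Bk zt vx b k o x M i c r (fb (x b)) b B P (fun _ => nat_lit 1572864)
      (fun _ _ => nat_lit 1572864) D0 (fun _ => c b) Lev.nil (nat_lit 0) := by
  have h1 := hb_pk (n := fb (x b)) (F := 1572865 + (b - b) * 65536)
    (f := fun j => if j = i b then 1572864 else 0) (fun j _ => by
      show (if j = i b then 1572864 else 0) < 1572865 + (b - b) * 65536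
      split_ifs <;> omega) (by rw [Nat.sub_self]; norm_num)
  rw [hB] at h1
  have hV : Vs b c r b = 1572864 := by
    unfold Vs
    ring
  exact
    { t_le := le_rfl
      cs_eq := by
        show 0 = _
        rw [Nat.sub_self, zero_mul]
      hB := h1.1
      val := by
        rw [h1.2 _ hi, if_pos rfl]
        push_cast
        linarith
      dig := ⟨fun j => if j = i b then 1 else 0, fun j _ => by
          show (if j = i b then 1 else 0) ≤ 1
          split_ifs <;> omega, if_pos rfl, by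
        rw [← hP]
        refine pk_congr fun j _ => ?_
        show (if j = i b then 4194304 else 0) = 4194304 * (if j = i b then 1 else 0)
        split_ifs
        · rw [mul_one]
        · rw [mul_zero]⟩
      f1_lt := fun j _ => by
        show 1572864 < 1572865 + (b - b) * 131072
        omega
      f2_lt := fun j _ g => by
        show 1572864 < 1572865 + (b - b) * 131072
        omega
      f1_ge := by
        rw [hV]
        show (1572864 : ℤ) ≤ ((1572864 : ℕ) : ℤ)
        norm_num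
      f2_ge := fun g => by
        rw [hV, if_neg (Nat.lt_irrefl b)]
        show (1572864 : ℤ) ≤ ((1572864 + 0 : ℕ) : ℤ)
        norm_num
      opt := (C.opt b le_rfl).refl
      hD := Sd_top
      hW := LevOK.nil rfl }

/-- A start lane. -/
theorem stl_sound (C : Cell E vx b k o x M i c r) (hT : (corr zt b k c : ℤ) < Rs r b)
    {rg : Pth → ℕ → Bool} {Z : ℕ} {st : SK} (hg : Good k o x M i r b st)
    (hZ : HB 22 (nn b x b) Z (1048577 + b * 65536))
    (hv : 1048576 + Rs r b ≤ (PB.fl 22 Z (i b) : ℤ))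
    (h : stl E vx zt rg (k b) (o b) (i b) (alv (rep 23 (nn b x b)) Z) st = true) :
    ∃ m : ℕ, Rs r b ≤ corr zt b k c + m ∧ rg (pt b k o (fun t => sv (c t)) b) m = true := by
  have hb := C.b_three
  have hc0 : (0 : ℤ) ≤ corr zt b k c := Int.natCast_nonneg _
  have hR : 0 < Rs r b := lt_of_le_of_lt hc0 hT
  have htop := Hq_top (zt := zt) (k := k) (c := c) (r := r) hb
  have hH : 0 < Hq zt k c r b := by
    have h1 : (0 : ℤ) ≤ (ph c (b - 1) + (omega zt (k (b - 1)) (c (b - 2)) (c (b - 1)) (c b) (c 1) +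
      omega zt (k b) (c (b - 1)) (c b) (c 1) (c 2)) : ℕ) := Int.natCast_nonneg _
    push_cast at h1
    linarith
  have hG : 0 < Gs b c r b := by
    have h1 := Hq_le (zt := zt) (b := b) (k := k) (c := c) (r := r) (b - 1) 0 (by omega)
    have z0 : Hq zt k c r 0 = 0 := sum_range_zero _
    have z1 : Gs b c r 0 = 0 := sum_range_zero _
    have z2 : psi zt k c 0 = 0 := rfl
    rw [z0, z1, z2] at h1
    push_cast at h1
    linarith
  have hnb : nn b x b = fb (x b) := if_neg (Nat.lt_irrefl b)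
  rw [hnb] at hZ h
  have hj : i b < fb (x b) := by
    have := C.j_lt (b - 1) (by omega)
    rw [show b - 1 + 1 = b by omega] at this
    exact this
  have hal : 2 ^ 20 ≤ PB.fl 22 Z (i b) := by
    have : ((2 ^ 20 : ℕ) : ℤ) ≤ (PB.fl 22 Z (i b) : ℤ) := by
      have e : ((2 ^ 20 : ℕ) : ℤ) = 1048576 := by norm_num
      rw [e]
      linarith
    exact_mod_cast this
  obtain ⟨p, hp⟩ : ∃ p, Nat.pow (nat_lit 2) (Nat.mul (nat_lit 23) (i b)) = p := ⟨_, rfl⟩
  have hp2 : p = 2 ^ (23 * i b) := hp.symm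
  have e1 : pk 23 (fb (x b)) (fun j => if j = i b then 1572864 else 0) =
      Nat.mul p (nat_lit 1572864) := by
    rw [pk_one _ _ _ hj, ← hp2]
    rfl
  have e2 : pk 23 (fb (x b)) (fun j => if j = i b then 4194304 else 0) =
      Nat.mul p (nat_lit 4194304) := by
    rw [pk_one _ _ _ hj, ← hp2]
    rfl
  have hne : Nat.land (alv (rep 23 (fb (x b))) Z) (Nat.mul p (nat_lit 4194304)) ≠ 0 := by
    rw [alv_dig hZ, ← e2]
    exact land_one (fun j _ => aDig_le Z j) hj (if_pos hal)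
  have h2 := stl_true h hp hne (C.opt b le_rfl)
  obtain ⟨W, hW, h3⟩ := C.bk_sound (zt := zt) hR hH hG hg (fun _ => rfl)
    (C.bk_start hj e1 e2) h2
  refine C.top_sound hT hW ?_
  rw [C.i_per, C.c_per]
  exact h3

/-- **The evaluation.** -/
theorem cev_sound (C : Cell E vx b k o x M i c r) {rg : Pth → ℕ → Bool} {x1 M1 : ℕ}
    (h : cev E vx zt rg (CE.Cell.hsl k o x M x1 M1 b) (x 1) (M 1) = true) :
    ∃ m : ℕ, ∑ u ∈ range b, r (u + 1) ≤ corr zt b k c + m ∧
      (m = 0 ∨ rg (pt b k o (fun t => sv (c t)) b) m = true) := by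
  by_cases hT : (corr zt b k c : ℤ) < Rs r b
  · have hb := C.b_three
    obtain ⟨n, rfl⟩ : ∃ n, b = n + 2 := ⟨b - 2, by omega⟩
    have hc0 : (0 : ℤ) ≤ corr zt (n + 2) k c := Int.natCast_nonneg _
    have hR : 0 < Rs r (n + 2) := lt_of_le_of_lt hc0 hT
    have e1 : CE.Cell.wd (n + 2) k o x M (n + 2) =
        Wd.cons (k (n + 2)) (o (n + 2)) (x 1) (M 1) (CE.Cell.wd (n + 2) k o x M (n + 1)) := by
      rw [CE.Cell.wd, Nat.sub_self, C.k_per, C.o_per, show n + 2 - (n + 1) = 1 by omega]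
    have h1 := CE.Cell.bw_hsl (b := n + 2) (k := k) (o := o) (x := x) (M := M) (x1 := x1)
      (M1 := M1) (g := fun W => cw (stl E vx zt rg (k (n + 2)) (o (n + 2))) (fa (x 1))
        (Wd.cons (k (n + 2)) (o (n + 2)) (x 1) (M 1) W)) (n + 1) le_rfl
    rw [Nat.sub_self] at h1
    have h2 : cw (stl E vx zt rg (k (n + 2)) (o (n + 2))) (fa (x 1))
        (CE.Cell.wd (n + 2) k o x M (n + 2)) = true := by
      rw [e1]
      refine Eq.trans h1.symm ?_
      exact h
    obtain ⟨Z, st, hg, hZ, hv, h3⟩ := C.cw_sound hR h2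
    obtain ⟨m, h4, h5⟩ := C.stl_sound hT hg hZ hv h3
    exact ⟨m, h4, Or.inr h5⟩
  · push Not at hT
    exact ⟨0, by push_cast; rw [add_zero]; exact hT, Or.inl rfl⟩

end Cell

end

end Pool.Agent.Lib.MP_5854e1_co.FC
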