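import Pool.Agent.Lib.MP_5854e1_co.FclD

/-!
# The fast evaluation of a closed word: the cell

The data of a cell for the evaluation: the own pairs, the blocks, the lanes and their records. The
conclusion of the evaluation is that the sum of the steps is at most the sum of the corrections.
-/

set_option autoImplicit false

namespace Pool.Agent.Lib.MP_5854e1_co.FC

open Pk PB CE

noncomputable section

/-! ### The parts of a record -/

namespace LR

/-- The token as a left neighbour of a triangular corner. -/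
def la : LR → ℕ
  | t _ _ a _ _ _ _ => a
  | p _ _ a _ _ _ => a
  | _ => 0

/-- The token as a left neighbour of another corner. -/
def lc : LR → ℕ
  | t _ _ _ _ c _ _ => c
  | p _ _ _ _ c _ => c
  | _ => 0

/-- The left token for windows. -/
def lx : LR → ℕ
  | t _ x _ _ _ _ _ => x
  | p _ x _ _ _ _ => x
  | _ => 0

/-- The corner is not triangular. -/
def big : LR → Bool
  | t _ _ _ _ _ _ _ => false
  | p _ _ _ _ _ _ => false
  | _ => true

/-- The right token; `q`: the left neighbour is not triangular. -/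
def rt (q : Bool) : LR → ℕ
  | t _ _ _ e _ g _ => Bool.rec (motive := fun _ => ℕ) e g q
  | p _ _ _ e _ g => Bool.rec (motive := fun _ => ℕ) e g q
  | _ => 0

/-- The windows of the corner and the next one. -/
def zr (zt : DT) (k : ℕ) : LR → LR → DL
  | t s _ _ _ _ _ _ => zw zt k s
  | p s _ _ _ _ _ => zw zt k s
  | _ => z0

/-- The value of the step to the corner: `vv` are the exact values, `m` is the entry of the block. -/
def mv (vv : ℕ → ℕ) (m : ℕ) : LR → ℕ
  | o u _ => vv u
  | _ => m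

end LR

/-- A possibility of a record; the ones of three possibilities are not triangular. -/
inductive Opt : LR → LR → Prop
  | t (s xa a b c d : ℕ) (H : ℕ → FO) : Opt (LR.t s xa a b c d H) (LR.t s xa a b c d H)
  | p (s xa a b c d : ℕ) : Opt (LR.p s xa a b c d) (LR.p s xa a b c d)
  | z : Opt LR.z LR.z
  | o (u : ℕ) (H : ℕ → FO) : Opt (LR.o u H) (LR.o u H)
  | x {c e f g : LR} (h : Opt c e) (hb : c.big = true) : Opt c (LR.b e f g)
  | y {c e f g : LR} (h : Opt c f) (hb : c.big = true) : Opt c (LR.b e f g)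
  | w {c e f g : LR} (h : Opt c g) (hb : c.big = true) : Opt c (LR.b e f g)

/-- The correction of the fan at the corner `c1` between `c0` and `c2`. -/
def phi (c0 c1 c2 : LR) : ℕ := fn c0.la c0.lc c1 (c2.rt c1.big)

/-- The correction of the window of the corners `c1`, `c2` (`k` is the shape of the own pair of `c1`)
between `c0` and `c3`. -/
def omega (zt : DT) (k : ℕ) (c0 c1 c2 c3 : LR) : ℕ := zv (c1.zr zt k c2) c3 c0.lx

/-- The entry of the block `(x, M)`. -/
def ent (x M i j : ℕ) : ℕ := PB.fl 22 M (plX x i j)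

/-- The data of a cell: own pairs `(k t, o t)`, the block `M t` of format `x t` from the pair `t - 1`
to the pair `t`, the lane `i t`, its record `c t` and the value `r t` of the step to the pair `t`. The
pair `b` is the pair `0`, the record `b + 1` is the record `1`. -/
structure Cell (E : ℕ → ℕ → ℕ → LR) (vx : ℕ → ℕ → ℕ → ℕ → ℕ → ℕ → ℕ) (b : ℕ)
    (k o x M i : ℕ → ℕ) (c : ℕ → LR) (r : ℕ → ℤ) : Prop where
  b_three : 3 ≤ b
  b_le : b ≤ 24
  k_per : k 0 = k b
  o_per : o 0 = o b
  i_per : i 0 = i b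
  c_per : c 0 = c b
  c_one : c (b + 1) = c 1
  opt : ∀ t ≤ b, Opt (c t) (E (k t) (o t) (i t))
  adm : ∀ t < b, (c (t + 1)).mv (vx (k t) (o t) (i t) (k (t + 1)) (o (t + 1)))
    (ent (x (t + 1)) (M (t + 1)) (i t) (i (t + 1))) ≤
      ent (x (t + 1)) (M (t + 1)) (i t) (i (t + 1))
  step : ∀ t < b, r (t + 1) + 65536 ≤ ((c (t + 1)).mv
    (vx (k t) (o t) (i t) (k (t + 1)) (o (t + 1)))
      (ent (x (t + 1)) (M (t + 1)) (i t) (i (t + 1))) : ℤ)
  pos : ∀ t, t + 1 < b → 0 < ∑ u ∈ Finset.range (t + 1), r (u + 1)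
  fa_pos : ∀ t < b, 0 < fa (x (t + 1))
  fb_pos : ∀ t < b, 0 < fb (x (t + 1))
  fb_lt : ∀ t < b, fb (x (t + 1)) < 256
  i_lt : ∀ t < b, i t < fa (x (t + 1))
  j_lt : ∀ t < b, i (t + 1) < fb (x (t + 1))
  dim : ∀ t, t + 1 < b → fb (x (t + 1)) = fa (x (t + 2))
  dim_top : fb (x b) = fa (x 1)
  hb : ∀ t < b, HB 22 (nX (x (t + 1))) (M (t + 1)) (2 ^ 17)

/-- The sum of the corrections of a cell. -/
def corr (zt : DT) (b : ℕ) (k : ℕ → ℕ) (c : ℕ → LR) : ℕ :=
  ∑ u ∈ Finset.range b, (phi (c u) (c (u + 1)) (c (u + 2))) +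
    (∑ u ∈ Finset.range (b - 2), omega zt (k (u + 1)) (c u) (c (u + 1)) (c (u + 2)) (c (u + 3)) +
      (omega zt (k (b - 1)) (c (b - 2)) (c (b - 1)) (c b) (c 1) +
        omega zt (k b) (c (b - 1)) (c b) (c 1) (c 2)))

end

end Pool.Agent.Lib.MP_5854e1_co.FC
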