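import Pool.Agent.Lib.MP_5854e1_co.Hyb

/-!
# The full step and the transposed format

The step with all alive lanes, and the format of the same block with rows and columns exchanged.
-/

set_option autoImplicit false

namespace Pool.Agent.Lib.MP_5854e1_co.PB.Hy

open Pk

noncomputable section

/-- The alive lanes after the step, as a function of the vector. -/
theorem adB_eq (x Z : ℕ) : adB x Z = alv (rep 23 (fb x)) Z := rfl

/-- The productive lanes for the test which does not exclude an alive lane. -/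
theorem tsS_self (R Z : ℕ) : tsS Z (alv R Z) (R * 3145728) = alv R Z := by
  have e : tsS Z (alv R Z) (R * 3145728) =
      (R * 3145728 + Z) &&& ((Z + R * 3145728) &&& (R * 4194304)) := rfl
  have e2 : alv R Z = (Z + R * 3145728) &&& (R * 4194304) := rfl
  rw [e, e2, add_comm (R * 3145728) Z, ← Nat.and_assoc, Nat.and_self]

theorem rep_hb (b c : ℕ) (hc : c < 2 ^ 22) : HB 22 b (rep 23 b * c) (2 ^ 22) ∧
    ∀ i < b, fl 22 (rep 23 b * c) i = c := by
  have e : rep 23 b * c = pk 23 b (fun _ => c) := by rw [mul_comm, const_eq (by norm_num)]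
  have h : Rep 22 b (rep 23 b * c) (fun _ => c) := ⟨e, fun _ _ => hc⟩
  exact ⟨⟨_, h, fun _ _ => hc⟩, fun i hi => fl_eq h hi⟩

/-- **The step with all alive lanes.** -/
theorem full_step {Z F x M : ℕ} (ha : 0 < fa x) (hZ : HB 22 (fa x) Z F)
    (hM : HB 22 (nX x) M (2 ^ 17)) (hb : 0 < fb x) (hF : F + 2 ^ 17 ≤ 2 ^ 22) (hF0 : 2 ^ 20 ≤ F) :
    HB 22 (fb x) (adH x M Z (alv (rep 23 (fa x)) Z) (alv (rep 23 (fa x)) Z)) (F + 2 ^ 16) ∧
      ∀ i < fa x, 2 ^ 20 ≤ fl 22 Z i → ∀ j < fb x, fl 22 Z i + fl 22 M (plX x i j) ≤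
        fl 22 (adH x M Z (alv (rep 23 (fa x)) Z) (alv (rep 23 (fa x)) Z)) j + 65536 := by
  obtain ⟨hq, hq2⟩ := rep_hb (fa x) 3145728 (by norm_num)
  have h := adH_spec ha hZ hq hM hb hF hF0 rfl
  rw [tsS_self] at h
  refine ⟨h.1, fun i hi hz j hj => h.2 i hi ?_ j hj⟩
  unfold prd
  rw [hq2 i hi, if_pos ⟨hz, by omega⟩]

/-- The format of the transposed block. -/
def trX (x : ℕ) : ℕ :=
  Nat.add (Nat.add (Nat.mul (nat_lit 512) (fa x)) (Nat.mul (nat_lit 2) (fb x)))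
    (Nat.sub (nat_lit 1) (fk x))

theorem trX_eq (x : ℕ) : trX x = 512 * fa x + 2 * fb x + (1 - fk x) := rfl

theorem fk_le (x : ℕ) : fk x ≤ 1 := Nat.le_of_lt_succ (Nat.mod_lt _ (by decide))

theorem fk_trX (x : ℕ) : fk (trX x) = 1 - fk x := by
  have h := fk_le x
  have e : fk (trX x) = trX x % 2 := rfl
  rw [e, trX_eq]
  omega

theorem fa_trX {x : ℕ} (hb : fb x < 256) : fa (trX x) = fb x := by
  have h := fk_le x
  have e : fa (trX x) = trX x / 2 % 256 := rfl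
  rw [e, trX_eq]
  omega

theorem fb_trX {x : ℕ} (hb : fb x < 256) : fb (trX x) = fa x := by
  have h := fk_le x
  have e : fb (trX x) = trX x / 512 := rfl
  rw [e, trX_eq]
  omega

theorem cOf_tr (k a b : ℕ) (hk : k ≤ 1) : cOf (1 - k) b a = cOf k a b := by
  rcases Nat.le_one_iff_eq_zero_or_eq_one.1 hk with rfl | rfl
  · rfl
  · rfl

theorem nX_trX {x : ℕ} (hb : fb x < 256) : nX (trX x) = nX x := by
  unfold nX
  rw [fk_trX, fa_trX hb, fb_trX hb]
  unfold nOf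
  rw [cOf_tr _ _ _ (fk_le x)]
  rcases Nat.le_one_iff_eq_zero_or_eq_one.1 (fk_le x) with h | h <;> rw [h] <;> rfl

theorem plX_trX {x : ℕ} (hb : fb x < 256) (i j : ℕ) : plX (trX x) j i = plX x i j := by
  unfold plX
  rw [fk_trX, fa_trX hb, fb_trX hb]
  unfold pl
  rw [cOf_tr _ _ _ (fk_le x)]
  rcases Nat.le_one_iff_eq_zero_or_eq_one.1 (fk_le x) with h | h <;> rw [h] <;> rfl

/-- **The backward step with all alive lanes.** -/
theorem full_back {Z F x M : ℕ} (ha : 0 < fa x) (hb : 0 < fb x) (hb2 : fb x < 256)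
    (hZ : HB 22 (fb x) Z F) (hM : HB 22 (nX x) M (2 ^ 17)) (hF : F + 2 ^ 17 ≤ 2 ^ 22)
    (hF0 : 2 ^ 20 ≤ F) :
    HB 22 (fa x) (adH (trX x) M Z (alv (rep 23 (fb x)) Z) (alv (rep 23 (fb x)) Z)) (F + 2 ^ 16) ∧
      ∀ j < fb x, 2 ^ 20 ≤ fl 22 Z j → ∀ i < fa x, fl 22 Z j + fl 22 M (plX x i j) ≤
        fl 22 (adH (trX x) M Z (alv (rep 23 (fb x)) Z) (alv (rep 23 (fb x)) Z)) i + 65536 := by
  have h := full_step (x := trX x) (M := M) (Z := Z) (F := F) (by rw [fa_trX hb2]; exact hb)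
    (by rw [fa_trX hb2]; exact hZ) (by rw [nX_trX hb2]; exact hM) (by rw [fb_trX hb2]; exact ha)
    hF hF0
  rw [fa_trX hb2, fb_trX hb2] at h
  refine ⟨h.1, fun j hj hz i hi => ?_⟩
  have h2 := h.2 j hj hz i hi
  rwa [plX_trX hb2] at h2

end

end Pool.Agent.Lib.MP_5854e1_co.PB.Hy
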