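import Pool.Agent.Lib.MP_5854e1_co.CloseMap
import Pool.Agent.Lib.MP_5854e1_co.Trn

/-!
# The fast evaluation of a closed word: the definitions

For every start lane a pass forward gives the vectors of the values of the first parts of the word.
The pass back computes, for the lanes that can belong to a positive cycle, the list of the next
lanes, with the best values of the rest of the word; there the corrections of the fans are
subtracted. The enumeration uses the same lists and treats a lane only if the bound allows a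
positive sum.
-/

set_option autoImplicit false

namespace Pool.Agent.Lib.MP_5854e1_co.FC

open Pk PB CE

/-- The value `x` as a literal. -/
noncomputable def rLit {α : Type} (x : ℕ) (f : ℕ → α) : α :=
  Nat.rec (motive := fun _ => α) (f (nat_lit 0)) (fun m _ => f m) (Nat.succ x)

theorem rLit_eq {α : Type} (x : ℕ) (f : ℕ → α) : rLit x f = f x := rfl

/-- The corrections of a corner as a function of the right token; `n`: no corrections. -/
inductive FO : Type
  | n : FO
  | f (g : ℕ → ℕ) : FO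

/-- The record of a lane. `t`: a triangular corner with its state, the token for windows, the tokens
as a left and a right neighbour of a triangular corner, the tokens as a left and a right neighbour of
another corner and the corrections as a function of the left token. `p`: the same without
corrections. `z`: a corner of a longer face without corrections. `o`: a corner of a longer face with
exact steps. `b`: three possibilities. -/
inductive LR : Type
  | t (s xa ta tb tc td : ℕ) (H : ℕ → FO) : LR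
  | p (s xa ta tb tc td : ℕ) : LR
  | z : LR
  | o (u : ℕ) (H : ℕ → FO) : LR
  | b (x y z : LR) : LR

/-- The stack of the pass forward. -/
inductive SK : Type
  | nil : SK
  | cons (k o x M Z A : ℕ) (rest : SK) : SK

/-- The next lanes: value of the step, value of the step and the rest of the word, lane, right token,
record. -/
inductive CL : Type
  | nil : CL
  | cons (m w i tR : ℕ) (c : LR) (rest : CL) : CL

noncomputable section

/-- The lane of the digit `g = 2 ^ (23 i)`. -/
def ix (g : ℕ) : ℕ := Nat.div (Nat.mod g (nat_lit 70368727400449)) (nat_lit 8388607)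

/-- No correction. -/
def f0 : ℕ → ℕ := fun _ => nat_lit 0

/-- No window. -/
def z0 : LR → DL := fun _ => DL.nil

/-! ### The values -/

/-- The maximum of the values of a list. -/
def pm (l : CL) : ℕ :=
  CL.rec (motive := fun _ => ℕ) (nat_lit 0) (fun _ w _ _ _ _ ih => Nat.add w (Nat.sub ih w)) l

/-- The maximum with corrections. -/
def vl (fan : ℕ → ℕ) (l : CL) : ℕ :=
  CL.rec (motive := fun _ => ℕ) (nat_lit 0)
   (fun _ w _ tR _ _ ih => Nat.add ih (Nat.sub (Nat.sub w (fan tR)) ih)) l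

/-- The value of a lane without the correction of its corner. -/
def F1 (nl : ℕ → CL) (i : ℕ) : ℕ := Nat.add (pm (nl i)) (nat_lit 0)

/-- The value of a lane with the correction of its corner. -/
def F2 (nl : ℕ → CL) (i : ℕ) (fan : ℕ → ℕ) : ℕ := vl fan (nl i)

/-- The value of a lane with the corrections `h`. -/
def vt (f1 : ℕ → ℕ) (f2 : ℕ → (ℕ → ℕ) → ℕ) (i : ℕ) (h : FO) : ℕ :=
  FO.rec (motive := fun _ => ℕ) (f1 i) (fun g => f2 i g) h

/-- The entries of a lane, in front of the list `rest`. -/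
def pr (f1 : ℕ → ℕ) (f2 : ℕ → (ℕ → ℕ) → ℕ) (vv : ℕ → ℕ) (ta tc : ℕ) (q : Bool) (m i : ℕ) (L : LR) :
    CL → CL :=
  LR.rec (motive := fun _ => CL → CL)
    (fun s xa a b c d H rest => rLit (Nat.add (vt f1 f2 i (H ta)) m) fun w =>
      CL.cons m w i (Bool.rec (motive := fun _ => ℕ) b d q) (LR.t s xa a b c d H) rest)
    (fun s xa a b c d rest => rLit (Nat.add (f1 i) m) fun w =>
      CL.cons m w i (Bool.rec (motive := fun _ => ℕ) b d q) (LR.p s xa a b c d) rest)
    (fun rest => rLit (Nat.add (f1 i) m) fun w => CL.cons m w i (nat_lit 0) LR.z rest)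
    (fun u H rest => rLit (vv u) fun v => Bool.rec (motive := fun _ => CL)
      (rLit (Nat.add (vt f1 f2 i (H tc)) v) fun w => CL.cons v w i (nat_lit 0) (LR.o u H) rest)
      rest (Nat.ble (Nat.succ m) v))
    (fun _ _ _ x y z rest => x (y (z rest))) L

/-- The entries of the lanes with the digits `u`. -/
def lo (f1 : ℕ → ℕ) (f2 : ℕ → (ℕ → ℕ) → ℕ) (vv : ℕ → ℕ) (E : ℕ → LR) (T ta tc : ℕ) (q : Bool)
    (n : ℕ) : ℕ → CL :=
  Nat.rec (motive := fun _ => ℕ → CL) (fun _ => CL.nil)
    (fun _ ih u => rLit (ix (Nat.gcd u Hy.pP)) fun i =>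
      pr f1 f2 vv ta tc q (Nat.mod (Nat.shiftRight T (Nat.mul (nat_lit 23) i)) (nat_lit 8388608)) i
        (E i) (ih (Nat.sub u (Nat.gcd u Hy.pP)))) n

/-- The entries of the lanes with the digits `u`. -/
def lop (f1 : ℕ → ℕ) (f2 : ℕ → (ℕ → ℕ) → ℕ) (vv : ℕ → ℕ) (E : ℕ → LR) (T ta tc : ℕ) (q : Bool)
    (u : ℕ) : CL :=
  lo f1 f2 vv E T ta tc q (Nat.mod u (nat_lit 8388607)) u

/-- The digits of the next lanes. -/
def cnd (R B P T z : ℕ) : ℕ :=
  Nat.shiftRight (Nat.land (Nat.add (Nat.add T B)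
    (Nat.mul (Nat.add (Nat.mod z (nat_lit 8388608)) (nat_lit 1507327)) R)) P) (nat_lit 22)

/-- The list of the lane `i`: `rX` gives the rows of the block, `E0` the records of the lanes, `E` the
ones of the next lanes. -/
def ml (f1 : ℕ → ℕ) (f2 : ℕ → (ℕ → ℕ) → ℕ) (vv : ℕ → ℕ → ℕ) (E E0 : ℕ → LR) (rX : ℕ → ℕ)
    (R Z B P : ℕ) (i : ℕ) : CL :=
  LR.rec (motive := fun _ => CL)
    (fun _ _ a _ c _ _ => lop f1 f2 (vv i) E (rX i) a c false
      (cnd R B P (rX i) (Nat.shiftRight Z (Nat.mul (nat_lit 23) i))))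
    (fun _ _ a _ c _ => lop f1 f2 (vv i) E (rX i) a c false
      (cnd R B P (rX i) (Nat.shiftRight Z (Nat.mul (nat_lit 23) i))))
    (lop f1 f2 (vv i) E (rX i) (nat_lit 0) (nat_lit 0) true
      (cnd R B P (rX i) (Nat.shiftRight Z (Nat.mul (nat_lit 23) i))))
    (fun _ _ => lop f1 f2 (vv i) E (rX i) (nat_lit 0) (nat_lit 0) true
      (cnd R B P (rX i) (Nat.shiftRight Z (Nat.mul (nat_lit 23) i))))
    (fun _ _ _ _ _ _ => lop f1 f2 (vv i) E (rX i) (nat_lit 0) (nat_lit 0) true
      (cnd R B P (rX i) (Nat.shiftRight Z (Nat.mul (nat_lit 23) i)))) (E0 i)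

/-- The vector of the values of the lanes with the digits `u`. -/
def pkv (f : ℕ → ℕ) (cs n : ℕ) : ℕ → ℕ → ℕ :=
  Nat.rec (motive := fun _ => ℕ → ℕ → ℕ) (fun _ a => a)
    (fun _ ih u a => rLit (ix (Nat.gcd u Hy.pP)) fun i => ih (Nat.sub u (Nat.gcd u Hy.pP))
      (Nat.add a (Nat.mul (Nat.sub (f i) cs) (Nat.gcd u Hy.pP)))) n

/-- The rows of a block; `x'` is the transposed format. -/
def rX (x' M : ℕ) : ℕ → ℕ :=
  Bool.rec (motive := fun _ => ℕ → ℕ)
    (fun j => Nat.mod (Nat.shiftRight M (Nat.mul (sX x') j)) (wX x'))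
    (fun j => Nat.mod (Nat.land (Nat.shiftRight M (Nat.mul (nat_lit 23) j)) (smX x')) (dX x'))
    (Nat.beq (fk x') (nat_lit 0))

/-! ### The enumeration -/

/-- The corrections as a function. -/
def fv (h : FO) : ℕ → ℕ := FO.rec (motive := fun _ => ℕ → ℕ) f0 (fun g => g) h

/-- The correction of a corner as a function of the right token; `ta`, `tc` are the tokens of the
left neighbour. -/
def fn (ta tc : ℕ) (c : LR) : ℕ → ℕ :=
  LR.rec (motive := fun _ => ℕ → ℕ) (fun _ _ _ _ _ _ H => fv (H ta)) (fun _ _ _ _ _ _ => f0) f0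
    (fun _ H => fv (H tc)) (fun _ _ _ _ _ _ => f0) c

/-- The ring state. -/
def sv (c : LR) : ℕ :=
  LR.rec (motive := fun _ => ℕ) (fun s _ _ _ _ _ _ => s) (fun s _ _ _ _ _ => s) (nat_lit 7936)
    (fun _ _ => nat_lit 7936) (fun _ _ _ _ _ _ => nat_lit 7936) c

/-- The right token for windows. -/
def yR (c : LR) : ℕ :=
  LR.rec (motive := fun _ => ℕ) (fun s _ _ _ _ _ _ => Nat.succ s) (fun s _ _ _ _ _ => Nat.succ s)
    (nat_lit 0) (fun _ _ => nat_lit 0) (fun _ _ _ _ _ _ => nat_lit 0) c

/-- The correction of a window. -/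
def zv (zl : DL) (c : LR) (tX : ℕ) : ℕ :=
  DL.rec (motive := fun _ => ℕ) (nat_lit 0) (fun _ _ _ _ => DR.val (DL.grp zl (yR c)) tX) zl

/-- The list of the windows with the corners of the records. -/
def zw (zt : DT) (k s : ℕ) (c : LR) : DL :=
  LR.rec (motive := fun _ => DL) (fun s' _ _ _ _ _ _ => DT.get zt (zkey k s s'))
    (fun s' _ _ _ _ _ => DT.get zt (zkey k s s')) DL.nil (fun _ _ => DL.nil)
    (fun _ _ _ _ _ _ => DL.nil) c

/-- The tokens of a record: as a left neighbour, for windows, and the windows. -/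
def tk (zt : DT) (k : ℕ) (c : LR) (f : ℕ → ℕ → ℕ → (LR → DL) → Bool) : Bool :=
  LR.rec (motive := fun _ => Bool) (fun s xa a _ c _ _ => f a c xa (zw zt k s))
    (fun s xa a _ c _ => f a c xa (zw zt k s)) (f (nat_lit 0) (nat_lit 0) (nat_lit 0) z0)
    (fun _ _ => f (nat_lit 0) (nat_lit 0) (nat_lit 0) z0) (fun _ _ _ _ _ _ => false) c

/-- The loop over the next lanes. -/
def dl (f : ℕ → LR → ℕ → ℕ → Bool) (thr : ℕ) (fan : ℕ → ℕ) (zl : DL) (tX A : ℕ) (l : CL) : Bool :=
  CL.rec (motive := fun _ => Bool) true (fun m w i tR c _ ih =>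
    rLit (Nat.add (fan tR) (zv zl c tX)) fun C =>
      Bool.rec (motive := fun _ => Bool) (Bool.rec (motive := fun _ => Bool) false ih
        (rLit (Nat.sub (Nat.add A m) C) fun A' => f i c A' tR)) ih
        (Nat.ble (Nat.sub (Nat.add A w) C) thr)) l

/-- The type of a node: lane, record, correction of the corner, windows, tokens for windows of the two
corners before, value, corners before in reversed order. -/
abbrev Gt : Type := ℕ → LR → (ℕ → ℕ) → DL → ℕ → ℕ → ℕ → Pth → Bool

/-- The type of the last test. -/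
abbrev Fn : Type := (ℕ → ℕ) → DL → ℕ → ℕ → ℕ → Pth → Bool

/-- The enumeration at the end of the word. -/
def D0 (_ : ℕ) (fin : Fn) : Gt := fun _ _ fan zl tX tL A p => fin fan zl tX tL A p

/-- One level of the enumeration. -/
def DD (zt : DT) (k o : ℕ) (nl : ℕ → CL) (D : ℕ → Fn → Gt) (thr : ℕ) (fin : Fn) : Gt :=
  fun i c fan zl tX tL A p => tk zt k c fun a e xa z =>
    dl (fun i' c' A' _ => D thr fin i' c' (fn a e c') (z c') tL xa A' (Pth.cons k o (sv c) p))
      thr fan zl tX A (nl i)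

/-- The test of a reversed word. -/
def rv (g : Pth → Bool) (p : Pth) : Pth → Bool :=
  Pth.rec (motive := fun _ => Pth → Bool) g
    (fun k o s _ ih q => rLit s fun s' => ih (Pth.cons k o s' q)) p

/-- The last test. -/
def fin (rg : Pth → ℕ → Bool) (kb ob : ℕ) (c0 : LR) (thr : ℕ) (c1 : LR) (t1 : ℕ) (zb : DL) (c2 : LR)
    (fan : ℕ → ℕ) (zl : DL) (tX tL A : ℕ) (p : Pth) : Bool :=
  rLit (Nat.add thr (Nat.add (fan t1) (Nat.add (zv zl c1 tX) (zv zb c2 tL)))) fun B =>
    Bool.rec (motive := fun _ => Bool) (rLit (Nat.sub A B) fun m => rLit (sv c0) fun s0 =>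
      rv (fun q => rg q m) p (Pth.cons kb ob s0 Pth.nil)) true (Nat.ble A B)

/-- The levels of the word: own pair, lists, enumeration of the rest. -/
inductive Lev : Type
  | nil : Lev
  | cons (k o : ℕ) (nl : ℕ → CL) (D : ℕ → Fn → Gt) (rest : Lev) : Lev

/-- The first two levels. -/
def top (zt : DT) (rg : Pth → ℕ → Bool) (r : ℕ) (c0 : LR) (cs : ℕ) (W : Lev) : Bool :=
  rLit (Nat.add (nat_lit 2621440) cs) fun thr =>
  Lev.rec (motive := fun _ => Bool) false (fun k o nl _ W1 _ => tk zt k c0 fun a e xa z =>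
    dl (fun i1 c1 A1 t1 =>
      Lev.rec (motive := fun _ => Bool) false (fun k1 o1 nl1 D _ _ =>
        tk zt k1 c1 fun a1 e1 xa1 z1 =>
          dl (fun i2 c2 A2 _ =>
            D thr (fin rg k o c0 (Nat.sub thr (nat_lit 1572864)) c1 t1 (z c1) c2) i2 c2
              (fn a1 e1 c2) (z1 c2) xa xa1 A2 (Pth.cons k1 o1 (sv c1) Pth.nil))
            thr (fn a e c1) DL.nil (nat_lit 0) A1 (nl1 i1)) W1)
      thr f0 DL.nil (nat_lit 0) (nat_lit 1048576) (nl r)) W

/-! ### The passes -/

section

variable (E : ℕ → ℕ → ℕ → LR) (vx : ℕ → ℕ → ℕ → ℕ → ℕ → ℕ → ℕ) (zt : DT) (rg : Pth → ℕ → Bool)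

/-- The continuation of the pass back: the next own pair, the vector of the values of its lanes and
its digits, the two functions of the values, the enumeration, the records, the levels and the
constant. -/
abbrev Bt : Type := ℕ → ℕ → ℕ → ℕ → (ℕ → ℕ) → (ℕ → (ℕ → ℕ) → ℕ) → (ℕ → Fn → Gt) → (ℕ → LR) → Lev →
  ℕ → Bool

/-- One level of the pass back. -/
def bs (ih : Bt) (k o x Z A Q cs : ℕ) (D : ℕ → Fn → Gt) (E0 : ℕ → LR) (W : Lev) (nl : ℕ → CL) :
    Bool :=
  rLit (pkv (F1 nl) cs (Nat.mod Q (nat_lit 8388607)) Q (nat_lit 0)) fun B' =>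
  rLit (Nat.land (Nat.add (Nat.add Z B') (Nat.mul (oneB (fa x)) (nat_lit 1572863))) A) fun P' =>
  Bool.rec (motive := fun _ => Bool)
    (ih k o B' P' (F1 nl) (F2 nl) (DD zt k o nl D) E0 (Lev.cons k o nl D W) cs)
    true (Nat.beq P' (nat_lit 0))

/-- The pass back. -/
def bk (fin : ℕ → Lev → Bool) (st : SK) : Bt :=
  SK.rec (motive := fun _ => Bt)
    (fun _ _ _ _ _ _ _ _ W cs => fin cs W)
    (fun k o x M Z A _ ih kR oR B P f1 f2 D E' W cs =>
      rLit (Hy.trX x) fun x' =>
      bs zt ih k o x Z A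
        (Nat.shiftRight (Nat.land (Nat.add (Nat.add Z (Hy.adH x' M B P P))
          (Nat.mul (oneB (fa x)) (nat_lit 1572863))) A) (nat_lit 22))
        (Nat.add cs (nat_lit 65536)) D (E k o) W
        (ml f1 f2 (fun i u => vx k o i kR oR u) E' (E k o) (rX x' M) (oneB (fb x)) Z B P)) st

/-- All possibilities of a record. -/
def alt (f : LR → Bool) (L : LR) : Bool :=
  LR.rec (motive := fun _ => Bool) (fun s xa a b c d H => f (LR.t s xa a b c d H))
    (fun s xa a b c d => f (LR.p s xa a b c d)) (f LR.z) (fun u H => f (LR.o u H))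
    (fun _ _ _ x y z => rAnd x (rAnd y z)) L

/-- A start lane; `A` are the digits of the lanes after the pass forward. -/
def stl (kb ob r A : ℕ) (st : SK) : Bool :=
  rLit (Nat.pow (nat_lit 2) (Nat.mul (nat_lit 23) r)) fun p =>
  Bool.rec (motive := fun _ => Bool)
    (alt (fun c0 => bk E vx zt (top zt rg r c0) st kb ob (Nat.mul p (nat_lit 1572864))
      (Nat.mul p (nat_lit 4194304)) (fun _ => nat_lit 1572864) (fun _ _ => nat_lit 1572864) D0
      (fun _ => c0) Lev.nil (nat_lit 0)) (E kb ob r))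
    true (Nat.beq (Nat.land A (Nat.mul p (nat_lit 4194304))) (nat_lit 0))

end

/-- The pass forward. -/
def fw (fin : ℕ → SK → Bool) (W : Wd) : ℕ → ℕ → SK → Bool :=
  Wd.rec (motive := fun _ => ℕ → ℕ → SK → Bool) (fun _ A st => fin A st)
    (fun k o x M _ ih Z A st => Bool.rec (motive := fun _ => Bool)
      (rLit (Hy.adH x M Z A A) fun Z' => rLit (Hy.adB x Z') fun A' =>
        ih Z' A' (SK.cons k o x M Z A st))
      true (Nat.beq A (nat_lit 0))) W

/-- The loop over the lanes with the digits `u`. -/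
def lp (f : ℕ → Bool) (n : ℕ) : ℕ → Bool :=
  Nat.rec (motive := fun _ => ℕ → Bool) (fun _ => true)
    (fun _ ih u => Bool.rec (motive := fun _ => Bool) false
      (ih (Nat.sub u (Nat.gcd u Hy.pP))) (rLit (ix (Nat.gcd u Hy.pP)) f)) n

/-- The evaluation of a closed word. -/
def cw (g : ℕ → ℕ → SK → Bool) (a : ℕ) (W : Wd) : Bool :=
  rLit (oneB a) fun R =>
    fw (fun A _ => rLit (Nat.shiftRight A (nat_lit 22)) fun u =>
      lp (fun r => fw (g r) W (Nat.pow (nat_lit 2) (Nat.add (Nat.mul (nat_lit 23) r) (nat_lit 20)))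
        (Nat.pow (nat_lit 2) (Nat.add (Nat.mul (nat_lit 23) r) (nat_lit 22))) SK.nil)
        (Nat.mod u (nat_lit 8388607)) u) W
      (Nat.mul R (nat_lit 1048576)) (Nat.mul R (nat_lit 4194304)) SK.nil

/-- **The evaluation.** The history starts with the last strip of the cell; `(x, M)` is the block from
its pair to the first pair. -/
def cev (E : ℕ → ℕ → ℕ → LR) (vx : ℕ → ℕ → ℕ → ℕ → ℕ → ℕ → ℕ) (zt : DT) (rg : Pth → ℕ → Bool)
    (h : List Hs) (x M : ℕ) : Bool :=
  List.rec (motive := fun _ => Bool) false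
    (fun a l _ => Hs.rec (motive := fun _ => Bool)
      (fun k o x' M' => bw (fun W => cw (stl E vx zt rg k o) (fa x) (Wd.cons k o x M W)) l x' M' Wd.nil)
      a) h

/-! ### The records -/

section

variable (t tw t4 : DT) (tr tl : ℕ → ℕ → ℕ)

/-- A row of a table, evaluated. -/
def rDL (r : DL) (f : DL → LR) : LR :=
  DL.rec (motive := fun _ => LR) (f DL.nil) (fun a b l _ => f (DL.g a b l)) r

/-- The corrections of two groups. -/
def f2r (g1 g2 : DR) (x : ℕ) : ℕ := Nat.add (DR.val g1 x) (DR.val g2 x)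

/-- The corrections of two groups. -/
def hR (g1 g2 : DR) : FO :=
  DR.rec (motive := fun _ => FO) (DR.rec (motive := fun _ => FO) FO.n (fun _ _ _ _ => FO.f (DR.val g2)) g2)
    (fun _ _ _ _ => DR.rec (motive := fun _ => FO) (FO.f (DR.val g1))
      (fun _ _ _ _ => FO.f (f2r g1 g2)) g2) g1

/-- The corrections of two rows. -/
def hT (r r2 : DL) (x : ℕ) : FO := hR (DL.grp r x) (DL.grp r2 x)

/-- The record of a triangular corner. -/
def crT (k s : ℕ) : LR :=
  rLit (Nat.succ (rjA k s)) fun a => rLit (Nat.succ s) fun b => rLit (Nat.succ (tl k s)) fun c =>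
    rLit (Nat.succ (tr k s)) fun d => rDL (DT.get t (dkey k s)) fun r =>
      rDL (DT.get tw (dkey k s)) fun r2 => Bool.rec (motive := fun _ => LR)
        (LR.t s a a b c d (hT r r2)) (LR.p s a a b c d) (rAnd (dnil r) (dnil r2))

/-- The record of a corner of a longer face. -/
def crO (k o b : ℕ) : LR :=
  rDL (DT.get t4 (fkey k o b)) fun r => LR.o b (hT r DL.nil)

/-- The record of a lane. -/
def ldt (k o i : ℕ) : LR :=
  Bool.rec (motive := fun _ => LR)
    (rLit (Nat.mul (nat_lit 3) (Nat.sub i (nt k o))) fun b => Bool.rec (motive := fun _ => LR)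
      (LR.b (crO t4 k o b) (crO t4 k o (Nat.add b (nat_lit 1))) (crO t4 k o (Nat.add b (nat_lit 2))))
      LR.z (nil3 t4 k o b))
    (rLit (sl k o i) fun s => crT t tw tr tl k s)
    (Nat.ble (Nat.succ i) (nt k o))

end

end

end Pool.Agent.Lib.MP_5854e1_co.FC
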