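import Pool.Agent.Lib.MP_5854e1_co.Fcl2
import Pool.Agent.Lib.MP_5854e1_co.CloseMap

/-!
# The fast evaluation of a closed word: the cells of a map of strips
-/

set_option autoImplicit false

namespace Pool.Agent.Lib.MP_5854e1_co.FC

open Pk PB CE

noncomputable section

section

variable (t tw t4 : DT) (tr tl : ℕ → ℕ → ℕ)

theorem rDL_eq (r : DL) (f : DL → LR) : rDL r f = f r := by
  cases r with
  | nil => rfl
  | g _ _ _ => rfl

theorem crT_eq (k s : ℕ) : crT t tw tr tl k s = Bool.rec (motive := fun _ => LR)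
    (LR.t s (Nat.succ (rjA k s)) (Nat.succ (rjA k s)) (Nat.succ s) (Nat.succ (tl k s))
      (Nat.succ (tr k s)) (hT (DT.get t (dkey k s)) (DT.get tw (dkey k s))))
    (LR.p s (Nat.succ (rjA k s)) (Nat.succ (rjA k s)) (Nat.succ s) (Nat.succ (tl k s))
      (Nat.succ (tr k s))) (rAnd (dnil (DT.get t (dkey k s))) (dnil (DT.get tw (dkey k s)))) := by
  unfold crT
  rw [rLit_eq, rLit_eq, rLit_eq, rLit_eq, rDL_eq, rDL_eq]

theorem crO_eq (k o b : ℕ) :
    crO t4 k o b = LR.o b (hT (DT.get t4 (fkey k o b)) DL.nil) := by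
  unfold crO
  rw [rDL_eq]

theorem opt_crT (k s : ℕ) : Opt (crT t tw tr tl k s) (crT t tw tr tl k s) := by
  rw [crT_eq]
  cases rAnd (dnil (DT.get t (dkey k s))) (dnil (DT.get tw (dkey k s))) with
  | true => exact Opt.p _ _ _ _ _ _
  | false => exact Opt.t _ _ _ _ _ _ _

theorem opt_crO (k o b : ℕ) : Opt (crO t4 k o b) (crO t4 k o b) := by
  rw [crO_eq]
  exact Opt.o _ _

theorem ldt_tri {k o i : ℕ} (h : Nat.ble (Nat.succ i) (nt k o) = true) :
    ldt t tw t4 tr tl k o i = crT t tw tr tl k (sl k o i) := by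
  unfold ldt
  rw [h]
  rfl

theorem ldt_big {k o i : ℕ} (h : Nat.ble (Nat.succ i) (nt k o) = false) :
    ldt t tw t4 tr tl k o i = Bool.rec (motive := fun _ => LR)
      (LR.b (crO t4 k o (Nat.mul 3 (Nat.sub i (nt k o))))
        (crO t4 k o (Nat.add (Nat.mul 3 (Nat.sub i (nt k o))) 1))
        (crO t4 k o (Nat.add (Nat.mul 3 (Nat.sub i (nt k o))) 2)))
      LR.z (nil3 t4 k o (Nat.mul 3 (Nat.sub i (nt k o)))) := by
  unfold ldt
  rw [h, rLit_eq]

theorem fv_hR (g1 g2 : DR) (x : ℕ) : fv (hR g1 g2) x = DR.val g1 x + DR.val g2 x := by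
  cases g1 with
  | nil =>
    cases g2 with
    | nil => rfl
    | e a b r => exact (Nat.zero_add _).symm
  | e a b r =>
    cases g2 with
    | nil => rfl
    | e a' b' r' => rfl

theorem fv_hT (r r2 : DL) (a x : ℕ) : fv (hT r r2 a) x = DL.val r a x + DL.val r2 a x :=
  fv_hR _ _ _

theorem val_nil (a x : ℕ) : DL.val DL.nil a x = 0 := rfl

/-- The correction of the fan at a triangular corner. -/
theorem fn_crT (k s ta tc x : ℕ) : fn ta tc (crT t tw tr tl k s) x =
    DL.val (DT.get t (dkey k s)) ta x + DL.val (DT.get tw (dkey k s)) ta x := by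
  rw [crT_eq]
  cases h : rAnd (dnil (DT.get t (dkey k s))) (dnil (DT.get tw (dkey k s))) with
  | true =>
    obtain ⟨h1, h2⟩ := rAnd_iff.1 h
    rw [dnil_eq h1, dnil_eq h2]
    rfl
  | false => exact fv_hT _ _ _ _

/-- The correction of the fan at another corner. -/
theorem fn_crO (k o b ta tc x : ℕ) : fn ta tc (crO t4 k o b) x =
    DL.val (DT.get t4 (fkey k o b)) tc x := by
  rw [crO_eq]
  exact fv_hT _ _ _ _

theorem la_crT (k s : ℕ) : (crT t tw tr tl k s).la = Nat.succ (rjA k s) := by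
  rw [crT_eq]
  cases rAnd (dnil (DT.get t (dkey k s))) (dnil (DT.get tw (dkey k s))) <;> rfl

theorem lc_crT (k s : ℕ) : (crT t tw tr tl k s).lc = Nat.succ (tl k s) := by
  rw [crT_eq]
  cases rAnd (dnil (DT.get t (dkey k s))) (dnil (DT.get tw (dkey k s))) <;> rfl

theorem lx_crT (k s : ℕ) : (crT t tw tr tl k s).lx = Nat.succ (rjA k s) := by
  rw [crT_eq]
  cases rAnd (dnil (DT.get t (dkey k s))) (dnil (DT.get tw (dkey k s))) <;> rfl

theorem big_crT (k s : ℕ) : (crT t tw tr tl k s).big = false := by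
  rw [crT_eq]
  cases rAnd (dnil (DT.get t (dkey k s))) (dnil (DT.get tw (dkey k s))) <;> rfl

theorem rt_crT (q : Bool) (k s : ℕ) : (crT t tw tr tl k s).rt q =
    Bool.rec (motive := fun _ => ℕ) (Nat.succ s) (Nat.succ (tr k s)) q := by
  rw [crT_eq]
  cases rAnd (dnil (DT.get t (dkey k s))) (dnil (DT.get tw (dkey k s))) <;> rfl

theorem yR_crT (k s : ℕ) : yR (crT t tw tr tl k s) = Nat.succ s := by
  rw [crT_eq]
  cases rAnd (dnil (DT.get t (dkey k s))) (dnil (DT.get tw (dkey k s))) <;> rfl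

theorem sv_crT (k s : ℕ) : sv (crT t tw tr tl k s) = s := by
  rw [crT_eq]
  cases rAnd (dnil (DT.get t (dkey k s))) (dnil (DT.get tw (dkey k s))) <;> rfl

theorem zr_crT (zt : DT) (k0 k s : ℕ) (c : LR) :
    (crT t tw tr tl k s).zr zt k0 c = zw zt k0 s c := by
  rw [crT_eq]
  cases rAnd (dnil (DT.get t (dkey k s))) (dnil (DT.get tw (dkey k s))) <;> rfl

theorem zw_crT (zt : DT) (k0 s0 k s : ℕ) :
    zw zt k0 s0 (crT t tw tr tl k s) = DT.get zt (zkey k0 s0 s) := by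
  rw [crT_eq]
  cases rAnd (dnil (DT.get t (dkey k s))) (dnil (DT.get tw (dkey k s))) <;> rfl

theorem mv_crT (vv : ℕ → ℕ) (m k s : ℕ) : (crT t tw tr tl k s).mv vv m = m := by
  rw [crT_eq]
  cases rAnd (dnil (DT.get t (dkey k s))) (dnil (DT.get tw (dkey k s))) <;> rfl

theorem zv_eq (zl : DL) (c : LR) (x : ℕ) : zv zl c x = DL.val zl (yR c) x := by
  cases zl with
  | nil => rfl
  | g _ _ _ => rfl

end

end

end Pool.Agent.Lib.MP_5854e1_co.FC

namespace Pool.Agent.Lib.MP_5854e1_co.SMap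

open PB CE FC

variable {F : Type*} (T : SMap F)

noncomputable section

variable (c : Tabs) (tl : ℕ → ℕ → ℕ)

open Classical in
/-- The record of a strip. -/
def cO (e : F) : LR :=
  if T.Tri e then crT c.t c.tw c.tr tl (T.kx e) (T.rs e) else
    if T.exB c e = true then LR.z else crO c.t4 (T.kx e) (T.ox e) (T.rs e - 7936)

variable {c tl}

theorem cO_tri {e : F} (h : T.Tri e) : T.cO c tl e = crT c.t c.tw c.tr tl (T.kx e) (T.rs e) :=
  if_pos h

theorem cO_big (e : F) (h : ¬T.Tri e) : T.cO c tl e = LR.z ∨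
    (T.exB c e = false ∧ T.cO c tl e = crO c.t4 (T.kx e) (T.ox e) (T.rs e - 7936)) := by
  unfold cO
  rw [if_neg h]
  by_cases h1 : T.exB c e = true
  · exact Or.inl (if_pos h1)
  · exact Or.inr ⟨by simpa using h1, if_neg h1⟩

theorem big_cO_tri {e : F} (h : T.Tri e) : (T.cO c tl e).big = false := by
  rw [T.cO_tri h, big_crT]

theorem big_cO_big {e : F} (h : ¬T.Tri e) : (T.cO c tl e).big = true := by
  rcases T.cO_big (c := c) (tl := tl) e h with h1 | ⟨-, h1⟩
  · rw [h1]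
    rfl
  · rw [h1, crO_eq]
    rfl

theorem xrT_tri (f : ℕ → ℕ → ℕ) {e : F} (h : T.Tri e) :
    xrT f (T.kx e) (T.rs e) = Nat.succ (f (T.kx e) (T.rs e)) := by
  unfold xrT
  rw [T.ble_rs_tri h, rIf_false]

theorem xrT_big (f : ℕ → ℕ → ℕ) {e : F} (h : ¬T.Tri e) : xrT f (T.kx e) (T.rs e) = 0 :=
  xrT_of_le (T.ble_rs_big h)

theorem la_cO (e : F) : (T.cO c tl e).la = xrT rjA (T.kx e) (T.rs e) := by
  by_cases h : T.Tri e
  · rw [T.cO_tri h, la_crT, T.xrT_tri _ h]
  · rw [T.xrT_big _ h]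
    rcases T.cO_big (c := c) (tl := tl) e h with h1 | ⟨-, h1⟩
    · rw [h1]
      rfl
    · rw [h1, crO_eq]
      rfl

theorem lx_cO (e : F) : (T.cO c tl e).lx = xrT rjA (T.kx e) (T.rs e) := by
  by_cases h : T.Tri e
  · rw [T.cO_tri h, lx_crT, T.xrT_tri _ h]
  · rw [T.xrT_big _ h]
    rcases T.cO_big (c := c) (tl := tl) e h with h1 | ⟨-, h1⟩
    · rw [h1]
      rfl
    · rw [h1, crO_eq]
      rfl

theorem lc_cO (e : F) : (T.cO c tl e).lc = xrT tl (T.kx e) (T.rs e) := by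
  by_cases h : T.Tri e
  · rw [T.cO_tri h, lc_crT, T.xrT_tri _ h]
  · rw [T.xrT_big _ h]
    rcases T.cO_big (c := c) (tl := tl) e h with h1 | ⟨-, h1⟩
    · rw [h1]
      rfl
    · rw [h1, crO_eq]
      rfl

theorem rt_cO (q : Bool) (e : F) : (T.cO c tl e).rt q = Bool.rec (motive := fun _ => ℕ)
    (xrT trX (T.kx e) (T.rs e)) (xrT c.tr (T.kx e) (T.rs e)) q := by
  by_cases h : T.Tri e
  · rw [T.cO_tri h, rt_crT, T.xrT_tri _ h, T.xrT_tri _ h]
    rfl
  · rw [T.xrT_big _ h, T.xrT_big _ h]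
    rcases T.cO_big (c := c) (tl := tl) e h with h1 | ⟨-, h1⟩
    · rw [h1]
      cases q <;> rfl
    · rw [h1, crO_eq]
      cases q <;> rfl

theorem yR_cO (e : F) : yR (T.cO c tl e) = xrT trX (T.kx e) (T.rs e) := by
  by_cases h : T.Tri e
  · rw [T.cO_tri h, yR_crT, T.xrT_tri _ h]
    rfl
  · rw [T.xrT_big _ h]
    rcases T.cO_big (c := c) (tl := tl) e h with h1 | ⟨-, h1⟩
    · rw [h1]
      rfl
    · rw [h1, crO_eq]
      rfl

/-- (C1) The record of a strip is a possibility of the record of its lane. -/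
theorem opt_cO (e : F) :
    Opt (T.cO c tl e) (ldt c.t c.tw c.t4 c.tr tl (T.kx e) (T.ox e) (T.lnT e)) := by
  by_cases hd : T.Tri e
  · obtain ⟨h1, h2⟩ := T.lnT_tri hd
    rw [T.cO_tri hd, ldt_tri _ _ _ _ _ (Nat.ble_eq_true_of_le h1), h2]
    exact opt_crT _ _ _ _ _ _
  · have h1 := T.lnT_big hd
    have e1 : Nat.ble (Nat.succ (T.lnT e)) (nt (T.kx e) (T.ox e)) = false := by
      rw [Bool.eq_false_iff]
      intro h2
      have := Nat.le_of_ble_eq_true h2
      omega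
    have e2 : Nat.mul 3 (Nat.sub (T.lnT e) (nt (T.kx e) (T.ox e))) =
        3 * kc (T.K (T.face (T.N e))) := by
      rw [h1]
      show 3 * (_ + _ - _) = _
      rw [Nat.add_sub_cancel_left]
    rw [ldt_big _ _ _ _ _ e1, e2]
    have e3 : nil3 c.t4 (T.kx e) (T.ox e) (3 * kc (T.K (T.face (T.N e)))) = T.exB c e := rfl
    rw [e3]
    unfold cO
    rw [if_neg hd]
    by_cases hx : T.exB c e = true
    · rw [if_pos hx, hx]
      exact Opt.z
    · rw [if_neg hx, (by simpa using hx : T.exB c e = false)]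
      have e4 : T.rs e - 7936 = 3 * kc (T.K (T.face (T.N e))) + kc (T.K (T.I e)) := by
        rw [T.rs_big hd, Nat.add_sub_cancel_left]
      have h6 := kc_lt (T.K (T.I e))
      rw [e4]
      obtain e5 | e5 | e5 : kc (T.K (T.I e)) = 0 ∨ kc (T.K (T.I e)) = 1 ∨ kc (T.K (T.I e)) = 2 := by
        omega
      · rw [e5]
        exact Opt.x (opt_crO _ _ _ _) (by rw [crO_eq]; rfl)
      · rw [e5]
        exact Opt.y (opt_crO _ _ _ _) (by rw [crO_eq]; rfl)
      · rw [e5]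
        exact Opt.w (opt_crO _ _ _ _) (by rw [crO_eq]; rfl)

/-- (C2) The correction of a fan. -/
theorem phi_eq (p : F) : phi (T.cO c tl p) (T.cO c tl (T.N p)) (T.cO c tl (T.N (T.N p))) =
    T.dvO c tl (T.N p) (T.kx p) (T.sO p) (T.kx (T.N (T.N p))) (T.sO (T.N (T.N p))) := by
  unfold phi
  rw [T.la_cO, T.lc_cO, T.rt_cO]
  by_cases hd : T.Tri (T.N p)
  · rw [T.big_cO_tri hd, T.cO_tri hd, fn_crT]
    unfold dvO
    rw [if_pos hd]
    unfold dvT
    rw [rLet_eq, rLet_eq, T.xrT_sO, T.xrT_sO]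
    rfl
  · rw [T.big_cO_big hd]
    unfold dvO
    rw [if_neg hd]
    rcases T.cO_big (c := c) (tl := tl) (T.N p) hd with h1 | ⟨h2, h1⟩
    · rw [h1]
      cases hx : T.exB c (T.N p) with
      | true => rfl
      | false =>
        exfalso
        unfold cO at h1
        rw [if_neg hd, hx] at h1
        simp only [Bool.false_eq_true, if_false] at h1
        rw [crO_eq] at h1
        exact absurd h1 (by simp)
    · rw [h1, h2, rIf_false, fn_crO]
      unfold dvQ
      rw [T.xrT_sO, T.xrT_sO]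

theorem phi_le (htok : rAllN (tokChk c.tr tl) 101 = true) (p : F) :
    (phi (T.cO c tl p) (T.cO c tl (T.N p)) (T.cO c tl (T.N (T.N p))) : ℤ) ≤ T.dfan c (T.N p) := by
  rw [T.phi_eq]
  exact T.dvO_le htok p

/-- (C2) The correction of a window. -/
theorem omega_eq (zt : DT) (p : F) : omega zt (T.kx (T.N p)) (T.cO c tl p) (T.cO c tl (T.N p))
    (T.cO c tl (T.N (T.N p))) (T.cO c tl (T.N (T.N (T.N p)))) = T.win zt (T.N p) := by
  unfold omega
  rw [zv_eq, T.yR_cO, T.lx_cO]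
  by_cases h1 : T.Tri (T.N p)
  · by_cases h2 : T.Tri (T.N (T.N p))
    · rw [T.win_tri h1 h2, T.cO_tri h1, T.cO_tri h2, zr_crT, zw_crT, T.X_I_N tokChk_trX]
      rfl
    · rw [T.win_right h2, T.cO_tri h1, zr_crT]
      rcases T.cO_big (c := c) (tl := tl) (T.N (T.N p)) h2 with h3 | ⟨-, h3⟩
      · rw [h3]
        rfl
      · rw [h3, crO_eq]
        rfl
  · rw [T.win_left h1]
    rcases T.cO_big (c := c) (tl := tl) (T.N p) h1 with h3 | ⟨-, h3⟩
    · rw [h3]
      rfl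
    · rw [h3, crO_eq]
      rfl

open Finset

variable {R : ℕ → ℕ → Rw Blk} {Pn Rv : ℕ → ℕ → ℕ} {vx : ℕ → ℕ → ℕ → ℕ → ℕ → ℕ → ℕ}

/-- (C3) The data of the cell of `d`. -/
theorem fcell_of (hclo : ∀ k0 < 101, cloK R nl Pn Rv k0 = true) {gg : F → ℤ}
    (hgg : ∀ e : F, gg e ≤ T.ndt c e)
    (hent : ∀ (e : F) (b : Blk), (R (T.kx e) (T.ox e)).blk (T.ox (T.N e)) = some b →
      T.gz c.V e + T.ndt c e - T.ndt c (T.N e) + kap0 ≤ (fd b (T.lnT e) (T.lnT (T.N e)) : ℤ))
    (hvx : ∀ e : F, ¬T.Tri (T.N e) →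
      (vx (T.kx e) (T.ox e) (T.lnT e) (T.kx (T.N e)) (T.ox (T.N e)) (T.rs (T.N e) - 7936) : ℤ) =
        max 0 (T.gz c.V e + T.ndt c e - T.ndt c (T.N e) + kap0))
    (d : F) (x M : ℕ → ℕ)
    (hblk : ∀ n < Function.minimalPeriod T.N d,
      (R (T.kx (T.N^[n] d)) (T.ox (T.N^[n] d))).blk (T.ox (T.N^[n + 1] d)) =
        some (Blk.mk (x (n + 1)) (M (n + 1))))
    (hpos : ∀ n, T.ndt c (T.N^[n + 1] d) < ∑ i ∈ range (n + 1), T.gz c.V (T.N^[i] d) + gg d) :
    FC.Cell (ldt c.t c.tw c.t4 c.tr tl) vx (Function.minimalPeriod T.N d)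
      (fun n => T.kx (T.N^[n] d)) (fun n => T.ox (T.N^[n] d)) x M (fun n => T.lnT (T.N^[n] d))
      (fun n => T.cO c tl (T.N^[n] d))
      (fun n => T.gz c.V (T.N^[n - 1] d) + T.ndt c (T.N^[n - 1] d) - T.ndt c (T.N^[n] d)) := by
  have h3 := T.three d
  have hp : T.N^[Function.minimalPeriod T.N d] d = d := Function.isPeriodicPt_minimalPeriod T.N d
  have hp1 : T.N^[Function.minimalPeriod T.N d + 1] d = T.N d := by
    rw [Function.iterate_succ_apply', hp]
  have hs : ∀ n, T.N^[n + 1] d = T.N (T.N^[n] d) := fun n => Function.iterate_succ_apply' _ _ _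
  have hE : ∀ n < Function.minimalPeriod T.N d,
      Ent (nl (T.kx (T.N^[n] d)) (T.ox (T.N^[n] d)))
        (nl (T.kx (T.N (T.N^[n] d))) (T.ox (T.N (T.N^[n] d)))) (Pn (T.kx (T.N^[n] d))
        (T.ox (T.N^[n] d))) (Rv (T.kx (T.N (T.N^[n] d))) (T.ox (T.N (T.N^[n] d)))) (x (n + 1))
        (M (n + 1)) := fun n hn =>
    (blk_at hclo T (T.N^[n] d) (b := Blk.mk (x (n + 1)) (M (n + 1)))
      (by rw [← hs]; exact hblk n hn)).choose_spec.2.1
  have hsum : ∀ n, ∑ u ∈ range n, (T.gz c.V (T.N^[u + 1 - 1] d) + T.ndt c (T.N^[u + 1 - 1] d) -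
      T.ndt c (T.N^[u + 1] d)) =
        ∑ u ∈ range n, T.gz c.V (T.N^[u] d) + T.ndt c d - T.ndt c (T.N^[n] d) := by
    intro n
    induction n with
    | zero => simp
    | succ n ih =>
      rw [sum_range_succ, sum_range_succ, ih, Nat.add_sub_cancel]
      ring
  -- the entry and the value of the step
  have hm : ∀ n < Function.minimalPeriod T.N d,
      T.gz c.V (T.N^[n] d) + T.ndt c (T.N^[n] d) - T.ndt c (T.N^[n + 1] d) + kap0 ≤
        (ent (x (n + 1)) (M (n + 1)) (T.lnT (T.N^[n] d)) (T.lnT (T.N^[n + 1] d)) : ℤ) := by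
    intro n hn
    have h1 := hent _ _ (by rw [← hs]; exact hblk n hn)
    rw [fd_mk, ← hs] at h1
    exact h1
  have hv : ∀ n < Function.minimalPeriod T.N d, ∀ m : ℕ, m =
      (T.cO c tl (T.N^[n + 1] d)).mv (vx (T.kx (T.N^[n] d)) (T.ox (T.N^[n] d))
        (T.lnT (T.N^[n] d)) (T.kx (T.N^[n + 1] d)) (T.ox (T.N^[n + 1] d)))
        (ent (x (n + 1)) (M (n + 1)) (T.lnT (T.N^[n] d)) (T.lnT (T.N^[n + 1] d))) →
      m ≤ ent (x (n + 1)) (M (n + 1)) (T.lnT (T.N^[n] d)) (T.lnT (T.N^[n + 1] d)) ∧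
      T.gz c.V (T.N^[n] d) + T.ndt c (T.N^[n] d) - T.ndt c (T.N^[n + 1] d) + 65536 ≤ (m : ℤ) := by
    intro n hn m hme
    have ek : (kap0 : ℤ) = 65536 := by norm_num [kap0]
    have h1 := hm n hn
    by_cases hd : T.Tri (T.N^[n + 1] d)
    · rw [T.cO_tri hd, mv_crT] at hme
      rw [hme]
      exact ⟨le_refl _, by rw [← ek]; exact h1⟩
    · rcases T.cO_big (c := c) (tl := tl) _ hd with h2 | ⟨-, h2⟩
      · rw [h2] at hme
        have h4 : m = ent (x (n + 1)) (M (n + 1)) (T.lnT (T.N^[n] d)) (T.lnT (T.N^[n + 1] d)) := hme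
        rw [h4]
        exact ⟨le_refl _, by rw [← ek]; exact h1⟩
      · rw [h2, crO_eq] at hme
        have h4 : m = vx (T.kx (T.N^[n] d)) (T.ox (T.N^[n] d)) (T.lnT (T.N^[n] d))
          (T.kx (T.N^[n + 1] d)) (T.ox (T.N^[n + 1] d)) (T.rs (T.N^[n + 1] d) - 7936) := hme
        have h5 := hvx (T.N^[n] d)
        rw [← hs] at h5
        have h6 := h5 hd
        rw [← h4] at h6
        constructor
        · have h7 : (m : ℤ) ≤
              ent (x (n + 1)) (M (n + 1)) (T.lnT (T.N^[n] d)) (T.lnT (T.N^[n + 1] d)) := by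
            rw [h6]
            exact max_le (Int.natCast_nonneg _) h1
          exact_mod_cast h7
        · rw [h6, ← ek]
          exact le_max_right _ _
  refine
    { b_three := h3
      b_le := T.period_le d
      k_per := by simp only [Function.iterate_zero, id, hp]
      o_per := by simp only [Function.iterate_zero, id, hp]
      i_per := by simp only [Function.iterate_zero, id, hp]
      c_per := by simp only [Function.iterate_zero, id, hp]
      c_one := by simp only [hp1]; rfl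
      opt := fun n _ => T.opt_cO _
      adm := fun n hn => (hv n hn _ rfl).1
      step := fun n hn => (hv n hn _ rfl).2
      pos := ?_
      fa_pos := ?_
      fb_pos := ?_
      fb_lt := ?_
      i_lt := ?_
      j_lt := ?_
      dim := ?_
      dim_top := ?_
      hb := ?_ }
  · intro n _
    rw [hsum]
    have h1 := hpos n
    have h2 := hgg d
    linarith
  · intro n hn
    rw [(hE n hn).fa]
    exact (pair_at hclo T _).1.pos
  · intro n hn
    rw [(hE n hn).fb]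
    exact (pair_at hclo T _).1.pos
  · intro n hn
    rw [(hE n hn).fb]
    exact (pair_at hclo T _).1.lt
  · intro n hn
    rw [(hE n hn).fa]
    exact T.lnT_lt _
  · intro n hn
    rw [(hE n hn).fb, ← hs]
    exact T.lnT_lt _
  · intro n hn
    rw [(hE n (by omega)).fb, (hE (n + 1) hn).fa, hs]
  · have h4 := hE (Function.minimalPeriod T.N d - 1) (by omega)
    rw [show Function.minimalPeriod T.N d - 1 + 1 = Function.minimalPeriod T.N d by omega,
      ← hs, show Function.minimalPeriod T.N d - 1 + 1 = Function.minimalPeriod T.N d by omega,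
      hp] at h4
    rw [h4.fb, (hE 0 (by omega)).fa]
    rfl
  · intro n hn
    exact (hE n hn).hb

/-- The sum of the corrections of a cell. -/
theorem corr_le (htok : rAllN (tokChk c.tr tl) 101 = true) (d : F) :
    (corr c.zt (Function.minimalPeriod T.N d) (fun n => T.kx (T.N^[n] d))
      (fun n => T.cO c tl (T.N^[n] d)) : ℤ) ≤
      ∑ u ∈ range (Function.minimalPeriod T.N d),
        (T.dfan c (T.N^[u + 1] d) + T.win c.zt (T.N^[u + 1] d)) := by
  have h3 := T.three d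
  have hs : ∀ n, T.N^[n + 1] d = T.N (T.N^[n] d) := fun n => Function.iterate_succ_apply' _ _ _
  have hp : T.N^[Function.minimalPeriod T.N d] d = d := Function.isPeriodicPt_minimalPeriod T.N d
  have hw : ∀ n, omega c.zt (T.kx (T.N^[n + 1] d)) (T.cO c tl (T.N^[n] d))
      (T.cO c tl (T.N^[n + 1] d)) (T.cO c tl (T.N^[n + 2] d)) (T.cO c tl (T.N^[n + 3] d)) =
        T.win c.zt (T.N^[n + 1] d) := by
    intro n
    rw [hs (n + 2), hs (n + 1), hs n]
    exact T.omega_eq _ _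
  have hf : ∀ n, (phi (T.cO c tl (T.N^[n] d)) (T.cO c tl (T.N^[n + 1] d))
      (T.cO c tl (T.N^[n + 2] d)) : ℤ) ≤ T.dfan c (T.N^[n + 1] d) := by
    intro n
    rw [hs (n + 1), hs n]
    exact T.phi_le htok _
  have hp1 : T.N^[Function.minimalPeriod T.N d + 1] d = T.N^[1] d := by
    rw [hs, hp]
    rfl
  have hp2 : T.N^[Function.minimalPeriod T.N d + 2] d = T.N^[2] d := by
    rw [hs (Function.minimalPeriod T.N d + 1), hp1]
    rfl
  generalize Function.minimalPeriod T.N d = b at h3 hp hp1 hp2 ⊢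
  obtain ⟨n, rfl⟩ : ∃ n, b = n + 2 := ⟨b - 2, by omega⟩
  have e1 : (corr c.zt (n + 2) (fun n => T.kx (T.N^[n] d)) (fun n => T.cO c tl (T.N^[n] d)) : ℕ) =
      ∑ u ∈ range (n + 2), phi (T.cO c tl (T.N^[u] d)) (T.cO c tl (T.N^[u + 1] d))
        (T.cO c tl (T.N^[u + 2] d)) + ∑ u ∈ range (n + 2), T.win c.zt (T.N^[u + 1] d) := by
    rw [sum_range_succ (n := n + 1) (f := fun u => T.win c.zt (T.N^[u + 1] d)),
      sum_range_succ (n := n) (f := fun u => T.win c.zt (T.N^[u + 1] d)), ← hw n, ← hw (n + 1)]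
    have e2 : ∑ u ∈ range n, T.win c.zt (T.N^[u + 1] d) = ∑ u ∈ range n,
        omega c.zt (T.kx (T.N^[u + 1] d)) (T.cO c tl (T.N^[u] d)) (T.cO c tl (T.N^[u + 1] d))
          (T.cO c tl (T.N^[u + 2] d)) (T.cO c tl (T.N^[u + 3] d)) :=
      sum_congr rfl fun u _ => (hw u).symm
    rw [e2]
    unfold corr
    simp only [Nat.add_sub_cancel]
    rw [show n + 2 - 1 = n + 1 by omega]
    rw [show n + 3 = n + 2 + 1 by omega, show n + 1 + 3 = n + 2 + 2 by omega, hp1, hp2]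
    rw [add_assoc (∑ u ∈ range n, _)]
  rw [e1, sum_add_distrib]
  push_cast
  exact add_le_add (sum_le_sum fun u _ => hf u) le_rfl

/-- The ring state of a strip. -/
theorem sv_cO (e : F) : sv (T.cO c tl e) = T.sO e := by
  unfold sO
  by_cases h : T.Tri e
  · rw [T.cO_tri h, if_pos h]
    exact sv_crT _ _ _ _ _ _
  · rw [if_neg h]
    rcases T.cO_big (c := c) (tl := tl) e h with h1 | ⟨-, h1⟩
    · rw [h1]
      rfl
    · rw [h1, crO_eq]
      rfl

variable (c tl vx) in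
/-- **The evaluation of a closed word**; the cells with a positive value are treated by `rg`. -/
def evl (rg : Pth → ℕ → Bool) : List Hs → ℕ → ℕ → Bool :=
  FC.cev (ldt c.t c.tw c.t4 c.tr tl) vx c.zt rg

/-- **The evaluation of the closed word of a cell**, with a gauge `gg`. -/
theorem closed_sum_g (hclo : ∀ k0 < 101, cloK R nl Pn Rv k0 = true)
    (htok : rAllN (tokChk c.tr tl) 101 = true) {gg : F → ℤ} (hgg : ∀ e : F, gg e ≤ T.ndt c e)
    (hent : ∀ (e : F) (b : Blk), (R (T.kx e) (T.ox e)).blk (T.ox (T.N e)) = some b →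
      T.gz c.V e + T.ndt c e - T.ndt c (T.N e) + kap0 ≤ (fd b (T.lnT e) (T.lnT (T.N e)) : ℤ))
    (hvx : ∀ e : F, ¬T.Tri (T.N e) →
      (vx (T.kx e) (T.ox e) (T.lnT e) (T.kx (T.N e)) (T.ox (T.N e)) (T.rs (T.N e) - 7936) : ℤ) =
        max 0 (T.gz c.V e + T.ndt c e - T.ndt c (T.N e) + kap0))
    (d : F) (x M : ℕ → ℕ) {x1 M1 : ℕ}
    (hblk : ∀ n < Function.minimalPeriod T.N d,
      (R (T.kx (T.N^[n] d)) (T.ox (T.N^[n] d))).blk (T.ox (T.N^[n + 1] d)) =
        some (Blk.mk (x (n + 1)) (M (n + 1))))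
    (hpos : ∀ n, T.ndt c (T.N^[n + 1] d) < ∑ i ∈ range (n + 1), T.gz c.V (T.N^[i] d) + gg d)
    {rg : Pth → ℕ → Bool} (h : evl c tl vx rg (CE.Cell.hsl (fun n => T.kx (T.N^[n] d))
      (fun n => T.ox (T.N^[n] d)) x M x1 M1 (Function.minimalPeriod T.N d)) (x 1) (M 1) = true) :
    ∃ m : ℕ, ∑ i ∈ range (Function.minimalPeriod T.N d),
      (T.gz c.V (T.N^[i] d) - T.dlt c (T.N^[i + 1] d)) ≤ m ∧ (m = 0 ∨ rg (T.pthO d) m = true) := by
  obtain ⟨m, h1, hm⟩ := (T.fcell_of (tl := tl) hclo hgg hent hvx d x M hblk hpos).cev_sound h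
  have hs : (fun n => sv (T.cO c tl (T.N^[n] d))) = fun n => T.sO (T.N^[n] d) :=
    funext fun n => T.sv_cO _
  rw [hs] at hm
  refine ⟨m, ?_, hm⟩
  have h1' := h1.trans (add_le_add_left (T.corr_le htok d) (m : ℤ))
  have hp : T.N^[Function.minimalPeriod T.N d] d = d := Function.isPeriodicPt_minimalPeriod T.N d
  have h2 : ∀ n, ∑ u ∈ range n, (T.gz c.V (T.N^[u + 1 - 1] d) + T.ndt c (T.N^[u + 1 - 1] d) -
      T.ndt c (T.N^[u + 1] d)) =
        ∑ i ∈ range n, T.gz c.V (T.N^[i] d) + T.ndt c d - T.ndt c (T.N^[n] d) := by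
    intro n
    induction n with
    | zero => simp
    | succ n ih =>
      rw [sum_range_succ, sum_range_succ, ih, Nat.add_sub_cancel]
      ring
  have h5 := h2 (Function.minimalPeriod T.N d)
  rw [hp] at h5
  have h6 : ∑ u ∈ range (Function.minimalPeriod T.N d), (T.gz c.V (T.N^[u + 1 - 1] d) +
      T.ndt c (T.N^[u + 1 - 1] d) - T.ndt c (T.N^[u + 1] d)) ≤
      ∑ u ∈ range (Function.minimalPeriod T.N d),
        (T.dfan c (T.N^[u + 1] d) + T.win c.zt (T.N^[u + 1] d)) + m := h1'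
  rw [h5] at h6
  rw [Finset.sum_sub_distrib]
  simp only [T.dlt_eq]
  unfold dfan at h6
  linarith

end

end Pool.Agent.Lib.MP_5854e1_co.SMap
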