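import Pool.Agent.Lib.MP_5854e1_co.Cover
import Pool.Agent.Lib.MP_5854e1_co.CertCheck

/-!
A positivity certificate excludes finite planar covers.
-/

set_option autoImplicit false

namespace Pool.Agent.Lib.MP_5854e1_co

theorem sum_ite_nodup' {X A : Type*} [DecidableEq X] [AddCommMonoid A] (e : X) (a : A)
    (l : List X) (hn : l.Nodup) :
    (l.map fun d => if d = e then a else 0).sum = if e ∈ l then a else 0 := by
  induction l with
  | nil => simp
  | cons x l ih =>
    rw [List.nodup_cons] at hn
    rw [List.map_cons, List.sum_cons, ih hn.2]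
    by_cases h : x = e
    · subst h
      rw [if_pos rfl, if_neg hn.1, if_pos List.mem_cons_self, add_zero]
    · rw [if_neg h, zero_add]
      by_cases h2 : e ∈ l
      · rw [if_pos h2, if_pos (List.mem_cons_of_mem _ h2)]
      · rw [if_neg h2, if_neg]
        intro h3
        exact (List.mem_cons.1 h3).elim (fun h4 => h h4.symm) h2

/-- Weights at vertices. -/
theorem cover_vertex_weights {W U : Type*} {H : SimpleGraph W} {G : SimpleGraph U} {φ : W → U}
    [Finite W] [Nonempty W] [Fintype U] {Γ A : Type*} [Group Γ] [AddCommMonoid A]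
    (hφ : IsCover H G φ) (hpl : IsPlanar H) (hdeg : ∀ u, ∃ v, G.Adj u v)
    (g : G.Dart → Γ) (c : U → A) (Q : A → Set Γ)
    (hg : ∀ d, g (flip G d) = (g d)⁻¹)
    (hmul : ∀ a b x y, x ∈ Q a → y ∈ Q b → x * y ∈ Q (a + b))
    (hconj : ∀ a x h, x ∈ Q a → h * x * h⁻¹ ∈ Q a)
    (hv : ∀ (u : U) (l : List G.Dart), l.Nodup → (∀ d, d ∈ l ↔ d.fst = u) →
      (l.map g).prod ∈ Q (c u)) :
    (1 : Γ) ∈ Q (∑ u, fib φ u • c u) := by
  classical
  have hf : ∀ u, ∃ d : G.Dart, d.fst = u := fun u => by
    obtain ⟨v, hv⟩ := hdeg u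
    exact ⟨⟨(u, v), hv⟩, rfl⟩
  choose f hf using hf
  have hne : Nonempty H.Dart := by
    obtain ⟨v0⟩ := ‹Nonempty W›
    obtain ⟨y, hy⟩ := hdeg (φ v0)
    obtain ⟨d, -, -⟩ := hφ.dart_surj v0 ⟨(φ v0, y), hy⟩ rfl
    exact ⟨d⟩
  have h := cover_planar_lemma hφ hpl g (fun d => if d = f d.fst then c d.fst else 0) Q hg hmul
    hconj ?_
  · have hfd := finsum_dart hφ (fun d => if d = f d.fst then c d.fst else 0)
    beta_reduce at hfd
    rw [hfd] at h
    have : Finite G.Dart := finiteDart
    have := Fintype.ofFinite G.Dart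
    have e : (∑ᶠ e : G.Dart, fib φ e.fst • (if e = f e.fst then c e.fst else 0)) =
        ∑ u, fib φ u • c u := by
      rw [finsum_eq_sum_of_fintype,
        ← Finset.sum_fiberwise_of_maps_to (s := Finset.univ) (t := Finset.univ)
          (g := fun d : G.Dart => d.fst) (fun _ _ => Finset.mem_univ _)]
      refine Finset.sum_congr rfl fun u _ => ?_
      rw [Finset.sum_eq_single (f u)]
      · rw [hf u, if_pos rfl]
      · intro d hd hne
        have : d.fst = u := (Finset.mem_filter.1 hd).2
        rw [this, if_neg hne, smul_zero]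
      · intro hd
        exfalso
        apply hd
        rw [Finset.mem_filter]
        exact ⟨Finset.mem_univ _, hf u⟩
    rw [← e]
    exact h
  · intro u l hn hl
    have e : (l.map fun d => if d = f d.fst then c d.fst else 0).sum = c u := by
      have e1 : (l.map fun d => if d = f d.fst then c d.fst else 0) =
          l.map fun d => if d = f u then c u else 0 :=
        List.map_congr_left fun d hd => by rw [(hl d).1 hd]
      rw [e1, sum_ite_nodup' _ _ _ hn, if_pos ((hl _).2 (hf u))]
    rw [e]
    exact hv u l hn hl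

/-- A positivity certificate with total offset zero excludes finite planar covers. -/
theorem no_planar_cover {m : ℕ} (K : SimpleGraph (Fin m)) [DecidableRel K.Adj]
    (hconn : K.Preconnected) (hdeg : ∀ u, ∃ v, K.Adj u v) (C : CertData m)
    (hok : C.ok K = true) (hsum : ∑ u, C.c u = 0) {W : Type*} [Finite W] [Nonempty W]
    (H : SimpleGraph W) (φ : W → Fin m) (hφ : IsCover H K φ) : ¬ IsPlanar H := by
  intro hpl
  obtain ⟨g, hg, hl⟩ := C.sound K hok
  have h := cover_vertex_weights hφ hpl hdeg g C.c (QN C.N) hg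
    (fun a b x y hx hy => QN_mul hx hy) (fun a x h hx => QN_conj hx h) hl
  obtain ⟨v0⟩ := ‹Nonempty W›
  have hk : ∀ u, fib φ u = fib φ (φ v0) := fun u => fib_eq_of_reachable hφ (hconn u (φ v0))
  have : ∑ u, fib φ u • C.c u = 0 := by
    rw [Finset.sum_congr rfl fun u _ => by rw [hk u], ← Finset.smul_sum, hsum, smul_zero]
  rw [this] at h
  exact one_notMem_QN _ h

end Pool.Agent.Lib.MP_5854e1_co
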