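import Pool.Agent.Lib.MP_5854e1_co.MnrC

/-!
# Disconnected minors of connected graphs

If a connected graph `G` has the disconnected graph `M` as a minor, then it has as a minor the graph
obtained from `M` by adding an edge between two given parts of `M`.
-/

set_option autoImplicit false

namespace Pool.Agent.Lib.MP_5854e1_co

universe u

/-- The graph `M` with the edge `ab` added. -/
def addE {U : Type*} (M : SimpleGraph U) (a b : U) : SimpleGraph U where
  Adj x y := M.Adj x y ∨ (x ≠ y ∧ ((x = a ∧ y = b) ∨ (x = b ∧ y = a)))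
  symm := ⟨fun _ _ h => h.elim (fun h => Or.inl h.symm)
    (fun h => Or.inr ⟨h.1.symm, h.2.elim (fun h => Or.inr ⟨h.2, h.1⟩) (fun h => Or.inl ⟨h.2, h.1⟩)⟩)⟩
  loopless := ⟨fun _ h => h.elim (fun h => h.ne rfl) (fun h => h.1 rfl)⟩

section model

variable {U U' : Type*}

/-- `B` is a family of branch sets of `M` in `G`. -/
def IsModel (M : SimpleGraph U') (G : SimpleGraph U) (B : U' → Set U) : Prop :=
  (∀ a, (G.induce (B a)).Connected) ∧ (∀ a b, a ≠ b → Disjoint (B a) (B b)) ∧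
    ∀ a b, M.Adj a b → ∃ x ∈ B a, ∃ y ∈ B b, G.Adj x y

/-- The branch sets can be enlarged until they contain all the vertices. -/
theorem IsModel.spanning [Finite U] {M : SimpleGraph U'} {G : SimpleGraph U} (hG : G.Connected)
    [Nonempty U'] (n : ℕ) : ∀ B : U' → Set U, IsModel M G B → ((⋃ a, B a)ᶜ).ncard = n →
    ∃ B' : U' → Set U, IsModel M G B' ∧ (⋃ a, B' a) = Set.univ := by
  classical
  induction n with
  | zero =>
    intro B hB hn
    refine ⟨B, hB, ?_⟩
    rw [Set.ncard_eq_zero (Set.toFinite _)] at hn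
    exact Set.compl_empty_iff.mp hn
  | succ n ih =>
    intro B hB hn
    obtain ⟨h1, h2, h3⟩ := hB
    have hne : ((⋃ a, B a)ᶜ).Nonempty := by
      rw [← Set.ncard_pos (Set.toFinite _)]
      omega
    obtain ⟨z, hz⟩ := hne
    obtain ⟨a0⟩ := ‹Nonempty U'›
    obtain ⟨⟨x0, hx0⟩⟩ := (h1 a0).nonempty
    obtain ⟨p⟩ := hG.preconnected x0 z
    obtain ⟨d, -, hd1, hd2⟩ := p.exists_boundary_dart (⋃ a, B a) (Set.mem_iUnion.2 ⟨a0, hx0⟩) hz
    obtain ⟨a, ha⟩ := Set.mem_iUnion.1 hd1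
    have hd2' : ∀ b, d.snd ∉ B b := fun b hb => hd2 (Set.mem_iUnion.2 ⟨b, hb⟩)
    have hsing : (G.induce {d.snd}).Preconnected := by
      rintro ⟨x, hx⟩ ⟨y, hy⟩
      have e : (⟨x, hx⟩ : ({d.snd} : Set U)) = ⟨y, hy⟩ :=
        Subtype.ext ((Set.mem_singleton_iff.1 hx).trans (Set.mem_singleton_iff.1 hy).symm)
      rw [e]
    set B' : U' → Set U := Function.update B a (B a ∪ {d.snd}) with hB'
    have hsub : ∀ b, B b ⊆ B' b := by
      intro b
      by_cases hb : b = a
      · subst hb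
        rw [hB', Function.update_self]
        exact Set.subset_union_left
      · rw [hB', Function.update_of_ne hb]
    have hup : ∀ b, ∀ y ∈ B' b, y ∈ B b ∨ (b = a ∧ y = d.snd) := by
      intro b y hy
      by_cases hb : b = a
      · subst hb
        rw [hB', Function.update_self] at hy
        rcases hy with hy | hy
        · exact Or.inl hy
        · exact Or.inr ⟨rfl, hy⟩
      · rw [hB', Function.update_of_ne hb] at hy
        exact Or.inl hy
    refine ih B' ⟨?_, ?_, ?_⟩ ?_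
    · intro b
      by_cases hb : b = a
      · subst hb
        rw [hB', Function.update_self]
        exact SimpleGraph.connected_induce_union (h1 b).preconnected hsing ha
          (Set.mem_singleton _) d.adj
      · rw [hB', Function.update_of_ne hb]
        exact h1 b
    · intro b c hbc
      rw [Set.disjoint_left]
      intro y hy1 hy2
      rcases hup b y hy1 with h4 | ⟨h4, h4'⟩
      · rcases hup c y hy2 with h5 | ⟨h5, h5'⟩
        · exact Set.disjoint_left.1 (h2 b c hbc) h4 h5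
        · exact hd2' b (h5' ▸ h4)
      · rcases hup c y hy2 with h5 | ⟨h5, h5'⟩
        · exact hd2' c (h4' ▸ h5)
        · exact hbc (h4.trans h5.symm)
    · intro b c hbc
      obtain ⟨x, hx, y, hy, hxy⟩ := h3 b c hbc
      exact ⟨x, hsub b hx, y, hsub c hy, hxy⟩
    · have e1 : (⋃ b, B' b)ᶜ = (⋃ b, B b)ᶜ \ {d.snd} := by
        ext y
        simp only [Set.mem_compl_iff, Set.mem_iUnion, Set.mem_sdiff, Set.mem_singleton_iff, not_exists]
        constructor
        · intro h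
          refine ⟨fun b hb => h b (hsub b hb), ?_⟩
          rintro rfl
          refine h a ?_
          rw [hB', Function.update_self]
          exact Or.inr rfl
        · rintro ⟨h, h'⟩ b hb
          rcases hup b y hb with h4 | ⟨-, h4⟩
          · exact h b h4
          · exact h' h4
      rw [e1]
      have h7 : ((⋃ b, B b)ᶜ).ncard = n + 1 := hn
      have h8 : ((⋃ b, B b)ᶜ \ {d.snd}).ncard + 1 = ((⋃ b, B b)ᶜ).ncard :=
        Set.ncard_sdiff_singleton_add_one (show d.snd ∈ (⋃ b, B b)ᶜ from hd2) (Set.toFinite _)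
      omega

/-- A connected graph with the minor `M` has the minor `M` plus an edge between the parts `S` and
`Sᶜ` of `M`. -/
theorem exists_addE_minor [Finite U] {M : SimpleGraph U'} {G : SimpleGraph U} (hG : G.Connected)
    (hM : IsMinor M G) (S : Set U') {a0 b0 : U'} (ha : a0 ∈ S) (hb : b0 ∉ S) :
    ∃ a ∈ S, ∃ b, b ∉ S ∧ IsMinor (addE M a b) G := by
  obtain ⟨B0, hB0⟩ := hM
  have : Nonempty U' := ⟨a0⟩
  obtain ⟨B, ⟨h1, h2, h3⟩, hun⟩ := IsModel.spanning hG _ B0 hB0 rfl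
  obtain ⟨⟨x, hx⟩⟩ := (h1 a0).nonempty
  obtain ⟨⟨y, hy⟩⟩ := (h1 b0).nonempty
  obtain ⟨p⟩ := hG.preconnected x y
  have hmem : ∀ z, ∃ c, z ∈ B c := fun z => by
    have : z ∈ ⋃ a, B a := hun ▸ Set.mem_univ z
    exact Set.mem_iUnion.1 this
  have huniq : ∀ {z : U} {c c' : U'}, z ∈ B c → z ∈ B c' → c = c' := by
    intro z c c' hc hc'
    by_contra hne
    exact Set.disjoint_left.1 (h2 c c' hne) hc hc'
  obtain ⟨d, -, hd1, hd2⟩ := p.exists_boundary_dart (⋃ a ∈ S, B a)
    (Set.mem_iUnion₂.2 ⟨a0, ha, hx⟩) (fun h => by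
      obtain ⟨c, hc, hyc⟩ := Set.mem_iUnion₂.1 h
      exact hb (huniq hy hyc ▸ hc))
  obtain ⟨a, haS, hda⟩ := Set.mem_iUnion₂.1 hd1
  obtain ⟨b, hdb⟩ := hmem d.snd
  have hbS : b ∉ S := fun h => hd2 (Set.mem_iUnion₂.2 ⟨b, h, hdb⟩)
  refine ⟨a, haS, b, hbS, B, h1, h2, ?_⟩
  rintro c c' (h | ⟨-, ⟨rfl, rfl⟩ | ⟨rfl, rfl⟩⟩)
  · exact h3 c c' h
  · exact ⟨d.fst, hda, d.snd, hdb, d.adj⟩
  · exact ⟨d.snd, hdb, d.fst, hda, d.adj.symm⟩

end model

/-- `f` maps `N` into `M` with the vertex `b` identified with the vertex `a`. -/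
def GlueOK {m k : ℕ} (M : SimpleGraph (Fin m)) (N : SimpleGraph (Fin k)) (a b : Fin m)
    (f : Fin k → Fin m) : Prop :=
  (∀ x y, f x = f y → x = y) ∧ (∀ x, f x ≠ b) ∧ ∀ x y, N.Adj x y →
    M.Adj (f x) (f y) ∨ (f x = a ∧ M.Adj b (f y)) ∨ (f y = a ∧ M.Adj (f x) b)

instance {m k : ℕ} (M : SimpleGraph (Fin m)) (N : SimpleGraph (Fin k)) [DecidableRel M.Adj]
    [DecidableRel N.Adj] (a b : Fin m) (f : Fin k → Fin m) : Decidable (GlueOK M N a b f) :=
  inferInstanceAs (Decidable (_ ∧ _ ∧ _))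

theorem noCover_addE {m k : ℕ} {M : SimpleGraph (Fin m)} {N : SimpleGraph (Fin k)}
    (hN : ¬ HasPlanarCover N) {a b : Fin m} (hab : a ≠ b) (f : Fin k → Fin m)
    (hf : GlueOK M N a b f) : ¬ HasPlanarCover (addE M a b) := by
  intro h
  obtain ⟨h1, h2, h3⟩ := hf
  have hadj : (addE M a b).Adj a b := Or.inr ⟨hab, Or.inl ⟨rfl, rfl⟩⟩
  refine hN (((h.contr hadj).comap f fun x y => h1 x y).mono ?_)
  intro x y hxy
  have hne : f x ≠ f y := fun e => hxy.ne (h1 x y e)
  rcases h3 x y hxy with h4 | ⟨h4, h5⟩ | ⟨h4, h5⟩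
  · exact ⟨hne, f x, f y, Or.inl h4, rho0_of_ne (h2 x), rho0_of_ne (h2 y)⟩
  · exact ⟨hne, b, f y, Or.inl h5, by rw [rho0_self, h4], rho0_of_ne (h2 y)⟩
  · exact ⟨hne, f x, b, Or.inl h5, rho0_of_ne (h2 x), by rw [rho0_self, h4]⟩

/-- The disconnected graph `M`, with the parts `S` and `Sᶜ`, is not a minor of a connected graph with
a finite planar cover if the one-point union `N` has no finite planar cover. -/
theorem no_disc_minor {m k : ℕ} {M : SimpleGraph (Fin m)} {N : SimpleGraph (Fin k)}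
    (hN : ¬ HasPlanarCover N) (s : ℕ) (f : Fin m → Fin m → Fin k → Fin m)
    (hf : ∀ a b : Fin m, a.val < s → ¬ b.val < s → GlueOK M N a b (f a b))
    {a0 b0 : Fin m} (ha0 : a0.val < s) (hb0 : ¬ b0.val < s)
    {U : Type*} [Finite U] {G : SimpleGraph U} (hG : G.Connected) (h : HasPlanarCover G) :
    ¬ IsMinor M G := by
  intro hM
  obtain ⟨a, ha, b, hb, h1⟩ := exists_addE_minor hG hM {x : Fin m | x.val < s} ha0 hb0
  have hab : a ≠ b := fun e => hb (e ▸ ha)
  exact noCover_addE hN hab (f a b) (hf a b ha hb) (h.minor h1)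

end Pool.Agent.Lib.MP_5854e1_co
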