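import Pool.Agent.Lib.MP_5854e1_co.SymChk

/-!
# The closures over the triangles and the regions, for one of two reflected keys

The checks of `Reserve.lean` for the smaller one of two keys that are exchanged by the reflection of
the labels. The maxima over the groups of the row `ld` are computed once for every column.
-/

set_option autoImplicit false

open Equiv Equiv.Perm

namespace Pool.Agent.Lib.MP_5854e1_co

open PB

noncomputable section

/-! ### Columns of rows -/

/-- The greatest value of the column `y` of a row without the reserves `q`. -/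
def DL.cm (q : DR) (l : DL) (y : ℕ) : ℕ :=
  DL.rec (motive := fun _ => ℕ) (nat_lit 0)
    (fun x r _ ih => rForce (DR.val r y) fun t => rIf (Nat.ble t (nat_lit 0)) ih
      (rForce (Nat.sub t (DR.val q x)) fun v => rForce ih fun m => rIf (Nat.ble m v) v m)) l

theorem DL.val_g {h : ℕ} {r : DR} {l : DL} (x y : ℕ) : DL.val (DL.g h r l) x y =
    Bool.rec (motive := fun _ => ℕ) (DL.val l x y) (DR.val r y) (Nat.beq h x) := by
  show DR.val (Bool.rec (motive := fun _ => DR) (DL.grp l x) r (Nat.beq h x)) y = _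
  cases Nat.beq h x <;> rfl

theorem DL.le_cm (q : DR) (l : DL) (y : ℕ) : ∀ x, DL.val l x y ≤ DL.cm q l y + DR.val q x := by
  induction l with
  | nil => exact fun x => Nat.zero_le _
  | g h r l ih =>
    have e1 : DL.cm q (DL.g h r l) y = rForce (DR.val r y) fun t =>
      rIf (Nat.ble t (nat_lit 0)) (DL.cm q l y)
      (rForce (Nat.sub t (DR.val q h)) fun v => rForce (DL.cm q l y) fun m =>
        rIf (Nat.ble m v) v m) := rfl
    intro x
    rw [DL.val_g, e1, rForce_eq, rForce_eq, rForce_eq]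
    have h2 := ih x
    cases hb : Nat.ble (DR.val r y) (nat_lit 0) with
    | true =>
      rw [rIf_true]
      have h3 : DR.val r y ≤ 0 := Nat.le_of_ble_eq_true hb
      cases Nat.beq h x with
      | false => exact h2
      | true => exact le_trans h3 (Nat.zero_le _)
    | false =>
      rw [rIf_false]
      have h4 : ∀ a b : ℕ, a ≤ rIf (Nat.ble a b) b a ∧ b ≤ rIf (Nat.ble a b) b a := by
        intro a b
        cases h5 : Nat.ble a b with
        | true =>
          rw [rIf_true]
          exact ⟨Nat.le_of_ble_eq_true h5, le_rfl⟩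
        | false =>
          rw [rIf_false]
          have h6 : ¬a ≤ b := fun h7 => by
            rw [Nat.ble_eq_true_of_le h7] at h5
            exact absurd h5 (by simp)
          exact ⟨le_rfl, le_of_lt (not_le.1 h6)⟩
      obtain ⟨h5, h6⟩ := h4 (DL.cm q l y) (Nat.sub (DR.val r y) (DR.val q h))
      cases h7 : Nat.beq h x with
      | false => exact le_trans h2 (Nat.add_le_add_right h5 _)
      | true =>
        rw [← Nat.eq_of_beq_eq_true h7]
        have h8 : DR.val r y ≤ Nat.sub (DR.val r y) (DR.val q h) + DR.val q h := by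
          show DR.val r y ≤ DR.val r y - DR.val q h + DR.val q h
          omega
        exact le_trans h8 (Nat.add_le_add_right h6 _)

/-! ### The rows of a region -/

/-- The check of the rows of a region; the data are those of `rgOK`. -/
def rgH (S : ℕ) (q1 q2 q3 q4 : DR) (la lb lc ld : DL) : Bool :=
  DL.all (fun x2 ra => rForce (DR.mxr q4 (DL.grp lb x2) (nat_lit 0)) fun mb =>
    rForce (Nat.add S (DR.val q2 x2)) fun S2 =>
    rAnd (DR.all (fun x1 v => rForce (Nat.add v (Nat.add (DL.cm q3 ld x1) mb)) fun t =>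
        rIf (Nat.ble t S2) true (Nat.ble t (Nat.add S2 (DR.val q1 x1)))) ra)
      (DL.all (fun x3 rc => rForce (DR.mx2r q4 (DL.grp lb x2) rc mb) fun m2 =>
        rForce (Nat.add S2 (DR.val q3 x3)) fun S3 =>
        DR.all (fun x1 v => rForce (Nat.add v (Nat.add (DR.val (DL.grp ld x3) x1) m2)) fun t =>
          rIf (Nat.ble t S3) true (Nat.ble t (Nat.add S3 (DR.val q1 x1)))) ra) lc)) la

theorem le_of_rIf {t a b : ℕ} (h : rIf (Nat.ble t a) true (Nat.ble t (Nat.add a b)) = true) :
    t ≤ a + b := by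
  rcases ble_of_rIf h with h1 | h1
  · exact le_trans (Nat.le_of_ble_eq_true h1) (Nat.le_add_right _ _)
  · exact Nat.le_of_ble_eq_true h1

theorem rgH_sound {S : ℕ} {q1 q2 q3 q4 : DR} {la lb lc ld : DL}
    (h : rgH S q1 q2 q3 q4 la lb lc ld = true) {x1 x2 : ℕ} (x3 x4 : ℕ)
    (h0 : 0 < DL.val la x2 x1) :
    DL.val la x2 x1 + DL.val lb x2 x4 + DL.val lc x3 x4 + DL.val ld x3 x1 ≤
      S + (DR.val q1 x1 + DR.val q2 x2 + DR.val q3 x3 + DR.val q4 x4) := by
  have h1 := DL.val_of_all h h0
  rw [rForce_eq, rForce_eq] at h1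
  obtain ⟨h2, h3⟩ := rAnd_iff.1 h1
  have hne : DR.val (DL.grp la x2) x1 ≠ 0 := by
    have : DL.val la x2 x1 = DR.val (DL.grp la x2) x1 := rfl
    omega
  have hb : DL.val lb x2 x4 ≤ DR.mxr q4 (DL.grp lb x2) 0 + DR.val q4 x4 :=
    (DR.le_mxr q4 (DL.grp lb x2) 0).2 x4
  have hd := DL.le_cm q3 ld x1 x3
  have ea : DL.val la x2 x1 = DR.val (DL.grp la x2) x1 := rfl
  set mb := DR.mxr q4 (DL.grp lb x2) 0 with hmb
  rcases Nat.eq_zero_or_pos (DL.val lc x3 x4) with hc | hc
  · rcases DR.val_of_all h2 x1 with h4 | h4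
    · exact absurd h4 hne
    · rw [rForce_eq] at h4
      have h5 : DR.val (DL.grp la x2) x1 + (DL.cm q3 ld x1 + mb) ≤
        S + DR.val q2 x2 + DR.val q1 x1 := le_of_rIf h4
      omega
  · have h6 := DL.val_of_all h3 hc
    rw [rForce_eq, rForce_eq] at h6
    rcases DR.val_of_all h6 x1 with h7 | h7
    · exact absurd h7 hne
    · rw [rForce_eq] at h7
      have h8 : DR.val (DL.grp la x2) x1 + (DR.val (DL.grp ld x3) x1 +
          DR.mx2r q4 (DL.grp lb x2) (DL.grp lc x3) mb) ≤
        S + DR.val q2 x2 + DR.val q3 x3 + DR.val q1 x1 := le_of_rIf h7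
      have h9 := (DR.le_mx2r q4 (DL.grp lb x2) (DL.grp lc x3) mb).2 x4
      have ec : DL.val lc x3 x4 = DR.val (DL.grp lc x3) x4 := rfl
      have ed : DL.val ld x3 x1 = DR.val (DL.grp ld x3) x1 := rfl
      have eb : DL.val lb x2 x4 = DR.val (DL.grp lb x2) x4 := rfl
      rcases h9 with h9 | h9 <;> omega

/-! ### The checks of the tables -/

section defs

variable (gp gm : ℕ → ℕ → ℕ → ℕ → ℕ → ℕ → ℕ) (D : ℕ → ℕ → ℕ) (sp ps : ℕ → ℕ → ℕ → ℕ)
  (t rt zt tw : DT)

/-- The check of the region of a strip; `hr` and `la` are the first group and the other groups of the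
row of the window. -/
def regEH (k0 o0 j0 k1 o1 j1 : ℕ) (hr : DR) (la : DL) : Bool :=
  rForce (Nat.div (flA k0 o0) (nat_lit 16384)) fun ka =>
  rForce (Nat.mod (triA k0 j0) (nat_lit 512)) fun oa =>
  rForce (rjA k0 j0) fun ja =>
  rForce (farK k0 o0 j0) fun kc =>
  rForce (rjA ka ja) fun jc =>
  rForce (Nat.div (flA k1 o1) (nat_lit 16384)) fun kb =>
  rForce (rjA k1 j1) fun jb =>
  rForce (farK k1 o1 j1) fun kd =>
  rForce (t3A k1 j1) fun od =>
  rForce (rjA kb jb) fun jd =>
  rForce (Nat.add (gp k0 o0 j0 k1 o1 j1) (gp kd od jd ka oa ja)) fun gP =>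
  rForce (Nat.add (Nat.add (gm k0 o0 j0 k1 o1 j1) (gm kd od jd ka oa ja))
    (Nat.add (DR.tot hr) (DR.tot (DL.hd (DT.get zt (zkey kd jd ja)))))) fun gM =>
  rAnd (Nat.ble gM gP)
  (rForce (Nat.sub (Nat.add gP (Nat.add (psB sp ps kc (t3A k0 j0) jc)
      (psB sp ps kb (Nat.mod (triA k1 j1) (nat_lit 512)) jb))) gM) fun S =>
  rgH S (DL.grp (DT.get rt (dkey kc jc)) (nat_lit 1)) (DL.grp (DT.get rt (dkey k1 j1)) (nat_lit 2))
    (DL.grp (DT.get rt (dkey ka ja)) (nat_lit 2)) (DL.grp (DT.get rt (dkey kb jb)) (nat_lit 1))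
    la (DT.get tw (dkey kb jb)) (DL.tl (DT.get zt (zkey kd jd ja))) (DT.get tw (dkey kc jc)))

/-- The check of a row: the token of the first group of the row contains the options of the two
corners. The region is checked for the smaller one of the two reflected keys. -/
def regH (i : ℕ) (row : DL) : Bool :=
  DL.rec (motive := fun _ => Bool) true (fun h hr l _ =>
    rForce (Nat.div i (nat_lit 67108864)) fun k0 =>
    rForce (Nat.mod (Nat.div i (nat_lit 8192)) (nat_lit 8192)) fun j0 =>
    rForce (Nat.mod i (nat_lit 8192)) fun j1 =>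
    rForce (Nat.mod (Nat.div h (nat_lit 512)) (nat_lit 512)) fun o0 =>
    rForce (Nat.mod h (nat_lit 512)) fun o1 =>
    rForce (Nat.div (optA k0 o0) (nat_lit 72)) fun k1 =>
    rAnd (Nat.ble (nat_lit 1048576) h) (rAnd (oInt k0 o0 j0) (rAnd (oInt k1 o1 j1)
      (rIf (Nat.ble i (zkey (mK k0) (mJ k0 j0) (mJ k1 j1)))
        (regEH gp gm sp ps rt zt tw k0 o0 j0 k1 o1 j1 hr l) true)))) row

/-- The check of the reflection of a row of the windows, with the reserves. -/
def symY (i : ℕ) (row : DL) : Bool :=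
  DL.rec (motive := fun _ => Bool) true (fun h hr l _ =>
    rForce (Nat.div i (nat_lit 67108864)) fun k0 =>
    rForce (Nat.mod (Nat.div i (nat_lit 8192)) (nat_lit 8192)) fun j0 =>
    rForce (Nat.mod i (nat_lit 8192)) fun j1 =>
    rForce (Nat.mod (Nat.div h (nat_lit 512)) (nat_lit 512)) fun o0 =>
    rForce (Nat.mod h (nat_lit 512)) fun o1 =>
    rForce (Nat.div (optA k0 o0) (nat_lit 72)) fun k1 =>
    rAnd (Nat.ble (nat_lit 1048576) h) (rAnd (oInt k0 o0 j0) (rAnd (oInt k1 o1 j1)
      (rForce (Nat.div (optA k1 o1) (nat_lit 72)) fun k2 =>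
        rForce (Nat.div (rv k0) (nat_lit 24)) fun ki =>
        rForce (zkey (mK k0) (mJ k0 j0) (mJ k1 j1)) fun i' =>
        rAnd (imgS (tM k2) (tM ki) (DT.get zt i') l)
          (rAllN (fun g => Nat.beq (DR.val (DL.hd (DT.get zt i')) g) (DR.val hr g))
            (nat_lit 3)))))) row

/-- The check of the rows of the triangles of the pair `(k, o)`, if the pair is canonical. -/
def stH (k o : ℕ) : Bool := rIf (cnn k o) (stO D sp ps t rt k o) true

/-- The check of the rows of the fans of the pair `(k, o)`, if the pair is canonical. -/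
def wH (k o : ℕ) : Bool := rIf (cnn k o) (wO sp ps rt tw k o) true

/-- The check of the reflection of the row of the corner `(k, o, j)`. -/
def sC (k o j : ℕ) : Bool :=
  DL.rec (motive := fun _ => Bool) true
    (fun _ _ _ _ => imgS (tM (Nat.div (rv k) (nat_lit 24))) (tM (Nat.div (optA k o) (nat_lit 72)))
      (DT.get t (dkey (mK k) (mJ k j))) (DT.get t (dkey k j)))
    (DT.get t (dkey k j))

/-- The check of the reflections of all rows of the pair `(k, o)`. -/
def sH (k o : ℕ) : Bool :=
  rForce (triOff k o) fun f => rAllN (fun i => sC t k o (Nat.add f i))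
    (Nat.sub (triOff k (Nat.succ o)) f)

end defs

end

theorem DT.all_imp {f g : ℕ → DL → Bool} (h : ∀ i l, f i l = true → g i l = true) {t : DT}
    (ht : DT.all f t = true) : DT.all g t = true := by
  induction t with
  | z => rfl
  | lf i l => exact h i l ht
  | nd i a b iha ihb =>
    obtain ⟨h1, h2⟩ := rAnd_iff.1 (show rAnd (DT.all f a) (DT.all f b) = true from ht)
    exact DT.all_nd (iha h1) (ihb h2)

theorem symZ_of_symY {zt t : DT} (h : DT.all (symY zt) t = true) : DT.all (symZ zt) t = true := by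
  refine DT.all_imp (fun i l h1 => ?_) h
  cases l with
  | nil => rfl
  | g hh r l =>
    unfold symY at h1
    unfold symZ
    simp only [rForce_eq] at h1 ⊢
    obtain ⟨h2, h3⟩ := rAnd_iff.1 h1
    obtain ⟨h4, h5⟩ := rAnd_iff.1 h3
    obtain ⟨h6, h7⟩ := rAnd_iff.1 h5
    exact rAnd_iff.2 ⟨h2, rAnd_iff.2 ⟨h4, rAnd_iff.2 ⟨h6, (rAnd_iff.1 h7).1⟩⟩⟩

theorem zkey_parts {k j j' : ℕ} (h : j < 8192) (h' : j' < 8192) :
    Nat.div (zkey k j j') 67108864 = k ∧ Nat.mod (Nat.div (zkey k j j') 8192) 8192 = j ∧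
      Nat.mod (zkey k j j') 8192 = j' := by
  rw [zkey_eq]
  refine ⟨?_, ?_, ?_⟩
  · show (j' + 8192 * (j + 8192 * k)) / 67108864 = _
    omega
  · show (j' + 8192 * (j + 8192 * k)) / 8192 % 8192 = _
    omega
  · show (j' + 8192 * (j + 8192 * k)) % 8192 = _
    omega

end Pool.Agent.Lib.MP_5854e1_co
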