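import Pool.Agent.Lib.MP_5854e1_co.Half

/-!
# The halved checks, in a map of strips
-/

set_option autoImplicit false

open Equiv Equiv.Perm

namespace Pool.Agent.Lib.MP_5854e1_co

open PB

namespace SMap

variable {F : Type*} (T : SMap F)

theorem jx_lt13 {a : F} (ha : T.Tri a) : T.jx a < 8192 := by
  have := T.rs_tri ha
  have h2 := (T.rs_lt_iff a).2 ha
  omega

theorem relab_jx_jx {a : F} (ha : T.Tri a) : mJ (T.relab.kx a) (T.relab.jx a) = T.jx a := by
  have h1 := T.relab.relab_jx (show T.relab.Tri a from ha)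
  rw [relab_relab] at h1
  exact h1.symm

theorem relab_kx_kx (a : F) : mK (T.relab.kx a) = T.kx a := by
  have h1 := T.relab.relab_kx a
  rw [relab_relab] at h1
  exact h1.symm

theorem relab_ox_ox (a : F) : mO' (T.relab.kx a) (T.relab.ox a) = T.ox a := by
  have h1 := T.relab.relab_ox a
  rw [relab_relab] at h1
  exact h1.symm

/-- The row of the window of a relabelled map. -/
theorem relab_zr_key {a : F} (ha : T.Tri a) (hn : T.Tri (T.N a)) :
    zkey (T.relab.kx a) (T.relab.rs a) (T.relab.rs (T.N a)) =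
      zkey (mK (T.kx a)) (mJ (T.kx a) (T.jx a)) (mJ (T.kx (T.N a)) (T.jx (T.N a))) := by
  rw [T.relab.rs_tri (show T.relab.Tri a from ha),
    T.relab.rs_tri (show T.relab.Tri (T.N a) from hn), T.relab_kx, T.relab_jx ha, T.relab_jx hn]

theorem relab_rz_pos {zt : DT} (h : DT.all (symY zt) zt = true) {g : ℕ} (hg : g < 3) {a : F}
    (h0 : 0 < T.rz zt g a) : T.relab.rz zt g a = T.rz zt g a := by
  have ha : T.Tri a := by
    by_contra h1
    rw [T.rz_left h1] at h0
    exact absurd h0 (lt_irrefl 0)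
  have hn : T.Tri (T.N a) := by
    by_contra h1
    rw [show T.rz zt g a = 0 from if_neg fun h2 => h1 h2.2] at h0
    exact absurd h0 (lt_irrefl 0)
  have ha' : T.relab.Tri a := ha
  have hn' : T.relab.Tri (T.relab.N a) := hn
  have jl := T.jx_lt ha
  have jl1 := T.jx_lt hn
  obtain ⟨e1, e2, e3⟩ := zkey_parts (k := T.kx a) (T.jx_lt13 ha) (T.jx_lt13 hn)
  rw [T.rz_tri ha hn, T.rs_tri ha, T.rs_tri hn] at h0 ⊢
  rw [T.relab.rz_tri ha' hn']
  show DR.val (DL.hd (DT.get zt (zkey (T.relab.kx a) (T.relab.rs a) (T.relab.rs (T.N a))))) g = _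
  rw [T.relab_zr_key ha hn]
  rcases DT.get_of_all h (zkey (T.kx a) (T.jx a) (T.jx (T.N a))) with h1 | h1
  · rw [h1] at h0
    exact absurd h0 (lt_irrefl 0)
  cases hrow : DT.get zt (zkey (T.kx a) (T.jx a) (T.jx (T.N a))) with
  | nil =>
    rw [hrow] at h0
    exact absurd h0 (lt_irrefl 0)
  | g hh r l =>
    rw [hrow] at h1 h0
    unfold symY at h1
    simp only [rForce_eq] at h1
    rw [e1, e2, e3] at h1
    obtain ⟨hh0, h1⟩ := rAnd_iff.1 h1
    obtain ⟨h2, h3⟩ := rAnd_iff.1 h1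
    obtain ⟨h4, h5⟩ := rAnd_iff.1 h3
    have eo := oInt_unique (T.kx_lt a) h2 (T.ox_lt_optN a) jl.2 jl.1
    rw [eo, T.optA_div] at h5
    exact Nat.eq_of_beq_eq_true (rAllN_iff.1 (rAnd_iff.1 h5).2 g hg)

/-- **The reserves of a relabelled map.** -/
theorem relab_rz {zt : DT} (h : DT.all (symY zt) zt = true) {g : ℕ} (hg : g < 3) (a : F) :
    T.relab.rz zt g a = T.rz zt g a := by
  by_cases h0 : 0 < T.rz zt g a
  · exact T.relab_rz_pos h hg h0
  · by_cases h1 : 0 < T.relab.rz zt g a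
    · have h2 := T.relab.relab_rz_pos h hg h1
      rw [relab_relab] at h2
      omega
    · omega

theorem relab_rtot {zt : DT} (h : DT.all (symY zt) zt = true) (a : F) :
    T.relab.rtot zt a = T.rtot zt a := by
  unfold rtot
  rw [T.relab_rz h (by norm_num), T.relab_rz h (by norm_num), T.relab_rz h (by norm_num)]

/-! ### Corrections, from the shorter check -/

theorem sC_at {t : DT} (h : ∀ k < 101, ∀ o < optN k, sH t k o = true) {a : F} (ha : T.Tri a) :
    sC t (T.kx a) (T.ox a) (T.jx a) = true := by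
  have h1 := h _ (T.kx_lt a) _ (T.ox_lt_optN a)
  unfold sH at h1
  rw [rForce_eq] at h1
  obtain ⟨h2, -⟩ := T.tri_px ha
  have h3 := rAllN_iff.1 h1 (T.px a) (by
    show T.px a < triOff (T.kx a) (T.ox a + 1) - triOff (T.kx a) (T.ox a)
    rw [← length_tri]
    exact h2)
  exact h3

theorem relab_dlH_pos {t : DT} (h : ∀ k < 101, ∀ o < optN k, sH t k o = true) {a : F}
    (ha : T.Tri a) (h0 : 0 < T.dl t a) : T.relab.dl t a = T.dl t a := by
  have h1 := T.sC_at h ha
  unfold dl at h0 ⊢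
  rw [T.rs_tri ha] at h0 ⊢
  have ha' : T.relab.Tri a := ha
  cases hrow : DT.get t (dkey (T.kx a) (T.jx a)) with
  | nil =>
    rw [hrow] at h0
    exact absurd h0 (lt_irrefl 0)
  | g x r l =>
    unfold sC at h1
    rw [hrow] at h1 h0
    have h2 := imgS_sound h1 h0
    rw [T.relab.rs_tri ha', T.relab_kx, T.relab_jx ha, T.relab_X, T.relab_X, ← h2, T.rv_div,
      T.optA_div]
    rfl

/-- **The corrections of a relabelled map.** -/
theorem relab_dlH {t : DT} (h : ∀ k < 101, ∀ o < optN k, sH t k o = true) {a : F}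
    (ha : T.Tri a) : T.relab.dl t a = T.dl t a := by
  by_cases h0 : 0 < T.dl t a
  · exact T.relab_dlH_pos h ha h0
  · by_cases h1 : 0 < T.relab.dl t a
    · have h2 := T.relab.relab_dlH_pos h (a := a) ha h1
      rw [relab_relab] at h2
      omega
    · omega

/-! ### The stars -/

section star

variable {D : ℕ → ℕ → ℕ} {sp ps : ℕ → ℕ → ℕ → ℕ} {t rt zt tw : DT}

/-- The own pair of one of the two maps is canonical. -/
theorem cnn_or (a : F) : cnn (T.kx a) (T.ox a) = true ∨
    cnn (T.relab.kx a) (T.relab.ox a) = true := by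
  rw [cnn_iff, cnn_iff, T.relab_kx_kx, T.relab_ox_ox, T.relab_kx, T.relab_ox]
  exact Nat.le_total _ _

/-- The claims of the row of a corner of a triangle. -/
def SC (D : ℕ → ℕ → ℕ) (sp ps : ℕ → ℕ → ℕ → ℕ) (t zt : DT) (T : SMap F) (a : F) : Prop :=
  T.dl t a ≤ T.sbud D sp ps a + (T.sbud D sp ps (T.I (T.N a)) +
      T.sbud D sp ps (T.I (T.N (T.I (T.N a))))) +
    (T.rz zt 0 a + T.rz zt 0 (T.I (T.N (T.I (T.N a))))) ∧
  (0 < T.dl t a → 0 < T.dl t (T.I (T.N a)) →
    T.dl t a + (T.dl t (T.I (T.N a)) + T.dl t (T.I (T.N (T.I (T.N a))))) ≤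
      T.sbud D sp ps a + (T.sbud D sp ps (T.I (T.N a)) +
      T.sbud D sp ps (T.I (T.N (T.I (T.N a))))) +
    (T.rz zt 0 a + T.rz zt 0 (T.I (T.N (T.I (T.N a))))) + T.rz zt 0 (T.I (T.N a)))

theorem stC_atH (h : ∀ k < 101, ∀ o < optN k, stH D sp ps t rt k o = true) {a : F} (ha : T.Tri a)
    (hc : cnn (T.kx a) (T.ox a) = true) :
    stC D sp ps t rt (T.kx a) (T.ox a) (T.jx a) = true := by
  have h1 := h _ (T.kx_lt a) _ (T.ox_lt_optN a)
  unfold stH at h1
  rw [hc, rIf_true] at h1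
  unfold stO at h1
  rw [rForce_eq] at h1
  obtain ⟨h2, -⟩ := T.tri_px ha
  have h3 := rAllN_iff.1 h1 (T.px a) (by
    show T.px a < triOff (T.kx a) (T.ox a + 1) - triOff (T.kx a) (T.ox a)
    rw [← length_tri]
    exact h2)
  exact h3

theorem wC_atH (h : ∀ k < 101, ∀ o < optN k, wH sp ps rt tw k o = true) {a : F} (ha : T.Tri a)
    (hc : cnn (T.kx a) (T.ox a) = true) :
    wC sp ps rt tw (T.kx a) (T.ox a) (T.jx a) = true := by
  have h1 := h _ (T.kx_lt a) _ (T.ox_lt_optN a)
  unfold wH at h1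
  rw [hc, rIf_true] at h1
  unfold wO at h1
  rw [rForce_eq] at h1
  obtain ⟨h2, -⟩ := T.tri_px ha
  have h3 := rAllN_iff.1 h1 (T.px a) (by
    show T.px a < triOff (T.kx a) (T.ox a + 1) - triOff (T.kx a) (T.ox a)
    rw [← length_tri]
    exact h2)
  exact h3

theorem sc_of_cnn (h : ∀ k < 101, ∀ o < optN k, stH D sp ps t rt k o = true)
    (hr : DT.all (rtR zt) rt = true) {a : F} (ha : T.Tri a)
    (hc : cnn (T.kx a) (T.ox a) = true) : SC D sp ps t zt T a := by
  have ha2 := T.tri_rot ha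
  have ha3 := T.tri_rot ha2
  rcases Nat.eq_zero_or_pos (T.dl t a) with h0 | h0
  · unfold SC
    rw [h0]
    exact ⟨Nat.zero_le _, fun h1 => absurd h1 (Nat.lt_irrefl 0)⟩
  have h1 := T.stC_atH h ha hc
  have hS : stR (T.sbud D sp ps a + (T.sbud D sp ps (T.I (T.N a)) +
        T.sbud D sp ps (T.I (T.N (T.I (T.N a))))))
      (DL.grp (DT.get rt (dkey (T.kx a) (T.rs a))) 0)
      (DL.grp (DT.get rt (dkey (T.kx (T.I (T.N a))) (T.rs (T.I (T.N a))))) 0)
      (DL.grp (DT.get rt (dkey (T.kx (T.I (T.N (T.I (T.N a)))))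
        (T.rs (T.I (T.N (T.I (T.N a))))))) 0)
      (DT.get t (dkey (T.kx (T.I (T.N a))) (T.rs (T.I (T.N a)))))
      (DT.get t (dkey (T.kx (T.I (T.N (T.I (T.N a))))) (T.rs (T.I (T.N (T.I (T.N a)))))))
      (DT.get t (dkey (T.kx a) (T.rs a))) = true := by
    rw [T.rs_tri ha, T.rs_tri ha2, T.rs_tri ha3]
    unfold stC at h1
    cases hrow : DT.get t (dkey (T.kx a) (T.jx a)) with
    | nil => rfl
    | g x r l =>
      rw [hrow] at h1
      simp only [rForce_eq] at h1
      rw [← T.rot_k a, ← T.rot_o ha, ← T.rot_j ha, T.farK_eq ha, T.t3A_jx ha, ← T.rot_j ha2] at h1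
      unfold sbud
      rw [T.rs_tri ha, T.rs_tri ha2, T.rs_tri ha3]
      have e : D (T.kx a) (T.ox a) + psA sp ps (T.kx a) (T.ox a) (T.jx a) +
          (D (T.kx (T.I (T.N a))) (T.ox (T.I (T.N a))) +
            psA sp ps (T.kx (T.I (T.N a))) (T.ox (T.I (T.N a))) (T.jx (T.I (T.N a))) +
          (D (T.kx (T.I (T.N (T.I (T.N a))))) (T.ox (T.I (T.N (T.I (T.N a))))) +
            psA sp ps (T.kx (T.I (T.N (T.I (T.N a))))) (T.ox (T.I (T.N (T.I (T.N a)))))
              (T.jx (T.I (T.N (T.I (T.N a))))))) =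
          Nat.add (Nat.add (D (T.kx a) (T.ox a)) (Nat.add (D (T.kx (T.I (T.N a)))
            (T.ox (T.I (T.N a)))) (D (T.kx (T.I (T.N (T.I (T.N a)))))
              (T.ox (T.I (T.N (T.I (T.N a))))))))
          (Nat.add (psA sp ps (T.kx a) (T.ox a) (T.jx a)) (Nat.add
            (psA sp ps (T.kx (T.I (T.N a))) (T.ox (T.I (T.N a))) (T.jx (T.I (T.N a))))
            (psA sp ps (T.kx (T.I (T.N (T.I (T.N a))))) (T.ox (T.I (T.N (T.I (T.N a)))))
              (T.jx (T.I (T.N (T.I (T.N a)))))))) := by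
        simp only [Nat.add_eq]
        omega
      rw [e]
      exact h1
  have h2 := stR_sound hS (T.X trX (T.I a)) (T.X trX (T.N a)) (T.X trX (T.N (T.I (T.N a))))
  have r1 := T.rt_le hr 0 ha
  have r2 := T.rt_le hr 0 ha2
  have r3 := T.rt_le hr 0 ha3
  have eNc : T.N (T.I (T.N (T.I (T.N a)))) = T.I a := T.N_third ha
  rw [eNc] at r3
  unfold SC dl
  rw [eNc, T.I_I, T.I_I]
  refine ⟨le_trans h2.1 (by omega), fun h3 h4 => ?_⟩
  have h5 := h2.2 h3 h4
  omega

variable (hsD : ∀ k < 101, symTK D k = true) (hps : ∀ (T : SMap F) (d : F), T.Tri d →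
    T.relab.cz ps d = T.cz ps d) (hsp : ∀ (T : SMap F) (d : F), T.Tri d →
    T.relab.cz sp d = T.cz sp d)

include hps hsp

theorem relab_psA {a : F} (ha : T.Tri a) :
    psA sp ps (T.relab.kx a) (T.relab.ox a) (T.relab.rs a) =
      psA sp ps (T.kx a) (T.ox a) (T.rs a) := by
  have h1 := hps T a ha
  have h2 := hsp T a ha
  unfold cz at h1 h2
  unfold psA
  rw [rForce_eq, rForce_eq, rForce_eq, rForce_eq, h1, h2]

theorem relab_pB {a : F} (ha : T.Tri a) : T.relab.pB sp ps a = T.pB sp ps a := by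
  have h1 := hps T a ha
  have h2 := T.relab_psA hps hsp ha
  unfold cz at h1
  unfold pB psB
  rw [h1, h2]

include hsD

theorem relab_sbud {a : F} (ha : T.Tri a) : T.relab.sbud D sp ps a = T.sbud D sp ps a := by
  unfold sbud
  rw [T.relab_tab hsD, T.relab_psA hps hsp ha]

theorem sc_at (h : ∀ k < 101, ∀ o < optN k, stH D sp ps t rt k o = true)
    (hs : ∀ k < 101, ∀ o < optN k, sH t k o = true) (hy : DT.all (symY zt) zt = true)
    (hr : DT.all (rtR zt) rt = true) {a : F} (ha : T.Tri a) : SC D sp ps t zt T a := by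
  rcases T.cnn_or a with hc | hc
  · exact T.sc_of_cnn h hr ha hc
  · have h1 := T.relab.sc_of_cnn h hr (show T.relab.Tri a from ha) hc
    have ha2 := T.tri_rot ha
    have ha3 := T.tri_rot ha2
    unfold SC at h1 ⊢
    simp only [relab_N, relab_I] at h1
    rw [T.relab_dlH hs ha, T.relab_dlH hs ha2, T.relab_dlH hs ha3, T.relab_sbud hsD hps hsp ha,
      T.relab_sbud hsD hps hsp ha2, T.relab_sbud hsD hps hsp ha3,
      T.relab_rz hy (by norm_num), T.relab_rz hy (by norm_num), T.relab_rz hy (by norm_num)] at h1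
    exact h1

/-- **The closure of the corrections over a triangle.** -/
theorem star_sumH (h : ∀ k < 101, ∀ o < optN k, stH D sp ps t rt k o = true)
    (hs : ∀ k < 101, ∀ o < optN k, sH t k o = true) (hy : DT.all (symY zt) zt = true)
    (hr : DT.all (rtR zt) rt = true) {a : F} (ha : T.Tri a) :
    T.dl t a + T.dl t (T.I (T.N a)) + T.dl t (T.I (T.N (T.I (T.N a)))) ≤
      T.sbud D sp ps a + T.sbud D sp ps (T.I (T.N a)) +
        T.sbud D sp ps (T.I (T.N (T.I (T.N a)))) +
      (T.rz zt 0 a + T.rz zt 0 (T.I (T.N a)) + T.rz zt 0 (T.I (T.N (T.I (T.N a))))) := by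
  have hb := T.tri_rot ha
  have hc := T.tri_rot hb
  have e3 := T.rot_three ha
  have h1 := T.sc_at hsD hps hsp h hs hy hr ha
  have h2 := T.sc_at hsD hps hsp h hs hy hr hb
  have h3 := T.sc_at hsD hps hsp h hs hy hr hc
  unfold SC at h1 h2 h3
  simp only [e3] at h2 h3
  obtain ⟨h1, h1'⟩ := h1
  obtain ⟨h2, h2'⟩ := h2
  obtain ⟨h3, h3'⟩ := h3
  rcases Nat.eq_zero_or_pos (T.dl t a) with ea | ea
  · rcases Nat.eq_zero_or_pos (T.dl t (T.I (T.N a))) with eb | eb
    · omega
    · rcases Nat.eq_zero_or_pos (T.dl t (T.I (T.N (T.I (T.N a))))) with ec | ec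
      · omega
      · have := h2' eb ec
        omega
  · rcases Nat.eq_zero_or_pos (T.dl t (T.I (T.N a))) with eb | eb
    · rcases Nat.eq_zero_or_pos (T.dl t (T.I (T.N (T.I (T.N a))))) with ec | ec
      · omega
      · have := h3' ec ea
        omega
    · have := h1' ea eb
      omega

omit hsD

/-- The claim of the row of the fans of a corner. -/
theorem dw_leH (h : ∀ k < 101, ∀ o < optN k, wH sp ps rt tw k o = true)
    (hs : ∀ k < 101, ∀ o < optN k, sH tw k o = true) (hy : DT.all (symY zt) zt = true)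
    (hr : DT.all (rtR zt) rt = true) {a : F} (ha : T.Tri a) :
    T.dl tw a ≤ psB sp ps (T.kx a) (T.ox a) (T.rs a) + T.rz zt 1 a +
      T.rz zt 2 (T.I (T.N (T.I (T.N a)))) := by
  have key : ∀ T : SMap F, T.Tri a → cnn (T.kx a) (T.ox a) = true →
      T.dl tw a ≤ psB sp ps (T.kx a) (T.ox a) (T.rs a) + T.rz zt 1 a +
        T.rz zt 2 (T.I (T.N (T.I (T.N a)))) := by
    intro T ha hcn
    have hb := T.tri_rot ha
    have hc := T.tri_rot hb
    have h1 := T.wC_atH h ha hcn
    have r1 := T.rt_le hr 1 ha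
    have r2 := T.rt_le hr 2 hc
    rw [T.N_third ha] at r2
    rcases Nat.eq_zero_or_pos (T.dl tw a) with h0 | h0
    · rw [h0]
      exact Nat.zero_le _
    unfold wC at h1
    unfold dl at h0 ⊢
    rw [T.rs_tri ha] at h0 r1 ⊢
    rw [T.rs_tri hc] at r2
    cases hrow : DT.get tw (dkey (T.kx a) (T.jx a)) with
    | nil =>
      rw [hrow] at h0
      exact absurd h0 (lt_irrefl 0)
    | g x r l =>
      rw [hrow] at h1 h0
      simp only [rForce_eq] at h1
      rw [← T.rot_k a, ← T.rot_j ha, T.farK_eq ha, ← T.rot_j hb] at h1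
      have h5 := DL.val_of_all (x := T.X trX (T.I a)) (y := T.X trX (T.N a)) h1 h0
      rcases DR.val_of_all h5 (T.X trX (T.N a)) with h6 | h6
      · exact absurd h0 (by
          have h7 : DL.val (DL.g x r l) (T.X trX (T.I a)) (T.X trX (T.N a)) = 0 := h6
          omega)
      · rcases ble_of_rIf h6 with h7 | h7
        · have h8 : DL.val (DL.g x r l) (T.X trX (T.I a)) (T.X trX (T.N a)) ≤
            psB sp ps (T.kx a) (T.ox a) (T.jx a) +
              DR.val (DL.grp (DT.get rt (dkey (T.kx (T.I (T.N (T.I (T.N a)))))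
                (T.jx (T.I (T.N (T.I (T.N a))))))) 2) (T.X trX (T.I a)) :=
            Nat.le_of_ble_eq_true h7
          omega
        · have h8 : DL.val (DL.g x r l) (T.X trX (T.I a)) (T.X trX (T.N a)) ≤
            psB sp ps (T.kx a) (T.ox a) (T.jx a) +
              DR.val (DL.grp (DT.get rt (dkey (T.kx (T.I (T.N (T.I (T.N a)))))
                (T.jx (T.I (T.N (T.I (T.N a))))))) 2) (T.X trX (T.I a)) +
              DR.val (DL.grp (DT.get rt (dkey (T.kx a) (T.jx a))) 1) (T.X trX (T.N a)) :=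
            Nat.le_of_ble_eq_true h7
          omega
  rcases T.cnn_or a with hc | hc
  · exact key T ha hc
  · have h1 := key T.relab ha hc
    have h2 := T.relab_pB hps hsp ha
    unfold pB at h2
    simp only [relab_N, relab_I] at h1
    rw [T.relab_dlH hs ha, h2, T.relab_rz hy (by norm_num), T.relab_rz hy (by norm_num)] at h1
    exact h1

end star

end SMap

end Pool.Agent.Lib.MP_5854e1_co
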