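import Pool.Agent.Lib.MP_5854e1_co.HalfMap

/-!
# The regions of the strips from the halved checks
-/

set_option autoImplicit false

open Equiv Equiv.Perm

namespace Pool.Agent.Lib.MP_5854e1_co

open PB

namespace SMap

variable {F : Type*} (T : SMap F)

variable {gp gm : ℕ → ℕ → ℕ → ℕ → ℕ → ℕ → ℕ} {sp ps : ℕ → ℕ → ℕ → ℕ} {rt zt tw : DT}

/-- The key of a window is at most the reflected key. -/
def KL (a : F) : Prop := zkey (T.kx a) (T.jx a) (T.jx (T.N a)) ≤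
  zkey (mK (T.kx a)) (mJ (T.kx a) (T.jx a)) (mJ (T.kx (T.N a)) (T.jx (T.N a)))

theorem KL_or {a : F} (ha : T.Tri a) (hn : T.Tri (T.N a)) : T.KL a ∨ T.relab.KL a := by
  unfold KL
  simp only [relab_N]
  rw [T.relab_kx_kx, T.relab_jx_jx ha, T.relab_jx_jx hn, T.relab_jx ha, T.relab_jx hn,
    T.relab_kx]
  exact Nat.le_total _ _

/-- The first token of a row. -/
theorem hdr_at (h : DT.all (regH gp gm sp ps rt zt tw) zt = true) {a : F} {x : ℕ} {r : DR} {l : DL}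
    (hrow : T.zr zt a = DL.g x r l) : Nat.ble 1048576 x = true := by
  unfold zr at hrow
  rcases DT.get_of_all h (zkey (T.kx a) (T.rs a) (T.rs (T.N a))) with h1 | h1
  · rw [h1] at hrow
    cases hrow
  rw [hrow] at h1
  unfold regH at h1
  simp only [rForce_eq] at h1
  exact (rAnd_iff.1 h1).1

/-- The check of the row of a window. -/
theorem regE_atH (h : DT.all (regH gp gm sp ps rt zt tw) zt = true) {a : F} (ha : T.Tri a)
    (hn : T.Tri (T.N a)) (hk : T.KL a) {x : ℕ} {r : DR} {l : DL} (hrow : T.zr zt a = DL.g x r l) :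
    regEH gp gm sp ps rt zt tw (T.kx a) (T.ox a) (T.jx a) (T.kx (T.N a))
      (T.ox (T.N a)) (T.jx (T.N a)) r l = true := by
  have jl := T.jx_lt ha
  have jl1 := T.jx_lt hn
  obtain ⟨e1, e2, e3⟩ := zkey_parts (k := T.kx a) (T.jx_lt13 ha) (T.jx_lt13 hn)
  unfold zr at hrow
  rw [T.rs_tri ha, T.rs_tri hn] at hrow
  rcases DT.get_of_all h (zkey (T.kx a) (T.jx a) (T.jx (T.N a))) with h1 | h1
  · rw [h1] at hrow
    cases hrow
  rw [hrow] at h1
  unfold regH at h1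
  simp only [rForce_eq] at h1
  rw [e1, e2, e3] at h1
  obtain ⟨hh, h1⟩ := rAnd_iff.1 h1
  obtain ⟨h2, h3⟩ := rAnd_iff.1 h1
  obtain ⟨h4, h5⟩ := rAnd_iff.1 h3
  have eo := oInt_unique (T.kx_lt a) h2 (T.ox_lt_optN a) jl.2 jl.1
  rw [eo, T.optA_div] at h4
  have eo1 := oInt_unique (T.kx_lt (T.N a)) h4 (T.ox_lt_optN (T.N a)) jl1.2 jl1.1
  rw [eo, T.optA_div, eo1] at h5
  have hb : Nat.ble (zkey (T.kx a) (T.jx a) (T.jx (T.N a)))
      (zkey (mK (T.kx a)) (mJ (T.kx a) (T.jx a)) (mJ (T.kx (T.N a)) (T.jx (T.N a)))) = true :=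
    Nat.ble_eq_true_of_le hk
  rw [hb, rIf_true] at h5
  exact h5

/-- The budget of a strip and the closure over its region, for the smaller key. -/
theorem reg_atH (h : DT.all (regH gp gm sp ps rt zt tw) zt = true)
    (hr : DT.all (rtR zt) rt = true) {a : F} (ha : T.Tri a) (hn : T.Tri (T.N a)) (hk : T.KL a)
    (hrow : T.zr zt a ≠ DL.nil) :
    T.gzN gm a + T.gzN gm (T.bk a) + (T.rtot zt a + T.rtot zt (T.bk a)) ≤
        T.gzN gp a + T.gzN gp (T.bk a) ∧
      (0 < T.win zt a →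
        T.win zt a + T.win zt (T.bk a) + T.dl tw (T.I (T.N (T.N a))) +
          T.dl tw (T.I (T.N (T.I (T.N a)))) + (T.gzN gm a + T.gzN gm (T.bk a) +
            (T.rtot zt a + T.rtot zt (T.bk a))) ≤
        T.gzN gp a + T.gzN gp (T.bk a) + T.pB sp ps (T.I (T.N (T.N a))) +
          T.pB sp ps (T.I (T.N (T.I (T.N a)))) +
          (T.rz zt 1 (T.I (T.N (T.I (T.N a)))) + T.rz zt 2 (T.N a) + T.rz zt 2 (T.I (T.N a)) +
            T.rz zt 1 (T.I (T.N (T.N a))))) := by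
  have ha2 := T.tri_rot ha
  have ha3 := T.tri_rot ha2
  have hn2 := T.tri_rot hn
  have hn3 := T.tri_rot hn2
  have hb : T.Tri (T.bk a) := (T.tri_bk a).2 hn
  have hb1 : T.Tri (T.N (T.bk a)) := (T.tri_N_bk a).2 ha
  have hbe := T.bk_tri hn
  cases hr0 : T.zr zt a with
  | nil => exact absurd hr0 hrow
  | g x r l =>
    have hx := T.hdr_at h hr0
    have hE := T.regE_atH h ha hn hk hr0
    have htot : T.rtot zt a = DR.tot r := by
      rw [T.rtot_tri ha hn]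
      show DR.tot (DL.hd (T.zr zt a)) = _
      rw [hr0]
      rfl
    have hbtot := T.rtot_tri (zt := zt) hb hb1
    unfold regEH at hE
    simp only [rForce_eq] at hE
    rw [← T.rot_k a, ← T.rot_j ha, ← T.rot_o ha, T.farK_eq ha, ← T.rot_k (T.N a), ← T.rot_j hn,
      ← T.rot_o hn, T.farK_eq hn, T.t3A_jx ha, T.t3A_jx hn, ← T.rot_j ha2, ← T.rot_j hn2] at hE
    obtain ⟨h2, h3⟩ := rAnd_iff.1 hE
    have hbk : T.I (T.N (T.I (T.N (T.N a)))) = T.bk a := hbe.symm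
    have hzb : DT.get zt (zkey (T.kx (T.I (T.N (T.I (T.N (T.N a))))))
        (T.jx (T.I (T.N (T.I (T.N (T.N a)))))) (T.jx (T.I (T.N a)))) = T.zr zt (T.bk a) := by
      unfold zr
      rw [hbk, T.rs_tri hb, N_bk, T.rs_tri ha2]
    rw [hzb] at h2 h3
    have e1 : T.gzN gp a = gp (T.kx a) (T.ox a) (T.jx a) (T.kx (T.N a)) (T.ox (T.N a))
        (T.jx (T.N a)) := by
      unfold gzN
      rw [T.rs_tri ha, T.rs_tri hn]
    have e2 : T.gzN gm a = gm (T.kx a) (T.ox a) (T.jx a) (T.kx (T.N a)) (T.ox (T.N a))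
        (T.jx (T.N a)) := by
      unfold gzN
      rw [T.rs_tri ha, T.rs_tri hn]
    have e3 : T.gzN gp (T.bk a) = gp (T.kx (T.bk a)) (T.ox (T.bk a)) (T.jx (T.bk a))
        (T.kx (T.I (T.N a))) (T.ox (T.I (T.N a))) (T.jx (T.I (T.N a))) := by
      unfold gzN
      rw [T.rs_tri hb, N_bk, T.rs_tri ha2]
    have e4 : T.gzN gm (T.bk a) = gm (T.kx (T.bk a)) (T.ox (T.bk a)) (T.jx (T.bk a))
        (T.kx (T.I (T.N a))) (T.ox (T.I (T.N a))) (T.jx (T.I (T.N a))) := by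
      unfold gzN
      rw [T.rs_tri hb, N_bk, T.rs_tri ha2]
    have e5 : T.rtot zt (T.bk a) = DR.tot (DL.hd (T.zr zt (T.bk a))) := hbtot
    rw [hbk, ← e1, ← e2, ← e3, ← e4, ← htot, ← e5] at h2 h3
    have h2' : T.gzN gm a + T.gzN gm (T.bk a) + (T.rtot zt a + T.rtot zt (T.bk a)) ≤
        T.gzN gp a + T.gzN gp (T.bk a) := Nat.le_of_ble_eq_true h2
    refine ⟨h2', fun h0 => ?_⟩
    have w1 : T.win zt a = DL.val l (T.X trX (T.N (T.N a))) (T.X trX (T.I a)) := by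
      rw [T.win_tri ha hn]
      show DL.val (T.zr zt a) _ _ = _
      rw [hr0, DL.val_tail hx (T.X_lt _)]
    have w2 : T.win zt (T.bk a) = DL.val (DL.tl (T.zr zt (T.bk a)))
        (T.X trX (T.N (T.I (T.N a)))) (T.X trX (T.I (T.bk a))) := by
      rw [T.win_tri hb hb1]
      show DL.val (T.zr zt (T.bk a)) _ _ = _
      rw [N_bk]
      cases hrb : T.zr zt (T.bk a) with
      | nil => rfl
      | g x' r' l' =>
        have hx' := T.hdr_at h hrb
        rw [DL.val_tail hx' (T.X_lt _)]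
        rfl
    rw [w1] at h0
    have h6 := rgH_sound h3 (x1 := T.X trX (T.I a)) (x2 := T.X trX (T.N (T.N a)))
      (T.X trX (T.N (T.I (T.N a)))) (T.X trX (T.I (T.bk a))) h0
    have eN : T.N (T.I (T.N (T.N a))) = T.I (T.bk a) := by
      rw [hbe, I_I]
    have eNl : T.N (T.I (T.N (T.I (T.N a)))) = T.I a := T.N_third ha
    have r1 := T.rt_le hr 1 ha3
    have r2 := T.rt_le hr 2 hn
    have r3 := T.rt_le hr 2 ha2
    have r4 := T.rt_le hr 1 hn2
    rw [eNl, T.rs_tri ha3] at r1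
    rw [T.rs_tri hn] at r2
    rw [T.rs_tri ha2] at r3
    rw [eN, T.rs_tri hn2] at r4
    have d1 : T.dl tw (T.I (T.N (T.N a))) = DL.val (DT.get tw (dkey (T.kx (T.I (T.N (T.N a))))
        (T.jx (T.I (T.N (T.N a)))))) (T.X trX (T.N (T.N a))) (T.X trX (T.I (T.bk a))) := by
      unfold dl
      rw [T.rs_tri hn2, I_I, eN]
    have d2 : T.dl tw (T.I (T.N (T.I (T.N a)))) = DL.val (DT.get tw
        (dkey (T.kx (T.I (T.N (T.I (T.N a))))) (T.jx (T.I (T.N (T.I (T.N a)))))))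
        (T.X trX (T.N (T.I (T.N a)))) (T.X trX (T.I a)) := by
      unfold dl
      rw [T.rs_tri ha3, I_I, eNl]
    have p1 : T.pB sp ps (T.I (T.N (T.N a))) = psB sp ps (T.kx (T.I (T.N (T.N a))))
        (T.ox (T.I (T.N (T.N a)))) (T.jx (T.I (T.N (T.N a)))) := by
      unfold pB
      rw [T.rs_tri hn2]
    have p2 : T.pB sp ps (T.I (T.N (T.I (T.N a)))) = psB sp ps (T.kx (T.I (T.N (T.I (T.N a)))))
        (T.ox (T.I (T.N (T.I (T.N a))))) (T.jx (T.I (T.N (T.I (T.N a))))) := by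
      unfold pB
      rw [T.rs_tri ha3]
    rw [w1, w2, d1, d2, p1, p2]
    simp only [Nat.add_eq, Nat.sub_eq] at h6
    omega

end SMap

end Pool.Agent.Lib.MP_5854e1_co
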