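import Pool.Agent.Lib.MP_5854e1_co.BlkD

/-!
# Long numbers

A long number is written as `jn a (jn b …)` with pieces of 2048 hexadecimal digits, since the time to
read a literal grows with the square of its length. The definition is in `BlkD`.
-/
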