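import Pool.Agent.Lib.MP_5854e1_co.RngW

/-!
# Tables of shares of the slacks of single regions and triangles

The table `qt` has a row for a window; a group consists of the tokens of the two outer strips of the
own cell, an entry of the tokens of the other two outer strips. An entry `v` is the share `v - 1` of
the own side in six times the slack of the region. The table `pt` has a row for a corner of a
triangle; a group consists of the tokens of the two strips of the corner, an entry of the token of the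
third strip of the triangle.
-/

set_option autoImplicit false

open Equiv Equiv.Perm

namespace Pool.Agent.Lib.MP_5854e1_co

open PB

noncomputable section

theorem dkey_parts {x y : ℕ} (h : y < 8192) : Nat.div (dkey x y) 8192 = x ∧
    Nat.mod (dkey x y) 8192 = y := by
  have e : dkey x y = y + 8192 * x := rfl
  rw [e]
  constructor
  · show (y + 8192 * x) / 8192 = x
    omega
  · show (y + 8192 * x) % 8192 = y
    omega

theorem dkey_lt {x y : ℕ} (hx : x < 8192) (hy : y < 8192) : dkey x y < 67108864 := by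
  have e : dkey x y = y + 8192 * x := rfl
  omega

theorem DL.val_tl {h : ℕ} {r : DR} {l : DL} {x y : ℕ} (hh : Nat.ble 67108864 h = true)
    (hx : x < 67108864) : DL.val (DL.g h r l) x y = DL.val l x y := by
  have h1 : 67108864 ≤ h := Nat.le_of_ble_eq_true hh
  rw [DL.val_g]
  have h2 : Nat.beq h x = false := by
    cases h3 : Nat.beq h x with
    | false => rfl
    | true =>
      have := Nat.eq_of_beq_eq_true h3
      omega
  rw [h2]

section defs

variable (gp gm : ℕ → ℕ → ℕ → ℕ → ℕ → ℕ → ℕ) (D : ℕ → ℕ → ℕ) (sp ps : ℕ → ℕ → ℕ → ℕ)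
  (t rt zt tw qt pt : DT)

/-- The check of the entries of a row of `qt`. The entries of the other side are present; if `full`
then the sum of the two shares is at most six times the slack of the region. -/
def qjR (full : ℕ → Bool) (k0 o0 j0 k1 o1 j1 : ℕ) (hr : DR) (la l : DL) : Bool :=
  rForce (Nat.div (flA k0 o0) (nat_lit 16384)) fun ka =>
  rForce (Nat.mod (triA k0 j0) (nat_lit 512)) fun oa =>
  rForce (rjA k0 j0) fun ja =>
  rForce (farK k0 o0 j0) fun kc =>
  rForce (rjA ka ja) fun jc =>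
  rForce (Nat.div (flA k1 o1) (nat_lit 16384)) fun kb =>
  rForce (rjA k1 j1) fun jb =>
  rForce (farK k1 o1 j1) fun kd =>
  rForce (t3A k1 j1) fun od =>
  rForce (rjA kb jb) fun jd =>
  rForce (zkey kd jd ja) fun ib =>
  rIf (full ib)
  (rForce (Nat.mul (nat_lit 6) (Nat.add (Nat.add (gp k0 o0 j0 k1 o1 j1) (gp kd od jd ka oa ja))
    (Nat.add (psB sp ps kc (t3A k0 j0) jc)
      (psB sp ps kb (Nat.mod (triA k1 j1) (nat_lit 512)) jb)))) fun S =>
  rForce (Nat.mul (nat_lit 6) (Nat.add (Nat.add (gm k0 o0 j0 k1 o1 j1) (gm kd od jd ka oa ja))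
    (Nat.add (DR.tot hr) (DR.tot (DL.hd (DT.get zt ib)))))) fun M =>
  DL.all (fun G r => rForce (Nat.div G (nat_lit 8192)) fun x2 =>
    rForce (Nat.mod G (nat_lit 8192)) fun x1 =>
    rForce (Nat.add S (Nat.add (nat_lit 2) (Nat.mul (nat_lit 6)
      (Nat.add (DR.val (DL.grp (DT.get rt (dkey kc jc)) (nat_lit 1)) x1)
        (DR.val (DL.grp (DT.get rt (dkey k1 j1)) (nat_lit 2)) x2))))) fun S1 =>
    rForce (Nat.add M (Nat.mul (nat_lit 6) (DL.val la x2 x1))) fun M1 =>
    DR.all (fun E v => rForce (Nat.div E (nat_lit 8192)) fun x3 =>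
      rForce (Nat.mod E (nat_lit 8192)) fun x4 =>
      rForce (DL.val (DL.tl (DT.get qt ib)) E G) fun w =>
      rAnd (Nat.ble (nat_lit 1) w)
        (Nat.ble (Nat.add (Nat.add v w) (Nat.add M1 (Nat.mul (nat_lit 6)
          (Nat.add (DL.val (DT.get tw (dkey kb jb)) x2 x4)
            (Nat.add (DL.val (DL.tl (DT.get zt ib)) x3 x4)
              (DL.val (DT.get tw (dkey kc jc)) x3 x1))))))
          (Nat.add S1 (Nat.mul (nat_lit 6)
            (Nat.add (DR.val (DL.grp (DT.get rt (dkey ka ja)) (nat_lit 2)) x3)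
              (DR.val (DL.grp (DT.get rt (dkey kb jb)) (nat_lit 1)) x4)))))) r) l)
  (DL.all (fun G r => DR.all (fun E _ =>
    Nat.ble (nat_lit 1) (DL.val (DL.tl (DT.get qt ib)) E G)) r) l)

/-- The check of a row of `qt`. -/
def qjH (i : ℕ) (row : DL) : Bool :=
  DL.rec (motive := fun _ => Bool) true (fun h _ l _ =>
    rForce (Nat.div i (nat_lit 67108864)) fun k0 =>
    rForce (Nat.mod (Nat.div i (nat_lit 8192)) (nat_lit 8192)) fun j0 =>
    rForce (Nat.mod i (nat_lit 8192)) fun j1 =>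
    rForce (Nat.mod (Nat.div h (nat_lit 512)) (nat_lit 512)) fun o0 =>
    rForce (Nat.mod h (nat_lit 512)) fun o1 =>
    rForce (Nat.div (optA k0 o0) (nat_lit 72)) fun k1 =>
    rAnd (Nat.ble (nat_lit 67108864) h) (rAnd (oInt k0 o0 j0) (rAnd (oInt k1 o1 j1)
      (rForce (zkey (mK k0) (mJ k0 j0) (mJ k1 j1)) fun i' =>
      rAnd
        (rForce (Nat.div (optA k1 o1) (nat_lit 72)) fun k2 =>
          rForce (Nat.div (rv k0) (nat_lit 24)) fun ki =>
          rForce (Nat.div (optA (Nat.div (flA k0 o0) (nat_lit 16384))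
            (Nat.mod (triA k0 j0) (nat_lit 512))) (nat_lit 72)) fun k3 =>
          rForce (Nat.div (rv (farK k1 o1 j1)) (nat_lit 24)) fun k4 =>
          imgS (fun G => dkey (tM k2 (Nat.div G (nat_lit 8192))) (tM ki (Nat.mod G (nat_lit 8192))))
            (fun E => dkey (tM k3 (Nat.div E (nat_lit 8192))) (tM k4 (Nat.mod E (nat_lit 8192))))
            (DT.get qt i') l)
        (qjR gp gm sp ps rt zt tw qt (fun ib => rIf (Nat.ble i i') (Nat.ble i ib) false)
          k0 o0 j0 k1 o1 j1 (DL.hd (DT.get zt i)) (DL.tl (DT.get zt i)) l))))) row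

/-- The check of the row of `pt` of the corner `(k, o, j)`. -/
def pjC (k o j : ℕ) : Bool :=
  DL.rec (motive := fun _ => Bool) true
    (fun _ _ _ _ =>
      rForce (Nat.div (flA k o) (nat_lit 16384)) fun kb =>
      rForce (Nat.mod (triA k j) (nat_lit 512)) fun ob =>
      rForce (rjA k j) fun jb =>
      rForce (farK k o j) fun kc =>
      rForce (t3A k j) fun oc =>
      rForce (rjA kb jb) fun jc =>
      rAnd
        (rForce (Nat.div (rv k) (nat_lit 24)) fun k3 =>
          rForce (Nat.div (optA k o) (nat_lit 72)) fun k1 =>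
          rForce (Nat.div (optA kb ob) (nat_lit 72)) fun k2 =>
          imgS (fun G => dkey (tM k3 (Nat.div G (nat_lit 8192))) (tM k1 (Nat.mod G (nat_lit 8192))))
            (tM k2) (DT.get pt (dkey (mK k) (mJ k j))) (DT.get pt (dkey k j)))
      (rForce (Nat.mul (nat_lit 6) (Nat.add (Nat.add (D k o) (Nat.add (D kb ob) (D kc oc)))
        (Nat.add (psA sp ps k o j) (Nat.add (psA sp ps kb ob jb) (psA sp ps kc oc jc))))) fun S =>
      DL.all (fun G r => rForce (Nat.div G (nat_lit 8192)) fun x3 =>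
        rForce (Nat.mod G (nat_lit 8192)) fun x1 =>
        rForce (Nat.add S (Nat.add (nat_lit 3) (Nat.mul (nat_lit 6)
          (Nat.add (DR.val (DL.grp (DT.get rt (dkey k j)) (nat_lit 0)) x1)
            (DR.val (DL.grp (DT.get rt (dkey kc jc)) (nat_lit 0)) x3))))) fun S1 =>
        rForce (DL.val (DT.get t (dkey k j)) x3 x1) fun v1 =>
        DR.all (fun x2 v =>
          rForce (DL.val (DT.get pt (dkey kb jb)) (dkey x1 x2) x3) fun vb =>
          rForce (DL.val (DT.get pt (dkey kc jc)) (dkey x2 x3) x1) fun vc =>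
          rAnd (Nat.ble (nat_lit 1) vb) (rAnd (Nat.ble (nat_lit 1) vc)
            (Nat.ble (Nat.add (Nat.add v (Nat.add vb vc)) (Nat.mul (nat_lit 6)
              (Nat.add v1 (Nat.add (DL.val (DT.get t (dkey kb jb)) x1 x2)
                (DL.val (DT.get t (dkey kc jc)) x2 x3)))))
              (Nat.add S1 (Nat.mul (nat_lit 6)
                (DR.val (DL.grp (DT.get rt (dkey kb jb)) (nat_lit 0)) x2)))))) r)
        (DT.get pt (dkey k j))))
    (DT.get pt (dkey k j))

/-- The check of the rows of `pt` of the pair `(k, o)`. -/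
def pjO (k o : ℕ) : Bool :=
  rForce (triOff k o) fun f => rAllN (fun i => pjC D sp ps t rt pt k o (Nat.add f i))
    (Nat.sub (triOff k (Nat.succ o)) f)

end defs

end

namespace SMap

variable {F : Type*} (T : SMap F)

theorem X_lt13 (a : F) : T.X trX a < 8192 := by
  by_cases h : T.Tri a
  · rw [T.X_tri trX h]
    have h1 := T.rs_tri h
    have h2 := (T.rs_lt_iff a).2 h
    show T.jx a + 1 < 8192
    omega
  · rw [T.X_big trX h]
    norm_num

open Classical in
/-- The entry of `qt` of the region of the strip `N a`, seen from the cell of `a`. -/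
noncomputable def qx (qt : DT) (a : F) : ℕ :=
  if T.Tri a ∧ T.Tri (T.N a) then
    DL.val (T.sgr qt a) (dkey (T.X trX (T.N (T.N a))) (T.X trX (T.I a)))
      (dkey (T.X trX (T.N (T.I (T.N a)))) (T.X trX (T.I (T.bk a))))
  else 0

open Classical in
/-- The entry of `pt` of the corner after `a`. -/
noncomputable def px' (pt : DT) (a : F) : ℕ :=
  if T.Tri a then
    DL.val (DT.get pt (dkey (T.kx a) (T.rs a))) (dkey (T.X trX (T.I a)) (T.X trX (T.N a)))
      (T.X trX (T.N (T.I (T.N a))))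
  else 0

theorem qx_tri {qt : DT} {a : F} (h1 : T.Tri a) (h2 : T.Tri (T.N a)) : T.qx qt a =
    DL.val (T.sgr qt a) (dkey (T.X trX (T.N (T.N a))) (T.X trX (T.I a)))
      (dkey (T.X trX (T.N (T.I (T.N a)))) (T.X trX (T.I (T.bk a)))) := if_pos ⟨h1, h2⟩

theorem qx_left {qt : DT} {a : F} (h : ¬T.Tri a) : T.qx qt a = 0 := if_neg fun h1 => h h1.1

theorem qx_right {qt : DT} {a : F} (h : ¬T.Tri (T.N a)) : T.qx qt a = 0 :=
  if_neg fun h1 => h h1.2

theorem px'_tri {pt : DT} {a : F} (h1 : T.Tri a) : T.px' pt a =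
    DL.val (DT.get pt (dkey (T.kx a) (T.rs a))) (dkey (T.X trX (T.I a)) (T.X trX (T.N a)))
      (T.X trX (T.N (T.I (T.N a)))) := if_pos h1

theorem px'_big {pt : DT} {a : F} (h : ¬T.Tri a) : T.px' pt a = 0 := if_neg h

theorem tri_of_qx {qt : DT} {a : F} (h : T.qx qt a ≠ 0) : T.Tri a ∧ T.Tri (T.N a) := by
  constructor
  · by_contra h1
    exact h (T.qx_left h1)
  · by_contra h1
    exact h (T.qx_right h1)

section chk

variable {gp gm : ℕ → ℕ → ℕ → ℕ → ℕ → ℕ → ℕ} {D : ℕ → ℕ → ℕ} {sp ps : ℕ → ℕ → ℕ → ℕ}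
  {t rt zt tw qt pt : DT}

/-- The key of the window at the strip `N a`. -/
def wk (T : SMap F) (a : F) : ℕ := zkey (T.kx a) (T.jx a) (T.jx (T.N a))

/-- The key of the reflected window. -/
def wk' (T : SMap F) (a : F) : ℕ :=
  zkey (mK (T.kx a)) (mJ (T.kx a) (T.jx a)) (mJ (T.kx (T.N a)) (T.jx (T.N a)))

/-- The parts of the check of a row of `qt`. -/
theorem qjH_at (h : DT.all (qjH gp gm sp ps rt zt tw qt) qt = true) {a : F} (ha : T.Tri a)
    (hn : T.Tri (T.N a)) {x : ℕ} {r : DR} {l : DL} (hrow : T.sgr qt a = DL.g x r l) :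
    Nat.ble 67108864 x = true ∧
    imgS (fun G => dkey (tM (T.kx (T.N (T.N a))) (Nat.div G 8192))
        (tM (T.kx (T.I a)) (Nat.mod G 8192)))
      (fun E => dkey (tM (T.kx (T.N (T.I (T.N a)))) (Nat.div E 8192))
        (tM (T.kx (T.I (T.bk a))) (Nat.mod E 8192)))
      (DT.get qt (T.wk' a)) l = true ∧
    qjR gp gm sp ps rt zt tw qt (fun ib => rIf (Nat.ble (T.wk a) (T.wk' a))
      (Nat.ble (T.wk a) ib) false) (T.kx a) (T.ox a) (T.jx a) (T.kx (T.N a))
      (T.ox (T.N a)) (T.jx (T.N a)) (DL.hd (T.zr zt a)) (DL.tl (T.zr zt a)) l = true := by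
  have jl := T.jx_lt ha
  have jl1 := T.jx_lt hn
  obtain ⟨e1, e2, e3⟩ := zkey_parts (k := T.kx a) (T.jx_lt13 ha) (T.jx_lt13 hn)
  unfold sgr at hrow
  unfold zr wk wk'
  rw [T.rs_tri ha, T.rs_tri hn] at hrow ⊢
  rcases DT.get_of_all h (zkey (T.kx a) (T.jx a) (T.jx (T.N a))) with h1 | h1
  · rw [h1] at hrow
    cases hrow
  rw [hrow] at h1
  unfold qjH at h1
  simp only [rForce_eq] at h1
  rw [e1, e2, e3] at h1
  obtain ⟨hh, h1⟩ := rAnd_iff.1 h1
  obtain ⟨h2, h3⟩ := rAnd_iff.1 h1
  obtain ⟨h4, h5⟩ := rAnd_iff.1 h3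
  have eo := oInt_unique (T.kx_lt a) h2 (T.ox_lt_optN a) jl.2 jl.1
  rw [eo, T.optA_div] at h4
  have eo1 := oInt_unique (T.kx_lt (T.N a)) h4 (T.ox_lt_optN (T.N a)) jl1.2 jl1.1
  have ek : T.kx (T.I (T.bk a)) = Nat.div (rv (farK (T.kx (T.N a)) (T.ox (T.N a))
      (T.jx (T.N a)))) 24 := by
    rw [T.farK_eq hn, T.rv_div, T.bk_tri hn]
  rw [eo, T.optA_div, eo1, ← T.rot_k a, ← T.rot_o ha, T.optA_div, T.optA_div, T.rv_div,
    ← ek] at h5
  obtain ⟨h6, h7⟩ := rAnd_iff.1 h5
  exact ⟨hh, h6, h7⟩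

end chk

end SMap

end Pool.Agent.Lib.MP_5854e1_co
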