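import Pool.Agent.Lib.MP_5854e1_co.Jnt

/-!
# Shares of the slacks of single regions and triangles, in a map of strips
-/

set_option autoImplicit false

open Equiv Equiv.Perm

namespace Pool.Agent.Lib.MP_5854e1_co

open PB

namespace SMap

variable {F : Type*} (T : SMap F)

section chk

variable {gp gm : ℕ → ℕ → ℕ → ℕ → ℕ → ℕ → ℕ} {D : ℕ → ℕ → ℕ} {sp ps : ℕ → ℕ → ℕ → ℕ}
  {t rt zt tw qt pt : DT}

/-- An entry of `qt`, from the row without its first group. -/
theorem qx_tl (h : DT.all (qjH gp gm sp ps rt zt tw qt) qt = true) {a : F} (ha : T.Tri a)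
    (hn : T.Tri (T.N a)) : T.qx qt a =
      DL.val (DL.tl (T.sgr qt a)) (dkey (T.X trX (T.N (T.N a))) (T.X trX (T.I a)))
        (dkey (T.X trX (T.N (T.I (T.N a)))) (T.X trX (T.I (T.bk a)))) := by
  rw [T.qx_tri ha hn]
  cases hr : T.sgr qt a with
  | nil => rfl
  | g x r l =>
    rw [DL.val_tl (T.qjH_at h ha hn hr).1 (dkey_lt (T.X_lt13 _) (T.X_lt13 _))]
    rfl

/-! ### Reflection -/

theorem relab_qx_ne (h : DT.all (qjH gp gm sp ps rt zt tw qt) qt = true) {a : F}
    (h0 : T.qx qt a ≠ 0) : T.relab.qx qt a = T.qx qt a := by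
  obtain ⟨ha, hn⟩ := T.tri_of_qx h0
  have ha' : T.relab.Tri a := ha
  have hn' : T.relab.Tri (T.relab.N a) := hn
  have e0 := T.qx_tl h ha hn
  have e1 : T.relab.sgr qt a = DT.get qt (T.wk' a) := by
    unfold sgr wk'
    simp only [relab_N]
    rw [T.relab_zr_key ha hn]
  have eb : T.relab.bk a = T.bk a := rfl
  rw [e0] at h0
  rw [e0, T.relab.qx_tri ha' hn', e1]
  simp only [relab_N, relab_I, eb]
  rw [T.relab_X, T.relab_X, T.relab_X, T.relab_X]
  cases hr : T.sgr qt a with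
  | nil =>
    rw [hr] at h0
    exact absurd rfl h0
  | g x r l =>
    rw [hr] at h0
    have h1 := imgS_sound (T.qjH_at h ha hn hr).2.1 (Nat.pos_of_ne_zero h0)
    simp only [dkey_parts (T.X_lt13 (T.I a)), dkey_parts (T.X_lt13 (T.I (T.bk a)))] at h1
    exact h1

/-- **The entries of `qt` of a relabelled map.** -/
theorem relab_qx (h : DT.all (qjH gp gm sp ps rt zt tw qt) qt = true) (a : F) :
    T.relab.qx qt a = T.qx qt a := by
  by_cases h0 : T.qx qt a = 0
  · by_cases h1 : T.relab.qx qt a = 0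
    · rw [h0, h1]
    · have h2 := T.relab.relab_qx_ne h h1
      rw [relab_relab] at h2
      exact h2.symm
  · exact T.relab_qx_ne h h0

/-! ### The regions -/

/-- The key of the window on the other side of the strip. -/
theorem wk_bk {a : F} (hn : T.Tri (T.N a)) : zkey (farK (T.kx (T.N a)) (T.ox (T.N a))
      (T.jx (T.N a))) (rjA (Nat.div (flA (T.kx (T.N a)) (T.ox (T.N a))) 16384)
      (rjA (T.kx (T.N a)) (T.jx (T.N a)))) (T.jx (T.I (T.N a))) = T.wk (T.bk a) := by
  unfold wk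
  rw [T.farK_eq hn, ← T.rot_k (T.N a), ← T.rot_j hn, ← T.rot_j (T.tri_rot hn), N_bk,
    T.bk_tri hn]

/-- The parts of the check of a row of `qt`, in a map. -/
theorem qjR_at (h : DT.all (qjH gp gm sp ps rt zt tw qt) qt = true)
    (hz : DT.all (regH gp gm sp ps rt zt tw) zt = true)
    (hr : DT.all (rtR zt) rt = true) {a : F} (h0 : T.qx qt a ≠ 0) :
    1 ≤ T.qx qt (T.bk a) ∧ (T.wk a ≤ T.wk' a → T.wk a ≤ T.wk (T.bk a) →
      T.qx qt a + T.qx qt (T.bk a) + 6 * (T.win zt a + T.win zt (T.bk a) +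
        T.dl tw (T.I (T.N (T.N a))) + T.dl tw (T.I (T.N (T.I (T.N a)))) +
        (T.gzN gm a + T.gzN gm (T.bk a) + (T.rtot zt a + T.rtot zt (T.bk a)))) ≤
      2 + 6 * (T.gzN gp a + T.gzN gp (T.bk a) + T.pB sp ps (T.I (T.N (T.N a))) +
          T.pB sp ps (T.I (T.N (T.I (T.N a)))) +
          (T.rz zt 1 (T.I (T.N (T.I (T.N a)))) + T.rz zt 2 (T.N a) + T.rz zt 2 (T.I (T.N a)) +
            T.rz zt 1 (T.I (T.N (T.N a)))))) := by
  obtain ⟨ha, hn⟩ := T.tri_of_qx h0
  have ha2 := T.tri_rot ha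
  have ha3 := T.tri_rot ha2
  have hn2 := T.tri_rot hn
  have hn3 := T.tri_rot hn2
  have hb : T.Tri (T.bk a) := (T.tri_bk a).2 hn
  have hb1 : T.Tri (T.N (T.bk a)) := (T.tri_N_bk a).2 ha
  have hbe := T.bk_tri hn
  have e0 := T.qx_tl h ha hn
  rw [e0] at h0
  cases hr0 : T.sgr qt a with
  | nil =>
    rw [hr0] at h0
    exact absurd rfl h0
  | g x r l =>
    have hE := (T.qjH_at h ha hn hr0).2.2
    rw [hr0] at h0 e0
    have h0' : 0 < DL.val l (dkey (T.X trX (T.N (T.N a))) (T.X trX (T.I a)))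
      (dkey (T.X trX (T.N (T.I (T.N a)))) (T.X trX (T.I (T.bk a)))) := Nat.pos_of_ne_zero h0
    have eb : T.qx qt (T.bk a) = DL.val (DL.tl (T.sgr qt (T.bk a)))
        (dkey (T.X trX (T.N (T.I (T.N a)))) (T.X trX (T.I (T.bk a))))
        (dkey (T.X trX (T.N (T.N a))) (T.X trX (T.I a))) := by
      rw [T.qx_tl h hb hb1, N_bk, I_I, bk_bk]
    unfold qjR at hE
    simp only [rForce_eq] at hE
    have hwk := T.wk_bk hn
    rw [T.rot_j ha] at hwk
    rw [hwk] at hE
    have hgb : DT.get qt (T.wk (T.bk a)) = T.sgr qt (T.bk a) := by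
      unfold sgr wk
      rw [T.rs_tri hb, T.rs_tri hb1]
    have hzb : DT.get zt (T.wk (T.bk a)) = T.zr zt (T.bk a) := by
      unfold zr wk
      rw [T.rs_tri hb, T.rs_tri hb1]
    rw [hgb, hzb] at hE
    have hp1 := dkey_parts (x := T.X trX (T.N (T.N a))) (T.X_lt13 (T.I a))
    have hp2 := dkey_parts (x := T.X trX (T.N (T.I (T.N a)))) (T.X_lt13 (T.I (T.bk a)))
    by_cases hfull : T.wk a ≤ T.wk' a ∧ T.wk a ≤ T.wk (T.bk a)
    · rw [Nat.ble_eq_true_of_le hfull.1, rIf_true, Nat.ble_eq_true_of_le hfull.2,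
        rIf_true] at hE
      have h1 := DL.val_of_all hE h0'
      rw [hp1.1, hp1.2] at h1
      rcases DR.val_of_all h1 (dkey (T.X trX (T.N (T.I (T.N a)))) (T.X trX (T.I (T.bk a))))
        with h2 | h2
      · exact absurd h2 (by
          have h3 : DR.val (DL.grp l (dkey (T.X trX (T.N (T.N a))) (T.X trX (T.I a))))
            (dkey (T.X trX (T.N (T.I (T.N a)))) (T.X trX (T.I (T.bk a)))) =
            DL.val l (dkey (T.X trX (T.N (T.N a))) (T.X trX (T.I a)))
              (dkey (T.X trX (T.N (T.I (T.N a)))) (T.X trX (T.I (T.bk a)))) := rfl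
          omega)
      rw [hp2.1, hp2.2, ← eb] at h2
      obtain ⟨h3, h4⟩ := rAnd_iff.1 h2
      have h3 : 1 ≤ T.qx qt (T.bk a) := Nat.le_of_ble_eq_true h3
      have h4 := Nat.le_of_ble_eq_true h4
      refine ⟨h3, fun _ _ => ?_⟩
      rw [← T.rot_k a, ← T.rot_j ha, ← T.rot_o ha, T.farK_eq ha, ← T.rot_k (T.N a),
        ← T.rot_j hn, ← T.rot_o hn, T.farK_eq hn, T.t3A_jx ha, T.t3A_jx hn, ← T.rot_j ha2,
        ← T.rot_j hn2] at h4
      have hbk : T.I (T.N (T.I (T.N (T.N a)))) = T.bk a := hbe.symm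
      have e1 : T.gzN gp a = gp (T.kx a) (T.ox a) (T.jx a) (T.kx (T.N a)) (T.ox (T.N a))
          (T.jx (T.N a)) := by
        unfold gzN
        rw [T.rs_tri ha, T.rs_tri hn]
      have e2 : T.gzN gm a = gm (T.kx a) (T.ox a) (T.jx a) (T.kx (T.N a)) (T.ox (T.N a))
          (T.jx (T.N a)) := by
        unfold gzN
        rw [T.rs_tri ha, T.rs_tri hn]
      have e3 : T.gzN gp (T.bk a) = gp (T.kx (T.bk a)) (T.ox (T.bk a)) (T.jx (T.bk a))
          (T.kx (T.I (T.N a))) (T.ox (T.I (T.N a))) (T.jx (T.I (T.N a))) := by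
        unfold gzN
        rw [T.rs_tri hb, N_bk, T.rs_tri ha2]
      have e4 : T.gzN gm (T.bk a) = gm (T.kx (T.bk a)) (T.ox (T.bk a)) (T.jx (T.bk a))
          (T.kx (T.I (T.N a))) (T.ox (T.I (T.N a))) (T.jx (T.I (T.N a))) := by
        unfold gzN
        rw [T.rs_tri hb, N_bk, T.rs_tri ha2]
      have htot : T.rtot zt a = DR.tot (DL.hd (T.zr zt a)) := T.rtot_tri ha hn
      have htob : T.rtot zt (T.bk a) = DR.tot (DL.hd (T.zr zt (T.bk a))) := T.rtot_tri hb hb1
      rw [hbk, ← e1, ← e2, ← e3, ← e4, ← htot, ← htob] at h4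
      have hwt : ∀ e : F, T.Tri e → T.Tri (T.N e) → T.win zt e =
          DL.val (DL.tl (T.zr zt e)) (T.X trX (T.N (T.N e))) (T.X trX (T.I e)) := by
        intro e he hne
        rw [T.win_tri he hne]
        show DL.val (T.zr zt e) _ _ = _
        cases hrb : T.zr zt e with
        | nil => rfl
        | g x' r' l' =>
          rw [DL.val_tail (T.hdr_at hz hrb) (T.X_lt _)]
          rfl
      have w1 := hwt a ha hn
      have w2 := hwt (T.bk a) hb hb1
      rw [N_bk] at w2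
      have eN : T.N (T.I (T.N (T.N a))) = T.I (T.bk a) := by
        rw [hbe, I_I]
      have eNl : T.N (T.I (T.N (T.I (T.N a)))) = T.I a := T.N_third ha
      have r1 := T.rt_le hr 1 ha3
      have r2 := T.rt_le hr 2 hn
      have r3 := T.rt_le hr 2 ha2
      have r4 := T.rt_le hr 1 hn2
      rw [eNl, T.rs_tri ha3] at r1
      rw [T.rs_tri hn] at r2
      rw [T.rs_tri ha2] at r3
      rw [eN, T.rs_tri hn2] at r4
      have d1 : T.dl tw (T.I (T.N (T.N a))) = DL.val (DT.get tw (dkey (T.kx (T.I (T.N (T.N a))))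
          (T.jx (T.I (T.N (T.N a)))))) (T.X trX (T.N (T.N a))) (T.X trX (T.I (T.bk a))) := by
        unfold dl
        rw [T.rs_tri hn2, I_I, eN]
      have d2 : T.dl tw (T.I (T.N (T.I (T.N a)))) = DL.val (DT.get tw
          (dkey (T.kx (T.I (T.N (T.I (T.N a))))) (T.jx (T.I (T.N (T.I (T.N a)))))))
          (T.X trX (T.N (T.I (T.N a)))) (T.X trX (T.I a)) := by
        unfold dl
        rw [T.rs_tri ha3, I_I, eNl]
      have p1 : T.pB sp ps (T.I (T.N (T.N a))) = psB sp ps (T.kx (T.I (T.N (T.N a))))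
          (T.ox (T.I (T.N (T.N a)))) (T.jx (T.I (T.N (T.N a)))) := by
        unfold pB
        rw [T.rs_tri hn2]
      have p2 : T.pB sp ps (T.I (T.N (T.I (T.N a)))) = psB sp ps (T.kx (T.I (T.N (T.I (T.N a)))))
          (T.ox (T.I (T.N (T.I (T.N a))))) (T.jx (T.I (T.N (T.I (T.N a))))) := by
        unfold pB
        rw [T.rs_tri ha3]
      have e0' : DR.val (DL.grp l (dkey (T.X trX (T.N (T.N a))) (T.X trX (T.I a))))
        (dkey (T.X trX (T.N (T.I (T.N a)))) (T.X trX (T.I (T.bk a)))) = T.qx qt a := e0.symm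
      rw [← w1, ← w2, ← d1, ← d2, ← p1, ← p2, e0'] at h4
      simp only [Nat.add_eq, Nat.mul_eq] at h4
      omega
    · have hf : rIf (Nat.ble (T.wk a) (T.wk' a)) (Nat.ble (T.wk a) (T.wk (T.bk a))) false =
          false := by
        cases h5 : rIf (Nat.ble (T.wk a) (T.wk' a)) (Nat.ble (T.wk a) (T.wk (T.bk a))) false with
        | false => rfl
        | true =>
          exfalso
          apply hfull
          cases h6 : Nat.ble (T.wk a) (T.wk' a) with
          | false =>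
            rw [h6, rIf_false] at h5
            exact absurd h5 Bool.false_ne_true
          | true =>
            rw [h6, rIf_true] at h5
            exact ⟨Nat.le_of_ble_eq_true h6, Nat.le_of_ble_eq_true h5⟩
      rw [hf, rIf_false] at hE
      have h1 := DL.val_of_all hE h0'
      rcases DR.val_of_all h1 (dkey (T.X trX (T.N (T.I (T.N a)))) (T.X trX (T.I (T.bk a))))
        with h2 | h2
      · exact absurd h2 (by
          have h3 : DR.val (DL.grp l (dkey (T.X trX (T.N (T.N a))) (T.X trX (T.I a))))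
            (dkey (T.X trX (T.N (T.I (T.N a)))) (T.X trX (T.I (T.bk a)))) =
            DL.val l (dkey (T.X trX (T.N (T.N a))) (T.X trX (T.I a)))
              (dkey (T.X trX (T.N (T.I (T.N a)))) (T.X trX (T.I (T.bk a)))) := rfl
          omega)
      rw [← eb] at h2
      exact ⟨Nat.le_of_ble_eq_true h2, fun h3 h4 => absurd ⟨h3, h4⟩ hfull⟩

/-- The rows of `pt`. -/
theorem pjC_at (h : ∀ k < 101, ∀ o < optN k, pjO D sp ps t rt pt k o = true) {a : F}
    (ha : T.Tri a) : pjC D sp ps t rt pt (T.kx a) (T.ox a) (T.jx a) = true := by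
  have h1 := h _ (T.kx_lt a) _ (T.ox_lt_optN a)
  unfold pjO at h1
  rw [rForce_eq] at h1
  obtain ⟨h2, -⟩ := T.tri_px ha
  have h3 := rAllN_iff.1 h1 (T.px a) (by
    show T.px a < triOff (T.kx a) (T.ox a + 1) - triOff (T.kx a) (T.ox a)
    rw [← length_tri]
    exact h2)
  exact h3

/-- The entries of `pt` of a triangle. -/
theorem px'_sum (h : ∀ k < 101, ∀ o < optN k, pjO D sp ps t rt pt k o = true)
    (hr : DT.all (rtR zt) rt = true) {a : F} (h0 : T.px' pt a ≠ 0) :
    1 ≤ T.px' pt (T.I (T.N a)) ∧ 1 ≤ T.px' pt (T.I (T.N (T.I (T.N a)))) ∧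
      T.px' pt a + T.px' pt (T.I (T.N a)) + T.px' pt (T.I (T.N (T.I (T.N a)))) +
        6 * (T.dl t a + T.dl t (T.I (T.N a)) + T.dl t (T.I (T.N (T.I (T.N a))))) ≤
      3 + 6 * (T.sbud D sp ps a + T.sbud D sp ps (T.I (T.N a)) +
        T.sbud D sp ps (T.I (T.N (T.I (T.N a)))) +
      (T.rz zt 0 a + T.rz zt 0 (T.I (T.N a)) + T.rz zt 0 (T.I (T.N (T.I (T.N a)))))) ∧
      T.relab.px' pt a = T.px' pt a := by
  have ha : T.Tri a := by
    by_contra h1
    exact h0 (T.px'_big h1)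
  have ha2 := T.tri_rot ha
  have ha3 := T.tri_rot ha2
  have h1 := T.pjC_at h ha
  have e0 := T.px'_tri (pt := pt) ha
  rw [e0, T.rs_tri ha] at h0
  unfold pjC at h1
  cases hrow : DT.get pt (dkey (T.kx a) (T.jx a)) with
  | nil =>
    rw [hrow] at h0
    exact absurd rfl h0
  | g x r l =>
    rw [hrow] at h1
    simp only [rForce_eq] at h1
    rw [← hrow, ← T.rot_k a, ← T.rot_o ha, ← T.rot_j ha, T.farK_eq ha, T.t3A_jx ha,
      ← T.rot_j ha2, T.optA_div, T.optA_div, T.rv_div] at h1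
    obtain ⟨hs, h2⟩ := rAnd_iff.1 h1
    have h0' := Nat.pos_of_ne_zero h0
    have hp1 := dkey_parts (x := T.X trX (T.I a)) (T.X_lt13 (T.N a))
    have h3 := DL.val_of_all h2 h0'
    simp only [hp1.1, hp1.2] at h3
    have eNc : T.N (T.I (T.N (T.I (T.N a)))) = T.I a := T.N_third ha
    rcases DR.val_of_all h3 (T.X trX (T.N (T.I (T.N a)))) with h4 | h4
    · exact absurd h4 (by
        have h5 : DR.val (DL.grp (DT.get pt (dkey (T.kx a) (T.jx a)))
          (dkey (T.X trX (T.I a)) (T.X trX (T.N a)))) (T.X trX (T.N (T.I (T.N a)))) =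
          DL.val (DT.get pt (dkey (T.kx a) (T.jx a)))
            (dkey (T.X trX (T.I a)) (T.X trX (T.N a))) (T.X trX (T.N (T.I (T.N a)))) := rfl
        omega)
    obtain ⟨h5, h6⟩ := rAnd_iff.1 h4
    obtain ⟨h6, h7⟩ := rAnd_iff.1 h6
    have h5 := Nat.le_of_ble_eq_true h5
    have h6 := Nat.le_of_ble_eq_true h6
    have h7 := Nat.le_of_ble_eq_true h7
    have e1 : T.px' pt a = DR.val (DL.grp (DT.get pt (dkey (T.kx a) (T.jx a)))
        (dkey (T.X trX (T.I a)) (T.X trX (T.N a)))) (T.X trX (T.N (T.I (T.N a)))) := by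
      rw [e0, T.rs_tri ha]
      rfl
    have e2 : T.px' pt (T.I (T.N a)) = DL.val (DT.get pt (dkey (T.kx (T.I (T.N a)))
        (T.jx (T.I (T.N a))))) (dkey (T.X trX (T.N a)) (T.X trX (T.N (T.I (T.N a)))))
        (T.X trX (T.I a)) := by
      rw [T.px'_tri ha2, T.rs_tri ha2, T.I_I, eNc]
    have e3 : T.px' pt (T.I (T.N (T.I (T.N a)))) = DL.val (DT.get pt
        (dkey (T.kx (T.I (T.N (T.I (T.N a))))) (T.jx (T.I (T.N (T.I (T.N a)))))))
        (dkey (T.X trX (T.N (T.I (T.N a)))) (T.X trX (T.I a))) (T.X trX (T.N a)) := by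
      rw [T.px'_tri ha3, T.rs_tri ha3, T.I_I, eNc, I_I]
    rw [← e2] at h5
    rw [← e3] at h6
    rw [← e1, ← e2, ← e3] at h7
    have r1 := T.rt_le hr 0 ha
    have r2 := T.rt_le hr 0 ha2
    have r3 := T.rt_le hr 0 ha3
    rw [eNc] at r3
    rw [T.rs_tri ha] at r1
    rw [T.rs_tri ha2] at r2
    rw [T.rs_tri ha3] at r3
    have d1 : T.dl t a = DL.val (DT.get t (dkey (T.kx a) (T.jx a))) (T.X trX (T.I a))
        (T.X trX (T.N a)) := by
      unfold dl
      rw [T.rs_tri ha]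
    have d2 : T.dl t (T.I (T.N a)) = DL.val (DT.get t (dkey (T.kx (T.I (T.N a)))
        (T.jx (T.I (T.N a))))) (T.X trX (T.N a)) (T.X trX (T.N (T.I (T.N a)))) := by
      unfold dl
      rw [T.rs_tri ha2, T.I_I]
    have d3 : T.dl t (T.I (T.N (T.I (T.N a)))) = DL.val (DT.get t
        (dkey (T.kx (T.I (T.N (T.I (T.N a))))) (T.jx (T.I (T.N (T.I (T.N a)))))))
        (T.X trX (T.N (T.I (T.N a)))) (T.X trX (T.I a)) := by
      unfold dl
      rw [T.rs_tri ha3, T.I_I, eNc]
    rw [← d1, ← d2, ← d3] at h7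
    refine ⟨h5, h6, ?_, ?_⟩
    · unfold sbud
      rw [T.rs_tri ha, T.rs_tri ha2, T.rs_tri ha3]
      simp only [Nat.add_eq, Nat.mul_eq] at h7
      omega
    · have h8 := imgS_sound hs h0'
      rw [hp1.1, hp1.2] at h8
      have ha' : T.relab.Tri a := ha
      rw [T.relab.px'_tri ha', e0]
      simp only [relab_N, relab_I]
      rw [T.relab.rs_tri ha', T.relab_kx, T.relab_jx ha, T.relab_X, T.relab_X, T.relab_X,
        T.rs_tri ha, ← h8]

/-- **The entries of `pt` of a relabelled map.** -/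
theorem relab_px' (h : ∀ k < 101, ∀ o < optN k, pjO D sp ps t rt pt k o = true)
    (hr : DT.all (rtR zt) rt = true) (a : F) : T.relab.px' pt a = T.px' pt a := by
  by_cases h0 : T.px' pt a = 0
  · by_cases h1 : T.relab.px' pt a = 0
    · rw [h0, h1]
    · have h2 := (T.relab.px'_sum h hr h1).2.2.2
      rw [relab_relab] at h2
      exact h2.symm
  · exact (T.px'_sum h hr h0).2.2.2

end chk

end SMap

end Pool.Agent.Lib.MP_5854e1_co
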