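import Pool.Agent.Lib.MP_5854e1_co.JntMap

/-!
# The shares with the tables of single regions and triangles
-/

set_option autoImplicit false

open Equiv Equiv.Perm

namespace Pool.Agent.Lib.MP_5854e1_co

open Finset PB

universe u

/-- The checks of the tables with the tables `qt` and `pt` of the shares of single regions and
triangles. -/
structure Tabs.OKJ (c : Tabs) (qt pt : DT) : Prop extends c.OKR where
  qc : DT.all (qjH c.gp c.gm c.sp c.ps c.rt c.zt c.tw qt) qt = true
  pc : ∀ k < 101, ∀ o < optN k, pjO c.D c.sp c.ps c.t c.rt pt k o = true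

namespace SMap

variable {F : Type*} (T : SMap F) {c : Tabs} {qt pt : DT}

/-- The share of the window at the strip `N d` in six times the slack of its region. -/
noncomputable def QJ (c : Tabs) (qt : DT) (d : F) : ℤ :=
  if T.qx qt d = 0 then T.wR c d * T.slR c d else (T.qx qt d : ℤ) - 1

/-- The share of the corner after `a` in six times the slack of its triangle. -/
noncomputable def PJ (c : Tabs) (pt : DT) (a : F) : ℤ :=
  if T.px' pt a = 0 then T.wT c a * T.slT c a else (T.px' pt a : ℤ) - 1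

section

variable (h : c.OKJ qt pt) (hM : ∀ T : SMap F, c.MapR T)

include h hM

theorem QJ_nonneg (d : F) : 0 ≤ T.QJ c qt d := by
  unfold QJ
  split_ifs with h0
  · exact mul_nonneg (Int.natCast_nonneg _) (T.slR_nonneg h.toOKR hM d)
  · omega

theorem PJ_nonneg (a : F) : 0 ≤ T.PJ c pt a := by
  unfold PJ
  split_ifs with h0
  · exact mul_nonneg (Int.natCast_nonneg _) (T.slT_nonneg h.toOKR hM a)
  · omega

omit h hM in
theorem PJ_big {a : F} (ha : ¬T.Tri a) : T.PJ c pt a = 0 := by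
  unfold PJ
  rw [if_pos (T.px'_big ha), T.slT_big ha, mul_zero]

theorem relab_QJ (d : F) : T.relab.QJ c qt d = T.QJ c qt d := by
  unfold QJ
  rw [T.relab_qx h.qc, T.relab_wR h.toOKB hM, T.relab_slR h.toOKB hM]

theorem relab_PJ (a : F) : T.relab.PJ c pt a = T.PJ c pt a := by
  unfold PJ
  rw [T.relab_px' h.pc h.rsv, T.relab_wT h.toOKB hM, T.relab_slT h.toOKB hM]

/-- The sum of the two shares of a listed region, for the smallest key. -/
theorem qx_sum_key {d : F} (h0 : T.qx qt d ≠ 0) (h1 : T.wk d ≤ T.wk' d)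
    (h2 : T.wk d ≤ T.wk (T.bk d)) :
    (T.qx qt d : ℤ) + T.qx qt (T.bk d) ≤ 2 + 6 * T.slR c d := by
  obtain ⟨ha, hn⟩ := T.tri_of_qx h0
  have h3 := (T.qjR_at h.qc h.reg h.rsv h0).2 h1 h2
  have h4 := (hM T).hG d ha hn
  have h5 := (hM T).hG (T.bk d) ((T.tri_bk d).2 hn) ((T.tri_N_bk d).2 ha)
  have e1 : T.Pt c (T.I (T.N (T.N d))) - T.PA c (T.I (T.N (T.N d))) =
      T.pB c.sp c.ps (T.I (T.N (T.N d))) := T.Pt_sub_PA (T.tri_rot hn)
  have e2 : T.Pt c (T.I (T.N (T.I (T.N d)))) - T.PA c (T.I (T.N (T.I (T.N d)))) =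
      T.pB c.sp c.ps (T.I (T.N (T.I (T.N d)))) := T.Pt_sub_PA (T.tri_rot (T.tri_rot ha))
  unfold slR regL
  rw [T.dlw_tri c (T.tri_rot hn), T.dlw_tri c (T.tri_rot (T.tri_rot ha)), e1, e2]
  push_cast at h3 ⊢
  zify at h3
  linarith

omit h hM in
theorem relab_wk {d : F} (ha : T.Tri d) (hn : T.Tri (T.N d)) : T.relab.wk d = T.wk' d ∧
    T.relab.wk' d = T.wk d := by
  unfold wk wk'
  simp only [relab_N]
  rw [T.relab_kx_kx, T.relab_jx_jx ha, T.relab_jx_jx hn, T.relab_jx ha, T.relab_jx hn,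
    T.relab_kx]
  exact ⟨rfl, rfl⟩

/-- **The sum of the two shares of a listed region.** -/
theorem qx_sum {d : F} (h0 : T.qx qt d ≠ 0) :
    (T.qx qt d : ℤ) + T.qx qt (T.bk d) ≤ 2 + 6 * T.slR c d := by
  obtain ⟨ha, hn⟩ := T.tri_of_qx h0
  have hb : T.Tri (T.bk d) := (T.tri_bk d).2 hn
  have hb1 : T.Tri (T.N (T.bk d)) := (T.tri_N_bk d).2 ha
  have h1 : T.qx qt (T.bk d) ≠ 0 := by
    have := (T.qjR_at h.qc h.reg h.rsv h0).1
    omega
  obtain ⟨e1, e2⟩ := T.relab_wk ha hn
  obtain ⟨e3, e4⟩ := T.relab_wk hb hb1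
  have eb : T.relab.bk d = T.bk d := rfl
  have ebb : T.relab.bk (T.bk d) = d := T.bk_bk d
  have r0 := T.relab_qx h.qc d
  have r1 := T.relab_qx h.qc (T.bk d)
  have r2 := T.relab_slR h.toOKB hM d
  have r3 := T.relab_slR h.toOKB hM (T.bk d)
  rcases le_total (T.wk d) (T.wk' d) with g1 | g1
  · rcases le_total (T.wk (T.bk d)) (T.wk' (T.bk d)) with g2 | g2
    · rcases le_total (T.wk d) (T.wk (T.bk d)) with g3 | g3
      · exact T.qx_sum_key h hM h0 g1 g3
      · have g4 := T.qx_sum_key h hM h1 g2 (by rw [bk_bk]; exact g3)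
        rw [bk_bk, T.slR_bk] at g4
        linarith
    · rcases le_total (T.wk d) (T.wk' (T.bk d)) with g3 | g3
      · exact T.qx_sum_key h hM h0 g1 (g3.trans g2)
      · have g4 := T.relab.qx_sum_key (qt := qt) h hM (d := T.bk d) (by rw [r1]; exact h1)
          (by rw [e3, e4]; exact g2) (by rw [ebb, e3, e1]; exact g3.trans g1)
        rw [ebb, r0, r1, r3, T.slR_bk] at g4
        linarith
  · rcases le_total (T.wk (T.bk d)) (T.wk' (T.bk d)) with g2 | g2
    · rcases le_total (T.wk' d) (T.wk (T.bk d)) with g3 | g3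
      · have g4 := T.relab.qx_sum_key (qt := qt) h hM (d := d) (by rw [r0]; exact h0)
          (by rw [e1, e2]; exact g1) (by rw [eb, e1, e3]; exact g3.trans g2)
        rw [eb, r0, r1, r2] at g4
        linarith
      · have g4 := T.qx_sum_key h hM h1 g2 (by rw [bk_bk]; exact g3.trans g1)
        rw [bk_bk, T.slR_bk] at g4
        linarith
    · rcases le_total (T.wk' d) (T.wk' (T.bk d)) with g3 | g3
      · have g4 := T.relab.qx_sum_key (qt := qt) h hM (d := d) (by rw [r0]; exact h0)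
          (by rw [e1, e2]; exact g1) (by rw [eb, e1, e3]; exact g3)
        rw [eb, r0, r1, r2] at g4
        linarith
      · have g4 := T.relab.qx_sum_key (qt := qt) h hM (d := T.bk d) (by rw [r1]; exact h1)
          (by rw [e3, e4]; exact g2) (by rw [ebb, e3, e1]; exact g3)
        rw [ebb, r0, r1, r3, T.slR_bk] at g4
        linarith

theorem QJ_sum (d : F) : T.QJ c qt d + T.QJ c qt (T.bk d) ≤ 6 * T.slR c d := by
  unfold QJ
  by_cases h0 : T.qx qt d = 0
  · have h1 : T.qx qt (T.bk d) = 0 := by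
      by_contra h2
      have h3 := (T.qjR_at h.qc h.reg h.rsv h2).1
      rw [bk_bk] at h3
      omega
    rw [if_pos h0, if_pos h1, T.slR_bk, ← add_mul]
    refine mul_le_mul_of_nonneg_right ?_ (T.slR_nonneg h.toOKR hM d)
    exact_mod_cast T.wR_sum d
  · have h1 : T.qx qt (T.bk d) ≠ 0 := by
      have := (T.qjR_at h.qc h.reg h.rsv h0).1
      omega
    rw [if_neg h0, if_neg h1]
    have := T.qx_sum h hM h0
    linarith

theorem PJ_sum {a : F} (ha : T.Tri a) : T.PJ c pt a + T.PJ c pt (T.I (T.N a)) +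
    T.PJ c pt (T.I (T.N (T.I (T.N a)))) ≤ 6 * T.slT c a := by
  have ha2 := T.tri_rot ha
  have ha3 := T.tri_rot ha2
  have e3 := T.rot_three ha
  unfold PJ
  by_cases h0 : T.px' pt a = 0
  · have h1 : T.px' pt (T.I (T.N a)) = 0 := by
      by_contra h2
      have h3 := (T.px'_sum h.pc h.rsv h2).2.1
      rw [e3] at h3
      omega
    have h2 : T.px' pt (T.I (T.N (T.I (T.N a)))) = 0 := by
      by_contra h2
      have h3 := (T.px'_sum h.pc h.rsv h2).1
      rw [e3] at h3
      omega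
    rw [if_pos h0, if_pos h1, if_pos h2, T.slT_rot ha2, T.slT_rot ha, ← add_mul, ← add_mul]
    refine mul_le_mul_of_nonneg_right ?_ (T.slT_nonneg h.toOKR hM a)
    exact_mod_cast T.wT_sum ha
  · obtain ⟨h1, h2, h3, -⟩ := T.px'_sum h.pc h.rsv h0
    rw [if_neg h0, if_neg (by omega), if_neg (by omega), T.slT_tri ha]
    push_cast
    zify at h3
    linarith

end

end SMap

open SMap in
/-- **The shares of the slacks with the tables of single regions and triangles.** -/
theorem Tabs.share_joint {c : Tabs} {qt pt : DT} {F : Type u} (h : c.OKJ qt pt)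
    (hM : ∀ T : SMap F, c.MapR T) :
    c.Share (F := F) (fun _ _ => 0) (fun T a => T.PJ c pt a) (fun T d => T.QJ c qt d) where
  s0 _ _ _ := rfl
  P0 T a := T.PJ_nonneg h hM a
  Pb T _ ha := T.PJ_big ha
  P3 T a ha := by
    have := T.PJ_sum h hM ha
    linarith
  Pr T a := T.relab_PJ h hM a
  Q0 T d := T.QJ_nonneg h hM d
  Q2 T d := by
    have := T.QJ_sum h hM d
    linarith
  Qr T d := T.relab_QJ h hM d

end Pool.Agent.Lib.MP_5854e1_co
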