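import Pool.Agent.Lib.MP_5854e1_co.Excluded
import Pool.Agent.Lib.MP_5854e1_co.Cz.Main

/-!
# `K_{1,2,2,2}` has no finite planar cover
-/

set_option autoImplicit false

namespace Pool.Agent.Lib.MP_5854e1_co

theorem K1222_noPlanarCover : ¬ HasPlanarCover K1222 :=
  K1222_noCover_of fun n H φ hn hφ => by
    have : Nonempty (Fin n) := ⟨⟨0, hn⟩⟩
    exact Cz.no_cover hφ

end Pool.Agent.Lib.MP_5854e1_co
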