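import Pool.Agent.Lib.MP_5854e1_co.K7Map

/-!
# From planar covers of `K_7 - C_4` to the contracted map
-/

set_option autoImplicit false

open Equiv Equiv.Perm

namespace Pool.Agent.Lib.MP_5854e1_co

namespace K7

variable {W : Type*} {H : SimpleGraph W} {φ : W → Fin 7}

/-- The dart is over `34` or `56`. -/
def Int (φ : W → Fin 7) (d : H.Dart) : Prop := 3 ≤ (φ d.fst).val ∧ 3 ≤ (φ d.snd).val

/-- The darts which are not over `34` or `56`. -/
abbrev Ext (H : SimpleGraph W) (φ : W → Fin 7) : Type _ := {d : H.Dart // ¬ Int φ d}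

theorem int_flip {d : H.Dart} : Int φ (flip H d) ↔ Int φ d := and_comm

/-- The reversal. -/
def extInv (H : SimpleGraph W) (φ : W → Fin 7) : Perm (Ext H φ) where
  toFun d := ⟨flip H d.1, fun h => d.2 (int_flip.1 h)⟩
  invFun d := ⟨flip H d.1, fun h => d.2 (int_flip.1 h)⟩
  left_inv d := Subtype.ext d.1.symm_symm
  right_inv d := Subtype.ext d.1.symm_symm

variable (hφ : IsCover H K7C4 φ) (rot : Perm H.Dart)
  (hrot : ∀ x y, rot.SameCycle x y ↔ x.fst = y.fst)

include hφ in
theorem int_snd {x : H.Dart} (hx : Int φ x) : φ x.snd = mate (φ x.fst) := by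
  have h := hφ.adj x.adj
  have : ∀ u v : Fin 7, K7C4.Adj u v → 3 ≤ u.val → 3 ≤ v.val → v = mate u := by decide
  exact this _ _ h hx.1 hx.2

include hφ in
theorem int_unique {x y : H.Dart} (h : x.fst = y.fst) (hx : Int φ x) (hy : Int φ y) : x = y := by
  refine hφ.dart_inj h ?_
  exact SimpleGraph.Dart.ext _ _ (Prod.ext (congrArg φ h)
    (by show φ x.snd = φ y.snd; rw [int_snd hφ hx, int_snd hφ hy, h]))

theorem card_darts (u : Fin 7) :
    Nat.card {e : K7C4.Dart // e.fst = u} = if u.val < 3 then 6 else 4 := by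
  have h : Nat.card {e : K7C4.Dart // e.fst = u} = Nat.card {v : Fin 7 // K7C4.Adj u v} := by
    refine Nat.card_congr ⟨fun e => ⟨e.1.snd, by have := e.1.adj; rw [e.2] at this; exact this⟩,
      fun v => ⟨⟨(u, v.1), v.2⟩, rfl⟩, ?_, ?_⟩
    · rintro ⟨⟨⟨a, b⟩, hab⟩, h⟩
      subst h
      rfl
    · rintro ⟨v, hv⟩
      rfl
  rw [h, Nat.card_eq_fintype_card]
  clear h
  revert u
  decide

include hφ hrot in
theorem period_eq [Finite W] (x : H.Dart) :
    Function.minimalPeriod rot x = Nat.card {e : K7C4.Dart // e.fst = φ x.fst} := by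
  set p := Function.minimalPeriod rot x
  rw [← Nat.card_fin p]
  refine Nat.card_congr (Equiv.ofBijective (fun i : Fin p =>
    (⟨hφ.dart (rot^[i.1] x), by
      show φ (rot^[i.1] x).fst = _
      rw [iterate_fst rot hrot]⟩ : {e : K7C4.Dart // e.fst = φ x.fst})) ⟨?_, ?_⟩)
  · intro i j h
    have h1 := congrArg Subtype.val h
    have h2 : rot^[i.1] x = rot^[j.1] x := hφ.dart_inj
      (by rw [iterate_fst rot hrot, iterate_fst rot hrot]) h1
    exact Fin.ext (Function.iterate_injOn_Iio_minimalPeriod i.2 j.2 h2)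
  · rintro ⟨e, he⟩
    obtain ⟨y, hy1, hy2⟩ := hφ.dart_surj x.fst e he
    obtain ⟨i, hi, hix⟩ := exists_iterate rot hrot hy1
    exact ⟨⟨i, hi⟩, Subtype.ext (by show hφ.dart (rot^[i] x) = e; rw [hix, hy2])⟩

include hφ hrot in
theorem period_tri [Finite W] {x : H.Dart} (h : (φ x.fst).val < 3) :
    Function.minimalPeriod rot x = 6 := by
  rw [period_eq hφ rot hrot, card_darts, if_pos h]

include hφ hrot in
theorem period_blob [Finite W] {x : H.Dart} (h : 3 ≤ (φ x.fst).val) :
    Function.minimalPeriod rot x = 4 := by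
  rw [period_eq hφ rot hrot, card_darts, if_neg (by omega)]

include hφ hrot in
/-- The dart after a contracted dart is not contracted. -/
theorem rot_int [Finite W] {x : H.Dart} (hx : Int φ x) {k : ℕ} (hk : k < 3) :
    ¬ Int φ (rot^[k + 1] x) := by
  intro h
  have h1 : rot^[k + 1] x = rot^[0] x :=
    int_unique hφ (by rw [iterate_fst rot hrot, iterate_fst rot hrot]) h hx
  have := iter_ne rot (by rw [period_blob hφ rot hrot hx.1]; omega)
    (by rw [period_blob hφ rot hrot hx.1]; omega) h1
  omega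

include hφ hrot in
theorem rot_inv_int [Finite W] {x : H.Dart} (hx : Int φ x) : ¬ Int φ (rot⁻¹ x) := by
  intro h
  have h1 : rot⁻¹ x = x := int_unique hφ (rot_inv_fst rot hrot x) h hx
  have h2 : rot x = x := by
    conv_lhs => rw [← h1]
    simp
  exact rot_int hφ rot hrot hx (k := 0) (by omega) (by
    show Int φ (rot x)
    rw [h2]
    exact hx)

/-- The next dart on the contour. -/
noncomputable def nxtFun (rot : Perm H.Dart) (φ : W → Fin 7) (d : H.Dart) : H.Dart := by
  classical
  exact if Int φ (rot d) then rot (flip H (rot d)) else rot d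

/-- The previous dart on the contour. -/
noncomputable def prvFun (rot : Perm H.Dart) (φ : W → Fin 7) (d : H.Dart) : H.Dart := by
  classical
  exact if Int φ (rot⁻¹ d) then rot⁻¹ (flip H (rot⁻¹ d)) else rot⁻¹ d

include hφ hrot in
theorem nxtFun_ext [Finite W] (d : H.Dart) : ¬ Int φ (nxtFun rot φ d) := by
  unfold nxtFun
  split_ifs with h
  · exact rot_int hφ rot hrot (int_flip.2 h) (k := 0) (by omega)
  · exact h

include hφ hrot in
theorem prvFun_ext [Finite W] (d : H.Dart) : ¬ Int φ (prvFun rot φ d) := by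
  unfold prvFun
  split_ifs with h
  · exact rot_inv_int hφ rot hrot (int_flip.2 h)
  · exact h

theorem prv_nxt {d : H.Dart} (hd : ¬ Int φ d) : prvFun rot φ (nxtFun rot φ d) = d := by
  by_cases h : Int φ (rot d)
  · have e1 : nxtFun rot φ d = rot (flip H (rot d)) := by unfold nxtFun; rw [if_pos h]
    have e2 : rot⁻¹ (nxtFun rot φ d) = flip H (rot d) := by rw [e1]; simp
    unfold prvFun
    rw [if_pos (by rw [e2]; exact int_flip.2 h), e2, flip_flip']
    simp
  · have e1 : nxtFun rot φ d = rot d := by unfold nxtFun; rw [if_neg h]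
    have e2 : rot⁻¹ (nxtFun rot φ d) = d := by rw [e1]; simp
    unfold prvFun
    rw [if_neg (by rw [e2]; exact hd), e2]

theorem nxt_prv {d : H.Dart} (hd : ¬ Int φ d) : nxtFun rot φ (prvFun rot φ d) = d := by
  by_cases h : Int φ (rot⁻¹ d)
  · have e1 : prvFun rot φ d = rot⁻¹ (flip H (rot⁻¹ d)) := by unfold prvFun; rw [if_pos h]
    have e2 : rot (prvFun rot φ d) = flip H (rot⁻¹ d) := by rw [e1]; simp
    unfold nxtFun
    rw [if_pos (by rw [e2]; exact int_flip.2 h), e2, flip_flip']
    simp
  · have e1 : prvFun rot φ d = rot⁻¹ d := by unfold prvFun; rw [if_neg h]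
    have e2 : rot (prvFun rot φ d) = d := by rw [e1]; simp
    unfold nxtFun
    rw [if_neg (by rw [e2]; exact hd), e2]

/-- The rotation of the contracted map. -/
noncomputable def nxt [Finite W] (hφ : IsCover H K7C4 φ) (rot : Perm H.Dart)
    (hrot : ∀ x y, rot.SameCycle x y ↔ x.fst = y.fst) : Perm (Ext H φ) where
  toFun d := ⟨nxtFun rot φ d.1, nxtFun_ext hφ rot hrot d.1⟩
  invFun d := ⟨prvFun rot φ d.1, prvFun_ext hφ rot hrot d.1⟩
  left_inv d := Subtype.ext (prv_nxt rot d.2)
  right_inv d := Subtype.ext (nxt_prv rot d.2)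

variable [Finite W]

theorem nxt_coe (d : Ext H φ) : (nxt hφ rot hrot d).1 = nxtFun rot φ d.1 := rfl

theorem iterate_nxt_tri (d : Ext H φ) (hd : (φ d.1.fst).val < 3) (i : ℕ) :
    ((nxt hφ rot hrot)^[i] d).1 = rot^[i] d.1 := by
  induction i with
  | zero => rfl
  | succ i ih =>
    rw [Function.iterate_succ_apply', Function.iterate_succ_apply', nxt_coe, ih]
    unfold nxtFun
    rw [if_neg]
    intro h
    have := h.1
    rw [rot_fst rot hrot, iterate_fst rot hrot] at this
    omega

theorem iterate_nxt_int (x : H.Dart) (hx : Int φ x) (s : Ext H φ) (hs : s.1 = rot x) (i : ℕ)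
    (hi : i < 3) : ((nxt hφ rot hrot)^[i] s).1 = rot^[i + 1] x := by
  induction i with
  | zero => exact hs
  | succ i ih =>
    rw [Function.iterate_succ_apply', Function.iterate_succ_apply' rot, nxt_coe, ih (by omega)]
    unfold nxtFun
    rw [if_neg]
    have := rot_int hφ rot hrot hx hi
    rwa [Function.iterate_succ_apply'] at this

theorem iterate_nxt_three (x : H.Dart) (hx : Int φ x) (s : Ext H φ) (hs : s.1 = rot x) :
    ((nxt hφ rot hrot)^[3] s).1 = rot (flip H x) := by
  have h0 : Int φ (rot (rot^[2 + 1] x)) := by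
    have h4 : rot^[4] x = x := by
      have := Function.isPeriodicPt_minimalPeriod rot x
      rw [period_blob hφ rot hrot hx.1] at this
      exact this
    rw [← Function.iterate_succ_apply' rot, h4]
    exact hx
  have h4 : rot (rot^[2 + 1] x) = x := by
    rw [← Function.iterate_succ_apply' rot]
    have := Function.isPeriodicPt_minimalPeriod rot x
    rw [period_blob hφ rot hrot hx.1] at this
    exact this
  rw [Function.iterate_succ_apply', nxt_coe, iterate_nxt_int hφ rot hrot x hx s hs 2 (by omega)]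
  unfold nxtFun
  rw [if_pos h0, h4]

theorem iterate_nxt_six (d : Ext H φ) : (nxt hφ rot hrot)^[6] d = d := by
  by_cases hd : (φ d.1.fst).val < 3
  · apply Subtype.ext
    rw [iterate_nxt_tri hφ rot hrot d hd]
    have := Function.isPeriodicPt_minimalPeriod rot d.1
    rw [period_tri hφ rot hrot hd] at this
    exact this
  · -- the contracted dart at the vertex of `d`
    have hex : ∀ u : Fin 7, 3 ≤ u.val → K7C4.Adj u (mate u) ∧ 3 ≤ (mate u).val := by decide
    obtain ⟨h1, h2⟩ := hex (φ d.1.fst) (by omega)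
    obtain ⟨x, hx1, hx2⟩ := hφ.dart_surj d.1.fst ⟨(φ d.1.fst, mate (φ d.1.fst)), h1⟩ rfl
    have hx3 : φ x.snd = mate (φ d.1.fst) := congrArg (fun e : K7C4.Dart => e.snd) hx2
    have hx : Int φ x := ⟨by rw [hx1]; omega, by rw [hx3]; exact h2⟩
    obtain ⟨k, hk, hkx⟩ := exists_iterate rot hrot (x := x) (y := d.1) hx1.symm
    rw [period_blob hφ rot hrot hx.1] at hk
    have hk0 : k ≠ 0 := by
      rintro rfl
      have : x = d.1 := hkx
      exact d.2 (by rw [← this]; exact hx)
    obtain ⟨k, rfl⟩ := Nat.exists_eq_succ_of_ne_zero hk0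
    have hs0 : ¬ Int φ (rot x) := rot_int hφ rot hrot hx (k := 0) (by omega)
    have hs1 : ¬ Int φ (rot (flip H x)) :=
      rot_int hφ rot hrot (int_flip.2 hx) (k := 0) (by omega)
    set s : Ext H φ := ⟨rot x, hs0⟩ with hs
    have e3 : (nxt hφ rot hrot)^[3] s = ⟨rot (flip H x), hs1⟩ :=
      Subtype.ext (iterate_nxt_three hφ rot hrot x hx s rfl)
    have e6 : (nxt hφ rot hrot)^[6] s = s := by
      rw [show (6 : ℕ) = 3 + 3 by norm_num, Function.iterate_add_apply, e3]
      apply Subtype.ext
      rw [iterate_nxt_three hφ rot hrot (flip H x) (int_flip.2 hx) _ rfl, flip_flip']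
    have ed : (nxt hφ rot hrot)^[k] s = d :=
      Subtype.ext (by rw [iterate_nxt_int hφ rot hrot x hx s rfl k (by omega)]; exact hkx)
    rw [← ed, ← Function.iterate_add_apply, add_comm, Function.iterate_add_apply, e6]

/-- The contracted map of a cover. -/
noncomputable def map (hφ : IsCover H K7C4 φ) (rot : Perm H.Dart)
    (hrot : ∀ x y, rot.SameCycle x y ↔ x.fst = y.fst) : Map30 (Ext H φ) where
  nxt := nxt hφ rot hrot
  inv := extInv H φ
  lab d := lab φ d.1
  inv_inv d := Subtype.ext d.1.symm_symm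
  lab_inv _ := rfl
  six d := iterate_nxt_six hφ rot hrot d
  tri d hd := by
    have hd' : (φ d.1.fst).val < 3 := hd
    refine ⟨φ d.1.fst, fun i => φ (rot^[i] d.1).snd, hd, ?_, ?_, ?_⟩
    · intro i _ h
      have h0 := hφ.adj (rot^[i] d.1).adj
      have h1 : φ (rot^[i] d.1).snd = φ d.1.fst := h
      rw [h1, iterate_fst rot hrot] at h0
      exact h0.ne rfl
    · intro i hi j hj h
      refine iter_ne rot (x := d.1) (by rw [period_tri hφ rot hrot hd']; exact hi)
        (by rw [period_tri hφ rot hrot hd']; exact hj) ?_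
      refine hφ.dart_inj (by rw [iterate_fst rot hrot, iterate_fst rot hrot]) ?_
      refine SimpleGraph.Dart.ext _ _ (Prod.ext ?_ h)
      show φ (rot^[i] d.1).fst = φ (rot^[j] d.1).fst
      rw [iterate_fst rot hrot, iterate_fst rot hrot]
    · intro i _
      show lab φ ((nxt hφ rot hrot)^[i] d).1 = _
      rw [iterate_nxt_tri hφ rot hrot d hd']
      show (φ (rot^[i] d.1).fst, _) = _
      rw [iterate_fst rot hrot]
  blob d hd := by
    have hd' : 3 ≤ (φ d.1.fst).val := hd
    have hex : ∀ u : Fin 7, 3 ≤ u.val → K7C4.Adj u (mate u) ∧ 3 ≤ (mate u).val := by decide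
    obtain ⟨h1, h2⟩ := hex (φ d.1.fst) hd'
    obtain ⟨x, hx1, hx2⟩ := hφ.dart_surj d.1.fst ⟨(φ d.1.fst, mate (φ d.1.fst)), h1⟩ rfl
    have hx3 : φ x.snd = mate (φ d.1.fst) := congrArg (fun e : K7C4.Dart => e.snd) hx2
    have hx : Int φ x := ⟨by rw [hx1]; exact hd', by rw [hx3]; exact h2⟩
    obtain ⟨k, hk, hkx⟩ := exists_iterate rot hrot (x := x) (y := d.1) hx1.symm
    rw [period_blob hφ rot hrot hx.1] at hk
    have hk0 : k ≠ 0 := by
      rintro rfl
      have : x = d.1 := hkx
      exact d.2 (by rw [← this]; exact hx)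
    obtain ⟨k, rfl⟩ := Nat.exists_eq_succ_of_ne_zero hk0
    have hs0 : ¬ Int φ (rot x) := rot_int hφ rot hrot hx (k := 0) (by omega)
    have hs1 : ¬ Int φ (rot (flip H x)) :=
      rot_int hφ rot hrot (int_flip.2 hx) (k := 0) (by omega)
    have e3 : (nxt hφ rot hrot)^[3] (⟨rot x, hs0⟩ : Ext H φ) = ⟨rot (flip H x), hs1⟩ :=
      Subtype.ext (iterate_nxt_three hφ rot hrot x hx _ rfl)
    have key : ∀ y : H.Dart, Int φ y → (∀ i < 3, (φ (rot^[i + 1] y).snd).val < 3) ∧
        (∀ i < 3, ∀ j < 3, φ (rot^[i + 1] y).snd = φ (rot^[j + 1] y).snd → i = j) := by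
      intro y hy
      refine ⟨fun i hi => ?_, fun i hi j hj h => ?_⟩
      · have := rot_int hφ rot hrot hy hi
        unfold Int at this
        rw [iterate_fst rot hrot] at this
        have := hy.1
        omega
      · have h4 := period_blob hφ rot hrot hy.1
        have : i + 1 = j + 1 := by
          refine iter_ne rot (x := y) (by rw [h4]; omega) (by rw [h4]; omega) ?_
          refine hφ.dart_inj (by rw [iterate_fst rot hrot, iterate_fst rot hrot]) ?_
          refine SimpleGraph.Dart.ext _ _ (Prod.ext ?_ h)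
          show φ (rot^[i + 1] y).fst = φ (rot^[j + 1] y).fst
          rw [iterate_fst rot hrot, iterate_fst rot hrot]
        omega
    have k1 := key x hx
    have k2 := key (flip H x) (int_flip.2 hx)
    refine ⟨⟨rot x, hs0⟩, k, by omega, Subtype.ext (by
      rw [iterate_nxt_int hφ rot hrot x hx _ rfl k (by omega)]; exact hkx),
      φ x.fst, fun i => φ (rot^[i + 1] x).snd, fun i => φ (rot^[i + 1] (flip H x)).snd,
      hx.1, k1.1, k2.1, k1.2, k2.2, ?_, ?_⟩
    · intro i hi
      show lab φ ((nxt hφ rot hrot)^[i] _).1 = _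
      rw [iterate_nxt_int hφ rot hrot x hx _ rfl i hi]
      show (φ (rot^[i + 1] x).fst, _) = _
      rw [iterate_fst rot hrot]
    · intro i hi
      show lab φ ((nxt hφ rot hrot)^[3 + i] _).1 = _
      rw [add_comm, Function.iterate_add_apply, e3,
        iterate_nxt_int hφ rot hrot (flip H x) (int_flip.2 hx) _ rfl i hi]
      show (φ (rot^[i + 1] (flip H x)).fst, _) = _
      rw [iterate_fst rot hrot]
      show (φ x.snd, _) = _
      rw [int_snd hφ hx]

/-! ### Counting -/

theorem fib_const (hφ : IsCover H K7C4 φ) (u : Fin 7) : fib φ u = fib φ 0 := by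
  by_cases h : u = 0
  · rw [h]
  · have : K7C4.Adj u 0 := by revert u; decide
    exact fib_eq_of_adj hφ this

theorem card_eq_seven (hφ : IsCover H K7C4 φ) : Nat.card W = 7 * fib φ 0 := by
  classical
  have := Fintype.ofFinite W
  have h1 : Fintype.card W = ∑ u : Fin 7, (Finset.univ.filter fun v => φ v = u).card := by
    rw [← Finset.card_univ]
    exact Finset.card_eq_sum_card_fiberwise (fun _ _ => Finset.mem_coe.2 (Finset.mem_univ _))
  rw [Nat.card_eq_fintype_card, h1]
  have h2 : ∀ u : Fin 7, (Finset.univ.filter fun v => φ v = u).card = fib φ 0 := fun u => by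
    rw [← fib_const hφ u, fib, Nat.card_eq_fintype_card, Fintype.card_subtype]
  rw [Finset.sum_congr rfl (fun u _ => h2 u), Finset.sum_const, Finset.card_univ]
  simp

/-- The number of darts over a set of darts. -/
theorem card_dart_over (hφ : IsCover H K7C4 φ) (S : Fin 7 → Fin 7 → Prop)
    [DecidableRel S] {k : ℕ}
    (hk : Fintype.card {p : Fin 7 × Fin 7 // K7C4.Adj p.1 p.2 ∧ S p.1 p.2} = k) :
    Nat.card {d : H.Dart // S (φ d.fst) (φ d.snd)} = k * fib φ 0 := by
  classical
  have := finiteDart (H := H)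
  have : Finite K7C4.Dart := finiteDart
  have := Fintype.ofFinite H.Dart
  have := Fintype.ofFinite K7C4.Dart
  let T : Finset K7C4.Dart := Finset.univ.filter fun e => S e.fst e.snd
  have h1 : Nat.card {d : H.Dart // S (φ d.fst) (φ d.snd)} = ∑ e ∈ T,
      (Finset.univ.filter fun d : H.Dart => hφ.dart d = e).card := by
    rw [Nat.card_eq_fintype_card, Fintype.card_subtype]
    rw [Finset.card_eq_sum_card_fiberwise (f := fun d => hφ.dart d) (t := T)
      (fun d hd => by
        have := (Finset.mem_filter.1 (Finset.mem_coe.1 hd)).2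
        exact Finset.mem_coe.2 (Finset.mem_filter.2 ⟨Finset.mem_univ _, this⟩))]
    refine Finset.sum_congr rfl fun e he => ?_
    congr 1
    ext d
    simp only [Finset.mem_filter, Finset.mem_univ, true_and]
    constructor
    · exact fun h => h.2
    · intro h
      refine ⟨?_, h⟩
      have := (Finset.mem_filter.1 he).2
      rw [← h] at this
      exact this
  have h2 : ∀ e : K7C4.Dart, (Finset.univ.filter fun d : H.Dart => hφ.dart d = e).card =
      fib φ 0 := fun e => by
    rw [← fib_const hφ e.fst, ← card_dart_fib hφ e, Nat.card_eq_fintype_card,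
      Fintype.card_subtype]
  rw [h1, Finset.sum_congr rfl (fun e _ => h2 e), Finset.sum_const, smul_eq_mul]
  congr 1
  rw [← hk, ← Fintype.card_coe]
  refine Fintype.card_congr ⟨fun e => ⟨e.1.toProd, e.1.adj, (Finset.mem_filter.1 e.2).2⟩,
    fun p => ⟨⟨p.1, p.2.1⟩, Finset.mem_filter.2 ⟨Finset.mem_univ _, p.2.2⟩⟩, ?_, ?_⟩
  · rintro ⟨e, he⟩; rfl
  · rintro ⟨p, hp⟩; rfl

theorem card_ext (hφ : IsCover H K7C4 φ) : Nat.card (Ext H φ) = 30 * fib φ 0 :=
  card_dart_over hφ (fun u v => ¬ (3 ≤ u.val ∧ 3 ≤ v.val)) (by decide)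

theorem card_dart_34 (hφ : IsCover H K7C4 φ) : Nat.card H.Dart = 34 * fib φ 0 := by
  have h := card_dart_over hφ (fun _ _ => True) (k := 34) (by decide)
  rw [← h]
  exact Nat.card_congr (Equiv.subtypeUnivEquiv fun _ => trivial).symm

open Relation in
/-- The faces of the cover and the faces of the contracted map. -/
theorem faces_le (hφ : IsCover H K7C4 φ) (rot : Perm H.Dart)
    (hrot : ∀ x y, rot.SameCycle x y ↔ x.fst = y.fst) :
    Nat.card (Quot fun x y => rot (flip H x) = y) ≤ cyc (map hφ rot hrot).face := by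
  classical
  have := finiteDart (H := H)
  let r : H.Dart → H.Dart → Prop := fun x y => rot (flip H x) = y
  have step : ∀ x, EqvGen r x (rot (flip H x)) := fun x => EqvGen.rel _ _ rfl
  have hwd : ∀ d : Ext H φ, EqvGen r d.1 ((map hφ rot hrot).face d).1 := by
    intro d
    show EqvGen r d.1 (nxtFun rot φ (flip H d.1))
    unfold nxtFun
    split_ifs with h
    · exact EqvGen.trans _ _ _ (step _) (step _)
    · exact step _
  refine Nat.card_le_card_of_surjective
    (Quot.lift (fun d : Ext H φ => Quot.mk r d.1) (fun x y hxy => ?_)) ?_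
  · rw [← hxy]
    exact Quot.eqvGen_sound (hwd x)
  · intro q
    induction q using Quot.ind with
    | mk x =>
      by_cases h1 : Int φ x
      · refine ⟨Quot.mk _ ⟨rot (flip H x), rot_int hφ rot hrot (int_flip.2 h1) (k := 0)
          (by omega)⟩, ?_⟩
        show Quot.mk r (rot (flip H x)) = Quot.mk r x
        exact (Quot.eqvGen_sound (step x)).symm
      · exact ⟨Quot.mk _ ⟨x, h1⟩, rfl⟩

open Relation in
/-- If the number of faces of every contracted map is at most a third of the number of darts, then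
`K_7 - C_4` has no finite planar cover. -/
theorem not_planar [Nonempty W] (hφ : IsCover H K7C4 φ)
    (h : ∀ M : Map30 (Ext H φ), 3 * cyc M.face ≤ Nat.card (Ext H φ)) : ¬ IsPlanar H := by
  classical
  rintro ⟨rot, hrot, heul⟩
  have := finiteDart (H := H)
  obtain ⟨v0⟩ := (inferInstance : Nonempty W)
  have hex : ∀ u : Fin 7, ∃ v, K7C4.Adj u v := by decide
  have hd : ∀ v : W, ∃ d : H.Dart, d.fst = v := fun v => by
    obtain ⟨y, hy⟩ := hex (φ v)
    obtain ⟨d, hd, -⟩ := hφ.dart_surj v ⟨(φ v, y), hy⟩ rfl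
    exact ⟨d, hd⟩
  have hV : Nat.card (Quot fun x y => rot x = y) = Nat.card W := by
    refine Nat.card_congr (Equiv.ofBijective (Quot.lift (fun d : H.Dart => d.fst) ?_) ⟨?_, ?_⟩)
    · intro x y hxy
      rw [← hxy]
      exact (rot_fst rot hrot x).symm
    · intro p q
      induction p using Quot.ind with
      | mk x =>
      induction q using Quot.ind with
      | mk y =>
        intro hxy
        exact Quot.eqvGen_sound ((eqvGen_iff_sameCycle rot x y).2 ((hrot x y).2 hxy))
    · intro v
      obtain ⟨d, hd⟩ := hd v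
      exact ⟨Quot.mk _ d, hd⟩
  have hC : 0 < Nat.card (Quot fun x y => rot x = y ∨ flip H x = y) := by
    obtain ⟨d, -⟩ := hd v0
    have : Nonempty (Quot fun x y => rot x = y ∨ flip H x = y) := ⟨Quot.mk _ d⟩
    exact Nat.card_pos
  have h1 := faces_le hφ rot hrot
  have h2 := h (map hφ rot hrot)
  rw [card_ext hφ] at h2
  have h3 := card_dart_eq H
  rw [card_dart_34 hφ] at h3
  rw [hV, card_eq_seven hφ] at heul
  omega

end K7

/-- **Main theorem, side A.** If every contracted map has a discharging rule, then `K_7 - C_4` has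
no finite planar cover. -/
theorem K7C4_noCover (h : ∀ (D : Type) [Finite D] (M : Map30 D), M.HasRule) :
    ¬ HasPlanarCover K7C4 := by
  rintro ⟨n, H, φ, hs, hφ, hpl⟩
  obtain ⟨w, -⟩ := hs 0
  have : Nonempty (Fin n) := ⟨w⟩
  have := finiteDart (H := H)
  exact K7.not_planar hφ (fun M => M.three_mul_face_le (h _ M)) hpl

end Pool.Agent.Lib.MP_5854e1_co
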