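import Pool.Agent.Lib.MP_5854e1_co.Discharge

/-!
# Cycle sums and first return maps
-/

set_option autoImplicit false

open Equiv Equiv.Perm

namespace Pool.Agent.Lib.MP_5854e1_co

section

variable {D : Type*} [Fintype D] [DecidableEq D]

open Classical in
/-- A sum along a cycle. -/
theorem sum_range_period {A : Type*} [AddCommMonoid A] (σ : Perm D) (x : D) (f : D → A) :
    ∑ i ∈ Finset.range (Function.minimalPeriod σ x), f (σ^[i] x) =
      ∑ y ∈ Finset.univ.filter (fun y => σ.SameCycle x y), f y := by
  refine Finset.sum_bij (fun i _ => σ^[i] x) ?_ ?_ ?_ ?_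
  · intro i _
    simp only [Finset.mem_filter, Finset.mem_univ, true_and]
    exact ⟨i, by rw [zpow_natCast, Equiv.Perm.coe_pow]⟩
  · intro i hi j hj h
    exact Function.iterate_injOn_Iio_minimalPeriod (Finset.mem_range.1 hi)
      (Finset.mem_range.1 hj) h
  · intro y hy
    obtain ⟨i, hi, h⟩ := sameCycle_iterate σ (Finset.mem_filter.1 hy).2
    exact ⟨i, Finset.mem_range.2 hi, h⟩
  · intro i _
    rfl

open Classical in
open Relation in
/-- If the sum along every cycle is at least one, then there are at most as many cycles as the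
total sum. -/
theorem cyc_le_sum (σ : Perm D) (κ : D → ℚ)
    (h : ∀ x, 1 ≤ ∑ i ∈ Finset.range (Function.minimalPeriod σ x), κ (σ^[i] x)) :
    (cyc σ : ℚ) ≤ ∑ x, κ x := by
  have hq : Fintype (Quot fun x y => σ x = y) := Fintype.ofFinite _
  have h1 : (cyc σ : ℚ) = ∑ _q : Quot (fun x y => σ x = y), (1 : ℚ) := by
    unfold cyc ncl
    rw [Nat.card_eq_fintype_card]
    simp
  rw [h1, ← Finset.sum_fiberwise_of_maps_to (s := Finset.univ) (t := Finset.univ)
    (g := fun x => Quot.mk (fun x y => σ x = y) x) (fun _ _ => Finset.mem_univ _)]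
  refine Finset.sum_le_sum fun q _ => ?_
  induction q using Quot.ind with
  | mk x =>
    refine (h x).trans (le_of_eq ?_)
    rw [sum_range_period]
    refine Finset.sum_congr ?_ fun _ _ => rfl
    ext y
    simp only [Finset.mem_filter, Finset.mem_univ, true_and]
    constructor
    · intro h
      exact Quot.eqvGen_sound ((eqvGen_iff_sameCycle σ y x).2 h.symm)
    · intro h
      exact ((eqvGen_iff_sameCycle σ y x).1 (Quot.eqvGen_exact h)).symm

/-- `τ` is the first return map of `σ` to the set `P`. -/
def IsRet (P : D → Prop) (σ : Perm D) (τ : Perm {d // P d}) : Prop :=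
  ∀ d : {d // P d}, ∃ r, 0 < r ∧ σ^[r] d.1 = (τ d).1 ∧ ∀ j, 0 < j → j < r → ¬ P (σ^[j] d.1)

variable {P : D → Prop} {σ : Perm D} {τ : Perm {d // P d}}

theorem IsRet.sameCycle_iff (h : IsRet P σ τ) (x y : {d // P d}) :
    τ.SameCycle x y ↔ σ.SameCycle x.1 y.1 := by
  constructor
  · have hstep : ∀ z : {d // P d}, σ.SameCycle z.1 (τ z).1 := by
      intro z
      obtain ⟨r, -, h1, -⟩ := h z
      exact ⟨r, by rw [zpow_natCast, Equiv.Perm.coe_pow, h1]⟩
    intro hxy
    classical
    obtain ⟨i, -, hi⟩ := sameCycle_iterate τ hxy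
    rw [← hi]
    clear hi
    induction i with
    | zero => exact ⟨0, rfl⟩
    | succ i ih =>
      rw [Function.iterate_succ_apply']
      exact ih.trans (hstep _)
  · intro hxy
    obtain ⟨n, -, hn⟩ := sameCycle_iterate σ hxy
    induction n using Nat.strong_induction_on generalizing x with
    | _ n ih =>
      rcases Nat.eq_zero_or_pos n with h0 | h0
      · subst h0
        have : x = y := Subtype.ext hn
        rw [this]
      · obtain ⟨r, hr0, h1, h2⟩ := h x
        have hrn : r ≤ n := by
          by_contra hlt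
          push Not at hlt
          refine h2 n h0 hlt ?_
          rw [hn]
          exact y.2
        have h3 : σ^[n - r] (τ x).1 = y.1 := by
          rw [← h1, ← Function.iterate_add_apply, Nat.sub_add_cancel hrn, hn]
        have h4 := ih (n - r) (by omega) (τ x)
          ⟨(n - r : ℕ), by rw [zpow_natCast, Equiv.Perm.coe_pow, h3]⟩ h3
        exact (SameCycle.refl τ x).trans
          ((show τ.SameCycle x (τ x) from ⟨1, by simp⟩).trans h4)

open Classical in
/-- Sums along the cycles of a first return map. -/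
theorem IsRet.sum_eq {A : Type*} [AddCommMonoid A] (h : IsRet P σ τ) (f : D → A)
    (hf : ∀ d, ¬ P d → f d = 0) (x : {d // P d}) :
    ∑ i ∈ Finset.range (Function.minimalPeriod σ x.1), f (σ^[i] x.1) =
      ∑ i ∈ Finset.range (Function.minimalPeriod τ x), f (τ^[i] x).1 := by
  rw [sum_range_period, sum_range_period τ x (fun y => f y.1)]
  have e1 : ∑ y ∈ Finset.univ.filter (fun y => σ.SameCycle x.1 y), f y =
      ∑ y ∈ Finset.univ.filter (fun y => σ.SameCycle x.1 y ∧ P y), f y := by
    symm
    refine Finset.sum_subset (fun y hy => ?_) (fun y hy hy2 => ?_)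
    · simp only [Finset.mem_filter, Finset.mem_univ, true_and] at hy ⊢
      exact hy.1
    · simp only [Finset.mem_filter, Finset.mem_univ, true_and, not_and] at hy hy2
      exact hf y (hy2 hy)
  rw [e1]
  symm
  refine Finset.sum_bij (fun y _ => y.1) ?_ ?_ ?_ ?_
  · intro y hy
    simp only [Finset.mem_filter, Finset.mem_univ, true_and] at hy ⊢
    exact ⟨(h.sameCycle_iff x y).1 hy, y.2⟩
  · intro y _ z _ hyz
    exact Subtype.ext hyz
  · intro y hy
    simp only [Finset.mem_filter, Finset.mem_univ, true_and] at hy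
    refine ⟨⟨y, hy.2⟩, ?_, rfl⟩
    simp only [Finset.mem_filter, Finset.mem_univ, true_and]
    exact (h.sameCycle_iff x ⟨y, hy.2⟩).2 hy.1
  · intro y _
    rfl

end

/-! ### Construction of the first return map -/

section

variable {D : Type*} [Finite D] (P : D → Prop) (σ : Perm D)

theorem exists_return (d : {d // P d}) : ∃ r, 0 < r ∧ P (σ^[r] d.1) := by
  refine ⟨Function.minimalPeriod σ d.1, minimalPeriod_pos' σ d.1, ?_⟩
  have : σ^[Function.minimalPeriod σ d.1] d.1 = d.1 := Function.isPeriodicPt_minimalPeriod σ d.1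
  rw [this]
  exact d.2

open Classical in
/-- The time of the first return. -/
noncomputable def rtime (d : {d // P d}) : ℕ := Nat.find (exists_return P σ d)

theorem rtime_pos (d : {d // P d}) : 0 < rtime P σ d := by
  classical exact (Nat.find_spec (exists_return P σ d)).1

theorem rtime_spec (d : {d // P d}) : P (σ^[rtime P σ d] d.1) := by
  classical exact (Nat.find_spec (exists_return P σ d)).2

theorem not_of_lt_rtime (d : {d // P d}) {j : ℕ} (h0 : 0 < j) (h : j < rtime P σ d) :
    ¬ P (σ^[j] d.1) := by
  classical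
  intro h2
  exact Nat.find_min (exists_return P σ d) h ⟨h0, h2⟩

theorem rtime_eq (d : {d // P d}) {r : ℕ} (h0 : 0 < r) (h1 : P (σ^[r] d.1))
    (h2 : ∀ j, 0 < j → j < r → ¬ P (σ^[j] d.1)) : rtime P σ d = r := by
  rcases Nat.lt_trichotomy (rtime P σ d) r with h | h | h
  · exact absurd (rtime_spec P σ d) (h2 _ (rtime_pos P σ d) h)
  · exact h
  · exact absurd h1 (not_of_lt_rtime P σ d h0 h)

/-- The first return map. -/
noncomputable def retPerm : Perm {d // P d} :=
  Equiv.ofBijective (fun d => ⟨σ^[rtime P σ d] d.1, rtime_spec P σ d⟩) (by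
    rw [← Finite.injective_iff_bijective]
    have key : ∀ x y : {d // P d}, rtime P σ x ≤ rtime P σ y →
        σ^[rtime P σ x] x.1 = σ^[rtime P σ y] y.1 → x = y := by
      intro x y hle hxy
      have h1 : σ^[rtime P σ x] (σ^[rtime P σ y - rtime P σ x] y.1) = σ^[rtime P σ x] x.1 := by
        rw [← Function.iterate_add_apply, Nat.add_sub_cancel' hle, hxy]
      have h2 := (σ.injective.iterate _) h1
      rcases Nat.eq_zero_or_pos (rtime P σ y - rtime P σ x) with h3 | h3
      · rw [h3] at h2
        exact Subtype.ext h2.symm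
      · exfalso
        refine not_of_lt_rtime P σ y h3 (Nat.sub_lt (rtime_pos P σ y) (rtime_pos P σ x)) ?_
        rw [h2]
        exact x.2
    intro x y hxy
    have hxy' : σ^[rtime P σ x] x.1 = σ^[rtime P σ y] y.1 := congrArg Subtype.val hxy
    rcases le_total (rtime P σ x) (rtime P σ y) with h | h
    · exact key x y h hxy'
    · exact (key y x h hxy'.symm).symm)

theorem retPerm_coe (d : {d // P d}) : (retPerm P σ d).1 = σ^[rtime P σ d] d.1 := rfl

theorem isRet_retPerm : IsRet P σ (retPerm P σ) := fun d =>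
  ⟨rtime P σ d, rtime_pos P σ d, rfl, fun _ h0 h => not_of_lt_rtime P σ d h0 h⟩

end

end Pool.Agent.Lib.MP_5854e1_co
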