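import Pool.Agent.Lib.MP_5854e1_co.MnrC
import Pool.Agent.Lib.MP_5854e1_co.Ret
import Pool.Agent.Lib.MP_5854e1_co.Discharge

/-!
# The map of a planar cover of `K_7 - C_4`

`K_7 - C_4` is the triangle `0, 1, 2`, joined to the four vertices `3, 4, 5, 6`, and the two edges
`34`, `56`. In a planar cover contract all the edges over `34` and `56`: what remains are the
darts of the triangles and the darts between the triangles and the *blobs*, the contracted edges;
every vertex has six darts.
-/

set_option autoImplicit false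

open Equiv Equiv.Perm

namespace Pool.Agent.Lib.MP_5854e1_co

/-- `K_7 - C_4`: the triangle `0, 1, 2` joined to `3, 4, 5, 6`, and the edges `34` and `56`. -/
def K7C4 : SimpleGraph (Fin 7) where
  Adj i j := i ≠ j ∧ (i.val < 3 ∨ j.val < 3 ∨ (i.val + 1) / 2 = (j.val + 1) / 2)
  symm := ⟨fun _ _ h => ⟨h.1.symm, by rcases h.2 with h | h | h
                                      · exact Or.inr (Or.inl h)
                                      · exact Or.inl h
                                      · exact Or.inr (Or.inr h.symm)⟩⟩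
  loopless := ⟨fun _ h => h.1 rfl⟩

instance : DecidableRel K7C4.Adj := fun i j =>
  inferInstanceAs (Decidable (i ≠ j ∧ (i.val < 3 ∨ j.val < 3 ∨ (i.val + 1) / 2 = (j.val + 1) / 2)))

/-- The other vertex of a blob. -/
def mate : Fin 7 → Fin 7 := ![0, 1, 2, 4, 3, 6, 5]

/-- The labels of the six darts around a vertex of a triangle. -/
def TriWord (w : ℕ → Fin 7 × Fin 7) : Prop :=
  ∃ (v : Fin 7) (u : ℕ → Fin 7), v.val < 3 ∧ (∀ i < 6, u i ≠ v) ∧
    (∀ i < 6, ∀ j < 6, u i = u j → i = j) ∧ ∀ i < 6, w i = (v, u i)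

/-- The labels of the six darts around a blob, beginning with the three darts of one of its
vertices. -/
def BlobWord (w : ℕ → Fin 7 × Fin 7) : Prop :=
  ∃ (p : Fin 7) (u u' : ℕ → Fin 7), 3 ≤ p.val ∧ (∀ i < 3, (u i).val < 3) ∧
    (∀ i < 3, (u' i).val < 3) ∧ (∀ i < 3, ∀ j < 3, u i = u j → i = j) ∧
    (∀ i < 3, ∀ j < 3, u' i = u' j → i = j) ∧ (∀ i < 3, w i = (p, u i)) ∧
    ∀ i < 3, w (3 + i) = (mate p, u' i)

/-- The contracted map of a cover of `K_7 - C_4`: the rotation `nxt`, the reversal `inv` and the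
labels. -/
structure Map30 (D : Type*) where
  /-- the next dart around the vertex -/
  nxt : Perm D
  /-- the reversal -/
  inv : Perm D
  /-- the label: the images of the two ends -/
  lab : D → Fin 7 × Fin 7
  inv_inv : ∀ d, inv (inv d) = d
  lab_inv : ∀ d, lab (inv d) = (lab d).swap
  six : ∀ d, nxt^[6] d = d
  tri : ∀ d, (lab d).1.val < 3 → TriWord fun i => lab (nxt^[i] d)
  blob : ∀ d, 3 ≤ (lab d).1.val → ∃ (s : D) (i : ℕ), i < 3 ∧ nxt^[i] s = d ∧
    BlobWord fun i => lab (nxt^[i] s)

namespace Map30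

variable {D : Type*} (M : Map30 D)

/-- The face permutation: the dart `(u, v)` is followed by the dart after `(v, u)` at `v`. -/
def face : Perm D := M.inv.trans M.nxt

theorem face_apply (d : D) : M.face d = M.nxt (M.inv d) := rfl

/-- One if the face of `d` comes to the vertex of `d` through the contracted edge. -/
def chg (d : D) : ℚ := if (M.lab (M.nxt⁻¹ d)).1 = (M.lab d).1 then 0 else 1

/-- A discharging rule. `f` is antisymmetric, `π` is arbitrary. -/
def HasRule : Prop :=
  ∃ π f : D → ℚ,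
    (∀ d, f (M.inv d) = - f d) ∧
    (∀ d, (M.lab d).1.val < 3 → 0 ≤ ∑ i ∈ Finset.range 6, π (M.nxt^[i] d)) ∧
    (∀ s, BlobWord (fun i => M.lab (M.nxt^[i] s)) → 2 ≤ ∑ i ∈ Finset.range 6, π (M.nxt^[i] s)) ∧
    ∀ d, 3 ≤ ∑ i ∈ Finset.range (Function.minimalPeriod M.face d),
      (1 + M.chg (M.face^[i] d) - π (M.face^[i] d) + f (M.face^[i] d))

theorem chg_sum_le (s : D) (h : BlobWord (fun i => M.lab (M.nxt^[i] s))) :
    ∑ i ∈ Finset.range 6, M.chg (M.nxt^[i] s) ≤ 2 := by
  obtain ⟨p, u, u', -, -, -, -, -, h1, h2⟩ := h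
  have e : ∀ i, M.nxt⁻¹ (M.nxt^[i + 1] s) = M.nxt^[i] s := fun i => by
    rw [Function.iterate_succ_apply']
    simp
  have c0 : ∀ x, M.chg x ≤ 1 := fun x => by
    unfold chg
    split_ifs <;> norm_num
  have hc : ∀ i, (M.lab (M.nxt^[i] s)).1 = (M.lab (M.nxt^[i + 1] s)).1 →
      M.chg (M.nxt^[i + 1] s) = 0 := fun i hi => by
    unfold chg
    rw [e i, if_pos hi]
  have a0 : M.lab (M.nxt^[0] s) = (p, u 0) := h1 0 (by norm_num)
  have a1 : M.lab (M.nxt^[1] s) = (p, u 1) := h1 1 (by norm_num)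
  have a2 : M.lab (M.nxt^[2] s) = (p, u 2) := h1 2 (by norm_num)
  have a3 : M.lab (M.nxt^[3] s) = (mate p, u' 0) := h2 0 (by norm_num)
  have a4 : M.lab (M.nxt^[4] s) = (mate p, u' 1) := h2 1 (by norm_num)
  have a5 : M.lab (M.nxt^[5] s) = (mate p, u' 2) := h2 2 (by norm_num)
  have c1 := hc 0 (by rw [a0, a1])
  have c2 := hc 1 (by rw [a1, a2])
  have c4 := hc 3 (by rw [a3, a4])
  have c5 := hc 4 (by rw [a4, a5])
  simp only [zero_add, Nat.reduceAdd] at c1 c2 c4 c5
  simp only [Finset.sum_range_succ, Finset.sum_range_zero, zero_add]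
  rw [c1, c2, c4, c5]
  have := c0 (M.nxt^[0] s)
  have := c0 (M.nxt^[3] s)
  linarith

theorem chg_tri (d : D) (h : (M.lab d).1.val < 3) : M.chg (M.nxt d) = 0 := by
  obtain ⟨v, u, -, -, -, h1⟩ := M.tri d h
  have a0 := h1 0 (by norm_num)
  have a1 := h1 1 (by norm_num)
  unfold chg
  simp only [Function.iterate_zero, id_eq, Function.iterate_one] at a0 a1
  simp [a0, a1]

theorem tri_iterate (d : D) (h : (M.lab d).1.val < 3) (i : ℕ) :
    (M.lab (M.nxt^[i] d)).1.val < 3 := by
  induction i with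
  | zero => exact h
  | succ i ih =>
    rw [Function.iterate_succ_apply']
    obtain ⟨v, u, hv, -, -, h1⟩ := M.tri _ ih
    have a1 := h1 1 (by norm_num)
    simp only [Function.iterate_one] at a1
    rw [a1]
    exact hv

/-- **Discharging.** -/
theorem three_mul_face_le [Finite D] (h : M.HasRule) : 3 * cyc M.face ≤ Nat.card D := by
  classical
  have := Fintype.ofFinite D
  obtain ⟨π, f, hf, htri, hblob, hface⟩ := h
  have h1 := cyc_le_sum M.face (fun x => (1 + M.chg x - π x + f x) / 3) (fun d => by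
    rw [← Finset.sum_div]
    have := hface d
    linarith)
  have hsf : ∑ d, f d = 0 := by
    have e : ∑ d, f (M.inv d) = ∑ d, f d := Equiv.sum_comp M.inv f
    have e' : ∑ d, f (M.inv d) = - ∑ d, f d := by
      rw [← Finset.sum_neg_distrib]
      exact Finset.sum_congr rfl fun d _ => hf d
    linarith
  have hcell : ∀ d, ∑ i ∈ Finset.range 6, (M.chg (M.nxt^[i] d) - π (M.nxt^[i] d)) ≤ 0 := by
    have hshift : ∀ (g : D → ℚ) d, ∑ i ∈ Finset.range 6, g (M.nxt^[i] (M.nxt d)) =
        ∑ i ∈ Finset.range 6, g (M.nxt^[i] d) := by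
      intro g d
      have e1 : ∑ i ∈ Finset.range 6, g (M.nxt^[i] (M.nxt d)) =
          ∑ i ∈ Finset.range 6, g (M.nxt^[i + 1] d) :=
        Finset.sum_congr rfl fun i _ => by rw [Function.iterate_succ_apply]
      have e2 := Finset.sum_range_succ' (fun i => g (M.nxt^[i] d)) 6
      have e3 := Finset.sum_range_succ (fun i => g (M.nxt^[i] d)) 6
      rw [M.six d] at e3
      rw [e1]
      simp only [Function.iterate_zero, id_eq] at e2
      linarith
    have hshift' : ∀ (g : D → ℚ) d i, ∑ j ∈ Finset.range 6, g (M.nxt^[j] (M.nxt^[i] d)) =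
        ∑ j ∈ Finset.range 6, g (M.nxt^[j] d) := by
      intro g d i
      induction i with
      | zero => rfl
      | succ i ih => rw [Function.iterate_succ_apply', hshift, ih]
    intro d
    by_cases hd : (M.lab d).1.val < 3
    · rw [Finset.sum_sub_distrib]
      have h2 := htri d hd
      have h3 : ∑ i ∈ Finset.range 6, M.chg (M.nxt^[i] d) = 0 := by
        rw [← hshift M.chg d]
        refine Finset.sum_eq_zero fun i _ => ?_
        rw [← Function.iterate_succ_apply, Function.iterate_succ_apply']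
        exact M.chg_tri _ (M.tri_iterate d hd i)
      linarith
    · obtain ⟨s, i, -, hi, hs⟩ := M.blob d (by omega)
      have e := hshift' (fun x => M.chg x - π x) s i
      rw [hi] at e
      rw [e, Finset.sum_sub_distrib]
      have h2 := hblob s hs
      have h3 := M.chg_sum_le s hs
      linarith
  have h6 : ∑ d, ∑ i ∈ Finset.range 6, (M.chg (M.nxt^[i] d) - π (M.nxt^[i] d)) =
      6 * ∑ d, (M.chg d - π d) := by
    rw [Finset.sum_comm]
    have : ∀ i ∈ Finset.range 6, ∑ d, (M.chg (M.nxt^[i] d) - π (M.nxt^[i] d)) =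
        ∑ d, (M.chg d - π d) := by
      intro i _
      have := Equiv.sum_comp (M.nxt ^ i) (fun d => M.chg d - π d)
      rw [← this]
      rfl
    rw [Finset.sum_congr rfl this, Finset.sum_const, Finset.card_range, nsmul_eq_mul]
    norm_num
  have h7 : ∑ d, ∑ i ∈ Finset.range 6, (M.chg (M.nxt^[i] d) - π (M.nxt^[i] d)) ≤ 0 :=
    Finset.sum_nonpos fun d _ => hcell d
  have h8 : ∑ x, (1 + M.chg x - π x + f x) / 3 =
      ((Fintype.card D : ℚ) + ∑ d, (M.chg d - π d) + ∑ d, f d) / 3 := by
    rw [← Finset.sum_div]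
    congr 1
    simp only [Finset.sum_add_distrib, Finset.sum_sub_distrib, Finset.sum_const, Finset.card_univ,
      nsmul_eq_mul, mul_one]
    ring
  rw [h8, hsf] at h1
  rw [Nat.card_eq_fintype_card]
  have : ((3 * cyc M.face : ℕ) : ℚ) ≤ ((Fintype.card D : ℕ) : ℚ) := by
    push_cast
    linarith
  exact_mod_cast this

end Map30

end Pool.Agent.Lib.MP_5854e1_co
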