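import Pool.Agent.Lib.MP_5854e1_co.MnrA

/-!
# From a map with half-edges to a planar graph

A pair of permutations `σ`, `α` (`α` an involution) of genus zero, restricted to the elements moved
by `α`, still has genus zero; if it is isomorphic to a rotation system of a graph then the graph is
planar.
-/

set_option autoImplicit false

open Equiv Equiv.Perm Relation

namespace Pool.Agent.Lib.MP_5854e1_co

section count

variable {D : Type*} [Finite D]

/-- Classes with and without an element satisfying `P`. -/
theorem ncl_split (r : D → D → Prop) (P : D → Prop) (r' : {x // P x} → {x // P x} → Prop)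
    (h : ∀ x y, EqvGen r' x y ↔ EqvGen r x.1 y.1) :
    ncl r = ncl r' + Nat.card {q : Quot r // ¬ ∃ x, P x ∧ Quot.mk r x = q} := by
  classical
  have : Finite (Quot r) := inferInstance
  have h1 : ncl r = Nat.card {q : Quot r // ∃ x, P x ∧ Quot.mk r x = q} +
      Nat.card {q : Quot r // ¬ ∃ x, P x ∧ Quot.mk r x = q} := by
    rw [← Nat.card_sum]
    exact (Nat.card_congr (Equiv.sumCompl _)).symm
  rw [h1]
  congr 1
  symm
  have hw : ∀ x y : {x // P x}, r' x y → Quot.mk r x.1 = Quot.mk r y.1 := fun x y hxy =>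
    Quot.eqvGen_sound ((h x y).1 (EqvGen.rel _ _ hxy))
  refine Nat.card_congr (Equiv.ofBijective
    (Quot.lift (fun x => (⟨Quot.mk r x.1, x.1, x.2, rfl⟩ :
      {q : Quot r // ∃ x, P x ∧ Quot.mk r x = q})) fun x y hxy => Subtype.ext (hw x y hxy))
    ⟨?_, ?_⟩)
  · intro p q
    induction p using Quot.ind with
    | mk x =>
    induction q using Quot.ind with
    | mk y =>
      intro hpq
      exact Quot.eqvGen_sound ((h x y).2 (Quot.eqvGen_exact (congrArg Subtype.val hpq)))
  · rintro ⟨q, x, hx, rfl⟩
    exact ⟨Quot.mk _ ⟨x, hx⟩, rfl⟩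

/-- The classes without an element of `P` are the same. -/
theorem card_miss (r s : D → D → Prop) (P : D → Prop)
    (h1 : ∀ x, (∀ z, EqvGen r x z → ¬ P z) → ∀ y, EqvGen r x y ↔ EqvGen s x y)
    (h2 : ∀ x, (∀ z, EqvGen s x z → ¬ P z) → ∀ z, EqvGen r x z → ¬ P z) :
    Nat.card {q : Quot r // ¬ ∃ x, P x ∧ Quot.mk r x = q} =
      Nat.card {q : Quot s // ¬ ∃ x, P x ∧ Quot.mk s x = q} := by
  classical
  have hr : ∀ x, (¬ ∃ z, P z ∧ Quot.mk r z = Quot.mk r x) ↔ ∀ z, EqvGen r x z → ¬ P z := by
    intro x
    constructor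
    · intro h z hz hP
      exact h ⟨z, hP, Quot.eqvGen_sound (EqvGen.symm _ _ hz)⟩
    · rintro h ⟨z, hP, hz⟩
      exact h z (EqvGen.symm _ _ (Quot.eqvGen_exact hz)) hP
  have hs : ∀ x, (¬ ∃ z, P z ∧ Quot.mk s z = Quot.mk s x) ↔ ∀ z, EqvGen s x z → ¬ P z := by
    intro x
    constructor
    · intro h z hz hP
      exact h ⟨z, hP, Quot.eqvGen_sound (EqvGen.symm _ _ hz)⟩
    · rintro h ⟨z, hP, hz⟩
      exact h z (EqvGen.symm _ _ (Quot.eqvGen_exact hz)) hP
  have h3 : ∀ x, (∀ z, EqvGen r x z → ¬ P z) → ∀ z, EqvGen s x z → ¬ P z := fun x hx z hz =>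
    hx z ((h1 x hx z).2 hz)
  have hout1 : ∀ q : Quot r, Quot.mk r q.out = q := fun q => Quot.out_eq q
  have hout2 : ∀ q : Quot s, Quot.mk s q.out = q := fun q => Quot.out_eq q
  refine Nat.card_congr ⟨fun q => ⟨Quot.mk s q.1.out, ?_⟩, fun q => ⟨Quot.mk r q.1.out, ?_⟩,
    fun q => ?_, fun q => ?_⟩
  · rw [hs]
    refine h3 _ ((hr _).1 ?_)
    rw [hout1]
    exact q.2
  · rw [hr]
    refine h2 _ ((hs _).1 ?_)
    rw [hout2]
    exact q.2
  · apply Subtype.ext
    show Quot.mk r (Quot.mk s q.1.out).out = q.1
    have h4 : EqvGen s (Quot.mk s q.1.out).out q.1.out := Quot.eqvGen_exact (hout2 _)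
    have h5 : ∀ z, EqvGen r q.1.out z → ¬ P z := by
      rw [← hr, hout1]
      exact q.2
    have h6 := (h1 _ h5 _).2 (EqvGen.symm _ _ h4)
    rw [← hout1 q.1]
    refine Quot.eqvGen_sound ?_
    rw [hout1]
    exact EqvGen.symm _ _ h6
  · apply Subtype.ext
    show Quot.mk s (Quot.mk r q.1.out).out = q.1
    have h4 : EqvGen r (Quot.mk r q.1.out).out q.1.out := Quot.eqvGen_exact (hout1 _)
    have h5 : ∀ z, EqvGen r q.1.out z → ¬ P z := by
      refine h2 _ ?_
      rw [← hs, hout2]
      exact q.2
    have h6 := (h1 _ h5 _).1 (EqvGen.symm _ _ h4)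
    rw [← hout2 q.1]
    refine Quot.eqvGen_sound ?_
    rw [hout2]
    exact EqvGen.symm _ _ h6

theorem ncl_equiv {D' : Type*} (e : D ≃ D') (r : D → D → Prop) (s : D' → D' → Prop)
    (h : ∀ x y, r x y ↔ s (e x) (e y)) : ncl r = ncl s :=
  Nat.card_congr (Quot.congr e h)

end count

section restrict

variable {D : Type*} [Fintype D] [DecidableEq D]

/-- `α` on the moved elements. -/
def movedPerm (α : Perm D) (hα : ∀ x, α (α x) = x) : Perm {x // α x ≠ x} where
  toFun x := ⟨α x.1, fun h => x.2 (by rw [hα] at h; exact h.symm)⟩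
  invFun x := ⟨α x.1, fun h => x.2 (by rw [hα] at h; exact h.symm)⟩
  left_inv x := Subtype.ext (hα x.1)
  right_inv x := Subtype.ext (hα x.1)

theorem defect_moved (σ α : Perm D) (hα : ∀ x, α (α x) = x) :
    defect (retPerm (fun x => α x ≠ x) σ) (movedPerm α hα) = defect σ α := by
  classical
  set P : D → Prop := fun x => α x ≠ x with hP
  have hnP : ∀ x, ¬ P x → α x = x := fun x hx => by
    by_contra h
    exact hx h
  set σ' := retPerm P σ with hσ'
  set α' := movedPerm α hα with hα'
  have hret : IsRet P σ σ' := isRet_retPerm P σ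
  -- vertices
  have v1 : ∀ x y, EqvGen (fun x y => σ' x = y) x y ↔ EqvGen (fun x y => σ x = y) x.1 y.1 := by
    intro x y
    rw [eqvGen_iff_sameCycle, eqvGen_iff_sameCycle, hret.sameCycle_iff]
  -- faces
  have hret2 : IsRet P (σ * α) (σ' * α') := by
    intro d
    obtain ⟨r, r0, r1, r2⟩ := hret (α' d)
    have hd : (α' d).1 = α d.1 := rfl
    have hstep : ∀ j, 0 < j → j ≤ r → (σ * α)^[j] d.1 = σ^[j] (α d.1) := by
      intro j
      induction j with
      | zero => intro h; exact absurd h (lt_irrefl 0)
      | succ j ih =>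
        intro _ hj
        rcases Nat.eq_zero_or_pos j with h0 | h0
        · subst h0
          rfl
        · rw [Function.iterate_succ_apply', ih h0 (by omega), Function.iterate_succ_apply',
            Perm.mul_apply]
          congr 1
          refine hnP _ ?_
          rw [← hd]
          exact r2 j h0 (by omega)
    refine ⟨r, r0, ?_, fun j j0 jr => ?_⟩
    · rw [hstep r r0 le_rfl, ← hd, r1]
      rfl
    · rw [hstep j j0 jr.le, ← hd]
      exact r2 j j0 jr
  have v2 : ∀ x y, EqvGen (fun x y => (σ' * α') x = y) x y ↔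
      EqvGen (fun x y => (σ * α) x = y) x.1 y.1 := by
    intro x y
    rw [eqvGen_iff_sameCycle, eqvGen_iff_sameCycle, hret2.sameCycle_iff]
  -- edges
  have v3 : ∀ x y, EqvGen (fun x y => α' x = y) x y ↔ EqvGen (fun x y => α x = y) x.1 y.1 := by
    have hcl : ∀ x y, EqvGen (fun x y => α x = y) x y → y = x ∨ y = α x := by
      intro x y h
      induction h with
      | rel x y h => exact Or.inr h.symm
      | refl x => exact Or.inl rfl
      | symm x y _ ih =>
        rcases ih with ih | ih
        · exact Or.inl ih.symm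
        · right; rw [ih, hα]
      | trans x y z _ _ ih1 ih2 =>
        rcases ih1 with ih1 | ih1 <;> rcases ih2 with ih2 | ih2
        · left; rw [ih2, ih1]
        · right; rw [ih2, ih1]
        · right; rw [ih2, ih1]
        · left; rw [ih2, ih1, hα]
    intro x y
    constructor
    · intro h
      induction h with
      | rel x y h =>
        subst h
        exact EqvGen.rel _ _ rfl
      | refl x => exact EqvGen.refl _
      | symm x y _ ih => exact EqvGen.symm _ _ ih
      | trans x y z _ _ ih1 ih2 => exact EqvGen.trans _ _ _ ih1 ih2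
    · intro h
      rcases hcl _ _ h with h1 | h1
      · have : y = x := Subtype.ext h1
        rw [this]
        exact EqvGen.refl _
      · exact EqvGen.rel _ _ (Subtype.ext h1.symm)
  -- orbits
  have v4 : ∀ x y, EqvGen (fun x y => σ' x = y ∨ α' x = y) x y ↔
      EqvGen (fun x y => σ x = y ∨ α x = y) x.1 y.1 := by
    intro x y
    have hone : ∀ x y : {x // P x}, σ.SameCycle x.1 y.1 →
        EqvGen (fun x y => σ' x = y ∨ α' x = y) x y := fun x y h =>
      ((eqvGen_iff_sameCycle σ' x y).2 ((hret.sameCycle_iff x y).2 h)).mono fun _ _ => Or.inl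
    constructor
    · intro h
      induction h with
      | rel x y h =>
        rcases h with h | h
        · exact ((v1 x y).1 (EqvGen.rel _ _ h)).mono fun _ _ => Or.inl
        · exact ((v3 x y).1 (EqvGen.rel _ _ h)).mono fun _ _ => Or.inr
      | refl x => exact EqvGen.refl _
      | symm x y _ ih => exact EqvGen.symm _ _ ih
      | trans x y z _ _ ih1 ih2 => exact EqvGen.trans _ _ _ ih1 ih2
    · intro h
      have main : ∀ a b, EqvGen (fun x y => σ x = y ∨ α x = y) a b →
          ((∃ w, P w ∧ σ.SameCycle w a) ↔ (∃ w, P w ∧ σ.SameCycle w b)) ∧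
          ∀ x y : {x // P x}, σ.SameCycle x.1 a → σ.SameCycle y.1 b →
            EqvGen (fun x y => σ' x = y ∨ α' x = y) x y := by
        intro a b hab
        induction hab with
        | rel a b hab =>
          rcases hab with hab | hab
          · have hs : σ.SameCycle a b := by
              rw [← hab]; exact sameCycle_apply_right.2 (SameCycle.refl _ _)
            exact ⟨⟨fun ⟨w, h1, h2⟩ => ⟨w, h1, h2.trans hs⟩,
              fun ⟨w, h1, h2⟩ => ⟨w, h1, h2.trans hs.symm⟩⟩,
              fun x y hx hy => hone x y (hx.trans (hs.trans hy.symm))⟩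
          · by_cases ha : P a
            · have hb : P b := by
                rw [← hab]
                exact (α' ⟨a, ha⟩).2
              refine ⟨⟨fun _ => ⟨b, hb, SameCycle.refl _ _⟩,
                fun _ => ⟨a, ha, SameCycle.refl _ _⟩⟩, fun x y hx hy => ?_⟩
              refine EqvGen.trans _ _ _ (hone x ⟨a, ha⟩ hx) (EqvGen.trans _ _ _
                (EqvGen.rel _ _ (Or.inr ?_)) (hone ⟨b, hb⟩ y hy.symm))
              exact Subtype.ext hab
            · have : b = a := by rw [← hab]; exact hnP a ha
              subst this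
              exact ⟨Iff.rfl, fun x y hx hy => hone x y (hx.trans hy.symm)⟩
        | refl a => exact ⟨Iff.rfl, fun x y hx hy => hone x y (hx.trans hy.symm)⟩
        | symm a b _ ih =>
          exact ⟨ih.1.symm, fun x y hx hy => EqvGen.symm _ _ (ih.2 y x hy hx)⟩
        | trans a b c _ _ ih1 ih2 =>
          refine ⟨ih1.1.trans ih2.1, fun x y hx hy => ?_⟩
          obtain ⟨w, hw, hwb⟩ := ih1.1.1 ⟨x.1, x.2, hx⟩
          exact EqvGen.trans _ _ _ (ih1.2 x ⟨w, hw⟩ hx hwb) (ih2.2 ⟨w, hw⟩ y hwb hy)
      exact (main x.1 y.1 h).2 x y (SameCycle.refl _ _) (SameCycle.refl _ _)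
  -- equality
  have v5 : ∀ x y : {x // P x}, EqvGen (fun x y : {x // P x} => (1 : Perm {x // P x}) x = y) x y ↔
      EqvGen (fun x y : D => (1 : Perm D) x = y) x.1 y.1 := by
    intro x y
    rw [eqvGen_iff_sameCycle, eqvGen_iff_sameCycle]
    simp only [sameCycle_one]
    exact Subtype.ext_iff
  have s1 := ncl_split _ P _ v1
  have s2 := ncl_split _ P _ v2
  have s3 := ncl_split _ P _ v3
  have s4 := ncl_split _ P _ v4
  have s5 := ncl_split _ P _ v5
  -- classes which avoid `P`
  have m1 : ∀ x, (∀ z, EqvGen (fun x y => σ x = y) x z → ¬ P z) →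
      ∀ n : ℕ, ((σ * α) ^ n) x = (σ ^ n) x := by
    intro x hx n
    induction n with
    | zero => rfl
    | succ n ih =>
      rw [pow_succ', pow_succ', Perm.mul_apply, ih, Perm.mul_apply, Perm.mul_apply]
      congr 1
      refine hnP _ (hx _ ?_)
      exact (eqvGen_iff_sameCycle _ _ _).2 ⟨n, by rw [zpow_natCast]⟩
  have m2 : ∀ x, (∀ z, EqvGen (fun x y => (σ * α) x = y) x z → ¬ P z) →
      ∀ n : ℕ, ((σ * α) ^ n) x = (σ ^ n) x := by
    intro x hx n
    induction n with
    | zero => rfl
    | succ n ih =>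
      rw [pow_succ', pow_succ', Perm.mul_apply, Perm.mul_apply, Perm.mul_apply, ← ih]
      congr 1
      refine hnP _ (hx _ ?_)
      exact (eqvGen_iff_sameCycle _ _ _).2 ⟨n, by rw [zpow_natCast]⟩
  have c2 := card_miss (fun x y => σ x = y) (fun x y => (σ * α) x = y) P
    (fun x hx y => by
      constructor
      · intro h
        obtain ⟨n, hn⟩ := ((eqvGen_iff_sameCycle _ _ _).1 h).exists_nat_pow_eq
        refine (eqvGen_iff_sameCycle _ _ _).2 ⟨n, ?_⟩
        rw [zpow_natCast, m1 x hx, hn]
      · intro h
        obtain ⟨n, hn⟩ := ((eqvGen_iff_sameCycle _ _ _).1 h).exists_nat_pow_eq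
        refine (eqvGen_iff_sameCycle _ _ _).2 ⟨n, ?_⟩
        rw [zpow_natCast, ← m1 x hx, hn])
    (fun x hx z hz => by
      obtain ⟨n, hn⟩ := ((eqvGen_iff_sameCycle _ _ _).1 hz).exists_nat_pow_eq
      refine hx z ((eqvGen_iff_sameCycle _ _ _).2 ⟨n, ?_⟩)
      rw [zpow_natCast, m2 x hx, hn])
  have c4 := card_miss (fun x y => σ x = y) (fun x y => σ x = y ∨ α x = y) P
    (fun x hx y => by
      refine ⟨fun h => h.mono fun _ _ => Or.inl, fun h => ?_⟩
      have main : ∀ a b, EqvGen (fun x y => σ x = y ∨ α x = y) a b →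
          ((∀ z, EqvGen (fun x y => σ x = y) a z → ¬ P z) → EqvGen (fun x y => σ x = y) a b) ∧
          ((∀ z, EqvGen (fun x y => σ x = y) b z → ¬ P z) →
            EqvGen (fun x y => σ x = y) a b) := by
        intro a b hab
        induction hab with
        | rel a b hab =>
          rcases hab with hab | hab
          · exact ⟨fun _ => EqvGen.rel _ _ hab, fun _ => EqvGen.rel _ _ hab⟩
          · constructor
            · intro h
              have := hnP a (h a (EqvGen.refl _))
              rw [← hab, this]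
              exact EqvGen.refl _
            · intro h
              have h1 := hnP b (h b (EqvGen.refl _))
              have h2 : a = b := by rw [← h1, ← hab, hα]
              rw [h2]
              exact EqvGen.refl _
        | refl a => exact ⟨fun _ => EqvGen.refl _, fun _ => EqvGen.refl _⟩
        | symm a b _ ih => exact ⟨fun h => EqvGen.symm _ _ (ih.2 h),
            fun h => EqvGen.symm _ _ (ih.1 h)⟩
        | trans a b c _ _ ih1 ih2 =>
          constructor
          · intro h
            have e1 := ih1.1 h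
            refine EqvGen.trans _ _ _ e1 (ih2.1 fun z hz => h z (EqvGen.trans _ _ _ e1 hz))
          · intro h
            have e2 := ih2.2 h
            refine EqvGen.trans _ _ _ (ih1.2 fun z hz => h z ?_) e2
            exact EqvGen.trans _ _ _ (EqvGen.symm _ _ e2) hz
      exact (main x y h).1 hx)
    (fun x hx z hz => hx z (hz.mono fun _ _ => Or.inl))
  have c3 := card_miss (fun x y => α x = y) (fun x y => (1 : Perm D) x = y) P
    (fun x hx y => by
      have hx0 := hnP x (hx x (EqvGen.refl _))
      rw [eqvGen_iff_sameCycle, eqvGen_iff_sameCycle, sameCycle_one]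
      constructor
      · rintro ⟨n, hn⟩
        rw [← hn]
        exact (zpow_apply_eq_self_of_apply_eq_self hx0 n).symm
      · rintro rfl
        exact SameCycle.refl _ _)
    (fun x hx z hz => by
      have hx0 := hnP x (hx x (EqvGen.refl _))
      obtain ⟨n, hn⟩ := (eqvGen_iff_sameCycle _ _ _).1 hz
      rw [zpow_apply_eq_self_of_apply_eq_self hx0 n] at hn
      rw [← hn]
      exact hx x (EqvGen.refl _))
  have t1 : ncl (fun x y : D => (1 : Perm D) x = y) = Nat.card D := cyc_one
  have t2 : ncl (fun x y : {x // P x} => (1 : Perm {x // P x}) x = y) = Nat.card {x // P x} :=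
    cyc_one
  have s5' : Nat.card D = Nat.card {x // P x} +
      Nat.card {q : Quot (fun x y : D => (1 : Perm D) x = y) // ¬ ∃ x, P x ∧
        Quot.mk (fun x y : D => (1 : Perm D) x = y) x = q} := by
    rw [← t1, ← t2]
    exact s5
  have s1' : cyc σ = cyc σ' + _ := s1
  have s2' : cyc (σ * α) = cyc (σ' * α') + _ := s2
  have s3' : cyc α = cyc α' + _ := s3
  have s4' : orb σ α = orb σ' α' + _ := s4
  have goal : (cyc σ' : ℤ) + cyc α' + cyc (σ' * α') - Nat.card {x // P x} - 2 * orb σ' α' =
      (cyc σ : ℤ) + cyc α + cyc (σ * α) - Nat.card D - 2 * orb σ α := by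
    rw [s1', s2', s3', s4', s5', ← c2, ← c4, c3]
    push_cast
    ring
  exact goal

end restrict

section graph

variable {D : Type*} [Finite D] [DecidableEq D]

theorem defect_equiv {D' : Type*} [Finite D'] (e : D ≃ D') (σ α : Perm D) (τ β : Perm D')
    (h1 : ∀ x, e (σ x) = τ (e x)) (h2 : ∀ x, e (α x) = β (e x)) : defect τ β = defect σ α := by
  have g1 : ∀ x y, σ x = y ↔ τ (e x) = e y := fun x y => by
    rw [← h1, e.injective.eq_iff]
  have g2 : ∀ x y, α x = y ↔ β (e x) = e y := fun x y => by
    rw [← h2, e.injective.eq_iff]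
  have g3 : ∀ x y, (σ * α) x = y ↔ (τ * β) (e x) = e y := fun x y => by
    rw [Perm.mul_apply, Perm.mul_apply, g1, h2]
  unfold defect cyc orb
  rw [ncl_equiv e _ (fun x y => τ x = y) g1, ncl_equiv e _ (fun x y => β x = y) g2,
    ncl_equiv e _ (fun x y => (τ * β) x = y) g3,
    ncl_equiv e _ (fun x y => τ x = y ∨ β x = y) (fun x y => by rw [g1, g2]),
    Nat.card_congr e]

/-- A graph is planar if its darts with the incidence to vertices are given by a map of genus zero
with half-edges. -/
theorem isPlanar_of_map (σ α : Perm D) (hα : ∀ x, α (α x) = x) (h0 : defect σ α = 0)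
    {W : Type*} [Finite W] (H : SimpleGraph W) (g : {x // α x ≠ x} → H.Dart)
    (hg : Function.Bijective g)
    (hflip : ∀ x, g (movedPerm α hα x) = flip H (g x))
    (hsame : ∀ x y : {x // α x ≠ x}, σ.SameCycle x.1 y.1 ↔ (g x).fst = (g y).fst) :
    IsPlanar H := by
  classical
  have := Fintype.ofFinite D
  set e : {x // α x ≠ x} ≃ H.Dart := Equiv.ofBijective g hg with he
  set σ' := retPerm (fun x => α x ≠ x) σ with hσ'
  set rot : Perm H.Dart := (e.symm.trans σ').trans e with hrot
  have h1 : ∀ x, e (σ' x) = rot (e x) := fun x => by simp [hrot]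
  have h2 : ∀ x, e (movedPerm α hα x) = flip H (e x) := hflip
  have hd := defect_equiv e σ' (movedPerm α hα) rot (flip H) h1 h2
  rw [defect_moved σ α hα, h0] at hd
  refine ⟨rot, fun x y => ?_, ?_⟩
  · obtain ⟨a, rfl⟩ := e.surjective x
    obtain ⟨b, rfl⟩ := e.surjective y
    have h3 : rot.SameCycle (e a) (e b) ↔ σ'.SameCycle a b := by
      rw [← eqvGen_iff_sameCycle, ← eqvGen_iff_sameCycle]
      constructor
      · intro h
        have h4 : ∀ p q, EqvGen (fun x y => rot x = y) p q →
            EqvGen (fun x y => σ' x = y) (e.symm p) (e.symm q) := by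
          intro p q hpq
          induction hpq with
          | rel p q hpq =>
            refine EqvGen.rel _ _ ?_
            rw [← hpq]
            simp [hrot]
          | refl x => exact EqvGen.refl _
          | symm x y _ ih => exact EqvGen.symm _ _ ih
          | trans x y z _ _ ih1 ih2 => exact EqvGen.trans _ _ _ ih1 ih2
        simpa using h4 _ _ h
      · intro h
        induction h with
        | rel p q hpq =>
          refine EqvGen.rel _ _ ?_
          rw [← hpq, h1]
        | refl x => exact EqvGen.refl _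
        | symm x y _ ih => exact EqvGen.symm _ _ ih
        | trans x y z _ _ ih1 ih2 => exact EqvGen.trans _ _ _ ih1 ih2
    rw [h3, (isRet_retPerm (fun x => α x ≠ x) σ).sameCycle_iff]
    exact hsame a b
  · have h4 := card_edgeSet_eq H
    have h5 := card_dart_eq H
    unfold defect cyc orb at hd
    have h6 : (fun x y => (rot * flip H) x = y) = fun x y => rot (flip H x) = y := by
      funext x y; rw [Perm.mul_apply]
    have h7 : ncl (fun x y => flip H x = y) = Nat.card H.edgeSet := h4
    rw [h6, h7, h5] at hd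
    unfold ncl at hd
    push_cast at hd
    omega

/-- A planar graph as a map of genus zero. -/
theorem IsPlanar.defect_eq {W : Type*} [Finite W] {H : SimpleGraph W} [DecidableEq H.Dart]
    (h : IsPlanar H) : ∃ rot : Perm H.Dart, (∀ x y, rot.SameCycle x y ↔ x.fst = y.fst) ∧
      defect rot (flip H) = 0 := by
  obtain ⟨rot, hrot, heul⟩ := h
  refine ⟨rot, hrot, ?_⟩
  unfold defect cyc orb ncl
  rw [card_edgeSet_eq, card_dart_eq]
  have h2 : (fun x y => (rot * flip H) x = y) = fun x y => rot (flip H x) = y := by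
    funext x y; rw [Perm.mul_apply]
  rw [h2]
  have : ((Nat.card (Quot fun x y => rot x = y) +
      Nat.card (Quot fun x y => rot (flip H x) = y) : ℕ) : ℤ) =
      ((Nat.card H.edgeSet + 2 * Nat.card (Quot fun x y => rot x = y ∨ flip H x = y) : ℕ) :
        ℤ) := by rw [heul]
  push_cast at this ⊢
  linarith

end graph

end Pool.Agent.Lib.MP_5854e1_co
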