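import Pool.Agent.Lib.MP_5854e1_co.YDG
import Pool.Agent.Lib.MP_5854e1_co.Glue2

/-!
# Adding an edge next to a vertex of degree three

If `v` has degree three and neighbours `a`, `b`, `c` then a finite planar cover of `G` gives one of
`G + ab`: draw the new edges along the paths `a v b`.
-/

set_option autoImplicit false
set_option linter.unusedSectionVars false

open Equiv Equiv.Perm Relation

namespace Pool.Agent.Lib.MP_5854e1_co

section insert

variable {D : Type*} [Finite D] [DecidableEq D]

private theorem cyc_swap_ge (σ : Perm D) (d e : D) : cyc σ ≤ cyc (σ * swap d e) + 1 := by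
  by_cases hde : d = e
  · subst hde
    rw [swap_self]
    show cyc σ ≤ cyc (σ * 1) + 1
    rw [mul_one]
    omega
  · by_cases h : σ.SameCycle d e
    · rw [cyc_mul_swap_of_sameCycle hde h]
      omega
    · rw [cyc_mul_swap_of_not h]

/-- `σ` with two more fixed points. -/
def two (σ : Perm D) : Perm (D ⊕ Bool) := Equiv.sumCongr σ (1 : Perm Bool)

private theorem two_inl (σ : Perm D) (x : D) : two σ (Sum.inl x) = Sum.inl (σ x) := rfl

private theorem two_inr (σ : Perm D) (x : Bool) : two σ (Sum.inr x) = Sum.inr x := rfl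

private theorem two_mul (σ τ : Perm D) : two (σ * τ) = two σ * two τ := by
  ext x
  rcases x with x | x <;> rfl

private theorem cyc_two (σ : Perm D) : cyc (two σ) = cyc σ + 2 := by
  unfold cyc ncl
  have h : Nat.card (Quot fun x y => σ x = y) + 2 = Nat.card ((Quot fun x y => σ x = y) ⊕ Bool) := by
    rw [Nat.card_sum, Nat.card_eq_fintype_card (α := Bool)]
    rfl
  rw [h]
  refine Nat.card_congr ⟨Quot.lift (fun x => x.map (Quot.mk _) id) ?_,
    Sum.elim (Quot.lift (fun x => Quot.mk _ (Sum.inl x)) ?_) (fun x => Quot.mk _ (Sum.inr x)),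
    ?_, ?_⟩
  · rintro (x | x) y h
    · subst h
      show Sum.inl _ = Sum.inl _
      rw [Quot.sound (r := fun x y => σ x = y) rfl]
    · subst h
      rfl
  · intro x y h
    exact Quot.sound (by show two σ (Sum.inl x) = Sum.inl y; rw [two_inl, h])
  · intro q
    induction q using Quot.ind with
    | mk x => rcases x with x | x <;> rfl
  · rintro (q | x)
    · induction q using Quot.ind with
      | mk x => rfl
    · rfl

/-- The rotation after inserting two new darts after `a` and after `b`. -/
def insRot (σ : Perm D) (a b : D) : Perm (D ⊕ Bool) :=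
  two σ * swap (Sum.inl a) (Sum.inr false) * swap (Sum.inl b) (Sum.inr true)

/-- The reversal after inserting an edge. -/
def insInv (α : Perm D) : Perm (D ⊕ Bool) := two α * swap (Sum.inr false) (Sum.inr true)

private theorem insInv_inl (α : Perm D) (x : D) : insInv α (Sum.inl x) = Sum.inl (α x) := by
  rw [insInv, Perm.mul_apply, swap_apply_of_ne_of_ne (by simp) (by simp), two_inl]

private theorem insInv_inr (α : Perm D) (x : Bool) : insInv α (Sum.inr x) = Sum.inr (!x) := by
  rw [insInv, Perm.mul_apply]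
  rcases x with _ | _
  · rw [swap_apply_left, two_inr]; rfl
  · rw [swap_apply_right, two_inr]; rfl

variable {σ : Perm D} {a b : D}

private theorem insRot_a (hab : a ≠ b) : insRot σ a b (Sum.inl a) = Sum.inr false := by
  have h : (swap (Sum.inl b) (Sum.inr true) : Perm (D ⊕ Bool)) (Sum.inl a) = Sum.inl a :=
    swap_apply_of_ne_of_ne (by simpa using hab) (by simp)
  rw [insRot, Perm.mul_apply, Perm.mul_apply, h, swap_apply_left, two_inr]

private theorem insRot_b : insRot σ a b (Sum.inl b) = Sum.inr true := by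
  have h : (swap (Sum.inl a) (Sum.inr false) : Perm (D ⊕ Bool)) (Sum.inr true) = Sum.inr true :=
    swap_apply_of_ne_of_ne (by simp) (by simp)
  rw [insRot, Perm.mul_apply, Perm.mul_apply, swap_apply_left, h, two_inr]

private theorem insRot_of {x : D} (ha : x ≠ a) (hb : x ≠ b) :
    insRot σ a b (Sum.inl x) = Sum.inl (σ x) := by
  have h : (swap (Sum.inl b) (Sum.inr true) : Perm (D ⊕ Bool)) (Sum.inl x) = Sum.inl x :=
    swap_apply_of_ne_of_ne (by simpa using hb) (by simp)
  have h' : (swap (Sum.inl a) (Sum.inr false) : Perm (D ⊕ Bool)) (Sum.inl x) = Sum.inl x :=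
    swap_apply_of_ne_of_ne (by simpa using ha) (by simp)
  rw [insRot, Perm.mul_apply, Perm.mul_apply, h, h', two_inl]

private theorem insRot_false : insRot σ a b (Sum.inr false) = Sum.inl (σ a) := by
  have h : (swap (Sum.inl b) (Sum.inr true) : Perm (D ⊕ Bool)) (Sum.inr false) = Sum.inr false :=
    swap_apply_of_ne_of_ne (by simp) (by simp)
  rw [insRot, Perm.mul_apply, Perm.mul_apply, h, swap_apply_right, two_inl]

private theorem insRot_true (hab : a ≠ b) : insRot σ a b (Sum.inr true) = Sum.inl (σ b) := by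
  have h : (swap (Sum.inl a) (Sum.inr false) : Perm (D ⊕ Bool)) (Sum.inl b) = Sum.inl b :=
    swap_apply_of_ne_of_ne (by simpa using hab.symm) (by simp)
  rw [insRot, Perm.mul_apply, Perm.mul_apply, swap_apply_right, h, two_inl]

private theorem swap_two (α : Perm D) (hα : ∀ x, α (α x) = x) (x : D) (c : Bool) :
    swap (Sum.inl x) (Sum.inr c) * two α = two α * swap (Sum.inl (α x)) (Sum.inr c) := by
  have h := Equiv.mul_swap_eq_swap_mul (two α) (Sum.inl (α x)) (Sum.inr c)
  rw [two_inl, two_inr, hα] at h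
  exact h.symm

/-- Inserting an edge into a face keeps the genus zero. -/
theorem defect_insert {α : Perm D} (hα : ∀ x, α (α x) = x) (hab : a ≠ b)
    (hs : (insRot σ a b * two α).SameCycle (Sum.inr false) (Sum.inr true)) (h0 : defect σ α = 0) :
    defect (insRot σ a b) (insInv α) = 0 := by
  have hinv : ∀ x, insInv α (insInv α x) = x := by
    rintro (x | x)
    · rw [insInv_inl, insInv_inl, hα]
    · rw [insInv_inr, insInv_inr, Bool.not_not]
  refine le_antisymm (defect_le_zero _ _ hinv) ?_
  have c1 : cyc σ ≤ cyc (insRot σ a b) := by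
    have h1 := cyc_swap_ge (two σ * swap (Sum.inl a) (Sum.inr false)) (Sum.inl b) (Sum.inr true)
    have h2 := cyc_swap_ge (two σ) (Sum.inl a) (Sum.inr false)
    have h3 := cyc_two σ
    unfold insRot
    omega
  have c2 : cyc α + 1 ≤ cyc (insInv α) := by
    have h1 := cyc_swap_ge (two α) (Sum.inr false) (Sum.inr true)
    have h3 := cyc_two α
    unfold insInv
    omega
  have c3 : cyc (σ * α) + 1 ≤ cyc (insRot σ a b * insInv α) := by
    have h1 : insRot σ a b * insInv α =
        insRot σ a b * two α * swap (Sum.inr false) (Sum.inr true) := by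
      rw [insInv, mul_assoc]
    have h2 := cyc_mul_swap_of_sameCycle (by simp) hs
    rw [h1, h2]
    have h3 : insRot σ a b * two α = two (σ * α) * swap (Sum.inl (α a)) (Sum.inr false) *
        swap (Sum.inl (α b)) (Sum.inr true) := by
      rw [insRot, two_mul, mul_assoc _ _ (two α), swap_two α hα, ← mul_assoc,
        mul_assoc (two σ) _ (two α), swap_two α hα, ← mul_assoc]
    have h4 := cyc_swap_ge (two (σ * α) * swap (Sum.inl (α a)) (Sum.inr false)) (Sum.inl (α b))
      (Sum.inr true)
    have h5 := cyc_swap_ge (two (σ * α)) (Sum.inl (α a)) (Sum.inr false)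
    have h6 := cyc_two (σ * α)
    rw [h3]
    omega
  have c4 : orb (insRot σ a b) (insInv α) ≤ orb σ α := by
    unfold orb ncl
    have hstep : ∀ x : D, EqvGen (fun x y => insRot σ a b x = y ∨ insInv α x = y) (Sum.inl x)
        (Sum.inl (σ x)) := by
      intro x
      by_cases ha : x = a
      · subst ha
        exact EqvGen.trans _ _ _ (EqvGen.rel _ _ (Or.inl (insRot_a hab)))
          (EqvGen.rel _ _ (Or.inl insRot_false))
      · by_cases hb : x = b
        · subst hb
          exact EqvGen.trans _ _ _ (EqvGen.rel _ _ (Or.inl insRot_b))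
            (EqvGen.rel _ _ (Or.inl (insRot_true hab)))
        · exact EqvGen.rel _ _ (Or.inl (insRot_of ha hb))
    refine Nat.card_le_card_of_surjective (Quot.lift (fun x => Quot.mk _ (Sum.inl x)) ?_) ?_
    · rintro x y (h | h)
      · subst h
        exact Quot.eqvGen_sound (hstep x)
      · subst h
        exact Quot.sound (Or.inr (insInv_inl α x))
    · intro q
      induction q using Quot.ind with
      | mk x =>
        rcases x with x | x
        · exact ⟨Quot.mk _ x, rfl⟩
        · rcases x with _ | _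
          · exact ⟨Quot.mk _ (σ a), (Quot.sound (r := fun x y => insRot σ a b x = y ∨ insInv α x = y)
              (Or.inl insRot_false)).symm⟩
          · exact ⟨Quot.mk _ (σ b), (Quot.sound (r := fun x y => insRot σ a b x = y ∨ insInv α x = y)
              (Or.inl (insRot_true hab))).symm⟩
  have c5 : Nat.card (D ⊕ Bool) = Nat.card D + 2 := by
    rw [Nat.card_sum, Nat.card_eq_fintype_card (α := Bool)]
    rfl
  unfold defect at h0 ⊢
  rw [c5]
  push_cast
  omega

end insert

section graph

variable {W : Type*}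

private theorem insRot_same {D : Type*} [Finite D] [DecidableEq D] {σ : Perm D} {a b : D}
    (hab : a ≠ b) {x y : D} (h : σ.SameCycle x y) :
    (insRot σ a b).SameCycle (Sum.inl x) (Sum.inl y) := by
  have hstep : ∀ x : D, (insRot σ a b).SameCycle (Sum.inl x) (Sum.inl (σ x)) := by
    intro x
    by_cases ha : x = a
    · subst ha
      rw [← insRot_false (σ := σ) (a := x) (b := b), ← insRot_a (σ := σ) hab]
      exact sameCycle_apply_right.2 (sameCycle_apply_right.2 (SameCycle.refl _ _))
    · by_cases hb : x = b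
      · subst hb
        rw [← insRot_true (σ := σ) (a := a) (b := x) hab, ← insRot_b (σ := σ) (a := a)]
        exact sameCycle_apply_right.2 (sameCycle_apply_right.2 (SameCycle.refl _ _))
      · rw [← insRot_of ha hb]
        exact sameCycle_apply_right.2 (SameCycle.refl _ _)
  obtain ⟨n, rfl⟩ := h.exists_nat_pow_eq
  clear h
  induction n with
  | zero => exact SameCycle.refl _ _
  | succ n ih =>
    rw [pow_succ', Perm.mul_apply]
    exact ih.trans (hstep _)

/-- Adding the edge between two neighbours of `r` which follow each other in the rotation. -/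
private theorem isPlanar_addE_aux [Finite W] {H : SimpleGraph W} [DecidableEq H.Dart]
    {rot : Perm H.Dart} (hrot : ∀ x y, rot.SameCycle x y ↔ x.fst = y.fst)
    (h0 : defect rot (flip H) = 0) {d1 d2 : H.Dart} (h12 : rot d1 = d2)
    (hpq : d1.snd ≠ d2.snd) (hn : ¬ H.Adj d1.snd d2.snd) : IsPlanar (addE H d1.snd d2.snd) := by
  classical
  have hfst : ∀ x, (rot x).fst = x.fst := fun x =>
    (hrot _ _).1 (sameCycle_apply_left.2 (SameCycle.refl _ _))
  have hfst' : ∀ x, (rot⁻¹ x).fst = x.fst := fun x => by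
    have := hfst (rot⁻¹ x)
    rw [yd_app_inv] at this
    exact this.symm
  have hinv : ∀ x, flip H (flip H x) = x := fun x => x.symm_symm
  set a : H.Dart := rot⁻¹ (flip H d1) with ha
  set b : H.Dart := flip H d2 with hb
  have hra : rot a = flip H d1 := by rw [ha, yd_app_inv]
  have haf : a.fst = d1.snd := hfst' _
  have hbf : b.fst = d2.snd := rfl
  have hab : a ≠ b := fun h => hpq (by rw [← haf, ← hbf, h])
  have hd1f : d1.fst = d2.fst := by rw [← h12, hfst]
  have hp : d1.snd ≠ d1.fst := d1.adj.ne'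
  have hq : d2.snd ≠ d1.fst := by rw [hd1f]; exact d2.adj.ne'
  have s1 : (insRot rot a b * two (flip H)) (Sum.inr false) = Sum.inl (flip H d1) := by
    rw [Perm.mul_apply, two_inr, insRot_false, hra]
  have s2 : (insRot rot a b * two (flip H)) (Sum.inl (flip H d1)) = Sum.inl d2 := by
    rw [Perm.mul_apply, two_inl, hinv, insRot_of, h12]
    · intro h
      apply hp
      rw [← haf, ← h]
    · intro h
      apply hq
      rw [← hbf, ← h]
  have s3 : (insRot rot a b * two (flip H)) (Sum.inl d2) = Sum.inr true := by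
    rw [Perm.mul_apply, two_inl, ← hb, insRot_b]
  have hs : (insRot rot a b * two (flip H)).SameCycle (Sum.inr false) (Sum.inr true) := by
    rw [← s3, ← s2, ← s1]
    exact sameCycle_apply_right.2 (sameCycle_apply_right.2 (sameCycle_apply_right.2
      (SameCycle.refl _ _)))
  have h1 := defect_insert hinv hab hs h0
  have hmv : ∀ x, insInv (flip H) x ≠ x := by
    rintro (x | x)
    · rw [insInv_inl]
      intro h
      exact SimpleGraph.Dart.symm_ne x (Sum.inl.inj h)
    · rw [insInv_inr]
      intro h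
      cases x <;> simp at h
  have hi : ∀ x, insInv (flip H) (insInv (flip H) x) = x := by
    rintro (x | x)
    · rw [insInv_inl, insInv_inl, hinv]
    · rw [insInv_inr, insInv_inr, Bool.not_not]
  let g0 : H.Dart ⊕ Bool → (addE H d1.snd d2.snd).Dart := fun x => match x with
    | Sum.inl d => ⟨(d.fst, d.snd), Or.inl d.adj⟩
    | Sum.inr false => ⟨(d1.snd, d2.snd), Or.inr ⟨hpq, Or.inl ⟨rfl, rfl⟩⟩⟩
    | Sum.inr true => ⟨(d2.snd, d1.snd), Or.inr ⟨hpq.symm, Or.inr ⟨rfl, rfl⟩⟩⟩
  have gf : ∀ x : H.Dart, (g0 (Sum.inl x)).fst = x.fst := fun _ => rfl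
  have hg : Function.Bijective g0 := by
    constructor
    · rintro (x | x) (y | y) h
      · have e1 : x.fst = y.fst := congrArg (fun d : (addE H d1.snd d2.snd).Dart => d.fst) h
        have e2 : x.snd = y.snd := congrArg (fun d : (addE H d1.snd d2.snd).Dart => d.snd) h
        rw [SimpleGraph.Dart.ext _ _ (Prod.ext e1 e2)]
      · exfalso
        have e1 := congrArg (fun d : (addE H d1.snd d2.snd).Dart => d.fst) h
        have e2 := congrArg (fun d : (addE H d1.snd d2.snd).Dart => d.snd) h
        have hxy := x.adj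
        rcases y with _ | _
        · have e1' : x.fst = d1.snd := e1
          have e2' : x.snd = d2.snd := e2
          rw [e1', e2'] at hxy
          exact hn hxy
        · have e1' : x.fst = d2.snd := e1
          have e2' : x.snd = d1.snd := e2
          rw [e1', e2'] at hxy
          exact hn hxy.symm
      · exfalso
        have e1 := congrArg (fun d : (addE H d1.snd d2.snd).Dart => d.fst) h
        have e2 := congrArg (fun d : (addE H d1.snd d2.snd).Dart => d.snd) h
        have hxy := y.adj
        rcases x with _ | _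
        · have e1' : d1.snd = y.fst := e1
          have e2' : d2.snd = y.snd := e2
          rw [← e1', ← e2'] at hxy
          exact hn hxy
        · have e1' : d2.snd = y.fst := e1
          have e2' : d1.snd = y.snd := e2
          rw [← e1', ← e2'] at hxy
          exact hn hxy.symm
      · have e1 := congrArg (fun d : (addE H d1.snd d2.snd).Dart => d.fst) h
        rcases x with _ | _ <;> rcases y with _ | _
        · rfl
        · exact absurd e1 hpq
        · exact absurd e1 hpq.symm
        · rfl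
    · intro d
      rcases id d.adj with h | ⟨-, ⟨h1, h2⟩ | ⟨h1, h2⟩⟩
      · exact ⟨Sum.inl ⟨(d.fst, d.snd), h⟩, rfl⟩
      · exact ⟨Sum.inr false, SimpleGraph.Dart.ext _ _ (Prod.ext h1.symm h2.symm)⟩
      · exact ⟨Sum.inr true, SimpleGraph.Dart.ext _ _ (Prod.ext h1.symm h2.symm)⟩
  -- a dart of `H` at the same vertex
  let bs : H.Dart ⊕ Bool → H.Dart := fun x => match x with
    | Sum.inl d => d
    | Sum.inr false => rot a
    | Sum.inr true => rot b
  have hbs1 : ∀ x, (g0 x).fst = (bs x).fst := by
    rintro (x | _ | _)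
    · rfl
    · show d1.snd = (rot a).fst
      rw [hfst, haf]
    · show d2.snd = (rot b).fst
      rw [hfst, hbf]
  have hbs2 : ∀ x, (insRot rot a b).SameCycle x (Sum.inl (bs x)) := by
    rintro (x | _ | _)
    · exact SameCycle.refl _ _
    · show (insRot rot a b).SameCycle (Sum.inr false) (Sum.inl (rot a))
      rw [← insRot_false (σ := rot) (a := a) (b := b)]
      exact sameCycle_apply_right.2 (SameCycle.refl _ _)
    · show (insRot rot a b).SameCycle (Sum.inr true) (Sum.inl (rot b))
      rw [← insRot_true (σ := rot) (a := a) (b := b) hab]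
      exact sameCycle_apply_right.2 (SameCycle.refl _ _)
  have hstep : ∀ x, (g0 (insRot rot a b x)).fst = (g0 x).fst := by
    rintro (x | _ | _)
    · by_cases hxa : x = a
      · subst hxa
        rw [insRot_a hab, gf]
        exact haf.symm
      · by_cases hxb : x = b
        · subst hxb
          rw [insRot_b, gf]
          exact hbf.symm
        · rw [insRot_of hxa hxb, gf, gf, hfst]
    · rw [insRot_false, gf, hfst]
      exact haf
    · rw [insRot_true hab, gf, hfst]
      exact hbf
  refine isPlanar_of_map (insRot rot a b) (insInv (flip H)) hi h1 _ (fun x => g0 x.1) ⟨?_, ?_⟩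
    ?_ ?_
  · intro x y hxy
    exact Subtype.ext (hg.1 hxy)
  · intro d
    obtain ⟨x, hx⟩ := hg.2 d
    exact ⟨⟨x, hmv x⟩, hx⟩
  · rintro ⟨x, hx⟩
    show g0 (insInv (flip H) x) = flip _ (g0 x)
    rcases x with x | _ | _
    · rw [insInv_inl]; rfl
    · rw [insInv_inr]; rfl
    · rw [insInv_inr]; rfl
  · rintro ⟨x, hx⟩ ⟨y, hy⟩
    show (insRot rot a b).SameCycle x y ↔ (g0 x).fst = (g0 y).fst
    constructor
    · intro h
      obtain ⟨n, rfl⟩ := h.exists_nat_pow_eq
      clear hx hy h
      induction n with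
      | zero => rfl
      | succ n ih => rw [ih, pow_succ', Perm.mul_apply, hstep]
    · intro h
      rw [hbs1, hbs1] at h
      exact (hbs2 x).trans ((insRot_same hab ((hrot _ _).2 h)).trans (hbs2 y).symm)

theorem addE_comm {U : Type*} (M : SimpleGraph U) (a b : U) : addE M a b = addE M b a := by
  ext x y
  exact ⟨fun h => h.imp id fun h => ⟨h.1, h.2.symm⟩, fun h => h.imp id fun h => ⟨h.1, h.2.symm⟩⟩

/-- Adding an edge between two neighbours of a vertex of degree three of a planar graph. -/
theorem IsPlanar.addE [Finite W] {H : SimpleGraph W} (h : IsPlanar H) {r p q s : W} (hpq : p ≠ q)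
    (hps : p ≠ s) (hqs : q ≠ s) (hr : ∀ x, H.Adj r x ↔ x = p ∨ x = q ∨ x = s) :
    IsPlanar (addE H p q) := by
  classical
  by_cases hn : H.Adj p q
  · have : MP_5854e1_co.addE H p q = H := by
      ext x y
      constructor
      · rintro (h | ⟨-, ⟨rfl, rfl⟩ | ⟨rfl, rfl⟩⟩)
        · exact h
        · exact hn
        · exact hn.symm
      · exact Or.inl
    rw [this]
    exact h
  · obtain ⟨rot, hrot, h0⟩ := h.defect_eq
    have hid : IsCover H H id := fun x => ⟨fun _ h => h, fun _ _ _ _ h => h, fun y h => ⟨y, h, rfl⟩⟩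
    have hfst : ∀ x, (rot x).fst = x.fst := fun x =>
      (hrot _ _).1 (sameCycle_apply_left.2 (SameCycle.refl _ _))
    set d1 : H.Dart := ⟨(r, p), (hr p).2 (Or.inl rfl)⟩ with hd1
    set d2 : H.Dart := ⟨(r, q), (hr q).2 (Or.inr (Or.inl rfl))⟩ with hd2
    obtain ⟨h3, h4⟩ := rot_three hid hrot hpq hps hqs hr d1 rfl
    have h5 : rot d1 ≠ d1 := fun h => h4 (by rw [h, h])
    have f1 : (rot d1).fst = r := hfst d1
    have f2 : (rot (rot d1)).fst = r := (hfst _).trans f1
    have v1 := (hr (rot d1).snd).1 (by have := (rot d1).adj; rw [f1] at this; exact this)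
    have v2 := (hr (rot (rot d1)).snd).1 (by have := (rot (rot d1)).adj; rw [f2] at this; exact this)
    have hne : ∀ x : H.Dart, x.fst = r → x.snd = p → x = d1 := fun x h1 h2 =>
      SimpleGraph.Dart.ext _ _ (Prod.ext h1 h2)
    have hne2 : ∀ x : H.Dart, x.fst = r → x.snd = q → x = d2 := fun x h1 h2 =>
      SimpleGraph.Dart.ext _ _ (Prod.ext h1 h2)
    rcases v1 with v1 | v1 | v1
    · exact absurd (hne _ f1 v1) h5
    · exact isPlanar_addE_aux hrot h0 (hne2 _ f1 v1) hpq hn
    · rcases v2 with v2 | v2 | v2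
      · exact absurd (hne _ f2 v2) h4
      · have h6 : rot d2 = d1 := by rw [← hne2 _ f2 v2, h3]
        rw [addE_comm]
        exact isPlanar_addE_aux hrot h0 h6 hpq.symm (fun h => hn h.symm)
      · exfalso
        have h6 : rot (rot d1) = rot d1 :=
          SimpleGraph.Dart.ext _ _ (Prod.ext (f2.trans f1.symm) (v2.trans v1.symm))
        exact h5 (rot.injective h6)

end graph

section cover

universe u

variable {W : Type*} {U : Type u}

/-- `H` with the edges over `ab` next to the vertices over `v` which lie in `S`. -/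
def keepH (H : SimpleGraph W) (φ : W → U) (v a b : U) (S : Set W) : SimpleGraph W where
  Adj x y := H.Adj x y ∨ (x ≠ y ∧ ((φ x = a ∧ φ y = b) ∨ (φ x = b ∧ φ y = a)) ∧
    ∃ p ∈ S, φ p = v ∧ H.Adj p x ∧ H.Adj p y)
  symm := ⟨fun _ _ h => h.elim (fun h => Or.inl h.symm)
    (fun ⟨h, h1, p, h2, h3, h4, h5⟩ => Or.inr ⟨h.symm, h1.elim (fun h => Or.inr ⟨h.2, h.1⟩)
      (fun h => Or.inl ⟨h.2, h.1⟩), p, h2, h3, h5, h4⟩)⟩
  loopless := ⟨fun _ h => h.elim (fun h => h.ne rfl) (fun h => h.1 rfl)⟩

variable {H : SimpleGraph W} {G : SimpleGraph U} {φ : W → U} {v a b c : U}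

theorem IsCover.keepH (hφ : IsCover H G φ) (ha : G.Adj v a) (hb : G.Adj v b) (hab : a ≠ b)
    (hn : ¬ G.Adj a b) : IsCover (keepH H φ v a b Set.univ) (addE G a b) φ := by
  have key : ∀ x y z : W, φ x = a ∧ φ y = b ∨ φ x = b ∧ φ y = a → (∃ p ∈ (Set.univ : Set W),
      φ p = v ∧ H.Adj p x ∧ H.Adj p y) → (φ x = a ∧ φ z = b ∨ φ x = b ∧ φ z = a) →
      (∃ p ∈ (Set.univ : Set W), φ p = v ∧ H.Adj p x ∧ H.Adj p z) → y = z := by
    rintro x y z h1 ⟨p, -, h2, h3, h4⟩ h5 ⟨q, -, k2, k3, k4⟩
    have hpq : p = q := (hφ x).injOn h3.symm k3.symm (h2.trans k2.symm)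
    subst hpq
    refine (hφ p).injOn h4 k4 ?_
    rcases h1 with h1 | h1 <;> rcases h5 with h5 | h5
    · exact h1.2.trans h5.2.symm
    · exact absurd (h1.1.symm.trans h5.1) hab
    · exact absurd (h5.1.symm.trans h1.1) hab
    · exact h1.2.trans h5.2.symm
  have hno : ∀ x y, H.Adj x y → ¬ (φ x = a ∧ φ y = b ∨ φ x = b ∧ φ y = a) := by
    rintro x y h (⟨h1, h2⟩ | ⟨h1, h2⟩)
    · exact hn (by rw [← h1, ← h2]; exact hφ.adj h)
    · exact hn (by rw [← h1, ← h2]; exact (hφ.adj h).symm)
  intro x
  refine ⟨?_, ?_, ?_⟩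
  · rintro y (h | ⟨h, h1, h2⟩)
    · exact Or.inl (hφ.adj h)
    · refine Or.inr ⟨?_, h1⟩
      rcases h1 with h1 | h1
      · rw [h1.1, h1.2]; exact hab
      · rw [h1.1, h1.2]; exact hab.symm
  · rintro y (h | ⟨h, h1, h2⟩) z (k | ⟨k, k1, k2⟩) hyz
    · exact (hφ x).injOn h k hyz
    · exfalso
      refine hno x y h ?_
      rw [hyz]
      exact k1
    · exfalso
      refine hno x z k ?_
      rw [← hyz]
      exact h1
    · exact key x y z h1 h2 k1 k2
  · rintro t (h | ⟨h, h1⟩)
    · obtain ⟨y, hy, rfl⟩ := (hφ x).surjOn h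
      exact ⟨y, Or.inl hy, rfl⟩
    · have h2 : G.Adj v (φ x) ∧ G.Adj v t := by
        rcases h1 with h1 | h1
        · rw [h1.1, h1.2]; exact ⟨ha, hb⟩
        · rw [h1.1, h1.2]; exact ⟨hb, ha⟩
      obtain ⟨p, hp, hp2⟩ := (hφ x).surjOn h2.1.symm
      have h4 : t ∈ G.neighborSet (φ p) := by rw [hp2]; exact h2.2
      obtain ⟨y, hy, rfl⟩ := (hφ p).surjOn h4
      exact ⟨y, Or.inr ⟨fun h5 => h (by rw [h5]), h1, p, Set.mem_univ _, hp2, hp.symm, hy⟩, rfl⟩

theorem isPlanar_keepH [Finite W] (hφ : IsCover H G φ) (hab : a ≠ b) (hac : a ≠ c)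
    (hbc : b ≠ c) (hv : ∀ x, G.Adj v x ↔ x = a ∨ x = b ∨ x = c) (h : IsPlanar H) (S : Set W) :
    IsPlanar (keepH H φ v a b S) := by
  classical
  have hva : v ≠ a := ((hv a).2 (Or.inl rfl)).ne
  have hvb : v ≠ b := ((hv b).2 (Or.inr (Or.inl rfl))).ne
  refine Set.Finite.induction_on (motive := fun S _ => IsPlanar (keepH H φ v a b S)) S
    (Set.toFinite S) ?_ ?_
  · refine h.mono ?_
    rintro x y (h | ⟨-, -, p, hp, -⟩)
    · exact h
    · exact absurd hp (Set.notMem_empty _)
  · intro r T hr _ ih
    by_cases hrv : φ r = v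
    · have hex : ∀ t, G.Adj v t → ∃ y, H.Adj r y ∧ φ y = t := by
        intro t ht
        rw [← hrv] at ht
        obtain ⟨y, hy, hy2⟩ := (hφ r).surjOn ht
        exact ⟨y, hy, hy2⟩
      obtain ⟨p, hp, hp2⟩ := hex a ((hv a).2 (Or.inl rfl))
      obtain ⟨q, hq, hq2⟩ := hex b ((hv b).2 (Or.inr (Or.inl rfl)))
      obtain ⟨s, hs, hs2⟩ := hex c ((hv c).2 (Or.inr (Or.inr rfl)))
      have hpq : p ≠ q := fun h => hab (by rw [← hp2, ← hq2, h])
      have hps : p ≠ s := fun h => hac (by rw [← hp2, ← hs2, h])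
      have hqs : q ≠ s := fun h => hbc (by rw [← hq2, ← hs2, h])
      have hnb : ∀ x, H.Adj r x → x = p ∨ x = q ∨ x = s := by
        intro x hx
        have h1 := hφ.adj hx
        rw [hrv, hv] at h1
        rcases h1 with h1 | h1 | h1
        · exact Or.inl ((hφ r).injOn hx hp (h1.trans hp2.symm))
        · exact Or.inr (Or.inl ((hφ r).injOn hx hq (h1.trans hq2.symm)))
        · exact Or.inr (Or.inr ((hφ r).injOn hx hs (h1.trans hs2.symm)))
      have hadj : ∀ x, (keepH H φ v a b T).Adj r x ↔ x = p ∨ x = q ∨ x = s := by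
        intro x
        constructor
        · rintro (h | ⟨-, h1, -⟩)
          · exact hnb x h
          · rw [hrv] at h1
            rcases h1 with h1 | h1
            · exact absurd h1.1 hva
            · exact absurd h1.1 hvb
        · rintro (rfl | rfl | rfl)
          · exact Or.inl hp
          · exact Or.inl hq
          · exact Or.inl hs
      refine (ih.addE hpq hps hqs hadj).mono ?_
      rintro x y (h | ⟨h, h1, t, ht, h3, h4, h5⟩)
      · exact Or.inl (Or.inl h)
      · rcases Set.mem_insert_iff.1 ht with rfl | ht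
        · refine Or.inr ⟨h, ?_⟩
          rcases h1 with h1 | h1
          · exact Or.inl ⟨(hφ t).injOn h4 hp (h1.1.trans hp2.symm),
              (hφ t).injOn h5 hq (h1.2.trans hq2.symm)⟩
          · exact Or.inr ⟨(hφ t).injOn h4 hq (h1.1.trans hq2.symm),
              (hφ t).injOn h5 hp (h1.2.trans hp2.symm)⟩
        · exact Or.inl (Or.inr ⟨h, h1, t, ht, h3, h4, h5⟩)
    · refine ih.mono ?_
      rintro x y (h | ⟨h, h1, t, ht, h3, h4, h5⟩)
      · exact Or.inl h
      · rcases Set.mem_insert_iff.1 ht with rfl | ht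
        · exact absurd h3 hrv
        · exact Or.inr ⟨h, h1, t, ht, h3, h4, h5⟩

/-- **A finite planar cover of `G` gives one of `G + ab` if `a`, `b` are two of the three neighbours
of a vertex `v`.** -/
theorem HasPlanarCover.keep {G : SimpleGraph U} (h : HasPlanarCover G) (v a b c : U) (hab : a ≠ b)
    (hac : a ≠ c) (hbc : b ≠ c) (hv : ∀ x, G.Adj v x ↔ x = a ∨ x = b ∨ x = c) :
    HasPlanarCover (addE G a b) := by
  by_cases hn : G.Adj a b
  · refine h.mono ?_
    rintro x y (h | ⟨-, ⟨rfl, rfl⟩ | ⟨rfl, rfl⟩⟩)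
    · exact h
    · exact hn
    · exact hn.symm
  · obtain ⟨n, H, φ, hs, hφ, hpl⟩ := h
    exact ⟨n, MP_5854e1_co.keepH H φ v a b Set.univ, φ, hs,
      hφ.keepH ((hv a).2 (Or.inl rfl)) ((hv b).2 (Or.inr (Or.inl rfl))) hab hn,
      isPlanar_keepH hφ hab hac hbc hv hpl Set.univ⟩

end cover

end Pool.Agent.Lib.MP_5854e1_co
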