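import Pool.Agent.Lib.MP_5854e1_co.M2Tab

/-!
# The windows of three strips are correct: shapes 16 to 22
-/

set_option autoImplicit false

namespace Pool.Agent.Lib.MP_5854e1_co

theorem m2Chk_c : rAllN (fun k => rAll (m2Chk (Nat.add k (nat_lit 16)))
    (optI (Nat.add k (nat_lit 16)))) 7 = true := by
  decide +kernel

end Pool.Agent.Lib.MP_5854e1_co
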