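import Pool.Agent.Lib.MP_5854e1_co.M2ChkA
import Pool.Agent.Lib.MP_5854e1_co.M2ChkB
import Pool.Agent.Lib.MP_5854e1_co.M2ChkC
import Pool.Agent.Lib.MP_5854e1_co.M2ChkD
import Pool.Agent.Lib.MP_5854e1_co.M2ChkE
import Pool.Agent.Lib.MP_5854e1_co.M2ChkF

/-!
# Windows of three strips: soundness
-/

set_option autoImplicit false

open Equiv Equiv.Perm

namespace Pool.Agent.Lib.MP_5854e1_co

open Model24 (Kind)

theorem m2Chk_all {k y : ℕ} (hk : k < 101) (hy : y ∈ optI k) : m2Chk k y = true := by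
  have key : ∀ a n : ℕ, rAllN (fun k => rAll (m2Chk (Nat.add k a)) (optI (Nat.add k a))) n = true →
      a ≤ k → k < a + n → m2Chk k y = true := by
    intro a n h h1 h2
    have h3 := rAllN_iff.1 h (k - a) (by omega)
    have h4 : Nat.add (k - a) a = k := Nat.sub_add_cancel h1
    rw [h4] at h3
    exact rAll_iff.1 h3 y hy
  rcases Nat.lt_or_ge k 2 with h | h
  · exact key 0 2 m2Chk_a (by omega) (by omega)
  rcases Nat.lt_or_ge k 16 with h' | h'
  · exact key 2 14 m2Chk_b (by omega) (by omega)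
  rcases Nat.lt_or_ge k 23 with h' | h'
  · exact key 16 7 m2Chk_c (by omega) (by omega)
  rcases Nat.lt_or_ge k 42 with h' | h'
  · exact key 23 19 m2Chk_d (by omega) (by omega)
  rcases Nat.lt_or_ge k 73 with h' | h'
  · exact key 42 31 m2Chk_e (by omega) (by omega)
  · exact key 73 28 m2Chk_f (by omega) (by omega)

theorem fst_ne_of_mem : ∀ p ∈ allLab, p.1 ≠ 0 := by decide

/-- The labels of a strip are valid. -/
structure StripOK (s : Strip) : Prop where
  len : s.2.length ≤ 4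
  fst : s.1 ∈ allLab
  snd : ∀ q ∈ s.2, q.2 ∈ allLab

theorem StripOK.own {s : Strip} (h : StripOK s) : ∀ q ∈ ownToks s, q.2.1 ≠ 0 := by
  intro q hq
  obtain ⟨r, hr, rfl⟩ := List.mem_map.1 hq
  exact fst_ne_of_mem _ (h.snd r hr)

theorem StripOK.length_own {s : Strip} (h : StripOK s) : (ownToks s).length ≤ 4 := by
  unfold ownToks
  rw [List.length_map]
  exact h.len

theorem fRun_strip {s : Strip} (hs : StripOK s) {σ τ : Sc} (hσ : σ.Bdd) {κ : Kind}
    (h : scStrip σ κ s = some τ) : fRun 5 (encS σ) (pkT (stripToks κ s)) = encS τ := by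
  refine fRun_eq ?_ hσ ?_ h
  · unfold stripToks
    rw [List.length_cons]
    have := hs.length_own
    omega
  · intro q hq
    rcases List.mem_cons.1 hq with rfl | hq
    · exact fst_ne_of_mem _ hs.fst
    · exact hs.own q hq

theorem fRun_start {s : Strip} (hs : StripOK s) {σ : Sc} (h : scStart s = some σ) :
    fRun 4 (encS (scInit s.1)) (pkT (ownToks s)) = encS σ :=
  fRun_eq hs.length_own (bdd_scInit _) hs.own h

theorem StripOK.relS {s : Strip} (h : StripOK s) (p : Lb) : StripOK (relS (nrm p) s) where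
  len := by
    rw [relS_length]
    exact h.len
  fst := SMap.rotL_mem_allLab _ _ h.fst
  snd := by
    intro q hq
    obtain ⟨r, hr, rfl⟩ := List.mem_map.1 hq
    exact SMap.rotL_mem_allLab _ _ (h.snd r hr)

theorem sA_eq {k q : ℕ} (hk : k < 101) (hq : q < 24) :
    sA k q = pkT (stripToks Kind.P (relS (nrm (invL (lbl q))) (shp k))) :=
  eq_of_beq (List.all_eq_true.1 (List.all_eq_true.1 sA_spec k (List.mem_range.2 hk)) q
    (List.mem_range.2 hq))

theorem oS_eq {k : ℕ} (hk : k < 101) : oS k = (opt k).zipIdx.map fun t =>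
    t.2 + 512 * (t.1 % 3 + sA (t.1 / 72) (t.1 / 3 % 24)) :=
  eq_of_beq (List.all_eq_true.1 oS_spec k (List.mem_range.2 hk))

theorem invL_invL (p : Lb) : nrm (invL (invL p)) = nrm p := by
  rw [← nrm_inv, ← nrm_inv, inv_inv]

theorem kc_add_pkT (κ : Kind) (s : Strip) :
    kc κ + pkT (stripToks Kind.P s) = pkT (stripToks κ s) := by
  have h : kc κ = kcd κ := by cases κ <;> rfl
  show kc κ + (tkC Kind.P s.1 + 256 * pkT (ownToks s)) = tkC κ s.1 + 256 * pkT (ownToks s)
  rw [h]
  show kcd κ + (0 + 4 * s.1.1.val + 32 * s.1.2.val + 256 * pkT (ownToks s)) =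
    kcd κ + 4 * s.1.1.val + 32 * s.1.2.val + 256 * pkT (ownToks s)
  omega

theorem pkT_div (s : Strip) : pkT (stripToks Kind.P s) / 256 = pkT (ownToks s) := by
  have h1 := s.1.1.isLt
  have h2 := s.1.2.isLt
  show (0 + 4 * s.1.1.val + 32 * s.1.2.val + 256 * pkT (ownToks s)) / 256 = _
  omega

namespace SMap

variable {F : Type*} (T : SMap F)

theorem stripOK (d : F) : StripOK (T.S d) := ⟨T.len_le d, T.lab_mem d, T.labs_mem d⟩

theorem stripOK_shp (d : F) : StripOK (shp (T.kx d)) := by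
  rw [shp_kx]
  exact (T.stripOK d).relS _

theorem winS_cons {s t : Strip} {κ : Kind} {l : List (Kind × Strip)}
    (h : winS s ((κ, t) :: l) = true) : ∃ σ τ, scStart s = some σ ∧ scStrip σ κ t = some τ ∧
      (runS τ l).isSome = true := by
  unfold winS at h
  cases h1 : scStart s with
  | none => rw [h1] at h; exact absurd h Bool.false_ne_true
  | some σ =>
    rw [h1] at h
    simp only [runS] at h
    cases h2 : scStrip σ κ t with
    | none => rw [h2] at h; exact absurd h Bool.false_ne_true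
    | some τ =>
      rw [h2] at h
      exact ⟨σ, τ, rfl, h2, h⟩

theorem relS_frm_next (d e : F) :
    relS (T.frm d) (T.S e) = relS (nrm (invL (T.rlb d e))) (shp (T.kx e)) := by
  rw [shp_kx]
  unfold shape
  rw [T.frm_eq d e, ← relS_mul, ← mul_assoc, ← nrm_inv, inv_mul_cancel, one_mul]

/-- **Windows of three strips.** -/
theorem m2_ox (d : F) : m2 (T.kx d) (T.ox d) (T.ox (T.N d)) = true := by
  have hw := T.winS_cw (T.isLabAut_frm (T.N d)) d (j := 2) (by have := T.three d; omega)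
  have h2 : relL (T.frm (T.N d)) (T.cw d 2) = [(T.K (T.N d), shp (T.kx (T.N d))),
      (T.K (T.N (T.N d)), relS (nrm (invL (T.rlb (T.N d) (T.N (T.N d)))))
        (shp (T.kx (T.N (T.N d)))))] := by
    rw [← relS_frm_next, shp_kx]
    rfl
  rw [h2, relS_frm, ← shp_kx] at hw
  obtain ⟨σ, τ, h3, h4, h5⟩ := winS_cons hw
  simp only [runS] at h5
  cases h6 : scStrip τ (T.K (T.N (T.N d))) (relS (nrm (invL (T.rlb (T.N d) (T.N (T.N d)))))
      (shp (T.kx (T.N (T.N d))))) with
  | none => rw [h6] at h5; exact absurd h5 Bool.false_ne_true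
  | some ρ =>
  -- the bounds
  have hσ : σ.Bdd := bdd_scRun (bdd_scInit _) h3
  have hτ : τ.Bdd := bdd_scRun hσ h4
  -- the state after two strips
  have hp := T.lx_lt d (T.N d)
  have hi : rotC (T.lx d (T.N d)) 0 = lc (invL (T.rlb d (T.N d))) := by
    rw [rotC_eq _ hp 0 (by norm_num), lbl_lx]
    rfl
  have hmem : invL (T.rlb d (T.N d)) ∈ allLab := by
    have h0 : (1, 3) ∈ allLab := by decide
    exact rotL_mem_allLab _ _ h0
  have hlt : lc (invL (T.rlb d (T.N d))) < 24 := lc_lt _ hmem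
  have hst : stA (T.kx d) (T.oc d) = encS τ := by
    have e0 : stA (T.kx d) (T.oc d) =
      fRun 5 (fRun 4 (iA (rotC (T.oc d / 3 % 24) 0)) (sA (T.kx d) (rotC (T.oc d / 3 % 24) 0) / 256))
        (T.oc d % 3 + sA (T.oc d / 72) 0) := rfl
    rw [e0, oc_q, oc_κ, oc_k, hi, iA_spec _ hlt, sA_eq (T.kx_lt d) hlt, lbl_lc _ hmem, invL_invL,
      pkT_div, sA_eq (T.kx_lt (T.N d)) (by norm_num)]
    have e1 : nrm (invL (lbl 0)) = 1 := by
      have : ∀ x, rotF (invL (lbl 0)) x = x := by decide +kernel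
      ext x
      exact congrArg Fin.val (this x)
    rw [e1, relS_one, kc_add_pkT]
    have e2 : invL (T.rlb d (T.N d)) = (relS (nrm (T.rlb d (T.N d))) (shp (T.kx d))).1 := by
      rw [shp_kx]
      show _ = relLb (nrm (T.rlb d (T.N d))) (T.shape d).1
      rw [shape_fst]
      rfl
    rw [e2, fRun_start ((T.stripOK_shp d).relS _) h3, fRun_strip (T.stripOK_shp (T.N d)) hσ h4]
  -- the entries
  have hy : T.ox d + 512 * T.oc d ∈ optI (T.kx d) := by
    rw [optI_eq (T.kx_lt d), List.mem_map]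
    refine ⟨(T.oc d, T.ox d), ?_, rfl⟩
    rw [List.mk_mem_zipIdx_iff_getElem?, List.getElem?_eq_getElem (T.ox_lt_length d), opt_ox]
  have hz : T.ox (T.N d) + 512 * (T.oc (T.N d) % 3 + sA (T.oc (T.N d) / 72)
      (T.oc (T.N d) / 3 % 24)) ∈ oS (T.kx (T.N d)) := by
    rw [oS_eq (T.kx_lt (T.N d)), List.mem_map]
    refine ⟨(T.oc (T.N d), T.ox (T.N d)), ?_, rfl⟩
    rw [List.mk_mem_zipIdx_iff_getElem?, List.getElem?_eq_getElem (T.ox_lt_length (T.N d)), opt_ox]
  have hc := m2Chk_all (T.kx_lt d) hy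
  have ho := T.ox_lt d
  have ho' := T.ox_lt (T.N d)
  unfold m2Chk at hc
  have y1 : Nat.div (T.ox d + 512 * T.oc d) 512 = T.oc d := by
    show (T.ox d + 512 * T.oc d) / 512 = _
    omega
  have y2 : Nat.mod (T.ox d + 512 * T.oc d) 512 = T.ox d := by
    show (T.ox d + 512 * T.oc d) % 512 = _
    omega
  have y3 : Nat.div (T.oc d) 72 = T.kx (T.N d) := T.oc_k d
  rw [y1, y2, y3, hst] at hc
  have h7 := rAll_iff.1 hc _ hz
  set w := T.oc (T.N d) % 3 + sA (T.oc (T.N d) / 72) (T.oc (T.N d) / 3 % 24) with hw'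
  have z1 : Nat.div (T.ox (T.N d) + 512 * w) 512 = w := by
    show (T.ox (T.N d) + 512 * w) / 512 = _
    omega
  have z2 : Nat.mod (T.ox (T.N d) + 512 * w) 512 = T.ox (T.N d) := by
    show (T.ox (T.N d) + 512 * w) % 512 = _
    omega
  rw [z1, z2] at h7
  have h8 : w = pkT (stripToks (T.K (T.N (T.N d))) (relS (nrm (invL (T.rlb (T.N d)
      (T.N (T.N d))))) (shp (T.kx (T.N (T.N d)))))) := by
    rw [hw', oc_κ, oc_k, oc_q, sA_eq (T.kx_lt _) (T.lx_lt _ _), lbl_lx, kc_add_pkT]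
  rw [h8, fRun_strip ((T.stripOK_shp (T.N (T.N d))).relS _) hτ h6] at h7
  have h9 : Nat.beq (encS ρ) 0 = false := rfl
  rw [h9] at h7
  exact h7

/-- **Far compatibility.** The strip before the far end of `d` on a triangle. -/
theorem m2_far {d : F} (h : T.face^[3] (T.N d) = T.N d) :
    m2 (T.kx (T.I (T.N (T.I (T.N d))))) (T.ox (T.I (T.N (T.I (T.N d))))) (T.ox (T.I d)) = true := by
  have h1 := T.m2_ox (T.I (T.N (T.I (T.N d))))
  rw [T.N_third h] at h1
  exact h1

end SMap

end Pool.Agent.Lib.MP_5854e1_co
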