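import Pool.Agent.Lib.MP_5854e1_co.RngB
import Pool.Agent.Lib.MP_5854e1_co.AntiMain

/-!
# The theorem from the checks of a certificate, with slack
-/

set_option autoImplicit false

open Equiv Equiv.Perm

namespace Pool.Agent.Lib.MP_5854e1_co

open Finset PB CE CE.Cell

universe u

/-- The test `rg` of a cell and a value is sound: the value is at most the share of the cell in the
slacks around it. -/
def Tabs.RgOK (c : Tabs) (rg : Pth → ℕ → Bool) : Prop :=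
  ∀ {F : Type u} (T : SMap F) (d : F) (m : ℕ), rg (T.pthO d) m = true →
    6 * (m : ℤ) ≤ ∑ i ∈ range (Function.minimalPeriod T.N d),
      (2 * T.slT c (T.N^[i + 1] d) + 3 * T.slR c (T.N^[i + 1] d))

/-- **The bound from the checks.** -/
theorem SMap.bound_mainR {c : Tabs} {tl : ℕ → ℕ → ℕ} {vx : ℕ → ℕ → ℕ → ℕ → ℕ → ℕ → ℕ}
    {R : ℕ → ℕ → Rw Blk} {Pn Rv : ℕ → ℕ → ℕ} {rg : Pth → ℕ → Bool} (h : c.OKR)
    (hrg : Tabs.RgOK.{u} c rg)
    (hclo : ∀ k0 < 101, cloK R nl Pn Rv k0 = true)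
    (htok : rAllN (tokChk c.tr tl) 101 = true) (hsr : SrOK.{u} R nl Pn (evl c tl vx rg))
    {F : Type u} [Finite F] (T : SMap F)
    (hm : ∀ T : SMap F, c.MapOK tl vx R Pn Rv T) (hr : ∀ T : SMap F, c.MapR T) :
    T.Bound (1 - 24 * c.α / (12 * c.u : ℕ)) := by
  refine T.bound_of_slack h hr fun T d hk hpos => ?_
  obtain ⟨m, h1, h2⟩ := search_sum hclo htok hsr T (hm T).hnd (hm T).hent (hm T).hvx d hk hpos
  have h3 : 6 * (m : ℤ) ≤ ∑ i ∈ range (Function.minimalPeriod T.N d),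
      (2 * T.slT c (T.N^[i + 1] d) + 3 * T.slR c (T.N^[i + 1] d)) := by
    rcases h2 with rfl | h2
    · rw [Nat.cast_zero, mul_zero]
      refine Finset.sum_nonneg fun i _ => ?_
      have h4 := T.slT_nonneg h hr (T.N^[i + 1] d)
      have h5 := T.slR_nonneg h hr (T.N^[i + 1] d)
      linarith
    · exact hrg T d m h2
  linarith

section cover

variable {W : Type u} {H : SimpleGraph W} {φ : W → Fin 7} [Finite W]

/-- **The number of sheets from the checks.** -/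
theorem sheets_mainR {c : Tabs} {tl : ℕ → ℕ → ℕ} {vx : ℕ → ℕ → ℕ → ℕ → ℕ → ℕ → ℕ}
    {R : ℕ → ℕ → Rw Blk} {Pn Rv : ℕ → ℕ → ℕ} {rg : Pth → ℕ → Bool} (h : c.OKR)
    (hrg : Tabs.RgOK.{u} c rg)
    (hclo : ∀ k0 < 101, cloK R nl Pn Rv k0 = true)
    (htok : rAllN (tokChk c.tr tl) 101 = true) (hsr : SrOK.{u} R nl Pn (SMap.evl c tl vx rg))
    (hm : ∀ (F : Type u) (T : SMap F), c.MapOK tl vx R Pn Rv T)
    (hr : ∀ (F : Type u) (T : SMap F), c.MapR T)
    [Nonempty W] (hφ : IsCover H K1222 φ) (hH : IsPlanar H) :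
    (2 : ℚ) ≤ (1 - 24 * c.α / (12 * c.u : ℕ)) * fib φ 0 :=
  two_le_of_bound (fun F _ T => T.bound_mainR h hrg hclo htok hsr (hm F) (hr F)) hφ hH

end cover

namespace AP

variable {P : AP} {SP : ℕ → ℕ → ℕ} {t tw zt rt t4 : DT} {tr m q5 : ℕ → ℕ → ℕ} {zm t0 t1 : ℕ}

/-- The table `sp` from its vectors. -/
noncomputable def spv (SP : ℕ → ℕ → ℕ) (k o s : ℕ) : ℕ := fd0 (SP k o) (ln k o s)

/-- **The tables of the values and the maps of strips.** -/
theorem mapR {Rv : ℕ → ℕ → ℕ} (h : P.Chk Rv) (hp : P.psiC = true) (hs : P.Sym)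
    (hW : ∀ k < 101, symVK P.PW k = true) (hS : ∀ k < 101, symVK SP k = true)
    {F : Type*} (T : SMap F) :
    (P.toTabs (spv SP) t tw zt rt t4 tr m q5 zm t0 t1).MapR T := by
  have h0 := mapOK (sp := spv SP) (t := t) (tw := tw) (zt := zt) (rt := rt) (t4 := t4) (tr := tr)
    (m := m) (q5 := q5) (zm := zm) (t0 := t0) (t1 := t1) h hp hs (tl := tr) T
  exact ⟨h0.anti, h0.hG, h0.need, h0.symV, h0.symN, h0.symG, fun d _ => T.relab_vec hW d,
    fun d _ => T.relab_vec hS d, hs.q⟩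

variable (P SP t tw zt rt t4 tr m q5 zm t0 t1) in
/-- All checks of a certificate; `rg` is the test of the cells with a positive value. -/
structure CertR (Rv tl : ℕ → ℕ → ℕ) (rg : Pth → ℕ → Bool) : Prop where
  ok : (P.toTabs (spv SP) t tw zt rt t4 tr m q5 zm t0 t1).OKR
  chk : P.Chk Rv
  sym : P.Sym
  syW : ∀ k < 101, symVK P.PW k = true
  syS : ∀ k < 101, symVK SP k = true
  psi : P.psiC = true
  tok : rAllN (tokChk tr tl) 101 = true
  rgo : Tabs.RgOK.{u} (P.toTabs (spv SP) t tw zt rt t4 tr m q5 zm t0 t1) rg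
  sr : SrOK.{u} P.R nl P.Pn
    (SMap.evl (P.toTabs (spv SP) t tw zt rt t4 tr m q5 zm t0 t1) tl P.vx rg)

end AP

section cover

variable {W : Type u} {H : SimpleGraph W} {φ : W → Fin 7} [Finite W] {P : AP}
  {SP : ℕ → ℕ → ℕ} {t tw zt rt t4 : DT} {tr m q5 : ℕ → ℕ → ℕ} {zm t0 t1 : ℕ}
  {Rv tl : ℕ → ℕ → ℕ} {rg : Pth → ℕ → Bool}

/-- **The number of sheets from a certificate.** -/
theorem AP.CertR.sheets (h : AP.CertR.{u} P SP t tw zt rt t4 tr m q5 zm t0 t1 Rv tl rg)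
    [Nonempty W] (hφ : IsCover H K1222 φ) (hH : IsPlanar H) :
    (2 : ℚ) ≤ (1 - 24 * P.α / (12 * P.u : ℕ)) * fib φ 0 :=
  sheets_mainR (c := P.toTabs (AP.spv SP) t tw zt rt t4 tr m q5 zm t0 t1) (tl := tl) (vx := P.vx)
    (R := P.R) (Pn := P.Pn) (Rv := Rv) h.ok h.rgo h.chk.clo h.tok h.sr
    (fun _ T => AP.mapOK h.chk h.psi h.sym T)
    (fun _ T => AP.mapR h.chk h.psi h.sym h.syW h.syS T) hφ hH

/-- **No planar cover, from a certificate.** -/
theorem AP.CertR.no_cover (h : AP.CertR.{u} P SP t tw zt rt t4 tr m q5 zm t0 t1 Rv tl rg)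
    (hα : P.u ≤ 2 * P.α) [Nonempty W] (hφ : IsCover H K1222 φ) : ¬ IsPlanar H := by
  intro hH
  have h1 := h.sheets hφ hH
  have hu : (0 : ℚ) < P.u := by exact_mod_cast h.ok.u_pos
  have h2 : (1 : ℚ) - 24 * P.α / (12 * P.u : ℕ) ≤ 0 := by
    have h3 : (P.u : ℚ) ≤ 2 * P.α := by exact_mod_cast hα
    push_cast
    rw [sub_nonpos, le_div_iff₀ (by positivity)]
    linarith
  have h4 : (0 : ℚ) ≤ fib φ 0 := Nat.cast_nonneg _
  nlinarith

end cover

end Pool.Agent.Lib.MP_5854e1_co
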