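import Pool.Agent.Lib.MP_5854e1_co.RngT
import Pool.Agent.Lib.MP_5854e1_co.MainR

/-!
# The theorem from the checks of a certificate, with shares of the slacks
-/

set_option autoImplicit false

open Equiv Equiv.Perm

namespace Pool.Agent.Lib.MP_5854e1_co

open Finset PB CE CE.Cell

universe u

/-- Shares of the slacks: the corner `a` has the share `P` of the slack of its triangle, the strip
`N d` has on the side of `d` the share `Q` of the slack of its region, and a triangle gives the amount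
`s` to the region of one of its sides. -/
structure Tabs.Share (c : Tabs) {F : Type u} (s P Q : SMap F → F → ℤ) : Prop where
  s0 : ∀ (T : SMap F) (a : F), ¬T.Tri a → s T a = 0
  P0 : ∀ (T : SMap F) (a : F), 0 ≤ P T a
  Pb : ∀ (T : SMap F) (a : F), ¬T.Tri a → P T a = 0
  P3 : ∀ (T : SMap F) (a : F), T.Tri a → P T a + P T (T.I (T.N a)) +
    P T (T.I (T.N (T.I (T.N a)))) ≤
      6 * (T.slT c a + (s T a + s T (T.I (T.N a)) + s T (T.I (T.N (T.I (T.N a))))))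
  Pr : ∀ (T : SMap F) (a : F), P T.relab a = P T a
  Q0 : ∀ (T : SMap F) (d : F), 0 ≤ Q T d
  Q2 : ∀ (T : SMap F) (d : F), Q T d + Q T (T.bk d) ≤ 6 * (T.slR c d - (s T d + s T (T.bk d)))
  Qr : ∀ (T : SMap F) (d : F), Q T.relab d = Q T d

/-- The test `rg` of a cell and a value is sound: the value is at most the share of the cell in the
slacks around it. -/
def Tabs.RgS {F : Type u} (P Q : SMap F → F → ℤ) (rg : Pth → ℕ → Bool) : Prop :=
  ∀ (T : SMap F) (d : F) (m : ℕ), rg (T.pthO d) m = true →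
    6 * (m : ℤ) ≤ ∑ i ∈ range (Function.minimalPeriod T.N d),
      (P T (T.N^[i + 1] d) + Q T (T.N^[i + 1] d))

/-- **The bound from the checks.** -/
theorem SMap.bound_mainS {c : Tabs} {tl : ℕ → ℕ → ℕ} {vx : ℕ → ℕ → ℕ → ℕ → ℕ → ℕ → ℕ}
    {R : ℕ → ℕ → Rw Blk} {Pn Rv : ℕ → ℕ → ℕ} {rg : Pth → ℕ → Bool} (h : c.OKB)
    {F : Type u} {s P Q : SMap F → F → ℤ} (hsh : c.Share s P Q) (hrg : Tabs.RgS P Q rg)
    (hclo : ∀ k0 < 101, cloK R nl Pn Rv k0 = true)
    (htok : rAllN (tokChk c.tr tl) 101 = true) (hsr : SrOK.{u} R nl Pn (evl c tl vx rg))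
    [Finite F] (T : SMap F)
    (hm : ∀ T : SMap F, c.MapOK tl vx R Pn Rv T) (hr : ∀ T : SMap F, c.MapR T) :
    T.Bound (1 - 24 * c.α / (12 * c.u : ℕ)) := by
  refine T.bound_of_share h hr s P Q hsh.s0 hsh.P0 hsh.Pb hsh.P3 hsh.Pr hsh.Q0 hsh.Q2 hsh.Qr
    fun T d hk hpos => ?_
  obtain ⟨m, h1, h2⟩ := search_sum hclo htok hsr T (hm T).hnd (hm T).hent (hm T).hvx d hk hpos
  have h3 : 6 * (m : ℤ) ≤ ∑ i ∈ range (Function.minimalPeriod T.N d),
      (P T (T.N^[i + 1] d) + Q T (T.N^[i + 1] d)) := by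
    rcases h2 with rfl | h2
    · rw [Nat.cast_zero, mul_zero]
      refine Finset.sum_nonneg fun i _ => ?_
      have h4 := hsh.P0 T (T.N^[i + 1] d)
      have h5 := hsh.Q0 T (T.N^[i + 1] d)
      linarith
    · exact hrg T d m h2
  linarith

section cover

variable {W : Type u} {H : SimpleGraph W} {φ : W → Fin 7} [Finite W]

/-- **The number of sheets from the checks.** -/
theorem sheets_mainS {c : Tabs} {tl : ℕ → ℕ → ℕ} {vx : ℕ → ℕ → ℕ → ℕ → ℕ → ℕ → ℕ}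
    {R : ℕ → ℕ → Rw Blk} {Pn Rv : ℕ → ℕ → ℕ} {rg : Pth → ℕ → Bool} (h : c.OKB)
    {s P Q : ∀ F : Type u, SMap F → F → ℤ} (hsh : ∀ F : Type u, c.Share (s F) (P F) (Q F))
    (hrg : ∀ F : Type u, Tabs.RgS (P F) (Q F) rg)
    (hclo : ∀ k0 < 101, cloK R nl Pn Rv k0 = true)
    (htok : rAllN (tokChk c.tr tl) 101 = true) (hsr : SrOK.{u} R nl Pn (SMap.evl c tl vx rg))
    (hm : ∀ (F : Type u) (T : SMap F), c.MapOK tl vx R Pn Rv T)
    (hr : ∀ (F : Type u) (T : SMap F), c.MapR T)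
    [Nonempty W] (hφ : IsCover H K1222 φ) (hH : IsPlanar H) :
    (2 : ℚ) ≤ (1 - 24 * c.α / (12 * c.u : ℕ)) * fib φ 0 :=
  two_le_of_bound (fun F _ T => T.bound_mainS h (hsh F) (hrg F) hclo htok hsr (hm F) (hr F)) hφ hH

end cover

namespace AP

variable {P : AP} {SP : ℕ → ℕ → ℕ} {t tw zt rt t4 : DT} {tr m q5 : ℕ → ℕ → ℕ} {zm t0 t1 : ℕ}

variable (P SP t tw zt rt t4 tr m q5 zm t0 t1) in
/-- All checks of a certificate except the closures over the triangles and the regions; `rg` is the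
test of the cells with a positive value, `A` and `Q` are the shares of the slacks. -/
structure CertS (Rv tl : ℕ → ℕ → ℕ) (rg : Pth → ℕ → Bool)
    (s A Q : ∀ F : Type u, SMap F → F → ℤ) : Prop where
  ok : (P.toTabs (spv SP) t tw zt rt t4 tr m q5 zm t0 t1).OKB
  chk : P.Chk Rv
  sym : P.Sym
  syW : ∀ k < 101, symVK P.PW k = true
  syS : ∀ k < 101, symVK SP k = true
  psi : P.psiC = true
  tok : rAllN (tokChk tr tl) 101 = true
  sh : ∀ F : Type u, (∀ T : SMap F, (P.toTabs (spv SP) t tw zt rt t4 tr m q5 zm t0 t1).MapR T) →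
    (P.toTabs (spv SP) t tw zt rt t4 tr m q5 zm t0 t1).Share (s F) (A F) (Q F)
  rgo : ∀ F : Type u, (∀ T : SMap F, (P.toTabs (spv SP) t tw zt rt t4 tr m q5 zm t0 t1).MapR T) →
    Tabs.RgS (A F) (Q F) rg
  sr : SrOK.{u} P.R nl P.Pn
    (SMap.evl (P.toTabs (spv SP) t tw zt rt t4 tr m q5 zm t0 t1) tl P.vx rg)

end AP

section cover

variable {W : Type u} {H : SimpleGraph W} {φ : W → Fin 7} [Finite W] {P : AP}
  {SP : ℕ → ℕ → ℕ} {t tw zt rt t4 : DT} {tr m q5 : ℕ → ℕ → ℕ} {zm t0 t1 : ℕ}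
  {Rv tl : ℕ → ℕ → ℕ} {rg : Pth → ℕ → Bool} {s A Q : ∀ F : Type u, SMap F → F → ℤ}

/-- **The number of sheets from a certificate.** -/
theorem AP.CertS.sheets
    (h : AP.CertS.{u} P SP t tw zt rt t4 tr m q5 zm t0 t1 Rv tl rg s A Q)
    [Nonempty W] (hφ : IsCover H K1222 φ) (hH : IsPlanar H) :
    (2 : ℚ) ≤ (1 - 24 * P.α / (12 * P.u : ℕ)) * fib φ 0 :=
  sheets_mainS (c := P.toTabs (AP.spv SP) t tw zt rt t4 tr m q5 zm t0 t1) (tl := tl) (vx := P.vx)
    (R := P.R) (Pn := P.Pn) (Rv := Rv) h.ok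
    (fun F => h.sh F fun T => AP.mapR h.chk h.psi h.sym h.syW h.syS T)
    (fun F => h.rgo F fun T => AP.mapR h.chk h.psi h.sym h.syW h.syS T) h.chk.clo h.tok h.sr
    (fun _ T => AP.mapOK h.chk h.psi h.sym T)
    (fun _ T => AP.mapR h.chk h.psi h.sym h.syW h.syS T) hφ hH

/-- **No planar cover, from a certificate.** -/
theorem AP.CertS.no_cover
    (h : AP.CertS.{u} P SP t tw zt rt t4 tr m q5 zm t0 t1 Rv tl rg s A Q)
    (hα : P.u ≤ 2 * P.α) [Nonempty W] (hφ : IsCover H K1222 φ) : ¬ IsPlanar H := by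
  intro hH
  have h1 := h.sheets hφ hH
  have hu : (0 : ℚ) < P.u := by exact_mod_cast h.ok.u_pos
  have h2 : (1 : ℚ) - 24 * P.α / (12 * P.u : ℕ) ≤ 0 := by
    have h3 : (P.u : ℚ) ≤ 2 * P.α := by exact_mod_cast hα
    push_cast
    rw [sub_nonpos, le_div_iff₀ (by positivity)]
    linarith
  have h4 : (0 : ℚ) ≤ fib φ 0 := Nat.cast_nonneg _
  nlinarith

end cover

end Pool.Agent.Lib.MP_5854e1_co
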