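import Pool.Agent.Lib.MP_5854e1_co.MinGraphs

/-!
The one-point union of two complete graphs on five vertices.
-/

set_option autoImplicit false

namespace Pool.Agent.Lib.MP_5854e1_co

abbrev MG34 : SimpleGraph (Fin 9) := ofEdges
  [(0, 1), (0, 5), (0, 6), (0, 8), (1, 5), (1, 6), (1, 8), (2, 3), (2, 4), (2, 7), (2, 8), (3, 4), (3, 7), (3, 8), (4, 7), (4, 8), (5, 6), (5, 8), (6, 8), (7, 8)]

end Pool.Agent.Lib.MP_5854e1_co
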