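import Pool.Agent.Lib.MP_5854e1_co.ToSMap

/-!
# The mirror image of the 24-dart model and of its map of strips
-/

set_option autoImplicit false

open Equiv Equiv.Perm

namespace Pool.Agent.Lib.MP_5854e1_co

open Model24 (Kind)

/-- The mirror image of a strip, with accumulator. -/
def mirAux : Lb → List ((Kind × Kind) × Lb) → List ((Kind × Kind) × Lb) → Strip
  | p, [], acc => (p, acc)
  | p, q :: l, acc => mirAux q.2 l ((q.1, p) :: acc)

/-- The mirror image of a strip: the same strip read backwards on the same side. -/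
def mirS (s : Strip) : Strip := mirAux s.1 s.2 []

namespace Model24

variable {D : Type*} {M : Model24 D}

theorem iterate_mod_24 (i : ℕ) (s : D) : M.nxt^[i % 24] s = M.nxt^[i] s := by
  induction i using Nat.strong_induction_on with
  | _ i ih =>
    rcases Nat.lt_or_ge i 24 with h | h
    · rw [Nat.mod_eq_of_lt h]
    · obtain ⟨j, rfl⟩ := Nat.exists_eq_add_of_le' h
      rw [iterate_add_24, Nat.add_mod_right, ih j (by omega)]

theorem inv_iterate_iterate {i j l : ℕ} (h : (i + l) % 24 = j % 24) (s : D) :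
    (⇑(M.nxt⁻¹))^[i] (M.nxt^[j] s) = M.nxt^[l] s := by
  rw [← iterate_mod_24 j, ← h, iterate_mod_24, Function.iterate_add_apply]
  have h1 : Function.LeftInverse (⇑(M.nxt⁻¹)) (⇑M.nxt) := fun x => by simp
  exact (h1.iterate i) _

/-- The mirror image of the model. -/
def mirror (M : Model24 D) : Model24 D where
  nxt := M.nxt⁻¹
  inv := M.inv
  lab := M.lab
  inv_inv := M.inv_inv
  lab_inv := M.lab_inv
  cell d := by
    obtain ⟨s, k, c, b, hk, hs, hw⟩ := exists_word (M := M) d
    obtain ⟨m, hm, hm1⟩ := IsWord.exists_one hw.c_ne hw.c_inj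
    refine ⟨M.nxt^[4 * m + 3] s, (4 * m + 27 - k) % 24, Nat.mod_lt _ (by norm_num), ?_, ?_,
      fun j => c (m + 5 * j), fun j k => b (m + 5 * j) (3 - k), by simpa using hm1,
      fun j => hw.c_ne _, fun i hi j hj hij => ?_, fun j k hk => hw.b_ne _ _ (by omega),
      fun j k hk => hw.b_adj _ _ (by omega), fun j k hk l hl e => ?_, fun j _ k hk => ?_⟩
    · rw [inv_iterate_iterate (l := k) (by omega), hs]
    · exact inv_iterate_iterate (by omega) s
    · have := hw.c_inj' hij
      omega
    · have := hw.b_inj _ _ (by omega) _ (by omega) e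
      omega
    · show M.lab ((⇑(M.nxt⁻¹))^[4 * j + k] (M.nxt^[4 * m + 3] s)) = _
      rw [inv_iterate_iterate (l := 4 * (m + 5 * j) + (3 - k)) (by omega), hw.word _ _ (by omega)]

theorem mirror_eStart {d : D} : M.mirror.EStart d ↔ M.EEnd d := by
  show M.nxt⁻¹ d = M.inv d ↔ M.nxt (M.inv d) = d
  rw [Equiv.Perm.inv_eq_iff_eq, eq_comm]

theorem mirror_eEnd {d : D} : M.mirror.EEnd d ↔ M.EStart d := by
  show M.nxt⁻¹ (M.inv d) = d ↔ M.nxt d = M.inv d
  rw [Equiv.Perm.inv_eq_iff_eq, eq_comm]

theorem mirror_outer {d : D} : M.mirror.Outer d ↔ M.Outer d := by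
  unfold Outer
  rw [mirror_eStart, mirror_eEnd]
  exact and_comm

theorem mirror_onxt (d : D) : M.mirror.onxt d = M.oprv d := by
  unfold onxt oprv
  by_cases h : M.EEnd (M.nxt⁻¹ d)
  · rw [if_pos h]
    exact if_pos (mirror_eStart.2 h)
  · rw [if_neg h]
    exact if_neg (fun h2 => h (mirror_eStart.1 h2))

theorem mirror_kind {d : D} (hd : M.Outer d) : M.mirror.kind d = M.kind (M.oprv d) := by
  unfold kind
  by_cases h : M.EEnd (M.nxt⁻¹ d)
  · refine (if_pos (mirror_eStart.2 h)).trans ?_
    have h1 : M.oprv d = M.nxt⁻¹ (M.nxt⁻¹ (M.nxt⁻¹ d)) := if_pos h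
    have h2 : M.nxt (M.oprv d) = M.nxt⁻¹ (M.nxt⁻¹ d) := by rw [h1]; simp
    rw [if_pos]
    rw [h2, ← eEnd_nxt_iff]
    simpa using h
  · refine (if_neg (fun h2 => h (mirror_eStart.1 h2))).trans ?_
    have h1 : M.oprv d = M.nxt⁻¹ d := if_neg h
    have h2 : M.nxt (M.oprv d) = d := by rw [h1]; simp
    rw [h2, h1, if_neg hd.1]
    show (if (M.lab (M.nxt⁻¹ d)).1 = (M.lab d).1 then Kind.P else Kind.S) = _
    by_cases h3 : (M.lab (M.nxt⁻¹ d)).1 = (M.lab d).1
    · rw [if_pos h3, if_pos h3.symm]
    · rw [if_neg h3, if_neg (Ne.symm h3)]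

/-- The outer darts of the mirror image. -/
def mo : M.ODart ≃ M.mirror.ODart := Equiv.subtypeEquivRight fun _ => mirror_outer.symm

@[simp] theorem mo_coe (d : M.ODart) : (mo d).1 = d.1 := rfl

theorem onx_mo (d : M.ODart) : M.mirror.onx (mo d) = mo (M.onx⁻¹ d) :=
  Subtype.ext (mirror_onxt d.1)

theorem onx_inv_mo (d : M.ODart) : M.mirror.onx⁻¹ (mo d) = mo (M.onx d) := by
  rw [Equiv.Perm.inv_eq_iff_eq, onx_mo]
  simp

theorem oin_mo (d : M.ODart) : M.mirror.oin (mo d) = mo (M.oin d) := rfl

theorem kind_mo (d : M.ODart) : M.mirror.kind (mo (M.onx d)).1 = M.kind d.1 := by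
  rw [mo_coe, mirror_kind (M.onx d).2, onx_coe, oprv_onxt d.2]

theorem kind_mo' (d : M.ODart) : M.mirror.kind (mo d).1 = M.kind (M.onx⁻¹ d).1 := by
  have := kind_mo (M.onx⁻¹ d)
  rwa [show M.onx (M.onx⁻¹ d) = d by simp] at this

theorem dig_mo {d : M.ODart} : M.mirror.Dig (mo d) ↔ M.Dig (M.onx d) := by
  have h1 : ∀ x : M.ODart, M.mirror.ofc (mo x) = mo (M.onx⁻¹ (M.oin x)) := fun x => by
    rw [ofc_apply, oin_mo, onx_mo]
  rw [dig_onx_iff]
  unfold Dig
  rw [h1, h1, mo.injective.eq_iff, Equiv.Perm.inv_eq_iff_eq]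
  constructor
  · intro h
    have h2 : M.onx⁻¹ (M.oin d) = M.oin (M.onx d) := by rw [← h, oin_oin]
    rw [Equiv.Perm.inv_eq_iff_eq] at h2
    exact h2.symm
  · intro h
    have h2 : M.onx⁻¹ (M.oin d) = M.oin (M.onx d) := by
      rw [Equiv.Perm.inv_eq_iff_eq]
      exact h.symm
    rw [h2, oin_oin]

theorem onx_iterate_mo (x : M.ODart) (i j : ℕ) (h : j ≤ i) :
    M.mirror.onx^[j] (mo (M.onx^[i] x)) = mo (M.onx^[i - j] x) := by
  induction j with
  | zero => rfl
  | succ j ih =>
    rw [Function.iterate_succ_apply', ih (by omega), onx_mo,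
      show i - j = (i - (j + 1)) + 1 by omega, Function.iterate_succ_apply']
    simp

theorem mirAux_runList (n : ℕ) : ∀ (d : M.ODart) (acc : List ((Kind × Kind) × Lb)),
    M.DigRun d n → mirAux (M.lab d.1) (M.runList d n) acc =
      (M.lab (M.onx^[n] d).1, M.mirror.runList (mo (M.onx^[n] d)) n ++ acc) := by
  induction n with
  | zero => intro d acc _; rfl
  | succ n ih =>
    intro d acc h
    rw [runList, mirAux, ih (M.onx d) _ h.tail]
    have e1 : M.onx^[n] (M.onx d) = M.onx^[n + 1] d := rfl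
    rw [e1]
    refine Prod.ext rfl ?_
    show M.mirror.runList (mo (M.onx^[n + 1] d)) n ++ _ =
      M.mirror.runList (mo (M.onx^[n + 1] d)) (n + 1) ++ acc
    rw [runList_snoc, List.append_assoc]
    congr 1
    have e2 : M.mirror.onx^[n] (mo (M.onx^[n + 1] d)) = mo (M.onx d) := by
      rw [onx_iterate_mo _ _ _ (by omega), show n + 1 - n = 1 by omega]
      rfl
    have e3 : M.mirror.onx^[n + 1] (mo (M.onx^[n + 1] d)) = mo d := by
      rw [onx_iterate_mo _ _ _ le_rfl, Nat.sub_self]
      rfl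
    have e4 : M.onx⁻¹ (M.oin d) = M.oin (M.onx d) := by
      rw [Equiv.Perm.inv_eq_iff_eq]
      exact (h.onx_oin (i := 0) (by omega)).symm
    rw [e2, e3, kind_mo, oin_mo, kind_mo', e4]
    rfl

variable [Finite D]

omit [Finite D] in
theorem dig_ist (f : M.FDart) : ¬ M.mirror.Dig (mo (M.oin f.1)) := by
  rw [dig_mo, ← ofc_apply, dig_ofc]
  exact f.2

/-- The first darts of the strips of the mirror image. -/
noncomputable def mf : M.FDart ≃ M.mirror.FDart where
  toFun f := ⟨mo (M.oin (M.ist f).1), dig_ist _⟩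
  invFun g := M.ist ⟨M.oin (mo.symm g.1), fun h => g.2 (by
    rw [dig_oin_iff, ← dig_mo] at h
    simpa using h)⟩
  left_inv f := by
    have h1 : (⟨M.oin (mo.symm (mo (M.oin (M.ist f).1))), fun h => dig_ist (M.ist f) (by
        rw [dig_oin_iff, ← dig_mo] at h
        simpa using h)⟩ : M.FDart) = M.ist f := by
      apply Subtype.ext
      simp
    show M.ist _ = f
    rw [h1, ist_ist]
  right_inv g := by
    apply Subtype.ext
    simp

theorem mf_coe (f : M.FDart) : (mf f).1 = mo (M.oin (M.ist f).1) := rfl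

theorem mf_coe' (f : M.FDart) : (mf f).1 = mo (M.onx^[M.len f - 1] f.1) := by
  rw [mf_coe, ist_coe, oin_oin]

theorem mf_iterate (f : M.FDart) {j : ℕ} (hj : j < M.len f) :
    M.mirror.onx^[j] (mf f).1 = mo (M.onx^[M.len f - 1 - j] f.1) := by
  rw [mf_coe', onx_iterate_mo _ _ _ (by omega)]

theorem mf_iterate_len (f : M.FDart) :
    M.mirror.onx^[M.len f] (mf f).1 = mo (M.onx⁻¹ f.1) := by
  have h := len_pos f
  rw [show M.len f = (M.len f - 1) + 1 by omega, Function.iterate_succ_apply',
    mf_iterate f (by omega), Nat.sub_self, onx_mo]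
  rfl

theorem len_mf (f : M.FDart) : M.mirror.len (mf f) = M.len f := by
  refine rtime_eq (fun d => ¬ M.mirror.Dig d) M.mirror.onx _ (len_pos f) ?_ ?_
  · show ¬ M.mirror.Dig (M.mirror.onx^[M.len f] (mf f).1)
    rw [mf_iterate_len, dig_mo]
    simpa using f.2
  · intro j h0 h
    show ¬ ¬ M.mirror.Dig (M.mirror.onx^[j] (mf f).1)
    rw [mf_iterate f h, dig_mo, ← Function.iterate_succ_apply' M.onx, Nat.succ_eq_add_one, not_not]
    exact dig_of_lt f (by omega) (by omega)

theorem nst_mf (f : M.FDart) : M.mirror.nst (mf f) = mf (M.nst⁻¹ f) := by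
  apply Subtype.ext
  rw [nst_coe, len_mf, mf_iterate_len, mf_coe']
  congr 1
  rw [Equiv.Perm.inv_eq_iff_eq, ← Function.iterate_succ_apply' M.onx, Nat.succ_eq_add_one,
    Nat.sub_add_cancel (len_pos _), ← nst_coe]
  simp

theorem ist_mf (f : M.FDart) : M.mirror.ist (mf f) = mf (M.ist f) := by
  apply Subtype.ext
  have h := len_pos f
  rw [ist_coe, len_mf, mf_iterate f (by omega), Nat.sub_self, mf_coe, ist_ist, oin_mo]
  rfl

theorem strip_mf (f : M.FDart) : M.mirror.strip (mf f) = mirS (M.strip f) := by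
  unfold mirS strip
  rw [mirAux_runList _ _ _ (digRun_strip f), List.append_nil, len_mf, mf_coe']
  rfl

theorem kbef_mf (f : M.FDart) : M.mirror.kbef (mf f) = M.kbef (M.nst f) := by
  unfold kbef
  rw [mf_coe', onx_inv_mo, ← Function.iterate_succ_apply' M.onx, Nat.succ_eq_add_one,
    Nat.sub_add_cancel (len_pos _), ← nst_coe, kind_mo']

end Model24

namespace SMap

variable {F G : Type*}

theorem iterate_conj (σ : Perm F) (e : G ≃ F) (g : G) (i : ℕ) :
    e ((⇑(e.trans (σ.trans e.symm)))^[i] g) = σ^[i] (e g) := by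
  induction i with
  | zero => rfl
  | succ i ih =>
    rw [Function.iterate_succ_apply', Function.iterate_succ_apply', ← ih]
    simp

theorem period_conj (σ : Perm F) (e : G ≃ F) (g : G) :
    Function.minimalPeriod (⇑(e.trans (σ.trans e.symm))) g = Function.minimalPeriod σ (e g) := by
  apply Function.minimalPeriod_eq_minimalPeriod_iff.2
  intro n
  unfold Function.IsPeriodicPt Function.IsFixedPt
  rw [← iterate_conj σ e, e.injective.eq_iff]

/-- A map of strips transported along a bijection. -/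
def transport (T : SMap F) (e : G ≃ F) : SMap G where
  N := e.trans (T.N.trans e.symm)
  I := e.trans (T.I.trans e.symm)
  S g := T.S (e g)
  K g := T.K (e g)
  I_I g := by simp [T.I_I]
  S_I g := by simp [T.S_I]
  lab_mem g := T.lab_mem _
  labs_mem g := T.labs_mem _
  len_le g := T.len_le _
  three g := by
    rw [period_conj]
    exact T.three _
  face_ne g h := by
    have h1 := congrArg e h
    simp only [Equiv.trans_apply, Equiv.apply_symm_apply] at h1
    exact T.face_ne _ h1
  face_face_ne g h := by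
    have h1 := congrArg e h
    simp only [Equiv.trans_apply, Equiv.apply_symm_apply] at h1
    exact T.face_face_ne _ h1
  scan p hp g := by
    simp only [period_conj, iterate_conj]
    exact T.scan p hp (e g)
  scanFrom p hp g := by
    simp only [period_conj, iterate_conj]
    exact T.scanFrom p hp (e g)

theorem transport_N (T : SMap F) (e : G ≃ F) (g : G) : (T.transport e).N g = e.symm (T.N (e g)) :=
  rfl

theorem transport_I (T : SMap F) (e : G ≃ F) (g : G) : (T.transport e).I g = e.symm (T.I (e g)) :=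
  rfl

/-- `T'` is the mirror image of `T`. -/
structure Mir (T T' : SMap F) : Prop where
  N_N : ∀ d, T'.N (T.N d) = d
  I_eq : ∀ d, T'.I d = T.I d
  S_eq : ∀ d, T'.S d = mirS (T.S d)
  K_eq : ∀ d, T'.K d = T.K (T.N d)

theorem mirAux_append (l : List ((Kind × Kind) × Lb)) : ∀ (p : Lb)
    (acc acc' : List ((Kind × Kind) × Lb)), mirAux p l (acc ++ acc') =
      ((mirAux p l acc).1, (mirAux p l acc).2 ++ acc') := by
  induction l with
  | nil => intro p acc acc'; rfl
  | cons q l ih =>
    intro p acc acc'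
    rw [mirAux, mirAux, ← List.cons_append, ih]

theorem mirAux_mirAux (l : List ((Kind × Kind) × Lb)) : ∀ (p : Lb)
    (acc : List ((Kind × Kind) × Lb)), mirS (mirAux p l acc) = mirAux p acc l := by
  induction l with
  | nil => intro p acc; rfl
  | cons q l ih =>
    intro p acc
    rw [mirAux, ih, mirAux]

@[simp] theorem mirS_mirS (s : Strip) : mirS (mirS s) = s := by
  unfold mirS
  exact mirAux_mirAux s.2 s.1 []

namespace Mir

variable {T T' : SMap F} (h : T.Mir T')

include h

theorem N_N' (d : F) : T.N (T'.N d) = d := by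
  apply T'.N.injective
  rw [h.N_N]

theorem N_eq (d : F) : T'.N d = T.N⁻¹ d := by
  rw [eq_comm, Equiv.Perm.inv_eq_iff_eq, h.N_N']

theorem symm : T'.Mir T where
  N_N := h.N_N'
  I_eq d := (h.I_eq d).symm
  S_eq d := by rw [h.S_eq, mirS_mirS]
  K_eq d := by rw [h.K_eq, h.N_N']

end Mir

end SMap

namespace Model24

variable {D : Type*} [Finite D] (M : Model24 D)

/-- The mirror image of the map of strips. -/
noncomputable def mirSMap : SMap M.FDart := M.mirror.toSMap.transport mf

theorem mir_toSMap : M.toSMap.Mir M.mirSMap where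
  N_N f := by
    show mf.symm (M.mirror.nst (mf (M.nst f))) = f
    rw [nst_mf]
    simp
  I_eq f := by
    show mf.symm (M.mirror.ist (mf f)) = M.ist f
    rw [ist_mf]
    simp
  S_eq f := strip_mf f
  K_eq f := kbef_mf f

end Model24

section cover

universe u

variable {W : Type u} {H : SimpleGraph W} {φ : W → Fin 7} [Finite W]

/-- **A bound for the number of sheets**, with the mirror image. -/
theorem two_le_of_bound_mir {v : ℚ}
    (hv : ∀ (F : Type u) [Finite F] (T T' : SMap F), T.Mir T' → T.Bound v)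
    [Nonempty W] (hφ : IsCover H K1222 φ) (hH : IsPlanar H) : 2 ≤ v * fib φ 0 :=
  two_le_of_faces hφ hH fun M => M.face_le_of_bound (hv _ M.toSMap M.mirSMap M.mir_toSMap)

/-- **No planar cover**, with the mirror image. -/
theorem no_cover_of_bound_mir
    (hv : ∀ (F : Type u) [Finite F] (T T' : SMap F), T.Mir T' → T.Bound 0)
    [Nonempty W] (hφ : IsCover H K1222 φ) : ¬ IsPlanar H := by
  intro hH
  have := two_le_of_bound_mir hv hφ hH
  norm_num at this

end cover

end Pool.Agent.Lib.MP_5854e1_co
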