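import Pool.Agent.Lib.MP_5854e1_co.Cover
import Pool.Agent.Lib.MP_5854e1_co.Ret

/-!
# Deleting and contracting edges in maps of genus zero
-/

set_option autoImplicit false

open Equiv Equiv.Perm Relation

namespace Pool.Agent.Lib.MP_5854e1_co

section

variable {D : Type*} [Finite D] [DecidableEq D]

theorem eqvGen_of_le {D : Type*} {r s : D → D → Prop} (h : ∀ x y, r x y → EqvGen s x y) {x y : D}
    (hxy : EqvGen r x y) : EqvGen s x y := by
  induction hxy with
  | rel x y h' => exact h x y h'
  | refl x => exact EqvGen.refl _
  | symm x y _ ih => exact EqvGen.symm _ _ ih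
  | trans x y z _ _ ih1 ih2 => exact EqvGen.trans _ _ _ ih1 ih2

/-- The orbits before and after deleting an edge. -/
theorem orb_delete {α : Perm D} {d e : D} (σ : Perm D) (hα : ∀ x, α (α x) = x) (h1 : α d = e) :
    orb σ α = ncl (fun x y => (σ x = y ∨ cutEdge α d e x = y) ∨ (x = d ∧ y = e)) := by
  have h2 : α e = d := by rw [← h1, hα]
  refine ncl_congr fun x y => ⟨eqvGen_of_le fun x y h => ?_, eqvGen_of_le fun x y h => ?_⟩
  · rcases h with h | h
    · exact EqvGen.rel _ _ (Or.inl (Or.inl h))
    · by_cases hd : x = d
      · subst hd
        exact EqvGen.rel _ _ (Or.inr ⟨rfl, by rw [← h, h1]⟩)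
      · by_cases he : x = e
        · subst he
          rw [h2] at h
          exact EqvGen.symm _ _ (EqvGen.rel _ _ (Or.inr ⟨h.symm, rfl⟩))
        · exact EqvGen.rel _ _ (Or.inl (Or.inr (by rw [cutEdge_of_ne h1 h2 hd he, h])))
  · rcases h with (h | h) | ⟨rfl, rfl⟩
    · exact EqvGen.rel _ _ (Or.inl h)
    · by_cases hd : x = d
      · subst hd
        rw [cutEdge_left h1] at h
        rw [h]
        exact EqvGen.refl _
      · by_cases he : x = e
        · subst he
          rw [cutEdge_right h2] at h
          rw [h]
          exact EqvGen.refl _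
        · rw [cutEdge_of_ne h1 h2 hd he] at h
          exact EqvGen.rel _ _ (Or.inr h)
    · exact EqvGen.rel _ _ (Or.inr h1)

/-- Deleting an edge keeps the genus zero. -/
theorem defect_delete {α : Perm D} {d e : D} (σ : Perm D) (hα : ∀ x, α (α x) = x) (h1 : α d = e)
    (hde : d ≠ e) (h0 : defect σ α = 0) : defect σ (cutEdge α d e) = 0 := by
  have h2 : α e = d := by rw [← h1, hα]
  refine le_antisymm (defect_le_zero _ _ (cutEdge_invol hα h1)) ?_
  rw [← h0]
  have e1 : σ * cutEdge α d e = σ * α * swap d e := by rw [cutEdge_eq h1 h2, mul_assoc]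
  have e2 := cyc_cutEdge hα h1 hde
  have e3 := orb_delete σ hα h1
  unfold defect
  rw [e1, e2]
  by_cases hs : (σ * α).SameCycle d e
  · have e4 := cyc_mul_swap_of_sameCycle hde hs
    have e5 : orb σ (cutEdge α d e) ≤ orb σ α + 1 := by
      rw [e3]
      by_cases h : EqvGen (fun x y => σ x = y ∨ cutEdge α d e x = y) d e
      · rw [ncl_insert_of_rel h]
        exact Nat.le_succ _
      · rw [ncl_insert_of_not_rel h]
        exact le_rfl
    rw [e4]
    push_cast
    omega
  · have e4 := cyc_mul_swap_of_not hs
    have e5 : orb σ (cutEdge α d e) = orb σ α := by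
      rw [e3]
      refine (ncl_insert_of_rel ?_).symm
      have h3 := sameCycle_mul_swap_of_not hs
      rw [← e1] at h3
      refine eqvGen_of_le (fun x y h => ?_) ((eqvGen_iff_sameCycle _ _ _).2 h3)
      rw [Perm.mul_apply] at h
      exact EqvGen.trans _ _ _ (EqvGen.rel _ _ (Or.inr rfl)) (EqvGen.rel _ _ (Or.inl h))
    rw [e5]
    omega

/-- Deleting a set of edges keeps the genus zero. -/
theorem defect_restrict (σ α β : Perm D) (hα : ∀ x, α (α x) = x) (hβ : ∀ x, β (β x) = x)
    (h : ∀ x, β x = x ∨ β x = α x) (h0 : defect σ α = 0) : defect σ β = 0 := by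
  induction hn : Nat.card {x // β x ≠ α x} using Nat.strong_induction_on generalizing α with
  | _ n ih =>
    by_cases hm : ∃ d, β d ≠ α d
    · obtain ⟨d, hd⟩ := hm
      have hd1 : β d = d := (h d).resolve_right hd
      have hde : d ≠ α d := fun hh => hd (by rw [hd1, ← hh])
      have he1 : β (α d) = α d := by
        rcases h (α d) with h1 | h1
        · exact h1
        · rw [hα] at h1
          exfalso
          apply hde
          rw [← hβ (α d), h1, hd1]
      have hinv := cutEdge_invol (d := d) hα rfl
      have hcut : ∀ x, x ≠ d → x ≠ α d → cutEdge α d (α d) x = α x := fun x hx hx' =>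
        cutEdge_of_ne rfl (hα d) hx hx'
      refine ih _ ?_ (cutEdge α d (α d)) hinv ?_ (defect_delete σ hα rfl hde h0) rfl
      · rw [← hn]
        have hss : {x | β x ≠ cutEdge α d (α d) x} ⊂ {x | β x ≠ α x} := by
          constructor
          · intro x hx hx'
            apply hx
            by_cases h1 : x = d
            · subst h1
              exact absurd hx' hd
            · by_cases h2 : x = α d
              · subst h2
                rw [cutEdge_right (hα d), he1]
              · rw [hcut x h1 h2, hx']
          · intro hs
            have : d ∈ {x | β x ≠ α x} := hd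
            exact hs this (by rw [cutEdge_left rfl, hd1])
        exact Set.ncard_lt_ncard hss (Set.toFinite _)
      · intro x
        by_cases h1 : x = d
        · subst h1
          exact Or.inl hd1
        · by_cases h2 : x = α d
          · subst h2
            exact Or.inl he1
          · rw [hcut x h1 h2]
            exact h x
    · push Not at hm
      have : β = α := Equiv.ext hm
      rw [this]
      exact h0

/-- Contracting a set of edges (or deleting them, if they are loops): there is a map of genus zero
whose vertices are the classes of the old vertices connected by these edges. -/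
theorem exists_contract (σ α : Perm D) (hα : ∀ x, α (α x) = x) (h0 : defect σ α = 0) (S : Set D)
    (hS : ∀ x ∈ S, α x ∈ S) :
    ∃ σ' α' : Perm D, (∀ x, α' (α' x) = x) ∧ (∀ x ∈ S, α' x = x) ∧ (∀ x, x ∉ S → α' x = α x) ∧
      defect σ' α' = 0 ∧
      ∀ x y, σ'.SameCycle x y ↔ EqvGen (fun x y => σ x = y ∨ (x ∈ S ∧ α x = y)) x y := by
  induction hn : Nat.card {x // x ∈ S ∧ α x ≠ x} using Nat.strong_induction_on
    generalizing σ α with
  | _ n ih =>
    by_cases hm : ∃ d, d ∈ S ∧ α d ≠ d
    · obtain ⟨d, hdS, hd⟩ := hm
      have hde : d ≠ α d := hd.symm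
      have hinv := cutEdge_invol (d := d) hα rfl
      have hcut : ∀ x, x ≠ d → x ≠ α d → cutEdge α d (α d) x = α x := fun x hx hx' =>
        cutEdge_of_ne rfl (hα d) hx hx'
      have hS' : ∀ x ∈ S, cutEdge α d (α d) x ∈ S := by
        intro x hx
        by_cases h1 : x = d
        · subst h1
          rw [cutEdge_left rfl]
          exact hx
        · by_cases h2 : x = α d
          · subst h2
            rw [cutEdge_right (hα d)]
            exact hx
          · rw [hcut x h1 h2]
            exact hS x hx
      have hcard : Nat.card {x // x ∈ S ∧ cutEdge α d (α d) x ≠ x} < n := by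
        rw [← hn]
        have hss : {x | x ∈ S ∧ cutEdge α d (α d) x ≠ x} ⊂ {x | x ∈ S ∧ α x ≠ x} := by
          constructor
          · rintro x ⟨hx, hx'⟩
            refine ⟨hx, ?_⟩
            have h1 : x ≠ d := by
              rintro rfl
              exact hx' (cutEdge_left rfl)
            have h2 : x ≠ α d := by
              rintro rfl
              exact hx' (cutEdge_right (hα d))
            rwa [hcut x h1 h2] at hx'
          · intro hs
            have : d ∈ {x | x ∈ S ∧ α x ≠ x} := ⟨hdS, hd⟩
            exact (hs this).2 (cutEdge_left rfl)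
        exact Set.ncard_lt_ncard hss (Set.toFinite _)
      -- the new vertex permutation
      obtain ⟨τ, hτ0, hτ⟩ : ∃ τ : Perm D, defect τ (cutEdge α d (α d)) = 0 ∧
          ∀ x y, EqvGen (fun x y => τ x = y ∨ (x ∈ S ∧ cutEdge α d (α d) x = y)) x y ↔
            EqvGen (fun x y => σ x = y ∨ (x ∈ S ∧ α x = y)) x y := by
        have hpair : EqvGen (fun x y => σ x = y ∨ (x ∈ S ∧ α x = y)) d (α d) :=
          EqvGen.rel _ _ (Or.inr ⟨hdS, rfl⟩)
        have hcutrel : ∀ x y, x ∈ S → cutEdge α d (α d) x = y →
            EqvGen (fun x y => σ x = y ∨ (x ∈ S ∧ α x = y)) x y := by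
          intro x y hx h
          by_cases h1 : x = d
          · subst h1
            rw [cutEdge_left rfl] at h
            rw [h]
            exact EqvGen.refl _
          · by_cases h2 : x = α d
            · subst h2
              rw [cutEdge_right (hα d)] at h
              rw [h]
              exact EqvGen.refl _
            · rw [hcut x h1 h2] at h
              exact EqvGen.rel _ _ (Or.inr ⟨hx, h⟩)
        -- relations coming from a permutation with the pair in one class
        have key : ∀ (s : D → D → Prop), EqvGen s d (α d) →
            (∀ x y, x ∈ S → cutEdge α d (α d) x = y → EqvGen s x y) →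
            ∀ x y, x ∈ S → α x = y → EqvGen s x y := by
          intro s hs hc x y hx h
          by_cases h1 : x = d
          · subst h1
            rw [← h]
            exact hs
          · by_cases h2 : x = α d
            · subst h2
              rw [hα] at h
              rw [← h]
              exact EqvGen.symm _ _ hs
            · exact hc x y hx (by rw [hcut x h1 h2, h])
        by_cases hs : σ.SameCycle d (α d)
        · refine ⟨σ, defect_delete σ hα rfl hde h0, fun x y => ⟨eqvGen_of_le fun x y h => ?_,
            eqvGen_of_le fun x y h => ?_⟩⟩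
          · rcases h with h | ⟨h1, h2⟩
            · exact EqvGen.rel _ _ (Or.inl h)
            · exact hcutrel x y h1 h2
          · rcases h with h | ⟨h1, h2⟩
            · exact EqvGen.rel _ _ (Or.inl h)
            · refine key _ ?_ (fun x y hx h => EqvGen.rel _ _ (Or.inr ⟨hx, h⟩)) x y h1 h2
              exact ((eqvGen_iff_sameCycle _ _ _).2 hs).mono fun _ _ => Or.inl
        · refine ⟨σ * swap d (α d), ?_, fun x y => ⟨eqvGen_of_le fun x y h => ?_,
            eqvGen_of_le fun x y h => ?_⟩⟩
          · rw [defect_cutEdge_of_not σ hα rfl hde hs]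
            exact h0
          · rcases h with h | ⟨h1, h2⟩
            · have h3 := eqvGen_swap_pair σ d (α d) x y (EqvGen.rel _ _ (Or.inl h))
              refine eqvGen_of_le (fun a b hab => ?_) h3
              rcases hab with hab | ⟨rfl, rfl⟩
              · exact EqvGen.rel _ _ (Or.inl hab)
              · exact hpair
            · exact hcutrel x y h1 h2
          · have hp : EqvGen (fun x y => (σ * swap d (α d)) x = y ∨
                (x ∈ S ∧ cutEdge α d (α d) x = y)) d (α d) :=
              ((eqvGen_iff_sameCycle _ _ _).2 (sameCycle_mul_swap_of_not hs)).mono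
                fun _ _ => Or.inl
            rcases h with h | ⟨h1, h2⟩
            · have h3 := eqvGen_swap_pair (σ * swap d (α d)) d (α d) x y
                (EqvGen.rel _ _ (Or.inl (by rw [mul_swap_swap]; exact h)))
              refine eqvGen_of_le (fun a b hab => ?_) h3
              rcases hab with hab | ⟨rfl, rfl⟩
              · exact EqvGen.rel _ _ (Or.inl hab)
              · exact hp
            · exact key _ hp (fun x y hx h => EqvGen.rel _ _ (Or.inr ⟨hx, h⟩)) x y h1 h2
      obtain ⟨σ', α', g1, g2, g3, g4, g5⟩ := ih _ hcard τ (cutEdge α d (α d)) hinv hτ0 hS' rfl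
      refine ⟨σ', α', g1, g2, fun x hx => ?_, g4, fun x y => (g5 x y).trans (hτ x y)⟩
      rw [g3 x hx]
      refine hcut x ?_ ?_
      · rintro rfl
        exact hx hdS
      · rintro rfl
        exact hx (hS d hdS)
    · push Not at hm
      refine ⟨σ, α, hα, hm, fun _ _ => rfl, h0, fun x y => ?_⟩
      rw [← eqvGen_iff_sameCycle]
      refine ⟨fun h => h.mono fun _ _ => Or.inl, eqvGen_of_le fun x y h => ?_⟩
      rcases h with h | ⟨h1, h2⟩
      · exact EqvGen.rel _ _ h
      · rw [hm x h1] at h2
        rw [h2]
        exact EqvGen.refl _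

end

end Pool.Agent.Lib.MP_5854e1_co
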