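import Pool.Agent.Lib.MP_5854e1_co.MnrP

/-!
# Planar covers of subgraphs and of contractions
-/

set_option autoImplicit false

open Equiv Equiv.Perm Relation

namespace Pool.Agent.Lib.MP_5854e1_co

variable {W U : Type*}

/-! ### Subgraphs -/

open Classical in
/-- Keep only the darts of the subgraph. -/
noncomputable def subFun (H H' : SimpleGraph W) (d : H.Dart) : H.Dart :=
  if H'.Adj d.fst d.snd then d.symm else d

theorem subFun_of {H H' : SimpleGraph W} {d : H.Dart} (h : H'.Adj d.fst d.snd) :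
    subFun H H' d = d.symm := by
  classical
  exact if_pos h

theorem subFun_of_not {H H' : SimpleGraph W} {d : H.Dart} (h : ¬ H'.Adj d.fst d.snd) :
    subFun H H' d = d := by
  classical
  exact if_neg h

theorem subFun_subFun (H H' : SimpleGraph W) (d : H.Dart) : subFun H H' (subFun H H' d) = d := by
  by_cases h : H'.Adj d.fst d.snd
  · have h' : H'.Adj d.symm.fst d.symm.snd := h.symm
    rw [subFun_of h, subFun_of h', d.symm_symm]
  · rw [subFun_of_not h, subFun_of_not h]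

/-- Keep only the darts of the subgraph. -/
noncomputable def subPerm (H H' : SimpleGraph W) : Perm H.Dart where
  toFun := subFun H H'
  invFun := subFun H H'
  left_inv := subFun_subFun H H'
  right_inv := subFun_subFun H H'

theorem subPerm_of {H H' : SimpleGraph W} {d : H.Dart} (h : H'.Adj d.fst d.snd) :
    subPerm H H' d = flip H d := subFun_of h

theorem subPerm_of_not {H H' : SimpleGraph W} {d : H.Dart} (h : ¬ H'.Adj d.fst d.snd) :
    subPerm H H' d = d := subFun_of_not h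

theorem subPerm_ne_iff {H H' : SimpleGraph W} (d : H.Dart) :
    subPerm H H' d ≠ d ↔ H'.Adj d.fst d.snd := by
  constructor
  · intro h
    by_contra h'
    exact h (subPerm_of_not h')
  · intro h
    rw [subPerm_of h]
    exact SimpleGraph.Dart.symm_ne d

/-- A subgraph of a planar graph is planar. -/
theorem IsPlanar.mono [Finite W] {H H' : SimpleGraph W} (h : IsPlanar H) (hle : H' ≤ H) :
    IsPlanar H' := by
  classical
  obtain ⟨rot, hrot, h0⟩ := h.defect_eq
  have hinv : ∀ x, subPerm H H' (subPerm H H' x) = x := (subPerm H H').left_inv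
  have h1 := defect_restrict rot (flip H) (subPerm H H') (fun x => x.symm_symm) hinv
    (fun x => by
      by_cases hx : H'.Adj x.fst x.snd
      · exact Or.inr (subPerm_of hx)
      · exact Or.inl (subPerm_of_not hx)) h0
  refine isPlanar_of_map rot (subPerm H H') hinv h1 H'
    (fun x => ⟨(x.1.fst, x.1.snd), (subPerm_ne_iff x.1).1 x.2⟩) ⟨?_, ?_⟩ ?_ ?_
  · intro x y hxy
    apply Subtype.ext
    apply SimpleGraph.Dart.ext
    exact congrArg (fun d : H'.Dart => d.toProd) hxy
  · intro d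
    refine ⟨⟨⟨(d.fst, d.snd), hle d.adj⟩, (subPerm_ne_iff _).2 d.adj⟩, ?_⟩
    apply SimpleGraph.Dart.ext
    rfl
  · intro x
    have h2 : (movedPerm (subPerm H H') hinv x).1 = flip H x.1 :=
      subPerm_of ((subPerm_ne_iff x.1).1 x.2)
    apply SimpleGraph.Dart.ext
    show ((movedPerm (subPerm H H') hinv x).1.fst, (movedPerm (subPerm H H') hinv x).1.snd) = _
    rw [h2]
    rfl
  · intro x y
    exact hrot x.1 y.1

/-- The part of `H` over a subgraph. -/
def liftSub (H : SimpleGraph W) (G' : SimpleGraph U) (φ : W → U) : SimpleGraph W where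
  Adj x y := H.Adj x y ∧ G'.Adj (φ x) (φ y)
  symm := ⟨fun _ _ h => ⟨h.1.symm, h.2.symm⟩⟩
  loopless := ⟨fun _ h => h.1.ne rfl⟩

theorem liftSub_le (H : SimpleGraph W) (G' : SimpleGraph U) (φ : W → U) : liftSub H G' φ ≤ H :=
  fun _ _ h => h.1

theorem IsCover.liftSub {H : SimpleGraph W} {G G' : SimpleGraph U} {φ : W → U}
    (hφ : IsCover H G φ) (hle : G' ≤ G) : IsCover (liftSub H G' φ) G' φ := by
  intro v
  refine ⟨fun y hy => hy.2, fun y hy z hz h => (hφ v).injOn hy.1 hz.1 h, fun a ha => ?_⟩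
  obtain ⟨y, hy, rfl⟩ := (hφ v).surjOn (hle ha : a ∈ G.neighborSet (φ v))
  exact ⟨y, ⟨hy, ha⟩, rfl⟩

/-! ### Contraction of an edge -/

open Classical in
/-- `v` is moved to `u`. -/
noncomputable def rho0 (u v : U) (x : U) : U := if x = v then u else x

theorem rho0_self (u v : U) : rho0 u v v = u := by
  classical
  exact if_pos rfl

theorem rho0_of_ne {u v x : U} (h : x ≠ v) : rho0 u v x = x := by
  classical
  exact if_neg h

theorem rho0_ne {u v : U} (huv : u ≠ v) (x : U) : rho0 u v x ≠ v := by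
  by_cases h : x = v
  · rw [h, rho0_self]; exact huv
  · rwa [rho0_of_ne h]

/-- The edge `uv` contracted to the vertex `u` (the vertex `v` becomes isolated). -/
def contr (G : SimpleGraph U) (u v : U) : SimpleGraph U where
  Adj a b := a ≠ b ∧ ∃ x y, G.Adj x y ∧ rho0 u v x = a ∧ rho0 u v y = b
  symm := ⟨fun _ _ ⟨h1, x, y, h2, h3, h4⟩ => ⟨h1.symm, y, x, h2.symm, h4, h3⟩⟩
  loopless := ⟨fun _ h => h.1 rfl⟩

section contraction

variable {H : SimpleGraph W} {G : SimpleGraph U} {φ : W → U} {u v : U}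

theorem IsCover.exists_nbr (hφ : IsCover H G φ) (huv : G.Adj u v) (p : W) (hp : φ p = v) :
    ∃ q, H.Adj p q ∧ φ q = u := by
  have : u ∈ G.neighborSet (φ p) := by rw [hp]; exact huv.symm
  obtain ⟨q, hq, h⟩ := (hφ p).surjOn this
  exact ⟨q, hq, h⟩

open Classical in
/-- the vertices over `v` are moved to their neighbour over `u` -/
noncomputable def rho (hφ : IsCover H G φ) (huv : G.Adj u v) (p : W) : W :=
  if h : φ p = v then (hφ.exists_nbr huv p h).choose else p

theorem rho_of_ne (hφ : IsCover H G φ) (huv : G.Adj u v) {p : W} (h : φ p ≠ v) :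
    rho hφ huv p = p := by
  classical
  exact dif_neg h

theorem rho_adj (hφ : IsCover H G φ) (huv : G.Adj u v) {p : W} (h : φ p = v) :
    H.Adj p (rho hφ huv p) := by
  classical
  have : rho hφ huv p = (hφ.exists_nbr huv p h).choose := dif_pos h
  rw [this]
  exact (hφ.exists_nbr huv p h).choose_spec.1

theorem rho_eq (hφ : IsCover H G φ) (huv : G.Adj u v) {p : W} (h : φ p = v) :
    φ (rho hφ huv p) = u := by
  classical
  have : rho hφ huv p = (hφ.exists_nbr huv p h).choose := dif_pos h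
  rw [this]
  exact (hφ.exists_nbr huv p h).choose_spec.2

theorem phi_rho (hφ : IsCover H G φ) (huv : G.Adj u v) (p : W) :
    φ (rho hφ huv p) = rho0 u v (φ p) := by
  by_cases h : φ p = v
  · rw [rho_eq hφ huv h, h, rho0_self]
  · rw [rho_of_ne hφ huv h, rho0_of_ne h]

/-- the neighbour over `u` is unique -/
theorem rho_unique (hφ : IsCover H G φ) (huv : G.Adj u v) {p q : W} (hp : φ p = v)
    (hq : φ q = u) (h : H.Adj p q) : rho hφ huv p = q :=
  (hφ p).injOn (rho_adj hφ huv hp) h (by rw [rho_eq hφ huv hp, hq])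

/-- the vertices with the same image under `rho` -/
theorem rho_eq_rho (hφ : IsCover H G φ) (huv : G.Adj u v) {p q : W}
    (h : rho hφ huv p = rho hφ huv q) :
    p = q ∨ (φ p = v ∧ φ q = u ∧ H.Adj p q) ∨ (φ p = u ∧ φ q = v ∧ H.Adj p q) := by
  by_cases hp : φ p = v
  · by_cases hq : φ q = v
    · left
      have h1 := (rho_adj hφ huv hp).symm
      have h2 := (rho_adj hφ huv hq).symm
      rw [← h] at h2
      exact (hφ _).injOn h1 h2 (by rw [hp, hq])
    · right; left
      rw [rho_of_ne hφ huv hq] at h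
      refine ⟨hp, ?_, ?_⟩
      · rw [← h]; exact rho_eq hφ huv hp
      · rw [← h]; exact rho_adj hφ huv hp
  · rw [rho_of_ne hφ huv hp] at h
    by_cases hq : φ q = v
    · right; right
      refine ⟨?_, hq, ?_⟩
      · rw [h]; exact rho_eq hφ huv hq
      · rw [h]; exact (rho_adj hφ huv hq).symm
    · left
      rw [rho_of_ne hφ huv hq] at h
      exact h

theorem rho_eq_rho_of (hφ : IsCover H G φ) (huv : G.Adj u v) {p q : W} (hpq : H.Adj p q)
    (h : (φ p = v ∧ φ q = u) ∨ (φ p = u ∧ φ q = v)) : rho hφ huv p = rho hφ huv q := by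
  have hne := huv.ne
  rcases h with ⟨hp, hq⟩ | ⟨hp, hq⟩
  · rw [rho_unique hφ huv hp hq hpq, rho_of_ne hφ huv (by rw [hq]; exact hne)]
  · rw [rho_unique hφ huv hq hp hpq.symm, rho_of_ne hφ huv (by rw [hp]; exact hne)]

/-- All lifts of the edge `uv` contracted. -/
def contrH (hφ : IsCover H G φ) (huv : G.Adj u v) : SimpleGraph W where
  Adj a b := a ≠ b ∧ ∃ x y, H.Adj x y ∧ rho hφ huv x = a ∧ rho hφ huv y = b
  symm := ⟨fun _ _ ⟨h1, x, y, h2, h3, h4⟩ => ⟨h1.symm, y, x, h2.symm, h4, h3⟩⟩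
  loopless := ⟨fun _ h => h.1 rfl⟩

/-- A dart which is not over `uv` is determined by its image. -/
theorem rho_dart_inj (hφ : IsCover H G φ) (huv : G.Adj u v)
    (hcom : ∀ w, ¬ (G.Adj u w ∧ G.Adj v w)) {p q p' q' : W} (h : H.Adj p q) (h' : H.Adj p' q')
    (hp : rho hφ huv p = rho hφ huv p') (hq : rho hφ huv q = rho hφ huv q')
    (hne : rho hφ huv p ≠ rho hφ huv q) : p = p' ∧ q = q' := by
  have key : ∀ {a b a' b' : W}, H.Adj a b → H.Adj a' b' → rho hφ huv a = rho hφ huv a' →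
      rho hφ huv b = rho hφ huv b' → rho hφ huv a ≠ rho hφ huv b →
      (φ a = v ∧ φ a' = u ∧ H.Adj a a') → False := by
    intro a b a' b' hab hab' h1 h2 h3 h4
    obtain ⟨ha, ha', haa⟩ := h4
    have ga := hφ.adj hab
    have ga' := hφ.adj hab'
    rw [ha] at ga
    rw [ha'] at ga'
    rcases rho_eq_rho hφ huv h2 with h5 | ⟨hb, hb', -⟩ | ⟨hb, hb', -⟩
    · rw [← h5] at ga'
      exact hcom _ ⟨ga', ga⟩
    · rw [hb] at ga
      exact ga.ne rfl
    · apply h3
      exact rho_eq_rho_of hφ huv hab (Or.inl ⟨ha, hb⟩)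
  have key2 : ∀ {a b a' b' : W}, H.Adj a b → H.Adj a' b' → rho hφ huv a = rho hφ huv a' →
      rho hφ huv b = rho hφ huv b' → rho hφ huv a ≠ rho hφ huv b → a = a' := by
    intro a b a' b' hab hab' h1 h2 h3
    rcases rho_eq_rho hφ huv h1 with h5 | h5 | ⟨h5, h6, h7⟩
    · exact h5
    · exact (key hab hab' h1 h2 h3 h5).elim
    · exact (key hab' hab h1.symm h2.symm (by rw [← h1, ← h2]; exact h3)
        ⟨h6, h5, h7.symm⟩).elim
  exact ⟨key2 h h' hp hq hne, key2 h.symm h'.symm hq hp hne.symm⟩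

theorem IsCover.contrH (hφ : IsCover H G φ) (huv : G.Adj u v)
    (hcom : ∀ w, ¬ (G.Adj u w ∧ G.Adj v w)) : IsCover (contrH hφ huv) (contr G u v) φ := by
  have hne := huv.ne
  intro x
  refine ⟨?_, ?_, ?_⟩
  · rintro y ⟨hxy, p, q, hpq, rfl, rfl⟩
    refine ⟨?_, φ p, φ q, hφ.adj hpq, (phi_rho hφ huv p).symm, (phi_rho hφ huv q).symm⟩
    intro h
    rw [phi_rho hφ huv, phi_rho hφ huv] at h
    apply hxy
    have hadj := (hφ.adj hpq).ne
    by_cases hp : φ p = v
    · by_cases hq : φ q = v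
      · exact absurd (hp.trans hq.symm) hadj
      · rw [hp, rho0_self, rho0_of_ne hq] at h
        exact rho_eq_rho_of hφ huv hpq (Or.inl ⟨hp, h.symm⟩)
    · rw [rho0_of_ne hp] at h
      by_cases hq : φ q = v
      · rw [hq, rho0_self] at h
        exact rho_eq_rho_of hφ huv hpq (Or.inr ⟨h, hq⟩)
      · rw [rho0_of_ne hq] at h
        exact absurd h hadj
  · rintro y ⟨hxy, p, q, hpq, hp, hq⟩ y' ⟨hxy', p', q', hpq', hp', hq'⟩ hyy
    -- `q` and `q'` have the same image or differ by the pair `u`, `v`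
    have hne1 : rho hφ huv p ≠ rho hφ huv q := by rw [hp, hq]; exact hxy
    have hne2 : rho hφ huv p' ≠ rho hφ huv q' := by rw [hp', hq']; exact hxy'
    have hpp : rho hφ huv p = rho hφ huv p' := by rw [hp, hp']
    have h0 : rho0 u v (φ q) = rho0 u v (φ q') := by
      rw [← phi_rho hφ huv, ← phi_rho hφ huv, hq, hq', hyy]
    rw [← hq, ← hq']
    rcases rho_eq_rho hφ huv hpp with h5 | ⟨h5, h6, -⟩ | ⟨h5, h6, -⟩
    · -- the same vertex `p`
      subst h5
      by_cases h1 : φ q = v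
      · by_cases h2 : φ q' = v
        · rw [(hφ p).injOn hpq hpq' (h1.trans h2.symm)]
        · rw [h1, rho0_self, rho0_of_ne h2] at h0
          exfalso
          refine hcom (φ p) ⟨?_, ?_⟩
          · rw [h0]; exact (hφ.adj hpq').symm
          · rw [← h1]; exact (hφ.adj hpq).symm
      · rw [rho0_of_ne h1] at h0
        by_cases h2 : φ q' = v
        · rw [h2, rho0_self] at h0
          exfalso
          refine hcom (φ p) ⟨?_, ?_⟩
          · rw [← h0]; exact (hφ.adj hpq).symm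
          · rw [← h2]; exact (hφ.adj hpq').symm
        · rw [rho0_of_ne h2] at h0
          rw [(hφ p).injOn hpq hpq' h0]
    · exfalso
      have g1 := hφ.adj hpq
      have g2 := hφ.adj hpq'
      rw [h5] at g1
      rw [h6] at g2
      have n1 : φ q ≠ v := g1.ne.symm
      rw [rho0_of_ne n1] at h0
      by_cases h2 : φ q' = v
      · exact hne2 (rho_eq_rho_of hφ huv hpq' (Or.inr ⟨h6, h2⟩))
      · rw [rho0_of_ne h2] at h0
        exact hcom _ ⟨by rw [h0]; exact g2, g1⟩
    · exfalso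
      have g1 := hφ.adj hpq
      have g2 := hφ.adj hpq'
      rw [h5] at g1
      rw [h6] at g2
      have n1 : φ q' ≠ v := g2.ne.symm
      rw [rho0_of_ne n1] at h0
      by_cases h2 : φ q = v
      · exact hne1 (rho_eq_rho_of hφ huv hpq (Or.inr ⟨h5, h2⟩))
      · rw [rho0_of_ne h2] at h0
        exact hcom _ ⟨g1, by rw [h0]; exact g2⟩
  · rintro b ⟨hab, a0, b0, h0, ha, hb⟩
    -- a vertex over `a0` with image `x`
    obtain ⟨p, hp1, hp2⟩ : ∃ p, rho hφ huv p = x ∧ φ p = a0 := by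
      have hxv : φ x ≠ v := by rw [← ha]; exact rho0_ne hne a0
      by_cases h : a0 = v
      · subst h
        rw [rho0_self] at ha
        obtain ⟨z, hz, hz2⟩ := (hφ x).surjOn (show a0 ∈ G.neighborSet (φ x) by
          rw [← ha]; exact huv)
        exact ⟨z, rho_unique hφ huv hz2 ha.symm hz.symm, hz2⟩
      · rw [rho0_of_ne h] at ha
        exact ⟨x, rho_of_ne hφ huv hxv, ha.symm⟩
    obtain ⟨q, hq, hq2⟩ := (hφ p).surjOn (show b0 ∈ G.neighborSet (φ p) by rw [hp2]; exact h0)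
    refine ⟨rho hφ huv q, ⟨?_, p, q, hq, hp1, rfl⟩, ?_⟩
    · intro h
      apply hab
      rw [h, phi_rho hφ huv, hq2, hb]
    · rw [phi_rho hφ huv, hq2, hb]

theorem isPlanar_contrH [Finite W] (hφ : IsCover H G φ) (huv : G.Adj u v)
    (hcom : ∀ w, ¬ (G.Adj u w ∧ G.Adj v w)) (h : IsPlanar H) : IsPlanar (contrH hφ huv) := by
  classical
  obtain ⟨rot, hrot, h0⟩ := h.defect_eq
  set S : Set H.Dart := {d | (φ d.fst = v ∧ φ d.snd = u) ∨ (φ d.fst = u ∧ φ d.snd = v)} with hS
  have hSf : ∀ x ∈ S, flip H x ∈ S := by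
    rintro x (⟨h1, h2⟩ | ⟨h1, h2⟩)
    · exact Or.inr ⟨h2, h1⟩
    · exact Or.inl ⟨h2, h1⟩
  obtain ⟨σ, α, hα, hα1, hα2, hd, hσ⟩ := exists_contract rot (flip H) (fun x => x.symm_symm) h0 S
    hSf
  have hmov : ∀ x, α x ≠ x ↔ x ∉ S := by
    intro x
    constructor
    · intro hx hxS
      exact hx (hα1 x hxS)
    · intro hxS
      rw [hα2 x hxS]
      exact SimpleGraph.Dart.symm_ne x
  have hneS : ∀ x : H.Dart, x ∉ S → rho hφ huv x.fst ≠ rho hφ huv x.snd := by
    intro x hx hh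
    rcases rho_eq_rho hφ huv hh with h1 | ⟨h1, h2, -⟩ | ⟨h1, h2, -⟩
    · exact x.adj.ne h1
    · exact hx (Or.inl ⟨h1, h2⟩)
    · exact hx (Or.inr ⟨h1, h2⟩)
  refine isPlanar_of_map σ α hα hd (contrH hφ huv)
    (fun x => ⟨(rho hφ huv x.1.fst, rho hφ huv x.1.snd), hneS x.1 ((hmov _).1 x.2), _, _,
      x.1.adj, rfl, rfl⟩) ⟨?_, ?_⟩ ?_ ?_
  · intro x y hxy
    have h1 := congrArg (fun d : (contrH hφ huv).Dart => d.fst) hxy
    have h2 := congrArg (fun d : (contrH hφ huv).Dart => d.snd) hxy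
    obtain ⟨h3, h4⟩ := rho_dart_inj hφ huv hcom x.1.adj y.1.adj h1 h2
      (hneS x.1 ((hmov _).1 x.2))
    exact Subtype.ext (SimpleGraph.Dart.ext _ _ (Prod.ext h3 h4))
  · intro d
    obtain ⟨hab, p, q, hpq, h1, h2⟩ := id d.adj
    refine ⟨⟨⟨(p, q), hpq⟩, (hmov _).2 ?_⟩, ?_⟩
    · intro hmem
      apply hab
      rw [← h1, ← h2]
      exact rho_eq_rho_of hφ huv hpq hmem
    · apply SimpleGraph.Dart.ext
      exact Prod.ext h1 h2
  · intro x
    have h1 : (movedPerm α hα x).1 = flip H x.1 := hα2 _ ((hmov _).1 x.2)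
    apply SimpleGraph.Dart.ext
    show (rho hφ huv (movedPerm α hα x).1.fst, rho hφ huv (movedPerm α hα x).1.snd) = _
    rw [h1]
    rfl
  · intro x y
    rw [hσ]
    show _ ↔ rho hφ huv x.1.fst = rho hφ huv y.1.fst
    have hcyc : ∀ a b : H.Dart, a.fst = b.fst →
        EqvGen (fun x y => rot x = y ∨ (x ∈ S ∧ flip H x = y)) a b := fun a b hab =>
      ((eqvGen_iff_sameCycle _ _ _).2 ((hrot a b).2 hab)).mono fun _ _ => Or.inl
    constructor
    · intro h1
      have : ∀ a b : H.Dart, EqvGen (fun x y => rot x = y ∨ (x ∈ S ∧ flip H x = y)) a b →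
          rho hφ huv a.fst = rho hφ huv b.fst := by
        intro a b hab
        induction hab with
        | rel a b hab =>
          rcases hab with hab | ⟨h2, h3⟩
          · have : rot.SameCycle a b := by
              rw [← hab]; exact sameCycle_apply_right.2 (SameCycle.refl _ _)
            rw [(hrot a b).1 this]
          · rw [← h3]
            exact rho_eq_rho_of hφ huv a.adj h2
        | refl a => rfl
        | symm a b _ ih => exact ih.symm
        | trans a b c _ _ ih1 ih2 => exact ih1.trans ih2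
      exact this _ _ h1
    · intro h1
      rcases rho_eq_rho hφ huv h1 with h2 | ⟨h2, h3, h4⟩ | ⟨h2, h3, h4⟩
      · exact hcyc _ _ h2
      · refine EqvGen.trans _ (⟨(x.1.fst, y.1.fst), h4⟩ : H.Dart) _ (hcyc _ _ rfl)
          (EqvGen.trans _ (⟨(y.1.fst, x.1.fst), h4.symm⟩ : H.Dart) _ (EqvGen.rel _ _
            (Or.inr ⟨Or.inl ⟨h2, h3⟩, rfl⟩)) (hcyc _ _ rfl))
      · refine EqvGen.trans _ (⟨(x.1.fst, y.1.fst), h4⟩ : H.Dart) _ (hcyc _ _ rfl)
          (EqvGen.trans _ (⟨(y.1.fst, x.1.fst), h4.symm⟩ : H.Dart) _ (EqvGen.rel _ _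
            (Or.inr ⟨Or.inr ⟨h2, h3⟩, rfl⟩)) (hcyc _ _ rfl))

end contraction

/-- `G` without the edges from `v` to the common neighbours of `u` and `v`. -/
def trim (G : SimpleGraph U) (u v : U) : SimpleGraph U where
  Adj a b := G.Adj a b ∧ ¬ (a = v ∧ G.Adj u b) ∧ ¬ (b = v ∧ G.Adj u a)
  symm := ⟨fun _ _ h => ⟨h.1.symm, h.2.2, h.2.1⟩⟩
  loopless := ⟨fun _ h => h.1.ne rfl⟩

theorem trim_le (G : SimpleGraph U) (u v : U) : trim G u v ≤ G := fun _ _ h => h.1

theorem contr_trim (G : SimpleGraph U) {u v : U} (huv : G.Adj u v) :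
    contr (trim G u v) u v = contr G u v := by
  ext a b
  constructor
  · rintro ⟨h, x, y, h1, h2, h3⟩
    exact ⟨h, x, y, h1.1, h2, h3⟩
  · rintro ⟨h, x, y, h1, h2, h3⟩
    refine ⟨h, ?_⟩
    by_cases hx : x = v ∧ G.Adj u y
    · have hy : y ≠ v := by
        rintro rfl
        exact h1.ne hx.1
      refine ⟨u, y, ⟨hx.2, fun h4 => huv.ne h4.1, fun h4 => hy h4.1⟩, ?_, h3⟩
      rw [rho0_of_ne huv.ne, ← h2, hx.1, rho0_self]
    · by_cases hy : y = v ∧ G.Adj u x
      · have hx' : x ≠ v := by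
          rintro rfl
          exact h1.ne hy.1.symm
        refine ⟨x, u, ⟨hy.2.symm, fun h4 => hx' h4.1, fun h4 => huv.ne h4.1⟩, h2, ?_⟩
        rw [rho0_of_ne huv.ne, ← h3, hy.1, rho0_self]
      · exact ⟨x, y, ⟨h1, hx, hy⟩, h2, h3⟩

/-- Planar covers pass to contractions of an edge. -/
theorem exists_contr [Finite W] {H : SimpleGraph W} {G : SimpleGraph U} {φ : W → U}
    (hφ : IsCover H G φ) (hpl : IsPlanar H) {u v : U} (huv : G.Adj u v) :
    ∃ H' : SimpleGraph W, IsCover H' (contr G u v) φ ∧ IsPlanar H' := by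
  have h1 := hφ.liftSub (trim_le G u v)
  have h2 : IsPlanar (liftSub H (trim G u v) φ) := hpl.mono (liftSub_le _ _ _)
  have huv' : (trim G u v).Adj u v :=
    ⟨huv, fun h => huv.ne h.1, fun h => h.2.ne rfl⟩
  have hcom : ∀ w, ¬ ((trim G u v).Adj u w ∧ (trim G u v).Adj v w) := by
    rintro w ⟨h3, h4⟩
    exact h4.2.1 ⟨rfl, h3.1⟩
  refine ⟨contrH h1 huv', ?_, isPlanar_contrH h1 huv' hcom h2⟩
  rw [← contr_trim G huv]
  exact h1.contrH huv' hcom

end Pool.Agent.Lib.MP_5854e1_co
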