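import Pool.Agent.Lib.MP_5854e1_co.Cover

/-!
# The 24-dart model of a planar cover of `K_{1,2,2,2}`

Contract the star of every vertex over the apex `0`. What remains are the darts between vertices
over the rim `1, …, 6`; `nxt` is the rotation of the contracted map, `inv` the reversal, and the
faces are the cycles of `nxt ∘ inv`.
-/

set_option autoImplicit false

open Equiv Equiv.Perm

namespace Pool.Agent.Lib.MP_5854e1_co

variable {W : Type*} {H : SimpleGraph W} {φ : W → Fin 7}

/-- The darts of `H` between rim vertices. -/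
abbrev Rim (H : SimpleGraph W) (φ : W → Fin 7) : Type _ :=
  {d : H.Dart // φ d.fst ≠ 0 ∧ φ d.snd ≠ 0}

/-- The reversal of rim darts. -/
def rimInv (H : SimpleGraph W) (φ : W → Fin 7) : Perm (Rim H φ) where
  toFun d := ⟨flip H d.1, d.2.2, d.2.1⟩
  invFun d := ⟨flip H d.1, d.2.2, d.2.1⟩
  left_inv d := Subtype.ext d.1.symm_symm
  right_inv d := Subtype.ext d.1.symm_symm

section

variable (hφ : IsCover H K1222 φ) (rot : Perm H.Dart)
  (hrot : ∀ x y, rot.SameCycle x y ↔ x.fst = y.fst)

include hrot in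
theorem rot_fst (x : H.Dart) : (rot x).fst = x.fst :=
  ((hrot x (rot x)).1 ⟨1, by simp⟩).symm

include hrot in
theorem rot_inv_fst (x : H.Dart) : (rot⁻¹ x).fst = x.fst :=
  ((hrot x (rot⁻¹ x)).1 ⟨-1, by simp⟩).symm

include hφ in
theorem not_both_apex (x : H.Dart) (h : φ x.fst = 0) : φ x.snd ≠ 0 := by
  intro h2
  have := hφ.adj x.adj
  rw [h, h2] at this
  exact this rfl

include hφ in
/-- At a rim vertex there is exactly one dart to the apex. -/
theorem apex_dart_unique {x y : H.Dart} (h : x.fst = y.fst) (hx : φ x.snd = 0)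
    (hy : φ y.snd = 0) : x = y := by
  refine hφ.dart_inj h ?_
  exact SimpleGraph.Dart.ext _ _ (Prod.ext (congrArg φ h) (hx.trans hy.symm))

include hφ hrot in
/-- The dart after the apex dart at a rim vertex is a rim dart. -/
theorem rot_apex {x : H.Dart} (h0 : φ x.fst ≠ 0) (hx : φ x.snd = 0) : φ (rot x).snd ≠ 0 := by
  intro h
  have h1 : rot x = x := apex_dart_unique hφ (rot_fst rot hrot x) h hx
  -- then `x` is the only dart at its vertex, but there are five
  have h2 : ∀ y : H.Dart, y.fst = x.fst → y = x := by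
    intro y hy
    obtain ⟨k, hk⟩ := (hrot x y).2 hy.symm
    rw [← hk]
    exact Equiv.Perm.zpow_apply_eq_self_of_apply_eq_self h1 k
  have h3 : ∃ e : K1222.Dart, e.fst = φ x.fst ∧ e.snd ≠ 0 := by
    have : ∀ u : Fin 7, u ≠ 0 → ∃ v, K1222.Adj u v ∧ v ≠ 0 := by decide
    obtain ⟨v, hv, hv0⟩ := this _ h0
    exact ⟨⟨(_, v), hv⟩, rfl, hv0⟩
  obtain ⟨e, he1, he2⟩ := h3
  obtain ⟨y, hy1, hy2⟩ := hφ.dart_surj x.fst e he1
  have h4 := h2 y hy1
  subst h4
  exact he2 (by rw [← hy2]; exact hx)

include hφ hrot in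
theorem rot_inv_apex {x : H.Dart} (h0 : φ x.fst ≠ 0) (hx : φ x.snd = 0) :
    φ (rot⁻¹ x).snd ≠ 0 := by
  intro h
  have h1 : rot⁻¹ x = x := apex_dart_unique hφ (rot_inv_fst rot hrot x) h hx
  have h2 : rot x = x := by
    conv_lhs => rw [← h1]
    simp
  exact rot_apex hφ rot hrot h0 hx (by rw [h2]; exact hx)

/-- The next rim dart on the contour of the star. -/
noncomputable def nxtFun (rot : Perm H.Dart) (φ : W → Fin 7) (d : H.Dart) : H.Dart := by
  classical
  exact if φ (rot d).snd = 0 then rot (flip H (rot (flip H (rot d)))) else rot d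

/-- The previous rim dart on the contour of the star. -/
noncomputable def prvFun (rot : Perm H.Dart) (φ : W → Fin 7) (d : H.Dart) : H.Dart := by
  classical
  exact if φ (rot⁻¹ d).snd = 0 then rot⁻¹ (flip H (rot⁻¹ (flip H (rot⁻¹ d)))) else rot⁻¹ d

include hφ hrot in
theorem nxtFun_rim (d : Rim H φ) : φ (nxtFun rot φ d.1).fst ≠ 0 ∧ φ (nxtFun rot φ d.1).snd ≠ 0 := by
  unfold nxtFun
  have h0 : φ (rot d.1).fst ≠ 0 := by rw [rot_fst rot hrot]; exact d.2.1
  split_ifs with h
  · set a := rot (flip H (rot d.1)) with ha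
    have h1 : φ a.fst = 0 := by
      rw [ha, rot_fst rot hrot]; exact h
    have h2 : φ (flip H a).fst ≠ 0 := not_both_apex hφ a h1
    refine ⟨by rw [rot_fst rot hrot]; exact h2, rot_apex hφ rot hrot h2 h1⟩
  · exact ⟨h0, h⟩

include hφ hrot in
theorem prvFun_rim (d : Rim H φ) : φ (prvFun rot φ d.1).fst ≠ 0 ∧ φ (prvFun rot φ d.1).snd ≠ 0 := by
  unfold prvFun
  have h0 : φ (rot⁻¹ d.1).fst ≠ 0 := by rw [rot_inv_fst rot hrot]; exact d.2.1
  split_ifs with h
  · set a := rot⁻¹ (flip H (rot⁻¹ d.1)) with ha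
    have h1 : φ a.fst = 0 := by
      rw [ha, rot_inv_fst rot hrot]; exact h
    have h2 : φ (flip H a).fst ≠ 0 := not_both_apex hφ a h1
    refine ⟨by rw [rot_inv_fst rot hrot]; exact h2, rot_inv_apex hφ rot hrot h2 h1⟩
  · exact ⟨h0, h⟩

theorem flip_flip' (x : H.Dart) : flip H (flip H x) = x := x.symm_symm

include hrot in
theorem prv_nxt (d : Rim H φ) : prvFun rot φ (nxtFun rot φ d.1) = d.1 := by
  have h0 : φ (rot d.1).fst ≠ 0 := by rw [rot_fst rot hrot]; exact d.2.1
  by_cases h : φ (rot d.1).snd = 0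
  · have e1 : nxtFun rot φ d.1 = rot (flip H (rot (flip H (rot d.1)))) := by
      unfold nxtFun; rw [if_pos h]
    have h1 : φ (rot (flip H (rot d.1))).fst = 0 := by rw [rot_fst rot hrot]; exact h
    have e2 : rot⁻¹ (nxtFun rot φ d.1) = flip H (rot (flip H (rot d.1))) := by
      rw [e1]; simp
    unfold prvFun
    rw [if_pos (by rw [e2]; exact h1), e2, flip_flip']
    simp [flip_flip']
  · have e1 : nxtFun rot φ d.1 = rot d.1 := by unfold nxtFun; rw [if_neg h]
    unfold prvFun
    have e2 : rot⁻¹ (nxtFun rot φ d.1) = d.1 := by rw [e1]; simp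
    rw [if_neg (by rw [e2]; exact d.2.2), e2]

include hrot in
theorem nxt_prv (d : Rim H φ) : nxtFun rot φ (prvFun rot φ d.1) = d.1 := by
  have h0 : φ (rot⁻¹ d.1).fst ≠ 0 := by rw [rot_inv_fst rot hrot]; exact d.2.1
  by_cases h : φ (rot⁻¹ d.1).snd = 0
  · have e1 : prvFun rot φ d.1 = rot⁻¹ (flip H (rot⁻¹ (flip H (rot⁻¹ d.1)))) := by
      unfold prvFun; rw [if_pos h]
    have h1 : φ (rot⁻¹ (flip H (rot⁻¹ d.1))).fst = 0 := by rw [rot_inv_fst rot hrot]; exact h
    have e2 : rot (prvFun rot φ d.1) = flip H (rot⁻¹ (flip H (rot⁻¹ d.1))) := by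
      rw [e1]; simp
    unfold nxtFun
    rw [if_pos (by rw [e2]; exact h1), e2, flip_flip']
    simp [flip_flip']
  · have e1 : prvFun rot φ d.1 = rot⁻¹ d.1 := by unfold prvFun; rw [if_neg h]
    unfold nxtFun
    have e2 : rot (prvFun rot φ d.1) = d.1 := by rw [e1]; simp
    rw [if_neg (by rw [e2]; exact d.2.2), e2]

/-- The rotation of the contracted map. -/
noncomputable def nxt (hφ : IsCover H K1222 φ) (rot : Perm H.Dart)
    (hrot : ∀ x y, rot.SameCycle x y ↔ x.fst = y.fst) : Perm (Rim H φ) where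
  toFun d := ⟨nxtFun rot φ d.1, nxtFun_rim hφ rot hrot d⟩
  invFun d := ⟨prvFun rot φ d.1, prvFun_rim hφ rot hrot d⟩
  left_inv d := Subtype.ext (prv_nxt rot hrot d)
  right_inv d := Subtype.ext (nxt_prv rot hrot d)

theorem nxt_coe (hφ : IsCover H K1222 φ) (rot : Perm H.Dart)
    (hrot : ∀ x y, rot.SameCycle x y ↔ x.fst = y.fst) (d : Rim H φ) :
    (nxt hφ rot hrot d).1 = nxtFun rot φ d.1 := rfl

theorem rimInv_coe (d : Rim H φ) : (rimInv H φ d).1 = flip H d.1 := rfl

/-! ### Periods of the rotation -/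

include hrot in
theorem exists_iterate [Finite W] {x y : H.Dart} (h : y.fst = x.fst) :
    ∃ i < Function.minimalPeriod rot x, rot^[i] x = y := by
  obtain ⟨k, hk⟩ := (hrot x y).2 h.symm
  have hfin : Finite H.Dart := finiteDart
  have hp : 0 < Function.minimalPeriod rot x := by
    apply Function.minimalPeriod_pos_of_mem_periodicPts
    exact Function.Injective.mem_periodicPts rot.injective x
  set p := Function.minimalPeriod rot x
  have hpx : (rot ^ (p : ℤ)) x = x := by
    rw [zpow_natCast, Equiv.Perm.coe_pow]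
    exact Function.isPeriodicPt_minimalPeriod rot x
  refine ⟨(k % p).toNat, ?_, ?_⟩
  · have := Int.emod_lt_of_pos k (by exact_mod_cast hp : (0 : ℤ) < p)
    have h0 := Int.emod_nonneg k (by positivity : (p : ℤ) ≠ 0)
    omega
  · have h0 := Int.emod_nonneg k (by positivity : (p : ℤ) ≠ 0)
    rw [← Equiv.Perm.coe_pow, ← zpow_natCast, Int.toNat_of_nonneg h0, ← hk]
    have e : k = k % p + p * (k / p) := by rw [Int.emod_add_mul_ediv]
    conv_rhs => rw [e]
    rw [zpow_add, Equiv.Perm.mul_apply]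
    congr 1
    rw [zpow_mul]
    exact (Equiv.Perm.zpow_apply_eq_self_of_apply_eq_self hpx _).symm

include hrot in
theorem iterate_fst (x : H.Dart) (i : ℕ) : (rot^[i] x).fst = x.fst := by
  induction i with
  | zero => rfl
  | succ i ih => rw [Function.iterate_succ_apply', rot_fst rot hrot, ih]

include hφ hrot in
theorem period_eq [Finite W] (x : H.Dart) :
    Function.minimalPeriod rot x = Nat.card {e : K1222.Dart // e.fst = φ x.fst} := by
  set p := Function.minimalPeriod rot x
  rw [← Nat.card_fin p]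
  refine Nat.card_congr (Equiv.ofBijective (fun i : Fin p =>
    (⟨hφ.dart (rot^[i.1] x), by
      show φ (rot^[i.1] x).fst = _
      rw [iterate_fst rot hrot]⟩ : {e : K1222.Dart // e.fst = φ x.fst})) ⟨?_, ?_⟩)
  · intro i j h
    have h1 := congrArg Subtype.val h
    have h2 : rot^[i.1] x = rot^[j.1] x := hφ.dart_inj
      (by rw [iterate_fst rot hrot, iterate_fst rot hrot]) h1
    exact Fin.ext (Function.iterate_injOn_Iio_minimalPeriod i.2 j.2 h2)
  · rintro ⟨e, he⟩
    obtain ⟨y, hy1, hy2⟩ := hφ.dart_surj x.fst e he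
    obtain ⟨i, hi, hix⟩ := exists_iterate rot hrot hy1
    exact ⟨⟨i, hi⟩, Subtype.ext (by show hφ.dart (rot^[i] x) = e; rw [hix, hy2])⟩

theorem card_darts (u : Fin 7) :
    Nat.card {e : K1222.Dart // e.fst = u} = if u = 0 then 6 else 5 := by
  have h : Nat.card {e : K1222.Dart // e.fst = u} = Nat.card {v : Fin 7 // K1222.Adj u v} := by
    refine Nat.card_congr ⟨fun e => ⟨e.1.snd, by have := e.1.adj; rw [e.2] at this; exact this⟩,
      fun v => ⟨⟨(u, v.1), v.2⟩, rfl⟩, ?_, ?_⟩
    · rintro ⟨⟨⟨a, b⟩, hab⟩, h⟩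
      subst h
      rfl
    · rintro ⟨v, hv⟩
      rfl
  rw [h, Nat.card_eq_fintype_card]
  clear h
  revert u
  decide

include hφ hrot in
theorem period_rim [Finite W] {x : H.Dart} (h : φ x.fst ≠ 0) :
    Function.minimalPeriod rot x = 5 := by
  rw [period_eq hφ rot hrot, card_darts, if_neg h]

include hφ hrot in
theorem period_apex [Finite W] {x : H.Dart} (h : φ x.fst = 0) :
    Function.minimalPeriod rot x = 6 := by
  rw [period_eq hφ rot hrot, card_darts, if_pos h]

/-! ### The word of a cell -/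

/-- The label of a rim dart. -/
def lab (φ : W → Fin 7) (d : H.Dart) : Fin 7 × Fin 7 := (φ d.fst, φ d.snd)

/-- The cyclic word of 24 labels of a cell, read from the beginning of the block of the label `1`:
six blocks, in the order `c` of the apex rotation, the block of `c j` being `(c j, b j k)`. -/
def BlockWord (w : ℕ → Fin 7 × Fin 7) : Prop :=
  ∃ (c : ℕ → Fin 7) (b : ℕ → ℕ → Fin 7), c 0 = 1 ∧ (∀ j, c j ≠ 0) ∧
    (∀ i < 6, ∀ j < 6, c i = c j → i = j) ∧ (∀ j, ∀ k < 4, b j k ≠ 0) ∧
    (∀ j, ∀ k < 4, K1222.Adj (c j) (b j k)) ∧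
    (∀ j, ∀ k < 4, ∀ l < 4, b j k = b j l → k = l) ∧
    ∀ j < 6, ∀ k < 4, w (4 * j + k) = (c j, b j k)

theorem iter_ne {x : H.Dart} {i j : ℕ} (hi : i < Function.minimalPeriod rot x)
    (hj : j < Function.minimalPeriod rot x) (h : rot^[i] x = rot^[j] x) : i = j :=
  Function.iterate_injOn_Iio_minimalPeriod hi hj h

variable [Finite W]

include hφ hrot in
/-- The darts after the apex dart at a rim vertex. -/
theorem block_rim {x : H.Dart} (h0 : φ x.fst ≠ 0) (hx : φ x.snd = 0) {k : ℕ} (hk : k < 4) :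
    φ (rot^[k + 1] x).snd ≠ 0 := by
  intro h
  have h1 : rot^[k + 1] x = rot^[0] x :=
    apex_dart_unique hφ (by rw [iterate_fst rot hrot, iterate_fst rot hrot]) h hx
  have := iter_ne rot (by rw [period_rim hφ rot hrot h0]; omega)
    (by rw [period_rim hφ rot hrot h0]; omega) h1
  omega

/-- The start of the block after the apex dart `e` and its successors. -/
noncomputable def bstart (hφ : IsCover H K1222 φ) (rot : Perm H.Dart)
    (hrot : ∀ x y, rot.SameCycle x y ↔ x.fst = y.fst) (e : H.Dart) (he : φ e.fst = 0) (j k : ℕ)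
    (hk : k < 4) : Rim H φ :=
  ⟨rot^[k + 1] (flip H (rot^[j] e)), by
    have h1 : φ (rot^[j] e).fst = 0 := by rw [iterate_fst rot hrot]; exact he
    have h2 : φ (flip H (rot^[j] e)).fst ≠ 0 := not_both_apex hφ _ h1
    exact ⟨by rw [iterate_fst rot hrot]; exact h2, block_rim hφ rot hrot h2 h1 hk⟩⟩

theorem nxt_bstart (e : H.Dart) (he : φ e.fst = 0) (j k : ℕ) (hk : k + 1 < 4) :
    nxt hφ rot hrot (bstart hφ rot hrot e he j k (by omega)) =
      bstart hφ rot hrot e he j (k + 1) hk := by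
  apply Subtype.ext
  rw [nxt_coe]
  have h1 : φ (rot^[j] e).fst = 0 := by rw [iterate_fst rot hrot]; exact he
  have h2 : φ (flip H (rot^[j] e)).fst ≠ 0 := not_both_apex hφ _ h1
  have h3 := block_rim hφ rot hrot h2 h1 hk
  show nxtFun rot φ (rot^[k + 1] (flip H (rot^[j] e))) = rot^[k + 1 + 1] (flip H (rot^[j] e))
  unfold nxtFun
  rw [Function.iterate_succ_apply'] at h3
  rw [if_neg h3, Function.iterate_succ_apply' _ (k + 1)]

theorem nxt_bstart_last (e : H.Dart) (he : φ e.fst = 0) (j : ℕ) :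
    nxt hφ rot hrot (bstart hφ rot hrot e he j 3 (by omega)) =
      bstart hφ rot hrot e he (j + 1) 0 (by omega) := by
  apply Subtype.ext
  rw [nxt_coe]
  have h1 : φ (rot^[j] e).fst = 0 := by rw [iterate_fst rot hrot]; exact he
  have h2 : φ (flip H (rot^[j] e)).fst ≠ 0 := not_both_apex hφ _ h1
  have h1' : φ (flip H (rot^[j] e)).snd = 0 := h1
  have h3 : rot (rot^[3 + 1] (flip H (rot^[j] e))) = flip H (rot^[j] e) := by
    rw [← Function.iterate_succ_apply' rot]
    have := Function.isPeriodicPt_minimalPeriod rot (flip H (rot^[j] e))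
    rw [period_rim hφ rot hrot h2] at this
    exact this
  show nxtFun rot φ (rot^[3 + 1] (flip H (rot^[j] e))) = rot^[0 + 1] (flip H (rot^[j + 1] e))
  unfold nxtFun
  rw [h3, if_pos h1', flip_flip', ← Function.iterate_succ_apply' rot j]
  rfl

theorem iterate_nxt (e : H.Dart) (he : φ e.fst = 0) (j k : ℕ) (hk : k < 4) :
    (nxt hφ rot hrot)^[4 * j + k] (bstart hφ rot hrot e he 0 0 (by omega)) =
      bstart hφ rot hrot e he j k hk := by
  induction j generalizing k with
  | zero =>
    induction k with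
    | zero => rfl
    | succ k ih =>
      have := ih (by omega)
      rw [show 4 * 0 + (k + 1) = (4 * 0 + k) + 1 by ring, Function.iterate_succ_apply', this,
        nxt_bstart]
  | succ j ihj =>
    induction k with
    | zero =>
      have := ihj 3 (by omega)
      rw [show 4 * (j + 1) + 0 = (4 * j + 3) + 1 by ring, Function.iterate_succ_apply', this,
        nxt_bstart_last]
    | succ k ih =>
      have := ih (by omega)
      rw [show 4 * (j + 1) + (k + 1) = (4 * (j + 1) + k) + 1 by ring,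
        Function.iterate_succ_apply', this, nxt_bstart]

theorem bstart_six (e : H.Dart) (he : φ e.fst = 0) :
    bstart hφ rot hrot e he 6 0 (by omega) = bstart hφ rot hrot e he 0 0 (by omega) := by
  apply Subtype.ext
  show rot^[0 + 1] (flip H (rot^[6] e)) = rot^[0 + 1] (flip H (rot^[0] e))
  have := Function.isPeriodicPt_minimalPeriod rot e
  rw [period_apex hφ rot hrot he] at this
  have h : rot^[6] e = e := this
  rw [h]
  rfl

/-- Every rim dart lies in a cell: a block word of 24 darts. -/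
theorem exists_cell (d : Rim H φ) :
    ∃ (s : Rim H φ) (i : ℕ), i < 24 ∧ (nxt hφ rot hrot)^[i] s = d ∧
      (nxt hφ rot hrot)^[24] s = s ∧
      BlockWord fun i => lab φ ((nxt hφ rot hrot)^[i] s).1 := by
  -- the apex dart at the vertex of `d`
  have hex : ∀ u : Fin 7, u ≠ 0 → K1222.Adj u 0 := by decide
  obtain ⟨x, hx1, hx2⟩ := hφ.dart_surj d.1.fst ⟨(φ d.1.fst, 0), hex _ d.2.1⟩ rfl
  have hx0 : φ x.snd = 0 := congrArg (fun e : K1222.Dart => e.snd) hx2
  have hxf : φ x.fst ≠ 0 := by rw [hx1]; exact d.2.1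
  -- the dart over `(0, 1)` at the apex vertex
  have h01 : K1222.Adj 0 1 := by decide
  obtain ⟨e, he1, he2⟩ := hφ.dart_surj x.snd ⟨(0, 1), h01⟩ hx0.symm
  have he0 : φ e.fst = 0 := by rw [he1]; exact hx0
  have he1' : φ e.snd = 1 := congrArg (fun e : K1222.Dart => e.snd) he2
  obtain ⟨j, hj, hje⟩ := exists_iterate rot hrot (x := e) (y := flip H x) (by rw [he1]; rfl)
  rw [period_apex hφ rot hrot he0] at hj
  obtain ⟨k, hk, hkx⟩ := exists_iterate rot hrot (x := x) (y := d.1) hx1.symm
  rw [period_rim hφ rot hrot hxf] at hk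
  have hk0 : k ≠ 0 := by
    rintro rfl
    have : x = d.1 := hkx
    exact d.2.2 (by rw [← this]; exact hx0)
  obtain ⟨k, rfl⟩ := Nat.exists_eq_succ_of_ne_zero hk0
  have hfd : flip H (rot^[j] e) = x := by rw [hje, flip_flip']
  refine ⟨bstart hφ rot hrot e he0 0 0 (by omega), 4 * j + k, by omega, ?_, ?_, ?_⟩
  · rw [iterate_nxt hφ rot hrot e he0 j k (by omega)]
    apply Subtype.ext
    show rot^[k + 1] (flip H (rot^[j] e)) = d.1
    rw [hfd]
    exact hkx
  · have := iterate_nxt hφ rot hrot e he0 6 0 (by omega)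
    rw [show 4 * 6 + 0 = 24 by norm_num] at this
    rw [this, bstart_six]
  · have hap : ∀ j, φ (rot^[j] e).fst = 0 := fun j => by rw [iterate_fst rot hrot]; exact he0
    have hne : ∀ j, φ (flip H (rot^[j] e)).fst ≠ 0 := fun j => not_both_apex hφ _ (hap j)
    refine ⟨fun j => φ (rot^[j] e).snd, fun j k => φ (rot^[k + 1] (flip H (rot^[j] e))).snd,
      he1', fun j => hne j, ?_, ?_, ?_, ?_, ?_⟩
    · intro i hi j hj h
      refine iter_ne rot (x := e) (by rw [period_apex hφ rot hrot he0]; exact hi)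
        (by rw [period_apex hφ rot hrot he0]; exact hj) ?_
      refine hφ.dart_inj (by rw [iterate_fst rot hrot, iterate_fst rot hrot]) ?_
      exact SimpleGraph.Dart.ext _ _ (Prod.ext ((hap i).trans (hap j).symm) h)
    · intro j k hk
      exact block_rim hφ rot hrot (hne j) (hap j) hk
    · intro j k _
      have := hφ.adj (rot^[k + 1] (flip H (rot^[j] e))).adj
      rw [iterate_fst rot hrot] at this
      exact this
    · intro j k hk l hl h
      have h5 := period_rim hφ rot hrot (hne j)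
      have : k + 1 = l + 1 := by
        refine iter_ne rot (x := flip H (rot^[j] e)) (by rw [h5]; omega) (by rw [h5]; omega) ?_
        refine hφ.dart_inj (by rw [iterate_fst rot hrot, iterate_fst rot hrot]) ?_
        refine SimpleGraph.Dart.ext _ _ (Prod.ext ?_ h)
        show φ (rot^[k + 1] (flip H (rot^[j] e))).fst = φ (rot^[l + 1] (flip H (rot^[j] e))).fst
        rw [iterate_fst rot hrot, iterate_fst rot hrot]
      omega
    · intro j _ k hk
      show lab φ ((nxt hφ rot hrot)^[4 * j + k] _).1 = _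
      rw [iterate_nxt hφ rot hrot e he0 j k hk]
      show (φ (rot^[k + 1] (flip H (rot^[j] e))).fst, _) = _
      rw [iterate_fst rot hrot]
      rfl

end

end Pool.Agent.Lib.MP_5854e1_co
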