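import Pool.Agent.Lib.MP_5854e1_co.Runs

/-!
# Enumeration of the runs of digons
-/

set_option autoImplicit false

namespace Pool.Agent.Lib.MP_5854e1_co

theorem noLong1 : ((allLab.take 6).all fun p => noLong 5 (scInit p) p []) = true := by
  decide +kernel

theorem noLong2 : (((allLab.drop 6).take 6).all fun p => noLong 5 (scInit p) p []) = true := by
  decide +kernel

theorem noLong3 : (((allLab.drop 12).take 6).all fun p => noLong 5 (scInit p) p []) = true := by
  decide +kernel

theorem noLong4 : ((allLab.drop 18).all fun p => noLong 5 (scInit p) p []) = true := by
  decide +kernel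

end Pool.Agent.Lib.MP_5854e1_co
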