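import Pool.Agent.Lib.MP_5854e1_co.NoLong

/-!
# A strip has at most five darts
-/

set_option autoImplicit false

open Equiv Equiv.Perm

namespace Pool.Agent.Lib.MP_5854e1_co

theorem noLong_all (p : Fin 7 × Fin 7) (hp : p ∈ allLab) : noLong 5 (scInit p) p [] = true := by
  have h : allLab = allLab.take 6 ++ ((allLab.drop 6).take 6 ++ ((allLab.drop 12).take 6 ++
    allLab.drop 18)) := rfl
  rw [h, List.mem_append, List.mem_append, List.mem_append] at hp
  rcases hp with hp | hp | hp | hp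
  · exact List.all_eq_true.1 noLong1 p hp
  · exact List.all_eq_true.1 noLong2 p hp
  · exact List.all_eq_true.1 noLong3 p hp
  · exact List.all_eq_true.1 noLong4 p hp

namespace Model24

variable {D : Type*} [Finite D] {M : Model24 D}

/-- There is no run of six darts. -/
theorem not_digRun (d : M.ODart) : ¬ M.DigRun d 5 := by
  intro h
  have h1 := noLong_sound d 5 0 (scInit (M.lab d.1)) (by norm_num) h rfl
  have h2 := noLong_all (M.lab d.1) (lab_mem d.1)
  have h3 : M.winList (M.oin (M.onx^[0] d)) 0 = [] := rfl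
  rw [h3] at h1
  rw [show M.lab (M.onx^[0] d).1 = M.lab d.1 from rfl, h2] at h1
  exact Bool.false_ne_true h1.symm

theorem exists_not_dig (d : M.ODart) : ∃ i, 0 < i ∧ i ≤ 5 ∧ ¬ M.Dig (M.onx^[i] d) := by
  by_contra h
  push Not at h
  exact not_digRun d fun i h0 hi => h i h0 hi

theorem len_le (f : M.FDart) : M.len f ≤ 5 := by
  obtain ⟨i, h0, hi, h⟩ := exists_not_dig f.1
  by_contra hlt
  push Not at hlt
  exact h (dig_of_lt f h0 (by omega))

omit [Finite D] in
theorem exists_outer (d : D) : ∃ i, M.Outer (M.nxt^[i] d) := by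
  by_cases h1 : M.EStart d
  · exact ⟨2, h1.outer_after⟩
  · by_cases h2 : M.EEnd d
    · obtain ⟨h3, h4⟩ := EEnd.exists h2
      refine ⟨1, ?_⟩
      have := h3.outer_after
      rw [h4] at this
      exact this
    · exact ⟨0, h1, h2⟩

/-- Every cell has a strip. -/
theorem noNecklace (M : Model24 D) : M.NoNecklace := by
  classical
  have := Fintype.ofFinite D
  intro d
  obtain ⟨i, hi⟩ := exists_outer (M := M) d
  obtain ⟨j, -, -, h⟩ := exists_not_dig ⟨M.nxt^[i] d, hi⟩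
  have h1 : M.nxt.SameCycle (M.nxt^[i] d) (M.onx^[j] ⟨M.nxt^[i] d, hi⟩).1 := by
    exact ((isRet_onx (M := M)).sameCycle_iff ⟨M.nxt^[i] d, hi⟩
      (M.onx^[j] ⟨M.nxt^[i] d, hi⟩)).1 ⟨j, by rw [zpow_natCast, Equiv.Perm.coe_pow]⟩
  have h2 : M.nxt.SameCycle d (M.onx^[j] ⟨M.nxt^[i] d, hi⟩).1 :=
    (show M.nxt.SameCycle d (M.nxt^[i] d) from
      ⟨i, by rw [zpow_natCast, Equiv.Perm.coe_pow]⟩).trans h1
  obtain ⟨k, hk⟩ := exists_iterate_of_sameCycle h2
  refine ⟨k, by rw [hk]; exact (M.onx^[j] ⟨M.nxt^[i] d, hi⟩).2, ?_⟩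
  have : (⟨M.nxt^[k] d, by rw [hk]; exact (M.onx^[j] ⟨M.nxt^[i] d, hi⟩).2⟩ : M.ODart) =
    M.onx^[j] ⟨M.nxt^[i] d, hi⟩ := Subtype.ext hk
  rw [this]
  exact h

end Model24

end Pool.Agent.Lib.MP_5854e1_co
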