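import Pool.Agent.Lib.MP_5854e1_co.OptTab

/-!
# The table of the options is correct
-/

set_option autoImplicit false

namespace Pool.Agent.Lib.MP_5854e1_co

theorem genOpt_a : ((List.range 34).all fun k => genOpt k == opt k) = true := by
  decide +kernel

theorem genOpt_b : ((List.range 34).all fun k => genOpt (k + 34) == opt (k + 34)) = true := by
  decide +kernel

theorem genOpt_c : ((List.range 33).all fun k => genOpt (k + 68) == opt (k + 68)) = true := by
  decide +kernel

theorem genOpt_eq {k : ℕ} (hk : k < 101) : genOpt k = opt k := by
  rcases Nat.lt_or_ge k 34 with h | h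
  · exact eq_of_beq (List.all_eq_true.1 genOpt_a k (List.mem_range.2 h))
  · rcases Nat.lt_or_ge k 68 with h' | h'
    · have := eq_of_beq (List.all_eq_true.1 genOpt_b (k - 34) (List.mem_range.2 (by omega)))
      rwa [Nat.sub_add_cancel h] at this
    · have := eq_of_beq (List.all_eq_true.1 genOpt_c (k - 68) (List.mem_range.2 (by omega)))
      rwa [Nat.sub_add_cancel h'] at this

end Pool.Agent.Lib.MP_5854e1_co
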