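import Pool.Agent.Lib.Pk.Axis
import Pool.Agent.Lib.MP_5854e1_co.Raw

/-!
# Packed blocks

A state of the search is a number `S` with `A` rows of `c` fields: the field `c * i + j` is the value
of the best path through the lane `i` of the last corner and the lane `j` of the next one. A field
`θ - K + x` means the value `x + 1`; zero means dead. `adv` adds a block and removes the dead
fields, `fol` takes the maximum over the rows, `tst` looks whether anything can stay alive.
-/

set_option autoImplicit false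

namespace Pool.Agent.Lib.MP_5854e1_co.PB

open Pk

/-! ### The field of a number -/

/-- The field of index `i`, of width `v + 1`. -/
def fl (v S i : ℕ) : ℕ := (S >>> ((v + 1) * i)) % 2 ^ (v + 1)

theorem fl_eq {v n S : ℕ} {f : ℕ → ℕ} (h : Rep v n S f) {i : ℕ} (hi : i < n) : fl v S i = f i := by
  have h1 := h.shiftRight i hi.le
  obtain ⟨k, hk⟩ : ∃ k, n - i = k + 1 := ⟨n - i - 1, by omega⟩
  unfold fl
  rw [h1.eq, hk, pk_succ, Nat.add_mul_mod_self_left]
  exact Nat.mod_eq_of_lt (h.lt' _ (by omega))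

/-- `S` has `n` fields, all smaller than `B`. -/
def HB (v n S B : ℕ) : Prop := ∃ f, Rep v n S f ∧ ∀ i < n, f i < B

theorem HB.rep {v n S B : ℕ} (h : HB v n S B) : Rep v n S (fl v S) := by
  obtain ⟨f, h1, -⟩ := h
  exact h1.congr fun i hi => (fl_eq h1 hi).symm

theorem HB.lt {v n S B : ℕ} (h : HB v n S B) : ∀ i < n, fl v S i < B := by
  obtain ⟨f, h1, h2⟩ := h
  intro i hi
  rw [fl_eq h1 hi]
  exact h2 i hi

theorem HB.mono {v n S B B' : ℕ} (h : HB v n S B) (hB : B ≤ B') : HB v n S B' := by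
  obtain ⟨f, h1, h2⟩ := h
  exact ⟨f, h1, fun i hi => lt_of_lt_of_le (h2 i hi) hB⟩

theorem HB.pad {v n N S B : ℕ} (h : HB v n S B) (hN : n ≤ N) (hB : 0 < B) : HB v N S B := by
  obtain ⟨f, h1, h2⟩ := h
  refine ⟨_, h1.pad hN, fun i _ => ?_⟩
  split_ifs with h
  · exact h2 i h
  · exact hB

/-! ### Removing the dead fields -/

def cut3 (L z d e : ℕ) : ℕ := Nat.add (Nat.land z (Nat.sub d e)) (Nat.mul e L)

def cut2 (v L z d : ℕ) : ℕ := cut3 L z d (Nat.shiftRight d v)

def cut1 (v G L z : ℕ) : ℕ := cut2 v L z (Nat.land z G)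

/-- Fields smaller than `θ` become zero, `K` is subtracted from the others;
`C = (2 ^ v - θ) * rep`, `L = θ - K`. -/
def cut (v G C L X : ℕ) : ℕ := cut1 v G L (Nat.add X C)

theorem cut_rep {v n X θ K : ℕ} {f : ℕ → ℕ} (h : Rep v n X f) (hθ : θ < 2 ^ v) (hK : K ≤ θ) :
    Rep v n (cut v (guard v n) ((2 ^ v - θ) * rep (v + 1) n) (θ - K) X)
      (fun i => if θ ≤ f i then f i - K else 0) := by
  have h0 : Rep v n (const v n θ) (fun _ => θ) := Rep.const hθ
  have hC : (2 ^ v - θ) * rep (v + 1) n = guard v n - const v n θ := by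
    unfold Pk.guard const
    rw [Nat.sub_mul]
  have hle : const v n θ ≤ guard v n := by
    unfold Pk.guard const
    exact Nat.mul_le_mul_right _ hθ.le
  have e1 : X + (2 ^ v - θ) * rep (v + 1) n = X + guard v n - const v n θ := by
    rw [hC]; omega
  obtain ⟨h1, h2⟩ := diff_parts h h0
  have h3 : (2 ^ v * pk (v + 1) n (fun i => if θ ≤ f i then 1 else 0)) >>> v
      = pk (v + 1) n (fun i => if θ ≤ f i then 1 else 0) := by
    rw [Nat.shiftRight_eq_div_pow, Nat.mul_div_cancel_left _ (by positivity)]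
  have h4 := h.monus h0
  have e2 : cut v (guard v n) ((2 ^ v - θ) * rep (v + 1) n) (θ - K) X =
      monus v (guard v n) X (const v n θ) +
        pk (v + 1) n (fun i => if θ ≤ f i then 1 else 0) * (θ - K) := by
    show ((X + (2 ^ v - θ) * rep (v + 1) n) &&& (((X + (2 ^ v - θ) * rep (v + 1) n) &&& guard v n) -
        (((X + (2 ^ v - θ) * rep (v + 1) n) &&& guard v n) >>> v))) +
      (((X + (2 ^ v - θ) * rep (v + 1) n) &&& guard v n) >>> v) * (θ - K) = _
    rw [e1]
    unfold monus
    simp only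
    rw [h2, h3]
  rw [e2]
  have h5 : Rep v n (pk (v + 1) n (fun i => if θ ≤ f i then 1 else 0) * (θ - K))
      (fun i => if θ ≤ f i then θ - K else 0) := by
    refine ⟨?_, fun i _ => ?_⟩
    · rw [mul_comm, pk_mul]
      exact pk_congr fun i _ => by split_ifs <;> simp
    · have : 0 < 2 ^ v := by positivity
      split_ifs <;> omega
  refine (Rep.add h4 h5 fun i hi => ?_).congr fun i hi => ?_
  · have := h.lt i hi
    have : 0 < 2 ^ v := by positivity
    split_ifs <;> omega
  · split_ifs <;> omega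

/-! ### Adding a block -/

/-- Spread `A` lanes over the rows. -/
def spr (T SM R X : ℕ) : ℕ := Nat.mul (Nat.land (Nat.mul X T) SM) R

theorem spr_rep {v A c X : ℕ} {f : ℕ → ℕ} (h : Rep v A X f) (hc : A + 1 ≤ c) (hc2 : 2 ≤ c) :
    Rep v (c * A) (spr (rep ((v + 1) * (c - 1)) A) (smask v c A) (rep (v + 1) c) X)
      (fun i => f (i / c)) :=
  (h.expand hc hc2).spread (by omega)

/-- One step: `M` is the block, `Y` the vector. -/
def adv (v T SM R G C L M Y : ℕ) : ℕ := cut v G C L (Nat.add (spr T SM R Y) M)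

variable {v A c θ K F Mm : ℕ}

theorem adv_rep {M Y : ℕ} {f m : ℕ → ℕ} (hc : A + 1 ≤ c) (hc2 : 2 ≤ c) (hθ : θ < 2 ^ v)
    (hK : K ≤ θ) (hY : Rep v A Y f) (hM : Rep v (c * A) M m)
    (hb : ∀ i < c * A, f (i / c) + m i < 2 ^ v) :
    Rep v (c * A) (adv v (rep ((v + 1) * (c - 1)) A) (smask v c A) (rep (v + 1) c)
      (guard v (c * A)) ((2 ^ v - θ) * rep (v + 1) (c * A)) (θ - K) M Y)
      (fun i => if θ ≤ f (i / c) + m i then f (i / c) + m i - K else 0) :=
  cut_rep ((spr_rep hY hc hc2).add hM hb) hθ hK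

theorem div_lt_of_lt_mul {i : ℕ} (hi : i < c * A) : i / c < A :=
  Nat.div_lt_of_lt_mul hi

theorem mul_add_lt {i j : ℕ} (hi : i < A) (hj : j < c) : c * i + j < c * A := by
  calc c * i + j < c * i + c := by omega
    _ = c * (i + 1) := by ring
    _ ≤ c * A := Nat.mul_le_mul_left _ hi

/-- **One step, values.** -/
theorem adv_HB {M Y : ℕ} (hc : A + 1 ≤ c) (hc2 : 2 ≤ c) (hθ : θ < 2 ^ v) (hK : K ≤ θ)
    (hY : HB v A Y F) (hM : HB v (c * A) M Mm) (hb : F + Mm ≤ 2 ^ v) (hKF : K < F + Mm) :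
    HB v (c * A) (adv v (rep ((v + 1) * (c - 1)) A) (smask v c A) (rep (v + 1) c)
      (guard v (c * A)) ((2 ^ v - θ) * rep (v + 1) (c * A)) (θ - K) M Y) (F + Mm - K) := by
  refine ⟨_, adv_rep hc hc2 hθ hK hY.rep hM.rep fun i hi => ?_, fun i hi => ?_⟩
  · have h1 := hY.lt _ (div_lt_of_lt_mul hi)
    have h2 := hM.lt _ hi
    omega
  · have h1 := hY.lt _ (div_lt_of_lt_mul hi)
    have h2 := hM.lt _ hi
    split_ifs <;> omega

/-- **One step, lower bound.** -/
theorem adv_le {M Y : ℕ} (hc : A + 1 ≤ c) (hc2 : 2 ≤ c) (hθ : θ < 2 ^ v) (hK : K ≤ θ)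
    (hY : HB v A Y F) (hM : HB v (c * A) M Mm) (hb : F + Mm ≤ 2 ^ v) {i j : ℕ} (hi : i < A)
    (hj : j < c) (h : θ ≤ fl v Y i + fl v M (c * i + j)) :
    fl v Y i + fl v M (c * i + j) ≤ fl v (adv v (rep ((v + 1) * (c - 1)) A) (smask v c A)
      (rep (v + 1) c) (guard v (c * A)) ((2 ^ v - θ) * rep (v + 1) (c * A)) (θ - K) M Y)
      (c * i + j) + K := by
  have h3 := mul_add_lt (A := A) hi hj
  have h4 : (c * i + j) / c = i := by
    rw [Nat.mul_add_div (by omega), Nat.div_eq_of_lt hj, add_zero]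
  rw [fl_eq (adv_rep hc hc2 hθ hK hY.rep hM.rep fun i hi => by
    have h1 := hY.lt _ (div_lt_of_lt_mul hi)
    have h2 := hM.lt _ hi
    omega) h3, h4, if_pos h]
  omega

/-! ### The maximum over the rows -/

def fo3 (v y z d : ℕ) : ℕ := Nat.add y (Nat.land z (Nat.sub d (Nat.shiftRight d v)))

def fo2 (v G y z : ℕ) : ℕ := fo3 v y z (Nat.land z G)

def fo1 (v G X y : ℕ) : ℕ := fo2 v G y (Nat.sub (Nat.add X G) y)

/-- The maximum with a shifted copy. -/
def fo (v G s X : ℕ) : ℕ := fo1 v G X (Nat.shiftRight X s)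

theorem fo_eq (v G s X : ℕ) : fo v G s X = vmax v G X (X >>> s) := rfl

/-- The folds by a list of shifts. -/
def fos (v G : ℕ) : List ℕ → ℕ → ℕ
  | [], X => X
  | s :: l, X => fos v G l (fo v G s X)

theorem fos_eq (v G : ℕ) (l : List ℕ) (X : ℕ) :
    fos v G (l.map ((v + 1) * ·)) X = window v G X l := by
  induction l generalizing X with
  | nil => rfl
  | cons s l ih =>
    rw [List.map_cons, fos, ih, fo_eq]
    rfl

theorem window_bound {n X B : ℕ} {g : ℕ → ℕ} {d cc c' : ℕ} {f : ℕ → ℕ} {l : List ℕ}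
    (hX : Rep v n X g) (hB : ∀ i < n, g i < B) (hB0 : 0 < B)
    (hg : ∀ i < n, ∀ t < cc, i + d * t < n → f (i + d * t) ≤ g i)
    (hl : goodShifts d cc l c') :
    ∃ g', Rep v n (window v (guard v n) X l) g' ∧ (∀ i < n, g' i < B) ∧
      ∀ i < n, ∀ t < c', i + d * t < n → f (i + d * t) ≤ g' i := by
  induction l generalizing cc X g with
  | nil =>
    cases hl
    exact ⟨g, hX, hB, hg⟩
  | cons s l ih =>
    obtain ⟨t0, rfl, ht0, hl⟩ := hl
    refine ih (hX.vmax (hX.shift0 (d * t0))) (fun i hi => ?_) (fun i hi t ht hit => ?_) hl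
    · refine max_lt (hB i hi) ?_
      split_ifs with h
      · exact hB _ h
      · exact hB0
    by_cases h : t < cc
    · exact le_trans (hg i hi t h hit) (le_max_left _ _)
    · have h1 : t0 ≤ t := by omega
      obtain ⟨u, rfl⟩ := Nat.exists_eq_add_of_le h1
      have h2 : i + d * (t0 + u) = (d * t0 + i) + d * u := by ring
      rw [h2] at hit ⊢
      have h3 : d * t0 + i < n := lt_of_le_of_lt (Nat.le_add_right _ _) hit
      refine le_trans (hg _ h3 u (by omega) hit) ?_
      rw [if_pos h3]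
      exact le_max_right _ _

/-- **The maximum over the rows.** -/
theorem fol_HB {S A' : ℕ} {l : List ℕ} (hA : 0 < A) (hS : HB v (c * A) S F) (hF : 0 < F)
    (hl : goodShifts c 1 l A) (hA' : A' ≤ c) :
    HB v A' (fos v (guard v (c * A)) (l.map ((v + 1) * ·)) S % 2 ^ ((v + 1) * A')) F ∧
      ∀ i < A, ∀ j < A', fl v S (c * i + j) ≤
        fl v (fos v (guard v (c * A)) (l.map ((v + 1) * ·)) S % 2 ^ ((v + 1) * A')) j := by
  obtain ⟨g', h1, h2, h3⟩ := window_bound (d := c) (cc := 1) (f := fl v S) hS.rep hS.lt hF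
    (fun i _ t ht _ => by
      obtain rfl : t = 0 := by omega
      simp) hl
  have hle : A' ≤ c * A := le_trans hA' (Nat.le_mul_of_pos_right _ hA)
  have h4 := h1.take hle
  rw [fos_eq]
  refine ⟨⟨g', h4, fun i hi => h2 i (by omega)⟩, fun i hi j hj => ?_⟩
  rw [fl_eq h4 hj]
  have h5 := h3 j (by omega) i hi (by
    have := mul_add_lt (A := A) (c := c) hi (lt_of_lt_of_le hj hA')
    omega)
  rw [add_comm j] at h5
  exact h5

/-! ### The test -/

/-- Something can stay alive: `Q` is the vector of the best continuations of the lanes. -/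
def tst (G R Q S : ℕ) : Bool :=
  Nat.beq (Nat.land (Nat.add S (Nat.mul Q R)) G) (nat_lit 0)

/-- **The test.** -/
theorem tst_false {S Q B : ℕ} (hc : 0 < c) (hS : HB v (c * A) S F)
    (hQ : HB v c Q B) {i j : ℕ} (hi : i < A) (hj : j < c)
    (h : 2 ^ v ≤ fl v S (c * i + j) + fl v Q j) :
    tst (guard v (c * A)) (rep ((v + 1) * c) A) Q S = false := by
  cases h1 : tst (guard v (c * A)) (rep ((v + 1) * c) A) Q S with
  | false => rfl
  | true =>
    have h2 : (S + Q * rep ((v + 1) * c) A) &&& guard v (c * A) = 0 := Nat.eq_of_beq_eq_true h1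
    have h3 := hS.rep.add_of_land (hQ.rep.tile hc A) h2
    have h4 := h3.lt _ (mul_add_lt (A := A) hi hj)
    have h5 : (c * i + j) % c = j := by rw [Nat.mul_add_mod, Nat.mod_eq_of_lt hj]
    rw [h5] at h4
    omega

/-! ### Checking the data -/

/-- A number with fields smaller than `2 ^ b`: `H` is the mask of the high bits. -/
theorem HB_of_land {n S b : ℕ} (hn : S < 2 ^ ((v + 1) * n)) (hbv : b ≤ v)
    (h : S &&& ((2 ^ (v + 1) - 2 ^ b) * rep (v + 1) n) = 0) : HB v n S (2 ^ b) := by
  have key : ∀ n S, S < 2 ^ ((v + 1) * n) →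
      S &&& pk (v + 1) n (fun _ => 2 ^ (v + 1) - 2 ^ b) = 0 →
      ∃ f, S = pk (v + 1) n f ∧ ∀ i < n, f i < 2 ^ b := by
    intro n
    induction n with
    | zero =>
      intro S hS _
      refine ⟨fun _ => 0, ?_, fun i hi => by omega⟩
      rw [mul_zero, pow_zero] at hS
      rw [pk_zero]
      omega
    | succ n ih =>
      intro S hS h
      have hp : 0 < 2 ^ (v + 1) := by positivity
      have e0 : S = S % 2 ^ (v + 1) + 2 ^ (v + 1) * (S / 2 ^ (v + 1)) := (Nat.mod_add_div _ _).symm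
      have hb2 : 2 ^ b ≤ 2 ^ (v + 1) := Nat.pow_le_pow_right (by norm_num) (by omega)
      have hb0 : 0 < 2 ^ b := by positivity
      rw [e0, pk_succ, land_add_mul (Nat.mod_lt _ hp) (by omega)] at h
      have h1 : S % 2 ^ (v + 1) &&& (2 ^ (v + 1) - 2 ^ b) = 0 := by omega
      have h2 : S / 2 ^ (v + 1) &&& pk (v + 1) n (fun _ => 2 ^ (v + 1) - 2 ^ b) = 0 := by
        have : 2 ^ (v + 1) * (S / 2 ^ (v + 1) &&& pk (v + 1) n (fun _ => 2 ^ (v + 1) - 2 ^ b)) = 0 := by
          omega
        rcases Nat.mul_eq_zero.1 this with h3 | h3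
        · omega
        · exact h3
      have h3 : S / 2 ^ (v + 1) < 2 ^ ((v + 1) * n) := by
        rw [Nat.div_lt_iff_lt_mul hp, ← pow_add]
        rwa [show (v + 1) * n + (v + 1) = (v + 1) * (n + 1) by ring]
      obtain ⟨f, h4, h5⟩ := ih _ h3 h2
      refine ⟨fun i => Nat.casesOn i (S % 2 ^ (v + 1)) f, ?_, ?_⟩
      · rw [pk_succ]
        conv_lhs => rw [e0, h4]
        rfl
      · intro i hi
        cases i with
        | zero =>
          show S % 2 ^ (v + 1) < 2 ^ b
          by_contra hcon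
          push Not at hcon
          -- some bit at a place in `[b, v]` is set
          have hlt : S % 2 ^ (v + 1) < 2 ^ (v + 1) := Nat.mod_lt _ hp
          have h6 : (S % 2 ^ (v + 1)) / 2 ^ b ≠ 0 := by
            have := Nat.div_pos hcon hb0
            omega
          obtain ⟨t, ht⟩ := Nat.exists_testBit_of_ne_zero h6
          rw [Nat.testBit_div_two_pow] at ht
          have h7 : Nat.testBit (2 ^ (v + 1) - 2 ^ b) (t + b) = true := by
            have h8 : t + b < v + 1 := by
              by_contra hc2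
              push Not at hc2
              have := Nat.testBit_lt_two_pow (lt_of_lt_of_le hlt (Nat.pow_le_pow_right (by norm_num) hc2))
              rw [this] at ht
              exact absurd ht Bool.false_ne_true
            have e3 : 2 ^ (v + 1) - 2 ^ b = 2 ^ b * (2 ^ (v + 1 - b) - 1) := by
              rw [Nat.mul_sub, ← pow_add, mul_one]
              congr 2
              omega
            rw [e3, Nat.testBit_two_pow_mul, Nat.testBit_two_pow_sub_one]
            simp only [Bool.and_eq_true, decide_eq_true_eq]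
            omega
          have h9 : Nat.testBit (S % 2 ^ (v + 1) &&& (2 ^ (v + 1) - 2 ^ b)) (t + b) = true := by
            rw [Nat.testBit_and, ht, h7]
            rfl
          rw [h1] at h9
          simp at h9
        | succ i => exact h5 i (by omega)
  rw [const_eq (Nat.succ_pos v)] at h
  obtain ⟨f, h1, h2⟩ := key n S hn h
  exact ⟨f, ⟨h1, fun i hi => lt_of_lt_of_le (h2 i hi) (Nat.pow_le_pow_right (by norm_num) hbv)⟩, h2⟩

end Pool.Agent.Lib.MP_5854e1_co.PB
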