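import Pool.Agent.Lib.MP_5854e1_co.PBlock

/-!
# The operations for the blocks of a given format

The width of a field is `23`, `v = 22`; `θ = 2 ^ 20 + 2 ^ 16`, `K = 2 ^ 16`. A block from `a` lanes to
`b` lanes is stored with the rows outside (`A`: field `c * i + j`, `a + 1 ≤ c`, `b ≤ c`) or with the
columns outside (`B`: field `c * j + i`, `b + 1 ≤ c`, `a ≤ c`).
-/

set_option autoImplicit false

namespace Pool.Agent.Lib.MP_5854e1_co.PB

open Pk

/-- The vector `Y`, cut to `n` fields, has fields smaller than `F`. -/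
def Vec (v n Y F : ℕ) : Prop := HB v n (Y % 2 ^ ((v + 1) * n)) F

/-- The field `i` of the vector `Y` of `n` fields. -/
def vf (v n Y i : ℕ) : ℕ := fl v (Y % 2 ^ ((v + 1) * n)) i

/-- What we need of the operations. `φ i j` is the place of the entry `(i, j)`, `N` the number of
fields. -/
structure OpOK (v θ K a b N : ℕ) (φ : ℕ → ℕ → ℕ) (adv : ℕ → ℕ → ℕ) (fol : ℕ → ℕ)
    (tst : ℕ → ℕ → Bool) : Prop where
  lt : ∀ i < a, ∀ j < b, φ i j < N
  adv_HB : ∀ {M Y F Mm : ℕ}, Vec v a Y F → HB v N M Mm → F + Mm ≤ 2 ^ v → K < F + Mm →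
    HB v N (adv M Y) (F + Mm - K)
  adv_le : ∀ {M Y F Mm : ℕ}, Vec v a Y F → HB v N M Mm → F + Mm ≤ 2 ^ v → ∀ i < a, ∀ j < b,
    θ ≤ vf v a Y i + fl v M (φ i j) →
      vf v a Y i + fl v M (φ i j) ≤ fl v (adv M Y) (φ i j) + K
  fol_HB : ∀ {S F : ℕ}, HB v N S F → 0 < F → Vec v b (fol S) F
  fol_le : ∀ {S F : ℕ}, HB v N S F → 0 < F → ∀ i < a, ∀ j < b,
    fl v S (φ i j) ≤ vf v b (fol S) j
  tst_false : ∀ {S Q F B : ℕ}, HB v N S F → HB v b Q B → ∀ i < a, ∀ j < b,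
    2 ^ v ≤ fl v S (φ i j) + fl v Q j → tst Q S = false

/-! ### Rows outside -/

variable {v a b c θ K : ℕ}

def advA (W T SM R v G C L M Y : ℕ) : ℕ := adv v T SM R G C L M (Nat.mod Y W)

theorem fl_take {n m Y : ℕ} {F : ℕ} (h : HB v n Y F) (hm : m ≤ n) {i : ℕ} (hi : i < m) :
    fl v (Y % 2 ^ ((v + 1) * m)) i = fl v Y i := by
  rw [fl_eq (h.rep.take hm) hi]

theorem opA (ha : 0 < a) (hac : a + 1 ≤ c) (hbc : b ≤ c) (hc2 : 2 ≤ c) (hθ : θ < 2 ^ v)
    (hK : K ≤ θ) {l : List ℕ} (hl : goodShifts c 1 l a) {fol : ℕ → ℕ}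
    (hfol : ∀ S, fol S = window v (guard v (c * a)) S l) :
    OpOK v θ K a b (c * a) (fun i j => c * i + j)
      (advA (2 ^ ((v + 1) * a)) (rep ((v + 1) * (c - 1)) a) (smask v c a) (rep (v + 1) c) v
        (guard v (c * a)) ((2 ^ v - θ) * rep (v + 1) (c * a)) (θ - K))
      fol (tst (guard v (c * a)) (rep ((v + 1) * c) a)) where
  lt i hi j hj := mul_add_lt hi (lt_of_lt_of_le hj hbc)
  adv_HB hY hM hb hKF := adv_HB hac hc2 hθ hK hY hM hb hKF
  adv_le hY hM hb i hi j hj h := adv_le hac hc2 hθ hK hY hM hb hi (lt_of_lt_of_le hj hbc) h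
  fol_HB {S F} hS hF := by
    rw [Vec, hfol, ← fos_eq]
    exact (fol_HB (c := c) (A' := b) ha hS hF hl hbc).1
  fol_le {S F} hS hF i hi j hj := by
    rw [vf, hfol, ← fos_eq]
    exact (fol_HB (c := c) (A' := b) ha hS hF hl hbc).2 i hi j hj
  tst_false {S Q F B} hS hQ i hi j hj h := by
    have hB : 0 < B := by
      have := hQ.lt j hj
      omega
    exact tst_false (B := B) (by omega) hS (hQ.pad hbc hB) hi (lt_of_lt_of_le hj hbc) h

/-! ### The maximum over the rows by halving -/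

/-- The maximum of the lower part `X % W` and the upper part `X >>> s`. -/
def ho (v G W s X : ℕ) : ℕ := fo1 v G (Nat.mod X W) (Nat.shiftRight X s)

theorem halve_ho {N m k k' X : ℕ} (h : m * k' ≤ N) : Pk.halve v (guard v N) m k k' X =
    ho v (guard v (m * k')) (2 ^ ((v + 1) * (m * k'))) ((v + 1) * (m * (k - k'))) X := by
  unfold Pk.halve
  rw [guard_mod h]
  rfl

theorem halves_bound {N B m : ℕ} : ∀ {l : List ℕ} {k X : ℕ} {f : ℕ → ℕ}, Rep v (m * k) X f →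
    (∀ i < m * k, f i < B) → goodHalves k l = true → m * k ≤ N →
    ∃ g, Rep v m (halves v (guard v N) m k l X) g ∧ (∀ i < m, g i < B) ∧
      ∀ i < m, ∀ j < k, f (m * j + i) ≤ g i := by
  intro l
  induction l with
  | nil =>
    intro k X f hX hB hl hN
    obtain rfl : k = 1 := Nat.eq_of_beq_eq_true hl
    rw [mul_one] at hX hB
    refine ⟨f, hX, hB, fun i _ j hj => ?_⟩
    obtain rfl : j = 0 := by omega
    simp
  | cons k' l ih =>
    intro k X f hX hB hl hN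
    simp only [goodHalves, Bool.and_eq_true] at hl
    have hc := Nat.le_of_ble_eq_true hl.1
    have hc2 := Nat.le_of_ble_eq_true hl.2.1
    have hmc : m * k' ≤ m * k := Nat.mul_le_mul_left _ hc
    have h1 := hX.take hmc
    have h2 := hX.shiftRight (m * (k - k')) (Nat.mul_le_mul_left _ (by omega))
    have e : m * k - m * (k - k') = m * k' := by
      rw [← Nat.mul_sub]; congr 1; omega
    have e' : m * (k - k') + m * k' = m * k := by
      rw [← Nat.mul_add]; congr 1; omega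
    rw [e] at h2
    have h3 : Rep v (m * k') (Pk.halve v (guard v N) m k k' X)
        (fun i => max (f i) (f (m * (k - k') + i))) := by
      unfold Pk.halve
      rw [guard_mod (hmc.trans hN)]
      exact h1.vmax h2
    obtain ⟨g', h4, h5, h6⟩ := ih h3
      (fun i hi => max_lt (hB i (by omega)) (hB _ (by omega))) hl.2.2 (hmc.trans hN)
    refine ⟨g', h4, h5, fun i hi j hj => ?_⟩
    by_cases h : j < k'
    · exact le_trans (le_max_left _ _) (h6 i hi j h)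
    · have h7 := h6 i hi (j - (k - k')) (by omega)
      have h8 : m * (k - k') + (m * (j - (k - k')) + i) = m * j + i := by
        rw [← add_assoc, ← Nat.mul_add]
        congr 2
        omega
      simp only [h8] at h7
      exact le_trans (le_max_right _ _) h7

/-- The operations with rows outside and the fold by halving. -/
theorem opA' (ha : 0 < a) (hac : a + 1 ≤ c) (hbc : b ≤ c) (hc2 : 2 ≤ c) (hθ : θ < 2 ^ v)
    (hK : K ≤ θ) {l : List ℕ} (hl : goodHalves a l = true) {fol : ℕ → ℕ}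
    (hfol : ∀ S, fol S = halves v (guard v (c * a)) c a l S) :
    OpOK v θ K a b (c * a) (fun i j => c * i + j)
      (advA (2 ^ ((v + 1) * a)) (rep ((v + 1) * (c - 1)) a) (smask v c a) (rep (v + 1) c) v
        (guard v (c * a)) ((2 ^ v - θ) * rep (v + 1) (c * a)) (θ - K))
      fol (tst (guard v (c * a)) (rep ((v + 1) * c) a)) where
  lt i hi j hj := mul_add_lt hi (lt_of_lt_of_le hj hbc)
  adv_HB hY hM hb hKF := adv_HB hac hc2 hθ hK hY hM hb hKF
  adv_le hY hM hb i hi j hj h := adv_le hac hc2 hθ hK hY hM hb hi (lt_of_lt_of_le hj hbc) h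
  fol_HB {S F} hS hF := by
    obtain ⟨g, h1, h2, -⟩ := halves_bound (v := v) (N := c * a) (B := F) hS.rep hS.lt hl le_rfl
    rw [Vec, hfol]
    exact ⟨g, h1.take hbc, fun i hi => h2 i (by omega)⟩
  fol_le {S F} hS hF i hi j hj := by
    obtain ⟨g, h1, -, h3⟩ := halves_bound (v := v) (N := c * a) (B := F) hS.rep hS.lt hl le_rfl
    rw [vf, hfol, fl_eq (h1.take hbc) hj]
    exact h3 j (by omega) i hi
  tst_false {S Q F B} hS hQ i hi j hj h := by
    have hB : 0 < B := by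
      have := hQ.lt j hj
      omega
    exact tst_false (B := B) (by omega) hS (hQ.pad hbc hB) hi (lt_of_lt_of_le hj hbc) h

/-! ### Columns outside -/

def advB (W T v G C L M Y : ℕ) : ℕ := cut v G C L (Nat.add (Nat.mul (Nat.mod Y W) T) M)

/-- The fold. -/
def folB1 (SM D X : ℕ) : ℕ := Nat.mod (Nat.land X SM) D

def tstB (T SM R G Q S : ℕ) : Bool :=
  Nat.beq (Nat.land (Nat.add S (spr T SM R Q)) G) (nat_lit 0)

theorem tileB {Y : ℕ} {f : ℕ → ℕ} (hac : a ≤ c) (hc : 0 < c) (hY : Rep v a Y f) :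
    Rep v (c * b) (Y * rep ((v + 1) * c) b) (fun i => if i % c < a then f (i % c) else 0) :=
  (hY.pad hac).tile hc b

theorem mod_lt_iff {i j : ℕ} (hi : i < c) : (c * j + i) % c = i := by
  rw [Nat.mul_add_mod, Nat.mod_eq_of_lt hi]

theorem advB_rep {M Y : ℕ} {f m : ℕ → ℕ} (hac : a ≤ c) (hc : 0 < c) (hθ : θ < 2 ^ v)
    (hK : K ≤ θ) (hY : Rep v a (Y % 2 ^ ((v + 1) * a)) f) (hM : Rep v (c * b) M m)
    (hb : ∀ i < c * b, (if i % c < a then f (i % c) else 0) + m i < 2 ^ v) :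
    Rep v (c * b) (advB (2 ^ ((v + 1) * a)) (rep ((v + 1) * c) b) v (guard v (c * b))
        ((2 ^ v - θ) * rep (v + 1) (c * b)) (θ - K) M Y)
      (fun i => if θ ≤ (if i % c < a then f (i % c) else 0) + m i then
        (if i % c < a then f (i % c) else 0) + m i - K else 0) :=
  cut_rep ((tileB hac hc hY).add hM hb) hθ hK

theorem opB (hac : a ≤ c) (hbc : b + 1 ≤ c) (hc2 : 2 ≤ c)
    (hθ : θ < 2 ^ v) (hK : K ≤ θ) {l : List ℕ} (hl : goodShifts 1 1 l a) {fol : ℕ → ℕ}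
    (hfol : ∀ S, fol S = folB1 (smask v c b) (2 ^ ((v + 1) * c) - 2 ^ (v + 1))
      (window v (guard v (c * b)) S l)) :
    OpOK v θ K a b (c * b) (fun i j => c * j + i)
      (advB (2 ^ ((v + 1) * a)) (rep ((v + 1) * c) b) v (guard v (c * b))
        ((2 ^ v - θ) * rep (v + 1) (c * b)) (θ - K))
      fol (tstB (rep ((v + 1) * (c - 1)) b) (smask v c b) (rep (v + 1) c) (guard v (c * b))) := by
  have hc : 0 < c := by omega
  have key : ∀ {S F : ℕ}, HB v (c * b) S F → 0 < F → ∃ g, Rep v b (fol S) g ∧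
      (∀ j < b, g j < F) ∧ ∀ i < a, ∀ j < b, fl v S (c * j + i) ≤ g j := by
    intro S F hS hF
    obtain ⟨g', h1, h2, h3⟩ := window_bound (d := 1) (cc := 1) (f := fl v S) hS.rep hS.lt hF
      (fun i _ t ht _ => by
        obtain rfl : t = 0 := by omega
        simp) hl
    have h4 := (h1.stride hc).compress hbc hc2
    rw [hfol]
    refine ⟨_, h4, fun j hj => h2 _ (Nat.mul_lt_mul_of_pos_left hj hc), fun i hi j hj => ?_⟩
    have h5 := h3 (c * j) (Nat.mul_lt_mul_of_pos_left hj hc) i hi (by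
      rw [one_mul]
      exact mul_add_lt (A := b) hj (lt_of_lt_of_le hi hac))
    rw [one_mul] at h5
    exact h5
  refine ⟨?_, ?_, ?_, ?_, ?_, ?_⟩
  · intro i hi j hj
    exact mul_add_lt hj (lt_of_lt_of_le hi hac)
  · intro M Y F Mm hY hM hb hKF
    refine ⟨_, advB_rep hac hc hθ hK hY.rep hM.rep fun i hi => ?_, fun i hi => ?_⟩
    · have h2 := hM.lt _ hi
      split_ifs with h
      · have h1 := hY.lt _ h
        omega
      · omega
    · have h2 := hM.lt _ hi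
      by_cases h : i % c < a
      · have h1 := hY.lt _ h
        simp only [if_pos h]
        split_ifs <;> omega
      · simp only [if_neg h]
        split_ifs <;> omega
  · intro M Y F Mm hY hM hb i hi j hj h
    have h3 := mul_add_lt (A := b) (c := c) hj (lt_of_lt_of_le hi hac)
    have h4 : (c * j + i) % c = i := mod_lt_iff (lt_of_lt_of_le hi hac)
    unfold vf at h ⊢
    rw [fl_eq (advB_rep hac hc hθ hK hY.rep hM.rep fun i hi => by
      have h2 := hM.lt _ hi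
      split_ifs with h
      · have h1 := hY.lt _ h
        omega
      · omega) h3, h4, if_pos hi, if_pos h]
    omega
  · intro S F hS hF
    obtain ⟨g, h1, h2, -⟩ := key hS hF
    exact ⟨g, h1.take le_rfl, h2⟩
  · intro S F hS hF i hi j hj
    obtain ⟨g, h1, -, h3⟩ := key hS hF
    rw [vf, fl_eq (h1.take le_rfl) hj]
    exact h3 i hi j hj
  · intro S Q F B hS hQ i hi j hj h
    cases h1 : tstB (rep ((v + 1) * (c - 1)) b) (smask v c b) (rep (v + 1) c) (guard v (c * b)) Q S with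
    | false => rfl
    | true =>
      have h2 : (S + spr (rep ((v + 1) * (c - 1)) b) (smask v c b) (rep (v + 1) c) Q) &&&
        guard v (c * b) = 0 := Nat.eq_of_beq_eq_true h1
      have h3 := hS.rep.add_of_land (spr_rep hQ.rep hbc hc2) h2
      have h5 := mul_add_lt (A := b) (c := c) hj (lt_of_lt_of_le hi hac)
      have h4 := h3.lt _ h5
      have h6 : (c * j + i) / c = j := by
        rw [Nat.mul_add_div hc, Nat.div_eq_of_lt (lt_of_lt_of_le hi hac), add_zero]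
      rw [h6] at h4
      omega

/-! ### The folds -/

/-- The lists of shifts. -/
def shl (u a : ℕ) : List ℕ :=
  if a ≤ 1 then [] else if a ≤ 2 then [u * (a - 1)] else if a ≤ 4 then [u * 1, u * (a - 2)] else
  if a ≤ 8 then [u * 1, u * 2, u * (a - 4)] else
  if a ≤ 16 then [u * 1, u * 2, u * 4, u * (a - 8)] else
  if a ≤ 32 then [u * 1, u * 2, u * 4, u * 8, u * (a - 16)] else
  if a ≤ 64 then [u * 1, u * 2, u * 4, u * 8, u * 16, u * (a - 32)] else
  if a ≤ 128 then [u * 1, u * 2, u * 4, u * 8, u * 16, u * 32, u * (a - 64)] else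
  [u * 1, u * 2, u * 4, u * 8, u * 16, u * 32, u * 64, u * (a - 128)]

theorem good_shl {u a : ℕ} (h0 : 0 < a) (h1 : a ≤ 256) : goodShifts u 1 (shl u a) a := by
  unfold shl
  split_ifs with h2 h3 h4 h5 h6 h7 h8 h9
  · show 1 = a
    omega
  · exact ⟨_, rfl, by omega, by show _ = _; omega⟩
  · exact ⟨_, rfl, by omega, _, rfl, by omega, by show _ = _; omega⟩
  · exact ⟨_, rfl, by omega, _, rfl, by omega, _, rfl, by omega, by show _ = _; omega⟩
  · exact ⟨_, rfl, by omega, _, rfl, by omega, _, rfl, by omega, _, rfl, by omega,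
      by show _ = _; omega⟩
  · exact ⟨_, rfl, by omega, _, rfl, by omega, _, rfl, by omega, _, rfl, by omega, _, rfl,
      by omega, by show _ = _; omega⟩
  · exact ⟨_, rfl, by omega, _, rfl, by omega, _, rfl, by omega, _, rfl, by omega, _, rfl,
      by omega, _, rfl, by omega, by show _ = _; omega⟩
  · exact ⟨_, rfl, by omega, _, rfl, by omega, _, rfl, by omega, _, rfl, by omega, _, rfl,
      by omega, _, rfl, by omega, _, rfl, by omega, by show _ = _; omega⟩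
  · exact ⟨_, rfl, by omega, _, rfl, by omega, _, rfl, by omega, _, rfl, by omega, _, rfl,
      by omega, _, rfl, by omega, _, rfl, by omega, _, rfl, by omega, by show _ = _; omega⟩

/-! ### The record of the operations -/

/-- The operations of a format. -/
inductive Op where
  | mk (adv : ℕ → ℕ → ℕ) (fol : ℕ → ℕ) (tst : ℕ → ℕ → Bool) : Op

namespace Op

noncomputable section

/-- One step. -/
def adv (o : Op) (M Y : ℕ) : ℕ := Op.rec (motive := fun _ => ℕ) (fun f _ _ => f M Y) o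

/-- The maximum over the sources. -/
def fol (o : Op) (S : ℕ) : ℕ := Op.rec (motive := fun _ => ℕ) (fun _ f _ => f S) o

/-- The test. -/
def tst (o : Op) (Q S : ℕ) : Bool := Op.rec (motive := fun _ => Bool) (fun _ _ f => f Q S) o

theorem adv_mk (f : ℕ → ℕ → ℕ) (g : ℕ → ℕ) (h : ℕ → ℕ → Bool) : (Op.mk f g h).adv = f := rfl

theorem fol_mk (f : ℕ → ℕ → ℕ) (g : ℕ → ℕ) (h : ℕ → ℕ → Bool) : (Op.mk f g h).fol = g := rfl

theorem tst_mk (f : ℕ → ℕ → ℕ) (g : ℕ → ℕ) (h : ℕ → ℕ → Bool) : (Op.mk f g h).tst = h := rfl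

end

end Op

/-- The number with `n` fields of `w` digits equal to one. -/
def repN (w n : ℕ) : ℕ :=
  Nat.div (Nat.sub (Nat.pow (nat_lit 2) (Nat.mul w n)) (nat_lit 1))
    (Nat.sub (Nat.pow (nat_lit 2) w) (nat_lit 1))

/-- The guard digits of `n` fields. -/
def gdN (n : ℕ) : ℕ := Nat.mul (nat_lit 4194304) (repN (nat_lit 23) n)

/-- The vector of `n` fields `2 ^ 22 - θ`. -/
def ctN (n : ℕ) : ℕ := Nat.mul (nat_lit 3080192) (repN (nat_lit 23) n)

/-- The mask of every `k`-th field. -/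
def smN (k m : ℕ) : ℕ :=
  Nat.mul (nat_lit 8388607) (repN (Nat.mul (nat_lit 23) k) m)

/-- The power for `n` fields. -/
def pwN (n : ℕ) : ℕ := Nat.pow (nat_lit 2) (Nat.mul (nat_lit 23) n)

theorem repN_eq (w n : ℕ) : repN w n = rep w n := rfl

theorem gdN_eq (n : ℕ) : gdN n = Pk.guard 22 n := rfl

theorem pwN_eq (n : ℕ) : pwN n = 2 ^ (23 * n) := rfl

theorem smN_eq (k m : ℕ) : smN k m = smask 22 k m := rfl

/-- The fold function is chosen once. -/
def pick (G u a : ℕ) (mk : (ℕ → ℕ) → Op) : Op :=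
  rIf (Nat.ble a (nat_lit 1)) (mk fun X => X)
  (rIf (Nat.ble a (nat_lit 2)) (mk fun X => fo 22 G (Nat.mul (nat_lit 23) (Nat.mul u (Nat.sub a (nat_lit 1)))) X)
  (rIf (Nat.ble a (nat_lit 4)) (mk fun X => fo 22 G (Nat.mul (nat_lit 23) (Nat.mul u (Nat.sub a (nat_lit 2)))) (fo 22 G (Nat.mul (nat_lit 23) (Nat.mul u (nat_lit 1))) X))
  (rIf (Nat.ble a (nat_lit 8)) (mk fun X => fo 22 G (Nat.mul (nat_lit 23) (Nat.mul u (Nat.sub a (nat_lit 4))))
    (fo 22 G (Nat.mul (nat_lit 23) (Nat.mul u (nat_lit 2))) (fo 22 G (Nat.mul (nat_lit 23) (Nat.mul u (nat_lit 1))) X)))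
  (rIf (Nat.ble a (nat_lit 16)) (mk fun X => fo 22 G (Nat.mul (nat_lit 23) (Nat.mul u (Nat.sub a (nat_lit 8))))
    (fo 22 G (Nat.mul (nat_lit 23) (Nat.mul u (nat_lit 4))) (fo 22 G (Nat.mul (nat_lit 23) (Nat.mul u (nat_lit 2))) (fo 22 G (Nat.mul (nat_lit 23) (Nat.mul u (nat_lit 1))) X))))
  (rIf (Nat.ble a (nat_lit 32)) (mk fun X => fo 22 G (Nat.mul (nat_lit 23) (Nat.mul u (Nat.sub a (nat_lit 16))))
    (fo 22 G (Nat.mul (nat_lit 23) (Nat.mul u (nat_lit 8))) (fo 22 G (Nat.mul (nat_lit 23) (Nat.mul u (nat_lit 4))) (fo 22 G (Nat.mul (nat_lit 23) (Nat.mul u (nat_lit 2)))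
      (fo 22 G (Nat.mul (nat_lit 23) (Nat.mul u (nat_lit 1))) X)))))
  (rIf (Nat.ble a (nat_lit 64)) (mk fun X => fo 22 G (Nat.mul (nat_lit 23) (Nat.mul u (Nat.sub a (nat_lit 32))))
    (fo 22 G (Nat.mul (nat_lit 23) (Nat.mul u (nat_lit 16))) (fo 22 G (Nat.mul (nat_lit 23) (Nat.mul u (nat_lit 8))) (fo 22 G (Nat.mul (nat_lit 23) (Nat.mul u (nat_lit 4)))
      (fo 22 G (Nat.mul (nat_lit 23) (Nat.mul u (nat_lit 2))) (fo 22 G (Nat.mul (nat_lit 23) (Nat.mul u (nat_lit 1))) X))))))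
  (rIf (Nat.ble a (nat_lit 128)) (mk fun X => fo 22 G (Nat.mul (nat_lit 23) (Nat.mul u (Nat.sub a (nat_lit 64))))
    (fo 22 G (Nat.mul (nat_lit 23) (Nat.mul u (nat_lit 32))) (fo 22 G (Nat.mul (nat_lit 23) (Nat.mul u (nat_lit 16))) (fo 22 G (Nat.mul (nat_lit 23) (Nat.mul u (nat_lit 8)))
      (fo 22 G (Nat.mul (nat_lit 23) (Nat.mul u (nat_lit 4))) (fo 22 G (Nat.mul (nat_lit 23) (Nat.mul u (nat_lit 2))) (fo 22 G (Nat.mul (nat_lit 23) (Nat.mul u (nat_lit 1))) X)))))))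
    (mk fun X => fo 22 G (Nat.mul (nat_lit 23) (Nat.mul u (Nat.sub a (nat_lit 128))))
    (fo 22 G (Nat.mul (nat_lit 23) (Nat.mul u (nat_lit 64))) (fo 22 G (Nat.mul (nat_lit 23) (Nat.mul u (nat_lit 32))) (fo 22 G (Nat.mul (nat_lit 23) (Nat.mul u (nat_lit 16)))
      (fo 22 G (Nat.mul (nat_lit 23) (Nat.mul u (nat_lit 8))) (fo 22 G (Nat.mul (nat_lit 23) (Nat.mul u (nat_lit 4))) (fo 22 G (Nat.mul (nat_lit 23) (Nat.mul u (nat_lit 2)))
        (fo 22 G (Nat.mul (nat_lit 23) (Nat.mul u (nat_lit 1))) X)))))))))))))))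

theorem pick_eq (G u a : ℕ) (mk : (ℕ → ℕ) → Op) : ∃ f : ℕ → ℕ, pick G u a mk = mk f ∧
    ∀ S, f S = window 22 G S (shl u a) := by
  have key : ∀ (b : ℕ), (Nat.ble a b = true ∧ a ≤ b) ∨ (Nat.ble a b = false ∧ ¬a ≤ b) := by
    intro b
    cases h : Nat.ble a b with
    | true => exact Or.inl ⟨rfl, Nat.le_of_ble_eq_true h⟩
    | false =>
      refine Or.inr ⟨rfl, fun h1 => ?_⟩
      rw [Nat.ble_eq_true_of_le h1] at h
      exact absurd h.symm Bool.false_ne_true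
  unfold pick shl
  rcases key 1 with ⟨e, h⟩ | ⟨e, h⟩
  · rw [e, rIf_true, if_pos h]
    exact ⟨_, rfl, fun S => rfl⟩
  rw [e, rIf_false, if_neg h]
  clear e h
  rcases key 2 with ⟨e, h⟩ | ⟨e, h⟩
  · rw [e, rIf_true, if_pos h]
    exact ⟨_, rfl, fun S => rfl⟩
  rw [e, rIf_false, if_neg h]
  clear e h
  rcases key 4 with ⟨e, h⟩ | ⟨e, h⟩
  · rw [e, rIf_true, if_pos h]
    exact ⟨_, rfl, fun S => rfl⟩
  rw [e, rIf_false, if_neg h]
  clear e h
  rcases key 8 with ⟨e, h⟩ | ⟨e, h⟩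
  · rw [e, rIf_true, if_pos h]
    exact ⟨_, rfl, fun S => rfl⟩
  rw [e, rIf_false, if_neg h]
  clear e h
  rcases key 16 with ⟨e, h⟩ | ⟨e, h⟩
  · rw [e, rIf_true, if_pos h]
    exact ⟨_, rfl, fun S => rfl⟩
  rw [e, rIf_false, if_neg h]
  clear e h
  rcases key 32 with ⟨e, h⟩ | ⟨e, h⟩
  · rw [e, rIf_true, if_pos h]
    exact ⟨_, rfl, fun S => rfl⟩
  rw [e, rIf_false, if_neg h]
  clear e h
  rcases key 64 with ⟨e, h⟩ | ⟨e, h⟩
  · rw [e, rIf_true, if_pos h]
    exact ⟨_, rfl, fun S => rfl⟩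
  rw [e, rIf_false, if_neg h]
  clear e h
  rcases key 128 with ⟨e, h⟩ | ⟨e, h⟩
  · rw [e, rIf_true, if_pos h]
    exact ⟨_, rfl, fun S => rfl⟩
  rw [e, rIf_false, if_neg h]
  exact ⟨_, rfl, fun S => rfl⟩

/-- The numbers of rows that are kept. -/
def hlv (a : ℕ) : List ℕ :=
  if a ≤ 1 then [] else if a ≤ 2 then [1] else if a ≤ 4 then [2, 1] else if a ≤ 8 then [4, 2, 1] else
  if a ≤ 16 then [8, 4, 2, 1] else if a ≤ 32 then [16, 8, 4, 2, 1] else
  if a ≤ 64 then [32, 16, 8, 4, 2, 1] else if a ≤ 128 then [64, 32, 16, 8, 4, 2, 1] else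
  [128, 64, 32, 16, 8, 4, 2, 1]

theorem ble_and {x y : ℕ} {b : Bool} (h : x ≤ y) (hb : b = true) : (Nat.ble x y && b) = true := by
  rw [Nat.ble_eq_true_of_le h, hb]
  rfl

theorem good_hlv {a : ℕ} (h0 : 0 < a) (h1 : a ≤ 256) : goodHalves a (hlv a) = true := by
  unfold hlv
  split_ifs with h2 h3 h4 h5 h6 h7 h8 h9
  · obtain rfl : a = 1 := by omega
    rfl
  all_goals exact ble_and (by omega) (ble_and (by omega) (by decide))

/-- A halving with groups of `c` fields: `k` of `k + d` groups are kept. -/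
def hv (c k d X : ℕ) : ℕ :=
  ho (nat_lit 22) (gdN (Nat.mul c k)) (pwN (Nat.mul c k)) (Nat.mul (nat_lit 23) (Nat.mul c d)) X

/-- The fold function is chosen once. -/
def pickH (c a : ℕ) (mk : (ℕ → ℕ) → Op) : Op :=
  rIf (Nat.ble a (nat_lit 1)) (mk fun X => X)
  (rIf (Nat.ble a (nat_lit 2)) (mk fun X => hv c (nat_lit 1) (Nat.sub a (nat_lit 1)) X)
  (rIf (Nat.ble a (nat_lit 4)) (mk fun X => hv c (nat_lit 1) (nat_lit 1) (hv c (nat_lit 2) (Nat.sub a (nat_lit 2)) X))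
  (rIf (Nat.ble a (nat_lit 8)) (mk fun X => hv c (nat_lit 1) (nat_lit 1) (hv c (nat_lit 2) (nat_lit 2) (hv c (nat_lit 4) (Nat.sub a (nat_lit 4)) X)))
  (rIf (Nat.ble a (nat_lit 16)) (mk fun X => hv c (nat_lit 1) (nat_lit 1) (hv c (nat_lit 2) (nat_lit 2) (hv c (nat_lit 4) (nat_lit 4) (hv c (nat_lit 8) (Nat.sub a (nat_lit 8)) X))))
  (rIf (Nat.ble a (nat_lit 32)) (mk fun X => hv c (nat_lit 1) (nat_lit 1) (hv c (nat_lit 2) (nat_lit 2) (hv c (nat_lit 4) (nat_lit 4) (hv c (nat_lit 8) (nat_lit 8)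
    (hv c (nat_lit 16) (Nat.sub a (nat_lit 16)) X)))))
  (rIf (Nat.ble a (nat_lit 64)) (mk fun X => hv c (nat_lit 1) (nat_lit 1) (hv c (nat_lit 2) (nat_lit 2) (hv c (nat_lit 4) (nat_lit 4) (hv c (nat_lit 8) (nat_lit 8)
    (hv c (nat_lit 16) (nat_lit 16) (hv c (nat_lit 32) (Nat.sub a (nat_lit 32)) X))))))
  (rIf (Nat.ble a (nat_lit 128)) (mk fun X => hv c (nat_lit 1) (nat_lit 1) (hv c (nat_lit 2) (nat_lit 2) (hv c (nat_lit 4) (nat_lit 4) (hv c (nat_lit 8) (nat_lit 8)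
    (hv c (nat_lit 16) (nat_lit 16) (hv c (nat_lit 32) (nat_lit 32) (hv c (nat_lit 64) (Nat.sub a (nat_lit 64)) X)))))))
    (mk fun X => hv c (nat_lit 1) (nat_lit 1) (hv c (nat_lit 2) (nat_lit 2) (hv c (nat_lit 4) (nat_lit 4) (hv c (nat_lit 8) (nat_lit 8)
    (hv c (nat_lit 16) (nat_lit 16) (hv c (nat_lit 32) (nat_lit 32) (hv c (nat_lit 64) (nat_lit 64) (hv c (nat_lit 128) (Nat.sub a (nat_lit 128)) X)))))))))))))))

theorem pickH_eq {c a : ℕ} (h0 : 0 < a) (h256 : a ≤ 256) (mk : (ℕ → ℕ) → Op) :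
    ∃ f : ℕ → ℕ, pickH c a mk = mk f ∧
      ∀ S, f S = halves 22 (Pk.guard 22 (c * a)) c a (hlv a) S := by
  have key : ∀ (b : ℕ), (Nat.ble a b = true ∧ a ≤ b) ∨ (Nat.ble a b = false ∧ ¬a ≤ b) := by
    intro b
    cases h : Nat.ble a b with
    | true => exact Or.inl ⟨rfl, Nat.le_of_ble_eq_true h⟩
    | false =>
      refine Or.inr ⟨rfl, fun h1 => ?_⟩
      rw [Nat.ble_eq_true_of_le h1] at h
      exact absurd h.symm Bool.false_ne_true
  have hh : ∀ k k' X, k' ≤ a → Pk.halve 22 (Pk.guard 22 (c * a)) c k k' X =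
      hv c k' (k - k') X := fun k k' X h => halve_ho (Nat.mul_le_mul_left _ h)
  unfold pickH hlv
  rcases key 1 with ⟨e, h⟩ | ⟨e, h⟩
  · rw [e, rIf_true, if_pos h]
    exact ⟨_, rfl, fun S => rfl⟩
  rw [e, rIf_false, if_neg h]
  clear e
  rcases key 2 with ⟨e, h2⟩ | ⟨e, h2⟩
  · rw [e, rIf_true, if_pos h2]
    refine ⟨_, rfl, fun S => ?_⟩
    simp only [halves]
    rw [hh _ _ _ (by omega)]
    rfl
  rw [e, rIf_false, if_neg h2]
  clear e
  rcases key 4 with ⟨e, h3⟩ | ⟨e, h3⟩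
  · rw [e, rIf_true, if_pos h3]
    refine ⟨_, rfl, fun S => ?_⟩
    simp only [halves]
    rw [hh _ _ _ (by omega), hh _ _ _ (by omega)]
    rfl
  rw [e, rIf_false, if_neg h3]
  clear e
  rcases key 8 with ⟨e, h4⟩ | ⟨e, h4⟩
  · rw [e, rIf_true, if_pos h4]
    refine ⟨_, rfl, fun S => ?_⟩
    simp only [halves]
    rw [hh _ _ _ (by omega), hh _ _ _ (by omega), hh _ _ _ (by omega)]
    rfl
  rw [e, rIf_false, if_neg h4]
  clear e
  rcases key 16 with ⟨e, h5⟩ | ⟨e, h5⟩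
  · rw [e, rIf_true, if_pos h5]
    refine ⟨_, rfl, fun S => ?_⟩
    simp only [halves]
    rw [hh _ _ _ (by omega), hh _ _ _ (by omega), hh _ _ _ (by omega), hh _ _ _ (by omega)]
    rfl
  rw [e, rIf_false, if_neg h5]
  clear e
  rcases key 32 with ⟨e, h6⟩ | ⟨e, h6⟩
  · rw [e, rIf_true, if_pos h6]
    refine ⟨_, rfl, fun S => ?_⟩
    simp only [halves]
    rw [hh _ _ _ (by omega), hh _ _ _ (by omega), hh _ _ _ (by omega), hh _ _ _ (by omega),
      hh _ _ _ (by omega)]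
    rfl
  rw [e, rIf_false, if_neg h6]
  clear e
  rcases key 64 with ⟨e, h7⟩ | ⟨e, h7⟩
  · rw [e, rIf_true, if_pos h7]
    refine ⟨_, rfl, fun S => ?_⟩
    simp only [halves]
    rw [hh _ _ _ (by omega), hh _ _ _ (by omega), hh _ _ _ (by omega), hh _ _ _ (by omega),
      hh _ _ _ (by omega), hh _ _ _ (by omega)]
    rfl
  rw [e, rIf_false, if_neg h7]
  clear e
  rcases key 128 with ⟨e, h8⟩ | ⟨e, h8⟩
  · rw [e, rIf_true, if_pos h8]
    refine ⟨_, rfl, fun S => ?_⟩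
    simp only [halves]
    rw [hh _ _ _ (by omega), hh _ _ _ (by omega), hh _ _ _ (by omega), hh _ _ _ (by omega),
      hh _ _ _ (by omega), hh _ _ _ (by omega), hh _ _ _ (by omega)]
    rfl
  rw [e, rIf_false, if_neg h8]
  refine ⟨_, rfl, fun S => ?_⟩
  simp only [halves]
  rw [hh _ _ _ (by omega), hh _ _ _ (by omega), hh _ _ _ (by omega), hh _ _ _ (by omega),
    hh _ _ _ (by omega), hh _ _ _ (by omega), hh _ _ _ (by omega), hh _ _ _ (by omega)]
  rfl

/-- `θ`. -/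
def tht : ℕ := 2 ^ 20 + 2 ^ 16

/-- `K`. -/
def kap0 : ℕ := 2 ^ 16

/-- Rows outside, `a` rows of `c` fields. -/
def opA0 (a c : ℕ) : Op :=
  pickH c a fun f =>
    Op.mk (advA (pwN a) (repN (Nat.mul (nat_lit 23) (Nat.sub c (nat_lit 1))) a) (smN c a)
      (repN (nat_lit 23) c) (nat_lit 22) (gdN (Nat.mul c a)) (ctN (Nat.mul c a))
      (nat_lit 1048576)) f
      (PB.tst (gdN (Nat.mul c a)) (repN (Nat.mul (nat_lit 23) c) a))

/-- Columns outside, `b` columns of `c` fields. -/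
def opB0 (a b c : ℕ) : Op :=
  pick (gdN (Nat.mul c b)) (nat_lit 1) a fun f =>
    Op.mk (advB (pwN a) (repN (Nat.mul (nat_lit 23) c) b) (nat_lit 22)
      (gdN (Nat.mul c b)) (ctN (Nat.mul c b)) (nat_lit 1048576))
      (fun S => folB1 (smN c b) (Nat.sub (pwN c) (nat_lit 8388608)) (f S))
      (tstB (repN (Nat.mul (nat_lit 23) (Nat.sub c (nat_lit 1))) b) (smN c b) (repN (nat_lit 23) c)
        (gdN (Nat.mul c b)))

/-- The number of fields of a group. -/
def cOf (k a b : ℕ) : ℕ :=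
  rIf (Nat.beq k (nat_lit 0)) (rIf (Nat.ble b (Nat.succ a)) (Nat.succ a) b)
    (rIf (Nat.ble a (Nat.succ b)) (Nat.succ b) a)

/-- The number of fields. -/
def nOf (k a b : ℕ) : ℕ := Nat.mul (cOf k a b) (rIf (Nat.beq k (nat_lit 0)) a b)

/-- The place of an entry. -/
def pl (k a b i j : ℕ) : ℕ :=
  rIf (Nat.beq k (nat_lit 0)) (Nat.add (Nat.mul (cOf k a b) i) j)
    (Nat.add (Nat.mul (cOf k a b) j) i)

/-- The operations of the format: kind `k` (zero: rows outside), `a` rows, `b` columns. -/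
def opOf (k a b : ℕ) : Op :=
  rIf (Nat.beq k (nat_lit 0)) (opA0 a (cOf (nat_lit 0) a b)) (opB0 a b (cOf (nat_lit 1) a b))

theorem ct_eq : 2 ^ 22 - tht = 3080192 := by norm_num [tht]

theorem lo_eq : tht - kap0 = 1048576 := by norm_num [tht, kap0]

theorem opA0_ok {a b c : ℕ} (ha : 0 < a) (ha2 : a ≤ 256) (hc1 : a + 1 ≤ c) (hc2 : b ≤ c) :
    OpOK 22 tht kap0 a b (c * a) (fun i j => c * i + j) (opA0 a c).adv (opA0 a c).fol
      (opA0 a c).tst := by
  have hθ : tht < 2 ^ 22 := by norm_num [tht]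
  have hK : kap0 ≤ tht := by norm_num [tht, kap0]
  obtain ⟨f, hf1, hf2⟩ := pickH_eq (c := c) ha ha2 (fun f =>
      Op.mk (advA (2 ^ (23 * a)) (rep (23 * (c - 1)) a) (smask 22 c a) (rep 23 c) 22
      (Pk.guard 22 (c * a)) ((2 ^ 22 - tht) * rep 23 (c * a)) (tht - kap0)) f
      (PB.tst (Pk.guard 22 (c * a)) (rep (23 * c) a)))
  rw [ct_eq, lo_eq] at hf1
  have e4 : opA0 a c = _ := hf1
  rw [e4, Op.adv_mk, Op.fol_mk, Op.tst_mk, ← ct_eq, ← lo_eq]
  exact opA' (v := 22) ha hc1 hc2 (by omega) hθ hK (good_hlv ha ha2) hf2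

theorem opB0_ok {a b c : ℕ} (ha : 0 < a) (ha2 : a ≤ 256) (hc1 : b + 1 ≤ c) (hc2 : a ≤ c)
    (hb : 0 < b) :
    OpOK 22 tht kap0 a b (c * b) (fun i j => c * j + i) (opB0 a b c).adv (opB0 a b c).fol
      (opB0 a b c).tst := by
  have hθ : tht < 2 ^ 22 := by norm_num [tht]
  have hK : kap0 ≤ tht := by norm_num [tht, kap0]
  obtain ⟨f, hf1, hf2⟩ := pick_eq (Pk.guard 22 (c * b)) 1 a (fun f =>
      Op.mk (advB (2 ^ (23 * a)) (rep (23 * c) b) 22
      (Pk.guard 22 (c * b)) ((2 ^ 22 - tht) * rep 23 (c * b)) (tht - kap0))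
      (fun S => folB1 (smask 22 c b) (2 ^ (23 * c) - 2 ^ 23) (f S))
      (tstB (rep (23 * (c - 1)) b) (smask 22 c b) (rep 23 c) (Pk.guard 22 (c * b))))
  rw [ct_eq, lo_eq] at hf1
  have e4 : opB0 a b c = _ := hf1
  rw [e4, Op.adv_mk, Op.fol_mk, Op.tst_mk, ← ct_eq, ← lo_eq]
  exact opB (v := 22) hc2 hc1 (by omega) hθ hK (good_shl (u := 1) ha ha2)
    (fun S => by rw [← hf2 S])

theorem ble_cases (x y : ℕ) : (Nat.ble x y = true ∧ x ≤ y) ∨ (Nat.ble x y = false ∧ ¬x ≤ y) := by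
  cases h : Nat.ble x y with
  | true => exact Or.inl ⟨rfl, Nat.le_of_ble_eq_true h⟩
  | false =>
    refine Or.inr ⟨rfl, fun h1 => ?_⟩
    rw [Nat.ble_eq_true_of_le h1] at h
    exact absurd h.symm Bool.false_ne_true

theorem cOf_zero (a b : ℕ) : a + 1 ≤ cOf 0 a b ∧ b ≤ cOf 0 a b := by
  have e3 : cOf 0 a b = rIf (Nat.ble b (Nat.succ a)) (Nat.succ a) b := rfl
  rw [e3]
  rcases ble_cases b (Nat.succ a) with ⟨e, h⟩ | ⟨e, h⟩
  · rw [e, rIf_true]
    omega
  · rw [e, rIf_false]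
    omega

theorem cOf_succ (k a b : ℕ) : b + 1 ≤ cOf (k + 1) a b ∧ a ≤ cOf (k + 1) a b := by
  have e3 : cOf (k + 1) a b = rIf (Nat.ble a (Nat.succ b)) (Nat.succ b) a := rfl
  rw [e3]
  rcases ble_cases a (Nat.succ b) with ⟨e, h⟩ | ⟨e, h⟩
  · rw [e, rIf_true]
    omega
  · rw [e, rIf_false]
    omega

theorem opOf_ok {k a b : ℕ} (ha : 0 < a) (ha2 : a ≤ 256) (hb : 0 < b) :
    OpOK 22 tht kap0 a b (nOf k a b) (pl k a b) (opOf k a b).adv (opOf k a b).fol
      (opOf k a b).tst := by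
  cases k with
  | zero =>
    have e0 : opOf 0 a b = opA0 a (cOf 0 a b) := by
      unfold opOf
      exact rIf_true _ _
    have e1 : nOf 0 a b = cOf 0 a b * a := rfl
    have e2 : pl 0 a b = fun i j => cOf 0 a b * i + j := rfl
    have hc := cOf_zero a b
    rw [e0, e1, e2]
    exact opA0_ok ha ha2 hc.1 hc.2
  | succ k =>
    have e0 : opOf (k + 1) a b = opB0 a b (cOf 1 a b) := by
      unfold opOf
      exact rIf_false _ _
    have e1 : nOf (k + 1) a b = cOf 1 a b * b := rfl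
    have e2 : pl (k + 1) a b = fun i j => cOf 1 a b * j + i := rfl
    have hc := cOf_succ 0 a b
    rw [e0, e1, e2]
    exact opB0_ok ha ha2 hc.1 hc.2 hb

end Pool.Agent.Lib.MP_5854e1_co.PB
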