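import Pool.Agent.Lib.MP_5854e1_co.Quad

/-!
# The sums over the corners of a pentagon

If the sum of the five values of a pentagon is less than `off - e`, then one of them is less than
`t0`; the search starts there. All values are at least `zm`.
-/

set_option autoImplicit false

open Equiv Equiv.Perm

namespace Pool.Agent.Lib.MP_5854e1_co

section defs

variable (row : ℕ → ℕ → ℕ) (w W off e zm t0 t1 : ℕ)

/-- The kind of a record. -/
def pK (r : ℕ) : ℕ := Nat.mod (Nat.div r (nat_lit 4096)) (nat_lit 4)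

/-- The frame after a further record. -/
def pG (g r : ℕ) : ℕ := mulC g (Nat.mod (Nat.div r (nat_lit 128)) (nat_lit 32))

/-- The value of the corner with the record `r`; `a` is the kind of the next and `b` the kind of the
previous corner. -/
def pF (r a b : ℕ) : ℕ :=
  Nat.mod (Nat.shiftRight (Nat.div r (nat_lit 16384))
    (Nat.mul w (Nat.add (Nat.mul (nat_lit 3) a) b))) W

/-- All nine values are at least `t`. -/
def pHi (t r : ℕ) : Bool :=
  rAllN (fun a => rAllN (fun b => Nat.ble t (pF w W r a b)) (nat_lit 3)) (nat_lit 3)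

/-- The last corner. -/
def pL4 (k0 r0 r1 r2 r3 g s : ℕ) : Bool :=
  rLet (Nat.mod r3 (nat_lit 128)) fun k4 => rAll (fun r4 =>
    rIf (Nat.beq (Nat.mod r4 (nat_lit 128)) k0) (rIf (Nat.beq (pG g r4) (nat_lit 0))
      (Nat.ble off (Nat.add (Nat.add (Nat.add s (pF w W r3 (pK r4) (pK r2)))
        (Nat.add (pF w W r4 (pK r0) (pK r3)) (pF w W r0 (pK r1) (pK r4)))) e)) true) true)
    (qL row k4)

/-- The fourth corner. -/
def pL3 (k0 r0 r1 r2 g s : ℕ) : Bool :=
  rLet (Nat.mod r2 (nat_lit 128)) fun k3 => rAll (fun r3 =>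
    rLet (Nat.add s (pF w W r2 (pK r3) (pK r1))) fun s' =>
      rIf (Nat.ble off (Nat.add s' (Nat.add e (Nat.mul (nat_lit 3) zm)))) true
        (rLet (pG g r3) fun g' => pL4 row w W off e k0 r0 r1 r2 r3 g' s')) (qL row k3)

/-- The third corner. -/
def pL2 (k0 r0 r1 g : ℕ) : Bool :=
  rLet (Nat.mod r1 (nat_lit 128)) fun k2 => rAll (fun r2 =>
    rLet (pF w W r1 (pK r2) (pK r0)) fun s' =>
      rIf (Nat.ble off (Nat.add s' (Nat.add e (Nat.mul (nat_lit 4) zm)))) true
        (rLet (pG g r2) fun g' => pL3 row w W off e zm k0 r0 r1 r2 g' s')) (qL row k2)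

/-- The second corner. -/
def pL1 (k0 r0 : ℕ) : Bool :=
  rLet (Nat.mod r0 (nat_lit 128)) fun k1 => rAll (fun r1 => rIf (pHi w W t1 r1) true
    (rLet (pG (Nat.mod (Nat.div r0 (nat_lit 128)) (nat_lit 32)) r1) fun g =>
      pL2 row w W off e zm k0 r0 r1 g)) (qL row k1)

/-- All pentagons with a value less than `t0` at a corner after the shape `k`. -/
def pL0 (k : ℕ) : Bool :=
  rAll (fun r0 => rIf (pHi w W t0 r0) true (pL1 row w W off e zm t1 k r0)) (qL row k)

/-- All values after the shape `k` are at least `zm`. -/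
def pZ (k : ℕ) : Bool := rAll (fun r => pHi w W zm r) (qL row k)

/-- The check of the pentagons. -/
structure PentaOK : Prop where
  hW : W = 2 ^ w
  ht0 : off ≤ 5 * t0 + e
  ht1 : off ≤ t1 + (e + 4 * zm)
  low : ∀ k < 101, pZ row w W zm k = true
  chk : ∀ k < 101, pL0 row w W off e zm t0 t1 k = true

end defs

theorem pHi_iff {w W t r : ℕ} : pHi w W t r = true ↔ ∀ a < 3, ∀ b < 3, t ≤ pF w W r a b := by
  unfold pHi
  rw [rAllN_iff]
  refine forall₂_congr fun a _ => ?_
  rw [rAllN_iff]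
  exact forall₂_congr fun b _ => Iff.of_eq Nat.ble_eq

namespace SMap

variable {F : Type*} (T : SMap F)

section penta

variable {row : ℕ → ℕ → ℕ} {w off e zm t0 t1 : ℕ}

theorem lx_self (d : F) : T.lx d d = 0 := by
  show lc (T.rlb d d) = 0
  rw [rlb_self]
  decide +kernel

/-- The value of a corner in terms of the records. -/
theorem pF_qr {a b c : F} (hb : T.I (T.N a) = b) (hc : T.I (T.N b) = c) :
    pF w (2 ^ w) (T.qr row b) (pK (T.qr row c)) (pK (T.qr row a)) = T.Z row w b := by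
  obtain ⟨-, -, h3, -⟩ := T.qr_fields row a
  obtain ⟨-, -, -, h4⟩ := T.qr_fields row b
  obtain ⟨-, -, h5, -⟩ := T.qr_fields row c
  have e1 : pK (T.qr row c) = kc (T.K (T.face (T.N b))) := by
    show T.qr row c / 4096 % 4 = _
    rw [h5, ← hc]
    rfl
  have e2 : pK (T.qr row a) = kc (T.K (T.I b)) := by
    show T.qr row a / 4096 % 4 = _
    rw [h3, ← hb, T.I_I]
  rw [e1, e2]
  show (T.qr row b / 16384) >>> (w * (3 * kc (T.K (T.face (T.N b))) + kc (T.K (T.I b)))) %
    2 ^ w = _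
  rw [h4]
  rfl

theorem pG_qr {a b c : F} (hc : T.I (T.N b) = c) :
    pG (T.lx a b) (T.qr row b) = T.lx a c := by
  obtain ⟨-, h2, -, -⟩ := T.qr_fields row b
  show mulC (T.lx a b) (T.qr row b / 128 % 32) = _
  rw [h2, hc, ← T.lx_trans]

theorem pK_lt (a : F) : pK (T.qr row a) < 3 := by
  obtain ⟨-, -, h3, -⟩ := T.qr_fields row a
  show T.qr row a / 4096 % 4 < 3
  rw [h3]
  exact kc_lt _

/-- The sum over a pentagon whose first value is less than `t0`. -/
theorem penta_key (h : PentaOK row w (2 ^ w) off e zm t0 t1) {a0 a1 a2 a3 a4 : F}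
    (h1 : T.I (T.N a0) = a1) (h2 : T.I (T.N a1) = a2) (h3 : T.I (T.N a2) = a3)
    (h4 : T.I (T.N a3) = a4) (h5 : T.I (T.N a4) = a0) (hlt : T.Z row w a0 < t0) :
    off ≤ T.Z row w a0 + T.Z row w a1 + T.Z row w a2 + T.Z row w a3 + T.Z row w a4 + e := by
  have tg : ∀ {a b : F}, T.I (T.N a) = b → Nat.mod (T.qr row a) 128 = T.kx b := by
    rintro a b rfl
    exact (T.qr_fields row a).1
  have z0 := T.pF_qr (row := row) (w := w) h5 h1
  have z1 := T.pF_qr (row := row) (w := w) h1 h2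
  have z2 := T.pF_qr (row := row) (w := w) h2 h3
  have z3 := T.pF_qr (row := row) (w := w) h3 h4
  have z4 := T.pF_qr (row := row) (w := w) h4 h5
  have zmin : ∀ {a b c : F}, T.I (T.N a) = b → T.I (T.N b) = c → zm ≤ T.Z row w b := by
    intro a b c hb hc
    have q1 := rAll_iff.1 (h.low _ (T.kx_lt b)) _ (T.qr_mem row b)
    have q2 := pHi_iff.1 q1 _ (T.pK_lt (row := row) c) _ (T.pK_lt (row := row) a)
    rwa [T.pF_qr hb hc] at q2
  have m0 := zmin h5 h1
  have m1 := zmin h1 h2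
  have m2 := zmin h2 h3
  have m3 := zmin h3 h4
  have m4 := zmin h4 h5
  have c0 := rAll_iff.1 (h.chk _ (T.kx_lt a0)) _ (T.qr_mem row a0)
  have n0 : pHi w (2 ^ w) t0 (T.qr row a0) = false := by
    rw [Bool.eq_false_iff]
    intro q1
    have q2 := pHi_iff.1 q1 _ (T.pK_lt (row := row) a1) _ (T.pK_lt (row := row) a4)
    rw [z0] at q2
    omega
  rw [n0, rIf_false] at c0
  unfold pL1 at c0
  rw [rLet_eq, tg h1] at c0
  have c1 := rAll_iff.1 c0 _ (T.qr_mem row a1)
  have ht1 := h.ht1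
  cases n1 : pHi w (2 ^ w) t1 (T.qr row a1) with
  | true =>
    have q2 := pHi_iff.1 n1 _ (T.pK_lt (row := row) a2) _ (T.pK_lt (row := row) a0)
    rw [z1] at q2
    omega
  | false =>
  rw [n1, rIf_false, rLet_eq] at c1
  have g1 : Nat.mod (Nat.div (T.qr row a0) 128) 32 = T.lx a0 a1 := by
    rw [← h1]
    exact (T.qr_fields row a0).2.1
  rw [g1, T.pG_qr (row := row) (a := a0) h2] at c1
  unfold pL2 at c1
  rw [rLet_eq, tg h2] at c1
  have c2 := rAll_iff.1 c1 _ (T.qr_mem row a2)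
  rw [rLet_eq, z1] at c2
  cases n2 : Nat.ble off (Nat.add (T.Z row w a1) (Nat.add e (Nat.mul 4 zm))) with
  | true =>
    have q2 : off ≤ T.Z row w a1 + (e + 4 * zm) := Nat.le_of_ble_eq_true n2
    omega
  | false =>
  rw [n2, rIf_false, rLet_eq, T.pG_qr (row := row) (a := a0) h3] at c2
  unfold pL3 at c2
  rw [rLet_eq, tg h3] at c2
  have c3 := rAll_iff.1 c2 _ (T.qr_mem row a3)
  rw [rLet_eq, z2] at c3
  cases n3 : Nat.ble off (Nat.add (Nat.add (T.Z row w a1) (T.Z row w a2))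
      (Nat.add e (Nat.mul 3 zm))) with
  | true =>
    have q2 : off ≤ T.Z row w a1 + T.Z row w a2 + (e + 3 * zm) := Nat.le_of_ble_eq_true n3
    omega
  | false =>
  rw [n3, rIf_false, rLet_eq, T.pG_qr (row := row) (a := a0) h4] at c3
  unfold pL4 at c3
  rw [rLet_eq, tg h4] at c3
  have c4 := rAll_iff.1 c3 _ (T.qr_mem row a4)
  have b1 : Nat.beq (Nat.mod (T.qr row a4) 128) (T.kx a0) = true := beq_of_eq (tg h5)
  have b2 : Nat.beq (pG (T.lx a0 a4) (T.qr row a4)) 0 = true :=
    beq_of_eq (by rw [T.pG_qr h5, T.lx_self])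
  rw [b1, rIf_true, b2, rIf_true, z0, z3, z4] at c4
  have q2 : off ≤ T.Z row w a1 + T.Z row w a2 + T.Z row w a3 + (T.Z row w a4 + T.Z row w a0) +
      e := Nat.le_of_ble_eq_true c4
  omega

/-- **The sum over a pentagon.** -/
theorem penta_sum (h : PentaOK row w (2 ^ w) off e zm t0 t1) {a : F}
    (ha : T.face^[5] (T.N a) = T.N a) :
    off ≤ T.Z row w a + T.Z row w (T.I (T.N a)) + T.Z row w (T.I (T.N (T.I (T.N a)))) +
      T.Z row w (T.I (T.N (T.I (T.N (T.I (T.N a)))))) +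
      T.Z row w (T.I (T.N (T.I (T.N (T.I (T.N (T.I (T.N a)))))))) + e := by
  have hN : T.I (T.N (T.I (T.N (T.I (T.N (T.I (T.N (T.I (T.N a))))))))) = a := by
    have h1 : T.N (T.I (T.N (T.I (T.N (T.I (T.N (T.I (T.N (T.I (T.N a)))))))))) = T.N a := ha
    exact T.N.injective h1
  generalize h1 : T.I (T.N a) = a1 at *
  generalize h2 : T.I (T.N a1) = a2 at *
  generalize h3 : T.I (T.N a2) = a3 at *
  generalize h4 : T.I (T.N a3) = a4 at *
  have k0 := T.penta_key h h1 h2 h3 h4 hN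
  have k1 := T.penta_key h h2 h3 h4 hN h1
  have k2 := T.penta_key h h3 h4 hN h1 h2
  have k3 := T.penta_key h h4 hN h1 h2 h3
  have k4 := T.penta_key h hN h1 h2 h3 h4
  have ht0 := h.ht0
  by_cases c0 : T.Z row w a < t0
  · exact k0 c0
  by_cases c1 : T.Z row w a1 < t0
  · have := k1 c1
    omega
  by_cases c2 : T.Z row w a2 < t0
  · have := k2 c2
    omega
  by_cases c3 : T.Z row w a3 < t0
  · have := k3 c3
    omega
  by_cases c4 : T.Z row w a4 < t0
  · have := k4 c4
    omega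
  omega

end penta

end SMap

end Pool.Agent.Lib.MP_5854e1_co
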