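import Pool.Agent.Lib.MP_5854e1_co.Penta
import Pool.Agent.Lib.MP_5854e1_co.Delta

/-!
# Sparse corrections at the corners of quadrilaterals

The correction of a corner of a longer face is `y (own pair, kinds) - δ`, where `δ` depends also on
the tokens of the two neighbouring faces. The key of a row of `δ` is `fkey k o (3 * B + C)`. The
closure over the quadrilaterals is checked from every corner with a row.
-/

set_option autoImplicit false

open Equiv Equiv.Perm

namespace Pool.Agent.Lib.MP_5854e1_co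

/-- The key of a corner of a longer face. -/
def fkey (k o b : ℕ) : ℕ := Nat.add b (Nat.mul (nat_lit 16) (Nat.add o (Nat.mul (nat_lit 512) k)))

/-- The check of the tokens of a quadrilateral; `S` is the sum of the four values. -/
noncomputable def chkQ (S : ℕ) (la lb lc ld : DL) : Bool :=
  DL.all (fun x3 r => DR.all (fun x0 v0 => rAnd (Nat.ble v0 S)
    (rAnd (DL.all (fun _ r2 => DR.all (fun _ v2 => Nat.ble (Nat.add v0 v2) S) r2) lc)
      (DR.all (fun x1 v1 => rAnd (Nat.ble (Nat.add v0 v1) S)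
        (DR.all (fun x2 v2 => Nat.ble (Nat.add (Nat.add v0 v1)
          (Nat.add v2 (DR.val (DL.grp ld x2) x3))) S) (DL.grp lc x1))) (DL.grp lb x0)))) r) la

theorem chkQ_sound {S : ℕ} {la lb lc ld : DL} (h : chkQ S la lb lc ld = true)
    {x0 x3 : ℕ} (h0 : 0 < DL.val la x3 x0) (x1 x2 : ℕ) :
    DL.val la x3 x0 ≤ S ∧ (∀ y1 y2, DL.val la x3 x0 + DL.val lc y1 y2 ≤ S) ∧
      DL.val la x3 x0 + DL.val lb x0 x1 ≤ S ∧
      (0 < DL.val lb x0 x1 → 0 < DL.val lc x1 x2 →
        DL.val la x3 x0 + DL.val lb x0 x1 + (DL.val lc x1 x2 + DL.val ld x2 x3) ≤ S) := by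
  have h1 := DL.val_of_all h h0
  rcases DR.val_of_all h1 x0 with h2 | h2
  · exact absurd h0 (by
      have h3 : DL.val la x3 x0 = 0 := h2
      omega)
  obtain ⟨h3, h4⟩ := rAnd_iff.1 h2
  obtain ⟨h5, h6⟩ := rAnd_iff.1 h4
  have e0 : DL.val la x3 x0 ≤ S := Nat.le_of_ble_eq_true h3
  refine ⟨e0, fun y1 y2 => ?_, ?_, fun _ hc => ?_⟩
  · rcases Nat.eq_zero_or_pos (DL.val lc y1 y2) with h7 | h7
    · rw [h7]
      exact e0
    · have h8 := DL.val_of_all h5 h7
      rcases DR.val_of_all h8 y2 with h9 | h9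
      · exact absurd h7 (by
          have h3 : DL.val lc y1 y2 = 0 := h9
          omega)
      · exact Nat.le_of_ble_eq_true h9
  · rcases DR.val_of_all h6 x1 with h7 | h7
    · have h8 : DL.val lb x0 x1 = 0 := h7
      rw [h8]
      exact e0
    · exact Nat.le_of_ble_eq_true (rAnd_iff.1 h7).1
  · rcases DR.val_of_all h6 x1 with h7 | h7
    · exact absurd ‹0 < DL.val lb x0 x1› (by
        have h8 : DL.val lb x0 x1 = 0 := h7
        omega)
    · rcases DR.val_of_all (rAnd_iff.1 h7).2 x2 with h9 | h9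
      · exact absurd hc (by
          have h3 : DL.val lc x1 x2 = 0 := h9
          omega)
      · exact Nat.le_of_ble_eq_true h9

/-- The four rows of a quadrilateral. -/
theorem chkQ_four {S : ℕ} {la lb lc ld : DL} {x0 x1 x2 x3 : ℕ}
    (ha : 0 < DL.val la x3 x0 → chkQ S la lb lc ld = true)
    (hb : 0 < DL.val lb x0 x1 → chkQ S lb lc ld la = true)
    (hc : 0 < DL.val lc x1 x2 → chkQ S lc ld la lb = true)
    (hd : 0 < DL.val ld x2 x3 → chkQ S ld la lb lc = true) :
    DL.val la x3 x0 + DL.val lb x0 x1 + DL.val lc x1 x2 + DL.val ld x2 x3 ≤ S := by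
  rcases Nat.eq_zero_or_pos (DL.val la x3 x0) with a0 | a0 <;>
    rcases Nat.eq_zero_or_pos (DL.val lb x0 x1) with b0 | b0 <;>
    rcases Nat.eq_zero_or_pos (DL.val lc x1 x2) with c0 | c0 <;>
    rcases Nat.eq_zero_or_pos (DL.val ld x2 x3) with d0 | d0
  · omega
  · have := (chkQ_sound (hd d0) d0 x0 x1).1
    omega
  · have := (chkQ_sound (hc c0) c0 x3 x0).1
    omega
  · have := (chkQ_sound (hc c0) c0 x3 x0).2.2.1
    omega
  · have := (chkQ_sound (hb b0) b0 x2 x3).1
    omega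
  · have := (chkQ_sound (hb b0) b0 x2 x3).2.1 x2 x3
    omega
  · have := (chkQ_sound (hb b0) b0 x2 x3).2.2.1
    omega
  · have := (chkQ_sound (hb b0) b0 x2 x3).2.2.2 c0 d0
    omega
  · have := (chkQ_sound (ha a0) a0 x1 x2).1
    omega
  · have := (chkQ_sound (hd d0) d0 x0 x1).2.2.1
    omega
  · have := (chkQ_sound (ha a0) a0 x1 x2).2.1 x1 x2
    omega
  · have := (chkQ_sound (hc c0) c0 x3 x0).2.2.2 d0 a0
    omega
  · have := (chkQ_sound (ha a0) a0 x1 x2).2.2.1
    omega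
  · have := (chkQ_sound (hd d0) d0 x0 x1).2.2.2 a0 b0
    omega
  · have := (chkQ_sound (ha a0) a0 x1 x2).2.2.2 b0 c0
    omega
  · have := (chkQ_sound (ha a0) a0 x1 x2).2.2.2 b0 c0
    omega

section defs

variable (row : ℕ → ℕ → ℕ) (w W off : ℕ) (t : DT)

/-- The record of an option, with its index. -/
def sRec (k x : ℕ) : ℕ :=
  Nat.add (Nat.div x (nat_lit 16384)) (Nat.mul (nat_lit 128)
    (Nat.add (Nat.mod (Nat.div x (nat_lit 512)) (nat_lit 32)) (Nat.mul (nat_lit 32)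
      (Nat.add (Nat.mod (optA k (Nat.mod x (nat_lit 512))) (nat_lit 3)) (Nat.mul (nat_lit 4)
        (Nat.add (Nat.mod x (nat_lit 512)) (Nat.mul (nat_lit 512)
          (row k (Nat.mod x (nat_lit 512))))))))))

/-- The records of a shape. -/
def sL (k : ℕ) : List ℕ := rFold (fun x acc => rCons (sRec row k x) acc) [] (fl k)

/-- The records with the target `t`. -/
def sT (k t : ℕ) : List ℕ :=
  rFold (fun c acc => rIf (Nat.beq (Nat.mod c (nat_lit 128)) t) (c :: acc) acc) [] (sL row k)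

/-- The option of a record. -/
def sO (r : ℕ) : ℕ := Nat.mod (Nat.div r (nat_lit 16384)) (nat_lit 512)

/-- The value of a corner. -/
def sF (r b : ℕ) : ℕ := Nat.mod (Nat.shiftRight (Nat.div r (nat_lit 8388608)) (Nat.mul w b)) W

/-- The index of two kinds. -/
def sB (a b : ℕ) : ℕ := Nat.add (Nat.mul (nat_lit 3) a) b

/-- The end of the check: all four records are known. -/
noncomputable def sEnd (k0 k1 k2 k3 r0 r1 r2 r3 : ℕ) : Bool :=
  rLet (Nat.sub (Nat.add (Nat.add (sF w W r0 (sB (pK r1) (pK r3))) (sF w W r1 (sB (pK r2) (pK r0))))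
      (Nat.add (sF w W r2 (sB (pK r3) (pK r1))) (sF w W r3 (sB (pK r0) (pK r2))))) off) fun S =>
    chkQ S (DT.get t (fkey k0 (sO r0) (sB (pK r1) (pK r3))))
      (DT.get t (fkey k1 (sO r1) (sB (pK r2) (pK r0))))
      (DT.get t (fkey k2 (sO r2) (sB (pK r3) (pK r1))))
      (DT.get t (fkey k3 (sO r3) (sB (pK r0) (pK r2))))

/-- The third and the fourth corner. -/
noncomputable def sL2 (k0 b k1 r0 r1 g : ℕ) : Bool :=
  rLet (Nat.mod r1 (nat_lit 128)) fun k2 => rAll (fun r2 =>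
    rLet (Nat.mod r2 (nat_lit 128)) fun k3 => rAll (fun r3 =>
      rIf (Nat.beq (pK r3) b) (rIf (Nat.beq (pG (pG g r2) r3) (nat_lit 0))
        (sEnd w W off t k0 k1 k2 k3 r0 r1 r2 r3) true) true) (sT row k3 k0)) (sL row k2)

/-- The second corner. -/
noncomputable def sL1 (k0 a b r0 : ℕ) : Bool :=
  rLet (Nat.mod r0 (nat_lit 128)) fun k1 => rAll (fun r1 =>
    rIf (Nat.beq (pK r1) a) (rLet (pG (Nat.mod (Nat.div r0 (nat_lit 128)) (nat_lit 32)) r1) fun g =>
      sL2 row w W off t k0 b k1 r0 r1 g) true) (sL row k1)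

/-- All quadrilaterals with a row of corrections at a corner after the shape `k`. -/
noncomputable def sL0 (k : ℕ) : Bool :=
  rAll (fun r0 => rAllN (fun a => rAllN (fun b =>
    DL.rec (motive := fun _ => Bool) true (fun _ _ _ _ => sL1 row w W off t k a b r0)
      (DT.get t (fkey k (sO r0) (sB a b)))) (nat_lit 3)) (nat_lit 3)) (sL row k)

end defs

/-! ### Records -/

theorem mem_sL {row : ℕ → ℕ → ℕ} {k x : ℕ} (h : x ∈ fl k) : sRec row k x ∈ sL row k :=
  mem_rFold (f := fun x acc => rCons (sRec row k x) acc) (fun _ _ _ h => mem_rCons h) []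
    (fun _ => self_mem_rCons _ _) _ h

theorem mem_sT {row : ℕ → ℕ → ℕ} {k c t : ℕ} (h : c ∈ sL row k) (hc : Nat.mod c 128 = t) :
    c ∈ sT row k t := mem_rFilter (f := fun c => Nat.beq (Nat.mod c 128) t) (beq_of_eq hc) h

theorem sRec_fields {row : ℕ → ℕ → ℕ} {k x : ℕ} (ht : x / 16384 < 128) :
    sRec row k x % 128 = x / 16384 ∧ sRec row k x / 128 % 32 = x / 512 % 32 ∧
      sRec row k x / 4096 % 4 = optA k (x % 512) % 3 ∧ sRec row k x / 16384 % 512 = x % 512 ∧
      sRec row k x / 8388608 = row k (x % 512) := by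
  have e : sRec row k x = x / 16384 + 128 * (x / 512 % 32 + 32 * (optA k (x % 512) % 3 +
      4 * (x % 512 + 512 * row k (x % 512)))) := rfl
  have h1 : optA k (x % 512) % 3 < 3 := Nat.mod_lt _ (by norm_num)
  have h2 : x / 512 % 32 < 32 := Nat.mod_lt _ (by norm_num)
  have h3 : x % 512 < 512 := Nat.mod_lt _ (by norm_num)
  rw [e]
  clear e
  revert h1 h2 h3 ht
  generalize optA k (x % 512) % 3 = κ
  generalize row k (x % 512) = r
  generalize x % 512 = o
  generalize x / 16384 = t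
  generalize x / 512 % 32 = f'
  intro ht h3 h2 h1
  refine ⟨?_, ?_, ?_, ?_, ?_⟩ <;> omega

namespace SMap

variable {F : Type*} (T : SMap F)

/-- The sparse correction of a corner of a longer face. -/
noncomputable def dq (t : DT) (tr : ℕ → ℕ → ℕ) (a : F) : ℕ :=
  DL.val (DT.get t (fkey (T.kx a) (T.ox a)
    (3 * kc (T.K (T.face (T.N a))) + kc (T.K (T.I a))))) (T.X tr (T.I a)) (T.X tr (T.N a))

section quad

variable (row : ℕ → ℕ → ℕ)

/-- The record of a strip end. -/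
noncomputable def sr (a : F) : ℕ := sRec row (T.kx a) (T.ex a)

theorem sr_mem (a : F) : T.sr row a ∈ sL row (T.kx a) := mem_sL (T.ex_mem a)

theorem sr_fields (a : F) : T.sr row a % 128 = T.kx (T.I (T.N a)) ∧
    T.sr row a / 128 % 32 = T.lx a (T.I (T.N a)) ∧
      T.sr row a / 4096 % 4 = kc (T.K (T.N a)) ∧ T.sr row a / 16384 % 512 = T.ox a ∧
      T.sr row a / 8388608 = row (T.kx a) (T.ox a) := by
  have h1 := T.kx_lt (T.I (T.N a))
  have h2 := sRec_fields (row := row) (k := T.kx a) (x := T.ex a) (by rw [ex_kx]; omega)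
  rw [ex_kx, ex_lx, ex_ox] at h2
  have h3 : optA (T.kx a) (T.ox a) % 3 = kc (T.K (T.N a)) := T.optA_mod3 a
  rw [h3] at h2
  exact h2

variable {row} {w off : ℕ} {t : DT} {tr : ℕ → ℕ → ℕ}

theorem sK_sr (a : F) : pK (T.sr row a) = kc (T.K (T.N a)) := (T.sr_fields row a).2.2.1

/-- The kinds around a corner. -/
theorem sB_sr {a b c : F} (hb : T.I (T.N a) = b) (hc : T.I (T.N b) = c) :
    sB (pK (T.sr row c)) (pK (T.sr row a)) =
      3 * kc (T.K (T.face (T.N b))) + kc (T.K (T.I b)) := by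
  rw [sK_sr, sK_sr, ← hb, T.I_I, ← hc, ← hb]
  rfl

theorem sF_sr {a b c : F} (hb : T.I (T.N a) = b) (hc : T.I (T.N b) = c) :
    sF w (2 ^ w) (T.sr row b) (sB (pK (T.sr row c)) (pK (T.sr row a))) = T.Z row w b := by
  rw [T.sB_sr hb hc]
  show (T.sr row b / 8388608) >>> (w * _) % 2 ^ w = _
  rw [(T.sr_fields row b).2.2.2.2]
  rfl

theorem sG_sr {a b c : F} (hc : T.I (T.N b) = c) :
    pG (T.lx a b) (T.sr row b) = T.lx a c := by
  show mulC (T.lx a b) (T.sr row b / 128 % 32) = _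
  rw [(T.sr_fields row b).2.1, hc, ← T.lx_trans]

theorem sO_sr (a : F) : sO (T.sr row a) = T.ox a := (T.sr_fields row a).2.2.2.1

theorem tg_sr {a b : F} (h : T.I (T.N a) = b) : Nat.mod (T.sr row a) 128 = T.kx b := by
  rw [← h]
  exact (T.sr_fields row a).1

/-- The row of corrections of a corner. -/
noncomputable def lq (t : DT) (a : F) : DL :=
  DT.get t (fkey (T.kx a) (T.ox a) (3 * kc (T.K (T.face (T.N a))) + kc (T.K (T.I a))))

/-- The check of a quadrilateral from its first corner. -/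
theorem quad_tok_key (h : ∀ k < 101, sL0 row w (2 ^ w) off t k = true) {a0 a1 a2 a3 : F}
    (h1 : T.I (T.N a0) = a1) (h2 : T.I (T.N a1) = a2) (h3 : T.I (T.N a2) = a3)
    (h4 : T.I (T.N a3) = a0) {x y : ℕ} (hlt : 0 < DL.val (T.lq t a0) x y) :
    chkQ (T.Z row w a0 + T.Z row w a1 + (T.Z row w a2 + T.Z row w a3) - off) (T.lq t a0)
      (T.lq t a1) (T.lq t a2) (T.lq t a3) = true := by
  have c0 := rAll_iff.1 (h _ (T.kx_lt a0)) _ (T.sr_mem row a0)
  have c1 := rAllN_iff.1 (rAllN_iff.1 c0 (pK (T.sr row a1)) (by rw [T.sK_sr]; exact kc_lt _))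
    (pK (T.sr row a3)) (by rw [T.sK_sr]; exact kc_lt _)
  have e0 : DT.get t (fkey (T.kx a0) (sO (T.sr row a0)) (sB (pK (T.sr row a1))
      (pK (T.sr row a3)))) = T.lq t a0 := by
    rw [T.sO_sr, T.sB_sr h4 h1]
    rfl
  rw [e0] at c1
  have c2 : sL1 row w (2 ^ w) off t (T.kx a0) (pK (T.sr row a1)) (pK (T.sr row a3))
      (T.sr row a0) = true := by
    cases hl : T.lq t a0 with
    | nil =>
      rw [hl] at hlt
      exact absurd hlt (Nat.lt_irrefl 0)
    | g x r l =>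
      rw [hl] at c1
      exact c1
  unfold sL1 at c2
  rw [rLet_eq, T.tg_sr h1] at c2
  have c3 := rAll_iff.1 c2 _ (T.sr_mem row a1)
  rw [beq_of_eq (rfl : pK (T.sr row a1) = pK (T.sr row a1)), rIf_true, rLet_eq] at c3
  have g1 : Nat.mod (Nat.div (T.sr row a0) 128) 32 = T.lx a0 a1 := by
    rw [← h1]
    exact (T.sr_fields row a0).2.1
  rw [g1, T.sG_sr (row := row) (a := a0) h2] at c3
  unfold sL2 at c3
  rw [rLet_eq, T.tg_sr h2] at c3
  have c4 := rAll_iff.1 c3 _ (T.sr_mem row a2)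
  rw [rLet_eq, T.tg_sr h3] at c4
  have c5 := rAll_iff.1 c4 _ (mem_sT (T.sr_mem row a3) (T.tg_sr h4))
  rw [beq_of_eq (rfl : pK (T.sr row a3) = pK (T.sr row a3)), rIf_true,
    T.sG_sr (row := row) (a := a0) h3, T.sG_sr (row := row) (a := a0) h4, T.lx_self] at c5
  have e5 : Nat.beq 0 0 = true := rfl
  rw [e5, rIf_true] at c5
  unfold sEnd at c5
  rw [rLet_eq, T.sF_sr h4 h1, T.sF_sr h1 h2, T.sF_sr h2 h3, T.sF_sr h3 h4, e0, T.sO_sr, T.sO_sr,
    T.sO_sr, T.sB_sr h1 h2, T.sB_sr h2 h3, T.sB_sr h3 h4] at c5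
  exact c5

/-- **The closure of the corrections over a quadrilateral.** -/
theorem quad_tok (h : ∀ k < 101, sL0 row w (2 ^ w) off t k = true) {a : F}
    (ha : T.face^[4] (T.N a) = T.N a)
    (hoff : off ≤ T.Z row w a + T.Z row w (T.I (T.N a)) + T.Z row w (T.I (T.N (T.I (T.N a)))) +
      T.Z row w (T.I (T.N (T.I (T.N (T.I (T.N a))))))) :
    off + (T.dq t tr a + T.dq t tr (T.I (T.N a)) + T.dq t tr (T.I (T.N (T.I (T.N a)))) +
        T.dq t tr (T.I (T.N (T.I (T.N (T.I (T.N a))))))) ≤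
      T.Z row w a + T.Z row w (T.I (T.N a)) + T.Z row w (T.I (T.N (T.I (T.N a)))) +
        T.Z row w (T.I (T.N (T.I (T.N (T.I (T.N a)))))) := by
  have hN : T.I (T.N (T.I (T.N (T.I (T.N (T.I (T.N a))))))) = a := by
    have h1 : T.N (T.I (T.N (T.I (T.N (T.I (T.N (T.I (T.N a)))))))) = T.N a := ha
    exact T.N.injective h1
  generalize h1 : T.I (T.N a) = a1 at *
  generalize h2 : T.I (T.N a1) = a2 at *
  generalize h3 : T.I (T.N a2) = a3 at *
  have key := fun (b0 b1 b2 b3 : F) q1 q2 q3 q4 x y => T.quad_tok_key (row := row) (w := w) h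
    (a0 := b0) (a1 := b1) (a2 := b2) (a3 := b3) q1 q2 q3 q4 (x := x) (y := y)
  have e : ∀ {b c : F}, T.I (T.N b) = c → T.I c = T.N b := by
    rintro b c rfl
    exact T.I_I _
  have d0 : T.dq t tr a = DL.val (T.lq t a) (T.X tr (T.N a3)) (T.X tr (T.N a)) := by
    rw [← e hN]
    rfl
  have d1 : T.dq t tr a1 = DL.val (T.lq t a1) (T.X tr (T.N a)) (T.X tr (T.N a1)) := by
    rw [← e h1]
    rfl
  have d2 : T.dq t tr a2 = DL.val (T.lq t a2) (T.X tr (T.N a1)) (T.X tr (T.N a2)) := by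
    rw [← e h2]
    rfl
  have d3 : T.dq t tr a3 = DL.val (T.lq t a3) (T.X tr (T.N a2)) (T.X tr (T.N a3)) := by
    rw [← e h3]
    rfl
  rw [d0, d1, d2, d3]
  set S := T.Z row w a + T.Z row w a1 + T.Z row w a2 + T.Z row w a3 - off with hS
  have k0 := fun q => key a a1 a2 a3 h1 h2 h3 hN (T.X tr (T.N a3)) (T.X tr (T.N a)) q
  have k1 := fun q => key a1 a2 a3 a h2 h3 hN h1 (T.X tr (T.N a)) (T.X tr (T.N a1)) q
  have k2 := fun q => key a2 a3 a a1 h3 hN h1 h2 (T.X tr (T.N a1)) (T.X tr (T.N a2)) q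
  have k3 := fun q => key a3 a a1 a2 hN h1 h2 h3 (T.X tr (T.N a2)) (T.X tr (T.N a3)) q
  have s0 : T.Z row w a + T.Z row w a1 + (T.Z row w a2 + T.Z row w a3) - off = S := by omega
  have s1 : T.Z row w a1 + T.Z row w a2 + (T.Z row w a3 + T.Z row w a) - off = S := by omega
  have s2 : T.Z row w a2 + T.Z row w a3 + (T.Z row w a + T.Z row w a1) - off = S := by omega
  have s3 : T.Z row w a3 + T.Z row w a + (T.Z row w a1 + T.Z row w a2) - off = S := by omega
  rw [s0] at k0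
  rw [s1] at k1
  rw [s2] at k2
  rw [s3] at k3
  have := chkQ_four k0 k1 k2 k3
  omega

end quad

end SMap

end Pool.Agent.Lib.MP_5854e1_co
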