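import Pool.Agent.Lib.MP_5854e1_co.Far

/-!
# Reduction to local rules

The weights of the corners are `1/3`, `1/4`, `1/5`, `1/6` for faces with three, four, five and more
corners, corrected by `y` for triangles and quadrilaterals; `g` is moved across the strips.
-/

set_option autoImplicit false

open Equiv Equiv.Perm

namespace Pool.Agent.Lib.MP_5854e1_co

open Model24 (Kind)

namespace SMap

variable {F : Type*} (T : SMap F)

theorem sum_shift (h : F → ℚ) (f : F) :
    ∑ i ∈ Finset.range (Function.minimalPeriod T.N f), h (T.N^[i] (T.N f)) =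
      ∑ i ∈ Finset.range (Function.minimalPeriod T.N f), h (T.N^[i] f) := by
  have h0 : T.N^[Function.minimalPeriod T.N f] f = f := Function.isPeriodicPt_minimalPeriod T.N f
  have h1 := Finset.sum_range_succ' (fun i => h (T.N^[i] f)) (Function.minimalPeriod T.N f)
  have h2 := Finset.sum_range_succ (fun i => h (T.N^[i] f)) (Function.minimalPeriod T.N f)
  simp only [Function.iterate_succ_apply, Function.iterate_zero, id_eq] at h1 h2
  rw [h0] at h2
  linarith

theorem N_N_inv' (d : F) : T.N (T.N⁻¹ d) = d := T.N_N_inv d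

theorem N_inv_face' (d : F) : T.N⁻¹ (T.face (T.N d)) = T.I (T.N d) := T.N_inv_face _

open Classical in
/-- The weight of a corner. -/
noncomputable def kap (y : F → ℚ) (d : F) : ℚ :=
  if T.Tri (T.N⁻¹ d) then 1 / 3 + y (T.N⁻¹ d) else
    if T.flen d = 4 then 1 / 4 + y (T.N⁻¹ d) else if T.flen d = 5 then 1 / 5 else 1 / 6

open Classical in
/-- The share of the corner after `a`. -/
noncomputable def shr (a : F) : ℚ := if T.Tri a then 1 / 3 else 1 / 4

theorem shr_tri {a : F} (h : T.Tri a) : T.shr a = 1 / 3 := if_pos h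

theorem shr_big {a : F} (h : ¬T.Tri a) : T.shr a = 1 / 4 := if_neg h

theorem kap_N_le (y : F → ℚ) (hy : ∀ a, ¬T.Tri a → -(1 / 20) ≤ y a) (a : F) :
    T.kap y (T.N a) ≤ T.shr a + y a := by
  unfold kap
  rw [N_inv_N]
  by_cases h : T.Tri a
  · rw [if_pos h, T.shr_tri h]
  · have := hy a h
    rw [if_neg h, T.shr_big h]
    split_ifs <;> linarith

variable [Finite F]

theorem tri_iff_flen (a : F) : T.Tri a ↔ T.flen (T.N a) = 3 := by
  constructor
  · exact fun h => T.flen_eq_of_iterate le_rfl (by norm_num) h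
  · intro h
    have h1 : T.face^[T.flen (T.N a)] (T.N a) = T.N a :=
      Function.isPeriodicPt_minimalPeriod T.face _
    rw [h] at h1
    exact h1

theorem tri_N_inv_iff (d : F) : T.Tri (T.N⁻¹ d) ↔ T.flen d = 3 := by
  rw [tri_iff_flen, N_N_inv]

theorem kap_of_flen_three (y : F → ℚ) {d : F} (h : T.flen d = 3) :
    T.kap y d = 1 / 3 + y (T.N⁻¹ d) := if_pos ((T.tri_N_inv_iff d).2 h)

theorem kap_of_flen_four (y : F → ℚ) {d : F} (h : T.flen d = 4) :
    T.kap y d = 1 / 4 + y (T.N⁻¹ d) := by
  unfold kap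
  rw [if_neg (fun h1 => by rw [T.tri_N_inv_iff] at h1; omega), if_pos h]

theorem kap_of_flen_five (y : F → ℚ) {d : F} (h : T.flen d = 5) : T.kap y d = 1 / 5 := by
  unfold kap
  rw [if_neg (fun h1 => by rw [T.tri_N_inv_iff] at h1; omega), if_neg (by omega), if_pos h]

theorem kap_of_flen_six (y : F → ℚ) {d : F} (h : 6 ≤ T.flen d) : T.kap y d = 1 / 6 := by
  unfold kap
  rw [if_neg (fun h1 => by rw [T.tri_N_inv_iff] at h1; omega), if_neg (by omega),
    if_neg (by omega)]

/-- **Reduction to local rules.** -/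
theorem bound_of_local (y g : F → ℚ) (v : ℚ)
    (h3 : ∀ a, T.Tri a → 0 ≤ y a + y (T.I (T.N a)) + y (T.I (T.N (T.I (T.N a)))))
    (h4 : ∀ a, ¬T.Tri a → T.face^[4] (T.N a) = T.N a →
      0 ≤ y a + y (T.I (T.N a)) + y (T.I (T.N (T.I (T.N a)))) +
        y (T.I (T.N (T.I (T.N (T.I (T.N a)))))))
    (hy : ∀ a, ¬T.Tri a → -(1 / 20) ≤ y a)
    (hg : ∀ d, 0 ≤ g d + g (T.I d))
    (hc : ∀ f, 1 + ∑ i ∈ Finset.range (Function.minimalPeriod T.N f),
      (T.shr (T.N^[i] f) + y (T.N^[i] f) - 1 / 2 + g (T.N^[i] f)) ≤ v) : T.Bound v := by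
  refine ⟨T.kap y, fun d => g d / 2, fun d => ?_, fun f => ?_⟩
  · have key := T.one_le_face_sum (T.kap y) (fun _ => 0) ?_ ?_ ?_ ?_ d
    · simpa using key
    · intro d h
      have hl := T.flen_eq_of_iterate le_rfl (by norm_num) h
      have e1 : T.N⁻¹ (T.face d) = T.I d := T.N_inv_face d
      have e2 : T.N⁻¹ (T.face^[2] d) = T.I (T.face d) := T.N_inv_face (T.face d)
      rw [T.kap_of_flen_three y hl, T.kap_of_flen_three y (by rw [flen_face]; exact hl),
        T.kap_of_flen_three y (by rw [flen_face_iterate]; exact hl), e1, e2]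
      have h5 := h3 (T.N⁻¹ d) ((T.tri_N_inv_iff d).2 hl)
      rw [N_N_inv] at h5
      have e3 : T.face d = T.N (T.I d) := rfl
      rw [e3]
      linarith
    · intro d h
      have hl := T.flen_eq_of_iterate (by norm_num) (by norm_num) h
      have e1 : T.N⁻¹ (T.face d) = T.I d := T.N_inv_face d
      have e2 : T.N⁻¹ (T.face^[2] d) = T.I (T.face d) := T.N_inv_face (T.face d)
      have e3 : T.N⁻¹ (T.face^[3] d) = T.I (T.face (T.face d)) := T.N_inv_face _
      rw [T.kap_of_flen_four y hl, T.kap_of_flen_four y (by rw [flen_face]; exact hl),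
        T.kap_of_flen_four y (by rw [flen_face_iterate]; exact hl),
        T.kap_of_flen_four y (by rw [flen_face_iterate]; exact hl), e1, e2, e3]
      have h5 := h4 (T.N⁻¹ d) (fun h1 => by rw [T.tri_N_inv_iff] at h1; omega)
        (by rw [N_N_inv]; exact h)
      rw [N_N_inv] at h5
      have e4 : T.face d = T.N (T.I d) := rfl
      have e5 : T.face (T.N (T.I d)) = T.N (T.I (T.N (T.I d))) := rfl
      rw [e4, e5]
      linarith
    · intro d h
      have hl := T.flen_eq_of_iterate (by norm_num) (by norm_num) h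
      rw [T.kap_of_flen_five y hl, T.kap_of_flen_five y (by rw [flen_face]; exact hl),
        T.kap_of_flen_five y (by rw [flen_face_iterate]; exact hl),
        T.kap_of_flen_five y (by rw [flen_face_iterate]; exact hl),
        T.kap_of_flen_five y (by rw [flen_face_iterate]; exact hl)]
      norm_num
    · intro d h
      rw [T.kap_of_flen_six y h]
  · refine le_trans ?_ (hc f)
    have h1 := T.sum_shift (T.kap y) f
    have h2 : ∑ i ∈ Finset.range (Function.minimalPeriod T.N f), T.kap y (T.N^[i] (T.N f)) ≤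
        ∑ i ∈ Finset.range (Function.minimalPeriod T.N f),
          (T.shr (T.N^[i] f) + y (T.N^[i] f)) := by
      refine Finset.sum_le_sum fun i _ => ?_
      rw [← Function.iterate_succ_apply, Function.iterate_succ_apply']
      exact T.kap_N_le y hy _
    have h3 : ∑ i ∈ Finset.range (Function.minimalPeriod T.N f),
        (g (T.N^[i] f) / 2 - g (T.I (T.N^[i] f)) / 2) ≤
        ∑ i ∈ Finset.range (Function.minimalPeriod T.N f), g (T.N^[i] f) := by
      refine Finset.sum_le_sum fun i _ => ?_
      have := hg (T.N^[i] f)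
      linarith
    rw [h1] at h2
    simp only [Finset.sum_add_distrib, Finset.sum_sub_distrib] at h2 h3 ⊢
    linarith

end SMap

end Pool.Agent.Lib.MP_5854e1_co
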