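import Pool.Agent.Lib.MP_5854e1_co.Reduce

/-!
# Reduction to local rules, with corrections at pentagons

The weights of the corners are `1/3` at triangles, `1/4` at faces with four or five corners, both
corrected by `y`, and `1/6` at the others.
-/

set_option autoImplicit false

open Equiv Equiv.Perm

namespace Pool.Agent.Lib.MP_5854e1_co

open Model24 (Kind)

namespace SMap

variable {F : Type*} (T : SMap F)

open Classical in
/-- The weight of a corner. -/
noncomputable def kap5 (y : F → ℚ) (d : F) : ℚ :=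
  if T.Tri (T.N⁻¹ d) then 1 / 3 + y (T.N⁻¹ d) else
    if T.flen d = 4 ∨ T.flen d = 5 then 1 / 4 + y (T.N⁻¹ d) else 1 / 6

theorem kap5_N_le (y : F → ℚ) (hy : ∀ a, ¬T.Tri a → -(1 / 12) ≤ y a) (a : F) :
    T.kap5 y (T.N a) ≤ T.shr a + y a := by
  unfold kap5
  rw [N_inv_N]
  by_cases h : T.Tri a
  · rw [if_pos h, T.shr_tri h]
  · have := hy a h
    rw [if_neg h, T.shr_big h]
    split_ifs <;> linarith

variable [Finite F]

theorem kap5_of_flen_three (y : F → ℚ) {d : F} (h : T.flen d = 3) :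
    T.kap5 y d = 1 / 3 + y (T.N⁻¹ d) := if_pos ((T.tri_N_inv_iff d).2 h)

theorem kap5_of_flen (y : F → ℚ) {d : F} (h : T.flen d = 4 ∨ T.flen d = 5) :
    T.kap5 y d = 1 / 4 + y (T.N⁻¹ d) := by
  unfold kap5
  rw [if_neg (fun h1 => by rw [T.tri_N_inv_iff] at h1; omega), if_pos h]

theorem kap5_of_flen_six (y : F → ℚ) {d : F} (h : 6 ≤ T.flen d) : T.kap5 y d = 1 / 6 := by
  unfold kap5
  rw [if_neg (fun h1 => by rw [T.tri_N_inv_iff] at h1; omega), if_neg (by omega)]

/-- **Reduction to local rules**, with corrections at pentagons. -/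
theorem bound_of_local5 (y g : F → ℚ) (v : ℚ)
    (h3 : ∀ a, T.Tri a → 0 ≤ y a + y (T.I (T.N a)) + y (T.I (T.N (T.I (T.N a)))))
    (h4 : ∀ a, ¬T.Tri a → T.face^[4] (T.N a) = T.N a →
      0 ≤ y a + y (T.I (T.N a)) + y (T.I (T.N (T.I (T.N a)))) +
        y (T.I (T.N (T.I (T.N (T.I (T.N a)))))))
    (h5 : ∀ a, ¬T.Tri a → T.face^[5] (T.N a) = T.N a →
      -(1 / 4) ≤ y a + y (T.I (T.N a)) + y (T.I (T.N (T.I (T.N a)))) +
        y (T.I (T.N (T.I (T.N (T.I (T.N a)))))) +
        y (T.I (T.N (T.I (T.N (T.I (T.N (T.I (T.N a)))))))))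
    (hy : ∀ a, ¬T.Tri a → -(1 / 12) ≤ y a)
    (hg : ∀ d, 0 ≤ g d + g (T.I d))
    (hc : ∀ f, 1 + ∑ i ∈ Finset.range (Function.minimalPeriod T.N f),
      (T.shr (T.N^[i] f) + y (T.N^[i] f) - 1 / 2 + g (T.N^[i] f)) ≤ v) : T.Bound v := by
  refine ⟨T.kap5 y, fun d => g d / 2, fun d => ?_, fun f => ?_⟩
  · have key := T.one_le_face_sum (T.kap5 y) (fun _ => 0) ?_ ?_ ?_ ?_ d
    · simpa using key
    · intro d h
      have hl := T.flen_eq_of_iterate le_rfl (by norm_num) h
      have e1 : T.N⁻¹ (T.face d) = T.I d := T.N_inv_face d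
      have e2 : T.N⁻¹ (T.face^[2] d) = T.I (T.face d) := T.N_inv_face (T.face d)
      rw [T.kap5_of_flen_three y hl, T.kap5_of_flen_three y (by rw [flen_face]; exact hl),
        T.kap5_of_flen_three y (by rw [flen_face_iterate]; exact hl), e1, e2]
      have h5 := h3 (T.N⁻¹ d) ((T.tri_N_inv_iff d).2 hl)
      rw [N_N_inv] at h5
      have e3 : T.face d = T.N (T.I d) := rfl
      rw [e3]
      linarith
    · intro d h
      have hl := T.flen_eq_of_iterate (by norm_num) (by norm_num) h
      have e1 : T.N⁻¹ (T.face d) = T.I d := T.N_inv_face d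
      have e2 : T.N⁻¹ (T.face^[2] d) = T.I (T.face d) := T.N_inv_face (T.face d)
      have e3 : T.N⁻¹ (T.face^[3] d) = T.I (T.face (T.face d)) := T.N_inv_face _
      rw [T.kap5_of_flen y (Or.inl hl), T.kap5_of_flen y (by rw [flen_face]; exact Or.inl hl),
        T.kap5_of_flen y (by rw [flen_face_iterate]; exact Or.inl hl),
        T.kap5_of_flen y (by rw [flen_face_iterate]; exact Or.inl hl), e1, e2, e3]
      have h5 := h4 (T.N⁻¹ d) (fun h1 => by rw [T.tri_N_inv_iff] at h1; omega)
        (by rw [N_N_inv]; exact h)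
      rw [N_N_inv] at h5
      have e4 : T.face d = T.N (T.I d) := rfl
      have e5 : T.face (T.N (T.I d)) = T.N (T.I (T.N (T.I d))) := rfl
      rw [e4, e5]
      linarith
    · intro d h
      have hl := T.flen_eq_of_iterate (by norm_num) (by norm_num) h
      have e1 : T.N⁻¹ (T.face d) = T.I d := T.N_inv_face d
      have e2 : T.N⁻¹ (T.face^[2] d) = T.I (T.face d) := T.N_inv_face (T.face d)
      have e3 : T.N⁻¹ (T.face^[3] d) = T.I (T.face (T.face d)) := T.N_inv_face _
      have e3' : T.N⁻¹ (T.face^[4] d) = T.I (T.face (T.face (T.face d))) := T.N_inv_face _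
      rw [T.kap5_of_flen y (Or.inr hl), T.kap5_of_flen y (by rw [flen_face]; exact Or.inr hl),
        T.kap5_of_flen y (by rw [flen_face_iterate]; exact Or.inr hl),
        T.kap5_of_flen y (by rw [flen_face_iterate]; exact Or.inr hl),
        T.kap5_of_flen y (by rw [flen_face_iterate]; exact Or.inr hl), e1, e2, e3, e3']
      have h6 := h5 (T.N⁻¹ d) (fun h1 => by rw [T.tri_N_inv_iff] at h1; omega)
        (by rw [N_N_inv]; exact h)
      rw [N_N_inv] at h6
      have e4 : T.face d = T.N (T.I d) := rfl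
      have e5 : T.face (T.N (T.I d)) = T.N (T.I (T.N (T.I d))) := rfl
      have e6 : T.face (T.N (T.I (T.N (T.I d)))) = T.N (T.I (T.N (T.I (T.N (T.I d))))) := rfl
      rw [e4, e5, e6]
      linarith
    · intro d h
      rw [T.kap5_of_flen_six y h]
  · refine le_trans ?_ (hc f)
    have h1 := T.sum_shift (T.kap5 y) f
    have h2 : ∑ i ∈ Finset.range (Function.minimalPeriod T.N f), T.kap5 y (T.N^[i] (T.N f)) ≤
        ∑ i ∈ Finset.range (Function.minimalPeriod T.N f),
          (T.shr (T.N^[i] f) + y (T.N^[i] f)) := by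
      refine Finset.sum_le_sum fun i _ => ?_
      rw [← Function.iterate_succ_apply, Function.iterate_succ_apply']
      exact T.kap5_N_le y hy _
    have h3 : ∑ i ∈ Finset.range (Function.minimalPeriod T.N f),
        (g (T.N^[i] f) / 2 - g (T.I (T.N^[i] f)) / 2) ≤
        ∑ i ∈ Finset.range (Function.minimalPeriod T.N f), g (T.N^[i] f) := by
      refine Finset.sum_le_sum fun i _ => ?_
      have := hg (T.N^[i] f)
      linarith
    rw [h1] at h2
    simp only [Finset.sum_add_distrib, Finset.sum_sub_distrib] at h2 h3 ⊢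
    linarith

end SMap

end Pool.Agent.Lib.MP_5854e1_co
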