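import Pool.Agent.Lib.MP_5854e1_co.Assemble
import Pool.Agent.Lib.MP_5854e1_co.Fan

/-!
# Reduction to local rules, with corrections of the pairs of adjacent triangles

The region of a strip consists of the triangles on its two sides. Its four corners get the weights
`g d`, `g (I d)` at the ends of the strip and `W` at the two corners opposite to it.
-/

set_option autoImplicit false

open Equiv Equiv.Perm

namespace Pool.Agent.Lib.MP_5854e1_co

open Finset

namespace SMap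

variable {F : Type*} (T : SMap F)

theorem tri_rot_iff (a : F) : T.Tri (T.I (T.N a)) ↔ T.Tri a := T.tri_I_N a

/-- **Reduction to local rules**, with corrections of the regions of the strips. -/
theorem bound_of_local6 [Finite F] (y g W : F → ℚ) (v : ℚ)
    (h3 : ∀ a, T.Tri a → 0 ≤ y a + y (T.I (T.N a)) + y (T.I (T.N (T.I (T.N a)))))
    (h4 : ∀ a, ¬T.Tri a → T.face^[4] (T.N a) = T.N a →
      0 ≤ y a + y (T.I (T.N a)) + y (T.I (T.N (T.I (T.N a)))) +
        y (T.I (T.N (T.I (T.N (T.I (T.N a)))))))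
    (h5 : ∀ a, ¬T.Tri a → T.face^[5] (T.N a) = T.N a →
      -(1 / 4) ≤ y a + y (T.I (T.N a)) + y (T.I (T.N (T.I (T.N a)))) +
        y (T.I (T.N (T.I (T.N (T.I (T.N a)))))) +
        y (T.I (T.N (T.I (T.N (T.I (T.N (T.I (T.N a)))))))))
    (hy : ∀ a, ¬T.Tri a → -(1 / 12) ≤ y a)
    (hW : ∀ a, ¬T.Tri a → W a = 0)
    (hg : ∀ d, 0 ≤ g d + g (T.I d) + W (T.I (T.N d)) + W (T.I (T.N (T.I d))))
    (hc : ∀ f, 1 + ∑ i ∈ Finset.range (Function.minimalPeriod T.N f),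
      (T.shr (T.N^[i] f) + (y (T.N^[i] f) + W (T.N^[i] f)) - 1 / 2 + g (T.N^[i] f)) ≤ v) :
    T.Bound v := by
  set y' : F → ℚ := fun a => y a + W a - W (T.I (T.N a)) / 2 - W (T.I (T.N (T.I (T.N a)))) / 2
    with hy'
  have hbig : ∀ a, ¬T.Tri a → y' a = y a := by
    intro a ha
    have h1 : ¬T.Tri (T.I (T.N a)) := fun h => ha ((T.tri_rot_iff a).1 h)
    have h2 : ¬T.Tri (T.I (T.N (T.I (T.N a)))) := fun h => h1 ((T.tri_rot_iff _).1 h)
    simp only [hy', hW a ha, hW _ h1, hW _ h2]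
    ring
  refine T.bound_of_local5 y' (fun d => (g d - g (T.I d)) / 2) v ?_ ?_ ?_ ?_ ?_ ?_
  · intro a ha
    have e : T.I (T.N (T.I (T.N (T.I (T.N a))))) = a := T.rot_three ha
    simp only [hy', e]
    have := h3 a ha
    linarith
  · intro a ha h
    have h1 : ¬T.Tri (T.I (T.N a)) := fun h => ha ((T.tri_rot_iff a).1 h)
    have h2 : ¬T.Tri (T.I (T.N (T.I (T.N a)))) := fun h => h1 ((T.tri_rot_iff _).1 h)
    have h3' : ¬T.Tri (T.I (T.N (T.I (T.N (T.I (T.N a)))))) := fun h => h2 ((T.tri_rot_iff _).1 h)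
    rw [hbig _ ha, hbig _ h1, hbig _ h2, hbig _ h3']
    exact h4 a ha h
  · intro a ha h
    have h1 : ¬T.Tri (T.I (T.N a)) := fun h => ha ((T.tri_rot_iff a).1 h)
    have h2 : ¬T.Tri (T.I (T.N (T.I (T.N a)))) := fun h => h1 ((T.tri_rot_iff _).1 h)
    have h3' : ¬T.Tri (T.I (T.N (T.I (T.N (T.I (T.N a)))))) := fun h => h2 ((T.tri_rot_iff _).1 h)
    have h4' : ¬T.Tri (T.I (T.N (T.I (T.N (T.I (T.N (T.I (T.N a)))))))) :=
      fun h => h3' ((T.tri_rot_iff _).1 h)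
    rw [hbig _ ha, hbig _ h1, hbig _ h2, hbig _ h3', hbig _ h4']
    exact h5 a ha h
  · intro a ha
    rw [hbig a ha]
    exact hy a ha
  · intro d
    simp only [I_I]
    have : (0 : ℚ) ≤ 0 := le_rfl
    linarith
  · intro f
    refine le_trans ?_ (hc f)
    set p := Function.minimalPeriod T.N f with hp
    have e1 := T.sum_shift (fun d => W (T.I (T.N (T.I d))) / 2) f
    rw [← hp] at e1
    have e2 : ∑ i ∈ range p, W (T.I (T.N (T.I (T.N^[i] (T.N f))))) / 2 =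
        ∑ i ∈ range p, W (T.I (T.N (T.I (T.N (T.N^[i] f))))) / 2 := by
      refine Finset.sum_congr rfl fun i _ => ?_
      rw [← Function.iterate_succ_apply, Function.iterate_succ_apply']
    have e3 : ∀ d, (g d - g (T.I d)) / 2 - W (T.I (T.N d)) / 2 - W (T.I (T.N (T.I d))) / 2 ≤ g d := by
      intro d
      have := hg d
      linarith
    have e4 : ∑ i ∈ range p, ((g (T.N^[i] f) - g (T.I (T.N^[i] f))) / 2 -
        W (T.I (T.N (T.N^[i] f))) / 2 - W (T.I (T.N (T.I (T.N^[i] f)))) / 2) ≤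
        ∑ i ∈ range p, g (T.N^[i] f) := Finset.sum_le_sum fun i _ => e3 _
    rw [e2] at e1
    simp only [hy', Finset.sum_add_distrib, Finset.sum_sub_distrib] at e1 e4 ⊢
    linarith

/-- **From the search to the bound**, with corrections of the regions of the strips: `ze` is the
correction of the window of a strip, `ps - dw` is the weight of the corner opposite to a strip. -/
theorem bound_of_search6 [Finite F] {U α : ℕ} (hU : 0 < U) (val nd Y dl ps dw ze : F → ℤ)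
    (hdl : ∀ d, 0 ≤ dl d + dw d + ze d)
    (hps : ∀ a, ¬T.Tri a → ps a = 0 ∧ dw a = 0)
    (hg : ∀ d, ((ze d + ze (T.I d) + dw (T.I (T.N d)) + dw (T.I (T.N (T.I d))) -
      ps (T.I (T.N d)) - ps (T.I (T.N (T.I d))) : ℤ) : ℚ) / U ≤
      T.gw U α val (fun a => Y a + ps a) d + T.gw U α val (fun a => Y a + ps a) (T.I d))
    (h3 : ∀ a, T.Tri a → dl a + dl (T.I (T.N a)) + dl (T.I (T.N (T.I (T.N a)))) ≤
      Y a + Y (T.I (T.N a)) + Y (T.I (T.N (T.I (T.N a)))))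
    (h4 : ∀ a, ¬T.Tri a → T.face^[4] (T.N a) = T.N a →
      dl a + dl (T.I (T.N a)) + dl (T.I (T.N (T.I (T.N a)))) +
        dl (T.I (T.N (T.I (T.N (T.I (T.N a)))))) ≤
      Y a + Y (T.I (T.N a)) + Y (T.I (T.N (T.I (T.N a)))) +
        Y (T.I (T.N (T.I (T.N (T.I (T.N a)))))))
    (h5 : ∀ a, ¬T.Tri a → T.face^[5] (T.N a) = T.N a →
      4 * (dl a + dl (T.I (T.N a)) + dl (T.I (T.N (T.I (T.N a)))) +
        dl (T.I (T.N (T.I (T.N (T.I (T.N a)))))) +
        dl (T.I (T.N (T.I (T.N (T.I (T.N (T.I (T.N a))))))))) ≤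
      4 * (Y a + Y (T.I (T.N a)) + Y (T.I (T.N (T.I (T.N a)))) +
        Y (T.I (T.N (T.I (T.N (T.I (T.N a)))))) +
        Y (T.I (T.N (T.I (T.N (T.I (T.N (T.I (T.N a))))))))) + U)
    (hy : ∀ a, ¬T.Tri a → 12 * dl a ≤ 12 * Y a + U)
    (hnd : ∀ d, nd d ≤ 0 ∨ nd d ≤ nd (T.N d) - val (T.N d))
    (hs : ∀ e, (∀ n, 0 < n → 0 < ∑ i ∈ range n, val (T.N^[i] e)) →
      (∀ n, nd (T.N^[n] e) < ∑ i ∈ range (n + 1), val (T.N^[i] e)) →
      ∑ i ∈ range (Function.minimalPeriod T.N e), (val (T.N^[i] e) -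
        (dl (T.N^[i] e) + dw (T.N^[i] e) + ze (T.N^[i] e))) ≤ 0) :
    T.Bound (1 - 24 * α / U) := by
  have hU' : (0 : ℚ) < U := by exact_mod_cast hU
  refine T.bound_of_local6 (fun a => ((Y a - dl a : ℤ) : ℚ) / U)
    (fun d => T.gw U α val (fun a => Y a + ps a) d - (ze d : ℚ) / U)
    (fun a => ((ps a - dw a : ℤ) : ℚ) / U) _ ?_ ?_ ?_ ?_ ?_ ?_ ?_
  · intro a ha
    have h := h3 a ha
    have h' : (0 : ℚ) ≤ ((Y a - dl a : ℤ) : ℚ) + ((Y (T.I (T.N a)) - dl (T.I (T.N a)) : ℤ) : ℚ) +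
        ((Y (T.I (T.N (T.I (T.N a)))) - dl (T.I (T.N (T.I (T.N a)))) : ℤ) : ℚ) := by
      rw [← Int.cast_add, ← Int.cast_add]
      exact_mod_cast (by linarith : (0 : ℤ) ≤ _)
    rw [← add_div, ← add_div]
    exact div_nonneg h' hU'.le
  · intro a ha hf
    have h := h4 a ha hf
    have h' : (0 : ℚ) ≤ ((Y a - dl a : ℤ) : ℚ) + ((Y (T.I (T.N a)) - dl (T.I (T.N a)) : ℤ) : ℚ) +
        ((Y (T.I (T.N (T.I (T.N a)))) - dl (T.I (T.N (T.I (T.N a)))) : ℤ) : ℚ) +
        ((Y (T.I (T.N (T.I (T.N (T.I (T.N a)))))) -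
          dl (T.I (T.N (T.I (T.N (T.I (T.N a)))))) : ℤ) : ℚ) := by
      rw [← Int.cast_add, ← Int.cast_add, ← Int.cast_add]
      exact_mod_cast (by linarith : (0 : ℤ) ≤ _)
    rw [← add_div, ← add_div, ← add_div]
    exact div_nonneg h' hU'.le
  · intro a ha hf
    have h := h5 a ha hf
    rw [← add_div, ← add_div, ← add_div, ← add_div, le_div_iff₀ hU']
    have h' : (4 : ℚ) * (dl a + dl (T.I (T.N a)) + dl (T.I (T.N (T.I (T.N a)))) +
        dl (T.I (T.N (T.I (T.N (T.I (T.N a)))))) +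
        dl (T.I (T.N (T.I (T.N (T.I (T.N (T.I (T.N a))))))))) ≤
      4 * (Y a + Y (T.I (T.N a)) + Y (T.I (T.N (T.I (T.N a)))) +
        Y (T.I (T.N (T.I (T.N (T.I (T.N a)))))) +
        Y (T.I (T.N (T.I (T.N (T.I (T.N (T.I (T.N a))))))))) + U := by exact_mod_cast h
    push_cast
    linarith
  · intro a ha
    have h := hy a ha
    have h' : (12 : ℚ) * dl a ≤ 12 * Y a + U := by exact_mod_cast h
    rw [le_div_iff₀ hU']
    push_cast
    linarith
  · intro a ha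
    obtain ⟨h1, h2⟩ := hps a ha
    simp only [h1, h2, sub_self, Int.cast_zero, zero_div]
  · intro d
    have h := hg d
    rw [div_le_iff₀ hU'] at h
    have key : (T.gw U α val (fun a => Y a + ps a) d - (ze d : ℚ) / U +
        (T.gw U α val (fun a => Y a + ps a) (T.I d) - (ze (T.I d) : ℚ) / U) +
        ((ps (T.I (T.N d)) - dw (T.I (T.N d)) : ℤ) : ℚ) / U +
        ((ps (T.I (T.N (T.I d))) - dw (T.I (T.N (T.I d))) : ℤ) : ℚ) / U) =
        ((T.gw U α val (fun a => Y a + ps a) d + T.gw U α val (fun a => Y a + ps a) (T.I d)) * U -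
          ((ze d + ze (T.I d) + dw (T.I (T.N d)) + dw (T.I (T.N (T.I d))) -
            ps (T.I (T.N d)) - ps (T.I (T.N (T.I d))) : ℤ) : ℚ)) / U := by
      field_simp
      push_cast
      ring
    rw [key]
    exact div_nonneg (by linarith) hU'.le
  · intro f
    set p := Function.minimalPeriod T.N f with hp
    have key : ∑ i ∈ range p, (val (T.N^[i] f) -
        (dl (T.N^[i] f) + dw (T.N^[i] f) + ze (T.N^[i] f))) ≤ 0 := by
      by_contra hlt
      push Not at hlt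
      have h1 : 0 < ∑ i ∈ range p, val (T.N^[i] f) := by
        rw [Finset.sum_sub_distrib] at hlt
        have : 0 ≤ ∑ i ∈ range p, (dl (T.N^[i] f) + dw (T.N^[i] f) + ze (T.N^[i] f)) :=
          Finset.sum_nonneg fun i _ => hdl _
        linarith
      obtain ⟨j, -, h2, h3⟩ := T.exists_root val nd hnd h1
      have h4 := hs _ h2 h3
      rw [T.period_iterate,
        T.sum_rotate (fun e => val e - (dl e + dw e + ze e)) f j] at h4
      linarith
    have h24 := T.sum_ls f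
    rw [← hp] at h24
    have h24' : ∑ i ∈ range p, (T.ls (T.N^[i] f) : ℚ) = 24 := by exact_mod_cast h24
    have key' : ∑ i ∈ range p, ((val (T.N^[i] f) : ℚ) -
        (dl (T.N^[i] f) + dw (T.N^[i] f) + ze (T.N^[i] f))) ≤ 0 := by
      exact_mod_cast key
    have e : ∀ i ∈ range p, (T.shr (T.N^[i] f) + (((Y (T.N^[i] f) - dl (T.N^[i] f) : ℤ) : ℚ) / U +
        ((ps (T.N^[i] f) - dw (T.N^[i] f) : ℤ) : ℚ) / U) -
        1 / 2 + (T.gw U α val (fun a => Y a + ps a) (T.N^[i] f) - (ze (T.N^[i] f) : ℚ) / U)) =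
        ((val (T.N^[i] f) : ℚ) -
        (dl (T.N^[i] f) + dw (T.N^[i] f) + ze (T.N^[i] f))) / U -
        α / U * T.ls (T.N^[i] f) := by
      intro i _
      unfold gw
      push_cast
      ring
    rw [Finset.sum_congr rfl e, Finset.sum_sub_distrib, ← Finset.sum_div, ← Finset.mul_sum, h24']
    have := div_nonpos_of_nonpos_of_nonneg key' hU'.le
    have e2 : (24 : ℚ) * α / U = α / U * 24 := by ring
    rw [e2]
    linarith

/-- The same with the windows counted at the corner before the strip. -/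
theorem bound_of_search7 [Finite F] {U α : ℕ} (hU : 0 < U) (val nd Y dl ps dw zw : F → ℤ)
    (hdl : ∀ d, 0 ≤ dl d) (hdw : ∀ d, 0 ≤ dw d) (hzw : ∀ d, 0 ≤ zw d)
    (hps : ∀ a, ¬T.Tri a → ps a = 0 ∧ dw a = 0)
    (hg : ∀ d, ((zw (T.N⁻¹ d) + zw (T.N⁻¹ (T.I d)) + dw (T.I (T.N d)) +
      dw (T.I (T.N (T.I d))) - ps (T.I (T.N d)) - ps (T.I (T.N (T.I d))) : ℤ) : ℚ) / U ≤
      T.gw U α val (fun a => Y a + ps a) d + T.gw U α val (fun a => Y a + ps a) (T.I d))
    (h3 : ∀ a, T.Tri a → dl a + dl (T.I (T.N a)) + dl (T.I (T.N (T.I (T.N a)))) ≤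
      Y a + Y (T.I (T.N a)) + Y (T.I (T.N (T.I (T.N a)))))
    (h4 : ∀ a, ¬T.Tri a → T.face^[4] (T.N a) = T.N a →
      dl a + dl (T.I (T.N a)) + dl (T.I (T.N (T.I (T.N a)))) +
        dl (T.I (T.N (T.I (T.N (T.I (T.N a)))))) ≤
      Y a + Y (T.I (T.N a)) + Y (T.I (T.N (T.I (T.N a)))) +
        Y (T.I (T.N (T.I (T.N (T.I (T.N a)))))))
    (h5 : ∀ a, ¬T.Tri a → T.face^[5] (T.N a) = T.N a →
      4 * (dl a + dl (T.I (T.N a)) + dl (T.I (T.N (T.I (T.N a)))) +
        dl (T.I (T.N (T.I (T.N (T.I (T.N a)))))) +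
        dl (T.I (T.N (T.I (T.N (T.I (T.N (T.I (T.N a))))))))) ≤
      4 * (Y a + Y (T.I (T.N a)) + Y (T.I (T.N (T.I (T.N a)))) +
        Y (T.I (T.N (T.I (T.N (T.I (T.N a)))))) +
        Y (T.I (T.N (T.I (T.N (T.I (T.N (T.I (T.N a))))))))) + U)
    (hy : ∀ a, ¬T.Tri a → 12 * dl a ≤ 12 * Y a + U)
    (hnd : ∀ d, nd d ≤ 0 ∨ nd d ≤ nd (T.N d) - val (T.N d))
    (hs : ∀ e, (∀ n, 0 < n → 0 < ∑ i ∈ range n, val (T.N^[i] e)) →
      (∀ n, nd (T.N^[n] e) < ∑ i ∈ range (n + 1), val (T.N^[i] e)) →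
      ∑ i ∈ range (Function.minimalPeriod T.N e), (val (T.N^[i] e) -
        (dl (T.N^[i] e) + dw (T.N^[i] e) + zw (T.N^[i] e))) ≤ 0) :
    T.Bound (1 - 24 * α / U) := by
  refine T.bound_of_search6 hU val nd Y dl ps dw (fun d => zw (T.N⁻¹ d))
    (fun d => add_nonneg (add_nonneg (hdl d) (hdw d)) (hzw _)) hps hg h3 h4 h5 hy hnd
    fun e h1 h2 => ?_
  have h := hs e h1 h2
  have key : ∑ i ∈ range (Function.minimalPeriod T.N e), zw (T.N⁻¹ (T.N^[i] e)) =
      ∑ i ∈ range (Function.minimalPeriod T.N e), zw (T.N^[i] e) := by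
    obtain ⟨f, rfl⟩ : ∃ f, T.N f = e := ⟨T.N⁻¹ e, T.N_N_inv' e⟩
    have e1 : ∀ i, T.N⁻¹ (T.N^[i] (T.N f)) = T.N^[i] f := by
      intro i
      rw [← Function.iterate_succ_apply, Function.iterate_succ_apply', N_inv_N]
    have h3 := T.sum_rotate zw f 1
    have hp : Function.minimalPeriod T.N (T.N f) = Function.minimalPeriod T.N f :=
      T.period_iterate f 1
    simp only [e1]
    rw [hp]
    exact h3.symm
  simp only [Finset.sum_sub_distrib, Finset.sum_add_distrib] at h ⊢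
  rw [key]
  exact h

end SMap

end Pool.Agent.Lib.MP_5854e1_co
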