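import Pool.Agent.Lib.MP_5854e1_co.Reduce6

/-!
# Reduction to local rules, with reserves

The strip `N a` after a triangular corner `a` pays the reserves `R0 a` for the triangle, `R1 a` for
the region of the strip opposite to `a` and `R2 a` for the region of the strip opposite to the next
corner `I (N a)` of the triangle.
-/

set_option autoImplicit false

open Equiv Equiv.Perm

namespace Pool.Agent.Lib.MP_5854e1_co

open Finset

namespace SMap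

variable {F : Type*} (T : SMap F)

theorem sum_N_inv [Finite F] (z : F → ℤ) (e : F) :
    ∑ i ∈ range (Function.minimalPeriod T.N e), z (T.N⁻¹ (T.N^[i] e)) =
      ∑ i ∈ range (Function.minimalPeriod T.N e), z (T.N^[i] e) := by
  obtain ⟨f, rfl⟩ : ∃ f, T.N f = e := ⟨T.N⁻¹ e, T.N_N_inv' e⟩
  have e1 : ∀ i, T.N⁻¹ (T.N^[i] (T.N f)) = T.N^[i] f := by
    intro i
    rw [← Function.iterate_succ_apply, Function.iterate_succ_apply', N_inv_N]
  have h3 := T.sum_rotate z f 1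
  have hp : Function.minimalPeriod T.N (T.N f) = Function.minimalPeriod T.N f :=
    T.period_iterate f 1
  simp only [e1]
  rw [hp]
  exact h3.symm

/-- **From the search to the bound**, with reserves. The search is applied to the values
`val e + gg (N⁻¹ e) - gg e`. -/
theorem bound_of_search8 [Finite F] {U α : ℕ} (hU : 0 < U)
    (val nd gg Y dl ps dw zw R0 R1 R2 : F → ℤ)
    (hdl : ∀ d, 0 ≤ dl d) (hdw : ∀ d, 0 ≤ dw d) (hzw : ∀ d, 0 ≤ zw d)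
    (hps : ∀ a, ¬T.Tri a → ps a = 0 ∧ dw a = 0 ∧ R0 a = 0 ∧ R1 a = 0 ∧ R2 (T.N⁻¹ (T.I a)) = 0)
    (hg : ∀ d, ((zw (T.N⁻¹ d) + zw (T.N⁻¹ (T.I d)) + dw (T.I (T.N d)) + dw (T.I (T.N (T.I d))) +
      (R0 (T.N⁻¹ d) + R1 (T.N⁻¹ d) + R2 (T.N⁻¹ d)) +
      (R0 (T.N⁻¹ (T.I d)) + R1 (T.N⁻¹ (T.I d)) + R2 (T.N⁻¹ (T.I d))) -
      ps (T.I (T.N d)) - ps (T.I (T.N (T.I d))) - R1 (T.I (T.N d)) - R2 d -
      R1 (T.I (T.N (T.I d))) - R2 (T.I d) : ℤ) : ℚ) / U ≤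
      T.gw U α val (fun a => Y a + ps a) d + T.gw U α val (fun a => Y a + ps a) (T.I d))
    (h3 : ∀ a, T.Tri a → dl a + dl (T.I (T.N a)) + dl (T.I (T.N (T.I (T.N a)))) ≤
      Y a + Y (T.I (T.N a)) + Y (T.I (T.N (T.I (T.N a)))) +
        (R0 a + R0 (T.I (T.N a)) + R0 (T.I (T.N (T.I (T.N a))))))
    (h4 : ∀ a, ¬T.Tri a → T.face^[4] (T.N a) = T.N a →
      dl a + dl (T.I (T.N a)) + dl (T.I (T.N (T.I (T.N a)))) +
        dl (T.I (T.N (T.I (T.N (T.I (T.N a)))))) ≤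
      Y a + Y (T.I (T.N a)) + Y (T.I (T.N (T.I (T.N a)))) +
        Y (T.I (T.N (T.I (T.N (T.I (T.N a)))))))
    (h5 : ∀ a, ¬T.Tri a → T.face^[5] (T.N a) = T.N a →
      4 * (dl a + dl (T.I (T.N a)) + dl (T.I (T.N (T.I (T.N a)))) +
        dl (T.I (T.N (T.I (T.N (T.I (T.N a)))))) +
        dl (T.I (T.N (T.I (T.N (T.I (T.N (T.I (T.N a))))))))) ≤
      4 * (Y a + Y (T.I (T.N a)) + Y (T.I (T.N (T.I (T.N a)))) +
        Y (T.I (T.N (T.I (T.N (T.I (T.N a)))))) +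
        Y (T.I (T.N (T.I (T.N (T.I (T.N (T.I (T.N a))))))))) + U)
    (hy : ∀ a, ¬T.Tri a → 12 * dl a ≤ 12 * Y a + U)
    (hnd : ∀ d, nd d ≤ 0 ∨ nd d ≤ nd (T.N d) - (val (T.N d) + gg d - gg (T.N d)))
    (hs : ∀ e, (∀ n, 0 < n → 0 < ∑ i ∈ range n,
        (val (T.N^[i] e) + gg (T.N⁻¹ (T.N^[i] e)) - gg (T.N^[i] e))) →
      (∀ n, nd (T.N^[n] e) < ∑ i ∈ range (n + 1),
        (val (T.N^[i] e) + gg (T.N⁻¹ (T.N^[i] e)) - gg (T.N^[i] e))) →
      ∑ i ∈ range (Function.minimalPeriod T.N e), (val (T.N^[i] e) -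
        (dl (T.N^[i] e) + dw (T.N^[i] e) + zw (T.N^[i] e))) ≤ 0) :
    T.Bound (1 - 24 * α / U) := by
  have hU' : (0 : ℚ) < U := by exact_mod_cast hU
  refine T.bound_of_local6 (fun a => ((Y a - dl a + R0 a : ℤ) : ℚ) / U)
    (fun d => T.gw U α val (fun a => Y a + ps a) d -
      ((zw (T.N⁻¹ d) + R0 (T.N⁻¹ d) + R1 (T.N⁻¹ d) + R2 (T.N⁻¹ (T.I d)) : ℤ) : ℚ) / U)
    (fun a => ((ps a - dw a + R1 a + R2 (T.N⁻¹ (T.I a)) : ℤ) : ℚ) / U) _ ?_ ?_ ?_ ?_ ?_ ?_ ?_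
  · intro a ha
    have h := h3 a ha
    rw [← add_div, ← add_div]
    refine div_nonneg ?_ hU'.le
    rw [← Int.cast_add, ← Int.cast_add]
    exact_mod_cast (by linarith : (0 : ℤ) ≤ _)
  · intro a ha hf
    have h := h4 a ha hf
    have ha2 : ¬T.Tri (T.I (T.N a)) := fun h => ha ((T.tri_rot_iff a).1 h)
    have ha3 : ¬T.Tri (T.I (T.N (T.I (T.N a)))) := fun h => ha2 ((T.tri_rot_iff _).1 h)
    have ha4 : ¬T.Tri (T.I (T.N (T.I (T.N (T.I (T.N a)))))) := fun h => ha3 ((T.tri_rot_iff _).1 h)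
    rw [(hps _ ha).2.2.1, (hps _ ha2).2.2.1, (hps _ ha3).2.2.1, (hps _ ha4).2.2.1,
      ← add_div, ← add_div, ← add_div]
    refine div_nonneg ?_ hU'.le
    rw [← Int.cast_add, ← Int.cast_add, ← Int.cast_add]
    exact_mod_cast (by linarith : (0 : ℤ) ≤ _)
  · intro a ha hf
    have h := h5 a ha hf
    have ha2 : ¬T.Tri (T.I (T.N a)) := fun h => ha ((T.tri_rot_iff a).1 h)
    have ha3 : ¬T.Tri (T.I (T.N (T.I (T.N a)))) := fun h => ha2 ((T.tri_rot_iff _).1 h)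
    have ha4 : ¬T.Tri (T.I (T.N (T.I (T.N (T.I (T.N a)))))) := fun h => ha3 ((T.tri_rot_iff _).1 h)
    have ha5 : ¬T.Tri (T.I (T.N (T.I (T.N (T.I (T.N (T.I (T.N a)))))))) :=
      fun h => ha4 ((T.tri_rot_iff _).1 h)
    rw [(hps _ ha).2.2.1, (hps _ ha2).2.2.1, (hps _ ha3).2.2.1, (hps _ ha4).2.2.1,
      (hps _ ha5).2.2.1, ← add_div, ← add_div, ← add_div, ← add_div, le_div_iff₀ hU']
    have h' : (4 : ℚ) * (dl a + dl (T.I (T.N a)) + dl (T.I (T.N (T.I (T.N a)))) +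
        dl (T.I (T.N (T.I (T.N (T.I (T.N a)))))) +
        dl (T.I (T.N (T.I (T.N (T.I (T.N (T.I (T.N a))))))))) ≤
      4 * (Y a + Y (T.I (T.N a)) + Y (T.I (T.N (T.I (T.N a)))) +
        Y (T.I (T.N (T.I (T.N (T.I (T.N a)))))) +
        Y (T.I (T.N (T.I (T.N (T.I (T.N (T.I (T.N a))))))))) + U := by exact_mod_cast h
    push_cast
    linarith
  · intro a ha
    have h := hy a ha
    have h' : (12 : ℚ) * dl a ≤ 12 * Y a + U := by exact_mod_cast h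
    rw [(hps a ha).2.2.1, le_div_iff₀ hU']
    push_cast
    linarith
  · intro a ha
    obtain ⟨h1, h2, -, h3', h4'⟩ := hps a ha
    simp only [h1, h2, h3', h4', sub_self, add_zero, Int.cast_zero, zero_div]
  · intro d
    have h := hg d
    rw [div_le_iff₀ hU'] at h
    simp only [I_I, N_inv_N]
    have key : (T.gw U α val (fun a => Y a + ps a) d -
          ((zw (T.N⁻¹ d) + R0 (T.N⁻¹ d) + R1 (T.N⁻¹ d) + R2 (T.N⁻¹ (T.I d)) : ℤ) : ℚ) / U +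
        (T.gw U α val (fun a => Y a + ps a) (T.I d) -
          ((zw (T.N⁻¹ (T.I d)) + R0 (T.N⁻¹ (T.I d)) + R1 (T.N⁻¹ (T.I d)) +
            R2 (T.N⁻¹ d) : ℤ) : ℚ) / U) +
        ((ps (T.I (T.N d)) - dw (T.I (T.N d)) + R1 (T.I (T.N d)) + R2 d : ℤ) : ℚ) / U +
        ((ps (T.I (T.N (T.I d))) - dw (T.I (T.N (T.I d))) + R1 (T.I (T.N (T.I d))) +
          R2 (T.I d) : ℤ) : ℚ) / U) =
        ((T.gw U α val (fun a => Y a + ps a) d + T.gw U α val (fun a => Y a + ps a) (T.I d)) * U -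
          ((zw (T.N⁻¹ d) + zw (T.N⁻¹ (T.I d)) + dw (T.I (T.N d)) + dw (T.I (T.N (T.I d))) +
      (R0 (T.N⁻¹ d) + R1 (T.N⁻¹ d) + R2 (T.N⁻¹ d)) +
      (R0 (T.N⁻¹ (T.I d)) + R1 (T.N⁻¹ (T.I d)) + R2 (T.N⁻¹ (T.I d))) -
      ps (T.I (T.N d)) - ps (T.I (T.N (T.I d))) - R1 (T.I (T.N d)) - R2 d -
      R1 (T.I (T.N (T.I d))) - R2 (T.I d) : ℤ) : ℚ)) / U := by
      field_simp
      push_cast
      ring
    rw [key]
    exact div_nonneg (by linarith) hU'.le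
  · intro f
    set p := Function.minimalPeriod T.N f with hp
    have key : ∑ i ∈ range p, (val (T.N^[i] f) -
        (dl (T.N^[i] f) + dw (T.N^[i] f) + zw (T.N^[i] f))) ≤ 0 := by
      by_contra hlt
      push Not at hlt
      have e0 := T.sum_N_inv gg f
      rw [← hp] at e0
      have h1 : 0 < ∑ i ∈ range p,
          (val (T.N^[i] f) + gg (T.N⁻¹ (T.N^[i] f)) - gg (T.N^[i] f)) := by
        simp only [Finset.sum_sub_distrib, Finset.sum_add_distrib] at hlt ⊢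
        have q1 : 0 ≤ ∑ i ∈ range p, dl (T.N^[i] f) := Finset.sum_nonneg fun i _ => hdl _
        have q2 : 0 ≤ ∑ i ∈ range p, dw (T.N^[i] f) := Finset.sum_nonneg fun i _ => hdw _
        have q3 : 0 ≤ ∑ i ∈ range p, zw (T.N^[i] f) := Finset.sum_nonneg fun i _ => hzw _
        linarith
      obtain ⟨j, -, h2, h3⟩ := T.exists_root (fun e => val e + gg (T.N⁻¹ e) - gg e) nd
        (fun d => by simpa only [N_inv_N] using hnd d) h1
      have h4 := hs _ h2 h3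
      rw [T.period_iterate,
        T.sum_rotate (fun e => val e - (dl e + dw e + zw e)) f j] at h4
      linarith
    have h24 := T.sum_ls f
    rw [← hp] at h24
    have h24' : ∑ i ∈ range p, (T.ls (T.N^[i] f) : ℚ) = 24 := by exact_mod_cast h24
    have ez := T.sum_N_inv (fun e => zw e + R0 e + R1 e) f
    rw [← hp] at ez
    have key' : ∑ i ∈ range p, ((val (T.N^[i] f) : ℚ) -
        (dl (T.N^[i] f) + dw (T.N^[i] f) + zw (T.N⁻¹ (T.N^[i] f)) +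
          (R0 (T.N⁻¹ (T.N^[i] f)) + R1 (T.N⁻¹ (T.N^[i] f)) - R0 (T.N^[i] f) - R1 (T.N^[i] f)))) ≤
        0 := by
      have key2 : ∑ i ∈ range p, (val (T.N^[i] f) -
        (dl (T.N^[i] f) + dw (T.N^[i] f) + zw (T.N⁻¹ (T.N^[i] f)) +
          (R0 (T.N⁻¹ (T.N^[i] f)) + R1 (T.N⁻¹ (T.N^[i] f)) - R0 (T.N^[i] f) - R1 (T.N^[i] f)))) ≤
        0 := by
        simp only [Finset.sum_sub_distrib, Finset.sum_add_distrib] at ez key ⊢
        linarith
      exact_mod_cast key2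
    have e : ∀ i ∈ range p, (T.shr (T.N^[i] f) +
        (((Y (T.N^[i] f) - dl (T.N^[i] f) + R0 (T.N^[i] f) : ℤ) : ℚ) / U +
        ((ps (T.N^[i] f) - dw (T.N^[i] f) + R1 (T.N^[i] f) +
          R2 (T.N⁻¹ (T.I (T.N^[i] f))) : ℤ) : ℚ) / U) -
        1 / 2 + (T.gw U α val (fun a => Y a + ps a) (T.N^[i] f) -
          ((zw (T.N⁻¹ (T.N^[i] f)) + R0 (T.N⁻¹ (T.N^[i] f)) + R1 (T.N⁻¹ (T.N^[i] f)) +
            R2 (T.N⁻¹ (T.I (T.N^[i] f))) : ℤ) : ℚ) / U)) =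
        ((val (T.N^[i] f) : ℚ) -
        (dl (T.N^[i] f) + dw (T.N^[i] f) + zw (T.N⁻¹ (T.N^[i] f)) +
          (R0 (T.N⁻¹ (T.N^[i] f)) + R1 (T.N⁻¹ (T.N^[i] f)) - R0 (T.N^[i] f) -
            R1 (T.N^[i] f)))) / U -
        α / U * T.ls (T.N^[i] f) := by
      intro i _
      unfold gw
      push_cast
      ring
    rw [Finset.sum_congr rfl e, Finset.sum_sub_distrib, ← Finset.sum_div, ← Finset.mul_sum, h24']
    have := div_nonpos_of_nonpos_of_nonneg key' hU'.le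
    have e2 : (24 : ℚ) * α / U = α / U * 24 := by ring
    rw [e2]
    linarith

end SMap

end Pool.Agent.Lib.MP_5854e1_co
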