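import Pool.Agent.Lib.MP_5854e1_co.NoNeck

/-!
# Relabelled models
-/

set_option autoImplicit false

open Equiv Equiv.Perm

namespace Pool.Agent.Lib.MP_5854e1_co

/-- Automorphisms of the graph that fix the apex. -/
structure IsLabAut (g : Perm (Fin 7)) : Prop where
  zero : g 0 = 0
  adj : ∀ x y, K1222.Adj x y → K1222.Adj (g x) (g y)

theorem IsLabAut.ne_zero {g : Perm (Fin 7)} (h : IsLabAut g) {x : Fin 7} (hx : x ≠ 0) : g x ≠ 0 := by
  intro h1
  rw [← h.zero] at h1
  exact hx (g.injective h1)

namespace Model24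

variable {D : Type*} {M : Model24 D}

theorem IsWord.exists_one {c : ℕ → Fin 7} (hne : ∀ j, c j ≠ 0)
    (hinj : ∀ i < 6, ∀ j < 6, c i = c j → i = j) : ∃ m < 6, c m = 1 := by
  have hcard : (Finset.image c (Finset.range 6)) = Finset.univ.erase 0 := by
    refine Finset.eq_of_subset_of_card_le (fun y hy => ?_) ?_
    · obtain ⟨i, -, rfl⟩ := Finset.mem_image.1 hy
      exact Finset.mem_erase.2 ⟨hne i, Finset.mem_univ _⟩
    · rw [Finset.card_image_of_injOn, Finset.card_range]
      · decide
      · intro i hi j hj hij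
        exact hinj i (Finset.mem_range.1 (Finset.mem_coe.1 hi)) j
          (Finset.mem_range.1 (Finset.mem_coe.1 hj)) hij
  have h1 : (1 : Fin 7) ∈ Finset.image c (Finset.range 6) := by
    rw [hcard]
    decide
  obtain ⟨m, hm, h⟩ := Finset.mem_image.1 h1
  exact ⟨m, Finset.mem_range.1 hm, h⟩

/-- The relabelled model. -/
def relab (M : Model24 D) (g : Perm (Fin 7)) (hg : IsLabAut g) : Model24 D where
  nxt := M.nxt
  inv := M.inv
  lab d := (g (M.lab d).1, g (M.lab d).2)
  inv_inv := M.inv_inv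
  lab_inv d := by rw [M.lab_inv]; rfl
  cell d := by
    obtain ⟨s, k, c, b, hk, hs, hw⟩ := exists_word (M := M) d
    obtain ⟨m, hm, hm1⟩ := IsWord.exists_one (c := fun j => g (c j)) (fun j => hg.ne_zero (hw.c_ne j))
      (fun i hi j hj hij => hw.c_inj i hi j hj (g.injective hij))
    have hw' := hw.shift m
    refine ⟨M.nxt^[4 * m] s, (k + 24 - 4 * m) % 24, Nat.mod_lt _ (by norm_num), ?_, M.period24 _,
      fun j => g (c (j + m)), fun j k => g (b (j + m) k), by simpa using hm1,
      fun j => hg.ne_zero (hw'.c_ne j), fun i hi j hj hij => hw'.c_inj i hi j hj (g.injective hij),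
      fun j k hk => hg.ne_zero (hw'.b_ne j k hk), fun j k hk => hg.adj _ _ (hw'.b_adj j k hk),
      fun j k hk l hl e => hw'.b_inj j k hk l hl (g.injective e), fun j _ k hk => ?_⟩
    · rw [← Function.iterate_add_apply, ← hs]
      rcases Nat.lt_or_ge k (4 * m) with h | h
      · rw [Nat.mod_eq_of_lt (by omega), show k + 24 - 4 * m + 4 * m = k + 24 by omega,
          iterate_add_24]
      · have : (k + 24 - 4 * m) % 24 + 4 * m = k := by omega
        rw [this]
    · show (g (M.lab (M.nxt^[4 * j + k] (M.nxt^[4 * m] s))).1,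
        g (M.lab (M.nxt^[4 * j + k] (M.nxt^[4 * m] s))).2) = _
      rw [hw'.word j k hk]

variable (g : Perm (Fin 7)) (hg : IsLabAut g)

theorem relab_lab (d : D) : (M.relab g hg).lab d = (g (M.lab d).1, g (M.lab d).2) := rfl

theorem relab_kind (d : D) : (M.relab g hg).kind d = M.kind d := by
  classical
  have h : ∀ x y : Fin 7, g x = g y ↔ x = y := fun x y => g.injective.eq_iff
  unfold kind
  have h1 : ((M.relab g hg).lab ((M.relab g hg).nxt d)).1 = ((M.relab g hg).lab d).1 ↔
      (M.lab (M.nxt d)).1 = (M.lab d).1 := h _ _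
  by_cases hE : M.EStart (M.nxt d)
  · rw [if_pos hE]
    exact if_pos hE
  · rw [if_neg hE]
    refine (if_neg hE).trans ?_
    by_cases h2 : (M.lab (M.nxt d)).1 = (M.lab d).1
    · rw [if_pos h2]
      exact if_pos (h1.2 h2)
    · rw [if_neg h2]
      exact if_neg (fun h3 => h2 (h1.1 h3))

end Model24

end Pool.Agent.Lib.MP_5854e1_co
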