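import Pool.Agent.Lib.MP_5854e1_co.Region

/-!
# The closures over the triangles and over the regions of the strips, with reserves

A strip between two triangles pays three reserves for the triangle before it: `0` for the triangle,
`1` for the region of the strip opposite to the corner before the strip, `2` for the region of the
strip opposite to the next corner of the triangle. The reserves are the entries of the first group of
the row of the window; the table `rt` contains the same numbers by triangles.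
-/

set_option autoImplicit false

open Equiv Equiv.Perm

namespace Pool.Agent.Lib.MP_5854e1_co

noncomputable section

/-! ### Rows -/

/-- The maximum of `m` and the values of a group. -/
def DR.mx (r : DR) : ℕ → ℕ :=
  DR.rec (motive := fun _ => ℕ → ℕ) (fun m => m)
    (fun _ v _ ih m => rIf (Nat.ble m v) (ih v) (ih m)) r

/-- The maximum of `m` and the values of a group without the reserves `q`. -/
def DR.mxr (q r : DR) : ℕ → ℕ :=
  DR.rec (motive := fun _ => ℕ → ℕ) (fun m => m)
    (fun x v _ ih m => rIf (Nat.ble v m) (ih m)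
      (rForce (Nat.sub v (DR.val q x)) fun s => rIf (Nat.ble m s) (ih s) (ih m))) r

/-- The maximum of `m` and the sums of the values of two groups without the reserves `q`, over the
tokens of the second one. -/
def DR.mx2r (q rb r : DR) : ℕ → ℕ :=
  DR.rec (motive := fun _ => ℕ → ℕ) (fun m => m)
    (fun x v _ ih m => rForce (Nat.add v (DR.val rb x)) fun t => rIf (Nat.ble t m) (ih m)
      (rForce (Nat.sub t (DR.val q x)) fun s => rIf (Nat.ble m s) (ih s) (ih m))) r

theorem rIf_le_max {m v : ℕ} {g : ℕ → ℕ} (hg : ∀ m, m ≤ g m) :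
    m ≤ rIf (Nat.ble m v) (g v) (g m) := by
  cases h : Nat.ble m v with
  | true =>
    rw [rIf_true]
    exact le_trans (Nat.le_of_ble_eq_true h) (hg v)
  | false =>
    rw [rIf_false]
    exact hg m

theorem rIf_le_max' {m v : ℕ} {g : ℕ → ℕ} (hg : ∀ m, m ≤ g m) :
    v ≤ rIf (Nat.ble m v) (g v) (g m) := by
  cases h : Nat.ble m v with
  | true =>
    rw [rIf_true]
    exact hg v
  | false =>
    rw [rIf_false]
    have h1 : ¬m ≤ v := fun h2 => by
      rw [Nat.ble_eq_true_of_le h2] at h
      exact absurd h (by simp)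
    exact le_trans (le_of_lt (not_le.1 h1)) (hg m)

theorem rIf_of_both {P : ℕ → Prop} {b : Bool} {x y : ℕ} (hx : P x) (hy : P y) : P (rIf b x y) := by
  cases b
  · exact hy
  · exact hx

theorem DR.le_mx (r : DR) : ∀ m : ℕ, m ≤ DR.mx r m ∧ ∀ x, DR.val r x ≤ DR.mx r m := by
  induction r with
  | nil => exact fun m => ⟨le_rfl, fun x => Nat.zero_le _⟩
  | e y v r ih =>
    intro m
    have e1 : DR.mx (DR.e y v r) m = rIf (Nat.ble m v) (DR.mx r v) (DR.mx r m) := rfl
    have e2 : ∀ x, DR.val (DR.e y v r) x =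
      Bool.rec (motive := fun _ => ℕ) (DR.val r x) v (Nat.beq y x) := fun x => rfl
    rw [e1]
    refine ⟨rIf_le_max fun m => (ih m).1, fun x => ?_⟩
    rw [e2]
    cases Nat.beq y x with
    | false => exact rIf_of_both (P := fun z => DR.val r x ≤ z) ((ih v).2 x) ((ih m).2 x)
    | true => exact rIf_le_max' fun m => (ih m).1

theorem DR.le_mxr (q r : DR) : ∀ m : ℕ, m ≤ DR.mxr q r m ∧
    ∀ x, DR.val r x ≤ DR.mxr q r m + DR.val q x := by
  induction r with
  | nil => exact fun m => ⟨le_rfl, fun x => Nat.zero_le _⟩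
  | e y v r ih =>
    intro m
    have e1 : DR.mxr q (DR.e y v r) m = rIf (Nat.ble v m) (DR.mxr q r m)
      (rForce (Nat.sub v (DR.val q y)) fun s => rIf (Nat.ble m s) (DR.mxr q r s)
        (DR.mxr q r m)) := rfl
    have e2 : ∀ x, DR.val (DR.e y v r) x =
      Bool.rec (motive := fun _ => ℕ) (DR.val r x) v (Nat.beq y x) := fun x => rfl
    rw [e1, rForce_eq]
    cases h : Nat.ble v m with
    | true =>
      rw [rIf_true]
      refine ⟨(ih m).1, fun x => ?_⟩
      rw [e2]
      cases Nat.beq y x with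
      | false => exact (ih m).2 x
      | true => exact le_trans (Nat.le_of_ble_eq_true h) (le_trans (ih m).1 (Nat.le_add_right _ _))
    | false =>
      rw [rIf_false]
      refine ⟨rIf_le_max fun m => (ih m).1, fun x => ?_⟩
      rw [e2]
      cases h1 : Nat.beq y x with
      | false =>
        exact rIf_of_both (P := fun z => DR.val r x ≤ z + DR.val q x) ((ih _).2 x) ((ih m).2 x)
      | true =>
        rw [← Nat.eq_of_beq_eq_true h1]
        have h2 : Nat.sub v (DR.val q y) ≤ rIf (Nat.ble m (Nat.sub v (DR.val q y)))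
          (DR.mxr q r (Nat.sub v (DR.val q y))) (DR.mxr q r m) := rIf_le_max' fun m => (ih m).1
        have h3 : v ≤ Nat.sub v (DR.val q y) + DR.val q y := by
          show v ≤ v - DR.val q y + DR.val q y
          omega
        exact le_trans h3 (Nat.add_le_add_right h2 _)

theorem DR.le_mx2r (q rb r : DR) : ∀ m : ℕ, m ≤ DR.mx2r q rb r m ∧
    ∀ x, DR.val r x = 0 ∨ DR.val r x + DR.val rb x ≤ DR.mx2r q rb r m + DR.val q x := by
  induction r with
  | nil => exact fun m => ⟨le_rfl, fun x => Or.inl rfl⟩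
  | e y v r ih =>
    intro m
    have e1 : DR.mx2r q rb (DR.e y v r) m = rForce (Nat.add v (DR.val rb y)) fun t =>
      rIf (Nat.ble t m) (DR.mx2r q rb r m)
      (rForce (Nat.sub t (DR.val q y)) fun s => rIf (Nat.ble m s) (DR.mx2r q rb r s)
        (DR.mx2r q rb r m)) := rfl
    have e2 : ∀ x, DR.val (DR.e y v r) x =
      Bool.rec (motive := fun _ => ℕ) (DR.val r x) v (Nat.beq y x) := fun x => rfl
    rw [e1, rForce_eq, rForce_eq]
    cases h : Nat.ble (Nat.add v (DR.val rb y)) m with
    | true =>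
      rw [rIf_true]
      refine ⟨(ih m).1, fun x => ?_⟩
      rw [e2]
      cases h1 : Nat.beq y x with
      | false => exact (ih m).2 x
      | true =>
        rw [← Nat.eq_of_beq_eq_true h1]
        exact Or.inr (le_trans (Nat.le_of_ble_eq_true h)
          (le_trans (ih m).1 (Nat.le_add_right _ _)))
    | false =>
      rw [rIf_false]
      refine ⟨rIf_le_max fun m => (ih m).1, fun x => ?_⟩
      rw [e2]
      cases h1 : Nat.beq y x with
      | false =>
        exact rIf_of_both (P := fun z => DR.val r x = 0 ∨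
          DR.val r x + DR.val rb x ≤ z + DR.val q x) ((ih _).2 x) ((ih m).2 x)
      | true =>
        right
        rw [← Nat.eq_of_beq_eq_true h1]
        set t := Nat.add v (DR.val rb y) with ht
        have h2 : Nat.sub t (DR.val q y) ≤ rIf (Nat.ble m (Nat.sub t (DR.val q y)))
          (DR.mx2r q rb r (Nat.sub t (DR.val q y))) (DR.mx2r q rb r m) :=
            rIf_le_max' fun m => (ih m).1
        have h3 : v + DR.val rb y ≤ Nat.sub t (DR.val q y) + DR.val q y := by
          show v + DR.val rb y ≤ (v + DR.val rb y) - DR.val q y + DR.val q y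
          omega
        exact le_trans h3 (Nat.add_le_add_right h2 _)

/-! ### The rows of a triangle -/

/-- The check of an entry: `S` is the budget with the reserves of the two tokens `x3` and `x1`, `lb`
and `lc` are the rows of the next two corners of the triangle, `pb` are the reserves of the third
token. -/
def stE (S : ℕ) (pb : DR) (lb lc : DL) (x3 x1 v : ℕ) : Bool :=
  rAnd (Nat.ble v S)
    (DR.all (fun x2 vb => rForce (Nat.add v (Nat.add vb (DR.val (DL.grp lc x2) x3))) fun m =>
      rIf (Nat.ble m S) true (Nat.ble m (Nat.add S (DR.val pb x2)))) (DL.grp lb x1))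

/-- The check of a row. -/
def stR (S : ℕ) (pa pb pc : DR) (lb lc la : DL) : Bool :=
  DL.all (fun x3 r => rForce (Nat.add S (DR.val pc x3)) fun S3 =>
    DR.all (fun x1 v => rForce (Nat.add S3 (DR.val pa x1)) fun S1 => stE S1 pb lb lc x3 x1 v) r) la

theorem ble_of_rIf {b c : Bool} (h : rIf b true c = true) : b = true ∨ c = true := by
  cases b
  · exact Or.inr h
  · exact Or.inl rfl

theorem stR_sound {S : ℕ} {pa pb pc : DR} {la lb lc : DL} (h : stR S pa pb pc lb lc la = true)
    (x3 x1 x2 : ℕ) :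
    DL.val la x3 x1 ≤ S + (DR.val pa x1 + DR.val pc x3) ∧
      (0 < DL.val la x3 x1 → 0 < DL.val lb x1 x2 →
        DL.val la x3 x1 + (DL.val lb x1 x2 + DL.val lc x2 x3) ≤
          S + (DR.val pa x1 + DR.val pc x3) + DR.val pb x2) := by
  rcases Nat.eq_zero_or_pos (DL.val la x3 x1) with h0 | h0
  · rw [h0]
    exact ⟨Nat.zero_le _, fun h1 => absurd h1 (Nat.lt_irrefl 0)⟩
  · have h1 := DL.val_of_all h h0
    rw [rForce_eq] at h1
    rcases DR.val_of_all h1 x1 with h2 | h2
    · exact absurd h0 (by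
        have h3 : DL.val la x3 x1 = 0 := h2
        omega)
    rw [rForce_eq] at h2
    obtain ⟨h3, h4⟩ := rAnd_iff.1 h2
    have h3' : DL.val la x3 x1 ≤ S + DR.val pc x3 + DR.val pa x1 := Nat.le_of_ble_eq_true h3
    refine ⟨by omega, fun _ h5 => ?_⟩
    rcases DR.val_of_all h4 x2 with h6 | h6
    · exact absurd h5 (by
        have h7 : DL.val lb x1 x2 = 0 := h6
        omega)
    rw [rForce_eq] at h6
    rcases ble_of_rIf h6 with h7 | h7
    · have h8 : DL.val la x3 x1 + (DL.val lb x1 x2 + DL.val lc x2 x3) ≤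
        S + DR.val pc x3 + DR.val pa x1 := Nat.le_of_ble_eq_true h7
      omega
    · have h8 : DL.val la x3 x1 + (DL.val lb x1 x2 + DL.val lc x2 x3) ≤
        S + DR.val pc x3 + DR.val pa x1 + DR.val pb x2 := Nat.le_of_ble_eq_true h7
      omega

/-- The three rows of a triangle. -/
theorem stR_three {S : ℕ} {pa pb pc : DR} {la lb lc : DL} (ha : stR S pa pb pc lb lc la = true)
    (hb : stR S pb pc pa lc la lb = true) (hc : stR S pc pa pb la lb lc = true) (x1 x2 x3 : ℕ) :
    DL.val la x3 x1 + DL.val lb x1 x2 + DL.val lc x2 x3 ≤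
      S + (DR.val pa x1 + DR.val pb x2 + DR.val pc x3) := by
  have h1 := stR_sound ha x3 x1 x2
  have h2 := stR_sound hb x1 x2 x3
  have h3 := stR_sound hc x2 x3 x1
  by_cases ea : 0 < DL.val la x3 x1
  · by_cases eb : 0 < DL.val lb x1 x2
    · have := h1.2 ea eb
      omega
    · by_cases ec : 0 < DL.val lc x2 x3
      · have := h3.2 ec ea
        omega
      · have := h1.1
        omega
  · by_cases eb : 0 < DL.val lb x1 x2
    · by_cases ec : 0 < DL.val lc x2 x3
      · have := h2.2 eb ec
        omega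
      · have := h2.1
        omega
    · have := h3.1
      omega

/-! ### The rows of a region -/

/-- The check of the rows of a region: `la` and `lc` are the rows of the windows, `lb` and `ld` the
rows of the fans of the opposite corners, `q1`, `q2`, `q3`, `q4` the reserves of the four tokens. The
maxima of the groups are compared first. -/
def rgOK (S : ℕ) (q1 q2 q3 q4 : DR) (la lb lc ld : DL) : Bool :=
  DL.all (fun x2 ra => rForce (DR.mxr q4 (DL.grp lb x2) (nat_lit 0)) fun mb =>
    rForce (Nat.add (DR.mx ra (nat_lit 0)) mb) fun m =>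
    rForce (Nat.add S (DR.val q2 x2)) fun S2 =>
    rAnd (rIf (Nat.ble m S2) true
        (DR.all (fun x1 v => Nat.ble (Nat.add v mb) (Nat.add S2 (DR.val q1 x1))) ra))
      (rAnd (DL.all (fun x3 rd => rIf (Nat.ble (Nat.add m (DR.mx rd (nat_lit 0))) S2) true
          (rForce (Nat.add S2 (DR.val q3 x3)) fun S3 =>
            DR.all (fun x1 v => rForce (Nat.add v (Nat.add (DR.val rd x1) mb)) fun t =>
              rIf (Nat.ble t S3) true (Nat.ble t (Nat.add S3 (DR.val q1 x1)))) ra)) ld)
        (DL.all (fun x3 rc => rIf (Nat.ble (Nat.add m (Nat.add (DR.mx rc (nat_lit 0))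
            (DR.mx (DL.grp ld x3) (nat_lit 0)))) S2) true
          (rForce (DR.mx2r q4 (DL.grp lb x2) rc mb) fun m2 =>
            rForce (Nat.add S2 (DR.val q3 x3)) fun S3 =>
            DR.all (fun x1 v => rForce (Nat.add v (Nat.add (DR.val (DL.grp ld x3) x1) m2)) fun t =>
              rIf (Nat.ble t S3) true (Nat.ble t (Nat.add S3 (DR.val q1 x1)))) ra)) lc))) la

theorem rgOK_sound {S : ℕ} {q1 q2 q3 q4 : DR} {la lb lc ld : DL}
    (h : rgOK S q1 q2 q3 q4 la lb lc ld = true) {x1 x2 : ℕ} (x3 x4 : ℕ)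
    (h0 : 0 < DL.val la x2 x1) :
    DL.val la x2 x1 + DL.val lb x2 x4 + DL.val lc x3 x4 + DL.val ld x3 x1 ≤
      S + (DR.val q1 x1 + DR.val q2 x2 + DR.val q3 x3 + DR.val q4 x4) := by
  have h1 := DL.val_of_all h h0
  rw [rForce_eq, rForce_eq, rForce_eq] at h1
  obtain ⟨h2, h3⟩ := rAnd_iff.1 h1
  obtain ⟨h4, h5⟩ := rAnd_iff.1 h3
  have hne : DR.val (DL.grp la x2) x1 ≠ 0 := by
    have : DL.val la x2 x1 = DR.val (DL.grp la x2) x1 := rfl
    omega
  have hb : DL.val lb x2 x4 ≤ DR.mxr q4 (DL.grp lb x2) 0 + DR.val q4 x4 :=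
    (DR.le_mxr q4 (DL.grp lb x2) 0).2 x4
  have ha : DL.val la x2 x1 ≤ DR.mx (DL.grp la x2) 0 := (DR.le_mx (DL.grp la x2) 0).2 x1
  have hcm : DL.val lc x3 x4 ≤ DR.mx (DL.grp lc x3) 0 := (DR.le_mx (DL.grp lc x3) 0).2 x4
  have hdm : DL.val ld x3 x1 ≤ DR.mx (DL.grp ld x3) 0 := (DR.le_mx (DL.grp ld x3) 0).2 x1
  have ea : DL.val la x2 x1 = DR.val (DL.grp la x2) x1 := rfl
  set mb := DR.mxr q4 (DL.grp lb x2) 0 with hmb
  have hbase : DL.val la x2 x1 + mb ≤ S + DR.val q2 x2 + DR.val q1 x1 := by
    rcases ble_of_rIf h2 with h6 | h6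
    · have h7 : DR.mx (DL.grp la x2) 0 + mb ≤ S + DR.val q2 x2 := Nat.le_of_ble_eq_true h6
      omega
    · rcases DR.val_of_all h6 x1 with h7 | h7
      · exact absurd h7 hne
      · exact Nat.le_of_ble_eq_true h7
  rcases Nat.eq_zero_or_pos (DL.val lc x3 x4) with hc | hc
  · rcases Nat.eq_zero_or_pos (DL.val ld x3 x1) with hd | hd
    · omega
    · have h6 := DL.val_of_all h4 hd
      rcases ble_of_rIf h6 with hq | h6
      · have h7 : DR.mx (DL.grp la x2) 0 + mb + DR.mx (DL.grp ld x3) 0 ≤ S + DR.val q2 x2 :=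
          Nat.le_of_ble_eq_true hq
        omega
      · rw [rForce_eq] at h6
        rcases DR.val_of_all h6 x1 with h7 | h7
        · exact absurd h7 hne
        · rw [rForce_eq] at h7
          have ed : DL.val ld x3 x1 = DR.val (DL.grp ld x3) x1 := rfl
          rcases ble_of_rIf h7 with h8 | h8
          · have h9 : DR.val (DL.grp la x2) x1 + (DR.val (DL.grp ld x3) x1 + mb) ≤
              S + DR.val q2 x2 + DR.val q3 x3 := Nat.le_of_ble_eq_true h8
            omega
          · have h9 : DR.val (DL.grp la x2) x1 + (DR.val (DL.grp ld x3) x1 + mb) ≤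
              S + DR.val q2 x2 + DR.val q3 x3 + DR.val q1 x1 := Nat.le_of_ble_eq_true h8
            omega
  · have h6 := DL.val_of_all h5 hc
    rcases ble_of_rIf h6 with hq | h6
    · have h7 : DR.mx (DL.grp la x2) 0 + mb + (DR.mx (DL.grp lc x3) 0 +
        DR.mx (DL.grp ld x3) 0) ≤ S + DR.val q2 x2 := Nat.le_of_ble_eq_true hq
      omega
    · rw [rForce_eq, rForce_eq] at h6
      rcases DR.val_of_all h6 x1 with h7 | h7
      · exact absurd h7 hne
      · rw [rForce_eq] at h7
        have h9 := (DR.le_mx2r q4 (DL.grp lb x2) (DL.grp lc x3) mb).2 x4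
        have ec : DL.val lc x3 x4 = DR.val (DL.grp lc x3) x4 := rfl
        have ed : DL.val ld x3 x1 = DR.val (DL.grp ld x3) x1 := rfl
        have eb : DL.val lb x2 x4 = DR.val (DL.grp lb x2) x4 := rfl
        rcases ble_of_rIf h7 with h8 | h8
        · have h8' : DR.val (DL.grp la x2) x1 + (DR.val (DL.grp ld x3) x1 +
              DR.mx2r q4 (DL.grp lb x2) (DL.grp lc x3) mb) ≤
            S + DR.val q2 x2 + DR.val q3 x3 := Nat.le_of_ble_eq_true h8
          rcases h9 with h9 | h9 <;> omega
        · have h8' : DR.val (DL.grp la x2) x1 + (DR.val (DL.grp ld x3) x1 +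
              DR.mx2r q4 (DL.grp lb x2) (DL.grp lc x3) mb) ≤
            S + DR.val q2 x2 + DR.val q3 x3 + DR.val q1 x1 := Nat.le_of_ble_eq_true h8
          rcases h9 with h9 | h9 <;> omega

/-! ### The checks of the tables -/

/-- The first group of a row. -/
def DL.hd (l : DL) : DR := DL.rec (motive := fun _ => DR) DR.nil (fun _ r _ _ => r) l

/-- The row without its first group. -/
def DL.tl (l : DL) : DL := DL.rec (motive := fun _ => DL) DL.nil (fun _ _ l _ => l) l

/-- The sum of the three reserves. -/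
def DR.tot (r : DR) : ℕ :=
  Nat.add (DR.val r (nat_lit 0)) (Nat.add (DR.val r (nat_lit 1)) (DR.val r (nat_lit 2)))

/-- The part of the weight of a corner for the triangle. -/
def psA (sp ps : ℕ → ℕ → ℕ → ℕ) (k o s : ℕ) : ℕ :=
  rForce (sp k o s) fun a => rForce (ps k o s) fun b => rIf (Nat.ble a b) a b

/-- The part of the weight of a corner for the region of the opposite strip. -/
def psB (sp ps : ℕ → ℕ → ℕ → ℕ) (k o s : ℕ) : ℕ := Nat.sub (ps k o s) (psA sp ps k o s)

section defs

variable (gp gm : ℕ → ℕ → ℕ → ℕ → ℕ → ℕ → ℕ) (D : ℕ → ℕ → ℕ) (sp ps : ℕ → ℕ → ℕ → ℕ)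
  (t rt zt tw : DT)

/-- The check of the row of the corner `(k, o, j)` of a triangle. -/
def stC (k o j : ℕ) : Bool :=
  DL.rec (motive := fun _ => Bool) true
    (fun _ _ _ _ =>
      rForce (Nat.div (flA k o) (nat_lit 16384)) fun kb =>
      rForce (Nat.mod (triA k j) (nat_lit 512)) fun ob =>
      rForce (rjA k j) fun jb =>
      rForce (farK k o j) fun kc =>
      rForce (t3A k j) fun oc =>
      rForce (rjA kb jb) fun jc =>
      rForce (Nat.add (Nat.add (D k o) (Nat.add (D kb ob) (D kc oc)))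
        (Nat.add (psA sp ps k o j) (Nat.add (psA sp ps kb ob jb) (psA sp ps kc oc jc)))) fun S =>
      stR S (DL.grp (DT.get rt (dkey k j)) (nat_lit 0)) (DL.grp (DT.get rt (dkey kb jb)) (nat_lit 0))
        (DL.grp (DT.get rt (dkey kc jc)) (nat_lit 0))
        (DT.get t (dkey kb jb)) (DT.get t (dkey kc jc)) (DT.get t (dkey k j)))
    (DT.get t (dkey k j))

/-- The check of the rows of the triangles of the pair `(k, o)`. -/
def stO (k o : ℕ) : Bool :=
  rForce (triOff k o) fun f => rAllN (fun i => stC D sp ps t rt k o (Nat.add f i))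
    (Nat.sub (triOff k (Nat.succ o)) f)

/-- The check of the row of the fans of the corner `(k, o, j)`: the corrections are at most the
weight of the corner and the reserves of the two outer strips. -/
def wC (k o j : ℕ) : Bool :=
  DL.rec (motive := fun _ => Bool) true
    (fun _ _ _ _ =>
      rForce (Nat.div (flA k o) (nat_lit 16384)) fun kb =>
      rForce (rjA k j) fun jb =>
      rForce (farK k o j) fun kc =>
      rForce (rjA kb jb) fun jc =>
      rForce (psB sp ps k o j) fun p =>
      DL.all (fun x r => rForce (Nat.add p (DR.val (DL.grp (DT.get rt (dkey kc jc)) (nat_lit 2)) x))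
        fun px => DR.all (fun y v => rIf (Nat.ble v px) true
          (Nat.ble v (Nat.add px (DR.val (DL.grp (DT.get rt (dkey k j)) (nat_lit 1)) y)))) r)
        (DT.get tw (dkey k j)))
    (DT.get tw (dkey k j))

/-- The check of the rows of the fans of the pair `(k, o)`. -/
def wO (k o : ℕ) : Bool :=
  rForce (triOff k o) fun f => rAllN (fun i => wC sp ps rt tw k o (Nat.add f i))
    (Nat.sub (triOff k (Nat.succ o)) f)

/-- The check of the region of a strip; `hr` and `la` are the first group and the other groups of the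
row of the window. -/
def regE (k0 o0 j0 k1 o1 j1 : ℕ) (hr : DR) (la : DL) : Bool :=
  rForce (Nat.div (flA k0 o0) (nat_lit 16384)) fun ka =>
  rForce (Nat.mod (triA k0 j0) (nat_lit 512)) fun oa =>
  rForce (rjA k0 j0) fun ja =>
  rForce (farK k0 o0 j0) fun kc =>
  rForce (rjA ka ja) fun jc =>
  rForce (Nat.div (flA k1 o1) (nat_lit 16384)) fun kb =>
  rForce (rjA k1 j1) fun jb =>
  rForce (farK k1 o1 j1) fun kd =>
  rForce (t3A k1 j1) fun od =>
  rForce (rjA kb jb) fun jd =>
  rForce (Nat.add (gp k0 o0 j0 k1 o1 j1) (gp kd od jd ka oa ja)) fun gP =>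
  rForce (Nat.add (Nat.add (gm k0 o0 j0 k1 o1 j1) (gm kd od jd ka oa ja))
    (Nat.add (DR.tot hr) (DR.tot (DL.hd (DT.get zt (zkey kd jd ja)))))) fun gM =>
  rAnd (Nat.ble gM gP)
  (rForce (Nat.sub (Nat.add gP (Nat.add (psB sp ps kc (t3A k0 j0) jc)
      (psB sp ps kb (Nat.mod (triA k1 j1) (nat_lit 512)) jb))) gM) fun S =>
  rgOK S (DL.grp (DT.get rt (dkey kc jc)) (nat_lit 1)) (DL.grp (DT.get rt (dkey k1 j1)) (nat_lit 2))
    (DL.grp (DT.get rt (dkey ka ja)) (nat_lit 2)) (DL.grp (DT.get rt (dkey kb jb)) (nat_lit 1))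
    la (DT.get tw (dkey kb jb)) (DL.tl (DT.get zt (zkey kd jd ja))) (DT.get tw (dkey kc jc)))

/-- The check of a row: the token of the first group of the row contains the options of the two
corners. -/
def regR (i : ℕ) (row : DL) : Bool :=
  DL.rec (motive := fun _ => Bool) true (fun h hr l _ =>
    rForce (Nat.div i (nat_lit 67108864)) fun k0 =>
    rForce (Nat.mod (Nat.div i (nat_lit 8192)) (nat_lit 8192)) fun j0 =>
    rForce (Nat.mod i (nat_lit 8192)) fun j1 =>
    rForce (Nat.mod (Nat.div h (nat_lit 512)) (nat_lit 512)) fun o0 =>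
    rForce (Nat.mod h (nat_lit 512)) fun o1 =>
    rForce (Nat.div (optA k0 o0) (nat_lit 72)) fun k1 =>
    rAnd (Nat.ble (nat_lit 1048576) h) (rAnd (oInt k0 o0 j0) (rAnd (oInt k1 o1 j1)
      (regE gp gm sp ps rt zt tw k0 o0 j0 k1 o1 j1 hr l)))) row

/-- The check of a row of the reserves: they are at most the entries of the windows. -/
def rtR (i : ℕ) (row : DL) : Bool :=
  DL.all (fun g r => DR.all (fun x v => Nat.rec (motive := fun _ => Bool) false
    (fun y _ => Nat.ble v (DR.val (DL.hd (DT.get zt (Nat.add y (Nat.mul (nat_lit 8192) i)))) g)) x)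
    r) row

end defs

end

theorem psA_add_psB (sp ps : ℕ → ℕ → ℕ → ℕ) (k o s : ℕ) :
    psA sp ps k o s + psB sp ps k o s = ps k o s := by
  have h : psA sp ps k o s ≤ ps k o s := by
    unfold psA
    rw [rForce_eq, rForce_eq]
    cases h : Nat.ble (sp k o s) (ps k o s) with
    | true =>
      rw [rIf_true]
      exact Nat.le_of_ble_eq_true h
    | false =>
      rw [rIf_false]
  unfold psB
  exact Nat.add_sub_cancel' h

theorem DL.hd_get_nil {t : DT} {i : ℕ} (h : DT.get t i = DL.nil) (g : ℕ) :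
    DR.val (DL.hd (DT.get t i)) g = 0 := by
  rw [h]
  rfl

namespace SMap

variable {F : Type*} (T : SMap F)

open Classical in
/-- The reserve `g` of the strip `N a`. -/
noncomputable def rz (zt : DT) (g : ℕ) (a : F) : ℕ :=
  if T.Tri a ∧ T.Tri (T.N a) then
    DR.val (DL.hd (DT.get zt (zkey (T.kx a) (T.rs a) (T.rs (T.N a))))) g
  else 0

theorem rz_tri {zt : DT} {g : ℕ} {a : F} (h1 : T.Tri a) (h2 : T.Tri (T.N a)) : T.rz zt g a =
    DR.val (DL.hd (DT.get zt (zkey (T.kx a) (T.rs a) (T.rs (T.N a))))) g := if_pos ⟨h1, h2⟩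

theorem rz_left {zt : DT} {g : ℕ} {a : F} (h : ¬T.Tri a) : T.rz zt g a = 0 :=
  if_neg fun h1 => h h1.1

/-- The three reserves of the strip `N a`. -/
noncomputable def rtot (zt : DT) (a : F) : ℕ := T.rz zt 0 a + T.rz zt 1 a + T.rz zt 2 a

theorem rtot_tri {zt : DT} {a : F} (h1 : T.Tri a) (h2 : T.Tri (T.N a)) : T.rtot zt a =
    DR.tot (DL.hd (DT.get zt (zkey (T.kx a) (T.rs a) (T.rs (T.N a))))) := by
  unfold rtot
  rw [T.rz_tri h1 h2, T.rz_tri h1 h2, T.rz_tri h1 h2]
  exact Nat.add_assoc _ _ _

/-- **The table of the reserves.** -/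
theorem rt_le {rt zt : DT} (h : DT.all (rtR zt) rt = true) (g : ℕ) {a : F} (ha : T.Tri a) :
    DR.val (DL.grp (DT.get rt (dkey (T.kx a) (T.rs a))) g) (T.X trX (T.N a)) ≤ T.rz zt g a := by
  rcases Nat.eq_zero_or_pos (DR.val (DL.grp (DT.get rt (dkey (T.kx a) (T.rs a))) g)
    (T.X trX (T.N a))) with h0 | h0
  · rw [h0]
    exact Nat.zero_le _
  rcases DT.get_of_all h (dkey (T.kx a) (T.rs a)) with h1 | h1
  · rw [h1] at h0
    exact absurd h0 (lt_irrefl 0)
  have h2 := DL.val_of_all (x := g) (y := T.X trX (T.N a)) h1 h0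
  rcases DR.val_of_all h2 (T.X trX (T.N a)) with h3 | h3
  · omega
  by_cases hn : T.Tri (T.N a)
  · rw [T.rz_tri ha hn]
    rw [T.X_tri trX hn] at h3 ⊢
    have h4 := Nat.le_of_ble_eq_true h3
    rw [T.rs_tri hn]
    exact h4
  · rw [T.X_big trX hn] at h3
    exact absurd h3 Bool.false_ne_true

end SMap

end Pool.Agent.Lib.MP_5854e1_co
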