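import Pool.Agent.Lib.MP_5854e1_co.Half
import Pool.Agent.Lib.MP_5854e1_co.Close

/-!
# The ring of outer tokens around a cell

A cell of positive value may use its shares of the slacks of its triangles and of its regions. They
depend on the tokens of the faces across the outer edges of the triangles. The greatest loss over all
sequences of outer tokens is computed by dynamic programming around the cell: `M` is an upper bound
for all tokens, `E` contains the larger values of the tokens in the rows of the windows of the other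
ends. A corner takes a share of the slack of its triangle if its correction is odd, an end of a strip
takes a share of the slack of its region if the correction of the window is odd.
-/

set_option autoImplicit false

open Equiv Equiv.Perm

namespace Pool.Agent.Lib.MP_5854e1_co

open PB CE CE.Cell

noncomputable section

/-! ### Loops over rows -/

/-- The maximum of `m` and the values of `f` at the tokens of a group. -/
def DR.mxf (f : ℕ → ℕ) (r : DR) : ℕ → ℕ :=
  DR.rec (motive := fun _ => ℕ → ℕ) (fun m => m)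
    (fun o _ _ ih m => rForce (f o) fun s => rIf (Nat.ble m s) (ih s) (ih m)) r

/-- The maximum of `m` and the values of `f` at the tokens of the groups which contain `x`. -/
def DL.mxc (f : ℕ → ℕ) (x : ℕ) (l : DL) : ℕ → ℕ :=
  DL.rec (motive := fun _ => ℕ → ℕ) (fun m => m)
    (fun o r _ ih m => rIf (Nat.ble (DR.val r x) (nat_lit 0)) (ih m)
      (rForce (f o) fun s => rIf (Nat.ble m s) (ih s) (ih m))) l

/-- The maximum of `m` and the values of `g` at the entries of a group. -/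
def DR.mxv (g : ℕ → ℕ → ℕ) (r : DR) : ℕ → ℕ :=
  DR.rec (motive := fun _ => ℕ → ℕ) (fun m => m)
    (fun o v _ ih m => rForce (g v o) fun s => rIf (Nat.ble m s) (ih s) (ih m)) r

/-- The maximum of `m` and the entries of the token `x`. -/
def DR.mxe (x : ℕ) (r : DR) : ℕ → ℕ :=
  DR.rec (motive := fun _ => ℕ → ℕ) (fun m => m)
    (fun o v _ ih m => rIf (Nat.beq o x) (rIf (Nat.ble m v) (ih v) (ih m)) (ih m)) r

/-- The correction of a pair of outer tokens of value `v`: `q` is the rest of the region. -/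
def zadd (v q : ℕ) : ℕ :=
  rIf (Nat.beq (Nat.mod v (nat_lit 2)) (nat_lit 0)) (Nat.mul (nat_lit 6) v)
    (Nat.mul (nat_lit 3) (Nat.add v q))

/-- The entries of a group with the values `s + zadd v (q o)` are added to `a`. -/
def DR.psh (s : ℕ) (q : ℕ → ℕ) (r : DR) : DR → DR :=
  DR.rec (motive := fun _ => DR → DR) (fun a => a)
    (fun o v _ ih a => rForce (Nat.add s (zadd v (q o))) fun w => ih (DR.e o w a)) r

/-- The entries of all groups with the values `g x + zadd v (q x o)` are added to `a`. -/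
def DL.psh (g : ℕ → ℕ) (q : ℕ → ℕ → ℕ) (l : DL) : DR → DR :=
  DL.rec (motive := fun _ => DR → DR) (fun a => a)
    (fun o r _ ih a => rForce (g o) fun s => ih (DR.psh s (q o) r a)) l

/-- An entry of a group. -/
def DR.In (x v : ℕ) : DR → Prop
  | DR.nil => False
  | DR.e y w r => (y = x ∧ w = v) ∨ DR.In x v r

end

theorem rIf_max_le {m v : ℕ} {g : ℕ → ℕ} (hg : ∀ m, m ≤ g m) :
    m ≤ rIf (Nat.ble m v) (g v) (g m) ∧ v ≤ rIf (Nat.ble m v) (g v) (g m) :=
  ⟨rIf_le_max hg, rIf_le_max' hg⟩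

theorem DR.le_mxf (f : ℕ → ℕ) (r : DR) : ∀ m : ℕ, m ≤ DR.mxf f r m ∧
    ∀ x, DR.val r x ≠ 0 → f x ≤ DR.mxf f r m := by
  induction r with
  | nil => exact fun m => ⟨le_rfl, fun x h => absurd rfl h⟩
  | e y v r ih =>
    intro m
    have e1 : DR.mxf f (DR.e y v r) m = rForce (f y) fun s =>
      rIf (Nat.ble m s) (DR.mxf f r s) (DR.mxf f r m) := rfl
    have e2 : ∀ x, DR.val (DR.e y v r) x =
      Bool.rec (motive := fun _ => ℕ) (DR.val r x) v (Nat.beq y x) := fun x => rfl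
    rw [e1, rForce_eq]
    obtain ⟨h1, h2⟩ := rIf_max_le (m := m) (v := f y) (fun m => (ih m).1)
    refine ⟨h1, fun x hx => ?_⟩
    rw [e2] at hx
    cases h3 : Nat.beq y x with
    | false =>
      rw [h3] at hx
      exact rIf_of_both (P := fun z => f x ≤ z) ((ih _).2 x hx) ((ih m).2 x hx)
    | true =>
      rw [← Nat.eq_of_beq_eq_true h3]
      exact h2

theorem DL.le_mxc (f : ℕ → ℕ) (x : ℕ) (l : DL) : ∀ m : ℕ, m ≤ DL.mxc f x l m ∧
    ∀ o, DL.val l o x ≠ 0 → f o ≤ DL.mxc f x l m := by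
  induction l with
  | nil => exact fun m => ⟨le_rfl, fun o h => absurd rfl h⟩
  | g h r l ih =>
    intro m
    have e1 : DL.mxc f x (DL.g h r l) m = rIf (Nat.ble (DR.val r x) (nat_lit 0)) (DL.mxc f x l m)
      (rForce (f h) fun s => rIf (Nat.ble m s) (DL.mxc f x l s) (DL.mxc f x l m)) := rfl
    rw [e1, rForce_eq]
    cases hb : Nat.ble (DR.val r x) (nat_lit 0) with
    | true =>
      rw [rIf_true]
      have h3 : DR.val r x ≤ 0 := Nat.le_of_ble_eq_true hb
      refine ⟨(ih m).1, fun o ho => ?_⟩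
      rw [DL.val_g] at ho
      cases h4 : Nat.beq h o with
      | false =>
        rw [h4] at ho
        exact (ih m).2 o ho
      | true =>
        rw [h4] at ho
        exact absurd (Nat.le_zero.1 h3) ho
    | false =>
      rw [rIf_false]
      obtain ⟨h1, h2⟩ := rIf_max_le (m := m) (v := f h) (fun m => (ih m).1)
      refine ⟨h1, fun o ho => ?_⟩
      rw [DL.val_g] at ho
      cases h4 : Nat.beq h o with
      | false =>
        rw [h4] at ho
        exact rIf_of_both (P := fun z => f o ≤ z) ((ih _).2 o ho) ((ih m).2 o ho)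
      | true =>
        rw [← Nat.eq_of_beq_eq_true h4]
        exact h2

theorem DR.le_mxv (g : ℕ → ℕ → ℕ) (r : DR) : ∀ m : ℕ, m ≤ DR.mxv g r m ∧
    ∀ x v, DR.In x v r → g v x ≤ DR.mxv g r m := by
  induction r with
  | nil => exact fun m => ⟨le_rfl, fun x v h => absurd h (fun h => h)⟩
  | e y v r ih =>
    intro m
    have e1 : DR.mxv g (DR.e y v r) m = rForce (g v y) fun s =>
      rIf (Nat.ble m s) (DR.mxv g r s) (DR.mxv g r m) := rfl
    rw [e1, rForce_eq]
    obtain ⟨h1, h2⟩ := rIf_max_le (m := m) (v := g v y) (fun m => (ih m).1)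
    refine ⟨h1, fun x w hx => ?_⟩
    rcases hx with ⟨rfl, rfl⟩ | hx
    · exact h2
    · exact rIf_of_both (P := fun z => g w x ≤ z) ((ih _).2 x w hx) ((ih m).2 x w hx)

theorem DR.le_mxe (x : ℕ) (r : DR) : ∀ m : ℕ, m ≤ DR.mxe x r m ∧
    ∀ v, DR.In x v r → v ≤ DR.mxe x r m := by
  induction r with
  | nil => exact fun m => ⟨le_rfl, fun v h => absurd h (fun h => h)⟩
  | e y v r ih =>
    intro m
    have e1 : DR.mxe x (DR.e y v r) m = rIf (Nat.beq y x)
      (rIf (Nat.ble m v) (DR.mxe x r v) (DR.mxe x r m)) (DR.mxe x r m) := rfl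
    rw [e1]
    cases h3 : Nat.beq y x with
    | false =>
      rw [rIf_false]
      refine ⟨(ih m).1, fun w hx => ?_⟩
      rcases hx with ⟨h4, -⟩ | hx
      · rw [h4, Nat.beq_refl] at h3
        cases h3
      · exact (ih m).2 w hx
    | true =>
      rw [rIf_true]
      obtain ⟨h1, h2⟩ := rIf_max_le (m := m) (v := v) (fun m => (ih m).1)
      refine ⟨h1, fun w hx => ?_⟩
      rcases hx with ⟨-, rfl⟩ | hx
      · exact h2
      · exact rIf_of_both (P := fun z => w ≤ z) ((ih _).2 w hx) ((ih m).2 w hx)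

theorem DR.mxe_cases (x : ℕ) (r : DR) : ∀ m : ℕ, DR.mxe x r m = m ∨ DR.In x (DR.mxe x r m) r := by
  induction r with
  | nil => exact fun m => Or.inl rfl
  | e y v r ih =>
    intro m
    have e1 : DR.mxe x (DR.e y v r) m = rIf (Nat.beq y x)
      (rIf (Nat.ble m v) (DR.mxe x r v) (DR.mxe x r m)) (DR.mxe x r m) := rfl
    rw [e1]
    cases h3 : Nat.beq y x with
    | false =>
      rw [rIf_false]
      exact (ih m).imp_right Or.inr
    | true =>
      rw [rIf_true]
      have h4 := Nat.eq_of_beq_eq_true h3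
      cases h5 : Nat.ble m v with
      | true =>
        rw [rIf_true]
        rcases ih v with h6 | h6
        · exact Or.inr (Or.inl ⟨h4, h6.symm⟩)
        · exact Or.inr (Or.inr h6)
      | false =>
        rw [rIf_false]
        exact (ih m).imp_right Or.inr

theorem DR.in_val {r : DR} {x : ℕ} (h : DR.val r x ≠ 0) : DR.In x (DR.val r x) r := by
  induction r with
  | nil => exact absurd rfl h
  | e y v r ih =>
    have e2 : DR.val (DR.e y v r) x =
      Bool.rec (motive := fun _ => ℕ) (DR.val r x) v (Nat.beq y x) := rfl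
    rw [e2] at h ⊢
    cases h3 : Nat.beq y x with
    | false =>
      rw [h3] at h
      exact Or.inr (ih h)
    | true => exact Or.inl ⟨Nat.eq_of_beq_eq_true h3, rfl⟩

theorem DR.all_in {f : ℕ → ℕ → Bool} {r : DR} (h : DR.all f r = true) {x v : ℕ}
    (hx : DR.In x v r) : f x v = true := by
  induction r with
  | nil => exact absurd hx (fun h => h)
  | e y w r ih =>
    have h1 : rAnd (f y w) (DR.all f r) = true := h
    obtain ⟨h2, h3⟩ := rAnd_iff.1 h1
    rcases hx with ⟨rfl, rfl⟩ | hx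
    · exact h2
    · exact ih h3 hx

theorem DR.in_psh (s : ℕ) (q : ℕ → ℕ) (r : DR) : ∀ a : DR,
    (∀ x v, DR.In x v a → DR.In x v (DR.psh s q r a)) ∧
    ∀ x v, DR.In x v r → DR.In x (s + zadd v (q x)) (DR.psh s q r a) := by
  induction r with
  | nil => exact fun a => ⟨fun x v h => h, fun x v h => absurd h (fun h => h)⟩
  | e y w r ih =>
    intro a
    have e1 : DR.psh s q (DR.e y w r) a = rForce (Nat.add s (zadd w (q y))) fun w' =>
      DR.psh s q r (DR.e y w' a) := rfl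
    rw [e1, rForce_eq]
    refine ⟨fun x v h => (ih _).1 x v (Or.inr h), fun x v h => ?_⟩
    rcases h with ⟨rfl, rfl⟩ | h
    · exact (ih _).1 _ _ (Or.inl ⟨rfl, rfl⟩)
    · exact (ih _).2 x v h

theorem DL.in_psh (g : ℕ → ℕ) (q : ℕ → ℕ → ℕ) (l : DL) : ∀ a : DR,
    (∀ x v, DR.In x v a → DR.In x v (DL.psh g q l a)) ∧
    ∀ o x, DL.val l o x ≠ 0 →
      DR.In x (g o + zadd (DL.val l o x) (q o x)) (DL.psh g q l a) := by
  induction l with
  | nil => exact fun a => ⟨fun x v h => h, fun o x h => absurd rfl h⟩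
  | g h r l ih =>
    intro a
    have e1 : DL.psh g q (DL.g h r l) a = rForce (g h) fun s =>
      DL.psh g q l (DR.psh s (q h) r a) := rfl
    rw [e1, rForce_eq]
    refine ⟨fun x v hx => (ih _).1 x v ((DR.in_psh _ _ r a).1 x v hx), fun o x ho => ?_⟩
    rw [DL.val_g] at ho ⊢
    cases h4 : Nat.beq h o with
    | false =>
      rw [h4] at ho
      exact (ih _).2 o x ho
    | true =>
      rw [h4] at ho
      have h5 := Nat.eq_of_beq_eq_true h4
      rw [← h5]
      exact (ih _).1 _ _ ((DR.in_psh _ _ r a).2 x _ (DR.in_val ho))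

/-! ### A step -/

noncomputable section

/-- The new value from the two corrections `db`, `dc` of the triangle of the token. -/
def Cv (sa sb : ℕ) (wb r0 r1 r2 : DR) (wc : DL) (x D o db dc : ℕ) : ℕ :=
  Nat.sub (Nat.add D (Nat.mul (nat_lit 6)
      (Nat.add sa (Nat.add (DR.val wb o) (DR.val (DL.grp wc o) x)))))
    (Nat.add (Nat.mul (nat_lit 6) (Nat.add sb (Nat.add (DR.val r1 o) (DR.val r2 o))))
      (Nat.mul (Nat.div (nat_lit 6) (Nat.succ (Nat.add (Nat.mod db (nat_lit 2))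
          (Nat.mod dc (nat_lit 2)))))
        (Nat.sub (Nat.add sa (DR.val r0 o)) (Nat.add sb (Nat.add db dc)))))

/-- The new value of the token `o` of a corner of old value `D`: `sa`, `sb` are the budget and the
own charge of the triangle, `tb`, `wb` the groups of the second corner, `tc`, `wc` the rows of the
third corner, `x` is the token before the corner; `r0`, `r1`, `r2` are the reserves of the token. -/
def Cn (sa sb : ℕ) (tb wb r0 r1 r2 : DR) (tc wc : DL) (x D o : ℕ) : ℕ :=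
  rForce (DR.val tb o) fun db => rForce (DR.val (DL.grp tc o) x) fun dc =>
    Cv sa sb wb r0 r1 r2 wc x D o db dc

/-- The maximum of the values `f` over all tokens. -/
def mgR (f : ℕ → ℕ) (tb wb : DR) (tc wc : DL) (x : ℕ) : ℕ :=
  rForce (DR.mxf f tb (nat_lit 0)) fun m1 => rForce (DR.mxf f wb m1) fun m2 =>
    rForce (DL.mxc f x tc m2) fun m3 => DL.mxc f x wc m3

/-- The step at a corner of a triangle. -/
def rgStep (sa sb : ℕ) (tb wb r0 r1 r2 : DR) (tc wc zb : DL) (q : ℕ → ℕ → ℕ) (x cA cB h' M : ℕ)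
    (E : DR) (A B : ℕ) (K : ℕ → ℕ → DR → ℕ → ℕ → Bool) : Bool :=
  rForce (mgR (Cn sa sb tb wb r0 r1 r2 tc wc x (nat_lit 0)) tb wb tc wc x) fun g =>
  rForce (DR.mxv (Cn sa sb tb wb r0 r1 r2 tc wc x) E (Nat.add M g)) fun M' =>
  rForce (Nat.add A cA) fun A' => rForce (Nat.add B cB) fun B' =>
  K h' M' (DL.psh (fun o => Cn sa sb tb wb r0 r1 r2 tc wc x (DR.mxe o E M) o) q zb DR.nil) A' B'

end

theorem Cn_eq {sa sb : ℕ} {tb wb r0 r1 r2 : DR} {tc wc : DL} {x D o : ℕ} :
    Cn sa sb tb wb r0 r1 r2 tc wc x D o =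
      (D + 6 * (sa + (DR.val wb o + DL.val wc o x))) -
        (6 * (sb + (DR.val r1 o + DR.val r2 o)) +
          6 / (DR.val tb o % 2 + DL.val tc o x % 2 + 1) *
            ((sa + DR.val r0 o) - (sb + (DR.val tb o + DL.val tc o x)))) := by
  unfold Cn
  rw [rForce_eq, rForce_eq]
  rfl

theorem Cn_le {sa sb : ℕ} {tb wb r0 r1 r2 : DR} {tc wc : DL} {x D D' o : ℕ} (h : D ≤ D') :
    Cn sa sb tb wb r0 r1 r2 tc wc x D o ≤ Cn sa sb tb wb r0 r1 r2 tc wc x D' o := by
  rw [Cn_eq, Cn_eq]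
  omega

theorem Cn_add {sa sb : ℕ} {tb wb r0 r1 r2 : DR} {tc wc : DL} {x D o : ℕ} :
    Cn sa sb tb wb r0 r1 r2 tc wc x D o ≤ D + Cn sa sb tb wb r0 r1 r2 tc wc x 0 o := by
  rw [Cn_eq, Cn_eq]
  omega

theorem mgR_ge {sa sb : ℕ} {tb wb r0 r1 r2 : DR} {tc wc : DL} {x : ℕ} (o : ℕ) :
    Cn sa sb tb wb r0 r1 r2 tc wc x 0 o ≤
      mgR (Cn sa sb tb wb r0 r1 r2 tc wc x 0) tb wb tc wc x := by
  set f := Cn sa sb tb wb r0 r1 r2 tc wc x 0 with hf
  unfold mgR
  rw [rForce_eq, rForce_eq, rForce_eq]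
  set m1 := DR.mxf f tb (nat_lit 0) with hm1
  set m2 := DR.mxf f wb m1 with hm2
  set m3 := DL.mxc f x tc m2 with hm3
  have a1 := DR.le_mxf f tb 0
  have a2 := DR.le_mxf f wb m1
  have a3 := DL.le_mxc f x tc m2
  have a4 := DL.le_mxc f x wc m3
  by_cases h1 : DR.val tb o = 0
  · by_cases h2 : DR.val wb o = 0
    · by_cases h3 : DL.val tc o x = 0
      · by_cases h4 : DL.val wc o x = 0
        · have h5 : f o = 0 := by
            rw [hf, Cn_eq, h1, h2, h3, h4]
            norm_num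
            omega
          rw [h5]
          exact Nat.zero_le _
        · exact a4.2 o h4
      · exact le_trans (a3.2 o h3) a4.1
    · exact le_trans (a2.2 o h2) (le_trans a3.1 a4.1)
  · exact le_trans (a1.2 o h1) (le_trans a2.1 (le_trans a3.1 a4.1))

theorem rgStep_sound {sa sb : ℕ} {tb wb r0 r1 r2 : DR} {tc wc zb : DL} {q : ℕ → ℕ → ℕ}
    {x cA cB h' M : ℕ} {E : DR} {A B : ℕ} {K : ℕ → ℕ → DR → ℕ → ℕ → Bool}
    (h : rgStep sa sb tb wb r0 r1 r2 tc wc zb q x cA cB h' M E A B K = true) :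
    ∃ M' E', K h' M' E' (A + cA) (B + cB) = true ∧
      (∀ o, Cn sa sb tb wb r0 r1 r2 tc wc x (DR.mxe o E M) o ≤ M') ∧
      ∀ o o', DL.val zb o o' ≠ 0 →
        DR.In o' (Cn sa sb tb wb r0 r1 r2 tc wc x (DR.mxe o E M) o +
          zadd (DL.val zb o o') (q o o')) E' := by
  unfold rgStep at h
  rw [rForce_eq, rForce_eq, rForce_eq, rForce_eq] at h
  refine ⟨_, _, h, fun o => ?_, fun o o' ho => ?_⟩
  · rcases DR.mxe_cases o E M with h1 | h1
    · rw [h1]
      refine le_trans ?_ (DR.le_mxv _ E _).1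
      have h2 := mgR_ge (sa := sa) (sb := sb) (tb := tb) (wb := wb) (r0 := r0) (r1 := r1)
        (r2 := r2) (tc := tc) (wc := wc) (x := x) o
      exact le_trans Cn_add (Nat.add_le_add_left h2 M)
    · exact (DR.le_mxv (Cn sa sb tb wb r0 r1 r2 tc wc x) E _).2 _ _ h1
  · exact (DL.in_psh (fun o => Cn sa sb tb wb r0 r1 r2 tc wc x (DR.mxe o E M) o) q zb
      DR.nil).2 o o' ho

/-- The new value as an integer. -/
theorem le_Cn {sa sb : ℕ} {tb wb r0 r1 r2 : DR} {tc wc : DL} {x D o w : ℕ} {X S : ℤ}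
    (h : X ≤ D) (hw : w = 6 / (DR.val tb o % 2 + DL.val tc o x % 2 + 1))
    (hS : S = max 0 ((sa + DR.val r0 o : ℤ) - (sb + (DR.val tb o + DL.val tc o x)))) :
    X + (6 * (sa - sb) - w * S) + 6 * ((DR.val wb o : ℤ) - DR.val r1 o) +
      6 * ((DL.val wc o x : ℤ) - DR.val r2 o) ≤
      (Cn sa sb tb wb r0 r1 r2 tc wc x D o : ℤ) := by
  have h1 : S = (((sa + DR.val r0 o) - (sb + (DR.val tb o + DL.val tc o x)) : ℕ) : ℤ) := by
    rw [hS]
    omega
  rw [Cn_eq, ← hw, h1]
  set s := (sa + DR.val r0 o) - (sb + (DR.val tb o + DL.val tc o x)) with hs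
  have h2 : ((w * s : ℕ) : ℤ) = w * s := Nat.cast_mul _ _
  rw [← h2]
  omega

/-- The correction of a pair, as an integer. -/
theorem le_zadd {v q : ℕ} {S : ℤ} (hS : S + v ≤ q) :
    6 * (S + v) - (6 / (1 + v % 2) : ℕ) * max 0 S ≤ (zadd v q : ℤ) ∨ v % 2 = 0 := by
  rcases Nat.mod_two_eq_zero_or_one v with h | h
  · exact Or.inr h
  · left
    unfold zadd
    have e1 : Nat.beq (Nat.mod v 2) 0 = false := by
      show Nat.beq (v % 2) 0 = false
      rw [h]
      rfl
    rw [e1, rIf_false, h]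
    simp only [Nat.add_eq, Nat.mul_eq]
    push_cast
    rcases max_cases (0 : ℤ) S with ⟨h1, h2⟩ | ⟨h1, h2⟩
    · rw [h1]
      norm_num
      linarith
    · rw [h1]
      norm_num
      linarith

theorem zadd_even {v q : ℕ} (h : v % 2 = 0) : zadd v q = 6 * v := by
  unfold zadd
  have e1 : Nat.beq (Nat.mod v 2) 0 = true := by
    show Nat.beq (v % 2) 0 = true
    rw [h]
    rfl
  rw [e1, rIf_true]
  rfl

/-! ### The test of a cell -/

noncomputable section

/-- The budget of a triangle: `a`, `b`, `c` are its corners, `x0` and `x1` the tokens before and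
after the corner. -/
def cST (c : Tabs) (ka oa ja kb ob jb kc oc jc x0 x1 : ℕ) : ℕ :=
  Nat.add
    (Nat.add (Nat.add (c.D ka oa) (psA c.sp c.ps ka oa ja))
      (Nat.add (Nat.add (c.D kb ob) (psA c.sp c.ps kb ob jb))
        (Nat.add (c.D kc oc) (psA c.sp c.ps kc oc jc))))
    (Nat.add (DR.val (DL.grp (DT.get c.rt (dkey ka ja)) (nat_lit 0)) x1)
      (DR.val (DL.grp (DT.get c.rt (dkey kc jc)) (nat_lit 0)) x0))

/-- The budget of the strip after a corner: `e` is the next corner, `f`, `g` are the other corners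
of its triangle, `x2` is the token after `e`. -/
def cRA (c : Tabs) (ka oa ja kb ob jb kc oc jc ke oe je kf of jf kg og jg x0 x2 : ℕ) : ℕ :=
  Nat.add
    (Nat.add (c.gp ka oa ja ke oe je) (c.gp kg og jg kb ob jb))
    (Nat.add (Nat.add (psB c.sp c.ps kc oc jc) (psB c.sp c.ps kf of jf))
      (Nat.add (DR.val (DL.grp (DT.get c.rt (dkey kc jc)) (nat_lit 1)) x0)
        (DR.val (DL.grp (DT.get c.rt (dkey ke je)) (nat_lit 2)) x2)))

/-- The charges of the strip after a corner; `z` is the own correction. -/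
def cRB (c : Tabs) (ka oa ja kb ob jb ke oe je kg og jg z : ℕ) : ℕ :=
  Nat.add
    (Nat.add (c.gm ka oa ja ke oe je) (c.gm kg og jg kb ob jb))
    (Nat.add (Nat.add (DR.tot (DL.hd (DT.get c.zt (zkey ka ja je))))
        (DR.tot (DL.hd (DT.get c.zt (zkey kg jg jb)))))
      z)

/-- The value if the flag `n` is not zero. -/
def fl0 (n v : ℕ) : ℕ := rIf (Nat.beq n (nat_lit 0)) (nat_lit 0) v

/-- The row if the flag `n` is not zero. -/
def flR (n : ℕ) (r : DR) : DR := rIf (Nat.beq n (nat_lit 0)) DR.nil r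

/-- The rows if the flag `n` is not zero. -/
def flL (n : ℕ) (l : DL) : DL := rIf (Nat.beq n (nat_lit 0)) DL.nil l

/-- The step at a corner which is followed by a triangle; `h` is the flag of the window before. -/
def grT (c : Tabs) (k0 s0 k1 o1 s1 k2 o2 s2 k3 s3 h M : ℕ) (E : DR) (A B : ℕ)
    (K : ℕ → ℕ → DR → ℕ → ℕ → Bool) : Bool :=
  rForce (Nat.div (flA k1 o1) (nat_lit 16384)) fun kb =>
  rForce (Nat.mod (triA k1 s1) (nat_lit 512)) fun ob =>
  rForce (rjA k1 s1) fun jb =>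
  rForce (farK k1 o1 s1) fun kc =>
  rForce (t3A k1 s1) fun oc =>
  rForce (rjA kb jb) fun jc =>
  rForce (Nat.div (flA k2 o2) (nat_lit 16384)) fun kf =>
  rForce (Nat.mod (triA k2 s2) (nat_lit 512)) fun of =>
  rForce (rjA k2 s2) fun jf =>
  rForce (farK k2 o2 s2) fun kg =>
  rForce (t3A k2 s2) fun og =>
  rForce (rjA kf jf) fun jg =>
  rForce (xrT rjA k0 s0) fun x0 =>
  rForce (xrT trX k2 s2) fun x1 =>
  rForce (xrT trX k3 s3) fun x2 =>
  rForce (DL.val (DT.get c.t (dkey k1 s1)) x0 x1) fun d1 =>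
  rForce (DL.val (DT.get c.zt (zkey k1 s1 s2)) x2 x0) fun z1 =>
  rForce (Nat.mod d1 (nat_lit 2)) fun hT =>
  rForce (Nat.mod z1 (nat_lit 2)) fun hR =>
  rForce (fl0 hT (cST c k1 o1 s1 kb ob jb kc oc jc x0 x1)) fun sa =>
  rForce (fl0 hT d1) fun sb =>
  rForce (fl0 hR (cRA c k1 o1 s1 kb ob jb kc oc jc k2 o2 s2 kf of jf kg og jg x0 x2)) fun ra =>
  rForce (fl0 hR (cRB c k1 o1 s1 kb ob jb k2 o2 s2 kg og jg z1)) fun rb =>
  rgStep sa sb (flR hT (DL.grp (DT.get c.t (dkey kb jb)) x1))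
    (flR h (DL.grp (DT.get c.tw (dkey kb jb)) x1))
    (flR hT (DL.grp (DT.get c.rt (dkey kb jb)) (nat_lit 0)))
    (flR h (DL.grp (DT.get c.rt (dkey kb jb)) (nat_lit 1)))
    (flR hR (DL.grp (DT.get c.rt (dkey kb jb)) (nat_lit 2)))
    (flL hT (DT.get c.t (dkey kc jc))) (flL hR (DT.get c.tw (dkey kc jc)))
    (flL hR (DL.tl (DT.get c.zt (zkey kg jg jb))))
    (fun o o' => Nat.sub
      (Nat.add ra (Nat.add (DR.val (DL.grp (DT.get c.rt (dkey kb jb)) (nat_lit 2)) o)
        (DR.val (DL.grp (DT.get c.rt (dkey kf jf)) (nat_lit 1)) o')))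
      (Nat.add rb (Nat.add (DL.val (DT.get c.tw (dkey kc jc)) o x0)
        (DR.val (DL.grp (DT.get c.tw (dkey kf jf)) x2) o'))))
    x0 (Nat.mul (nat_lit 6) (Nat.add sa ra)) (Nat.mul (nat_lit 6) (Nat.add sb rb)) hR M E A B K

/-- The step at a corner which is followed by a longer face. -/
def grQ (c : Tabs) (k0 s0 k1 o1 s1 h M : ℕ) (E : DR) (A B : ℕ)
    (K : ℕ → ℕ → DR → ℕ → ℕ → Bool) : Bool :=
  rForce (Nat.div (flA k1 o1) (nat_lit 16384)) fun kb =>
  rForce (Nat.mod (triA k1 s1) (nat_lit 512)) fun ob =>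
  rForce (rjA k1 s1) fun jb =>
  rForce (farK k1 o1 s1) fun kc =>
  rForce (t3A k1 s1) fun oc =>
  rForce (rjA kb jb) fun jc =>
  rForce (xrT rjA k0 s0) fun x0 =>
  rForce (DL.val (DT.get c.t (dkey k1 s1)) x0 (nat_lit 0)) fun d1 =>
  rForce (Nat.mod d1 (nat_lit 2)) fun hT =>
  rForce (fl0 hT (cST c k1 o1 s1 kb ob jb kc oc jc x0 (nat_lit 0))) fun sa =>
  rForce (fl0 hT d1) fun sb =>
  rgStep sa sb (flR hT (DL.grp (DT.get c.t (dkey kb jb)) (nat_lit 0)))
    (flR h (DL.grp (DT.get c.tw (dkey kb jb)) (nat_lit 0)))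
    (flR hT (DL.grp (DT.get c.rt (dkey kb jb)) (nat_lit 0)))
    (flR h (DL.grp (DT.get c.rt (dkey kb jb)) (nat_lit 1)))
    DR.nil (flL hT (DT.get c.t (dkey kc jc))) DL.nil DL.nil (fun _ _ => nat_lit 0)
    x0 (Nat.mul (nat_lit 6) sa) (Nat.mul (nat_lit 6) sb) (nat_lit 0) M E A B K

/-- The step at a corner. -/
def grC (c : Tabs) (k0 s0 k1 o1 s1 k2 o2 s2 k3 s3 h M : ℕ) (E : DR) (A B : ℕ)
    (K : ℕ → ℕ → DR → ℕ → ℕ → Bool) : Bool :=
  rIf (Nat.ble (nat_lit 7936) s1) (K (nat_lit 0) M DR.nil A B)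
    (rIf (Nat.ble (nat_lit 7936) s2) (grQ c k0 s0 k1 o1 s1 h M E A B K)
      (grT c k0 s0 k1 o1 s1 k2 o2 s2 k3 s3 h M E A B K))

/-- The steps along a path. -/
def goR (c : Tabs) (p : Pth) : ℕ → ℕ → ℕ → ℕ → ℕ → ℕ → ℕ → ℕ → ℕ → ℕ → DR → ℕ → ℕ →
    (ℕ → DR → ℕ → ℕ → Bool) → Bool :=
  Pth.rec (motive := fun _ => ℕ → ℕ → ℕ → ℕ → ℕ → ℕ → ℕ → ℕ → ℕ → ℕ → DR → ℕ → ℕ →
      (ℕ → DR → ℕ → ℕ → Bool) → Bool)
    (fun _ _ _ _ _ _ _ _ _ M E A B K => K M E A B)
    (fun k3 o3 s3 _ ih k0 s0 k1 o1 s1 k2 o2 s2 h M E A B K =>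
      grC c k0 s0 k1 o1 s1 k2 o2 s2 k3 s3 h M E A B fun h' M' E' A' B' =>
        ih k1 s1 k2 o2 s2 k3 o3 s3 h' M' E' A' B' K) p

/-- The path `p` with `q` at the end. -/
def Pth.app (p q : Pth) : Pth :=
  Pth.rec (motive := fun _ => Pth) q (fun k o s _ ih => Pth.cons k o s ih) p

/-- The last two corners of a path. -/
def Pth.lst (p : Pth) : ℕ → ℕ → ℕ → ℕ → (ℕ → ℕ → ℕ → ℕ → Bool) → Bool :=
  Pth.rec (motive := fun _ => ℕ → ℕ → ℕ → ℕ → (ℕ → ℕ → ℕ → ℕ → Bool) → Bool)
    (fun k s k' s' f => f k s k' s') (fun k'' _ s'' _ ih _ _ k' s' f => ih k' s' k'' s'' f) p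

/-- The offset of the values. -/
def offR : ℕ := nat_lit 1073741824

/-- The flag of the window of the second of four corners. -/
def zfl (c : Tabs) (k0 s0 k1 s1 s2 k3 s3 : ℕ) : ℕ :=
  rIf (Nat.ble (nat_lit 7936) s1) (nat_lit 0)
    (rIf (Nat.ble (nat_lit 7936) s2) (nat_lit 0)
      (Nat.mod (DL.val (DT.get c.zt (zkey k1 s1 s2)) (xrT trX k3 s3) (xrT rjA k0 s0)) (nat_lit 2)))

/-- The test of all rings around a cell, for the path `k1 o1 s1`, `k2 o2 s2`, ..., of last corner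
`kl sl`; `p` is the path after the second corner, continued by the first two corners, `h` is the
flag of the last window. -/
def ringC (c : Tabs) (m : ℕ) (p : Pth) (kl sl k1 o1 s1 k2 o2 s2 h : ℕ) : Bool :=
  goR c p kl sl k1 o1 s1 k2 o2 s2 h offR DR.nil (nat_lit 0) (nat_lit 0) fun M E A B =>
    rAnd (Nat.ble (Nat.add M (Nat.add (Nat.mul (nat_lit 6) m) B)) (Nat.add offR A))
      (DR.all (fun z _ => goR c p kl sl k1 o1 s1 k2 o2 s2 h (nat_lit 0) (DR.e z offR DR.nil)
        (nat_lit 0) (nat_lit 0) fun _ E' A' B' =>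
          Nat.ble (Nat.add (DR.mxe z E' (nat_lit 0)) (Nat.add (Nat.mul (nat_lit 6) m) B'))
            (Nat.add offR A')) E)

/-- The test of all rings around a cell. -/
def ring (c : Tabs) (q : Pth) (m : ℕ) : Bool :=
  Pth.rec (motive := fun _ => Bool) false (fun k1 o1 s1 q1 _ =>
    Pth.rec (motive := fun _ => Bool) false (fun k2 o2 s2 q2 _ =>
      Pth.lst q2 k1 s1 k2 s2 fun ka sa kl sl => rForce (zfl c ka sa kl sl s1 k2 s2) fun h =>
        ringC c m (Pth.app q2 (Pth.cons k1 o1 s1 (Pth.cons k2 o2 s2 Pth.nil))) kl sl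
          k1 o1 s1 k2 o2 s2 h) q1) q

end

end Pool.Agent.Lib.MP_5854e1_co
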