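import Pool.Agent.Lib.MP_5854e1_co.Ring
import Pool.Agent.Lib.MP_5854e1_co.Jnt

/-!
# The ring of outer tokens around a cell, with listed shares

As in the module Ring, but for listed stars and listed regions the share of the cell is read from a
table: `pt` and `qt` are the tables of the shares (plus one).
-/

set_option autoImplicit false

open Equiv Equiv.Perm

namespace Pool.Agent.Lib.MP_5854e1_co

open PB CE CE.Cell

noncomputable section

/-- The entries of a group without the tokens `o` with `f o ≠ 0`, with the values `s + zadd v (q o)`,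
are added to `a`. -/
def DR.psl (s : ℕ) (q f : ℕ → ℕ) (r : DR) : DR → DR :=
  DR.rec (motive := fun _ => DR → DR) (fun a => a)
    (fun o v _ ih a => rIf (Nat.beq (f o) (nat_lit 0))
      (rForce (Nat.add s (zadd v (q o))) fun w => ih (DR.e o w a)) (ih a)) r

/-- The entries of all groups without the pairs of `r'`, with the values `g x + zadd v (q x o)`,
are added to `a`. -/
def DL.psl (g : ℕ → ℕ) (q : ℕ → ℕ → ℕ) (r' : DR) (l : DL) : DR → DR :=
  DL.rec (motive := fun _ => DR → DR) (fun a => a)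
    (fun o r _ ih a => rForce (g o) fun s =>
      ih (DR.psl s (q o) (fun x => DR.val r' (dkey o x)) r a)) l

/-- The pairs `dkey o x` of a row, of values `v`, are added to `a` with the values
`g o + 6 q o x - (v - 1)`. -/
def DR.psj (g : ℕ → ℕ) (q : ℕ → ℕ → ℕ) (r : DR) : DR → DR :=
  DR.rec (motive := fun _ => DR → DR) (fun a => a)
    (fun e v _ ih a => rForce (Nat.div e (nat_lit 8192)) fun o =>
      rForce (Nat.mod e (nat_lit 8192)) fun x =>
      rForce (Nat.sub (Nat.add (g o) (Nat.mul (nat_lit 6) (q o x))) (Nat.pred v))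
      fun w => ih (DR.e x w a)) r

end

theorem DR.in_psl (s : ℕ) (q f : ℕ → ℕ) (r : DR) : ∀ a : DR,
    (∀ x v, DR.In x v a → DR.In x v (DR.psl s q f r a)) ∧
    ∀ x v, f x = 0 → DR.In x v r → DR.In x (s + zadd v (q x)) (DR.psl s q f r a) := by
  induction r with
  | nil => exact fun a => ⟨fun x v h => h, fun x v _ h => absurd h (fun h => h)⟩
  | e y w r ih =>
    intro a
    have e1 : DR.psl s q f (DR.e y w r) a = rIf (Nat.beq (f y) (nat_lit 0))
      (rForce (Nat.add s (zadd w (q y))) fun w' => DR.psl s q f r (DR.e y w' a))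
      (DR.psl s q f r a) := rfl
    rw [e1, rForce_eq]
    cases h3 : Nat.beq (f y) (nat_lit 0) with
    | true =>
      rw [rIf_true]
      refine ⟨fun x v h => (ih _).1 x v (Or.inr h), fun x v h0 h => ?_⟩
      rcases h with ⟨rfl, rfl⟩ | h
      · exact (ih _).1 _ _ (Or.inl ⟨rfl, rfl⟩)
      · exact (ih _).2 x v h0 h
    | false =>
      rw [rIf_false]
      refine ⟨fun x v h => (ih _).1 x v h, fun x v h0 h => ?_⟩
      rcases h with ⟨rfl, rfl⟩ | h
      · rw [h0] at h3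
        exact absurd h3 (by decide)
      · exact (ih _).2 x v h0 h

theorem DL.in_psl (g : ℕ → ℕ) (q : ℕ → ℕ → ℕ) (r' : DR) (l : DL) : ∀ a : DR,
    (∀ x v, DR.In x v a → DR.In x v (DL.psl g q r' l a)) ∧
    ∀ o x, DR.val r' (dkey o x) = 0 → DL.val l o x ≠ 0 →
      DR.In x (g o + zadd (DL.val l o x) (q o x)) (DL.psl g q r' l a) := by
  induction l with
  | nil => exact fun a => ⟨fun x v h => h, fun o x _ h => absurd rfl h⟩
  | g h r l ih =>
    intro a
    have e1 : DL.psl g q r' (DL.g h r l) a = rForce (g h) fun s =>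
      DL.psl g q r' l (DR.psl s (q h) (fun x => DR.val r' (dkey h x)) r a) := rfl
    rw [e1, rForce_eq]
    refine ⟨fun x v hx => (ih _).1 x v ((DR.in_psl _ _ _ r a).1 x v hx), fun o x h0 ho => ?_⟩
    rw [DL.val_g] at ho ⊢
    cases h4 : Nat.beq h o with
    | false =>
      rw [h4] at ho
      exact (ih _).2 o x h0 ho
    | true =>
      rw [h4] at ho
      have h5 := Nat.eq_of_beq_eq_true h4
      rw [← h5] at h0 ⊢
      exact (ih _).1 _ _ ((DR.in_psl _ _ _ r a).2 x _ h0 (DR.in_val ho))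

theorem DR.in_psj (g : ℕ → ℕ) (q : ℕ → ℕ → ℕ) (r : DR) : ∀ a : DR,
    (∀ x v, DR.In x v a → DR.In x v (DR.psj g q r a)) ∧
    ∀ o x v, x < 8192 → DR.In (dkey o x) v r →
      DR.In x (g o + 6 * q o x - (v - 1)) (DR.psj g q r a) := by
  induction r with
  | nil => exact fun a => ⟨fun x v h => h, fun o x v _ h => absurd h (fun h => h)⟩
  | e y w r ih =>
    intro a
    have e1 : DR.psj g q (DR.e y w r) a = rForce (Nat.div y (nat_lit 8192)) fun o =>
      rForce (Nat.mod y (nat_lit 8192)) fun x =>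
      rForce (Nat.sub (Nat.add (g o) (Nat.mul (nat_lit 6) (q o x))) (Nat.pred w))
      fun w' => DR.psj g q r (DR.e x w' a) := rfl
    rw [e1, rForce_eq, rForce_eq, rForce_eq]
    refine ⟨fun x v h => (ih _).1 x v (Or.inr h), fun o x v hx h => ?_⟩
    rcases h with ⟨rfl, rfl⟩ | h
    · refine (ih _).1 _ _ (Or.inl ⟨?_, ?_⟩)
      · exact (dkey_parts hx).2
      · rw [show Nat.mod (dkey o x) (nat_lit 8192) = x from (dkey_parts hx).2,
          show Nat.div (dkey o x) (nat_lit 8192) = o from (dkey_parts hx).1]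
        rfl
    · exact (ih _).2 o x v hx h

/-! ### A step -/

noncomputable section

/-- The new value from the two corrections `db`, `dc` of the triangle of the token; `p` is the
listed share of the star (plus one) or zero. -/
def CvJ (sa sb : ℕ) (wb r0 r1 r2 : DR) (wc : DL) (x D o db dc p : ℕ) : ℕ :=
  Nat.sub (Nat.add D (Nat.mul (nat_lit 6)
      (Nat.add sa (Nat.add (DR.val wb o) (DR.val (DL.grp wc o) x)))))
    (Nat.add (Nat.mul (nat_lit 6) (Nat.add sb (Nat.add (DR.val r1 o) (DR.val r2 o))))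
      (rIf (Nat.beq p (nat_lit 0))
        (Nat.mul (Nat.div (nat_lit 6) (Nat.succ (Nat.add (Nat.mod db (nat_lit 2))
            (Nat.mod dc (nat_lit 2)))))
          (Nat.sub (Nat.add sa (DR.val r0 o)) (Nat.add sb (Nat.add db dc))))
        (Nat.pred p)))

/-- The new value of the token `o` of a corner of old value `D`; `pr` is the row of the listed
shares of the star. -/
def CnJ (sa sb : ℕ) (tb wb r0 r1 r2 pr : DR) (tc wc : DL) (x D o : ℕ) : ℕ :=
  rForce (DR.val tb o) fun db => rForce (DR.val (DL.grp tc o) x) fun dc =>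
    rForce (DR.val pr o) fun p => CvJ sa sb wb r0 r1 r2 wc x D o db dc p

/-- The step at a corner of a triangle; `ql` are the listed shares of the region after the corner,
`q'` is the rest of the region of a listed pair. -/
def rgStepJ (sa sb : ℕ) (tb wb r0 r1 r2 pr ql : DR) (tc wc zb : DL) (q q' : ℕ → ℕ → ℕ)
    (x cA cB h' M : ℕ) (E : DR) (A B : ℕ) (K : ℕ → ℕ → DR → ℕ → ℕ → Bool) : Bool :=
  rForce (mgR (CnJ sa sb tb wb r0 r1 r2 pr tc wc x (nat_lit 0)) tb wb tc wc x) fun g0 =>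
  rForce (DR.mxf (CnJ sa sb tb wb r0 r1 r2 pr tc wc x (nat_lit 0)) pr g0) fun g =>
  rForce (DR.mxv (CnJ sa sb tb wb r0 r1 r2 pr tc wc x) E (Nat.add M g)) fun M' =>
  rForce (Nat.add A cA) fun A' => rForce (Nat.add B cB) fun B' =>
  K h' M' (DR.psj (fun o => CnJ sa sb tb wb r0 r1 r2 pr tc wc x (DR.mxe o E M) o) q' ql
    (DL.psl (fun o => CnJ sa sb tb wb r0 r1 r2 pr tc wc x (DR.mxe o E M) o) q ql zb DR.nil)) A' B'

end

theorem CnJ_eq {sa sb : ℕ} {tb wb r0 r1 r2 pr : DR} {tc wc : DL} {x D o : ℕ} :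
    CnJ sa sb tb wb r0 r1 r2 pr tc wc x D o =
      (D + 6 * (sa + (DR.val wb o + DL.val wc o x))) -
        (6 * (sb + (DR.val r1 o + DR.val r2 o)) +
          if DR.val pr o = 0 then 6 / (DR.val tb o % 2 + DL.val tc o x % 2 + 1) *
            ((sa + DR.val r0 o) - (sb + (DR.val tb o + DL.val tc o x)))
          else DR.val pr o - 1) := by
  unfold CnJ
  rw [rForce_eq, rForce_eq, rForce_eq]
  unfold CvJ
  split_ifs with h
  · rw [h]
    rfl
  · have h1 : Nat.beq (DR.val pr o) (nat_lit 0) = false := by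
      cases h2 : Nat.beq (DR.val pr o) (nat_lit 0) with
      | false => rfl
      | true => exact absurd (Nat.eq_of_beq_eq_true h2) h
    rw [h1, rIf_false]
    rfl

theorem CnJ_add {sa sb : ℕ} {tb wb r0 r1 r2 pr : DR} {tc wc : DL} {x D o : ℕ} :
    CnJ sa sb tb wb r0 r1 r2 pr tc wc x D o ≤
      D + CnJ sa sb tb wb r0 r1 r2 pr tc wc x 0 o := by
  rw [CnJ_eq, CnJ_eq]
  split_ifs <;> omega

theorem mgJ_ge {sa sb : ℕ} {tb wb r0 r1 r2 pr : DR} {tc wc : DL} {x : ℕ} (o : ℕ) :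
    CnJ sa sb tb wb r0 r1 r2 pr tc wc x 0 o ≤
      DR.mxf (CnJ sa sb tb wb r0 r1 r2 pr tc wc x 0) pr
        (mgR (CnJ sa sb tb wb r0 r1 r2 pr tc wc x 0) tb wb tc wc x) := by
  set f := CnJ sa sb tb wb r0 r1 r2 pr tc wc x 0 with hf
  set m0 := mgR f tb wb tc wc x with hm0
  have a0 := DR.le_mxf f pr m0
  by_cases h0 : DR.val pr o = 0
  · refine le_trans ?_ a0.1
    rw [hm0]
    unfold mgR
    rw [rForce_eq, rForce_eq, rForce_eq]
    set m1 := DR.mxf f tb (nat_lit 0) with hm1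
    set m2 := DR.mxf f wb m1 with hm2
    set m3 := DL.mxc f x tc m2 with hm3
    have a1 := DR.le_mxf f tb 0
    have a2 := DR.le_mxf f wb m1
    have a3 := DL.le_mxc f x tc m2
    have a4 := DL.le_mxc f x wc m3
    by_cases h1 : DR.val tb o = 0
    · by_cases h2 : DR.val wb o = 0
      · by_cases h3 : DL.val tc o x = 0
        · by_cases h4 : DL.val wc o x = 0
          · have h5 : f o = 0 := by
              rw [hf, CnJ_eq, if_pos h0, h1, h2, h3, h4]
              norm_num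
              omega
            rw [h5]
            exact Nat.zero_le _
          · exact a4.2 o h4
        · exact le_trans (a3.2 o h3) a4.1
      · exact le_trans (a2.2 o h2) (le_trans a3.1 a4.1)
    · exact le_trans (a1.2 o h1) (le_trans a2.1 (le_trans a3.1 a4.1))
  · exact a0.2 o h0

theorem rgStepJ_sound {sa sb : ℕ} {tb wb r0 r1 r2 pr ql : DR} {tc wc zb : DL}
    {q q' : ℕ → ℕ → ℕ} {x cA cB h' M : ℕ} {E : DR} {A B : ℕ}
    {K : ℕ → ℕ → DR → ℕ → ℕ → Bool}
    (h : rgStepJ sa sb tb wb r0 r1 r2 pr ql tc wc zb q q' x cA cB h' M E A B K = true) :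
    ∃ M' E', K h' M' E' (A + cA) (B + cB) = true ∧
      (∀ o, CnJ sa sb tb wb r0 r1 r2 pr tc wc x (DR.mxe o E M) o ≤ M') ∧
      (∀ o o', DR.val ql (dkey o o') = 0 → DL.val zb o o' ≠ 0 →
        DR.In o' (CnJ sa sb tb wb r0 r1 r2 pr tc wc x (DR.mxe o E M) o +
          zadd (DL.val zb o o') (q o o')) E') ∧
      ∀ o o', o' < 8192 → DR.val ql (dkey o o') ≠ 0 →
        DR.In o' (CnJ sa sb tb wb r0 r1 r2 pr tc wc x (DR.mxe o E M) o +
          6 * q' o o' - (DR.val ql (dkey o o') - 1)) E' := by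
  unfold rgStepJ at h
  simp only [rForce_eq] at h
  refine ⟨_, _, h, fun o => ?_, fun o o' h0 ho => ?_, fun o o' h8 ho => ?_⟩
  · rcases DR.mxe_cases o E M with h1 | h1
    · rw [h1]
      refine le_trans ?_ (DR.le_mxv _ E _).1
      have h2 := mgJ_ge (sa := sa) (sb := sb) (tb := tb) (wb := wb) (r0 := r0) (r1 := r1)
        (r2 := r2) (pr := pr) (tc := tc) (wc := wc) (x := x) o
      exact le_trans CnJ_add (Nat.add_le_add_left h2 M)
    · exact (DR.le_mxv (CnJ sa sb tb wb r0 r1 r2 pr tc wc x) E _).2 _ _ h1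
  · exact (DR.in_psj (fun o => CnJ sa sb tb wb r0 r1 r2 pr tc wc x (DR.mxe o E M) o) q' ql
      _).1 _ _ ((DL.in_psl (fun o => CnJ sa sb tb wb r0 r1 r2 pr tc wc x (DR.mxe o E M) o) q ql
        zb DR.nil).2 o o' h0 ho)
  · exact (DR.in_psj (fun o => CnJ sa sb tb wb r0 r1 r2 pr tc wc x (DR.mxe o E M) o) q' ql
      _).2 o o' _ h8 (DR.in_val ho)

/-- The new value as an integer; `P` is the share of the star. -/
theorem le_CnJ {sa sb : ℕ} {tb wb r0 r1 r2 pr : DR} {tc wc : DL} {x D o : ℕ} {X P : ℤ}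
    (h : X ≤ D)
    (h0 : DR.val pr o = 0 → P = ((6 / (DR.val tb o % 2 + DL.val tc o x % 2 + 1) : ℕ) : ℤ) *
      max 0 ((sa + DR.val r0 o : ℤ) - (sb + (DR.val tb o + DL.val tc o x))))
    (h1 : DR.val pr o ≠ 0 → P = ((DR.val pr o - 1 : ℕ) : ℤ)) :
    X + (6 * (sa - sb) - P) + 6 * ((DR.val wb o : ℤ) - DR.val r1 o) +
      6 * ((DL.val wc o x : ℤ) - DR.val r2 o) ≤
      (CnJ sa sb tb wb r0 r1 r2 pr tc wc x D o : ℤ) := by
  rw [CnJ_eq]
  split_ifs with h2
  · have h3 := h0 h2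
    have h4 : max (0 : ℤ) ((sa + DR.val r0 o : ℤ) - (sb + (DR.val tb o + DL.val tc o x))) =
        (((sa + DR.val r0 o) - (sb + (DR.val tb o + DL.val tc o x)) : ℕ) : ℤ) := by
      omega
    rw [h4] at h3
    set w := 6 / (DR.val tb o % 2 + DL.val tc o x % 2 + 1) with hw
    set s := (sa + DR.val r0 o) - (sb + (DR.val tb o + DL.val tc o x)) with hs
    have h5 : ((w * s : ℕ) : ℤ) = w * s := Nat.cast_mul _ _
    rw [h3, ← h5]
    omega
  · rw [h1 h2]
    omega

/-! ### The test of a cell -/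

noncomputable section

/-- The step at a corner which is followed by a triangle; `h` is the flag of the window before. -/
def gjT (c : Tabs) (qt pt : DT) (k0 s0 k1 o1 s1 k2 o2 s2 k3 s3 h M : ℕ) (E : DR) (A B : ℕ)
    (K : ℕ → ℕ → DR → ℕ → ℕ → Bool) : Bool :=
  rForce (Nat.div (flA k1 o1) (nat_lit 16384)) fun kb =>
  rForce (Nat.mod (triA k1 s1) (nat_lit 512)) fun ob =>
  rForce (rjA k1 s1) fun jb =>
  rForce (farK k1 o1 s1) fun kc =>
  rForce (t3A k1 s1) fun oc =>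
  rForce (rjA kb jb) fun jc =>
  rForce (Nat.div (flA k2 o2) (nat_lit 16384)) fun kf =>
  rForce (Nat.mod (triA k2 s2) (nat_lit 512)) fun of =>
  rForce (rjA k2 s2) fun jf =>
  rForce (farK k2 o2 s2) fun kg =>
  rForce (t3A k2 s2) fun og =>
  rForce (rjA kf jf) fun jg =>
  rForce (xrT rjA k0 s0) fun x0 =>
  rForce (xrT trX k2 s2) fun x1 =>
  rForce (xrT trX k3 s3) fun x2 =>
  rForce (DL.val (DT.get c.t (dkey k1 s1)) x0 x1) fun d1 =>
  rForce (DL.val (DT.get c.zt (zkey k1 s1 s2)) x2 x0) fun z1 =>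
  rForce (Nat.mod d1 (nat_lit 2)) fun hT =>
  rForce (Nat.mod z1 (nat_lit 2)) fun hR =>
  rForce (fl0 hT (cST c k1 o1 s1 kb ob jb kc oc jc x0 x1)) fun sa =>
  rForce (fl0 hT d1) fun sb =>
  rForce (fl0 hR (cRA c k1 o1 s1 kb ob jb kc oc jc k2 o2 s2 kf of jf kg og jg x0 x2)) fun ra =>
  rForce (fl0 hR (cRB c k1 o1 s1 kb ob jb k2 o2 s2 kg og jg z1)) fun rb =>
  rgStepJ sa sb (flR hT (DL.grp (DT.get c.t (dkey kb jb)) x1))
    (flR h (DL.grp (DT.get c.tw (dkey kb jb)) x1))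
    (flR hT (DL.grp (DT.get c.rt (dkey kb jb)) (nat_lit 0)))
    (flR h (DL.grp (DT.get c.rt (dkey kb jb)) (nat_lit 1)))
    (flR hR (DL.grp (DT.get c.rt (dkey kb jb)) (nat_lit 2)))
    (DL.grp (DT.get pt (dkey k1 s1)) (dkey x0 x1))
    (DL.grp (DT.get qt (zkey k1 s1 s2)) (dkey x2 x0))
    (flL hT (DT.get c.t (dkey kc jc))) (flL hR (DT.get c.tw (dkey kc jc)))
    (flL hR (DL.tl (DT.get c.zt (zkey kg jg jb))))
    (fun o o' => Nat.sub
      (Nat.add ra (Nat.add (DR.val (DL.grp (DT.get c.rt (dkey kb jb)) (nat_lit 2)) o)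
        (DR.val (DL.grp (DT.get c.rt (dkey kf jf)) (nat_lit 1)) o')))
      (Nat.add rb (Nat.add (DL.val (DT.get c.tw (dkey kc jc)) o x0)
        (DR.val (DL.grp (DT.get c.tw (dkey kf jf)) x2) o'))))
    (fun o o' => fl0 hR (Nat.sub
      (Nat.add ra (Nat.add (DR.val (DL.grp (DT.get c.rt (dkey kb jb)) (nat_lit 2)) o)
        (DR.val (DL.grp (DT.get c.rt (dkey kf jf)) (nat_lit 1)) o')))
      (Nat.add rb (Nat.add (DL.val (DT.get c.tw (dkey kc jc)) o x0)
        (DR.val (DL.grp (DT.get c.tw (dkey kf jf)) x2) o')))))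
    x0 (Nat.mul (nat_lit 6) (Nat.add sa ra)) (Nat.mul (nat_lit 6) (Nat.add sb rb)) hR M E A B K

/-- The step at a corner which is followed by a longer face. -/
def gjQ (c : Tabs) (pt : DT) (k0 s0 k1 o1 s1 h M : ℕ) (E : DR) (A B : ℕ)
    (K : ℕ → ℕ → DR → ℕ → ℕ → Bool) : Bool :=
  rForce (Nat.div (flA k1 o1) (nat_lit 16384)) fun kb =>
  rForce (Nat.mod (triA k1 s1) (nat_lit 512)) fun ob =>
  rForce (rjA k1 s1) fun jb =>
  rForce (farK k1 o1 s1) fun kc =>
  rForce (t3A k1 s1) fun oc =>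
  rForce (rjA kb jb) fun jc =>
  rForce (xrT rjA k0 s0) fun x0 =>
  rForce (DL.val (DT.get c.t (dkey k1 s1)) x0 (nat_lit 0)) fun d1 =>
  rForce (Nat.mod d1 (nat_lit 2)) fun hT =>
  rForce (fl0 hT (cST c k1 o1 s1 kb ob jb kc oc jc x0 (nat_lit 0))) fun sa =>
  rForce (fl0 hT d1) fun sb =>
  rgStepJ sa sb (flR hT (DL.grp (DT.get c.t (dkey kb jb)) (nat_lit 0)))
    (flR h (DL.grp (DT.get c.tw (dkey kb jb)) (nat_lit 0)))
    (flR hT (DL.grp (DT.get c.rt (dkey kb jb)) (nat_lit 0)))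
    (flR h (DL.grp (DT.get c.rt (dkey kb jb)) (nat_lit 1)))
    DR.nil (DL.grp (DT.get pt (dkey k1 s1)) (dkey x0 (nat_lit 0))) DR.nil
    (flL hT (DT.get c.t (dkey kc jc))) DL.nil DL.nil (fun _ _ => nat_lit 0)
    (fun _ _ => nat_lit 0)
    x0 (Nat.mul (nat_lit 6) sa) (Nat.mul (nat_lit 6) sb) (nat_lit 0) M E A B K

/-- The step at a corner. -/
def gjC (c : Tabs) (qt pt : DT) (k0 s0 k1 o1 s1 k2 o2 s2 k3 s3 h M : ℕ) (E : DR)
    (A B : ℕ) (K : ℕ → ℕ → DR → ℕ → ℕ → Bool) : Bool :=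
  rIf (Nat.ble (nat_lit 7936) s1) (K (nat_lit 0) M DR.nil A B)
    (rIf (Nat.ble (nat_lit 7936) s2) (gjQ c pt k0 s0 k1 o1 s1 h M E A B K)
      (gjT c qt pt k0 s0 k1 o1 s1 k2 o2 s2 k3 s3 h M E A B K))

/-- The steps along a path. -/
def goJ (c : Tabs) (qt pt : DT) (p : Pth) : ℕ → ℕ → ℕ → ℕ → ℕ → ℕ → ℕ → ℕ → ℕ → ℕ →
    DR → ℕ → ℕ → (ℕ → DR → ℕ → ℕ → Bool) → Bool :=
  Pth.rec (motive := fun _ => ℕ → ℕ → ℕ → ℕ → ℕ → ℕ → ℕ → ℕ → ℕ → ℕ → DR → ℕ → ℕ →
      (ℕ → DR → ℕ → ℕ → Bool) → Bool)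
    (fun _ _ _ _ _ _ _ _ _ M E A B K => K M E A B)
    (fun k3 o3 s3 _ ih k0 s0 k1 o1 s1 k2 o2 s2 h M E A B K =>
      gjC c qt pt k0 s0 k1 o1 s1 k2 o2 s2 k3 s3 h M E A B fun h' M' E' A' B' =>
        ih k1 s1 k2 o2 s2 k3 o3 s3 h' M' E' A' B' K) p

/-- The test of all rings around a cell, for the path `k1 o1 s1`, `k2 o2 s2`, ..., of last corner
`kl sl`; `p` is the path after the second corner, continued by the first two corners, `h` is the
flag of the last window. -/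
def ringD (c : Tabs) (qt pt : DT) (m : ℕ) (p : Pth) (kl sl k1 o1 s1 k2 o2 s2 h : ℕ) :
    Bool :=
  goJ c qt pt p kl sl k1 o1 s1 k2 o2 s2 h offR DR.nil (nat_lit 0) (nat_lit 0)
    fun M E A B =>
    rAnd (Nat.ble (Nat.add M (Nat.add (Nat.mul (nat_lit 6) m) B)) (Nat.add offR A))
      (DR.all (fun z _ => goJ c qt pt p kl sl k1 o1 s1 k2 o2 s2 h (nat_lit 0)
        (DR.e z offR DR.nil) (nat_lit 0) (nat_lit 0) fun _ E' A' B' =>
          Nat.ble (Nat.add (DR.mxe z E' (nat_lit 0)) (Nat.add (Nat.mul (nat_lit 6) m) B'))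
            (Nat.add offR A')) E)

/-- The test of all rings around a cell. -/
def ringJ (c : Tabs) (qt pt : DT) (q : Pth) (m : ℕ) : Bool :=
  Pth.rec (motive := fun _ => Bool) false (fun k1 o1 s1 q1 _ =>
    Pth.rec (motive := fun _ => Bool) false (fun k2 o2 s2 q2 _ =>
      Pth.lst q2 k1 s1 k2 s2 fun ka sa kl sl => rForce (zfl c ka sa kl sl s1 k2 s2) fun h =>
        ringD c qt pt m (Pth.app q2 (Pth.cons k1 o1 s1 (Pth.cons k2 o2 s2 Pth.nil))) kl sl
          k1 o1 s1 k2 o2 s2 h) q1) q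

end

end Pool.Agent.Lib.MP_5854e1_co
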