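import Pool.Agent.Lib.MP_5854e1_co.MainS

/-!
# Shares of the slacks by the parity of the corrections

The slack of the closure over a triangle is shared by its corners of odd correction, the slack of the
closure over the region of a strip by its ends of odd correction.
-/

set_option autoImplicit false

open Equiv Equiv.Perm

namespace Pool.Agent.Lib.MP_5854e1_co

open Finset PB

universe u

theorem share3 {x y z : ℕ} (hx : x ≤ 1) (hy : y ≤ 1) (hz : z ≤ 1) :
    6 * x / (x + y + z) + 6 * y / (y + z + x) + 6 * z / (z + x + y) ≤ 6 := by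
  interval_cases x <;> interval_cases y <;> interval_cases z <;> norm_num

theorem share2 {x y : ℕ} (hx : x ≤ 1) (hy : y ≤ 1) : 6 * x / (x + y) + 6 * y / (y + x) ≤ 6 := by
  interval_cases x <;> interval_cases y <;> norm_num

namespace SMap

variable {F : Type*} (T : SMap F) {c : Tabs} {ts : DT}

open Classical in
/-- The flag of the fan of a corner: its correction is odd. -/
noncomputable def hT (c : Tabs) (a : F) : ℕ := if T.Tri a then T.dl c.t a % 2 else 0

/-- The flag of a window: its correction is odd. -/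
noncomputable def hZ (c : Tabs) (a : F) : ℕ := T.win c.zt a % 2

/-- The weight of a corner in the slack of its triangle. -/
noncomputable def wT (c : Tabs) (a : F) : ℕ :=
  6 * T.hT c a / (T.hT c a + T.hT c (T.I (T.N a)) + T.hT c (T.I (T.N (T.I (T.N a)))))

/-- The weight of an end of a strip in the slack of its region. -/
noncomputable def wR (c : Tabs) (d : F) : ℕ := 6 * T.hZ c d / (T.hZ c d + T.hZ c (T.bk d))

theorem hT_le (a : F) : T.hT c a ≤ 1 := by
  unfold hT
  split_ifs
  · omega
  · omega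

theorem hZ_le (a : F) : T.hZ c a ≤ 1 := by
  unfold hZ
  omega

theorem wT_sum {a : F} (ha : T.Tri a) :
    T.wT c a + T.wT c (T.I (T.N a)) + T.wT c (T.I (T.N (T.I (T.N a)))) ≤ 6 := by
  unfold wT
  rw [T.rot_three ha]
  exact share3 (T.hT_le a) (T.hT_le _) (T.hT_le _)

theorem wR_sum (d : F) : T.wR c d + T.wR c (T.bk d) ≤ 6 := by
  unfold wR
  rw [bk_bk]
  exact share2 (T.hZ_le d) (T.hZ_le _)

section relabel

variable (h : c.OKB) (hM : ∀ T : SMap F, c.MapR T)

include h hM

theorem relab_hT (a : F) : T.relab.hT c a = T.hT c a := by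
  by_cases ha : T.Tri a
  · unfold hT
    rw [if_pos ha, if_pos (show T.relab.Tri a from ha), T.relab_dlH h.symD ha]
  · unfold hT
    rw [if_neg ha, if_neg (show ¬T.relab.Tri a from ha)]

theorem relab_wT (a : F) : T.relab.wT c a = T.wT c a := by
  unfold wT
  rw [T.relab_hT h hM, T.relab_hT h hM, T.relab_hT h hM]
  rfl

theorem relab_wR (d : F) : T.relab.wR c d = T.wR c d := by
  unfold wR hZ
  rw [T.relab_winR h hM, T.relab_winR h hM]
  rfl

end relabel

end SMap

open SMap in
/-- **The shares by parity.** -/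
theorem Tabs.share_parity {c : Tabs} {F : Type u} (h : c.OKB) (hM : ∀ T : SMap F, c.MapR T)
    {s U V : SMap F → F → ℤ} (hs0 : ∀ (T : SMap F) (a : F), ¬T.Tri a → s T a = 0)
    (hU0 : ∀ (T : SMap F) (a : F), 0 ≤ U T a)
    (hUb : ∀ (T : SMap F) (a : F), ¬T.Tri a → U T a = 0)
    (hUr : ∀ (T : SMap F) (a : F), T.Tri a → U T (T.I (T.N a)) = U T a)
    (hUs : ∀ (T : SMap F) (a : F), T.Tri a → U T a =
      T.slT c a + (s T a + s T (T.I (T.N a)) + s T (T.I (T.N (T.I (T.N a))))))
    (hUm : ∀ (T : SMap F) (a : F), U T.relab a = U T a)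
    (hV0 : ∀ (T : SMap F) (d : F), 0 ≤ V T d)
    (hVs : ∀ (T : SMap F) (d : F), V T d = T.slR c d - (s T d + s T (T.bk d)))
    (hVm : ∀ (T : SMap F) (d : F), V T.relab d = V T d) :
    c.Share s (fun T a => T.wT c a * U T a) (fun T d => T.wR c d * V T d) where
  s0 := hs0
  P0 T a := mul_nonneg (Int.natCast_nonneg _) (hU0 T a)
  Pb T a ha := by
    show (T.wT c a : ℤ) * U T a = 0
    rw [hUb T a ha, mul_zero]
  P3 T a ha := by
    show (T.wT c a : ℤ) * U T a + T.wT c (T.I (T.N a)) * U T (T.I (T.N a)) +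
      T.wT c (T.I (T.N (T.I (T.N a)))) * U T (T.I (T.N (T.I (T.N a)))) ≤ _
    have h1 := T.wT_sum (c := c) ha
    rw [hUr T _ (T.tri_rot ha), hUr T a ha, ← hUs T a ha, ← add_mul, ← add_mul]
    refine mul_le_mul_of_nonneg_right ?_ (hU0 T a)
    exact_mod_cast h1
  Pr T a := by
    show (T.relab.wT c a : ℤ) * U T.relab a = T.wT c a * U T a
    rw [T.relab_wT h hM, hUm]
  Q0 T d := mul_nonneg (Int.natCast_nonneg _) (hV0 T d)
  Q2 T d := by
    show (T.wR c d : ℤ) * V T d + T.wR c (T.bk d) * V T (T.bk d) ≤ _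
    have h1 := T.wR_sum (c := c) d
    have e1 : V T (T.bk d) = V T d := by
      rw [hVs, hVs, T.slR_bk, bk_bk]
      ring
    rw [e1, ← hVs T d, ← add_mul]
    refine mul_le_mul_of_nonneg_right ?_ (hV0 T d)
    exact_mod_cast h1
  Qr T d := by
    show (T.relab.wR c d : ℤ) * V T.relab d = T.wR c d * V T d
    rw [T.relab_wR h hM, hVm]

/-- **The shares of the slacks by parity**, without amounts of the triangles. -/
theorem Tabs.share_slack {c : Tabs} {F : Type u} (h : c.OKR) (hM : ∀ T : SMap F, c.MapR T) :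
    c.Share (F := F) (fun _ _ => 0) (fun T a => T.wT c a * T.slT c a)
      (fun T d => T.wR c d * T.slR c d) :=
  Tabs.share_parity h.toOKB hM (fun _ _ _ => rfl) (fun T a => T.slT_nonneg h hM a)
    (fun T _ ha => T.slT_big ha) (fun T _ ha => T.slT_rot ha) (fun T a _ => by ring)
    (fun T a => T.relab_slT h.toOKB hM a) (fun T d => T.slR_nonneg h hM d) (fun T d => by ring)
    (fun T d => T.relab_slR h.toOKB hM d)

/-- **The shares of the slacks by parity**, with the amounts `ts` of the triangles. -/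
theorem Tabs.share_slackT {c : Tabs} {ts : DT} {F : Type u} (h : c.OKT ts)
    (hM : ∀ T : SMap F, c.MapR T) :
    c.Share (F := F) (fun T => T.sg ts) (fun T a => T.wT c a * T.slTt c ts a)
      (fun T d => T.wR c d * T.slRt c ts d) :=
  Tabs.share_parity h.toOKB hM (fun T _ ha => T.sg_left ha) (fun T a => T.slTt_nonneg h hM a)
    (fun T _ ha => T.slTt_big ha) (fun T _ ha => T.slTt_rot ha) (fun T _ ha => T.slTt_tri ha)
    (fun T a => T.relab_slTt h hM a) (fun T d => T.slRt_nonneg h hM d) (fun _ _ => rfl)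
    (fun T d => T.relab_slRt h hM d)

end Pool.Agent.Lib.MP_5854e1_co
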