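import Pool.Agent.Lib.MP_5854e1_co.Ring
import Pool.Agent.Lib.MP_5854e1_co.RngW
import Pool.Agent.Lib.MP_5854e1_co.CloseMap

/-!
# The ring of a cell of a map of strips
-/

set_option autoImplicit false

open Equiv Equiv.Perm

namespace Pool.Agent.Lib.MP_5854e1_co

open PB CE CE.Cell

theorem val_flR (n : ℕ) (r : DR) (o : ℕ) :
    DR.val (flR n r) o = if n = 0 then 0 else DR.val r o := by
  unfold flR
  split_ifs with h
  · rw [h]
    rfl
  · have h1 : Nat.beq n (nat_lit 0) = false := by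
      cases h2 : Nat.beq n (nat_lit 0) with
      | false => rfl
      | true => exact absurd (Nat.eq_of_beq_eq_true h2) h
    rw [h1, rIf_false]

theorem val_flL (n : ℕ) (l : DL) (o x : ℕ) :
    DL.val (flL n l) o x = if n = 0 then 0 else DL.val l o x := by
  unfold flL
  split_ifs with h
  · rw [h]
    rfl
  · have h1 : Nat.beq n (nat_lit 0) = false := by
      cases h2 : Nat.beq n (nat_lit 0) with
      | false => rfl
      | true => exact absurd (Nat.eq_of_beq_eq_true h2) h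
    rw [h1, rIf_false]

theorem fl0_eq (n v : ℕ) : fl0 n v = if n = 0 then 0 else v := by
  unfold fl0
  split_ifs with h
  · rw [h]
    rfl
  · have h1 : Nat.beq n (nat_lit 0) = false := by
      cases h2 : Nat.beq n (nat_lit 0) with
      | false => rfl
      | true => exact absurd (Nat.eq_of_beq_eq_true h2) h
    rw [h1, rIf_false]

/-- The new value in the terms of the map. -/
theorem step_le {h hT hR sp sm : ℕ} {tb wb r0 r1 r2 : DR} {tc wc : DL} {x D o w : ℕ} {X S : ℤ}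
    (hX : X ≤ D) (hw : hT ≠ 0 → w = 6 / (DR.val tb o % 2 + DL.val tc o x % 2 + 1))
    (hS : hT ≠ 0 → S = max 0 ((sp + DR.val r0 o : ℤ) - (sm + (DR.val tb o + DL.val tc o x)))) :
    X + (if hT = 0 then 0 else 6 * ((sp : ℤ) - sm) - w * S) +
      (if h = 0 then 0 else 6 * ((DR.val wb o : ℤ) - DR.val r1 o)) +
      (if hR = 0 then 0 else 6 * ((DL.val wc o x : ℤ) - DR.val r2 o)) ≤
    (Cn (fl0 hT sp) (fl0 hT sm) (flR hT tb) (flR h wb) (flR hT r0) (flR h r1) (flR hR r2)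
      (flL hT tc) (flL hR wc) x D o : ℤ) := by
  have key := le_Cn (sa := fl0 hT sp) (sb := fl0 hT sm) (tb := flR hT tb) (wb := flR h wb)
    (r0 := flR hT r0) (r1 := flR h r1) (r2 := flR hR r2) (tc := flL hT tc) (wc := flL hR wc)
    (x := x) (o := o) hX rfl rfl
  refine le_trans ?_ key
  simp only [val_flR, val_flL, fl0_eq]
  by_cases h1 : hT = 0
  · by_cases h2 : h = 0
    · by_cases h3 : hR = 0
      · simp [h1, h2, h3]
      · simp [h1, h2, h3]
    · by_cases h3 : hR = 0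
      · simp [h1, h2, h3]
      · simp [h1, h2, h3]
  · have hw' := hw h1
    have hS' := hS h1
    rw [hw', hS']
    by_cases h2 : h = 0
    · by_cases h3 : hR = 0
      · simp [h1, h2, h3]
      · simp [h1, h2, h3]
    · by_cases h3 : hR = 0
      · simp [h1, h2, h3]
      · simp [h1, h2, h3]

namespace SMap

variable {F : Type*} (T : SMap F) {c : Tabs}

/-! ### The amounts of a corner -/

/-- The token of the face across the outer edge of the triangle of a corner. -/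
noncomputable def Ot (a : F) : ℕ := T.X trX (T.N (T.I (T.N a)))

/-- The reserve `g` of the next strip of the triangle, from the table by triangles. -/
noncomputable def rv (c : Tabs) (g : ℕ) (a : F) : ℕ :=
  DR.val (DL.grp (DT.get c.rt (dkey (T.kx a) (T.rs a))) g) (T.X trX (T.N a))

/-- The budget of the triangle of a corner without the reserve of the outer token. -/
noncomputable def sP (c : Tabs) (a : F) : ℕ :=
  T.sbud c.D c.sp c.ps a + T.sbud c.D c.sp c.ps (T.I (T.N a)) +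
    T.sbud c.D c.sp c.ps (T.I (T.N (T.I (T.N a)))) +
    (T.rv c 0 a + T.rv c 0 (T.I (T.N (T.I (T.N a)))))

/-- The slack of the triangle of a corner. -/
noncomputable def sS (c : Tabs) (a : F) : ℤ :=
  max 0 ((T.sP c a + T.rv c 0 (T.I (T.N a)) : ℤ) -
    (T.dl c.t a + (T.dl c.t (T.I (T.N a)) + T.dl c.t (T.I (T.N (T.I (T.N a)))))))

/-- The budget of the strip after a corner. -/
noncomputable def pP (c : Tabs) (a : F) : ℕ :=
  T.gzN c.gp a + T.gzN c.gp (T.bk a) + (T.pB c.sp c.ps (T.I (T.N (T.I (T.N a)))) +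
    T.pB c.sp c.ps (T.I (T.N (T.N a)))) + (T.rv c 1 (T.I (T.N (T.I (T.N a)))) +
      T.rv c 2 (T.N a))

/-- The charges of the strip after a corner. -/
noncomputable def pM (c : Tabs) (a : F) : ℕ :=
  T.gzN c.gm a + T.gzN c.gm (T.bk a) + (T.rtot c.zt a + T.rtot c.zt (T.bk a)) + T.win c.zt a

/-- The slack of the region of the strip after a corner. -/
noncomputable def sR (c : Tabs) (a : F) : ℤ :=
  (T.pP c a + T.rv c 2 (T.I (T.N a)) + T.rv c 1 (T.I (T.N (T.N a))) : ℤ) -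
    (T.pM c a + T.dl c.tw (T.I (T.N (T.I (T.N a)))) + T.dl c.tw (T.I (T.N (T.N a))) +
      T.win c.zt (T.bk a))

/-- The loss of the triangle of a corner and of the strip after it, at the corner. -/
noncomputable def rU (c : Tabs) (a : F) : ℤ :=
  (if T.hT c a = 0 then 0 else 6 * ((T.sP c a : ℤ) - T.dl c.t a) - T.wT c a * T.sS c a) +
    (if T.hZ c a = 0 then 0 else
      6 * ((T.dl c.tw (T.I (T.N (T.I (T.N a)))) : ℤ) - T.rv c 2 (T.I (T.N a))))

/-- The loss of the strip before a corner, at the corner. -/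
noncomputable def rW (c : Tabs) (a : F) : ℤ :=
  if T.hZ c (T.N⁻¹ a) = 0 then 0 else
    6 * ((T.dl c.tw (T.I (T.N a)) : ℤ) - T.rv c 1 (T.I (T.N a)))

/-- The loss by the window at the other end of the strip after a corner. -/
noncomputable def rZ (c : Tabs) (a : F) : ℤ :=
  if T.hZ c a = 0 then 0 else
    6 * (T.sR c a + T.win c.zt (T.bk a)) - T.wR c a * max 0 (T.sR c a)

/-- The amounts which do not depend on the outer tokens. -/
noncomputable def rA (c : Tabs) (a : F) : ℤ :=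
  (if T.hT c a = 0 then 0 else 6 * ((T.sP c a : ℤ) - T.dl c.t a)) +
    (if T.hZ c a = 0 then 0 else 6 * ((T.pP c a : ℤ) - T.pM c a))

theorem tri_of_hT {a : F} (h : T.hT c a ≠ 0) : T.Tri a := by
  by_contra h1
  exact h (if_neg h1)

theorem tri_of_hZ {a : F} (h : T.hZ c a ≠ 0) : T.Tri a ∧ T.Tri (T.N a) := by
  constructor
  · by_contra h1
    exact h (by unfold hZ; rw [T.win_left h1])
  · by_contra h1
    exact h (by unfold hZ; rw [T.win_right h1])

theorem sS_le (hr : DT.all (rtR c.zt) c.rt = true) {a : F} (ha : T.Tri a)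
    (h0 : 0 ≤ T.slT c a) : T.sS c a ≤ T.slT c a := by
  have hb := T.tri_rot ha
  have hc := T.tri_rot hb
  have r1 : T.rv c 0 a ≤ T.rz c.zt 0 a := T.rt_le hr 0 ha
  have r2 : T.rv c 0 (T.I (T.N a)) ≤ T.rz c.zt 0 (T.I (T.N a)) := T.rt_le hr 0 hb
  have r3 : T.rv c 0 (T.I (T.N (T.I (T.N a)))) ≤ T.rz c.zt 0 (T.I (T.N (T.I (T.N a)))) :=
    T.rt_le hr 0 hc
  refine max_le h0 ?_
  rw [T.slT_tri ha]
  unfold sP
  push_cast
  zify at r1 r2 r3
  linarith

theorem sR_le (hM : c.MapR T) (hr : DT.all (rtR c.zt) c.rt = true) {a : F} (ha : T.Tri a)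
    (hn : T.Tri (T.N a)) : T.sR c a ≤ T.slR c a := by
  have hb := T.tri_rot ha
  have hc := T.tri_rot hb
  have hn2 := T.tri_rot hn
  have hbk : T.Tri (T.bk a) := (T.tri_bk a).2 hn
  have hbk1 : T.Tri (T.N (T.bk a)) := (T.tri_N_bk a).2 ha
  have r4 : T.rv c 1 (T.I (T.N (T.I (T.N a)))) ≤ T.rz c.zt 1 (T.I (T.N (T.I (T.N a)))) :=
    T.rt_le hr 1 hc
  have r5 : T.rv c 2 (T.N a) ≤ T.rz c.zt 2 (T.N a) := T.rt_le hr 2 hn
  have r6 : T.rv c 2 (T.I (T.N a)) ≤ T.rz c.zt 2 (T.I (T.N a)) := T.rt_le hr 2 hb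
  have r7 : T.rv c 1 (T.I (T.N (T.N a))) ≤ T.rz c.zt 1 (T.I (T.N (T.N a))) := T.rt_le hr 1 hn2
  have g1 := hM.hG a ha hn
  have g2 := hM.hG (T.bk a) hbk hbk1
  unfold slR regL sR pP pM
  rw [T.dlw_tri c hn2, T.dlw_tri c hc, T.Pt_sub_PA hn2, T.Pt_sub_PA hc]
  push_cast
  zify at r4 r5 r6 r7
  linarith

/-- **The shares of the triangle and of the region after a corner.** -/
theorem ring_local (hM : c.MapR T) (hr : DT.all (rtR c.zt) c.rt = true) (a : F)
    (h0 : 0 ≤ T.slT c a) (h1 : 0 ≤ T.slR c a) :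
    T.rA c a - T.rU c a - T.rW c (T.N a) - T.rZ c a ≤
      T.wT c a * T.slT c a + T.wR c a * T.slR c a := by
  have key1 : (if T.hT c a = 0 then (0 : ℤ) else T.wT c a * T.sS c a) ≤
      T.wT c a * T.slT c a := by
    split_ifs with h2
    · exact mul_nonneg (Int.natCast_nonneg _) h0
    · exact mul_le_mul_of_nonneg_left (T.sS_le hr (T.tri_of_hT h2) h0) (Int.natCast_nonneg _)
  have key2 : (if T.hZ c a = 0 then (0 : ℤ) else T.wR c a * max 0 (T.sR c a)) ≤
      T.wR c a * T.slR c a := by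
    split_ifs with h2
    · exact mul_nonneg (Int.natCast_nonneg _) h1
    · have h3 := T.tri_of_hZ h2
      exact mul_le_mul_of_nonneg_left (max_le h1 (T.sR_le hM hr h3.1 h3.2))
        (Int.natCast_nonneg _)
  have key3 : T.rA c a - T.rU c a - T.rW c (T.N a) - T.rZ c a =
      (if T.hT c a = 0 then (0 : ℤ) else T.wT c a * T.sS c a) +
        (if T.hZ c a = 0 then (0 : ℤ) else T.wR c a * max 0 (T.sR c a)) := by
    unfold rA rU rW rZ
    rw [N_inv_N]
    by_cases h2 : T.hT c a = 0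
    · by_cases h3 : T.hZ c a = 0
      · rw [if_pos h2, if_pos h2, if_pos h2, if_pos h3, if_pos h3, if_pos h3, if_pos h3,
          if_pos h3]
        ring
      · rw [if_pos h2, if_pos h2, if_pos h2, if_neg h3, if_neg h3, if_neg h3, if_neg h3,
          if_neg h3]
        unfold sR
        ring
    · by_cases h3 : T.hZ c a = 0
      · rw [if_neg h2, if_neg h2, if_neg h2, if_pos h3, if_pos h3, if_pos h3, if_pos h3,
          if_pos h3]
        ring
      · rw [if_neg h2, if_neg h2, if_neg h2, if_neg h3, if_neg h3, if_neg h3, if_neg h3,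
          if_neg h3]
        unfold sR
        ring
  rw [key3]
  exact add_le_add key1 key2

/-! ### A step -/

theorem sO_tri {a : F} (ha : T.Tri a) : T.sO a = T.jx a := by
  unfold sO
  rw [if_pos ha, T.rs_tri ha]

theorem ble_sO_tri {a : F} (ha : T.Tri a) : Nat.ble (nat_lit 7936) (T.sO a) = false := by
  rw [T.sO_tri ha, ← T.rs_tri ha]
  exact T.ble_rs_tri ha

theorem ble_sO_big {a : F} (ha : ¬T.Tri a) : Nat.ble (nat_lit 7936) (T.sO a) = true := by
  unfold sO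
  rw [if_neg ha]
  rfl

/-- The token before a corner. -/
theorem x0_eq (e : F) : xrT rjA (T.kx e) (T.sO e) = T.X trX (T.I (T.N e)) := by
  by_cases he : T.Tri e
  · rw [T.X_tri trX (T.tri_rot he)]
    unfold xrT
    rw [T.ble_sO_tri he, rIf_false, T.sO_tri he, T.rot_j he]
    rfl
  · rw [T.X_big trX (fun h => he ((T.tri_I_N e).1 h))]
    unfold xrT
    rw [T.ble_sO_big he, rIf_true]

/-- The token after a corner. -/
theorem x1_eq (a : F) : xrT trX (T.kx a) (T.sO a) = T.X trX a := T.xrT_sO _ _ _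

theorem dl_fst (t : DT) {a : F} (ha : T.Tri a) : T.dl t a =
    DL.val (DT.get t (dkey (T.kx a) (T.jx a))) (T.X trX (T.I a)) (T.X trX (T.N a)) := by
  unfold dl
  rw [T.rs_tri ha]

theorem dl_snd (t : DT) {a : F} (ha : T.Tri a) : T.dl t (T.I (T.N a)) =
    DR.val (DL.grp (DT.get t (dkey (T.kx (T.I (T.N a))) (T.jx (T.I (T.N a))))) (T.X trX (T.N a)))
      (T.Ot a) := by
  unfold dl Ot
  rw [T.rs_tri (T.tri_rot ha), I_I]
  rfl

theorem dl_trd (t : DT) {a : F} (ha : T.Tri a) : T.dl t (T.I (T.N (T.I (T.N a)))) =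
    DL.val (DT.get t (dkey (T.kx (T.I (T.N (T.I (T.N a))))) (T.jx (T.I (T.N (T.I (T.N a)))))))
      (T.Ot a) (T.X trX (T.I a)) := by
  unfold dl Ot
  rw [T.rs_tri (T.tri_rot (T.tri_rot ha)), I_I, T.N_third ha]

theorem rv_eq (g : ℕ) {a : F} (ha : T.Tri a) : T.rv c g a =
    DR.val (DL.grp (DT.get c.rt (dkey (T.kx a) (T.jx a))) g) (T.X trX (T.N a)) := by
  unfold rv
  rw [T.rs_tri ha]

theorem Ot_eq (a : F) : T.X trX (T.N (T.I (T.N a))) = T.Ot a := rfl

theorem mod_hT {a : F} (ha : T.Tri a) : Nat.mod (T.dl c.t a) (nat_lit 2) = T.hT c a := by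
  unfold hT
  rw [if_pos ha]
  rfl

theorem wT_eq {a : F} (ha : T.Tri a) (h : T.hT c a ≠ 0) :
    T.wT c a = 6 / (T.dl c.t (T.I (T.N a)) % 2 + T.dl c.t (T.I (T.N (T.I (T.N a)))) % 2 + 1) := by
  have hb := T.tri_rot ha
  have hc := T.tri_rot hb
  have h1 := T.hT_le (c := c) a
  have h2 : T.hT c a = 1 := by omega
  have e1 : T.hT c (T.I (T.N a)) = T.dl c.t (T.I (T.N a)) % 2 := if_pos hb
  have e2 : T.hT c (T.I (T.N (T.I (T.N a)))) = T.dl c.t (T.I (T.N (T.I (T.N a)))) % 2 := if_pos hc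
  unfold wT
  rw [h2, e1, e2, mul_one]
  congr 1
  omega

theorem rZ_le {a : F} (h : T.hZ c a ≠ 0) {q : ℕ}
    (hq : T.sR c a + T.win c.zt (T.bk a) ≤ q) : T.rZ c a ≤ zadd (T.win c.zt (T.bk a)) q := by
  have h1 := T.hZ_le (c := c) a
  have h2 : T.hZ c a = 1 := by omega
  have e1 : T.wR c a = 6 / (1 + T.win c.zt (T.bk a) % 2) := by
    unfold wR
    rw [h2, mul_one]
    rfl
  unfold rZ
  rw [if_neg h, e1]
  rcases le_zadd hq with h3 | h3
  · exact h3
  · rw [zadd_even h3, h3]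
    have h4 := le_max_right (0 : ℤ) (T.sR c a)
    push_cast
    norm_num
    linarith

theorem rZ_le0 {a : F} (h : ¬(T.hZ c a ≠ 0 ∧ T.win c.zt (T.bk a) ≠ 0)) : T.rZ c a ≤ 0 := by
  by_cases h1 : T.hZ c a = 0
  · unfold rZ
    rw [if_pos h1]
  · have h2 : T.win c.zt (T.bk a) = 0 := by
      by_contra h3
      exact h ⟨h1, h3⟩
    have h3 := T.hZ_le (c := c) a
    have h4 : T.hZ c a = 1 := by omega
    have e1 : T.wR c a = 6 := by
      unfold wR hZ
      rw [h2]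
      unfold hZ at h4
      rw [h4]
    unfold rZ
    rw [if_neg h1, e1, h2]
    have h5 := le_max_right (0 : ℤ) (T.sR c a)
    push_cast
    linarith

/-- What is known before a corner. -/
def RInv (a : F) (X : ℤ) (M : ℕ) (E : DR) : Prop :=
  (T.Tri a → X ≤ DR.mxe (T.Ot a) E M) ∧ (¬T.Tri a → X ≤ M)

theorem RInv.le {T : SMap F} {a : F} {X : ℤ} {M : ℕ} {E : DR} (h : T.RInv a X M E) :
    X ≤ DR.mxe (T.Ot a) E M := by
  by_cases ha : T.Tri a
  · exact h.1 ha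
  · exact le_trans (h.2 ha) (by exact_mod_cast (DR.le_mxe _ E M).1)

/-- What is known after the step at a corner. -/
def REnd (c : Tabs) (a : F) (X : ℤ) (M : ℕ) (E : DR) : Prop :=
  (¬(T.hZ c a ≠ 0 ∧ T.win c.zt (T.bk a) ≠ 0) → X ≤ M) ∧
    ((T.hZ c a ≠ 0 ∧ T.win c.zt (T.bk a) ≠ 0) → ∃ v : ℕ, DR.In (T.Ot (T.N a)) v E ∧ X ≤ v)

theorem REnd.inv {T : SMap F} {a : F} {X : ℤ} {M : ℕ} {E : DR} (h : T.REnd c a X M E) :
    T.RInv (T.N a) X M E := by
  refine ⟨fun _ => ?_, fun hn => ?_⟩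
  · by_cases hz : T.hZ c a ≠ 0 ∧ T.win c.zt (T.bk a) ≠ 0
    · obtain ⟨v, h1, h2⟩ := h.2 hz
      exact le_trans h2 (by exact_mod_cast (DR.le_mxe _ E M).2 v h1)
    · exact le_trans (h.1 hz) (by exact_mod_cast (DR.le_mxe _ E M).1)
  · exact h.1 fun h1 => hn (T.tri_of_hZ h1.1).2

/-- The claim of a step. -/
def RStep (c : Tabs) (a : F) (X : ℤ) (A B : ℕ) (K : ℕ → ℕ → DR → ℕ → ℕ → Bool) : Prop :=
  ∃ (M' : ℕ) (E' : DR) (A' B' : ℕ), K (T.hZ c a) M' E' A' B' = true ∧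
    (A' : ℤ) - B' = A - B + T.rA c a ∧ T.REnd c a (X + T.rU c a + T.rW c a + T.rZ c a) M' E'

/-- The budget of the triangle. -/
theorem cST_eq {a : F} (ha : T.Tri a) :
    cST c (T.kx a) (T.ox a) (T.jx a) (T.kx (T.I (T.N a))) (T.ox (T.I (T.N a)))
      (T.jx (T.I (T.N a))) (T.kx (T.I (T.N (T.I (T.N a))))) (T.ox (T.I (T.N (T.I (T.N a)))))
      (T.jx (T.I (T.N (T.I (T.N a))))) (T.X trX (T.I a)) (T.X trX (T.N a)) = T.sP c a := by
  have hb := T.tri_rot ha
  have hc := T.tri_rot hb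
  have e4 := T.rv_eq (c := c) 0 ha
  have e6 := T.rv_eq (c := c) 0 hc
  rw [T.N_third ha] at e6
  unfold cST sP sbud
  rw [T.rs_tri ha, T.rs_tri hb, T.rs_tri hc, e4, e6]
  simp only [Nat.add_eq]
  ring

theorem grQ_sound {e : F} {X : ℤ} {M : ℕ} {E : DR} {A B : ℕ} {K : ℕ → ℕ → DR → ℕ → ℕ → Bool}
    (ha : T.Tri (T.N e)) (hn : ¬T.Tri (T.N (T.N e))) (hi : T.RInv (T.N e) X M E)
    (h : grQ c (T.kx e) (T.sO e) (T.kx (T.N e)) (T.ox (T.N e)) (T.sO (T.N e)) (T.hZ c e)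
      M E A B K = true) : T.RStep c (T.N e) X A B K := by
  have hb := T.tri_rot ha
  have hc := T.tri_rot hb
  have hX := hi.le
  have hx1 : T.X trX (T.N (T.N e)) = 0 := T.X_big trX hn
  have hz0 : T.hZ c (T.N e) = 0 := by
    by_contra h1
    exact hn (T.tri_of_hZ h1).2
  unfold grQ at h
  simp only [rForce_eq] at h
  rw [T.sO_tri ha, T.x0_eq, ← T.rot_k (T.N e), ← T.rot_j ha, ← T.rot_o ha, T.farK_eq ha,
    T.t3A_jx ha, ← T.rot_j hb] at h
  have e0 := T.cST_eq (c := c) ha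
  have e1 := T.dl_fst c.t ha
  rw [hx1] at e0 e1
  rw [e0, ← e1, T.mod_hT ha] at h
  obtain ⟨M', E', h1, h2, -⟩ := rgStep_sound h
  have e2 := T.dl_snd c.t ha
  have e3 := T.dl_trd c.t ha
  have e5 := T.rv_eq (c := c) 0 hb
  have e7 := T.dl_snd c.tw ha
  have e8 := T.rv_eq (c := c) 1 hb
  rw [hx1] at e2 e7
  rw [T.Ot_eq] at e5 e8
  refine ⟨M', E', A + Nat.mul 6 (fl0 (T.hT c (T.N e)) (T.sP c (T.N e))),
    B + Nat.mul 6 (fl0 (T.hT c (T.N e)) (T.dl c.t (T.N e))), ?_, ?_, fun _ => ?_,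
    fun h5 => absurd hz0 h5.1⟩
  · rw [hz0]
    exact h1
  · unfold rA
    rw [if_pos hz0, fl0_eq, fl0_eq]
    by_cases h6 : T.hT c (T.N e) = 0
    · rw [if_pos h6, if_pos h6, if_pos h6]
      push_cast
      simp
    · rw [if_neg h6, if_neg h6, if_neg h6]
      simp only [Nat.mul_eq]
      push_cast
      ring
  · have hz := T.rZ_le0 (c := c) (a := T.N e) fun h5 => h5.1 hz0
    have h4 := step_le (hR := 0) (r2 := DR.nil) (wc := DL.nil) (h := T.hZ c e)
      (hT := T.hT c (T.N e)) (sp := T.sP c (T.N e)) (sm := T.dl c.t (T.N e))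
      (tb := DL.grp (DT.get c.t (dkey (T.kx (T.I (T.N (T.N e)))) (T.jx (T.I (T.N (T.N e)))))) 0)
      (wb := DL.grp (DT.get c.tw (dkey (T.kx (T.I (T.N (T.N e)))) (T.jx (T.I (T.N (T.N e)))))) 0)
      (r0 := DL.grp (DT.get c.rt (dkey (T.kx (T.I (T.N (T.N e)))) (T.jx (T.I (T.N (T.N e)))))) 0)
      (r1 := DL.grp (DT.get c.rt (dkey (T.kx (T.I (T.N (T.N e)))) (T.jx (T.I (T.N (T.N e)))))) 1)
      (tc := DT.get c.t (dkey (T.kx (T.I (T.N (T.I (T.N (T.N e))))))
        (T.jx (T.I (T.N (T.I (T.N (T.N e))))))))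
      (x := T.X trX (T.I (T.N e))) (o := T.Ot (T.N e)) (w := T.wT c (T.N e))
      (S := T.sS c (T.N e)) hX (fun h6 => by rw [T.wT_eq ha h6, e2, e3])
      (fun h6 => by unfold sS; rw [e2, e3, e5])
    have h5 := h2 (T.Ot (T.N e))
    have h6 : X + T.rU c (T.N e) + T.rW c (T.N e) ≤ M' := by
      refine le_trans ?_ (le_trans h4 (by exact_mod_cast h5))
      unfold rU rW
      rw [if_pos hz0, if_pos rfl, N_inv_N, e7, e8]
      simp only [add_zero, le_refl]
    linarith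

/-- The budget of the strip. -/
theorem cRA_eq {a : F} (ha : T.Tri a) (hn : T.Tri (T.N a)) :
    cRA c (T.kx a) (T.ox a) (T.jx a) (T.kx (T.I (T.N a))) (T.ox (T.I (T.N a)))
      (T.jx (T.I (T.N a))) (T.kx (T.I (T.N (T.I (T.N a))))) (T.ox (T.I (T.N (T.I (T.N a)))))
      (T.jx (T.I (T.N (T.I (T.N a))))) (T.kx (T.N a)) (T.ox (T.N a)) (T.jx (T.N a))
      (T.kx (T.I (T.N (T.N a)))) (T.ox (T.I (T.N (T.N a)))) (T.jx (T.I (T.N (T.N a))))
      (T.kx (T.bk a)) (T.ox (T.bk a)) (T.jx (T.bk a)) (T.X trX (T.I a))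
      (T.X trX (T.N (T.N a))) = T.pP c a := by
  have hb := T.tri_rot ha
  have hc := T.tri_rot hb
  have hn2 := T.tri_rot hn
  have hbT : T.Tri (T.bk a) := (T.tri_bk a).2 hn
  have f1 := T.rv_eq (c := c) 1 hc
  have f2 := T.rv_eq (c := c) 2 hn
  rw [T.N_third ha] at f1
  have g1 : T.gzN c.gp a = c.gp (T.kx a) (T.ox a) (T.jx a)
      (T.kx (T.N a)) (T.ox (T.N a)) (T.jx (T.N a)) := by
    unfold gzN
    rw [T.rs_tri ha, T.rs_tri hn]
  have g3 : T.gzN c.gp (T.bk a) = c.gp (T.kx (T.bk a)) (T.ox (T.bk a))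
      (T.jx (T.bk a)) (T.kx (T.I (T.N a))) (T.ox (T.I (T.N a)))
        (T.jx (T.I (T.N a))) := by
    unfold gzN
    rw [T.rs_tri hbT, N_bk, T.rs_tri hb]
  unfold cRA pP pB
  rw [T.rs_tri hc, T.rs_tri hn2, f1, f2, g1, g3]
  simp only [Nat.add_eq]
  ring

/-- The charges of the strip. -/
theorem cRB_eq {a : F} (ha : T.Tri a) (hn : T.Tri (T.N a)) :
    cRB c (T.kx a) (T.ox a) (T.jx a) (T.kx (T.I (T.N a))) (T.ox (T.I (T.N a)))
      (T.jx (T.I (T.N a))) (T.kx (T.N a)) (T.ox (T.N a)) (T.jx (T.N a))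
      (T.kx (T.bk a)) (T.ox (T.bk a)) (T.jx (T.bk a)) (T.win c.zt a) = T.pM c a := by
  have hb := T.tri_rot ha
  have hbT : T.Tri (T.bk a) := (T.tri_bk a).2 hn
  have hb1 : T.Tri (T.N (T.bk a)) := (T.tri_N_bk a).2 ha
  have g2 : T.gzN c.gm a = c.gm (T.kx a) (T.ox a) (T.jx a)
      (T.kx (T.N a)) (T.ox (T.N a)) (T.jx (T.N a)) := by
    unfold gzN
    rw [T.rs_tri ha, T.rs_tri hn]
  have g4 : T.gzN c.gm (T.bk a) = c.gm (T.kx (T.bk a)) (T.ox (T.bk a))
      (T.jx (T.bk a)) (T.kx (T.I (T.N a))) (T.ox (T.I (T.N a)))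
        (T.jx (T.I (T.N a))) := by
    unfold gzN
    rw [T.rs_tri hbT, N_bk, T.rs_tri hb]
  have t1 : T.rtot c.zt a = DR.tot (DL.hd (DT.get c.zt
      (zkey (T.kx a) (T.jx a) (T.jx (T.N a))))) := by
    rw [T.rtot_tri ha hn, T.rs_tri ha, T.rs_tri hn]
  have t2 : T.rtot c.zt (T.bk a) = DR.tot (DL.hd (DT.get c.zt
      (zkey (T.kx (T.bk a)) (T.jx (T.bk a)) (T.jx (T.I (T.N a)))))) := by
    rw [T.rtot_tri hbT hb1, T.rs_tri hbT, N_bk, T.rs_tri hb]
  unfold cRB pM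
  rw [g2, g4, t1, t2]
  simp only [Nat.add_eq]
  ring

theorem grT_sound {e : F} {X : ℤ} {M : ℕ} {E : DR} {A B : ℕ} {K : ℕ → ℕ → DR → ℕ → ℕ → Bool}
    (hx : ∀ (a : F) {x : ℕ} {r : DR} {l : DL}, T.zr c.zt a = DL.g x r l →
      Nat.ble 1048576 x = true)
    (ha : T.Tri (T.N e)) (hn : T.Tri (T.N (T.N e))) (hi : T.RInv (T.N e) X M E)
    (h : grT c (T.kx e) (T.sO e) (T.kx (T.N e)) (T.ox (T.N e)) (T.sO (T.N e))
      (T.kx (T.N (T.N e))) (T.ox (T.N (T.N e))) (T.sO (T.N (T.N e)))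
      (T.kx (T.N (T.N (T.N e)))) (T.sO (T.N (T.N (T.N e)))) (T.hZ c e) M E A B K = true) :
    T.RStep c (T.N e) X A B K := by
  have hb := T.tri_rot ha
  have hc := T.tri_rot hb
  have hn2 := T.tri_rot hn
  have hX := hi.le
  unfold grT at h
  simp only [rForce_eq] at h
  rw [T.sO_tri ha, T.sO_tri hn, T.x0_eq, T.x1_eq (T.N (T.N (T.N e))),
    ← T.rot_k (T.N e), ← T.rot_j ha, ← T.rot_o ha, T.farK_eq ha,
    T.t3A_jx ha, ← T.rot_j hb, ← T.rot_k (T.N (T.N e)), ← T.rot_j hn, ← T.rot_o hn,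
    T.farK_eq hn, T.t3A_jx hn, ← T.rot_j hn2] at h
  have hx1 : xrT trX (T.kx (T.N (T.N e))) (T.jx (T.N (T.N e))) = T.X trX (T.N (T.N e)) := by
    rw [← T.sO_tri hn]
    exact T.x1_eq _
  rw [hx1] at h
  have hbT : T.Tri (T.bk (T.N e)) := (T.tri_bk (T.N e)).2 hn
  have hb1 : T.Tri (T.N (T.bk (T.N e))) := (T.tri_N_bk (T.N e)).2 ha
  have hbe := T.bk_tri hn
  have hbk : T.I (T.N (T.I (T.N (T.N (T.N e))))) = T.bk (T.N e) := hbe.symm
  have w1 : DL.val (DT.get c.zt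
      (zkey (T.kx (T.N e)) (T.jx (T.N e)) (T.jx (T.N (T.N e)))))
        (T.X trX (T.N (T.N (T.N e)))) (T.X trX (T.I (T.N e))) = T.win c.zt (T.N e) := by
    rw [T.win_tri ha hn, T.rs_tri ha, T.rs_tri hn]
  have e13 : Nat.mod (T.win c.zt (T.N e)) (nat_lit 2) = T.hZ c (T.N e) := rfl
  rw [hbk, w1, T.cST_eq (c := c) ha, ← T.dl_fst c.t ha, T.mod_hT ha, e13,
    T.cRA_eq (c := c) ha hn, T.cRB_eq (c := c) ha hn] at h
  obtain ⟨M', E', h1, h2, h3⟩ := rgStep_sound h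
  have e2 := T.dl_snd c.t ha
  have e3 := T.dl_trd c.t ha
  have e5 := T.rv_eq (c := c) 0 hb
  have e7 := T.dl_snd c.tw ha
  have e8 := T.rv_eq (c := c) 1 hb
  have e9 := T.rv_eq (c := c) 2 hb
  have e10 := T.dl_trd c.tw ha
  rw [T.Ot_eq] at e5 e8 e9
  have h4 := step_le (hR := T.hZ c (T.N e)) (h := T.hZ c e)
    (hT := T.hT c (T.N e)) (sp := T.sP c (T.N e)) (sm := T.dl c.t (T.N e))
    (tb := DL.grp (DT.get c.t (dkey (T.kx (T.I (T.N (T.N e)))) (T.jx (T.I (T.N (T.N e))))))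
      (T.X trX (T.N (T.N e))))
    (wb := DL.grp (DT.get c.tw (dkey (T.kx (T.I (T.N (T.N e)))) (T.jx (T.I (T.N (T.N e))))))
      (T.X trX (T.N (T.N e))))
    (r0 := DL.grp (DT.get c.rt (dkey (T.kx (T.I (T.N (T.N e)))) (T.jx (T.I (T.N (T.N e)))))) 0)
    (r1 := DL.grp (DT.get c.rt (dkey (T.kx (T.I (T.N (T.N e)))) (T.jx (T.I (T.N (T.N e)))))) 1)
    (r2 := DL.grp (DT.get c.rt (dkey (T.kx (T.I (T.N (T.N e)))) (T.jx (T.I (T.N (T.N e)))))) 2)
    (tc := DT.get c.t (dkey (T.kx (T.I (T.N (T.I (T.N (T.N e))))))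
      (T.jx (T.I (T.N (T.I (T.N (T.N e))))))))
    (wc := DT.get c.tw (dkey (T.kx (T.I (T.N (T.I (T.N (T.N e))))))
      (T.jx (T.I (T.N (T.I (T.N (T.N e))))))))
    (x := T.X trX (T.I (T.N e))) (o := T.Ot (T.N e)) (w := T.wT c (T.N e))
    (S := T.sS c (T.N e)) hX (fun h6 => by rw [T.wT_eq ha h6, e2, e3])
    (fun h6 => by unfold sS; rw [e2, e3, e5])
  have h5 := h2 (T.Ot (T.N e))
  have e20 : X + T.rU c (T.N e) + T.rW c (T.N e) = X +
      (if T.hT c (T.N e) = 0 then 0 else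
        6 * ((T.sP c (T.N e) : ℤ) - T.dl c.t (T.N e)) - T.wT c (T.N e) * T.sS c (T.N e)) +
      (if T.hZ c e = 0 then 0 else
        6 * ((T.dl c.tw (T.I (T.N (T.N e))) : ℤ) - T.rv c 1 (T.I (T.N (T.N e))))) +
      (if T.hZ c (T.N e) = 0 then 0 else
        6 * ((T.dl c.tw (T.I (T.N (T.I (T.N (T.N e))))) : ℤ) - T.rv c 2 (T.I (T.N (T.N e))))) := by
    unfold rU rW
    rw [N_inv_N]
    ring
  rw [← e7, ← e8, ← e9, ← e10, ← e20] at h4
  refine ⟨M', E', _, _, h1, ?_, fun h6 => ?_, fun h6 => ?_⟩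
  · unfold rA
    rw [fl0_eq, fl0_eq, fl0_eq, fl0_eq]
    by_cases h6 : T.hT c (T.N e) = 0
    · by_cases h7 : T.hZ c (T.N e) = 0
      · rw [if_pos h6, if_pos h6, if_pos h6, if_pos h7, if_pos h7, if_pos h7]
        push_cast
        simp
      · rw [if_pos h6, if_pos h6, if_pos h6, if_neg h7, if_neg h7, if_neg h7]
        simp only [Nat.mul_eq, Nat.add_eq]
        push_cast
        ring
    · by_cases h7 : T.hZ c (T.N e) = 0
      · rw [if_neg h6, if_neg h6, if_neg h6, if_pos h7, if_pos h7, if_pos h7]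
        simp only [Nat.mul_eq, Nat.add_eq]
        push_cast
        ring
      · rw [if_neg h6, if_neg h6, if_neg h6, if_neg h7, if_neg h7, if_neg h7]
        simp only [Nat.mul_eq, Nat.add_eq]
        push_cast
        ring
  · have h7 := T.rZ_le0 h6
    have h8 := le_trans h4 (Int.ofNat_le.2 h5)
    linarith
  · have h10 : T.hZ c (T.N e) ≠ 0 := h6.1
    have w2 : T.win c.zt (T.bk (T.N e)) = DL.val (DL.tl (DT.get c.zt
        (zkey (T.kx (T.bk (T.N e))) (T.jx (T.bk (T.N e))) (T.jx (T.I (T.N (T.N e)))))))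
        (T.Ot (T.N e)) (T.Ot (T.N (T.N e))) := by
      have e11 : T.zr c.zt (T.bk (T.N e)) = DT.get c.zt
          (zkey (T.kx (T.bk (T.N e))) (T.jx (T.bk (T.N e))) (T.jx (T.I (T.N (T.N e))))) := by
        unfold zr
        rw [T.rs_tri hbT, N_bk, T.rs_tri hb]
      have e12 : T.I (T.bk (T.N e)) = T.N (T.I (T.N (T.N (T.N e)))) := by
        rw [hbe, I_I]
      rw [T.win_tri hbT hb1]
      show DL.val (T.zr c.zt (T.bk (T.N e))) _ _ = _
      rw [← e11, N_bk, e12]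
      cases hrb : T.zr c.zt (T.bk (T.N e)) with
      | nil => rfl
      | g x' r' l' =>
        rw [DL.val_tail (hx _ hrb) (T.X_lt _)]
        rfl
    have w3 : DL.val (flL (T.hZ c (T.N e)) (DL.tl (DT.get c.zt
        (zkey (T.kx (T.bk (T.N e))) (T.jx (T.bk (T.N e))) (T.jx (T.I (T.N (T.N e))))))))
        (T.Ot (T.N e)) (T.Ot (T.N (T.N e))) = T.win c.zt (T.bk (T.N e)) := by
      rw [val_flL, if_neg h10, w2]
    have h11 := h3 (T.Ot (T.N e)) (T.Ot (T.N (T.N e))) (by rw [w3]; exact h6.2)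
    refine ⟨_, h11, ?_⟩
    rw [w3]
    push_cast
    refine add_le_add h4 (T.rZ_le h10 ?_)
    have r1 := T.rv_eq (c := c) 1 hn2
    rw [T.Ot_eq] at r1
    have r2 := T.dl_snd c.tw hn
    rw [fl0_eq, fl0_eq, if_neg h10, if_neg h10, ← e9, ← r1, ← e10, ← r2]
    unfold sR
    simp only [Nat.add_eq, Nat.sub_eq]
    omega

theorem grC_sound {e : F} {X : ℤ} {M : ℕ} {E : DR} {A B : ℕ} {K : ℕ → ℕ → DR → ℕ → ℕ → Bool}
    (hx : ∀ (a : F) {x : ℕ} {r : DR} {l : DL}, T.zr c.zt a = DL.g x r l →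
      Nat.ble 1048576 x = true) (hi : T.RInv (T.N e) X M E)
    (h : grC c (T.kx e) (T.sO e) (T.kx (T.N e)) (T.ox (T.N e)) (T.sO (T.N e))
      (T.kx (T.N (T.N e))) (T.ox (T.N (T.N e))) (T.sO (T.N (T.N e)))
      (T.kx (T.N (T.N (T.N e)))) (T.sO (T.N (T.N (T.N e)))) (T.hZ c e) M E A B K = true) :
    T.RStep c (T.N e) X A B K := by
  by_cases ha : T.Tri (T.N e)
  · unfold grC at h
    rw [T.ble_sO_tri ha, rIf_false] at h
    by_cases hn : T.Tri (T.N (T.N e))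
    · rw [T.ble_sO_tri hn, rIf_false] at h
      exact T.grT_sound hx ha hn hi h
    · rw [T.ble_sO_big hn, rIf_true] at h
      exact T.grQ_sound ha hn hi h
  · unfold grC at h
    rw [T.ble_sO_big ha, rIf_true] at h
    have f1 : T.hT c (T.N e) = 0 := if_neg ha
    have f2 : T.hZ c (T.N e) = 0 := by
      by_contra h1
      exact ha (T.tri_of_hZ h1).1
    have f3 : T.rW c (T.N e) = 0 := by
      unfold rW
      rw [N_inv_N]
      refine if_pos ?_
      by_contra h1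
      exact ha (T.tri_of_hZ h1).2
    have f4 : T.rZ c (T.N e) = 0 := if_pos f2
    refine ⟨M, DR.nil, A, B, by rw [f2]; exact h, ?_, fun _ => ?_, fun h1 => absurd f2 h1.1⟩
    · unfold rA
      rw [if_pos f1, if_pos f2]
      ring
    · unfold rU
      rw [if_pos f1, if_pos f2, f3, f4]
      have := hi.2 ha
      linarith

end SMap

end Pool.Agent.Lib.MP_5854e1_co
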