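import Pool.Agent.Lib.MP_5854e1_co.RingJ
import Pool.Agent.Lib.MP_5854e1_co.RingMap
import Pool.Agent.Lib.MP_5854e1_co.JntS

/-!
# The ring of a cell of a map of strips, with listed shares
-/

set_option autoImplicit false

open Equiv Equiv.Perm

namespace Pool.Agent.Lib.MP_5854e1_co

open PB CE CE.Cell

/-- The new value in the terms of the map; `P` is the share of the star. -/
theorem step_leJ {h hT hR sp sm : ℕ} {tb wb r0 r1 r2 pr : DR} {tc wc : DL} {x D o w : ℕ}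
    {X S P : ℤ} (hX : X ≤ D)
    (hw : hT ≠ 0 → w = 6 / (DR.val tb o % 2 + DL.val tc o x % 2 + 1))
    (hS : hT ≠ 0 → S = max 0 ((sp + DR.val r0 o : ℤ) - (sm + (DR.val tb o + DL.val tc o x))))
    (hP0 : DR.val pr o = 0 → P = if hT = 0 then 0 else w * S)
    (hP1 : DR.val pr o ≠ 0 → P = (DR.val pr o : ℤ) - 1) :
    X + ((if hT = 0 then 0 else 6 * ((sp : ℤ) - sm)) - P) +
      (if h = 0 then 0 else 6 * ((DR.val wb o : ℤ) - DR.val r1 o)) +
      (if hR = 0 then 0 else 6 * ((DL.val wc o x : ℤ) - DR.val r2 o)) ≤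
    (CnJ (fl0 hT sp) (fl0 hT sm) (flR hT tb) (flR h wb) (flR hT r0) (flR h r1) (flR hR r2) pr
      (flL hT tc) (flL hR wc) x D o : ℤ) := by
  have key := le_CnJ (sa := fl0 hT sp) (sb := fl0 hT sm) (tb := flR hT tb) (wb := flR h wb)
    (r0 := flR hT r0) (r1 := flR h r1) (r2 := flR hR r2) (pr := pr) (tc := flL hT tc)
    (wc := flL hR wc) (x := x) (o := o) (P := P) hX (fun h1 => by
      rw [hP0 h1]
      simp only [val_flR, val_flL, fl0_eq]
      by_cases h2 : hT = 0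
      · simp [h2]
      · rw [if_neg h2, if_neg h2, if_neg h2, if_neg h2, if_neg h2, if_neg h2, hw h2, hS h2])
    (fun h1 => by rw [hP1 h1, Nat.cast_sub (Nat.one_le_iff_ne_zero.2 h1)]; rfl)
  refine le_trans ?_ key
  simp only [val_flR, val_flL, fl0_eq]
  by_cases h1 : hT = 0
  · by_cases h2 : h = 0
    · by_cases h3 : hR = 0
      · simp [h1, h2, h3]
      · simp [h1, h2, h3]
    · by_cases h3 : hR = 0
      · simp [h1, h2, h3]
      · simp [h1, h2, h3]
  · by_cases h2 : h = 0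
    · by_cases h3 : hR = 0
      · simp [h1, h2, h3]
      · simp [h1, h2, h3]
    · by_cases h3 : hR = 0
      · simp [h1, h2, h3]
      · simp [h1, h2, h3]

namespace SMap

variable {F : Type*} (T : SMap F) {c : Tabs} {qt pt : DT}

/-! ### The amounts of a corner -/

/-- The share of a star, from the tables. -/
noncomputable def pS (c : Tabs) (pt : DT) (a : F) : ℤ :=
  if T.px' pt a = 0 then (if T.hT c a = 0 then 0 else T.wT c a * T.sS c a)
  else (T.px' pt a : ℤ) - 1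

/-- The share of a region, from the tables. -/
noncomputable def qS (c : Tabs) (qt : DT) (a : F) : ℤ :=
  if T.qx qt a = 0 then (if T.hZ c a = 0 then 0 else T.wR c a * max 0 (T.sR c a))
  else (T.qx qt a : ℤ) - 1

/-- The loss of the triangle of a corner and of the strip after it, at the corner. -/
noncomputable def jU (c : Tabs) (pt : DT) (a : F) : ℤ :=
  ((if T.hT c a = 0 then 0 else 6 * ((T.sP c a : ℤ) - T.dl c.t a)) - T.pS c pt a) +
    (if T.hZ c a = 0 then 0 else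
      6 * ((T.dl c.tw (T.I (T.N (T.I (T.N a)))) : ℤ) - T.rv c 2 (T.I (T.N a))))

/-- The loss by the window at the other end of the strip after a corner. -/
noncomputable def jZ (c : Tabs) (qt : DT) (a : F) : ℤ :=
  (if T.hZ c a = 0 then 0 else 6 * (T.sR c a + T.win c.zt (T.bk a))) - T.qS c qt a

/-- **The shares of the triangle and of the region after a corner.** -/
theorem ring_localJ (hM : c.MapR T) (hr : DT.all (rtR c.zt) c.rt = true) (a : F)
    (h0 : 0 ≤ T.slT c a) (h1 : 0 ≤ T.slR c a) :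
    T.rA c a - T.jU c pt a - T.rW c (T.N a) - T.jZ c qt a ≤
      T.PJ c pt a + T.QJ c qt a := by
  have key1 : T.pS c pt a ≤ T.PJ c pt a := by
    unfold pS PJ
    split_ifs with h2 h3
    · exact mul_nonneg (Int.natCast_nonneg _) h0
    · exact mul_le_mul_of_nonneg_left (T.sS_le hr (T.tri_of_hT h3) h0) (Int.natCast_nonneg _)
    · exact le_rfl
  have key2 : T.qS c qt a ≤ T.QJ c qt a := by
    unfold qS QJ
    split_ifs with h2 h3
    · exact mul_nonneg (Int.natCast_nonneg _) h1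
    · have h4 := T.tri_of_hZ h3
      exact mul_le_mul_of_nonneg_left (max_le h1 (T.sR_le hM hr h4.1 h4.2))
        (Int.natCast_nonneg _)
    · exact le_rfl
  have key3 : T.rA c a - T.jU c pt a - T.rW c (T.N a) - T.jZ c qt a =
      T.pS c pt a + T.qS c qt a := by
    unfold rA jU rW jZ
    rw [N_inv_N]
    by_cases h2 : T.hT c a = 0
    · by_cases h3 : T.hZ c a = 0
      · rw [if_pos h2, if_pos h3, if_pos h3, if_pos h3, if_pos h3]
        ring
      · rw [if_pos h2, if_neg h3, if_neg h3, if_neg h3, if_neg h3]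
        unfold sR
        ring
    · by_cases h3 : T.hZ c a = 0
      · rw [if_neg h2, if_pos h3, if_pos h3, if_pos h3, if_pos h3]
        ring
      · rw [if_neg h2, if_neg h3, if_neg h3, if_neg h3, if_neg h3]
        unfold sR
        ring
  rw [key3]
  exact add_le_add key1 key2

/-! ### A step -/

theorem px'_eq {a : F} (ha : T.Tri a) : T.px' pt a =
    DR.val (DL.grp (DT.get pt (dkey (T.kx a) (T.jx a))) (dkey (T.X trX (T.I a))
      (T.X trX (T.N a)))) (T.Ot a) := by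
  rw [T.px'_tri ha, T.rs_tri ha]
  rfl

theorem qx_eq {a : F} (ha : T.Tri a) (hn : T.Tri (T.N a)) : T.qx qt a =
    DR.val (DL.grp (DT.get qt (zkey (T.kx a) (T.jx a) (T.jx (T.N a))))
      (dkey (T.X trX (T.N (T.N a))) (T.X trX (T.I a)))) (dkey (T.Ot a) (T.Ot (T.N a))) := by
  have e1 : T.I (T.bk a) = T.N (T.I (T.N (T.N a))) := by
    rw [T.bk_tri hn, I_I]
  rw [T.qx_tri ha hn, e1]
  unfold sgr
  rw [T.rs_tri ha, T.rs_tri hn]
  rfl

theorem jZ_unl {a : F} (h : T.qx qt a = 0) : T.jZ c qt a = T.rZ c a := by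
  unfold jZ rZ qS
  rw [if_pos h]
  split_ifs
  · ring
  · ring

/-- What is known after the step at a corner. -/
def JEnd (c : Tabs) (qt : DT) (a : F) (X : ℤ) (M : ℕ) (E : DR) : Prop :=
  (¬((T.hZ c a ≠ 0 ∧ T.win c.zt (T.bk a) ≠ 0) ∨ T.qx qt a ≠ 0) → X ≤ M) ∧
    ((T.hZ c a ≠ 0 ∧ T.win c.zt (T.bk a) ≠ 0) ∨ T.qx qt a ≠ 0 →
      ∃ v : ℕ, DR.In (T.Ot (T.N a)) v E ∧ X ≤ v)

theorem JEnd.inv {T : SMap F} {a : F} {X : ℤ} {M : ℕ} {E : DR} (h : T.JEnd c qt a X M E) :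
    T.RInv (T.N a) X M E := by
  refine ⟨fun _ => ?_, fun hn => ?_⟩
  · by_cases hz : (T.hZ c a ≠ 0 ∧ T.win c.zt (T.bk a) ≠ 0) ∨ T.qx qt a ≠ 0
    · obtain ⟨v, h1, h2⟩ := h.2 hz
      exact le_trans h2 (by exact_mod_cast (DR.le_mxe _ E M).2 v h1)
    · exact le_trans (h.1 hz) (by exact_mod_cast (DR.le_mxe _ E M).1)
  · exact h.1 fun h1 => hn (h1.elim (fun h2 => (T.tri_of_hZ h2.1).2) fun h2 => (T.tri_of_qx h2).2)

/-- The claim of a step. -/
def JStep (c : Tabs) (qt pt : DT) (a : F) (X : ℤ) (A B : ℕ)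
    (K : ℕ → ℕ → DR → ℕ → ℕ → Bool) : Prop :=
  ∃ (M' : ℕ) (E' : DR) (A' B' : ℕ), K (T.hZ c a) M' E' A' B' = true ∧
    (A' : ℤ) - B' = A - B + T.rA c a ∧
      T.JEnd c qt a (X + T.jU c pt a + T.rW c a + T.jZ c qt a) M' E'

theorem gjQ_sound {e : F} {X : ℤ} {M : ℕ} {E : DR} {A B : ℕ} {K : ℕ → ℕ → DR → ℕ → ℕ → Bool}
    (ha : T.Tri (T.N e)) (hn : ¬T.Tri (T.N (T.N e))) (hi : T.RInv (T.N e) X M E)
    (h : gjQ c pt (T.kx e) (T.sO e) (T.kx (T.N e)) (T.ox (T.N e)) (T.sO (T.N e)) (T.hZ c e)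
      M E A B K = true) : T.JStep c qt pt (T.N e) X A B K := by
  have hb := T.tri_rot ha
  have hc := T.tri_rot hb
  have hX := hi.le
  have hx1 : T.X trX (T.N (T.N e)) = 0 := T.X_big trX hn
  have hz0 : T.hZ c (T.N e) = 0 := by
    by_contra h1
    exact hn (T.tri_of_hZ h1).2
  unfold gjQ at h
  simp only [rForce_eq] at h
  rw [T.sO_tri ha, T.x0_eq, ← T.rot_k (T.N e), ← T.rot_j ha, ← T.rot_o ha, T.farK_eq ha,
    T.t3A_jx ha, ← T.rot_j hb] at h
  have e0 := T.cST_eq (c := c) ha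
  have e1 := T.dl_fst c.t ha
  rw [hx1] at e0 e1
  rw [e0, ← e1, T.mod_hT ha] at h
  obtain ⟨M', E', h1, h2, -⟩ := rgStepJ_sound h
  have e2 := T.dl_snd c.t ha
  have e3 := T.dl_trd c.t ha
  have e5 := T.rv_eq (c := c) 0 hb
  have e7 := T.dl_snd c.tw ha
  have e8 := T.rv_eq (c := c) 1 hb
  rw [hx1] at e2 e7
  rw [T.Ot_eq] at e5 e8
  refine ⟨M', E', A + Nat.mul 6 (fl0 (T.hT c (T.N e)) (T.sP c (T.N e))),
    B + Nat.mul 6 (fl0 (T.hT c (T.N e)) (T.dl c.t (T.N e))), ?_, ?_, fun _ => ?_,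
    fun h5 => (h5.elim (fun h6 => absurd hz0 h6.1) fun h6 => absurd (T.tri_of_qx h6).2 hn)⟩
  · rw [hz0]
    exact h1
  · unfold rA
    rw [if_pos hz0, fl0_eq, fl0_eq]
    by_cases h6 : T.hT c (T.N e) = 0
    · rw [if_pos h6, if_pos h6, if_pos h6]
      push_cast
      simp
    · rw [if_neg h6, if_neg h6, if_neg h6]
      simp only [Nat.mul_eq]
      push_cast
      ring
  · have hq : T.qx qt (T.N e) = 0 := T.qx_right hn
    have hz : T.jZ c qt (T.N e) ≤ 0 := by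
      rw [T.jZ_unl hq]
      exact T.rZ_le0 (c := c) (a := T.N e) fun h5 => h5.1 hz0
    have e9 := T.px'_eq (pt := pt) ha
    rw [hx1] at e9
    have h4 := step_leJ (hR := 0) (r2 := DR.nil) (wc := DL.nil) (h := T.hZ c e)
      (pr := DL.grp (DT.get pt (dkey (T.kx (T.N e)) (T.jx (T.N e))))
        (dkey (T.X trX (T.I (T.N e))) 0))
      (hT := T.hT c (T.N e)) (sp := T.sP c (T.N e)) (sm := T.dl c.t (T.N e))
      (tb := DL.grp (DT.get c.t (dkey (T.kx (T.I (T.N (T.N e)))) (T.jx (T.I (T.N (T.N e)))))) 0)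
      (wb := DL.grp (DT.get c.tw (dkey (T.kx (T.I (T.N (T.N e)))) (T.jx (T.I (T.N (T.N e)))))) 0)
      (r0 := DL.grp (DT.get c.rt (dkey (T.kx (T.I (T.N (T.N e)))) (T.jx (T.I (T.N (T.N e)))))) 0)
      (r1 := DL.grp (DT.get c.rt (dkey (T.kx (T.I (T.N (T.N e)))) (T.jx (T.I (T.N (T.N e)))))) 1)
      (tc := DT.get c.t (dkey (T.kx (T.I (T.N (T.I (T.N (T.N e))))))
        (T.jx (T.I (T.N (T.I (T.N (T.N e))))))))
      (x := T.X trX (T.I (T.N e))) (o := T.Ot (T.N e)) (w := T.wT c (T.N e))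
      (S := T.sS c (T.N e)) (P := T.pS c pt (T.N e)) hX
      (fun h6 => by rw [T.wT_eq ha h6, e2, e3])
      (fun h6 => by unfold sS; rw [e2, e3, e5])
      (fun h6 => by unfold pS; rw [if_pos (e9.trans h6)])
      (fun h6 => by unfold pS; rw [if_neg (fun h7 => h6 (e9.symm.trans h7)), e9])
    have h5 := h2 (T.Ot (T.N e))
    have h6 : X + T.jU c pt (T.N e) + T.rW c (T.N e) ≤ M' := by
      refine le_trans ?_ (le_trans h4 (by exact_mod_cast h5))
      unfold jU rW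
      rw [if_pos hz0, if_pos rfl, N_inv_N, e7, e8]
      simp only [add_zero, le_refl]
    linarith

theorem gjT_sound {e : F} {X : ℤ} {M : ℕ} {E : DR} {A B : ℕ} {K : ℕ → ℕ → DR → ℕ → ℕ → Bool}
    (hx : ∀ (a : F) {x : ℕ} {r : DR} {l : DL}, T.zr c.zt a = DL.g x r l →
      Nat.ble 1048576 x = true)
    (ha : T.Tri (T.N e)) (hn : T.Tri (T.N (T.N e))) (hi : T.RInv (T.N e) X M E)
    (h : gjT c qt pt (T.kx e) (T.sO e) (T.kx (T.N e)) (T.ox (T.N e)) (T.sO (T.N e))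
      (T.kx (T.N (T.N e))) (T.ox (T.N (T.N e))) (T.sO (T.N (T.N e)))
      (T.kx (T.N (T.N (T.N e)))) (T.sO (T.N (T.N (T.N e)))) (T.hZ c e) M E A B K = true) :
    T.JStep c qt pt (T.N e) X A B K := by
  have hb := T.tri_rot ha
  have hc := T.tri_rot hb
  have hn2 := T.tri_rot hn
  have hX := hi.le
  unfold gjT at h
  simp only [rForce_eq] at h
  rw [T.sO_tri ha, T.sO_tri hn, T.x0_eq, T.x1_eq (T.N (T.N (T.N e))),
    ← T.rot_k (T.N e), ← T.rot_j ha, ← T.rot_o ha, T.farK_eq ha,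
    T.t3A_jx ha, ← T.rot_j hb, ← T.rot_k (T.N (T.N e)), ← T.rot_j hn, ← T.rot_o hn,
    T.farK_eq hn, T.t3A_jx hn, ← T.rot_j hn2] at h
  have hx1 : xrT trX (T.kx (T.N (T.N e))) (T.jx (T.N (T.N e))) = T.X trX (T.N (T.N e)) := by
    rw [← T.sO_tri hn]
    exact T.x1_eq _
  rw [hx1] at h
  have hbT : T.Tri (T.bk (T.N e)) := (T.tri_bk (T.N e)).2 hn
  have hb1 : T.Tri (T.N (T.bk (T.N e))) := (T.tri_N_bk (T.N e)).2 ha
  have hbe := T.bk_tri hn
  have hbk : T.I (T.N (T.I (T.N (T.N (T.N e))))) = T.bk (T.N e) := hbe.symm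
  have w1 : DL.val (DT.get c.zt
      (zkey (T.kx (T.N e)) (T.jx (T.N e)) (T.jx (T.N (T.N e)))))
        (T.X trX (T.N (T.N (T.N e)))) (T.X trX (T.I (T.N e))) = T.win c.zt (T.N e) := by
    rw [T.win_tri ha hn, T.rs_tri ha, T.rs_tri hn]
  have e13 : Nat.mod (T.win c.zt (T.N e)) (nat_lit 2) = T.hZ c (T.N e) := rfl
  rw [hbk, w1, T.cST_eq (c := c) ha, ← T.dl_fst c.t ha, T.mod_hT ha, e13,
    T.cRA_eq (c := c) ha hn, T.cRB_eq (c := c) ha hn] at h
  obtain ⟨M', E', h1, h2, h3, h3j⟩ := rgStepJ_sound h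
  have e2 := T.dl_snd c.t ha
  have e3 := T.dl_trd c.t ha
  have e5 := T.rv_eq (c := c) 0 hb
  have e7 := T.dl_snd c.tw ha
  have e8 := T.rv_eq (c := c) 1 hb
  have e9 := T.rv_eq (c := c) 2 hb
  have e10 := T.dl_trd c.tw ha
  rw [T.Ot_eq] at e5 e8 e9
  have e11 := T.px'_eq (pt := pt) ha
  have e12 := T.qx_eq (qt := qt) ha hn
  have h4 := step_leJ (hR := T.hZ c (T.N e)) (h := T.hZ c e)
    (pr := DL.grp (DT.get pt (dkey (T.kx (T.N e)) (T.jx (T.N e))))
      (dkey (T.X trX (T.I (T.N e))) (T.X trX (T.N (T.N e)))))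
    (hT := T.hT c (T.N e)) (sp := T.sP c (T.N e)) (sm := T.dl c.t (T.N e))
    (tb := DL.grp (DT.get c.t (dkey (T.kx (T.I (T.N (T.N e)))) (T.jx (T.I (T.N (T.N e))))))
      (T.X trX (T.N (T.N e))))
    (wb := DL.grp (DT.get c.tw (dkey (T.kx (T.I (T.N (T.N e)))) (T.jx (T.I (T.N (T.N e))))))
      (T.X trX (T.N (T.N e))))
    (r0 := DL.grp (DT.get c.rt (dkey (T.kx (T.I (T.N (T.N e)))) (T.jx (T.I (T.N (T.N e)))))) 0)
    (r1 := DL.grp (DT.get c.rt (dkey (T.kx (T.I (T.N (T.N e)))) (T.jx (T.I (T.N (T.N e)))))) 1)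
    (r2 := DL.grp (DT.get c.rt (dkey (T.kx (T.I (T.N (T.N e)))) (T.jx (T.I (T.N (T.N e)))))) 2)
    (tc := DT.get c.t (dkey (T.kx (T.I (T.N (T.I (T.N (T.N e))))))
      (T.jx (T.I (T.N (T.I (T.N (T.N e))))))))
    (wc := DT.get c.tw (dkey (T.kx (T.I (T.N (T.I (T.N (T.N e))))))
      (T.jx (T.I (T.N (T.I (T.N (T.N e))))))))
    (x := T.X trX (T.I (T.N e))) (o := T.Ot (T.N e)) (w := T.wT c (T.N e))
    (S := T.sS c (T.N e)) (P := T.pS c pt (T.N e)) hX
    (fun h6 => by rw [T.wT_eq ha h6, e2, e3])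
    (fun h6 => by unfold sS; rw [e2, e3, e5])
    (fun h6 => by unfold pS; rw [if_pos (e11.trans h6)])
    (fun h6 => by unfold pS; rw [if_neg (fun h7 => h6 (e11.symm.trans h7)), e11])
  have h5 := h2 (T.Ot (T.N e))
  have e20 : X + T.jU c pt (T.N e) + T.rW c (T.N e) = X +
      ((if T.hT c (T.N e) = 0 then 0 else
        6 * ((T.sP c (T.N e) : ℤ) - T.dl c.t (T.N e))) - T.pS c pt (T.N e)) +
      (if T.hZ c e = 0 then 0 else
        6 * ((T.dl c.tw (T.I (T.N (T.N e))) : ℤ) - T.rv c 1 (T.I (T.N (T.N e))))) +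
      (if T.hZ c (T.N e) = 0 then 0 else
        6 * ((T.dl c.tw (T.I (T.N (T.I (T.N (T.N e))))) : ℤ) - T.rv c 2 (T.I (T.N (T.N e))))) := by
    unfold jU rW
    rw [N_inv_N]
    ring
  rw [← e7, ← e8, ← e9, ← e10, ← e20] at h4
  refine ⟨M', E', _, _, h1, ?_, fun h6 => ?_, fun h6 => ?_⟩
  · unfold rA
    rw [fl0_eq, fl0_eq, fl0_eq, fl0_eq]
    by_cases h6 : T.hT c (T.N e) = 0
    · by_cases h7 : T.hZ c (T.N e) = 0
      · rw [if_pos h6, if_pos h6, if_pos h6, if_pos h7, if_pos h7, if_pos h7]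
        push_cast
        simp
      · rw [if_pos h6, if_pos h6, if_pos h6, if_neg h7, if_neg h7, if_neg h7]
        simp only [Nat.mul_eq, Nat.add_eq]
        push_cast
        ring
    · by_cases h7 : T.hZ c (T.N e) = 0
      · rw [if_neg h6, if_neg h6, if_neg h6, if_pos h7, if_pos h7, if_pos h7]
        simp only [Nat.mul_eq, Nat.add_eq]
        push_cast
        ring
      · rw [if_neg h6, if_neg h6, if_neg h6, if_neg h7, if_neg h7, if_neg h7]
        simp only [Nat.mul_eq, Nat.add_eq]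
        push_cast
        ring
  · have h7 : T.qx qt (T.N e) = 0 := by
      by_contra h8
      exact h6 (Or.inr h8)
    rw [T.jZ_unl h7]
    have h9 := T.rZ_le0 (c := c) (a := T.N e) fun h8 => h6 (Or.inl h8)
    have h8 := le_trans h4 (Int.ofNat_le.2 h5)
    linarith
  · have r1 := T.rv_eq (c := c) 1 hn2
    rw [T.Ot_eq] at r1
    have r2 := T.dl_snd c.tw hn
    by_cases h7 : T.qx qt (T.N e) = 0
    · have h6' := h6.resolve_right fun h8 => h8 h7
      have h10 : T.hZ c (T.N e) ≠ 0 := h6'.1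
      rw [e12] at h7
      have w2 : T.win c.zt (T.bk (T.N e)) = DL.val (DL.tl (DT.get c.zt
          (zkey (T.kx (T.bk (T.N e))) (T.jx (T.bk (T.N e))) (T.jx (T.I (T.N (T.N e)))))))
          (T.Ot (T.N e)) (T.Ot (T.N (T.N e))) := by
        have e11 : T.zr c.zt (T.bk (T.N e)) = DT.get c.zt
            (zkey (T.kx (T.bk (T.N e))) (T.jx (T.bk (T.N e))) (T.jx (T.I (T.N (T.N e))))) := by
          unfold zr
          rw [T.rs_tri hbT, N_bk, T.rs_tri hb]
        have e12 : T.I (T.bk (T.N e)) = T.N (T.I (T.N (T.N (T.N e)))) := by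
          rw [hbe, I_I]
        rw [T.win_tri hbT hb1]
        show DL.val (T.zr c.zt (T.bk (T.N e))) _ _ = _
        rw [← e11, N_bk, e12]
        cases hrb : T.zr c.zt (T.bk (T.N e)) with
        | nil => rfl
        | g x' r' l' =>
          rw [DL.val_tail (hx _ hrb) (T.X_lt _)]
          rfl
      have w3 : DL.val (flL (T.hZ c (T.N e)) (DL.tl (DT.get c.zt
          (zkey (T.kx (T.bk (T.N e))) (T.jx (T.bk (T.N e))) (T.jx (T.I (T.N (T.N e))))))))
          (T.Ot (T.N e)) (T.Ot (T.N (T.N e))) = T.win c.zt (T.bk (T.N e)) := by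
        rw [val_flL, if_neg h10, w2]
      have h11 := h3 (T.Ot (T.N e)) (T.Ot (T.N (T.N e))) h7 (by rw [w3]; exact h6'.2)
      refine ⟨_, h11, ?_⟩
      rw [w3]
      push_cast
      rw [T.jZ_unl (e12.trans h7)]
      refine add_le_add h4 (T.rZ_le h10 ?_)
      rw [fl0_eq, fl0_eq, if_neg h10, if_neg h10, ← e9, ← r1, ← e10, ← r2]
      unfold sR
      simp only [Nat.add_eq, Nat.sub_eq]
      omega
    · have h7' := h7
      rw [e12] at h7'
      have h11 := h3j (T.Ot (T.N e)) (T.Ot (T.N (T.N e))) (T.X_lt13 _) h7'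
      refine ⟨_, h11, ?_⟩
      rw [← e12]
      unfold jZ qS
      rw [if_neg h7]
      generalize CnJ _ _ _ _ _ _ _ _ _ _ _ _ _ = V at h4 ⊢
      rw [fl0_eq, ← e9, ← r1, ← e10, ← r2]
      have h13 : 1 ≤ T.qx qt (T.N e) := Nat.one_le_iff_ne_zero.2 h7
      by_cases h14 : T.hZ c (T.N e) = 0
      · rw [if_pos h14, if_pos h14]
        omega
      · rw [if_neg h14, if_neg h14, fl0_eq, fl0_eq, if_neg h14, if_neg h14]
        have h15 : T.sR c (T.N e) + T.win c.zt (T.bk (T.N e)) =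
            (T.pP c (T.N e) + (T.rv c 2 (T.I (T.N (T.N e))) +
              T.rv c 1 (T.I (T.N (T.N (T.N e))))) : ℤ) -
            (T.pM c (T.N e) + (T.dl c.tw (T.I (T.N (T.I (T.N (T.N e))))) +
              T.dl c.tw (T.I (T.N (T.N (T.N e)))))) := by
          unfold sR
          ring
        rw [h15]
        simp only [Nat.add_eq, Nat.sub_eq]
        omega

theorem gjC_sound {e : F} {X : ℤ} {M : ℕ} {E : DR} {A B : ℕ} {K : ℕ → ℕ → DR → ℕ → ℕ → Bool}
    (hx : ∀ (a : F) {x : ℕ} {r : DR} {l : DL}, T.zr c.zt a = DL.g x r l →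
      Nat.ble 1048576 x = true) (hi : T.RInv (T.N e) X M E)
    (h : gjC c qt pt (T.kx e) (T.sO e) (T.kx (T.N e)) (T.ox (T.N e)) (T.sO (T.N e))
      (T.kx (T.N (T.N e))) (T.ox (T.N (T.N e))) (T.sO (T.N (T.N e)))
      (T.kx (T.N (T.N (T.N e)))) (T.sO (T.N (T.N (T.N e)))) (T.hZ c e) M E A B K = true) :
    T.JStep c qt pt (T.N e) X A B K := by
  by_cases ha : T.Tri (T.N e)
  · unfold gjC at h
    rw [T.ble_sO_tri ha, rIf_false] at h
    by_cases hn : T.Tri (T.N (T.N e))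
    · rw [T.ble_sO_tri hn, rIf_false] at h
      exact T.gjT_sound hx ha hn hi h
    · rw [T.ble_sO_big hn, rIf_true] at h
      exact T.gjQ_sound ha hn hi h
  · unfold gjC at h
    rw [T.ble_sO_big ha, rIf_true] at h
    have f1 : T.hT c (T.N e) = 0 := if_neg ha
    have f2 : T.hZ c (T.N e) = 0 := by
      by_contra h1
      exact ha (T.tri_of_hZ h1).1
    have f3 : T.rW c (T.N e) = 0 := by
      unfold rW
      rw [N_inv_N]
      refine if_pos ?_
      by_contra h1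
      exact ha (T.tri_of_hZ h1).2
    have f5 : T.qx qt (T.N e) = 0 := T.qx_left ha
    have f6 : T.px' pt (T.N e) = 0 := T.px'_big ha
    have f4 : T.jZ c qt (T.N e) = 0 := by
      rw [T.jZ_unl f5]
      exact if_pos f2
    refine ⟨M, DR.nil, A, B, by rw [f2]; exact h, ?_, fun _ => ?_,
      fun h1 => h1.elim (fun h2 => absurd f2 h2.1) fun h2 => absurd f5 h2⟩
    · unfold rA
      rw [if_pos f1, if_pos f2]
      ring
    · unfold jU pS
      rw [if_pos f1, if_pos f2, if_pos f6, if_pos f1, f3, f4]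
      have := hi.2 ha
      linarith

end SMap

end Pool.Agent.Lib.MP_5854e1_co
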