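import Pool.Agent.Lib.MP_5854e1_co.RingMap

/-!
# The test of the rings around a cell is sound
-/

set_option autoImplicit false

open Equiv Equiv.Perm

namespace Pool.Agent.Lib.MP_5854e1_co

open Finset PB CE CE.Cell

universe u

/-- The path of `n` corners from the corner `t`. -/
def pw (k o s : ℕ → ℕ) : ℕ → ℕ → Pth
  | _, 0 => Pth.nil
  | t, n + 1 => Pth.cons (k t) (o t) (s t) (pw k o s (t + 1) n)

theorem pt_eq_pw {b : ℕ} {k o s : ℕ → ℕ} : ∀ n ≤ b, pt b k o s n = pw k o s (b + 1 - n) n := by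
  intro n
  induction n with
  | zero => exact fun _ => rfl
  | succ n ih =>
    intro hn
    have e1 : b + 1 - (n + 1) = b - n := by omega
    have e2 : b + 1 - n = b - n + 1 := by omega
    rw [e1]
    show Pth.cons (k (b - n)) (o (b - n)) (s (b - n)) (pt b k o s n) =
      Pth.cons (k (b - n)) (o (b - n)) (s (b - n)) (pw k o s (b - n + 1) n)
    rw [ih (by omega), e2]

theorem app_pw {k o s : ℕ → ℕ} (m : ℕ) : ∀ n t, Pth.app (pw k o s t n) (pw k o s (t + n) m) =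
    pw k o s t (n + m) := by
  intro n
  induction n with
  | zero =>
    intro t
    rw [Nat.zero_add, Nat.add_zero]
    rfl
  | succ n ih =>
    intro t
    have e1 : t + (n + 1) = t + 1 + n := by omega
    have e2 : n + 1 + m = n + m + 1 := by omega
    rw [e1, e2]
    show Pth.cons (k t) (o t) (s t) (Pth.app (pw k o s (t + 1) n) (pw k o s (t + 1 + n) m)) =
      Pth.cons (k t) (o t) (s t) (pw k o s (t + 1) (n + m))
    rw [ih]

theorem lst_pw {k o s : ℕ → ℕ} (f : ℕ → ℕ → ℕ → ℕ → Bool) : ∀ n t,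
    Pth.lst (pw k o s (t + 2) n) (k t) (s t) (k (t + 1)) (s (t + 1)) f =
      f (k (t + n)) (s (t + n)) (k (t + n + 1)) (s (t + n + 1)) := by
  intro n
  induction n with
  | zero => exact fun t => rfl
  | succ n ih =>
    intro t
    show Pth.lst (pw k o s (t + 1 + 2) n) (k (t + 1)) (s (t + 1)) (k (t + 1 + 1))
      (s (t + 1 + 1)) f = _
    rw [ih, show t + 1 + n = t + (n + 1) by omega]

namespace SMap

variable {F : Type*} (T : SMap F) {c : Tabs}

/-- The loss of a corner. -/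
noncomputable def rG (c : Tabs) (a : F) : ℤ := T.rU c a + T.rW c a + T.rZ c a

theorem goR_sound {d : F} {K : ℕ → DR → ℕ → ℕ → Bool}
    (hx : ∀ (a : F) {x : ℕ} {r : DR} {l : DL}, T.zr c.zt a = DL.g x r l →
      Nat.ble 1048576 x = true) (n : ℕ) : ∀ (t : ℕ) (X : ℤ) (M : ℕ) (E : DR) (A B : ℕ),
    T.RInv (T.N^[t + 1] d) X M E →
    goR c (pw (fun n => T.kx (T.N^[n] d)) (fun n => T.ox (T.N^[n] d)) (fun n => T.sO (T.N^[n] d))
      (t + 3) n) (T.kx (T.N^[t] d)) (T.sO (T.N^[t] d)) (T.kx (T.N^[t + 1] d))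
      (T.ox (T.N^[t + 1] d)) (T.sO (T.N^[t + 1] d)) (T.kx (T.N^[t + 2] d)) (T.ox (T.N^[t + 2] d))
      (T.sO (T.N^[t + 2] d)) (T.hZ c (T.N^[t] d)) M E A B K = true →
    ∃ (M' : ℕ) (E' : DR) (A' B' : ℕ), K M' E' A' B' = true ∧
      (A' : ℤ) - B' = A - B + ∑ i ∈ range n, T.rA c (T.N^[t + 1 + i] d) ∧
      ((n = 0 ∧ M' = M ∧ E' = E) ∨
        T.REnd c (T.N^[t + n] d) (X + ∑ i ∈ range n, T.rG c (T.N^[t + 1 + i] d)) M' E') := by
  induction n with
  | zero =>
    intro t X M E A B hi h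
    refine ⟨M, E, A, B, h, ?_, Or.inl ⟨rfl, rfl, rfl⟩⟩
    rw [Finset.range_zero, Finset.sum_empty, add_zero]
  | succ n ih =>
    intro t X M E A B hi h
    have e1 : T.N^[t + 1] d = T.N (T.N^[t] d) := Function.iterate_succ_apply' _ _ _
    have e2 : T.N^[t + 2] d = T.N (T.N^[t + 1] d) := Function.iterate_succ_apply' _ _ _
    have e3 : T.N^[t + 3] d = T.N (T.N^[t + 2] d) := Function.iterate_succ_apply' _ _ _
    have h' : grC c (T.kx (T.N^[t] d)) (T.sO (T.N^[t] d)) (T.kx (T.N^[t + 1] d))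
        (T.ox (T.N^[t + 1] d)) (T.sO (T.N^[t + 1] d)) (T.kx (T.N^[t + 2] d))
        (T.ox (T.N^[t + 2] d)) (T.sO (T.N^[t + 2] d)) (T.kx (T.N^[t + 3] d))
        (T.sO (T.N^[t + 3] d)) (T.hZ c (T.N^[t] d)) M E A B (fun h' M' E' A' B' =>
          goR c (pw (fun n => T.kx (T.N^[n] d)) (fun n => T.ox (T.N^[n] d))
            (fun n => T.sO (T.N^[n] d)) (t + 1 + 3) n) (T.kx (T.N^[t + 1] d))
            (T.sO (T.N^[t + 1] d)) (T.kx (T.N^[t + 2] d)) (T.ox (T.N^[t + 2] d))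
            (T.sO (T.N^[t + 2] d)) (T.kx (T.N^[t + 3] d)) (T.ox (T.N^[t + 3] d))
            (T.sO (T.N^[t + 3] d)) h' M' E' A' B' K) = true := h
    rw [e3, e2, e1] at h'
    rw [e1] at hi
    obtain ⟨M1, E1, A1, B1, h1, h2, h3⟩ := T.grC_sound hx hi h'
    rw [← e1, ← e2, ← e3] at h1
    rw [← e1] at h2 h3
    have hi1 := h3.inv
    rw [← e2] at hi1
    obtain ⟨M', E', A', B', g1, g2, g3⟩ := ih (t + 1) _ M1 E1 A1 B1 hi1 h1
    refine ⟨M', E', A', B', g1, ?_, Or.inr ?_⟩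
    · rw [g2, h2, Finset.sum_range_succ' _ n]
      have e4 : ∀ i, t + 1 + 1 + i = t + 1 + (i + 1) := fun i => by omega
      simp only [e4, Nat.add_zero]
      ring
    · rcases g3 with ⟨rfl, rfl, rfl⟩ | g3
      · rw [Finset.sum_range_one]
        have e5 : X + T.rG c (T.N^[t + 1 + 0] d) = X + T.rU c (T.N^[t + 1] d) +
            T.rW c (T.N^[t + 1] d) + T.rZ c (T.N^[t + 1] d) := by
          rw [Nat.add_zero]
          unfold rG
          ring
        rw [e5]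
        exact h3
      · have e6 : t + 1 + n = t + (n + 1) := by omega
        have e7 : X + ∑ i ∈ range (n + 1), T.rG c (T.N^[t + 1 + i] d) =
            X + T.rU c (T.N^[t + 1] d) + T.rW c (T.N^[t + 1] d) + T.rZ c (T.N^[t + 1] d) +
              ∑ i ∈ range n, T.rG c (T.N^[t + 1 + 1 + i] d) := by
          rw [Finset.sum_range_succ' _ n]
          have e4 : ∀ i, t + 1 + 1 + i = t + 1 + (i + 1) := fun i => by omega
          simp only [e4, Nat.add_zero]
          unfold rG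
          ring
        rw [e6] at g3
        rw [e7]
        exact g3

/-- **The test of the rings, for all outer tokens of the map.** -/
theorem ringC_sound {d : F} {m b : ℕ}
    (hx : ∀ (a : F) {x : ℕ} {r : DR} {l : DL}, T.zr c.zt a = DL.g x r l →
      Nat.ble 1048576 x = true) (hb : T.N^[b] d = d) (hb0 : 0 < b)
    (h : ringC c m (pw (fun n => T.kx (T.N^[n] d)) (fun n => T.ox (T.N^[n] d))
      (fun n => T.sO (T.N^[n] d)) 3 b) (T.kx (T.N^[0] d)) (T.sO (T.N^[0] d)) (T.kx (T.N^[1] d))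
      (T.ox (T.N^[1] d)) (T.sO (T.N^[1] d)) (T.kx (T.N^[2] d)) (T.ox (T.N^[2] d))
      (T.sO (T.N^[2] d)) (T.hZ c (T.N^[0] d)) = true) :
    6 * (m : ℤ) ≤ ∑ i ∈ range b, T.rA c (T.N^[1 + i] d) -
      ∑ i ∈ range b, T.rG c (T.N^[1 + i] d) := by
  unfold ringC at h
  have hi0 : T.RInv (T.N^[0 + 1] d) (offR : ℤ) offR DR.nil :=
    ⟨fun _ => by exact_mod_cast (DR.le_mxe _ _ _).1, fun _ => le_rfl⟩
  obtain ⟨M, E, A, B, h1, h2, h3⟩ := T.goR_sound hx b 0 _ _ _ _ _ hi0 h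
  obtain ⟨h4, h5⟩ := rAnd_iff.1 h1
  have h4' := Nat.le_of_ble_eq_true h4
  simp only [Nat.add_eq, Nat.mul_eq] at h4'
  have h3' := h3.resolve_left fun h6 => absurd h6.1 (by omega)
  simp only [Nat.zero_add] at h2 h3'
  rw [hb] at h3'
  by_cases hz : T.hZ c d ≠ 0 ∧ T.win c.zt (T.bk d) ≠ 0
  · obtain ⟨v, h6, -⟩ := h3'.2 hz
    have h7 := DR.all_in h5 h6
    have hz' := (T.tri_of_hZ hz.1).2
    have hi1 : T.RInv (T.N^[0 + 1] d) (offR : ℤ) (nat_lit 0)
        (DR.e (T.Ot (T.N d)) offR DR.nil) := by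
      refine ⟨fun _ => ?_, fun h8 => absurd hz' h8⟩
      have h9 := (DR.le_mxe (T.Ot (T.N^[0 + 1] d))
        (DR.e (T.Ot (T.N d)) offR DR.nil) (nat_lit 0)).2 offR (Or.inl ⟨rfl, rfl⟩)
      exact_mod_cast h9
    obtain ⟨M2, E2, A2, B2, g1, g2, g3⟩ := T.goR_sound hx b 0 _ _ _ _ _ hi1 h7
    have g3' := g3.resolve_left fun h6 => absurd h6.1 (by omega)
    have g1' := Nat.le_of_ble_eq_true g1
    simp only [Nat.add_eq, Nat.mul_eq] at g1'
    simp only [Nat.zero_add] at g2 g3'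
    rw [hb] at g3'
    obtain ⟨w, g4, g5⟩ := g3'.2 hz
    have g6 := (DR.le_mxe (T.Ot (T.N d)) E2 (nat_lit 0)).2 w g4
    have g7 : (w : ℤ) ≤ ((DR.mxe (T.Ot (T.N d)) E2 (nat_lit 0) : ℕ) : ℤ) := by exact_mod_cast g6
    zify at g1'
    push_cast at g2
    linarith
  · have h6 := h3'.1 hz
    zify at h4'
    push_cast at h2
    linarith

/-- The flag of a window. -/
theorem zfl_eq (a : F) : zfl c (T.kx a) (T.sO a) (T.kx (T.N a)) (T.sO (T.N a))
    (T.sO (T.N (T.N a))) (T.kx (T.N (T.N (T.N a)))) (T.sO (T.N (T.N (T.N a)))) =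
      T.hZ c (T.N a) := by
  unfold zfl
  by_cases ha : T.Tri (T.N a)
  · rw [T.ble_sO_tri ha, rIf_false]
    by_cases hn : T.Tri (T.N (T.N a))
    · rw [T.ble_sO_tri hn, rIf_false, T.x0_eq, T.x1_eq (T.N (T.N (T.N a))), T.sO_tri ha,
        T.sO_tri hn]
      unfold hZ
      rw [T.win_tri ha hn, T.rs_tri ha, T.rs_tri hn]
      rfl
    · rw [T.ble_sO_big hn, rIf_true]
      by_contra h1
      exact hn (T.tri_of_hZ (Ne.symm h1)).2
  · rw [T.ble_sO_big ha, rIf_true]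
    by_contra h1
    exact ha (T.tri_of_hZ (Ne.symm h1)).1

end SMap

open SMap in
/-- **The test of the rings around a cell is sound.** -/
theorem ring_ok {c : Tabs} {F : Type u} (h : c.OKR) (hM : ∀ T : SMap F, c.MapR T) :
    Tabs.RgS (F := F) (fun T a => T.wT c a * T.slT c a) (fun T d => T.wR c d * T.slR c d)
      (ring c) := by
  intro T d m hr
  have hx : ∀ (a : F) {x : ℕ} {r : DR} {l : DL}, T.zr c.zt a = DL.g x r l →
      Nat.ble 1048576 x = true := fun a x r l h1 => T.hdr_at h.reg h1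
  obtain ⟨b, hb⟩ : ∃ b, Function.minimalPeriod T.N d = b + 3 :=
    ⟨_, (Nat.sub_add_cancel (T.three d)).symm⟩
  have hp : T.N^[b + 3] d = d := by
    rw [← hb]
    exact Function.isPeriodicPt_minimalPeriod T.N d
  have hp' : ∀ i, T.N^[i + (b + 3)] d = T.N^[i] d := by
    intro i
    rw [Function.iterate_add_apply, hp]
  rw [hb]
  set k := fun n => T.kx (T.N^[n] d) with hk
  set o := fun n => T.ox (T.N^[n] d) with ho
  set s := fun n => T.sO (T.N^[n] d) with hs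
  have e0 : T.pthO d = Pth.cons (k 1) (o 1) (s 1) (Pth.cons (k 2) (o 2) (s 2)
      (pw k o s 3 (b + 1))) := by
    unfold pthO
    rw [hb, pt_eq_pw _ le_rfl, show b + 3 + 1 - (b + 3) = 1 by omega]
    rfl
  rw [e0] at hr
  have e1 : Pth.app (pw k o s 3 (b + 1)) (Pth.cons (k 1) (o 1) (s 1) (Pth.cons (k 2) (o 2) (s 2)
      Pth.nil)) = pw k o s 3 (b + 3) := by
    have e2 : Pth.cons (k 1) (o 1) (s 1) (Pth.cons (k 2) (o 2) (s 2) Pth.nil) =
        pw k o s (3 + (b + 1)) 2 := by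
      show _ = Pth.cons (k (3 + (b + 1))) (o (3 + (b + 1))) (s (3 + (b + 1)))
        (Pth.cons (k (3 + (b + 1) + 1)) (o (3 + (b + 1) + 1)) (s (3 + (b + 1) + 1)) Pth.nil)
      simp only [hk, ho, hs, show 3 + (b + 1) = 1 + (b + 3) by omega,
        show 1 + (b + 3) + 1 = 2 + (b + 3) by omega, hp']
    rw [e2, app_pw]
  have hr1 : Pth.lst (pw k o s (1 + 2) (b + 1)) (k 1) (s 1) (k (1 + 1)) (s (1 + 1))
      (fun ka sa kl sl => rForce (zfl c ka sa kl sl (s 1) (k 2) (s 2)) fun h =>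
      ringC c m (Pth.app (pw k o s 3 (b + 1)) (Pth.cons (k 1) (o 1) (s 1)
        (Pth.cons (k 2) (o 2) (s 2) Pth.nil))) kl sl (k 1) (o 1) (s 1) (k 2) (o 2) (s 2) h) =
      true := hr
  rw [lst_pw, e1, rForce_eq] at hr1
  have e3 : k (1 + (b + 1) + 1) = T.kx (T.N^[0] d) := by
    simp only [hk, show 1 + (b + 1) + 1 = 0 + (b + 3) by omega, hp']
  have e4 : s (1 + (b + 1) + 1) = T.sO (T.N^[0] d) := by
    simp only [hs, show 1 + (b + 1) + 1 = 0 + (b + 3) by omega, hp']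
  have e10 : zfl c (k (1 + (b + 1))) (s (1 + (b + 1))) (T.kx (T.N^[0] d)) (T.sO (T.N^[0] d))
      (s 1) (k 2) (s 2) = T.hZ c (T.N^[0] d) := by
    have e11 := T.zfl_eq (c := c) (T.N^[b + 2] d)
    have e12 : T.N (T.N^[b + 2] d) = d :=
      (Function.iterate_succ_apply' T.N (b + 2) d).symm.trans hp
    rw [e12] at e11
    have e13 : 1 + (b + 1) = b + 2 := by omega
    rw [e13]
    exact e11
  rw [e3, e4, e10] at hr1
  have h1 := T.ringC_sound hx hp (by omega) hr1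
  have h2 : ∑ i ∈ range (b + 3), (T.rA c (T.N^[i + 1] d) - T.rU c (T.N^[i + 1] d) -
      T.rW c (T.N (T.N^[i + 1] d)) - T.rZ c (T.N^[i + 1] d)) ≤
      ∑ i ∈ range (b + 3), (T.wT c (T.N^[i + 1] d) * T.slT c (T.N^[i + 1] d) +
        T.wR c (T.N^[i + 1] d) * T.slR c (T.N^[i + 1] d)) :=
    Finset.sum_le_sum fun i _ => T.ring_local (hM T) h.rsv _ (T.slT_nonneg h hM _)
      (T.slR_nonneg h hM _)
  refine le_trans ?_ h2
  have h3 : ∑ i ∈ range (b + 3), T.rW c (T.N (T.N^[i + 1] d)) =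
      ∑ i ∈ range (b + 3), T.rW c (T.N^[i + 1] d) := by
    have e5 : ∀ i, T.N (T.N^[i + 1] d) = T.N^[i + 1 + 1] d := fun i =>
      (Function.iterate_succ_apply' _ _ _).symm
    simp only [e5]
    have e6 := Finset.sum_range_succ (fun i => T.rW c (T.N^[i + 1] d)) (b + 3)
    have e7 := Finset.sum_range_succ' (fun i => T.rW c (T.N^[i + 1] d)) (b + 3)
    have e8 : T.N^[b + 3 + 1] d = T.N^[0 + 1] d := by
      rw [show b + 3 + 1 = 1 + (b + 3) by omega, hp']
    rw [e8] at e6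
    linarith
  rw [Finset.sum_sub_distrib, Finset.sum_sub_distrib, Finset.sum_sub_distrib, h3]
  have e9 : ∀ i, 1 + i = i + 1 := fun i => by omega
  simp only [e9] at h1
  unfold rG at h1
  rw [Finset.sum_add_distrib, Finset.sum_add_distrib] at h1
  linarith

end Pool.Agent.Lib.MP_5854e1_co
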