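import Pool.Agent.Lib.MP_5854e1_co.RingKD

/-!
# A step of the ring with further shares of the stars

The value of a token may be corrected by the further share of its star, which depends on the tokens
before and after it. The listed pairs `W` of tokens have their own values (plus one); the bound `B`
of the values of a token, for given gains of the token before it, is passed to the next corner.
-/

set_option autoImplicit false

open Equiv Equiv.Perm

namespace Pool.Agent.Lib.MP_5854e1_co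

open PB CE CE.Cell

noncomputable section

/-! ### Loops over rows -/

/-- The gains of the tokens before a corner: the entries of the right code `e` and of the further
token `xm`, with twice their values. -/
def DR.glf (xm e : ℕ) (r : DR) : (DR → Bool) → Bool :=
  DR.rec (motive := fun _ => (DR → Bool) → Bool) (fun K => K DR.nil)
    (fun c v _ ih K => rIf (Nat.beq (Nat.div c (nat_lit 67108864)) e)
      (rIf (Nat.beq (Nat.mod c (nat_lit 8192)) xm)
        (rForce (Nat.div (Nat.mod c (nat_lit 67108864)) (nat_lit 8192)) fun a =>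
          rForce (Nat.mul (nat_lit 2) v) fun w => ih fun g => K (DR.e a w g)) (ih K)) (ih K)) r

/-- The pairs of the token `o` with the tokens `x` of the group `r` are added to `W`. -/
def DR.kps (xp xm o : ℕ) (f : DR → ℕ → ℕ) (r0 r : DR) : DR → (DR → Bool) → Bool :=
  DR.rec (motive := fun _ => DR → (DR → Bool) → Bool) (fun W K => K W)
    (fun c _ _ ih W K => rForce (Nat.div c (nat_lit 67108864)) fun e =>
      rIf (Nat.beq (Nat.div e (nat_lit 8192)) xp)
        (rForce (Nat.mod e (nat_lit 8192)) fun x => rForce (dkey o x) fun d =>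
          rIf (Nat.beq (DR.val W d) (nat_lit 0))
            (DR.glf xm e r0 fun g => rForce (Nat.succ (f g x)) fun w => ih (DR.e d w W) K)
            (ih W K))
        (ih W K)) r

/-- The pairs of all groups of the corner are added to `W`. -/
def DL.kpl (x01 xp xm : ℕ) (f : ℕ → DR → ℕ → ℕ) (l0 l : DL) : DR → (DR → Bool) → Bool :=
  DL.rec (motive := fun _ => DR → (DR → Bool) → Bool) (fun W K => K W)
    (fun G r _ ih W K => rIf (Nat.beq (Nat.div G (nat_lit 8192)) x01)
      (rForce (Nat.mod G (nat_lit 8192)) fun o =>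
        DR.kps xp xm o (f o) (DL.grp l0 G) r W fun W' => ih W' K)
      (ih W K)) l

/-- The pairs of `ql` are added to `W`. -/
def DR.jps (g : ℕ → ℕ) (q : ℕ → ℕ → ℕ) (ql r : DR) : DR → (DR → Bool) → Bool :=
  DR.rec (motive := fun _ => DR → (DR → Bool) → Bool) (fun W K => K W)
    (fun e _ _ ih W K => rIf (Nat.beq (DR.val W e) (nat_lit 0))
      (rForce (DR.val ql e) fun v => rIf (Nat.beq v (nat_lit 0)) (ih W K)
        (rForce (Nat.div e (nat_lit 8192)) fun o => rForce (Nat.mod e (nat_lit 8192)) fun x =>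
          rForce (Nat.succ (Nat.sub (Nat.add (g o) (Nat.mul (nat_lit 3) (q o x))) (Nat.pred v)))
            fun w => ih (DR.e e w W) K))
      (ih W K)) r

/-- The second tokens of the pairs of `W` are added to `a`, with their values. -/
def DR.wps (W : DR) : DR → (DR → Bool) → Bool :=
  DR.rec (motive := fun _ => DR → (DR → Bool) → Bool) (fun a K => K a)
    (fun d w _ ih a K => rForce (Nat.mod d (nat_lit 8192)) fun x =>
      rForce (Nat.pred w) fun v => ih (DR.e x v a) K) W

/-- The values of the second tokens of the pairs of `r` without the first tokens of the pairs of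
`W` are added to `a`. -/
def DR.ovk (W E : DR) (M : ℕ) (S r : DR) : DR → (DR → Bool) → Bool :=
  DR.rec (motive := fun _ => DR → (DR → Bool) → Bool) (fun a K => K a)
    (fun e _ _ ih a K => rForce (Nat.mod e (nat_lit 8192)) fun x =>
      rIf (Nat.beq (DR.val a x) (nat_lit 0))
        (rForce (DR.mxe x E (DR.mxu W x S M)) fun w => ih (DR.e x w a) K) (ih a K)) r

/-- The maximum of `m` and the values of the tokens `o` of `S` without the pair `dkey o x` in `W`,
minus their gains. -/
def DR.mxg (W : DR) (x : ℕ) (gl : DR) (S : DR) : ℕ → ℕ :=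
  DR.rec (motive := fun _ => ℕ → ℕ) (fun m => m)
    (fun o v _ ih m => rIf (Nat.beq (DR.val W (dkey o x)) (nat_lit 0))
      (rForce (Nat.sub v (DR.val gl o)) fun u => rIf (Nat.ble m u) (ih u) (ih m)) (ih m)) S

/-- The maximum of `m` and the values of the pairs of the groups with the token `x`, minus their
gains. -/
def DL.mxz (W : DR) (x : ℕ) (gl : DR) (g : ℕ → ℕ) (l : DL) : ℕ → ℕ :=
  DL.rec (motive := fun _ => ℕ → ℕ) (fun m => m)
    (fun o r _ ih m => rForce (DR.val r x) fun z => rIf (Nat.beq z (nat_lit 0)) (ih m)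
      (rIf (Nat.beq (DR.val W (dkey o x)) (nat_lit 0))
        (rForce (Nat.sub (Nat.add (g o) (Nat.mul (nat_lit 3) z)) (DR.val gl o)) fun u =>
          rIf (Nat.ble m u) (ih u) (ih m)) (ih m))) l

/-- The maximum of `m` and the values of the pairs of `W` with the token `x`, minus their gains. -/
def DR.mxw (x : ℕ) (gl : DR) (W : DR) : ℕ → ℕ :=
  DR.rec (motive := fun _ => ℕ → ℕ) (fun m => m)
    (fun d w _ ih m => rIf (Nat.beq (Nat.mod d (nat_lit 8192)) x)
      (rForce (Nat.sub (Nat.pred w) (DR.val gl (Nat.div d (nat_lit 8192)))) fun u =>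
        rIf (Nat.ble m u) (ih u) (ih m)) (ih m)) W

end

/-! ### Soundness of the loops -/

theorem rIf_beq0 {α : Type} {n : ℕ} (h : n = 0) (x y : α) :
    rIf (Nat.beq n (nat_lit 0)) x y = x := by
  subst h
  rfl

theorem rIf_beq1 {α : Type} {n : ℕ} (h : n ≠ 0) (x y : α) :
    rIf (Nat.beq n (nat_lit 0)) x y = y := by
  cases n with
  | zero => exact absurd rfl h
  | succ n => rfl

theorem DR.val_e (y v : ℕ) (r : DR) (x : ℕ) :
    DR.val (DR.e y v r) x = if y = x then v else DR.val r x := by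
  have e1 : DR.val (DR.e y v r) x =
    Bool.rec (motive := fun _ => ℕ) (DR.val r x) v (Nat.beq y x) := rfl
  rw [e1]
  cases h : Nat.beq y x with
  | true => rw [if_pos (Nat.eq_of_beq_eq_true h)]
  | false =>
    rw [if_neg fun h1 => ?_]
    rw [h1] at h
    have h2 : Nat.beq x x = true := Nat.beq_refl x
    rw [h2] at h
    exact Bool.noConfusion h

/-- The list `g` contains at most twice the values of `r` at the codes of `e` and `xm`. -/
def KGn (xm e : ℕ) (r g : DR) : Prop :=
  ∀ a < 8192, DR.val g a = 2 * DR.val r (e * 67108864 + dkey a xm)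

theorem DR.glf_sound {xm e : ℕ} (hm : xm < 8192) {r : DR} : ∀ {K : DR → Bool},
    DR.glf xm e r K = true → ∃ g, K g = true ∧ KGn xm e r g := by
  induction r with
  | nil => exact fun {K} h => ⟨DR.nil, h, fun a _ => rfl⟩
  | e c v r ih =>
    intro K h
    have e1 : DR.glf xm e (DR.e c v r) K = rIf (Nat.beq (Nat.div c (nat_lit 67108864)) e)
      (rIf (Nat.beq (Nat.mod c (nat_lit 8192)) xm)
        (rForce (Nat.div (Nat.mod c (nat_lit 67108864)) (nat_lit 8192)) fun a =>
          rForce (Nat.mul (nat_lit 2) v) fun w => DR.glf xm e r fun g => K (DR.e a w g))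
        (DR.glf xm e r K)) (DR.glf xm e r K) := rfl
    rw [e1, rForce_eq, rForce_eq] at h
    have ed : ∀ a : ℕ, dkey a xm = xm + 8192 * a := fun a => rfl
    cases h1 : Nat.beq (Nat.div c (nat_lit 67108864)) e with
    | false =>
      rw [h1, rIf_false] at h
      obtain ⟨g, h2, h3⟩ := ih h
      refine ⟨g, h2, fun a ha => ?_⟩
      rw [DR.val_e, if_neg, h3 a ha]
      intro h4
      have h5 : Nat.div c (nat_lit 67108864) = e := by
        rw [h4, ed]
        show (e * 67108864 + (xm + 8192 * a)) / 67108864 = e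
        omega
      rw [h5, Nat.beq_refl] at h1
      exact Bool.noConfusion h1
    | true =>
      rw [h1, rIf_true] at h
      cases h6 : Nat.beq (Nat.mod c (nat_lit 8192)) xm with
      | false =>
        rw [h6, rIf_false] at h
        obtain ⟨g, h2, h3⟩ := ih h
        refine ⟨g, h2, fun a ha => ?_⟩
        rw [DR.val_e, if_neg, h3 a ha]
        intro h4
        have h5 : Nat.mod c (nat_lit 8192) = xm := by
          rw [h4, ed]
          show (e * 67108864 + (xm + 8192 * a)) % 8192 = xm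
          omega
        rw [h5, Nat.beq_refl] at h6
        exact Bool.noConfusion h6
      | true =>
        rw [h6, rIf_true] at h
        obtain ⟨g, h2, h3⟩ := ih h
        refine ⟨_, h2, fun a ha => ?_⟩
        have h7 : c / 67108864 = e := Nat.eq_of_beq_eq_true h1
        have h8 : c % 8192 = xm := Nat.eq_of_beq_eq_true h6
        rw [DR.val_e, DR.val_e, h3 a ha]
        have h9 : Nat.div (Nat.mod c (nat_lit 67108864)) (nat_lit 8192) = a ↔
            c = e * 67108864 + dkey a xm := by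
          rw [ed]
          show c % 67108864 / 8192 = a ↔ _
          omega
        by_cases h10 : c = e * 67108864 + dkey a xm
        · rw [if_pos (h9.2 h10), if_pos h10]
          rfl
        · rw [if_neg fun h11 => h10 (h9.1 h11), if_neg h10]

theorem DR.kps_sound {xp xm o : ℕ} (hm : xm < 8192) {f : DR → ℕ → ℕ} {r0 r : DR}
    {K : DR → Bool} : ∀ {W : DR}, DR.kps xp xm o f r0 r W K = true →
    ∃ W', K W' = true ∧ ∀ d, DR.val W' d = DR.val W d ∨
      ∃ x < 8192, ∃ g, d = dkey o x ∧ DR.val W' d = f g x + 1 ∧ KGn xm (dkey xp x) r0 g := by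
  induction r with
  | nil => exact fun {W} h => ⟨W, h, fun d => Or.inl rfl⟩
  | e c v r ih =>
    intro W h
    have e1 : DR.kps xp xm o f r0 (DR.e c v r) W K =
      rForce (Nat.div c (nat_lit 67108864)) fun e =>
      rIf (Nat.beq (Nat.div e (nat_lit 8192)) xp)
        (rForce (Nat.mod e (nat_lit 8192)) fun x => rForce (dkey o x) fun d =>
          rIf (Nat.beq (DR.val W d) (nat_lit 0))
            (DR.glf xm e r0 fun g => rForce (Nat.succ (f g x)) fun w =>
              DR.kps xp xm o f r0 r (DR.e d w W) K)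
            (DR.kps xp xm o f r0 r W K))
        (DR.kps xp xm o f r0 r W K) := rfl
    rw [e1, rForce_eq, rForce_eq, rForce_eq] at h
    cases h1 : Nat.beq (Nat.div (Nat.div c (nat_lit 67108864)) (nat_lit 8192)) xp with
    | false =>
      rw [h1, rIf_false] at h
      exact ih h
    | true =>
      rw [h1, rIf_true] at h
      by_cases h2 : DR.val W (dkey o (Nat.mod (Nat.div c (nat_lit 67108864)) (nat_lit 8192))) = 0
      · rw [rIf_beq0 h2] at h
        obtain ⟨g, h3, h4⟩ := DR.glf_sound hm h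
        rw [rForce_eq] at h3
        obtain ⟨W', h5, h6⟩ := ih h3
        refine ⟨W', h5, fun d => ?_⟩
        rcases h6 d with h7 | h7
        · rw [DR.val_e] at h7
          split_ifs at h7 with h8
          · right
            refine ⟨_, Nat.mod_lt _ (by norm_num), g, h8.symm, h7, ?_⟩
            have h9 : dkey xp (Nat.mod (Nat.div c (nat_lit 67108864)) (nat_lit 8192)) =
                Nat.div c (nat_lit 67108864) := by
              have h10 : c / 67108864 / 8192 = xp := Nat.eq_of_beq_eq_true h1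
              show c / 67108864 % 8192 + 8192 * xp = c / 67108864
              omega
            show KGn xm (dkey xp (Nat.mod (Nat.div c (nat_lit 67108864)) (nat_lit 8192))) r0 g
            rw [h9]
            exact h4
          · exact Or.inl h7
        · exact Or.inr h7
      · rw [rIf_beq1 h2] at h
        exact ih h

theorem DL.kpl_sound {x01 xp xm : ℕ} (hm : xm < 8192) {f : ℕ → DR → ℕ → ℕ} {l0 l : DL}
    {K : DR → Bool} : ∀ {W : DR}, DL.kpl x01 xp xm f l0 l W K = true →
    ∃ W', K W' = true ∧ ∀ d, DR.val W' d = DR.val W d ∨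
      ∃ o < 8192, ∃ x < 8192, ∃ g, d = dkey o x ∧ DR.val W' d = f o g x + 1 ∧
        KGn xm (dkey xp x) (DL.grp l0 (dkey x01 o)) g := by
  induction l with
  | nil => exact fun {W} h => ⟨W, h, fun d => Or.inl rfl⟩
  | g G r l ih =>
    intro W h
    have e1 : DL.kpl x01 xp xm f l0 (DL.g G r l) W K =
      rIf (Nat.beq (Nat.div G (nat_lit 8192)) x01)
      (rForce (Nat.mod G (nat_lit 8192)) fun o =>
        DR.kps xp xm o (f o) (DL.grp l0 G) r W fun W' => DL.kpl x01 xp xm f l0 l W' K)
      (DL.kpl x01 xp xm f l0 l W K) := rfl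
    rw [e1, rForce_eq] at h
    cases h1 : Nat.beq (Nat.div G (nat_lit 8192)) x01 with
    | false =>
      rw [h1, rIf_false] at h
      exact ih h
    | true =>
      rw [h1, rIf_true] at h
      have ho : Nat.mod G (nat_lit 8192) < 8192 := Nat.mod_lt _ (by norm_num)
      obtain ⟨W1, h2, h3⟩ := DR.kps_sound hm h
      obtain ⟨W', h4, h5⟩ := ih h2
      refine ⟨W', h4, fun d => ?_⟩
      have h6 : dkey x01 (Nat.mod G (nat_lit 8192)) = G := by
        have h7 : G / 8192 = x01 := Nat.eq_of_beq_eq_true h1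
        show G % 8192 + 8192 * x01 = G
        omega
      rcases h5 d with h7 | h7
      · rcases h3 d with h8 | ⟨x, hx, g, h9, h10, h11⟩
        · exact Or.inl (h7.trans h8)
        · refine Or.inr ⟨_, ho, x, hx, g, h9, h7.trans h10, ?_⟩
          rw [h6]
          exact h11
      · exact Or.inr h7

theorem DR.jps_sound {g : ℕ → ℕ} {q : ℕ → ℕ → ℕ} {ql r : DR} {K : DR → Bool} : ∀ {W : DR},
    DR.jps g q ql r W K = true → ∃ W', K W' = true ∧ (∀ d, DR.val W d ≠ 0 →
      DR.val W' d = DR.val W d) ∧ ∀ o x, x < 8192 → DR.val W (dkey o x) = 0 →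
        (DR.val W' (dkey o x) = 0 ∧ (DR.val ql (dkey o x) = 0 ∨ ¬∃ v, DR.In (dkey o x) v r)) ∨
        (DR.val ql (dkey o x) ≠ 0 ∧
          DR.val W' (dkey o x) = (g o + 3 * q o x - (DR.val ql (dkey o x) - 1)) + 1) := by
  induction r with
  | nil => exact fun {W} h => ⟨W, h, fun d _ => rfl, fun o x _ h1 =>
      Or.inl ⟨h1, Or.inr fun h2 => h2.elim fun _ h3 => h3⟩⟩
  | e e v r ih =>
    intro W h
    have e1 : DR.jps g q ql (DR.e e v r) W K = rIf (Nat.beq (DR.val W e) (nat_lit 0))
      (rForce (DR.val ql e) fun v => rIf (Nat.beq v (nat_lit 0)) (DR.jps g q ql r W K)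
        (rForce (Nat.div e (nat_lit 8192)) fun o => rForce (Nat.mod e (nat_lit 8192)) fun x =>
          rForce (Nat.succ (Nat.sub (Nat.add (g o) (Nat.mul (nat_lit 3) (q o x))) (Nat.pred v)))
            fun w => DR.jps g q ql r (DR.e e w W) K))
      (DR.jps g q ql r W K) := rfl
    rw [e1, rForce_eq, rForce_eq, rForce_eq, rForce_eq] at h
    by_cases h1 : DR.val W e = 0
    · rw [rIf_beq0 h1] at h
      by_cases h0 : DR.val ql e = 0
      · rw [rIf_beq0 h0] at h
        obtain ⟨W', h2, h3, h4⟩ := ih h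
        refine ⟨W', h2, h3, fun o x hx hd => ?_⟩
        rcases h4 o x hx hd with ⟨h5, h6⟩ | h5
        · refine Or.inl ⟨h5, ?_⟩
          by_cases h7 : e = dkey o x
          · rw [h7] at h0
            exact Or.inl h0
          · refine h6.imp_right fun h8 h9 => h8 ?_
            obtain ⟨w, h9⟩ := h9
            rcases h9 with ⟨h10, -⟩ | h10
            · exact absurd h10 h7
            · exact ⟨w, h10⟩
        · exact Or.inr h5
      · rw [rIf_beq1 h0] at h
        obtain ⟨W', h2, h3, h4⟩ := ih h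
        refine ⟨W', h2, fun d hd => ?_, fun o x hx hd => ?_⟩
        · have h5 : DR.val (DR.e e (Nat.succ (Nat.sub (Nat.add (g (Nat.div e (nat_lit 8192)))
              (Nat.mul (nat_lit 3) (q (Nat.div e (nat_lit 8192)) (Nat.mod e (nat_lit 8192)))))
                (Nat.pred (DR.val ql e)))) W) d = DR.val W d := by
            rw [DR.val_e, if_neg]
            intro h6
            rw [← h6] at hd
            exact hd h1
          rw [h3 d (by rw [h5]; exact hd), h5]
        · by_cases h6 : e = dkey o x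
          · right
            have h7 : DR.val (DR.e e (Nat.succ (Nat.sub (Nat.add (g (Nat.div e (nat_lit 8192)))
              (Nat.mul (nat_lit 3) (q (Nat.div e (nat_lit 8192)) (Nat.mod e (nat_lit 8192)))))
                (Nat.pred (DR.val ql e)))) W) (dkey o x) =
                  (g o + 3 * q o x - (DR.val ql (dkey o x) - 1)) + 1 := by
              rw [DR.val_e, if_pos h6]
              have h8 : Nat.div e (nat_lit 8192) = o := by
                rw [h6]
                exact (dkey_parts hx).1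
              have h9 : Nat.mod e (nat_lit 8192) = x := by
                rw [h6]
                exact (dkey_parts hx).2
              rw [h8, h9, h6]
              rfl
            have h8 := h3 (dkey o x) (by rw [h7]; exact Nat.succ_ne_zero _)
            rw [h6] at h0
            exact ⟨h0, h8.trans h7⟩
          · have h7 : DR.val (DR.e e (Nat.succ (Nat.sub (Nat.add (g (Nat.div e (nat_lit 8192)))
              (Nat.mul (nat_lit 3) (q (Nat.div e (nat_lit 8192)) (Nat.mod e (nat_lit 8192)))))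
                (Nat.pred (DR.val ql e)))) W) (dkey o x) = 0 := by
              rw [DR.val_e, if_neg h6]
              exact hd
            rcases h4 o x hx h7 with ⟨h8, h9⟩ | h8
            · refine Or.inl ⟨h8, h9.imp_right fun h10 h11 => h10 ?_⟩
              obtain ⟨w, h11⟩ := h11
              rcases h11 with ⟨h12, -⟩ | h12
              · exact absurd h12 h6
              · exact ⟨w, h12⟩
            · exact Or.inr h8
    · rw [rIf_beq1 h1] at h
      obtain ⟨W', h2, h3, h4⟩ := ih h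
      refine ⟨W', h2, h3, fun o x hx hd => ?_⟩
      have h6 : e ≠ dkey o x := fun h6 => h1 (by rw [h6]; exact hd)
      rcases h4 o x hx hd with ⟨h8, h9⟩ | h8
      · refine Or.inl ⟨h8, h9.imp_right fun h10 h11 => h10 ?_⟩
        obtain ⟨w, h11⟩ := h11
        rcases h11 with ⟨h12, -⟩ | h12
        · exact absurd h12 h6
        · exact ⟨w, h12⟩
      · exact Or.inr h8

theorem DR.wps_sound {W : DR} {K : DR → Bool} : ∀ {a : DR}, DR.wps W a K = true →
    ∃ a', K a' = true ∧ (∀ x v, DR.In x v a → DR.In x v a') ∧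
      ∀ d w, DR.In d w W → DR.In (d % 8192) (w - 1) a' := by
  induction W with
  | nil => exact fun {a} h => ⟨a, h, fun x v h1 => h1, fun d w h1 => absurd h1 (fun h1 => h1)⟩
  | e d0 w0 W ih =>
    intro a h
    have e1 : DR.wps (DR.e d0 w0 W) a K = rForce (Nat.mod d0 (nat_lit 8192)) fun x =>
      rForce (Nat.pred w0) fun v => DR.wps W (DR.e x v a) K := rfl
    rw [e1, rForce_eq, rForce_eq] at h
    obtain ⟨a', h1, h2, h3⟩ := ih h
    refine ⟨a', h1, fun x v hx => h2 x v (Or.inr hx), fun d w hd => ?_⟩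
    rcases hd with ⟨rfl, rfl⟩ | hd
    · exact h2 _ _ (Or.inl ⟨rfl, rfl⟩)
    · exact h3 d w hd

theorem DR.ovk_sound {W E : DR} {M : ℕ} {S r : DR} {K : DR → Bool} : ∀ {a : DR},
    DR.ovk W E M S r a K = true → ∃ a', K a' = true ∧
      ∀ x v, DR.In x v a' → DR.In x v a ∨ v = DR.mxe x E (DR.mxu W x S M) := by
  induction r with
  | nil => exact fun {a} h => ⟨a, h, fun x v h1 => Or.inl h1⟩
  | e y w r ih =>
    intro a h
    have e1 : DR.ovk W E M S (DR.e y w r) a K = rForce (Nat.mod y (nat_lit 8192)) fun x =>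
      rIf (Nat.beq (DR.val a x) (nat_lit 0))
      (rForce (DR.mxe x E (DR.mxu W x S M)) fun w' => DR.ovk W E M S r (DR.e x w' a) K)
      (DR.ovk W E M S r a K) := rfl
    rw [e1, rForce_eq, rForce_eq] at h
    by_cases h0 : DR.val a (Nat.mod y (nat_lit 8192)) = 0
    · rw [rIf_beq0 h0] at h
      obtain ⟨a', h1, h2⟩ := ih h
      refine ⟨a', h1, fun x v hx => ?_⟩
      rcases h2 x v hx with h3 | h3
      · rcases h3 with ⟨h4, h5⟩ | h3
        · right
          rw [← h5, ← h4]
        · exact Or.inl h3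
      · exact Or.inr h3
    · rw [rIf_beq1 h0] at h
      exact ih h

theorem DR.le_mxg (W : DR) (x : ℕ) (gl S : DR) : ∀ m : ℕ, m ≤ DR.mxg W x gl S m ∧
    ∀ o v, DR.val W (dkey o x) = 0 → DR.In o v S → v - DR.val gl o ≤ DR.mxg W x gl S m := by
  induction S with
  | nil => exact fun m => ⟨le_rfl, fun o v _ h => absurd h (fun h => h)⟩
  | e y w S ih =>
    intro m
    have e1 : DR.mxg W x gl (DR.e y w S) m = rIf (Nat.beq (DR.val W (dkey y x)) (nat_lit 0))
      (rForce (Nat.sub w (DR.val gl y)) fun u => rIf (Nat.ble m u) (DR.mxg W x gl S u)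
        (DR.mxg W x gl S m)) (DR.mxg W x gl S m) := rfl
    rw [e1, rForce_eq]
    by_cases hb : DR.val W (dkey y x) = 0
    · rw [rIf_beq0 hb]
      obtain ⟨h1, h2⟩ := rIf_max_le (m := m) (v := Nat.sub w (DR.val gl y))
        (fun m => (ih m).1)
      refine ⟨h1, fun o v h0 hx => ?_⟩
      rcases hx with ⟨rfl, rfl⟩ | hx
      · exact h2
      · exact rIf_of_both (P := fun z => v - DR.val gl o ≤ z) ((ih _).2 o v h0 hx)
          ((ih m).2 o v h0 hx)
    · rw [rIf_beq1 hb]
      refine ⟨(ih m).1, fun o v h0 hx => ?_⟩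
      rcases hx with ⟨rfl, rfl⟩ | hx
      · exact absurd h0 hb
      · exact (ih m).2 o v h0 hx

theorem DL.le_mxz (W : DR) (x : ℕ) (gl : DR) (g : ℕ → ℕ) (l : DL) : ∀ m : ℕ,
    m ≤ DL.mxz W x gl g l m ∧ ∀ o, DR.val W (dkey o x) = 0 → DL.val l o x ≠ 0 →
      g o + 3 * DL.val l o x - DR.val gl o ≤ DL.mxz W x gl g l m := by
  induction l with
  | nil => exact fun m => ⟨le_rfl, fun o _ h => absurd rfl h⟩
  | g y r l ih =>
    intro m
    have e1 : DL.mxz W x gl g (DL.g y r l) m = rForce (DR.val r x) fun z =>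
      rIf (Nat.beq z (nat_lit 0)) (DL.mxz W x gl g l m)
      (rIf (Nat.beq (DR.val W (dkey y x)) (nat_lit 0))
        (rForce (Nat.sub (Nat.add (g y) (Nat.mul (nat_lit 3) z)) (DR.val gl y)) fun u =>
          rIf (Nat.ble m u) (DL.mxz W x gl g l u) (DL.mxz W x gl g l m))
        (DL.mxz W x gl g l m)) := rfl
    rw [e1, rForce_eq, rForce_eq]
    by_cases hz : DR.val r x = 0
    · rw [rIf_beq0 hz]
      refine ⟨(ih m).1, fun o h0 hx => ?_⟩
      rw [DL.val_g] at hx ⊢
      cases h3 : Nat.beq y o with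
      | false =>
        rw [h3] at hx
        exact (ih m).2 o h0 hx
      | true =>
        rw [h3] at hx
        exact absurd hz hx
    · rw [rIf_beq1 hz]
      by_cases hb : DR.val W (dkey y x) = 0
      · rw [rIf_beq0 hb]
        obtain ⟨h1, h2⟩ := rIf_max_le (m := m) (v := Nat.sub (Nat.add (g y)
          (Nat.mul (nat_lit 3) (DR.val r x))) (DR.val gl y)) (fun m => (ih m).1)
        refine ⟨h1, fun o h0 hx => ?_⟩
        rw [DL.val_g] at hx ⊢
        cases h3 : Nat.beq y o with
        | false =>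
          rw [h3] at hx
          exact rIf_of_both (P := fun z => g o + 3 * DL.val l o x - DR.val gl o ≤ z)
            ((ih _).2 o h0 hx) ((ih m).2 o h0 hx)
        | true =>
          have h4 := Nat.eq_of_beq_eq_true h3
          rw [← h4]
          exact h2
      · rw [rIf_beq1 hb]
        refine ⟨(ih m).1, fun o h0 hx => ?_⟩
        rw [DL.val_g] at hx ⊢
        cases h3 : Nat.beq y o with
        | false =>
          rw [h3] at hx
          exact (ih m).2 o h0 hx
        | true =>
          have h4 := Nat.eq_of_beq_eq_true h3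
          rw [h4] at hb
          exact absurd h0 hb

theorem DR.le_mxw (x : ℕ) (gl W : DR) : ∀ m : ℕ, m ≤ DR.mxw x gl W m ∧
    ∀ o w, x < 8192 → DR.In (dkey o x) w W → w - 1 - DR.val gl o ≤ DR.mxw x gl W m := by
  induction W with
  | nil => exact fun m => ⟨le_rfl, fun o w _ h => absurd h (fun h => h)⟩
  | e d w W ih =>
    intro m
    have e1 : DR.mxw x gl (DR.e d w W) m = rIf (Nat.beq (Nat.mod d (nat_lit 8192)) x)
      (rForce (Nat.sub (Nat.pred w) (DR.val gl (Nat.div d (nat_lit 8192)))) fun u =>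
        rIf (Nat.ble m u) (DR.mxw x gl W u) (DR.mxw x gl W m)) (DR.mxw x gl W m) := rfl
    rw [e1, rForce_eq]
    cases hb : Nat.beq (Nat.mod d (nat_lit 8192)) x with
    | true =>
      rw [rIf_true]
      obtain ⟨h1, h2⟩ := rIf_max_le (m := m) (v := Nat.sub (Nat.pred w)
        (DR.val gl (Nat.div d (nat_lit 8192)))) (fun m => (ih m).1)
      refine ⟨h1, fun o v h0 hx => ?_⟩
      rcases hx with ⟨h3, rfl⟩ | hx
      · have h4 : Nat.div d (nat_lit 8192) = o := by
          rw [h3]
          exact (dkey_parts h0).1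
        rw [h4] at h2 ⊢
        exact h2
      · exact rIf_of_both (P := fun z => v - 1 - DR.val gl o ≤ z) ((ih _).2 o v h0 hx)
          ((ih m).2 o v h0 hx)
    | false =>
      rw [rIf_false]
      refine ⟨(ih m).1, fun o v h0 hx => ?_⟩
      rcases hx with ⟨h3, rfl⟩ | hx
      · have h4 : Nat.mod d (nat_lit 8192) = x := by
          rw [h3]
          exact (dkey_parts h0).2
        rw [h4, Nat.beq_refl] at hb
        exact Bool.noConfusion hb
      · exact (ih m).2 o v h0 hx

/-! ### A step -/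

noncomputable section

/-- The value of the pair `o`, `x` if the token `o` has the value `D`: `ql` are the listed pairs, `q`
is the rest of the region of a listed pair, `zb` are the windows of the other end. -/
def pvK (sa sb : ℕ) (tb tc wb wc r0 r1 r2 pr ql : DR) (zb : DL) (q : ℕ → ℕ → ℕ)
    (D o x : ℕ) : ℕ :=
  rForce (CnP sa sb tb tc wb wc r0 r1 r2 pr D o) fun C =>
  rForce (DR.val ql (dkey o x)) fun v =>
  rIf (Nat.beq v (nat_lit 0)) (Nat.add C (Nat.mul (nat_lit 3) (DL.val zb o x)))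
    (Nat.sub (Nat.add C (Nat.mul (nat_lit 3) (q o x))) (Nat.pred v))

/-- The bound of the value of the token `x`, for the gains `gl` of the tokens before it. -/
def nxK (g : ℕ → ℕ) (zb : DL) (M : ℕ) (S W gl : DR) (x : ℕ) : ℕ :=
  DR.mxw x gl W (DL.mxz W x gl g zb (DR.mxg W x gl S M))

/-- The step at a corner of a triangle: `kr` are the further shares of the corner, `x01` are the
tokens of its two strips, `xp` and `xm` the tokens of the second face after and before it. -/
def rgStepK (sa sb : ℕ) (tb tc wb wc r0 r1 r2 pr ql : DR) (zb : DL) (q : ℕ → ℕ → ℕ)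
    (kr : DL) (x01 xp xm cA cB M : ℕ) (E V : DR) (B : DR → ℕ → ℕ) (A A2 : ℕ)
    (K : ℕ → DR → DR → (DR → ℕ → ℕ) → ℕ → ℕ → Bool) : Bool :=
  cndP (fun o => CnP sa sb tb tc wb wc r0 r1 r2 pr (DR.lkv o E M V) o) tb tc wb wc pr E V M
    fun S =>
  rForce (DR.mxv (fun v _ => v) S M) fun M' =>
  rForce (Nat.add A cA) fun A' => rForce (Nat.add A2 cB) fun B' =>
  DL.kpl x01 xp xm (fun o gl x =>
    pvK sa sb tb tc wb wc r0 r1 r2 pr ql zb q (B gl o) o x) kr kr DR.nil fun W1 =>
  DR.jps (fun o => CnP sa sb tb tc wb wc r0 r1 r2 pr (DR.lkv o E M V) o) q ql ql W1 fun W =>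
  DL.pp (fun o => CnP sa sb tb tc wb wc r0 r1 r2 pr (DR.lkv o E M V) o) W zb DR.nil fun E1 =>
  DR.wps W E1 fun E' =>
  DR.ovk W E' M S W DR.nil fun V' =>
  K M' E' V' (nxK (fun o => CnP sa sb tb tc wb wc r0 r1 r2 pr (DR.lkv o E M V) o) zb M S W) A' B'

end

theorem pvK_eq {sa sb : ℕ} {tb tc wb wc r0 r1 r2 pr ql : DR} {zb : DL} {q : ℕ → ℕ → ℕ}
    {D o x : ℕ} : pvK sa sb tb tc wb wc r0 r1 r2 pr ql zb q D o x =
      if DR.val ql (dkey o x) = 0 then
        CnP sa sb tb tc wb wc r0 r1 r2 pr D o + 3 * DL.val zb o x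
      else CnP sa sb tb tc wb wc r0 r1 r2 pr D o + 3 * q o x - (DR.val ql (dkey o x) - 1) := by
  unfold pvK
  rw [rForce_eq, rForce_eq]
  split_ifs with h
  · rw [rIf_beq0 h]
    rfl
  · rw [rIf_beq1 h]
    rfl

theorem rgStepK_sound {sa sb : ℕ} {tb tc wb wc r0 r1 r2 pr ql : DR} {zb : DL} {q : ℕ → ℕ → ℕ}
    {kr : DL} {x01 xp xm cA cB M : ℕ} {E V : DR} {B : DR → ℕ → ℕ} {A A2 : ℕ}
    {K : ℕ → DR → DR → (DR → ℕ → ℕ) → ℕ → ℕ → Bool} (hm : xm < 8192)
    (h : rgStepK sa sb tb tc wb wc r0 r1 r2 pr ql zb q kr x01 xp xm cA cB M E V B A A2 K = true) :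
    ∃ M' E' V' B', K M' E' V' B' (A + cA) (A2 + cB) = true ∧
      ∀ o o', o' < 8192 → ∃ D, (D = DR.lkv o E M V ∨ ∃ gl, D = B gl o ∧
        KGn xm (dkey xp o') (DL.grp kr (dkey x01 o)) gl) ∧
        pvK sa sb tb tc wb wc r0 r1 r2 pr ql zb q D o o' ≤ DR.lkv o' E' M' V' ∧
        (pvK sa sb tb tc wb wc r0 r1 r2 pr ql zb q D o o' ≤ M' ∨ ∃ v, DR.In o' v E' ∧
          pvK sa sb tb tc wb wc r0 r1 r2 pr ql zb q D o o' ≤ v) ∧
        ∀ gl, pvK sa sb tb tc wb wc r0 r1 r2 pr ql zb q D o o' ≤ B' gl o' + DR.val gl o := by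
  unfold rgStepK at h
  set f := fun o => CnP sa sb tb tc wb wc r0 r1 r2 pr (DR.lkv o E M V) o with hf
  obtain ⟨S, h1, h2⟩ := cndP_sound h
  rw [rForce_eq, rForce_eq, rForce_eq] at h1
  obtain ⟨W1, h3, h4⟩ := DL.kpl_sound hm h1
  obtain ⟨W, h5, h6, h7⟩ := DR.jps_sound h3
  obtain ⟨E1, h8, -, h9⟩ := DL.pp_sound h5
  obtain ⟨E', h10, h11, h12⟩ := DR.wps_sound h8
  obtain ⟨V', h13, h14⟩ := DR.ovk_sound h10
  set M' := DR.mxv (fun v _ => v) S M with hM'
  have a1 := DR.le_mxv (fun v _ => v) S M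
  -- all tokens
  have key : ∀ o, f o ≤ M ∨ DR.In o (f o) S := by
    intro o
    by_cases ho : (∃ v, DR.In o v tb) ∨ (∃ v, DR.In o v tc) ∨ (∃ v, DR.In o v wb) ∨
        (∃ v, DR.In o v wc) ∨ (∃ v, DR.In o v pr) ∨ (∃ v, DR.In o v E) ∨ (∃ v, DR.In o v V)
    · exact h2 o ho
    · left
      simp only [not_or] at ho
      obtain ⟨n1, n2, n3, n4, n5, n6, n7⟩ := ho
      have e1 := (DR.val_or_in tb o).resolve_right n1
      have e2 := (DR.val_or_in tc o).resolve_right n2
      have e3 := (DR.val_or_in wb o).resolve_right n3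
      have e4 := (DR.val_or_in wc o).resolve_right n4
      have e5 := (DR.val_or_in pr o).resolve_right n5
      have e6 : DR.lkv o E M V = M := by
        rcases DR.lkv_cases o E M V with h | h
        · rw [h]
          rcases DR.mxe_cases o E M with g | g
          · exact g
          · exact absurd ⟨_, g⟩ n6
        · exact absurd ⟨_, h⟩ n7
      show CnP sa sb tb tc wb wc r0 r1 r2 pr (DR.lkv o E M V) o ≤ M
      rw [CnP_eq, if_pos e5, e1, e2, e3, e4, e6]
      omega
  have hMM : M ≤ M' := a1.1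
  have hlk : ∀ o' v, DR.In o' v E' → v ≤ DR.lkv o' E' M' V' := by
    intro o' v hv
    rcases DR.lkv_cases o' E' M' V' with g | g
    · rw [g]
      exact (DR.le_mxe o' E' M').2 v hv
    · rcases h14 _ _ g with g1 | g1
      · exact absurd g1 (fun h => h)
      · rw [g1]
        exact (DR.le_mxe o' E' _).2 v hv
  refine ⟨M', E', V', _, h13, fun o o' ho' => ?_⟩
  have b1 := DR.le_mxg W o'
  have b2 := DL.le_mxz W o'
  have b3 := DR.le_mxw o'
  -- the values of the pairs of `W`
  have hW : ∀ p : ℕ, DR.val W (dkey o o') = p + 1 → p ≤ DR.lkv o' E' M' V' ∧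
      (p ≤ M' ∨ ∃ v, DR.In o' v E' ∧ p ≤ v) ∧ ∀ gl, p ≤ nxK f zb M S W gl o' + DR.val gl o := by
    intro p hp
    have g1 : DR.In (dkey o o') (p + 1) W := by
      rw [← hp]
      exact DR.in_val (by rw [hp]; exact Nat.succ_ne_zero p)
    have g2 := h12 _ _ g1
    have g3 : dkey o o' % 8192 = o' := (dkey_parts ho').2
    rw [g3, Nat.add_sub_cancel] at g2
    refine ⟨hlk _ _ g2, Or.inr ⟨p, g2, le_rfl⟩, fun gl => ?_⟩
    have g4 := (b3 gl W (DL.mxz W o' gl f zb (DR.mxg W o' gl S M))).2 o _ ho' g1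
    rw [Nat.add_sub_cancel] at g4
    exact Nat.sub_le_iff_le_add.1 g4
  rcases h4 (dkey o o') with g1 | ⟨o1, -, x1, hx1, gl, g1, g2, g3⟩
  · have g1' : DR.val W1 (dkey o o') = 0 := g1
    rcases h7 o o' ho' g1' with ⟨g2, g3⟩ | ⟨g2, g3⟩
    · -- an unlisted pair
      have g4 : DR.val ql (dkey o o') = 0 := by
        rcases g3 with g3 | g3
        · exact g3
        · by_contra g4
          exact g3 ⟨_, DR.in_val g4⟩
      refine ⟨_, Or.inl rfl, ?_⟩
      rw [pvK_eq, if_pos g4]
      by_cases hz : DL.val zb o o' = 0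
      · rw [hz, Nat.mul_zero, Nat.add_zero]
        have g5 : f o ≤ M' := by
          rcases key o with g | g
          · exact le_trans g hMM
          · exact a1.2 _ _ g
        refine ⟨?_, Or.inl g5, fun gl => ?_⟩
        · rcases DR.lkv_cases o' E' M' V' with g | g
          · rw [g]
            exact le_trans g5 (DR.le_mxe o' E' M').1
          · rcases h14 _ _ g with g1 | g1
            · exact absurd g1 (fun h => h)
            · rw [g1]
              refine le_trans ?_ (DR.le_mxe o' E' _).1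
              have a2 := DR.le_mxu W o' S M
              rcases key o with g | g
              · exact le_trans g a2.1
              · exact a2.2 _ _ g2 g
        · have g6 : DR.mxg W o' gl S M ≤ nxK f zb M S W gl o' :=
            le_trans (b2 gl f zb _).1 (b3 gl W _).1
          rcases key o with g | g
          · have g7 : f o ≤ nxK f zb M S W gl o' := le_trans g (le_trans (b1 gl S M).1 g6)
            exact le_trans g7 (Nat.le_add_right _ _)
          · exact Nat.sub_le_iff_le_add.1 (le_trans ((b1 gl S M).2 o _ g2 g) g6)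
      · have g5 := h11 _ _ (h9 o o' g2 hz)
        refine ⟨hlk _ _ g5, Or.inr ⟨_, g5, le_rfl⟩, fun gl => ?_⟩
        have g6 := (b2 gl f zb (DR.mxg W o' gl S M)).2 o g2 hz
        exact Nat.sub_le_iff_le_add.1 (le_trans g6 (b3 gl W _).1)
    · -- a pair of `ql`
      refine ⟨_, Or.inl rfl, ?_⟩
      rw [pvK_eq, if_neg g2]
      exact hW _ g3
  · -- a pair with a further share
    obtain ⟨e1, e2⟩ : o1 = o ∧ x1 = o' := by
      have f1 : Nat.div (dkey o o') 8192 = Nat.div (dkey o1 x1) 8192 := by rw [g1]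
      have f2 : Nat.mod (dkey o o') 8192 = Nat.mod (dkey o1 x1) 8192 := by rw [g1]
      rw [(dkey_parts ho').1, (dkey_parts hx1).1] at f1
      rw [(dkey_parts ho').2, (dkey_parts hx1).2] at f2
      exact ⟨f1.symm, f2.symm⟩
    subst e1 e2
    refine ⟨_, Or.inr ⟨gl, rfl, g3⟩, ?_⟩
    have g4 := h6 (dkey o1 x1) (by rw [g2]; exact Nat.succ_ne_zero _)
    exact hW _ (g4.trans g2)

/-! ### The test of a cell -/

noncomputable section

/-- The step at a corner which is followed by a triangle; `xm` is the token of the second face before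
the corner, `G` the bound for given gains of the token before it. -/
def gpTK (c : Tabs) (qt pt kt : DT) (xm k0 s0 k1 o1 s1 k2 o2 s2 k3 s3 h M : ℕ) (E V : DR)
    (G : DR → ℕ → ℕ) (A B : ℕ)
    (K : ℕ → ℕ → DR → DR → (DR → ℕ → ℕ) → ℕ → ℕ → Bool) : Bool :=
  rForce (Nat.div (flA k1 o1) (nat_lit 16384)) fun kb =>
  rForce (Nat.mod (triA k1 s1) (nat_lit 512)) fun ob =>
  rForce (rjA k1 s1) fun jb =>
  rForce (farK k1 o1 s1) fun kc =>
  rForce (t3A k1 s1) fun oc =>
  rForce (rjA kb jb) fun jc =>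
  rForce (Nat.div (flA k2 o2) (nat_lit 16384)) fun kf =>
  rForce (Nat.mod (triA k2 s2) (nat_lit 512)) fun of =>
  rForce (rjA k2 s2) fun jf =>
  rForce (farK k2 o2 s2) fun kg =>
  rForce (t3A k2 s2) fun og =>
  rForce (rjA kf jf) fun jg =>
  rForce (xrT rjA k0 s0) fun x0 =>
  rForce (xrT trX k2 s2) fun x1 =>
  rForce (xrT trX k3 s3) fun x2 =>
  rForce (DL.val (DT.get c.t (dkey k1 s1)) x0 x1) fun d1 =>
  rForce (DL.val (DT.get c.zt (zkey k1 s1 s2)) x2 x0) fun z1 =>
  rForce (cST c k1 o1 s1 kb ob jb kc oc jc x0 x1) fun sa =>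
  rForce (cRA c k1 o1 s1 kb ob jb kc oc jc k2 o2 s2 kf of jf kg og jg x0 x2) fun ra =>
  rForce (cRB c k1 o1 s1 kb ob jb k2 o2 s2 kg og jg z1) fun rb =>
  DL.col x0 (DT.get c.t (dkey kc jc)) fun tc =>
  DL.col x0 (DT.get c.tw (dkey kc jc)) fun wc =>
  rgStepK sa d1 (DL.grp (DT.get c.t (dkey kb jb)) x1) tc
    (flR h (DL.grp (DT.get c.tw (dkey kb jb)) x1)) wc
    (DL.grp (DT.get c.rt (dkey kb jb)) (nat_lit 0))
    (flR h (DL.grp (DT.get c.rt (dkey kb jb)) (nat_lit 1)))
    (DL.grp (DT.get c.rt (dkey kb jb)) (nat_lit 2))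
    (DL.grp (DT.get pt (dkey k1 s1)) (dkey x0 x1))
    (DL.grp (DT.get qt (zkey k1 s1 s2)) (dkey x2 x0))
    (DL.tl (DT.get c.zt (zkey kg jg jb)))
    (fun o o' => Nat.sub
      (Nat.add ra (Nat.add (DR.val (DL.grp (DT.get c.rt (dkey kb jb)) (nat_lit 2)) o)
        (DR.val (DL.grp (DT.get c.rt (dkey kf jf)) (nat_lit 1)) o')))
      (Nat.add rb (Nat.add (DR.val wc o)
        (DR.val (DL.grp (DT.get c.tw (dkey kf jf)) x2) o'))))
    (rIf (Nat.ble (nat_lit 7936) s0) DL.nil (DT.get kt (dkey k1 s1))) (dkey x0 x1) x2 xm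
    (Nat.add (Nat.mul (nat_lit 2) sa) (Nat.mul (nat_lit 3) ra))
    (Nat.add (Nat.mul (nat_lit 2) d1) (Nat.mul (nat_lit 3) rb)) M E V G A B (K (nat_lit 1))

/-- The step at a corner. -/
def gpCK (c : Tabs) (qt pt kt : DT) (xm k0 s0 k1 o1 s1 k2 o2 s2 k3 s3 h M : ℕ) (E V : DR)
    (G : DR → ℕ → ℕ) (A B : ℕ)
    (K : ℕ → ℕ → DR → DR → (DR → ℕ → ℕ) → ℕ → ℕ → Bool) : Bool :=
  rIf (Nat.ble (nat_lit 7936) s1) (K (nat_lit 0) M DR.nil DR.nil (fun _ _ => M) A B)
    (rIf (Nat.ble (nat_lit 7936) s2) (gpS c pt k0 s0 k1 o1 s1 k2 s2 h M E V A B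
        fun h' M' E' V' A' B' => K h' M' E' V' (fun _ _ => M') A' B')
      (gpTK c qt pt kt xm k0 s0 k1 o1 s1 k2 o2 s2 k3 s3 h M E V G A B K))

/-- The steps along a path. -/
def goK (c : Tabs) (qt pt kt : DT) (p : Pth) : ℕ → ℕ → ℕ → ℕ → ℕ → ℕ → ℕ → ℕ → ℕ → ℕ → ℕ →
    DR → DR → (DR → ℕ → ℕ) → ℕ → ℕ → (ℕ → DR → DR → (DR → ℕ → ℕ) → ℕ → ℕ → Bool) → Bool :=
  Pth.rec (motive := fun _ => ℕ → ℕ → ℕ → ℕ → ℕ → ℕ → ℕ → ℕ → ℕ → ℕ → ℕ → DR → DR →
      (DR → ℕ → ℕ) → ℕ → ℕ → (ℕ → DR → DR → (DR → ℕ → ℕ) → ℕ → ℕ → Bool) → Bool)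
    (fun _ _ _ _ _ _ _ _ _ _ M E V G A B K => K M E V G A B)
    (fun k3 o3 s3 _ ih xm k0 s0 k1 o1 s1 k2 o2 s2 h M E V G A B K =>
      gpCK c qt pt kt xm k0 s0 k1 o1 s1 k2 o2 s2 k3 s3 h M E V G A B fun h' M' E' V' G' A' B' =>
        rForce (xrT rjA k0 s0) fun xm' =>
          ih xm' k1 s1 k2 o2 s2 k3 o3 s3 h' M' E' V' G' A' B' K) p

/-- All entries of a group have a good value or a good token; `D` are the tokens which were
tested. -/
def DR.alz (p q : ℕ → Bool) (r : DR) : DR → Bool :=
  DR.rec (motive := fun _ => DR → Bool) (fun _ => true)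
    (fun z v _ ih D => rIf (p v) (ih D) (rIf (Nat.beq (DR.val D z) (nat_lit 0))
      (rAnd (q z) (ih (DR.e z (nat_lit 1) D))) (ih D))) r

/-- The tokens of the groups of the corner. -/
def DL.kts (x01 : ℕ) (l : DL) : (DR → Bool) → Bool :=
  DL.rec (motive := fun _ => (DR → Bool) → Bool) (fun K => K DR.nil)
    (fun G _ _ ih K => rIf (Nat.beq (Nat.div G (nat_lit 8192)) x01)
      (rForce (Nat.mod G (nat_lit 8192)) fun o => ih fun a => K (DR.e o (nat_lit 1) a)) (ih K)) l

/-- The tokens after the corner, of the entries with the further token `xp`. -/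
def DR.kxs (xp : ℕ) (r : DR) : DR → (DR → Bool) → Bool :=
  DR.rec (motive := fun _ => DR → (DR → Bool) → Bool) (fun a K => K a)
    (fun c _ _ ih a K => rForce (Nat.div c (nat_lit 67108864)) fun e =>
      rIf (Nat.beq (Nat.div e (nat_lit 8192)) xp)
        (rForce (Nat.mod e (nat_lit 8192)) fun x =>
          rIf (Nat.beq (DR.val a x) (nat_lit 0)) (ih (DR.e x (nat_lit 1) a) K) (ih a K))
        (ih a K)) r

/-- The tokens of `L` get the value zero. -/
def DR.zro (L : DR) : DR → (DR → Bool) → Bool :=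
  DR.rec (motive := fun _ => DR → (DR → Bool) → Bool) (fun a K => K a)
    (fun x _ _ ih a K => ih (DR.e x (nat_lit 0) a) K) L

/-- All tokens of a list are good. -/
def DR.alt (p : ℕ → Bool) (r : DR) : Bool :=
  DR.rec (motive := fun _ => Bool) true (fun x _ _ ih => rAnd (p x) ih) r

/-- A run around the cell: the first step without further shares, then a restriction of the second
token. -/
def runK (c : Tabs) (qt pt kt : DT) (p : Pth) (xm kl sl k1 o1 s1 k2 o2 s2 k3 o3 s3 h : ℕ)
    (R : ℕ → DR → DR → (DR → ℕ → ℕ) → (ℕ → DR → DR → (DR → ℕ → ℕ) → Bool) → Bool)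
    (K : ℕ → DR → DR → (DR → ℕ → ℕ) → ℕ → ℕ → Bool) (M : ℕ) (E V : DR) : Bool :=
  rForce (xrT rjA kl sl) fun x0 =>
  gpCK c qt pt DT.z xm kl sl k1 o1 s1 k2 o2 s2 k3 s3 h M E V (fun _ _ => offR) (nat_lit 0)
    (nat_lit 0) fun h' M' E' V' G' A' B' => R M' E' V' G' fun M2 E2 V2 G2 =>
      goK c qt pt kt p x0 k1 s1 k2 o2 s2 k3 o3 s3 h' M2 E2 V2 G2 A' B' K

/-- The second token is `x`. -/
def rsP (x M : ℕ) (E V : DR) (G : DR → ℕ → ℕ)
    (K : ℕ → DR → DR → (DR → ℕ → ℕ) → Bool) : Bool :=
  rForce (DR.lkv x E M V) fun v => K (nat_lit 0) (DR.e x v DR.nil) DR.nil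
    fun gl y => rIf (Nat.beq y x) (G gl y) (nat_lit 0)

/-- The second token is not in `L`. -/
def rsR (L : DR) (M : ℕ) (E V : DR) (G : DR → ℕ → ℕ)
    (K : ℕ → DR → DR → (DR → ℕ → ℕ) → Bool) : Bool :=
  DR.zro L V fun V' => K M E V' fun gl y => rIf (Nat.beq (DR.val L y) (nat_lit 0)) (G gl y)
    (nat_lit 0)

/-- The value `v` is small enough. -/
def finK (m v A B : ℕ) : Bool :=
  Nat.ble (Nat.add v (Nat.add (Nat.mul (nat_lit 6) m) B)) (Nat.add offR A)

/-- The test of all rings around a cell with the further shares, for the path `k1 o1 s1`,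
`k2 o2 s2`, `k3 o3 s3`, ..., of last corners `kk sk`, `kl sl`; `p` is the path after the third
corner, continued by the first two corners. -/
def ringKC (c : Tabs) (qt pt kt : DT) (m : ℕ) (p : Pth)
    (kk sk kl sl k1 o1 s1 k2 o2 s2 k3 o3 s3 : ℕ) : Bool :=
  rForce (rIf (Nat.ble (nat_lit 7936) sl) (nat_lit 0)
    (rIf (Nat.ble (nat_lit 7936) s1) (nat_lit 0) (nat_lit 1))) fun h =>
  rForce (xrT rjA kk sk) fun xm =>
  rForce (dkey (xrT rjA kl sl) (xrT trX k2 s2)) fun x01 =>
  rForce (xrT trX k3 s3) fun xp =>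
  DL.kts x01 (rIf (Nat.ble (nat_lit 7936) sl) DL.nil (rIf (Nat.ble (nat_lit 7936) s1) DL.nil
    (rIf (Nat.ble (nat_lit 7936) s2) DL.nil (DT.get kt (dkey k1 s1))))) fun D =>
  DR.zro D DR.nil fun V0 =>
  rAnd
    (runK c qt pt kt p xm kl sl k1 o1 s1 k2 o2 s2 k3 o3 s3 h (fun M E V G K => K M E V G)
      (fun M E _ _ A B => rAnd (finK m M A B)
        (DR.alz (fun v => finK m v A B)
          (fun z => runK c qt pt kt p xm kl sl k1 o1 s1 k2 o2 s2 k3 o3 s3 h
            (fun M E V G K => K M E V G) (fun M' E' V' _ A' B' => finK m (DR.lkv z E' M' V') A' B')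
            (nat_lit 0) (DR.e z offR DR.nil) DR.nil) E D))
      offR DR.nil V0)
    (DR.alt (fun o =>
      rIf (runK c qt pt kt p xm kl sl k1 o1 s1 k2 o2 s2 k3 o3 s3 h (fun M E V G K => K M E V G)
        (fun M' E' V' _ A' B' => finK m (DR.lkv o E' M' V') A' B')
        (nat_lit 0) (DR.e o offR DR.nil) DR.nil) true
      (DR.kxs xp (DL.grp (DT.get kt (dkey k1 s1)) (dkey x01 o)) DR.nil fun L =>
        rAnd
          (runK c qt pt kt p xm kl sl k1 o1 s1 k2 o2 s2 k3 o3 s3 h (rsR L)
            (fun M' E' V' _ A' B' => finK m (DR.lkv o E' M' V') A' B')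
            (nat_lit 0) (DR.e o offR DR.nil) DR.nil)
          (DR.alt (fun x =>
            DR.glf xm (dkey xp x) (DL.grp (DT.get kt (dkey k1 s1)) (dkey x01 o)) fun gl =>
            runK c qt pt kt p xm kl sl k1 o1 s1 k2 o2 s2 k3 o3 s3 h (rsP x)
              (fun _ _ _ G' A' B' => finK m (G' gl o) A' B')
              (nat_lit 0) (DR.e o offR DR.nil) DR.nil) L))) D)

/-- The test of the rings around a cell with the further shares. -/
def ringKN (c : Tabs) (qt pt kt : DT) (q : Pth) (m : ℕ) : Bool :=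
  Pth.rec (motive := fun _ => Bool) false (fun k1 o1 s1 q1 _ =>
    Pth.rec (motive := fun _ => Bool) false (fun k2 o2 s2 q2 _ =>
      Pth.rec (motive := fun _ => Bool) false (fun k3 o3 s3 q3 _ =>
        Pth.lst (Pth.cons k3 o3 s3 q3) k1 s1 k2 s2 fun kk sk kl sl =>
          ringKC c qt pt kt m (Pth.app q3 (Pth.cons k1 o1 s1 (Pth.cons k2 o2 s2 Pth.nil)))
            kk sk kl sl k1 o1 s1 k2 o2 s2 k3 o3 s3) q2) q1) q

end

theorem DL.kts_sound {x01 : ℕ} {l : DL} : ∀ {K : DR → Bool}, DL.kts x01 l K = true →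
    ∃ a, K a = true ∧ (l = DL.nil → a = DR.nil) := by
  induction l with
  | nil => exact fun {K} h => ⟨DR.nil, h, fun _ => rfl⟩
  | g G r l ih =>
    intro K h
    have e1 : DL.kts x01 (DL.g G r l) K = rIf (Nat.beq (Nat.div G (nat_lit 8192)) x01)
      (rForce (Nat.mod G (nat_lit 8192)) fun o =>
        DL.kts x01 l fun a => K (DR.e o (nat_lit 1) a)) (DL.kts x01 l K) := rfl
    rw [e1, rForce_eq] at h
    cases hb : Nat.beq (Nat.div G (nat_lit 8192)) x01 with
    | false =>
      rw [hb, rIf_false] at h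
      obtain ⟨a, h1, -⟩ := ih h
      exact ⟨a, h1, fun h => DL.noConfusion h⟩
    | true =>
      rw [hb, rIf_true] at h
      obtain ⟨a, h1, -⟩ := ih h
      exact ⟨_, h1, fun h => DL.noConfusion h⟩

theorem DR.kxs_sound {xp : ℕ} {r : DR} {K : DR → Bool} : ∀ {a : DR},
    DR.kxs xp r a K = true → ∃ L, K L = true := by
  induction r with
  | nil => exact fun {a} h => ⟨a, h⟩
  | e c v r ih =>
    intro a h
    have e1 : DR.kxs xp (DR.e c v r) a K = rForce (Nat.div c (nat_lit 67108864)) fun e =>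
      rIf (Nat.beq (Nat.div e (nat_lit 8192)) xp)
        (rForce (Nat.mod e (nat_lit 8192)) fun x =>
          rIf (Nat.beq (DR.val a x) (nat_lit 0)) (DR.kxs xp r (DR.e x (nat_lit 1) a) K)
            (DR.kxs xp r a K)) (DR.kxs xp r a K) := rfl
    rw [e1, rForce_eq, rForce_eq] at h
    cases h1 : Nat.beq (Nat.div (Nat.div c (nat_lit 67108864)) (nat_lit 8192)) xp with
    | false =>
      rw [h1, rIf_false] at h
      exact ih h
    | true =>
      rw [h1, rIf_true] at h
      by_cases h2 : DR.val a (Nat.mod (Nat.div c (nat_lit 67108864)) (nat_lit 8192)) = 0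
      · rw [rIf_beq0 h2] at h
        exact ih h
      · rw [rIf_beq1 h2] at h
        exact ih h

theorem DR.zro_sound {L : DR} {K : DR → Bool} : ∀ {a : DR}, DR.zro L a K = true →
    ∃ a', K a' = true ∧ ∀ x v, DR.In x v a' → DR.In x v a ∨ ∃ w, DR.In x w L := by
  induction L with
  | nil => exact fun {a} h => ⟨a, h, fun x v h1 => Or.inl h1⟩
  | e y w L ih =>
    intro a h
    have h' : DR.zro L (DR.e y (nat_lit 0) a) K = true := h
    obtain ⟨a', h1, h2⟩ := ih h'
    refine ⟨a', h1, fun x v hx => ?_⟩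
    rcases h2 x v hx with h3 | ⟨u, h3⟩
    · rcases h3 with ⟨h4, -⟩ | h3
      · exact Or.inr ⟨w, Or.inl ⟨h4, rfl⟩⟩
      · exact Or.inl h3
    · exact Or.inr ⟨u, Or.inr h3⟩

theorem DR.zro_lkv {L : DR} {K : DR → Bool} : ∀ {V : DR}, DR.zro L V K = true →
    ∃ V', K V' = true ∧ ∀ x E M, (∀ w, ¬DR.In x w L) → DR.lkv x E M V' = DR.lkv x E M V := by
  induction L with
  | nil => exact fun {V} h => ⟨V, h, fun x E M _ => rfl⟩
  | e y w L ih =>
    intro V h
    have h' : DR.zro L (DR.e y (nat_lit 0) V) K = true := h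
    obtain ⟨V', h1, h2⟩ := ih h'
    refine ⟨V', h1, fun x E M hx => ?_⟩
    rw [h2 x E M fun u hu => hx u (Or.inr hu)]
    have e1 : DR.lkv x E M (DR.e y (nat_lit 0) V) = rIf (Nat.beq y x) (nat_lit 0)
      (DR.lkv x E M V) := rfl
    rw [e1]
    cases hb : Nat.beq y x with
    | false => rw [rIf_false]
    | true => exact absurd (Or.inl ⟨Nat.eq_of_beq_eq_true hb, rfl⟩) (hx w)

theorem DR.alt_sound {p : ℕ → Bool} {r : DR} (h : DR.alt p r = true) {x v : ℕ}
    (hx : DR.In x v r) : p x = true := by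
  induction r with
  | nil => exact absurd hx (fun h => h)
  | e y w r ih =>
    obtain ⟨h1, h2⟩ := rAnd_iff.1 (show rAnd (p y) (DR.alt p r) = true from h)
    rcases hx with ⟨rfl, -⟩ | hx
    · exact h1
    · exact ih h2 hx

theorem DR.val_of_not_in {r : DR} {x : ℕ} (h : ∀ v, ¬DR.In x v r) : DR.val r x = 0 := by
  by_contra h1
  exact h _ (DR.in_val h1)

theorem finK_iff {m v A B : ℕ} : finK m v A B = true ↔ v + (6 * m + B) ≤ offR + A := by
  unfold finK
  constructor
  · exact fun h => Nat.le_of_ble_eq_true h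
  · exact fun h => Nat.ble_eq_true_of_le h

theorem DR.alz_sound {p q : ℕ → Bool} {r : DR} : ∀ {D : DR}, DR.alz p q r D = true →
    ∀ z v, DR.In z v r → p v = true ∨ DR.val D z ≠ 0 ∨ q z = true := by
  induction r with
  | nil => exact fun {D} _ z v h => absurd h (fun h => h)
  | e y w r ih =>
    intro D h z v hz
    have e1 : DR.alz p q (DR.e y w r) D = rIf (p w) (DR.alz p q r D)
      (rIf (Nat.beq (DR.val D y) (nat_lit 0))
        (rAnd (q y) (DR.alz p q r (DR.e y (nat_lit 1) D))) (DR.alz p q r D)) := rfl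
    rw [e1] at h
    cases hp : p w with
    | true =>
      rw [hp, rIf_true] at h
      rcases hz with ⟨rfl, rfl⟩ | hz
      · exact Or.inl hp
      · exact ih h z v hz
    | false =>
      rw [hp, rIf_false] at h
      by_cases h0 : DR.val D y = 0
      · rw [rIf_beq0 h0] at h
        obtain ⟨h1, h2⟩ := rAnd_iff.1 h
        rcases hz with ⟨rfl, rfl⟩ | hz
        · exact Or.inr (Or.inr h1)
        · rcases ih h2 z v hz with h3 | h3 | h3
          · exact Or.inl h3
          · by_cases h4 : y = z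
            · rw [← h4]
              exact Or.inr (Or.inr h1)
            · rw [DR.val_e, if_neg h4] at h3
              exact Or.inr (Or.inl h3)
          · exact Or.inr (Or.inr h3)
      · rw [rIf_beq1 h0] at h
        rcases hz with ⟨rfl, rfl⟩ | hz
        · exact Or.inr (Or.inl h0)
        · exact ih h z v hz

end Pool.Agent.Lib.MP_5854e1_co
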