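import Pool.Agent.Lib.MP_5854e1_co.RingZ

/-!
# Further shares of a star which depend on the faces next to it

A corner `a` of a triangle sees the faces next to the triangle (the star) and, next to the face after
its right strip, the two further faces; their tokens are the code `eR a`. In the same way `eL a` is
the code of the two further faces next to the face before its left strip. The table `kt` has a row for
a corner of a triangle; a group consists of the tokens of the star, an entry of the two codes.
-/

set_option autoImplicit false

open Equiv Equiv.Perm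

namespace Pool.Agent.Lib.MP_5854e1_co

open PB CE CE.Cell

namespace SMap

variable {F : Type*} (T : SMap F)

/-- The code of the two further faces at the face after the right strip of a corner. -/
noncomputable def eR (a : F) : ℕ := dkey (T.X trX (T.N (T.N a))) (T.Ot (T.N a))

/-- The code of the two further faces at the face before the left strip of a corner. -/
noncomputable def eL (a : F) : ℕ := dkey (T.Ot (T.N⁻¹ a)) (T.X trX (T.I (T.N⁻¹ a)))

/-- The tokens of the star of a corner. -/
noncomputable def sK (a : F) : ℕ := dkey (dkey (T.X trX (T.I a)) (T.X trX (T.N a))) (T.Ot a)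

open Classical in
/-- The entry of `kt` of a corner. -/
noncomputable def vK (kt : DT) (a : F) : ℕ :=
  if T.Tri (T.N⁻¹ a) ∧ T.Tri a ∧ T.Tri (T.N a) then
    DL.val (DT.get kt (dkey (T.kx a) (T.rs a))) (T.sK a) (T.eR a * 67108864 + T.eL a)
  else 0

theorem eL_rot {a : F} (h : T.Tri (T.N a)) : T.eL (T.I (T.N a)) = T.eR a := by
  have h0 : T.N (T.N⁻¹ (T.I (T.N a))) = T.I (T.N a) := Equiv.apply_symm_apply T.N _
  have h1 : T.Ot (T.N⁻¹ (T.I (T.N a))) = T.X trX (T.N (T.N a)) := by
    unfold Ot
    rw [h0, I_I]
  have h2 : T.Tri (T.N⁻¹ (T.I (T.N a))) := by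
    rw [← T.tri_I_N, h0, I_I]
    exact h
  have h3 : T.N⁻¹ (T.I (T.N a)) = T.I (T.N (T.I (T.N (T.N a)))) := by
    have h4 := T.rot_three h2
    rw [h0, I_I] at h4
    exact h4.symm
  unfold eL eR
  rw [h1, h3, I_I]
  rfl

/-- The share of a corner with the further shares. -/
noncomputable def PK (c : Tabs) (pt kt : DT) (a : F) : ℤ :=
  T.PP c pt a + ((T.vK kt a : ℤ) + T.relab.vK kt a)

end SMap

end Pool.Agent.Lib.MP_5854e1_co
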