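import Pool.Agent.Lib.MP_5854e1_co.RingKD

/-!
# The check of the further shares of a star

The table `kt` has a row for a corner of a triangle; a group consists of the tokens of the star, an
entry of the codes of the further faces on the right and on the left of the corner. Twice the sum of
the entries of the three corners is at most the rest of six times the slack of the triangle after the
shares of the table `pt`.
-/

set_option autoImplicit false

open Equiv Equiv.Perm

namespace Pool.Agent.Lib.MP_5854e1_co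

open PB CE CE.Cell

universe u

noncomputable section

/-- The check of the entries `A` of a corner; `B` and `C` are the entries of the next two corners, `W`
is the sum of the shares and of the losses and `S` the bound. -/
def kjE (B C : DR) (S W : ℕ) (A : DR) : Bool :=
  DR.all (fun e v => rForce (Nat.div e (nat_lit 67108864)) fun eb =>
    rForce (Nat.mul (Nat.mod e (nat_lit 67108864)) (nat_lit 67108864)) fun ec =>
    rForce (Nat.add W (Nat.mul (nat_lit 2) v)) fun W1 =>
    rAnd (Nat.ble W1 S) (DR.all (fun f w => rIf (Nat.beq (Nat.mod f (nat_lit 67108864)) eb)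
      (Nat.ble (Nat.add W1 (Nat.mul (nat_lit 2) (Nat.add w
        (DR.val C (Nat.add ec (Nat.div f (nat_lit 67108864))))))) S) true) B)) A

section defs

variable (D : ℕ → ℕ → ℕ) (sp ps : ℕ → ℕ → ℕ → ℕ) (t rt pt kt : DT)

/-- The check of the row of `kt` of the corner `(k, o, j)`. -/
def kjC (k o j : ℕ) : Bool :=
  DL.rec (motive := fun _ => Bool) true
    (fun _ _ _ _ =>
      rForce (Nat.div (flA k o) (nat_lit 16384)) fun kb =>
      rForce (Nat.mod (triA k j) (nat_lit 512)) fun ob =>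
      rForce (rjA k j) fun jb =>
      rForce (farK k o j) fun kc =>
      rForce (t3A k j) fun oc =>
      rForce (rjA kb jb) fun jc =>
      rForce (Nat.add (nat_lit 3) (Nat.mul (nat_lit 6) (Nat.add
        (Nat.add (D k o) (Nat.add (D kb ob) (D kc oc)))
        (Nat.add (psA sp ps k o j) (Nat.add (psA sp ps kb ob jb) (psA sp ps kc oc jc)))))) fun S =>
      DL.all (fun G r => rForce (Nat.div G (nat_lit 8192)) fun g =>
        rForce (Nat.mod G (nat_lit 8192)) fun x2 =>
        rForce (Nat.div g (nat_lit 8192)) fun x3 =>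
        rForce (Nat.mod g (nat_lit 8192)) fun x1 =>
        rForce (DL.val (DT.get pt (dkey k j)) g x2) fun v =>
        rForce (Nat.add S (Nat.mul (nat_lit 6)
          (Nat.add (DR.val (DL.grp (DT.get rt (dkey k j)) (nat_lit 0)) x1)
            (Nat.add (DR.val (DL.grp (DT.get rt (dkey kb jb)) (nat_lit 0)) x2)
              (DR.val (DL.grp (DT.get rt (dkey kc jc)) (nat_lit 0)) x3))))) fun S1 =>
        rForce (Nat.add (Nat.add v (Nat.add (DL.val (DT.get pt (dkey kb jb)) (dkey x1 x2) x3)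
          (DL.val (DT.get pt (dkey kc jc)) (dkey x2 x3) x1))) (Nat.mul (nat_lit 6)
            (Nat.add (DL.val (DT.get t (dkey k j)) x3 x1)
              (Nat.add (DL.val (DT.get t (dkey kb jb)) x1 x2)
                (DL.val (DT.get t (dkey kc jc)) x2 x3))))) fun W =>
        rAnd (Nat.ble (nat_lit 1) v)
          (kjE (DL.grp (DT.get kt (dkey kb jb)) (dkey (dkey x1 x2) x3))
            (DL.grp (DT.get kt (dkey kc jc)) (dkey (dkey x2 x3) x1)) S1 W r))
        (DT.get kt (dkey k j)))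
    (DT.get kt (dkey k j))

/-- The check of the rows of `kt` of the pair `(k, o)`. -/
def kjO (k o : ℕ) : Bool :=
  rForce (triOff k o) fun f => rAllN (fun i => kjC D sp ps t rt pt kt k o (Nat.add f i))
    (Nat.sub (triOff k (Nat.succ o)) f)

end defs

end

theorem ekey_parts {x y : ℕ} (h : y < 67108864) : Nat.div (x * 67108864 + y) 67108864 = x ∧
    Nat.mod (x * 67108864 + y) 67108864 = y := by
  constructor
  · show (x * 67108864 + y) / 67108864 = x
    omega
  · show (x * 67108864 + y) % 67108864 = y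
    omega

/-- The entries of a corner. -/
theorem kjE_at {A B C : DR} {S W : ℕ} (h : kjE B C S W A = true) {eb ec : ℕ} (hc : ec < 67108864)
    (h0 : DR.val A (eb * 67108864 + ec) ≠ 0) :
    W + 2 * DR.val A (eb * 67108864 + ec) ≤ S ∧ ∀ ea, DR.val B (ea * 67108864 + eb) ≠ 0 →
      eb < 67108864 → W + 2 * (DR.val A (eb * 67108864 + ec) + DR.val B (ea * 67108864 + eb) +
        DR.val C (ec * 67108864 + ea)) ≤ S := by
  unfold kjE at h
  rcases DR.val_of_all h (eb * 67108864 + ec) with h1 | h1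
  · exact absurd h1 h0
  simp only [rForce_eq, (ekey_parts hc).1, (ekey_parts hc).2] at h1
  obtain ⟨h2, h3⟩ := rAnd_iff.1 h1
  refine ⟨Nat.le_of_ble_eq_true h2, fun ea h4 hb => ?_⟩
  rcases DR.val_of_all h3 (ea * 67108864 + eb) with h5 | h5
  · exact absurd h5 h4
  rw [(ekey_parts hb).1, (ekey_parts hb).2, Nat.beq_refl eb, rIf_true] at h5
  have h6 := Nat.le_of_ble_eq_true h5
  have h7 : W + 2 * DR.val A (eb * 67108864 + ec) + 2 * (DR.val B (ea * 67108864 + eb) +
    DR.val C (ec * 67108864 + ea)) ≤ S := h6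
  linarith

namespace SMap

variable {F : Type*} (T : SMap F)

theorem Ot_lt (a : F) : T.Ot a < 8192 := T.X_lt13 _

theorem eR_lt (a : F) : T.eR a < 67108864 := dkey_lt (T.X_lt13 _) (T.Ot_lt _)

theorem eL_lt (a : F) : T.eL a < 67108864 := dkey_lt (T.Ot_lt _) (T.X_lt13 _)

theorem vK_tri {kt : DT} {a : F} (h0 : T.vK kt a ≠ 0) :
    T.Tri (T.N⁻¹ a) ∧ T.Tri a ∧ T.Tri (T.N a) := by
  by_contra h1
  exact h0 (if_neg h1)

theorem vK_eq {kt : DT} {a : F} (h : T.Tri (T.N⁻¹ a) ∧ T.Tri a ∧ T.Tri (T.N a)) : T.vK kt a =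
    DR.val (DL.grp (DT.get kt (dkey (T.kx a) (T.rs a))) (T.sK a))
      (T.eR a * 67108864 + T.eL a) := if_pos h

theorem vK_le (kt : DT) (a : F) : T.vK kt a ≤
    DR.val (DL.grp (DT.get kt (dkey (T.kx a) (T.rs a))) (T.sK a))
      (T.eR a * 67108864 + T.eL a) := by
  by_cases h : T.Tri (T.N⁻¹ a) ∧ T.Tri a ∧ T.Tri (T.N a)
  · exact le_of_eq (T.vK_eq h)
  · have h1 : T.vK kt a = 0 := if_neg h
    rw [h1]
    exact Nat.zero_le _

section chk

variable {D : ℕ → ℕ → ℕ} {sp ps : ℕ → ℕ → ℕ → ℕ} {t rt zt pt kt : DT}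

/-- The rows of `kt`. -/
theorem kjC_at (h : ∀ k < 101, ∀ o < optN k, kjO D sp ps t rt pt kt k o = true) {a : F}
    (ha : T.Tri a) : kjC D sp ps t rt pt kt (T.kx a) (T.ox a) (T.jx a) = true := by
  have h1 := h _ (T.kx_lt a) _ (T.ox_lt_optN a)
  unfold kjO at h1
  rw [rForce_eq] at h1
  obtain ⟨h2, -⟩ := T.tri_px ha
  have h3 := rAllN_iff.1 h1 (T.px a) (by
    show T.px a < triOff (T.kx a) (T.ox a + 1) - triOff (T.kx a) (T.ox a)
    rw [← length_tri]
    exact h2)
  exact h3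

/-- The sum of the shares of the table `pt` and of the losses of a triangle. -/
noncomputable def wKs (t pt : DT) (a : F) : ℕ :=
  T.px' pt a + T.px' pt (T.I (T.N a)) + T.px' pt (T.I (T.N (T.I (T.N a)))) +
    6 * (T.dl t a + T.dl t (T.I (T.N a)) + T.dl t (T.I (T.N (T.I (T.N a)))))

/-- The bound of a triangle. -/
noncomputable def bKs (D : ℕ → ℕ → ℕ) (sp ps : ℕ → ℕ → ℕ → ℕ) (zt : DT) (a : F) : ℕ :=
  3 + 6 * (T.sbud D sp ps a + T.sbud D sp ps (T.I (T.N a)) +
        T.sbud D sp ps (T.I (T.N (T.I (T.N a)))) +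
      (T.rz zt 0 a + T.rz zt 0 (T.I (T.N a)) + T.rz zt 0 (T.I (T.N (T.I (T.N a))))))

/-- The entries of `kt` of a triangle. -/
theorem vK_at (h : ∀ k < 101, ∀ o < optN k, kjO D sp ps t rt pt kt k o = true)
    (hr : DT.all (rtR zt) rt = true) {a : F} (h0 : T.vK kt a ≠ 0) :
    T.px' pt a ≠ 0 ∧ T.wKs t pt a + 2 * T.vK kt a ≤ T.bKs D sp ps zt a ∧
      (T.vK kt (T.I (T.N a)) ≠ 0 → T.wKs t pt a + 2 * (T.vK kt a + T.vK kt (T.I (T.N a)) +
        T.vK kt (T.I (T.N (T.I (T.N a))))) ≤ T.bKs D sp ps zt a) := by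
  have hT := T.vK_tri h0
  obtain ⟨hl, ha, hn⟩ := hT
  have ha2 := T.tri_rot ha
  have ha3 := T.tri_rot ha2
  have h1 := T.kjC_at h ha
  have e0 := T.vK_eq (kt := kt) ⟨hl, ha, hn⟩
  have eNc : T.N (T.I (T.N (T.I (T.N a)))) = T.I a := T.N_third ha
  rw [T.rs_tri ha] at e0
  unfold kjC at h1
  cases hrow : DT.get kt (dkey (T.kx a) (T.jx a)) with
  | nil =>
    rw [e0, hrow] at h0
    exact absurd rfl h0
  | g x r l =>
    rw [hrow] at h1
    simp only [rForce_eq] at h1
    rw [← hrow, ← T.rot_k a, ← T.rot_o ha, ← T.rot_j ha, T.farK_eq ha, T.t3A_jx ha,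
      ← T.rot_j ha2] at h1
    rw [e0] at h0
    have h0' : 0 < DL.val (DT.get kt (dkey (T.kx a) (T.jx a))) (T.sK a)
      (T.eR a * 67108864 + T.eL a) := Nat.pos_of_ne_zero h0
    have h3 := DL.val_of_all h1 h0'
    have hp1 := dkey_parts (x := T.X trX (T.I a)) (T.X_lt13 (T.N a))
    have hp2 := dkey_parts (x := dkey (T.X trX (T.I a)) (T.X trX (T.N a))) (T.Ot_lt a)
    have es : T.sK a = dkey (dkey (T.X trX (T.I a)) (T.X trX (T.N a))) (T.Ot a) := rfl
    rw [es] at h3
    simp only [hp2.1, hp2.2, hp1.1, hp1.2] at h3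
    obtain ⟨h4, h5⟩ := rAnd_iff.1 h3
    have h4 := Nat.le_of_ble_eq_true h4
    have eO : T.Ot a = T.X trX (T.N (T.I (T.N a))) := rfl
    have e1 : T.px' pt a = DL.val (DT.get pt (dkey (T.kx a) (T.jx a)))
        (dkey (T.X trX (T.I a)) (T.X trX (T.N a))) (T.Ot a) := by
      rw [T.px'_tri ha, T.rs_tri ha]
      rfl
    have e2 : T.px' pt (T.I (T.N a)) = DL.val (DT.get pt (dkey (T.kx (T.I (T.N a)))
        (T.jx (T.I (T.N a))))) (dkey (T.X trX (T.N a)) (T.Ot a)) (T.X trX (T.I a)) := by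
      rw [T.px'_tri ha2, T.rs_tri ha2, T.I_I, eNc]
      rfl
    have e3 : T.px' pt (T.I (T.N (T.I (T.N a)))) = DL.val (DT.get pt
        (dkey (T.kx (T.I (T.N (T.I (T.N a))))) (T.jx (T.I (T.N (T.I (T.N a)))))))
        (dkey (T.Ot a) (T.X trX (T.I a))) (T.X trX (T.N a)) := by
      rw [T.px'_tri ha3, T.rs_tri ha3, T.I_I, eNc, I_I]
      rfl
    have d1 : T.dl t a = DL.val (DT.get t (dkey (T.kx a) (T.jx a))) (T.X trX (T.I a))
        (T.X trX (T.N a)) := by
      unfold dl
      rw [T.rs_tri ha]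
    have d2 : T.dl t (T.I (T.N a)) = DL.val (DT.get t (dkey (T.kx (T.I (T.N a)))
        (T.jx (T.I (T.N a))))) (T.X trX (T.N a)) (T.Ot a) := by
      unfold dl
      rw [T.rs_tri ha2, T.I_I]
      rfl
    have d3 : T.dl t (T.I (T.N (T.I (T.N a)))) = DL.val (DT.get t
        (dkey (T.kx (T.I (T.N (T.I (T.N a))))) (T.jx (T.I (T.N (T.I (T.N a)))))))
        (T.Ot a) (T.X trX (T.I a)) := by
      unfold dl
      rw [T.rs_tri ha3, T.I_I, eNc]
      rfl
    have r1 := T.rt_le hr 0 ha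
    have r2 := T.rt_le hr 0 ha2
    have r3 := T.rt_le hr 0 ha3
    rw [eNc] at r3
    rw [T.rs_tri ha] at r1
    rw [T.rs_tri ha2, ← eO] at r2
    rw [T.rs_tri ha3] at r3
    rw [← e1] at h4
    rw [← e1, ← e2, ← e3, ← d1, ← d2, ← d3] at h5
    have e0' : T.vK kt a = DR.val (DL.grp (DT.get kt (dkey (T.kx a) (T.jx a)))
      (dkey (dkey (T.X trX (T.I a)) (T.X trX (T.N a))) (T.Ot a)))
      (T.eR a * 67108864 + T.eL a) := e0
    have h0'' : DR.val (DL.grp (DT.get kt (dkey (T.kx a) (T.jx a)))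
      (dkey (dkey (T.X trX (T.I a)) (T.X trX (T.N a))) (T.Ot a)))
      (T.eR a * 67108864 + T.eL a) ≠ 0 := h0
    have hW : Nat.add (Nat.add (T.px' pt a) (Nat.add (T.px' pt (T.I (T.N a)))
        (T.px' pt (T.I (T.N (T.I (T.N a))))))) (Nat.mul 6 (Nat.add (T.dl t a)
          (Nat.add (T.dl t (T.I (T.N a))) (T.dl t (T.I (T.N (T.I (T.N a)))))))) =
        T.wKs t pt a := by
      unfold wKs
      simp only [Nat.add_eq, Nat.mul_eq]
      omega
    rw [hW] at h5
    obtain ⟨h6, h7⟩ := kjE_at h5 (T.eL_lt a) h0''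
    rw [← e0'] at h6 h7
    have hS : ∀ n : ℕ, T.wKs t pt a + n ≤
        Nat.add (Nat.add 3 (Nat.mul 6 (Nat.add
          (Nat.add (D (T.kx a) (T.ox a)) (Nat.add (D (T.kx (T.I (T.N a))) (T.ox (T.I (T.N a))))
            (D (T.kx (T.I (T.N (T.I (T.N a))))) (T.ox (T.I (T.N (T.I (T.N a))))))))
          (Nat.add (psA sp ps (T.kx a) (T.ox a) (T.jx a))
            (Nat.add (psA sp ps (T.kx (T.I (T.N a))) (T.ox (T.I (T.N a))) (T.jx (T.I (T.N a))))
              (psA sp ps (T.kx (T.I (T.N (T.I (T.N a))))) (T.ox (T.I (T.N (T.I (T.N a)))))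
                (T.jx (T.I (T.N (T.I (T.N a)))))))))))
          (Nat.mul 6 (Nat.add
            (DR.val (DL.grp (DT.get rt (dkey (T.kx a) (T.jx a))) 0) (T.X trX (T.N a)))
            (Nat.add (DR.val (DL.grp (DT.get rt (dkey (T.kx (T.I (T.N a)))
              (T.jx (T.I (T.N a))))) 0) (T.Ot a))
              (DR.val (DL.grp (DT.get rt (dkey (T.kx (T.I (T.N (T.I (T.N a)))))
                (T.jx (T.I (T.N (T.I (T.N a))))))) 0) (T.X trX (T.I a)))))) →
        T.wKs t pt a + n ≤ T.bKs D sp ps zt a := by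
      intro n hn
      refine le_trans hn ?_
      unfold bKs sbud
      rw [T.rs_tri ha, T.rs_tri ha2, T.rs_tri ha3]
      simp only [Nat.add_eq, Nat.mul_eq]
      omega
    refine ⟨by omega, hS _ h6, fun h8 => ?_⟩
    obtain ⟨hl2, -, hn2⟩ := T.vK_tri h8
    have f1 := T.vK_eq (kt := kt) ⟨hl2, ha2, hn2⟩
    rw [T.rs_tri ha2, T.eL_rot hn] at f1
    have es2 : T.sK (T.I (T.N a)) = dkey (dkey (T.X trX (T.N a)) (T.Ot a)) (T.X trX (T.I a)) := by
      unfold sK
      rw [T.I_I]
      unfold Ot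
      rw [eNc]
    have es3 : T.sK (T.I (T.N (T.I (T.N a)))) =
        dkey (dkey (T.Ot a) (T.X trX (T.I a))) (T.X trX (T.N a)) := by
      unfold sK
      rw [T.I_I, eNc]
      unfold Ot
      rw [eNc, I_I]
    rw [es2] at f1
    rw [f1] at h8
    have f2 := T.vK_le kt (T.I (T.N (T.I (T.N a))))
    have hla : T.Tri (T.N (T.I (T.N (T.I (T.N a))))) := by
      rw [eNc]
      have := T.tri_rot hl
      rwa [show T.N (T.N⁻¹ a) = a from Equiv.apply_symm_apply T.N _] at this
    have f3 : T.eL a = T.eR (T.I (T.N (T.I (T.N a)))) := by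
      have := T.eL_rot hla
      rwa [eNc, I_I] at this
    rw [T.rs_tri ha3, es3, ← f3, T.eL_rot hn2] at f2
    have h9 := h7 _ h8 (T.eR_lt a)
    rw [← f1] at h9
    refine le_trans ?_ (hS _ h9)
    omega

end chk

end SMap

/-- The conditions on the tables with further shares. -/
structure Tabs.OKK (c : Tabs) (qt pt kt : DT) : Prop extends c.OKJ qt pt where
  kc : ∀ k < 101, ∀ o < optN k, kjO c.D c.sp c.ps c.t c.rt pt kt k o = true

namespace SMap

variable {F : Type*} (T : SMap F) {c : Tabs} {qt pt kt : DT}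

section

variable (h : c.OKK qt pt kt) (hM : ∀ T : SMap F, c.MapR T)

include h hM

omit hM in
/-- One view of a triangle. -/
theorem vK_view {a : F} (h0 : T.vK kt a ≠ 0) :
    T.PP c pt a + T.PP c pt (T.I (T.N a)) + T.PP c pt (T.I (T.N (T.I (T.N a)))) +
      2 * (T.vK kt a : ℤ) ≤ 6 * T.slT c a ∧
    (T.vK kt (T.I (T.N a)) ≠ 0 →
      T.PP c pt a + T.PP c pt (T.I (T.N a)) + T.PP c pt (T.I (T.N (T.I (T.N a)))) +
        2 * ((T.vK kt a : ℤ) + T.vK kt (T.I (T.N a)) +
          T.vK kt (T.I (T.N (T.I (T.N a))))) ≤ 6 * T.slT c a) := by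
  obtain ⟨h1, h2, h3⟩ := T.vK_at h.kc h.rsv h0
  have ha := (T.vK_tri h0).2.1
  obtain ⟨h4, h5, -, -⟩ := T.px'_sum h.pc h.rsv h1
  unfold PP
  rw [if_neg h1, if_neg (by omega), if_neg (by omega), T.slT_tri ha]
  unfold wKs bKs at h2 h3
  constructor
  · push_cast
    zify at h2
    linarith
  · intro h6
    have h7 := h3 h6
    push_cast
    zify at h7
    linarith

theorem vK_sum {a : F} (ha : T.Tri a) :
    T.PP c pt a + T.PP c pt (T.I (T.N a)) + T.PP c pt (T.I (T.N (T.I (T.N a)))) +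
      2 * ((T.vK kt a : ℤ) + T.vK kt (T.I (T.N a)) +
        T.vK kt (T.I (T.N (T.I (T.N a))))) ≤ 6 * T.slT c a := by
  have ha2 := T.tri_rot ha
  have e3 := T.rot_three ha
  have s1 := T.slT_rot (c := c) ha
  have s2 := T.slT_rot (c := c) ha2
  have v1 := T.vK_view h (a := a)
  have v2 := T.vK_view h (a := T.I (T.N a))
  have v3 := T.vK_view h (a := T.I (T.N (T.I (T.N a))))
  rw [e3, s1] at v2
  rw [e3, s2, s1] at v3
  have v0 := T.PP_sum h.toOKJ hM ha
  by_cases z1 : T.vK kt a = 0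
  · by_cases z2 : T.vK kt (T.I (T.N a)) = 0
    · by_cases z3 : T.vK kt (T.I (T.N (T.I (T.N a)))) = 0
      · rw [z1, z2, z3]
        push_cast
        linarith
      · have := (v3 z3).1
        rw [z1, z2]
        push_cast
        linarith
    · by_cases z3 : T.vK kt (T.I (T.N (T.I (T.N a)))) = 0
      · have := (v2 z2).1
        rw [z1, z3]
        push_cast
        linarith
      · have := (v2 z2).2 z3
        linarith
  · by_cases z2 : T.vK kt (T.I (T.N a)) = 0
    · by_cases z3 : T.vK kt (T.I (T.N (T.I (T.N a)))) = 0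
      · have := (v1 z1).1
        rw [z2, z3]
        push_cast
        linarith
      · have := (v3 z3).2 z1
        linarith
    · have := (v1 z1).2 z2
      linarith

theorem PK_sum {a : F} (ha : T.Tri a) : T.PK c pt kt a + T.PK c pt kt (T.I (T.N a)) +
    T.PK c pt kt (T.I (T.N (T.I (T.N a)))) ≤ 6 * T.slT c a := by
  have h1 := T.vK_sum h hM ha
  have h2 := T.relab.vK_sum h hM (a := a) ha
  simp only [relab_N, relab_I, T.relab_PP h.toOKJ hM, T.relab_slT h.toOKB hM] at h2
  unfold PK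
  linarith

theorem PK_nonneg (a : F) : 0 ≤ T.PK c pt kt a := by
  have h1 := T.PP_nonneg h.toOKJ hM a
  unfold PK
  positivity

theorem relab_PK (a : F) : T.relab.PK c pt kt a = T.PK c pt kt a := by
  unfold PK
  rw [T.relab_PP h.toOKJ hM, relab_relab]
  ring

omit h hM in
theorem PK_big {a : F} (ha : ¬T.Tri a) : T.PK c pt kt a = 0 := by
  have h1 : T.vK kt a = 0 := if_neg fun h => ha h.2.1
  have ha' : ¬T.relab.Tri a := ha
  have h2 : T.relab.vK kt a = 0 := if_neg fun h => ha' h.2.1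
  unfold PK
  rw [T.PP_big ha, h1, h2]
  rfl

end

end SMap

open SMap in
/-- **The shares with the further shares.** -/
theorem Tabs.share_K {c : Tabs} {qt pt kt : DT} {F : Type u} (h : c.OKK qt pt kt)
    (hM : ∀ T : SMap F, c.MapR T) :
    c.Share (F := F) (fun _ _ => 0) (fun T a => T.PK c pt kt a) (fun T d => T.QP c qt d) where
  s0 _ _ _ := rfl
  P0 T a := T.PK_nonneg h hM a
  Pb T _ ha := T.PK_big ha
  P3 T a ha := by
    have := T.PK_sum h hM ha
    linarith
  Pr T a := T.relab_PK h hM a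
  Q0 T d := T.QP_nonneg h.toOKJ hM d
  Q2 T d := by
    have := T.QP_sum h.toOKJ hM d
    linarith
  Qr T d := T.relab_QP h.toOKJ hM d

end Pool.Agent.Lib.MP_5854e1_co
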