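import Pool.Agent.Lib.MP_5854e1_co.Ring
import Pool.Agent.Lib.MP_5854e1_co.Jnt

/-!
# The ring of outer tokens around a cell, with equal shares

Every corner takes a third of the slack of its triangle, every end of a strip takes half of the slack
of its region; in listed stars and listed regions the share is read from the tables `pt` and `qt`
(plus one). The greatest loss over all sequences of outer tokens is computed by dynamic programming:
the value of a token is read from `V`, or else it is the maximum of `M` and its entries in `E`.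
-/

set_option autoImplicit false

open Equiv Equiv.Perm

namespace Pool.Agent.Lib.MP_5854e1_co

open PB CE CE.Cell

noncomputable section

/-! ### Loops over rows -/

/-- The tokens `o` of a row of values `f o` greater than `M` are added to `S`. -/
def DR.cnd (f : ℕ → ℕ) (M : ℕ) (r : DR) : DR → (DR → Bool) → Bool :=
  DR.rec (motive := fun _ => DR → (DR → Bool) → Bool) (fun S K => K S)
    (fun o _ _ ih S K => rForce (f o) fun v =>
      rIf (Nat.ble v M) (ih S K) (ih (DR.e o v S) K)) r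

/-- The column `x` of the groups of a row. -/
def DL.col (x : ℕ) (l : DL) : (DR → Bool) → Bool :=
  DL.rec (motive := fun _ => (DR → Bool) → Bool) (fun K => K DR.nil)
    (fun o r _ ih K => rForce (DR.val r x) fun v =>
      rIf (Nat.beq v (nat_lit 0)) (ih K) (ih fun a => K (DR.e o v a))) l

/-- The value of the token `o`. -/
def DR.lkv (o : ℕ) (E : DR) (M : ℕ) (V : DR) : ℕ :=
  DR.rec (motive := fun _ => ℕ) (DR.mxe o E M) (fun x v _ ih => rIf (Nat.beq x o) v ih) V

/-- The entries of a group without the tokens `o` with `q o ≠ 0`, with the values `s + 3 v`, are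
added to `a`. -/
def DR.pp (s : ℕ) (q : ℕ → ℕ) (r : DR) : DR → (DR → Bool) → Bool :=
  DR.rec (motive := fun _ => DR → (DR → Bool) → Bool) (fun a K => K a)
    (fun o v _ ih a K => rIf (Nat.beq (q o) (nat_lit 0))
      (rForce (Nat.add s (Nat.mul (nat_lit 3) v)) fun w => ih (DR.e o w a) K) (ih a K)) r

/-- The entries of all groups without the pairs of `ql`, with the values `g x + 3 v`, are added to
`a`. -/
def DL.pp (g : ℕ → ℕ) (ql : DR) (l : DL) : DR → (DR → Bool) → Bool :=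
  DL.rec (motive := fun _ => DR → (DR → Bool) → Bool) (fun a K => K a)
    (fun o r _ ih a K => rForce (g o) fun s =>
      DR.pp s (fun x => DR.val ql (dkey o x)) r a fun a' => ih a' K) l

/-- The pairs `dkey o x` of a row, of values `v`, are added to `a` with the values
`g o + 3 q o x - (v - 1)`. -/
def DR.pq (g : ℕ → ℕ) (q : ℕ → ℕ → ℕ) (r : DR) : DR → (DR → Bool) → Bool :=
  DR.rec (motive := fun _ => DR → (DR → Bool) → Bool) (fun a K => K a)
    (fun e v _ ih a K => rForce (Nat.div e (nat_lit 8192)) fun o =>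
      rForce (Nat.mod e (nat_lit 8192)) fun x =>
      rForce (Nat.sub (Nat.add (g o) (Nat.mul (nat_lit 3) (q o x))) (Nat.pred v))
      fun w => ih (DR.e x w a) K) r

/-- The maximum of `m` and the values of the tokens `o` of `S` without the pair `dkey o x` in `ql`. -/
def DR.mxu (ql : DR) (x : ℕ) (S : DR) : ℕ → ℕ :=
  DR.rec (motive := fun _ => ℕ → ℕ) (fun m => m)
    (fun o v _ ih m => rIf (Nat.beq (DR.val ql (dkey o x)) (nat_lit 0))
      (rIf (Nat.ble m v) (ih v) (ih m)) (ih m)) S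

/-- The values of the tokens `x` of the pairs of a row are added to `a`. -/
def DR.ovr (ql E : DR) (M : ℕ) (S r : DR) : DR → (DR → Bool) → Bool :=
  DR.rec (motive := fun _ => DR → (DR → Bool) → Bool) (fun a K => K a)
    (fun e _ _ ih a K => rForce (Nat.mod e (nat_lit 8192)) fun x =>
      rForce (DR.mxe x E (DR.mxu ql x S M)) fun w => ih (DR.e x w a) K) r

end

theorem DR.cnd_sound {f : ℕ → ℕ} {M : ℕ} {r : DR} {K : DR → Bool} : ∀ {S : DR},
    DR.cnd f M r S K = true → ∃ S', K S' = true ∧ (∀ x v, DR.In x v S → DR.In x v S') ∧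
      ∀ x v, DR.In x v r → f x ≤ M ∨ DR.In x (f x) S' := by
  induction r with
  | nil => exact fun {S} h => ⟨S, h, fun x v h1 => h1, fun x v h1 => absurd h1 (fun h1 => h1)⟩
  | e y w r ih =>
    intro S h
    have e1 : DR.cnd f M (DR.e y w r) S K = rForce (f y) fun v =>
      rIf (Nat.ble v M) (DR.cnd f M r S K) (DR.cnd f M r (DR.e y v S) K) := rfl
    rw [e1, rForce_eq] at h
    cases hb : Nat.ble (f y) M with
    | true =>
      rw [hb, rIf_true] at h
      obtain ⟨S', h1, h2, h3⟩ := ih h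
      refine ⟨S', h1, h2, fun x v hx => ?_⟩
      rcases hx with ⟨rfl, -⟩ | hx
      · exact Or.inl (Nat.le_of_ble_eq_true hb)
      · exact h3 x v hx
    | false =>
      rw [hb, rIf_false] at h
      obtain ⟨S', h1, h2, h3⟩ := ih h
      refine ⟨S', h1, fun x v hx => h2 x v (Or.inr hx), fun x v hx => ?_⟩
      rcases hx with ⟨rfl, -⟩ | hx
      · exact Or.inr (h2 _ _ (Or.inl ⟨rfl, rfl⟩))
      · exact h3 x v hx

theorem DL.col_sound {x : ℕ} {l : DL} : ∀ {K : DR → Bool}, DL.col x l K = true →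
    ∃ a, K a = true ∧ ∀ o, DL.val l o x ≤ DR.val a o := by
  induction l with
  | nil => exact fun {K} h => ⟨DR.nil, h, fun o => le_rfl⟩
  | g y r l ih =>
    intro K h
    have e1 : DL.col x (DL.g y r l) K = rForce (DR.val r x) fun v =>
      rIf (Nat.beq v (nat_lit 0)) (DL.col x l K) (DL.col x l fun a => K (DR.e y v a)) := rfl
    rw [e1, rForce_eq] at h
    cases hb : Nat.beq (DR.val r x) (nat_lit 0) with
    | true =>
      rw [hb, rIf_true] at h
      obtain ⟨a, h1, h2⟩ := ih h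
      refine ⟨a, h1, fun o => ?_⟩
      rw [DL.val_g]
      cases h3 : Nat.beq y o with
      | false => exact h2 o
      | true =>
        have h4 : DR.val r x = 0 := Nat.eq_of_beq_eq_true hb
        show DR.val r x ≤ _
        rw [h4]
        exact Nat.zero_le _
    | false =>
      rw [hb, rIf_false] at h
      obtain ⟨a, h1, h2⟩ := ih h
      refine ⟨_, h1, fun o => ?_⟩
      have e2 : DR.val (DR.e y (DR.val r x) a) o =
        Bool.rec (motive := fun _ => ℕ) (DR.val a o) (DR.val r x) (Nat.beq y o) := rfl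
      rw [DL.val_g, e2]
      cases h3 : Nat.beq y o with
      | false => exact h2 o
      | true => exact le_rfl

theorem DR.lkv_cases (o : ℕ) (E : DR) (M : ℕ) (V : DR) :
    DR.lkv o E M V = DR.mxe o E M ∨ DR.In o (DR.lkv o E M V) V := by
  induction V with
  | nil => exact Or.inl rfl
  | e y v V ih =>
    have e1 : DR.lkv o E M (DR.e y v V) = rIf (Nat.beq y o) v (DR.lkv o E M V) := rfl
    rw [e1]
    cases h : Nat.beq y o with
    | false =>
      rw [rIf_false]
      exact ih.imp_right Or.inr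
    | true =>
      rw [rIf_true]
      exact Or.inr (Or.inl ⟨Nat.eq_of_beq_eq_true h, rfl⟩)

theorem DR.pp_sound {s : ℕ} {q : ℕ → ℕ} {r : DR} {K : DR → Bool} : ∀ {a : DR},
    DR.pp s q r a K = true → ∃ a', K a' = true ∧ (∀ x v, DR.In x v a → DR.In x v a') ∧
      ∀ x v, q x = 0 → DR.In x v r → DR.In x (s + 3 * v) a' := by
  induction r with
  | nil => exact fun {a} h => ⟨a, h, fun x v h1 => h1, fun x v _ h1 => absurd h1 (fun h1 => h1)⟩
  | e y w r ih =>
    intro a h
    have e1 : DR.pp s q (DR.e y w r) a K = rIf (Nat.beq (q y) (nat_lit 0))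
      (rForce (Nat.add s (Nat.mul (nat_lit 3) w)) fun w' => DR.pp s q r (DR.e y w' a) K)
      (DR.pp s q r a K) := rfl
    rw [e1, rForce_eq] at h
    cases hb : Nat.beq (q y) (nat_lit 0) with
    | true =>
      rw [hb, rIf_true] at h
      obtain ⟨a', h1, h2, h3⟩ := ih h
      refine ⟨a', h1, fun x v hx => h2 x v (Or.inr hx), fun x v h0 hx => ?_⟩
      rcases hx with ⟨rfl, rfl⟩ | hx
      · exact h2 _ _ (Or.inl ⟨rfl, rfl⟩)
      · exact h3 x v h0 hx
    | false =>
      rw [hb, rIf_false] at h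
      obtain ⟨a', h1, h2, h3⟩ := ih h
      refine ⟨a', h1, h2, fun x v h0 hx => ?_⟩
      rcases hx with ⟨rfl, rfl⟩ | hx
      · rw [h0] at hb
        exact absurd hb (by decide)
      · exact h3 x v h0 hx

theorem DL.pp_sound {g : ℕ → ℕ} {ql : DR} {l : DL} {K : DR → Bool} : ∀ {a : DR},
    DL.pp g ql l a K = true → ∃ a', K a' = true ∧ (∀ x v, DR.In x v a → DR.In x v a') ∧
      ∀ o x, DR.val ql (dkey o x) = 0 → DL.val l o x ≠ 0 →
        DR.In x (g o + 3 * DL.val l o x) a' := by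
  induction l with
  | nil => exact fun {a} h => ⟨a, h, fun x v h1 => h1, fun o x _ h1 => absurd rfl h1⟩
  | g y r l ih =>
    intro a h
    have e1 : DL.pp g ql (DL.g y r l) a K = rForce (g y) fun s =>
      DR.pp s (fun x => DR.val ql (dkey y x)) r a fun a' => DL.pp g ql l a' K := rfl
    rw [e1, rForce_eq] at h
    obtain ⟨a1, h1, h2, h3⟩ := DR.pp_sound h
    obtain ⟨a2, g1, g2, g3⟩ := ih h1
    refine ⟨a2, g1, fun x v hx => g2 x v (h2 x v hx), fun o x h0 ho => ?_⟩
    rw [DL.val_g] at ho ⊢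
    cases h4 : Nat.beq y o with
    | false =>
      rw [h4] at ho
      exact g3 o x h0 ho
    | true =>
      rw [h4] at ho
      have h5 := Nat.eq_of_beq_eq_true h4
      rw [← h5] at h0 ⊢
      exact g2 _ _ (h3 x _ h0 (DR.in_val ho))

theorem DR.pq_sound {g : ℕ → ℕ} {q : ℕ → ℕ → ℕ} {r : DR} {K : DR → Bool} : ∀ {a : DR},
    DR.pq g q r a K = true → ∃ a', K a' = true ∧ (∀ x v, DR.In x v a → DR.In x v a') ∧
      ∀ o x v, x < 8192 → DR.In (dkey o x) v r →
        DR.In x (g o + 3 * q o x - (v - 1)) a' := by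
  induction r with
  | nil =>
    exact fun {a} h => ⟨a, h, fun x v h1 => h1, fun o x v _ h1 => absurd h1 (fun h1 => h1)⟩
  | e y w r ih =>
    intro a h
    have e1 : DR.pq g q (DR.e y w r) a K = rForce (Nat.div y (nat_lit 8192)) fun o =>
      rForce (Nat.mod y (nat_lit 8192)) fun x =>
      rForce (Nat.sub (Nat.add (g o) (Nat.mul (nat_lit 3) (q o x))) (Nat.pred w))
      fun w' => DR.pq g q r (DR.e x w' a) K := rfl
    rw [e1, rForce_eq, rForce_eq, rForce_eq] at h
    obtain ⟨a', h1, h2, h3⟩ := ih h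
    refine ⟨a', h1, fun x v hx => h2 x v (Or.inr hx), fun o x v hx h4 => ?_⟩
    rcases h4 with ⟨rfl, rfl⟩ | h4
    · refine h2 _ _ (Or.inl ⟨?_, ?_⟩)
      · exact (dkey_parts hx).2
      · rw [show Nat.mod (dkey o x) (nat_lit 8192) = x from (dkey_parts hx).2,
          show Nat.div (dkey o x) (nat_lit 8192) = o from (dkey_parts hx).1]
        rfl
    · exact h3 o x v hx h4

theorem DR.le_mxu (ql : DR) (x : ℕ) (S : DR) : ∀ m : ℕ, m ≤ DR.mxu ql x S m ∧
    ∀ o v, DR.val ql (dkey o x) = 0 → DR.In o v S → v ≤ DR.mxu ql x S m := by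
  induction S with
  | nil => exact fun m => ⟨le_rfl, fun o v _ h => absurd h (fun h => h)⟩
  | e y w S ih =>
    intro m
    have e1 : DR.mxu ql x (DR.e y w S) m = rIf (Nat.beq (DR.val ql (dkey y x)) (nat_lit 0))
      (rIf (Nat.ble m w) (DR.mxu ql x S w) (DR.mxu ql x S m)) (DR.mxu ql x S m) := rfl
    rw [e1]
    cases hb : Nat.beq (DR.val ql (dkey y x)) (nat_lit 0) with
    | true =>
      rw [rIf_true]
      obtain ⟨h1, h2⟩ := rIf_max_le (m := m) (v := w) (fun m => (ih m).1)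
      refine ⟨h1, fun o v h0 hx => ?_⟩
      rcases hx with ⟨rfl, rfl⟩ | hx
      · exact h2
      · exact rIf_of_both (P := fun z => v ≤ z) ((ih _).2 o v h0 hx) ((ih m).2 o v h0 hx)
    | false =>
      rw [rIf_false]
      refine ⟨(ih m).1, fun o v h0 hx => ?_⟩
      rcases hx with ⟨rfl, rfl⟩ | hx
      · rw [h0] at hb
        exact absurd hb (by decide)
      · exact (ih m).2 o v h0 hx

theorem DR.ovr_sound {ql E : DR} {M : ℕ} {S r : DR} {K : DR → Bool} : ∀ {a : DR},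
    DR.ovr ql E M S r a K = true → ∃ a', K a' = true ∧
      ∀ x v, DR.In x v a' → DR.In x v a ∨ v = DR.mxe x E (DR.mxu ql x S M) := by
  induction r with
  | nil => exact fun {a} h => ⟨a, h, fun x v h1 => Or.inl h1⟩
  | e y w r ih =>
    intro a h
    have e1 : DR.ovr ql E M S (DR.e y w r) a K = rForce (Nat.mod y (nat_lit 8192)) fun x =>
      rForce (DR.mxe x E (DR.mxu ql x S M)) fun w' => DR.ovr ql E M S r (DR.e x w' a) K := rfl
    rw [e1, rForce_eq, rForce_eq] at h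
    obtain ⟨a', h1, h2⟩ := ih h
    refine ⟨a', h1, fun x v hx => ?_⟩
    rcases h2 x v hx with h3 | h3
    · rcases h3 with ⟨h4, h5⟩ | h3
      · right
        rw [← h5, ← h4]
      · exact Or.inl h3
    · exact Or.inr h3

/-! ### A step -/

noncomputable section

/-- The new value of the token `o`, if `p` is the listed share of the star (plus one) or zero. -/
def CvP (sa sb : ℕ) (tb tc wb wc r0 r1 r2 : DR) (D o p : ℕ) : ℕ :=
  rIf (Nat.beq p (nat_lit 0))
    (Nat.sub (Nat.add D (Nat.add (Nat.mul (nat_lit 2) (Nat.add (DR.val tb o) (DR.val tc o)))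
        (Nat.mul (nat_lit 3) (Nat.add (DR.val wb o) (DR.val wc o)))))
      (Nat.add (Nat.mul (nat_lit 2) (DR.val r0 o))
        (Nat.mul (nat_lit 3) (Nat.add (DR.val r1 o) (DR.val r2 o)))))
    (Nat.sub (Nat.add D (Nat.add (Nat.mul (nat_lit 2) sa)
        (Nat.mul (nat_lit 3) (Nat.add (DR.val wb o) (DR.val wc o)))))
      (Nat.add (Nat.add (Nat.mul (nat_lit 2) sb) (Nat.pred p))
        (Nat.mul (nat_lit 3) (Nat.add (DR.val r1 o) (DR.val r2 o)))))

/-- The new value of the token `o` of a corner of old value `D`: `sa`, `sb` are the budget and the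
own charge of the triangle, `tb`, `tc`, `wb`, `wc` the charges of the two other corners, `r0`, `r1`,
`r2` the reserves, `pr` the listed shares of the star. -/
def CnP (sa sb : ℕ) (tb tc wb wc r0 r1 r2 pr : DR) (D o : ℕ) : ℕ :=
  rForce (DR.val pr o) fun p => CvP sa sb tb tc wb wc r0 r1 r2 D o p

/-- The tokens of values greater than `M`. -/
def cndP (f : ℕ → ℕ) (tb tc wb wc pr E V : DR) (M : ℕ) (K : DR → Bool) : Bool :=
  DR.cnd f M tb DR.nil fun S => DR.cnd f M tc S fun S => DR.cnd f M wb S fun S =>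
    DR.cnd f M wc S fun S => DR.cnd f M pr S fun S => DR.cnd f M E S fun S => DR.cnd f M V S K

/-- The step at a corner of a triangle; `ql` are the listed shares of the region after the corner,
`q` is the rest of the region of a listed pair. -/
def rgStepP (sa sb : ℕ) (tb tc wb wc r0 r1 r2 pr ql : DR) (zb : DL) (q : ℕ → ℕ → ℕ)
    (cA cB M : ℕ) (E V : DR) (A B : ℕ) (K : ℕ → DR → DR → ℕ → ℕ → Bool) : Bool :=
  cndP (fun o => CnP sa sb tb tc wb wc r0 r1 r2 pr (DR.lkv o E M V) o) tb tc wb wc pr E V M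
    fun S =>
  rForce (DR.mxv (fun v _ => v) S M) fun M' =>
  rForce (Nat.add A cA) fun A' => rForce (Nat.add B cB) fun B' =>
  DL.pp (fun o => CnP sa sb tb tc wb wc r0 r1 r2 pr (DR.lkv o E M V) o) ql zb DR.nil fun E1 =>
  DR.pq (fun o => CnP sa sb tb tc wb wc r0 r1 r2 pr (DR.lkv o E M V) o) q ql E1 fun E' =>
  DR.ovr ql E' M S ql DR.nil fun V' => K M' E' V' A' B'

end

theorem CnP_eq {sa sb : ℕ} {tb tc wb wc r0 r1 r2 pr : DR} {D o : ℕ} :
    CnP sa sb tb tc wb wc r0 r1 r2 pr D o = if DR.val pr o = 0 then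
      (D + (2 * (DR.val tb o + DR.val tc o) + 3 * (DR.val wb o + DR.val wc o))) -
        (2 * DR.val r0 o + 3 * (DR.val r1 o + DR.val r2 o))
      else (D + (2 * sa + 3 * (DR.val wb o + DR.val wc o))) -
        (2 * sb + (DR.val pr o - 1) + 3 * (DR.val r1 o + DR.val r2 o)) := by
  unfold CnP
  rw [rForce_eq]
  unfold CvP
  split_ifs with h
  · rw [h]
    rfl
  · have h1 : Nat.beq (DR.val pr o) (nat_lit 0) = false := by
      cases h2 : Nat.beq (DR.val pr o) (nat_lit 0) with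
      | false => rfl
      | true => exact absurd (Nat.eq_of_beq_eq_true h2) h
    rw [h1, rIf_false]
    rfl

theorem DR.val_or_in (r : DR) (o : ℕ) : DR.val r o = 0 ∨ ∃ v, DR.In o v r := by
  by_cases h : DR.val r o = 0
  · exact Or.inl h
  · exact Or.inr ⟨_, DR.in_val h⟩

theorem cndP_sound {f : ℕ → ℕ} {tb tc wb wc pr E V : DR} {M : ℕ} {K : DR → Bool}
    (h : cndP f tb tc wb wc pr E V M K = true) : ∃ S, K S = true ∧
      ∀ o, ((∃ v, DR.In o v tb) ∨ (∃ v, DR.In o v tc) ∨ (∃ v, DR.In o v wb) ∨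
        (∃ v, DR.In o v wc) ∨ (∃ v, DR.In o v pr) ∨ (∃ v, DR.In o v E) ∨ (∃ v, DR.In o v V)) →
          f o ≤ M ∨ DR.In o (f o) S := by
  unfold cndP at h
  obtain ⟨S1, h1, -, c1⟩ := DR.cnd_sound h
  obtain ⟨S2, h2, b2, c2⟩ := DR.cnd_sound h1
  obtain ⟨S3, h3, b3, c3⟩ := DR.cnd_sound h2
  obtain ⟨S4, h4, b4, c4⟩ := DR.cnd_sound h3
  obtain ⟨S5, h5, b5, c5⟩ := DR.cnd_sound h4
  obtain ⟨S6, h6, b6, c6⟩ := DR.cnd_sound h5
  obtain ⟨S7, h7, b7, c7⟩ := DR.cnd_sound h6
  refine ⟨S7, h7, fun o ho => ?_⟩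
  rcases ho with ⟨v, h⟩ | ⟨v, h⟩ | ⟨v, h⟩ | ⟨v, h⟩ | ⟨v, h⟩ | ⟨v, h⟩ | ⟨v, h⟩
  · exact (c1 o v h).imp_right fun g => b7 _ _ (b6 _ _ (b5 _ _ (b4 _ _ (b3 _ _ (b2 _ _ g)))))
  · exact (c2 o v h).imp_right fun g => b7 _ _ (b6 _ _ (b5 _ _ (b4 _ _ (b3 _ _ g))))
  · exact (c3 o v h).imp_right fun g => b7 _ _ (b6 _ _ (b5 _ _ (b4 _ _ g)))
  · exact (c4 o v h).imp_right fun g => b7 _ _ (b6 _ _ (b5 _ _ g))
  · exact (c5 o v h).imp_right fun g => b7 _ _ (b6 _ _ g)
  · exact (c6 o v h).imp_right fun g => b7 _ _ g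
  · exact c7 o v h

theorem rgStepP_sound {sa sb : ℕ} {tb tc wb wc r0 r1 r2 pr ql : DR} {zb : DL} {q : ℕ → ℕ → ℕ}
    {cA cB M : ℕ} {E V : DR} {A B : ℕ} {K : ℕ → DR → DR → ℕ → ℕ → Bool}
    (h : rgStepP sa sb tb tc wb wc r0 r1 r2 pr ql zb q cA cB M E V A B K = true) :
    ∃ M' E' V', K M' E' V' (A + cA) (B + cB) = true ∧
      (∀ o, CnP sa sb tb tc wb wc r0 r1 r2 pr (DR.lkv o E M V) o ≤ M') ∧
      (∀ o o', DR.val ql (dkey o o') = 0 →
        CnP sa sb tb tc wb wc r0 r1 r2 pr (DR.lkv o E M V) o ≤ DR.lkv o' E' M' V') ∧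
      (∀ o o', DR.val ql (dkey o o') = 0 → DL.val zb o o' ≠ 0 →
        DR.In o' (CnP sa sb tb tc wb wc r0 r1 r2 pr (DR.lkv o E M V) o +
          3 * DL.val zb o o') E') ∧
      (∀ o o', o' < 8192 → DR.val ql (dkey o o') ≠ 0 →
        DR.In o' (CnP sa sb tb tc wb wc r0 r1 r2 pr (DR.lkv o E M V) o +
          3 * q o o' - (DR.val ql (dkey o o') - 1)) E') ∧
      ∀ o' v, DR.In o' v E' → v ≤ DR.lkv o' E' M' V' := by
  unfold rgStepP at h
  set f := fun o => CnP sa sb tb tc wb wc r0 r1 r2 pr (DR.lkv o E M V) o with hf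
  obtain ⟨S, h1, h2⟩ := cndP_sound h
  rw [rForce_eq, rForce_eq, rForce_eq] at h1
  obtain ⟨E1, h3, -, h4⟩ := DL.pp_sound h1
  obtain ⟨E', h5, h6, h7⟩ := DR.pq_sound h3
  obtain ⟨V', h8, h9⟩ := DR.ovr_sound h5
  set M' := DR.mxv (fun v _ => v) S M with hM'
  have a1 := DR.le_mxv (fun v _ => v) S M
  -- all tokens
  have key : ∀ o, f o ≤ M ∨ DR.In o (f o) S := by
    intro o
    by_cases ho : (∃ v, DR.In o v tb) ∨ (∃ v, DR.In o v tc) ∨ (∃ v, DR.In o v wb) ∨
        (∃ v, DR.In o v wc) ∨ (∃ v, DR.In o v pr) ∨ (∃ v, DR.In o v E) ∨ (∃ v, DR.In o v V)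
    · exact h2 o ho
    · left
      simp only [not_or] at ho
      obtain ⟨n1, n2, n3, n4, n5, n6, n7⟩ := ho
      have e1 := (DR.val_or_in tb o).resolve_right n1
      have e2 := (DR.val_or_in tc o).resolve_right n2
      have e3 := (DR.val_or_in wb o).resolve_right n3
      have e4 := (DR.val_or_in wc o).resolve_right n4
      have e5 := (DR.val_or_in pr o).resolve_right n5
      have e6 : DR.lkv o E M V = M := by
        rcases DR.lkv_cases o E M V with h | h
        · rw [h]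
          rcases DR.mxe_cases o E M with g | g
          · exact g
          · exact absurd ⟨_, g⟩ n6
        · exact absurd ⟨_, h⟩ n7
      show CnP sa sb tb tc wb wc r0 r1 r2 pr (DR.lkv o E M V) o ≤ M
      rw [CnP_eq, if_pos e5, e1, e2, e3, e4, e6]
      omega
  have hm : M ≤ M' := a1.1
  have hlk : ∀ o' v, DR.In o' v E' → v ≤ DR.lkv o' E' M' V' := by
    intro o' v hv
    rcases DR.lkv_cases o' E' M' V' with g | g
    · rw [g]
      exact (DR.le_mxe o' E' M').2 v hv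
    · rcases h9 _ _ g with g1 | g1
      · exact absurd g1 (fun h => h)
      · rw [g1]
        exact (DR.le_mxe o' E' _).2 v hv
  refine ⟨M', E', V', h8, fun o => ?_, fun o o' h0 => ?_, fun o o' h0 hz => ?_,
    fun o o' h8' h0 => ?_, hlk⟩
  · rcases key o with g | g
    · exact le_trans g hm
    · exact a1.2 _ _ g
  · rcases DR.lkv_cases o' E' M' V' with g | g
    · rw [g]
      refine le_trans ?_ (DR.le_mxe o' E' M').1
      rcases key o with g | g
      · exact le_trans g hm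
      · exact a1.2 _ _ g
    · rcases h9 _ _ g with g1 | g1
      · exact absurd g1 (fun h => h)
      · rw [g1]
        refine le_trans ?_ (DR.le_mxe o' E' _).1
        have a2 := DR.le_mxu ql o' S M
        rcases key o with g | g
        · exact le_trans g a2.1
        · exact a2.2 _ _ h0 g
  · exact h6 _ _ (h4 o o' h0 hz)
  · exact h7 o o' _ h8' (DR.in_val h0)

/-- The new value as an integer; `P` is the loss of the star without the constants. -/
theorem le_CnP {sa sb : ℕ} {tb tc wb wc r0 r1 r2 pr : DR} {D o : ℕ} {X P : ℤ} (h : X ≤ D)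
    (h0 : DR.val pr o = 0 → P ≤ 2 * ((DR.val tb o : ℤ) + DR.val tc o - DR.val r0 o))
    (h1 : DR.val pr o ≠ 0 → P ≤ 2 * ((sa : ℤ) - sb) - ((DR.val pr o : ℤ) - 1)) :
    X + P + 3 * ((DR.val wb o : ℤ) - DR.val r1 o) + 3 * ((DR.val wc o : ℤ) - DR.val r2 o) ≤
      (CnP sa sb tb tc wb wc r0 r1 r2 pr D o : ℤ) := by
  rw [CnP_eq]
  split_ifs with h2
  · have := h0 h2
    omega
  · have := h1 h2
    omega

/-! ### The test of a cell -/

noncomputable section

/-- The step at a corner which is followed by a triangle; `h` is the flag of the window before. -/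
def gpT (c : Tabs) (qt pt : DT) (k0 s0 k1 o1 s1 k2 o2 s2 k3 s3 h M : ℕ) (E V : DR) (A B : ℕ)
    (K : ℕ → ℕ → DR → DR → ℕ → ℕ → Bool) : Bool :=
  rForce (Nat.div (flA k1 o1) (nat_lit 16384)) fun kb =>
  rForce (Nat.mod (triA k1 s1) (nat_lit 512)) fun ob =>
  rForce (rjA k1 s1) fun jb =>
  rForce (farK k1 o1 s1) fun kc =>
  rForce (t3A k1 s1) fun oc =>
  rForce (rjA kb jb) fun jc =>
  rForce (Nat.div (flA k2 o2) (nat_lit 16384)) fun kf =>
  rForce (Nat.mod (triA k2 s2) (nat_lit 512)) fun of =>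
  rForce (rjA k2 s2) fun jf =>
  rForce (farK k2 o2 s2) fun kg =>
  rForce (t3A k2 s2) fun og =>
  rForce (rjA kf jf) fun jg =>
  rForce (xrT rjA k0 s0) fun x0 =>
  rForce (xrT trX k2 s2) fun x1 =>
  rForce (xrT trX k3 s3) fun x2 =>
  rForce (DL.val (DT.get c.t (dkey k1 s1)) x0 x1) fun d1 =>
  rForce (DL.val (DT.get c.zt (zkey k1 s1 s2)) x2 x0) fun z1 =>
  rForce (cST c k1 o1 s1 kb ob jb kc oc jc x0 x1) fun sa =>
  rForce (cRA c k1 o1 s1 kb ob jb kc oc jc k2 o2 s2 kf of jf kg og jg x0 x2) fun ra =>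
  rForce (cRB c k1 o1 s1 kb ob jb k2 o2 s2 kg og jg z1) fun rb =>
  DL.col x0 (DT.get c.t (dkey kc jc)) fun tc =>
  DL.col x0 (DT.get c.tw (dkey kc jc)) fun wc =>
  rgStepP sa d1 (DL.grp (DT.get c.t (dkey kb jb)) x1) tc
    (flR h (DL.grp (DT.get c.tw (dkey kb jb)) x1)) wc
    (DL.grp (DT.get c.rt (dkey kb jb)) (nat_lit 0))
    (flR h (DL.grp (DT.get c.rt (dkey kb jb)) (nat_lit 1)))
    (DL.grp (DT.get c.rt (dkey kb jb)) (nat_lit 2))
    (DL.grp (DT.get pt (dkey k1 s1)) (dkey x0 x1))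
    (DL.grp (DT.get qt (zkey k1 s1 s2)) (dkey x2 x0))
    (DL.tl (DT.get c.zt (zkey kg jg jb)))
    (fun o o' => Nat.sub
      (Nat.add ra (Nat.add (DR.val (DL.grp (DT.get c.rt (dkey kb jb)) (nat_lit 2)) o)
        (DR.val (DL.grp (DT.get c.rt (dkey kf jf)) (nat_lit 1)) o')))
      (Nat.add rb (Nat.add (DR.val wc o)
        (DR.val (DL.grp (DT.get c.tw (dkey kf jf)) x2) o'))))
    (Nat.add (Nat.mul (nat_lit 2) sa) (Nat.mul (nat_lit 3) ra))
    (Nat.add (Nat.mul (nat_lit 2) d1) (Nat.mul (nat_lit 3) rb)) M E V A B (K (nat_lit 1))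

/-- The step at a corner of a triangle without the strip after it. -/
def gpS (c : Tabs) (pt : DT) (k0 s0 k1 o1 s1 k2 s2 h M : ℕ) (E V : DR) (A B : ℕ)
    (K : ℕ → ℕ → DR → DR → ℕ → ℕ → Bool) : Bool :=
  rForce (Nat.div (flA k1 o1) (nat_lit 16384)) fun kb =>
  rForce (Nat.mod (triA k1 s1) (nat_lit 512)) fun ob =>
  rForce (rjA k1 s1) fun jb =>
  rForce (farK k1 o1 s1) fun kc =>
  rForce (t3A k1 s1) fun oc =>
  rForce (rjA kb jb) fun jc =>
  rForce (xrT rjA k0 s0) fun x0 =>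
  rForce (xrT trX k2 s2) fun x1 =>
  rForce (DL.val (DT.get c.t (dkey k1 s1)) x0 x1) fun d1 =>
  rForce (cST c k1 o1 s1 kb ob jb kc oc jc x0 x1) fun sa =>
  DL.col x0 (DT.get c.t (dkey kc jc)) fun tc =>
  rgStepP sa d1 (DL.grp (DT.get c.t (dkey kb jb)) x1) tc
    (flR h (DL.grp (DT.get c.tw (dkey kb jb)) x1)) DR.nil
    (DL.grp (DT.get c.rt (dkey kb jb)) (nat_lit 0))
    (flR h (DL.grp (DT.get c.rt (dkey kb jb)) (nat_lit 1))) DR.nil
    (DL.grp (DT.get pt (dkey k1 s1)) (dkey x0 x1)) DR.nil DL.nil (fun _ _ => nat_lit 0)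
    (Nat.mul (nat_lit 2) sa) (Nat.mul (nat_lit 2) d1) M E V A B (K (nat_lit 0))

/-- The step at a corner without the strip after it. -/
def gpE (c : Tabs) (pt : DT) (k0 s0 k1 o1 s1 k2 s2 h M : ℕ) (E V : DR) (A B : ℕ)
    (K : ℕ → ℕ → DR → DR → ℕ → ℕ → Bool) : Bool :=
  rIf (Nat.ble (nat_lit 7936) s1) (K (nat_lit 0) M DR.nil DR.nil A B)
    (gpS c pt k0 s0 k1 o1 s1 k2 s2 h M E V A B K)

/-- The step at a corner. -/
def gpC (c : Tabs) (qt pt : DT) (k0 s0 k1 o1 s1 k2 o2 s2 k3 s3 h M : ℕ) (E V : DR)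
    (A B : ℕ) (K : ℕ → ℕ → DR → DR → ℕ → ℕ → Bool) : Bool :=
  rIf (Nat.ble (nat_lit 7936) s1) (K (nat_lit 0) M DR.nil DR.nil A B)
    (rIf (Nat.ble (nat_lit 7936) s2) (gpS c pt k0 s0 k1 o1 s1 k2 s2 h M E V A B K)
      (gpT c qt pt k0 s0 k1 o1 s1 k2 o2 s2 k3 s3 h M E V A B K))

/-- The steps along a path. -/
def goP (c : Tabs) (qt pt : DT) (p : Pth) : ℕ → ℕ → ℕ → ℕ → ℕ → ℕ → ℕ → ℕ → ℕ → ℕ →
    DR → DR → ℕ → ℕ → (ℕ → ℕ → ℕ → ℕ → ℕ → ℕ → ℕ → ℕ → ℕ → DR → DR → ℕ → ℕ → Bool) → Bool :=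
  Pth.rec (motive := fun _ => ℕ → ℕ → ℕ → ℕ → ℕ → ℕ → ℕ → ℕ → ℕ → ℕ → DR → DR → ℕ → ℕ →
      (ℕ → ℕ → ℕ → ℕ → ℕ → ℕ → ℕ → ℕ → ℕ → DR → DR → ℕ → ℕ → Bool) → Bool)
    (fun k0 s0 k1 o1 s1 k2 _ s2 h M E V A B K => K k0 s0 k1 o1 s1 k2 s2 h M E V A B)
    (fun k3 o3 s3 _ ih k0 s0 k1 o1 s1 k2 o2 s2 h M E V A B K =>
      gpC c qt pt k0 s0 k1 o1 s1 k2 o2 s2 k3 s3 h M E V A B fun h' M' E' V' A' B' =>
        ih k1 s1 k2 o2 s2 k3 o3 s3 h' M' E' V' A' B' K) p

/-- The first corners of a path. -/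
def Pth.tak (p : Pth) : ℕ → Pth :=
  Pth.rec (motive := fun _ => ℕ → Pth) (fun _ => Pth.nil)
    (fun k o s _ ih n => rIf (Nat.beq n (nat_lit 0)) Pth.nil
      (Pth.cons k o s (ih (Nat.pred n)))) p

/-- The first corner of a path is put to the end. -/
def Pth.rt1 (q : Pth) : Pth :=
  Pth.rec (motive := fun _ => Pth) Pth.nil
    (fun k o s p _ => Pth.app p (Pth.cons k o s Pth.nil)) q

/-- The first `r` corners of a path are put to the end. -/
def Pth.rot (q : Pth) (r : ℕ) : Pth :=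
  Nat.rec (motive := fun _ => Pth) q (fun _ ih => Pth.rt1 ih) r

/-- The test of all rings around a cell, for the path `k1 o1 s1`, `k2 o2 s2`, ..., of last corner
`kl sl`; `p` is the path after the second corner, continued by the first two corners. -/
def ringPC (c : Tabs) (qt pt : DT) (m : ℕ) (p : Pth) (kl sl k1 o1 s1 k2 o2 s2 : ℕ) : Bool :=
  rForce (rIf (Nat.ble (nat_lit 7936) sl) (nat_lit 0)
    (rIf (Nat.ble (nat_lit 7936) s1) (nat_lit 0) (nat_lit 1))) fun h =>
  goP c qt pt p kl sl k1 o1 s1 k2 o2 s2 h offR DR.nil DR.nil (nat_lit 0) (nat_lit 0)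
    fun _ _ _ _ _ _ _ _ M E _ A B =>
    rAnd (Nat.ble (Nat.add M (Nat.add (Nat.mul (nat_lit 6) m) B)) (Nat.add offR A))
      (DR.all (fun z v =>
        rIf (Nat.ble (Nat.add v (Nat.add (Nat.mul (nat_lit 6) m) B)) (Nat.add offR A)) true
        (goP c qt pt p kl sl k1 o1 s1 k2 o2 s2 h (nat_lit 0) (DR.e z offR DR.nil) DR.nil
          (nat_lit 0) (nat_lit 0) fun _ _ _ _ _ _ _ _ _ E' _ A' B' =>
          Nat.ble (Nat.add (DR.mxe z E' (nat_lit 0)) (Nat.add (Nat.mul (nat_lit 6) m) B'))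
            (Nat.add offR A'))) E)

/-- The test of a part of the rings around a cell: `p` is the path after the second corner, one
corner less than the corners which are used. -/
def ringPD (c : Tabs) (qt pt : DT) (m : ℕ) (p : Pth) (kl sl k1 o1 s1 k2 o2 s2 : ℕ) : Bool :=
  goP c qt pt p kl sl k1 o1 s1 k2 o2 s2 (nat_lit 0) offR DR.nil DR.nil (nat_lit 0) (nat_lit 0)
    fun k0 s0 k1 o1 s1 k2 s2 h M E V A B =>
    gpE c pt k0 s0 k1 o1 s1 k2 s2 h M E V A B fun _ M' _ _ A' B' =>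
      Nat.ble (Nat.add M' (Nat.add (Nat.mul (nat_lit 6) m) B')) (Nat.add offR A')

/-- The test of the rings around a cell with the first `n` corners, or with all corners if `n` is
zero. -/
def ringN (c : Tabs) (qt pt : DT) (n : ℕ) (q : Pth) (m : ℕ) : Bool :=
  Pth.rec (motive := fun _ => Bool) false (fun k1 o1 s1 q1 _ =>
    Pth.rec (motive := fun _ => Bool) false (fun k2 o2 s2 q2 _ =>
      Pth.lst q2 k1 s1 k2 s2 fun _ _ kl sl => rIf (Nat.beq n (nat_lit 0))
        (ringPC c qt pt m (Pth.app q2 (Pth.cons k1 o1 s1 (Pth.cons k2 o2 s2 Pth.nil))) kl sl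
          k1 o1 s1 k2 o2 s2)
        (ringPD c qt pt m (Pth.tak (Pth.app q2 (Pth.cons k1 o1 s1 Pth.nil)) (Nat.pred n)) kl sl
          k1 o1 s1 k2 o2 s2)) q1) q

/-- The test of the rings around a cell: the hint `16 r + n` says that the first `r` corners are
put to the end and that `n` corners are used, or all if `n` is zero. -/
def ringP (c : Tabs) (qt pt : DT) (hint : Pth → ℕ) (q : Pth) (m : ℕ) : Bool :=
  rForce (hint q) fun g =>
    ringN c qt pt (Nat.mod g (nat_lit 16)) (Pth.rot q (Nat.div g (nat_lit 16))) m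

/-- A number of a path. -/
def Pth.hsh (q : Pth) : ℕ :=
  Pth.rec (motive := fun _ => ℕ → ℕ) (fun a => a)
    (fun k _ s _ ih a => rForce (Nat.mod (Nat.add (Nat.mul a (nat_lit 1103515245))
      (Nat.add (Nat.mul k (nat_lit 8192)) s)) (nat_lit 1099511627689)) fun a' => ih a') q
    (nat_lit 1)

/-- The hints of a table. -/
def hintD (ht : DT) (q : Pth) : ℕ :=
  DL.rec (motive := fun _ => ℕ) (nat_lit 0) (fun h _ _ _ => h) (DT.get ht (Pth.hsh q))

end

end Pool.Agent.Lib.MP_5854e1_co
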