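import Pool.Agent.Lib.MP_5854e1_co.RingP
import Pool.Agent.Lib.MP_5854e1_co.RingMap
import Pool.Agent.Lib.MP_5854e1_co.RingJMap

/-!
# The ring of a cell of a map of strips, with equal shares
-/

set_option autoImplicit false

open Equiv Equiv.Perm

namespace Pool.Agent.Lib.MP_5854e1_co

open PB CE CE.Cell

universe u

namespace SMap

variable {F : Type*} (T : SMap F) {c : Tabs} {qt pt : DT}

/-! ### The shares -/

/-- The share of the corner after `a` in six times the slack of its triangle. -/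
noncomputable def PP (c : Tabs) (pt : DT) (a : F) : ℤ :=
  if T.px' pt a = 0 then 2 * T.slT c a else (T.px' pt a : ℤ) - 1

/-- The share of the window at the strip `N d` in six times the slack of its region. -/
noncomputable def QP (c : Tabs) (qt : DT) (d : F) : ℤ :=
  if T.qx qt d = 0 then 3 * T.slR c d else (T.qx qt d : ℤ) - 1

section

variable (h : c.OKJ qt pt) (hM : ∀ T : SMap F, c.MapR T)

include h hM

theorem QP_nonneg (d : F) : 0 ≤ T.QP c qt d := by
  unfold QP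
  split_ifs with h0
  · exact mul_nonneg (by norm_num) (T.slR_nonneg h.toOKR hM d)
  · omega

theorem PP_nonneg (a : F) : 0 ≤ T.PP c pt a := by
  unfold PP
  split_ifs with h0
  · exact mul_nonneg (by norm_num) (T.slT_nonneg h.toOKR hM a)
  · omega

omit h hM in
theorem PP_big {a : F} (ha : ¬T.Tri a) : T.PP c pt a = 0 := by
  unfold PP
  rw [if_pos (T.px'_big ha), T.slT_big ha, mul_zero]

theorem relab_QP (d : F) : T.relab.QP c qt d = T.QP c qt d := by
  unfold QP
  rw [T.relab_qx h.qc, T.relab_slR h.toOKB hM]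

theorem relab_PP (a : F) : T.relab.PP c pt a = T.PP c pt a := by
  unfold PP
  rw [T.relab_px' h.pc h.rsv, T.relab_slT h.toOKB hM]

theorem QP_sum (d : F) : T.QP c qt d + T.QP c qt (T.bk d) ≤ 6 * T.slR c d := by
  unfold QP
  by_cases h0 : T.qx qt d = 0
  · have h1 : T.qx qt (T.bk d) = 0 := by
      by_contra h2
      have h3 := (T.qjR_at h.qc h.reg h.rsv h2).1
      rw [bk_bk] at h3
      omega
    rw [if_pos h0, if_pos h1, T.slR_bk]
    linarith
  · have h1 : T.qx qt (T.bk d) ≠ 0 := by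
      have := (T.qjR_at h.qc h.reg h.rsv h0).1
      omega
    rw [if_neg h0, if_neg h1]
    have := T.qx_sum h hM h0
    linarith

theorem PP_sum {a : F} (ha : T.Tri a) : T.PP c pt a + T.PP c pt (T.I (T.N a)) +
    T.PP c pt (T.I (T.N (T.I (T.N a)))) ≤ 6 * T.slT c a := by
  have ha2 := T.tri_rot ha
  have ha3 := T.tri_rot ha2
  have e3 := T.rot_three ha
  unfold PP
  by_cases h0 : T.px' pt a = 0
  · have h1 : T.px' pt (T.I (T.N a)) = 0 := by
      by_contra h2
      have h3 := (T.px'_sum h.pc h.rsv h2).2.1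
      rw [e3] at h3
      omega
    have h2 : T.px' pt (T.I (T.N (T.I (T.N a)))) = 0 := by
      by_contra h2
      have h3 := (T.px'_sum h.pc h.rsv h2).1
      rw [e3] at h3
      omega
    rw [if_pos h0, if_pos h1, if_pos h2, T.slT_rot ha2, T.slT_rot ha]
    linarith
  · obtain ⟨h1, h2, h3, -⟩ := T.px'_sum h.pc h.rsv h0
    rw [if_neg h0, if_neg (by omega), if_neg (by omega), T.slT_tri ha]
    push_cast
    zify at h3
    linarith

end

/-! ### The amounts of a corner -/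

open Classical in
/-- The constant amounts of the triangle of a corner. -/
noncomputable def aS (c : Tabs) (a : F) : ℤ :=
  if T.Tri a then 2 * ((T.sP c a : ℤ) - T.dl c.t a) else 0

open Classical in
/-- The constant amounts of the strip after a corner. -/
noncomputable def aR (c : Tabs) (a : F) : ℤ :=
  if T.Tri a ∧ T.Tri (T.N a) then 3 * ((T.pP c a : ℤ) - T.pM c a) else 0

open Classical in
/-- The loss of the triangle of a corner. -/
noncomputable def uS (c : Tabs) (pt : DT) (a : F) : ℤ :=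
  if T.Tri a then
    (if T.px' pt a = 0 then 2 * ((T.dl c.t (T.I (T.N a)) : ℤ) +
      T.dl c.t (T.I (T.N (T.I (T.N a)))) - T.rv c 0 (T.I (T.N a)))
    else 2 * ((T.sP c a : ℤ) - T.dl c.t a) - ((T.px' pt a : ℤ) - 1))
  else 0

open Classical in
/-- The loss of the strip after a corner, at the corner. -/
noncomputable def uR (c : Tabs) (a : F) : ℤ :=
  if T.Tri a ∧ T.Tri (T.N a) then
    3 * ((T.dl c.tw (T.I (T.N (T.I (T.N a)))) : ℤ) - T.rv c 2 (T.I (T.N a))) else 0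

/-- The loss of the strip before a corner, at the corner, if there is a region. -/
noncomputable def wW (c : Tabs) (a : F) : ℤ :=
  3 * ((T.dl c.tw (T.I (T.N a)) : ℤ) - T.rv c 1 (T.I (T.N a)))

open Classical in
/-- The loss of the strip before a corner, at the corner. -/
noncomputable def uW (c : Tabs) (a : F) : ℤ :=
  if T.Tri (T.N⁻¹ a) ∧ T.Tri a then T.wW c a else 0

open Classical in
/-- The loss by the window at the other end of the strip after a corner. -/
noncomputable def uZ (c : Tabs) (qt : DT) (a : F) : ℤ :=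
  if T.Tri a ∧ T.Tri (T.N a) then
    (if T.qx qt a = 0 then 3 * (T.win c.zt (T.bk a) : ℤ)
    else 3 * (T.sR c a + T.win c.zt (T.bk a)) - ((T.qx qt a : ℤ) - 1))
  else 0

/-- The share of a triangle. -/
theorem star_local (hr : DT.all (rtR c.zt) c.rt = true) (a : F) (h0 : 0 ≤ T.slT c a) :
    T.aS c a - T.uS c pt a ≤ T.PP c pt a := by
  unfold aS uS PP
  by_cases ha : T.Tri a
  · rw [if_pos ha, if_pos ha]
    split_ifs with h1
    · have hb := T.tri_rot ha
      have hc := T.tri_rot hb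
      have r1 : T.rv c 0 a ≤ T.rz c.zt 0 a := T.rt_le hr 0 ha
      have r2 : T.rv c 0 (T.I (T.N a)) ≤ T.rz c.zt 0 (T.I (T.N a)) := T.rt_le hr 0 hb
      have r3 : T.rv c 0 (T.I (T.N (T.I (T.N a)))) ≤ T.rz c.zt 0 (T.I (T.N (T.I (T.N a)))) :=
        T.rt_le hr 0 hc
      rw [T.slT_tri ha]
      unfold sP
      push_cast
      zify at r1 r2 r3
      linarith
    · linarith
  · rw [if_neg ha, if_neg ha, if_pos (T.px'_big ha)]
    linarith

/-- The share of a region. -/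
theorem region_local (hM : c.MapR T) (hr : DT.all (rtR c.zt) c.rt = true) (a : F)
    (h0 : 0 ≤ T.slR c a) :
    T.aR c a - T.uR c a - T.uW c (T.N a) - T.uZ c qt a ≤ T.QP c qt a := by
  unfold aR uR uW uZ QP
  rw [N_inv_N]
  by_cases ha : T.Tri a ∧ T.Tri (T.N a)
  · rw [if_pos ha, if_pos ha, if_pos ha, if_pos ha]
    unfold wW
    have h1 := T.sR_le hM hr ha.1 ha.2
    unfold sR at h1 ⊢
    split_ifs with h2
    · linarith
    · linarith
  · rw [if_neg ha, if_neg ha, if_neg ha, if_neg ha]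
    have h1 : T.qx qt a = 0 := by
      by_contra h2
      exact ha (T.tri_of_qx h2)
    rw [if_pos h1]
    linarith

/-! ### A step -/

/-- What is known before a corner. -/
def PInv (a : F) (X : ℤ) (M : ℕ) (E V : DR) : Prop :=
  (T.Tri a → X ≤ DR.lkv (T.Ot a) E M V) ∧ (¬T.Tri a → X ≤ M)

open Classical in
/-- The loss of the strip before a corner, with the flag `h`. -/
noncomputable def fW (c : Tabs) (h : ℕ) (a : F) : ℤ := if h = 0 then 0 else T.wW c a

/-- A special transition. -/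
def Spc (c : Tabs) (qt : DT) (a : F) : Prop :=
  T.Tri a ∧ T.Tri (T.N a) ∧ (T.win c.zt (T.bk a) ≠ 0 ∨ T.qx qt a ≠ 0)

/-- What is known after the step at a corner. -/
def PEnd (c : Tabs) (qt : DT) (a : F) (X : ℤ) (M : ℕ) (E V : DR) : Prop :=
  T.PInv (T.N a) X M E V ∧ (¬T.Spc c qt a → X ≤ M) ∧
    (T.Spc c qt a → ∃ v : ℕ, DR.In (T.Ot (T.N a)) v E ∧ X ≤ v)

/-- The claim of a step. -/
def PStep (c : Tabs) (qt pt : DT) (a : F) (h : ℕ) (X : ℤ) (A B : ℕ)
    (K : ℕ → ℕ → DR → DR → ℕ → ℕ → Bool) : Prop :=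
  ∃ (h' M' : ℕ) (E' V' : DR) (A' B' : ℕ), K h' M' E' V' A' B' = true ∧
    (A' : ℤ) - B' = A - B + (T.aS c a + T.aR c a) ∧
    T.fW c h' (T.N a) = T.uW c (T.N a) ∧
    T.PEnd c qt a (X + T.fW c h a + (T.uS c pt a + T.uR c a + T.uZ c qt a)) M' E' V'

theorem val_flR_W (h : ℕ) (wb r1 : DR) (o : ℕ) (W : ℤ)
    (hW : W = 3 * ((DR.val wb o : ℤ) - DR.val r1 o)) :
    (if h = 0 then 0 else W) = 3 * ((DR.val (flR h wb) o : ℤ) - DR.val (flR h r1) o) := by
  rw [val_flR, val_flR]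
  split_ifs
  · simp
  · exact hW

/-- The step at a corner of a triangle without the strip after it. -/
theorem gpS_sound {e : F} {h : ℕ} {X : ℤ} {M : ℕ} {E V : DR} {A B : ℕ}
    {K : ℕ → ℕ → DR → DR → ℕ → ℕ → Bool}
    (ha : T.Tri (T.N e)) (hi : T.PInv (T.N e) X M E V)
    (hg : gpS c pt (T.kx e) (T.sO e) (T.kx (T.N e)) (T.ox (T.N e)) (T.sO (T.N e))
      (T.kx (T.N (T.N e))) (T.sO (T.N (T.N e))) h M E V A B K = true) :
    ∃ (M' : ℕ) (E' V' : DR) (A' B' : ℕ), K 0 M' E' V' A' B' = true ∧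
      (A' : ℤ) - B' = A - B + T.aS c (T.N e) ∧
      X + T.fW c h (T.N e) + T.uS c pt (T.N e) ≤ M' := by
  have hb := T.tri_rot ha
  have hc := T.tri_rot hb
  have hX := hi.1 ha
  unfold gpS at hg
  simp only [rForce_eq] at hg
  rw [T.sO_tri ha, T.x0_eq, T.x1_eq (T.N (T.N e)), ← T.rot_k (T.N e), ← T.rot_j ha,
    ← T.rot_o ha, T.farK_eq ha, T.t3A_jx ha, ← T.rot_j hb, T.cST_eq (c := c) ha,
    ← T.dl_fst c.t ha] at hg
  obtain ⟨tc, hg, htc⟩ := DL.col_sound hg
  obtain ⟨M', E', V', h1, h2, -⟩ := rgStepP_sound hg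
  have e2 := T.dl_snd c.t ha
  have e3 := T.dl_trd c.t ha
  have e5 := T.rv_eq (c := c) 0 hb
  have e7 := T.dl_snd c.tw ha
  have e8 := T.rv_eq (c := c) 1 hb
  rw [T.Ot_eq] at e5 e8
  have e9 := T.px'_eq (pt := pt) ha
  have e10 := htc (T.Ot (T.N e))
  rw [← e3] at e10
  refine ⟨M', E', V', _, _, h1, ?_, ?_⟩
  · unfold aS
    rw [if_pos ha]
    simp only [Nat.mul_eq]
    push_cast
    ring
  · have h5 := h2 (T.Ot (T.N e))
    refine le_trans ?_ (by exact_mod_cast h5 : ((_ : ℕ) : ℤ) ≤ (M' : ℤ))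
    refine le_trans (le_of_eq ?_) (le_CnP (P := T.uS c pt (T.N e)) hX (fun h6 => ?_)
      (fun h6 => ?_))
    · unfold fW
      rw [val_flR_W h _ _ (T.Ot (T.N e)) (T.wW c (T.N e))
        (by unfold wW; rw [e7, e8])]
      have e11 : (DR.val DR.nil (T.Ot (T.N e)) : ℤ) = 0 := rfl
      rw [e11]
      ring
    · unfold uS
      rw [if_pos ha, if_pos (e9.trans h6), ← e2, ← e5]
      zify at e10
      linarith
    · unfold uS
      rw [if_pos ha, if_neg (fun h7 => h6 (e9.symm.trans h7)), e9]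

theorem gpT_sound {e : F} {h : ℕ} {X : ℤ} {M : ℕ} {E V : DR} {A B : ℕ}
    {K : ℕ → ℕ → DR → DR → ℕ → ℕ → Bool}
    (hx : ∀ (a : F) {x : ℕ} {r : DR} {l : DL}, T.zr c.zt a = DL.g x r l →
      Nat.ble 1048576 x = true)
    (ha : T.Tri (T.N e)) (hn : T.Tri (T.N (T.N e))) (hi : T.PInv (T.N e) X M E V)
    (hg : gpT c qt pt (T.kx e) (T.sO e) (T.kx (T.N e)) (T.ox (T.N e)) (T.sO (T.N e))
      (T.kx (T.N (T.N e))) (T.ox (T.N (T.N e))) (T.sO (T.N (T.N e)))
      (T.kx (T.N (T.N (T.N e)))) (T.sO (T.N (T.N (T.N e)))) h M E V A B K = true) :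
    T.PStep c qt pt (T.N e) h X A B K := by
  have hb := T.tri_rot ha
  have hc := T.tri_rot hb
  have hn2 := T.tri_rot hn
  have hX := hi.1 ha
  unfold gpT at hg
  simp only [rForce_eq] at hg
  rw [T.sO_tri ha, T.sO_tri hn, T.x0_eq, T.x1_eq (T.N (T.N (T.N e))),
    ← T.rot_k (T.N e), ← T.rot_j ha, ← T.rot_o ha, T.farK_eq ha,
    T.t3A_jx ha, ← T.rot_j hb, ← T.rot_k (T.N (T.N e)), ← T.rot_j hn, ← T.rot_o hn,
    T.farK_eq hn, T.t3A_jx hn, ← T.rot_j hn2] at hg
  have hx1 : xrT trX (T.kx (T.N (T.N e))) (T.jx (T.N (T.N e))) = T.X trX (T.N (T.N e)) := by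
    rw [← T.sO_tri hn]
    exact T.x1_eq _
  rw [hx1] at hg
  have hbT : T.Tri (T.bk (T.N e)) := (T.tri_bk (T.N e)).2 hn
  have hb1 : T.Tri (T.N (T.bk (T.N e))) := (T.tri_N_bk (T.N e)).2 ha
  have hbe := T.bk_tri hn
  have hbk : T.I (T.N (T.I (T.N (T.N (T.N e))))) = T.bk (T.N e) := hbe.symm
  have w1 : DL.val (DT.get c.zt
      (zkey (T.kx (T.N e)) (T.jx (T.N e)) (T.jx (T.N (T.N e)))))
        (T.X trX (T.N (T.N (T.N e)))) (T.X trX (T.I (T.N e))) = T.win c.zt (T.N e) := by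
    rw [T.win_tri ha hn, T.rs_tri ha, T.rs_tri hn]
  rw [hbk, w1, T.cST_eq (c := c) ha, ← T.dl_fst c.t ha, T.cRA_eq (c := c) ha hn,
    T.cRB_eq (c := c) ha hn] at hg
  obtain ⟨tc, hg, htc⟩ := DL.col_sound hg
  obtain ⟨wc, hg, hwc⟩ := DL.col_sound hg
  obtain ⟨M', E', V', h1, h2, h3, h3z, h3j, h3v⟩ := rgStepP_sound hg
  have e2 := T.dl_snd c.t ha
  have e3 := T.dl_trd c.t ha
  have e5 := T.rv_eq (c := c) 0 hb
  have e7 := T.dl_snd c.tw ha
  have e8 := T.rv_eq (c := c) 1 hb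
  have e9 := T.rv_eq (c := c) 2 hb
  have e10 := T.dl_trd c.tw ha
  rw [T.Ot_eq] at e5 e8 e9
  have e11 := T.px'_eq (pt := pt) ha
  have e12 := T.qx_eq (qt := qt) ha hn
  have e13 := htc (T.Ot (T.N e))
  have e14 := hwc (T.Ot (T.N e))
  rw [← e3] at e13
  rw [← e10] at e14
  have r1 := T.rv_eq (c := c) 1 hn2
  rw [T.Ot_eq] at r1
  have r2 := T.dl_snd c.tw hn
  -- the value of the token, with the column `wc`
  have h4 := le_CnP (sa := T.sP c (T.N e)) (sb := T.dl c.t (T.N e))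
    (tb := DL.grp (DT.get c.t (dkey (T.kx (T.I (T.N (T.N e)))) (T.jx (T.I (T.N (T.N e))))))
      (T.X trX (T.N (T.N e)))) (tc := tc)
    (wb := flR h (DL.grp (DT.get c.tw (dkey (T.kx (T.I (T.N (T.N e))))
      (T.jx (T.I (T.N (T.N e)))))) (T.X trX (T.N (T.N e))))) (wc := wc)
    (r0 := DL.grp (DT.get c.rt (dkey (T.kx (T.I (T.N (T.N e)))) (T.jx (T.I (T.N (T.N e)))))) 0)
    (r1 := flR h (DL.grp (DT.get c.rt (dkey (T.kx (T.I (T.N (T.N e))))
      (T.jx (T.I (T.N (T.N e)))))) 1))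
    (r2 := DL.grp (DT.get c.rt (dkey (T.kx (T.I (T.N (T.N e)))) (T.jx (T.I (T.N (T.N e)))))) 2)
    (pr := DL.grp (DT.get pt (dkey (T.kx (T.N e)) (T.jx (T.N e))))
      (dkey (T.X trX (T.I (T.N e))) (T.X trX (T.N (T.N e)))))
    (o := T.Ot (T.N e)) (P := T.uS c pt (T.N e)) hX
    (fun h6 => by
      unfold uS
      rw [if_pos ha, if_pos (e11.trans h6), ← e2, ← e5]
      zify at e13
      linarith)
    (fun h6 => by
      unfold uS
      rw [if_pos ha, if_neg (fun h7 => h6 (e11.symm.trans h7)), e11])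
  rw [← val_flR_W h _ _ (T.Ot (T.N e)) (T.wW c (T.N e)) (by unfold wW; rw [e7, e8]), ← e9] at h4
  have k2 := h2 (T.Ot (T.N e))
  have k3 := h3 (T.Ot (T.N e)) (T.Ot (T.N (T.N e)))
  have k3z := h3z (T.Ot (T.N e)) (T.Ot (T.N (T.N e)))
  have k3j := h3j (T.Ot (T.N e)) (T.Ot (T.N (T.N e))) (T.X_lt13 _)
  clear h2 h3 h3z h3j
  generalize CnP _ _ _ _ _ _ _ _ _ _ _ _ = C at h4 k2 k3 k3z k3j
  have h4w : X + T.fW c h (T.N e) + T.uS c pt (T.N e) +
      3 * ((DR.val wc (T.Ot (T.N e)) : ℤ) - T.rv c 2 (T.I (T.N (T.N e)))) ≤ C := by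
    refine le_trans (le_of_eq ?_) h4
    unfold fW
    ring
  have h4' : X + T.fW c h (T.N e) + (T.uS c pt (T.N e) + T.uR c (T.N e)) ≤ C := by
    have eR : T.uR c (T.N e) = 3 * ((T.dl c.tw (T.I (T.N (T.I (T.N (T.N e))))) : ℤ) -
        T.rv c 2 (T.I (T.N (T.N e)))) := if_pos ⟨ha, hn⟩
    rw [eR]
    zify at e14
    linarith
  clear h4
  refine ⟨1, M', E', V', _, _, h1, ?_, ?_, ?_⟩
  · unfold aS aR
    rw [if_pos ha, if_pos ⟨ha, hn⟩]
    simp only [Nat.mul_eq, Nat.add_eq]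
    push_cast
    ring
  · have f1 : T.fW c 1 (T.N (T.N e)) = T.wW c (T.N (T.N e)) := if_neg one_ne_zero
    rw [f1]
    unfold uW
    rw [N_inv_N, if_pos ⟨ha, hn⟩]
  · -- the three cases of the transition
    have w2 : T.win c.zt (T.bk (T.N e)) = DL.val (DL.tl (DT.get c.zt
        (zkey (T.kx (T.bk (T.N e))) (T.jx (T.bk (T.N e))) (T.jx (T.I (T.N (T.N e)))))))
        (T.Ot (T.N e)) (T.Ot (T.N (T.N e))) := by
      have e11 : T.zr c.zt (T.bk (T.N e)) = DT.get c.zt
          (zkey (T.kx (T.bk (T.N e))) (T.jx (T.bk (T.N e))) (T.jx (T.I (T.N (T.N e))))) := by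
        unfold zr
        rw [T.rs_tri hbT, N_bk, T.rs_tri hb]
      have e12 : T.I (T.bk (T.N e)) = T.N (T.I (T.N (T.N (T.N e)))) := by
        rw [hbe, I_I]
      rw [T.win_tri hbT hb1]
      show DL.val (T.zr c.zt (T.bk (T.N e))) _ _ = _
      rw [← e11, N_bk, e12]
      cases hrb : T.zr c.zt (T.bk (T.N e)) with
      | nil => rfl
      | g x' r' l' =>
        rw [DL.val_tail (hx _ hrb) (T.X_lt _)]
        rfl
    by_cases hq : T.qx qt (T.N e) = 0
    · have hq' := hq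
      rw [e12] at hq'
      have eZ : T.uZ c qt (T.N e) = 3 * (T.win c.zt (T.bk (T.N e)) : ℤ) := by
        unfold uZ
        rw [if_pos ⟨ha, hn⟩, if_pos hq]
      by_cases hz : T.win c.zt (T.bk (T.N e)) = 0
      · have eZ0 : T.uZ c qt (T.N e) = 0 := by
          rw [eZ, hz]
          norm_num
        have g2 := k3 hq'
        rw [eZ0, add_zero]
        refine ⟨⟨fun _ => le_trans h4' (by exact_mod_cast g2), fun h6 => absurd hn h6⟩,
          fun _ => le_trans h4' (by exact_mod_cast k2), fun h6 => ?_⟩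
        exact absurd h6.2.2 (by simp [hz, hq])
      · have g1 := k3z hq' (by rw [← w2]; exact hz)
        rw [← w2] at g1
        have g2 := h3v _ _ g1
        have g3 : X + T.fW c h (T.N e) + (T.uS c pt (T.N e) + T.uR c (T.N e) +
            T.uZ c qt (T.N e)) ≤ ((C + 3 * T.win c.zt (T.bk (T.N e)) : ℕ) : ℤ) := by
          rw [eZ]
          push_cast
          linarith
        refine ⟨⟨fun _ => le_trans g3 (by exact_mod_cast g2), fun h6 => absurd hn h6⟩,
          fun h6 => absurd ⟨ha, hn, Or.inl hz⟩ h6, fun _ => ⟨_, g1, g3⟩⟩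
    · have hq' := hq
      rw [e12] at hq'
      have g1 := k3j hq'
      have g2 := h3v _ _ g1
      rw [← e12, ← e9, ← r1, ← r2] at g1 g2
      have g3 : X + T.fW c h (T.N e) + (T.uS c pt (T.N e) + T.uR c (T.N e) +
          T.uZ c qt (T.N e)) ≤ ((C + 3 * Nat.sub (Nat.add (T.pP c (T.N e))
            (Nat.add (T.rv c 2 (T.I (T.N (T.N e)))) (T.rv c 1 (T.I (T.N (T.N (T.N e)))))))
            (Nat.add (T.pM c (T.N e)) (Nat.add (DR.val wc (T.Ot (T.N e)))
              (T.dl c.tw (T.I (T.N (T.N (T.N e))))))) - (T.qx qt (T.N e) - 1) : ℕ) : ℤ) := by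
        have h13 : 1 ≤ T.qx qt (T.N e) := Nat.one_le_iff_ne_zero.2 hq
        have h15 : T.sR c (T.N e) + T.win c.zt (T.bk (T.N e)) =
            (T.pP c (T.N e) + (T.rv c 2 (T.I (T.N (T.N e))) +
              T.rv c 1 (T.I (T.N (T.N (T.N e))))) : ℤ) -
            (T.pM c (T.N e) + (T.dl c.tw (T.I (T.N (T.I (T.N (T.N e))))) +
              T.dl c.tw (T.I (T.N (T.N (T.N e)))))) := by
          unfold sR
          ring
        have eR : T.uR c (T.N e) = 3 * ((T.dl c.tw (T.I (T.N (T.I (T.N (T.N e))))) : ℤ) -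
            T.rv c 2 (T.I (T.N (T.N e)))) := if_pos ⟨ha, hn⟩
        have eZ : T.uZ c qt (T.N e) = 3 * (T.sR c (T.N e) + T.win c.zt (T.bk (T.N e))) -
            ((T.qx qt (T.N e) : ℤ) - 1) := by
          unfold uZ
          rw [if_pos ⟨ha, hn⟩, if_neg hq]
        rw [eR, eZ, h15]
        simp only [Nat.add_eq, Nat.sub_eq]
        omega
      refine ⟨⟨fun _ => le_trans g3 (by exact_mod_cast g2), fun h6 => absurd hn h6⟩,
        fun h6 => absurd ⟨ha, hn, Or.inr hq⟩ h6, fun _ => ⟨_, g1, g3⟩⟩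

theorem gpC_sound {e : F} {h : ℕ} {X : ℤ} {M : ℕ} {E V : DR} {A B : ℕ}
    {K : ℕ → ℕ → DR → DR → ℕ → ℕ → Bool}
    (hx : ∀ (a : F) {x : ℕ} {r : DR} {l : DL}, T.zr c.zt a = DL.g x r l →
      Nat.ble 1048576 x = true) (hi : T.PInv (T.N e) X M E V)
    (hh : ¬T.Tri (T.N e) → T.fW c h (T.N e) = 0)
    (hg : gpC c qt pt (T.kx e) (T.sO e) (T.kx (T.N e)) (T.ox (T.N e)) (T.sO (T.N e))
      (T.kx (T.N (T.N e))) (T.ox (T.N (T.N e))) (T.sO (T.N (T.N e)))
      (T.kx (T.N (T.N (T.N e)))) (T.sO (T.N (T.N (T.N e)))) h M E V A B K = true) :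
    T.PStep c qt pt (T.N e) h X A B K := by
  by_cases ha : T.Tri (T.N e)
  · unfold gpC at hg
    rw [T.ble_sO_tri ha, rIf_false] at hg
    by_cases hn : T.Tri (T.N (T.N e))
    · rw [T.ble_sO_tri hn, rIf_false] at hg
      exact T.gpT_sound hx ha hn hi hg
    · rw [T.ble_sO_big hn, rIf_true] at hg
      obtain ⟨M', E', V', A', B', h1, h2, h3⟩ := T.gpS_sound ha hi hg
      have f1 : T.aR c (T.N e) = 0 := if_neg fun h => hn h.2
      have f2 : T.uR c (T.N e) = 0 := if_neg fun h => hn h.2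
      have f3 : T.uZ c qt (T.N e) = 0 := if_neg fun h => hn h.2
      have f4 : T.uW c (T.N (T.N e)) = 0 := if_neg fun h => hn h.2
      have f5 : T.fW c 0 (T.N (T.N e)) = 0 := if_pos rfl
      refine ⟨0, M', E', V', A', B', h1, ?_, by rw [f4, f5], ?_⟩
      · rw [f1, h2]
        ring
      · have g3 : X + T.fW c h (T.N e) + (T.uS c pt (T.N e) + T.uR c (T.N e) +
            T.uZ c qt (T.N e)) ≤ M' := by
          rw [f2, f3]
          linarith
        exact ⟨⟨fun h => absurd h hn, fun _ => g3⟩, fun _ => g3, fun h => absurd h.2.1 hn⟩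
  · unfold gpC at hg
    rw [T.ble_sO_big ha, rIf_true] at hg
    have f0 : T.aS c (T.N e) = 0 := if_neg ha
    have f1 : T.aR c (T.N e) = 0 := if_neg fun h => ha h.1
    have f2 : T.uR c (T.N e) = 0 := if_neg fun h => ha h.1
    have f3 : T.uZ c qt (T.N e) = 0 := if_neg fun h => ha h.1
    have f4 : T.uW c (T.N (T.N e)) = 0 := by
      unfold uW
      rw [N_inv_N]
      exact if_neg fun h => ha h.1
    have f5 : T.fW c 0 (T.N (T.N e)) = 0 := if_pos rfl
    have f6 : T.uS c pt (T.N e) = 0 := if_neg ha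
    have g3 : X + T.fW c h (T.N e) + (T.uS c pt (T.N e) + T.uR c (T.N e) +
        T.uZ c qt (T.N e)) ≤ M := by
      rw [hh ha, f2, f3, f6]
      have := hi.2 ha
      linarith
    refine ⟨0, M, DR.nil, DR.nil, A, B, hg, by rw [f0, f1]; ring, by rw [f4, f5],
      ⟨fun _ => ?_, fun _ => g3⟩, fun _ => g3, fun h => absurd h.1 ha⟩
    exact le_trans g3 le_rfl

end SMap

end Pool.Agent.Lib.MP_5854e1_co
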