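import Pool.Agent.Lib.MP_5854e1_co.RingPMap
import Pool.Agent.Lib.MP_5854e1_co.RingS

/-!
# The test of the rings around a cell with equal shares is sound
-/

set_option autoImplicit false

open Equiv Equiv.Perm

namespace Pool.Agent.Lib.MP_5854e1_co

open Finset PB CE CE.Cell

universe u

theorem tak_pw {k o s : ℕ → ℕ} : ∀ m t n, Pth.tak (pw k o s t m) n = pw k o s t (min n m) := by
  intro m
  induction m with
  | zero =>
    intro t n
    rw [Nat.min_zero]
    rfl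
  | succ m ih =>
    intro t n
    have e1 : Pth.tak (pw k o s t (m + 1)) n = rIf (Nat.beq n (nat_lit 0)) Pth.nil
      (Pth.cons (k t) (o t) (s t) (Pth.tak (pw k o s (t + 1) m) (Nat.pred n))) := rfl
    rw [e1]
    cases n with
    | zero =>
      rw [Nat.zero_min]
      rfl
    | succ n =>
      have e2 : Nat.beq (n + 1) (nat_lit 0) = false := rfl
      rw [e2, rIf_false, ih, Nat.pred_succ, Nat.succ_min_succ]
      rfl

namespace SMap

variable {F : Type*} (T : SMap F) {c : Tabs} {qt pt : DT}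

/-- The loss of a corner. -/
noncomputable def uG (c : Tabs) (qt pt : DT) (a : F) : ℤ :=
  T.uS c pt a + T.uR c a + T.uZ c qt a + T.uW c a

theorem uW_big {a : F} (ha : ¬T.Tri a) : T.uW c a = 0 := if_neg fun h => ha h.2

theorem goP_sound {d : F}
    {K : ℕ → ℕ → ℕ → ℕ → ℕ → ℕ → ℕ → ℕ → ℕ → DR → DR → ℕ → ℕ → Bool}
    (hx : ∀ (a : F) {x : ℕ} {r : DR} {l : DL}, T.zr c.zt a = DL.g x r l →
      Nat.ble 1048576 x = true) (n : ℕ) :
    ∀ (t h : ℕ) (X : ℤ) (M : ℕ) (E V : DR) (A B : ℕ),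
    T.PInv (T.N^[t + 1] d) X M E V → (¬T.Tri (T.N^[t + 1] d) → T.fW c h (T.N^[t + 1] d) = 0) →
    goP c qt pt (pw (fun n => T.kx (T.N^[n] d)) (fun n => T.ox (T.N^[n] d))
      (fun n => T.sO (T.N^[n] d))
      (t + 3) n) (T.kx (T.N^[t] d)) (T.sO (T.N^[t] d)) (T.kx (T.N^[t + 1] d))
      (T.ox (T.N^[t + 1] d)) (T.sO (T.N^[t + 1] d)) (T.kx (T.N^[t + 2] d)) (T.ox (T.N^[t + 2] d))
      (T.sO (T.N^[t + 2] d)) h M E V A B K = true →
    ∃ (h' M' : ℕ) (E' V' : DR) (A' B' : ℕ),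
      K (T.kx (T.N^[t + n] d)) (T.sO (T.N^[t + n] d)) (T.kx (T.N^[t + n + 1] d))
        (T.ox (T.N^[t + n + 1] d)) (T.sO (T.N^[t + n + 1] d)) (T.kx (T.N^[t + n + 2] d))
        (T.sO (T.N^[t + n + 2] d)) h' M' E' V' A' B' = true ∧
      (A' : ℤ) - B' = A - B +
        ∑ i ∈ range n, (T.aS c (T.N^[t + 1 + i] d) + T.aR c (T.N^[t + 1 + i] d)) ∧
      ((n = 0 ∧ h' = h ∧ M' = M ∧ E' = E ∧ V' = V) ∨
        (T.fW c h' (T.N^[t + n + 1] d) = T.uW c (T.N^[t + n + 1] d) ∧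
        T.PEnd c qt (T.N^[t + n] d) (X + (T.fW c h (T.N^[t + 1] d) - T.uW c (T.N^[t + 1] d)) +
          ∑ i ∈ range n, T.uG c qt pt (T.N^[t + 1 + i] d)) M' E' V')) := by
  induction n with
  | zero =>
    intro t h X M E V A B hi hh hg
    refine ⟨h, M, E, V, A, B, hg, ?_, Or.inl ⟨rfl, rfl, rfl, rfl, rfl⟩⟩
    rw [Finset.range_zero, Finset.sum_empty, add_zero]
  | succ n ih =>
    intro t h X M E V A B hi hh hg
    have e1 : T.N^[t + 1] d = T.N (T.N^[t] d) := Function.iterate_succ_apply' _ _ _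
    have e2 : T.N^[t + 2] d = T.N (T.N^[t + 1] d) := Function.iterate_succ_apply' _ _ _
    have e3 : T.N^[t + 3] d = T.N (T.N^[t + 2] d) := Function.iterate_succ_apply' _ _ _
    have h' : gpC c qt pt (T.kx (T.N^[t] d)) (T.sO (T.N^[t] d)) (T.kx (T.N^[t + 1] d))
        (T.ox (T.N^[t + 1] d)) (T.sO (T.N^[t + 1] d)) (T.kx (T.N^[t + 2] d))
        (T.ox (T.N^[t + 2] d)) (T.sO (T.N^[t + 2] d)) (T.kx (T.N^[t + 3] d))
        (T.sO (T.N^[t + 3] d)) h M E V A B (fun h' M' E' V' A' B' =>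
          goP c qt pt (pw (fun n => T.kx (T.N^[n] d)) (fun n => T.ox (T.N^[n] d))
            (fun n => T.sO (T.N^[n] d)) (t + 1 + 3) n) (T.kx (T.N^[t + 1] d))
            (T.sO (T.N^[t + 1] d)) (T.kx (T.N^[t + 2] d)) (T.ox (T.N^[t + 2] d))
            (T.sO (T.N^[t + 2] d)) (T.kx (T.N^[t + 3] d)) (T.ox (T.N^[t + 3] d))
            (T.sO (T.N^[t + 3] d)) h' M' E' V' A' B' K) = true := hg
    rw [e3, e2, e1] at h'
    rw [e1] at hi hh
    obtain ⟨h1', M1, E1, V1, A1, B1, h1, h2, h2f, h3⟩ := T.gpC_sound hx hi hh h'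
    rw [← e1, ← e2, ← e3] at h1
    rw [← e1] at h2 h2f h3
    have hi1 := h3.1
    rw [← e2] at hi1 h2f
    have hh1 : ¬T.Tri (T.N^[t + 2] d) → T.fW c h1' (T.N^[t + 2] d) = 0 := fun g => by
      rw [h2f, T.uW_big g]
    obtain ⟨h'', M', E', V', A', B', g1, g2, g3⟩ := ih (t + 1) h1' _ M1 E1 V1 A1 B1 hi1 hh1 h1
    have e4 : ∀ i, t + 1 + 1 + i = t + 1 + (i + 1) := fun i => by omega
    have e6 : t + 1 + n = t + (n + 1) := by omega
    rw [e6] at g1 g3
    refine ⟨h'', M', E', V', A', B', g1, ?_, Or.inr ?_⟩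
    · rw [g2, h2, Finset.sum_range_succ' _ n]
      simp only [e4, Nat.add_zero]
      ring
    · rcases g3 with ⟨rfl, rfl, rfl, rfl, rfl⟩ | g3
      · refine ⟨h2f, ?_⟩
        rw [Finset.sum_range_one]
        have e5 : X + (T.fW c h (T.N^[t + 1] d) - T.uW c (T.N^[t + 1] d)) +
            T.uG c qt pt (T.N^[t + 1 + 0] d) = X + T.fW c h (T.N^[t + 1] d) +
            (T.uS c pt (T.N^[t + 1] d) + T.uR c (T.N^[t + 1] d) +
              T.uZ c qt (T.N^[t + 1] d)) := by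
          rw [Nat.add_zero]
          unfold uG
          ring
        rw [e5]
        exact h3
      · refine ⟨g3.1, ?_⟩
        have e7 : X + (T.fW c h (T.N^[t + 1] d) - T.uW c (T.N^[t + 1] d)) +
            ∑ i ∈ range (n + 1), T.uG c qt pt (T.N^[t + 1 + i] d) =
            X + T.fW c h (T.N^[t + 1] d) +
            (T.uS c pt (T.N^[t + 1] d) + T.uR c (T.N^[t + 1] d) + T.uZ c qt (T.N^[t + 1] d)) +
              (T.fW c h1' (T.N^[t + 1 + 1] d) - T.uW c (T.N^[t + 1 + 1] d)) +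
              ∑ i ∈ range n, T.uG c qt pt (T.N^[t + 1 + 1 + i] d) := by
          rw [Finset.sum_range_succ' _ n]
          simp only [e4, Nat.add_zero]
          have h2f' : T.fW c h1' (T.N^[t + 1 + 1] d) = T.uW c (T.N^[t + 1 + 1] d) := h2f
          rw [show t + (1 + 1) = t + 1 + 1 by omega] at *
          rw [h2f']
          unfold uG
          ring
        rw [e7]
        exact g3.2

/-- The flag of the strip before the first corner. -/
theorem flag_eq (d : F) : T.fW c (rIf (Nat.ble (nat_lit 7936) (T.sO d)) (nat_lit 0)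
    (rIf (Nat.ble (nat_lit 7936) (T.sO (T.N d))) (nat_lit 0) (nat_lit 1))) (T.N d) =
      T.uW c (T.N d) := by
  unfold fW uW
  rw [N_inv_N]
  by_cases h0 : T.Tri d
  · rw [T.ble_sO_tri h0, rIf_false]
    by_cases h1 : T.Tri (T.N d)
    · rw [T.ble_sO_tri h1, rIf_false]
      exact (if_neg (Nat.succ_ne_zero 0)).trans (if_pos ⟨h0, h1⟩).symm
    · rw [T.ble_sO_big h1, rIf_true, if_pos rfl, if_neg fun h => h1 h.2]
  · rw [T.ble_sO_big h0, rIf_true, if_pos rfl, if_neg fun h => h0 h.1]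

/-- **The test of the rings, for all outer tokens of the map.** -/
theorem ringPC_sound {d : F} {m b : ℕ}
    (hx : ∀ (a : F) {x : ℕ} {r : DR} {l : DL}, T.zr c.zt a = DL.g x r l →
      Nat.ble 1048576 x = true) (hb : T.N^[b] d = d) (hb0 : 0 < b)
    (h : ringPC c qt pt m (pw (fun n => T.kx (T.N^[n] d)) (fun n => T.ox (T.N^[n] d))
      (fun n => T.sO (T.N^[n] d)) 3 b) (T.kx (T.N^[0] d)) (T.sO (T.N^[0] d)) (T.kx (T.N^[1] d))
      (T.ox (T.N^[1] d)) (T.sO (T.N^[1] d)) (T.kx (T.N^[2] d)) (T.ox (T.N^[2] d))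
      (T.sO (T.N^[2] d)) = true) :
    6 * (m : ℤ) ≤ ∑ i ∈ range b, (T.aS c (T.N^[1 + i] d) + T.aR c (T.N^[1 + i] d)) -
      ∑ i ∈ range b, T.uG c qt pt (T.N^[1 + i] d) := by
  unfold ringPC at h
  rw [rForce_eq] at h
  have hf : T.fW c (rIf (Nat.ble (nat_lit 7936) (T.sO (T.N^[0] d))) (nat_lit 0)
      (rIf (Nat.ble (nat_lit 7936) (T.sO (T.N^[1] d))) (nat_lit 0) (nat_lit 1)))
        (T.N^[0 + 1] d) = T.uW c (T.N^[0 + 1] d) := T.flag_eq d
  generalize rIf (Nat.ble (nat_lit 7936) (T.sO (T.N^[0] d))) (nat_lit 0)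
      (rIf (Nat.ble (nat_lit 7936) (T.sO (T.N^[1] d))) (nat_lit 0) (nat_lit 1)) = fl at h hf
  have hh : ¬T.Tri (T.N^[0 + 1] d) → T.fW c fl (T.N^[0 + 1] d) = 0 := fun g => by
    rw [hf, T.uW_big g]
  have hi0 : T.PInv (T.N^[0 + 1] d) (offR : ℤ) offR DR.nil DR.nil :=
    ⟨fun _ => le_rfl, fun _ => le_rfl⟩
  obtain ⟨h', M, E, V, A, B, h1, h2, h3⟩ := T.goP_sound hx b 0 _ _ _ _ _ _ _ hi0 hh h
  obtain ⟨h4, h5⟩ := rAnd_iff.1 h1
  have h4' := Nat.le_of_ble_eq_true h4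
  simp only [Nat.add_eq, Nat.mul_eq] at h4'
  have h3' := (h3.resolve_left fun h6 => absurd h6.1 (by omega)).2
  rw [hf, sub_self, add_zero] at h3'
  simp only [Nat.zero_add] at h2 h3'
  rw [hb] at h3'
  by_cases hz : T.Spc c qt d
  · obtain ⟨v, h6, h6v⟩ := h3'.2.2 hz
    have h7 := DR.all_in h5 h6
    cases hv : Nat.ble (Nat.add v (Nat.add (Nat.mul (nat_lit 6) m) B)) (Nat.add offR A) with
    | true =>
      have h8 := Nat.le_of_ble_eq_true hv
      simp only [Nat.add_eq, Nat.mul_eq] at h8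
      zify at h8
      push_cast at h2
      linarith
    | false =>
      rw [hv, rIf_false] at h7
      have hi1 : T.PInv (T.N^[0 + 1] d) (offR : ℤ) (nat_lit 0)
          (DR.e (T.Ot (T.N d)) offR DR.nil) DR.nil := by
        refine ⟨fun _ => ?_, fun h8 => absurd hz.2.1 h8⟩
        have h9 := (DR.le_mxe (T.Ot (T.N^[0 + 1] d))
          (DR.e (T.Ot (T.N d)) offR DR.nil) (nat_lit 0)).2 offR (Or.inl ⟨rfl, rfl⟩)
        exact_mod_cast h9
      obtain ⟨h'', M2, E2, V2, A2, B2, g1, g2, g3⟩ :=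
        T.goP_sound hx b 0 _ _ _ _ _ _ _ hi1 hh h7
      have g3' := (g3.resolve_left fun h6 => absurd h6.1 (by omega)).2
      have g1' := Nat.le_of_ble_eq_true g1
      simp only [Nat.add_eq, Nat.mul_eq] at g1'
      rw [hf, sub_self, add_zero] at g3'
      simp only [Nat.zero_add] at g2 g3'
      rw [hb] at g3'
      obtain ⟨w, g4, g5⟩ := g3'.2.2 hz
      have g6 := (DR.le_mxe (T.Ot (T.N d)) E2 (nat_lit 0)).2 w g4
      have g7 : (w : ℤ) ≤ ((DR.mxe (T.Ot (T.N d)) E2 (nat_lit 0) : ℕ) : ℤ) := by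
        exact_mod_cast g6
      zify at g1'
      push_cast at g2
      linarith
  · have h6 := h3'.2.1 hz
    zify at h4'
    push_cast at h2
    linarith

/-- The step at a corner without the strip after it. -/
theorem gpE_sound {e : F} {h : ℕ} {X : ℤ} {M : ℕ} {E V : DR} {A B : ℕ}
    {K : ℕ → ℕ → DR → DR → ℕ → ℕ → Bool}
    (hi : T.PInv (T.N e) X M E V) (hh : ¬T.Tri (T.N e) → T.fW c h (T.N e) = 0)
    (hg : gpE c pt (T.kx e) (T.sO e) (T.kx (T.N e)) (T.ox (T.N e)) (T.sO (T.N e))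
      (T.kx (T.N (T.N e))) (T.sO (T.N (T.N e))) h M E V A B K = true) :
    ∃ (M' : ℕ) (E' V' : DR) (A' B' : ℕ), K 0 M' E' V' A' B' = true ∧
      (A' : ℤ) - B' = A - B + T.aS c (T.N e) ∧
      X + T.fW c h (T.N e) + T.uS c pt (T.N e) ≤ M' := by
  unfold gpE at hg
  by_cases ha : T.Tri (T.N e)
  · rw [T.ble_sO_tri ha, rIf_false] at hg
    exact T.gpS_sound ha hi hg
  · rw [T.ble_sO_big ha, rIf_true] at hg
    have f0 : T.aS c (T.N e) = 0 := if_neg ha
    have f6 : T.uS c pt (T.N e) = 0 := if_neg ha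
    refine ⟨M, DR.nil, DR.nil, A, B, hg, by rw [f0, add_zero], ?_⟩
    rw [hh ha, f6]
    have := hi.2 ha
    linarith

theorem ringPD_sound {d : F} {m n : ℕ}
    (hx : ∀ (a : F) {x : ℕ} {r : DR} {l : DL}, T.zr c.zt a = DL.g x r l →
      Nat.ble 1048576 x = true)
    (h : ringPD c qt pt m (pw (fun n => T.kx (T.N^[n] d)) (fun n => T.ox (T.N^[n] d))
      (fun n => T.sO (T.N^[n] d)) 3 n) (T.kx (T.N^[0] d)) (T.sO (T.N^[0] d)) (T.kx (T.N^[1] d))
      (T.ox (T.N^[1] d)) (T.sO (T.N^[1] d)) (T.kx (T.N^[2] d)) (T.ox (T.N^[2] d))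
      (T.sO (T.N^[2] d)) = true) :
    6 * (m : ℤ) ≤ ∑ i ∈ range n, (T.aS c (T.N^[1 + i] d) + T.aR c (T.N^[1 + i] d)) +
      T.aS c (T.N^[1 + n] d) - (T.uS c pt (T.N^[1 + n] d) + T.uW c (T.N^[1 + n] d)) -
      (∑ i ∈ range n, T.uG c qt pt (T.N^[1 + i] d) - T.uW c (T.N^[1] d)) := by
  unfold ringPD at h
  have hh : ¬T.Tri (T.N^[0 + 1] d) → T.fW c (nat_lit 0) (T.N^[0 + 1] d) = 0 := fun _ => if_pos rfl
  have hi0 : T.PInv (T.N^[0 + 1] d) (offR : ℤ) offR DR.nil DR.nil :=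
    ⟨fun _ => le_rfl, fun _ => le_rfl⟩
  obtain ⟨h', M, E, V, A, B, h1, h2, h3⟩ := T.goP_sound hx n 0 _ _ _ _ _ _ _ hi0 hh h
  simp only [Nat.zero_add] at h1 h2 h3
  have e1 : T.N^[n + 1] d = T.N (T.N^[n] d) := Function.iterate_succ_apply' _ _ _
  have e2 : T.N^[n + 2] d = T.N (T.N^[n + 1] d) := Function.iterate_succ_apply' _ _ _
  have e3 : 1 + n = n + 1 := by omega
  rw [e3]
  rw [e2, e1] at h1
  have f0 : T.fW c (nat_lit 0) (T.N^[1] d) = 0 := if_pos rfl
  -- the state before the last corner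
  obtain ⟨X, hX, hf, hv⟩ : ∃ X : ℤ, T.PInv (T.N (T.N^[n] d)) X M E V ∧
      (¬T.Tri (T.N (T.N^[n] d)) → T.fW c h' (T.N (T.N^[n] d)) = 0) ∧
      X + T.fW c h' (T.N (T.N^[n] d)) = offR + T.uW c (T.N^[n + 1] d) +
        (∑ i ∈ range n, T.uG c qt pt (T.N^[1 + i] d) - T.uW c (T.N^[1] d)) := by
    rcases h3 with ⟨rfl, rfl, rfl, rfl, rfl⟩ | ⟨h4, h5⟩
    · refine ⟨offR, hi0, fun _ => if_pos rfl, ?_⟩
      have f1 : T.fW c (nat_lit 0) (T.N (T.N^[0] d)) = 0 := if_pos rfl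
      rw [Finset.range_zero, Finset.sum_empty, f1]
      simp only [Nat.zero_add]
      ring
    · refine ⟨_, h5.1, fun g => ?_, ?_⟩
      · rw [← e1] at g ⊢
        rw [h4, T.uW_big g]
      · rw [← e1, h4, f0]
        ring
  obtain ⟨M', E', V', A', B', g1, g2, g3⟩ := T.gpE_sound hX hf h1
  have g1' := Nat.le_of_ble_eq_true g1
  simp only [Nat.add_eq, Nat.mul_eq] at g1'
  rw [e1] at hv ⊢
  zify at g1'
  push_cast at h2
  linarith

/-! ### Rotations -/

theorem pw_shift {k o s : ℕ → ℕ} (n : ℕ) : ∀ t,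
    pw (fun i => k (i + 1)) (fun i => o (i + 1)) (fun i => s (i + 1)) t n =
      pw k o s (t + 1) n := by
  induction n with
  | zero => exact fun t => rfl
  | succ n ih =>
    intro t
    show Pth.cons _ _ _ _ = Pth.cons _ _ _ _
    rw [ih]

theorem pthO_pw (d : F) : T.pthO d = pw (fun n => T.kx (T.N^[n] d)) (fun n => T.ox (T.N^[n] d))
    (fun n => T.sO (T.N^[n] d)) 1 (Function.minimalPeriod T.N d) := by
  unfold pthO
  rw [pt_eq_pw _ le_rfl, Nat.add_sub_cancel_left]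

theorem per_N (d : F) : Function.minimalPeriod T.N (T.N d) = Function.minimalPeriod T.N d :=
  Function.minimalPeriod_apply (Function.minimalPeriod_pos_iff_mem_periodicPts.1
    (lt_of_lt_of_le (by norm_num) (T.three d)))

theorem pthO_N (d : F) : T.pthO (T.N d) = Pth.rt1 (T.pthO d) := by
  obtain ⟨b, hb⟩ : ∃ b, Function.minimalPeriod T.N d = b + 1 :=
    ⟨_, (Nat.sub_add_cancel (le_trans (by norm_num) (T.three d))).symm⟩
  have hp : T.N^[b + 1] d = d := by
    rw [← hb]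
    exact Function.isPeriodicPt_minimalPeriod T.N d
  rw [pthO_pw, pthO_pw, per_N, hb]
  have e1 : Pth.rt1 (pw (fun n => T.kx (T.N^[n] d)) (fun n => T.ox (T.N^[n] d))
      (fun n => T.sO (T.N^[n] d)) 1 (b + 1)) = Pth.app (pw (fun n => T.kx (T.N^[n] d))
      (fun n => T.ox (T.N^[n] d)) (fun n => T.sO (T.N^[n] d)) 2 b)
        (Pth.cons (T.kx (T.N^[1] d)) (T.ox (T.N^[1] d)) (T.sO (T.N^[1] d)) Pth.nil) := rfl
  have e2 : Pth.cons (T.kx (T.N^[1] d)) (T.ox (T.N^[1] d)) (T.sO (T.N^[1] d)) Pth.nil =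
      pw (fun n => T.kx (T.N^[n] d)) (fun n => T.ox (T.N^[n] d)) (fun n => T.sO (T.N^[n] d))
        (2 + b) 1 := by
    have e3 : T.N^[2 + b] d = T.N^[1] d := by
      rw [show 2 + b = 1 + (b + 1) by omega, Function.iterate_add_apply, hp]
    show _ = Pth.cons (T.kx (T.N^[2 + b] d)) (T.ox (T.N^[2 + b] d)) (T.sO (T.N^[2 + b] d)) Pth.nil
    rw [e3]
  rw [e1, e2, app_pw]
  exact pw_shift (k := fun n => T.kx (T.N^[n] d)) (o := fun n => T.ox (T.N^[n] d))
    (s := fun n => T.sO (T.N^[n] d)) (b + 1) 1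

theorem pthO_rot (d : F) (r : ℕ) : T.pthO (T.N^[r] d) = Pth.rot (T.pthO d) r := by
  induction r with
  | zero => rfl
  | succ r ih =>
    rw [Function.iterate_succ_apply', pthO_N, ih]
    rfl

theorem sum_N (f : F → ℤ) (d : F) : ∑ i ∈ range (Function.minimalPeriod T.N (T.N d)),
    f (T.N^[i + 1] (T.N d)) = ∑ i ∈ range (Function.minimalPeriod T.N d), f (T.N^[i + 1] d) := by
  rw [per_N]
  have e1 := Finset.sum_range_succ (fun i => f (T.N^[i + 1] d)) (Function.minimalPeriod T.N d)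
  have e2 := Finset.sum_range_succ' (fun i => f (T.N^[i + 1] d)) (Function.minimalPeriod T.N d)
  have e3 : T.N^[Function.minimalPeriod T.N d + 1] d = T.N^[0 + 1] d := by
    rw [Nat.add_comm, Function.iterate_add_apply, Function.iterate_minimalPeriod]
  rw [e3] at e1
  have e4 : ∀ i, T.N^[i + 1] (T.N d) = T.N^[i + 1 + 1] d := fun i =>
    (Function.iterate_succ_apply T.N (i + 1) d).symm
  simp only [e4]
  linarith

theorem sum_rot (f : F → ℤ) (d : F) (r : ℕ) :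
    ∑ i ∈ range (Function.minimalPeriod T.N (T.N^[r] d)), f (T.N^[i + 1] (T.N^[r] d)) =
      ∑ i ∈ range (Function.minimalPeriod T.N d), f (T.N^[i + 1] d) := by
  induction r with
  | zero => rfl
  | succ r ih => rw [Function.iterate_succ_apply', sum_N, ih]

end SMap

open SMap in
/-- The test of the rings of a part of the corners, or of all, is sound. -/
theorem ringN_ok {c : Tabs} {qt pt : DT} {F : Type u} (h : c.OKJ qt pt)
    (hM : ∀ T : SMap F, c.MapR T) (n : ℕ) :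
    Tabs.RgS (F := F) (fun T => T.PP c pt) (fun T => T.QP c qt) (ringN c qt pt n) := by
  intro T d m hr
  have hx : ∀ (a : F) {x : ℕ} {r : DR} {l : DL}, T.zr c.zt a = DL.g x r l →
      Nat.ble 1048576 x = true := fun a x r l h1 => T.hdr_at h.reg h1
  obtain ⟨b, hb⟩ : ∃ b, Function.minimalPeriod T.N d = b + 3 :=
    ⟨_, (Nat.sub_add_cancel (T.three d)).symm⟩
  have hp : T.N^[b + 3] d = d := by
    rw [← hb]
    exact Function.isPeriodicPt_minimalPeriod T.N d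
  have hp' : ∀ i, T.N^[i + (b + 3)] d = T.N^[i] d := by
    intro i
    rw [Function.iterate_add_apply, hp]
  have q0 := T.pthO_pw d
  rw [hb] at q0 ⊢
  set k := fun n => T.kx (T.N^[n] d) with hk
  set o := fun n => T.ox (T.N^[n] d) with ho
  set s := fun n => T.sO (T.N^[n] d) with hs
  have e0 : T.pthO d = Pth.cons (k 1) (o 1) (s 1) (Pth.cons (k 2) (o 2) (s 2)
      (pw k o s 3 (b + 1))) := q0
  rw [e0] at hr
  have e1 : Pth.app (pw k o s 3 (b + 1)) (Pth.cons (k 1) (o 1) (s 1) (Pth.cons (k 2) (o 2) (s 2)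
      Pth.nil)) = pw k o s 3 (b + 3) := by
    have e2 : Pth.cons (k 1) (o 1) (s 1) (Pth.cons (k 2) (o 2) (s 2) Pth.nil) =
        pw k o s (3 + (b + 1)) 2 := by
      show _ = Pth.cons (k (3 + (b + 1))) (o (3 + (b + 1))) (s (3 + (b + 1)))
        (Pth.cons (k (3 + (b + 1) + 1)) (o (3 + (b + 1) + 1)) (s (3 + (b + 1) + 1)) Pth.nil)
      simp only [hk, ho, hs, show 3 + (b + 1) = 1 + (b + 3) by omega,
        show 1 + (b + 3) + 1 = 2 + (b + 3) by omega, hp']
    rw [e2, app_pw]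
  have e1' : Pth.app (pw k o s 3 (b + 1)) (Pth.cons (k 1) (o 1) (s 1) Pth.nil) =
      pw k o s 3 (b + 2) := by
    have e2 : Pth.cons (k 1) (o 1) (s 1) Pth.nil = pw k o s (3 + (b + 1)) 1 := by
      show _ = Pth.cons (k (3 + (b + 1))) (o (3 + (b + 1))) (s (3 + (b + 1))) Pth.nil
      simp only [hk, ho, hs, show 3 + (b + 1) = 1 + (b + 3) by omega, hp']
    rw [e2, app_pw]
  have hr1 : Pth.lst (pw k o s (1 + 2) (b + 1)) (k 1) (s 1) (k (1 + 1)) (s (1 + 1))
      (fun _ _ kl sl => rIf (Nat.beq n (nat_lit 0))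
        (ringPC c qt pt m (Pth.app (pw k o s 3 (b + 1)) (Pth.cons (k 1) (o 1) (s 1)
          (Pth.cons (k 2) (o 2) (s 2) Pth.nil))) kl sl (k 1) (o 1) (s 1) (k 2) (o 2) (s 2))
        (ringPD c qt pt m (Pth.tak (Pth.app (pw k o s 3 (b + 1)) (Pth.cons (k 1) (o 1) (s 1)
          Pth.nil)) (Nat.pred n)) kl sl (k 1) (o 1) (s 1) (k 2) (o 2) (s 2))) = true := hr
  have e3 : k (1 + (b + 1) + 1) = T.kx (T.N^[0] d) := by
    simp only [hk, show 1 + (b + 1) + 1 = 0 + (b + 3) by omega, hp']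
  have e4 : s (1 + (b + 1) + 1) = T.sO (T.N^[0] d) := by
    simp only [hs, show 1 + (b + 1) + 1 = 0 + (b + 3) by omega, hp']
  rw [lst_pw, e1, e1', tak_pw, e3, e4] at hr1
  have hS : ∀ i, T.aS c (T.N^[i] d) - T.uS c pt (T.N^[i] d) ≤ T.PP c pt (T.N^[i] d) :=
    fun i => T.star_local h.rsv _ (T.slT_nonneg h.toOKR hM _)
  have hR : ∀ i, T.aR c (T.N^[i] d) - T.uR c (T.N^[i] d) - T.uW c (T.N (T.N^[i] d)) -
      T.uZ c qt (T.N^[i] d) ≤ T.QP c qt (T.N^[i] d) :=
    fun i => T.region_local (hM T) h.rsv _ (T.slR_nonneg h.toOKR hM _)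
  have e5 : ∀ i, T.N (T.N^[i + 1] d) = T.N^[i + 1 + 1] d := fun i =>
    (Function.iterate_succ_apply' _ _ _).symm
  have e9 : ∀ i, 1 + i = i + 1 := fun i => by omega
  cases hn : Nat.beq n (nat_lit 0) with
  | true =>
    rw [hn, rIf_true] at hr1
    have h1 := T.ringPC_sound hx hp (by omega) hr1
    have h2 : ∑ i ∈ range (b + 3), ((T.aS c (T.N^[i + 1] d) - T.uS c pt (T.N^[i + 1] d)) +
        (T.aR c (T.N^[i + 1] d) - T.uR c (T.N^[i + 1] d) - T.uW c (T.N (T.N^[i + 1] d)) -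
          T.uZ c qt (T.N^[i + 1] d))) ≤
        ∑ i ∈ range (b + 3), (T.PP c pt (T.N^[i + 1] d) + T.QP c qt (T.N^[i + 1] d)) :=
      Finset.sum_le_sum fun i _ => add_le_add (hS _) (hR _)
    refine le_trans ?_ h2
    have h3 : ∑ i ∈ range (b + 3), T.uW c (T.N (T.N^[i + 1] d)) =
        ∑ i ∈ range (b + 3), T.uW c (T.N^[i + 1] d) := by
      simp only [e5]
      have e6 := Finset.sum_range_succ (fun i => T.uW c (T.N^[i + 1] d)) (b + 3)
      have e7 := Finset.sum_range_succ' (fun i => T.uW c (T.N^[i + 1] d)) (b + 3)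
      have e8 : T.N^[b + 3 + 1] d = T.N^[0 + 1] d := by
        rw [show b + 3 + 1 = 1 + (b + 3) by omega, hp']
      rw [e8] at e6
      linarith
    simp only [e9] at h1
    unfold uG at h1
    simp only [Finset.sum_add_distrib, Finset.sum_sub_distrib] at h1 ⊢
    rw [h3]
    linarith
  | false =>
    rw [hn, rIf_false] at hr1
    set n' := min (Nat.pred n) (b + 2) with hn'
    have hlt : n' + 1 ≤ b + 3 := by
      have := Nat.min_le_right (Nat.pred n) (b + 2)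
      omega
    have h1 := T.ringPD_sound (n := n') hx hr1
    have h2 : ∑ i ∈ range n', ((T.aS c (T.N^[i + 1] d) - T.uS c pt (T.N^[i + 1] d)) +
        (T.aR c (T.N^[i + 1] d) - T.uR c (T.N^[i + 1] d) - T.uW c (T.N (T.N^[i + 1] d)) -
          T.uZ c qt (T.N^[i + 1] d))) ≤
        ∑ i ∈ range n', (T.PP c pt (T.N^[i + 1] d) + T.QP c qt (T.N^[i + 1] d)) :=
      Finset.sum_le_sum fun i _ => add_le_add (hS _) (hR _)
    have h4 := hS (n' + 1)
    have h5 := T.QP_nonneg h hM (T.N^[n' + 1] d)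
    have h6 : ∑ i ∈ range (n' + 1), (T.PP c pt (T.N^[i + 1] d) + T.QP c qt (T.N^[i + 1] d)) ≤
        ∑ i ∈ range (b + 3), (T.PP c pt (T.N^[i + 1] d) + T.QP c qt (T.N^[i + 1] d)) := by
      refine Finset.sum_le_sum_of_subset_of_nonneg (Finset.range_mono hlt) fun i _ _ => ?_
      exact add_nonneg (T.PP_nonneg h hM _) (T.QP_nonneg h hM _)
    refine le_trans ?_ h6
    rw [Finset.sum_range_succ]
    have h3 : ∑ i ∈ range n', T.uW c (T.N (T.N^[i + 1] d)) + T.uW c (T.N^[1] d) =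
        ∑ i ∈ range n', T.uW c (T.N^[i + 1] d) + T.uW c (T.N^[n' + 1] d) := by
      simp only [e5]
      have e6 := Finset.sum_range_succ (fun i => T.uW c (T.N^[i + 1] d)) n'
      have e7 := Finset.sum_range_succ' (fun i => T.uW c (T.N^[i + 1] d)) n'
      simp only [Nat.zero_add] at e7
      linarith
    simp only [e9] at h1
    unfold uG at h1
    simp only [Finset.sum_add_distrib, Finset.sum_sub_distrib] at h1 h2 ⊢
    linarith

open SMap in
/-- **The test of the rings around a cell is sound**, for all hints. -/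
theorem ringP_ok {c : Tabs} {qt pt : DT} {F : Type u} (h : c.OKJ qt pt)
    (hM : ∀ T : SMap F, c.MapR T) (hint : Pth → ℕ) :
    Tabs.RgS (F := F) (fun T => T.PP c pt) (fun T => T.QP c qt) (ringP c qt pt hint) := by
  intro T d m hr
  unfold ringP at hr
  rw [rForce_eq, ← T.pthO_rot] at hr
  have h1 := ringN_ok h hM _ T _ m hr
  rw [T.sum_rot (fun a => T.PP c pt a + T.QP c qt a)] at h1
  exact h1

open SMap in
/-- **The equal shares of the slacks**, with the tables of single regions and triangles. -/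
theorem Tabs.share_plain {c : Tabs} {qt pt : DT} {F : Type u} (h : c.OKJ qt pt)
    (hM : ∀ T : SMap F, c.MapR T) :
    c.Share (F := F) (fun _ _ => 0) (fun T a => T.PP c pt a) (fun T d => T.QP c qt d) where
  s0 _ _ _ := rfl
  P0 T a := T.PP_nonneg h hM a
  Pb T _ ha := T.PP_big ha
  P3 T a ha := by
    have := T.PP_sum h hM ha
    linarith
  Pr T a := T.relab_PP h hM a
  Q0 T d := T.QP_nonneg h hM d
  Q2 T d := by
    have := T.QP_sum h hM d
    linarith
  Qr T d := T.relab_QP h hM d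

end Pool.Agent.Lib.MP_5854e1_co
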