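import Pool.Agent.Lib.MP_5854e1_co.RingPS

/-!
# The test of the rings around a cell with a table of windows

A row of the table `wt` consists of a value `v` and of the corners of a window: the shares of the
corners of the window, without its first and its last corner, are at least `v`, for all outer
tokens. All shares are nonnegative, so `v` is a bound for every cell which contains the window.
-/

set_option autoImplicit false

open Equiv Equiv.Perm

namespace Pool.Agent.Lib.MP_5854e1_co

open Finset PB CE CE.Cell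

universe u

noncomputable section

/-- The corners of a row. -/
def DR.pth (r : DR) : Pth :=
  DR.rec (motive := fun _ => Pth) Pth.nil (fun x o _ ih =>
    rForce (Nat.div x (nat_lit 8192)) fun k => rForce (Nat.mod x (nat_lit 8192)) fun s =>
      Pth.cons k o s ih) r

/-- The corners of a path are the corners of a row, followed by others. -/
def DR.pfx (r : DR) : Pth → Bool :=
  DR.rec (motive := fun _ => Pth → Bool) (fun _ => true)
    (fun x o _ ih q => Pth.rec (motive := fun _ => Bool) false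
      (fun k o' s q' _ => rAnd (Nat.beq (dkey k s) x) (rAnd (Nat.beq o' o) (ih q'))) q) r

/-- The test of a window of the value `v`. -/
def wtC (c : Tabs) (qt pt : DT) (v : ℕ) (r : DR) : Bool :=
  DR.rec (motive := fun _ => Bool) false (fun x0 _ r0 _ =>
    DR.rec (motive := fun _ => Bool) false (fun x1 o1 r1 _ =>
      DR.rec (motive := fun _ => Bool) false (fun x2 o2 r2 _ =>
        rForce (Nat.div x0 (nat_lit 8192)) fun k0 => rForce (Nat.mod x0 (nat_lit 8192)) fun s0 =>
        rForce (Nat.div x1 (nat_lit 8192)) fun k1 => rForce (Nat.mod x1 (nat_lit 8192)) fun s1 =>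
        rForce (Nat.div x2 (nat_lit 8192)) fun k2 => rForce (Nat.mod x2 (nat_lit 8192)) fun s2 =>
          ringPD c qt pt v (DR.pth r2) k0 s0 k1 o1 s1 k2 o2 s2) r1) r0) r

/-- The test of a row of the table of windows. -/
def wtR (c : Tabs) (qt pt : DT) (_ : ℕ) (l : DL) : Bool :=
  DL.rec (motive := fun _ => Bool) true (fun v r _ _ => wtC c qt pt v r) l

/-- The test of a cell with the window of index `i`. -/
def wtT (wt : DT) (i : ℕ) (q : Pth) (m : ℕ) : Bool :=
  DL.rec (motive := fun _ => Bool) false (fun v r _ _ => rAnd (Nat.ble m v) (DR.pfx r q))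
    (DT.get wt i)

/-- The test of the rings around a cell: the hint `1024 i + r` with `i > 0` says that the first
`r` corners are put to the end and that the window of index `i` is used; the smaller hints are
those of `ringP`. -/
def ringW (c : Tabs) (qt pt wt : DT) (hint : Pth → ℕ) (q : Pth) (m : ℕ) : Bool :=
  rForce (hint q) fun g => rIf (Nat.ble (nat_lit 1024) g)
    (wtT wt (Nat.div g (nat_lit 1024)) (Pth.rot q (Nat.mod g (nat_lit 1024))) m)
    (ringN c qt pt (Nat.mod g (nat_lit 16)) (Pth.rot q (Nat.div g (nat_lit 16))) m)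

/-- A number of a path. -/
def Pth.hso (q : Pth) : ℕ :=
  Pth.rec (motive := fun _ => ℕ → ℕ) (fun a => a)
    (fun k o s _ ih a => rForce (Nat.mod (Nat.add (Nat.mul a (nat_lit 1103515245))
      (Nat.add (Nat.mul k (nat_lit 4194304)) (Nat.add (Nat.mul o (nat_lit 8192)) s)))
      (nat_lit 1099511627689)) fun a' => ih a') q (nat_lit 1)

/-- The hints of a table. -/
def hintW (ht : DT) (q : Pth) : ℕ :=
  DL.rec (motive := fun _ => ℕ) (nat_lit 0) (fun h _ _ _ => h) (DT.get ht (Pth.hso q))

end

/-! ### Rows of corners -/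

/-- The row of the corners `t`, ..., `t + n - 1`. -/
def dw (k o s : ℕ → ℕ) : ℕ → ℕ → DR
  | _, 0 => DR.nil
  | t, n + 1 => DR.e (dkey (k t) (s t)) (o t) (dw k o s (t + 1) n)

theorem pfx_pw {k o s : ℕ → ℕ} (r : DR) : ∀ t b, DR.pfx r (pw k o s t b) = true →
    ∃ n ≤ b, r = dw k o s t n := by
  induction r with
  | nil => exact fun t b _ => ⟨0, Nat.zero_le b, rfl⟩
  | e x y r ih =>
    intro t b h
    cases b with
    | zero => exact absurd (show false = true from h) (by decide)
    | succ b =>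
      have h' : rAnd (Nat.beq (dkey (k t) (s t)) x) (rAnd (Nat.beq (o t) y)
        (DR.pfx r (pw k o s (t + 1) b))) = true := h
      obtain ⟨h1, h2⟩ := rAnd_iff.1 h'
      obtain ⟨h2, h3⟩ := rAnd_iff.1 h2
      obtain ⟨n, hn, e1⟩ := ih _ _ h3
      refine ⟨n + 1, Nat.succ_le_succ hn, ?_⟩
      show DR.e x y r = DR.e (dkey (k t) (s t)) (o t) (dw k o s (t + 1) n)
      rw [Nat.eq_of_beq_eq_true h1, Nat.eq_of_beq_eq_true h2, e1]

theorem pth_dw {k o s : ℕ → ℕ} (hs : ∀ i, s i < 8192) (n : ℕ) : ∀ t,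
    DR.pth (dw k o s t n) = pw k o s t n := by
  induction n with
  | zero => exact fun t => rfl
  | succ n ih =>
    intro t
    have e1 : DR.pth (dw k o s t (n + 1)) = rForce (Nat.div (dkey (k t) (s t)) (nat_lit 8192))
      fun k' => rForce (Nat.mod (dkey (k t) (s t)) (nat_lit 8192)) fun s' =>
        Pth.cons k' (o t) s' (DR.pth (dw k o s (t + 1) n)) := rfl
    rw [e1, rForce_eq, rForce_eq, (dkey_parts (hs t)).1, (dkey_parts (hs t)).2, ih]
    rfl

theorem wtC_dw {c : Tabs} {qt pt : DT} {v : ℕ} {k o s : ℕ → ℕ} (hs : ∀ i, s i < 8192)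
    (n t : ℕ) : wtC c qt pt v (dw k o s t (n + 3)) =
      ringPD c qt pt v (pw k o s (t + 3) n) (k t) (s t) (k (t + 1)) (o (t + 1)) (s (t + 1))
        (k (t + 2)) (o (t + 2)) (s (t + 2)) := by
  have e1 : wtC c qt pt v (dw k o s t (n + 3)) =
      rForce (Nat.div (dkey (k t) (s t)) (nat_lit 8192)) fun k0 =>
      rForce (Nat.mod (dkey (k t) (s t)) (nat_lit 8192)) fun s0 =>
      rForce (Nat.div (dkey (k (t + 1)) (s (t + 1))) (nat_lit 8192)) fun k1 =>
      rForce (Nat.mod (dkey (k (t + 1)) (s (t + 1))) (nat_lit 8192)) fun s1 =>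
      rForce (Nat.div (dkey (k (t + 2)) (s (t + 2))) (nat_lit 8192)) fun k2 =>
      rForce (Nat.mod (dkey (k (t + 2)) (s (t + 2))) (nat_lit 8192)) fun s2 =>
        ringPD c qt pt v (DR.pth (dw k o s (t + 3) n)) k0 s0 k1 (o (t + 1)) s1 k2 (o (t + 2))
          s2 := rfl
  rw [e1]
  simp only [rForce_eq, (dkey_parts (hs _)).1, (dkey_parts (hs _)).2, pth_dw hs]

namespace SMap

variable {F : Type u} (T : SMap F) {c : Tabs} {qt pt : DT}

theorem sO_lt (d : F) : T.sO d < 8192 := by
  unfold sO
  split_ifs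
  · exact lt_of_lt_of_le (T.rs_lt d) (by norm_num)
  · norm_num

/-- The shares of a part of the corners. -/
theorem part_le (h : c.OKJ qt pt) (hM : ∀ T : SMap F, c.MapR T) {d : F} {m n : ℕ}
    (hn : n + 1 ≤ Function.minimalPeriod T.N d)
    (h1 : 6 * (m : ℤ) ≤ ∑ i ∈ range n, (T.aS c (T.N^[1 + i] d) + T.aR c (T.N^[1 + i] d)) +
      T.aS c (T.N^[1 + n] d) - (T.uS c pt (T.N^[1 + n] d) + T.uW c (T.N^[1 + n] d)) -
      (∑ i ∈ range n, T.uG c qt pt (T.N^[1 + i] d) - T.uW c (T.N^[1] d))) :
    6 * (m : ℤ) ≤ ∑ i ∈ range (Function.minimalPeriod T.N d),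
      (T.PP c pt (T.N^[i + 1] d) + T.QP c qt (T.N^[i + 1] d)) := by
  have hS : ∀ i, T.aS c (T.N^[i] d) - T.uS c pt (T.N^[i] d) ≤ T.PP c pt (T.N^[i] d) :=
    fun i => T.star_local h.rsv _ (T.slT_nonneg h.toOKR hM _)
  have hR : ∀ i, T.aR c (T.N^[i] d) - T.uR c (T.N^[i] d) - T.uW c (T.N (T.N^[i] d)) -
      T.uZ c qt (T.N^[i] d) ≤ T.QP c qt (T.N^[i] d) :=
    fun i => T.region_local (hM T) h.rsv _ (T.slR_nonneg h.toOKR hM _)
  have e5 : ∀ i, T.N (T.N^[i + 1] d) = T.N^[i + 1 + 1] d := fun i =>
    (Function.iterate_succ_apply' _ _ _).symm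
  have e9 : ∀ i, 1 + i = i + 1 := fun i => by omega
  have h2 : ∑ i ∈ range n, ((T.aS c (T.N^[i + 1] d) - T.uS c pt (T.N^[i + 1] d)) +
      (T.aR c (T.N^[i + 1] d) - T.uR c (T.N^[i + 1] d) - T.uW c (T.N (T.N^[i + 1] d)) -
        T.uZ c qt (T.N^[i + 1] d))) ≤
      ∑ i ∈ range n, (T.PP c pt (T.N^[i + 1] d) + T.QP c qt (T.N^[i + 1] d)) :=
    Finset.sum_le_sum fun i _ => add_le_add (hS _) (hR _)
  have h4 := hS (n + 1)
  have h5 := T.QP_nonneg h hM (T.N^[n + 1] d)
  have h6 : ∑ i ∈ range (n + 1), (T.PP c pt (T.N^[i + 1] d) + T.QP c qt (T.N^[i + 1] d)) ≤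
      ∑ i ∈ range (Function.minimalPeriod T.N d),
        (T.PP c pt (T.N^[i + 1] d) + T.QP c qt (T.N^[i + 1] d)) := by
    refine Finset.sum_le_sum_of_subset_of_nonneg (Finset.range_mono hn) fun i _ _ => ?_
    exact add_nonneg (T.PP_nonneg h hM _) (T.QP_nonneg h hM _)
  refine le_trans ?_ h6
  rw [Finset.sum_range_succ]
  have h3 : ∑ i ∈ range n, T.uW c (T.N (T.N^[i + 1] d)) + T.uW c (T.N^[1] d) =
      ∑ i ∈ range n, T.uW c (T.N^[i + 1] d) + T.uW c (T.N^[n + 1] d) := by
    simp only [e5]
    have e6 := Finset.sum_range_succ (fun i => T.uW c (T.N^[i + 1] d)) n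
    have e7 := Finset.sum_range_succ' (fun i => T.uW c (T.N^[i + 1] d)) n
    simp only [Nat.zero_add] at e7
    linarith
  simp only [e9] at h1
  unfold uG at h1
  simp only [Finset.sum_add_distrib, Finset.sum_sub_distrib] at h1 h2 ⊢
  linarith

end SMap

open SMap in
/-- The test of a cell with a window of the table is sound. -/
theorem wtT_ok {c : Tabs} {qt pt wt : DT} {F : Type u} (h : c.OKJ qt pt)
    (hM : ∀ T : SMap F, c.MapR T) (hw : DT.all (wtR c qt pt) wt = true) (i : ℕ) :
    Tabs.RgS (F := F) (fun T => T.PP c pt) (fun T => T.QP c qt) (wtT wt i) := by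
  intro T d m hr
  have hx : ∀ (a : F) {x : ℕ} {r : DR} {l : DL}, T.zr c.zt a = DL.g x r l →
      Nat.ble 1048576 x = true := fun a x r l h1 => T.hdr_at h.reg h1
  have hr' : DL.rec (motive := fun _ => Bool) false (fun v r _ _ =>
    rAnd (Nat.ble m v) (DR.pfx r (T.pthO d))) (DT.get wt i) = true := hr
  rcases DT.get_of_all hw i with h1 | h1
  · rw [h1] at hr'
    exact absurd (show false = true from hr') (by decide)
  · cases hl : DT.get wt i with
    | nil =>
      rw [hl] at hr'
      exact absurd (show false = true from hr') (by decide)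
    | g v r l =>
      rw [hl] at hr' h1
      have h2 : wtC c qt pt v r = true := h1
      obtain ⟨h3, h4⟩ := rAnd_iff.1 (show rAnd (Nat.ble m v) (DR.pfx r (T.pthO d)) = true from hr')
      have hmv := Nat.le_of_ble_eq_true h3
      rw [T.pthO_pw d] at h4
      obtain ⟨n, hn, e1⟩ := pfx_pw _ _ _ h4
      have hs : ∀ i, T.sO (T.N^[i] d) < 8192 := fun i => T.sO_lt _
      -- the window has at least three corners
      obtain ⟨n, rfl⟩ : ∃ n', n = n' + 3 := by
        by_contra hn3
        have h5 : n < 3 := by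
          by_contra h6
          exact hn3 ⟨n - 3, by omega⟩
        rw [e1] at h2
        have h6 : n = 0 ∨ n = 1 ∨ n = 2 := by omega
        rcases h6 with rfl | rfl | rfl
        · exact absurd (show false = true from h2) (by decide)
        · exact absurd (show false = true from h2) (by decide)
        · exact absurd (show false = true from h2) (by decide)
      rw [e1, wtC_dw hs] at h2
      have e2 : ∀ j, T.N^[j + 1] d = T.N^[j] (T.N d) := fun j => Function.iterate_succ_apply _ _ _
      have e3 : pw (fun n => T.kx (T.N^[n] d)) (fun n => T.ox (T.N^[n] d))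
          (fun n => T.sO (T.N^[n] d)) (1 + 3) n =
          pw (fun n => T.kx (T.N^[n] (T.N d))) (fun n => T.ox (T.N^[n] (T.N d)))
            (fun n => T.sO (T.N^[n] (T.N d))) 3 n := by
        have := pw_shift (k := fun n => T.kx (T.N^[n] d)) (o := fun n => T.ox (T.N^[n] d))
          (s := fun n => T.sO (T.N^[n] d)) n 3
        simp only [e2] at this
        exact this.symm
      rw [e3] at h2
      have h7 := T.ringPD_sound (d := T.N d) (m := v) (n := n) hx h2
      have h8 := T.part_le h hM (by rw [T.per_N]; omega) h7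
      rw [T.sum_N (fun a => T.PP c pt a + T.QP c qt a)] at h8
      have h9 : (m : ℤ) ≤ v := by exact_mod_cast hmv
      linarith

open SMap in
/-- **The test of the rings around a cell with a table of windows is sound**, for all hints. -/
theorem ringW_ok {c : Tabs} {qt pt wt : DT} {F : Type u} (h : c.OKJ qt pt)
    (hM : ∀ T : SMap F, c.MapR T) (hw : DT.all (wtR c qt pt) wt = true) (hint : Pth → ℕ) :
    Tabs.RgS (F := F) (fun T => T.PP c pt) (fun T => T.QP c qt) (ringW c qt pt wt hint) := by
  intro T d m hr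
  unfold ringW at hr
  rw [rForce_eq] at hr
  cases hb : Nat.ble (nat_lit 1024) (hint (T.pthO d)) with
  | true =>
    rw [hb, rIf_true, ← T.pthO_rot] at hr
    have h1 := wtT_ok h hM hw _ T _ m hr
    rw [T.sum_rot (fun a => T.PP c pt a + T.QP c qt a)] at h1
    exact h1
  | false =>
    rw [hb, rIf_false, ← T.pthO_rot] at hr
    have h1 := ringN_ok h hM _ T _ m hr
    rw [T.sum_rot (fun a => T.PP c pt a + T.QP c qt a)] at h1
    exact h1

end Pool.Agent.Lib.MP_5854e1_co
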