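import Pool.Agent.Lib.MP_5854e1_co.RingW

/-!
# The ring test with a table of windows and cells

A row `g v r l` of the table consists of a value `v`, of the corners `r` of a window or of a whole
cell, and of its kind `l`: a window (`l = nil`), a cell (`l = g n nil ..`, to be tested with the
hint `n`), or the reflection of the row of index `i` (`l = g f (e i ..) ..`; `f = 0` for a window,
`f = 1` for a cell).
-/

set_option autoImplicit false

open Equiv Equiv.Perm

namespace Pool.Agent.Lib.MP_5854e1_co

open Finset PB CE CE.Cell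

universe u

noncomputable section

/-- The empty row. -/
def DR.isn (r : DR) : Bool := DR.rec (motive := fun _ => Bool) true (fun _ _ _ _ => false) r

/-- The empty path. -/
def Pth.isn (q : Pth) : Bool :=
  Pth.rec (motive := fun _ => Bool) true (fun _ _ _ _ _ => false) q

/-- The corners of a path are the corners of a row, followed by others if `b` is true. -/
def DR.pfb (b : Bool) (r : DR) : Pth → Bool :=
  DR.rec (motive := fun _ => Pth → Bool) (fun q => rIf b true (Pth.isn q))
    (fun x o _ ih q => Pth.rec (motive := fun _ => Bool) false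
      (fun k o' s q' _ => rAnd (Nat.beq (dkey k s) x) (rAnd (Nat.beq o' o) (ih q'))) q) r

/-- The second row is the reflection of the first one. -/
def DR.sgm (r : DR) : DR → Bool :=
  DR.rec (motive := fun _ => DR → Bool) (fun r0 => DR.isn r0)
    (fun x o _ ih r0 => DR.rec (motive := fun _ => Bool) false
      (fun x0 o0 r' _ => rForce (Nat.div x (nat_lit 8192)) fun k =>
        rForce (Nat.mod x (nat_lit 8192)) fun s =>
        rAnd (Nat.beq (dkey (mK k) (mS k s)) x0) (rAnd (Nat.beq (mO' k o) o0) (ih r'))) r0) r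

/-- The row of the kind `l` is a window. -/
def DL.isw (l : DL) : Bool :=
  DL.rec (motive := fun _ => Bool) true (fun n q _ _ =>
    DR.rec (motive := fun _ => Bool) false (fun _ _ _ _ => Nat.beq n (nat_lit 0)) q) l

/-- The row of the kind `l` is not a reflection; it is a window if `n` is zero. -/
def DL.bas (n : ℕ) (l : DL) : Bool :=
  DL.rec (motive := fun _ => Bool) (Nat.beq n (nat_lit 0)) (fun _ q _ _ =>
    rAnd (DR.isn q) (rIf (Nat.beq n (nat_lit 0)) false true)) l

/-- The test of a row of the table. -/
def wzR (c : Tabs) (qt pt wt : DT) (_ : ℕ) (l : DL) : Bool :=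
  DL.rec (motive := fun _ => Bool) true (fun v r l' _ =>
    DL.rec (motive := fun _ => Bool) (wtC c qt pt v r) (fun n q _ _ =>
      DR.rec (motive := fun _ => Bool) (ringN c qt pt n (DR.pth r) v) (fun i _ _ _ =>
        DL.rec (motive := fun _ => Bool) false (fun v0 r0 l0 _ =>
          rAnd (Nat.ble v v0) (rAnd (DL.bas n l0) (DR.sgm r r0))) (DT.get wt i)) q) l') l

/-- The test of a cell with the row of index `i`. -/
def wzT (wt : DT) (i : ℕ) (q : Pth) (m : ℕ) : Bool :=
  DL.rec (motive := fun _ => Bool) false (fun v r l _ =>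
    rAnd (Nat.ble m v) (DR.pfb (DL.isw l) r q)) (DT.get wt i)

/-- The test of the rings around a cell: the hint `1024 i + r` with `i > 0` says that the first
`r` corners are put to the end and that the row of index `i` is used; the smaller hints are
those of `ringP`. -/
def ringZ (c : Tabs) (qt pt wt : DT) (hint : Pth → ℕ) (q : Pth) (m : ℕ) : Bool :=
  rForce (hint q) fun g => rIf (Nat.ble (nat_lit 1024) g)
    (wzT wt (Nat.div g (nat_lit 1024)) (Pth.rot q (Nat.mod g (nat_lit 1024))) m)
    (ringN c qt pt (Nat.mod g (nat_lit 16)) (Pth.rot q (Nat.div g (nat_lit 16))) m)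

end

/-! ### Rows of corners -/

theorem DR.isn_eq {r : DR} (h : DR.isn r = true) : r = DR.nil := by
  cases r with
  | nil => rfl
  | e x y r => exact absurd (show false = true from h) (by decide)

theorem pfb_pw {k o s : ℕ → ℕ} {β : Bool} (r : DR) : ∀ t b, DR.pfb β r (pw k o s t b) = true →
    ∃ n ≤ b, r = dw k o s t n ∧ (β = false → n = b) := by
  induction r with
  | nil =>
    intro t b h
    refine ⟨0, Nat.zero_le b, rfl, fun hb => ?_⟩
    have h' : rIf β true (Pth.isn (pw k o s t b)) = true := h
    rw [hb, rIf_false] at h'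
    cases b with
    | zero => rfl
    | succ b => exact absurd (show false = true from h') (by decide)
  | e x y r ih =>
    intro t b h
    cases b with
    | zero => exact absurd (show false = true from h) (by decide)
    | succ b =>
      have h' : rAnd (Nat.beq (dkey (k t) (s t)) x) (rAnd (Nat.beq (o t) y)
        (DR.pfb β r (pw k o s (t + 1) b))) = true := h
      obtain ⟨h1, h2⟩ := rAnd_iff.1 h'
      obtain ⟨h2, h3⟩ := rAnd_iff.1 h2
      obtain ⟨n, hn, e1, e2⟩ := ih _ _ h3
      refine ⟨n + 1, Nat.succ_le_succ hn, ?_, fun hb => by rw [e2 hb]⟩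
      show DR.e x y r = DR.e (dkey (k t) (s t)) (o t) (dw k o s (t + 1) n)
      rw [Nat.eq_of_beq_eq_true h1, Nat.eq_of_beq_eq_true h2, e1]

theorem sgm_dw {k o s : ℕ → ℕ} (hs : ∀ i, s i < 8192) (n : ℕ) : ∀ t r0,
    DR.sgm (dw k o s t n) r0 = true →
      r0 = dw (fun i => mK (k i)) (fun i => mO' (k i) (o i)) (fun i => mS (k i) (s i)) t n := by
  induction n with
  | zero => exact fun t r0 h => DR.isn_eq h
  | succ n ih =>
    intro t r0 h
    cases r0 with
    | nil => exact absurd (show false = true from h) (by decide)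
    | e x0 o0 r' =>
      have h' : (rForce (Nat.div (dkey (k t) (s t)) (nat_lit 8192)) fun k' =>
        rForce (Nat.mod (dkey (k t) (s t)) (nat_lit 8192)) fun s' =>
        rAnd (Nat.beq (dkey (mK k') (mS k' s')) x0) (rAnd (Nat.beq (mO' k' (o t)) o0)
          (DR.sgm (dw k o s (t + 1) n) r'))) = true := h
      rw [rForce_eq, rForce_eq, (dkey_parts (hs t)).1, (dkey_parts (hs t)).2] at h'
      obtain ⟨h1, h2⟩ := rAnd_iff.1 h'
      obtain ⟨h2, h3⟩ := rAnd_iff.1 h2
      rw [← Nat.eq_of_beq_eq_true h1, ← Nat.eq_of_beq_eq_true h2, ih _ _ h3]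
      rfl

namespace SMap

variable {F : Type u} (T : SMap F) {c : Tabs} {qt pt : DT}

theorem relab_sO (d : F) : T.relab.sO d = mS (T.kx d) (T.sO d) := by
  by_cases h : T.Tri d
  · have h' : T.relab.Tri d := h
    rw [T.sO_tri h, T.relab.sO_tri h', T.relab_jx h]
    unfold mS
    rw [← T.rs_tri h, T.ble_rs_tri h, rIf_false, T.rs_tri h]
  · have h' : ¬T.relab.Tri d := h
    unfold sO
    rw [if_neg h, if_neg h']
    rfl

/-- The corners of a cell. -/
noncomputable def cdw (d : F) (n : ℕ) : DR := dw (fun i => T.kx (T.N^[i] d)) (fun i => T.ox (T.N^[i] d))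
  (fun i => T.sO (T.N^[i] d)) 1 n

theorem cdw_relab {d : F} {n : ℕ} {r : DR} (h : DR.sgm (T.cdw d n) r = true) :
    r = T.relab.cdw d n := by
  have h1 := sgm_dw (fun i => T.sO_lt _) n 1 r h
  rw [h1]
  unfold cdw
  have e1 : (fun i => T.relab.kx (T.relab.N^[i] d)) = fun i => mK (T.kx (T.N^[i] d)) :=
    funext fun i => T.relab_kx _
  have e2 : (fun i => T.relab.ox (T.relab.N^[i] d)) =
      fun i => mO' (T.kx (T.N^[i] d)) (T.ox (T.N^[i] d)) := funext fun i => T.relab_ox _
  have e3 : (fun i => T.relab.sO (T.relab.N^[i] d)) =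
      fun i => mS (T.kx (T.N^[i] d)) (T.sO (T.N^[i] d)) := funext fun i => T.relab_sO _
  rw [e1, e2, e3]

/-- A window. -/
theorem wtC_le (h : c.OKJ qt pt) (hM : ∀ T : SMap F, c.MapR T) {v n : ℕ} (d : F)
    (hn : n ≤ Function.minimalPeriod T.N d) (h2 : wtC c qt pt v (T.cdw d n) = true) :
    6 * (v : ℤ) ≤ ∑ i ∈ range (Function.minimalPeriod T.N d),
      (T.PP c pt (T.N^[i + 1] d) + T.QP c qt (T.N^[i + 1] d)) := by
  have hx : ∀ (a : F) {x : ℕ} {r : DR} {l : DL}, T.zr c.zt a = DL.g x r l →
      Nat.ble 1048576 x = true := fun a x r l h1 => T.hdr_at h.reg h1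
  have hs : ∀ i, T.sO (T.N^[i] d) < 8192 := fun i => T.sO_lt _
  obtain ⟨n, rfl⟩ : ∃ n', n = n' + 3 := by
    by_contra hn3
    have h5 : n < 3 := by
      by_contra h6
      exact hn3 ⟨n - 3, by omega⟩
    have h6 : n = 0 ∨ n = 1 ∨ n = 2 := by omega
    rcases h6 with rfl | rfl | rfl
    · exact absurd (show false = true from h2) (by decide)
    · exact absurd (show false = true from h2) (by decide)
    · exact absurd (show false = true from h2) (by decide)
  unfold cdw at h2
  rw [wtC_dw hs] at h2
  have e2 : ∀ j, T.N^[j + 1] d = T.N^[j] (T.N d) := fun j => Function.iterate_succ_apply _ _ _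
  have e3 : pw (fun n => T.kx (T.N^[n] d)) (fun n => T.ox (T.N^[n] d))
      (fun n => T.sO (T.N^[n] d)) (1 + 3) n =
      pw (fun n => T.kx (T.N^[n] (T.N d))) (fun n => T.ox (T.N^[n] (T.N d)))
        (fun n => T.sO (T.N^[n] (T.N d))) 3 n := by
    have := pw_shift (k := fun n => T.kx (T.N^[n] d)) (o := fun n => T.ox (T.N^[n] d))
      (s := fun n => T.sO (T.N^[n] d)) n 3
    simp only [e2] at this
    exact this.symm
  rw [e3] at h2
  have h7 := T.ringPD_sound (d := T.N d) (m := v) (n := n) hx h2
  have h8 := T.part_le h hM (by rw [T.per_N]; omega) h7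
  rw [T.sum_N (fun a => T.PP c pt a + T.QP c qt a)] at h8
  exact h8

/-- A cell. -/
theorem cell_le (h : c.OKJ qt pt) (hM : ∀ T : SMap F, c.MapR T) {v n : ℕ} (d : F)
    (h2 : ringN c qt pt n (DR.pth (T.cdw d (Function.minimalPeriod T.N d))) v = true) :
    6 * (v : ℤ) ≤ ∑ i ∈ range (Function.minimalPeriod T.N d),
      (T.PP c pt (T.N^[i + 1] d) + T.QP c qt (T.N^[i + 1] d)) := by
  unfold cdw at h2
  rw [pth_dw (fun i => T.sO_lt _), ← T.pthO_pw] at h2
  exact ringN_ok h hM n T d v h2

/-- The sum of the shares of the reflected cell. -/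
theorem relab_sum (h : c.OKJ qt pt) (hM : ∀ T : SMap F, c.MapR T) (d : F) :
    ∑ i ∈ range (Function.minimalPeriod T.relab.N d),
      (T.relab.PP c pt (T.relab.N^[i + 1] d) + T.relab.QP c qt (T.relab.N^[i + 1] d)) =
    ∑ i ∈ range (Function.minimalPeriod T.N d),
      (T.PP c pt (T.N^[i + 1] d) + T.QP c qt (T.N^[i + 1] d)) :=
  Finset.sum_congr rfl fun i _ => by rw [T.relab_PP h hM, T.relab_QP h hM]; rfl

end SMap

open SMap in
/-- The test of a cell with a row of the table is sound. -/
theorem wzT_ok {c : Tabs} {qt pt wt : DT} {F : Type u} (h : c.OKJ qt pt)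
    (hM : ∀ T : SMap F, c.MapR T) (hw : DT.all (wzR c qt pt wt) wt = true) (i : ℕ) :
    Tabs.RgS (F := F) (fun T => T.PP c pt) (fun T => T.QP c qt) (wzT wt i) := by
  intro T d m hr
  show 6 * (m : ℤ) ≤ ∑ i ∈ range (Function.minimalPeriod T.N d),
    (T.PP c pt (T.N^[i + 1] d) + T.QP c qt (T.N^[i + 1] d))
  have hr' : DL.rec (motive := fun _ => Bool) false (fun v r l _ =>
    rAnd (Nat.ble m v) (DR.pfb (DL.isw l) r (T.pthO d))) (DT.get wt i) = true := hr
  cases hl : DT.get wt i with
  | nil =>
    rw [hl] at hr'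
    exact absurd (show false = true from hr') (by decide)
  | g v r l' =>
    have h1 : wzR c qt pt wt i (DL.g v r l') = true := by
      rcases DT.get_of_all hw i with h1 | h1
      · rw [hl] at h1
        cases h1
      · rwa [hl] at h1
    rw [hl] at hr'
    obtain ⟨h3, h4⟩ := rAnd_iff.1
      (show rAnd (Nat.ble m v) (DR.pfb (DL.isw l') r (T.pthO d)) = true from hr')
    have hmv : (m : ℤ) ≤ v := by exact_mod_cast Nat.le_of_ble_eq_true h3
    rw [T.pthO_pw d] at h4
    obtain ⟨n, hn, e1, e2⟩ := pfb_pw _ _ _ h4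
    have e1' : r = T.cdw d n := e1
    suffices hv : 6 * (v : ℤ) ≤ ∑ i ∈ range (Function.minimalPeriod T.N d),
      (T.PP c pt (T.N^[i + 1] d) + T.QP c qt (T.N^[i + 1] d)) by linarith
    cases l' with
    | nil =>
      have h2 : wtC c qt pt v r = true := h1
      rw [e1'] at h2
      exact T.wtC_le h hM d hn h2
    | g f q l2 =>
      cases q with
      | nil =>
        have h2 : ringN c qt pt f (DR.pth r) v = true := h1
        have e3 : n = Function.minimalPeriod T.N d := e2 rfl
        rw [e1', e3] at h2
        exact T.cell_le h hM d h2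
      | e i0 y q2 =>
        have h2 : DL.rec (motive := fun _ => Bool) false (fun v0 r0 l0 _ =>
          rAnd (Nat.ble v v0) (rAnd (DL.bas f l0) (DR.sgm r r0))) (DT.get wt i0) = true := h1
        have hw0 := DT.get_of_all hw i0
        cases hl0 : DT.get wt i0 with
        | nil =>
          rw [hl0] at h2
          exact absurd (show false = true from h2) (by decide)
        | g v0 r0 l0 =>
          rw [hl0] at h2 hw0
          have hw1 : wzR c qt pt wt i0 (DL.g v0 r0 l0) = true := by
            rcases hw0 with h5 | h5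
            · cases h5
            · exact h5
          obtain ⟨h5, h6⟩ := rAnd_iff.1
            (show rAnd (Nat.ble v v0) (rAnd (DL.bas f l0) (DR.sgm r r0)) = true from h2)
          obtain ⟨h6, h7⟩ := rAnd_iff.1 h6
          have hvv : (v : ℤ) ≤ v0 := by exact_mod_cast Nat.le_of_ble_eq_true h5
          rw [e1'] at h7
          have e4 : r0 = T.relab.cdw d n := T.cdw_relab h7
          suffices hv0 : 6 * (v0 : ℤ) ≤ ∑ i ∈ range (Function.minimalPeriod T.relab.N d),
              (T.relab.PP c pt (T.relab.N^[i + 1] d) + T.relab.QP c qt (T.relab.N^[i + 1] d)) by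
            rw [T.relab_sum h hM d] at hv0
            linarith
          cases l0 with
          | nil =>
            have h8 : wtC c qt pt v0 r0 = true := hw1
            rw [e4] at h8
            exact T.relab.wtC_le h hM d hn h8
          | g f0 q0 l3 =>
            obtain ⟨h9, h10⟩ := rAnd_iff.1
              (show rAnd (DR.isn q0) (rIf (Nat.beq f (nat_lit 0)) false true) = true from h6)
            have e5 := DR.isn_eq h9
            subst e5
            have h8 : ringN c qt pt f0 (DR.pth r0) v0 = true := hw1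
            have hf : Nat.beq f (nat_lit 0) = false := by
              cases hf : Nat.beq f (nat_lit 0) with
              | false => rfl
              | true =>
                rw [hf, rIf_true] at h10
                exact h10.symm
            have e3 : n = Function.minimalPeriod T.N d := e2 hf
            rw [e4, e3] at h8
            exact T.relab.cell_le h hM d h8

open SMap in
/-- **The test of the rings around a cell with a table of windows and cells is sound**, for all
hints. -/
theorem ringZ_ok {c : Tabs} {qt pt wt : DT} {F : Type u} (h : c.OKJ qt pt)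
    (hM : ∀ T : SMap F, c.MapR T) (hw : DT.all (wzR c qt pt wt) wt = true) (hint : Pth → ℕ) :
    Tabs.RgS (F := F) (fun T => T.PP c pt) (fun T => T.QP c qt) (ringZ c qt pt wt hint) := by
  intro T d m hr
  unfold ringZ at hr
  rw [rForce_eq] at hr
  cases hb : Nat.ble (nat_lit 1024) (hint (T.pthO d)) with
  | true =>
    rw [hb, rIf_true, ← T.pthO_rot] at hr
    have h1 := wzT_ok h hM hw _ T _ m hr
    rw [T.sum_rot (fun a => T.PP c pt a + T.QP c qt a)] at h1
    exact h1
  | false =>
    rw [hb, rIf_false, ← T.pthO_rot] at hr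
    have h1 := ringN_ok h hM _ T _ m hr
    rw [T.sum_rot (fun a => T.PP c pt a + T.QP c qt a)] at h1
    exact h1

end Pool.Agent.Lib.MP_5854e1_co
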