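import Pool.Agent.Lib.MP_5854e1_co.SigMap

/-!
# The regions of the strips with the amounts of the triangles
-/

set_option autoImplicit false

open Equiv Equiv.Perm

namespace Pool.Agent.Lib.MP_5854e1_co

open PB

namespace SMap

variable {F : Type*} (T : SMap F)

variable {gp gm : ℕ → ℕ → ℕ → ℕ → ℕ → ℕ → ℕ} {D : ℕ → ℕ → ℕ} {sp ps : ℕ → ℕ → ℕ → ℕ}
  {t rt zt tw ts : DT}

/-- The claims of the check of a region. -/
theorem regET_claims (hz : DT.all (regTH gp gm sp ps rt zt tw ts) zt = true)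
    (hg : DT.all (sgH gp gm D sp ps t rt zt tw ts) ts = true)
    (hr : DT.all (rtR zt) rt = true) {a : F} (ha : T.Tri a) (hn : T.Tri (T.N a)) {r : DR} {l : DL}
    (hE : regET gp gm sp ps rt zt tw ts (T.kx a) (T.ox a) (T.jx a) (T.kx (T.N a))
      (T.ox (T.N a)) (T.jx (T.N a)) r l = true)
    (htot : T.rtot zt a = DR.tot r)
    (hwin : T.win zt a = DL.val l (T.X trX (T.N (T.N a))) (T.X trX (T.I a))) :
    T.gzN gm a + T.gzN gm (T.bk a) + (T.rtot zt a + T.rtot zt (T.bk a)) ≤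
        T.gzN gp a + T.gzN gp (T.bk a) ∧
      (0 < T.win zt a →
        T.win zt a + T.win zt (T.bk a) + T.dl tw (T.I (T.N (T.N a))) +
          T.dl tw (T.I (T.N (T.I (T.N a)))) + (T.gzN gm a + T.gzN gm (T.bk a) +
            (T.rtot zt a + T.rtot zt (T.bk a))) + sgp (T.sgx ts (T.bk a)) + sgp (T.sgx ts a) ≤
        T.gzN gp a + T.gzN gp (T.bk a) + T.pB sp ps (T.I (T.N (T.N a))) +
          T.pB sp ps (T.I (T.N (T.I (T.N a)))) +
          (T.rz zt 1 (T.I (T.N (T.I (T.N a)))) + T.rz zt 2 (T.N a) + T.rz zt 2 (T.I (T.N a)) +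
            T.rz zt 1 (T.I (T.N (T.N a)))) + sgn (T.sgx ts (T.bk a)) + sgn (T.sgx ts a)) ∧
      (T.sgx ts (T.bk a) ≠ 0 ∨ T.sgx ts a ≠ 0 →
        T.dl tw (T.I (T.N (T.N a))) + T.dl tw (T.I (T.N (T.I (T.N a)))) +
          (T.gzN gm a + T.gzN gm (T.bk a) + (T.rtot zt a + T.rtot zt (T.bk a))) +
          sgp (T.sgx ts (T.bk a)) + sgp (T.sgx ts a) ≤
        T.gzN gp a + T.gzN gp (T.bk a) + T.pB sp ps (T.I (T.N (T.N a))) +
          T.pB sp ps (T.I (T.N (T.I (T.N a)))) +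
          (T.rz zt 1 (T.I (T.N (T.I (T.N a)))) + T.rz zt 2 (T.N a) + T.rz zt 2 (T.I (T.N a)) +
            T.rz zt 1 (T.I (T.N (T.N a)))) + sgn (T.sgx ts (T.bk a)) + sgn (T.sgx ts a)) := by
  have ha2 := T.tri_rot ha
  have ha3 := T.tri_rot ha2
  have hn2 := T.tri_rot hn
  have hn3 := T.tri_rot hn2
  have hb : T.Tri (T.bk a) := (T.tri_bk a).2 hn
  have hb1 : T.Tri (T.N (T.bk a)) := (T.tri_N_bk a).2 ha
  have hbe := T.bk_tri hn
  have hbtot := T.rtot_tri (zt := zt) hb hb1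
  unfold regET at hE
  simp only [rForce_eq] at hE
  rw [← T.rot_k a, ← T.rot_j ha, ← T.rot_o ha, T.farK_eq ha, ← T.rot_k (T.N a), ← T.rot_j hn,
    ← T.rot_o hn, T.farK_eq hn, T.t3A_jx ha, T.t3A_jx hn, ← T.rot_j ha2, ← T.rot_j hn2] at hE
  obtain ⟨h2, h3⟩ := rAnd_iff.1 hE
  have hbk : T.I (T.N (T.I (T.N (T.N a)))) = T.bk a := hbe.symm
  have hkey : zkey (T.kx (T.bk a)) (T.rs (T.bk a)) (T.rs (T.N (T.bk a))) =
      zkey (T.kx (T.I (T.N (T.I (T.N (T.N a))))))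
        (T.jx (T.I (T.N (T.I (T.N (T.N a)))))) (T.jx (T.I (T.N a))) := by
    rw [hbk, T.rs_tri hb, N_bk, T.rs_tri ha2]
  have hzb : DT.get zt (zkey (T.kx (T.I (T.N (T.I (T.N (T.N a))))))
      (T.jx (T.I (T.N (T.I (T.N (T.N a)))))) (T.jx (T.I (T.N a)))) = T.zr zt (T.bk a) := by
    unfold zr
    rw [hkey]
  have hsb : DT.get ts (zkey (T.kx (T.I (T.N (T.I (T.N (T.N a))))))
      (T.jx (T.I (T.N (T.I (T.N (T.N a)))))) (T.jx (T.I (T.N a)))) = T.sgr ts (T.bk a) := by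
    unfold sgr
    rw [hkey]
  have hsa : DT.get ts (zkey (T.kx a) (T.jx a) (T.jx (T.N a))) = T.sgr ts a := by
    unfold sgr
    rw [T.rs_tri ha, T.rs_tri hn]
  rw [hzb] at h2 h3
  rw [hsb, hsa] at h3
  have e1 : T.gzN gp a = gp (T.kx a) (T.ox a) (T.jx a) (T.kx (T.N a)) (T.ox (T.N a))
      (T.jx (T.N a)) := by
    unfold gzN
    rw [T.rs_tri ha, T.rs_tri hn]
  have e2 : T.gzN gm a = gm (T.kx a) (T.ox a) (T.jx a) (T.kx (T.N a)) (T.ox (T.N a))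
      (T.jx (T.N a)) := by
    unfold gzN
    rw [T.rs_tri ha, T.rs_tri hn]
  have e3 : T.gzN gp (T.bk a) = gp (T.kx (T.bk a)) (T.ox (T.bk a)) (T.jx (T.bk a))
      (T.kx (T.I (T.N a))) (T.ox (T.I (T.N a))) (T.jx (T.I (T.N a))) := by
    unfold gzN
    rw [T.rs_tri hb, N_bk, T.rs_tri ha2]
  have e4 : T.gzN gm (T.bk a) = gm (T.kx (T.bk a)) (T.ox (T.bk a)) (T.jx (T.bk a))
      (T.kx (T.I (T.N a))) (T.ox (T.I (T.N a))) (T.jx (T.I (T.N a))) := by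
    unfold gzN
    rw [T.rs_tri hb, N_bk, T.rs_tri ha2]
  have e5 : T.rtot zt (T.bk a) = DR.tot (DL.hd (T.zr zt (T.bk a))) := hbtot
  rw [hbk, ← e1, ← e2, ← e3, ← e4, ← htot, ← e5] at h2 h3
  have h2' : T.gzN gm a + T.gzN gm (T.bk a) + (T.rtot zt a + T.rtot zt (T.bk a)) ≤
      T.gzN gp a + T.gzN gp (T.bk a) := Nat.le_of_ble_eq_true h2
  have w2 : T.win zt (T.bk a) = DL.val (DL.tl (T.zr zt (T.bk a)))
      (T.X trX (T.N (T.I (T.N a)))) (T.X trX (T.I (T.bk a))) := by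
    rw [T.win_tl hz hb hb1, N_bk]
  have s1 := T.sgx_tl hg ha hn
  have s2 : T.sgx ts (T.bk a) = DL.val (DL.tl (T.sgr ts (T.bk a)))
      (T.X trX (T.N (T.N a))) (T.X trX (T.I (T.bk a))) := by
    rw [T.sgx_tl hg hb hb1, N_bk, I_I]
  have eN : T.N (T.I (T.N (T.N a))) = T.I (T.bk a) := by
    rw [hbe, I_I]
  have eNl : T.N (T.I (T.N (T.I (T.N a)))) = T.I a := T.N_third ha
  have r1 := T.rt_le hr 1 ha3
  have r2 := T.rt_le hr 2 hn
  have r3 := T.rt_le hr 2 ha2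
  have r4 := T.rt_le hr 1 hn2
  rw [eNl, T.rs_tri ha3] at r1
  rw [T.rs_tri hn] at r2
  rw [T.rs_tri ha2] at r3
  rw [eN, T.rs_tri hn2] at r4
  have d1 : T.dl tw (T.I (T.N (T.N a))) = DL.val (DT.get tw (dkey (T.kx (T.I (T.N (T.N a))))
      (T.jx (T.I (T.N (T.N a)))))) (T.X trX (T.N (T.N a))) (T.X trX (T.I (T.bk a))) := by
    unfold dl
    rw [T.rs_tri hn2, I_I, eN]
  have d2 : T.dl tw (T.I (T.N (T.I (T.N a)))) = DL.val (DT.get tw
      (dkey (T.kx (T.I (T.N (T.I (T.N a))))) (T.jx (T.I (T.N (T.I (T.N a)))))))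
      (T.X trX (T.N (T.I (T.N a)))) (T.X trX (T.I a)) := by
    unfold dl
    rw [T.rs_tri ha3, I_I, eNl]
  have p1 : T.pB sp ps (T.I (T.N (T.N a))) = psB sp ps (T.kx (T.I (T.N (T.N a))))
      (T.ox (T.I (T.N (T.N a)))) (T.jx (T.I (T.N (T.N a)))) := by
    unfold pB
    rw [T.rs_tri hn2]
  have p2 : T.pB sp ps (T.I (T.N (T.I (T.N a)))) = psB sp ps (T.kx (T.I (T.N (T.I (T.N a)))))
      (T.ox (T.I (T.N (T.I (T.N a))))) (T.jx (T.I (T.N (T.I (T.N a))))) := by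
    unfold pB
    rw [T.rs_tri ha3]
  refine ⟨h2', fun h0 => ?_, fun h0 => ?_⟩
  · rw [hwin] at h0
    have h6 := rgT_sound h3 (x1 := T.X trX (T.I a)) (x2 := T.X trX (T.N (T.N a)))
      (T.X trX (T.N (T.I (T.N a)))) (T.X trX (T.I (T.bk a))) h0
    rw [hwin, w2, d1, d2, p1, p2, s1, s2]
    simp only [Nat.add_eq, Nat.sub_eq] at h6
    omega
  · rw [s1, s2] at h0
    have h6 := rgT_fan h3 (x1 := T.X trX (T.I a)) (x2 := T.X trX (T.N (T.N a)))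
      (x3 := T.X trX (T.N (T.I (T.N a)))) (x4 := T.X trX (T.I (T.bk a))) h0
    rw [d1, d2, p1, p2, s1, s2]
    simp only [Nat.add_eq, Nat.sub_eq] at h6
    omega

end SMap

end Pool.Agent.Lib.MP_5854e1_co
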