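import Pool.Agent.Lib.MP_5854e1_co.RngB
import Pool.Agent.Lib.MP_5854e1_co.SigReg

/-!
# The slacks with the amounts of the triangles
-/

set_option autoImplicit false

open Equiv Equiv.Perm

namespace Pool.Agent.Lib.MP_5854e1_co

open Finset PB

/-- The checks of the tables with the amounts `ts`. -/
structure Tabs.OKT (c : Tabs) (ts : DT) : Prop extends c.OKB where
  del : ∀ k < 101, ∀ o < optN k, stXH c.D c.sp c.ps c.t c.rt ts k o = true
  reg : DT.all (regTH c.gp c.gm c.sp c.ps c.rt c.zt c.tw ts) c.zt = true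
  sgc : DT.all (sgH c.gp c.gm c.D c.sp c.ps c.t c.rt c.zt c.tw ts) ts = true

namespace SMap

variable {F : Type*} (T : SMap F) {c : Tabs} {ts : DT}

/-- The fans and the reserves of the region of the strip `N d`. -/
noncomputable def regF (c : Tabs) (d : F) : ℤ :=
  T.dlw c (T.I (T.N (T.N d))) +
      T.dlw c (T.I (T.N (T.I (T.N d)))) + (T.rtot c.zt d + T.rtot c.zt (T.bk d)) -
      (T.Pt c (T.I (T.N (T.N d))) - T.PA c (T.I (T.N (T.N d)))) -
      (T.Pt c (T.I (T.N (T.I (T.N d)))) - T.PA c (T.I (T.N (T.I (T.N d))))) -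
      T.rz c.zt 1 (T.I (T.N (T.N d))) - T.rz c.zt 2 (T.N d) -
      T.rz c.zt 1 (T.I (T.N (T.I (T.N d)))) - T.rz c.zt 2 (T.I (T.N d))

theorem regL_eq_regF (d : F) : T.regL c d = T.win c.zt d + T.win c.zt (T.bk d) + T.regF c d := by
  unfold regL regF
  ring

theorem regF_bk (d : F) : T.regF c (T.bk d) = T.regF c d := by
  unfold regF
  rw [bk_bk, N_bk, I_I]
  ring

section region

variable (h : c.OKT ts) (hM : ∀ T : SMap F, c.MapR T)

include h hM

theorem relab_regF (d : F) : T.relab.regF c d = T.regF c d := by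
  have h1 := T.relab_regL h.toOKB hM d
  rw [regL_eq_regF, regL_eq_regF] at h1
  have eb : T.relab.bk d = T.bk d := rfl
  rw [eb, T.relab_winR h.toOKB hM, T.relab_winR h.toOKB hM] at h1
  linarith

/-- The claims of the row of a window, for the smaller key. -/
theorem regT_leK {e : F} (ha : T.Tri e) (hn : T.Tri (T.N e)) (hk : T.KL e)
    (hz : T.zr c.zt e ≠ DL.nil ∨ T.sgx ts e ≠ 0) :
    ((T.rtot c.zt e : ℤ) + T.rtot c.zt (T.bk e) ≤ T.gz c.G e + T.gz c.G (T.bk e)) ∧
      (0 < T.win c.zt e → T.regL c e + (T.sg ts e + T.sg ts (T.bk e)) ≤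
        T.gz c.G e + T.gz c.G (T.bk e)) ∧
      (T.sgx ts e ≠ 0 → T.regF c e + (T.sg ts e + T.sg ts (T.bk e)) ≤
        T.gz c.G e + T.gz c.G (T.bk e)) := by
  have hcl := fun {r : DR} {l : DL} => T.regET_claims (r := r) (l := l) h.reg h.sgc h.rsv ha hn
  have key : ∃ (r : DR) (l : DL), regET c.gp c.gm c.sp c.ps c.rt c.zt c.tw ts (T.kx e) (T.ox e)
      (T.jx e) (T.kx (T.N e)) (T.ox (T.N e)) (T.jx (T.N e)) r l = true ∧
      T.rtot c.zt e = DR.tot r ∧
      T.win c.zt e = DL.val l (T.X trX (T.N (T.N e))) (T.X trX (T.I e)) := by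
    by_cases h1 : T.zr c.zt e = DL.nil
    · have h0 : T.sgx ts e ≠ 0 := hz.resolve_left fun h2 => h2 h1
      rw [T.sgx_tri ha hn] at h0
      cases hr : T.sgr ts e with
      | nil =>
        rw [hr] at h0
        exact absurd rfl h0
      | g x r l =>
        refine ⟨_, _, (T.sgH_at h.sgc ha hn hr).2.2.2 hk, ?_, ?_⟩
        · rw [T.rtot_tri ha hn]
          rfl
        · rw [T.win_tl h.reg ha hn]
    · cases hr : T.zr c.zt e with
      | nil => exact absurd hr h1
      | g x r l =>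
        refine ⟨r, l, (T.regTH_at h.reg ha hn hr).2 hk, ?_, ?_⟩
        · rw [T.rtot_tri ha hn]
          show DR.tot (DL.hd (T.zr c.zt e)) = _
          rw [hr]
          rfl
        · rw [T.win_tl h.reg ha hn, hr]
          rfl
  obtain ⟨r, l, hE, htot, hwin⟩ := key
  obtain ⟨g1, g2, g3⟩ := hcl hE htot hwin
  have h2 := (hM T).hG e ha hn
  have h3 := (hM T).hG (T.bk e) ((T.tri_bk e).2 hn) ((T.tri_N_bk e).2 ha)
  have e1 : T.Pt c (T.I (T.N (T.N e))) - T.PA c (T.I (T.N (T.N e))) =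
      T.pB c.sp c.ps (T.I (T.N (T.N e))) := T.Pt_sub_PA (T.tri_rot hn)
  have e2 : T.Pt c (T.I (T.N (T.I (T.N e)))) - T.PA c (T.I (T.N (T.I (T.N e)))) =
      T.pB c.sp c.ps (T.I (T.N (T.I (T.N e)))) := T.Pt_sub_PA (T.tri_rot (T.tri_rot ha))
  refine ⟨by omega, fun hw => ?_, fun hw => ?_⟩
  · have g2 := g2 hw
    unfold regL sg
    rw [T.dlw_tri c (T.tri_rot hn), T.dlw_tri c (T.tri_rot (T.tri_rot ha)), e1, e2]
    omega
  · have g3 := g3 (Or.inr hw)
    unfold regF sg
    rw [T.dlw_tri c (T.tri_rot hn), T.dlw_tri c (T.tri_rot (T.tri_rot ha)), e1, e2]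
    omega

/-- The claims of the row of a window. -/
theorem regT_le (e : F) :
    (0 < T.rtot c.zt e ∨ 0 < T.win c.zt e ∨ T.sgx ts e ≠ 0 →
      (T.rtot c.zt e : ℤ) + T.rtot c.zt (T.bk e) ≤ T.gz c.G e + T.gz c.G (T.bk e)) ∧
      (0 < T.win c.zt e → T.regL c e + (T.sg ts e + T.sg ts (T.bk e)) ≤
        T.gz c.G e + T.gz c.G (T.bk e)) ∧
      (T.sgx ts e ≠ 0 → T.regF c e + (T.sg ts e + T.sg ts (T.bk e)) ≤
        T.gz c.G e + T.gz c.G (T.bk e)) := by
  have key : ∀ T : SMap F, (0 < T.rtot c.zt e ∨ 0 < T.win c.zt e ∨ T.sgx ts e ≠ 0) →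
      T.Tri e ∧ T.Tri (T.N e) ∧ (T.zr c.zt e ≠ DL.nil ∨ T.sgx ts e ≠ 0) := by
    intro T h0
    have ha : T.Tri e := by
      by_contra h1
      have e1 := T.win_left (zt := c.zt) h1
      have e3 := T.sgx_left (ts := ts) h1
      have e2 : T.rtot c.zt e = 0 := by
        unfold rtot
        rw [T.rz_left h1, T.rz_left h1, T.rz_left h1]
      omega
    have hn : T.Tri (T.N e) := by
      by_contra h1
      have e1 := T.win_right (zt := c.zt) h1
      have e4 := T.sgx_right (ts := ts) h1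
      have e2 : T.rtot c.zt e = 0 := by
        have e3 : ∀ g, T.rz c.zt g e = 0 := fun g => if_neg fun h2 => h1 h2.2
        unfold rtot
        rw [e3, e3, e3]
      omega
    refine ⟨ha, hn, ?_⟩
    by_contra h1
    push Not at h1
    obtain ⟨h1, h5⟩ := h1
    have h4 : DT.get c.zt (zkey (T.kx e) (T.rs e) (T.rs (T.N e))) = DL.nil := h1
    have e1 : T.win c.zt e = 0 := by
      rw [T.win_tri ha hn, h4]
      rfl
    have e2 : T.rtot c.zt e = 0 := by
      unfold rtot
      rw [T.rz_tri ha hn, T.rz_tri ha hn, T.rz_tri ha hn, h4]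
      rfl
    omega
  by_cases h0 : 0 < T.rtot c.zt e ∨ 0 < T.win c.zt e ∨ T.sgx ts e ≠ 0
  · obtain ⟨ha, hn, hz⟩ := key T h0
    rcases T.KL_or ha hn with hk | hk
    · obtain ⟨g1, g2, g3⟩ := T.regT_leK h hM ha hn hk hz
      exact ⟨fun _ => g1, g2, g3⟩
    · have e1 := T.relab_rtot h.symZ e
      have e2 := T.relab_winR h.toOKB hM e
      have e3 := T.relab_sgx h.sgc e
      have h0' : 0 < T.relab.rtot c.zt e ∨ 0 < T.relab.win c.zt e ∨ T.relab.sgx ts e ≠ 0 := by
        rw [e1, e2, e3]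
        exact h0
      obtain ⟨ha', hn', hz'⟩ := key T.relab h0'
      have h1 := T.relab.regT_leK h hM ha' hn' hk hz'
      have eb : T.relab.bk e = T.bk e := rfl
      rw [eb, T.relab_rtot h.symZ, T.relab_rtot h.symZ, T.relab_gzG h.toOKB (hM T),
        T.relab_gzG h.toOKB (hM T), e2, T.relab_regL h.toOKB hM, T.relab_sg h.sgc,
        T.relab_sg h.sgc, e3, T.relab_regF h hM] at h1
      exact ⟨fun _ => h1.1, h1.2.1, h1.2.2⟩
  · push Not at h0
    exact ⟨fun h1 => absurd h1 (by omega), fun h1 => absurd h1 (by omega),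
      fun h1 => absurd h0.2.2 h1⟩

/-- **The amounts moved across a strip and the reserves.** -/
theorem anti_netT (d : F) :
    (T.rtot c.zt d : ℤ) + T.rtot c.zt (T.bk d) ≤ T.gz c.G d + T.gz c.G (T.bk d) := by
  rcases Nat.eq_zero_or_pos (T.rtot c.zt d) with h1 | h1
  · rcases Nat.eq_zero_or_pos (T.rtot c.zt (T.bk d)) with h2 | h2
    · have h3 := (hM T).anti d
      rw [h1, h2]
      push_cast
      linarith
    · have h3 := (T.regT_le h hM (T.bk d)).1 (Or.inl h2)
      rw [bk_bk] at h3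
      linarith
  · exact (T.regT_le h hM d).1 (Or.inl h1)

/-- **The sum over the region of a strip.** -/
theorem region_sumT (d : F) : T.regL c d + (T.sg ts d + T.sg ts (T.bk d)) ≤
    T.gz c.G d + T.gz c.G (T.bk d) := by
  rcases Nat.eq_zero_or_pos (T.win c.zt d) with h1 | h1
  · rcases Nat.eq_zero_or_pos (T.win c.zt (T.bk d)) with h2 | h2
    · by_cases h6 : T.sgx ts d = 0
      · by_cases h7 : T.sgx ts (T.bk d) = 0
        · have h3 := T.dlw_leR h.toOKB hM (T.I (T.N (T.N d))) (T.N d) fun ht =>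
            T.rot_three ((T.tri_rot_iff (T.N d)).1 ht)
          have h4 := T.dlw_leR h.toOKB hM (T.I (T.N (T.I (T.N d)))) (T.I (T.N d)) fun ht =>
            T.rot_three ((T.tri_rot_iff (T.I (T.N d))).1 ht)
          have h5 := T.anti_netT h hM d
          rw [T.sg_of_sgx h6, T.sg_of_sgx h7]
          unfold regL
          rw [h1, h2]
          push_cast
          linarith
        · have h3 := (T.regT_le h hM (T.bk d)).2.2 h7
          rw [bk_bk, regF_bk] at h3
          rw [regL_eq_regF, h1, h2]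
          push_cast
          linarith
      · have h3 := (T.regT_le h hM d).2.2 h6
        rw [regL_eq_regF, h1, h2]
        push_cast
        linarith
    · have h3 := (T.regT_le h hM (T.bk d)).2.1 h2
      rw [bk_bk, regL_bk] at h3
      linarith
  · exact (T.regT_le h hM d).2.1 h1

end region

/-! ### The slacks -/

open Classical in
/-- The slack of the closure over the triangle of the corner after `a`. -/
noncomputable def slTt (c : Tabs) (ts : DT) (a : F) : ℤ :=
  if T.Tri a then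
    T.slT c a + (T.sg ts a + T.sg ts (T.I (T.N a)) + T.sg ts (T.I (T.N (T.I (T.N a)))))
  else 0

/-- The slack of the closure over the region of the strip `N d`. -/
noncomputable def slRt (c : Tabs) (ts : DT) (d : F) : ℤ :=
  T.slR c d - (T.sg ts d + T.sg ts (T.bk d))

theorem slTt_tri {a : F} (ha : T.Tri a) : T.slTt c ts a =
    T.slT c a + (T.sg ts a + T.sg ts (T.I (T.N a)) + T.sg ts (T.I (T.N (T.I (T.N a))))) :=
  if_pos ha

theorem slTt_big {a : F} (ha : ¬T.Tri a) : T.slTt c ts a = 0 := if_neg ha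

theorem slTt_rot {a : F} (ha : T.Tri a) : T.slTt c ts (T.I (T.N a)) = T.slTt c ts a := by
  rw [T.slTt_tri ha, T.slTt_tri (T.tri_rot ha), T.rot_three ha, T.slT_rot ha]
  ring

theorem slRt_bk (d : F) : T.slRt c ts (T.bk d) = T.slRt c ts d := by
  unfold slRt
  rw [slR_bk, bk_bk]
  ring

section slack

variable (h : c.OKT ts) (hM : ∀ T : SMap F, c.MapR T)

include h hM

theorem slTt_nonneg (a : F) : 0 ≤ T.slTt c ts a := by
  by_cases ha : T.Tri a
  · rw [T.slTt_tri ha, T.slT_tri ha]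
    have h1 := T.star_sumT h.tkD (fun T a ha => (hM T).symP a ha) (fun T a ha => (hM T).symS a ha)
      h.del h.sgc h.symD h.symZ h.rsv ha
    push_cast
    linarith
  · rw [T.slTt_big ha]

theorem slRt_nonneg (d : F) : 0 ≤ T.slRt c ts d := by
  have h1 := T.region_sumT h hM d
  unfold slRt slR
  linarith

theorem relab_slTt (a : F) : T.relab.slTt c ts a = T.slTt c ts a := by
  by_cases ha : T.Tri a
  · rw [T.slTt_tri ha, T.relab.slTt_tri (show T.relab.Tri a from ha)]
    simp only [relab_N, relab_I]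
    rw [T.relab_slT h.toOKB hM, T.relab_sg h.sgc, T.relab_sg h.sgc, T.relab_sg h.sgc]
  · rw [T.slTt_big ha, T.relab.slTt_big (show ¬T.relab.Tri a from ha)]

theorem relab_slRt (d : F) : T.relab.slRt c ts d = T.slRt c ts d := by
  unfold slRt
  have eb : T.relab.bk d = T.bk d := rfl
  rw [eb, T.relab_slR h.toOKB hM, T.relab_sg h.sgc, T.relab_sg h.sgc]

end slack

/-- **The bound from the tables and the search, with amounts and slack.** -/
theorem bound_of_slackT [Finite F] (h : c.OKT ts) (hM : ∀ T : SMap F, c.MapR T)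
    (hs : ∀ (T : SMap F) (d : F),
      okey (T.kx (T.N d)) (T.ox (T.N d)) ≤
        okey (mK (T.kx (T.N d))) (mO' (T.kx (T.N d)) (T.ox (T.N d))) →
      (∀ n, T.ndt c (T.N^[n + 1] d) <
        ∑ i ∈ range (n + 1), T.gz c.V (T.N^[i] d) + T.ggt c d) →
      6 * ∑ i ∈ range (Function.minimalPeriod T.N d),
        (T.gz c.V (T.N^[i] d) - T.dlt c (T.N^[i + 1] d)) ≤
      ∑ i ∈ range (Function.minimalPeriod T.N d),
        (2 * T.slTt c ts (T.N^[i + 1] d) + 3 * T.slRt c ts (T.N^[i + 1] d))) :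
    T.Bound (1 - 24 * c.α / (12 * c.u : ℕ)) := by
  refine T.bound_of_share h.toOKB hM (fun T => T.sg ts) (fun T a => 2 * T.slTt c ts a)
    (fun T d => 3 * T.slRt c ts d) (fun T a ha => T.sg_left ha) ?_ ?_ ?_ ?_ ?_ ?_ ?_ hs
  · intro T a
    have := T.slTt_nonneg h hM a
    linarith
  · intro T a ha
    rw [T.slTt_big ha, mul_zero]
  · intro T a ha
    rw [T.slTt_rot (T.tri_rot ha), T.slTt_rot ha, T.slTt_tri ha]
    linarith
  · intro T a
    rw [T.relab_slTt h hM]
  · intro T d
    have := T.slRt_nonneg h hM d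
    linarith
  · intro T d
    rw [slRt_bk]
    unfold slRt
    linarith
  · intro T d
    rw [T.relab_slRt h hM]

end SMap

end Pool.Agent.Lib.MP_5854e1_co
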