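import Pool.Agent.Lib.MP_5854e1_co.Win

/-!
# The rotations of the octahedron

The 24 rotations of the octahedron act simply transitively on the 24 labels of rim darts. `nrm p` is
the rotation which takes the label `p` to `(1, 3)`.
-/

set_option autoImplicit false

open Equiv Equiv.Perm

namespace Pool.Agent.Lib.MP_5854e1_co

open Model24 (Kind)

/-- The table of the rotations: three bits for the image of `x` under the rotation of `p`. -/
def rotTab : ℕ := 4813417830693805310153146490622240841724171137725863299607207854266674808987665688975958029108195445064199743718688919474648715126574958496760012823647811182502609885435390678436935709854470677802069443054778796148792521216105578962312849176436984132636547531150230058551375040672300615357052108021819254687368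

/-- The rotation which takes `p` to `(1, 3)`, as a function. -/
def rotF (p : Lb) (x : Fin 7) : Fin 7 :=
  Fin.ofNat 7 (rotTab >>> (21 * (7 * p.1.val + p.2.val) + 3 * x.val) % 8)

/-- The image of a label under the rotation of `p`. -/
def rotL (p q : Lb) : Lb := (rotF p q.1, rotF p q.2)

/-- The label of the inverse rotation. -/
def invL (p : Lb) : Lb := rotL p (1, 3)

theorem rotF_inv : ∀ (p : Lb) (x : Fin 7), rotF (invL p) (rotF p x) = x ∧
    rotF p (rotF (invL p) x) = x := by
  decide +kernel

/-- The rotation which takes `p` to `(1, 3)`. -/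
def nrm (p : Lb) : Perm (Fin 7) where
  toFun := rotF p
  invFun := rotF (invL p)
  left_inv x := (rotF_inv p x).1
  right_inv x := (rotF_inv p x).2

theorem nrm_apply (p : Lb) (x : Fin 7) : nrm p x = rotF p x := rfl

theorem isLabAut_nrm (p : Lb) : IsLabAut (nrm p) where
  zero := by
    revert p
    decide +kernel
  adj := by
    revert p
    decide +kernel

theorem nrm_inv (p : Lb) : (nrm p)⁻¹ = nrm (invL p) := by
  ext x
  rfl

/-- A label is valid. -/
def okL (p : Lb) : Bool := !(p.1.val == 0) && adjL p.1 p.2

theorem rotL_self : ∀ p : Lb, okL p = true → rotL p p = (1, 3) := by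
  decide +kernel

theorem okL_rotL : ∀ p q : Lb, okL q = true → okL (rotL p q) = true := by
  decide +kernel

theorem rot_mul_aux : ∀ p : Lb, okL p = true → ∀ q : Lb, okL q = true →
    ∀ x : Fin 7, rotF (rotL p q) (rotF p x) = rotF q x := by
  decide +kernel

/-- The cocycle rule. -/
theorem nrm_mul {p q : Lb} (hp : okL p = true) (hq : okL q = true) :
    nrm (rotL p q) * nrm p = nrm q := by
  ext x
  exact congrArg Fin.val (rot_mul_aux p hp q hq x)

/-- The label of the product: `nrm (mulL p q) = nrm q * nrm p`. -/
def mulL (p q : Lb) : Lb := rotL (invL p) q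

theorem okL_invL : ∀ p : Lb, okL p = true → okL (invL p) = true := by
  decide +kernel

theorem okL_mulL {p q : Lb} (hq : okL q = true) : okL (mulL p q) = true :=
  okL_rotL _ _ hq

theorem rotL_mulL : ∀ p q : Lb, rotL p (mulL p q) = q := by
  intro p q
  exact Prod.ext (rotF_inv p q.1).2 (rotF_inv p q.2).2

theorem mulL_rotL : ∀ p q : Lb, mulL p (rotL p q) = q := by
  intro p q
  exact Prod.ext (rotF_inv p q.1).1 (rotF_inv p q.2).1

theorem nrm_mulL {p q : Lb} (hp : okL p = true) (hq : okL q = true) :
    nrm (mulL p q) = nrm q * nrm p := by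
  have h := nrm_mul hp (okL_mulL (p := p) hq)
  rw [rotL_mulL] at h
  exact h.symm

/-! ### Relabelled strips -/

theorem relS_mul (g h : Perm (Fin 7)) (s : Strip) : relS (g * h) s = relS g (relS h s) := by
  unfold relS
  simp [List.map_map]

theorem relS_one (s : Strip) : relS 1 s = s := by
  unfold relS
  simp

theorem revAux_rel (g : Perm (Fin 7)) : ∀ (l : List ((Kind × Kind) × Lb)) (p : Lb)
    (acc : List ((Kind × Kind) × Lb)),
    revAux (g p.1, g p.2) (l.map fun q => (q.1, (g q.2.1, g q.2.2)))
      (acc.map fun q => (q.1, (g q.2.1, g q.2.2))) = relS g (revAux p l acc) := by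
  intro l
  induction l with
  | nil => intro p acc; rfl
  | cons q l ih => intro p acc; exact ih q.2 (((q.1.2, q.1.1), p.swap) :: acc)

theorem revStrip_relS (g : Perm (Fin 7)) (s : Strip) :
    revStrip (relS g s) = relS g (revStrip s) := revAux_rel g s.2 s.1 []

/-- The label in a frame. -/
def relLb (g : Perm (Fin 7)) (p : Lb) : Lb := (g p.1, g p.2)

theorem relS_fst (g : Perm (Fin 7)) (s : Strip) : (relS g s).1 = relLb g s.1 := rfl

theorem relLb_nrm (p q : Lb) : relLb (nrm p) q = rotL p q := rfl

theorem relLb_mul (g h : Perm (Fin 7)) (p : Lb) : relLb (g * h) p = relLb g (relLb h p) := rfl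

end Pool.Agent.Lib.MP_5854e1_co
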