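import Pool.Agent.Lib.MP_5854e1_co.CertRotK

/-!
Rotations which occur in every planar cover of `K_{1,2,2,2}`.
-/

set_option autoImplicit false

open Equiv Equiv.Perm

namespace Pool.Agent.Lib.MP_5854e1_co

theorem alR_false {u : Fin 7} {l : List (Fin 7)} (h : alR u l = false) :
    u = 1 ∧ ∃ x y l', l = x :: y :: l' ∧
      (x, y) ∈ ([(3, 6), (6, 3), (4, 5), (5, 4)] : List (Fin 7 × Fin 7)) := by
  unfold alR at h
  rw [Bool.or_eq_false_iff, decide_eq_false_iff_not, not_not] at h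
  obtain ⟨h1, h2⟩ := h
  refine ⟨h1, ?_⟩
  match l, h2 with
  | x :: y :: l', h2 =>
    refine ⟨x, y, l', rfl, ?_⟩
    by_contra h3
    have h4 : decide ((x, y) ∉ ([(3, 6), (6, 3), (4, 5), (5, 4)] : List (Fin 7 × Fin 7))) =
        true := decide_eq_true h3
    have h5 : decide ((x, y) ∉ ([(3, 6), (6, 3), (4, 5), (5, 4)] : List (Fin 7 × Fin 7))) =
        false := h2
    rw [h4] at h5
    exact absurd h5 (by decide)

theorem rotation_base {W : Type*} [Finite W] [Nonempty W] (H : SimpleGraph W) (φ : W → Fin 7)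
    (hcov : IsCover H K1222 φ) (rot : Equiv.Perm H.Dart) (hrot : IsPlanarRotation H rot) :
    ∃ d : H.Dart, φ d.fst = 1 ∧ φ d.snd = 0 ∧
      (φ (rot d).snd, φ (rot (rot d)).snd) ∈
        ([(3, 6), (6, 3), (4, 5), (5, 4)] : List (Fin 7 × Fin 7)) := by
  obtain ⟨d, l, h1, -, h2, h3⟩ := exists_rotation KR_cert K1222 alR witR (fun _ => 0) K1222S
    K1222el KR_ok (by decide) 0 (by decide) (fun u => if u = 0 then 1 else 0) (by decide)
    (by decide) H φ hcov rot hrot
  obtain ⟨h4, x, y, l', h5, h6⟩ := alR_false h3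
  obtain ⟨d1, l1, rfl, h7, h8⟩ := List.map_eq_cons_iff.1 h5
  obtain ⟨d2, l2, rfl, h9, -⟩ := List.map_eq_cons_iff.1 h8
  have h10 := h1.seg_cons
  have h11 : d1 = rot d := h10.1
  have h12 : d2 = rot (rot d) := h10.2.1
  refine ⟨d, h4, h2, ?_⟩
  rw [← h12, ← h11, h7, h9]
  exact h6

/-- the automorphism of `K_{1,2,2,2}` which sends `r, a, b` to `1, 3, 6` -/
def sg (r a b x : Fin 7) : Fin 7 :=
  if x = 0 then 0 else if x = r then 1 else if x = opp r then 2 else if x = a then 3 else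
    if x = opp a then 4 else if x = b then 6 else 5

/-- the properties of `sg` -/
def SgOK (r a b : Fin 7) : Prop :=
  (∀ x y, K1222.Adj x y ↔ K1222.Adj (sg r a b x) (sg r a b y)) ∧
    (∀ x y, sg r a b x = sg r a b y → x = y) ∧ (∀ y, ∃ x, sg r a b x = y) ∧
    (∀ x, sg r a b x = 1 → x = r) ∧ (∀ x, sg r a b x = 0 → x = 0) ∧
    ∀ x y, (sg r a b x, sg r a b y) ∈
      ([(3, 6), (6, 3), (4, 5), (5, 4)] : List (Fin 7 × Fin 7)) →
      s(x, y) = s(a, b) ∨ s(x, y) = s(opp a, opp b)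

instance (r a b : Fin 7) : Decidable (SgOK r a b) := by
  unfold SgOK
  infer_instance

theorem sg_ok : ∀ r a b : Fin 7, r ≠ 0 → a ≠ 0 → b ≠ 0 → K1222.Adj r a → K1222.Adj r b →
    K1222.Adj a b → SgOK r a b := by
  decide +kernel

theorem IsCover.comp_aut {W U : Type*} {H : SimpleGraph W} {G : SimpleGraph U} {φ : W → U}
    (hcov : IsCover H G φ) (f : U → U) (h1 : ∀ x y, G.Adj x y ↔ G.Adj (f x) (f y))
    (h2 : ∀ x y, f x = f y → x = y) (h3 : ∀ y, ∃ x, f x = y) : IsCover H G (f ∘ φ) := by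
  intro v
  refine ⟨fun w hw => ?_, fun w hw w' hw' h => ?_, fun y hy => ?_⟩
  · exact (h1 _ _).1 ((hcov v).mapsTo hw)
  · exact (hcov v).injOn hw hw' (h2 _ _ h)
  · obtain ⟨x, rfl⟩ := h3 y
    obtain ⟨w, hw, hwx⟩ := (hcov v).surjOn ((h1 (φ v) x).2 hy)
    exact ⟨w, hw, by rw [Function.comp_apply, hwx]⟩

/-- In every planar rotation system of a finite cover of `K_{1,2,2,2}` and for every triangle
`r a b` of the octahedron, there is a vertex over `r` such that the two neighbours which follow the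
neighbour over the apex are over `a` and `b`, or over the vertices opposite to `a` and `b`. -/
theorem rotation_class {W : Type*} [Finite W] [Nonempty W] (H : SimpleGraph W) (φ : W → Fin 7)
    (hcov : IsCover H K1222 φ) (rot : Equiv.Perm H.Dart) (hrot : IsPlanarRotation H rot)
    (r a b : Fin 7) (hr : r ≠ 0) (ha : a ≠ 0) (hb : b ≠ 0) (hra : K1222.Adj r a)
    (hrb : K1222.Adj r b) (hab : K1222.Adj a b) :
    ∃ d : H.Dart, φ d.fst = r ∧ φ d.snd = 0 ∧
      (s(φ (rot d).snd, φ (rot (rot d)).snd) = s(a, b) ∨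
        s(φ (rot d).snd, φ (rot (rot d)).snd) = s(opp a, opp b)) := by
  obtain ⟨h1, h2, h3, h4, h5, h6⟩ := sg_ok r a b hr ha hb hra hrb hab
  obtain ⟨d, e1, e2, e3⟩ := rotation_base H (sg r a b ∘ φ) (hcov.comp_aut _ h1 h2 h3) rot hrot
  exact ⟨d, h4 _ e1, h5 _ e2, h6 _ _ e3⟩

end Pool.Agent.Lib.MP_5854e1_co
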