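/-!
# The types of the rows and of the index

No imports: the data modules need only these types.
-/

set_option autoImplicit false

namespace Pool.Agent.Lib.MP_5854e1_co

noncomputable section

/-- A row, a trie of entries. An entry consists of the index `o` of the option, the next shape `k`
and the data `b`. `hit` is an entry at this place, `one` an entry behind the arc `c`, and `tok` leads
to the entries behind the arc `c`; `q` is the test. -/
inductive Rw (α : Type) where
  | nil : Rw α
  | hit (o k q : Nat) (b : α) (rest : Rw α) : Rw α
  | one (c o k q : Nat) (b : α) (rest : Rw α) : Rw α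
  | tok (c q : Nat) (sub rest : Rw α) : Rw α

/-- A binary tree, indexed by the binary digits from the lowest one on. -/
inductive Ix (α : Type) where
  | leaf (a : α) : Ix α
  | node (l r : Ix α) : Ix α

/-- The leaf of index `i`. -/
def Ix.get {α : Type} (t : Ix α) : Nat → α :=
  Ix.rec (motive := fun _ => Nat → α) (fun a _ => a)
    (fun _ _ ihl ihr i => Bool.rec (motive := fun _ => α) (ihr (Nat.div i (nat_lit 2)))
      (ihl (Nat.div i (nat_lit 2))) (Nat.beq (Nat.mod i (nat_lit 2)) (nat_lit 0))) t

end

end Pool.Agent.Lib.MP_5854e1_co
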