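import Pool.Agent.Lib.MP_5854e1_co.DartSound
import Pool.Agent.Lib.MP_5854e1_co.RwD

/-!
# Rows

The next options of an own pair as a trie along the arcs of the automaton of the scanner, with tests
that prune whole branches.
-/

set_option autoImplicit false

namespace Pool.Agent.Lib.MP_5854e1_co

noncomputable section

/-! ### Sorted arcs -/

namespace Nd

/-- The arcs are sorted, in all nodes below. -/
def Ord (n : Nd) : Prop :=
  Nd.rec (motive := fun _ => Prop) (fun _ _ => True)
    (fun c _ rest ihc ihr => (∀ c' m, rest.next c' = some m → c < c') ∧ ihc ∧ ihr) n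

/-- The first arc, if any, has a code larger than `c`. -/
def hdLt (c : ℕ) (n : Nd) : Bool :=
  Nd.rec (motive := fun _ => Bool) (fun _ _ => true) (fun c' _ _ _ _ => Nat.ble (Nat.succ c) c') n

/-- The arcs are sorted, in all nodes below: the check. -/
def ordB (n : Nd) : Bool :=
  Nd.rec (motive := fun _ => Bool) (fun _ _ => true)
    (fun c _ rest ihc ihr => rAnd ihc (rAnd ihr (hdLt c rest))) n

theorem next_arc (c : ℕ) (ch rest : Nd) (c' : ℕ) :
    (Nd.arc c ch rest).next c' = rIf (Nat.beq c c') (some ch) (rest.next c') := rfl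

theorem next_fin (code mask c : ℕ) : (Nd.fin code mask).next c = none := rfl

theorem next_arc_some {c : ℕ} {ch rest : Nd} {c' : ℕ} {m : Nd}
    (h : (Nd.arc c ch rest).next c' = some m) : (c' = c ∧ m = ch) ∨ rest.next c' = some m := by
  rw [next_arc] at h
  cases hb : Nat.beq c c' with
  | true =>
    rw [hb] at h
    exact Or.inl ⟨(Nat.eq_of_beq_eq_true hb).symm, (Option.some.inj h).symm⟩
  | false =>
    rw [hb] at h
    exact Or.inr h

theorem ord_of_ordB : ∀ n : Nd, n.ordB = true → n.Ord := by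
  intro n
  induction n with
  | fin _ _ => intro _; trivial
  | arc c child rest ihc ihr =>
    intro h
    have h1 : rAnd child.ordB (rAnd rest.ordB (rest.hdLt c)) = true := h
    obtain ⟨h2, h3⟩ := rAnd_iff.1 h1
    obtain ⟨h4, h5⟩ := rAnd_iff.1 h3
    refine ⟨?_, ihc h2, ihr h4⟩
    have h6 := ihr h4
    intro c' m hm
    cases rest with
    | fin _ _ => rw [next_fin] at hm; exact absurd hm (by simp)
    | arc c1 ch1 r1 =>
      have h7 : c < c1 := Nat.le_of_ble_eq_true h5
      rcases next_arc_some hm with ⟨rfl, -⟩ | h8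
      · exact h7
      · exact h7.trans (h6.1 _ _ h8)

theorem Ord.child {n m : Nd} (h : n.Ord) {c : ℕ} (hm : n.next c = some m) : m.Ord := by
  induction n with
  | fin _ _ => rw [next_fin] at hm; exact absurd hm (by simp)
  | arc c1 ch1 r1 _ ihr =>
    rcases next_arc_some hm with ⟨-, rfl⟩ | h8
    · exact h.2.1
    · exact ihr h.2.2 h8

theorem Ord.run {m : Nd} : ∀ {l : List ℕ} {n : Nd}, n.Ord → n.run l = some m → m.Ord := by
  intro l
  induction l with
  | nil =>
    intro n h hm
    obtain rfl := Option.some.inj hm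
    exact h
  | cons c l ih =>
    intro n h hm
    rw [run_cons] at hm
    cases h1 : n.next c with
    | none => rw [h1] at hm; exact absurd hm (by simp)
    | some m1 =>
      rw [h1] at hm
      exact ih (h.child h1) hm

/-- The pointer `(c', ch, rs)` knows all arcs of `n` with codes at least `L - 1`. -/
def Inv (L : ℕ) (n : Nd) (c' : ℕ) (ch rs : Nd) : Prop :=
  ∀ c m, L ≤ c + 1 → n.next c = some m → (c = c' ∧ m = ch) ∨ (c' < c ∧ rs.next c = some m)

theorem Inv.mono {L L' : ℕ} {n : Nd} {c' : ℕ} {ch rs : Nd} (h : Inv L n c' ch rs) (hL : L ≤ L') :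
    Inv L' n c' ch rs := fun c m hc => h c m (hL.trans hc)

/-- Go to the first arc with a code at least `c`; the result is `true` if there is none. -/
def seek (c : ℕ) (g : ℕ → Nd → Nd → Bool) (n : Nd) : Bool :=
  Nd.rec (motive := fun _ => Bool) (fun _ _ => true)
    (fun c' ch rest _ ih => Bool.rec (motive := fun _ => Bool) ih (g c' ch rest) (Nat.ble c c')) n

/-- Start with the first arc. -/
def opn (g : ℕ → Nd → Nd → Bool) (n : Nd) : Bool :=
  Nd.rec (motive := fun _ => Bool) (fun _ _ => g (nat_lit 1000) n n)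
    (fun c' ch rest _ _ => g c' ch rest) n

theorem opn_sound {g : ℕ → Nd → Nd → Bool} {n : Nd} (ho : n.Ord) (h : opn g n = true) :
    ∃ c' ch rs, g c' ch rs = true ∧ rs.Ord ∧ Inv 0 n c' ch rs := by
  cases n with
  | fin code mask =>
    exact ⟨1000, _, _, h, ho, fun c m _ hm => absurd hm (by simp [next_fin])⟩
  | arc c' ch rest =>
    refine ⟨c', ch, rest, h, ho.2.2, fun c m _ hm => ?_⟩
    rcases next_arc_some hm with h1 | h1
    · exact Or.inl h1
    · exact Or.inr ⟨ho.1 _ _ h1, h1⟩

theorem seek_sound {g : ℕ → Nd → Nd → Bool} {c : ℕ} {n : Nd} (ho : n.Ord)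
    (h : seek c g n = true) {c1 : ℕ} {m1 : Nd} (h1 : n.next c1 = some m1) (hc : c ≤ c1) :
    ∃ c' ch rs, g c' ch rs = true ∧ rs.Ord ∧ c ≤ c' ∧ Inv (c + 1) n c' ch rs := by
  induction n with
  | fin code mask => rw [next_fin] at h1; exact absurd h1 (by simp)
  | arc c' ch rest _ ih =>
    have h2 : (Bool.rec (motive := fun _ => Bool) (seek c g rest) (g c' ch rest)
      (Nat.ble c c')) = true := h
    cases hb : Nat.ble c c' with
    | true =>
      rw [hb] at h2
      refine ⟨c', ch, rest, h2, ho.2.2, Nat.le_of_ble_eq_true hb, fun c3 m3 _ hm => ?_⟩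
      rcases next_arc_some hm with h4 | h4
      · exact Or.inl h4
      · exact Or.inr ⟨ho.1 _ _ h4, h4⟩
    | false =>
      rw [hb] at h2
      have hlt : c' < c := by
        by_contra hcon
        rw [Nat.ble_eq_true_of_le (not_lt.1 hcon)] at hb
        exact absurd hb (by simp)
      have h3 : rest.next c1 = some m1 := by
        rcases next_arc_some h1 with ⟨rfl, -⟩ | h4
        · omega
        · exact h4
      obtain ⟨c2, ch2, rs2, e1, e2, e3, e4⟩ := ih ho.2.2 h2 h3
      refine ⟨c2, ch2, rs2, e1, e2, e3, fun c3 m3 hc3 hm => e4 c3 m3 hc3 ?_⟩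
      rcases next_arc_some hm with ⟨rfl, -⟩ | h4
      · omega
      · exact h4

end Nd

/-- The arcs of all nodes of the automaton are sorted. -/
theorem ord_rootN : rootN.Ord := Nd.ord_of_ordB _ (by decide +kernel)

/-! ### Rows -/

namespace Rw

variable {α : Type}

/-- The entry `(o, k, b)` is found along the arcs `p` with the tests `qs`. -/
inductive At : Rw α → List ℕ → ℕ → ℕ → α → List ℕ → Prop
  | hit (o k q : ℕ) (b : α) (rest : Rw α) : At (.hit o k q b rest) [] o k b [q]
  | one (c o k q : ℕ) (b : α) (rest : Rw α) : At (.one c o k q b rest) [c] o k b [q]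
  | tok (c q : ℕ) (sub rest : Rw α) {p : List ℕ} {o k : ℕ} {b : α} {qs : List ℕ}
      (h : At sub p o k b qs) : At (.tok c q sub rest) (c :: p) o k b (q :: qs)
  | hit_rest (o' k' q' : ℕ) (b' : α) (rest : Rw α) {p : List ℕ} {o k : ℕ} {b : α} {qs : List ℕ}
      (h : At rest p o k b qs) : At (.hit o' k' q' b' rest) p o k b qs
  | one_rest (c' o' k' q' : ℕ) (b' : α) (rest : Rw α) {p : List ℕ} {o k : ℕ} {b : α}
      {qs : List ℕ} (h : At rest p o k b qs) : At (.one c' o' k' q' b' rest) p o k b qs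
  | tok_rest (c q : ℕ) (sub rest : Rw α) {p : List ℕ} {o k : ℕ} {b : α} {qs : List ℕ}
      (h : At rest p o k b qs) : At (.tok c q sub rest) p o k b qs

/-- Entries at this place come first, then the others by increasing arcs. -/
def wf (r : Rw α) : ℕ → Bool :=
  Rw.rec (motive := fun _ => ℕ → Bool) (fun _ => true)
    (fun _ _ _ _ _ ih L => rAnd (Nat.beq L (nat_lit 0)) (ih L))
    (fun c _ _ _ _ _ ih L => rAnd (Nat.ble L (Nat.succ c)) (ih (Nat.succ c)))
    (fun c _ _ _ ihs ihr L => rAnd (Nat.ble L (Nat.succ c))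
      (rAnd (ihs (nat_lit 0)) (ihr (Nat.succ c)))) r

/-- The body of an entry behind the arc `c` of the current arc `c' ≥ c`. -/
def bd (c q : ℕ) (t : ℕ → Bool) (g : Nd → Bool) (ih : ℕ → Nd → Nd → Bool) (c' : ℕ) (ch rs : Nd) :
    Bool :=
  Bool.rec (motive := fun _ => Bool) (ih c' ch rs)
    (Bool.rec (motive := fun _ => Bool)
      (Bool.rec (motive := fun _ => Bool) false (ih c' ch rs) (g ch)) (ih c' ch rs) (t q))
    (Nat.beq c' c)

/-- Advance to the arc `c`. -/
def adv (c : ℕ) (g : ℕ → Nd → Nd → Bool) (c' : ℕ) (ch rs : Nd) : Bool :=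
  Bool.rec (motive := fun _ => Bool) (Nd.seek c g rs) (g c' ch rs) (Nat.ble c c')

/-- The walk through a row. The node `n` of the automaton, and its current arc `(c', ch, rs)`; the
test `t q = true` prunes. -/
def walk (t : ℕ → Bool) (f : ℕ → ℕ → α → Nd → Bool) (r : Rw α) : Nd → ℕ → Nd → Nd → Bool :=
  Rw.rec (motive := fun _ => Nd → ℕ → Nd → Nd → Bool) (fun _ _ _ _ => true)
    (fun o k q b _ ih n c' ch rs => Bool.rec (motive := fun _ => Bool)
      (Bool.rec (motive := fun _ => Bool) false (ih n c' ch rs) (f o k b n))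
      (ih n c' ch rs) (t q))
    (fun c o k q b _ ih n => adv c (bd c q t (f o k b) (ih n)))
    (fun c q _ _ ihs ihr n => adv c (bd c q t (fun m => Nd.opn (ihs m) m) (ihr n))) r

/-- The walk through a row at the node `n`. -/
def go (t : ℕ → Bool) (f : ℕ → ℕ → α → Nd → Bool) (r : Rw α) (n : Nd) : Bool :=
  Nd.opn (walk t f r n) n

theorem At.head {r : Rw α} {p : List ℕ} {o k : ℕ} {b : α} {qs : List ℕ}
    (h : At r p o k b qs) : ∀ {L : ℕ}, 0 < L → r.wf L = true →
    ∃ c p', p = c :: p' ∧ L ≤ c + 1 := by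
  induction h with
  | hit o k q b rest =>
    intro L hL hw
    have h1 := Nat.eq_of_beq_eq_true (rAnd_iff.1 (show rAnd (Nat.beq L 0) (rest.wf L) = true from hw)).1
    omega
  | one c o k q b rest =>
    intro L hL hw
    exact ⟨c, [], rfl, Nat.le_of_ble_eq_true
      (rAnd_iff.1 (show rAnd (Nat.ble L (c + 1)) (rest.wf (c + 1)) = true from hw)).1⟩
  | tok c q sub rest _ _ =>
    intro L hL hw
    exact ⟨c, _, rfl, Nat.le_of_ble_eq_true
      (rAnd_iff.1 (show rAnd (Nat.ble L (c + 1)) (rAnd (sub.wf 0) (rest.wf (c + 1))) = true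
        from hw)).1⟩
  | hit_rest o' k' q' b' rest _ ih =>
    intro L hL hw
    exact ih hL (rAnd_iff.1 (show rAnd (Nat.beq L 0) (rest.wf L) = true from hw)).2
  | one_rest c' o' k' q' b' rest _ ih =>
    intro L hL hw
    obtain ⟨h1, h2⟩ := rAnd_iff.1 (show rAnd (Nat.ble L (c' + 1)) (rest.wf (c' + 1)) = true from hw)
    obtain ⟨c, p', h3, h4⟩ := ih (Nat.succ_pos _) h2
    exact ⟨c, p', h3, (Nat.le_of_ble_eq_true h1).trans h4⟩
  | tok_rest c' q sub rest _ ih =>
    intro L hL hw
    obtain ⟨h1, h2⟩ := rAnd_iff.1 (show rAnd (Nat.ble L (c' + 1)) (rAnd (sub.wf 0)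
      (rest.wf (c' + 1))) = true from hw)
    obtain ⟨c, p', h3, h4⟩ := ih (Nat.succ_pos _) (rAnd_iff.1 h2).2
    exact ⟨c, p', h3, (Nat.le_of_ble_eq_true h1).trans h4⟩

theorem adv_sound {c : ℕ} {g : ℕ → Nd → Nd → Bool} {n : Nd} {L c' : ℕ} {ch rs : Nd}
    (hi : Nd.Inv L n c' ch rs) (ho : rs.Ord) (hL : L ≤ c + 1) (h : adv c g c' ch rs = true)
    {c1 : ℕ} {m1 : Nd} (h1 : n.next c1 = some m1) (hc : c ≤ c1) :
    ∃ c2 ch2 rs2, g c2 ch2 rs2 = true ∧ rs2.Ord ∧ c ≤ c2 ∧ Nd.Inv (c + 1) n c2 ch2 rs2 := by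
  have h2 : (Bool.rec (motive := fun _ => Bool) (Nd.seek c g rs) (g c' ch rs)
    (Nat.ble c c')) = true := h
  cases hb : Nat.ble c c' with
  | true =>
    rw [hb] at h2
    exact ⟨c', ch, rs, h2, ho, Nat.le_of_ble_eq_true hb, hi.mono hL⟩
  | false =>
    rw [hb] at h2
    have hlt : c' < c := by
      by_contra hcon
      rw [Nat.ble_eq_true_of_le (not_lt.1 hcon)] at hb
      exact absurd hb (by simp)
    have key : ∀ c3 m3, c + 1 ≤ c3 + 1 → n.next c3 = some m3 → rs.next c3 = some m3 := by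
      intro c3 m3 h3 h4
      rcases hi c3 m3 (hL.trans h3) h4 with ⟨rfl, -⟩ | ⟨-, h5⟩
      · omega
      · exact h5
    obtain ⟨c2, ch2, rs2, e1, e2, e3, e4⟩ := Nd.seek_sound ho h2 (key c1 m1 (by omega) h1) hc
    exact ⟨c2, ch2, rs2, e1, e2, e3, fun c3 m3 h3 h4 => e4 c3 m3 h3 (key c3 m3 h3 h4)⟩

theorem bd_rest {c q : ℕ} {t : ℕ → Bool} {g : Nd → Bool} {ih : ℕ → Nd → Nd → Bool} {c' : ℕ}
    {ch rs : Nd} (h : bd c q t g ih c' ch rs = true) : ih c' ch rs = true := by
  have h2 : (Bool.rec (motive := fun _ => Bool) (ih c' ch rs)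
    (Bool.rec (motive := fun _ => Bool)
      (Bool.rec (motive := fun _ => Bool) false (ih c' ch rs) (g ch)) (ih c' ch rs) (t q))
    (Nat.beq c' c)) = true := h
  cases hb : Nat.beq c' c with
  | false => rw [hb] at h2; exact h2
  | true =>
    rw [hb] at h2
    cases ht : t q with
    | true => rw [ht] at h2; exact h2
    | false =>
      rw [ht] at h2
      cases hg : g ch with
      | false => rw [hg] at h2; exact absurd h2 Bool.false_ne_true
      | true => rw [hg] at h2; exact h2

theorem bd_hit {c q : ℕ} {t : ℕ → Bool} {g : Nd → Bool} {ih : ℕ → Nd → Nd → Bool}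
    {ch rs : Nd} (h : bd c q t g ih c ch rs = true) (ht : t q = false) : g ch = true := by
  have h2 : (Bool.rec (motive := fun _ => Bool) (ih c ch rs)
    (Bool.rec (motive := fun _ => Bool)
      (Bool.rec (motive := fun _ => Bool) false (ih c ch rs) (g ch)) (ih c ch rs) (t q))
    (Nat.beq c c)) = true := h
  rw [Nat.beq_refl, ht] at h2
  cases hg : g ch with
  | false => rw [hg] at h2; exact absurd h2 Bool.false_ne_true
  | true => rfl

/-- **The walk reaches every entry whose tests do not prune.** -/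
theorem walk_sound {t : ℕ → Bool} {f : ℕ → ℕ → α → Nd → Bool} : ∀ {r : Rw α} {L : ℕ} {n : Nd}
    {c' : ℕ} {ch rs : Nd}, r.wf L = true → n.Ord → rs.Ord → Nd.Inv L n c' ch rs →
    walk t f r n c' ch rs = true → ∀ {p : List ℕ} {o k : ℕ} {b : α} {qs : List ℕ} {m : Nd},
    At r p o k b qs → (∀ q ∈ qs, t q = false) → n.run p = some m → f o k b m = true := by
  intro r
  induction r with
  | nil =>
    intro L n c' ch rs _ _ _ _ _ p o k b qs m h
    cases h
  | hit o1 k1 q1 b1 rest ih =>
    intro L n c' ch rs hw hn hr hi h p o k b qs m hat hq hm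
    obtain ⟨hw1, hw2⟩ := rAnd_iff.1 (show rAnd (Nat.beq L 0) (rest.wf L) = true from hw)
    have h1 : (Bool.rec (motive := fun _ => Bool)
      (Bool.rec (motive := fun _ => Bool) false (walk t f rest n c' ch rs) (f o1 k1 b1 n))
      (walk t f rest n c' ch rs) (t q1)) = true := h
    cases hat with
    | hit =>
      obtain rfl := Option.some.inj hm
      rw [hq q1 List.mem_cons_self] at h1
      cases hf : f o1 k1 b1 n with
      | false => rw [hf] at h1; exact absurd h1 Bool.false_ne_true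
      | true => rfl
    | hit_rest _ _ _ _ _ hat =>
      refine ih hw2 hn hr hi ?_ hat hq hm
      cases ht : t q1 with
      | true => rw [ht] at h1; exact h1
      | false =>
        rw [ht] at h1
        cases hf : f o1 k1 b1 n with
        | false => rw [hf] at h1; exact absurd h1 Bool.false_ne_true
        | true => rw [hf] at h1; exact h1
  | one c o1 k1 q1 b1 rest ih =>
    intro L n c' ch rs hw hn hr hi h p o k b qs m hat hq hm
    obtain ⟨hw1, hw2⟩ := rAnd_iff.1 (show rAnd (Nat.ble L (c + 1)) (rest.wf (c + 1)) = true from hw)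
    have hL : L ≤ c + 1 := Nat.le_of_ble_eq_true hw1
    have h1 : adv c (bd c q1 t (f o1 k1 b1) (walk t f rest n)) c' ch rs = true := h
    cases hat with
    | one =>
      rw [Nd.run_cons] at hm
      cases hx : n.next c with
      | none => rw [hx] at hm; exact absurd hm (by simp)
      | some m1 =>
        rw [hx] at hm
        obtain rfl : m1 = m := Option.some.inj hm
        obtain ⟨c2, ch2, rs2, e1, e2, e3, e4⟩ := adv_sound hi hr hL h1 hx le_rfl
        rcases e4 c m1 le_rfl hx with ⟨rfl, rfl⟩ | ⟨h5, -⟩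
        · exact bd_hit e1 (hq q1 List.mem_cons_self)
        · omega
    | one_rest _ _ _ _ _ _ hat =>
      obtain ⟨c1, p', rfl, h3⟩ := hat.head (Nat.succ_pos c) hw2
      have hm' := hm
      rw [Nd.run_cons] at hm'
      cases hx : n.next c1 with
      | none => rw [hx] at hm'; exact absurd hm' (by simp)
      | some m1 =>
        obtain ⟨c2, ch2, rs2, e1, e2, e3, e4⟩ := adv_sound hi hr hL h1 hx (by omega)
        exact ih hw2 hn e2 e4 (bd_rest e1) hat hq hm
  | tok c q1 sub rest ihs ihr =>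
    intro L n c' ch rs hw hn hr hi h p o k b qs m hat hq hm
    obtain ⟨hw1, hw2⟩ := rAnd_iff.1 (show rAnd (Nat.ble L (c + 1)) (rAnd (sub.wf 0)
      (rest.wf (c + 1))) = true from hw)
    obtain ⟨hw3, hw4⟩ := rAnd_iff.1 hw2
    have hL : L ≤ c + 1 := Nat.le_of_ble_eq_true hw1
    have h1 : adv c (bd c q1 t (fun m => Nd.opn (walk t f sub m) m) (walk t f rest n)) c' ch rs =
      true := h
    cases hat with
    | tok _ _ _ _ hat =>
      rw [Nd.run_cons] at hm
      cases hx : n.next c with
      | none => rw [hx] at hm; exact absurd hm (by simp)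
      | some m1 =>
        rw [hx] at hm
        obtain ⟨c2, ch2, rs2, e1, e2, e3, e4⟩ := adv_sound hi hr hL h1 hx le_rfl
        rcases e4 c m1 le_rfl hx with ⟨rfl, rfl⟩ | ⟨h5, -⟩
        · have h6 := bd_hit e1 (hq q1 List.mem_cons_self)
          have h7 := hn.child hx
          obtain ⟨c3, ch3, rs3, g1, g2, g3⟩ := Nd.opn_sound h7 h6
          exact ihs hw3 h7 g2 g3 g1 hat (fun q hq' => hq q (List.mem_cons_of_mem _ hq')) hm
        · omega
    | tok_rest _ _ _ _ hat =>
      obtain ⟨c1, p', rfl, h3⟩ := hat.head (Nat.succ_pos c) hw4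
      have hm' := hm
      rw [Nd.run_cons] at hm'
      cases hx : n.next c1 with
      | none => rw [hx] at hm'; exact absurd hm' (by simp)
      | some m1 =>
        obtain ⟨c2, ch2, rs2, e1, e2, e3, e4⟩ := adv_sound hi hr hL h1 hx (by omega)
        exact ihr hw4 hn e2 e4 (bd_rest e1) hat hq hm

/-- **The walk reaches every entry whose tests do not prune.** -/
theorem go_sound {t : ℕ → Bool} {f : ℕ → ℕ → α → Nd → Bool} {r : Rw α} {n : Nd}
    (hw : r.wf 0 = true) (hn : n.Ord) (h : go t f r n = true) {p : List ℕ} {o k : ℕ} {b : α}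
    {qs : List ℕ} {m : Nd} (hat : At r p o k b qs) (hq : ∀ q ∈ qs, t q = false)
    (hm : n.run p = some m) : f o k b m = true := by
  obtain ⟨c', ch, rs, h1, h2, h3⟩ := Nd.opn_sound hn h
  exact walk_sound hw hn h2 h3 h1 hat hq hm

/-! ### Finding an entry -/

/-- The entry with the option `o`. -/
def find {β : Type} (g : ℕ → α → β) (o : ℕ) (r : Rw α) : β → β :=
  Rw.rec (motive := fun _ => β → β) (fun d => d)
    (fun o' k _ b _ ih d => Bool.rec (motive := fun _ => β) (ih d) (g k b) (Nat.beq o' o))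
    (fun _ o' k _ b _ ih d => Bool.rec (motive := fun _ => β) (ih d) (g k b) (Nat.beq o' o))
    (fun _ _ _ _ ihs ihr d => ihs (ihr d)) r

theorem find_at {β : Type} {g : ℕ → α → β} {o : ℕ} : ∀ (r : Rw α) (d : β),
    find g o r d = d ∨ ∃ p k b qs, At r p o k b qs ∧ find g o r d = g k b := by
  intro r
  induction r with
  | nil => intro d; exact Or.inl rfl
  | hit o' k q b rest ih =>
    intro d
    have h1 : find g o (.hit o' k q b rest) d = Bool.rec (motive := fun _ => β)
      (find g o rest d) (g k b) (Nat.beq o' o) := rfl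
    cases hb : Nat.beq o' o with
    | true =>
      rw [hb] at h1
      obtain rfl := Nat.eq_of_beq_eq_true hb
      exact Or.inr ⟨_, _, _, _, At.hit _ _ _ _ _, h1⟩
    | false =>
      rw [hb] at h1
      rcases ih d with h2 | ⟨p, k1, b1, qs, h2, h3⟩
      · exact Or.inl (h1.trans h2)
      · exact Or.inr ⟨p, k1, b1, qs, At.hit_rest _ _ _ _ _ h2, h1.trans h3⟩
  | one c o' k q b rest ih =>
    intro d
    have h1 : find g o (.one c o' k q b rest) d = Bool.rec (motive := fun _ => β)
      (find g o rest d) (g k b) (Nat.beq o' o) := rfl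
    cases hb : Nat.beq o' o with
    | true =>
      rw [hb] at h1
      obtain rfl := Nat.eq_of_beq_eq_true hb
      exact Or.inr ⟨_, _, _, _, At.one _ _ _ _ _ _, h1⟩
    | false =>
      rw [hb] at h1
      rcases ih d with h2 | ⟨p, k1, b1, qs, h2, h3⟩
      · exact Or.inl (h1.trans h2)
      · exact Or.inr ⟨p, k1, b1, qs, At.one_rest _ _ _ _ _ _ h2, h1.trans h3⟩
  | tok c q sub rest ihs ihr =>
    intro d
    have h1 : find g o (.tok c q sub rest) d = find g o sub (find g o rest d) := rfl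
    rcases ihs (find g o rest d) with h2 | ⟨p, k1, b1, qs, h2, h3⟩
    · rcases ihr d with h4 | ⟨p, k1, b1, qs, h4, h5⟩
      · exact Or.inl (h1.trans (h2.trans h4))
      · exact Or.inr ⟨p, k1, b1, qs, At.tok_rest _ _ _ _ h4, h1.trans (h2.trans h5)⟩
    · exact Or.inr ⟨_, k1, b1, _, At.tok _ _ _ _ h2, h1.trans h3⟩

/-! ### Checks of a row -/

/-- The check of the entries: `G p o k b`. -/
def chk (r : Rw α) : (List ℕ → ℕ → ℕ → α → Bool) → Bool :=
  Rw.rec (motive := fun _ => (List ℕ → ℕ → ℕ → α → Bool) → Bool) (fun _ => true)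
    (fun o k _ b _ ih G => rAnd (G [] o k b) (ih G))
    (fun c o k _ b _ ih G => rAnd (G [c] o k b) (ih G))
    (fun c _ _ _ ihs ihr G => rAnd (ihs fun p => G (c :: p)) (ihr G)) r

theorem At.chk {r : Rw α} {p : List ℕ} {o k : ℕ} {b : α} {qs : List ℕ}
    (h : At r p o k b qs) : ∀ {G : List ℕ → ℕ → ℕ → α → Bool}, r.chk G = true →
    G p o k b = true := by
  induction h with
  | hit o k q b rest =>
    intro G h
    exact (rAnd_iff.1 (show rAnd (G [] o k b) (rest.chk G) = true from h)).1
  | one c o k q b rest =>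
    intro G h
    exact (rAnd_iff.1 (show rAnd (G [c] o k b) (rest.chk G) = true from h)).1
  | tok c q sub rest _ ih =>
    intro G h
    exact ih (rAnd_iff.1 (show rAnd (sub.chk fun p => G (c :: p)) (rest.chk G) = true from h)).1
  | hit_rest o' k' q' b' rest _ ih =>
    intro G h
    exact ih (rAnd_iff.1 (show rAnd (G [] o' k' b') (rest.chk G) = true from h)).2
  | one_rest c' o' k' q' b' rest _ ih =>
    intro G h
    exact ih (rAnd_iff.1 (show rAnd (G [c'] o' k' b') (rest.chk G) = true from h)).2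
  | tok_rest c' q sub rest _ ih =>
    intro G h
    exact ih (rAnd_iff.1 (show rAnd (sub.chk fun p => G (c' :: p)) (rest.chk G) = true from h)).2

/-- The check of the tests: `R q q'` for a test `q'` directly below `q`, `D q b` for the test `q` of an
entry with the data `b`; `g` is the check of the tests at this level. -/
def chkQ (R : ℕ → ℕ → Bool) (D : ℕ → α → Bool) (r : Rw α) : (ℕ → Bool) → Bool :=
  Rw.rec (motive := fun _ => (ℕ → Bool) → Bool) (fun _ => true)
    (fun _ _ q b _ ih g => rAnd (g q) (rAnd (D q b) (ih g)))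
    (fun _ _ _ q b _ ih g => rAnd (g q) (rAnd (D q b) (ih g)))
    (fun _ q _ _ ihs ihr g => rAnd (g q) (rAnd (ihs (R q)) (ihr g))) r

theorem At.chkQ {R : ℕ → ℕ → Bool} {D : ℕ → α → Bool} {P : ℕ → α → Prop}
    (h1 : ∀ q b, D q b = true → P q b) (h2 : ∀ q q' b, R q q' = true → P q' b → P q b)
    {r : Rw α} {p : List ℕ} {o k : ℕ} {b : α} {qs : List ℕ} (h : At r p o k b qs) :
    ∀ {g : ℕ → Bool}, r.chkQ R D g = true →
      (∀ q ∈ qs, P q b) ∧ ∃ q ∈ qs, g q = true := by
  induction h with
  | hit o k q b rest =>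
    intro g h
    obtain ⟨h3, h4⟩ := rAnd_iff.1 (show rAnd (g q) (rAnd (D q b) (rest.chkQ R D g)) = true from h)
    exact ⟨fun q' hq' => by rw [List.mem_singleton.1 hq']; exact h1 q b (rAnd_iff.1 h4).1,
      q, List.mem_singleton_self q, h3⟩
  | one c o k q b rest =>
    intro g h
    obtain ⟨h3, h4⟩ := rAnd_iff.1 (show rAnd (g q) (rAnd (D q b) (rest.chkQ R D g)) = true from h)
    exact ⟨fun q' hq' => by rw [List.mem_singleton.1 hq']; exact h1 q b (rAnd_iff.1 h4).1,
      q, List.mem_singleton_self q, h3⟩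
  | @tok c q sub rest p o k b qs _ ih =>
    intro g h
    obtain ⟨h3, h4⟩ := rAnd_iff.1 (show rAnd (g q) (rAnd (sub.chkQ R D (R q))
      (rest.chkQ R D g)) = true from h)
    obtain ⟨h5, q', hq', h6⟩ := ih (rAnd_iff.1 h4).1
    refine ⟨fun q1 hq1 => ?_, q, List.mem_cons_self, h3⟩
    rcases List.mem_cons.1 hq1 with rfl | hq1
    · exact h2 _ _ _ h6 (h5 q' hq')
    · exact h5 q1 hq1
  | hit_rest o' k' q' b' rest _ ih =>
    intro g h
    exact ih (rAnd_iff.1 (rAnd_iff.1 (show rAnd (g q') (rAnd (D q' b') (rest.chkQ R D g)) = true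
      from h)).2).2
  | one_rest c' o' k' q' b' rest _ ih =>
    intro g h
    exact ih (rAnd_iff.1 (rAnd_iff.1 (show rAnd (g q') (rAnd (D q' b') (rest.chkQ R D g)) = true
      from h)).2).2
  | tok_rest c' q sub rest _ ih =>
    intro g h
    exact ih (rAnd_iff.1 (rAnd_iff.1 (show rAnd (g q) (rAnd (sub.chkQ R D (R q))
      (rest.chkQ R D g)) = true from h)).2).2

end Rw

end

end Pool.Agent.Lib.MP_5854e1_co
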