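import Pool.Agent.Lib.MP_5854e1_co.ScanCell

/-!
# Runs of digons

The darts of a run of digons are scanned on both sides. A kernel enumeration shows that a run has
at most five darts, so every cell has a strip.
-/

set_option autoImplicit false

open Equiv Equiv.Perm

namespace Pool.Agent.Lib.MP_5854e1_co

open Model24 (Kind)

/-- The far side of a run: `p` is the label of its first dart, the entries of the list are the kinds
of the own and of the far corner and the label of the next dart. -/
def farAux : Fin 7 × Fin 7 → List ((Kind × Kind) × (Fin 7 × Fin 7)) →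
    List (Kind × (Fin 7 × Fin 7)) → (Fin 7 × Fin 7) × List (Kind × (Fin 7 × Fin 7))
  | p, [], acc => (p.swap, acc)
  | p, q :: l, acc => farAux q.2 l ((q.1.2, p.swap) :: acc)

/-- Both sides of a run are accepted by the scanner. -/
def runOK (p : Fin 7 × Fin 7) (l : List ((Kind × Kind) × (Fin 7 × Fin 7))) : Bool :=
  (scRun (scInit p) (l.map fun q => (q.1.1, q.2))).isSome &&
    (scRun (scInit (farAux p l []).1) (farAux p l []).2).isSome

namespace Model24

variable {D : Type*} {M : Model24 D}

variable (M) in
/-- The window of `n + 1` outer darts from `d`, without the label of `d`. -/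
noncomputable def winList (d : M.ODart) : ℕ → List (Kind × (Fin 7 × Fin 7))
  | 0 => []
  | n + 1 => winList d n ++ [(M.kind (M.onx^[n] d).1, M.lab (M.onx^[n + 1] d).1)]

theorem scRun_winList (d : M.ODart) (n : ℕ) :
    scRun (scInit (M.lab d.1)) (M.winList d n) = scanAt M d n := by
  induction n with
  | zero => rfl
  | succ n ih =>
    rw [winList, scRun_append, ih]
    show _ = (scanAt M d n).bind _
    congr 1
    funext σ
    rw [scRun]
    cases scStep σ (M.kind (M.onx^[n] d).1) (M.lab (M.onx^[n + 1] d).1) <;> rfl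

theorem winList_cons (d : M.ODart) (n : ℕ) :
    M.winList d (n + 1) = (M.kind d.1, M.lab (M.onx d).1) :: M.winList (M.onx d) n := by
  induction n with
  | zero => rfl
  | succ n ih =>
    rw [winList, ih, winList]
    rfl

/-- Windows of at most twelve darts are accepted. -/
theorem winOK [Finite D] (d : M.ODart) {n : ℕ} (hn : n < 12) :
    (scRun (scInit (M.lab d.1)) (M.winList d n)).isSome = true := by
  rw [scRun_winList]
  obtain ⟨h1, -, h3⟩ := scan_cell d
  obtain ⟨σ, hσ⟩ := h1 n (by omega)
  rw [hσ]
  rfl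

variable (M) in
/-- The code of the run of `n + 1` darts from `d`, without the label of `d`. -/
noncomputable def runList (d : M.ODart) : ℕ → List ((Kind × Kind) × (Fin 7 × Fin 7))
  | 0 => []
  | n + 1 => ((M.kind d.1, M.kind (M.oin (M.onx d)).1), M.lab (M.onx d).1) :: runList (M.onx d) n

theorem runList_own (d : M.ODart) (n : ℕ) :
    (M.runList d n).map (fun q => (q.1.1, q.2)) = M.winList d n := by
  induction n generalizing d with
  | zero => rfl
  | succ n ih => rw [runList, List.map_cons, ih, winList_cons]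

variable (M) in
/-- The corners inside the run of `n + 1` darts from `d` are digons. -/
def DigRun (d : M.ODart) (n : ℕ) : Prop := ∀ i, 0 < i → i ≤ n → M.Dig (M.onx^[i] d)

theorem DigRun.tail {d : M.ODart} {n : ℕ} (h : M.DigRun d (n + 1)) : M.DigRun (M.onx d) n := by
  intro i h0 hi
  rw [← Function.iterate_succ_apply]
  exact h (i + 1) (by omega) (by omega)

theorem DigRun.onx_oin {d : M.ODart} {n : ℕ} (h : M.DigRun d n) {i : ℕ} (hi : i + 1 ≤ n) :
    M.onx (M.oin (M.onx^[i + 1] d)) = M.oin (M.onx^[i] d) := by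
  have h1 := h (i + 1) (by omega) hi
  rw [Function.iterate_succ_apply'] at h1 ⊢
  exact dig_onx_iff.1 h1

theorem DigRun.iterate_oin {d : M.ODart} {n : ℕ} (h : M.DigRun d n) {j : ℕ} (hj : j ≤ n) :
    M.onx^[j] (M.oin (M.onx^[n] d)) = M.oin (M.onx^[n - j] d) := by
  induction j with
  | zero => rfl
  | succ j ih =>
    rw [Function.iterate_succ_apply', ih (by omega), show n - j = (n - (j + 1)) + 1 by omega]
    exact h.onx_oin (by omega)

theorem farAux_runList (n : ℕ) : ∀ (d : M.ODart) (acc : List (Kind × (Fin 7 × Fin 7))),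
    M.DigRun d n → farAux (M.lab d.1) (M.runList d n) acc =
      (M.lab (M.oin (M.onx^[n] d)).1, M.winList (M.oin (M.onx^[n] d)) n ++ acc) := by
  induction n with
  | zero =>
    intro d acc _
    show ((M.lab d.1).swap, acc) = _
    rw [← M.lab_inv]
    rfl
  | succ n ih =>
    intro d acc h
    rw [runList, farAux, ih (M.onx d) _ h.tail]
    have e1 : M.onx^[n] (M.onx d) = M.onx^[n + 1] d := rfl
    rw [e1]
    refine Prod.ext rfl ?_
    show M.winList (M.oin (M.onx^[n + 1] d)) n ++ _ = M.winList (M.oin (M.onx^[n + 1] d)) (n + 1) ++ acc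
    rw [winList, List.append_assoc]
    congr 1
    show _ = (M.kind (M.onx^[n] (M.oin (M.onx^[n + 1] d))).1,
      M.lab (M.onx^[n + 1] (M.oin (M.onx^[n + 1] d))).1) :: acc
    rw [h.iterate_oin (by omega), h.iterate_oin le_rfl, Nat.sub_self,
      show n + 1 - n = 1 by omega, ← M.lab_inv]
    rfl

/-- Both sides of a run are accepted. -/
theorem runOK_of_digRun [Finite D] (d : M.ODart) {n : ℕ} (hn : n < 12) (h : M.DigRun d n) :
    runOK (M.lab d.1) (M.runList d n) = true := by
  unfold runOK
  rw [runList_own, winOK d hn, farAux_runList n d [] h, List.append_nil, winOK _ hn]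
  rfl

end Model24

/-! ### Enumeration of the runs -/

/-- The labels of the rim darts. -/
def allLab : List (Fin 7 × Fin 7) :=
  [(1, 3), (1, 4), (1, 5), (1, 6), (2, 3), (2, 4), (2, 5), (2, 6), (3, 1), (3, 2), (3, 5), (3, 6),
   (4, 1), (4, 2), (4, 5), (4, 6), (5, 1), (5, 2), (5, 3), (5, 4), (6, 1), (6, 2), (6, 3), (6, 4)]

theorem mem_allLab : ∀ p : Fin 7 × Fin 7, p.1 ≠ 0 ∧ p.2 ≠ 0 ∧ K1222.Adj p.1 p.2 → p ∈ allLab := by
  decide

/-- There is no continuation of a run by `n` darts: `σ` is the state of the own scan, `p` the label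
of the last dart, `facc` the far window without the label of its first dart. -/
def noLong : ℕ → Sc → Fin 7 × Fin 7 → List (Kind × (Fin 7 × Fin 7)) → Bool
  | 0, _, _, _ => false
  | n + 1, σ, p, facc =>
    [Kind.P, Kind.E, Kind.S].all fun ka =>
      allLab.all fun p' =>
        match scStep σ ka p' with
        | none => true
        | some τ =>
          [Kind.P, Kind.E, Kind.S].all fun kb =>
            match scRun (scInit p'.swap) ((kb, p.swap) :: facc) with
            | none => true
            | some _ => noLong n τ p' ((kb, p.swap) :: facc)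

theorem kind_mem (κ : Kind) : κ ∈ [Kind.P, Kind.E, Kind.S] := by
  cases κ <;> simp

namespace Model24

variable {D : Type*} {M : Model24 D}

theorem lab_mem (d : D) : M.lab d ∈ allLab :=
  mem_allLab _ ⟨lab_fst_ne d, lab_snd_ne d, lab_adj d⟩

theorem noLong_sound [Finite D] (d0 : M.ODart) : ∀ (n m : ℕ) (σ : Sc), n + m < 12 →
    M.DigRun d0 (n + m) → scanAt M d0 m = some σ →
    noLong n σ (M.lab (M.onx^[m] d0).1) (M.winList (M.oin (M.onx^[m] d0)) m) = false := by
  intro n
  induction n with
  | zero => intro m σ _ _ _; rfl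
  | succ n ih =>
    intro m σ hnm hrun hσ
    by_contra hne
    rw [Bool.not_eq_false] at hne
    rw [noLong, List.all_eq_true] at hne
    have h1 := hne (M.kind (M.onx^[m] d0).1) (kind_mem _)
    rw [List.all_eq_true] at h1
    have h2 := h1 (M.lab (M.onx^[m + 1] d0).1) (lab_mem _)
    obtain ⟨h3, -, h4⟩ := scan_cell d0
    obtain ⟨τ, hτ⟩ := h3 (m + 1) (by omega)
    have h5 : scStep σ (M.kind (M.onx^[m] d0).1) (M.lab (M.onx^[m + 1] d0).1) = some τ := by
      have : (scanAt M d0 m).bind (fun σ =>
        scStep σ (M.kind (M.onx^[m] d0).1) (M.lab (M.onx^[m + 1] d0).1)) = some τ := hτ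
      rw [hσ] at this
      exact this
    rw [h5] at h2
    simp only [List.all_eq_true] at h2
    have hrun' : M.DigRun d0 (m + 1) := fun i h0 hi => hrun i h0 (by omega)
    have h6 := h2 (M.kind (M.oin (M.onx^[m + 1] d0)).1) (kind_mem _)
    -- the far window
    have h7 : (M.kind (M.oin (M.onx^[m + 1] d0)).1, (M.lab (M.onx^[m] d0).1).swap) ::
        M.winList (M.oin (M.onx^[m] d0)) m = M.winList (M.oin (M.onx^[m + 1] d0)) (m + 1) := by
      rw [winList_cons, hrun'.onx_oin le_rfl, ← M.lab_inv]
      rfl
    have h8 : (M.lab (M.onx^[m + 1] d0).1).swap = M.lab (M.oin (M.onx^[m + 1] d0)).1 := by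
      rw [← M.lab_inv]
      rfl
    rw [h7, h8] at h6
    have h9 := winOK (M.oin (M.onx^[m + 1] d0)) (n := m + 1) (by omega)
    obtain ⟨ρ, hρ⟩ := Option.isSome_iff_exists.1 h9
    rw [hρ] at h6
    have h10 := ih (m + 1) τ (by omega) (fun i h0 hi => hrun i h0 (by omega)) hτ
    rw [h10] at h6
    exact Bool.false_ne_true h6

end Model24

end Pool.Agent.Lib.MP_5854e1_co
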