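import Mathlib

/-!
# Scanning the word of a cell

Sets of labels are bit masks. A state of the scanner remembers the label `x0` of the block in which
the scan began and the letters `m0` of that block that were read at the beginning, the phase (`0` in
the initial block, `1` later, `2` when the initial block is reached again), the labels of the blocks
read so far, the label of the current block and the letters read in it.
-/

set_option autoImplicit false

namespace Pool.Agent.Lib.MP_5854e1_co

/-- The mask of a list of labels. -/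
def msk : List (Fin 7) → ℕ
  | [] => 0
  | x :: l => 2 ^ x.val ||| msk l

theorem testBit_two_pow' (x y : ℕ) : (2 ^ x).testBit y = decide (x = y) := by
  rcases eq_or_ne x y with rfl | h
  · simp
  · rw [Nat.testBit_two_pow_of_ne h]
    simp [h]

theorem testBit_msk (l : List (Fin 7)) (x : Fin 7) : (msk l).testBit x.val = decide (x ∈ l) := by
  induction l with
  | nil => simp [msk]
  | cons a l ih =>
    rw [msk, Nat.testBit_or, ih, testBit_two_pow']
    by_cases h : a = x
    · subst h; simp
    · have h1 : a.val ≠ x.val := fun h2 => h (Fin.ext h2)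
      simp [h1, Ne.symm h]

theorem msk_lt (l : List (Fin 7)) : msk l < 2 ^ 7 := by
  induction l with
  | nil => simp [msk]
  | cons a l ih =>
    rw [msk]
    exact Nat.or_lt_two_pow (Nat.pow_lt_pow_right (by norm_num) a.isLt) ih

theorem msk_eq {l : List (Fin 7)} {m : ℕ} (hm : m < 2 ^ 7)
    (h : ∀ x : Fin 7, m.testBit x.val = decide (x ∈ l)) : msk l = m := by
  refine Nat.eq_of_testBit_eq fun i => ?_
  rcases Nat.lt_or_ge i 7 with hi | hi
  · have h1 := testBit_msk l ⟨i, hi⟩
    have h2 := h ⟨i, hi⟩
    simp only at h1 h2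
    rw [h1, h2]
  · have h7 : 2 ^ 7 ≤ 2 ^ i := Nat.pow_le_pow_right (by norm_num) hi
    rw [Nat.testBit_lt_two_pow ((msk_lt l).trans_le h7), Nat.testBit_lt_two_pow (hm.trans_le h7)]

theorem msk_congr {l l' : List (Fin 7)} (h : ∀ x, x ∈ l ↔ x ∈ l') : msk l = msk l' :=
  msk_eq (msk_lt l') fun x => by rw [testBit_msk]; simp [h x]

/-- The opposite label. -/
def oppL (x : Fin 7) : Fin 7 := match x with
  | 0 => 0
  | 1 => 2
  | 2 => 1
  | 3 => 4
  | 4 => 3
  | 5 => 6
  | 6 => 5

/-- The mask of the four neighbours on the rim. -/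
def nbm (x : Fin 7) : ℕ := match x with
  | 0 => 126
  | 1 => 120
  | 2 => 120
  | 3 => 102
  | 4 => 102
  | 5 => 30
  | 6 => 30

/-- Adjacency of rim labels. -/
def adjL (x y : Fin 7) : Bool := (nbm x).testBit y.val

/-- A state of the scanner. -/
structure Sc where
  /-- the label of the initial block -/
  x0 : Fin 7
  /-- the letters of the initial block read at the beginning -/
  m0 : ℕ
  /-- the phase -/
  ph : ℕ
  /-- the labels of the blocks read so far -/
  vis : ℕ
  /-- the current label -/
  cur : Fin 7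
  /-- the letters read in the current block -/
  nb : ℕ
  deriving DecidableEq

/-- The state after the first dart. -/
def scInit (p : Fin 7 × Fin 7) : Sc :=
  ⟨p.1, 2 ^ p.2.val, 0, 2 ^ p.1.val, p.1, 2 ^ p.2.val⟩

/-- The next dart is `p`, in the same block. -/
def scP (σ : Sc) (p : Fin 7 × Fin 7) : Option Sc :=
  if p.1 = σ.cur ∧ adjL σ.cur p.2 = true ∧ σ.nb.testBit p.2.val = false ∧
      (σ.ph = 2 → σ.m0.testBit p.2.val = false) then
    some { σ with
      m0 := if σ.ph = 0 then σ.m0 ||| 2 ^ p.2.val else σ.m0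
      nb := σ.nb ||| 2 ^ p.2.val }
  else none

/-- Entering the block of the label `x`; the new phase. -/
def scEnter (σ : Sc) (x : Fin 7) : Option ℕ :=
  if σ.ph = 2 then none
  else if σ.vis = 126 then (if x = σ.x0 then some 2 else none)
  else if x ≠ 0 ∧ σ.vis.testBit x.val = false then some 1 else none

/-- The next dart is `p`, after a gap without edge. -/
def scS (σ : Sc) (p : Fin 7 × Fin 7) : Option Sc :=
  match scEnter σ p.1 with
  | none => none
  | some ph' =>
    if (σ.ph = 1 → σ.nb = nbm σ.cur) ∧ adjL p.1 p.2 = true ∧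
        (ph' = 2 → σ.m0.testBit p.2.val = false) then
      some { σ with
        ph := ph'
        vis := σ.vis ||| 2 ^ p.1.val
        cur := p.1
        nb := 2 ^ p.2.val }
    else none

/-- The next outer dart is `p`, after an `E` gap. -/
def scE (σ : Sc) (p : Fin 7 × Fin 7) : Option Sc :=
  match scEnter σ p.1 with
  | none => none
  | some ph' =>
    if adjL σ.cur p.1 = true ∧ σ.nb.testBit p.1.val = false ∧
        (σ.ph = 1 → σ.nb ||| 2 ^ p.1.val = nbm σ.cur) ∧ adjL p.1 p.2 = true ∧ p.2 ≠ σ.cur ∧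
        (ph' = 2 → σ.m0.testBit p.2.val = false ∧ σ.m0.testBit σ.cur.val = false) then
      some { σ with
        m0 := if σ.ph = 0 then σ.m0 ||| 2 ^ p.1.val else σ.m0
        ph := ph'
        vis := σ.vis ||| 2 ^ p.1.val
        cur := p.1
        nb := 2 ^ σ.cur.val ||| 2 ^ p.2.val }
    else none

/-- The scan closes with a corner of kind `P`. -/
def scCloseP (σ : Sc) : Bool := σ.ph = 2 ∧ σ.nb ||| σ.m0 = nbm σ.x0

/-- The scan closes with a gap without edge. -/
def scCloseS (σ : Sc) : Bool :=
  σ.ph = 1 ∧ σ.vis = 126 ∧ σ.nb = nbm σ.cur ∧ σ.m0 = nbm σ.x0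

/-- The scan closes with an `E` gap. -/
def scCloseE (σ : Sc) : Bool :=
  σ.ph = 1 ∧ σ.vis = 126 ∧ adjL σ.cur σ.x0 = true ∧ σ.nb.testBit σ.x0.val = false ∧
    σ.nb ||| 2 ^ σ.x0.val = nbm σ.cur ∧ σ.m0.testBit σ.cur.val = false ∧
    σ.m0 ||| 2 ^ σ.cur.val = nbm σ.x0

/-! ### The states of an actual word -/

section

variable (c : ℕ → Fin 7) (b : ℕ → ℕ → Fin 7) (k0 : ℕ)

/-- The letters read in block `j` up to letter `k`. -/
def lets (j k : ℕ) : List (Fin 7) :=
  if j = 0 then ((List.range (k + 1)).filter (k0 ≤ ·)).map (b 0) else (List.range (k + 1)).map (b j)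

/-- The state at the dart `k` of block `j`. -/
def stAt (j k : ℕ) : Sc where
  x0 := c 0
  m0 := msk (lets b k0 0 (if j = 0 then k else 3))
  ph := if j = 0 then 0 else if j < 6 then 1 else 2
  vis := msk ((List.range (min (j + 1) 6)).map c)
  cur := c j
  nb := msk (lets b k0 j k)

/-- The properties of a block word that the scanner uses. -/
structure GoodWord : Prop where
  c6 : c 6 = c 0
  b6 : ∀ k, b 6 k = b 0 k
  c_ne : ∀ j, c j ≠ 0
  c_inj : ∀ i < 6, ∀ j < 6, c i = c j → i = j
  b_adj : ∀ j, ∀ k < 4, adjL (c j) (b j k) = true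
  b_inj : ∀ j, ∀ k < 4, ∀ l < 4, b j k = b j l → k = l

variable {c b k0}

theorem msk_append_one (l : List (Fin 7)) (x : Fin 7) : msk (l ++ [x]) = msk l ||| 2 ^ x.val := by
  induction l with
  | nil => simp [msk]
  | cons a l ih => rw [List.cons_append, msk, msk, ih, Nat.or_assoc]

theorem lets_succ (j k : ℕ) (h : j = 0 → k0 ≤ k + 1) :
    lets b k0 j (k + 1) = lets b k0 j k ++ [b j (k + 1)] := by
  unfold lets
  rw [List.range_succ]
  split_ifs with h1
  · subst h1
    rw [List.filter_append, List.map_append]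
    congr 1
    simp [h rfl]
  · rw [List.map_append]
    rfl

theorem mem_lets {j k : ℕ} {x : Fin 7} :
    x ∈ lets b k0 j k ↔ ∃ i, i ≤ k ∧ (j = 0 → k0 ≤ i) ∧ b j i = x := by
  unfold lets
  split_ifs with h
  · subst h
    simp only [List.mem_map, List.mem_filter, List.mem_range, decide_eq_true_eq]
    constructor
    · rintro ⟨i, ⟨h1, h2⟩, h3⟩; exact ⟨i, by omega, fun _ => h2, h3⟩
    · rintro ⟨i, h1, h2, h3⟩; exact ⟨i, ⟨by omega, h2 trivial⟩, h3⟩
  · simp only [List.mem_map, List.mem_range]
    constructor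
    · rintro ⟨i, h1, h3⟩; exact ⟨i, by omega, fun h2 => absurd h2 h, h3⟩
    · rintro ⟨i, h1, -, h3⟩; exact ⟨i, by omega, h3⟩

theorem full_mask : ∀ x y0 y1 y2 y3 : Fin 7, (x ≠ 0 ∧ [y0, y1, y2, y3].all (adjL x) = true ∧
    [y0, y1, y2, y3].Nodup) → msk [y0, y1, y2, y3] = nbm x := by
  decide +kernel

namespace GoodWord

variable (h : GoodWord c b)

include h in
theorem full {j : ℕ} : msk [b j 0, b j 1, b j 2, b j 3] = nbm (c j) := by
  have hne : ∀ k < 4, ∀ l < 4, k ≠ l → b j k ≠ b j l := fun k hk l hl hkl e =>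
    hkl (h.b_inj j k hk l hl e)
  refine full_mask _ _ _ _ _ ⟨h.c_ne j, ?_, ?_⟩
  · simp only [List.all_cons, List.all_nil, Bool.and_true, Bool.and_eq_true]
    exact ⟨h.b_adj j 0 (by norm_num), h.b_adj j 1 (by norm_num), h.b_adj j 2 (by norm_num),
      h.b_adj j 3 (by norm_num)⟩
  · simp only [List.nodup_cons, List.mem_cons, List.not_mem_nil, or_false, not_or,
      List.nodup_nil, and_true, not_false_eq_true]
    exact ⟨⟨hne 0 (by norm_num) 1 (by norm_num) (by norm_num),
      hne 0 (by norm_num) 2 (by norm_num) (by norm_num),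
      hne 0 (by norm_num) 3 (by norm_num) (by norm_num)⟩,
      ⟨hne 1 (by norm_num) 2 (by norm_num) (by norm_num),
      hne 1 (by norm_num) 3 (by norm_num) (by norm_num)⟩,
      hne 2 (by norm_num) 3 (by norm_num) (by norm_num)⟩

include h in
theorem vis_all : msk ((List.range 6).map c) = 126 := by
  refine msk_eq (by norm_num) fun x => ?_
  have hcard : (Finset.image c (Finset.range 6)) = Finset.univ.erase 0 := by
    refine Finset.eq_of_subset_of_card_le (fun y hy => ?_) ?_
    · obtain ⟨i, -, rfl⟩ := Finset.mem_image.1 hy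
      exact Finset.mem_erase.2 ⟨h.c_ne i, Finset.mem_univ _⟩
    · rw [Finset.card_image_of_injOn, Finset.card_range]
      · decide
      · intro i hi j hj hij
        exact h.c_inj i (Finset.mem_range.1 (Finset.mem_coe.1 hi)) j
          (Finset.mem_range.1 (Finset.mem_coe.1 hj)) hij
  have h1 : x ∈ (List.range 6).map c ↔ x ≠ 0 := by
    have := Finset.ext_iff.1 hcard x
    simp only [Finset.mem_image, Finset.mem_range, Finset.mem_erase, Finset.mem_univ,
      and_true] at this
    rw [← this]
    simp only [List.mem_map, List.mem_range]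
  rw [decide_eq_decide.2 h1]
  have : ∀ x : Fin 7, (126 : ℕ).testBit x.val = decide (x ≠ 0) := by decide
  exact this x

include h in
theorem vis_ne {j : ℕ} (hj : j < 5) : msk ((List.range (j + 1)).map c) ≠ 126 := by
  intro h1
  have h2 := testBit_msk ((List.range (j + 1)).map c) (c 5)
  rw [h1] at h2
  have h3 : (126 : ℕ).testBit (c 5).val = true := by
    have : ∀ x : Fin 7, x ≠ 0 → (126 : ℕ).testBit x.val = true := by decide
    exact this _ (h.c_ne 5)
  rw [h3] at h2
  have h4 := of_decide_eq_true h2.symm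
  simp only [List.mem_map, List.mem_range] at h4
  obtain ⟨i, hi, h5⟩ := h4
  have := h.c_inj i (by omega) 5 (by norm_num) h5
  omega

include h in
theorem enter_lt {j k : ℕ} (hj : j < 5) : scEnter (stAt c b k0 j k) (c (j + 1)) = some 1 := by
  unfold scEnter
  have h1 : min (j + 1) 6 = j + 1 := by omega
  have hph : (stAt c b k0 j k).ph ≠ 2 := by
    show (if j = 0 then 0 else if j < 6 then 1 else 2) ≠ 2
    split_ifs <;> omega
  have hvis : (stAt c b k0 j k).vis = msk ((List.range (j + 1)).map c) := by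
    show msk ((List.range (min (j + 1) 6)).map c) = _
    rw [h1]
  rw [if_neg hph, hvis, if_neg (h.vis_ne hj), if_pos]
  refine ⟨h.c_ne _, ?_⟩
  rw [testBit_msk, decide_eq_false_iff_not]
  simp only [List.mem_map, List.mem_range]
  rintro ⟨i, hi, h5⟩
  have := h.c_inj i (by omega) (j + 1) (by omega) h5
  omega

include h in
theorem enter_five {k : ℕ} : scEnter (stAt c b k0 5 k) (c 6) = some 2 := by
  unfold scEnter
  have hph : (stAt c b k0 5 k).ph ≠ 2 := by
    show (if 5 = 0 then 0 else if 5 < 6 then 1 else 2) ≠ 2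
    norm_num
  have hvis : (stAt c b k0 5 k).vis = 126 := h.vis_all
  rw [if_neg hph, hvis, if_pos rfl, if_pos]
  exact h.c6

include h in
/-- Step inside a block. -/
theorem stepP {j k : ℕ} (hk : k + 1 < 4) (hj : j ≤ 6) (h0 : j = 0 → k0 ≤ k)
    (h6 : j = 6 → k + 1 < k0) (hk0 : k0 < 4) :
    scP (stAt c b k0 j k) (c j, b j (k + 1)) = some (stAt c b k0 j (k + 1)) := by
  have hnb : (stAt c b k0 j k).nb = msk (lets b k0 j k) := rfl
  have hm0 : (stAt c b k0 j k).m0 = msk (lets b k0 0 (if j = 0 then k else 3)) := rfl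
  have hph : (stAt c b k0 j k).ph = if j = 0 then 0 else if j < 6 then 1 else 2 := rfl
  have hcur : (stAt c b k0 j k).cur = c j := rfl
  unfold scP
  rw [if_pos]
  · congr 1
    unfold stAt
    congr 1
    · show (if (if j = 0 then 0 else if j < 6 then 1 else 2) = 0 then _ else _) = _
      by_cases hj0 : j = 0
      · subst hj0
        simp only [if_true]
        rw [lets_succ 0 k (fun _ => by have := h0 rfl; omega), msk_append_one]
      · have hne : (if j = 0 then 0 else if j < 6 then 1 else 2 : ℕ) ≠ 0 := by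
          rw [if_neg hj0]; split_ifs <;> norm_num
        rw [if_neg hne, if_neg hj0]
        have : ∀ m : ℕ, m = msk (lets b k0 0 3) →
            m = msk (lets b k0 0 (if j = 0 then k + 1 else 3)) := fun m hm => by
          rw [if_neg hj0]; exact hm
        exact this _ rfl
    · rw [lets_succ j k (fun h1 => by have := h0 h1; omega), msk_append_one]
  · refine ⟨rfl, ?_, ?_, ?_⟩
    · rw [hcur]
      exact h.b_adj j (k + 1) hk
    · rw [hnb, testBit_msk, decide_eq_false_iff_not, mem_lets]
      rintro ⟨i, h1, -, h3⟩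
      have := h.b_inj j i (by omega) (k + 1) hk h3
      omega
    · intro h1
      rw [hph] at h1
      have hj6 : j = 6 := by
        by_contra hne
        split_ifs at h1 <;> omega
      rw [hm0, testBit_msk, decide_eq_false_iff_not, mem_lets]
      rintro ⟨i, h2, h3, h4⟩
      rw [if_neg (by omega)] at h2
      subst hj6
      have h5 : b 6 i = b 6 (k + 1) := by rw [h.b6 i, h4]
      have := h.b_inj 6 i (by omega) (k + 1) hk h5
      have := h3 rfl
      have := h6 rfl
      omega

include h in
theorem nb_full {j : ℕ} (hj0 : j ≠ 0) : msk (lets b k0 j 3) = nbm (c j) := by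
  rw [← h.full (j := j)]
  unfold lets
  rw [if_neg hj0]
  rfl

include h in
theorem vis_succ {j k : ℕ} (hj : j < 6) :
    (stAt c b k0 j k).vis ||| 2 ^ (c (j + 1)).val = (stAt c b k0 (j + 1) k).vis := by
  show msk ((List.range (min (j + 1) 6)).map c) ||| 2 ^ (c (j + 1)).val =
    msk ((List.range (min (j + 1 + 1) 6)).map c)
  rcases Nat.lt_or_ge j 5 with h1 | h1
  · rw [show min (j + 1) 6 = j + 1 by omega, show min (j + 1 + 1) 6 = (j + 1) + 1 by omega,
      List.range_succ (n := j + 1), List.map_append, List.map_singleton, msk_append_one]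
  · obtain rfl : j = 5 := by omega
    rw [← msk_append_one]
    refine msk_congr fun x => ?_
    simp only [List.mem_append, List.mem_singleton]
    constructor
    · rintro (h2 | h2)
      · exact h2
      · rw [h2, h.c6]
        exact List.mem_map.2 ⟨0, by simp, rfl⟩
    · exact fun h2 => Or.inl h2

include h in
/-- Step over a gap without edge. -/
theorem stepS {j : ℕ} (hj : j < 6) (h6 : j = 5 → 0 < k0) (hk0 : k0 < 4) :
    scS (stAt c b k0 j 3) (c (j + 1), b (j + 1) 0) = some (stAt c b k0 (j + 1) 0) := by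
  have hent : ∃ ph', scEnter (stAt c b k0 j 3) (c (j + 1)) = some ph' ∧
      ph' = (stAt c b k0 (j + 1) 0).ph := by
    rcases Nat.lt_or_ge j 5 with h1 | h1
    · refine ⟨1, h.enter_lt h1, ?_⟩
      show 1 = if j + 1 = 0 then 0 else if j + 1 < 6 then 1 else 2
      rw [if_neg (by omega), if_pos (by omega)]
    · obtain rfl : j = 5 := by omega
      exact ⟨2, h.enter_five, rfl⟩
  obtain ⟨ph', h1, h2⟩ := hent
  unfold scS
  simp only [h1]
  rw [if_pos]
  · congr 1
    have hv := h.vis_succ (k0 := k0) (k := 3) hj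
    have hv' : (stAt c b k0 (j + 1) 3).vis = (stAt c b k0 (j + 1) 0).vis := rfl
    rw [hv] at *
    rw [hv', h2]
    have e1 : (stAt c b k0 j 3).x0 = (stAt c b k0 (j + 1) 0).x0 := rfl
    have e2 : (stAt c b k0 j 3).m0 = (stAt c b k0 (j + 1) 0).m0 := by
      show msk (lets b k0 0 (if j = 0 then 3 else 3)) = msk (lets b k0 0 (if j + 1 = 0 then 0 else 3))
      rw [if_neg (show j + 1 ≠ 0 by omega), ite_self]
    have e3 : 2 ^ (b (j + 1) 0).val = (stAt c b k0 (j + 1) 0).nb := by
      show _ = msk (lets b k0 (j + 1) 0)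
      unfold lets
      rw [if_neg (show j + 1 ≠ 0 by omega)]
      simp [msk]
    rw [e1, e2]
    show Sc.mk _ _ _ _ (c (j + 1)) (2 ^ (b (j + 1) 0).val) = _
    rw [e3]
    rfl
  · refine ⟨?_, h.b_adj _ 0 (by norm_num), ?_⟩
    · intro h3
      have hj0 : j ≠ 0 := by
        rintro rfl
        exact absurd h3 (by show (0 : ℕ) ≠ 1; norm_num)
      exact h.nb_full hj0
    · intro h3
      rw [h2] at h3
      have hj5 : j = 5 := by
        by_contra hne
        have : (stAt c b k0 (j + 1) 0).ph = 1 := by
          show (if j + 1 = 0 then 0 else if j + 1 < 6 then 1 else 2) = 1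
          rw [if_neg (by omega), if_pos (by omega)]
        omega
      subst hj5
      show (msk (lets b k0 0 3)).testBit _ = false
      rw [testBit_msk, decide_eq_false_iff_not, mem_lets]
      rintro ⟨i, h4, h5, h7⟩
      rw [h.b6] at h7
      have := h.b_inj 0 i (by omega) 0 (by norm_num) h7
      have := h5 rfl
      have := h6 rfl
      omega

include h in
/-- Step over an `E` gap. -/
theorem stepE {j : ℕ} (hj : j < 6) (he1 : b j 3 = c (j + 1)) (he2 : b (j + 1) 0 = c j)
    (h0 : j = 0 → k0 ≤ 2) (h6 : j = 5 → 1 < k0) (hk0 : k0 < 4) :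
    scE (stAt c b k0 j 2) (c (j + 1), b (j + 1) 1) = some (stAt c b k0 (j + 1) 1) := by
  have hent : ∃ ph', scEnter (stAt c b k0 j 2) (c (j + 1)) = some ph' ∧
      ph' = (stAt c b k0 (j + 1) 1).ph := by
    rcases Nat.lt_or_ge j 5 with h1 | h1
    · refine ⟨1, h.enter_lt h1, ?_⟩
      show 1 = if j + 1 = 0 then 0 else if j + 1 < 6 then 1 else 2
      rw [if_neg (by omega), if_pos (by omega)]
    · obtain rfl : j = 5 := by omega
      exact ⟨2, h.enter_five, rfl⟩
  obtain ⟨ph', h1, h2⟩ := hent
  have hm3 : msk (lets b k0 j 2) ||| 2 ^ (c (j + 1)).val = msk (lets b k0 j 3) := by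
    rw [← he1, ← msk_append_one, ← lets_succ j 2 (fun h3 => by have := h0 h3; omega)]
  unfold scE
  simp only [h1]
  rw [if_pos]
  · congr 1
    have hv := h.vis_succ (k0 := k0) (k := 2) hj
    have hv' : (stAt c b k0 (j + 1) 2).vis = (stAt c b k0 (j + 1) 1).vis := rfl
    rw [hv, hv', h2]
    have e1 : (stAt c b k0 j 2).x0 = (stAt c b k0 (j + 1) 1).x0 := rfl
    have e2 : (if (stAt c b k0 j 2).ph = 0 then (stAt c b k0 j 2).m0 ||| 2 ^ (c (j + 1)).val
        else (stAt c b k0 j 2).m0) = (stAt c b k0 (j + 1) 1).m0 := by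
      show (if (if j = 0 then 0 else if j < 6 then 1 else 2) = 0 then
        msk (lets b k0 0 (if j = 0 then 2 else 3)) ||| 2 ^ (c (j + 1)).val
        else msk (lets b k0 0 (if j = 0 then 2 else 3))) =
        msk (lets b k0 0 (if j + 1 = 0 then 1 else 3))
      rw [if_neg (show j + 1 ≠ 0 by omega)]
      by_cases hj0 : j = 0
      · subst hj0
        simpa using hm3
      · have hne : ¬ (if j = 0 then 0 else if j < 6 then 1 else 2 : ℕ) = 0 := by
          rw [if_neg hj0]; split_ifs <;> norm_num
        refine (if_neg hne).trans ?_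
        rw [if_neg hj0]
    have e3 : 2 ^ (c j).val ||| 2 ^ (b (j + 1) 1).val = (stAt c b k0 (j + 1) 1).nb := by
      show _ = msk (lets b k0 (j + 1) 1)
      unfold lets
      rw [if_neg (show j + 1 ≠ 0 by omega)]
      show _ = msk [b (j + 1) 0, b (j + 1) 1]
      rw [he2]
      simp [msk]
    rw [e1, e2]
    show Sc.mk _ _ _ _ (c (j + 1)) (2 ^ (c j).val ||| 2 ^ (b (j + 1) 1).val) = _
    rw [e3]
    rfl
  · refine ⟨?_, ?_, ?_, h.b_adj _ 1 (by norm_num), ?_, ?_⟩
    · show adjL (c j) (c (j + 1)) = true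
      rw [← he1]
      exact h.b_adj _ 3 (by norm_num)
    · show (msk (lets b k0 j 2)).testBit _ = false
      rw [testBit_msk, decide_eq_false_iff_not, mem_lets]
      rintro ⟨i, h4, -, h7⟩
      have h8 : b j i = b j 3 := by rw [h7, he1]
      have := h.b_inj j i (by omega) 3 (by norm_num) h8
      omega
    · intro h3
      have hj0 : j ≠ 0 := by
        rintro rfl
        exact absurd h3 (by show (0 : ℕ) ≠ 1; norm_num)
      show msk (lets b k0 j 2) ||| 2 ^ (c (j + 1)).val = nbm (c j)
      rw [hm3]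
      exact h.nb_full hj0
    · show b (j + 1) 1 ≠ c j
      intro h3
      rw [← he2] at h3
      have := h.b_inj (j + 1) 1 (by norm_num) 0 (by norm_num) h3
      omega
    · intro h3
      rw [h2] at h3
      have hj5 : j = 5 := by
        by_contra hne
        have : (stAt c b k0 (j + 1) 1).ph = 1 := by
          show (if j + 1 = 0 then 0 else if j + 1 < 6 then 1 else 2) = 1
          rw [if_neg (by omega), if_pos (by omega)]
        omega
      subst hj5
      have key : ∀ l, l < 2 → (msk (lets b k0 0 3)).testBit (b 6 l).val = false := by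
        intro l hl
        rw [testBit_msk, decide_eq_false_iff_not, mem_lets]
        rintro ⟨i, h4, h5, h7⟩
        rw [h.b6] at h7
        have := h.b_inj 0 i (by omega) l (by omega) h7
        have := h5 rfl
        have := h6 rfl
        omega
      refine ⟨key 1 (by norm_num), ?_⟩
      show (msk (lets b k0 0 3)).testBit (c 5).val = false
      have := key 0 (by norm_num)
      rw [he2] at this
      exact this

include h in
/-- Closing inside the initial block. -/
theorem closeP {k : ℕ} (hk : k + 1 = k0) (hk0 : k0 < 4) :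
    scCloseP (stAt c b k0 6 k) = true := by
  unfold scCloseP
  refine decide_eq_true ⟨rfl, ?_⟩
  show msk (lets b k0 6 k) ||| msk (lets b k0 0 3) = nbm (c 0)
  rw [← h.full (j := 0)]
  have happ : ∀ l l' : List (Fin 7), msk l ||| msk l' = msk (l ++ l') := by
    intro l l'
    induction l with
    | nil => simp [msk]
    | cons a l ih => rw [List.cons_append, msk, msk, ← ih, Nat.or_assoc]
  rw [happ]
  refine msk_congr fun x => ?_
  simp only [List.mem_append, mem_lets, List.mem_cons, List.not_mem_nil, or_false]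
  constructor
  · rintro (⟨i, h1, -, h3⟩ | ⟨i, h1, -, h3⟩)
    · rw [h.b6] at h3
      have : i < 4 := by omega
      interval_cases i <;> simp [← h3]
    · have : i < 4 := by omega
      interval_cases i <;> simp [← h3]
  · have key : ∀ i < 4, x = b 0 i →
        (∃ i, i ≤ k ∧ (6 = 0 → k0 ≤ i) ∧ b 6 i = x) ∨ ∃ i, i ≤ 3 ∧ (True → k0 ≤ i) ∧ b 0 i = x := by
      intro i hi hx
      rcases Nat.lt_or_ge i k0 with h1 | h1
      · exact Or.inl ⟨i, by omega, fun h2 => by omega, by rw [h.b6, hx]⟩
      · exact Or.inr ⟨i, by omega, fun _ => h1, hx.symm⟩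
    rintro (h1 | h1 | h1 | h1)
    · exact key 0 (by norm_num) h1
    · exact key 1 (by norm_num) h1
    · exact key 2 (by norm_num) h1
    · exact key 3 (by norm_num) h1

include h in
theorem init_full (hk0 : k0 = 0) : msk (lets b k0 0 3) = nbm (c 0) := by
  subst hk0
  rw [← h.full (j := 0)]
  rfl

include h in
/-- Closing with a gap without edge. -/
theorem closeS (hk0 : k0 = 0) : scCloseS (stAt c b k0 5 3) = true := by
  unfold scCloseS
  refine decide_eq_true ⟨rfl, h.vis_all, h.nb_full (by norm_num), ?_⟩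
  exact h.init_full hk0

include h in
/-- Closing with an `E` gap. -/
theorem closeE (hk0 : k0 = 1) (he1 : b 5 3 = c 6) (he2 : b 6 0 = c 5) :
    scCloseE (stAt c b k0 5 2) = true := by
  subst hk0
  rw [h.c6] at he1
  rw [h.b6] at he2
  have hm3 : msk (lets b 1 5 2) ||| 2 ^ (c 0).val = msk (lets b 1 5 3) := by
    rw [← he1, ← msk_append_one, ← lets_succ 5 2 (fun h3 => by omega)]
  unfold scCloseE
  refine decide_eq_true ⟨rfl, h.vis_all, ?_, ?_, ?_, ?_, ?_⟩
  · show adjL (c 5) (c 0) = true
    rw [← he1]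
    exact h.b_adj _ 3 (by norm_num)
  · show (msk (lets b 1 5 2)).testBit (c 0).val = false
    rw [testBit_msk, decide_eq_false_iff_not, mem_lets]
    rintro ⟨i, h4, -, h7⟩
    have h8 : b 5 i = b 5 3 := by rw [h7, he1]
    have := h.b_inj 5 i (by omega) 3 (by norm_num) h8
    omega
  · show msk (lets b 1 5 2) ||| 2 ^ (c 0).val = nbm (c 5)
    rw [hm3]
    exact h.nb_full (by norm_num)
  · show (msk (lets b 1 0 3)).testBit (c 5).val = false
    rw [testBit_msk, decide_eq_false_iff_not, mem_lets]
    rintro ⟨i, h4, h5, h7⟩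
    have h8 : b 0 i = b 0 0 := by rw [h7, he2]
    have := h.b_inj 0 i (by omega) 0 (by norm_num) h8
    have := h5 rfl
    omega
  · show msk (lets b 1 0 3) ||| 2 ^ (c 5).val = nbm (c 0)
    rw [← he2, ← h.full (j := 0)]
    rw [← msk_append_one]
    refine msk_congr fun x => ?_
    show x ∈ [b 0 1, b 0 2, b 0 3] ++ [b 0 0] ↔ _
    simp only [List.mem_append, List.mem_cons, List.not_mem_nil, or_false]
    tauto

end GoodWord

end

end Pool.Agent.Lib.MP_5854e1_co
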