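import Pool.Agent.Lib.MP_5854e1_co.StripD
import Pool.Agent.Lib.MP_5854e1_co.Scan

/-!
# The scanner accepts the cells of a model
-/

set_option autoImplicit false

open Equiv Equiv.Perm

namespace Pool.Agent.Lib.MP_5854e1_co

open Model24 (Kind)

/-- One step of the scanner. -/
def scStep (σ : Sc) (κ : Kind) (p : Fin 7 × Fin 7) : Option Sc :=
  match κ with
  | Kind.P => scP σ p
  | Kind.S => scS σ p
  | Kind.E => scE σ p

/-- The scan closes with a corner of the given kind. -/
def scClose (σ : Sc) (κ : Kind) : Bool :=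
  match κ with
  | Kind.P => scCloseP σ
  | Kind.S => scCloseS σ
  | Kind.E => scCloseE σ

/-- Scanning a list of corners and darts. -/
def scRun : Sc → List (Kind × (Fin 7 × Fin 7)) → Option Sc
  | σ, [] => some σ
  | σ, q :: l => match scStep σ q.1 q.2 with
    | none => none
    | some τ => scRun τ l

theorem scRun_append (σ : Sc) (l l' : List (Kind × (Fin 7 × Fin 7))) :
    scRun σ (l ++ l') = (scRun σ l).bind fun τ => scRun τ l' := by
  induction l generalizing σ with
  | nil => rfl
  | cons q l ih =>
    rw [List.cons_append, scRun, scRun]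
    cases scStep σ q.1 q.2 with
    | none => rfl
    | some τ => exact ih τ

theorem adjL_of_adj : ∀ x y : Fin 7, x ≠ 0 → y ≠ 0 → K1222.Adj x y → adjL x y = true := by
  decide

theorem adj_of_adjL : ∀ x y : Fin 7, x ≠ 0 → adjL x y = true → y ≠ 0 ∧ K1222.Adj x y := by
  decide

namespace Model24

variable {D : Type*} {M : Model24 D}

theorem IsWord.goodWord {s : D} {c : ℕ → Fin 7} {b : ℕ → ℕ → Fin 7} (h : M.IsWord s c b) :
    GoodWord c b where
  c6 := h.c_per 0
  b6 k := h.b_per 0 k
  c_ne := h.c_ne
  c_inj := h.c_inj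
  b_adj j k hk := adjL_of_adj _ _ (h.c_ne j) (h.b_ne j k hk) (h.b_adj j k hk)
  b_inj := h.b_inj

/-- The dart after an outer dart, by the kind of the corner. -/
theorem IsWord.next_cases {s : D} {c : ℕ → Fin 7} {b : ℕ → ℕ → Fin 7} (h : M.IsWord s c b)
    {d : D} {j k : ℕ} (hk : k < 4) (hd : d = M.nxt^[4 * j + k] s) :
    (k < 3 ∧ M.kind d = Kind.P ∧ M.onxt d = M.nxt^[4 * j + (k + 1)] s) ∨
    (k = 3 ∧ M.kind d = Kind.S ∧ M.onxt d = M.nxt^[4 * (j + 1) + 0] s) ∨
    (k = 2 ∧ M.kind d = Kind.E ∧ M.onxt d = M.nxt^[4 * (j + 1) + 1] s ∧ b j 3 = c (j + 1) ∧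
      b (j + 1) 0 = c j ∧ M.EStart (M.nxt^[4 * j + 3] s)) := by
  have hn : M.nxt d = M.nxt^[4 * j + k + 1] s := by rw [hd, Function.iterate_succ_apply']
  by_cases hE : M.EStart (M.nxt d)
  · refine Or.inr (Or.inr ?_)
    have hk2 : k = 2 := by
      rcases Nat.lt_or_ge k 3 with h1 | h1
      · have h2 := (h.eStart (j := j) (k := k + 1) (by omega) (by rw [← add_assoc, ← hn]; exact hE)).1
        omega
      · obtain rfl : k = 3 := by omega
        have h2 := (h.eStart (j := j + 1) (k := 0) (by norm_num)
          (by rw [show 4 * (j + 1) + 0 = 4 * j + 3 + 1 by ring, ← hn]; exact hE)).1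
        omega
    subst hk2
    have hE' : M.EStart (M.nxt^[4 * j + 3] s) := by
      rw [show 4 * j + 3 = 4 * j + 2 + 1 by ring, ← hn]
      exact hE
    have h2 := h.eStart (j := j) (k := 3) (by norm_num) hE'
    refine ⟨rfl, ?_, ?_, h2.2.1, h2.2.2, hE'⟩
    · unfold kind
      rw [if_pos hE]
    · unfold onxt
      rw [if_pos hE, hn, ← Function.iterate_succ_apply' M.nxt, ← Function.iterate_succ_apply' M.nxt]
      rfl
  · have h1 : M.onxt d = M.nxt d := by unfold onxt; rw [if_neg hE]
    rcases Nat.lt_or_ge k 3 with h2 | h2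
    · refine Or.inl ⟨h2, ?_, by rw [h1, hn, add_assoc]⟩
      unfold kind
      rw [if_neg hE, hn, hd, h.word j k hk, add_assoc, h.word j (k + 1) (by omega), if_pos rfl]
    · obtain rfl : k = 3 := by omega
      refine Or.inr (Or.inl ⟨rfl, ?_, by rw [h1, hn]; congr 1⟩)
      unfold kind
      rw [if_neg hE, hn, hd, h.word j 3 hk, show 4 * j + 3 + 1 = 4 * (j + 1) + 0 by ring,
        h.word (j + 1) 0 (by norm_num), if_neg]
      intro h3
      have := h.c_inj' h3
      omega

/-- The dart `d` has the place `(j, k)` in the scan which begins at the letter `k0` of block `0`. -/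
structure Place (M : Model24 D) (s : D) (k0 : ℕ) (d : D) (j k : ℕ) : Prop where
  k4 : k < 4
  j6 : j ≤ 6
  lo : j = 0 → k0 ≤ k
  hi : j = 6 → k < k0
  eq : d = M.nxt^[4 * j + k] s

variable {s : D} {c : ℕ → Fin 7} {b : ℕ → ℕ → Fin 7} {k0 : ℕ}

/-- One step of the scan of a cell: either the scan goes on or it closes. -/
theorem IsWord.scan_step (h : M.IsWord s c b) (hk0 : k0 < 4) (h0 : M.Outer (M.nxt^[k0] s)) {d : D}
    {j k : ℕ} (hp : Place M s k0 d j k) :
    (∃ j' k', Place M s k0 (M.onxt d) j' k' ∧ 4 * j + k < 4 * j' + k' ∧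
      scStep (stAt c b k0 j k) (M.kind d) (M.lab (M.onxt d)) = some (stAt c b k0 j' k')) ∨
    (M.onxt d = M.nxt^[k0] s ∧ scClose (stAt c b k0 j k) (M.kind d) = true) := by
  have hg := h.goodWord
  have h24 : ∀ i, M.nxt^[i + 24] s = M.nxt^[i] s := fun i => iterate_add_24 i s
  rcases h.next_cases hp.k4 hp.eq with ⟨h1, h2, h3⟩ | ⟨h1, h2, h3⟩ | ⟨h1, h2, h3, h4, h5, h6⟩
  · by_cases hc : j = 6 ∧ k + 1 = k0
    · obtain ⟨rfl, hk⟩ := hc
      refine Or.inr ⟨?_, ?_⟩
      · rw [h3, show 4 * 6 + (k + 1) = k0 + 24 by omega, h24]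
      · rw [h2]
        exact hg.closeP hk hk0
    · refine Or.inl ⟨j, k + 1, ⟨by omega, hp.j6, fun e => by have := hp.lo e; omega,
        fun e => by have := hp.hi e; omega, h3⟩, by omega, ?_⟩
      rw [h3, h2, h.word j (k + 1) (by omega)]
      exact hg.stepP (by omega) hp.j6 hp.lo (fun e => by have := hp.hi e; omega) hk0
  · subst h1
    have hj : j < 6 := by
      by_contra hj
      have e : j = 6 := by have := hp.j6; omega
      have := hp.hi e
      omega
    by_cases hc : j = 5 ∧ k0 = 0
    · obtain ⟨rfl, hk⟩ := hc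
      refine Or.inr ⟨?_, ?_⟩
      · rw [h3, show 4 * (5 + 1) + 0 = k0 + 24 by omega, h24]
      · rw [h2]
        exact hg.closeS hk
    · refine Or.inl ⟨j + 1, 0, ⟨by omega, by omega, fun e => by omega, fun e => by omega, h3⟩,
        by omega, ?_⟩
      rw [h3, h2, h.word (j + 1) 0 (by omega)]
      exact hg.stepS hj (fun e => by omega) hk0
  · subst h1
    -- the end of the `E` gap
    have hEnd : M.EEnd (M.nxt^[4 * (j + 1) + 0] s) := by
      rw [show 4 * (j + 1) + 0 = 4 * j + 3 + 1 by ring, Function.iterate_succ_apply']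
      exact h6.eEnd_nxt
    have hj : j < 6 := by
      by_contra hj
      have e : j = 6 := by have := hp.j6; omega
      have h7 := hp.hi e
      have h8 : k0 = 3 := by omega
      subst e
      rw [show 4 * 6 + 3 = k0 + 24 by omega, h24] at h6
      exact h0.1 h6
    by_cases hc : j = 5 ∧ k0 = 1
    · obtain ⟨rfl, hk⟩ := hc
      refine Or.inr ⟨?_, ?_⟩
      · rw [h3, show 4 * (5 + 1) + 1 = k0 + 24 by omega, h24]
      · rw [h2]
        exact hg.closeE hk h4 h5
    · have hk00 : j = 5 → k0 ≠ 0 := by
        rintro rfl rfl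
        rw [show 4 * (5 + 1) + 0 = 0 + 24 by norm_num, h24] at hEnd
        exact h0.2 hEnd
      refine Or.inl ⟨j + 1, 1, ⟨by omega, by omega, fun e => by omega,
        fun e => by have := hk00 (by omega); omega, h3⟩, by omega, ?_⟩
      rw [h3, h2, h.word (j + 1) 1 (by omega)]
      refine hg.stepE hj h4 h5 (fun e => by have := hp.lo e; omega)
        (fun e => by have := hk00 e; omega) hk0

variable (M) in
/-- The state of the scan from `d0` after `i` steps. -/
noncomputable def scanAt (d0 : M.ODart) : ℕ → Option Sc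
  | 0 => some (scInit (M.lab d0.1))
  | i + 1 => (scanAt d0 i).bind fun σ =>
      scStep σ (M.kind (M.onx^[i] d0).1) (M.lab (M.onx^[i + 1] d0).1)

theorem stAt_zero : stAt c b k0 0 k0 = scInit (c 0, b 0 k0) := by
  have h1 : lets b k0 0 k0 = [b 0 k0] := by
    unfold lets
    rw [if_pos rfl, List.range_succ, List.filter_append]
    have : (List.range k0).filter (fun x => decide (k0 ≤ x)) = [] := by
      rw [List.filter_eq_nil_iff]
      intro a ha
      have := List.mem_range.1 ha
      simp only [decide_eq_true_eq]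
      omega
    rw [this]
    simp
  unfold stAt scInit
  rw [if_pos rfl, h1, if_pos rfl]
  simp [msk]

section

variable [Finite D]

/-- The scan of a cell from an outer dart never fails, closes at the end, and takes at least
twelve steps. -/
theorem scan_cell (d0 : M.ODart) :
    (∀ i < Function.minimalPeriod M.onx d0, ∃ σ, scanAt M d0 i = some σ) ∧
    (∃ σ, scanAt M d0 (Function.minimalPeriod M.onx d0 - 1) = some σ ∧
      scClose σ (M.kind (M.onx^[Function.minimalPeriod M.onx d0 - 1] d0).1) = true) ∧
    12 ≤ Function.minimalPeriod M.onx d0 := by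
  obtain ⟨s, k0, c, b, hk0, hs, hw⟩ := exists_word (M := M) d0.1
  have hout : M.Outer (M.nxt^[k0] s) := by rw [hs]; exact d0.2
  set p := Function.minimalPeriod M.onx d0 with hp
  have hp0 : 0 < p := minimalPeriod_pos' M.onx d0
  have hpp : M.onx^[p] d0 = d0 := Function.isPeriodicPt_minimalPeriod M.onx d0
  have key : ∀ i < p, ∃ j k, Place M s k0 (M.onx^[i] d0).1 j k ∧
      scanAt M d0 i = some (stAt c b k0 j k) ∧
      4 * j + k ≤ k0 + 2 * i + (if k = 1 then 1 else 0) := by
    intro i
    induction i with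
    | zero =>
      intro _
      refine ⟨0, k0, ⟨hk0, by norm_num, fun _ => le_rfl, fun h => by omega, ?_⟩, ?_, by omega⟩
      · show d0.1 = _
        rw [← hs]
        simp
      · show some (scInit (M.lab d0.1)) = _
        have h1 := hw.word 0 k0 hk0
        rw [mul_zero, zero_add, hs] at h1
        rw [stAt_zero, h1]
    | succ i ih =>
      intro hi
      obtain ⟨j, k, h1, h2, h3⟩ := ih (by omega)
      rcases hw.scan_step hk0 hout h1 with ⟨j', k', h4, h5, h6⟩ | ⟨h4, -⟩
      · refine ⟨j', k', ?_, ?_, ?_⟩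
        · rw [Function.iterate_succ_apply']
          exact h4
        · show (scanAt M d0 i).bind _ = _
          rw [h2, Function.iterate_succ_apply']
          exact h6
        · -- the index grows by one, or by three from the letter 2 to the letter 1
          have h7 := hw.next_cases h1.k4 h1.eq
          have h8 : ∀ m, M.onxt (M.onx^[i] d0).1 = M.nxt^[m] s → m % 24 = (4 * j' + k') % 24 := by
            intro m hm
            rw [h4.eq] at hm
            exact (hw.lab_inj (congrArg M.lab hm)).symm
          have hr' : 4 * j' + k' < 24 + k0 := by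
            have := h4.j6
            rcases Nat.lt_or_ge j' 6 with h | h
            · have := h4.k4; omega
            · have := h4.hi (by omega); omega
          have hlo : k0 ≤ 4 * j + k := by
            rcases Nat.eq_zero_or_pos j with h | h
            · have := h1.lo h; omega
            · omega
          rcases h7 with ⟨e1, -, e3⟩ | ⟨e1, -, e3⟩ | ⟨e1, -, e3, -⟩
          · have := h8 _ e3
            have h9 : 4 * j' + k' = 4 * j + (k + 1) := by omega
            split_ifs at h3 ⊢ <;> omega
          · have := h8 _ e3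
            have h9 : 4 * j' + k' = 4 * (j + 1) + 0 := by omega
            split_ifs at h3 ⊢ <;> omega
          · have := h8 _ e3
            have h9 : 4 * j' + k' = 4 * (j + 1) + 1 := by omega
            have h10 : k' = 1 := by have := h4.k4; omega
            split_ifs at h3 ⊢ <;> omega
      · exfalso
        have h5 : M.onx^[i + 1] d0 = d0 := by
          apply Subtype.ext
          rw [Function.iterate_succ_apply', onx_coe, h4, hs]
        have h6 : Function.IsPeriodicPt M.onx (i + 1) d0 := h5
        have h7 := h6.minimalPeriod_le (Nat.succ_pos i)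
        omega
  refine ⟨fun i hi => ?_, ?_, ?_⟩
  · obtain ⟨j, k, -, h2, -⟩ := key i hi
    exact ⟨_, h2⟩
  · obtain ⟨j, k, h1, h2, -⟩ := key (p - 1) (by omega)
    refine ⟨_, h2, ?_⟩
    rcases hw.scan_step hk0 hout h1 with ⟨j', k', h4, h5, -⟩ | ⟨-, h4⟩
    · exfalso
      have h6 : M.onxt (M.onx^[p - 1] d0).1 = d0.1 := by
        rw [← onx_coe, ← Function.iterate_succ_apply' M.onx, Nat.succ_eq_add_one,
          Nat.sub_add_cancel hp0, hpp]
      have h7 := h4.eq
      rw [h6, ← hs] at h7
      have h8 := hw.lab_inj (congrArg M.lab h7)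
      have h9 : 4 * j' + k' < 24 + k0 := by
        have := h4.j6
        rcases Nat.lt_or_ge j' 6 with h | h
        · have := h4.k4; omega
        · have := h4.hi (by omega); omega
      have h10 : k0 ≤ 4 * j + k := by
        rcases Nat.eq_zero_or_pos j with h | h
        · have := h1.lo h; omega
        · omega
      omega
    · exact h4
  · -- the number of steps
    obtain ⟨j, k, h1, h2, h3⟩ := key (p - 1) (by omega)
    have h6 : M.onxt (M.onx^[p - 1] d0).1 = d0.1 := by
      rw [← onx_coe, ← Function.iterate_succ_apply' M.onx, Nat.succ_eq_add_one,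
        Nat.sub_add_cancel hp0, hpp]
    have h8 : ∀ m, M.onxt (M.onx^[p - 1] d0).1 = M.nxt^[m] s → m % 24 = k0 % 24 := by
      intro m hm
      rw [h6, ← hs] at hm
      exact (hw.lab_inj (congrArg M.lab hm)).symm
    have h10 : k0 ≤ 4 * j + k := by
      rcases Nat.eq_zero_or_pos j with h | h
      · have := h1.lo h; omega
      · omega
    rcases hw.next_cases h1.k4 h1.eq with ⟨e1, -, e3⟩ | ⟨e1, -, e3⟩ | ⟨e1, -, e3, -⟩
    · have := h8 _ e3
      split_ifs at h3 <;> omega
    · have := h8 _ e3
      split_ifs at h3 <;> omega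
    · have := h8 _ e3
      split_ifs at h3 <;> omega

end

end Model24

end Pool.Agent.Lib.MP_5854e1_co
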