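import Pool.Agent.Lib.MP_5854e1_co.Rot24

/-!
# The shapes of the strips

The 101 strips whose first label is `(1, 3)`.
-/

set_option autoImplicit false

open Equiv Equiv.Perm

namespace Pool.Agent.Lib.MP_5854e1_co

open Model24 (Kind)

/-- The kinds. -/
def kinds : List Kind := [Kind.P, Kind.E, Kind.S]

theorem mem_kinds (κ : Kind) : κ ∈ kinds := kind_mem κ

/-- The shapes. -/
def shpL : List Strip :=
  [((1, 3), []),
   ((1, 3), [((Kind.P, Kind.S), (1, 4))]),
   ((1, 3), [((Kind.P, Kind.S), (1, 4)), ((Kind.E, Kind.P), (5, 4))]),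
   ((1, 3), [((Kind.P, Kind.S), (1, 4)), ((Kind.E, Kind.P), (6, 4))]),
   ((1, 3), [((Kind.P, Kind.S), (1, 4)), ((Kind.S, Kind.P), (2, 4))]),
   ((1, 3), [((Kind.P, Kind.S), (1, 4)), ((Kind.S, Kind.P), (5, 4))]),
   ((1, 3), [((Kind.P, Kind.S), (1, 4)), ((Kind.S, Kind.P), (6, 4))]),
   ((1, 3), [((Kind.P, Kind.E), (1, 5))]),
   ((1, 3), [((Kind.P, Kind.E), (1, 5)), ((Kind.E, Kind.P), (4, 5))]),
   ((1, 3), [((Kind.P, Kind.E), (1, 5)), ((Kind.E, Kind.P), (4, 5)), ((Kind.P, Kind.E), (4, 2))]),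
   ((1, 3), [((Kind.P, Kind.E), (1, 5)), ((Kind.E, Kind.P), (4, 5)), ((Kind.P, Kind.E), (4, 2)), ((Kind.E, Kind.P), (6, 2))]),
   ((1, 3), [((Kind.P, Kind.E), (1, 5)), ((Kind.S, Kind.P), (2, 5))]),
   ((1, 3), [((Kind.P, Kind.E), (1, 5)), ((Kind.S, Kind.P), (2, 5)), ((Kind.P, Kind.E), (2, 4))]),
   ((1, 3), [((Kind.P, Kind.E), (1, 5)), ((Kind.S, Kind.P), (4, 5))]),
   ((1, 3), [((Kind.P, Kind.E), (1, 5)), ((Kind.S, Kind.P), (4, 5)), ((Kind.P, Kind.E), (4, 2))]),
   ((1, 3), [((Kind.P, Kind.S), (1, 5))]),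
   ((1, 3), [((Kind.P, Kind.S), (1, 5)), ((Kind.E, Kind.P), (4, 5))]),
   ((1, 3), [((Kind.P, Kind.S), (1, 5)), ((Kind.S, Kind.P), (2, 5))]),
   ((1, 3), [((Kind.P, Kind.S), (1, 5)), ((Kind.S, Kind.P), (3, 5))]),
   ((1, 3), [((Kind.P, Kind.S), (1, 5)), ((Kind.S, Kind.P), (4, 5))]),
   ((1, 3), [((Kind.P, Kind.E), (1, 6))]),
   ((1, 3), [((Kind.P, Kind.E), (1, 6)), ((Kind.E, Kind.P), (4, 6))]),
   ((1, 3), [((Kind.P, Kind.E), (1, 6)), ((Kind.E, Kind.P), (4, 6)), ((Kind.P, Kind.E), (4, 2))]),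
   ((1, 3), [((Kind.P, Kind.E), (1, 6)), ((Kind.E, Kind.P), (4, 6)), ((Kind.P, Kind.E), (4, 2)), ((Kind.E, Kind.P), (5, 2))]),
   ((1, 3), [((Kind.P, Kind.E), (1, 6)), ((Kind.S, Kind.P), (2, 6))]),
   ((1, 3), [((Kind.P, Kind.E), (1, 6)), ((Kind.S, Kind.P), (2, 6)), ((Kind.P, Kind.E), (2, 4))]),
   ((1, 3), [((Kind.P, Kind.E), (1, 6)), ((Kind.S, Kind.P), (4, 6))]),
   ((1, 3), [((Kind.P, Kind.E), (1, 6)), ((Kind.S, Kind.P), (4, 6)), ((Kind.P, Kind.E), (4, 2))]),
   ((1, 3), [((Kind.P, Kind.S), (1, 6))]),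
   ((1, 3), [((Kind.P, Kind.S), (1, 6)), ((Kind.E, Kind.P), (4, 6))]),
   ((1, 3), [((Kind.P, Kind.S), (1, 6)), ((Kind.S, Kind.P), (2, 6))]),
   ((1, 3), [((Kind.P, Kind.S), (1, 6)), ((Kind.S, Kind.P), (3, 6))]),
   ((1, 3), [((Kind.P, Kind.S), (1, 6)), ((Kind.S, Kind.P), (4, 6))]),
   ((1, 3), [((Kind.E, Kind.E), (4, 2))]),
   ((1, 3), [((Kind.E, Kind.S), (4, 2))]),
   ((1, 3), [((Kind.E, Kind.E), (4, 5))]),
   ((1, 3), [((Kind.E, Kind.S), (4, 5))]),
   ((1, 3), [((Kind.E, Kind.E), (4, 6))]),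
   ((1, 3), [((Kind.E, Kind.S), (4, 6))]),
   ((1, 3), [((Kind.E, Kind.E), (5, 2))]),
   ((1, 3), [((Kind.E, Kind.S), (5, 2))]),
   ((1, 3), [((Kind.E, Kind.P), (5, 3))]),
   ((1, 3), [((Kind.E, Kind.P), (5, 3)), ((Kind.P, Kind.E), (5, 2))]),
   ((1, 3), [((Kind.E, Kind.P), (5, 3)), ((Kind.P, Kind.E), (5, 2)), ((Kind.E, Kind.P), (4, 2))]),
   ((1, 3), [((Kind.E, Kind.P), (5, 3)), ((Kind.P, Kind.E), (5, 2)), ((Kind.E, Kind.P), (4, 2)), ((Kind.P, Kind.E), (4, 6))]),
   ((1, 3), [((Kind.E, Kind.P), (5, 3)), ((Kind.P, Kind.S), (5, 2))]),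
   ((1, 3), [((Kind.E, Kind.P), (5, 3)), ((Kind.P, Kind.S), (5, 2)), ((Kind.E, Kind.P), (4, 2))]),
   ((1, 3), [((Kind.E, Kind.P), (5, 3)), ((Kind.P, Kind.S), (5, 4))]),
   ((1, 3), [((Kind.E, Kind.P), (5, 3)), ((Kind.P, Kind.S), (5, 4)), ((Kind.E, Kind.P), (2, 4))]),
   ((1, 3), [((Kind.E, Kind.S), (5, 4))]),
   ((1, 3), [((Kind.E, Kind.E), (6, 2))]),
   ((1, 3), [((Kind.E, Kind.S), (6, 2))]),
   ((1, 3), [((Kind.E, Kind.P), (6, 3))]),
   ((1, 3), [((Kind.E, Kind.P), (6, 3)), ((Kind.P, Kind.E), (6, 2))]),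
   ((1, 3), [((Kind.E, Kind.P), (6, 3)), ((Kind.P, Kind.E), (6, 2)), ((Kind.E, Kind.P), (4, 2))]),
   ((1, 3), [((Kind.E, Kind.P), (6, 3)), ((Kind.P, Kind.E), (6, 2)), ((Kind.E, Kind.P), (4, 2)), ((Kind.P, Kind.E), (4, 5))]),
   ((1, 3), [((Kind.E, Kind.P), (6, 3)), ((Kind.P, Kind.S), (6, 2))]),
   ((1, 3), [((Kind.E, Kind.P), (6, 3)), ((Kind.P, Kind.S), (6, 2)), ((Kind.E, Kind.P), (4, 2))]),
   ((1, 3), [((Kind.E, Kind.P), (6, 3)), ((Kind.P, Kind.S), (6, 4))]),
   ((1, 3), [((Kind.E, Kind.P), (6, 3)), ((Kind.P, Kind.S), (6, 4)), ((Kind.E, Kind.P), (2, 4))]),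
   ((1, 3), [((Kind.E, Kind.S), (6, 4))]),
   ((1, 3), [((Kind.S, Kind.P), (2, 3))]),
   ((1, 3), [((Kind.S, Kind.P), (2, 3)), ((Kind.P, Kind.S), (2, 4))]),
   ((1, 3), [((Kind.S, Kind.P), (2, 3)), ((Kind.P, Kind.E), (2, 5))]),
   ((1, 3), [((Kind.S, Kind.P), (2, 3)), ((Kind.P, Kind.S), (2, 5))]),
   ((1, 3), [((Kind.S, Kind.P), (2, 3)), ((Kind.P, Kind.E), (2, 6))]),
   ((1, 3), [((Kind.S, Kind.P), (2, 3)), ((Kind.P, Kind.S), (2, 6))]),
   ((1, 3), [((Kind.S, Kind.S), (2, 4))]),
   ((1, 3), [((Kind.S, Kind.E), (2, 5))]),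
   ((1, 3), [((Kind.S, Kind.S), (2, 5))]),
   ((1, 3), [((Kind.S, Kind.E), (2, 6))]),
   ((1, 3), [((Kind.S, Kind.S), (2, 6))]),
   ((1, 3), [((Kind.S, Kind.S), (3, 1))]),
   ((1, 3), [((Kind.S, Kind.S), (3, 2))]),
   ((1, 3), [((Kind.S, Kind.S), (3, 5))]),
   ((1, 3), [((Kind.S, Kind.S), (3, 6))]),
   ((1, 3), [((Kind.S, Kind.S), (4, 1))]),
   ((1, 3), [((Kind.S, Kind.E), (4, 2))]),
   ((1, 3), [((Kind.S, Kind.S), (4, 2))]),
   ((1, 3), [((Kind.S, Kind.E), (4, 5))]),
   ((1, 3), [((Kind.S, Kind.S), (4, 5))]),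
   ((1, 3), [((Kind.S, Kind.E), (4, 6))]),
   ((1, 3), [((Kind.S, Kind.S), (4, 6))]),
   ((1, 3), [((Kind.S, Kind.S), (5, 1))]),
   ((1, 3), [((Kind.S, Kind.E), (5, 2))]),
   ((1, 3), [((Kind.S, Kind.S), (5, 2))]),
   ((1, 3), [((Kind.S, Kind.P), (5, 3))]),
   ((1, 3), [((Kind.S, Kind.P), (5, 3)), ((Kind.P, Kind.S), (5, 1))]),
   ((1, 3), [((Kind.S, Kind.P), (5, 3)), ((Kind.P, Kind.E), (5, 2))]),
   ((1, 3), [((Kind.S, Kind.P), (5, 3)), ((Kind.P, Kind.S), (5, 2))]),
   ((1, 3), [((Kind.S, Kind.P), (5, 3)), ((Kind.P, Kind.S), (5, 4))]),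
   ((1, 3), [((Kind.S, Kind.S), (5, 4))]),
   ((1, 3), [((Kind.S, Kind.S), (6, 1))]),
   ((1, 3), [((Kind.S, Kind.E), (6, 2))]),
   ((1, 3), [((Kind.S, Kind.S), (6, 2))]),
   ((1, 3), [((Kind.S, Kind.P), (6, 3))]),
   ((1, 3), [((Kind.S, Kind.P), (6, 3)), ((Kind.P, Kind.S), (6, 1))]),
   ((1, 3), [((Kind.S, Kind.P), (6, 3)), ((Kind.P, Kind.E), (6, 2))]),
   ((1, 3), [((Kind.S, Kind.P), (6, 3)), ((Kind.P, Kind.S), (6, 2))]),
   ((1, 3), [((Kind.S, Kind.P), (6, 3)), ((Kind.P, Kind.S), (6, 4))]),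
   ((1, 3), [((Kind.S, Kind.S), (6, 4))])]

/-- All extensions of a shape by one digon which are accepted on both sides are shapes. -/
def chkShape (t : Strip) : Bool :=
  match scStart t with
  | none => true
  | some σ => kinds.all fun ka => allLab.all fun p =>
    match scStep σ ka p with
    | none => true
    | some _ => kinds.all fun kb =>
      match scStart (revStrip (t.1, t.2 ++ [((ka, kb), p)])) with
      | none => true
      | some _ => decide ((t.1, t.2 ++ [((ka, kb), p)]) ∈ shpL)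

theorem chkShapes : (shpL.all fun t => decide (4 ≤ t.2.length) || chkShape t) = true := by
  decide +kernel

theorem dropS_add : ∀ (i j : ℕ) (s : Strip), dropS (i + j) s = dropS j (dropS i s) := by
  intro i
  induction i with
  | zero => intro j s; rw [Nat.zero_add]; rfl
  | succ i ih =>
    rintro j ⟨p, l⟩
    cases l with
    | nil =>
      have h : ∀ n, dropS n ((p, []) : Strip) = (p, []) := by
        intro n
        cases n <;> rfl
      rw [h, h, h]
    | cons q l =>
      rw [show i + 1 + j = (i + j) + 1 by ring]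
      exact ih j (q.2, l)

theorem dropS_revAux : ∀ (l : List ((Kind × Kind) × Lb)) (p : Lb)
    (acc : List ((Kind × Kind) × Lb)), dropS l.length (revAux p l acc) = (p.swap, acc) := by
  intro l
  induction l with
  | nil => intro p acc; rfl
  | cons q l ih =>
    intro p acc
    rw [List.length_cons, dropS_add, revAux, ih]
    rfl

theorem dropS_revStrip (l l' : List ((Kind × Kind) × Lb)) : ∀ (p : Lb)
    (acc : List ((Kind × Kind) × Lb)),
    dropS l'.length (revAux p (l ++ l') acc) = revAux p l acc := by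
  induction l with
  | nil => intro p acc; exact dropS_revAux l' p acc
  | cons q l ih => intro p acc; exact ih q.2 _

theorem scStart_append (p : Lb) (l l' : List ((Kind × Kind) × Lb)) :
    scStart (p, l ++ l') = (scStart (p, l)).bind fun σ => scRun σ (l'.map fun q => (q.1.1, q.2)) := by
  unfold scStart ownToks
  rw [List.map_append, scRun_append]

theorem scRun_one (σ : Sc) (q : Kind × Lb) : scRun σ [q] = scStep σ q.1 q.2 := by
  rw [scRun]
  cases scStep σ q.1 q.2 <;> rfl

/-- The enumeration of the shapes is complete. -/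
theorem mem_shpL {s : Strip} (h1 : s.1 = (1, 3)) (hl : ∀ q ∈ s.2, q.2 ∈ allLab)
    (hn : s.2.length ≤ 4) (ho : (scStart s).isSome = true)
    (hf : ∀ i ≤ s.2.length, (scStart (dropS i (revStrip s))).isSome = true) : s ∈ shpL := by
  have key : ∀ n ≤ s.2.length, (s.1, s.2.take n) ∈ shpL := by
    intro n
    induction n with
    | zero =>
      intro _
      rw [h1]
      exact List.mem_cons_self
    | succ n ih =>
      intro hlt
      have h2 := ih (by omega)
      have hlt' : n < s.2.length := by omega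
      set q := s.2[n] with hq
      have htake : s.2.take (n + 1) = s.2.take n ++ [q] := by
        rw [List.take_succ_eq_append_getElem hlt']
      have h3 := List.all_eq_true.1 chkShapes _ h2
      rw [Bool.or_eq_true] at h3
      rcases h3 with h3 | h3
      · rw [decide_eq_true_eq] at h3
        rw [List.length_take] at h3
        omega
      unfold chkShape at h3
      have hsplit : s = (s.1, s.2.take n ++ (q :: s.2.drop (n + 1))) := by
        conv_lhs => rw [← Prod.mk.eta (p := s)]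
        refine Prod.ext rfl ?_
        show s.2 = _
        rw [← List.drop_eq_getElem_cons hlt', List.take_append_drop]
      have ho2 := ho
      rw [hsplit, scStart_append] at ho2
      cases h4 : scStart (s.1, s.2.take n) with
      | none => rw [h4] at ho2; exact absurd ho2 Bool.false_ne_true
      | some σ =>
        rw [h4] at h3 ho2
        simp only [Option.bind_some, List.map_cons] at ho2
        rw [scRun] at ho2
        have h5 := List.all_eq_true.1 (List.all_eq_true.1 h3 q.1.1 (mem_kinds _)) q.2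
          (hl q (List.getElem_mem hlt'))
        cases h6 : scStep σ q.1.1 q.2 with
        | none => rw [h6] at ho2; exact absurd ho2 Bool.false_ne_true
        | some τ =>
          rw [h6] at h5
          have h7 := List.all_eq_true.1 h5 q.1.2 (mem_kinds _)
          have h8 : revStrip (s.1, s.2.take n ++ [q]) =
              dropS (s.2.drop (n + 1)).length (revStrip s) := by
            conv_rhs => rw [hsplit]
            unfold revStrip
            show _ = dropS _ (revAux s.1 (s.2.take n ++ (q :: s.2.drop (n + 1))) [])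
            rw [show s.2.take n ++ (q :: s.2.drop (n + 1)) =
              (s.2.take n ++ [q]) ++ s.2.drop (n + 1) by simp]
            have e : (List.drop (n + 1) (s.2.take n ++ [q] ++ s.2.drop (n + 1))) =
              s.2.drop (n + 1) := by
              rw [List.append_assoc, List.singleton_append, ← List.drop_eq_getElem_cons hlt',
                List.take_append_drop]
            have e2 : ((s.1, (s.2.take n ++ [q]) ++ s.2.drop (n + 1)) : Strip).2 =
              (s.2.take n ++ [q]) ++ s.2.drop (n + 1) := rfl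
            rw [e2, e, dropS_revStrip]
          have h9 : (scStart (revStrip (s.1, s.2.take n ++ [q]))).isSome = true := by
            rw [h8]
            exact hf _ (by rw [List.length_drop]; omega)
          have h10 : ((q.1.1, q.1.2), q.2) = q := rfl
          rw [h10] at h7
          cases h11 : scStart (revStrip (s.1, s.2.take n ++ [q])) with
          | none => rw [h11] at h9; exact absurd h9 Bool.false_ne_true
          | some ρ =>
            simp only [h11] at h7
            rw [htake]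
            exact of_decide_eq_true h7
  have := key s.2.length le_rfl
  rwa [List.take_length] at this

theorem length_shpL : shpL.length = 101 := by decide +kernel

/-- The shape of index `k`. -/
def shp (k : ℕ) : Strip := shpL.getD k ((1, 3), [])

namespace SMap

variable {F : Type*} (T : SMap F)

/-- The frame of a strip end: the rotation which takes its first label to `(1, 3)`. -/
def frm (d : F) : Perm (Fin 7) := nrm (T.S d).1

theorem isLabAut_frm (d : F) : IsLabAut (T.frm d) := isLabAut_nrm _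

theorem okL_of_mem : ∀ p ∈ allLab, okL p = true := by decide +kernel

theorem okL_S (d : F) : okL (T.S d).1 = true := okL_of_mem _ (T.lab_mem d)

/-- The shape of a strip end. -/
def shape (d : F) : Strip := relS (T.frm d) (T.S d)

theorem shape_fst (d : F) : (T.shape d).1 = (1, 3) := rotL_self _ (T.okL_S d)

theorem rotL_mem_allLab : ∀ p : Lb, ∀ q ∈ allLab, rotL p q ∈ allLab := by decide +kernel

theorem shape_mem (d : F) : T.shape d ∈ shpL := by
  refine mem_shpL (T.shape_fst d) ?_ ?_ ?_ ?_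
  · intro q hq
    obtain ⟨r, hr, rfl⟩ := List.mem_map.1 hq
    exact rotL_mem_allLab _ _ (T.labs_mem d r hr)
  · unfold shape
    rw [relS_length]
    exact T.len_le d
  · obtain ⟨σ, h, -⟩ := T.scan _ (T.isLabAut_frm d) d
    unfold shape
    rw [h]
    rfl
  · intro i hi
    unfold shape at hi ⊢
    rw [relS_length] at hi
    rw [revStrip_relS, ← T.S_I]
    have h0 : (T.S (T.I d)).2.length = (T.S d).2.length := by
      rw [T.S_I]
      have key : ∀ (l : List ((Kind × Kind) × Lb)) (p : Lb) (acc : List ((Kind × Kind) × Lb)),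
          (revAux p l acc).2.length = l.length + acc.length := by
        intro l
        induction l with
        | nil => intro p acc; simp [revAux]
        | cons q l ih =>
          intro p acc
          rw [revAux, ih, List.length_cons, List.length_cons]
          ring
      exact key _ _ []
    obtain ⟨σ, h, -⟩ := T.scanFrom _ (T.isLabAut_frm d) (T.I d) i (by rw [h0]; exact hi)
    rw [h]
    rfl

/-- The index of the shape. -/
def kx (d : F) : ℕ := shpL.idxOf (T.shape d)

theorem kx_lt (d : F) : T.kx d < 101 := by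
  have := List.idxOf_lt_length_iff.2 (T.shape_mem d)
  rwa [length_shpL] at this

theorem shp_kx (d : F) : shp (T.kx d) = T.shape d := by
  have h : T.kx d < shpL.length := List.idxOf_lt_length_iff.2 (T.shape_mem d)
  unfold shp
  rw [List.getD_eq_getElem _ _ h]
  exact List.getElem_idxOf h

end SMap

end Pool.Agent.Lib.MP_5854e1_co
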