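import Pool.Agent.Lib.MP_5854e1_co.HalfReg

/-!
# Amounts moved from the triangles to the regions of their sides

A triangle with its three neighbours gives an amount, of either sign, to the region of each of its
sides. The table `ts` has a row for the window at the side; the groups and the entries of a row are
the tokens of the other two sides. An entry `v` is the amount `v / 2` if `v` is even, and the amount
`- (v / 2)` if `v` is odd.
-/

set_option autoImplicit false

open Equiv Equiv.Perm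

namespace Pool.Agent.Lib.MP_5854e1_co

open PB

noncomputable section

/-- The positive part of an entry. -/
def sgp (v : ℕ) : ℕ := Nat.mul (Nat.div v (nat_lit 2)) (Nat.sub (nat_lit 1) (Nat.mod v (nat_lit 2)))

/-- The negative part of an entry. -/
def sgn (v : ℕ) : ℕ := Nat.mul (Nat.div v (nat_lit 2)) (Nat.mod v (nat_lit 2))

theorem sgp_zero : sgp 0 = 0 := rfl

theorem sgn_zero : sgn 0 = 0 := rfl

/-! ### Maxima -/

/-- The maximum of `m` and the values of `f` at the tokens of a group. -/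
def DR.mxq (f : ℕ → ℕ) (r : DR) : ℕ → ℕ :=
  DR.rec (motive := fun _ => ℕ → ℕ) (fun m => m)
    (fun x _ _ ih m => rForce (f x) fun s => rIf (Nat.ble m s) (ih s) (ih m)) r

/-- The maximum of `m` and the values of `f` at the groups of a row. -/
def DL.mxq (f : ℕ → ℕ) (l : DL) : ℕ → ℕ :=
  DL.rec (motive := fun _ => ℕ → ℕ) (fun m => m)
    (fun x _ _ ih m => rForce (f x) fun s => rIf (Nat.ble m s) (ih s) (ih m)) l

theorem DR.le_mxq (f : ℕ → ℕ) (r : DR) : ∀ m : ℕ, m ≤ DR.mxq f r m ∧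
    ∀ x, DR.val r x ≠ 0 → f x ≤ DR.mxq f r m := by
  induction r with
  | nil => exact fun m => ⟨le_rfl, fun x h => absurd rfl h⟩
  | e y v r ih =>
    intro m
    have e1 : DR.mxq f (DR.e y v r) m = rForce (f y) fun s =>
      rIf (Nat.ble m s) (DR.mxq f r s) (DR.mxq f r m) := rfl
    have e2 : ∀ x, DR.val (DR.e y v r) x =
      Bool.rec (motive := fun _ => ℕ) (DR.val r x) v (Nat.beq y x) := fun x => rfl
    rw [e1, rForce_eq]
    refine ⟨rIf_le_max fun m => (ih m).1, fun x => ?_⟩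
    rw [e2]
    cases h : Nat.beq y x with
    | false => exact fun h0 => rIf_of_both (P := fun z => f x ≤ z) ((ih _).2 x h0) ((ih m).2 x h0)
    | true =>
      intro _
      rw [← Nat.eq_of_beq_eq_true h]
      exact rIf_le_max' fun m => (ih m).1

theorem DL.le_mxq (f : ℕ → ℕ) (l : DL) : ∀ m : ℕ, m ≤ DL.mxq f l m ∧
    ∀ x y, DL.val l x y ≠ 0 → f x ≤ DL.mxq f l m := by
  induction l with
  | nil => exact fun m => ⟨le_rfl, fun x y h => absurd rfl h⟩
  | g z r l ih =>
    intro m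
    have e1 : DL.mxq f (DL.g z r l) m = rForce (f z) fun s =>
      rIf (Nat.ble m s) (DL.mxq f l s) (DL.mxq f l m) := rfl
    rw [e1, rForce_eq]
    refine ⟨rIf_le_max fun m => (ih m).1, fun x y => ?_⟩
    rw [DL.val_g]
    cases h : Nat.beq z x with
    | false =>
      exact fun h0 => rIf_of_both (P := fun z => f x ≤ z) ((ih _).2 x y h0) ((ih m).2 x y h0)
    | true =>
      intro _
      rw [← Nat.eq_of_beq_eq_true h]
      exact rIf_le_max' fun m => (ih m).1

/-- The value of the sum of a group `l` and the amounts `s`, without the reserves `q`. -/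
def sv (l s q : DR) (x : ℕ) : ℕ := rForce (DR.val s x) fun e =>
  Nat.sub (Nat.add (DR.val l x) (sgp e)) (Nat.add (sgn e) (DR.val q x))

/-- The greatest value of `sv`. -/
def mxs (l s q : DR) : ℕ := DR.mxq (sv l s q) l (DR.mxq (sv l s q) s (nat_lit 0))

theorem le_mxs (l s q : DR) (x : ℕ) : DR.val l x + sgp (DR.val s x) ≤
    mxs l s q + (sgn (DR.val s x) + DR.val q x) := by
  have h1 := (DR.le_mxq (sv l s q) s 0).2 x
  obtain ⟨h2, h3⟩ := DR.le_mxq (sv l s q) l (DR.mxq (sv l s q) s 0)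
  have h3 := h3 x
  have e0 : mxs l s q = DR.mxq (sv l s q) l (DR.mxq (sv l s q) s 0) := rfl
  have e1 : sv l s q x = (DR.val l x + sgp (DR.val s x)) - (sgn (DR.val s x) + DR.val q x) := by
    unfold sv
    rw [rForce_eq]
    rfl
  rw [e1] at h1 h3
  rw [e0]
  by_cases hl : DR.val l x = 0
  · by_cases hs : DR.val s x = 0
    · rw [hl, hs, sgp_zero, sgn_zero]
      exact Nat.zero_le _
    · have := h1 hs
      omega
  · have := h3 hl
    omega

/-- The value of the sum of two groups `c`, `l` and the amounts `s`, without the reserves `q`. -/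
def sv3 (l s c q : DR) (x : ℕ) : ℕ := rForce (DR.val s x) fun e =>
  Nat.sub (Nat.add (DR.val c x) (Nat.add (DR.val l x) (sgp e))) (Nat.add (sgn e) (DR.val q x))

theorem le_mx3 (l s c q : DR) {m : ℕ} (hm : mxs l s q ≤ m) (x : ℕ) :
    DR.val c x + (DR.val l x + sgp (DR.val s x)) ≤
      DR.mxq (sv3 l s c q) c m + (sgn (DR.val s x) + DR.val q x) := by
  obtain ⟨h2, h3⟩ := DR.le_mxq (sv3 l s c q) c m
  have h3 := h3 x
  have h4 := le_mxs l s q x
  have e1 : sv3 l s c q x = (DR.val c x + (DR.val l x + sgp (DR.val s x))) -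
      (sgn (DR.val s x) + DR.val q x) := by
    unfold sv3
    rw [rForce_eq]
    rfl
  rw [e1] at h3
  by_cases hc : DR.val c x = 0
  · omega
  · have := h3 hc
    omega

/-- The value of the column `y` of a row `l` and of the amounts `s`, without the reserves `q`. -/
def svc (l s : DL) (q : DR) (y x : ℕ) : ℕ := rForce (DL.val s x y) fun e =>
  Nat.sub (Nat.add (DL.val l x y) (sgp e)) (Nat.add (sgn e) (DR.val q x))

/-- The greatest value of a column. -/
def mxc (l s : DL) (q : DR) (y : ℕ) : ℕ :=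
  DL.mxq (svc l s q y) l (DL.mxq (svc l s q y) s (nat_lit 0))

theorem le_mxc (l s : DL) (q : DR) (x y : ℕ) : DL.val l x y + sgp (DL.val s x y) ≤
    mxc l s q y + (sgn (DL.val s x y) + DR.val q x) := by
  have h1 := (DL.le_mxq (svc l s q y) s 0).2 x y
  obtain ⟨h2, h3⟩ := DL.le_mxq (svc l s q y) l (DL.mxq (svc l s q y) s 0)
  have h3 := h3 x y
  have e0 : mxc l s q y = DL.mxq (svc l s q y) l (DL.mxq (svc l s q y) s 0) := rfl
  have e1 : svc l s q y x = (DL.val l x y + sgp (DL.val s x y)) -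
      (sgn (DL.val s x y) + DR.val q x) := by
    unfold svc
    rw [rForce_eq]
    rfl
  rw [e1] at h1 h3
  rw [e0]
  by_cases hl : DL.val l x y = 0
  · by_cases hs : DL.val s x y = 0
    · rw [hl, hs, sgp_zero, sgn_zero]
      exact Nat.zero_le _
    · have := h1 hs
      omega
  · have := h3 hl
    omega

/-- The greatest value of two rows, without the reserves of both tokens. -/
def mxd (l s : DL) (p q : DR) : ℕ :=
  DL.mxq (fun x => Nat.sub (mxs (DL.grp l x) (DL.grp s x) q) (DR.val p x)) l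
    (DL.mxq (fun x => Nat.sub (mxs (DL.grp l x) (DL.grp s x) q) (DR.val p x)) s (nat_lit 0))

theorem le_mxd (l s : DL) (p q : DR) (x y : ℕ) : DL.val l x y + sgp (DL.val s x y) ≤
    mxd l s p q + (sgn (DL.val s x y) + DR.val p x + DR.val q y) := by
  set f : ℕ → ℕ := fun x => Nat.sub (mxs (DL.grp l x) (DL.grp s x) q) (DR.val p x) with hf
  have h1 := (DL.le_mxq f s 0).2 x y
  obtain ⟨h2, h3⟩ := DL.le_mxq f l (DL.mxq f s 0)
  have h3 := h3 x y
  have e0 : mxd l s p q = DL.mxq f l (DL.mxq f s 0) := rfl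
  have e1 : f x = mxs (DL.grp l x) (DL.grp s x) q - DR.val p x := rfl
  have h4 : DL.val l x y + sgp (DL.val s x y) ≤
    mxs (DL.grp l x) (DL.grp s x) q + (sgn (DL.val s x y) + DR.val q y) := le_mxs _ _ q y
  rw [e1] at h1 h3
  rw [e0]
  by_cases hl : DL.val l x y = 0
  · by_cases hs : DL.val s x y = 0
    · rw [hl, hs, sgp_zero, sgn_zero]
      exact Nat.zero_le _
    · have := h1 hs
      omega
  · have := h3 hl
    omega

/-! ### The rows of a region -/

/-- The check of the rows of a region with the amounts `sb` and `sd`. -/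
def rgS (S : ℕ) (q1 q2 q3 q4 : DR) (la lb lc ld sb sd : DL) : Bool :=
  DL.all (fun x2 ra => rForce (mxs (DL.grp lb x2) (DL.grp sb x2) q4) fun mb =>
    rForce (Nat.add S (DR.val q2 x2)) fun S2 =>
    rAnd (DR.all (fun x1 v => Nat.ble (Nat.add v (Nat.add (mxc ld sd q3 x1) mb))
        (Nat.add S2 (DR.val q1 x1))) ra)
      (DL.all (fun x3 rc => rForce (DR.mxq (sv3 (DL.grp lb x2) (DL.grp sb x2) rc q4) rc mb) fun m2 =>
        rForce (Nat.add S2 (DR.val q3 x3)) fun S3 =>
        DR.all (fun x1 v => rForce (DL.val sd x3 x1) fun e =>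
          Nat.ble (Nat.add v (Nat.add (Nat.add (DL.val ld x3 x1) (sgp e)) m2))
            (Nat.add (Nat.add S3 (sgn e)) (DR.val q1 x1))) ra) lc)) la

theorem rgS_sound {S : ℕ} {q1 q2 q3 q4 : DR} {la lb lc ld sb sd : DL}
    (h : rgS S q1 q2 q3 q4 la lb lc ld sb sd = true) {x1 x2 : ℕ} (x3 x4 : ℕ)
    (h0 : 0 < DL.val la x2 x1) :
    DL.val la x2 x1 + DL.val lb x2 x4 + DL.val lc x3 x4 + DL.val ld x3 x1 +
        sgp (DL.val sb x2 x4) + sgp (DL.val sd x3 x1) ≤
      S + (DR.val q1 x1 + DR.val q2 x2 + DR.val q3 x3 + DR.val q4 x4) +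
        sgn (DL.val sb x2 x4) + sgn (DL.val sd x3 x1) := by
  have h1 := DL.val_of_all h h0
  rw [rForce_eq, rForce_eq] at h1
  obtain ⟨h2, h3⟩ := rAnd_iff.1 h1
  have hne : DR.val (DL.grp la x2) x1 ≠ 0 := by
    have : DL.val la x2 x1 = DR.val (DL.grp la x2) x1 := rfl
    omega
  have ea : DL.val la x2 x1 = DR.val (DL.grp la x2) x1 := rfl
  have eb : DL.val lb x2 x4 = DR.val (DL.grp lb x2) x4 := rfl
  have es : DL.val sb x2 x4 = DR.val (DL.grp sb x2) x4 := rfl
  have ec : DL.val lc x3 x4 = DR.val (DL.grp lc x3) x4 := rfl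
  have hb := le_mxs (DL.grp lb x2) (DL.grp sb x2) q4 x4
  rcases Nat.eq_zero_or_pos (DL.val lc x3 x4) with hc | hc
  · have hd := le_mxc ld sd q3 x3 x1
    rcases DR.val_of_all h2 x1 with h4 | h4
    · exact absurd h4 hne
    · have h5 : DR.val (DL.grp la x2) x1 + (mxc ld sd q3 x1 +
          mxs (DL.grp lb x2) (DL.grp sb x2) q4) ≤
        S + DR.val q2 x2 + DR.val q1 x1 := Nat.le_of_ble_eq_true h4
      rw [← eb, ← es] at hb
      omega
  · have h6 := DL.val_of_all h3 hc
    rw [rForce_eq, rForce_eq] at h6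
    rcases DR.val_of_all h6 x1 with h7 | h7
    · exact absurd h7 hne
    · rw [rForce_eq] at h7
      have h8 : DR.val (DL.grp la x2) x1 + (DL.val ld x3 x1 + sgp (DL.val sd x3 x1) +
          DR.mxq (sv3 (DL.grp lb x2) (DL.grp sb x2) (DL.grp lc x3) q4) (DL.grp lc x3)
            (mxs (DL.grp lb x2) (DL.grp sb x2) q4)) ≤
        S + DR.val q2 x2 + DR.val q3 x3 + sgn (DL.val sd x3 x1) + DR.val q1 x1 :=
          Nat.le_of_ble_eq_true h7
      have h9 := le_mx3 (DL.grp lb x2) (DL.grp sb x2) (DL.grp lc x3) q4 le_rfl x4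
      rw [← eb, ← es, ← ec] at h9
      omega

/-- The check of the rows of the fans of a region with the amounts `sb` and `sd`. -/
def rgC (S : ℕ) (q1 q2 q3 q4 : DR) (lb ld sb sd : DL) : Bool :=
  Nat.ble (Nat.add (mxd lb sb q2 q4) (mxd ld sd q3 q1)) S

theorem rgC_sound {S : ℕ} {q1 q2 q3 q4 : DR} {lb ld sb sd : DL}
    (h : rgC S q1 q2 q3 q4 lb ld sb sd = true) (x1 x2 x3 x4 : ℕ) :
    DL.val lb x2 x4 + DL.val ld x3 x1 + sgp (DL.val sb x2 x4) + sgp (DL.val sd x3 x1) ≤
      S + (DR.val q1 x1 + DR.val q2 x2 + DR.val q3 x3 + DR.val q4 x4) +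
        sgn (DL.val sb x2 x4) + sgn (DL.val sd x3 x1) := by
  have h1 : mxd lb sb q2 q4 + mxd ld sd q3 q1 ≤ S := Nat.le_of_ble_eq_true h
  have h2 := le_mxd lb sb q2 q4 x2 x4
  have h3 := le_mxd ld sd q3 q1 x3 x1
  omega

/-- The check of a region: without amounts only the rows with a correction of a window. -/
def rgT (S : ℕ) (q1 q2 q3 q4 : DR) (la lb lc ld sb sd : DL) : Bool :=
  DL.rec (motive := fun _ => Bool)
    (DL.rec (motive := fun _ => Bool) (rgH S q1 q2 q3 q4 la lb lc ld)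
      (fun _ _ _ _ => rAnd (rgC S q1 q2 q3 q4 lb ld sb sd)
        (rgS S q1 q2 q3 q4 la lb lc ld sb sd)) sd)
    (fun _ _ _ _ => rAnd (rgC S q1 q2 q3 q4 lb ld sb sd)
      (rgS S q1 q2 q3 q4 la lb lc ld sb sd)) sb

theorem rgT_or {S : ℕ} {q1 q2 q3 q4 : DR} {la lb lc ld sb sd : DL}
    (h : rgT S q1 q2 q3 q4 la lb lc ld sb sd = true) :
    (sb = DL.nil ∧ sd = DL.nil ∧ rgH S q1 q2 q3 q4 la lb lc ld = true) ∨
      (rgC S q1 q2 q3 q4 lb ld sb sd = true ∧ rgS S q1 q2 q3 q4 la lb lc ld sb sd = true) := by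
  cases sb with
  | nil =>
    cases sd with
    | nil => exact Or.inl ⟨rfl, rfl, h⟩
    | g x r l => exact Or.inr (rAnd_iff.1 h)
  | g x r l => exact Or.inr (rAnd_iff.1 h)

theorem rgT_sound {S : ℕ} {q1 q2 q3 q4 : DR} {la lb lc ld sb sd : DL}
    (h : rgT S q1 q2 q3 q4 la lb lc ld sb sd = true) {x1 x2 : ℕ} (x3 x4 : ℕ)
    (h0 : 0 < DL.val la x2 x1) :
    DL.val la x2 x1 + DL.val lb x2 x4 + DL.val lc x3 x4 + DL.val ld x3 x1 +
        sgp (DL.val sb x2 x4) + sgp (DL.val sd x3 x1) ≤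
      S + (DR.val q1 x1 + DR.val q2 x2 + DR.val q3 x3 + DR.val q4 x4) +
        sgn (DL.val sb x2 x4) + sgn (DL.val sd x3 x1) := by
  rcases rgT_or h with ⟨h1, h2, h3⟩ | h1
  · have h4 := rgH_sound h3 x3 x4 h0
    have e1 : DL.val sb x2 x4 = 0 := by
      rw [h1]
      rfl
    have e2 : DL.val sd x3 x1 = 0 := by
      rw [h2]
      rfl
    rw [e1, e2, sgp_zero, sgn_zero]
    omega
  · exact rgS_sound h1.2 x3 x4 h0

theorem rgT_fan {S : ℕ} {q1 q2 q3 q4 : DR} {la lb lc ld sb sd : DL}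
    (h : rgT S q1 q2 q3 q4 la lb lc ld sb sd = true) {x1 x2 x3 x4 : ℕ}
    (h0 : DL.val sb x2 x4 ≠ 0 ∨ DL.val sd x3 x1 ≠ 0) :
    DL.val lb x2 x4 + DL.val ld x3 x1 + sgp (DL.val sb x2 x4) + sgp (DL.val sd x3 x1) ≤
      S + (DR.val q1 x1 + DR.val q2 x2 + DR.val q3 x3 + DR.val q4 x4) +
        sgn (DL.val sb x2 x4) + sgn (DL.val sd x3 x1) := by
  rcases rgT_or h with ⟨h1, h2, -⟩ | h1
  · rcases h0 with h0 | h0
    · rw [h1] at h0
      exact absurd rfl h0
    · rw [h2] at h0
      exact absurd rfl h0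
  · exact rgC_sound h1.1 x1 x2 x3 x4

/-! ### The rows of a triangle -/

/-- The check of an entry of a row of a triangle; `ex` says that the triangle has an amount. -/
def stX (S : ℕ) (pb : DR) (lb lc : DL) (ex : ℕ → Bool) (x3 x1 v : ℕ) : Bool :=
  rAnd (Nat.ble v S)
    (DR.all (fun x2 vb => rForce (Nat.add v (Nat.add vb (DR.val (DL.grp lc x2) x3))) fun m =>
      rIf (Nat.ble m S) true (rIf (Nat.ble m (Nat.add S (DR.val pb x2))) true (ex x2)))
      (DL.grp lb x1))

/-- The check of a row of a triangle. -/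
def stXR (S : ℕ) (pa pb pc : DR) (lb lc la : DL) (ex : ℕ → ℕ → ℕ → Bool) : Bool :=
  DL.all (fun x3 r => rForce (Nat.add S (DR.val pc x3)) fun S3 =>
    DR.all (fun x1 v => rForce (Nat.add S3 (DR.val pa x1)) fun S1 =>
      stX S1 pb lb lc (ex x1 x3) x3 x1 v) r) la

theorem stXR_sound {S : ℕ} {pa pb pc : DR} {la lb lc : DL} {ex : ℕ → ℕ → ℕ → Bool}
    (h : stXR S pa pb pc lb lc la ex = true) (x3 x1 x2 : ℕ) :
    DL.val la x3 x1 ≤ S + (DR.val pa x1 + DR.val pc x3) ∧
      (0 < DL.val la x3 x1 → 0 < DL.val lb x1 x2 → ex x1 x3 x2 = true ∨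
        DL.val la x3 x1 + (DL.val lb x1 x2 + DL.val lc x2 x3) ≤
          S + (DR.val pa x1 + DR.val pc x3) + DR.val pb x2) := by
  rcases Nat.eq_zero_or_pos (DL.val la x3 x1) with h0 | h0
  · rw [h0]
    exact ⟨Nat.zero_le _, fun h1 => absurd h1 (Nat.lt_irrefl 0)⟩
  · have h1 := DL.val_of_all h h0
    rw [rForce_eq] at h1
    rcases DR.val_of_all h1 x1 with h2 | h2
    · exact absurd h0 (by
        have h3 : DL.val la x3 x1 = 0 := h2
        omega)
    rw [rForce_eq] at h2
    obtain ⟨h3, h4⟩ := rAnd_iff.1 h2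
    have h3' : DL.val la x3 x1 ≤ S + DR.val pc x3 + DR.val pa x1 := Nat.le_of_ble_eq_true h3
    refine ⟨by omega, fun _ h5 => ?_⟩
    rcases DR.val_of_all h4 x2 with h6 | h6
    · exact absurd h5 (by
        have h7 : DL.val lb x1 x2 = 0 := h6
        omega)
    rw [rForce_eq] at h6
    rcases ble_of_rIf h6 with h7 | h7
    · have h8 : DL.val la x3 x1 + (DL.val lb x1 x2 + DL.val lc x2 x3) ≤
        S + DR.val pc x3 + DR.val pa x1 := Nat.le_of_ble_eq_true h7
      right
      omega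
    · rcases ble_of_rIf h7 with h7 | h7
      · have h8 : DL.val la x3 x1 + (DL.val lb x1 x2 + DL.val lc x2 x3) ≤
          S + DR.val pc x3 + DR.val pa x1 + DR.val pb x2 := Nat.le_of_ble_eq_true h7
        right
        omega
      · exact Or.inl h7

/-! ### The checks of the tables -/

/-- The entry of the window with the key of the corner `i` and the token `x1` of the strip. -/
def sgv (ts : DT) (i x1 x2 x3 : ℕ) : ℕ :=
  Nat.rec (motive := fun _ => ℕ) (nat_lit 0)
    (fun y _ => DL.val (DT.get ts (Nat.add y (Nat.mul (nat_lit 8192) i))) x2 x3) x1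

/-- Whether one of three numbers is not zero. -/
def nz3 (a b c : ℕ) : Bool := Nat.ble (nat_lit 1) (Nat.add a (Nat.add b c))

section defs

variable (gp gm : ℕ → ℕ → ℕ → ℕ → ℕ → ℕ → ℕ) (D : ℕ → ℕ → ℕ) (sp ps : ℕ → ℕ → ℕ → ℕ)
  (t rt zt tw ts : DT)

/-- The check of the row of the corner `(k, o, j)` of a triangle, except for triangles with an
amount. -/
def stXC (k o j : ℕ) : Bool :=
  DL.rec (motive := fun _ => Bool) true
    (fun _ _ _ _ =>
      rForce (Nat.div (flA k o) (nat_lit 16384)) fun kb =>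
      rForce (Nat.mod (triA k j) (nat_lit 512)) fun ob =>
      rForce (rjA k j) fun jb =>
      rForce (farK k o j) fun kc =>
      rForce (t3A k j) fun oc =>
      rForce (rjA kb jb) fun jc =>
      rForce (Nat.add (Nat.add (D k o) (Nat.add (D kb ob) (D kc oc)))
        (Nat.add (psA sp ps k o j) (Nat.add (psA sp ps kb ob jb) (psA sp ps kc oc jc)))) fun S =>
      stXR S (DL.grp (DT.get rt (dkey k j)) (nat_lit 0)) (DL.grp (DT.get rt (dkey kb jb)) (nat_lit 0))
        (DL.grp (DT.get rt (dkey kc jc)) (nat_lit 0))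
        (DT.get t (dkey kb jb)) (DT.get t (dkey kc jc)) (DT.get t (dkey k j))
        fun x1 x3 x2 => nz3 (sgv ts (dkey k j) x1 x2 x3) (sgv ts (dkey kb jb) x2 x3 x1)
          (sgv ts (dkey kc jc) x3 x1 x2))
    (DT.get t (dkey k j))

/-- The check of the rows of the triangles of the pair `(k, o)`. -/
def stXO (k o : ℕ) : Bool :=
  rForce (triOff k o) fun f => rAllN (fun i => stXC D sp ps t rt ts k o (Nat.add f i))
    (Nat.sub (triOff k (Nat.succ o)) f)

/-- The check of the rows of the triangles of the pair `(k, o)`, if the pair is canonical. -/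
def stXH (k o : ℕ) : Bool := rIf (cnn k o) (stXO D sp ps t rt ts k o) true

/-- The check of the triangles with an amount in the row `l` of the window with the corner
`(k, o, j)` and the strip with the token `x1`. -/
def stF (k o j x1 : ℕ) (l : DL) : Bool :=
  rForce (Nat.div (flA k o) (nat_lit 16384)) fun kb =>
  rForce (Nat.mod (triA k j) (nat_lit 512)) fun ob =>
  rForce (rjA k j) fun jb =>
  rForce (farK k o j) fun kc =>
  rForce (t3A k j) fun oc =>
  rForce (rjA kb jb) fun jc =>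
  rForce (Nat.add (Nat.add (D k o) (Nat.add (D kb ob) (D kc oc)))
    (Nat.add (psA sp ps k o j) (Nat.add (psA sp ps kb ob jb) (psA sp ps kc oc jc)))) fun S =>
  rForce (Nat.add S (DR.val (DL.grp (DT.get rt (dkey k j)) (nat_lit 0)) x1)) fun S1 =>
  DL.all (fun x2 r => rForce (Nat.add S1 (DR.val (DL.grp (DT.get rt (dkey kb jb)) (nat_lit 0)) x2))
    fun S2 => DR.all (fun x3 v => rForce (sgv ts (dkey kb jb) x2 x3 x1) fun vb =>
      rForce (sgv ts (dkey kc jc) x3 x1 x2) fun vc =>
      Nat.ble (Nat.add (Nat.add (DL.val (DT.get t (dkey k j)) x3 x1)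
          (Nat.add (DL.val (DT.get t (dkey kb jb)) x1 x2) (DL.val (DT.get t (dkey kc jc)) x2 x3)))
          (Nat.add (sgn v) (Nat.add (sgn vb) (sgn vc))))
        (Nat.add (Nat.add S2 (DR.val (DL.grp (DT.get rt (dkey kc jc)) (nat_lit 0)) x3))
          (Nat.add (sgp v) (Nat.add (sgp vb) (sgp vc))))) r) l

/-- The check of the region of a strip; `hr` and `la` are the first group and the other groups of the
row of the window. -/
def regET (k0 o0 j0 k1 o1 j1 : ℕ) (hr : DR) (la : DL) : Bool :=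
  rForce (Nat.div (flA k0 o0) (nat_lit 16384)) fun ka =>
  rForce (Nat.mod (triA k0 j0) (nat_lit 512)) fun oa =>
  rForce (rjA k0 j0) fun ja =>
  rForce (farK k0 o0 j0) fun kc =>
  rForce (rjA ka ja) fun jc =>
  rForce (Nat.div (flA k1 o1) (nat_lit 16384)) fun kb =>
  rForce (rjA k1 j1) fun jb =>
  rForce (farK k1 o1 j1) fun kd =>
  rForce (t3A k1 j1) fun od =>
  rForce (rjA kb jb) fun jd =>
  rForce (Nat.add (gp k0 o0 j0 k1 o1 j1) (gp kd od jd ka oa ja)) fun gP =>
  rForce (Nat.add (Nat.add (gm k0 o0 j0 k1 o1 j1) (gm kd od jd ka oa ja))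
    (Nat.add (DR.tot hr) (DR.tot (DL.hd (DT.get zt (zkey kd jd ja)))))) fun gM =>
  rAnd (Nat.ble gM gP)
  (rForce (Nat.sub (Nat.add gP (Nat.add (psB sp ps kc (t3A k0 j0) jc)
      (psB sp ps kb (Nat.mod (triA k1 j1) (nat_lit 512)) jb))) gM) fun S =>
  rgT S (DL.grp (DT.get rt (dkey kc jc)) (nat_lit 1)) (DL.grp (DT.get rt (dkey k1 j1)) (nat_lit 2))
    (DL.grp (DT.get rt (dkey ka ja)) (nat_lit 2)) (DL.grp (DT.get rt (dkey kb jb)) (nat_lit 1))
    la (DT.get tw (dkey kb jb)) (DL.tl (DT.get zt (zkey kd jd ja))) (DT.get tw (dkey kc jc))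
    (DL.tl (DT.get ts (zkey kd jd ja))) (DL.tl (DT.get ts (zkey k0 j0 j1))))

/-- The check of a row of the windows. -/
def regTH (i : ℕ) (row : DL) : Bool :=
  DL.rec (motive := fun _ => Bool) true (fun h hr l _ =>
    rForce (Nat.div i (nat_lit 67108864)) fun k0 =>
    rForce (Nat.mod (Nat.div i (nat_lit 8192)) (nat_lit 8192)) fun j0 =>
    rForce (Nat.mod i (nat_lit 8192)) fun j1 =>
    rForce (Nat.mod (Nat.div h (nat_lit 512)) (nat_lit 512)) fun o0 =>
    rForce (Nat.mod h (nat_lit 512)) fun o1 =>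
    rForce (Nat.div (optA k0 o0) (nat_lit 72)) fun k1 =>
    rAnd (Nat.ble (nat_lit 1048576) h) (rAnd (oInt k0 o0 j0) (rAnd (oInt k1 o1 j1)
      (rIf (Nat.ble i (zkey (mK k0) (mJ k0 j0) (mJ k1 j1)))
        (regET gp gm sp ps rt zt tw ts k0 o0 j0 k1 o1 j1 hr l) true)))) row

/-- The check of a row of the amounts: the first token contains the options of the two corners. The
triangles are checked, the region is checked for the smaller one of the two reflected keys, and the
row is compared with the reflected row. -/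
def sgH (i : ℕ) (row : DL) : Bool :=
  DL.rec (motive := fun _ => Bool) true (fun h _ l _ =>
    rForce (Nat.div i (nat_lit 67108864)) fun k0 =>
    rForce (Nat.mod (Nat.div i (nat_lit 8192)) (nat_lit 8192)) fun j0 =>
    rForce (Nat.mod i (nat_lit 8192)) fun j1 =>
    rForce (Nat.mod (Nat.div h (nat_lit 512)) (nat_lit 512)) fun o0 =>
    rForce (Nat.mod h (nat_lit 512)) fun o1 =>
    rForce (Nat.div (optA k0 o0) (nat_lit 72)) fun k1 =>
    rAnd (Nat.ble (nat_lit 1048576) h) (rAnd (oInt k0 o0 j0) (rAnd (oInt k1 o1 j1)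
      (rForce (zkey (mK k0) (mJ k0 j0) (mJ k1 j1)) fun i' =>
      rAnd (imgS (tM (Nat.div (optA (Nat.div (flA k0 o0) (nat_lit 16384))
          (Nat.mod (triA k0 j0) (nat_lit 512))) (nat_lit 72)))
        (tM (Nat.div (rv k0) (nat_lit 24))) (DT.get ts i') l)
      (rAnd (stF D sp ps t rt ts k0 o0 j0 (Nat.succ j1) l)
      (rIf (Nat.ble i i')
        (regET gp gm sp ps rt zt tw ts k0 o0 j0 k1 o1 j1 (DL.hd (DT.get zt i))
          (DL.tl (DT.get zt i))) true)))))) row

end defs

end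

end Pool.Agent.Lib.MP_5854e1_co
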