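import Pool.Agent.Lib.MP_5854e1_co.Sig

/-!
# Amounts moved from the triangles to the regions of their sides, in a map of strips
-/

set_option autoImplicit false

open Equiv Equiv.Perm

namespace Pool.Agent.Lib.MP_5854e1_co

open PB

namespace SMap

variable {F : Type*} (T : SMap F)

/-! ### Amounts -/

open Classical in
/-- The entry of the triangle of the corner after `a` and its side `N a`. -/
noncomputable def sgx (ts : DT) (a : F) : ℕ :=
  if T.Tri a ∧ T.Tri (T.N a) then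
    DL.val (DT.get ts (zkey (T.kx a) (T.rs a) (T.rs (T.N a)))) (T.X trX (T.N (T.I (T.N a))))
      (T.X trX (T.I a))
  else 0

/-- The amount that the triangle of the corner after `a` gives to the region of its side `N a`. -/
noncomputable def sg (ts : DT) (a : F) : ℤ := (sgp (T.sgx ts a) : ℤ) - sgn (T.sgx ts a)

/-- The row of the amounts at the strip `N a`. -/
noncomputable def sgr (ts : DT) (a : F) : DL := DT.get ts (zkey (T.kx a) (T.rs a) (T.rs (T.N a)))

theorem sgx_tri {ts : DT} {a : F} (h1 : T.Tri a) (h2 : T.Tri (T.N a)) : T.sgx ts a =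
    DL.val (T.sgr ts a) (T.X trX (T.N (T.I (T.N a)))) (T.X trX (T.I a)) := if_pos ⟨h1, h2⟩

theorem sgx_left {ts : DT} {a : F} (h : ¬T.Tri a) : T.sgx ts a = 0 := if_neg fun h1 => h h1.1

theorem sgx_right {ts : DT} {a : F} (h : ¬T.Tri (T.N a)) : T.sgx ts a = 0 :=
  if_neg fun h1 => h h1.2

theorem sg_of_sgx {ts : DT} {a : F} (h : T.sgx ts a = 0) : T.sg ts a = 0 := by
  unfold sg
  rw [h, sgp_zero, sgn_zero]
  norm_num

theorem sg_left {ts : DT} {a : F} (h : ¬T.Tri a) : T.sg ts a = 0 := T.sg_of_sgx (T.sgx_left h)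

theorem sgv_at {ts : DT} {a : F} (ha : T.Tri a) :
    sgv ts (dkey (T.kx a) (T.rs a)) (T.X trX (T.N a)) (T.X trX (T.N (T.I (T.N a))))
      (T.X trX (T.I a)) = T.sgx ts a := by
  by_cases hn : T.Tri (T.N a)
  · rw [T.sgx_tri ha hn]
    unfold sgr
    rw [T.X_tri trX hn, T.rs_tri hn]
    rfl
  · rw [T.sgx_right hn, T.X_big trX hn]
    rfl

section chk

variable {gp gm : ℕ → ℕ → ℕ → ℕ → ℕ → ℕ → ℕ} {D : ℕ → ℕ → ℕ} {sp ps : ℕ → ℕ → ℕ → ℕ}
  {t rt zt tw ts : DT}

/-- The parts of the check of a row of the amounts. -/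
theorem sgH_at (h : DT.all (sgH gp gm D sp ps t rt zt tw ts) ts = true) {a : F} (ha : T.Tri a)
    (hn : T.Tri (T.N a)) {x : ℕ} {r : DR} {l : DL} (hrow : T.sgr ts a = DL.g x r l) :
    Nat.ble 1048576 x = true ∧
    imgS (tM (T.kx (T.N (T.I (T.N a))))) (tM (T.kx (T.I a)))
      (DT.get ts (zkey (mK (T.kx a)) (mJ (T.kx a) (T.jx a)) (mJ (T.kx (T.N a)) (T.jx (T.N a))))) l =
      true ∧
    stF D sp ps t rt ts (T.kx a) (T.ox a) (T.jx a) (T.X trX (T.N a)) l = true ∧
    (T.KL a → regET gp gm sp ps rt zt tw ts (T.kx a) (T.ox a) (T.jx a) (T.kx (T.N a))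
      (T.ox (T.N a)) (T.jx (T.N a)) (DL.hd (T.zr zt a)) (DL.tl (T.zr zt a)) = true) := by
  have jl := T.jx_lt ha
  have jl1 := T.jx_lt hn
  obtain ⟨e1, e2, e3⟩ := zkey_parts (k := T.kx a) (T.jx_lt13 ha) (T.jx_lt13 hn)
  unfold sgr at hrow
  unfold zr
  rw [T.rs_tri ha, T.rs_tri hn] at hrow ⊢
  rcases DT.get_of_all h (zkey (T.kx a) (T.jx a) (T.jx (T.N a))) with h1 | h1
  · rw [h1] at hrow
    cases hrow
  rw [hrow] at h1
  unfold sgH at h1
  simp only [rForce_eq] at h1
  rw [e1, e2, e3] at h1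
  obtain ⟨hh, h1⟩ := rAnd_iff.1 h1
  obtain ⟨h2, h3⟩ := rAnd_iff.1 h1
  obtain ⟨h4, h5⟩ := rAnd_iff.1 h3
  have eo := oInt_unique (T.kx_lt a) h2 (T.ox_lt_optN a) jl.2 jl.1
  rw [eo, T.optA_div] at h4
  have eo1 := oInt_unique (T.kx_lt (T.N a)) h4 (T.ox_lt_optN (T.N a)) jl1.2 jl1.1
  rw [eo, T.optA_div, eo1, ← T.rot_k a, ← T.rot_o ha, T.optA_div, T.rv_div] at h5
  obtain ⟨h6, h7⟩ := rAnd_iff.1 h5
  obtain ⟨h8, h9⟩ := rAnd_iff.1 h7
  refine ⟨hh, h6, ?_, fun hk => ?_⟩
  · rw [T.X_tri trX hn]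
    exact h8
  · have hb : Nat.ble (zkey (T.kx a) (T.jx a) (T.jx (T.N a)))
        (zkey (mK (T.kx a)) (mJ (T.kx a) (T.jx a)) (mJ (T.kx (T.N a)) (T.jx (T.N a)))) = true :=
      Nat.ble_eq_true_of_le hk
    rw [hb, rIf_true] at h9
    exact h9

/-- The parts of the check of a row of the windows. -/
theorem regTH_at (h : DT.all (regTH gp gm sp ps rt zt tw ts) zt = true) {a : F} (ha : T.Tri a)
    (hn : T.Tri (T.N a)) {x : ℕ} {r : DR} {l : DL} (hrow : T.zr zt a = DL.g x r l) :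
    Nat.ble 1048576 x = true ∧
    (T.KL a → regET gp gm sp ps rt zt tw ts (T.kx a) (T.ox a) (T.jx a) (T.kx (T.N a))
      (T.ox (T.N a)) (T.jx (T.N a)) r l = true) := by
  have jl := T.jx_lt ha
  have jl1 := T.jx_lt hn
  obtain ⟨e1, e2, e3⟩ := zkey_parts (k := T.kx a) (T.jx_lt13 ha) (T.jx_lt13 hn)
  unfold zr at hrow
  rw [T.rs_tri ha, T.rs_tri hn] at hrow
  rcases DT.get_of_all h (zkey (T.kx a) (T.jx a) (T.jx (T.N a))) with h1 | h1
  · rw [h1] at hrow
    cases hrow
  rw [hrow] at h1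
  unfold regTH at h1
  simp only [rForce_eq] at h1
  rw [e1, e2, e3] at h1
  obtain ⟨hh, h1⟩ := rAnd_iff.1 h1
  obtain ⟨h2, h3⟩ := rAnd_iff.1 h1
  obtain ⟨h4, h5⟩ := rAnd_iff.1 h3
  have eo := oInt_unique (T.kx_lt a) h2 (T.ox_lt_optN a) jl.2 jl.1
  rw [eo, T.optA_div] at h4
  have eo1 := oInt_unique (T.kx_lt (T.N a)) h4 (T.ox_lt_optN (T.N a)) jl1.2 jl1.1
  rw [eo, T.optA_div, eo1] at h5
  refine ⟨hh, fun hk => ?_⟩
  have hb : Nat.ble (zkey (T.kx a) (T.jx a) (T.jx (T.N a)))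
      (zkey (mK (T.kx a)) (mJ (T.kx a) (T.jx a)) (mJ (T.kx (T.N a)) (T.jx (T.N a)))) = true :=
    Nat.ble_eq_true_of_le hk
  rw [hb, rIf_true] at h5
  exact h5

/-- A correction of a window, from the row without its first group. -/
theorem win_tl (h : DT.all (regTH gp gm sp ps rt zt tw ts) zt = true) {a : F} (ha : T.Tri a)
    (hn : T.Tri (T.N a)) : T.win zt a =
      DL.val (DL.tl (T.zr zt a)) (T.X trX (T.N (T.N a))) (T.X trX (T.I a)) := by
  rw [T.win_tri ha hn]
  show DL.val (T.zr zt a) _ _ = _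
  cases hr : T.zr zt a with
  | nil => rfl
  | g x r l =>
    rw [DL.val_tail (T.regTH_at h ha hn hr).1 (T.X_lt _)]
    rfl

/-- An entry, from the row without its first group. -/
theorem sgx_tl (h : DT.all (sgH gp gm D sp ps t rt zt tw ts) ts = true) {a : F} (ha : T.Tri a)
    (hn : T.Tri (T.N a)) : T.sgx ts a =
      DL.val (DL.tl (T.sgr ts a)) (T.X trX (T.N (T.I (T.N a)))) (T.X trX (T.I a)) := by
  rw [T.sgx_tri ha hn]
  cases hr : T.sgr ts a with
  | nil => rfl
  | g x r l =>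
    rw [DL.val_tail (T.sgH_at h ha hn hr).1 (T.X_lt _)]
    rfl

/-! ### Reflection -/

theorem relab_sgx_ne (h : DT.all (sgH gp gm D sp ps t rt zt tw ts) ts = true) {a : F}
    (h0 : T.sgx ts a ≠ 0) : T.relab.sgx ts a = T.sgx ts a := by
  have ha : T.Tri a := by
    by_contra h1
    exact h0 (T.sgx_left h1)
  have hn : T.Tri (T.N a) := by
    by_contra h1
    exact h0 (T.sgx_right h1)
  have ha' : T.relab.Tri a := ha
  have hn' : T.relab.Tri (T.relab.N a) := hn
  have e0 := T.sgx_tl h ha hn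
  rw [e0] at h0
  have e1 : T.relab.sgr ts a = DT.get ts (zkey (mK (T.kx a)) (mJ (T.kx a) (T.jx a))
      (mJ (T.kx (T.N a)) (T.jx (T.N a)))) := by
    unfold sgr
    simp only [relab_N]
    rw [T.relab_zr_key ha hn]
  rw [e0, T.relab.sgx_tri ha' hn', e1]
  simp only [relab_N, relab_I]
  rw [T.relab_X, T.relab_X]
  cases hr : T.sgr ts a with
  | nil =>
    rw [hr] at h0
    exact absurd rfl h0
  | g x r l =>
    rw [hr] at h0
    exact imgS_sound (T.sgH_at h ha hn hr).2.1 (Nat.pos_of_ne_zero h0)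

/-- **The entries of a relabelled map.** -/
theorem relab_sgx (h : DT.all (sgH gp gm D sp ps t rt zt tw ts) ts = true) (a : F) :
    T.relab.sgx ts a = T.sgx ts a := by
  by_cases h0 : T.sgx ts a = 0
  · by_cases h1 : T.relab.sgx ts a = 0
    · rw [h0, h1]
    · have h2 := T.relab.relab_sgx_ne h h1
      rw [relab_relab] at h2
      exact h2.symm
  · exact T.relab_sgx_ne h h0

theorem relab_sg (h : DT.all (sgH gp gm D sp ps t rt zt tw ts) ts = true) (a : F) :
    T.relab.sg ts a = T.sg ts a := by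
  unfold sg
  rw [T.relab_sgx h]

/-! ### The triangles -/

/-- The triangles with an amount. -/
theorem star_of_sgx (h : DT.all (sgH gp gm D sp ps t rt zt tw ts) ts = true)
    (hr : DT.all (rtR zt) rt = true) {a : F} (h0 : T.sgx ts a ≠ 0) :
    T.dl t a + T.dl t (T.I (T.N a)) + T.dl t (T.I (T.N (T.I (T.N a)))) +
        (sgn (T.sgx ts a) + sgn (T.sgx ts (T.I (T.N a))) +
          sgn (T.sgx ts (T.I (T.N (T.I (T.N a)))))) ≤
      T.sbud D sp ps a + T.sbud D sp ps (T.I (T.N a)) +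
        T.sbud D sp ps (T.I (T.N (T.I (T.N a)))) +
      (T.rz zt 0 a + T.rz zt 0 (T.I (T.N a)) + T.rz zt 0 (T.I (T.N (T.I (T.N a))))) +
        (sgp (T.sgx ts a) + sgp (T.sgx ts (T.I (T.N a))) +
          sgp (T.sgx ts (T.I (T.N (T.I (T.N a)))))) := by
  have ha : T.Tri a := by
    by_contra h1
    exact h0 (T.sgx_left h1)
  have hn : T.Tri (T.N a) := by
    by_contra h1
    exact h0 (T.sgx_right h1)
  have ha2 := T.tri_rot ha
  have ha3 := T.tri_rot ha2
  have e0 := T.sgx_tl h ha hn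
  rw [e0] at h0
  cases hr0 : T.sgr ts a with
  | nil =>
    rw [hr0] at h0
    exact absurd rfl h0
  | g x r l =>
    have h1 := (T.sgH_at h ha hn hr0).2.2.1
    rw [hr0] at h0 e0
    have h0' : 0 < DL.val l (T.X trX (T.N (T.I (T.N a)))) (T.X trX (T.I a)) :=
      Nat.pos_of_ne_zero h0
    have e0' : T.sgx ts a = DL.val l (T.X trX (T.N (T.I (T.N a)))) (T.X trX (T.I a)) := e0
    unfold stF at h1
    simp only [rForce_eq] at h1
    rw [← T.rot_k a, ← T.rot_o ha, ← T.rot_j ha, T.farK_eq ha, T.t3A_jx ha, ← T.rot_j ha2] at h1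
    have h2 := DL.val_of_all h1 h0'
    rcases DR.val_of_all h2 (T.X trX (T.I a)) with h3 | h3
    · exact absurd h3 (by
        have : DL.val l (T.X trX (T.N (T.I (T.N a)))) (T.X trX (T.I a)) =
          DR.val (DL.grp l (T.X trX (T.N (T.I (T.N a))))) (T.X trX (T.I a)) := rfl
        omega)
    have h4 := Nat.le_of_ble_eq_true h3
    have r1 := T.rt_le hr 0 ha
    have r2 := T.rt_le hr 0 ha2
    have r3 := T.rt_le hr 0 ha3
    have eNc : T.N (T.I (T.N (T.I (T.N a)))) = T.I a := T.N_third ha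
    have v2 := T.sgv_at (ts := ts) ha2
    have v3 := T.sgv_at (ts := ts) ha3
    rw [eNc, T.I_I] at v2
    rw [eNc, T.I_I, T.I_I] at v3
    rw [eNc] at r3
    rw [T.rs_tri ha] at r1
    rw [T.rs_tri ha2] at r2 v2
    rw [T.rs_tri ha3] at r3 v3
    have v2' : sgv ts (dkey (T.kx (T.I (T.N a))) (T.jx (T.I (T.N a))))
        (T.X trX (T.N (T.I (T.N a)))) (T.X trX (T.I a)) (T.X trX (T.N a)) =
        T.sgx ts (T.I (T.N a)) := v2
    rw [v2', v3] at h4
    have e1 : DR.val (DL.grp l (T.X trX (T.N (T.I (T.N a))))) (T.X trX (T.I a)) = T.sgx ts a :=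
      e0'.symm
    rw [e1] at h4
    have d1 : T.dl t a = DL.val (DT.get t (dkey (T.kx a) (T.jx a))) (T.X trX (T.I a))
        (T.X trX (T.N a)) := by
      unfold dl
      rw [T.rs_tri ha]
    have d2 : T.dl t (T.I (T.N a)) = DL.val (DT.get t (dkey (T.kx (T.I (T.N a)))
        (T.jx (T.I (T.N a))))) (T.X trX (T.N a)) (T.X trX (T.N (T.I (T.N a)))) := by
      unfold dl
      rw [T.rs_tri ha2, T.I_I]
    have d3 : T.dl t (T.I (T.N (T.I (T.N a)))) = DL.val (DT.get t
        (dkey (T.kx (T.I (T.N (T.I (T.N a))))) (T.jx (T.I (T.N (T.I (T.N a)))))))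
        (T.X trX (T.N (T.I (T.N a)))) (T.X trX (T.I a)) := by
      unfold dl
      rw [T.rs_tri ha3, T.I_I, eNc]
    unfold sbud
    rw [T.rs_tri ha, T.rs_tri ha2, T.rs_tri ha3, d1, d2, d3]
    simp only [Nat.add_eq] at h4
    omega

/-- The claims of the row of a corner of a triangle without an amount. -/
theorem sx_of_cnn (h : ∀ k < 101, ∀ o < optN k, stXH D sp ps t rt ts k o = true)
    (hr : DT.all (rtR zt) rt = true) {a : F} (ha : T.Tri a)
    (hc : cnn (T.kx a) (T.ox a) = true) (h1 : T.sgx ts a = 0) (h2 : T.sgx ts (T.I (T.N a)) = 0)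
    (h3 : T.sgx ts (T.I (T.N (T.I (T.N a)))) = 0) : SC D sp ps t zt T a := by
  have ha2 := T.tri_rot ha
  have ha3 := T.tri_rot ha2
  rcases Nat.eq_zero_or_pos (T.dl t a) with h0 | h0
  · unfold SC
    rw [h0]
    exact ⟨Nat.zero_le _, fun h1 => absurd h1 (Nat.lt_irrefl 0)⟩
  have h4 := h _ (T.kx_lt a) _ (T.ox_lt_optN a)
  unfold stXH at h4
  rw [hc, rIf_true] at h4
  unfold stXO at h4
  rw [rForce_eq] at h4
  obtain ⟨h5, -⟩ := T.tri_px ha
  have h6 : stXC D sp ps t rt ts (T.kx a) (T.ox a) (T.jx a) = true :=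
    rAllN_iff.1 h4 (T.px a) (by
      show T.px a < triOff (T.kx a) (T.ox a + 1) - triOff (T.kx a) (T.ox a)
      rw [← length_tri]
      exact h5)
  unfold stXC at h6
  unfold dl at h0
  rw [T.rs_tri ha] at h0
  cases hrow : DT.get t (dkey (T.kx a) (T.jx a)) with
  | nil =>
    rw [hrow] at h0
    exact absurd h0 (lt_irrefl 0)
  | g x r l =>
    rw [hrow] at h6
    simp only [rForce_eq] at h6
    rw [← hrow, ← T.rot_k a, ← T.rot_o ha, ← T.rot_j ha, T.farK_eq ha, T.t3A_jx ha,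
      ← T.rot_j ha2] at h6
    have h7 := stXR_sound h6 (T.X trX (T.I a)) (T.X trX (T.N a)) (T.X trX (T.N (T.I (T.N a))))
    have r1 := T.rt_le hr 0 ha
    have r2 := T.rt_le hr 0 ha2
    have r3 := T.rt_le hr 0 ha3
    have eNc : T.N (T.I (T.N (T.I (T.N a)))) = T.I a := T.N_third ha
    have v1 := T.sgv_at (ts := ts) ha
    have v2 := T.sgv_at (ts := ts) ha2
    have v3 := T.sgv_at (ts := ts) ha3
    rw [eNc, T.I_I] at v2
    rw [eNc, T.I_I, T.I_I] at v3
    rw [eNc] at r3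
    rw [T.rs_tri ha] at r1 v1
    rw [T.rs_tri ha2] at r2 v2
    rw [T.rs_tri ha3] at r3 v3
    rw [v1, v2, v3, h1, h2, h3] at h7
    obtain ⟨h8, h9⟩ := h7
    have d1 : T.dl t a = DL.val (DT.get t (dkey (T.kx a) (T.jx a))) (T.X trX (T.I a))
        (T.X trX (T.N a)) := by
      unfold dl
      rw [T.rs_tri ha]
    have d2 : T.dl t (T.I (T.N a)) = DL.val (DT.get t (dkey (T.kx (T.I (T.N a)))
        (T.jx (T.I (T.N a))))) (T.X trX (T.N a)) (T.X trX (T.N (T.I (T.N a)))) := by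
      unfold dl
      rw [T.rs_tri ha2, T.I_I]
    have d3 : T.dl t (T.I (T.N (T.I (T.N a)))) = DL.val (DT.get t
        (dkey (T.kx (T.I (T.N (T.I (T.N a))))) (T.jx (T.I (T.N (T.I (T.N a)))))))
        (T.X trX (T.N (T.I (T.N a)))) (T.X trX (T.I a)) := by
      unfold dl
      rw [T.rs_tri ha3, T.I_I, eNc]
    simp only [Nat.add_eq] at h8 h9
    unfold SC
    rw [d1, d2, d3]
    unfold sbud
    rw [T.rs_tri ha, T.rs_tri ha2, T.rs_tri ha3]
    refine ⟨by omega, fun g1 g2 => ?_⟩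
    rcases h9 g1 g2 with g3 | g3
    · exact absurd g3 (by decide)
    · omega

section sym

variable (hsD : ∀ k < 101, symTK D k = true) (hps : ∀ (T : SMap F) (d : F), T.Tri d →
    T.relab.cz ps d = T.cz ps d) (hsp : ∀ (T : SMap F) (d : F), T.Tri d →
    T.relab.cz sp d = T.cz sp d)

include hsD hps hsp

theorem sx_at (h : ∀ k < 101, ∀ o < optN k, stXH D sp ps t rt ts k o = true)
    (hg : DT.all (sgH gp gm D sp ps t rt zt tw ts) ts = true)
    (hs : ∀ k < 101, ∀ o < optN k, sH t k o = true) (hy : DT.all (symY zt) zt = true)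
    (hr : DT.all (rtR zt) rt = true) {a : F} (ha : T.Tri a) (h1 : T.sgx ts a = 0)
    (h2 : T.sgx ts (T.I (T.N a)) = 0) (h3 : T.sgx ts (T.I (T.N (T.I (T.N a)))) = 0) :
    SC D sp ps t zt T a := by
  rcases T.cnn_or a with hc | hc
  · exact T.sx_of_cnn h hr ha hc h1 h2 h3
  · have h4 := T.relab.sx_of_cnn h hr (show T.relab.Tri a from ha) hc
      (by rw [T.relab_sgx hg, h1]) (by rw [T.relab_sgx hg]; exact h2)
      (by rw [T.relab_sgx hg]; exact h3)
    have ha2 := T.tri_rot ha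
    have ha3 := T.tri_rot ha2
    unfold SC at h4 ⊢
    simp only [relab_N, relab_I] at h4
    rw [T.relab_dlH hs ha, T.relab_dlH hs ha2, T.relab_dlH hs ha3, T.relab_sbud hsD hps hsp ha,
      T.relab_sbud hsD hps hsp ha2, T.relab_sbud hsD hps hsp ha3,
      T.relab_rz hy (by norm_num), T.relab_rz hy (by norm_num), T.relab_rz hy (by norm_num)] at h4
    exact h4

/-- **The closure of the corrections and the amounts over a triangle.** -/
theorem star_sumT (h : ∀ k < 101, ∀ o < optN k, stXH D sp ps t rt ts k o = true)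
    (hg : DT.all (sgH gp gm D sp ps t rt zt tw ts) ts = true)
    (hs : ∀ k < 101, ∀ o < optN k, sH t k o = true) (hy : DT.all (symY zt) zt = true)
    (hr : DT.all (rtR zt) rt = true) {a : F} (ha : T.Tri a) :
    (T.dl t a : ℤ) + T.dl t (T.I (T.N a)) + T.dl t (T.I (T.N (T.I (T.N a)))) ≤
      T.sbud D sp ps a + T.sbud D sp ps (T.I (T.N a)) +
        T.sbud D sp ps (T.I (T.N (T.I (T.N a)))) +
      (T.rz zt 0 a + T.rz zt 0 (T.I (T.N a)) + T.rz zt 0 (T.I (T.N (T.I (T.N a))))) +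
        (T.sg ts a + T.sg ts (T.I (T.N a)) + T.sg ts (T.I (T.N (T.I (T.N a))))) := by
  have hb := T.tri_rot ha
  have hc := T.tri_rot hb
  have e3 := T.rot_three ha
  by_cases h1 : T.sgx ts a = 0
  · by_cases h2 : T.sgx ts (T.I (T.N a)) = 0
    · by_cases h3 : T.sgx ts (T.I (T.N (T.I (T.N a)))) = 0
      · have g1 := T.sx_at hsD hps hsp h hg hs hy hr ha h1 h2 h3
        have g2 := T.sx_at hsD hps hsp h hg hs hy hr hb h2 h3 (by rw [e3]; exact h1)
        have g3 := T.sx_at hsD hps hsp h hg hs hy hr hc h3 (by rw [e3]; exact h1)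
          (by rw [e3]; exact h2)
        rw [T.sg_of_sgx h1, T.sg_of_sgx h2, T.sg_of_sgx h3]
        unfold SC at g1 g2 g3
        simp only [e3] at g2 g3
        obtain ⟨g1, g1'⟩ := g1
        obtain ⟨g2, g2'⟩ := g2
        obtain ⟨g3, g3'⟩ := g3
        rcases Nat.eq_zero_or_pos (T.dl t a) with ea | ea
        · rcases Nat.eq_zero_or_pos (T.dl t (T.I (T.N a))) with eb | eb
          · omega
          · rcases Nat.eq_zero_or_pos (T.dl t (T.I (T.N (T.I (T.N a))))) with ec | ec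
            · omega
            · have := g2' eb ec
              omega
        · rcases Nat.eq_zero_or_pos (T.dl t (T.I (T.N a))) with eb | eb
          · rcases Nat.eq_zero_or_pos (T.dl t (T.I (T.N (T.I (T.N a))))) with ec | ec
            · omega
            · have := g3' ec ea
              omega
          · have := g1' ea eb
            omega
      · have h4 := T.star_of_sgx hg hr h3
        rw [e3] at h4
        unfold sg
        omega
    · have h4 := T.star_of_sgx hg hr h2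
      rw [e3] at h4
      unfold sg
      omega
  · have h4 := T.star_of_sgx hg hr h1
    unfold sg
    omega

end sym

end chk

end SMap

end Pool.Agent.Lib.MP_5854e1_co
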