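import Pool.Agent.Lib.MP_5854e1_co.Cov

/-!
# What the final theorem needs of the search
-/

set_option autoImplicit false

open Equiv Equiv.Perm

namespace Pool.Agent.Lib.MP_5854e1_co.PB

universe u

/-- The search is complete: a canonical cell all of whose partial sums are positive satisfies every
claim that follows from the evaluation of its closed word. -/
def SrOK (R : ℕ → ℕ → Rw Blk) (nl Pn : ℕ → ℕ → ℕ) (cev : List Hs → ℕ → ℕ → Bool) : Prop :=
  ∀ (F : Type u) (T : SMap F) (L : F → ℕ) (val : F → ℤ), MapOK R nl Pn T L val →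
    ∀ (C : Prop) (d : F),
    (∀ hist x M, Hist R T (T.N d) (Function.minimalPeriod T.N (T.N d) - 1) hist →
      (R (T.kx d) (T.ox d)).blk (T.ox (T.N d)) = some (Blk.mk x M) → cev hist x M = true → C) →
    (∀ t, 1 ≤ pv T Pn L val d t) → cnn (T.kx (T.N d)) (T.ox (T.N d)) = true → C

/-- The first version of the search. -/
theorem srOK_of_tasks {R : ℕ → ℕ → Rw Blk} {nl Pn Rv : ℕ → ℕ → ℕ} {cev : List Hs → ℕ → ℕ → Bool}
    (hc : ∀ k0 < 101, cloK R nl Pn Rv k0 = true) {P : List (List Tk)}
    (hP : ∀ l ∈ P, runT R nl Rv cev l = true) (hcov : ∀ k < 101, covK P k = true) :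
    SrOK.{u} R nl Pn cev :=
  fun _ _ _ _ hT _ _ hcl hpos hcn => tasks_sound hc hP hcov hT hcl hpos hcn

end Pool.Agent.Lib.MP_5854e1_co.PB
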