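import Pool.Agent.Lib.MP_5854e1_co.Clo

/-!
# The search

The words of a cell are searched from a root pair, along the automaton of the scanner. The state is
the vector of the upper bounds of the partial sums, less the needs, over the lanes of the last two
corners. `cev` is the exact evaluation of a closed word.
-/

set_option autoImplicit false

open Equiv Equiv.Perm

namespace Pool.Agent.Lib.MP_5854e1_co

noncomputable section

/-! ### The masks of the automaton -/

namespace Nd

/-- No closing here if there is an arc. -/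
def hz (n : Nd) : Prop :=
  Nd.rec (motive := fun _ => Prop) (fun _ _ => True) (fun _ _ r _ _ => r.mask = 0) n

/-- The masks are 0, 1, 2 or 4, and zero at nodes with at least two arcs, in all nodes below. -/
def Msk (n : Nd) : Prop :=
  Nd.rec (motive := fun _ => Prop) (fun _ m => m = 0 ∨ m = 1 ∨ m = 2 ∨ m = 4)
    (fun _ _ rest ihc ihr => ihc ∧ ihr ∧ rest.hz) n

/-- The check of `hz`. -/
def hzB (n : Nd) : Bool :=
  Nd.rec (motive := fun _ => Bool) (fun _ _ => true)
    (fun _ _ r _ _ => Nat.beq r.mask (nat_lit 0)) n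

/-- The check of the masks. -/
def mskB (n : Nd) : Bool :=
  Nd.rec (motive := fun _ => Bool)
    (fun _ m => rIf (Nat.beq m (nat_lit 0)) true (rIf (Nat.beq m (nat_lit 1)) true
      (rIf (Nat.beq m (nat_lit 2)) true (Nat.beq m (nat_lit 4)))))
    (fun _ _ rest ihc ihr => rAnd ihc (rAnd ihr (hzB rest))) n

/-- The mask of a node with at most one arc, zero for the others. -/
def cmk (n : Nd) : ℕ :=
  Nd.rec (motive := fun _ => ℕ) (fun _ m => m)
    (fun _ _ rest _ _ => Nd.rec (motive := fun _ => ℕ) (fun _ m => m) (fun _ _ _ _ _ => nat_lit 0)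
      rest) n

theorem hz_of_hzB {n : Nd} (h : n.hzB = true) : n.hz := by
  cases n with
  | fin _ _ => trivial
  | arc _ _ r => exact Nat.eq_of_beq_eq_true h

theorem msk_of_mskB : ∀ n : Nd, n.mskB = true → n.Msk := by
  intro n
  induction n with
  | fin _ m =>
    intro h
    have h1 : rIf (Nat.beq m 0) true (rIf (Nat.beq m 1) true (rIf (Nat.beq m 2) true
      (Nat.beq m 4))) = true := h
    show m = 0 ∨ m = 1 ∨ m = 2 ∨ m = 4
    cases h0 : Nat.beq m 0 with
    | true => exact Or.inl (Nat.eq_of_beq_eq_true h0)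
    | false =>
      rw [h0, rIf_false] at h1
      cases h2 : Nat.beq m 1 with
      | true => exact Or.inr (Or.inl (Nat.eq_of_beq_eq_true h2))
      | false =>
        rw [h2, rIf_false] at h1
        cases h3 : Nat.beq m 2 with
        | true => exact Or.inr (Or.inr (Or.inl (Nat.eq_of_beq_eq_true h3)))
        | false =>
          rw [h3, rIf_false] at h1
          exact Or.inr (Or.inr (Or.inr (Nat.eq_of_beq_eq_true h1)))
  | arc c child rest ihc ihr =>
    intro h
    have h1 : rAnd child.mskB (rAnd rest.mskB rest.hzB) = true := h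
    obtain ⟨h2, h3⟩ := rAnd_iff.1 h1
    obtain ⟨h4, h5⟩ := rAnd_iff.1 h3
    exact ⟨ihc h2, ihr h4, hz_of_hzB h5⟩

theorem Msk.mem {n : Nd} (h : n.Msk) : n.mask = 0 ∨ n.mask = 1 ∨ n.mask = 2 ∨ n.mask = 4 := by
  induction n with
  | fin _ m => exact h
  | arc c child rest _ ihr => exact ihr h.2.1

theorem Msk.cmk_eq {n : Nd} (h : n.Msk) : n.cmk = n.mask := by
  cases n with
  | fin _ _ => rfl
  | arc c child rest =>
    cases rest with
    | fin _ _ => rfl
    | arc c1 ch1 r1 => exact (show r1.mask = 0 from h.2.2).symm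

theorem Msk.child {n m : Nd} (h : n.Msk) {c : ℕ} (hm : n.next c = some m) : m.Msk := by
  induction n with
  | fin _ _ => rw [next_fin] at hm; exact absurd hm (by simp)
  | arc c1 ch1 r1 _ ihr =>
    rcases next_arc_some hm with ⟨-, rfl⟩ | h8
    · exact h.1
    · exact ihr h.2.1 h8

theorem Msk.run {m : Nd} : ∀ {l : List ℕ} {n : Nd}, n.Msk → n.run l = some m → m.Msk := by
  intro l
  induction l with
  | nil =>
    intro n h hm
    obtain rfl := Option.some.inj hm
    exact h
  | cons c l ih =>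
    intro n h hm
    rw [run_cons] at hm
    cases h1 : n.next c with
    | none => rw [h1] at hm; exact absurd hm (by simp)
    | some m1 =>
      rw [h1] at hm
      exact ih (h.child h1) hm

end Nd

/-- The masks of the automaton. -/
theorem msk_rootN : rootN.Msk := Nd.msk_of_mskB _ (by decide +kernel)

/-- A node with a single path. -/
def chN (p : List ℕ) : Nd :=
  List.rec (motive := fun _ => Nd) (Nd.fin (nat_lit 0) (nat_lit 0))
    (fun c _ ih => Nd.arc c ih (Nd.fin (nat_lit 0) (nat_lit 0))) p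

theorem chN_run : ∀ p : List ℕ, (chN p).run p = some (Nd.fin 0 0)
  | [] => rfl
  | c :: p => by
    rw [Nd.run_cons]
    have e : chN (c :: p) = Nd.arc c (chN p) (Nd.fin 0 0) := rfl
    rw [e, Nd.next_arc, Nat.beq_refl, rIf_true]
    exact chN_run p

theorem chN_ord : ∀ p : List ℕ, (chN p).Ord
  | [] => trivial
  | c :: p => ⟨fun c' m h => absurd h (by rw [Nd.next_fin]; simp), chN_ord p, trivial⟩

/-! ### The entry of an option -/

namespace Rw

variable {α : Type}

theorem find_elim {β : Type} (h : α → β) (o : ℕ) : ∀ (r : Rw α) (X : Option α) (d : β),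
    find (fun _ b => h b) o r (X.elim d h) = (find (fun _ b => some b) o r X).elim d h := by
  intro r
  induction r with
  | nil => intro X d; rfl
  | hit o' k q b rest ih =>
    intro X d
    have h1 : ∀ {β : Type} (g : ℕ → α → β) (d : β), find g o (.hit o' k q b rest) d =
      Bool.rec (motive := fun _ => β) (find g o rest d) (g k b) (Nat.beq o' o) := fun _ _ => rfl
    rw [h1, h1]
    cases Nat.beq o' o with
    | true => rfl
    | false => exact ih X d
  | one c o' k q b rest ih =>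
    intro X d
    have h1 : ∀ {β : Type} (g : ℕ → α → β) (d : β), find g o (.one c o' k q b rest) d =
      Bool.rec (motive := fun _ => β) (find g o rest d) (g k b) (Nat.beq o' o) := fun _ _ => rfl
    rw [h1, h1]
    cases Nat.beq o' o with
    | true => rfl
    | false => exact ih X d
  | tok c q sub rest ihs ihr =>
    intro X d
    have h1 : ∀ {β : Type} (g : ℕ → α → β) (d : β), find g o (.tok c q sub rest) d =
      find g o sub (find g o rest d) := fun _ _ => rfl
    rw [h1, h1, ihr, ihs]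

theorem find_of_blk {β : Type} {h : α → β} {o : ℕ} {r : Rw α} {b : α} (hb : r.blk o = some b)
    (d : β) : find (fun _ b => h b) o r d = h b := by
  have h1 := find_elim h o r none d
  have h2 : find (fun _ b => some b) o r none = some b := hb
  rw [h2] at h1
  exact h1

end Rw

namespace PB

/-! ### The states -/

/-- The state `(op, S)` knows the value `v` at the lane `j` of `b` lanes; all fields of `S` are less
than `F`. -/
structure St (op : Op) (S F b j : ℕ) (v : ℤ) : Prop where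
  ex : ∃ a N φ, OpOK 22 tht kap0 a b N φ op.adv op.fol op.tst ∧ HB 22 N S F ∧
    ∃ i < a, (tht : ℤ) - kap0 - 1 + v ≤ fl 22 S (φ i j)
  lt : j < b
  pos : 1 ≤ v

theorem St.step {op : Op} {S F b j : ℕ} {v : ℤ} (h : St op S F b j v) {x M b' j' : ℕ} {v' : ℤ}
    (ha : fa x = b) (hb : fb x = b') (hM : HB 22 (nX x) M (2 ^ 17)) (hj : j' < b')
    (hv : v' - v + kap0 ≤ fl 22 M (plX x j j')) (hv' : 1 ≤ v') (hF : F + 2 ^ 17 ≤ 2 ^ 22)
    (hK : kap0 < F) :
    St (opX x) ((opX x).adv M (op.fol S)) (F + 2 ^ 16) b' j' v' := by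
  obtain ⟨a, N, φ, hop, hS, i, hi, hc⟩ := h.ex
  have hF0 : 0 < F := by omega
  have hx := opX_ok (x := x) (by have := h.lt; omega) (by omega)
  rw [ha, hb] at hx
  have h1 := hop.fol_HB hS hF0
  have h2 := hop.fol_le hS hF0 i hi j h.lt
  have e1 : tht = 1114112 := by norm_num [tht]
  have e2 : kap0 = 65536 := by norm_num [kap0]
  have h3 := hx.adv_le h1 hM hF j h.lt j' hj (by
    rw [e1, e2] at hc
    rw [e2] at hv
    rw [e1]
    push_cast at hc hv
    omega)
  refine ⟨⟨b, nX x, plX x, hx, ?_, j, h.lt, ?_⟩, hj, hv'⟩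
  · have h4 := hx.adv_HB h1 hM hF (by omega)
    have e3 : F + 2 ^ 17 - kap0 = F + 2 ^ 16 := by
      rw [e2]
      omega
    rwa [e3] at h4
  · rw [e1, e2] at hc ⊢
    rw [e2] at hv h3
    push_cast at hc hv ⊢
    omega

theorem St.tst {op : Op} {S F b j : ℕ} {v : ℤ} (h : St op S F b j v) {x M q b' j' : ℕ} {v' : ℤ}
    (hb : fb x = b') (hj : j' < b') (hq : Dom b q x M)
    (hv : v' - v + kap0 ≤ fl 22 M (plX x j j')) (hv' : 1 ≤ v') : op.tst q S = false := by
  obtain ⟨a, N, φ, hop, hS, i, hi, hc⟩ := h.ex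
  refine hop.tst_false hS hq.hb i hi j h.lt ?_
  have h1 := hq.le j h.lt j' (by rw [hb]; exact hj)
  have e1 : tht = 1114112 := by norm_num [tht]
  have e2 : kap0 = 65536 := by norm_num [kap0]
  rw [e1, e2] at hc
  rw [e2] at hv
  rw [e1] at h1
  push_cast at hc hv
  norm_num at h1 ⊢
  omega

/-- A state with a positive value is not empty. -/
theorem St.ne_zero {op : Op} {S F b j : ℕ} {v : ℤ} (h : St op S F b j v) : Nat.beq S 0 = false := by
  obtain ⟨a, N, φ, hop, hS, i, hi, hc⟩ := h.ex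
  cases hb : Nat.beq S 0 with
  | false => rfl
  | true =>
    have h1 : S = 0 := Nat.eq_of_beq_eq_true hb
    have h2 : fl 22 S (φ i j) = 0 := by rw [h1]; simp [fl]
    have e1 : tht = 1114112 := by norm_num [tht]
    have e2 : kap0 = 65536 := by norm_num [kap0]
    have := h.pos
    rw [h2, e1, e2] at hc
    push_cast at hc
    omega

/-! ### The search -/

section search

variable (R : ℕ → ℕ → Rw Blk) (cev : List Hs → ℕ → ℕ → Bool) (kr or : ℕ) (tk : List ℕ)

/-- The exact evaluation of a closed word, unless the state is empty. -/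
def cfin (k' oc x M S' : ℕ) (hist : List Hs) : Bool :=
  rIf (Nat.beq S' (nat_lit 0)) true
    (Rw.find (fun _ b => Blk.rec (motive := fun _ => Bool)
      (fun x1 M1 => cev (List.cons (Hs.mk k' oc x M) hist) x1 M1) b) or (R k' oc) true)

/-- The closing option of the node with the mask `mask`. -/
def clo (fol : ℕ → ℕ) (tst : ℕ → ℕ → Bool) (k o k' S l : ℕ) (hist : List Hs) (mask : ℕ) : Bool :=
  Rw.go (fun q => tst q S)
    (fun oc kk b _ => rIf (Nat.beq kk kr)
      (Blk.rec (motive := fun _ => Bool)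
        (fun x M => cfin R cev or k' oc x M ((opX x).adv M (fol S)) hist) b) true)
    (R k o)
    (chN (List.cons (Nat.add (Nat.div mask (nat_lit 2)) (Nat.mul (nat_lit 3) (rotC (lastC k') l)))
      tk))

/-- The closing part of a state. -/
def clz (fol : ℕ → ℕ) (tst : ℕ → ℕ → Bool) (k o k' S l : ℕ) (hist : List Hs) (mask : ℕ) : Bool :=
  rIf (Nat.beq mask (nat_lit 0)) true (clo R cev kr or tk fol tst k o k' S l hist mask)

/-- The label of the root after one more option. -/
def nxl (k o l : ℕ) : ℕ := rotC (Nat.mod (Nat.div (optA k o) (nat_lit 3)) (nat_lit 24)) l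

/-- The call for a child; `ih` treats it. -/
def chl (ih : ℕ → ℕ → ℕ → Nd → Op → ℕ → ℕ → List Hs → Bool) (fol : ℕ → ℕ) (k' S l : ℕ)
    (hist : List Hs) (o k : ℕ) (b : Blk) (m : Nd) : Bool :=
  Blk.rec (motive := fun _ => Bool)
    (fun x M => ih k' o k m (opX x) ((opX x).adv M (fol S)) (nxl k' o l)
      (List.cons (Hs.mk k' o x M) hist)) b

/-- One state. -/
def stp (ih : ℕ → ℕ → ℕ → Nd → Op → ℕ → ℕ → List Hs → Bool) (k o k' : ℕ) (m : Nd) (op : Op)
    (S l : ℕ) (hist : List Hs) : Bool :=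
  Op.rec (motive := fun _ => Bool) (fun _ fol tst =>
    rAnd (clz R cev kr or tk fol tst k o k' S l hist m.cmk)
      (Rw.go (fun q => tst q S) (chl ih fol k' S l hist) (R k o) m)) op

/-- The search. -/
def srch (fuel : ℕ) : ℕ → ℕ → ℕ → Nd → Op → ℕ → ℕ → List Hs → Bool :=
  Nat.rec (motive := fun _ => ℕ → ℕ → ℕ → Nd → Op → ℕ → ℕ → List Hs → Bool)
    (fun _ _ _ _ _ _ _ _ => false) (fun _ ih => stp R cev kr or tk ih) fuel

end search

/-! ### Soundness -/

section sound

variable {R : ℕ → ℕ → Rw Blk} {nl Pn Rv : ℕ → ℕ → ℕ}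
variable {F : Type*} (T : SMap F)

/-- The history of the cell of `e` after `t + 1` strips. -/
inductive Hist (R : ℕ → ℕ → Rw Blk) (T : SMap F) (e : F) : ℕ → List Hs → Prop
  | root : Hist R T e 0 [Hs.mk (T.kx e) (T.ox e) 0 0]
  | step {t : ℕ} {h : List Hs} {x M : ℕ} (h0 : Hist R T e t h)
      (hb : (R (T.kx (T.N^[t] e)) (T.ox (T.N^[t] e))).blk (T.ox (T.N^[t + 1] e)) =
        some (Blk.mk x M)) :
      Hist R T e (t + 1) (Hs.mk (T.kx (T.N^[t + 1] e)) (T.ox (T.N^[t + 1] e)) x M :: h)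

/-- The need of the corner after a strip, `L` is its lane. -/
def ndF (Pn : ℕ → ℕ → ℕ) (L : F → ℕ) (d : F) : ℤ := (fl 22 (Pn (T.kx d) (T.ox d)) (L d) : ℕ)

/-- The partial sum of the values, less the need of the corner reached. -/
def pv (Pn : ℕ → ℕ → ℕ) (L : F → ℕ) (val : F → ℤ) (d : F) (t : ℕ) : ℤ :=
  ∑ i ∈ Finset.range (t + 1), val (T.N^[i] d) - ndF T Pn L (T.N^[t + 1] d)

/-- What the search needs of the values and the lanes of a map. -/
structure MapOK (R : ℕ → ℕ → Rw Blk) (nl Pn : ℕ → ℕ → ℕ) (T : SMap F) (L : F → ℕ)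
    (val : F → ℤ) : Prop where
  lane : ∀ d, L d < nl (T.kx d) (T.ox d)
  blk : ∀ d, ∃ b, (R (T.kx d) (T.ox d)).blk (T.ox (T.N d)) = some b ∧
    val d + ndF T Pn L d - ndF T Pn L (T.N d) + kap0 ≤ fd b (L d) (L (T.N d))

variable {T}

theorem pv_succ (Pn : ℕ → ℕ → ℕ) (L : F → ℕ) (val : F → ℤ) (d : F) (t : ℕ) :
    pv T Pn L val d (t + 1) = pv T Pn L val d t + val (T.N^[t + 1] d) +
      ndF T Pn L (T.N^[t + 1] d) - ndF T Pn L (T.N (T.N^[t + 1] d)) := by
  unfold pv
  rw [Finset.sum_range_succ, Function.iterate_succ_apply' T.N (t + 1) d]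
  ring

/-- One step: the entry of the next pair is reached, its tests do not prune, and the state is known
again. -/
theorem step_at (hc : ∀ k0 < 101, cloK R nl Pn Rv k0 = true) {L : F → ℕ} {val : F → ℤ}
    (hT : MapOK R nl Pn T L val) {d : F} {t : ℕ} {op : Op} {S G : ℕ}
    (hS : St op S G (nl (T.kx (T.N^[t] (T.N d))) (T.ox (T.N^[t] (T.N d)))) (L (T.N^[t] (T.N d)))
      (pv T Pn L val d t)) (hG : G + 2 ^ 17 ≤ 2 ^ 22) (hK : kap0 < G)
    (hpos : 1 ≤ pv T Pn L val d (t + 1)) :
    ∃ x M qs, (R (T.kx (T.N^[t] (T.N d))) (T.ox (T.N^[t] (T.N d)))).blk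
        (T.ox (T.N^[t + 1] (T.N d))) = some (Blk.mk x M) ∧
      Rw.At (R (T.kx (T.N^[t] (T.N d))) (T.ox (T.N^[t] (T.N d))))
        (stepT (T.kx (T.N^[t + 1] (T.N d))) (T.oc (T.N^[t + 1] (T.N d))))
        (T.ox (T.N^[t + 1] (T.N d))) (T.kx (T.N^[t + 2] (T.N d))) (Blk.mk x M) qs ∧
      (∀ q ∈ qs, op.tst q S = false) ∧
      St (opX x) ((opX x).adv M (op.fol S)) (G + 2 ^ 16)
        (nl (T.kx (T.N^[t + 1] (T.N d))) (T.ox (T.N^[t + 1] (T.N d))))
        (L (T.N^[t + 1] (T.N d))) (pv T Pn L val d (t + 1)) := by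
  have e1 : T.N^[t + 1] (T.N d) = T.N (T.N^[t] (T.N d)) := Function.iterate_succ_apply' T.N t _
  have e2 : T.N^[t + 2] (T.N d) = T.N (T.N (T.N^[t] (T.N d))) := by
    rw [Function.iterate_succ_apply' T.N (t + 1), e1]
  have e3 : T.N^[t + 1] d = T.N^[t] (T.N d) := rfl
  have e4 := pv_succ (T := T) Pn L val d t
  rw [e3] at e4
  rw [e1, e2]
  set a := T.N^[t] (T.N d) with ha
  obtain ⟨b, h1, h2⟩ := hT.blk a
  cases b with
  | mk x M =>
    rw [fd_mk] at h2
    obtain ⟨qs, h3, h4, h5⟩ := blk_at hc T a h1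
    have hv : pv T Pn L val d (t + 1) - pv T Pn L val d t + kap0 ≤
        fl 22 M (plX x (L a) (L (T.N a))) := by
      rw [e4]
      linarith
    have hfa : fa x = nl (T.kx a) (T.ox a) := h4.fa
    have hfb : fb x = nl (T.kx (T.N a)) (T.ox (T.N a)) := h4.fb
    exact ⟨x, M, qs, h1, h3, fun q hq => hS.tst hfb (hT.lane _) (h5 q hq) hv hpos,
      hS.step hfa hfb h4.hb (hT.lane _) hv hpos hG hK⟩

theorem mask_cases : ∀ κ < 3, ∀ m : ℕ, (m = 0 ∨ m = 1 ∨ m = 2 ∨ m = 4) → m.testBit κ = true →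
    m ≠ 0 ∧ m / 2 = κ := by
  intro κ hκ m hm
  rcases hm with rfl | rfl | rfl | rfl <;> interval_cases κ <;> decide

variable (cev : List Hs → ℕ → ℕ → Bool)

theorem clo_sound (hc : ∀ k0 < 101, cloK R nl Pn Rv k0 = true) {L : F → ℕ} {val : F → ℤ}
    (hT : MapOK R nl Pn T L val) {C : Prop} {d : F}
    (hcl : ∀ hist x M, Hist R T (T.N d) (Function.minimalPeriod T.N (T.N d) - 1) hist →
      (R (T.kx d) (T.ox d)).blk (T.ox (T.N d)) = some (Blk.mk x M) → cev hist x M = true → C)
    {t : ℕ} (ht : t + 2 = Function.minimalPeriod T.N (T.N d)) {op : Op} {S G l mask : ℕ}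
    {hist : List Hs}
    (hS : St op S G (nl (T.kx (T.N^[t] (T.N d))) (T.ox (T.N^[t] (T.N d)))) (L (T.N^[t] (T.N d)))
      (pv T Pn L val d t)) (hG : G + 2 ^ 17 ≤ 2 ^ 22) (hK : kap0 < G)
    (hpos : 1 ≤ pv T Pn L val d (t + 1)) (hh : Hist R T (T.N d) t hist)
    (hl : l = T.lx (T.N^[t + 1] (T.N d)) (T.N d))
    (hm : mask = 0 ∨ mask = 1 ∨ mask = 2 ∨ mask = 4)
    (hb : bt mask (kc (T.K (T.N d))) = true)
    (h : clz R cev (T.kx (T.N d)) (T.ox (T.N d)) (tokT (T.kx (T.N d))) op.fol op.tst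
      (T.kx (T.N^[t] (T.N d))) (T.ox (T.N^[t] (T.N d))) (T.kx (T.N^[t + 1] (T.N d))) S l hist
      mask = true) : C := by
  obtain ⟨x, M, qs, h1, h2, h3, h4⟩ := step_at hc hT hS hG hK hpos
  have hp : T.N^[t + 2] (T.N d) = T.N d := by
    rw [ht]
    exact Function.isPeriodicPt_minimalPeriod T.N (T.N d)
  have hd : T.N^[t + 1] (T.N d) = d := by
    have e : T.N (T.N^[t + 1] (T.N d)) = T.N d := by
      rw [← Function.iterate_succ_apply' T.N (t + 1)]
      exact hp
    exact T.N.injective e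
  have hk := kc_lt (T.K (T.N d))
  have hmask : mask ≠ 0 ∧ mask / 2 = kc (T.K (T.N d)) := by
    rw [bt_eq] at hb
    exact mask_cases _ hk _ hm hb
  have hz : Nat.beq mask 0 = false := by
    cases h0 : Nat.beq mask 0 with
    | false => rfl
    | true => exact absurd (Nat.eq_of_beq_eq_true h0) hmask.1
  have h5 : clo R cev (T.kx (T.N d)) (T.ox (T.N d)) (tokT (T.kx (T.N d))) op.fol op.tst
      (T.kx (T.N^[t] (T.N d))) (T.ox (T.N^[t] (T.N d))) (T.kx (T.N^[t + 1] (T.N d))) S l hist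
      mask = true := by
    unfold clz at h
    rw [hz, rIf_false] at h
    exact h
  -- the path
  have hoc : T.oc (T.N^[t + 1] (T.N d)) = kc (T.K (T.N d)) + 3 * l + 72 * T.kx (T.N d) := by
    have e : T.N (T.N^[t + 1] (T.N d)) = T.N d := by rw [hd]
    unfold SMap.oc ocode
    rw [e, hl]
  have hl24 : l < 24 := by rw [hl]; exact T.lx_lt _ _
  have hpath : stepT (T.kx (T.N^[t + 1] (T.N d))) (T.oc (T.N^[t + 1] (T.N d))) =
      Nat.add (Nat.div mask 2) (Nat.mul 3 (rotC (lastC (T.kx (T.N^[t + 1] (T.N d)))) l)) ::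
        tokT (T.kx (T.N d)) := by
    rw [stepT_arcC, hoc]
    have e1 : Nat.div (kc (T.K (T.N d)) + 3 * l + 72 * T.kx (T.N d)) 72 = T.kx (T.N d) := by
      show (kc (T.K (T.N d)) + 3 * l + 72 * T.kx (T.N d)) / 72 = T.kx (T.N d)
      omega
    have e2 : Nat.mod (kc (T.K (T.N d)) + 3 * l + 72 * T.kx (T.N d)) 3 = Nat.div mask 2 := by
      show (kc (T.K (T.N d)) + 3 * l + 72 * T.kx (T.N d)) % 3 = mask / 2
      omega
    have e3 : Nat.mod (Nat.div (kc (T.K (T.N d)) + 3 * l + 72 * T.kx (T.N d)) 3) 24 = l := by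
      show (kc (T.K (T.N d)) + 3 * l + 72 * T.kx (T.N d)) / 3 % 24 = l
      omega
    unfold arcC
    rw [e1, e2, e3]
  have hr := pair_at hc T (T.N^[t] (T.N d))
  have h6 := Rw.go_sound hr.2.wf (chN_ord _) h5 h2 h3 (by rw [hpath]; exact chN_run _)
  rw [hp, Nat.beq_refl, rIf_true] at h6
  have h7 : cfin R cev (T.ox (T.N d)) (T.kx (T.N^[t + 1] (T.N d))) (T.ox (T.N^[t + 1] (T.N d))) x M
      ((opX x).adv M (op.fol S)) hist = true := h6
  unfold cfin at h7
  rw [h4.ne_zero, rIf_false, hd] at h7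
  obtain ⟨b1, h8, -⟩ := hT.blk d
  cases b1 with
  | mk x1 M1 =>
    rw [Rw.find_of_blk h8] at h7
    refine hcl _ x1 M1 ?_ h8 h7
    have e : Function.minimalPeriod T.N (T.N d) - 1 = t + 1 := by omega
    rw [e]
    have h9 := Hist.step hh h1
    rw [hd] at h9
    exact h9

/-- **Soundness of the search.** -/
theorem srch_sound (hc : ∀ k0 < 101, cloK R nl Pn Rv k0 = true) {L : F → ℕ} {val : F → ℤ}
    (hT : MapOK R nl Pn T L val) {C : Prop} {d : F}
    (hcl : ∀ hist x M, Hist R T (T.N d) (Function.minimalPeriod T.N (T.N d) - 1) hist →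
      (R (T.kx d) (T.ox d)).blk (T.ox (T.N d)) = some (Blk.mk x M) → cev hist x M = true → C)
    (hpos : ∀ t, 1 ≤ pv T Pn L val d t) {ν : ℕ → Nd}
    (hν : ∀ j, j + 1 < Function.minimalPeriod T.N (T.N d) →
      (ν j).run (stepT (T.kx (T.N^[j] (T.N d))) (T.oc (T.N^[j] (T.N d)))) = some (ν (j + 1)))
    (hord : ∀ j < Function.minimalPeriod T.N (T.N d), (ν j).Ord)
    (hmsk : ∀ j < Function.minimalPeriod T.N (T.N d), (ν j).Msk)
    (hend : bt (ν (Function.minimalPeriod T.N (T.N d) - 1)).mask (kc (T.K (T.N d))) = true) :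
    ∀ (fuel : ℕ) {t : ℕ} (_ : t + 1 < Function.minimalPeriod T.N (T.N d)) {op : Op} {S G l : ℕ}
    {hist : List Hs}
    (_ : St op S G (nl (T.kx (T.N^[t] (T.N d))) (T.ox (T.N^[t] (T.N d)))) (L (T.N^[t] (T.N d)))
      (pv T Pn L val d t)) (_ : G + fuel * 2 ^ 16 + 2 ^ 16 ≤ 2 ^ 22) (_ : kap0 < G)
    (_ : Hist R T (T.N d) t hist) (_ : l = T.lx (T.N^[t + 1] (T.N d)) (T.N d))
    (_ : srch R cev (T.kx (T.N d)) (T.ox (T.N d)) (tokT (T.kx (T.N d))) fuel
      (T.kx (T.N^[t] (T.N d))) (T.ox (T.N^[t] (T.N d))) (T.kx (T.N^[t + 1] (T.N d))) (ν (t + 1))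
      op S l hist = true), C := by
  intro fuel
  induction fuel with
  | zero =>
    intro t _ op S G l hist _ _ _ _ _ h
    exact absurd h Bool.false_ne_true
  | succ fuel ih =>
    intro t ht op S G l hist hS hG hK hh hl h
    cases op with
    | mk adv fol tst =>
      have h1 : rAnd (clz R cev (T.kx (T.N d)) (T.ox (T.N d)) (tokT (T.kx (T.N d))) fol tst
          (T.kx (T.N^[t] (T.N d))) (T.ox (T.N^[t] (T.N d))) (T.kx (T.N^[t + 1] (T.N d))) S l hist
          (ν (t + 1)).cmk)
          (Rw.go (fun q => tst q S) (chl (srch R cev (T.kx (T.N d)) (T.ox (T.N d))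
            (tokT (T.kx (T.N d))) fuel) fol (T.kx (T.N^[t + 1] (T.N d))) S l hist)
            (R (T.kx (T.N^[t] (T.N d))) (T.ox (T.N^[t] (T.N d)))) (ν (t + 1))) = true := h
      obtain ⟨h2, h3⟩ := rAnd_iff.1 h1
      have hG' : G + 2 ^ 17 ≤ 2 ^ 22 := by omega
      rcases Nat.lt_or_ge (t + 2) (Function.minimalPeriod T.N (T.N d)) with h4 | h4
      · obtain ⟨x, M, qs, g1, g2, g3, g4⟩ := step_at hc hT hS hG' hK (hpos (t + 1))
        have hr := pair_at hc T (T.N^[t] (T.N d))
        have h5 := Rw.go_sound hr.2.wf (hord _ (by omega)) h3 g2 g3 (hν (t + 1) (by omega))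
        have hl' : nxl (T.kx (T.N^[t + 1] (T.N d))) (T.ox (T.N^[t + 1] (T.N d))) l =
            T.lx (T.N^[t + 2] (T.N d)) (T.N d) := by
          unfold nxl
          rw [T.optA_ox, hl]
          have e : Nat.mod (Nat.div (T.oc (T.N^[t + 1] (T.N d))) 3) 24 =
              T.lx (T.N^[t + 1] (T.N d)) (T.N (T.N^[t + 1] (T.N d))) :=
            ocode_q (kc_lt _) (T.lx_lt _ _)
          rw [e, ← T.lx_rot]
          congr 1
          exact (Function.iterate_succ_apply' T.N (t + 1) _).symm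
        exact ih (t := t + 1) h4 g4 (by omega) (by omega) (Hist.step hh g1) hl'.symm.symm h5
      · have h6 : t + 2 = Function.minimalPeriod T.N (T.N d) := by omega
        have e : Function.minimalPeriod T.N (T.N d) - 1 = t + 1 := by omega
        rw [e] at hend
        have hm := hmsk (t + 1) (by omega)
        rw [hm.cmk_eq] at h2
        exact clo_sound cev hc hT hcl h6 hS hG' hK (hpos (t + 1)) hh hl hm.mem hend h2

end sound

end PB

end

end Pool.Agent.Lib.MP_5854e1_co
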