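import Pool.Agent.Lib.MP_5854e1_co.SrOK
import Pool.Agent.Lib.MP_5854e1_co.FclM

/-!
# The search and the evaluation of closed words
-/

set_option autoImplicit false

open Equiv Equiv.Perm

namespace Pool.Agent.Lib.MP_5854e1_co.SMap

open Finset PB CE CE.Cell

universe u

variable {F : Type u} (T : SMap F)

theorem hsl_congr {k o x M k' o' x' M' : ℕ → ℕ} {x1 M1 : ℕ} : ∀ {t : ℕ}
    (_ : ∀ i, 1 ≤ i → i ≤ t → k i = k' i ∧ o i = o' i)
    (_ : ∀ i, 2 ≤ i → i ≤ t → x i = x' i ∧ M i = M' i),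
    hsl k o x M x1 M1 t = hsl k' o' x' M' x1 M1 t
  | 0, _, _ => rfl
  | 1, h, _ => by
    have h1 := h 1 le_rfl le_rfl
    show [Hs.mk (k 1) (o 1) x1 M1] = [Hs.mk (k' 1) (o' 1) x1 M1]
    rw [h1.1, h1.2]
  | t + 2, h, h' => by
    have h1 := h (t + 2) (by omega) le_rfl
    have h2 := h' (t + 2) (by omega) le_rfl
    have h3 := hsl_congr (x1 := x1) (M1 := M1) (t := t + 1) (fun i h4 h5 => h i h4 (by omega))
      (fun i h4 h5 => h' i h4 (by omega))
    show Hs.mk (k (t + 2)) (o (t + 2)) (x (t + 2)) (M (t + 2)) :: hsl k o x M x1 M1 (t + 1) =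
      Hs.mk (k' (t + 2)) (o' (t + 2)) (x' (t + 2)) (M' (t + 2)) :: hsl k' o' x' M' x1 M1 (t + 1)
    rw [h1.1, h1.2, h2.1, h2.2, h3]

variable {T} {R : ℕ → ℕ → Rw Blk}

/-- The history of the search as a list of blocks. -/
theorem hist_eq {d : F} {x M : ℕ → ℕ} : ∀ {t : ℕ} {hist : List Hs}
    (_ : ∀ n, 1 ≤ n → n ≤ t → (R (T.kx (T.N^[n] d)) (T.ox (T.N^[n] d))).blk (T.ox (T.N^[n + 1] d)) =
      some (Blk.mk (x (n + 1)) (M (n + 1)))) (_ : Hist R T (T.N d) t hist),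
    hist = hsl (fun n => T.kx (T.N^[n] d)) (fun n => T.ox (T.N^[n] d)) x M 0 0 (t + 1) := by
  intro t hist hb hh
  induction hh with
  | root => rfl
  | @step t h x0 M0 h0 h1 ih =>
    have h2 := ih fun n h3 h4 => hb n h3 (by omega)
    have h3 := hb (t + 1) (by omega) le_rfl
    have h4 : some (Blk.mk x0 M0) = some (Blk.mk (x (t + 1 + 1)) (M (t + 1 + 1))) :=
      h1.symm.trans h3
    have h5 := Option.some.inj h4
    obtain ⟨h6, h7⟩ := Blk.mk.inj h5
    rw [h2, h6, h7]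
    rfl

variable {c : Tabs} {tl : ℕ → ℕ → ℕ} {vx : ℕ → ℕ → ℕ → ℕ → ℕ → ℕ → ℕ} {Pn Rv : ℕ → ℕ → ℕ}
  {rg : Pth → ℕ → Bool}

/-- **The search hypothesis of `bound_of_tabs`.** -/
theorem search_sum (hclo : ∀ k0 < 101, cloK R nl Pn Rv k0 = true)
    (htok : rAllN (tokChk c.tr tl) 101 = true)
    (hsr : SrOK.{u} R nl Pn (evl c tl vx rg))
    (T : SMap F)
    (hnd : ∀ e : F, T.ndt c e = T.ggt c e + ndF T Pn T.lnT e)
    (hent : ∀ e : F, ∃ b, (R (T.kx e) (T.ox e)).blk (T.ox (T.N e)) = some b ∧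
      T.gz c.V e + T.ndt c e - T.ndt c (T.N e) + kap0 ≤ (fd b (T.lnT e) (T.lnT (T.N e)) : ℤ))
    (hvx : ∀ e : F, ¬T.Tri (T.N e) →
      (vx (T.kx e) (T.ox e) (T.lnT e) (T.kx (T.N e)) (T.ox (T.N e)) (T.rs (T.N e) - 7936) : ℤ) =
        max 0 (T.gz c.V e + T.ndt c e - T.ndt c (T.N e) + kap0))
    (d : F)
    (hk : okey (T.kx (T.N d)) (T.ox (T.N d)) ≤
      okey (mK (T.kx (T.N d))) (mO' (T.kx (T.N d)) (T.ox (T.N d))))
    (hpos : ∀ n, T.ndt c (T.N^[n + 1] d) <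
      ∑ i ∈ range (n + 1), T.gz c.V (T.N^[i] d) + T.ggt c d) :
    ∃ m : ℕ, ∑ i ∈ range (Function.minimalPeriod T.N d),
      (T.gz c.V (T.N^[i] d) - T.dlt c (T.N^[i + 1] d)) ≤ m ∧ (m = 0 ∨ rg (T.pthO d) m = true) := by
  have hT : MapOK R nl Pn T T.lnT (fun e => T.gz c.V e + T.ggt c e - T.ggt c (T.N e)) := by
    refine ⟨fun e => T.lnT_lt e, fun e => ?_⟩
    obtain ⟨b, h1, h2⟩ := hent e
    rw [hnd e, hnd (T.N e)] at h2
    refine ⟨b, h1, le_trans (le_of_eq ?_) h2⟩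
    ring
  have htel : ∀ t, ∑ i ∈ range (t + 1), (T.gz c.V (T.N^[i] d) + T.ggt c (T.N^[i] d) -
      T.ggt c (T.N (T.N^[i] d))) = ∑ i ∈ range (t + 1), T.gz c.V (T.N^[i] d) + T.ggt c d -
        T.ggt c (T.N^[t + 1] d) := by
    intro t
    induction t with
    | zero =>
      rw [Finset.sum_range_one, Finset.sum_range_one]
      rfl
    | succ t ih =>
      rw [Finset.sum_range_succ, ih,
        Finset.sum_range_succ (fun i => T.gz c.V (T.N^[i] d)) (t + 1),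
        Function.iterate_succ_apply' T.N (t + 1)]
      ring
  have hpv : ∀ t, 1 ≤ pv T Pn T.lnT (fun e => T.gz c.V e + T.ggt c e - T.ggt c (T.N e)) d t := by
    intro t
    have h1 := hpos t
    rw [hnd] at h1
    unfold pv
    rw [htel t]
    linarith
  have hp1 : Function.minimalPeriod T.N (T.N d) = Function.minimalPeriod T.N d :=
    T.period_iterate d 1
  have h3 := T.three d
  have hper : T.N^[Function.minimalPeriod T.N d] d = d := Function.isPeriodicPt_minimalPeriod T.N d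
  refine hsr F T T.lnT _ hT _ d (fun hist x' M' hh hb hcev => ?_) hpv (cnn_iff.2 hk)
  -- the blocks as functions
  have hex : ∀ n, ∃ xM : ℕ × ℕ, (R (T.kx (T.N^[n] d)) (T.ox (T.N^[n] d))).blk
      (T.ox (T.N^[n + 1] d)) = some (Blk.mk xM.1 xM.2) := by
    intro n
    obtain ⟨b, h1, -⟩ := hent (T.N^[n] d)
    cases b with
    | mk x M =>
      refine ⟨(x, M), ?_⟩
      rw [Function.iterate_succ_apply' T.N n d]
      exact h1
  choose g hg using hex
  have hx : ∀ n, (R (T.kx (T.N^[n] d)) (T.ox (T.N^[n] d))).blk (T.ox (T.N^[n + 1] d)) =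
      some (Blk.mk ((fun m => (g (m - 1)).1) (n + 1)) ((fun m => (g (m - 1)).2) (n + 1))) :=
    fun n => hg n
  have h4 := hist_eq (x := fun m => (g (m - 1)).1) (M := fun m => (g (m - 1)).2)
    (fun n _ _ => hx n) hh
  have h5 := Option.some.inj (hb.symm.trans (hx 0))
  obtain ⟨h6, h7⟩ := Blk.mk.inj h5
  have e : Function.minimalPeriod T.N (T.N d) - 1 + 1 = Function.minimalPeriod T.N d := by omega
  rw [e] at h4
  rw [h4, h6, h7] at hcev
  exact T.closed_sum_g hclo htok (gg := T.ggt c) (fun e => by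
      rw [hnd]
      exact le_add_of_nonneg_right (Int.natCast_nonneg _))
    (fun e b hb' => by
      obtain ⟨b1, h8, h9⟩ := hent e
      rw [hb'] at h8
      rw [Option.some.inj h8]
      exact h9) hvx d _ _ (fun n _ => hx n) hpos hcev

end Pool.Agent.Lib.MP_5854e1_co.SMap
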