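import Pool.Agent.Lib.MP_5854e1_co.Discharge

/-!
# Outer darts of the 24-dart model

`E` gaps, outer darts, the next outer dart and the kinds of corners.
-/

set_option autoImplicit false

open Equiv Equiv.Perm

namespace Pool.Agent.Lib.MP_5854e1_co

namespace Model24

variable {D : Type*} (M : Model24 D)

/-- The word of a cell read from `s`, periodically extended: block `j` is
`(c j, b j 0), …, (c j, b j 3)`. -/
structure IsWord (s : D) (c : ℕ → Fin 7) (b : ℕ → ℕ → Fin 7) : Prop where
  c_per : ∀ j, c (j + 6) = c j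
  b_per : ∀ j k, b (j + 6) k = b j k
  c_ne : ∀ j, c j ≠ 0
  c_inj : ∀ i < 6, ∀ j < 6, c i = c j → i = j
  b_ne : ∀ j, ∀ k < 4, b j k ≠ 0
  b_adj : ∀ j, ∀ k < 4, K1222.Adj (c j) (b j k)
  b_inj : ∀ j, ∀ k < 4, ∀ l < 4, b j k = b j l → k = l
  word : ∀ j, ∀ k < 4, M.lab (M.nxt^[4 * j + k] s) = (c j, b j k)

variable {M}

theorem iterate_add_24 (i : ℕ) (d : D) : M.nxt^[i + 24] d = M.nxt^[i] d := by
  rw [Function.iterate_add_apply, M.period24]

theorem exists_word_aux (d : D) : ∃ (s : D) (i : ℕ) (c : ℕ → Fin 7) (b : ℕ → ℕ → Fin 7),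
    i < 24 ∧ M.nxt^[i] s = d ∧ M.IsWord s c b := by
  obtain ⟨s, i, hi, h1, h2, c, b, -, hc0, hcinj, hb0, hadj, hbinj, hw⟩ := M.cell d
  have hmod : ∀ j, (j + 6) % 6 = j % 6 := fun j => by omega
  refine ⟨s, i, fun j => c (j % 6), fun j k => b (j % 6) k, hi, h1, ?_, ?_, fun j => hc0 _, ?_,
    fun j k hk => hb0 _ k hk, fun j k hk => hadj _ k hk, fun j k hk l hl h => hbinj _ k hk l hl h,
    ?_⟩
  · intro j; simp only [hmod]
  · intro j k; simp only [hmod]
  · intro i hi j hj h
    simp only [Nat.mod_eq_of_lt hi, Nat.mod_eq_of_lt hj] at h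
    exact hcinj i hi j hj h
  · intro j k hk
    have e : 4 * j + k = (4 * (j % 6) + k) + 24 * (j / 6) := by omega
    have : ∀ m i, M.nxt^[i + 24 * m] s = M.nxt^[i] s := by
      intro m
      induction m with
      | zero => intro i; rfl
      | succ m ih =>
        intro i
        rw [show i + 24 * (m + 1) = (i + 24 * m) + 24 by ring, iterate_add_24, ih]
    rw [e, this]
    exact hw (j % 6) (Nat.mod_lt _ (by norm_num)) k hk

theorem IsWord.shift {s : D} {c : ℕ → Fin 7} {b : ℕ → ℕ → Fin 7} (h : M.IsWord s c b) (m : ℕ) :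
    M.IsWord (M.nxt^[4 * m] s) (fun j => c (j + m)) (fun j => b (j + m)) := by
  have hc : ∀ m i j, c (i + m) = c (j + m) → i < 6 → j < 6 → i = j := by
    intro m
    induction m with
    | zero => intro i j hij hi hj; exact h.c_inj i hi j hj hij
    | succ m ih =>
      intro i j hij hi hj
      -- use the translates by `m`
      have key : ∀ a, a < 6 → c (a + (m + 1)) = c ((a + 1) % 6 + m) := by
        intro a ha
        rcases Nat.lt_or_ge (a + 1) 6 with h1 | h1
        · rw [Nat.mod_eq_of_lt h1]; congr 1; ring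
        · have : a = 5 := by omega
          subst this
          rw [show 5 + (m + 1) = m + 6 by ring, h.c_per]
          simp
      rw [key i hi, key j hj] at hij
      have := ih _ _ hij (Nat.mod_lt _ (by norm_num)) (Nat.mod_lt _ (by norm_num))
      omega
  refine ⟨fun j => ?_, fun j k => ?_, fun j => h.c_ne _, fun i hi j hj hij => hc m i j hij hi hj,
    fun j k hk => h.b_ne _ k hk, fun j k hk => h.b_adj _ k hk,
    fun j k hk l hl e => h.b_inj _ k hk l hl e, fun j k hk => ?_⟩
  · rw [show j + 6 + m = (j + m) + 6 by ring, h.c_per]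
  · show b (j + 6 + m) k = b (j + m) k
    rw [show j + 6 + m = (j + m) + 6 by ring, h.b_per]
  · rw [← Function.iterate_add_apply, show 4 * j + k + 4 * m = 4 * (j + m) + k by ring,
      h.word _ k hk]

/-- Every dart lies in the first block of some word of its cell. -/
theorem exists_word (d : D) : ∃ (s : D) (k : ℕ) (c : ℕ → Fin 7) (b : ℕ → ℕ → Fin 7),
    k < 4 ∧ M.nxt^[k] s = d ∧ M.IsWord s c b := by
  obtain ⟨s, i, c, b, hi, h1, h2⟩ := exists_word_aux (M := M) d
  refine ⟨M.nxt^[4 * (i / 4)] s, i % 4, _, _, Nat.mod_lt _ (by norm_num), ?_, h2.shift (i / 4)⟩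
  rw [← Function.iterate_add_apply, show i % 4 + 4 * (i / 4) = i by omega, h1]

namespace IsWord

variable {s : D} {c : ℕ → Fin 7} {b : ℕ → ℕ → Fin 7} (h : M.IsWord s c b)

include h in
theorem lab_eq (i : ℕ) : M.lab (M.nxt^[i] s) = (c (i / 4), b (i / 4) (i % 4)) := by
  have := h.word (i / 4) (i % 4) (Nat.mod_lt _ (by norm_num))
  rwa [Nat.div_add_mod] at this

include h in
theorem c_mod (j : ℕ) : c j = c (j % 6) := by
  induction j using Nat.strong_induction_on with
  | _ j ih =>
    rcases Nat.lt_or_ge j 6 with h1 | h1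
    · rw [Nat.mod_eq_of_lt h1]
    · obtain ⟨k, rfl⟩ := Nat.exists_eq_add_of_le' h1
      rw [h.c_per, ih k (by omega)]
      congr 1
      omega

include h in
theorem c_inj' {i j : ℕ} (hij : c i = c j) : i % 6 = j % 6 := by
  rw [h.c_mod i, h.c_mod j] at hij
  exact h.c_inj _ (Nat.mod_lt _ (by norm_num)) _ (Nat.mod_lt _ (by norm_num)) hij

include h in
theorem lab_inj {i j : ℕ} (hij : M.lab (M.nxt^[i] s) = M.lab (M.nxt^[j] s)) : i % 24 = j % 24 := by
  rw [h.lab_eq, h.lab_eq, Prod.mk.injEq] at hij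
  have h1 := h.c_inj' hij.1
  have hb : ∀ a b' : ℕ, a % 6 = b' % 6 → ∀ k, b a k = b b' k := by
    have : ∀ a k, b a k = b (a % 6) k := by
      intro a
      induction a using Nat.strong_induction_on with
      | _ a ih =>
        intro k
        rcases Nat.lt_or_ge a 6 with h1 | h1
        · rw [Nat.mod_eq_of_lt h1]
        · obtain ⟨t, rfl⟩ := Nat.exists_eq_add_of_le' h1
          rw [h.b_per, ih t (by omega)]
          congr 1
          omega
    intro a b' hab k
    rw [this a, this b', hab]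
  have h2 := hij.2
  rw [hb _ _ h1] at h2
  have h3 := h.b_inj _ _ (Nat.mod_lt _ (by norm_num)) _ (Nat.mod_lt _ (by norm_num)) h2
  omega

end IsWord

/-- The labels in a cell are pairwise different. -/
theorem lab_inj {d : D} {i j : ℕ} (h : M.lab (M.nxt^[i] d) = M.lab (M.nxt^[j] d)) :
    i % 24 = j % 24 := by
  obtain ⟨s, k, c, b, hk, rfl, hw⟩ := exists_word (M := M) d
  rw [← Function.iterate_add_apply, ← Function.iterate_add_apply] at h
  have := hw.lab_inj h
  omega

theorem lab_adj (d : D) : K1222.Adj (M.lab d).1 (M.lab d).2 := by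
  obtain ⟨s, k, c, b, hk, rfl, hw⟩ := exists_word (M := M) d
  have := hw.word 0 k hk
  simp only [mul_zero, zero_add] at this
  rw [this]
  exact hw.b_adj 0 k hk

theorem lab_fst_ne (d : D) : (M.lab d).1 ≠ 0 := by
  obtain ⟨s, k, c, b, hk, rfl, hw⟩ := exists_word (M := M) d
  have := hw.word 0 k hk
  simp only [mul_zero, zero_add] at this
  rw [this]
  exact hw.c_ne 0

theorem lab_snd_ne (d : D) : (M.lab d).2 ≠ 0 := by
  obtain ⟨s, k, c, b, hk, rfl, hw⟩ := exists_word (M := M) d
  have := hw.word 0 k hk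
  simp only [mul_zero, zero_add] at this
  rw [this]
  exact hw.b_ne 0 k hk

theorem inv_ne (d : D) : M.inv d ≠ d := by
  intro h
  have h1 := M.lab_inv d
  rw [h] at h1
  have h2 := lab_adj (M := M) d
  rw [Prod.ext_iff] at h1
  have h3 : (M.lab d).1 = (M.lab d).2 := h1.1
  rw [h3] at h2
  exact K1222.loopless.irrefl _ h2

theorem period_eq_24 [Finite D] (d : D) : Function.minimalPeriod M.nxt d = 24 := by
  have h1 : Function.IsPeriodicPt M.nxt 24 d := M.period24 d
  have h2 := h1.minimalPeriod_dvd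
  have hp := minimalPeriod_pos' M.nxt d
  have h3 : M.nxt^[Function.minimalPeriod M.nxt d] d = M.nxt^[0] d :=
    Function.isPeriodicPt_minimalPeriod M.nxt d
  have h4 := lab_inj (M := M) (congrArg M.lab h3)
  have h5 := Nat.le_of_dvd (by norm_num) h2
  omega

end Model24

end Pool.Agent.Lib.MP_5854e1_co
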