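import Pool.Agent.Lib.MP_5854e1_co.StripA
import Pool.Agent.Lib.MP_5854e1_co.Ret

/-!
# Outer darts

A gap of kind `E` is a pair `d, nxt d = inv d` of consecutive darts of a cell (the edge of the cell
which closes a triangle at the apex). All other darts are outer.
-/

set_option autoImplicit false

open Equiv Equiv.Perm

namespace Pool.Agent.Lib.MP_5854e1_co

namespace Model24

variable {D : Type*} (M : Model24 D)

/-- First dart of an `E` gap. -/
def EStart (d : D) : Prop := M.nxt d = M.inv d

/-- Second dart of an `E` gap. -/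
def EEnd (d : D) : Prop := M.nxt (M.inv d) = d

/-- Outer darts. -/
def Outer (d : D) : Prop := ¬ M.EStart d ∧ ¬ M.EEnd d

variable {M}

theorem eStart_inv {d : D} : M.EStart (M.inv d) ↔ M.EEnd d := by
  unfold EStart EEnd
  rw [M.inv_inv]

theorem eEnd_inv {d : D} : M.EEnd (M.inv d) ↔ M.EStart d := by
  unfold EStart EEnd
  rw [M.inv_inv]

theorem outer_inv {d : D} : M.Outer (M.inv d) ↔ M.Outer d := by
  unfold Outer
  rw [eStart_inv, eEnd_inv]
  exact and_comm

theorem EStart.eEnd_nxt {d : D} (h : M.EStart d) : M.EEnd (M.nxt d) := by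
  rw [h, eEnd_inv]
  exact h

theorem EEnd.exists {d : D} (h : M.EEnd d) : M.EStart (M.inv d) ∧ M.nxt (M.inv d) = d :=
  ⟨eStart_inv.2 h, h⟩

theorem eEnd_nxt_iff {d : D} : M.EEnd (M.nxt d) ↔ M.EStart d := by
  constructor
  · intro h
    have h1 : M.inv (M.nxt d) = d := M.nxt.injective h
    show M.nxt d = M.inv d
    rw [← h1, M.inv_inv, h1]
  · exact EStart.eEnd_nxt

/-- An `E` gap sits at the end of a block. -/
theorem IsWord.eStart {s : D} {c : ℕ → Fin 7} {b : ℕ → ℕ → Fin 7} (h : M.IsWord s c b) {j k : ℕ}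
    (hk : k < 4) (he : M.EStart (M.nxt^[4 * j + k] s)) :
    k = 3 ∧ b j 3 = c (j + 1) ∧ b (j + 1) 0 = c j := by
  have h1 := M.lab_inv (M.nxt^[4 * j + k] s)
  rw [← he, h.word j k hk, ← Function.iterate_succ_apply' M.nxt] at h1
  have hk3 : k = 3 := by
    by_contra hne
    have h2 := h.word j (k + 1) (by omega)
    rw [show (4 * j + k).succ = 4 * j + (k + 1) from rfl, h2] at h1
    rw [Prod.ext_iff] at h1
    have h3 : c j = b j k := h1.1
    have h4 := h.b_adj j k hk
    rw [← h3] at h4
    exact K1222.loopless.irrefl _ h4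
  subst hk3
  have h2 := h.word (j + 1) 0 (by norm_num)
  rw [show (4 * j + 3).succ = 4 * (j + 1) + 0 by omega, h2] at h1
  rw [Prod.ext_iff] at h1
  exact ⟨rfl, h1.1.symm, h1.2⟩

/-- After an `E` gap comes an outer dart, and before it. -/
theorem EStart.outer_after {d : D} (h : M.EStart d) : M.Outer (M.nxt (M.nxt d)) := by
  obtain ⟨s, k, c, b, hk, rfl, hw⟩ := exists_word (M := M) d
  have h1 := (hw.eStart (j := 0) hk (by simpa using h)).1
  subst h1
  constructor
  · intro h2
    rw [← Function.iterate_succ_apply' M.nxt, ← Function.iterate_succ_apply' M.nxt] at h2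
    have := (hw.eStart (j := 1) (k := 1) (by norm_num) h2).1
    omega
  · rw [eEnd_nxt_iff]
    intro h2
    rw [← Function.iterate_succ_apply' M.nxt] at h2
    have := (hw.eStart (j := 1) (k := 0) (by norm_num) h2).1
    omega

theorem not_eStart_of_eEnd {d : D} (h : M.EEnd d) : ¬ M.EStart d := by
  intro h2
  have h3 := (EEnd.exists h)
  have h4 := h3.1.outer_after
  rw [h3.2] at h4
  exact h4.2 h2.eEnd_nxt

/-- The next dart after an outer dart is outer or starts an `E` gap. -/
theorem Outer.nxt_cases {d : D} (h : M.Outer d) : M.Outer (M.nxt d) ∨ M.EStart (M.nxt d) := by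
  by_cases h1 : M.EStart (M.nxt d)
  · exact Or.inr h1
  · refine Or.inl ⟨h1, ?_⟩
    rw [eEnd_nxt_iff]
    exact h.1

variable (M)

open Classical in
/-- The next outer dart. -/
noncomputable def onxt (d : D) : D := if M.EStart (M.nxt d) then M.nxt (M.nxt (M.nxt d)) else M.nxt d

open Classical in
/-- The previous outer dart. -/
noncomputable def oprv (d : D) : D :=
  if M.EEnd (M.nxt⁻¹ d) then M.nxt⁻¹ (M.nxt⁻¹ (M.nxt⁻¹ d)) else M.nxt⁻¹ d

variable {M}

theorem outer_onxt {d : D} (h : M.Outer d) : M.Outer (M.onxt d) := by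
  unfold onxt
  split_ifs with h1
  · exact h1.outer_after
  · exact h.nxt_cases.resolve_right h1

theorem outer_oprv {d : D} (h : M.Outer d) : M.Outer (M.oprv d) := by
  unfold oprv
  split_ifs with h1
  · -- `nxt⁻¹ d` ends an E gap
    obtain ⟨h2, h3⟩ := EEnd.exists h1
    set e := M.inv (M.nxt⁻¹ d)
    have h4 : M.nxt⁻¹ (M.nxt⁻¹ d) = e := by rw [← h3]; simp
    rw [h4]
    refine ⟨?_, ?_⟩
    · intro h5
      have h6 := h5.outer_after
      rw [show M.nxt (M.nxt⁻¹ e) = e by simp, h3] at h6
      exact h6.2 h1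
    · intro h5
      obtain ⟨h6, h7⟩ := EEnd.exists h5
      have h8 := h6.outer_after
      rw [h7] at h8
      have h9 : M.nxt (M.nxt⁻¹ e) = e := by simp
      rw [h9] at h8
      exact h8.1 h2
  · refine ⟨?_, h1⟩
    intro h2
    have := h2.eEnd_nxt
    rw [show M.nxt (M.nxt⁻¹ d) = d by simp] at this
    exact h.2 this

theorem oprv_onxt {d : D} (h : M.Outer d) : M.oprv (M.onxt d) = d := by
  unfold onxt
  split_ifs with h1
  · unfold oprv
    have h2 : M.nxt⁻¹ (M.nxt (M.nxt (M.nxt d))) = M.nxt (M.nxt d) := by simp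
    rw [h2, if_pos (eEnd_nxt_iff.2 h1)]
    simp
  · unfold oprv
    have h2 : M.nxt⁻¹ (M.nxt d) = d := by simp
    rw [h2, if_neg h.2]

theorem onxt_oprv {d : D} (h : M.Outer d) : M.onxt (M.oprv d) = d := by
  unfold oprv
  split_ifs with h1
  · obtain ⟨h2, h3⟩ := EEnd.exists h1
    have h4 : M.nxt⁻¹ (M.nxt⁻¹ d) = M.inv (M.nxt⁻¹ d) := by
      conv_lhs => rw [← h3]
      simp
    unfold onxt
    rw [show M.nxt (M.nxt⁻¹ (M.nxt⁻¹ (M.nxt⁻¹ d))) = M.nxt⁻¹ (M.nxt⁻¹ d) by simp, h4, if_pos h2,
      h3]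
    simp
  · unfold onxt
    rw [show M.nxt (M.nxt⁻¹ d) = d by simp, if_neg h.1]

variable (M)

/-- The type of outer darts. -/
abbrev ODart : Type _ := {d : D // M.Outer d}

/-- The rotation of the outer darts. -/
noncomputable def onx : Perm M.ODart where
  toFun d := ⟨M.onxt d.1, outer_onxt d.2⟩
  invFun d := ⟨M.oprv d.1, outer_oprv d.2⟩
  left_inv d := Subtype.ext (oprv_onxt d.2)
  right_inv d := Subtype.ext (onxt_oprv d.2)

/-- The reversal of the outer darts. -/
def oin : Perm M.ODart where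
  toFun d := ⟨M.inv d.1, outer_inv.2 d.2⟩
  invFun d := ⟨M.inv d.1, outer_inv.2 d.2⟩
  left_inv d := Subtype.ext (M.inv_inv d.1)
  right_inv d := Subtype.ext (M.inv_inv d.1)

/-- The faces of the contracted map of the outer darts. -/
noncomputable def ofc : Perm M.ODart := M.oin.trans M.onx

variable {M}

@[simp] theorem onx_coe (d : M.ODart) : (M.onx d).1 = M.onxt d.1 := rfl
@[simp] theorem oin_coe (d : M.ODart) : (M.oin d).1 = M.inv d.1 := rfl
theorem ofc_apply (d : M.ODart) : M.ofc d = M.onx (M.oin d) := rfl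
@[simp] theorem oin_oin (d : M.ODart) : M.oin (M.oin d) = d := Subtype.ext (M.inv_inv d.1)

/-- The rotation of the outer darts is the first return map of the rotation. -/
theorem isRet_onx : IsRet M.Outer M.nxt M.onx := by
  intro d
  by_cases h : M.EStart (M.nxt d.1)
  · refine ⟨3, by norm_num, ?_, ?_⟩
    · rw [onx_coe, onxt, if_pos h]
      rfl
    · intro j h0 h1 h2
      rcases (show j = 1 ∨ j = 2 by omega) with rfl | rfl
      · exact h2.1 h
      · exact h2.2 (EStart.eEnd_nxt h)
  · refine ⟨1, by norm_num, ?_, fun j h0 h1 => by omega⟩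
    rw [onx_coe, onxt, if_neg h]
    rfl

/-- The faces of the contracted map are the first return map of the faces. -/
theorem isRet_ofc : IsRet M.Outer M.face M.ofc := by
  intro d
  by_cases h : M.EStart (M.nxt (M.inv d.1))
  · refine ⟨2, by norm_num, ?_, ?_⟩
    · rw [ofc_apply, onx_coe, oin_coe, onxt, if_pos h]
      show M.nxt (M.inv (M.nxt (M.inv d.1))) = _
      rw [← h]
    · intro j h0 h1 h2
      obtain rfl : j = 1 := by omega
      exact h2.1 h
  · refine ⟨1, by norm_num, ?_, fun j h0 h1 => by omega⟩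
    rw [ofc_apply, onx_coe, oin_coe, onxt, if_neg h]
    rfl

/-- The kinds of corners. -/
inductive Kind
  | P | E | S
  deriving DecidableEq

open Classical in
variable (M) in
/-- The kind of the corner between `d` and `onxt d`: `P` inside a block, `E` over an `E` gap, `S`
over a gap without edge. -/
noncomputable def kind (d : D) : Kind :=
  if M.EStart (M.nxt d) then Kind.E
  else if (M.lab (M.nxt d)).1 = (M.lab d).1 then Kind.P else Kind.S

end Model24

end Pool.Agent.Lib.MP_5854e1_co
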