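import Pool.Agent.Lib.MP_5854e1_co.StripB

/-!
# Digons, strips and the discharging inequality for strips
-/

set_option autoImplicit false

open Equiv Equiv.Perm

namespace Pool.Agent.Lib.MP_5854e1_co

namespace Model24

variable {D : Type*} (M : Model24 D)

/-- The face at the corner before the outer dart `d` is a digon. -/
def Dig (d : M.ODart) : Prop := M.ofc (M.ofc d) = d

variable {M}

theorem dig_ofc {d : M.ODart} : M.Dig (M.ofc d) ↔ M.Dig d := by
  unfold Dig
  constructor
  · intro h
    exact M.ofc.injective h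
  · intro h
    rw [h]

/-- The digon at the corner `(e, onx e)`. -/
theorem dig_onx_iff {e : M.ODart} : M.Dig (M.onx e) ↔ M.onx (M.oin (M.onx e)) = M.oin e := by
  unfold Dig
  rw [ofc_apply (M.ofc (M.onx e)), ofc_apply (M.onx e)]
  constructor
  · intro h
    have h1 := M.onx.injective h
    rw [← oin_oin (M.onx (M.oin (M.onx e))), h1]
  · intro h
    rw [h, oin_oin]

theorem dig_oin_iff {e : M.ODart} : M.Dig (M.oin e) ↔ M.Dig (M.onx e) := by
  rw [dig_onx_iff]
  unfold Dig
  rw [ofc_apply (M.ofc (M.oin e)), ofc_apply (M.oin e), oin_oin]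

/-- There is no face with one outer dart. -/
theorem ofc_ne (d : M.ODart) : M.ofc d ≠ d := by
  intro h
  have h1 : M.onxt (M.inv d.1) = d.1 := congrArg Subtype.val h
  unfold onxt at h1
  split_ifs at h1 with h2
  · obtain ⟨s, k, c, b, hk, hs, hw⟩ := exists_word (M := M) (M.inv d.1)
    have h3 : M.EStart (M.nxt^[4 * 0 + (k + 1)] s) := by
      rw [show 4 * 0 + (k + 1) = (k + 1) by ring, Function.iterate_succ_apply', hs]
      exact h2
    have hk3 : k + 1 = 3 := by
      rcases Nat.lt_or_ge (k + 1) 4 with h4 | h4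
      · exact (hw.eStart h4 h3).1
      · exfalso
        have hk3 : k = 3 := by omega
        subst hk3
        have := (hw.eStart (j := 1) (k := 0) (by norm_num) (by simpa using h3)).1
        omega
    have hk2 : k = 2 := by omega
    subst hk2
    have h4 := hw.eStart (j := 0) (k := 3) (by norm_num) h3
    have h5 : M.nxt^[4 * 1 + 1] s = d.1 := by
      rw [← h1, ← hs]
      rfl
    have h6 := hw.word 1 1 (by norm_num)
    rw [h5] at h6
    have h7 := hw.word 0 2 (by norm_num)
    rw [show 4 * 0 + 2 = 2 by norm_num, hs, M.lab_inv, h6, Prod.ext_iff] at h7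
    have h8 : c 1 = b 0 2 := h7.2
    have h9 := h4.2.1
    rw [zero_add, h8] at h9
    have := hw.b_inj 0 3 (by norm_num) 2 (by norm_num) h9
    omega
  · exact d.2.2 h1

/-- The first darts of the strips: outer darts such that the corner before them is not a
digon. -/
abbrev FDart (M : Model24 D) : Type _ := {d : M.ODart // ¬ M.Dig d}

variable (M) in
/-- The faces with at least three outer darts. -/
noncomputable def ffc : Perm M.FDart := M.ofc.subtypePerm fun d => by rw [dig_ofc]

@[simp] theorem ffc_coe (d : M.FDart) : (M.ffc d).1 = M.ofc d.1 := rfl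

theorem ffc_iterate (d : M.FDart) (i : ℕ) : (M.ffc^[i] d).1 = M.ofc^[i] d.1 := by
  induction i with
  | zero => rfl
  | succ i ih => rw [Function.iterate_succ_apply', Function.iterate_succ_apply', ffc_coe, ih]

theorem ffc_period (d : M.FDart) :
    Function.minimalPeriod M.ffc d = Function.minimalPeriod M.ofc d.1 := by
  apply Function.minimalPeriod_eq_minimalPeriod_iff.2
  intro n
  unfold Function.IsPeriodicPt Function.IsFixedPt
  rw [Subtype.ext_iff, ffc_iterate]

section

variable [Fintype D]

open Classical in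
/-- The weight of a dart for a weight `k` of the corners of the big faces. -/
noncomputable def kap (k : M.FDart → ℚ) (d : D) : ℚ :=
  if M.EEnd d then 1
  else if h : M.Outer d then (if h2 : M.Dig ⟨d, h⟩ then 1 / 2 else k ⟨⟨d, h⟩, h2⟩) else 0

theorem kap_eEnd (k : M.FDart → ℚ) {d : D} (h : M.EEnd d) : kap k d = 1 := by
  unfold kap
  rw [if_pos h]

theorem kap_dig (k : M.FDart → ℚ) (d : M.ODart) (h : M.Dig d) : kap k d.1 = 1 / 2 := by
  unfold kap
  rw [if_neg d.2.2, dif_pos d.2, dif_pos h]

theorem kap_first (k : M.FDart → ℚ) (d : M.FDart) : kap k d.1.1 = k d := by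
  unfold kap
  rw [if_neg d.1.2.2, dif_pos d.1.2, dif_neg d.2]

theorem kap_nonneg_off (k : M.FDart → ℚ) {d : D} (h : ¬ M.Outer d) : 0 ≤ kap k d := by
  unfold kap
  split_ifs <;> norm_num

open Classical in
theorem one_le_kap (k : M.FDart → ℚ)
    (hk : ∀ d, 1 ≤ ∑ i ∈ Finset.range (Function.minimalPeriod M.ffc d), k (M.ffc^[i] d)) (x : D) :
    1 ≤ ∑ i ∈ Finset.range (Function.minimalPeriod M.face x), kap k (M.face^[i] x) := by
  have outer : ∀ x : M.ODart, 1 ≤ ∑ i ∈ Finset.range (Function.minimalPeriod M.face x.1),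
      kap k (M.face^[i] x.1) := by
    intro x
    have h1 : ∑ i ∈ Finset.range (Function.minimalPeriod M.face x.1),
        (if M.Outer (M.face^[i] x.1) then kap k (M.face^[i] x.1) else 0) ≤
        ∑ i ∈ Finset.range (Function.minimalPeriod M.face x.1), kap k (M.face^[i] x.1) := by
      refine Finset.sum_le_sum fun i _ => ?_
      split_ifs with h
      · exact le_rfl
      · exact kap_nonneg_off k h
    refine le_trans ?_ h1
    have h2 := (isRet_ofc (M := M)).sum_eq (fun d => if M.Outer d then kap k d else 0)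
      (fun d hd => if_neg hd) x
    rw [h2]
    have h3 : ∀ i, (if M.Outer (M.ofc^[i] x).1 then kap k (M.ofc^[i] x).1 else 0) =
        kap k (M.ofc^[i] x).1 := fun i => if_pos (M.ofc^[i] x).2
    simp only [h3]
    by_cases hd : M.Dig x
    · have hp : Function.minimalPeriod M.ofc x = 2 := by
        have h4 : Function.IsPeriodicPt M.ofc 2 x := hd
        have h5 := h4.minimalPeriod_dvd
        have h6 := Nat.le_of_dvd (by norm_num) h5
        have h7 := minimalPeriod_pos' M.ofc x
        have h8 : Function.minimalPeriod M.ofc x ≠ 1 := by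
          intro h9
          exact ofc_ne x (Function.minimalPeriod_eq_one_iff_isFixedPt.1 h9)
        omega
      rw [hp, Finset.sum_range_succ, Finset.sum_range_succ, Finset.sum_range_zero]
      rw [kap_dig k _ (by exact hd), kap_dig k _ (by exact dig_ofc.2 hd)]
      norm_num
    · have h4 := hk ⟨x, hd⟩
      rw [ffc_period] at h4
      refine h4.trans (le_of_eq (Finset.sum_congr rfl fun i _ => ?_))
      rw [← kap_first k, ffc_iterate]
  by_cases h1 : M.EEnd x
  · have h2 : Function.minimalPeriod M.face x = 1 :=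
      Function.minimalPeriod_eq_one_iff_isFixedPt.2 h1
    rw [h2, Finset.sum_range_one]
    exact (kap_eEnd k h1).ge
  · by_cases h2 : M.EStart x
    · have h3 : M.face x = M.nxt (M.nxt x) := by
        rw [face_apply, h2]
      have h4 := outer ⟨M.face x, by rw [h3]; exact h2.outer_after⟩
      rw [sum_range_period] at h4 ⊢
      refine h4.trans (le_of_eq (Finset.sum_congr ?_ fun _ _ => rfl))
      ext y
      simp only [Finset.mem_filter, Finset.mem_univ, true_and]
      have h5 : M.face.SameCycle x (M.face x) := ⟨1, by simp⟩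
      exact ⟨fun h => h5.trans h, fun h => h5.symm.trans h⟩
    · exact outer ⟨x, h2, h1⟩

open Classical in
/-- Euler counting: the number of faces is at most `12 n - f / 2 + ∑ k` where `n` is the number
of cells and `f` the number of strip ends. -/
theorem cyc_face_le (k : M.FDart → ℚ)
    (hk : ∀ d, 1 ≤ ∑ i ∈ Finset.range (Function.minimalPeriod M.ffc d), k (M.ffc^[i] d)) :
    (cyc M.face : ℚ) ≤ 12 * cyc M.nxt + ∑ d : M.FDart, (k d - 1 / 2) := by
  have h1 := cyc_le_sum M.face (kap k) (one_le_kap k hk)
  refine h1.trans (le_of_eq ?_)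
  -- the number of darts
  have h2 : (Fintype.card D : ℚ) = 24 * cyc M.nxt := by
    rw [cyc_eq_sum]
    simp only [period_eq_24]
    rw [Finset.sum_const, Finset.card_univ, nsmul_eq_mul]
    norm_num
    ring
  -- split the sum
  have h3 : ∑ d, kap k d = ∑ d : D, (if M.EEnd d then (1 : ℚ) else 0) +
      ∑ d : M.ODart, kap k d.1 := by
    have e1 : ∑ d : M.ODart, kap k d.1 = ∑ d : D, (if M.Outer d then kap k d else 0) := by
      rw [← Finset.sum_filter, ← Finset.sum_subtype_eq_sum_filter]
      refine Finset.sum_congr ?_ fun _ _ => rfl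
      ext d
      simp
    rw [e1, ← Finset.sum_add_distrib]
    refine Finset.sum_congr rfl fun d _ => ?_
    by_cases h : M.EEnd d
    · rw [kap_eEnd k h, if_pos h, if_neg (fun h2 : M.Outer d => h2.2 h), add_zero]
    · rw [if_neg h, zero_add]
      by_cases h2 : M.Outer d
      · rw [if_pos h2]
      · rw [if_neg h2]
        unfold kap
        rw [if_neg h, dif_neg h2]
  have h4 : ∑ d : M.ODart, kap k d.1 = ∑ d : M.ODart, (1 / 2 : ℚ) +
      ∑ d : M.FDart, (k d - 1 / 2) := by
    have e1 : ∑ d : M.FDart, (k d - 1 / 2) =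
        ∑ d : M.ODart, (if ¬ M.Dig d then kap k d.1 - 1 / 2 else 0) := by
      rw [← Finset.sum_filter, ← Finset.sum_subtype_eq_sum_filter]
      refine Finset.sum_congr ?_ fun d _ => by rw [kap_first]
      ext d
      simp
    rw [e1, ← Finset.sum_add_distrib]
    refine Finset.sum_congr rfl fun d _ => ?_
    by_cases h : M.Dig d
    · rw [kap_dig k d h, if_neg (not_not.2 h), add_zero]
    · rw [if_pos h]
      ring
  have h5 : (Fintype.card D : ℚ) = 2 * ∑ d : D, (if M.EEnd d then (1 : ℚ) else 0) +
      Fintype.card M.ODart := by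
    have e1 : ∑ d : D, (if M.EEnd d then (1 : ℚ) else 0) =
        ∑ d : D, (if M.EStart d then (1 : ℚ) else 0) := by
      have := Equiv.sum_comp M.inv (fun d => if M.EEnd d then (1 : ℚ) else 0)
      rw [← this]
      refine Finset.sum_congr rfl fun d _ => ?_
      simp only [eEnd_inv]
    have e2 : (Fintype.card M.ODart : ℚ) = ∑ d : D, (if M.Outer d then (1 : ℚ) else 0) := by
      rw [Fintype.card_subtype, Finset.sum_boole]
    have e3 : (Fintype.card D : ℚ) = ∑ _d : D, (1 : ℚ) := by simp
    rw [two_mul, e2, e3]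
    nth_rw 2 [e1]
    rw [← Finset.sum_add_distrib, ← Finset.sum_add_distrib]
    refine Finset.sum_congr rfl fun d _ => ?_
    by_cases h : M.EEnd d
    · rw [if_pos h, if_neg (not_eStart_of_eEnd h), if_neg (fun h2 : M.Outer d => h2.2 h)]
      norm_num
    · by_cases h2 : M.EStart d
      · rw [if_neg h, if_pos h2, if_neg (fun h3 : M.Outer d => h3.1 h2)]
        norm_num
      · rw [if_neg h, if_neg h2, if_pos ⟨h2, h⟩]
        norm_num
  rw [h3, h4, Finset.sum_const, Finset.card_univ, nsmul_eq_mul]
  linarith

end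

end Model24

end Pool.Agent.Lib.MP_5854e1_co
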