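import Pool.Agent.Lib.MP_5854e1_co.StripC

/-!
# The map of strips

`nst` is the rotation (next strip of the cell) and `ist` the reversal (the same strip seen from the
other side) of the strips; both act on the first darts of the strips.
-/

set_option autoImplicit false

open Equiv Equiv.Perm

namespace Pool.Agent.Lib.MP_5854e1_co

namespace Model24

variable {D : Type*} [Finite D] (M : Model24 D)

/-- The number of darts of the strip which begins at `f`. -/
noncomputable def len (f : M.FDart) : ℕ := rtime (fun d => ¬ M.Dig d) M.onx f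

/-- The next strip of the cell. -/
noncomputable def nst : Perm M.FDart := retPerm (fun d => ¬ M.Dig d) M.onx

variable {M}

theorem len_pos (f : M.FDart) : 0 < M.len f := rtime_pos _ _ f

theorem not_dig_len (f : M.FDart) : ¬ M.Dig (M.onx^[M.len f] f.1) :=
  rtime_spec (fun d => ¬ M.Dig d) M.onx f

theorem dig_of_lt (f : M.FDart) {i : ℕ} (h0 : 0 < i) (h : i < M.len f) :
    M.Dig (M.onx^[i] f.1) := by
  have := not_of_lt_rtime (fun d => ¬ M.Dig d) M.onx f h0 h
  exact not_not.1 this

theorem nst_coe (f : M.FDart) : (M.nst f).1 = M.onx^[M.len f] f.1 := rfl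

/-- The reversed darts of a strip are consecutive. -/
theorem onx_oin_iterate (f : M.FDart) {i : ℕ} (h : i + 1 < M.len f) :
    M.onx (M.oin (M.onx^[i + 1] f.1)) = M.oin (M.onx^[i] f.1) := by
  have h1 := dig_of_lt f (Nat.succ_pos i) h
  rw [Function.iterate_succ_apply'] at h1 ⊢
  exact dig_onx_iff.1 h1

theorem onx_iterate_oin (f : M.FDart) {i j : ℕ} (h : i + j + 1 ≤ M.len f) :
    M.onx^[j] (M.oin (M.onx^[i + j] f.1)) = M.oin (M.onx^[i] f.1) := by
  induction j with
  | zero => rfl
  | succ j ih =>
    have h1 : M.onx (M.oin (M.onx^[i + j + 1] f.1)) = M.oin (M.onx^[i + j] f.1) :=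
      onx_oin_iterate f (by omega)
    rw [Function.iterate_succ_apply, show i + (j + 1) = i + j + 1 by ring, h1]
    exact ih (by omega)

/-- The last dart of a strip. -/
theorem not_dig_oin_last (f : M.FDart) : ¬ M.Dig (M.oin (M.onx^[M.len f - 1] f.1)) := by
  rw [dig_oin_iff, ← Function.iterate_succ_apply' M.onx, Nat.succ_eq_add_one,
    Nat.sub_add_cancel (len_pos f)]
  exact not_dig_len f

variable (M) in
/-- The reversed strip, as a function. -/
noncomputable def istFun (f : M.FDart) : M.FDart :=
  ⟨M.oin (M.onx^[M.len f - 1] f.1), not_dig_oin_last f⟩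

theorem istFun_coe (f : M.FDart) : (M.istFun f).1 = M.oin (M.onx^[M.len f - 1] f.1) := rfl

theorem istFun_iterate (f : M.FDart) {j : ℕ} (h : j < M.len f) :
    M.onx^[j] (M.istFun f).1 = M.oin (M.onx^[M.len f - 1 - j] f.1) := by
  have := onx_iterate_oin f (i := M.len f - 1 - j) (j := j) (by omega)
  rw [show M.len f - 1 - j + j = M.len f - 1 by omega] at this
  exact this

theorem onx_oin_first (f : M.FDart) : M.onx^[M.len f] (M.istFun f).1 = M.ofc f.1 := by
  have h := istFun_iterate f (j := M.len f - 1) (by have := len_pos f; omega)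
  rw [Nat.sub_self, Function.iterate_zero, id_eq] at h
  have h2 : M.len f = (M.len f - 1) + 1 := by have := len_pos f; omega
  rw [h2, Function.iterate_succ_apply', h, ofc_apply]

theorem len_istFun (f : M.FDart) : M.len (M.istFun f) = M.len f := by
  refine rtime_eq (fun d => ¬ M.Dig d) M.onx _ (len_pos f) ?_ ?_
  · show ¬ M.Dig (M.onx^[M.len f] (M.istFun f).1)
    rw [onx_oin_first, dig_ofc]
    exact f.2
  · intro j h0 h
    show ¬ ¬ M.Dig (M.onx^[j] (M.istFun f).1)
    rw [istFun_iterate f h, dig_oin_iff, ← Function.iterate_succ_apply' M.onx, Nat.succ_eq_add_one,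
      not_not]
    exact dig_of_lt f (by omega) (by omega)

theorem istFun_istFun (f : M.FDart) : M.istFun (M.istFun f) = f := by
  apply Subtype.ext
  rw [istFun_coe, len_istFun, istFun_iterate f (by have := len_pos f; omega), Nat.sub_self,
    Function.iterate_zero, id_eq, oin_oin]

variable (M) in
/-- The reversed strip. -/
noncomputable def ist : Perm M.FDart where
  toFun := M.istFun
  invFun := M.istFun
  left_inv := istFun_istFun
  right_inv := istFun_istFun

theorem ist_coe (f : M.FDart) : (M.ist f).1 = M.oin (M.onx^[M.len f - 1] f.1) := rfl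

@[simp] theorem ist_ist (f : M.FDart) : M.ist (M.ist f) = f := istFun_istFun f

@[simp] theorem len_ist (f : M.FDart) : M.len (M.ist f) = M.len f := len_istFun f

theorem ist_iterate (f : M.FDart) {j : ℕ} (h : j < M.len f) :
    M.onx^[j] (M.ist f).1 = M.oin (M.onx^[M.len f - 1 - j] f.1) := istFun_iterate f h

/-- The faces of the map of strips are the big faces. -/
theorem nst_ist (f : M.FDart) : M.nst (M.ist f) = M.ffc f := by
  apply Subtype.ext
  rw [nst_coe, len_ist, ffc_coe]
  exact onx_oin_first f

variable (M) in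
/-- Every cell has a strip. -/
def NoNecklace : Prop := ∀ d : D, ∃ i, ∃ h : M.Outer (M.nxt^[i] d), ¬ M.Dig ⟨M.nxt^[i] d, h⟩

end Model24

/-! ### Cycles that meet the set of a first return map -/

section

variable {D : Type*} [Finite D] {P : D → Prop} {σ : Perm D} {τ : Perm {d // P d}}

open Relation in
theorem IsRet.cyc_eq (h : IsRet P σ τ) (hP : ∀ d, ∃ i, P (σ^[i] d)) : cyc τ = cyc σ := by
  classical
  have := Fintype.ofFinite D
  unfold cyc ncl
  refine Nat.card_congr (Equiv.ofBijective
    (Quot.lift (fun d : {d // P d} => Quot.mk (fun x y => σ x = y) d.1) ?_) ⟨?_, ?_⟩)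
  · intro x y hxy
    refine Quot.eqvGen_sound ((eqvGen_iff_sameCycle σ x.1 y.1).2 ?_)
    exact (h.sameCycle_iff x y).1 ⟨1, by simpa using hxy⟩
  · intro p q
    induction p using Quot.ind with
    | mk x =>
    induction q using Quot.ind with
    | mk y =>
      intro hxy
      refine Quot.eqvGen_sound ((eqvGen_iff_sameCycle τ x y).2 ?_)
      exact (h.sameCycle_iff x y).2 ((eqvGen_iff_sameCycle σ x.1 y.1).1 (Quot.eqvGen_exact hxy))
  · intro q
    induction q using Quot.ind with
    | mk x =>
      obtain ⟨i, hi⟩ := hP x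
      refine ⟨Quot.mk _ ⟨σ^[i] x, hi⟩, ?_⟩
      refine Quot.eqvGen_sound ((eqvGen_iff_sameCycle σ _ x).2 ?_)
      exact SameCycle.symm ⟨i, by rw [zpow_natCast, Equiv.Perm.coe_pow]⟩

end

namespace Model24

variable {D : Type*} [Finite D] {M : Model24 D}

theorem exists_iterate_of_sameCycle {D : Type*} [Finite D] {σ : Perm D} {x y : D}
    (h : σ.SameCycle x y) : ∃ i, σ^[i] x = y := by
  obtain ⟨i, -, hi⟩ := sameCycle_iterate σ h
  exact ⟨i, hi⟩

theorem cyc_nst (h : M.NoNecklace) : cyc M.nst = cyc M.nxt := by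
  classical
  have := Fintype.ofFinite D
  have h1 : cyc M.onx = cyc M.nxt := by
    refine (isRet_onx (M := M)).cyc_eq fun d => ?_
    obtain ⟨i, hi, -⟩ := h d
    exact ⟨i, hi⟩
  have h2 : cyc M.nst = cyc M.onx := by
    refine (isRet_retPerm (fun d => ¬ M.Dig d) M.onx).cyc_eq fun d => ?_
    obtain ⟨i, hi, hd⟩ := h d.1
    have h3 : M.nxt.SameCycle d.1 (M.nxt^[i] d.1) :=
      ⟨i, by rw [zpow_natCast, Equiv.Perm.coe_pow]⟩
    have h4 := ((isRet_onx (M := M)).sameCycle_iff d ⟨M.nxt^[i] d.1, hi⟩).2 h3
    obtain ⟨j, hj⟩ := exists_iterate_of_sameCycle h4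
    exact ⟨j, by rw [hj]; exact hd⟩
  rw [h2, h1]

open Classical in
/-- **Discharging for strips.** `k` is a weight of the corners of the big faces with sum at least
one on every face, `Ψ` an arbitrary function of the strip ends; if in every cell
`1 - b/2 + ∑ (k + Ψ - Ψ ∘ ist) ≤ v`, then there are at most `(11 + v) n` faces. -/
theorem strip_discharge [Fintype D] (hM : M.NoNecklace) (k Ψ : M.FDart → ℚ) (v : ℚ)
    (hk : ∀ d, 1 ≤ ∑ i ∈ Finset.range (Function.minimalPeriod M.ffc d), k (M.ffc^[i] d))
    (h : ∀ f : M.FDart, 1 + ∑ i ∈ Finset.range (Function.minimalPeriod M.nst f),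
      (k (M.nst^[i] f) - 1 / 2 + (Ψ (M.nst^[i] f) - Ψ (M.ist (M.nst^[i] f)))) ≤ v) :
    (cyc M.face : ℚ) ≤ (11 + v) * cyc M.nxt := by
  have h1 := cyc_face_le k hk
  set g : M.FDart → ℚ := fun f => k f - 1 / 2 + (Ψ f - Ψ (M.ist f)) with hg
  have h2 : ∑ f, g f = ∑ f : M.FDart, (k f - 1 / 2) := by
    rw [hg]
    simp only [Finset.sum_add_distrib, Finset.sum_sub_distrib]
    have e1 : ∑ f, Ψ (M.ist f) = ∑ f, Ψ f := Equiv.sum_comp M.ist Ψ
    rw [e1]
    ring
  have h3 : (1 - v) * cyc M.nst ≤ -∑ f, g f := by
    rcases lt_or_ge v 1 with hv | hv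
    · have h4 := cyc_le_sum M.nst (fun f => -g f / (1 - v)) (fun x => by
        have h5 := h x
        rw [← Finset.sum_div, Finset.sum_neg_distrib, le_div_iff₀ (by linarith)]
        linarith)
      rw [← Finset.sum_div, Finset.sum_neg_distrib, le_div_iff₀ (by linarith)] at h4
      linarith
    · -- `v ≥ 1`: use the sums over the cycles directly
      have h4 := cyc_le_sum M.nst (fun f => -g f + v *
        (1 / (Function.minimalPeriod M.nst f : ℚ))) (fun x => by
          have h5 := h x
          rw [Finset.sum_add_distrib, Finset.sum_neg_distrib, ← Finset.mul_sum]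
          have h6 : ∑ i ∈ Finset.range (Function.minimalPeriod M.nst x),
              1 / (Function.minimalPeriod M.nst (M.nst^[i] x) : ℚ) = 1 := by
            have h7 : ∀ i, Function.minimalPeriod M.nst (M.nst^[i] x) =
                Function.minimalPeriod M.nst x := fun i =>
              (sameCycle_minimalPeriod M.nst
                ⟨(i : ℤ), by rw [zpow_natCast, Equiv.Perm.coe_pow]⟩).symm
            simp only [h7]
            rw [Finset.sum_const, Finset.card_range, nsmul_eq_mul]
            have := minimalPeriod_pos' M.nst x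
            field_simp
          rw [h6]
          linarith)
      rw [Finset.sum_add_distrib, Finset.sum_neg_distrib, ← Finset.mul_sum, ← cyc_eq_sum] at h4
      linarith
  rw [cyc_nst hM] at h3
  linarith

end Model24

end Pool.Agent.Lib.MP_5854e1_co
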