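import Pool.Agent.Lib.MP_5854e1_co.Srch

/-!
# Tasks

A task is a root pair `(k, o)` with a list of masks: the option of the pair number `i + 1` has to be
in the mask number `i`. The tasks of a root pair cover all words.
-/

set_option autoImplicit false

open Equiv Equiv.Perm

namespace Pool.Agent.Lib.MP_5854e1_co

namespace PB

noncomputable section

/-- A task: the root pair `(k, o)`, the shape after it, and the masks. -/
inductive Tk where
  | mk (k o k' : ℕ) (ms : List ℕ) : Tk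

section defs

variable (R : ℕ → ℕ → Rw Blk) (nl Rv : ℕ → ℕ → ℕ) (cev : List Hs → ℕ → ℕ → Bool)

/-- One state, with a mask for the next option. -/
def stm (kr or : ℕ) (tk : List ℕ) (mask : ℕ)
    (ih : ℕ → ℕ → ℕ → Nd → Op → ℕ → ℕ → List Hs → Bool) (k o k' : ℕ) (m : Nd) (op : Op)
    (S l : ℕ) (hist : List Hs) : Bool :=
  Op.rec (motive := fun _ => Bool) (fun _ fol tst =>
    rAnd (clz R cev kr or tk fol tst k o k' S l hist m.cmk)
      (Rw.go (fun q => tst q S) (fun o1 k1 b m1 => rIf (bt mask o1)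
        (chl ih fol k' S l hist o1 k1 b m1) true) (R k o) m)) op

/-- The search with masks. -/
def srm (kr or : ℕ) (tk : List ℕ) (ms : List ℕ) :
    ℕ → ℕ → ℕ → Nd → Op → ℕ → ℕ → List Hs → Bool :=
  List.rec (motive := fun _ => ℕ → ℕ → ℕ → Nd → Op → ℕ → ℕ → List Hs → Bool)
    (srch R cev kr or tk (nat_lit 24)) (fun mask _ ih => stm R cev kr or tk mask ih) ms

/-- The search from a root pair. -/
def rootS (kr or k' : ℕ) (ms : List ℕ) : Bool :=
  rAnd (Nat.beq (Nat.div (optA kr or) (nat_lit 72)) k')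
  (rAnd (hbB (pw23 (nl kr or)) (mk23 (nat_lit 21) (nl kr or)) (Rv kr or))
  (Option.rec (motive := fun _ => Bool) true
    (fun n0 => Option.rec (motive := fun _ => Bool) true
      (fun m => srm R cev kr or (tokT kr) ms kr or k' m (opOf (nat_lit 0) (nat_lit 1) (nl kr or))
        (Rv kr or) (nxl kr or (nat_lit 0))
        (List.cons (Hs.mk kr or (nat_lit 0) (nat_lit 0)) List.nil))
      (n0.run (stepT kr (optA kr or)))) (rootN.run (tokT kr))))

/-- The check of a list of tasks. -/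
def runT (l : List Tk) : Bool :=
  List.rec (motive := fun _ => Bool) true
    (fun t _ ih => rAnd (Tk.rec (motive := fun _ => Bool)
      (fun k o k' ms => rootS R nl Rv cev k o k' ms) t) ih) l

end defs

/-! ### Soundness -/

section sound

variable {R : ℕ → ℕ → Rw Blk} {nl Pn Rv : ℕ → ℕ → ℕ} {F : Type*} {T : SMap F}
variable (cev : List Hs → ℕ → ℕ → Bool)

theorem srm_sound (hc : ∀ k0 < 101, cloK R nl Pn Rv k0 = true) {L : F → ℕ} {val : F → ℤ}
    (hT : MapOK R nl Pn T L val) {C : Prop} {d : F}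
    (hcl : ∀ hist x M, Hist R T (T.N d) (Function.minimalPeriod T.N (T.N d) - 1) hist →
      (R (T.kx d) (T.ox d)).blk (T.ox (T.N d)) = some (Blk.mk x M) → cev hist x M = true → C)
    (hpos : ∀ t, 1 ≤ pv T Pn L val d t) {ν : ℕ → Nd}
    (hν : ∀ j, j + 1 < Function.minimalPeriod T.N (T.N d) →
      (ν j).run (stepT (T.kx (T.N^[j] (T.N d))) (T.oc (T.N^[j] (T.N d)))) = some (ν (j + 1)))
    (hord : ∀ j < Function.minimalPeriod T.N (T.N d), (ν j).Ord)
    (hmsk : ∀ j < Function.minimalPeriod T.N (T.N d), (ν j).Msk)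
    (hend : bt (ν (Function.minimalPeriod T.N (T.N d) - 1)).mask (kc (T.K (T.N d))) = true) :
    ∀ (ms : List ℕ) {t : ℕ} (_ : t + 1 < Function.minimalPeriod T.N (T.N d)) {op : Op}
    {S G l : ℕ} {hist : List Hs}
    (_ : ∀ i m, ms[i]? = some m → bt m (T.ox (T.N^[t + 1 + i] (T.N d))) = true)
    (_ : St op S G (nl (T.kx (T.N^[t] (T.N d))) (T.ox (T.N^[t] (T.N d)))) (L (T.N^[t] (T.N d)))
      (pv T Pn L val d t)) (_ : G + (ms.length + 24) * 2 ^ 16 + 2 ^ 16 ≤ 2 ^ 22) (_ : kap0 < G)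
    (_ : Hist R T (T.N d) t hist) (_ : l = T.lx (T.N^[t + 1] (T.N d)) (T.N d))
    (_ : srm R cev (T.kx (T.N d)) (T.ox (T.N d)) (tokT (T.kx (T.N d))) ms
      (T.kx (T.N^[t] (T.N d))) (T.ox (T.N^[t] (T.N d))) (T.kx (T.N^[t + 1] (T.N d))) (ν (t + 1))
      op S l hist = true), C := by
  intro ms
  induction ms with
  | nil =>
    intro t ht op S G l hist _ hS hG hK hh hl h
    exact srch_sound cev hc hT hcl hpos hν hord hmsk hend 24 ht hS
      (by rw [List.length_nil] at hG; omega) hK hh hl h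
  | cons mask ms ih =>
    intro t ht op S G l hist hms hS hG hK hh hl h
    cases op with
    | mk adv fol tst =>
      have h1 : rAnd (clz R cev (T.kx (T.N d)) (T.ox (T.N d)) (tokT (T.kx (T.N d))) fol tst
          (T.kx (T.N^[t] (T.N d))) (T.ox (T.N^[t] (T.N d))) (T.kx (T.N^[t + 1] (T.N d))) S l hist
          (ν (t + 1)).cmk)
          (Rw.go (fun q => tst q S) (fun o1 k1 b m1 => rIf (bt mask o1)
            (chl (srm R cev (T.kx (T.N d)) (T.ox (T.N d)) (tokT (T.kx (T.N d))) ms) fol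
              (T.kx (T.N^[t + 1] (T.N d))) S l hist o1 k1 b m1) true)
            (R (T.kx (T.N^[t] (T.N d))) (T.ox (T.N^[t] (T.N d)))) (ν (t + 1))) = true := h
      obtain ⟨h2, h3⟩ := rAnd_iff.1 h1
      rw [List.length_cons] at hG
      have hG' : G + 2 ^ 17 ≤ 2 ^ 22 := by omega
      rcases Nat.lt_or_ge (t + 2) (Function.minimalPeriod T.N (T.N d)) with h4 | h4
      · obtain ⟨x, M, qs, g1, g2, g3, g4⟩ := step_at hc hT hS hG' hK (hpos (t + 1))
        have hr := pair_at hc T (T.N^[t] (T.N d))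
        have h5 := Rw.go_sound hr.2.wf (hord _ (by omega)) h3 g2 g3 (hν (t + 1) (by omega))
        have hb : bt mask (T.ox (T.N^[t + 1] (T.N d))) = true := hms 0 mask rfl
        rw [hb, rIf_true] at h5
        have hl' : nxl (T.kx (T.N^[t + 1] (T.N d))) (T.ox (T.N^[t + 1] (T.N d))) l =
            T.lx (T.N^[t + 2] (T.N d)) (T.N d) := by
          unfold nxl
          rw [T.optA_ox, hl]
          have e : Nat.mod (Nat.div (T.oc (T.N^[t + 1] (T.N d))) 3) 24 =
              T.lx (T.N^[t + 1] (T.N d)) (T.N (T.N^[t + 1] (T.N d))) :=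
            ocode_q (kc_lt _) (T.lx_lt _ _)
          rw [e, ← T.lx_rot]
          congr 1
          exact (Function.iterate_succ_apply' T.N (t + 1) _).symm
        exact ih (t := t + 1) h4 (fun i m hm => by
          have := hms (i + 1) m (by rw [List.getElem?_cons_succ]; exact hm)
          rwa [show t + 1 + (i + 1) = t + 1 + 1 + i by omega] at this) g4 (by omega) (by omega)
          (Hist.step hh g1) hl' h5
      · have h6 : t + 2 = Function.minimalPeriod T.N (T.N d) := by omega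
        have e : Function.minimalPeriod T.N (T.N d) - 1 = t + 1 := by omega
        rw [e] at hend
        have hm := hmsk (t + 1) (by omega)
        rw [hm.cmk_eq] at h2
        exact clo_sound cev hc hT hcl h6 hS hG' hK (hpos (t + 1)) hh hl hm.mem hend h2

/-- The state at the root. -/
theorem St.root (hc : ∀ k0 < 101, cloK R nl Pn Rv k0 = true) {L : F → ℕ} {val : F → ℤ}
    (hT : MapOK R nl Pn T L val) {d : F} (hpos : 1 ≤ pv T Pn L val d 0)
    (hr : HB 22 (nl (T.kx (T.N d)) (T.ox (T.N d))) (Rv (T.kx (T.N d)) (T.ox (T.N d))) (2 ^ 21)) :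
    St (opOf 0 1 (nl (T.kx (T.N d)) (T.ox (T.N d)))) (Rv (T.kx (T.N d)) (T.ox (T.N d))) (2 ^ 21)
      (nl (T.kx (T.N d)) (T.ox (T.N d))) (L (T.N d)) (pv T Pn L val d 0) := by
  obtain ⟨b, h1, h2⟩ := hT.blk d
  cases b with
  | mk x M =>
    obtain ⟨qs, -, h3, -⟩ := blk_at hc T d h1
    have h4 := (pair_at hc T (T.N d)).1
    have hL := hT.lane (T.N d)
    have hL0 := hT.lane d
    rw [fd_mk] at h2
    have e0 : pv T Pn L val d 0 = val d - ndF T Pn L (T.N d) := by
      unfold pv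
      simp
    have e1 : tht = 1114112 := by norm_num [tht]
    have e2 : kap0 = 65536 := by norm_num [kap0]
    have h5 := h3.root (L d) hL0 (L (T.N d)) hL
    have e3 : ndF T Pn L d = (fl 22 (Pn (T.kx d) (T.ox d)) (L d) : ℕ) := rfl
    rw [e0] at hpos ⊢
    rw [e3, e2] at h2
    simp only [Blk.fmt, Blk.num, e1, e2] at h5
    push_cast at h2
    have h6 := h5 (by omega)
    refine ⟨⟨1, nOf 0 1 (nl (T.kx (T.N d)) (T.ox (T.N d))), pl 0 1 (nl (T.kx (T.N d))
      (T.ox (T.N d))), opOf_ok (by norm_num) (by norm_num) h4.pos, ?_, 0, by norm_num, ?_⟩, hL,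
      hpos⟩
    · refine hr.pad ?_ (by norm_num)
      have h7 := (cOf_zero 1 (nl (T.kx (T.N d)) (T.ox (T.N d)))).2
      have e5 : nOf 0 1 (nl (T.kx (T.N d)) (T.ox (T.N d))) =
        cOf 0 1 (nl (T.kx (T.N d)) (T.ox (T.N d))) * 1 := rfl
      rw [e5, mul_one]
      exact h7
    · have e6 : pl 0 1 (nl (T.kx (T.N d)) (T.ox (T.N d))) 0 (L (T.N d)) =
        cOf 0 1 (nl (T.kx (T.N d)) (T.ox (T.N d))) * 0 + L (T.N d) := rfl
      rw [e6, mul_zero, zero_add, e1, e2]
      push_cast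
      omega

/-- **Soundness of a task.** -/
theorem rootS_sound (hc : ∀ k0 < 101, cloK R nl Pn Rv k0 = true) {L : F → ℕ} {val : F → ℤ}
    (hT : MapOK R nl Pn T L val) {C : Prop} {d : F}
    (hcl : ∀ hist x M, Hist R T (T.N d) (Function.minimalPeriod T.N (T.N d) - 1) hist →
      (R (T.kx d) (T.ox d)).blk (T.ox (T.N d)) = some (Blk.mk x M) → cev hist x M = true → C)
    (hpos : ∀ t, 1 ≤ pv T Pn L val d t) {ms : List ℕ} (hlen : ms.length ≤ 4) {k' : ℕ}
    (hms : ∀ i m, ms[i]? = some m → bt m (T.ox (T.N^[1 + i] (T.N d))) = true)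
    (h : rootS R nl Rv cev (T.kx (T.N d)) (T.ox (T.N d)) k' ms = true) : C := by
  obtain ⟨h1, h2⟩ := rAnd_iff.1 h
  obtain ⟨h3, h4⟩ := rAnd_iff.1 h2
  have hr := hbB_sound (b := 21) (by norm_num) h3
  obtain ⟨ν, n1, n2, n3, n4⟩ := T.nodes_ord (T.N d)
  have hp3 := T.three (T.N d)
  have hms1 : ∀ j < Function.minimalPeriod T.N (T.N d), (ν j).Msk := by
    intro j
    induction j with
    | zero => exact fun _ => msk_rootN.run n1
    | succ j ih => exact fun hj => (ih (by omega)).run (n2 j hj)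
  have n5 := n2 0 (by omega)
  have e1 : optA (T.kx (T.N d)) (T.ox (T.N d)) = T.oc (T.N d) := T.optA_ox _
  have e2 : k' = T.kx (T.N^[1] (T.N d)) := by
    have h5 : Nat.div (optA (T.kx (T.N d)) (T.ox (T.N d))) 72 = k' := Nat.eq_of_beq_eq_true h1
    rw [e1] at h5
    exact h5.symm.trans (T.oc_k _)
  rw [n1] at h4
  rw [e1] at h4
  have e3 : T.N^[0] (T.N d) = T.N d := rfl
  rw [e3] at n5
  simp only [n5] at h4
  subst e2
  refine srm_sound cev hc hT hcl hpos n2 n3 hms1 n4 ms (t := 0) (by omega) (fun i m hm => ?_)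
    (St.root hc hT (hpos 0) hr) (by norm_num; omega) (by norm_num [kap0]) Hist.root ?_ h4
  · rw [show 0 + 1 + i = 1 + i by omega]
    exact hms i m hm
  · have e4 : T.lx (T.N^[0 + 1] (T.N d)) (T.N d) = rotC (T.lx (T.N d) (T.N^[0 + 1] (T.N d)))
      (T.lx (T.N d) (T.N d)) := T.lx_rot _ _ _
    have e5 : T.lx (T.N d) (T.N d) = 0 := by
      show lc (T.rlb (T.N d) (T.N d)) = 0
      rw [SMap.rlb_self]
      decide +kernel
    rw [e4, e5]
    unfold nxl
    rw [T.optA_ox]
    congr 1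
    exact ocode_q (kc_lt _) (T.lx_lt _ _)

end sound

end

end PB

end Pool.Agent.Lib.MP_5854e1_co
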