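import Pool.Agent.Lib.MP_5854e1_co.TriTab

/-!
# The table of the triangular corners is correct
-/

set_option autoImplicit false

namespace Pool.Agent.Lib.MP_5854e1_co

theorem genTri_check : rAllN (fun k => rAll (fun x => rEq (genTri k x)
    (tri k (Nat.mod x (nat_lit 512)))) (fl k)) 101 = true := by
  decide +kernel

theorem genTri_eq {k x : ℕ} (hk : k < 101) (hx : x ∈ fl k) : genTri k x = tri k (x % 512) :=
  eq_of_rEq (rAll_iff.1 (rAllN_iff.1 genTri_check k hk) x hx)

end Pool.Agent.Lib.MP_5854e1_co
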