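import Pool.Agent.Lib.MP_5854e1_co.OptChk
import Pool.Agent.Lib.MP_5854e1_co.TriChk

/-!
# The triangular corners of a map of strips
-/

set_option autoImplicit false

open Equiv Equiv.Perm

namespace Pool.Agent.Lib.MP_5854e1_co

open Model24 (Kind)

/-! ### Membership in computed lists -/

theorem mem_rFold_base {α β : Type} {f : α → List β → List β}
    (hmono : ∀ a r, ∀ y ∈ r, y ∈ f a r) (b : List β) : ∀ l : List α, ∀ y ∈ b, y ∈ rFold f b l := by
  intro l
  induction l with
  | nil => exact fun y hy => hy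
  | cons a l ih => exact fun y hy => hmono a _ y (ih y hy)

theorem mem_rFold {α β : Type} {f : α → List β → List β}
    (hmono : ∀ a r, ∀ y ∈ r, y ∈ f a r) (b : List β) {a : α} {y : β} (hy : ∀ r, y ∈ f a r) :
    ∀ l : List α, a ∈ l → y ∈ rFold f b l := by
  intro l
  induction l with
  | nil => exact fun h => absurd h List.not_mem_nil
  | cons a' l ih =>
    intro h
    rcases List.mem_cons.1 h with rfl | h
    · exact hy _
    · exact hmono a' _ y (ih h)

theorem triEmit_mono (b o' : ℕ) (r : List ℕ) : ∀ y ∈ r, y ∈ triEmit b o' r := by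
  intro y hy
  unfold triEmit
  cases Nat.beq b 0 with
  | true => exact hy
  | false =>
    refine mem_rFold_base (f := fun κ r => rIf (Nat.beq (Nat.mod (Nat.shiftRight b κ) 2) 1)
      (Nat.add o' (Nat.mul 512 κ) :: r) r) (fun κ r y hy => ?_) r [0, 1, 2] y hy
    cases Nat.beq (Nat.mod (Nat.shiftRight b κ) 2) 1 with
    | true => exact List.mem_cons_of_mem _ hy
    | false => exact hy

theorem mem_triEmit {b o' κ : ℕ} (hκ : κ < 3) (hb : b >>> κ % 2 = 1) (r : List ℕ) :
    o' + 512 * κ ∈ triEmit b o' r := by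
  unfold triEmit
  have hb0 : Nat.beq b 0 = false := by
    cases h : Nat.beq b 0 with
    | false => rfl
    | true =>
      have h1 := Nat.eq_of_beq_eq_true h
      rw [h1, Nat.zero_shiftRight] at hb
      exact absurd hb (by decide)
  rw [hb0]
  refine mem_rFold (f := fun κ r => rIf (Nat.beq (Nat.mod (Nat.shiftRight b κ) 2) 1)
    (Nat.add o' (Nat.mul 512 κ) :: r) r) (fun κ r y hy => ?_) r (a := κ) (fun r => ?_) [0, 1, 2] ?_
  · cases Nat.beq (Nat.mod (Nat.shiftRight b κ) 2) 1 with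
    | true => exact List.mem_cons_of_mem _ hy
    | false => exact hy
  · have h1 : Nat.beq (Nat.mod (Nat.shiftRight b κ) 2) 1 = true := by
      have h2 : Nat.mod (Nat.shiftRight b κ) 2 = 1 := hb
      rw [h2]
      rfl
    show o' + 512 * κ ∈ rIf (Nat.beq (Nat.mod (Nat.shiftRight b κ) 2) 1)
      (Nat.add o' (Nat.mul 512 κ) :: r) r
    rw [h1]
    exact List.mem_cons_self
  · interval_cases κ <;> simp

theorem mem_genTri {k x x' κ : ℕ} (hx' : x' ∈ fl (x / 16384)) (hκ : κ < 3)
    (hb : triBits (tt (rv k / 24)) (rotC (x / 512 % 32) (rv k % 24)) x' >>> κ % 2 = 1) :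
    x' % 512 + 512 * κ ∈ genTri k x := by
  unfold genTri
  exact mem_rFold (f := fun x' r => triEmit (triBits (tt (Nat.div (rv k) (nat_lit 24)))
    (rotC (Nat.mod (Nat.div x (nat_lit 512)) (nat_lit 32)) (Nat.mod (rv k) (nat_lit 24))) x')
    (Nat.mod x' (nat_lit 512)) r) (fun x' r => triEmit_mono _ _ r) [] (a := x')
    (fun r => mem_triEmit hκ hb r) _ hx'

theorem triBits_eq (TT a x' κ : ℕ) (hκ : κ < 3) : triBits TT a x' >>> κ % 2 =
    TT >>> (3 * (24 * (x' / 16384) + rotC (x' / 512 % 32) a) + κ) % 2 := by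
  have h : ∀ n : ℕ, (n % 8) >>> κ % 2 = n >>> κ % 2 := by
    intro n
    rw [Nat.shiftRight_eq_div_pow, Nat.shiftRight_eq_div_pow]
    interval_cases κ <;> simp <;> omega
  show (TT >>> (3 * (24 * (x' / 16384) + rotC (x' / 512 % 32) a)) % 8) >>> κ % 2 = _
  rw [h, Nat.shiftRight_add]

theorem ocode_mem_tt {k c : ℕ} (hk : k < 101) (h : c ∈ opt k) :
    tt (c / 72) >>> (3 * (24 * k + c / 3 % 24) + c % 3) % 2 = 1 :=
  Nat.eq_of_beq_eq_true (List.all_eq_true.1 (List.all_eq_true.1 tt_spec k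
    (List.mem_range.2 hk)) c h)

theorem fl_eq {k : ℕ} (hk : k < 101) : fl k = (opt k).zipIdx.map fun t => flE t.1 t.2 :=
  eq_of_beq (List.all_eq_true.1 fl_spec k (List.mem_range.2 hk))

theorem length_opt_le : ∀ k < 101, (opt k).length ≤ 512 := by decide +kernel

theorem length_opt_lt {k : ℕ} (hk : k < 101) {o : ℕ} (ho : o < (opt k).length) : o < 512 :=
  ho.trans_le (length_opt_le k hk)

namespace SMap

variable {F : Type*} (T : SMap F)

theorem oc_mem (d : F) : T.oc d ∈ opt (T.kx d) := by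
  rw [← genOpt_eq (T.kx_lt d)]
  exact T.oc_mem_gen d

/-- The index of the option of a strip end. -/
def ox (d : F) : ℕ := (opt (T.kx d)).idxOf (T.oc d)

theorem ox_lt_length (d : F) : T.ox d < (opt (T.kx d)).length :=
  List.idxOf_lt_length_iff.2 (T.oc_mem d)

theorem ox_lt (d : F) : T.ox d < 512 := length_opt_lt (T.kx_lt d) (T.ox_lt_length d)

theorem opt_ox (d : F) : (opt (T.kx d))[T.ox d]'(T.ox_lt_length d) = T.oc d :=
  List.getElem_idxOf _

/-! ### The codes of the frames -/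

theorem lx_trans (d e f : F) : T.lx d f = mulC (T.lx d e) (T.lx e f) := by
  rw [mulC_eq _ (T.lx_lt d e) _ (T.lx_lt e f), lbl_lx, lbl_lx, ← rlb_trans]
  rfl

theorem lx_rot (d e f : F) : T.lx e f = rotC (T.lx d e) (T.lx d f) := by
  rw [rotC_eq _ (T.lx_lt d e) _ (T.lx_lt d f), lbl_lx, lbl_lx]
  show lc (T.rlb e f) = _
  congr 1
  show relLb (T.frm e) _ = _
  rw [T.frm_eq d e, relLb_mul]
  rfl

theorem revStrip_shp_fst (d : F) : (revStrip (shp (T.kx d))).1 = T.rlb d (T.I d) := by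
  show _ = (relS (T.frm d) (T.S (T.I d))).1
  rw [shp_kx, T.S_I, ← revStrip_relS]
  rfl

/-- The frame of the other end of a strip. -/
theorem lx_I (d : F) : T.lx d (T.I d) = rv (T.kx d) % 24 := by
  rw [← (rv_spec _ (T.kx_lt d)).2.1, revStrip_shp_fst]
  rfl

/-- The shape of the other end of a strip. -/
theorem kx_I (d : F) : T.kx (T.I d) = rv (T.kx d) / 24 := by
  rw [← (rv_spec _ (T.kx_lt d)).2.2, revStrip_shp_fst, shp_kx]
  show shpL.idxOf (relS (T.frm (T.I d)) (T.S (T.I d))) = _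
  rw [T.frm_eq d (T.I d), relS_mul, T.S_I, ← revStrip_relS]
  rfl

/-! ### The entry of a strip end -/

/-- The entry: the index of the option, the frame and the shape of the other end of the next
strip. -/
def ex (d : F) : ℕ := flE (T.oc d) (T.ox d)

theorem ex_eq (d : F) : T.ex d =
    T.ox d + 512 * (T.lx d (T.I (T.N d)) + 32 * T.kx (T.I (T.N d))) := by
  unfold ex flE
  rw [oc_q, oc_k, T.lx_trans d (T.N d) (T.I (T.N d)), lx_I, kx_I]

theorem ex_ox (d : F) : T.ex d % 512 = T.ox d := by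
  have := T.ox_lt d
  rw [ex_eq]
  omega

theorem ex_lx (d : F) : T.ex d / 512 % 32 = T.lx d (T.I (T.N d)) := by
  have := T.ox_lt d
  have := T.lx_lt d (T.I (T.N d))
  rw [ex_eq]
  omega

theorem ex_kx (d : F) : T.ex d / 16384 = T.kx (T.I (T.N d)) := by
  have := T.ox_lt d
  have := T.lx_lt d (T.I (T.N d))
  rw [ex_eq]
  omega

theorem ex_mem (d : F) : T.ex d ∈ fl (T.kx d) := by
  rw [fl_eq (T.kx_lt d), List.mem_map]
  refine ⟨(T.oc d, T.ox d), ?_, rfl⟩
  rw [List.mk_mem_zipIdx_iff_getElem?, List.getElem?_eq_getElem (T.ox_lt_length d), opt_ox]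

/-! ### Triangles -/

/-- In a triangle the third side is the other end of `d`. -/
theorem N_third {d : F} (h : T.face^[3] (T.N d) = T.N d) :
    T.N (T.I (T.N (T.I (T.N d)))) = T.I d := by
  have h1 : T.N (T.I (T.N (T.I (T.N (T.I (T.N d)))))) = T.N d := h
  have h2 := congrArg T.I (T.N.injective h1)
  rw [T.I_I] at h2
  exact h2

/-- The code of a triangular corner. -/
def tc (d : F) : ℕ := T.ox (T.I (T.N d)) + 512 * kc (T.K (T.I d))

/-- **The triangular corners are complete.** -/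
theorem tc_mem {d : F} (h : T.face^[3] (T.N d) = T.N d) : T.tc d ∈ tri (T.kx d) (T.ox d) := by
  have hN := T.N_third h
  set e := T.I (T.N d) with he
  set f := T.I (T.N e) with hf
  have h1 := genTri_eq (T.kx_lt d) (T.ex_mem d)
  rw [ex_ox] at h1
  rw [← h1]
  have h2 : T.ex e ∈ fl (T.ex d / 16384) := by
    rw [ex_kx]
    exact T.ex_mem e
  have h3 : T.tc d = T.ex e % 512 + 512 * kc (T.K (T.I d)) := by
    rw [ex_ox]
    rfl
  rw [h3]
  refine mem_genTri h2 (kc_lt _) ?_
  rw [triBits_eq _ _ _ _ (kc_lt _), ex_kx, ex_lx, ex_lx]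
  have h4 := ocode_mem_tt (T.kx_lt f) (T.oc_mem f)
  rw [oc_k, oc_q, oc_κ, hN, kx_I] at h4
  have h5 : T.lx f (T.I d) = rotC (T.lx e f) (rotC (T.lx d e) (rv (T.kx d) % 24)) := by
    rw [T.lx_rot e f (T.I d), T.lx_rot d e (T.I d), lx_I]
  rw [h5] at h4
  exact h4

/-- The position of the corner in its row. -/
def px (d : F) : ℕ := (tri (T.kx d) (T.ox d)).idxOf (T.tc d)

end SMap

end Pool.Agent.Lib.MP_5854e1_co
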