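import Pool.Agent.Lib.MP_5854e1_co.FaceSum

/-!
# Face words and windows of the map of strips
-/

set_option autoImplicit false

open Equiv Equiv.Perm

namespace Pool.Agent.Lib.MP_5854e1_co

open Model24 (Kind)

/-! ### Windows of strips -/

/-- Continue a scan by corners and strips. -/
def runS : Sc → List (Kind × Strip) → Option Sc
  | σ, [] => some σ
  | σ, q :: l => match scStrip σ q.1 q.2 with
    | none => none
    | some τ => runS τ l

/-- The window which begins with the strip `s` is accepted by the scanner. -/
def winS (s : Strip) (l : List (Kind × Strip)) : Bool :=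
  match scStart s with
  | none => false
  | some σ => (runS σ l).isSome

/-- The relabelled list of corners and strips. -/
def relL (g : Perm (Fin 7)) (l : List (Kind × Strip)) : List (Kind × Strip) :=
  l.map fun q => (q.1, relS g q.2)

/-- The first dart of a strip, as a strip. -/
def headS (s : Strip) : Strip := (s.1, [])

/-- The last dart of a strip, as a strip. -/
def lastS (s : Strip) : Strip := dropS s.2.length s

theorem runS_append (σ : Sc) (l l' : List (Kind × Strip)) :
    runS σ (l ++ l') = (runS σ l).bind fun τ => runS τ l' := by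
  induction l generalizing σ with
  | nil => rfl
  | cons q l ih =>
    rw [List.cons_append, runS, runS]
    cases scStrip σ q.1 q.2 with
    | none => rfl
    | some τ => exact ih τ

theorem winS_append {s : Strip} {l l' : List (Kind × Strip)} (h : winS s (l ++ l') = true) :
    winS s l = true := by
  unfold winS at h ⊢
  cases h1 : scStart s with
  | none => rw [h1] at h; exact h
  | some σ =>
    rw [h1] at h
    simp only at h ⊢
    rw [runS_append] at h
    cases h2 : runS σ l with
    | none => rw [h2] at h; exact h
    | some τ => rfl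

/-- The last strip of a window may be cut down to its first dart. -/
theorem winS_head {s : Strip} {l : List (Kind × Strip)} {κ : Kind} {t : Strip}
    (h : winS s (l ++ [(κ, t)]) = true) : winS s (l ++ [(κ, headS t)]) = true := by
  unfold winS at h ⊢
  cases h1 : scStart s with
  | none => rw [h1] at h; exact h
  | some σ =>
    rw [h1] at h
    simp only at h ⊢
    rw [runS_append] at h ⊢
    cases h2 : runS σ l with
    | none => rw [h2] at h; exact h
    | some τ =>
      rw [h2] at h
      simp only [Option.bind_some] at h ⊢
      unfold runS at h ⊢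
      have h3 : scStrip τ κ t = (scStrip τ κ (headS t)).bind fun ρ => scRun ρ (ownToks t) := by
        unfold scStrip stripToks headS ownToks
        rw [show ((κ, t.1) :: t.2.map fun q => (q.1.1, q.2)) =
          [(κ, t.1)] ++ t.2.map fun q => (q.1.1, q.2) from rfl, scRun_append]
        rfl
      simp only at h ⊢
      rw [h3] at h
      cases h4 : scStrip τ κ (headS t) with
      | none => rw [h4] at h; exact h
      | some ρ => rfl

theorem dropS_relS (g : Perm (Fin 7)) : ∀ (i : ℕ) (s : Strip),
    dropS i (relS g s) = relS g (dropS i s) := by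
  intro i
  induction i with
  | zero => intro s; rfl
  | succ i ih =>
    rintro ⟨p, l⟩
    cases l with
    | nil => rfl
    | cons q l => exact ih (q.2, l)

theorem relS_length (g : Perm (Fin 7)) (s : Strip) : (relS g s).2.length = s.2.length := by
  unfold relS
  simp

theorem lastS_relS (g : Perm (Fin 7)) (s : Strip) : lastS (relS g s) = relS g (lastS s) := by
  unfold lastS
  rw [relS_length, dropS_relS]

theorem lastS_eq : ∀ s : Strip, lastS s = ((revStrip s).1.swap, []) := by
  have key : ∀ (l : List ((Kind × Kind) × Lb)) (p : Lb) (acc : List ((Kind × Kind) × Lb)),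
      dropS l.length (p, l) = ((revAux p l acc).1.swap, []) := by
    intro l
    induction l with
    | nil => intro p acc; rfl
    | cons q l ih => intro p acc; exact ih q.2 _
  rintro ⟨p, l⟩
  exact key l p []

namespace SMap

variable {F : Type*} (T : SMap F)

/-! ### The permutations -/

@[simp] theorem N_N_inv (d : F) : T.N (T.N⁻¹ d) = d := by simp

@[simp] theorem N_inv_N (d : F) : T.N⁻¹ (T.N d) = d := by simp

theorem I_inv_apply (d : F) : T.I⁻¹ d = T.I d := by
  rw [Perm.inv_eq_iff_eq, T.I_I]

theorem face_inv (d : F) : T.face⁻¹ d = T.I (T.N⁻¹ d) := by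
  rw [Perm.inv_eq_iff_eq, face_apply, T.I_I, N_N_inv]

theorem N_inv (d : F) : T.N⁻¹ d = T.I (T.face⁻¹ d) := by rw [face_inv, T.I_I]

theorem N_inv_face (d : F) : T.N⁻¹ (T.face d) = T.I d := by
  rw [face_apply, N_inv_N]

theorem face_inv_N (d : F) : T.face⁻¹ (T.N d) = T.I d := by
  rw [face_inv, N_inv_N]

theorem face_I (d : F) : T.face (T.I d) = T.N d := by rw [face_apply, T.I_I]

/-- The strip before the far end of `d`. -/
theorem N_inv_I (d : F) : T.N⁻¹ (T.I d) = T.I (T.face⁻¹ (T.face⁻¹ (T.N d))) := by
  rw [N_inv, face_inv_N]

theorem face_inv_of_iterate {d : F} {m : ℕ} (h : T.face^[m + 1] d = d) :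
    T.face⁻¹ d = T.face^[m] d := by
  rw [Perm.inv_eq_iff_eq, ← Function.iterate_succ_apply' T.face, h]

theorem iterate_face_of {d : F} {m : ℕ} (h : T.face^[m] d = d) (i : ℕ) :
    T.face^[m] (T.face^[i] d) = T.face^[i] d := by
  rw [← Function.iterate_add_apply, add_comm, Function.iterate_add_apply, h]

/-! ### Face words -/

/-- The first `m` corners of the face of `d`: the kinds and the strips. -/
def fw (d : F) (m : ℕ) : List (Kind × Strip) :=
  (List.range m).map fun i => (T.K (T.face^[i] d), T.S (T.face^[i] d))

theorem length_fw (d : F) (m : ℕ) : (T.fw d m).length = m := by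
  unfold fw
  simp

theorem fw_succ (d : F) (m : ℕ) : T.fw d (m + 1) = (T.K d, T.S d) :: T.fw (T.face d) m := by
  unfold fw
  rw [List.range_succ_eq_map, List.map_cons, List.map_map]
  rfl

theorem fw_snoc (d : F) (m : ℕ) :
    T.fw d (m + 1) = T.fw d m ++ [(T.K (T.face^[m] d), T.S (T.face^[m] d))] := by
  unfold fw
  rw [List.range_succ, List.map_append]
  rfl

/-- The face word of the next corner of the face. -/
theorem fw_face {d : F} {m : ℕ} (h : T.face^[m] d = d) :
    T.fw (T.face d) m = (T.fw d m).rotate 1 := by
  cases m with
  | zero => rfl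
  | succ m =>
    rw [fw_succ T d, List.rotate_cons_succ, List.rotate_zero, fw_snoc,
      ← Function.iterate_succ_apply T.face, h]

/-- The strip before the corner `d`, in the face word of `d`. -/
theorem S_N_inv {d : F} {m : ℕ} (h : T.face^[m + 1] d = d) :
    T.S (T.N⁻¹ d) = revStrip (T.S (T.face^[m] d)) := by
  rw [N_inv, T.S_I, face_inv_of_iterate T h]

/-- The corner before the far end of `d`, in the face word of the corner `N d`. -/
theorem K_I {d : F} {m : ℕ} (h : T.face^[m + 1] (T.N d) = T.N d) :
    T.K (T.I d) = T.K (T.face^[m] (T.N d)) := by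
  rw [← face_inv_of_iterate T h, face_inv_N]

/-- The strip before the far end of `d`, in the face word of the corner `N d`. -/
theorem S_N_inv_I {d : F} {m : ℕ} (h : T.face^[m + 2] (T.N d) = T.N d) :
    T.S (T.N⁻¹ (T.I d)) = revStrip (T.S (T.face^[m] (T.N d))) := by
  rw [N_inv_I, T.S_I, face_inv_of_iterate T h]
  congr 2
  rw [Perm.inv_eq_iff_eq, ← Function.iterate_succ_apply' T.face]

/-! ### Windows -/

/-- The next `j` corners and strips of the cell. -/
def cw (d : F) (j : ℕ) : List (Kind × Strip) :=
  (List.range j).map fun i => (T.K (T.N^[i + 1] d), T.S (T.N^[i + 1] d))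

theorem cw_succ (d : F) (j : ℕ) :
    T.cw d (j + 1) = T.cw d j ++ [(T.K (T.N^[j + 1] d), T.S (T.N^[j + 1] d))] := by
  unfold cw
  rw [List.range_succ, List.map_append]
  rfl

/-- Every window of a cell is accepted, from any dart of its first strip on. -/
theorem winS_from {g : Perm (Fin 7)} (hg : IsLabAut g) (d : F) {i : ℕ}
    (hi : i ≤ (T.S d).2.length) {j : ℕ} (hj : j < Function.minimalPeriod T.N d) :
    winS (relS g (dropS i (T.S d))) (relL g (T.cw d j)) = true := by
  obtain ⟨σ, h1, h2⟩ := T.scanFrom g hg d i hi
  rw [dropS_relS] at h1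
  have key : ∀ j, j < Function.minimalPeriod T.N d →
      runS (σ 0) (relL g (T.cw d j)) = some (σ j) := by
    intro j
    induction j with
    | zero => intro _; rfl
    | succ j ih =>
      intro hj
      rw [cw_succ, relL, List.map_append, runS_append]
      have h3 := ih (by omega)
      unfold relL at h3
      rw [h3, Option.bind_some]
      show (match scStrip (σ j) (T.K (T.N^[j + 1] d)) (relS g (T.S (T.N^[j + 1] d))) with
        | none => none
        | some τ => runS τ []) = _
      rw [h2 j hj]
      rfl
  unfold winS
  rw [h1]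
  show (runS (σ 0) (relL g (T.cw d j))).isSome = true
  rw [key j hj]
  rfl

theorem winS_cw {g : Perm (Fin 7)} (hg : IsLabAut g) (d : F) {j : ℕ}
    (hj : j < Function.minimalPeriod T.N d) :
    winS (relS g (T.S d)) (relL g (T.cw d j)) = true :=
  T.winS_from hg d (Nat.zero_le _) hj

/-- The window of three strips around `d`. -/
theorem win3 {g : Perm (Fin 7)} (hg : IsLabAut g) (d : F) :
    winS (relS g (T.S (T.N⁻¹ d))) [(T.K d, relS g (T.S d)), (T.K (T.N d), relS g (T.S (T.N d)))] =
      true := by
  have h := T.winS_cw hg (T.N⁻¹ d) (j := 2) (by have := T.three (T.N⁻¹ d); omega)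
  unfold cw relL at h
  simp only [List.range_succ, List.range_zero, List.nil_append, List.map_append, List.map_cons,
    List.map_nil, List.cons_append, Function.iterate_succ_apply', Function.iterate_zero, id_eq,
    N_N_inv] at h
  exact h

/-- The window of the last dart before `d`, the strip `d` and the next strip. -/
theorem win3_last {g : Perm (Fin 7)} (hg : IsLabAut g) (d : F) :
    winS (relS g (lastS (T.S (T.N⁻¹ d))))
      [(T.K d, relS g (T.S d)), (T.K (T.N d), relS g (T.S (T.N d)))] = true := by
  have h := T.winS_from hg (T.N⁻¹ d) (i := (T.S (T.N⁻¹ d)).2.length) le_rfl (j := 2)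
    (by have := T.three (T.N⁻¹ d); omega)
  unfold cw relL at h
  simp only [List.range_succ, List.range_zero, List.nil_append, List.map_append, List.map_cons,
    List.map_nil, List.cons_append, Function.iterate_succ_apply', Function.iterate_zero, id_eq,
    N_N_inv] at h
  exact h

/-- The last dart before the corner `d` is the reversal of the first dart of the previous corner
of the face. -/
theorem lastS_N_inv (d : F) : lastS (T.S (T.N⁻¹ d)) = ((T.S (T.face⁻¹ d)).1.swap, []) := by
  rw [lastS_eq, ← T.S_I, ← face_inv]

/-- The far window of `d`: the strip before its far end, the far end, the strip after it. -/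
theorem far3 {g : Perm (Fin 7)} (hg : IsLabAut g) (d : F) :
    winS (relS g (T.S (T.I (T.face⁻¹ (T.I d)))))
      [(T.K (T.I d), relS g (revStrip (T.S d))), (T.K (T.face d), relS g (T.S (T.face d)))] =
      true := by
  have h := T.win3 hg (T.I d)
  rw [N_inv, T.S_I d] at h
  exact h

/-- The far window of `d` when the corner `N d` lies on a face with `m + 2` corners. -/
theorem far3_word {g : Perm (Fin 7)} (hg : IsLabAut g) {d : F} {m : ℕ}
    (h : T.face^[m + 2] (T.N d) = T.N d) :
    winS (relS g (revStrip (T.S (T.face^[m] (T.N d)))))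
      [(T.K (T.face^[m + 1] (T.N d)), relS g (revStrip (T.S d))),
        (T.K (T.face d), relS g (T.S (T.face d)))] = true := by
  have h1 := T.win3 hg (T.I d)
  rw [S_N_inv_I T h, K_I T h, T.S_I d] at h1
  exact h1

/-- The far window of `d` with the last dart before it only. -/
theorem far3_last {g : Perm (Fin 7)} (hg : IsLabAut g) (d : F) :
    winS (relS g ((T.S (T.face⁻¹ (T.I d))).1.swap, []))
      [(T.K (T.I d), relS g (revStrip (T.S d))), (T.K (T.face d), relS g (T.S (T.face d)))] =
      true := by
  have h := T.win3_last hg (T.I d)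
  rw [lastS_N_inv, T.S_I d] at h
  exact h

end SMap

end Pool.Agent.Lib.MP_5854e1_co
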