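import Pool.Agent.Lib.MP_5854e1_co.MnrC

/-!
# Finite planar covers and the Y-Delta transformation
-/

set_option autoImplicit false

open Equiv Equiv.Perm Relation

namespace Pool.Agent.Lib.MP_5854e1_co

section map

variable {D : Type*} {σ α : Perm D} {X : Set D}

theorem yd_app_inv (σ : Perm D) (x : D) : σ (σ⁻¹ x) = x := σ.apply_symm_apply x

theorem yd_inv_app (σ : Perm D) (x : D) : σ⁻¹ (σ x) = x := σ.symm_apply_apply x

open Classical in
/-- the new rotation -/
noncomputable def ydFun (σ α : Perm D) (X : Set D) (x : D) : D :=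
  if x ∈ X then σ (α x) else if α x ∈ X then α x else σ x

open Classical in
noncomputable def ydInv (σ α : Perm D) (X : Set D) (z : D) : D :=
  if z ∈ X then α z else if α (σ⁻¹ z) ∈ X then α (σ⁻¹ z) else σ⁻¹ z

open Classical in
/-- the new involution -/
noncomputable def ydAlt (σ α : Perm D) (X : Set D) (x : D) : D :=
  if x ∈ X then α (σ⁻¹ x) else if α x ∈ X then σ (α x) else α x

theorem ydFun_1 {x : D} (h : x ∈ X) : ydFun σ α X x = σ (α x) := by
  classical
  exact if_pos h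

theorem ydFun_2 {x : D} (h : x ∉ X) (h' : α x ∈ X) : ydFun σ α X x = α x := by
  classical
  unfold ydFun
  rw [if_neg h, if_pos h']

theorem ydFun_3 {x : D} (h : x ∉ X) (h' : α x ∉ X) : ydFun σ α X x = σ x := by
  classical
  unfold ydFun
  rw [if_neg h, if_neg h']

theorem ydInv_1 {x : D} (h : x ∈ X) : ydInv σ α X x = α x := by
  classical
  exact if_pos h

theorem ydInv_2 {x : D} (h : x ∉ X) (h' : α (σ⁻¹ x) ∈ X) : ydInv σ α X x = α (σ⁻¹ x) := by
  classical
  unfold ydInv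
  rw [if_neg h, if_pos h']

theorem ydInv_3 {x : D} (h : x ∉ X) (h' : α (σ⁻¹ x) ∉ X) : ydInv σ α X x = σ⁻¹ x := by
  classical
  unfold ydInv
  rw [if_neg h, if_neg h']

theorem ydAlt_1 {x : D} (h : x ∈ X) : ydAlt σ α X x = α (σ⁻¹ x) := by
  classical
  exact if_pos h

theorem ydAlt_2 {x : D} (h : x ∉ X) (h' : α x ∈ X) : ydAlt σ α X x = σ (α x) := by
  classical
  unfold ydAlt
  rw [if_neg h, if_pos h']

theorem ydAlt_3 {x : D} (h : x ∉ X) (h' : α x ∉ X) : ydAlt σ α X x = α x := by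
  classical
  unfold ydAlt
  rw [if_neg h, if_neg h']

/-- The hypotheses: `X` is a union of cycles of `σ`, disjoint from its image under the
involution `α`. -/
structure YD (σ α : Perm D) (X : Set D) : Prop where
  inv : ∀ x, α (α x) = x
  ne : ∀ x, α x ≠ x
  stab : ∀ x, σ x ∈ X ↔ x ∈ X
  disj : ∀ x, x ∈ X → α x ∉ X

theorem YD.stab' (h : YD σ α X) (x : D) : σ⁻¹ x ∈ X ↔ x ∈ X := by
  rw [← h.stab (σ⁻¹ x), yd_app_inv]

theorem YD.ydInv_ydFun (h : YD σ α X) (x : D) : ydInv σ α X (ydFun σ α X x) = x := by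
  by_cases h1 : x ∈ X
  · rw [ydFun_1 h1, ydInv_2, yd_inv_app, h.inv]
    · rw [h.stab]; exact h.disj x h1
    · rw [yd_inv_app, h.inv]; exact h1
  · by_cases h2 : α x ∈ X
    · rw [ydFun_2 h1 h2, ydInv_1 h2, h.inv]
    · rw [ydFun_3 h1 h2, ydInv_3, yd_inv_app]
      · rwa [h.stab]
      · rwa [yd_inv_app]

theorem YD.ydFun_ydInv (h : YD σ α X) (x : D) : ydFun σ α X (ydInv σ α X x) = x := by
  by_cases h1 : x ∈ X
  · rw [ydInv_1 h1, ydFun_2 (h.disj x h1) (by rw [h.inv]; exact h1), h.inv]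
  · by_cases h2 : α (σ⁻¹ x) ∈ X
    · rw [ydInv_2 h1 h2, ydFun_1 h2, h.inv, yd_app_inv]
    · rw [ydInv_3 h1 h2, ydFun_3 _ h2, yd_app_inv]
      rwa [h.stab']

theorem YD.ydAlt_ydAlt (h : YD σ α X) (x : D) : ydAlt σ α X (ydAlt σ α X x) = x := by
  by_cases h1 : x ∈ X
  · have h2 : σ⁻¹ x ∈ X := (h.stab' x).2 h1
    rw [ydAlt_1 h1, ydAlt_2 (h.disj _ h2) (by rw [h.inv]; exact h2), h.inv, yd_app_inv]
  · by_cases h2 : α x ∈ X
    · have h3 : σ (α x) ∈ X := (h.stab _).2 h2
      rw [ydAlt_2 h1 h2, ydAlt_1 h3, yd_inv_app, h.inv]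
    · rw [ydAlt_3 h1 h2, ydAlt_3 h2 (by rw [h.inv]; exact h1), h.inv]

theorem YD.ydAlt_ne (h : YD σ α X) (x : D) : ydAlt σ α X x ≠ x := by
  by_cases h1 : x ∈ X
  · have h2 : σ⁻¹ x ∈ X := (h.stab' x).2 h1
    rw [ydAlt_1 h1]
    intro h3
    exact h.disj _ h2 (by rw [h3]; exact h1)
  · by_cases h2 : α x ∈ X
    · rw [ydAlt_2 h1 h2]
      intro h3
      exact h1 (by rw [← h3]; exact (h.stab _).2 h2)
    · rw [ydAlt_3 h1 h2]
      exact h.ne x

/-- the new rotation -/
noncomputable def YD.rot (h : YD σ α X) : Perm D where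
  toFun := ydFun σ α X
  invFun := ydInv σ α X
  left_inv := h.ydInv_ydFun
  right_inv := h.ydFun_ydInv

/-- the new involution -/
noncomputable def YD.alt (h : YD σ α X) : Perm D where
  toFun := ydAlt σ α X
  invFun := ydAlt σ α X
  left_inv := h.ydAlt_ydAlt
  right_inv := h.ydAlt_ydAlt

theorem YD.rot_1 (h : YD σ α X) {x : D} (h1 : x ∈ X) : h.rot x = σ (α x) := ydFun_1 h1

theorem YD.rot_2 (h : YD σ α X) {x : D} (h1 : x ∉ X) (h2 : α x ∈ X) : h.rot x = α x :=
  ydFun_2 h1 h2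

theorem YD.rot_3 (h : YD σ α X) {x : D} (h1 : x ∉ X) (h2 : α x ∉ X) : h.rot x = σ x :=
  ydFun_3 h1 h2

theorem YD.alt_1 (h : YD σ α X) {x : D} (h1 : x ∈ X) : h.alt x = α (σ⁻¹ x) := ydAlt_1 h1

theorem YD.alt_2 (h : YD σ α X) {x : D} (h1 : x ∉ X) (h2 : α x ∈ X) : h.alt x = σ (α x) :=
  ydAlt_2 h1 h2

theorem YD.alt_3 (h : YD σ α X) {x : D} (h1 : x ∉ X) (h2 : α x ∉ X) : h.alt x = α x :=
  ydAlt_3 h1 h2

theorem YD.alt_alt (h : YD σ α X) (x : D) : h.alt (h.alt x) = x := h.ydAlt_ydAlt x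

theorem YD.alt_ne (h : YD σ α X) (x : D) : h.alt x ≠ x := h.ydAlt_ne x

open Classical in
/-- the base dart in the old map -/
noncomputable def ydBase (α : Perm D) (X : Set D) (x : D) : D := if x ∈ X then α x else x

theorem ydBase_1 {x : D} (h : x ∈ X) : ydBase α X x = α x := by
  classical
  exact if_pos h

theorem ydBase_2 {x : D} (h : x ∉ X) : ydBase α X x = x := by
  classical
  exact if_neg h

theorem YD.eqvGen_out (h : YD σ α X) {x y : D} (hxy : EqvGen (fun x y => σ x = y) x y) :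
    (x ∈ X ↔ y ∈ X) ∧ (x ∉ X → EqvGen (fun x y => h.rot x = y) x y) := by
  induction hxy with
  | rel x y hxy =>
    subst hxy
    refine ⟨(h.stab x).symm, fun h1 => ?_⟩
    by_cases h2 : α x ∈ X
    · refine EqvGen.trans _ (α x) _ (EqvGen.rel _ _ (h.rot_2 h1 h2)) (EqvGen.rel _ _ ?_)
      rw [h.rot_1 h2, h.inv]
    · exact EqvGen.rel _ _ (h.rot_3 h1 h2)
  | refl x => exact ⟨Iff.rfl, fun _ => EqvGen.refl _⟩
  | symm x y _ ih => exact ⟨ih.1.symm, fun h1 => EqvGen.symm _ _ (ih.2 fun h2 => h1 (ih.1.1 h2))⟩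
  | trans x y z _ _ ih1 ih2 =>
    exact ⟨ih1.1.trans ih2.1, fun h1 => EqvGen.trans _ _ _ (ih1.2 h1)
      (ih2.2 fun h2 => h1 (ih1.1.2 h2))⟩

theorem YD.eqvGen_base (h : YD σ α X) {x y : D} (hxy : EqvGen (fun x y => h.rot x = y) x y) :
    EqvGen (fun x y => σ x = y) (ydBase α X x) (ydBase α X y) := by
  induction hxy with
  | rel x y hxy =>
    subst hxy
    by_cases h1 : x ∈ X
    · rw [ydBase_1 h1, h.rot_1 h1, ydBase_2 (by rw [h.stab]; exact h.disj x h1)]
      exact EqvGen.rel _ _ rfl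
    · by_cases h2 : α x ∈ X
      · rw [ydBase_2 h1, h.rot_2 h1 h2, ydBase_1 h2, h.inv]
        exact EqvGen.refl _
      · rw [ydBase_2 h1, h.rot_3 h1 h2, ydBase_2 (by rwa [h.stab])]
        exact EqvGen.rel _ _ rfl
  | refl x => exact EqvGen.refl _
  | symm x y _ ih => exact EqvGen.symm _ _ ih
  | trans x y z _ _ ih1 ih2 => exact EqvGen.trans _ _ _ ih1 ih2

theorem YD.base_rel (h : YD σ α X) (x : D) :
    EqvGen (fun x y => h.rot x = y) (ydBase α X x) x := by
  by_cases h1 : x ∈ X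
  · rw [ydBase_1 h1]
    refine EqvGen.rel _ _ ?_
    rw [h.rot_2 (h.disj x h1) (by rw [h.inv]; exact h1), h.inv]
  · rw [ydBase_2 h1]
    exact EqvGen.refl _

theorem YD.base_notMem (h : YD σ α X) (x : D) : ydBase α X x ∉ X := by
  by_cases h1 : x ∈ X
  · rw [ydBase_1 h1]; exact h.disj x h1
  · rwa [ydBase_2 h1]

/-- the new vertices -/
theorem YD.eqvGen_iff (h : YD σ α X) (x y : D) :
    EqvGen (fun x y => h.rot x = y) x y ↔
      EqvGen (fun x y => σ x = y) (ydBase α X x) (ydBase α X y) := by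
  refine ⟨h.eqvGen_base, fun hxy => ?_⟩
  exact EqvGen.trans _ _ _ (EqvGen.symm _ _ (h.base_rel x)) (EqvGen.trans _ _ _
    ((h.eqvGen_out hxy).2 (h.base_notMem x)) (h.base_rel y))

theorem YD.sameCycle_iff [Finite D] (h : YD σ α X) (x y : D) :
    h.rot.SameCycle x y ↔ σ.SameCycle (ydBase α X x) (ydBase α X y) := by
  rw [← eqvGen_iff_sameCycle, ← eqvGen_iff_sameCycle]
  exact h.eqvGen_iff x y

/-! faces -/

theorem YD.face_1 (h : YD σ α X) {x : D} (h1 : x ∈ X) : (h.rot * h.alt) x = σ⁻¹ x := by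
  have h2 : σ⁻¹ x ∈ X := (h.stab' x).2 h1
  rw [Perm.mul_apply, h.alt_1 h1, h.rot_2 (h.disj _ h2) (by rw [h.inv]; exact h2), h.inv]

theorem YD.face_2 (h : YD σ α X) {x : D} (h1 : x ∉ X) (h2 : α x ∈ X) :
    (h.rot * h.alt) x = (σ * α) ((σ * α) x) := by
  rw [Perm.mul_apply, h.alt_2 h1 h2, h.rot_1 ((h.stab _).2 h2)]
  rfl

theorem YD.face_3 (h : YD σ α X) {x : D} (h1 : x ∉ X) (h2 : α x ∉ X) :
    (h.rot * h.alt) x = (σ * α) x := by
  rw [Perm.mul_apply, h.alt_3 h1 h2, h.rot_3 h2 (by rwa [h.inv])]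
  rfl

theorem YD.face_out (h : YD σ α X) {x y : D}
    (hxy : EqvGen (fun x y => (h.rot * h.alt) x = y) x y) :
    (x ∈ X ↔ y ∈ X) ∧ (x ∉ X → EqvGen (fun x y => (σ * α) x = y) x y) ∧
      (x ∈ X → EqvGen (fun x y => σ x = y) x y) := by
  induction hxy with
  | rel x y hxy =>
    subst hxy
    by_cases h1 : x ∈ X
    · rw [h.face_1 h1]
      refine ⟨(h.stab' x).symm, fun h2 => absurd h1 h2, fun _ => EqvGen.symm _ _
        (EqvGen.rel _ _ (yd_app_inv _ _))⟩
    · by_cases h2 : α x ∈ X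
      · rw [h.face_2 h1 h2]
        refine ⟨⟨fun h3 => absurd h3 h1, fun h3 => ?_⟩, fun _ => ?_, fun h3 => absurd h3 h1⟩
        · rw [Perm.mul_apply, h.stab, Perm.mul_apply] at h3
          exact absurd h3 (h.disj _ ((h.stab _).2 h2))
        · exact EqvGen.trans _ _ _ (EqvGen.rel _ _ rfl) (EqvGen.rel _ _ rfl)
      · rw [h.face_3 h1 h2]
        refine ⟨⟨fun h3 => absurd h3 h1, fun h3 => ?_⟩, fun _ => EqvGen.rel _ _ rfl,
          fun h3 => absurd h3 h1⟩
        rw [Perm.mul_apply, h.stab] at h3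
        exact absurd h3 h2
  | refl x => exact ⟨Iff.rfl, fun _ => EqvGen.refl _, fun _ => EqvGen.refl _⟩
  | symm x y _ ih => exact ⟨ih.1.symm, fun h1 => EqvGen.symm _ _ (ih.2.1 fun h2 => h1 (ih.1.1 h2)),
      fun h1 => EqvGen.symm _ _ (ih.2.2 (ih.1.2 h1))⟩
  | trans x y z _ _ ih1 ih2 =>
    exact ⟨ih1.1.trans ih2.1, fun h1 => EqvGen.trans _ _ _ (ih1.2.1 h1)
      (ih2.2.1 fun h2 => h1 (ih1.1.2 h2)), fun h1 => EqvGen.trans _ _ _ (ih1.2.2 h1)
      (ih2.2.2 (ih1.1.1 h1))⟩

open Classical in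
noncomputable def ydNext (σ α : Perm D) (X : Set D) (x : D) : D := if x ∈ X then σ (α x) else x

theorem ydNext_1 {x : D} (h : x ∈ X) : ydNext σ α X x = σ (α x) := by
  classical
  exact if_pos h

theorem ydNext_2 {x : D} (h : x ∉ X) : ydNext σ α X x = x := by
  classical
  exact if_neg h

theorem YD.face_in (h : YD σ α X) {x y : D} (hxy : EqvGen (fun x y => (σ * α) x = y) x y) :
    EqvGen (fun x y => (h.rot * h.alt) x = y) (ydNext σ α X x) (ydNext σ α X y) := by
  induction hxy with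
  | rel x y hxy =>
    subst hxy
    by_cases h1 : x ∈ X
    · have h3 : (σ * α) x ∉ X := by
        rw [Perm.mul_apply, h.stab]; exact h.disj x h1
      rw [ydNext_1 h1, ydNext_2 h3]
      exact EqvGen.refl _
    · by_cases h2 : α x ∈ X
      · have h3 : (σ * α) x ∈ X := by
          rw [Perm.mul_apply, h.stab]; exact h2
        rw [ydNext_2 h1, ydNext_1 h3]
        exact EqvGen.rel _ _ (h.face_2 h1 h2)
      · have h3 : (σ * α) x ∉ X := by
          rw [Perm.mul_apply, h.stab]; exact h2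
        rw [ydNext_2 h1, ydNext_2 h3]
        exact EqvGen.rel _ _ (h.face_3 h1 h2)
  | refl x => exact EqvGen.refl _
  | symm x y _ ih => exact EqvGen.symm _ _ ih
  | trans x y z _ _ ih1 ih2 => exact EqvGen.trans _ _ _ ih1 ih2

theorem YD.face_cycle (h : YD σ α X) {x y : D} (hx : x ∈ X)
    (hxy : EqvGen (fun x y => σ x = y) x y) :
    EqvGen (fun x y => (h.rot * h.alt) x = y) x y := by
  have key : ∀ {x y : D}, EqvGen (fun x y => σ x = y) x y →
      (x ∈ X → EqvGen (fun x y => (h.rot * h.alt) x = y) x y) := by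
    intro x y hxy
    induction hxy with
    | rel x y hxy =>
      subst hxy
      intro hx
      refine EqvGen.symm _ _ (EqvGen.rel _ _ ?_)
      rw [h.face_1 ((h.stab x).2 hx), yd_inv_app]
    | refl x => exact fun _ => EqvGen.refl _
    | symm x y hxy ih => exact fun h1 => EqvGen.symm _ _ (ih ((h.eqvGen_out hxy).1.2 h1))
    | trans x y z hxy _ ih1 ih2 =>
      exact fun h1 => EqvGen.trans _ _ _ (ih1 h1) (ih2 ((h.eqvGen_out hxy).1.1 h1))
  exact key hxy hx

/-- orbits -/
theorem YD.orb_eq [Finite D] (h : YD σ α X) : orb h.rot h.alt = orb σ α := by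
  refine ncl_congr fun x y => ⟨eqvGen_of_le ?_, eqvGen_of_le ?_⟩
  · have hα : ∀ x, EqvGen (fun x y => σ x = y ∨ α x = y) x (α x) := fun x =>
      EqvGen.rel _ _ (Or.inr rfl)
    have hσ : ∀ x, EqvGen (fun x y => σ x = y ∨ α x = y) x (σ x) := fun x =>
      EqvGen.rel _ _ (Or.inl rfl)
    have hσ' : ∀ x, EqvGen (fun x y => σ x = y ∨ α x = y) x (σ⁻¹ x) := fun x =>
      EqvGen.symm _ _ (EqvGen.rel _ _ (Or.inl (yd_app_inv _ _)))
    rintro x y (rfl | rfl)
    · by_cases h1 : x ∈ X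
      · rw [h.rot_1 h1]; exact EqvGen.trans _ _ _ (hα x) (hσ _)
      · by_cases h2 : α x ∈ X
        · rw [h.rot_2 h1 h2]; exact hα x
        · rw [h.rot_3 h1 h2]; exact hσ x
    · by_cases h1 : x ∈ X
      · rw [h.alt_1 h1]; exact EqvGen.trans _ _ _ (hσ' x) (hα _)
      · by_cases h2 : α x ∈ X
        · rw [h.alt_2 h1 h2]; exact EqvGen.trans _ _ _ (hα x) (hσ _)
        · rw [h.alt_3 h1 h2]; exact hα x
  · have hr : ∀ x, EqvGen (fun x y => h.rot x = y ∨ h.alt x = y) x (h.rot x) := fun x =>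
      EqvGen.rel _ _ (Or.inl rfl)
    have ha : ∀ x, EqvGen (fun x y => h.rot x = y ∨ h.alt x = y) x (h.alt x) := fun x =>
      EqvGen.rel _ _ (Or.inr rfl)
    have hX : ∀ x ∈ X, EqvGen (fun x y => h.rot x = y ∨ h.alt x = y) x (α x) := by
      intro x hx
      refine EqvGen.symm _ _ ?_
      have h1 := hr (α x)
      rwa [h.rot_2 (h.disj x hx) (by rw [h.inv]; exact hx), h.inv] at h1
    have hα : ∀ x, EqvGen (fun x y => h.rot x = y ∨ h.alt x = y) x (α x) := by
      intro x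
      by_cases h1 : x ∈ X
      · exact hX x h1
      · by_cases h2 : α x ∈ X
        · have := hX _ h2
          rw [h.inv] at this
          exact EqvGen.symm _ _ this
        · have := ha x
          rwa [h.alt_3 h1 h2] at this
    rintro x y (rfl | rfl)
    · by_cases h1 : x ∈ X
      · have h3 := ha (α x)
        rw [h.alt_2 (h.disj x h1) (by rw [h.inv]; exact h1), h.inv] at h3
        exact EqvGen.trans _ _ _ (hα x) h3
      · by_cases h2 : α x ∈ X
        · have h3 := hr (α x)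
          rw [h.rot_1 h2, h.inv] at h3
          exact EqvGen.trans _ _ _ (hα x) h3
        · have := hr x
          rwa [h.rot_3 h1 h2] at this
    · exact hα x

open Classical in
/-- conjugation of the involutions -/
noncomputable def ydTau (σ : Perm D) (X : Set D) (x : D) : D := if x ∈ X then σ x else x

theorem YD.cyc_alt [Finite D] (h : YD σ α X) : cyc h.alt = cyc α := by
  classical
  have t1 : ∀ {x}, x ∈ X → ydTau σ X x = σ x := fun hx => if_pos hx
  have t2 : ∀ {x}, x ∉ X → ydTau σ X x = x := fun hx => if_neg hx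
  have t3 : ∀ x, ydTau σ X x ∈ X ↔ x ∈ X := by
    intro x
    by_cases hx : x ∈ X
    · rw [t1 hx]; exact h.stab x
    · rw [t2 hx]
  let τ : Perm D :=
    { toFun := ydTau σ X
      invFun := ydTau σ⁻¹ X
      left_inv := by
        intro x
        by_cases hx : x ∈ X
        · rw [t1 hx]
          show (if σ x ∈ X then σ⁻¹ (σ x) else σ x) = x
          rw [if_pos ((h.stab x).2 hx), yd_inv_app]
        · rw [t2 hx]
          show (if x ∈ X then σ⁻¹ x else x) = x
          rw [if_neg hx]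
      right_inv := by
        intro x
        by_cases hx : x ∈ X
        · have : ydTau σ⁻¹ X x = σ⁻¹ x := if_pos hx
          rw [this, t1 ((h.stab' x).2 hx), yd_app_inv]
        · have : ydTau σ⁻¹ X x = x := if_neg hx
          rw [this, t2 hx] }
  have hτ : ∀ x, h.alt (τ x) = τ (α x) := by
    intro x
    by_cases hx : x ∈ X
    · have e1 : τ x = σ x := t1 hx
      have e2 : τ (α x) = α x := t2 (h.disj x hx)
      rw [e1, e2, h.alt_1 ((h.stab x).2 hx), yd_inv_app]
    · have e1 : τ x = x := t2 hx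
      rw [e1]
      by_cases h2 : α x ∈ X
      · have e2 : τ (α x) = σ (α x) := t1 h2
        rw [e2, h.alt_2 hx h2]
      · have e2 : τ (α x) = α x := t2 h2
        rw [e2, h.alt_3 hx h2]
  symm
  refine ncl_equiv τ _ _ fun x y => ?_
  rw [hτ]
  exact τ.injective.eq_iff.symm

theorem card_empty_classes {r : D → D → Prop} {P : D → Prop}
    (h : ∀ x, ∃ y, P y ∧ EqvGen r x y) :
    Nat.card {q : Quot r // ¬ ∃ x, P x ∧ Quot.mk r x = q} = 0 := by
  have : IsEmpty {q : Quot r // ¬ ∃ x, P x ∧ Quot.mk r x = q} := by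
    refine ⟨fun q => ?_⟩
    obtain ⟨q, hq⟩ := q
    induction q using Quot.ind with
    | mk x =>
      obtain ⟨y, hy, hxy⟩ := h x
      exact hq ⟨y, hy, Quot.eqvGen_sound (EqvGen.symm _ _ hxy)⟩
  exact Nat.card_of_isEmpty

/-- **The Y-Delta transformation keeps the genus.** -/
theorem YD.defect_eq [Finite D] (h : YD σ α X) : defect h.rot h.alt = defect σ α := by
  classical
  -- the number of cycles of `σ` in `X`
  set m := Nat.card {q : Quot (fun x y => σ x = y) // ¬ ∃ x, x ∉ X ∧ Quot.mk _ x = q} with hm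
  have v : cyc σ = ncl (fun x y : {x // x ∉ X} => EqvGen (fun x y => σ x = y) x.1 y.1) + m := by
    refine ncl_split _ (fun x => x ∉ X) _ fun x y => ⟨fun hxy => ?_, fun hxy => EqvGen.rel _ _ hxy⟩
    induction hxy with
    | rel x y h => exact h
    | refl x => exact EqvGen.refl _
    | symm x y _ ih => exact EqvGen.symm _ _ ih
    | trans x y z _ _ ih1 ih2 => exact EqvGen.trans _ _ _ ih1 ih2
  have v' : cyc h.rot =
      ncl (fun x y : {x // x ∉ X} => EqvGen (fun x y => σ x = y) x.1 y.1) := by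
    have h1 : cyc h.rot = _ + _ := ncl_split (fun x y => h.rot x = y) (fun x => x ∉ X)
      (fun x y : {x // x ∉ X} => EqvGen (fun x y => σ x = y) x.1 y.1) (fun x y => ?_)
    · rw [h1, card_empty_classes, add_zero]
      intro x
      exact ⟨ydBase α X x, h.base_notMem x, EqvGen.symm _ _ (h.base_rel x)⟩
    · have h2 := h.eqvGen_iff x.1 y.1
      rw [ydBase_2 x.2, ydBase_2 y.2] at h2
      rw [h2]
      constructor
      · intro hxy
        induction hxy with
        | rel x y h => exact h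
        | refl x => exact EqvGen.refl _
        | symm x y _ ih =>
          exact EqvGen.symm _ _ (ih (by
            have h2 := h.eqvGen_iff x.1 y.1
            rwa [ydBase_2 x.2, ydBase_2 y.2] at h2))
        | trans x y z _ _ ih1 ih2 =>
          exact EqvGen.trans _ _ _ (ih1 (by
            have h2 := h.eqvGen_iff x.1 y.1
            rwa [ydBase_2 x.2, ydBase_2 y.2] at h2)) (ih2 (by
            have h2 := h.eqvGen_iff y.1 z.1
            rwa [ydBase_2 y.2, ydBase_2 z.2] at h2))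
      · intro hxy
        exact EqvGen.rel _ _ hxy
  -- faces
  have f : cyc (σ * α) =
      ncl (fun x y : {x // x ∉ X} => EqvGen (fun x y => (σ * α) x = y) x.1 y.1) := by
    have h1 : cyc (σ * α) = _ + _ := ncl_split (fun x y => (σ * α) x = y) (fun x => x ∉ X)
      (fun x y : {x // x ∉ X} => EqvGen (fun x y => (σ * α) x = y) x.1 y.1) (fun x y => ?_)
    · rw [h1, card_empty_classes, add_zero]
      intro x
      by_cases hx : x ∈ X
      · exact ⟨(σ * α) x, by rw [Perm.mul_apply, h.stab]; exact h.disj x hx, EqvGen.rel _ _ rfl⟩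
      · exact ⟨x, hx, EqvGen.refl _⟩
    · refine ⟨fun hxy => ?_, fun hxy => EqvGen.rel _ _ hxy⟩
      induction hxy with
      | rel x y h => exact h
      | refl x => exact EqvGen.refl _
      | symm x y _ ih => exact EqvGen.symm _ _ ih
      | trans x y z _ _ ih1 ih2 => exact EqvGen.trans _ _ _ ih1 ih2
  have fiff : ∀ x y : {x // x ∉ X}, EqvGen (fun x y => (h.rot * h.alt) x = y) x.1 y.1 ↔
      EqvGen (fun x y => (σ * α) x = y) x.1 y.1 := by
    intro x y
    refine ⟨fun hxy => (h.face_out hxy).2.1 x.2, fun hxy => ?_⟩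
    have := h.face_in hxy
    rwa [ydNext_2 x.2, ydNext_2 y.2] at this
  have f' : cyc (h.rot * h.alt) =
      ncl (fun x y : {x // x ∉ X} => EqvGen (fun x y => (σ * α) x = y) x.1 y.1) + m := by
    have h1 : cyc (h.rot * h.alt) = _ + _ := ncl_split (fun x y => (h.rot * h.alt) x = y)
      (fun x => x ∉ X)
      (fun x y : {x // x ∉ X} => EqvGen (fun x y => (σ * α) x = y) x.1 y.1) (fun x y => ?_)
    · rw [h1]
      congr 1
      symm
      refine card_miss _ _ (fun x => x ∉ X) (fun x hx y => ?_) (fun x hx z hz => ?_)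
      · have hxX : x ∈ X := not_not.1 (hx x (EqvGen.refl _))
        exact ⟨fun hxy => h.face_cycle hxX hxy, fun hxy => (h.face_out hxy).2.2 hxX⟩
      · have hxX : x ∈ X := not_not.1 (hx x (EqvGen.refl _))
        exact not_not.2 ((h.eqvGen_out hz).1.1 hxX)
    · rw [fiff]
      constructor
      · intro hxy
        induction hxy with
        | rel x y h => exact h
        | refl x => exact EqvGen.refl _
        | symm x y _ ih => exact EqvGen.symm _ _ ih
        | trans x y z _ _ ih1 ih2 => exact EqvGen.trans _ _ _ ih1 ih2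
      · intro hxy
        exact EqvGen.rel _ _ hxy
  unfold defect
  rw [v, v', f, f', h.cyc_alt, h.orb_eq]
  push_cast
  ring

end map

end Pool.Agent.Lib.MP_5854e1_co
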